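import Mathlib

/-!
# Shortcuts for instance search

Instances which Mathlib finds slowly, in the form of reducible definitions and theorems; the files of this
directory declare them as local instances where this makes them faster.
-/

namespace Pool.Agent.Lib.MP_89bcae_ag.Brt

universe u v

/-- Fields have no torsion over a field (shortcut for instance search). -/
theorem tffFields {K S : Type*} [Field K] [Field S] [Algebra K S] : Module.IsTorsionFree K S :=
  inferInstance

section IntermediateField

variable {K : Type u} {L : Type v} [Field K] [Field L] [Algebra K L] {E : IntermediateField K L}

noncomputable abbrev siField : Field E := IntermediateField.toField E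

noncomputable abbrev siAlg : Algebra K E := inferInstance

noncomputable abbrev siAlgTop : Algebra E L := inferInstance

noncomputable abbrev siCommRing : CommRing E := Field.toCommRing

noncomputable abbrev siCommSemiring : CommSemiring E := Semifield.toCommSemiring

noncomputable abbrev siRing : Ring E := DivisionRing.toRing

noncomputable abbrev siSemiring : Semiring E := DivisionSemiring.toSemiring

noncomputable abbrev siZero : Zero E := MulZeroClass.toZero

theorem siTower : IsScalarTower K E L := inferInstance

end IntermediateField

section Laurent

variable {F : Type u} [Field F]

noncomputable abbrev shField : Field (HahnSeries ℤ F) := inferInstance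

noncomputable abbrev shCommRing : CommRing (HahnSeries ℤ F) := Field.toCommRing

noncomputable abbrev shCommSemiring : CommSemiring (HahnSeries ℤ F) := Semifield.toCommSemiring

noncomputable abbrev shRing : Ring (HahnSeries ℤ F) := DivisionRing.toRing

noncomputable abbrev shSemiring : Semiring (HahnSeries ℤ F) := DivisionSemiring.toSemiring

end Laurent

end Pool.Agent.Lib.MP_89bcae_ag.Brt
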