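import Mathlib
import Pool.Agent.Lib.MP_89bcae_ag.Tk.K000

set_option linter.all false
attribute [local instance 100000] Pool.Agent.Lib.MP_89bcae_ag.Brt.tffFields

section

/-!
# Lifting the Frobenius automorphism of a finite residue field
-/

open Polynomial

namespace Pool.Agent.Lib.MP_89bcae_ag

set_option linter.unusedSectionVars false
set_option linter.style.haveILetI false

section Red

variable {R F κ Fκ : Type*} [CommRing R] [IsDomain R] [Field F] [Algebra R F] [FaithfulSMul R F]
  [Field κ] [Field Fκ] [Algebra κ Fκ] [IsAlgClosed Fκ]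

/-- Extension of the reduction to the integral closure. -/
lemma exists_red14 (π : R →+* κ) (hπ : Function.Surjective π) :
    ∃ ρ : integralClosure R F →+* Fκ,
      ∀ r, ρ (algebraMap R (integralClosure R F) r) = algebraMap κ Fκ (π r) := by
  set O := integralClosure R F with hO
  have hmax : (RingHom.ker π).IsMaximal := RingHom.ker_isMaximal_of_surjective π hπ
  have hinj : Function.Injective (algebraMap R O) := FaithfulSMul.algebraMap_injective R O
  obtain ⟨Q, hQ, hQ'⟩ := Ideal.exists_ideal_over_maximal_of_isIntegral (S := O) (RingHom.ker π) (by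
    rw [(RingHom.injective_iff_ker_eq_bot _).mp hinj]
    exact bot_le)
  letI := Ideal.Quotient.field Q
  -- the map from `κ`
  let e : κ →+* O ⧸ Q := (RingHom.liftOfRightInverse π _ (Function.rightInverse_surjInv hπ))
    ⟨(Ideal.Quotient.mk Q).comp (algebraMap R O), by
      intro x hx
      rw [RingHom.mem_ker, RingHom.comp_apply, Ideal.Quotient.eq_zero_iff_mem, ← Ideal.mem_comap, hQ']
      exact hx⟩
  have he : ∀ r, e (π r) = Ideal.Quotient.mk Q (algebraMap R O r) := fun r =>
    RingHom.liftOfRightInverse_comp_apply π _ _ _ r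
  letI : Algebra κ (O ⧸ Q) := e.toAlgebra
  have halg : Algebra.IsAlgebraic κ (O ⧸ Q) := by
    refine ⟨fun x => ?_⟩
    obtain ⟨x, rfl⟩ := Ideal.Quotient.mk_surjective x
    have hx : IsIntegral R x := Algebra.IsIntegral.isIntegral x
    obtain ⟨p, hp, hpx⟩ := hx
    apply IsIntegral.isAlgebraic
    refine ⟨p.map π, hp.map π, ?_⟩
    rw [eval₂_map]
    have h1 : (algebraMap κ (O ⧸ Q)).comp π = (Ideal.Quotient.mk Q).comp (algebraMap R O) :=
      RingHom.ext he
    rw [h1, ← hom_eval₂, hpx, map_zero]
  let f : (O ⧸ Q) →ₐ[κ] Fκ := IsAlgClosed.lift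
  refine ⟨(f : (O ⧸ Q) →+* Fκ).comp (Ideal.Quotient.mk Q), fun r => ?_⟩
  rw [RingHom.comp_apply, ← he]
  exact f.commutes (π r)

end Red

section Frob

variable {R K F κ Fκ : Type*} [CommRing R] [IsDomain R] [IsIntegrallyClosed R] [Field K]
  [Algebra R K] [IsFractionRing R K] [Field F] [Algebra K F] [Algebra R F] [IsScalarTower R K F]
  [Field κ] [Field Fκ] [Algebra κ Fκ]

attribute [local instance] Ideal.Quotient.field in
/-- The Frobenius element of a finite Galois extension. -/
lemma exists_sigma14 [Finite κ] (π : R →+* κ) (hπ : Function.Surjective π)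
    (ρ : integralClosure R F →+* Fκ)
    (hρ : ∀ r, ρ (algebraMap R (integralClosure R F) r) = algebraMap κ Fκ (π r))
    (M : IntermediateField K F) [FiniteDimensional K M] [IsGalois K M] :
    ∃ σ : M ≃ₐ[K] M, ∀ (x : M) (hx : IsIntegral R (x : F)),
      ∃ hx' : IsIntegral R ((σ x : M) : F), ρ ⟨(σ x : M), hx'⟩ = ρ ⟨x, hx⟩ ^ Nat.card κ := by
  have hRM : IsScalarTower R M F := IsScalarTower.of_algebraMap_eq fun r => by
    rw [IsScalarTower.algebraMap_apply R K F, IsScalarTower.algebraMap_apply R K M]
    rfl
  set B := integralClosure R M with hB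
  have hBF : ∀ x : B, IsIntegral R (((x : M) : F)) := fun x =>
    (x.2 : IsIntegral R (x : M)).map (IsScalarTower.toAlgHom R M F)
  let ι : B →+* integralClosure R F :=
    { toFun := fun x => ⟨((x : M) : F), hBF x⟩
      map_one' := rfl
      map_mul' := fun _ _ => rfl
      map_zero' := rfl
      map_add' := fun _ _ => rfl }
  set Q : Ideal B := RingHom.ker (ρ.comp ι) with hQ
  have hQp : Q.IsPrime := RingHom.ker_isPrime _
  have hfr : IsFractionRing B M := integralClosure.isFractionRing_of_finite_extension K M
  have hinv : Algebra.IsInvariant R B (B ≃ₐ[R] B) := Algebra.isInvariant_of_isGalois' R K M B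
  have hfinG : Finite (B ≃ₐ[R] B) := Finite.of_equiv _ (galRestrict R K M B).toEquiv
  -- the prime below
  have hP : Q.under R = RingHom.ker π := by
    ext r
    rw [Ideal.under_def, Ideal.mem_comap, hQ, RingHom.mem_ker, RingHom.mem_ker, RingHom.comp_apply]
    have h1 : ι (algebraMap R B r) = algebraMap R (integralClosure R F) r := by
      apply Subtype.ext
      change ((algebraMap R M r : M) : F) = algebraMap R F r
      exact (IsScalarTower.algebraMap_apply R M F r).symm
    rw [h1, hρ, FaithfulSMul.algebraMap_eq_zero_iff]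
  have hPm : (Q.under R).IsMaximal := by
    rw [hP]
    exact RingHom.ker_isMaximal_of_surjective π hπ
  have hint : Algebra.IsIntegral R B := inferInstance
  have hQm : Q.IsMaximal := Ideal.isMaximal_of_isIntegral_of_isMaximal_comap Q hPm
  have hequiv : (R ⧸ Q.under R) ≃ κ := by
    rw [hP]
    exact (RingHom.quotientKerEquivOfSurjective hπ).toEquiv
  have hfin : Finite (R ⧸ Q.under R) := Finite.of_equiv _ hequiv.symm
  have hsep : Algebra.IsSeparable (R ⧸ Q.under R) (B ⧸ Q) := by
    have h0 : Algebra.IsIntegral (R ⧸ Q.under R) (B ⧸ Q) := inferInstance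
    have h1 : Algebra.IsAlgebraic (R ⧸ Q.under R) (B ⧸ Q) :=
      ⟨fun x => (h0.isIntegral x).isAlgebraic⟩
    exact Algebra.IsAlgebraic.isSeparable_of_perfectField
  have hmf : Module.Finite (R ⧸ Q.under R) (B ⧸ Q) :=
    Ideal.Quotient.finite_of_isInvariant (B ≃ₐ[R] B) (Q.under R) Q
  have hfinB : Finite (B ⧸ Q) := Module.finite_of_finite (R ⧸ Q.under R)
  obtain ⟨τ, hτ⟩ := IsArithFrobAt.exists_of_isInvariant R (B ≃ₐ[R] B) Q
  refine ⟨(galRestrict R K M B).symm τ, fun x hx => ?_⟩
  have hxM : IsIntegral R x := by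
    rwa [← isIntegral_algebraMap_iff (A := M) (B := F) (algebraMap M F).injective]
  set y : B := ⟨x, hxM⟩ with hy
  have h2 : (((galRestrict R K M B).symm τ) x : M) = (τ y : B) := by
    have h3 := algebraMap_galRestrict_apply R (B := B) ((galRestrict R K M B).symm τ) y
    rw [MulEquiv.apply_symm_apply] at h3
    exact h3.symm
  have hx' : IsIntegral R ((((galRestrict R K M B).symm τ) x : M) : F) := by
    rw [h2]
    exact hBF _
  refine ⟨hx', ?_⟩
  have h4 := hτ y
  rw [hQ, RingHom.mem_ker, map_sub, map_pow, sub_eq_zero] at h4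
  have h5 : ρ ⟨(((galRestrict R K M B).symm τ) x : M), hx'⟩ = (ρ.comp ι) (τ y) := by
    rw [RingHom.comp_apply]
    congr 1
    apply Subtype.ext
    exact congrArg (fun z : M => (z : F)) h2
  rw [h5]
  have h6 : Nat.card κ = Nat.card (R ⧸ Q.under R) := (Nat.card_congr hequiv).symm
  rw [h6]
  exact h4

/-- **Lifting Frobenius.** -/
theorem exists_frob_lift14 [Finite κ] [IsAlgClosed F] [Algebra.IsAlgebraic K F] (π : R →+* κ)
    (hπ : Function.Surjective π) (ρ : integralClosure R F →+* Fκ)
    (hρ : ∀ r, ρ (algebraMap R (integralClosure R F) r) = algebraMap κ Fκ (π r))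
    (S : Finset F) (hS : ∀ x ∈ S, IsSeparable K x) :
    ∃ (φ : F ≃ₐ[K] F) (M : Set F), (∀ x ∈ S, x ∈ M) ∧ ∀ x ∈ M, φ x ∈ M ∧
      ∀ hx : IsIntegral R x, ∃ hx' : IsIntegral R (φ x),
        ρ ⟨φ x, hx'⟩ = ρ ⟨x, hx⟩ ^ Nat.card κ := by
  classical
  have hcl : IsAlgClosure K F := ⟨inferInstance, inferInstance⟩
  have hnF : Normal K F := IsAlgClosure.normal K F
  set M₀ : IntermediateField K F := IntermediateField.adjoin K (S : Set F) with hM₀
  have hfd : FiniteDimensional K M₀ :=
    IntermediateField.finiteDimensional_adjoin fun x _ => Algebra.IsIntegral.isIntegral x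
  have hsep₀ : Algebra.IsSeparable K M₀ :=
    (IntermediateField.isSeparable_adjoin_iff_isSeparable (F := K) (E := F)).mpr hS
  set M : IntermediateField K F := IntermediateField.normalClosure K M₀ F with hM
  have hMn : Normal K M := normalClosure.normal K M₀ F
  have hMfd : FiniteDimensional K M := normalClosure.is_finiteDimensional K M₀ F
  have hMs : Algebra.IsSeparable K M := by
    rw [← le_separableClosure_iff, hM, normalClosure_le_iff]
    intro f
    have : Algebra.IsSeparable K f.fieldRange :=
      AlgEquiv.Algebra.isSeparable (AlgEquiv.ofInjectiveField f)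
    exact le_separableClosure K F _
  have hMG : IsGalois K M := ⟨⟩
  obtain ⟨σ, hσ⟩ := exists_sigma14 π hπ ρ hρ M
  refine ⟨σ.liftNormal F, (M : Set F), fun x hx => ?_, fun x hx => ?_⟩
  · exact (IntermediateField.le_normalClosure M₀) (IntermediateField.subset_adjoin K _ hx)
  · have h1 : (σ.liftNormal F) x = ((σ ⟨x, hx⟩ : M) : F) := σ.liftNormal_commutes F ⟨x, hx⟩
    rw [h1]
    exact ⟨(σ ⟨x, hx⟩).2, fun hi => hσ ⟨x, hx⟩ hi⟩

end Frob

end Pool.Agent.Lib.MP_89bcae_ag

end

section

/-!
# The places `t = a` of `F(t)`, their completions and the automorphisms of these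
-/

open Polynomial IsDedekindDomain Topology

open scoped Classical WithZeroTopology

namespace Pool.Agent.Lib.MP_89bcae_ag.Sup

set_option linter.unusedSectionVars false

section Place

variable {F : Type*} [Field F]

/-- The place `t = τ` of `F(t)`. -/
noncomputable def plc (τ : F) : HeightOneSpectrum F[X] where
  asIdeal := Ideal.span {X - C τ}
  isPrime := (Ideal.span_singleton_prime (X_sub_C_ne_zero τ)).mpr (prime_X_sub_C τ)
  ne_bot := by rw [Ne, Ideal.span_singleton_eq_bot]; exact X_sub_C_ne_zero τ

variable (L : Type*) [Field L] [Algebra F[X] L] [IsFractionRing F[X] L]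

lemma val_algebraMap (τ : F) (p : F[X]) :
    Valued.v (algebraMap F[X] ((plc τ).adicCompletion L) p) = (plc τ).intValuation p :=
  (HeightOneSpectrum.valuedAdicCompletion_eq_valuation (K := L) (plc τ) p).trans
    ((plc τ).valuation_of_algebraMap p)


lemma val_X_sub_C (τ : F) :
    Valued.v (algebraMap F[X] ((plc τ).adicCompletion L) (X - C τ)) =
      WithZero.exp (-1 : ℤ) := by
  rw [val_algebraMap]
  exact (plc τ).intValuation_singleton (X_sub_C_ne_zero τ) rfl

lemma val_eq_one (τ : F) {p : F[X]} (hp : p.eval τ ≠ 0) :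
    Valued.v (algebraMap F[X] ((plc τ).adicCompletion L) p) = 1 := by
  rw [val_algebraMap, HeightOneSpectrum.intValuation_eq_one_iff]
  change p ∉ Ideal.span {X - C τ}
  rw [Ideal.mem_span_singleton, dvd_iff_isRoot]
  exact hp

end Place

section Resid

variable {F : Type*} [Field F] (L : Type*) [Field L] [Algebra F[X] L] [IsFractionRing F[X] L]

lemma val_lt_one_of_root (τ : F) {p : F[X]} (hp : p.eval τ = 0) :
    Valued.v (algebraMap F[X] ((plc τ).adicCompletion L) p) < 1 := by
  rw [val_algebraMap, HeightOneSpectrum.intValuation_lt_one_iff_mem]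
  change p ∈ Ideal.span {X - C τ}
  rw [Ideal.mem_span_singleton, dvd_iff_isRoot]
  exact hp

/-- Every integral element of the completion at `t = τ` is congruent to a constant. -/
lemma exists_residue (τ : F) (x : (plc τ).adicCompletion L) (hx : Valued.v x ≤ 1) :
    ∃ c : F, Valued.v (x - algebraMap F[X] _ (C c)) < 1 := by
  -- approximate by an element of `L`
  obtain ⟨y, hy⟩ : ∃ y : L, Valued.v (x - algebraMap L ((plc τ).adicCompletion L) y) < 1 := by
    have h1 := HeightOneSpectrum.denseRange_algebraMap L (plc τ)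
    have hcont : Continuous (Valued.v : (plc τ).adicCompletion L → WithZero (Multiplicative ℤ)) :=
      Valued.continuous_valuation_of_surjective
        (HeightOneSpectrum.valuedAdicCompletion_surjective L (plc τ))
    have h2 : IsOpen {z : (plc τ).adicCompletion L | Valued.v (x - z) < 1} := by
      have : {z : (plc τ).adicCompletion L | Valued.v (x - z) < 1} =
          (fun z => Valued.v (x - z)) ⁻¹' (Set.Iio (1 : WithZero (Multiplicative ℤ))) := rfl
      rw [this]
      exact (WithZeroTopology.isOpen_Iio).preimage (hcont.comp (continuous_const.sub continuous_id))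
    obtain ⟨z, hz, y, rfl⟩ := h1.inter_open_nonempty _ h2 ⟨x, by simp⟩
    exact ⟨y, hz⟩
  have hy1 : Valued.v (algebraMap L ((plc τ).adicCompletion L) y) ≤ 1 := by
    have : algebraMap L ((plc τ).adicCompletion L) y =
      x - (x - algebraMap L ((plc τ).adicCompletion L) y) := by ring
    rw [this]
    apply le_trans (Valuation.map_sub _ _ _)
    exact max_le hx hy.le
  have hval : ∀ z : L, Valued.v (algebraMap L ((plc τ).adicCompletion L) z) =
      (plc τ).valuation L z := fun z =>
    HeightOneSpectrum.valuedAdicCompletion_eq_valuation' (plc τ) z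
  rw [hval] at hy1
  obtain ⟨a, ha⟩ := HeightOneSpectrum.exists_valuation_sub_lt_of_integer (plc τ) hy1 1
  refine ⟨a.eval τ, ?_⟩
  have e1 : x - algebraMap F[X] ((plc τ).adicCompletion L) (C (a.eval τ)) =
      (x - algebraMap L ((plc τ).adicCompletion L) y) -
        algebraMap L ((plc τ).adicCompletion L) (algebraMap F[X] L a - y) +
        algebraMap F[X] ((plc τ).adicCompletion L) (a - C (a.eval τ)) := by
    rw [map_sub, map_sub, ← IsScalarTower.algebraMap_apply]
    ring
  rw [e1]
  apply lt_of_le_of_lt (Valuation.map_add _ _ _)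
  apply max_lt
  · apply lt_of_le_of_lt (Valuation.map_sub _ _ _)
    apply max_lt hy
    rw [hval]
    exact ha
  · apply val_lt_one_of_root
    simp

end Resid

section Cont

variable {A B : Type*} [Field A] [Field B] {v : Valuation A (WithZero (Multiplicative ℤ))}
  {v' : Valuation B (WithZero (Multiplicative ℤ))}

lemma continuous_congr8 (f : A ≃+* B) (h : ∀ x, v' (f x) = v x)
    (hsurj : Function.Surjective v) : Continuous (WithVal.congr v v' f) := by
  apply continuous_of_continuousAt_zero (WithVal.congr v v' f)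
  unfold ContinuousAt
  rw [map_zero, (Valued.hasBasis_nhds_zero (WithVal v') _).tendsto_right_iff]
  intro γ _
  set δ := MonoidWithZeroHom.ValueGroup₀.embedding γ.1 with hδ
  have hδ0 : δ ≠ 0 := by
    rw [hδ]
    simp
  obtain ⟨x₀, hx₀⟩ := hsurj δ
  have hne : (Valued.v.restrict (WithVal.toVal v x₀)) ≠ 0 := by
    intro h0
    rw [Valuation.restrict_eq_zero_iff] at h0
    rw [WithVal.valued_toVal, hx₀] at h0
    exact hδ0 h0
  have hopen := (Valued.isOpen_ball (WithVal v)
    (Valued.v.restrict (WithVal.toVal v x₀))).mem_nhds (x := 0) (by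
      simp only [Set.mem_ofPred_eq, map_zero]
      exact zero_lt_iff.mpr hne)
  filter_upwards [hopen] with x hx
  change Valued.v.restrict _ < γ.1
  rw [Valuation.restrict_lt_iff_lt_embedding]
  have h1 : Valued.v x < Valued.v (WithVal.toVal v x₀) := (Valuation.restrict_lt_iff _).mp hx
  have h1' : v x.ofVal < v x₀ := h1
  rw [hx₀] at h1'
  have h2 : Valued.v (WithVal.congr v v' f x) = v x.ofVal := by
    rw [WithVal.congr_apply, WithVal.valued_toVal, h]
  rw [h2]
  exact h1'

/-- The isomorphism of completions induced by an isomorphism compatible with the valuations. -/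
lemma exists_completion_equiv (f : A ≃+* B) (h : ∀ x, v' (f x) = v x)
    (hsurj : Function.Surjective v) (hsurj' : Function.Surjective v') :
    ∃ φ : v.Completion ≃+* v'.Completion,
      (∀ x : A, φ (x : v.Completion) = ((f x : B) : v'.Completion)) ∧
      ∀ x, Valued.v (φ x) = Valued.v x := by
  have hc := continuous_congr8 f h hsurj
  have h' : ∀ y, v (f.symm y) = v' y := by
    intro y
    rw [← h, f.apply_symm_apply]
  have hc' : Continuous (WithVal.congr v v' f).symm := continuous_congr8 f.symm h' hsurj'
  refine ⟨UniformSpace.Completion.mapRingEquiv (WithVal.congr v v' f) hc hc', ?_, ?_⟩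
  · intro x
    exact UniformSpace.Completion.mapRingHom_coe hc _
  · have h1 : Function.Surjective (Valued.v : v.Completion → WithZero (Multiplicative ℤ)) :=
      Valued.valuedCompletion_surjective_iff.mpr (fun γ => by
        obtain ⟨x, hx⟩ := hsurj γ
        exact ⟨WithVal.toVal v x, hx⟩)
    have h1' : Function.Surjective (Valued.v : v'.Completion → WithZero (Multiplicative ℤ)) :=
      Valued.valuedCompletion_surjective_iff.mpr (fun γ => by
        obtain ⟨x, hx⟩ := hsurj' γ
        exact ⟨WithVal.toVal v' x, hx⟩)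
    have h2 := Valued.continuous_valuation_of_surjective h1
    have h2' := Valued.continuous_valuation_of_surjective h1'
    have h3 : Continuous (UniformSpace.Completion.mapRingEquiv (WithVal.congr v v' f) hc hc') :=
      UniformSpace.Completion.continuous_map
    intro x
    refine UniformSpace.Completion.induction_on x ?_ fun a => ?_
    · exact isClosed_eq (h2'.comp h3) h2
    · have h4 : UniformSpace.Completion.mapRingEquiv (WithVal.congr v v' f) hc hc'
          (a : UniformSpace.Completion (WithVal v)) =
          ((WithVal.congr v v' f a : WithVal v') : UniformSpace.Completion (WithVal v')) :=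
        UniformSpace.Completion.mapRingHom_coe hc _
      rw [h4, Valued.valuedCompletion_apply, Valued.valuedCompletion_apply]
      exact h a.ofVal

end Cont

section Place2

variable {F : Type*} [Field F] (L : Type*) [Field L] [Algebra F[X] L] [IsFractionRing F[X] L]

lemma intValuation_map (σ : F ≃+* F) (τ : F) (p : F[X]) :
    (plc (σ τ)).intValuation (p.map (σ : F →+* F)) = (plc τ).intValuation p := by
  by_cases hp : p = 0
  · rw [hp, Polynomial.map_zero, map_zero, map_zero]
  obtain ⟨q, hq, hqτ⟩ := exists_eq_pow_rootMultiplicity_mul_and_not_dvd p hp τ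
  have h1 : ∀ (τ : F) (q : F[X]) (n : ℕ), ¬ (X - C τ) ∣ q →
      (plc τ).intValuation ((X - C τ) ^ n * q) = WithZero.exp (-1 : ℤ) ^ n := by
    intro τ q n hq
    rw [map_mul, map_pow]
    have e1 : (plc τ).intValuation (X - C τ) = WithZero.exp (-1 : ℤ) :=
      (plc τ).intValuation_singleton (X_sub_C_ne_zero τ) rfl
    have e2 : (plc τ).intValuation q = 1 := by
      rw [HeightOneSpectrum.intValuation_eq_one_iff]
      change q ∉ Ideal.span {X - C τ}
      rw [Ideal.mem_span_singleton]
      exact hq
    rw [e1, e2, mul_one]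
  rw [hq, h1 τ q _ hqτ, Polynomial.map_mul, Polynomial.map_pow, Polynomial.map_sub,
    Polynomial.map_X, Polynomial.map_C]
  apply h1
  intro h2
  apply hqτ
  rw [dvd_iff_isRoot, IsRoot.def] at h2 ⊢
  rw [eval_map] at h2
  have h3 : eval₂ (σ : F →+* F) (σ τ) q = σ (q.eval τ) :=
    eval₂_hom (p := q) (σ : F →+* F) τ
  rw [h3] at h2
  exact (map_eq_zero σ).mp h2

/-- The automorphism of `F(t)` induced by an automorphism of `F`. -/
noncomputable def coefL (σ : F ≃+* F) : L ≃+* L :=
  IsFractionRing.ringEquivOfRingEquiv (K := L) (L := L) (Polynomial.mapEquiv σ)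

lemma coefL_algebraMap (σ : F ≃+* F) (p : F[X]) :
    coefL L σ (algebraMap F[X] L p) = algebraMap F[X] L (p.map (σ : F →+* F)) :=
  IsFractionRing.ringEquivOfRingEquiv_algebraMap (Polynomial.mapEquiv σ) p

lemma valuation_coefL (σ : F ≃+* F) (τ : F) (x : L) :
    (plc (σ τ)).valuation L (coefL L σ x) = (plc τ).valuation L x := by
  obtain ⟨p, q, hq, rfl⟩ := IsFractionRing.div_surjective (A := F[X]) x
  rw [map_div₀, map_div₀, map_div₀, coefL_algebraMap, coefL_algebraMap,
    HeightOneSpectrum.valuation_of_algebraMap, HeightOneSpectrum.valuation_of_algebraMap,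
    HeightOneSpectrum.valuation_of_algebraMap, HeightOneSpectrum.valuation_of_algebraMap,
    intValuation_map, intValuation_map]

/-- The isomorphism of the completion at `t = τ` with the completion at `t = σ(τ)` induced by an
automorphism `σ` of `F`. -/
lemma exists_adic_equiv (σ : F ≃+* F) (τ : F) :
    ∃ φ : (plc τ).adicCompletion L ≃+* (plc (σ τ)).adicCompletion L,
      (∀ x : L, φ (algebraMap L _ x) = algebraMap L _ (coefL L σ x)) ∧
      ∀ x, Valued.v (φ x) = Valued.v x := by
  obtain ⟨φ, h1, h2⟩ := exists_completion_equiv (v := (plc τ).valuation L)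
    (v' := (plc (σ τ)).valuation L) (coefL L σ) (valuation_coefL L σ τ)
    ((plc τ).valuation_surjective L) ((plc (σ τ)).valuation_surjective L)
  refine ⟨((HeightOneSpectrum.adicCompletion.equiv L (plc τ)).trans φ).trans
    (HeightOneSpectrum.adicCompletion.equiv L (plc (σ τ))).symm, ?_, ?_⟩
  · intro x
    apply HeightOneSpectrum.adicCompletion.ext
    exact h1 x
  · intro x
    exact h2 x.toCompletion

end Place2

end Pool.Agent.Lib.MP_89bcae_ag.Sup

end

section

/-!
# The polynomials `H_i` and their special roots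
-/

namespace Pool.Agent.Lib.MP_89bcae_ag.Frob14

open Polynomial Finset

variable (k F : Type*) [Field k] [Fintype k] [Field F] [Algebra k F]

/-- the elements with `x ^ (q ^ i) = x`, `q = |k|` -/
noncomputable def fixS (i : ℕ) : Finset F := by
  classical
  exact (X ^ (Fintype.card k ^ i) - X : F[X]).roots.toFinset

variable {k F}

theorem one_lt_q_pow {i : ℕ} (hi : 0 < i) : 1 < Fintype.card k ^ i :=
  Nat.one_lt_pow (by omega) Fintype.one_lt_card

omit [Algebra k F] in
theorem mem_fixS {i : ℕ} (hi : 0 < i) {x : F} : x ∈ fixS k F i ↔ x ^ (Fintype.card k ^ i) = x := by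
  classical
  rw [fixS, Multiset.mem_toFinset, mem_roots (FiniteField.X_pow_card_sub_X_ne_zero F
    (one_lt_q_pow hi)), IsRoot.def, eval_sub, eval_pow, eval_X, sub_eq_zero]

theorem card_fixS [IsAlgClosed F] {i : ℕ} (hi : 0 < i) :
    (fixS k F i).card = Fintype.card k ^ i := by
  classical
  have hsep : (X ^ (Fintype.card k ^ i) - X : F[X]).Separable := by
    obtain ⟨p, hp⟩ := CharP.exists k
    have : Fact p.Prime := ⟨CharP.char_is_prime k p⟩
    have : CharP F p := charP_of_injective_algebraMap (algebraMap k F).injective p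
    apply galois_poly_separable p
    obtain ⟨n, hn, hq⟩ := FiniteField.card k p
    rw [hq]
    exact dvd_pow (dvd_pow_self p n.2.ne') hi.ne'
  rw [fixS, Multiset.toFinset_card_of_nodup (nodup_roots hsep),
    ← (IsAlgClosed.splits _).natDegree_eq_card_roots,
    FiniteField.X_pow_card_sub_X_natDegree_eq F (one_lt_q_pow hi)]

omit [Field k] [Algebra k F] in
theorem frob_iterate (i : ℕ) (x : F) :
    (fun y : F => y ^ Fintype.card k)^[i] x = x ^ (Fintype.card k ^ i) := by
  rw [pow_iterate]

/-- the Frobenius map is injective -/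
theorem frob_injective : Function.Injective (fun y : F => y ^ Fintype.card k) := by
  intro a b h
  apply (FiniteField.frobeniusAlgHom k F : F →+* F).injective
  simpa using h

theorem mem_range_of_pow_eq {x : F} (hx : x ^ Fintype.card k = x) :
    x ∈ (algebraMap k F).range := by
  classical
  -- the image of `k` has `q` elements, all roots of `X ^ q - X`
  have h0 : (X ^ (Fintype.card k) - X : F[X]) ≠ 0 :=
    FiniteField.X_pow_card_sub_X_ne_zero F Fintype.one_lt_card
  have hsub : (univ.image (algebraMap k F)) ⊆ (X ^ (Fintype.card k) - X : F[X]).roots.toFinset := by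
    intro y hy
    rw [mem_image] at hy
    obtain ⟨c, _, rfl⟩ := hy
    rw [Multiset.mem_toFinset, mem_roots h0, IsRoot.def, eval_sub, eval_pow, eval_X, ← map_pow,
      FiniteField.pow_card, sub_self]
  have hcard : (X ^ (Fintype.card k) - X : F[X]).roots.toFinset.card ≤
      (univ.image (algebraMap k F)).card := by
    rw [card_image_of_injective _ (algebraMap k F).injective, card_univ]
    refine (Multiset.toFinset_card_le _).trans ((card_roots' _).trans ?_)
    rw [FiniteField.X_pow_card_sub_X_natDegree_eq F Fintype.one_lt_card]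
  have heq := eq_of_subset_of_card_le hsub hcard
  have : x ∈ (X ^ (Fintype.card k) - X : F[X]).roots.toFinset := by
    rw [Multiset.mem_toFinset, mem_roots h0, IsRoot.def, eval_sub, eval_pow, eval_X, hx, sub_self]
  rw [← heq, mem_image] at this
  obtain ⟨c, _, rfl⟩ := this
  exact ⟨c, rfl⟩

theorem aeval_pow_q (g : k[X]) (x : F) (i : ℕ) :
    aeval (x ^ (Fintype.card k ^ i)) g = (aeval x g) ^ (Fintype.card k ^ i) := by
  induction i with
  | zero => simp
  | succ i ih =>
    rw [pow_succ, pow_mul, pow_mul, ← ih]
    have := FiniteField.frobeniusAlgHom k F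
    have h1 := (aeval_algHom_apply (FiniteField.frobeniusAlgHom k F)
      (x ^ (Fintype.card k ^ i)) g)
    simpa using h1


end Pool.Agent.Lib.MP_89bcae_ag.Frob14

end

section

/-!
# Counting the exceptional elements
-/

namespace Pool.Agent.Lib.MP_89bcae_ag.Frob14

open Polynomial Finset

open scoped Classical

section fix

variable (k F : Type*) [Field k] [Fintype k] [Field F] [Algebra k F]

/-- the subfield with `q ^ i` elements -/
def fixI (i : ℕ) : IntermediateField k F where
  toSubalgebra := AlgHom.equalizer (FiniteField.frobeniusAlgHom k F ^ i) (AlgHom.id k F)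
  inv_mem' := by
    intro x hx
    change (FiniteField.frobeniusAlgHom k F ^ i) x⁻¹ = x⁻¹
    rw [map_inv₀]
    congr 1

variable {k F}

theorem frobPow_apply (i : ℕ) (x : F) :
    (FiniteField.frobeniusAlgHom k F ^ i) x = x ^ (Fintype.card k ^ i) := by
  induction i generalizing x with
  | zero => simp
  | succ i ih =>
    rw [pow_succ, AlgHom.mul_apply, ih]
    simp only [FiniteField.frobeniusAlgHom_apply]
    rw [← pow_mul, pow_succ, mul_comm]

theorem mem_fixI {i : ℕ} {x : F} : x ∈ fixI k F i ↔ x ^ (Fintype.card k ^ i) = x := by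
  rw [← frobPow_apply]
  rfl

theorem coe_fixI {i : ℕ} (hi : 0 < i) : ((fixI k F i : IntermediateField k F) : Set F) =
    (fixS k F i : Set F) := by
  ext x
  rw [SetLike.mem_coe, mem_fixI, mem_coe, mem_fixS hi]

theorem finite_fixI {i : ℕ} (hi : 0 < i) : Finite (fixI k F i) := by
  have : ((fixI k F i : IntermediateField k F) : Set F).Finite := by
    rw [coe_fixI hi]; exact finite_toSet _
  exact this.to_subtype

theorem natCard_fixI [IsAlgClosed F] {i : ℕ} (hi : 0 < i) :
    Nat.card (fixI k F i) = Fintype.card k ^ i := by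
  have h1 : Nat.card (fixI k F i) = ((fixI k F i : IntermediateField k F) : Set F).ncard := rfl
  rw [h1, coe_fixI hi, Set.ncard_coe_finset, card_fixS hi]


theorem two_mul_sum_pow_le {q : ℕ} (hq : 3 ≤ q) (m : ℕ) :
    2 * ∑ d ∈ Icc 1 m, q ^ d ≤ 3 * q ^ m := by
  induction m with
  | zero => simp
  | succ m ih =>
    have e : Icc 1 (m + 1) = insert (m + 1) (Icc 1 m) := by
      ext a
      simp only [mem_insert, mem_Icc]
      omega
    rw [e, sum_insert (by simp), pow_succ]
    nlinarith [pow_pos (show 0 < q by omega) m]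

theorem small_card [IsAlgClosed F] (i : ℕ) (hi : 0 < i) :
    {v ∈ fixS k F i | ∃ j, 0 < j ∧ j < i ∧ v ^ (Fintype.card k ^ j) = v}.card ≤
      ∑ d ∈ Icc 1 (i / 2), Fintype.card k ^ d := by
  have hsub : {v ∈ fixS k F i | ∃ j, 0 < j ∧ j < i ∧ v ^ (Fintype.card k ^ j) = v} ⊆
      (Icc 1 (i / 2)).biUnion fun d => fixS k F d := by
    intro v hv
    rw [mem_filter, mem_fixS hi] at hv
    obtain ⟨hvi, j, hj0, hji, hvj⟩ := hv
    set f : F → F := fun y => y ^ Fintype.card k with hf
    have hpi : Function.IsPeriodicPt f i v := by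
      rw [Function.IsPeriodicPt, Function.IsFixedPt, hf, frob_iterate]; exact hvi
    have hpj : Function.IsPeriodicPt f j v := by
      rw [Function.IsPeriodicPt, Function.IsFixedPt, hf, frob_iterate]; exact hvj
    have hdi := hpi.minimalPeriod_dvd
    have hdj := Nat.le_of_dvd hj0 hpj.minimalPeriod_dvd
    have hd0 := hpi.minimalPeriod_pos hi
    rw [mem_biUnion]
    refine ⟨Function.minimalPeriod f v, ?_, ?_⟩
    · rw [mem_Icc]
      refine ⟨hd0, ?_⟩
      obtain ⟨m, hm⟩ := hdi
      have hm2 : 2 ≤ m := by
        by_contra h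
        have h' : m ≤ 1 := by omega
        have : Function.minimalPeriod f v * m ≤ Function.minimalPeriod f v * 1 :=
          Nat.mul_le_mul_left _ h'
        omega
      rw [Nat.le_div_iff_mul_le (by norm_num)]
      conv_rhs => rw [hm]
      exact Nat.mul_le_mul_left _ hm2
    · rw [mem_fixS hd0]
      have := Function.isPeriodicPt_minimalPeriod f v
      rw [Function.IsPeriodicPt, Function.IsFixedPt, hf, frob_iterate] at this
      exact this
  refine (card_le_card hsub).trans (card_biUnion_le.trans (le_of_eq ?_))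
  refine sum_congr rfl fun d hd => ?_
  rw [mem_Icc] at hd
  exact card_fixS (by omega)


end fix

end Pool.Agent.Lib.MP_89bcae_ag.Frob14

end
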