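import Mathlib
import Pool.Agent.Lib.MP_89bcae_ag.Bra.Defs
import Pool.Agent.Lib.MP_89bcae_ag.Tk.K000

set_option linter.all false

section

attribute [local instance 100000] Pool.Agent.Lib.MP_89bcae_ag.Brt.tffFields

section

/-!
ROW A01 (120-220 lines). Automorphisms of finite order congruent to `1` modulo `π²`, and modulo `π`.

Setting: `B` commutative ring, `H` a `B`-module, `ℓ` prime, `z` in `B` with `∑_{i<ℓ} z^i = 0`,
`p = 1 - z`; `p` is injective on `H` and `⋂ p^n H = 0`.
(1) `exists_pi_identity`: there are `v`, `w` in `B` with `p v = ℓ`, `p^(ℓ-1) = ℓ (-1 + p w)`.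
 PROOF. `v = ∑_{k<ℓ} ∑_{i<k} z^i` (`(1 - z) ∑_{i<k} z^i = 1 - z^k`). In `ℤ[X]`,
 `(1 - X)^(ℓ-1) - ∑_{i<ℓ} X^i` is divisible by `ℓ` (modulo `ℓ`: `(1-X)^ℓ = 1 - X^ℓ =
 (1-X) ∑ X^i`, cancel `1 - X`), equal to `ℓ W`; at `X = 1`: `W(1) = -1`, so
 `W = -1 + (1 - X) W₂`; evaluate at `z`.
(2) `ℓ` is injective on `H`: `ℓ x = 0 → p^(ℓ-1) x = 0`. For `n` prime to `ℓ` and `X` in `B`,
 `n + p X` is injective on `H`: if `(n + pX) y = 0` then `n y ∈ pH`, `ℓ y = p v y ∈ pH`, so
 `y = p y₁` (Bezout), `(n + pX) y₁ = 0` by injectivity of `p`, and so on: `y ∈ ⋂ p^n H = 0`.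
(3) `sq_case`: `W = 1 + p² Y`, `W^M x = x`, `M > 0` imply `Y x = 0`.
 PROOF. `W^ℓ = 1 + ℓ p² Y (1 + p X₁)`: binomial theorem: the terms `C(ℓ,j) p^{2j} Y^j`,
 `2 ≤ j < ℓ`, are divisible by `ℓ p² Y · p`; `p^{2ℓ} Y^ℓ = p^{ℓ-1} p^{ℓ+1} Y^ℓ = ℓ (-1+pw) p^{ℓ+1} Y^ℓ`
 too. By induction `W^{ℓ^s} = 1 + ℓ^s p² Y (1 + p X_s)`, and for `M'` prime to `ℓ`,
 `(1 + p² Y')^{M'} = 1 + p² Y' (M' + p X')`. With `M = ℓ^s M'`:
 `0 = (W^M - 1) x = ℓ^s p² (1 + pX)(M' + pX') Y x`; all factors are injective by (2).
(4) `fst_case`: `W = 1 + p N`, `W^M x = x`, `M > 0` imply `(N^ℓ - N) x ∈ p H`.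
 PROOF. `W^ℓ = 1 + ℓ p N + ∑_{2≤j<ℓ} C(ℓ,j) p^j N^j + p^ℓ N^ℓ` and `p^ℓ = ℓ p (-1 + p w)`:
 `W^ℓ = 1 + ℓ p (N - N^ℓ + p X) = 1 + p² Y` with `Y = v (N - N^ℓ + p X)`, and
 `(W^ℓ)^M x = x`, so `Y x = 0` by (3), `p Y = ℓ (N - N^ℓ + pX)`, so `(N^ℓ - N) x = p X x`.
-/

open Polynomial

namespace Pool.Agent.Lib.MP_89bcae_ag.Sup

variable {B H : Type*} [CommRing B] [AddCommGroup H] [Module B H] {ℓ : ℕ}

private lemma A01_poly (hℓ : ℓ.Prime) : ∃ W : ℤ[X],
    (1 - X) ^ (ℓ - 1) - ∑ i ∈ Finset.range ℓ, (X : ℤ[X]) ^ i = C (ℓ : ℤ) * W := by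
  have : Fact ℓ.Prime := ⟨hℓ⟩
  have h1 : ((1 - X : (ZMod ℓ)[X])) ^ (ℓ - 1) = ∑ i ∈ Finset.range ℓ, (X : (ZMod ℓ)[X]) ^ i := by
    have h2 : (1 - X : (ZMod ℓ)[X]) * (1 - X) ^ (ℓ - 1) =
        (1 - X) * ∑ i ∈ Finset.range ℓ, (X : (ZMod ℓ)[X]) ^ i := by
      rw [mul_neg_geom_sum, ← pow_succ', Nat.sub_add_cancel hℓ.one_le, sub_pow_char, one_pow]
    have h3 : (1 - X : (ZMod ℓ)[X]) ≠ 0 := by
      intro h
      have := congrArg (eval 0) h
      simp at this
    exact mul_left_cancel₀ h3 h2
  have h4 : C (ℓ : ℤ) ∣ (1 - X) ^ (ℓ - 1) - ∑ i ∈ Finset.range ℓ, (X : ℤ[X]) ^ i := by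
    rw [C_dvd_iff_dvd_coeff]
    intro i
    rw [← ZMod.intCast_zmod_eq_zero_iff_dvd]
    have h5 : Polynomial.map (Int.castRingHom (ZMod ℓ))
        ((1 - X) ^ (ℓ - 1) - ∑ i ∈ Finset.range ℓ, (X : ℤ[X]) ^ i) = 0 := by
      rw [Polynomial.map_sub, Polynomial.map_pow, Polynomial.map_sub, Polynomial.map_one,
        Polynomial.map_X, Polynomial.map_sum, h1]
      simp only [Polynomial.map_pow, Polynomial.map_X, sub_self]
    have h6 := congrArg (fun q => coeff q i) h5
    simp only [coeff_map, coeff_zero] at h6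
    exact h6
  obtain ⟨W, hW⟩ := h4
  exact ⟨W, hW⟩

lemma exists_pi_identity (hℓ : ℓ.Prime) (z : B) (hz : ∑ i ∈ Finset.range ℓ, z ^ i = 0) :
    ∃ v w : B, (1 - z) * v = ℓ ∧ (1 - z) ^ (ℓ - 1) = ℓ * (-1 + (1 - z) * w) := by
  obtain ⟨W, hW⟩ := A01_poly hℓ
  have hW1 : eval 1 W = -1 := by
    have h1 := congrArg (eval (1 : ℤ)) hW
    have h2 : ℓ - 1 ≠ 0 := Nat.sub_ne_zero_of_lt hℓ.one_lt
    simp only [eval_sub, eval_pow, eval_one, eval_X, sub_self, eval_finsetSum, one_pow,
      Finset.sum_const, Finset.card_range, eval_mul, eval_C, zero_pow h2, smul_eq_mul,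
      nsmul_eq_mul, mul_one] at h1
    have h3 : (ℓ : ℤ) ≠ 0 := by exact_mod_cast hℓ.ne_zero
    have h4 : (ℓ : ℤ) * (eval 1 W + 1) = 0 := by linarith
    have h5 := (mul_eq_zero.1 h4).resolve_left h3
    linarith
  obtain ⟨W2, hW2⟩ := (X_sub_C_dvd_sub_C_eval (a := (1 : ℤ)) (p := W))
  rw [hW1] at hW2
  have hWz : aeval z W = -1 + (1 - z) * (-aeval z W2) := by
    have h1 := congrArg (aeval z) hW2
    simp only [map_sub, map_mul, aeval_X, aeval_C, map_neg, map_one] at h1
    have h2 : aeval z W = (z - 1) * aeval z W2 - 1 := by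
      rw [← h1]
      ring
    rw [h2]
    ring
  refine ⟨∑ k ∈ Finset.range ℓ, ∑ i ∈ Finset.range k, z ^ i, -aeval z W2, ?_, ?_⟩
  · rw [Finset.mul_sum]
    simp only [mul_neg_geom_sum, Finset.sum_sub_distrib, Finset.sum_const, Finset.card_range,
      nsmul_eq_mul, mul_one]
    rw [hz, sub_zero]
  · have h1 := congrArg (aeval z) hW
    simp only [map_sub, map_mul, map_pow, map_sum, aeval_X, aeval_C, map_one, hz, sub_zero] at h1
    rw [h1, hWz]
    simp


section

variable {z : B}


end


end Pool.Agent.Lib.MP_89bcae_ag.Sup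

end

section

/-!
# Invariant classes in the `ℓ`-adic Selmer group of the Jacobian of `y ^ ℓ = ∏ (x - α_i(t)) ^ (W_i)`

`k` is a field, `F` an algebraic closure of `k`, `L` the field of rational functions `F(t)` and `Ω`
an algebraic closure of `L`; the `α_i` are polynomials in `k[t]` and the `W_i` natural numbers. The
Jacobian is that of the smooth projective model of the curve. The polynomials `α_i` are given by
families of lines of the projective plane.
-/

open Polynomial IsDedekindDomain

open scoped Classical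

namespace Pool.Agent.Lib.MP_89bcae_ag.Wt

universe u

/-- The ring `A(x)[y] / (y ^ N - f(x))` of the rational functions on the curve `y ^ N = f(x)`. -/
abbrev FunField (N : ℕ) {A : Type u} [Field A] (f : A[X]) : Type u :=
  AdjoinRoot (X ^ N - C (algebraMap A[X] (RatFunc A) f) : (RatFunc A)[X])

section
variable {N : ℕ} {A : Type u} [Field A] {f : A[X]}

noncomputable instance (priority := 100000) ffCR : CommRing (FunField N f) := inferInstance
noncomputable instance (priority := 100000) ffCSR : CommSemiring (FunField N f) := CommRing.toCommSemiring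
noncomputable instance (priority := 100000) ffR : Ring (FunField N f) := CommRing.toRing
noncomputable instance (priority := 100000) ffSR : Semiring (FunField N f) := CommSemiring.toSemiring
noncomputable instance (priority := 100000) ffNAS : NonAssocSemiring (FunField N f) := Semiring.toNonAssocSemiring
noncomputable instance (priority := 100000) ffNUNAS : NonUnitalNonAssocSemiring (FunField N f) := NonAssocSemiring.toNonUnitalNonAssocSemiring
noncomputable instance (priority := 100000) ffACG : AddCommGroup (FunField N f) := Ring.toAddCommGroup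
noncomputable instance (priority := 100000) ffAG : AddGroup (FunField N f) := AddCommGroup.toAddGroup
noncomputable instance (priority := 100000) ffACM : AddCommMonoid (FunField N f) := NonUnitalNonAssocSemiring.toAddCommMonoid
noncomputable instance (priority := 100000) ffAM : AddMonoid (FunField N f) := AddCommMonoid.toAddMonoid
noncomputable instance (priority := 100000) ffMWZ : MonoidWithZero (FunField N f) := Semiring.toMonoidWithZero
noncomputable instance (priority := 100000) ffM : Monoid (FunField N f) := MonoidWithZero.toMonoid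
noncomputable instance (priority := 100000) ffCM : CommMonoid (FunField N f) := CommSemiring.toCommMonoid
noncomputable instance (priority := 100000) ffMul : Mul (FunField N f) := NonUnitalNonAssocSemiring.toMul
noncomputable instance (priority := 100000) ffAdd : Add (FunField N f) := Distrib.toAdd
noncomputable instance (priority := 100000) ffSub : Sub (FunField N f) := Ring.toSub
noncomputable instance (priority := 100000) ffNeg : Neg (FunField N f) := Ring.toNeg
noncomputable instance (priority := 100000) ffZero : Zero (FunField N f) := MulZeroClass.toZero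
noncomputable instance (priority := 100000) ffOne : One (FunField N f) := inferInstance
end

section
variable {N : ℕ} {A : Type u} [Field A] {f : A[X]}
noncomputable instance (priority := 100000) ffAlgP : Algebra A[X] (FunField N f) := inferInstance
noncomputable instance (priority := 100000) ffAlgR : Algebra (RatFunc A) (FunField N f) := inferInstance
end

/-- The integral closure of `A[x]` in `A(x)[y] / (y ^ N - f(x))`: the coordinate ring of the
normalization of the affine curve `y ^ N = f(x)`. -/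
abbrev NRing (N : ℕ) {A : Type u} [Field A] (f : A[X]) : Type u :=
  integralClosure A[X] (FunField N f)

section
variable {N : ℕ} {A : Type u} [Field A] {f : A[X]}

noncomputable instance (priority := 100000) nrCR : CommRing (NRing N f) := inferInstance
noncomputable instance (priority := 100000) nrCSR : CommSemiring (NRing N f) := CommRing.toCommSemiring
noncomputable instance (priority := 100000) nrR : Ring (NRing N f) := CommRing.toRing
noncomputable instance (priority := 100000) nrSR : Semiring (NRing N f) := CommSemiring.toSemiring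
noncomputable instance (priority := 100000) nrNAS : NonAssocSemiring (NRing N f) := Semiring.toNonAssocSemiring
noncomputable instance (priority := 100000) nrNUNAS : NonUnitalNonAssocSemiring (NRing N f) := NonAssocSemiring.toNonUnitalNonAssocSemiring
noncomputable instance (priority := 100000) nrACG : AddCommGroup (NRing N f) := Ring.toAddCommGroup
noncomputable instance (priority := 100000) nrAG : AddGroup (NRing N f) := AddCommGroup.toAddGroup
noncomputable instance (priority := 100000) nrACM : AddCommMonoid (NRing N f) := NonUnitalNonAssocSemiring.toAddCommMonoid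
noncomputable instance (priority := 100000) nrAM : AddMonoid (NRing N f) := AddCommMonoid.toAddMonoid
noncomputable instance (priority := 100000) nrMWZ : MonoidWithZero (NRing N f) := Semiring.toMonoidWithZero
noncomputable instance (priority := 100000) nrM : Monoid (NRing N f) := MonoidWithZero.toMonoid
noncomputable instance (priority := 100000) nrCM : CommMonoid (NRing N f) := CommSemiring.toCommMonoid
noncomputable instance (priority := 100000) nrMul : Mul (NRing N f) := NonUnitalNonAssocSemiring.toMul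
noncomputable instance (priority := 100000) nrAdd : Add (NRing N f) := Distrib.toAdd
noncomputable instance (priority := 100000) nrSub : Sub (NRing N f) := Ring.toSub
noncomputable instance (priority := 100000) nrNeg : Neg (NRing N f) := Ring.toNeg
noncomputable instance (priority := 100000) nrZero : Zero (NRing N f) := MulZeroClass.toZero
noncomputable instance (priority := 100000) nrOne : One (NRing N f) := inferInstance
end

section
variable {N : ℕ} {A : Type u} [Field A] {f : A[X]}
noncomputable instance (priority := 100000) nrAlgP : Algebra A[X] (NRing N f) := inferInstance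
noncomputable instance (priority := 100000) nrAlgF : Algebra (NRing N f) (FunField N f) := inferInstance
end

/-- The Picard group of the normalization of the affine curve `y ^ N = f(x)`, written additively. If
`A` is algebraically closed, `N ≠ 0` in `A` and the degree of `f` is prime to `N`, then the smooth
projective model of the curve has one point at infinity, and this is its group of divisor classes of
degree zero, the group of points over `A` of the Jacobian variety. -/
abbrev Jac (N : ℕ) {A : Type u} [Field A] (f : A[X]) : Type u :=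
  Additive (CommRing.Pic (NRing N f))

section
variable {N : ℕ} {A : Type u} [Field A] {f : A[X]}

noncomputable instance (priority := 100000) jcACG : AddCommGroup (Jac N f) := inferInstance
noncomputable instance (priority := 100000) jcAG : AddGroup (Jac N f) := AddCommGroup.toAddGroup
noncomputable instance (priority := 100000) jcSNM : SubNegMonoid (Jac N f) := AddGroup.toSubNegMonoid
noncomputable instance (priority := 100000) jcACM : AddCommMonoid (Jac N f) := AddCommGroup.toAddCommMonoid
noncomputable instance (priority := 100000) jcAM : AddMonoid (Jac N f) := AddCommMonoid.toAddMonoid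
noncomputable instance (priority := 100000) jcAZC : AddZeroClass (Jac N f) := AddMonoid.toAddZeroClass
noncomputable instance (priority := 100000) jcAdd : Add (Jac N f) := inferInstance
noncomputable instance (priority := 100000) jcSub : Sub (Jac N f) := SubNegMonoid.toSub
noncomputable instance (priority := 100000) jcNeg : Neg (Jac N f) := inferInstance
noncomputable instance (priority := 100000) jcZero : Zero (Jac N f) := inferInstance
end

section Maps

variable (N : ℕ) {A B : Type u} [Field A] [Field B]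

/-- The homomorphism `A(x) → B(x)` induced by a homomorphism of fields. -/
noncomputable def ratMap (σ : A →+* B) : RatFunc A →+* RatFunc B :=
  RatFunc.mapRingHom (mapRingHom σ)
    (nonZeroDivisors_le_comap_nonZeroDivisors_of_injective _ (map_injective σ σ.injective))

lemma ratMap_algebraMap (σ : A →+* B) (p : A[X]) :
    ratMap σ (algebraMap A[X] (RatFunc A) p) = algebraMap B[X] (RatFunc B) (p.map σ) := by
  have h := RatFunc.map_apply_div (mapRingHom σ)
    (nonZeroDivisors_le_comap_nonZeroDivisors_of_injective _ (map_injective σ σ.injective)) p 1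
  rw [map_one, div_one, map_one, map_one, div_one] at h
  rw [ratMap, RatFunc.coe_mapRingHom_eq_coe_map]
  exact h

/-- The homomorphism of the rings of rational functions induced by a homomorphism `σ` of fields
which maps the coefficients of `f` to those of `f'`. -/
noncomputable def funMap (σ : A →+* B) {f : A[X]} {f' : B[X]} (h : f.map σ = f') :
    FunField N f →+* FunField N f' :=
  AdjoinRoot.map (ratMap σ) _ _ (dvd_of_eq (by
    rw [Polynomial.map_sub, Polynomial.map_pow, Polynomial.map_X, Polynomial.map_C,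
      ratMap_algebraMap, h]))

lemma funMap_algebraMap (σ : A →+* B) {f : A[X]} {f' : B[X]} (h : f.map σ = f') (p : A[X]) :
    funMap N σ h (algebraMap A[X] (FunField N f) p) =
      algebraMap B[X] (FunField N f') (p.map σ) := by
  rw [IsScalarTower.algebraMap_apply A[X] (RatFunc A) (FunField N f),
    IsScalarTower.algebraMap_apply B[X] (RatFunc B) (FunField N f'), ← ratMap_algebraMap,
    AdjoinRoot.algebraMap_eq, AdjoinRoot.algebraMap_eq, funMap, AdjoinRoot.map_of]

lemma funMap_isIntegral (σ : A →+* B) {f : A[X]} {f' : B[X]} (h : f.map σ = f')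
    (a : NRing N f) : funMap N σ h (a : FunField N f) ∈ integralClosure B[X] (FunField N f') := by
  obtain ⟨p, hp, hpa⟩ := (a.2 : IsIntegral A[X] (a : FunField N f))
  refine ⟨p.map (mapRingHom σ), hp.map _, ?_⟩
  rw [Polynomial.eval₂_map, show (algebraMap B[X] (FunField N f')).comp (mapRingHom σ) =
    (funMap N σ h).comp (algebraMap A[X] (FunField N f)) from
      RingHom.ext fun q => (funMap_algebraMap N σ h q).symm, ← Polynomial.hom_eval₂, hpa, map_zero]

/-- The homomorphism of coordinate rings induced by a homomorphism `σ` of fields which maps the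
coefficients of `f` to those of `f'`. -/
noncomputable def coordMap (σ : A →+* B) {f : A[X]} {f' : B[X]} (h : f.map σ = f') :
    NRing N f →+* NRing N f' :=
  ((funMap N σ h).comp (algebraMap (NRing N f) (FunField N f))).codRestrict
    (integralClosure B[X] (FunField N f')) (funMap_isIntegral N σ h)

/-- The homomorphism of Jacobians induced by a homomorphism `σ` of fields which maps the
coefficients of `f` to those of `f'`. -/
noncomputable def jacMap (σ : A →+* B) {f : A[X]} {f' : B[X]} (h : f.map σ = f') :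
    Jac N f →+ Jac N f' :=
  MonoidHom.toAdditive (CommRing.Pic.mapRingHom (coordMap N σ h))

end Maps

section

variable {L : Type u} [Field L]

/-- The points of the Jacobian of `y ^ ℓ = f(x)` over an extension `A` of the field `L` of the
coefficients of `f`. -/
abbrev JacOver (ℓ : ℕ) (f : L[X]) (A : Type u) [Field A] [Algebra L A] : Type u :=
  Jac ℓ (f.map (algebraMap L A))

/-- The action of a homomorphism of extensions of `L` on the points of the Jacobian. -/
noncomputable def push (ℓ : ℕ) (f : L[X]) {A B : Type u} [Field A] [Field B] [Algebra L A]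
    [Algebra L B] (σ : A →ₐ[L] B) : JacOver ℓ f A →+ JacOver ℓ f B :=
  jacMap ℓ (σ : A →+* B) (by rw [Polynomial.map_map, AlgHom.comp_algebraMap])

variable {Ω : Type u} [Field Ω] [Algebra L Ω]

/-- `c` is a continuous `1`-cocycle of `Aut(Ω/L)` with values in the `ℓ`-adic Tate module of the
Jacobian of `y ^ ℓ = f(x)`; its component `c n` has values in the points of order dividing
`ℓ ^ n`. -/
structure IsTateCocycle (ℓ : ℕ) (f : L[X]) (c : ℕ → (Ω ≃ₐ[L] Ω) → JacOver ℓ f Ω) : Prop where
  zero : ∀ σ, c 0 σ = 0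
  smul : ∀ n σ, ℓ • c (n + 1) σ = c n σ
  cocycle : ∀ n (σ τ : Ω ≃ₐ[L] Ω), c n (σ * τ) = c n σ + push ℓ f (σ : Ω →ₐ[L] Ω) (c n τ)
  locallyConstant : ∀ n, IsLocallyConstant (c n)


/-- The class of the cocycle `c` in `H¹(L, T_ℓ J)` is fixed, up to torsion, by the automorphism `γ`
of `Ω` (which fixes the coefficients of `f`): some positive multiple `m (γ c - c)` is at every level
a coboundary. Here `(γ c)(h) = γ (c (γ⁻¹ h γ))`. -/
def IsFixedBy (ℓ : ℕ) (f : L[X]) (c : ℕ → (Ω ≃ₐ[L] Ω) → JacOver ℓ f Ω) (γ : Ω ≃+* Ω)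
    (hγ : (f.map (algebraMap L Ω)).map (γ : Ω →+* Ω) = f.map (algebraMap L Ω)) : Prop :=
  ∃ m : ℕ, 0 < m ∧ ∀ n, ∃ A : JacOver ℓ f Ω, ℓ ^ n • A = 0 ∧
    ∀ g h : Ω ≃ₐ[L] Ω, (∀ x, γ (g x) = h (γ x)) →
      m • (jacMap ℓ (γ : Ω →+* Ω) hγ (c n g) - c n h) = push ℓ f (h : Ω →ₐ[L] Ω) A - A

/-- The class of the cocycle `c` vanishes: at every level `n`, it is the coboundary of a point of
order dividing `ℓ ^ n`. -/
def IsTrivial (ℓ : ℕ) (f : L[X]) (c : ℕ → (Ω ≃ₐ[L] Ω) → JacOver ℓ f Ω) : Prop :=
  ∀ n, ∃ A : JacOver ℓ f Ω, ℓ ^ n • A = 0 ∧ ∀ g : Ω ≃ₐ[L] Ω,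
    c n g = push ℓ f (g : Ω →ₐ[L] Ω) A - A

end

section Arrangement

variable (k F L : Type u) [Field k] [Field F] [Algebra k F] [Field L] [Algebra F[X] L]


end Arrangement


end Pool.Agent.Lib.MP_89bcae_ag.Wt

end

section

/-!
# The curve `y ^ N = f(x)` over an algebraically closed field: basic definitions

The curve, its points, the automorphism `y ↦ ζ y`.
-/

open Polynomial IsDedekindDomain

open scoped Classical

namespace Pool.Agent.Lib.MP_89bcae_ag.Wt

universe u

/-- The hypotheses on the curve `y ^ N = f(x)`: it is totally ramified at the roots of `f` and at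
infinity. -/
class IsGood (N : ℕ) {E : Type u} [Field E] (f : E[X]) : Prop where
  alg : IsAlgClosed E
  one_lt : 1 < N
  ne_zero : (N : E) ≠ 0
  mult : ∀ θ, f.eval θ = 0 → (f.rootMultiplicity θ).Coprime N
  coprime : f.natDegree.Coprime N

section

variable (N : ℕ) {E : Type u} [Field E] (f : E[X])

/-- The points of the affine curve `y ^ N = f(x)`. -/
@[ext]
structure Pt where
  /-- the first coordinate -/
  x : E
  /-- the second coordinate -/
  y : E
  eq : y ^ N = f.eval x

end

section

variable {N : ℕ} {E : Type u} [Field E] {f : E[X]}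

/-- The function `p(x)` on the curve. -/
noncomputable def polyF : E[X] →+* FunField N f := algebraMap E[X] (FunField N f)

lemma polyF_eq (p : E[X]) :
    (polyF p : FunField N f) = AdjoinRoot.of _ (algebraMap E[X] (RatFunc E) p) := by
  unfold polyF
  rw [IsScalarTower.algebraMap_apply E[X] (RatFunc E) (FunField N f), AdjoinRoot.algebraMap_eq]

/-- The function `y` on the curve. -/
noncomputable def yF : FunField N f := AdjoinRoot.root _

lemma yF_pow : (yF : FunField N f) ^ N = polyF f := by
  have h := AdjoinRoot.eval₂_root (X ^ N - C (algebraMap E[X] (RatFunc E) f) : (RatFunc E)[X])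
  rw [eval₂_sub, eval₂_pow, eval₂_X, eval₂_C, sub_eq_zero] at h
  rw [polyF_eq]
  exact h

lemma IsGood.ne (hG : IsGood N f) : N ≠ 0 := (zero_lt_one.trans hG.one_lt).ne'

lemma IsGood.pos (hG : IsGood N f) : 0 < N := zero_lt_one.trans hG.one_lt


lemma yF_integral (hN : N ≠ 0) : (yF : FunField N f) ∈ integralClosure E[X] (FunField N f) := by
  refine ⟨X ^ N - C f, monic_X_pow_sub_C f hN, ?_⟩
  rw [eval₂_sub, eval₂_pow, eval₂_X, eval₂_C, yF_pow]
  exact sub_self _

/-- The function `p(x)` in the coordinate ring. -/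
noncomputable def ofPoly : E[X] →+* NRing N f := algebraMap E[X] (NRing N f)

@[simp] lemma coe_ofPoly (p : E[X]) : ((ofPoly p : NRing N f) : FunField N f) = polyF p := rfl

/-- The function `y` in the coordinate ring. -/
noncomputable def yy [hG : IsGood N f] : NRing N f := ⟨yF, yF_integral hG.ne⟩

@[simp] lemma coe_yy [hG : IsGood N f] : ((yy : NRing N f) : FunField N f) = yF := rfl

lemma yy_pow [hG : IsGood N f] : (yy : NRing N f) ^ N = ofPoly f :=
  Subtype.ext yF_pow

/-- The point `(x, ζ y)`. -/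
def Pt.rot (ζ : E) (hζ : ζ ^ N = 1) (P : Pt N f) : Pt N f :=
  ⟨P.x, ζ * P.y, by rw [mul_pow, hζ, one_mul, P.eq]⟩

/-- The image of a point under a homomorphism of fields. -/
def Pt.map {E' : Type u} [Field E'] {f' : E'[X]} (σ : E →+* E') (h : f.map σ = f')
    (P : Pt N f) : Pt N f' :=
  ⟨σ P.x, σ P.y, by rw [← map_pow, P.eq, ← h, Polynomial.eval_map, Polynomial.eval₂_hom]⟩

/-- The automorphism `y ↦ ζ y` of the ring of rational functions. -/
noncomputable def rotF (ζ : E) (hζ : ζ ^ N = 1) : FunField N f →+* FunField N f :=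
  AdjoinRoot.lift (AdjoinRoot.of _) (polyF (C ζ) * yF) (by
    rw [eval₂_sub, eval₂_pow, eval₂_X, eval₂_C, mul_pow, yF_pow, ← map_pow, ← C_pow,
      hζ, C_1, map_one, one_mul, polyF_eq, sub_self])

@[simp] lemma rotF_polyF (ζ : E) (hζ : ζ ^ N = 1) (p : E[X]) :
    rotF ζ hζ (polyF p : FunField N f) = polyF p := by
  rw [polyF_eq]
  unfold rotF
  exact AdjoinRoot.lift_of _

@[simp] lemma rotF_yF (ζ : E) (hζ : ζ ^ N = 1) :
    rotF ζ hζ (yF : FunField N f) = polyF (C ζ) * yF := by
  unfold rotF
  exact AdjoinRoot.lift_root _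

lemma rotF_isIntegral (ζ : E) (hζ : ζ ^ N = 1) (a : NRing N f) :
    rotF ζ hζ (a : FunField N f) ∈ integralClosure E[X] (FunField N f) := by
  obtain ⟨p, hp, hpa⟩ := (a.2 : IsIntegral E[X] (a : FunField N f))
  refine ⟨p, hp, ?_⟩
  rw [show algebraMap E[X] (FunField N f) = (rotF ζ hζ).comp (algebraMap E[X] (FunField N f)) from
      RingHom.ext fun q => (rotF_polyF ζ hζ q).symm, ← Polynomial.hom_eval₂, hpa, map_zero]

/-- The automorphism `y ↦ ζ y` of the coordinate ring. -/
noncomputable def rotC (ζ : E) (hζ : ζ ^ N = 1) : NRing N f →+* NRing N f :=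
  ((rotF ζ hζ).comp (algebraMap (NRing N f) (FunField N f))).codRestrict
    (integralClosure E[X] (FunField N f)) (rotF_isIntegral ζ hζ)

@[simp] lemma coe_rotC (ζ : E) (hζ : ζ ^ N = 1) (a : NRing N f) :
    ((rotC ζ hζ a : NRing N f) : FunField N f) = rotF ζ hζ (a : FunField N f) := rfl

@[simp] lemma rotC_ofPoly (ζ : E) (hζ : ζ ^ N = 1) (p : E[X]) :
    rotC ζ hζ (ofPoly p : NRing N f) = ofPoly p := Subtype.ext (rotF_polyF ζ hζ p)

@[simp] lemma rotC_yy [hG : IsGood N f] (ζ : E) (hζ : ζ ^ N = 1) :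
    rotC ζ hζ (yy : NRing N f) = ofPoly (C ζ) * yy := Subtype.ext (rotF_yF ζ hζ)

@[simp] lemma coe_coordMap {E' : Type u} [Field E'] {f' : E'[X]} (σ : E →+* E')
    (h : f.map σ = f') (a : NRing N f) :
    ((coordMap N σ h a : NRing N f') : FunField N f') = funMap N σ h (a : FunField N f) := rfl

lemma funMap_polyF {E' : Type u} [Field E'] {f' : E'[X]} (σ : E →+* E')
    (h : f.map σ = f') (p : E[X]) : funMap N σ h (polyF p : FunField N f) = polyF (p.map σ) :=
  funMap_algebraMap N σ h p

lemma funMap_yF {E' : Type u} [Field E'] {f' : E'[X]} (σ : E →+* E')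
    (h : f.map σ = f') : funMap N σ h (yF : FunField N f) = yF := by
  unfold funMap yF
  exact AdjoinRoot.map_root _ _ _ _

end

end Pool.Agent.Lib.MP_89bcae_ag.Wt

end

section

open Polynomial IsDedekindDomain

open scoped Classical

namespace Pool.Agent.Lib.MP_89bcae_ag.Wt

universe u

variable {N : ℕ} {E : Type u} [Field E] {f : E[X]}

section

variable [hG : IsGood N f]

lemma natDegree_ne (N : ℕ) (f : E[X]) [hG : IsGood N f] : f.natDegree ≠ 0 := by
  intro h
  have h1 := hG.coprime
  rw [h, Nat.coprime_zero_left] at h1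
  exact hG.one_lt.ne' h1

lemma f_ne_zero (N : ℕ) (f : E[X]) [hG : IsGood N f] : f ≠ 0 := by
  intro h
  apply natDegree_ne N f
  rw [h, natDegree_zero]

lemma exists_root (N : ℕ) (f : E[X]) [hG : IsGood N f] : ∃ θ, f.eval θ = 0 := by
  have halg := hG.alg
  refine IsAlgClosed.exists_root f fun h => natDegree_ne N f ?_
  exact natDegree_eq_of_degree_eq_some (n := 0) h

/-- Multiplicities of a power. -/
private lemma w01_mult_pow {p : E[X]} (hp : p ≠ 0) (θ : E) (n : ℕ) :
    (p ^ n).rootMultiplicity θ = n * p.rootMultiplicity θ := by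
  induction n with
  | zero => rw [pow_zero, Nat.zero_mul, ← C_1, rootMultiplicity_C]
  | succ n ih =>
    rw [pow_succ, rootMultiplicity_mul (mul_ne_zero (pow_ne_zero _ hp) hp), ih, Nat.succ_mul]

/-- The exponent divides the degree of a norm. -/
private lemma w01_dvd (N : ℕ) (f : E[X]) [hG : IsGood N f] (c : RatFunc E) (d : ℕ)
    (hc : c ^ N = (algebraMap E[X] (RatFunc E) f) ^ d) : N ∣ d := by
  have hf := f_ne_zero N f
  obtain ⟨θ, hθ⟩ := exists_root N f
  have hcop := hG.mult θ hθ
  have hinj : Function.Injective (algebraMap E[X] (RatFunc E)) := IsFractionRing.injective E[X] (RatFunc E)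
  have hd0 : algebraMap E[X] (RatFunc E) c.denom ≠ 0 := by
    intro h
    exact c.denom_ne_zero (hinj (h.trans (map_zero _).symm))
  have h1 : c * algebraMap E[X] (RatFunc E) c.denom = algebraMap E[X] (RatFunc E) c.num := by
    have h2 := RatFunc.num_div_denom c
    rw [div_eq_iff hd0] at h2
    exact h2.symm
  have h3 : f ^ d * c.denom ^ N = c.num ^ N := by
    apply hinj
    rw [map_mul, map_pow, map_pow, map_pow, ← hc, ← mul_pow, h1]
  have hden : c.denom ≠ 0 := c.denom_ne_zero
  have hnum : c.num ≠ 0 := by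
    intro h
    rw [h, zero_pow hG.ne] at h3
    exact mul_ne_zero (pow_ne_zero _ hf) (pow_ne_zero _ hden) h3
  have h4 := congrArg (fun p : E[X] => p.rootMultiplicity θ) h3
  rw [rootMultiplicity_mul (mul_ne_zero (pow_ne_zero _ hf) (pow_ne_zero _ hden)),
    w01_mult_pow hf, w01_mult_pow hden, w01_mult_pow hnum] at h4
  have h5 : N ∣ d * f.rootMultiplicity θ := by
    have h6 : N ∣ d * f.rootMultiplicity θ + N * c.denom.rootMultiplicity θ := by
      rw [h4]
      exact dvd_mul_right _ _
    exact (Nat.dvd_add_left (dvd_mul_right _ _)).1 h6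
  exact (Nat.Coprime.symm hcop).dvd_of_dvd_mul_right h5

theorem irreducible_eqn (N : ℕ) (f : E[X]) [hG : IsGood N f] :
    Irreducible (X ^ N - C (algebraMap E[X] (RatFunc E) f) : (RatFunc E)[X]) := by
  set Q : (RatFunc E)[X] := X ^ N - C (algebraMap E[X] (RatFunc E) f) with hQ
  have hQd : Q.natDegree = N := natDegree_X_pow_sub_C
  have hQm : Q.Monic := monic_X_pow_sub_C _ hG.ne
  have hQu : ¬ IsUnit Q := by
    intro h
    have h1 := natDegree_eq_zero_of_isUnit h
    rw [hQd] at h1
    exact hG.ne h1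
  obtain ⟨P, hP, R, hR⟩ := WfDvdMonoid.exists_irreducible_factor hQu hQm.ne_zero
  have : Fact (Irreducible P) := ⟨hP⟩
  have hroot : (AdjoinRoot.root P) ^ N =
      algebraMap (RatFunc E) (AdjoinRoot P) (algebraMap E[X] (RatFunc E) f) := by
    have h1 : AdjoinRoot.mk P Q = 0 := by
      rw [hR, map_mul, AdjoinRoot.mk_self, zero_mul]
    rw [hQ, map_sub, map_pow, AdjoinRoot.mk_X, AdjoinRoot.mk_C, sub_eq_zero] at h1
    exact h1
  have hfin : Module.finrank (RatFunc E) (AdjoinRoot P) = P.natDegree := by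
    have h1 := (AdjoinRoot.powerBasis hP.ne_zero).finrank
    rwa [AdjoinRoot.powerBasis_dim] at h1
  have hnorm := congrArg (Algebra.norm (RatFunc E)) hroot
  rw [map_pow, Algebra.norm_algebraMap, hfin] at hnorm
  have hdvd := w01_dvd N f _ _ hnorm
  have hR0 : R ≠ 0 := by
    intro h
    rw [h, mul_zero] at hR
    exact hQm.ne_zero hR
  have hdeg : N = P.natDegree + R.natDegree := by
    rw [← hQd, hR, natDegree_mul hP.ne_zero hR0]
  have hPpos : 0 < P.natDegree := hP.natDegree_pos
  have hle := Nat.le_of_dvd hPpos hdvd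
  have hRd : R.natDegree = 0 := by omega
  have hRu : IsUnit R := by
    rw [eq_C_of_natDegree_eq_zero hRd, isUnit_C, isUnit_iff_ne_zero]
    intro h
    rw [eq_C_of_natDegree_eq_zero hRd, h, C_0] at hR0
    exact hR0 rfl
  have hass : Associated P Q := by
    rw [hR]
    exact (associated_mul_isUnit_right_iff hRu).2 (Associated.refl P)
  exact hass.irreducible hP

instance fact_irreducible :
    Fact (Irreducible (X ^ N - C (algebraMap E[X] (RatFunc E) f) : (RatFunc E)[X])) :=
  ⟨irreducible_eqn N f⟩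

section
variable {N : ℕ} {E : Type u} [Field E] {f : E[X]} [IsGood N f]

noncomputable instance (priority := 100000) ffF : Field (FunField N f) := inferInstance
noncomputable instance (priority := 100000) ffDR : DivisionRing (FunField N f) := Field.toDivisionRing
noncomputable instance (priority := 100000) ffSF : Semifield (FunField N f) := Field.toSemifield
noncomputable instance (priority := 100000) ffDS : DivisionSemiring (FunField N f) := Semifield.toDivisionSemiring
noncomputable instance (priority := 100000) ffGWZ : GroupWithZero (FunField N f) := DivisionSemiring.toGroupWithZero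
noncomputable instance (priority := 100000) ffInv : Inv (FunField N f) := inferInstance
instance (priority := 100000) ffNt : Nontrivial (FunField N f) := inferInstance
instance (priority := 100000) ffDom : IsDomain (FunField N f) := inferInstance
end

/-- Expansion of an element of the function field. -/
lemma exists_expandF (a : FunField N f) :
    ∃ r : ℕ → RatFunc E, a = ∑ i ∈ Finset.range N, AdjoinRoot.of _ (r i) * yF ^ i := by
  obtain ⟨P, rfl⟩ := AdjoinRoot.mk_surjective a
  have hm : (X ^ N - C (algebraMap E[X] (RatFunc E) f) : (RatFunc E)[X]).Monic :=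
    monic_X_pow_sub_C _ hG.ne
  have hd : (X ^ N - C (algebraMap E[X] (RatFunc E) f) : (RatFunc E)[X]).natDegree = N :=
    natDegree_X_pow_sub_C
  set Q : (RatFunc E)[X] := X ^ N - C (algebraMap E[X] (RatFunc E) f) with hQ
  have hne : Q ≠ 1 := by
    intro h
    rw [h, natDegree_one] at hd
    exact hG.ne hd.symm
  have hlt : (P %ₘ Q).natDegree < N := by
    have h1 := natDegree_modByMonic_lt P hm hne
    rwa [hd] at h1
  refine ⟨fun i => (P %ₘ Q).coeff i, ?_⟩
  have h1 : AdjoinRoot.mk Q P = AdjoinRoot.mk Q (P %ₘ Q) := by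
    rw [AdjoinRoot.mk_eq_mk]
    refine ⟨P /ₘ Q, ?_⟩
    have h2 := modByMonic_add_div P Q
    linear_combination -h2
  rw [h1]
  conv_lhs => rw [as_sum_range' _ N hlt]
  rw [map_sum]
  refine Finset.sum_congr rfl (fun i _ => ?_)
  rw [← C_mul_X_pow_eq_monomial, map_mul, map_pow, AdjoinRoot.mk_C, AdjoinRoot.mk_X]
  rfl

/-- Uniqueness of the expansion. -/
lemma expandF_unique (r : ℕ → RatFunc E)
    (h : ∑ i ∈ Finset.range N, AdjoinRoot.of _ (r i) * (yF : FunField N f) ^ i = 0) :
    ∀ i < N, r i = 0 := by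
  have hm : (X ^ N - C (algebraMap E[X] (RatFunc E) f) : (RatFunc E)[X]).Monic :=
    monic_X_pow_sub_C _ hG.ne
  have hd : (X ^ N - C (algebraMap E[X] (RatFunc E) f) : (RatFunc E)[X]).natDegree = N :=
    natDegree_X_pow_sub_C
  have h1 : AdjoinRoot.mk (X ^ N - C (algebraMap E[X] (RatFunc E) f) : (RatFunc E)[X])
      (∑ i ∈ Finset.range N, C (r i) * X ^ i) = 0 := by
    rw [map_sum, ← h]
    refine Finset.sum_congr rfl (fun i _ => ?_)
    rw [map_mul, map_pow, AdjoinRoot.mk_C, AdjoinRoot.mk_X]
    rfl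
  rw [AdjoinRoot.mk_eq_zero] at h1
  have hpos := hG.pos
  have hQ : (∑ i ∈ Finset.range N, C (r i) * X ^ i : (RatFunc E)[X]) = 0 := by
    by_contra hne
    refine hm.not_dvd_of_natDegree_lt hne ?_ h1
    rw [hd]
    have h3 : (∑ i ∈ Finset.range N, C (r i) * X ^ i : (RatFunc E)[X]).natDegree ≤ N - 1 := by
      refine natDegree_sum_le_of_forall_le _ _ (fun i hi => ?_)
      refine (natDegree_C_mul_X_pow_le (r i) i).trans ?_
      have h4 := Finset.mem_range.1 hi
      omega
    omega
  intro i hi
  have h3 : (∑ i ∈ Finset.range N, C (r i) * X ^ i : (RatFunc E)[X]).coeff i = r i := by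
    rw [finsetSum_coeff, Finset.sum_eq_single i]
    · rw [coeff_C_mul_X_pow, if_pos rfl]
    · intro j _ hj
      rw [coeff_C_mul_X_pow, if_neg (Ne.symm hj)]
    · intro h4
      exact absurd (Finset.mem_range.2 hi) h4
  rw [← h3, hQ, coeff_zero]

lemma polyF_injective : Function.Injective (polyF : E[X] → FunField N f) := by
  intro p q h
  rw [polyF_eq, polyF_eq] at h
  exact IsFractionRing.injective E[X] (RatFunc E) ((AdjoinRoot.of _).injective h)

lemma polyF_ne_zero {p : E[X]} (hp : p ≠ 0) : (polyF p : FunField N f) ≠ 0 := by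
  intro h
  exact hp (polyF_injective (N := N) (f := f) (h.trans (map_zero _).symm))

lemma yF_ne_zero : (yF : FunField N f) ≠ 0 := by
  intro h
  have h1 : (yF : FunField N f) ^ N = polyF f := yF_pow
  rw [h, zero_pow hG.ne] at h1
  exact polyF_ne_zero (f_ne_zero N f) h1.symm

/-- Uniqueness of the expansion with polynomial coefficients. -/
lemma expand_unique (p : ℕ → E[X])
    (h : ∑ i ∈ Finset.range N, polyF (p i) * (yF : FunField N f) ^ i = 0) :
    ∀ i < N, p i = 0 := by
  intro i hi
  have h1 := expandF_unique (N := N) (f := f) (fun i => algebraMap E[X] (RatFunc E) (p i)) (by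
    rw [← h]
    exact Finset.sum_congr rfl fun i _ => by rw [polyF_eq])
  have h2 := h1 i hi
  exact IsFractionRing.injective E[X] (RatFunc E) (h2.trans (map_zero _).symm)

/-- Every function is the quotient of a polynomial in `x`, `y` by a polynomial in `x`. -/
lemma exists_den (a : FunField N f) : ∃ (p : ℕ → E[X]) (q : E[X]), q ≠ 0 ∧
    polyF q * a = ∑ i ∈ Finset.range N, polyF (p i) * yF ^ i := by
  obtain ⟨r, rfl⟩ := exists_expandF a
  obtain ⟨b, hb⟩ := IsLocalization.exist_integer_multiples (nonZeroDivisors E[X])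
    (Finset.range N) r
  have hb2 : ∀ i, ∃ y : E[X], i ∈ Finset.range N →
      algebraMap E[X] (RatFunc E) y = (b : E[X]) • r i := by
    intro i
    by_cases hi : i ∈ Finset.range N
    · obtain ⟨y, hy⟩ := hb i hi
      exact ⟨y, fun _ => hy⟩
    · exact ⟨0, fun h => absurd h hi⟩
  choose p hp using hb2
  refine ⟨p, b, nonZeroDivisors.ne_zero b.2, ?_⟩
  rw [Finset.mul_sum]
  refine Finset.sum_congr rfl fun i hi => ?_
  rw [polyF_eq, polyF_eq, hp i hi, Algebra.smul_def, map_mul, mul_assoc]

end

/-- Homomorphisms from the function field. -/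
lemma funField_hom_ext {S : Type*} [CommRing S] {g h : FunField N f →+* S}
    (h1 : ∀ p, g (polyF p) = h (polyF p)) (h2 : g yF = h yF) : g = h := by
  refine AdjoinRoot.ringHom_ext ?_ h2
  refine IsLocalization.ringHom_ext (nonZeroDivisors E[X]) ?_
  refine RingHom.ext fun p => ?_
  have h3 := h1 p
  rw [polyF_eq] at h3
  exact h3

end Pool.Agent.Lib.MP_89bcae_ag.Wt

end

section

/-!
# The coordinate ring of the normalization is a Dedekind domain

ROW W02 (100-150 lines) = the lemmas of this file. `FunField N f` is an extension of degree `N` of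
`RatFunc E`, separable as `N ≠ 0` in `E` (`X ^ N - C a`, `a ≠ 0`); then Mathlib:
`integralClosure.isDedekindDomain`, `IsIntegralClosure.isFractionRing_of_finite_extension`,
`IsIntegralClosure.isNoetherian` / `IsIntegralClosure.finite`.
`exists_poly_of_integral`: `E[x]` is integrally closed.
-/

open Polynomial IsDedekindDomain

open scoped Classical

namespace Pool.Agent.Lib.MP_89bcae_ag.Wt

universe u

variable {N : ℕ} {E : Type u} [Field E] {f : E[X]} [hG : IsGood N f]

instance finiteDimensional_funField : FiniteDimensional (RatFunc E) (FunField N f) :=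
  (monic_X_pow_sub_C (algebraMap E[X] (RatFunc E) f) hG.ne).finite_adjoinRoot

lemma finrank_funField : Module.finrank (RatFunc E) (FunField N f) = N := by
  have h := (AdjoinRoot.powerBasis'
    (monic_X_pow_sub_C (algebraMap E[X] (RatFunc E) f) hG.ne)).finrank
  rw [AdjoinRoot.powerBasis'_dim, natDegree_X_pow_sub_C] at h
  exact h

instance isSeparable_funField : Algebra.IsSeparable (RatFunc E) (FunField N f) := by
  have ha : algebraMap E[X] (RatFunc E) f ≠ 0 := fun h =>
    f_ne_zero N f (IsFractionRing.injective E[X] (RatFunc E) (h.trans (map_zero _).symm))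
  have hN : (N : RatFunc E) ≠ 0 := by
    intro h
    apply hG.ne_zero
    have h1 : algebraMap E (RatFunc E) (N : E) = 0 := by rw [map_natCast, h]
    exact (algebraMap E (RatFunc E)).injective (h1.trans (map_zero _).symm)
  have hsep : (X ^ N - C (algebraMap E[X] (RatFunc E) f) : (RatFunc E)[X]).Separable :=
    separable_X_pow_sub_C _ hN ha
  have hs : IsSeparable (RatFunc E) (AdjoinRoot.root
      (X ^ N - C (algebraMap E[X] (RatFunc E) f) : (RatFunc E)[X])) := by
    refine hsep.of_dvd (minpoly.dvd _ _ ?_)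
    rw [AdjoinRoot.aeval_eq, AdjoinRoot.mk_self]
  have h1 := IntermediateField.isSeparable_adjoin_simple_iff_isSeparable (RatFunc E)
    (FunField N f) |>.2 hs
  rw [IntermediateField.adjoin_root_eq_top] at h1
  exact (AlgEquiv.Algebra.isSeparable_iff IntermediateField.topEquiv).1 h1

instance isDedekindDomain_nring : IsDedekindDomain (NRing N f) :=
  integralClosure.isDedekindDomain E[X] (RatFunc E) (FunField N f)

instance isFractionRing_nring : IsFractionRing (NRing N f) (FunField N f) :=
  integralClosure.isFractionRing_of_finite_extension (RatFunc E) (FunField N f)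

/-- `IsFractionRing` with the instance arguments in the form of its users. -/
abbrev IFRx (R K : Type*) [CommRing R] [Field K] [Algebra R K] : Prop := IsFractionRing R K

theorem ifrNF : IFRx (NRing N f) (FunField N f) := isFractionRing_nring

theorem iddNF : IsDedekindDomain (NRing N f) := isDedekindDomain_nring

instance finite_nring : Module.Finite E[X] (NRing N f) :=
  IsIntegralClosure.finite E[X] (RatFunc E) (FunField N f) (NRing N f)

lemma ofPoly_injective : Function.Injective (ofPoly : E[X] → NRing N f) := by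
  intro p q h
  exact polyF_injective (N := N) (f := f) (congrArg (fun a : NRing N f => (a : FunField N f)) h)

/-- A rational function of `x` which is integral over `E[x]` is a polynomial. -/
lemma exists_poly_of_integral (r : RatFunc E)
    (h : (AdjoinRoot.of _ r : FunField N f) ∈ integralClosure E[X] (FunField N f)) :
    ∃ p : E[X], (AdjoinRoot.of _ r : FunField N f) = polyF p := by
  have h1 : IsIntegral E[X] (algebraMap (RatFunc E) (FunField N f) r) := h
  have h2 : IsIntegral E[X] r :=
    (isIntegral_algebraMap_iff (algebraMap (RatFunc E) (FunField N f)).injective).1 h1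
  obtain ⟨p, hp⟩ := (IsIntegrallyClosed.isIntegral_iff (R := E[X])).1 h2
  exact ⟨p, by rw [polyF_eq, hp]⟩

end Pool.Agent.Lib.MP_89bcae_ag.Wt

end

section

/-!
# Points and maximal ideals of the coordinate ring (1)

ROW WP1 (150-200 lines) = the lemmas `exists_hom_of_prime`, `exists_hom` of this file.
PROOFS.
`exists_hom_of_prime`: `M ∩ E[x]` is a nonzero prime (`NRing` is integral over `E[x]`;
`Ideal.comap_ne_bot_of_integral_mem`, see `exists_pt_of_prime` in `Sup/R02.lean`), so it is `(x - a)`; `NRing / M`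
is a finite extension of `E[x] / (x - a) = E` (`Module.Finite E[X] (NRing N f)`), so it is `E`:
for every `c` in `NRing` there is a unique `φ c` in `E` with `c - ofPoly (C (φ c))` in `M`
(`R02_factor` in `Sup/R02.lean` applied to an integral equation of `c`; or: `NRing / M` is an algebraic
extension of the algebraically closed field `E`, `IsAlgClosed.algebraMap_bijective_of_isIntegral`).
`exists_hom`: there is a prime `M` over `(x - P.x)` (`Ideal.exists_ideal_over_maximal_of_isIntegral` or similar);
it gives `P'`, `φ'` with `P'.x = P.x`, so `P.y ^ N = P'.y ^ N`, `P.y = ζ P'.y` with `ζ ^ N = 1`; take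
`φ = φ' ∘ rotC ζ`.
-/

open Polynomial IsDedekindDomain

open scoped Classical

namespace Pool.Agent.Lib.MP_89bcae_ag.Wt

universe u

variable {N : ℕ} {E : Type u} [Field E] {f : E[X]} [hG : IsGood N f]

/-- a value of a nonzero polynomial in a prime ideal: one of the linear factors is in the ideal -/
lemma WP1_factor {E : Type u} [Field E] [IsAlgClosed E] {R : Type*} [CommRing R] (φ : E →+* R)
    {I : Ideal R} (hI : I.IsPrime) (r : R) : ∀ (n : ℕ) (q : E[X]), q.natDegree = n → q ≠ 0 →
      eval₂ φ r q ∈ I → ∃ b, q.eval b = 0 ∧ r - φ b ∈ I := by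
  intro n
  induction n with
  | zero =>
    intro q hn hq hmem
    exfalso
    rw [Polynomial.natDegree_eq_zero] at hn
    obtain ⟨c, rfl⟩ := hn
    have hc : c ≠ 0 := by
      rintro rfl
      exact hq C_0
    rw [eval₂_C] at hmem
    have hu : IsUnit (φ c) := (IsUnit.mk0 c hc).map φ
    exact hI.ne_top (Ideal.eq_top_of_isUnit_mem I hmem hu)
  | succ n ih =>
    intro q hn hq hmem
    obtain ⟨b, hb⟩ := IsAlgClosed.exists_root q (by
      rw [Polynomial.degree_eq_natDegree hq, hn]
      exact_mod_cast Nat.succ_ne_zero n)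
    obtain ⟨q', hq'⟩ := dvd_iff_isRoot.2 hb
    have hq'0 : q' ≠ 0 := by
      rintro rfl
      rw [mul_zero] at hq'
      exact hq hq'
    have hdeg : q'.natDegree = n := by
      have h1 := congrArg natDegree hq'
      rw [natDegree_mul (X_sub_C_ne_zero b) hq'0, natDegree_X_sub_C, hn] at h1
      omega
    rw [hq', eval₂_mul, eval₂_sub, eval₂_X, eval₂_C] at hmem
    rcases hI.mem_or_mem hmem with h1 | h1
    · exact ⟨b, hb, h1⟩
    · obtain ⟨b', hb', hmem'⟩ := ih q' hdeg hq'0 h1
      refine ⟨b', ?_, hmem'⟩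
      rw [hq', eval_mul, hb', mul_zero]

lemma WP1_abscissa (M : Ideal (NRing N f)) (hM : M.IsPrime) (h0 : M ≠ ⊥) :
    ∃ a : E, (ofPoly (X - C a) : NRing N f) ∈ M := by
  have halg : IsAlgClosed E := hG.alg
  obtain ⟨q, hq0, hqI⟩ : ∃ q : E[X], q ≠ 0 ∧ (ofPoly q : NRing N f) ∈ M := by
    obtain ⟨a, haI, ha0⟩ := Submodule.exists_mem_ne_zero_of_ne_bot h0
    have hint : IsIntegral E[X] a := Algebra.IsIntegral.isIntegral a
    have h1 := Ideal.comap_ne_bot_of_integral_mem ha0 haI hint
    obtain ⟨q, hq, hq0⟩ := Submodule.exists_mem_ne_zero_of_ne_bot h1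
    exact ⟨q, hq0, hq⟩
  have e1 : ∀ q : E[X], eval₂ ((ofPoly : E[X] →+* NRing N f).comp C) (ofPoly X) q = ofPoly q := by
    intro q
    rw [← Polynomial.hom_eval₂, eval₂_C_X]
  obtain ⟨a, _, ha⟩ := WP1_factor ((ofPoly : E[X] →+* NRing N f).comp C) hM (ofPoly X) _ q rfl hq0
    (by rw [e1]; exact hqI)
  refine ⟨a, ?_⟩
  rw [map_sub]
  exact ha

lemma WP1_mk (M : Ideal (NRing N f)) (a : E) (ha : (ofPoly (X - C a) : NRing N f) ∈ M) :
    (Ideal.Quotient.mk M).comp ofPoly =
      (((Ideal.Quotient.mk M).comp ofPoly).comp C).comp (evalRingHom a) := by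
  refine RingHom.ext fun p => ?_
  show Ideal.Quotient.mk M (ofPoly p) = Ideal.Quotient.mk M (ofPoly (C (p.eval a)))
  rw [Ideal.Quotient.eq, ← map_sub]
  obtain ⟨q, hq⟩ := X_sub_C_dvd_sub_C_eval (a := a) (p := p)
  rw [hq, map_mul]
  exact M.mul_mem_right _ ha

lemma WP1_value (M : Ideal (NRing N f)) (hM : M.IsPrime) (a : E)
    (ha : (ofPoly (X - C a) : NRing N f) ∈ M) (c : NRing N f) :
    ∃ b : E, c - ofPoly (C b) ∈ M := by
  have halg : IsAlgClosed E := hG.alg
  obtain ⟨p, hp, hpc⟩ := (Algebra.IsIntegral.isIntegral c : IsIntegral E[X] c)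
  have hne : p.map (evalRingHom a) ≠ 0 := (hp.map (evalRingHom a)).ne_zero
  have hmem : eval₂ ((ofPoly : E[X] →+* NRing N f).comp C) c (p.map (evalRingHom a)) ∈ M := by
    rw [← Ideal.Quotient.eq_zero_iff_mem, Polynomial.hom_eval₂, Polynomial.eval₂_map,
      ← RingHom.comp_assoc, ← WP1_mk M a ha, ← Polynomial.hom_eval₂]
    have h1 : eval₂ (ofPoly : E[X] →+* NRing N f) c p = 0 := hpc
    rw [h1, map_zero]
  obtain ⟨b, _, hb⟩ := WP1_factor ((ofPoly : E[X] →+* NRing N f).comp C) hM c _ _ rfl hne hmem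
  exact ⟨b, hb⟩

lemma exists_hom_of_prime (M : Ideal (NRing N f)) (hM : M.IsPrime) (h0 : M ≠ ⊥) :
    ∃ (P : Pt N f) (φ : NRing N f →+* E), RingHom.ker φ = M ∧
      (∀ p, φ (ofPoly p) = p.eval P.x) ∧ φ yy = P.y := by
  obtain ⟨a, ha⟩ := WP1_abscissa M hM h0
  have hnt : Nontrivial (NRing N f ⧸ M) := Ideal.Quotient.nontrivial_iff.2 hM.ne_top
  set ψ : E →+* (NRing N f ⧸ M) := ((Ideal.Quotient.mk M).comp ofPoly).comp C with hψ
  have hbij : Function.Bijective ψ := by
    refine ⟨ψ.injective, ?_⟩
    intro z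
    obtain ⟨c, rfl⟩ := Ideal.Quotient.mk_surjective z
    obtain ⟨b, hb⟩ := WP1_value M hM a ha c
    exact ⟨b, (Ideal.Quotient.eq.2 hb).symm⟩
  set e : E ≃+* (NRing N f ⧸ M) := RingEquiv.ofBijective ψ hbij with he
  have hval : ∀ b : E, e.symm (ψ b) = b := fun b => e.symm_apply_apply b
  have hpoly : ∀ p : E[X], e.symm (Ideal.Quotient.mk M (ofPoly p)) = p.eval a := by
    intro p
    have h1 : Ideal.Quotient.mk M (ofPoly p) = ψ (p.eval a) :=
      congrArg (fun g : E[X] →+* (NRing N f ⧸ M) => g p) (WP1_mk M a ha)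
    rw [h1, hval]
  set φ : NRing N f →+* E := (e.symm : (NRing N f ⧸ M) →+* E).comp (Ideal.Quotient.mk M) with hφ
  have hφp : ∀ p : E[X], φ (ofPoly p) = p.eval a := hpoly
  refine ⟨⟨a, φ yy, ?_⟩, φ, ?_, hφp, rfl⟩
  · rw [← map_pow, yy_pow, hφp]
  · ext c
    rw [RingHom.mem_ker]
    show e.symm (Ideal.Quotient.mk M c) = 0 ↔ c ∈ M
    rw [map_eq_zero_iff e.symm e.symm.injective, Ideal.Quotient.eq_zero_iff_mem]

lemma exists_hom (P : Pt N f) :
    ∃ φ : NRing N f →+* E, (∀ p, φ (ofPoly p) = p.eval P.x) ∧ φ yy = P.y := by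
  have hker : RingHom.ker (algebraMap E[X] (NRing N f)) = ⊥ :=
    (RingHom.injective_iff_ker_eq_bot _).1 (ofPoly_injective (N := N) (f := f))
  have hmax : (Ideal.span {(X - C P.x : E[X])}).IsMaximal :=
    PrincipalIdealRing.isMaximal_of_irreducible (irreducible_X_sub_C P.x)
  obtain ⟨M, hM, hcomap⟩ := Ideal.exists_ideal_over_maximal_of_isIntegral (S := NRing N f)
    (Ideal.span {(X - C P.x : E[X])}) (by rw [hker]; exact bot_le)
  have hxM : (ofPoly (X - C P.x) : NRing N f) ∈ M := by
    have h1 : (X - C P.x : E[X]) ∈ M.comap (algebraMap E[X] (NRing N f)) := by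
      rw [hcomap]
      exact Ideal.mem_span_singleton_self _
    exact h1
  have hM0 : M ≠ ⊥ := by
    intro h
    rw [h, Ideal.mem_bot] at hxM
    have h2 : (X - C P.x : E[X]) = 0 :=
      ofPoly_injective (N := N) (f := f) (by rw [hxM, map_zero])
    exact X_sub_C_ne_zero _ h2
  obtain ⟨P', φ', hker', hp', hy'⟩ := exists_hom_of_prime M hM.isPrime hM0
  have hx : P'.x = P.x := by
    rw [← hker', RingHom.mem_ker, hp', eval_sub, eval_X, eval_C, sub_eq_zero] at hxM
    exact hxM
  have hpow : P.y ^ N = P'.y ^ N := by rw [P.eq, P'.eq, hx]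
  obtain ⟨ζ, hζ, hζy⟩ : ∃ ζ : E, ζ ^ N = 1 ∧ ζ * P'.y = P.y := by
    by_cases h0 : P'.y = 0
    · refine ⟨1, one_pow N, ?_⟩
      rw [h0, zero_pow hG.ne] at hpow
      rw [h0, mul_zero]
      exact (eq_zero_of_pow_eq_zero hpow).symm
    · refine ⟨P.y / P'.y, ?_, div_mul_cancel₀ _ h0⟩
      rw [div_pow, hpow, div_self (pow_ne_zero N h0)]
  refine ⟨φ'.comp (rotC ζ hζ), ?_, ?_⟩
  · intro p
    rw [RingHom.comp_apply, rotC_ofPoly, hp', hx]
  · rw [RingHom.comp_apply, rotC_yy, map_mul, hp', hy', eval_C, hζy]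

/-- The value of a function of the coordinate ring at a point. -/
noncomputable def evalPt (P : Pt N f) : NRing N f →+* E := (exists_hom P).choose

@[simp] lemma evalPt_ofPoly (P : Pt N f) (p : E[X]) : evalPt P (ofPoly p) = p.eval P.x :=
  (exists_hom P).choose_spec.1 p

@[simp] lemma evalPt_yy (P : Pt N f) : evalPt P yy = P.y := (exists_hom P).choose_spec.2

/-- The ideal of a point. -/
noncomputable def Pt.ideal (P : Pt N f) : Ideal (NRing N f) := RingHom.ker (evalPt P)

lemma mem_ideal (P : Pt N f) (a : NRing N f) : a ∈ P.ideal ↔ evalPt P a = 0 := Iff.rfl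

lemma Pt.ideal_isMaximal (P : Pt N f) : P.ideal.IsMaximal := by
  refine RingHom.ker_isMaximal_of_surjective (evalPt P) ?_
  intro c
  exact ⟨ofPoly (C c), by rw [evalPt_ofPoly, eval_C]⟩

lemma Pt.ideal_ne_bot (P : Pt N f) : P.ideal ≠ ⊥ := by
  intro h
  have h1 : (ofPoly (X - C P.x) : NRing N f) ∈ P.ideal := by
    rw [mem_ideal, evalPt_ofPoly, eval_sub, eval_X, eval_C, sub_self]
  rw [h, Ideal.mem_bot] at h1
  have h2 : (X - C P.x : E[X]) = 0 :=
    ofPoly_injective (N := N) (f := f) (by rw [h1, map_zero])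
  exact X_sub_C_ne_zero _ h2

lemma Pt.ideal_injective : Function.Injective (Pt.ideal : Pt N f → Ideal (NRing N f)) := by
  intro P Q h
  have h1 : (ofPoly (X - C P.x) : NRing N f) ∈ P.ideal := by
    rw [mem_ideal, evalPt_ofPoly, eval_sub, eval_X, eval_C, sub_self]
  have h2 : (yy - ofPoly (C P.y) : NRing N f) ∈ P.ideal := by
    rw [mem_ideal, map_sub, evalPt_yy, evalPt_ofPoly, eval_C, sub_self]
  rw [h, mem_ideal, evalPt_ofPoly, eval_sub, eval_X, eval_C, sub_eq_zero] at h1
  rw [h, mem_ideal, map_sub, evalPt_yy, evalPt_ofPoly, eval_C, sub_eq_zero] at h2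
  exact Pt.ext h1.symm h2.symm


end Pool.Agent.Lib.MP_89bcae_ag.Wt

end

end

section

attribute [local instance 100000] Pool.Agent.Lib.MP_89bcae_ag.Brt.tffFields
attribute [local instance 100000] Pool.Agent.Lib.MP_89bcae_ag.Wt.ifrNF Pool.Agent.Lib.MP_89bcae_ag.Wt.iddNF

namespace Pool.Agent.Lib.MP_89bcae_ag.Bra
end Pool.Agent.Lib.MP_89bcae_ag.Bra
namespace Pool.Agent.Lib.MP_89bcae_ag.Wt
end Pool.Agent.Lib.MP_89bcae_ag.Wt
namespace Pool.Agent.Lib.MP_89bcae_ag.Wt.Lns
end Pool.Agent.Lib.MP_89bcae_ag.Wt.Lns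

section

/-!
# Points and maximal ideals of the coordinate ring (2)
-/

open Polynomial IsDedekindDomain

open scoped Classical

set_option linter.deprecated false

set_option linter.unusedSectionVars false

namespace Pool.Agent.Lib.MP_89bcae_ag.Wt

universe u

variable {N : ℕ} {E : Type u} [Field E] {f : E[X]} [hG : IsGood N f]

/-- the prime of the line at `a` -/
noncomputable def wp2_p (a : E) : Ideal E[X] := Ideal.span {X - C a}

omit hG in
lemma wp2_p_max (a : E) : (wp2_p a).IsMaximal :=
  PrincipalIdealRing.isMaximal_of_irreducible (irreducible_X_sub_C a)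

omit hG in
lemma wp2_p_ne (a : E) : wp2_p a ≠ ⊥ := by
  unfold wp2_p
  rw [Ne, Ideal.span_singleton_eq_bot]
  exact X_sub_C_ne_zero a

lemma wp2_map (a : E) : Ideal.map (algebraMap E[X] (NRing N f)) (wp2_p a) =
    Ideal.span {(ofPoly (X - C a) : NRing N f)} := by
  unfold wp2_p
  rw [Ideal.map_span, Set.image_singleton]
  rfl

lemma wp2_ne_bot {a : E} {M : Ideal (NRing N f)}
    (h : (ofPoly (X - C a) : NRing N f) ∈ M) : M ≠ ⊥ := by
  rintro rfl
  rw [Ideal.mem_bot] at h
  exact X_sub_C_ne_zero a (ofPoly_injective (N := N) (f := f) (by rw [h, map_zero]))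

/-- a polynomial which is in a prime over `x - a` vanishes at `a` -/
lemma wp2_notMem {a : E} {M : Ideal (NRing N f)} (hM : M.IsPrime)
    (h : (ofPoly (X - C a) : NRing N f) ∈ M) {g : E[X]} (hg : g.eval a ≠ 0) :
    (ofPoly g : NRing N f) ∉ M := by
  intro hgM
  obtain ⟨q, hq⟩ := X_sub_C_dvd_sub_C_eval (a := a) (p := g)
  have h1 : (ofPoly (C (g.eval a)) : NRing N f) ∈ M := by
    have e : (ofPoly (C (g.eval a)) : NRing N f) = ofPoly g - ofPoly (X - C a) * ofPoly q := by
      rw [← map_mul, ← hq, map_sub]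
      ring
    rw [e]
    exact M.sub_mem hgM (M.mul_mem_right _ h)
  apply hM.ne_top
  rw [Ideal.eq_top_iff_one]
  have e : (1 : NRing N f) = ofPoly (C (g.eval a)⁻¹) * ofPoly (C (g.eval a)) := by
    rw [← map_mul, ← C_mul, inv_mul_cancel₀ hg, C_1, map_one]
  rw [e]
  exact M.mul_mem_left _ h1

lemma wp2_liesOver {a : E} {M : Ideal (NRing N f)} (hM : M.IsPrime)
    (h : (ofPoly (X - C a) : NRing N f) ∈ M) : M.LiesOver (wp2_p a) := by
  refine ⟨?_⟩
  have := wp2_p_max a
  refine (this.eq_of_le ?_ ?_)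
  · have := hM.comap (algebraMap E[X] (NRing N f))
    exact this.ne_top
  · unfold wp2_p
    rw [Ideal.span_singleton_le_iff_mem]
    exact h

/-- the primes over the point `a` of the line -/
noncomputable def wp2_S (N : ℕ) {E : Type u} [Field E] (f : E[X]) [hG : IsGood N f] (a : E) :
    Finset (Ideal (NRing N f)) :=
  IsDedekindDomain.primesOverFinset (wp2_p a) (NRing N f)

instance wp2_torsionFree : Module.IsTorsionFree E[X] (NRing N f) :=
  Module.isTorsionFree_iff_algebraMap_injective.mpr (ofPoly_injective (N := N) (f := f))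

lemma wp2_mem_iff {a : E} {M : Ideal (NRing N f)} :
    M ∈ wp2_S N f a ↔
      M.IsPrime ∧ (ofPoly (X - C a) : NRing N f) ∈ M := by
  have hmax := wp2_p_max a
  unfold wp2_S
  rw [IsDedekindDomain.mem_primesOverFinset_iff (wp2_p_ne a)]
  constructor
  · rintro ⟨h1, h2⟩
    refine ⟨h1, ?_⟩
    have h3 : (X - C a : E[X]) ∈ wp2_p a := Ideal.mem_span_singleton_self _
    have h4 := h2.over
    rw [h4] at h3
    exact h3
  · rintro ⟨h1, h2⟩
    exact ⟨h1, wp2_liesOver h1 h2⟩

/-- the ramification index -/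
noncomputable def wp2_e (a : E) (M : Ideal (NRing N f)) : ℕ :=
  Ideal.ramificationIdx' (wp2_p a) M

lemma wp2_e_pos {a : E} {M : Ideal (NRing N f)} (hM : M.IsPrime)
    (h : (ofPoly (X - C a) : NRing N f) ∈ M) : 0 < wp2_e a M := by
  have := wp2_liesOver hM h
  exact Nat.pos_of_ne_zero
    (Ideal.IsDedekindDomain.ramificationIdx'_ne_zero_of_liesOver M (wp2_p_ne a))

lemma wp2_e_mem (a : E) (M : Ideal (NRing N f)) :
    (ofPoly (X - C a) : NRing N f) ∈ M ^ wp2_e a M := by
  have h := Ideal.le_pow_ramificationIdx' (p := wp2_p a) (P := M)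
  rw [wp2_map] at h
  exact h (Ideal.mem_span_singleton_self _)

lemma wp2_le_e {a : E} {M : Ideal (NRing N f)} (hM : M.IsPrime)
    (_h : (ofPoly (X - C a) : NRing N f) ∈ M) {n : ℕ}
    (hn : (ofPoly (X - C a) : NRing N f) ∈ M ^ n) : n ≤ wp2_e a M := by
  have hne : Ideal.map (algebraMap E[X] (NRing N f)) (wp2_p a) ≠ ⊥ := by
    rw [wp2_map, Ne, Ideal.span_singleton_eq_bot]
    intro h0
    exact X_sub_C_ne_zero a (ofPoly_injective (N := N) (f := f) (by rw [h0, map_zero]))
  have e := Ideal.IsDedekindDomain.ramificationIdx'_eq_multiplicity hne hM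
  have hfin : FiniteMultiplicity M (Ideal.map (algebraMap E[X] (NRing N f)) (wp2_p a)) := by
    apply FiniteMultiplicity.of_not_isUnit
    · rw [Ideal.isUnit_iff]
      exact hM.ne_top
    · exact hne
  unfold wp2_e
  rw [e]
  refine hfin.le_multiplicity_of_pow_dvd ?_
  rw [wp2_map, Ideal.dvd_span_singleton]
  exact hn

lemma wp2_sum (N : ℕ) {E : Type u} [Field E] (f : E[X]) [hG : IsGood N f] (a : E) :
    ∑ M ∈ wp2_S N f a,
      wp2_e a M * Ideal.inertiaDeg' (wp2_p a) M = N := by
  have hmax := wp2_p_max a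
  have h := Ideal.sum_ramification_inertia (NRing N f) (RatFunc E) (FunField N f) (wp2_p_ne a)
  rw [finrank_funField] at h
  exact h

lemma wp2_inertia_pos {a : E} {M : Ideal (NRing N f)} (hM : M.IsPrime)
    (h : (ofPoly (X - C a) : NRing N f) ∈ M) : 0 < Ideal.inertiaDeg' (wp2_p a) M := by
  have := wp2_liesOver hM h
  have := wp2_p_max a
  exact Ideal.inertiaDeg'_pos (wp2_p a) M

lemma wp2_term_pos {a : E} {M : Ideal (NRing N f)}
    (h : M ∈ wp2_S N f a) :
    1 ≤ wp2_e a M * Ideal.inertiaDeg' (wp2_p a) M := by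
  obtain ⟨h1, h2⟩ := wp2_mem_iff.mp h
  exact Nat.mul_pos (wp2_e_pos h1 h2) (wp2_inertia_pos h1 h2)

lemma wp2_yy_ne : (yy : NRing N f) ≠ 0 := by
  intro h
  have h1 : (yy : NRing N f) ^ N = ofPoly f := yy_pow
  rw [h, zero_pow hG.ne] at h1
  exact f_ne_zero N f (ofPoly_injective (N := N) (f := f) (by rw [← h1, map_zero]))

/-- At a root of `f` the ramification index is divisible by `N`. -/
lemma wp2_dvd {a : E} (ha : f.eval a = 0) {M : Ideal (NRing N f)} (hM : M.IsPrime)
    (h : (ofPoly (X - C a) : NRing N f) ∈ M) : N ∣ wp2_e a M := by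
  let v : HeightOneSpectrum (NRing N f) := ⟨M, hM, wp2_ne_bot h⟩
  have hf0 := f_ne_zero N f
  set w := f.rootMultiplicity a with hw
  obtain ⟨g, hg1, hg2⟩ := exists_eq_pow_rootMultiplicity_mul_and_not_dvd f hf0 a
  have hga : g.eval a ≠ 0 := by
    intro h0
    exact hg2 (dvd_iff_isRoot.mpr h0)
  have hvg : v.intValuation (ofPoly g : NRing N f) = 1 :=
    HeightOneSpectrum.intValuation_eq_one_iff.mpr (wp2_notMem hM h hga)
  have hpi0 : (ofPoly (X - C a) : NRing N f) ≠ 0 := by
    intro h0
    exact X_sub_C_ne_zero a (ofPoly_injective (N := N) (f := f) (by rw [h0, map_zero]))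
  -- the valuation of `x - a`
  have hvpi : v.intValuation (ofPoly (X - C a) : NRing N f) =
      WithZero.exp (-(wp2_e a M : ℤ)) := by
    have e0 := v.intValuation_if_neg hpi0
    set c := (Associates.mk v.asIdeal).count
      (Associates.mk (Ideal.span {(ofPoly (X - C a) : NRing N f)})).factors with hc
    have h1 : c ≤ wp2_e a M := by
      apply wp2_le_e hM h
      apply (v.intValuation_le_pow_iff_mem _ _).mp
      rw [e0]
    have h2 : wp2_e a M ≤ c := by
      have h3 := (v.intValuation_le_pow_iff_mem (ofPoly (X - C a) : NRing N f) (wp2_e a M)).mpr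
        (wp2_e_mem a M)
      rw [e0, WithZero.exp_le_exp] at h3
      omega
    rw [e0, le_antisymm h1 h2]
  obtain ⟨k, hk⟩ : ∃ k : ℕ, v.intValuation (yy : NRing N f) = WithZero.exp (-(k : ℤ)) :=
    ⟨_, v.intValuation_if_neg wp2_yy_ne⟩
  have h1 : (yy : NRing N f) ^ N = ofPoly (X - C a) ^ w * ofPoly g := by
    rw [yy_pow, ← map_pow, ← map_mul, ← hg1]
  have h2 := congrArg v.intValuation h1
  rw [map_pow, map_mul, map_pow, hk, hvpi, hvg, mul_one, ← WithZero.exp_nsmul,
    ← WithZero.exp_nsmul, WithZero.exp_inj] at h2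
  have h3 : N * k = w * wp2_e a M := by
    have : (N : ℤ) * k = w * wp2_e a M := by
      simp only [nsmul_eq_mul] at h2
      linarith
    exact_mod_cast this
  have h4 : N ∣ w * wp2_e a M := ⟨k, h3.symm⟩
  have h5 : Nat.Coprime N w := (hG.mult a ha).symm
  exact h5.dvd_of_dvd_mul_left h4

/-- the ramified case -/
lemma wp2_ram {a : E} (ha : f.eval a = 0) {M M' : Ideal (NRing N f)} (hM : M.IsPrime)
    (h : (ofPoly (X - C a) : NRing N f) ∈ M) (hM' : M'.IsPrime)
    (h' : (ofPoly (X - C a) : NRing N f) ∈ M') : M = M' ∧ wp2_e a M = N := by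
  have hle : ∀ I : Ideal (NRing N f), I.IsPrime → (ofPoly (X - C a) : NRing N f) ∈ I →
      N ≤ wp2_e a I * Ideal.inertiaDeg' (wp2_p a) I := by
    intro I hI hIa
    calc N ≤ wp2_e a I := Nat.le_of_dvd (wp2_e_pos hI hIa) (wp2_dvd ha hI hIa)
      _ ≤ _ := Nat.le_mul_of_pos_right _ (wp2_inertia_pos hI hIa)
  have hs := wp2_sum N f a
  have hmem : M ∈ wp2_S N f a := wp2_mem_iff.mpr ⟨hM, h⟩
  have hmem' : M' ∈ wp2_S N f a := wp2_mem_iff.mpr ⟨hM', h'⟩
  constructor
  · by_contra hne
    have h1 : ∑ I ∈ ({M, M'} : Finset (Ideal (NRing N f))),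
        wp2_e a I * Ideal.inertiaDeg' (wp2_p a) I ≤ N := by
      refine le_trans ?_ hs.le
      apply Finset.sum_le_sum_of_subset
      intro I hI
      rw [Finset.mem_insert, Finset.mem_singleton] at hI
      rcases hI with rfl | rfl
      · exact hmem
      · exact hmem'
    rw [Finset.sum_pair hne] at h1
    have h2 := hle M hM h
    have h3 := hle M' hM' h'
    have h4 := hG.pos
    omega
  · apply le_antisymm
    · calc wp2_e a M ≤ wp2_e a M * Ideal.inertiaDeg' (wp2_p a) M :=
            Nat.le_mul_of_pos_right _ (wp2_inertia_pos hM h)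
        _ ≤ ∑ I ∈ wp2_S N f a,
              wp2_e a I * Ideal.inertiaDeg' (wp2_p a) I :=
            Finset.single_le_sum (f := fun I => wp2_e a I * Ideal.inertiaDeg' (wp2_p a) I)
              (fun _ _ => Nat.zero_le _) hmem
        _ = N := hs
    · exact Nat.le_of_dvd (wp2_e_pos hM h) (wp2_dvd ha hM h)

/-- the unramified case -/
lemma wp2_unram (P : Pt N f) (hy : P.y ≠ 0) {M : Ideal (NRing N f)} (hM : M.IsPrime)
    (h : (ofPoly (X - C P.x) : NRing N f) ∈ M) :
    wp2_e P.x M = 1 ∧ ∃ (ζ : E) (hζ : ζ ^ N = 1),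
      M = RingHom.ker ((evalPt P).comp (rotC ζ hζ)) := by
  have halg := hG.alg
  have : NeZero (N : E) := ⟨hG.ne_zero⟩
  obtain ⟨ζ₀, hζ₀⟩ := HasEnoughRootsOfUnity.exists_primitiveRoot E N
  have hcard := hζ₀.card_nthRootsFinset
  have hroot : ∀ z : nthRootsFinset N (1 : E), (z : E) ^ N = 1 := fun z =>
    (mem_nthRootsFinset hG.pos 1).mp z.2
  let F : nthRootsFinset N (1 : E) → Ideal (NRing N f) := fun z =>
    RingHom.ker ((evalPt P).comp (rotC (z : E) (hroot z)))
  have hFinj : Function.Injective F := by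
    intro z z' hzz
    have h1 : (yy - ofPoly (C ((z : E) * P.y)) : NRing N f) ∈ F z := by
      show ((evalPt P).comp (rotC (z : E) (hroot z))) (yy - ofPoly (C ((z : E) * P.y))) = 0
      rw [RingHom.comp_apply, map_sub, rotC_yy, rotC_ofPoly, map_sub, map_mul, evalPt_ofPoly,
        evalPt_ofPoly, evalPt_yy, eval_C, eval_C, sub_self]
    rw [hzz] at h1
    have h2 : ((evalPt P).comp (rotC (z' : E) (hroot z'))) (yy - ofPoly (C ((z : E) * P.y))) = 0 :=
      h1
    rw [RingHom.comp_apply, map_sub, rotC_yy, rotC_ofPoly, map_sub, map_mul, evalPt_ofPoly,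
      evalPt_ofPoly, evalPt_yy, eval_C, eval_C, sub_eq_zero] at h2
    exact Subtype.ext (mul_right_cancel₀ hy h2).symm
  set T : Finset (Ideal (NRing N f)) := Finset.univ.image F with hT
  have hTcard : T.card = N := by
    rw [hT, Finset.card_image_of_injective _ hFinj, Finset.card_univ, Fintype.card_coe, hcard]
  have hTsub : T ⊆ wp2_S N f P.x := by
    intro I hI
    obtain ⟨z, -, rfl⟩ := Finset.mem_image.mp hI
    refine wp2_mem_iff.mpr ⟨RingHom.ker_isPrime _, ?_⟩
    show ((evalPt P).comp (rotC (z : E) (hroot z))) (ofPoly (X - C P.x)) = 0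
    rw [RingHom.comp_apply, rotC_ofPoly, evalPt_ofPoly, eval_sub, eval_X, eval_C, sub_self]
  have hs := wp2_sum N f P.x
  have hcle : (wp2_S N f P.x).card ≤ N := by
    have h1 : ∑ I ∈ wp2_S N f P.x, 1 ≤
        ∑ I ∈ wp2_S N f P.x,
          wp2_e P.x I * Ideal.inertiaDeg' (wp2_p P.x) I :=
      Finset.sum_le_sum fun I hI => wp2_term_pos hI
    rw [← Finset.card_eq_sum_ones] at h1
    exact h1.trans hs.le
  have hTeq : T = wp2_S N f P.x :=
    Finset.eq_of_subset_of_card_le hTsub (by rw [hTcard]; exact hcle)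
  have hmem : M ∈ wp2_S N f P.x := wp2_mem_iff.mpr ⟨hM, h⟩
  constructor
  · have hone : ∀ I ∈ wp2_S N f P.x,
        1 = wp2_e P.x I * Ideal.inertiaDeg' (wp2_p P.x) I := by
      apply (Finset.sum_eq_sum_iff_of_le (fun I hI => wp2_term_pos hI)).mp
      refine Eq.trans ?_ hs.symm
      rw [← Finset.card_eq_sum_ones, ← hTeq]
      exact hTcard
    have h1 := hone M hmem
    exact Nat.eq_one_of_mul_eq_one_right h1.symm
  · rw [← hTeq] at hmem
    obtain ⟨z, -, hz⟩ := Finset.mem_image.mp hmem
    exact ⟨z, hroot z, hz.symm⟩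

lemma wp2_mem (P : Pt N f) : (ofPoly (X - C P.x) : NRing N f) ∈ P.ideal := by
  rw [mem_ideal, evalPt_ofPoly, eval_sub, eval_X, eval_C, sub_self]

/-- There is only one prime with given values of `x`, `y`. -/
lemma ker_unique (P : Pt N f) (φ : NRing N f →+* E) (h1 : ∀ p, φ (ofPoly p) = p.eval P.x)
    (h2 : φ yy = P.y) : RingHom.ker φ = P.ideal := by
  have hm1 : (ofPoly (X - C P.x) : NRing N f) ∈ RingHom.ker φ := by
    show φ _ = 0
    rw [h1, eval_sub, eval_X, eval_C, sub_self]
  by_cases hy : P.y = 0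
  · have ha : f.eval P.x = 0 := by rw [← P.eq, hy, zero_pow hG.ne]
    exact (wp2_ram ha (RingHom.ker_isPrime φ) hm1 P.ideal_isMaximal.isPrime (wp2_mem P)).1
  · have key : ∀ ψ : NRing N f →+* E, (∀ p, ψ (ofPoly p) = p.eval P.x) → ψ yy = P.y →
        RingHom.ker ψ = RingHom.ker ((evalPt P).comp (rotC 1 (one_pow N))) := by
      intro ψ h3 h4
      have hm : (ofPoly (X - C P.x) : NRing N f) ∈ RingHom.ker ψ := by
        show ψ _ = 0
        rw [h3, eval_sub, eval_X, eval_C, sub_self]
      obtain ⟨-, ζ, hζ, hk⟩ := wp2_unram P hy (RingHom.ker_isPrime ψ) hm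
      have h5 : (yy - ofPoly (C P.y) : NRing N f) ∈ RingHom.ker ψ := by
        show ψ _ = 0
        rw [map_sub, h4, h3, eval_C, sub_self]
      rw [hk] at h5
      have h6 : ((evalPt P).comp (rotC ζ hζ)) (yy - ofPoly (C P.y)) = 0 := h5
      rw [RingHom.comp_apply, map_sub, rotC_yy, rotC_ofPoly, map_sub, map_mul, evalPt_ofPoly,
        evalPt_ofPoly, evalPt_yy, eval_C, eval_C, sub_eq_zero] at h6
      have h7 : ζ = 1 := mul_right_cancel₀ hy (by rw [h6, one_mul])
      subst h7
      exact hk
    rw [key φ h1 h2]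
    exact (key (evalPt P) (evalPt_ofPoly P) (evalPt_yy P)).symm

/-- The ramification indices over the line. -/
lemma ofPoly_sub_pow (P : Pt N f) :
    (P.y ≠ 0 → (ofPoly (X - C P.x) : NRing N f) ∉ P.ideal ^ 2) ∧
    (P.y = 0 → (ofPoly (X - C P.x) : NRing N f) ∈ P.ideal ^ N ∧
      (ofPoly (X - C P.x) : NRing N f) ∉ P.ideal ^ (N + 1)) := by
  have hp := P.ideal_isMaximal.isPrime
  have hm := wp2_mem P
  constructor
  · intro hy hcon
    have h1 := (wp2_unram P hy hp hm).1
    have h2 := wp2_le_e hp hm hcon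
    omega
  · intro hy
    have ha : f.eval P.x = 0 := by rw [← P.eq, hy, zero_pow hG.ne]
    have h1 := (wp2_ram ha hp hm hp hm).2
    constructor
    · have h2 := wp2_e_mem P.x P.ideal
      rwa [h1] at h2
    · intro hcon
      have h2 := wp2_le_e hp hm hcon
      omega

end Pool.Agent.Lib.MP_89bcae_ag.Wt

end

section

/-!
# Points and maximal ideals of the coordinate ring (3)

ROW WP3 (60 lines) = the lemma `hom_unique` of this file.
PROOF. The kernels of `g` and `h` are nonzero primes (they contain `x - P.x`), so by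
`exists_hom_of_prime` they are the kernels of `φ`, `φ'` with points `P'`, `P''`; `g (ofPoly X) = τ (P.x)` gives
`P'.x = P.x` (`τ` is injective; `ofPoly (X - C P'.x)` is in the kernel of `g`), etc., so `P' = P'' = P` and the
kernels are equal to `P.ideal` by `ker_unique`; for `c` in `NRing`, `c - ofPoly (C (evalPt P c))` is in `P.ideal`.
-/

open Polynomial IsDedekindDomain

open scoped Classical

namespace Pool.Agent.Lib.MP_89bcae_ag.Wt

universe u

variable {N : ℕ} {E : Type u} [Field E] {f : E[X]} [hG : IsGood N f]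

lemma exists_pt_of_prime (I : Ideal (NRing N f)) (hI : I.IsPrime) (h0 : I ≠ ⊥) :
    ∃ P : Pt N f, P.ideal = I := by
  obtain ⟨P, φ, h1, h2, h3⟩ := exists_hom_of_prime I hI h0
  exact ⟨P, by rw [← ker_unique P φ h2 h3, h1]⟩

/-- A homomorphism is determined by the values of the constants, of `x` and of `y`. -/
lemma hom_unique {S : Type*} [CommRing S] [IsDomain S] (τ : E →+* S) (P : Pt N f)
    (g h : NRing N f →+* S) (hg : ∀ p, g (ofPoly p) = τ (p.eval P.x)) (hgy : g yy = τ P.y)
    (hh : ∀ p, h (ofPoly p) = τ (p.eval P.x)) (hhy : h yy = τ P.y) : g = h := by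
  have key : ∀ k : NRing N f →+* S, (∀ p, k (ofPoly p) = τ (p.eval P.x)) → k yy = τ P.y →
      RingHom.ker k = P.ideal := by
    intro k hk hky
    have hp : (RingHom.ker k).IsPrime := RingHom.ker_isPrime k
    have h0 : RingHom.ker k ≠ ⊥ := by
      intro hb
      have h1 : (ofPoly (X - C P.x) : NRing N f) ∈ RingHom.ker k := by
        rw [RingHom.mem_ker, hk, eval_sub, eval_X, eval_C, sub_self, map_zero]
      rw [hb, Ideal.mem_bot] at h1
      have h2 : (X - C P.x : E[X]) = 0 :=
        ofPoly_injective (N := N) (f := f) (by rw [h1, map_zero])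
      exact X_sub_C_ne_zero _ h2
    obtain ⟨P', φ, h1, h2, h3⟩ := exists_hom_of_prime (RingHom.ker k) hp h0
    have hx : P'.x = P.x := by
      have h4 : (ofPoly (X - C P'.x) : NRing N f) ∈ RingHom.ker φ := by
        rw [RingHom.mem_ker, h2, eval_sub, eval_X, eval_C, sub_self]
      rw [h1, RingHom.mem_ker, hk, eval_sub, eval_X, eval_C] at h4
      exact (sub_eq_zero.1 (τ.injective (h4.trans (map_zero τ).symm))).symm
    have hy : P'.y = P.y := by
      have h4 : (yy - ofPoly (C P'.y) : NRing N f) ∈ RingHom.ker φ := by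
        rw [RingHom.mem_ker, map_sub, h2, h3, eval_C, sub_self]
      rw [h1, RingHom.mem_ker, map_sub, hky, hk, eval_C, sub_eq_zero] at h4
      exact (τ.injective h4).symm
    have hP : P' = P := Pt.ext hx hy
    subst hP
    rw [← h1]
    exact ker_unique P' φ h2 h3
  ext c
  have hc : (c - ofPoly (C (evalPt P c)) : NRing N f) ∈ P.ideal := by
    rw [mem_ideal, map_sub, evalPt_ofPoly, eval_C, sub_self]
  have hc1 := hc
  rw [← key g hg hgy, RingHom.mem_ker, map_sub, hg, eval_C, sub_eq_zero] at hc1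
  rw [← key h hh hhy, RingHom.mem_ker, map_sub, hh, eval_C, sub_eq_zero] at hc
  rw [hc1, hc]

lemma evalPt_rotC (ζ : E) (hζ : ζ ^ N = 1) (P : Pt N f) (a : NRing N f) :
    evalPt P (rotC ζ hζ a) = evalPt (P.rot ζ hζ) a := by
  have h := hom_unique (RingHom.id E) (P.rot ζ hζ) ((evalPt P).comp (rotC ζ hζ))
    (evalPt (P.rot ζ hζ)) (fun p => by
      rw [RingHom.comp_apply, rotC_ofPoly, evalPt_ofPoly]
      rfl) (by
      rw [RingHom.comp_apply, rotC_yy, map_mul, evalPt_ofPoly, evalPt_yy, eval_C]
      rfl) (fun p => by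
      rw [evalPt_ofPoly]
      rfl) (by
      rw [evalPt_yy]
      rfl)
  exact congrArg (fun g : NRing N f →+* E => g a) h

section Maps

variable {E' : Type u} [Field E'] {f' : E'[X]} [hG' : IsGood N f']

omit hG hG' in
lemma coordMap_ofPoly (σ : E →+* E') (h : f.map σ = f') (p : E[X]) :
    coordMap N σ h (ofPoly p) = ofPoly (p.map σ) := Subtype.ext (funMap_polyF σ h p)

lemma coordMap_yy (σ : E →+* E') (h : f.map σ = f') :
    coordMap N σ h (yy : NRing N f) = yy := Subtype.ext (funMap_yF σ h)

lemma evalPt_coordMap (σ : E →+* E') (h : f.map σ = f') (P : Pt N f) (a : NRing N f) :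
    evalPt (P.map σ h) (coordMap N σ h a) = σ (evalPt P a) := by
  have h := hom_unique σ P ((evalPt (P.map σ h)).comp (coordMap N σ h))
    (σ.comp (evalPt P)) (fun p => by
      rw [RingHom.comp_apply, coordMap_ofPoly, evalPt_ofPoly]
      show (p.map σ).eval (σ P.x) = _
      rw [eval_map, eval₂_hom]) (by
      rw [RingHom.comp_apply, coordMap_yy, evalPt_yy]
      rfl) (fun p => by
      rw [RingHom.comp_apply, evalPt_ofPoly]) (by
      rw [RingHom.comp_apply, evalPt_yy])
  exact congrArg (fun g : NRing N f →+* E' => g a) h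

end Maps


end Pool.Agent.Lib.MP_89bcae_ag.Wt

end

section

/-!
# The points of the curve over the primes of the affine coordinate ring of the generic fibre
-/

open Polynomial IsDedekindDomain IsLocalRing

open scoped Classical

namespace Pool.Agent.Lib.MP_89bcae_ag.Brt

open Pool.Agent.Lib.MP_89bcae_ag.Wt Pool.Agent.Lib.MP_89bcae_ag.Wt.Lns Pool.Agent.Lib.MP_89bcae_ag.Bra

section

variable {K : Type} [Field K]
  {L Ω : Type} [Field L] [Field Ω] [Algebra L Ω] {ℓ : ℕ} {f : L[X]} [IsAlgClosure L Ω]
  [hG : IsGood ℓ (f.map (algebraMap L Ω))] {κ : K →+* FunField ℓ (f.map (algebraMap L Ω))}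
  {R : Type} [CommRing R] [Algebra R K]

lemma kappa_integral (h1 : ∀ r : R, ∃ p : L[X],
    κ (algebraMap R K r) = polyF (p.map (algebraMap L Ω))) (a : integralClosure R K) :
    κ (a : K) ∈ integralClosure (Polynomial Ω) (FunField ℓ (f.map (algebraMap L Ω))) := by
  obtain ⟨p, hp, hpa⟩ := (a.2 : IsIntegral R (a : K))
  choose q hq using h1
  let B : Subring (FunField ℓ (f.map (algebraMap L Ω))) :=
    (polyF : (Polynomial Ω) →+* FunField ℓ (f.map (algebraMap L Ω))).range
  let θ : R →+* B := (κ.comp (algebraMap R K)).codRestrict B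
    fun r => ⟨(q r).map (algebraMap L Ω), (hq r).symm⟩
  have h1 : IsIntegral B (κ (a : K)) := by
    refine ⟨p.map θ, hp.map θ, ?_⟩
    rw [eval₂_map]
    have h2 : (algebraMap B (FunField ℓ (f.map (algebraMap L Ω)))).comp θ =
        κ.comp (algebraMap R K) := RingHom.ext fun r => rfl
    rw [h2, ← Polynomial.hom_eval₂, hpa, map_zero]
  obtain ⟨p', hp', hpa'⟩ := h1
  have h3 : Function.Surjective
      ((polyF : (Polynomial Ω) →+* FunField ℓ (f.map (algebraMap L Ω))).rangeRestrict) :=
    RingHom.rangeRestrict_surjective _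
  obtain ⟨p'', hp'', -, hm⟩ := Polynomial.lifts_and_natDegree_eq_and_monic
    ((Polynomial.mem_lifts p').2 (Polynomial.map_surjective _ h3 p')) hp'
  refine ⟨p'', hm, ?_⟩
  rw [← hp'', eval₂_map] at hpa'
  exact hpa'

/-- The embedding of the coordinate rings. -/
noncomputable def kapA (h1 : ∀ r : R, ∃ p : L[X],
    κ (algebraMap R K r) = polyF (p.map (algebraMap L Ω))) :
    integralClosure R K →+* NRing ℓ (f.map (algebraMap L Ω)) :=
  (κ.comp (algebraMap (integralClosure R K) K)).codRestrict
    (integralClosure (Polynomial Ω) (FunField ℓ (f.map (algebraMap L Ω)))) (kappa_integral h1)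

lemma coe_kapA (h1 : ∀ r : R, ∃ p : L[X],
    κ (algebraMap R K r) = polyF (p.map (algebraMap L Ω))) (a : integralClosure R K) :
    algebraMap (NRing ℓ (f.map (algebraMap L Ω))) (FunField ℓ (f.map (algebraMap L Ω)))
      (kapA h1 a) = κ (a : K) := rfl

end

section

variable {L Ω : Type} [Field L] [Field Ω] [Algebra L Ω] {ℓ : ℕ} {f : L[X]} [IsAlgClosure L Ω]
  [hG : IsGood ℓ (f.map (algebraMap L Ω))] {A : Type} [CommRing A]

/-- The coordinate ring over `Ω` is integral over the one over `L`. -/
lemma isIntegralElem_of (θ : A →+* NRing ℓ (f.map (algebraMap L Ω)))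
    (hθ : ∀ p : L[X], ∃ a : A, θ a = ofPoly (p.map (algebraMap L Ω)))
    (b : NRing ℓ (f.map (algebraMap L Ω))) : θ.IsIntegralElem b := by
  let _ : Algebra A (NRing ℓ (f.map (algebraMap L Ω))) := θ.toAlgebra
  let M := integralClosure A (NRing ℓ (f.map (algebraMap L Ω)))
  have hR : ∀ p : L[X], (ofPoly (p.map (algebraMap L Ω)) : NRing ℓ (f.map (algebraMap L Ω))) ∈ M := by
    intro p
    obtain ⟨a, ha⟩ := hθ p
    rw [← ha]
    exact Subalgebra.algebraMap_mem M a
  have hC : ∀ z : Ω, (ofPoly (C z) : NRing ℓ (f.map (algebraMap L Ω))) ∈ M := by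
    intro z
    have hz : IsIntegral L z := (IsAlgClosure.isAlgebraic.isAlgebraic z : IsAlgebraic L z).isIntegral
    let η : L →+* M := ((ofPoly : (Polynomial Ω) →+* NRing ℓ (f.map (algebraMap L Ω))).comp
      ((C : Ω →+* (Polynomial Ω)).comp (algebraMap L Ω))).codRestrict M.toSubring fun l => by
        have h2 := hR (C l)
        rw [Polynomial.map_C] at h2
        exact h2
    have h3 : IsIntegral M (ofPoly (C z) : NRing ℓ (f.map (algebraMap L Ω))) := by
      obtain ⟨p, hp, hpz⟩ := hz
      refine ⟨p.map η, hp.map η, ?_⟩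
      rw [eval₂_map]
      have h4 : (algebraMap M (NRing ℓ (f.map (algebraMap L Ω)))).comp η =
          ((ofPoly : (Polynomial Ω) →+* NRing ℓ (f.map (algebraMap L Ω))).comp
            (C : Ω →+* (Polynomial Ω))).comp (algebraMap L Ω) := RingHom.ext fun r => rfl
      rw [h4]
      have h5 := Polynomial.hom_eval₂ p (algebraMap L Ω)
        ((ofPoly : (Polynomial Ω) →+* NRing ℓ (f.map (algebraMap L Ω))).comp
          (C : Ω →+* (Polynomial Ω))) z
      rw [hpz, map_zero] at h5
      exact h5.symm
    exact isIntegral_trans (R := A) _ h3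
  have hP : ∀ p : (Polynomial Ω), (ofPoly p : NRing ℓ (f.map (algebraMap L Ω))) ∈ M := by
    intro p
    induction p using Polynomial.induction_on' with
    | add p q hp hq =>
      rw [map_add]
      exact M.add_mem hp hq
    | monomial n z =>
      rw [← C_mul_X_pow_eq_monomial, map_mul, map_pow]
      refine M.mul_mem (hC z) (M.pow_mem ?_ n)
      have h6 := hR X
      rw [Polynomial.map_X] at h6
      exact h6
  have h9 : IsIntegral M b := by
    let η : (Polynomial Ω) →+* M :=
      (ofPoly : (Polynomial Ω) →+* NRing ℓ (f.map (algebraMap L Ω))).codRestrict M.toSubring hP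
    obtain ⟨p, hp, hpb⟩ := (b.2 : IsIntegral (Polynomial Ω) (b : FunField ℓ (f.map (algebraMap L Ω))))
    refine ⟨p.map η, hp.map η, ?_⟩
    rw [eval₂_map]
    apply Subtype.ext
    have h8 := Polynomial.hom_eval₂ p (algebraMap (Polynomial Ω) (NRing ℓ (f.map (algebraMap L Ω))))
      (algebraMap (NRing ℓ (f.map (algebraMap L Ω))) (FunField ℓ (f.map (algebraMap L Ω)))) b
    exact h8.trans hpb
  exact isIntegral_trans (R := A) _ h9

/-- The prime of `A` below a point. -/
lemma comap_ne_bot [IsDomain A] (θ : A →+* NRing ℓ (f.map (algebraMap L Ω)))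
    (hθ : ∀ b, θ.IsIntegralElem b) (P : Pt ℓ (f.map (algebraMap L Ω))) : P.ideal.comap θ ≠ ⊥ := by
  let _ : Algebra A (NRing ℓ (f.map (algebraMap L Ω))) := θ.toAlgebra
  obtain ⟨b, hb, hb0⟩ := Submodule.exists_mem_ne_zero_of_ne_bot P.ideal_ne_bot
  exact Ideal.comap_ne_bot_of_integral_mem hb0 hb (hθ b)

/-- There are points above all the primes of `A`. -/
lemma exists_pt_over [IsDomain A] (θ : A →+* NRing ℓ (f.map (algebraMap L Ω)))
    (hθ : ∀ b, θ.IsIntegralElem b) (hinj : Function.Injective θ)
    (q : Ideal A) (hq : q.IsMaximal) (hq0 : q ≠ ⊥) :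
    ∃ P : Pt ℓ (f.map (algebraMap L Ω)), P.ideal.comap θ = q := by
  let _ : Algebra A (NRing ℓ (f.map (algebraMap L Ω))) := θ.toAlgebra
  have : Algebra.IsIntegral A (NRing ℓ (f.map (algebraMap L Ω))) := ⟨hθ⟩
  have hker : RingHom.ker (algebraMap A (NRing ℓ (f.map (algebraMap L Ω)))) ≤ q := by
    intro a ha
    have h1 : θ a = θ 0 := by rw [map_zero]; exact ha
    rw [hinj h1]
    exact q.zero_mem
  obtain ⟨Q, hQ, hQq⟩ := Ideal.exists_ideal_over_maximal_of_isIntegral q hker
  have hQ0 : Q ≠ ⊥ := by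
    rintro rfl
    apply hq0
    rw [← hQq, eq_bot_iff]
    intro a ha
    have h1 : θ a = θ 0 := by rw [map_zero]; exact ha
    exact hinj h1
  obtain ⟨P, hP⟩ := exists_pt_of_prime Q hQ.isPrime hQ0
  exact ⟨P, by rw [hP]; exact hQq⟩

end

end Pool.Agent.Lib.MP_89bcae_ag.Brt

end

end

section

attribute [local instance 100000] Pool.Agent.Lib.MP_89bcae_ag.Brt.tffFields
attribute [local instance 100000] Pool.Agent.Lib.MP_89bcae_ag.Wt.ifrNF Pool.Agent.Lib.MP_89bcae_ag.Wt.iddNF

section

/-!
# Frobenius orbits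
-/

open Polynomial IntermediateField

namespace Pool.Agent.Lib.MP_89bcae_ag

variable {k F : Type*} [Field k] [Fintype k] [Field F] [Algebra k F] [Algebra.IsAlgebraic k F]

variable (k F) in
/-- The Frobenius automorphism. -/
noncomputable def frob8 : F ≃ₐ[k] F := FiniteField.frobeniusAlgEquivOfAlgebraic k F

lemma frob8_apply (x : F) : frob8 k F x = x ^ Fintype.card k := rfl

lemma frob8_pow_apply (i : ℕ) (x : F) : (frob8 k F ^ i) x = x ^ (Fintype.card k ^ i) := by
  induction i generalizing x with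
  | zero => simp
  | succ i ih => rw [pow_succ, AlgEquiv.mul_apply, frob8_apply, ih, ← pow_mul, pow_succ, mul_comm]

lemma frob8_pow_pow (i m : ℕ) {x : F} (h : (frob8 k F ^ i) x = x) :
    (frob8 k F ^ (i * m)) x = x := by
  induction m with
  | zero => simp
  | succ m ih => rw [Nat.mul_succ, pow_add, AlgEquiv.mul_apply, h, ih]


/-- The Frobenius orbit of an element has the degree of its minimal polynomial as length. -/
lemma frob8_pow_eq_iff (x : F) (i : ℕ) :
    (frob8 k F ^ i) x = x ↔ (minpoly k x).natDegree ∣ i := by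
  have hint : IsIntegral k x := Algebra.IsIntegral.isIntegral x
  have : FiniteDimensional k k⟮x⟯ := adjoin.finiteDimensional hint
  have : Finite k⟮x⟯ := Module.finite_of_finite k
  rw [← adjoin.finrank hint, ← FiniteField.orderOf_frobeniusAlgEquivOfAlgebraic k k⟮x⟯,
    orderOf_dvd_iff_pow_eq_one]
  have key : ∀ y : k⟮x⟯, (((FiniteField.frobeniusAlgEquivOfAlgebraic k k⟮x⟯ ^ i) y : k⟮x⟯) : F) =
      (frob8 k F ^ i) (y : F) := by
    intro y
    rw [frob8_pow_apply, AlgEquiv.coe_pow, FiniteField.coe_frobeniusAlgEquivOfAlgebraic_iterate]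
    rfl
  constructor
  · intro h
    ext y
    rw [key]
    change (frob8 k F ^ i) (y : F) = y
    have h1 : k⟮x⟯ ≤ IntermediateField.fixedField (Subgroup.zpowers (frob8 k F ^ i)) := by
      rw [adjoin_simple_le_iff, IntermediateField.mem_fixedField_iff]
      intro τ hτ
      obtain ⟨m, rfl⟩ := Subgroup.mem_zpowers_iff.mp hτ
      exact (MulAction.stabilizer (F ≃ₐ[k] F) x).zpow_mem
        (show frob8 k F ^ i ∈ MulAction.stabilizer (F ≃ₐ[k] F) x from h) m
    exact (IntermediateField.mem_fixedField_iff _ _).mp (h1 y.2) _ (Subgroup.mem_zpowers _)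
  · intro h
    have h1 := key (AdjoinSimple.gen k x)
    rw [h] at h1
    exact h1.symm

/-- The roots of an irreducible polynomial form a Frobenius orbit. -/
lemma exists_frob8_pow [IsAlgClosed F] {p : k[X]} (hp : Irreducible p) {x y : F}
    (hx : aeval x p = 0) (hy : aeval y p = 0) : ∃ i < p.natDegree, y = (frob8 k F ^ i) x := by
  classical
  have hsep : p.Separable := PerfectField.separable_of_irreducible hp
  have hdeg : (minpoly k x).natDegree = p.natDegree := by
    have h1 := minpoly.eq_of_irreducible hp hx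
    rw [← h1, natDegree_mul_leadingCoeff_inv _ hp.ne_zero]
  have hcard : (p.rootSet F).ncard = p.natDegree := by
    rw [← Nat.card_coe_set_eq, Nat.card_eq_fintype_card]
    exact card_rootSet_eq_natDegree hsep (IsAlgClosed.splits _)
  let f : ℕ → F := fun i => (frob8 k F ^ i) x
  have hinj : Set.InjOn f (Finset.range p.natDegree : Set ℕ) := by
    intro a ha b hb hab
    rw [Finset.mem_coe, Finset.mem_range] at ha hb
    wlog hle : a ≤ b generalizing a b
    · exact (this hb ha hab.symm (by omega)).symm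
    have h1 : (frob8 k F ^ (b - a)) x = x := by
      apply (frob8 k F ^ a).injective
      rw [← AlgEquiv.mul_apply, ← pow_add, Nat.add_sub_cancel' hle]
      exact hab.symm
    rw [frob8_pow_eq_iff, hdeg] at h1
    have := Nat.eq_zero_of_dvd_of_lt h1 (by omega)
    omega
  have hsub : ((Finset.range p.natDegree).image f : Set F) ⊆ p.rootSet F := by
    intro z hz
    rw [Finset.mem_coe, Finset.mem_image] at hz
    obtain ⟨i, -, rfl⟩ := hz
    rw [mem_rootSet]
    refine ⟨hp.ne_zero, ?_⟩
    change aeval ((frob8 k F ^ i : F ≃ₐ[k] F) x) p = 0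
    rw [← AlgEquiv.coe_toAlgHom (frob8 k F ^ i), aeval_algHom_apply, hx, map_zero]
  have heq : ((Finset.range p.natDegree).image f : Set F) = p.rootSet F := by
    apply Set.eq_of_subset_of_ncard_le hsub _ (rootSet_finite _ _)
    rw [hcard, Set.ncard_coe_finset, Finset.card_image_of_injOn hinj, Finset.card_range]
  have hy' : y ∈ p.rootSet F := mem_rootSet.mpr ⟨hp.ne_zero, hy⟩
  rw [← heq, Finset.mem_coe, Finset.mem_image] at hy'
  obtain ⟨i, hi, rfl⟩ := hy'
  exact ⟨i, Finset.mem_range.mp hi, rfl⟩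

end Pool.Agent.Lib.MP_89bcae_ag

end

section

/-!
# Continuous cochains of `Aut(S/K)`, `S` an algebraic closure of `K`
-/

namespace Pool.Agent.Lib.MP_89bcae_ag.Bra

section

variable {K S : Type} [Field K] [Field S] [Algebra K S]

lemma IsCts.comp {X Y : Type} {a : (S ≃ₐ[K] S) → X} (ha : IsCts a) (φ : X → Y) :
    IsCts fun g => φ (a g) := by
  obtain ⟨T, hT⟩ := ha
  exact ⟨T, fun g g' h => congrArg φ (hT g g' h)⟩

lemma IsCts.comp₂ {X Y Z : Type} {a : (S ≃ₐ[K] S) → X} {a' : (S ≃ₐ[K] S) → Y} (ha : IsCts a)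
    (ha' : IsCts a') (φ : X → Y → Z) : IsCts fun g => φ (a g) (a' g) := by
  classical
  obtain ⟨T, hT⟩ := ha
  obtain ⟨T', hT'⟩ := ha'
  refine ⟨T ∪ T', fun g g' h => ?_⟩
  show φ (a g) (a' g) = φ (a g') (a' g')
  rw [hT g g' fun x hx => h x (Finset.mem_union_left _ hx),
    hT' g g' fun x hx => h x (Finset.mem_union_right _ hx)]

lemma IsCts.const {X : Type} (x : X) : IsCts fun _ : S ≃ₐ[K] S => x := ⟨∅, fun _ _ _ => rfl⟩

variable [IsAlgClosure K S]

/-- A finite set is contained in a finite normal extension (the splitting field of the product of the minimal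
polynomials: `IntermediateField.normalClosure`, or `IntermediateField.adjoin` of the roots). -/
theorem exists_normal (T : Finset S) : ∃ E : IntermediateField K S, FiniteDimensional K E ∧ Normal K E ∧
    ∀ x ∈ T, x ∈ E := by
  have : Algebra.IsAlgebraic K S := IsAlgClosure.isAlgebraic
  have : Normal K S := IsAlgClosure.normal K S
  have : FiniteDimensional K (IntermediateField.adjoin K (T : Set S)) :=
    IntermediateField.finiteDimensional_adjoin fun x _ => Algebra.IsIntegral.isIntegral x
  exact ⟨IntermediateField.normalClosure K (IntermediateField.adjoin K (T : Set S)) S,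
    inferInstance, inferInstance, fun x hx =>
      IntermediateField.le_normalClosure _ (IntermediateField.subset_adjoin K _ hx)⟩

/-- The restrictions to a finite set take finitely many values. -/
theorem gal_a_res (T : Finset S) : ∃ (N : Type) (_ : Finite N) (r : (S ≃ₐ[K] S) → N),
    ∀ g g' : S ≃ₐ[K] S, r g = r g' → ∀ x ∈ T, g x = g' x := by
  obtain ⟨E, h1, h2, hE⟩ := exists_normal (K := K) T
  have : Normal K S := IsAlgClosure.normal K S
  refine ⟨E ≃ₐ[K] E, inferInstance, AlgEquiv.restrictNormalHom E, fun g g' h x hx => ?_⟩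
  have e1 := AlgEquiv.restrictNormal_commutes g E ⟨x, hE x hx⟩
  have e2 := AlgEquiv.restrictNormal_commutes g' E ⟨x, hE x hx⟩
  have e3 : g.restrictNormal E = g'.restrictNormal E := h
  rw [e3] at e1
  exact e1.symm.trans e2

/-- A continuous cochain has finitely many values: `a g` depends only on the restriction of `g` to a finite set
`T`, and `g x` is a root of the minimal polynomial of `x`. -/
theorem IsCts.finite_range {X : Type} {a : (S ≃ₐ[K] S) → X} (ha : IsCts a) : (Set.range a).Finite := by
  obtain ⟨T, hT⟩ := ha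
  obtain ⟨N, hN, r, hr⟩ := gal_a_res (K := K) T
  refine (Set.finite_range fun n : N => a (Function.invFun r n)).subset ?_
  rintro _ ⟨g, rfl⟩
  exact ⟨r g, hT _ _ (hr _ _ (Function.invFun_eq ⟨g, rfl⟩))⟩

/-- The same for cochains of degree two. -/
theorem finite_range₂ {X : Type} {b : (S ≃ₐ[K] S) → (S ≃ₐ[K] S) → X}
    (hb : ∃ T : Finset S, ∀ g g' h h' : S ≃ₐ[K] S, (∀ x ∈ T, g x = g' x) → (∀ x ∈ T, h x = h' x) →
      b g h = b g' h') : (Set.range fun p : (S ≃ₐ[K] S) × (S ≃ₐ[K] S) => b p.1 p.2).Finite := by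
  obtain ⟨T, hT⟩ := hb
  obtain ⟨N, hN, r, hr⟩ := gal_a_res (K := K) T
  refine (Set.finite_range fun n : N × N =>
    b (Function.invFun r n.1) (Function.invFun r n.2)).subset ?_
  rintro _ ⟨⟨g, h⟩, rfl⟩
  exact ⟨(r g, r h), hT _ _ _ _ (hr _ _ (Function.invFun_eq ⟨g, rfl⟩))
    (hr _ _ (Function.invFun_eq ⟨h, rfl⟩))⟩

/-- Hilbert's theorem 90 for continuous cocycles. PROOF. Let `T` be a finite set such that `a g` depends only on
the restriction of `g` to `T`; let `E` be a finite normal extension of `K` in `S` which contains `T` and the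
finitely many values of `a` (`exists_normal`, `IsCts.finite_range`). As restriction to `E` is surjective
(`AlgEquiv.restrictNormalHom_surjective`), `a` comes from a cocycle of `E ≃ₐ[K] E` with values in `Eˣ`; use
`groupCohomology.isMulCoboundary₁_of_isMulCocycle₁_of_aut_to_units` (finite dimensional extensions). -/
theorem h90 (a : (S ≃ₐ[K] S) → Sˣ) (ha : IsCts a)
    (hc : ∀ g h : S ≃ₐ[K] S, (a (g * h) : S) = g (a h) * a g) :
    ∃ e : Sˣ, ∀ g : S ≃ₐ[K] S, (a g : S) * e = g e := by
  classical
  have hnS : Normal K S := IsAlgClosure.normal K S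
  have hfin := ha.finite_range
  obtain ⟨T, hT⟩ := ha
  obtain ⟨E, hE1, hE2, hE3⟩ :=
    exists_normal (K := K) (T ∪ (hfin.toFinset.image fun u : Sˣ => (u : S)))
  have hTE : ∀ x ∈ T, x ∈ E := fun x hx => hE3 x (Finset.mem_union_left _ hx)
  have haE : ∀ g, (a g : S) ∈ E := fun g => hE3 _ (Finset.mem_union_right _
    (Finset.mem_image.mpr ⟨a g, hfin.mem_toFinset.mpr ⟨g, rfl⟩, rfl⟩))
  have hres : ∀ (g : S ≃ₐ[K] S) (x : E), ((g.restrictNormal E x : E) : S) = g x := fun g x =>
    AlgEquiv.restrictNormal_apply E g x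
  have hsurj : ∀ σ : E ≃ₐ[K] E, ∃ g : S ≃ₐ[K] S, ∀ x : E, g (x : S) = ((σ x : E) : S) := by
    intro σ
    obtain ⟨g, hg⟩ := AlgEquiv.restrictNormalHom_surjective (F := K) (K₁ := E) S σ
    refine ⟨g, fun x => ?_⟩
    rw [← hres g x]
    have h1 : g.restrictNormal E = σ := hg
    rw [h1]
  choose s hs using hsurj
  have hne : ∀ σ, (⟨(a (s σ) : S), haE _⟩ : E) ≠ 0 := by
    intro σ h
    exact (a (s σ)).ne_zero (congrArg (fun z : E => (z : S)) h)
  let f : (E ≃ₐ[K] E) → Eˣ := fun σ => Units.mk0 ⟨(a (s σ) : S), haE _⟩ (hne σ)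
  have hfv : ∀ σ, (((f σ : Eˣ) : E) : S) = a (s σ) := fun σ => rfl
  have hf : groupCohomology.IsMulCocycle₁ f := by
    intro σ τ
    apply Units.ext
    apply Subtype.ext
    have h1 : a (s (σ * τ)) = a (s σ * s τ) := by
      refine hT _ _ fun x hx => ?_
      have h2 := hs (σ * τ) ⟨x, hTE x hx⟩
      have h3 := hs τ ⟨x, hTE x hx⟩
      have h4 := hs σ (τ ⟨x, hTE x hx⟩)
      show s (σ * τ) x = s σ (s τ x)
      rw [show s τ x = _ from h3, h4]
      exact h2
    have h5 := hs σ (f τ : E)
    rw [AlgEquiv.smul_units_def]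
    show ((f (σ * τ) : E) : S) = ((σ (f τ : E) : E) : S) * ((f σ : E) : S)
    rw [← h5, hfv, hfv, hfv, h1, hc]
  obtain ⟨β, hβ⟩ := groupCohomology.isMulCoboundary₁_of_isMulCocycle₁_of_aut_to_units f hf
  have hβ0 : ((β : E) : S) ≠ 0 := by
    intro h
    exact β.ne_zero (Subtype.ext h)
  refine ⟨Units.mk0 ((β : E) : S) hβ0, fun g => ?_⟩
  have h2 : a g = a (s (g.restrictNormal E)) := by
    refine hT _ _ fun x hx => ?_
    have h3 := hs (g.restrictNormal E) ⟨x, hTE x hx⟩
    rw [hres g ⟨x, hTE x hx⟩] at h3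
    exact h3.symm
  have h4 : (g.restrictNormal E) • β = f (g.restrictNormal E) * β := by
    rw [← hβ (g.restrictNormal E), div_mul_cancel]
  rw [AlgEquiv.smul_units_def] at h4
  have h5 : (((g.restrictNormal E) (β : E) : E) : S) =
      ((f (g.restrictNormal E) : E) : S) * ((β : E) : S) :=
    congrArg (fun u : Eˣ => ((u : E) : S)) h4
  show (a g : S) * ((β : E) : S) = g ((β : E) : S)
  rw [← hres g (β : E), h5, hfv, ← h2]

/-- The fixed elements are purely inseparable over `K`. PROOF: see `exists_pow_mem_L`, `g10_pow` in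
`Wl/Gen.lean` (the minimal polynomial of a fixed element has only one root). -/
theorem exists_pow_mem (z : S) (hz : ∀ g : S ≃ₐ[K] S, g z = z) :
    ∃ (s : ℕ) (y : K), z ^ ringExpChar K ^ s = algebraMap K S y := by
  have h1 : IsAlgClosed S := IsAlgClosure.isAlgClosed K
  have h2 : Algebra.IsAlgebraic K S := IsAlgClosure.isAlgebraic
  have h3 : Normal K S := IsAlgClosure.normal K S
  have hint : IsIntegral K z := (Algebra.IsAlgebraic.isAlgebraic z).isIntegral
  have h4 : (minpoly K z).natSepDegree = 1 := by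
    classical
    rw [Polynomial.natSepDegree_eq_of_isAlgClosed S, Finset.card_eq_one]
    refine ⟨z, ?_⟩
    ext y
    rw [Multiset.mem_toFinset, Finset.mem_singleton, Polynomial.mem_aroots]
    constructor
    · rintro ⟨-, hy⟩
      have h5 : IsConjRoot K z y := (isConjRoot_iff_aeval_eq_zero hint).mpr hy
      obtain ⟨σ, hσ⟩ := isConjRoot_iff_exists_algEquiv.mp h5
      have h6 := hz σ
      exact σ.injective (hσ.trans h6.symm)
    · rintro rfl
      exact ⟨minpoly.ne_zero hint, minpoly.aeval K _⟩
  obtain ⟨s, y, hy⟩ := (minpoly.natSepDegree_eq_one_iff_pow_mem (ringExpChar K)).mp h4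
  exact ⟨s, y, hy.symm⟩

end

end Pool.Agent.Lib.MP_89bcae_ag.Bra

end

section

/-!
ROW R03 (60-120 lines). Finiteness of the support of the divisor of a function; orders.

PROOF. `HeightOneSpectrum.Support` finiteness: for `h = a / b` with `a, b` in the coordinate ring
the valuation of `h` at `v` is different from `1` only if `v` divides `(a)` or `(b)`
(`Ideal.finite_factors`, `HeightOneSpectrum.valuation_lt_one_iff_dvd`,
`HeightOneSpectrum.Support.finite`), and `P ↦ P.hs` is injective.
-/

open Polynomial IsDedekindDomain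

open scoped Classical

namespace Pool.Agent.Lib.MP_89bcae_ag.Wt

universe u

variable {N : ℕ} {E : Type u} [Field E] {f : E[X]} [hG : IsGood N f]

/-- The point as a prime of the coordinate ring. -/
noncomputable def Pt.hs (P : Pt N f) : HeightOneSpectrum (NRing N f) where
  asIdeal := P.ideal
  isPrime := P.ideal_isMaximal.isPrime
  ne_bot := P.ideal_ne_bot

/-- The order of a nonzero function at a point. -/
noncomputable def ord (P : Pt N f) (h : (FunField N f)ˣ) : ℤ :=
  -(WithZero.log (P.hs.valuation (FunField N f) (h : FunField N f)))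

lemma R03_hs_injective : Function.Injective (Pt.hs : Pt N f → HeightOneSpectrum (NRing N f)) := by
  intro P Q h
  apply Pt.ideal_injective
  exact congrArg HeightOneSpectrum.asIdeal h

lemma R03_val_finite (h : (FunField N f)ˣ) :
    {v : HeightOneSpectrum (NRing N f) | v.valuation (FunField N f) (h : FunField N f) ≠ 1}.Finite := by
  have h1 := HeightOneSpectrum.Support.finite (NRing N f) (h : FunField N f)
  have h2 := HeightOneSpectrum.Support.finite (NRing N f) (((h⁻¹ : (FunField N f)ˣ)) : FunField N f)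
  refine (h1.union h2).subset ?_
  intro v hv
  rcases lt_or_gt_of_ne (show v.valuation (FunField N f) (h : FunField N f) ≠ 1 from hv) with h3 | h3
  · right
    show 1 < v.valuation (FunField N f) (((h⁻¹ : (FunField N f)ˣ)) : FunField N f)
    rw [Units.val_inv_eq_inv_val, map_inv₀]
    have h0 : v.valuation (FunField N f) (h : FunField N f) ≠ 0 :=
      (Valuation.ne_zero_iff _).mpr h.ne_zero
    exact (one_lt_inv₀ (zero_lt_iff.mpr h0)).mpr h3
  · left
    exact h3

lemma ord_finite (h : (FunField N f)ˣ) : (Function.support fun P => ord P h).Finite := by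
  have h1 := R03_val_finite h
  refine (h1.preimage (f := Pt.hs) (R03_hs_injective.injOn)).subset ?_
  intro P hP
  show P.hs.valuation (FunField N f) (h : FunField N f) ≠ 1
  intro h2
  apply hP
  show ord P h = 0
  unfold ord
  rw [h2, WithZero.log_one, neg_zero]

/-- The divisor of a nonzero function on the affine curve. -/
noncomputable def div (h : (FunField N f)ˣ) : Pt N f →₀ ℤ :=
  Finsupp.ofSupportFinite (fun P => ord P h) (ord_finite h)

@[simp] lemma div_apply (h : (FunField N f)ˣ) (P : Pt N f) : div h P = ord P h := rfl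

/-- The class of a point. -/
noncomputable def clPt (P : Pt N f) : Jac N f :=
  Additive.ofMul (ClassGroup.equivPic (NRing N f) (ClassGroup.mk0
    ⟨P.ideal, mem_nonZeroDivisors_of_ne_zero P.ideal_ne_bot⟩))

/-- The class of a divisor. -/
noncomputable def cl : (Pt N f →₀ ℤ) →+ Jac N f :=
  Finsupp.liftAddHom fun P => zmultiplesHom _ (clPt P)

end Pool.Agent.Lib.MP_89bcae_ag.Wt

end

section

/-!
ROW R04 (100-200 lines). Elementary properties of `ord P`, residues.

PROOF. `ord P` is minus the logarithm of the valuation `P.hs.valuation`: multiplicativity and the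
ultrametric inequality are those of the valuation (`Valuation.map_mul`, `Valuation.map_add`).
For `a` in the coordinate ring: `HeightOneSpectrum.valuation_of_algebraMap`,
`intValuation_le_one`, `intValuation_lt_one_iff_mem` (or `_dvd`), and `a ∈ P.ideal` means
`evalPt P a = 0`. Residues: if `ord P h ≥ 0`, i.e. valuation at most one, then `h = a / b` with `a`,
`b` in the coordinate ring and `b ∉ P.ideal` (`HeightOneSpectrum` : the valuation ring is the
localization at the prime; Mathlib: `IsDedekindDomain.HeightOneSpectrum.exists_..._valuation_le_one`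
or: write `h = a / b` arbitrary, choose `c` in the coordinate ring with
`ord P (b c) = ...`; one may also use `IsLocalization.AtPrime` and `mem_integers_of_valuation_le_one`
for the localization). Take for `c` the quotient `evalPt P a / evalPt P b`; then
`h - c = (a - c b) / b` with `a - c b ∈ P.ideal`. Uniqueness: `ord P` of a nonzero constant is `0`.
-/

open Polynomial IsDedekindDomain

open scoped Classical

namespace Pool.Agent.Lib.MP_89bcae_ag.Wt

universe u

variable {N : ℕ} {E : Type u} [Field E] {f : E[X]} [hG : IsGood N f]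

private lemma R04_val_ne_zero (P : Pt N f) (h : (FunField N f)ˣ) :
    P.hs.valuation (FunField N f) (h : FunField N f) ≠ 0 :=
  (Valuation.ne_zero_iff _).mpr h.ne_zero

private lemma R04_ord_nonneg_iff (P : Pt N f) (h : (FunField N f)ˣ) :
    0 ≤ ord P h ↔ P.hs.valuation (FunField N f) (h : FunField N f) ≤ 1 := by
  have h1 := WithZero.log_le_iff_le_exp (a := (0 : ℤ)) (R04_val_ne_zero P h)
  rw [WithZero.exp_zero] at h1
  rw [← h1]
  unfold ord
  omega

private lemma R04_ord_pos_iff (P : Pt N f) (h : (FunField N f)ˣ) :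
    0 < ord P h ↔ P.hs.valuation (FunField N f) (h : FunField N f) < 1 := by
  have h1 := WithZero.log_lt_iff_lt_exp (a := (0 : ℤ)) (R04_val_ne_zero P h)
  rw [WithZero.exp_zero] at h1
  rw [← h1]
  unfold ord
  omega

lemma ord_mul (P : Pt N f) (h h' : (FunField N f)ˣ) : ord P (h * h') = ord P h + ord P h' := by
  unfold ord
  rw [Units.val_mul, map_mul, WithZero.log_mul (R04_val_ne_zero P h) (R04_val_ne_zero P h')]
  ring

lemma ord_one (P : Pt N f) : ord P 1 = 0 := by
  unfold ord
  rw [Units.val_one, map_one, WithZero.log_one, neg_zero]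

lemma ord_inv (P : Pt N f) (h : (FunField N f)ˣ) : ord P h⁻¹ = -ord P h := by
  have h1 := ord_mul P h h⁻¹
  rw [mul_inv_cancel, ord_one] at h1
  omega

lemma ord_pow (P : Pt N f) (h : (FunField N f)ˣ) (n : ℕ) : ord P (h ^ n) = n * ord P h := by
  induction n with
  | zero => rw [pow_zero, ord_one, Nat.cast_zero, zero_mul]
  | succ n ih =>
    rw [pow_succ, ord_mul, ih]
    push_cast
    ring

lemma ord_zpow (P : Pt N f) (h : (FunField N f)ˣ) (n : ℤ) : ord P (h ^ n) = n * ord P h := by
  rcases Int.eq_nat_or_neg n with ⟨m, rfl | rfl⟩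
  · rw [zpow_natCast, ord_pow]
  · rw [zpow_neg, zpow_natCast, ord_inv, ord_pow]
    ring

lemma ord_add (P : Pt N f) (u v w : (FunField N f)ˣ) (h : (w : FunField N f) = u + v) :
    min (ord P u) (ord P v) ≤ ord P w := by
  have h1 : P.hs.valuation (FunField N f) (w : FunField N f) ≤
      max (P.hs.valuation (FunField N f) (u : FunField N f)) (P.hs.valuation (FunField N f) (v : FunField N f)) := by
    rw [h]
    exact Valuation.map_add _ _ _
  rcases le_max_iff.mp h1 with h2 | h2
  · refine (min_le_left _ _).trans ?_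
    have h3 := (WithZero.log_le_log (R04_val_ne_zero P w) (R04_val_ne_zero P u)).mpr h2
    unfold ord
    omega
  · refine (min_le_right _ _).trans ?_
    have h3 := (WithZero.log_le_log (R04_val_ne_zero P w) (R04_val_ne_zero P v)).mpr h2
    unfold ord
    omega

lemma ord_nonneg (P : Pt N f) (a : NRing N f) (u : (FunField N f)ˣ)
    (hu : (u : FunField N f) = algebraMap (NRing N f) (FunField N f) a) : 0 ≤ ord P u := by
  rw [R04_ord_nonneg_iff, hu]
  exact HeightOneSpectrum.valuation_le_one _ _

lemma ord_pos_iff (P : Pt N f) (a : NRing N f) (u : (FunField N f)ˣ)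
    (hu : (u : FunField N f) = algebraMap (NRing N f) (FunField N f) a) : 0 < ord P u ↔ evalPt P a = 0 := by
  rw [R04_ord_pos_iff, hu]
  exact HeightOneSpectrum.valuation_lt_one_iff_mem _ _

/-- The constant function. -/
noncomputable def cst : E →+* FunField N f :=
  (algebraMap (NRing N f) (FunField N f)).comp (ofPoly.comp C)

/-- A nonzero constant, as a unit. -/
noncomputable def cstU : Eˣ →* (FunField N f)ˣ := Units.map (cst : E →+* FunField N f)

lemma ord_cstU (P : Pt N f) (c : Eˣ) : ord P (cstU c) = 0 := by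
  have h1 : 0 ≤ ord P (cstU c) := ord_nonneg P (ofPoly (C (c : E))) (cstU c) rfl
  have h2 : 0 ≤ ord P (cstU c⁻¹) := ord_nonneg P (ofPoly (C ((c⁻¹ : Eˣ) : E))) (cstU c⁻¹) rfl
  rw [map_inv, ord_inv] at h2
  omega

/-- The residue of a function which is regular at `P`. -/
lemma exists_residue_pt (P : Pt N f) (u : (FunField N f)ˣ) (hu : 0 ≤ ord P u) :
    ∃ c : E, ∀ w : (FunField N f)ˣ, (w : FunField N f) = (u : FunField N f) - (cst c : FunField N f) → 0 < ord P w := by
  rw [R04_ord_nonneg_iff] at hu
  obtain ⟨a, ha⟩ := HeightOneSpectrum.exists_valuation_sub_lt_of_integer P.hs hu 1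
  refine ⟨evalPt P a, fun w hw => ?_⟩
  rw [R04_ord_pos_iff]
  have h2 : P.hs.valuation (FunField N f)
      (algebraMap (NRing N f) (FunField N f) (a - ofPoly (C (evalPt P a)))) < 1 := by
    refine (HeightOneSpectrum.valuation_lt_one_iff_mem _ _).mpr ?_
    change evalPt P (a - ofPoly (C (evalPt P a))) = 0
    rw [map_sub, evalPt_ofPoly, eval_C, sub_self]
  have h3 : (w : FunField N f) = -(algebraMap (NRing N f) (FunField N f) a - (u : FunField N f)) +
      algebraMap (NRing N f) (FunField N f) (a - ofPoly (C (evalPt P a))) := by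
    rw [hw, map_sub]
    change (u : FunField N f) - algebraMap (NRing N f) (FunField N f) (ofPoly (C (evalPt P a))) = _
    ring
  rw [h3]
  refine lt_of_le_of_lt (Valuation.map_add _ _ _) (max_lt ?_ h2)
  rw [Valuation.map_neg]
  exact ha

lemma div_mul (h h' : (FunField N f)ˣ) : div (h * h') = div h + div h' := by
  ext P
  simp [ord_mul]

lemma div_one : div (1 : (FunField N f)ˣ) = 0 := by
  ext P
  simp [ord_one]

lemma div_inv (h : (FunField N f)ˣ) : div h⁻¹ = -div h := by
  ext P
  simp [ord_inv]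

lemma div_cstU (c : Eˣ) : div (cstU c : (FunField N f)ˣ) = 0 := by
  ext P
  simp [ord_cstU]

end Pool.Agent.Lib.MP_89bcae_ag.Wt

end

section

/-!
ROW R06 (100-200 lines). Automorphisms of the coordinate ring acting on functions and orders.

PROOF. A ring automorphism `φ` of the domain `NRing N f` extends to `FunField N f`
(`IsFractionRing.ringEquivOfRingEquiv` or `IsFractionRing.map`). If `φ⁻¹(Q.ideal) = P.ideal`, i.e.
`Q.ideal = P.ideal.map φ`, then `φ` carries the valuation of `P` to that of `Q`: the exponent of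
`Q.ideal` in `(φ a) = φ((a))` is the exponent of `P.ideal` in `(a)`; e.g. because
`a ∈ P.ideal ^ n ↔ φ a ∈ Q.ideal ^ n` (`intValuation_le_pow_iff_mem`). Then pass to fractions.
-/

open Polynomial IsDedekindDomain

open scoped Classical

namespace Pool.Agent.Lib.MP_89bcae_ag.Wt

universe u

variable {N : ℕ} {E : Type u} [Field E] {f : E[X]} [hG : IsGood N f]

/-- The automorphism of the function field induced by one of the coordinate ring. -/
noncomputable def autF (φ : NRing N f ≃+* NRing N f) : FunField N f ≃+* FunField N f :=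
  IsFractionRing.ringEquivOfRingEquiv φ

lemma autF_algebraMap (φ : NRing N f ≃+* NRing N f) (a : NRing N f) :
    autF φ (algebraMap (NRing N f) (FunField N f) a) = algebraMap (NRing N f) (FunField N f) (φ a) := by
  unfold autF
  exact IsFractionRing.ringEquivOfRingEquiv_algebraMap φ a

/-- The action on nonzero functions. -/
noncomputable def autU (φ : NRing N f ≃+* NRing N f) : (FunField N f)ˣ ≃* (FunField N f)ˣ :=
  Units.mapEquiv (autF φ : FunField N f ≃* FunField N f)

private lemma R06_ideal (φ : NRing N f ≃+* NRing N f) (P Q : Pt N f)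
    (h : ∀ a, evalPt Q (φ a) = 0 ↔ evalPt P a = 0) :
    P.ideal.map (φ : NRing N f →+* NRing N f) = Q.ideal := by
  ext b
  rw [Ideal.mem_map_iff_of_surjective (φ : NRing N f →+* NRing N f) φ.surjective]
  constructor
  · rintro ⟨a, ha, rfl⟩
    have ha' : evalPt P a = 0 := ha
    have := (h a).2 ha'
    exact this
  · intro hb
    have hb' : evalPt Q b = 0 := hb
    refine ⟨φ.symm b, ?_, by simp⟩
    have h1 := h (φ.symm b)
    rw [φ.apply_symm_apply] at h1
    exact h1.1 hb'

private lemma R06_pow (φ : NRing N f ≃+* NRing N f) (P Q : Pt N f)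
    (h : ∀ a, evalPt Q (φ a) = 0 ↔ evalPt P a = 0) (n : ℕ) (a : NRing N f)
    (ha : a ∈ P.hs.asIdeal ^ n) : φ a ∈ Q.hs.asIdeal ^ n := by
  have h1 : P.hs.asIdeal = P.ideal := rfl
  have h2 : Q.hs.asIdeal = Q.ideal := rfl
  rw [h1] at ha
  rw [h2, ← R06_ideal φ P Q h, ← Ideal.map_pow]
  exact Ideal.mem_map_of_mem (φ : NRing N f →+* NRing N f) ha

private lemma R06_le (φ : NRing N f ≃+* NRing N f) (P Q : Pt N f)
    (h : ∀ a, evalPt Q (φ a) = 0 ↔ evalPt P a = 0) (a : NRing N f) :
    Q.hs.intValuation (φ a) ≤ P.hs.intValuation a := by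
  by_cases ha : a = 0
  · subst ha
    simp
  · have h1 := P.hs.intValuation_if_neg ha
    rw [h1]
    rw [HeightOneSpectrum.intValuation_le_pow_iff_mem]
    apply R06_pow φ P Q h
    rw [← HeightOneSpectrum.intValuation_le_pow_iff_mem, h1]

private lemma R06_int (φ : NRing N f ≃+* NRing N f) (P Q : Pt N f)
    (h : ∀ a, evalPt Q (φ a) = 0 ↔ evalPt P a = 0) (a : NRing N f) :
    Q.hs.intValuation (φ a) = P.hs.intValuation a := by
  refine le_antisymm (R06_le φ P Q h a) ?_
  have h2 : ∀ b, evalPt P (φ.symm b) = 0 ↔ evalPt Q b = 0 := by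
    intro b
    have h1 := h (φ.symm b)
    rw [φ.apply_symm_apply] at h1
    exact h1.symm
  have h3 := R06_le φ.symm Q P h2 (φ a)
  rwa [φ.symm_apply_apply] at h3

lemma ord_autU (φ : NRing N f ≃+* NRing N f) (P Q : Pt N f)
    (h : ∀ a, evalPt Q (φ a) = 0 ↔ evalPt P a = 0) (u : (FunField N f)ˣ) :
    ord Q (autU φ u) = ord P u := by
  have key : Q.hs.valuation (FunField N f) ((autU φ u : (FunField N f)ˣ) : FunField N f)
      = P.hs.valuation (FunField N f) (u : FunField N f) := by
    have h0 : ((autU φ u : (FunField N f)ˣ) : FunField N f) = autF φ (u : FunField N f) := rfl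
    rw [h0]
    obtain ⟨a, b, hb, hab⟩ := IsFractionRing.div_surjective (A := NRing N f) (u : FunField N f)
    rw [← hab, map_div₀, autF_algebraMap, autF_algebraMap, map_div₀, map_div₀]
    rw [HeightOneSpectrum.valuation_of_algebraMap, HeightOneSpectrum.valuation_of_algebraMap,
      HeightOneSpectrum.valuation_of_algebraMap, HeightOneSpectrum.valuation_of_algebraMap,
      R06_int φ P Q h, R06_int φ P Q h]
  unfold ord
  rw [key]

end Pool.Agent.Lib.MP_89bcae_ag.Wt

end

end
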