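import Mathlib
import Pool.Agent.Lib.MP_89bcae_ag.Defs8
import Pool.Agent.Lib.MP_89bcae_ag.Tk.K000
import Pool.Agent.Lib.MP_89bcae_ag.Tk.K006

set_option linter.all false

section

attribute [local instance 100000] Pool.Agent.Lib.MP_89bcae_ag.Brt.tffFields
attribute [local instance 100000] Pool.Agent.Lib.MP_89bcae_ag.Wt.ifrNF Pool.Agent.Lib.MP_89bcae_ag.Wt.iddNF

namespace Pool.Agent.Lib.MP_89bcae_ag.Sup
end Pool.Agent.Lib.MP_89bcae_ag.Sup
namespace Pool.Agent.Lib.MP_89bcae_ag.Wt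
end Pool.Agent.Lib.MP_89bcae_ag.Wt
namespace Pool.Agent.Lib.MP_89bcae_ag.Wt.Lns
end Pool.Agent.Lib.MP_89bcae_ag.Wt.Lns

section

/-!
# The orders of `x - a` and of `y`, uniformizers at the ramified points
-/

open Polynomial IsDedekindDomain

open scoped Classical

namespace Pool.Agent.Lib.MP_89bcae_ag.Wt

universe u

section

/-- An inverse of `w` modulo `N`. -/
noncomputable def al (N w : ℕ) : ℕ :=
  if h : ∃ a b : ℕ, a * w = b * N + 1 then h.choose else 0

/-- The quotient of `al N w * w` by `N`. -/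
noncomputable def be (N w : ℕ) : ℕ :=
  if h : ∃ a b : ℕ, a * w = b * N + 1 then h.choose_spec.choose else 0

lemma al_mul {N w : ℕ} (hN : 1 < N) (h : w.Coprime N) : al N w * w = be N w * N + 1 := by
  have h1 : ∃ a b : ℕ, a * w = b * N + 1 := by
    obtain ⟨m, hm⟩ := Nat.exists_mul_mod_eq_one_of_coprime h hN
    refine ⟨m, w * m / N, ?_⟩
    have h2 := Nat.div_add_mod (w * m) N
    rw [hm.2, mul_comm N] at h2
    rw [mul_comm m, h2]
  unfold al be
  rw [dif_pos h1, dif_pos h1]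
  exact h1.choose_spec.choose_spec

end

section

variable {E : Type u} [Field E]

/-- The multiplicity of the root `θ`. -/
noncomputable def wt (f : E[X]) (θ : E) : ℕ := f.rootMultiplicity θ

/-- The polynomial `f(x) / (x - θ) ^ w(θ)`. -/
noncomputable def cofP (f : E[X]) (θ : E) : E[X] := f /ₘ (X - C θ) ^ wt f θ

/-- The value at `θ` of `f(x) / (x - θ) ^ w(θ)`. -/
noncomputable def cof (f : E[X]) (θ : E) : E := (cofP f θ).eval θ

lemma wt_mul (f : E[X]) (θ : E) : (X - C θ) ^ wt f θ * cofP f θ = f :=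
  pow_mul_divByMonic_rootMultiplicity_eq f θ

lemma cof_ne_zero {f : E[X]} (hf : f ≠ 0) (θ : E) : cof f θ ≠ 0 :=
  eval_divByMonic_pow_rootMultiplicity_ne_zero θ hf

lemma wt_map {E' : Type u} [Field E'] {f : E[X]} {f' : E'[X]} (σ : E →+* E') (h : f.map σ = f')
    (θ : E) : wt f' (σ θ) = wt f θ := by
  rw [← h]
  exact (eq_rootMultiplicity_map σ.injective θ).symm

lemma cofP_ne_zero {f : E[X]} (hf : f ≠ 0) (θ : E) : cofP f θ ≠ 0 := by
  intro h
  apply cof_ne_zero hf θ
  rw [cof, h, eval_zero]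

end

variable {N : ℕ} {E : Type u} [Field E] {f : E[X]} [hG : IsGood N f]

lemma al_wt {θ : E} (hθ : f.eval θ = 0) : al N (wt f θ) * wt f θ = be N (wt f θ) * N + 1 :=
  al_mul hG.one_lt (hG.mult θ hθ)

lemma algebraMap_ofPoly_ne_zero {p : E[X]} (hp : p ≠ 0) :
    algebraMap (NRing N f) (FunField N f) (ofPoly p) ≠ 0 := polyF_ne_zero hp

/-- The function `p(x)`, for a nonzero polynomial `p`. -/
noncomputable def polyU (p : E[X]) (hp : p ≠ 0) : (FunField N f)ˣ :=
  Units.mk0 (algebraMap (NRing N f) (FunField N f) (ofPoly p)) (algebraMap_ofPoly_ne_zero hp)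

/-- The function `x - a`. -/
noncomputable def xs (a : E) : (FunField N f)ˣ := polyU (X - C a) (X_sub_C_ne_zero a)

lemma algebraMap_yy_ne_zero : algebraMap (NRing N f) (FunField N f) yy ≠ 0 := yF_ne_zero

/-- The function `y`. -/
noncomputable def yU : (FunField N f)ˣ :=
  Units.mk0 (algebraMap (NRing N f) (FunField N f) yy) algebraMap_yy_ne_zero

lemma yU_pow : (yU : (FunField N f)ˣ) ^ N = polyU f (f_ne_zero N f) := by
  ext
  exact yF_pow

lemma polyU_mul {p q : E[X]} (hp : p ≠ 0) (hq : q ≠ 0) :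
    (polyU (p * q) (mul_ne_zero hp hq) : (FunField N f)ˣ) = polyU p hp * polyU q hq := by
  ext
  exact map_mul (polyF : E[X] →+* FunField N f) p q

lemma polyU_pow {p : E[X]} (hp : p ≠ 0) (n : ℕ) :
    (polyU (p ^ n) (pow_ne_zero n hp) : (FunField N f)ˣ) = polyU p hp ^ n := by
  ext
  exact map_pow (polyF : E[X] →+* FunField N f) p n

/-- the order of a function of the coordinate ring -/
private lemma R05_ord (P : Pt N f) (a : NRing N f) (u : (FunField N f)ˣ)
    (hu : (u : FunField N f) = algebraMap (NRing N f) (FunField N f) a) :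
    ord P u = -(WithZero.log (P.hs.intValuation a)) := by
  unfold ord
  rw [hu, HeightOneSpectrum.valuation_of_algebraMap]

private lemma R05_one (P : Pt N f) (a : NRing N f) (h : evalPt P a ≠ 0) :
    P.hs.intValuation a = 1 := by
  apply le_antisymm (P.hs.intValuation_le_one a)
  by_contra hlt
  rw [not_le] at hlt
  exact h ((P.hs.intValuation_lt_one_iff_mem a).mp hlt)

private lemma R05_mem (P : Pt N f) (a : NRing N f) (ha : a ≠ 0) (n : ℕ) :
    a ∈ P.ideal ^ n ↔ (n : ℤ) ≤ -(WithZero.log (P.hs.intValuation a)) := by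
  have h1 := P.hs.intValuation_le_pow_iff_mem a n
  have h0 : P.hs.intValuation a ≠ 0 := P.hs.intValuation_ne_zero a ha
  rw [show P.ideal ^ n = P.hs.asIdeal ^ n from rfl, ← h1, ← WithZero.log_le_iff_le_exp h0]
  constructor <;> intro h <;> linarith

lemma ord_polyU_of_ne (P : Pt N f) {p : E[X]} (hp : p ≠ 0) (h : p.eval P.x ≠ 0) :
    ord P (polyU p hp) = 0 := by
  rw [R05_ord P (ofPoly p) _ rfl, R05_one P _ (by rwa [evalPt_ofPoly])]
  simp

lemma ord_xs_of_ne (P : Pt N f) {a : E} (h : P.x ≠ a) : ord P (xs a) = 0 := by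
  apply ord_polyU_of_ne
  rw [eval_sub, eval_X, eval_C]
  exact sub_ne_zero.mpr h

private lemma R05_xs (P : Pt N f) (n : ℕ) :
    (ofPoly (X - C P.x) : NRing N f) ∈ P.ideal ^ n ↔ (n : ℤ) ≤ ord P (xs P.x) := by
  rw [R05_ord P (ofPoly (X - C P.x)) _ rfl, R05_mem]
  intro h
  exact X_sub_C_ne_zero P.x (ofPoly_injective (N := N) (f := f) (h.trans (map_zero _).symm))

lemma ord_xs_of_unramified (P : Pt N f) (h : P.y ≠ 0) : ord P (xs P.x) = 1 := by
  have h1 := (ofPoly_sub_pow P).1 h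
  have h2 : (ofPoly (X - C P.x) : NRing N f) ∈ P.ideal ^ 1 := by
    rw [pow_one, mem_ideal, evalPt_ofPoly, eval_sub, eval_X, eval_C, sub_self]
  rw [R05_xs] at h1 h2
  push_cast at h1 h2
  omega

lemma ord_xs_of_ramified (P : Pt N f) (h : P.y = 0) : ord P (xs P.x) = N := by
  obtain ⟨h1, h2⟩ := (ofPoly_sub_pow P).2 h
  rw [R05_xs] at h1 h2
  push_cast at h1 h2
  omega

lemma ord_yU_of_ne (P : Pt N f) (h : P.y ≠ 0) : ord P yU = 0 := by
  rw [R05_ord P yy _ rfl, R05_one P _ (by rwa [evalPt_yy])]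
  simp

lemma eval_of_y_eq_zero (P : Pt N f) (h : P.y = 0) : f.eval P.x = 0 := by
  rw [← P.eq, h, zero_pow hG.ne]

lemma ord_polyU_f (P : Pt N f) :
    ord P (polyU f (f_ne_zero N f)) = wt f P.x * ord P (xs P.x) := by
  have h1 : (polyU f (f_ne_zero N f) : (FunField N f)ˣ) =
      xs P.x ^ wt f P.x * polyU (cofP f P.x) (cofP_ne_zero (f_ne_zero N f) P.x) := by
    rw [xs, ← polyU_pow, ← polyU_mul]
    congr 1
    exact (wt_mul f P.x).symm
  rw [h1, ord_mul, ord_pow, ord_polyU_of_ne P _ (cof_ne_zero (f_ne_zero N f) P.x), add_zero]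

lemma ord_yU_of_ramified (P : Pt N f) (h : P.y = 0) : ord P yU = wt f P.x := by
  have h1 : ord P ((yU : (FunField N f)ˣ) ^ N) = wt f P.x * ord P (xs P.x) := by
    rw [yU_pow, ord_polyU_f]
  rw [ord_pow, ord_xs_of_ramified P h, mul_comm (wt f P.x : ℤ)] at h1
  exact mul_left_cancel₀ (by exact_mod_cast hG.ne) h1

/-- The uniformizer `y ^ α (x - θ) ^ (-β)` at the ramified point `(θ, 0)`. -/
noncomputable def unif (θ : E) : (FunField N f)ˣ :=
  yU ^ al N (wt f θ) * (xs θ ^ be N (wt f θ))⁻¹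

lemma unif_pow {θ : E} (hθ : f.eval θ = 0) : (unif θ : (FunField N f)ˣ) ^ N =
    polyU (cofP f θ) (cofP_ne_zero (f_ne_zero N f) θ) ^ al N (wt f θ) * xs θ := by
  have h1 : (polyU f (f_ne_zero N f) : (FunField N f)ˣ) =
      xs θ ^ wt f θ * polyU (cofP f θ) (cofP_ne_zero (f_ne_zero N f) θ) := by
    rw [xs, ← polyU_pow, ← polyU_mul]
    congr 1
    exact (wt_mul f θ).symm
  rw [unif, mul_pow, ← pow_mul, mul_comm (al N (wt f θ)), pow_mul, yU_pow, h1, mul_pow, ← pow_mul,
    inv_pow, ← pow_mul, mul_comm (wt f θ), al_wt (N := N) hθ, pow_succ]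
  generalize (xs θ : (FunField N f)ˣ) ^ (be N (wt f θ) * N) = A
  rw [mul_assoc A, mul_comm A, mul_inv_cancel_right, mul_comm]

lemma unif_pow_wt {θ : E} (hθ : f.eval θ = 0) : (unif θ : (FunField N f)ˣ) ^ wt f θ =
    yU * polyU (cofP f θ) (cofP_ne_zero (f_ne_zero N f) θ) ^ be N (wt f θ) := by
  have h1 : (polyU f (f_ne_zero N f) : (FunField N f)ˣ) =
      xs θ ^ wt f θ * polyU (cofP f θ) (cofP_ne_zero (f_ne_zero N f) θ) := by
    rw [xs, ← polyU_pow, ← polyU_mul]
    congr 1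
    exact (wt_mul f θ).symm
  rw [unif, mul_pow, ← pow_mul, al_wt (N := N) hθ, inv_pow, ← pow_mul, pow_succ, mul_comm (be N _) N,
    pow_mul, yU_pow, h1, mul_pow, ← pow_mul, mul_comm (wt f θ)]
  generalize (xs θ : (FunField N f)ˣ) ^ (be N (wt f θ) * wt f θ) = A
  rw [mul_assoc A, mul_assoc A, mul_comm A, inv_mul_cancel_right, mul_comm]

lemma ord_unif (P : Pt N f) (h : P.y = 0) : ord P (unif P.x) = 1 := by
  have h1 := al_wt (N := N) (eval_of_y_eq_zero P h)
  rw [unif, ord_mul, ord_inv, ord_pow, ord_pow, ord_yU_of_ramified P h, ord_xs_of_ramified P h]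
  have h2 : ((al N (wt f P.x) * wt f P.x : ℕ) : ℤ) = ((be N (wt f P.x) * N + 1 : ℕ) : ℤ) := by
    rw [h1]
  push_cast at h2
  linarith

lemma exists_unif {θ : E} (hθ : f.eval θ = 0) :
    ∃ a : NRing N f, algebraMap (NRing N f) (FunField N f) a = (unif θ : (FunField N f)ˣ) := by
  have h1 := congrArg (fun u : (FunField N f)ˣ => (u : FunField N f)) (unif_pow (N := N) hθ)
  have h2 : IsIntegral E[X] ((unif θ : (FunField N f)ˣ) : FunField N f) := by
    refine ⟨X ^ N - C (cofP f θ ^ al N (wt f θ) * (X - C θ)), monic_X_pow_sub_C _ hG.ne, ?_⟩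
    rw [eval₂_sub, eval₂_pow, eval₂_X, eval₂_C, sub_eq_zero]
    refine h1.trans ?_
    show (polyF (cofP f θ)) ^ al N (wt f θ) * polyF (X - C θ) = polyF _
    rw [map_mul, map_pow]
  exact ⟨⟨_, h2⟩, rfl⟩

end Pool.Agent.Lib.MP_89bcae_ag.Wt

end

section

/-!
ROW R07 (80-160 lines). The automorphisms `y ↦ ζ y` and the automorphisms of the constant field.

PROOF. `rotC ζ` has the inverse `rotC ζ⁻¹`; check on `ofPoly p` and `yy`
(`AdjoinRoot.ringHom_ext`, or `exists_expand`). `evalPt P ∘ rotC ζ = evalPt (P.rot ζ)` (check on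
generators), so `ord_autU` with `Q`, `P := Q.rot ζ` gives `ord Q (rot h) = ord (Q.rot ζ) h`.
For `σ : E ≃+* E` with `f.map σ = f`: `coordMap N σ` is bijective (inverse `coordMap N σ⁻¹`), and
`evalPt (P.map σ) (coordMap σ a) = σ (evalPt P a)`.
-/

open Polynomial IsDedekindDomain

open scoped Classical

namespace Pool.Agent.Lib.MP_89bcae_ag.Wt

universe u

variable {N : ℕ} {E : Type u} [Field E] {f : E[X]} [hG : IsGood N f]

omit hG in
lemma R07_rotF_comp (ζ ξ : E) (hζ : ζ ^ N = 1) (hξ : ξ ^ N = 1) (h : ζ * ξ = 1) :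
    (rotF ζ hζ : FunField N f →+* FunField N f).comp (rotF ξ hξ) = RingHom.id _ := by
  refine funField_hom_ext (fun p => ?_) ?_
  · rw [RingHom.comp_apply, rotF_polyF, rotF_polyF, RingHom.id_apply]
  · rw [RingHom.comp_apply, rotF_yF, map_mul, rotF_polyF, rotF_yF, RingHom.id_apply, ← mul_assoc,
      ← map_mul, ← C_mul, mul_comm ξ ζ, h, C_1, map_one, one_mul]

omit hG in
lemma R07_funMap_comp (σ τ : E →+* E) (hσ : f.map σ = f) (hτ : f.map τ = f)
    (h : σ.comp τ = RingHom.id E) :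
    (funMap N σ hσ : FunField N f →+* FunField N f).comp (funMap N τ hτ) = RingHom.id _ := by
  refine funField_hom_ext (fun p => ?_) ?_
  · rw [RingHom.comp_apply, funMap_polyF, funMap_polyF, RingHom.id_apply,
      Polynomial.map_map, h, Polynomial.map_id]
  · rw [RingHom.comp_apply, funMap_yF, funMap_yF, RingHom.id_apply]

omit hG in
lemma R07_funMap_rotF (σ : E →+* E) (hσ : f.map σ = f) (ζ : E) (hζ : ζ ^ N = 1) (h : σ ζ = ζ) :
    (funMap N σ hσ : FunField N f →+* FunField N f).comp (rotF ζ hζ) =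
      (rotF ζ hζ).comp (funMap N σ hσ) := by
  refine funField_hom_ext (fun p => ?_) ?_
  · rw [RingHom.comp_apply, RingHom.comp_apply, rotF_polyF, funMap_polyF, rotF_polyF]
  · rw [RingHom.comp_apply, RingHom.comp_apply, rotF_yF, map_mul, funMap_polyF, funMap_yF,
      rotF_yF, Polynomial.map_C, h]

omit hG in
lemma R07_rotC_comp (ζ ξ : E) (hζ : ζ ^ N = 1) (hξ : ξ ^ N = 1) (h : ζ * ξ = 1) :
    (rotC ζ hζ : NRing N f →+* NRing N f).comp (rotC ξ hξ) = RingHom.id _ :=
  RingHom.ext fun a => Subtype.ext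
    (RingHom.congr_fun (R07_rotF_comp ζ ξ hζ hξ h) (a : FunField N f))

omit hG in
lemma R07_coordMap_comp (σ τ : E →+* E) (hσ : f.map σ = f) (hτ : f.map τ = f)
    (h : σ.comp τ = RingHom.id E) :
    (coordMap N σ hσ : NRing N f →+* NRing N f).comp (coordMap N τ hτ) = RingHom.id _ :=
  RingHom.ext fun a => Subtype.ext
    (RingHom.congr_fun (R07_funMap_comp σ τ hσ hτ h) (a : FunField N f))

/-- The automorphism `y ↦ ζ y` of the coordinate ring. -/
noncomputable def rotE (ζ : E) (hζ : ζ ^ N = 1) (h0 : ζ ≠ 0) : NRing N f ≃+* NRing N f :=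
  RingEquiv.ofRingHom (rotC ζ hζ) (rotC ζ⁻¹ (by rw [inv_pow, hζ, inv_one]))
    (R07_rotC_comp _ _ _ _ (mul_inv_cancel₀ h0)) (R07_rotC_comp _ _ _ _ (inv_mul_cancel₀ h0))

lemma evalPt_rotE (ζ : E) (hζ : ζ ^ N = 1) (h0 : ζ ≠ 0) (P : Pt N f) (a : NRing N f) :
    evalPt P (rotE ζ hζ h0 a) = evalPt (P.rot ζ hζ) a := evalPt_rotC ζ hζ P a

/-- The automorphisms of the field of constants which fix the coefficients of `f`. -/
def Sym (f : E[X]) : Subgroup (E ≃+* E) where
  carrier := {σ | f.map (σ : E →+* E) = f}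
  mul_mem' {σ τ} hσ hτ := by
    have h1 : f.map (σ : E →+* E) = f := hσ
    have h2 : f.map (τ : E →+* E) = f := hτ
    change f.map ((σ * τ : E ≃+* E) : E →+* E) = f
    have h3 : ((σ * τ : E ≃+* E) : E →+* E) = (σ : E →+* E).comp (τ : E →+* E) := by
      ext x
      rfl
    rw [h3, ← Polynomial.map_map, h2, h1]
  one_mem' := by
    change f.map ((1 : E ≃+* E) : E →+* E) = f
    have h3 : ((1 : E ≃+* E) : E →+* E) = RingHom.id E := by
      ext x
      rfl
    rw [h3, Polynomial.map_id]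
  inv_mem' {σ} hσ := by
    have h1 : f.map (σ : E →+* E) = f := hσ
    change f.map ((σ⁻¹ : E ≃+* E) : E →+* E) = f
    have h3 : ((σ⁻¹ : E ≃+* E) : E →+* E).comp (σ : E →+* E) = RingHom.id E := by
      ext x
      exact σ.symm_apply_apply x
    conv_lhs => rw [← h1]
    rw [Polynomial.map_map, h3, Polynomial.map_id]

lemma mem_Sym {σ : E ≃+* E} : σ ∈ Sym f ↔ f.map (σ : E →+* E) = f := Iff.rfl

/-- The automorphism of the coordinate ring induced by `σ`. -/
noncomputable def symE (N : ℕ) (σ : Sym f) : NRing N f ≃+* NRing N f :=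
  RingEquiv.ofRingHom (coordMap N ((σ : E ≃+* E) : E →+* E) σ.2)
    (coordMap N (((σ⁻¹ : Sym f) : E ≃+* E) : E →+* E) (σ⁻¹).2)
    (R07_coordMap_comp _ _ _ _ (by
      ext x
      exact (σ : E ≃+* E).apply_symm_apply x))
    (R07_coordMap_comp _ _ _ _ (by
      ext x
      exact (σ : E ≃+* E).symm_apply_apply x))

/-- The action of `Sym f` on the points. -/
def Pt.sym (σ : Sym f) (P : Pt N f) : Pt N f := P.map ((σ : E ≃+* E) : E →+* E) σ.2

lemma evalPt_symE (σ : Sym f) (P : Pt N f) (a : NRing N f) :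
    evalPt (P.sym σ) (symE N σ a) = (σ : E ≃+* E) (evalPt P a) :=
  evalPt_coordMap ((σ : E ≃+* E) : E →+* E) σ.2 P a

/-- `h(x, y) ↦ h(x, ζ y)`. -/
noncomputable def rotU (ζ : E) (hζ : ζ ^ N = 1) (h0 : ζ ≠ 0) : (FunField N f)ˣ ≃* (FunField N f)ˣ :=
  autU (rotE ζ hζ h0)

lemma ord_rotU (ζ : E) (hζ : ζ ^ N = 1) (h0 : ζ ≠ 0) (P : Pt N f) (u : (FunField N f)ˣ) :
    ord P (rotU ζ hζ h0 u) = ord (P.rot ζ hζ) u :=
  ord_autU (rotE ζ hζ h0) (P.rot ζ hζ) P (fun a => by rw [evalPt_rotE]) u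

lemma R07_autU_mk (φ : NRing N f ≃+* NRing N f) (u : (FunField N f)ˣ) {a : NRing N f}
    (hu : (u : FunField N f) = algebraMap (NRing N f) (FunField N f) a) :
    ((autU φ u : (FunField N f)ˣ) : FunField N f) = algebraMap (NRing N f) (FunField N f) (φ a) := by
  have h1 : ((autU φ u : (FunField N f)ˣ) : FunField N f) = autF φ (u : FunField N f) := rfl
  rw [h1, hu, autF_algebraMap]

lemma R07_cstU (c : Eˣ) : ((cstU c : (FunField N f)ˣ) : FunField N f) =
    algebraMap (NRing N f) (FunField N f) (ofPoly (C (c : E))) := rfl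

lemma R07_polyU (p : E[X]) (hp : p ≠ 0) : ((polyU p hp : (FunField N f)ˣ) : FunField N f) =
    algebraMap (NRing N f) (FunField N f) (ofPoly p) := rfl

lemma R07_yU : ((yU : (FunField N f)ˣ) : FunField N f) = algebraMap (NRing N f) (FunField N f) yy := rfl

omit hG in
lemma R07_rotE_ofPoly (ζ : E) (hζ : ζ ^ N = 1) (h0 : ζ ≠ 0) (p : E[X]) :
    rotE ζ hζ h0 (ofPoly p : NRing N f) = ofPoly p := rotC_ofPoly ζ hζ p

lemma R07_rotE_yy (ζ : E) (hζ : ζ ^ N = 1) (h0 : ζ ≠ 0) :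
    rotE ζ hζ h0 (yy : NRing N f) = ofPoly (C ζ) * yy := rotC_yy ζ hζ

lemma rotU_cstU (ζ : E) (hζ : ζ ^ N = 1) (h0 : ζ ≠ 0) (c : Eˣ) :
    rotU ζ hζ h0 (cstU c : (FunField N f)ˣ) = cstU c := by
  ext
  rw [rotU, R07_autU_mk (rotE ζ hζ h0) _ (R07_cstU c), R07_rotE_ofPoly, R07_cstU]

lemma rotU_polyU (ζ : E) (hζ : ζ ^ N = 1) (h0 : ζ ≠ 0) (p : E[X]) (hp : p ≠ 0) :
    rotU ζ hζ h0 (polyU p hp : (FunField N f)ˣ) = polyU p hp := by
  ext
  rw [rotU, R07_autU_mk (rotE ζ hζ h0) _ (R07_polyU p hp), R07_rotE_ofPoly, R07_polyU]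

lemma rotU_yU (ζ : E) (hζ : ζ ^ N = 1) (h0 : ζ ≠ 0) :
    rotU ζ hζ h0 (yU : (FunField N f)ˣ) = cstU (Units.mk0 ζ h0) * yU := by
  ext
  rw [rotU, R07_autU_mk (rotE ζ hζ h0) _ R07_yU, R07_rotE_yy, Units.val_mul, R07_cstU, R07_yU,
    map_mul]
  rfl

/-- The action of `Sym f` on the nonzero functions. -/
noncomputable def symU (σ : Sym f) : (FunField N f)ˣ ≃* (FunField N f)ˣ := autU (symE N σ)

lemma ord_symU (σ : Sym f) (P : Pt N f) (u : (FunField N f)ˣ) :
    ord (P.sym σ) (symU σ u) = ord P u :=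
  ord_autU (symE N σ) P (P.sym σ) (fun a => by
    rw [evalPt_symE]
    exact EmbeddingLike.map_eq_zero_iff) u

omit hG in
lemma R07_symE_ofPoly (σ : Sym f) (p : E[X]) :
    symE N σ (ofPoly p : NRing N f) = ofPoly (p.map ((σ : E ≃+* E) : E →+* E)) :=
  coordMap_ofPoly ((σ : E ≃+* E) : E →+* E) σ.2 p

lemma R07_symE_yy (σ : Sym f) : symE N σ (yy : NRing N f) = yy :=
  coordMap_yy ((σ : E ≃+* E) : E →+* E) σ.2

lemma symU_cstU (σ : Sym f) (c : Eˣ) :
    symU σ (cstU c : (FunField N f)ˣ) = cstU (Units.map ((σ : E ≃+* E) : E →* E) c) := by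
  ext
  rw [symU, R07_autU_mk (symE N σ) _ (R07_cstU c), R07_symE_ofPoly, R07_cstU, Polynomial.map_C]
  rfl

lemma symU_yU (σ : Sym f) : symU σ (yU : (FunField N f)ˣ) = yU := by
  ext
  rw [symU, R07_autU_mk (symE N σ) _ R07_yU, R07_symE_yy, R07_yU]

lemma symU_xs (σ : Sym f) (a : E) : symU σ (xs a : (FunField N f)ˣ) = xs ((σ : E ≃+* E) a) := by
  ext
  rw [symU, xs, xs, R07_autU_mk (symE N σ) _ (R07_polyU _ (X_sub_C_ne_zero a)), R07_symE_ofPoly,
    R07_polyU, Polynomial.map_sub, Polynomial.map_X, Polynomial.map_C]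
  rfl

lemma symU_rotU (σ : Sym f) (ζ : E) (hζ : ζ ^ N = 1) (h0 : ζ ≠ 0)
    (hσ : (σ : E ≃+* E) ζ = ζ) (u : (FunField N f)ˣ) :
    symU σ (rotU ζ hζ h0 u) = rotU ζ hζ h0 (symU σ u) := by
  have hcomm : ∀ a : NRing N f, symE N σ (rotE ζ hζ h0 a) = rotE ζ hζ h0 (symE N σ a) :=
    fun a => Subtype.ext (RingHom.congr_fun
      (R07_funMap_rotF ((σ : E ≃+* E) : E →+* E) σ.2 ζ hζ hσ) (a : FunField N f))
  ext
  obtain ⟨a, b, hb, hab⟩ := IsFractionRing.div_surjective (A := NRing N f) (u : FunField N f)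
  change autF (symE N σ) (autF (rotE ζ hζ h0) (u : FunField N f)) =
    autF (rotE ζ hζ h0) (autF (symE N σ) (u : FunField N f))
  rw [← hab]
  simp only [map_div₀, autF_algebraMap, hcomm]

end Pool.Agent.Lib.MP_89bcae_ag.Wt

end

section

/-!
ROW R10 (150-250 lines). The norm of a function, computed from its divisor.

PROOF. Let `r = ∏ rot^i h`. It is fixed by `rot = rotU ζ` (`rot^N = 1`). Write `r = a / b`, `a`, `b`
in the coordinate ring, `b` in `E[x]` (multiply numerator and denominator by `∏_{0<i<N} rot^i b`: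
the product `∏_{i<N} rot^i b` is fixed by `rot`, and an element `∑ pᵢ(x) yⁱ` of the coordinate ring
fixed by `rot` satisfies `ζ^i pᵢ = pᵢ`, so `pᵢ = 0` for `0 < i < N` (`expand_unique`), it is in
`E[x]`). Then `a` is fixed by `rot` as well, so `a` is in `E[x]`. Since `E` is algebraically closed,
`a` and `b` are products of a constant and of linear factors (`IsAlgClosed.splits`), so
`r = c ∏_a (x - a)^{n_a}` for finitely many `a` and integers `n_a`. Take the order at a point `P`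
with `P.x = a`: `ord P r = n_a` or `N n_a` according to `P.y ≠ 0` or `P.y = 0` (`ord_xs_...`). On the
other hand `ord P r = ∑_i ord (P.rot ζ^i) h` (`ord_rotU`), which is the sum of `div h` over all
points above `a` if `P.y ≠ 0` (the points `(a, ζ^i b)`, all different), and `N ord P h` if
`P.y = 0`. So `n_a = ∑_{P.x = a} div h P`, i.e. `r = c · xprod (div h)`.
-/

open Polynomial IsDedekindDomain

open scoped Classical

namespace Pool.Agent.Lib.MP_89bcae_ag.Wt

universe u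

variable {N : ℕ} {E : Type u} [Field E] {f : E[X]} [hG : IsGood N f]

/-- The function `∏ (x - x(P)) ^ D(P)`. -/
noncomputable def xprod (D : Pt N f →₀ ℤ) : (FunField N f)ˣ := D.prod fun P n => xs P.x ^ n

/-- The norm `∏_{i < N} h(x, ζ ^ i y)`. -/
noncomputable def nrm (ζ : E) (hζ : ζ ^ N = 1) (h0 : ζ ≠ 0) (h : (FunField N f)ˣ) : (FunField N f)ˣ :=
  ∏ i ∈ Finset.range N, (rotU ζ hζ h0)^[i] h

omit hG in
lemma R10_rotE_apply (ζ : E) (hζ : ζ ^ N = 1) (h0 : ζ ≠ 0) (a : NRing N f) :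
    rotE ζ hζ h0 a = rotC ζ hζ a := rfl

omit hG in
lemma R10_rotF_of (ζ : E) (hζ : ζ ^ N = 1) (r : RatFunc E) :
    rotF ζ hζ (AdjoinRoot.of _ r : FunField N f) = AdjoinRoot.of _ r := by
  unfold rotF
  exact AdjoinRoot.lift_of _

omit hG in
lemma R10_rotF_mul (ζ ξ : E) (hζ : ζ ^ N = 1) (hξ : ξ ^ N = 1) (h : (ζ * ξ) ^ N = 1)
    (a : FunField N f) : rotF ζ hζ (rotF ξ hξ a) = rotF (ζ * ξ) h a := by
  have h1 : (rotF ζ hζ : FunField N f →+* FunField N f).comp (rotF ξ hξ) = rotF (ζ * ξ) h := by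
    refine funField_hom_ext (fun p => ?_) ?_
    · rw [RingHom.comp_apply, rotF_polyF, rotF_polyF, rotF_polyF]
    · rw [RingHom.comp_apply, rotF_yF, map_mul, rotF_polyF, rotF_yF, rotF_yF, ← mul_assoc,
        ← map_mul, ← C_mul, mul_comm ξ ζ]
  exact RingHom.congr_fun h1 a

omit hG in
lemma R10_rotF_one (h : (1 : E) ^ N = 1) (a : FunField N f) : rotF 1 h a = a := by
  have h1 : (rotF 1 h : FunField N f →+* FunField N f) = RingHom.id _ := by
    refine funField_hom_ext (fun p => ?_) ?_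
    · rw [rotF_polyF, RingHom.id_apply]
    · rw [rotF_yF, C_1, map_one, one_mul, RingHom.id_apply]
  exact RingHom.congr_fun h1 a

omit hG in
lemma R10_rot_iter (ζ : E) (hζ : ζ ^ N = 1) (h0 : ζ ≠ 0) (n : ℕ) (hn : (ζ ^ n) ^ N = 1)
    (a : NRing N f) :
    (((rotE ζ hζ h0)^[n] a : NRing N f) : FunField N f) = rotF (ζ ^ n) hn (a : FunField N f) := by
  induction n with
  | zero =>
    rw [Function.iterate_zero, id]
    simp only [pow_zero]
    exact (R10_rotF_one _ _).symm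
  | succ n ih =>
    have hn' : (ζ ^ n) ^ N = 1 := by rw [← pow_mul, mul_comm, pow_mul, hζ, one_pow]
    rw [Function.iterate_succ_apply', R10_rotE_apply, coe_rotC, ih hn']
    have h2 : (ζ * ζ ^ n) ^ N = 1 := by rw [mul_pow, hζ, hn', one_mul]
    rw [R10_rotF_mul _ _ _ _ h2]
    congr 2
    rw [pow_succ, mul_comm]

omit hG in
lemma R10_rot_full (ζ : E) (hζ : ζ ^ N = 1) (h0 : ζ ≠ 0) (a : NRing N f) :
    (rotE ζ hζ h0)^[N] a = a := by
  have hn : (ζ ^ N) ^ N = 1 := by rw [hζ, one_pow]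
  apply Subtype.ext
  rw [R10_rot_iter ζ hζ h0 N hn]
  simp only [hζ]
  exact R10_rotF_one _ _

lemma R10_fix (ζ : E) (hζ : IsPrimitiveRoot ζ N) (h0 : ζ ≠ 0) (a : NRing N f)
    (ha : rotE ζ hζ.pow_eq_one h0 a = a) : ∃ p : E[X], a = ofPoly p := by
  obtain ⟨r, hr⟩ := exists_expandF (a : FunField N f)
  have ha' : rotF ζ hζ.pow_eq_one (a : FunField N f) = a :=
    congrArg (fun b : NRing N f => (b : FunField N f)) ha
  have h1 : ∑ i ∈ Finset.range N, AdjoinRoot.of _ (RatFunc.C (ζ ^ i - 1) * r i) *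
      (yF : FunField N f) ^ i = 0 := by
    have e1 : ∀ i ∈ Finset.range N, AdjoinRoot.of _ (RatFunc.C (ζ ^ i - 1) * r i) *
        (yF : FunField N f) ^ i = rotF ζ hζ.pow_eq_one (AdjoinRoot.of _ (r i) * yF ^ i) -
          AdjoinRoot.of _ (r i) * yF ^ i := by
      intro i _
      have e2 : (polyF (C ζ) : FunField N f) = AdjoinRoot.of _ (RatFunc.C ζ) := by
        rw [polyF_eq, RatFunc.algebraMap_C]
      rw [map_mul, map_mul, map_pow, R10_rotF_of, rotF_yF, e2, map_sub, map_pow, map_one, map_sub,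
        map_pow, map_one, mul_pow]
      ring
    rw [Finset.sum_congr rfl e1, Finset.sum_sub_distrib, ← map_sum, ← hr, ha', sub_self]
  have h2 := expandF_unique _ h1
  have h3 : ∀ i < N, i ≠ 0 → r i = 0 := by
    intro i hi hi0
    rcases mul_eq_zero.mp (h2 i hi) with h | h
    · exfalso
      have h4 : ζ ^ i - 1 = 0 := RatFunc.C_injective (h.trans (map_zero _).symm)
      have h6 := hζ.dvd_of_pow_eq_one i (sub_eq_zero.1 h4)
      have := Nat.le_of_dvd (Nat.pos_of_ne_zero hi0) h6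
      omega
    · exact h
  have h4 : (a : FunField N f) = AdjoinRoot.of _ (r 0) := by
    rw [hr, Finset.sum_eq_single 0]
    · rw [pow_zero, mul_one]
    · intro i hi hi0
      rw [h3 i (Finset.mem_range.1 hi) hi0, map_zero, zero_mul]
    · intro h
      exact absurd (Finset.mem_range.mpr hG.pos) h
  obtain ⟨p, hp⟩ := exists_poly_of_integral (N := N) (f := f) (r 0) (by rw [← h4]; exact a.2)
  exact ⟨p, Subtype.ext (h4.trans hp)⟩

lemma R10_autF_iter (φ : NRing N f ≃+* NRing N f) (n : ℕ) (a : NRing N f) :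
    (autF φ)^[n] (algebraMap (NRing N f) (FunField N f) a) =
      algebraMap (NRing N f) (FunField N f) (φ^[n] a) := by
  induction n with
  | zero => rfl
  | succ n ih => rw [Function.iterate_succ_apply', ih, autF_algebraMap,
      Function.iterate_succ_apply']

lemma R10_autF_div (φ : NRing N f ≃+* NRing N f) (n : ℕ) (x y : FunField N f) :
    (autF φ)^[n] (x / y) = (autF φ)^[n] x / (autF φ)^[n] y := by
  induction n with
  | zero => rfl
  | succ n ih => rw [Function.iterate_succ_apply', ih, map_div₀, Function.iterate_succ_apply',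
      Function.iterate_succ_apply']

lemma R10_autU_iter (φ : NRing N f ≃+* NRing N f) (n : ℕ) (u : (FunField N f)ˣ) :
    (((autU φ)^[n] u : (FunField N f)ˣ) : FunField N f) = (autF φ)^[n] (u : FunField N f) := by
  induction n with
  | zero => rfl
  | succ n ih =>
    rw [Function.iterate_succ_apply', Function.iterate_succ_apply', ← ih]
    rfl

lemma R10_rotU_full (ζ : E) (hζ : ζ ^ N = 1) (h0 : ζ ≠ 0) (u : (FunField N f)ˣ) :
    (rotU ζ hζ h0)^[N] u = u := by
  apply Units.ext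
  unfold rotU
  rw [R10_autU_iter]
  obtain ⟨a, b, _, hab⟩ := IsFractionRing.div_surjective (A := NRing N f) (u : FunField N f)
  rw [← hab, R10_autF_div, R10_autF_iter, R10_autF_iter, R10_rot_full, R10_rot_full]

lemma R10_nrm_rot (ζ : E) (hζ : ζ ^ N = 1) (h0 : ζ ≠ 0) (u : (FunField N f)ˣ) :
    rotU ζ hζ h0 (nrm ζ hζ h0 u) = nrm ζ hζ h0 u := by
  unfold nrm
  rw [map_prod]
  have h1 : ∏ i ∈ Finset.range N, rotU ζ hζ h0 ((rotU ζ hζ h0)^[i] u) =
      ∏ i ∈ Finset.range N, (rotU ζ hζ h0)^[i + 1] u := by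
    apply Finset.prod_congr rfl
    intro i _
    rw [Function.iterate_succ_apply']
  rw [h1]
  have h2 : (∏ i ∈ Finset.range N, (rotU ζ hζ h0)^[i + 1] u) * (rotU ζ hζ h0)^[0] u =
      (∏ i ∈ Finset.range N, (rotU ζ hζ h0)^[i] u) * (rotU ζ hζ h0)^[N] u := by
    rw [← Finset.prod_range_succ, ← Finset.prod_range_succ' (fun i => (rotU ζ hζ h0)^[i] u)]
  rw [R10_rotU_full, Function.iterate_zero, id] at h2
  exact mul_right_cancel h2

lemma R10_xprod_rot (ζ : E) (hζ : ζ ^ N = 1) (h0 : ζ ≠ 0) (D : Pt N f →₀ ℤ) :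
    rotU ζ hζ h0 (xprod D) = xprod D := by
  unfold xprod Finsupp.prod
  rw [map_prod]
  apply Finset.prod_congr rfl
  intro P _
  rw [map_zpow]
  congr 1
  exact rotU_polyU ζ hζ h0 _ _

lemma R10_integral (w : (FunField N f)ˣ) (hw : ∀ P, 0 ≤ ord P w) :
    ∃ a : NRing N f, algebraMap (NRing N f) (FunField N f) a = (w : FunField N f) := by
  have h1 := HeightOneSpectrum.mem_integers_of_valuation_le_one (R := NRing N f) (FunField N f)
    (w : FunField N f) (by
      intro v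
      obtain ⟨P, hP⟩ := exists_pt_of_prime v.asIdeal v.isPrime v.ne_bot
      have hv : v = P.hs := HeightOneSpectrum.ext hP.symm
      rw [hv]
      have h2 := hw P
      unfold ord at h2
      have h3 := WithZero.le_exp_of_log_le (show WithZero.log
        (P.hs.valuation (FunField N f) (w : FunField N f)) ≤ 0 by linarith)
      simpa using h3)
  obtain ⟨a, ha⟩ := h1
  exact ⟨a, ha⟩

lemma R10_ord_prod {ι : Type*} (P : Pt N f) (s : Finset ι) (g : ι → (FunField N f)ˣ) :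
    ord P (∏ i ∈ s, g i) = ∑ i ∈ s, ord P (g i) := by
  induction s using Finset.induction_on with
  | empty => simp [ord_one]
  | insert i s hi ih => rw [Finset.prod_insert hi, Finset.sum_insert hi, ord_mul, ih]

lemma R10_ord_rot_iter (ζ : E) (hζ : ζ ^ N = 1) (h0 : ζ ≠ 0) (P : Pt N f) (n : ℕ)
    (u : (FunField N f)ˣ) :
    ord P ((rotU ζ hζ h0)^[n] u) =
      ord (P.rot (ζ ^ n) (by rw [← pow_mul, mul_comm, pow_mul, hζ, one_pow])) u := by
  induction n generalizing u with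
  | zero =>
    rw [Function.iterate_zero, id]
    congr 1
    ext
    · rfl
    · simp [Pt.rot]
  | succ n ih =>
    rw [Function.iterate_succ_apply, ih, ord_rotU]
    congr 1
    ext
    · rfl
    · simp only [Pt.rot]
      rw [pow_succ]
      ring

lemma R10_ord_nrm (ζ : E) (hζ : IsPrimitiveRoot ζ N) (h0 : ζ ≠ 0) (h : (FunField N f)ˣ)
    (P : Pt N f) : ord P (nrm ζ hζ.pow_eq_one h0 h) = ord P (xprod (div h)) := by
  have hN0 : N ≠ 0 := hG.ne
  have : NeZero N := ⟨hN0⟩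
  unfold nrm xprod Finsupp.prod
  rw [R10_ord_prod, R10_ord_prod]
  simp only [ord_zpow, R10_ord_rot_iter, div_apply]
  by_cases hy : P.y = 0
  · have h1 : ∀ i ∈ Finset.range N, ord (P.rot (ζ ^ i)
        (by rw [← pow_mul, mul_comm, pow_mul, hζ.pow_eq_one, one_pow])) h = ord P h := by
      intro i _
      congr 1
      ext
      · rfl
      · simp [Pt.rot, hy]
    rw [Finset.sum_congr rfl h1, Finset.sum_const, Finset.card_range, nsmul_eq_mul]
    have h2 : ∀ Q ∈ (div h).support, ord Q h * ord P (xs Q.x) =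
        if Q = P then ord P h * N else 0 := by
      intro Q _
      by_cases hQ : Q = P
      · rw [if_pos hQ, hQ, ord_xs_of_ramified P hy]
      · rw [if_neg hQ]
        have hx : P.x ≠ Q.x := by
          intro hx
          apply hQ
          ext
          · exact hx.symm
          · have h3 := Q.eq
            rw [← hx, ← P.eq, hy, zero_pow hN0] at h3
            rw [hy]
            exact pow_eq_zero_iff hN0 |>.mp h3
        rw [ord_xs_of_ne P hx, mul_zero]
    rw [Finset.sum_congr rfl h2, Finset.sum_ite_eq']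
    split_ifs with h3
    · ring
    · rw [Finsupp.mem_support_iff, not_not, div_apply] at h3
      rw [h3]
      ring
  · have h2 : ∀ Q ∈ (div h).support, ord Q h * ord P (xs Q.x) =
        if Q.x = P.x then ord Q h else 0 := by
      intro Q _
      by_cases hQ : Q.x = P.x
      · rw [if_pos hQ, hQ, ord_xs_of_unramified P hy, mul_one]
      · rw [if_neg hQ, ord_xs_of_ne P (Ne.symm hQ), mul_zero]
    rw [Finset.sum_congr rfl h2, ← Finset.sum_filter]
    set q : ℕ → Pt N f := fun i => P.rot (ζ ^ i)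
      (by rw [← pow_mul, mul_comm, pow_mul, hζ.pow_eq_one, one_pow]) with hq
    have hinj : Set.InjOn q (Finset.range N : Set ℕ) := by
      intro i hi j hj hij
      rw [Finset.coe_range, Set.mem_Iio] at hi hj
      have h3 : ζ ^ i * P.y = ζ ^ j * P.y := congrArg Pt.y hij
      exact hζ.pow_inj hi hj (mul_right_cancel₀ hy h3)
    have h4 : ∑ i ∈ Finset.range N, ord (q i) h =
        ∑ Q ∈ (Finset.range N).image q, ord Q h := by
      rw [Finset.sum_image hinj]
    rw [h4]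
    symm
    apply Finset.sum_subset
    · intro Q hQ
      rw [Finset.mem_filter] at hQ
      have h5 : (Q.y / P.y) ^ N = 1 := by
        rw [div_pow, Q.eq, P.eq, hQ.2, div_self]
        rw [← P.eq]
        exact pow_ne_zero N hy
      obtain ⟨i, hi, he⟩ := hζ.eq_pow_of_pow_eq_one h5
      rw [Finset.mem_image]
      refine ⟨i, Finset.mem_range.mpr hi, ?_⟩
      ext
      · exact hQ.2.symm
      · simp only [hq, Pt.rot]
        rw [he, div_mul_cancel₀ _ hy]
    · intro Q hQ hQ'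
      rw [Finset.mem_image] at hQ
      obtain ⟨i, _, rfl⟩ := hQ
      by_contra h6
      apply hQ'
      rw [Finset.mem_filter, Finsupp.mem_support_iff, div_apply]
      exact ⟨h6, rfl⟩

lemma exists_nrm_eq (ζ : E) (hζ : IsPrimitiveRoot ζ N) (h0 : ζ ≠ 0) (h : (FunField N f)ˣ) :
    ∃ c : Eˣ, nrm ζ hζ.pow_eq_one h0 h = cstU c * xprod (div h) := by
  set w : (FunField N f)ˣ := nrm ζ hζ.pow_eq_one h0 h * (xprod (div h))⁻¹ with hw
  have hord : ∀ P, ord P w = 0 := by
    intro P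
    rw [hw, ord_mul, ord_inv, R10_ord_nrm ζ hζ h0 h P]
    ring
  have hrot : rotU ζ hζ.pow_eq_one h0 w = w := by
    rw [hw, map_mul, map_inv, R10_nrm_rot, R10_xprod_rot]
  obtain ⟨a, ha⟩ := R10_integral w (fun P => (hord P).ge)
  obtain ⟨b, hb⟩ := R10_integral w⁻¹ (fun P => by rw [ord_inv, hord P, neg_zero])
  have hinj : Function.Injective (algebraMap (NRing N f) (FunField N f)) :=
    IsFractionRing.injective (NRing N f) (FunField N f)
  have hab : a * b = 1 := by
    apply hinj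
    rw [map_mul, ha, hb, map_one]
    exact w.mul_inv
  have hfix : ∀ (v : (FunField N f)ˣ) (c : NRing N f), algebraMap (NRing N f) (FunField N f) c = (v : FunField N f) →
      rotU ζ hζ.pow_eq_one h0 v = v → rotE ζ hζ.pow_eq_one h0 c = c := by
    intro v c hc hv
    apply hinj
    rw [← autF_algebraMap, hc]
    have h1 := congrArg (fun z : (FunField N f)ˣ => (z : FunField N f)) hv
    exact h1
  obtain ⟨p, hp⟩ := R10_fix ζ hζ h0 a (hfix w a ha hrot)
  obtain ⟨q, hq⟩ := R10_fix ζ hζ h0 b (hfix w⁻¹ b hb (by rw [map_inv, hrot]))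
  have hpq : p * q = 1 := by
    apply ofPoly_injective (N := N) (f := f)
    rw [map_mul, ← hp, ← hq, hab, map_one]
  have hunit : IsUnit p := IsUnit.of_mul_eq_one q hpq
  obtain ⟨c, hc, hcp⟩ := Polynomial.isUnit_iff.mp hunit
  refine ⟨hc.unit, ?_⟩
  have hwc : w = cstU hc.unit := by
    apply Units.ext
    rw [← ha, hp, ← hcp]
    rfl
  rw [← hwc, hw, inv_mul_cancel_right]

lemma nrm_mul (ζ : E) (hζ : ζ ^ N = 1) (h0 : ζ ≠ 0) (h h' : (FunField N f)ˣ) :
    nrm ζ hζ h0 (h * h') = nrm ζ hζ h0 h * nrm ζ hζ h0 h' := by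
  unfold nrm
  rw [← Finset.prod_mul_distrib]
  apply Finset.prod_congr rfl
  intro i _
  exact iterate_map_mul (rotU ζ hζ h0) i h h'

lemma nrm_cstU (ζ : E) (hζ : ζ ^ N = 1) (h0 : ζ ≠ 0) (c : Eˣ) :
    nrm ζ hζ h0 (cstU c : (FunField N f)ˣ) = cstU (c ^ N) := by
  unfold nrm
  have h1 : ∀ i ∈ Finset.range N, (rotU ζ hζ h0)^[i] (cstU c : (FunField N f)ˣ) = cstU c := by
    intro i _
    exact Function.iterate_fixed (rotU_cstU ζ hζ h0 c) i
  rw [Finset.prod_congr rfl h1, Finset.prod_const, Finset.card_range, map_pow]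

lemma xprod_add (D D' : Pt N f →₀ ℤ) : xprod (D + D') = xprod D * xprod D' := by
  unfold xprod
  exact Finsupp.prod_add_index' (fun _ => zpow_zero _) (fun _ _ _ => zpow_add _ _ _)

lemma xprod_rot (ζ : E) (hζ : ζ ^ N = 1) (D : Pt N f →₀ ℤ) :
    xprod (D.mapDomain (Pt.rot ζ hζ)) = xprod D := by
  unfold xprod
  rw [Finsupp.prod_mapDomain_index (fun _ => zpow_zero _) (fun _ _ _ => zpow_add _ _ _)]
  rfl


end Pool.Agent.Lib.MP_89bcae_ag.Wt

end

section

/-!
ROW R15 (80-160 lines). Divisors of rotated functions, of `x - a`, of `y`.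

PROOF. `div` is `P ↦ ord P`. `ord P (rot⁻¹ u) = ord (P.rot ζ⁻¹) u` (`ord_rotU` applied to
`rot⁻¹ u`), i.e. `div (rot⁻¹ u)` is the image of `div u` under `P ↦ P.rot ζ`
(`Finsupp.mapDomain_apply` for the injective map `Pt.rot`). Same for `symU` (`ord_symU`).
`div (x - a)`: the points above `a` are the `(a, ζ^i b)`, `i < N`; if `b ≠ 0` they are distinct and
the order of `x - a` is `1` at each of them (`ord_xs_of_unramified`); if `b = 0` they all coincide
and the order is `N` (`ord_xs_of_ramified`). `div y` : `ord_yU_...`.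
-/

open Polynomial IsDedekindDomain

open scoped Classical

namespace Pool.Agent.Lib.MP_89bcae_ag.Wt

universe u

variable {N : ℕ} {E : Type u} [Field E] {f : E[X]} [hG : IsGood N f]

lemma R15_root (P : Pt N f) (h : P.y = 0) : f.eval P.x = 0 := by
  rw [← P.eq, h, zero_pow hG.ne]

lemma ramDiv_finite (e : E → ℤ) :
    (Function.support fun P : Pt N f => if P.y = 0 then e P.x else 0).Finite := by
  have hf0 : f ≠ 0 := f_ne_zero N f
  have hfin : {P : Pt N f | P.y = 0}.Finite := by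
    apply Set.Finite.of_finite_image (f := Pt.x)
    · apply (f.roots.toFinset.finite_toSet).subset
      rintro _ ⟨P, hP, rfl⟩
      rw [Finset.mem_coe, Multiset.mem_toFinset, mem_roots hf0]
      exact R15_root P hP
    · intro P hP Q hQ hx
      ext
      · exact hx
      · rw [show P.y = 0 from hP, show Q.y = 0 from hQ]
  apply hfin.subset
  intro P hP
  by_contra h
  apply hP
  exact if_neg h

/-- The divisor `∑ e(θ) (θ, 0)` over the roots `θ` of `f`. -/
noncomputable def ramDiv (e : E → ℤ) : Pt N f →₀ ℤ :=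
  Finsupp.ofSupportFinite (fun P => if P.y = 0 then e P.x else 0) (ramDiv_finite e)

@[simp] lemma ramDiv_apply (e : E → ℤ) (P : Pt N f) :
    ramDiv e P = if P.y = 0 then e P.x else 0 := rfl

lemma ramDiv_add (e e' : E → ℤ) :
    (ramDiv (fun θ => e θ + e' θ) : Pt N f →₀ ℤ) = ramDiv e + ramDiv e' := by
  ext P
  rw [Finsupp.add_apply, ramDiv_apply, ramDiv_apply, ramDiv_apply]
  split_ifs <;> simp

lemma ramDiv_sub (e e' : E → ℤ) :
    (ramDiv (fun θ => e θ - e' θ) : Pt N f →₀ ℤ) = ramDiv e - ramDiv e' := by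
  ext P
  rw [Finsupp.sub_apply, ramDiv_apply, ramDiv_apply, ramDiv_apply]
  split_ifs <;> simp

lemma ramDiv_smul (n : ℤ) (e : E → ℤ) :
    (ramDiv (fun θ => n * e θ) : Pt N f →₀ ℤ) = n • ramDiv e := by
  ext P
  rw [Finsupp.smul_apply, ramDiv_apply, ramDiv_apply]
  split_ifs <;> simp

lemma ramDiv_congr (e e' : E → ℤ) (h : ∀ θ, f.eval θ = 0 → e θ = e' θ) :
    (ramDiv e : Pt N f →₀ ℤ) = ramDiv e' := by
  ext P
  rw [ramDiv_apply, ramDiv_apply]
  split_ifs with hP
  · exact h _ (R15_root P hP)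
  · rfl

omit hG in
lemma R15_sym_inv (σ : Sym f) (Q : Pt N f) : (Q.sym σ⁻¹).sym σ = Q := by
  ext
  · exact (σ : E ≃+* E).apply_symm_apply Q.x
  · exact (σ : E ≃+* E).apply_symm_apply Q.y

omit hG in
lemma R15_sym_inj (σ : Sym f) : Function.Injective (Pt.sym (N := N) σ) := by
  intro P Q h
  ext
  · exact (σ : E ≃+* E).injective (congrArg Pt.x h)
  · exact (σ : E ≃+* E).injective (congrArg Pt.y h)

omit hG in
lemma R15_ne (hN : N ≠ 0) (ζ : E) (hζ : ζ ^ N = 1) : ζ ≠ 0 := by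
  intro h
  rw [h, zero_pow hN] at hζ
  exact zero_ne_one hζ

lemma R15_rot_inj (ζ : E) (hζ : ζ ^ N = 1) :
    Function.Injective (Pt.rot (f := f) ζ hζ) := by
  intro P Q h
  have h1 := congrArg Pt.x h
  have h2 : ζ * P.y = ζ * Q.y := congrArg Pt.y h
  ext
  · exact h1
  · exact mul_left_cancel₀ (R15_ne hG.ne ζ hζ) h2

lemma R15_rot_inv (ζ : E) (hζ : ζ ^ N = 1) (Q : Pt N f) :
    (Q.rot ζ⁻¹ (by rw [inv_pow, hζ, inv_one])).rot ζ hζ = Q := by
  ext
  · rfl
  · exact mul_inv_cancel_left₀ (R15_ne hG.ne ζ hζ) Q.y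

omit hG in
lemma R15_iter (ζ : E) (hζ : ζ ^ N = 1) (P : Pt N f) (n : ℕ) :
    ((Pt.rot ζ hζ)^[n] P).x = P.x ∧ ((Pt.rot ζ hζ)^[n] P).y = ζ ^ n * P.y := by
  induction n with
  | zero => simp
  | succ n ih =>
    rw [Function.iterate_succ_apply']
    refine ⟨ih.1, ?_⟩
    show ζ * ((Pt.rot ζ hζ)^[n] P).y = _
    rw [ih.2, pow_succ]
    ring

lemma mapDomain_sym_ramDiv (σ : Sym f) (e : E → ℤ) :
    (ramDiv e : Pt N f →₀ ℤ).mapDomain (Pt.sym σ) =
      ramDiv fun θ => e (((σ⁻¹ : Sym f) : E ≃+* E) θ) := by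
  ext Q
  conv_lhs => rw [← R15_sym_inv σ Q]
  rw [Finsupp.mapDomain_apply (R15_sym_inj σ), ramDiv_apply, ramDiv_apply]
  have h1 : (Q.sym σ⁻¹).y = 0 ↔ Q.y = 0 :=
    map_eq_zero_iff (((σ⁻¹ : Sym f) : E ≃+* E)) (RingEquiv.injective _)
  by_cases hQ : Q.y = 0
  · rw [if_pos hQ, if_pos (h1.mpr hQ)]
    rfl
  · rw [if_neg hQ, if_neg (fun h => hQ (h1.mp h))]

lemma mapDomain_rot_ramDiv (ζ : E) (hζ : ζ ^ N = 1) (e : E → ℤ) :
    (ramDiv e : Pt N f →₀ ℤ).mapDomain (Pt.rot ζ hζ) = ramDiv e := by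
  ext Q
  conv_lhs => rw [← R15_rot_inv ζ hζ Q]
  rw [Finsupp.mapDomain_apply (R15_rot_inj ζ hζ), ramDiv_apply, ramDiv_apply]
  have h1 : (Q.rot ζ⁻¹ (by rw [inv_pow, hζ, inv_one])).y = 0 ↔ Q.y = 0 := by
    show ζ⁻¹ * Q.y = 0 ↔ Q.y = 0
    rw [mul_eq_zero, inv_eq_zero]
    constructor
    · rintro (h | h)
      · exact absurd h (R15_ne hG.ne ζ hζ)
      · exact h
    · exact Or.inr
  by_cases hQ : Q.y = 0
  · rw [if_pos hQ, if_pos (h1.mpr hQ)]
    rfl
  · rw [if_neg hQ, if_neg (fun h => hQ (h1.mp h))]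

/-- The coefficient of a divisor at `(θ, 0)` (zero if `θ` is not a root of `f`). -/
noncomputable def atR (D : Pt N f →₀ ℤ) (θ : E) : ℤ :=
  if hθ : f.eval θ = 0 then D ⟨θ, 0, by rw [zero_pow hG.ne, hθ]⟩ else 0

lemma div_rotU_symm (ζ : E) (hζ : ζ ^ N = 1) (h0 : ζ ≠ 0) (u : (FunField N f)ˣ) :
    div ((rotU ζ hζ h0).symm u) = (div u).mapDomain (Pt.rot ζ hζ) := by
  ext Q
  conv_rhs => rw [← R15_rot_inv ζ hζ Q]
  rw [Finsupp.mapDomain_apply (R15_rot_inj ζ hζ), div_apply, div_apply]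
  have h1 := ord_rotU ζ hζ h0 (Q.rot ζ⁻¹ (by rw [inv_pow, hζ, inv_one]))
    ((rotU ζ hζ h0).symm u)
  rw [MulEquiv.apply_symm_apply, R15_rot_inv] at h1
  exact h1.symm

lemma div_symU (σ : Sym f) (u : (FunField N f)ˣ) :
    div (symU σ u) = (div u).mapDomain (Pt.sym σ) := by
  ext Q
  conv_rhs => rw [← R15_sym_inv σ Q]
  rw [Finsupp.mapDomain_apply (R15_sym_inj σ), div_apply, div_apply]
  have h1 := ord_symU σ (Q.sym σ⁻¹) u
  rw [R15_sym_inv] at h1
  exact h1

lemma div_xs (ζ : E) (hζ : IsPrimitiveRoot ζ N) (P : Pt N f) :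
    div (xs P.x : (FunField N f)ˣ) =
      ∑ i ∈ Finset.range N, Finsupp.single ((Pt.rot ζ hζ.pow_eq_one)^[i] P) 1 := by
  have hN0 : N ≠ 0 := hG.ne
  have : NeZero N := ⟨hN0⟩
  ext Q
  rw [div_apply, Finsupp.finsetSum_apply]
  simp only [Finsupp.single_apply]
  by_cases hx : Q.x = P.x
  · by_cases hy : Q.y = 0
    · have hPy : P.y = 0 := by
        have h1 := P.eq
        rw [← hx, ← Q.eq, hy, zero_pow hN0] at h1
        exact (pow_eq_zero_iff hN0).mp h1
      rw [← hx, ord_xs_of_ramified Q hy]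
      have h2 : ∀ i ∈ Finset.range N, (if (Pt.rot ζ hζ.pow_eq_one)^[i] P = Q then (1 : ℤ) else 0) =
          1 := by
        intro i _
        rw [if_pos]
        ext
        · rw [(R15_iter ζ hζ.pow_eq_one P i).1, hx]
        · rw [(R15_iter ζ hζ.pow_eq_one P i).2, hPy, hy, mul_zero]
      rw [Finset.sum_congr rfl h2]
      simp
    · rw [← hx, ord_xs_of_unramified Q hy]
      have hPy : P.y ≠ 0 := by
        intro h
        apply hy
        have h1 := Q.eq
        rw [hx, ← P.eq, h, zero_pow hN0] at h1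
        exact (pow_eq_zero_iff hN0).mp h1
      have h5 : (Q.y / P.y) ^ N = 1 := by
        rw [div_pow, Q.eq, P.eq, hx, div_self]
        rw [← P.eq]
        exact pow_ne_zero N hPy
      obtain ⟨i, hi, he⟩ := hζ.eq_pow_of_pow_eq_one h5
      symm
      rw [Finset.sum_eq_single i]
      · rw [if_pos]
        ext
        · rw [(R15_iter ζ hζ.pow_eq_one P i).1, hx]
        · rw [(R15_iter ζ hζ.pow_eq_one P i).2, he, div_mul_cancel₀ _ hPy]
      · intro j hj hji
        rw [if_neg]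
        intro h
        apply hji
        have h6 := congrArg Pt.y h
        rw [(R15_iter ζ hζ.pow_eq_one P j).2] at h6
        have h7 : ζ ^ j = ζ ^ i := by
          rw [he, eq_div_iff hPy]
          exact h6
        exact hζ.pow_inj (Finset.mem_range.mp hj) hi h7
      · intro h
        exact absurd (Finset.mem_range.mpr hi) h
  · rw [ord_xs_of_ne Q hx]
    symm
    apply Finset.sum_eq_zero
    intro i _
    rw [if_neg]
    intro h
    apply hx
    rw [← h, (R15_iter ζ hζ.pow_eq_one P i).1]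

lemma div_yU : div (yU : (FunField N f)ˣ) = ramDiv fun θ => wt f θ := by
  ext P
  rw [div_apply, ramDiv_apply]
  split_ifs with h
  · exact ord_yU_of_ramified P h
  · exact ord_yU_of_ne P h

end Pool.Agent.Lib.MP_89bcae_ag.Wt

end

section

/-!
# The group `Aut(Ω/k(t))` and other general lemmas
-/

open Polynomial IsDedekindDomain

open scoped Classical

namespace Pool.Agent.Lib.MP_89bcae_ag.Wt.Lns

open Pool.Agent.Lib.MP_89bcae_ag.Sup

set_option linter.unusedSectionVars false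

universe u

lemma G13_jacMap_congr {ℓ : ℕ} {A B : Type u} [Field A] [Field B] {σ τ : A →+* B} {f : A[X]}
    {f' : B[X]} (e : σ = τ) (h : f.map σ = f') (h' : f.map τ = f') (Q : Jac ℓ f) :
    jacMap ℓ σ h Q = jacMap ℓ τ h' Q := by
  subst e
  rfl

lemma G13_coprime_aux {K : Type u} [Field K] {ℓ : ℕ} (hℓ : ℓ.Prime) (h : (ℓ : K) ≠ 0) (q : ℕ)
    (hq : ExpChar K q) : q.Coprime ℓ := by
  cases hq with
  | zero => exact Nat.coprime_one_left ℓ
  | prime hp =>
    rw [Nat.coprime_primes hp hℓ]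
    rintro rfl
    exact h (CharP.cast_eq_zero K q)

lemma G13_coprime {K : Type u} [Field K] {ℓ : ℕ} (hℓ : ℓ.Prime) (h : (ℓ : K) ≠ 0) :
    (ringExpChar K).Coprime ℓ :=
  G13_coprime_aux hℓ h _ inferInstance


/-- The group `Aut(Ω/k(t))`. -/
def AutO (k F L Ω : Type u) [Field k] [Field F] [Algebra k F] [Field L] [Algebra F[X] L] [Field Ω]
    [Algebra L Ω] : Subgroup (Ω ≃+* Ω) where
  carrier := {γ | ∀ p : k[X], γ (base k F L Ω p) = base k F L Ω p}
  mul_mem' {a b} ha hb p := by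
    rw [RingAut.mul_apply, hb p, ha p]
  one_mem' p := rfl
  inv_mem' {a} ha p := by
    have h := ha p
    calc a⁻¹ (base k F L Ω p) = a⁻¹ (a (base k F L Ω p)) := by rw [h]
      _ = base k F L Ω p := a.symm_apply_apply _

section

variable {k F L Ω : Type u} [Field k] [Field F] [Algebra k F] [Field L] [Algebra F[X] L]
  [Field Ω] [Algebra L Ω]

/-- An automorphism over `L` is an automorphism over `k(t)`. -/
def galA (k F : Type u) [Field k] [Field F] [Algebra k F] [Algebra F[X] L] :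
    (Ω ≃ₐ[L] Ω) →* AutO k F L Ω where
  toFun σ := ⟨(σ : Ω ≃+* Ω), fun p => σ.commutes _⟩
  map_one' := rfl
  map_mul' _ _ := rfl

@[simp] lemma galA_coe (σ : Ω ≃ₐ[L] Ω) (x : Ω) :
    ((galA k F σ : AutO k F L Ω) : Ω ≃+* Ω) x = σ x := rfl


variable [IsAlgClosure k F] [IsFractionRing F[X] L] [IsAlgClosure L Ω]


private lemma gb_inj {p q : F[X]}
    (h : algebraMap L Ω (algebraMap F[X] L p) = algebraMap L Ω (algebraMap F[X] L q)) : p = q :=
  IsFractionRing.injective F[X] L ((algebraMap L Ω).injective h)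

private lemma gb_unique {γ : Ω ≃+* Ω} {σ τ : F ≃ₐ[k] F}
    (hσ : ∀ p : F[X], γ (algebraMap L Ω (algebraMap F[X] L p)) =
      algebraMap L Ω (algebraMap F[X] L (p.map (σ : F →+* F))))
    (hτ : ∀ p : F[X], γ (algebraMap L Ω (algebraMap F[X] L p)) =
      algebraMap L Ω (algebraMap F[X] L (p.map (τ : F →+* F)))) : σ = τ := by
  ext c
  have h1 := gb_inj ((hσ (C c)).symm.trans (hτ (C c)))
  rw [map_C, map_C] at h1
  exact C_injective h1

private lemma gb_exists (γ : AutO k F L Ω) : ∃ σ : F ≃ₐ[k] F, ∀ p : F[X],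
    (γ : Ω ≃+* Ω) (algebraMap L Ω (algebraMap F[X] L p)) =
      algebraMap L Ω (algebraMap F[X] L (p.map (σ : F →+* F))) := by
  let ι : F →+* Ω := (algebraMap L Ω).comp ((algebraMap F[X] L).comp C)
  letI : Algebra F Ω := ι.toAlgebra
  letI : Algebra k Ω := (ι.comp (algebraMap k F)).toAlgebra
  haveI : IsScalarTower k F Ω := IsScalarTower.of_algebraMap_eq fun x => rfl
  haveI : IsAlgClosed F := IsAlgClosure.isAlgClosed k
  haveI : Algebra.IsAlgebraic k F := IsAlgClosure.isAlgebraic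
  haveI : Normal k F := normal_iff.mpr fun x =>
    ⟨Algebra.IsIntegral.isIntegral x, IsAlgClosed.splits _⟩
  have hb : ∀ x : k, algebraMap k Ω x = base k F L Ω (C x) := by
    intro x
    change algebraMap L Ω (algebraMap F[X] L (C (algebraMap k F x))) =
      algebraMap L Ω (algebraMap F[X] L ((C x).map (algebraMap k F)))
    rw [map_C]
  let γ' : Ω ≃ₐ[k] Ω := AlgEquiv.ofRingEquiv (f := (γ : Ω ≃+* Ω)) (by
    intro x
    rw [hb]
    exact γ.2 (C x))
  let σ := γ'.restrictNormal F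
  have hσ : ∀ x : F, (γ : Ω ≃+* Ω) (algebraMap L Ω (algebraMap F[X] L (C x))) =
      algebraMap L Ω (algebraMap F[X] L (C (σ x))) := by
    intro x
    exact (γ'.restrictNormal_commutes F x).symm
  have hX : (γ : Ω ≃+* Ω) (algebraMap L Ω (algebraMap F[X] L X)) =
      algebraMap L Ω (algebraMap F[X] L X) := by
    have h := γ.2 X
    have h1 : base k F L Ω X = algebraMap L Ω (algebraMap F[X] L X) := by
      change algebraMap L Ω (algebraMap F[X] L ((X : k[X]).map (algebraMap k F))) = _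
      rw [map_X]
    rwa [h1] at h
  refine ⟨σ, fun p => ?_⟩
  induction p using Polynomial.induction_on' with
  | add p q hp hq =>
    rw [map_add, map_add, map_add, hp, hq, Polynomial.map_add, map_add, map_add]
  | monomial n a =>
    rw [← C_mul_X_pow_eq_monomial, map_mul, map_mul, map_mul, hσ, map_pow, map_pow, map_pow, hX,
      Polynomial.map_mul, Polynomial.map_C, Polynomial.map_pow, Polynomial.map_X, map_mul, map_mul,
      map_pow, map_pow]
    rfl


lemma exists_resF : ∃ r : AutO k F L Ω →* (F ≃ₐ[k] F), ∀ (γ : AutO k F L Ω) (p : F[X]),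
    (γ : Ω ≃+* Ω) (algebraMap L Ω (algebraMap F[X] L p)) =
      algebraMap L Ω (algebraMap F[X] L (p.map (r γ : F →+* F))) := by
  refine ⟨{ toFun := fun γ => (gb_exists γ).choose, map_one' := ?_, map_mul' := ?_ }, ?_⟩
  · refine gb_unique (γ := ((1 : AutO k F L Ω) : Ω ≃+* Ω)) (gb_exists (1 : AutO k F L Ω)).choose_spec
      fun p => ?_
    have h1 : p.map ((1 : F ≃ₐ[k] F) : F →+* F) = p := by
      have h2 : ((1 : F ≃ₐ[k] F) : F →+* F) = RingHom.id F := rfl
      rw [h2, Polynomial.map_id]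
    rw [h1]
    rfl
  · intro γ δ
    refine gb_unique (γ := ((γ * δ : AutO k F L Ω) : Ω ≃+* Ω)) (gb_exists (γ * δ)).choose_spec
      fun p => ?_
    have h1 : p.map (((gb_exists γ).choose * (gb_exists δ).choose : F ≃ₐ[k] F) : F →+* F) =
        (p.map ((gb_exists δ).choose : F →+* F)).map ((gb_exists γ).choose : F →+* F) := by
      rw [Polynomial.map_map]
      rfl
    rw [h1, ← (gb_exists γ).choose_spec, ← (gb_exists δ).choose_spec]
    rfl
  · intro γ p
    exact (gb_exists γ).choose_spec p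

/-- The restriction of an automorphism to `F`. -/
noncomputable def resF : AutO k F L Ω →* (F ≃ₐ[k] F) := exists_resF.choose

lemma resF_spec (γ : AutO k F L Ω) (p : F[X]) :
    (γ : Ω ≃+* Ω) (algebraMap L Ω (algebraMap F[X] L p)) =
      algebraMap L Ω (algebraMap F[X] L (p.map (resF γ : F →+* F))) :=
  exists_resF.choose_spec γ p


variable [Algebra F Ω]


private lemma g10_mult_pow {K : Type u} [Field K] (P : K[X]) (n : ℕ) (b : K) (h : P ^ n ≠ 0) :
    rootMultiplicity b (P ^ n) = n * rootMultiplicity b P := by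
  by_cases hP : P = 0
  · subst hP
    have hn : n = 0 := by
      by_contra hn
      exact h (zero_pow hn)
    subst hn
    simp
  · clear h
    induction n with
    | zero => simp
    | succ n ih =>
      rw [pow_succ, rootMultiplicity_mul (mul_ne_zero (pow_ne_zero _ hP) hP), ih]
      ring

private lemma g10_mult_prod {K : Type u} [Field K] (S : Finset K) (m : K → ℕ) (b : K)
    (hb : b ∈ S) : rootMultiplicity b (∏ β ∈ S, (X - C β) ^ m β) = m b := by
  have h0 : ∏ β ∈ S, (X - C β) ^ m β ≠ 0 :=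
    Finset.prod_ne_zero_iff.mpr fun β _ => pow_ne_zero _ (X_sub_C_ne_zero β)
  rw [← Finset.mul_prod_erase S _ hb] at h0 ⊢
  rw [rootMultiplicity_mul h0, rootMultiplicity_X_sub_C_pow]
  have h1 : rootMultiplicity b (∏ β ∈ S.erase b, (X - C β) ^ m β) = 0 := by
    apply rootMultiplicity_eq_zero
    rw [IsRoot.def, eval_prod, Finset.prod_eq_zero_iff]
    rintro ⟨β, hβ, h2⟩
    rw [eval_pow, eval_sub, eval_X, eval_C] at h2
    have h3 : b - β = 0 := by
      by_contra h4
      exact pow_ne_zero _ h4 h2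
    exact (Finset.mem_erase.mp hβ).1 (sub_eq_zero.mp h3).symm
  rw [h1, add_zero]

/-- (3) -/
lemma dvd_of_prod_eq_pow {A : Type u} [Field A] [Algebra F A] {θ : A}
    (hθ : Function.Injective (aeval θ : F[X] →ₐ[F] A)) {ℓ : ℕ} (S : Finset F) (n : F → ℤ)
    (c : F) (hc : c ≠ 0) (P Q : F[X]) (hQ : Q ≠ 0)
    (h : ∏ β ∈ S, (θ - algebraMap F A β) ^ n β = algebraMap F A c * (aeval θ P / aeval θ Q) ^ ℓ) :
    ∀ β ∈ S, (ℓ : ℤ) ∣ n β := by
  intro b hb
  have hQ0 : aeval θ Q ≠ 0 := by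
    intro h0
    rw [← map_zero (aeval θ : F[X] →ₐ[F] A)] at h0
    exact hQ (hθ h0)
  have hθβ : ∀ β : F, θ - algebraMap F A β ≠ 0 := by
    intro β h0
    have h1 : aeval θ (X - C β) = 0 := by
      rw [map_sub, aeval_X, aeval_C, h0]
    rw [← map_zero (aeval θ : F[X] →ₐ[F] A)] at h1
    exact X_sub_C_ne_zero β (hθ h1)
  have hz : ∀ β : F, (θ - algebraMap F A β) ^ n β * (θ - algebraMap F A β) ^ (-(n β)).toNat =
      (θ - algebraMap F A β) ^ (n β).toNat := by
    intro β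
    rw [← zpow_natCast, ← zpow_natCast, ← zpow_add₀ (hθβ β)]
    congr 1
    omega
  have hprod : (∏ β ∈ S, (θ - algebraMap F A β) ^ n β) *
      ∏ β ∈ S, (θ - algebraMap F A β) ^ (-(n β)).toNat =
      ∏ β ∈ S, (θ - algebraMap F A β) ^ (n β).toNat := by
    rw [← Finset.prod_mul_distrib]
    exact Finset.prod_congr rfl fun β _ => hz β
  have hae : ∀ m : F → ℕ, aeval θ (∏ β ∈ S, (X - C β) ^ m β) =
      ∏ β ∈ S, (θ - algebraMap F A β) ^ m β := by
    intro m
    rw [map_prod]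
    refine Finset.prod_congr rfl fun β _ => ?_
    rw [map_pow, map_sub, aeval_X, aeval_C]
  have hpol : (∏ β ∈ S, (X - C β) ^ (n β).toNat) * Q ^ ℓ =
      C c * P ^ ℓ * ∏ β ∈ S, (X - C β) ^ (-(n β)).toNat := by
    apply hθ
    rw [map_mul, map_mul, map_mul, hae, hae, aeval_C, map_pow, map_pow, ← hprod, h, div_pow]
    field_simp
  have hL0 : (∏ β ∈ S, (X - C β) ^ (n β).toNat) * Q ^ ℓ ≠ 0 :=
    mul_ne_zero (Finset.prod_ne_zero_iff.mpr fun β _ => pow_ne_zero _ (X_sub_C_ne_zero β))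
      (pow_ne_zero _ hQ)
  have hR0 : C c * P ^ ℓ * ∏ β ∈ S, (X - C β) ^ (-(n β)).toNat ≠ 0 := by
    rw [← hpol]
    exact hL0
  have hcP : C c * P ^ ℓ ≠ 0 := left_ne_zero_of_mul hR0
  have hP0 : P ^ ℓ ≠ 0 := right_ne_zero_of_mul hcP
  have hm := congrArg (rootMultiplicity b) hpol
  rw [rootMultiplicity_mul hL0, rootMultiplicity_mul hR0, rootMultiplicity_mul hcP,
    rootMultiplicity_C, zero_add, g10_mult_pow Q ℓ b (pow_ne_zero _ hQ), g10_mult_pow P ℓ b hP0,
    g10_mult_prod S _ b hb, g10_mult_prod S _ b hb] at hm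
  refine ⟨(rootMultiplicity b P : ℤ) - rootMultiplicity b Q, ?_⟩
  have hm' : (((n b).toNat : ℤ)) + ℓ * rootMultiplicity b Q =
      ℓ * rootMultiplicity b P + ((-(n b)).toNat : ℤ) := by
    exact_mod_cast hm
  have hn : n b = ((n b).toNat : ℤ) - ((-(n b)).toNat : ℤ) := by omega
  rw [mul_sub]
  linarith


end

section L11

variable {F K M : Type u} [Field F] [Field K] [Field M] [Algebra F M] [Algebra K M]

/-- The automorphisms of `M` over `K` fix the coefficients of a polynomial over `K`. -/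
def galSym {f₀ : K[X]} {f : M[X]} (hf : f₀.map (algebraMap K M) = f) :
    (M ≃ₐ[K] M) →* Sym f where
  toFun σ := ⟨(σ : M ≃+* M), by
    rw [mem_Sym, ← hf, Polynomial.map_map]
    congr 1
    ext x
    exact σ.commutes x⟩
  map_one' := by
    apply Subtype.ext
    rfl
  map_mul' σ τ := by
    apply Subtype.ext
    rfl


variable {v : AbsoluteValue M ℝ} {a : F} {t : M} [IsAlgClosure K M]


end L11

end Pool.Agent.Lib.MP_89bcae_ag.Wt.Lns

end

section

/-!
# The functions on the special fibre `y ^ ℓ = g(x)`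
-/

open Polynomial

open scoped Classical

namespace Pool.Agent.Lib.MP_89bcae_ag.Bra

/-- `κ = F(x, y)` with `y ^ ℓ = g(x)`, a cyclic extension of degree `ℓ` of `F(x)`. -/
structure Fib (ℓ : ℕ) {F κ : Type} [Field F] [Field κ] [Algebra F κ] (ζ : F) (g : F[X]) (x y : κ) :
    Prop where
  inj : ∀ p : F[X], aeval x p = 0 → p = 0
  eq : y ^ ℓ = aeval x g
  ne : y ≠ 0
  rot : ∃ ρ : κ ≃ₐ[F] κ, ρ x = x ∧ ρ y = algebraMap F κ ζ * y ∧
    ∀ z, ρ z = z → ∃ p q : F[X], q ≠ 0 ∧ z = aeval x p / aeval x q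

private lemma c1_intDegree_pow {F : Type} [Field F] {b : RatFunc F} (hb : b ≠ 0) (n : ℕ) :
    (b ^ n).intDegree = n * b.intDegree := by
  induction n with
  | zero => rw [pow_zero, RatFunc.intDegree_one, Nat.cast_zero, zero_mul]
  | succ n ih =>
    rw [pow_succ, RatFunc.intDegree_mul (pow_ne_zero n hb) hb, ih]
    push_cast
    ring

private lemma c1_irreducible {F : Type} [Field F] {ℓ : ℕ} (hℓ : ℓ.Prime)
    (g : F[X]) (hg : g.natDegree.Coprime ℓ) (h0 : g ≠ 0) :
    Irreducible (X ^ ℓ - C (algebraMap F[X] (RatFunc F) g) : (RatFunc F)[X]) := by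
  refine X_pow_sub_C_irreducible_of_prime hℓ fun b hb => ?_
  have hb0 : b ≠ 0 := by
    rintro rfl
    rw [zero_pow hℓ.ne_zero] at hb
    exact h0 ((FaithfulSMul.algebraMap_injective F[X] (RatFunc F)) (by rw [← hb, map_zero]))
  have h1 := congrArg RatFunc.intDegree hb
  rw [c1_intDegree_pow hb0, RatFunc.intDegree_polynomial] at h1
  have h2 : (ℓ : ℤ) ∣ (g.natDegree : ℤ) := ⟨_, h1.symm⟩
  have h3 : ℓ ∣ g.natDegree := Int.natCast_dvd_natCast.mp h2
  exact hℓ.ne_one (Nat.Coprime.eq_one_of_dvd hg.symm h3)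

private lemma c1_fixed {F : Type} [Field F] {ℓ : ℕ} {ζ : F}
    (hζ : IsPrimitiveRoot ζ ℓ) (P : (RatFunc F)[X]) (hP : P.Monic) (hdeg : P.natDegree = ℓ)
    (r : (RatFunc F)[X]) (hr : ∀ m, ℓ ≤ m → r.coeff m = 0)
    (h : AdjoinRoot.mk P (r.comp (C (algebraMap F (RatFunc F) ζ) * X)) = AdjoinRoot.mk P r) :
    r = C (r.coeff 0) := by
  have h1 : P ∣ r.comp (C (algebraMap F (RatFunc F) ζ) * X) - r := by
    rw [← AdjoinRoot.mk_eq_zero, map_sub, h, sub_self]
  have h2 : r.comp (C (algebraMap F (RatFunc F) ζ) * X) - r = 0 := by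
    refine Polynomial.eq_zero_of_dvd_of_degree_lt h1 ?_
    rw [Polynomial.degree_eq_natDegree hP.ne_zero, hdeg, degree_lt_iff_coeff_zero]
    intro m hm
    rw [coeff_sub, comp_C_mul_X_coeff, hr m hm, zero_mul, sub_zero]
  ext n
  rw [coeff_C]
  split_ifs with hn
  · rw [hn]
  · rcases Nat.lt_or_ge n ℓ with hlt | hge
    · have h3 := congrArg (fun p => coeff p n) h2
      simp only [coeff_sub, comp_C_mul_X_coeff, coeff_zero] at h3
      have h4 : r.coeff n * ((algebraMap F (RatFunc F) ζ) ^ n - 1) = 0 := by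
        rw [← h3]
        ring
      rcases mul_eq_zero.mp h4 with h5 | h5
      · exact h5
      · exfalso
        have h6 : algebraMap F (RatFunc F) (ζ ^ n) = algebraMap F (RatFunc F) 1 := by
          rw [map_pow, map_one]
          exact sub_eq_zero.mp h5
        have h7 := (algebraMap F (RatFunc F)).injective h6
        have h8 := hζ.dvd_of_pow_eq_one n h7
        exact absurd (Nat.le_of_dvd (Nat.pos_of_ne_zero hn) h8) (not_le.mpr hlt)
    · exact hr n hge

/-- Existence. PROOF. `κ = AdjoinRoot (X ^ ℓ - C g : (RatFunc F)[X])`, a field as the polynomial is irreducible: `g` is not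
an `ℓ`-th power in `RatFunc F` (its degree is prime to `ℓ`; compare degrees, `RatFunc.intDegree`), then
`X_pow_sub_C_irreducible_of_prime`. `ρ` is the map of root `y ↦ ζ y`. Fixed elements: `z = ∑_{i < ℓ} r_i y ^ i` (power
basis), `ρ z = ∑ r_i ζ ^ i y ^ i`, so `r_i = 0` for `0 < i < ℓ`. -/
theorem exists_fib {F : Type} [Field F] {ℓ : ℕ} (hℓ : ℓ.Prime) {ζ : F} (hζ : IsPrimitiveRoot ζ ℓ)
    (g : F[X]) (hg : g.natDegree.Coprime ℓ) (h0 : g ≠ 0) :
    ∃ (κ : Type) (_ : Field κ) (_ : Algebra F κ) (x y : κ), Fib ℓ ζ g x y := by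
  obtain ⟨P, hPdef⟩ : ∃ P : (RatFunc F)[X],
      P = X ^ ℓ - C (algebraMap F[X] (RatFunc F) g) := ⟨_, rfl⟩
  have hirr : Irreducible P := by
    rw [hPdef]
    exact c1_irreducible hℓ g hg h0
  have hmonic : P.Monic := by
    rw [hPdef]
    exact monic_X_pow_sub_C _ hℓ.ne_zero
  have hdeg : P.natDegree = ℓ := by
    rw [hPdef]
    exact natDegree_X_pow_sub_C
  have _ : Fact (Irreducible P) := ⟨hirr⟩
  have hfin : FiniteDimensional (RatFunc F) (AdjoinRoot P) :=
    (AdjoinRoot.powerBasis hirr.ne_zero).finite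
  have hev : ∀ {A : Type} [CommRing A] (φ : RatFunc F →+* A) (a : A),
      P.eval₂ φ a = a ^ ℓ - φ (algebraMap F[X] (RatFunc F) g) := by
    intro A _ φ a
    rw [hPdef, eval₂_sub, eval₂_pow, eval₂_X, eval₂_C]
  have hyℓ : AdjoinRoot.root P ^ ℓ =
      algebraMap (RatFunc F) (AdjoinRoot P) (algebraMap F[X] (RatFunc F) g) := by
    have h := AdjoinRoot.eval₂_root P
    rw [hev, sub_eq_zero] at h
    exact h
  have hpoly : ∀ p : F[X], aeval (algebraMap (RatFunc F) (AdjoinRoot P) RatFunc.X) p =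
      algebraMap (RatFunc F) (AdjoinRoot P) (algebraMap F[X] (RatFunc F) p) := by
    intro p
    rw [aeval_algebraMap_apply, ← RatFunc.algebraMap_X, aeval_algebraMap_apply, aeval_X_left_apply]
  have hinj : Function.Injective (algebraMap F[X] (RatFunc F)) :=
    FaithfulSMul.algebraMap_injective F[X] (RatFunc F)
  have hinj2 : Function.Injective (algebraMap (RatFunc F) (AdjoinRoot P)) :=
    (algebraMap (RatFunc F) (AdjoinRoot P)).injective
  refine ⟨AdjoinRoot P, inferInstance, inferInstance,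
    algebraMap (RatFunc F) (AdjoinRoot P) RatFunc.X, AdjoinRoot.root P, ?_, ?_, ?_, ?_⟩
  · intro p hp
    rw [hpoly] at hp
    exact hinj (hinj2 (by rw [hp, map_zero, map_zero]))
  · rw [hpoly]
    exact hyℓ
  · intro hy
    rw [hy, zero_pow hℓ.ne_zero] at hyℓ
    exact h0 (hinj (hinj2 (by rw [← hyℓ, map_zero, map_zero])))
  · obtain ⟨ζ', hζ'⟩ : ∃ ζ' : RatFunc F, ζ' = algebraMap F (RatFunc F) ζ := ⟨_, rfl⟩
    obtain ⟨ρ, hρ⟩ : ∃ ρ : AdjoinRoot P →ₐ[RatFunc F] AdjoinRoot P,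
        ρ (AdjoinRoot.root P) = algebraMap (RatFunc F) (AdjoinRoot P) ζ' * AdjoinRoot.root P := by
      refine ⟨AdjoinRoot.liftAlgHom P (Algebra.ofId _ _)
        (algebraMap (RatFunc F) (AdjoinRoot P) ζ' * AdjoinRoot.root P) ?_,
        AdjoinRoot.liftAlgHom_root _ _ _ _⟩
      have hz : ζ' ^ ℓ = 1 := by rw [hζ', ← map_pow, hζ.pow_eq_one, map_one]
      rw [hev, mul_pow, ← map_pow, hz, map_one, one_mul, hyℓ]
      exact sub_self _
    have hρmk : ∀ r : (RatFunc F)[X], ρ (AdjoinRoot.mk P r) =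
        AdjoinRoot.mk P (r.comp (C ζ' * X)) := by
      intro r
      rw [← AdjoinRoot.aeval_eq, ← aeval_algHom_apply, hρ, ← AdjoinRoot.aeval_eq, aeval_comp,
        map_mul, aeval_C, aeval_X]
    refine ⟨(AlgEquiv.ofBijective ρ ρ.bijective).restrictScalars F, ?_, ?_, ?_⟩
    · exact ρ.commutes _
    · show ρ (AdjoinRoot.root P) = _
      rw [hρ, hζ']
      rfl
    · intro z hz
      have hz' : ρ z = z := hz
      obtain ⟨r, hr⟩ : ∃ r : (RatFunc F)[X], r = AdjoinRoot.modByMonicHom hmonic z := ⟨_, rfl⟩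
      have h1 : AdjoinRoot.mk P r = z := by
        rw [hr]
        exact AdjoinRoot.mk_leftInverse hmonic z
      have h2 : ∀ m, ℓ ≤ m → r.coeff m = 0 := by
        rw [← degree_lt_iff_coeff_zero]
        obtain ⟨f, rfl⟩ := AdjoinRoot.mk_surjective z
        rw [hr, AdjoinRoot.modByMonicHom_mk]
        refine (degree_modByMonic_lt f hmonic).trans_eq ?_
        rw [degree_eq_natDegree hmonic.ne_zero, hdeg]
      rw [← h1, hρmk, hζ'] at hz'
      have h3 := c1_fixed hζ P hmonic hdeg r h2 hz'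
      refine ⟨(r.coeff 0).num, (r.coeff 0).denom, RatFunc.denom_ne_zero _, ?_⟩
      rw [hpoly, hpoly, ← map_div₀, RatFunc.num_div_denom, ← h1]
      nth_rewrite 1 [h3]
      exact AdjoinRoot.mk_C _

/-- Kummer theory. PROOF. `w ≠ 0`; `ρ w / w` is a root of unity of order dividing `ℓ`, so `= ζ ^ c`, `0 ≤ c < ℓ`, and
`w / y ^ c` is fixed by `ρ`, `w = y ^ c * p(x) / q(x)`. So `∏ (x - r) ^ (G r) = g(x) ^ c * (p(x) / q(x)) ^ ℓ`; apply
`dvd_of_prod_eq_pow` (`Wl/Gen.lean`) with exponents `G r - c * V r`. Write `n * G r` for the exponents: the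
multiplication by `n`, prime to `ℓ`, is undone at the end. -/
theorem kummer_fib {F κ : Type} [Field F] [Field κ] [Algebra F κ] {ℓ : ℕ} (hℓ : ℓ.Prime) {ζ : F}
    (hζ : IsPrimitiveRoot ζ ℓ) (R : Finset F) (V : F → ℕ) {x y : κ}
    (h : Fib ℓ ζ (∏ r ∈ R, (X - C r) ^ V r) x y) (G : F → ℤ) (n : ℕ) (hn : n.Coprime ℓ) (w : κ)
    (hw : (∏ r ∈ R, (x - algebraMap F κ r) ^ G r) ^ n = w ^ ℓ) :
    ∃ c : ℤ, ∀ r ∈ R, (ℓ : ℤ) ∣ G r - c * V r := by
  have hℓ0 : ℓ ≠ 0 := hℓ.ne_zero
  have hinj : Function.Injective (aeval x : F[X] →ₐ[F] κ) :=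
    (injective_iff_map_eq_zero _).2 h.inj
  have hx : ∀ r : F, x - algebraMap F κ r ≠ 0 := fun r h0 => by
    have h1 : aeval x (X - C r) = 0 := by rw [map_sub, aeval_X, aeval_C, h0]
    exact X_sub_C_ne_zero r (h.inj _ h1)
  obtain ⟨ρ, hρx, hρy, hfix⟩ := h.rot
  have hP0 : (∏ r ∈ R, (x - algebraMap F κ r) ^ G r) ≠ 0 :=
    Finset.prod_ne_zero_iff.2 fun r _ => zpow_ne_zero _ (hx r)
  have hρP : ρ (∏ r ∈ R, (x - algebraMap F κ r) ^ G r) = ∏ r ∈ R, (x - algebraMap F κ r) ^ G r := by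
    rw [map_prod]
    refine Finset.prod_congr rfl fun r _ => ?_
    rw [map_zpow₀, map_sub, hρx, AlgEquiv.commutes]
  have hw0 : w ≠ 0 := by
    rintro rfl
    rw [zero_pow hℓ0] at hw
    exact pow_ne_zero _ hP0 hw
  have hρw : (ρ w) ^ ℓ = w ^ ℓ := by
    rw [← map_pow, ← hw, map_pow, hρP]
  have hζ' : IsPrimitiveRoot (algebraMap F κ ζ) ℓ := hζ.map_of_injective (algebraMap F κ).injective
  have : NeZero ℓ := ⟨hℓ0⟩
  have h1 : (ρ w / w) ^ ℓ = 1 := by
    rw [div_pow, hρw, div_self (pow_ne_zero _ hw0)]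
  obtain ⟨c, -, hc⟩ := hζ'.eq_pow_of_pow_eq_one h1
  have hρw' : ρ w = algebraMap F κ ζ ^ c * w := by
    rw [hc, div_mul_cancel₀ _ hw0]
  have hζ0 : algebraMap F κ ζ ≠ 0 := hζ'.ne_zero hℓ0
  have hy0 : y ≠ 0 := h.ne
  have hz : ρ (w / y ^ c) = w / y ^ c := by
    rw [map_div₀, map_pow, hρy, hρw', mul_pow, mul_div_mul_left _ _ (pow_ne_zero _ hζ0)]
  obtain ⟨p, q, hq, hpq⟩ := hfix _ hz
  have hw2 : w = y ^ c * (aeval x p / aeval x q) := by
    rw [← hpq, mul_div_cancel₀ _ (pow_ne_zero _ hy0)]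
  have hg : aeval x (∏ r ∈ R, (X - C r) ^ V r) = ∏ r ∈ R, (x - algebraMap F κ r) ^ V r := by
    rw [map_prod]
    refine Finset.prod_congr rfl fun r _ => ?_
    rw [map_pow, map_sub, aeval_X, aeval_C]
  have hg0 : (∏ r ∈ R, (x - algebraMap F κ r) ^ V r) ^ c ≠ 0 :=
    pow_ne_zero _ (Finset.prod_ne_zero_iff.2 fun r _ => pow_ne_zero _ (hx r))
  have key : ∏ r ∈ R, (x - algebraMap F κ r) ^ ((n : ℤ) * G r - (c : ℤ) * V r) =
      algebraMap F κ 1 * (aeval x p / aeval x q) ^ ℓ := by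
    have h2 : (∏ r ∈ R, (x - algebraMap F κ r) ^ ((n : ℤ) * G r - (c : ℤ) * V r)) *
        (∏ r ∈ R, (x - algebraMap F κ r) ^ V r) ^ c = (∏ r ∈ R, (x - algebraMap F κ r) ^ G r) ^ n := by
      rw [← Finset.prod_pow, ← Finset.prod_pow, ← Finset.prod_mul_distrib]
      refine Finset.prod_congr rfl fun r _ => ?_
      rw [← zpow_natCast, ← zpow_natCast, ← zpow_natCast, ← zpow_mul, ← zpow_mul, ← zpow_add₀ (hx r)]
      congr 1
      ring
    have h3 : w ^ ℓ = (∏ r ∈ R, (x - algebraMap F κ r) ^ V r) ^ c * (aeval x p / aeval x q) ^ ℓ := by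
      rw [hw2, mul_pow, ← pow_mul, mul_comm c ℓ, pow_mul, h.eq, hg]
    rw [hw, h3] at h2
    rw [map_one, one_mul]
    exact mul_right_cancel₀ hg0 (h2.trans (mul_comm _ _))
  have hdvd := Wt.Lns.dvd_of_prod_eq_pow hinj R (fun r => (n : ℤ) * G r - (c : ℤ) * V r) 1 one_ne_zero p q hq key
  obtain ⟨a, b, hab⟩ := (Nat.isCoprime_iff_coprime.2 hn : IsCoprime (n : ℤ) (ℓ : ℤ))
  refine ⟨a * c, fun r hr => ?_⟩
  have h4 : G r - a * c * V r = a * ((n : ℤ) * G r - (c : ℤ) * V r) + (ℓ : ℤ) * (b * G r) := by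
    linear_combination (-(G r)) * hab
  rw [h4]
  exact dvd_add (Dvd.dvd.mul_left (hdvd r hr) a) (dvd_mul_right _ _)

end Pool.Agent.Lib.MP_89bcae_ag.Bra

end

section

/-!
# Cocycles with values in the functions on the curve over an algebraic closure of `F(t)`

`F` is an algebraically closed field, `L = F(t)`, `Ω` an algebraic closure of `L`, `Γ = Aut(Ω/L)`,
`y ^ ℓ = f(x)` a curve over `L`, `f` in `L[x]`.
-/

open Polynomial IsDedekindDomain IsLocalRing

open scoped Classical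

namespace Pool.Agent.Lib.MP_89bcae_ag.Bra

open Pool.Agent.Lib.MP_89bcae_ag.Wt Pool.Agent.Lib.MP_89bcae_ag.Wt.Lns

section

variable {L Ω : Type} [Field L] [Field Ω] [Algebra L Ω]

/-- The homomorphism of `Aut(Ω/L)` in the automorphisms of `Ω` which fix the coefficients of the curve. -/
noncomputable abbrev gs (f : L[X]) : (Ω ≃ₐ[L] Ω) →* Sym (f.map (algebraMap L Ω)) :=
  galSym (f₀ := f) rfl

variable {ℓ : ℕ} {f : L[X]}

/-- The functions on the curve over `Ω` induced by those over `L`. -/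
noncomputable def toO (ℓ : ℕ) (f : L[X]) (Ω : Type) [Field Ω] [Algebra L Ω] :
    FunField ℓ f →+* FunField ℓ (f.map (algebraMap L Ω)) :=
  funMap ℓ (algebraMap L Ω) rfl

/-- The constant functions. -/
noncomputable def cO (ℓ : ℕ) (f : L[X]) (Ω : Type) [Field Ω] [Algebra L Ω] :
    Ω →+* FunField ℓ (f.map (algebraMap L Ω)) :=
  polyF.comp C

/-- A continuous cochain of degree two. -/
def ICts2 {X : Type} (b : (Ω ≃ₐ[L] Ω) → (Ω ≃ₐ[L] Ω) → X) : Prop :=
  ∃ T : Finset Ω, ∀ g g' h h' : Ω ≃ₐ[L] Ω, (∀ x ∈ T, g x = g' x) → (∀ x ∈ T, h x = h' x) →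
    b g h = b g' h'

/-- `b` is split over the complete discretely valued fields `H` with valuation ring `O`, which contain the
field of functions on the curve over `L`, with `O` containing `F` but not this field. -/
def IUnr (F : Type) [Field F] [Algebra F[X] L]
    (b : (Ω ≃ₐ[L] Ω) → (Ω ≃ₐ[L] Ω) → (FunField ℓ (f.map (algebraMap L Ω)))ˣ) : Prop :=
  ∀ (O H T : Type) [CommRing O] [IsDomain O] [IsDiscreteValuationRing O]
    [IsAdicComplete (maximalIdeal O) O] [Field H] [Algebra O H] [IsFractionRing O H]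
    [Field T] [Algebra H T] [IsAlgClosure H T] (ψ : FunField ℓ (f.map (algebraMap L Ω)) →+* T),
    (∀ r : FunField ℓ f, ψ (toO ℓ f Ω r) ∈ (algebraMap H T).range) →
    (∀ c : F, ψ (cO ℓ f Ω (algebraMap L Ω (algebraMap F[X] L (C c)))) ∈
      ((algebraMap H T).comp (algebraMap O H)).range) →
    (∃ r : FunField ℓ f, ψ (toO ℓ f Ω r) ∉ ((algebraMap H T).comp (algebraMap O H)).range) →
    ∃ a : (T ≃ₐ[H] T) → Tˣ, IsCts a ∧ ∀ (g h : T ≃ₐ[H] T) (g' h' : Ω ≃ₐ[L] Ω),
      (∀ z, ψ (cO ℓ f Ω (g' z)) = g (ψ (cO ℓ f Ω z))) →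
      (∀ z, ψ (cO ℓ f Ω (h' z)) = h (ψ (cO ℓ f Ω z))) →
        ψ (b g' h' : FunField ℓ (f.map (algebraMap L Ω))) * a (g * h) = g (a h) * a g

/-- Continuous `2`-cocycles with values in `Ωˣ` are trivial up to powers prime to `ℓ`. -/
def BrTriv (ℓ : ℕ) (L Ω : Type) [Field L] [Field Ω] [Algebra L Ω] : Prop :=
  ∀ b : (Ω ≃ₐ[L] Ω) → (Ω ≃ₐ[L] Ω) → Ωˣ, IsCocycle b →
    ∃ m : ℕ, m.Coprime ℓ ∧ IsCoboundary fun g h => b g h ^ m

section Good

variable [hG : IsGood ℓ (f.map (algebraMap L Ω))]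

/-- `b` is a continuous `2`-cocycle with values in the functions. -/
structure ICoc (b : (Ω ≃ₐ[L] Ω) → (Ω ≃ₐ[L] Ω) → (FunField ℓ (f.map (algebraMap L Ω)))ˣ) : Prop where
  cocycle : ∀ g h j : Ω ≃ₐ[L] Ω, b g h * b (g * h) j = symU (gs f g) (b h j) * b g (h * j)
  continuous : ICts2 b

/-- `b` is the coboundary of a continuous cochain. -/
def ICob (b : (Ω ≃ₐ[L] Ω) → (Ω ≃ₐ[L] Ω) → (FunField ℓ (f.map (algebraMap L Ω)))ˣ) : Prop :=
  ∃ a : (Ω ≃ₐ[L] Ω) → (FunField ℓ (f.map (algebraMap L Ω)))ˣ, IsCts a ∧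
    ∀ g h, b g h * a (g * h) = symU (gs f g) (a h) * a g

/-- The divisor of `b` is the coboundary of the continuous cochain `C`. -/
structure IDiv (b : (Ω ≃ₐ[L] Ω) → (Ω ≃ₐ[L] Ω) → (FunField ℓ (f.map (algebraMap L Ω)))ˣ)
    (C : (Ω ≃ₐ[L] Ω) → (Pt ℓ (f.map (algebraMap L Ω)) →₀ ℤ)) : Prop where
  continuous : IsCts C
  div : ∀ g h, div (b g h) + C (g * h) = (C h).mapDomain (Pt.sym (gs f g)) + C g

end Good

end

end Pool.Agent.Lib.MP_89bcae_ag.Bra

end

end

section

attribute [local instance 100000] Pool.Agent.Lib.MP_89bcae_ag.Brt.tffFields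
attribute [local instance 100000] Pool.Agent.Lib.MP_89bcae_ag.Wt.ifrNF Pool.Agent.Lib.MP_89bcae_ag.Wt.iddNF

/-!
# Functoriality of the class of a divisor

ROW W09 (150 lines) = the lemmas `funMap_unif`, `map_ideal` of this file.
PROOFS. `funMap_unif`: `funMap_yF`, `funMap_polyF`, `wt_map`.
`map_ideal`: let `J = P.ideal.map φ`, `φ = coordMap N σ h`, `P' = P.map σ h`. `J ≤ P'.ideal` by
`evalPt_coordMap`; `J ≠ ⊥` (it contains `x - σ(P.x)`). So `P'.ideal ∣ J`, `J = P'.ideal * K`. If `K ≠ ⊤` then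
`K ≤ Q.ideal` for some point `Q` (`Ideal.exists_le_maximal`, `exists_pt_of_prime`). For `a` in `P.ideal`,
`evalPt Q (φ a) = 0`; with `a = ofPoly (X - C P.x)`, `a = yy - ofPoly (C P.y)` this gives `Q = P'`
(`coordMap_ofPoly`, `coordMap_yy`). So `J ≤ P'.ideal ^ 2`. If `P.y ≠ 0` then
`φ (ofPoly (X - C P.x)) = ofPoly (X - C P'.x)` is not in `P'.ideal ^ 2` (`ofPoly_sub_pow`). If `P.y = 0` let `a` be
the element of `exists_unif` for `θ = P.x`: its order at `P` is `1` (`ord_unif`), so it is in `P.ideal`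
(`ord_pos_iff`), and `φ a` is the element of `exists_unif` for `σ θ` (`funMap_unif`), of order `1` at `P'`, so not
in `P'.ideal ^ 2` (`intValuation_le_pow_iff_mem`, as in `W05`).
-/

open Polynomial IsDedekindDomain

open scoped Classical nonZeroDivisors TensorProduct

namespace Pool.Agent.Lib.MP_89bcae_ag.Wt

universe u

/-- The fractional ideal of an ideal is isomorphic to the ideal. -/
noncomputable def R09_equiv (R : Type u) [CommRing R] [IsDedekindDomain R] (I : (Ideal R)⁰) :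
    ((FractionalIdeal.unitsMulEquivSubmodule (FractionalIdeal.mk0 (FractionRing R) I) : 
      (Submodule R (FractionRing R))ˣ) : Submodule R (FractionRing R)) ≃ₗ[R] I.1 := by
  refine (LinearEquiv.ofBijective ((Algebra.linearMap R (FractionRing R)).restrict (p := I.1) ?_) ⟨?_, ?_⟩).symm
  · intro x hx
    show algebraMap R (FractionRing R) x ∈ ((FractionalIdeal.mk0 (FractionRing R) I : FractionalIdeal R⁰ (FractionRing R)) : Submodule R (FractionRing R))
    rw [FractionalIdeal.coe_mk0]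
    exact FractionalIdeal.mem_coeIdeal_of_mem _ hx
  · intro x y h
    have h1 := congrArg Subtype.val h
    exact Subtype.ext (IsFractionRing.injective R (FractionRing R) h1)
  · rintro ⟨y, hy⟩
    have hy' : y ∈ (FractionalIdeal.mk0 (FractionRing R) I : FractionalIdeal R⁰ (FractionRing R)) := hy
    rw [FractionalIdeal.coe_mk0, FractionalIdeal.mem_coeIdeal] at hy'
    obtain ⟨x, hx, rfl⟩ := hy'
    exact ⟨⟨x, hx⟩, rfl⟩

lemma R09_invertible (R : Type u) [CommRing R] [IsDedekindDomain R] (I : (Ideal R)⁰) :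
    Module.Invertible R I.1 := Module.Invertible.congr (R09_equiv R I)

lemma R09_equivPic_mk0 (R : Type u) [CommRing R] [IsDedekindDomain R] (I : (Ideal R)⁰) [Module.Invertible R I.1] :
    ClassGroup.equivPic R (ClassGroup.mk0 I) = CommRing.Pic.mk R I.1 := by
  rw [ClassGroup.mk0_eq_quotientMk]
  have h : ClassGroup.equivPic R (QuotientGroup.mk (FractionalIdeal.mk0 (FractionRing R) I)) =
    Submodule.unitsToPic R (FractionRing R) 
      (FractionalIdeal.unitsMulEquivSubmodule (FractionalIdeal.mk0 (FractionRing R) I)) := rfl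
  refine h.trans ?_
  rw [Submodule.unitsToPic_apply, CommRing.Pic.mk_eq_mk_iff]
  exact ⟨R09_equiv R I⟩

/-- base change of an ideal -/
lemma R09_map {R S : Type u} [CommRing R] [CommRing S] (φ : R →+* S) (I : Ideal R) (J : Ideal S)
    [Module.Invertible R I] [Module.Invertible S J] (h : I.map φ = J) :
    CommRing.Pic.mapRingHom φ (CommRing.Pic.mk R I) = CommRing.Pic.mk S J := by
  let _ := φ.toAlgebra
  show CommRing.Pic.mapAlgebra R S (CommRing.Pic.mk R I) = CommRing.Pic.mk S J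
  rw [CommRing.Pic.mapAlgebra_apply, CommRing.Pic.mk_eq_mk_iff]
  have e1 : S ⊗[R] (CommRing.Pic.mk R I : CommRing.Pic R) ≃ₗ[S] S ⊗[R] I :=
    TensorProduct.AlgebraTensorModule.congr (LinearEquiv.refl S S) (CommRing.Pic.mk.linearEquiv R I)
  refine ⟨e1 ≪≫ₗ ?_⟩
  -- the multiplication map
  have hmem : ∀ x : I, φ x ∈ J := fun x => h ▸ Ideal.mem_map_of_mem φ x.2
  let g0 : I →ₗ[R] J :=
    { toFun := fun x => ⟨φ x, hmem x⟩
      map_add' := fun x y => Subtype.ext (by simp)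
      map_smul' := fun r x => Subtype.ext (by
        show φ (r * x) = ((r • (⟨φ x, hmem x⟩ : J) : J) : S)
        rw [map_mul]
        rfl) }
  let g : S ⊗[R] I →ₗ[S] J := TensorProduct.AlgebraTensorModule.lift
    ((LinearMap.toSpanSingleton S (I →ₗ[R] J) g0))
  have hg : ∀ (s : S) (x : I), ((g (s ⊗ₜ x) : J) : S) = s * φ x := by
    intro s x
    rfl
  have key : ∀ y ∈ Submodule.span S (φ '' (I : Set R)), ∃ t : S ⊗[R] I, ((g t : J) : S) = y := by
    intro y hy
    induction hy using Submodule.span_induction with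
    | mem y hy =>
      obtain ⟨x, hx, rfl⟩ := hy
      exact ⟨1 ⊗ₜ ⟨x, hx⟩, by rw [hg, one_mul]⟩
    | zero => exact ⟨0, by rw [map_zero]; rfl⟩
    | add y z _ _ hy hz =>
      obtain ⟨s, hs⟩ := hy
      obtain ⟨t, ht⟩ := hz
      exact ⟨s + t, by rw [map_add]; show ((g s : J) : S) + ((g t : J) : S) = _; rw [hs, ht]⟩
    | smul a y _ hy =>
      obtain ⟨s, hs⟩ := hy
      exact ⟨a • s, by rw [map_smul]; show a * ((g s : J) : S) = _; rw [hs]; rfl⟩
  refine LinearEquiv.ofBijective g (Module.Invertible.bijective_of_surjective ?_)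
  rintro ⟨y, hy⟩
  have hy2 : y ∈ Submodule.span S (φ '' (I : Set R)) := by
    have h3 : y ∈ I.map φ := by rw [h]; exact hy
    exact h3
  obtain ⟨t, ht⟩ := key y hy2
  exact ⟨t, Subtype.ext ht⟩

variable {N : ℕ} {E E' : Type u} [Field E] [Field E'] {f : E[X]} {f' : E'[X]} [hG : IsGood N f]
  [hG' : IsGood N f']

lemma R09_unif (θ : E) : ((unif θ : (FunField N f)ˣ) : FunField N f) =
    yF ^ al N (wt f θ) * (polyF (X - C θ) ^ be N (wt f θ))⁻¹ := by
  unfold unif
  rw [Units.val_mul, Units.val_pow_eq_pow_val, Units.val_inv_eq_inv_val, Units.val_pow_eq_pow_val]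
  rfl

lemma funMap_unif (σ : E →+* E') (h : f.map σ = f') (θ : E) :
    funMap N σ h ((unif θ : (FunField N f)ˣ) : FunField N f) =
      ((unif (σ θ) : (FunField N f')ˣ) : FunField N f') := by
  rw [R09_unif, R09_unif, map_mul, map_inv₀, map_pow, map_pow, funMap_yF, funMap_polyF, wt_map σ h,
    Polynomial.map_sub, map_X, map_C]

omit hG' in
lemma R09_mem_map {σ : E →+* E'} {h : f.map σ = f'} {P : Pt N f} {a : NRing N f}
    (ha : evalPt P a = 0) : coordMap N σ h a ∈ P.ideal.map (coordMap N σ h) :=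
  Ideal.mem_map_of_mem _ ((mem_ideal P a).mpr ha)

/-- The image of the ideal of `P` is not contained in the square of the ideal of the image. -/
lemma R09_not_le (σ : E →+* E') (h : f.map σ = f') (P : Pt N f) :
    ¬ P.ideal.map (coordMap N σ h) ≤ (Pt.map σ h P).ideal ^ 2 := by
  intro hle
  have hx : (Pt.map σ h P).x = σ P.x := rfl
  have hy : (Pt.map σ h P).y = σ P.y := rfl
  by_cases hy0 : P.y = 0
  · -- the ramified case
    have hθ : f.eval P.x = 0 := eval_of_y_eq_zero P hy0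
    obtain ⟨a, ha⟩ := exists_unif (N := N) hθ
    have h1 : evalPt P a = 0 := by
      rw [← ord_pos_iff P a (unif P.x) ha.symm, ord_unif P hy0]
      exact one_pos
    have h2 := hle (R09_mem_map (σ := σ) (h := h) h1)
    have hy0' : (Pt.map σ h P).y = 0 := by rw [hy, hy0, map_zero]
    have h3 : ((unif (Pt.map σ h P).x : (FunField N f')ˣ) : FunField N f') =
        algebraMap (NRing N f') (FunField N f') (coordMap N σ h a) := by
      rw [hx, ← funMap_unif σ h, ← ha]
      rfl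
    have h4 := ord_unif (Pt.map σ h P) hy0'
    unfold ord at h4
    rw [h3, HeightOneSpectrum.valuation_of_algebraMap] at h4
    have h5 := ((Pt.map σ h P).hs.intValuation_le_pow_iff_mem (coordMap N σ h a) 2).mpr h2
    have h0 : coordMap N σ h a ≠ 0 := by
      intro h0
      rw [h0, map_zero] at h3
      exact (unif (Pt.map σ h P).x : (FunField N f')ˣ).ne_zero h3
    have h6 := (WithZero.log_le_iff_le_exp ((Pt.map σ h P).hs.intValuation_ne_zero _ h0)).mpr h5
    push_cast at h6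
    omega
  · have h1 : evalPt P (ofPoly (X - C P.x)) = 0 := by
      rw [evalPt_ofPoly, eval_sub, eval_X, eval_C, sub_self]
    have h2 := hle (R09_mem_map (σ := σ) (h := h) h1)
    rw [coordMap_ofPoly, Polynomial.map_sub, map_X, map_C] at h2
    refine (ofPoly_sub_pow (Pt.map σ h P)).1 ?_ h2
    rw [hy]
    exact (_root_.map_ne_zero σ).mpr hy0

lemma map_ideal (σ : E →+* E') (h : f.map σ = f') (P : Pt N f) :
    P.ideal.map (coordMap N σ h) = (Pt.map σ h P).ideal := by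
  have hle : P.ideal.map (coordMap N σ h) ≤ (Pt.map σ h P).ideal := by
    rw [Ideal.map_le_iff_le_comap]
    intro a ha
    rw [Ideal.mem_comap, mem_ideal, evalPt_coordMap, (mem_ideal P a).mp ha, map_zero]
  obtain ⟨K, hK⟩ := Ideal.dvd_iff_le.mpr hle
  by_cases hKt : K = ⊤
  · rw [hK, hKt, Ideal.mul_top]
  · exfalso
    obtain ⟨M, hM, hKM⟩ := Ideal.exists_le_maximal K hKt
    have hx : evalPt P (ofPoly (X - C P.x)) = 0 := by
      rw [evalPt_ofPoly, eval_sub, eval_X, eval_C, sub_self]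
    have hy : evalPt P (yy - ofPoly (C P.y)) = 0 := by
      rw [map_sub, evalPt_yy, evalPt_ofPoly, eval_C, sub_self]
    have hJM : P.ideal.map (coordMap N σ h) ≤ M := by
      rw [hK]
      exact Ideal.mul_le_right.trans hKM
    have hxM : (ofPoly (X - C (σ P.x)) : NRing N f') ∈ M := by
      have h1 := hJM (R09_mem_map (σ := σ) (h := h) hx)
      rwa [coordMap_ofPoly, Polynomial.map_sub, map_X, map_C] at h1
    have hyM : (yy - ofPoly (C (σ P.y)) : NRing N f') ∈ M := by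
      have h1 := hJM (R09_mem_map (σ := σ) (h := h) hy)
      rwa [map_sub, coordMap_yy, coordMap_ofPoly, map_C] at h1
    have hM0 : M ≠ ⊥ := by
      intro h0
      rw [h0, Ideal.mem_bot] at hxM
      exact X_sub_C_ne_zero _ (ofPoly_injective (N := N) (f := f') (hxM.trans (map_zero _).symm))
    obtain ⟨Q, hQ⟩ := exists_pt_of_prime M hM.isPrime hM0
    rw [← hQ, mem_ideal, evalPt_ofPoly, eval_sub, eval_X, eval_C, sub_eq_zero] at hxM
    rw [← hQ, mem_ideal, map_sub, evalPt_yy, evalPt_ofPoly, eval_C, sub_eq_zero] at hyM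
    have hQP : Q = Pt.map σ h P := Pt.ext hxM hyM
    refine R09_not_le σ h P ?_
    rw [hK, pow_two]
    refine Ideal.mul_mono_right ?_
    rw [← hQP, hQ]
    exact hKM

lemma R09_clPt (σ : E →+* E') (h : f.map σ = f') (P : Pt N f) :
    jacMap N σ h (clPt P) = clPt (Pt.map σ h P) := by
  have i1 : Module.Invertible (NRing N f) P.ideal := R09_invertible (NRing N f)
    ⟨P.ideal, mem_nonZeroDivisors_of_ne_zero P.ideal_ne_bot⟩
  have i2 : Module.Invertible (NRing N f') (Pt.map σ h P).ideal := R09_invertible (NRing N f')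
    ⟨(Pt.map σ h P).ideal, mem_nonZeroDivisors_of_ne_zero (Pt.map σ h P).ideal_ne_bot⟩
  have h1 : CommRing.Pic.mapRingHom (coordMap N σ h) (ClassGroup.equivPic (NRing N f)
      (ClassGroup.mk0 ⟨P.ideal, mem_nonZeroDivisors_of_ne_zero P.ideal_ne_bot⟩)) =
      ClassGroup.equivPic (NRing N f') (ClassGroup.mk0
        ⟨(Pt.map σ h P).ideal, mem_nonZeroDivisors_of_ne_zero (Pt.map σ h P).ideal_ne_bot⟩) := by
    rw [R09_equivPic_mk0, R09_equivPic_mk0]
    refine R09_map (coordMap N σ h) P.ideal (Pt.map σ h P).ideal ?_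
    exact map_ideal σ h P
  exact congrArg Additive.ofMul h1

lemma jacMap_cl (σ : E →+* E') (h : f.map σ = f') (D : Pt N f →₀ ℤ) :
    jacMap N σ h (cl D) = cl (D.mapDomain (Pt.map σ h)) := by
  induction D using Finsupp.induction_linear with
  | zero => rw [map_zero, map_zero, Finsupp.mapDomain_zero, map_zero]
  | add D D' h1 h2 => rw [map_add, map_add, h1, h2, Finsupp.mapDomain_add, map_add]
  | single P n =>
    rw [Finsupp.mapDomain_single]
    have e1 : cl (Finsupp.single P n) = n • clPt P := by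
      rw [cl, Finsupp.liftAddHom_apply_single, zmultiplesHom_apply]
    have e2 : cl (Finsupp.single (Pt.map σ h P) n) = n • clPt (Pt.map σ h P) := by
      rw [cl, Finsupp.liftAddHom_apply_single, zmultiplesHom_apply]
    rw [e1, e2, map_zsmul, R09_clPt]

/-- The action of `Sym f` on the Jacobian. -/
noncomputable def symJ (σ : Sym f) : Jac N f →+ Jac N f :=
  jacMap N ((σ : E ≃+* E) : E →+* E) σ.2

lemma symJ_cl (σ : Sym f) (D : Pt N f →₀ ℤ) :
    symJ σ (cl D) = cl (D.mapDomain (Pt.sym σ)) := jacMap_cl _ _ D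

end Pool.Agent.Lib.MP_89bcae_ag.Wt

end
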