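import Mathlib
import Pool.Agent.Lib.MP_89bcae_ag.Defs8
import Pool.Agent.Lib.MP_89bcae_ag.Tk.K000

set_option linter.all false

section

attribute [local instance 100000] Pool.Agent.Lib.MP_89bcae_ag.Brt.tffFields

section

/-!
# Invariant classes in the `ℓ`-adic Selmer group of the Jacobian of `D(t) y ^ ℓ = g(x) - t`

`k` is a field, `F` an algebraic closure of `k`, `L` the field of rational functions `F(t)` and `Ω`
an algebraic closure of `L`.
-/

open Polynomial IsDedekindDomain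

open scoped Classical

namespace Pool.Agent.Lib.MP_89bcae_ag.Sup

universe u

/-- The coordinate ring `A[x, y] / (y ^ ℓ - f(x))` of the affine curve `y ^ ℓ = f(x)`. -/
abbrev Coord (ℓ : ℕ) {A : Type u} [Field A] (f : A[X]) : Type u :=
  AdjoinRoot (X ^ ℓ - C f : A[X][X])

section
variable {ℓ : ℕ} {A : Type u} [Field A] {f : A[X]}

noncomputable instance (priority := 100000) coCR : CommRing (Coord ℓ f) := inferInstance
noncomputable instance (priority := 100000) coCSR : CommSemiring (Coord ℓ f) := CommRing.toCommSemiring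
noncomputable instance (priority := 100000) coR : Ring (Coord ℓ f) := CommRing.toRing
noncomputable instance (priority := 100000) coSR : Semiring (Coord ℓ f) := CommSemiring.toSemiring
noncomputable instance (priority := 100000) coNAS : NonAssocSemiring (Coord ℓ f) := Semiring.toNonAssocSemiring
noncomputable instance (priority := 100000) coNUNAS : NonUnitalNonAssocSemiring (Coord ℓ f) := NonAssocSemiring.toNonUnitalNonAssocSemiring
noncomputable instance (priority := 100000) coACG : AddCommGroup (Coord ℓ f) := Ring.toAddCommGroup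
noncomputable instance (priority := 100000) coAG : AddGroup (Coord ℓ f) := AddCommGroup.toAddGroup
noncomputable instance (priority := 100000) coACM : AddCommMonoid (Coord ℓ f) := NonUnitalNonAssocSemiring.toAddCommMonoid
noncomputable instance (priority := 100000) coAM : AddMonoid (Coord ℓ f) := AddCommMonoid.toAddMonoid
noncomputable instance (priority := 100000) coMWZ : MonoidWithZero (Coord ℓ f) := Semiring.toMonoidWithZero
noncomputable instance (priority := 100000) coM : Monoid (Coord ℓ f) := MonoidWithZero.toMonoid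
noncomputable instance (priority := 100000) coCM : CommMonoid (Coord ℓ f) := CommSemiring.toCommMonoid
noncomputable instance (priority := 100000) coMul : Mul (Coord ℓ f) := NonUnitalNonAssocSemiring.toMul
noncomputable instance (priority := 100000) coAdd : Add (Coord ℓ f) := Distrib.toAdd
noncomputable instance (priority := 100000) coSub : Sub (Coord ℓ f) := Ring.toSub
noncomputable instance (priority := 100000) coNeg : Neg (Coord ℓ f) := Ring.toNeg
noncomputable instance (priority := 100000) coZero : Zero (Coord ℓ f) := MulZeroClass.toZero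
noncomputable instance (priority := 100000) coOne : One (Coord ℓ f) := inferInstance
end

/-- The Picard group of the affine curve `y ^ ℓ = f(x)`, written additively. If `f` is separable of
degree prime to `ℓ` and `A` is an algebraically closed field in which `ℓ ≠ 0`, then the smooth
projective model of the curve has one point at infinity and this is its group of divisor classes of
degree zero, the group of points over `A` of the Jacobian variety. -/
abbrev Jac (ℓ : ℕ) {A : Type u} [Field A] (f : A[X]) : Type u :=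
  Additive (CommRing.Pic (Coord ℓ f))

section
variable {ℓ : ℕ} {A : Type u} [Field A] {f : A[X]}

noncomputable instance (priority := 100000) jcACG : AddCommGroup (Jac ℓ f) := inferInstance
noncomputable instance (priority := 100000) jcAG : AddGroup (Jac ℓ f) := AddCommGroup.toAddGroup
noncomputable instance (priority := 100000) jcSNM : SubNegMonoid (Jac ℓ f) := AddGroup.toSubNegMonoid
noncomputable instance (priority := 100000) jcACM : AddCommMonoid (Jac ℓ f) := AddCommGroup.toAddCommMonoid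
noncomputable instance (priority := 100000) jcAM : AddMonoid (Jac ℓ f) := AddCommMonoid.toAddMonoid
noncomputable instance (priority := 100000) jcAZC : AddZeroClass (Jac ℓ f) := AddMonoid.toAddZeroClass
noncomputable instance (priority := 100000) jcAdd : Add (Jac ℓ f) := inferInstance
noncomputable instance (priority := 100000) jcSub : Sub (Jac ℓ f) := SubNegMonoid.toSub
noncomputable instance (priority := 100000) jcNeg : Neg (Jac ℓ f) := inferInstance
noncomputable instance (priority := 100000) jcZero : Zero (Jac ℓ f) := inferInstance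
end

/-- The homomorphism of coordinate rings induced by a homomorphism `σ` of fields which maps the
coefficients of `f` to those of `f'`. -/
noncomputable def coordMap (ℓ : ℕ) {A B : Type u} [Field A] [Field B] (σ : A →+* B) {f : A[X]}
    {f' : B[X]} (h : f.map σ = f') : Coord ℓ f →+* Coord ℓ f' :=
  AdjoinRoot.map (mapRingHom σ) _ _ (by
    rw [← h, Polynomial.map_sub, Polynomial.map_pow, Polynomial.map_X, Polynomial.map_C,
      coe_mapRingHom])

/-- The homomorphism of Jacobians induced by a homomorphism `σ` of fields which maps the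
coefficients of `f` to those of `f'`. -/
noncomputable def jacMap (ℓ : ℕ) {A B : Type u} [Field A] [Field B] (σ : A →+* B) {f : A[X]}
    {f' : B[X]} (h : f.map σ = f') : Jac ℓ f →+ Jac ℓ f' :=
  MonoidHom.toAdditive (CommRing.Pic.mapRingHom (coordMap ℓ σ h))

section

variable {L : Type u} [Field L]

/-- The points of the Jacobian of `y ^ ℓ = f(x)` over an extension `A` of the field `L` of the
coefficients of `f`. -/
abbrev JacOver (ℓ : ℕ) (f : L[X]) (A : Type u) [Field A] [Algebra L A] : Type u :=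
  Jac ℓ (f.map (algebraMap L A))

/-- The action of a homomorphism of extensions of `L` on the points of the Jacobian. -/
noncomputable def push (ℓ : ℕ) (f : L[X]) {A B : Type u} [Field A] [Field B] [Algebra L A]
    [Algebra L B] (σ : A →ₐ[L] B) : JacOver ℓ f A →+ JacOver ℓ f B :=
  jacMap ℓ (σ : A →+* B) (by rw [Polynomial.map_map, AlgHom.comp_algebraMap])

variable {Ω : Type u} [Field Ω] [Algebra L Ω]


end

/-- The polynomial `D(t)⁻¹ (g(x) - t)` in `x` over the field `L = F(t)`. -/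
noncomputable def curvePoly (k F L : Type u) [Field k] [Field F] [Algebra k F] [Field L]
    [Algebra F[X] L] (g D : k[X]) : L[X] :=
  C ((base k F L L D)⁻¹) * (g.map ((base k F L L).comp C) - C (base k F L L X))


end Pool.Agent.Lib.MP_89bcae_ag.Sup

end

section

/-!
ROW L12 (80-160 lines). Extension of automorphisms to algebraic closures, compatibly.

PROOFS. (1) As `exists_extend` in `Pool/Agent/Lib/MP_89bcae_ag/Galois.lean`, with `IsAlgClosure.equiv` (or
`IsAlgClosure.equivOfEquiv`) in place of `IsSepClosure.equiv`.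
(2) `w ∘ j : Ω → M` and `j : Ω → M`: the image of `j` is the set of the elements of `M` algebraic over the
image of `L` (`Ω` is an algebraic closure of `L`), and `w` maps the image of `L` onto itself, so
`w (j Ω) = j Ω`. See `exists_local_lift` in `Pool/Agent/Lib/MP_89bcae_ag/PlaceC8.lean`: take an
extension `γ₀` of `ψ` to `Ω` by (1); then `w ∘ j ∘ γ₀⁻¹` is a second embedding of `Ω` in `M` over `L`,
and two embeddings of a normal extension differ by an automorphism (`exists_alg_restrict`).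
(3) `M` algebraic closure of `K`: embeddings of `Ω` exist: `IsAlgClosed.lift`.
-/

open Polynomial IsDedekindDomain

open scoped Classical

namespace Pool.Agent.Lib.MP_89bcae_ag.Sup

universe u

/-- (1) -/
lemma exists_extend_alg {K M : Type u} [Field K] [Field M] [Algebra K M] [IsAlgClosure K M]
    (φ : K ≃+* K) : ∃ w : M ≃+* M, ∀ x, w (algebraMap K M x) = algebraMap K M (φ x) :=
  ⟨IsAlgClosure.equivOfEquiv M M φ, fun x => IsAlgClosure.equivOfEquiv_algebraMap M M φ x⟩

/-- two embeddings of an algebraic closure differ by an automorphism -/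
lemma exists_autL12 {L Ω M : Type u} [Field L] [Field Ω] [Field M] [Algebra L Ω] [Algebra L M]
    [IsAlgClosure L Ω] (j j' : Ω →ₐ[L] M) :
    ∃ g : Ω ≃ₐ[L] Ω, ∀ x, j (g x) = j' x := by
  haveI : Normal L Ω := IsAlgClosure.normal L Ω
  letI : Algebra Ω M := j.toRingHom.toAlgebra
  haveI : IsScalarTower L Ω M := IsScalarTower.of_algebraMap_eq (fun x => (j.commutes x).symm)
  refine ⟨AlgHom.restrictNormal' j' Ω, fun x => ?_⟩
  have h := AlgHom.restrictNormal_commutes j' Ω x
  exact h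

/-- (2) -/
lemma exists_compat {L Ω M : Type u} [Field L] [Field Ω] [Field M] [Algebra L Ω] [Algebra L M]
    [IsAlgClosure L Ω] (j : Ω →ₐ[L] M) (ψ : L ≃+* L) (w : M ≃+* M)
    (hw : ∀ x, w (algebraMap L M x) = algebraMap L M (ψ x)) :
    ∃ γ : Ω ≃+* Ω, (∀ x, γ (algebraMap L Ω x) = algebraMap L Ω (ψ x)) ∧
      ∀ x, j (γ x) = w (j x) := by
  obtain ⟨γ₀, hγ₀⟩ := exists_extend_alg (K := L) (M := Ω) ψ
  have hc : ∀ l : L, w.symm (j (γ₀ (algebraMap L Ω l))) = algebraMap L M l := by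
    intro l
    rw [hγ₀, j.commutes, ← hw, RingEquiv.symm_apply_apply]
  let j' : Ω →ₐ[L] M :=
    { toRingHom := (w.symm : M →+* M).comp (j.toRingHom.comp (γ₀ : Ω →+* Ω))
      commutes' := hc }
  obtain ⟨g, hg⟩ := exists_autL12 j j'
  have hg' : ∀ x, j (g x) = w.symm (j (γ₀ x)) := hg
  refine ⟨(g.symm : Ω ≃+* Ω).trans γ₀, fun x => ?_, fun x => ?_⟩
  · have h1 : ((g.symm : Ω ≃+* Ω).trans γ₀) (algebraMap L Ω x) = γ₀ (g.symm (algebraMap L Ω x)) := rfl
    rw [h1, AlgEquiv.commutes, hγ₀]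
  · have h1 : ((g.symm : Ω ≃+* Ω).trans γ₀) x = γ₀ (g.symm x) := rfl
    have h2 := hg' (g.symm x)
    rw [AlgEquiv.apply_symm_apply] at h2
    rw [h1, h2, RingEquiv.apply_symm_apply]

/-- An automorphism of `M` over `L` restricts to `Ω`. -/
lemma exists_restrict {L Ω M : Type u} [Field L] [Field Ω] [Field M] [Algebra L Ω] [Algebra L M]
    [IsAlgClosure L Ω] (j : Ω →ₐ[L] M) (w : M ≃ₐ[L] M) :
    ∃ g : Ω ≃ₐ[L] Ω, ∀ x, j (g x) = w (j x) :=
  exists_autL12 j ((w : M →ₐ[L] M).comp j)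

end Pool.Agent.Lib.MP_89bcae_ag.Sup

end

section

/-!
# The curve `y ^ ℓ = f(x)` over an algebraically closed field: basic definitions
-/

open Polynomial IsDedekindDomain

open scoped Classical

namespace Pool.Agent.Lib.MP_89bcae_ag.Sup

universe u

/-- The hypotheses on the curve `y ^ ℓ = f(x)`. -/
class IsGood (ℓ : ℕ) {E : Type u} [Field E] (f : E[X]) : Prop where
  alg : IsAlgClosed E
  prime : ℓ.Prime
  ne_zero : (ℓ : E) ≠ 0
  separable : f.Separable
  coprime : f.natDegree.Coprime ℓ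

section

variable (ℓ : ℕ) {E : Type u} [Field E] (f : E[X])

/-- The points of the affine curve `y ^ ℓ = f(x)`. -/
@[ext]
structure Pt where
  /-- the first coordinate -/
  x : E
  /-- the second coordinate -/
  y : E
  eq : y ^ ℓ = f.eval x

/-- The ring of functions on the curve: the field of fractions of the coordinate ring. -/
abbrev Fn : Type u := FractionRing (Coord ℓ f)

section
variable {ℓ : ℕ} {E : Type u} [Field E] {f : E[X]}

noncomputable instance (priority := 100000) fnCR : CommRing (Fn ℓ f) := inferInstance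
noncomputable instance (priority := 100000) fnCSR : CommSemiring (Fn ℓ f) := CommRing.toCommSemiring
noncomputable instance (priority := 100000) fnR : Ring (Fn ℓ f) := CommRing.toRing
noncomputable instance (priority := 100000) fnSR : Semiring (Fn ℓ f) := CommSemiring.toSemiring
noncomputable instance (priority := 100000) fnNAS : NonAssocSemiring (Fn ℓ f) := Semiring.toNonAssocSemiring
noncomputable instance (priority := 100000) fnNUNAS : NonUnitalNonAssocSemiring (Fn ℓ f) := NonAssocSemiring.toNonUnitalNonAssocSemiring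
noncomputable instance (priority := 100000) fnACG : AddCommGroup (Fn ℓ f) := Ring.toAddCommGroup
noncomputable instance (priority := 100000) fnAG : AddGroup (Fn ℓ f) := AddCommGroup.toAddGroup
noncomputable instance (priority := 100000) fnACM : AddCommMonoid (Fn ℓ f) := NonUnitalNonAssocSemiring.toAddCommMonoid
noncomputable instance (priority := 100000) fnAM : AddMonoid (Fn ℓ f) := AddCommMonoid.toAddMonoid
noncomputable instance (priority := 100000) fnMWZ : MonoidWithZero (Fn ℓ f) := Semiring.toMonoidWithZero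
noncomputable instance (priority := 100000) fnM : Monoid (Fn ℓ f) := MonoidWithZero.toMonoid
noncomputable instance (priority := 100000) fnCM : CommMonoid (Fn ℓ f) := CommSemiring.toCommMonoid
noncomputable instance (priority := 100000) fnMul : Mul (Fn ℓ f) := NonUnitalNonAssocSemiring.toMul
noncomputable instance (priority := 100000) fnAdd : Add (Fn ℓ f) := Distrib.toAdd
noncomputable instance (priority := 100000) fnSub : Sub (Fn ℓ f) := Ring.toSub
noncomputable instance (priority := 100000) fnNeg : Neg (Fn ℓ f) := Ring.toNeg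
noncomputable instance (priority := 100000) fnZero : Zero (Fn ℓ f) := MulZeroClass.toZero
noncomputable instance (priority := 100000) fnOne : One (Fn ℓ f) := inferInstance
end

section
variable {ℓ : ℕ} {E : Type u} [Field E] {f : E[X]}
noncomputable instance (priority := 100000) fnAlg : Algebra (Coord ℓ f) (Fn ℓ f) := inferInstance
end

end

section

variable {ℓ : ℕ} {E : Type u} [Field E] {f : E[X]}

/-- The function `p(x)` on the curve, for a polynomial `p`. -/
noncomputable def ofPoly : E[X] →+* Coord ℓ f := AdjoinRoot.of (X ^ ℓ - C f : E[X][X])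

/-- The function `y` on the curve. -/
noncomputable def yy : Coord ℓ f := AdjoinRoot.root (X ^ ℓ - C f : E[X][X])

lemma yy_pow : (yy : Coord ℓ f) ^ ℓ = ofPoly f := by
  have h := AdjoinRoot.eval₂_root (X ^ ℓ - C f : E[X][X])
  rw [eval₂_sub, eval₂_pow, eval₂_X, eval₂_C, sub_eq_zero] at h
  exact h

/-- The value of a function of the coordinate ring at a point. -/
noncomputable def evalPt (P : Pt ℓ f) : Coord ℓ f →+* E :=
  AdjoinRoot.lift (evalRingHom P.x) P.y (by
    rw [eval₂_sub, eval₂_pow, eval₂_X, eval₂_C, coe_evalRingHom, P.eq, sub_self])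

@[simp] lemma evalPt_ofPoly (P : Pt ℓ f) (p : E[X]) : evalPt P (ofPoly p) = p.eval P.x := by
  rw [evalPt, ofPoly, AdjoinRoot.lift_of, coe_evalRingHom]

@[simp] lemma evalPt_yy (P : Pt ℓ f) : evalPt P yy = P.y := by
  rw [evalPt, yy, AdjoinRoot.lift_root]

/-- The ideal of a point. -/
noncomputable def Pt.ideal (P : Pt ℓ f) : Ideal (Coord ℓ f) := RingHom.ker (evalPt P)

/-- The point `(x, ζ y)`. -/
def Pt.rot (ζ : E) (hζ : ζ ^ ℓ = 1) (P : Pt ℓ f) : Pt ℓ f :=
  ⟨P.x, ζ * P.y, by rw [mul_pow, hζ, one_mul, P.eq]⟩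

/-- The image of a point under a homomorphism of fields. -/
def Pt.map {E' : Type u} [Field E'] {f' : E'[X]} (σ : E →+* E') (h : f.map σ = f')
    (P : Pt ℓ f) : Pt ℓ f' :=
  ⟨σ P.x, σ P.y, by rw [← map_pow, P.eq, ← h, Polynomial.eval_map, Polynomial.eval₂_hom]⟩

/-- The automorphism `y ↦ ζ y` of the coordinate ring. -/
noncomputable def rotC (ζ : E) (hζ : ζ ^ ℓ = 1) : Coord ℓ f →+* Coord ℓ f :=
  AdjoinRoot.lift ofPoly (ofPoly (C ζ) * yy) (by
    rw [eval₂_sub, eval₂_pow, eval₂_X, eval₂_C, mul_pow, ← map_pow, ← C_pow, hζ, C_1, map_one,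
      one_mul, yy_pow, sub_self])

@[simp] lemma rotC_ofPoly (ζ : E) (hζ : ζ ^ ℓ = 1) (p : E[X]) :
    rotC ζ hζ (ofPoly p : Coord ℓ f) = ofPoly p := by
  unfold rotC
  exact AdjoinRoot.lift_of _

@[simp] lemma rotC_yy (ζ : E) (hζ : ζ ^ ℓ = 1) :
    rotC ζ hζ (yy : Coord ℓ f) = ofPoly (C ζ) * yy := by
  unfold rotC
  exact AdjoinRoot.lift_root _

end

end Pool.Agent.Lib.MP_89bcae_ag.Sup

end

section

/-!
ROW R01 (80-150 lines). The coordinate ring `E[x, y] / (y ^ ℓ - f(x))` is a domain, with the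
`E[x]`-basis `1, y, ..., y ^ (ℓ - 1)`; uniqueness and existence of the expansion, the norm.

PROOF. `E` is algebraically closed and `deg f` is prime to the prime `ℓ`, so `deg f ≠ 0`
(`Nat.Coprime 0 ℓ ↔ ℓ = 1`); let `θ` be a root of `f`, it is simple as `f` is separable. `Y ^ ℓ - f`
in `E[X][Y]` is Eisenstein at the prime ideal `(X - θ)` (`f ∈ (X - θ)`, `f ∉ (X - θ) ^ 2`), monic,
so irreducible (`Polynomial.IsEisensteinAt.irreducible`), hence prime since `E[X][Y]` is a UFD;
`AdjoinRoot.isDomain_of_prime`. The expansion: `AdjoinRoot.powerBasis'` (the polynomial is monic),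
or `Polynomial.modByMonic` / `AdjoinRoot.modByMonicHom`.
-/

open Polynomial IsDedekindDomain

open scoped Classical

namespace Pool.Agent.Lib.MP_89bcae_ag.Sup

universe u

variable {ℓ : ℕ} {E : Type u} [Field E] {f : E[X]}

lemma monic_eqn (hℓ : ℓ ≠ 0) : (X ^ ℓ - C f : E[X][X]).Monic :=
  Polynomial.monic_X_pow_sub_C f hℓ

lemma r01_natDegree : (X ^ ℓ - C f : E[X][X]).natDegree = ℓ :=
  Polynomial.natDegree_X_pow_sub_C

/-- Expansion of an element of the coordinate ring. -/
lemma exists_expand (hℓ : ℓ ≠ 0) (a : Coord ℓ f) :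
    ∃ p : ℕ → E[X], a = ∑ i ∈ Finset.range ℓ, ofPoly (p i) * yy ^ i := by
  obtain ⟨P, rfl⟩ := AdjoinRoot.mk_surjective a
  have hm := monic_eqn (f := f) hℓ
  have hne : (X ^ ℓ - C f : E[X][X]) ≠ 1 := by
    intro h
    have h1 := r01_natDegree (ℓ := ℓ) (f := f)
    rw [h, natDegree_one] at h1
    exact hℓ h1.symm
  have hlt : (P %ₘ (X ^ ℓ - C f : E[X][X])).natDegree < ℓ := by
    have h1 := natDegree_modByMonic_lt P hm hne
    rwa [r01_natDegree] at h1
  refine ⟨fun i => (P %ₘ (X ^ ℓ - C f : E[X][X])).coeff i, ?_⟩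
  have h1 : AdjoinRoot.mk (X ^ ℓ - C f : E[X][X]) P =
      AdjoinRoot.mk (X ^ ℓ - C f : E[X][X]) (P %ₘ (X ^ ℓ - C f : E[X][X])) := by
    rw [AdjoinRoot.mk_eq_mk]
    refine ⟨P /ₘ (X ^ ℓ - C f : E[X][X]), ?_⟩
    have h2 := modByMonic_add_div P (X ^ ℓ - C f : E[X][X])
    linear_combination -h2
  rw [h1]
  conv_lhs => rw [as_sum_range' _ ℓ hlt]
  rw [map_sum]
  refine Finset.sum_congr rfl (fun i _ => ?_)
  rw [← C_mul_X_pow_eq_monomial, map_mul, map_pow, AdjoinRoot.mk_C, AdjoinRoot.mk_X]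
  rfl

/-- Uniqueness of the expansion. -/
lemma expand_unique (hℓ : ℓ ≠ 0) (p : ℕ → E[X])
    (h : ∑ i ∈ Finset.range ℓ, (ofPoly (p i) : Coord ℓ f) * yy ^ i = 0) :
    ∀ i < ℓ, p i = 0 := by
  have hm := monic_eqn (f := f) hℓ
  have h1 : AdjoinRoot.mk (X ^ ℓ - C f : E[X][X]) (∑ i ∈ Finset.range ℓ, C (p i) * X ^ i) = 0 := by
    rw [map_sum, ← h]
    refine Finset.sum_congr rfl (fun i _ => ?_)
    rw [map_mul, map_pow, AdjoinRoot.mk_C, AdjoinRoot.mk_X]
    rfl
  rw [AdjoinRoot.mk_eq_zero] at h1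
  have hQ : (∑ i ∈ Finset.range ℓ, C (p i) * X ^ i : E[X][X]) = 0 := by
    by_contra hne
    refine hm.not_dvd_of_natDegree_lt hne ?_ h1
    rw [r01_natDegree]
    have h3 : (∑ i ∈ Finset.range ℓ, C (p i) * X ^ i : E[X][X]).natDegree ≤ ℓ - 1 := by
      refine natDegree_sum_le_of_forall_le _ _ (fun i hi => ?_)
      refine (natDegree_C_mul_X_pow_le (p i) i).trans ?_
      have h4 := Finset.mem_range.1 hi
      omega
    omega
  intro i hi
  have h3 : (∑ i ∈ Finset.range ℓ, C (p i) * X ^ i : E[X][X]).coeff i = p i := by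
    rw [finsetSum_coeff, Finset.sum_eq_single i]
    · rw [coeff_C_mul_X_pow, if_pos rfl]
    · intro j _ hj
      rw [coeff_C_mul_X_pow, if_neg (Ne.symm hj)]
    · intro h4
      exact absurd (Finset.mem_range.2 hi) h4
  rw [← h3, hQ, coeff_zero]

lemma ofPoly_injective (hℓ : ℓ ≠ 0) : Function.Injective (ofPoly : E[X] →+* Coord ℓ f) := by
  refine AdjoinRoot.of.injective_of_degree_ne_zero ?_
  rw [degree_X_pow_sub_C (Nat.pos_of_ne_zero hℓ)]
  exact_mod_cast hℓ

lemma IsGood.natDegree_ne_zero [hG : IsGood ℓ f] : f.natDegree ≠ 0 := by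
  intro h
  have h1 := hG.coprime
  rw [h, Nat.coprime_zero_left] at h1
  exact hG.prime.one_lt.ne' h1

lemma IsGood.exists_root [hG : IsGood ℓ f] : ∃ θ, f.eval θ = 0 := by
  have := hG.alg
  have hd : f.degree ≠ 0 := by
    intro h
    exact IsGood.natDegree_ne_zero (hG := hG) (natDegree_eq_of_degree_eq_some h)
  obtain ⟨θ, hθ⟩ := IsAlgClosed.exists_root f hd
  exact ⟨θ, hθ⟩

instance isDomain_coord [hG : IsGood ℓ f] : IsDomain (Coord ℓ f) := by
  have hℓ : ℓ ≠ 0 := hG.prime.ne_zero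
  obtain ⟨θ, hθ⟩ := IsGood.exists_root (hG := hG)
  have hdvd : X - C θ ∣ f := dvd_iff_isRoot.2 hθ
  have hm := monic_eqn (f := f) hℓ
  have hP : (Ideal.span {X - C θ} : Ideal E[X]).IsPrime :=
    (Ideal.span_singleton_prime (X_sub_C_ne_zero θ)).2 (prime_X_sub_C θ)
  have hE : (X ^ ℓ - C f : E[X][X]).IsEisensteinAt (Ideal.span {X - C θ}) := by
    refine ⟨?_, ?_, ?_⟩
    · rw [hm.leadingCoeff]
      exact (Ideal.ne_top_iff_one _).1 hP.ne_top
    · intro n hn
      rw [r01_natDegree] at hn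
      rw [coeff_sub, coeff_X_pow, if_neg hn.ne, zero_sub, coeff_C]
      split_ifs
      · exact (Ideal.span {X - C θ}).neg_mem (Ideal.mem_span_singleton.2 hdvd)
      · rw [neg_zero]
        exact (Ideal.span {X - C θ}).zero_mem
    · rw [coeff_sub, coeff_X_pow, if_neg (Ne.symm hℓ), zero_sub, coeff_C_zero,
        Ideal.span_singleton_pow, Ideal.mem_span_singleton, dvd_neg]
      intro h
      rw [pow_two] at h
      exact not_isUnit_X_sub_C θ (hG.separable.squarefree _ h)
  have hirr : Irreducible (X ^ ℓ - C f : E[X][X]) := by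
    refine hE.irreducible hP hm.isPrimitive ?_
    rw [r01_natDegree]
    exact Nat.pos_of_ne_zero hℓ
  exact AdjoinRoot.isDomain_of_prime hirr.prime

section
variable {ℓ : ℕ} {E : Type u} [Field E] {f : E[X]} [IsGood ℓ f]

noncomputable instance (priority := 100000) fnF : Field (Fn ℓ f) := inferInstance
noncomputable instance (priority := 100000) fnDR : DivisionRing (Fn ℓ f) := Field.toDivisionRing
noncomputable instance (priority := 100000) fnSF : Semifield (Fn ℓ f) := Field.toSemifield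
noncomputable instance (priority := 100000) fnDS : DivisionSemiring (Fn ℓ f) := Semifield.toDivisionSemiring
noncomputable instance (priority := 100000) fnGWZ : GroupWithZero (Fn ℓ f) := DivisionSemiring.toGroupWithZero
noncomputable instance (priority := 100000) fnInv : Inv (Fn ℓ f) := inferInstance
instance (priority := 100000) fnNt : Nontrivial (Fn ℓ f) := inferInstance
instance (priority := 100000) fnDom : IsDomain (Fn ℓ f) := inferInstance
end

end Pool.Agent.Lib.MP_89bcae_ag.Sup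

end

section

/-!
ROW R02 (150-300 lines). Points = maximal ideals, and the coordinate ring is a Dedekind domain.

PROOF. (1) `evalPt P` is surjective onto the field `E` (it maps `ofPoly (C c)` to `c`), so its
kernel is maximal; it is not zero: it contains `ofPoly (X - C P.x)`, which is not `0` by
`ofPoly_injective`.
(2) Let `I` be a nonzero prime ideal. `Coord ℓ f` is integral over `E[X]` (monic equation), so
`J = I.comap ofPoly` is a nonzero prime of the PID `E[X]` (a nonzero `a ∈ I` satisfies a monic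
equation of minimal degree with nonzero constant term in `J`; Mathlib:
`Ideal.comap_ne_bot_of_integral_mem`); as `E` is algebraically closed `J = (X - a)`. The residue
`b` of `y` modulo `I`: `Coord/I` is a domain, integral over `E[X]/J = E`, so equal to `E`; concretely
`y ^ ℓ - f(a) ∈ I` and `T ^ ℓ - f(a) = ∏ (T - bᵢ)` in `E[T]`, so by primality `y - b ∈ I` for some
`b` with `b ^ ℓ = f(a)`. So `I` contains `ofPoly (X - C a)` and `yy - ofPoly (C b)`, hence contains
the kernel of `evalPt P`, `P = (a, b)` (every element is congruent to its value modulo these two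
elements: use `exists_expand` or `AdjoinRoot.induction_on`), which is maximal.
(3) Dedekind: noetherian (quotient of `E[X][Y]`), dimension at most one by (2), integrally closed:
it is enough (`isDedekindDomain` from `IsDedekindDomainDvr`, `IsDedekindDomainDvr.isDedekindDomain`)
that the localization at each `P.ideal` is a discrete valuation ring, and for a noetherian local
domain which is not a field it is enough that the maximal ideal is principal
(`tfae_of_isNoetherianRing_of_isLocalRing_of_isDomain` / `IsDiscreteValuationRing.TFAE`).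
`P.ideal = (x - a, y - b)`. If `b ≠ 0`: `(y - b) (∑ y ^ i b ^ (ℓ-1-i)) = f(x) - f(a) ∈ (x - a)` and
the second factor takes the value `ℓ b ^ (ℓ - 1) ≠ 0` at `P`, so it is a unit in the localization:
the maximal ideal is generated by `x - a`. If `b = 0`: `f = (x - a) g` with `g(a) ≠ 0` (`f` is
separable), so `x - a = y ^ ℓ / g` in the localization and the maximal ideal is generated by `y`.
-/

open Polynomial IsDedekindDomain

open scoped Classical

namespace Pool.Agent.Lib.MP_89bcae_ag.Sup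

universe u

variable {ℓ : ℕ} {E : Type u} [Field E] {f : E[X]}

lemma Pt.ideal_isMaximal (P : Pt ℓ f) : P.ideal.IsMaximal := by
  refine RingHom.ker_isMaximal_of_surjective (evalPt P) ?_
  intro c
  exact ⟨ofPoly (C c), by rw [evalPt_ofPoly, eval_C]⟩

lemma R02_mem (P : Pt ℓ f) (a : Coord ℓ f) : a ∈ P.ideal ↔ evalPt P a = 0 := Iff.rfl

lemma R02_memx (P : Pt ℓ f) : ofPoly (X - C P.x) ∈ P.ideal := by
  rw [R02_mem, evalPt_ofPoly, eval_sub, eval_X, eval_C, sub_self]

lemma R02_memy (P : Pt ℓ f) : yy - ofPoly (C P.y) ∈ P.ideal := by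
  rw [R02_mem, map_sub, evalPt_yy, evalPt_ofPoly, eval_C, sub_self]

lemma R02_mod (P : Pt ℓ f) (a : Coord ℓ f) : a - ofPoly (C (evalPt P a)) ∈
    Ideal.span {(ofPoly (X - C P.x) : Coord ℓ f), yy - ofPoly (C P.y)} := by
  set J : Ideal (Coord ℓ f) :=
    Ideal.span {(ofPoly (X - C P.x) : Coord ℓ f), yy - ofPoly (C P.y)} with hJ
  have hx : (ofPoly (X - C P.x) : Coord ℓ f) ∈ J := Ideal.subset_span (by simp)
  have hy : (yy - ofPoly (C P.y) : Coord ℓ f) ∈ J := Ideal.subset_span (by simp)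
  have key : (Ideal.Quotient.mk J) = (((Ideal.Quotient.mk J).comp ofPoly).comp C).comp (evalPt P) := by
    apply AdjoinRoot.ringHom_ext
    · refine RingHom.ext fun p => ?_
      show Ideal.Quotient.mk J (ofPoly p) = Ideal.Quotient.mk J (ofPoly (C (evalPt P (ofPoly p))))
      rw [evalPt_ofPoly, Ideal.Quotient.eq, ← map_sub]
      obtain ⟨q, hq⟩ := X_sub_C_dvd_sub_C_eval (a := P.x) (p := p)
      rw [hq, map_mul]
      exact J.mul_mem_right _ hx
    · show Ideal.Quotient.mk J yy = Ideal.Quotient.mk J (ofPoly (C (evalPt P yy)))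
      rw [evalPt_yy, Ideal.Quotient.eq]
      exact hy
  have h1 := congrArg (fun g : Coord ℓ f →+* (Coord ℓ f ⧸ J) => g a) key
  have h2 : Ideal.Quotient.mk J a = Ideal.Quotient.mk J (ofPoly (C (evalPt P a))) := h1
  exact Ideal.Quotient.eq.1 h2

lemma Pt.ideal_eq_span (P : Pt ℓ f) :
    P.ideal = Ideal.span {ofPoly (X - C P.x), yy - ofPoly (C P.y)} := by
  apply le_antisymm
  · intro a ha
    have h1 := R02_mod P a
    rw [R02_mem] at ha
    rw [ha, C_0, map_zero, sub_zero] at h1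
    exact h1
  · rw [Ideal.span_le]
    intro a ha
    rcases ha with rfl | ha
    · exact R02_memx P
    · rw [Set.mem_singleton_iff.1 ha]
      exact R02_memy P

lemma Pt.ideal_ne_bot [hG : IsGood ℓ f] (P : Pt ℓ f) : P.ideal ≠ ⊥ := by
  intro h
  have h1 := R02_memx P
  rw [h, Ideal.mem_bot] at h1
  have h2 : (X - C P.x : E[X]) = 0 :=
    ofPoly_injective (f := f) hG.prime.ne_zero (by rw [h1, map_zero])
  exact X_sub_C_ne_zero _ h2

lemma Pt.ideal_injective : Function.Injective (Pt.ideal : Pt ℓ f → Ideal (Coord ℓ f)) := by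
  intro P Q h
  have h1 := R02_memx P
  have h2 := R02_memy P
  rw [h, R02_mem, evalPt_ofPoly, eval_sub, eval_X, eval_C, sub_eq_zero] at h1
  rw [h, R02_mem, map_sub, evalPt_yy, evalPt_ofPoly, eval_C, sub_eq_zero] at h2
  exact Pt.ext h1.symm h2.symm

/-- a value of a nonzero polynomial in a prime ideal: one of the linear factors is in the ideal -/
lemma R02_factor [IsAlgClosed E] {R : Type*} [CommRing R] (φ : E →+* R) {I : Ideal R}
    (hI : I.IsPrime) (r : R) : ∀ (n : ℕ) (q : E[X]), q.natDegree = n → q ≠ 0 → eval₂ φ r q ∈ I →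
      ∃ b, q.eval b = 0 ∧ r - φ b ∈ I := by
  intro n
  induction n with
  | zero =>
    intro q hn hq hmem
    exfalso
    rw [Polynomial.natDegree_eq_zero] at hn
    obtain ⟨c, rfl⟩ := hn
    have hc : c ≠ 0 := by
      rintro rfl
      exact hq C_0
    rw [eval₂_C] at hmem
    have hu : IsUnit (φ c) := (IsUnit.mk0 c hc).map φ
    exact hI.ne_top (Ideal.eq_top_of_isUnit_mem I hmem hu)
  | succ n ih =>
    intro q hn hq hmem
    obtain ⟨b, hb⟩ := IsAlgClosed.exists_root q (by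
      rw [Polynomial.degree_eq_natDegree hq, hn]
      exact_mod_cast Nat.succ_ne_zero n)
    obtain ⟨q', hq'⟩ := dvd_iff_isRoot.2 hb
    have hq'0 : q' ≠ 0 := by
      rintro rfl
      rw [mul_zero] at hq'
      exact hq hq'
    have hdeg : q'.natDegree = n := by
      have h1 := congrArg natDegree hq'
      rw [natDegree_mul (X_sub_C_ne_zero b) hq'0, natDegree_X_sub_C, hn] at h1
      omega
    rw [hq', eval₂_mul, eval₂_sub, eval₂_X, eval₂_C] at hmem
    rcases hI.mem_or_mem hmem with h1 | h1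
    · exact ⟨b, hb, h1⟩
    · obtain ⟨b', hb', hmem'⟩ := ih q' hdeg hq'0 h1
      refine ⟨b', ?_, hmem'⟩
      rw [hq', eval_mul, hb', mul_zero]

lemma exists_pt_of_prime [hG : IsGood ℓ f] (I : Ideal (Coord ℓ f)) (hI : I.IsPrime)
    (h0 : I ≠ ⊥) : ∃ P : Pt ℓ f, P.ideal = I := by
  have halg : IsAlgClosed E := hG.alg
  have hℓ : ℓ ≠ 0 := hG.prime.ne_zero
  -- a nonzero polynomial in `I`
  obtain ⟨q, hq0, hqI⟩ : ∃ q : E[X], q ≠ 0 ∧ ofPoly q ∈ I := by
    have hfin : Module.Finite E[X] (AdjoinRoot (X ^ ℓ - C f : E[X][X])) :=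
      (monic_eqn (f := f) hℓ).finite_adjoinRoot
    obtain ⟨a, haI, ha0⟩ := Submodule.exists_mem_ne_zero_of_ne_bot h0
    have hint : IsIntegral E[X] a := Algebra.IsIntegral.isIntegral a
    have h1 := Ideal.comap_ne_bot_of_integral_mem ha0 haI hint
    obtain ⟨q, hq, hq0⟩ := Submodule.exists_mem_ne_zero_of_ne_bot h1
    exact ⟨q, hq0, hq⟩
  have e1 : ∀ q : E[X], eval₂ ((ofPoly : E[X] →+* Coord ℓ f).comp C) (ofPoly X) q = ofPoly q := by
    intro q
    rw [← Polynomial.hom_eval₂, eval₂_C_X]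
  obtain ⟨a, _, ha⟩ := R02_factor ((ofPoly : E[X] →+* Coord ℓ f).comp C) hI (ofPoly X) _ q rfl hq0
    (by rw [e1]; exact hqI)
  have ha' : ofPoly (X - C a) ∈ I := by
    rw [map_sub]; exact ha
  obtain ⟨b, hb, hbI⟩ := R02_factor ((ofPoly : E[X] →+* Coord ℓ f).comp C) hI yy _
    (X ^ ℓ - C (f.eval a)) rfl (X_pow_sub_C_ne_zero hG.prime.pos _) (by
      rw [eval₂_sub, eval₂_pow, eval₂_X, eval₂_C, yy_pow]
      show ofPoly f - ofPoly (C (f.eval a)) ∈ I
      rw [← map_sub]
      obtain ⟨g, hg⟩ := X_sub_C_dvd_sub_C_eval (a := a) (p := f)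
      rw [hg, map_mul]
      exact I.mul_mem_right _ ha')
  rw [eval_sub, eval_pow, eval_X, eval_C, sub_eq_zero] at hb
  refine ⟨⟨a, b, hb⟩, ?_⟩
  refine (Pt.ideal_isMaximal _).eq_of_le hI.ne_top ?_
  rw [Pt.ideal_eq_span, Ideal.span_le]
  intro c hc
  rcases hc with rfl | hc
  · exact ha'
  · rw [Set.mem_singleton_iff.1 hc]
    exact hbI

lemma R02_dvd {R : Type*} [CommRing R] {I : Ideal R} [hI : I.IsPrime] {s u v w : R} (hs : s ∉ I)
    (h : s * u = v * w) : algebraMap R (Localization.AtPrime I) v ∣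
      algebraMap R (Localization.AtPrime I) u := by
  have hu : IsUnit (algebraMap R (Localization.AtPrime I) s) :=
    (IsLocalization.AtPrime.isUnit_to_map_iff (Localization.AtPrime I) I s).2 hs
  have h1 := congrArg (algebraMap R (Localization.AtPrime I)) h
  rw [map_mul, map_mul] at h1
  rw [← hu.dvd_mul_left]
  exact ⟨_, h1⟩

lemma R02_principal {R : Type*} [CommRing R] {I : Ideal R} [hI : I.IsPrime] {u v : R}
    (hspan : I = Ideal.span {u, v})
    (h : algebraMap R (Localization.AtPrime I) v ∣ algebraMap R (Localization.AtPrime I) u) :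
    (IsLocalRing.maximalIdeal (Localization.AtPrime I)).IsPrincipal := by
  refine ⟨⟨algebraMap R (Localization.AtPrime I) v, ?_⟩⟩
  rw [← IsLocalization.AtPrime.map_eq_maximalIdeal I (Localization.AtPrime I)]
  have e1 : I.map (algebraMap R (Localization.AtPrime I)) =
      (Ideal.span {u, v}).map (algebraMap R (Localization.AtPrime I)) :=
    congrArg (Ideal.map (algebraMap R (Localization.AtPrime I))) hspan
  rw [e1, Ideal.map_span, Set.image_pair]
  apply le_antisymm
  · rw [Ideal.span_le]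
    intro c hc
    rcases hc with rfl | hc
    · obtain ⟨d, hd⟩ := h
      rw [hd]
      exact Ideal.mul_mem_right _ _ (Ideal.subset_span (Set.mem_singleton _))
    · exact Ideal.subset_span hc
  · exact Ideal.span_mono (fun c hc => Or.inr hc)

lemma R02_localPrincipal [hG : IsGood ℓ f] (P : Pt ℓ f) (hI : P.ideal.IsPrime) :
    (IsLocalRing.maximalIdeal (Localization.AtPrime P.ideal)).IsPrincipal := by
  by_cases hy : P.y = 0
  · have hfa : f.eval P.x = 0 := by
      rw [← P.eq, hy, zero_pow hG.prime.ne_zero]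
    obtain ⟨g, hg⟩ := dvd_iff_isRoot.2 hfa
    have hga : g.eval P.x ≠ 0 := by
      intro h0
      have h1 := hG.separable.eval₂_derivative_ne_zero (RingHom.id E) (x := P.x)
        (by rw [eval₂_id]; exact hfa)
      apply h1
      have h2 := congrArg derivative hg
      rw [derivative_mul, derivative_sub, derivative_X, derivative_C, sub_zero, one_mul] at h2
      rw [eval₂_id, h2, eval_add, eval_mul, eval_sub, eval_X, eval_C, sub_self, zero_mul, add_zero,
        h0]
    refine R02_principal (Pt.ideal_eq_span P) (R02_dvd (s := ofPoly g) (w := yy ^ (ℓ - 1)) ?_ ?_)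
    · rw [R02_mem, evalPt_ofPoly]
      exact hga
    · rw [hy, C_0, map_zero, sub_zero, ← pow_succ', Nat.sub_add_cancel hG.prime.one_le, yy_pow,
        ← map_mul, mul_comm g, ← hg]
  · obtain ⟨g, hg⟩ := X_sub_C_dvd_sub_C_eval (a := P.x) (p := f)
    have hspan : P.ideal = Ideal.span {yy - ofPoly (C P.y), ofPoly (X - C P.x)} := by
      rw [Pt.ideal_eq_span, Set.pair_comm]
    refine R02_principal hspan (R02_dvd
      (s := ∑ i ∈ Finset.range ℓ, yy ^ i * (ofPoly (C P.y)) ^ (ℓ - 1 - i)) (w := ofPoly g) ?_ ?_)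
    · rw [R02_mem, map_sum]
      have e1 : ∀ i ∈ Finset.range ℓ, evalPt P (yy ^ i * (ofPoly (C P.y)) ^ (ℓ - 1 - i)) =
          P.y ^ (ℓ - 1) := by
        intro i hi
        rw [map_mul, map_pow, map_pow, evalPt_yy, evalPt_ofPoly, eval_C, ← pow_add]
        congr 1
        have := Finset.mem_range.1 hi
        omega
      rw [Finset.sum_congr rfl e1, Finset.sum_const, Finset.card_range, nsmul_eq_mul]
      exact mul_ne_zero hG.ne_zero (pow_ne_zero _ hy)
    · rw [geom_sum₂_mul, yy_pow, ← map_pow, ← map_sub, ← C_pow, P.eq, hg, map_mul]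

lemma R02_noeth : IsNoetherianRing (Coord ℓ f) :=
  isNoetherianRing_of_surjective _ _ (AdjoinRoot.mk (X ^ ℓ - C f : E[X][X]))
    AdjoinRoot.mk_surjective

instance isDedekindDomain_coord [hG : IsGood ℓ f] : IsDedekindDomain (Coord ℓ f) := by
  have hN : IsNoetherianRing (Coord ℓ f) := R02_noeth
  have hdvr : IsDedekindDomainDvr (Coord ℓ f) :=
    { toIsNoetherian := hN
      is_dvr_at_nonzero_prime := by
        intro I h0 hI
        obtain ⟨P, rfl⟩ := exists_pt_of_prime I hI h0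
        have hN2 : IsNoetherianRing (Localization.AtPrime P.ideal) :=
          IsLocalization.isNoetherianRing P.ideal.primeCompl _ hN
        have hD2 : IsDomain (Localization.AtPrime P.ideal) :=
          IsLocalization.isDomain_localization P.ideal.primeCompl_le_nonZeroDivisors
        exact ((IsDiscreteValuationRing.TFAE (Localization.AtPrime P.ideal)
          (IsLocalization.AtPrime.not_isField (Coord ℓ f) h0 _)).out 0 4).2
          (R02_localPrincipal P hI) }
  exact IsDedekindDomainDvr.isDedekindDomain (Coord ℓ f)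

end Pool.Agent.Lib.MP_89bcae_ag.Sup

end

section

/-!
ROW R03 (60-120 lines). Finiteness of the support of the divisor of a function; orders.

PROOF. `HeightOneSpectrum.Support` finiteness: for `h = a / b` with `a, b` in the coordinate ring
the valuation of `h` at `v` is different from `1` only if `v` divides `(a)` or `(b)`
(`Ideal.finite_factors`, `HeightOneSpectrum.valuation_lt_one_iff_dvd`,
`HeightOneSpectrum.Support.finite`), and `P ↦ P.hs` is injective.
-/

open Polynomial IsDedekindDomain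

open scoped Classical

namespace Pool.Agent.Lib.MP_89bcae_ag.Sup

universe u

variable {ℓ : ℕ} {E : Type u} [Field E] {f : E[X]} [hG : IsGood ℓ f]

/-- The point as a prime of the coordinate ring. -/
noncomputable def Pt.hs (P : Pt ℓ f) : HeightOneSpectrum (Coord ℓ f) where
  asIdeal := P.ideal
  isPrime := P.ideal_isMaximal.isPrime
  ne_bot := P.ideal_ne_bot

/-- The order of a nonzero function at a point. -/
noncomputable def ord (P : Pt ℓ f) (h : (Fn ℓ f)ˣ) : ℤ :=
  -(WithZero.log (P.hs.valuation (Fn ℓ f) (h : Fn ℓ f)))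

lemma R03_hs_injective : Function.Injective (Pt.hs : Pt ℓ f → HeightOneSpectrum (Coord ℓ f)) := by
  intro P Q h
  apply Pt.ideal_injective
  exact congrArg HeightOneSpectrum.asIdeal h

lemma R03_val_finite (h : (Fn ℓ f)ˣ) :
    {v : HeightOneSpectrum (Coord ℓ f) | v.valuation (Fn ℓ f) (h : Fn ℓ f) ≠ 1}.Finite := by
  have h1 := HeightOneSpectrum.Support.finite (Coord ℓ f) (h : Fn ℓ f)
  have h2 := HeightOneSpectrum.Support.finite (Coord ℓ f) (((h⁻¹ : (Fn ℓ f)ˣ)) : Fn ℓ f)
  refine (h1.union h2).subset ?_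
  intro v hv
  rcases lt_or_gt_of_ne (show v.valuation (Fn ℓ f) (h : Fn ℓ f) ≠ 1 from hv) with h3 | h3
  · right
    show 1 < v.valuation (Fn ℓ f) (((h⁻¹ : (Fn ℓ f)ˣ)) : Fn ℓ f)
    rw [Units.val_inv_eq_inv_val, map_inv₀]
    have h0 : v.valuation (Fn ℓ f) (h : Fn ℓ f) ≠ 0 :=
      (Valuation.ne_zero_iff _).mpr h.ne_zero
    exact (one_lt_inv₀ (zero_lt_iff.mpr h0)).mpr h3
  · left
    exact h3

lemma ord_finite (h : (Fn ℓ f)ˣ) : (Function.support fun P => ord P h).Finite := by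
  have h1 := R03_val_finite h
  refine (h1.preimage (f := Pt.hs) (R03_hs_injective.injOn)).subset ?_
  intro P hP
  show P.hs.valuation (Fn ℓ f) (h : Fn ℓ f) ≠ 1
  intro h2
  apply hP
  show ord P h = 0
  unfold ord
  rw [h2, WithZero.log_one, neg_zero]

/-- The divisor of a nonzero function on the affine curve. -/
noncomputable def div (h : (Fn ℓ f)ˣ) : Pt ℓ f →₀ ℤ :=
  Finsupp.ofSupportFinite (fun P => ord P h) (ord_finite h)

@[simp] lemma div_apply (h : (Fn ℓ f)ˣ) (P : Pt ℓ f) : div h P = ord P h := rfl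

/-- The class of a point. -/
noncomputable def clPt (P : Pt ℓ f) : Jac ℓ f :=
  Additive.ofMul (ClassGroup.equivPic (Coord ℓ f) (ClassGroup.mk0
    ⟨P.ideal, mem_nonZeroDivisors_of_ne_zero P.ideal_ne_bot⟩))

/-- The class of a divisor. -/
noncomputable def cl : (Pt ℓ f →₀ ℤ) →+ Jac ℓ f :=
  Finsupp.liftAddHom fun P => zmultiplesHom _ (clPt P)

end Pool.Agent.Lib.MP_89bcae_ag.Sup

end

section

/-!
ROW R04 (100-200 lines). Elementary properties of `ord P`, residues.

PROOF. `ord P` is minus the logarithm of the valuation `P.hs.valuation`: multiplicativity and the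
ultrametric inequality are those of the valuation (`Valuation.map_mul`, `Valuation.map_add`).
For `a` in the coordinate ring: `HeightOneSpectrum.valuation_of_algebraMap`,
`intValuation_le_one`, `intValuation_lt_one_iff_mem` (or `_dvd`), and `a ∈ P.ideal` means
`evalPt P a = 0`. Residues: if `ord P h ≥ 0`, i.e. valuation at most one, then `h = a / b` with `a`,
`b` in the coordinate ring and `b ∉ P.ideal` (`HeightOneSpectrum` : the valuation ring is the
localization at the prime; Mathlib: `IsDedekindDomain.HeightOneSpectrum.exists_..._valuation_le_one`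
or: write `h = a / b` arbitrary, choose `c` in the coordinate ring with
`ord P (b c) = ...`; one may also use `IsLocalization.AtPrime` and `mem_integers_of_valuation_le_one`
for the localization). Take for `c` the quotient `evalPt P a / evalPt P b`; then
`h - c = (a - c b) / b` with `a - c b ∈ P.ideal`. Uniqueness: `ord P` of a nonzero constant is `0`.
-/

open Polynomial IsDedekindDomain

open scoped Classical

namespace Pool.Agent.Lib.MP_89bcae_ag.Sup

universe u

variable {ℓ : ℕ} {E : Type u} [Field E] {f : E[X]} [hG : IsGood ℓ f]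

private lemma R04_val_ne_zero (P : Pt ℓ f) (h : (Fn ℓ f)ˣ) :
    P.hs.valuation (Fn ℓ f) (h : Fn ℓ f) ≠ 0 :=
  (Valuation.ne_zero_iff _).mpr h.ne_zero

private lemma R04_ord_nonneg_iff (P : Pt ℓ f) (h : (Fn ℓ f)ˣ) :
    0 ≤ ord P h ↔ P.hs.valuation (Fn ℓ f) (h : Fn ℓ f) ≤ 1 := by
  have h1 := WithZero.log_le_iff_le_exp (a := (0 : ℤ)) (R04_val_ne_zero P h)
  rw [WithZero.exp_zero] at h1
  rw [← h1]
  unfold ord
  omega

private lemma R04_ord_pos_iff (P : Pt ℓ f) (h : (Fn ℓ f)ˣ) :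
    0 < ord P h ↔ P.hs.valuation (Fn ℓ f) (h : Fn ℓ f) < 1 := by
  have h1 := WithZero.log_lt_iff_lt_exp (a := (0 : ℤ)) (R04_val_ne_zero P h)
  rw [WithZero.exp_zero] at h1
  rw [← h1]
  unfold ord
  omega

lemma ord_mul (P : Pt ℓ f) (h h' : (Fn ℓ f)ˣ) : ord P (h * h') = ord P h + ord P h' := by
  unfold ord
  rw [Units.val_mul, map_mul, WithZero.log_mul (R04_val_ne_zero P h) (R04_val_ne_zero P h')]
  ring

lemma ord_one (P : Pt ℓ f) : ord P 1 = 0 := by
  unfold ord
  rw [Units.val_one, map_one, WithZero.log_one, neg_zero]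

lemma ord_inv (P : Pt ℓ f) (h : (Fn ℓ f)ˣ) : ord P h⁻¹ = -ord P h := by
  have h1 := ord_mul P h h⁻¹
  rw [mul_inv_cancel, ord_one] at h1
  omega

lemma ord_pow (P : Pt ℓ f) (h : (Fn ℓ f)ˣ) (n : ℕ) : ord P (h ^ n) = n * ord P h := by
  induction n with
  | zero => rw [pow_zero, ord_one, Nat.cast_zero, zero_mul]
  | succ n ih =>
    rw [pow_succ, ord_mul, ih]
    push_cast
    ring

lemma ord_zpow (P : Pt ℓ f) (h : (Fn ℓ f)ˣ) (n : ℤ) : ord P (h ^ n) = n * ord P h := by
  rcases Int.eq_nat_or_neg n with ⟨m, rfl | rfl⟩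
  · rw [zpow_natCast, ord_pow]
  · rw [zpow_neg, zpow_natCast, ord_inv, ord_pow]
    ring

lemma ord_add (P : Pt ℓ f) (u v w : (Fn ℓ f)ˣ) (h : (w : Fn ℓ f) = u + v) :
    min (ord P u) (ord P v) ≤ ord P w := by
  have h1 : P.hs.valuation (Fn ℓ f) (w : Fn ℓ f) ≤
      max (P.hs.valuation (Fn ℓ f) (u : Fn ℓ f)) (P.hs.valuation (Fn ℓ f) (v : Fn ℓ f)) := by
    rw [h]
    exact Valuation.map_add _ _ _
  rcases le_max_iff.mp h1 with h2 | h2
  · refine (min_le_left _ _).trans ?_
    have h3 := (WithZero.log_le_log (R04_val_ne_zero P w) (R04_val_ne_zero P u)).mpr h2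
    unfold ord
    omega
  · refine (min_le_right _ _).trans ?_
    have h3 := (WithZero.log_le_log (R04_val_ne_zero P w) (R04_val_ne_zero P v)).mpr h2
    unfold ord
    omega

lemma ord_nonneg (P : Pt ℓ f) (a : Coord ℓ f) (u : (Fn ℓ f)ˣ)
    (hu : (u : Fn ℓ f) = algebraMap (Coord ℓ f) (Fn ℓ f) a) : 0 ≤ ord P u := by
  rw [R04_ord_nonneg_iff, hu]
  exact HeightOneSpectrum.valuation_le_one _ _


/-- The constant function. -/
noncomputable def cst : E →+* Fn ℓ f :=
  (algebraMap (Coord ℓ f) (Fn ℓ f)).comp (ofPoly.comp C)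

/-- A nonzero constant, as a unit. -/
noncomputable def cstU : Eˣ →* (Fn ℓ f)ˣ := Units.map (cst : E →+* Fn ℓ f)

lemma ord_cstU (P : Pt ℓ f) (c : Eˣ) : ord P (cstU c) = 0 := by
  have h1 : 0 ≤ ord P (cstU c) := ord_nonneg P (ofPoly (C (c : E))) (cstU c) rfl
  have h2 : 0 ≤ ord P (cstU c⁻¹) := ord_nonneg P (ofPoly (C ((c⁻¹ : Eˣ) : E))) (cstU c⁻¹) rfl
  rw [map_inv, ord_inv] at h2
  omega

/-- The residue of a function which is regular at `P`. -/
lemma exists_residue_pt (P : Pt ℓ f) (u : (Fn ℓ f)ˣ) (hu : 0 ≤ ord P u) :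
    ∃ c : E, ∀ w : (Fn ℓ f)ˣ, (w : Fn ℓ f) = (u : Fn ℓ f) - (cst c : Fn ℓ f) → 0 < ord P w := by
  rw [R04_ord_nonneg_iff] at hu
  obtain ⟨a, ha⟩ := HeightOneSpectrum.exists_valuation_sub_lt_of_integer P.hs hu 1
  refine ⟨evalPt P a, fun w hw => ?_⟩
  rw [R04_ord_pos_iff]
  have h2 : P.hs.valuation (Fn ℓ f)
      (algebraMap (Coord ℓ f) (Fn ℓ f) (a - ofPoly (C (evalPt P a)))) < 1 := by
    refine (HeightOneSpectrum.valuation_lt_one_iff_mem _ _).mpr ?_
    change evalPt P (a - ofPoly (C (evalPt P a))) = 0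
    rw [map_sub, evalPt_ofPoly, eval_C, sub_self]
  have h3 : (w : Fn ℓ f) = -(algebraMap (Coord ℓ f) (Fn ℓ f) a - (u : Fn ℓ f)) +
      algebraMap (Coord ℓ f) (Fn ℓ f) (a - ofPoly (C (evalPt P a))) := by
    rw [hw, map_sub]
    change (u : Fn ℓ f) - algebraMap (Coord ℓ f) (Fn ℓ f) (ofPoly (C (evalPt P a))) = _
    ring
  rw [h3]
  refine lt_of_le_of_lt (Valuation.map_add _ _ _) (max_lt ?_ h2)
  rw [Valuation.map_neg]
  exact ha

lemma div_mul (h h' : (Fn ℓ f)ˣ) : div (h * h') = div h + div h' := by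
  ext P
  simp [ord_mul]


lemma div_inv (h : (Fn ℓ f)ˣ) : div h⁻¹ = -div h := by
  ext P
  simp [ord_inv]

lemma div_cstU (c : Eˣ) : div (cstU c : (Fn ℓ f)ˣ) = 0 := by
  ext P
  simp [ord_cstU]

end Pool.Agent.Lib.MP_89bcae_ag.Sup

end

end

section

attribute [local instance 100000] Pool.Agent.Lib.MP_89bcae_ag.Brt.tffFields

section

/-!
# The local ring of a field at a prime of degree one over `p`
-/

open Polynomial

namespace Pool.Agent.Lib.MP_89bcae_ag

set_option linter.style.haveILetI false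
set_option linter.unusedSectionVars false

universe u

/-- The elements of `k` which are integral for the embedding `φ` in `ℚ_p`. -/
def padicRing7 {k : Type u} [Field k] {p : ℕ} [Fact p.Prime] (φ : k →+* ℚ_[p]) :
    ValuationSubring k where
  carrier := {x | ‖φ x‖ ≤ 1}
  mul_mem' := fun {a b} ha hb => by
    rw [Set.mem_ofPred_eq] at ha hb ⊢
    rw [map_mul, norm_mul]
    exact mul_le_one₀ ha (norm_nonneg _) hb
  one_mem' := by rw [Set.mem_ofPred_eq, map_one, norm_one]
  add_mem' := fun {a b} ha hb => by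
    rw [Set.mem_ofPred_eq] at ha hb ⊢
    rw [map_add]
    exact (Padic.nonarchimedean _ _).trans (max_le ha hb)
  zero_mem' := by rw [Set.mem_ofPred_eq, map_zero, norm_zero]; exact zero_le_one
  neg_mem' := fun {a} ha => by
    rw [Set.mem_ofPred_eq] at ha ⊢
    rwa [map_neg, norm_neg]
  mem_or_inv_mem' := fun x => by
    change ‖φ x‖ ≤ 1 ∨ ‖φ x⁻¹‖ ≤ 1
    rcases le_total ‖φ x‖ 1 with h | h
    · exact Or.inl h
    · right
      rw [map_inv₀, norm_inv]
      exact inv_le_one_of_one_le₀ h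

section

variable {k : Type u} [Field k] {p : ℕ} [Fact p.Prime] (φ : k →+* ℚ_[p])

lemma mem_padicRing7 {x : k} : x ∈ padicRing7 φ ↔ ‖φ x‖ ≤ 1 := Iff.rfl

lemma isUnit_padicRing7 (x : padicRing7 φ) (h : ‖φ x‖ = 1) : IsUnit x := by
  have hx0 : (x : k) ≠ 0 := by
    rintro h0
    rw [h0, map_zero, norm_zero] at h
    exact zero_ne_one h
  have hxi : (x : k)⁻¹ ∈ padicRing7 φ := by
    rw [mem_padicRing7, map_inv₀, norm_inv, h, inv_one]
  exact IsUnit.of_mul_eq_one (⟨(x : k)⁻¹, hxi⟩ : padicRing7 φ) (Subtype.ext (mul_inv_cancel₀ hx0))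

lemma norm_of_isUnit7 (x : padicRing7 φ) (h : IsUnit x) : ‖φ x‖ = 1 := by
  obtain ⟨u, rfl⟩ := h
  have h1 : ‖φ ((u : padicRing7 φ) : k)‖ * ‖φ ((↑u⁻¹ : padicRing7 φ) : k)‖ = 1 := by
    rw [← norm_mul, ← map_mul, ← Subring.coe_mul, Units.mul_inv]
    simp
  have h2 : ‖φ ((u : padicRing7 φ) : k)‖ ≤ 1 := (u : padicRing7 φ).2
  have h3 : ‖φ ((↑u⁻¹ : padicRing7 φ) : k)‖ ≤ 1 := (↑u⁻¹ : padicRing7 φ).2
  refine le_antisymm h2 ?_
  rw [← h1]
  exact mul_le_of_le_one_right (norm_nonneg _) h3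

lemma norm_prime7 : ‖φ ((p : padicRing7 φ) : k)‖ = (p : ℝ)⁻¹ := by
  rw [SubringClass.coe_natCast, map_natCast]
  exact Padic.norm_p

lemma irreducible_prime7 : Irreducible (p : padicRing7 φ) := by
  have hp : p.Prime := Fact.out
  have hp1 : (1 : ℝ) < p := by exact_mod_cast hp.one_lt
  constructor
  · intro h
    have h1 := norm_of_isUnit7 φ _ h
    rw [norm_prime7] at h1
    have h2 : (p : ℝ)⁻¹ < 1 := inv_lt_one_of_one_lt₀ hp1
    exact absurd h1 h2.ne
  · intro a b hab
    by_contra hcon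
    push Not at hcon
    have h1 : ‖φ (a : k)‖ * ‖φ (b : k)‖ = (p : ℝ)⁻¹ := by
      rw [← norm_mul, ← map_mul, ← Subring.coe_mul, ← hab]
      exact norm_prime7 φ
    have hlt : ∀ c : padicRing7 φ, ¬ IsUnit c → ‖φ (c : k)‖ ≤ (p : ℝ)⁻¹ := by
      intro c hc
      have h2 : ‖φ (c : k)‖ < 1 := by
        refine lt_of_le_of_ne c.2 fun h3 => hc (isUnit_padicRing7 φ c h3)
      have h3 := (Padic.norm_le_pow_iff_norm_lt_pow_add_one (φ (c : k)) (-1)).mpr (by simpa using h2)
      rwa [zpow_neg_one] at h3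
    have h2 := mul_le_mul (hlt a hcon.1) (hlt b hcon.2) (norm_nonneg _) (by positivity)
    rw [h1] at h2
    have h3 : (p : ℝ)⁻¹ * (p : ℝ)⁻¹ < (p : ℝ)⁻¹ :=
      mul_lt_of_lt_one_right (by positivity) (inv_lt_one_of_one_lt₀ hp1)
    exact absurd h2 (not_le.mpr h3)

lemma isDVR_padicRing7 : IsDiscreteValuationRing (padicRing7 φ) := by
  have hp : p.Prime := Fact.out
  have hp0 : (p : ℝ) ≠ 0 := by exact_mod_cast hp.ne_zero
  apply IsDiscreteValuationRing.ofHasUnitMulPowIrreducibleFactorization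
  refine ⟨p, irreducible_prime7 φ, fun {x} hx => ?_⟩
  have hx0 : φ (x : k) ≠ 0 := by
    rw [_root_.map_ne_zero]
    intro h
    exact hx (Subtype.ext h)
  have h1 := Padic.norm_eq_zpow_neg_valuation hx0
  have h2 : ‖φ (x : k)‖ ≤ 1 := x.2
  have h3 : 0 ≤ (φ (x : k)).valuation := by
    by_contra hlt
    rw [not_le] at hlt
    have h4 : (1 : ℝ) < (p : ℝ) ^ (-(φ (x : k)).valuation) :=
      one_lt_zpow₀ (by exact_mod_cast hp.one_lt) (by omega)
    rw [h1] at h2
    exact absurd h4 (not_lt.mpr h2)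
  obtain ⟨n, hn⟩ := Int.eq_ofNat_of_zero_le h3
  have hpk : ((p : ℕ) : k) ≠ 0 := by
    intro h
    have h4 := norm_prime7 φ
    rw [SubringClass.coe_natCast, h, map_zero, norm_zero] at h4
    exact hp0 (inv_eq_zero.mp h4.symm)
  have hnorm : ‖φ ((x : k) / (p : k) ^ n)‖ = 1 := by
    rw [map_div₀, map_pow, norm_div, norm_pow, map_natCast, Padic.norm_p, h1, hn, zpow_neg,
      zpow_natCast, inv_pow]
    exact div_self (inv_ne_zero (pow_ne_zero _ hp0))
  let y : padicRing7 φ := ⟨(x : k) / (p : k) ^ n, by rw [mem_padicRing7, hnorm]⟩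
  have hy : IsUnit y := isUnit_padicRing7 φ y hnorm
  refine ⟨n, hy.unit, Subtype.ext ?_⟩
  change (((p : padicRing7 φ) ^ n : padicRing7 φ) : k) * ((x : k) / (p : k) ^ n) = x
  rw [SubmonoidClass.coe_pow, SubringClass.coe_natCast]
  exact mul_div_cancel₀ _ (pow_ne_zero _ hpk)

/-- The residue map. -/
noncomputable def toZMod7 : padicRing7 φ →+* ZMod p :=
  (PadicInt.toZMod (p := p)).comp
    { toFun := fun x => (⟨φ x, x.2⟩ : ℤ_[p])
      map_one' := by
        apply Subtype.ext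
        change φ ((1 : padicRing7 φ) : k) = ((1 : ℤ_[p]) : ℚ_[p])
        rw [PadicInt.coe_one]
        exact map_one φ
      map_mul' := fun x y => by
        apply Subtype.ext
        exact map_mul φ _ _
      map_zero' := by
        apply Subtype.ext
        change φ ((0 : padicRing7 φ) : k) = ((0 : ℤ_[p]) : ℚ_[p])
        rw [PadicInt.coe_zero]
        exact map_zero φ
      map_add' := fun x y => by
        apply Subtype.ext
        exact map_add φ _ _ }

end

/-- The local ring of `k` at the prime of degree one over `p` given by an embedding in `ℚ_p`. -/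
theorem exists_local_ring7 {k : Type u} [Field k] {p : ℕ} [Fact p.Prime] (φ : k →+* ℚ_[p]) :
    ∃ (R : Type u) (_ : CommRing R) (_ : IsDomain R) (_ : IsDiscreteValuationRing R)
      (_ : Algebra R k) (_ : IsFractionRing R k) (π : R →+* ZMod p),
      Function.Surjective π ∧ RingHom.ker π = IsLocalRing.maximalIdeal R ∧
      IsLocalRing.maximalIdeal R = Ideal.span {(p : R)} ∧
      ∀ z : ℤ, (z : ZMod p) ≠ 0 → IsUnit (z : R) := by
  haveI := isDVR_padicRing7 φ
  have hsurj : Function.Surjective (toZMod7 φ) := by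
    intro z
    refine ⟨((z.val : ℕ) : padicRing7 φ), ?_⟩
    rw [map_natCast, ZMod.natCast_zmod_val]
  have hker : RingHom.ker (toZMod7 φ) = IsLocalRing.maximalIdeal (padicRing7 φ) :=
    IsLocalRing.eq_maximalIdeal (RingHom.ker_isMaximal_of_surjective _ hsurj)
  refine ⟨padicRing7 φ, inferInstance, inferInstance, inferInstance, inferInstance,
    inferInstance, toZMod7 φ, hsurj, hker, (irreducible_prime7 φ).maximalIdeal_eq, ?_⟩
  intro z hz
  by_contra hu
  have h1 : (z : padicRing7 φ) ∈ IsLocalRing.maximalIdeal (padicRing7 φ) := hu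
  rw [← hker, RingHom.mem_ker, map_intCast] at h1
  exact hz h1


end Pool.Agent.Lib.MP_89bcae_ag

end

section

/-!
# The ramification index is at most the order of the inertia group
-/

open Algebra MulAction

open scoped Pointwise

namespace Pool.Agent.Lib.MP_89bcae_ag

attribute [local instance] Ideal.Quotient.field in
/-- In a finite Galois extension the ramification index is at most the order of the inertia
group. -/
theorem ramificationIdx_le_card_inertia7 {R S G : Type*} [CommRing R] [CommRing S] [Algebra R S]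
    [Group G] [MulSemiringAction G S] [IsGaloisGroup G R S] [Finite G] [IsDomain R] [IsDomain S]
    [Module.Finite R S] [Module.Flat R S] (p : Ideal R) (P : Ideal S) [P.LiesOver p] [p.IsMaximal]
    [P.IsMaximal] : P.ramificationIdx R ≤ Nat.card (P.inertia G) := by
  have hdeg : P.inertiaDeg R = Module.finrank (R ⧸ p) (S ⧸ P) :=
    Ideal.inertiaDeg_eq_of_isMaximal p P
  have hpos : 0 < P.inertiaDeg R := P.inertiaDeg_pos R
  have hfin : FiniteDimensional (R ⧸ p) (S ⧸ P) := by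
    apply Module.finite_of_finrank_pos
    rw [← hdeg]
    exact hpos
  have h1 : ((P.inertia G).subgroupOf (stabilizer G P)).index ≤ P.inertiaDeg R := by
    have h2 : (P.inertia (stabilizer G P)).index = _ := Nat.card_congr
      (Ideal.Quotient.stabilizerQuotientInertiaEquiv G p P).toEquiv
    rw [AddSubgroup.subgroupOf_inertia, h2, hdeg, Nat.card_eq_fintype_card]
    exact AlgEquiv.card_le
  have h3 : Nat.card (stabilizer G P) = Nat.card (P.inertia G) *
      ((P.inertia G).subgroupOf (stabilizer G P)).index := by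
    rw [← ((P.inertia G).subgroupOf (stabilizer G P)).card_mul_index,
      Nat.card_congr (Subgroup.subgroupOfEquivOfLe (Ideal.inertia_le_stabilizer (M := G) P)).toEquiv]
  have h4 : (p.primesOver S).ncard * Nat.card (stabilizer G P) = Nat.card G := by
    rw [← IsInvariant.orbit_eq_primesOver R S G p P]
    simpa using Nat.card_congr (MulAction.orbitProdStabilizerEquivGroup G P)
  have h5 := Ideal.ncard_primesOver_mul_ramificationIdxIn_mul_inertiaDegIn p S G
  rw [Ideal.ramificationIdxIn_eq_ramificationIdx p P G, Ideal.inertiaDegIn_eq_inertiaDeg p P G] at h5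
  have h6 : (p.primesOver S).ncard ≠ 0 := by
    intro h
    rw [h, zero_mul] at h4
    exact Nat.card_pos.ne h4
  have h7 : P.ramificationIdx R * P.inertiaDeg R = Nat.card (stabilizer G P) :=
    Nat.eq_of_mul_eq_mul_left (Nat.pos_of_ne_zero h6) (h5.trans h4.symm)
  rw [h3] at h7
  have h8 : P.ramificationIdx R * P.inertiaDeg R ≤ Nat.card (P.inertia G) * P.inertiaDeg R := by
    rw [h7]
    exact Nat.mul_le_mul_left _ h1
  exact Nat.le_of_mul_le_mul_right h8 hpos

end Pool.Agent.Lib.MP_89bcae_ag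

end

section

/-!
ROW R08 (100-200 lines). Every class is the class of a divisor; the classes of divisors of functions,
and only these, vanish.

PROOF. `ClassGroup.equivPic` is an isomorphism and every ideal class is the class `ClassGroup.mk0 I`
of a nonzero ideal `I` (`ClassGroup.mk0_surjective`), which is a product of primes
(`UniqueFactorizationMonoid`/`Ideal.finprod_heightOneSpectrum_factorization`), each of which is some
`P.ideal` (`exists_pt_of_prime`, `Pt.ideal_injective`). So `cl` is surjective.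
Kernel: write `D = D₁ - D₂` with `D₁, D₂ ≥ 0`, `Iᵢ = ∏ P.ideal ^ Dᵢ(P)`. `cl D = 0` iff
`mk0 I₁ = mk0 I₂` iff `(a) I₁ = (b) I₂` for some nonzero `a, b` (`ClassGroup.mk0_eq_mk0_iff`) and
comparing the exponents of `P.ideal` this is `div (b / a) = D`: the exponent of `P.ideal` in
`I₁` is `D₁(P)` and in `(a)` it is `ord P a` (definition of the valuation:
`HeightOneSpectrum.intValuation`, `Associates.count`); an ideal is determined by its exponents.
-/

open Polynomial IsDedekindDomain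

open scoped Classical nonZeroDivisors

namespace Pool.Agent.Lib.MP_89bcae_ag.Sup

universe u

section gen

variable {R : Type*} [CommRing R] [IsDedekindDomain R] {K : Type*} [Field K] [Algebra R K]
  [IsFractionRing R K]

lemma r08_count_span_coe (v : HeightOneSpectrum R) (a : R) (ha : a ≠ 0) :
    FractionalIdeal.count K v (FractionalIdeal.spanSingleton R⁰ (algebraMap R K a)) =
      -(WithZero.log (v.valuation K (algebraMap R K a))) := by
  rw [← FractionalIdeal.coeIdeal_span_singleton, FractionalIdeal.count_coe K v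
    (by simpa using ha), HeightOneSpectrum.valuation_of_algebraMap,
    HeightOneSpectrum.intValuation_if_neg _ ha]
  simp

lemma r08_count_span (v : HeightOneSpectrum R) (x : Kˣ) :
    FractionalIdeal.count K v (FractionalIdeal.spanSingleton R⁰ (x : K)) =
      -(WithZero.log (v.valuation K (x : K))) := by
  obtain ⟨a, b, hb, hab⟩ := IsFractionRing.div_surjective (A := R) (x : K)
  have hb0 : b ≠ 0 := nonZeroDivisors.ne_zero hb
  have hbK : algebraMap R K b ≠ 0 := by
    simpa using hb0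
  have ha0 : a ≠ 0 := by
    rintro rfl
    apply x.ne_zero
    rw [← hab]; simp
  have h1 : FractionalIdeal.spanSingleton R⁰ (algebraMap R K a) =
      FractionalIdeal.spanSingleton R⁰ (x : K) *
        FractionalIdeal.spanSingleton R⁰ (algebraMap R K b) := by
    rw [FractionalIdeal.spanSingleton_mul_spanSingleton, ← hab, div_mul_cancel₀ _ hbK]
  have h2 := FractionalIdeal.count_mul K v (I := FractionalIdeal.spanSingleton R⁰ (x : K))
    (I' := FractionalIdeal.spanSingleton R⁰ (algebraMap R K b))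
    (FractionalIdeal.spanSingleton_ne_zero_iff.2 x.ne_zero)
    (FractionalIdeal.spanSingleton_ne_zero_iff.2 hbK)
  rw [← h1, r08_count_span_coe v a ha0, r08_count_span_coe v b hb0] at h2
  have h3 : v.valuation K (algebraMap R K a) =
      v.valuation K (x : K) * v.valuation K (algebraMap R K b) := by
    rw [← map_mul, ← hab, div_mul_cancel₀ _ hbK]
  rw [h3, WithZero.log_mul (by simp) (by simpa using hb0)] at h2
  linarith

lemma r08_eq_of_count (I J : FractionalIdeal R⁰ K) (hI : I ≠ 0) (hJ : J ≠ 0)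
    (h : ∀ v : HeightOneSpectrum R, FractionalIdeal.count K v I = FractionalIdeal.count K v J) :
    I = J := by
  rw [← FractionalIdeal.finprod_heightOneSpectrum_factorization' K hI,
    ← FractionalIdeal.finprod_heightOneSpectrum_factorization' K hJ]
  exact finprod_congr fun v => by rw [h v]

end gen

variable {ℓ : ℕ} {E : Type u} [Field E] {f : E[X]} [hG : IsGood ℓ f]

lemma r08_hs_injective : Function.Injective (Pt.hs : Pt ℓ f → HeightOneSpectrum (Coord ℓ f)) :=
  fun _ _ h => Pt.ideal_injective (congrArg HeightOneSpectrum.asIdeal h)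

lemma r08_hs_surjective : Function.Surjective (Pt.hs : Pt ℓ f → HeightOneSpectrum (Coord ℓ f)) := by
  intro v
  obtain ⟨P, hP⟩ := exists_pt_of_prime v.asIdeal v.isPrime v.ne_bot
  exact ⟨P, HeightOneSpectrum.ext hP⟩

/-- The fractional ideal of a divisor. -/
noncomputable def r08Ideal :
    (Pt ℓ f →₀ ℤ) →+ Additive (FractionalIdeal (Coord ℓ f)⁰ (Fn ℓ f))ˣ :=
  Finsupp.liftAddHom fun P => zmultiplesHom _ (Additive.ofMul (FractionalIdeal.mk0 (Fn ℓ f)
    ⟨P.ideal, mem_nonZeroDivisors_of_ne_zero P.ideal_ne_bot⟩))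

/-- The class of an invertible fractional ideal. -/
noncomputable def r08Class :
    Additive (FractionalIdeal (Coord ℓ f)⁰ (Fn ℓ f))ˣ →+ Jac ℓ f :=
  MonoidHom.toAdditive ((ClassGroup.equivPic (Coord ℓ f)).toMonoidHom.comp
    (ClassGroup.mk (R := Coord ℓ f) (Fn ℓ f)))

lemma r08_cl_eq (D : Pt ℓ f →₀ ℤ) : cl D = r08Class (r08Ideal D) := by
  have h : (cl : (Pt ℓ f →₀ ℤ) →+ Jac ℓ f) = r08Class.comp r08Ideal := by
    refine Finsupp.addHom_ext' fun P => ?_
    refine AddMonoidHom.ext_int ?_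
    simp only [cl, r08Ideal, r08Class, AddMonoidHom.comp_apply, Finsupp.singleAddHom_apply,
      Finsupp.liftAddHom_apply_single, zmultiplesHom_apply, one_smul, clPt]
    change _ = Additive.ofMul (ClassGroup.equivPic (Coord ℓ f) (ClassGroup.mk (Fn ℓ f)
      (FractionalIdeal.mk0 (Fn ℓ f) _)))
    rw [ClassGroup.mk_mk0]
  rw [h]
  rfl

/-- The exponent of a prime, as a homomorphism. -/
noncomputable def r08Cnt (P : Pt ℓ f) :
    Additive (FractionalIdeal (Coord ℓ f)⁰ (Fn ℓ f))ˣ →+ ℤ :=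
  AddMonoidHom.mk' (fun I => FractionalIdeal.count (Fn ℓ f) P.hs (I.toMul : FractionalIdeal _ _))
    fun I J => FractionalIdeal.count_mul (Fn ℓ f) P.hs I.toMul.ne_zero J.toMul.ne_zero

lemma r08_cnt_ideal (P : Pt ℓ f) (D : Pt ℓ f →₀ ℤ) : r08Cnt P (r08Ideal D) = D P := by
  have h : (r08Cnt P).comp r08Ideal = Finsupp.applyAddHom P := by
    refine Finsupp.addHom_ext' fun Q => ?_
    refine AddMonoidHom.ext_int ?_
    simp only [r08Ideal, AddMonoidHom.comp_apply, Finsupp.singleAddHom_apply,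
      Finsupp.liftAddHom_apply_single, zmultiplesHom_apply, one_smul, Finsupp.applyAddHom_apply]
    change FractionalIdeal.count (Fn ℓ f) P.hs ((Q.hs.asIdeal : Ideal (Coord ℓ f)) :
      FractionalIdeal (Coord ℓ f)⁰ (Fn ℓ f)) = _
    rw [FractionalIdeal.count_maximal, Finsupp.single_apply]
    simp only [r08_hs_injective.eq_iff]
  have := DFunLike.congr_fun h D
  simpa using this

lemma r08_cnt_principal (P : Pt ℓ f) (h : (Fn ℓ f)ˣ) :
    r08Cnt P (Additive.ofMul (toPrincipalIdeal (Coord ℓ f) (Fn ℓ f) h)) = ord P h := by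
  change FractionalIdeal.count (Fn ℓ f) P.hs (toPrincipalIdeal (Coord ℓ f) (Fn ℓ f) h :
    FractionalIdeal (Coord ℓ f)⁰ (Fn ℓ f)) = _
  rw [coe_toPrincipalIdeal, r08_count_span]
  rfl

lemma r08_ext (I J : Additive (FractionalIdeal (Coord ℓ f)⁰ (Fn ℓ f))ˣ)
    (h : ∀ P, r08Cnt P I = r08Cnt P J) : I = J := by
  have : I.toMul = J.toMul := by
    refine Units.ext (r08_eq_of_count _ _ I.toMul.ne_zero J.toMul.ne_zero fun v => ?_)
    obtain ⟨P, rfl⟩ := r08_hs_surjective v
    exact h P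
  exact this

lemma r08_ideal_div (h : (Fn ℓ f)ˣ) :
    r08Ideal (div h) = Additive.ofMul (toPrincipalIdeal (Coord ℓ f) (Fn ℓ f) h) :=
  r08_ext _ _ fun P => by rw [r08_cnt_ideal, r08_cnt_principal, div_apply]


lemma cl_surjective : Function.Surjective (cl : (Pt ℓ f →₀ ℤ) →+ Jac ℓ f) := by
  intro Q
  obtain ⟨I, hI⟩ := ClassGroup.mk0_surjective ((ClassGroup.equivPic (Coord ℓ f)).symm Q.toMul)
  have hfin : (Function.support fun P : Pt ℓ f =>
      FractionalIdeal.count (Fn ℓ f) P.hs ((I : Ideal (Coord ℓ f)) :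
        FractionalIdeal (Coord ℓ f)⁰ (Fn ℓ f))).Finite := by
    have := FractionalIdeal.finite_factors (K := Fn ℓ f) ((I : Ideal (Coord ℓ f)) :
        FractionalIdeal (Coord ℓ f)⁰ (Fn ℓ f))
    rw [Filter.eventually_cofinite] at this
    exact this.preimage r08_hs_injective.injOn
  refine ⟨Finsupp.ofSupportFinite _ hfin, ?_⟩
  have h1 : r08Ideal (Finsupp.ofSupportFinite _ hfin) =
      Additive.ofMul (FractionalIdeal.mk0 (Fn ℓ f) I) :=
    r08_ext _ _ fun P => by
      rw [r08_cnt_ideal]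
      rfl
  rw [r08_cl_eq, h1]
  change Additive.ofMul (ClassGroup.equivPic (Coord ℓ f) (ClassGroup.mk (Fn ℓ f)
      (FractionalIdeal.mk0 (Fn ℓ f) I))) = Q
  rw [ClassGroup.mk_mk0, hI, MulEquiv.apply_symm_apply]
  rfl

lemma cl_div (h : (Fn ℓ f)ˣ) : cl (div h) = 0 := by
  rw [r08_cl_eq, r08_ideal_div]
  change Additive.ofMul (ClassGroup.equivPic (Coord ℓ f) (ClassGroup.mk (Fn ℓ f)
      (toPrincipalIdeal (Coord ℓ f) (Fn ℓ f) h))) = 0
  have : ClassGroup.mk (Fn ℓ f) (toPrincipalIdeal (Coord ℓ f) (Fn ℓ f) h) = 1 := by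
    rw [ClassGroup.mk_eq_one_iff, coe_toPrincipalIdeal, FractionalIdeal.coe_spanSingleton]
    exact ⟨⟨_, rfl⟩⟩
  rw [this, map_one]
  rfl

lemma exists_div_of_cl_eq_zero (D : Pt ℓ f →₀ ℤ) (hD : cl D = 0) :
    ∃ h : (Fn ℓ f)ˣ, div h = D := by
  rw [r08_cl_eq] at hD
  have h1 : ClassGroup.equivPic (Coord ℓ f) (ClassGroup.mk (Fn ℓ f) (r08Ideal D).toMul) = 1 := hD
  rw [map_eq_one_iff _ (ClassGroup.equivPic (Coord ℓ f)).injective,
    ClassGroup.mk_eq_one_iff] at h1
  obtain ⟨x, hx⟩ := h1.principal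
  have hx' : ((r08Ideal D).toMul : FractionalIdeal (Coord ℓ f)⁰ (Fn ℓ f)) =
      FractionalIdeal.spanSingleton (Coord ℓ f)⁰ x := by
    apply Subtype.coe_injective
    simp only [FractionalIdeal.val_eq_coe, hx, FractionalIdeal.coe_spanSingleton]
  have hx0 : x ≠ 0 := by
    rintro rfl
    apply (r08Ideal D).toMul.ne_zero
    rw [hx', FractionalIdeal.spanSingleton_zero]
  refine ⟨Units.mk0 x hx0, ?_⟩
  have h2 : r08Ideal D =
      Additive.ofMul (toPrincipalIdeal (Coord ℓ f) (Fn ℓ f) (Units.mk0 x hx0)) := by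
    have : (r08Ideal D).toMul = toPrincipalIdeal (Coord ℓ f) (Fn ℓ f) (Units.mk0 x hx0) := by
      refine Units.ext ?_
      rw [hx', coe_toPrincipalIdeal, Units.val_mk0]
    exact this
  ext P
  rw [div_apply, ← r08_cnt_principal, ← h2, r08_cnt_ideal]

end Pool.Agent.Lib.MP_89bcae_ag.Sup

end

end

section

attribute [local instance 100000] Pool.Agent.Lib.MP_89bcae_ag.Brt.tffFields

section

/-!
ROW R05. The orders of `x - a` and of `y`.
-/

open Polynomial IsDedekindDomain

open scoped Classical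

namespace Pool.Agent.Lib.MP_89bcae_ag.Sup

universe u

variable {ℓ : ℕ} {E : Type u} [Field E] {f : E[X]} [hG : IsGood ℓ f]

lemma algebraMap_ofPoly_ne_zero {p : E[X]} (hp : p ≠ 0) :
    algebraMap (Coord ℓ f) (Fn ℓ f) (ofPoly p) ≠ 0 := by
  intro h
  rw [map_eq_zero_iff _ (IsFractionRing.injective (Coord ℓ f) (Fn ℓ f))] at h
  exact hp ((map_eq_zero_iff _ (ofPoly_injective hG.prime.ne_zero)).mp h)

/-- The function `p(x)`, for a nonzero polynomial `p`. -/
noncomputable def polyU (p : E[X]) (hp : p ≠ 0) : (Fn ℓ f)ˣ :=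
  Units.mk0 (algebraMap (Coord ℓ f) (Fn ℓ f) (ofPoly p)) (algebraMap_ofPoly_ne_zero hp)

/-- The function `x - a`. -/
noncomputable def xs (a : E) : (Fn ℓ f)ˣ := polyU (X - C a) (X_sub_C_ne_zero a)

lemma algebraMap_yy_ne_zero : algebraMap (Coord ℓ f) (Fn ℓ f) yy ≠ 0 := by
  intro h
  have h1 : algebraMap (Coord ℓ f) (Fn ℓ f) (ofPoly f) = 0 := by
    rw [← yy_pow, map_pow, h, zero_pow hG.prime.ne_zero]
  exact algebraMap_ofPoly_ne_zero hG.separable.ne_zero h1

/-- The function `y`. -/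
noncomputable def yU : (Fn ℓ f)ˣ :=
  Units.mk0 (algebraMap (Coord ℓ f) (Fn ℓ f) yy) algebraMap_yy_ne_zero

/-- the order of a function of the coordinate ring -/
private lemma R05_ord (P : Pt ℓ f) (a : Coord ℓ f) (u : (Fn ℓ f)ˣ)
    (hu : (u : Fn ℓ f) = algebraMap (Coord ℓ f) (Fn ℓ f) a) :
    ord P u = -(WithZero.log (P.hs.intValuation a)) := by
  unfold ord
  rw [hu, HeightOneSpectrum.valuation_of_algebraMap]

private lemma R05_le (P : Pt ℓ f) (a : Coord ℓ f) (h : evalPt P a = 0) :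
    P.hs.intValuation a ≤ WithZero.exp (-1 : ℤ) := by
  have h1 := (P.hs.intValuation_le_pow_iff_mem a 1).mpr (by
    rw [pow_one]
    exact h)
  exact_mod_cast h1

private lemma R05_one (P : Pt ℓ f) (a : Coord ℓ f) (h : evalPt P a ≠ 0) :
    P.hs.intValuation a = 1 := by
  apply le_antisymm (P.hs.intValuation_le_one a)
  by_contra hlt
  rw [not_le] at hlt
  exact h ((P.hs.intValuation_lt_one_iff_mem a).mp hlt)

/-- one of the two generators is a uniformizer -/
private lemma R05_key (P : Pt ℓ f) : WithZero.exp (-1 : ℤ) ≤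
    max (P.hs.intValuation (ofPoly (X - C P.x))) (P.hs.intValuation (yy - ofPoly (C P.y))) := by
  obtain ⟨π, hπ⟩ := P.hs.intValuation_exists_uniformizer
  have hmem : π ∈ P.ideal := by
    apply (P.hs.intValuation_lt_one_iff_mem π).mp
    rw [hπ, ← WithZero.exp_zero, WithZero.exp_lt_exp]
    norm_num
  rw [P.ideal_eq_span, Ideal.mem_span_pair] at hmem
  obtain ⟨c, d, hcd⟩ := hmem
  rw [← hπ, ← hcd]
  refine (Valuation.map_add _ _ _).trans ?_
  rw [map_mul, map_mul]
  exact max_le_max (mul_le_of_le_one_left' (P.hs.intValuation_le_one c))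
    (mul_le_of_le_one_left' (P.hs.intValuation_le_one d))

lemma ord_polyU_of_ne (P : Pt ℓ f) {p : E[X]} (hp : p ≠ 0) (h : p.eval P.x ≠ 0) :
    ord P (polyU p hp) = 0 := by
  rw [R05_ord P (ofPoly p) _ rfl, R05_one P _ (by rwa [evalPt_ofPoly])]
  simp

lemma ord_xs_of_ne (P : Pt ℓ f) {a : E} (h : P.x ≠ a) : ord P (xs a) = 0 := by
  apply ord_polyU_of_ne
  rw [eval_sub, eval_X, eval_C]
  exact sub_ne_zero.mpr h

lemma ord_xs_of_unramified (P : Pt ℓ f) (h : P.y ≠ 0) : ord P (xs P.x) = 1 := by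
  rw [R05_ord P (ofPoly (X - C P.x)) _ rfl]
  have hle := R05_le P (ofPoly (X - C P.x)) (by simp)
  obtain ⟨q, hq⟩ : (X - C P.x) ∣ f - C (f.eval P.x) := by
    rw [dvd_iff_isRoot]
    simp
  have hgeo : (yy - ofPoly (C P.y) : Coord ℓ f) *
      (∑ i ∈ Finset.range ℓ, yy ^ i * (ofPoly (C P.y)) ^ (ℓ - 1 - i)) =
      ofPoly (X - C P.x) * ofPoly q := by
    rw [mul_comm, Commute.geom_sum₂_mul (Commute.all _ _), yy_pow, ← map_pow, ← C_pow, P.eq,
      ← map_sub, ← map_mul, hq]
  have hS : P.hs.intValuation (∑ i ∈ Finset.range ℓ, yy ^ i * (ofPoly (C P.y)) ^ (ℓ - 1 - i)) =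
      1 := by
    apply R05_one
    have e : evalPt P (∑ i ∈ Finset.range ℓ, yy ^ i * (ofPoly (C P.y)) ^ (ℓ - 1 - i)) =
        (ℓ : E) * P.y ^ (ℓ - 1) := by
      rw [map_sum]
      have e1 : ∀ i ∈ Finset.range ℓ,
          evalPt P (yy ^ i * (ofPoly (C P.y)) ^ (ℓ - 1 - i)) = P.y ^ (ℓ - 1) := by
        intro i hi
        rw [Finset.mem_range] at hi
        rw [map_mul, map_pow, map_pow, evalPt_yy, evalPt_ofPoly, eval_C, ← pow_add]
        congr 1
        omega
      rw [Finset.sum_congr rfl e1, Finset.sum_const, Finset.card_range, nsmul_eq_mul]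
    rw [e]
    exact mul_ne_zero hG.ne_zero (pow_ne_zero _ h)
  have hyx : P.hs.intValuation (yy - ofPoly (C P.y)) ≤ P.hs.intValuation (ofPoly (X - C P.x)) := by
    have h1 := congrArg P.hs.intValuation hgeo
    rw [map_mul, hS, mul_one, map_mul] at h1
    rw [h1]
    exact mul_le_of_le_one_right' (P.hs.intValuation_le_one _)
  have hkey := R05_key P
  rw [max_eq_left hyx] at hkey
  rw [le_antisymm hle hkey, WithZero.log_exp]
  norm_num

/-- the value of y and of x - a at a ramified point -/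
private lemma R05_ram (P : Pt ℓ f) (h : P.y = 0) :
    P.hs.intValuation (yy : Coord ℓ f) = WithZero.exp (-1 : ℤ) ∧
      P.hs.intValuation (ofPoly (X - C P.x) : Coord ℓ f) =
        (P.hs.intValuation (yy : Coord ℓ f)) ^ ℓ := by
  have hfx : f.eval P.x = 0 := by
    rw [← P.eq, h, zero_pow hG.prime.ne_zero]
  obtain ⟨q, hq⟩ : (X - C P.x) ∣ f := by
    rw [dvd_iff_isRoot]
    exact hfx
  have hq0 : q.eval P.x ≠ 0 := by
    intro h0
    have hs := hG.separable
    have h1 : (derivative f).eval P.x ≠ 0 := by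
      have := hs.eval₂_derivative_ne_zero (RingHom.id E) (x := P.x) (by simpa using hfx)
      simpa using this
    apply h1
    have e2 : derivative f = derivative ((X - C P.x) * q) := congrArg derivative hq
    rw [e2]
    simp [h0]
  have hpow : P.hs.intValuation (ofPoly (X - C P.x) : Coord ℓ f) =
        (P.hs.intValuation (yy : Coord ℓ f)) ^ ℓ := by
    have h1 := congrArg P.hs.intValuation (yy_pow : (yy : Coord ℓ f) ^ ℓ = ofPoly f)
    rw [map_pow] at h1
    have e3 : (ofPoly f : Coord ℓ f) = ofPoly (X - C P.x) * ofPoly q := by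
      rw [← map_mul]
      exact congrArg (ofPoly : E[X] →+* Coord ℓ f) hq
    rw [h1, e3, map_mul, R05_one P (ofPoly q) (by rwa [evalPt_ofPoly]), mul_one]
  refine ⟨?_, hpow⟩
  have hle := R05_le P yy (by rw [evalPt_yy, h])
  have hkey := R05_key P
  rw [h, C_0, map_zero, sub_zero, max_eq_right] at hkey
  · exact le_antisymm hle hkey
  · rw [hpow]
    have h3 := pow_le_pow_right_of_le_one' (P.hs.intValuation_le_one (yy : Coord ℓ f))
      hG.prime.one_lt.le
    rwa [pow_one] at h3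

lemma ord_xs_of_ramified (P : Pt ℓ f) (h : P.y = 0) : ord P (xs P.x) = ℓ := by
  obtain ⟨h1, h2⟩ := R05_ram P h
  rw [R05_ord P (ofPoly (X - C P.x)) _ rfl, h2, h1, WithZero.log_pow, WithZero.log_exp]
  simp

lemma ord_yU_of_ne (P : Pt ℓ f) (h : P.y ≠ 0) : ord P yU = 0 := by
  rw [R05_ord P yy _ rfl, R05_one P _ (by rwa [evalPt_yy])]
  simp

lemma ord_yU_of_ramified (P : Pt ℓ f) (h : P.y = 0) : ord P yU = 1 := by
  obtain ⟨h1, -⟩ := R05_ram P h
  rw [R05_ord P yy _ rfl, h1, WithZero.log_exp]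
  norm_num

end Pool.Agent.Lib.MP_89bcae_ag.Sup

end

section

/-!
ROW R06 (100-200 lines). Automorphisms of the coordinate ring acting on functions and orders.

PROOF. A ring automorphism `φ` of the domain `Coord ℓ f` extends to `Fn ℓ f`
(`IsFractionRing.ringEquivOfRingEquiv` or `IsFractionRing.map`). If `φ⁻¹(Q.ideal) = P.ideal`, i.e.
`Q.ideal = P.ideal.map φ`, then `φ` carries the valuation of `P` to that of `Q`: the exponent of
`Q.ideal` in `(φ a) = φ((a))` is the exponent of `P.ideal` in `(a)`; e.g. because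
`a ∈ P.ideal ^ n ↔ φ a ∈ Q.ideal ^ n` (`intValuation_le_pow_iff_mem`). Then pass to fractions.
-/

open Polynomial IsDedekindDomain

open scoped Classical

namespace Pool.Agent.Lib.MP_89bcae_ag.Sup

universe u

variable {ℓ : ℕ} {E : Type u} [Field E] {f : E[X]} [hG : IsGood ℓ f]

/-- The automorphism of the function field induced by one of the coordinate ring. -/
noncomputable def autF (φ : Coord ℓ f ≃+* Coord ℓ f) : Fn ℓ f ≃+* Fn ℓ f :=
  IsFractionRing.ringEquivOfRingEquiv φ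

lemma autF_algebraMap (φ : Coord ℓ f ≃+* Coord ℓ f) (a : Coord ℓ f) :
    autF φ (algebraMap (Coord ℓ f) (Fn ℓ f) a) = algebraMap (Coord ℓ f) (Fn ℓ f) (φ a) := by
  unfold autF
  exact IsFractionRing.ringEquivOfRingEquiv_algebraMap φ a

/-- The action on nonzero functions. -/
noncomputable def autU (φ : Coord ℓ f ≃+* Coord ℓ f) : (Fn ℓ f)ˣ ≃* (Fn ℓ f)ˣ :=
  Units.mapEquiv (autF φ : Fn ℓ f ≃* Fn ℓ f)

private lemma R06_ideal (φ : Coord ℓ f ≃+* Coord ℓ f) (P Q : Pt ℓ f)
    (h : ∀ a, evalPt Q (φ a) = 0 ↔ evalPt P a = 0) :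
    P.ideal.map (φ : Coord ℓ f →+* Coord ℓ f) = Q.ideal := by
  ext b
  rw [Ideal.mem_map_iff_of_surjective (φ : Coord ℓ f →+* Coord ℓ f) φ.surjective]
  constructor
  · rintro ⟨a, ha, rfl⟩
    have ha' : evalPt P a = 0 := ha
    have := (h a).2 ha'
    exact this
  · intro hb
    have hb' : evalPt Q b = 0 := hb
    refine ⟨φ.symm b, ?_, by simp⟩
    have h1 := h (φ.symm b)
    rw [φ.apply_symm_apply] at h1
    exact h1.1 hb'

private lemma R06_pow (φ : Coord ℓ f ≃+* Coord ℓ f) (P Q : Pt ℓ f)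
    (h : ∀ a, evalPt Q (φ a) = 0 ↔ evalPt P a = 0) (n : ℕ) (a : Coord ℓ f)
    (ha : a ∈ P.hs.asIdeal ^ n) : φ a ∈ Q.hs.asIdeal ^ n := by
  have h1 : P.hs.asIdeal = P.ideal := rfl
  have h2 : Q.hs.asIdeal = Q.ideal := rfl
  rw [h1] at ha
  rw [h2, ← R06_ideal φ P Q h, ← Ideal.map_pow]
  exact Ideal.mem_map_of_mem (φ : Coord ℓ f →+* Coord ℓ f) ha

private lemma R06_le (φ : Coord ℓ f ≃+* Coord ℓ f) (P Q : Pt ℓ f)
    (h : ∀ a, evalPt Q (φ a) = 0 ↔ evalPt P a = 0) (a : Coord ℓ f) :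
    Q.hs.intValuation (φ a) ≤ P.hs.intValuation a := by
  by_cases ha : a = 0
  · subst ha
    simp
  · have h1 := P.hs.intValuation_if_neg ha
    rw [h1]
    rw [HeightOneSpectrum.intValuation_le_pow_iff_mem]
    apply R06_pow φ P Q h
    rw [← HeightOneSpectrum.intValuation_le_pow_iff_mem, h1]

private lemma R06_int (φ : Coord ℓ f ≃+* Coord ℓ f) (P Q : Pt ℓ f)
    (h : ∀ a, evalPt Q (φ a) = 0 ↔ evalPt P a = 0) (a : Coord ℓ f) :
    Q.hs.intValuation (φ a) = P.hs.intValuation a := by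
  refine le_antisymm (R06_le φ P Q h a) ?_
  have h2 : ∀ b, evalPt P (φ.symm b) = 0 ↔ evalPt Q b = 0 := by
    intro b
    have h1 := h (φ.symm b)
    rw [φ.apply_symm_apply] at h1
    exact h1.symm
  have h3 := R06_le φ.symm Q P h2 (φ a)
  rwa [φ.symm_apply_apply] at h3

lemma ord_autU (φ : Coord ℓ f ≃+* Coord ℓ f) (P Q : Pt ℓ f)
    (h : ∀ a, evalPt Q (φ a) = 0 ↔ evalPt P a = 0) (u : (Fn ℓ f)ˣ) :
    ord Q (autU φ u) = ord P u := by
  have key : Q.hs.valuation (Fn ℓ f) ((autU φ u : (Fn ℓ f)ˣ) : Fn ℓ f)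
      = P.hs.valuation (Fn ℓ f) (u : Fn ℓ f) := by
    have h0 : ((autU φ u : (Fn ℓ f)ˣ) : Fn ℓ f) = autF φ (u : Fn ℓ f) := rfl
    rw [h0]
    obtain ⟨a, b, hb, hab⟩ := IsFractionRing.div_surjective (A := Coord ℓ f) (u : Fn ℓ f)
    rw [← hab, map_div₀, autF_algebraMap, autF_algebraMap, map_div₀, map_div₀]
    rw [HeightOneSpectrum.valuation_of_algebraMap, HeightOneSpectrum.valuation_of_algebraMap,
      HeightOneSpectrum.valuation_of_algebraMap, HeightOneSpectrum.valuation_of_algebraMap,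
      R06_int φ P Q h, R06_int φ P Q h]
  unfold ord
  rw [key]

end Pool.Agent.Lib.MP_89bcae_ag.Sup

end

section

/-!
ROW R07 (80-160 lines). The automorphisms `y ↦ ζ y` and the automorphisms of the constant field.

PROOF. `rotC ζ` has the inverse `rotC ζ⁻¹`; check on `ofPoly p` and `yy`
(`AdjoinRoot.ringHom_ext`, or `exists_expand`). `evalPt P ∘ rotC ζ = evalPt (P.rot ζ)` (check on
generators), so `ord_autU` with `Q`, `P := Q.rot ζ` gives `ord Q (rot h) = ord (Q.rot ζ) h`.
For `σ : E ≃+* E` with `f.map σ = f`: `coordMap ℓ σ` is bijective (inverse `coordMap ℓ σ⁻¹`), and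
`evalPt (P.map σ) (coordMap σ a) = σ (evalPt P a)`.
-/

open Polynomial IsDedekindDomain

open scoped Classical

namespace Pool.Agent.Lib.MP_89bcae_ag.Sup

universe u

variable {ℓ : ℕ} {E : Type u} [Field E] {f : E[X]}

lemma R07_hom_ext {S : Type u} [CommRing S] {g h : Coord ℓ f →+* S}
    (h1 : ∀ p, g (ofPoly p) = h (ofPoly p)) (h2 : g yy = h yy) : g = h := by
  exact AdjoinRoot.ringHom_ext (RingHom.ext h1) h2

section Maps

variable {E' : Type u} [Field E'] {f' : E'[X]}

lemma coordMap_ofPoly (σ : E →+* E') (h : f.map σ = f') (p : E[X]) :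
    coordMap ℓ σ h (ofPoly p) = ofPoly (p.map σ) := by
  unfold coordMap ofPoly
  exact AdjoinRoot.map_of _ _ _ _ _

lemma coordMap_yy (σ : E →+* E') (h : f.map σ = f') :
    coordMap ℓ σ h (yy : Coord ℓ f) = yy := by
  unfold coordMap yy
  exact AdjoinRoot.map_root _ _ _ _

lemma evalPt_coordMap (σ : E →+* E') (h : f.map σ = f') (P : Pt ℓ f) (a : Coord ℓ f) :
    evalPt (P.map σ h) (coordMap ℓ σ h a) = σ (evalPt P a) := by
  have h1 : (evalPt (P.map σ h)).comp (coordMap ℓ σ h) = σ.comp (evalPt P) := by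
    refine R07_hom_ext (fun p => ?_) ?_
    · rw [RingHom.comp_apply, RingHom.comp_apply, coordMap_ofPoly, evalPt_ofPoly, evalPt_ofPoly]
      change (p.map σ).eval (σ P.x) = σ (p.eval P.x)
      rw [Polynomial.eval_map, Polynomial.eval₂_hom]
    · rw [RingHom.comp_apply, RingHom.comp_apply, coordMap_yy, evalPt_yy, evalPt_yy]
      rfl
  exact RingHom.congr_fun h1 a

end Maps

lemma R07_rotC_comp (ζ ξ : E) (hζ : ζ ^ ℓ = 1) (hξ : ξ ^ ℓ = 1) (h : ζ * ξ = 1) :
    (rotC ζ hζ : Coord ℓ f →+* Coord ℓ f).comp (rotC ξ hξ) = RingHom.id _ := by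
  refine R07_hom_ext (fun p => ?_) ?_
  · rw [RingHom.comp_apply, rotC_ofPoly, rotC_ofPoly, RingHom.id_apply]
  · rw [RingHom.comp_apply, rotC_yy, map_mul, rotC_ofPoly, rotC_yy, RingHom.id_apply, ← mul_assoc,
      ← map_mul, ← C_mul, mul_comm ξ ζ, h, C_1, map_one, one_mul]

lemma R07_coordMap_comp (σ τ : E →+* E) (hσ : f.map σ = f) (hτ : f.map τ = f)
    (h : σ.comp τ = RingHom.id E) :
    (coordMap ℓ σ hσ : Coord ℓ f →+* Coord ℓ f).comp (coordMap ℓ τ hτ) = RingHom.id _ := by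
  refine R07_hom_ext (fun p => ?_) ?_
  · rw [RingHom.comp_apply, coordMap_ofPoly, coordMap_ofPoly, RingHom.id_apply,
      Polynomial.map_map, h, Polynomial.map_id]
  · rw [RingHom.comp_apply, coordMap_yy, coordMap_yy, RingHom.id_apply]

/-- The automorphism `y ↦ ζ y` of the coordinate ring. -/
noncomputable def rotE (ζ : E) (hζ : ζ ^ ℓ = 1) (h0 : ζ ≠ 0) : Coord ℓ f ≃+* Coord ℓ f :=
  RingEquiv.ofRingHom (rotC ζ hζ) (rotC ζ⁻¹ (by rw [inv_pow, hζ, inv_one]))
    (R07_rotC_comp _ _ _ _ (mul_inv_cancel₀ h0)) (R07_rotC_comp _ _ _ _ (inv_mul_cancel₀ h0))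

lemma evalPt_rotE (ζ : E) (hζ : ζ ^ ℓ = 1) (h0 : ζ ≠ 0) (P : Pt ℓ f) (a : Coord ℓ f) :
    evalPt P (rotE ζ hζ h0 a) = evalPt (P.rot ζ hζ) a := by
  have h1 : (evalPt P).comp (rotC ζ hζ) = evalPt (P.rot ζ hζ) := by
    refine R07_hom_ext (fun p => ?_) ?_
    · rw [RingHom.comp_apply, rotC_ofPoly, evalPt_ofPoly, evalPt_ofPoly]
      rfl
    · rw [RingHom.comp_apply, rotC_yy, map_mul, evalPt_ofPoly, evalPt_yy, evalPt_yy, eval_C]
      rfl
  exact RingHom.congr_fun h1 a

/-- The automorphisms of the field of constants which fix the coefficients of `f`. -/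
def Sym (f : E[X]) : Subgroup (E ≃+* E) where
  carrier := {σ | f.map (σ : E →+* E) = f}
  mul_mem' {σ τ} hσ hτ := by
    have h1 : f.map (σ : E →+* E) = f := hσ
    have h2 : f.map (τ : E →+* E) = f := hτ
    change f.map ((σ * τ : E ≃+* E) : E →+* E) = f
    have h3 : ((σ * τ : E ≃+* E) : E →+* E) = (σ : E →+* E).comp (τ : E →+* E) := by
      ext x
      rfl
    rw [h3, ← Polynomial.map_map, h2, h1]
  one_mem' := by
    change f.map ((1 : E ≃+* E) : E →+* E) = f
    have h3 : ((1 : E ≃+* E) : E →+* E) = RingHom.id E := by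
      ext x
      rfl
    rw [h3, Polynomial.map_id]
  inv_mem' {σ} hσ := by
    have h1 : f.map (σ : E →+* E) = f := hσ
    change f.map ((σ⁻¹ : E ≃+* E) : E →+* E) = f
    have h3 : ((σ⁻¹ : E ≃+* E) : E →+* E).comp (σ : E →+* E) = RingHom.id E := by
      ext x
      exact σ.symm_apply_apply x
    conv_lhs => rw [← h1]
    rw [Polynomial.map_map, h3, Polynomial.map_id]

lemma mem_Sym {σ : E ≃+* E} : σ ∈ Sym f ↔ f.map (σ : E →+* E) = f := Iff.rfl

/-- The automorphism of the coordinate ring induced by `σ`. -/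
noncomputable def symE (ℓ : ℕ) (σ : Sym f) : Coord ℓ f ≃+* Coord ℓ f :=
  RingEquiv.ofRingHom (coordMap ℓ ((σ : E ≃+* E) : E →+* E) σ.2)
    (coordMap ℓ (((σ⁻¹ : Sym f) : E ≃+* E) : E →+* E) (σ⁻¹).2)
    (R07_coordMap_comp _ _ _ _ (by
      ext x
      exact (σ : E ≃+* E).apply_symm_apply x))
    (R07_coordMap_comp _ _ _ _ (by
      ext x
      exact (σ : E ≃+* E).symm_apply_apply x))

/-- The action of `Sym f` on the points. -/
def Pt.sym (σ : Sym f) (P : Pt ℓ f) : Pt ℓ f := P.map ((σ : E ≃+* E) : E →+* E) σ.2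

lemma evalPt_symE (σ : Sym f) (P : Pt ℓ f) (a : Coord ℓ f) :
    evalPt (P.sym σ) (symE ℓ σ a) = (σ : E ≃+* E) (evalPt P a) :=
  evalPt_coordMap ((σ : E ≃+* E) : E →+* E) σ.2 P a

variable [hG : IsGood ℓ f]

/-- `h(x, y) ↦ h(x, ζ y)`. -/
noncomputable def rotU (ζ : E) (hζ : ζ ^ ℓ = 1) (h0 : ζ ≠ 0) : (Fn ℓ f)ˣ ≃* (Fn ℓ f)ˣ :=
  autU (rotE ζ hζ h0)

lemma ord_rotU (ζ : E) (hζ : ζ ^ ℓ = 1) (h0 : ζ ≠ 0) (P : Pt ℓ f) (u : (Fn ℓ f)ˣ) :
    ord P (rotU ζ hζ h0 u) = ord (P.rot ζ hζ) u :=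
  ord_autU (rotE ζ hζ h0) (P.rot ζ hζ) P (fun a => by rw [evalPt_rotE]) u

lemma R07_autU_mk (φ : Coord ℓ f ≃+* Coord ℓ f) (u : (Fn ℓ f)ˣ) {a : Coord ℓ f}
    (hu : (u : Fn ℓ f) = algebraMap (Coord ℓ f) (Fn ℓ f) a) :
    ((autU φ u : (Fn ℓ f)ˣ) : Fn ℓ f) = algebraMap (Coord ℓ f) (Fn ℓ f) (φ a) := by
  have h1 : ((autU φ u : (Fn ℓ f)ˣ) : Fn ℓ f) = autF φ (u : Fn ℓ f) := rfl
  rw [h1, hu, autF_algebraMap]

omit hG in
lemma R07_cstU (c : Eˣ) : ((cstU c : (Fn ℓ f)ˣ) : Fn ℓ f) =
    algebraMap (Coord ℓ f) (Fn ℓ f) (ofPoly (C (c : E))) := rfl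

lemma R07_polyU (p : E[X]) (hp : p ≠ 0) : ((polyU p hp : (Fn ℓ f)ˣ) : Fn ℓ f) =
    algebraMap (Coord ℓ f) (Fn ℓ f) (ofPoly p) := rfl

lemma R07_yU : ((yU : (Fn ℓ f)ˣ) : Fn ℓ f) = algebraMap (Coord ℓ f) (Fn ℓ f) yy := rfl

omit hG in
lemma R07_rotE_ofPoly (ζ : E) (hζ : ζ ^ ℓ = 1) (h0 : ζ ≠ 0) (p : E[X]) :
    rotE ζ hζ h0 (ofPoly p : Coord ℓ f) = ofPoly p := rotC_ofPoly ζ hζ p

omit hG in
lemma R07_rotE_yy (ζ : E) (hζ : ζ ^ ℓ = 1) (h0 : ζ ≠ 0) :
    rotE ζ hζ h0 (yy : Coord ℓ f) = ofPoly (C ζ) * yy := rotC_yy ζ hζ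

lemma rotU_cstU (ζ : E) (hζ : ζ ^ ℓ = 1) (h0 : ζ ≠ 0) (c : Eˣ) :
    rotU ζ hζ h0 (cstU c : (Fn ℓ f)ˣ) = cstU c := by
  ext
  rw [rotU, R07_autU_mk (rotE ζ hζ h0) _ (R07_cstU c), R07_rotE_ofPoly, R07_cstU]

lemma rotU_polyU (ζ : E) (hζ : ζ ^ ℓ = 1) (h0 : ζ ≠ 0) (p : E[X]) (hp : p ≠ 0) :
    rotU ζ hζ h0 (polyU p hp : (Fn ℓ f)ˣ) = polyU p hp := by
  ext
  rw [rotU, R07_autU_mk (rotE ζ hζ h0) _ (R07_polyU p hp), R07_rotE_ofPoly, R07_polyU]

lemma rotU_yU (ζ : E) (hζ : ζ ^ ℓ = 1) (h0 : ζ ≠ 0) :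
    rotU ζ hζ h0 (yU : (Fn ℓ f)ˣ) = cstU (Units.mk0 ζ h0) * yU := by
  ext
  rw [rotU, R07_autU_mk (rotE ζ hζ h0) _ R07_yU, R07_rotE_yy, Units.val_mul, R07_cstU, R07_yU,
    map_mul]
  rfl

/-- The action of `Sym f` on the nonzero functions. -/
noncomputable def symU (σ : Sym f) : (Fn ℓ f)ˣ ≃* (Fn ℓ f)ˣ := autU (symE ℓ σ)

lemma ord_symU (σ : Sym f) (P : Pt ℓ f) (u : (Fn ℓ f)ˣ) :
    ord (P.sym σ) (symU σ u) = ord P u :=
  ord_autU (symE ℓ σ) P (P.sym σ) (fun a => by
    rw [evalPt_symE]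
    exact EmbeddingLike.map_eq_zero_iff) u

omit hG in
lemma R07_symE_ofPoly (σ : Sym f) (p : E[X]) :
    symE ℓ σ (ofPoly p : Coord ℓ f) = ofPoly (p.map ((σ : E ≃+* E) : E →+* E)) :=
  coordMap_ofPoly ((σ : E ≃+* E) : E →+* E) σ.2 p

omit hG in
lemma R07_symE_yy (σ : Sym f) : symE ℓ σ (yy : Coord ℓ f) = yy :=
  coordMap_yy ((σ : E ≃+* E) : E →+* E) σ.2


lemma symU_yU (σ : Sym f) : symU σ (yU : (Fn ℓ f)ˣ) = yU := by
  ext
  rw [symU, R07_autU_mk (symE ℓ σ) _ R07_yU, R07_symE_yy, R07_yU]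

lemma symU_xs (σ : Sym f) (a : E) : symU σ (xs a : (Fn ℓ f)ˣ) = xs ((σ : E ≃+* E) a) := by
  ext
  rw [symU, xs, xs, R07_autU_mk (symE ℓ σ) _ (R07_polyU _ (X_sub_C_ne_zero a)), R07_symE_ofPoly,
    R07_polyU, Polynomial.map_sub, Polynomial.map_X, Polynomial.map_C]
  rfl

lemma symU_rotU (σ : Sym f) (ζ : E) (hζ : ζ ^ ℓ = 1) (h0 : ζ ≠ 0)
    (hσ : (σ : E ≃+* E) ζ = ζ) (u : (Fn ℓ f)ˣ) :
    symU σ (rotU ζ hζ h0 u) = rotU ζ hζ h0 (symU σ u) := by
  have hcomm : ∀ a : Coord ℓ f, symE ℓ σ (rotE ζ hζ h0 a) = rotE ζ hζ h0 (symE ℓ σ a) := by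
    have h1 : ((symE ℓ σ : Coord ℓ f ≃+* Coord ℓ f) : Coord ℓ f →+* Coord ℓ f).comp
        ((rotE ζ hζ h0 : Coord ℓ f ≃+* Coord ℓ f) : Coord ℓ f →+* Coord ℓ f) =
        ((rotE ζ hζ h0 : Coord ℓ f ≃+* Coord ℓ f) : Coord ℓ f →+* Coord ℓ f).comp
        ((symE ℓ σ : Coord ℓ f ≃+* Coord ℓ f) : Coord ℓ f →+* Coord ℓ f) := by
      refine R07_hom_ext (fun p => ?_) ?_
      · change symE ℓ σ (rotE ζ hζ h0 (ofPoly p)) = rotE ζ hζ h0 (symE ℓ σ (ofPoly p))
        rw [R07_rotE_ofPoly, R07_symE_ofPoly, R07_rotE_ofPoly]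
      · change symE ℓ σ (rotE ζ hζ h0 yy) = rotE ζ hζ h0 (symE ℓ σ yy)
        rw [R07_rotE_yy, map_mul, R07_symE_ofPoly, R07_symE_yy, R07_rotE_yy, Polynomial.map_C]
        change ofPoly (C ((σ : E ≃+* E) ζ)) * yy = _
        rw [hσ]
    intro a
    exact RingHom.congr_fun h1 a
  ext
  obtain ⟨a, b, hb, hab⟩ := IsFractionRing.div_surjective (A := Coord ℓ f) (u : Fn ℓ f)
  change autF (symE ℓ σ) (autF (rotE ζ hζ h0) (u : Fn ℓ f)) =
    autF (rotE ζ hζ h0) (autF (symE ℓ σ) (u : Fn ℓ f))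
  rw [← hab]
  simp only [map_div₀, autF_algebraMap, hcomm]

end Pool.Agent.Lib.MP_89bcae_ag.Sup

end

section

/-!
# Local analysis at a place `t = a`: definitions

`M` is an algebraic closure of the completion of `F(t)` at `t = a`, with its absolute value `v`.
-/

open Polynomial

open scoped Classical

namespace Pool.Agent.Lib.MP_89bcae_ag.Sup

universe u

/-- The real number `x` is a power of `ϖ` with exponent in `ℤ[1/p]`. -/
def Val (p : ℕ) (ϖ x : ℝ) : Prop := ∃ (s : ℕ) (i : ℤ), x ^ p ^ s = ϖ ^ i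

/-- `v` is a nonarchimedean absolute value of `M`, with residue field `F ⊆ M`, such that
`v (t - a) < 1`. -/
structure LocCtx {F M : Type u} [Field F] [Field M] [Algebra F M] (v : AbsoluteValue M ℝ) (a : F)
    (t : M) : Prop where
  alg : IsAlgClosed F
  nonarch : ∀ x y, v (x + y) ≤ max (v x) (v y)
  const : ∀ c : F, c ≠ 0 → v (algebraMap F M c) = 1
  lt_one : v (t - algebraMap F M a) < 1
  ne : t ≠ algebraMap F M a
  residue : ∀ x, v x ≤ 1 → ∃ c : F, v (x - algebraMap F M c) < 1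

/-- `Γ` is a group of automorphisms of `M` over `F(t)`, preserving `v`, whose fixed elements have
their values in `ϖ ^ ℤ[1/p]`. -/
structure LocGrp (p : ℕ) (F : Type u) {M : Type u} [Field F] [Field M] [Algebra F M] (v : AbsoluteValue M ℝ)
    (t : M) (ϖ : ℝ) {f : M[X]} (Γ : Subgroup (Sym f)) : Prop where
  pos : 0 < ϖ
  lt_one : ϖ < 1
  inv : ∀ σ ∈ Γ, ∀ x, v ((σ : M ≃+* M) x) = v x
  fix : ∀ σ ∈ Γ, ∀ c : F, (σ : M ≃+* M) (algebraMap F M c) = algebraMap F M c
  fixt : ∀ σ ∈ Γ, (σ : M ≃+* M) t = t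
  disc : ∀ x, x ≠ 0 → (∀ σ ∈ Γ, (σ : M ≃+* M) x = x) → Val p ϖ (v x)

/-- The polynomial `d⁻¹ (g(x) - t)`. -/
noncomputable def locPoly {F M : Type u} [Field F] [Field M] [Algebra F M] (g : F[X]) (t d : M) :
    M[X] :=
  C d⁻¹ * (g.map (algebraMap F M) - C t)

end Pool.Agent.Lib.MP_89bcae_ag.Sup

end

section

/-!
ROW R10 (150-250 lines). The norm of a function, computed from its divisor.

PROOF. Let `r = ∏ rot^i h`. It is fixed by `rot = rotU ζ` (`rot^ℓ = 1`). Write `r = a / b`, `a`, `b`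
in the coordinate ring, `b` in `E[x]` (multiply numerator and denominator by `∏_{0<i<ℓ} rot^i b`:
the product `∏_{i<ℓ} rot^i b` is fixed by `rot`, and an element `∑ pᵢ(x) yⁱ` of the coordinate ring
fixed by `rot` satisfies `ζ^i pᵢ = pᵢ`, so `pᵢ = 0` for `0 < i < ℓ` (`expand_unique`), it is in
`E[x]`). Then `a` is fixed by `rot` as well, so `a` is in `E[x]`. Since `E` is algebraically closed,
`a` and `b` are products of a constant and of linear factors (`IsAlgClosed.splits`), so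
`r = c ∏_a (x - a)^{n_a}` for finitely many `a` and integers `n_a`. Take the order at a point `P`
with `P.x = a`: `ord P r = n_a` or `ℓ n_a` according to `P.y ≠ 0` or `P.y = 0` (`ord_xs_...`). On the
other hand `ord P r = ∑_i ord (P.rot ζ^i) h` (`ord_rotU`), which is the sum of `div h` over all
points above `a` if `P.y ≠ 0` (the points `(a, ζ^i b)`, all different), and `ℓ ord P h` if
`P.y = 0`. So `n_a = ∑_{P.x = a} div h P`, i.e. `r = c · xprod (div h)`.
-/

open Polynomial IsDedekindDomain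

open scoped Classical

namespace Pool.Agent.Lib.MP_89bcae_ag.Sup

universe u

variable {ℓ : ℕ} {E : Type u} [Field E] {f : E[X]} [hG : IsGood ℓ f]

/-- The function `∏ (x - x(P)) ^ D(P)`. -/
noncomputable def xprod (D : Pt ℓ f →₀ ℤ) : (Fn ℓ f)ˣ := D.prod fun P n => xs P.x ^ n

/-- The norm `∏_{i < ℓ} h(x, ζ ^ i y)`. -/
noncomputable def nrm (ζ : E) (hζ : ζ ^ ℓ = 1) (h0 : ζ ≠ 0) (h : (Fn ℓ f)ˣ) : (Fn ℓ f)ˣ :=
  ∏ i ∈ Finset.range ℓ, (rotU ζ hζ h0)^[i] h

omit hG in
lemma R10_rotE_apply (ζ : E) (hζ : ζ ^ ℓ = 1) (h0 : ζ ≠ 0) (a : Coord ℓ f) :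
    rotE ζ hζ h0 a = rotC ζ hζ a := rfl

omit hG in
lemma R10_rot_expand (ζ : E) (hζ : ζ ^ ℓ = 1) (p : ℕ → E[X]) (s : Finset ℕ) :
    rotC ζ hζ (∑ i ∈ s, ofPoly (p i) * yy ^ i : Coord ℓ f) =
      ∑ i ∈ s, ofPoly (C ζ ^ i * p i) * yy ^ i := by
  rw [map_sum]
  apply Finset.sum_congr rfl
  intro i _
  rw [map_mul, map_pow, rotC_ofPoly, rotC_yy, map_mul, map_pow, mul_pow]
  ring

lemma R10_rot_iter (ζ : E) (hζ : ζ ^ ℓ = 1) (h0 : ζ ≠ 0) (n : ℕ) (p : ℕ → E[X])
    (s : Finset ℕ) :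
    (rotE ζ hζ h0)^[n] (∑ i ∈ s, ofPoly (p i) * yy ^ i : Coord ℓ f) =
      ∑ i ∈ s, ofPoly (C (ζ ^ n) ^ i * p i) * yy ^ i := by
  induction n with
  | zero => simp
  | succ n ih =>
    rw [Function.iterate_succ_apply', ih, R10_rotE_apply, R10_rot_expand]
    apply Finset.sum_congr rfl
    intro i _
    congr 2
    rw [pow_succ ζ n, C_mul, mul_pow]
    ring

lemma R10_rot_full (ζ : E) (hζ : ζ ^ ℓ = 1) (h0 : ζ ≠ 0) (a : Coord ℓ f) :
    (rotE ζ hζ h0)^[ℓ] a = a := by
  obtain ⟨p, rfl⟩ := exists_expand hG.prime.ne_zero a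
  rw [R10_rot_iter, hζ]
  simp

lemma R10_fix (ζ : E) (hζ : IsPrimitiveRoot ζ ℓ) (h0 : ζ ≠ 0) (a : Coord ℓ f)
    (ha : rotE ζ hζ.pow_eq_one h0 a = a) : ∃ p : E[X], a = ofPoly p := by
  obtain ⟨p, rfl⟩ := exists_expand hG.prime.ne_zero a
  rw [R10_rotE_apply, R10_rot_expand] at ha
  have h1 : ∑ i ∈ Finset.range ℓ, (ofPoly (C ζ ^ i * p i - p i) : Coord ℓ f) * yy ^ i = 0 := by
    simp only [map_sub, sub_mul]
    rw [Finset.sum_sub_distrib, ha, sub_self]
  have h2 := expand_unique hG.prime.ne_zero _ h1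
  refine ⟨p 0, ?_⟩
  rw [Finset.sum_eq_single 0]
  · simp
  · intro i hi hi0
    have hil := Finset.mem_range.mp hi
    have h3 := h2 i hil
    have h4 : (C (ζ ^ i - 1)) * p i = 0 := by
      rw [C_sub, C_pow, C_1, sub_mul, one_mul]
      exact h3
    have h5 : p i = 0 := by
      rcases mul_eq_zero.mp h4 with h | h
      · exfalso
        rw [C_eq_zero, sub_eq_zero] at h
        have h6 := hζ.dvd_of_pow_eq_one i h
        have := Nat.le_of_dvd (Nat.pos_of_ne_zero hi0) h6
        omega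
      · exact h
    rw [h5, map_zero, zero_mul]
  · intro h
    exact absurd (Finset.mem_range.mpr hG.prime.pos) h

lemma R10_autF_iter (φ : Coord ℓ f ≃+* Coord ℓ f) (n : ℕ) (a : Coord ℓ f) :
    (autF φ)^[n] (algebraMap (Coord ℓ f) (Fn ℓ f) a) =
      algebraMap (Coord ℓ f) (Fn ℓ f) (φ^[n] a) := by
  induction n with
  | zero => rfl
  | succ n ih => rw [Function.iterate_succ_apply', ih, autF_algebraMap,
      Function.iterate_succ_apply']

lemma R10_autF_div (φ : Coord ℓ f ≃+* Coord ℓ f) (n : ℕ) (x y : Fn ℓ f) :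
    (autF φ)^[n] (x / y) = (autF φ)^[n] x / (autF φ)^[n] y := by
  induction n with
  | zero => rfl
  | succ n ih => rw [Function.iterate_succ_apply', ih, map_div₀, Function.iterate_succ_apply',
      Function.iterate_succ_apply']

omit hG in
lemma R10_autU_iter (φ : Coord ℓ f ≃+* Coord ℓ f) (n : ℕ) (u : (Fn ℓ f)ˣ) :
    (((autU φ)^[n] u : (Fn ℓ f)ˣ) : Fn ℓ f) = (autF φ)^[n] (u : Fn ℓ f) := by
  induction n with
  | zero => rfl
  | succ n ih =>
    rw [Function.iterate_succ_apply', Function.iterate_succ_apply', ← ih]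
    rfl

lemma R10_rotU_full (ζ : E) (hζ : ζ ^ ℓ = 1) (h0 : ζ ≠ 0) (u : (Fn ℓ f)ˣ) :
    (rotU ζ hζ h0)^[ℓ] u = u := by
  apply Units.ext
  unfold rotU
  rw [R10_autU_iter]
  obtain ⟨a, b, _, hab⟩ := IsFractionRing.div_surjective (A := Coord ℓ f) (u : Fn ℓ f)
  rw [← hab, R10_autF_div, R10_autF_iter, R10_autF_iter, R10_rot_full, R10_rot_full]

lemma R10_nrm_rot (ζ : E) (hζ : ζ ^ ℓ = 1) (h0 : ζ ≠ 0) (u : (Fn ℓ f)ˣ) :
    rotU ζ hζ h0 (nrm ζ hζ h0 u) = nrm ζ hζ h0 u := by
  unfold nrm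
  rw [map_prod]
  have h1 : ∏ i ∈ Finset.range ℓ, rotU ζ hζ h0 ((rotU ζ hζ h0)^[i] u) =
      ∏ i ∈ Finset.range ℓ, (rotU ζ hζ h0)^[i + 1] u := by
    apply Finset.prod_congr rfl
    intro i _
    rw [Function.iterate_succ_apply']
  rw [h1]
  have h2 : (∏ i ∈ Finset.range ℓ, (rotU ζ hζ h0)^[i + 1] u) * (rotU ζ hζ h0)^[0] u =
      (∏ i ∈ Finset.range ℓ, (rotU ζ hζ h0)^[i] u) * (rotU ζ hζ h0)^[ℓ] u := by
    rw [← Finset.prod_range_succ, ← Finset.prod_range_succ' (fun i => (rotU ζ hζ h0)^[i] u)]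
  rw [R10_rotU_full, Function.iterate_zero, id] at h2
  exact mul_right_cancel h2

lemma R10_xprod_rot (ζ : E) (hζ : ζ ^ ℓ = 1) (h0 : ζ ≠ 0) (D : Pt ℓ f →₀ ℤ) :
    rotU ζ hζ h0 (xprod D) = xprod D := by
  unfold xprod Finsupp.prod
  rw [map_prod]
  apply Finset.prod_congr rfl
  intro P _
  rw [map_zpow]
  congr 1
  exact rotU_polyU ζ hζ h0 _ _

lemma R10_integral (w : (Fn ℓ f)ˣ) (hw : ∀ P, 0 ≤ ord P w) :
    ∃ a : Coord ℓ f, algebraMap (Coord ℓ f) (Fn ℓ f) a = (w : Fn ℓ f) := by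
  have h1 := HeightOneSpectrum.mem_integers_of_valuation_le_one (R := Coord ℓ f) (Fn ℓ f)
    (w : Fn ℓ f) (by
      intro v
      obtain ⟨P, hP⟩ := exists_pt_of_prime v.asIdeal v.isPrime v.ne_bot
      have hv : v = P.hs := HeightOneSpectrum.ext hP.symm
      rw [hv]
      have h2 := hw P
      unfold ord at h2
      have h3 := WithZero.le_exp_of_log_le (show WithZero.log
        (P.hs.valuation (Fn ℓ f) (w : Fn ℓ f)) ≤ 0 by linarith)
      simpa using h3)
  obtain ⟨a, ha⟩ := h1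
  exact ⟨a, ha⟩

lemma R10_ord_prod {ι : Type*} (P : Pt ℓ f) (s : Finset ι) (g : ι → (Fn ℓ f)ˣ) :
    ord P (∏ i ∈ s, g i) = ∑ i ∈ s, ord P (g i) := by
  induction s using Finset.induction_on with
  | empty => simp [ord_one]
  | insert i s hi ih => rw [Finset.prod_insert hi, Finset.sum_insert hi, ord_mul, ih]

lemma R10_ord_rot_iter (ζ : E) (hζ : ζ ^ ℓ = 1) (h0 : ζ ≠ 0) (P : Pt ℓ f) (n : ℕ)
    (u : (Fn ℓ f)ˣ) :
    ord P ((rotU ζ hζ h0)^[n] u) =
      ord (P.rot (ζ ^ n) (by rw [← pow_mul, mul_comm, pow_mul, hζ, one_pow])) u := by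
  induction n generalizing u with
  | zero =>
    rw [Function.iterate_zero, id]
    congr 1
    ext
    · rfl
    · simp [Pt.rot]
  | succ n ih =>
    rw [Function.iterate_succ_apply, ih, ord_rotU]
    congr 1
    ext
    · rfl
    · simp only [Pt.rot]
      rw [pow_succ]
      ring

lemma R10_ord_nrm (ζ : E) (hζ : IsPrimitiveRoot ζ ℓ) (h0 : ζ ≠ 0) (h : (Fn ℓ f)ˣ)
    (P : Pt ℓ f) : ord P (nrm ζ hζ.pow_eq_one h0 h) = ord P (xprod (div h)) := by
  have hℓ0 : ℓ ≠ 0 := hG.prime.ne_zero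
  have : NeZero ℓ := ⟨hℓ0⟩
  unfold nrm xprod Finsupp.prod
  rw [R10_ord_prod, R10_ord_prod]
  simp only [ord_zpow, R10_ord_rot_iter, div_apply]
  by_cases hy : P.y = 0
  · have h1 : ∀ i ∈ Finset.range ℓ, ord (P.rot (ζ ^ i)
        (by rw [← pow_mul, mul_comm, pow_mul, hζ.pow_eq_one, one_pow])) h = ord P h := by
      intro i _
      congr 1
      ext
      · rfl
      · simp [Pt.rot, hy]
    rw [Finset.sum_congr rfl h1, Finset.sum_const, Finset.card_range, nsmul_eq_mul]
    have h2 : ∀ Q ∈ (div h).support, ord Q h * ord P (xs Q.x) =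
        if Q = P then ord P h * ℓ else 0 := by
      intro Q _
      by_cases hQ : Q = P
      · rw [if_pos hQ, hQ, ord_xs_of_ramified P hy]
      · rw [if_neg hQ]
        have hx : P.x ≠ Q.x := by
          intro hx
          apply hQ
          ext
          · exact hx.symm
          · have h3 := Q.eq
            rw [← hx, ← P.eq, hy, zero_pow hℓ0] at h3
            rw [hy]
            exact pow_eq_zero_iff hℓ0 |>.mp h3
        rw [ord_xs_of_ne P hx, mul_zero]
    rw [Finset.sum_congr rfl h2, Finset.sum_ite_eq']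
    split_ifs with h3
    · ring
    · rw [Finsupp.mem_support_iff, not_not, div_apply] at h3
      rw [h3]
      ring
  · have h2 : ∀ Q ∈ (div h).support, ord Q h * ord P (xs Q.x) =
        if Q.x = P.x then ord Q h else 0 := by
      intro Q _
      by_cases hQ : Q.x = P.x
      · rw [if_pos hQ, hQ, ord_xs_of_unramified P hy, mul_one]
      · rw [if_neg hQ, ord_xs_of_ne P (Ne.symm hQ), mul_zero]
    rw [Finset.sum_congr rfl h2, ← Finset.sum_filter]
    set q : ℕ → Pt ℓ f := fun i => P.rot (ζ ^ i)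
      (by rw [← pow_mul, mul_comm, pow_mul, hζ.pow_eq_one, one_pow]) with hq
    have hinj : Set.InjOn q (Finset.range ℓ : Set ℕ) := by
      intro i hi j hj hij
      rw [Finset.coe_range, Set.mem_Iio] at hi hj
      have h3 : ζ ^ i * P.y = ζ ^ j * P.y := congrArg Pt.y hij
      exact hζ.pow_inj hi hj (mul_right_cancel₀ hy h3)
    have h4 : ∑ i ∈ Finset.range ℓ, ord (q i) h =
        ∑ Q ∈ (Finset.range ℓ).image q, ord Q h := by
      rw [Finset.sum_image hinj]
    rw [h4]
    symm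
    apply Finset.sum_subset
    · intro Q hQ
      rw [Finset.mem_filter] at hQ
      have h5 : (Q.y / P.y) ^ ℓ = 1 := by
        rw [div_pow, Q.eq, P.eq, hQ.2, div_self]
        rw [← P.eq]
        exact pow_ne_zero ℓ hy
      obtain ⟨i, hi, he⟩ := hζ.eq_pow_of_pow_eq_one h5
      rw [Finset.mem_image]
      refine ⟨i, Finset.mem_range.mpr hi, ?_⟩
      ext
      · exact hQ.2.symm
      · simp only [hq, Pt.rot]
        rw [he, div_mul_cancel₀ _ hy]
    · intro Q hQ hQ'
      rw [Finset.mem_image] at hQ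
      obtain ⟨i, _, rfl⟩ := hQ
      by_contra h6
      apply hQ'
      rw [Finset.mem_filter, Finsupp.mem_support_iff, div_apply]
      exact ⟨h6, rfl⟩

lemma exists_nrm_eq (ζ : E) (hζ : IsPrimitiveRoot ζ ℓ) (h0 : ζ ≠ 0) (h : (Fn ℓ f)ˣ) :
    ∃ c : Eˣ, nrm ζ hζ.pow_eq_one h0 h = cstU c * xprod (div h) := by
  set w : (Fn ℓ f)ˣ := nrm ζ hζ.pow_eq_one h0 h * (xprod (div h))⁻¹ with hw
  have hord : ∀ P, ord P w = 0 := by
    intro P
    rw [hw, ord_mul, ord_inv, R10_ord_nrm ζ hζ h0 h P]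
    ring
  have hrot : rotU ζ hζ.pow_eq_one h0 w = w := by
    rw [hw, map_mul, map_inv, R10_nrm_rot, R10_xprod_rot]
  obtain ⟨a, ha⟩ := R10_integral w (fun P => (hord P).ge)
  obtain ⟨b, hb⟩ := R10_integral w⁻¹ (fun P => by rw [ord_inv, hord P, neg_zero])
  have hinj : Function.Injective (algebraMap (Coord ℓ f) (Fn ℓ f)) :=
    IsFractionRing.injective (Coord ℓ f) (Fn ℓ f)
  have hab : a * b = 1 := by
    apply hinj
    rw [map_mul, ha, hb, map_one]
    exact w.mul_inv
  have hfix : ∀ (v : (Fn ℓ f)ˣ) (c : Coord ℓ f), algebraMap (Coord ℓ f) (Fn ℓ f) c = (v : Fn ℓ f) →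
      rotU ζ hζ.pow_eq_one h0 v = v → rotE ζ hζ.pow_eq_one h0 c = c := by
    intro v c hc hv
    apply hinj
    rw [← autF_algebraMap, hc]
    have h1 := congrArg (fun z : (Fn ℓ f)ˣ => (z : Fn ℓ f)) hv
    exact h1
  obtain ⟨p, hp⟩ := R10_fix ζ hζ h0 a (hfix w a ha hrot)
  obtain ⟨q, hq⟩ := R10_fix ζ hζ h0 b (hfix w⁻¹ b hb (by rw [map_inv, hrot]))
  have hpq : p * q = 1 := by
    apply ofPoly_injective (ℓ := ℓ) (f := f) hG.prime.ne_zero
    rw [map_mul, ← hp, ← hq, hab, map_one]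
  have hunit : IsUnit p := IsUnit.of_mul_eq_one q hpq
  obtain ⟨c, hc, hcp⟩ := Polynomial.isUnit_iff.mp hunit
  refine ⟨hc.unit, ?_⟩
  have hwc : w = cstU hc.unit := by
    apply Units.ext
    rw [← ha, hp, ← hcp]
    rfl
  rw [← hwc, hw, inv_mul_cancel_right]

lemma nrm_mul (ζ : E) (hζ : ζ ^ ℓ = 1) (h0 : ζ ≠ 0) (h h' : (Fn ℓ f)ˣ) :
    nrm ζ hζ h0 (h * h') = nrm ζ hζ h0 h * nrm ζ hζ h0 h' := by
  unfold nrm
  rw [← Finset.prod_mul_distrib]
  apply Finset.prod_congr rfl
  intro i _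
  exact iterate_map_mul (rotU ζ hζ h0) i h h'

lemma nrm_cstU (ζ : E) (hζ : ζ ^ ℓ = 1) (h0 : ζ ≠ 0) (c : Eˣ) :
    nrm ζ hζ h0 (cstU c : (Fn ℓ f)ˣ) = cstU (c ^ ℓ) := by
  unfold nrm
  have h1 : ∀ i ∈ Finset.range ℓ, (rotU ζ hζ h0)^[i] (cstU c : (Fn ℓ f)ˣ) = cstU c := by
    intro i _
    exact Function.iterate_fixed (rotU_cstU ζ hζ h0 c) i
  rw [Finset.prod_congr rfl h1, Finset.prod_const, Finset.card_range, map_pow]

lemma xprod_add (D D' : Pt ℓ f →₀ ℤ) : xprod (D + D') = xprod D * xprod D' := by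
  unfold xprod
  exact Finsupp.prod_add_index' (fun _ => zpow_zero _) (fun _ _ _ => zpow_add _ _ _)

lemma xprod_rot (ζ : E) (hζ : ζ ^ ℓ = 1) (D : Pt ℓ f →₀ ℤ) :
    xprod (D.mapDomain (Pt.rot ζ hζ)) = xprod D := by
  unfold xprod
  rw [Finsupp.prod_mapDomain_index (fun _ => zpow_zero _) (fun _ _ _ => zpow_add _ _ _)]
  rfl

lemma symU_xprod (σ : Sym f) (D : Pt ℓ f →₀ ℤ) :
    symU σ (xprod D) = xprod (D.mapDomain (Pt.sym σ)) := by
  unfold xprod
  rw [Finsupp.prod_mapDomain_index (fun _ => zpow_zero _) (fun _ _ _ => zpow_add _ _ _)]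
  unfold Finsupp.prod
  rw [map_prod]
  apply Finset.prod_congr rfl
  intro P _
  rw [map_zpow, symU_xs]
  rfl

end Pool.Agent.Lib.MP_89bcae_ag.Sup

end

section

/-!
ROW R15 (80-160 lines). Divisors of rotated functions, of `x - a`, of `y`.

PROOF. `div` is `P ↦ ord P`. `ord P (rot⁻¹ u) = ord (P.rot ζ⁻¹) u` (`ord_rotU` applied to
`rot⁻¹ u`), i.e. `div (rot⁻¹ u)` is the image of `div u` under `P ↦ P.rot ζ`
(`Finsupp.mapDomain_apply` for the injective map `Pt.rot`). Same for `symU` (`ord_symU`).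
`div (x - a)`: the points above `a` are the `(a, ζ^i b)`, `i < ℓ`; if `b ≠ 0` they are distinct and
the order of `x - a` is `1` at each of them (`ord_xs_of_unramified`); if `b = 0` they all coincide
and the order is `ℓ` (`ord_xs_of_ramified`). `div y` : `ord_yU_...`.
-/

open Polynomial IsDedekindDomain

open scoped Classical

namespace Pool.Agent.Lib.MP_89bcae_ag.Sup

universe u

variable {ℓ : ℕ} {E : Type u} [Field E] {f : E[X]} [hG : IsGood ℓ f]

lemma R15_root (P : Pt ℓ f) (h : P.y = 0) : f.eval P.x = 0 := by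
  rw [← P.eq, h, zero_pow hG.prime.ne_zero]

lemma ramDiv_finite (e : E → ℤ) :
    (Function.support fun P : Pt ℓ f => if P.y = 0 then e P.x else 0).Finite := by
  have hf0 : f ≠ 0 := by
    intro h
    have := IsGood.natDegree_ne_zero (ℓ := ℓ) (f := f)
    rw [h] at this
    exact this natDegree_zero
  have hfin : {P : Pt ℓ f | P.y = 0}.Finite := by
    apply Set.Finite.of_finite_image (f := Pt.x)
    · apply (f.roots.toFinset.finite_toSet).subset
      rintro _ ⟨P, hP, rfl⟩
      rw [Finset.mem_coe, Multiset.mem_toFinset, mem_roots hf0]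
      exact R15_root P hP
    · intro P hP Q hQ hx
      ext
      · exact hx
      · rw [show P.y = 0 from hP, show Q.y = 0 from hQ]
  apply hfin.subset
  intro P hP
  by_contra h
  apply hP
  exact if_neg h

/-- The divisor `∑ e(θ) (θ, 0)` over the roots `θ` of `f`. -/
noncomputable def ramDiv (e : E → ℤ) : Pt ℓ f →₀ ℤ :=
  Finsupp.ofSupportFinite (fun P => if P.y = 0 then e P.x else 0) (ramDiv_finite e)

@[simp] lemma ramDiv_apply (e : E → ℤ) (P : Pt ℓ f) :
    ramDiv e P = if P.y = 0 then e P.x else 0 := rfl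

lemma ramDiv_add (e e' : E → ℤ) :
    (ramDiv (fun θ => e θ + e' θ) : Pt ℓ f →₀ ℤ) = ramDiv e + ramDiv e' := by
  ext P
  rw [Finsupp.add_apply, ramDiv_apply, ramDiv_apply, ramDiv_apply]
  split_ifs <;> simp

lemma ramDiv_sub (e e' : E → ℤ) :
    (ramDiv (fun θ => e θ - e' θ) : Pt ℓ f →₀ ℤ) = ramDiv e - ramDiv e' := by
  ext P
  rw [Finsupp.sub_apply, ramDiv_apply, ramDiv_apply, ramDiv_apply]
  split_ifs <;> simp

lemma ramDiv_smul (n : ℤ) (e : E → ℤ) :
    (ramDiv (fun θ => n * e θ) : Pt ℓ f →₀ ℤ) = n • ramDiv e := by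
  ext P
  rw [Finsupp.smul_apply, ramDiv_apply, ramDiv_apply]
  split_ifs <;> simp

lemma ramDiv_congr (e e' : E → ℤ) (h : ∀ θ, f.eval θ = 0 → e θ = e' θ) :
    (ramDiv e : Pt ℓ f →₀ ℤ) = ramDiv e' := by
  ext P
  rw [ramDiv_apply, ramDiv_apply]
  split_ifs with hP
  · exact h _ (R15_root P hP)
  · rfl

omit hG in
lemma R15_sym_inv (σ : Sym f) (Q : Pt ℓ f) : (Q.sym σ⁻¹).sym σ = Q := by
  ext
  · exact (σ : E ≃+* E).apply_symm_apply Q.x
  · exact (σ : E ≃+* E).apply_symm_apply Q.y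

omit hG in
lemma R15_sym_inj (σ : Sym f) : Function.Injective (Pt.sym (ℓ := ℓ) σ) := by
  intro P Q h
  ext
  · exact (σ : E ≃+* E).injective (congrArg Pt.x h)
  · exact (σ : E ≃+* E).injective (congrArg Pt.y h)

omit hG in
lemma R15_ne (hℓ : ℓ ≠ 0) (ζ : E) (hζ : ζ ^ ℓ = 1) : ζ ≠ 0 := by
  intro h
  rw [h, zero_pow hℓ] at hζ
  exact zero_ne_one hζ

lemma R15_rot_inj (ζ : E) (hζ : ζ ^ ℓ = 1) :
    Function.Injective (Pt.rot (f := f) ζ hζ) := by
  intro P Q h
  have h1 := congrArg Pt.x h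
  have h2 : ζ * P.y = ζ * Q.y := congrArg Pt.y h
  ext
  · exact h1
  · exact mul_left_cancel₀ (R15_ne hG.prime.ne_zero ζ hζ) h2

lemma R15_rot_inv (ζ : E) (hζ : ζ ^ ℓ = 1) (Q : Pt ℓ f) :
    (Q.rot ζ⁻¹ (by rw [inv_pow, hζ, inv_one])).rot ζ hζ = Q := by
  ext
  · rfl
  · exact mul_inv_cancel_left₀ (R15_ne hG.prime.ne_zero ζ hζ) Q.y

omit hG in
lemma R15_iter (ζ : E) (hζ : ζ ^ ℓ = 1) (P : Pt ℓ f) (n : ℕ) :
    ((Pt.rot ζ hζ)^[n] P).x = P.x ∧ ((Pt.rot ζ hζ)^[n] P).y = ζ ^ n * P.y := by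
  induction n with
  | zero => simp
  | succ n ih =>
    rw [Function.iterate_succ_apply']
    refine ⟨ih.1, ?_⟩
    show ζ * ((Pt.rot ζ hζ)^[n] P).y = _
    rw [ih.2, pow_succ]
    ring

lemma mapDomain_sym_ramDiv (σ : Sym f) (e : E → ℤ) :
    (ramDiv e : Pt ℓ f →₀ ℤ).mapDomain (Pt.sym σ) =
      ramDiv fun θ => e (((σ⁻¹ : Sym f) : E ≃+* E) θ) := by
  ext Q
  conv_lhs => rw [← R15_sym_inv σ Q]
  rw [Finsupp.mapDomain_apply (R15_sym_inj σ), ramDiv_apply, ramDiv_apply]
  have h1 : (Q.sym σ⁻¹).y = 0 ↔ Q.y = 0 :=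
    map_eq_zero_iff (((σ⁻¹ : Sym f) : E ≃+* E)) (RingEquiv.injective _)
  by_cases hQ : Q.y = 0
  · rw [if_pos hQ, if_pos (h1.mpr hQ)]
    rfl
  · rw [if_neg hQ, if_neg (fun h => hQ (h1.mp h))]

lemma mapDomain_rot_ramDiv (ζ : E) (hζ : ζ ^ ℓ = 1) (e : E → ℤ) :
    (ramDiv e : Pt ℓ f →₀ ℤ).mapDomain (Pt.rot ζ hζ) = ramDiv e := by
  ext Q
  conv_lhs => rw [← R15_rot_inv ζ hζ Q]
  rw [Finsupp.mapDomain_apply (R15_rot_inj ζ hζ), ramDiv_apply, ramDiv_apply]
  have h1 : (Q.rot ζ⁻¹ (by rw [inv_pow, hζ, inv_one])).y = 0 ↔ Q.y = 0 := by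
    show ζ⁻¹ * Q.y = 0 ↔ Q.y = 0
    rw [mul_eq_zero, inv_eq_zero]
    constructor
    · rintro (h | h)
      · exact absurd h (R15_ne hG.prime.ne_zero ζ hζ)
      · exact h
    · exact Or.inr
  by_cases hQ : Q.y = 0
  · rw [if_pos hQ, if_pos (h1.mpr hQ)]
    rfl
  · rw [if_neg hQ, if_neg (fun h => hQ (h1.mp h))]

/-- The coefficient of a divisor at `(θ, 0)` (zero if `θ` is not a root of `f`). -/
noncomputable def atR (D : Pt ℓ f →₀ ℤ) (θ : E) : ℤ :=
  if hθ : f.eval θ = 0 then D ⟨θ, 0, by rw [zero_pow hG.prime.ne_zero, hθ]⟩ else 0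

lemma div_rotU_symm (ζ : E) (hζ : ζ ^ ℓ = 1) (h0 : ζ ≠ 0) (u : (Fn ℓ f)ˣ) :
    div ((rotU ζ hζ h0).symm u) = (div u).mapDomain (Pt.rot ζ hζ) := by
  ext Q
  conv_rhs => rw [← R15_rot_inv ζ hζ Q]
  rw [Finsupp.mapDomain_apply (R15_rot_inj ζ hζ), div_apply, div_apply]
  have h1 := ord_rotU ζ hζ h0 (Q.rot ζ⁻¹ (by rw [inv_pow, hζ, inv_one]))
    ((rotU ζ hζ h0).symm u)
  rw [MulEquiv.apply_symm_apply, R15_rot_inv] at h1
  exact h1.symm

lemma div_symU (σ : Sym f) (u : (Fn ℓ f)ˣ) :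
    div (symU σ u) = (div u).mapDomain (Pt.sym σ) := by
  ext Q
  conv_rhs => rw [← R15_sym_inv σ Q]
  rw [Finsupp.mapDomain_apply (R15_sym_inj σ), div_apply, div_apply]
  have h1 := ord_symU σ (Q.sym σ⁻¹) u
  rw [R15_sym_inv] at h1
  exact h1

lemma div_xs (ζ : E) (hζ : IsPrimitiveRoot ζ ℓ) (P : Pt ℓ f) :
    div (xs P.x : (Fn ℓ f)ˣ) =
      ∑ i ∈ Finset.range ℓ, Finsupp.single ((Pt.rot ζ hζ.pow_eq_one)^[i] P) 1 := by
  have hℓ0 : ℓ ≠ 0 := hG.prime.ne_zero
  have : NeZero ℓ := ⟨hℓ0⟩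
  ext Q
  rw [div_apply, Finsupp.finsetSum_apply]
  simp only [Finsupp.single_apply]
  by_cases hx : Q.x = P.x
  · by_cases hy : Q.y = 0
    · have hPy : P.y = 0 := by
        have h1 := P.eq
        rw [← hx, ← Q.eq, hy, zero_pow hℓ0] at h1
        exact (pow_eq_zero_iff hℓ0).mp h1
      rw [← hx, ord_xs_of_ramified Q hy]
      have h2 : ∀ i ∈ Finset.range ℓ, (if (Pt.rot ζ hζ.pow_eq_one)^[i] P = Q then (1 : ℤ) else 0) =
          1 := by
        intro i _
        rw [if_pos]
        ext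
        · rw [(R15_iter ζ hζ.pow_eq_one P i).1, hx]
        · rw [(R15_iter ζ hζ.pow_eq_one P i).2, hPy, hy, mul_zero]
      rw [Finset.sum_congr rfl h2]
      simp
    · rw [← hx, ord_xs_of_unramified Q hy]
      have hPy : P.y ≠ 0 := by
        intro h
        apply hy
        have h1 := Q.eq
        rw [hx, ← P.eq, h, zero_pow hℓ0] at h1
        exact (pow_eq_zero_iff hℓ0).mp h1
      have h5 : (Q.y / P.y) ^ ℓ = 1 := by
        rw [div_pow, Q.eq, P.eq, hx, div_self]
        rw [← P.eq]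
        exact pow_ne_zero ℓ hPy
      obtain ⟨i, hi, he⟩ := hζ.eq_pow_of_pow_eq_one h5
      symm
      rw [Finset.sum_eq_single i]
      · rw [if_pos]
        ext
        · rw [(R15_iter ζ hζ.pow_eq_one P i).1, hx]
        · rw [(R15_iter ζ hζ.pow_eq_one P i).2, he, div_mul_cancel₀ _ hPy]
      · intro j hj hji
        rw [if_neg]
        intro h
        apply hji
        have h6 := congrArg Pt.y h
        rw [(R15_iter ζ hζ.pow_eq_one P j).2] at h6
        have h7 : ζ ^ j = ζ ^ i := by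
          rw [he, eq_div_iff hPy]
          exact h6
        exact hζ.pow_inj (Finset.mem_range.mp hj) hi h7
      · intro h
        exact absurd (Finset.mem_range.mpr hi) h
  · rw [ord_xs_of_ne Q hx]
    symm
    apply Finset.sum_eq_zero
    intro i _
    rw [if_neg]
    intro h
    apply hx
    rw [← h, (R15_iter ζ hζ.pow_eq_one P i).1]

lemma div_yU : div (yU : (Fn ℓ f)ˣ) = ramDiv fun _ => 1 := by
  ext P
  rw [div_apply, ramDiv_apply]
  split_ifs with h
  · exact ord_yU_of_ramified P h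
  · exact ord_yU_of_ne P h

end Pool.Agent.Lib.MP_89bcae_ag.Sup

end

section

/-!
ROW L02 (80-150 lines). Residues and `ℓ`-th roots of units.

PROOFS. `v_eq_one_of_residue`: ultrametric. Uniqueness of residues: a constant `c - c'` with
`v < 1` is zero. `root_of_unit_fixed`: let `z^ℓ = w`, `σ w = w`, `v w = 1`, so `v z = 1`. Let `c` be
the residue of `z`, `c ≠ 0`. `v (σ z - c) = v (σ (z - c)) < 1`. `σ z = ξ z` with `ξ^ℓ = 1`, and `ξ` is
a constant: it is a power of `ζ`, which is in (the image of) `F`; `v (ξ z - z) < 1` so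
`v (ξ - 1) < 1` and `ξ = 1`.
`root_fixed_of_val`: `(z ^ p^s / π' ^ i)` is an `ℓ`-th root of a fixed unit, where
`v (z ^ ℓ) ^ p^s = (ϖ ^ ℓ) ^ i`; so it is fixed; so `σ (z) ^ p^s = z ^ p^s`; as
`(σ z / z)^ℓ = 1` and `p` is prime to `ℓ`, `σ z = z`.
-/

open Polynomial

open scoped Classical

namespace Pool.Agent.Lib.MP_89bcae_ag.Sup

universe u

variable {F M : Type u} [Field F] [Field M] [Algebra F M] {v : AbsoluteValue M ℝ} {a : F} {t : M}

lemma LocCtx.residue_unique (h : LocCtx v a t) {x : M} {c c' : F}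
    (hc : v (x - algebraMap F M c) < 1) (hc' : v (x - algebraMap F M c') < 1) : c = c' := by
  by_contra hne
  have h1 := h.const (c - c') (sub_ne_zero.mpr hne)
  have h2 : algebraMap F M (c - c') = (x - algebraMap F M c') + -(x - algebraMap F M c) := by
    rw [map_sub]; ring
  have h3 := h.nonarch (x - algebraMap F M c') (-(x - algebraMap F M c))
  rw [← h2, h1, v.map_neg] at h3
  exact absurd h3 (not_le.mpr (max_lt hc' hc))

lemma LocCtx.v_const_le (h : LocCtx v a t) (c : F) : v (algebraMap F M c) ≤ 1 := by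
  by_cases hc : c = 0
  · rw [hc, map_zero, map_zero]
    exact zero_le_one
  · exact (h.const c hc).le

lemma LocCtx.v_eq_one (h : LocCtx v a t) {x : M} {c : F} (hc : v (x - algebraMap F M c) < 1)
    (h0 : c ≠ 0) : v x = 1 := by
  have h1 := h.const c h0
  apply le_antisymm
  · have h2 := h.nonarch (x - algebraMap F M c) (algebraMap F M c)
    rw [sub_add_cancel, h1] at h2
    exact h2.trans (max_le hc.le le_rfl)
  · have h2 := h.nonarch x (-(x - algebraMap F M c))
    rw [v.map_neg, show x + -(x - algebraMap F M c) = algebraMap F M c by ring, h1] at h2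
    rcases le_max_iff.mp h2 with h3 | h3
    · exact h3
    · exact absurd h3 (not_le.mpr hc)

lemma LocCtx.v_le_one (h : LocCtx v a t) {x : M} {c : F} (hc : v (x - algebraMap F M c) < 1) :
    v x ≤ 1 := by
  have h2 := h.nonarch (x - algebraMap F M c) (algebraMap F M c)
  rw [sub_add_cancel] at h2
  exact h2.trans (max_le hc.le (h.v_const_le c))

/-- Residues are multiplicative. -/
lemma LocCtx.residue_mul (h : LocCtx v a t) {x y : M} {c d : F}
    (hc : v (x - algebraMap F M c) < 1) (hd : v (y - algebraMap F M d) < 1) :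
    v (x * y - algebraMap F M (c * d)) < 1 := by
  have h1 : x * y - algebraMap F M (c * d) =
      x * (y - algebraMap F M d) + algebraMap F M d * (x - algebraMap F M c) := by
    rw [map_mul]; ring
  rw [h1]
  refine (h.nonarch _ _).trans_lt (max_lt ?_ ?_)
  · rw [v.map_mul]
    exact (mul_le_of_le_one_left (v.nonneg _) (h.v_le_one hc)).trans_lt hd
  · rw [v.map_mul]
    exact (mul_le_of_le_one_left (v.nonneg _) (h.v_const_le d)).trans_lt hc

lemma LocCtx.residue_inv (h : LocCtx v a t) {x : M} {c : F}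
    (hc : v (x - algebraMap F M c) < 1) (h0 : c ≠ 0) :
    v (x⁻¹ - algebraMap F M c⁻¹) < 1 := by
  have hx1 : v x = 1 := h.v_eq_one hc h0
  have hx0 : x ≠ 0 := by
    rintro rfl
    rw [map_zero] at hx1
    exact zero_ne_one hx1
  have hc0 : algebraMap F M c ≠ 0 := by
    intro h2
    have h3 := h.const c h0
    rw [h2, map_zero] at h3
    exact zero_ne_one h3
  have h1 : x⁻¹ - algebraMap F M c⁻¹ = -(x - algebraMap F M c) * (x⁻¹ * (algebraMap F M c)⁻¹) := by
    rw [map_inv₀]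
    field_simp
    ring
  rw [h1, v.map_mul, v.map_mul, v.map_neg, map_inv₀, map_inv₀, hx1, h.const c h0]
  simpa using hc

private lemma L02_residue_pow (h : LocCtx v a t) {x : M} {c : F}
    (hc : v (x - algebraMap F M c) < 1) (n : ℕ) :
    v (x ^ n - algebraMap F M (c ^ n)) < 1 := by
  induction n with
  | zero => simp
  | succ n ih =>
    rw [pow_succ, pow_succ]
    exact h.residue_mul ih hc

lemma LocCtx.residue_zpow (h : LocCtx v a t) {x : M} {c : F}
    (hc : v (x - algebraMap F M c) < 1) (h0 : c ≠ 0) (n : ℤ) :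
    v (x ^ n - algebraMap F M (c ^ n)) < 1 := by
  rcases n with n | n
  · rw [Int.ofNat_eq_natCast, zpow_natCast, zpow_natCast]
    exact L02_residue_pow h hc n
  · rw [zpow_negSucc, zpow_negSucc]
    exact h.residue_inv (L02_residue_pow h hc (n + 1)) (pow_ne_zero _ h0)

lemma LocCtx.residue_eval (h : LocCtx v a t) {x : M} {c : F}
    (hc : v (x - algebraMap F M c) < 1) (P : F[X]) :
    v (aeval x P - algebraMap F M (P.eval c)) < 1 := by
  induction P using Polynomial.induction_on' with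
  | add p q hp hq =>
    have h1 : aeval x (p + q) - algebraMap F M ((p + q).eval c) =
        (aeval x p - algebraMap F M (p.eval c)) + (aeval x q - algebraMap F M (q.eval c)) := by
      rw [map_add, eval_add, map_add]; ring
    rw [h1]
    exact (h.nonarch _ _).trans_lt (max_lt hp hq)
  | monomial n r =>
    rw [aeval_monomial, eval_monomial]
    refine h.residue_mul ?_ (L02_residue_pow h hc n)
    simp

lemma LocCtx.root_of_unit_fixed (h : LocCtx v a t) {ℓ : ℕ} (hℓ : ℓ ≠ 0) {ζ : F}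
    (hζ : IsPrimitiveRoot ζ ℓ) (σ : M ≃+* M) (hσ : ∀ x, v (σ x) = v x)
    (hc : ∀ c : F, σ (algebraMap F M c) = algebraMap F M c) {z : M} (h1 : v z = 1)
    (hz : σ (z ^ ℓ) = z ^ ℓ) : σ z = z := by
  have hz0 : z ≠ 0 := by
    rintro rfl
    rw [map_zero] at h1
    exact zero_ne_one h1
  obtain ⟨c, hcz⟩ := h.residue z h1.le
  have hc0 : c ≠ 0 := by
    rintro rfl
    rw [map_zero, sub_zero, h1] at hcz
    exact lt_irrefl _ hcz
  have hξ : (σ z / z) ^ ℓ = 1 := by
    rw [div_pow, ← map_pow, hz, div_self (pow_ne_zero _ hz0)]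
  have : NeZero ℓ := ⟨hℓ⟩
  have hζM : IsPrimitiveRoot (algebraMap F M ζ) ℓ :=
    hζ.map_of_injective (algebraMap F M).injective
  obtain ⟨i, -, hi⟩ := hζM.eq_pow_of_pow_eq_one hξ
  have hσz : σ z = algebraMap F M (ζ ^ i) * z := by
    rw [map_pow, hi, div_mul_cancel₀ _ hz0]
  have h2 : v (σ z - algebraMap F M c) < 1 := by
    have h3 := hσ (z - algebraMap F M c)
    rw [map_sub, hc] at h3
    rw [h3]
    exact hcz
  have h4 : v (σ z - algebraMap F M (ζ ^ i * c)) < 1 := by
    rw [hσz]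
    refine h.residue_mul ?_ hcz
    simp
  have h5 : c = ζ ^ i * c := h.residue_unique h2 h4
  have h6 : ζ ^ i = 1 := by
    have h7 : ζ ^ i * c = 1 * c := by rw [one_mul]; exact h5.symm
    exact mul_right_cancel₀ hc0 h7
  rw [hσz, h6, map_one, one_mul]

lemma LocCtx.root_fixed_of_val (h : LocCtx v a t) {ℓ p : ℕ} (hℓ : ℓ ≠ 0) (hp : p.Coprime ℓ) {ζ : F}
    (hζ : IsPrimitiveRoot ζ ℓ) (σ : M ≃+* M) (hσ : ∀ x, v (σ x) = v x)
    (hc : ∀ c : F, σ (algebraMap F M c) = algebraMap F M c) {z π' : M} (hz0 : z ≠ 0)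
    (hπ0 : π' ≠ 0) (hπ : σ π' = π') (hz : σ (z ^ ℓ) = z ^ ℓ)
    (hv : Val p (v π' ^ ℓ) (v (z ^ ℓ))) : σ z = z := by
  obtain ⟨s, i, hsi⟩ := hv
  have hπi0 : π' ^ i ≠ 0 := zpow_ne_zero _ hπ0
  have hvπ0 : v π' ≠ 0 := v.ne_zero hπ0
  have hw1 : v (z ^ p ^ s / π' ^ i) = 1 := by
    have h1 : (v (z ^ p ^ s / π' ^ i)) ^ ℓ = 1 := by
      rw [map_div₀, map_pow, map_zpow₀, div_pow]
      have h2 : (v z ^ p ^ s) ^ ℓ = (v (z ^ ℓ)) ^ p ^ s := by
        rw [map_pow, ← pow_mul, ← pow_mul, mul_comm]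
      have h3 : (v π' ^ i) ^ ℓ = (v π' ^ ℓ) ^ i := by
        rw [← zpow_natCast, ← zpow_natCast, ← zpow_mul, ← zpow_mul, mul_comm]
      rw [h2, h3, hsi]
      exact div_self (zpow_ne_zero _ (pow_ne_zero _ hvπ0))
    exact (pow_eq_one_iff_of_nonneg (v.nonneg _) hℓ).mp h1
  have hwf : σ ((z ^ p ^ s / π' ^ i) ^ ℓ) = (z ^ p ^ s / π' ^ i) ^ ℓ := by
    have h2 : (z ^ p ^ s / π' ^ i) ^ ℓ = (z ^ ℓ) ^ p ^ s / (π' ^ i) ^ ℓ := by
      rw [div_pow, ← pow_mul, ← pow_mul, mul_comm]
    rw [h2, map_div₀, map_pow, hz, map_pow, map_zpow₀, hπ]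
  have hw := h.root_of_unit_fixed hℓ hζ σ hσ hc hw1 hwf
  have hzs : σ z ^ p ^ s = z ^ p ^ s := by
    rw [map_div₀, map_zpow₀, hπ, map_pow] at hw
    exact (div_left_inj' hπi0).mp hw
  have h1 : (σ z / z) ^ p ^ s = 1 := by
    rw [div_pow, hzs, div_self (pow_ne_zero _ hz0)]
  have h2 : (σ z / z) ^ ℓ = 1 := by
    rw [div_pow, ← map_pow, hz, div_self (pow_ne_zero _ hz0)]
  have h3 : (σ z / z) ^ (Nat.gcd (p ^ s) ℓ) = 1 := pow_gcd_eq_one.mpr ⟨h1, h2⟩
  rw [(Nat.Coprime.pow_left s hp : Nat.gcd (p ^ s) ℓ = 1), pow_one] at h3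
  exact (div_eq_one_iff_eq hz0).mp h3

end Pool.Agent.Lib.MP_89bcae_ag.Sup

end

section

/-!
ROW L03 (100-180 lines). The roots of `g(x) = t` in `M`.

`f = d⁻¹ (g(x) - t)`, `g` monic of degree `m ≥ 1` with coefficients in `F`.
PROOFS. (1) is a computation. (2) If `v θ > 1` the leading term dominates: `v (g(θ)) = v(θ)^m > 1`,
while `v t ≤ 1` (`t = a + (t - a)`). (8) is the same computation. (3) Let `r` be the residue of `θ`:
`g(θ) - g(r)` has `v < 1` (`LocCtx.residue_eval`) and `g(θ) - a = t - a` has `v < 1`; the residue is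
unique. (4) `M` is algebraically closed and `f` is separable: `f = C d⁻¹ ∏ (X - θ)` over the finite
set of its roots (`IsAlgClosed.splits`, `nodup_roots`).
-/

open Polynomial

open scoped Classical

namespace Pool.Agent.Lib.MP_89bcae_ag.Sup

universe u

variable {F M : Type u} [Field F] [Field M] [Algebra F M] {v : AbsoluteValue M ℝ} {a : F} {t : M}

lemma eval_locPoly (g : F[X]) (t d x : M) :
    (locPoly g t d).eval x = d⁻¹ * (aeval x g - t) := by
  unfold locPoly
  rw [eval_mul, eval_C, eval_sub, eval_C, eval_map, aeval_def]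

lemma eval_locPoly_eq_zero {g : F[X]} {t d x : M} (hd : d ≠ 0) :
    (locPoly g t d).eval x = 0 ↔ aeval x g = t := by
  rw [eval_locPoly, mul_eq_zero, or_iff_right (inv_ne_zero hd), sub_eq_zero]

private lemma l03_monic {g : F[X]} (hg : g.Monic) (hm : g.natDegree ≠ 0) (t : M) :
    (g.map (algebraMap F M) - C t).Monic := by
  refine Monic.sub_of_left (hg.map _) ?_
  rw [degree_map, degree_eq_natDegree hg.ne_zero]
  refine degree_C_le.trans_lt ?_
  exact_mod_cast Nat.pos_of_ne_zero hm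

private lemma l03_natDegree {g : F[X]} (t : M) :
    (g.map (algebraMap F M) - C t).natDegree = g.natDegree := by
  rw [natDegree_sub_C, natDegree_map]

lemma natDegree_locPoly {g : F[X]} (hg : g.Monic) (hm : g.natDegree ≠ 0) {t d : M} (hd : d ≠ 0) :
    (locPoly g t d).natDegree = g.natDegree := by
  unfold locPoly
  rw [natDegree_C_mul (inv_ne_zero hd), l03_natDegree]

/-- The finite set of the roots of `g(x) = t`. -/
noncomputable def rts (f : M[X]) : Finset M := f.roots.toFinset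

lemma mem_rts {f : M[X]} (hf : f ≠ 0) {θ : M} : θ ∈ rts f ↔ f.eval θ = 0 := by
  unfold rts
  rw [Multiset.mem_toFinset, mem_roots hf, IsRoot.def]

lemma locPoly_ne_zero {g : F[X]} (hg : g.Monic) (hm : g.natDegree ≠ 0) {t d : M} (hd : d ≠ 0) :
    locPoly g t d ≠ 0 := by
  unfold locPoly
  exact mul_ne_zero (C_ne_zero.2 (inv_ne_zero hd)) (l03_monic hg hm t).ne_zero

private lemma l03_vconst (h : LocCtx v a t) (c : F) : v (algebraMap F M c) ≤ 1 := by
  by_cases hc : c = 0
  · rw [hc, map_zero, map_zero]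
    exact zero_le_one
  · exact (h.const c hc).le

private lemma l03_vt (h : LocCtx v a t) : v t ≤ 1 := by
  have h1 : t = (t - algebraMap F M a) + algebraMap F M a := by ring
  rw [h1]
  exact (h.nonarch _ _).trans (max_le h.lt_one.le (l03_vconst h a))

private lemma l03_sum (h : LocCtx v a t) (s : Finset ℕ) (y : ℕ → M) {B : ℝ} (hB : 0 < B)
    (hy : ∀ i ∈ s, v (y i) < B) : v (∑ i ∈ s, y i) < B := by
  induction s using Finset.induction_on with
  | empty => rwa [Finset.sum_empty, map_zero]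
  | insert j s hj ih =>
    rw [Finset.sum_insert hj]
    refine (h.nonarch _ _).trans_lt (max_lt (hy j (Finset.mem_insert_self _ _)) ?_)
    exact ih fun i hi => hy i (Finset.mem_insert_of_mem hi)

/-- the value of a sum with a strictly dominant term -/
private lemma l03_dom (h : LocCtx v a t) {x y : M} (hxy : v y < v x) : v (x + y) = v x := by
  refine le_antisymm ((h.nonarch _ _).trans (max_le le_rfl hxy.le)) ?_
  by_contra hlt
  have hlt' := not_le.1 hlt
  have h1 : x = (x + y) + (-y) := by ring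
  have h2 : v x ≤ max (v (x + y)) (v (-y)) := by
    conv_lhs => rw [h1]
    exact h.nonarch _ _
  rw [v.map_neg] at h2
  exact absurd h2 (not_le.2 (max_lt hlt' hxy))

private lemma l03_large (h : LocCtx v a t) {g : F[X]} (hg : g.Monic) (hm : g.natDegree ≠ 0)
    {x : M} (hx : 1 < v x) : v (aeval x g - t) = v x ^ g.natDegree := by
  have hpos : 0 < v x := zero_lt_one.trans hx
  have h1 : aeval x g - t = x ^ g.natDegree +
      (∑ i ∈ Finset.range g.natDegree, algebraMap F M (g.coeff i) * x ^ i + (-t)) := by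
    rw [aeval_eq_sum_range, Finset.sum_range_succ, hg.coeff_natDegree, one_smul]
    simp only [Algebra.smul_def]
    ring
  have hP : 0 < v x ^ g.natDegree := pow_pos hpos _
  rw [h1, l03_dom h, map_pow]
  rw [map_pow]
  refine (h.nonarch _ _).trans_lt (max_lt ?_ ?_)
  · refine l03_sum h _ _ hP fun i hi => ?_
    rw [map_mul, map_pow]
    calc v (algebraMap F M (g.coeff i)) * v x ^ i ≤ 1 * v x ^ i :=
          mul_le_mul_of_nonneg_right (l03_vconst h _) (pow_nonneg hpos.le _)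
      _ = v x ^ i := one_mul _
      _ < v x ^ g.natDegree := pow_lt_pow_right₀ hx (Finset.mem_range.1 hi)
  · rw [v.map_neg]
    exact (l03_vt h).trans_lt (one_lt_pow₀ hx hm)

/-- (2) -/
lemma LocCtx.v_root_le (h : LocCtx v a t) {g : F[X]} (hg : g.Monic) (hm : g.natDegree ≠ 0) {θ : M}
    (hθ : aeval θ g = t) : v θ ≤ 1 := by
  by_contra hlt
  have hx := not_le.1 hlt
  have h1 := l03_large h hg hm hx
  rw [hθ, sub_self, map_zero] at h1
  exact (pow_pos (zero_lt_one.trans hx) g.natDegree).ne h1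

/-- (8) -/
lemma LocCtx.v_eval_of_large (h : LocCtx v a t) {g : F[X]} (hg : g.Monic) (hm : g.natDegree ≠ 0)
    {x : M} (hx : 1 < v x) : v (aeval x g - t) = v x ^ g.natDegree :=
  l03_large h hg hm hx

/-- (3) -/
lemma LocCtx.eval_residue (h : LocCtx v a t) {g : F[X]} {θ : M} (hθ : aeval θ g = t) {r : F}
    (hr : v (θ - algebraMap F M r) < 1) : g.eval r = a := by
  have h1 := h.residue_eval hr g
  rw [hθ] at h1
  exact h.residue_unique h1 h.lt_one

private lemma l03_split [IsAlgClosed M] {g : F[X]} (hg : g.Monic) (hm : g.natDegree ≠ 0) {t d : M}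
    (hd : d ≠ 0) (hs : (locPoly g t d).Separable) :
    g.map (algebraMap F M) - C t = ∏ θ ∈ rts (locPoly g t d), (X - C θ) := by
  have hmon := l03_monic hg hm t
  have hroots : (locPoly g t d).roots = (g.map (algebraMap F M) - C t).roots := by
    unfold locPoly
    exact roots_C_mul _ (inv_ne_zero hd)
  have hnd : (g.map (algebraMap F M) - C t).roots.Nodup := by
    rw [← hroots]
    exact nodup_roots hs
  have hsp : (g.map (algebraMap F M) - C t).Splits := IsAlgClosed.splits _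
  have h2 := hsp.eq_prod_roots_of_monic hmon
  have h3 : ∏ θ ∈ rts (locPoly g t d), (X - C θ) =
      ((g.map (algebraMap F M) - C t).roots.map fun θ => X - C θ).prod := by
    unfold rts
    rw [hroots, Finset.prod, Multiset.toFinset_val, hnd.dedup]
  rw [h3]
  exact h2

/-- (4) -/
lemma eval_sub_eq_prod [IsAlgClosed M] {g : F[X]} (hg : g.Monic) (hm : g.natDegree ≠ 0) {t d : M}
    (hd : d ≠ 0) (hs : (locPoly g t d).Separable) (x : M) :
    aeval x g - t = ∏ θ ∈ rts (locPoly g t d), (x - θ) := by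
  have h1 := congrArg (eval x) (l03_split hg hm hd hs)
  rw [eval_sub, eval_C, eval_map, ← aeval_def, eval_prod] at h1
  simpa using h1

lemma card_rts [IsAlgClosed M] {g : F[X]} (hg : g.Monic) (hm : g.natDegree ≠ 0) {t d : M}
    (hd : d ≠ 0) (hs : (locPoly g t d).Separable) :
    (rts (locPoly g t d)).card = g.natDegree := by
  have h1 := congrArg natDegree (l03_split hg hm hd hs)
  rw [l03_natDegree, natDegree_prod_of_monic _ _ fun θ _ => monic_X_sub_C θ] at h1
  simpa using h1.symm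

lemma derivative_locPoly_eval [IsAlgClosed M] {g : F[X]} (hg : g.Monic) (hm : g.natDegree ≠ 0)
    {t d : M} (hd : d ≠ 0) (hs : (locPoly g t d).Separable) {θ : M}
    (hθ : θ ∈ rts (locPoly g t d)) :
    (derivative (locPoly g t d)).eval θ =
      d⁻¹ * ∏ θ' ∈ (rts (locPoly g t d)).erase θ, (θ - θ') := by
  have h1 : locPoly g t d = C d⁻¹ * ((X - C θ) * ∏ θ' ∈ (rts (locPoly g t d)).erase θ,
      (X - C θ')) := by
    rw [Finset.mul_prod_erase (rts (locPoly g t d)) (fun θ => X - C θ) hθ, ← l03_split hg hm hd hs]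
    rfl
  have h2 := congrArg (fun q : M[X] => (derivative q).eval θ) h1
  simp only [derivative_C_mul, derivative_mul, derivative_sub, derivative_X, derivative_C,
    eval_mul, eval_C, eval_add, eval_sub, eval_X, sub_self, zero_mul, sub_zero, one_mul, add_zero,
    eval_prod, mul_one] at h2
  rw [h2]
  simp

end Pool.Agent.Lib.MP_89bcae_ag.Sup

end

end
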