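import Mathlib
import Pool.Agent.Lib.MP_89bcae_ag.DefsInf7
import Pool.Agent.Lib.MP_89bcae_ag.DefsSup
import Pool.Agent.Lib.MP_89bcae_ag.Tk.K006
import Pool.Agent.Lib.MP_89bcae_ag.Tk.K010
import Pool.Agent.Lib.MP_89bcae_ag.Tk.K000

set_option linter.all false
attribute [local instance 100000] Pool.Agent.Lib.MP_89bcae_ag.Brt.tffFields
attribute [local instance 100000] Pool.Agent.Lib.MP_89bcae_ag.Wt.ifrNF Pool.Agent.Lib.MP_89bcae_ag.Wt.iddNF

namespace Pool.Agent.Lib.MP_89bcae_ag.Bra
end Pool.Agent.Lib.MP_89bcae_ag.Bra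
namespace Pool.Agent.Lib.MP_89bcae_ag.Wt
end Pool.Agent.Lib.MP_89bcae_ag.Wt
namespace Pool.Agent.Lib.MP_89bcae_ag.Wt.Lns
end Pool.Agent.Lib.MP_89bcae_ag.Wt.Lns

section

/-!
# Simple collisions of the polynomials `D(g(x))`
-/

open Polynomial

namespace Pool.Agent.Lib.MP_89bcae_ag

/-- The polynomial `D(g(x))` over the local ring `R` has a simple collision: modulo the maximal ideal
`𝔪` of `R`, `D` is `(t - a)² h`, the polynomial `((t - a) h)(g(x))` is separable, and `D(a)` is not
in `𝔪²`. -/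
def IsCollision7 {R : Type*} [CommRing R] [IsLocalRing R] (g D : R[X]) : Prop :=
  ∃ (a : R) (h : (IsLocalRing.ResidueField R)[X]),
    D.map (IsLocalRing.residue R) = (X - C (IsLocalRing.residue R a)) ^ 2 * h ∧
    (((X - C (IsLocalRing.residue R a)) * h).comp (g.map (IsLocalRing.residue R))).Separable ∧
    D.eval a ∉ IsLocalRing.maximalIdeal R ^ 2

/-- `Aut(F/k)` is transitive on the pairs `(b, c)` of roots of `D(g(x))` in `F` with
`g(b) ≠ g(c)`. -/
def IsPairTransitive7 (k F : Type*) [Field k] [Field F] [Algebra k F] (g D : k[X]) : Prop :=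
  ∀ b c b' c' : F, aeval b (D.comp g) = 0 → aeval c (D.comp g) = 0 →
    aeval b' (D.comp g) = 0 → aeval c' (D.comp g) = 0 →
    aeval b g ≠ aeval c g → aeval b' g ≠ aeval c' g → ∃ σ : F ≃ₐ[k] F, σ b = b' ∧ σ c = c'


end Pool.Agent.Lib.MP_89bcae_ag

end

section

/-!
# Orders at a discrete valuation of a subfield
-/

open Polynomial WithZero

open scoped Classical

namespace Pool.Agent.Lib.MP_89bcae_ag

section Order

variable {k F : Type*} [Field k] [Field F] [Algebra k F] {K : IntermediateField k F}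
  (w : Valuation K ℤᵐ⁰)

/-- Minus the additive order at `w` of the element `x` of `F`, for `x` in `K`. -/
noncomputable def ordF7 (x : F) : ℤ := if h : x ∈ K then WithZero.log (w ⟨x, h⟩) else 0

theorem ordF7_of_mem {x : F} (h : x ∈ K) : ordF7 w x = WithZero.log (w ⟨x, h⟩) := dif_pos h

theorem ordF7_mul {x y : F} (hx : x ∈ K) (hy : y ∈ K) (hx0 : x ≠ 0) (hy0 : y ≠ 0) :
    ordF7 w (x * y) = ordF7 w x + ordF7 w y := by
  rw [ordF7_of_mem w hx, ordF7_of_mem w hy, ordF7_of_mem w (K.mul_mem hx hy)]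
  have h1 : w ⟨x, hx⟩ ≠ 0 := (Valuation.ne_zero_iff w).2 fun h => hx0 (congrArg Subtype.val h)
  have h2 : w ⟨y, hy⟩ ≠ 0 := (Valuation.ne_zero_iff w).2 fun h => hy0 (congrArg Subtype.val h)
  rw [← WithZero.log_mul h1 h2, ← map_mul]
  rfl

theorem ordF7_one : ordF7 w (1 : F) = 0 := by
  rw [ordF7_of_mem w K.one_mem]
  have : (⟨1, K.one_mem⟩ : K) = 1 := rfl
  rw [this, map_one, WithZero.log_one]

theorem ordF7_neg (x : F) : ordF7 w (-x) = ordF7 w x := by
  by_cases hx : x ∈ K
  · rw [ordF7_of_mem w hx, ordF7_of_mem w (K.neg_mem hx)]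
    have : (⟨-x, K.neg_mem hx⟩ : K) = -⟨x, hx⟩ := rfl
    rw [this, Valuation.map_neg]
  · rw [ordF7, ordF7, dif_neg hx, dif_neg fun h => hx (by simpa using K.neg_mem h)]

theorem ordF7_sub_comm (x y : F) : ordF7 w (x - y) = ordF7 w (y - x) := by
  rw [← ordF7_neg w (x - y), neg_sub]

theorem ordF7_prod {ι : Type*} (s : Finset ι) (f : ι → F) (hf : ∀ i ∈ s, f i ∈ K)
    (hf0 : ∀ i ∈ s, f i ≠ 0) : ordF7 w (∏ i ∈ s, f i) = ∑ i ∈ s, ordF7 w (f i) := by
  induction s using Finset.induction_on with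
  | empty => simp [ordF7_one]
  | insert i s hi ih =>
    rw [Finset.prod_insert hi, Finset.sum_insert hi,
      ordF7_mul w (hf i (Finset.mem_insert_self i s))
        (K.prod_mem fun j hj => hf j (Finset.mem_insert_of_mem hj))
        (hf0 i (Finset.mem_insert_self i s))
        (Finset.prod_ne_zero_iff.2 fun j hj => hf0 j (Finset.mem_insert_of_mem hj)),
      ih (fun j hj => hf j (Finset.mem_insert_of_mem hj))
        (fun j hj => hf0 j (Finset.mem_insert_of_mem hj))]

end Order


end Pool.Agent.Lib.MP_89bcae_ag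

end

section

/-!
ROW G09 (100-200 lines). Kummer theory for a continuous character of a subgroup of `Aut(Ω/L)`.

STATEMENT. `Ω/L` normal, `ζ` a primitive `ℓ`-th root of unity fixed by `H`, `χ` a function to `ZMod ℓ`
which is additive on the subgroup `H` of `Aut(Ω/L)` and vanishes on the elements of `H` which fix a
certain finite set `S`. Then there is `z ≠ 0` with `σ z = ζ^{χ(σ)} z` for all `σ` in `H`.

PROOF. Let `E` be the normal closure in `Ω` of `L(S)`: finite over `L`, stable under `H`. `H` acts on `E`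
through a finite group `G` of automorphisms of the field `E` (the image of `H → Aut(E/L)`), and
`χ` factors through `G`. By the linear independence of characters (`linearIndependent_monoidHom`) there
is `y` in `E` with `z = ∑_{s∈G} ζ^{-χ(s)} s(y) ≠ 0`. For `σ` in `H`,
`σ z = ∑ ζ^{-χ(s)} (σ s)(y) = ζ^{χ(σ)} z`.
-/

open Polynomial

open scoped Classical

namespace Pool.Agent.Lib.MP_89bcae_ag.Sup

theorem g09_pow_val_add {Ω : Type*} [Field Ω] {ℓ : ℕ} [Fact ℓ.Prime] {ζ : Ω} (hζ : ζ ^ ℓ = 1)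
    (a b : ZMod ℓ) : ζ ^ (a + b).val = ζ ^ a.val * ζ ^ b.val := by
  rw [ZMod.val_add, ← pow_eq_pow_mod _ hζ, pow_add]

theorem exists_kummer_char {L Ω : Type*} [Field L] [Field Ω] [Algebra L Ω] [Normal L Ω] {ℓ : ℕ}
    [Fact ℓ.Prime] {ζ : Ω} (hζ : IsPrimitiveRoot ζ ℓ) (H : Subgroup (Ω ≃ₐ[L] Ω))
    (hζH : ∀ σ ∈ H, σ ζ = ζ) (χ : (Ω ≃ₐ[L] Ω) → ZMod ℓ)
    (hχ : ∀ σ ∈ H, ∀ τ ∈ H, χ (σ * τ) = χ σ + χ τ) (S : Finset Ω)
    (hS : ∀ σ ∈ H, (∀ x ∈ S, σ x = x) → χ σ = 0) :
    ∃ z : Ω, z ≠ 0 ∧ ∀ σ ∈ H, σ z = ζ ^ (χ σ).val * z := by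
  have hζℓ : ζ ^ ℓ = 1 := hζ.pow_eq_one
  have hζ0 : ζ ≠ 0 := hζ.ne_zero (Fact.out : ℓ.Prime).ne_zero
  have hfd : FiniteDimensional L (IntermediateField.adjoin L (S : Set Ω)) :=
    IntermediateField.finiteDimensional_adjoin
      (fun x _ => (Algebra.IsAlgebraic.isAlgebraic (R := L) x).isIntegral)
  let E : IntermediateField L Ω :=
    IntermediateField.normalClosure L (IntermediateField.adjoin L (S : Set Ω)) Ω
  have hEn : Normal L E := inferInstanceAs (Normal L
    (IntermediateField.normalClosure L (IntermediateField.adjoin L (S : Set Ω)) Ω))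
  have hEfd : FiniteDimensional L E := inferInstanceAs (FiniteDimensional L
    (IntermediateField.normalClosure L (IntermediateField.adjoin L (S : Set Ω)) Ω))
  have hSE : ∀ x ∈ S, x ∈ E := by
    intro x hx
    have h1 : x ∈ IntermediateField.adjoin L (S : Set Ω) :=
      IntermediateField.subset_adjoin L (S : Set Ω) hx
    exact (IntermediateField.le_normalClosure _) h1
  let res : (Ω ≃ₐ[L] Ω) →* (E ≃ₐ[L] E) := AlgEquiv.restrictNormalHom E
  have hres : ∀ (σ : Ω ≃ₐ[L] Ω) (x : E), algebraMap E Ω (res σ x) = σ (algebraMap E Ω x) :=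
    fun σ x => AlgEquiv.restrictNormal_commutes σ E x
  have hfac : ∀ σ ∈ H, ∀ τ ∈ H, res σ = res τ → χ σ = χ τ := by
    intro σ hσ τ hτ h
    have h1 : ∀ x ∈ S, (σ⁻¹ * τ) x = x := by
      intro x hx
      have h2 := hres σ ⟨x, hSE x hx⟩
      have h3 := hres τ ⟨x, hSE x hx⟩
      rw [h] at h2
      have h4 : σ x = τ x := h2.symm.trans h3
      rw [AlgEquiv.mul_apply, ← h4, ← AlgEquiv.mul_apply, inv_mul_cancel]
      rfl
    have h5 := hS _ (H.mul_mem (H.inv_mem hσ) hτ) h1
    have h6 := hχ σ hσ _ (H.mul_mem (H.inv_mem hσ) hτ)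
    rw [mul_inv_cancel_left, h5, add_zero] at h6
    exact h6.symm
  let G : Subgroup (E ≃ₐ[L] E) := H.map res
  have hG : ∀ s : G, ∃ σ ∈ H, res σ = s := by
    intro s
    obtain ⟨σ, hσ, h⟩ := s.2
    exact ⟨σ, hσ, h⟩
  choose lift hlift1 hlift2 using hG
  have hfin : Finite (E ≃ₐ[L] E) := inferInstance
  let hft : Fintype G := Fintype.ofFinite G
  let Φ : G → (E →* Ω) := fun s =>
    ((algebraMap E Ω : E →+* Ω).comp ((s : E ≃ₐ[L] E) : E →+* E) : E →+* Ω)
  have hΦ : ∀ (s : G) (y : E), Φ s y = algebraMap E Ω ((s : E ≃ₐ[L] E) y) := fun s y => rfl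
  have hΦinj : Function.Injective Φ := by
    intro s s' h
    apply Subtype.ext
    apply AlgEquiv.ext
    intro y
    have h1 := DFunLike.congr_fun h y
    rw [hΦ, hΦ] at h1
    exact (algebraMap E Ω).injective h1
  have hlin := (linearIndependent_monoidHom E Ω).comp Φ hΦinj
  rw [Fintype.linearIndependent_iff] at hlin
  have hex : ∃ y : E, ∑ s : G, ζ ^ (-χ (lift s)).val * Φ s y ≠ 0 := by
    by_contra hcon
    push Not at hcon
    have h1 := hlin (fun s => ζ ^ (-χ (lift s)).val) (by
      funext y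
      simp only [Function.comp_apply, Finset.sum_apply, Pi.smul_apply, smul_eq_mul, Pi.zero_apply]
      exact hcon y) 1
    exact pow_ne_zero _ hζ0 h1
  obtain ⟨y, hy⟩ := hex
  refine ⟨∑ s : G, ζ ^ (-χ (lift s)).val * Φ s y, hy, ?_⟩
  intro σ hσ
  have hσG : res σ ∈ G := ⟨σ, hσ, rfl⟩
  rw [map_sum, Finset.mul_sum]
  apply Fintype.sum_equiv (Equiv.mulLeft (⟨res σ, hσG⟩ : G))
  intro s
  rw [Equiv.coe_mulLeft]
  have h1 : χ (lift (⟨res σ, hσG⟩ * s)) = χ σ + χ (lift s) := by
    rw [← hχ σ hσ _ (hlift1 s)]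
    apply hfac _ (hlift1 _) _ (H.mul_mem hσ (hlift1 s))
    rw [hlift2, map_mul, hlift2]
    rfl
  have h2 : -χ (lift s) = χ σ + -χ (lift (⟨res σ, hσG⟩ * s)) := by
    rw [h1]
    ring
  have h3 : Φ (⟨res σ, hσG⟩ * s) y = σ (Φ s y) := by
    rw [hΦ, hΦ, ← hres]
    rfl
  rw [map_mul, map_pow, hζH σ hσ, h3, h2, g09_pow_val_add hζℓ, mul_assoc]

end Pool.Agent.Lib.MP_89bcae_ag.Sup

end

section

/-!
# Reduction of the roots of `D(g(x))` and of the Rédei maps modulo a place where `D(g(x))` splits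
-/

open Polynomial

open scoped Classical

namespace Pool.Agent.Lib.MP_89bcae_ag

set_option linter.unusedSectionVars false
set_option linter.style.haveILetI false

section Sep

variable {κ : Type*} [Field κ]


/-- If `D ∘ g` is separable, so is `D`. -/
lemma separable_left7 {g D : κ[X]} (hg : g.natDegree ≠ 0) (h : (D.comp g).Separable) :
    D.Separable := by
  rw [Polynomial.Separable, isCoprime_iff_aeval_ne_zero_of_isAlgClosed (k := κ)
    (AlgebraicClosure κ)]
  intro a
  by_contra hcon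
  push Not at hcon
  obtain ⟨h1, h2⟩ := hcon
  have hdeg : (g.map (algebraMap κ (AlgebraicClosure κ)) - C a).degree ≠ 0 := by
    intro h3
    have h4 := natDegree_eq_zero_iff_degree_le_zero.mpr h3.le
    rw [natDegree_sub_C, natDegree_map] at h4
    exact hg h4
  obtain ⟨b, hb⟩ := IsAlgClosed.exists_root _ hdeg
  have hb2 : aeval b g = a := by
    rw [IsRoot.def, eval_sub, eval_C, sub_eq_zero, eval_map_algebraMap] at hb
    exact hb
  obtain ⟨u, v, huv⟩ := h
  have h3 := congrArg (aeval b) huv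
  rw [derivative_comp, map_add, map_mul, map_mul, map_mul, aeval_comp, aeval_comp, hb2, h1, h2] at h3
  simp at h3

end Sep

variable {R K F κ Fκ : Type*} [CommRing R] [IsDomain R] [IsIntegrallyClosed R] [Field K]
  [Algebra R K] [IsFractionRing R K] [Field F] [Algebra K F] [Algebra R F] [IsScalarTower R K F]
  [IsAlgClosed F] [Algebra.IsAlgebraic K F]
  [Field κ] [Fintype κ] [Field Fκ] [Algebra κ Fκ] [Algebra.IsAlgebraic κ Fκ] [IsAlgClosed Fκ]


section Red

variable {ρ : integralClosure R F →+* Fκ}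


end Red

end Pool.Agent.Lib.MP_89bcae_ag

end

section

/-!
# The valuation attached to a simple collision
-/

open Polynomial IsDedekindDomain WithZero

open scoped Classical Pointwise

namespace Pool.Agent.Lib.MP_89bcae_ag

set_option linter.style.haveILetI false
set_option linter.unusedSectionVars false

section Red

/-- Reduction of a product of linear factors. -/
lemma map_prod_red7 {B K : Type*} [CommRing B] [Field K] [Algebra B K]
    (hinj : Function.Injective (algebraMap B K)) {p : B[X]} {c : B}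
    {T : Finset K} {β : K → B} (hβ : ∀ b ∈ T, algebraMap B K (β b) = b)
    (h : p.map (algebraMap B K) = C (algebraMap B K c) * ∏ b ∈ T, (X - C b)) :
    p = C c * ∏ b ∈ T, (X - C (β b)) := by
  apply Polynomial.map_injective _ hinj
  rw [h, Polynomial.map_mul, map_C, Polynomial.map_prod]
  congr 1
  refine Finset.prod_congr rfl fun b hb => ?_
  rw [Polynomial.map_sub, map_X, map_C, hβ b hb]

lemma map_prod_red7' {B ι κ : Type*} [CommRing B] [Field κ] (q : B →+* κ) {c : B} {T : Finset ι}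
    {β : ι → B} :
    (C c * ∏ b ∈ T, (X - C (β b))).map q = C (q c) * ∏ b ∈ T, (X - C (q (β b))) := by
  rw [Polynomial.map_mul, map_C, Polynomial.map_prod]
  congr 1
  refine Finset.prod_congr rfl fun b hb => ?_
  rw [Polynomial.map_sub, map_X, map_C]

variable {κ ι : Type*} [Field κ]

/-- The multiplicity of a root of a product of linear factors. -/
lemma rootMultiplicity_prod7 {c : κ} (hc : c ≠ 0) (T : Finset ι) (r : ι → κ) (γ : κ) :
    (C c * ∏ b ∈ T, (X - C (r b))).rootMultiplicity γ = (T.filter fun b => r b = γ).card := by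
  have h1 : (∏ b ∈ T, (X - C (r b))) ≠ 0 :=
    Finset.prod_ne_zero_iff.mpr fun b _ => X_sub_C_ne_zero _
  rw [rootMultiplicity_mul (mul_ne_zero (C_ne_zero.mpr hc) h1), rootMultiplicity_C, zero_add]
  clear h1
  induction T using Finset.induction_on with
  | empty => simp
  | insert b T hb ih =>
    rw [Finset.prod_insert hb, rootMultiplicity_mul, ih, rootMultiplicity_X_sub_C,
      Finset.filter_insert]
    · split_ifs with h1 h2 h2
      · rw [Finset.card_insert_of_notMem (fun h => hb (Finset.mem_of_mem_filter _ h)), add_comm]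
      · exact absurd h1.symm h2
      · exact absurd h2.symm h1
      · rw [zero_add]
    · exact mul_ne_zero (X_sub_C_ne_zero _)
        (Finset.prod_ne_zero_iff.mpr fun b _ => X_sub_C_ne_zero _)

/-- The reductions of the roots of `D` at a simple collision. -/
lemma res_roots7 {u a : κ} (hu : u ≠ 0) {A : Finset ι} {r : ι → κ} {h₁ : κ[X]}
    (hsep : h₁.Separable) (ha : h₁.eval a = 0)
    (h : C u * ∏ α ∈ A, (X - C (r α)) = (X - C a) * h₁) :
    (∀ α ∈ A, ∀ α' ∈ A, α ≠ α' → r α = r α' → r α = a) ∧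
    (A.filter fun α => r α = a).card = 2 ∧ ∀ α ∈ A, h₁.eval (r α) = 0 := by
  have h10 : h₁ ≠ 0 := hsep.ne_zero
  have key : ∀ γ, (A.filter fun α => r α = γ).card =
      (if γ = a then 1 else 0) + h₁.rootMultiplicity γ := by
    intro γ
    rw [← rootMultiplicity_prod7 hu A r γ, h,
      rootMultiplicity_mul (mul_ne_zero (X_sub_C_ne_zero _) h10), rootMultiplicity_X_sub_C]
  have hle : ∀ γ, h₁.rootMultiplicity γ ≤ 1 := fun γ =>
    rootMultiplicity_le_one_of_separable hsep γ
  have hpos : 0 < h₁.rootMultiplicity a := (rootMultiplicity_pos h10).mpr ha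
  refine ⟨fun α hα α' hα' hne hr => ?_, ?_, fun α hα => ?_⟩
  · by_contra hna
    have h1 := key (r α)
    rw [if_neg hna, zero_add] at h1
    have h2 : 1 < (A.filter fun β => r β = r α).card := by
      rw [Finset.one_lt_card]
      exact ⟨α, Finset.mem_filter.mpr ⟨hα, rfl⟩, α', Finset.mem_filter.mpr ⟨hα', hr.symm⟩, hne⟩
    have h3 := hle (r α)
    omega
  · have h1 := key a
    rw [if_pos rfl] at h1
    have h3 := hle a
    omega
  · by_cases h1 : r α = a
    · rw [h1]; exact ha
    · have h2 := congrArg (eval (r α)) h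
      rw [eval_mul, eval_mul, eval_prod, Finset.prod_eq_zero hα (by simp), mul_zero, eval_sub,
        eval_X, eval_C, eq_comm, mul_eq_zero, sub_eq_zero] at h2
      exact h2.resolve_left h1

/-- The reductions of the roots of `g - α` at a simple collision. -/
lemma res_fibre7 {g h₁ : κ[X]} {γ : κ} (hsep : (h₁.comp g).Separable) (hγ : h₁.eval γ = 0)
    {T : Finset ι} {r : ι → κ} (h : g - C γ = ∏ b ∈ T, (X - C (r b))) :
    ∀ b ∈ T, ∀ c ∈ T, b ≠ c → r b ≠ r c := by
  intro b hb c hc hbc hr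
  have h1 : (g - C γ) ∣ h₁.comp g := by
    obtain ⟨w, hw⟩ := dvd_iff_isRoot.mpr hγ
    refine ⟨w.comp g, ?_⟩
    rw [hw, mul_comp, sub_comp, X_comp, C_comp]
  have h2 : (g - C γ).Separable := hsep.of_dvd h1
  have h3 : (X - C (r b)) * (X - C (r b)) ∣ g - C γ := by
    rw [h, ← Finset.mul_prod_erase T _ hb]
    apply mul_dvd_mul_left
    have h4 : c ∈ T.erase b := Finset.mem_erase.mpr ⟨hbc.symm, hc⟩
    rw [hr]
    exact Finset.dvd_prod_of_mem (fun i => X - C (r i)) h4
  have h4 := h2.squarefree _ h3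
  exact not_isUnit_X_sub_C _ h4

end Red

end Pool.Agent.Lib.MP_89bcae_ag

end

section

/-!
# The valuation attached to a simple collision
-/

open Polynomial IsDedekindDomain WithZero

open scoped Classical Pointwise

namespace Pool.Agent.Lib.MP_89bcae_ag

set_option linter.style.haveILetI false
set_option linter.unusedSectionVars false

/-- A root of a polynomial with invertible leading coefficient is integral. -/
lemma integral_root7 {R F : Type*} [CommRing R] [IsDomain R] [Field F] [Algebra R F] {f : R[X]}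
    (hu : IsUnit f.leadingCoeff) {x : F} (hx : aeval x f = 0) : IsIntegral R x := by
  obtain ⟨u, hu⟩ := hu
  refine ⟨C (↑u⁻¹ : R) * f, ?_, ?_⟩
  · rw [Monic, leadingCoeff_mul, leadingCoeff_C, ← hu]
    exact u.inv_mul
  · rw [eval₂_mul]
    change _ * aeval x f = 0
    rw [hx, mul_zero]

lemma deriv_eval7 {K : Type*} [Field K] (α₁ α₂ : K) (p : K[X]) (x : K) :
    (derivative ((X - C α₁) * (X - C α₂) * p)).eval x =
      ((x - α₁) + (x - α₂)) * p.eval x + (x - α₁) * (x - α₂) * (derivative p).eval x := by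
  simp only [derivative_mul, derivative_sub, derivative_X, derivative_C, eval_add, eval_mul,
    eval_sub, eval_X, eval_C, eval_one, eval_zero]
  ring

/-- The valuation attached to a simple collision. -/
theorem exists_val7 {R k K : Type*} [CommRing R] [IsDomain R] [IsDiscreteValuationRing R] [Field k]
    [Algebra R k] [IsFractionRing R k] [Field K] [Algebra k K] [Algebra R K] [IsScalarTower R k K]
    [FiniteDimensional k K] [IsGalois k K] (h2 : IsUnit (2 : R)) {g D : R[X]}
    (hgdeg : g.natDegree ≠ 0) (hg : g.Monic) (hlc : IsUnit D.leadingCoeff) (S A : Finset K)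
    (hDA : D.map (algebraMap R K) =
      C (algebraMap R K D.leadingCoeff) * ∏ α ∈ A, (X - C α))
    (hgS : ∀ α ∈ A, g.map (algebraMap R K) - C α =
      ∏ b ∈ S.filter (fun b => (g.map (algebraMap R K)).eval b = α), (X - C b))
    (hSA : ∀ b ∈ S, (g.map (algebraMap R K)).eval b ∈ A)
    (hgen : ∀ σ : K ≃ₐ[k] K, (∀ b ∈ S, σ b = b) → σ = 1) (hcol : IsCollision7 g D) :
    ∃ w : Valuation K ℤᵐ⁰, w (algebraMap R K D.leadingCoeff) = 1 ∧ (∀ b ∈ S, w b ≤ 1) ∧
      (∀ b ∈ S, ∀ c ∈ S, b ≠ c → (g.map (algebraMap R K)).eval b =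
        (g.map (algebraMap R K)).eval c → w (b - c) = 1) ∧
      ∃ α₁ ∈ A, ∃ α₂ ∈ A, α₁ ≠ α₂ ∧ w (α₁ - α₂) = exp (-1 : ℤ) ∧
        ∀ α ∈ A, ∀ α' ∈ A, α ≠ α' → ¬ (α = α₁ ∧ α' = α₂) → ¬ (α = α₂ ∧ α' = α₁) →
          w (α - α') = 1 := by
  obtain ⟨a, h, hDred, hsepc, hDa⟩ := hcol
  -- the integral closure
  set B := integralClosure R K with hB
  haveI : IsDedekindDomain B := integralClosure.isDedekindDomain R k K
  haveI : Module.Finite R B := IsIntegralClosure.finite R k K B
  haveI : IsFractionRing B K := integralClosure.isFractionRing_of_finite_extension k K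
  haveI : SMulCommClass (K ≃ₐ[k] K) R K := ⟨fun σ r x => by
    rw [AlgEquiv.smul_def, AlgEquiv.smul_def, Algebra.smul_def, Algebra.smul_def, map_mul,
      IsScalarTower.algebraMap_apply R k K, AlgEquiv.commutes]⟩
  haveI : IsGaloisGroup (K ≃ₐ[k] K) R B := IsGaloisGroup.of_isFractionRing _ _ _ k K
  have hinjK : Function.Injective (algebraMap R K) := by
    rw [IsScalarTower.algebraMap_eq R k K]
    exact (algebraMap k K).injective.comp (IsFractionRing.injective R k)
  have hinjB : Function.Injective (algebraMap B K) := Subtype.val_injective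
  haveI : FaithfulSMul R B := by
    rw [faithfulSMul_iff_algebraMap_injective]
    intro x y hxy
    exact hinjK (congrArg (algebraMap B K) hxy)
  haveI : Module.IsTorsionFree R B := inferInstance
  haveI : Module.Flat R B := inferInstance
  let v : HeightOneSpectrum R := IsDiscreteValuationRing.maximalIdeal R
  have hvmax : v.asIdeal.IsMaximal := v.isMaximal
  obtain ⟨P, hPmax, hPv⟩ := Ideal.exists_maximal_ideal_liesOver_of_isIntegral (S := B) v.asIdeal
  have hP0 : P ≠ ⊥ := Ideal.ne_bot_of_liesOver_of_ne_bot v.ne_bot P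
  let w : HeightOneSpectrum B := ⟨P, hPmax.isPrime, hP0⟩
  have hwv : w.asIdeal.LiesOver v.asIdeal := hPv
  -- the ramification index
  have he : v.asIdeal.ramificationIdx' w.asIdeal ≤ Nat.card (P.inertia (K ≃ₐ[k] K)) := by
    rw [Ideal.ramificationIdx'_eq_ramificationIdx v.asIdeal w.asIdeal v.ne_bot]
    exact ramificationIdx_le_card_inertia7 v.asIdeal P
  -- the residue field
  letI : Field (B ⧸ P) := Ideal.Quotient.field P
  set q : B →+* B ⧸ P := Ideal.Quotient.mk P with hq
  have hq0 : ∀ x : B, q x = 0 ↔ x ∈ P := fun x => Ideal.Quotient.eq_zero_iff_mem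
  have hmP : ∀ r : R, r ∈ IsLocalRing.maximalIdeal R → q (algebraMap R B r) = 0 := by
    intro r hr
    rw [hq0]
    have h1 : r ∈ Ideal.comap (algebraMap R B) P := by
      rw [← Ideal.under_def, ← hPv.over]
      exact hr
    exact h1
  let ψ : IsLocalRing.ResidueField R →+* B ⧸ P :=
    Ideal.Quotient.lift (IsLocalRing.maximalIdeal R) (q.comp (algebraMap R B)) hmP
  have hψ : ∀ r : R, ψ (IsLocalRing.residue R r) = q (algebraMap R B r) := fun r => rfl
  have hψc : ψ.comp (IsLocalRing.residue R) = q.comp (algebraMap R B) := RingHom.ext hψ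
  have hu2 : q (2 : B) ≠ 0 := by
    have h1 := (h2.map (algebraMap R B)).map q
    rw [map_ofNat] at h1
    exact h1.ne_zero
  have hulc : q (algebraMap R B D.leadingCoeff) ≠ 0 := ((hlc.map (algebraMap R B)).map q).ne_zero
  -- integrality of the roots
  have hAroot : ∀ α ∈ A, aeval α D = 0 := by
    intro α hα
    rw [← eval_map_algebraMap, hDA, eval_mul, eval_prod, Finset.prod_eq_zero hα (by simp), mul_zero]
  have hAint : ∀ α ∈ A, IsIntegral R α := fun α hα => integral_root7 hlc (hAroot α hα)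
  have hSint : ∀ b ∈ S, IsIntegral R b := by
    intro b hb
    have h1 := hAroot _ (hSA b hb)
    refine integral_root7 (f := D.comp g) ?_ (x := b) ?_
    · rw [leadingCoeff_comp hgdeg, hg.leadingCoeff, one_pow, mul_one]
      exact hlc
    · rw [aeval_comp, ← eval_map_algebraMap g b]
      exact h1
  have hval : ∀ x : K, IsIntegral R x → w.valuation K x ≤ 1 := fun x hx =>
    w.valuation_le_one (⟨x, hx⟩ : B)
  have hval1 : ∀ (x : K) (hx : IsIntegral R x), w.valuation K x < 1 ↔ q ⟨x, hx⟩ = 0 := fun x hx => by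
    rw [hq0]
    exact w.valuation_lt_one_iff_mem (⟨x, hx⟩ : B)
  have hval2 : ∀ (x : K) (hx : IsIntegral R x), w.valuation K x = 1 ↔ q ⟨x, hx⟩ ≠ 0 := fun x hx => by
    rw [Ne, ← hval1 x hx, not_lt]
    exact ⟨fun h => h.ge, fun h => le_antisymm (hval x hx) h⟩
  -- the reductions of the roots
  let β : K → B := fun x => if hx : IsIntegral R x then ⟨x, hx⟩ else 0
  have hβ : ∀ x, IsIntegral R x → algebraMap B K (β x) = x := by
    intro x hx
    have h1 : β x = ⟨x, hx⟩ := dif_pos hx
    rw [h1]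
    rfl
  have hβv1 : ∀ x, IsIntegral R x → (w.valuation K x < 1 ↔ q (β x) = 0) := by
    intro x hx
    have h1 : β x = ⟨x, hx⟩ := dif_pos hx
    rw [h1]
    exact hval1 x hx
  have hβv2 : ∀ x, IsIntegral R x → (w.valuation K x = 1 ↔ q (β x) ≠ 0) := by
    intro x hx
    have h1 : β x = ⟨x, hx⟩ := dif_pos hx
    rw [h1]
    exact hval2 x hx
  have hβsub : ∀ x y, IsIntegral R x → IsIntegral R y → β (x - y) = β x - β y := by
    intro x y hx hy
    apply hinjB
    rw [map_sub, hβ _ (hx.sub hy), hβ x hx, hβ y hy]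
  have hDB : D.map (algebraMap R B) = C (algebraMap R B D.leadingCoeff) *
      ∏ α ∈ A, (X - C (β α)) := by
    apply map_prod_red7 hinjB (fun α hα => hβ α (hAint α hα))
    rw [Polynomial.map_map]
    exact hDA
  have hgB : ∀ α ∈ A, g.map (algebraMap R B) - C (β α) =
      ∏ b ∈ S.filter (fun b => (g.map (algebraMap R K)).eval b = α), (X - C (β b)) := by
    intro α hα
    have h1 := map_prod_red7 (p := g.map (algebraMap R B) - C (β α)) (c := 1)
      (T := S.filter (fun b => (g.map (algebraMap R K)).eval b = α)) hinjB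
      (fun b hb => hβ b (hSint b (Finset.mem_filter.mp hb).1)) (by
        rw [Polynomial.map_sub, Polynomial.map_map, map_C, hβ α (hAint α hα), map_one, C_1, one_mul]
        exact hgS α hα)
    rw [C_1, one_mul] at h1
    exact h1
  -- the reductions
  set ā := ψ (IsLocalRing.residue R a) with hā
  set h₁ : (B ⧸ P)[X] := ((X - C (IsLocalRing.residue R a)) * h).map ψ with hh₁
  set gκ : (B ⧸ P)[X] := (g.map (IsLocalRing.residue R)).map ψ with hgκ
  have hgκ' : gκ = (g.map (algebraMap R B)).map q := by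
    rw [hgκ, Polynomial.map_map, Polynomial.map_map, hψc]
  have hsep2 : (h₁.comp gκ).Separable := by
    have h1 := hsepc.map (f := ψ)
    rw [Polynomial.map_comp] at h1
    exact h1
  have hgκdeg : gκ.natDegree ≠ 0 := by
    rw [hgκ, natDegree_map, hg.natDegree_map]
    exact hgdeg
  have hsep1 : h₁.Separable := separable_left7 hgκdeg hsep2
  have hh₁a : h₁.eval ā = 0 := by
    rw [hh₁, Polynomial.map_mul, Polynomial.map_sub, map_X, map_C, eval_mul, eval_sub, eval_X,
      eval_C, sub_self, zero_mul]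
  have hDκ : C (q (algebraMap R B D.leadingCoeff)) * ∏ α ∈ A, (X - C (q (β α))) =
      (X - C ā) * h₁ := by
    have h1 := congrArg (Polynomial.map q) hDB
    rw [map_prod_red7', Polynomial.map_map, ← hψc, ← Polynomial.map_map, hDred] at h1
    rw [← h1, hh₁, Polynomial.map_mul, Polynomial.map_mul, Polynomial.map_pow, Polynomial.map_sub,
      map_X, map_C]
    ring
  obtain ⟨hA1, hA2, hA3⟩ := res_roots7 hulc hsep1 hh₁a hDκ
  have hfib : ∀ b ∈ S, ∀ c ∈ S, b ≠ c → (g.map (algebraMap R K)).eval b =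
        (g.map (algebraMap R K)).eval c → q (β b) ≠ q (β c) := by
    intro b hb c hc hbc hgbc
    have h1 := congrArg (Polynomial.map q) (hgB _ (hSA b hb))
    rw [Polynomial.map_sub, map_C, ← hgκ', Polynomial.map_prod] at h1
    simp only [Polynomial.map_sub, map_X, map_C] at h1
    exact res_fibre7 hsep2 (hA3 _ (hSA b hb)) h1 b (Finset.mem_filter.mpr ⟨hb, rfl⟩) c
      (Finset.mem_filter.mpr ⟨hc, hgbc.symm⟩) hbc
  obtain ⟨α₁, α₂, h12, hfil⟩ := Finset.card_eq_two.mp hA2
  have hm1 : α₁ ∈ A ∧ q (β α₁) = ā := by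
    have h3 : α₁ ∈ A.filter fun α => q (β α) = ā := by rw [hfil]; simp
    exact Finset.mem_filter.mp h3
  have hm2 : α₂ ∈ A ∧ q (β α₂) = ā := by
    have h3 : α₂ ∈ A.filter fun α => q (β α) = ā := by rw [hfil]; simp
    exact Finset.mem_filter.mp h3
  have hmem12 : ∀ α ∈ A, q (β α) = ā → α = α₁ ∨ α = α₂ := by
    intro α hα h1
    have h3 : α ∈ A.filter fun α => q (β α) = ā := Finset.mem_filter.mpr ⟨hα, h1⟩
    rw [hfil] at h3
    simpa using h3
  -- the inertia group
  have hAmem : ∀ α : K, (D.map (algebraMap R K)).eval α = 0 → α ∈ A := by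
    intro α hα
    rw [hDA, eval_mul, eval_C, eval_prod, mul_eq_zero] at hα
    rcases hα with hα | hα
    · exact absurd (hinjK (hα.trans (map_zero _).symm)) hlc.ne_zero
    · obtain ⟨α', h1, h3⟩ := Finset.prod_eq_zero_iff.mp hα
      rw [eval_sub, eval_X, eval_C, sub_eq_zero] at h3
      rw [h3]
      exact h1
  have hSmem : ∀ b : K, (g.map (algebraMap R K)).eval b ∈ A → b ∈ S := by
    intro b hb
    have h1 := congrArg (eval b) (hgS _ hb)
    rw [eval_sub, eval_C, sub_self, eval_prod, eq_comm] at h1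
    obtain ⟨b', h3, h4⟩ := Finset.prod_eq_zero_iff.mp h1
    rw [eval_sub, eval_X, eval_C, sub_eq_zero] at h4
    rw [h4]
    exact (Finset.mem_filter.mp h3).1
  have hσev : ∀ (σ : K ≃ₐ[k] K) (p : R[X]) (x : K), (p.map (algebraMap R K)).eval (σ x) =
      σ ((p.map (algebraMap R K)).eval x) := by
    intro σ p x
    have h1 : (σ : K →+* K).comp (algebraMap R K) = algebraMap R K := by
      ext r
      change σ (algebraMap R K r) = algebraMap R K r
      rw [IsScalarTower.algebraMap_apply R k K]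
      exact σ.commutes _
    have h3 := Polynomial.hom_eval₂ p (algebraMap R K) (σ : K →+* K) x
    rw [h1] at h3
    rw [eval_map, eval_map]
    exact h3.symm
  have hσA : ∀ (σ : K ≃ₐ[k] K), ∀ α ∈ A, σ α ∈ A := by
    intro σ α hα
    apply hAmem
    rw [hσev, hDA, eval_mul, eval_prod, Finset.prod_eq_zero hα (by simp), mul_zero, map_zero]
  have hσS : ∀ (σ : K ≃ₐ[k] K), ∀ b ∈ S, σ b ∈ S := by
    intro σ b hb
    apply hSmem
    rw [hσev]
    exact hσA σ _ (hSA b hb)
  have hσint : ∀ (σ : K ≃ₐ[k] K) (x : K), IsIntegral R x → IsIntegral R (σ x) := by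
    intro σ x hx
    exact hx.map (σ.restrictScalars R)
  have hine : ∀ σ ∈ P.inertia (K ≃ₐ[k] K), ∀ x : K, IsIntegral R x → q (β (σ x)) = q (β x) := by
    intro σ hσ x hx
    have h1 : σ • (β x) - β x ∈ P := hσ (β x)
    have h3 : σ • (β x) = β (σ x) := by
      apply hinjB
      rw [hβ _ (hσint σ x hx)]
      change σ ((β x : B) : K) = σ x
      congr 1
      exact hβ x hx
    rw [h3, ← hq0, map_sub, sub_eq_zero] at h1
    exact h1
  have hine1 : ∀ σ ∈ P.inertia (K ≃ₐ[k] K), σ α₁ = α₁ → σ = 1 := by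
    intro σ hσ h1
    apply hgen
    intro b hb
    by_contra hne
    have h3 := hine σ hσ b (hSint b hb)
    by_cases h4 : (g.map (algebraMap R K)).eval (σ b) = (g.map (algebraMap R K)).eval b
    · exact hfib _ (hσS σ b hb) b hb hne h4 h3
    · rw [hσev] at h4
      have hα := hSA b hb
      have h5 := hine σ hσ _ (hAint _ hα)
      have h6 := hA1 _ (hσA σ _ hα) _ hα h4 h5
      have h7 := hmem12 _ (hσA σ _ hα) h6
      have h8 := hmem12 _ hα (h5 ▸ h6)
      rcases h8 with h8 | h8
      · rw [h8] at h4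
        exact h4 h1
      · rw [h8] at h4 h7
        rcases h7 with h7 | h7
        · exact h12 (σ.injective (h1.trans h7.symm))
        · exact h4 h7
  have hcard : Nat.card (P.inertia (K ≃ₐ[k] K)) ≤ 2 := by
    have h1 : Function.Injective (fun σ : P.inertia (K ≃ₐ[k] K) =>
        (⟨(σ : K ≃ₐ[k] K) α₁, by
          have h3 := hine σ σ.2 α₁ (hAint _ hm1.1)
          have h4 := hmem12 _ (hσA σ _ hm1.1) (h3.trans hm1.2)
          simpa using h4⟩ : ({α₁, α₂} : Finset K))) := by
      intro σ τ hστ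
      have h3 : (σ : K ≃ₐ[k] K) α₁ = (τ : K ≃ₐ[k] K) α₁ := congrArg Subtype.val hστ
      have h4 : (τ⁻¹ * σ : P.inertia (K ≃ₐ[k] K)) = 1 := by
        apply Subtype.ext
        apply hine1 _ (τ⁻¹ * σ).2
        change (τ : K ≃ₐ[k] K).symm ((σ : K ≃ₐ[k] K) α₁) = α₁
        rw [h3, AlgEquiv.symm_apply_apply]
      exact (inv_mul_eq_one.mp h4).symm
    have h3 := Nat.card_le_card_of_injective _ h1
    rw [Nat.card_eq_fintype_card (α := ({α₁, α₂} : Finset K)), Fintype.card_coe] at h3
    exact h3.trans Finset.card_le_two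
  set e := v.asIdeal.ramificationIdx' w.asIdeal with hedef
  have he2 : e ≤ 2 := he.trans hcard
  -- the valuations of `D(a)` and `D'(a)`
  have hWk : ∀ r : R, w.valuation K (algebraMap R K r) = v.intValuation r ^ e := by
    intro r
    have h1 := HeightOneSpectrum.valuation_liesOver K v w (algebraMap R k r)
    rw [← IsScalarTower.algebraMap_apply] at h1
    rw [← h1]
    congr 1
    exact HeightOneSpectrum.valuation_of_algebraMap (K := k) v r
  have hDa1 : D.eval a ∈ IsLocalRing.maximalIdeal R := by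
    rw [← IsLocalRing.residue_eq_zero_iff, ← eval₂_at_apply, ← eval_map, hDred]
    simp
  have hDa2 : (derivative D).eval a ∈ IsLocalRing.maximalIdeal R := by
    rw [← IsLocalRing.residue_eq_zero_iff, ← eval₂_at_apply, ← eval_map, ← derivative_map, hDred,
      derivative_mul, derivative_X_sub_C_sq]
    simp
  have hvm : ∀ (r : R) (n : ℕ), v.intValuation r ≤ exp (-(n : ℤ)) ↔
      r ∈ IsLocalRing.maximalIdeal R ^ n := fun r n => v.intValuation_le_pow_iff_mem r n
  have hD0 : D.eval a ≠ 0 := by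
    intro h0
    rw [h0] at hDa
    exact hDa (Ideal.zero_mem _)
  have hvD : v.intValuation (D.eval a) = exp (-1 : ℤ) := by
    have h1 := (hvm (D.eval a) 1).mpr (by rw [pow_one]; exact hDa1)
    have h3 : ¬ v.intValuation (D.eval a) ≤ exp (-((2 : ℕ) : ℤ)) := fun h4 =>
      hDa ((hvm (D.eval a) 2).mp h4)
    have h5 : v.intValuation (D.eval a) ≠ 0 := v.intValuation_ne_zero _ hD0
    have h6 := exp_log h5
    rw [← h6] at h1 h3 ⊢
    rw [exp_le_exp] at h1 h3
    rw [exp_inj]
    push_cast at h1 h3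
    omega
  have hvD' : v.intValuation ((derivative D).eval a) ≤ exp (-1 : ℤ) := by
    have h1 := (hvm ((derivative D).eval a) 1).mpr (by rw [pow_one]; exact hDa2)
    simpa using h1
  -- the factorisation of `D`
  set W := w.valuation K with hW
  have haint : IsIntegral R (algebraMap R K a) := isIntegral_algebraMap
  have hβa : β (algebraMap R K a) = algebraMap R B a := by
    apply hinjB
    rw [hβ _ haint]
    rfl
  set A' := (A.erase α₁).erase α₂ with hA'
  have hA'A : ∀ α ∈ A', α ∈ A ∧ α ≠ α₁ ∧ α ≠ α₂ := by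
    intro α hα
    rw [hA', Finset.mem_erase, Finset.mem_erase] at hα
    exact ⟨hα.2.2, hα.2.1, hα.1⟩
  have hsplit : ∀ f : K → K[X], ∏ α ∈ A, f α = f α₁ * (f α₂ * ∏ α ∈ A', f α) := by
    intro f
    rw [hA', Finset.mul_prod_erase (A.erase α₁) f (Finset.mem_erase.mpr ⟨h12.symm, hm2.1⟩),
      Finset.mul_prod_erase A f hm1.1]
  set D₁ : K[X] := C (algebraMap R K D.leadingCoeff) * ∏ α ∈ A', (X - C α) with hD₁
  have hDD₁ : D.map (algebraMap R K) = (X - C α₁) * (X - C α₂) * D₁ := by
    rw [hDA, hsplit, hD₁]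
    ring
  have hWint : ∀ x : K, IsIntegral R x → W x ≤ 1 := hval
  have hWlc : W (algebraMap R K D.leadingCoeff) = 1 := by
    have h1 := hWint _ (isIntegral_algebraMap (x := D.leadingCoeff) (R := R) (A := K))
    obtain ⟨u, hu⟩ := hlc
    have h3 := hWint _ (isIntegral_algebraMap (x := (↑u⁻¹ : R)) (R := R) (A := K))
    rw [← hu] at h1 ⊢
    have h4 : W (algebraMap R K u) * W (algebraMap R K ↑u⁻¹) = 1 := by
      rw [← map_mul, ← map_mul, Units.mul_inv, map_one, map_one]
    refine le_antisymm h1 ?_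
    rw [← h4]
    exact mul_le_of_le_one_right' h3
  have hWD₁ : W (D₁.eval (algebraMap R K a)) = 1 := by
    rw [hD₁, eval_mul, eval_C, map_mul, hWlc, one_mul, eval_prod, map_prod]
    refine Finset.prod_eq_one fun α hα => ?_
    obtain ⟨h1, h3, h4⟩ := hA'A α hα
    rw [eval_sub, eval_X, eval_C, hβv2 _ (haint.sub (hAint α h1)), hβsub _ _ haint (hAint α h1),
      map_sub, hβa, ← hψ, ← hā, sub_ne_zero]
    intro h5
    rcases hmem12 α h1 h5.symm with h6 | h6
    · exact h3 h6
    · exact h4 h6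
  have hWD₁' : W ((derivative D₁).eval (algebraMap R K a)) ≤ 1 := by
    have h1 : D₁ = (C (algebraMap R B D.leadingCoeff) * ∏ α ∈ A', (X - C (β α))).map
        (algebraMap B K) := by
      rw [hD₁, Polynomial.map_mul, map_C, Polynomial.map_prod]
      congr 1
      refine Finset.prod_congr rfl fun α hα => ?_
      rw [Polynomial.map_sub, map_X, map_C, hβ α (hAint α (hA'A α hα).1)]
    have h3 : algebraMap R K a = algebraMap B K (algebraMap R B a) := rfl
    rw [h1, derivative_map, h3, eval_map, eval₂_at_apply]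
    exact w.valuation_le_one _
  set y₁ := algebraMap R K a - α₁ with hy₁
  set y₂ := algebraMap R K a - α₂ with hy₂
  have hWy₁ : W y₁ < 1 := by
    rw [hy₁, hβv1 _ (haint.sub (hAint α₁ hm1.1)), hβsub _ _ haint (hAint α₁ hm1.1), map_sub, hβa,
      ← hψ, hm1.2, hā, sub_self]
  have hWy₂ : W y₂ < 1 := by
    rw [hy₂, hβv1 _ (haint.sub (hAint α₂ hm2.1)), hβsub _ _ haint (hAint α₂ hm2.1), map_sub, hβa,
      ← hψ, hm2.2, hā, sub_self]
  have hprod : W y₁ * W y₂ = exp (-(e : ℤ)) := by
    have h1 : algebraMap R K (D.eval a) = y₁ * y₂ * D₁.eval (algebraMap R K a) := by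
      rw [← eval₂_at_apply, ← eval_map, hDD₁, eval_mul, eval_mul, eval_sub, eval_sub, eval_X,
        eval_C, eval_C]
    have h3 := congrArg W h1
    rw [hWk, hvD, map_mul, map_mul, hWD₁, mul_one] at h3
    rw [← h3, ← exp_nsmul]
    simp
  have hy₁0 : W y₁ ≠ 0 := by
    intro h0
    rw [h0, zero_mul] at hprod
    exact exp_ne_zero hprod.symm
  have hy₂0 : W y₂ ≠ 0 := by
    intro h0
    rw [h0, mul_zero] at hprod
    exact exp_ne_zero hprod.symm
  have hl : (W y₁ = exp (-1 : ℤ)) ∧ e = 2 := by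
    have h1 := exp_log hy₁0
    have h3 := exp_log hy₂0
    rw [← h1] at hWy₁ hprod ⊢
    rw [← h3] at hWy₂ hprod
    rw [← exp_add, exp_inj] at hprod
    rw [← exp_zero, exp_lt_exp] at hWy₁ hWy₂
    rw [exp_inj]
    omega
  have hsum : W (y₁ + y₂) ≤ exp (-2 : ℤ) := by
    have h1 : algebraMap R K ((derivative D).eval a) = (y₁ + y₂) * D₁.eval (algebraMap R K a) +
        y₁ * y₂ * (derivative D₁).eval (algebraMap R K a) := by
      rw [← eval₂_at_apply, ← eval_map, ← derivative_map, hDD₁]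
      exact deriv_eval7 α₁ α₂ D₁ _
    have h3 : (y₁ + y₂) * D₁.eval (algebraMap R K a) =
        algebraMap R K ((derivative D).eval a) -
          y₁ * y₂ * (derivative D₁).eval (algebraMap R K a) := by
      rw [h1]; ring
    have h4 := congrArg W h3
    rw [map_mul, hWD₁, mul_one] at h4
    rw [h4]
    refine (W.map_sub _ _).trans (max_le ?_ ?_)
    · rw [hWk, hl.2]
      calc v.intValuation ((derivative D).eval a) ^ 2 ≤ exp (-1 : ℤ) ^ 2 :=
            pow_le_pow_left' hvD' 2
        _ = exp (-2 : ℤ) := by rw [← exp_nsmul]; rfl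
    · rw [map_mul, map_mul, hprod, hl.2]
      exact (mul_le_of_le_one_right' hWD₁').trans le_rfl
  have hdiff : W (α₁ - α₂) = exp (-1 : ℤ) := by
    have h1 : α₁ - α₂ = (y₁ + y₂) - 2 * y₁ := by rw [hy₁, hy₂]; ring
    have hW2 : W (2 : K) = 1 := by
      have h3 := hβv2 (2 : K) (by
        have := isIntegral_algebraMap (x := (2 : R)) (R := R) (A := K)
        rwa [map_ofNat] at this)
      rw [h3]
      have h4 : β 2 = 2 := by
        apply hinjB
        rw [hβ, map_ofNat]
        have := isIntegral_algebraMap (x := (2 : R)) (R := R) (A := K)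
        rwa [map_ofNat] at this
      rw [h4]
      exact hu2
    have h3 : W (2 * y₁) = exp (-1 : ℤ) := by rw [map_mul, hW2, one_mul, hl.1]
    have h4 : W (y₁ + y₂) < W (2 * y₁) := by
      rw [h3]
      refine lt_of_le_of_lt hsum ?_
      rw [exp_lt_exp]
      norm_num
    rw [h1, Valuation.map_sub_eq_of_lt_right _ h4, h3]
  refine ⟨W, hWlc, fun b hb => hWint b (hSint b hb), ?_, α₁, hm1.1, α₂, hm2.1, h12, hdiff, ?_⟩
  · intro b hb c hc hbc hgbc
    rw [hβv2 _ ((hSint b hb).sub (hSint c hc)), hβsub _ _ (hSint b hb) (hSint c hc), map_sub,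
      sub_ne_zero]
    exact hfib b hb c hc hbc hgbc
  · intro α hα α' hα' hne h1 h3
    rw [hβv2 _ ((hAint α hα).sub (hAint α' hα')), hβsub _ _ (hAint α hα) (hAint α' hα'), map_sub,
      sub_ne_zero]
    intro h4
    have h5 := hA1 α hα α' hα' hne h4
    have h6 := hmem12 α hα h5
    have h7 := hmem12 α' hα' (h4 ▸ h5)
    rcases h6 with h6 | h6
    · rcases h7 with h7 | h7
      · exact hne (h6.trans h7.symm)
      · exact h1 ⟨h6, h7⟩
    · rcases h7 with h7 | h7
      · exact h3 ⟨h6, h7⟩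
      · exact hne (h6.trans h7.symm)

end Pool.Agent.Lib.MP_89bcae_ag

end

section

/-!
# The matching attached to a simple collision
-/

open Polynomial WithZero

open scoped Classical

namespace Pool.Agent.Lib.MP_89bcae_ag

set_option linter.style.haveILetI false
set_option linter.unusedSectionVars false

/-- A separable polynomial over an algebraically closed field. -/
lemma eq_prod_roots7 {F : Type*} [Field F] [IsAlgClosed F] {p : F[X]} (hp : p.Separable) :
    p = C p.leadingCoeff * ∏ b ∈ p.roots.toFinset, (X - C b) := by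
  have h1 := (IsAlgClosed.splits p).eq_prod_roots
  have h2 : p.roots.Nodup := nodup_roots hp
  conv_lhs => rw [h1]
  congr 1
  rw [Finset.prod_eq_multiset_prod, Multiset.toFinset_val, Multiset.dedup_eq_self.mpr h2]

/-- The splitting field of a separable polynomial. -/
lemma galois7 {k F : Type*} [Field k] [Field F] [Algebra k F] [IsAlgClosed F] {f : k[X]}
    (hsep : f.Separable) :
    FiniteDimensional k (IntermediateField.adjoin k (f.rootSet F)) ∧
      IsGalois k (IntermediateField.adjoin k (f.rootSet F)) := by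
  have h1 : IsSplittingField k (IntermediateField.adjoin k (f.rootSet F)) f :=
    IntermediateField.adjoin_rootSet_isSplittingField (IsAlgClosed.splits _)
  exact ⟨IsSplittingField.finiteDimensional _ f, IsGalois.of_separable_splitting_field (p := f) hsep⟩

lemma prod_subtype7 {F M : Type*} [CommMonoid M] (p : F → Prop) (S : Finset F)
    (hS : ∀ b ∈ S, p b) (P : Subtype p → Prop) (Q : F → Prop) (hPQ : ∀ b : Subtype p, P b ↔ Q b)
    (f : F → M) : ∏ b ∈ (S.subtype p).filter P, f b = ∏ b ∈ S.filter Q, f b := by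
  have h1 : S.filter Q = ((S.subtype p).filter P).map (Function.Embedding.subtype p) := by
    ext b
    rw [Finset.mem_filter, Finset.mem_map]
    constructor
    · rintro ⟨hb, hQ⟩
      exact ⟨⟨b, hS b hb⟩, Finset.mem_filter.mpr ⟨Finset.mem_subtype.mpr hb, (hPQ _).mpr hQ⟩, rfl⟩
    · rintro ⟨c, hc, rfl⟩
      rw [Finset.mem_filter, Finset.mem_subtype] at hc
      exact ⟨hc.1, (hPQ _).mp hc.2⟩
  rw [h1, Finset.prod_map]
  rfl

section Ord

variable {R k F : Type*} [CommRing R] [IsDomain R] [IsDiscreteValuationRing R] [Field k]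
  [Algebra R k] [IsFractionRing R k] [Field F] [Algebra k F] [Algebra R F] [IsScalarTower R k F]

/-- The orders of the differences of the roots at a simple collision. -/
theorem exists_ord7 (h2 : IsUnit (2 : R)) {g D : R[X]}
    (hgdeg : g.natDegree ≠ 0) (hg : g.Monic) (hlc : IsUnit D.leadingCoeff) (S A : Finset F)
    (hDA : D.map (algebraMap R F) =
      C (algebraMap R F D.leadingCoeff) * ∏ α ∈ A, (X - C α))
    (hgS : ∀ α ∈ A, g.map (algebraMap R F) - C α =
      ∏ b ∈ S.filter (fun b => (g.map (algebraMap R F)).eval b = α), (X - C b))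
    (hSA : ∀ b ∈ S, (g.map (algebraMap R F)).eval b ∈ A)
    (hAS : ∀ α ∈ A, ∃ b ∈ S, (g.map (algebraMap R F)).eval b = α)
    (K : IntermediateField k F) (hK : K = IntermediateField.adjoin k (S : Set F))
    [FiniteDimensional k K] [IsGalois k K] (hcol : IsCollision7 g D) :
    ∃ w : Valuation K ℤᵐ⁰, ordF7 w (algebraMap R F D.leadingCoeff) = 0 ∧
      (∀ b ∈ S, ∀ c ∈ S, ordF7 w (b - c) ≤ 0) ∧
      (∀ b ∈ S, ∀ c ∈ S, b ≠ c → (g.map (algebraMap R F)).eval b =
        (g.map (algebraMap R F)).eval c → ordF7 w (b - c) = 0) ∧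
      ∃ α₁ ∈ A, ∃ α₂ ∈ A, α₁ ≠ α₂ ∧ ordF7 w (α₁ - α₂) = -1 ∧
        ∀ α ∈ A, ∀ α' ∈ A, α ≠ α' → ¬ (α = α₁ ∧ α' = α₂) → ¬ (α = α₂ ∧ α' = α₁) →
          ordF7 w (α - α') = 0 := by
  have hSK : ∀ b ∈ S, b ∈ K := by
    intro b hb
    rw [hK]
    exact IntermediateField.subset_adjoin _ _ hb
  have hRK : ∀ r : R, algebraMap R F r ∈ K := by
    intro r
    rw [IsScalarTower.algebraMap_apply R k F]
    exact K.algebraMap_mem _
  have hgK : ∀ b ∈ K, (g.map (algebraMap R F)).eval b ∈ K := by
    intro b hb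
    rw [eval_map, eval₂_eq_sum_range]
    exact K.sum_mem fun i _ => K.mul_mem (hRK _) (pow_mem hb i)
  have hAK : ∀ α ∈ A, α ∈ K := by
    intro α hα
    obtain ⟨b, hb, rfl⟩ := hAS α hα
    exact hgK b (hSK b hb)
  have hcomp : (algebraMap K F).comp (algebraMap R K) = algebraMap R F := RingHom.ext fun r => rfl
  have hinj : Function.Injective (Polynomial.map (algebraMap K F)) :=
    Polynomial.map_injective _ (algebraMap K F).injective
  have hev : ∀ b : K, (((g.map (algebraMap R K)).eval b : K) : F) =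
      (g.map (algebraMap R F)).eval (b : F) := by
    intro b
    rw [← hcomp, ← Polynomial.map_map, eval_map (algebraMap K F)]
    exact (eval₂_at_apply (algebraMap K F) b).symm
  obtain ⟨w, hw1, hw2, hw3, α₁, hα₁, α₂, hα₂, h12, hw4, hw5⟩ := exists_val7 (R := R) (k := k)
    (K := K) h2 hgdeg hg hlc (S.subtype (· ∈ K)) (A.subtype (· ∈ K)) (by
      apply hinj
      rw [Polynomial.map_map, hcomp, hDA, Polynomial.map_mul, map_C, Polynomial.map_prod]
      congr 1
      have h1 := prod_subtype7 (· ∈ K) A hAK (fun _ => True) (fun _ => True) (fun _ => Iff.rfl)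
        (fun b => (X - C b : F[X]))
      rw [Finset.filter_true, Finset.filter_true] at h1
      rw [← h1]
      refine Finset.prod_congr rfl fun b _ => ?_
      rw [Polynomial.map_sub, map_X, map_C]
      rfl) (by
      intro α hα
      apply hinj
      rw [Polynomial.map_sub, Polynomial.map_map, hcomp, map_C, Polynomial.map_prod]
      rw [Finset.mem_subtype] at hα
      have h1 := prod_subtype7 (· ∈ K) S hSK (fun b => (g.map (algebraMap R K)).eval b = α)
        (fun b => (g.map (algebraMap R F)).eval b = (α : F))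
        (fun b => by rw [← hev, Subtype.coe_inj]) (fun b => (X - C b : F[X]))
      refine (hgS α hα).trans (h1.symm.trans ?_)
      refine Finset.prod_congr rfl fun b _ => ?_
      rw [Polynomial.map_sub, map_X, map_C]
      rfl) (by
      intro b hb
      rw [Finset.mem_subtype] at hb ⊢
      rw [hev]
      exact hSA b hb) (by
      intro σ hσ
      subst hK
      ext x
      have h1 : (σ : _ ≃ₐ[k] _).toAlgHom = AlgHom.id k _ := by
        apply IntermediateField.algHom_ext_of_eq_adjoin _ rfl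
        intro y hy
        exact hσ ⟨y, IntermediateField.subset_adjoin _ _ hy⟩ (Finset.mem_subtype.mpr hy)
      exact congrArg Subtype.val (congrArg (fun f => f x) h1)) hcol
  rw [Finset.mem_subtype] at hα₁ hα₂
  refine ⟨w, ?_, fun b hb c hc => ?_, fun b hb c hc hbc hgbc => ?_, α₁, hα₁, α₂, hα₂,
    fun h => h12 (Subtype.ext h), ?_, fun α hα α' hα' hne h1 h3 => ?_⟩
  · rw [ordF7_of_mem w (hRK _)]
    have h1 : (⟨algebraMap R F D.leadingCoeff, hRK _⟩ : K) = algebraMap R K D.leadingCoeff := rfl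
    rw [h1, hw1, log_one]
  · have hbK := hSK b hb
    have hcK := hSK c hc
    rw [ordF7_of_mem w (K.sub_mem hbK hcK)]
    have h1 : (⟨b - c, K.sub_mem hbK hcK⟩ : K) = ⟨b, hbK⟩ - ⟨c, hcK⟩ := rfl
    rw [h1]
    have h3 : w (⟨b, hbK⟩ - ⟨c, hcK⟩) ≤ 1 := (w.map_sub _ _).trans
      (max_le (hw2 _ (Finset.mem_subtype.mpr hb)) (hw2 _ (Finset.mem_subtype.mpr hc)))
    by_cases h0 : w (⟨b, hbK⟩ - ⟨c, hcK⟩) = 0
    · rw [h0, log_zero]
    · rw [log_le_iff_le_exp h0, exp_zero]
      exact h3
  · have hbK := hSK b hb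
    have hcK := hSK c hc
    rw [ordF7_of_mem w (K.sub_mem hbK hcK)]
    have h1 : (⟨b - c, K.sub_mem hbK hcK⟩ : K) = ⟨b, hbK⟩ - ⟨c, hcK⟩ := rfl
    rw [h1, hw3 ⟨b, hbK⟩ (Finset.mem_subtype.mpr hb) ⟨c, hcK⟩ (Finset.mem_subtype.mpr hc)
      (fun h => hbc (congrArg Subtype.val h)) (Subtype.ext (by rw [hev, hev]; exact hgbc)), log_one]
  · rw [ordF7_of_mem w (K.sub_mem α₁.2 α₂.2)]
    have h1 : (⟨(α₁ : F) - α₂, K.sub_mem α₁.2 α₂.2⟩ : K) = α₁ - α₂ := rfl
    rw [h1, hw4, log_exp]
  · have hbK := hAK α hα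
    have hcK := hAK α' hα'
    rw [ordF7_of_mem w (K.sub_mem hbK hcK)]
    have h4 : (⟨α - α', K.sub_mem hbK hcK⟩ : K) = ⟨α, hbK⟩ - ⟨α', hcK⟩ := rfl
    rw [h4, hw5 ⟨α, hbK⟩ (Finset.mem_subtype.mpr hα) ⟨α', hcK⟩ (Finset.mem_subtype.mpr hα')
      (fun h => hne (congrArg Subtype.val h))
      (fun h => h1 ⟨congrArg Subtype.val h.1, congrArg Subtype.val h.2⟩)
      (fun h => h3 ⟨congrArg Subtype.val h.1, congrArg Subtype.val h.2⟩), log_one]

end Ord

end Pool.Agent.Lib.MP_89bcae_ag

end

section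

/-!
# The Jacobian of the generic fibre over the covers of the line: definitions
-/

open Polynomial IsDedekindDomain IsLocalRing

open scoped Classical

namespace Pool.Agent.Lib.MP_89bcae_ag.Brt

open Pool.Agent.Lib.MP_89bcae_ag.Wt Pool.Agent.Lib.MP_89bcae_ag.Wt.Lns Pool.Agent.Lib.MP_89bcae_ag.Bra

/-- The polynomial `g(x) - t` over `L`, where `t` is the image of `X`. -/
noncomputable def ft (F L : Type) [Field F] [Field L] [Algebra F[X] L] (g : F[X]) : L[X] :=
  g.map ((algebraMap F[X] L).comp C) - C (algebraMap F[X] L X)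

/-- The homomorphism from the coordinate ring of the affine curve `y ^ ℓ = f(x)` to that of its
normalization. -/
noncomputable def toN (ℓ : ℕ) {A : Type} [Field A] (f : A[X]) [IsGood ℓ f] :
    Superelliptic.CoordRing ℓ f →+* NRing ℓ f :=
  AdjoinRoot.lift ofPoly yy (by
    rw [eval₂_sub, eval₂_pow, eval₂_X, eval₂_C, yy_pow, sub_self])

/-- The map of Picard groups induced by `toN`. -/
noncomputable def jN (ℓ : ℕ) {A : Type} [Field A] (f : A[X]) [IsGood ℓ f] :
    Superelliptic.Jacobian ℓ f →+ Jac ℓ f :=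
  MonoidHom.toAdditive (CommRing.Pic.mapRingHom (toN ℓ f))

section

variable {L L' Ω : Type} [Field L] [Field L'] [Field Ω] [Algebra L' Ω]

/-- The class of the cocycle `c` of `Aut(Ω/L')` is trivial over the composite field of `Lv` and of the image of
`L'` in the algebraic closure `M` of `Lv`. -/
def LTj {Lv M : Type} [Field Lv] [Field M] [Algebra Lv M] (ℓ : ℕ) (f : L'[X]) (j : Ω →+* M)
    (c : (Ω ≃ₐ[L'] Ω) → JacOver ℓ f Ω) : Prop :=
  ∃ Q : Jac ℓ (f.map (j.comp (algebraMap L' Ω))),
    ∀ (g : M ≃ₐ[Lv] M) (g' : Ω ≃ₐ[L'] Ω)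
      (hg : (f.map (j.comp (algebraMap L' Ω))).map ((g : M ≃+* M) : M →+* M) =
        f.map (j.comp (algebraMap L' Ω))), (∀ x, j (g' x) = g (j x)) →
      jacMap ℓ j (Polynomial.map_map (algebraMap L' Ω) j f) (c g') =
        jacMap ℓ ((g : M ≃+* M) : M →+* M) hg Q - Q

/-- The class of the cocycle `c` of `Aut(Ω/L')` is trivial over all the composites of the field `L'` and of the
completions of `L` at the finite places. -/
def LTo (F L : Type) [Field F] [Field L] [Algebra F[X] L] [IsFractionRing F[X] L] [Algebra L Ω]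
    (ℓ : ℕ) (f : L'[X]) (c : (Ω ≃ₐ[L'] Ω) → JacOver ℓ f Ω) : Prop :=
  ∀ (v : HeightOneSpectrum F[X]) (M : Type) [Field M] [Algebra (v.adicCompletion L) M]
    [IsAlgClosure (v.adicCompletion L) M] [Algebra L M] [IsScalarTower L (v.adicCompletion L) M]
    (j : Ω →ₐ[L] M), LTj (Lv := v.adicCompletion L) ℓ f (j : Ω →+* M) c

end

/-- The automorphisms of `Ω` over the field `k'(t, s)`. -/
def AutC {k : Type} (F L : Type) {Ω : Type} [Field k] [Field F] [Algebra k F] [Field L] [Algebra F[X] L]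
    [Field Ω] [Algebra L Ω] (s : Ω) (k' : IntermediateField k F) : Set (Ω ≃+* Ω) :=
  {γ | ∀ z ∈ cover k' F L s, γ z = z}

end Pool.Agent.Lib.MP_89bcae_ag.Brt

end
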