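import Mathlib
import Pool.Agent.Lib.MP_89bcae_ag.Tk.K000
import Pool.Agent.Lib.MP_89bcae_ag.Tk.K002
import Pool.Agent.Lib.MP_89bcae_ag.Tk.K010

set_option linter.all false

section

attribute [local instance 100000] Pool.Agent.Lib.MP_89bcae_ag.Brt.tffFields

section

/-!
ROW R11 (80-150 lines). Hilbert's theorem 90 for the cyclic extension of function fields.

PROOF. Let `φ = rotU ζ⁻¹` (an automorphism of the field `Fn ℓ f`, the inverse of `rotU ζ`) and
`n = ∏_{i<ℓ} φ^i(h) = nrm h = 1` (the same product in another order, as `φ^ℓ = 1`). The field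
automorphisms `1, φ, ..., φ^(ℓ-1)` are distinct (`φ^i y = ζ^(-i) y`), so they are linearly
independent (`linearIndependent_monoidHom`): there is `b` with
`v = ∑_{i<ℓ} (∏_{j<i} φ^j(h)) φ^i(b) ≠ 0`. Then `h φ(v) = v` (the term `i = ℓ - 1` becomes
`n φ^ℓ(b) = b`). (Alternatively Mathlib's Hilbert 90 for cyclic groups.)
-/

open Polynomial IsDedekindDomain

open scoped Classical

namespace Pool.Agent.Lib.MP_89bcae_ag.Sup

universe u

variable {ℓ : ℕ} {E : Type u} [Field E] {f : E[X]} [hG : IsGood ℓ f]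

lemma R11_full (ζ : E) (hζ : ζ ^ ℓ = 1) (h0 : ζ ≠ 0) (x : Fn ℓ f) :
    (autF (rotE ζ hζ h0))^[ℓ] x = x := by
  obtain ⟨a, b, _, hab⟩ := IsFractionRing.div_surjective (A := Coord ℓ f) x
  rw [← hab, R10_autF_div, R10_autF_iter, R10_autF_iter, R10_rot_full, R10_rot_full]

lemma R11_yy (ζ : E) (hζ : ζ ^ ℓ = 1) (h0 : ζ ≠ 0) (n : ℕ) :
    (rotE ζ hζ h0)^[n] (yy : Coord ℓ f) = ofPoly (C (ζ ^ n)) * yy := by
  induction n with
  | zero => simp
  | succ n ih =>
    rw [Function.iterate_succ_apply', ih, R10_rotE_apply, map_mul, rotC_ofPoly, rotC_yy,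
      pow_succ, C_mul, map_mul]
    ring

lemma R11_succ (ζ : E) (hζ : ζ ^ ℓ = 1) (h0 : ζ ≠ 0) (h : (Fn ℓ f)ˣ) (i : ℕ) :
    ∏ j ∈ Finset.range (i + 1), (rotU ζ hζ h0)^[j] h =
      h * rotU ζ hζ h0 (∏ j ∈ Finset.range i, (rotU ζ hζ h0)^[j] h) := by
  rw [Finset.prod_range_succ', Function.iterate_zero, id, map_prod, mul_comm]
  congr 1
  apply Finset.prod_congr rfl
  intro j _
  rw [Function.iterate_succ_apply']

lemma R11_exists (ζ : E) (hζ : IsPrimitiveRoot ζ ℓ) (h0 : ζ ≠ 0) (c : ℕ → Fn ℓ f)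
    (hc : c 0 ≠ 0) :
    ∃ b : Fn ℓ f, ∑ i ∈ Finset.range ℓ, c i * (autF (rotE ζ hζ.pow_eq_one h0))^[i] b ≠ 0 := by
  by_contra hcon
  push Not at hcon
  set ρ := autF (rotE ζ hζ.pow_eq_one h0 : Coord ℓ f ≃+* Coord ℓ f) with hρ
  set ψ : Monoid.End (Fn ℓ f) := ((ρ : Fn ℓ f →+* Fn ℓ f) : Fn ℓ f →* Fn ℓ f) with hψ
  have hψi : ∀ (i : ℕ) (x : Fn ℓ f), (ψ ^ i : Monoid.End (Fn ℓ f)) x = ρ^[i] x := by
    intro i x
    rw [Monoid.End.coe_pow]
    rfl
  set χ : Fin ℓ → (Fn ℓ f →* Fn ℓ f) := fun i => (ψ ^ (i : ℕ) : Monoid.End (Fn ℓ f)) with hχ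
  have hinj : Function.Injective χ := by
    intro i j hij
    have h1 : (χ i) (algebraMap (Coord ℓ f) (Fn ℓ f) yy) =
        (χ j) (algebraMap (Coord ℓ f) (Fn ℓ f) yy) := by rw [hij]
    have h2 : ∀ k : Fin ℓ, (χ k) (algebraMap (Coord ℓ f) (Fn ℓ f) yy) =
        algebraMap (Coord ℓ f) (Fn ℓ f) (ofPoly (C (ζ ^ (k : ℕ))) * yy) := by
      intro k
      rw [← R11_yy ζ hζ.pow_eq_one h0 k, ← R10_autF_iter]
      exact hψi k _
    rw [h2, h2, map_mul, map_mul] at h1
    have h3 := mul_right_cancel₀ algebraMap_yy_ne_zero h1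
    have h4 := IsFractionRing.injective (Coord ℓ f) (Fn ℓ f) h3
    have h5 := C_injective (ofPoly_injective (ℓ := ℓ) (f := f) hG.prime.ne_zero h4)
    exact Fin.ext (hζ.pow_inj i.2 j.2 h5)
  have hli := (linearIndependent_monoidHom (Fn ℓ f) (Fn ℓ f)).comp χ hinj
  rw [Fintype.linearIndependent_iff] at hli
  have h6 := hli (fun i => c i) (by
    funext b
    rw [Finset.sum_apply, Pi.zero_apply, ← hcon b, Finset.sum_range]
    apply Finset.sum_congr rfl
    intro i _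
    rw [← hψi i b]
    rfl) ⟨0, hG.prime.pos⟩
  exact hc h6

lemma exists_hilbert (ζ : E) (hζ : IsPrimitiveRoot ζ ℓ) (h0 : ζ ≠ 0) (h : (Fn ℓ f)ˣ)
    (hn : nrm ζ hζ.pow_eq_one h0 h = 1) :
    ∃ v : (Fn ℓ f)ˣ, h = v / (rotU ζ hζ.pow_eq_one h0).symm v := by
  set ρ := autF (rotE ζ hζ.pow_eq_one h0 : Coord ℓ f ≃+* Coord ℓ f) with hρ
  set R := rotU ζ hζ.pow_eq_one h0 (f := f) with hR
  set c : ℕ → (Fn ℓ f)ˣ := fun i => ∏ j ∈ Finset.range i, R^[j] h with hc
  have hRρ : ∀ u : (Fn ℓ f)ˣ, ((R u : (Fn ℓ f)ˣ) : Fn ℓ f) = ρ (u : Fn ℓ f) := fun _ => rfl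
  have hcs : ∀ i, c (i + 1) = h * R (c i) := fun i => R11_succ ζ hζ.pow_eq_one h0 h i
  have hcℓ : c ℓ = 1 := hn
  have hc0 : c 0 = 1 := by simp [hc]
  obtain ⟨b, hb⟩ := R11_exists ζ hζ h0 (fun i => (c i : Fn ℓ f)) (by simp [hc0])
  set w0 := ∑ i ∈ Finset.range ℓ, (c i : Fn ℓ f) * ρ^[i] b with hw0
  have key : (h : Fn ℓ f) * ρ w0 = w0 := by
    have h1 : (h : Fn ℓ f) * ρ w0 = ∑ i ∈ Finset.range ℓ, (c (i + 1) : Fn ℓ f) * ρ^[i + 1] b := by
      rw [hw0, map_sum, Finset.mul_sum]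
      apply Finset.sum_congr rfl
      intro i _
      rw [map_mul, hcs, Units.val_mul, hRρ, Function.iterate_succ_apply']
      ring
    have h2 : ∑ i ∈ Finset.range ℓ, (c (i + 1) : Fn ℓ f) * ρ^[i + 1] b +
        (c 0 : Fn ℓ f) * ρ^[0] b = w0 + (c ℓ : Fn ℓ f) * ρ^[ℓ] b := by
      rw [hw0, ← Finset.sum_range_succ,
        ← Finset.sum_range_succ' (fun i => (c i : Fn ℓ f) * ρ^[i] b)]
    rw [hc0, hcℓ, R11_full, Function.iterate_zero, id] at h2
    rw [h1]
    exact add_right_cancel h2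
  set w : (Fn ℓ f)ˣ := Units.mk0 w0 hb with hw
  have hwR : h * R w = w := by
    apply Units.ext
    rw [Units.val_mul, hRρ]
    exact key
  refine ⟨(R w)⁻¹, ?_⟩
  rw [map_inv, MulEquiv.symm_apply_apply, div_inv_eq_mul, eq_comm, inv_mul_eq_iff_eq_mul,
    mul_comm]
  exact hwR.symm

end Pool.Agent.Lib.MP_89bcae_ag.Sup

end

section

/-!
ROW R14 (150-250 lines). The leading coefficient of a function at a ramified point `(θ, 0)`, with
respect to the uniformizer `y`.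

DEFINITION. For a root `θ` of `f` and `P = (θ, 0)`: `lc θ h` is the constant `c` such that the
function `h y^{-ord_P(h)} - c` vanishes at `P` (or is zero): it exists by `exists_residue_pt`, is
unique since nonzero constants have order `0`, and is not `0` since `h y^{-ord h}` has order `0`.
PROOFS. Multiplicativity: `uv - cd = u (v - d) + d (u - c)` for functions `u`, `v` of order `0`, and
`ord_add`. `lc θ c = c` clear. `x - a - (θ - a) = x - θ` has positive order: `lc θ (x - a) = θ - a`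
if `a ≠ θ`. `f = (x - θ) g`, `g(θ) = f'(θ)`, `y^ℓ = (x - θ) g(x)`: `(x - θ) y^{-ℓ} = 1/g(x)`, so
`lc θ (x - θ) = 1 / f'(θ)`. `lc θ y = 1`. Rotation: apply `rot : y ↦ ζ y` (which preserves `ord_P`,
as `P.rot ζ = P`, and constants) to `h y^{-w} - c`: `rot(h) ζ^{-w} y^{-w} - c` vanishes at `P`, so
`lc θ (rot h) = ζ^w lc θ h`. Symmetries: apply `symU σ` in the same way (`ord_symU`, `symU_yU`).
Definition in Lean: `if hθ : f.eval θ = 0 then (choose ...) else 1`.
-/

open Polynomial IsDedekindDomain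

open scoped Classical

namespace Pool.Agent.Lib.MP_89bcae_ag.Sup

universe u

variable {ℓ : ℕ} {E : Type u} [Field E] {f : E[X]} [hG : IsGood ℓ f]

/-- The ramified point `(θ, 0)`. -/
def ramPt (hℓ : ℓ ≠ 0) {θ : E} (hθ : f.eval θ = 0) : Pt ℓ f := ⟨θ, 0, by rw [zero_pow hℓ, hθ]⟩

/-- The order of a function at the ramified point `(θ, 0)` (zero if `θ` is not a root of `f`). -/
noncomputable def ordR (θ : E) (h : (Fn ℓ f)ˣ) : ℤ :=
  if hθ : f.eval θ = 0 then ord (ramPt hG.prime.ne_zero hθ) h else 0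

/-- the function `u` has the value `c` at `P` -/
private def R14_res (P : Pt ℓ f) (u : Fn ℓ f) (c : E) : Prop :=
  P.hs.valuation (Fn ℓ f) (u - cst c) < 1

private lemma R14_val_ne_zero (P : Pt ℓ f) (h : (Fn ℓ f)ˣ) :
    P.hs.valuation (Fn ℓ f) (h : Fn ℓ f) ≠ 0 :=
  (Valuation.ne_zero_iff _).mpr h.ne_zero


private lemma R14_ord_pos_iff (P : Pt ℓ f) (h : (Fn ℓ f)ˣ) :
    0 < ord P h ↔ P.hs.valuation (Fn ℓ f) (h : Fn ℓ f) < 1 := by
  have h1 := WithZero.log_lt_iff_lt_exp (a := (0 : ℤ)) (R14_val_ne_zero P h)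
  rw [WithZero.exp_zero] at h1
  rw [← h1]
  unfold ord
  omega

omit hG in
private lemma R14_cstU_coe (c : Eˣ) : ((cstU c : (Fn ℓ f)ˣ) : Fn ℓ f) = cst (c : E) := rfl

private lemma R14_val_cst_le (P : Pt ℓ f) (c : E) : P.hs.valuation (Fn ℓ f) (cst c) ≤ 1 :=
  HeightOneSpectrum.valuation_le_one P.hs (ofPoly (C c))

private lemma R14_val_cst_lt (P : Pt ℓ f) (c : E) (h : P.hs.valuation (Fn ℓ f) (cst c) < 1) :
    c = 0 := by
  by_contra hc
  have h1 := (R14_ord_pos_iff P (cstU (Units.mk0 c hc))).mpr (by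
    rw [R14_cstU_coe, Units.val_mk0]; exact h)
  rw [ord_cstU] at h1
  exact lt_irrefl _ h1

private lemma R14_res_le (P : Pt ℓ f) (u : Fn ℓ f) (c : E) (h : R14_res P u c) :
    P.hs.valuation (Fn ℓ f) u ≤ 1 := by
  have h1 : u = (u - cst c) + cst c := by ring
  rw [h1]
  exact (Valuation.map_add _ _ _).trans (max_le (le_of_lt h) (R14_val_cst_le P c))

private lemma R14_res_unique (P : Pt ℓ f) (u : Fn ℓ f) (c c' : E) (h : R14_res P u c)
    (h' : R14_res P u c') : c = c' := by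
  have h1 : P.hs.valuation (Fn ℓ f) (cst (c - c')) < 1 := by
    have h2 : (cst (c - c') : Fn ℓ f) = -(u - cst c) + (u - cst c') := by
      rw [map_sub]; ring
    rw [h2]
    refine lt_of_le_of_lt (Valuation.map_add _ _ _) (max_lt ?_ h')
    rw [Valuation.map_neg]
    exact h
  exact sub_eq_zero.mp (R14_val_cst_lt P _ h1)

private lemma R14_res_mul (P : Pt ℓ f) (u u' : Fn ℓ f) (c c' : E) (h : R14_res P u c)
    (h' : R14_res P u' c') : R14_res P (u * u') (c * c') := by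
  unfold R14_res
  have h2 : u * u' - cst (c * c') = u * (u' - cst c') + cst c' * (u - cst c) := by
    rw [map_mul]; ring
  rw [h2]
  refine lt_of_le_of_lt (Valuation.map_add _ _ _) (max_lt ?_ ?_)
  · rw [map_mul]
    exact (mul_le_of_le_one_left' (R14_res_le P u c h)).trans_lt h'
  · rw [map_mul]
    exact (mul_le_of_le_one_left' (R14_val_cst_le P c')).trans_lt h

private lemma R14_res_cst (P : Pt ℓ f) (c : E) : R14_res P (cst c) c := by
  unfold R14_res
  rw [sub_self, map_zero]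
  exact zero_lt_one

private lemma R14_res_one (P : Pt ℓ f) : R14_res P 1 1 := by
  have h := R14_res_cst P (1 : E)
  rwa [map_one] at h

private lemma R14_res_alg (P : Pt ℓ f) (a : Coord ℓ f) :
    R14_res P (algebraMap (Coord ℓ f) (Fn ℓ f) a) (evalPt P a) := by
  unfold R14_res
  have h1 : algebraMap (Coord ℓ f) (Fn ℓ f) a - cst (evalPt P a) =
      algebraMap (Coord ℓ f) (Fn ℓ f) (a - ofPoly (C (evalPt P a))) := by
    rw [map_sub]
    rfl
  rw [h1]
  refine (HeightOneSpectrum.valuation_lt_one_iff_mem _ _).mpr ?_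
  change evalPt P (a - ofPoly (C (evalPt P a))) = 0
  rw [map_sub, evalPt_ofPoly, eval_C, sub_self]

private lemma R14_exists_res (P : Pt ℓ f) (u : (Fn ℓ f)ˣ) (hu : 0 ≤ ord P u) :
    ∃ c : E, R14_res P u c := by
  obtain ⟨c, hc⟩ := exists_residue_pt P u hu
  refine ⟨c, ?_⟩
  unfold R14_res
  by_cases h0 : (u : Fn ℓ f) - cst c = 0
  · rw [h0, map_zero]
    exact zero_lt_one
  · have h1 := hc (Units.mk0 _ h0) rfl
    rw [R14_ord_pos_iff, Units.val_mk0] at h1
    exact h1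

private lemma R14_res_ne_zero (P : Pt ℓ f) (u : (Fn ℓ f)ˣ) (hu : ord P u = 0) (c : E)
    (hc : R14_res P u c) : c ≠ 0 := by
  rintro rfl
  unfold R14_res at hc
  rw [map_zero, sub_zero, ← R14_ord_pos_iff, hu] at hc
  exact lt_irrefl _ hc

/-- transport of residues by an automorphism -/
private lemma R14_res_aut (φ : Coord ℓ f ≃+* Coord ℓ f) (P Q : Pt ℓ f)
    (h : ∀ a, evalPt Q (φ a) = 0 ↔ evalPt P a = 0) (u : (Fn ℓ f)ˣ) (c d : E)
    (hφ : φ (ofPoly (C c)) = ofPoly (C d)) (hu : R14_res P u c) :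
    R14_res Q (autU φ u : (Fn ℓ f)ˣ) d := by
  have hcoe : ∀ w : (Fn ℓ f)ˣ, ((autU φ w : (Fn ℓ f)ˣ) : Fn ℓ f) = autF φ (w : Fn ℓ f) :=
    fun w => rfl
  have hcst : autF φ (cst c : Fn ℓ f) = cst d := by
    have h1 := autF_algebraMap φ (ofPoly (C c) : Coord ℓ f)
    rw [hφ] at h1
    exact h1
  have hsub : ((autU φ u : (Fn ℓ f)ˣ) : Fn ℓ f) - cst d = autF φ ((u : Fn ℓ f) - cst c) := by
    rw [map_sub, hcst, hcoe]
  unfold R14_res at hu ⊢
  by_cases h0 : (u : Fn ℓ f) - cst c = 0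
  · rw [hsub, h0, map_zero, map_zero]
    exact zero_lt_one
  · have h1 : 0 < ord P (Units.mk0 _ h0) := by
      rw [R14_ord_pos_iff, Units.val_mk0]
      exact hu
    rw [← ord_autU φ P Q h, R14_ord_pos_iff, hcoe, Units.val_mk0, ← hsub] at h1
    exact h1

private lemma R14_ord_norm (P : Pt ℓ f) (hP : P.y = 0) (h : (Fn ℓ f)ˣ) :
    ord P (h * yU ^ (-ord P h)) = 0 := by
  rw [ord_mul, ord_zpow, ord_yU_of_ramified P hP]
  ring

private lemma R14_exists (P : Pt ℓ f) (hP : P.y = 0) (h : (Fn ℓ f)ˣ) :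
    ∃ c : Eˣ, R14_res P ((h * yU ^ (-ord P h) : (Fn ℓ f)ˣ) : Fn ℓ f) c := by
  obtain ⟨c, hc⟩ := R14_exists_res P (h * yU ^ (-ord P h)) (R14_ord_norm P hP h).ge
  exact ⟨Units.mk0 c (R14_res_ne_zero P _ (R14_ord_norm P hP h) c hc), hc⟩

/-- the leading coefficient at a ramified point -/
private noncomputable def R14_lc (P : Pt ℓ f) (hP : P.y = 0) (h : (Fn ℓ f)ˣ) : Eˣ :=
  (R14_exists P hP h).choose

private lemma R14_lc_spec (P : Pt ℓ f) (hP : P.y = 0) (h : (Fn ℓ f)ˣ) :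
    R14_res P ((h * yU ^ (-ord P h) : (Fn ℓ f)ˣ) : Fn ℓ f) (R14_lc P hP h) :=
  (R14_exists P hP h).choose_spec

private lemma R14_lc_eq (P : Pt ℓ f) (hP : P.y = 0) (h : (Fn ℓ f)ˣ) (c : E)
    (hc : R14_res P ((h * yU ^ (-ord P h) : (Fn ℓ f)ˣ) : Fn ℓ f) c) :
    (R14_lc P hP h : E) = c :=
  R14_res_unique P _ _ _ (R14_lc_spec P hP h) hc

private lemma R14_lc_mul (P : Pt ℓ f) (hP : P.y = 0) (h h' : (Fn ℓ f)ˣ) :
    R14_lc P hP (h * h') = R14_lc P hP h * R14_lc P hP h' := by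
  apply Units.ext
  rw [Units.val_mul]
  apply R14_lc_eq
  have h1 := R14_res_mul P _ _ _ _ (R14_lc_spec P hP h) (R14_lc_spec P hP h')
  have h2 : (h * h' * yU ^ (-ord P (h * h')) : (Fn ℓ f)ˣ) =
      (h * yU ^ (-ord P h)) * (h' * yU ^ (-ord P h')) := by
    rw [ord_mul, neg_add, zpow_add]
    exact mul_mul_mul_comm _ _ _ _
  rw [h2, Units.val_mul]
  exact h1

private noncomputable def R14_hom (P : Pt ℓ f) (hP : P.y = 0) : (Fn ℓ f)ˣ →* Eˣ :=
  MonoidHom.mk' (R14_lc P hP) (R14_lc_mul P hP)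

omit hG in
private lemma R14_ram_rot (P : Pt ℓ f) (hP : P.y = 0) (ζ : E) (hζ : ζ ^ ℓ = 1) :
    P.rot ζ hζ = P := by
  ext
  · rfl
  · change ζ * P.y = P.y
    rw [hP, mul_zero]

private lemma R14_rotU (P : Pt ℓ f) (hP : P.y = 0) (ζ : E) (hζ : ζ ^ ℓ = 1) (h0 : ζ ≠ 0)
    (h : (Fn ℓ f)ˣ) :
    (R14_lc P hP (rotU ζ hζ h0 h) : E) = ζ ^ ord P h * R14_lc P hP h := by
  have hord : ord P (rotU ζ hζ h0 h) = ord P h := by
    rw [ord_rotU, R14_ram_rot P hP]
  apply R14_lc_eq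
  rw [hord]
  have h1 : R14_res P ((rotU ζ hζ h0 (h * yU ^ (-ord P h)) : (Fn ℓ f)ˣ) : Fn ℓ f)
      (R14_lc P hP h) := by
    refine R14_res_aut (rotE ζ hζ h0) P P ?_ _ _ _ ?_ (R14_lc_spec P hP h)
    · intro a
      rw [evalPt_rotE, R14_ram_rot P hP]
    · exact rotC_ofPoly ζ hζ _
  have h2 : (rotU ζ hζ h0 h * yU ^ (-ord P h) : (Fn ℓ f)ˣ) =
      cstU (Units.mk0 ζ h0 ^ ord P h) * rotU ζ hζ h0 (h * yU ^ (-ord P h)) := by
    rw [map_mul (rotU ζ hζ h0), map_zpow (rotU ζ hζ h0), rotU_yU, map_zpow cstU, mul_zpow,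
      zpow_neg (cstU (Units.mk0 ζ h0)), mul_left_comm (rotU ζ hζ h0 h), mul_inv_cancel_left]
  rw [h2, Units.val_mul]
  refine R14_res_mul P _ _ _ _ ?_ h1
  have h3 : ((cstU (Units.mk0 ζ h0 ^ ord P h) : (Fn ℓ f)ˣ) : Fn ℓ f) = cst (ζ ^ ord P h) := by
    rw [R14_cstU_coe]
    congr 1
    rw [Units.val_zpow_eq_zpow_val, Units.val_mk0]
  rw [h3]
  exact R14_res_cst P _

private lemma R14_symU (P : Pt ℓ f) (hP : P.y = 0) (σ : Sym f) (hP' : (P.sym σ).y = 0)
    (h : (Fn ℓ f)ˣ) :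
    (R14_lc (P.sym σ) hP' (symU σ h) : E) = (σ : E ≃+* E) (R14_lc P hP h : E) := by
  apply R14_lc_eq
  rw [ord_symU]
  have h2 : (symU σ h * yU ^ (-ord P h) : (Fn ℓ f)ˣ) = symU σ (h * yU ^ (-ord P h)) := by
    rw [map_mul (symU σ), map_zpow (symU σ), symU_yU]
  rw [h2]
  refine R14_res_aut (symE ℓ σ) P (P.sym σ) ?_ _ _ _ ?_ (R14_lc_spec P hP h)
  · intro a
    rw [evalPt_symE]
    exact map_eq_zero_iff _ (RingEquiv.injective _)
  · have h3 := coordMap_ofPoly (ℓ := ℓ) ((σ : E ≃+* E) : E →+* E) σ.2 (C (R14_lc P hP h : E))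
    rw [Polynomial.map_C] at h3
    exact h3

private lemma R14_lc_cst (P : Pt ℓ f) (hP : P.y = 0) (c : Eˣ) :
    R14_lc P hP (cstU c) = c := by
  apply Units.ext
  apply R14_lc_eq
  rw [ord_cstU, neg_zero, zpow_zero, mul_one]
  exact R14_res_cst P _

private lemma R14_lc_xs (P : Pt ℓ f) (hP : P.y = 0) (a : E) (ha : a ≠ P.x) :
    (R14_lc P hP (xs a) : E) = P.x - a := by
  apply R14_lc_eq
  rw [ord_xs_of_ne P (Ne.symm ha), neg_zero, zpow_zero, mul_one]
  have h := R14_res_alg P (ofPoly (X - C a))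
  rw [evalPt_ofPoly, eval_sub, eval_X, eval_C] at h
  exact h

private lemma R14_lc_yU (P : Pt ℓ f) (hP : P.y = 0) : R14_lc P hP yU = 1 := by
  apply Units.ext
  apply R14_lc_eq
  rw [ord_yU_of_ramified P hP, zpow_neg_one, mul_inv_cancel, Units.val_one, Units.val_one]
  exact R14_res_one P

private lemma R14_lc_xs_self (P : Pt ℓ f) (hP : P.y = 0) :
    (R14_lc P hP (xs P.x) : E) = ((derivative f).eval P.x)⁻¹ := by
  have hroot : f.eval P.x = 0 := by
    rw [← P.eq, hP, zero_pow hG.prime.ne_zero]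
  obtain ⟨g, hg⟩ := Polynomial.dvd_iff_isRoot.mpr hroot
  have hder : (derivative f).eval P.x = g.eval P.x := by
    have h5 := congrArg (fun q : E[X] => (derivative q).eval P.x) hg
    simp only [derivative_mul, derivative_X_sub_C, one_mul, eval_add, eval_mul, eval_sub, eval_X,
      eval_C, sub_self, zero_mul, add_zero] at h5
    exact h5
  have hrel : ((xs P.x * yU ^ (-ord P (xs P.x)) : (Fn ℓ f)ˣ) : Fn ℓ f) *
      algebraMap (Coord ℓ f) (Fn ℓ f) (ofPoly g) = 1 := by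
    rw [ord_xs_of_ramified P hP, zpow_neg, zpow_natCast, Units.val_mul, Units.val_inv_eq_inv_val,
      Units.val_pow_eq_pow_val]
    change algebraMap (Coord ℓ f) (Fn ℓ f) (ofPoly (X - C P.x)) *
      ((algebraMap (Coord ℓ f) (Fn ℓ f) yy) ^ ℓ)⁻¹ * algebraMap (Coord ℓ f) (Fn ℓ f) (ofPoly g) = 1
    have h1 : (algebraMap (Coord ℓ f) (Fn ℓ f) yy) ^ ℓ =
        algebraMap (Coord ℓ f) (Fn ℓ f) (ofPoly (X - C P.x)) *
          algebraMap (Coord ℓ f) (Fn ℓ f) (ofPoly g) := by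
      rw [← map_pow, yy_pow, ← map_mul (algebraMap (Coord ℓ f) (Fn ℓ f)), ← map_mul ofPoly, ← hg]
    have h2 : (algebraMap (Coord ℓ f) (Fn ℓ f) yy) ^ ℓ ≠ 0 := pow_ne_zero _ algebraMap_yy_ne_zero
    rw [mul_right_comm, ← h1, mul_inv_cancel₀ h2]
  have h3 := R14_res_mul P _ _ _ _ (R14_lc_spec P hP (xs P.x)) (R14_res_alg P (ofPoly g))
  rw [hrel, evalPt_ofPoly] at h3
  have h4 := R14_res_unique P _ _ _ h3 (R14_res_one P)
  rw [hder]
  exact eq_inv_of_mul_eq_one_left h4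

lemma exists_lc : ∃ lc : E → (Fn ℓ f)ˣ →* Eˣ, ∀ θ, f.eval θ = 0 →
    (∀ c : Eˣ, lc θ (cstU c) = c) ∧
    (∀ a, (h : a ≠ θ) → (lc θ (xs a) : E) = θ - a) ∧
    ((lc θ (xs θ) : E) = ((derivative f).eval θ)⁻¹) ∧
    (lc θ yU = 1) ∧
    (∀ (ζ : E) (hζ : ζ ^ ℓ = 1) (h0 : ζ ≠ 0) (h : (Fn ℓ f)ˣ),
      (lc θ (rotU ζ hζ h0 h) : E) = ζ ^ ordR θ h * lc θ h) ∧
    (∀ (σ : Sym f) (h : (Fn ℓ f)ˣ),
      (lc ((σ : E ≃+* E) θ) (symU σ h) : E) = (σ : E ≃+* E) (lc θ h : E)) := by
  have key : ∀ θ (hθ : f.eval θ = 0), (if hθ : f.eval θ = 0 then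
      R14_hom (ramPt hG.prime.ne_zero hθ : Pt ℓ f) rfl else 1 : (Fn ℓ f)ˣ →* Eˣ) =
      R14_hom (ramPt hG.prime.ne_zero hθ : Pt ℓ f) rfl := fun θ hθ => dif_pos hθ
  refine ⟨fun θ => if hθ : f.eval θ = 0 then
    R14_hom (ramPt hG.prime.ne_zero hθ : Pt ℓ f) rfl else 1, ?_⟩
  intro θ hθ
  have hord : ∀ h : (Fn ℓ f)ˣ, ordR θ h = ord (ramPt hG.prime.ne_zero hθ) h :=
    fun h => dif_pos hθ
  simp only [key θ hθ]
  refine ⟨?_, ?_, ?_, ?_, ?_, ?_⟩
  · intro c
    exact R14_lc_cst (ramPt hG.prime.ne_zero hθ : Pt ℓ f) rfl c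
  · intro a ha
    exact R14_lc_xs (ramPt hG.prime.ne_zero hθ : Pt ℓ f) rfl a ha
  · exact R14_lc_xs_self (ramPt hG.prime.ne_zero hθ : Pt ℓ f) rfl
  · exact R14_lc_yU (ramPt hG.prime.ne_zero hθ : Pt ℓ f) rfl
  · intro ζ hζ h0 h
    rw [hord]
    exact R14_rotU (ramPt hG.prime.ne_zero hθ : Pt ℓ f) rfl ζ hζ h0 h
  · intro σ h
    have hθ' : f.eval ((σ : E ≃+* E) θ) = 0 := by
      have h1 : f.map (((σ : E ≃+* E) : E →+* E)) = f := σ.2
      have h2 : (f.map (((σ : E ≃+* E) : E →+* E))).eval (((σ : E ≃+* E) : E →+* E) θ) = 0 := by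
        rw [Polynomial.eval_map_apply, hθ, map_zero]
      rw [h1] at h2
      exact h2
    rw [key _ hθ']
    have hpt : (ramPt hG.prime.ne_zero hθ' : Pt ℓ f) =
        (ramPt hG.prime.ne_zero hθ : Pt ℓ f).sym σ := by
      ext
      · rfl
      · exact (map_zero (σ : E ≃+* E)).symm
    have h3 := R14_symU (ramPt hG.prime.ne_zero hθ : Pt ℓ f) rfl σ
      (by rw [← hpt]; rfl) h
    change (R14_lc (ramPt hG.prime.ne_zero hθ' : Pt ℓ f) rfl (symU σ h) : E) = _
    have h4 : ∀ (Q Q' : Pt ℓ f) (hQ : Q.y = 0) (hQ' : Q'.y = 0), Q = Q' → ∀ u : (Fn ℓ f)ˣ,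
        R14_lc Q hQ u = R14_lc Q' hQ' u := by
      rintro Q _ hQ hQ' rfl u
      rfl
    rw [h4 _ _ rfl (by rw [← hpt]; rfl) hpt]
    exact h3

/-- The leading coefficient at `(θ, 0)`. -/
noncomputable def lc (θ : E) : (Fn ℓ f)ˣ →* Eˣ := (exists_lc (ℓ := ℓ) (f := f)).choose θ

lemma lc_spec {θ : E} (hθ : f.eval θ = 0) :
    (∀ c : Eˣ, lc θ (cstU c : (Fn ℓ f)ˣ) = c) ∧
    (∀ a, (h : a ≠ θ) → (lc θ (xs a : (Fn ℓ f)ˣ) : E) = θ - a) ∧
    ((lc θ (xs θ : (Fn ℓ f)ˣ) : E) = ((derivative f).eval θ)⁻¹) ∧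
    (lc θ (yU : (Fn ℓ f)ˣ) = 1) ∧
    (∀ (ζ : E) (hζ : ζ ^ ℓ = 1) (h0 : ζ ≠ 0) (h : (Fn ℓ f)ˣ),
      (lc θ (rotU ζ hζ h0 h) : E) = ζ ^ ordR θ h * lc θ h) ∧
    (∀ (σ : Sym f) (h : (Fn ℓ f)ˣ),
      (lc ((σ : E ≃+* E) θ) (symU σ h) : E) = (σ : E ≃+* E) (lc θ h : E)) :=
  (exists_lc (ℓ := ℓ) (f := f)).choose_spec θ hθ

end Pool.Agent.Lib.MP_89bcae_ag.Sup

end

section

/-!
ROW R17 (100-200 lines). The kernel of `π = 1 - Z`.

Notation: `ram e = cl (ramDiv e) = ∑ e(θ) [(θ, 0)]`.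

(A) `cl_eq_ram`: if `D - rot_* D = div h` and `nrm h = 1` then `cl D = ram e`, where
`e(θ) = atR D θ - n(θ)` and `lc θ h = ζ^n(θ)`.
PROOF. By Hilbert 90 (R11), `h = v / rot⁻¹ v`, so `div h = div v - rot_* div v` and
`D₀ = D - div v` is fixed by `rot_*`. A divisor fixed by `rot_*` is the sum of its part at the ramified
points and of multiples of the full fibres `∑_{i<ℓ} (P.rot^i) = div (x - P.x)` of unramified points
(induction on the size of the support, or a sum over the finite set of the `x`-coordinates), so its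
class is `ram (atR D₀)`, and `atR D₀ θ = atR D θ - ordR θ v`. By `lc_spec`:
`lc θ (rot v') = ζ^{ordR θ v'} lc θ v'` with `v' = rot⁻¹ v` and `ordR θ v' = ordR θ v`
(`P.rot = P` for `P = (θ, 0)`), so `lc θ h = ζ^{ordR θ v}`, i.e. `n(θ) ≡ ordR θ v` modulo `ℓ`; and
`ℓ [(θ, 0)] = cl (div (x - θ)) = 0` so exponents matter only modulo `ℓ`.
(B) `zJ Q = Q` iff `Q` is some `ram e`. PROOF. If `Q = cl D` (R08), `D - rot_* D = div h`,
`nrm h = c · xprod (div h) = c` (`exists_nrm_eq`; `xprod (D - rot_* D) = 1` by `xprod_rot`,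
`xprod_add`); dividing `h` by a constant whose `ℓ`-th power is `c` (`E` algebraically closed) we may
assume `nrm h = 1` (`nrm_cstU`); apply (A) — the `lc θ h` are `ℓ`-th roots of unity since
`1 = lc θ (nrm h) = ∏ lc θ (rot^i h) = ζ^{...} lc θ(h)^ℓ` and `ordR θ h = 0`: `ord` of
`D - rot_* D` at a fixed point is zero. The converse: `mapDomain_rot_ramDiv`.
(C) `ram e = 0` iff `e` is constant modulo `ℓ` on the roots of `f`. PROOF. `ram 1 = cl (div y) = 0`
and `ℓ [(θ,0)] = 0` give the direction from right to left. Conversely let `ramDiv e = div h`. Then `rot⁻¹ h / h` has divisor `0`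
(`mapDomain_rot_ramDiv`), so it is a constant `c`: (divisor zero implies constant: R13 lemma
`exists_const_of_dg_eq_zero`: else `dg (div w) < 0` with `w = h - c`, but `ord_P w ≥ 0` for all `P`
by `ord_add`); `c^ℓ = 1` as `rot^ℓ = 1`; `c = ζ^{-j}`; and `lc θ (rot h) = ζ^{ordR θ h} lc θ h`
gives `e(θ) = ordR θ h ≡ j` for all roots `θ`.
-/

open Polynomial IsDedekindDomain

open scoped Classical

namespace Pool.Agent.Lib.MP_89bcae_ag.Sup

universe u

variable {ℓ : ℕ} {E : Type u} [Field E] {f : E[X]} [hG : IsGood ℓ f]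

/-- The class `∑ e(θ) [(θ, 0)]`. -/
noncomputable def ram (e : E → ℤ) : Jac ℓ f := cl (ramDiv e)

lemma r17_eq_of_x_eq {P Q : Pt ℓ f} (hP : P.y = 0) (h : Q.x = P.x) : Q = P := by
  have h1 : Q.y ^ ℓ = 0 := by
    rw [Q.eq, h, ← P.eq, hP, zero_pow hG.prime.ne_zero]
  exact Pt.ext h ((pow_eq_zero_iff hG.prime.ne_zero).1 h1 |>.trans hP.symm)

lemma r17_div_xs_ram (P : Pt ℓ f) (hP : P.y = 0) :
    div (xs P.x : (Fn ℓ f)ˣ) = ℓ • Finsupp.single P 1 := by
  ext Q
  rw [div_apply, Finsupp.smul_apply, Finsupp.single_apply]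
  by_cases h : P = Q
  · subst h
    rw [if_pos rfl, ord_xs_of_ramified P hP]
    simp
  · rw [if_neg h, smul_zero]
    exact ord_xs_of_ne Q fun h1 => h (r17_eq_of_x_eq hP h1).symm

lemma r17_smul_cl (D : Pt ℓ f →₀ ℤ) (hD : ∀ P, P.y ≠ 0 → D P = 0) : ℓ • cl D = 0 := by
  conv_lhs => rw [← Finsupp.sum_single D]
  rw [Finsupp.sum, map_sum, Finset.smul_sum]
  refine Finset.sum_eq_zero fun P hP => ?_
  have hy : P.y = 0 := by
    by_contra hy
    exact Finsupp.mem_support_iff.1 hP (hD P hy)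
  have h1 : (Finsupp.single P (D P) : Pt ℓ f →₀ ℤ) = D P • Finsupp.single P 1 := by
    rw [Finsupp.smul_single, smul_eq_mul, mul_one]
  rw [h1, map_zsmul, smul_comm, ← map_nsmul, ← r17_div_xs_ram P hy, cl_div, smul_zero]

lemma ram_congr (e e' : E → ℤ) (h : ∀ θ, f.eval θ = 0 → (ℓ : ℤ) ∣ e θ - e' θ) :
    (ram e : Jac ℓ f) = ram e' := by
  have hk : ∀ θ, ∃ k : ℤ, f.eval θ = 0 → e θ - e' θ = ℓ * k := by
    intro θ
    by_cases hθ : f.eval θ = 0
    · obtain ⟨k, hk⟩ := h θ hθ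
      exact ⟨k, fun _ => hk⟩
    · exact ⟨0, fun h => absurd h hθ⟩
  choose k hk using hk
  rw [← sub_eq_zero, ram, ram, ← map_sub, ← ramDiv_sub,
    ramDiv_congr (fun θ => e θ - e' θ) (fun θ => ℓ * k θ) hk, ramDiv_smul, map_zsmul,
    natCast_zsmul]
  refine r17_smul_cl _ fun P hP => ?_
  rw [ramDiv_apply, if_neg hP]

omit hG in
lemma r17_rot_injective (ζ : E) (hζ : ζ ^ ℓ = 1) (h0 : ζ ≠ 0) :
    Function.Injective (Pt.rot ζ hζ : Pt ℓ f → Pt ℓ f) := by
  intro P Q h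
  have hx : (Pt.rot ζ hζ P).x = (Pt.rot ζ hζ Q).x := by rw [h]
  have hy : (Pt.rot ζ hζ P).y = (Pt.rot ζ hζ Q).y := by rw [h]
  exact Pt.ext hx (mul_left_cancel₀ h0 hy)

omit hG in
lemma r17_rot_iter (ζ : E) (hζ : ζ ^ ℓ = 1) (P : Pt ℓ f) (i : ℕ) :
    ((Pt.rot ζ hζ)^[i] P).x = P.x ∧ ((Pt.rot ζ hζ)^[i] P).y = ζ ^ i * P.y := by
  induction i with
  | zero => simp
  | succ i ih =>
    rw [Function.iterate_succ_apply']
    refine ⟨ih.1, ?_⟩
    change ζ * ((Pt.rot ζ hζ)^[i] P).y = _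
    rw [ih.2, pow_succ']
    ring

lemma r17_exists_iter (ζ : E) (hζ : IsPrimitiveRoot ζ ℓ) (P Q : Pt ℓ f) (hP : P.y ≠ 0)
    (h : Q.x = P.x) : ∃ i, (Pt.rot ζ hζ.pow_eq_one)^[i] P = Q := by
  have h1 : (Q.y / P.y) ^ ℓ = 1 := by
    rw [div_pow, Q.eq, P.eq, h, div_self]
    rw [← P.eq]
    exact pow_ne_zero _ hP
  have : NeZero ℓ := ⟨hG.prime.ne_zero⟩
  obtain ⟨i, _, hi⟩ := hζ.eq_pow_of_pow_eq_one h1
  refine ⟨i, Pt.ext ?_ ?_⟩
  · rw [(r17_rot_iter ζ hζ.pow_eq_one P i).1, h]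
  · rw [(r17_rot_iter ζ hζ.pow_eq_one P i).2, hi, div_mul_cancel₀ _ hP]

omit hG in
lemma r17_apply_rot (ζ : E) (hζ : ζ ^ ℓ = 1) (h0 : ζ ≠ 0) (D : Pt ℓ f →₀ ℤ)
    (hD : D.mapDomain (Pt.rot ζ hζ) = D) (P : Pt ℓ f) (i : ℕ) :
    D ((Pt.rot ζ hζ)^[i] P) = D P := by
  induction i with
  | zero => rfl
  | succ i ih =>
    rw [Function.iterate_succ_apply', ← ih]
    conv_lhs => rw [← hD]
    exact Finsupp.mapDomain_apply (r17_rot_injective ζ hζ h0) _ _

lemma r17_cl_unram (ζ : E) (hζ : IsPrimitiveRoot ζ ℓ) (h0 : ζ ≠ 0) (D : Pt ℓ f →₀ ℤ)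
    (hD : D.mapDomain (Pt.rot ζ hζ.pow_eq_one) = D) (hr : ∀ P, P.y = 0 → D P = 0) :
    cl D = 0 := by
  have := hG.alg
  have hb : ∀ a : E, ∃ b : E, b ^ ℓ = f.eval a := fun a =>
    IsAlgClosed.exists_pow_nat_eq _ hG.prime.pos
  choose b hb using hb
  have key : D = ∑ a ∈ D.support.image Pt.x, D ⟨a, b a, hb a⟩ • div (xs a : (Fn ℓ f)ˣ) := by
    ext Q
    rw [Finsupp.finsetSum_apply]
    by_cases hQ : Q.x ∈ D.support.image Pt.x
    · rw [Finset.sum_eq_single Q.x]
      · obtain ⟨P, hP, hPQ⟩ := Finset.mem_image.1 hQ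
        have hPy : P.y ≠ 0 := fun h => Finsupp.mem_support_iff.1 hP (hr P h)
        have hQy : Q.y ≠ 0 := by
          intro h
          apply hPy
          rw [r17_eq_of_x_eq h hPQ]
          exact h
        have hby : b Q.x ≠ 0 := by
          intro h
          have h2 := hb Q.x
          rw [h, zero_pow hG.prime.ne_zero, ← Q.eq] at h2
          exact hQy ((pow_eq_zero_iff hG.prime.ne_zero).1 h2.symm)
        obtain ⟨i, hi⟩ := r17_exists_iter ζ hζ ⟨Q.x, b Q.x, hb Q.x⟩ Q hby rfl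
        rw [Finsupp.smul_apply, div_apply, ord_xs_of_unramified Q hQy, smul_eq_mul, mul_one,
          ← r17_apply_rot ζ hζ.pow_eq_one h0 D hD ⟨Q.x, b Q.x, hb Q.x⟩ i, hi]
      · intro a _ ha
        rw [Finsupp.smul_apply, div_apply, ord_xs_of_ne Q ha.symm, smul_zero]
      · intro h
        exact absurd hQ h
    · have hQ0 : D Q = 0 := by
        by_contra h
        exact hQ (Finset.mem_image.2 ⟨Q, Finsupp.mem_support_iff.2 h, rfl⟩)
      rw [hQ0]
      symm
      refine Finset.sum_eq_zero fun a ha => ?_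
      rw [Finsupp.smul_apply, div_apply, ord_xs_of_ne Q (fun h => hQ (h ▸ ha)), smul_zero]
  rw [key, map_sum]
  refine Finset.sum_eq_zero fun a _ => ?_
  rw [map_zsmul, cl_div, smul_zero]

lemma r17_cl_fixed (ζ : E) (hζ : IsPrimitiveRoot ζ ℓ) (h0 : ζ ≠ 0) (D : Pt ℓ f →₀ ℤ)
    (hD : D.mapDomain (Pt.rot ζ hζ.pow_eq_one) = D) : cl D = ram (atR D) := by
  rw [← sub_eq_zero, ram, ← map_sub]
  refine r17_cl_unram ζ hζ h0 _ ?_ ?_
  · have := (Finsupp.mapDomain.addMonoidHom (M := ℤ) (Pt.rot ζ hζ.pow_eq_one : Pt ℓ f → Pt ℓ f)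
      ).map_sub D (ramDiv (atR D))
    change (D - ramDiv (atR D)).mapDomain (Pt.rot ζ hζ.pow_eq_one) =
      D.mapDomain (Pt.rot ζ hζ.pow_eq_one) - (ramDiv (atR D)).mapDomain (Pt.rot ζ hζ.pow_eq_one)
      at this
    rw [this, hD, mapDomain_rot_ramDiv]
  · intro P hP
    have hθ : f.eval P.x = 0 := by
      rw [← P.eq, hP, zero_pow hG.prime.ne_zero]
    rw [Finsupp.sub_apply, ramDiv_apply, if_pos hP, atR, dif_pos hθ, sub_eq_zero]
    congr 1
    exact Pt.ext rfl hP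

lemma cl_eq_ram (ζ : E) (hζ : IsPrimitiveRoot ζ ℓ) (h0 : ζ ≠ 0) (D : Pt ℓ f →₀ ℤ)
    (h : (Fn ℓ f)ˣ) (hD : D - D.mapDomain (Pt.rot ζ hζ.pow_eq_one) = div h)
    (hn : nrm ζ hζ.pow_eq_one h0 h = 1) (n : E → ℤ)
    (hlc : ∀ θ, f.eval θ = 0 → (lc θ h : E) = ζ ^ n θ) :
    cl D = ram fun θ => atR D θ - n θ := by
  obtain ⟨v, hv⟩ := exists_hilbert ζ hζ h0 h hn
  have hdiv : div h = div v - (div v).mapDomain (Pt.rot ζ hζ.pow_eq_one) := by
    rw [hv, div_eq_mul_inv, div_mul, div_inv, div_rotU_symm, sub_eq_add_neg]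
  have hfix : (D - div v).mapDomain (Pt.rot ζ hζ.pow_eq_one) = D - div v := by
    have := (Finsupp.mapDomain.addMonoidHom (M := ℤ) (Pt.rot ζ hζ.pow_eq_one : Pt ℓ f → Pt ℓ f)
      ).map_sub D (div v)
    change (D - div v).mapDomain (Pt.rot ζ hζ.pow_eq_one) =
      D.mapDomain (Pt.rot ζ hζ.pow_eq_one) - (div v).mapDomain (Pt.rot ζ hζ.pow_eq_one)
      at this
    rw [this]
    rw [hdiv] at hD
    have h2 : D.mapDomain (Pt.rot ζ hζ.pow_eq_one) =
        D - (div v - (div v).mapDomain (Pt.rot ζ hζ.pow_eq_one)) := by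
      rw [← hD]
      abel
    rw [h2]
    abel
  have hcl : cl D = cl (D - div v) := by
    rw [map_sub, cl_div, sub_zero]
  rw [hcl, r17_cl_fixed ζ hζ h0 _ hfix]
  refine ram_congr _ _ fun θ hθ => ?_
  have hrot : (Pt.rot ζ hζ.pow_eq_one (ramPt hG.prime.ne_zero hθ) : Pt ℓ f) =
      ramPt hG.prime.ne_zero hθ := Pt.ext rfl (mul_zero ζ)
  set v' := (rotU ζ hζ.pow_eq_one h0).symm v with hv'
  have hvv : rotU ζ hζ.pow_eq_one h0 v' = v := MulEquiv.apply_symm_apply _ _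
  have hord : ordR θ v' = ord (ramPt hG.prime.ne_zero hθ) v := by
    rw [ordR, dif_pos hθ, ← hvv, ord_rotU, hrot]
  obtain ⟨_, _, _, _, hr, _⟩ := lc_spec (ℓ := ℓ) hθ
  have hl := hr ζ hζ.pow_eq_one h0 v'
  rw [hvv, hord] at hl
  have hl2 : (lc θ h : E) = ζ ^ ord (ramPt hG.prime.ne_zero hθ) v := by
    rw [hv, _root_.map_div, Units.val_div_eq_div_val, hl, mul_div_assoc, div_self (Units.ne_zero _),
      mul_one]
  rw [hlc θ hθ] at hl2
  have hz : ζ ^ (n θ - ord (ramPt hG.prime.ne_zero hθ) v) = 1 := by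
    rw [zpow_sub₀ h0, hl2, div_self (zpow_ne_zero _ h0)]
  have hdvd := (hζ.zpow_eq_one_iff_dvd _).1 hz
  have hat : atR (D - div v) θ = atR D θ - ord (ramPt hG.prime.ne_zero hθ) v := by
    rw [atR, dif_pos hθ, atR, dif_pos hθ, Finsupp.sub_apply, div_apply]
    rfl
  rw [hat]
  have : atR D θ - ord (ramPt hG.prime.ne_zero hθ) v - (atR D θ - n θ) =
      n θ - ord (ramPt hG.prime.ne_zero hθ) v := by ring
  rw [this]
  exact hdvd

end Pool.Agent.Lib.MP_89bcae_ag.Sup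

end

end

section

attribute [local instance 100000] Pool.Agent.Lib.MP_89bcae_ag.Brt.tffFields

section

/-!
ROW R09 (100-250 lines). Functoriality of the class of a divisor.

PROOF. By additivity it is enough that `jacMap ℓ σ h (clPt P) = clPt (P.map σ h)`. Unfold: with
`A = Coord ℓ f`, `A' = Coord ℓ f'`, `φ = coordMap ℓ σ h`, the left side is the class in `Pic A'` of
`A' ⊗_A P.ideal` (`CommRing.Pic.mapRingHom`, `mapAlgebra_apply`, `ClassGroup.equivPic` applied to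
`mk0 I` is the class of `I`; look for a lemma such as `ClassGroup.equivPic_mk0`/`unitsToPic`), so it
is enough to give an `A'`-linear isomorphism `A' ⊗_A P.ideal ≃ P'.ideal`, `P' = P.map σ h`.
`a' ⊗ x ↦ a' φ(x)`: it is injective because `φ` is flat: `A' = E'[x, y]/(...)` is free over `A`
along `E'/E`: `A' = A ⊗_E E'`; or, more elementary: `P.ideal` is an invertible module, so
`A' ⊗_A P.ideal` is an invertible `A'`-module, hence torsion-free (it is locally free of rank one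
over a domain), the map is surjective onto the ideal `φ(P.ideal) A' = P'.ideal` (generators:
`Pt.ideal_eq_span`, `coordMap_ofPoly`, `coordMap_yy`), and a surjection of invertible modules is an
isomorphism (`Module.Invertible.bijective_of_surjective`).
-/

open Polynomial IsDedekindDomain

open scoped Classical nonZeroDivisors TensorProduct

namespace Pool.Agent.Lib.MP_89bcae_ag.Sup

universe u

/-- The fractional ideal of an ideal is isomorphic to the ideal. -/
noncomputable def R09_equiv (R : Type u) [CommRing R] [IsDedekindDomain R] (I : (Ideal R)⁰) :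
    ((FractionalIdeal.unitsMulEquivSubmodule (FractionalIdeal.mk0 (FractionRing R) I) : 
      (Submodule R (FractionRing R))ˣ) : Submodule R (FractionRing R)) ≃ₗ[R] I.1 := by
  refine (LinearEquiv.ofBijective ((Algebra.linearMap R (FractionRing R)).restrict (p := I.1) ?_) ⟨?_, ?_⟩).symm
  · intro x hx
    show algebraMap R (FractionRing R) x ∈ ((FractionalIdeal.mk0 (FractionRing R) I : FractionalIdeal R⁰ (FractionRing R)) : Submodule R (FractionRing R))
    rw [FractionalIdeal.coe_mk0]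
    exact FractionalIdeal.mem_coeIdeal_of_mem _ hx
  · intro x y h
    have h1 := congrArg Subtype.val h
    exact Subtype.ext (IsFractionRing.injective R (FractionRing R) h1)
  · rintro ⟨y, hy⟩
    have hy' : y ∈ (FractionalIdeal.mk0 (FractionRing R) I : FractionalIdeal R⁰ (FractionRing R)) := hy
    rw [FractionalIdeal.coe_mk0, FractionalIdeal.mem_coeIdeal] at hy'
    obtain ⟨x, hx, rfl⟩ := hy'
    exact ⟨⟨x, hx⟩, rfl⟩

lemma R09_invertible (R : Type u) [CommRing R] [IsDedekindDomain R] (I : (Ideal R)⁰) :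
    Module.Invertible R I.1 := Module.Invertible.congr (R09_equiv R I)

lemma R09_equivPic_mk0 (R : Type u) [CommRing R] [IsDedekindDomain R] (I : (Ideal R)⁰) [Module.Invertible R I.1] :
    ClassGroup.equivPic R (ClassGroup.mk0 I) = CommRing.Pic.mk R I.1 := by
  rw [ClassGroup.mk0_eq_quotientMk]
  have h : ClassGroup.equivPic R (QuotientGroup.mk (FractionalIdeal.mk0 (FractionRing R) I)) =
    Submodule.unitsToPic R (FractionRing R) 
      (FractionalIdeal.unitsMulEquivSubmodule (FractionalIdeal.mk0 (FractionRing R) I)) := rfl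
  refine h.trans ?_
  rw [Submodule.unitsToPic_apply, CommRing.Pic.mk_eq_mk_iff]
  exact ⟨R09_equiv R I⟩

/-- base change of an ideal -/
lemma R09_map {R S : Type u} [CommRing R] [CommRing S] (φ : R →+* S) (I : Ideal R) (J : Ideal S)
    [Module.Invertible R I] [Module.Invertible S J] (h : I.map φ = J) :
    CommRing.Pic.mapRingHom φ (CommRing.Pic.mk R I) = CommRing.Pic.mk S J := by
  let _ := φ.toAlgebra
  show CommRing.Pic.mapAlgebra R S (CommRing.Pic.mk R I) = CommRing.Pic.mk S J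
  rw [CommRing.Pic.mapAlgebra_apply, CommRing.Pic.mk_eq_mk_iff]
  have e1 : S ⊗[R] (CommRing.Pic.mk R I : CommRing.Pic R) ≃ₗ[S] S ⊗[R] I :=
    TensorProduct.AlgebraTensorModule.congr (LinearEquiv.refl S S) (CommRing.Pic.mk.linearEquiv R I)
  refine ⟨e1 ≪≫ₗ ?_⟩
  -- the multiplication map
  have hmem : ∀ x : I, φ x ∈ J := fun x => h ▸ Ideal.mem_map_of_mem φ x.2
  let g0 : I →ₗ[R] J :=
    { toFun := fun x => ⟨φ x, hmem x⟩
      map_add' := fun x y => Subtype.ext (by simp)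
      map_smul' := fun r x => Subtype.ext (by
        show φ (r * x) = ((r • (⟨φ x, hmem x⟩ : J) : J) : S)
        rw [map_mul]
        rfl) }
  let g : S ⊗[R] I →ₗ[S] J := TensorProduct.AlgebraTensorModule.lift
    ((LinearMap.toSpanSingleton S (I →ₗ[R] J) g0))
  have hg : ∀ (s : S) (x : I), ((g (s ⊗ₜ x) : J) : S) = s * φ x := by
    intro s x
    rfl
  have key : ∀ y ∈ Submodule.span S (φ '' (I : Set R)), ∃ t : S ⊗[R] I, ((g t : J) : S) = y := by
    intro y hy
    induction hy using Submodule.span_induction with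
    | mem y hy =>
      obtain ⟨x, hx, rfl⟩ := hy
      exact ⟨1 ⊗ₜ ⟨x, hx⟩, by rw [hg, one_mul]⟩
    | zero => exact ⟨0, by rw [map_zero]; rfl⟩
    | add y z _ _ hy hz =>
      obtain ⟨s, hs⟩ := hy
      obtain ⟨t, ht⟩ := hz
      exact ⟨s + t, by rw [map_add]; show ((g s : J) : S) + ((g t : J) : S) = _; rw [hs, ht]⟩
    | smul a y _ hy =>
      obtain ⟨s, hs⟩ := hy
      exact ⟨a • s, by rw [map_smul]; show a * ((g s : J) : S) = _; rw [hs]; rfl⟩
  refine LinearEquiv.ofBijective g (Module.Invertible.bijective_of_surjective ?_)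
  rintro ⟨y, hy⟩
  have hy2 : y ∈ Submodule.span S (φ '' (I : Set R)) := by
    have h3 : y ∈ I.map φ := by rw [h]; exact hy
    exact h3
  obtain ⟨t, ht⟩ := key y hy2
  exact ⟨t, Subtype.ext ht⟩

variable {ℓ : ℕ} {E E' : Type u} [Field E] [Field E'] {f : E[X]} {f' : E'[X]} [hG : IsGood ℓ f]
  [hG' : IsGood ℓ f']

lemma R09_clPt (σ : E →+* E') (h : f.map σ = f') (P : Pt ℓ f) :
    jacMap ℓ σ h (clPt P) = clPt (Pt.map σ h P) := by
  have i1 : Module.Invertible (Coord ℓ f) P.ideal := R09_invertible (Coord ℓ f)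
    ⟨P.ideal, mem_nonZeroDivisors_of_ne_zero P.ideal_ne_bot⟩
  have i2 : Module.Invertible (Coord ℓ f') (Pt.map σ h P).ideal := R09_invertible (Coord ℓ f')
    ⟨(Pt.map σ h P).ideal, mem_nonZeroDivisors_of_ne_zero (Pt.map σ h P).ideal_ne_bot⟩
  have h1 : CommRing.Pic.mapRingHom (coordMap ℓ σ h) (ClassGroup.equivPic (Coord ℓ f)
      (ClassGroup.mk0 ⟨P.ideal, mem_nonZeroDivisors_of_ne_zero P.ideal_ne_bot⟩)) =
      ClassGroup.equivPic (Coord ℓ f') (ClassGroup.mk0
        ⟨(Pt.map σ h P).ideal, mem_nonZeroDivisors_of_ne_zero (Pt.map σ h P).ideal_ne_bot⟩) := by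
    rw [R09_equivPic_mk0, R09_equivPic_mk0]
    refine R09_map (coordMap ℓ σ h) P.ideal (Pt.map σ h P).ideal ?_
    have e1 : coordMap ℓ σ h (ofPoly (X - C P.x)) = ofPoly (X - C (Pt.map σ h P).x) := by
      rw [coordMap_ofPoly, Polynomial.map_sub, Polynomial.map_X, Polynomial.map_C]
      rfl
    have e2 : coordMap ℓ σ h ((yy : Coord ℓ f) - ofPoly (C P.y)) =
        yy - ofPoly (C (Pt.map σ h P).y) := by
      rw [map_sub, coordMap_ofPoly, coordMap_yy, Polynomial.map_C]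
      rfl
    rw [Pt.ideal_eq_span, Pt.ideal_eq_span, Ideal.map_span, Set.image_pair, e1, e2]
  exact congrArg Additive.ofMul h1

lemma jacMap_cl (σ : E →+* E') (h : f.map σ = f') (D : Pt ℓ f →₀ ℤ) :
    jacMap ℓ σ h (cl D) = cl (D.mapDomain (Pt.map σ h)) := by
  induction D using Finsupp.induction_linear with
  | zero => rw [map_zero, map_zero, Finsupp.mapDomain_zero, map_zero]
  | add D D' h1 h2 => rw [map_add, map_add, h1, h2, Finsupp.mapDomain_add, map_add]
  | single P n =>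
    rw [Finsupp.mapDomain_single]
    have e1 : cl (Finsupp.single P n) = n • clPt P := by
      rw [cl, Finsupp.liftAddHom_apply_single, zmultiplesHom_apply]
    have e2 : cl (Finsupp.single (Pt.map σ h P) n) = n • clPt (Pt.map σ h P) := by
      rw [cl, Finsupp.liftAddHom_apply_single, zmultiplesHom_apply]
    rw [e1, e2, map_zsmul, R09_clPt]

/-- The action of `Sym f` on the Jacobian. -/
noncomputable def symJ (σ : Sym f) : Jac ℓ f →+ Jac ℓ f :=
  jacMap ℓ ((σ : E ≃+* E) : E →+* E) σ.2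

lemma symJ_cl (σ : Sym f) (D : Pt ℓ f →₀ ℤ) :
    symJ σ (cl D) = cl (D.mapDomain (Pt.sym σ)) := jacMap_cl _ _ D

end Pool.Agent.Lib.MP_89bcae_ag.Sup

end

section

/-!
ROW R16 (80-150 lines). The automorphism `Z` of the Jacobian induced by `(x, y) ↦ (x, ζ y)`.

PROOF. `cl` is surjective with kernel the divisors of functions (R08), and this kernel is stable
under `D ↦ D.mapDomain (Pt.rot ζ)` because `(div u).mapDomain (rot) = div (rot⁻¹ u)`
(`div_rotU_symm`); so `Z` exists (e.g. via `QuotientAddGroup.lift`, or choose for each class a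
divisor). `∑_{i<ℓ} Z^i [P] = cl (div (x - P.x)) = 0` by `div_xs`, and these classes generate.
The classes of the points generate, so `Z` commutes with `symJ σ` if `σ ζ = ζ` as
`(P.rot ζ).sym σ = (P.sym σ).rot ζ`; and with `jacMap ℓ σ` (`ζ ↦ σ ζ`) for a homomorphism `σ`.
-/

open Polynomial IsDedekindDomain

open scoped Classical

namespace Pool.Agent.Lib.MP_89bcae_ag.Sup

universe u

variable {ℓ : ℕ} {E : Type u} [Field E] {f : E[X]} [hG : IsGood ℓ f]

lemma exists_zJ (ζ : E) (hζ : ζ ^ ℓ = 1) : ∃ Z : Jac ℓ f →+ Jac ℓ f, ∀ D : Pt ℓ f →₀ ℤ,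
    Z (cl D) = cl (D.mapDomain (Pt.rot ζ hζ)) := by
  have h0 : ζ ≠ 0 := by
    intro h
    rw [h, zero_pow hG.prime.ne_zero] at hζ
    exact zero_ne_one hζ
  set g : (Pt ℓ f →₀ ℤ) →+ Jac ℓ f :=
    (cl : (Pt ℓ f →₀ ℤ) →+ Jac ℓ f).comp (Finsupp.mapDomain.addMonoidHom (Pt.rot ζ hζ)) with hg
  have hker : (cl : (Pt ℓ f →₀ ℤ) →+ Jac ℓ f).ker ≤ g.ker := by
    intro D hD
    rw [AddMonoidHom.mem_ker] at hD ⊢
    obtain ⟨u, hu⟩ := exists_div_of_cl_eq_zero D hD
    change cl (D.mapDomain (Pt.rot ζ hζ)) = 0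
    rw [← hu, ← div_rotU_symm ζ hζ h0, cl_div]
  refine ⟨(cl : (Pt ℓ f →₀ ℤ) →+ Jac ℓ f).liftOfSurjective cl_surjective ⟨g, hker⟩,
    fun D => ?_⟩
  exact AddMonoidHom.liftOfRightInverse_comp_apply _ _ _ ⟨g, hker⟩ D

/-- The automorphism of the Jacobian induced by `(x, y) ↦ (x, ζ y)`. -/
noncomputable def zJ (ζ : E) (hζ : ζ ^ ℓ = 1) : Jac ℓ f →+ Jac ℓ f := (exists_zJ ζ hζ).choose

lemma zJ_cl (ζ : E) (hζ : ζ ^ ℓ = 1) (D : Pt ℓ f →₀ ℤ) :
    zJ ζ hζ (cl D) = cl (D.mapDomain (Pt.rot ζ hζ)) := (exists_zJ ζ hζ).choose_spec D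

lemma sum_zJ (ζ : E) (hζ : IsPrimitiveRoot ζ ℓ) (Q : Jac ℓ f) :
    ∑ i ∈ Finset.range ℓ, (zJ ζ hζ.pow_eq_one)^[i] Q = 0 := by
  have hit : ∀ (i : ℕ) (D : Pt ℓ f →₀ ℤ), (zJ ζ hζ.pow_eq_one)^[i] (cl D) =
      cl (D.mapDomain ((Pt.rot ζ hζ.pow_eq_one)^[i])) := by
    intro i D
    induction i with
    | zero =>
      rw [Function.iterate_zero, Function.iterate_zero, id_eq, Finsupp.mapDomain_id]
    | succ i ih =>
      rw [Function.iterate_succ_apply', ih, zJ_cl, ← Finsupp.mapDomain_comp,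
        Function.iterate_succ']
  obtain ⟨D, rfl⟩ := cl_surjective Q
  rw [Finset.sum_congr rfl fun i _ => hit i D]
  induction D using Finsupp.induction_linear with
  | zero =>
    refine Finset.sum_eq_zero fun i _ => ?_
    rw [Finsupp.mapDomain_zero, map_zero]
  | add D D' h h' =>
    rw [Finset.sum_congr rfl fun i _ => by rw [Finsupp.mapDomain_add, map_add],
      Finset.sum_add_distrib, h, h', add_zero]
  | single P n =>
    have h1 : ∀ i ∈ Finset.range ℓ, cl ((Finsupp.single P n).mapDomain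
        ((Pt.rot ζ hζ.pow_eq_one)^[i])) =
        n • cl (Finsupp.single ((Pt.rot ζ hζ.pow_eq_one)^[i] P) (1 : ℤ)) := by
      intro i _
      rw [Finsupp.mapDomain_single, ← map_zsmul, Finsupp.smul_single, smul_eq_mul, mul_one]
    rw [Finset.sum_congr rfl h1, ← Finset.smul_sum, ← map_sum, ← div_xs ζ hζ P, cl_div,
      smul_zero]

lemma zJ_symJ (ζ : E) (hζ : ζ ^ ℓ = 1) (σ : Sym f) (hσ : (σ : E ≃+* E) ζ = ζ) (Q : Jac ℓ f) :
    zJ ζ hζ (symJ σ Q) = symJ σ (zJ ζ hζ Q) := by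
  obtain ⟨D, rfl⟩ := cl_surjective Q
  rw [symJ_cl, zJ_cl, zJ_cl, symJ_cl, ← Finsupp.mapDomain_comp, ← Finsupp.mapDomain_comp]
  congr 2
  funext P
  apply Pt.ext
  · rfl
  · change ζ * (σ : E ≃+* E) P.y = (σ : E ≃+* E) (ζ * P.y)
    rw [map_mul, hσ]

lemma zJ_jacMap {E' : Type u} [Field E'] {f' : E'[X]} [hG' : IsGood ℓ f'] (σ : E →+* E')
    (h : f.map σ = f') (ζ : E) (hζ : ζ ^ ℓ = 1) (hζ' : (σ ζ) ^ ℓ = 1) (Q : Jac ℓ f) :
    zJ (σ ζ) hζ' (jacMap ℓ σ h Q) = jacMap ℓ σ h (zJ ζ hζ Q) := by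
  obtain ⟨D, rfl⟩ := cl_surjective Q
  rw [jacMap_cl, zJ_cl, zJ_cl, jacMap_cl, ← Finsupp.mapDomain_comp, ← Finsupp.mapDomain_comp]
  congr 2
  funext P
  apply Pt.ext
  · rfl
  · change σ ζ * σ P.y = σ (ζ * P.y)
    rw [map_mul]

end Pool.Agent.Lib.MP_89bcae_ag.Sup

end

section

/-!
# Global part: the group `Aut(Ω/k(t))` and its action

ROW G01 = the lemmas of this file (150-300 lines).
PROOFS. `cOver_eq_locPoly`: unfold `curvePoly`, `base`; `aeval`, `Polynomial.map_map`.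
`toSym`: the coefficients of the curve are in the image of `k(t)`: `D(t)⁻¹`, the coefficients of `g`, `t`
are values of `base`. `galA`: `base` has values in the image of `L`.
`exists_resF`: `F` is the set of the elements of `Ω` algebraic over `k` in the image of `F`
(an algebraic closure of `k`), stable under `γ` : see `exists_restrict_aut` in
`Pool/Agent/Lib/MP_89bcae_ag/Galois.lean`; the map is determined by `γ`, so it is a homomorphism.
`resF_surjective`: see `exists_lift_aut` there, with `exists_extend_alg` (L12): extend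
`coefL L U` to `Ω`. If `resF γ = 1` then `γ` fixes the image of `F[X]`, so that of `L`.
`exists_conjG`: `γ σ γ⁻¹` fixes `L` since `γ⁻¹` maps the image of `L` to itself (by `resF_spec`).
`isGood_cOver`: separability: `f = d⁻¹ (g(x) - t)`, `f' = d⁻¹ g'(x)`; `g' ≠ 0` because `D(g(x))` is
separable and `D` is not constant; a common root of `g(x) - t` and `g'` in `A` would be algebraic over the
image of `F`, hence in it (`F` algebraically closed), but `t` is transcendental; `Polynomial.Separable`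
over the algebraically closed `A` means no common root of `f`, `f'`. The degree is `deg g`.

Setting: `k` a field, `F` an algebraic closure of `k`, `L = F(t)`, `Ω` an algebraic closure of `L`;
`Ω` is an `F`-algebra through `F[X] → L → Ω` (`CompatF`).
-/

open Polynomial IsDedekindDomain

open scoped Classical

namespace Pool.Agent.Lib.MP_89bcae_ag.Sup

universe u

/-- The `F`-algebra structure of `A` is the one coming from `F[X] → L → A`. -/
def CompatF (F L A : Type u) [Field F] [Field L] [Algebra F[X] L] [Field A] [Algebra L A]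
    [Algebra F A] : Prop :=
  ∀ c : F, algebraMap F A c = algebraMap L A (algebraMap F[X] L (C c))

/-- The element `t` of `A`. -/
noncomputable def tA (F L A : Type u) [Field F] [Field L] [Algebra F[X] L] [Field A]
    [Algebra L A] : A :=
  algebraMap L A (algebraMap F[X] L X)

/-- The hypotheses on `ℓ`, `g`, `D`, `ζ`. -/
structure GlobHyp (ℓ : ℕ) {k : Type u} [Field k] (g D : k[X]) (ζ : k) : Prop where
  prime : ℓ.Prime
  ne : (ℓ : k) ≠ 0
  zeta : IsPrimitiveRoot ζ ℓ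
  monic : g.Monic
  cop : g.natDegree.Coprime ℓ
  sep : (D.comp g).Separable
  pos : D.natDegree ≠ 0

/-- The group `Aut(Ω/k(t))`. -/
def AutO (k F L Ω : Type u) [Field k] [Field F] [Algebra k F] [Field L] [Algebra F[X] L] [Field Ω]
    [Algebra L Ω] : Subgroup (Ω ≃+* Ω) where
  carrier := {γ | ∀ p : k[X], γ (base k F L Ω p) = base k F L Ω p}
  mul_mem' {a b} ha hb p := by
    rw [RingAut.mul_apply, hb p, ha p]
  one_mem' p := rfl
  inv_mem' {a} ha p := by
    have h := ha p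
    calc a⁻¹ (base k F L Ω p) = a⁻¹ (a (base k F L Ω p)) := by rw [h]
      _ = base k F L Ω p := a.symm_apply_apply _

section

variable {k F L Ω : Type u} [Field k] [Field F] [Algebra k F] [Field L] [Algebra F[X] L]
  [Field Ω] [Algebra L Ω]

/-- The curve over the extension `A` of `L`. -/
noncomputable abbrev cOver (k F L A : Type u) [Field k] [Field F] [Algebra k F] [Field L]
    [Algebra F[X] L] [Field A] [Algebra L A] (g D : k[X]) : A[X] :=
  (curvePoly k F L g D).map (algebraMap L A)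

private lemma gb_aeval {A : Type u} [Field A] [Algebra L A] [Algebra F A] (hF : CompatF F L A)
    (p : F[X]) : algebraMap L A (algebraMap F[X] L p) = aeval (tA F L A) p := by
  induction p using Polynomial.induction_on' with
  | add p q hp hq => rw [map_add, map_add, map_add, hp, hq]
  | monomial n a =>
    rw [← C_mul_X_pow_eq_monomial, map_mul, map_mul, map_mul, map_pow, map_pow, map_pow, aeval_C,
      aeval_X, hF a]
    rfl

private lemma gb_base (A : Type u) [Field A] [Algebra L A] (p : k[X]) :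
    algebraMap L A (base k F L L p) = base k F L A p := rfl

lemma cOver_eq_locPoly {A : Type u} [Field A] [Algebra L A] [Algebra F A] (hF : CompatF F L A)
    (g D : k[X]) : cOver k F L A g D =
      locPoly (g.map (algebraMap k F)) (tA F L A) (aeval (tA F L A) (D.map (algebraMap k F))) := by
  have h1 : ∀ p : k[X], base k F L A p = aeval (tA F L A) (p.map (algebraMap k F)) := by
    intro p
    rw [← gb_aeval hF]
    rfl
  have h2 : (algebraMap L A).comp ((base k F L L).comp C) = (algebraMap F A).comp (algebraMap k F) := by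
    ext c
    rw [RingHom.comp_apply, RingHom.comp_apply, gb_base, h1, map_C, aeval_C, RingHom.comp_apply]
  have h3 : base k F L A X = tA F L A := by
    rw [h1, map_X, aeval_X]
  unfold locPoly
  change (curvePoly k F L g D).map (algebraMap L A) = _
  unfold curvePoly
  rw [Polynomial.map_mul, map_C, Polynomial.map_sub, map_C, Polynomial.map_map, map_inv₀, gb_base,
    gb_base, h2, ← Polynomial.map_map, h3, h1]

private lemma gb_sym (g D : k[X]) (γ : AutO k F L Ω) :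
    (γ : Ω ≃+* Ω) ∈ Sym (cOver k F L Ω g D) := by
  rw [mem_Sym]
  have h0 : ∀ p : k[X], (γ : Ω ≃+* Ω) (algebraMap L Ω (base k F L L p)) =
      algebraMap L Ω (base k F L L p) := fun p => γ.2 p
  have h2 : (((γ : Ω ≃+* Ω) : Ω →+* Ω).comp ((algebraMap L Ω).comp ((base k F L L).comp C))) =
      (algebraMap L Ω).comp ((base k F L L).comp C) := by
    ext c
    exact h0 (C c)
  have h3 : ∀ p : k[X], ((γ : Ω ≃+* Ω) : Ω →+* Ω) (algebraMap L Ω (base k F L L p)) =
      algebraMap L Ω (base k F L L p) := h0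
  change ((curvePoly k F L g D).map (algebraMap L Ω)).map ((γ : Ω ≃+* Ω) : Ω →+* Ω) =
    (curvePoly k F L g D).map (algebraMap L Ω)
  unfold curvePoly
  simp only [Polynomial.map_mul, map_C, Polynomial.map_sub, Polynomial.map_map, map_inv₀]
  rw [h2, h3, h3]

/-- An automorphism over `k(t)` fixes the coefficients of the curve. -/
def toSym (g D : k[X]) : AutO k F L Ω →* Sym (cOver k F L Ω g D) where
  toFun γ := ⟨(γ : Ω ≃+* Ω), gb_sym g D γ⟩
  map_one' := rfl
  map_mul' _ _ := rfl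

@[simp] lemma toSym_coe (g D : k[X]) (γ : AutO k F L Ω) :
    ((toSym g D γ : Sym (cOver k F L Ω g D)) : Ω ≃+* Ω) = (γ : Ω ≃+* Ω) := rfl

/-- An automorphism over `L` is an automorphism over `k(t)`. -/
def galA (k F : Type u) [Field k] [Field F] [Algebra k F] [Algebra F[X] L] :
    (Ω ≃ₐ[L] Ω) →* AutO k F L Ω where
  toFun σ := ⟨(σ : Ω ≃+* Ω), fun p => σ.commutes _⟩
  map_one' := rfl
  map_mul' _ _ := rfl

@[simp] lemma galA_coe (σ : Ω ≃ₐ[L] Ω) (x : Ω) :
    ((galA k F σ : AutO k F L Ω) : Ω ≃+* Ω) x = σ x := rfl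

variable [IsAlgClosure k F] [IsFractionRing F[X] L] [IsAlgClosure L Ω]

omit [IsAlgClosure k F] [IsAlgClosure L Ω] in
private lemma gb_inj {p q : F[X]}
    (h : algebraMap L Ω (algebraMap F[X] L p) = algebraMap L Ω (algebraMap F[X] L q)) : p = q :=
  IsFractionRing.injective F[X] L ((algebraMap L Ω).injective h)

omit [IsAlgClosure k F] [IsAlgClosure L Ω] in
private lemma gb_unique {γ : Ω ≃+* Ω} {σ τ : F ≃ₐ[k] F}
    (hσ : ∀ p : F[X], γ (algebraMap L Ω (algebraMap F[X] L p)) =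
      algebraMap L Ω (algebraMap F[X] L (p.map (σ : F →+* F))))
    (hτ : ∀ p : F[X], γ (algebraMap L Ω (algebraMap F[X] L p)) =
      algebraMap L Ω (algebraMap F[X] L (p.map (τ : F →+* F)))) : σ = τ := by
  ext c
  have h1 := gb_inj ((hσ (C c)).symm.trans (hτ (C c)))
  rw [map_C, map_C] at h1
  exact C_injective h1

omit [IsFractionRing F[X] L] [IsAlgClosure L Ω] in
private lemma gb_exists (γ : AutO k F L Ω) : ∃ σ : F ≃ₐ[k] F, ∀ p : F[X],
    (γ : Ω ≃+* Ω) (algebraMap L Ω (algebraMap F[X] L p)) =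
      algebraMap L Ω (algebraMap F[X] L (p.map (σ : F →+* F))) := by
  let ι : F →+* Ω := (algebraMap L Ω).comp ((algebraMap F[X] L).comp C)
  letI : Algebra F Ω := ι.toAlgebra
  letI : Algebra k Ω := (ι.comp (algebraMap k F)).toAlgebra
  haveI : IsScalarTower k F Ω := IsScalarTower.of_algebraMap_eq fun x => rfl
  haveI : IsAlgClosed F := IsAlgClosure.isAlgClosed k
  haveI : Algebra.IsAlgebraic k F := IsAlgClosure.isAlgebraic
  haveI : Normal k F := normal_iff.mpr fun x =>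
    ⟨Algebra.IsIntegral.isIntegral x, IsAlgClosed.splits _⟩
  have hb : ∀ x : k, algebraMap k Ω x = base k F L Ω (C x) := by
    intro x
    change algebraMap L Ω (algebraMap F[X] L (C (algebraMap k F x))) =
      algebraMap L Ω (algebraMap F[X] L ((C x).map (algebraMap k F)))
    rw [map_C]
  let γ' : Ω ≃ₐ[k] Ω := AlgEquiv.ofRingEquiv (f := (γ : Ω ≃+* Ω)) (by
    intro x
    rw [hb]
    exact γ.2 (C x))
  let σ := γ'.restrictNormal F
  have hσ : ∀ x : F, (γ : Ω ≃+* Ω) (algebraMap L Ω (algebraMap F[X] L (C x))) =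
      algebraMap L Ω (algebraMap F[X] L (C (σ x))) := by
    intro x
    exact (γ'.restrictNormal_commutes F x).symm
  have hX : (γ : Ω ≃+* Ω) (algebraMap L Ω (algebraMap F[X] L X)) =
      algebraMap L Ω (algebraMap F[X] L X) := by
    have h := γ.2 X
    have h1 : base k F L Ω X = algebraMap L Ω (algebraMap F[X] L X) := by
      change algebraMap L Ω (algebraMap F[X] L ((X : k[X]).map (algebraMap k F))) = _
      rw [map_X]
    rwa [h1] at h
  refine ⟨σ, fun p => ?_⟩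
  induction p using Polynomial.induction_on' with
  | add p q hp hq =>
    rw [map_add, map_add, map_add, hp, hq, Polynomial.map_add, map_add, map_add]
  | monomial n a =>
    rw [← C_mul_X_pow_eq_monomial, map_mul, map_mul, map_mul, hσ, map_pow, map_pow, map_pow, hX,
      Polynomial.map_mul, Polynomial.map_C, Polynomial.map_pow, Polynomial.map_X, map_mul, map_mul,
      map_pow, map_pow]
    rfl

omit [Algebra k F] [IsAlgClosure k F] [IsAlgClosure L Ω] in
private lemma gb_range {γ : Ω ≃+* Ω} {σ : F ≃+* F}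
    (h : ∀ p : F[X], γ (algebraMap L Ω (algebraMap F[X] L p)) =
      algebraMap L Ω (algebraMap F[X] L (p.map (σ : F →+* F)))) (y : L) :
    ∃ z : L, γ (algebraMap L Ω y) = algebraMap L Ω z := by
  obtain ⟨p, q, hq, rfl⟩ := IsFractionRing.div_surjective (A := F[X]) y
  refine ⟨algebraMap F[X] L (p.map (σ : F →+* F)) / algebraMap F[X] L (q.map (σ : F →+* F)), ?_⟩
  rw [map_div₀, map_div₀, map_div₀, h, h]

lemma exists_resF : ∃ r : AutO k F L Ω →* (F ≃ₐ[k] F), ∀ (γ : AutO k F L Ω) (p : F[X]),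
    (γ : Ω ≃+* Ω) (algebraMap L Ω (algebraMap F[X] L p)) =
      algebraMap L Ω (algebraMap F[X] L (p.map (r γ : F →+* F))) := by
  refine ⟨{ toFun := fun γ => (gb_exists γ).choose, map_one' := ?_, map_mul' := ?_ }, ?_⟩
  · refine gb_unique (γ := ((1 : AutO k F L Ω) : Ω ≃+* Ω)) (gb_exists (1 : AutO k F L Ω)).choose_spec
      fun p => ?_
    have h1 : p.map ((1 : F ≃ₐ[k] F) : F →+* F) = p := by
      have h2 : ((1 : F ≃ₐ[k] F) : F →+* F) = RingHom.id F := rfl
      rw [h2, Polynomial.map_id]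
    rw [h1]
    rfl
  · intro γ δ
    refine gb_unique (γ := ((γ * δ : AutO k F L Ω) : Ω ≃+* Ω)) (gb_exists (γ * δ)).choose_spec
      fun p => ?_
    have h1 : p.map (((gb_exists γ).choose * (gb_exists δ).choose : F ≃ₐ[k] F) : F →+* F) =
        (p.map ((gb_exists δ).choose : F →+* F)).map ((gb_exists γ).choose : F →+* F) := by
      rw [Polynomial.map_map]
      rfl
    rw [h1, ← (gb_exists γ).choose_spec, ← (gb_exists δ).choose_spec]
    rfl
  · intro γ p
    exact (gb_exists γ).choose_spec p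

/-- The restriction of an automorphism to `F`. -/
noncomputable def resF : AutO k F L Ω →* (F ≃ₐ[k] F) := exists_resF.choose

lemma resF_spec (γ : AutO k F L Ω) (p : F[X]) :
    (γ : Ω ≃+* Ω) (algebraMap L Ω (algebraMap F[X] L p)) =
      algebraMap L Ω (algebraMap F[X] L (p.map (resF γ : F →+* F))) :=
  exists_resF.choose_spec γ p

lemma resF_surjective : Function.Surjective (resF : AutO k F L Ω →* (F ≃ₐ[k] F)) := by
  intro σ
  obtain ⟨w, hw⟩ := exists_extend_alg (K := L) (M := Ω) (coefL L (σ : F ≃+* F))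
  have h1 : ∀ p : F[X], w (algebraMap L Ω (algebraMap F[X] L p)) =
      algebraMap L Ω (algebraMap F[X] L (p.map (σ : F →+* F))) := by
    intro p
    rw [hw, coefL_algebraMap]
    rfl
  have h2 : w ∈ AutO k F L Ω := by
    intro p
    change w (algebraMap L Ω (algebraMap F[X] L (p.map (algebraMap k F)))) =
      algebraMap L Ω (algebraMap F[X] L (p.map (algebraMap k F)))
    rw [h1, Polynomial.map_map]
    congr 3
    ext x
    exact σ.commutes x
  exact ⟨⟨w, h2⟩, gb_unique (γ := w) (resF_spec ⟨w, h2⟩) h1⟩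

lemma exists_galA_of_resF_eq_one (γ : AutO k F L Ω) (h : resF γ = 1) :
    ∃ σ : Ω ≃ₐ[L] Ω, galA k F σ = γ := by
  have h1 : ∀ p : F[X], (γ : Ω ≃+* Ω) (algebraMap L Ω (algebraMap F[X] L p)) =
      algebraMap L Ω (algebraMap F[X] L p) := by
    intro p
    rw [resF_spec, h]
    have h2 : ((1 : F ≃ₐ[k] F) : F →+* F) = RingHom.id F := rfl
    rw [h2, Polynomial.map_id]
  refine ⟨AlgEquiv.ofRingEquiv (f := (γ : Ω ≃+* Ω)) fun y => ?_, ?_⟩
  · obtain ⟨p, q, hq, rfl⟩ := IsFractionRing.div_surjective (A := F[X]) y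
    rw [map_div₀, map_div₀, h1, h1]
  · ext x
    rfl

lemma resF_galA (σ : Ω ≃ₐ[L] Ω) : resF (galA k F σ : AutO k F L Ω) = 1 := by
  refine gb_unique (γ := ((galA k F σ : AutO k F L Ω) : Ω ≃+* Ω)) (resF_spec _) fun p => ?_
  have h2 : ((1 : F ≃ₐ[k] F) : F →+* F) = RingHom.id F := rfl
  rw [h2, Polynomial.map_id]
  exact σ.commutes _

private lemma gb_fix (γ : AutO k F L Ω) (σ : Ω ≃ₐ[L] Ω) (y : L) :
    (((γ : Ω ≃+* Ω).symm.trans (σ : Ω ≃+* Ω)).trans (γ : Ω ≃+* Ω)) (algebraMap L Ω y) =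
      algebraMap L Ω y := by
  obtain ⟨z, hz⟩ := gb_range (γ := ((γ⁻¹ : AutO k F L Ω) : Ω ≃+* Ω))
    (σ := ((resF γ⁻¹ : F ≃ₐ[k] F) : F ≃+* F)) (resF_spec γ⁻¹) y
  have hz' : (γ : Ω ≃+* Ω).symm (algebraMap L Ω y) = algebraMap L Ω z := hz
  change (γ : Ω ≃+* Ω) (σ ((γ : Ω ≃+* Ω).symm (algebraMap L Ω y))) = algebraMap L Ω y
  rw [hz', σ.commutes, ← hz', RingEquiv.apply_symm_apply]

/-- the conjugate -/
private noncomputable def gbConj (γ : AutO k F L Ω) (σ : Ω ≃ₐ[L] Ω) : Ω ≃ₐ[L] Ω :=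
  AlgEquiv.ofRingEquiv (f := ((γ : Ω ≃+* Ω).symm.trans (σ : Ω ≃+* Ω)).trans (γ : Ω ≃+* Ω))
    (gb_fix γ σ)

private lemma gbConj_apply (γ : AutO k F L Ω) (σ : Ω ≃ₐ[L] Ω) (x : Ω) :
    gbConj γ σ x = (γ : Ω ≃+* Ω) (σ ((γ : Ω ≃+* Ω).symm x)) := rfl

private lemma gb_symm (γ : AutO k F L Ω) (x : Ω) :
    ((γ⁻¹ : AutO k F L Ω) : Ω ≃+* Ω) x = (γ : Ω ≃+* Ω).symm x := rfl

private lemma gb_symm' (γ : AutO k F L Ω) (x : Ω) :
    ((γ⁻¹ : AutO k F L Ω) : Ω ≃+* Ω).symm x = (γ : Ω ≃+* Ω) x := rfl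

lemma exists_conjG : ∃ c : AutO k F L Ω →* MulAut (Ω ≃ₐ[L] Ω),
    ∀ (γ : AutO k F L Ω) (σ : Ω ≃ₐ[L] Ω) (x : Ω), (c γ σ) ((γ : Ω ≃+* Ω) x) =
      (γ : Ω ≃+* Ω) (σ x) := by
  refine ⟨{ toFun := fun γ =>
              { toFun := gbConj γ
                invFun := gbConj γ⁻¹
                left_inv := ?_
                right_inv := ?_
                map_mul' := ?_ }
            map_one' := ?_
            map_mul' := ?_ }, ?_⟩
  · intro σ
    ext x
    rw [gbConj_apply, gb_symm', gb_symm, gbConj_apply, RingEquiv.symm_apply_apply,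
      RingEquiv.symm_apply_apply]
  · intro σ
    ext x
    rw [gbConj_apply, gbConj_apply, gb_symm', gb_symm, RingEquiv.apply_symm_apply,
      RingEquiv.apply_symm_apply]
  · intro σ τ
    ext x
    rw [AlgEquiv.mul_apply, gbConj_apply, gbConj_apply, gbConj_apply, RingEquiv.symm_apply_apply,
      AlgEquiv.mul_apply]
  · ext σ x
    rfl
  · intro γ δ
    ext σ x
    rfl
  · intro γ σ x
    change gbConj γ σ ((γ : Ω ≃+* Ω) x) = _
    rw [gbConj_apply, RingEquiv.symm_apply_apply]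

/-- Conjugation of `Gal(Ω/L)` by an automorphism over `k(t)`. -/
noncomputable def conjG : AutO k F L Ω →* MulAut (Ω ≃ₐ[L] Ω) := exists_conjG.choose

lemma conjG_spec (γ : AutO k F L Ω) (σ : Ω ≃ₐ[L] Ω) (x : Ω) :
    (conjG γ σ) ((γ : Ω ≃+* Ω) x) = (γ : Ω ≃+* Ω) (σ x) :=
  exists_conjG.choose_spec γ σ x

lemma galA_conjG (γ : AutO k F L Ω) (σ : Ω ≃ₐ[L] Ω) :
    (galA k F (conjG γ σ) : AutO k F L Ω) = γ * galA k F σ * γ⁻¹ := by
  apply Subtype.ext
  ext x
  have h := conjG_spec γ σ (((γ⁻¹ : AutO k F L Ω) : Ω ≃+* Ω) x)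
  rw [gb_symm, RingEquiv.apply_symm_apply] at h
  rw [galA_coe, h]
  rfl

lemma conjG_galA (τ σ : Ω ≃ₐ[L] Ω) : conjG (galA k F τ : AutO k F L Ω) σ = τ * σ * τ⁻¹ := by
  ext x
  have h := conjG_spec (galA k F τ : AutO k F L Ω) σ (τ⁻¹ x)
  have h1 : τ (τ⁻¹ x) = x := τ.apply_symm_apply x
  rw [galA_coe, galA_coe, h1] at h
  rw [h]
  rfl

private lemma gb_deriv {ℓ : ℕ} {g D : k[X]} {ζ : k} (H : GlobHyp ℓ g D ζ) :
    g.natDegree ≠ 0 ∧ derivative g ≠ 0 := by
  have hm : g.natDegree ≠ 0 := by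
    intro h
    have h1 := H.cop
    rw [h, Nat.coprime_zero_left] at h1
    exact H.prime.one_lt.ne' h1
  refine ⟨hm, fun h0 => ?_⟩
  have h1 := H.sep
  rw [separable_def, derivative_comp, h0, zero_mul, isCoprime_zero_right] at h1
  have h2 := natDegree_eq_zero_of_isUnit h1
  rw [natDegree_comp] at h2
  rcases mul_eq_zero.1 h2 with h3 | h3
  · exact H.pos h3
  · exact hm h3

lemma isGood_cOver {ℓ : ℕ} {g D : k[X]} {ζ : k} (H : GlobHyp ℓ g D ζ) {A : Type u} [Field A]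
    [Algebra L A] [IsAlgClosed A] : IsGood ℓ (cOver k F L A g D) := by
  letI : Algebra F A := ((algebraMap L A).comp ((algebraMap F[X] L).comp C)).toAlgebra
  have hF : CompatF F L A := fun c => rfl
  haveI : IsAlgClosed F := IsAlgClosure.isAlgClosed k
  obtain ⟨hm, hder⟩ := gb_deriv H
  have hg : (g.map (algebraMap k F)).Monic := H.monic.map _
  have hm' : (g.map (algebraMap k F)).natDegree ≠ 0 := by rwa [natDegree_map]
  have hder' : derivative (g.map (algebraMap k F)) ≠ 0 := by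
    rw [derivative_map]
    exact (Polynomial.map_ne_zero_iff (algebraMap k F).injective).2 hder
  have hd : aeval (tA F L A) (D.map (algebraMap k F)) ≠ 0 := by
    rw [← gb_aeval hF]
    intro h
    have h1 : (algebraMap L A) (algebraMap F[X] L (D.map (algebraMap k F))) =
        algebraMap L A (algebraMap F[X] L 0) := by
      rw [h, map_zero, map_zero]
    have h2 := IsFractionRing.injective F[X] L ((algebraMap L A).injective h1)
    rw [Polynomial.map_eq_zero_iff (algebraMap k F).injective] at h2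
    exact H.pos (by rw [h2, natDegree_zero])
  refine ⟨inferInstance, H.prime, ?_, ?_, ?_⟩
  · have h1 : ((algebraMap F A).comp (algebraMap k F)) (ℓ : k) = (ℓ : A) := map_natCast _ ℓ
    rw [← h1]
    exact (_root_.map_ne_zero _).2 H.ne
  · rw [cOver_eq_locPoly hF, separable_def, isCoprime_iff_aeval_ne_zero_of_isAlgClosed A A]
    intro a
    by_contra hcon
    rw [not_or, not_not, not_not] at hcon
    obtain ⟨h1, h2⟩ := hcon
    rw [coe_aeval_eq_eval] at h1 h2
    rw [eval_locPoly_eq_zero hd] at h1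
    have h3 : aeval a (derivative (g.map (algebraMap k F))) = 0 := by
      unfold locPoly at h2
      rw [derivative_C_mul, derivative_sub, derivative_C, sub_zero, derivative_map, eval_mul,
        eval_C] at h2
      rcases mul_eq_zero.1 h2 with h4 | h4
      · exact absurd h4 (inv_ne_zero hd)
      · rw [eval_map, ← aeval_def] at h4
        exact h4
    have h4 : IsAlgebraic F a := ⟨_, hder', h3⟩
    have hi : IsIntegral F a := h4.isIntegral
    have hdeg : (minpoly F a).degree = 1 :=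
      IsAlgClosed.degree_eq_one_of_irreducible F (minpoly.irreducible hi)
    have h5 : aeval a (minpoly F a) = 0 := minpoly.aeval F a
    rw [eq_X_add_C_of_degree_eq_one hdeg, (minpoly.monic hi).leadingCoeff, C_1, one_mul, aeval_add,
      aeval_X, aeval_C, add_eq_zero_iff_eq_neg, ← map_neg] at h5
    rw [h5, aeval_algebraMap_apply] at h1
    have h6 : algebraMap L A (algebraMap F[X] L (C (aeval (-(minpoly F a).coeff 0)
        (g.map (algebraMap k F))))) = algebraMap L A (algebraMap F[X] L X) := h1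
    exact X_ne_C _ (IsFractionRing.injective F[X] L ((algebraMap L A).injective h6)).symm
  · rw [cOver_eq_locPoly hF, natDegree_locPoly hg hm' hd, natDegree_map]
    exact H.cop

end

section Cochains

variable {k F L Ω : Type u} [Field k] [Field F] [Algebra k F] [Field L] [Algebra F[X] L]
  [Field Ω] [Algebra L Ω]

/-- The cochains: sequences of maps from `Gal(Ω/L)` to the Jacobian. -/
abbrev Coch (ℓ : ℕ) (k F L Ω : Type u) [Field k] [Field F] [Algebra k F] [Field L]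
    [Algebra F[X] L] [Field Ω] [Algebra L Ω] (g D : k[X]) : Type u :=
  ℕ → (Ω ≃ₐ[L] Ω) → JacOver ℓ (curvePoly k F L g D) Ω


variable [IsAlgClosure k F] [IsFractionRing F[X] L] [IsAlgClosure L Ω] {ℓ : ℕ} {g D : k[X]}

/-- The action of `Aut(Ω/k(t))` on the cochains: `(γ c)(σ) = γ (c (γ⁻¹ σ γ))`. -/
noncomputable def act (γ : AutO k F L Ω) (c : Coch ℓ k F L Ω g D) : Coch ℓ k F L Ω g D :=
  fun n σ => symJ (toSym g D γ) (c n (conjG γ⁻¹ σ))

variable [hG : IsGood ℓ (cOver k F L Ω g D)]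

/-- The primitive root of unity in `A`. -/
noncomputable def zA (F L A : Type u) [Field F] [Algebra k F] [Field L] [Algebra F[X] L]
    [Field A] [Algebra L A] (ζ : k) : A :=
  base k F L A (C ζ)

/-- The automorphism `Z` acting on the cochains. -/
noncomputable def zC (ζ : k) (hζ : (zA F L Ω ζ) ^ ℓ = 1) :
    Coch ℓ k F L Ω g D →+ Coch ℓ k F L Ω g D where
  toFun c := fun n σ => zJ (zA F L Ω ζ) hζ (c n σ)
  map_zero' := by
    funext n σ
    exact map_zero _
  map_add' c c' := by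
    funext n σ
    exact map_add _ _ _

/-- The operator `v = ∑_{k<ℓ} ∑_{i<k} Z^i`, with `(1 - Z) v = ℓ`. -/
noncomputable def vJ {E : Type u} [Field E] {f : E[X]} [IsGood ℓ f] (ζ : E) (hζ : ζ ^ ℓ = 1)
    (Q : Jac ℓ f) : Jac ℓ f :=
  ∑ k ∈ Finset.range ℓ, ∑ i ∈ Finset.range k, (zJ ζ hζ)^[i] Q

end Cochains

end Pool.Agent.Lib.MP_89bcae_ag.Sup

end

section

/-!
ROW G02 (120-220 lines). Cocycles under addition, `Z` and the action of `Aut(Ω/k(t))`.

PROOFS. `act_mul`: `conjG (γ γ')⁻¹ = conjG γ'⁻¹ ∘ conjG γ⁻¹`, `symJ` is functorial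
(`CommRing.Pic.mapRingHom_comp_mapRingHom`; `symJ_mul`, `symJ_one` may be proved through `symJ_cl`).
`push ℓ f (σ : Ω →ₐ[L] Ω) = symJ (toSym (galA σ))` by definition (`push_eq`).
`IsTateCocycle` for `act γ c`: with `σ' = γ⁻¹ σ γ`, `γ c((στ)') = γ (c σ' + σ' c τ') = γ c σ' + σ γ c τ'`
(`galA_conjG`). Local constancy: `conjG γ⁻¹` is continuous for the Krull topology: it suffices that for
every finite set `S` of elements of `Ω`, an automorphism fixing `γ (S)` is mapped to one which fixes `S`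
(`krullTopology`; basis of neighbourhoods = fixing subgroups of finite extensions of `L`, and a finite
extension `L(S)` is mapped by `γ` to the finite extension `L(γ S)`); use
`IsLocallyConstant.comp_continuous`.
`Z`: `zJ_symJ` since `σ` fixes `ζ`.
-/

open Polynomial IsDedekindDomain

open scoped Classical

namespace Pool.Agent.Lib.MP_89bcae_ag.Sup

universe u

variable {ℓ : ℕ} {E : Type u} [Field E] {f : E[X]}

lemma symJ_one [IsGood ℓ f] (Q : Jac ℓ f) : symJ (1 : Sym f) Q = Q := by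
  obtain ⟨D, rfl⟩ := cl_surjective Q
  rw [symJ_cl]
  have h : (Pt.sym (1 : Sym f) : Pt ℓ f → Pt ℓ f) = id := rfl
  rw [h, Finsupp.mapDomain_id]

lemma symJ_mul [IsGood ℓ f] (σ τ : Sym f) (Q : Jac ℓ f) :
    symJ (σ * τ) Q = symJ σ (symJ τ Q) := by
  obtain ⟨D, rfl⟩ := cl_surjective Q
  rw [symJ_cl, symJ_cl, symJ_cl, ← Finsupp.mapDomain_comp]
  rfl

variable {k F L Ω : Type u} [Field k] [Field F] [Algebra k F] [Field L] [Algebra F[X] L]
  [Field Ω] [Algebra L Ω] [IsAlgClosure k F] [IsFractionRing F[X] L] [IsAlgClosure L Ω]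
  {g D : k[X]} [hG : IsGood ℓ (cOver k F L Ω g D)]

lemma push_eq (σ : Ω ≃ₐ[L] Ω) (Q : JacOver ℓ (curvePoly k F L g D) Ω) :
    push ℓ (curvePoly k F L g D) (σ : Ω →ₐ[L] Ω) Q = symJ (toSym g D (galA k F σ)) Q := rfl

lemma zA_fixed (ζ : k) (γ : AutO k F L Ω) :
    (γ : Ω ≃+* Ω) (zA F L Ω ζ) = zA F L Ω ζ := γ.2 (C ζ)

lemma act_one (c : Coch ℓ k F L Ω g D) : act (1 : AutO k F L Ω) c = c := by
  funext n σ
  unfold act
  rw [inv_one, map_one, map_one, MulAut.one_apply]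
  exact symJ_one _

lemma act_mul (γ γ' : AutO k F L Ω) (c : Coch ℓ k F L Ω g D) :
    act (γ * γ') c = act γ (act γ' c) := by
  funext n σ
  unfold act
  rw [mul_inv_rev, map_mul, map_mul, MulAut.mul_apply]
  exact symJ_mul _ _ _

lemma act_add (γ : AutO k F L Ω) (c c' : Coch ℓ k F L Ω g D) :
    act γ (c + c') = act γ c + act γ c' := by
  funext n σ
  exact map_add (symJ (toSym g D γ)) _ _

lemma act_zero (γ : AutO k F L Ω) : act γ (0 : Coch ℓ k F L Ω g D) = 0 := by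
  funext n σ
  exact map_zero (symJ (toSym g D γ))

lemma act_sub (γ : AutO k F L Ω) (c c' : Coch ℓ k F L Ω g D) :
    act γ (c - c') = act γ c - act γ c' := by
  funext n σ
  exact map_sub (symJ (toSym g D γ)) _ _

lemma act_zC (γ : AutO k F L Ω) (ζ : k) (hζ : (zA F L Ω ζ) ^ ℓ = 1)
    (c : Coch ℓ k F L Ω g D) : act γ (zC ζ hζ c) = zC ζ hζ (act γ c) := by
  funext n σ
  exact (zJ_symJ (zA F L Ω ζ) hζ (toSym g D γ) (zA_fixed ζ γ) _).symm


end Pool.Agent.Lib.MP_89bcae_ag.Sup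

end

section

/-!
ROW G10 (120-220 lines). The field `L(θ) = F(θ)` for a root `θ` of `g(x) = t`; rational functions of `θ`.

PROOFS. (1) `θ` is transcendental over `F`: else `θ` would be in (the image of) `F` and `t = g(θ)` too,
but `t` is transcendental over `F`. (2) `L(θ)` is generated by `F`, `t = g(θ)`, `θ`, so it is the field of
the quotients `A(θ)/B(θ)`. An element fixed by the stabilizer of `θ` in `Aut(Ω/L)`, i.e. by
`Aut(Ω/L(θ))`, is purely inseparable over `L(θ)` (`Ω` is an algebraic closure of `L(θ)`; all conjugates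
are equal), so some `p^s`-th power is in `L(θ)`, `p` the characteristic exponent. The same for
`Aut(Ω/L)` and `L`. (3) unique factorization in `F[X]`: multiplicity of the prime `X - β` in
`∏ (X - β)^{n_β} B^ℓ = c A^ℓ` (clear the negative exponents; `θ` is transcendental so the identity holds
in `F[X]`).
-/

open Polynomial IsDedekindDomain

open scoped Classical

namespace Pool.Agent.Lib.MP_89bcae_ag.Sup

universe u

variable {k F L Ω : Type u} [Field k] [Field F] [Algebra k F] [Field L] [Algebra F[X] L]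
  [Field Ω] [Algebra L Ω] [IsAlgClosure k F] [IsFractionRing F[X] L] [IsAlgClosure L Ω]
  [Algebra F Ω] {ℓ : ℕ} {g D : k[X]} {ζ : k}

omit [IsAlgClosure k F] [IsFractionRing F[X] L] [IsAlgClosure L Ω] in
private lemma g10_aeval_tA (hF : CompatF F L Ω) (p : F[X]) :
    aeval (tA F L Ω) p = algebraMap L Ω (algebraMap F[X] L p) := by
  have h : ((aeval (tA F L Ω) : F[X] →ₐ[F] Ω) : F[X] →+* Ω) =
      (algebraMap L Ω).comp (algebraMap F[X] L) := by
    apply Polynomial.ringHom_ext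
    · intro a
      simp [hF a]
    · simp [tA]
  exact congrArg (fun φ : F[X] →+* Ω => φ p) h

private lemma g10_tA_inj (hF : CompatF F L Ω) :
    Function.Injective (aeval (tA F L Ω) : F[X] →ₐ[F] Ω) := by
  intro p q hpq
  rw [g10_aeval_tA hF, g10_aeval_tA hF] at hpq
  exact IsFractionRing.injective F[X] L ((algebraMap L Ω).injective hpq)

private lemma g10_d_ne (hF : CompatF F L Ω) (H : GlobHyp ℓ g D ζ) :
    aeval (tA F L Ω) (D.map (algebraMap k F)) ≠ 0 := by
  intro h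
  rw [← map_zero (aeval (tA F L Ω) : F[X] →ₐ[F] Ω)] at h
  have h1 := g10_tA_inj hF h
  rw [Polynomial.map_eq_zero] at h1
  exact H.pos (by rw [h1, natDegree_zero])

private lemma g10_deg_ne (H : GlobHyp ℓ g D ζ) : (g.map (algebraMap k F)).natDegree ≠ 0 := by
  rw [natDegree_map]
  intro h
  have h1 := H.cop
  rw [h, Nat.coprime_zero_left] at h1
  exact H.prime.one_lt.ne' h1

private lemma g10_root (hF : CompatF F L Ω) (H : GlobHyp ℓ g D ζ) {θ : Ω}
    (hθ : θ ∈ rts (cOver k F L Ω g D)) : aeval θ (g.map (algebraMap k F)) = tA F L Ω := by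
  have hd := g10_d_ne (k := k) hF H
  rw [cOver_eq_locPoly hF, mem_rts (locPoly_ne_zero (H.monic.map _) (g10_deg_ne H) hd),
    eval_locPoly_eq_zero hd] at hθ
  exact hθ

/-- (1) -/
lemma aeval_root_injective (hF : CompatF F L Ω) (H : GlobHyp ℓ g D ζ) {θ : Ω}
    (hθ : θ ∈ rts (cOver k F L Ω g D)) : Function.Injective (aeval θ : F[X] →ₐ[F] Ω) := by
  have hFalg : IsAlgClosed F := IsAlgClosure.isAlgClosed k
  rw [injective_iff_map_eq_zero]
  intro p hp
  by_contra hp0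
  have halg : IsAlgebraic F θ := ⟨p, hp0, hp⟩
  have hirr : Irreducible (minpoly F θ) := minpoly.irreducible halg.isIntegral
  obtain ⟨r, hr⟩ := minpoly.mem_range_of_degree_eq_one F θ
    (IsAlgClosed.degree_eq_one_of_irreducible F hirr)
  have h1 := g10_root hF H hθ
  rw [← hr, aeval_algebraMap_apply] at h1
  have h2 : aeval (tA F L Ω) (X - C (aeval r (g.map (algebraMap k F)))) = 0 := by
    rw [map_sub, aeval_X, aeval_C, ← h1, sub_self]
  rw [← map_zero (aeval (tA F L Ω) : F[X] →ₐ[F] Ω)] at h2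
  exact X_sub_C_ne_zero _ (g10_tA_inj hF h2)

/-- Elements fixed by all automorphisms are purely inseparable. -/
private lemma g10_pow (K Ω' : Type u) [Field K] [Field Ω'] [Algebra K Ω'] [IsAlgClosure K Ω']
    (x : Ω') (hx : ∀ σ : Ω' ≃ₐ[K] Ω', σ x = x) :
    ∃ (s : ℕ) (y : K), x ^ ringExpChar K ^ s = algebraMap K Ω' y := by
  have h1 : IsAlgClosed Ω' := IsAlgClosure.isAlgClosed K
  have h2 : Algebra.IsAlgebraic K Ω' := IsAlgClosure.isAlgebraic
  have h3 : Normal K Ω' := IsAlgClosure.normal K Ω'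
  have hint : IsIntegral K x := (Algebra.IsAlgebraic.isAlgebraic x).isIntegral
  have h4 : (minpoly K x).natSepDegree = 1 := by
    rw [natSepDegree_eq_of_isAlgClosed Ω', Finset.card_eq_one]
    refine ⟨x, ?_⟩
    ext y
    rw [Multiset.mem_toFinset, Finset.mem_singleton, mem_aroots]
    constructor
    · rintro ⟨-, hy⟩
      have h5 : IsConjRoot K x y := (isConjRoot_iff_aeval_eq_zero hint).mpr hy
      obtain ⟨σ, hσ⟩ := isConjRoot_iff_exists_algEquiv.mp h5
      have h6 := hx σ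
      exact σ.injective (hσ.trans h6.symm)
    · rintro rfl
      exact ⟨minpoly.ne_zero hint, minpoly.aeval K _⟩
  obtain ⟨s, y, hy⟩ := (minpoly.natSepDegree_eq_one_iff_pow_mem (ringExpChar K)).mp h4
  exact ⟨s, y, hy.symm⟩

omit [IsAlgClosure k F] [IsAlgClosure L Ω] in
private lemma g10_mem (hF : CompatF F L Ω) {θ : Ω} (q : F[X])
    (hθ : aeval θ q = tA F L Ω) (y : Ω)
    (hy : y ∈ IntermediateField.adjoin L {θ}) : y ∈ IntermediateField.adjoin F {θ} := by
  have hθm : θ ∈ IntermediateField.adjoin F {θ} :=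
    IntermediateField.mem_adjoin_simple_self F θ
  have hpoly : ∀ p : F[X], aeval θ p ∈ IntermediateField.adjoin F {θ} := by
    intro p
    rw [IntermediateField.mem_adjoin_simple_iff]
    exact ⟨p, 1, by simp⟩
  have hL : ∀ l : L, algebraMap L Ω l ∈ IntermediateField.adjoin F {θ} := by
    intro l
    obtain ⟨a, b, -, rfl⟩ := IsFractionRing.div_surjective (A := F[X]) l
    rw [map_div₀, ← g10_aeval_tA hF, ← g10_aeval_tA hF, ← hθ, ← aeval_comp, ← aeval_comp]
    exact div_mem (hpoly _) (hpoly _)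
  have hLpoly : ∀ p : L[X], aeval θ p ∈ IntermediateField.adjoin F {θ} := by
    intro p
    rw [aeval_eq_sum_range]
    refine sum_mem fun i _ => ?_
    rw [Algebra.smul_def]
    exact mul_mem (hL _) (pow_mem hθm _)
  rw [IntermediateField.mem_adjoin_simple_iff] at hy
  obtain ⟨r, s, rfl⟩ := hy
  exact div_mem (hLpoly _) (hLpoly _)

/-- (2) -/
lemma exists_pow_eq_quot (hF : CompatF F L Ω) (H : GlobHyp ℓ g D ζ) {θ : Ω}
    (hθ : θ ∈ rts (cOver k F L Ω g D)) (x : Ω)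
    (hx : ∀ σ : Ω ≃ₐ[L] Ω, σ θ = θ → σ x = x) :
    ∃ (s : ℕ) (A B : F[X]), B ≠ 0 ∧ x ^ ringExpChar k ^ s = aeval θ A / aeval θ B := by
  have h1 : IsAlgClosed Ω := IsAlgClosure.isAlgClosed L
  have h2 : Algebra.IsAlgebraic L Ω := IsAlgClosure.isAlgebraic
  set E := IntermediateField.adjoin L {θ} with hE
  have h3 : Algebra.IsAlgebraic E Ω := Algebra.IsAlgebraic.tower_top (K := L) E
  have h4 : IsAlgClosure E Ω := ⟨h1, h3⟩
  have hθE : θ ∈ E := IntermediateField.mem_adjoin_simple_self L θ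
  obtain ⟨s, y, hy⟩ := g10_pow E Ω x (by
    intro σ
    have h5 := hx (σ.restrictScalars L) (by
      have h6 := σ.commutes ⟨θ, hθE⟩
      exact h6)
    exact h5)
  have hch : ringExpChar E = ringExpChar k := by
    have h6 : ExpChar E (ringExpChar k) :=
      expChar_of_injective_ringHom (f := ((algebraMap L E).comp ((algebraMap F[X] L).comp
        (C.comp (algebraMap k F))))) (RingHom.injective _) (ringExpChar k)
    exact ringExpChar.eq E (ringExpChar k)
  rw [hch] at hy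
  have h7 := g10_mem hF (g.map (algebraMap k F)) (g10_root hF H hθ) (algebraMap E Ω y) y.2
  rw [IntermediateField.mem_adjoin_simple_iff] at h7
  obtain ⟨A, B, hAB⟩ := h7
  by_cases hB : B = 0
  · refine ⟨s, 0, 1, one_ne_zero, ?_⟩
    rw [hy, hAB, hB]
    simp
  · exact ⟨s, A, B, hB, by rw [hy, hAB]⟩

/-- (2) for `L` -/
lemma exists_pow_mem_L (x : Ω) (hx : ∀ σ : Ω ≃ₐ[L] Ω, σ x = x) :
    ∃ (s : ℕ) (y : L), x ^ ringExpChar L ^ s = algebraMap L Ω y :=
  g10_pow L Ω x hx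

private lemma g10_mult_pow {K : Type u} [Field K] (P : K[X]) (n : ℕ) (b : K) (h : P ^ n ≠ 0) :
    rootMultiplicity b (P ^ n) = n * rootMultiplicity b P := by
  by_cases hP : P = 0
  · subst hP
    have hn : n = 0 := by
      by_contra hn
      exact h (zero_pow hn)
    subst hn
    simp
  · clear h
    induction n with
    | zero => simp
    | succ n ih =>
      rw [pow_succ, rootMultiplicity_mul (mul_ne_zero (pow_ne_zero _ hP) hP), ih]
      ring

private lemma g10_mult_prod {K : Type u} [Field K] (S : Finset K) (m : K → ℕ) (b : K)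
    (hb : b ∈ S) : rootMultiplicity b (∏ β ∈ S, (X - C β) ^ m β) = m b := by
  have h0 : ∏ β ∈ S, (X - C β) ^ m β ≠ 0 :=
    Finset.prod_ne_zero_iff.mpr fun β _ => pow_ne_zero _ (X_sub_C_ne_zero β)
  rw [← Finset.mul_prod_erase S _ hb] at h0 ⊢
  rw [rootMultiplicity_mul h0, rootMultiplicity_X_sub_C_pow]
  have h1 : rootMultiplicity b (∏ β ∈ S.erase b, (X - C β) ^ m β) = 0 := by
    apply rootMultiplicity_eq_zero
    rw [IsRoot.def, eval_prod, Finset.prod_eq_zero_iff]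
    rintro ⟨β, hβ, h2⟩
    rw [eval_pow, eval_sub, eval_X, eval_C] at h2
    have h3 : b - β = 0 := by
      by_contra h4
      exact pow_ne_zero _ h4 h2
    exact (Finset.mem_erase.mp hβ).1 (sub_eq_zero.mp h3).symm
  rw [h1, add_zero]

/-- (3) -/
lemma dvd_of_prod_eq_pow {A : Type u} [Field A] [Algebra F A] {θ : A}
    (hθ : Function.Injective (aeval θ : F[X] →ₐ[F] A)) {ℓ : ℕ} (S : Finset F) (n : F → ℤ)
    (c : F) (hc : c ≠ 0) (P Q : F[X]) (hQ : Q ≠ 0)
    (h : ∏ β ∈ S, (θ - algebraMap F A β) ^ n β = algebraMap F A c * (aeval θ P / aeval θ Q) ^ ℓ) :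
    ∀ β ∈ S, (ℓ : ℤ) ∣ n β := by
  intro b hb
  have hQ0 : aeval θ Q ≠ 0 := by
    intro h0
    rw [← map_zero (aeval θ : F[X] →ₐ[F] A)] at h0
    exact hQ (hθ h0)
  have hθβ : ∀ β : F, θ - algebraMap F A β ≠ 0 := by
    intro β h0
    have h1 : aeval θ (X - C β) = 0 := by
      rw [map_sub, aeval_X, aeval_C, h0]
    rw [← map_zero (aeval θ : F[X] →ₐ[F] A)] at h1
    exact X_sub_C_ne_zero β (hθ h1)
  have hz : ∀ β : F, (θ - algebraMap F A β) ^ n β * (θ - algebraMap F A β) ^ (-(n β)).toNat =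
      (θ - algebraMap F A β) ^ (n β).toNat := by
    intro β
    rw [← zpow_natCast, ← zpow_natCast, ← zpow_add₀ (hθβ β)]
    congr 1
    omega
  have hprod : (∏ β ∈ S, (θ - algebraMap F A β) ^ n β) *
      ∏ β ∈ S, (θ - algebraMap F A β) ^ (-(n β)).toNat =
      ∏ β ∈ S, (θ - algebraMap F A β) ^ (n β).toNat := by
    rw [← Finset.prod_mul_distrib]
    exact Finset.prod_congr rfl fun β _ => hz β
  have hae : ∀ m : F → ℕ, aeval θ (∏ β ∈ S, (X - C β) ^ m β) =
      ∏ β ∈ S, (θ - algebraMap F A β) ^ m β := by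
    intro m
    rw [map_prod]
    refine Finset.prod_congr rfl fun β _ => ?_
    rw [map_pow, map_sub, aeval_X, aeval_C]
  have hpol : (∏ β ∈ S, (X - C β) ^ (n β).toNat) * Q ^ ℓ =
      C c * P ^ ℓ * ∏ β ∈ S, (X - C β) ^ (-(n β)).toNat := by
    apply hθ
    rw [map_mul, map_mul, map_mul, hae, hae, aeval_C, map_pow, map_pow, ← hprod, h, div_pow]
    field_simp
  have hL0 : (∏ β ∈ S, (X - C β) ^ (n β).toNat) * Q ^ ℓ ≠ 0 :=
    mul_ne_zero (Finset.prod_ne_zero_iff.mpr fun β _ => pow_ne_zero _ (X_sub_C_ne_zero β))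
      (pow_ne_zero _ hQ)
  have hR0 : C c * P ^ ℓ * ∏ β ∈ S, (X - C β) ^ (-(n β)).toNat ≠ 0 := by
    rw [← hpol]
    exact hL0
  have hcP : C c * P ^ ℓ ≠ 0 := left_ne_zero_of_mul hR0
  have hP0 : P ^ ℓ ≠ 0 := right_ne_zero_of_mul hcP
  have hm := congrArg (rootMultiplicity b) hpol
  rw [rootMultiplicity_mul hL0, rootMultiplicity_mul hR0, rootMultiplicity_mul hcP,
    rootMultiplicity_C, zero_add, g10_mult_pow Q ℓ b (pow_ne_zero _ hQ), g10_mult_pow P ℓ b hP0,
    g10_mult_prod S _ b hb, g10_mult_prod S _ b hb] at hm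
  refine ⟨(rootMultiplicity b P : ℤ) - rootMultiplicity b Q, ?_⟩
  have hm' : (((n b).toNat : ℤ)) + ℓ * rootMultiplicity b Q =
      ℓ * rootMultiplicity b P + ((-(n b)).toNat : ℤ) := by
    exact_mod_cast hm
  have hn : n b = ((n b).toNat : ℤ) - ((-(n b)).toNat : ℤ) := by omega
  rw [mul_sub]
  linarith

/-- The product over the roots `θ` of `θ - β`. -/
lemma prod_rts_sub (hF : CompatF F L Ω) (H : GlobHyp ℓ g D ζ) (β : F) :
    ∏ θ ∈ rts (cOver k F L Ω g D), (θ - algebraMap F Ω β) =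
      (-1) ^ g.natDegree * (algebraMap F Ω (aeval β g) - tA F L Ω) := by
  have h1 : IsAlgClosed Ω := IsAlgClosure.isAlgClosed L
  have hd := g10_d_ne (k := k) hF H
  have hgood : IsGood ℓ (cOver k F L Ω g D) := isGood_cOver H
  have hs : (locPoly (g.map (algebraMap k F)) (tA F L Ω)
      (aeval (tA F L Ω) (D.map (algebraMap k F)))).Separable := by
    rw [← cOver_eq_locPoly hF]
    exact hgood.separable
  have h2 := eval_sub_eq_prod (H.monic.map (algebraMap k F)) (g10_deg_ne H) hd hs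
    (algebraMap F Ω β)
  have h3 := card_rts (H.monic.map (algebraMap k F)) (g10_deg_ne H) hd hs
  rw [natDegree_map] at h3
  rw [cOver_eq_locPoly hF, ← h3]
  have h4 : algebraMap F Ω (aeval β g) = aeval (algebraMap F Ω β) (g.map (algebraMap k F)) := by
    rw [aeval_algebraMap_apply, aeval_map_algebraMap]
  rw [h4, h2, ← Finset.prod_const, ← Finset.prod_mul_distrib]
  refine Finset.prod_congr rfl fun θ _ => ?_
  ring

lemma tA_injective (hF : CompatF F L Ω) :
    Function.Injective (aeval (tA F L Ω) : F[X] →ₐ[F] Ω) :=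
  g10_tA_inj hF

end Pool.Agent.Lib.MP_89bcae_ag.Sup

end

end
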