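import Mathlib
import Pool.Agent.Lib.MP_89bcae_ag.Tk.K002
import Pool.Agent.Lib.MP_89bcae_ag.Tk.K010
import Pool.Agent.Lib.MP_89bcae_ag.Tk.K000

set_option linter.all false
attribute [local instance 100000] Pool.Agent.Lib.MP_89bcae_ag.Brt.tffFields

section

/-!
ROW R12 (200-350 lines). `a - x` is a norm (an explicit form of Tsen's theorem).

STATEMENT: for every `a` in `E` there is a function `h` with `∏_{i<ℓ} h(x, ζ^i y) = x - a`.

PROOF. `V = E(z)`, `z` a variable, is a vector space of dimension `ℓ` over its subfield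
`E(x)`, `x := a - z^ℓ`, with basis `1, z, ..., z^(ℓ-1)`. Let `s` be the `E`-automorphism `z ↦ ζ z`
of `V`; it fixes `x`. Write `f = c ∏_i (X - r_i)` (roots `r_i`), `s_i^ℓ = a - r_i`, `d^ℓ = c`,
`H = d ∏_i (s_i - z)` in `V`. As `∏_{j<ℓ} (s_i - ζ^j z) = s_i^ℓ - z^ℓ = x - r_i`, we have
`∏_{j<ℓ} s^j(H) = f(x)`. So `Y : V → V, v ↦ H s(v)`, which is `E(x)`-linear, satisfies
`Y^ℓ = f(x)` and `V` becomes a vector space over `K = E(x)(y)` with `y v = Y(v)`, of dimension
`1` (as `[K : E(x)] = ℓ`; only needed: `u ↦ u · 1` from `K` to `V` is injective (`K` is a field) and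
`E(x)`-linear between spaces of the same dimension `ℓ`, so bijective). Let `h` in `K` with
`h · 1 = z`. For all `u` in `K`: `z · (u · 1) = rot⁻¹(u) · z` where `rot : y ↦ ζ y`: indeed
`z Y(v) = z H s(v) = ζ⁻¹ H s(z v) = ζ⁻¹ Y(z v)`, so multiplication by `z` satisfies
`z ∘ y = (ζ⁻¹ y) ∘ z`. Hence `z^ℓ = z^ℓ · 1 = (∏_{i<ℓ} rot^{-i}(h)) · 1`, and
`z^ℓ = a - x = (a - x) · 1`, so `∏ rot^i(h) = a - x`. Finally `-1 = ∏ rot^i(e)` with the constant
`e`, `e^ℓ = -1`, so `x - a` is a norm too.
One can avoid fields: to have the result in the coordinate ring up to `E(x)` it is enough to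
find a nonzero `w = ∑ p_i(x) y^i` in the coordinate ring and nonzero `q(x)` with `w · 1 = q(x) z` in
`E[z]`: exists by linear algebra over `E(x)`; then `nrm w = q^ℓ (a - x)` and `h = w / q`.
-/

open Polynomial IsDedekindDomain

open scoped Classical

namespace Pool.Agent.Lib.MP_89bcae_ag.Sup

universe u

section R12aux

variable {E : Type u} [Field E]

/-- substitution `z ↦ η z` -/
private noncomputable def r12_rr (η : E) : E[X] →ₐ[E] E[X] := Polynomial.aeval (C η * X)

private lemma r12_rr_X (η : E) : r12_rr η X = C η * X := by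
  unfold r12_rr; exact aeval_X _

private lemma r12_rr_C (η c : E) : r12_rr η (C c) = C c := by
  unfold r12_rr; exact aeval_C _ _

private lemma r12_rr_rr (η η' : E) (v : E[X]) : r12_rr η (r12_rr η' v) = r12_rr (η * η') v := by
  have h : (r12_rr η).comp (r12_rr η') = r12_rr (η * η') := by
    ext1
    rw [AlgHom.comp_apply, r12_rr_X, map_mul, r12_rr_C, r12_rr_X, r12_rr_X, C_mul]
    ring
  rw [← h, AlgHom.comp_apply]

private lemma r12_rr_one (v : E[X]) : r12_rr 1 v = v := by
  have h : r12_rr (1 : E) = AlgHom.id E E[X] := by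
    ext1
    rw [r12_rr_X, AlgHom.id_apply, C_1, one_mul]
  rw [h, AlgHom.id_apply]

/-- the polynomial `p(a - z ^ l)` -/
private noncomputable def r12_hat (l : ℕ) (a : E) : E[X] →ₐ[E] E[X] :=
  Polynomial.aeval (C a - X ^ l)

private lemma r12_hat_X (l : ℕ) (a : E) : r12_hat l a X = C a - X ^ l := by
  unfold r12_hat; exact aeval_X _

private lemma r12_hat_C (l : ℕ) (a c : E) : r12_hat l a (C c) = C c := by
  unfold r12_hat; exact aeval_C _ _

private lemma r12_hat_ne {l : ℕ} (hl : 0 < l) (a : E) {p : E[X]} (hp : p ≠ 0) :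
    r12_hat l a p ≠ 0 := by
  intro h
  have h1 : p.comp (C a - X ^ l) = 0 := by
    rw [Polynomial.comp_eq_aeval]; exact h
  rw [Polynomial.comp_eq_zero_iff] at h1
  rcases h1 with h1 | ⟨_, h1⟩
  · exact hp h1
  · have h2 := congrArg natDegree h1
    rw [natDegree_C] at h2
    have h3 : (C a - X ^ l : E[X]).natDegree = l := by
      rw [natDegree_sub_eq_right_of_natDegree_lt]
      · exact natDegree_X_pow l
      · rw [natDegree_C, natDegree_X_pow]; exact hl
    omega

private lemma r12_rr_hat {l : ℕ} {η : E} (hη : η ^ l = 1) (a : E) (p : E[X]) :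
    r12_rr η (r12_hat l a p) = r12_hat l a p := by
  have h : (r12_rr η).comp (r12_hat l a) = r12_hat l a := by
    ext1
    rw [AlgHom.comp_apply, r12_hat_X, map_sub, map_pow, r12_rr_C, r12_rr_X, mul_pow, ← C_pow, hη,
      C_1, one_mul]
  exact congrArg (fun φ : E[X] →ₐ[E] E[X] => φ p) h

private lemma r12_lin {l : ℕ} (hl : 0 < l) {η : E} (hη : IsPrimitiveRoot η l) (s : E) :
    ∏ j ∈ Finset.range l, r12_rr (η ^ j) (C s - X) = C (s ^ l) - X ^ l := by
  have h1 : IsPrimitiveRoot (C η : E[X]) l := hη.map_of_injective C_injective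
  have h2 := h1.pow_sub_pow_eq_prod_sub_mul (C s : E[X]) X hl
  have h3 : nthRootsFinset l (1 : E[X]) = (Finset.range l).image (fun j => (C η : E[X]) ^ j) := by
    symm
    apply Finset.eq_of_subset_of_card_le
    · intro x hx
      obtain ⟨j, _, rfl⟩ := Finset.mem_image.mp hx
      rw [mem_nthRootsFinset hl, ← pow_mul, mul_comm, pow_mul, h1.pow_eq_one, one_pow]
    · rw [h1.card_nthRootsFinset, Finset.card_image_of_injOn, Finset.card_range]
      intro i hi j hj hij
      exact h1.pow_inj (Finset.mem_range.mp hi) (Finset.mem_range.mp hj) hij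
  rw [h3, Finset.prod_image] at h2
  · rw [C_pow, h2]
    refine Finset.prod_congr rfl fun j _ => ?_
    rw [map_sub, r12_rr_C, r12_rr_X, C_pow]
  · intro i hi j hj hij
    exact h1.pow_inj (Finset.mem_range.mp hi) (Finset.mem_range.mp hj) hij

private lemma r12_H [IsAlgClosed E] {l : ℕ} (hl : 0 < l) {η : E} (hη : IsPrimitiveRoot η l) (a : E)
    (f : E[X]) : ∃ H : E[X], ∏ j ∈ Finset.range l, r12_rr (η ^ j) H = r12_hat l a f := by
  have hmul : ∀ p q : E[X], (∃ H : E[X], ∏ j ∈ Finset.range l, r12_rr (η ^ j) H = r12_hat l a p) →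
      (∃ H : E[X], ∏ j ∈ Finset.range l, r12_rr (η ^ j) H = r12_hat l a q) →
      ∃ H : E[X], ∏ j ∈ Finset.range l, r12_rr (η ^ j) H = r12_hat l a (p * q) := by
    rintro p q ⟨H, hH⟩ ⟨H', hH'⟩
    refine ⟨H * H', ?_⟩
    rw [map_mul, ← hH, ← hH', ← Finset.prod_mul_distrib]
    exact Finset.prod_congr rfl fun j _ => map_mul _ _ _
  have hC : ∀ c : E, ∃ H : E[X], ∏ j ∈ Finset.range l, r12_rr (η ^ j) H = r12_hat l a (C c) := by
    intro c
    obtain ⟨d, hd⟩ := IsAlgClosed.exists_pow_nat_eq c hl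
    refine ⟨C d, ?_⟩
    rw [r12_hat_C, ← hd, C_pow]
    rw [Finset.prod_congr rfl (fun j _ => r12_rr_C (η ^ j) d), Finset.prod_const,
      Finset.card_range]
  have hX : ∀ r : E, ∃ H : E[X], ∏ j ∈ Finset.range l, r12_rr (η ^ j) H =
      r12_hat l a (X - C r) := by
    intro r
    obtain ⟨s, hs⟩ := IsAlgClosed.exists_pow_nat_eq (a - r) hl
    refine ⟨C s - X, ?_⟩
    rw [r12_lin hl hη, hs, map_sub (r12_hat l a), r12_hat_X, r12_hat_C, C_sub]
    ring
  have hm : ∀ m : Multiset E, ∃ H : E[X], ∏ j ∈ Finset.range l, r12_rr (η ^ j) H =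
      r12_hat l a ((m.map fun r => X - C r).prod) := by
    intro m
    induction m using Multiset.induction_on with
    | empty =>
      have := hC 1
      rwa [C_1] at this
    | cons r m ih =>
      rw [Multiset.map_cons, Multiset.prod_cons]
      exact hmul _ _ (hX r) ih
  have hsp := (IsAlgClosed.splits f).eq_prod_roots
  rw [hsp]
  exact hmul _ _ (hC _) (hm _)


private lemma r12_Y_pow (η : E) (H : E[X]) (Y : Module.End E E[X])
    (hY : ∀ v, Y v = H * r12_rr η v) (n : ℕ) (v : E[X]) :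
    (Y ^ n) v = (∏ j ∈ Finset.range n, r12_rr (η ^ j) H) * r12_rr (η ^ n) v := by
  induction n generalizing v with
  | zero => rw [pow_zero, pow_zero, Finset.prod_range_zero, one_mul, r12_rr_one]; rfl
  | succ n ih =>
    rw [pow_succ, Module.End.mul_apply, ih, hY, map_mul, r12_rr_rr, Finset.prod_range_succ,
      ← pow_succ]
    ring

/-- the action of the coordinate ring on the polynomials in `z` -/
private lemma r12_act {l : ℕ} (f : E[X]) (a : E) {η : E} (hη : η ^ l = 1) (H : E[X])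
    (hH : ∏ j ∈ Finset.range l, r12_rr (η ^ j) H = r12_hat l a f) :
    ∃ act : Coord l f →+* Module.End E E[X],
      (∀ p v, act (ofPoly p) v = r12_hat l a p * v) ∧
      (∀ v, act yy v = H * r12_rr η v) := by
  set f0 : E[X] →+* Module.End E E[X] :=
    (Algebra.lmul E E[X]).toRingHom.comp (r12_hat l a).toRingHom with hf0
  have hf0a : ∀ p v, f0 p v = r12_hat l a p * v := fun p v => rfl
  set Y : Module.End E E[X] := LinearMap.mulLeft E H * (r12_rr η).toLinearMap with hYd
  have hY : ∀ v, Y v = H * r12_rr η v := fun v => rfl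
  have hcomm : ∀ p, Commute (f0 p) Y := by
    intro p
    apply LinearMap.ext
    intro v
    show f0 p (Y v) = Y (f0 p v)
    rw [hf0a, hY, hY, hf0a, map_mul, r12_rr_hat hη]
    ring
  set act0 : E[X][X] →+* Module.End E E[X] := Polynomial.eval₂RingHom' f0 Y hcomm with hact0
  have h1 : ∀ p, act0 (C p) = f0 p := fun p => Polynomial.eval₂_C _ _
  have h2 : act0 X = Y := Polynomial.eval₂_X _ _
  have hzero : act0 (X ^ l - C f) = 0 := by
    rw [map_sub, map_pow, h1, h2, sub_eq_zero]
    apply LinearMap.ext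
    intro v
    rw [r12_Y_pow η H Y hY, hH, hη, r12_rr_one, hf0a]
  set act : Coord l f →+* Module.End E E[X] :=
    Ideal.Quotient.lift (Ideal.span {(X ^ l - C f : E[X][X])}) act0 (by
      intro x hx
      obtain ⟨y, rfl⟩ := Ideal.mem_span_singleton'.mp hx
      rw [map_mul, hzero, mul_zero]) with hact
  have h3 : ∀ q : E[X][X], act (AdjoinRoot.mk _ q) = act0 q := fun q => rfl
  refine ⟨act, ?_, ?_⟩
  · intro p v
    have h4 : (ofPoly p : Coord l f) = AdjoinRoot.mk _ (C p) := rfl
    rw [h4, h3, h1, hf0a]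
  · intro v
    have h4 : (yy : Coord l f) = AdjoinRoot.mk _ X := rfl
    rw [h4, h3, h2, hY]


private lemma r12_exists_poly {l : ℕ} {f : E[X]} [hG : IsGood l f] {u : Coord l f} (hu : u ≠ 0) :
    ∃ (p : E[X]) (c : Coord l f), p ≠ 0 ∧ (ofPoly p : Coord l f) = c * u := by
  have hfin : Module.Finite E[X] (Coord l f) :=
    (monic_eqn (f := f) hG.prime.ne_zero).finite_adjoinRoot
  have hint : IsIntegral E[X] u := Algebra.IsIntegral.isIntegral u
  have h1 := Ideal.comap_ne_bot_of_integral_mem hu (Ideal.mem_span_singleton_self u) hint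
  obtain ⟨p, hp, hp0⟩ := (Submodule.ne_bot_iff _).mp h1
  rw [Ideal.mem_comap, Ideal.mem_span_singleton'] at hp
  obtain ⟨c, hc⟩ := hp
  exact ⟨p, c, hp0, hc.symm⟩

private lemma r12_act_inj {l : ℕ} {f : E[X]} [hG : IsGood l f] {a : E}
    (act : Coord l f →+* Module.End E E[X])
    (h1 : ∀ p v, act (ofPoly p) v = r12_hat l a p * v) {v : E[X]} (hv : v ≠ 0) {u : Coord l f}
    (hu : act u v = 0) : u = 0 := by
  by_contra hne
  obtain ⟨p, c, hp, hpc⟩ := r12_exists_poly hne
  have h2 : act (ofPoly p) v = 0 := by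
    rw [hpc, map_mul, Module.End.mul_apply, hu, map_zero]
  rw [h1] at h2
  exact mul_ne_zero (r12_hat_ne hG.prime.pos a hp) hv h2

private lemma r12_deg {l : ℕ} {f : E[X]} {a η : E} {H : E[X]}
    (act : Coord l f →+* Module.End E E[X])
    (h1 : ∀ p v, act (ofPoly p) v = r12_hat l a p * v)
    (h2 : ∀ v, act yy v = H * r12_rr η v) (i j : ℕ) (v : E[X]) :
    (act (ofPoly (X ^ j) * yy ^ i) v).natDegree ≤ l * j + i * H.natDegree + v.natDegree := by
  have hrr : ∀ w : E[X], (r12_rr η w).natDegree ≤ w.natDegree := by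
    intro w
    have h3 : r12_rr η w = w.comp (C η * X) := by rw [Polynomial.comp_eq_aeval]; rfl
    rw [h3]
    refine natDegree_comp_le.trans ?_
    have h4 : (C η * X : E[X]).natDegree ≤ 1 :=
      (natDegree_C_mul_le _ _).trans natDegree_X_le
    calc w.natDegree * (C η * X : E[X]).natDegree ≤ w.natDegree * 1 := Nat.mul_le_mul_left _ h4
      _ = w.natDegree := mul_one _
  have hy : ∀ (i : ℕ) (w : E[X]), ((act yy ^ i) w).natDegree ≤ i * H.natDegree + w.natDegree := by
    intro i
    induction i with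
    | zero => intro w; rw [pow_zero]; show w.natDegree ≤ _; omega
    | succ i ih =>
      intro w
      rw [pow_succ, Module.End.mul_apply]
      refine (ih _).trans ?_
      rw [h2]
      have h3 := natDegree_mul_le (p := H) (q := r12_rr η w)
      have h4 := hrr w
      have h5 : (i + 1) * H.natDegree = i * H.natDegree + H.natDegree := by ring
      omega
  rw [map_mul, Module.End.mul_apply, h1, map_pow act]
  have h3 := natDegree_mul_le (p := r12_hat l a (X ^ j)) (q := (act yy ^ i) v)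
  have h4 := hy i v
  have h5 : (r12_hat l a (X ^ j)).natDegree ≤ l * j := by
    rw [map_pow, r12_hat_X]
    refine natDegree_pow_le.trans ?_
    have h6 : (C a - X ^ l : E[X]).natDegree ≤ l := by
      refine (natDegree_sub_le _ _).trans ?_
      rw [natDegree_C, natDegree_X_pow]
      exact max_le (Nat.zero_le _) le_rfl
    calc j * (C a - X ^ l : E[X]).natDegree ≤ j * l := Nat.mul_le_mul_left _ h6
      _ = l * j := mul_comm _ _
  omega

/-- the element with the coefficients `c` -/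
private noncomputable def r12_el {l : ℕ} {f : E[X]} (N : ℕ) (c : ℕ → ℕ → E) : Coord l f :=
  ∑ i ∈ Finset.range l, ofPoly (∑ j ∈ Finset.range N, C (c i j) * X ^ j) * yy ^ i

private lemma r12_el_act {l : ℕ} {f : E[X]} {a : E}
    (act : Coord l f →+* Module.End E E[X])
    (h1 : ∀ p v, act (ofPoly p) v = r12_hat l a p * v) (N : ℕ) (c : ℕ → ℕ → E) (v : E[X]) :
    act (r12_el N c) v =
      ∑ i ∈ Finset.range l, ∑ j ∈ Finset.range N, c i j • act (ofPoly (X ^ j) * yy ^ i) v := by
  unfold r12_el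
  rw [map_sum, LinearMap.sum_apply]
  refine Finset.sum_congr rfl fun i _ => ?_
  rw [map_mul, Module.End.mul_apply, h1, map_sum, Finset.sum_mul]
  refine Finset.sum_congr rfl fun j _ => ?_
  rw [map_mul (r12_hat l a), r12_hat_C, map_mul act, Module.End.mul_apply, h1, smul_eq_C_mul,
    mul_assoc]

private lemma r12_el_zero {l : ℕ} (hl : l ≠ 0) {f : E[X]} {N : ℕ} {c : ℕ → ℕ → E}
    (h : (r12_el N c : Coord l f) = 0) : ∀ i < l, ∀ j < N, c i j = 0 := by
  intro i hi j hj
  have h1 := expand_unique hl (fun i => ∑ j ∈ Finset.range N, C (c i j) * X ^ j) h i hi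
  have h2 := congrArg (fun p : E[X] => p.coeff j) h1
  simp only [finsetSum_coeff, coeff_C_mul, coeff_X_pow, coeff_zero] at h2
  rw [Finset.sum_eq_single j] at h2
  · simpa using h2
  · intro b _ hb
    rw [if_neg (Ne.symm hb), mul_zero]
  · intro hb
    exact absurd (Finset.mem_range.mpr hj) hb


private lemma r12_exists_w {l : ℕ} {f : E[X]} [hG : IsGood l f] {a η : E} {H : E[X]}
    (act : Coord l f →+* Module.End E E[X])
    (h1 : ∀ p v, act (ofPoly p) v = r12_hat l a p * v)
    (h2 : ∀ v, act yy v = H * r12_rr η v) :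
    ∃ (w : Coord l f) (q : E[X]), q ≠ 0 ∧ act w 1 = r12_hat l a q * X := by
  have hl : 2 ≤ l := hG.prime.two_le
  set n' := H.natDegree with hn'
  set N := n' + 1 with hN
  set D := l * n' + (l - 1) * n' + 2 with hD
  set g : Fin 2 × Fin l × Fin N → E[X] := fun x =>
    if x.1 = 0 then act (ofPoly (X ^ (x.2.2 : ℕ)) * yy ^ (x.2.1 : ℕ)) 1
    else -act (ofPoly (X ^ (x.2.2 : ℕ)) * yy ^ (x.2.1 : ℕ)) X with hg
  have hgdeg : ∀ x, (g x).natDegree < D := by
    intro x
    obtain ⟨k, i, j⟩ := x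
    have hi : (i : ℕ) ≤ l - 1 := by have := i.2; omega
    have hj : (j : ℕ) ≤ n' := by have := j.2; omega
    have h3 := r12_deg act h1 h2 (i : ℕ) (j : ℕ) 1
    have h4 := r12_deg act h1 h2 (i : ℕ) (j : ℕ) X
    rw [natDegree_one, ← hn'] at h3
    rw [natDegree_X, ← hn'] at h4
    have h5 : (i : ℕ) * n' ≤ (l - 1) * n' := Nat.mul_le_mul_right _ hi
    have h6 : l * (j : ℕ) ≤ l * n' := Nat.mul_le_mul_left _ hj
    simp only [hg]
    split_ifs
    · omega
    · rw [natDegree_neg]; omega
  set T : (Fin 2 × Fin l × Fin N → E) →ₗ[E] E[X] := Fintype.linearCombination E g with hT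
  set T' : (Fin 2 × Fin l × Fin N → E) →ₗ[E] (Fin D → E) :=
    LinearMap.pi (fun j => (Polynomial.lcoeff E (j : ℕ)).comp T) with hT'
  have hker : LinearMap.ker T' ≠ ⊥ := by
    apply LinearMap.ker_ne_bot_of_finrank_lt
    rw [Module.finrank_fin_fun, Module.finrank_fintype_fun_eq_card, Fintype.card_prod,
      Fintype.card_prod, Fintype.card_fin, Fintype.card_fin, Fintype.card_fin, hD, hN]
    have h3 : (l - 1) * n' ≤ l * n' := Nat.mul_le_mul_right _ (by omega)
    have h4 : 2 * (l * (n' + 1)) = l * n' + l * n' + 2 * l := by ring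
    omega
  obtain ⟨c, hc, hc0⟩ := (Submodule.ne_bot_iff _).mp hker
  have hTc : T c = 0 := by
    ext j
    by_cases hj : j < D
    · have h3 : T' c = 0 := hc
      have h4 := congrFun h3 ⟨j, hj⟩
      exact h4
    · rw [coeff_zero]
      apply coeff_eq_zero_of_natDegree_lt
      have h3 : T c = ∑ x, c x • g x := rfl
      rw [h3]
      refine lt_of_lt_of_le ?_ (not_lt.mp hj)
      refine lt_of_le_of_lt (natDegree_sum_le_of_forall_le (n := D - 1) _ _ ?_) (by omega)
      intro x _
      refine (natDegree_smul_le _ _).trans ?_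
      have := hgdeg x
      omega
  set cc : Fin 2 → ℕ → ℕ → E := fun k i j =>
    if h : i < l ∧ j < N then c (k, ⟨i, h.1⟩, ⟨j, h.2⟩) else 0 with hcc
  have hccv : ∀ (k : Fin 2) (i : Fin l) (j : Fin N), cc k i j = c (k, i, j) := by
    intro k i j
    simp only [hcc]
    rw [dif_pos ⟨i.2, j.2⟩]
  have hsum : act (r12_el N (cc 0)) 1 - act (r12_el N (cc 1)) X = 0 := by
    rw [r12_el_act act h1, r12_el_act act h1, ← hTc]
    have h3 : T c = ∑ x, c x • g x := rfl
    rw [h3, Fintype.sum_prod_type, Fin.sum_univ_two, Fintype.sum_prod_type, Fintype.sum_prod_type,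
      Finset.sum_range, Finset.sum_range, sub_eq_add_neg, ← Finset.sum_neg_distrib]
    congr 1
    · refine Finset.sum_congr rfl fun i _ => ?_
      rw [Finset.sum_range]
      refine Finset.sum_congr rfl fun j _ => ?_
      rw [hccv]
      simp only [hg, if_pos]
    · refine Finset.sum_congr rfl fun i _ => ?_
      rw [Finset.sum_range, ← Finset.sum_neg_distrib]
      refine Finset.sum_congr rfl fun j _ => ?_
      rw [hccv]
      simp only [hg]
      rw [if_neg (by decide), smul_neg]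
  have hu : (r12_el N (cc 1) : Coord l f) ≠ 0 := by
    intro h3
    have h4 := r12_el_zero hG.prime.ne_zero h3
    rw [h3, map_zero, LinearMap.zero_apply, sub_zero] at hsum
    have h5 := r12_act_inj act h1 one_ne_zero hsum
    have h6 := r12_el_zero hG.prime.ne_zero h5
    apply hc0
    funext x
    obtain ⟨k, i, j⟩ := x
    rw [← hccv, Pi.zero_apply]
    fin_cases k
    · exact h6 i i.2 j j.2
    · exact h4 i i.2 j j.2
  obtain ⟨p, u', hp, hpu⟩ := r12_exists_poly hu
  refine ⟨u' * r12_el N (cc 0), p, hp, ?_⟩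
  rw [map_mul, Module.End.mul_apply, sub_eq_zero.mp hsum, ← Module.End.mul_apply, ← map_mul, ← hpu,
    h1]


/-- the main identity in the coordinate ring -/
private lemma r12_main {l : ℕ} {f : E[X]} [hG : IsGood l f] (ζ : E) (hζ : IsPrimitiveRoot ζ l)
    (h0 : ζ ≠ 0) (a : E) :
    ∃ (w : Coord l f) (q : E[X]), q ≠ 0 ∧ w ≠ 0 ∧
      ∏ i ∈ Finset.range l, (rotC ζ hζ.pow_eq_one)^[i] w = ofPoly (q ^ l * (C a - X)) := by
  have hl : 0 < l := hG.prime.pos
  have : IsAlgClosed E := hG.alg
  have hη : IsPrimitiveRoot ζ⁻¹ l := hζ.inv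
  obtain ⟨H, hH⟩ := r12_H hl hη a f
  obtain ⟨act, h1, h2⟩ := r12_act f a hη.pow_eq_one H hH
  obtain ⟨w, q, hq, hw⟩ := r12_exists_w act h1 h2
  -- the semilinearity of the multiplication by `z`
  have hsemi : ∀ (u : Coord l f) (v : E[X]),
      X * act u v = act (rotC ζ hζ.pow_eq_one u) (X * v) := by
    have hadd : ∀ u u' : Coord l f,
        (∀ v : E[X], X * act u v = act (rotC ζ hζ.pow_eq_one u) (X * v)) →
        (∀ v : E[X], X * act u' v = act (rotC ζ hζ.pow_eq_one u') (X * v)) →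
        ∀ v : E[X], X * act (u + u') v = act (rotC ζ hζ.pow_eq_one (u + u')) (X * v) := by
      intro u u' hu hu' v
      rw [map_add act, map_add (rotC ζ hζ.pow_eq_one), map_add act, LinearMap.add_apply,
        LinearMap.add_apply, mul_add, hu, hu']
    have hmul : ∀ u u' : Coord l f,
        (∀ v : E[X], X * act u v = act (rotC ζ hζ.pow_eq_one u) (X * v)) →
        (∀ v : E[X], X * act u' v = act (rotC ζ hζ.pow_eq_one u') (X * v)) →
        ∀ v : E[X], X * act (u * u') v = act (rotC ζ hζ.pow_eq_one (u * u')) (X * v) := by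
      intro u u' hu hu' v
      rw [map_mul act, map_mul (rotC ζ hζ.pow_eq_one), map_mul act, Module.End.mul_apply,
        Module.End.mul_apply, hu, hu']
    have hp : ∀ (p : E[X]) (v : E[X]), X * act (ofPoly p : Coord l f) v =
        act (rotC ζ hζ.pow_eq_one (ofPoly p)) (X * v) := by
      intro p v
      rw [rotC_ofPoly, h1, h1]
      ring
    have hy : ∀ v : E[X], X * act (yy : Coord l f) v =
        act (rotC ζ hζ.pow_eq_one yy) (X * v) := by
      intro v
      rw [rotC_yy, map_mul act, Module.End.mul_apply, h1, h2, h2, map_mul, r12_rr_X, r12_hat_C]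
      have h3 : (C ζ * C ζ⁻¹ : E[X]) = 1 := by rw [← C_mul, mul_inv_cancel₀ h0, C_1]
      calc X * (H * r12_rr ζ⁻¹ v) = 1 * (X * (H * r12_rr ζ⁻¹ v)) := by rw [one_mul]
        _ = (C ζ * C ζ⁻¹) * (X * (H * r12_rr ζ⁻¹ v)) := by rw [h3]
        _ = _ := by ring
    have hyp : ∀ (i : ℕ) (v : E[X]), X * act ((yy : Coord l f) ^ i) v =
        act (rotC ζ hζ.pow_eq_one (yy ^ i)) (X * v) := by
      intro i
      induction i with
      | zero =>
        intro v
        rw [pow_zero, map_one (rotC ζ hζ.pow_eq_one), map_one act]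
        rfl
      | succ i ih =>
        rw [pow_succ]
        exact hmul _ _ ih hy
    intro u
    obtain ⟨p, rfl⟩ := exists_expand hl.ne' u
    have key : ∀ s : Finset ℕ, ∀ v : E[X],
        X * act (∑ i ∈ s, (ofPoly (p i) : Coord l f) * yy ^ i) v =
        act (rotC ζ hζ.pow_eq_one (∑ i ∈ s, ofPoly (p i) * yy ^ i)) (X * v) := by
      intro s
      induction s using Finset.induction_on with
      | empty =>
        intro v
        rw [Finset.sum_empty, map_zero, map_zero, map_zero, LinearMap.zero_apply,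
          LinearMap.zero_apply, mul_zero]
      | insert i s hi ih =>
        rw [Finset.sum_insert hi]
        exact hadd _ _ (hmul _ _ (hp (p i)) (hyp i)) ih
    exact key _
  have hsemik : ∀ (k : ℕ) (v : E[X]),
      X ^ k * act w v = act ((rotC ζ hζ.pow_eq_one)^[k] w) (X ^ k * v) := by
    intro k
    induction k with
    | zero => intro v; rw [pow_zero, one_mul, one_mul]; rfl
    | succ k ih =>
      intro v
      rw [pow_succ', mul_assoc, ih, hsemi, Function.iterate_succ_apply', mul_assoc]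
  have hcommC : ∀ (u : Coord l f) (p v : E[X]),
      act u (r12_hat l a p * v) = r12_hat l a p * act u v := by
    intro u p v
    rw [← h1, ← Module.End.mul_apply, ← map_mul, mul_comm, map_mul, Module.End.mul_apply, h1]
  have hprod : ∀ k : ℕ, act (∏ i ∈ Finset.range k, (rotC ζ hζ.pow_eq_one)^[i] w) 1 =
      r12_hat l a (q ^ k) * X ^ k := by
    intro k
    induction k with
    | zero =>
      rw [Finset.prod_range_zero, map_one act, pow_zero, pow_zero, map_one (r12_hat l a)]
      show (1 : E[X]) = 1 * 1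
      rw [one_mul]
    | succ k ih =>
      rw [Finset.prod_range_succ, mul_comm, map_mul, Module.End.mul_apply, ih, hcommC]
      have h3 := hsemik k 1
      rw [mul_one, hw] at h3
      rw [← h3, pow_succ, pow_succ, map_mul]
      ring
  have hw0 : w ≠ 0 := by
    intro h3
    rw [h3, map_zero, LinearMap.zero_apply] at hw
    exact mul_ne_zero (r12_hat_ne hl a hq) X_ne_zero hw.symm
  refine ⟨w, q, hq, hw0, ?_⟩
  rw [← sub_eq_zero]
  refine r12_act_inj act h1 (v := 1) one_ne_zero ?_
  rw [map_sub, LinearMap.sub_apply, hprod, h1, mul_one, map_mul, map_sub (r12_hat l a), r12_hat_X,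
    r12_hat_C]
  ring

end R12aux

variable {ℓ : ℕ} {E : Type u} [Field E] {f : E[X]} [hG : IsGood ℓ f]

lemma exists_nrm_eq_xs (ζ : E) (hζ : IsPrimitiveRoot ζ ℓ) (h0 : ζ ≠ 0) (a : E) :
    ∃ h : (Fn ℓ f)ˣ, nrm ζ hζ.pow_eq_one h0 h = xs a := by
  have hl : 0 < ℓ := hG.prime.pos
  have : IsAlgClosed E := hG.alg
  obtain ⟨w, q, hq, hw0, hmain⟩ := r12_main (f := f) ζ hζ h0 a
  obtain ⟨e, he⟩ := IsAlgClosed.exists_pow_nat_eq (-1 : E) hl
  have he0 : e ≠ 0 := by
    intro h
    rw [h, zero_pow hl.ne'] at he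
    exact one_ne_zero (neg_eq_zero.mp he.symm)
  have hinj : Function.Injective (algebraMap (Coord ℓ f) (Fn ℓ f)) :=
    IsFractionRing.injective (Coord ℓ f) (Fn ℓ f)
  set wU : (Fn ℓ f)ˣ := Units.mk0 (algebraMap (Coord ℓ f) (Fn ℓ f) w)
    (by rwa [Ne, map_eq_zero_iff _ hinj]) with hwU
  have hrot : ∀ (u : Coord ℓ f), rotE ζ hζ.pow_eq_one h0 u = rotC ζ hζ.pow_eq_one u := fun u => rfl
  have hit : ∀ i : ℕ, (((rotU ζ hζ.pow_eq_one h0)^[i] wU : (Fn ℓ f)ˣ) : Fn ℓ f) =
      algebraMap (Coord ℓ f) (Fn ℓ f) ((rotC ζ hζ.pow_eq_one)^[i] w) := by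
    intro i
    induction i with
    | zero => rfl
    | succ i ih =>
      rw [Function.iterate_succ_apply', Function.iterate_succ_apply']
      show (autF (rotE ζ hζ.pow_eq_one h0)) (((rotU ζ hζ.pow_eq_one h0)^[i] wU : (Fn ℓ f)ˣ) :
        Fn ℓ f) = _
      rw [ih, autF_algebraMap, hrot]
  have hnw : ((nrm ζ hζ.pow_eq_one h0 wU : (Fn ℓ f)ˣ) : Fn ℓ f) =
      algebraMap (Coord ℓ f) (Fn ℓ f) (ofPoly (q ^ ℓ * (C a - X))) := by
    unfold nrm
    rw [← hmain, Units.coe_prod, map_prod]
    exact Finset.prod_congr rfl fun i _ => hit i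
  have hnq : nrm ζ hζ.pow_eq_one h0 (polyU q hq : (Fn ℓ f)ˣ) = (polyU q hq) ^ ℓ := by
    unfold nrm
    have h1 : ∀ i : ℕ, (rotU ζ hζ.pow_eq_one h0)^[i] (polyU q hq : (Fn ℓ f)ˣ) = polyU q hq := by
      intro i
      induction i with
      | zero => rfl
      | succ i ih => rw [Function.iterate_succ_apply', ih, rotU_polyU]
    rw [Finset.prod_congr rfl (fun i _ => h1 i), Finset.prod_const, Finset.card_range]
  have hkey : nrm ζ hζ.pow_eq_one h0 (wU * cstU (Units.mk0 e he0)) =
      nrm ζ hζ.pow_eq_one h0 (polyU q hq) * xs a := by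
    rw [nrm_mul, nrm_cstU, hnq]
    apply Units.ext
    rw [Units.val_mul, Units.val_mul, hnw, Units.val_pow_eq_pow_val]
    have h1 : ((cstU (Units.mk0 e he0 ^ ℓ) : (Fn ℓ f)ˣ) : Fn ℓ f) =
        algebraMap (Coord ℓ f) (Fn ℓ f) (ofPoly (C (-1))) := by
      have h2 : ((cstU (Units.mk0 e he0 ^ ℓ) : (Fn ℓ f)ˣ) : Fn ℓ f) =
        algebraMap (Coord ℓ f) (Fn ℓ f) (ofPoly (C (e ^ ℓ))) := by
        show (cst (((Units.mk0 e he0) ^ ℓ : Eˣ) : E) : Fn ℓ f) = _
        rw [Units.val_pow_eq_pow_val]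
        rfl
      rw [h2, he]
    have h3 : ((polyU q hq : (Fn ℓ f)ˣ) : Fn ℓ f) =
        algebraMap (Coord ℓ f) (Fn ℓ f) (ofPoly q) := rfl
    have h4 : ((xs a : (Fn ℓ f)ˣ) : Fn ℓ f) =
        algebraMap (Coord ℓ f) (Fn ℓ f) (ofPoly (X - C a)) := rfl
    rw [h1, h3, h4, ← map_mul, ← map_mul, ← map_pow, ← map_pow, ← map_mul, ← map_mul]
    congr 2
    rw [C_neg, C_1]
    ring
  refine ⟨wU * cstU (Units.mk0 e he0) * (polyU q hq)⁻¹, ?_⟩
  have h5 : nrm ζ hζ.pow_eq_one h0 (wU * cstU (Units.mk0 e he0) * (polyU q hq)⁻¹) *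
      nrm ζ hζ.pow_eq_one h0 (polyU q hq) =
      nrm ζ hζ.pow_eq_one h0 (wU * cstU (Units.mk0 e he0)) := by
    rw [← nrm_mul, inv_mul_cancel_right]
  rw [hkey, mul_comm (nrm ζ hζ.pow_eq_one h0 (polyU q hq)) (xs a)] at h5
  exact mul_right_cancel h5

end Pool.Agent.Lib.MP_89bcae_ag.Sup

end

section

/-!
ROW R13 (200-350 lines). The point at infinity: a function whose affine divisor has degree `0` is,
up to a constant `c`, zero at infinity.

STATEMENT: if `∑_P ord_P(h) = 0` then for some constant `c` either `h = c`, or `h - c ≠ 0` and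
`∑_P ord_P(h - c) < 0`.

PROOF. For a nonzero `a = ∑_{i<ℓ} p_i(x) y^i` of the coordinate ring let
`W(a) = max_{p_i ≠ 0} (ℓ deg p_i + i m)`, `m = deg f`. As `m` is prime to `ℓ` the numbers
`ℓ deg p_i + i m` are different modulo `ℓ`, so the maximum is attained exactly once.
(1) `W(a b) = W(a) + W(b)`: in `a b = ∑ p_i q_j y^(i+j)`, `y^(i+j) = f y^(i+j-ℓ)` if `i + j ≥ ℓ`, the
term `(i, j)` contributes to the component `(i+j) mod ℓ` a polynomial of weight exactly
`(ℓ deg p_i + i m) + (ℓ deg q_j + j m)` (`deg f = m` accounts for the carry), and all pairs except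
the pair of the two maxima have strictly smaller weight; in the component of that pair the degree
is therefore exactly the one of this term, and all other components have smaller weight.
(2) `W(rot a) = W(a)` clearly, so for `N = ∏ rot^i a` in `E[x]` (see `R10`): `ℓ W(a) = W(N)
= ℓ deg N`, `W(a) = deg N`.
(3) `∑_P ord_P(a) = deg N = W(a)`: by `exists_nrm_eq` (R10), `N = c ∏_P (x - P.x)^{ord_P(a)}`
(here all `ord_P(a) ≥ 0`, so this is an equality of polynomials, by `ofPoly_injective`), whose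
degree is `∑_P ord_P(a)`.
(4) `h = a / q` with `q` in `E[x]` (multiply by conjugates as in R10); then
`0 = ∑ ord_P(h) = W(a) - W(q)`, `W(q) = ℓ deg q`. So the unique maximum of
`ℓ deg p_i + i m` is `≡ 0` modulo `ℓ`, so `i = 0`, `deg p_0 = deg q`, and with
`c = lc(p_0)/lc(q)` either `a = c q` or `W(a - c q) < W(q)`, and `∑ ord_P(h - c) = W(a - c q) - W(q)`.
-/

open Polynomial IsDedekindDomain

open scoped Classical

namespace Pool.Agent.Lib.MP_89bcae_ag.Sup

universe u

variable {ℓ : ℕ} {E : Type u} [Field E] {f : E[X]} [hG : IsGood ℓ f]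

/-- The degree of a divisor. -/
noncomputable def dg (D : Pt ℓ f →₀ ℤ) : ℤ := D.sum fun _ n => n

private lemma r13_rotE_ofPoly (ζ : E) (hζ : ζ ^ ℓ = 1) (h0 : ζ ≠ 0) (p : E[X]) :
    rotE ζ hζ h0 (ofPoly p : Coord ℓ f) = ofPoly p := rotC_ofPoly ζ hζ p

private lemma r13_rotE_yy (ζ : E) (hζ : ζ ^ ℓ = 1) (h0 : ζ ≠ 0) :
    rotE ζ hζ h0 (yy : Coord ℓ f) = ofPoly (C ζ) * yy := rotC_yy ζ hζ

private lemma r13_rot (ζ : E) (hζ : ζ ^ ℓ = 1) (h0 : ζ ≠ 0) (p : ℕ → E[X]) (u : (Fn ℓ f)ˣ)
    (hu : (u : Fn ℓ f) = algebraMap (Coord ℓ f) (Fn ℓ f)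
      (∑ j ∈ Finset.range ℓ, ofPoly (p j) * yy ^ j)) (k : ℕ) :
    (((rotU ζ hζ h0)^[k] u : (Fn ℓ f)ˣ) : Fn ℓ f) = algebraMap (Coord ℓ f) (Fn ℓ f)
      (∑ j ∈ Finset.range ℓ, ofPoly (C (ζ ^ (k * j)) * p j) * yy ^ j) := by
  induction k with
  | zero =>
    rw [Function.iterate_zero, id, hu]
    congr 1
    refine Finset.sum_congr rfl fun j _ => ?_
    rw [zero_mul, pow_zero, C_1, one_mul]
  | succ k ih =>
    rw [Function.iterate_succ_apply']
    have h1 : ((rotU ζ hζ h0 ((rotU ζ hζ h0)^[k] u) : (Fn ℓ f)ˣ) : Fn ℓ f) =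
        autF (rotE ζ hζ h0) (((rotU ζ hζ h0)^[k] u : (Fn ℓ f)ˣ) : Fn ℓ f) := rfl
    rw [h1, ih, autF_algebraMap, map_sum]
    congr 1
    refine Finset.sum_congr rfl fun j _ => ?_
    have h2 : rotE ζ hζ h0 ((yy : Coord ℓ f) ^ j) = ofPoly (C (ζ ^ j)) * yy ^ j := by
      rw [map_pow, r13_rotE_yy, mul_pow, ← map_pow, ← C_pow]
    rw [map_mul, h2, r13_rotE_ofPoly, ← mul_assoc, ← map_mul]
    congr 2
    rw [Nat.succ_mul, pow_add, C_mul]
    ring

/-- the terms of the norm -/
private noncomputable def TT (ℓ : ℕ) (f : E[X]) (ζ : E) (p : ℕ → E[X]) (φ : Fin ℓ → Fin ℓ) :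
    E[X] :=
  (∏ k : Fin ℓ, (C (ζ ^ ((k : ℕ) * (φ k : ℕ))) * p (φ k))) * f ^ ((∑ k, (φ k : ℕ)) / ℓ)

private noncomputable def HH (ℓ : ℕ) (f : E[X]) (ζ : E) (p : ℕ → E[X]) (j : ℕ) : E[X] :=
  ∑ φ ∈ (Finset.univ : Finset (Fin ℓ → Fin ℓ)).filter (fun φ => (∑ k, (φ k : ℕ)) % ℓ = j),
    TT ℓ f ζ p φ

omit hG in
private lemma r13_yy_pow (s : ℕ) :
    (yy : Coord ℓ f) ^ s = ofPoly (f ^ (s / ℓ)) * yy ^ (s % ℓ) := by
  conv_lhs => rw [← Nat.div_add_mod s ℓ]
  rw [pow_add, pow_mul, yy_pow, map_pow]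

omit hG in
private lemma r13_norm_poly (hℓ : 0 < ℓ) (ζ : E) (p : ℕ → E[X]) :
    ∏ k ∈ Finset.range ℓ, (∑ j ∈ Finset.range ℓ,
      (ofPoly (C (ζ ^ (k * j)) * p j) : Coord ℓ f) * yy ^ j) =
      ∑ j ∈ Finset.range ℓ, ofPoly (HH ℓ f ζ p j) * yy ^ j := by
  rw [Finset.prod_range]
  have h1 : ∀ k : Fin ℓ, (∑ j ∈ Finset.range ℓ,
      (ofPoly (C (ζ ^ ((k : ℕ) * j)) * p j) : Coord ℓ f) * yy ^ j) =
      ∑ j : Fin ℓ, (ofPoly (C (ζ ^ ((k : ℕ) * (j : ℕ))) * p j) : Coord ℓ f) * yy ^ (j : ℕ) :=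
    fun k => Finset.sum_range _
  rw [Finset.prod_congr rfl fun k _ => h1 k, Finset.prod_univ_sum, Fintype.piFinset_univ]
  have h2 : ∀ φ : Fin ℓ → Fin ℓ, (∏ k : Fin ℓ,
      (ofPoly (C (ζ ^ ((k : ℕ) * (φ k : ℕ))) * p (φ k)) : Coord ℓ f) * yy ^ (φ k : ℕ)) =
      ofPoly (TT ℓ f ζ p φ) * yy ^ ((∑ k, (φ k : ℕ)) % ℓ) := by
    intro φ
    rw [Finset.prod_mul_distrib, Finset.prod_pow_eq_pow_sum, r13_yy_pow, TT, map_mul, map_prod]
    ring
  rw [Finset.sum_congr rfl fun φ _ => h2 φ]
  have h3 := Finset.sum_fiberwise_of_maps_to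
    (s := (Finset.univ : Finset (Fin ℓ → Fin ℓ))) (t := Finset.range ℓ)
    (g := fun φ => (∑ k, (φ k : ℕ)) % ℓ)
    (fun φ _ => Finset.mem_range.mpr (Nat.mod_lt _ hℓ))
    (fun φ => (ofPoly (TT ℓ f ζ p φ) : Coord ℓ f) * yy ^ ((∑ k, (φ k : ℕ)) % ℓ))
  rw [← h3]
  refine Finset.sum_congr rfl fun j _ => ?_
  rw [HH, map_sum, Finset.sum_mul]
  refine Finset.sum_congr rfl fun φ hφ => ?_
  rw [(Finset.mem_filter.mp hφ).2]

/-- `i0` is the index of the maximal weight `w` -/
private structure Top (ℓ m : ℕ) (p : ℕ → E[X]) (i0 w : ℕ) : Prop where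
  lt : i0 < ℓ
  ne : p i0 ≠ 0
  eq : ℓ * (p i0).natDegree + i0 * m = w
  max : ∀ i < ℓ, i ≠ i0 → p i ≠ 0 → ℓ * (p i).natDegree + i * m < w

omit hG in
private lemma r13_top_inj {m : ℕ} (hc : m.Coprime ℓ) {i j d e : ℕ} (hi : i < ℓ) (hj : j < ℓ)
    (h : ℓ * d + i * m = ℓ * e + j * m) : i = j := by
  have h1 : i * m ≡ j * m [MOD ℓ] := by
    have h2 : (ℓ * d + i * m) % ℓ = (ℓ * e + j * m) % ℓ := by rw [h]
    rw [Nat.mul_add_mod, Nat.mul_add_mod] at h2
    exact h2
  have h3 : i ≡ j [MOD ℓ] := Nat.ModEq.cancel_right_of_coprime (by rwa [Nat.gcd_comm]) h1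
  have h4 : i % ℓ = j % ℓ := h3
  rwa [Nat.mod_eq_of_lt hi, Nat.mod_eq_of_lt hj] at h4

omit hG in
private lemma r13_exists_top {m : ℕ} (hc : m.Coprime ℓ) (p : ℕ → E[X])
    (h : ∃ i < ℓ, p i ≠ 0) : ∃ i0 w, Top ℓ m p i0 w := by
  obtain ⟨i, hi, hpi⟩ := h
  have hne : ((Finset.range ℓ).filter (fun i => p i ≠ 0)).Nonempty :=
    ⟨i, Finset.mem_filter.mpr ⟨Finset.mem_range.mpr hi, hpi⟩⟩
  obtain ⟨i0, hi0, hmax⟩ := Finset.exists_max_image _
    (fun i => ℓ * (p i).natDegree + i * m) hne
  rw [Finset.mem_filter, Finset.mem_range] at hi0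
  refine ⟨i0, _, hi0.1, hi0.2, rfl, ?_⟩
  intro j hj hji hpj
  have h1 := hmax j (Finset.mem_filter.mpr ⟨Finset.mem_range.mpr hj, hpj⟩)
  refine lt_of_le_of_ne h1 fun h2 => hji ?_
  exact r13_top_inj hc hj hi0.1 h2

private lemma r13_TT_lt (hℓ : 0 < ℓ) (ζ : E) (p : ℕ → E[X]) {i0 w : ℕ}
    (ht : Top ℓ f.natDegree p i0 w) (φ : Fin ℓ → Fin ℓ) (hφ : ∃ k, (φ k : ℕ) ≠ i0) :
    (TT ℓ f ζ p φ).coeff w = 0 ∧ (TT ℓ f ζ p φ).natDegree ≤ w := by
  by_cases hz : ∃ k, p (φ k) = 0
  · obtain ⟨k, hk⟩ := hz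
    have h0 : TT ℓ f ζ p φ = 0 := by
      rw [TT, Finset.prod_eq_zero (Finset.mem_univ k) (by rw [hk, mul_zero]), zero_mul]
    rw [h0]
    simp
  · push Not at hz
    have h1 : (TT ℓ f ζ p φ).natDegree ≤
        ∑ k : Fin ℓ, (p (φ k)).natDegree + (∑ k, (φ k : ℕ)) / ℓ * f.natDegree := by
      rw [TT]
      refine natDegree_mul_le.trans (add_le_add ?_ natDegree_pow_le)
      refine (natDegree_prod_le _ _).trans (Finset.sum_le_sum fun k _ => ?_)
      exact natDegree_C_mul_le _ _
    have h2 : ℓ * (TT ℓ f ζ p φ).natDegree ≤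
        ∑ k : Fin ℓ, (ℓ * (p (φ k)).natDegree + (φ k : ℕ) * f.natDegree) := by
      refine (Nat.mul_le_mul_left ℓ h1).trans ?_
      rw [mul_add, Finset.sum_add_distrib, ← Finset.mul_sum, ← Finset.sum_mul, ← mul_assoc]
      refine Nat.add_le_add_left (Nat.mul_le_mul_right _ (Nat.mul_div_le _ _)) _
    have h3 : ∑ k : Fin ℓ, (ℓ * (p (φ k)).natDegree + (φ k : ℕ) * f.natDegree) <
        ∑ _k : Fin ℓ, w := by
      have hle : ∀ k : Fin ℓ, ℓ * (p (φ k)).natDegree + (φ k : ℕ) * f.natDegree ≤ w := by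
        intro k
        by_cases h4 : (φ k : ℕ) = i0
        · rw [h4]
          exact ht.eq.le
        · exact (ht.max _ (φ k).2 h4 (hz k)).le
      obtain ⟨k, hk⟩ := hφ
      exact Finset.sum_lt_sum (fun k _ => hle k)
        ⟨k, Finset.mem_univ k, ht.max _ (φ k).2 hk (hz k)⟩
    rw [Finset.sum_const, Finset.card_univ, Fintype.card_fin, smul_eq_mul] at h3
    have h4 : (TT ℓ f ζ p φ).natDegree < w := by
      have := lt_of_le_of_lt h2 h3
      exact Nat.lt_of_mul_lt_mul_left this
    exact ⟨coeff_eq_zero_of_natDegree_lt h4, h4.le⟩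

private lemma r13_f_ne (ℓ : ℕ) {f : E[X]} [hG : IsGood ℓ f] : f ≠ 0 := by
  intro h
  have h1 : f.natDegree ≠ 0 := IsGood.natDegree_ne_zero (ℓ := ℓ) (f := f)
  rw [h] at h1
  simp at h1

private lemma r13_TT_top (hℓ : 0 < ℓ) (ζ : E) (h0 : ζ ≠ 0) (p : ℕ → E[X]) {i0 w : ℕ}
    (ht : Top ℓ f.natDegree p i0 w) (φ : Fin ℓ → Fin ℓ) (hφ : ∀ k, (φ k : ℕ) = i0) :
    (TT ℓ f ζ p φ).coeff w ≠ 0 ∧ (TT ℓ f ζ p φ).natDegree ≤ w := by
  have hf := r13_f_ne ℓ (f := f)
  have hs : (∑ k, (φ k : ℕ)) / ℓ = i0 := by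
    rw [Finset.sum_congr rfl fun k _ => hφ k, Finset.sum_const, Finset.card_univ,
      Fintype.card_fin, smul_eq_mul, Nat.mul_div_cancel_left _ hℓ]
  have hfac : ∀ k : Fin ℓ, C (ζ ^ ((k : ℕ) * (φ k : ℕ))) * p (φ k) ≠ 0 := by
    intro k
    refine mul_ne_zero (C_ne_zero.mpr (pow_ne_zero _ h0)) ?_
    rw [hφ k]
    exact ht.ne
  have hprod : (∏ k : Fin ℓ, (C (ζ ^ ((k : ℕ) * (φ k : ℕ))) * p (φ k))) ≠ 0 :=
    Finset.prod_ne_zero_iff.mpr fun k _ => hfac k
  have hne : TT ℓ f ζ p φ ≠ 0 := mul_ne_zero hprod (pow_ne_zero _ hf)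
  have hdeg : (TT ℓ f ζ p φ).natDegree = w := by
    rw [TT, natDegree_mul hprod (pow_ne_zero _ hf), natDegree_pow, hs,
      natDegree_prod _ _ fun k _ => hfac k]
    have h1 : ∀ k : Fin ℓ, (C (ζ ^ ((k : ℕ) * (φ k : ℕ))) * p (φ k)).natDegree =
        (p i0).natDegree := by
      intro k
      rw [natDegree_C_mul (pow_ne_zero _ h0), hφ k]
    rw [Finset.sum_congr rfl fun k _ => h1 k, Finset.sum_const, Finset.card_univ,
      Fintype.card_fin, smul_eq_mul]
    exact ht.eq
  refine ⟨?_, hdeg.le⟩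
  rw [← hdeg, coeff_natDegree, leadingCoeff_ne_zero]
  exact hne

private lemma r13_HH (hℓ : 0 < ℓ) (ζ : E) (h0 : ζ ≠ 0) (p : ℕ → E[X]) {i0 w : ℕ}
    (ht : Top ℓ f.natDegree p i0 w) : (HH ℓ f ζ p 0).natDegree = w := by
  set φ0 : Fin ℓ → Fin ℓ := fun _ => ⟨i0, ht.lt⟩ with hφ0
  have hmem : φ0 ∈ (Finset.univ : Finset (Fin ℓ → Fin ℓ)).filter
      (fun φ => (∑ k, (φ k : ℕ)) % ℓ = 0) := by
    rw [Finset.mem_filter]
    refine ⟨Finset.mem_univ _, ?_⟩
    rw [hφ0]
    simp
  have hother : ∀ φ : Fin ℓ → Fin ℓ, φ ≠ φ0 → ∃ k, (φ k : ℕ) ≠ i0 := by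
    intro φ hφ
    by_contra hno
    push Not at hno
    exact hφ (_root_.funext fun k => Fin.ext (hno k))
  apply natDegree_eq_of_le_of_coeff_ne_zero
  · rw [HH]
    refine natDegree_sum_le_of_forall_le _ _ fun φ _ => ?_
    by_cases h1 : φ = φ0
    · rw [h1]
      exact (r13_TT_top hℓ ζ h0 p ht φ0 fun k => rfl).2
    · exact (r13_TT_lt hℓ ζ p ht φ (hother φ h1)).2
  · rw [HH, finset_sum_coeff, Finset.sum_eq_single φ0]
    · exact (r13_TT_top hℓ ζ h0 p ht φ0 fun k => rfl).1
    · intro φ _ h1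
      exact (r13_TT_lt hℓ ζ p ht φ (hother φ h1)).1
    · intro h1
      exact absurd hmem h1

omit hG in
private lemma r13_dg_add (D D' : Pt ℓ f →₀ ℤ) : dg (D + D') = dg D + dg D' := by
  unfold dg
  exact Finsupp.sum_add_index' (fun _ => rfl) (fun _ _ _ => rfl)

omit hG in
private lemma r13_dg_neg (D : Pt ℓ f →₀ ℤ) : dg (-D) = - dg D := by
  have h := r13_dg_add D (-D)
  rw [add_neg_cancel] at h
  have h0 : dg (0 : Pt ℓ f →₀ ℤ) = 0 := by simp [dg]
  rw [h0] at h
  linarith

/-- the degree of the divisor of an element of the coordinate ring -/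
private lemma r13_dg (ζ : E) (hζ : IsPrimitiveRoot ζ ℓ) (p : ℕ → E[X]) (u : (Fn ℓ f)ˣ)
    (hu : (u : Fn ℓ f) = algebraMap (Coord ℓ f) (Fn ℓ f)
      (∑ j ∈ Finset.range ℓ, ofPoly (p j) * yy ^ j)) {i0 w : ℕ}
    (ht : Top ℓ f.natDegree p i0 w) : dg (div u) = w := by
  have hℓ : 0 < ℓ := hG.prime.pos
  have h0 : ζ ≠ 0 := hζ.ne_zero hℓ.ne'
  obtain ⟨c, hc⟩ := exists_nrm_eq ζ hζ h0 u
  have hnn : ∀ P, 0 ≤ div u P := fun P => ord_nonneg P _ u hu
  -- the right hand side
  set G0 : E[X] := ∏ P ∈ (div u).support, (X - C P.x) ^ (div u P).toNat with hG0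
  have hxp : ((xprod (div u) : (Fn ℓ f)ˣ) : Fn ℓ f) =
      algebraMap (Coord ℓ f) (Fn ℓ f) (ofPoly G0) := by
    rw [xprod, Finsupp.prod, hG0, map_prod, map_prod, Units.coe_prod]
    refine Finset.prod_congr rfl fun P _ => ?_
    have h1 : div u P = ((div u P).toNat : ℤ) := (Int.toNat_of_nonneg (hnn P)).symm
    rw [h1, zpow_natCast, Units.val_pow_eq_pow_val, map_pow, map_pow, Int.toNat_natCast]
    rfl
  have hcst : ((cstU c : (Fn ℓ f)ˣ) : Fn ℓ f) =
      algebraMap (Coord ℓ f) (Fn ℓ f) (ofPoly (C (c : E))) := rfl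
  have hlhs : ((nrm ζ hζ.pow_eq_one h0 u : (Fn ℓ f)ˣ) : Fn ℓ f) =
      algebraMap (Coord ℓ f) (Fn ℓ f) (∑ j ∈ Finset.range ℓ, ofPoly (HH ℓ f ζ p j) * yy ^ j) := by
    rw [nrm, Units.coe_prod, ← r13_norm_poly hℓ, map_prod]
    exact Finset.prod_congr rfl fun k _ => r13_rot ζ hζ.pow_eq_one h0 p u hu k
  have heq : (∑ j ∈ Finset.range ℓ, ofPoly (HH ℓ f ζ p j) * yy ^ j : Coord ℓ f) =
      ofPoly (C (c : E) * G0) := by
    apply IsFractionRing.injective (Coord ℓ f) (Fn ℓ f)
    rw [← hlhs, hc, Units.val_mul, hcst, hxp, map_mul, map_mul]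
  have huniq := expand_unique (f := f) hℓ.ne'
    (fun j => HH ℓ f ζ p j - if j = 0 then C (c : E) * G0 else 0) (by
      simp only [map_sub, sub_mul, Finset.sum_sub_distrib]
      rw [heq]
      rw [Finset.sum_eq_single 0]
      · simp
      · intro j _ hj
        rw [if_neg hj, map_zero, zero_mul]
      · intro h
        exact absurd (Finset.mem_range.mpr hℓ) h)
  have hH0 := huniq 0 hℓ
  rw [if_pos rfl, sub_eq_zero] at hH0
  have hdeg := r13_HH hℓ ζ h0 p ht
  rw [hH0, natDegree_C_mul c.ne_zero, hG0, natDegree_prod _ _ fun P _ =>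
    pow_ne_zero _ (X_sub_C_ne_zero _)] at hdeg
  rw [dg, Finsupp.sum, ← hdeg]
  push_cast
  refine Finset.sum_congr rfl fun P _ => ?_
  rw [natDegree_pow, natDegree_X_sub_C, mul_one]
  exact (Int.toNat_of_nonneg (hnn P)).symm

lemma exists_const_of_dg_eq_zero (ζ : E) (hζ : IsPrimitiveRoot ζ ℓ) (h : (Fn ℓ f)ˣ)
    (hd : dg (div h) = 0) :
    ∃ c : E, (h : Fn ℓ f) = cst c ∨ ∃ w : (Fn ℓ f)ˣ,
      (w : Fn ℓ f) = (h : Fn ℓ f) - (cst c : Fn ℓ f) ∧ dg (div w) < 0 := by
  have hℓ : 0 < ℓ := hG.prime.pos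
  have hc := hG.coprime
  obtain ⟨a, b, hb, hab⟩ := IsFractionRing.div_surjective (A := Coord ℓ f) (h : Fn ℓ f)
  have hb0 : b ≠ 0 := nonZeroDivisors.ne_zero hb
  have ha0 : a ≠ 0 := by
    rintro rfl
    rw [map_zero, zero_div] at hab
    exact h.ne_zero hab.symm
  obtain ⟨p, hp⟩ := exists_expand hℓ.ne' a
  obtain ⟨q, hq⟩ := exists_expand hℓ.ne' b
  have hinj := IsFractionRing.injective (Coord ℓ f) (Fn ℓ f)
  have hex : ∀ (r : ℕ → E[X]) (x : Coord ℓ f), x = ∑ i ∈ Finset.range ℓ, ofPoly (r i) * yy ^ i →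
      x ≠ 0 → ∃ i < ℓ, r i ≠ 0 := by
    intro r x hx hx0
    by_contra hno
    push Not at hno
    apply hx0
    rw [hx]
    refine Finset.sum_eq_zero fun i hi => ?_
    rw [hno i (Finset.mem_range.mp hi), map_zero, zero_mul]
  have hmapne : ∀ x : Coord ℓ f, x ≠ 0 → algebraMap (Coord ℓ f) (Fn ℓ f) x ≠ 0 := fun x hx h1 =>
    hx (hinj (by rw [h1, map_zero]))
  obtain ⟨ia, wa, hta⟩ := r13_exists_top hc p (hex p a hp ha0)
  obtain ⟨ib, wb, htb⟩ := r13_exists_top hc q (hex q b hq hb0)
  set ua : (Fn ℓ f)ˣ := Units.mk0 _ (hmapne a ha0) with hua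
  set ub : (Fn ℓ f)ˣ := Units.mk0 _ (hmapne b hb0) with hub
  have hda : dg (div ua) = wa := r13_dg ζ hζ p ua (by rw [← hp]; rfl) hta
  have hdb : dg (div ub) = wb := r13_dg ζ hζ q ub (by rw [← hq]; rfl) htb
  have hh : h = ua * ub⁻¹ := by
    apply Units.ext
    rw [Units.val_mul, Units.val_inv_eq_inv_val, ← div_eq_mul_inv, ← hab]
    rfl
  have hdeg : dg (div h) = wa - wb := by
    rw [hh, div_mul, div_inv, r13_dg_add, r13_dg_neg, hda, hdb]
    ring
  have hw : wa = wb := by
    rw [hd] at hdeg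
    omega
  subst hw
  have hi : ia = ib := r13_top_inj hc hta.lt htb.lt (hta.eq.trans htb.eq.symm)
  subst hi
  have hdd : (p ia).natDegree = (q ia).natDegree := by
    have h1 := hta.eq.trans htb.eq.symm
    have h2 : ℓ * (p ia).natDegree = ℓ * (q ia).natDegree := by omega
    exact Nat.eq_of_mul_eq_mul_left hℓ h2
  set c : E := (p ia).leadingCoeff / (q ia).leadingCoeff with hcdef
  have hlq : (q ia).leadingCoeff ≠ 0 := leadingCoeff_ne_zero.mpr htb.ne
  have hlp : (p ia).leadingCoeff ≠ 0 := leadingCoeff_ne_zero.mpr hta.ne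
  have hc0 : c ≠ 0 := div_ne_zero hlp hlq
  refine ⟨c, ?_⟩
  have hcstc : (cst c : Fn ℓ f) = algebraMap (Coord ℓ f) (Fn ℓ f) (ofPoly (C c)) := rfl
  have hbF := hmapne b hb0
  by_cases hz : a - ofPoly (C c) * b = 0
  · left
    rw [← hab, hcstc, div_eq_iff hbF, ← map_mul, sub_eq_zero.mp hz]
  · right
    set v : (Fn ℓ f)ˣ := Units.mk0 _ (hmapne _ hz) with hv
    refine ⟨v * ub⁻¹, ?_, ?_⟩
    · rw [Units.val_mul, Units.val_inv_eq_inv_val, ← div_eq_mul_inv, ← hab, hcstc]
      have h1 : (v : Fn ℓ f) = algebraMap (Coord ℓ f) (Fn ℓ f) (a - ofPoly (C c) * b) := rfl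
      have h2 : (ub : Fn ℓ f) = algebraMap (Coord ℓ f) (Fn ℓ f) b := rfl
      rw [h1, h2, map_sub, map_mul]
      field_simp
    · set r : ℕ → E[X] := fun i => p i - C c * q i with hr
      have hrexp : a - ofPoly (C c) * b = ∑ i ∈ Finset.range ℓ, ofPoly (r i) * yy ^ i := by
        conv_lhs => rw [hp, hq]
        rw [Finset.mul_sum, ← Finset.sum_sub_distrib]
        refine Finset.sum_congr rfl fun i _ => ?_
        rw [hr]
        simp only [map_sub, map_mul]
        ring
      obtain ⟨iv, wv, htv⟩ := r13_exists_top hc r (hex r _ hrexp hz)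
      have hdv : dg (div v) = wv := r13_dg ζ hζ r v (by rw [← hrexp]; rfl) htv
      have hlt : wv < wa := by
        rw [← htv.eq]
        by_cases hiv : iv = ia
        · have h1 : (r iv).natDegree < (p ia).natDegree := by
            rw [hiv]
            have h2 : (r ia).degree < (p ia).degree := by
              rw [hr]
              refine degree_sub_lt ?_ hta.ne ?_
              · rw [degree_C_mul hc0, degree_eq_natDegree hta.ne, degree_eq_natDegree htb.ne, hdd]
              · rw [leadingCoeff_mul, leadingCoeff_C, hcdef, div_mul_cancel₀ _ hlq]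
            have h3 : r ia ≠ 0 := by
              rw [← hiv]
              exact htv.ne
            exact (natDegree_lt_natDegree_iff h3).mpr h2
          have h4 := hta.eq
          have h5 : ℓ * (r iv).natDegree < ℓ * (p ia).natDegree :=
            Nat.mul_lt_mul_of_pos_left h1 hℓ
          rw [hiv] at h5 ⊢
          omega
        · have h1 : (r iv).natDegree ≤ max (p iv).natDegree (q iv).natDegree := by
            rw [hr]
            refine (natDegree_sub_le _ _).trans (max_le_max le_rfl (natDegree_C_mul_le _ _))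
          have h6 : ∀ s : ℕ → E[X], Top ℓ f.natDegree s ia wa → s iv ≠ 0 →
              ℓ * (s iv).natDegree + iv * f.natDegree < wa := fun s hs h7 =>
            hs.max iv htv.lt hiv h7
          by_cases hp0 : p iv = 0
          · have hq0 : q iv ≠ 0 := by
              intro h8
              apply htv.ne
              rw [hr]
              simp only [hp0, h8, mul_zero, sub_zero]
            have h9 := h6 q htb hq0
            rw [hp0, natDegree_zero, max_eq_right (Nat.zero_le _)] at h1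
            have := Nat.mul_le_mul_left ℓ h1
            omega
          · have h9 := h6 p hta hp0
            by_cases hq0 : q iv = 0
            · rw [hq0, natDegree_zero, max_eq_left (Nat.zero_le _)] at h1
              have := Nat.mul_le_mul_left ℓ h1
              omega
            · have h10 := h6 q htb hq0
              rcases le_total (p iv).natDegree (q iv).natDegree with h11 | h11
              · rw [max_eq_right h11] at h1
                have := Nat.mul_le_mul_left ℓ h1
                omega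
              · rw [max_eq_left h11] at h1
                have := Nat.mul_le_mul_left ℓ h1
                omega
      rw [div_mul, div_inv, r13_dg_add, r13_dg_neg, hdv, hdb]
      have : (wv : ℤ) < wa := by exact_mod_cast hlt
      linarith

end Pool.Agent.Lib.MP_89bcae_ag.Sup

end

section

/-!
ROW L10 (150-300 lines). The absolute value of an algebraic closure `M` of the completion `K` of
`F(t)` at `t = a`.

PROOF. `K` has the complete discrete valuation `Valued.v` with values in `ℤᵐ⁰`; choose a rank one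
structure (`Valuation.RankOne`; e.g. `exp n ↦ 2 ^ n`; see `Valued.toNormedField`,
`IsDedekindDomain.HeightOneSpectrum.adicCompletion` and, for the pattern,
`Mathlib/NumberTheory/Padics/Complex.lean` and `.../NumberField/Completion/FinitePlace.lean`) to make
`K` a complete nontrivially normed field with nonarchimedean norm, and let `v` be the spectral norm
`spectralNorm K M` (`spectralNorm_mul`/`spectralMulAlgNorm`, `isNonarchimedean_spectralNorm`,
`spectralNorm_extends`). `spectralNorm_eq_of_equiv` gives the invariance under `Aut(M/K)`; the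
invariance under `u` (semilinear with respect to an isometry `φ` of `K`): the minimal polynomial of
`u x` is the image under `φ` of the minimal polynomial of `x`, and `spectralValue` depends only on the
norms of the coefficients. Constants: `Valued.v (C c) = 1` for `c ≠ 0` (`val_eq_one`);
`Valued.v (X - a) = exp (-1)` (`val_X_sub_C`), so every nonzero element of `K` has the absolute value of a
power of `t - a`. Residues: let `x` in `M`, `v x ≤ 1`, with minimal polynomial `q` over `K`, whose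
coefficients have norm `≤ 1` (definition of the spectral norm:
`spectralValue q ≤ 1 → ‖q.coeff n‖ ≤ 1`, `spectralValue_le_one_iff`); let `q₀` in `F[X]` be monic with
coefficients the residues of those of `q` (`exists_residue`); then `v (q₀(x)) = v (q₀(x) - q(x)) < 1` and
`q₀ = ∏ (X - c_i)` (`F` is algebraically closed), so `v (x - c_i) < 1` for some `i`.
-/

open Polynomial IsDedekindDomain

open scoped Classical

namespace Pool.Agent.Lib.MP_89bcae_ag.Sup

universe u

section Spectral

variable {K M : Type u} [NontriviallyNormedField K] [IsUltrametricDist K] [CompleteSpace K]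
  [Field M] [Algebra K M] [Algebra.IsAlgebraic K M]

/-- The spectral norm as an absolute value. -/
private noncomputable def L10_abs (K M : Type u) [NontriviallyNormedField K]
    [IsUltrametricDist K] [CompleteSpace K]
    [Field M] [Algebra K M] [Algebra.IsAlgebraic K M] : AbsoluteValue M ℝ where
  toFun := spectralNorm K M
  map_mul' x y := (spectralMulAlgNorm K M).map_mul' x y
  nonneg' x := spectralNorm_nonneg x
  eq_zero' x := ⟨fun h => eq_zero_of_map_spectralNorm_eq_zero h
    (Algebra.IsAlgebraic.isAlgebraic x), fun h => by rw [h]; exact spectralNorm_zero⟩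
  add_le' x y := isNonarchimedean_spectralNorm.add_le spectralNorm_nonneg


private theorem L10_nonarch (x y : M) :
    L10_abs K M (x + y) ≤ max (L10_abs K M x) (L10_abs K M y) :=
  isNonarchimedean_spectralNorm x y

private theorem L10_ext (x : K) : L10_abs K M (algebraMap K M x) = ‖x‖ :=
  spectralNorm_extends x

private theorem L10_gal (σ : M ≃ₐ[K] M) (x : M) : L10_abs K M (σ x) = L10_abs K M x :=
  (spectralNorm_eq_of_equiv σ x).symm

private theorem L10_semilin (w : M ≃+* M) (φ : K ≃+* K) (hφ : ∀ x, ‖φ x‖ = ‖x‖)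
    (hw : ∀ x, w (algebraMap K M x) = algebraMap K M (φ x)) (x : M) :
    L10_abs K M (w x) = L10_abs K M x := by
  have hx : IsIntegral K x := (Algebra.IsAlgebraic.isAlgebraic x).isIntegral
  have hcomp : (algebraMap K M).comp (φ : K →+* K) = (w : M →+* M).comp (algebraMap K M) := by
    ext k
    exact (hw k).symm
  have hroot : aeval (w x) ((minpoly K x).map (φ : K →+* K)) = 0 := by
    rw [aeval_def, eval₂_map, hcomp]
    have h1 : eval₂ ((w : M →+* M).comp (algebraMap K M)) (w x) (minpoly K x) =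
        w (eval₂ (algebraMap K M) x (minpoly K x)) := by
      have := (hom_eval₂ (minpoly K x) (algebraMap K M) (w : M →+* M) x)
      exact this.symm
    rw [h1, ← aeval_def, minpoly.aeval, map_zero]
  have hirr : Irreducible ((minpoly K x).map (φ : K →+* K)) := by
    have h2 := minpoly.irreducible hx
    exact (MulEquiv.irreducible_iff (Polynomial.mapEquiv φ)).mpr h2
  have hmon : ((minpoly K x).map (φ : K →+* K)).Monic := (minpoly.monic hx).map _
  have hmin : minpoly K (w x) = (minpoly K x).map (φ : K →+* K) :=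
    (minpoly.eq_of_irreducible_of_monic hirr hroot hmon).symm
  change spectralValue (minpoly K (w x)) = spectralValue (minpoly K x)
  rw [hmin]
  unfold spectralValue
  congr 1
  funext n
  unfold spectralValueTerms
  rw [natDegree_map_eq_of_injective (RingHom.injective (φ : K →+* K)), coeff_map]
  have h3 : ‖(φ : K →+* K) ((minpoly K x).coeff n)‖ = ‖(minpoly K x).coeff n‖ := hφ _
  rw [h3]

private theorem L10_sum_lt {ι : Type*} (v : AbsoluteValue M ℝ)
    (hna : ∀ x y, v (x + y) ≤ max (v x) (v y)) (s : Finset ι) (f : ι → M)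
    (h : ∀ i ∈ s, v (f i) < 1) : v (∑ i ∈ s, f i) < 1 := by
  induction s using Finset.induction_on with
  | empty => rw [Finset.sum_empty, map_zero]; exact zero_lt_one
  | insert a s ha ih =>
    rw [Finset.sum_insert ha]
    refine (hna _ _).trans_lt (max_lt (h a (Finset.mem_insert_self a s)) (ih fun i hi => ?_))
    exact h i (Finset.mem_insert_of_mem hi)

private theorem L10_residue {F : Type u} [Field F] [IsAlgClosed F] (ι : F →+* K)
    (hres : ∀ k : K, ‖k‖ ≤ 1 → ∃ c : F, ‖k - ι c‖ < 1)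
    (x : M) (hx : L10_abs K M x ≤ 1) :
    ∃ c : F, L10_abs K M (x - algebraMap K M (ι c)) < 1 := by
  have hint : IsIntegral K x := (Algebra.IsAlgebraic.isAlgebraic x).isIntegral
  set q := minpoly K x with hq
  have hmon : q.Monic := minpoly.monic hint
  have hcoef : ∀ n, ‖q.coeff n‖ ≤ 1 := (spectralValue_le_one_iff hmon).mp hx
  choose c hc using fun n => hres (q.coeff n) (hcoef n)
  set n := q.natDegree with hn
  set q₀ : F[X] := X ^ n + ∑ i ∈ Finset.range n, C (c i) * X ^ i with hq₀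
  have hdeg : (∑ i ∈ Finset.range n, C (c i) * X ^ i : F[X]).degree < n := by
    rw [Finset.sum_range]
    exact degree_sum_fin_lt _
  have hq₀mon : q₀.Monic := monic_X_pow_add hdeg
  have hsplit : q₀.Splits := IsAlgClosed.splits q₀
  have hprod : q₀ = (q₀.roots.map fun r => X - C r).prod := by
    have := hsplit.eq_prod_roots
    rw [hq₀mon.leadingCoeff, C_1, one_mul] at this
    exact this
  set j : F →+* M := (algebraMap K M).comp ι with hj
  have heval : eval₂ j x q₀ = (q₀.roots.map fun r => x - j r).prod := by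
    conv_lhs => rw [hprod]
    rw [← coe_eval₂RingHom, map_multiset_prod, Multiset.map_map]
    congr 1
    refine Multiset.map_congr rfl fun r _ => ?_
    simp
  have hlt : L10_abs K M (eval₂ j x q₀) < 1 := by
    have hqx : eval₂ (algebraMap K M) x q = 0 := by
      rw [← aeval_def, hq, minpoly.aeval]
    have hq' : q = X ^ n + ∑ i ∈ Finset.range n, C (q.coeff i) * X ^ i := by
      conv_lhs => rw [q.as_sum_range_C_mul_X_pow]
      rw [Finset.sum_range_succ, ← hn, hn, hmon.coeff_natDegree, C_1, one_mul, add_comm]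
    have hqx' : x ^ n + ∑ i ∈ Finset.range n, algebraMap K M (q.coeff i) * x ^ i = 0 := by
      rw [← hqx]
      conv_rhs => rw [hq']
      simp [eval₂_finsetSum]
    have hq₀x : eval₂ j x q₀ =
        ∑ i ∈ Finset.range n, algebraMap K M (ι (c i) - q.coeff i) * x ^ i := by
      have h1 : eval₂ j x q₀ = x ^ n + ∑ i ∈ Finset.range n, j (c i) * x ^ i := by
        rw [hq₀]
        simp [eval₂_finsetSum]
      rw [h1, ← sub_zero (x ^ n + ∑ i ∈ Finset.range n, j (c i) * x ^ i), ← hqx',
        add_sub_add_left_eq_sub, ← Finset.sum_sub_distrib]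
      refine Finset.sum_congr rfl fun i _ => ?_
      rw [map_sub, sub_mul]
      rfl
    rw [hq₀x]
    refine L10_sum_lt _ L10_nonarch _ _ fun i _ => ?_
    rw [map_mul, map_pow, L10_ext, norm_sub_rev]
    calc ‖q.coeff i - ι (c i)‖ * L10_abs K M x ^ i ≤ ‖q.coeff i - ι (c i)‖ * 1 := by
          refine mul_le_mul_of_nonneg_left ?_ (norm_nonneg _)
          exact pow_le_one₀ (AbsoluteValue.nonneg _ _) hx
      _ < 1 := by rw [mul_one]; exact hc i
  by_contra hcon
  push Not at hcon
  rw [heval, map_multiset_prod, Multiset.map_map] at hlt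
  refine absurd hlt (not_lt.mpr ?_)
  have hall : ∀ s : Multiset F, 1 ≤ (s.map (⇑(L10_abs K M) ∘ fun r => x - j r)).prod := by
    intro s
    induction s using Multiset.induction_on with
    | empty => rw [Multiset.map_zero, Multiset.prod_zero]
    | cons a s ih =>
      rw [Multiset.map_cons, Multiset.prod_cons]
      exact one_le_mul_of_one_le_of_one_le (hcon a) ih
  exact hall _

end Spectral

section Discrete

variable {K M : Type u} [Field K] [Valued K (WithZero (Multiplicative ℤ))] [CompleteSpace K]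
  [Field M] [Algebra K M] [Algebra.IsAlgebraic K M]

private theorem L10_valued (hR : Valuation.RankOne (Valued.v : Valuation K
      (WithZero (Multiplicative ℤ)))) :
    ∃ v : AbsoluteValue M ℝ,
      (∀ x y, v (x + y) ≤ max (v x) (v y)) ∧
      (∀ x y : K, v (algebraMap K M x) ≤ v (algebraMap K M y) ↔ Valued.v x ≤ Valued.v y) ∧
      (∀ (σ : M ≃ₐ[K] M) (x : M), v (σ x) = v x) ∧
      (∀ (w : M ≃+* M) (φ : K ≃+* K), (∀ x, Valued.v (φ x) = Valued.v x) →
        (∀ x, w (algebraMap K M x) = algebraMap K M (φ x)) → ∀ x, v (w x) = v x) ∧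
      (∀ {F : Type u} [Field F] [IsAlgClosed F] (ι : F →+* K),
        (∀ k : K, Valued.v k ≤ 1 → ∃ c : F, Valued.v (k - ι c) < 1) →
        ∀ x : M, v x ≤ 1 → ∃ c : F, v (x - algebraMap K M (ι c)) < 1) := by
  let _ := hR
  let _ : NontriviallyNormedField K := Valued.toNontriviallyNormedField K _
  have _ : IsUltrametricDist K := Valued.instIsUltrametricDist K _
  refine ⟨L10_abs K M, L10_nonarch, fun x y => ?_, L10_gal, fun w φ hφ hw x => ?_,
    fun ι hres x hx => ?_⟩
  · rw [L10_ext, L10_ext]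
    exact Valued.toNormedField.norm_le_iff
  · refine L10_semilin w φ (fun k => ?_) hw x
    refine le_antisymm ?_ ?_
    · exact Valued.toNormedField.norm_le_iff.mpr (hφ k).le
    · exact Valued.toNormedField.norm_le_iff.mpr (hφ k).ge
  · refine L10_residue ι (fun k hk => ?_) x hx
    obtain ⟨c, hc⟩ := hres k (Valued.toNormedField.norm_le_one_iff.mp hk)
    exact ⟨c, Valued.toNormedField.norm_lt_one_iff.mpr hc⟩

end Discrete

theorem exists_locCtx {F L M : Type u} [Field F] [IsAlgClosed F] [Field L] [Algebra F[X] L]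
    [IsFractionRing F[X] L] (a : F) [Field M] [Algebra ((plc a).adicCompletion L) M]
    [IsAlgClosure ((plc a).adicCompletion L) M] [Algebra F M]
    (hF : ∀ c : F, algebraMap F M c = algebraMap ((plc a).adicCompletion L) M
      (algebraMap F[X] ((plc a).adicCompletion L) (C c))) :
    ∃ v : AbsoluteValue M ℝ,
      LocCtx v a (algebraMap ((plc a).adicCompletion L) M
        (algebraMap F[X] ((plc a).adicCompletion L) X)) ∧
      (∀ x : (plc a).adicCompletion L, x ≠ 0 → ∃ i : ℤ,
        v (algebraMap ((plc a).adicCompletion L) M x) =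
          v (algebraMap ((plc a).adicCompletion L) M
            (algebraMap F[X] ((plc a).adicCompletion L) X) - algebraMap F M a) ^ i) ∧
      (∀ (σ : M ≃ₐ[(plc a).adicCompletion L] M) (x : M), v (σ x) = v x) ∧
      ∀ (w : M ≃+* M) (φ : (plc a).adicCompletion L ≃+* (plc a).adicCompletion L),
        (∀ x, Valued.v (φ x) = Valued.v x) →
        (∀ x, w (algebraMap ((plc a).adicCompletion L) M x) =
          algebraMap ((plc a).adicCompletion L) M (φ x)) → ∀ x, v (w x) = v x := by
  have hRD : (Valued.v : Valuation ((plc a).adicCompletion L)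
      (WithZero (Multiplicative ℤ))).IsRankOneDiscrete := inferInstance
  obtain ⟨v, hna, hle, hgal, hsemi, hres⟩ := L10_valued
    (K := (plc a).adicCompletion L) (M := M)
    (Valuation.IsRankOneDiscrete.rankOne (Valued.v : Valuation ((plc a).adicCompletion L)
      (WithZero (Multiplicative ℤ))) (e := 2) one_lt_two)
  have hlt : ∀ x y : (plc a).adicCompletion L,
      v (algebraMap _ M x) < v (algebraMap _ M y) ↔ Valued.v x < Valued.v y := by
    intro x y
    rw [← not_le, ← not_le, hle]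
  have heq : ∀ x y : (plc a).adicCompletion L, Valued.v x = Valued.v y →
      v (algebraMap _ M x) = v (algebraMap _ M y) := by
    intro x y h
    exact le_antisymm ((hle x y).mpr h.le) ((hle y x).mpr h.ge)
  have hone : v (algebraMap ((plc a).adicCompletion L) M 1) = 1 := by
    rw [map_one, map_one]
  have hsub : algebraMap ((plc a).adicCompletion L) M
        (algebraMap F[X] ((plc a).adicCompletion L) X) - algebraMap F M a =
      algebraMap ((plc a).adicCompletion L) M
        (algebraMap F[X] ((plc a).adicCompletion L) (X - C a)) := by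
    rw [hF, map_sub, map_sub]
  have hval0 : Valued.v (algebraMap F[X] ((plc a).adicCompletion L) (X - C a)) =
      WithZero.exp (-1 : ℤ) := val_X_sub_C L a
  refine ⟨v, ⟨inferInstance, hna, ?_, ?_, ?_, ?_⟩, ?_, hgal, hsemi⟩
  · intro c hc
    rw [hF, ← hone]
    refine heq _ _ ?_
    rw [map_one]
    refine val_eq_one L a ?_
    rw [eval_C]
    exact hc
  · rw [hsub, ← hone, hlt, hval0, map_one]
    rw [← WithZero.exp_zero]
    exact WithZero.exp_lt_exp.mpr (by norm_num)
  · intro h
    rw [← sub_eq_zero, hsub, map_eq_zero] at h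
    rw [h, map_zero] at hval0
    exact WithZero.exp_ne_zero hval0.symm
  · intro x hx
    obtain ⟨c, hc⟩ := hres (F := F) ((algebraMap F[X] ((plc a).adicCompletion L)).comp C)
      (fun k hk => exists_residue L a k hk) x hx
    refine ⟨c, ?_⟩
    rw [hF]
    exact hc
  · intro x hx
    have hx0 : Valued.v x ≠ 0 := (Valuation.ne_zero_iff _).mpr hx
    refine ⟨-(WithZero.log (Valued.v x)), ?_⟩
    rw [hsub, ← map_zpow₀, ← map_zpow₀]
    refine heq _ _ ?_
    rw [map_zpow₀, hval0, ← WithZero.exp_zsmul]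
    simp [WithZero.exp_log hx0]

end Pool.Agent.Lib.MP_89bcae_ag.Sup

end

section

/-!
ROW L04 (120-220 lines). The roots of `g(x) = t` near a point `r` of the residue field.

`near v f r` is the set of the roots `θ` of `f` with `v (θ - r) < 1`.
PROOFS. (5) `∏_θ (X - θ) = g - t` has coefficients of absolute value `≤ 1`; reducing
coefficientwise, `∏_θ (X - res θ) = g - a` in `F[X]` (e.g.: both sides are monic polynomials over the
infinite field `F`; for `c` in `F` the value `g(c) - a` is the residue of `g(c) - t = ∏ (c - θ)`,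
which is `∏ (c - res θ)` (`residue_mul`)), so the multiplicity of `r` in `g - a` is the number of `θ`
with residue `r`.
(7) `aeval x g - t = ∏ (x - θ)` and `v (x - θ) = 1` if the residues of `x` and `θ` are different.
(6) Take `x = r` in (7): if `g(r) = a`, then `∏_{θ near r} v (r - θ) = v (a - t)`. That all the factors
are equal: write `g - a = (X - r)^μ G`, `G(r) ≠ 0`: `t - a = g(θ) - a = (θ - r)^μ G(θ)` and
`v (G(θ)) = 1`.
-/

open Polynomial

open scoped Classical

namespace Pool.Agent.Lib.MP_89bcae_ag.Sup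

universe u

variable {F M : Type u} [Field F] [Field M] [Algebra F M] {v : AbsoluteValue M ℝ} {a : F} {t : M}

/-- The roots of `f` with residue `r`. -/
noncomputable def near (v : AbsoluteValue M ℝ) (f : M[X]) (r : F) : Finset M :=
  (rts f).filter fun θ => v (θ - algebraMap F M r) < 1

variable [IsAlgClosed M]

omit [IsAlgClosed M] in
private lemma LocCtx.L04_sub_lt (h : LocCtx v a t) {x y : M} {c d : F}
    (hc : v (x - algebraMap F M c) < 1) (hd : v (y - algebraMap F M d) < 1) :
    v (x - y - algebraMap F M (c - d)) < 1 := by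
  have h1 : x - y - algebraMap F M (c - d)
      = (x - algebraMap F M c) + (-(y - algebraMap F M d)) := by
    rw [map_sub]; ring
  rw [h1]
  refine (h.nonarch _ _).trans_lt ?_
  rw [v.map_neg]
  exact max_lt hc hd


omit [IsAlgClosed M] in
/-- Roots which are not near `r`. -/
lemma LocCtx.L04_not_near (h : LocCtx v a t) {g : F[X]} (hg : g.Monic)
    (hm : g.natDegree ≠ 0) {r : F} {x θ : M}
    (hx : v (x - algebraMap F M r) < 1) (hθ : aeval θ g = t)
    (hn : ¬ v (θ - algebraMap F M r) < 1) : v (x - θ) = 1 := by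
  obtain ⟨s, hs⟩ := h.residue θ (h.v_root_le hg hm hθ)
  have hrs : r - s ≠ 0 := by
    intro h0
    have : r = s := by linear_combination h0
    rw [this] at hn
    exact hn hs
  exact h.v_eq_one (h.L04_sub_lt hx hs) hrs

omit [IsAlgClosed M] in
private lemma L04_mem_rts {g : F[X]} (hg : g.Monic) (hm : g.natDegree ≠ 0) {d : M}
    (hd : d ≠ 0) {θ : M} : θ ∈ rts (locPoly g t d) ↔ aeval θ g = t := by
  rw [mem_rts (locPoly_ne_zero hg hm hd), eval_locPoly_eq_zero hd]

omit [IsAlgClosed M] in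
private lemma LocCtx.L04_prod (h : LocCtx v a t) (S : Finset M) (w : M → M) (ρ : M → F)
    (hρ : ∀ θ ∈ S, v (w θ - algebraMap F M (ρ θ)) < 1) :
    v (∏ θ ∈ S, w θ - algebraMap F M (∏ θ ∈ S, ρ θ)) < 1 := by
  classical
  induction S using Finset.induction_on with
  | empty => simp
  | insert b S hb ih =>
    rw [Finset.prod_insert hb, Finset.prod_insert hb]
    exact h.residue_mul (hρ b (Finset.mem_insert_self b S))
      (ih fun θ hθ => hρ θ (Finset.mem_insert_of_mem hθ))

/-- (5) -/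
lemma LocCtx.card_near (h : LocCtx v a t) {g : F[X]} (hg : g.Monic) (hm : g.natDegree ≠ 0) {d : M}
    (hd : d ≠ 0) (hs : (locPoly g t d).Separable) (r : F) :
    (near v (locPoly g t d) r).card = (g - C a).rootMultiplicity r := by
  haveI := h.alg
  haveI : Infinite F := IsAlgClosed.instInfinite
  have hex : ∀ θ : M, ∃ c : F, v θ ≤ 1 → v (θ - algebraMap F M c) < 1 := by
    intro θ
    by_cases hθ : v θ ≤ 1
    · obtain ⟨c, hc⟩ := h.residue θ hθ
      exact ⟨c, fun _ => hc⟩
    · exact ⟨0, fun h' => absurd h' hθ⟩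
  choose res hres using hex
  have hres' : ∀ θ ∈ rts (locPoly g t d), v (θ - algebraMap F M (res θ)) < 1 := by
    intro θ hθ
    exact hres θ (h.v_root_le hg hm ((L04_mem_rts hg hm hd).mp hθ))
  have hpoly : g - C a = (((rts (locPoly g t d)).val.map res).map (fun c => X - C c)).prod := by
    apply Polynomial.funext
    intro c
    have h1 := eval_sub_eq_prod hg hm hd hs (algebraMap F M c)
    have h2 : v (aeval (algebraMap F M c) g - t - algebraMap F M (g.eval c - a)) < 1 := by
      apply h.L04_sub_lt _ h.lt_one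
      rw [aeval_algebraMap_apply, Polynomial.aeval_def, Polynomial.eval₂_eq_eval_map,
        Algebra.algebraMap_self, Polynomial.map_id, sub_self, map_zero]
      exact one_pos
    have h3 : v (∏ θ ∈ rts (locPoly g t d), (algebraMap F M c - θ)
        - algebraMap F M (∏ θ ∈ rts (locPoly g t d), (c - res θ))) < 1 := by
      apply h.L04_prod
      intro θ hθ
      apply h.L04_sub_lt _ (hres' θ hθ)
      rw [sub_self, map_zero]
      exact one_pos
    rw [← h1] at h3
    have h4 := h.residue_unique h2 h3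
    rw [eval_sub, eval_C, h4, Multiset.map_map, Polynomial.eval_multiset_prod, Multiset.map_map]
    simp only [Function.comp_def, eval_sub, eval_X, eval_C]
    rfl
  rw [← Polynomial.count_roots, hpoly, Polynomial.roots_multiset_prod_X_sub_C,
    Multiset.count_map, near, Finset.card_def, Finset.filter_val]
  congr 1
  apply Multiset.filter_congr
  intro θ hθ
  constructor
  · intro h1
    exact h.residue_unique h1 (hres' θ hθ)
  · intro h1
    rw [h1]
    exact hres' θ hθ

/-- (6) -/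
lemma LocCtx.v_sub_pow (h : LocCtx v a t) {g : F[X]} (hg : g.Monic) (hm : g.natDegree ≠ 0) {d : M}
    (hd : d ≠ 0) (hs : (locPoly g t d).Separable) {r : F} {θ : M}
    (hθ : θ ∈ near v (locPoly g t d) r) :
    v (θ - algebraMap F M r) ^ (near v (locPoly g t d) r).card = v (t - algebraMap F M a) := by
  rw [h.card_near hg hm hd hs r]
  rw [near, Finset.mem_filter] at hθ
  obtain ⟨hθ1, hθ2⟩ := hθ
  have hθ3 := (L04_mem_rts hg hm hd).mp hθ1
  have hne : g - C a ≠ 0 := by
    intro h0
    apply hm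
    have : g = C a := by linear_combination h0
    rw [this, natDegree_C]
  obtain ⟨q, hq, hq'⟩ := Polynomial.exists_eq_pow_rootMultiplicity_mul_and_not_dvd (g - C a) hne r
  have hqr : q.eval r ≠ 0 := by
    intro h0
    exact hq' (Polynomial.dvd_iff_isRoot.mpr h0)
  have hv : v (aeval θ q) = 1 := h.v_eq_one (h.residue_eval hθ2 q) hqr
  have h1 : t - algebraMap F M a = aeval θ (g - C a) := by
    rw [map_sub, hθ3, aeval_C]
  have h2 : aeval θ (g - C a)
      = (θ - algebraMap F M r) ^ rootMultiplicity r (g - C a) * aeval θ q := by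
    conv_lhs => rw [hq]
    rw [map_mul, map_pow, map_sub (aeval θ) X (C r), aeval_X, aeval_C]
  rw [h1, h2, map_mul, map_pow, hv, mul_one]

/-- (7) -/
lemma LocCtx.prod_near (h : LocCtx v a t) {g : F[X]} (hg : g.Monic) (hm : g.natDegree ≠ 0) {d : M}
    (hd : d ≠ 0) (hs : (locPoly g t d).Separable) {r : F} {x : M}
    (hx : v (x - algebraMap F M r) < 1) :
    v (aeval x g - t) = ∏ θ ∈ near v (locPoly g t d) r, v (x - θ) := by
  rw [eval_sub_eq_prod hg hm hd hs x, map_prod]
  symm
  apply Finset.prod_subset (Finset.filter_subset _ _)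
  intro θ hθ hn
  refine h.L04_not_near hg hm hx ((L04_mem_rts hg hm hd).mp hθ) ?_
  intro h1
  exact hn (Finset.mem_filter.mpr ⟨hθ, h1⟩)


/-- (9) -/
lemma LocCtx.v_derivative (h : LocCtx v a t) {g : F[X]} (hg : g.Monic) (hm : g.natDegree ≠ 0)
    {d : M} (hd : d ≠ 0) (hs : (locPoly g t d).Separable) {r : F} {θ : M}
    (hθ : θ ∈ near v (locPoly g t d) r) :
    v ((derivative (locPoly g t d)).eval θ) =
      (v d)⁻¹ * ∏ θ' ∈ (near v (locPoly g t d) r).erase θ, v (θ - θ') := by
  have hθ' := hθ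
  rw [near, Finset.mem_filter] at hθ'
  obtain ⟨hθ1, hθ2⟩ := hθ'
  rw [derivative_locPoly_eval hg hm hd hs hθ1, map_mul, map_prod, map_inv₀]
  congr 1
  symm
  apply Finset.prod_subset (Finset.erase_subset_erase _ (Finset.filter_subset _ _))
  intro θ' hθ' hn
  rw [Finset.mem_erase] at hθ'
  refine h.L04_not_near hg hm hθ2 ((L04_mem_rts hg hm hd).mp hθ'.2) ?_
  intro h1
  exact hn (Finset.mem_erase.mpr ⟨hθ'.1, Finset.mem_filter.mpr ⟨hθ'.2, h1⟩⟩)

end Pool.Agent.Lib.MP_89bcae_ag.Sup

end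

section

/-!
ROW L11 (120-220 lines). The group `Γ = Aut(M/K)`: fixed elements, and the roots of `g(x) = t` with the
same residue are conjugate.

PROOFS. `galSym` is clear: `σ` fixes the coefficients of `f`.
`LocGrp`: the fixed elements of `Aut(M/K)`, `M` an algebraic closure of `K`, are purely inseparable
over `K`: if `x` is fixed, all roots of its minimal polynomial are conjugates of `x` (normality), so
equal to `x`, so `x ^ p^s ∈ K` for some `s`, where `p` is the characteristic exponent (Mathlib: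
`IsPurelyInseparable`, `perfectClosure`, `minpoly.natSepDegree_eq_one_iff...`,
`mem_perfectClosure_iff`). So `v(x)^{p^s}` is an integral power of `ϖ = v (t - a)`.
Conjugacy: let `θ`, `θ'` be roots near `r`, `μ` the number of the roots near `r`, `q` the minimal
polynomial of `θ` over `K`; it divides `g(x) - t` (coefficients in `K`), so it is separable and all its
roots in `M` are conjugates of `θ` under `Aut(M/K)` (`IsConjRoot`, `isConjRoot_iff_exists_algEquiv`), so
they are near `r` (`σ` preserves `v` and fixes `r`). By `v_sub_pow`, `v (q(r)) = ∏ v (r - θ_i)` satisfies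
`v (q(r))^μ = ϖ^{deg q}`, and `q(r)` is a nonzero element of `K` (`r` comes from `K`), so
`v (q(r)) = ϖ^i`, `i μ = deg q ≤ μ`, `i ≥ 1` (as `deg q ≥ 1`): `deg q = μ` and all the `μ` roots near
`r` are roots of `q`.
-/

open Polynomial

open scoped Classical

namespace Pool.Agent.Lib.MP_89bcae_ag.Sup

universe u

variable {F K M : Type u} [Field F] [Field K] [Field M] [Algebra F M] [Algebra K M]

/-- The automorphisms of `M` over `K` fix the coefficients of a polynomial over `K`. -/
def galSym {f₀ : K[X]} {f : M[X]} (hf : f₀.map (algebraMap K M) = f) :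
    (M ≃ₐ[K] M) →* Sym f where
  toFun σ := ⟨(σ : M ≃+* M), by
    rw [mem_Sym, ← hf, Polynomial.map_map]
    congr 1
    ext x
    exact σ.commutes x⟩
  map_one' := by
    apply Subtype.ext
    rfl
  map_mul' σ τ := by
    apply Subtype.ext
    rfl

lemma galSym_apply {f₀ : K[X]} {f : M[X]} (hf : f₀.map (algebraMap K M) = f) (σ : M ≃ₐ[K] M)
    (x : M) : ((galSym hf σ : Sym f) : M ≃+* M) x = σ x := rfl

private lemma L11_pow_mem [IsAlgClosure K M] {x : M} (hx : ∀ σ : M ≃ₐ[K] M, σ x = x) :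
    ∃ n : ℕ, x ^ (ringExpChar K) ^ n ∈ (algebraMap K M).range := by
  have hN : Normal K M := IsAlgClosure.normal K M
  have hA : IsAlgClosed M := IsAlgClosure.isAlgClosed K
  have hint : IsIntegral K x := (IsAlgClosure.isAlgebraic.isAlgebraic x).isIntegral
  rw [← minpoly.natSepDegree_eq_one_iff_pow_mem (ringExpChar K),
    natSepDegree_eq_of_isAlgClosed M, Finset.card_eq_one]
  refine ⟨x, ?_⟩
  ext y
  rw [Multiset.mem_toFinset, Finset.mem_singleton, ← isConjRoot_iff_mem_minpoly_aroots hint]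
  constructor
  · intro h
    obtain ⟨σ, hσ⟩ := h.exists_algEquiv
    have h2 := hx σ.symm
    rw [← hσ, AlgEquiv.symm_apply_apply] at h2
    rw [h2, hσ]
  · rintro rfl
    exact IsConjRoot.refl

variable {v : AbsoluteValue M ℝ} {a : F} {t : M} [IsAlgClosure K M]

theorem LocCtx.locGrp (h : LocCtx v a t) {f₀ : K[X]} {f : M[X]}
    (hf : f₀.map (algebraMap K M) = f) (hinv : ∀ (σ : M ≃ₐ[K] M) x, v (σ x) = v x)
    (hval : ∀ x : K, x ≠ 0 → ∃ i : ℤ, v (algebraMap K M x) = v (t - algebraMap F M a) ^ i)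
    (hF : ∀ c : F, ∃ x : K, algebraMap K M x = algebraMap F M c)
    (ht : ∃ x : K, algebraMap K M x = t) :
    LocGrp (ringExpChar K) F v t (v (t - algebraMap F M a)) (galSym hf).range where
  pos := v.pos (sub_ne_zero.2 h.ne)
  lt_one := h.lt_one
  inv := by
    rintro _ ⟨τ, rfl⟩ x
    exact hinv τ x
  fix := by
    rintro _ ⟨τ, rfl⟩ c
    obtain ⟨x, hx⟩ := hF c
    rw [galSym_apply, ← hx, τ.commutes]
  fixt := by
    rintro _ ⟨τ, rfl⟩
    obtain ⟨x, hx⟩ := ht
    rw [galSym_apply, ← hx, τ.commutes]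
  disc := by
    intro x hx0 hx
    obtain ⟨n, y, hy⟩ := L11_pow_mem (K := K) (x := x) (fun σ => by
      have := hx (galSym hf σ) ⟨σ, rfl⟩
      rwa [galSym_apply] at this)
    have hy0 : y ≠ 0 := by
      rintro rfl
      rw [map_zero] at hy
      exact pow_ne_zero _ hx0 hy.symm
    obtain ⟨i, hi⟩ := hval y hy0
    refine ⟨n, i, ?_⟩
    rw [← map_pow, ← hy, hi]

theorem LocCtx.exists_conj_near (h : LocCtx v a t) {g : F[X]} (hg : g.Monic)
    (hm : g.natDegree ≠ 0) {d : M} (hd : d ≠ 0) (hs : (locPoly g t d).Separable)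
    (hinv : ∀ (σ : M ≃ₐ[K] M) x, v (σ x) = v x)
    (hval : ∀ x : K, x ≠ 0 → ∃ i : ℤ, v (algebraMap K M x) = v (t - algebraMap F M a) ^ i)
    (hF : ∀ c : F, ∃ x : K, algebraMap K M x = algebraMap F M c)
    (ht : ∃ x : K, algebraMap K M x = t) {r : F} {θ θ' : M}
    (hθ : θ ∈ near v (locPoly g t d) r) (hθ' : θ' ∈ near v (locPoly g t d) r) :
    ∃ σ : M ≃ₐ[K] M, σ θ = θ' := by
  have hN : Normal K M := IsAlgClosure.normal K M
  have hA : IsAlgClosed M := IsAlgClosure.isAlgClosed K
  have hint : IsIntegral K θ := (IsAlgClosure.isAlgebraic.isAlgebraic θ).isIntegral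
  have hf0 : locPoly g t d ≠ 0 := locPoly_ne_zero hg hm hd
  have hϖ0 : 0 < v (t - algebraMap F M a) := v.pos (sub_ne_zero.2 h.ne)
  obtain ⟨ϖ, hϖ⟩ : ∃ ϖ, ϖ = v (t - algebraMap F M a) := ⟨_, rfl⟩
  have hmemN : ∀ {x : M}, x ∈ near v (locPoly g t d) r ↔
      (locPoly g t d).eval x = 0 ∧ v (x - algebraMap F M r) < 1 := by
    intro x
    rw [near, Finset.mem_filter, mem_rts hf0]
  -- the polynomial over `K`
  have hlift : g.map (algebraMap F M) - C t ∈ Polynomial.lifts (algebraMap K M) := by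
    rw [Polynomial.lifts_iff_coeff_lifts]
    intro n
    rw [coeff_sub, coeff_map, coeff_C]
    obtain ⟨x, hx⟩ := hF (g.coeff n)
    obtain ⟨y, hy⟩ := ht
    split_ifs
    · exact ⟨x - y, by rw [map_sub, hx, hy]⟩
    · exact ⟨x, by rw [hx, sub_zero]⟩
  rw [Polynomial.mem_lifts] at hlift
  obtain ⟨P, hP⟩ := hlift
  have hevP : ∀ x : M, aeval x P = aeval x g - t := by
    intro x
    rw [aeval_def, ← eval_map, hP, eval_sub, eval_map, ← aeval_def, eval_C]
  have hqP : minpoly K θ ∣ P := by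
    refine minpoly.dvd K θ ?_
    rw [hevP, sub_eq_zero]
    exact (eval_locPoly_eq_zero hd).1 (hmemN.1 hθ).1
  have hqf : (minpoly K θ).map (algebraMap K M) ∣ locPoly g t d := by
    have h1 := Polynomial.map_dvd (algebraMap K M) hqP
    rw [hP] at h1
    exact h1.mul_left _
  have hqs : ((minpoly K θ).map (algebraMap K M)).Separable := hs.of_dvd hqf
  have hq0 : (minpoly K θ).map (algebraMap K M) ≠ 0 := hqs.ne_zero
  have hqm : ((minpoly K θ).map (algebraMap K M)).Monic := (minpoly.monic hint).map _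
  obtain ⟨R, hR⟩ : ∃ R, R = ((minpoly K θ).map (algebraMap K M)).roots.toFinset := ⟨_, rfl⟩
  have hRm : ∀ {x : M}, x ∈ R ↔ IsConjRoot K θ x := by
    intro x
    rw [hR, Multiset.mem_toFinset, isConjRoot_iff_mem_minpoly_aroots hint]
  have hRc : R.card = (minpoly K θ).natDegree := by
    rw [hR, Multiset.toFinset_card_of_nodup (nodup_roots hqs), ← natDegree_map (algebraMap K M)]
    exact (splits_iff_card_roots.1 (IsAlgClosed.splits _))
  have hRN : R ⊆ near v (locPoly g t d) r := by
    intro x hx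
    rw [hRm] at hx
    have hx1 : (locPoly g t d).eval x = 0 := by
      have h1 : ((minpoly K θ).map (algebraMap K M)).eval x = 0 := by
        rw [eval_map, ← aeval_def]
        exact hx.aeval_eq_zero
      obtain ⟨k, hk⟩ := hqf
      rw [hk, eval_mul, h1, zero_mul]
    obtain ⟨σ, hσ⟩ := hx.exists_algEquiv
    obtain ⟨y, hy⟩ := hF r
    refine hmemN.2 ⟨hx1, ?_⟩
    rw [← hinv σ, map_sub, hσ, ← hy, σ.commutes, hy]
    exact (hmemN.1 hθ).2
  -- the value of `q(r)`
  obtain ⟨y, hy⟩ := hF r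
  have hqr : algebraMap K M ((minpoly K θ).eval y) = ∏ x ∈ R, (algebraMap F M r - x) := by
    have h1 : (minpoly K θ).map (algebraMap K M) = ∏ x ∈ R, (X - C x) := by
      have h2 : ((minpoly K θ).map (algebraMap K M)) =
          (((minpoly K θ).map (algebraMap K M)).roots.map (fun x => X - C x)).prod :=
        (IsAlgClosed.splits _).eq_prod_roots_of_monic hqm
      rw [hR, Finset.prod_eq_multiset_prod, Multiset.toFinset_val,
        Multiset.dedup_eq_self.2 (nodup_roots hqs)]
      exact h2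
    have h3 : algebraMap K M ((minpoly K θ).eval y) =
        ((minpoly K θ).map (algebraMap K M)).eval (algebraMap F M r) := by
      rw [← hy, eval_map, eval₂_at_apply]
    rw [h3, h1, eval_prod]
    simp only [eval_sub, eval_X, eval_C]
  have hpow : v (algebraMap K M ((minpoly K θ).eval y)) ^ (near v (locPoly g t d) r).card =
      ϖ ^ (minpoly K θ).natDegree := by
    rw [hqr, map_prod, ← Finset.prod_pow, ← hRc]
    rw [Finset.prod_congr rfl (g := fun _ => ϖ), Finset.prod_const]
    intro x hx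
    rw [v.map_sub, hϖ]
    exact h.v_sub_pow hg hm hd hs (hRN hx)
  have hϖ0' : 0 < ϖ := hϖ ▸ hϖ0
  have hϖ1 : ϖ < 1 := hϖ ▸ h.lt_one
  have hμ : 0 < (near v (locPoly g t d) r).card := Finset.card_pos.2 ⟨θ, hθ⟩
  have hne : (minpoly K θ).eval y ≠ 0 := by
    intro h0
    rw [h0, map_zero, map_zero, zero_pow hμ.ne'] at hpow
    exact (pow_pos hϖ0' _).ne hpow
  obtain ⟨i, hi⟩ := hval _ hne
  rw [hi, ← hϖ, ← zpow_natCast, ← zpow_mul, ← zpow_natCast] at hpow
  have hinj := zpow_right_injective₀ hϖ0' hϖ1.ne hpow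
  have hdeg : 0 < (minpoly K θ).natDegree := minpoly.natDegree_pos hint
  have hle : R.card ≤ (near v (locPoly g t d) r).card := Finset.card_le_card hRN
  have hi1 : 1 ≤ i := by
    by_contra hcon
    push Not at hcon
    have h1 : i * ((near v (locPoly g t d) r).card : ℤ) ≤ 0 :=
      mul_nonpos_of_nonpos_of_nonneg (by linarith) (by positivity)
    rw [hinj] at h1
    have : (0 : ℤ) < (minpoly K θ).natDegree := by exact_mod_cast hdeg
    linarith
  have hge : (near v (locPoly g t d) r).card ≤ R.card := by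
    rw [hRc]
    have h1 : ((near v (locPoly g t d) r).card : ℤ) ≤ i * (near v (locPoly g t d) r).card :=
      le_mul_of_one_le_left (by positivity) hi1
    rw [hinj] at h1
    exact_mod_cast h1
  have hReq : R = near v (locPoly g t d) r := Finset.eq_of_subset_of_card_le hRN hge
  rw [← hReq, hRm] at hθ'
  exact hθ'.symm.exists_algEquiv

end Pool.Agent.Lib.MP_89bcae_ag.Sup

end
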