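import Mathlib
import Pool.Agent.Lib.MP_89bcae_ag.Tk.K006
import Pool.Agent.Lib.MP_89bcae_ag.Tk.K017
import Pool.Agent.Lib.MP_89bcae_ag.Tk.K018
import Pool.Agent.Lib.MP_89bcae_ag.Tk.K000

set_option linter.all false
attribute [local instance 100000] Pool.Agent.Lib.MP_89bcae_ag.Brt.tffFields
attribute [local instance 100000] Pool.Agent.Lib.MP_89bcae_ag.Wt.ifrNF Pool.Agent.Lib.MP_89bcae_ag.Wt.iddNF

namespace Pool.Agent.Lib.MP_89bcae_ag.Sup
end Pool.Agent.Lib.MP_89bcae_ag.Sup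

section

/-!
ROW L01 (60-120 lines). Elementary lemmas on `Val p ϖ x : ∃ s i, x ^ p ^ s = ϖ ^ i` (positive reals,
`0 < ϖ < 1`, `p ≥ 1`; `p = 1` is allowed).

PROOFS. Raise to powers of `p` to have a common exponent `s`. For `Val.of_pow`: `x ^ p^s = ϖ ^ i`,
`(x ^ m) ^ p^r = ϖ ^ (ℓ j)`; with common `s`: `ϖ ^ (m i) = ϖ ^ (ℓ j)`, so `m i = ℓ j`
(`ϖ ≠ 1`, positive), and `ℓ ∣ i` as `ℓ` and `m` are coprime. `Val.root`: `x ^ ℓ` with
`(x ^ ℓ) ^ p^s = ϖ ^ (ℓ i)` gives `x ^ p^s = ϖ ^ i` by injectivity of `ℓ`-th powers of positive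
reals. `Val.pow_dvd`: `ϖ ^ (n p^s) = ϖ ^ (ℓ i)`, `n p ^ s = ℓ i`, `ℓ` coprime to `p`.
-/

open Polynomial

open scoped Classical

namespace Pool.Agent.Lib.MP_89bcae_ag.Sup

variable {p : ℕ} {ϖ : ℝ}

private lemma L01.npow (x : ℝ) (i : ℤ) (n : ℕ) : (x ^ i) ^ n = x ^ (i * n) := by
  rw [zpow_mul, zpow_natCast]

private lemma L01.npow' (x : ℝ) (i : ℤ) (n : ℕ) : (x ^ n) ^ i = x ^ ((n : ℤ) * i) := by
  rw [zpow_mul, zpow_natCast]

private lemma L01.zmul (x : ℝ) (a b : ℤ) : ∃ c : ℤ, x ^ a * x ^ b = x ^ c := by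
  by_cases hx : x = 0
  · subst hx
    by_cases ha : a = 0
    · exact ⟨b, by rw [ha, zpow_zero, one_mul]⟩
    · refine ⟨a, ?_⟩
      rw [zero_zpow a ha, zero_mul]
  · exact ⟨a + b, (zpow_add₀ hx a b).symm⟩

private lemma L01.zinj {ϖ : ℝ} (h0 : 0 < ϖ) (h1 : ϖ < 1) {a b : ℤ} (h : ϖ ^ a = ϖ ^ b) : a = b :=
  zpow_right_injective₀ h0 h1.ne h

lemma Val.one (p : ℕ) (ϖ : ℝ) : Val p ϖ 1 := ⟨0, 0, by simp⟩

lemma Val.mul {x y : ℝ} (hx : Val p ϖ x) (hy : Val p ϖ y) : Val p ϖ (x * y) := by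
  obtain ⟨s, i, hs⟩ := hx
  obtain ⟨r, j, hr⟩ := hy
  obtain ⟨c, hc⟩ := L01.zmul ϖ (i * ((p ^ r : ℕ) : ℤ)) (j * ((p ^ s : ℕ) : ℤ))
  refine ⟨s + r, c, ?_⟩
  rw [mul_pow, ← hc, ← L01.npow, ← L01.npow, ← hs, ← hr, ← pow_mul, ← pow_mul, ← pow_add,
    ← pow_add, add_comm r s]

lemma Val.inv {x : ℝ} (hx : Val p ϖ x) : Val p ϖ x⁻¹ := by
  obtain ⟨s, i, hs⟩ := hx
  exact ⟨s, -i, by rw [inv_pow, hs, zpow_neg]⟩

lemma Val.pow {x : ℝ} (hx : Val p ϖ x) (n : ℕ) : Val p ϖ (x ^ n) := by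
  obtain ⟨s, i, hs⟩ := hx
  exact ⟨s, i * n, by rw [pow_right_comm, hs, L01.npow]⟩

lemma Val.zpow {x : ℝ} (hx : Val p ϖ x) (n : ℤ) : Val p ϖ (x ^ n) := by
  obtain ⟨s, i, hs⟩ := hx
  refine ⟨s, i * n, ?_⟩
  rw [L01.npow, mul_comm n, zpow_mul, zpow_natCast, hs, zpow_mul]

lemma Val.prod {ι : Type*} (s : Finset ι) (x : ι → ℝ) (hx : ∀ i ∈ s, Val p ϖ (x i)) :
    Val p ϖ (∏ i ∈ s, x i) :=
  Finset.prod_induction x (Val p ϖ) (fun _ _ ha hb => ha.mul hb) (Val.one p ϖ) hx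


lemma Val.pow_self {x : ℝ} (ℓ : ℕ) (hx : Val p ϖ x) : Val p (ϖ ^ ℓ) (x ^ ℓ) := by
  obtain ⟨s, i, hs⟩ := hx
  exact ⟨s, i, by rw [pow_right_comm, hs, L01.npow, L01.npow', mul_comm]⟩

lemma Val.of_pow {x : ℝ} {ℓ m : ℕ} (h0 : 0 < ϖ) (h1 : ϖ < 1) (hm : m.Coprime ℓ) (hx0 : 0 < x)
    (hx : Val p ϖ x) (h : Val p (ϖ ^ ℓ) (x ^ m)) : Val p (ϖ ^ ℓ) x := by
  obtain ⟨s, i, hs⟩ := hx
  obtain ⟨r, j, hr⟩ := h
  have e1 : x ^ p ^ (s + r) = ϖ ^ (i * ((p ^ r : ℕ) : ℤ)) := by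
    rw [pow_add, pow_mul, hs, L01.npow]
  have e2 : (x ^ p ^ (s + r)) ^ m = ϖ ^ ((ℓ : ℤ) * (j * ((p ^ s : ℕ) : ℤ))) := by
    rw [pow_right_comm, add_comm s r, pow_add, pow_mul, hr, L01.npow, L01.npow']
  rw [e1, L01.npow] at e2
  have e3 := L01.zinj h0 h1 e2
  have hd : (ℓ : ℤ) ∣ (i * ((p ^ r : ℕ) : ℤ)) * (m : ℤ) := ⟨_, e3⟩
  have hco : IsCoprime (ℓ : ℤ) (m : ℤ) := (Nat.isCoprime_iff_coprime.2 hm).symm
  obtain ⟨k, hk⟩ := hco.dvd_of_dvd_mul_right hd
  exact ⟨s + r, k, by rw [e1, hk, L01.npow']⟩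

lemma Val.root {x : ℝ} {ℓ : ℕ} (hℓ : ℓ ≠ 0) (h0 : 0 < ϖ) (hx0 : 0 < x)
    (h : Val p (ϖ ^ ℓ) (x ^ ℓ)) : Val p ϖ x := by
  obtain ⟨s, i, hs⟩ := h
  refine ⟨s, i, ?_⟩
  rw [pow_right_comm, L01.npow', mul_comm, ← L01.npow] at hs
  exact (pow_left_inj₀ (pow_pos hx0 _).le (zpow_pos h0 _).le hℓ).1 hs

lemma Val.dvd_of_zpow {ℓ : ℕ} (hp : p.Coprime ℓ) (h0 : 0 < ϖ) (h1 : ϖ < 1) (n : ℤ)
    (h : Val p (ϖ ^ ℓ) (ϖ ^ n)) : (ℓ : ℤ) ∣ n := by
  obtain ⟨s, i, hs⟩ := h
  rw [L01.npow, L01.npow'] at hs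
  have e := L01.zinj h0 h1 hs
  have hco : IsCoprime (ℓ : ℤ) ((p ^ s : ℕ) : ℤ) :=
    (Nat.isCoprime_iff_coprime.2 (Nat.Coprime.pow_left s hp)).symm
  exact hco.dvd_of_dvd_mul_right ⟨_, e⟩

end Pool.Agent.Lib.MP_89bcae_ag.Sup

end

section

/-!
ROW R20 (100-200 lines). A class fixed by a set of automorphisms contains a divisor fixed by them.

PROOF. Every class contains an effective divisor: `-[P] = ∑_{0<i<ℓ} [P.rot^i]` by
`cl (div (x - P.x)) = 0` and `div_xs`, so negative coefficients can be replaced by positive ones.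
Let `D` be an effective divisor of minimal degree (`dg`) in the class. It is the only one: let `D'`
be another effective divisor of the same degree in the class, `D - D' = div h` (R08). Then
`dg (div h) = 0`, so by R13 there is a constant `c` with `h = c`, whence `D = D'`, or
`w = h - c ≠ 0` with `dg (div w) < 0`; then `D' + div w` is effective: `ord_P w ≥ min (ord_P h, 0)`
(`ord_add` with `u = h`, `v = -c`; if `c = 0` then `w = h`) and
`ord_P h = D(P) - D'(P) ≥ -D'(P)`, `0 ≥ -D'(P)`; it is in the same class and has smaller degree: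
contradiction. For `σ` in `Γ`: `D.mapDomain (Pt.sym σ)` is effective of the same degree, and its
class is `symJ σ x = x`, so it is equal to `D`.
-/

open Polynomial IsDedekindDomain

open scoped Classical

namespace Pool.Agent.Lib.MP_89bcae_ag.Sup

universe u

variable {ℓ : ℕ} {E : Type u} [Field E] {f : E[X]} [hG : IsGood ℓ f]

omit hG in
lemma r20_dg_add (D D' : Pt ℓ f →₀ ℤ) : dg (D + D') = dg D + dg D' :=
  Finsupp.sum_add_index' (fun _ => rfl) fun _ _ _ => rfl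

omit hG in
lemma r20_dg_nonneg (D : Pt ℓ f →₀ ℤ) (hD : ∀ P, 0 ≤ D P) : 0 ≤ dg D :=
  Finset.sum_nonneg fun P _ => hD P

omit hG in
lemma r20_mapDomain_nonneg (D : Pt ℓ f →₀ ℤ) (hD : ∀ P, 0 ≤ D P) (g : Pt ℓ f → Pt ℓ f) :
    ∀ P, 0 ≤ D.mapDomain g P := by
  intro P
  rw [Finsupp.mapDomain, Finsupp.sum_apply]
  refine Finset.sum_nonneg fun Q _ => ?_
  change 0 ≤ (Finsupp.single (g Q) (D Q) : Pt ℓ f →₀ ℤ) P
  rw [Finsupp.single_apply]
  split_ifs
  · exact hD Q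
  · exact le_rfl

omit hG in
lemma r20_dg_mapDomain (D : Pt ℓ f →₀ ℤ) (g : Pt ℓ f → Pt ℓ f) : dg (D.mapDomain g) = dg D :=
  Finsupp.sum_mapDomain_index (fun _ => rfl) fun _ _ _ => rfl

lemma r20_exists_effective (ζ : E) (hζ : IsPrimitiveRoot ζ ℓ) (D : Pt ℓ f →₀ ℤ) :
    ∃ D' : Pt ℓ f →₀ ℤ, (∀ P, 0 ≤ D' P) ∧ cl D' = cl D := by
  induction D using Finsupp.induction_linear with
  | zero => exact ⟨0, fun _ => le_rfl, rfl⟩
  | add D₁ D₂ h₁ h₂ =>
    obtain ⟨D₁', h₁, h₁'⟩ := h₁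
    obtain ⟨D₂', h₂, h₂'⟩ := h₂
    refine ⟨D₁' + D₂', fun P => add_nonneg (h₁ P) (h₂ P), ?_⟩
    rw [map_add, map_add, h₁', h₂']
  | single P n =>
    rcases le_or_gt 0 n with hn | hn
    · refine ⟨Finsupp.single P n, fun Q => ?_, rfl⟩
      rw [Finsupp.single_apply]
      split_ifs
      · exact hn
      · exact le_rfl
    · refine ⟨Finsupp.single P n + (-n) • div (xs P.x : (Fn ℓ f)ˣ), fun Q => ?_, ?_⟩
      · have hx : (Finsupp.single P 1 : Pt ℓ f →₀ ℤ) Q ≤ div (xs P.x : (Fn ℓ f)ˣ) Q := by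
          rw [div_xs ζ hζ P, Finsupp.finsetSum_apply]
          have h0 : 0 ∈ Finset.range ℓ := Finset.mem_range.2 hG.prime.pos
          refine Finset.single_le_sum (f := fun i =>
            (Finsupp.single ((Pt.rot ζ hζ.pow_eq_one)^[i] P) 1 : Pt ℓ f →₀ ℤ) Q)
            (fun i _ => ?_) h0
          rw [Finsupp.single_apply]
          split_ifs <;> norm_num
        rw [Finsupp.add_apply, Finsupp.smul_apply, smul_eq_mul]
        have hs : (Finsupp.single P n : Pt ℓ f →₀ ℤ) Q =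
            n * (Finsupp.single P 1 : Pt ℓ f →₀ ℤ) Q := by
          rw [Finsupp.single_apply, Finsupp.single_apply]
          split_ifs <;> simp
        rw [hs]
        nlinarith
      · rw [map_add, map_zsmul, cl_div, smul_zero, add_zero]

lemma r20_unique (ζ : E) (hζ : IsPrimitiveRoot ζ ℓ) (D D' : Pt ℓ f →₀ ℤ)
    (h : ∀ P, 0 ≤ D P) (h' : ∀ P, 0 ≤ D' P) (hc : cl D = cl D') (hd : dg D = dg D')
    (hmin : ∀ D'' : Pt ℓ f →₀ ℤ, (∀ P, 0 ≤ D'' P) → cl D'' = cl D' → dg D' ≤ dg D'') :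
    D = D' := by
  obtain ⟨u, hu⟩ := exists_div_of_cl_eq_zero (D - D') (by rw [map_sub, hc, sub_self])
  have hdg : dg (div u) = 0 := by
    have := r20_dg_add (D - D') D'
    rw [sub_add_cancel, hd] at this
    rw [hu]
    linarith
  have hord : ∀ P, ord P u = D P - D' P := fun P => by
    rw [← div_apply, hu, Finsupp.sub_apply]
  obtain ⟨c, hc' | ⟨w, hw, hwd⟩⟩ := exists_const_of_dg_eq_zero ζ hζ u hdg
  · have hc0 : c ≠ 0 := by
      rintro rfl
      exact u.ne_zero (by rw [hc', map_zero])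
    have hu' : u = cstU (Units.mk0 c hc0) := Units.ext hc'
    rw [hu', div_cstU] at hu
    exact (sub_eq_zero.1 hu.symm)
  · exfalso
    have heff : ∀ P, 0 ≤ (D' + div w) P := by
      intro P
      rw [Finsupp.add_apply, div_apply]
      by_cases hc0 : c = 0
      · have hwu : w = u := Units.ext (by rw [hw, hc0, map_zero, sub_zero])
        rw [hwu, hord]
        linarith [h P]
      · have := ord_add P u (cstU (Units.mk0 (-c) (neg_ne_zero.2 hc0))) w (by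
          rw [hw, sub_eq_add_neg, ← map_neg]
          rfl)
        rw [ord_cstU, hord] at this
        rcases min_le_iff.1 this with h1 | h1
        · linarith [h P]
        · linarith [h' P]
    have h1 := hmin (D' + div w) heff (by rw [map_add, cl_div, add_zero])
    rw [r20_dg_add] at h1
    linarith

lemma exists_stable (ζ : E) (hζ : IsPrimitiveRoot ζ ℓ) (Γ : Set (Sym f)) (x : Jac ℓ f)
    (hx : ∀ σ ∈ Γ, symJ σ x = x) :
    ∃ D : Pt ℓ f →₀ ℤ, cl D = x ∧ ∀ σ ∈ Γ, D.mapDomain (Pt.sym σ) = D := by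
  obtain ⟨D₀, hD₀⟩ := cl_surjective x
  have hex : ∃ n : ℕ, ∃ D : Pt ℓ f →₀ ℤ, (∀ P, 0 ≤ D P) ∧ cl D = x ∧ dg D = n := by
    obtain ⟨D, h1, h2⟩ := r20_exists_effective ζ hζ D₀
    exact ⟨(dg D).toNat, D, h1, h2.trans hD₀, (Int.toNat_of_nonneg (r20_dg_nonneg D h1)).symm⟩
  obtain ⟨D, h1, h2, h3⟩ := Nat.find_spec hex
  refine ⟨D, h2, fun σ hσ => ?_⟩
  refine r20_unique ζ hζ _ _ (r20_mapDomain_nonneg D h1 _) h1 ?_ (r20_dg_mapDomain _ _) ?_
  · rw [← symJ_cl, h2, hx σ hσ]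
  · intro D'' h1'' h2''
    have := Nat.find_min' hex ⟨D'', h1'', h2''.trans h2,
      (Int.toNat_of_nonneg (r20_dg_nonneg D'' h1'')).symm⟩
    have h0 := r20_dg_nonneg D'' h1''
    omega

end Pool.Agent.Lib.MP_89bcae_ag.Sup

end

section

/-!
# Kummer characters; local fields with algebraically closed residue field
-/

open Polynomial IsDedekindDomain

open scoped Classical

namespace Pool.Agent.Lib.MP_89bcae_ag.Bra

open Pool.Agent.Lib.MP_89bcae_ag.Sup

/-- `χ g`, in `{0, …, ℓ - 1}`, gives the action of `g` on `ϖ`. -/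
structure IsChi (ℓ : ℕ) {K E : Type} [Field K] [Field E] [Algebra K E] (ζ : K) (ϖ : E)
    (χ : (E ≃ₐ[K] E) → ℕ) : Prop where
  prime : ℓ.Prime
  zeta : IsPrimitiveRoot ζ ℓ
  ne : ϖ ≠ 0
  lt : ∀ g, χ g < ℓ
  act : ∀ g, g ϖ = algebraMap K E (ζ ^ χ g) * ϖ

/-- The carry of `χ g + χ h`. -/
def ep (ℓ : ℕ) {G : Type*} (χ : G → ℕ) (g h : G) : ℕ := (χ g + χ h) / ℓ

section

variable {ℓ : ℕ} {K E : Type} [Field K] [Field E] [Algebra K E] {ζ : K} {ϖ : E}
  {χ : (E ≃ₐ[K] E) → ℕ}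

/-- `g ϖ / ϖ` is a root of unity of order dividing `ℓ`. -/
theorem exists_isChi (hℓ : ℓ.Prime) (hζ : IsPrimitiveRoot ζ ℓ) (h0 : ϖ ≠ 0)
    (h : ∃ x : K, ϖ ^ ℓ = algebraMap K E x) : ∃ χ, IsChi ℓ ζ ϖ χ := by
  have : NeZero ℓ := ⟨hℓ.ne_zero⟩
  obtain ⟨x, hx⟩ := h
  have hζE : IsPrimitiveRoot (algebraMap K E ζ) ℓ := hζ.map_of_injective (algebraMap K E).injective
  have h1 : ∀ g : E ≃ₐ[K] E, ∃ i < ℓ, (algebraMap K E ζ) ^ i = g ϖ / ϖ := by
    intro g
    refine hζE.eq_pow_of_pow_eq_one ?_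
    rw [div_pow, ← map_pow, hx, AlgEquiv.commutes, div_self]
    rw [← hx]
    exact pow_ne_zero _ h0
  choose χ hlt hχ using h1
  refine ⟨χ, hℓ, hζ, h0, hlt, fun g => ?_⟩
  rw [map_pow, hχ g, div_mul_cancel₀ _ h0]

lemma IsChi.pow_inj' (hχ : IsChi ℓ ζ ϖ χ) {i j : ℕ} (hi : i < ℓ) (hj : j < ℓ)
    (h : algebraMap K E (ζ ^ i) * ϖ = algebraMap K E (ζ ^ j) * ϖ) : i = j :=
  hχ.zeta.pow_inj hi hj ((algebraMap K E).injective (mul_right_cancel₀ hχ.ne h))

lemma IsChi.pow_mod' (hχ : IsChi ℓ ζ ϖ χ) (n : ℕ) : ζ ^ (n % ℓ) = ζ ^ n := by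
  conv_rhs => rw [← Nat.mod_add_div n ℓ, pow_add, pow_mul, hχ.zeta.pow_eq_one, one_pow, mul_one]

lemma IsChi.mul (hχ : IsChi ℓ ζ ϖ χ) (g h : E ≃ₐ[K] E) : χ (g * h) = (χ g + χ h) % ℓ := by
  refine hχ.pow_inj' (hχ.lt _) (Nat.mod_lt _ hχ.prime.pos) ?_
  rw [← hχ.act, hχ.pow_mod', AlgEquiv.mul_apply, hχ.act h, map_mul, AlgEquiv.commutes, hχ.act g,
    pow_add, map_mul]
  ring

lemma IsChi.one (hχ : IsChi ℓ ζ ϖ χ) : χ 1 = 0 := by
  refine hχ.pow_inj' (hχ.lt _) hχ.prime.pos ?_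
  rw [← hχ.act, pow_zero, map_one, one_mul, AlgEquiv.one_apply]

lemma IsChi.add_eq (hχ : IsChi ℓ ζ ϖ χ) (g h : E ≃ₐ[K] E) :
    χ g + χ h = χ (g * h) + ℓ * ep ℓ χ g h := by
  rw [hχ.mul, ep]
  exact (Nat.mod_add_div _ _).symm


lemma IsChi.cts (hχ : IsChi ℓ ζ ϖ χ) : IsCts χ := by
  refine ⟨{ϖ}, fun g g' h => hχ.pow_inj' (hχ.lt _) (hχ.lt _) ?_⟩
  rw [← hχ.act, ← hχ.act]
  exact h ϖ (Finset.mem_singleton_self _)


end

/-- `K` is a local field with residue field `F`, `v` the absolute value of its algebraic closure `E`, `t - s` (with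
`t` the image of `X`) a generator of the maximal ideal. -/
structure LocF (F K : Type) {E : Type} [Field F] [Field K] [Field E] [Algebra F[X] K] [Algebra K E]
    [Algebra F E] (s : F) (v : AbsoluteValue E ℝ) : Prop where
  compat : ∀ c : F, algebraMap F E c = algebraMap K E (algebraMap F[X] K (C c))
  ctx : LocCtx v s (algebraMap K E (algebraMap F[X] K X))
  disc : ∀ x : K, x ≠ 0 → ∃ i : ℤ, v (algebraMap K E x) =
    v (algebraMap K E (algebraMap F[X] K X) - algebraMap F E s) ^ i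
  inv : ∀ (σ : E ≃ₐ[K] E) (x : E), v (σ x) = v x

section

variable {ℓ : ℕ} {F K E : Type} [Field F] [Field K] [Field E] [Algebra F[X] K] [Algebra K E]
  [Algebra F E] [IsAlgClosure K E] {s : F} {v : AbsoluteValue E ℝ} {ζ : F} {ϖ : E}
  {χ : (E ≃ₐ[K] E) → ℕ}

omit [IsAlgClosure K E] in
private lemma LocF.coprime (hℓ : ℓ.Prime) (hℓF : (ℓ : F) ≠ 0) (K : Type) [Field K] [Algebra F[X] K] :
    (ringExpChar K).Coprime ℓ := by
  have hK : (ℓ : K) ≠ 0 := by
    intro h0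
    apply hℓF
    have h1 : ((algebraMap F[X] K).comp C) (ℓ : F) = 0 := by
      rw [map_natCast]
      exact h0
    exact (map_eq_zero_iff _ (RingHom.injective _)).1 h1
  have h1 := ringExpChar.expChar K
  generalize ringExpChar K = q at h1 ⊢
  rcases h1 with _ | hq
  · exact Nat.coprime_one_left ℓ
  · rw [Nat.coprime_primes hq hℓ]
    rintro rfl
    exact hK (CharP.cast_eq_zero K _)

omit [IsAlgClosure K E] in
private lemma LocF.sub_ne (hL : LocF F K s v) :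
    algebraMap K E (algebraMap F[X] K X) - algebraMap F E s ≠ 0 :=
  sub_ne_zero.2 hL.ctx.ne

omit [IsAlgClosure K E] in
private lemma LocF.fixF (hL : LocF F K s v) (g : E ≃ₐ[K] E) (c : F) :
    g (algebraMap F E c) = algebraMap F E c := by
  rw [hL.compat, g.commutes]

omit [IsAlgClosure K E] in
private lemma LocF.fix_sub (hL : LocF F K s v) (g : E ≃ₐ[K] E) :
    g (algebraMap K E (algebraMap F[X] K X) - algebraMap F E s) =
      algebraMap K E (algebraMap F[X] K X) - algebraMap F E s := by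
  rw [map_sub, hL.fixF, g.commutes]

private lemma LocF.val (hL : LocF F K s v) (z : E) (hz : z ≠ 0) (hfix : ∀ g : E ≃ₐ[K] E, g z = z) :
    Val (ringExpChar K) (v (algebraMap K E (algebraMap F[X] K X) - algebraMap F E s)) (v z) := by
  obtain ⟨r, y, hy⟩ := exists_pow_mem z hfix
  have hy0 : y ≠ 0 := by
    rintro rfl
    rw [map_zero] at hy
    exact pow_ne_zero _ hz hy
  obtain ⟨i, hi⟩ := hL.disc y hy0
  refine ⟨r, i, ?_⟩
  rw [← map_pow, hy, hi]

omit [IsAlgClosure K E] in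
private lemma LocF.act (hL : LocF F K s v) (hχ : IsChi ℓ (algebraMap F[X] K (C ζ)) ϖ χ)
    (g : E ≃ₐ[K] E) : g ϖ = algebraMap F E ζ ^ χ g * ϖ := by
  rw [hχ.act g, map_pow, hL.compat]

/-- Kummer theory of the local field. PROOF: `la3_key` and `la3_choice` in `Wl/LA03.lean` (private; copy them). Directly:
some power `(z ^ ℓ) ^ (p ^ r)` is in `K`, `p` the exponential characteristic (`exists_pow_mem`), so by `disc`
`v z ^ (ℓ p ^ r) = v (t - s) ^ i` and `v z ^ (p ^ r) = v ϖ ^ i`; choose `w` with `w p ^ r ≡ i [ZMOD ℓ]`, `i = w p ^ r + ℓ k`.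
`z' = z ^ (p ^ r) / (ϖ ^ (w p ^ r) (t - s) ^ k)` has `v z' = 1` and `g z' / z'` is a root of unity of order dividing `ℓ`,
in `F`; as `g` acts trivially on the residue field `F` (`ctx.residue`, `inv`; different elements of `F` have different
residues by `ctx.const`) `g z' = z'`. So `(g z / z) ^ (p ^ r) = (ζ ^ (χ g * w)) ^ (p ^ r)`. -/
theorem kummer_loc (hL : LocF F K s v) (hℓF : (ℓ : F) ≠ 0) (hζ : IsPrimitiveRoot ζ ℓ)
    (hχ : IsChi ℓ (algebraMap F[X] K (C ζ)) ϖ χ)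
    (hϖ : ϖ ^ ℓ = algebraMap K E (algebraMap F[X] K X) - algebraMap F E s) (z : E) (hz : z ≠ 0)
    (hfix : ∀ g : E ≃ₐ[K] E, g (z ^ ℓ) = z ^ ℓ) :
    ∃ w : ℕ, ∀ g : E ≃ₐ[K] E, g z = algebraMap F E ζ ^ (χ g * w) * z := by
  have hℓ := hχ.prime
  have hp := LocF.coprime hℓ hℓF K
  have hϖ0 := hχ.ne
  have hts := hL.sub_ne
  have hζE : IsPrimitiveRoot (algebraMap F E ζ) ℓ :=
    hζ.map_of_injective (algebraMap F E).injective
  have hζ0 : algebraMap F E ζ ≠ 0 := hζE.ne_zero hℓ.ne_zero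
  obtain ⟨m, k, hk⟩ := hL.val (z ^ ℓ) (pow_ne_zero _ hz) hfix
  obtain ⟨u, q, huq⟩ : IsCoprime ((ringExpChar K ^ m : ℕ) : ℤ) (ℓ : ℤ) :=
    Nat.isCoprime_iff_coprime.2 (Nat.Coprime.pow_left m hp)
  have hy : 0 < v (algebraMap K E (algebraMap F[X] K X) - algebraMap F E s) := v.pos hts
  -- the exponent `k * u`
  have key : ∀ g : E ≃ₐ[K] E, g (z / ϖ ^ (k * u)) = z / ϖ ^ (k * u) := by
    intro g
    have hpow : (z / ϖ ^ (k * u)) ^ ℓ = z ^ ℓ /
        (algebraMap K E (algebraMap F[X] K X) - algebraMap F E s) ^ (k * u) := by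
      rw [div_pow, ← zpow_natCast (ϖ ^ (k * u)), ← zpow_mul, mul_comm (k * u), zpow_mul,
        zpow_natCast, hϖ]
    refine hL.ctx.root_fixed_of_val (ℓ := ℓ) (p := ringExpChar K)
      (π' := algebraMap K E (algebraMap F[X] K X) - algebraMap F E s) hℓ.ne_zero hp hζ
      (g : E ≃+* E) (fun x => hL.inv g x) (fun c => hL.fixF g c)
      (div_ne_zero hz (zpow_ne_zero _ hϖ0)) hts (hL.fix_sub g) ?_ ?_
    · show g ((z / ϖ ^ (k * u)) ^ ℓ) = (z / ϖ ^ (k * u)) ^ ℓ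
      rw [hpow, map_div₀, hfix, map_zpow₀, hL.fix_sub]
    · rw [hpow]
      refine ⟨m, k * q, ?_⟩
      rw [map_div₀, map_zpow₀, div_pow, hk,
        ← zpow_natCast (v (algebraMap K E (algebraMap F[X] K X) - algebraMap F E s) ^ (k * u)),
        ← zpow_mul, ← zpow_sub₀ hy.ne',
        ← zpow_natCast (v (algebraMap K E (algebraMap F[X] K X) - algebraMap F E s)) ℓ,
        ← zpow_mul]
      congr 1
      linear_combination (-k) * huq
  refine ⟨((k * u) % ℓ).toNat, fun g => ?_⟩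
  have hℓ0 : (ℓ : ℤ) ≠ 0 := Int.natCast_ne_zero.2 hℓ.ne_zero
  have hw : (((k * u) % ℓ).toNat : ℤ) = (k * u) % ℓ := Int.toNat_of_nonneg (Int.emod_nonneg _ hℓ0)
  have h1 : z = z / ϖ ^ (k * u) * ϖ ^ (k * u) := by
    rw [div_mul_cancel₀ _ (zpow_ne_zero _ hϖ0)]
  have h2 : g z = algebraMap F E ζ ^ ((χ g : ℤ) * (k * u)) * z := by
    conv_lhs => rw [h1]
    rw [map_mul, key g, map_zpow₀, hL.act hχ g, mul_zpow, ← zpow_natCast (algebraMap F E ζ),
      ← zpow_mul]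
    have h2 : z / ϖ ^ (k * u) * (algebraMap F E ζ ^ ((χ g : ℤ) * (k * u)) * ϖ ^ (k * u)) =
        algebraMap F E ζ ^ ((χ g : ℤ) * (k * u)) * (z / ϖ ^ (k * u) * ϖ ^ (k * u)) := by ring
    rw [h2, ← h1]
  rw [h2]
  congr 1
  have h3 : (χ g : ℤ) * (k * u) = ((χ g * ((k * u) % ℓ).toNat : ℕ) : ℤ) +
      (ℓ : ℤ) * ((χ g : ℤ) * ((k * u) / ℓ)) := by
    push_cast
    rw [hw]
    have h4 := Int.mul_ediv_add_emod (k * u) ℓ
    linear_combination (-(χ g : ℤ)) * h4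
  rw [h3, zpow_add₀ hζ0, zpow_mul, zpow_natCast, zpow_natCast, hζE.pow_eq_one, one_zpow, mul_one]

/-- `χ` is surjective. PROOF: otherwise `χ g = 0` for all `g` (the image is a subgroup), `ϖ` is fixed, `ϖ ^ (p ^ r)` is in
`K` and by `disc` `v ϖ ^ (p ^ r) = v (t - s) ^ i = v ϖ ^ (ℓ i)`, so `p ^ r = ℓ i` (`0 < v ϖ < 1`). -/
theorem exists_chi_one (hL : LocF F K s v) (hℓF : (ℓ : F) ≠ 0) (hζ : IsPrimitiveRoot ζ ℓ)
    (hχ : IsChi ℓ (algebraMap F[X] K (C ζ)) ϖ χ)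
    (hϖ : ϖ ^ ℓ = algebraMap K E (algebraMap F[X] K X) - algebraMap F E s) :
    ∃ σ : E ≃ₐ[K] E, χ σ = 1 := by
  have hℓ := hχ.prime
  have hp := LocF.coprime hℓ hℓF K
  have hϖ0 := hχ.ne
  have hvϖ : v ϖ ^ ℓ = v (algebraMap K E (algebraMap F[X] K X) - algebraMap F E s) := by
    rw [← map_pow, hϖ]
  have hv0 : 0 < v ϖ := v.pos hϖ0
  have hv1 : v ϖ < 1 := by
    by_contra hcon
    push Not at hcon
    have h1 : 1 ≤ v ϖ ^ ℓ := one_le_pow₀ hcon
    rw [hvϖ] at h1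
    exact absurd hL.ctx.lt_one (not_lt.mpr h1)
  obtain ⟨τ, hτ⟩ : ∃ τ : E ≃ₐ[K] E, χ τ ≠ 0 := by
    by_contra hcon
    push Not at hcon
    have h1 : ∀ g : E ≃ₐ[K] E, g ϖ = ϖ := by
      intro g
      rw [hL.act hχ g, hcon g, pow_zero, one_mul]
    have h3 := hL.val ϖ hϖ0 h1
    rw [← hvϖ] at h3
    have h4 := Val.dvd_of_zpow hp hv0 hv1 1 (by rw [zpow_one]; exact h3)
    have h5 : (ℓ : ℤ) ≤ 1 := Int.le_of_dvd one_pos h4
    have h6 := hℓ.one_lt
    omega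
  have hcop : Nat.Coprime (χ τ) ℓ :=
    Nat.Coprime.symm ((Nat.Prime.coprime_iff_not_dvd hℓ).mpr
      (fun h0 => absurd (Nat.le_of_dvd (Nat.pos_of_ne_zero hτ) h0) (not_le.mpr (hχ.lt τ))))
  obtain ⟨i, -, hi⟩ := Nat.exists_mul_mod_eq_one_of_coprime hcop hℓ.one_lt
  refine ⟨τ ^ i, ?_⟩
  have hpow : ∀ n : ℕ, χ (τ ^ n) = (χ τ * n) % ℓ := by
    intro n
    induction n with
    | zero => rw [pow_zero, hχ.one, mul_zero, Nat.zero_mod]
    | succ n ih => rw [pow_succ, hχ.mul, ih, Nat.mod_add_mod, mul_add, mul_one]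
  rw [hpow, hi]

omit [IsAlgClosure K E] in
lemma LocF.fix_const (hL : LocF F K s v) (c : F) (g : E ≃ₐ[K] E) :
    g (algebraMap F E c) = algebraMap F E c := by
  rw [hL.compat c, g.commutes]

lemma va_dual1 {n : ℕ} [Fact n.Prime] {B : Type} [AddCommGroup B] [Module (ZMod n) B] (x : B)
    (hx : x ≠ 0) : ∃ φ : B →+ ZMod n, φ x ≠ 0 := by
  have : Module.Projective (ZMod n) B := Module.Projective.of_free
  by_contra hcon
  refine hx ((Module.forall_dual_apply_eq_zero_iff (ZMod n) x).mp fun φ => ?_)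
  by_contra h
  exact hcon ⟨φ.toAddMonoidHom, h⟩

lemma va_dual {n : ℕ} (hn : n.Prime) {B : Type} [AddCommGroup B] (hB : ∀ x : B, n • x = 0) (x : B)
    (hx : x ≠ 0) : ∃ φ : B →+ ZMod n, φ x ≠ 0 := by
  have : Fact n.Prime := ⟨hn⟩
  let _ : Module (ZMod n) B := AddCommGroup.zmodModule hB
  exact va_dual1 x hx

lemma va_pow_mod {R : Type} [Monoid R] {x : R} {n : ℕ} (hx : x ^ n = 1) (k : ℕ) :
    x ^ (k % n) = x ^ k := by
  conv_rhs => rw [← Nat.mod_add_div k n, pow_add, pow_mul, hx, one_pow, mul_one]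

lemma va_add_hom {G A : Type} [Group G] [AddCommGroup A] (c : G → A)
    (hadd : ∀ g h, c (g * h) = c g + c h) (σ : G) (n : ℕ) : c (σ ^ n) = n • c σ := by
  have h1 : c 1 = 0 := by
    have := hadd 1 1
    rw [mul_one] at this
    exact (add_eq_left.mp this.symm)
  induction n with
  | zero => rw [pow_zero, h1, zero_smul]
  | succ n ih => rw [pow_succ, hadd, ih, succ_nsmul]

lemma IsChi.pow_eq {K E : Type} [Field K] [Field E] [Algebra K E] {ζ : K} {ϖ : E}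
    {χ : (E ≃ₐ[K] E) → ℕ} (hχ : IsChi ℓ ζ ϖ χ) {σ : E ≃ₐ[K] E} (hσ : χ σ = 1) (n : ℕ)
    (hn : n < ℓ) : χ (σ ^ n) = n := by
  induction n with
  | zero => rw [pow_zero, hχ.one]
  | succ n ih =>
    rw [pow_succ, hχ.mul, ih (by omega), hσ, Nat.mod_eq_of_lt hn]

/-- `χ g = 0` implies `c g = 0`. -/
lemma hom_chi_aux (hL : LocF F K s v) (hℓF : (ℓ : F) ≠ 0) (hζ : IsPrimitiveRoot ζ ℓ)
    (hχ : IsChi ℓ (algebraMap F[X] K (C ζ)) ϖ χ)
    (hϖ : ϖ ^ ℓ = algebraMap K E (algebraMap F[X] K X) - algebraMap F E s)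
    {A : Type} [AddCommGroup A] (c : (E ≃ₐ[K] E) → A) (hc : IsCts c)
    (hadd : ∀ g h, c (g * h) = c g + c h) (htor : ∀ g, ℓ • c g = 0) (g₀ : E ≃ₐ[K] E)
    (hg₀ : χ g₀ = 0) : c g₀ = 0 := by
  by_contra hne
  have : Fact ℓ.Prime := ⟨hχ.prime⟩
  have : NeZero ℓ := ⟨hχ.prime.ne_zero⟩
  let B : AddSubgroup A := (nsmulAddMonoidHom (α := A) ℓ).ker
  have hB : ∀ x : B, ℓ • x = 0 := by
    intro x
    have h1 : ℓ • (x : A) = 0 := x.2
    exact Subtype.ext h1
  have hmem : ∀ g, c g ∈ B := fun g => htor g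
  let c' : (E ≃ₐ[K] E) → B := fun g => ⟨c g, hmem g⟩
  have hc'add : ∀ g h, c' (g * h) = c' g + c' h := fun g h => Subtype.ext (hadd g h)
  have hc'0 : c' g₀ ≠ 0 := fun h => hne (congrArg Subtype.val h)
  obtain ⟨φ, hφ⟩ := va_dual hχ.prime hB (c' g₀) hc'0
  have hinj : Function.Injective (algebraMap F E) := (algebraMap F E).injective
  have hζ1 : (algebraMap F E ζ) ^ ℓ = 1 := by rw [← map_pow, hζ.pow_eq_one, map_one]
  have hζ0 : algebraMap F E ζ ≠ 0 := by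
    intro h
    rw [h, zero_pow hχ.prime.ne_zero] at hζ1
    exact zero_ne_one hζ1
  let a : (E ≃ₐ[K] E) → Eˣ := fun g =>
    Units.mk0 (algebraMap F E ζ ^ (φ (c' g)).val) (pow_ne_zero _ hζ0)
  have ha : IsCts a := by
    obtain ⟨T, hT⟩ := hc
    refine ⟨T, fun g g' h => ?_⟩
    have h1 : c' g = c' g' := Subtype.ext (hT g g' h)
    show Units.mk0 (algebraMap F E ζ ^ (φ (c' g)).val) _ =
      Units.mk0 (algebraMap F E ζ ^ (φ (c' g')).val) _
    simp only [h1]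
  have hcoc : ∀ g h : E ≃ₐ[K] E, (a (g * h) : E) = g (a h) * a g := by
    intro g h
    show algebraMap F E ζ ^ (φ (c' (g * h))).val =
      g (algebraMap F E ζ ^ (φ (c' h)).val) * algebraMap F E ζ ^ (φ (c' g)).val
    rw [hc'add, map_add, ZMod.val_add, va_pow_mod hζ1, pow_add, map_pow, hL.fix_const, mul_comm]
  obtain ⟨e, he⟩ := h90 a ha hcoc
  have hfix : ∀ g : E ≃ₐ[K] E, g ((e : E) ^ ℓ) = (e : E) ^ ℓ := by
    intro g
    rw [map_pow, ← he g, mul_pow]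
    have h1 : ((a g : Eˣ) : E) ^ ℓ = 1 := by
      show (algebraMap F E ζ ^ (φ (c' g)).val) ^ ℓ = 1
      rw [← pow_mul, mul_comm, pow_mul, hζ1, one_pow]
    rw [h1, one_mul]
  obtain ⟨w, hw⟩ := kummer_loc hL hℓF hζ hχ hϖ (e : E) e.ne_zero hfix
  have h1 := hw g₀
  rw [hg₀, zero_mul, pow_zero, one_mul, ← he g₀] at h1
  have h2 : ((a g₀ : Eˣ) : E) = 1 := by
    have h3 : ((a g₀ : Eˣ) : E) * e = 1 * e := by rw [h1, one_mul]
    exact mul_right_cancel₀ e.ne_zero h3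
  have h3 : algebraMap F E ζ ^ (φ (c' g₀)).val = 1 := h2
  have h4 : ζ ^ (φ (c' g₀)).val = 1 := by
    apply hinj
    rw [map_pow, h3, map_one]
  have h5 : ℓ ∣ (φ (c' g₀)).val := hζ.dvd_of_pow_eq_one _ h4
  have h6 : (φ (c' g₀)).val < ℓ := ZMod.val_lt _
  have h7 : (φ (c' g₀)).val = 0 := Nat.eq_zero_of_dvd_of_lt h5 h6
  exact hφ ((ZMod.val_eq_zero _).mp h7)

theorem hom_chi (hL : LocF F K s v) (hℓF : (ℓ : F) ≠ 0) (hζ : IsPrimitiveRoot ζ ℓ)
    (hχ : IsChi ℓ (algebraMap F[X] K (C ζ)) ϖ χ)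
    (hϖ : ϖ ^ ℓ = algebraMap K E (algebraMap F[X] K X) - algebraMap F E s)
    {A : Type} [AddCommGroup A] (c : (E ≃ₐ[K] E) → A) (hc : IsCts c)
    (hadd : ∀ g h, c (g * h) = c g + c h) (htor : ∀ g, ℓ • c g = 0) :
    ∃ a : A, ℓ • a = 0 ∧ ∀ g, c g = χ g • a := by
  obtain ⟨σ, hσ⟩ := exists_chi_one hL hℓF hζ hχ hϖ
  refine ⟨c σ, htor σ, fun g => ?_⟩
  have h1 : χ (σ ^ χ g) = χ g := hχ.pow_eq hσ _ (hχ.lt g)
  have h2 : σ ^ χ g * ((σ ^ χ g)⁻¹ * g) = g := mul_inv_cancel_left _ _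
  have h3 : χ ((σ ^ χ g)⁻¹ * g) = 0 := by
    have h4 := hχ.mul (σ ^ χ g) ((σ ^ χ g)⁻¹ * g)
    rw [h2, h1] at h4
    have h5 := hχ.lt g
    have h6 := hχ.lt ((σ ^ χ g)⁻¹ * g)
    generalize χ ((σ ^ χ g)⁻¹ * g) = y at h4 h6
    by_contra hy
    by_cases h7 : χ g + y < ℓ
    · rw [Nat.mod_eq_of_lt h7] at h4
      omega
    · rw [Nat.mod_eq_sub_mod (by omega), Nat.mod_eq_of_lt (by omega)] at h4
      omega
  have h4 := hom_chi_aux hL hℓF hζ hχ hϖ c hc hadd htor _ h3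
  rw [← h2, hadd, h4, add_zero, va_add_hom c hadd, h2]


end

end Pool.Agent.Lib.MP_89bcae_ag.Bra

end

section

/-!
The kernel of `π = 1 - Z`: parts (B) and (C) of the explanations in R17.
-/

open Polynomial IsDedekindDomain

open scoped Classical

namespace Pool.Agent.Lib.MP_89bcae_ag.Sup

universe u

variable {ℓ : ℕ} {E : Type u} [Field E] {f : E[X]} [hG : IsGood ℓ f]

lemma R18_rot_ramPt (ζ : E) (hζ : ζ ^ ℓ = 1) {θ : E} (hθ : f.eval θ = 0) :
    (ramPt hG.prime.ne_zero hθ : Pt ℓ f).rot ζ hζ = ramPt hG.prime.ne_zero hθ := by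
  ext
  · rfl
  · simp [Pt.rot, ramPt]

lemma R18_ordR_rot (ζ : E) (hζ : ζ ^ ℓ = 1) (h0 : ζ ≠ 0) (θ : E) (h : (Fn ℓ f)ˣ) :
    ordR θ (rotU ζ hζ h0 h) = ordR θ h := by
  unfold ordR
  split_ifs with hθ
  · rw [ord_rotU, R18_rot_ramPt]
  · rfl

lemma R18_ordR_iter (ζ : E) (hζ : ζ ^ ℓ = 1) (h0 : ζ ≠ 0) (θ : E) (h : (Fn ℓ f)ˣ) (i : ℕ) :
    ordR θ ((rotU ζ hζ h0)^[i] h) = ordR θ h := by
  induction i with
  | zero => rfl
  | succ i ih => rw [Function.iterate_succ_apply', R18_ordR_rot, ih]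

lemma R18_lc_iter (ζ : E) (hζ : ζ ^ ℓ = 1) (h0 : ζ ≠ 0) {θ : E} (hθ : f.eval θ = 0)
    (h : (Fn ℓ f)ˣ) (i : ℕ) :
    (lc θ ((rotU ζ hζ h0)^[i] h) : E) = (ζ ^ ordR θ h) ^ i * lc θ h := by
  induction i with
  | zero => simp
  | succ i ih =>
    rw [Function.iterate_succ_apply', (lc_spec hθ).2.2.2.2.1, ih, R18_ordR_iter, pow_succ]
    ring

/-- The leading coefficient of a norm. -/
lemma R18_lc_nrm (ζ : E) (hζ : ζ ^ ℓ = 1) (h0 : ζ ≠ 0) {θ : E} (hθ : f.eval θ = 0)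
    (h : (Fn ℓ f)ˣ) :
    (lc θ (nrm ζ hζ h0 h) : E) =
      (ζ ^ ordR θ h) ^ (∑ i ∈ Finset.range ℓ, i) * (lc θ h : E) ^ ℓ := by
  rw [nrm, map_prod, Units.coe_prod, Finset.prod_congr rfl fun i _ => R18_lc_iter ζ hζ h0 hθ h i,
    Finset.prod_mul_distrib, Finset.prod_pow_eq_pow_sum, Finset.prod_const, Finset.card_range]

lemma R18_xprod_sub (D D' : Pt ℓ f →₀ ℤ) : xprod (D - D') = xprod D / xprod D' := by
  rw [eq_div_iff_mul_eq', ← xprod_add, sub_add_cancel]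

lemma R18_div_div (h h' : (Fn ℓ f)ˣ) : div (h / h') = div h - div h' := by
  rw [div_eq_mul_inv, div_mul, div_inv, sub_eq_add_neg]

/-- Extraction of roots of constants: normalization of the norm. -/
lemma R18_exists_normalized (ζ : E) (hζ : ζ ^ ℓ = 1) (h0 : ζ ≠ 0) (h : (Fn ℓ f)ˣ) (c : Eˣ)
    (g : (Fn ℓ f)ˣ) (hn : nrm ζ hζ h0 h = cstU c * g) :
    ∃ h' : (Fn ℓ f)ˣ, div h' = div h ∧ nrm ζ hζ h0 h' = g := by
  have := hG.alg
  obtain ⟨d, hd⟩ := IsAlgClosed.exists_pow_nat_eq (c : E) hG.prime.pos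
  have hd0 : d ≠ 0 := by
    rintro rfl
    rw [zero_pow hG.prime.ne_zero] at hd
    exact c.ne_zero hd.symm
  have hdc : (Units.mk0 d hd0) ^ ℓ = c := by
    ext
    simpa using hd
  refine ⟨h * cstU (Units.mk0 d hd0)⁻¹, ?_, ?_⟩
  · rw [div_mul, div_cstU, add_zero]
  · rw [nrm_mul, nrm_cstU, hn, inv_pow, hdc, map_inv]
    rw [mul_comm (cstU c) g, mul_inv_cancel_right]

lemma zJ_ram (ζ : E) (hζ : ζ ^ ℓ = 1) (e : E → ℤ) : zJ ζ hζ (ram e : Jac ℓ f) = ram e := by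
  rw [ram, zJ_cl, mapDomain_rot_ramDiv]

/-- (B) -/
lemma exists_ram_of_zJ_eq (ζ : E) (hζ : IsPrimitiveRoot ζ ℓ) (Q : Jac ℓ f)
    (hQ : zJ ζ hζ.pow_eq_one Q = Q) : ∃ e : E → ℤ, Q = ram e := by
  have h0 : ζ ≠ 0 := hζ.ne_zero hG.prime.ne_zero
  obtain ⟨D, rfl⟩ := cl_surjective Q
  rw [zJ_cl] at hQ
  have h1 : cl (D - D.mapDomain (Pt.rot ζ hζ.pow_eq_one)) = 0 := by
    rw [map_sub, hQ, sub_self]
  obtain ⟨h, hh⟩ := exists_div_of_cl_eq_zero _ h1
  obtain ⟨c, hc⟩ := exists_nrm_eq ζ hζ h0 h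
  have hx : xprod (div h) = 1 := by
    rw [hh, R18_xprod_sub, xprod_rot, div_self']
  obtain ⟨h', hdiv, hn⟩ := R18_exists_normalized ζ hζ.pow_eq_one h0 h c _ hc
  rw [hx] at hn
  have hord : ∀ θ, f.eval θ = 0 → ordR θ h' = 0 := by
    intro θ hθ
    have h2 : ord (ramPt hG.prime.ne_zero hθ) h' = 0 := by
      rw [← div_apply, hdiv, hh, Finsupp.sub_apply]
      nth_rw 2 [← R18_rot_ramPt ζ hζ.pow_eq_one hθ]
      rw [Finsupp.mapDomain_apply, sub_self]
      intro P P' hP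
      have hx := congrArg Pt.x hP
      have hy := congrArg Pt.y hP
      simp only [Pt.rot] at hx hy
      exact Pt.ext hx (mul_left_cancel₀ h0 hy)
    rw [ordR, dif_pos hθ, h2]
  have hlc : ∀ θ, f.eval θ = 0 → ∃ n : ℤ, (lc θ h' : E) = ζ ^ n := by
    intro θ hθ
    have h3 := R18_lc_nrm ζ hζ.pow_eq_one h0 hθ h'
    rw [hn, hord θ hθ, map_one, zpow_zero, one_pow, one_mul, Units.val_one] at h3
    have : NeZero ℓ := ⟨hG.prime.ne_zero⟩
    obtain ⟨i, _, hi⟩ := hζ.eq_pow_of_pow_eq_one h3.symm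
    exact ⟨i, by rw [← hi, zpow_natCast]⟩
  choose! n hn' using hlc
  exact ⟨_, cl_eq_ram ζ hζ h0 D h' (by rw [hdiv, hh]) hn n hn'⟩

/-- (C) -/
lemma ram_eq_zero_iff (ζ : E) (hζ : IsPrimitiveRoot ζ ℓ) (e : E → ℤ) :
    (ram e : Jac ℓ f) = 0 ↔
      ∃ c : ℤ, ∀ θ, f.eval θ = 0 → (ℓ : ℤ) ∣ e θ - c := by
  have h0 : ζ ≠ 0 := hζ.ne_zero hG.prime.ne_zero
  constructor
  · intro he
    obtain ⟨h, hh⟩ := exists_div_of_cl_eq_zero _ he
    have hu : div ((rotU ζ hζ.pow_eq_one h0).symm h / h) = 0 := by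
      rw [R18_div_div, div_rotU_symm, hh, mapDomain_rot_ramDiv, sub_self]
    have hdg : dg (div ((rotU ζ hζ.pow_eq_one h0).symm h / h)) = 0 := by
      rw [hu, dg, Finsupp.sum_zero_index]
    obtain ⟨c, hc⟩ := exists_const_of_dg_eq_zero ζ hζ _ hdg
    have hord : ∀ P, ord P ((rotU ζ hζ.pow_eq_one h0).symm h / h) = 0 := by
      intro P
      rw [← div_apply, hu, Finsupp.zero_apply]
    have hc1 : (((rotU ζ hζ.pow_eq_one h0).symm h / h : (Fn ℓ f)ˣ) : Fn ℓ f) = cst c := by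
      rcases hc with hc | ⟨w, hw, hwd⟩
      · exact hc
      · exfalso
        have hwn : ∀ P, 0 ≤ ord P w := by
          intro P
          by_cases hc0 : c = 0
          · rw [hc0, map_zero, sub_zero] at hw
            rw [Units.ext hw, hord]
          · have h5 := ord_add P ((rotU ζ hζ.pow_eq_one h0).symm h / h)
              (cstU (Units.mk0 (-c) (neg_ne_zero.2 hc0))) w (by
                rw [hw, cstU, Units.coe_map, Units.val_mk0, MonoidHom.coe_coe, map_neg,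
                  sub_eq_add_neg])
            rw [hord, ord_cstU, min_self] at h5
            exact h5
        refine absurd hwd (not_lt.2 ?_)
        exact Finset.sum_nonneg fun P _ => hwn P
    have hc0 : c ≠ 0 := by
      rintro rfl
      rw [map_zero] at hc1
      exact Units.ne_zero _ hc1
    have h6 : (rotU ζ hζ.pow_eq_one h0).symm h / h = cstU (Units.mk0 c hc0) := by
      ext
      rw [hc1, cstU, Units.coe_map, Units.val_mk0, MonoidHom.coe_coe]
    have h7 : h = cstU (Units.mk0 c hc0) * rotU ζ hζ.pow_eq_one h0 h := by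
      have h8 := congrArg (rotU ζ hζ.pow_eq_one h0) (eq_mul_of_div_eq h6)
      rw [MulEquiv.apply_symm_apply, map_mul, rotU_cstU] at h8
      exact h8
    have h9 : ∀ θ, f.eval θ = 0 → c * ζ ^ e θ = 1 := by
      intro θ hθ
      have h10 : ordR θ h = e θ := by
        rw [ordR, dif_pos hθ, ← div_apply, hh, ramDiv_apply, if_pos (by rfl)]
        rfl
      have h11 := congrArg (fun u => (lc θ u : E)) h7
      simp only [map_mul, Units.val_mul, (lc_spec hθ).1, (lc_spec hθ).2.2.2.2.1, Units.val_mk0,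
        h10] at h11
      have h12 := (lc θ h).ne_zero
      rw [← mul_assoc] at h11
      exact (mul_eq_right₀ h12).1 h11.symm
    obtain ⟨θ₀, hθ₀⟩ := IsGood.exists_root (ℓ := ℓ) (f := f)
    refine ⟨e θ₀, fun θ hθ => ?_⟩
    rw [← hζ.zpow_eq_one_iff_dvd, zpow_sub₀ h0]
    have h13 := h9 θ hθ
    have h14 := h9 θ₀ hθ₀
    rw [← h14] at h13
    rw [mul_left_cancel₀ hc0 h13, div_self (zpow_ne_zero _ h0)]
  · rintro ⟨c, hc⟩
    rw [ram_congr e (fun _ => c * 1) (fun θ hθ => by simpa using hc θ hθ), ram, ramDiv_smul,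
      map_zsmul, ← div_yU, cl_div, smul_zero]

lemma ram_add (e e' : E → ℤ) : (ram fun θ => e θ + e' θ : Jac ℓ f) = ram e + ram e' := by
  rw [ram, ramDiv_add, map_add, ← ram, ← ram]

lemma ram_sub (e e' : E → ℤ) : (ram fun θ => e θ - e' θ : Jac ℓ f) = ram e - ram e' := by
  rw [ram, ramDiv_sub, map_sub, ← ram, ← ram]

lemma symJ_ram (σ : Sym f) (e : E → ℤ) :
    symJ σ (ram e : Jac ℓ f) = ram fun θ => e (((σ⁻¹ : Sym f) : E ≃+* E) θ) := by
  rw [ram, symJ_cl, mapDomain_sym_ramDiv, ← ram]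

lemma smul_ram (e : E → ℤ) : ℓ • (ram e : Jac ℓ f) = 0 := by
  have h1 : (ram (fun θ => (ℓ : ℤ) * e θ) : Jac ℓ f) = ram fun _ => 0 :=
    ram_congr _ _ fun θ _ => ⟨e θ, by ring⟩
  have h2 : (ram (fun _ => 0) : Jac ℓ f) = 0 := by
    have h3 : (ramDiv (fun _ => 0) : Pt ℓ f →₀ ℤ) = 0 := by
      ext P
      simp
    rw [ram, h3, map_zero]
  rw [h2, ram, ramDiv_smul, map_zsmul, ← ram, natCast_zsmul] at h1
  exact h1

end Pool.Agent.Lib.MP_89bcae_ag.Sup

end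

section

/-!
THE KUMMER FORMULA.

STATEMENT. Let `Q - Z Q = cl D`. There are `z θ ≠ 0` in `E` (for the roots `θ` of `f`) with
`(z θ)^ℓ = ε^{D(θ,0)} ∏_P (θ - x(P))^{D(P)}`, where `ε = (-1)^(ℓ+1)` and the factor of
`P = (θ, 0)` is replaced by `(1/f'(θ))^{D(P)}`, such that for every automorphism `σ` in `Sym f` which
fixes `ζ` and `D`: if `σ (z θ) = ζ^{n(σ θ)} z (σ θ)` for all roots `θ`, then
`σ Q - Q = ram n = ∑ n(θ) [(θ, 0)]`.
-/

open Polynomial IsDedekindDomain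

open scoped Classical

namespace Pool.Agent.Lib.MP_89bcae_ag.Sup

universe u

variable {ℓ : ℕ} {E : Type u} [Field E] {f : E[X]} [hG : IsGood ℓ f]

/-- The value at `θ` of `∏ (x - x(P)) ^ D(P)`, regularized if `θ` is one of the `x(P)`. -/
noncomputable def uval (D : Pt ℓ f →₀ ℤ) (θ : E) : E :=
  D.prod fun P n => (if P.x = θ then ((derivative f).eval θ)⁻¹ else θ - P.x) ^ n

omit hG in
lemma R21_eval (σ : Sym f) (θ : E) :
    f.eval ((σ : E ≃+* E) θ) = (σ : E ≃+* E) (f.eval θ) := by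
  have h : f.map ((σ : E ≃+* E) : E →+* E) = f := mem_Sym.1 σ.2
  refine (congrArg (fun g : E[X] => g.eval ((σ : E ≃+* E) θ)) h.symm).trans ?_
  rw [Polynomial.eval_map]
  exact Polynomial.eval₂_hom ((σ : E ≃+* E) : E →+* E) θ

omit hG in
lemma R21_sym_injective (σ : Sym f) : Function.Injective (Pt.sym σ : Pt ℓ f → Pt ℓ f) := by
  intro P P' hP
  have hx := congrArg Pt.x hP
  have hy := congrArg Pt.y hP
  exact Pt.ext ((σ : E ≃+* E).injective hx) ((σ : E ≃+* E).injective hy)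

omit hG in
lemma R21_sym_rot (σ : Sym f) (ζ : E) (hζ : ζ ^ ℓ = 1) (hσ : (σ : E ≃+* E) ζ = ζ) :
    (Pt.sym σ : Pt ℓ f → Pt ℓ f) ∘ Pt.rot ζ hζ = Pt.rot ζ hζ ∘ Pt.sym σ := by
  funext P
  refine Pt.ext ?_ ?_
  · rfl
  · change (σ : E ≃+* E) (ζ * P.y) = ζ * (σ : E ≃+* E) P.y
    rw [map_mul, hσ]

lemma R21_atR_sym (σ : Sym f) (D : Pt ℓ f →₀ ℤ) {θ : E} (hθ : f.eval θ = 0) :
    atR (D.mapDomain (Pt.sym σ)) ((σ : E ≃+* E) θ) = atR D θ := by
  have hσθ : f.eval ((σ : E ≃+* E) θ) = 0 := by rw [R21_eval, hθ, map_zero]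
  rw [atR, atR, dif_pos hθ, dif_pos hσθ]
  have h : (⟨(σ : E ≃+* E) θ, 0, by rw [zero_pow hG.prime.ne_zero, hσθ]⟩ : Pt ℓ f) =
      Pt.sym σ ⟨θ, 0, by rw [zero_pow hG.prime.ne_zero, hθ]⟩ := by
    refine Pt.ext rfl ?_
    change 0 = (σ : E ≃+* E) 0
    rw [map_zero]
  rw [h, Finsupp.mapDomain_apply (R21_sym_injective σ)]

omit hG in
lemma R21_rot_injective {ζ : E} (hζ : ζ ^ ℓ = 1) (h0 : ζ ≠ 0) :
    Function.Injective (Pt.rot ζ hζ : Pt ℓ f → Pt ℓ f) := by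
  intro P P' hP
  have hx := congrArg Pt.x hP
  have hy := congrArg Pt.y hP
  exact Pt.ext hx (mul_left_cancel₀ h0 hy)

lemma R21_atR_sub (D D' : Pt ℓ f →₀ ℤ) (θ : E) : atR (D - D') θ = atR D θ - atR D' θ := by
  unfold atR
  split_ifs
  · rfl
  · rfl

lemma R21_atR_rot {ζ : E} (hζ : ζ ^ ℓ = 1) (h0 : ζ ≠ 0) (D : Pt ℓ f →₀ ℤ) (θ : E) :
    atR (D.mapDomain (Pt.rot ζ hζ)) θ = atR D θ := by
  unfold atR
  split_ifs with hθ
  · have h := R18_rot_ramPt (ℓ := ℓ) ζ hζ hθ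
    conv_lhs => rw [show (⟨θ, 0, by rw [zero_pow hG.prime.ne_zero, hθ]⟩ : Pt ℓ f) =
      Pt.rot ζ hζ ⟨θ, 0, by rw [zero_pow hG.prime.ne_zero, hθ]⟩ from h.symm]
    rw [Finsupp.mapDomain_apply (R21_rot_injective hζ h0)]
  · rfl

lemma R21_ordR (θ : E) (h : (Fn ℓ f)ˣ) : ordR θ h = atR (div h) θ := by
  unfold ordR atR
  split_ifs
  · rfl
  · rfl

lemma R21_eps {ζ : E} (hζ : IsPrimitiveRoot ζ ℓ) (hℓ : ℓ.Prime) :
    ζ ^ (∑ i ∈ Finset.range ℓ, i) = (-1) ^ (ℓ + 1) := by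
  rcases hℓ.eq_two_or_odd' with rfl | hodd
  · have h1 : ζ = -1 := hζ.eq_neg_one_of_two_right
    rw [h1]
    norm_num [Finset.sum_range_succ]
  · obtain ⟨k, hk⟩ := hodd
    have h1 : ∑ i ∈ Finset.range ℓ, i = ℓ * k := by
      have h2 := Finset.sum_range_id_mul_two ℓ
      have h3 : ℓ - 1 = 2 * k := by omega
      rw [h3] at h2
      nlinarith
    rw [h1, pow_mul, hζ.pow_eq_one, one_pow, Even.neg_one_pow]
    exact ⟨k + 1, by omega⟩

lemma R21_lc_xprod {θ : E} (hθ : f.eval θ = 0) (D : Pt ℓ f →₀ ℤ) :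
    (lc θ (xprod D) : E) = uval D θ := by
  rw [xprod, uval, Finsupp.prod, Finsupp.prod, map_prod, Units.coe_prod]
  refine Finset.prod_congr rfl fun P _ => ?_
  rw [map_zpow, Units.val_zpow_eq_zpow_val]
  congr 1
  split_ifs with hP
  · rw [hP, (lc_spec hθ).2.2.1]
  · rw [(lc_spec hθ).2.1 P.x hP]

lemma R21_nrm_div (ζ : E) (hζ : ζ ^ ℓ = 1) (h0 : ζ ≠ 0) (h h' : (Fn ℓ f)ˣ) :
    nrm ζ hζ h0 (h / h') = nrm ζ hζ h0 h / nrm ζ hζ h0 h' := by
  rw [eq_div_iff_mul_eq', ← nrm_mul, div_mul_cancel]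

lemma R21_nrm_sym (σ : Sym f) (ζ : E) (hζ : ζ ^ ℓ = 1) (h0 : ζ ≠ 0)
    (hσ : (σ : E ≃+* E) ζ = ζ) (h : (Fn ℓ f)ˣ) :
    nrm ζ hζ h0 (symU σ h) = symU σ (nrm ζ hζ h0 h) := by
  have key : ∀ i, (rotU ζ hζ h0)^[i] (symU σ h) = symU σ ((rotU ζ hζ h0)^[i] h) := by
    intro i
    induction i with
    | zero => rfl
    | succ i ih =>
      rw [Function.iterate_succ_apply', Function.iterate_succ_apply', ih,
        symU_rotU σ ζ hζ h0 hσ]
  rw [nrm, nrm, map_prod]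
  exact Finset.prod_congr rfl fun i _ => key i

theorem kummer_formula (ζ : E) (hζ : IsPrimitiveRoot ζ ℓ) (Q : Jac ℓ f) (D : Pt ℓ f →₀ ℤ)
    (hQ : Q - zJ ζ hζ.pow_eq_one Q = cl D) :
    ∃ z : E → E, (∀ θ, f.eval θ = 0 → z θ ≠ 0 ∧
      z θ ^ ℓ = ((-1) ^ (ℓ + 1)) ^ atR D θ * uval D θ) ∧
      ∀ (σ : Sym f), (σ : E ≃+* E) ζ = ζ → D.mapDomain (Pt.sym σ) = D → ∀ n : E → ℤ,
        (∀ θ, f.eval θ = 0 →
          (σ : E ≃+* E) (z θ) = ζ ^ n ((σ : E ≃+* E) θ) * z ((σ : E ≃+* E) θ)) →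
        symJ σ Q - Q = ram n := by
  have h0 : ζ ≠ 0 := hζ.ne_zero hG.prime.ne_zero
  obtain ⟨D₁, rfl⟩ := cl_surjective Q
  rw [zJ_cl] at hQ
  have h1 : cl (D₁ - D₁.mapDomain (Pt.rot ζ hζ.pow_eq_one) - D) = 0 := by
    rw [map_sub, map_sub, hQ, sub_self]
  obtain ⟨w₀, hw₀⟩ := exists_div_of_cl_eq_zero _ h1
  obtain ⟨c, hc⟩ := exists_nrm_eq ζ hζ h0 w₀
  obtain ⟨w, hw, hn⟩ := R18_exists_normalized ζ hζ.pow_eq_one h0 w₀ c _ hc
  rw [hw₀] at hw hn
  have hx : nrm ζ hζ.pow_eq_one h0 w = (xprod D)⁻¹ := by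
    rw [hn, R18_xprod_sub, R18_xprod_sub, xprod_rot, div_self', one_div]
  have hord : ∀ θ, ordR θ w = -atR D θ := by
    intro θ
    rw [R21_ordR, hw, R21_atR_sub, R21_atR_sub, R21_atR_rot _ h0, sub_self, zero_sub]
  refine ⟨fun θ => ζ ^ atR D₁ θ * (lc θ w : E)⁻¹, fun θ hθ => ⟨?_, ?_⟩, ?_⟩
  · exact mul_ne_zero (zpow_ne_zero _ h0) (inv_ne_zero (lc θ w).ne_zero)
  · have h2 := R18_lc_nrm ζ hζ.pow_eq_one h0 hθ w
    rw [hx, map_inv, Units.val_inv_eq_inv_val, R21_lc_xprod hθ, hord, ← zpow_natCast (ζ ^ _),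
      ← zpow_mul, mul_comm (-atR D θ), zpow_mul, zpow_natCast, R21_eps hζ hG.prime, zpow_neg] at h2
    have h3 : (ζ ^ atR D₁ θ) ^ ℓ = 1 := by
      rw [← zpow_natCast, ← zpow_mul, mul_comm, zpow_mul, zpow_natCast, hζ.pow_eq_one, one_zpow]
    have hε0 : (((-1 : E) ^ (ℓ + 1)) ^ atR D θ) ≠ 0 :=
      zpow_ne_zero _ (pow_ne_zero _ (neg_ne_zero.2 one_ne_zero))
    have hε : (((-1 : E) ^ (ℓ + 1)) ^ atR D θ) * (((-1 : E) ^ (ℓ + 1)) ^ atR D θ) = 1 := by
      rw [← mul_zpow, ← pow_add, Even.neg_one_pow ⟨ℓ + 1, rfl⟩, one_zpow]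
    have hu0 : uval D θ ≠ 0 := by
      rw [← R21_lc_xprod hθ]
      exact (lc θ (xprod D)).ne_zero
    have hl0 : (lc θ w : E) ^ ℓ ≠ 0 := pow_ne_zero _ (lc θ w).ne_zero
    rw [mul_pow, h3, one_mul, inv_pow]
    rw [inv_eq_iff_eq_inv, mul_inv, h2, ← mul_assoc]
    have h4 : (((-1 : E) ^ (ℓ + 1)) ^ atR D θ)⁻¹ * (((-1 : E) ^ (ℓ + 1)) ^ atR D θ)⁻¹ = 1 := by
      rw [← mul_inv, hε, inv_one]
    rw [h4, one_mul]
  · intro σ hσζ hσD n hzn
    have hdiv : D₁.mapDomain (Pt.sym σ) - D₁ -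
        (D₁.mapDomain (Pt.sym σ) - D₁).mapDomain (Pt.rot ζ hζ.pow_eq_one) =
        div (symU σ w / w) := by
      rw [R18_div_div, div_symU, hw]
      have h5 : ∀ A B : Pt ℓ f →₀ ℤ, ∀ g : Pt ℓ f → Pt ℓ f,
          (A - B).mapDomain g = A.mapDomain g - B.mapDomain g := fun A B g =>
        map_sub (Finsupp.mapDomain.addMonoidHom g) A B
      rw [h5, h5, h5, hσD, ← Finsupp.mapDomain_comp, ← Finsupp.mapDomain_comp,
        R21_sym_rot σ ζ hζ.pow_eq_one hσζ]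
      abel
    have hnh : nrm ζ hζ.pow_eq_one h0 (symU σ w / w) = 1 := by
      rw [R21_nrm_div, R21_nrm_sym σ ζ _ h0 hσζ, hx, map_inv, symU_xprod, hσD, div_self']
    have hm := cl_eq_ram ζ hζ h0 (D₁.mapDomain (Pt.sym σ) - D₁) (symU σ w / w) hdiv hnh
      (fun θ => atR D₁ (((σ⁻¹ : Sym f) : E ≃+* E) θ) - n θ - atR D₁ θ) (by
        intro θ' hθ'
        obtain ⟨θ, rfl⟩ := (σ : E ≃+* E).surjective θ'
        have hθ : f.eval θ = 0 := by
          rw [R21_eval] at hθ'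
          exact (map_eq_zero_iff _ (σ : E ≃+* E).injective).1 hθ'
        have h6 := hzn θ hθ
        simp only at h6
        have h7 : (((σ⁻¹ : Sym f) : E ≃+* E)) ((σ : E ≃+* E) θ) = θ :=
          (σ : E ≃+* E).symm_apply_apply θ
        rw [map_mul, map_zpow₀, hσζ, map_inv₀] at h6
        rw [_root_.map_div, Units.val_div_eq_div_val, (lc_spec hθ).2.2.2.2.2 σ w, h7]
        have h8 : ((lc ((σ : E ≃+* E) θ) w : Eˣ) : E) ≠ 0 := (lc ((σ : E ≃+* E) θ) w).ne_zero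
        have h9 : (σ : E ≃+* E) (lc θ w : E) ≠ 0 :=
          (map_ne_zero_iff _ (σ : E ≃+* E).injective).2 (lc θ w).ne_zero
        have h10 : ∀ m : ℤ, ζ ^ m ≠ 0 := fun m => zpow_ne_zero m h0
        rw [zpow_sub₀ h0, zpow_sub₀ h0]
        have h11 := h10 (n ((σ : E ≃+* E) θ))
        have h12 := h10 (atR D₁ ((σ : E ≃+* E) θ))
        have h13 := h10 (atR D₁ θ)
        generalize ζ ^ n ((σ : E ≃+* E) θ) = N at *
        generalize ζ ^ atR D₁ ((σ : E ≃+* E) θ) = A at *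
        generalize ζ ^ atR D₁ θ = B at *
        generalize (σ : E ≃+* E) (lc θ w : E) = S at *
        generalize ((lc ((σ : E ≃+* E) θ) w : Eˣ) : E) = T at *
        field_simp at h6 ⊢
        linear_combination -h6)
    rw [symJ_cl, ← map_sub, hm]
    refine ram_congr _ _ fun θ' hθ' => ?_
    obtain ⟨θ, rfl⟩ := (σ : E ≃+* E).surjective θ'
    have hθ : f.eval θ = 0 := by
      rw [R21_eval] at hθ'
      exact (map_eq_zero_iff _ (σ : E ≃+* E).injective).1 hθ'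
    have h7 : (((σ⁻¹ : Sym f) : E ≃+* E)) ((σ : E ≃+* E) θ) = θ :=
      (σ : E ≃+* E).symm_apply_apply θ
    simp only [R21_atR_sub, R21_atR_sym σ D₁ hθ, h7]
    exact ⟨0, by ring⟩

end Pool.Agent.Lib.MP_89bcae_ag.Sup

end

section

/-!
ROW U01 (60-120 lines). `uval D θ = ∏_P (θ - x(P))^{D(P)}` (regularized): equivariance, examples.

PROOF. `Finsupp.prod_mapDomain_index` or reindexing the product over the support along the bijection
`Pt.sym σ` of the points: `(P.sym σ).x = σ P.x`, `σ (f'(θ)) = f'(σ θ)` since `σ` fixes the coefficients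
of `f`, `P.x = θ ↔ (P.sym σ).x = σ θ`. For `ramDiv e` the support is in the set of the points
`(θ', 0)`, `θ'` root of `f` (`f.roots.toFinset`; the point `(θ, 0)` exists for each root).
-/

open Polynomial

open scoped Classical

namespace Pool.Agent.Lib.MP_89bcae_ag.Sup

universe u

variable {ℓ : ℕ} {E : Type u} [Field E] {f : E[X]} [hG : IsGood ℓ f]

omit hG in
lemma U01_deriv_ne (hs : f.Separable) {θ : E} (hθ : f.eval θ = 0) :
    (derivative f).eval θ ≠ 0 := by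
  obtain ⟨a, b, hab⟩ := hs
  intro h0
  have h := congrArg (eval θ) hab
  simp [hθ, h0] at h

omit hG in
lemma U01_sym_inj (σ : Sym f) : Function.Injective (Pt.sym (ℓ := ℓ) σ) := by
  intro P Q h
  ext
  · exact (σ : E ≃+* E).injective (congrArg Pt.x h)
  · exact (σ : E ≃+* E).injective (congrArg Pt.y h)

omit hG in
lemma U01_eval_sym (σ : Sym f) (p : E[X]) (hp : p.map ((σ : E ≃+* E) : E →+* E) = p) (θ : E) :
    p.eval ((σ : E ≃+* E) θ) = (σ : E ≃+* E) (p.eval θ) := by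
  have h := Polynomial.eval₂_hom ((σ : E ≃+* E) : E →+* E) θ (p := p)
  rw [← Polynomial.eval_map, hp] at h
  exact h

omit hG in
lemma U01_map_deriv (σ : Sym f) :
    (derivative f).map ((σ : E ≃+* E) : E →+* E) = derivative f := by
  rw [← Polynomial.derivative_map]
  exact congrArg _ σ.2

lemma uval_ne_zero (D : Pt ℓ f →₀ ℤ) {θ : E} (hθ : f.eval θ = 0) : uval D θ ≠ 0 := by
  unfold uval
  rw [Finsupp.prod, Finset.prod_ne_zero_iff]
  intro P _
  apply zpow_ne_zero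
  split_ifs with h
  · exact inv_ne_zero (U01_deriv_ne (IsGood.separable ℓ) hθ)
  · exact sub_ne_zero.mpr (Ne.symm h)

lemma sym_uval (σ : Sym f) (D : Pt ℓ f →₀ ℤ) (hD : D.mapDomain (Pt.sym σ) = D) (θ : E) :
    (σ : E ≃+* E) (uval D θ) = uval D ((σ : E ≃+* E) θ) := by
  conv_rhs => rw [← hD]
  unfold uval
  rw [Finsupp.prod_mapDomain_index_inj (U01_sym_inj σ), Finsupp.prod, Finsupp.prod, map_prod]
  apply Finset.prod_congr rfl
  intro P _
  rw [map_zpow₀]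
  congr 1
  have hx : (P.sym σ).x = (σ : E ≃+* E) P.x := rfl
  by_cases h : P.x = θ
  · rw [if_pos h, if_pos (by rw [hx, h]), map_inv₀, U01_eval_sym σ _ (U01_map_deriv σ)]
  · rw [if_neg h, if_neg (by
      rw [hx]
      exact fun h' => h ((σ : E ≃+* E).injective h')), map_sub, hx]

lemma eval_sym_eq_zero (σ : Sym f) {θ : E} : f.eval ((σ : E ≃+* E) θ) = 0 ↔ f.eval θ = 0 := by
  rw [U01_eval_sym σ f σ.2]
  exact map_eq_zero_iff _ (σ : E ≃+* E).injective

lemma sym_atR (σ : Sym f) (D : Pt ℓ f →₀ ℤ) (hD : D.mapDomain (Pt.sym σ) = D) (θ : E) :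
    atR D ((σ : E ≃+* E) θ) = atR D θ := by
  have h0 : f.eval ((σ : E ≃+* E) θ) = 0 ↔ f.eval θ = 0 := by
    rw [U01_eval_sym σ f σ.2]
    exact map_eq_zero_iff _ (σ : E ≃+* E).injective
  unfold atR
  by_cases hθ : f.eval θ = 0
  · rw [dif_pos hθ, dif_pos (h0.mpr hθ)]
    have hP : (0 : E) ^ ℓ = f.eval θ := by rw [zero_pow hG.prime.ne_zero, hθ]
    have e : (⟨(σ : E ≃+* E) θ, 0, by rw [zero_pow hG.prime.ne_zero, h0.mpr hθ]⟩ : Pt ℓ f)
        = Pt.sym σ ⟨θ, 0, hP⟩ := by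
      ext
      · rfl
      · exact (map_zero ((σ : E ≃+* E) : E →+* E)).symm
    rw [e]
    conv_lhs => rw [← hD]
    rw [Finsupp.mapDomain_apply (U01_sym_inj σ)]
  · rw [dif_neg hθ, dif_neg (fun h => hθ (h0.mp h))]

lemma atR_ramDiv (e : E → ℤ) {θ : E} (hθ : f.eval θ = 0) :
    atR (ramDiv e : Pt ℓ f →₀ ℤ) θ = e θ := by
  unfold atR
  rw [dif_pos hθ, ramDiv_apply, if_pos rfl]

lemma uval_ramDiv (e : E → ℤ) {θ : E} (hθ : f.eval θ = 0) :
    uval (ramDiv e : Pt ℓ f →₀ ℤ) θ = ((derivative f).eval θ)⁻¹ ^ e θ *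
      ∏ θ' ∈ f.roots.toFinset.erase θ, (θ - θ') ^ e θ' := by
  have hf0 : f ≠ 0 := (IsGood.separable ℓ (f := f)).ne_zero
  have hr : ∀ t : E, t ∈ f.roots.toFinset ↔ f.eval t = 0 := by
    intro t
    rw [Multiset.mem_toFinset, mem_roots hf0, IsRoot.def]
  let S : Finset (Pt ℓ f) := f.roots.toFinset.attach.map
    ⟨fun t => ⟨t.1, 0, by rw [zero_pow hG.prime.ne_zero, (hr t.1).mp t.2]⟩,
      fun a b h => Subtype.ext (congrArg Pt.x h)⟩
  have hS : (ramDiv e : Pt ℓ f →₀ ℤ).support ⊆ S := by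
    intro P hP
    rw [Finsupp.mem_support_iff, ramDiv_apply] at hP
    have hy : P.y = 0 := by
      by_contra h
      exact hP (if_neg h)
    have hx : f.eval P.x = 0 := by rw [← P.eq, hy, zero_pow hG.prime.ne_zero]
    refine Finset.mem_map.mpr ⟨⟨P.x, (hr _).mpr hx⟩, Finset.mem_attach _ _, ?_⟩
    ext
    · rfl
    · exact hy.symm
  have h1 : uval (ramDiv e : Pt ℓ f →₀ ℤ) θ = ∏ P ∈ S,
      (if P.x = θ then ((derivative f).eval θ)⁻¹ else θ - P.x) ^ ((ramDiv e : Pt ℓ f →₀ ℤ) P) :=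
    Finsupp.prod_of_support_subset _ hS _ (fun _ _ => zpow_zero _)
  rw [h1, Finset.prod_map]
  have h2 : ∀ t ∈ f.roots.toFinset.attach,
      (fun P : Pt ℓ f => (if P.x = θ then ((derivative f).eval θ)⁻¹ else θ - P.x) ^
        ((ramDiv e : Pt ℓ f →₀ ℤ) P)) (⟨t.1, 0, by
          rw [zero_pow hG.prime.ne_zero, (hr t.1).mp t.2]⟩ : Pt ℓ f)
      = (fun t' : E => (if t' = θ then ((derivative f).eval θ)⁻¹ else θ - t') ^ e t') t.1 := by
    intro t _
    simp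
  refine (Finset.prod_congr rfl h2).trans ?_
  rw [Finset.prod_attach f.roots.toFinset
    (fun t' : E => (if t' = θ then ((derivative f).eval θ)⁻¹ else θ - t') ^ e t'),
    ← Finset.mul_prod_erase _ _ ((hr θ).mpr hθ)]
  rw [if_pos rfl]
  congr 1
  apply Finset.prod_congr rfl
  intro t ht
  rw [if_neg (Finset.ne_of_mem_erase ht)]

end Pool.Agent.Lib.MP_89bcae_ag.Sup

end

section

/-!
ROW L05 (200-350 lines). THE LOCAL DIVISIBILITY LEMMA.

STATEMENT. Let `Γ` be a group of automorphisms as in `LocGrp` with uniformizer value `ϖ`, let `D`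
be a divisor fixed by `Γ`, suppose `v d` is in `ϖ ^ (ℓ ℤ[1/p])`, and that the roots near `r` form one
orbit under `Γ`, `μ` their number, `θ` one of them. Then `v (uval D θ) ^ μ` is in
`ϖ ^ (ℓ ℤ[1/p])`.

PROOF. Notation: `f = d⁻¹ ∏ (X - θ')`, `m = deg f` prime to `ℓ`, `N = near r`. For a point
`P = (x, b)`, `b^ℓ = f(x)`:
 (i) `v x > 1`: `v (b)^ℓ = v(d)⁻¹ v(x)^m` (`v_eval_of_large`), and `v (θ - x) = v x`;
 (ii) `v x ≤ 1` with residue different from `r`: `v (θ - x) = 1` for `θ` in `N`;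
 (iii) residue `r`, `b ≠ 0`: `v(b)^ℓ = v(d)⁻¹ ∏_{θ' ∈ N} v (x - θ')` (`prod_near`);
 (iv) `b = 0`, `x = θ'` in `N`. All `D(θ', 0)`, `θ'` in `N`, are equal to one integer `n`, because
`D` is fixed by `Γ` which permutes `N` transitively. The contribution of these points to `uval D θ`
has absolute value `v(f'(θ))^{-n} ∏_{θ' ∈ N, ≠ θ} v (θ - θ')^n = v(d)^n` (`v_derivative`).
(Points with `b = 0` whose `x` is not in `N` are in case (ii).)
So `v (uval D θ) = v(d)^n · v(X) · ∏_{(iii)} v (θ - x(P))^{D(P)}`, `X = ∏_{(i)} x(P)^{D(P)}`.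
The left side is the same for all `θ` in `N` (`σ (uval D θ) = uval D (σ θ)` for `σ` in `Γ`), so its
`μ`-th power is the product over `N`:
`v(d)^{μ n} v(X)^μ ∏_{(iii)} (v(b_P)^ℓ v(d))^{D(P)} = v(d)^{..} v(X)^μ v(B)^ℓ`, where
`B = ∏_{(iii)} b_P^{D(P)}` is fixed by `Γ` (which permutes the points of type (iii), as it preserves `v`
and fixes `r`): `v(B)` is in `ϖ^{ℤ[1/p]}` so `v(B)^ℓ` is fine; `v(d)` is fine; `X` is fixed by `Γ` and
`v(X)^m = v(B')^ℓ v(d)^{..}` with `B' = ∏_{(i)} b_P^{D(P)}` fixed by `Γ`, so `v(X)` is in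
`ϖ ^ (ℓ ℤ[1/p])` by `Val.of_pow`.
-/

open Polynomial

open scoped Classical

namespace Pool.Agent.Lib.MP_89bcae_ag.Sup

universe u

variable {F M : Type u} [Field F] [Field M] [Algebra F M] {v : AbsoluteValue M ℝ} {a : F} {t : M}

private lemma L05_v_sub_comm (x y : M) : v (x - y) = v (y - x) := by
  rw [← neg_sub, map_neg_eq_map]

private lemma L05_sym_injective {ℓ : ℕ} {f : M[X]} (σ : Sym f) :
    Function.Injective (Pt.sym σ : Pt ℓ f → Pt ℓ f) := by
  intro P Q hPQ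
  have hx : (σ : M ≃+* M) P.x = (σ : M ≃+* M) Q.x := congrArg Pt.x hPQ
  have hy : (σ : M ≃+* M) P.y = (σ : M ≃+* M) Q.y := congrArg Pt.y hPQ
  exact Pt.ext ((σ : M ≃+* M).injective hx) ((σ : M ≃+* M).injective hy)

/-- A product over an invariant divisor of equivariant quantities is invariant. -/
private lemma L05_prod_fixed {ℓ : ℕ} {f : M[X]} (σ : Sym f) (D : Pt ℓ f →₀ ℤ)
    (hD : D.mapDomain (Pt.sym σ) = D) (φ : Pt ℓ f → M)
    (hφ : ∀ P, (σ : M ≃+* M) (φ P) = φ (P.sym σ)) :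
    (σ : M ≃+* M) (D.prod fun P n => φ P ^ n) = D.prod fun P n => φ P ^ n := by
  conv_rhs => rw [← hD, Finsupp.prod_mapDomain_index_inj (L05_sym_injective σ)]
  rw [map_finsuppProd]
  refine Finsupp.prod_congr ?_
  intro P _
  rw [map_zpow₀, hφ]

private lemma L05_prod_ne_zero {ℓ : ℕ} {f : M[X]} (D : Pt ℓ f →₀ ℤ) (φ : Pt ℓ f → M)
    (hφ : ∀ P, φ P ≠ 0) : (D.prod fun P n => φ P ^ n) ≠ 0 :=
  Finset.prod_ne_zero_iff.2 fun P _ => zpow_ne_zero _ (hφ P)

private lemma L05_v_prod {ℓ : ℕ} {f : M[X]} (D : Pt ℓ f →₀ ℤ) (φ : Pt ℓ f → M) :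
    v (D.prod fun P n => φ P ^ n) = ∏ P ∈ D.support, v (φ P) ^ D P := by
  rw [Finsupp.prod, map_prod]
  refine Finset.prod_congr rfl ?_
  intro P _
  rw [map_zpow₀]

/-- The values of `∏ φ(P) ^ D(P)` for an equivariant function `φ`. -/
private lemma L05_val {ℓ p : ℕ} {f : M[X]} {ϖ : ℝ} {Γ : Subgroup (Sym f)}
    (hΓ : LocGrp p F v t ϖ Γ) (D : Pt ℓ f →₀ ℤ) (hD : ∀ σ ∈ Γ, D.mapDomain (Pt.sym σ) = D)
    (φ : Pt ℓ f → M) (h0 : ∀ P, φ P ≠ 0)
    (hφ : ∀ σ ∈ Γ, ∀ P, (σ : M ≃+* M) (φ P) = φ (P.sym σ)) :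
    Val p ϖ (∏ P ∈ D.support, v (φ P) ^ D P) := by
  rw [← L05_v_prod]
  exact hΓ.disc _ (L05_prod_ne_zero D φ h0) fun σ hσ => L05_prod_fixed σ D (hD σ hσ) φ (hφ σ hσ)

private lemma L05_v_eq {ℓ : ℕ} {g : F[X]} {d : M} (hd : d ≠ 0) (P : Pt ℓ (locPoly g t d)) :
    v (aeval P.x g - t) = v d * v P.y ^ ℓ := by
  rw [← map_pow, P.eq, eval_locPoly, ← map_mul, mul_inv_cancel_left₀ hd]

private lemma L05_factor (h : LocCtx v a t) {ℓ : ℕ} {g : F[X]} (hg : g.Monic)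
    (hm : g.natDegree ≠ 0) {d : M} (hd : d ≠ 0) [hG : IsGood ℓ (locPoly g t d)] (r : F)
    (P : Pt ℓ (locPoly g t d)) :
    ∏ θ ∈ near v (locPoly g t d) r,
      v (if P.x = θ then ((derivative (locPoly g t d)).eval θ)⁻¹ else θ - P.x) =
    v (if 1 < v P.x then P.x else 1) ^ (near v (locPoly g t d) r).card *
      ((if v (P.x - algebraMap F M r) < 1 then v d else 1) *
        v (if v (P.x - algebraMap F M r) < 1 ∧ P.y ≠ 0 then P.y else 1) ^ ℓ) := by
  have hAM : IsAlgClosed M := hG.alg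
  have hs := hG.separable
  have hf0 := locPoly_ne_zero (t := t) hg hm hd
  have hnear : ∀ θ ∈ near v (locPoly g t d) r, (locPoly g t d).eval θ = 0 ∧
      aeval θ g = t ∧ v θ ≤ 1 ∧ v (θ - algebraMap F M r) < 1 := by
    intro θ hθ
    unfold near at hθ
    rw [Finset.mem_filter, mem_rts hf0] at hθ
    have h1 := (eval_locPoly_eq_zero hd).1 hθ.1
    exact ⟨hθ.1, h1, h.v_root_le hg hm h1, hθ.2⟩
  by_cases hbig : 1 < v P.x
  · have hnr : ¬ v (P.x - algebraMap F M r) < 1 := by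
      intro h1
      have h2 : P.x = (P.x - algebraMap F M r) + algebraMap F M r := by ring
      have h3 : v P.x ≤ 1 := by
        rw [h2]
        exact (h.nonarch _ _).trans (max_le h1.le (h.v_const_le r))
      exact absurd hbig (not_lt.2 h3)
    rw [if_pos hbig, if_neg hnr, if_neg (fun hh => hnr hh.1), map_one, one_pow, mul_one, mul_one,
      Finset.prod_congr rfl (g := fun _ => v P.x), Finset.prod_const]
    intro θ hθ
    obtain ⟨-, -, hθ1, -⟩ := hnear θ hθ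
    rw [if_neg (by rintro rfl; exact absurd hbig (not_lt.2 hθ1))]
    apply le_antisymm
    · have : θ - P.x = θ + -P.x := by ring
      rw [this]
      refine (h.nonarch _ _).trans (max_le (hθ1.trans hbig.le) ?_)
      rw [map_neg_eq_map]
    · have : P.x = -(θ - P.x) + θ := by ring
      have h1 := h.nonarch (-(θ - P.x)) θ
      rw [← this, map_neg_eq_map] at h1
      rcases le_max_iff.1 h1 with h2 | h2
      · exact h2
      · exact absurd (h2.trans hθ1) (not_le.2 hbig)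
  · rw [if_neg hbig, map_one, one_pow, one_mul]
    by_cases hr : v (P.x - algebraMap F M r) < 1
    · rw [if_pos hr]
      by_cases hy : P.y = 0
      · rw [if_neg (fun hh => hh.2 hy), map_one, one_pow, mul_one]
        have hPx : (locPoly g t d).eval P.x = 0 := by
          rw [← P.eq, hy, zero_pow hG.prime.ne_zero]
        have hmem : P.x ∈ near v (locPoly g t d) r := by
          unfold near
          rw [Finset.mem_filter, mem_rts hf0]
          exact ⟨hPx, hr⟩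
        rw [← Finset.mul_prod_erase _ _ hmem, if_pos rfl, map_inv₀, h.v_derivative hg hm hd hs hmem]
        have e1 : ∏ θ ∈ (near v (locPoly g t d) r).erase P.x,
            v (if P.x = θ then ((derivative (locPoly g t d)).eval θ)⁻¹ else θ - P.x) =
            ∏ θ ∈ (near v (locPoly g t d) r).erase P.x, v (P.x - θ) := by
          refine Finset.prod_congr rfl ?_
          intro θ hθ
          rw [if_neg (Finset.ne_of_mem_erase hθ).symm, L05_v_sub_comm]
        rw [e1]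
        have h2 : ∏ θ ∈ (near v (locPoly g t d) r).erase P.x, v (P.x - θ) ≠ 0 := by
          refine Finset.prod_ne_zero_iff.2 ?_
          intro θ hθ
          exact (v.ne_zero_iff).2 (sub_ne_zero.2 (Finset.ne_of_mem_erase hθ).symm)
        rw [mul_inv, inv_inv, mul_assoc, inv_mul_cancel₀ h2, mul_one]
      · rw [if_pos ⟨hr, hy⟩, ← L05_v_eq hd P, h.prod_near hg hm hd hs hr]
        refine Finset.prod_congr rfl ?_
        intro θ hθ
        rw [if_neg, L05_v_sub_comm]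
        rintro rfl
        apply hy
        have h1 := P.eq
        rw [(hnear _ hθ).1] at h1
        exact pow_eq_zero_iff hG.prime.ne_zero |>.1 h1
    · rw [if_neg hr, if_neg (fun hh => hr hh.1), map_one, one_pow, mul_one]
      refine Finset.prod_eq_one ?_
      intro θ hθ
      obtain ⟨-, -, hθ1, hθr⟩ := hnear θ hθ
      rw [if_neg (by rintro rfl; exact hr hθr)]
      apply le_antisymm
      · have : θ - P.x = θ + -P.x := by ring
        rw [this]
        refine (h.nonarch _ _).trans (max_le hθ1 ?_)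
        rw [map_neg_eq_map]
        exact not_lt.1 hbig
      · by_contra hlt
        apply hr
        have : P.x - algebraMap F M r = -(θ - P.x) + (θ - algebraMap F M r) := by ring
        rw [this]
        refine lt_of_le_of_lt (h.nonarch _ _) (max_lt ?_ hθr)
        rw [map_neg_eq_map]
        exact not_le.1 hlt

theorem LocCtx.val_uval (h : LocCtx v a t) {ℓ p : ℕ} {g : F[X]} (hg : g.Monic)
    (hm : g.natDegree ≠ 0) {d : M} (hd : d ≠ 0) [hG : IsGood ℓ (locPoly g t d)]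
    (hmℓ : g.natDegree.Coprime ℓ) {ϖ : ℝ} {Γ : Subgroup (Sym (locPoly g t d))}
    (hΓ : LocGrp p F v t ϖ Γ) (hdv : Val p (ϖ ^ ℓ) (v d))
    (D : Pt ℓ (locPoly g t d) →₀ ℤ) (hD : ∀ σ ∈ Γ, D.mapDomain (Pt.sym σ) = D) {r : F}
    (horb : ∀ θ ∈ near v (locPoly g t d) r, ∀ θ' ∈ near v (locPoly g t d) r,
      ∃ σ ∈ Γ, (σ : M ≃+* M) θ = θ') {θ : M} (hθ : θ ∈ near v (locPoly g t d) r) :
    Val p (ϖ ^ ℓ) (v (uval D θ) ^ (near v (locPoly g t d) r).card) := by
  have hsymx : ∀ (σ : Sym (locPoly g t d)) (P : Pt ℓ (locPoly g t d)),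
      (P.sym σ).x = (σ : M ≃+* M) P.x := fun σ P => rfl
  have hsymy : ∀ (σ : Sym (locPoly g t d)) (P : Pt ℓ (locPoly g t d)),
      (P.sym σ).y = (σ : M ≃+* M) P.y := fun σ P => rfl
  -- the product over the roots near `r`
  have hconst : ∀ θ' ∈ near v (locPoly g t d) r, v (uval D θ') = v (uval D θ) := by
    intro θ' hθ'
    obtain ⟨σ, hσ, hσθ⟩ := horb θ hθ θ' hθ'
    rw [← hσθ, ← sym_uval σ D (hD σ hσ), hΓ.inv σ hσ]
  have hprod : v (uval D θ) ^ (near v (locPoly g t d) r).card =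
      ∏ θ' ∈ near v (locPoly g t d) r, v (uval D θ') := by
    rw [Finset.prod_congr rfl hconst, Finset.prod_const]
  have hprod2 : ∏ θ' ∈ near v (locPoly g t d) r, v (uval D θ') =
      (∏ P ∈ D.support, v (if 1 < v P.x then P.x else 1) ^ D P) ^
        (near v (locPoly g t d) r).card *
      ((∏ P ∈ D.support, (if v (P.x - algebraMap F M r) < 1 then v d else 1) ^ D P) *
        (∏ P ∈ D.support,
          v (if v (P.x - algebraMap F M r) < 1 ∧ P.y ≠ 0 then P.y else 1) ^ D P) ^ ℓ) := by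
    have e1 : ∀ θ' ∈ near v (locPoly g t d) r, v (uval D θ') = ∏ P ∈ D.support,
        v (if P.x = θ' then ((derivative (locPoly g t d)).eval θ')⁻¹ else θ' - P.x) ^ D P := by
      intro θ' _
      unfold uval
      rw [Finsupp.prod, map_prod]
      refine Finset.prod_congr rfl ?_
      intro P _
      rw [map_zpow₀]
    rw [Finset.prod_congr rfl e1, Finset.prod_comm, ← Finset.prod_pow, ← Finset.prod_pow,
      ← Finset.prod_mul_distrib, ← Finset.prod_mul_distrib]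
    refine Finset.prod_congr rfl ?_
    intro P _
    rw [Finset.prod_zpow, L05_factor h hg hm hd r P, mul_zpow, mul_zpow]
    congr 1
    · rw [← zpow_natCast, ← zpow_natCast, ← zpow_mul, ← zpow_mul, mul_comm]
    · congr 1
      rw [← zpow_natCast, ← zpow_natCast, ← zpow_mul, ← zpow_mul, mul_comm]
  rw [hprod, hprod2]
  -- the big part
  have hX : Val p ϖ (∏ P ∈ D.support, v (if 1 < v P.x then P.x else 1) ^ D P) := by
    refine L05_val hΓ D hD (fun P => if 1 < v P.x then P.x else 1) ?_ ?_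
    · intro P
      show (if 1 < v P.x then P.x else 1) ≠ 0
      split_ifs with h1
      · intro h0
        rw [h0, map_zero] at h1
        exact absurd h1 (not_lt.2 zero_le_one)
      · exact one_ne_zero
    · intro σ hσ P
      simp only [hsymx, hΓ.inv σ hσ]
      split_ifs
      · rfl
      · exact map_one _
  have hX' : Val p ϖ (∏ P ∈ D.support, v (if 1 < v P.x then P.y else 1) ^ D P) := by
    refine L05_val hΓ D hD (fun P => if 1 < v P.x then P.y else 1) ?_ ?_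
    · intro P
      show (if 1 < v P.x then P.y else 1) ≠ 0
      split_ifs with h1
      · intro h0
        have h2 := h.v_eval_of_large hg hm h1
        rw [L05_v_eq hd P, h0, map_zero, zero_pow hG.prime.ne_zero, mul_zero] at h2
        have h3 : 0 < v P.x ^ g.natDegree := pow_pos (zero_lt_one.trans h1) _
        exact absurd h2 h3.ne
      · exact one_ne_zero
    · intro σ hσ P
      simp only [hsymx, hsymy, hΓ.inv σ hσ]
      split_ifs
      · rfl
      · exact map_one _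
  have hXm : (∏ P ∈ D.support, v (if 1 < v P.x then P.x else 1) ^ D P) ^ g.natDegree =
      (∏ P ∈ D.support, (if 1 < v P.x then v d else 1) ^ D P) *
        (∏ P ∈ D.support, v (if 1 < v P.x then P.y else 1) ^ D P) ^ ℓ := by
    rw [← Finset.prod_pow, ← Finset.prod_pow, ← Finset.prod_mul_distrib]
    refine Finset.prod_congr rfl ?_
    intro P _
    have e1 : ∀ (x : ℝ) (m : ℕ), (x ^ D P) ^ m = (x ^ m) ^ D P := by
      intro x m
      rw [← zpow_natCast, ← zpow_natCast, ← zpow_mul, ← zpow_mul, mul_comm]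
    rw [e1, e1, ← mul_zpow]
    congr 1
    split_ifs with h1
    · rw [← h.v_eval_of_large hg hm h1, L05_v_eq hd P]
    · simp
  have hXpos : 0 < ∏ P ∈ D.support, v (if 1 < v P.x then P.x else 1) ^ D P := by
    refine Finset.prod_pos ?_
    intro P _
    refine zpow_pos ?_ _
    split_ifs with h1
    · exact zero_lt_one.trans h1
    · rw [map_one]; exact one_pos
  have hXval : Val p (ϖ ^ ℓ) (∏ P ∈ D.support, v (if 1 < v P.x then P.x else 1) ^ D P) := by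
    refine Val.of_pow hΓ.pos hΓ.lt_one hmℓ hXpos hX ?_
    rw [hXm]
    refine Val.mul (Val.prod _ _ ?_) (Val.pow_self ℓ hX')
    intro P _
    refine Val.zpow ?_ _
    split_ifs
    · exact hdv
    · exact Val.one _ _
  -- the part near `r`
  have hB : Val p ϖ (∏ P ∈ D.support,
      v (if v (P.x - algebraMap F M r) < 1 ∧ P.y ≠ 0 then P.y else 1) ^ D P) := by
    refine L05_val hΓ D hD
      (fun P => if v (P.x - algebraMap F M r) < 1 ∧ P.y ≠ 0 then P.y else 1) ?_ ?_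
    · intro P
      show (if v (P.x - algebraMap F M r) < 1 ∧ P.y ≠ 0 then P.y else 1) ≠ 0
      split_ifs with h1
      · exact h1.2
      · exact one_ne_zero
    · intro σ hσ P
      have e1 : v ((σ : M ≃+* M) P.x - algebraMap F M r) = v (P.x - algebraMap F M r) := by
        rw [← hΓ.inv σ hσ (P.x - algebraMap F M r), map_sub (σ : M ≃+* M), hΓ.fix σ hσ]
      have e2 : ((σ : M ≃+* M) P.y ≠ 0) = (P.y ≠ 0) := by
        rw [ne_eq, map_eq_zero_iff _ (σ : M ≃+* M).injective]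
      simp only [hsymx, hsymy, e1, e2]
      split_ifs
      · rfl
      · exact map_one _
  refine Val.mul (Val.pow hXval _) (Val.mul (Val.prod _ _ ?_) (Val.pow_self ℓ hB))
  intro P _
  refine Val.zpow ?_ _
  split_ifs
  · exact hdv
  · exact Val.one _ _

end Pool.Agent.Lib.MP_89bcae_ag.Sup

end

section

/-!
ROW L07. A place `t = a` where `D` has a simple zero and `g(x) = a` has simple roots (bad place): first facts.
-/

open Polynomial

open scoped Classical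

namespace Pool.Agent.Lib.MP_89bcae_ag.Sup

universe u

variable {F M : Type u} [Field F] [Field M] [Algebra F M] {v : AbsoluteValue M ℝ} {a : F} {t : M}

/-- The hypotheses at a bad place. -/
structure BadCtx (g D : F[X]) (a : F) (t δ : M) (ℓ : ℕ) : Prop where
  monic : g.Monic
  deg : g.natDegree ≠ 0
  cop : g.natDegree.Coprime ℓ
  zero : D.eval a = 0
  simple : (derivative D).eval a ≠ 0
  roots : ∀ r, g.eval r = a → (derivative g).eval r ≠ 0
  delta : δ ^ ℓ = aeval t D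
  ne : aeval t D ≠ 0

/-- The residue of an element of `M`. -/
noncomputable def rs (F : Type u) {M : Type u} [Field F] [Field M] [Algebra F M]
    (v : AbsoluteValue M ℝ) (x : M) : F :=
  if h : ∃ c : F, v (x - algebraMap F M c) < 1 then h.choose else 0

lemma LocCtx.rs_eq (h : LocCtx v a t) {x : M} {c : F} (hc : v (x - algebraMap F M c) < 1) :
    rs F v x = c := by
  have hex : ∃ c : F, v (x - algebraMap F M c) < 1 := ⟨c, hc⟩
  unfold rs
  rw [dif_pos hex]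
  exact h.residue_unique hex.choose_spec hc

lemma LocCtx.v_sub_rs (h : LocCtx v a t) {x : M} (hx : v x ≤ 1) :
    v (x - algebraMap F M (rs F v x)) < 1 := by
  have hex := h.residue x hx
  unfold rs
  rw [dif_pos hex]
  exact hex.choose_spec

/-- the residue of `t` is `a` -/
private lemma L07_quot (h : LocCtx v a t) {P : F[X]} {x : M} {c : F}
    (hx : v (x - algebraMap F M c) < 1) (hP : P.eval c = 0) :
    ∃ Q : F[X], aeval x P = (x - algebraMap F M c) * aeval x Q ∧ Q.eval c = (derivative P).eval c ∧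
      v (aeval x Q - algebraMap F M ((derivative P).eval c)) < 1 := by
  obtain ⟨Q, hQ⟩ : (X - C c) ∣ P := by
    rw [dvd_iff_isRoot]
    exact hP
  have hd : Q.eval c = (derivative P).eval c := by
    rw [hQ]
    simp
  refine ⟨Q, ?_, hd, ?_⟩
  · rw [hQ, map_mul, map_sub, aeval_X, aeval_C]
  · rw [← hd]
    exact h.residue_eval hx Q

lemma LocCtx.v_bad (h : LocCtx v a t) {g D : F[X]} {δ : M} {ℓ : ℕ} (hB : BadCtx g D a t δ ℓ) :
    v (aeval t D) = v (t - algebraMap F M a) ∧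
      v (aeval t D / (t - algebraMap F M a) - algebraMap F M ((derivative D).eval a)) < 1 := by
  obtain ⟨Q, h1, h2, h3⟩ := L07_quot h h.lt_one hB.zero
  have hta : t - algebraMap F M a ≠ 0 := sub_ne_zero.mpr h.ne
  constructor
  · rw [h1, map_mul, h.v_eq_one h3 hB.simple, mul_one]
  · rw [h1, mul_div_cancel_left₀ _ hta]
    exact h3

lemma LocCtx.eval_rs (h : LocCtx v a t) {g D : F[X]} {δ : M} {ℓ : ℕ} (hB : BadCtx g D a t δ ℓ)
    {θ : M} (hθ : aeval θ g = t) : g.eval (rs F v θ) = a :=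
  h.eval_residue hθ (h.v_sub_rs (h.v_root_le hB.monic hB.deg hθ))

/-- the valuation ring -/
private def L07_ring (h : LocCtx v a t) : Subring M where
  carrier := {x | v x ≤ 1}
  mul_mem' {x y} hx hy := by
    have hx' : v x ≤ 1 := hx
    have hy' : v y ≤ 1 := hy
    show v (x * y) ≤ 1
    rw [map_mul]
    exact mul_le_one₀ hx' (v.nonneg y) hy'
  one_mem' := by
    show v 1 ≤ 1
    rw [map_one]
  add_mem' {x y} hx hy := (h.nonarch x y).trans (max_le hx hy)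
  zero_mem' := by
    show v 0 ≤ 1
    rw [map_zero]
    exact zero_le_one
  neg_mem' {x} hx := by
    show v (-x) ≤ 1
    rw [v.map_neg]
    exact hx

/-- divided differences -/
private lemma L07_taylor (h : LocCtx v a t) (g : F[X]) {x y : M} (hx : v x ≤ 1) (hy : v y ≤ 1) :
    ∃ k : M, v k ≤ 1 ∧ aeval (x + y) g = aeval x g + aeval x (derivative g) * y + k * y ^ 2 := by
  set R := L07_ring h with hR
  set φ : F →+* R := (algebraMap F M).codRestrict R (fun c => h.v_const_le c) with hφ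
  set x' : R := ⟨x, hx⟩ with hx'
  set y' : R := ⟨y, hy⟩ with hy'
  obtain ⟨k, hk⟩ := (g.map φ).binomExpansion x' y'
  refine ⟨(k : M), k.2, ?_⟩
  have key : ∀ (p : F[X]) (z : R), (((p.map φ).eval z : R) : M) = aeval (z : M) p := by
    intro p z
    rw [eval_map]
    have e := hom_eval₂ p φ R.subtype z
    rw [aeval_def]
    exact e
  have h1 := congrArg (fun r : R => (r : M)) hk
  simp only [Subring.coe_add, Subring.coe_mul, SubmonoidClass.coe_pow, derivative_map, key] at h1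
  exact h1

/-- Two roots with the same residue are equal. -/
lemma LocCtx.rs_injOn (h : LocCtx v a t) {g D : F[X]} {δ : M} {ℓ : ℕ} (hB : BadCtx g D a t δ ℓ)
    {θ θ' : M} (hθ : aeval θ g = t) (hθ' : aeval θ' g = t) (he : rs F v θ = rs F v θ') :
    θ = θ' := by
  have hv := h.v_root_le hB.monic hB.deg hθ
  have hv' := h.v_root_le hB.monic hB.deg hθ'
  have hr := h.v_sub_rs hv
  have hr' := h.v_sub_rs hv'
  rw [← he] at hr'
  have hd : v (θ' - θ) < 1 := by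
    have e : θ' - θ = (θ' - algebraMap F M (rs F v θ)) + -(θ - algebraMap F M (rs F v θ)) := by
      ring
    rw [e]
    refine (h.nonarch _ _).trans_lt (max_lt hr' ?_)
    rw [v.map_neg]
    exact hr
  obtain ⟨k, hk, hkt⟩ := L07_taylor h g hv hd.le
  rw [add_sub_cancel, hθ', hθ] at hkt
  have h0 : (θ' - θ) * (aeval θ (derivative g) + k * (θ' - θ)) = 0 := by
    linear_combination -hkt
  rcases mul_eq_zero.mp h0 with h1 | h1
  · exact (sub_eq_zero.mp h1).symm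
  · exfalso
    have h2 := h.residue_eval hr (derivative g)
    have h3 : v (aeval θ (derivative g)) = 1 := h.v_eq_one h2 (hB.roots _ (h.eval_rs hB hθ))
    have h4 : aeval θ (derivative g) = -(k * (θ' - θ)) := by linear_combination h1
    rw [h4, v.map_neg, map_mul] at h3
    have h5 : v k * v (θ' - θ) < 1 := by
      calc v k * v (θ' - θ) ≤ 1 * v (θ' - θ) := mul_le_mul_of_nonneg_right hk (v.nonneg _)
        _ < 1 := by rw [one_mul]; exact hd
    linarith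

lemma LocCtx.exists_root (h : LocCtx v a t) [IsAlgClosed M] {g D : F[X]} {δ : M} {ℓ : ℕ}
    (hB : BadCtx g D a t δ ℓ) {β : F} (hβ : g.eval β = a) :
    ∃ θ : M, aeval θ g = t ∧ rs F v θ = β := by
  set P : M[X] := g.map (algebraMap F M) - C t with hP
  have hgm : (g.map (algebraMap F M)).Monic := hB.monic.map _
  have hdeg : (g.map (algebraMap F M)).natDegree = g.natDegree := natDegree_map _
  have hPm : P.Monic := by
    apply hgm.sub_of_left
    rw [degree_eq_natDegree hgm.ne_zero, hdeg]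
    refine (degree_C_le).trans_lt ?_
    have := hB.deg
    exact_mod_cast Nat.pos_of_ne_zero this
  have hsp : P.Splits := IsAlgClosed.splits P
  have hev := hsp.eval_eq_prod_roots_of_monic hPm (algebraMap F M β)
  have hevβ : P.eval (algebraMap F M β) = -(t - algebraMap F M a) := by
    rw [hP, eval_sub, eval_C, eval_map_algebraMap, aeval_algebraMap_apply]
    have e : (aeval β g : F) = a := by
      rw [← hβ]
      exact coe_aeval_eq_eval β ▸ rfl
    rw [e]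
    ring
  have hprod : v ((P.roots.map (fun θ => algebraMap F M β - θ)).prod) < 1 := by
    rw [← hev, hevβ, v.map_neg]
    exact h.lt_one
  have hex : ∃ θ ∈ P.roots, v (algebraMap F M β - θ) < 1 := by
    by_contra hcon
    push Not at hcon
    have h1 : 1 ≤ v ((P.roots.map (fun θ => algebraMap F M β - θ)).prod) := by
      rw [map_multiset_prod, Multiset.map_map]
      have h2 : ∀ s : Multiset M, (∀ θ ∈ s, 1 ≤ v (algebraMap F M β - θ)) →
          1 ≤ (Multiset.map (⇑v ∘ fun θ => algebraMap F M β - θ) s).prod := by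
        intro s
        induction s using Multiset.induction_on with
        | empty => intro _; simp
        | cons b s ih =>
          intro hs
          rw [Multiset.map_cons, Multiset.prod_cons]
          have h3 := hs b (Multiset.mem_cons_self b s)
          have h4 := ih fun θ hθ => hs θ (Multiset.mem_cons_of_mem hθ)
          exact one_le_mul_of_one_le_of_one_le h3 h4
      exact h2 _ hcon
    linarith
  obtain ⟨θ, hθ, hv⟩ := hex
  have hroot : aeval θ g = t := by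
    have h1 := (mem_roots hPm.ne_zero).mp hθ
    rw [IsRoot.def, hP, eval_sub, eval_C, eval_map_algebraMap] at h1
    exact sub_eq_zero.mp h1
  refine ⟨θ, hroot, h.rs_eq ?_⟩
  rw [← v.map_neg, neg_sub]
  exact hv

/-- `(t - a) / (θ - β)` has residue `g'(β)`, where `β` is the residue of `θ`. -/
lemma LocCtx.residue_quot (h : LocCtx v a t) {g D : F[X]} {δ : M} {ℓ : ℕ}
    (hB : BadCtx g D a t δ ℓ) {θ : M} (hθ : aeval θ g = t) :
    v ((t - algebraMap F M a) / (θ - algebraMap F M (rs F v θ)) -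
      algebraMap F M ((derivative g).eval (rs F v θ))) < 1 := by
  have hr := h.v_sub_rs (h.v_root_le hB.monic hB.deg hθ)
  have he := h.eval_rs hB hθ
  obtain ⟨Q, h1, h2, h3⟩ := L07_quot h (P := g - C a) hr (by rw [eval_sub, eval_C, he, sub_self])
  rw [map_sub, aeval_C, hθ] at h1
  have hta : t - algebraMap F M a ≠ 0 := sub_ne_zero.mpr h.ne
  have hne : θ - algebraMap F M (rs F v θ) ≠ 0 := by
    intro h0
    rw [h0, zero_mul] at h1
    exact hta h1
  rw [h1, mul_div_cancel_left₀ _ hne]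
  simpa using h3

lemma LocCtx.fix_root (h : LocCtx v a t) {g D : F[X]} {δ : M} {ℓ : ℕ}
    (hB : BadCtx g D a t δ ℓ) (τ : M ≃+* M) (hτ : ∀ x, v (τ x) = v x)
    (hc : ∀ c : F, τ (algebraMap F M c) = algebraMap F M c) (ht : τ t = t) {θ : M}
    (hθ : aeval θ g = t) : τ θ = θ := by
  have h1 : aeval (τ θ) g = t := by
    have e : (τ : M →+* M).comp (algebraMap F M) = algebraMap F M := by
      ext c
      exact hc c
    have h2 := hom_eval₂ g (algebraMap F M) (τ : M →+* M) θ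
    rw [e] at h2
    rw [aeval_def]
    have h3 : (τ : M →+* M) θ = τ θ := rfl
    rw [h3] at h2
    rw [← h2, ← aeval_def, hθ]
    exact ht
  apply h.rs_injOn hB h1 hθ
  apply h.rs_eq
  have hr := h.v_sub_rs (h.v_root_le hB.monic hB.deg hθ)
  have e : τ θ - algebraMap F M (rs F v θ) = τ (θ - algebraMap F M (rs F v θ)) := by
    rw [map_sub, hc]
  rw [e, hτ]
  exact hr

lemma LocCtx.char_of_unit (h : LocCtx v a t) {δ : M} {ℓ : ℕ} (hℓ : ℓ ≠ 0) (hδ : δ ≠ 0) {ζ : F}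
    (hζ : IsPrimitiveRoot ζ ℓ) (τ : M ≃+* M) (hτ : ∀ x, v (τ x) = v x)
    (hc : ∀ c : F, τ (algebraMap F M c) = algebraMap F M c) {z w : M} (i j : ℤ)
    (hj : τ δ = algebraMap F M ζ ^ j * δ) (hz : z ^ ℓ = (δ ^ ℓ) ^ i * w) (hw : τ w = w)
    (hw1 : v w = 1) : τ z = algebraMap F M ζ ^ (j * i) * z := by
  have hδi : δ ^ i ≠ 0 := zpow_ne_zero _ hδ
  set y := z / δ ^ i with hy
  have hyℓ : y ^ ℓ = w := by
    rw [hy, div_pow, hz, ← zpow_natCast, ← zpow_natCast, ← zpow_mul, ← zpow_mul, mul_comm (ℓ : ℤ) i,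
      mul_div_cancel_left₀ _ (zpow_ne_zero _ hδ)]
  have hvy : v y = 1 := by
    have h1 : v y ^ ℓ = 1 := by rw [← map_pow, hyℓ, hw1]
    exact (pow_eq_one_iff_of_nonneg (v.nonneg y) hℓ).mp h1
  have hfix := h.root_of_unit_fixed hℓ hζ τ hτ hc hvy (by rw [hyℓ, hw])
  have hzy : z = y * δ ^ i := by
    rw [hy, div_mul_cancel₀ _ hδi]
  have e1 : τ z = y * (algebraMap F M ζ ^ j * δ) ^ i := by
    rw [hzy, map_mul, hfix, map_zpow₀, hj]
  rw [e1, mul_zpow, ← zpow_mul]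
  conv_rhs => rw [hzy]
  ring


end Pool.Agent.Lib.MP_89bcae_ag.Sup

end

section

/-!
ROW L06 (150-300 lines). A place `t = a` with `v d = 1`: the exponents are divisible by `ℓ`.

Setting: `f = d⁻¹ (g(x) - t)`, `v d = 1`, `ϖ = v (t - a)`, `Γ` as in `LocGrp`, the roots of `f` near any
`r` form one orbit (if any). `R` is a nonzero polynomial over `F`, `z θ ^ ℓ = R(θ)` for the roots `θ`
of `f`; `Q` a class such that for all `σ` in `Γ`, `σ Q - Q = ram n` with `σ (z θ) = ζ^{n(σθ)} z(σθ)`;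
and the sum of the multiplicities in `R` of the roots of `g(x) = a` is divisible by `ℓ`. Then each of
these multiplicities is divisible by `ℓ`.

PROOF. `m = deg g` is prime to `ℓ`. `π Q := Q - Z Q` is fixed by `Γ` (`σ Q - Q` is killed by `π`,
`zJ_ram`, `zJ_symJ`). By R20, `π Q = cl D` with `D` fixed by `Γ`; by the Kummer formula R21 there are
`z' θ`, `(z' θ)^ℓ = ε^{..} uval D θ` with, for `σ` in `Γ` (write `σ (z' θ) = ζ^{n'(σθ)} z'(σθ)`, possible as
the `ℓ`-th powers agree: `σ (uval D θ) = uval D (σθ)`, `σ` permutes the roots),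
`σ Q - Q = ram n'`. So by `ram_eq_zero_iff` `n - n' ≡ c(σ)` constant on the roots. Let
`q_θ = z θ / z' θ`, `Q̃ = ∏_θ q_θ`, `x_θ = q_θ^m / Q̃`: `σ q_θ = ζ^{c(σ)} q_{σθ}`,
`σ Q̃ = ζ^{m c(σ)} Q̃` and `σ x_θ = x_{σθ}`. Fix `r` with `g(r) = a`, `N = near r`, `μ = #N ≥ 1`
(`card_near`), `θ ∈ N`, `ε = ` multiplicity of `r` in `R`. All values are positive reals:
 `v(x_θ)` is the same for all `θ` in `N` and `∏_{θ∈N} x_θ` is fixed by `Γ`: `v(x_θ)^μ ∈ ϖ^{Z[1/p]}`;
 `v(R(θ)) = v(θ - r)^ε` (the other factors `θ - β` are units), `v(θ - r)^μ = ϖ` (`v_sub_pow`);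
 `v(z' θ)^{ℓ μ} = v(uval D θ)^μ ∈ ϖ^{ℓ Z[1/p]}` (L05; the sign has absolute value one);
 `v(Q̃)^ℓ = ∏_θ v(R(θ)) / ∏_θ v(uval D θ)`: the numerator is `ϖ^{∑ ε_β}` over the fibre (group the
roots by residues: `∏_{θ∈near β} v(θ-β)^{ε_β} = ϖ^{ε_β}`), a power of `ϖ^ℓ` by hypothesis; the
denominator is a product of `v(uval D θ)^μ`'s. So `v(Q̃) ∈ ϖ^{Z[1/p]}` (`Val.root`).
Hence `(v(x_θ)^μ)^ℓ = v(q_θ)^{m ℓ μ} / v(Q̃)^{ℓ μ} = ϖ^{m ε} / (...)` with `(...)` in `ϖ^{ℓ Z[1/p]}`, and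
the left side is in `ϖ^{ℓ Z[1/p]}`, so `ℓ ∣ m ε` (`Val.dvd_of_zpow`), `ℓ ∣ ε`.
-/

open Polynomial

open scoped Classical

namespace Pool.Agent.Lib.MP_89bcae_ag.Sup

universe u

variable {F M : Type u} [Field F] [Field M] [Algebra F M] {v : AbsoluteValue M ℝ} {a : F} {t : M}

lemma LocCtx.L06_v_aeval (h : LocCtx v a t) {R : F[X]} (hR : R ≠ 0) {θ : M} {r : F}
    (hr : v (θ - algebraMap F M r) < 1) :
    v (aeval θ R) = v (θ - algebraMap F M r) ^ R.rootMultiplicity r := by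
  obtain ⟨q, hq, hqr⟩ := exists_eq_pow_rootMultiplicity_mul_and_not_dvd R hR r
  have h1 : q.eval r ≠ 0 := fun h0 => hqr (dvd_iff_isRoot.mpr h0)
  have h2 : v (aeval θ q) = 1 := h.v_eq_one (h.residue_eval hr q) h1
  have h3 : aeval θ R = (θ - algebraMap F M r) ^ R.rootMultiplicity r * aeval θ q := by
    conv_lhs => rw [hq]
    rw [map_mul, map_pow, map_sub, aeval_X, aeval_C]
  rw [h3, map_mul, map_pow, h2, mul_one]

lemma L06_prod_perm {N : Type*} [CommMonoid N] (σ : M ≃+* M) (S : Finset M)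
    (hS : ∀ θ ∈ S, σ θ ∈ S) (φ : M → N) :
    ∏ θ ∈ S, φ (σ θ) = ∏ θ ∈ S, φ θ := by
  have h1 : S.image σ = S := by
    apply Finset.eq_of_subset_of_card_le
    · intro x hx
      obtain ⟨y, hy, rfl⟩ := Finset.mem_image.mp hx
      exact hS y hy
    · rw [Finset.card_image_of_injective _ σ.injective]
  conv_rhs => rw [← h1]
  rw [Finset.prod_image (fun x _ y _ h => σ.injective h)]

lemma L06_zpow_congr {ℓ : ℕ} {ξ : M} (hξ : IsPrimitiveRoot ξ ℓ) (hξ0 : ξ ≠ 0) {i j : ℤ}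
    (hij : (ℓ : ℤ) ∣ i - j) : ξ ^ i = ξ ^ j := by
  have h1 : ξ ^ (i - j) = 1 := (hξ.zpow_eq_one_iff_dvd _).mpr hij
  have h2 : ξ ^ i = ξ ^ (i - j) * ξ ^ j := by
    rw [← zpow_add₀ hξ0, sub_add_cancel]
  rw [h2, h1, one_mul]

theorem LocCtx.good_place (h : LocCtx v a t) {ℓ p : ℕ} (hp : p.Coprime ℓ) {g : F[X]}
    (hg : g.Monic) (hm : g.natDegree ≠ 0) (hmℓ : g.natDegree.Coprime ℓ) {d : M} (hd : d ≠ 0)
    [hG : IsGood ℓ (locPoly g t d)] {ζ : F} (hζ : IsPrimitiveRoot ζ ℓ)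
    (hζ' : IsPrimitiveRoot (algebraMap F M ζ) ℓ)
    {Γ : Subgroup (Sym (locPoly g t d))} (hΓ : LocGrp p F v t (v (t - algebraMap F M a)) Γ)
    (hdv : v d = 1)
    (horb : ∀ r : F, ∀ θ ∈ near v (locPoly g t d) r, ∀ θ' ∈ near v (locPoly g t d) r,
      ∃ σ ∈ Γ, (σ : M ≃+* M) θ = θ')
    {R : F[X]} (hR : R ≠ 0) {z : M → M}
    (hz : ∀ θ ∈ rts (locPoly g t d), z θ ^ ℓ = aeval θ R) (Q : Jac ℓ (locPoly g t d))
    (hQ : ∀ σ ∈ Γ, ∃ n : M → ℤ, symJ σ Q - Q = ram n ∧ ∀ θ ∈ rts (locPoly g t d),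
      (σ : M ≃+* M) (z θ) = algebraMap F M ζ ^ n ((σ : M ≃+* M) θ) * z ((σ : M ≃+* M) θ))
    (hsum : ℓ ∣ ∑ r ∈ (g - C a).roots.toFinset, R.rootMultiplicity r)
    {r : F} (hr : g.eval r = a) : ℓ ∣ R.rootMultiplicity r := by
  have hAC : IsAlgClosed M := hG.alg
  have hs : (locPoly g t d).Separable := hG.separable
  have hℓ0 : ℓ ≠ 0 := hG.prime.ne_zero
  have hNZ : NeZero ℓ := ⟨hℓ0⟩
  have hf0 : locPoly g t d ≠ 0 := locPoly_ne_zero hg hm hd
  have hϖ0 : 0 < v (t - algebraMap F M a) := hΓ.pos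
  have hϖ1 : v (t - algebraMap F M a) < 1 := hΓ.lt_one
  have hζ0 : algebraMap F M ζ ≠ 0 := hζ'.ne_zero hℓ0
  have hga : g - C a ≠ 0 := by
    intro h0
    apply hm
    rw [← natDegree_sub_C (p := g) (a := a), h0, natDegree_zero]
  have hrts : ∀ θ, θ ∈ rts (locPoly g t d) ↔ (locPoly g t d).eval θ = 0 := fun θ => mem_rts hf0
  have hev : ∀ θ ∈ rts (locPoly g t d), aeval θ g = t := fun θ hθ =>
    (eval_locPoly_eq_zero hd).mp ((hrts θ).mp hθ)
  have hnear : ∀ r' : F, ∀ θ, θ ∈ near v (locPoly g t d) r' ↔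
      θ ∈ rts (locPoly g t d) ∧ v (θ - algebraMap F M r') < 1 := by
    intro r' θ
    unfold near
    rw [Finset.mem_filter]
  -- residues
  have hres : ∀ θ ∈ rts (locPoly g t d), ∃ r' : F, v (θ - algebraMap F M r') < 1 ∧
      g.eval r' = a := by
    intro θ hθ
    obtain ⟨c, hc⟩ := h.residue θ (h.v_root_le hg hm (hev θ hθ))
    exact ⟨c, hc, h.eval_residue (hev θ hθ) hc⟩
  choose! res hres1 hres2 using hres
  have hgroup : ∀ φ : M → ℝ, ∏ θ ∈ rts (locPoly g t d), φ θ =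
      ∏ r' ∈ (g - C a).roots.toFinset, ∏ θ ∈ near v (locPoly g t d) r', φ θ := by
    intro φ
    rw [← Finset.prod_fiberwise_of_maps_to (t := (g - C a).roots.toFinset) (g := res) ?_ φ]
    · refine Finset.prod_congr rfl fun r' _ => ?_
      refine Finset.prod_congr ?_ fun _ _ => rfl
      unfold near
      apply Finset.filter_congr
      intro θ hθ
      constructor
      · rintro rfl
        exact hres1 θ hθ
      · intro h'
        exact h.residue_unique (hres1 θ hθ) h'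
    · intro θ hθ
      rw [Multiset.mem_toFinset, mem_roots hga, IsRoot.def, eval_sub, eval_C, hres2 θ hθ, sub_self]
  have hroot : ∀ r' ∈ (g - C a).roots.toFinset, g.eval r' = a := by
    intro r' hr'
    rw [Multiset.mem_toFinset, mem_roots hga, IsRoot.def, eval_sub, eval_C, sub_eq_zero] at hr'
    exact hr'
  -- the action of `Γ`
  have hσrts : ∀ σ ∈ Γ, ∀ θ ∈ rts (locPoly g t d), (σ : M ≃+* M) θ ∈ rts (locPoly g t d) := by
    intro σ _ θ hθ
    rw [hrts] at hθ ⊢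
    exact (eval_sym_eq_zero σ).mpr hθ
  have hσnear : ∀ r' : F, ∀ σ ∈ Γ, ∀ θ ∈ near v (locPoly g t d) r',
      (σ : M ≃+* M) θ ∈ near v (locPoly g t d) r' := by
    intro r' σ hσ θ hθ
    rw [hnear] at hθ ⊢
    refine ⟨hσrts σ hσ θ hθ.1, ?_⟩
    have e1 : (σ : M ≃+* M) θ - algebraMap F M r' = (σ : M ≃+* M) (θ - algebraMap F M r') := by
      rw [map_sub, hΓ.fix σ hσ]
    rw [e1, hΓ.inv σ hσ]
    exact hθ.2
  have hfixζ : ∀ σ ∈ Γ, (σ : M ≃+* M) (algebraMap F M ζ) = algebraMap F M ζ :=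
    fun σ hσ => hΓ.fix σ hσ ζ
  have hstab : ∀ σ ∈ (Γ : Set (Sym (locPoly g t d))),
      symJ σ (Q - zJ (algebraMap F M ζ) hζ'.pow_eq_one Q) =
        Q - zJ (algebraMap F M ζ) hζ'.pow_eq_one Q := by
    intro σ hσ
    obtain ⟨n, hn, -⟩ := hQ σ hσ
    have e1 : symJ σ Q = Q + ram n := by
      rw [← hn]
      abel
    rw [map_sub, ← zJ_symJ _ _ σ (hfixζ σ hσ), e1, map_add, zJ_ram]
    abel
  obtain ⟨D, hDcl, hDfix⟩ := exists_stable (algebraMap F M ζ) hζ'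
    (Γ : Set (Sym (locPoly g t d))) _ hstab
  obtain ⟨z', hz', hkum⟩ := kummer_formula (algebraMap F M ζ) hζ' Q D hDcl.symm
  have hc : ∀ σ ∈ Γ, ∃ c : ℤ, ∀ θ ∈ rts (locPoly g t d), (σ : M ≃+* M) (z θ / z' θ) =
      algebraMap F M ζ ^ c * (z ((σ : M ≃+* M) θ) / z' ((σ : M ≃+* M) θ)) := by
    intro σ hσ
    obtain ⟨n, hn, hnz⟩ := hQ σ hσ
    have hDσ := hDfix σ hσ
    have hex : ∀ θ ∈ rts (locPoly g t d), ∃ i : ℤ, (σ : M ≃+* M) (z' θ) =
        algebraMap F M ζ ^ i * z' ((σ : M ≃+* M) θ) := by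
      intro θ hθ
      have hθ0 : (locPoly g t d).eval θ = 0 := (hrts θ).mp hθ
      have hσθ0 : (locPoly g t d).eval ((σ : M ≃+* M) θ) = 0 :=
        (hrts _).mp (hσrts σ hσ θ hθ)
      have h0 : z' ((σ : M ≃+* M) θ) ≠ 0 := (hz' _ hσθ0).1
      have h1 : ((σ : M ≃+* M) (z' θ) / z' ((σ : M ≃+* M) θ)) ^ ℓ = 1 := by
        rw [div_pow, ← map_pow, (hz' θ hθ0).2, (hz' _ hσθ0).2, map_mul, sym_uval σ D hDσ,
          sym_atR σ D hDσ, map_zpow₀, map_pow, map_neg, map_one]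
        apply div_self
        apply mul_ne_zero
        · apply zpow_ne_zero
          apply pow_ne_zero
          exact neg_ne_zero.mpr one_ne_zero
        · exact uval_ne_zero D hσθ0
      obtain ⟨i, _, hi⟩ := hζ'.eq_pow_of_pow_eq_one h1
      exact ⟨i, by rw [zpow_natCast, hi, div_mul_cancel₀ _ h0]⟩
    let n' : M → ℤ := fun θ'' =>
      if h : (σ : M ≃+* M).symm θ'' ∈ rts (locPoly g t d) then (hex _ h).choose else 0
    have hn' : ∀ θ, (locPoly g t d).eval θ = 0 → (σ : M ≃+* M) (z' θ) =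
        algebraMap F M ζ ^ n' ((σ : M ≃+* M) θ) * z' ((σ : M ≃+* M) θ) := by
      intro θ hθ
      have hθ' : θ ∈ rts (locPoly g t d) := (hrts θ).mpr hθ
      have key : ∀ θ₁ (h₁ : θ₁ ∈ rts (locPoly g t d)), θ₁ = θ → (σ : M ≃+* M) (z' θ) =
          algebraMap F M ζ ^ (hex θ₁ h₁).choose * z' ((σ : M ≃+* M) θ) := by
        rintro θ₁ h₁ rfl
        exact (hex θ₁ h₁).choose_spec
      have e1 : (σ : M ≃+* M).symm ((σ : M ≃+* M) θ) = θ := RingEquiv.symm_apply_apply _ _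
      have e2 : (σ : M ≃+* M).symm ((σ : M ≃+* M) θ) ∈ rts (locPoly g t d) := by
        rw [e1]
        exact hθ'
      have e3 : n' ((σ : M ≃+* M) θ) = (hex _ e2).choose := dif_pos e2
      rw [e3]
      exact key _ e2 e1
    have hk := hkum σ (hfixζ σ hσ) hDσ n' hn'
    have h0 : (ram (fun θ => n θ - n' θ) : Jac ℓ (locPoly g t d)) = 0 := by
      rw [ram_sub, ← hn, ← hk, sub_self]
    obtain ⟨c, hc⟩ := (ram_eq_zero_iff (algebraMap F M ζ) hζ' _).mp h0
    refine ⟨c, fun θ hθ => ?_⟩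
    have h1 := hc ((σ : M ≃+* M) θ) ((hrts _).mp (hσrts σ hσ θ hθ))
    rw [map_div₀, hnz θ hθ, hn' θ ((hrts θ).mp hθ), mul_div_mul_comm, ← zpow_sub₀ hζ0,
      L06_zpow_congr hζ' hζ0 h1]
  -- values
  have hvθ : ∀ r' : F, ∀ θ ∈ near v (locPoly g t d) r', v (θ - algebraMap F M r') ≠ 0 := by
    intro r' θ hθ h0
    have h1 := h.v_sub_pow hg hm hd hs hθ
    rw [h0, zero_pow (Finset.card_ne_zero_of_mem hθ)] at h1
    exact hϖ0.ne h1
  have hz0 : ∀ θ ∈ rts (locPoly g t d), z θ ≠ 0 := by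
    intro θ hθ h0
    have h1 := hz θ hθ
    rw [h0, zero_pow hℓ0] at h1
    have h2 := h.L06_v_aeval hR (hres1 θ hθ)
    rw [← h1, map_zero] at h2
    exact pow_ne_zero _ (hvθ (res θ) θ ((hnear _ _).mpr ⟨hθ, hres1 θ hθ⟩)) h2.symm
  have hq0 : ∀ θ ∈ rts (locPoly g t d), z θ / z' θ ≠ 0 := fun θ hθ =>
    div_ne_zero (hz0 θ hθ) (hz' θ ((hrts θ).mp hθ)).1
  obtain ⟨Qt, hQt⟩ : ∃ Qt, Qt = ∏ θ ∈ rts (locPoly g t d), (z θ / z' θ) := ⟨_, rfl⟩
  have hQt0 : Qt ≠ 0 := by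
    rw [hQt]
    exact Finset.prod_ne_zero_iff.mpr hq0
  have hx : ∀ σ ∈ Γ, ∀ θ ∈ rts (locPoly g t d),
      (σ : M ≃+* M) ((z θ / z' θ) ^ g.natDegree / Qt) =
        (z ((σ : M ≃+* M) θ) / z' ((σ : M ≃+* M) θ)) ^ g.natDegree / Qt := by
    intro σ hσ θ hθ
    obtain ⟨c, hc⟩ := hc σ hσ
    have h1 : (σ : M ≃+* M) Qt = (algebraMap F M ζ ^ c) ^ g.natDegree * Qt := by
      rw [hQt, map_prod, Finset.prod_congr rfl (fun θ hθ => hc θ hθ), Finset.prod_mul_distrib,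
        Finset.prod_const, card_rts hg hm hd hs]
      congr 1
      exact L06_prod_perm (σ : M ≃+* M) _ (hσrts σ hσ) (fun θ => z θ / z' θ)
    rw [map_div₀, map_pow, hc θ hθ, h1, mul_pow,
      mul_div_mul_left _ _ (pow_ne_zero _ (zpow_ne_zero _ hζ0))]
  have hvx : ∀ θ ∈ near v (locPoly g t d) r, Val p (v (t - algebraMap F M a))
      (v ((z θ / z' θ) ^ g.natDegree / Qt) ^ (near v (locPoly g t d) r).card) := by
    intro θ hθ
    have h1 : ∏ θ' ∈ near v (locPoly g t d) r, v ((z θ' / z' θ') ^ g.natDegree / Qt) =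
        v ((z θ / z' θ) ^ g.natDegree / Qt) ^ (near v (locPoly g t d) r).card := by
      apply Finset.prod_eq_pow_card
      intro θ' hθ'
      obtain ⟨σ, hσ, rfl⟩ := horb r θ hθ θ' hθ'
      rw [← hx σ hσ θ ((hnear _ _).mp hθ).1, hΓ.inv σ hσ]
    rw [← h1, ← map_prod]
    apply hΓ.disc
    · exact Finset.prod_ne_zero_iff.mpr fun θ' hθ' =>
        div_ne_zero (pow_ne_zero _ (hq0 θ' ((hnear _ _).mp hθ').1)) hQt0
    · intro σ hσ
      rw [map_prod, Finset.prod_congr rfl (fun θ' hθ' => hx σ hσ θ' ((hnear _ _).mp hθ').1)]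
      exact L06_prod_perm (σ : M ≃+* M) _ (hσnear r σ hσ)
        (fun θ => (z θ / z' θ) ^ g.natDegree / Qt)
  have hvq : ∀ θ ∈ rts (locPoly g t d), v (z θ / z' θ) ^ ℓ = v (aeval θ R) / v (uval D θ) := by
    intro θ hθ
    have h1 : v (z' θ) ^ ℓ = v (uval D θ) := by
      rw [← map_pow, (hz' θ ((hrts θ).mp hθ)).2, map_mul, map_zpow₀, map_pow, AbsoluteValue.map_neg,
        map_one, one_pow, one_zpow, one_mul]
    rw [map_div₀, div_pow, h1, ← map_pow, hz θ hθ]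
  have hdv' : Val p (v (t - algebraMap F M a) ^ ℓ) (v d) := by
    rw [hdv]
    exact Val.one _ _
  have huv : ∀ r' : F, Val p (v (t - algebraMap F M a) ^ ℓ)
      (∏ θ ∈ near v (locPoly g t d) r', v (uval D θ)) := by
    intro r'
    rcases (near v (locPoly g t d) r').eq_empty_or_nonempty with he | ⟨θ, hθ⟩
    · rw [he, Finset.prod_empty]
      exact Val.one _ _
    · have h1 : ∏ θ' ∈ near v (locPoly g t d) r', v (uval D θ') =
          v (uval D θ) ^ (near v (locPoly g t d) r').card := by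
        apply Finset.prod_eq_pow_card
        intro θ' hθ'
        obtain ⟨σ, hσ, rfl⟩ := horb r' θ hθ θ' hθ'
        rw [← sym_uval σ D (hDfix σ hσ), hΓ.inv σ hσ]
      rw [h1]
      exact h.val_uval hg hm hd hmℓ hΓ hdv' D hDfix (horb r') hθ
  have hRv : ∀ r' : F, g.eval r' = a → ∏ θ ∈ near v (locPoly g t d) r', v (aeval θ R) =
      v (t - algebraMap F M a) ^ R.rootMultiplicity r' := by
    intro r' hr'
    rw [Finset.prod_congr rfl (fun θ hθ => h.L06_v_aeval hR ((hnear _ _).mp hθ).2),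
      Finset.prod_pow]
    congr 1
    have h1 := h.prod_near hg hm hd hs (r := r') (x := algebraMap F M r')
      (by rw [sub_self, map_zero]; exact one_pos)
    have h2 : aeval (algebraMap F M r') g = algebraMap F M a := by
      rw [aeval_algebraMap_apply, coe_aeval_eq_eval, hr']
    rw [h2, AbsoluteValue.map_sub] at h1
    rw [h1]
    exact Finset.prod_congr rfl fun θ _ => AbsoluteValue.map_sub _ _ _
  have hQv : Val p (v (t - algebraMap F M a) ^ ℓ) (v Qt ^ ℓ) := by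
    have h1 : v Qt ^ ℓ = (v (t - algebraMap F M a) ^
        ∑ r' ∈ (g - C a).roots.toFinset, R.rootMultiplicity r') *
        (∏ r' ∈ (g - C a).roots.toFinset,
          ∏ θ ∈ near v (locPoly g t d) r', v (uval D θ))⁻¹ := by
      rw [hQt, map_prod, ← Finset.prod_pow, Finset.prod_congr rfl hvq, Finset.prod_div_distrib,
        hgroup (fun θ => v (aeval θ R)), hgroup (fun θ => v (uval D θ)), div_eq_mul_inv,
        Finset.prod_congr rfl (fun r' hr' => hRv r' (hroot r' hr')), Finset.prod_pow_eq_pow_sum]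
    rw [h1]
    obtain ⟨k, hk⟩ := hsum
    apply Val.mul
    · rw [hk, pow_mul]
      exact ⟨0, k, by rw [pow_zero, pow_one, zpow_natCast]⟩
    · exact (Val.prod _ _ fun r' _ => huv r').inv
  -- conclusion
  have hne : (near v (locPoly g t d) r).Nonempty := by
    rw [← Finset.card_pos, h.card_near hg hm hd hs r, rootMultiplicity_pos hga, IsRoot.def,
      eval_sub, eval_C, hr, sub_self]
  obtain ⟨θ, hθ⟩ := hne
  have hθr := ((hnear _ _).mp hθ).1
  have hUθ : Val p (v (t - algebraMap F M a) ^ ℓ)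
      (v (uval D θ) ^ (near v (locPoly g t d) r).card) :=
    h.val_uval hg hm hd hmℓ hΓ hdv' D hDfix (horb r) hθ
  have hRθ : v (aeval θ R) ^ (near v (locPoly g t d) r).card =
      v (t - algebraMap F M a) ^ R.rootMultiplicity r := by
    rw [h.L06_v_aeval hR ((hnear _ _).mp hθ).2, ← pow_mul, mul_comm, pow_mul,
      h.v_sub_pow hg hm hd hs hθ]
  have hU0 : v (uval D θ) ≠ 0 := by
    rw [AbsoluteValue.ne_zero_iff]
    exact uval_ne_zero D ((hrts θ).mp hθr)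
  have hQ0 : v Qt ≠ 0 := by
    rw [AbsoluteValue.ne_zero_iff]
    exact hQt0
  have hmain : v (t - algebraMap F M a) ^ ((g.natDegree * R.rootMultiplicity r : ℕ) : ℤ) =
      (v ((z θ / z' θ) ^ g.natDegree / Qt) ^ (near v (locPoly g t d) r).card) ^ ℓ *
        ((v (uval D θ) ^ (near v (locPoly g t d) r).card) ^ g.natDegree *
        (v Qt ^ ℓ) ^ (near v (locPoly g t d) r).card) := by
    have e1 : v ((z θ / z' θ) ^ g.natDegree / Qt) ^ (near v (locPoly g t d) r).card =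
        (v (z θ / z' θ) ^ g.natDegree) ^ (near v (locPoly g t d) r).card /
          v Qt ^ (near v (locPoly g t d) r).card := by
      rw [map_div₀, map_pow, div_pow]
    have e2 : ((v (z θ / z' θ) ^ g.natDegree) ^ (near v (locPoly g t d) r).card) ^ ℓ =
        ((v (z θ / z' θ) ^ ℓ) ^ (near v (locPoly g t d) r).card) ^ g.natDegree := by
      rw [← pow_mul, ← pow_mul, ← pow_mul, ← pow_mul]
      congr 1
      ring
    have e3 : (v (uval D θ) ^ (near v (locPoly g t d) r).card) ^ g.natDegree ≠ 0 :=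
      pow_ne_zero _ (pow_ne_zero _ hU0)
    have e4 : (v Qt ^ ℓ) ^ (near v (locPoly g t d) r).card ≠ 0 :=
      pow_ne_zero _ (pow_ne_zero _ hQ0)
    have e5 : (v Qt ^ (near v (locPoly g t d) r).card) ^ ℓ =
        (v Qt ^ ℓ) ^ (near v (locPoly g t d) r).card := by
      rw [← pow_mul, ← pow_mul, mul_comm]
    rw [e1, div_pow, e2, hvq θ hθr, div_pow, hRθ, zpow_natCast, div_pow, e5,
      mul_comm g.natDegree, pow_mul]
    rw [div_mul_eq_mul_div, div_mul_eq_mul_div, div_div, eq_div_iff (mul_ne_zero e3 e4)]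
  have hfin : Val p (v (t - algebraMap F M a) ^ ℓ)
      (v (t - algebraMap F M a) ^ ((g.natDegree * R.rootMultiplicity r : ℕ) : ℤ)) := by
    rw [hmain]
    exact (Val.pow_self ℓ (hvx θ hθ)).mul ((hUθ.pow _).mul (hQv.pow _))
  have hdvd := Val.dvd_of_zpow hp hϖ0 hϖ1 _ hfin
  rw [Int.natCast_dvd_natCast] at hdvd
  exact hmℓ.symm.dvd_of_dvd_mul_left hdvd

end Pool.Agent.Lib.MP_89bcae_ag.Sup

end

section

/-!
# The local theorems for a polynomial `f` which is equal to `d⁻¹ (g(x) - t)`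
-/

open Polynomial

open scoped Classical

namespace Pool.Agent.Lib.MP_89bcae_ag.Sup

universe u

variable {F M : Type u} [Field F] [Field M] [Algebra F M] {v : AbsoluteValue M ℝ} {a : F} {t : M}

theorem LocCtx.good_place' (h : LocCtx v a t) {ℓ p : ℕ} (hp : p.Coprime ℓ) {g : F[X]}
    (hg : g.Monic) (hm : g.natDegree ≠ 0) (hmℓ : g.natDegree.Coprime ℓ) {d : M} (hd : d ≠ 0)
    {f : M[X]} (hf : f = locPoly g t d)
    [hG : IsGood ℓ f] {ζ : F} (hζ : IsPrimitiveRoot ζ ℓ)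
    (hζ' : IsPrimitiveRoot (algebraMap F M ζ) ℓ)
    {Γ : Subgroup (Sym f)} (hΓ : LocGrp p F v t (v (t - algebraMap F M a)) Γ)
    (hdv : v d = 1)
    (horb : ∀ r : F, ∀ θ ∈ near v f r, ∀ θ' ∈ near v f r, ∃ σ ∈ Γ, (σ : M ≃+* M) θ = θ')
    {R : F[X]} (hR : R ≠ 0) {z : M → M}
    (hz : ∀ θ ∈ rts f, z θ ^ ℓ = aeval θ R) (Q : Jac ℓ f)
    (hQ : ∀ σ ∈ Γ, ∃ n : M → ℤ, symJ σ Q - Q = ram n ∧ ∀ θ ∈ rts f,
      (σ : M ≃+* M) (z θ) = algebraMap F M ζ ^ n ((σ : M ≃+* M) θ) * z ((σ : M ≃+* M) θ))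
    (hsum : ℓ ∣ ∑ r ∈ (g - C a).roots.toFinset, R.rootMultiplicity r)
    {r : F} (hr : g.eval r = a) : ℓ ∣ R.rootMultiplicity r := by
  subst hf
  exact h.good_place hp hg hm hmℓ hd hζ hζ' hΓ hdv horb hR hz Q hQ hsum hr


end Pool.Agent.Lib.MP_89bcae_ag.Sup

end

section

/-!
ROW G15 (120-220 lines). The local character of a class at a bad place.

Setting: `D(a) = 0`, `K` any field between `L` and `M` (`M` an algebraically closed field containing `K`),
`v` an absolute value as in `LocCtx` invariant under `Aut(M/K)`, `δ^ℓ = D(t)`, `j : Ω → M`.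
STATEMENT: if `τ` in `Aut(M/K)` restricts to `τ'` on `Ω` and `τ δ = ζ^i δ`, and `HasExp c e`, then
`j (v (c 1 τ')) = ram (θ ↦ i e(residue of θ))`.

PROOF. The roots over `M` are the `j θ₀`, `θ₀` a root in `Ω` (same number of roots). `τ` fixes every root
(`fix_root`; `τ` fixes `F` and `t`), so `τ'` fixes every root `θ₀`. Let `z` be as in `HasExp`, and `n` with
`τ' (z θ₀) = ζ^{n(θ₀)} z θ₀`; `v (c 1 τ') = ram n`. With `θ = j θ₀`, `β` its residue (in `RR`, as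
`g(β) = a`): `(j (z θ₀))^ℓ = ∏_{β'∈RR} (θ - β')^{e β'} = (θ - β)^{e β} · w'`, `w'` a unit fixed by `τ`
(`θ - β'` has residue `β - β' ≠ 0`), and `θ - β = D(t) · w''` with a unit `w''` fixed by `τ`
(`v_bad`, `residue_quot`: `(t-a)/(θ-β)` has residue `g'(β) ≠ 0`, `D(t)/(t-a)` has residue
`D'(a) ≠ 0`). So `char_of_unit` (L07) gives `τ (j (z θ₀)) = ζ^{i e β} j (z θ₀)`, hence `n(θ₀) ≡ i e(β)`
modulo `ℓ`, and `jacMap_ram` (G07), `ram_congr`.
-/

open Polynomial IsDedekindDomain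

open scoped Classical

namespace Pool.Agent.Lib.MP_89bcae_ag.Sup

universe u

variable {k F L Ω : Type u} [Field k] [Field F] [Algebra k F] [Field L] [Algebra F[X] L]
  [Field Ω] [Algebra L Ω] [IsAlgClosure k F] [IsFractionRing F[X] L] [IsAlgClosure L Ω]
  [Algebra F Ω] {ℓ : ℕ} {g D : k[X]} [hG : IsGood ℓ (cOver k F L Ω g D)] {ζ : k}
  {hζ : (zA F L Ω ζ) ^ ℓ = 1}

private lemma G15_aeval {A : Type u} [Field A] [Algebra L A] [Algebra F A]
    (hF : CompatF F L A) (p : F[X]) :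
    aeval (tA F L A) p = algebraMap L A (algebraMap F[X] L p) := by
  have h1 : ((aeval (tA F L A) : F[X] →ₐ[F] A) : F[X] →+* A) =
      (algebraMap L A).comp (algebraMap F[X] L) := by
    apply Polynomial.ringHom_ext
    · intro c
      rw [AlgHom.coe_toRingHom, aeval_C]
      exact hF c
    · rw [AlgHom.coe_toRingHom, aeval_X]
      rfl
  exact congrArg (fun f : F[X] →+* A => f p) h1

private lemma G15_t_inj {A : Type u} [Field A] [Algebra L A] [Algebra F A]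
    (hF : CompatF F L A) {p : F[X]} (hp : aeval (tA F L A) p = 0) : p = 0 := by
  rw [G15_aeval hF] at hp
  have h1 : algebraMap F[X] L p = 0 := (map_eq_zero _).mp hp
  exact (IsFractionRing.injective F[X] L) (h1.trans (map_zero _).symm)


private lemma G15_rts_map {A : Type u} [Field A] [IsAlgClosed A] {B : Type u} [Field B] (f : A[X])
    (i : A →+* B) {x : B} : x ∈ rts (f.map i) ↔ ∃ y ∈ rts f, i y = x := by
  unfold rts
  rw [(IsAlgClosed.splits f).roots_map i, Multiset.mem_toFinset, Multiset.mem_map]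
  constructor
  · rintro ⟨y, hy, h⟩
    exact ⟨y, Multiset.mem_toFinset.mpr hy, h⟩
  · rintro ⟨y, hy, h⟩
    exact ⟨y, Multiset.mem_toFinset.mp hy, h⟩

private lemma G15_cOver {A B : Type u} [Field A] [Algebra L A] [Field B] [Algebra L B]
    (j : A →ₐ[L] B) (g D : k[X]) :
    (cOver k F L A g D).map (j : A →+* B) = cOver k F L B g D := by
  rw [Polynomial.map_map, AlgHom.comp_algebraMap]

/-- `BadCtx` from the global hypotheses. -/
lemma GlobHyp.badCtx (H : GlobHyp ℓ g D ζ) {M : Type u} [Field M] [Algebra L M] [Algebra F M]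
    (hFM : CompatF F L M) {a : F} (ha : aeval a D = 0) {δ : M}
    (hδ : δ ^ ℓ = aeval (tA F L M) (D.map (algebraMap k F))) :
    BadCtx (g.map (algebraMap k F)) (D.map (algebraMap k F)) a (tA F L M) δ ℓ := by
  have hcl : IsAlgClosed F := IsAlgClosure.isAlgClosed k
  have hdeg : g.natDegree ≠ 0 := by
    intro h0
    have h1 := H.cop
    rw [h0, Nat.coprime_zero_left] at h1
    exact H.prime.ne_one h1
  have hdeg' : (g.map (algebraMap k F)).natDegree ≠ 0 := by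
    rw [natDegree_map]
    exact hdeg
  have ha' : (D.map (algebraMap k F)).eval a = 0 := by
    rw [eval_map_algebraMap]
    exact ha
  have key : ∀ r : F, (g.map (algebraMap k F)).eval r = a →
      (derivative (g.map (algebraMap k F))).eval r *
        (derivative (D.map (algebraMap k F))).eval a ≠ 0 := by
    intro r hr
    have hs : ((D.comp g).map (algebraMap k F)).Separable := H.sep.map
    rw [Polynomial.map_comp] at hs
    have hroot : ((D.map (algebraMap k F)).comp (g.map (algebraMap k F))).eval r = 0 := by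
      rw [eval_comp, hr, ha']
    have h1 := U01_deriv_ne hs hroot
    rw [derivative_comp, eval_mul, eval_comp, hr] at h1
    exact h1
  refine ⟨H.monic.map _, hdeg', ?_, ha', ?_, ?_, hδ, ?_⟩
  · rw [natDegree_map]
    exact H.cop
  · obtain ⟨r, hr⟩ := IsAlgClosed.exists_root (g.map (algebraMap k F) - C a) (by
      apply degree_ne_of_natDegree_ne
      rw [natDegree_sub_C]
      exact hdeg')
    have hr' : (g.map (algebraMap k F)).eval r = a := by
      rw [IsRoot.def, eval_sub, eval_C, sub_eq_zero] at hr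
      exact hr
    exact right_ne_zero_of_mul (key r hr')
  · intro r hr
    exact left_ne_zero_of_mul (key r hr)
  · intro h0
    have h1 := G15_t_inj hFM h0
    rw [Polynomial.map_eq_zero] at h1
    apply H.pos
    rw [h1, natDegree_zero]

/-- The roots over `M` are the images of the roots over `Ω`. -/
lemma exists_root_eq (H : GlobHyp ℓ g D ζ) {M : Type u} [Field M] [Algebra L M] (j : Ω →ₐ[L] M)
    {θ : M} (hθ : θ ∈ rts (cOver k F L M g D)) :
    ∃ θ₀ ∈ rts (cOver k F L Ω g D), j θ₀ = θ := by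
  have hcl : IsAlgClosed Ω := IsAlgClosure.isAlgClosed L
  rw [← G15_cOver j, G15_rts_map] at hθ
  exact hθ

lemma map_root_mem (H : GlobHyp ℓ g D ζ) {M : Type u} [Field M] [Algebra L M] (j : Ω →ₐ[L] M)
    {θ₀ : Ω} (hθ : θ₀ ∈ rts (cOver k F L Ω g D)) : j θ₀ ∈ rts (cOver k F L M g D) := by
  have hcl : IsAlgClosed Ω := IsAlgClosure.isAlgClosed L
  rw [← G15_cOver j, G15_rts_map]
  exact ⟨θ₀, hθ, rfl⟩

lemma map_zA {M : Type u} [Field M] [Algebra L M] (j : Ω →ₐ[L] M) (ζ : k) :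
    j (zA F L Ω ζ) = zA F L M ζ := by
  unfold zA base
  rw [RingHom.comp_apply, RingHom.comp_apply]
  exact j.commutes _


end Pool.Agent.Lib.MP_89bcae_ag.Sup

end
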