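import Mathlib
import Pool.Agent.Lib.MP_89bcae_ag.Tk.K000

set_option linter.all false

section

attribute [local instance 100000] Pool.Agent.Lib.MP_89bcae_ag.Brt.tffFields

section

/-!
# The inflation of cocycles of degree two, discrete groups
-/

namespace Pool.Agent.Lib.MP_89bcae_ag.Bra

section infl

variable {Q A : Type*} [Group Q] [CommGroup A] [MulDistribMulAction Q A]

/-- The cocycle `b` divided by the coboundary of `α`. -/
def infl_tr (b : Q → Q → A) (α : Q → A) : Q → Q → A :=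
  fun g h => b g h * α (g * h) * (g • α h * α g)⁻¹

theorem infl_tr_spec (b : Q → Q → A) (α : Q → A) (g h : Q) :
    b g h * α (g * h) = infl_tr b α g h * (g • α h * α g) := by
  unfold infl_tr
  rw [inv_mul_cancel_right]

theorem infl_tr_cocycle (b : Q → Q → A) (α : Q → A)
    (hb : ∀ g h j, b g h * b (g * h) j = g • b h j * b g (h * j)) (g h j : Q) :
    infl_tr b α g h * infl_tr b α (g * h) j =
      g • infl_tr b α h j * infl_tr b α g (h * j) := by
  unfold infl_tr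
  simp only [smul_mul', smul_inv', mul_inv, smul_smul, mul_assoc g h j]
  have h1 := hb g h j
  have h2 : b g h * α (g * h) * ((g • α h)⁻¹ * (α g)⁻¹) *
      (b (g * h) j * α (g * (h * j)) * (((g * h) • α j)⁻¹ * (α (g * h))⁻¹)) =
      (b g h * b (g * h) j) * (α (g * (h * j)) * ((g • α h)⁻¹ * (α g)⁻¹) *
        ((g * h) • α j)⁻¹) := by
    have h3 : α (g * h) * (α (g * h))⁻¹ = 1 := mul_inv_cancel _
    calc _ = (b g h * b (g * h) j) * (α (g * (h * j)) * ((g • α h)⁻¹ * (α g)⁻¹) *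
        ((g * h) • α j)⁻¹) * (α (g * h) * (α (g * h))⁻¹) := by ac_rfl
      _ = _ := by rw [h3, mul_one]
  have h4 : g • b h j * g • α (h * j) * (((g * h) • α j)⁻¹ * (g • α h)⁻¹) *
      (b g (h * j) * α (g * (h * j)) * ((g • α (h * j))⁻¹ * (α g)⁻¹)) =
      (g • b h j * b g (h * j)) * (α (g * (h * j)) * ((g • α h)⁻¹ * (α g)⁻¹) *
        ((g * h) • α j)⁻¹) := by
    have h3 : (g • α (h * j)) * (g • α (h * j))⁻¹ = 1 := mul_inv_cancel _
    calc _ = (g • b h j * b g (h * j)) * (α (g * (h * j)) * ((g • α h)⁻¹ * (α g)⁻¹) *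
        ((g * h) • α j)⁻¹) * ((g • α (h * j)) * (g • α (h * j))⁻¹) := by ac_rfl
      _ = _ := by rw [h3, mul_one]
  rw [h2, h4, h1]

theorem infl_tr_tr (b : Q → Q → A) (α β : Q → A) :
    infl_tr (infl_tr b α) β = infl_tr b (fun g => α g * β g) := by
  funext g h
  unfold infl_tr
  simp only [smul_mul', mul_inv]
  ac_rfl

/-- a system of representatives modulo `N` -/
theorem infl_rep (N : Subgroup Q) : ∃ r : Q → Q, (∀ g, (r g)⁻¹ * g ∈ N) ∧
    (∀ g, ∀ n ∈ N, r (g * n) = r g) ∧ ∀ n ∈ N, r n = 1 := by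
  classical
  have hN : ∀ g : Q, ∀ n ∈ N, (g * n ∈ N ↔ g ∈ N) := fun g n hn =>
    ⟨fun h => by
      have := N.mul_mem h (N.inv_mem hn)
      rwa [mul_inv_cancel_right] at this, fun h => N.mul_mem h hn⟩
  refine ⟨fun g => if g ∈ N then 1 else Quotient.out (QuotientGroup.mk g : Q ⧸ N), ?_, ?_, ?_⟩
  · intro g
    by_cases h : g ∈ N
    · simp only [if_pos h, inv_one, one_mul]
      exact h
    · simp only [if_neg h]
      have h1 : (QuotientGroup.mk (Quotient.out (QuotientGroup.mk g : Q ⧸ N)) : Q ⧸ N) =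
          QuotientGroup.mk g := Quotient.out_eq' _
      exact QuotientGroup.eq.1 h1
  · intro g n hn
    have h1 : (QuotientGroup.mk (g * n) : Q ⧸ N) = QuotientGroup.mk g := by
      refine QuotientGroup.eq.2 ?_
      have : (g * n)⁻¹ * g = n⁻¹ := by group
      rw [this]
      exact N.inv_mem hn
    simp only [hN g n hn, h1]
  · intro n hn
    simp only [if_pos hn]

theorem infl_aux (N : Subgroup Q) [N.Normal]
    (h90 : ∀ a : Q → A, (∀ g ∈ N, ∀ h ∈ N, a (g * h) = g • a h * a g) →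
      ∃ e : A, ∀ g ∈ N, a g * e = g • e)
    (b : Q → Q → A) (hb : ∀ g h j, b g h * b (g * h) j = g • b h j * b g (h * j))
    (a : Q → A) (ha : ∀ g ∈ N, ∀ h ∈ N, b g h * a (g * h) = g • a h * a g) :
    ∃ α : Q → A, (∀ g h j, infl_tr b α g h * infl_tr b α (g * h) j =
        g • infl_tr b α h j * infl_tr b α g (h * j)) ∧
      ∀ g h, ∀ n ∈ N, infl_tr b α (g * n) h = infl_tr b α g h ∧
        infl_tr b α g (h * n) = infl_tr b α g h ∧ n • infl_tr b α g h = infl_tr b α g h := by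
  classical
  -- step 1
  obtain ⟨α1, h1⟩ : ∃ α1 : Q → A, ∀ g ∈ N, ∀ h ∈ N, infl_tr b α1 g h = 1 := by
    refine ⟨fun g => if g ∈ N then a g else 1, ?_⟩
    intro g hg h hh
    unfold infl_tr
    simp only [if_pos hg, if_pos hh, if_pos (N.mul_mem hg hh)]
    rw [ha g hg h hh, mul_inv_cancel]
  obtain ⟨c1, hc1⟩ : ∃ c, c = infl_tr b α1 := ⟨_, rfl⟩
  have k1 : ∀ g h j, c1 g h * c1 (g * h) j = g • c1 h j * c1 g (h * j) := by
    rw [hc1]; exact infl_tr_cocycle b α1 hb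
  rw [← hc1] at h1
  obtain ⟨r, hr1, hr2, hr3⟩ := infl_rep N
  -- step 2
  obtain ⟨α2, h2⟩ : ∃ α2 : Q → A, ∀ g, ∀ n ∈ N, infl_tr c1 α2 g n = 1 := by
    refine ⟨fun g => (c1 (r g) ((r g)⁻¹ * g))⁻¹, ?_⟩
    intro g n hn
    unfold infl_tr
    simp only [hr2 g n hn, hr3 n hn, inv_one, one_mul]
    rw [h1 1 N.one_mem n hn, inv_one, smul_one, one_mul, inv_inv]
    have h3 := k1 (r g) ((r g)⁻¹ * g) n
    rw [h1 _ (hr1 g) n hn, smul_one, one_mul, mul_inv_cancel_left, mul_assoc] at h3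
    rw [← h3, mul_inv_rev, ← mul_assoc, mul_inv_cancel, one_mul, inv_mul_cancel]
  obtain ⟨c2, hc2⟩ : ∃ c, c = infl_tr c1 α2 := ⟨_, rfl⟩
  have k2 : ∀ g h j, c2 g h * c2 (g * h) j = g • c2 h j * c2 g (h * j) := by
    rw [hc2]; exact infl_tr_cocycle c1 α2 k1
  rw [← hc2] at h2
  have hconj : ∀ n ∈ N, ∀ h : Q, h⁻¹ * n * h ∈ N := by
    intro n hn h
    have := (inferInstance : N.Normal).conj_mem n hn h⁻¹
    rwa [inv_inv] at this
  -- general consequences
  have gen : ∀ c : Q → Q → A, (∀ g h j, c g h * c (g * h) j = g • c h j * c g (h * j)) →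
      (∀ g, ∀ n ∈ N, c g n = 1) → (∀ g h, ∀ n ∈ N, c g (h * n) = c g h) ∧
      (∀ g h, ∀ n ∈ N, c (g * n) h = g • c n h * c g h) := by
    intro c hc h0
    have e1 : ∀ g h, ∀ n ∈ N, c g (h * n) = c g h := by
      intro g h n hn
      have := hc g h n
      rw [h0 (g * h) n hn, h0 h n hn, smul_one, one_mul, mul_one] at this
      exact this.symm
    refine ⟨e1, ?_⟩
    intro g h n hn
    have h5 := hc g n h
    rw [h0 g n hn, one_mul] at h5
    have h6 : n * h = h * (h⁻¹ * n * h) := by group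
    rw [h5, h6, e1 g h _ (hconj n hn h)]
  obtain ⟨m1, m2⟩ := gen c2 k2 h2
  -- step 3
  have hE : ∀ h : Q, ∃ e : A, ∀ n ∈ N, c2 n (r h) * e = n • e := by
    intro h
    refine h90 (fun n => c2 n (r h)) ?_
    intro g hg n hn
    exact m2 g (r h) n hn
  choose E hE using hE
  obtain ⟨e, he1, he2, he3⟩ : ∃ e : Q → A, (∀ h, ∀ n ∈ N, c2 n h * e h = n • e h) ∧
      (∀ h, ∀ n ∈ N, e (h * n) = e h) ∧ ∀ n ∈ N, e n = 1 := by
    refine ⟨fun h => if h ∈ N then 1 else E (r h), ?_, ?_, ?_⟩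
    · intro h n hn
      by_cases hh : h ∈ N
      · simp only [if_pos hh]
        rw [h2 n h hh, smul_one, one_mul]
      · simp only [if_neg hh]
        have h7 := hE (r h) n hn
        have h8 : c2 n (r (r h)) = c2 n h := by
          have e1 : c2 n (r (r h)) = c2 n (r h) := by
            have := m1 n (r (r h)) _ (hr1 (r h))
            rw [mul_inv_cancel_left] at this
            exact this.symm
          have e2 : c2 n (r h) = c2 n h := by
            have := m1 n (r h) _ (hr1 h)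
            rw [mul_inv_cancel_left] at this
            exact this.symm
          rw [e1, e2]
        rwa [h8] at h7
    · intro h n hn
      have hN : (h * n ∈ N ↔ h ∈ N) :=
        ⟨fun h' => by
          have := N.mul_mem h' (N.inv_mem hn)
          rwa [mul_inv_cancel_right] at this, fun h' => N.mul_mem h' hn⟩
      simp only [hN, hr2 h n hn]
    · intro n hn
      simp only [if_pos hn]
  -- step 4
  obtain ⟨c3, hc3⟩ : ∃ c, c = infl_tr c2 e := ⟨_, rfl⟩
  have k3 : ∀ g h j, c3 g h * c3 (g * h) j = g • c3 h j * c3 g (h * j) := by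
    rw [hc3]; exact infl_tr_cocycle c2 e k2
  have h3 : ∀ g, ∀ n ∈ N, c3 g n = 1 := by
    intro g n hn
    rw [hc3]
    unfold infl_tr
    rw [h2 g n hn, he2 g n hn, he3 n hn, smul_one, one_mul, mul_inv_cancel]
  have h4 : ∀ n ∈ N, ∀ h, c3 n h = 1 := by
    intro n hn h
    rw [hc3]
    unfold infl_tr
    have h6 : n * h = h * (h⁻¹ * n * h) := by group
    rw [h6, he2 h _ (hconj n hn h), he3 n hn, mul_one, he1 h n hn, mul_inv_cancel]
  obtain ⟨p1, p2⟩ := gen c3 k3 h3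
  have p3 : ∀ g h, ∀ n ∈ N, c3 (g * n) h = c3 g h := by
    intro g h n hn
    rw [p2 g h n hn, h4 n hn h, smul_one, one_mul]
  have key : infl_tr b (fun g => α1 g * α2 g * e g) = c3 := by
    rw [hc3, hc2, hc1, infl_tr_tr, infl_tr_tr]
    congr 1
    funext g
    rw [mul_assoc]
  refine ⟨fun g => α1 g * α2 g * e g, ?_, ?_⟩
  · rw [key]; exact k3
  · rw [key]
    intro g h n hn
    refine ⟨p3 g h n hn, p1 g h n hn, ?_⟩
    have h8 := k3 n g h
    rw [h4 n hn g, h4 n hn (g * h), one_mul, mul_one] at h8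
    have h6 : n * g = g * (g⁻¹ * n * g) := by group
    rw [← h8, h6, p3 g h _ (hconj n hn g)]

end infl

/-- Let the group `Q` act on the field `E` and let `N` be a normal subgroup with trivial `H¹(N, Eˣ)`. A
`2`-cocycle of `Q` whose restriction to `N` is a coboundary is cohomologous to an inflated one.

PROOF. (1) Extend `a` to `Q` by `1` and divide `b` by its coboundary: we may suppose `b n n' = 1` for `n`, `n'` in
`N`. (2) Let `s(g)` be a representative of the coset `g N`, `g = s(g) n(g)`, with `s = 1` on `N`. Divide by the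
coboundary of `g ↦ (b (s g) (n g))⁻¹`: with `β g = (b (s g) (n g))⁻¹` and `b' g h = b g h * β(gh) / (g β(h) β(g))` or its
inverse (check the sign with the cocycle identity for `(s, n, n')`: `b(s,n) b(sn,n') = s b(n,n') b(s,nn')`), one gets
`b' g n = 1` for all `g` and all `n` in `N`. (3) The cocycle identity for `(g, h, n)` gives `b' g (h n) = b' g h`; for
`(g, n, h)`, as `n h = h (h⁻¹ n h)`: `g b'(n,h) * b'(g,h) = b'(g n, h)`. So for fixed `h` the map `n ↦ b'(n,h)` is a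
`1`-cocycle of `N`, which depends only on the coset `h N`: by hypothesis there is `e_h`, depending only on `h N`,
`e_h = 1` for `h` in `N`, with `b'(n,h) = n e_h / e_h`. Divide by the coboundary of `e`: `c(g,h) = b'(g,h) e_{gh} /
(g e_h * e_g)`; then `c(n,h) = 1`, `c(g,n) = 1`, so `c(g n, h) = c(g,h)`, `c(g, h n) = c(g,h)`, and the identity for
`(n, g, h)` gives `n c(g,h) = c(n g, h) = c(g (g⁻¹ n g), h) = c(g,h)`. -/
theorem infl_discrete {Q E : Type*} [Group Q] [Field E] [MulSemiringAction Q E] (N : Subgroup Q)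
    [N.Normal]
    (h90 : ∀ a : Q → Eˣ, (∀ g ∈ N, ∀ h ∈ N, (a (g * h) : E) = g • (a h : E) * a g) →
      ∃ e : Eˣ, ∀ g ∈ N, (a g : E) * e = g • (e : E))
    (b : Q → Q → Eˣ) (hb : ∀ g h j, (b g h : E) * b (g * h) j = g • (b h j : E) * b g (h * j))
    (a : Q → Eˣ) (ha : ∀ g ∈ N, ∀ h ∈ N, (b g h : E) * a (g * h) = g • (a h : E) * a g) :
    ∃ (c : Q → Q → Eˣ) (α : Q → Eˣ),
      (∀ g h, (b g h : E) * α (g * h) = c g h * (g • (α h : E) * α g)) ∧
      (∀ g h j, (c g h : E) * c (g * h) j = g • (c h j : E) * c g (h * j)) ∧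
      ∀ g h, ∀ n ∈ N, c (g * n) h = c g h ∧ c g (h * n) = c g h ∧ n • (c g h : E) = c g h := by
  let act : MulDistribMulAction Q Eˣ :=
    { smul := fun g x => Units.map (MulDistribMulAction.toMonoidHom E g) x
      one_smul := fun x => by
        refine Units.ext ?_
        exact one_smul Q (x : E)
      mul_smul := fun g h x => by
        refine Units.ext ?_
        exact mul_smul g h (x : E)
      smul_mul := fun g x y => map_mul _ x y
      smul_one := fun g => map_one _ }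
  have hact : ∀ (g : Q) (x : Eˣ), ((act.toSMul.smul g x : Eˣ) : E) = g • (x : E) := fun _ _ => rfl
  obtain ⟨α, h1, h2⟩ := @infl_aux Q Eˣ _ _ act N _ (by
      intro a ha
      obtain ⟨e, he⟩ := h90 a (fun g hg h hh => by
        have := congrArg Units.val (ha g hg h hh)
        exact this)
      exact ⟨e, fun g hg => Units.ext (he g hg)⟩) b
    (fun g h j => Units.ext (hb g h j)) a (fun g hg h hh => Units.ext (ha g hg h hh))
  refine ⟨@infl_tr Q Eˣ _ _ act b α, α, ?_, ?_, ?_⟩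
  · intro g h
    exact congrArg Units.val (@infl_tr_spec Q Eˣ _ _ act b α g h)
  · intro g h j
    exact congrArg Units.val (h1 g h j)
  · intro g h n hn
    obtain ⟨e1, e2, e3⟩ := h2 g h n hn
    exact ⟨e1, e2, congrArg Units.val e3⟩

end Pool.Agent.Lib.MP_89bcae_ag.Bra

end

section

/-!
# Classes of ideals of Dedekind domains
-/

open IsDedekindDomain FractionalIdeal WithZero

open scoped nonZeroDivisors Classical

namespace Pool.Agent.Lib.MP_89bcae_ag.Bra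

section

variable {A K : Type} [CommRing A] [IsDomain A] [IsDedekindDomain A] [Field K] [Algebra A K]
  [IsFractionRing A K]

/-- Two nonzero fractional ideals with the same exponents are equal. -/
lemma pic_ext {I J : FractionalIdeal A⁰ K} (hI : I ≠ 0) (hJ : J ≠ 0)
    (h : ∀ v : HeightOneSpectrum A, count K v I = count K v J) : I = J := by
  rw [← finprod_heightOneSpectrum_factorization' K hI,
    ← finprod_heightOneSpectrum_factorization' K hJ]
  exact finprod_congr fun v => by rw [h v]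

/-- A nonzero fractional ideal with given exponents. -/
lemma pic_exists (e : HeightOneSpectrum A → ℤ) (he : ∀ᶠ v in Filter.cofinite, e v = 0) :
    ∃ J : FractionalIdeal A⁰ K, J ≠ 0 ∧ ∀ v, count K v J = e v := by
  refine ⟨∏ᶠ v : HeightOneSpectrum A, (v.asIdeal : FractionalIdeal A⁰ K) ^ e v, ?_,
    fun v => count_finprod K v e he⟩
  rw [finprod_def]
  split_ifs with h
  · exact Finset.prod_ne_zero_iff.2 fun v _ => zpow_ne_zero _ (coeIdeal_ne_zero.2 v.ne_bot)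
  · exact one_ne_zero

/-- If the exponents of `I ^ M` and of the principal ideal `(z)` agree modulo `N`, then the class of `I ^ M`
is an `N`-th power. -/
theorem pic_class_pow (I : (Ideal A)⁰) (z : Kˣ) (M N : ℕ)
    (h : ∀ v : HeightOneSpectrum A, (N : ℤ) ∣ M * count K v ((I : Ideal A) : FractionalIdeal A⁰ K) -
      count K v (spanSingleton A⁰ (z : K))) :
    ∃ Q : ClassGroup A, ClassGroup.mk0 I ^ M = Q ^ N := by
  rcases Nat.eq_zero_or_pos N with rfl | hN
  · -- then the ideal `I ^ M` is principal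
    have h0 : ((I : Ideal A) : FractionalIdeal A⁰ K) ≠ 0 :=
      coeIdeal_ne_zero.2 (nonZeroDivisors.coe_ne_zero I)
    have hz : spanSingleton A⁰ (z : K) ≠ 0 := spanSingleton_ne_zero_iff.2 z.ne_zero
    have h1 : ((I : Ideal A) : FractionalIdeal A⁰ K) ^ M = spanSingleton A⁰ (z : K) := by
      refine pic_ext (pow_ne_zero _ h0) hz fun v => ?_
      have h2 := h v
      rw [Nat.cast_zero, zero_dvd_iff, sub_eq_zero] at h2
      rw [count_pow, h2]
    refine ⟨1, ?_⟩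
    rw [pow_zero, ← ClassGroup.mk_mk0 K, ← map_pow, ClassGroup.mk_eq_one_iff]
    refine ⟨⟨(z : K), ?_⟩⟩
    have h3 : (((FractionalIdeal.mk0 K I ^ M : (FractionalIdeal A⁰ K)ˣ)) : FractionalIdeal A⁰ K) =
        spanSingleton A⁰ (z : K) := by
      rw [Units.val_pow_eq_pow_val]
      exact h1
    rw [h3, coe_spanSingleton]
  · choose e he using h
    have h0 : ((I : Ideal A) : FractionalIdeal A⁰ K) ≠ 0 :=
      coeIdeal_ne_zero.2 (nonZeroDivisors.coe_ne_zero I)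
    have hz : spanSingleton A⁰ (z : K) ≠ 0 := spanSingleton_ne_zero_iff.2 z.ne_zero
    have hN0 : (N : ℤ) ≠ 0 := Int.natCast_ne_zero.2 hN.ne'
    have hfin : ∀ᶠ v in Filter.cofinite, e v = 0 := by
      filter_upwards [finite_factors ((I : Ideal A) : FractionalIdeal A⁰ K),
        finite_factors (spanSingleton A⁰ (z : K))] with v hv1 hv2
      have h2 := he v
      rw [hv1, hv2, mul_zero, sub_zero, eq_comm, mul_eq_zero] at h2
      exact h2.resolve_left hN0
    obtain ⟨J, hJ0, hJ⟩ := pic_exists (K := K) e hfin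
    have h1 : ((I : Ideal A) : FractionalIdeal A⁰ K) ^ M = spanSingleton A⁰ (z : K) * J ^ N := by
      refine pic_ext (pow_ne_zero _ h0) (mul_ne_zero hz (pow_ne_zero _ hJ0)) fun v => ?_
      rw [count_pow, count_mul K v hz (pow_ne_zero _ hJ0), count_pow, hJ, ← he v]
      ring
    refine ⟨ClassGroup.mk K (Units.mk0 J hJ0), ?_⟩
    rw [← ClassGroup.mk_mk0 K, ← map_pow]
    have h2 : FractionalIdeal.mk0 K I ^ M =
        toPrincipalIdeal A K z * Units.mk0 J hJ0 ^ N := by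
      apply Units.ext
      rw [Units.val_pow_eq_pow_val, Units.val_mul, Units.val_pow_eq_pow_val, coe_toPrincipalIdeal,
        Units.val_mk0]
      exact h1
    rw [h2, map_mul, map_pow]
    have h3 : ClassGroup.mk K (toPrincipalIdeal A K z) = 1 := by
      rw [ClassGroup.mk_eq_one_iff]
      refine ⟨⟨(z : K), ?_⟩⟩
      rw [coe_toPrincipalIdeal, coe_spanSingleton]
    rw [h3, one_mul]

/-- The exponents of principal ideals, and the valuations. -/
lemma pic_count (v : HeightOneSpectrum A) (z : Kˣ) :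
    count K v (spanSingleton A⁰ (z : K)) = -log (v.valuation K (z : K)) := by
  obtain ⟨a, b, hb, hab⟩ := IsFractionRing.div_surjective (A := A) (z : K)
  have hb0 : (b : A) ≠ 0 := nonZeroDivisors.ne_zero hb
  have ha0 : a ≠ 0 := by
    rintro rfl
    rw [map_zero, zero_div] at hab
    exact z.ne_zero hab.symm
  have hc : ∀ c : A, c ≠ 0 → count K v (spanSingleton A⁰ (algebraMap A K c)) =
      -log (v.valuation K (algebraMap A K c)) := by
    intro c hc
    rw [← coeIdeal_span_singleton, count_coe K v (by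
      rw [Ne, Submodule.zero_eq_bot, Ideal.span_singleton_eq_bot]; exact hc),
      HeightOneSpectrum.valuation_of_algebraMap, HeightOneSpectrum.intValuation_if_neg _ hc,
      log_exp, neg_neg]
  have hK : ∀ c : A, c ≠ 0 → algebraMap A K c ≠ 0 := fun c hc =>
    (map_ne_zero_iff _ (IsFractionRing.injective A K)).2 hc
  have h1 : spanSingleton A⁰ (algebraMap A K a) =
      spanSingleton A⁰ (z : K) * spanSingleton A⁰ (algebraMap A K b) := by
    rw [spanSingleton_mul_spanSingleton, ← hab, div_mul_cancel₀ _ (hK b hb0)]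
  have h2 := congrArg (count K v) h1
  rw [count_mul K v (spanSingleton_ne_zero_iff.2 z.ne_zero)
    (spanSingleton_ne_zero_iff.2 (hK b hb0)), hc a ha0, hc b hb0] at h2
  have h3 : v.valuation K (algebraMap A K a) =
      v.valuation K (z : K) * v.valuation K (algebraMap A K b) := by
    rw [← map_mul, ← hab, div_mul_cancel₀ _ (hK b hb0)]
  rw [h3, log_mul ((Valuation.ne_zero_iff _).2 z.ne_zero)
    ((Valuation.ne_zero_iff _).2 (hK b hb0))] at h2
  linarith

/-- A homomorphism to the integers which is nonnegative on `A` and zero at the elements which are not in the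
prime `v` is a multiple of the valuation. -/
theorem pic_ord (v : HeightOneSpectrum A) (o : Kˣ → ℤ) (hmul : ∀ a b, o (a * b) = o a + o b)
    (hunit : ∀ (a : A) (u : Kˣ), (u : K) = algebraMap A K a → a ∉ v.asIdeal → o u = 0)
    (hpos : ∀ (a : A) (u : Kˣ), (u : K) = algebraMap A K a → 0 ≤ o u) :
    ∃ e : ℤ, ∀ z : Kˣ, o z = e * count K v (spanSingleton A⁰ (z : K)) := by
  have hone : o 1 = 0 := by
    have h := hmul 1 1
    rw [mul_one] at h
    linarith
  have hinv : ∀ a, o a⁻¹ = -o a := by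
    intro a
    have h := hmul a a⁻¹
    rw [mul_inv_cancel, hone] at h
    linarith
  have hle : ∀ z : Kˣ, v.valuation K (z : K) ≤ 1 → 0 ≤ o z := by
    intro z hz
    obtain ⟨n, d, hnd⟩ := v.exists_primeCompl_mul_eq_of_integer (z : K) hz
    have hd0 : (d : A) ≠ 0 := fun h0 => d.2 (h0 ▸ v.asIdeal.zero_mem)
    have hdK : algebraMap A K d ≠ 0 := (map_ne_zero_iff _ (IsFractionRing.injective A K)).2 hd0
    have h1 := hpos n (z * Units.mk0 _ hdK) (by rw [Units.val_mul, Units.val_mk0, hnd])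
    rw [hmul, hunit d (Units.mk0 _ hdK) rfl d.2, add_zero] at h1
    exact h1
  have heq : ∀ z : Kˣ, v.valuation K (z : K) = 1 → o z = 0 := by
    intro z hz
    refine le_antisymm ?_ (hle z hz.le)
    have h1 := hle z⁻¹ (by rw [Units.val_inv_eq_inv_val, map_inv₀, hz, inv_one])
    rw [hinv] at h1
    linarith
  obtain ⟨π, hπ⟩ := v.valuation_exists_uniformizer K
  have hπ0 : π ≠ 0 := by
    rintro rfl
    rw [map_zero] at hπ
    exact exp_ne_zero hπ.symm
  let ϖ : Kˣ := Units.mk0 π hπ0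
  have hzpow : ∀ (n : ℤ), o (ϖ ^ n) = n * o ϖ := by
    let φ : Kˣ →* Multiplicative ℤ :=
      { toFun := fun u => Multiplicative.ofAdd (o u)
        map_one' := by rw [hone]; rfl
        map_mul' := fun a b => by rw [hmul]; rfl }
    intro n
    have h1 := map_zpow φ ϖ n
    have h2 := congrArg Multiplicative.toAdd h1
    rw [toAdd_zpow] at h2
    exact h2
  refine ⟨o ϖ, fun z => ?_⟩
  rw [pic_count]
  set n := -log (v.valuation K (z : K)) with hn
  have hz0 : v.valuation K (z : K) ≠ 0 := (Valuation.ne_zero_iff _).2 z.ne_zero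
  have h1 : v.valuation K ((z * (ϖ ^ n)⁻¹ : Kˣ) : K) = 1 := by
    rw [Units.val_mul, map_mul, Units.val_inv_eq_inv_val, map_inv₀, Units.val_zpow_eq_zpow_val,
      map_zpow₀, Units.val_mk0, hπ, ← exp_zsmul, hn, smul_eq_mul]
    rw [show (-log (v.valuation K (z : K))) * (-1 : ℤ) = log (v.valuation K (z : K)) by ring,
      exp_log hz0, mul_inv_cancel₀ hz0]
  have h2 := heq _ h1
  rw [hmul, hinv, hzpow] at h2
  linarith

end


end Pool.Agent.Lib.MP_89bcae_ag.Bra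

end

section

section

open Finset

namespace Pool.Agent.Lib.MP_89bcae_ag.Sup

theorem td01_root {ℓ : ℕ} (hℓ : ℓ.Prime) :
    ∃ (A : Type) (_ : CommRing A) (_ : IsDomain A) (ζ : A), IsPrimitiveRoot ζ ℓ ∧
      ∀ {R : Type*} [CommRing R] (ξ : R), ∑ i ∈ range ℓ, ξ ^ i = 0 →
        ∃ f : A →+* R, f ζ = ξ := by
  have hirr : Irreducible (Polynomial.cyclotomic ℓ ℤ) := Polynomial.cyclotomic.irreducible hℓ.pos
  have hpr : Prime (Polynomial.cyclotomic ℓ ℤ) := hirr.prime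
  have hmon : (Polynomial.cyclotomic ℓ ℤ).Monic := Polynomial.cyclotomic.monic ℓ ℤ
  have : Fact ℓ.Prime := ⟨hℓ⟩
  have hdom : IsDomain (AdjoinRoot (Polynomial.cyclotomic ℓ ℤ)) :=
    AdjoinRoot.isDomain_of_prime hpr
  have hdeg : (Polynomial.cyclotomic ℓ ℤ).natDegree = ℓ - 1 := by
    rw [Polynomial.natDegree_cyclotomic, Nat.totient_prime hℓ]
  have hne : ((ℓ : ℕ) : AdjoinRoot (Polynomial.cyclotomic ℓ ℤ)) ≠ 0 := by
    intro h
    have h1 : AdjoinRoot.mk (Polynomial.cyclotomic ℓ ℤ) (Polynomial.C (ℓ : ℤ)) = 0 := by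
      rw [AdjoinRoot.mk_C]
      simpa using h
    rw [AdjoinRoot.mk_eq_zero] at h1
    have h2 := Polynomial.natDegree_le_of_dvd h1 (by
      rw [Ne, Polynomial.C_eq_zero]; exact_mod_cast hℓ.ne_zero)
    rw [hdeg, Polynomial.natDegree_C] at h2
    have := hℓ.two_le
    omega
  have hNe : NeZero ((ℓ : ℕ) : AdjoinRoot (Polynomial.cyclotomic ℓ ℤ)) := ⟨hne⟩
  refine ⟨AdjoinRoot (Polynomial.cyclotomic ℓ ℤ), inferInstance, hdom,
    AdjoinRoot.root _, ?_, ?_⟩
  · rw [← Polynomial.isRoot_cyclotomic_iff]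
    have h := AdjoinRoot.isRoot_root (Polynomial.cyclotomic ℓ ℤ)
    have hm : (Polynomial.cyclotomic ℓ ℤ).map (AdjoinRoot.of (Polynomial.cyclotomic ℓ ℤ))
        = Polynomial.cyclotomic ℓ (AdjoinRoot (Polynomial.cyclotomic ℓ ℤ)) :=
      Polynomial.map_cyclotomic _ _
    rwa [hm] at h
  · intro R _ ξ hξ
    have he : (Polynomial.cyclotomic ℓ ℤ).eval₂ (Int.castRingHom R) ξ = 0 := by
      rw [Polynomial.cyclotomic_prime, Polynomial.eval₂_finsetSum]
      simpa using hξ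
    exact ⟨AdjoinRoot.lift (Int.castRingHom R) ξ he, AdjoinRoot.lift_root he⟩

theorem prod_sub_pow {R : Type*} [CommRing R] {ℓ : ℕ} (hℓ : ℓ.Prime) (ξ x y : R)
    (hξ : ∑ i ∈ range ℓ, ξ ^ i = 0) : ∏ c ∈ range ℓ, (x - ξ ^ c * y) = x ^ ℓ - y ^ ℓ := by
  classical
  obtain ⟨A, _, _, ζ, hζ, hlift⟩ := td01_root hℓ
  obtain ⟨f, hf⟩ := hlift ξ hξ
  have hζ' : IsPrimitiveRoot (MvPolynomial.C (σ := Fin 2) ζ) ℓ :=
    hζ.map_of_injective (f := (MvPolynomial.C (σ := Fin 2) : A →+* _))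
      (MvPolynomial.C_injective _ _)
  have hid := hζ'.pow_sub_pow_eq_prod_sub_mul (MvPolynomial.X 0 : MvPolynomial (Fin 2) A)
    (MvPolynomial.X 1) hℓ.pos
  have hset : Polynomial.nthRootsFinset ℓ (1 : MvPolynomial (Fin 2) A)
      = (range ℓ).image (fun c => (MvPolynomial.C (σ := Fin 2) ζ) ^ c) := by
    symm
    apply Finset.eq_of_subset_of_card_le
    · intro z hz
      obtain ⟨c, -, rfl⟩ := Finset.mem_image.1 hz
      rw [Polynomial.mem_nthRootsFinset hℓ.pos, ← pow_mul, mul_comm, pow_mul, hζ'.pow_eq_one,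
        one_pow]
    · rw [hζ'.card_nthRootsFinset, Finset.card_image_of_injOn, Finset.card_range]
      intro i hi j hj hij
      exact hζ'.pow_inj (by simpa using hi) (by simpa using hj) hij
  rw [hset, Finset.prod_image] at hid
  swap
  · intro i hi j hj hij
    exact hζ'.pow_inj (by simpa using hi) (by simpa using hj) hij
  have := congrArg (MvPolynomial.eval₂Hom f ![x, y]) hid
  simp only [map_sub, map_pow, map_prod, map_mul, MvPolynomial.eval₂Hom_X', Matrix.cons_val_zero,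
    Matrix.cons_val_one, MvPolynomial.eval₂Hom_C, hf] at this
  exact this.symm

theorem td01_list {M : Type*} [CommMonoid M] (g : ℕ → M) (n : ℕ) :
    ∏ c ∈ range n, g c = ((List.range n).map g).prod := by
  induction n with
  | zero => simp
  | succ n ih => rw [Finset.prod_range_succ, List.range_succ, ih]; simp

theorem prod_sub_pow_comm {R : Type*} [Ring R] {ℓ : ℕ} (hℓ : ℓ.Prime) (ξ x : R)
    (hc : Commute ξ x) (hξ : ∑ i ∈ range ℓ, ξ ^ i = 0) :
    ((List.range ℓ).map fun c => x - ξ ^ c).prod = x ^ ℓ - 1 := by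
  have hcomm : ∀ a ∈ ({x, ξ} : Set R), ∀ b ∈ ({x, ξ} : Set R), a * b = b * a := by
    intro a ha b hb
    rcases ha with rfl | ha <;> rcases hb with rfl | hb
    · rfl
    · rw [Set.mem_singleton_iff.1 hb]; exact hc.eq.symm
    · rw [Set.mem_singleton_iff.1 ha]; exact hc.eq
    · rw [Set.mem_singleton_iff.1 ha, Set.mem_singleton_iff.1 hb]
  let : CommRing (Subring.closure ({x, ξ} : Set R)) := Subring.closureCommRingOfComm hcomm
  let x' : Subring.closure ({x, ξ} : Set R) := ⟨x, Subring.subset_closure (by simp)⟩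
  let ξ' : Subring.closure ({x, ξ} : Set R) := ⟨ξ, Subring.subset_closure (by simp)⟩
  have hξ' : ∑ i ∈ range ℓ, ξ' ^ i = 0 := by
    apply Subtype.ext
    have : (((∑ i ∈ range ℓ, ξ' ^ i : Subring.closure ({x, ξ} : Set R))) : R)
        = ∑ i ∈ range ℓ, ξ ^ i := by
      rw [← Subring.coe_subtype, map_sum]
      simp [ξ']
    rw [this, hξ]; rfl
  have h := prod_sub_pow hℓ ξ' x' 1 hξ'
  have h2 : ((List.range ℓ).map fun c => x' - ξ' ^ c * 1).prod = x' ^ ℓ - 1 ^ ℓ := by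
    rw [← h, td01_list]
  have h3 := congrArg (Subring.subtype (Subring.closure ({x, ξ} : Set R))) h2
  rw [map_list_prod] at h3
  simpa [x', ξ', Function.comp_def] using h3

end Pool.Agent.Lib.MP_89bcae_ag.Sup

end

section

open Finset

namespace Pool.Agent.Lib.MP_89bcae_ag.Sup

open Polynomial in
theorem td02_taylor (P : Polynomial ℤ) :
    ∃ P' : Polynomial ℤ, P = C (P.eval 1) + (1 - X) * P' := by
  obtain ⟨R, hR⟩ := Polynomial.X_sub_C_dvd_sub_C_eval (a := (1 : ℤ)) (p := P)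
  refine ⟨-R, ?_⟩
  have h1 : P = C (P.eval 1) + (X - C 1) * R := by rw [← hR]; ring
  calc P = C (P.eval 1) + (X - C 1) * R := h1
    _ = C (P.eval 1) + (1 - X) * -R := by rw [C_1]; ring

open Polynomial in
theorem td02_frob {ℓ : ℕ} (hℓ : ℓ.Prime) (n₀ : ℕ) :
    ∃ R : Polynomial ℤ, (1 - X : Polynomial ℤ) ^ ℓ ^ n₀ =
      1 - X ^ ℓ ^ n₀ + (ℓ : Polynomial ℤ) * ((1 - X) * R) := by
  have : Fact ℓ.Prime := ⟨hℓ⟩
  have hN : 0 < ℓ ^ n₀ := pow_pos hℓ.pos _
  set P : Polynomial ℤ := (1 - X) ^ ℓ ^ n₀ - (1 - X ^ ℓ ^ n₀) with hP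
  have h0 : P.map (Int.castRingHom (ZMod ℓ)) = 0 := by
    rw [hP]
    simp only [Polynomial.map_sub, Polynomial.map_pow, Polynomial.map_one, Polynomial.map_X]
    rw [sub_pow_char_pow, one_pow, sub_self]
  have h1 : C (ℓ : ℤ) ∣ P := by
    rw [Polynomial.C_dvd_iff_dvd_coeff]
    intro i
    have := congrArg (fun Q : Polynomial (ZMod ℓ) => Q.coeff i) h0
    simp only [Polynomial.coeff_map, Polynomial.coeff_zero] at this
    rwa [eq_intCast, ZMod.intCast_zmod_eq_zero_iff_dvd] at this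
  obtain ⟨R, hR⟩ := h1
  obtain ⟨R', hR'⟩ := td02_taylor R
  have hev : P.eval 1 = 0 := by
    rw [hP]
    simp [zero_pow hN.ne']
  have hR1 : R.eval 1 = 0 := by
    rw [hR, eval_mul, eval_C] at hev
    rcases mul_eq_zero.1 hev with h | h
    · exact absurd (by exact_mod_cast h) hℓ.ne_zero
    · exact h
  refine ⟨R', ?_⟩
  rw [hR1, C_0, zero_add] at hR'
  have h2 : (1 - X : Polynomial ℤ) ^ ℓ ^ n₀ = 1 - X ^ ℓ ^ n₀ + P := by rw [hP]; ring
  rw [h2, hR]
  congr 1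
  rw [hR']
  simp

open Polynomial in
/-- `ℓ = (1 - X ^ N) κ + Φ` -/
theorem td02_kappa (ℓ N : ℕ) :
    ∃ κ : Polynomial ℤ, (ℓ : Polynomial ℤ) =
      (1 - X ^ N) * κ + ∑ j ∈ range ℓ, X ^ (j * N) := by
  refine ⟨∑ j ∈ range ℓ, ∑ i ∈ range j, (X ^ N) ^ i, ?_⟩
  rw [Finset.mul_sum]
  have h : ∀ j ∈ range ℓ, (1 - X ^ N : Polynomial ℤ) * ∑ i ∈ range j, (X ^ N) ^ i
      = 1 - X ^ (j * N) := by
    intro j _
    rw [mul_neg_geom_sum, ← pow_mul, mul_comm N j]
  rw [Finset.sum_congr rfl h, Finset.sum_sub_distrib]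
  simp

section
variable {Q : Type*} [AddCommGroup Q]

open Polynomial in
theorem td02_phi {ℓ N : ℕ} (t : AddMonoid.End Q)
    (hΦ : ∑ j ∈ range ℓ, t ^ (j * N) = 0) :
    aeval t (∑ j ∈ range ℓ, X ^ (j * N) : Polynomial ℤ) = 0 := by
  rw [map_sum]
  simpa using hΦ

open Polynomial in
/-- `ℓ = (1 - t ^ N) κ(t)` -/
theorem td02_ell {ℓ N : ℕ} (t : AddMonoid.End Q)
    (hΦ : ∑ j ∈ range ℓ, t ^ (j * N) = 0) :
    ∃ κ : Polynomial ℤ, (ℓ : AddMonoid.End Q) = (1 - t ^ N) * aeval t κ := by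
  obtain ⟨κ, hκ⟩ := td02_kappa ℓ N
  refine ⟨κ, ?_⟩
  have h := congrArg (aeval t) hκ
  rw [map_add, td02_phi t hΦ, add_zero] at h
  simpa using h

open Polynomial in
theorem td02_comm (t : AddMonoid.End Q) (A B : Polynomial ℤ) :
    aeval t A * aeval t B = aeval t B * aeval t A := by
  rw [← map_mul, mul_comm, map_mul]

open Polynomial in
/-- `(1 - t)^N = (1 - t^N) (1 + κ(t) (1 - t) R(t))` -/
theorem td02_key {ℓ : ℕ} (hℓ : ℓ.Prime) (n₀ : ℕ)
    (t : AddMonoid.End Q) (hΦ : ∑ j ∈ range ℓ, t ^ (j * ℓ ^ n₀) = 0) :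
    ∃ κ R : Polynomial ℤ, (1 - t) ^ ℓ ^ n₀ =
      (1 - t ^ ℓ ^ n₀) * (1 + aeval t κ * ((1 - t) * aeval t R)) := by
  obtain ⟨κ, hκ⟩ := td02_ell t hΦ
  obtain ⟨R, hR⟩ := td02_frob hℓ n₀
  refine ⟨κ, R, ?_⟩
  have h := congrArg (aeval t) hR
  simp only [map_pow, map_sub, map_one, aeval_X, map_add, map_mul, map_natCast] at h
  rw [h, hκ]
  noncomm_ring

end

theorem pw_lemma {Q : Type*} [AddCommGroup Q] {ℓ : ℕ} (hℓ : ℓ.Prime) (n₀ : ℕ)
    (t : AddMonoid.End Q) (hΦ : ∑ j ∈ range ℓ, t ^ (j * ℓ ^ n₀) = 0) (a : Q) :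
    ∃ a' : Q, ((1 - t) ^ ℓ ^ n₀) a = a' - (t ^ ℓ ^ n₀) a' := by
  obtain ⟨κ, R, h⟩ := td02_key hℓ n₀ t hΦ
  refine ⟨(1 + Polynomial.aeval t κ * ((1 - t) * Polynomial.aeval t R)) a, ?_⟩
  rw [h]
  rfl

theorem td02_inj {Q : Type*} [AddCommGroup Q] (t : AddMonoid.End Q)
    (hinj : ∀ a, a - t a = 0 → a = 0) (n : ℕ) (a : Q) (h : ((1 - t) ^ n) a = 0) : a = 0 := by
  induction n with
  | zero => simpa using h
  | succ n ih =>
    apply ih
    apply hinj
    rw [pow_succ'] at h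
    exact h

theorem div_lemma {Q : Type*} [AddCommGroup Q] {ℓ : ℕ} (hℓ : ℓ.Prime) (n₀ : ℕ)
    (t : AddMonoid.End Q) (hΦ : ∑ j ∈ range ℓ, t ^ (j * ℓ ^ n₀) = 0)
    (hinj : ∀ a, a - t a = 0 → a = 0) {a y : Q}
    (h : y - (t ^ ℓ ^ n₀) y = ((1 - t) ^ (ℓ ^ n₀ - 1)) a) : ∃ a', a = a' - t a' := by
  obtain ⟨κ, R, hk⟩ := td02_key hℓ n₀ t hΦ
  have hN : 0 < ℓ ^ n₀ := pow_pos hℓ.pos _
  set w : AddMonoid.End Q := 1 + Polynomial.aeval t κ * ((1 - t) * Polynomial.aeval t R) with hw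
  have h1t : (1 - t) = Polynomial.aeval t (1 - Polynomial.X : Polynomial ℤ) := by simp
  have hwp : w = Polynomial.aeval t (1 + κ * ((1 - Polynomial.X) * R)) := by
    rw [hw]; simp
  have hpowp : ∀ n : ℕ, (1 - t) ^ n = Polynomial.aeval t ((1 - Polynomial.X : Polynomial ℤ) ^ n) := by
    intro n; rw [map_pow, ← h1t]
  have hxip : (1 - t ^ ℓ ^ n₀) =
      Polynomial.aeval t (1 - Polynomial.X ^ ℓ ^ n₀ : Polynomial ℤ) := by simp
  -- the identity
  have e1 : (1 - t ^ ℓ ^ n₀) y = ((1 - t) ^ (ℓ ^ n₀ - 1)) a := h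
  have e2 : ((1 - t) ^ ℓ ^ n₀) y = ((1 - t) ^ (ℓ ^ n₀ - 1)) (w a) := by
    have c1 : (1 - t) ^ ℓ ^ n₀ = w * (1 - t ^ ℓ ^ n₀) := by
      rw [hk, hxip, hwp]; exact td02_comm t _ _
    have c2 : w * (1 - t) ^ (ℓ ^ n₀ - 1) = (1 - t) ^ (ℓ ^ n₀ - 1) * w := by
      rw [hpowp, hwp]; exact td02_comm t _ _
    rw [c1]
    show w ((1 - t ^ ℓ ^ n₀) y) = _
    rw [e1]
    show (w * (1 - t) ^ (ℓ ^ n₀ - 1)) a = _
    rw [c2]; rfl
  have e3 : ((1 - t) ^ (ℓ ^ n₀ - 1)) ((1 - t) y - w a) = 0 := by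
    rw [map_sub, ← e2]
    have : (1 - t) ^ ℓ ^ n₀ = (1 - t) ^ (ℓ ^ n₀ - 1) * (1 - t) := by
      rw [← pow_succ]; congr 1; omega
    rw [this]
    exact sub_self _
  have e4 := td02_inj t hinj _ _ e3
  have e5 : (1 - t) y = w a := sub_eq_zero.1 e4
  have c3 : w = 1 + (1 - t) * (Polynomial.aeval t κ * Polynomial.aeval t R) := by
    rw [hw, ← mul_assoc, ← mul_assoc]
    congr 2
    rw [h1t]; exact td02_comm t _ _
  rw [c3] at e5
  refine ⟨y - (Polynomial.aeval t κ * Polynomial.aeval t R) a, ?_⟩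
  have e6 : (1 - t) y = a + (1 - t) ((Polynomial.aeval t κ * Polynomial.aeval t R) a) := e5
  have e7 : a = (1 - t) (y - (Polynomial.aeval t κ * Polynomial.aeval t R) a) := by
    rw [map_sub, e6]; abel
  exact e7

open Polynomial in
/-- `(1 + t + ... + t^(q-1))^n = 1 + (1 - t) s` modulo `(1 - t)²`. -/
theorem eps_lemma {Q : Type*} [AddCommGroup Q] {ℓ : ℕ} (hℓ : ℓ.Prime) (n₀ q n : ℕ)
    (hq0 : 0 < q) (hq1 : ℓ ∣ q - 1)
    (t : AddMonoid.End Q) (hΦ : ∑ j ∈ range ℓ, t ^ (j * ℓ ^ n₀) = 0) :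
    ∃ s : ℤ, ∀ a : Q, ∃ a' : Q, ((∑ i ∈ range q, t ^ i) ^ n) a =
      a + (1 - t) (s • a + (1 - t) a') := by
  obtain ⟨κ, hκ⟩ := td02_kappa ℓ (ℓ ^ n₀)
  obtain ⟨R, hR⟩ := td02_taylor ((∑ i ∈ range q, X ^ i : Polynomial ℤ) ^ n)
  have hev : ((∑ i ∈ range q, X ^ i : Polynomial ℤ) ^ n).eval 1 = (q : ℤ) ^ n := by
    simp [eval_finsetSum]
  rw [hev] at hR
  have hdvd : (ℓ : ℤ) ∣ (q : ℤ) ^ n - 1 := by
    have h1 : (ℓ : ℤ) ∣ (q : ℤ) - 1 := by
      have : ((q - 1 : ℕ) : ℤ) = (q : ℤ) - 1 := by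
        rw [Nat.cast_sub hq0]; simp
      rw [← this]; exact_mod_cast hq1
    have h2 : (q : ℤ) - 1 ∣ (q : ℤ) ^ n - 1 ^ n := sub_dvd_pow_sub_pow _ _ n
    rw [one_pow] at h2
    exact h1.trans h2
  obtain ⟨y, hy⟩ := hdvd
  set G : Polynomial ℤ := ∑ i ∈ range (ℓ ^ n₀), X ^ i with hG
  have hGe : (1 - X ^ (ℓ ^ n₀) : Polynomial ℤ) = (1 - X) * G := by
    rw [hG, mul_neg_geom_sum]
  obtain ⟨R₂, hR₂⟩ := td02_taylor R
  obtain ⟨K₂, hK₂⟩ := td02_taylor (G * κ * C y)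
  set s : ℤ := R.eval 1 + (G * κ * C y).eval 1 with hs
  have hmain : (∑ i ∈ range q, X ^ i : Polynomial ℤ) ^ n =
      1 + (1 - X) * (C s + (1 - X) * (R₂ + K₂)) +
        (∑ j ∈ range ℓ, X ^ (j * ℓ ^ n₀)) * C y := by
    have h1 : (C ((q : ℤ) ^ n) : Polynomial ℤ) = 1 + (ℓ : Polynomial ℤ) * C y := by
      have : (q : ℤ) ^ n = 1 + ℓ * y := by rw [← hy]; ring
      rw [this]; simp
    have h2 : (ℓ : Polynomial ℤ) * C y = (1 - X) * (G * κ * C y) +
        (∑ j ∈ range ℓ, X ^ (j * ℓ ^ n₀)) * C y := by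
      rw [hκ, hGe]; ring
    have h3 : (C s : Polynomial ℤ) = C (R.eval 1) + C ((G * κ * C y).eval 1) := by
      rw [hs, C_add]
    have h4 : (1 - X) * R = (1 - X) * (C (R.eval 1) + (1 - X) * R₂) := by rw [← hR₂]
    have h5 : (1 - X) * (G * κ * C y) =
        (1 - X) * (C ((G * κ * C y).eval 1) + (1 - X) * K₂) := by rw [← hK₂]
    rw [hR, h1, h2, h3, h4, h5]
    ring
  refine ⟨s, fun a => ⟨aeval t (R₂ + K₂) a, ?_⟩⟩
  have h := congrArg (aeval t) hmain
  rw [map_add, map_mul (aeval t) (∑ j ∈ range ℓ, X ^ (j * ℓ ^ n₀)), td02_phi t hΦ, zero_mul,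
    add_zero] at h
  have hl : aeval t ((∑ i ∈ range q, X ^ i : Polynomial ℤ) ^ n) = (∑ i ∈ range q, t ^ i) ^ n := by
    simp
  rw [hl] at h
  rw [h]
  have hr : aeval t (1 + (1 - X) * (C s + (1 - X) * (R₂ + K₂)) : Polynomial ℤ) =
      1 + (1 - t) * ((s : AddMonoid.End Q) + (1 - t) * aeval t (R₂ + K₂)) := by
    simp only [map_add, map_mul, map_sub, map_one, aeval_X, aeval_C]
    simp
  rw [hr]
  show a + (1 - t) ((s : AddMonoid.End Q) a + (1 - t) (aeval t (R₂ + K₂) a)) = _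
  have hs' : (s : AddMonoid.End Q) a = s • a := by
    rw [← zsmul_one s]; rfl
  rw [hs']

end Pool.Agent.Lib.MP_89bcae_ag.Sup

end

section

/-!
# The order lemma
-/

open Finset

namespace Pool.Agent.Lib.MP_89bcae_ag.Sup

section poly

open Polynomial

lemma td05_p1 (f : ℤ[X]) : ∃ g : ℤ[X], f = C (f.eval 1) + (1 - X) * g := by
  obtain ⟨g, hg⟩ := X_sub_C_dvd_sub_C_eval (a := (1 : ℤ)) (p := f)
  refine ⟨-g, ?_⟩
  rw [C_1] at hg
  linear_combination hg

lemma td05_p2 (n : ℕ) : (∃ g : ℤ[X], (X : ℤ[X]) ^ n = 1 - (n : ℤ[X]) * (1 - X) + (1 - X) ^ 2 * g) ∧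
    ∃ g : ℤ[X], ∑ i ∈ range n, (X : ℤ[X]) ^ i =
      (n : ℤ[X]) - ((n.choose 2 : ℕ) : ℤ[X]) * (1 - X) + (1 - X) ^ 2 * g := by
  induction n with
  | zero => exact ⟨⟨0, by simp⟩, ⟨0, by simp⟩⟩
  | succ n ih =>
    obtain ⟨⟨g, hg⟩, ⟨h, hh⟩⟩ := ih
    refine ⟨⟨(n : ℤ[X]) + g - (1 - X) * g, ?_⟩, ⟨h + g, ?_⟩⟩
    · rw [pow_succ, hg]
      push_cast
      ring
    · rw [sum_range_succ, hh, hg, Nat.choose_succ_succ' n 1, Nat.choose_one_right]
      push_cast
      ring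

end poly

section arith

/-- the arithmetic hypothesis on `q` -/
def td05_H (ℓ q : ℕ) : Prop := ∃ x : ℕ, q = 1 + ℓ * x ∧ (ℓ = 2 → 2 ∣ x)

lemma td05_H_of {ℓ q : ℕ} (hq0 : 0 < q) (hq1 : ℓ ∣ q - 1) (hq2 : ℓ ∣ q.choose 2) :
    td05_H ℓ q := by
  obtain ⟨x, hx⟩ := hq1
  refine ⟨x, by omega, ?_⟩
  rintro rfl
  have hq : q = 2 * x + 1 := by omega
  have h1 : q.choose 2 = (2 * x + 1) * x := by
    rw [hq, Nat.choose_two_right]
    have : (2 * x + 1) * (2 * x + 1 - 1) = (2 * x + 1) * x * 2 := by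
      rw [Nat.add_sub_cancel]
      ring
    rw [this, Nat.mul_div_cancel _ two_pos]
  rw [h1] at hq2
  rcases (Nat.prime_two.dvd_mul).1 hq2 with h | h
  · omega
  · exact h

lemma td05_H_pow {ℓ q : ℕ} (h : td05_H ℓ q) (n : ℕ) : td05_H ℓ (q ^ n) := by
  obtain ⟨x, hx, h2⟩ := h
  induction n with
  | zero => exact ⟨0, by simp, fun _ => dvd_zero _⟩
  | succ n ih =>
    obtain ⟨y, hy, hy2⟩ := ih
    refine ⟨x + y + ℓ * y * x, ?_, fun h => ?_⟩
    · rw [pow_succ, hy, hx]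
      ring
    · exact dvd_add (dvd_add (h2 h) (hy2 h)) ((h2 h).mul_left _)

lemma td05_geom (x n : ℕ) : ∃ z, ∑ i ∈ range n, (1 + x) ^ i = n + n.choose 2 * x + x ^ 2 * z := by
  have h1 : ∀ n : ℕ, ∃ z, (1 + x) ^ n = 1 + n * x + x ^ 2 * z := by
    intro n
    induction n with
    | zero => exact ⟨0, by simp⟩
    | succ n ih =>
      obtain ⟨z, hz⟩ := ih
      refine ⟨n + z + x * z, ?_⟩
      rw [pow_succ, hz]
      ring
  induction n with
  | zero => exact ⟨0, by simp⟩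
  | succ n ih =>
    obtain ⟨z, hz⟩ := ih
    obtain ⟨w, hw⟩ := h1 n
    refine ⟨z + w, ?_⟩
    rw [sum_range_succ, hz, hw, Nat.choose_succ_succ' n 1, Nat.choose_one_right]
    ring

/-- `∑_{i<ℓ} q^i = ℓ v` with `v` prime to `ℓ` -/
lemma td05_S {ℓ q : ℕ} (hℓ : ℓ.Prime) (h : td05_H ℓ q) :
    ∃ y, ∑ i ∈ range ℓ, q ^ i = ℓ * (1 + ℓ * y) := by
  obtain ⟨x, hx, h2⟩ := h
  obtain ⟨z, hz⟩ := td05_geom (ℓ * x) ℓ
  rw [hx, hz]
  obtain ⟨c, hc⟩ : ∃ c, ℓ.choose 2 * x = ℓ * c := by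
    rcases eq_or_ne ℓ 2 with h | h
    · obtain ⟨c, hc⟩ := h2 h
      refine ⟨c, ?_⟩
      rw [hc, h]
      norm_num
    · obtain ⟨c, hc⟩ := hℓ.dvd_choose_self (k := 2) two_ne_zero (by
        have := hℓ.two_le
        omega)
      refine ⟨c * x, ?_⟩
      rw [hc]
      ring
  refine ⟨c + x ^ 2 * z, ?_⟩
  have : ℓ.choose 2 * (ℓ * x) = ℓ * (ℓ.choose 2 * x) := by ring
  rw [this, hc]
  ring

lemma td05_choose {ℓ q : ℕ} (hℓ : ℓ.Prime) (h : td05_H ℓ q) : ∃ c, q.choose 2 = ℓ * c := by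
  obtain ⟨x, hx, h2⟩ := h
  have h3 : 2 * q.choose 2 = ℓ * (x * q) := by
    rw [Nat.choose_two_right, Nat.mul_div_cancel']
    · rw [hx, Nat.add_sub_cancel_left]
      ring
    · exact (Nat.even_mul_pred_self q).two_dvd
  rcases eq_or_ne ℓ 2 with h | h
  · obtain ⟨c, hc⟩ := h2 h
    refine ⟨c * q, ?_⟩
    subst h
    rw [hc] at h3
    have : 2 * (2 * c * q) = 2 * (2 * (c * q)) := by ring
    rw [this] at h3
    exact Nat.eq_of_mul_eq_mul_left two_pos h3
  · have h4 : ℓ ∣ 2 * q.choose 2 := ⟨_, h3⟩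
    rcases (hℓ.dvd_mul).1 h4 with h5 | h5
    · exact absurd ((Nat.prime_dvd_prime_iff_eq hℓ Nat.prime_two).1 h5) h
    · exact h5

lemma td05_sq {ℓ q : ℕ} (hℓ : ℓ.Prime) (h : td05_H ℓ q) : ∃ y, q ^ ℓ = 1 + ℓ ^ 2 * y := by
  obtain ⟨y, hy⟩ := td05_S hℓ h
  obtain ⟨x, hx, h2⟩ := h
  refine ⟨x * (1 + ℓ * y), ?_⟩
  have h3 : (q : ℤ) ^ ℓ = 1 + ((q : ℤ) - 1) * ∑ i ∈ range ℓ, (q : ℤ) ^ i := by
    rw [mul_geom_sum]
    ring
  have h4 : (∑ i ∈ range ℓ, (q : ℤ) ^ i) = ℓ * (1 + ℓ * y) := by exact_mod_cast hy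
  have h5 : (q : ℤ) = 1 + ℓ * x := by exact_mod_cast hx
  have h6 : (q : ℤ) - 1 = ℓ * x := by rw [h5]; ring
  rw [h4, h6] at h3
  have h7 : ((q ^ ℓ : ℕ) : ℤ) = ((1 + ℓ ^ 2 * (x * (1 + ℓ * y)) : ℕ) : ℤ) := by
    push_cast
    rw [h3]
    ring
  exact_mod_cast h7

/-- the exponent `e` with `ℓ N ∣ n + e S` -/
lemma td05_solve {ℓ : ℕ} (hℓ : ℓ.Prime) (n₀ n' y : ℕ) :
    ∃ e k : ℕ, ℓ * n' + e * (ℓ * (1 + ℓ * y)) = ℓ * ℓ ^ n₀ * k := by
  have hcop : Nat.Coprime (1 + ℓ * y) (ℓ ^ n₀) := by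
    apply Nat.Coprime.pow_right
    rw [Nat.coprime_comm, hℓ.coprime_iff_not_dvd]
    intro h
    have h1 : ℓ ∣ 1 := (Nat.dvd_add_left (dvd_mul_right ℓ y)).1 h
    exact hℓ.one_lt.ne' (Nat.dvd_one.1 h1)
  have hN : 0 < ℓ ^ n₀ := pow_pos hℓ.pos _
  obtain ⟨w, -, hw'⟩ := Nat.exists_mul_mod_eq_of_coprime 1 hcop hN.ne'
  have hw : (1 + ℓ * y) * w ≡ 1 [MOD ℓ ^ n₀] := hw'
  refine ⟨w * (n' * (ℓ ^ n₀ - 1)), ?_⟩
  have h1 : n' + w * (n' * (ℓ ^ n₀ - 1)) * (1 + ℓ * y) ≡ 0 [MOD ℓ ^ n₀] := by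
    have h2 : w * (n' * (ℓ ^ n₀ - 1)) * (1 + ℓ * y) ≡ 1 * (n' * (ℓ ^ n₀ - 1)) [MOD ℓ ^ n₀] := by
      have h3 : w * (n' * (ℓ ^ n₀ - 1)) * (1 + ℓ * y) = ((1 + ℓ * y) * w) * (n' * (ℓ ^ n₀ - 1)) := by
        ring
      rw [h3]
      exact hw.mul_right _
    have h4 : n' + 1 * (n' * (ℓ ^ n₀ - 1)) = n' * ℓ ^ n₀ := by
      obtain ⟨M, hM⟩ := Nat.exists_eq_succ_of_ne_zero hN.ne'
      rw [hM, Nat.succ_sub_one, Nat.succ_eq_add_one]
      ring
    refine (h2.add_left n').trans ?_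
    rw [h4]
    exact (Nat.modEq_zero_iff_dvd.2 (dvd_mul_left _ _))
  obtain ⟨k, hk⟩ := Nat.modEq_zero_iff_dvd.1 h1
  refine ⟨k, ?_⟩
  calc ℓ * n' + w * (n' * (ℓ ^ n₀ - 1)) * (ℓ * (1 + ℓ * y))
      = ℓ * (n' + w * (n' * (ℓ ^ n₀ - 1)) * (1 + ℓ * y)) := by ring
    _ = ℓ * ℓ ^ n₀ * k := by rw [hk]; ring

end arith

section ring

open Polynomial

variable {R : Type*} [Ring R]

/-- the value of a polynomial at `t` -/
noncomputable def td05_v (t : R) : ℤ[X] →+* R := (aeval t : ℤ[X] →ₐ[ℤ] R).toRingHom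

lemma td05_v_X (t : R) : td05_v t X = t := aeval_X t

lemma td05_v_pi (t : R) : td05_v t (1 - X) = 1 - t := by
  rw [map_sub, map_one, td05_v_X]

lemma td05_v_C (t : R) (a : ℤ) : td05_v t (C a) = a := by
  change aeval t (C a) = _
  rw [aeval_C]
  exact eq_intCast _ a

lemma td05_comm (t : R) (f g : ℤ[X]) : Commute (td05_v t f) (td05_v t g) := by
  unfold Commute SemiconjBy
  rw [← map_mul, ← map_mul, mul_comm]

lemma td05_comm_pi (t : R) (f : ℤ[X]) : Commute (td05_v t f) (1 - t) := by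
  rw [← td05_v_pi]
  exact td05_comm t f _

/-- `ℓ = (1 - t) κ(t)` -/
lemma td05_kappa {ℓ n₀ : ℕ} (t : R) (hΦ : ∑ j ∈ range ℓ, t ^ (j * ℓ ^ n₀) = 0) :
    ∃ K : ℤ[X], (ℓ : R) = (1 - t) * td05_v t K := by
  obtain ⟨g, hg⟩ := td05_p1 ((ℓ : ℤ[X]) - ∑ j ∈ range ℓ, X ^ (j * ℓ ^ n₀))
  have h1 : ((ℓ : ℤ[X]) - ∑ j ∈ range ℓ, X ^ (j * ℓ ^ n₀)).eval 1 = 0 := by
    rw [eval_sub, eval_natCast, eval_finsetSum]
    simp
  rw [h1, C_0, zero_add] at hg
  refine ⟨g, ?_⟩
  have h2 := congrArg (td05_v t) hg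
  rw [map_mul, td05_v_pi, map_sub, map_natCast, map_sum] at h2
  rw [← h2]
  have h3 : ∑ j ∈ range ℓ, td05_v t (X ^ (j * ℓ ^ n₀)) = 0 := by
    rw [← hΦ]
    refine sum_congr rfl fun j _ => ?_
    rw [map_pow, td05_v_X]
  rw [h3, sub_zero]

/-- `ε^m = 1 + π (s + π z)` with a natural number `s` -/
lemma td05_eps0 {ℓ q : ℕ} (hℓ : ℓ.Prime) (t : R) {K : ℤ[X]}
    (hK : (ℓ : R) = (1 - t) * td05_v t K) (h : td05_H ℓ q) (m : ℕ) :
    ∃ (s : ℕ) (z : ℤ[X]), (∑ i ∈ range q, t ^ i) ^ m =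
      1 + (1 - t) * ((s : R) + (1 - t) * td05_v t z) := by
  obtain ⟨x, hx, -⟩ := td05_H_pow h m
  obtain ⟨g, hg⟩ := td05_p1 ((∑ i ∈ range q, (X : ℤ[X]) ^ i) ^ m)
  have h1 : ((∑ i ∈ range q, (X : ℤ[X]) ^ i) ^ m).eval 1 = 1 + ℓ * x := by
    rw [eval_pow, eval_finsetSum]
    have : ∑ i ∈ range q, eval 1 ((X : ℤ[X]) ^ i) = q := by simp
    rw [this]
    exact_mod_cast hx
  obtain ⟨g₂, hg₂⟩ := td05_p1 (K * (x : ℤ[X]) + g)
  set a : ℤ := (K * (x : ℤ[X]) + g).eval 1 with ha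
  have hℓ0 : (ℓ : ℤ) ≠ 0 := by exact_mod_cast hℓ.ne_zero
  obtain ⟨s, hs⟩ : ∃ s : ℕ, (s : ℤ) = a % ℓ := ⟨(a % ℓ).toNat, Int.toNat_of_nonneg
    (Int.emod_nonneg a hℓ0)⟩
  refine ⟨s, K * C (a / ℓ) + g₂, ?_⟩
  have h2 := congrArg (td05_v t) hg
  have h3 := congrArg (td05_v t) hg₂
  have hsum : td05_v t (∑ i ∈ range q, (X : ℤ[X]) ^ i) = ∑ i ∈ range q, t ^ i := by
    rw [map_sum]
    refine sum_congr rfl fun j _ => ?_
    rw [map_pow, td05_v_X]
  rw [map_pow, hsum, h1, map_add, map_mul, td05_v_pi, td05_v_C] at h2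
  rw [map_add, map_mul, map_add, map_mul, td05_v_pi, td05_v_C, map_natCast] at h3
  have h4 : (a : R) = (s : R) + (1 - t) * (td05_v t K * ((a / ℓ : ℤ) : R)) := by
    have h5 : a = (s : ℤ) + ℓ * (a / ℓ) := by
      rw [hs]
      exact (Int.emod_add_mul_ediv a ℓ).symm
    rw [← mul_assoc, ← hK]
    conv_lhs => rw [h5]
    push_cast
    rfl
  have h5 : td05_v t g = (s : R) + (1 - t) * (td05_v t K * ((a / ℓ : ℤ) : R)) +
      (1 - t) * td05_v t g₂ - td05_v t K * (x : R) := by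
    rw [← h4, ← h3, add_sub_cancel_left]
  rw [h2, h5, map_add, map_mul, td05_v_C]
  have h6 : ((1 + ℓ * x : ℤ) : R) = 1 + (1 - t) * (td05_v t K * (x : R)) := by
    rw [← mul_assoc, ← hK]
    push_cast
    rfl
  rw [h6]
  noncomm_ring

/-- `ε^m = 1 + π² z` if `q ≡ 1` modulo `ℓ²` -/
lemma td05_eps1 {ℓ q : ℕ} (t : R) {K : ℤ[X]}
    (hK : (ℓ : R) = (1 - t) * td05_v t K) (h1 : ∃ y, q = 1 + ℓ ^ 2 * y)
    (h2 : ∃ c, q.choose 2 = ℓ * c) (m : ℕ) :
    ∃ z : ℤ[X], (∑ i ∈ range q, t ^ i) ^ m = 1 + (1 - t) * ((1 - t) * td05_v t z) := by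
  obtain ⟨y, hy⟩ := h1
  obtain ⟨c, hc⟩ := h2
  obtain ⟨-, g, hg⟩ := td05_p2 q
  have hsum : td05_v t (∑ i ∈ range q, (X : ℤ[X]) ^ i) = ∑ i ∈ range q, t ^ i := by
    rw [map_sum]
    refine sum_congr rfl fun j _ => ?_
    rw [map_pow, td05_v_X]
  induction m with
  | zero => exact ⟨0, by simp⟩
  | succ m ih =>
    obtain ⟨z, hz⟩ := ih
    have hK2 : (ℓ : R) * ℓ = (1 - t) * ((1 - t) * td05_v t (K * K)) := by
      have e1 : (ℓ : R) * ℓ = (1 - t) * (td05_v t K * (1 - t)) * td05_v t K := by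
        conv_lhs => rw [hK]
        noncomm_ring
      rw [e1, (td05_comm_pi t K).eq, map_mul]
      noncomm_ring
    have h3 : ∑ i ∈ range q, t ^ i = 1 + (1 - t) * ((1 - t) *
        td05_v t (K * K * (y : ℤ[X]) - K * (c : ℤ[X]) + g)) := by
      have h4 := congrArg (td05_v t) hg
      rw [hsum] at h4
      rw [h4, map_add, map_sub, map_mul, map_mul, map_pow, td05_v_pi, map_natCast, map_natCast,
        map_add, map_sub, map_mul _ (K * K), map_mul _ K (c : ℤ[X]), map_natCast, map_natCast, hc]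
      have e2 : ((q : ℕ) : R) = 1 + (1 - t) * ((1 - t) * td05_v t (K * K)) * (y : R) := by
        rw [← hK2, hy]
        push_cast
        rw [pow_two]
      have e3 : ((ℓ * c : ℕ) : R) * (1 - t) = (1 - t) * ((1 - t) * (td05_v t K * (c : R))) := by
        have e4 : ((ℓ * c : ℕ) : R) * (1 - t) = (1 - t) * ((ℓ * c : ℕ) : R) :=
          (Nat.cast_commute _ _).eq
        rw [e4]
        push_cast
        rw [hK]
        noncomm_ring
      rw [e2, e3]
      noncomm_ring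
    refine ⟨z + (K * K * (y : ℤ[X]) - K * (c : ℤ[X]) + g) +
      z * ((1 - X) * (1 - X)) * (K * K * (y : ℤ[X]) - K * (c : ℤ[X]) + g), ?_⟩
    have h4 : ∀ f : ℤ[X], 1 + (1 - t) * ((1 - t) * td05_v t f) =
        td05_v t (1 + (1 - X) * ((1 - X) * f)) := by
      intro f
      rw [map_add, map_one, map_mul, map_mul, td05_v_pi]
    rw [pow_succ, hz, h3, h4, h4, h4, ← map_mul]
    congr 1
    ring

/-- `t^n (1 + ... + t^(s-1)) = s + π y` -/
lemma td05_ts (t : R) (n s : ℕ) : ∃ y : R,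
    t ^ (n + s) - t ^ n = -((1 - t) * ((s : R) + (1 - t) * y)) := by
  obtain ⟨g, hg⟩ := td05_p1 (X ^ n * ∑ i ∈ range s, (X : ℤ[X]) ^ i)
  have h1 : ((X : ℤ[X]) ^ n * ∑ i ∈ range s, (X : ℤ[X]) ^ i).eval 1 = s := by
    rw [eval_mul, eval_pow, eval_X, one_pow, one_mul, eval_finsetSum]
    simp
  refine ⟨td05_v t g, ?_⟩
  have h2 := congrArg (td05_v t) hg
  rw [h1, map_add, map_mul (td05_v t) (1 - X), td05_v_pi, td05_v_C] at h2
  have h3 : ((s : ℤ) : R) = (s : R) := Int.cast_natCast s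
  rw [h3] at h2
  rw [← h2, map_mul, map_pow, td05_v_X]
  have hsum : td05_v t (∑ i ∈ range s, (X : ℤ[X]) ^ i) = ∑ i ∈ range s, t ^ i := by
    rw [map_sum]
    refine sum_congr rfl fun j _ => ?_
    rw [map_pow, td05_v_X]
  rw [hsum, ← mul_assoc, ((Commute.one_left _).sub_left (Commute.pow_right (Commute.refl t) n)).eq,
    mul_assoc, mul_neg_geom_sum, pow_add]
  noncomm_ring

lemma td05_semi {t u : R} {q : ℕ} (hc : u * t = t ^ q * u) (c : ℕ) :
    SemiconjBy (u ^ c) t (t ^ q ^ c) := by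
  induction c with
  | zero =>
    rw [pow_zero, pow_zero, pow_one]
    exact SemiconjBy.one_left t
  | succ c ih =>
    have h1 : SemiconjBy u t (t ^ q) := hc
    have h2 := h1.pow_right (q ^ c)
    rw [← pow_mul, ← pow_succ'] at h2
    rw [pow_succ']
    exact h2.mul_left ih

lemma td05_commt (t : R) (n m : ℕ) : Commute (∑ i ∈ range n, t ^ i) ((1 - t) ^ m) := by
  apply Commute.pow_right
  apply Commute.sub_right (Commute.one_right _)
  exact Commute.sum_left _ _ _ fun i _ => (Commute.refl t).pow_left i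

lemma td05_upi {t u : R} {q : ℕ} (hc : u * t = t ^ q * u) (c m : ℕ) :
    u ^ c * (1 - t) ^ m = (1 - t) ^ m * ((∑ i ∈ range (q ^ c), t ^ i) ^ m * u ^ c) := by
  have h1 : SemiconjBy (u ^ c) (1 - t) (1 - t ^ q ^ c) :=
    (SemiconjBy.one_right _).sub_right (td05_semi hc c)
  have h2 := (h1.pow_right m).eq
  have h3 : (1 - t ^ q ^ c) ^ m = (1 - t) ^ m * (∑ i ∈ range (q ^ c), t ^ i) ^ m := by
    rw [← mul_neg_geom_sum, Commute.mul_pow]
    have := td05_commt t (q ^ c) 1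
    rw [pow_one] at this
    exact this.symm
  rw [h2, h3, mul_assoc]

lemma td05_u1 {t u w : R} (hw : u - 1 = (1 - t) * w) (c : ℕ) :
    ∃ B, u ^ c = 1 + (1 - t) * B := by
  refine ⟨w * ∑ i ∈ range c, u ^ i, ?_⟩
  rw [← mul_assoc, ← hw, mul_geom_sum]
  abel

lemma td05_u2 {ℓ q : ℕ} (hℓ : ℓ.Prime) {t u w : R} (hc : u * t = t ^ q * u)
    (hw : u - 1 = (1 - t) * w) {K : ℤ[X]} (hK : (ℓ : R) = (1 - t) * td05_v t K)
    (h : td05_H ℓ q) : ∃ D, u ^ ℓ = 1 + (1 - t) * ((1 - t) * D) := by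
  have h1 : ∀ c : ℕ, ∃ C : R, (∑ i ∈ range (q ^ c), t ^ i) * u ^ c = 1 + (1 - t) * C := by
    intro c
    obtain ⟨s, z, hz⟩ := td05_eps0 hℓ t hK (td05_H_pow h c) 1
    obtain ⟨B, hB⟩ := td05_u1 hw c
    rw [pow_one] at hz
    rw [hz, hB]
    generalize (s : R) + (1 - t) * td05_v t z = A
    refine ⟨A + B + A * ((1 - t) * B), ?_⟩
    noncomm_ring
  choose C hC using h1
  refine ⟨(td05_v t K + ∑ c ∈ range ℓ, C c) * w, ?_⟩
  have h2 : (∑ c ∈ range ℓ, u ^ c) * (1 - t) = (1 - t) * ((1 - t) *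
      (td05_v t K + ∑ c ∈ range ℓ, C c)) := by
    rw [sum_mul]
    have h3 : ∀ c ∈ range ℓ, u ^ c * (1 - t) = (1 - t) * (1 + (1 - t) * C c) := by
      intro c _
      have h4 := td05_upi hc c 1
      rw [pow_one, pow_one] at h4
      rw [h4, hC]
    rw [sum_congr rfl h3, ← mul_sum, sum_add_distrib, sum_const, card_range, nsmul_one, hK,
      ← mul_sum]
    congr 1
    rw [mul_add]
  have h5 : u ^ ℓ - 1 = (∑ c ∈ range ℓ, u ^ c) * (u - 1) := (geom_sum_mul u ℓ).symm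
  rw [hw, ← mul_assoc, h2] at h5
  rw [← mul_assoc (1 - t) _ w, ← mul_assoc (1 - t) _ w, ← h5]
  abel

lemma td05_u3 {ℓ q : ℕ} (hℓ : ℓ.Prime) {t u w : R} (hc : u * t = t ^ q * u)
    (hw : u - 1 = (1 - t) * w) {K : ℤ[X]} (hK : (ℓ : R) = (1 - t) * td05_v t K)
    (h : td05_H ℓ q) (j : ℕ) : ∃ D, u ^ ℓ ^ (j + 1) = 1 + (1 - t) * ((1 - t) * D) := by
  obtain ⟨D, hD⟩ := td05_u2 hℓ hc hw hK h
  refine ⟨D * ∑ i ∈ range (ℓ ^ j), (u ^ ℓ) ^ i, ?_⟩
  have h1 : u ^ ℓ - 1 = (1 - t) * ((1 - t) * D) := by rw [hD, add_sub_cancel_left]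
  rw [← mul_assoc (1 - t) D, ← mul_assoc (1 - t) _ (∑ i ∈ range (ℓ ^ j), (u ^ ℓ) ^ i), ← h1,
    mul_geom_sum, ← pow_mul, ← pow_succ']
  abel

/-- the identity for `j = 0` -/
lemma td05_id0 {ℓ q : ℕ} (hℓ : ℓ.Prime) {t u w : R}
    (hw : u - 1 = (1 - t) * w) {K : ℤ[X]} (hK : (ℓ : R) = (1 - t) * td05_v t K)
    (h : td05_H ℓ q) (m n : ℕ) : ∃ (s : ℕ) (Y : R),
      (∑ i ∈ range q, t ^ i) ^ m * u - t ^ n = (u - t ^ (n + s)) + (1 - t) * ((1 - t) * Y) := by
  obtain ⟨s, z, hz⟩ := td05_eps0 hℓ t hK h m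
  obtain ⟨y, hy⟩ := td05_ts t n s
  refine ⟨s, (s : R) * w - y + td05_v t z * u, ?_⟩
  have h1 : (s : R) * (u - 1) = (1 - t) * ((s : R) * w) := by
    rw [hw, ← mul_assoc, (Nat.cast_commute s (1 - t)).eq, mul_assoc]
  have h2 : t ^ n = t ^ (n + s) + (1 - t) * ((s : R) + (1 - t) * y) := by
    have := hy
    rw [sub_eq_iff_eq_add] at this
    rw [this]
    abel
  have h3 : (∑ i ∈ range q, t ^ i) ^ m * u - t ^ n = (u - t ^ (n + s)) +
      (1 - t) * ((s : R) * (u - 1) + (1 - t) * (td05_v t z * u) - (1 - t) * y) := by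
    rw [hz, h2]
    noncomm_ring
  rw [h3, h1]
  noncomm_ring

/-- the identity for `j > 0`, `n` prime to `ℓ` -/
lemma td05_id1 {ℓ q j : ℕ} (hℓ : ℓ.Prime) {t u w : R} (hc : u * t = t ^ q * u)
    (hw : u - 1 = (1 - t) * w) {K : ℤ[X]} (hK : (ℓ : R) = (1 - t) * td05_v t K)
    (h : td05_H ℓ q) (m n : ℕ) : ∃ Y : R,
      (∑ i ∈ range (q ^ ℓ ^ (j + 1)), t ^ i) ^ m * u ^ ℓ ^ (j + 1) - t ^ n =
        (1 - t) * ((n : R) + (1 - t) * Y) := by
  have h1 : ∃ y, q ^ ℓ ^ (j + 1) = 1 + ℓ ^ 2 * y := by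
    have := td05_sq hℓ (td05_H_pow h (ℓ ^ j))
    rw [← pow_mul, ← pow_succ] at this
    exact this
  obtain ⟨z, hz⟩ := td05_eps1 t hK h1 (td05_choose hℓ (td05_H_pow h (ℓ ^ (j + 1)))) m
  obtain ⟨D, hD⟩ := td05_u3 hℓ hc hw hK h j
  obtain ⟨y, hy⟩ := td05_ts t 0 n
  rw [zero_add, pow_zero, sub_eq_iff_eq_add] at hy
  refine ⟨y + td05_v t z + D + td05_v t z * ((1 - t) * ((1 - t) * D)), ?_⟩
  rw [hz, hD, hy]
  noncomm_ring

/-- the factorisation for `n` divisible by `ℓ` -/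
lemma td05_fact {ℓ n₀ q j : ℕ} (hℓ : ℓ.Prime) {t u : R} (hc : u * t = t ^ q * u)
    (hΦ : ∑ j ∈ range ℓ, t ^ (j * ℓ ^ n₀) = 0) (h : td05_H ℓ q) (n' : ℕ) :
    ∃ e f : ℕ, u ^ ℓ ^ (j + 1) - t ^ (ℓ * n') = t ^ (ℓ * n') *
      ((List.range ℓ).map fun c => t ^ e * (u ^ ℓ ^ j - t ^ (ℓ ^ n₀ * c + f))).prod := by
  set N := ℓ ^ n₀ with hN
  have hT : t ^ (ℓ * N) = 1 := by
    have h1 := geom_sum_mul (t ^ N) ℓ
    have h2 : ∑ i ∈ range ℓ, (t ^ N) ^ i = 0 := by
      rw [← hΦ]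
      refine sum_congr rfl fun i _ => ?_
      rw [← pow_mul, mul_comm]
    rw [h2, zero_mul] at h1
    rw [mul_comm, pow_mul]
    exact (sub_eq_zero.1 h1.symm)
  have hT' : ∀ k, t ^ (ℓ * N * k) = 1 := fun k => by rw [pow_mul, hT, one_pow]
  have hj := td05_H_pow h (ℓ ^ j)
  obtain ⟨y, hy⟩ := td05_S hℓ hj
  obtain ⟨e, k, hek⟩ := td05_solve hℓ n₀ n' y
  rw [← hN] at hek
  set U := u ^ ℓ ^ j with hU
  set Q' := q ^ ℓ ^ j with hQ'
  have hsemi : SemiconjBy U t (t ^ Q') := td05_semi hc (ℓ ^ j)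
  have hpw : ∀ a : ℕ, U * t ^ a = t ^ (Q' * a) * U := by
    intro a
    have := (hsemi.pow_right a).eq
    rw [← pow_mul] at this
    exact this
  -- the powers of `t ^ e * U`
  have hpow : ∀ i : ℕ, (t ^ e * U) ^ i = t ^ (e * ∑ l ∈ range i, Q' ^ l) * U ^ i := by
    intro i
    induction i with
    | zero => simp
    | succ i ih =>
      rw [pow_succ', ih, geom_sum_succ, mul_assoc, ← mul_assoc U, hpw, pow_succ' U, mul_assoc,
        ← mul_assoc (t ^ e), ← pow_add]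
      congr 2
      ring
  obtain ⟨x, hx, -⟩ := hj
  have hcomm : Commute (t ^ N) (t ^ e * U) := by
    have h1 : U * t ^ N = t ^ N * U := by
      rw [hpw, hx]
      have : (1 + ℓ * x) * N = N + ℓ * N * x := by ring
      rw [this, pow_add, hT', mul_one]
    unfold Commute SemiconjBy
    rw [← mul_assoc, ← pow_add, mul_assoc, h1, ← mul_assoc, ← pow_add, add_comm]
  have hfac := prod_sub_pow_comm hℓ (t ^ N) (t ^ e * U) hcomm (by
    rw [← hΦ]
    refine sum_congr rfl fun i _ => ?_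
    rw [← pow_mul, mul_comm])
  refine ⟨e, (ℓ * N - 1) * e, ?_⟩
  have hfun : (fun c => t ^ e * (U - t ^ (N * c + (ℓ * N - 1) * e))) =
      fun c => t ^ e * U - (t ^ N) ^ c := by
    funext c
    rw [mul_sub, ← pow_mul, ← pow_add]
    have h1 : 0 < ℓ * N := Nat.mul_pos hℓ.pos (pow_pos hℓ.pos _)
    obtain ⟨T, hT1⟩ := Nat.exists_eq_succ_of_ne_zero h1.ne'
    have h2 : e + (N * c + (ℓ * N - 1) * e) = N * c + ℓ * N * e := by
      rw [hT1, Nat.succ_sub_one, Nat.succ_eq_add_one]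
      ring
    rw [h2, pow_add, hT', mul_one]
  rw [hfun, hfac, hpow, hy, mul_sub, mul_one, ← mul_assoc, ← pow_add, hek, hT', one_mul, hU,
    ← pow_mul, ← pow_succ]

end ring

section order

variable {Q : Type*} [AddCommGroup Q]

/-- `b = (1 - t)^m a` with `a` not in `P` -/
def td05_Lev (t : AddMonoid.End Q) (P : AddSubgroup Q) (b : Q) : Prop :=
  ∃ (m : ℕ) (a : Q), a ∉ P ∧ b = ((1 - t) ^ m) a

lemma td05_add {t : AddMonoid.End Q} {P : AddSubgroup Q} (hP : ∀ a, a - t a ∈ P) {a : Q}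
    (ha : a ∉ P) (w : Q) : a + (1 - t) w ∉ P := by
  intro h
  apply ha
  have h1 : (1 - t) w ∈ P := hP w
  have h2 := P.sub_mem h h1
  rwa [add_sub_cancel_right] at h2

lemma td05_lev_pi {t : AddMonoid.End Q} {P : AddSubgroup Q} {b : Q} (h : td05_Lev t P b)
    (k : ℕ) : td05_Lev t P (((1 - t) ^ k) b) := by
  obtain ⟨m, a, ha, rfl⟩ := h
  refine ⟨k + m, a, ha, ?_⟩
  rw [pow_add]
  rfl

lemma td05_lev_t {t : AddMonoid.End Q} {P : AddSubgroup Q} (hP : ∀ a, a - t a ∈ P) {b : Q}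
    (h : td05_Lev t P b) (i : ℕ) : td05_Lev t P ((t ^ i) b) := by
  obtain ⟨m, a, ha, rfl⟩ := h
  refine ⟨m, (t ^ i) a, ?_, ?_⟩
  · obtain ⟨y, hy⟩ := td05_ts t 0 i
    rw [zero_add, pow_zero, sub_eq_iff_eq_add] at hy
    have h1 : (t ^ i) a = a + (1 - t) (-(((i : AddMonoid.End Q) + (1 - t) * y) a)) := by
      rw [hy, map_neg]
      change -((1 - t) (((i : AddMonoid.End Q) + (1 - t) * y) a)) + a = _
      abel
    rw [h1]
    exact td05_add hP ha _
  · have h1 : Commute (t ^ i) ((1 - t) ^ m) :=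
      ((Commute.one_right _).sub_right ((Commute.refl t).pow_left i)).pow_right m
    exact congrArg (fun f : AddMonoid.End Q => f a) h1.eq

lemma td05_claim {ℓ : ℕ} (hℓ : ℓ.Prime) (n₀ q : ℕ) (h : td05_H ℓ q)
    (t u : AddMonoid.End Q) (hc : u * t = t ^ q * u)
    (hΦ : ∑ j ∈ range ℓ, t ^ (j * ℓ ^ n₀) = 0) (w : AddMonoid.End Q) (hw : u - 1 = (1 - t) * w)
    (P : AddSubgroup Q) (hP : ∀ a, a - t a ∈ P)
    (hu : ∀ a, a ∉ P → ∀ n : ℕ, ∃ a', a' ∉ P ∧ u a - (t ^ n) a = a' - t a') (j : ℕ) :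
    ∀ (n : ℕ) (b : Q), td05_Lev t P b → td05_Lev t P ((u ^ ℓ ^ j - t ^ n) b) := by
  obtain ⟨K, hK⟩ := td05_kappa t hΦ
  -- the reduction to `a`
  have hred : ∀ (j n m : ℕ) (a : Q), td05_Lev t P
      (((∑ i ∈ range (q ^ ℓ ^ j), t ^ i) ^ m * u ^ ℓ ^ j - t ^ n) a) →
        td05_Lev t P ((u ^ ℓ ^ j - t ^ n) (((1 - t) ^ m) a)) := by
    intro j n m a ha
    have h1 : (u ^ ℓ ^ j - t ^ n) * (1 - t) ^ m =
        (1 - t) ^ m * ((∑ i ∈ range (q ^ ℓ ^ j), t ^ i) ^ m * u ^ ℓ ^ j - t ^ n) := by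
      have h2 : Commute (t ^ n) ((1 - t) ^ m) :=
        ((Commute.one_right _).sub_right ((Commute.refl t).pow_left n)).pow_right m
      rw [sub_mul, td05_upi hc, mul_sub, h2.eq]
    have h2 : (u ^ ℓ ^ j - t ^ n) (((1 - t) ^ m) a) = ((1 - t) ^ m)
        (((∑ i ∈ range (q ^ ℓ ^ j), t ^ i) ^ m * u ^ ℓ ^ j - t ^ n) a) :=
      congrArg (fun f : AddMonoid.End Q => f a) h1
    rw [h2]
    exact td05_lev_pi ha m
  induction j with
  | zero =>
    rintro n b ⟨m, a, ha, rfl⟩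
    apply hred
    rw [pow_zero, pow_one, pow_one]
    obtain ⟨s, Y, hY⟩ := td05_id0 hℓ hw hK h m n
    obtain ⟨a', ha', ha''⟩ := hu a ha (n + s)
    rw [hY]
    refine ⟨1, a' + (1 - t) (Y a), td05_add hP ha' _, ?_⟩
    rw [pow_one, map_add]
    have h1 : (u - t ^ (n + s)) a = (1 - t) a' := ha''
    rw [← h1]
    rfl
  | succ j ih =>
    intro n b hb
    by_cases hn : ℓ ∣ n
    · obtain ⟨n', rfl⟩ := hn
      obtain ⟨e, f, hef⟩ := td05_fact (j := j) hℓ hc hΦ h n'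
      rw [hef]
      have h1 : ∀ (l : List ℕ) (b : Q), td05_Lev t P b → td05_Lev t P
          ((l.map fun c => t ^ e * (u ^ ℓ ^ j - t ^ (ℓ ^ n₀ * c + f))).prod b) := by
        intro l
        induction l with
        | nil =>
          intro b hb
          rw [List.map_nil, List.prod_nil]
          exact hb
        | cons c l ihl =>
          intro b hb
          rw [List.map_cons, List.prod_cons]
          have h2 := td05_lev_t hP (ih (ℓ ^ n₀ * c + f) _ (ihl b hb)) e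
          exact h2
      exact td05_lev_t hP (h1 (List.range ℓ) b hb) (ℓ * n')
    · obtain ⟨m, a, ha, rfl⟩ := hb
      apply hred
      obtain ⟨Y, hY⟩ := td05_id1 (j := j) hℓ hc hw hK h m n
      rw [hY]
      have hna : n • a ∉ P := by
        intro hna
        apply ha
        have h1 : ℓ • a ∈ P := by
          have h2 : ℓ • a = (1 - t) (td05_v t K a) := by
            have h3 := congrArg (fun f : AddMonoid.End Q => f a) hK
            have h4 : ((ℓ : ℕ) : AddMonoid.End Q) a = ℓ • a := rfl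
            exact h4.symm.trans h3
          rw [h2]
          exact hP _
        have h3 : IsCoprime (ℓ : ℤ) (n : ℤ) :=
          Nat.isCoprime_iff_coprime.2 ((Nat.Prime.coprime_iff_not_dvd hℓ).2 hn)
        obtain ⟨x, y, hxy⟩ := h3
        have h4 : a = x • (ℓ • a) + y • (n • a) := by
          rw [← natCast_zsmul, ← natCast_zsmul, smul_smul, smul_smul, ← add_smul, hxy, one_smul]
        rw [h4]
        exact P.add_mem (P.zsmul_mem h1 x) (P.zsmul_mem hna y)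
      refine ⟨1, n • a + (1 - t) (Y a), td05_add hP hna _, ?_⟩
      rw [pow_one]
      rfl

theorem order_lemma {Q : Type*} [AddCommGroup Q] {ℓ : ℕ} (hℓ : ℓ.Prime) (n₀ q : ℕ)
    (hq0 : 0 < q) (hq1 : ℓ ∣ q - 1) (hq2 : ℓ ∣ q.choose 2)
    (t u : AddMonoid.End Q) (hc : u * t = t ^ q * u)
    (hΦ : ∑ j ∈ range ℓ, t ^ (j * ℓ ^ n₀) = 0) (hinj : ∀ a, a - t a = 0 → a = 0)
    (P : AddSubgroup Q) (hP : ∀ a, a - t a ∈ P) (hu1 : ∀ a, ∃ a', u a - a = a' - t a')
    (hu : ∀ a, a ∉ P → ∀ n : ℕ, ∃ a', a' ∉ P ∧ u a - (t ^ n) a = a' - t a')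
    (hfin : ∀ a, ∃ M : ℕ, 0 < M ∧ (u ^ M) a = a) : ∀ a, a ∈ P := by
  have h := td05_H_of hq0 hq1 hq2
  obtain ⟨K, hK⟩ := td05_kappa t hΦ
  -- the operator `w`
  obtain ⟨w, hw⟩ : ∃ w : AddMonoid.End Q, u - 1 = (1 - t) * w := by
    choose f hf using hu1
    have hinj' : ∀ a b, (1 - t) a = (1 - t) b → a = b := by
      intro a b hab
      have h1 : (1 - t) (a - b) = 0 := by rw [map_sub, hab, sub_self]
      exact sub_eq_zero.1 (hinj _ h1)
    have hf' : ∀ a, u a - a = (1 - t) (f a) := hf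
    refine ⟨AddMonoidHom.mk' f fun a b => ?_, ?_⟩
    · apply hinj'
      rw [map_add, ← hf', ← hf', ← hf', map_add]
      abel
    · ext a
      exact hf a
  intro a
  by_contra ha
  obtain ⟨M, hM0, hM⟩ := hfin a
  obtain ⟨j, M', hM', rfl⟩ := Nat.exists_eq_pow_mul_and_not_dvd hM0.ne' ℓ hℓ.ne_one
  have hM'a : M' • a ∉ P := by
    intro hna
    apply ha
    have h1 : ℓ • a ∈ P := by
      have h2 : ℓ • a = (1 - t) (td05_v t K a) := by
        have h3 := congrArg (fun f : AddMonoid.End Q => f a) hK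
        have h4 : ((ℓ : ℕ) : AddMonoid.End Q) a = ℓ • a := rfl
        exact h4.symm.trans h3
      rw [h2]
      exact hP _
    have h3 : IsCoprime (ℓ : ℤ) (M' : ℤ) :=
      Nat.isCoprime_iff_coprime.2 ((Nat.Prime.coprime_iff_not_dvd hℓ).2 hM')
    obtain ⟨x, y, hxy⟩ := h3
    have h4 : a = x • (ℓ • a) + y • (M' • a) := by
      rw [← natCast_zsmul, ← natCast_zsmul, smul_smul, smul_smul, ← add_smul, hxy, one_smul]
    rw [h4]
    exact P.add_mem (P.zsmul_mem h1 x) (P.zsmul_mem hna y)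
  -- `a₁ = ∑ X^c a`
  have h1 : ∀ c : ℕ, ∃ B : AddMonoid.End Q, (u ^ ℓ ^ j) ^ c = 1 + (1 - t) * B := by
    intro c
    rw [← pow_mul]
    exact td05_u1 hw _
  choose B hB using h1
  have h2 : (∑ c ∈ range M', (u ^ ℓ ^ j) ^ c) a = M' • a + (1 - t) ((∑ c ∈ range M', B c) a) := by
    rw [sum_congr rfl fun c _ => hB c, sum_add_distrib, sum_const, card_range, ← mul_sum]
    rfl
  have h3 : (u ^ ℓ ^ j - t ^ 0) ((∑ c ∈ range M', (u ^ ℓ ^ j) ^ c) a) = 0 := by
    have h4 : (u ^ ℓ ^ j - t ^ 0) * (∑ c ∈ range M', (u ^ ℓ ^ j) ^ c) = u ^ (ℓ ^ j * M') - 1 := by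
      rw [pow_zero, mul_geom_sum, ← pow_mul]
    have h5 := congrArg (fun f : AddMonoid.End Q => f a) h4
    refine h5.trans ?_
    change (u ^ (ℓ ^ j * M')) a - a = 0
    rw [hM, sub_self]
  have hL : td05_Lev t P ((∑ c ∈ range M', (u ^ ℓ ^ j) ^ c) a) := by
    rw [h2]
    exact ⟨0, _, td05_add hP hM'a _, rfl⟩
  have h4 := td05_claim hℓ n₀ q h t u hc hΦ w hw P hP hu j 0 _ hL
  rw [h3] at h4
  obtain ⟨m, a', ha', h0⟩ := h4
  have h5 : ∀ (m : ℕ) (a' : Q), ((1 - t) ^ m) a' = 0 → a' = 0 := by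
    intro m
    induction m with
    | zero => intro a' h; exact h
    | succ m ih =>
      intro a' h
      rw [pow_succ] at h
      exact hinj _ (ih _ h)
  rw [h5 m a' h0.symm] at ha'
  exact ha' P.zero_mem

end order

end Pool.Agent.Lib.MP_89bcae_ag.Sup

end

section

/-!
The killing lemma.
-/

open Finset

namespace Pool.Agent.Lib.MP_89bcae_ag.Sup

theorem td03_sub {Q : Type*} [AddCommGroup Q] (f : AddMonoid.End Q) (a : Q) : (1 - f) a = a - f a := rfl

theorem td03_mul {Q : Type*} [AddCommGroup Q] (f g : AddMonoid.End Q) (a : Q) : (f * g) a = f (g a) := rfl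

theorem td03_pow_fix {Q : Type*} [AddCommGroup Q] (f : AddMonoid.End Q) (a : Q) (h : f a = a) (n : ℕ) :
    (f ^ n) a = a := by
  induction n with
  | zero => rfl
  | succ n ih => rw [pow_succ, td03_mul, h, ih]

theorem td03_geom {Q : Type*} [AddCommGroup Q] (x : AddMonoid.End Q) (n : ℕ) (y : Q) :
    y - (x ^ n) y = (∑ i ∈ range n, x ^ i) y - x ((∑ i ∈ range n, x ^ i) y) := by
  have h := mul_neg_geom_sum x n
  have h2 : ((1 - x) * ∑ i ∈ range n, x ^ i) y = (1 - x ^ n) y := by rw [h]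
  rw [td03_mul, td03_sub, td03_sub] at h2
  exact h2.symm

theorem td03_perm {R : Type*} [Ring R] (ℓ b b' : ℕ) (hℓ : 0 < ℓ) (hbb : b * b' ≡ 1 [MOD ℓ]) (z : R)
    (hz1 : z ^ ℓ = 1) : ∑ j ∈ range ℓ, z ^ (b * j) = ∑ i ∈ range ℓ, z ^ i := by
  have hmod : ∀ n : ℕ, z ^ (n % ℓ) = z ^ n := by
    intro n
    conv_rhs => rw [← Nat.mod_add_div n ℓ]
    rw [pow_add, pow_mul, hz1, one_pow, mul_one]
  refine Finset.sum_nbij' (fun j => (b * j) % ℓ) (fun i => (b' * i) % ℓ) ?_ ?_ ?_ ?_ ?_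
  · intro j _
    exact mem_range.mpr (Nat.mod_lt _ hℓ)
  · intro j _
    exact mem_range.mpr (Nat.mod_lt _ hℓ)
  · intro j hj
    have hj' := mem_range.mp hj
    have h1 : b' * (b * j % ℓ) ≡ j [MOD ℓ] := by
      calc b' * (b * j % ℓ) ≡ b' * (b * j) [MOD ℓ] := (Nat.mod_modEq _ _).mul_left _
        _ = (b * b') * j := by ring
        _ ≡ 1 * j [MOD ℓ] := hbb.mul_right _
        _ = j := one_mul j
    change b' * (b * j % ℓ) % ℓ = j
    rw [h1, Nat.mod_eq_of_lt hj']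
  · intro j hj
    have hj' := mem_range.mp hj
    have h1 : b * (b' * j % ℓ) ≡ j [MOD ℓ] := by
      calc b * (b' * j % ℓ) ≡ b * (b' * j) [MOD ℓ] := (Nat.mod_modEq _ _).mul_left _
        _ = (b * b') * j := by ring
        _ ≡ 1 * j [MOD ℓ] := hbb.mul_right _
        _ = j := one_mul j
    change b * (b' * j % ℓ) % ℓ = j
    rw [h1, Nat.mod_eq_of_lt hj']
  · intro j _
    exact (hmod (b * j)).symm

theorem kill_lemma {Q : Type*} [AddCommGroup Q] {ℓ : ℕ} (hℓ : ℓ.Prime) (n₀ b : ℕ)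
    (hb : ¬ ℓ ∣ b) (t z : AddMonoid.End Q) (hc : t * z = z * t)
    (hz : ∑ i ∈ range ℓ, z ^ i = 0) (heig : t ^ ℓ ^ n₀ = z ^ b)
    (hinj : ∀ a, a - z a = 0 → a = 0)
    (hsep : ∀ a, (∀ n : ℕ, ∃ y, a = ((1 - z) ^ n) y) → a = 0)
    {ι : Type*} (P : ι → AddSubgroup Q) (hP : ∀ i a, a - t a ∈ P i)
    (q : ι → ℕ) (hq0 : ∀ i, 0 < q i) (hq1 : ∀ i, ℓ ∣ q i - 1) (hq2 : ∀ i, ℓ ∣ (q i).choose 2)
    (u : ι → AddMonoid.End Q) (hut : ∀ i, u i * t = t ^ q i * u i)
    (hu1 : ∀ i a, ∃ a', u i a - a = a' - t a')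
    (hu : ∀ i a, a ∉ P i → ∀ n : ℕ, ∃ a', a' ∉ P i ∧ u i a - (t ^ n) a = a' - t a')
    (hfin : ∀ i a, ∃ M : ℕ, 0 < M ∧ (u i ^ M) a = a)
    (hdiv : ∀ a, (∀ i, a ∈ P i) → ∃ y, ((1 - t) ^ (ℓ ^ n₀ - 1)) a = y - z y) :
    ∀ a : Q, a = 0 := by
  have hz1 : z ^ ℓ = 1 := by
    have h := mul_neg_geom_sum z ℓ
    rw [hz, mul_zero] at h
    exact (sub_eq_zero.mp h.symm).symm
  obtain ⟨b', hbb⟩ : ∃ b', b * b' ≡ 1 [MOD ℓ] := by
    have hco : Nat.Coprime b ℓ := ((Nat.Prime.coprime_iff_not_dvd hℓ).mpr hb).symm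
    obtain ⟨m, hm⟩ := Nat.exists_mul_mod_eq_one_of_coprime hco hℓ.one_lt
    refine ⟨m, ?_⟩
    change b * m % ℓ = 1 % ℓ
    rw [hm.2, Nat.mod_eq_of_lt hℓ.one_lt]
  have hzb : z ^ (b * b') = z := by
    have h1 : z ^ (b * b') = z ^ ((b * b') % ℓ) := by
      conv_lhs => rw [← Nat.mod_add_div (b * b') ℓ]
      rw [pow_add, pow_mul, hz1, one_pow, mul_one]
    rw [h1, hbb, Nat.mod_eq_of_lt hℓ.one_lt, pow_one]
  have htz : (t ^ ℓ ^ n₀) ^ b' = z := by
    rw [heig, ← pow_mul, hzb]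
  have hΦ : ∑ j ∈ range ℓ, t ^ (j * ℓ ^ n₀) = 0 := by
    rw [← hz, ← td03_perm ℓ b b' hℓ.pos hbb z hz1]
    refine Finset.sum_congr rfl (fun j _ => ?_)
    rw [mul_comm j, pow_mul, heig, ← pow_mul]
  have hinj' : ∀ a, a - t a = 0 → a = 0 := by
    intro a ha
    have h1 : t a = a := (sub_eq_zero.mp ha).symm
    have h2 : (t ^ ℓ ^ n₀) a = a := td03_pow_fix t a h1 _
    have h3 : ((t ^ ℓ ^ n₀) ^ b') a = a := td03_pow_fix _ a h2 _
    rw [htz] at h3
    exact hinj a (by rw [h3, sub_self])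
  have hall : ∀ i a, a ∈ P i := fun i =>
    order_lemma hℓ n₀ (q i) (hq0 i) (hq1 i) (hq2 i) t (u i) (hut i) hΦ hinj' (P i) (hP i) (hu1 i)
      (hu i) (hfin i)
  have hsurj : ∀ a, ∃ a', a = (1 - t) a' := by
    intro a
    obtain ⟨y, hy⟩ := hdiv a (fun i => hall i a)
    have h1 : y - z y = (∑ i ∈ range b', (t ^ ℓ ^ n₀) ^ i) y -
        (t ^ ℓ ^ n₀) ((∑ i ∈ range b', (t ^ ℓ ^ n₀) ^ i) y) := by
      rw [← td03_geom, htz]
    rw [h1] at hy
    obtain ⟨a', ha'⟩ := div_lemma hℓ n₀ t hΦ hinj' hy.symm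
    exact ⟨a', ha'⟩
  have hsurjn : ∀ (n : ℕ) (a : Q), ∃ a', a = ((1 - t) ^ n) a' := by
    intro n
    induction n with
    | zero => exact fun a => ⟨a, rfl⟩
    | succ n ih =>
      intro a
      obtain ⟨a1, h1⟩ := ih a
      obtain ⟨a2, h2⟩ := hsurj a1
      exact ⟨a2, by rw [pow_succ, td03_mul, ← h2, h1]⟩
  have hzs : ∀ a, ∃ w, a = (1 - z) w := by
    intro a
    obtain ⟨x, hx⟩ := hsurjn (ℓ ^ n₀) a
    obtain ⟨x', hx'⟩ := pw_lemma hℓ n₀ t hΦ x
    refine ⟨(∑ i ∈ range b, z ^ i) x', ?_⟩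
    rw [hx, hx', td03_sub, ← td03_geom, heig]
  have hzsn : ∀ (n : ℕ) (a : Q), ∃ a', a = ((1 - z) ^ n) a' := by
    intro n
    induction n with
    | zero => exact fun a => ⟨a, rfl⟩
    | succ n ih =>
      intro a
      obtain ⟨a1, h1⟩ := ih a
      obtain ⟨a2, h2⟩ := hzs a1
      exact ⟨a2, by rw [pow_succ, td03_mul, ← h2, h1]⟩
  exact fun a => hsep a (fun n => hzsn n a)

end Pool.Agent.Lib.MP_89bcae_ag.Sup

end

section

open Finset

namespace Pool.Agent.Lib.MP_89bcae_ag.Sup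

theorem td04_mul_app {Q : Type*} [AddCommGroup Q] (F G : AddMonoid.End Q) (x : Q) :
    (F * G) x = F (G x) := rfl

theorem td04_one_app {Q : Type*} [AddCommGroup Q] (x : Q) : (1 : AddMonoid.End Q) x = x := rfl

theorem td04_add_app {Q : Type*} [AddCommGroup Q] (F G : AddMonoid.End Q) (x : Q) :
    (F + G) x = F x + G x := rfl

theorem td04_sub_app {Q : Type*} [AddCommGroup Q] (F G : AddMonoid.End Q) (x : Q) :
    (F - G) x = F x - G x := rfl

theorem td04_comm {R : Type*} [Ring R] (t u : R) (q : ℕ) (hut : u * t = t ^ q * u) (m : ℕ) :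
    u * (1 - t) ^ m = (1 - t) ^ m * ((∑ i ∈ range q, t ^ i) ^ m * u) := by
  generalize hE : (∑ i ∈ range q, t ^ i) = E
  have hEt : Commute t E := by
    rw [← hE]
    exact Commute.sum_right _ _ _ fun i _ => Commute.pow_right (Commute.refl _) i
  have hE1 : Commute (1 - t) E := Commute.sub_left (Commute.one_left _) hEt
  have hu1 : u * (1 - t) = (1 - t) * E * u := by
    rw [mul_sub, mul_one, hut, ← hE, mul_neg_geom_sum, sub_mul, one_mul]
  induction m with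
  | zero => rw [pow_zero, pow_zero, one_mul, one_mul, mul_one]
  | succ m ih =>
    have h1 : E ^ m * ((1 - t) * E * u) = (1 - t) * (E ^ (m + 1) * u) := by
      rw [← mul_assoc, ← mul_assoc, ← (hE1.pow_right m).eq, mul_assoc (1 - t), ← pow_succ,
        mul_assoc]
    rw [pow_succ, ← mul_assoc, ih, mul_assoc, mul_assoc, hu1, h1, mul_assoc]

section Rel

variable {A : Type*} [AddCommGroup A]

/-- the quotient of `W` by `T` -/
abbrev Td04Q (W T : AddSubgroup A) : Type _ := W ⧸ T.addSubgroupOf W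

variable (W T : AddSubgroup A)

/-- the class of an element of `W` -/
def td04_mk (a : A) (ha : a ∈ W) : Td04Q W T := QuotientAddGroup.mk ⟨a, ha⟩

variable {W T}

theorem td04_zero {a : A} {ha : a ∈ W} : td04_mk W T a ha = 0 ↔ a ∈ T := by
  unfold td04_mk
  rw [QuotientAddGroup.eq_zero_iff, AddSubgroup.mem_addSubgroupOf]

theorem td04_sub {a b : A} {ha : a ∈ W} {hb : b ∈ W} :
    td04_mk W T a ha - td04_mk W T b hb = td04_mk W T (a - b) (W.sub_mem ha hb) := rfl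

theorem td04_add {a b : A} {ha : a ∈ W} {hb : b ∈ W} :
    td04_mk W T a ha + td04_mk W T b hb = td04_mk W T (a + b) (W.add_mem ha hb) := rfl


theorem td04_eq {a b : A} {ha : a ∈ W} {hb : b ∈ W} :
    td04_mk W T a ha = td04_mk W T b hb ↔ a - b ∈ T := by
  rw [← sub_eq_zero, td04_sub, td04_zero]

theorem td04_surj (x : Td04Q W T) : ∃ a, ∃ ha : a ∈ W, x = td04_mk W T a ha := by
  induction x using QuotientAddGroup.induction_on with
  | H a => exact ⟨a.1, a.2, rfl⟩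

/-- the endomorphism `F` of the quotient is induced by the map `f` -/
def Td04I (F : AddMonoid.End (Td04Q W T)) (f : A → A) : Prop :=
  ∀ a (ha : a ∈ W), ∃ h : f a ∈ W, F (td04_mk W T a ha) = td04_mk W T (f a) h

/-- the induced endomorphism -/
def td04_bar (f : A →+ A) (fW : ∀ a ∈ W, f a ∈ W) (fT : ∀ a ∈ T, f a ∈ T) :
    AddMonoid.End (Td04Q W T) :=
  QuotientAddGroup.map _ _ ((f.comp W.subtype).codRestrict W fun a => fW a a.2) (by
    intro a ha
    rw [AddSubgroup.mem_comap, AddSubgroup.mem_addSubgroupOf]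
    rw [AddSubgroup.mem_addSubgroupOf] at ha
    exact fT _ ha)

theorem td04_bar_I (f : A →+ A) (fW : ∀ a ∈ W, f a ∈ W) (fT : ∀ a ∈ T, f a ∈ T) :
    Td04I (td04_bar f fW fT) f := fun a ha => ⟨fW a ha, rfl⟩

theorem Td04I.mul {F G : AddMonoid.End (Td04Q W T)} {f g : A → A} (hF : Td04I F f)
    (hG : Td04I G g) : Td04I (F * G) (fun x => f (g x)) := by
  intro a ha
  obtain ⟨h1, h2⟩ := hG a ha
  obtain ⟨h3, h4⟩ := hF _ h1
  exact ⟨h3, by rw [td04_mul_app, h2, h4]⟩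

theorem Td04I.pow {F : AddMonoid.End (Td04Q W T)} {f : A → A} (hF : Td04I F f) (n : ℕ) :
    Td04I (F ^ n) (f^[n]) := by
  induction n with
  | zero => exact fun a ha => ⟨ha, rfl⟩
  | succ n ih =>
    intro a ha
    obtain ⟨h1, h2⟩ := hF a ha
    obtain ⟨h3, h4⟩ := ih _ h1
    refine ⟨by rw [Function.iterate_succ_apply]; exact h3, ?_⟩
    rw [pow_succ, td04_mul_app, h2, h4]
    rfl

theorem Td04I.one_sub {F : AddMonoid.End (Td04Q W T)} {f : A → A} (hF : Td04I F f) :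
    Td04I (1 - F) (fun x => x - f x) := by
  intro a ha
  obtain ⟨h1, h2⟩ := hF a ha
  refine ⟨W.sub_mem ha h1, ?_⟩
  rw [td04_sub_app, td04_one_app, h2]
  rfl

theorem Td04I.sum {F : ℕ → AddMonoid.End (Td04Q W T)} {f : ℕ → A → A} (n : ℕ)
    (hF : ∀ i, Td04I (F i) (f i)) :
    Td04I (∑ i ∈ range n, F i) (fun x => ∑ i ∈ range n, f i x) := by
  intro a ha
  induction n with
  | zero => exact ⟨by simp [W.zero_mem], by simp; rfl⟩
  | succ n ih =>
    obtain ⟨h1, h2⟩ := ih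
    obtain ⟨h3, h4⟩ := hF n a ha
    have h5 : ∑ i ∈ range (n + 1), f i a = ∑ i ∈ range n, f i a + f n a := sum_range_succ _ _
    have h6 : ∑ i ∈ range (n + 1), f i a ∈ W := by
      rw [h5]
      exact W.add_mem h1 h3
    refine ⟨h6, ?_⟩
    rw [sum_range_succ, td04_add_app, h2, h4, td04_add, td04_eq]
    show ∑ i ∈ range n, f i a + f n a - ∑ i ∈ range (n + 1), f i a ∈ T
    rw [h5, sub_self]
    exact T.zero_mem

/-- equality of endomorphisms -/
theorem Td04I.ext {F G : AddMonoid.End (Td04Q W T)} {f g : A → A} (hF : Td04I F f)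
    (hG : Td04I G g) (h : ∀ a ∈ W, f a - g a ∈ T) : F = G := by
  refine DFunLike.ext _ _ fun x => ?_
  obtain ⟨a, ha, rfl⟩ := td04_surj x
  obtain ⟨h1, h2⟩ := hF a ha
  obtain ⟨h3, h4⟩ := hG a ha
  exact h2.trans ((td04_eq.2 (h a ha)).trans h4.symm)

theorem td04_zero_I : Td04I (0 : AddMonoid.End (Td04Q W T)) (fun _ => 0) :=
  fun _ _ => ⟨W.zero_mem, rfl⟩

/-! ### Formulas for endomorphisms -/

theorem td04_pow_one {Q : Type*} [AddCommGroup Q] {ℓ : ℕ} (z : AddMonoid.End Q)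
    (hz : ∑ i ∈ range ℓ, z ^ i = 0) : z ^ ℓ = 1 := by
  have h := mul_neg_geom_sum z ℓ
  rw [hz, mul_zero] at h
  exact (sub_eq_zero.1 h.symm).symm

theorem td04_pow_mod {Q : Type*} [AddCommGroup Q] {ℓ : ℕ} (z : AddMonoid.End Q)
    (h1 : z ^ ℓ = 1) (m : ℕ) : z ^ m = z ^ (m % ℓ) := by
  conv_lhs => rw [← Nat.mod_add_div m ℓ, pow_add, pow_mul, h1, one_pow, mul_one]

theorem td04_inv {ℓ : ℕ} (hℓ : ℓ.Prime) {b : ℕ} (hb : ¬ ℓ ∣ b) :
    ∃ b' : ℕ, b * b' % ℓ = 1 % ℓ := by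
  have hc : Nat.Coprime b ℓ := ((Nat.Prime.coprime_iff_not_dvd hℓ).2 hb).symm
  obtain ⟨b', -, h⟩ := Nat.exists_mul_mod_eq_one_of_coprime hc hℓ.one_lt
  exact ⟨b', by rw [h, Nat.mod_eq_of_lt hℓ.one_lt]⟩

/-- the sum of the powers of `z ^ b` vanishes -/
theorem td04_phi {Q : Type*} [AddCommGroup Q] {ℓ : ℕ} (hℓ : ℓ.Prime) (n₀ b : ℕ)
    (hb : ¬ ℓ ∣ b) (t z : AddMonoid.End Q)
    (hz : ∑ i ∈ range ℓ, z ^ i = 0) (heig : t ^ ℓ ^ n₀ = z ^ b) :
    ∑ j ∈ range ℓ, t ^ (j * ℓ ^ n₀) = 0 := by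
  have h1 := td04_pow_one z hz
  have h2 : ∀ j, t ^ (j * ℓ ^ n₀) = z ^ (b * j % ℓ) := by
    intro j
    rw [mul_comm, pow_mul, heig, ← pow_mul, td04_pow_mod z h1]
  rw [sum_congr rfl fun j _ => h2 j, ← hz]
  refine sum_nbij (fun j => b * j % ℓ) ?_ ?_ ?_ fun _ _ => rfl
  · intro j _
    exact mem_range.2 (Nat.mod_lt _ hℓ.pos)
  · intro i hi j hj hij
    rw [coe_range, Set.mem_Iio] at hi hj
    have hc : Nat.Coprime ℓ b := (Nat.Prime.coprime_iff_not_dvd hℓ).2 hb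
    have h3 : i ≡ j [MOD ℓ] := Nat.ModEq.cancel_left_of_coprime hc hij
    exact Nat.ModEq.eq_of_lt_of_lt h3 hi hj
  · intro i hi
    obtain ⟨b', hb'⟩ := td04_inv hℓ hb
    rw [coe_range, Set.mem_Iio] at hi
    refine ⟨b' * i % ℓ, ?_, ?_⟩
    · rw [coe_range, Set.mem_Iio]
      exact Nat.mod_lt _ hℓ.pos
    · have h3 : b * (b' * i % ℓ) ≡ i [MOD ℓ] := by
        calc b * (b' * i % ℓ) ≡ b * (b' * i) [MOD ℓ] := (Nat.mod_modEq _ _).mul_left b
          _ = b * b' * i := by ring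
          _ ≡ 1 * i [MOD ℓ] := Nat.ModEq.mul_right i hb'
          _ = i := one_mul i
      have h4 : b * (b' * i % ℓ) % ℓ = i % ℓ := h3
      show b * (b' * i % ℓ) % ℓ = i
      rw [h4, Nat.mod_eq_of_lt hi]

/-- `1 - x ^ m` in terms of `1 - x` -/
theorem td04_geom {Q : Type*} [AddCommGroup Q] (x : AddMonoid.End Q) (m : ℕ) (y : Q) :
    y - (x ^ m) y = (∑ c ∈ range m, x ^ c) y - x ((∑ c ∈ range m, x ^ c) y) := by
  have h := mul_neg_geom_sum x m
  have h1 := congrArg (fun f : AddMonoid.End Q => f y) h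
  simp only [td04_mul_app, td04_sub_app, td04_one_app] at h1
  exact h1.symm

theorem td04_inj {Q : Type*} [AddCommGroup Q] {ℓ : ℕ} (hℓ : ℓ.Prime) (n₀ b : ℕ)
    (hb : ¬ ℓ ∣ b) (t z : AddMonoid.End Q)
    (hz : ∑ i ∈ range ℓ, z ^ i = 0) (heig : t ^ ℓ ^ n₀ = z ^ b)
    (hinj : ∀ a, a - z a = 0 → a = 0) : ∀ a, a - t a = 0 → a = 0 := by
  intro a ha
  have h0 : t a = a := (sub_eq_zero.1 ha).symm
  have h1 : ∀ m, (t ^ m) a = a := by
    intro m
    induction m with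
    | zero => rfl
    | succ m ih => rw [pow_succ, td04_mul_app, h0, ih]
  obtain ⟨b', hb'⟩ := td04_inv hℓ hb
  have h2 : z = t ^ (ℓ ^ n₀ * b') := by
    rw [pow_mul, heig, ← pow_mul, td04_pow_mod z (td04_pow_one z hz), hb',
      ← td04_pow_mod z (td04_pow_one z hz), pow_one]
  apply hinj
  have h3 : z a = a := by
    conv_lhs => rw [h2]
    exact h1 _
  rw [h3, sub_self]

end Rel

theorem kill_rel {A : Type*} [AddCommGroup A] {ℓ : ℕ} (hℓ : ℓ.Prime) (n₀ b : ℕ)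
    (hb : ¬ ℓ ∣ b) (W T : AddSubgroup A) (hTW : T ≤ W) (t z : A →+ A)
    (tW : ∀ a ∈ W, t a ∈ W) (tT : ∀ a ∈ T, t a ∈ T) (zW : ∀ a ∈ W, z a ∈ W)
    (zT : ∀ a ∈ T, z a ∈ T) (hzt : ∀ a ∈ W, t (z a) - z (t a) ∈ T)
    (hz : ∀ a ∈ W, ∑ i ∈ range ℓ, z^[i] a ∈ T)
    (heig : ∀ a ∈ W, t^[ℓ ^ n₀] a - z^[b] a ∈ T)
    (hinj : ∀ a ∈ W, a - z a ∈ T → a ∈ T)
    (hsep : ∀ a ∈ W, (∀ n : ℕ, ∃ y ∈ W, a - (fun x => x - z x)^[n] y ∈ T) → a ∈ T)
    {ι : Type*} (P : ι → AddSubgroup A) (TP : ∀ i, T ≤ P i)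
    (hP : ∀ i, ∀ a ∈ W, a - t a ∈ P i)
    (q : ι → ℕ) (hq0 : ∀ i, 0 < q i) (hq1 : ∀ i, ℓ ∣ q i - 1) (hq2 : ∀ i, ℓ ∣ (q i).choose 2)
    (u : ι → A →+ A) (uW : ∀ i, ∀ a ∈ W, u i a ∈ W)
    (uT : ∀ i, ∀ a ∈ T, u i a ∈ T) (hut : ∀ i, ∀ a ∈ W, u i (t a) - t^[q i] (u i a) ∈ T)
    (hu1 : ∀ i, ∀ a ∈ W, ∃ a' ∈ W, u i a - a - (a' - t a') ∈ T)
    (hu : ∀ i, ∀ a ∈ W, a ∉ P i → ∀ n : ℕ, ∃ a' ∈ W, a' ∉ P i ∧
      u i a - t^[n] a - (a' - t a') ∈ T)
    (hfin : ∀ i, ∀ a ∈ W, ∃ M : ℕ, 0 < M ∧ (u i)^[M] a - a ∈ T)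
    (hdiv : ∀ a ∈ W, (∀ i, a ∈ P i) →
      ∃ y ∈ W, (fun x => x - t x)^[ℓ ^ n₀ - 1] a - (y - z y) ∈ T) :
    ∀ a ∈ W, a ∈ T := by
  have It := td04_bar_I t tW tT
  have Iz := td04_bar_I z zW zT
  have Iu := fun i => td04_bar_I (u i) (uW i) (uT i)
  have hc : td04_bar t tW tT * td04_bar z zW zT = td04_bar z zW zT * td04_bar t tW tT :=
    (It.mul Iz).ext (Iz.mul It) hzt
  have hz' : ∑ i ∈ range ℓ, td04_bar z zW zT ^ i = 0 :=
    (Td04I.sum ℓ fun i => Iz.pow i).ext td04_zero_I fun a ha => by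
      rw [sub_zero]
      exact hz a ha
  have heig' : td04_bar t tW tT ^ ℓ ^ n₀ = td04_bar z zW zT ^ b :=
    (It.pow _).ext (Iz.pow _) heig
  let PP : ι → AddSubgroup (Td04Q W T) := fun i =>
    ((P i).addSubgroupOf W).map (QuotientAddGroup.mk' (T.addSubgroupOf W))
  have hPP : ∀ i a (ha : a ∈ W), td04_mk W T a ha ∈ PP i ↔ a ∈ P i := by
    intro i a ha
    constructor
    · rintro ⟨w, hw, hwa⟩
      have h1 : td04_mk W T w.1 w.2 = td04_mk W T a ha := hwa
      rw [td04_eq] at h1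
      have h2 := TP i h1
      have h3 : (w : A) ∈ P i := hw
      have h4 : a = w - (w - a) := by abel
      rw [h4]
      exact (P i).sub_mem h3 h2
    · intro h
      exact ⟨⟨a, ha⟩, h, rfl⟩
  have hmain := kill_lemma (Q := Td04Q W T) hℓ n₀ b hb (td04_bar t tW tT) (td04_bar z zW zT) hc hz' heig'
    (by
      intro x hx
      obtain ⟨a, ha, rfl⟩ := td04_surj x
      have hx' : td04_mk W T (a - z a) (W.sub_mem ha (zW a ha)) = 0 := hx
      rw [td04_zero] at hx' ⊢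
      exact hinj a ha hx')
    (by
      intro x hx
      obtain ⟨a, ha, rfl⟩ := td04_surj x
      rw [td04_zero]
      refine hsep a ha fun n => ?_
      obtain ⟨y, hy⟩ := hx n
      obtain ⟨y, hyW, rfl⟩ := td04_surj y
      obtain ⟨h1, h2⟩ := (Iz.one_sub.pow n) y hyW
      rw [h2, td04_eq] at hy
      exact ⟨y, hyW, hy⟩)
    PP
    (by
      intro i x
      obtain ⟨a, ha, rfl⟩ := td04_surj x
      exact (hPP i _ (W.sub_mem ha (tW a ha))).2 (hP i a ha))
    q hq0 hq1 hq2 (fun i => td04_bar (u i) (uW i) (uT i))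
    (fun i => ((Iu i).mul It).ext ((It.pow (q i)).mul (Iu i)) (hut i))
    (by
      intro i x
      obtain ⟨a, ha, rfl⟩ := td04_surj x
      obtain ⟨a', ha', h⟩ := hu1 i a ha
      refine ⟨td04_mk W T a' ha', ?_⟩
      exact (td04_eq (ha := W.sub_mem (uW i a ha) ha) (hb := W.sub_mem ha' (tW a' ha'))).2 h)
    (by
      intro i x hx n
      obtain ⟨a, ha, rfl⟩ := td04_surj x
      have ha1 : a ∉ P i := fun h => hx ((hPP i a ha).2 h)
      obtain ⟨a', ha', hP', h⟩ := hu i a ha ha1 n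
      refine ⟨td04_mk W T a' ha', fun h' => hP' ((hPP i a' ha').1 h'), ?_⟩
      obtain ⟨h1, h2⟩ := (It.pow n) a ha
      rw [h2]
      exact (td04_eq (ha := W.sub_mem (uW i a ha) h1) (hb := W.sub_mem ha' (tW a' ha'))).2 h)
    (by
      intro i x
      obtain ⟨a, ha, rfl⟩ := td04_surj x
      obtain ⟨M, hM, h⟩ := hfin i a ha
      refine ⟨M, hM, ?_⟩
      obtain ⟨h1, h2⟩ := ((Iu i).pow M) a ha
      rw [h2, td04_eq]
      exact h)
    (by
      intro x hx
      obtain ⟨a, ha, rfl⟩ := td04_surj x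
      obtain ⟨y, hy, h⟩ := hdiv a ha fun i => (hPP i a ha).1 (hx i)
      refine ⟨td04_mk W T y hy, ?_⟩
      obtain ⟨h1, h2⟩ := (It.one_sub.pow (ℓ ^ n₀ - 1)) a ha
      rw [h2]
      exact (td04_eq (ha := h1) (hb := W.sub_mem hy (zW y hy))).2 h)
  intro a ha
  exact td04_zero.1 (hmain (td04_mk W T a ha))

theorem pw_rel {A : Type*} [AddCommGroup A] {ℓ : ℕ} (hℓ : ℓ.Prime) (n₀ b : ℕ)
    (hb : ¬ ℓ ∣ b) (W T : AddSubgroup A) (hTW : T ≤ W) (t z : A →+ A)
    (tW : ∀ a ∈ W, t a ∈ W) (tT : ∀ a ∈ T, t a ∈ T) (zW : ∀ a ∈ W, z a ∈ W)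
    (zT : ∀ a ∈ T, z a ∈ T) (hzt : ∀ a ∈ W, t (z a) - z (t a) ∈ T)
    (hz : ∀ a ∈ W, ∑ i ∈ range ℓ, z^[i] a ∈ T)
    (heig : ∀ a ∈ W, t^[ℓ ^ n₀] a - z^[b] a ∈ T) :
    ∀ a ∈ W, ∃ y ∈ W, (fun x => x - t x)^[ℓ ^ n₀] a - (y - z y) ∈ T := by
  have It := td04_bar_I t tW tT
  have Iz := td04_bar_I z zW zT
  have hz' : ∑ i ∈ range ℓ, td04_bar z zW zT ^ i = 0 :=
    (Td04I.sum ℓ fun i => Iz.pow i).ext td04_zero_I fun a ha => by
      rw [sub_zero]
      exact hz a ha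
  have heig' : td04_bar t tW tT ^ ℓ ^ n₀ = td04_bar z zW zT ^ b :=
    (It.pow _).ext (Iz.pow _) heig
  have hΦ := td04_phi hℓ n₀ b hb _ _ hz' heig'
  intro a ha
  obtain ⟨x, hx⟩ := pw_lemma hℓ n₀ (td04_bar t tW tT) hΦ (td04_mk W T a ha)
  rw [heig', td04_geom] at hx
  obtain ⟨y, hy, hy'⟩ := td04_surj ((∑ c ∈ range b, td04_bar z zW zT ^ c) x)
  obtain ⟨h1, h2⟩ := (It.one_sub.pow (ℓ ^ n₀)) a ha
  rw [hy', h2] at hx
  exact ⟨y, hy, (td04_eq (ha := h1) (hb := W.sub_mem hy (zW y hy))).1 hx⟩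

theorem div_rel {A : Type*} [AddCommGroup A] {ℓ : ℕ} (hℓ : ℓ.Prime) (n₀ b : ℕ)
    (hb : ¬ ℓ ∣ b) (W T : AddSubgroup A) (hTW : T ≤ W) (t z : A →+ A)
    (tW : ∀ a ∈ W, t a ∈ W) (tT : ∀ a ∈ T, t a ∈ T) (zW : ∀ a ∈ W, z a ∈ W)
    (zT : ∀ a ∈ T, z a ∈ T) (hzt : ∀ a ∈ W, t (z a) - z (t a) ∈ T)
    (hz : ∀ a ∈ W, ∑ i ∈ range ℓ, z^[i] a ∈ T)
    (heig : ∀ a ∈ W, t^[ℓ ^ n₀] a - z^[b] a ∈ T)
    (hinj : ∀ a ∈ W, a - z a ∈ T → a ∈ T) :
    ∀ a ∈ W, (∃ y ∈ W, (fun x => x - t x)^[ℓ ^ n₀ - 1] a - (y - z y) ∈ T) →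
      ∃ a' ∈ W, a - (a' - t a') ∈ T := by
  have It := td04_bar_I t tW tT
  have Iz := td04_bar_I z zW zT
  have hz' : ∑ i ∈ range ℓ, td04_bar z zW zT ^ i = 0 :=
    (Td04I.sum ℓ fun i => Iz.pow i).ext td04_zero_I fun a ha => by
      rw [sub_zero]
      exact hz a ha
  have heig' : td04_bar t tW tT ^ ℓ ^ n₀ = td04_bar z zW zT ^ b :=
    (It.pow _).ext (Iz.pow _) heig
  have hΦ := td04_phi hℓ n₀ b hb _ _ hz' heig'
  have hinjz : ∀ x, x - td04_bar z zW zT x = 0 → x = 0 := by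
    intro x hx
    obtain ⟨a, ha, rfl⟩ := td04_surj x
    have hx' : td04_mk W T (a - z a) (W.sub_mem ha (zW a ha)) = 0 := hx
    rw [td04_zero] at hx' ⊢
    exact hinj a ha hx'
  have hinjt := td04_inj hℓ n₀ b hb _ _ hz' heig' hinjz
  intro a ha hya
  obtain ⟨y, hy, h⟩ := hya
  obtain ⟨h1, h2⟩ := (It.one_sub.pow (ℓ ^ n₀ - 1)) a ha
  have h3 : td04_mk W T y hy - td04_bar z zW zT (td04_mk W T y hy) =
      ((1 - td04_bar t tW tT) ^ (ℓ ^ n₀ - 1)) (td04_mk W T a ha) := by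
    rw [h2]
    exact ((td04_eq (ha := h1) (hb := W.sub_mem hy (zW y hy))).2 h).symm
  obtain ⟨b', hb'⟩ := td04_inv hℓ hb
  have h4 : td04_bar z zW zT = (td04_bar t tW tT ^ ℓ ^ n₀) ^ b' := by
    rw [heig', ← pow_mul, td04_pow_mod _ (td04_pow_one _ hz'), hb',
      ← td04_pow_mod _ (td04_pow_one _ hz'), pow_one]
  rw [h4, td04_geom] at h3
  obtain ⟨x, hx⟩ := div_lemma hℓ n₀ (td04_bar t tW tT) hΦ hinjt h3
  obtain ⟨a', ha', rfl⟩ := td04_surj x
  exact ⟨a', ha', (td04_eq (ha := ha) (hb := W.sub_mem ha' (tW a' ha'))).1 hx⟩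

theorem eps_rel {A : Type*} [AddCommGroup A] {ℓ : ℕ} (hℓ : ℓ.Prime) (n₀ b q n : ℕ)
    (hb : ¬ ℓ ∣ b) (hq0 : 0 < q) (hq1 : ℓ ∣ q - 1) (W T : AddSubgroup A) (hTW : T ≤ W)
    (t z u : A →+ A)
    (tW : ∀ a ∈ W, t a ∈ W) (tT : ∀ a ∈ T, t a ∈ T) (zW : ∀ a ∈ W, z a ∈ W)
    (zT : ∀ a ∈ T, z a ∈ T) (hzt : ∀ a ∈ W, t (z a) - z (t a) ∈ T)
    (hz : ∀ a ∈ W, ∑ i ∈ range ℓ, z^[i] a ∈ T)
    (heig : ∀ a ∈ W, t^[ℓ ^ n₀] a - z^[b] a ∈ T)
    (uW : ∀ a ∈ W, u a ∈ W) (uT : ∀ a ∈ T, u a ∈ T)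
    (hut : ∀ a ∈ W, u (t a) - t^[q] (u a) ∈ T) :
    ∃ s : ℤ, ∀ a ∈ W, ∃ a' ∈ W,
      u ((fun x => x - t x)^[n] a) - ((fun x => x - t x)^[n] (u a) +
        (fun x => x - t x)^[n + 1] (s • u a + (a' - t a'))) ∈ T := by
  have It := td04_bar_I t tW tT
  have Iz := td04_bar_I z zW zT
  have Iu := td04_bar_I u uW uT
  have hz' : ∑ i ∈ range ℓ, td04_bar z zW zT ^ i = 0 :=
    (Td04I.sum ℓ fun i => Iz.pow i).ext td04_zero_I fun a ha => by
      rw [sub_zero]
      exact hz a ha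
  have heig' : td04_bar t tW tT ^ ℓ ^ n₀ = td04_bar z zW zT ^ b :=
    (It.pow _).ext (Iz.pow _) heig
  have hΦ := td04_phi hℓ n₀ b hb _ _ hz' heig'
  have hut' : td04_bar u uW uT * td04_bar t tW tT = td04_bar t tW tT ^ q * td04_bar u uW uT :=
    (Iu.mul It).ext ((It.pow q).mul Iu) hut
  obtain ⟨s, hs⟩ := eps_lemma hℓ n₀ q n hq0 hq1 (td04_bar t tW tT) hΦ
  refine ⟨s, fun a ha => ?_⟩
  obtain ⟨x, hx⟩ := hs (td04_bar u uW uT (td04_mk W T a ha))
  obtain ⟨a', ha', rfl⟩ := td04_surj x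
  refine ⟨a', ha', ?_⟩
  have hun : td04_bar u uW uT * (1 - td04_bar t tW tT) ^ n =
      (1 - td04_bar t tW tT) ^ n * ((∑ i ∈ range q, td04_bar t tW tT ^ i) ^ n * td04_bar u uW uT) :=
    td04_comm (R := AddMonoid.End (Td04Q W T)) (td04_bar t tW tT) (td04_bar u uW uT) q hut' n
  have hkey := congrArg (fun f : AddMonoid.End (Td04Q W T) => f (td04_mk W T a ha)) hun
  simp only [td04_mul_app] at hkey
  rw [hx, map_add] at hkey
  -- the left side
  obtain ⟨h1, h2⟩ := (It.one_sub.pow n) a ha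
  obtain ⟨h3, h4⟩ := Iu _ h1
  rw [h2, h4] at hkey
  -- the right side
  obtain ⟨h5, h6⟩ := Iu a ha
  obtain ⟨h7, h8⟩ := (It.one_sub.pow n) _ h5
  have h9 : s • td04_mk W T (u a) h5 + (1 - td04_bar t tW tT) (td04_mk W T a' ha') =
      td04_mk W T (s • u a + (a' - t a')) (W.add_mem (W.zsmul_mem h5 s) (W.sub_mem ha' (tW a' ha'))) := rfl
  obtain ⟨h10, h11⟩ := (It.one_sub.pow (n + 1)) _
    (W.add_mem (W.zsmul_mem h5 s) (W.sub_mem ha' (tW a' ha')))
  rw [h6, h8, h9] at hkey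
  have h12 : ((1 - td04_bar t tW tT) ^ n) ((1 - td04_bar t tW tT)
      (td04_mk W T (s • u a + (a' - t a'))
        (W.add_mem (W.zsmul_mem h5 s) (W.sub_mem ha' (tW a' ha'))))) =
      ((1 - td04_bar t tW tT) ^ (n + 1)) (td04_mk W T (s • u a + (a' - t a'))
        (W.add_mem (W.zsmul_mem h5 s) (W.sub_mem ha' (tW a' ha')))) := by
    rw [pow_succ, td04_mul_app]
  rw [h12, h11, td04_add, td04_eq] at hkey
  exact hkey

theorem tower_rel {A : Type*} [AddCommGroup A] {ℓ : ℕ} (hℓ : ℓ.Prime) (r : ℕ)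
    (W T : AddSubgroup A) (hTW : T ≤ W) (t z : A →+ A)
    (tW : ∀ a ∈ W, t a ∈ W) (tT : ∀ a ∈ T, t a ∈ T) (zW : ∀ a ∈ W, z a ∈ W)
    (zT : ∀ a ∈ T, z a ∈ T) (hzt : ∀ a ∈ W, t (z a) - z (t a) ∈ T)
    (hz : ∀ a ∈ W, ∑ i ∈ range ℓ, z^[i] a ∈ T)
    (ht : ∀ a ∈ W, t^[ℓ ^ r] a - a ∈ T) (h0 : ∀ a ∈ W, t a - a ∈ T → a ∈ T)
    (hib : ∀ i < r, ∀ b : ℕ, ¬ ℓ ∣ b → ∀ a ∈ W, t^[ℓ ^ i] a - z^[b] a ∈ T → a ∈ T) :
    ∀ a ∈ W, a ∈ T := by
  have It := td04_bar_I t tW tT
  have Iz := td04_bar_I z zW zT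
  have hc : td04_bar t tW tT * td04_bar z zW zT = td04_bar z zW zT * td04_bar t tW tT :=
    (It.mul Iz).ext (Iz.mul It) hzt
  have hz' : ∑ i ∈ range ℓ, td04_bar z zW zT ^ i = 0 :=
    (Td04I.sum ℓ fun i => Iz.pow i).ext td04_zero_I fun a ha => by
      rw [sub_zero]
      exact hz a ha
  have key : ∀ i ≤ r, ∀ x : Td04Q W T, (td04_bar t tW tT ^ ℓ ^ i) x = x → x = 0 := by
    intro i
    induction i with
    | zero =>
      intro _ x hx
      obtain ⟨a, ha, rfl⟩ := td04_surj x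
      rw [pow_zero, pow_one] at hx
      have hx' : td04_mk W T (t a) (tW a ha) = td04_mk W T a ha := hx
      rw [td04_eq] at hx'
      rw [td04_zero]
      exact h0 a ha hx'
    | succ i ih =>
      intro hi x hx
      have hcx : Commute (td04_bar z zW zT) (td04_bar t tW tT ^ ℓ ^ i) :=
        ((show Commute (td04_bar t tW tT) (td04_bar z zW zT) from hc).pow_left _).symm
      have hprod := prod_sub_pow_comm hℓ (td04_bar z zW zT) (td04_bar t tW tT ^ ℓ ^ i) hcx hz'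
      obtain ⟨m, hm⟩ : ∃ m, ℓ = m + 1 := ⟨ℓ - 1, by have := hℓ.pos; omega⟩
      have hr : List.range ℓ = 0 :: (List.range m).map Nat.succ := by
        rw [hm, List.range_succ_eq_map]
      rw [hr, List.map_cons, List.prod_cons, pow_zero] at hprod
      have h1 := congrArg (fun f : AddMonoid.End (Td04Q W T) => f x) hprod
      simp only [td04_mul_app] at h1
      rw [← pow_mul, ← pow_succ, td04_sub_app, td04_sub_app,
        td04_one_app, td04_one_app, hx, sub_self, sub_eq_zero] at h1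
      have h2 := ih (by omega) _ h1
      -- the other factors are injective
      have h3 : ∀ L : List ℕ, (∀ c ∈ L, ¬ ℓ ∣ c) → ∀ y : Td04Q W T,
          (L.map fun c => td04_bar t tW tT ^ ℓ ^ i - td04_bar z zW zT ^ c).prod y = 0 → y = 0 := by
        intro L
        induction L with
        | nil => intro _ y hy; exact hy
        | cons c L ihL =>
          intro hL y hy
          rw [List.map_cons, List.prod_cons, td04_mul_app] at hy
          refine ihL (fun c' hc' => hL c' (List.mem_cons_of_mem _ hc')) y ?_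
          generalize (L.map fun c => td04_bar t tW tT ^ ℓ ^ i - td04_bar z zW zT ^ c).prod y = w
            at hy ⊢
          obtain ⟨a, ha, rfl⟩ := td04_surj w
          obtain ⟨h4, h5⟩ := (It.pow (ℓ ^ i)) a ha
          obtain ⟨h6, h7⟩ := (Iz.pow c) a ha
          rw [td04_sub_app, h5, h7, td04_sub, td04_zero] at hy
          rw [td04_zero]
          exact hib i (by omega) c (hL c List.mem_cons_self) a ha hy
      refine h3 ((List.range m).map Nat.succ) ?_ x h2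
      intro c hc' hdvd
      rw [List.mem_map] at hc'
      obtain ⟨k, hk, rfl⟩ := hc'
      rw [List.mem_range] at hk
      have := Nat.le_of_dvd (Nat.succ_pos k) hdvd
      omega
  intro a ha
  refine td04_zero.1 (key r le_rfl (td04_mk W T a ha) ?_)
  obtain ⟨h1, h2⟩ := (It.pow (ℓ ^ r)) a ha
  rw [h2, td04_eq]
  exact ht a ha

end Pool.Agent.Lib.MP_89bcae_ag.Sup

end

end

section

/-!
# The action of a quotient group on the fixed field
-/

namespace Pool.Agent.Lib.MP_89bcae_ag.Bra.Tsn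

section

variable {Q E G : Type} [Field Q] [Field E] [Algebra Q E] [Group G] [MulSemiringAction G E]
  [SMulCommClass G Q E] (N : Subgroup G)

/-- The elements of `E` fixed by `N`. -/
abbrev Fix (Q E : Type) {G : Type} [Field Q] [Field E] [Algebra Q E] [Group G]
    [MulSemiringAction G E] [SMulCommClass G Q E] (N : Subgroup G) : IntermediateField Q E :=
  FixedPoints.intermediateField N

lemma mem_Fix {x : E} : x ∈ Fix Q E N ↔ ∀ n ∈ N, n • x = x := by
  rw [Fix, FixedPoints.mem_intermediateField_iff]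
  exact ⟨fun h n hn => h ⟨n, hn⟩, fun h n => h n.1 n.2⟩

variable [N.Normal]

lemma smul_mem_Fix (g : G) {x : E} (hx : x ∈ Fix Q E N) : g • x ∈ Fix Q E N := by
  rw [mem_Fix] at hx ⊢
  intro n hn
  have h1 : g⁻¹ * n * g ∈ N := by
    have := ‹N.Normal›.conj_mem n hn g⁻¹
    rwa [inv_inv] at this
  rw [smul_smul, show n * g = g * (g⁻¹ * n * g) by group, ← smul_smul, hx _ h1]

lemma smul_eq_of_mk_eq {g h : G} (hgh : (g : G ⧸ N) = h) {x : E} (hx : x ∈ Fix Q E N) :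
    g • x = h • x := by
  rw [mem_Fix] at hx
  have h1 : g⁻¹ * h ∈ N := QuotientGroup.eq.1 hgh
  rw [show h = g * (g⁻¹ * h) by group, ← smul_smul, hx _ h1]

/-- The quotient group acts on the fixed field. -/
noncomputable instance actFix : MulSemiringAction (G ⧸ N) (Fix Q E N) where
  smul q x := ⟨q.out • (x : E), smul_mem_Fix N _ x.2⟩
  one_smul x := by
    refine Subtype.ext ?_
    show (1 : G ⧸ N).out • (x : E) = x
    rw [smul_eq_of_mk_eq (g := (1 : G ⧸ N).out) (h := 1) N (by simp) x.2, one_smul]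
  mul_smul q r x := by
    refine Subtype.ext ?_
    show (q * r).out • (x : E) = q.out • r.out • (x : E)
    rw [smul_smul]
    exact smul_eq_of_mk_eq N (by simp) x.2
  smul_zero q := Subtype.ext (smul_zero _)
  smul_add q x y := Subtype.ext (smul_add _ _ _)
  smul_one q := Subtype.ext (smul_one _)
  smul_mul q x y := Subtype.ext (smul_mul' _ _ _)

lemma mk_smul_Fix (g : G) (x : Fix Q E N) : (((g : G ⧸ N) • x : Fix Q E N) : E) = g • (x : E) := by
  show (g : G ⧸ N).out • (x : E) = g • (x : E)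
  exact smul_eq_of_mk_eq N (by simp) x.2

instance : SMulCommClass (G ⧸ N) Q (Fix Q E N) where
  smul_comm q c x := by
    refine Subtype.ext ?_
    show q.out • (c • (x : E)) = c • (q.out • (x : E))
    exact smul_comm _ _ _

/-- An element which acts trivially on the fixed field lies in the subgroup (Artin). -/
lemma mem_of_forall_smul_Fix [Finite G] [FaithfulSMul G E] (g : G)
    (hg : ∀ x : E, (∀ n ∈ N, n • x = x) → g • x = x) : g ∈ N := by
  let σ : E ≃ₐ[FixedPoints.subfield N E] E :=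
    AlgEquiv.ofRingEquiv (f := MulSemiringAction.toRingEquiv G E g) (by
      intro x
      exact hg (x : E) (fun n hn => x.2 ⟨n, hn⟩))
  obtain ⟨n, hn⟩ := FixedPoints.toAlgAut_surjective N E σ
  have h1 : g = (n : G) := by
    refine FaithfulSMul.eq_of_smul_eq_smul (fun (x : E) => ?_)
    have h2 : (MulSemiringAction.toAlgAut N (FixedPoints.subfield N E) E n) x = σ x := by
      rw [hn]
    exact h2.symm
  rw [h1]
  exact n.2

/-- The action of the quotient group is faithful if `G` is finite and acts faithfully (Artin).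

PROOF. Let `g` act trivially on `Fix N` (`mk_smul_Fix`). By Artin (`FixedPoints.toAlgAutMulEquiv` /
`FixedPoints.toAlgAut_bijective` for `N` acting on `E`, `FixedPoints.subfield N E`) the automorphism `g` of `E` over `Fix N`
is that of some `n` in `N`; as `G` acts faithfully on `E`, `g = n`. (`FaithfulSMul` from: `q` acts as `r` implies
`q⁻¹ r` acts trivially.) -/
theorem faithful_Fix [Finite G] [FaithfulSMul G E] : FaithfulSMul (G ⧸ N) (Fix Q E N) := by
  refine ⟨fun {q r} h => ?_⟩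
  induction q using QuotientGroup.induction_on with
  | H g =>
    induction r using QuotientGroup.induction_on with
    | H k =>
      rw [QuotientGroup.eq]
      refine mem_of_forall_smul_Fix (E := E) N (g⁻¹ * k) fun x hx => ?_
      have h1 := congrArg (fun y : Fix Q E N => (y : E)) (h ⟨x, (mem_Fix N).2 hx⟩)
      simp only [mk_smul_Fix] at h1
      rw [← smul_smul, ← h1, inv_smul_smul]

end

end Pool.Agent.Lib.MP_89bcae_ag.Bra.Tsn

end

end

section

attribute [local instance 100000] Pool.Agent.Lib.MP_89bcae_ag.Brt.tffFields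

namespace Pool.Agent.Lib.MP_89bcae_ag.Sup
end Pool.Agent.Lib.MP_89bcae_ag.Sup

section

/-!
# The number of ideals of given norm
-/

open NumberField Ideal

namespace Pool.Agent.Lib.MP_89bcae_ag.Re

/-- The number of ideals of norm `n` of the ring of integers of `K`. -/
noncomputable def idealCount (K : Type*) [Field K] [NumberField K] (n : ℕ) : ℕ :=
  Nat.card {I : Ideal (𝓞 K) // absNorm I = n}

/-- The Dirichlet series of `K` for real `s`. -/
noncomputable def zetaR (K : Type*) [Field K] [NumberField K] (s : ℝ) : ℝ :=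
  ∑' n : ℕ, (idealCount K n : ℝ) * (n : ℝ) ^ (-s)

end Pool.Agent.Lib.MP_89bcae_ag.Re

end

section

open Filter Topology

namespace Pool.Agent.Lib.MP_89bcae_ag.Re

/-- Elementary: `x ↦ log (1 + x) - x + x ^ 2` is nonnegative for `x ≥ 0` (for instance from
`Real.add_one_le_exp` applied to `-x/(1+x)`, or by cases `x ≤ 1`: `1 + x ≥ exp (x - x ^ 2)`). -/
theorem exp_le_one_add_mul_exp_sq {x : ℝ} (hx : 0 ≤ x) :
    Real.exp x ≤ (1 + x) * Real.exp (x ^ 2) := by
  have h1 : x ^ 2 - x + 1 ≤ Real.exp (x ^ 2 - x) := Real.add_one_le_exp _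
  have h2 : 1 ≤ (1 + x) * Real.exp (x ^ 2 - x) := by
    have h3 : (1 + x) * (x ^ 2 - x + 1) = 1 + x ^ 3 := by ring
    have h4 : (1 + x) * (x ^ 2 - x + 1) ≤ (1 + x) * Real.exp (x ^ 2 - x) :=
      mul_le_mul_of_nonneg_left h1 (by linarith)
    have h5 : 0 ≤ x ^ 3 := pow_nonneg hx 3
    linarith
  calc Real.exp x = 1 * Real.exp x := (one_mul _).symm
    _ ≤ ((1 + x) * Real.exp (x ^ 2 - x)) * Real.exp x := mul_le_mul_of_nonneg_right h2 (Real.exp_pos _).le
    _ = (1 + x) * Real.exp (x ^ 2) := by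
      rw [mul_assoc, ← Real.exp_add, sub_add_cancel]

private lemma n05a_pow {q : ℕ} (hq : 2 ≤ q) {s : ℝ} (hs : 1 < s) (e : ℕ) :
    ((q ^ e : ℕ) : ℝ) ^ (-s) ≤ (1 / 2) ^ e := by
  have hq1 : 1 ≤ q ^ e := Nat.one_le_pow _ _ (by omega)
  have hq1' : (1 : ℝ) ≤ ((q ^ e : ℕ) : ℝ) := by exact_mod_cast hq1
  have h1 : ((q ^ e : ℕ) : ℝ) ^ (-s) ≤ ((q ^ e : ℕ) : ℝ) ^ (-1 : ℝ) :=
    Real.rpow_le_rpow_of_exponent_le hq1' (by linarith)
  have h2 : ((q ^ e : ℕ) : ℝ) ^ (-1 : ℝ) = (((q ^ e : ℕ) : ℝ))⁻¹ := Real.rpow_neg_one _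
  have h3 : (((q ^ e : ℕ) : ℝ))⁻¹ ≤ (1 / 2) ^ e := by
    rw [one_div, inv_pow]
    apply inv_anti₀ (by positivity)
    push_cast
    exact pow_le_pow_left₀ (by norm_num) (by exact_mod_cast hq) e
  rw [h2] at h1
  exact h1.trans h3

private lemma n05a_sum (d : ℕ) : Summable fun e : ℕ => ((e : ℝ) + 1) ^ d * (1 / 2) ^ e := by
  have h1 : Summable fun n : ℕ => (n : ℝ) ^ d * (1 / 2 : ℝ) ^ n :=
    summable_pow_mul_geometric_of_norm_lt_one d (by rw [Real.norm_eq_abs, abs_of_pos] <;> norm_num)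
  have h2 := ((summable_nat_add_iff 1).2 h1).mul_left 2
  refine h2.congr fun e => ?_
  push_cast
  rw [pow_succ]
  ring

/-- The series of the Euler factor converges. Proof: `u e ≤ (e+1)^d`, `q ≥ 2`, compare with
`(e+1)^d * 2^(-e)` (`summable_pow_mul_geometric_of_norm_lt_one` or root test). -/
theorem summable_factor (d : ℕ) {u : ℕ → ℝ} (hu0 : ∀ e, 0 ≤ u e) (hu : ∀ e, u e ≤ ((e : ℝ) + 1) ^ d)
    {q : ℕ} (hq : 2 ≤ q) {s : ℝ} (hs : 1 < s) :
    Summable fun e : ℕ => u e * ((q ^ e : ℕ) : ℝ) ^ (-s) := by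
  refine Summable.of_nonneg_of_le (fun e => mul_nonneg (hu0 e) (Real.rpow_nonneg (Nat.cast_nonneg _) _))
    (fun e => ?_) (n05a_sum d)
  exact mul_le_mul (hu e) (n05a_pow hq hs e) (Real.rpow_nonneg (Nat.cast_nonneg _) _)
    (pow_nonneg (by positivity) _)

/-- The majorant of the tail of the Euler factor is summable. -/
theorem n05b_summable (d : ℕ) : Summable fun e : ℕ => ((e : ℝ) + 3) ^ d * (1 / 2 : ℝ) ^ e := by
  have h1 : Summable fun n : ℕ => (n : ℝ) ^ d * (1 / 2 : ℝ) ^ n :=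
    summable_pow_mul_geometric_of_norm_lt_one d (by rw [Real.norm_eq_abs, abs_of_pos] <;> norm_num)
  have h2 := ((summable_nat_add_iff 3).2 h1).mul_left 8
  refine h2.congr fun e => ?_
  push_cast
  rw [pow_add]
  ring

/-- One term of the tail. -/
theorem n05b_term {d : ℕ} {u : ℕ → ℝ} (hu : ∀ e, u e ≤ ((e : ℝ) + 1) ^ d) {q : ℕ} (hq : 2 ≤ q)
    {s : ℝ} (hs : 1 < s) (e : ℕ) :
    u (e + 2) * ((q ^ (e + 2) : ℕ) : ℝ) ^ (-s) ≤
      1 / (q : ℝ) ^ 2 * (((e : ℝ) + 3) ^ d * (1 / 2 : ℝ) ^ e) := by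
  have hq0 : (2 : ℝ) ≤ q := by exact_mod_cast hq
  have hqpos : (0 : ℝ) < q := by linarith
  have h1 : (1 : ℝ) ≤ ((q ^ (e + 2) : ℕ) : ℝ) := by
    exact_mod_cast Nat.one_le_pow _ _ (by omega : 0 < q)
  have h2 : ((q ^ (e + 2) : ℕ) : ℝ) ^ (-s) ≤ 1 / (q : ℝ) ^ 2 * (1 / 2 : ℝ) ^ e := by
    have h3 : ((q ^ (e + 2) : ℕ) : ℝ) ^ (-s) ≤ ((q ^ (e + 2) : ℕ) : ℝ) ^ (-1 : ℝ) :=
      Real.rpow_le_rpow_of_exponent_le h1 (by linarith)
    refine h3.trans ?_
    rw [Real.rpow_neg_one, Nat.cast_pow, pow_add, mul_inv, one_div, one_div, inv_pow, mul_comm]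
    refine mul_le_mul_of_nonneg_left ?_ (by positivity)
    exact inv_anti₀ (by positivity) (pow_le_pow_left₀ (by norm_num) hq0 e)
  have h4 : u (e + 2) ≤ ((e : ℝ) + 3) ^ d := by
    have h5 := hu (e + 2)
    push_cast at h5
    have h6 : (e : ℝ) + 2 + 1 = (e : ℝ) + 3 := by ring
    rwa [h6] at h5
  calc u (e + 2) * ((q ^ (e + 2) : ℕ) : ℝ) ^ (-s)
      ≤ ((e : ℝ) + 3) ^ d * ((q ^ (e + 2) : ℕ) : ℝ) ^ (-s) :=
        mul_le_mul_of_nonneg_right h4 (Real.rpow_nonneg (by linarith) _)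
    _ ≤ ((e : ℝ) + 3) ^ d * (1 / (q : ℝ) ^ 2 * (1 / 2 : ℝ) ^ e) :=
        mul_le_mul_of_nonneg_left h2 (by positivity)
    _ = 1 / (q : ℝ) ^ 2 * (((e : ℝ) + 3) ^ d * (1 / 2 : ℝ) ^ e) := by ring

/-- One Euler factor. `u e` stands for `a(q ^ e)`. Proof: the factor is `1 + u 1 * q ^ (-s) + R` with
`0 ≤ R = ∑_{e ≥ 2} ≤ ∑_{e ≥ 2} (e+1)^d q^(-e)` (since `s > 1`) `≤ C₁ / q ^ 2`,
`C₁ = ∑_{e ≥ 2} (e+1)^d 2^(2-e)`. -/
theorem factor_le (d : ℕ) : ∃ C : ℝ, 0 ≤ C ∧ ∀ (u : ℕ → ℝ), (∀ e, 0 ≤ u e) → u 0 = 1 →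
    (∀ e, u e ≤ ((e : ℝ) + 1) ^ d) → ∀ (q : ℕ), 2 ≤ q → ∀ s : ℝ, 1 < s →
      ∑' e : ℕ, u e * ((q ^ e : ℕ) : ℝ) ^ (-s) ≤ 1 + u 1 * (q : ℝ) ^ (-s) + C / (q : ℝ) ^ 2 := by
  refine ⟨∑' e : ℕ, ((e : ℝ) + 3) ^ d * (1 / 2 : ℝ) ^ e, tsum_nonneg fun e => by positivity, ?_⟩
  intro u hu0 hu1 hu q hq s hs
  have hsum := summable_factor d hu0 hu hq hs
  rw [← hsum.sum_add_tsum_nat_add 2, Finset.sum_range_succ, Finset.sum_range_one, hu1, pow_zero,
    Nat.cast_one, Real.one_rpow, one_mul, pow_one]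
  have h1 : ∑' e : ℕ, u (e + 2) * ((q ^ (e + 2) : ℕ) : ℝ) ^ (-s) ≤
      ∑' e : ℕ, 1 / (q : ℝ) ^ 2 * (((e : ℝ) + 3) ^ d * (1 / 2 : ℝ) ^ e) :=
    ((summable_nat_add_iff 2).2 hsum).tsum_le_tsum (fun e => n05b_term hu hq hs e)
      ((n05b_summable d).mul_left _)
  rw [tsum_mul_left] at h1
  have h2 : 1 / (q : ℝ) ^ 2 * ∑' e : ℕ, ((e : ℝ) + 3) ^ d * (1 / 2 : ℝ) ^ e =
      (∑' e : ℕ, ((e : ℝ) + 3) ^ d * (1 / 2 : ℝ) ^ e) / (q : ℝ) ^ 2 := by ring
  linarith

end Pool.Agent.Lib.MP_89bcae_ag.Re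

end

section

open NumberField Polynomial

namespace Pool.Agent.Lib.MP_89bcae_ag.Re

private theorem exists_nat_mul_int (K : Type*) [Field K] [NumberField K] (a : K) :
    ∃ M : ℕ, M ≠ 0 ∧ ∃ b : 𝓞 K, (b : K) = M * a := by
  have halg : IsAlgebraic ℤ a := by
    have h1 : IsAlgebraic ℚ a := Algebra.IsAlgebraic.isAlgebraic a
    exact (IsFractionRing.isAlgebraic_iff ℤ ℚ K).mpr h1
  obtain ⟨y, hy0, hy⟩ := halg.exists_integral_multiple
  refine ⟨y.natAbs, Int.natAbs_ne_zero.mpr hy0, ?_⟩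
  have hy2 : IsIntegral ℤ ((y.natAbs : K) * a) := by
    rcases Int.natAbs_eq y with h | h
    · have : ((y.natAbs : K) * a) = y • a := by
        rw [zsmul_eq_mul]
        conv_rhs => rw [h]
        simp
      rw [this]; exact hy
    · have : ((y.natAbs : K) * a) = - (y • a) := by
        rw [zsmul_eq_mul]
        conv_rhs => rw [h]
        simp
      rw [this]; exact hy.neg
  exact ⟨⟨_, hy2⟩, rfl⟩

private theorem exists_nat_mul_poly (K : Type*) [Field K] [NumberField K] (p : K[X]) :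
    ∃ M : ℕ, M ≠ 0 ∧ ∃ q : (𝓞 K)[X], q.map (algebraMap (𝓞 K) K) = (M : K[X]) * p := by
  induction p using Polynomial.induction_on' with
  | add p q hp hq =>
    obtain ⟨M, hM, P, hP⟩ := hp
    obtain ⟨N, hN, Q, hQ⟩ := hq
    refine ⟨M * N, mul_ne_zero hM hN, (N : (𝓞 K)[X]) * P + (M : (𝓞 K)[X]) * Q, ?_⟩
    rw [Polynomial.map_add, Polynomial.map_mul, Polynomial.map_mul, hP, hQ]
    simp only [Polynomial.map_natCast]
    push_cast
    ring
  | monomial n a =>
    obtain ⟨M, hM, b, hb⟩ := exists_nat_mul_int K a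
    refine ⟨M, hM, Polynomial.monomial n b, ?_⟩
    rw [Polynomial.map_monomial]
    have : (M : K[X]) = C (M : K) := by simp
    rw [this, Polynomial.C_mul_monomial]
    congr 1

/-- A common denominator. Proof: `𝓞 K'` is generated by finitely many elements `y` as an `ℤ`-module
(`Module.Finite ℤ (𝓞 K')`); each is `aeval α p` with `p ∈ K[X]` (`Algebra.adjoin_singleton_eq_range_aeval`),
and a nonzero integer times `p` has coefficients in `𝓞 K`
(`IsLocalization.integerNormalization`, or `exist_integer_multiples_of_finset` with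
`IsLocalization (nonZeroDivisors ℤ)` or `IsIntegralClosure.exists_smul_eq_mul` ...); take the product
of these integers, and extend to sums of integral multiples of the generators
(`Submodule.span_induction`). -/
theorem exists_denominator (K K' : Type*) [Field K] [NumberField K] [Field K'] [NumberField K']
    [Algebra K K'] {α : 𝓞 K'} (hα : Algebra.adjoin K {(α : K')} = ⊤) :
    ∃ M : ℕ, M ≠ 0 ∧ ∀ y : 𝓞 K', ∃ p : (𝓞 K)[X], (M : 𝓞 K') * y = aeval α p := by
  classical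
  -- one element
  have h1 : ∀ y : 𝓞 K', ∃ M : ℕ, M ≠ 0 ∧ ∃ p : (𝓞 K)[X], (M : 𝓞 K') * y = aeval α p := by
    intro y
    have hy : (y : K') ∈ Algebra.adjoin K {(α : K')} := by rw [hα]; trivial
    rw [Algebra.adjoin_singleton_eq_range_aeval] at hy
    obtain ⟨p, hp⟩ := hy
    obtain ⟨M, hM, q, hq⟩ := exists_nat_mul_poly K p
    refine ⟨M, hM, q, ?_⟩
    apply RingOfIntegers.coe_injective
    have e1 : ((aeval α q : 𝓞 K') : K') = aeval (α : K') q := by
      have := Polynomial.aeval_algebraMap_apply K' α q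
      exact this.symm
    have e2 : aeval (α : K') q = aeval (α : K') (q.map (algebraMap (𝓞 K) K)) := by
      rw [Polynomial.aeval_map_algebraMap]
    change (((M : 𝓞 K') * y : 𝓞 K') : K') = ((aeval α q : 𝓞 K') : K')
    rw [e1, e2, hq, map_mul, map_natCast]
    have hp' : aeval (α : K') p = (y : K') := hp
    rw [hp']
    simp
  -- a finite family
  obtain ⟨s, hs⟩ := (Module.Finite.fg_top : (⊤ : Submodule ℤ (𝓞 K')).FG)
  choose M hM p hp using h1
  refine ⟨∏ y ∈ s, M y, Finset.prod_ne_zero_iff.mpr (fun y _ => hM y), ?_⟩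
  intro y
  have hy : y ∈ Submodule.span ℤ (s : Set (𝓞 K')) := by rw [hs]; trivial
  induction hy using Submodule.span_induction with
  | mem x hx =>
    have hx' : x ∈ s := hx
    refine ⟨((∏ y ∈ s.erase x, M y : ℕ) : (𝓞 K)[X]) * p x, ?_⟩
    rw [map_mul, map_natCast, ← hp x, ← mul_assoc, ← Nat.cast_mul, mul_comm (∏ y ∈ s.erase x, M y),
      Finset.mul_prod_erase s M hx']
  | zero => exact ⟨0, by simp⟩
  | add a b _ _ ha hb =>
    obtain ⟨P, hP⟩ := ha
    obtain ⟨Q, hQ⟩ := hb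
    exact ⟨P + Q, by rw [mul_add, hP, hQ, map_add]⟩
  | smul n a _ ha =>
    obtain ⟨P, hP⟩ := ha
    refine ⟨(n : (𝓞 K)[X]) * P, ?_⟩
    rw [map_mul, map_intCast, ← hP, zsmul_eq_mul]
    ring

end Pool.Agent.Lib.MP_89bcae_ag.Re

end

section

open NumberField Polynomial

namespace Pool.Agent.Lib.MP_89bcae_ag.Re

private theorem n11_key (K K' : Type*) [Field K] [NumberField K] [Field K'] [NumberField K']
    [Algebra K K'] {ℓ : ℕ} (hℓ : 0 < ℓ) {b : 𝓞 K} {α : 𝓞 K'}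
    (hb : α ^ ℓ = algebraMap (𝓞 K) (𝓞 K') b) (hirr : Irreducible (X ^ ℓ - C (b : K)))
    {q : ℕ} (φ : 𝓞 K →+* ZMod q) {c : ZMod q} (hc : c ^ ℓ = φ b) (p : (𝓞 K)[X])
    (hp : aeval α p = 0) : eval₂ φ c p = 0 := by
  have hmon : (X ^ ℓ - C b : (𝓞 K)[X]).Monic := monic_X_pow_sub_C b hℓ.ne'
  have hPα : aeval α (X ^ ℓ - C b : (𝓞 K)[X]) = 0 := by
    simp [hb]
  have hPc : eval₂ φ c (X ^ ℓ - C b : (𝓞 K)[X]) = 0 := by
    simp [hc]
  have hdiv := modByMonic_add_div p (X ^ ℓ - C b : (𝓞 K)[X])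
  set r := p %ₘ (X ^ ℓ - C b : (𝓞 K)[X]) with hr
  have hrα : aeval α r = 0 := by
    have h := congrArg (aeval α) hdiv
    rw [map_add, map_mul, hPα, zero_mul, add_zero, hp] at h
    exact h
  have hmonK : (X ^ ℓ - C (b : K) : K[X]).Monic := monic_X_pow_sub_C _ hℓ.ne'
  have hαK : aeval (α : K') (X ^ ℓ - C (b : K) : K[X]) = 0 := by
    have h1 : ((α ^ ℓ : 𝓞 K') : K') = ((algebraMap (𝓞 K) (𝓞 K') b : 𝓞 K') : K') := by rw [hb]
    have h2 : (α : K') ^ ℓ = algebraMap K K' (b : K) := by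
      have h3 : algebraMap (𝓞 K') K' (algebraMap (𝓞 K) (𝓞 K') b) =
          algebraMap K K' (algebraMap (𝓞 K) K b) := by
        rw [← IsScalarTower.algebraMap_apply, ← IsScalarTower.algebraMap_apply]
      rw [← h3, ← hb, map_pow]
    simp only [map_sub, map_pow, aeval_X, aeval_C, h2, sub_self]
  have hmin := minpoly.eq_of_irreducible_of_monic hirr hαK hmonK
  have hrK : aeval (α : K') (r.map (algebraMap (𝓞 K) K)) = 0 := by
    have h1 : aeval (α : K') (r.map (algebraMap (𝓞 K) K)) = algebraMap (𝓞 K') K' (aeval α r) := by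
      rw [aeval_map_algebraMap, aeval_algebraMap_apply]
    rw [h1, hrα, map_zero]
  have hr0 : r = 0 := by
    have hdvd := minpoly.dvd K (α : K') hrK
    rw [← hmin] at hdvd
    have hdeg : (r.map (algebraMap (𝓞 K) K)).degree < (X ^ ℓ - C (b : K) : K[X]).degree := by
      calc (r.map (algebraMap (𝓞 K) K)).degree ≤ r.degree := degree_map_le
        _ < (X ^ ℓ - C b : (𝓞 K)[X]).degree := degree_modByMonic_lt _ hmon
        _ = ℓ := degree_X_pow_sub_C hℓ _
        _ = _ := (degree_X_pow_sub_C hℓ _).symm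
    have h0 : r.map (algebraMap (𝓞 K) K) = 0 := by
      by_contra hne
      exact absurd (degree_le_of_dvd hdvd hne) (not_le.mpr hdeg)
    exact (Polynomial.map_eq_zero_iff (IsFractionRing.injective (𝓞 K) K)).mp h0
  rw [← hdiv, hr0, zero_add, eval₂_mul, hPc, zero_mul]

/-- Extension of a homomorphism to `F_q`. Proof: `X ^ ℓ - C b` is the minimal polynomial of `α` over
`K` (`hirr`, monic, `minpoly.eq_of_irreducible_of_monic`), so, since `𝓞 K` is integrally closed, that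
over `𝓞 K` too (`minpoly.isIntegrallyClosed_eq_field_fractions'`): a polynomial `p ∈ (𝓞 K)[X]` with
`aeval α p = 0` is a multiple of `X ^ ℓ - C b` (`minpoly.isIntegrallyClosed_dvd`). So
`eval₂ φ c p = 0` whenever `aeval α p = 0`, because `c ^ ℓ = φ b`. Define `ψ y = M⁻¹ * eval₂ φ c p` for
any `p` with `M * y = aeval α p` (`Classical.choose`): this does not depend on `p`; it is additive; it
is multiplicative: if `M y = p(α)`, `M z = r(α)`, `M (y z) = w(α)`, then `p r - C M * w` is zero at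
`α`. Values: `ψ (algebraMap x) = φ x` with `p = C (M x)`, `ψ α = c` with `p = C M * X`. -/
theorem exists_extension (K K' : Type*) [Field K] [NumberField K] [Field K'] [NumberField K']
    [Algebra K K'] {ℓ : ℕ} (hℓ : 0 < ℓ) {b : 𝓞 K} {α : 𝓞 K'}
    (hb : α ^ ℓ = algebraMap (𝓞 K) (𝓞 K') b) (hirr : Irreducible (X ^ ℓ - C (b : K)))
    {M : ℕ} (hM : ∀ y : 𝓞 K', ∃ p : (𝓞 K)[X], (M : 𝓞 K') * y = aeval α p)
    {q : ℕ} [Fact q.Prime] (hqM : ¬ q ∣ M) (φ : 𝓞 K →+* ZMod q) {c : ZMod q} (hc : c ^ ℓ = φ b) :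
    ∃ ψ : 𝓞 K' →+* ZMod q, (∀ x : 𝓞 K, ψ (algebraMap (𝓞 K) (𝓞 K') x) = φ x) ∧ ψ α = c := by
  have hM0 : (M : ZMod q) ≠ 0 := by
    rw [Ne, ZMod.natCast_eq_zero_iff]
    exact hqM
  have key : ∀ p r : (𝓞 K)[X], aeval α p = aeval α r → eval₂ φ c p = eval₂ φ c r := by
    intro p r h
    have h1 : aeval α (p - r) = 0 := by rw [map_sub, h, sub_self]
    have h2 := n11_key K K' hℓ hb hirr φ hc (p - r) h1
    rw [eval₂_sub, sub_eq_zero] at h2
    exact h2
  choose P hP using hM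
  have val : ∀ (y : 𝓞 K') (p : (𝓞 K)[X]), (M : 𝓞 K') * y = aeval α p →
      (M : ZMod q)⁻¹ * eval₂ φ c (P y) = (M : ZMod q)⁻¹ * eval₂ φ c p := by
    intro y p hp
    rw [key (P y) p ((hP y).symm.trans hp)]
  have valM : ∀ (y : 𝓞 K') (p : (𝓞 K)[X]) (d : ZMod q), (M : 𝓞 K') * y = aeval α p →
      eval₂ φ c p = M * d → (M : ZMod q)⁻¹ * eval₂ φ c (P y) = d := by
    intro y p d hp hd
    rw [val y p hp, hd, ← mul_assoc, inv_mul_cancel₀ hM0, one_mul]
  refine ⟨{ toFun := fun y => (M : ZMod q)⁻¹ * eval₂ φ c (P y)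
            map_one' := ?_
            map_mul' := ?_
            map_zero' := ?_
            map_add' := ?_ }, ?_, ?_⟩
  · apply valM 1 (C (M : 𝓞 K)) 1
    · simp
    · simp
  · intro x y
    apply valM (x * y) (P (x * y))
    · exact hP _
    · have h1 : aeval α (C (M : 𝓞 K) * P (x * y)) = aeval α (P x * P y) := by
        rw [map_mul, map_mul, ← hP x, ← hP y, ← hP (x * y)]
        simp only [map_natCast]
        ring
      have h2 := key _ _ h1
      rw [eval₂_mul, eval₂_mul, eval₂_C, map_natCast] at h2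
      have h3 : (M : ZMod q) * ((M : ZMod q)⁻¹ * eval₂ φ c (P x) * ((M : ZMod q)⁻¹ * eval₂ φ c (P y)))
          = (M : ZMod q)⁻¹ * (eval₂ φ c (P x) * eval₂ φ c (P y)) := by
        have : (M : ZMod q) * (M : ZMod q)⁻¹ = 1 := mul_inv_cancel₀ hM0
        linear_combination ((M : ZMod q)⁻¹ * (eval₂ φ c (P x) * eval₂ φ c (P y))) * this
      rw [h3, ← h2, ← mul_assoc, inv_mul_cancel₀ hM0, one_mul]
  · apply valM 0 0 0
    · simp
    · simp
  · intro x y
    show (M : ZMod q)⁻¹ * eval₂ φ c (P (x + y)) = (M : ZMod q)⁻¹ * eval₂ φ c (P x) +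
      (M : ZMod q)⁻¹ * eval₂ φ c (P y)
    rw [val (x + y) (P x + P y), eval₂_add, mul_add]
    rw [map_add, ← hP x, ← hP y, mul_add]
  · intro x
    show (M : ZMod q)⁻¹ * eval₂ φ c (P _) = φ x
    apply valM _ (C ((M : 𝓞 K) * x))
    · rw [aeval_C, map_mul, map_natCast]
    · rw [eval₂_C, map_mul, map_natCast]
  · show (M : ZMod q)⁻¹ * eval₂ φ c (P _) = c
    apply valM _ (C (M : 𝓞 K) * X)
    · rw [map_mul, aeval_C, aeval_X, map_natCast]
    · rw [eval₂_mul, eval₂_C, eval₂_X, map_natCast]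

end Pool.Agent.Lib.MP_89bcae_ag.Re

end

section

namespace Pool.Agent.Lib.MP_89bcae_ag.Re

/-- Powers in a prime field. Proof: the group of units of `ZMod q` is cyclic of order `q - 1`, divisible
by `ℓ` (the order of `ζ`); `a` is an `ℓ`-th power iff `a ^ ((q - 1) / ℓ) = 1`. In detail: let `u` be a
generator (`IsCyclic (ZMod q)ˣ`), `a = u ^ i`; `a ^ ((q-1)/ℓ)` is an `ℓ`-th root of unity, so it is
`ζ ^ j` with `j < ℓ` (`IsPrimitiveRoot.eq_pow_of_pow_eq_one`); if `j = 0` then `q - 1` divides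
`i (q-1)/ℓ`, so `ℓ ∣ i` and `a` is an `ℓ`-th power. -/
theorem exists_symbol {ℓ q : ℕ} (hℓ : ℓ.Prime) [Fact q.Prime] {ζ : ZMod q}
    (hζ : IsPrimitiveRoot ζ ℓ) {a : ZMod q} (ha : a ≠ 0) (hpow : ∀ y : ZMod q, y ^ ℓ ≠ a) :
    ℓ ∣ q - 1 ∧ ∃ i : ZMod ℓ, i ≠ 0 ∧ a ^ ((q - 1) / ℓ) = ζ ^ i.val := by
  have hζ0 : ζ ≠ 0 := hζ.ne_zero hℓ.ne_zero
  have hdvd : ℓ ∣ q - 1 := by
    rw [hζ.eq_orderOf]
    exact ZMod.orderOf_dvd_card_sub_one hζ0
  refine ⟨hdvd, ?_⟩
  obtain ⟨m, hm⟩ := hdvd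
  have hq1 : 0 < q - 1 := by
    have := (Fact.out : q.Prime).two_le
    omega
  have hm0 : 0 < m := by
    rcases Nat.eq_zero_or_pos m with h | h
    · rw [h, mul_zero] at hm
      omega
    · exact h
  have hdiv : (q - 1) / ℓ = m := by
    rw [hm]
    exact Nat.mul_div_cancel_left m hℓ.pos
  rw [hdiv]
  have hNe : NeZero ℓ := ⟨hℓ.ne_zero⟩
  have h1 : (a ^ m) ^ ℓ = 1 := by
    rw [← pow_mul, mul_comm m ℓ, ← hm]
    exact ZMod.pow_card_sub_one_eq_one ha
  obtain ⟨j, hj, hj'⟩ := hζ.eq_pow_of_pow_eq_one h1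
  refine ⟨(j : ZMod ℓ), ?_, ?_⟩
  · intro h0
    rw [ZMod.natCast_eq_zero_iff] at h0
    have hj0 : j = 0 := Nat.eq_zero_of_dvd_of_lt h0 hj
    rw [hj0, pow_zero] at hj'
    obtain ⟨u, hu⟩ := IsCyclic.exists_generator (α := (ZMod q)ˣ)
    obtain ⟨i, hi⟩ := (Submonoid.mem_powers_iff _ _).1 ((mem_powers_iff_mem_zpowers).2 (hu (Units.mk0 a ha)))
    have hord : orderOf u = q - 1 := by
      rw [orderOf_eq_card_of_forall_mem_zpowers hu, Nat.card_eq_fintype_card, ZMod.card_units]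
    have h2 : u ^ (i * m) = 1 := by
      rw [pow_mul, hi]
      ext
      rw [Units.val_pow_eq_pow_val, Units.val_mk0, Units.val_one]
      exact hj'.symm
    have h3 : ℓ * m ∣ i * m := by
      rw [← hm, ← hord]
      exact orderOf_dvd_of_pow_eq_one h2
    obtain ⟨n, hn⟩ := Nat.dvd_of_mul_dvd_mul_right hm0 h3
    refine hpow ((u ^ n : (ZMod q)ˣ) : ZMod q) ?_
    have h4 : (u ^ n) ^ ℓ = Units.mk0 a ha := by
      rw [← hi, hn, mul_comm ℓ n, pow_mul]
    rw [← Units.val_pow_eq_pow_val, h4, Units.val_mk0]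
  · rw [ZMod.val_natCast, Nat.mod_eq_of_lt hj, hj']

/-- Proof: `(w ^ ℓ) ^ ((q - 1) / ℓ) = w ^ (q - 1) = 1` and
`(ζ ^ i.val) ^ j = ζ ^ (i * j : ZMod ℓ).val` (`ζ ^ ℓ = 1`, `ZMod.val_mul`, `pow_mod_orderOf`...). -/
theorem symbol_of_pow_mul {ℓ q : ℕ} (hℓ : ℓ.Prime) [Fact q.Prime] {ζ : ZMod q}
    (hζ : IsPrimitiveRoot ζ ℓ) (hdvd : ℓ ∣ q - 1) {w a z : ZMod q} {j : ℕ} (hw : w ≠ 0)
    (h : w ^ ℓ * a ^ j = z) {i : ZMod ℓ} (hi : a ^ ((q - 1) / ℓ) = ζ ^ i.val) :
    z ^ ((q - 1) / ℓ) = ζ ^ (i * j : ZMod ℓ).val := by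
  have hNe : NeZero ℓ := ⟨hℓ.ne_zero⟩
  obtain ⟨m, hm⟩ := hdvd
  have hdiv : (q - 1) / ℓ = m := by
    rw [hm]
    exact Nat.mul_div_cancel_left m hℓ.pos
  rw [hdiv] at hi ⊢
  have h1 : w ^ (ℓ * m) = 1 := by
    rw [← hm]
    exact ZMod.pow_card_sub_one_eq_one hw
  have h2 : ∀ n : ℕ, ζ ^ (n % ℓ) = ζ ^ n := by
    intro n
    conv_rhs => rw [← Nat.div_add_mod n ℓ, pow_add, pow_mul, hζ.pow_eq_one, one_pow, one_mul]
  rw [← h, mul_pow, ← pow_mul, h1, one_mul, ← pow_mul, mul_comm j m, pow_mul, hi, ← pow_mul,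
    ZMod.val_mul, ZMod.val_natCast, Nat.mul_mod_mod, h2]

end Pool.Agent.Lib.MP_89bcae_ag.Re

end

section

open Finset

namespace Pool.Agent.Lib.MP_89bcae_ag.Re

/-- The tridiagonal `n × n` matrix with diagonal `D 0, .., D (n - 1)` and the entries `-1` next to the
diagonal has no eigenvalue in the prime field. -/
def PathInj {ℓ : ℕ} (n : ℕ) (D : ℕ → ZMod ℓ) : Prop :=
  ∀ (z : ZMod ℓ) (v : ℕ → ZMod ℓ),
    (∀ i < n, (D i - z) * v i = (if i = 0 then 0 else v (i - 1)) +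
      (if i + 1 = n then 0 else v (i + 1))) → ∀ i < n, v i = 0

/-- the solution of the recursion -/
def p01w {ℓ : ℕ} (D : ℕ → ZMod ℓ) (z : ZMod ℓ) : ℕ → ZMod ℓ
  | 0 => 1
  | 1 => D 0 - z
  | (i + 2) => (D (i + 1) - z) * p01w D z (i + 1) - p01w D z i

theorem p01w_two {ℓ : ℕ} (D : ℕ → ZMod ℓ) (z : ZMod ℓ) (i : ℕ) :
    p01w D z (i + 2) = (D (i + 1) - z) * p01w D z (i + 1) - p01w D z i := by
  rw [p01w]

theorem p01w_ne {ℓ : ℕ} [Fact ℓ.Prime] (D : ℕ → ZMod ℓ) (z : ZMod ℓ) (i : ℕ) :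
    ¬ (p01w D z i = 0 ∧ p01w D z (i + 1) = 0) := by
  induction i with
  | zero =>
    rintro ⟨h, -⟩
    rw [p01w] at h
    exact one_ne_zero h
  | succ i ih =>
    rintro ⟨h1, h2⟩
    apply ih
    refine ⟨?_, h1⟩
    rw [p01w_two, h1, mul_zero, zero_sub, neg_eq_zero] at h2
    exact h2

theorem p01_sol {ℓ : ℕ} (n : ℕ) (D E : ℕ → ZMod ℓ) (hE : ∀ i, i + 1 < n → E i = D i) (z : ZMod ℓ)
    (v : ℕ → ZMod ℓ)
    (h : ∀ i < n, (E i - z) * v i = (if i = 0 then 0 else v (i - 1)) +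
      (if i + 1 = n then 0 else v (i + 1))) :
    ∀ i < n, v i = v 0 * p01w D z i := by
  intro i
  induction i using Nat.strong_induction_on with
  | _ i ih =>
    intro hi
    match i, ih, hi with
    | 0, _, _ => rw [p01w, mul_one]
    | 1, _, hi =>
      have h0 := h 0 (by omega)
      rw [if_pos rfl, if_neg (by omega), zero_add, zero_add, hE 0 (by omega)] at h0
      rw [p01w, ← h0, mul_comm]
    | (i + 2), ih, hi =>
      have h1 := h (i + 1) (by omega)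
      rw [if_neg (by omega), if_neg (by omega), Nat.add_sub_cancel, hE (i + 1) (by omega),
        ih i (by omega) (by omega), ih (i + 1) (by omega) (by omega)] at h1
      rw [p01w_two]
      linear_combination -h1

/-- the first `n - 1` entries of the diagonal -/
def p01D (ℓ n : ℕ) (i : ℕ) : ZMod ℓ := if i = 0 ∨ i + 2 = n then 1 else 2

theorem p01w_one (ℓ n : ℕ) (i : ℕ) : i + 1 < n → p01w (p01D ℓ n) 0 i = 1 := by
  induction i using Nat.strong_induction_on with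
  | _ i ih =>
    intro hi
    match i, ih, hi with
    | 0, _, _ => rw [p01w]
    | 1, _, hi => rw [p01w, p01D, if_pos (Or.inl rfl), sub_zero]
    | (i + 2), ih, hi =>
      rw [p01w_two, ih i (by omega) (by omega), ih (i + 1) (by omega) (by omega), p01D,
        if_neg (by omega)]
      ring

/-- Proof: `D = (1, 2, .., 2, 1, c)` (that is `D i = 1` for `i = 0` and `i = n - 2`, `D (n-1) = c`, `2` for
the others; note `n ≥ 3`). For `z` let `w z : ℕ → ZMod ℓ` be the sequence with `w 0 = 1`,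
`w 1 = D 0 - z`, `w (i+2) = (D (i+1) - z) w (i+1) - w i` (defined with the first `n - 1` entries of `D`,
so independent of `c`). Any solution `v` of the equations for `i < n - 1` is `v 0 * w z` on `[0, n-1]`;
the last equation is `v 0 * ((c - z) * w z (n-1) - w z (n-2)) = 0`. If `v 0 = 0`, then `v = 0`. Otherwise
`(c - z) * w z (n-1) = w z (n-2)`. For `z = 0` we have `w 0 i = 1` for `i ≤ n - 2` and `w 0 (n-1) = 0`, so
this is `0 = 1`: impossible. For `z ≠ 0`: `w z (n-1)` and `w z (n-2)` are not both zero (otherwise going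
back `w z 0 = 0`), so at most one `c` (namely `z + w z (n-2) / w z (n-1)`) satisfies it. The bad `c` form
a set with at most `ℓ - 1` elements (image of the nonzero `z`), so some `c` is good. (See
`Sup.exists_delta` in `Tow/M11` for the same kind of argument.) -/
theorem exists_path {ℓ : ℕ} [Fact ℓ.Prime] {n : ℕ} (hn : 3 ≤ n) :
    ∃ D : ℕ → ZMod ℓ, PathInj n D := by
  have hp : ℓ.Prime := Fact.out
  obtain ⟨S, hS⟩ : ∃ S : Finset (ZMod ℓ), S = ((univ : Finset (ZMod ℓ)).erase 0).image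
    (fun z => z + p01w (p01D ℓ n) z (n - 2) / p01w (p01D ℓ n) z (n - 1)) := ⟨_, rfl⟩
  have hcard : S.card < (univ : Finset (ZMod ℓ)).card := by
    rw [hS]
    refine lt_of_le_of_lt Finset.card_image_le ?_
    exact Finset.card_erase_lt_of_mem (Finset.mem_univ _)
  obtain ⟨c, -, hc⟩ := Finset.exists_mem_notMem_of_card_lt_card hcard
  refine ⟨fun i => if i + 1 = n then c else p01D ℓ n i, ?_⟩
  intro z v h
  have hsol := p01_sol n (p01D ℓ n) _ (fun i hi => if_neg (by omega)) z v h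
  have hlast := h (n - 1) (by omega)
  have hn1 : n - 1 + 1 = n := by omega
  have hn2 : n - 1 - 1 = n - 2 := by omega
  have hn3 : n - 2 + 1 = n - 1 := by omega
  rw [if_neg (by omega), if_pos hn1, add_zero, hn2] at hlast
  simp only [hn1, if_true] at hlast
  rw [hsol (n - 1) (by omega), hsol (n - 2) (by omega)] at hlast
  have h0 : v 0 = 0 := by
    by_contra hv
    have h1 : (c - z) * p01w (p01D ℓ n) z (n - 1) = p01w (p01D ℓ n) z (n - 2) := by
      apply mul_left_cancel₀ hv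
      linear_combination hlast
    rcases eq_or_ne z 0 with hz | hz
    · subst hz
      have h2 : p01w (p01D ℓ n) 0 (n - 2) = 1 := p01w_one ℓ n (n - 2) (by omega)
      have h3 : p01w (p01D ℓ n) 0 (n - 1) = 0 := by
        obtain ⟨m, rfl⟩ : ∃ m, n = m + 3 := ⟨n - 3, by omega⟩
        have e1 : m + 3 - 1 = m + 2 := by omega
        rw [e1, p01w_two, p01w_one ℓ (m + 3) m (by omega), p01w_one ℓ (m + 3) (m + 1) (by omega),
          p01D, if_pos (Or.inr (by omega))]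
        ring
      rw [h2, h3, mul_zero] at h1
      exact zero_ne_one h1
    · have h2 : p01w (p01D ℓ n) z (n - 1) ≠ 0 := by
        intro h3
        rw [h3, mul_zero] at h1
        exact p01w_ne (p01D ℓ n) z (n - 2) ⟨h1.symm, by rw [hn3]; exact h3⟩
      apply hc
      rw [hS]
      refine Finset.mem_image.2 ⟨z, Finset.mem_erase.2 ⟨hz, Finset.mem_univ _⟩, ?_⟩
      rw [← h1, mul_div_assoc, div_self h2, mul_one]
      ring
  intro i hi
  rw [hsol i hi, h0, zero_mul]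

end Pool.Agent.Lib.MP_89bcae_ag.Re

end

section

/-!
# The sum of the inverses of the primes in a residue class diverges
-/

open ArithmeticFunction vonMangoldt Filter Topology

open scoped Classical

namespace Pool.Agent.Lib.MP_89bcae_ag

set_option linter.unusedSectionVars false

section

variable {q : ℕ} {a : ZMod q}

/-- The set of the primes in the residue class. -/
def resPrimes14 (a : ZMod q) : Set ℕ := {p : ℕ | p.Prime ∧ (p : ZMod q) = a}

lemma summable_residue_rpow14 {x : ℝ} (hx : 1 < x) :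
    Summable fun n : ℕ => residueClass a n / (n : ℝ) ^ x :=
  LSeries.summable_real_of_abscissaOfAbsConv_lt <|
    (abscissaOfAbsConv_residueClass_le_one a).trans_lt <| by exact_mod_cast hx

lemma summable_log14 {x : ℝ} (hx : 1 < x) :
    Summable fun n : ℕ => (resPrimes14 a).indicator (fun n : ℕ => Real.log n / (n : ℝ) ^ x) n := by
  refine Summable.of_nonneg_of_le (fun n => Set.indicator_nonneg (fun n _ => by positivity) n)
    (fun n => ?_) (summable_residue_rpow14 (a := a) hx)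
  by_cases hn : n ∈ resPrimes14 a
  · rw [Set.indicator_of_mem hn]
    have h1 : residueClass a n = Real.log n := by
      rw [residueClass, Set.indicator_of_mem (show n ∈ {n : ℕ | (n : ZMod q) = a} from hn.2),
        vonMangoldt_apply_prime hn.1]
    rw [h1]
  · rw [Set.indicator_of_notMem hn]
    exact div_nonneg (residueClass_nonneg a n) (by positivity)

/-- The lower bound for the primes alone. -/
lemma log_lower14 [NeZero q] (ha : IsUnit a) :
    ∃ C : ℝ, ∀ x ∈ Set.Ioc (1 : ℝ) 2, (q.totient : ℝ)⁻¹ / (x - 1) - C ≤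
      ∑' n : ℕ, (resPrimes14 a).indicator (fun n : ℕ => Real.log n / (n : ℝ) ^ x) n := by
  obtain ⟨C, hC⟩ := LSeries_residueClass_lower_bound ha
  refine ⟨C + ∑' n : ℕ, (if n.Prime then 0 else residueClass a n) / n, fun x hx => ?_⟩
  have h1 := hC hx
  have h2 : ∑' n : ℕ, residueClass a n / (n : ℝ) ^ x ≤
      ∑' n : ℕ, ((resPrimes14 a).indicator (fun n : ℕ => Real.log n / (n : ℝ) ^ x) n +
        (if n.Prime then 0 else residueClass a n) / n) := by
    refine Summable.tsum_le_tsum (fun n => ?_) (summable_residue_rpow14 hx.1)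
      ((summable_log14 hx.1).add (summable_residueClass_non_primes_div a))
    by_cases hp : n.Prime
    · rw [if_pos hp, zero_div, add_zero]
      by_cases hna : (n : ZMod q) = a
      · rw [Set.indicator_of_mem (show n ∈ resPrimes14 a from ⟨hp, hna⟩), residueClass,
          Set.indicator_of_mem (show n ∈ {n : ℕ | (n : ZMod q) = a} from hna),
          vonMangoldt_apply_prime hp]
      · rw [residueClass, Set.indicator_of_notMem (show n ∉ {n : ℕ | (n : ZMod q) = a} from hna),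
          zero_div]
        exact Set.indicator_nonneg (fun n _ => by positivity) n
    · rw [if_neg hp]
      have h3 : 0 ≤ (resPrimes14 a).indicator (fun n : ℕ => Real.log n / (n : ℝ) ^ x) n :=
        Set.indicator_nonneg (fun n _ => by positivity) n
      rcases n.eq_zero_or_pos with rfl | hn
      · simpa using h3
      · have h4 : residueClass a n / (n : ℝ) ^ x ≤ residueClass a n / n := by
          refine div_le_div_of_nonneg_left (residueClass_nonneg a _) (mod_cast hn) ?_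
          conv_lhs => rw [← Real.rpow_one n]
          exact Real.rpow_le_rpow_of_exponent_le (by exact_mod_cast hn) hx.1.le
        linarith
  rw [Summable.tsum_add (summable_log14 hx.1) (summable_residueClass_non_primes_div a)] at h2
  linarith

/-- The mean value inequality. -/
lemma mean_value14 {p : ℕ} (hp : 0 < p) {x h : ℝ} :
    h * (Real.log p / (p : ℝ) ^ x) ≤ 1 / (p : ℝ) ^ (x - h) - 1 / (p : ℝ) ^ x := by
  have hp0 : (0 : ℝ) < p := by exact_mod_cast hp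
  have h1 : 1 / (p : ℝ) ^ (x - h) = (p : ℝ) ^ h / (p : ℝ) ^ x := by
    rw [Real.rpow_sub hp0, one_div_div]
  have h2 : 1 + h * Real.log p ≤ (p : ℝ) ^ h := by
    rw [Real.rpow_def_of_pos hp0]
    have := Real.add_one_le_exp (Real.log p * h)
    linarith
  rw [h1, ← sub_div, mul_div_assoc']
  apply div_le_div_of_nonneg_right _ (by positivity)
  linarith

/-- **The sum of the inverses of the primes in a residue class diverges.** -/
theorem not_summable_residue14 [NeZero q] (ha : IsUnit a) :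
    ¬ Summable fun n : ℕ => (resPrimes14 a).indicator (fun n : ℕ => (1 : ℝ) / n) n := by
  intro hS
  obtain ⟨C, hC⟩ := log_lower14 ha
  have hq : 0 < (q.totient : ℝ)⁻¹ := inv_pos.mpr (mod_cast q.totient.pos_of_neZero)
  set c : ℝ := (q.totient : ℝ)⁻¹ with hc
  have hle : ∀ x : ℝ, 1 ≤ x → ∀ n : ℕ,
      (resPrimes14 a).indicator (fun n : ℕ => (1 : ℝ) / (n : ℝ) ^ x) n ≤
        (resPrimes14 a).indicator (fun n : ℕ => (1 : ℝ) / n) n := by
    intro x hx n
    apply Set.indicator_le_indicator' (fun hn => ?_)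
    have h1 : (1 : ℝ) ≤ n := by exact_mod_cast hn.1.one_le
    apply one_div_le_one_div_of_le (by linarith)
    conv_lhs => rw [← Real.rpow_one (n : ℝ)]
    exact Real.rpow_le_rpow_of_exponent_le h1 hx
  have hsum : ∀ x : ℝ, 1 ≤ x → Summable fun n : ℕ =>
      (resPrimes14 a).indicator (fun n : ℕ => (1 : ℝ) / (n : ℝ) ^ x) n := fun x hx =>
    Summable.of_nonneg_of_le (fun n => Set.indicator_nonneg (fun n _ => by positivity) n)
      (hle x hx) hS
  let G : ℝ → ℝ := fun x => ∑' n : ℕ,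
    (resPrimes14 a).indicator (fun n : ℕ => (1 : ℝ) / (n : ℝ) ^ x) n
  have hG : ∀ x, 1 ≤ x → G x ≤ ∑' n : ℕ, (resPrimes14 a).indicator (fun n : ℕ => (1 : ℝ) / n) n :=
    fun x hx => Summable.tsum_le_tsum (hle x hx) (hsum x hx) hS
  have hG0 : ∀ x, 0 ≤ G x := fun x => tsum_nonneg fun n =>
    Set.indicator_nonneg (fun n _ => by positivity) n
  -- one step
  have hstep : ∀ x h : ℝ, 1 < x → x ≤ 2 → 0 ≤ h → 1 ≤ x - h →
      h * (c / (x - 1) - C) ≤ G (x - h) - G x := by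
    intro x h hx hx2 hh hxh
    have h1 := mul_le_mul_of_nonneg_left (hC x ⟨hx, hx2⟩) hh
    refine h1.trans ?_
    rw [← tsum_mul_left, ← (hsum _ hxh).tsum_sub (hsum _ hx.le)]
    refine Summable.tsum_le_tsum (fun n => ?_) ((summable_log14 hx).mul_left h)
      ((hsum _ hxh).sub (hsum _ hx.le))
    by_cases hn : n ∈ resPrimes14 a
    · rw [Set.indicator_of_mem hn, Set.indicator_of_mem hn, Set.indicator_of_mem hn]
      exact mean_value14 hn.1.pos
    · rw [Set.indicator_of_notMem hn, Set.indicator_of_notMem hn, Set.indicator_of_notMem hn]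
      simp
  have hind : ∀ J : ℕ, c * J / 2 - |C| * (1 - (1 / 2) ^ J) ≤ G (1 + (1 / 2) ^ J) := by
    intro J
    induction J with
    | zero =>
      simp only [Nat.cast_zero, mul_zero, zero_div, pow_zero, sub_self]
      exact hG0 _
    | succ J ih =>
      have h2 : (0 : ℝ) < (1 / 2) ^ J := by positivity
      have h3 : ((1 : ℝ) / 2) ^ J ≤ 1 := pow_le_one₀ (by norm_num) (by norm_num)
      have h4 := hstep (1 + (1 / 2) ^ J) ((1 / 2) ^ (J + 1)) (by linarith) (by linarith)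
        (by positivity) (by rw [pow_succ]; linarith)
      have h5 : (1 : ℝ) + (1 / 2) ^ J - (1 / 2) ^ (J + 1) = 1 + (1 / 2) ^ (J + 1) := by
        rw [pow_succ]
        ring
      rw [h5] at h4
      have h6 : (1 / 2 : ℝ) ^ (J + 1) * (c / (1 + (1 / 2) ^ J - 1) - C) =
          c / 2 - (1 / 2) ^ (J + 1) * C := by
        rw [add_sub_cancel_left, pow_succ]
        field_simp
      rw [h6] at h4
      have h7 : (1 / 2 : ℝ) ^ (J + 1) * C ≤ (1 / 2) ^ (J + 1) * |C| :=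
        mul_le_mul_of_nonneg_left (le_abs_self C) (by positivity)
      have h8 : |C| * (1 - (1 / 2 : ℝ) ^ J) = |C| - 2 * ((1 / 2) ^ (J + 1) * |C|) := by
        rw [pow_succ]
        ring
      have h9 : |C| * (1 - (1 / 2 : ℝ) ^ (J + 1)) = |C| - (1 / 2) ^ (J + 1) * |C| := by ring
      rw [h8] at ih
      rw [h9]
      push_cast
      linarith
  obtain ⟨J, hJ⟩ := exists_nat_gt ((∑' n : ℕ,
    (resPrimes14 a).indicator (fun n : ℕ => (1 : ℝ) / n) n + |C|) * 2 / c)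
  have h1 := (hind J).trans (hG _ (by
    have : (0 : ℝ) < (1 / 2) ^ J := by positivity
    linarith))
  rw [div_lt_iff₀ hq] at hJ
  have h2 : |C| * (1 - (1 / 2) ^ J) ≤ |C| := by
    have h3 : (0 : ℝ) < (1 / 2) ^ J := by positivity
    nlinarith [abs_nonneg C]
  linarith

/-- Finite sets of large primes in the residue class with large sums of the inverses. -/
theorem sum_residue_unbounded14 [NeZero q] (ha : IsUnit a) {c : ℝ} (hc : 0 < c) (P₀ : ℕ) (T : ℝ) :
    ∃ S : Finset ℕ, (∀ p ∈ S, p.Prime ∧ P₀ ≤ p ∧ (p : ZMod q) = a) ∧ T ≤ ∑ p ∈ S, c / p := by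
  by_contra hcon
  push Not at hcon
  apply not_summable_residue14 ha
  apply summable_of_sum_le (c := T / c + ∑ p ∈ Finset.range P₀, (1 : ℝ) / p)
  · intro n
    exact Set.indicator_nonneg (fun _ _ => by positivity) n
  · intro s
    have h1 := hcon (s.filter fun p : ℕ => p.Prime ∧ P₀ ≤ p ∧ (p : ZMod q) = a)
      fun p hp => (Finset.mem_filter.mp hp).2
    have h3 : ∑ x ∈ s, (resPrimes14 a).indicator (fun n : ℕ => (1 : ℝ) / n) x =
        ∑ x ∈ s.filter (fun p : ℕ => p.Prime ∧ (p : ZMod q) = a), (1 : ℝ) / x := by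
      rw [Finset.sum_filter]
      refine Finset.sum_congr rfl fun x _ => ?_
      by_cases hx : x ∈ resPrimes14 a
      · rw [Set.indicator_of_mem hx]; exact (if_pos hx).symm
      · rw [Set.indicator_of_notMem hx]; exact (if_neg hx).symm
    have h4 : s.filter (fun p : ℕ => p.Prime ∧ (p : ZMod q) = a) ⊆
        s.filter (fun p : ℕ => p.Prime ∧ P₀ ≤ p ∧ (p : ZMod q) = a) ∪ Finset.range P₀ := by
      intro p hp
      rw [Finset.mem_filter] at hp
      rw [Finset.mem_union, Finset.mem_filter, Finset.mem_range]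
      rcases le_or_gt P₀ p with h | h
      · exact Or.inl ⟨hp.1, hp.2.1, h, hp.2.2⟩
      · exact Or.inr h
    rw [h3]
    refine (Finset.sum_le_sum_of_subset_of_nonneg h4 fun _ _ _ => by positivity).trans ?_
    have h5 := Finset.sum_union_inter (s₁ := s.filter (fun p : ℕ => p.Prime ∧ P₀ ≤ p ∧ (p : ZMod q) = a))
      (s₂ := Finset.range P₀) (f := fun x : ℕ => (1 : ℝ) / x)
    have h6 : 0 ≤ ∑ x ∈ s.filter (fun p : ℕ => p.Prime ∧ P₀ ≤ p ∧ (p : ZMod q) = a) ∩ Finset.range P₀,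
        (1 : ℝ) / x := Finset.sum_nonneg fun _ _ => by positivity
    have h7 : ∑ x ∈ s.filter (fun p : ℕ => p.Prime ∧ P₀ ≤ p ∧ (p : ZMod q) = a), (1 : ℝ) / x ≤
        T / c := by
      rw [le_div_iff₀ hc, Finset.sum_mul]
      refine le_trans (le_of_eq ?_) h1.le
      refine Finset.sum_congr rfl fun x _ => ?_
      ring
    linarith

end

end Pool.Agent.Lib.MP_89bcae_ag

end

section

open NumberField Ideal

namespace Pool.Agent.Lib.MP_89bcae_ag.Re

/-- Proof: `absNorm I = 1` iff `I = ⊤` (`Ideal.absNorm_eq_one_iff`). -/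
theorem idealCount_one (K : Type*) [Field K] [NumberField K] : idealCount K 1 = 1 := by
  unfold idealCount
  have : Unique {I : Ideal (𝓞 K) // absNorm I = 1} :=
    { default := ⟨⊤, absNorm_eq_one_iff.2 rfl⟩
      uniq := fun I => Subtype.ext (absNorm_eq_one_iff.1 I.2) }
  exact Nat.card_unique

private theorem n02_sup (K : Type*) [Field K] [NumberField K] {m n : ℕ} (h : m.Coprime n)
    (J J' : Ideal (𝓞 K)) (hm : (m : 𝓞 K) ∈ J) (hn : (n : 𝓞 K) ∈ J') : J ⊔ J' = ⊤ := by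
  rw [eq_top_iff_one]
  have h1 : IsCoprime (m : ℤ) (n : ℤ) := Nat.isCoprime_iff_coprime.2 h
  obtain ⟨a, b, hab⟩ := h1
  have h2 : (1 : 𝓞 K) = (a : 𝓞 K) * (m : 𝓞 K) + (b : 𝓞 K) * (n : 𝓞 K) := by
    have h3 := congrArg (Int.cast : ℤ → 𝓞 K) hab
    push_cast at h3
    exact h3.symm
  rw [h2]
  exact Submodule.add_mem_sup (J.mul_mem_left _ hm) (J'.mul_mem_left _ hn)

private theorem n02_inj (K : Type*) [Field K] [NumberField K] {m n : ℕ} (h : m.Coprime n)
    (J J' : Ideal (𝓞 K)) (hm : absNorm J = m) (hn : absNorm J' = n) :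
    J * J' ⊔ span {(m : 𝓞 K)} = J := by
  have hmJ : (m : 𝓞 K) ∈ J := by rw [← hm]; exact absNorm_mem J
  have hnJ : (n : 𝓞 K) ∈ J' := by rw [← hn]; exact absNorm_mem J'
  have htop : span {(m : 𝓞 K)} ⊔ J' = ⊤ :=
    n02_sup K h _ _ (mem_span_singleton_self _) hnJ
  apply le_antisymm
  · exact sup_le mul_le_left ((span_singleton_le_iff_mem _).2 hmJ)
  · calc J = J * (span {(m : 𝓞 K)} ⊔ J') := by rw [htop, mul_top]
      _ = J * span {(m : 𝓞 K)} ⊔ J * J' := mul_sup _ _ _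
      _ ≤ J * J' ⊔ span {(m : 𝓞 K)} := sup_le (le_sup_of_le_right mul_le_right) le_sup_left

/-- Proof: the map `(J, J') ↦ J * J'` from pairs of ideals of norms `m`, `n` to ideals of norm `m n`
(`map_mul` of `absNorm`) is a bijection. Surjective: `I` of norm `m n`; `m n ∈ I`
(`Ideal.absNorm_mem`); put `J = I ⊔ span {m}`, `J' = I ⊔ span {n}`; as `m`, `n` are coprime,
`J ⊔ J' = ⊤`, and `J * J' ≤ I` (all four products lie in `I`), `I ≤ J ⊓ J' = J * J'`
(`Ideal.mul_eq_inf_of_coprime`). `J` contains `m`, so it divides `span {m}` and `absNorm J` divides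
`m ^ [K:ℚ]`; so it is prime to `n` and divides `m`; the same for `J'`; as the product is `m n`, both
are equalities (treat `m = 0` or `n = 0` apart: then the other one is `1`). Injective:
`J = J * J' ⊔ span {m}` if `absNorm J = m`, `absNorm J' = n`, because `J' ⊔ span {m} = ⊤`
(it contains `n` and `m`) and `m ∈ J`. -/
theorem idealCount_mul (K : Type*) [Field K] [NumberField K] {m n : ℕ} (h : m.Coprime n) :
    idealCount K (m * n) = idealCount K m * idealCount K n := by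
  rcases Nat.eq_zero_or_pos m with rfl | hm0
  · have : n = 1 := by simpa using h
    rw [this, mul_one, idealCount_one, mul_one]
  rcases Nat.eq_zero_or_pos n with rfl | hn0
  · have : m = 1 := by simpa using h
    rw [this, one_mul, idealCount_one, one_mul]
  unfold idealCount
  rw [← Nat.card_prod]
  symm
  refine Nat.card_congr (Equiv.ofBijective
    (fun p : {I : Ideal (𝓞 K) // absNorm I = m} × {I : Ideal (𝓞 K) // absNorm I = n} =>
      (⟨p.1.1 * p.2.1, by rw [map_mul, p.1.2, p.2.2]⟩ : {I : Ideal (𝓞 K) // absNorm I = m * n}))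
    ⟨?_, ?_⟩)
  · rintro ⟨⟨J, hJ⟩, ⟨J', hJ'⟩⟩ ⟨⟨I, hI⟩, ⟨I', hI'⟩⟩ e
    have e' : J * J' = I * I' := congrArg Subtype.val e
    have h1 : J = I := by
      rw [← n02_inj K h J J' hJ hJ', ← n02_inj K h I I' hI hI', e']
    have h2 : J' = I' := by
      rw [← n02_inj K h.symm J' J hJ' hJ, ← n02_inj K h.symm I' I hI' hI, mul_comm J' J,
        mul_comm I' I, e']
    subst h1 h2
    rfl
  · rintro ⟨I, hI⟩
    have hmn : (m : 𝓞 K) * (n : 𝓞 K) ∈ I := by
      have := absNorm_mem I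
      rw [hI, Nat.cast_mul] at this
      exact this
    have hmJ : (m : 𝓞 K) ∈ I ⊔ span {(m : 𝓞 K)} :=
      Ideal.mem_sup_right (mem_span_singleton_self _)
    have hnJ : (n : 𝓞 K) ∈ I ⊔ span {(n : 𝓞 K)} :=
      Ideal.mem_sup_right (mem_span_singleton_self _)
    have htop := n02_sup K h _ _ hmJ hnJ
    have hprod : (I ⊔ span {(m : 𝓞 K)}) * (I ⊔ span {(n : 𝓞 K)}) = I := by
      apply le_antisymm
      · rw [Ideal.sup_mul, Ideal.mul_sup, Ideal.mul_sup]
        refine sup_le (sup_le mul_le_left mul_le_left) (sup_le mul_le_right ?_)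
        rw [span_singleton_mul_span_singleton, span_singleton_le_iff_mem]
        exact hmn
      · rw [mul_eq_inf_of_coprime htop]
        exact le_inf le_sup_left le_sup_left
    have hnorm : absNorm (I ⊔ span {(m : 𝓞 K)}) * absNorm (I ⊔ span {(n : 𝓞 K)}) = m * n := by
      rw [← map_mul, hprod, hI]
    have hd1 : absNorm (I ⊔ span {(m : 𝓞 K)}) ∣ m := by
      have h1 : absNorm (I ⊔ span {(m : 𝓞 K)}) ∣ m ^ Module.finrank ℤ (𝓞 K) := by
        rw [← absNorm_span_natCast]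
        exact absNorm_dvd_absNorm_of_le le_sup_right
      have h2 : (absNorm (I ⊔ span {(m : 𝓞 K)})).Coprime n :=
        Nat.Coprime.coprime_dvd_left h1 (h.pow_left _)
      exact h2.dvd_of_dvd_mul_right (hnorm ▸ Dvd.intro _ rfl)
    have hd2 : absNorm (I ⊔ span {(n : 𝓞 K)}) ∣ n := by
      have h1 : absNorm (I ⊔ span {(n : 𝓞 K)}) ∣ n ^ Module.finrank ℤ (𝓞 K) := by
        rw [← absNorm_span_natCast]
        exact absNorm_dvd_absNorm_of_le le_sup_right
      have h2 : (absNorm (I ⊔ span {(n : 𝓞 K)})).Coprime m :=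
        Nat.Coprime.coprime_dvd_left h1 (h.symm.pow_left _)
      exact h2.dvd_of_dvd_mul_left (hnorm ▸ Dvd.intro_left _ rfl)
    have hl1 := Nat.le_of_dvd hm0 hd1
    have hl2 := Nat.le_of_dvd hn0 hd2
    have he1 : absNorm (I ⊔ span {(m : 𝓞 K)}) = m := by
      by_contra hne
      have h3 : absNorm (I ⊔ span {(m : 𝓞 K)}) < m := lt_of_le_of_ne hl1 hne
      have h4 : absNorm (I ⊔ span {(m : 𝓞 K)}) * absNorm (I ⊔ span {(n : 𝓞 K)}) < m * n :=
        lt_of_le_of_lt (Nat.mul_le_mul_left _ hl2) (Nat.mul_lt_mul_of_pos_right h3 hn0)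
      omega
    have he2 : absNorm (I ⊔ span {(n : 𝓞 K)}) = n := by
      rw [he1] at hnorm
      exact Nat.eq_of_mul_eq_mul_left hm0 hnorm
    exact ⟨(⟨_, he1⟩, ⟨_, he2⟩), Subtype.ext hprod⟩

end Pool.Agent.Lib.MP_89bcae_ag.Re

end

section

open NumberField Ideal

namespace Pool.Agent.Lib.MP_89bcae_ag.Re

/-- Proof: let `P` be the set of the maximal ideals of `𝓞 K` containing `q`; it is finite with at
most `[K:ℚ]` elements (`Ideal.primesOver`, `Ideal.sum_ramification_inertia`, or: the norm of their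
product divides `q ^ [K:ℚ]` and each has norm at least `q`). If `absNorm I = q ^ e`, all the prime
divisors of `I` are in `P` (`q ^ e ∈ I`) and each occurs at most `e` times (its norm is at least `q`,
as the norm is a power of `q` different from `1`). So `I` is determined by the function `P → Fin (e+1)`
of its multiplicities (`normalizedFactors`). -/
theorem idealCount_prime_pow_le (K : Type*) [Field K] [NumberField K] {q : ℕ} (hq : q.Prime)
    (e : ℕ) : idealCount K (q ^ e) ≤ (e + 1) ^ Module.finrank ℚ K := by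
  classical
  have hq0 : (q : 𝓞 K) ≠ 0 := by
    have : (q : ℕ) ≠ 0 := hq.ne_zero
    exact_mod_cast this
  have hS0 : (span {(q : 𝓞 K)} : Ideal (𝓞 K)) ≠ ⊥ := by
    rw [Ne, span_singleton_eq_bot]; exact hq0
  have hSn : absNorm (span {(q : 𝓞 K)} : Ideal (𝓞 K)) = q ^ Module.finrank ℚ K := by
    rw [absNorm_span_natCast, RingOfIntegers.rank]
  -- primes over q
  obtain ⟨P, hPdef⟩ : ∃ P : Finset (Ideal (𝓞 K)),
      P = (UniqueFactorizationMonoid.normalizedFactors (span {(q : 𝓞 K)} : Ideal (𝓞 K))).toFinset :=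
    ⟨_, rfl⟩
  have hPmem : ∀ p : Ideal (𝓞 K), p ∈ P ↔ p.IsPrime ∧ span {(q : 𝓞 K)} ≤ p := by
    intro p
    rw [hPdef, Multiset.mem_toFinset, Ideal.mem_normalizedFactors_iff hS0]
  have hnorm : ∀ (p : Ideal (𝓞 K)) (k : ℕ), p.IsPrime → absNorm p ∣ q ^ k → q ≤ absNorm p := by
    intro p k hp hd
    have h1 : absNorm p ≠ 1 := by
      rw [Ne, Ideal.absNorm_eq_one_iff]; exact hp.ne_top
    obtain ⟨j, -, hj⟩ := (Nat.dvd_prime_pow hq).1 hd
    rw [hj]
    have hj0 : j ≠ 0 := by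
      rintro rfl
      rw [pow_zero] at hj
      exact h1 hj
    calc q = q ^ 1 := (pow_one q).symm
      _ ≤ q ^ j := Nat.pow_le_pow_right hq.pos (Nat.one_le_iff_ne_zero.2 hj0)
  have hPcard : P.card ≤ Module.finrank ℚ K := by
    have hprod : P.val.prod ∣ span {(q : 𝓞 K)} := by
      have h1 : P.val.prod ∣
          (UniqueFactorizationMonoid.normalizedFactors (span {(q : 𝓞 K)} : Ideal (𝓞 K))).prod := by
        rw [hPdef, Multiset.toFinset_val]
        exact Multiset.prod_dvd_prod_of_le (Multiset.dedup_le _)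
      rwa [Ideal.prod_normalizedFactors_eq_self hS0] at h1
    have hnd : absNorm P.val.prod ∣ q ^ Module.finrank ℚ K := by
      rw [← hSn]
      exact _root_.map_dvd absNorm hprod
    have hnp : absNorm P.val.prod = ∏ p ∈ P, absNorm p := by
      rw [map_multiset_prod]; rfl
    have hge : q ^ P.card ≤ ∏ p ∈ P, absNorm p := by
      rw [← Finset.prod_const]
      apply Finset.prod_le_prod'
      intro p hp
      have hp' := (hPmem p).1 hp
      apply hnorm p (Module.finrank ℚ K) hp'.1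
      rw [← hSn]
      exact Ideal.absNorm_dvd_absNorm_of_le hp'.2
    have hle : q ^ P.card ≤ q ^ Module.finrank ℚ K :=
      hge.trans (hnp ▸ Nat.le_of_dvd (pow_pos hq.pos _) hnd)
    exact (Nat.pow_le_pow_iff_right hq.one_lt).1 hle
  -- facts on ideals of norm q^e
  have hI0 : ∀ I : Ideal (𝓞 K), absNorm I = q ^ e → I ≠ ⊥ := by
    intro I hI h0
    rw [h0, Ideal.absNorm_bot] at hI
    exact (pow_ne_zero e hq.ne_zero) hI.symm
  have hsupp : ∀ I : Ideal (𝓞 K), absNorm I = q ^ e →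
      ∀ p ∈ UniqueFactorizationMonoid.normalizedFactors I, p ∈ P := by
    intro I hI p hp
    have hp' := (Ideal.mem_normalizedFactors_iff (hI0 I hI)).1 hp
    rw [hPmem]
    refine ⟨hp'.1, ?_⟩
    rw [Ideal.span_singleton_le_iff_mem]
    have h1 : ((q : 𝓞 K)) ^ e ∈ p := by
      have h2 := hp'.2 (Ideal.absNorm_mem I)
      rw [hI] at h2
      simpa using h2
    exact hp'.1.mem_of_pow_mem e h1
  have hcount : ∀ I : Ideal (𝓞 K), absNorm I = q ^ e → ∀ p : Ideal (𝓞 K),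
      (UniqueFactorizationMonoid.normalizedFactors I).count p < e + 1 := by
    intro I hI p
    by_cases hp : p ∈ UniqueFactorizationMonoid.normalizedFactors I
    · have hp' := (Ideal.mem_normalizedFactors_iff (hI0 I hI)).1 hp
      set c := (UniqueFactorizationMonoid.normalizedFactors I).count p with hc
      have h1 : p ^ c ∣ I := by
        have h2 : (Multiset.replicate c p).prod ∣
            (UniqueFactorizationMonoid.normalizedFactors I).prod :=
          Multiset.prod_dvd_prod_of_le (Multiset.le_count_iff_replicate_le.1 le_rfl)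
        rwa [Multiset.prod_replicate, Ideal.prod_normalizedFactors_eq_self (hI0 I hI)] at h2
      have h3 : absNorm p ^ c ∣ q ^ e := by
        rw [← hI, ← map_pow]
        exact _root_.map_dvd absNorm h1
      have h4 : q ≤ absNorm p := by
        apply hnorm p e hp'.1
        rw [← hI]
        exact Ideal.absNorm_dvd_absNorm_of_le hp'.2
      have h5 : q ^ c ≤ q ^ e :=
        (Nat.pow_le_pow_left h4 c).trans (Nat.le_of_dvd (pow_pos hq.pos _) h3)
      have h6 := (Nat.pow_le_pow_iff_right hq.one_lt).1 h5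
      omega
    · rw [Multiset.count_eq_zero_of_notMem hp]
      omega
  let F : {I : Ideal (𝓞 K) // absNorm I = q ^ e} → (P → Fin (e + 1)) :=
    fun I p => ⟨(UniqueFactorizationMonoid.normalizedFactors I.1).count p.1, hcount I.1 I.2 p.1⟩
  have hF : Function.Injective F := by
    intro I J hIJ
    apply Subtype.ext
    have h1 : UniqueFactorizationMonoid.normalizedFactors I.1 =
        UniqueFactorizationMonoid.normalizedFactors J.1 := by
      ext p
      by_cases hp : p ∈ P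
      · have h2 := congrFun hIJ ⟨p, hp⟩
        have h3 := congrArg Fin.val h2
        exact h3
      · rw [Multiset.count_eq_zero_of_notMem (fun h => hp (hsupp I.1 I.2 p h)),
          Multiset.count_eq_zero_of_notMem (fun h => hp (hsupp J.1 J.2 p h))]
    rw [← Ideal.prod_normalizedFactors_eq_self (hI0 I.1 I.2), h1,
      Ideal.prod_normalizedFactors_eq_self (hI0 J.1 J.2)]
  unfold idealCount
  calc Nat.card {I : Ideal (𝓞 K) // absNorm I = q ^ e} ≤ Nat.card (P → Fin (e + 1)) :=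
        Nat.card_le_card_of_injective F hF
    _ = (e + 1) ^ P.card := by simp
    _ ≤ (e + 1) ^ Module.finrank ℚ K := Nat.pow_le_pow_right (Nat.succ_pos e) hPcard

end Pool.Agent.Lib.MP_89bcae_ag.Re

end

section

open NumberField Ideal Filter Topology

namespace Pool.Agent.Lib.MP_89bcae_ag.Re

/-- The average number of ideals of given norm. -/
private theorem N04a_lim (K : Type*) [Field K] [NumberField K] :
    Tendsto (fun n : ℕ => (∑ k ∈ Finset.Icc 1 n, (idealCount K k : ℝ)) / n) atTop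
      (𝓝 (dedekindZeta_residue K)) := by
  refine ((Ideal.tendsto_norm_le_div_atTop₀ K).comp tendsto_natCast_atTop_atTop).congr fun n ↦ ?_
  simp only [Function.comp_apply, Nat.cast_le, ← Nat.cast_sum, idealCount]
  congr
  rw [← add_left_inj 1, ← card_norm_le_eq_card_norm_le_add_one,
    show Finset.Icc 1 n = Finset.Ioc 0 n from Finset.Icc_succ_left_eq_Ioc _ _,
    show 1 = Nat.card {I : Ideal (𝓞 K) // absNorm I = 0} by simp [Ideal.absNorm_eq_zero_iff],
    Finset.sum_Ioc_add_eq_sum_Icc (n.zero_le),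
    ← Finset.card_preimage_eq_sum_card_image_eq (fun k _ ↦ finite_setOfPred_absNorm_eq k)]
  simp [Set.coe_eq_subtype]

private theorem N04a_bigO (K : Type*) [Field K] [NumberField K] :
    (fun n : ℕ => ∑ k ∈ Finset.Icc 1 n, (idealCount K k : ℝ)) =O[atTop] fun n : ℕ => (n : ℝ) ^ (1 : ℝ) := by
  have h1 : (fun n : ℕ => ∑ k ∈ Finset.Icc 1 n, (idealCount K k : ℝ)) =O[atTop] fun n : ℕ => (n : ℝ) := by
    refine Asymptotics.isBigO_of_div_tendsto_nhds ?_ (dedekindZeta_residue K) (N04a_lim K)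
    filter_upwards [eventually_gt_atTop 0] with n hn h
    exact absurd h (Nat.cast_ne_zero.2 hn.ne')
  simpa only [Real.rpow_one] using h1

/-- Proof: the partial sums of `idealCount K` are `O(n)`
(`NumberField.Ideal.tendsto_norm_le_div_atTop₀`; see the proof of
`NumberField.tendsto_sub_one_mul_dedekindZeta_nhdsGT` in Mathlib, file
`NumberTheory/NumberField/DedekindZeta`), so the series converges for `s > 1`
(`LSeriesSummable_of_sum_norm_bigO` or a similar lemma of `NumberTheory/LSeries/SumCoeff`); pass to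
real numbers with `LSeriesSummable`, `LSeries.norm_term_eq` and the like (the term at `n = 0` is
zero on both sides because `0 ^ (-s) = 0`). -/
theorem zetaR_summable (K : Type*) [Field K] [NumberField K] {s : ℝ} (hs : 1 < s) :
    Summable fun n : ℕ => (idealCount K n : ℝ) * (n : ℝ) ^ (-s) := by
  have h := LSeriesSummable_of_sum_norm_bigO_and_nonneg (s := (s : ℂ)) (N04a_bigO K)
    (fun n => Nat.cast_nonneg _) zero_le_one (by rwa [Complex.ofReal_re])
  refine h.norm.congr fun n => ?_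
  rw [LSeries.norm_term_eq, Complex.ofReal_re]
  split_ifs with hn
  · rw [hn, Nat.cast_zero, Real.zero_rpow (by linarith), mul_zero]
  · rw [Real.rpow_neg (Nat.cast_nonneg n), Complex.norm_real, Real.norm_of_nonneg (Nat.cast_nonneg _), div_eq_mul_inv]

private theorem zetaR_ofReal (K : Type*) [Field K] [NumberField K] {s : ℝ} (hs : s ≠ 0) :
    dedekindZeta K s = ((zetaR K s : ℝ) : ℂ) := by
  unfold dedekindZeta LSeries zetaR
  rw [Complex.ofReal_tsum]
  refine tsum_congr fun n => ?_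
  rcases Nat.eq_zero_or_pos n with hn | hn
  · subst hn
    rw [LSeries.term_zero, Nat.cast_zero, Real.zero_rpow (neg_ne_zero.2 hs), mul_zero, Complex.ofReal_zero]
  · rw [LSeries.term_of_ne_zero hn.ne', Complex.ofReal_mul, Complex.ofReal_natCast,
      Complex.ofReal_cpow (Nat.cast_nonneg n), Complex.ofReal_natCast, Complex.ofReal_neg, Complex.cpow_neg, div_eq_mul_inv]
    rfl

/-- Proof: for real `s` the number `dedekindZeta K s` is the real number `zetaR K s` (for all `s`, the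
terms agree: `LSeries.term`, `Complex.ofReal_cpow`, the term at `n = 0` is zero on both sides for
`s ≠ 0`, `Complex.ofReal_tsum`), and `tendsto_sub_one_mul_dedekindZeta_nhdsGT`. -/
theorem zetaR_tendsto (K : Type*) [Field K] [NumberField K] :
    Tendsto (fun s : ℝ => (s - 1) * zetaR K s) (𝓝[>] 1) (𝓝 (dedekindZeta_residue K)) := by
  have h := tendsto_sub_one_mul_dedekindZeta_nhdsGT K
  have h2 := (Complex.continuous_re.tendsto _).comp h
  rw [Complex.ofReal_re] at h2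
  refine h2.congr' ?_
  filter_upwards [self_mem_nhdsWithin] with s hs
  have hs1 : (1 : ℝ) < s := hs
  have hs0 : s ≠ 0 := by
    intro h0
    rw [h0] at hs1
    exact absurd hs1 (by norm_num)
  rw [Function.comp_apply, zetaR_ofReal K hs0]
  have h3 : ((s : ℂ) - 1) * ((zetaR K s : ℝ) : ℂ) = (((s - 1) * zetaR K s : ℝ) : ℂ) := by
    rw [Complex.ofReal_mul, Complex.ofReal_sub, Complex.ofReal_one]
  rw [h3, Complex.ofReal_re]

end Pool.Agent.Lib.MP_89bcae_ag.Re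

end

section

open Filter Topology

namespace Pool.Agent.Lib.MP_89bcae_ag.Re

/-- Comparison of two Euler factors with `ℓ u(1) ≤ w(1)`. Proof: let `x = u 1 * q ^ (-s)`, so
`0 ≤ x ≤ 2 ^ d / q`. By `factor_le` the left side is at most
`(1 + x + C / q²) ^ ℓ ≤ exp (ℓ x + ℓ C / q²)` and by `exp_le_one_add_mul_exp_sq`
`exp (ℓ x) ≤ (1 + ℓ x) exp ((ℓ x)²)`, where `(ℓ x)² ≤ ℓ² 4 ^ d / q²`; finally
`1 + ℓ x ≤ 1 + w 1 * q ^ (-s) ≤ ∑' e, w e * (q ^ e) ^ (-s)` (`summable_factor`, nonnegative terms,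
`Summable.sum_le_tsum` for `{0, 1}`). -/
theorem factor_compare (d d' ℓ : ℕ) : ∃ C : ℝ, 0 ≤ C ∧ ∀ (u w : ℕ → ℝ), (∀ e, 0 ≤ u e) →
    (∀ e, 0 ≤ w e) → u 0 = 1 → w 0 = 1 → (∀ e, u e ≤ ((e : ℝ) + 1) ^ d) →
    (∀ e, w e ≤ ((e : ℝ) + 1) ^ d') → (ℓ : ℝ) * u 1 ≤ w 1 →
    ∀ (q : ℕ), 2 ≤ q → ∀ s : ℝ, 1 < s →
      (∑' e : ℕ, u e * ((q ^ e : ℕ) : ℝ) ^ (-s)) ^ ℓ ≤
        Real.exp (C / (q : ℝ) ^ 2) * ∑' e : ℕ, w e * ((q ^ e : ℕ) : ℝ) ^ (-s) := by
  obtain ⟨C0, hC0, hfac⟩ := factor_le d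
  refine ⟨(ℓ : ℝ) * C0 + (ℓ : ℝ) ^ 2 * 4 ^ d, by positivity, ?_⟩
  intro u w hu0 hw0 hu1 hw1 hud hwd hlw q hq s hs
  have hqR : (2 : ℝ) ≤ q := by exact_mod_cast hq
  have hqpos : (0 : ℝ) < q := by linarith
  have hps : (q : ℝ) ^ (-s) ≤ 1 / q := by
    rw [one_div, ← Real.rpow_neg_one]
    exact Real.rpow_le_rpow_of_exponent_le (by linarith) (by linarith)
  have hps0 : 0 ≤ (q : ℝ) ^ (-s) := (Real.rpow_pos_of_pos hqpos _).le
  have hu1d : u 1 ≤ 2 ^ d := by
    have h := hud 1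
    norm_num at h
    exact h
  have hx0 : 0 ≤ u 1 * (q : ℝ) ^ (-s) := mul_nonneg (hu0 1) hps0
  have hx1 : u 1 * (q : ℝ) ^ (-s) ≤ 2 ^ d / q := by
    calc u 1 * (q : ℝ) ^ (-s) ≤ 2 ^ d * (1 / q) :=
          mul_le_mul hu1d hps hps0 (by positivity)
      _ = 2 ^ d / q := by ring
  have hF := hfac u hu0 hu1 hud q hq s hs
  set x := u 1 * (q : ℝ) ^ (-s) with hx
  have hT0 : 0 ≤ ∑' e : ℕ, u e * ((q ^ e : ℕ) : ℝ) ^ (-s) :=
    tsum_nonneg fun e => mul_nonneg (hu0 e) (Real.rpow_nonneg (Nat.cast_nonneg _) _)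
  have hc0 : 0 ≤ C0 / (q : ℝ) ^ 2 := by positivity
  have h1 : (∑' e : ℕ, u e * ((q ^ e : ℕ) : ℝ) ^ (-s)) ^ ℓ ≤
      Real.exp ((ℓ : ℝ) * x) * Real.exp ((ℓ : ℝ) * (C0 / (q : ℝ) ^ 2)) := by
    calc (∑' e : ℕ, u e * ((q ^ e : ℕ) : ℝ) ^ (-s)) ^ ℓ ≤
          (Real.exp (x + C0 / (q : ℝ) ^ 2)) ^ ℓ := by
          refine pow_le_pow_left₀ hT0 (hF.trans ?_) ℓ
          have := Real.add_one_le_exp (x + C0 / (q : ℝ) ^ 2)
          linarith
      _ = Real.exp ((ℓ : ℝ) * x) * Real.exp ((ℓ : ℝ) * (C0 / (q : ℝ) ^ 2)) := by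
          rw [← Real.exp_nat_mul, ← Real.exp_add]
          congr 1
          ring
  have h2 : Real.exp ((ℓ : ℝ) * x) ≤ (1 + (ℓ : ℝ) * x) * Real.exp (((ℓ : ℝ) * x) ^ 2) :=
    exp_le_one_add_mul_exp_sq (by positivity)
  have h3 : ((ℓ : ℝ) * x) ^ 2 ≤ (ℓ : ℝ) ^ 2 * 4 ^ d / (q : ℝ) ^ 2 := by
    calc ((ℓ : ℝ) * x) ^ 2 ≤ ((ℓ : ℝ) * (2 ^ d / q)) ^ 2 := by
          refine pow_le_pow_left₀ (by positivity) ?_ 2
          exact mul_le_mul_of_nonneg_left hx1 (Nat.cast_nonneg _)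
      _ = (ℓ : ℝ) ^ 2 * 4 ^ d / (q : ℝ) ^ 2 := by
          rw [mul_pow, div_pow, ← pow_mul, mul_comm d 2, pow_mul]
          norm_num
          ring
  have h4 : 1 + (ℓ : ℝ) * x ≤ ∑' e : ℕ, w e * ((q ^ e : ℕ) : ℝ) ^ (-s) := by
    have hsum := summable_factor d' hw0 hwd hq hs
    have h5 := hsum.sum_le_tsum {0, 1}
      (fun e _ => mul_nonneg (hw0 e) (Real.rpow_nonneg (Nat.cast_nonneg _) _))
    rw [Finset.sum_pair (by norm_num)] at h5
    simp only [pow_zero, pow_one, Nat.cast_one, Real.one_rpow, mul_one, hw1] at h5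
    refine le_trans ?_ h5
    have h6 : (ℓ : ℝ) * x ≤ w 1 * (q : ℝ) ^ (-s) := by
      rw [hx, ← mul_assoc]
      exact mul_le_mul_of_nonneg_right hlw hps0
    linarith
  have hlx : 0 ≤ 1 + (ℓ : ℝ) * x := by positivity
  calc (∑' e : ℕ, u e * ((q ^ e : ℕ) : ℝ) ^ (-s)) ^ ℓ ≤
        Real.exp ((ℓ : ℝ) * x) * Real.exp ((ℓ : ℝ) * (C0 / (q : ℝ) ^ 2)) := h1
    _ ≤ ((1 + (ℓ : ℝ) * x) * Real.exp ((ℓ : ℝ) ^ 2 * 4 ^ d / (q : ℝ) ^ 2)) *
        Real.exp ((ℓ : ℝ) * (C0 / (q : ℝ) ^ 2)) := by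
        refine mul_le_mul_of_nonneg_right (h2.trans ?_) (Real.exp_pos _).le
        exact mul_le_mul_of_nonneg_left (Real.exp_le_exp.2 h3) hlx
    _ = Real.exp (((ℓ : ℝ) * C0 + (ℓ : ℝ) ^ 2 * 4 ^ d) / (q : ℝ) ^ 2) * (1 + (ℓ : ℝ) * x) := by
        rw [mul_assoc, ← Real.exp_add, mul_comm]
        congr 2
        ring
    _ ≤ _ := mul_le_mul_of_nonneg_left h4 (Real.exp_pos _).le

private lemma n06b_pow {q : ℕ} (hq : 2 ≤ q) {s : ℝ} (hs : 1 < s) (e : ℕ) :
    ((q ^ e : ℕ) : ℝ) ^ (-s) ≤ (1 / 2) ^ e := by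
  have hq1 : 1 ≤ q ^ e := Nat.one_le_pow _ _ (by omega)
  have hq1' : (1 : ℝ) ≤ ((q ^ e : ℕ) : ℝ) := by exact_mod_cast hq1
  have h1 : ((q ^ e : ℕ) : ℝ) ^ (-s) ≤ ((q ^ e : ℕ) : ℝ) ^ (-1 : ℝ) :=
    Real.rpow_le_rpow_of_exponent_le hq1' (by linarith)
  have h2 : ((q ^ e : ℕ) : ℝ) ^ (-1 : ℝ) = (((q ^ e : ℕ) : ℝ))⁻¹ := Real.rpow_neg_one _
  have h3 : (((q ^ e : ℕ) : ℝ))⁻¹ ≤ (1 / 2) ^ e := by
    rw [one_div, inv_pow]
    apply inv_anti₀ (by positivity)
    push_cast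
    exact pow_le_pow_left₀ (by norm_num) (by exact_mod_cast hq) e
  rw [h2] at h1
  exact h1.trans h3

private lemma n06b_sum (d : ℕ) : Summable fun e : ℕ => ((e : ℝ) + 1) ^ d * (1 / 2) ^ e := by
  have h1 : Summable fun n : ℕ => (n : ℝ) ^ d * (1 / 2 : ℝ) ^ n :=
    summable_pow_mul_geometric_of_norm_lt_one d (by rw [Real.norm_eq_abs, abs_of_pos] <;> norm_num)
  have h2 := ((summable_nat_add_iff 1).2 h1).mul_left 2
  refine h2.congr fun e => ?_
  push_cast
  rw [pow_succ]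
  ring

/-- The same without the condition on `u 1`, `w 1`, with a constant which does not depend on `q`.
Proof: the left side is at most `(∑' e, (e+1)^d 2^(-e)) ^ ℓ` (a constant), the series on the right is
at least its term at `e = 0`, which is `1`. -/
theorem factor_compare_bad (d d' ℓ : ℕ) : ∃ C : ℝ, 1 ≤ C ∧ ∀ (u w : ℕ → ℝ), (∀ e, 0 ≤ u e) →
    (∀ e, 0 ≤ w e) → u 0 = 1 → w 0 = 1 → (∀ e, u e ≤ ((e : ℝ) + 1) ^ d) →
    (∀ e, w e ≤ ((e : ℝ) + 1) ^ d') →
    ∀ (q : ℕ), 2 ≤ q → ∀ s : ℝ, 1 < s →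
      (∑' e : ℕ, u e * ((q ^ e : ℕ) : ℝ) ^ (-s)) ^ ℓ ≤
        C * ∑' e : ℕ, w e * ((q ^ e : ℕ) : ℝ) ^ (-s) := by
  refine ⟨max 1 ((∑' e : ℕ, ((e : ℝ) + 1) ^ d * (1 / 2) ^ e) ^ ℓ), le_max_left _ _, ?_⟩
  intro u w hu0 hw0 _ hw1 hu hw q hq s hs
  have h0 : ∀ e : ℕ, 0 ≤ u e * ((q ^ e : ℕ) : ℝ) ^ (-s) := fun e =>
    mul_nonneg (hu0 e) (Real.rpow_nonneg (Nat.cast_nonneg _) _)
  have h1 : (∑' e : ℕ, u e * ((q ^ e : ℕ) : ℝ) ^ (-s)) ≤ ∑' e : ℕ, ((e : ℝ) + 1) ^ d * (1 / 2) ^ e := by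
    refine Summable.tsum_le_tsum (fun e => ?_) (summable_factor d hu0 hu hq hs) (n06b_sum d)
    exact mul_le_mul (hu e) (n06b_pow hq hs e) (Real.rpow_nonneg (Nat.cast_nonneg _) _)
      (pow_nonneg (by positivity) _)
  have h2 : (∑' e : ℕ, u e * ((q ^ e : ℕ) : ℝ) ^ (-s)) ^ ℓ ≤
      max 1 ((∑' e : ℕ, ((e : ℝ) + 1) ^ d * (1 / 2) ^ e) ^ ℓ) :=
    (pow_le_pow_left₀ (tsum_nonneg h0) h1 ℓ).trans (le_max_right _ _)
  have h3 : 1 ≤ ∑' e : ℕ, w e * ((q ^ e : ℕ) : ℝ) ^ (-s) := by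
    have h4 := (summable_factor d' hw0 hw hq hs).sum_le_tsum {0}
      (fun e _ => mul_nonneg (hw0 e) (Real.rpow_nonneg (Nat.cast_nonneg _) _))
    rw [Finset.sum_singleton, hw1, pow_zero, Nat.cast_one, Real.one_rpow, mul_one] at h4
    exact h4
  have h5 : (0 : ℝ) ≤ max 1 ((∑' e : ℕ, ((e : ℝ) + 1) ^ d * (1 / 2) ^ e) ^ ℓ) :=
    zero_le_one.trans (le_max_left _ _)
  exact h2.trans (le_mul_of_one_le_right h5 h3)

end Pool.Agent.Lib.MP_89bcae_ag.Re

end

section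

open NumberField Ideal

namespace Pool.Agent.Lib.MP_89bcae_ag.Re

/-- Proof: a ring homomorphism is determined by its restriction to a finite set of generators of the
`ℤ`-module `𝓞 K`; or it is determined by its kernel, see below. -/
theorem finite_ringHom (K : Type*) [Field K] [NumberField K] (q : ℕ) [Fact q.Prime] :
    Finite (𝓞 K →+* ZMod q) := by
  obtain ⟨s, hs⟩ := (inferInstance : Module.Finite ℤ (𝓞 K)).fg_top
  refine Finite.of_injective
    (fun (φ : 𝓞 K →+* ZMod q) => (fun x : (s : Set (𝓞 K)) => φ x.1)) ?_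
  intro φ ψ h
  have h1 : φ.toAddMonoidHom.toIntLinearMap = ψ.toAddMonoidHom.toIntLinearMap := by
    apply LinearMap.ext_on hs
    intro x hx
    exact congrFun h ⟨x, hx⟩
  ext x
  exact LinearMap.congr_fun h1 x

/-- A ring homomorphism to `ZMod q` is surjective. -/
theorem surj_of_ringHom {R : Type*} [CommRing R] (q : ℕ) [Fact q.Prime] (φ : R →+* ZMod q) :
    Function.Surjective φ := by
  intro x
  exact ⟨((ZMod.val x : ℕ) : R), by simp⟩

/-- The kernel of a ring homomorphism to `ZMod q` has norm `q`. -/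
theorem absNorm_ker (K : Type*) [Field K] [NumberField K] (q : ℕ) [Fact q.Prime]
    (φ : 𝓞 K →+* ZMod q) : absNorm (RingHom.ker φ) = q := by
  rw [Ideal.absNorm_apply, Submodule.cardQuot_apply]
  have e := RingHom.quotientKerEquivOfSurjective (surj_of_ringHom q φ)
  have h := Nat.card_congr e.toEquiv
  rw [Nat.card_zmod] at h
  exact h

/-- Proof: `φ ↦ ker φ` is a bijection from the ring homomorphisms to the ideals of norm `q`. The
homomorphism `φ` is surjective (`ZMod q` is generated by `1`), so the quotient by the kernel has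
`q` elements (`Ideal.absNorm_apply`, `Submodule.cardQuot`). Injective: if `ker φ = ker ψ` then for
each `x` there is an integer `n` with `φ x = n = φ n`, so `x - n ∈ ker φ = ker ψ` and `ψ x = n`.
Surjective: an ideal `I` of norm `q` is maximal or: the quotient ring has `q` elements, so it is
isomorphic to `ZMod q` (`ZMod.ringEquivOfPrime` or `ZMod.ringEquiv`), compose with the quotient map. -/
theorem idealCount_eq_card (K : Type*) [Field K] [NumberField K] (q : ℕ) [Fact q.Prime] :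
    idealCount K q = Nat.card (𝓞 K →+* ZMod q) := by
  unfold idealCount
  symm
  refine Nat.card_eq_of_bijective
    (fun φ : 𝓞 K →+* ZMod q => (⟨RingHom.ker φ, absNorm_ker K q φ⟩ :
      {I : Ideal (𝓞 K) // absNorm I = q})) ⟨?_, ?_⟩
  · intro φ ψ h
    have hk : RingHom.ker φ = RingHom.ker ψ := congrArg Subtype.val h
    ext x
    have h1 : x - ((ZMod.val (φ x) : ℕ) : 𝓞 K) ∈ RingHom.ker φ := by
      rw [RingHom.mem_ker]
      simp
    rw [hk, RingHom.mem_ker] at h1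
    rw [map_sub, map_natCast, ZMod.natCast_rightInverse (φ x)] at h1
    exact (sub_eq_zero.mp h1).symm
  · rintro ⟨I, hI⟩
    have hq : q.Prime := Fact.out
    rw [Ideal.absNorm_apply, Submodule.cardQuot_apply] at hI
    have hc : Nat.card (𝓞 K ⧸ I) = q := hI
    have : Finite (𝓞 K ⧸ I) := Nat.finite_of_card_ne_zero (by rw [hc]; exact hq.ne_zero)
    let _ : Fintype (𝓞 K ⧸ I) := Fintype.ofFinite _
    have hF : Fintype.card (𝓞 K ⧸ I) = q := by
      rw [← Nat.card_eq_fintype_card]; exact hc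
    let e := ZMod.ringEquivOfPrime (𝓞 K ⧸ I) hq hF
    refine ⟨(e.symm : (𝓞 K ⧸ I) →+* ZMod q).comp (Ideal.Quotient.mk I), ?_⟩
    apply Subtype.ext
    ext x
    simp only [RingHom.mem_ker, RingHom.comp_apply, RingHom.coe_coe]
    rw [map_eq_zero_iff e.symm e.symm.injective, Ideal.Quotient.eq_zero_iff_mem]

end Pool.Agent.Lib.MP_89bcae_ag.Re

end

section

open Finset

namespace Pool.Agent.Lib.MP_89bcae_ag.Re

private def p02D (a b c d : ZMod 2) : ℕ → ZMod 2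
  | 0 => a
  | 1 => b
  | 2 => c
  | 3 => d
  | _ + 4 => 0

private def p02K (D : ℕ → ZMod 2) (z : ZMod 2) : ℕ → ZMod 2
  | 0 => 1
  | 1 => D 0 + z
  | i + 2 => (D (i + 1) + z) * p02K D z (i + 1) + p02K D z i

private theorem p02_neg (z : ZMod 2) : -z = z := by
  revert z; decide

private theorem p02_path {n : ℕ} (hn : 3 ≤ n) (D : ℕ → ZMod 2) (hK : ∀ z, p02K D z n = 1) :
    PathInj n D := by
  intro z v hv
  have hsub : ∀ x : ZMod 2, x - z = x + z := fun x => by rw [sub_eq_add_neg, p02_neg]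
  have key : ∀ i, i < n → v i = v 0 * p02K D z i := by
    intro i
    induction i using Nat.strong_induction_on with
    | _ i ih =>
      intro hi
      match i, ih, hi with
      | 0, _, _ => simp [p02K]
      | 1, _, hi =>
        have h := hv 0 (by omega)
        rw [if_pos rfl, if_neg (by omega), zero_add, hsub] at h
        have h' : v 1 = (D 0 + z) * v 0 := h.symm
        rw [h', p02K]
        ring
      | i + 2, ih, hi =>
        have h := hv (i + 1) (by omega)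
        rw [if_neg (by omega), if_neg (by omega), hsub] at h
        have e1 : i + 1 - 1 = i := by omega
        rw [e1, ih (i + 1) (by omega) (by omega), ih i (by omega) (by omega)] at h
        have h2 : v (i + 2) = (D (i + 1) + z) * (v 0 * p02K D z (i + 1)) - v 0 * p02K D z i := by
          rw [h]; ring
        rw [h2, p02K, sub_eq_add_neg, p02_neg]
        ring
  have hlast := hv (n - 1) (by omega)
  rw [if_neg (by omega), if_pos (by omega), hsub, add_zero, key (n - 1) (by omega),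
    key (n - 1 - 1) (by omega)] at hlast
  obtain ⟨m, rfl⟩ : ∃ m, n = m + 2 := ⟨n - 2, by omega⟩
  have e1 : m + 2 - 1 = m + 1 := by omega
  have e2 : m + 1 - 1 = m := by omega
  rw [e1, e2] at hlast
  have hz := hK z
  rw [p02K] at hz
  have h0 : v 0 = 0 := by
    have h3 : v 0 * ((D (m + 1) + z) * p02K D z (m + 1) + p02K D z m) = 0 := by
      have h4 : v 0 * ((D (m + 1) + z) * p02K D z (m + 1) + p02K D z m) =
        (D (m + 1) + z) * (v 0 * p02K D z (m + 1)) + v 0 * p02K D z m := by ring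
      rw [h4, hlast]
      have h5 : v 0 * p02K D z m + v 0 * p02K D z m =
        v 0 * p02K D z m + -(v 0 * p02K D z m) := by rw [p02_neg]
      rw [h5, add_neg_cancel]
    rwa [hz, mul_one] at h3
  intro i hi
  rw [key i hi, h0, zero_mul]

private theorem p02_period (a b c d z : ZMod 2) (i : ℕ) :
    p02K (p02D a b c d) z (i + 9) = p02K (p02D a b c d) z (i + 3) := by
  have h : ∀ j, p02K (p02D a b c d) z (j + 5) =
      z * p02K (p02D a b c d) z (j + 4) + p02K (p02D a b c d) z (j + 3) := by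
    intro j
    rw [p02K]
    show (0 + z) * _ + _ = _
    rw [zero_add]
  have h4 := h (i + 4)
  have h3 := h (i + 3)
  have h2 := h (i + 2)
  have h1 := h (i + 1)
  have h0 := h i
  simp only [add_assoc] at h4 h3 h2 h1 h0
  norm_num at h4 h3 h2 h1 h0
  rw [h4, h3, h2, h1, h0]
  have key : ∀ z x y : ZMod 2,
      z * (z * (z * (z * (z * x + y) + x) + (z * x + y)) + (z * (z * x + y) + x)) +
        (z * (z * (z * x + y) + x) + (z * x + y)) = y := by decide
  exact key _ _ _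

private theorem p02_per (a b c d z : ZMod 2) (r k : ℕ) :
    p02K (p02D a b c d) z (r + 3 + 6 * k) = p02K (p02D a b c d) z (r + 3) := by
  induction k with
  | zero => rfl
  | succ k ih =>
    rw [← ih]
    have h := p02_period a b c d z (r + 6 * k)
    have e1 : r + 3 + 6 * (k + 1) = r + 6 * k + 9 := by ring
    have e2 : r + 3 + 6 * k = r + 6 * k + 3 := by ring
    rw [e1, e2, h]

private theorem p02_sum (a b c d : ZMod 2) (j : ℕ) :
    ∑ i ∈ range (4 + j), p02D a b c d i = a + b + c + d := by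
  induction j with
  | zero => simp [Finset.sum_range_succ, p02D]
  | succ j ih =>
    rw [← add_assoc, Finset.sum_range_succ, ih]
    have : p02D a b c d (4 + j) = 0 := by
      rw [add_comm]; rfl
    rw [this, add_zero]

private theorem p02_main (a b c d : ZMod 2) (r : ℕ)
    (h1 : ∀ z, p02K (p02D a b c d) z (r + 3) = 1)
    (h2 : a + b + c + d = 0) (h3 : d = 0 ∨ r ≠ 0) (k : ℕ) :
    ∃ D : ℕ → ZMod 2, PathInj (r + 3 + 6 * k) D ∧ ∑ i ∈ range (r + 3 + 6 * k), D i = 0 := by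
  refine ⟨p02D a b c d, p02_path (by omega) _ fun z => ?_, ?_⟩
  · rw [p02_per, h1]
  · by_cases h : r + 3 + 6 * k = 3
    · rw [h]
      have hd : d = 0 := by
        rcases h3 with h3 | h3
        · exact h3
        · omega
      rw [hd, add_zero] at h2
      simpa [Finset.sum_range_succ, p02D] using h2
    · obtain ⟨j, hj⟩ : ∃ j, r + 3 + 6 * k = 4 + j := ⟨r + 3 + 6 * k - 4, by omega⟩
      rw [hj, p02_sum, h2]

/-- The case `ℓ = 2`, with the sum of the diagonal equal to zero. Proof: for `D` and `z` let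
`K D z : ℕ → ZMod 2`, `K 0 = 1`, `K 1 = D 0 + z`, `K (i+2) = (D (i+1) + z) K (i+1) + K i` (signs do not
matter). As in `exists_path`, a solution `v` is `v 0 * K` on `[0, n-1]` and the last equation says
`v 0 * K D z n = 0`; so `PathInj n D` holds iff `K D 0 n = 1` and `K D 1 n = 1`. Take `D i = 0` for
`i ≥ 4` and the first four values: `n % 6 = 0` or `4`: `0 0 0 0`; `n % 6 = 3` or `5`: `1 1 0 0`;
`n % 6 = 1`: `1 0 0 1`; `n % 6 = 2`: `1 0 1 0`. (Checked by computer for `n ≤ 15`.) With `D i = 0` for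
`i ≥ 4` the sequence `K D 0` has period `2` and `K D 1` has period `3` from `i = 3` on
(`K (i+2) = K i`, respectively `K (i+2) = K (i+1) + K i`), so both have period `6`: induction from the
values at `n = 3, .., 9`, which are checked by `decide`. -/
theorem exists_path_two {n : ℕ} (hn : 3 ≤ n) :
    ∃ D : ℕ → ZMod 2, PathInj n D ∧ ∑ i ∈ range n, D i = 0 := by
  obtain ⟨m, rfl⟩ : ∃ m, n = m + 3 := ⟨n - 3, by omega⟩
  obtain ⟨r, k, hr, rfl⟩ : ∃ r k, r < 6 ∧ m = r + 6 * k := ⟨m % 6, m / 6, Nat.mod_lt _ (by omega),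
    (Nat.mod_add_div m 6).symm⟩
  have e : r + 6 * k + 3 = r + 3 + 6 * k := by ring
  rw [e]
  interval_cases r
  · exact p02_main 1 1 0 0 0 (by decide) (by decide) (Or.inl rfl) k
  · exact p02_main 0 0 0 0 1 (by decide) (by decide) (Or.inl rfl) k
  · exact p02_main 1 1 0 0 2 (by decide) (by decide) (Or.inl rfl) k
  · exact p02_main 0 0 0 0 3 (by decide) (by decide) (Or.inl rfl) k
  · exact p02_main 1 0 0 1 4 (by decide) (by decide) (Or.inr (by decide)) k
  · exact p02_main 1 0 1 0 5 (by decide) (by decide) (Or.inl rfl) k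

end Pool.Agent.Lib.MP_89bcae_ag.Re

end

section

open Finset

namespace Pool.Agent.Lib.MP_89bcae_ag.Re

/-- correction term on the triangle 0, 1, 2 -/
private def p03c (ℓ : ℕ) (i j : ℕ) : ZMod ℓ :=
  (if i = 0 ∧ j = 1 then 1 else 0) + (if i = 1 ∧ j = 0 then 1 else 0) +
  (if i = 0 ∧ j = 2 then 1 else 0) + (if i = 2 ∧ j = 0 then 1 else 0) -
  (if i = 1 ∧ j = 2 then 1 else 0) - (if i = 2 ∧ j = 1 then 1 else 0)

private def p03t {ℓ : ℕ} (W : ℕ → ZMod ℓ) (h : ZMod ℓ) (i j : ℕ) : ZMod ℓ :=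
  (if i = 0 then (if j = 0 then 0 else W j) else 0) +
  (if j = 0 then (if i = 0 then 0 else W i) else 0) + h * p03c ℓ i j

private theorem p03t_symm {ℓ : ℕ} (W : ℕ → ZMod ℓ) (h : ZMod ℓ) (i j : ℕ) :
    p03t W h i j = p03t W h j i := by
  have : p03c ℓ i j = p03c ℓ j i := by
    unfold p03c
    simp only [and_comm (a := i = 0), and_comm (a := i = 1), and_comm (a := i = 2)]
    ring
  unfold p03t
  rw [this]
  ring

private theorem p03_sum {ℓ : ℕ} {n : ℕ} (hn : 3 ≤ n) (W : ℕ → ZMod ℓ) (h : ZMod ℓ)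
    (hh : 2 * h = W 0 - ∑ j ∈ (range n).erase 0, W j) (i : ℕ) (hi : i < n) :
    ∑ j ∈ (range n).erase i, p03t W h i j = W i := by
  have m0 : 0 ∈ range n := mem_range.2 (by omega)
  have m1 : 1 ∈ range n := mem_range.2 (by omega)
  have m2 : 2 ∈ range n := mem_range.2 (by omega)
  by_cases h0 : i = 0
  · subst h0
    have e1 : ∑ j ∈ (range n).erase 0, p03t W h 0 j =
        ∑ j ∈ (range n).erase 0, (W j + h * ((if j = 1 then 1 else 0) +
          (if j = 2 then 1 else 0))) := by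
      refine Finset.sum_congr rfl fun j hj => ?_
      have hj0 : j ≠ 0 := (Finset.mem_erase.1 hj).1
      simp [p03t, p03c, hj0]
    have a1 : 1 ∈ (range n).erase 0 := Finset.mem_erase.2 ⟨by omega, m1⟩
    have a2 : 2 ∈ (range n).erase 0 := Finset.mem_erase.2 ⟨by omega, m2⟩
    rw [e1, Finset.sum_add_distrib, ← Finset.mul_sum, Finset.sum_add_distrib,
      Finset.sum_ite_eq', Finset.sum_ite_eq', if_pos a1, if_pos a2]
    have : h * (1 + 1) = 2 * h := by ring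
    rw [this, hh]
    ring
  · have a0 : 0 ∈ (range n).erase i := Finset.mem_erase.2 ⟨Ne.symm h0, m0⟩
    by_cases h1 : i = 1
    · subst h1
      have e1 : ∑ j ∈ (range n).erase 1, p03t W h 1 j =
          ∑ j ∈ (range n).erase 1, ((if j = 0 then W 1 else 0) + h * ((if j = 0 then 1 else 0) -
            (if j = 2 then 1 else 0))) := by
        refine Finset.sum_congr rfl fun j hj => ?_
        simp [p03t, p03c]
      have a2 : 2 ∈ (range n).erase 1 := Finset.mem_erase.2 ⟨by omega, m2⟩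
      rw [e1, Finset.sum_add_distrib, ← Finset.mul_sum, Finset.sum_sub_distrib,
        Finset.sum_ite_eq', Finset.sum_ite_eq', Finset.sum_ite_eq', if_pos a0, if_pos a0, if_pos a2]
      ring
    · by_cases h2 : i = 2
      · subst h2
        have e1 : ∑ j ∈ (range n).erase 2, p03t W h 2 j =
            ∑ j ∈ (range n).erase 2, ((if j = 0 then W 2 else 0) + h * ((if j = 0 then 1 else 0) -
              (if j = 1 then 1 else 0))) := by
          refine Finset.sum_congr rfl fun j hj => ?_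
          simp [p03t, p03c]
        have a1 : 1 ∈ (range n).erase 2 := Finset.mem_erase.2 ⟨by omega, m1⟩
        rw [e1, Finset.sum_add_distrib, ← Finset.mul_sum, Finset.sum_sub_distrib,
          Finset.sum_ite_eq', Finset.sum_ite_eq', Finset.sum_ite_eq', if_pos a0, if_pos a0,
          if_pos a1]
        ring
      · have e1 : ∑ j ∈ (range n).erase i, p03t W h i j =
            ∑ j ∈ (range n).erase i, (if j = 0 then W i else 0) := by
          refine Finset.sum_congr rfl fun j hj => ?_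
          simp [p03t, p03c, h0, h1, h2]
        rw [e1, Finset.sum_ite_eq', if_pos a0]

private theorem p03_even {ℓ : ℕ} (n : ℕ) :
    ∑ i ∈ range n, ∑ j ∈ (range n).erase i, (if j = i + 1 ∨ i = j + 1 then (1 : ZMod ℓ) else 0) =
      2 * ∑ i ∈ range n, ∑ j ∈ range n, (if j = i + 1 then (1 : ZMod ℓ) else 0) := by
  have e1 : ∀ i ∈ range n, ∑ j ∈ (range n).erase i,
      (if j = i + 1 ∨ i = j + 1 then (1 : ZMod ℓ) else 0) =
      ∑ j ∈ range n, (if j = i + 1 then (1 : ZMod ℓ) else 0) +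
      ∑ j ∈ range n, (if i = j + 1 then (1 : ZMod ℓ) else 0) := by
    intro i hi
    rw [← Finset.sum_add_distrib, ← Finset.add_sum_erase _ _ hi, if_neg (by omega),
      add_zero, zero_add]
    refine Finset.sum_congr rfl fun j _ => ?_
    by_cases h1 : j = i + 1
    · rw [if_pos (Or.inl h1), if_pos h1, if_neg (by omega), add_zero]
    · by_cases h2 : i = j + 1
      · rw [if_pos (Or.inr h2), if_neg h1, if_pos h2, zero_add]
      · rw [if_neg (by tauto), if_neg h1, if_neg h2, add_zero]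
  rw [Finset.sum_congr rfl e1, Finset.sum_add_distrib]
  have e2 : ∑ i ∈ range n, ∑ j ∈ range n, (if i = j + 1 then (1 : ZMod ℓ) else 0) =
      ∑ i ∈ range n, ∑ j ∈ range n, (if j = i + 1 then (1 : ZMod ℓ) else 0) := by
    rw [Finset.sum_comm]
  rw [e2]
  ring

private theorem p03_two : (2 : ZMod 2) = 0 := by decide

private theorem p03_neg (x : ZMod 2) : -x = x := by
  revert x; decide

/-- Symmetric weights on the pairs with prescribed sums at the vertices. Proof: it is enough to find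
symmetric `t i j` with `∑ j ≠ i, t i j = W i` for `i < n`, where
`W i = D i - (number of neighbours of i in the path 0, .., n-1)`, and to put `y = t / m`. If `ℓ ≠ 2`:
`2` is invertible; by linearity (sum over the vertices) it is enough to treat
`W = w` at one vertex `u < n` and `0` at the others: choose two other vertices `p ≠ r` below `n`
(`n ≥ 3`) and put `t u p = t u r = w/2`, `t p r = -w/2`, symmetric, zero elsewhere. If `ℓ = 2`: the sum
of the `W i`, `i < n`, is zero (the sum of the numbers of neighbours is `2 (n-1)`); put, for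
`1 ≤ i < n`, `t 0 i = t i 0 = W i`, zero elsewhere: the sum at `0` is `∑ i = 1 .. n-1, W i = - W 0 = W 0`. -/
theorem exists_weights {ℓ : ℕ} [Fact ℓ.Prime] {n : ℕ} (hn : 3 ≤ n) {m : ZMod ℓ} (hm : m ≠ 0)
    (D : ℕ → ZMod ℓ) (hD : ℓ = 2 → ∑ i ∈ range n, D i = 0) :
    ∃ y : ℕ → ℕ → ZMod ℓ, (∀ i j, y i j = y j i) ∧ ∀ i < n,
      ∑ j ∈ (range n).erase i, ((if j = i + 1 ∨ i = j + 1 then 1 else 0) + m * y i j) = D i := by
  let N : ℕ → ZMod ℓ := fun i => ∑ j ∈ (range n).erase i,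
    (if j = i + 1 ∨ i = j + 1 then (1 : ZMod ℓ) else 0)
  let W : ℕ → ZMod ℓ := fun i => D i - N i
  have hex : ∃ h : ZMod ℓ, 2 * h = W 0 - ∑ j ∈ (range n).erase 0, W j := by
    by_cases h2 : ℓ = 2
    · refine ⟨0, ?_⟩
      subst h2
      have t2 : (2 : ZMod 2) = 0 := p03_two
      have e1 : W 0 + ∑ j ∈ (range n).erase 0, W j = ∑ j ∈ range n, W j :=
        Finset.add_sum_erase _ _ (mem_range.2 (by omega))
      have e2 : ∑ j ∈ range n, W j = 0 := by
        show ∑ j ∈ range n, (D j - N j) = 0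
        rw [Finset.sum_sub_distrib, hD rfl]
        show 0 - ∑ i ∈ range n, ∑ j ∈ (range n).erase i, _ = _
        rw [p03_even, t2]
        ring
      rw [e2] at e1
      rw [mul_zero, sub_eq_add_neg, p03_neg, e1]
    · have h3 : (2 : ZMod ℓ) ≠ 0 := by
        intro h
        have h4 : ((2 : ℕ) : ZMod ℓ) = 0 := by exact_mod_cast h
        rw [ZMod.natCast_eq_zero_iff] at h4
        exact h2 ((Nat.prime_dvd_prime_iff_eq (Fact.out) Nat.prime_two).1 h4)
      exact ⟨2⁻¹ * (W 0 - ∑ j ∈ (range n).erase 0, W j), by rw [mul_inv_cancel_left₀ h3]⟩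
  obtain ⟨h, hh⟩ := hex
  refine ⟨fun i j => m⁻¹ * p03t W h i j, fun i j => ?_, fun i hi => ?_⟩
  · show m⁻¹ * p03t W h i j = m⁻¹ * p03t W h j i
    rw [p03t_symm]
  · have e : ∀ j, m * (m⁻¹ * p03t W h i j) = p03t W h i j := fun j => by
      rw [mul_inv_cancel_left₀ hm]
    simp only [e]
    rw [Finset.sum_add_distrib, p03_sum hn W h hh i hi]
    show N i + (D i - N i) = D i
    ring

end Pool.Agent.Lib.MP_89bcae_ag.Re

end

section

open Filter Topology

namespace Pool.Agent.Lib.MP_89bcae_ag.Re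

private lemma n07_eulerHasProd {a : ℕ → ℝ} (ha : ∀ n, 0 ≤ a n) (ha1 : a 1 = 1)
    (ham : ∀ m n : ℕ, m.Coprime n → a (m * n) = a m * a n)
    {s : ℝ} (hs : 1 < s) (has : Summable fun n : ℕ => a n * (n : ℝ) ^ (-s)) :
    HasProd (fun p : Nat.Primes => ∑' e : ℕ, a ((p : ℕ) ^ e) * (((p : ℕ) ^ e : ℕ) : ℝ) ^ (-s))
      (∑' n : ℕ, a n * (n : ℝ) ^ (-s)) := by
  have h := EulerProduct.eulerProduct_hasProd (R := ℝ) (f := fun n : ℕ => a n * (n : ℝ) ^ (-s))
    (by simp [ha1]) (by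
      intro m n hmn
      simp only [ham m n hmn, Nat.cast_mul,
        Real.mul_rpow (Nat.cast_nonneg m) (Nat.cast_nonneg n)]
      ring) (by
      refine has.congr fun n => ?_
      rw [Real.norm_of_nonneg]
      exact mul_nonneg (ha n) (Real.rpow_nonneg (Nat.cast_nonneg n) _)) (by
      simp only [Nat.cast_zero]
      rw [Real.zero_rpow (by linarith), mul_zero])
  exact h

private lemma n07_prod_le {C₁ C₂ : ℝ} (h1 : 0 ≤ C₁) (h2 : 1 ≤ C₂) (q₀ : ℕ)
    (T : Finset Nat.Primes) :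
    ∏ p ∈ T, ((if (p : ℕ) < q₀ then C₂ else 1) * Real.exp (C₁ / ((p : ℕ) : ℝ) ^ 2)) ≤
      C₂ ^ q₀ * Real.exp (C₁ * ∑' n : ℕ, 1 / (n : ℝ) ^ 2) := by
  rw [Finset.prod_mul_distrib]
  have hS : Summable fun n : ℕ => 1 / (n : ℝ) ^ 2 := Real.summable_one_div_nat_pow.2 (by norm_num)
  refine mul_le_mul ?_ ?_ (Finset.prod_nonneg fun p _ => (Real.exp_pos _).le) (by positivity)
  · rw [Finset.prod_ite, Finset.prod_const, Finset.prod_const_one, mul_one]
    refine pow_le_pow_right₀ h2 ?_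
    calc (T.filter fun p : Nat.Primes => (p : ℕ) < q₀).card
        ≤ (Finset.range q₀).card := by
          apply Finset.card_le_card_of_injOn (fun p : Nat.Primes => (p : ℕ))
          · intro p hp
            simp only [Finset.coe_filter, Set.mem_ofPred_eq] at hp
            simp only [Finset.coe_range, Set.mem_Iio]
            exact hp.2
          · intro p _ q _ h
            exact Subtype.ext h
      _ = q₀ := Finset.card_range q₀
  · rw [← Real.exp_sum]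
    apply Real.exp_le_exp.2
    have e1 : ∑ p ∈ T, C₁ / ((p : ℕ) : ℝ) ^ 2 =
        C₁ * ∑ n ∈ T.map ⟨fun p : Nat.Primes => (p : ℕ), fun p q h => Subtype.ext h⟩,
          1 / (n : ℝ) ^ 2 := by
      rw [Finset.sum_map, Finset.mul_sum]
      refine Finset.sum_congr rfl fun p _ => ?_
      show C₁ / ((p : ℕ) : ℝ) ^ 2 = C₁ * (1 / ((p : ℕ) : ℝ) ^ 2)
      ring
    rw [e1]
    refine mul_le_mul_of_nonneg_left ?_ h1
    exact hS.sum_le_tsum _ (fun n _ => by positivity)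

/-- Comparison of two Euler products. Proof: the Euler product (`EulerProduct.eulerProduct_hasProd`
for `f n = a n * n ^ (-s)`, which is multiplicative on coprime arguments, `f 0 = 0`, summable norm)
gives `HasProd (fun q : Nat.Primes => ∑' e, a(q^e) (q^e)^(-s)) (∑' n, a n n^(-s))`, the same for `b`.
Let `C₁` be the constant of `factor_compare` and `C₂` that of `factor_compare_bad`. For every finite
set `T` of primes the product over `T` of the `ℓ`-th powers of the factors of `a` is at most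
`C₂ ^ q₀ * exp (C₁ ∑' n, 1/n²)` times the product over `T` of the factors of `b`; pass to the limit
(`le_of_tendsto_of_tendsto'`, `HasProd` is a `Tendsto` along finite sets). -/
theorem euler_compare {a b : ℕ → ℝ} {d d' ℓ q₀ : ℕ} (ha : ∀ n, 0 ≤ a n) (hb : ∀ n, 0 ≤ b n)
    (ha1 : a 1 = 1) (hb1 : b 1 = 1)
    (ham : ∀ m n : ℕ, m.Coprime n → a (m * n) = a m * a n)
    (hbm : ∀ m n : ℕ, m.Coprime n → b (m * n) = b m * b n)
    (hap : ∀ q e : ℕ, q.Prime → a (q ^ e) ≤ ((e : ℝ) + 1) ^ d)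
    (hbp : ∀ q e : ℕ, q.Prime → b (q ^ e) ≤ ((e : ℝ) + 1) ^ d')
    (has : ∀ s : ℝ, 1 < s → Summable fun n : ℕ => a n * (n : ℝ) ^ (-s))
    (hbs : ∀ s : ℝ, 1 < s → Summable fun n : ℕ => b n * (n : ℝ) ^ (-s))
    (hab : ∀ q : ℕ, q.Prime → q₀ ≤ q → (ℓ : ℝ) * a q ≤ b q) :
    ∃ C : ℝ, 0 < C ∧ ∀ s : ℝ, 1 < s →
      (∑' n : ℕ, a n * (n : ℝ) ^ (-s)) ^ ℓ ≤ C * ∑' n : ℕ, b n * (n : ℝ) ^ (-s) := by
  obtain ⟨C₁, hC₁, h1⟩ := factor_compare d d' ℓ
  obtain ⟨C₂, hC₂, h2⟩ := factor_compare_bad d d' ℓ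
  refine ⟨C₂ ^ q₀ * Real.exp (C₁ * ∑' n : ℕ, 1 / (n : ℝ) ^ 2), by positivity, fun s hs => ?_⟩
  have hA := n07_eulerHasProd ha ha1 ham hs (has s hs)
  have hB := n07_eulerHasProd hb hb1 hbm hs (hbs s hs)
  set FA : Nat.Primes → ℝ := fun p => ∑' e : ℕ, a ((p : ℕ) ^ e) * (((p : ℕ) ^ e : ℕ) : ℝ) ^ (-s)
    with hFA
  set FB : Nat.Primes → ℝ := fun p => ∑' e : ℕ, b ((p : ℕ) ^ e) * (((p : ℕ) ^ e : ℕ) : ℝ) ^ (-s)
    with hFB
  have hFA0 : ∀ p, 0 ≤ FA p := fun p => tsum_nonneg fun e =>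
    mul_nonneg (ha _) (Real.rpow_nonneg (Nat.cast_nonneg _) _)
  have hFB0 : ∀ p, 0 ≤ FB p := fun p => tsum_nonneg fun e =>
    mul_nonneg (hb _) (Real.rpow_nonneg (Nat.cast_nonneg _) _)
  have hK : ∀ p : Nat.Primes, FA p ^ ℓ ≤
      ((if (p : ℕ) < q₀ then C₂ else 1) * Real.exp (C₁ / ((p : ℕ) : ℝ) ^ 2)) * FB p := by
    intro p
    have hp := p.2
    by_cases hlt : (p : ℕ) < q₀
    · rw [if_pos hlt]
      have h3 := h2 (fun e => a ((p : ℕ) ^ e)) (fun e => b ((p : ℕ) ^ e)) (fun e => ha _)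
        (fun e => hb _) (by simpa using ha1) (by simpa using hb1) (fun e => hap _ _ hp)
        (fun e => hbp _ _ hp) (p : ℕ) hp.two_le s hs
      refine h3.trans ?_
      refine mul_le_mul_of_nonneg_right ?_ (hFB0 p)
      have h4 : 1 ≤ Real.exp (C₁ / ((p : ℕ) : ℝ) ^ 2) := Real.one_le_exp (by positivity)
      nlinarith [h4, hC₂]
    · rw [if_neg hlt, one_mul]
      exact h1 (fun e => a ((p : ℕ) ^ e)) (fun e => b ((p : ℕ) ^ e)) (fun e => ha _)
        (fun e => hb _) (by simpa using ha1) (by simpa using hb1) (fun e => hap _ _ hp)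
        (fun e => hbp _ _ hp) (by simpa using hab p hp (not_lt.1 hlt)) (p : ℕ) hp.two_le s hs
  have hT : ∀ T : Finset Nat.Primes, (∏ p ∈ T, FA p) ^ ℓ ≤
      (C₂ ^ q₀ * Real.exp (C₁ * ∑' n : ℕ, 1 / (n : ℝ) ^ 2)) * ∏ p ∈ T, FB p := by
    intro T
    rw [← Finset.prod_pow]
    calc ∏ p ∈ T, FA p ^ ℓ ≤ ∏ p ∈ T,
          (((if (p : ℕ) < q₀ then C₂ else 1) * Real.exp (C₁ / ((p : ℕ) : ℝ) ^ 2)) * FB p) :=
          Finset.prod_le_prod (fun p _ => pow_nonneg (hFA0 p) _) (fun p _ => hK p)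
      _ = (∏ p ∈ T, ((if (p : ℕ) < q₀ then C₂ else 1) * Real.exp (C₁ / ((p : ℕ) : ℝ) ^ 2))) *
          ∏ p ∈ T, FB p := Finset.prod_mul_distrib
      _ ≤ _ := mul_le_mul_of_nonneg_right (n07_prod_le hC₁ hC₂ q₀ T)
          (Finset.prod_nonneg fun p _ => hFB0 p)
  exact le_of_tendsto_of_tendsto' (Tendsto.pow hA ℓ) (Tendsto.const_mul _ hB) hT

end Pool.Agent.Lib.MP_89bcae_ag.Re

end

section

open NumberField Polynomial

namespace Pool.Agent.Lib.MP_89bcae_ag.Re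

/-- A primitive root of unity stays primitive modulo large primes. Proof: `ℓ` is prime, so it is
enough that `φ ζ ≠ 1` (`IsPrimitiveRoot.of_map_of_injective`... or `orderOf_eq_prime`); if
`φ ζ = 1` then, since `1 + ζ + ... + ζ ^ (ℓ - 1) = 0` (`IsPrimitiveRoot.geom_sum_eq_zero`),
`φ` of it gives `(ℓ : ZMod q) = 0`, so `q ∣ ℓ` and `q = ℓ`. -/
theorem isPrimitiveRoot_map {K : Type*} [Field K] [NumberField K] {ℓ : ℕ} (hℓ : ℓ.Prime)
    {ζ : 𝓞 K} (hζ : IsPrimitiveRoot ζ ℓ) {q : ℕ} [Fact q.Prime] (hq : ℓ < q)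
    (φ : 𝓞 K →+* ZMod q) : IsPrimitiveRoot (φ ζ) ℓ := by
  haveI : Fact ℓ.Prime := ⟨hℓ⟩
  have h1 : (φ ζ) ^ ℓ = 1 := by rw [← map_pow, hζ.pow_eq_one, map_one]
  have hne : φ ζ ≠ 1 := by
    intro h
    have hs := hζ.geom_sum_eq_zero hℓ.one_lt
    have h2 := congrArg φ hs
    simp only [map_sum, map_pow, h, one_pow, Finset.sum_const, Finset.card_range, nsmul_eq_mul,
      mul_one, map_zero] at h2
    have h3 : q ∣ ℓ := (ZMod.natCast_eq_zero_iff ℓ q).1 h2
    have h4 := Nat.le_of_dvd hℓ.pos h3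
    omega
  have h5 := orderOf_eq_prime h1 hne
  have h6 := IsPrimitiveRoot.orderOf (φ ζ)
  rwa [h5] at h6

/-- Proof: for each `φ` choose `c` with `c ^ ℓ = φ b ≠ 0`; the `ℓ` elements `φ(ζ)^i c`, `i < ℓ`, are
distinct (`isPrimitiveRoot_map`) with the same power; `exists_extension` gives `ψ_(φ,i)` with
restriction `φ` and value `φ(ζ)^i c` at `α`: an injective map from `(𝓞 K →+* ZMod q) × Fin ℓ` to
`𝓞 K' →+* ZMod q`; `idealCount_eq_card`, `Nat.card_le_card_of_injective`, `finite_ringHom`. -/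
theorem mul_idealCount_le (K K' : Type*) [Field K] [NumberField K] [Field K'] [NumberField K']
    [Algebra K K'] {ℓ : ℕ} (hℓ : ℓ.Prime) {ζ : 𝓞 K} (hζ : IsPrimitiveRoot ζ ℓ) {b : 𝓞 K} {α : 𝓞 K'}
    (hb : α ^ ℓ = algebraMap (𝓞 K) (𝓞 K') b) (hirr : Irreducible (X ^ ℓ - C (b : K)))
    {M : ℕ} (hM : ∀ y : 𝓞 K', ∃ p : (𝓞 K)[X], (M : 𝓞 K') * y = aeval α p)
    {q : ℕ} [Fact q.Prime] (hqM : ¬ q ∣ M) (hqℓ : ℓ < q)
    (hφ : ∀ φ : 𝓞 K →+* ZMod q, φ b ≠ 0 ∧ ∃ c : ZMod q, c ^ ℓ = φ b) :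
    ℓ * idealCount K q ≤ idealCount K' q := by
  classical
  rw [idealCount_eq_card K q, idealCount_eq_card K' q]
  haveI := finite_ringHom K q
  haveI := finite_ringHom K' q
  choose hb0 c hc using hφ
  have hext : ∀ (φ : 𝓞 K →+* ZMod q) (i : Fin ℓ), ∃ ψ : 𝓞 K' →+* ZMod q,
      (∀ x : 𝓞 K, ψ (algebraMap (𝓞 K) (𝓞 K') x) = φ x) ∧ ψ α = (φ ζ) ^ (i : ℕ) * c φ := by
    intro φ i
    refine exists_extension K K' hℓ.pos hb hirr hM hqM φ ?_
    rw [mul_pow, ← pow_mul, mul_comm (i : ℕ), pow_mul,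
      (isPrimitiveRoot_map hℓ hζ hqℓ φ).pow_eq_one, one_pow, one_mul, hc]
  choose ψ hψ1 hψ2 using hext
  have hinj : Function.Injective (fun p : (𝓞 K →+* ZMod q) × Fin ℓ => ψ p.1 p.2) := by
    rintro ⟨φ, i⟩ ⟨φ', j⟩ h
    have h' : ψ φ i = ψ φ' j := h
    have hφφ' : φ = φ' := RingHom.ext fun x => by rw [← hψ1 φ i x, h', hψ1]
    subst hφφ'
    have h2 : (φ ζ) ^ (i : ℕ) * c φ = (φ ζ) ^ (j : ℕ) * c φ := by
      rw [← hψ2 φ i, h', hψ2]
    have hc0 : c φ ≠ 0 := by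
      intro h0
      apply hb0 φ
      rw [← hc φ, h0, zero_pow hℓ.ne_zero]
    have h3 := mul_right_cancel₀ hc0 h2
    have h4 := (isPrimitiveRoot_map hℓ hζ hqℓ φ).pow_inj i.2 j.2 h3
    exact Prod.ext rfl (Fin.ext h4)
  have h7 := Nat.card_le_card_of_injective _ hinj
  rw [Nat.card_prod, Nat.card_fin] at h7
  rw [mul_comm]
  exact h7

end Pool.Agent.Lib.MP_89bcae_ag.Re

end

section

open NumberField Ideal Filter Topology

namespace Pool.Agent.Lib.MP_89bcae_ag.Re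

/-- A number field cannot have, for all large primes, at least `ℓ ≥ 2` times as many primes of
degree one as another one. Proof: `euler_compare` with `a = idealCount K`, `b = idealCount K'` gives
`zetaR K s ^ ℓ ≤ C zetaR K' s` for `s > 1`. Multiply by `(s - 1) ^ ℓ`:
`((s-1) zetaR K s) ^ ℓ ≤ C (s-1)^(ℓ-1) ((s-1) zetaR K' s)`; for `s → 1+` (`zetaR_tendsto`) the left
side tends to `(dedekindZeta_residue K) ^ ℓ > 0` (`dedekindZeta_residue_pos`), the right side to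
`0`. -/
theorem not_mul_le (K K' : Type*) [Field K] [NumberField K] [Field K'] [NumberField K'] {ℓ : ℕ}
    (hℓ : 2 ≤ ℓ) (q₀ : ℕ) :
    ∃ q : ℕ, q.Prime ∧ q₀ ≤ q ∧ idealCount K' q < ℓ * idealCount K q := by
  by_contra hcon
  push Not at hcon
  obtain ⟨C, hC, hle⟩ := euler_compare (a := fun n => (idealCount K n : ℝ))
    (b := fun n => (idealCount K' n : ℝ)) (d := Module.finrank ℚ K) (d' := Module.finrank ℚ K')
    (ℓ := ℓ) (q₀ := q₀) (fun n => Nat.cast_nonneg _) (fun n => Nat.cast_nonneg _)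
    (by simp only [idealCount_one, Nat.cast_one]) (by simp only [idealCount_one, Nat.cast_one])
    (fun m n h => by simp only [idealCount_mul K h, Nat.cast_mul])
    (fun m n h => by simp only [idealCount_mul K' h, Nat.cast_mul])
    (fun q e hq => by exact_mod_cast idealCount_prime_pow_le K hq e)
    (fun q e hq => by exact_mod_cast idealCount_prime_pow_le K' hq e)
    (fun s hs => zetaR_summable K hs) (fun s hs => zetaR_summable K' hs)
    (fun q hq hqq => by exact_mod_cast hcon q hq hqq)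
  have hle' : ∀ s : ℝ, 1 < s → zetaR K s ^ ℓ ≤ C * zetaR K' s := hle
  have h1 : Tendsto (fun s : ℝ => ((s - 1) * zetaR K s) ^ ℓ) (𝓝[>] 1)
      (𝓝 (dedekindZeta_residue K ^ ℓ)) := (zetaR_tendsto K).pow ℓ
  have h2 : Tendsto (fun s : ℝ => (s - 1) ^ (ℓ - 1)) (𝓝[>] 1) (𝓝 0) := by
    have h3 : Tendsto (fun s : ℝ => (s - 1) ^ (ℓ - 1)) (𝓝 1) (𝓝 ((1 - 1) ^ (ℓ - 1))) :=
      ((continuous_id.sub continuous_const).pow (ℓ - 1)).tendsto 1
    rw [sub_self, zero_pow (by omega)] at h3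
    exact h3.mono_left nhdsWithin_le_nhds
  have h4 : Tendsto (fun s : ℝ => C * ((s - 1) ^ (ℓ - 1) * ((s - 1) * zetaR K' s))) (𝓝[>] 1)
      (𝓝 0) := by
    have := (h2.mul (zetaR_tendsto K')).const_mul C
    rwa [zero_mul, mul_zero] at this
  have h5 : dedekindZeta_residue K ^ ℓ ≤ 0 := by
    refine le_of_tendsto_of_tendsto h1 h4 ?_
    filter_upwards [self_mem_nhdsWithin] with s hs
    have hs' : (1 : ℝ) < s := hs
    have hs0 : 0 ≤ s - 1 := by linarith
    have h6 := mul_le_mul_of_nonneg_left (hle' s hs') (pow_nonneg hs0 ℓ)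
    have h7 : (s - 1) ^ ℓ = (s - 1) ^ (ℓ - 1) * (s - 1) := by
      rw [← pow_succ]
      congr 1
      omega
    calc ((s - 1) * zetaR K s) ^ ℓ = (s - 1) ^ ℓ * zetaR K s ^ ℓ := mul_pow _ _ _
      _ ≤ (s - 1) ^ ℓ * (C * zetaR K' s) := h6
      _ = C * ((s - 1) ^ (ℓ - 1) * ((s - 1) * zetaR K' s)) := by rw [h7]; ring
  exact absurd h5 (not_le.2 (pow_pos (dedekindZeta_residue_pos K) ℓ))

end Pool.Agent.Lib.MP_89bcae_ag.Re

end

section

open Polynomial Finset

open scoped Classical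

namespace Pool.Agent.Lib.MP_89bcae_ag.Re

open Sup

/-- The structure of the symbol `kp` on the differences of the elements of `S`: matchings along the
path `a 0, .., a (n-1)` and weights `y i j`. -/
structure PathSym {F : Type*} [Field F] {ℓ : ℕ} (n m : ℕ) (S : Finset F) (p : F → F) (a : ℕ → F)
    (M : ℕ → F → F) (y : ℕ → ℕ → ZMod ℓ) (kp : F → ZMod ℓ) : Prop where
  inj : ∀ i < n, ∀ j < n, a i = a j → i = j
  fib : ∀ β ∈ S, ∃ i < n, p β = a i
  card : ∀ i < n, (S.filter fun β => p β = a i).card = m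
  mmem : ∀ i, i + 1 < n → ∀ β ∈ S, p β = a i → M i β ∈ S ∧ p (M i β) = a (i + 1)
  minj : ∀ i, i + 1 < n → ∀ β ∈ S, ∀ β' ∈ S, p β = a i → p β' = a i → M i β = M i β' → β = β'
  msurj : ∀ i, i + 1 < n → ∀ β' ∈ S, p β' = a (i + 1) → ∃ β ∈ S, p β = a i ∧ M i β = β'
  ysymm : ∀ i j, y i j = y j i
  same : ∀ β ∈ S, ∀ β' ∈ S, β ≠ β' → p β = p β' → kp (β - β') = 0
  symm : ∀ β ∈ S, ∀ β' ∈ S, β ≠ β' → kp (β - β') = kp (β' - β)
  val : ∀ i j, i < j → j < n → ∀ β ∈ S, p β = a i → ∀ β' ∈ S, p β' = a j →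
    kp (β - β') = (if j = i + 1 then (if β' = M i β then 1 else 0) else 0) + y i j

/-- the sum over the fibre over `a j` -/
private lemma P06_fibre {F : Type*} [Field F] {ℓ : ℕ} {n m : ℕ} {S : Finset F} {p : F → F}
    {a : ℕ → F} {M : ℕ → F → F} {y : ℕ → ℕ → ZMod ℓ} {kp : F → ZMod ℓ}
    (h : PathSym n m S p a M y kp)
    (e : F → ZMod ℓ) (he : ∀ i < n, ∑ β ∈ S.filter (fun β => p β = a i), e β = 0)
    {i : ℕ} (hi : i < n) {β : F} (hβ : β ∈ S) (hβi : p β = a i) {β₀ : F}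
    (hβ₀ : i ≠ 0 → β₀ ∈ S ∧ p β₀ = a (i - 1) ∧ M (i - 1) β₀ = β) {j : ℕ} (hj : j < n)
    (hij : j ≠ i) :
    ∑ β' ∈ S.filter (fun β' => p β' = a j), kp (β - β') * (e β - e β') =
      (if j = i + 1 then (e β - e (M i β)) else 0) + (if i = j + 1 then (e β - e β₀) else 0) +
        (m : ZMod ℓ) * y i j * e β := by
  have hsum : ∑ β' ∈ S.filter (fun β' => p β' = a j), (e β - e β') = (m : ZMod ℓ) * e β := by
    rw [Finset.sum_sub_distrib, he j hj, sub_zero, Finset.sum_const, h.card j hj, nsmul_eq_mul]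
  rcases lt_or_gt_of_ne hij with hlt | hgt
  · -- `j < i`
    have hi0 : i ≠ 0 := by omega
    obtain ⟨b1, b2, b3⟩ := hβ₀ hi0
    have hval : ∀ β' ∈ S.filter (fun β' => p β' = a j), kp (β - β') * (e β - e β') =
        (if i = j + 1 then (if β' = β₀ then (e β - e β') else 0) else 0) +
          y i j * (e β - e β') := by
      intro β' hβ'
      obtain ⟨hβ'S, hβ'j⟩ := Finset.mem_filter.1 hβ'
      have hne : β ≠ β' := by
        rintro rfl
        rw [hβi] at hβ'j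
        exact hij (h.inj i hi j hj hβ'j).symm
      rw [h.symm β hβ β' hβ'S hne, h.val j i hlt hi β' hβ'S hβ'j β hβ hβi, h.ysymm j i]
      by_cases h1 : i = j + 1
      · have h2 : i - 1 = j := by omega
        rw [h2] at b2 b3
        rw [if_pos h1, if_pos h1]
        by_cases h3 : β' = β₀
        · rw [if_pos h3, if_pos (by rw [h3, b3]), add_mul, one_mul]
        · rw [if_neg h3, if_neg, add_mul, zero_mul]
          intro h4
          rw [← b3] at h4
          exact h3 (h.minj j (by omega) β₀ b1 β' hβ'S b2 hβ'j h4).symm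
      · rw [if_neg h1, if_neg h1, zero_add, zero_add]
    rw [Finset.sum_congr rfl hval, Finset.sum_add_distrib, ← Finset.mul_sum, hsum,
      if_neg (by omega), zero_add]
    congr 1
    · by_cases h1 : i = j + 1
      · have h2 : i - 1 = j := by omega
        rw [h2] at b2 b3
        simp only [if_pos h1]
        rw [Finset.sum_ite_eq', if_pos (Finset.mem_filter.2 ⟨b1, b2⟩)]
      · simp only [if_neg h1]
        exact Finset.sum_const_zero
    · ring
  · -- `i < j`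
    have hval : ∀ β' ∈ S.filter (fun β' => p β' = a j), kp (β - β') * (e β - e β') =
        (if j = i + 1 then (if β' = M i β then (e β - e β') else 0) else 0) +
          y i j * (e β - e β') := by
      intro β' hβ'
      obtain ⟨hβ'S, hβ'j⟩ := Finset.mem_filter.1 hβ'
      rw [h.val i j hgt hj β hβ hβi β' hβ'S hβ'j]
      by_cases h1 : j = i + 1
      · rw [if_pos h1, if_pos h1]
        by_cases h3 : β' = M i β
        · rw [if_pos h3, if_pos h3, add_mul, one_mul]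
        · rw [if_neg h3, if_neg h3, add_mul, zero_mul]
      · rw [if_neg h1, if_neg h1, zero_add, zero_add]
    rw [Finset.sum_congr rfl hval, Finset.sum_add_distrib, ← Finset.mul_sum, hsum,
      if_neg (by omega : ¬ i = j + 1), add_zero]
    congr 1
    · by_cases h1 : j = i + 1
      · obtain ⟨c1, c2⟩ := h.mmem i (by omega) β hβ hβi
        rw [← h1] at c2
        simp only [if_pos h1]
        rw [Finset.sum_ite_eq', if_pos (Finset.mem_filter.2 ⟨c1, c2⟩)]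
      · simp only [if_neg h1]
        exact Finset.sum_const_zero
    · ring

/-- The sum over the other fibres. Proof: split the sum according to `j ≠ i` with `p β' = a j`
(`Finset.sum_fiberwise_of_maps_to` or induction; the fibres over `a j`, `j < n`, are disjoint and cover
`S`). For `j > i + 1` or `j < i - 1` the contribution is
`∑ β' over a j, y i j * (e β - e β') = m * y i j * e β` (the sum of `e` over the fibre is zero). For
`j = i + 1` there is in addition the term `β' = M i β`: `e β - e (M i β)`. For `j = i - 1` (use `symm` and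
`val` for the pair `(j, i)`, `β = M j β'` iff `β' = β₀`) the additional term is `e β - e β₀`, where `β₀`
over `a (i-1)` is the element with `M (i-1) β₀ = β`. The total coefficient of `e β` is
`∑ j ≠ i, ((if neighbour then 1 else 0) + m * y i j) = D i`. -/
theorem PathSym.sum_eq {F : Type*} [Field F] {ℓ : ℕ} {n m : ℕ} {S : Finset F} {p : F → F}
    {a : ℕ → F} {M : ℕ → F → F} {y : ℕ → ℕ → ZMod ℓ} {kp : F → ZMod ℓ}
    (h : PathSym n m S p a M y kp) {D : ℕ → ZMod ℓ}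
    (hD : ∀ i < n, ∑ j ∈ (range n).erase i,
      ((if j = i + 1 ∨ i = j + 1 then 1 else 0) + (m : ZMod ℓ) * y i j) = D i)
    (e : F → ZMod ℓ) (he : ∀ i < n, ∑ β ∈ S.filter (fun β => p β = a i), e β = 0)
    {i : ℕ} (hi : i < n) {β : F} (hβ : β ∈ S) (hβi : p β = a i) {β₀ : F}
    (hβ₀ : i ≠ 0 → β₀ ∈ S ∧ p β₀ = a (i - 1) ∧ M (i - 1) β₀ = β) :
    ∑ β' ∈ S.filter (fun β' => p β' ≠ p β), kp (β - β') * (e β - e β') =
      D i * e β - (if i = 0 then 0 else e β₀) - (if i + 1 = n then 0 else e (M i β)) := by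
  have hunion : S.filter (fun β' => p β' ≠ p β) =
      ((range n).erase i).biUnion (fun j => S.filter (fun β' => p β' = a j)) := by
    ext β'
    rw [Finset.mem_filter, Finset.mem_biUnion]
    constructor
    · rintro ⟨h1, h2⟩
      obtain ⟨j, hj, hj'⟩ := h.fib β' h1
      refine ⟨j, Finset.mem_erase.2 ⟨?_, Finset.mem_range.2 hj⟩, Finset.mem_filter.2 ⟨h1, hj'⟩⟩
      rintro rfl
      exact h2 (hj'.trans hβi.symm)
    · rintro ⟨j, hj, hj'⟩
      obtain ⟨h1, h2⟩ := Finset.mem_filter.1 hj'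
      obtain ⟨h3, h4⟩ := Finset.mem_erase.1 hj
      refine ⟨h1, fun h5 => h3 ?_⟩
      rw [h2, hβi] at h5
      exact h.inj j (Finset.mem_range.1 h4) i hi h5
  have hdisj : Set.PairwiseDisjoint (↑((range n).erase i))
      (fun j => S.filter (fun β' => p β' = a j)) := by
    intro j hj j' hj' hjj'
    rw [Function.onFun, Finset.disjoint_left]
    intro x hx hx'
    have h1 := (Finset.mem_filter.1 hx).2
    have h2 := (Finset.mem_filter.1 hx').2
    rw [h1] at h2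
    exact hjj' (h.inj j (Finset.mem_range.1 (Finset.mem_of_mem_erase hj)) j'
      (Finset.mem_range.1 (Finset.mem_of_mem_erase hj')) h2)
  rw [hunion, Finset.sum_biUnion hdisj]
  have h1 : ∀ j ∈ (range n).erase i,
      ∑ β' ∈ S.filter (fun β' => p β' = a j), kp (β - β') * (e β - e β') =
      ((if j = i + 1 ∨ i = j + 1 then 1 else 0) + (m : ZMod ℓ) * y i j) * e β -
        (if j = i - 1 then (if i = 0 then 0 else e β₀) else 0) -
        (if j = i + 1 then e (M i β) else 0) := by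
    intro j hj
    obtain ⟨h3, h4⟩ := Finset.mem_erase.1 hj
    rw [P06_fibre h e he hi hβ hβi hβ₀ (Finset.mem_range.1 h4) h3]
    by_cases c1 : j = i + 1
    · rw [if_pos c1, if_neg (by omega), if_pos (Or.inl c1), if_neg (by omega), if_pos c1]
      ring
    · by_cases c2 : i = j + 1
      · rw [if_neg c1, if_pos c2, if_pos (Or.inr c2), if_pos (by omega), if_neg (by omega), if_neg c1]
        ring
      · rw [if_neg c1, if_neg c2, if_neg (by omega), if_neg (by omega), if_neg c1]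
        ring
  rw [Finset.sum_congr rfl h1, Finset.sum_sub_distrib, Finset.sum_sub_distrib, ← Finset.sum_mul,
    hD i hi, Finset.sum_ite_eq', Finset.sum_ite_eq']
  congr 1
  · congr 1
    by_cases c : i = 0
    · rw [if_pos c]
      split_ifs <;> rfl
    · rw [if_neg c, if_pos]
      exact Finset.mem_erase.2 ⟨by omega, Finset.mem_range.2 (by omega)⟩
  · by_cases c : i + 1 = n
    · rw [if_pos c, if_neg]
      intro h5
      have := Finset.mem_range.1 (Finset.mem_of_mem_erase h5)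
      omega
    · rw [if_neg c, if_pos]
      exact Finset.mem_erase.2 ⟨by omega, Finset.mem_range.2 (by omega)⟩

end Pool.Agent.Lib.MP_89bcae_ag.Re

end

end
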