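import Mathlib
import Pool.Agent.Lib.MP_89bcae_ag.Tk.K008
import Pool.Agent.Lib.MP_89bcae_ag.Tk.K055
import Pool.Agent.Lib.MP_89bcae_ag.Tk.K013
import Pool.Agent.Lib.MP_89bcae_ag.Tk.K019
import Pool.Agent.Lib.MP_89bcae_ag.Tk.K000

set_option linter.all false
attribute [local instance 100000] Pool.Agent.Lib.MP_89bcae_ag.Brt.tffFields
attribute [local instance 100000] Pool.Agent.Lib.MP_89bcae_ag.Wt.ifrNF Pool.Agent.Lib.MP_89bcae_ag.Wt.iddNF

namespace Pool.Agent.Lib.MP_89bcae_ag.Bra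
end Pool.Agent.Lib.MP_89bcae_ag.Bra
namespace Pool.Agent.Lib.MP_89bcae_ag.Sup
end Pool.Agent.Lib.MP_89bcae_ag.Sup
namespace Pool.Agent.Lib.MP_89bcae_ag.Wt
end Pool.Agent.Lib.MP_89bcae_ag.Wt
namespace Pool.Agent.Lib.MP_89bcae_ag.Wt.Lns
end Pool.Agent.Lib.MP_89bcae_ag.Wt.Lns
namespace Pool.Agent.Lib.MP_89bcae_ag.Wt.Lns.LocCtx
end Pool.Agent.Lib.MP_89bcae_ag.Wt.Lns.LocCtx

section

/-!
# Common zeros of polynomials over an algebraically closed field
-/

namespace Pool.Agent.Lib.MP_89bcae_ag.Bra.Tsn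

open MvPolynomial

/-- The substitution `X i ↦ 0` for `i ∈ T`. -/
noncomputable def t1Sub {C s : Type} [Field C] [DecidableEq s] (T : Finset s) :
    MvPolynomial s C →ₐ[C] MvPolynomial s C :=
  aeval (fun i => if i ∈ T then 0 else X i)

theorem t1Sub_X {C s : Type} [Field C] [DecidableEq s] (T : Finset s) (i : s) :
    (t1Sub T : MvPolynomial s C →ₐ[C] MvPolynomial s C) (X i) = if i ∈ T then 0 else X i := by
  rw [t1Sub, aeval_X]

theorem t1Sub_comp {C s : Type} [Field C] [DecidableEq s] (T : Finset s) (i : s) :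
    (t1Sub (insert i T) : MvPolynomial s C →ₐ[C] MvPolynomial s C).comp (t1Sub T)
      = t1Sub (insert i T) := by
  apply algHom_ext
  intro j
  rw [AlgHom.comp_apply, t1Sub_X]
  by_cases hj : j ∈ T
  · rw [if_pos hj, map_zero, t1Sub_X, if_pos (Finset.mem_insert_of_mem hj)]
  · rw [if_neg hj]

theorem t1_lt {C s : Type} [Field C] [DecidableEq s] (T : Finset s) {i : s} (hi : i ∉ T) :
    RingHom.ker (t1Sub T : MvPolynomial s C →ₐ[C] MvPolynomial s C) <
      RingHom.ker (t1Sub (insert i T) : MvPolynomial s C →ₐ[C] MvPolynomial s C) := by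
  refine lt_of_le_of_ne ?_ ?_
  · intro p hp
    rw [RingHom.mem_ker] at hp ⊢
    rw [← t1Sub_comp, AlgHom.comp_apply, hp, map_zero]
  · intro h
    have h1 : (X i : MvPolynomial s C) ∈
        RingHom.ker (t1Sub (insert i T) : MvPolynomial s C →ₐ[C] MvPolynomial s C) := by
      rw [RingHom.mem_ker, t1Sub_X, if_pos (Finset.mem_insert_self i T)]
    rw [← h, RingHom.mem_ker, t1Sub_X, if_neg hi] at h1
    exact X_ne_zero i h1

theorem t1_prime {C s : Type} [Field C] [DecidableEq s] (T : Finset s) :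
    (RingHom.ker (t1Sub T : MvPolynomial s C →ₐ[C] MvPolynomial s C)).IsPrime :=
  RingHom.ker_isPrime _

theorem t1_height {C s : Type} [Field C] [DecidableEq s] (T : Finset s) :
    (T.card : ℕ∞) ≤
      (RingHom.ker (t1Sub T : MvPolynomial s C →ₐ[C] MvPolynomial s C)).height := by
  induction T using Finset.induction_on with
  | empty => exact zero_le
  | insert i T hi ih =>
    rw [Finset.card_insert_of_notMem hi]
    have := t1_prime (C := C) T
    have := t1_prime (C := C) (insert i T)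
    have h1 := Ideal.height_add_one_le_of_lt_of_isPrime (t1_lt (C := C) T hi)
    refine le_trans ?_ h1
    push_cast
    exact add_le_add_left ih 1

theorem t1_height_max {C s : Type} [Field C] [Fintype s] :
    (Fintype.card s : ℕ∞) ≤ (vanishingIdeal C {(0 : s → C)}).height := by
  classical
  refine le_trans (t1_height (C := C) (Finset.univ : Finset s)) (Ideal.height_mono ?_)
  intro p hp
  rw [RingHom.mem_ker] at hp
  rw [mem_vanishingIdeal_singleton_iff]
  have h1 : ((aeval (0 : s → C)).comp (t1Sub Finset.univ) : MvPolynomial s C →ₐ[C] C)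
      = aeval (0 : s → C) := by
    apply algHom_ext
    intro i
    rw [AlgHom.comp_apply, t1Sub_X, if_pos (Finset.mem_univ i), map_zero, aeval_X]
    rfl
  rw [← h1, AlgHom.comp_apply, hp, map_zero]

/-- Fewer polynomials than variables, vanishing at `0`, have a common zero which is not `0`.

PROOF. `A = MvPolynomial s C`, `I` the ideal generated by the `P j`, `m₀` the ideal of the polynomials which vanish at `0`
(maximal). Suppose that `0` is the only common zero. By the Nullstellensatz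
(`MvPolynomial.vanishingIdeal_zeroLocus_eq_radical` or `isMaximal_iff_eq_vanishingIdeal_singleton` and the Jacobson
property) the radical of `I` is `m₀`, so `m₀` is a minimal prime over `I`, so its height is at most the number of the
`P j` (`Ideal.height_le_spanFinrank`, `Ideal.height_le_spanRank_toENat_of_mem_minimal_primes`). But the height of `m₀`
is `card s`: `ringKrullDim A = card s` is in Mathlib (`MvPolynomial.ringKrullDim_of_isNoetherianRing`,
`ringKrullDim_eq_zero_of_field`), it is the supremum of the heights of the maximal ideals, all of which are images of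
`m₀` under translations (automorphisms); or a direct chain of primes `(X_i : i in T)`.
OTHER WAY (transcendence degree): as in `Pool/Agent/Lib/MP_2619d0_ag/Q2/TLb.lean` (quadratic forms over `ℂ`, on main), if one
can do without homogeneity. -/
theorem exists_common_zero {C s ι : Type} [Field C] [IsAlgClosed C] [Fintype s] [Fintype ι]
    (P : ι → MvPolynomial s C) (h0 : ∀ j, eval 0 (P j) = 0)
    (hr : Fintype.card ι < Fintype.card s) : ∃ z : s → C, z ≠ 0 ∧ ∀ j, eval z (P j) = 0 := by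
  classical
  by_contra hcon
  push Not at hcon
  have hz : zeroLocus C (Ideal.span (Set.range P)) = {(0 : s → C)} := by
    ext z
    rw [mem_zeroLocus_iff, Set.mem_singleton_iff]
    constructor
    · intro h
      by_contra hz
      obtain ⟨j, hj⟩ := hcon z hz
      apply hj
      have := h (P j) (Ideal.subset_span ⟨j, rfl⟩)
      rwa [← coe_aeval_eq_eval]
    · rintro rfl p hp
      have h1 : Ideal.span (Set.range P) ≤ vanishingIdeal C {(0 : s → C)} := by
        rw [Ideal.span_le]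
        rintro _ ⟨j, rfl⟩
        rw [SetLike.mem_coe, mem_vanishingIdeal_singleton_iff]
        have := h0 j
        rwa [← coe_aeval_eq_eval] at this
      exact (mem_vanishingIdeal_singleton_iff _ _).mp (h1 hp)
  have hrad := vanishingIdeal_zeroLocus_eq_radical (K := C) (Ideal.span (Set.range P))
  rw [hz] at hrad
  have hprime : (vanishingIdeal C {(0 : s → C)}).IsPrime := inferInstance
  have hmin : vanishingIdeal C {(0 : s → C)} ∈ (Ideal.span (Set.range P)).minimalPrimes := by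
    rw [← Ideal.radical_minimalPrimes, ← hrad, Ideal.minimalPrimes_eq_subsingleton_self]
    exact rfl
  have h1 := Ideal.height_le_card_of_mem_minimalPrimes_span (Set.finite_range P) hmin
  have h2 := t1_height_max (C := C) (s := s)
  have h3 : (Set.range P).ncard ≤ Fintype.card ι := by
    rw [← Set.image_univ, ← Nat.card_eq_fintype_card, ← Set.ncard_univ]
    exact Set.ncard_image_le Set.finite_univ
  have h4 : (Fintype.card s : ℕ∞) ≤ (Fintype.card ι : ℕ∞) :=
    h2.trans (h1.trans (by exact_mod_cast h3))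
  have h5 : Fintype.card s ≤ Fintype.card ι := by exact_mod_cast h4
  omega

end Pool.Agent.Lib.MP_89bcae_ag.Bra.Tsn

end

section

/-!
# Cocycles of degree two of a group which acts on a field
-/

namespace Pool.Agent.Lib.MP_89bcae_ag.Bra.Tsn

section

variable {G E : Type} [Group G] [Field E] [MulSemiringAction G E]

/-- `2`-cocycles of the group `G` with values in `Eˣ`. -/
def DCoc (b : G → G → Eˣ) : Prop :=
  ∀ g h j : G, (b g h : E) * b (g * h) j = g • (b h j : E) * b g (h * j)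

/-- `b` is the coboundary of a cochain. -/
def DCob (b : G → G → Eˣ) : Prop :=
  ∃ a : G → Eˣ, ∀ g h : G, (b g h : E) * a (g * h) = g • (a h : E) * a g

end

end Pool.Agent.Lib.MP_89bcae_ag.Bra.Tsn

end

section

/-!
# Multilinear maps over the field of rational functions in one variable
-/

namespace Pool.Agent.Lib.MP_89bcae_ag.Bra.Tsn

open Module

section Generic

variable {C : Type} [Field C] {n a c s : ℕ}

/-- the polynomials with coefficients `z` -/
noncomputable def t2V (z : Fin a × Fin (s + 1) → C) (i : Fin a) : Polynomial C :=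
  ∑ m : Fin (s + 1), Polynomial.monomial (m : ℕ) (z (i, m))

/-- the generic polynomials -/
noncomputable def t2U (C : Type) [Field C] (a s : ℕ) (i : Fin a) :
    Polynomial (MvPolynomial (Fin a × Fin (s + 1)) C) :=
  ∑ m : Fin (s + 1), Polynomial.monomial (m : ℕ) (MvPolynomial.X (i, m))

/-- the form with coefficients `p` at the generic polynomials -/
noncomputable def t2F (p : (Fin n → Fin a) → Polynomial C) (s : ℕ) :
    Polynomial (MvPolynomial (Fin a × Fin (s + 1)) C) :=
  ∑ i : Fin n → Fin a, (p i).map MvPolynomial.C * ∏ j, t2U C a s (i j)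

/-- the form with coefficients `p` at the polynomials with coefficients `z` -/
noncomputable def t2G (p : (Fin n → Fin a) → Polynomial C) (z : Fin a × Fin (s + 1) → C) :
    Polynomial C :=
  ∑ i : Fin n → Fin a, p i * ∏ j, t2V z (i j)

theorem t2U_map (z : Fin a × Fin (s + 1) → C) (i : Fin a) :
    (t2U C a s i).map (MvPolynomial.eval z) = t2V z i := by
  rw [t2U, t2V, Polynomial.map_sum]
  refine Finset.sum_congr rfl fun m _ => ?_
  rw [Polynomial.map_monomial, MvPolynomial.eval_X]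

theorem t2F_map (p : (Fin n → Fin a) → Polynomial C) (z : Fin a × Fin (s + 1) → C) :
    (t2F p s).map (MvPolynomial.eval z) = t2G p z := by
  rw [t2F, t2G, Polynomial.map_sum]
  refine Finset.sum_congr rfl fun i _ => ?_
  rw [Polynomial.map_mul, Polynomial.map_prod, Polynomial.map_map]
  congr 1
  · have h : (MvPolynomial.eval z).comp (MvPolynomial.C (R := C) (σ := Fin a × Fin (s + 1))) =
        RingHom.id C := by
      ext x
      simp
    rw [h, Polynomial.map_id]
  · exact Finset.prod_congr rfl fun j _ => t2U_map z (i j)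

theorem t2V_zero (i : Fin a) : t2V (0 : Fin a × Fin (s + 1) → C) i = 0 := by
  rw [t2V]
  exact Finset.sum_eq_zero fun m _ => by rw [Pi.zero_apply, Polynomial.monomial_zero_right]

theorem t2G_zero (hn : 0 < n) (p : (Fin n → Fin a) → Polynomial C) :
    t2G p (0 : Fin a × Fin (s + 1) → C) = 0 := by
  rw [t2G]
  refine Finset.sum_eq_zero fun i _ => ?_
  have h : ∏ j, t2V (0 : Fin a × Fin (s + 1) → C) (i j) = 0 :=
    Finset.prod_eq_zero (Finset.mem_univ (⟨0, hn⟩ : Fin n)) (t2V_zero _)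
  rw [h, mul_zero]

theorem t2V_natDegree (z : Fin a × Fin (s + 1) → C) (i : Fin a) : (t2V z i).natDegree ≤ s := by
  rw [t2V]
  refine Polynomial.natDegree_sum_le_of_forall_le _ _ fun m _ => ?_
  exact (Polynomial.natDegree_monomial_le _).trans (Nat.lt_succ_iff.mp m.2)

theorem t2G_natDegree (p : (Fin n → Fin a) → Polynomial C) (z : Fin a × Fin (s + 1) → C) (D : ℕ)
    (hD : ∀ i, (p i).natDegree ≤ D) : (t2G p z).natDegree ≤ D + n * s := by
  rw [t2G]
  refine Polynomial.natDegree_sum_le_of_forall_le _ _ fun i _ => ?_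
  refine Polynomial.natDegree_mul_le.trans (add_le_add (hD i) ?_)
  refine (Polynomial.natDegree_prod_le _ _).trans ?_
  refine (Finset.sum_le_sum fun j _ => t2V_natDegree z (i j)).trans ?_
  rw [Finset.sum_const, Finset.card_univ, Fintype.card_fin, smul_eq_mul]

theorem t2V_coeff (z : Fin a × Fin (s + 1) → C) (i : Fin a) (m : Fin (s + 1)) :
    (t2V z i).coeff m = z (i, m) := by
  rw [t2V, Polynomial.finsetSum_coeff, Finset.sum_eq_single m]
  · rw [Polynomial.coeff_monomial, if_pos rfl]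
  · intro b _ hb
    rw [Polynomial.coeff_monomial, if_neg fun h => hb (Fin.ext h)]
  · intro h
    exact absurd (Finset.mem_univ m) h

/-- the theorem over the polynomials -/
theorem t2_poly [IsAlgClosed C] (hn : 0 < n) (h : n * c < a)
    (p : (Fin n → Fin a) → Fin c → Polynomial C) :
    ∃ v : Fin a → Polynomial C, v ≠ 0 ∧
      ∀ k, ∑ i : Fin n → Fin a, p i k * ∏ j, v (i j) = 0 := by
  classical
  let D : ℕ := Finset.univ.sup fun x : (Fin n → Fin a) × Fin c => (p x.1 x.2).natDegree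
  have hD : ∀ i k, (p i k).natDegree ≤ D := fun i k =>
    Finset.le_sup (f := fun x : (Fin n → Fin a) × Fin c => (p x.1 x.2).natDegree)
      (Finset.mem_univ (i, k))
  let s : ℕ := c * (D + 1)
  have hcard : Fintype.card (Fin c × Fin (n * s + D + 1)) < Fintype.card (Fin a × Fin (s + 1)) := by
    rw [Fintype.card_prod, Fintype.card_prod, Fintype.card_fin, Fintype.card_fin, Fintype.card_fin,
      Fintype.card_fin]
    calc c * (n * s + D + 1) = n * c * s + s := by
          show c * (n * s + D + 1) = n * c * s + c * (D + 1)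
          ring
      _ < (n * c + 1) * (s + 1) := by
          have : (n * c + 1) * (s + 1) = n * c * s + s + (n * c + 1) := by ring
          rw [this]
          omega
      _ ≤ a * (s + 1) := Nat.mul_le_mul_right _ h
  obtain ⟨z, hz0, hz⟩ := exists_common_zero
    (fun x : Fin c × Fin (n * s + D + 1) => (t2F (fun i => p i x.1) s).coeff (x.2 : ℕ))
    (by
      intro x
      have h1 : MvPolynomial.eval 0 ((t2F (fun i => p i x.1) s).coeff (x.2 : ℕ)) =
          ((t2F (fun i => p i x.1) s).map (MvPolynomial.eval 0)).coeff (x.2 : ℕ) := by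
        rw [Polynomial.coeff_map]
      rw [h1, t2F_map, t2G_zero hn, Polynomial.coeff_zero]) hcard
  refine ⟨t2V z, ?_, fun k => ?_⟩
  · intro h0
    apply hz0
    funext ⟨i, m⟩
    rw [← t2V_coeff z i m, h0]
    rfl
  · show t2G (fun i => p i k) z = 0
    ext r
    rw [Polynomial.coeff_zero]
    by_cases hr : r < n * s + D + 1
    · have h1 := hz (k, ⟨r, hr⟩)
      simp only at h1
      rw [← t2F_map, Polynomial.coeff_map]
      exact h1
    · apply Polynomial.coeff_eq_zero_of_natDegree_lt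
      refine (t2G_natDegree _ z D fun i => hD i k).trans_lt ?_
      omega

end Generic

/-- The theorem of Tsen and Lang for the forms of degree `n` defined by multilinear maps.

PROOF. Let `e : Basis (Fin a) Q V`, `f : Basis (Fin c) Q W` (`finBasis`), `Q = RatFunc C`, `ψ_{i,k} = f.repr (Ψ (e ∘ i)) k` for
`i : Fin n → Fin a`. There are `q ≠ 0` in `C[X]` and `p_{i,k}` in `C[X]` with `q ψ_{i,k} = p_{i,k}`
(`IsLocalization.exist_integer_multiples`), let `D` bound the degrees of the `p_{i,k}`. Let `s = c (D + 1)`. Unknowns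
`X_(i,m)`, `i < a`, `m ≤ s`; `R = MvPolynomial (Fin a × Fin (s+1)) C`; `v_i = ∑_m X_(i,m) T^m` in `R[T]`,
`F_k = ∑_i p_{i,k} ∏_j v_{i j}` in `R[T]`, of degree `≤ n s + D`, `P_{k,r}` the coefficient of `T^r` in `F_k`, `r ≤ n s + D`:
`c (n s + D + 1)` polynomials in `a (s + 1)` variables, which vanish at `0` as `n > 0`; `a ≥ n c + 1` gives
`c (n s + D + 1) < a (s + 1)`. Apply `exists_common_zero`: there are `v_i` in `C[T]`, not all zero (a nonzero coefficient), with
`∑_i p_{i,k} ∏_j v_{i j} = 0` for all `k`; then `v = ∑_i v_i e_i` (image in `Q`) is not zero and by multilinearity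
(`MultilinearMap.map_sum`, `map_smul_univ`) `q Ψ(v,..,v) = 0`. (Compare `Pool/Agent/Lib/MP_2619d0_ag/Q2/TLc.lean`, `TLd.lean`
on main, the case of quadratic forms over `ℂ`.) -/
theorem tsen_lang {C V W : Type} [Field C] [IsAlgClosed C] [AddCommGroup V] [Module (RatFunc C) V]
    [FiniteDimensional (RatFunc C) V] [AddCommGroup W] [Module (RatFunc C) W]
    [FiniteDimensional (RatFunc C) W] {n : ℕ} (hn : 0 < n)
    (Ψ : MultilinearMap (RatFunc C) (fun _ : Fin n => V) W)
    (h : n * finrank (RatFunc C) W < finrank (RatFunc C) V) :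
    ∃ v : V, v ≠ 0 ∧ Ψ (fun _ => v) = 0 := by
  classical
  let e := finBasis (RatFunc C) V
  let w := finBasis (RatFunc C) W
  obtain ⟨b, hb⟩ := IsLocalization.exist_integer_multiples_of_finite
    (nonZeroDivisors (Polynomial C))
    (fun x : (Fin n → Fin (finrank (RatFunc C) V)) × Fin (finrank (RatFunc C) W) =>
      w.repr (Ψ fun j => e (x.1 j)) x.2)
  have hc : ∀ (i : Fin n → Fin (finrank (RatFunc C) V)) (k : Fin (finrank (RatFunc C) W)),
      ∃ p : Polynomial C, algebraMap (Polynomial C) (RatFunc C) p =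
        algebraMap (Polynomial C) (RatFunc C) (b : Polynomial C) *
          w.repr (Ψ fun j => e (i j)) k := by
    intro i k
    obtain ⟨p, hp⟩ := hb (i, k)
    exact ⟨p, by rw [hp, Algebra.smul_def]⟩
  choose p hp using hc
  obtain ⟨v, hv0, hv⟩ := t2_poly hn h p
  have hinj : Function.Injective (algebraMap (Polynomial C) (RatFunc C)) :=
    IsFractionRing.injective (Polynomial C) (RatFunc C)
  have hbne : algebraMap (Polynomial C) (RatFunc C) (b : Polynomial C) ≠ 0 := fun h0 =>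
    nonZeroDivisors.ne_zero b.2 (hinj (by rw [h0, map_zero]))
  refine ⟨∑ i, algebraMap (Polynomial C) (RatFunc C) (v i) • e i, ?_, ?_⟩
  · intro h0
    apply hv0
    funext i
    have h1 := Fintype.linearIndependent_iff.mp e.linearIndependent _ h0 i
    exact hinj (by rw [h1, Pi.zero_apply, map_zero])
  · apply w.repr.injective
    rw [map_zero]
    ext k
    rw [Finsupp.zero_apply]
    apply (mul_eq_zero.mp (?_ : algebraMap (Polynomial C) (RatFunc C) (b : Polynomial C) *
      w.repr (Ψ fun _ => ∑ i, algebraMap (Polynomial C) (RatFunc C) (v i) • e i) k = 0)).resolve_left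
      hbne
    have h1 : (Ψ fun _ => ∑ i, algebraMap (Polynomial C) (RatFunc C) (v i) • e i) =
        ∑ i : Fin n → Fin (finrank (RatFunc C) V),
          (∏ j, algebraMap (Polynomial C) (RatFunc C) (v (i j))) • Ψ fun j => e (i j) := by
      rw [MultilinearMap.map_sum Ψ (fun (_ : Fin n) (i : Fin (finrank (RatFunc C) V)) =>
        algebraMap (Polynomial C) (RatFunc C) (v i) • e i)]
      refine Finset.sum_congr rfl fun i _ => ?_
      exact MultilinearMap.map_smul_univ Ψ
        (fun j => algebraMap (Polynomial C) (RatFunc C) (v (i j))) (fun j => e (i j))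
    rw [h1, map_sum, Finsupp.finsetSum_apply, Finset.mul_sum]
    have h2 := congrArg (algebraMap (Polynomial C) (RatFunc C)) (hv k)
    rw [map_zero, map_sum] at h2
    rw [← h2]
    refine Finset.sum_congr rfl fun i _ => ?_
    rw [map_smul, Finsupp.smul_apply, smul_eq_mul, map_mul, map_prod, hp i k]
    ring

end Pool.Agent.Lib.MP_89bcae_ag.Bra.Tsn

end

section

/-!
# Cyclic groups
-/

namespace Pool.Agent.Lib.MP_89bcae_ag.Bra.Tsn

section T5aux

variable {G A : Type} [Group G] [CommGroup A] [MulDistribMulAction G A]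

/-- The coefficients of the powers of `c e_t`. -/
private def T5D (t : G) (b : G → G → A) (c : A) : ℕ → A
  | 0 => (b 1 1)⁻¹
  | i + 1 => c * (t • T5D t b c i) * b t (t ^ i)

private lemma T5_one_left {b : G → G → A}
    (hb : ∀ g h j : G, b g h * b (g * h) j = g • b h j * b g (h * j)) (j : G) :
    b 1 j = b 1 1 := by
  have h := hb 1 1 j
  rw [one_smul, mul_one, one_mul] at h
  have h2 : b 1 1 * b 1 j = b 1 j * b 1 j := h
  exact (mul_right_cancel h2).symm

private lemma T5_one_right {b : G → G → A}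
    (hb : ∀ g h j : G, b g h * b (g * h) j = g • b h j * b g (h * j)) (g : G) :
    b g 1 = g • b 1 1 := by
  have h := hb g 1 1
  rw [mul_one, mul_one] at h
  exact mul_right_cancel h

private lemma T5D_one {t : G} {b : G → G → A} {c : A}
    (hb : ∀ g h j : G, b g h * b (g * h) j = g • b h j * b g (h * j)) :
    T5D t b c 1 = c := by
  change c * (t • (b 1 1)⁻¹) * b t (t ^ 0) = c
  rw [pow_zero, T5_one_right hb t, smul_inv', mul_assoc, inv_mul_cancel, mul_one]

private lemma T5D_add {t : G} {b : G → G → A} {c : A}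
    (hb : ∀ g h j : G, b g h * b (g * h) j = g • b h j * b g (h * j)) (i j : ℕ) :
    T5D t b c (i + j) = T5D t b c i * (t ^ i • T5D t b c j) * b (t ^ i) (t ^ j) := by
  induction i with
  | zero =>
    rw [zero_add, pow_zero, one_smul, T5_one_left hb]
    change _ = (b 1 1)⁻¹ * _ * _
    rw [mul_comm (b 1 1)⁻¹, mul_assoc, inv_mul_cancel, mul_one]
  | succ i ih =>
    have e1 : T5D t b c (i + 1 + j) = c * (t • T5D t b c (i + j)) * b t (t ^ (i + j)) := by
      rw [show i + 1 + j = (i + j) + 1 by ring]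
      rfl
    have e2 : T5D t b c (i + 1) = c * (t • T5D t b c i) * b t (t ^ i) := rfl
    have e3 := hb t (t ^ i) (t ^ j)
    rw [← pow_succ', ← pow_add] at e3
    have e4 : t ^ (i + 1) • T5D t b c j = t • t ^ i • T5D t b c j := by
      rw [smul_smul, ← pow_succ']
    rw [e1, ih, e2, smul_mul', smul_mul', e4]
    calc c * (t • T5D t b c i * t • t ^ i • T5D t b c j * t • b (t ^ i) (t ^ j)) *
          b t (t ^ (i + j))
        = c * (t • T5D t b c i * t • t ^ i • T5D t b c j) *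
          (t • b (t ^ i) (t ^ j) * b t (t ^ (i + j))) := by
          simp only [mul_assoc]
      _ = c * (t • T5D t b c i * t • t ^ i • T5D t b c j) *
          (b t (t ^ i) * b (t ^ (i + 1)) (t ^ j)) := by rw [e3]
      _ = c * t • T5D t b c i * b t (t ^ i) * t • t ^ i • T5D t b c j *
          b (t ^ (i + 1)) (t ^ j) := by
          simp only [mul_assoc, mul_left_comm, mul_comm]

private lemma T5D_prod {t : G} {b : G → G → A} {c : A} (i : ℕ) :
    T5D t b c i = (∏ k ∈ Finset.range i, t ^ k • c) * T5D t b 1 i := by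
  induction i with
  | zero =>
    rw [Finset.range_zero, Finset.prod_empty, one_mul]
    rfl
  | succ i ih =>
    change c * (t • T5D t b c i) * b t (t ^ i) =
      (∏ k ∈ Finset.range (i + 1), t ^ k • c) * (1 * (t • T5D t b 1 i) * b t (t ^ i))
    rw [ih, Finset.prod_range_succ', pow_zero, one_smul, one_mul, smul_mul', Finset.smul_prod']
    have e1 : ∀ k, t • t ^ k • c = t ^ (k + 1) • c := by
      intro k
      rw [smul_smul, ← pow_succ']
    simp only [e1]
    simp only [mul_assoc, mul_left_comm, mul_comm]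

private theorem T5_core [Fintype G] (hG : IsCyclic G)
    (hn : ∀ u : A, (∀ g : G, g • u = u) → ∃ z : A, ∏ g : G, g • z = u)
    (b : G → G → A)
    (hb : ∀ g h j : G, b g h * b (g * h) j = g • b h j * b g (h * j)) :
    ∃ a : G → A, ∀ g h : G, b g h * a (g * h) = g • a h * a g := by
  classical
  obtain ⟨t, ht⟩ := hG.exists_generator
  set n := orderOf t with hndef
  have htn : t ^ n = 1 := pow_orderOf_eq_one t
  have hfix : ∀ v : A, t • v = v → ∀ g : G, g • v = v := by
    intro v hv g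
    obtain ⟨k, rfl⟩ := Subgroup.mem_zpowers_iff.1 (ht g)
    have : t ∈ MulAction.stabilizer G v := hv
    exact (MulAction.stabilizer G v).zpow_mem this k
  set u := T5D t b 1 n with hu
  have hv : t • (u * b 1 1) = u * b 1 1 := by
    have h1 := T5D_add (c := (1 : A)) hb (t := t) n 1
    have h2 := T5D_add (c := (1 : A)) hb (t := t) 1 n
    rw [htn, T5D_one hb, one_smul, mul_one, T5_one_left hb, ← hu] at h1
    rw [htn, T5D_one hb, one_mul, pow_one, T5_one_right hb, ← hu, ← smul_mul'] at h2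
    rw [← h2, ← h1, add_comm]
  obtain ⟨z, hz⟩ := hn _ (hfix _ hv)
  have hprod : (∏ k ∈ Finset.range n, t ^ k • z⁻¹) = (u * b 1 1)⁻¹ := by
    rw [← hz, ← Finset.prod_inv_distrib]
    have himg : Finset.image (fun i => t ^ i) (Finset.range n) = Finset.univ := by
      rw [hndef, IsCyclic.image_range_orderOf ht]
    rw [← himg, Finset.prod_image]
    · refine Finset.prod_congr rfl fun k _ => ?_
      rw [smul_inv']
    · intro x hx y hy hxy
      exact pow_injOn_Iio_orderOf (Finset.mem_range.1 hx) (Finset.mem_range.1 hy) hxy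
  have hDn : T5D t b z⁻¹ n = (b 1 1)⁻¹ := by
    rw [T5D_prod, hprod, ← hu, mul_inv, mul_comm u⁻¹, mul_assoc, inv_mul_cancel, mul_one]
  have hper : ∀ i, T5D t b z⁻¹ (i + n) = T5D t b z⁻¹ i := by
    intro i
    rw [T5D_add hb, htn, hDn, T5_one_right hb (t ^ i), smul_inv', mul_assoc, inv_mul_cancel,
      mul_one]
  have hper2 : ∀ i m, T5D t b z⁻¹ (i + n * m) = T5D t b z⁻¹ i := by
    intro i m
    induction m with
    | zero => rw [mul_zero, add_zero]
    | succ m ih => rw [mul_add, mul_one, ← add_assoc, hper, ih]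
  have hmod : ∀ i, T5D t b z⁻¹ i = T5D t b z⁻¹ (i % n) := by
    intro i
    conv_lhs => rw [← Nat.mod_add_div i n]
    exact hper2 _ _
  have hdep : ∀ i j, t ^ i = t ^ j → T5D t b z⁻¹ i = T5D t b z⁻¹ j := by
    intro i j hij
    rw [hmod i, hmod j, pow_inj_mod.1 hij]
  have hk : ∀ g : G, ∃ k : ℕ, t ^ k = g := by
    intro g
    have := ht g
    rw [← mem_powers_iff_mem_zpowers] at this
    exact this
  choose k hk using hk
  refine ⟨fun g => (T5D t b z⁻¹ (k g))⁻¹, fun g h => ?_⟩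
  have h1 : T5D t b z⁻¹ (k (g * h)) =
      T5D t b z⁻¹ (k g) * (g • T5D t b z⁻¹ (k h)) * b g h := by
    rw [hdep (k (g * h)) (k g + k h) (by rw [pow_add, hk, hk, hk]), T5D_add hb, hk, hk]
  change b g h * (T5D t b z⁻¹ (k (g * h)))⁻¹ =
    g • (T5D t b z⁻¹ (k h))⁻¹ * (T5D t b z⁻¹ (k g))⁻¹
  rw [h1, smul_inv', mul_inv, mul_inv, mul_comm _ (b g h)⁻¹, ← mul_assoc, mul_inv_cancel,
    one_mul, mul_comm]

end T5aux

/-- If all fixed elements are norms then all `2`-cocycles of a finite cyclic group are coboundaries.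

PROOF. Let `n = card G`, `t` a generator. (0) `b` may be normalised: the identities give `b 1 h = b 1 1` and
`b g 1 = g (b 1 1)`; dividing by the coboundary of the constant cochain `b 1 1` we may suppose `b 1 h = 1 = b g 1`.
(1) Let `γ : ℕ → Eˣ`, `γ 0 = 1`, `γ (i+1) = t (γ i) * b(t, t^i)` (in the extension `e_g e_h = b(g,h) e_{gh}`, `e_g x = g(x) e_g`,
one has `e_t ^ i = γ i e_{t^i}`). Then `γ (i + j) = γ i * t^i(γ j) * b(t^i, t^j)` (induction on `i`, cocycle identity for
`(t, t^i, t^j)`). (2) `u := γ n` satisfies `t u = u`: `γ (n + 1) = γ n * t^n (γ 1) * b(1, t) = u` (as `γ 1 = 1`) and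
`γ (1 + n) = γ 1 * t(γ n) * b(t, 1) = t u`. So `u` is fixed by `G`; `u = N(z)`, `z ≠ 0`. As `G = {t^0, .., t^(n-1)}`,
`N(z) = ∏_{i<n} t^i z`. (3) `e' = z⁻¹ e_t`, `e'^i = δ i e_{t^i}` with `δ i = γ i / ∏_{k<i} t^k z`: `δ n = 1`,
`δ (i + j) = δ i * t^i(δ j) * b(t^i, t^j)`, so `δ (i + n) = δ i` and `δ i` depends only on `t^i`. For `g = t^i` put `a g = (δ i)⁻¹`:
`δ (i+j) = δ i * g (δ j) * b(g,h)` reads `b(g,h) a(gh) = g a(h) a(g)` after division, up to the inverse: with
`a = (δ i)⁻¹`, `1 / a(gh) = b(g,h) / (a(g) g a(h))`, so `b(g,h) a(gh) = a(g) g a(h)`. -/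
theorem cyclic_cob {G E : Type} [Group G] [Fintype G] [Field E] [MulSemiringAction G E]
    (hG : IsCyclic G) (hn : ∀ u : E, (∀ g : G, g • u = u) → ∃ z : E, ∏ g : G, g • z = u)
    (b : G → G → Eˣ) (hb : DCoc b) : DCob b := by
  let _ : MulDistribMulAction G Eˣ := Units.mulDistribMulActionRight
  have hval : ∀ (g : G) (x : Eˣ), ((g • x : Eˣ) : E) = g • (x : E) := fun _ _ => rfl
  have hb' : ∀ g h j : G, b g h * b (g * h) j = g • b h j * b g (h * j) := by
    intro g h j
    ext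
    rw [Units.val_mul, Units.val_mul, hval]
    exact hb g h j
  have hn' : ∀ u : Eˣ, (∀ g : G, g • u = u) → ∃ z : Eˣ, ∏ g : G, g • z = u := by
    intro u hu
    obtain ⟨z, hz⟩ := hn u (fun g => by
      have := congrArg Units.val (hu g)
      rwa [hval] at this)
    have hz0 : z ≠ 0 := by
      rintro rfl
      have h0 : ∏ g : G, g • (0 : E) = 0 := by
        simp
      rw [h0] at hz
      exact u.ne_zero hz.symm
    refine ⟨Units.mk0 z hz0, ?_⟩
    ext
    rw [← hz, Units.coe_prod]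
    rfl
  obtain ⟨a, ha⟩ := T5_core hG hn' b hb'
  refine ⟨a, fun g h => ?_⟩
  have := congrArg Units.val (ha g h)
  rwa [Units.val_mul, Units.val_mul, hval] at this

end Pool.Agent.Lib.MP_89bcae_ag.Bra.Tsn

end

section

/-!
# The transfer
-/

namespace Pool.Agent.Lib.MP_89bcae_ag.Bra.Tsn

theorem t7_alg {M : Type} [CommGroup M] {p q s t u v w y z : M} (e1 : u * v = p * y)
    (e2 : s * z = q * y) (e3 : t * z = w) : p / q * (s / t) = u * (v / w) := by
  rw [← mul_div_assoc u v w, e1, div_mul_div_comm, div_eq_div_iff_mul_eq_mul, ← e3]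
  calc p * s * (t * z) = p * t * (s * z) := by
        simp only [mul_comm, mul_left_comm]
    _ = p * y * (q * t) := by
        rw [e2]
        simp only [mul_comm, mul_left_comm]

/-- The transfer for cocycles which are `1` on `H × H`, with values in an abelian group. -/
theorem t7_core {G M : Type} [Group G] [Finite G] [CommGroup M] [MulDistribMulAction G M]
    (H : Subgroup G) (b : G → G → M) (hb : ∀ g h j : G, b g h * b (g * h) j = g • b h j * b g (h * j))
    (h1 : ∀ g ∈ H, ∀ h ∈ H, b g h = 1) :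
    ∃ a : G → M, ∀ g h : G, b g h ^ H.index * a (g * h) = g • a h * a g := by
  classical
  have : Fintype (G ⧸ H) := Fintype.ofFinite _
  let r : G ⧸ H → G := Quotient.out
  have hr : ∀ x : G ⧸ H, (r x : G ⧸ H) = x := fun x => QuotientGroup.out_eq' x
  have hmem : ∀ (g : G) (x : G ⧸ H), (r (g • x))⁻¹ * (g * r x) ∈ H := by
    intro g x
    rw [← QuotientGroup.eq, hr]
    show g • x = ((g * r x : G) : G ⧸ H)
    conv_lhs => rw [← hr x]
    rfl
  let a : G → G ⧸ H → M := fun g x => b g (r x) / b (r (g • x)) ((r (g • x))⁻¹ * (g * r x))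
  have key : ∀ (g g' : G) (x : G ⧸ H),
      g • a g' x * a g (g' • x) = b g g' * a (g * g') x := by
    intro g g' x
    have e1 := hb g g' (r x)
    have e2 := hb g (r (g' • x)) ((r (g' • x))⁻¹ * (g' * r x))
    have e3 := hb (r (g • g' • x)) ((r (g • g' • x))⁻¹ * (g * r (g' • x)))
      ((r (g' • x))⁻¹ * (g' * r x))
    rw [h1 _ (hmem g (g' • x)) _ (hmem g' x), smul_one, one_mul] at e3
    have f1 : r (g' • x) * ((r (g' • x))⁻¹ * (g' * r x)) = g' * r x := by group
    have f2 : r (g • g' • x) * ((r (g • g' • x))⁻¹ * (g * r (g' • x))) = g * r (g' • x) := by group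
    have f3 : (r (g • g' • x))⁻¹ * (g * r (g' • x)) * ((r (g' • x))⁻¹ * (g' * r x)) =
        (r (g • g' • x))⁻¹ * (g * g' * r x) := by group
    rw [f1] at e2
    rw [f2, f3] at e3
    show g • (b g' (r x) / b (r (g' • x)) ((r (g' • x))⁻¹ * (g' * r x))) *
      (b g (r (g' • x)) / b (r (g • g' • x)) ((r (g • g' • x))⁻¹ * (g * r (g' • x)))) =
      b g g' * (b (g * g') (r x) / b (r ((g * g') • x)) ((r ((g * g') • x))⁻¹ * (g * g' * r x)))
    rw [mul_smul, smul_div']
    exact t7_alg e1 e2 e3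
  refine ⟨fun g => ∏ x, a g x, fun g h => ?_⟩
  show b g h ^ H.index * ∏ x, a (g * h) x = g • (∏ x, a h x) * ∏ x, a g x
  have hre : ∏ x, a g x = ∏ x, a g (h • x) :=
    (Fintype.prod_equiv (MulAction.toPerm h) (fun x => a g (h • x)) (fun x => a g x)
      (fun x => rfl)).symm
  rw [hre, Finset.smul_prod', ← Finset.prod_mul_distrib, Finset.prod_congr rfl fun x _ => key g h x,
    Finset.prod_mul_distrib, Finset.prod_const, Finset.card_univ, Subgroup.index, Nat.card_eq_fintype_card]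

/-- A `2`-cocycle whose restriction to `H` is a coboundary is a coboundary up to the power `(G : H)`.

PROOF. (1) Extend `c` by `1` outside `H` and divide `b` by its coboundary: `b' g h = b g h * c (g h) / (g (c h) * c g)` is a cocycle
with `b' = 1` on `H × H`, and `b ^ m` is a coboundary if `b' ^ m` is. (2) Suppose `b = 1` on `H × H`. For `x` in `G ⧸ H` let `r x` be
the representative (`Quotient.out`); for `g` in `G`: `g * r x = r (g x) * h(g, x)`, `h(g, x) = (r (g x))⁻¹ * g * r x` in `H`. Put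
`a(g, x) = b(g, r x) / b(r (g x), h(g, x))` and `α g = ∏_x a(g, x)`. In the extension `e_g e_h = b(g,h) e_{gh}`, `e_g x = g(x) e_g`,
`e_g e_{r x} = a(g, x) e_{r (g x)} e_{h(g,x)}`, `e_h e_h' = e_{hh'}` for `h`, `h'` in `H`. Compute `e_g e_g' e_{r x}` in two ways:
`g(a(g', x)) * a(g, g' x) = b(g, g') * a(g g', x)` (a consequence of three or four cocycle identities, for
`(g, g', r x)`, `(g, r(g'x), h(g',x))`, `(r(gg'x), h(g,g'x), h(g',x))`, with `h(gg', x) = h(g, g'x) h(g', x)`). Take the product over `x`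
(`x ↦ g' x` is a bijection of `G ⧸ H`): `b(g,g')^m α(gg') = g(α(g')) α(g)`, `m = card (G ⧸ H) = H.index`. -/
theorem transfer {G E : Type} [Group G] [Finite G] [Field E] [MulSemiringAction G E]
    (H : Subgroup G) (b : G → G → Eˣ) (hb : DCoc b) (c : G → Eˣ)
    (hc : ∀ g ∈ H, ∀ h ∈ H, (b g h : E) * c (g * h) = g • (c h : E) * c g) :
    DCob fun g h => b g h ^ H.index := by
  classical
  let _ : MulDistribMulAction G Eˣ := Units.mulDistribMulActionRight
  have hcoe : ∀ (g : G) (u : Eˣ), ((g • u : Eˣ) : E) = g • (u : E) := fun g u => rfl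
  have hb' : ∀ g h j : G, b g h * b (g * h) j = g • b h j * b g (h * j) := by
    intro g h j
    ext
    exact hb g h j
  let c' : G → Eˣ := fun g => if g ∈ H then c g else 1
  have hc' : ∀ g ∈ H, ∀ h ∈ H, b g h * c' (g * h) = g • c' h * c' g := by
    intro g hg h hh
    ext
    simp only [c', if_pos hg, if_pos hh, if_pos (H.mul_mem hg hh)]
    exact hc g hg h hh
  obtain ⟨α, hα⟩ := t7_core H (fun g h => b g h * c' (g * h) / (g • c' h * c' g)) (by
      intro g h j
      show b g h * c' (g * h) / (g • c' h * c' g) *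
        (b (g * h) j * c' (g * h * j) / ((g * h) • c' j * c' (g * h))) =
        g • (b h j * c' (h * j) / (h • c' j * c' h)) *
        (b g (h * j) * c' (g * (h * j)) / (g • c' (h * j) * c' g))
      rw [smul_div', smul_mul', smul_mul', mul_smul, div_mul_div_comm, div_mul_div_comm,
        div_eq_div_iff_mul_eq_mul, mul_assoc g h j]
      have e := hb' g h j
      calc b g h * c' (g * h) * (b (g * h) j * c' (g * (h * j))) *
            (g • h • c' j * g • c' h * (g • c' (h * j) * c' g))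
          = (b g h * b (g * h) j) * (c' (g * h) * c' (g * (h * j)) *
            (g • h • c' j * g • c' h * (g • c' (h * j) * c' g))) := by
            simp only [mul_assoc, mul_comm, mul_left_comm]
        _ = _ := by
            rw [e]
            simp only [mul_assoc, mul_comm, mul_left_comm]) (by
      intro g hg h hh
      show b g h * c' (g * h) / (g • c' h * c' g) = 1
      rw [hc' g hg h hh, div_self'])
  refine ⟨fun g => α g * c' g ^ H.index, fun g h => ?_⟩
  have e := hα g h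
  have e1 : b g h ^ H.index * (α (g * h) * c' (g * h) ^ H.index) =
      g • (α h * c' h ^ H.index) * (α g * c' g ^ H.index) := by
    have e2 : (b g h * c' (g * h) / (g • c' h * c' g)) ^ H.index * α (g * h) = g • α h * α g := e
    rw [div_pow, mul_pow, mul_pow, div_mul_eq_mul_div, div_eq_iff_eq_mul] at e2
    rw [smul_mul', smul_pow']
    calc b g h ^ H.index * (α (g * h) * c' (g * h) ^ H.index)
        = b g h ^ H.index * c' (g * h) ^ H.index * α (g * h) := by
          simp only [mul_comm, mul_left_comm]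
      _ = _ := by
          rw [e2]
          simp only [mul_assoc, mul_comm, mul_left_comm]
  have e3 := congrArg (fun u : Eˣ => (u : E)) e1
  exact e3

end Pool.Agent.Lib.MP_89bcae_ag.Bra.Tsn

end

section

/-!
# Norms
-/

namespace Pool.Agent.Lib.MP_89bcae_ag.Bra.Tsn

/-- `E` is a finite extension of the field of rational functions over an algebraically closed field, `G` a
finite group of automorphisms of `E`: the fixed elements are norms.

PROOF. `Q = RatFunc C`, `E₁ = FixedPoints.intermediateField G : IntermediateField Q E`, `n = card G`, `V = E × E₁`, `W = E₁`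
over `Q`. `[E : E₁] = n` (`FixedPoints.finrank_eq_card` for `FixedPoints.subfield G E`; the same underlying set), so with
`d = [E₁ : Q]` (`Module.finrank_mul_finrank`): `dim V = n d + d > n d = n dim W`. We may suppose `u ≠ 0` (for `u = 0` take `z = 0`;
`G` is not empty). Number `G` by `Fin n` (`Fintype.equivFin`). `Ψ((z_i, w_i)_i) = π(∏_i g_i z_i) - u ∏_i w_i` with `π : E → E₁` a
`Q`-linear map which is the identity on `E₁` (`Submodule` complement / `LinearMap.exists_leftInverse_of_injective`; it is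
used because the product over `G` of one `z` is in `E₁`); or use `V`, `W = E₁`, or `W = E` is NOT possible (dimension). It is
multilinear (`MultilinearMap.mkPiAlgebra` composed with the linear maps `z ↦ g_i z`, `compLinearMap`, `LinearMap.compMultilinearMap`).
`tsen_lang` gives `(z, w) ≠ 0` with `N(z) := ∏ g z = u w ^ n`. If `w = 0` then `N(z) = 0`, so some `g z = 0`, `z = 0`, a
contradiction. So `N(z / w) = N(z) / w ^ n = u` (`w` is fixed by `G`). -/
theorem exists_norm_eq {C E G : Type} [Field C] [IsAlgClosed C] [Field E] [Algebra (RatFunc C) E]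
    [FiniteDimensional (RatFunc C) E] [Group G] [Fintype G] [MulSemiringAction G E]
    [FaithfulSMul G E] [SMulCommClass G (RatFunc C) E] (u : E) (hu : ∀ g : G, g • u = u) :
    ∃ z : E, ∏ g : G, g • z = u := by
  obtain ⟨E₁, hE₁⟩ : ∃ E₁ : IntermediateField (RatFunc C) E,
      E₁ = (FixedPoints.intermediateField G : IntermediateField (RatFunc C) E) := ⟨_, rfl⟩
  have hmem : ∀ x : E, x ∈ E₁ ↔ ∀ g : G, g • x = x := by
    intro x
    rw [hE₁]
    exact Iff.rfl
  have hfin : Module.finrank E₁ E = Fintype.card G := by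
    rw [hE₁]
    exact FixedPoints.finrank_eq_card G E
  have hcard : 0 < Fintype.card G := Fintype.card_pos
  have hdim : Module.finrank (RatFunc C) E₁ * Fintype.card G = Module.finrank (RatFunc C) E := by
    rw [← hfin]
    exact Module.finrank_mul_finrank (RatFunc C) E₁ E
  have hd : 0 < Module.finrank (RatFunc C) E₁ := Module.finrank_pos
  obtain ⟨π, hπ⟩ := LinearMap.exists_leftInverse_of_injective (E₁.val.toLinearMap)
    (LinearMap.ker_eq_bot.2 (E₁.val.toRingHom.injective))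
  have hπ' : ∀ x : E₁, π (x : E) = x := fun x => LinearMap.congr_fun hπ x
  have e : Fin (Fintype.card G) ≃ G := (Fintype.equivFin G).symm
  let A : MultilinearMap (RatFunc C) (fun _ : Fin (Fintype.card G) => E × E₁) E₁ :=
    π.compMultilinearMap ((MultilinearMap.mkPiAlgebra (RatFunc C) (Fin (Fintype.card G)) E).compLinearMap
      (fun i => (DistribSMul.toLinearMap (RatFunc C) E (e i)).comp (LinearMap.fst (RatFunc C) E E₁)))
  let B : MultilinearMap (RatFunc C) (fun _ : Fin (Fintype.card G) => E × E₁) E₁ :=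
    (LinearMap.mulLeft (RatFunc C) (⟨u, (hmem u).2 hu⟩ : E₁)).compMultilinearMap
      ((MultilinearMap.mkPiAlgebra (RatFunc C) (Fin (Fintype.card G)) E₁).compLinearMap
        (fun _ => LinearMap.snd (RatFunc C) E E₁))
  have hA : ∀ v : E × E₁, A (fun _ => v) = π (∏ i, e i • v.1) := fun v => rfl
  have hB : ∀ v : E × E₁, B (fun _ => v) = (⟨u, (hmem u).2 hu⟩ : E₁) * ∏ _i : Fin (Fintype.card G), v.2 :=
    fun v => rfl
  obtain ⟨v, hv, hΨ⟩ := tsen_lang hcard (A - B) (by
    rw [Module.finrank_prod, ← hdim, mul_comm]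
    omega)
  rw [MultilinearMap.sub_apply, sub_eq_zero, hA, hB, Finset.prod_const, Finset.card_univ,
    Fintype.card_fin] at hΨ
  have hprod : ∏ i, e i • v.1 = ∏ g : G, g • v.1 := Equiv.prod_comp e (fun g => g • v.1)
  have hfix : (∏ g : G, g • v.1) ∈ E₁ := by
    rw [hmem]
    intro h
    rw [Finset.smul_prod']
    simp only [smul_smul]
    exact Equiv.prod_comp (Equiv.mulLeft h) (fun g => g • v.1)
  rw [hprod] at hΨ
  have hN : ∏ g : G, g • v.1 = u * (v.2 : E) ^ Fintype.card G := by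
    have h1 := hπ' ⟨_, hfix⟩
    rw [show ((⟨_, hfix⟩ : E₁) : E) = ∏ g : G, g • v.1 from rfl, hΨ] at h1
    have h2 := congrArg (fun x : E₁ => (x : E)) h1
    simpa using h2.symm
  have hw : (v.2 : E) ≠ 0 := by
    intro h0
    rw [h0, zero_pow hcard.ne', mul_zero, Finset.prod_eq_zero_iff] at hN
    obtain ⟨g, _, hg⟩ := hN
    have h1 : v.1 = 0 := (smul_eq_zero_iff_eq g).1 hg
    exact hv (Prod.ext h1 (Subtype.ext h0))
  refine ⟨v.1 * (v.2 : E)⁻¹, ?_⟩
  have h3 : ∀ g : G, g • (v.1 * (v.2 : E)⁻¹) = (g • v.1) * (v.2 : E)⁻¹ := by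
    intro g
    rw [smul_mul', smul_inv'', (hmem _).1 v.2.2 g]
  rw [Finset.prod_congr rfl (fun g _ => h3 g), Finset.prod_mul_distrib, hN, Finset.prod_const,
    Finset.card_univ, inv_pow, mul_inv_cancel_right₀ (pow_ne_zero _ hw)]

end Pool.Agent.Lib.MP_89bcae_ag.Bra.Tsn

end

section

/-!
# Finite groups
-/

namespace Pool.Agent.Lib.MP_89bcae_ag.Bra.Tsn

/-- Hilbert's theorem 90 for a finite group of automorphisms. -/
theorem h90_fin {G E : Type} [Group G] [Finite G] [Field E] [MulSemiringAction G E]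
    [FaithfulSMul G E] (a : G → Eˣ) (ha : ∀ g h : G, (a (g * h) : E) = g • (a h : E) * a g) :
    ∃ e : Eˣ, ∀ g : G, (a g : E) * e = g • (e : E) := by
  classical
  have := Fintype.ofFinite G
  let χ : G → (E →* E) := fun g => (MulSemiringAction.toRingHom G E g : E →* E)
  have hχ : Function.Injective χ := by
    intro g h hgh
    exact eq_of_smul_eq_smul (α := E) fun x => DFunLike.congr_fun hgh x
  have hli : LinearIndependent E fun g : G => (χ g : E → E) :=
    (linearIndependent_monoidHom E E).comp χ hχ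
  obtain ⟨z, hz⟩ : ∃ z : E, ∑ g : G, (a g : E) * g • z ≠ 0 := by
    by_contra hcon
    push Not at hcon
    have h1 := Fintype.linearIndependent_iff.1 hli (fun g => (a g : E)) (by
      funext z
      rw [Finset.sum_apply]
      exact hcon z) 1
    exact (a 1).ne_zero h1
  have key : ∀ g : G, (a g : E) * g • (∑ h : G, (a h : E) * h • z) = ∑ h : G, (a h : E) * h • z := by
    intro g
    rw [Finset.smul_sum, Finset.mul_sum]
    refine Fintype.sum_equiv (Equiv.mulLeft g) _ _ fun h => ?_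
    rw [Equiv.coe_mulLeft, ha, smul_mul', smul_smul]
    ring
  refine ⟨(Units.mk0 _ hz)⁻¹, fun g => ?_⟩
  rw [Units.val_inv_eq_inv_val, Units.val_mk0, smul_inv'']
  have h2 := key g
  have h3 : g • (∑ h : G, (a h : E) * h • z) ≠ 0 := by
    intro h
    rw [h, mul_zero] at h2
    exact hz h2.symm
  rw [mul_inv_eq_iff_eq_mul₀ hz, eq_inv_mul_iff_mul_eq₀ h3, mul_comm]
  exact h2
/-- The case of `ℓ`-groups. -/
theorem pgroup_cob {C E : Type} [Field C] [IsAlgClosed C] [Field E] [Algebra (RatFunc C) E]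
    [FiniteDimensional (RatFunc C) E] {ℓ : ℕ} (hℓ : ℓ.Prime) : ∀ (n : ℕ) (G : Type) [Group G]
    [Finite G] [MulSemiringAction G E] [FaithfulSMul G E] [SMulCommClass G (RatFunc C) E],
    Nat.card G = ℓ ^ n → ∀ b : G → G → Eˣ, DCoc b → DCob b := by
  have hF : Fact ℓ.Prime := ⟨hℓ⟩
  intro n
  induction n with
  | zero =>
    intro G _ _ _ _ _ hn b hb
    rw [pow_zero, Nat.card_eq_one_iff_unique] at hn
    obtain ⟨hs, -⟩ := hn
    refine ⟨fun _ => b 1 1, fun g h => ?_⟩
    have hg : g = 1 := Subsingleton.elim _ _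
    have hh : h = 1 := Subsingleton.elim _ _
    subst hg
    subst hh
    rw [one_smul]
  | succ n ih =>
    intro G _ _ _ _ _ hn b hb
    obtain ⟨N, hN⟩ := Sylow.exists_subgroup_card_pow_prime ℓ (n := n) (G := G)
      (by rw [hn]; exact pow_dvd_pow _ (Nat.le_succ n))
    have hind : N.index = ℓ := by
      have h1 := N.card_mul_index
      rw [hN, hn, pow_succ] at h1
      exact Nat.eq_of_mul_eq_mul_left (pow_pos hℓ.pos n) h1
    have hnorm : N.Normal := by
      refine Subgroup.normal_of_index_eq_minFac_card ?_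
      rw [hind, hn, hℓ.pow_minFac (Nat.succ_ne_zero n)]
    -- the restriction to `N`
    have h1 := ih N hN (fun g h => b g h) fun g h j => hb g h j
    obtain ⟨a, ha⟩ := h1
    classical
    let a' : G → Eˣ := fun g => if hg : g ∈ N then a ⟨g, hg⟩ else 1
    have ha' : ∀ g ∈ N, ∀ h ∈ N, (b g h : E) * a' (g * h) = g • (a' h : E) * a' g := by
      intro g hg h hh
      have h2 := ha ⟨g, hg⟩ ⟨h, hh⟩
      simp only [a', dif_pos hg, dif_pos hh, dif_pos (N.mul_mem hg hh)]
      exact h2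
    -- inflation
    obtain ⟨c, α, hc1, hc2, hc3⟩ := infl_discrete N (fun e he => by
      obtain ⟨f, hf⟩ := h90_fin (G := N) (fun g => e g) fun g h => he g g.2 h h.2
      exact ⟨f, fun g hg => hf ⟨g, hg⟩⟩) b hb a' ha'
    have hcN : ∀ g h, (c g h : E) ∈ Fix (RatFunc C) E N := fun g h =>
      (mem_Fix N).2 fun n hn => (hc3 g h n hn).2.2
    have hout : ∀ g : G, ∃ n ∈ N, (g : G ⧸ N).out = g * n := fun g => by
      refine ⟨g⁻¹ * (g : G ⧸ N).out, ?_, by group⟩
      rw [← QuotientGroup.eq]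
      simp
    have hcout : ∀ g h : G, c (g : G ⧸ N).out (h : G ⧸ N).out = c g h := by
      intro g h
      obtain ⟨n, hn, e1⟩ := hout g
      obtain ⟨n', hn', e2⟩ := hout h
      rw [e1, e2, (hc3 (g * n) h n' hn').2.1, (hc3 g h n hn).1]
    let c' : G ⧸ N → G ⧸ N → (Fix (RatFunc C) E N)ˣ := fun q r =>
      Units.mk0 ⟨c q.out r.out, hcN _ _⟩ fun h => (c q.out r.out).ne_zero (congrArg Subtype.val h)
    have hc'v : ∀ g h : G, (((c' g h : (Fix (RatFunc C) E N)ˣ) : Fix (RatFunc C) E N) : E) =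
        c g h := fun g h => by
      show (c (g : G ⧸ N).out (h : G ⧸ N).out : E) = c g h
      rw [hcout]
    have hc' : DCoc c' := by
      intro q r s
      induction q using QuotientGroup.induction_on with | _ g
      induction r using QuotientGroup.induction_on with | _ h
      induction s using QuotientGroup.induction_on with | _ j
      refine Subtype.ext ?_
      rw [← QuotientGroup.mk_mul, ← QuotientGroup.mk_mul]
      show ((c' g h : Fix (RatFunc C) E N) : E) * ((c' ((g * h : G) : G ⧸ N) j : Fix (RatFunc C) E N) : E)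
        = (((g : G ⧸ N) • (c' h j : Fix (RatFunc C) E N) : Fix (RatFunc C) E N) : E) *
          ((c' g ((h * j : G) : G ⧸ N) : Fix (RatFunc C) E N) : E)
      rw [mk_smul_Fix, hc'v, hc'v, hc'v, hc'v]
      exact hc2 g h j
    have hfaith : FaithfulSMul (G ⧸ N) (Fix (RatFunc C) E N) := faithful_Fix N
    have hcyc : IsCyclic (G ⧸ N) := isCyclic_of_prime_card (p := ℓ) (by
      rw [← hind]; rfl)
    have := Fintype.ofFinite (G ⧸ N)
    obtain ⟨β, hβ⟩ := cyclic_cob hcyc (fun u hu => exists_norm_eq (C := C) u hu) c' hc'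
    refine ⟨fun g => α g * Units.map (Fix (RatFunc C) E N).val.toMonoidHom (β g), fun g h => ?_⟩
    have h3 := congrArg Subtype.val (hβ g h)
    have h4 : (c g h : E) * ((β ((g * h : G) : G ⧸ N) : Fix (RatFunc C) E N) : E) =
        g • ((β (h : G ⧸ N) : Fix (RatFunc C) E N) : E) * ((β (g : G ⧸ N) : Fix (RatFunc C) E N) : E) := by
      rw [← hc'v, ← mk_smul_Fix N g]
      exact h3
    have h5 := hc1 g h
    show (b g h : E) * (α (g * h) * ((β ((g * h : G) : G ⧸ N) : Fix (RatFunc C) E N) : E)) =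
      g • ((α h : E) * ((β (h : G ⧸ N) : Fix (RatFunc C) E N) : E)) *
        (α g * ((β (g : G ⧸ N) : Fix (RatFunc C) E N) : E))
    rw [smul_mul']
    linear_combination ((β ((g * h : G) : G ⧸ N) : Fix (RatFunc C) E N) : E) * h5 +
      (g • (α h : E) * α g) * h4

/-- The `2`-cocycles of a finite group which acts on a finite extension of the field of rational functions are
coboundaries up to powers prime to `ℓ`. -/
theorem finite_level {C E G : Type} [Field C] [IsAlgClosed C] [Field E] [Algebra (RatFunc C) E]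
    [FiniteDimensional (RatFunc C) E] [Group G] [Finite G] [MulSemiringAction G E]
    [FaithfulSMul G E] [SMulCommClass G (RatFunc C) E] {ℓ : ℕ} (hℓ : ℓ.Prime) (b : G → G → Eˣ)
    (hb : DCoc b) : ∃ m : ℕ, m.Coprime ℓ ∧ DCob fun g h => b g h ^ m := by
  classical
  have hF : Fact ℓ.Prime := ⟨hℓ⟩
  let P : Sylow ℓ G := default
  obtain ⟨n, hn⟩ := IsPGroup.iff_card.1 P.isPGroup'
  obtain ⟨a, ha⟩ := pgroup_cob (C := C) hℓ n P hn (fun g h => b g h) fun g h j => hb g h j
  refine ⟨(P : Subgroup G).index, ?_, ?_⟩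
  · exact ((Nat.Prime.coprime_iff_not_dvd hℓ).2 P.not_dvd_index).symm
  · let a' : G → Eˣ := fun g => if hg : g ∈ (P : Subgroup G) then a ⟨g, hg⟩ else 1
    refine transfer (P : Subgroup G) b hb a' fun g hg h hh => ?_
    have h2 := ha ⟨g, hg⟩ ⟨h, hh⟩
    simp only [a', dif_pos hg, dif_pos hh, dif_pos ((P : Subgroup G).mul_mem hg hh)]
    exact h2

end Pool.Agent.Lib.MP_89bcae_ag.Bra.Tsn

end

section

/-!
# Tsen's theorem
-/

namespace Pool.Agent.Lib.MP_89bcae_ag.Bra

/-- Tsen's theorem: `E` is a function field in one variable over the algebraically closed field `C`, `S` an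
algebraic closure of `E`; a continuous `2`-cocycle of `Aut(S/E)` is trivial up to a power prime to `ℓ`.

PROOF. `b` has finitely many values (`finite_range₂`) and `b g h` depends only on the restrictions of `g`, `h` to the finite
set `T` (`hb.continuous`). By `exists_normal` there is a finite normal extension `E'` of `E` in `S` which contains `T` and the values
of `b`. `G := E' ≃ₐ[E] E'` is finite, acts faithfully on `E'` (`AlgEquiv.applyMulSemiringAction`). Let `RatFunc C` act on `E'` through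
`E` (`((algebraMap E E').comp (algebraMap (RatFunc C) E)).toAlgebra`; `E'` is finite over it by transitivity
(`FiniteDimensional.trans`, with the `IsScalarTower (RatFunc C) E E'`); `SMulCommClass G (RatFunc C) E'`). Choose lifts
`λ : G → (S ≃ₐ[E] S)` (`AlgEquiv.restrictNormalHom_surjective`; `IsAlgClosure E S` gives `Normal E S`) and put
`b' g h = b (λ g) (λ h)`, as an element of `E'ˣ`. By continuity, `b g h = b' (g|E') (h|E')` for all `g`, `h`; so `b'` is a cocycle:
`finite_level` gives `m` and `a' : G → E'ˣ`. Take `a g = a' (g|E')` in `Sˣ`; it is continuous: `g|E'` is determined by the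
images of a finite set of generators (a basis) of `E'` over `E`. (`hE` is not needed.) -/
theorem tsen {C E S : Type} [Field C] [IsAlgClosed C] [Field E] [Algebra (RatFunc C) E]
    [FiniteDimensional (RatFunc C) E] [Field S] [Algebra E S] [IsAlgClosure E S] {ℓ : ℕ}
    (hℓ : ℓ.Prime) (hE : (ℓ : E) ≠ 0) (b : (S ≃ₐ[E] S) → (S ≃ₐ[E] S) → Sˣ) (hb : IsCocycle b) :
    ∃ m : ℕ, m.Coprime ℓ ∧ IsCoboundary fun g h => b g h ^ m := by
  classical
  have hN : Normal E S := IsAlgClosure.normal E S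
  obtain ⟨T, hT⟩ := hb.continuous
  have hfin : (Set.range fun p : (S ≃ₐ[E] S) × (S ≃ₐ[E] S) => b p.1 p.2).Finite :=
    finite_range₂ hb.continuous
  obtain ⟨E', hfd, hnorm, hE'⟩ := exists_normal (K := E)
    (T ∪ hfin.toFinset.image (fun u : Sˣ => (u : S)))
  have hTE : ∀ x ∈ T, x ∈ E' := fun x hx => hE' x (Finset.mem_union_left _ hx)
  have hbE : ∀ g h, (b g h : S) ∈ E' := fun g h => hE' _ (Finset.mem_union_right _
    (Finset.mem_image.2 ⟨b g h, hfin.mem_toFinset.2 ⟨(g, h), rfl⟩, rfl⟩))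
  -- the restriction map
  let ρ : (S ≃ₐ[E] S) →* (E' ≃ₐ[E] E') := AlgEquiv.restrictNormalHom E'
  have hρ : ∀ (g : S ≃ₐ[E] S) (x : E'), ((ρ g x : E') : S) = g (x : S) := fun g x =>
    AlgEquiv.restrictNormal_commutes g E' x
  have hsurj : Function.Surjective ρ := AlgEquiv.restrictNormalHom_surjective S
  let lam : (E' ≃ₐ[E] E') → (S ≃ₐ[E] S) := Function.surjInv hsurj
  have hlam : ∀ σ, ρ (lam σ) = σ := Function.surjInv_eq hsurj
  have hagree : ∀ g g' : S ≃ₐ[E] S, ρ g = ρ g' → ∀ x ∈ T, g x = g' x := by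
    intro g g' h x hx
    have h1 := hρ g ⟨x, hTE x hx⟩
    have h2 := hρ g' ⟨x, hTE x hx⟩
    rw [h] at h1
    exact h1.symm.trans h2
  have key : ∀ g h g' h', ρ g = ρ g' → ρ h = ρ h' → b g h = b g' h' := fun g h g' h' h1 h2 =>
    hT g g' h h' (hagree g g' h1) (hagree h h' h2)
  -- the algebra structure
  let alg : Algebra (RatFunc C) E' :=
    ((algebraMap E E').comp (algebraMap (RatFunc C) E)).toAlgebra
  have tow : IsScalarTower (RatFunc C) E E' := IsScalarTower.of_algebraMap_eq' rfl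
  have fd : FiniteDimensional (RatFunc C) E' := Module.Finite.trans E E'
  have comm : SMulCommClass (E' ≃ₐ[E] E') (RatFunc C) E' := by
    refine ⟨fun g q x => ?_⟩
    rw [Algebra.smul_def, Algebra.smul_def]
    show g (algebraMap E E' (algebraMap (RatFunc C) E q) * x) =
      algebraMap E E' (algebraMap (RatFunc C) E q) * g x
    rw [map_mul, AlgEquiv.commutes]
  let b' : (E' ≃ₐ[E] E') → (E' ≃ₐ[E] E') → E'ˣ := fun σ τ =>
    Units.mk0 ⟨(b (lam σ) (lam τ) : S), hbE _ _⟩ (by
      intro h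
      exact (b (lam σ) (lam τ)).ne_zero (congrArg Subtype.val h))
  have hb' : ∀ σ τ, ((b' σ τ : E') : S) = b (lam σ) (lam τ) := fun σ τ => rfl
  have hcoc : Tsn.DCoc b' := by
    intro σ τ υ
    apply Subtype.ext
    have h1 := hb.cocycle (lam σ) (lam τ) (lam υ)
    have h2 : b (lam σ * lam τ) (lam υ) = b (lam (σ * τ)) (lam υ) :=
      key _ _ _ _ (by rw [map_mul, hlam, hlam, hlam]) rfl
    have h3 : b (lam σ) (lam τ * lam υ) = b (lam σ) (lam (τ * υ)) :=
      key _ _ _ _ rfl (by rw [map_mul, hlam, hlam, hlam])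
    rw [h2, h3] at h1
    have h4 : ((σ • (b' τ υ : E') : E') : S) = lam σ (b (lam τ) (lam υ) : S) := by
      have h5 := hρ (lam σ) (b' τ υ : E')
      rw [hlam] at h5
      exact h5
    show ((b' σ τ : E') : S) * ((b' (σ * τ) υ : E') : S) =
      ((σ • (b' τ υ : E') : E') : S) * ((b' σ (τ * υ) : E') : S)
    rw [h4]
    exact h1
  obtain ⟨m, hm, a', ha'⟩ := Tsn.finite_level (C := C) (E := E') (G := E' ≃ₐ[E] E') hℓ b' hcoc
  refine ⟨m, hm, fun g => Units.map (algebraMap E' S : E' →* S) (a' (ρ g)), ?_, ?_⟩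
  · refine ⟨Finset.univ.image fun i => ((Module.finBasis E E' i : E') : S), fun g g' h => ?_⟩
    have h1 : (ρ g).toLinearMap = (ρ g').toLinearMap := by
      refine (Module.finBasis E E').ext fun i => ?_
      apply Subtype.ext
      have h2 := h _ (Finset.mem_image.2 ⟨i, Finset.mem_univ _, rfl⟩)
      show ((ρ g (Module.finBasis E E' i) : E') : S) = ((ρ g' (Module.finBasis E E' i) : E') : S)
      rw [hρ, hρ]
      exact h2
    have h3 : ρ g = ρ g' := AlgEquiv.ext fun x => DFunLike.congr_fun h1 x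
    show Units.map (algebraMap E' S : E' →* S) (a' (ρ g)) =
      Units.map (algebraMap E' S : E' →* S) (a' (ρ g'))
    rw [h3]
  · intro g h
    have h1 := congrArg (fun z : E' => (z : S)) (ha' (ρ g) (ρ h))
    have h2 : ((b' (ρ g) (ρ h) : E') : S) = b g h := by
      rw [hb', key _ _ g h (hlam _) (hlam _)]
    have h3 : ((ρ g • (a' (ρ h) : E') : E') : S) = g ((a' (ρ h) : E') : S) := hρ g _
    have h4 : (((b' (ρ g) (ρ h) ^ m : E'ˣ) : E') : S) = ((b g h ^ m : Sˣ) : S) := by
      rw [Units.val_pow_eq_pow_val, Units.val_pow_eq_pow_val, ← h2]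
      rfl
    show ((b g h ^ m : Sˣ) : S) * ((a' (ρ (g * h)) : E') : S) =
      g ((a' (ρ h) : E') : S) * ((a' (ρ g) : E') : S)
    rw [← h4, ← h3, map_mul]
    exact h1

end Pool.Agent.Lib.MP_89bcae_ag.Bra

end

section

/-!
# Models: the embedding of the functions on the curve over `Ω` in an algebraic closure of `K = F(t, x, y)`
-/

open Polynomial IsDedekindDomain IsLocalRing

open scoped Classical

namespace Pool.Agent.Lib.MP_89bcae_ag.Brt

open Pool.Agent.Lib.MP_89bcae_ag.Wt Pool.Agent.Lib.MP_89bcae_ag.Wt.Lns Pool.Agent.Lib.MP_89bcae_ag.Bra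

section

variable {K S : Type} [Field K] [Field S] [Algebra K S] {L Ω : Type} [Field L] [Field Ω] [Algebra L Ω]
  {ℓ : ℕ} {f : L[X]}

/-- `Φ` is an embedding over `K = L(x, y)` of the functions on the curve over `Ω` in `S`; `i` is the embedding
of `L` in `K`. -/
structure IsModel (F : Type) [Field F] [Algebra F K] [Algebra F[X] L] (i : L →+* K) (x y : K)
    (Φ : FunField ℓ (f.map (algebraMap L Ω)) →+* S) : Prop where
  base : ∀ z : L, Φ (cO ℓ f Ω (algebraMap L Ω z)) = algebraMap K S (i z)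
  const : ∀ c : F, i (algebraMap F[X] L (C c)) = algebraMap F K c
  fx : Φ (polyF X) = algebraMap K S x
  fy : Φ yF = algebraMap K S y
  gen : ∀ M : Subfield K, (∀ z : L, i z ∈ M) → x ∈ M → y ∈ M → M = ⊤

variable {F : Type} [Field F] [Algebra F K] [Algebra F[X] L] {i : L →+* K}

variable [IsAlgClosed F] [IsAlgClosure K S] [IsAlgClosure L Ω]
  [hG : IsGood ℓ (f.map (algebraMap L Ω))] {x y : K}
  {Φ : FunField ℓ (f.map (algebraMap L Ω)) →+* S}

/-- The image of the functions over `L` is contained in `K`. PROOF: `FunField ℓ f` is generated as a ring by the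
constants of `L`, `x`, the inverses of the polynomials in `x` and `y` (`AdjoinRoot.induction_on`, `RatFunc.induction_on`);
the constants `p / q` with `p`, `q` in `F[X]` go to `p(t) / q(t)`. -/
theorem IsModel.toO_mem (hΦ : IsModel F i x y Φ) (r : FunField ℓ f) :
    ∃ z : K, Φ (toO ℓ f Ω r) = algebraMap K S z := by
  have hc : ∀ c : L, Φ (cO ℓ f Ω (algebraMap L Ω c)) ∈ (algebraMap K S).fieldRange := by
    intro c
    exact ⟨i c, (hΦ.base c).symm⟩
  have hp : ∀ p : L[X], Φ (toO ℓ f Ω (polyF p)) ∈ (algebraMap K S).fieldRange := by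
    intro p
    induction p using Polynomial.induction_on' with
    | add p q hp hq =>
      rw [map_add, map_add, map_add]
      exact add_mem hp hq
    | monomial n c =>
      rw [← C_mul_X_pow_eq_monomial, map_mul, map_mul, map_mul, map_pow, map_pow, map_pow]
      refine mul_mem ?_ (pow_mem ?_ n)
      · have h1 : toO ℓ f Ω (polyF (C c)) = cO ℓ f Ω (algebraMap L Ω c) := by
          unfold toO
          rw [funMap_polyF, map_C]
          rfl
        rw [h1]
        exact hc c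
      · have h1 : toO ℓ f Ω (polyF X) = polyF X := by
          unfold toO
          rw [funMap_polyF, map_X]
        rw [h1, hΦ.fx]
        exact ⟨x, rfl⟩
  have hr : ∀ a : RatFunc L, Φ (toO ℓ f Ω (AdjoinRoot.of _ a)) ∈ (algebraMap K S).fieldRange := by
    intro a
    obtain ⟨p, q, -, rfl⟩ := IsFractionRing.div_surjective (A := L[X]) a
    have h1 := map_div₀ ((Φ.comp (toO ℓ f Ω)).comp (AdjoinRoot.of
      (X ^ ℓ - C (algebraMap L[X] (RatFunc L) f) : (RatFunc L)[X])))
      (algebraMap L[X] (RatFunc L) p) (algebraMap L[X] (RatFunc L) q)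
    have h2 : ∀ p : L[X], ((Φ.comp (toO ℓ f Ω)).comp (AdjoinRoot.of
        (X ^ ℓ - C (algebraMap L[X] (RatFunc L) f) : (RatFunc L)[X])))
        (algebraMap L[X] (RatFunc L) p) ∈ (algebraMap K S).fieldRange := by
      intro p
      have h3 := hp p
      rw [polyF_eq] at h3
      exact h3
    change ((Φ.comp (toO ℓ f Ω)).comp (AdjoinRoot.of
      (X ^ ℓ - C (algebraMap L[X] (RatFunc L) f) : (RatFunc L)[X])))
      (algebraMap L[X] (RatFunc L) p / algebraMap L[X] (RatFunc L) q) ∈ _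
    rw [h1]
    exact div_mem (h2 p) (h2 q)
  have hall : Φ (toO ℓ f Ω r) ∈ (algebraMap K S).fieldRange := by
    obtain ⟨P, rfl⟩ := AdjoinRoot.mk_surjective r
    induction P using Polynomial.induction_on' with
    | add p q hp hq =>
      rw [map_add, map_add, map_add]
      exact add_mem hp hq
    | monomial n c =>
      rw [← C_mul_X_pow_eq_monomial, map_mul, map_mul, map_mul, map_pow, map_pow, map_pow,
        AdjoinRoot.mk_C, AdjoinRoot.mk_X]
      refine mul_mem (hr c) (pow_mem ?_ n)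
      have h1 : toO ℓ f Ω (AdjoinRoot.root _) = yF := funMap_yF _ _
      rw [h1, hΦ.fy]
      exact ⟨y, rfl⟩
  obtain ⟨z, hz⟩ := hall
  exact ⟨z, hz.symm⟩

/-- The image of the functions over `L` is `K`. PROOF: the image of `Φ ∘ toO` is a subring of `K` (previous lemma)
which contains `F`, `t`, `x`, `y` and the field `L(x)`; it is integral over the image of `L(x)` (`y` is), so it is a field
(`isField_of_isIntegral_of_isField'` or: a subalgebra of an algebraic extension is a field), so all of `K` by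
`hΦ.gen`. -/
theorem IsModel.exists_toO (hΦ : IsModel F i x y Φ) (z : K) :
    ∃ r : FunField ℓ f, Φ (toO ℓ f Ω r) = algebraMap K S z := by
  let _ : Algebra (RatFunc L) S := ((Φ.comp (toO ℓ f Ω)).comp (AdjoinRoot.of
    (X ^ ℓ - C (algebraMap L[X] (RatFunc L) f) : (RatFunc L)[X]))).toAlgebra
  let θ : FunField ℓ f →ₐ[RatFunc L] S := { Φ.comp (toO ℓ f Ω) with commutes' := fun _ => rfl }
  have hθ : ∀ r, θ r = Φ (toO ℓ f Ω r) := fun _ => rfl
  have hm : (X ^ ℓ - C (algebraMap L[X] (RatFunc L) f) : (RatFunc L)[X]).Monic :=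
    monic_X_pow_sub_C _ hG.ne
  have hfin : Module.Finite (RatFunc L) (FunField ℓ f) := hm.finite_adjoinRoot
  have hinv : ∀ w : S, w ∈ θ.range → w⁻¹ ∈ θ.range := by
    rintro w ⟨r, rfl⟩
    have h1 : IsIntegral (RatFunc L) r := Algebra.IsIntegral.isIntegral r
    exact Subalgebra.inv_mem_of_algebraic (A := θ.range) (x := ⟨θ r, r, rfl⟩)
      (h1.map θ).isAlgebraic
  let M : Subfield K :=
    { carrier := {w | algebraMap K S w ∈ θ.range}
      mul_mem' := by
        intro u v hu hv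
        change algebraMap K S (u * v) ∈ θ.range
        rw [map_mul]
        exact mul_mem hu hv
      one_mem' := by
        change algebraMap K S 1 ∈ θ.range
        rw [map_one]
        exact one_mem _
      add_mem' := by
        intro u v hu hv
        change algebraMap K S (u + v) ∈ θ.range
        rw [map_add]
        exact add_mem hu hv
      zero_mem' := by
        change algebraMap K S 0 ∈ θ.range
        rw [map_zero]
        exact zero_mem _
      neg_mem' := by
        intro u hu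
        change algebraMap K S (-u) ∈ θ.range
        rw [map_neg]
        exact neg_mem hu
      inv_mem' := by
        intro u hu
        change algebraMap K S u⁻¹ ∈ θ.range
        rw [map_inv₀]
        exact hinv _ hu }
  have hM : M = ⊤ := by
    refine hΦ.gen M (fun c => ?_) ?_ ?_
    · refine ⟨polyF (C c), ?_⟩
      have h1 : toO ℓ f Ω (polyF (C c)) = cO ℓ f Ω (algebraMap L Ω c) := by
        unfold toO
        rw [funMap_polyF, map_C]
        rfl
      refine (hθ _).trans ?_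
      rw [h1, hΦ.base]
    · refine ⟨polyF X, ?_⟩
      have h1 : toO ℓ f Ω (polyF X) = polyF X := by
        unfold toO
        rw [funMap_polyF, map_X]
      refine (hθ _).trans ?_
      rw [h1, hΦ.fx]
    · refine ⟨yF, ?_⟩
      have h1 : toO ℓ f Ω yF = yF := funMap_yF _ _
      refine (hθ _).trans ?_
      rw [h1, hΦ.fy]
  have hz : z ∈ M := by
    rw [hM]
    exact Subfield.mem_top z
  obtain ⟨r, hr⟩ := hz
  exact ⟨r, hr⟩

/-- Two homomorphisms of `FunField` which agree on the constants, on `x` and on `y` are equal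
(`funField_hom_ext` and `Polynomial.ringHom_ext`). -/
theorem hom_ext {T : Type} [CommRing T] [IsDomain T] {φ ψ : FunField ℓ (f.map (algebraMap L Ω)) →+* T}
    (hc : ∀ z : Ω, φ (cO ℓ f Ω z) = ψ (cO ℓ f Ω z)) (hx : φ (polyF X) = ψ (polyF X))
    (hy : φ yF = ψ yF) : φ = ψ := by
  have h1 : φ.comp polyF = ψ.comp polyF := Polynomial.ringHom_ext hc hx
  exact funField_hom_ext (fun p => RingHom.congr_fun h1 p) hy

/-- The embedding of `K` in the functions over `Ω`. -/
theorem IsModel.exists_kappa (hΦ : IsModel F i x y Φ) :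
    ∃ κ : K →+* FunField ℓ (f.map (algebraMap L Ω)), ∀ z, Φ (κ z) = algebraMap K S z := by
  have hex : ∀ z : K, ∃ u : FunField ℓ (f.map (algebraMap L Ω)), Φ u = algebraMap K S z := fun z => by
    obtain ⟨r, hr⟩ := hΦ.exists_toO z
    exact ⟨_, hr⟩
  choose κ hκ using hex
  have hinj : Function.Injective Φ := Φ.injective
  exact ⟨{ toFun := κ
           map_one' := hinj (by rw [hκ, map_one, map_one])
           map_mul' := fun a b => hinj (by rw [hκ, map_mul, map_mul, hκ, hκ])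
           map_zero' := hinj (by rw [hκ, map_zero, map_zero])
           map_add' := fun a b => hinj (by rw [hκ, map_add, map_add, hκ, hκ]) }, hκ⟩

/-- Extension of isomorphisms: an automorphism `φ` of the field of functions over `Ω` which preserves the image of
`K` extends to `S`. (`S` is algebraic over the image of `Φ` and algebraically closed; use the algebra structures
defined by `Φ` and `Φ ∘ φ`: `IsAlgClosed.lift` and the fact that an endomorphism of the algebraic closure is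
bijective, or `IsAlgClosure.equivOfEquiv`.) -/
theorem exists_extension (hΦ : IsModel F i x y Φ)
    (φ : FunField ℓ (f.map (algebraMap L Ω)) ≃+* FunField ℓ (f.map (algebraMap L Ω))) :
    ∃ φ' : S ≃+* S, ∀ u, φ' (Φ u) = Φ (φ u) := by
  obtain ⟨κ, hκ⟩ := hΦ.exists_kappa
  let _ : Algebra K (FunField ℓ (f.map (algebraMap L Ω))) := κ.toAlgebra
  let _ : Algebra (FunField ℓ (f.map (algebraMap L Ω))) S := Φ.toAlgebra
  have : IsScalarTower K (FunField ℓ (f.map (algebraMap L Ω))) S :=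
    IsScalarTower.of_algebraMap_eq fun z => (hκ z).symm
  have : Algebra.IsAlgebraic (FunField ℓ (f.map (algebraMap L Ω))) S :=
    Algebra.IsAlgebraic.tower_top (K := K) _
  have : IsAlgClosure (FunField ℓ (f.map (algebraMap L Ω))) S :=
    ⟨IsAlgClosure.isAlgClosed K, inferInstance⟩
  exact ⟨IsAlgClosure.equivOfEquiv S S φ, fun u => IsAlgClosure.equivOfEquiv_algebraMap S S φ u⟩

omit [IsAlgClosed F] [IsAlgClosure K S] [IsAlgClosure L Ω] hG in
theorem toO_C_eq (z : L) : toO ℓ f Ω (polyF (C z)) = cO ℓ f Ω (algebraMap L Ω z) := by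
  unfold toO cO
  rw [funMap_polyF, Polynomial.map_C]
  rfl

omit [IsAlgClosed F] [IsAlgClosure K S] [IsAlgClosure L Ω] hG in
theorem funMap_cO (σ : Sym (f.map (algebraMap L Ω))) (z : Ω) :
    funMap ℓ ((σ : Ω ≃+* Ω) : Ω →+* Ω) σ.2 (cO ℓ f Ω z) = cO ℓ f Ω ((σ : Ω ≃+* Ω) z) := by
  unfold cO
  rw [RingHom.comp_apply, funMap_polyF, Polynomial.map_C]
  rfl

omit [IsAlgClosed F] [IsAlgClosure K S] [IsAlgClosure L Ω] hG in
theorem funMap_toO (σ : Ω ≃ₐ[L] Ω) (r : FunField ℓ f) :
    funMap ℓ ((gs f σ : Ω ≃+* Ω) : Ω →+* Ω) (gs f σ).2 (toO ℓ f Ω r) = toO ℓ f Ω r := by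
  have h : (funMap ℓ ((gs f σ : Ω ≃+* Ω) : Ω →+* Ω) (gs f σ).2).comp (toO ℓ f Ω) = toO ℓ f Ω := by
    refine funField_hom_ext (fun p => ?_) ?_
    · unfold toO
      rw [RingHom.comp_apply, funMap_polyF, funMap_polyF, Polynomial.map_map]
      have h1 : ((gs f σ : Ω ≃+* Ω) : Ω →+* Ω).comp (algebraMap L Ω) = algebraMap L Ω :=
        RingHom.ext fun z => σ.commutes z
      rw [h1]
    · unfold toO
      rw [RingHom.comp_apply, funMap_yF, funMap_yF]
  exact RingHom.congr_fun h r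

theorem modb_coe_symU (σ : Sym (f.map (algebraMap L Ω))) (u : FunField ℓ (f.map (algebraMap L Ω))) :
    autF (symE ℓ σ) u = funMap ℓ ((σ : Ω ≃+* Ω) : Ω →+* Ω) σ.2 u := by
  have h : ((autF (symE ℓ σ) : FunField ℓ (f.map (algebraMap L Ω)) ≃+* _) :
      FunField ℓ (f.map (algebraMap L Ω)) →+* FunField ℓ (f.map (algebraMap L Ω))) =
      funMap ℓ ((σ : Ω ≃+* Ω) : Ω →+* Ω) σ.2 := by
    refine funField_hom_ext (fun p => ?_) ?_
    · rw [funMap_polyF]
      have h1 := autF_algebraMap (symE ℓ σ) (ofPoly p)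
      rw [R07_symE_ofPoly] at h1
      exact h1
    · rw [funMap_yF]
      have h1 := autF_algebraMap (symE ℓ σ) (yy : NRing ℓ (f.map (algebraMap L Ω)))
      rw [R07_symE_yy] at h1
      exact h1
  exact RingHom.congr_fun h u

/-- The restriction of an automorphism to the constants. -/
theorem IsModel.exists_restrict (hΦ : IsModel F i x y Φ) (g : S ≃ₐ[K] S) :
    ∃ σ : Ω ≃ₐ[L] Ω, ∀ z, Φ (cO ℓ f Ω (σ z)) = g (Φ (cO ℓ f Ω z)) := by
  let _ : Algebra Ω S := (Φ.comp (cO ℓ f Ω)).toAlgebra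
  let _ : Algebra L S := ((Φ.comp (cO ℓ f Ω)).comp (algebraMap L Ω)).toAlgebra
  have : IsScalarTower L Ω S := IsScalarTower.of_algebraMap_eq fun z => rfl
  have : Normal L Ω := IsAlgClosure.normal L Ω
  have hg : ∀ z : L, g (algebraMap L S z) = algebraMap L S z := fun z => by
    obtain ⟨w, hw⟩ := hΦ.toO_mem (polyF (C z))
    rw [toO_C_eq] at hw
    have h1 : algebraMap L S z = algebraMap K S w := hw
    rw [h1, g.commutes]
  let g' : S ≃ₐ[L] S := AlgEquiv.ofRingEquiv (f := (g : S ≃+* S)) hg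
  exact ⟨g'.restrictNormal Ω, fun z => g'.restrictNormal_commutes Ω z⟩

/-- The restriction of the automorphisms of `S` to `Ω`. PROOF. Let `g` be in `Aut(S/K)`. The image `Φ(Ω)` of the
constants is the algebraic closure of the image of `L` in `S` (it is algebraically closed and algebraic over it), and
`g` fixes the image of `L`, which is in `K`; so `g` maps `Φ(Ω)` onto itself and defines `r g`. The two sides are equal
by `hom_ext` (`g` fixes `Φ x`, `Φ y`). Surjectivity: `exists_extension` applied to the automorphism `funMap σ`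
(inverse `funMap σ⁻¹`); the extension fixes `K` by `IsModel.exists_toO`. -/
theorem exists_res (hΦ : IsModel F i x y Φ) : ∃ r : (S ≃ₐ[K] S) →* (Ω ≃ₐ[L] Ω),
    Function.Surjective r ∧ ∀ (g : S ≃ₐ[K] S) (u : FunField ℓ (f.map (algebraMap L Ω))),
      g (Φ u) = Φ (funMap ℓ ((r g : Ω ≃ₐ[L] Ω) : Ω →+* Ω) (gs f (r g)).2 u) := by
  choose r hr using hΦ.exists_restrict
  have hinj : Function.Injective (Φ.comp (cO ℓ f Ω)) := RingHom.injective _
  refine ⟨⟨⟨r, ?_⟩, ?_⟩, ?_, ?_⟩
  · refine AlgEquiv.ext fun z => hinj ?_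
    show Φ (cO ℓ f Ω (r 1 z)) = Φ (cO ℓ f Ω z)
    rw [hr]
    rfl
  · intro g h
    refine AlgEquiv.ext fun z => hinj ?_
    show Φ (cO ℓ f Ω (r (g * h) z)) = Φ (cO ℓ f Ω (r g (r h z)))
    rw [hr, hr, hr]
    rfl
  · intro σ
    obtain ⟨φ', hφ'⟩ := exists_extension hΦ (autF (symE ℓ (gs f σ)))
    have hK : ∀ z : K, φ' (algebraMap K S z) = algebraMap K S z := fun z => by
      obtain ⟨w, hw⟩ := hΦ.exists_toO z
      rw [← hw, hφ', modb_coe_symU, funMap_toO]
    refine ⟨AlgEquiv.ofRingEquiv (f := φ') hK, ?_⟩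
    refine AlgEquiv.ext fun z => hinj ?_
    show Φ (cO ℓ f Ω (r (AlgEquiv.ofRingEquiv (f := φ') hK) z)) = Φ (cO ℓ f Ω (σ z))
    rw [hr]
    show φ' (Φ (cO ℓ f Ω z)) = Φ (cO ℓ f Ω (σ z))
    rw [hφ', modb_coe_symU, funMap_cO]
    rfl
  · intro g u
    have h : ((g : S ≃+* S) : S →+* S).comp Φ =
        Φ.comp (funMap ℓ ((gs f (r g) : Ω ≃+* Ω) : Ω →+* Ω) (gs f (r g)).2) := by
      refine hom_ext (fun z => ?_) ?_ ?_
      · rw [RingHom.comp_apply, RingHom.comp_apply, funMap_cO]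
        exact (hr g z).symm
      · rw [RingHom.comp_apply, RingHom.comp_apply, funMap_polyF, Polynomial.map_X, hΦ.fx]
        exact g.commutes x
      · rw [RingHom.comp_apply, RingHom.comp_apply, funMap_yF, hΦ.fy]
        exact g.commutes y
    exact RingHom.congr_fun h u

/-- The restriction of the automorphisms of `S` to `Ω`. -/
noncomputable def res (hΦ : IsModel F i x y Φ) : (S ≃ₐ[K] S) →* (Ω ≃ₐ[L] Ω) := (exists_res hΦ).choose

theorem res_surjective (hΦ : IsModel F i x y Φ) : Function.Surjective (res hΦ) :=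
  (exists_res hΦ).choose_spec.1

theorem res_spec (hΦ : IsModel F i x y Φ) (g : S ≃ₐ[K] S) (u : FunField ℓ (f.map (algebraMap L Ω))) :
    g (Φ u) = Φ (funMap ℓ ((res hΦ g : Ω ≃ₐ[L] Ω) : Ω →+* Ω) (gs f (res hΦ g)).2 u) :=
  (exists_res hΦ).choose_spec.2 g u

/-- The same for units. (`symU σ` is the map induced by `funMap σ`: `symU`, `symE`, `autU`, `autF` in `Wt/W06.lean`,
`Wt/W07.lean`; both are ring homomorphisms which agree on the coordinate ring.) -/
theorem coe_symU (σ : Sym (f.map (algebraMap L Ω))) (u : (FunField ℓ (f.map (algebraMap L Ω)))ˣ) :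
    ((symU σ u : (FunField ℓ (f.map (algebraMap L Ω)))ˣ) : FunField ℓ (f.map (algebraMap L Ω))) =
      funMap ℓ ((σ : Ω ≃+* Ω) : Ω →+* Ω) σ.2 u := by
  have h1 : ((autU (symE ℓ σ) u : (FunField ℓ (f.map (algebraMap L Ω)))ˣ) :
      FunField ℓ (f.map (algebraMap L Ω))) = autF (symE ℓ σ) (u : FunField ℓ (f.map (algebraMap L Ω))) := rfl
  have h2 := modb_coe_symU σ (u : FunField ℓ (f.map (algebraMap L Ω)))
  rw [← h1] at h2
  exact h2

theorem res_symU (hΦ : IsModel F i x y Φ) (g : S ≃ₐ[K] S) (u : (FunField ℓ (f.map (algebraMap L Ω)))ˣ) :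
    g (Φ u) = Φ (symU (gs f (res hΦ g)) u : (FunField ℓ (f.map (algebraMap L Ω)))ˣ) := by
  rw [res_spec hΦ, coe_symU]
  rfl

/-- The kernel of the restriction. -/
theorem res_eq_one_iff (hΦ : IsModel F i x y Φ) (g : S ≃ₐ[K] S) :
    res hΦ g = 1 ↔ ∀ u, g (Φ u) = Φ u := by
  constructor
  · intro h u
    rw [res_spec hΦ]
    have h1 : (funMap ℓ ((gs f (res hΦ g) : Ω ≃+* Ω) : Ω →+* Ω) (gs f (res hΦ g)).2 :
        FunField ℓ (f.map (algebraMap L Ω)) →+* FunField ℓ (f.map (algebraMap L Ω))) =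
        RingHom.id _ := by
      have h2 : ((gs f (res hΦ g) : Ω ≃+* Ω) : Ω →+* Ω) = RingHom.id Ω := by
        refine RingHom.ext fun z => ?_
        show res hΦ g z = z
        rw [h]
        rfl
      refine funField_hom_ext (fun p => ?_) ?_
      · rw [funMap_polyF, h2, Polynomial.map_id, RingHom.id_apply]
      · rw [funMap_yF, RingHom.id_apply]
    exact congrArg Φ (RingHom.congr_fun h1 u)
  · intro h
    have hinj : Function.Injective (Φ.comp (cO ℓ f Ω)) := RingHom.injective _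
    refine AlgEquiv.ext fun z => hinj ?_
    have h1 := res_spec hΦ g (cO ℓ f Ω z)
    rw [h] at h1
    have h2 := funMap_cO (ℓ := ℓ) (gs f (res hΦ g)) z
    show Φ (cO ℓ f Ω (res hΦ g z)) = Φ (cO ℓ f Ω z)
    rw [h1]
    exact congrArg Φ h2.symm

/-- The embedding of `K` in the functions. -/
theorem modc_exists_hom (hΦ : IsModel F i x y Φ) :
    ∃ κ : K →+* FunField ℓ (f.map (algebraMap L Ω)), ∀ z, Φ (κ z) = algebraMap K S z := by
  have h1 : ∀ z : K, ∃ u : FunField ℓ (f.map (algebraMap L Ω)), Φ u = algebraMap K S z := by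
    intro z
    obtain ⟨r, hr⟩ := hΦ.exists_toO z
    exact ⟨_, hr⟩
  choose κ hκ using h1
  have hinj : Function.Injective Φ := Φ.injective
  refine ⟨{ toFun := κ
            map_one' := hinj (by rw [hκ, map_one, map_one])
            map_mul' := fun a b => hinj (by rw [hκ, map_mul, map_mul, hκ, hκ])
            map_zero' := hinj (by rw [hκ, map_zero, map_zero])
            map_add' := fun a b => hinj (by rw [hκ, map_add, map_add, hκ, hκ]) }, hκ⟩

/-- The kernel of the restriction as a group of automorphisms over the functions. -/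
theorem modc_ker (hΦ : IsModel F i x y Φ) :
    ∃ (_ : Algebra (FunField ℓ (f.map (algebraMap L Ω))) S)
      (_ : IsAlgClosure (FunField ℓ (f.map (algebraMap L Ω))) S),
      (∀ u, algebraMap (FunField ℓ (f.map (algebraMap L Ω))) S u = Φ u) ∧
      ∃ j : (S ≃ₐ[FunField ℓ (f.map (algebraMap L Ω))] S) → (S ≃ₐ[K] S),
        (∀ g z, j g z = g z) ∧ (∀ g, res hΦ (j g) = 1) ∧
        ∀ g : S ≃ₐ[K] S, res hΦ g = 1 → ∃ g', j g' = g := by
  obtain ⟨κ, hκ⟩ := modc_exists_hom hΦ
  let iA : Algebra (FunField ℓ (f.map (algebraMap L Ω))) S := Φ.toAlgebra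
  let iB : Algebra K (FunField ℓ (f.map (algebraMap L Ω))) := κ.toAlgebra
  have iT : IsScalarTower K (FunField ℓ (f.map (algebraMap L Ω))) S :=
    IsScalarTower.of_algebraMap_eq fun z => (hκ z).symm
  have iAlg : Algebra.IsAlgebraic K S := IsAlgClosure.isAlgebraic
  have iAlg' : Algebra.IsAlgebraic (FunField ℓ (f.map (algebraMap L Ω))) S :=
    Algebra.IsAlgebraic.tower_top (K := K) _
  have iCl : IsAlgClosed S := IsAlgClosure.isAlgClosed K
  refine ⟨iA, ⟨iCl, iAlg'⟩, fun u => rfl, fun g => g.restrictScalars K, fun g z => rfl, ?_, ?_⟩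
  · intro g
    rw [res_eq_one_iff]
    intro u
    exact g.commutes u
  · intro g hg
    rw [res_eq_one_iff] at hg
    refine ⟨AlgEquiv.ofRingEquiv (f := g.toRingEquiv) fun u => hg u, ?_⟩
    exact AlgEquiv.ext fun z => rfl

/-- Hilbert's theorem 90 for the kernel of the restriction. PROOF. Let `Φ.toAlgebra` make `S` an algebraic closure
of `M = FunField ..`; the kernel is the group `S ≃ₐ[M] S` (`res_eq_one_iff`; an element of `S ≃ₐ[M] S` fixes `K`, whose
image is in that of `M` by `IsModel.exists_toO`). Apply `h90`. -/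
theorem h90_ker (hΦ : IsModel F i x y Φ) (a : (S ≃ₐ[K] S) → Sˣ) (ha : IsCts a)
    (hc : ∀ g h : S ≃ₐ[K] S, res hΦ g = 1 → res hΦ h = 1 → (a (g * h) : S) = g (a h) * a g) :
    ∃ e : Sˣ, ∀ g : S ≃ₐ[K] S, res hΦ g = 1 → (a g : S) * e = g e := by
  obtain ⟨iA, iC, hA, j, hj, hj1, hj2⟩ := modc_ker hΦ
  obtain ⟨T, hT⟩ := ha
  have hjm : ∀ g h, j (g * h) = j g * j h := fun g h => AlgEquiv.ext fun z => by
    rw [hj]
    show g (h z) = j g (j h z)
    rw [hj, hj]
  obtain ⟨e, he⟩ := h90 (K := FunField ℓ (f.map (algebraMap L Ω))) (fun g => a (j g))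
    ⟨T, fun g g' h => hT _ _ fun z hz => by rw [hj, hj]; exact h z hz⟩
    (fun g h => by
      show (a (j (g * h)) : S) = g (a (j h)) * a (j g)
      rw [hjm, hc _ _ (hj1 g) (hj1 h), hj])
  refine ⟨e, fun g hg => ?_⟩
  obtain ⟨g', rfl⟩ := hj2 g hg
  rw [hj]
  exact he g'

/-- The elements fixed by the kernel of the restriction. PROOF: `exists_pow_mem` for `S ≃ₐ[M] S`, as in `h90_ker`. -/
theorem exists_pow_ker (hΦ : IsModel F i x y Φ) (z : S)
    (hz : ∀ g : S ≃ₐ[K] S, res hΦ g = 1 → g z = z) :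
    ∃ (s : ℕ) (u : FunField ℓ (f.map (algebraMap L Ω))), z ^ ringExpChar F ^ s = Φ u := by
  obtain ⟨iA, iC, hA, j, hj, hj1, hj2⟩ := modc_ker hΦ
  obtain ⟨s, u, hu⟩ := exists_pow_mem (K := FunField ℓ (f.map (algebraMap L Ω))) z
    (fun g => by rw [← hj]; exact hz _ (hj1 g))
  have hF : ringExpChar F = ringExpChar (FunField ℓ (f.map (algebraMap L Ω))) := by
    have h1 : ExpChar F (ringExpChar F) := inferInstance
    let i : F →+* FunField ℓ (f.map (algebraMap L Ω)) :=
      (cO ℓ f Ω).comp ((algebraMap L Ω).comp ((algebraMap F[X] L).comp C))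
    have h2 : ExpChar (FunField ℓ (f.map (algebraMap L Ω))) (ringExpChar F) :=
      expChar_of_injective_ringHom i.injective _
    exact (ringExpChar.eq (FunField ℓ (f.map (algebraMap L Ω))) (ringExpChar F)).symm
  refine ⟨s, u, ?_⟩
  rw [hF, hu, hA]

/-- A function involves only finitely many elements of `Ω` (`exists_den` in `Wt/W01.lean`). -/
theorem exists_support (u : FunField ℓ (f.map (algebraMap L Ω))) : ∃ T : Finset Ω,
    ∀ σ τ : Sym (f.map (algebraMap L Ω)), (∀ z ∈ T, (σ : Ω ≃+* Ω) z = (τ : Ω ≃+* Ω) z) →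
      funMap ℓ ((σ : Ω ≃+* Ω) : Ω →+* Ω) σ.2 u = funMap ℓ ((τ : Ω ≃+* Ω) : Ω →+* Ω) τ.2 u := by
  obtain ⟨p, q, hq, hu⟩ := exists_den u
  refine ⟨q.coeffs ∪ (Finset.range ℓ).biUnion fun i => (p i).coeffs, fun σ τ h => ?_⟩
  have hmap : ∀ r : Polynomial Ω, (∀ z ∈ r.coeffs, (σ : Ω ≃+* Ω) z = (τ : Ω ≃+* Ω) z) →
      r.map ((σ : Ω ≃+* Ω) : Ω →+* Ω) = r.map ((τ : Ω ≃+* Ω) : Ω →+* Ω) := by
    intro r hr
    refine Polynomial.ext fun n => ?_
    rw [coeff_map, coeff_map]
    by_cases h0 : r.coeff n = 0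
    · rw [h0, map_zero, map_zero]
    · exact hr _ (coeff_mem_coeffs h0)
  have hq' : q.map ((σ : Ω ≃+* Ω) : Ω →+* Ω) = q.map ((τ : Ω ≃+* Ω) : Ω →+* Ω) :=
    hmap q fun z hz => h z (Finset.mem_union_left _ hz)
  have hp' : ∀ i ∈ Finset.range ℓ, (p i).map ((σ : Ω ≃+* Ω) : Ω →+* Ω) =
      (p i).map ((τ : Ω ≃+* Ω) : Ω →+* Ω) := fun i hi =>
    hmap (p i) fun z hz => h z (Finset.mem_union_right _ (Finset.mem_biUnion.mpr ⟨i, hi, hz⟩))
  have key : ∀ ρ : Sym (f.map (algebraMap L Ω)),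
      polyF (q.map ((ρ : Ω ≃+* Ω) : Ω →+* Ω)) * funMap ℓ ((ρ : Ω ≃+* Ω) : Ω →+* Ω) ρ.2 u =
        ∑ i ∈ Finset.range ℓ, polyF ((p i).map ((ρ : Ω ≃+* Ω) : Ω →+* Ω)) * yF ^ i := by
    intro ρ
    have h1 := congrArg (funMap ℓ ((ρ : Ω ≃+* Ω) : Ω →+* Ω) ρ.2) hu
    rw [map_mul, funMap_polyF, map_sum] at h1
    rw [h1]
    refine Finset.sum_congr rfl fun i _ => ?_
    rw [map_mul, map_pow, funMap_polyF, funMap_yF]
  have hne : (polyF (q.map ((τ : Ω ≃+* Ω) : Ω →+* Ω)) :
      FunField ℓ (f.map (algebraMap L Ω))) ≠ 0 := by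
    intro h0
    have h1 : q.map ((τ : Ω ≃+* Ω) : Ω →+* Ω) = 0 :=
      polyF_injective (h0.trans (map_zero _).symm)
    exact hq ((Polynomial.map_eq_zero _).mp h1)
  have hσ := key σ
  have hτ := key τ
  rw [hq', Finset.sum_congr rfl fun i hi => by rw [hp' i hi], ← hτ] at hσ
  exact mul_left_cancel₀ hne hσ

/-- The restriction is an open map. PROOF. Let `E` be a finite normal extension of `K` in `S` which contains `T`,
`Q = E ≃ₐ[K] E`, `N'` the image in `Q` of the kernel of `res` (a normal subgroup) and `B` the subfield of the elements of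
`E` fixed by `N'`; `B` is generated over `K` by finitely many elements `b_i`, and `b_i ^ (p ^ s) = Φ u_i`
(`exists_pow_ker`). Let `U` be a finite set which works for all the `u_i` (`exists_support`). If `γ` fixes `U`, let `g` be
such that `res g = γ`; then `g (Φ u_i) = Φ u_i` (`res_spec`, and `funMap` of the identity), so `g b_i = b_i` (injectivity of
the `p`-th power), `g` fixes `B`, so the restriction of `g` to `E` is in `N'` (Artin:
`IntermediateField.fixingSubgroup_fixedField`, `E` is finite over `K`): it is the restriction of some `n` in the kernel of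
`res`. Take `g n⁻¹`. -/
theorem open_res (hΦ : IsModel F i x y Φ) (T : Finset S) : ∃ U : Finset Ω, ∀ γ : Ω ≃ₐ[L] Ω,
    (∀ z ∈ U, γ z = z) → ∃ g : S ≃ₐ[K] S, res hΦ g = γ ∧ ∀ z ∈ T, g z = z := by
  obtain ⟨E, hfd, hn, hE⟩ := exists_normal (K := K) T
  have hKS : Normal K S := IsAlgClosure.normal K S
  have hexp : ExpChar S (ringExpChar F) :=
    expChar_of_injective_ringHom ((algebraMap K S).comp (algebraMap F K)).injective _
  -- an element fixed by the kernel is fixed by the `g` whose restriction fixes a finite set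
  have key : ∀ b : S, (∀ g : S ≃ₐ[K] S, res hΦ g = 1 → g b = b) →
      ∃ U : Finset Ω, ∀ g : S ≃ₐ[K] S, (∀ z ∈ U, res hΦ g z = z) → g b = b := by
    intro b hb
    obtain ⟨s, u, hu⟩ := exists_pow_ker hΦ b hb
    obtain ⟨U, hU⟩ := exists_support (f := f) u
    refine ⟨U, fun g hg => ?_⟩
    have h1 : g (Φ u) = (1 : S ≃ₐ[K] S) (Φ u) := by
      rw [res_spec hΦ g u, res_spec hΦ 1 u]
      refine congrArg Φ (hU (gs f (res hΦ g)) (gs f (res hΦ 1)) fun z hz => ?_)
      show res hΦ g z = res hΦ 1 z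
      rw [hg z hz, map_one]
      rfl
    have h2 : g b ^ ringExpChar F ^ s = b ^ ringExpChar F ^ s := by
      rw [← map_pow, hu, h1]
      rfl
    exact iterateFrobenius_inj S (ringExpChar F) s
      (by rw [iterateFrobenius_def, iterateFrobenius_def, h2])
  let rE : (S ≃ₐ[K] S) →* (E ≃ₐ[K] E) := AlgEquiv.restrictNormalHom E
  have hrE : ∀ (g : S ≃ₐ[K] S) (z : E), ((rE g z : E) : S) = g z :=
    fun g z => AlgEquiv.restrictNormal_commutes g E z
  let N' : Subgroup (E ≃ₐ[K] E) := (res hΦ).ker.map rE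
  have hB : ∀ b : IntermediateField.fixedField N', ∃ U : Finset Ω, ∀ g : S ≃ₐ[K] S,
      (∀ z ∈ U, res hΦ g z = z) → g ((b : E) : S) = ((b : E) : S) := by
    intro b
    refine key _ fun g hg => ?_
    have h1 : rE g ∈ N' := ⟨g, hg, rfl⟩
    have h2 : rE g (b : E) = (b : E) := b.2 ⟨rE g, h1⟩
    rw [← hrE g (b : E), h2]
  choose Ub hUb using hB
  obtain ⟨s, hs⟩ := (inferInstance : Module.Finite K (IntermediateField.fixedField N')).fg_top
  refine ⟨s.biUnion Ub, fun γ hγ => ?_⟩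
  obtain ⟨g, rfl⟩ := res_surjective hΦ γ
  have hfix : ∀ b : IntermediateField.fixedField N', g ((b : E) : S) = ((b : E) : S) := by
    intro b
    have hb : b ∈ Submodule.span K (s : Set (IntermediateField.fixedField N')) := by
      rw [hs]
      exact Submodule.mem_top
    induction hb using Submodule.span_induction with
    | mem b hb => exact hUb b g fun z hz => hγ z (Finset.mem_biUnion.2 ⟨b, hb, hz⟩)
    | zero => exact map_zero g
    | add b c _ _ h1 h2 =>
      have e : (((b + c : IntermediateField.fixedField N') : E) : S) =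
        ((b : E) : S) + ((c : E) : S) := rfl
      rw [e, map_add, h1, h2]
    | smul k b _ h1 =>
      have e : (((k • b : IntermediateField.fixedField N') : E) : S) = k • ((b : E) : S) := rfl
      rw [e, map_smul, h1]
  have hmem : rE g ∈ N' := by
    rw [← IntermediateField.fixingSubgroup_fixedField N', IntermediateField.mem_fixingSubgroup_iff]
    intro z hz
    apply Subtype.ext
    rw [hrE]
    exact hfix ⟨z, hz⟩
  obtain ⟨n, hn1, hn2⟩ := hmem
  have hn3 : res hΦ n = 1 := hn1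
  refine ⟨g * n⁻¹, by rw [map_mul, map_inv, hn3, inv_one, mul_one], fun z hz => ?_⟩
  have h4 : rE (g * n⁻¹) = 1 := by
    rw [map_mul, map_inv, ← hn2, mul_inv_cancel]
  have h5 := hrE (g * n⁻¹) ⟨z, hE z hz⟩
  rw [h4] at h5
  exact h5.symm

theorem modd_lift (hΦ : IsModel F i x y Φ) {T : Finset S} {U : Finset Ω} (hU : ∀ γ : Ω ≃ₐ[L] Ω,
    (∀ z ∈ U, γ z = z) → ∃ g : S ≃ₐ[K] S, res hΦ g = γ ∧ ∀ z ∈ T, g z = z) {γ γ' : Ω ≃ₐ[L] Ω}
    (h : ∀ z ∈ U, γ z = γ' z) :
    ∃ g g' : S ≃ₐ[K] S, res hΦ g = γ ∧ res hΦ g' = γ' ∧ ∀ z ∈ T, g z = g' z := by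
  obtain ⟨g, hg⟩ := res_surjective hΦ γ
  obtain ⟨n, hn1, hn2⟩ := hU (γ⁻¹ * γ') fun z hz => by
    show γ.symm (γ' z) = z
    rw [← h z hz]
    exact γ.symm_apply_apply z
  refine ⟨g, g * n, hg, by rw [map_mul, hg, hn1, mul_inv_cancel_left], fun z hz => ?_⟩
  show g z = g (n z)
  rw [hn2 z hz]

/-- Continuity below. PROOF: if `γ`, `γ'` agree on the `U` of `open_res`, then `γ⁻¹ γ'` fixes `U`. -/
theorem isCts_of_res (hΦ : IsModel F i x y Φ) {X : Type} (c : (Ω ≃ₐ[L] Ω) → X)
    (hc : IsCts fun g : S ≃ₐ[K] S => c (res hΦ g)) : IsCts c := by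
  obtain ⟨T, hT⟩ := hc
  obtain ⟨U, hU⟩ := open_res hΦ T
  refine ⟨U, fun γ γ' h => ?_⟩
  obtain ⟨g, g', rfl, rfl, hg⟩ := modd_lift hΦ hU h
  exact hT g g' hg

theorem icts₂_of_res (hΦ : IsModel F i x y Φ) {X : Type} (c : (Ω ≃ₐ[L] Ω) → (Ω ≃ₐ[L] Ω) → X)
    (hc : ∃ T : Finset S, ∀ g g' h h' : S ≃ₐ[K] S, (∀ x ∈ T, g x = g' x) → (∀ x ∈ T, h x = h' x) →
      c (res hΦ g) (res hΦ h) = c (res hΦ g') (res hΦ h')) : ICts2 c := by
  obtain ⟨T, hT⟩ := hc
  obtain ⟨U, hU⟩ := open_res hΦ T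
  refine ⟨U, fun γ γ' δ δ' h1 h2 => ?_⟩
  obtain ⟨g, g', rfl, rfl, hg⟩ := modd_lift hΦ hU h1
  obtain ⟨h, h', rfl, rfl, hh⟩ := modd_lift hΦ hU h2
  exact hT g g' h h' hg hh

/-- Continuity above. PROOF: `c γ` depends only on the restriction of `γ` to `U`, and
`Φ (cO (res g z)) = g (Φ (cO z))`; take the image of `U`. -/
theorem isCts_res (hΦ : IsModel F i x y Φ) {X : Type} {c : (Ω ≃ₐ[L] Ω) → X} (hc : IsCts c) :
    IsCts fun g : S ≃ₐ[K] S => c (res hΦ g) := by
  obtain ⟨U, hU⟩ := hc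
  have h1 : ∀ (g : S ≃ₐ[K] S) (z : Ω), g (Φ (cO ℓ f Ω z)) = Φ (cO ℓ f Ω (res hΦ g z)) := by
    intro g z
    rw [res_spec hΦ]
    refine congrArg Φ ?_
    exact (funMap_polyF _ _ (C z)).trans
      (congrArg (polyF (N := ℓ) (f := f.map (algebraMap L Ω))) (Polynomial.map_C _))
  refine ⟨U.image fun z => Φ (cO ℓ f Ω z), fun g g' h => hU _ _ fun z hz => ?_⟩
  have h2 := h _ (Finset.mem_image_of_mem _ hz)
  rw [h1, h1] at h2
  exact (cO ℓ f Ω).injective (Φ.injective h2)

end

end Pool.Agent.Lib.MP_89bcae_ag.Brt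

end

section

/-!
# Comparison of the cohomology of the function field `K` with that of `Aut(Ω/L)`
-/

open Polynomial IsDedekindDomain IsLocalRing

open scoped Classical

namespace Pool.Agent.Lib.MP_89bcae_ag.Brt

open Pool.Agent.Lib.MP_89bcae_ag.Wt Pool.Agent.Lib.MP_89bcae_ag.Wt.Lns Pool.Agent.Lib.MP_89bcae_ag.Bra

section

variable {K S : Type} [Field K] [Field S] [Algebra K S] {L Ω : Type} [Field L] [Field Ω] [Algebra L Ω]
  {ℓ : ℕ} {f : L[X]} {F : Type} [Field F] [Algebra F K] [Algebra F[X] L]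
  {i : L →+* K} [IsAlgClosed F] [IsAlgClosure K S] [IsAlgClosure L Ω]
  [hG : IsGood ℓ (f.map (algebraMap L Ω))] {x y : K}
  {Φ : FunField ℓ (f.map (algebraMap L Ω)) →+* S}

/-- The inflation of a cochain of degree two. -/
noncomputable def infl (hΦ : IsModel F i x y Φ)
    (b : (Ω ≃ₐ[L] Ω) → (Ω ≃ₐ[L] Ω) → (FunField ℓ (f.map (algebraMap L Ω)))ˣ) :
    (S ≃ₐ[K] S) → (S ≃ₐ[K] S) → Sˣ :=
  fun g h => Units.map (Φ : _ →* S) (b (res hΦ g) (res hΦ h))

/-- The embedding of `K` in the functions. -/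
theorem exta_exists_hom (hΦ : IsModel F i x y Φ) :
    ∃ κ : K →+* FunField ℓ (f.map (algebraMap L Ω)), ∀ z, Φ (κ z) = algebraMap K S z := by
  have h1 : ∀ z : K, ∃ u : FunField ℓ (f.map (algebraMap L Ω)), Φ u = algebraMap K S z := by
    intro z
    obtain ⟨r, hr⟩ := hΦ.exists_toO z
    exact ⟨_, hr⟩
  choose κ hκ using h1
  have hinj : Function.Injective Φ := Φ.injective
  refine ⟨{ toFun := κ
            map_one' := hinj (by rw [hκ, map_one, map_one])
            map_mul' := fun a b => hinj (by rw [hκ, map_mul, map_mul, hκ, hκ])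
            map_zero' := hinj (by rw [hκ, map_zero, map_zero])
            map_add' := fun a b => hinj (by rw [hκ, map_add, map_add, hκ, hκ]) }, hκ⟩

/-- The kernel of the restriction as a group of automorphisms over the functions. -/
theorem exta_ker (hΦ : IsModel F i x y Φ) :
    ∃ (_ : Algebra (FunField ℓ (f.map (algebraMap L Ω))) S)
      (_ : IsAlgClosure (FunField ℓ (f.map (algebraMap L Ω))) S),
      (∀ u, algebraMap (FunField ℓ (f.map (algebraMap L Ω))) S u = Φ u) ∧
      ∃ j : (S ≃ₐ[FunField ℓ (f.map (algebraMap L Ω))] S) → (S ≃ₐ[K] S),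
        (∀ g z, j g z = g z) ∧ (∀ g, res hΦ (j g) = 1) ∧
        ∀ g : S ≃ₐ[K] S, res hΦ g = 1 → ∃ g', j g' = g := by
  obtain ⟨κ, hκ⟩ := exta_exists_hom hΦ
  let iA : Algebra (FunField ℓ (f.map (algebraMap L Ω))) S := Φ.toAlgebra
  let iB : Algebra K (FunField ℓ (f.map (algebraMap L Ω))) := κ.toAlgebra
  have iT : IsScalarTower K (FunField ℓ (f.map (algebraMap L Ω))) S :=
    IsScalarTower.of_algebraMap_eq fun z => (hκ z).symm
  have iAlg : Algebra.IsAlgebraic K S := IsAlgClosure.isAlgebraic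
  have iAlg' : Algebra.IsAlgebraic (FunField ℓ (f.map (algebraMap L Ω))) S :=
    Algebra.IsAlgebraic.tower_top (K := K) _
  have iCl : IsAlgClosed S := IsAlgClosure.isAlgClosed K
  refine ⟨iA, ⟨iCl, iAlg'⟩, fun u => rfl, fun g => g.restrictScalars K, fun g z => rfl, ?_, ?_⟩
  · intro g
    rw [res_eq_one_iff]
    intro u
    exact g.commutes u
  · intro g hg
    rw [res_eq_one_iff] at hg
    refine ⟨AlgEquiv.ofRingEquiv (f := g.toRingEquiv) fun u => hg u, ?_⟩
    exact AlgEquiv.ext fun z => rfl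

/-- Extension of a continuous cochain of a subgroup. -/
theorem exta_extend {M : Type} [Field M] [Algebra M S] (j : (S ≃ₐ[M] S) → (S ≃ₐ[K] S))
    (hj : ∀ g z, j g z = g z) (a : (S ≃ₐ[M] S) → Sˣ) (ha : IsCts a) :
    ∃ a' : (S ≃ₐ[K] S) → Sˣ, IsCts a' ∧ ∀ g, a' (j g) = a g := by
  obtain ⟨T, hT⟩ := ha
  refine ⟨fun g => if h : ∃ n : S ≃ₐ[M] S, ∀ z ∈ T, g z = n z then a h.choose else 1, ⟨T, ?_⟩, ?_⟩
  · intro g g' hgg
    show (if h : ∃ n : S ≃ₐ[M] S, ∀ z ∈ T, g z = n z then a h.choose else 1) =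
      (if h : ∃ n : S ≃ₐ[M] S, ∀ z ∈ T, g' z = n z then a h.choose else 1)
    by_cases h : ∃ n : S ≃ₐ[M] S, ∀ z ∈ T, g z = n z
    · have h' : ∃ n : S ≃ₐ[M] S, ∀ z ∈ T, g' z = n z := by
        obtain ⟨n, hn⟩ := h
        exact ⟨n, fun z hz => (hgg z hz).symm.trans (hn z hz)⟩
      rw [dif_pos h, dif_pos h']
      refine hT _ _ fun z hz => ?_
      rw [← h.choose_spec z hz, hgg z hz, ← h'.choose_spec z hz]
    · have h' : ¬ ∃ n : S ≃ₐ[M] S, ∀ z ∈ T, g' z = n z := by
        rintro ⟨n, hn⟩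
        exact h ⟨n, fun z hz => (hgg z hz).trans (hn z hz)⟩
      rw [dif_neg h, dif_neg h']
  · intro g
    have h : ∃ n : S ≃ₐ[M] S, ∀ z ∈ T, j g z = n z := ⟨g, fun z _ => hj g z⟩
    show (if h : ∃ n : S ≃ₐ[M] S, ∀ z ∈ T, j g z = n z then a h.choose else 1) = a g
    rw [dif_pos h]
    refine hT _ _ fun z hz => ?_
    rw [← h.choose_spec z hz, hj]

/-- The restriction of a class to the kernel of `res` is trivial up to a multiple prime to `ℓ`. PROOF. `Φ.toAlgebra`
makes `S` an algebraic closure of `M = FunField ..`, which is finite over `RatFunc Ω` (`finiteDimensional_funField`), and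
the kernel of `res` is `S ≃ₐ[M] S` (as in `h90_ker`). `tsen` (with `C = Ω`) gives `m` and a continuous cochain `a` of
`S ≃ₐ[M] S`; if `T` is a finite set such that `a n` depends only on the restriction of `n` to `T`, extend `a` to
`S ≃ₐ[K] S` by `a g = a n` if `g` agrees on `T` with some `n` of the kernel, and `1` otherwise. -/
theorem exists_ker (hℓ : ℓ.Prime) (hΦ : IsModel F i x y Φ) (b : (S ≃ₐ[K] S) → (S ≃ₐ[K] S) → Sˣ)
    (hb : IsCocycle b) : ∃ (m : ℕ) (a : (S ≃ₐ[K] S) → Sˣ), m.Coprime ℓ ∧ IsCts a ∧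
      ∀ g h : S ≃ₐ[K] S, res hΦ g = 1 → res hΦ h = 1 → (b g h : S) ^ m * a (g * h) = g (a h) * a g := by
  obtain ⟨iA, iC, hA, j, hj, hj1, hj2⟩ := exta_ker hΦ
  have hjm : ∀ g h, j (g * h) = j g * j h := fun g h => AlgEquiv.ext fun z => by
    rw [hj]
    show g (h z) = j g (j h z)
    rw [hj, hj]
  have hcl : IsAlgClosed Ω := hG.alg
  have hne : (ℓ : FunField ℓ (f.map (algebraMap L Ω))) ≠ 0 := by
    intro h0
    apply hG.ne_zero
    have h1 : cO ℓ f Ω (ℓ : Ω) = 0 := by rw [map_natCast, h0]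
    exact (cO ℓ f Ω).injective (h1.trans (map_zero _).symm)
  obtain ⟨hb1, T, hT⟩ := hb
  have hb' : IsCocycle (K := FunField ℓ (f.map (algebraMap L Ω))) fun g h => b (j g) (j h) := by
    refine ⟨?_, T, ?_⟩
    · intro g h k
      have h2 := hb1 (j g) (j h) (j k)
      rw [← hjm, ← hjm, hj] at h2
      exact h2
    · intro g g' h h' h1 h2
      exact hT _ _ _ _ (fun z hz => by rw [hj, hj]; exact h1 z hz)
        (fun z hz => by rw [hj, hj]; exact h2 z hz)
  obtain ⟨m, hm, a, ha, hab⟩ := tsen (C := Ω) (E := FunField ℓ (f.map (algebraMap L Ω))) (S := S)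
    hℓ hne _ hb'
  obtain ⟨a', ha', haj⟩ := exta_extend j hj a ha
  refine ⟨m, a', hm, ha', fun g h hg hh => ?_⟩
  obtain ⟨g', rfl⟩ := hj2 g hg
  obtain ⟨h', rfl⟩ := hj2 h hh
  have h3 := hab g' h'
  rw [← hjm, haj, haj, haj, hj]
  rw [Units.val_pow_eq_pow_val] at h3
  exact h3

/-- Hilbert's theorem 90 for a subgroup of the automorphism group of a finite extension. -/
theorem extb_h90 {K E : Type} [Field K] [Field E] [Algebra K E] [FiniteDimensional K E]
    (N : Subgroup (E ≃ₐ[K] E)) (a : (E ≃ₐ[K] E) → Eˣ)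
    (ha : ∀ g ∈ N, ∀ h ∈ N, (a (g * h) : E) = g • (a h : E) * a g) :
    ∃ e : Eˣ, ∀ g ∈ N, (a g : E) * e = g • (e : E) := by
  have hli : LinearIndependent E (fun φ : E ≃ₐ[K] E => (φ : E → E)) :=
    LinearIndependent.comp (ι' := E ≃ₐ[K] E) (linearIndependent_monoidHom E E) (fun f => f)
      (fun x y h => by ext; exact DFunLike.ext_iff.1 h _)
  have hex : ∃ c : E, ∑ φ ∈ (Finset.univ : Finset (E ≃ₐ[K] E)).filter (fun φ => φ ∈ N),
      (a φ : E) * φ c ≠ 0 := by
    by_contra hcon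
    push Not at hcon
    have h1 := linearIndependent_iff'.1 hli
      ((Finset.univ : Finset (E ≃ₐ[K] E)).filter (fun φ => φ ∈ N)) (fun φ => (a φ : E)) (by
        funext c
        rw [Finset.sum_apply]
        exact hcon c) 1 (Finset.mem_filter.2 ⟨Finset.mem_univ _, N.one_mem⟩)
    exact (a 1).ne_zero h1
  obtain ⟨c, hc⟩ := hex
  refine ⟨(Units.mk0 _ hc)⁻¹, ?_⟩
  intro g hg
  have h1 : (a g : E) * g (∑ φ ∈ (Finset.univ : Finset (E ≃ₐ[K] E)).filter (fun φ => φ ∈ N),
      (a φ : E) * φ c) = ∑ φ ∈ (Finset.univ : Finset (E ≃ₐ[K] E)).filter (fun φ => φ ∈ N),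
      (a φ : E) * φ c := by
    rw [map_sum, Finset.mul_sum]
    refine Finset.sum_bij' (fun φ _ => g * φ) (fun φ _ => g⁻¹ * φ) ?_ ?_ ?_ ?_ ?_
    · intro φ hφ
      exact Finset.mem_filter.2 ⟨Finset.mem_univ _, N.mul_mem hg (Finset.mem_filter.1 hφ).2⟩
    · intro φ hφ
      exact Finset.mem_filter.2 ⟨Finset.mem_univ _,
        N.mul_mem (N.inv_mem hg) (Finset.mem_filter.1 hφ).2⟩
    · intro φ _
      exact inv_mul_cancel_left g φ
    · intro φ _
      exact mul_inv_cancel_left g φ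
    · intro φ hφ
      rw [ha g hg φ (Finset.mem_filter.1 hφ).2, map_mul, AlgEquiv.smul_def, AlgEquiv.mul_apply]
      ring
  rw [AlgEquiv.smul_def, Units.val_inv_eq_inv_val, Units.val_mk0, map_inv₀]
  apply eq_inv_of_mul_eq_one_left
  rw [mul_right_comm, h1, mul_inv_cancel₀ hc]

/-- Agreement on a finite set of generators. -/
theorem extb_fin (E : IntermediateField K S) [FiniteDimensional K E] [Normal K E] :
    ∃ T : Finset S, ∀ g g' : S ≃ₐ[K] S, (∀ x ∈ T, g x = g' x) →
      AlgEquiv.restrictNormalHom E g = AlgEquiv.restrictNormalHom E g' := by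
  obtain ⟨t, ht⟩ := Module.Finite.fg_top (R := K) (M := E)
  refine ⟨t.image (fun x : E => (x : S)), ?_⟩
  intro g g' h
  have h1 : ∀ x : E, x ∈ t → AlgEquiv.restrictNormalHom E g x = AlgEquiv.restrictNormalHom E g' x := by
    intro x hx
    apply Subtype.ext
    have h2 : ((AlgEquiv.restrictNormalHom E g x : E) : S) = g x :=
      AlgEquiv.restrictNormal_commutes g E x
    have h3 : ((AlgEquiv.restrictNormalHom E g' x : E) : S) = g' x :=
      AlgEquiv.restrictNormal_commutes g' E x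
    rw [h2, h3]
    exact h x (Finset.mem_image.2 ⟨x, hx, rfl⟩)
  have h4 : (AlgEquiv.restrictNormalHom E g : E ≃ₐ[K] E).toLinearMap =
      (AlgEquiv.restrictNormalHom E g' : E ≃ₐ[K] E).toLinearMap :=
    LinearMap.ext_on ht (fun x hx => h1 x hx)
  ext x
  exact congrArg (fun φ : E →ₗ[K] E => ((φ x : E) : S)) h4

theorem exists_level (hΦ : IsModel F i x y Φ) (b : (S ≃ₐ[K] S) → (S ≃ₐ[K] S) → Sˣ)
    (hb : IsCocycle b) (a : (S ≃ₐ[K] S) → Sˣ) (ha : IsCts a)
    (hab : ∀ g h : S ≃ₐ[K] S, res hΦ g = 1 → res hΦ h = 1 → (b g h : S) * a (g * h) = g (a h) * a g) :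
    ∃ (c : (S ≃ₐ[K] S) → (S ≃ₐ[K] S) → Sˣ) (α : (S ≃ₐ[K] S) → Sˣ), IsCocycle c ∧ IsCts α ∧
      (∀ g h, (b g h : S) * α (g * h) = c g h * (g (α h) * α g)) ∧
      ∀ g h n : S ≃ₐ[K] S, res hΦ n = 1 →
        c (g * n) h = c g h ∧ c g (h * n) = c g h ∧ n (c g h) = c g h := by
  obtain ⟨Tb, hTb⟩ := hb.continuous
  obtain ⟨Ta, hTa⟩ := ha
  have hfa : (Set.range a).Finite := IsCts.finite_range ⟨Ta, hTa⟩
  have hfb : (Set.range fun p : (S ≃ₐ[K] S) × (S ≃ₐ[K] S) => b p.1 p.2).Finite :=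
    finite_range₂ ⟨Tb, hTb⟩
  obtain ⟨E, hEf, hEn, hE⟩ := exists_normal (K := K)
    (Ta ∪ Tb ∪ hfa.toFinset.image (fun u : Sˣ => (u : S)) ∪
      hfb.toFinset.image (fun u : Sˣ => (u : S)))
  haveI := hEf
  haveI := hEn
  haveI : Normal K S := IsAlgClosure.normal K S
  have hEa : ∀ g, (a g : S) ∈ E := by
    intro g
    apply hE
    refine Finset.mem_union_left _ (Finset.mem_union_right _ ?_)
    exact Finset.mem_image.2 ⟨a g, hfa.mem_toFinset.2 ⟨g, rfl⟩, rfl⟩
  have hEb : ∀ g h, (b g h : S) ∈ E := by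
    intro g h
    apply hE
    refine Finset.mem_union_right _ ?_
    exact Finset.mem_image.2 ⟨b g h, hfb.mem_toFinset.2 ⟨(g, h), rfl⟩, rfl⟩
  set r : (S ≃ₐ[K] S) →* (E ≃ₐ[K] E) := AlgEquiv.restrictNormalHom E with hr
  have hrs : Function.Surjective r := AlgEquiv.restrictNormalHom_surjective S
  have hrc : ∀ (g : S ≃ₐ[K] S) (z : E), ((r g z : E) : S) = g z := fun g z =>
    AlgEquiv.restrictNormal_commutes g E z
  have hag : ∀ g g' : S ≃ₐ[K] S, r g = r g' → ∀ z ∈ E, g z = g' z := by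
    intro g g' h z hz
    rw [← hrc g ⟨z, hz⟩, ← hrc g' ⟨z, hz⟩, h]
  have haE : ∀ g g' : S ≃ₐ[K] S, r g = r g' → a g = a g' := by
    intro g g' h
    apply hTa
    intro z hz
    exact hag g g' h z (hE z (Finset.mem_union_left _ (Finset.mem_union_left _
      (Finset.mem_union_left _ hz))))
  have hbE : ∀ g g' h h' : S ≃ₐ[K] S, r g = r g' → r h = r h' → b g h = b g' h' := by
    intro g g' h h' h1 h2
    apply hTb
    · intro z hz
      exact hag g g' h1 z (hE z (Finset.mem_union_left _ (Finset.mem_union_left _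
        (Finset.mem_union_right _ hz))))
    · intro z hz
      exact hag h h' h2 z (hE z (Finset.mem_union_left _ (Finset.mem_union_left _
        (Finset.mem_union_right _ hz))))
  obtain ⟨s, hs⟩ := hrs.hasRightInverse
  -- the finite level
  let bE : (E ≃ₐ[K] E) → (E ≃ₐ[K] E) → Eˣ := fun g h =>
    Units.mk0 (⟨b (s g) (s h), hEb _ _⟩ : E) (by
      intro h0
      exact (b (s g) (s h)).ne_zero (congrArg Subtype.val h0))
  let aE : (E ≃ₐ[K] E) → Eˣ := fun g =>
    Units.mk0 (⟨a (s g), hEa _⟩ : E) (by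
      intro h0
      exact (a (s g)).ne_zero (congrArg Subtype.val h0))
  have hbE' : ∀ g h : S ≃ₐ[K] S, ((bE (r g) (r h) : E) : S) = b g h := by
    intro g h
    show (b (s (r g)) (s (r h)) : S) = b g h
    rw [hbE (s (r g)) g (s (r h)) h (hs _) (hs _)]
  have haE' : ∀ g : S ≃ₐ[K] S, ((aE (r g) : E) : S) = a g := by
    intro g
    show (a (s (r g)) : S) = a g
    rw [haE (s (r g)) g (hs _)]
  let N : Subgroup (E ≃ₐ[K] E) := (MonoidHom.ker (res hΦ)).map r
  haveI hN : N.Normal := Subgroup.Normal.map (MonoidHom.normal_ker _) r hrs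
  obtain ⟨cE, αE, h1, h2, h3⟩ := infl_discrete N (fun a' ha' => extb_h90 N a' ha') bE
    (by
      intro g h j
      obtain ⟨g, rfl⟩ := hrs g
      obtain ⟨h, rfl⟩ := hrs h
      obtain ⟨j, rfl⟩ := hrs j
      apply Subtype.ext
      have h4 := hb.cocycle g h j
      rw [← map_mul, ← map_mul]
      show ((bE (r g) (r h) : E) : S) * ((bE (r (g * h)) (r j) : E) : S) =
        ((r g (bE (r h) (r j) : E) : E) : S) * ((bE (r g) (r (h * j)) : E) : S)
      rw [hrc, hbE', hbE', hbE', hbE']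
      exact h4) aE
    (by
      rintro g ⟨g, hg, rfl⟩ h ⟨h, hh, rfl⟩
      apply Subtype.ext
      have h4 := hab g h (MonoidHom.mem_ker.1 hg) (MonoidHom.mem_ker.1 hh)
      rw [← map_mul]
      show ((bE (r g) (r h) : E) : S) * ((aE (r (g * h)) : E) : S) =
        ((r g (aE (r h) : E) : E) : S) * ((aE (r g) : E) : S)
      rw [hrc, hbE', haE', haE', haE']
      exact h4)
  obtain ⟨T, hT⟩ := extb_fin E
  refine ⟨fun g h => Units.map (algebraMap E S : E →* S) (cE (r g) (r h)),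
    fun g => Units.map (algebraMap E S : E →* S) (αE (r g)), ⟨?_, T, ?_⟩, ⟨T, ?_⟩, ?_, ?_⟩
  · intro g h j
    have h4 := congrArg (fun z : E => (z : S)) (h2 (r g) (r h) (r j))
    rw [← map_mul, ← map_mul] at h4
    show ((cE (r g) (r h) : E) : S) * ((cE (r (g * h)) (r j) : E) : S) =
      g ((cE (r h) (r j) : E) : S) * ((cE (r g) (r (h * j)) : E) : S)
    rw [← hrc]
    exact h4
  · intro g g' h h' h4 h5
    show Units.map (algebraMap E S : E →* S) (cE (r g) (r h)) =
      Units.map (algebraMap E S : E →* S) (cE (r g') (r h'))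
    rw [hT g g' h4, hT h h' h5]
  · intro g g' h4
    show Units.map (algebraMap E S : E →* S) (αE (r g)) =
      Units.map (algebraMap E S : E →* S) (αE (r g'))
    rw [hT g g' h4]
  · intro g h
    have h4 := congrArg (fun z : E => (z : S)) (h1 (r g) (r h))
    rw [← map_mul] at h4
    show (b g h : S) * ((αE (r (g * h)) : E) : S) = ((cE (r g) (r h) : E) : S) *
      (g ((αE (r h) : E) : S) * ((αE (r g) : E) : S))
    rw [← hrc, ← hbE' g h]
    exact h4
  · intro g h n hn
    have hnN : r n ∈ N := ⟨n, MonoidHom.mem_ker.2 hn, rfl⟩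
    obtain ⟨h4, h5, h6⟩ := h3 (r g) (r h) (r n) hnN
    refine ⟨?_, ?_, ?_⟩
    · show Units.map (algebraMap E S : E →* S) (cE (r (g * n)) (r h)) = _
      rw [map_mul, h4]
    · show Units.map (algebraMap E S : E →* S) (cE (r g) (r (h * n))) = _
      rw [map_mul, h5]
    · show n ((cE (r g) (r h) : E) : S) = ((cE (r g) (r h) : E) : S)
      rw [← hrc]
      exact congrArg (fun z : E => (z : S)) h6

omit [IsAlgClosed F] [IsAlgClosure L Ω] in
include hG in
/-- the characteristic exponent is prime to `ℓ` -/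
lemma extc_coprime (hℓ : ℓ.Prime) : (ringExpChar F).Coprime ℓ := by
  refine G13_coprime hℓ fun h => ?_
  have h1 : (ℓ : Ω) ≠ 0 := IsGood.ne_zero (f.map (algebraMap L Ω))
  apply h1
  have h2 := congrArg (fun z : F => algebraMap L Ω (algebraMap F[X] L (C z))) h
  simpa using h2

/-- finitely many elements fixed by the kernel: a common exponent -/
lemma extc_pow (hΦ : IsModel F i x y Φ) (c : (S ≃ₐ[K] S) → (S ≃ₐ[K] S) → Sˣ) (hc : IsCocycle c)
    (hn : ∀ g h n : S ≃ₐ[K] S, res hΦ n = 1 → n (c g h) = c g h) :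
    ∃ s : ℕ, ∀ g h, ∃ u : FunField ℓ (f.map (algebraMap L Ω)),
      (c g h : S) ^ ringExpChar F ^ s = Φ u := by
  have hfin := finite_range₂ hc.continuous
  have h1 : ∀ v ∈ Set.range (fun p : (S ≃ₐ[K] S) × (S ≃ₐ[K] S) => c p.1 p.2),
      ∃ s : ℕ, ∃ u : FunField ℓ (f.map (algebraMap L Ω)), (v : S) ^ ringExpChar F ^ s = Φ u := by
    rintro v ⟨⟨g, h⟩, rfl⟩
    exact exists_pow_ker hΦ _ fun n hn1 => hn g h n hn1
  choose! s hs using h1
  refine ⟨hfin.toFinset.sup s, fun g h => ?_⟩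
  have hv : c g h ∈ Set.range (fun p : (S ≃ₐ[K] S) × (S ≃ₐ[K] S) => c p.1 p.2) := ⟨(g, h), rfl⟩
  obtain ⟨u, hu⟩ := hs _ hv
  have hle : s (c g h) ≤ hfin.toFinset.sup s := Finset.le_sup (hfin.mem_toFinset.mpr hv)
  refine ⟨u ^ ringExpChar F ^ (hfin.toFinset.sup s - s (c g h)), ?_⟩
  rw [map_pow, ← hu, ← pow_mul, ← pow_add, Nat.add_sub_cancel' hle]

/-- From invariant cocycles to `Ω`. PROOF. The values of `c` are fixed by the kernel of `res`, and finite in number
(`finite_range₂`): by `exists_pow_ker` there are `s` and, for all `g`, `h`, a unit `u` with `c g h ^ (p ^ s) = Φ u`,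
`p = ringExpChar F`, which is prime to `ℓ` (`G13_coprime` in `Wl/Gen.lean`). As `c g h` depends only on `res g`, `res h`
(`res_surjective`), this defines `b'`; it is a cocycle by `res_symU` and injectivity of `Φ`, continuous by
`icts₂_of_res`. -/
theorem exists_descend (hℓ : ℓ.Prime) (hΦ : IsModel F i x y Φ) (c : (S ≃ₐ[K] S) → (S ≃ₐ[K] S) → Sˣ)
    (hc : IsCocycle c) (hn : ∀ g h n : S ≃ₐ[K] S, res hΦ n = 1 →
        c (g * n) h = c g h ∧ c g (h * n) = c g h ∧ n (c g h) = c g h) :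
    ∃ (m : ℕ) (b' : (Ω ≃ₐ[L] Ω) → (Ω ≃ₐ[L] Ω) → (FunField ℓ (f.map (algebraMap L Ω)))ˣ),
      m.Coprime ℓ ∧ ICoc b' ∧ ∀ g h, c g h ^ m = infl hΦ b' g h := by
  obtain ⟨s, hs⟩ := extc_pow hΦ c hc fun g h n h1 => (hn g h n h1).2.2
  have hinj : Function.Injective (Units.map (Φ : FunField ℓ (f.map (algebraMap L Ω)) →* S)) :=
    Units.map_injective Φ.injective
  have hu : ∀ g h, ∃ u : (FunField ℓ (f.map (algebraMap L Ω)))ˣ,
      c g h ^ ringExpChar F ^ s = Units.map (Φ : FunField ℓ (f.map (algebraMap L Ω)) →* S) u := by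
    intro g h
    obtain ⟨u, hu⟩ := hs g h
    have hu0 : u ≠ 0 := by
      rintro rfl
      rw [map_zero] at hu
      exact pow_ne_zero _ (c g h).ne_zero hu
    refine ⟨Units.mk0 u hu0, Units.ext ?_⟩
    rw [Units.val_pow_eq_pow_val]
    exact hu
  choose v hv using hu
  let σ : (Ω ≃ₐ[L] Ω) → (S ≃ₐ[K] S) := Function.surjInv (res_surjective hΦ)
  have hσ : ∀ γ, res hΦ (σ γ) = γ := Function.surjInv_eq (res_surjective hΦ)
  have hcr : ∀ g h, c (σ (res hΦ g)) (σ (res hΦ h)) = c g h := by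
    intro g h
    have h1 : ∀ g : S ≃ₐ[K] S, ∃ n, res hΦ n = 1 ∧ σ (res hΦ g) = g * n := by
      intro g
      refine ⟨g⁻¹ * σ (res hΦ g), ?_, by rw [mul_inv_cancel_left]⟩
      rw [map_mul, map_inv, hσ, inv_mul_cancel]
    obtain ⟨n, hn1, hn2⟩ := h1 g
    obtain ⟨n', hn1', hn2'⟩ := h1 h
    rw [hn2, hn2', (hn _ _ n hn1).1, (hn _ _ n' hn1').2.1]
  let b' : (Ω ≃ₐ[L] Ω) → (Ω ≃ₐ[L] Ω) → (FunField ℓ (f.map (algebraMap L Ω)))ˣ :=
    fun γ δ => v (σ γ) (σ δ)
  have hb' : ∀ g h, c g h ^ ringExpChar F ^ s = infl hΦ b' g h := by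
    intro g h
    rw [← hcr g h]
    exact hv _ _
  refine ⟨ringExpChar F ^ s, b', Nat.Coprime.pow_left _ (extc_coprime (f := f) (Ω := Ω) hℓ), ⟨?_, ?_⟩, hb'⟩
  · intro γ δ ε
    apply hinj
    obtain ⟨g, rfl⟩ := res_surjective hΦ γ
    obtain ⟨h, rfl⟩ := res_surjective hΦ δ
    obtain ⟨j, rfl⟩ := res_surjective hΦ ε
    have e1 := hb' g h
    have e2 := hb' (g * h) j
    have e3 := hb' g (h * j)
    have e4 := hb' h j
    unfold infl at e1 e2 e3 e4
    rw [map_mul (res hΦ)] at e2 e3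
    rw [map_mul, map_mul, ← e1, ← e2, ← e3]
    apply Units.ext
    have e5 : ((Units.map (Φ : FunField ℓ (f.map (algebraMap L Ω)) →* S)
        (symU (gs f (res hΦ g)) (b' (res hΦ h) (res hΦ j))) : Sˣ) : S) =
        g (c h j) ^ ringExpChar F ^ s := by
      have e6 := res_symU hΦ g (b' (res hΦ h) (res hΦ j))
      have e7 := congrArg (Units.val) e4
      rw [Units.val_pow_eq_pow_val] at e7
      rw [← map_pow, e7]
      exact e6.symm
    rw [Units.val_mul, Units.val_mul, e5]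
    simp only [Units.val_pow_eq_pow_val]
    rw [← mul_pow, ← mul_pow, hc.cocycle g h j]
  · refine icts₂_of_res hΦ b' ?_
    obtain ⟨T, hT⟩ := hc.continuous
    refine ⟨T, fun g g' h h' h1 h2 => hinj ?_⟩
    have e1 := hb' g h
    have e2 := hb' g' h'
    unfold infl at e1 e2
    rw [← e1, ← e2, hT g g' h h' h1 h2]

/-- Every class is, up to a multiple prime to `ℓ`, an inflated class. PROOF: `exists_ker`, `exists_level` for `b ^ m`,
`exists_descend`. -/
theorem exists_infl (hℓ : ℓ.Prime) (hΦ : IsModel F i x y Φ) (b : (S ≃ₐ[K] S) → (S ≃ₐ[K] S) → Sˣ)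
    (hb : IsCocycle b) :
    ∃ (m : ℕ) (b' : (Ω ≃ₐ[L] Ω) → (Ω ≃ₐ[L] Ω) → (FunField ℓ (f.map (algebraMap L Ω)))ˣ),
      m.Coprime ℓ ∧ ICoc b' ∧ IsCoboundary fun g h => b g h ^ m / infl hΦ b' g h := by
  obtain ⟨m, a, hm, ha, hab⟩ := exists_ker hℓ hΦ b hb
  have hb1 : IsCocycle fun g h => b g h ^ m := by
    refine ⟨fun g h j => ?_, ?_⟩
    · simp only [Units.val_pow_eq_pow_val, map_pow]
      rw [← mul_pow, ← mul_pow, hb.cocycle g h j]
    · obtain ⟨T, hT⟩ := hb.continuous
      exact ⟨T, fun g g' h h' h1 h2 => by rw [hT g g' h h' h1 h2]⟩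
  obtain ⟨c, α, hc, hα, hcα, hn⟩ := exists_level hΦ (fun g h => b g h ^ m) hb1 a ha (by
    intro g h h1 h2
    rw [Units.val_pow_eq_pow_val]
    exact hab g h h1 h2)
  obtain ⟨m', b', hm', hb', hcb⟩ := exists_descend hℓ hΦ c hc hn
  refine ⟨m * m', b', Nat.Coprime.mul_left hm hm', hb', fun g => α g ^ m', hα.comp fun z => z ^ m', ?_⟩
  intro g h
  have e1 : b g h ^ (m * m') / infl hΦ b' g h = (b g h ^ m / c g h) ^ m' := by
    rw [← hcb g h, div_pow, pow_mul]
  have e2 : ((b g h ^ m / c g h : Sˣ) : S) * α (g * h) = g (α h) * α g := by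
    have h3 := hcα g h
    rw [Units.val_div_eq_div_val, div_mul_eq_mul_div, div_eq_iff (c g h).ne_zero, h3]
    ring
  show ((b g h ^ (m * m') / infl hΦ b' g h : Sˣ) : S) * ((α (g * h) ^ m' : Sˣ) : S) =
    g ((α h ^ m' : Sˣ) : S) * ((α g ^ m' : Sˣ) : S)
  rw [e1]
  simp only [Units.val_pow_eq_pow_val, map_pow]
  rw [← mul_pow, ← mul_pow, e2]

/-- The exponential characteristic of the constants is prime to `ℓ`. -/
theorem extd_coprime {ℓ : ℕ} (hℓ : ℓ.Prime) (F L Ω : Type) [Field F] [Field L] [Field Ω]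
    [Algebra F[X] L] [Algebra L Ω] (h0 : (ℓ : Ω) ≠ 0) : (ringExpChar F).Coprime ℓ := by
  apply G13_coprime hℓ
  intro h
  apply h0
  have h1 : algebraMap L Ω (algebraMap F[X] L (C ((ℓ : ℕ) : F))) = (ℓ : Ω) := by
    rw [map_natCast, map_natCast, map_natCast]
  rw [← h1, h, map_zero, map_zero, map_zero]

/-- The cocycle identity for the inflation. -/
theorem extd_cocycle (hΦ : IsModel F i x y Φ)
    {b : (Ω ≃ₐ[L] Ω) → (Ω ≃ₐ[L] Ω) → (FunField ℓ (f.map (algebraMap L Ω)))ˣ} (hb : ICoc b)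
    (g h j : S ≃ₐ[K] S) :
    (infl hΦ b g h : S) * infl hΦ b (g * h) j = g (infl hΦ b h j) * infl hΦ b g (h * j) := by
  have h1 := congrArg (fun u : (FunField ℓ (f.map (algebraMap L Ω)))ˣ =>
    Φ (u : FunField ℓ (f.map (algebraMap L Ω)))) (hb.cocycle (res hΦ g) (res hΦ h) (res hΦ j))
  simp only [Units.val_mul, map_mul Φ] at h1
  rw [← res_symU hΦ, ← map_mul (res hΦ), ← map_mul (res hΦ)] at h1
  exact h1

/-- Powers and common exponents: a finite set of elements fixed by the kernel of `res` has a common power in the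
image of `Φ`. -/
theorem extd_pow (hΦ : IsModel F i x y Φ) (A : Set S) (hA : A.Finite)
    (hfix : ∀ z ∈ A, ∀ g : S ≃ₐ[K] S, res hΦ g = 1 → g z = z) :
    ∃ s : ℕ, ∀ z ∈ A, ∃ u : FunField ℓ (f.map (algebraMap L Ω)), z ^ ringExpChar F ^ s = Φ u := by
  have h1 : ∀ z : S, ∃ s : ℕ, z ∈ A → ∃ u : FunField ℓ (f.map (algebraMap L Ω)),
      z ^ ringExpChar F ^ s = Φ u := by
    intro z
    by_cases hz : z ∈ A
    · obtain ⟨s, u, h⟩ := exists_pow_ker hΦ z (hfix z hz)
      exact ⟨s, fun _ => ⟨u, h⟩⟩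
    · exact ⟨0, fun h => absurd h hz⟩
  choose s hs using h1
  refine ⟨hA.toFinset.sup s, fun z hz => ?_⟩
  obtain ⟨u, hu⟩ := hs z hz
  have hle : s z ≤ hA.toFinset.sup s := Finset.le_sup (hA.mem_toFinset.2 hz)
  obtain ⟨d, hd⟩ := Nat.exists_eq_add_of_le hle
  refine ⟨u ^ ringExpChar F ^ d, ?_⟩
  rw [hd, pow_add, pow_mul, hu, map_pow]

theorem icob_of_infl (hℓ : ℓ.Prime) (hΦ : IsModel F i x y Φ)
    (b : (Ω ≃ₐ[L] Ω) → (Ω ≃ₐ[L] Ω) → (FunField ℓ (f.map (algebraMap L Ω)))ˣ) (hb : ICoc b)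
    (h : IsCoboundary (infl hΦ b)) : ∃ m : ℕ, m.Coprime ℓ ∧ ICob fun g h => b g h ^ m := by
  obtain ⟨a, hac, ha⟩ := h
  set B := infl hΦ b with hB
  have hBc : ∀ g h j : S ≃ₐ[K] S, (B g h : S) * B (g * h) j = g (B h j) * B g (h * j) :=
    extd_cocycle hΦ hb
  have hBr : ∀ g g' h h' : S ≃ₐ[K] S, res hΦ g = res hΦ g' → res hΦ h = res hΦ h' →
      B g h = B g' h' := by
    intro g g' h h' h1 h2
    show infl hΦ b g h = infl hΦ b g' h'
    unfold infl
    rw [h1, h2]
  have hB0 : ∀ g h : S ≃ₐ[K] S, (B g h : S) ≠ 0 := fun g h => (B g h).ne_zero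
  -- `B 1 g = B 1 1`
  have hB1 : ∀ g : S ≃ₐ[K] S, (B 1 g : S) = B 1 1 := by
    intro g
    have h1 := hBc 1 1 g
    rw [one_mul, one_mul, AlgEquiv.one_apply] at h1
    exact (mul_right_cancel₀ (hB0 1 g) h1).symm
  -- `B g 1 = g (B 1 1)`
  have hB2 : ∀ g : S ≃ₐ[K] S, (B g 1 : S) = g (B 1 1) := by
    intro g
    have h1 := hBc g 1 1
    rw [mul_one, mul_one] at h1
    exact mul_right_cancel₀ (hB0 g 1) h1
  -- the kernel fixes the values of `B`
  have hker1 : ∀ n : S ≃ₐ[K] S, res hΦ n = 1 → n (B 1 1) = B 1 1 := by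
    intro n hn
    exact (res_eq_one_iff hΦ n).1 hn _
  have hn1 : ∀ n : S ≃ₐ[K] S, res hΦ n = 1 → res hΦ n = res hΦ 1 := by
    intro n hn
    rw [hn, map_one]
  obtain ⟨e, he⟩ := h90_ker hΦ (fun g => a g / B 1 1) (hac.comp fun u => u / B 1 1) (by
    intro g h hg hh
    have h1 := ha g h
    have h2 : (B g h : S) = B 1 1 := by
      rw [hBr g 1 h 1 (hn1 g hg) (hn1 h hh)]
    rw [h2] at h1
    have h3 : (B 1 1 : S) ≠ 0 := hB0 1 1
    rw [Units.val_div_eq_div_val, Units.val_div_eq_div_val, Units.val_div_eq_div_val, map_div₀,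
      hker1 g hg]
    field_simp
    rw [← h1]
    ring)
  -- the modified cochain
  let A : (S ≃ₐ[K] S) → Sˣ := fun g => a g * e / Units.map (g : S →* S) e
  have hAv : ∀ g, (A g : S) = a g * e / g e := by
    intro g
    show ((a g * e / Units.map (g : S →* S) e : Sˣ) : S) = _
    rw [Units.val_div_eq_div_val, Units.val_mul]
    rfl
  have he0 : (e : S) ≠ 0 := e.ne_zero
  have hge0 : ∀ g : S ≃ₐ[K] S, g e ≠ 0 := fun g => (_root_.map_ne_zero g).2 he0
  have hA0 : ∀ g, (A g : S) ≠ 0 := fun g => (A g).ne_zero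
  have hAn : ∀ n : S ≃ₐ[K] S, res hΦ n = 1 → (A n : S) = B 1 1 := by
    intro n hn
    have h1 := he n hn
    rw [Units.val_div_eq_div_val] at h1
    rw [hAv, ← h1]
    have h3 : (B 1 1 : S) ≠ 0 := hB0 1 1
    have h4 : (a n : S) ≠ 0 := (a n).ne_zero
    field_simp
  have hAc : ∀ g h : S ≃ₐ[K] S, (B g h : S) * A (g * h) = g (A h) * A g := by
    intro g h
    rw [hAv, hAv, hAv, map_div₀, map_mul]
    have h1 := ha g h
    have h2 : (g * h) (e : S) = g (h e) := rfl
    rw [h2]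
    have h3 := hge0 g
    have h4 : g (h e) ≠ 0 := (_root_.map_ne_zero g).2 (hge0 h)
    rw [← mul_div_assoc, ← mul_assoc, h1]
    field_simp
  have hActs : IsCts A := by
    obtain ⟨T, hT⟩ := hac
    refine ⟨insert (e : S) T, fun g g' hgg => ?_⟩
    have h1 : a g = a g' := hT g g' fun z hz => hgg z (Finset.mem_insert_of_mem hz)
    have h2 : g (e : S) = g' e := hgg e (Finset.mem_insert_self _ _)
    apply Units.ext
    rw [hAv, hAv, h1, h2]
  -- invariance
  have hAr : ∀ g n : S ≃ₐ[K] S, res hΦ n = 1 → (A (g * n) : S) = A g := by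
    intro g n hn
    have h1 := hAc g n
    rw [hAn n hn, hBr g g n 1 rfl (hn1 n hn), hB2] at h1
    exact mul_left_cancel₀ ((_root_.map_ne_zero g).2 (hB0 1 1)) h1
  have hAl : ∀ g n : S ≃ₐ[K] S, res hΦ n = 1 → (A (n * g) : S) = n (A g) := by
    intro g n hn
    have h1 := hAc n g
    rw [hAn n hn, hBr n 1 g g (hn1 n hn) rfl, hB1, mul_comm] at h1
    exact mul_right_cancel₀ (hB0 1 1) h1
  have hAfix : ∀ g n : S ≃ₐ[K] S, res hΦ n = 1 → n (A g) = A g := by
    intro g n hn
    rw [← hAl g n hn]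
    have h1 : n * g = g * (g⁻¹ * n * g) := by group
    rw [h1]
    apply hAr
    rw [map_mul, map_mul, hn, mul_one, map_inv, inv_mul_cancel]
  have hAres : ∀ g g' : S ≃ₐ[K] S, res hΦ g = res hΦ g' → (A g : S) = A g' := by
    intro g g' hgg
    have h1 : g' = g * (g⁻¹ * g') := by group
    rw [h1]
    refine (hAr g (g⁻¹ * g') ?_).symm
    rw [map_mul, map_inv, hgg, inv_mul_cancel]
  -- the common power
  have hfin : (Set.range fun g : S ≃ₐ[K] S => (A g : S)).Finite :=
    IsCts.finite_range (hActs.comp fun u : Sˣ => (u : S))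
  obtain ⟨s, hs⟩ := extd_pow hΦ _ hfin (by
    rintro z ⟨g, rfl⟩ n hn
    exact hAfix g n hn)
  have hW : ∀ v : S, ∃ u : (FunField ℓ (f.map (algebraMap L Ω)))ˣ,
      (v ≠ 0 ∧ v ∈ Set.range fun g : S ≃ₐ[K] S => (A g : S)) →
        Φ (u : FunField ℓ (f.map (algebraMap L Ω))) = v ^ ringExpChar F ^ s := by
    intro v
    by_cases hv : v ≠ 0 ∧ v ∈ Set.range fun g : S ≃ₐ[K] S => (A g : S)
    · obtain ⟨u, hu⟩ := hs v hv.2
      have hu0 : u ≠ 0 := by
        rintro rfl
        rw [map_zero] at hu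
        exact hv.1 (eq_zero_of_pow_eq_zero hu)
      exact ⟨Units.mk0 u hu0, fun _ => hu.symm⟩
    · exact ⟨1, fun h => absurd h hv⟩
  choose W hW using hW
  obtain ⟨sec, hsec⟩ := (res_surjective hΦ).hasRightInverse
  have hα : ∀ g : S ≃ₐ[K] S, W (A (sec (res hΦ g))) = W (A g) := by
    intro g
    rw [hAres (sec (res hΦ g)) g (hsec (res hΦ g))]
  have hWA : ∀ g : S ≃ₐ[K] S, Φ (W (A g) : FunField ℓ (f.map (algebraMap L Ω))) =
      (A g : S) ^ ringExpChar F ^ s := fun g => hW (A g) ⟨hA0 g, g, rfl⟩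
  refine ⟨ringExpChar F ^ s, Nat.Coprime.pow_left s (extd_coprime hℓ F L Ω hG.ne_zero),
    fun γ => W (A (sec γ)), ?_, ?_⟩
  · apply isCts_of_res hΦ
    obtain ⟨T, hT⟩ := hActs
    refine ⟨T, fun g g' hgg => ?_⟩
    show W (A (sec (res hΦ g))) = W (A (sec (res hΦ g')))
    rw [hα, hα, hT g g' hgg]
  · intro γ η
    obtain ⟨g, rfl⟩ := res_surjective hΦ γ
    obtain ⟨h, rfl⟩ := res_surjective hΦ η
    show b (res hΦ g) (res hΦ h) ^ ringExpChar F ^ s * W (A (sec (res hΦ g * res hΦ h))) =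
      symU (gs f (res hΦ g)) (W (A (sec (res hΦ h)))) * W (A (sec (res hΦ g)))
    rw [← map_mul, hα, hα, hα]
    apply Units.ext
    apply Φ.injective
    rw [Units.val_mul, Units.val_mul, map_mul, map_mul, ← res_symU hΦ, hWA, hWA, hWA,
      Units.val_pow_eq_pow_val, map_pow, map_pow, ← mul_pow, ← mul_pow]
    exact congrArg (fun z : S => z ^ ringExpChar F ^ s) (hAc g h)

/-- The embedding of `K` in the functions. -/
theorem exte_exists_hom (hΦ : IsModel F i x y Φ) :
    ∃ κ : K →+* FunField ℓ (f.map (algebraMap L Ω)), ∀ z, Φ (κ z) = algebraMap K S z := by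
  have h1 : ∀ z : K, ∃ u : FunField ℓ (f.map (algebraMap L Ω)), Φ u = algebraMap K S z := by
    intro z
    obtain ⟨r, hr⟩ := hΦ.exists_toO z
    exact ⟨_, hr⟩
  choose κ hκ using h1
  have hinj : Function.Injective Φ := Φ.injective
  refine ⟨{ toFun := κ
            map_one' := hinj (by rw [hκ, map_one, map_one])
            map_mul' := fun a b => hinj (by rw [hκ, map_mul, map_mul, hκ, hκ])
            map_zero' := hinj (by rw [hκ, map_zero, map_zero])
            map_add' := fun a b => hinj (by rw [hκ, map_add, map_add, hκ, hκ]) }, hκ⟩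

/-- A homomorphism with values in the range of an injective homomorphism lifts. -/
theorem exte_lift {A B C : Type} [Field A] [Field B] [Field C] (φ : A →+* C) (θ : B →+* C)
    (h : ∀ z, θ z ∈ φ.range) : ∃ i : B →+* A, ∀ z, φ (i z) = θ z := by
  have h1 : ∀ z : B, ∃ u : A, φ u = θ z := fun z => h z
  choose i hi using h1
  have hinj : Function.Injective φ := φ.injective
  refine ⟨{ toFun := i
            map_one' := hinj (by rw [hi, map_one, map_one])
            map_mul' := fun a b => hinj (by rw [hi, map_mul, map_mul, hi, hi])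
            map_zero' := hinj (by rw [hi, map_zero, map_zero])
            map_add' := fun a b => hinj (by rw [hi, map_add, map_add, hi, hi]) }, hi⟩

/-- Extension of a homomorphism to `S`. -/
theorem exte_extend {M T : Type} [Field M] [Field T] [IsAlgClosed T] (φ : M →+* S) (κ : K →+* M)
    (hκ : ∀ z, φ (κ z) = algebraMap K S z) (ψ : M →+* T) :
    ∃ j : S →+* T, ∀ u, j (φ u) = ψ u := by
  let iA : Algebra M S := φ.toAlgebra
  let iB : Algebra K M := κ.toAlgebra
  let iC : Algebra M T := ψ.toAlgebra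
  have iT : IsScalarTower K M S := IsScalarTower.of_algebraMap_eq fun z => (hκ z).symm
  have iAlg : Algebra.IsAlgebraic K S := IsAlgClosure.isAlgebraic
  have iAlg' : Algebra.IsAlgebraic M S := Algebra.IsAlgebraic.tower_top (K := K) _
  refine ⟨((IsAlgClosed.lift : S →ₐ[M] T) : S →+* T), fun u => ?_⟩
  exact (IsAlgClosed.lift : S →ₐ[M] T).commutes u

/-- Restriction of automorphisms to `S`. -/
theorem exte_restrict {H T : Type} [Field H] [Field T] [Algebra H T] (i : K →+* H) (j : S →+* T)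
    (hij : ∀ z, j (algebraMap K S z) = algebraMap H T (i z)) (g : T ≃ₐ[H] T) :
    ∃ r : S ≃ₐ[K] S, ∀ z, j (r z) = g (j z) := by
  let iA : Algebra S T := j.toAlgebra
  let iB : Algebra K T := (j.comp (algebraMap K S)).toAlgebra
  have iT : IsScalarTower K S T := IsScalarTower.of_algebraMap_eq fun z => rfl
  have iN : Normal K S := IsAlgClosure.normal K S
  have hg : ∀ z : K, g.toRingEquiv (algebraMap K T z) = algebraMap K T z := by
    intro z
    have h1 : algebraMap K T z = algebraMap H T (i z) := hij z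
    rw [h1]
    exact g.commutes (i z)
  let g' : T ≃ₐ[K] T := AlgEquiv.ofRingEquiv (f := g.toRingEquiv) hg
  exact ⟨g'.restrictNormal S, fun z => g'.restrictNormal_commutes S z⟩

/-- The image of a constant under a map of functions. -/
theorem exte_funMap_cO (σ : Sym (f.map (algebraMap L Ω))) (z : Ω) :
    funMap ℓ ((σ : Ω ≃+* Ω) : Ω →+* Ω) σ.2 (cO ℓ f Ω z) = cO ℓ f Ω ((σ : Ω ≃+* Ω) z) := by
  have h := funMap_polyF (N := ℓ) ((σ : Ω ≃+* Ω) : Ω →+* Ω) σ.2 (C z)
  rw [Polynomial.map_C] at h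
  exact h

/-- The final computation. -/
theorem exte_calc {T : Type} [Field T] {B P u v w α₁ α₂ α₃ : T} (hu : u ≠ 0) (hv : v ≠ 0)
    (hw : w ≠ 0) (h1 : B * u = P * (v * w)) (h2 : B * α₁ = α₂ * α₃) :
    P * (α₁ / u) = (α₂ / v) * (α₃ / w) := by
  rw [div_mul_div_comm, ← mul_div_assoc, div_eq_div_iff hu (mul_ne_zero hv hw)]
  linear_combination (-α₁) * h1 + u * h2

/-- Unramified classes. PROOF. Let `O`, `H`, `T`, `ψ` be as in `IUnr`. The homomorphism `i : K → H`: `Φ` is injective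
and the image of `K` is `Φ (toO (FunField ℓ f))` (`IsModel.toO_mem`, `IsModel.exists_toO`); for `z` in `K`, `z = Φ (toO r)`,
let `i z` be the element of `H` with image `ψ (toO r)`. (Define first the homomorphism `K → T`, `z ↦ ψ (Φ⁻¹ z)`, which has
values in the range of `H`, and use `RingHom.codRestrict` / the injectivity of `H → T`.) The homomorphism `j : S → T`
extending `ψ ∘ Φ⁻¹` : `S` is algebraic over the image of `Φ`, `T` is algebraically closed (`IsAlgClosed.lift` for the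
algebra structures given by `Φ` and `ψ`). `IsUnramified` gives `a`. Let `r g` be the restriction of `g` in `Aut(T/H)` to
`S` (as in `exists_res`: `j S` is the algebraic closure of `j K` in `T`; `g` fixes `j K`). If `β` is the cochain of `h`:
`b g h ^ m β(gh) = infl b' g h (g β(h) β(g))`, take `A g = a g ^ m / j (β (r g))`; the automorphism `g'` of `Ω` with
`ψ (g' z) = g (ψ z)` is `res (r g)`. -/
theorem iunr_of_unramified (hΦ : IsModel F i x y Φ) (b : (S ≃ₐ[K] S) → (S ≃ₐ[K] S) → Sˣ)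
    (hu : IsUnramified F b) (m : ℕ)
    (b' : (Ω ≃ₐ[L] Ω) → (Ω ≃ₐ[L] Ω) → (FunField ℓ (f.map (algebraMap L Ω)))ˣ)
    (h : IsCoboundary fun g h => b g h ^ m / infl hΦ b' g h) : IUnr F b' := by
  obtain ⟨κ, hκ⟩ := exte_exists_hom hΦ
  obtain ⟨β, ⟨T₁, hT₁⟩, hβ⟩ := h
  intro O H T _ _ _ _ _ _ _ _ _ _ ψ hψ1 hψ2 hψ3
  have iCl : IsAlgClosed T := IsAlgClosure.isAlgClosed H
  have hΦi : Function.Injective Φ := Φ.injective
  have hκr : ∀ z : K, ∃ r : FunField ℓ f, κ z = toO ℓ f Ω r := by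
    intro z
    obtain ⟨r, hr⟩ := hΦ.exists_toO z
    exact ⟨r, hΦi ((hκ z).trans hr.symm)⟩
  -- the homomorphism to `H`
  obtain ⟨i₁, hi⟩ := exte_lift (algebraMap H T) (ψ.comp κ) (by
    intro z
    obtain ⟨r, hr⟩ := hκr z
    show ψ (κ z) ∈ _
    rw [hr]
    exact hψ1 r)
  have hi' : ∀ z, algebraMap H T (i₁ z) = ψ (κ z) := hi
  -- the homomorphism from `S`
  obtain ⟨j, hj⟩ := exte_extend (K := K) Φ κ hκ ψ
  have hij : ∀ z, j (algebraMap K S z) = algebraMap H T (i₁ z) := by
    intro z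
    rw [← hκ z, hj, hi']
  have hinjH : Function.Injective (algebraMap H T) := (algebraMap H T).injective
  obtain ⟨a, ha, hab⟩ := hu O H T i₁ j hij (by
    intro c
    obtain ⟨o, ho⟩ := hψ2 c
    have h1 : κ (algebraMap F K c) = cO ℓ f Ω (algebraMap L Ω (algebraMap F[X] L (C c))) := by
      apply hΦi
      rw [hκ, hΦ.base, hΦ.const]
    refine ⟨o, hinjH ?_⟩
    rw [hi', h1]
    exact ho) (by
    obtain ⟨r, hr⟩ := hψ3
    obtain ⟨z, hz⟩ := hΦ.toO_mem r
    refine ⟨z, ?_⟩
    rintro ⟨o, ho⟩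
    apply hr
    refine ⟨o, ?_⟩
    have h1 : κ z = toO ℓ f Ω r := hΦi ((hκ z).trans hz.symm)
    show algebraMap H T (algebraMap O H o) = _
    rw [ho, hi', h1])
  -- restriction
  have hr : ∀ g : T ≃ₐ[H] T, ∃ r : S ≃ₐ[K] S, ∀ z, j (r z) = g (j z) :=
    fun g => exte_restrict i₁ j hij g
  choose r hr using hr
  have hji : Function.Injective j := j.injective
  have hrm : ∀ g h, r (g * h) = r g * r h := by
    intro g h
    refine AlgEquiv.ext fun z => hji ?_
    rw [hr]
    show g (h (j z)) = j (r g (r h z))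
    rw [hr, hr]
  have hres : ∀ (g : T ≃ₐ[H] T) (g' : Ω ≃ₐ[L] Ω),
      (∀ z, ψ (cO ℓ f Ω (g' z)) = g (ψ (cO ℓ f Ω z))) → g' = res hΦ (r g) := by
    intro g g' hg
    refine AlgEquiv.ext fun z => ?_
    apply (cO ℓ f Ω).injective
    apply ψ.injective
    rw [hg, ← hj, ← hr, res_spec hΦ, hj]
    exact congrArg ψ (exte_funMap_cO (gs f (res hΦ (r g))) z)
  refine ⟨fun g => a g ^ m / Units.map (j : S →* T) (β (r g)), ?_, ?_⟩
  · obtain ⟨T₂, hT₂⟩ := ha
    refine ⟨T₂ ∪ T₁.image j, fun g g' hgg => ?_⟩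
    have h1 : a g = a g' := hT₂ g g' fun z hz => hgg z (Finset.mem_union_left _ hz)
    have h2 : β (r g) = β (r g') := by
      refine hT₁ _ _ fun z hz => hji ?_
      rw [hr, hr]
      exact hgg _ (Finset.mem_union_right _ (Finset.mem_image_of_mem _ hz))
    show a g ^ m / Units.map (j : S →* T) (β (r g)) = a g' ^ m / Units.map (j : S →* T) (β (r g'))
    rw [h1, h2]
  · intro g h g' h' hg hh
    have e1 := hab g h (r g) (r h) (hr g) (hr h)
    have e2 := hβ (r g) (r h)
    have hg2 := hres g g' hg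
    have hh2 := hres h h' hh
    have e3 : ((b (r g) (r h) ^ m / infl hΦ b' (r g) (r h) : Sˣ) : S) =
        (b (r g) (r h) : S) ^ m / Φ (b' g' h' : FunField ℓ (f.map (algebraMap L Ω))) := by
      rw [Units.val_div_eq_div_val, Units.val_pow_eq_pow_val, hg2, hh2]
      rfl
    have hne : Φ (b' g' h' : FunField ℓ (f.map (algebraMap L Ω))) ≠ 0 :=
      (_root_.map_ne_zero Φ).mpr (Units.ne_zero _)
    have e4 : (b (r g) (r h) : S) ^ m * β (r (g * h)) =
        Φ (b' g' h' : FunField ℓ (f.map (algebraMap L Ω))) * (r g (β (r h)) * β (r g)) := by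
      have e5 : ((b (r g) (r h) ^ m / infl hΦ b' (r g) (r h) : Sˣ) : S) * β (r g * r h) =
          r g (β (r h)) * β (r g) := e2
      rw [e3, ← hrm, div_mul_eq_mul_div, div_eq_iff hne] at e5
      rw [e5]
      ring
    have e6 := congrArg j e4
    rw [map_mul, map_mul, map_mul, map_pow, hj, hr] at e6
    have e7 := congrArg (fun z => z ^ m) e1
    simp only [mul_pow] at e7
    have hz1 : j (β (r (g * h)) : S) ≠ 0 := (_root_.map_ne_zero j).mpr (Units.ne_zero _)
    have hz2 : g (j (β (r h) : S)) ≠ 0 :=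
      (_root_.map_ne_zero g).mpr ((_root_.map_ne_zero j).mpr (Units.ne_zero _))
    have hz3 : j (β (r g) : S) ≠ 0 := (_root_.map_ne_zero j).mpr (Units.ne_zero _)
    have e8 := exte_calc hz1 hz2 hz3 e6 e7
    show ψ (b' g' h' : FunField ℓ (f.map (algebraMap L Ω))) *
        ((a (g * h) ^ m / Units.map (j : S →* T) (β (r (g * h))) : Tˣ) : T) =
      g ((a h ^ m / Units.map (j : S →* T) (β (r h)) : Tˣ) : T) *
        ((a g ^ m / Units.map (j : S →* T) (β (r g)) : Tˣ) : T)
    rw [Units.val_div_eq_div_val, Units.val_div_eq_div_val, Units.val_div_eq_div_val,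
      Units.val_pow_eq_pow_val, Units.val_pow_eq_pow_val, Units.val_pow_eq_pow_val, map_div₀,
      map_pow]
    exact e8

/-- `funMap σ` as an automorphism. -/
theorem extf_autF (σ : Sym (f.map (algebraMap L Ω))) (u : FunField ℓ (f.map (algebraMap L Ω))) :
    autF (symE ℓ σ) u = funMap ℓ ((σ : Ω ≃+* Ω) : Ω →+* Ω) σ.2 u := by
  have h : ((autF (symE ℓ σ) : FunField ℓ (f.map (algebraMap L Ω)) ≃+*
      FunField ℓ (f.map (algebraMap L Ω))) : FunField ℓ (f.map (algebraMap L Ω)) →+*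
      FunField ℓ (f.map (algebraMap L Ω))) = funMap ℓ ((σ : Ω ≃+* Ω) : Ω →+* Ω) σ.2 := by
    refine funField_hom_ext (fun p => ?_) ?_
    · rw [funMap_polyF]
      have h1 := autF_algebraMap (symE ℓ σ) (ofPoly p : NRing ℓ (f.map (algebraMap L Ω)))
      rw [R07_symE_ofPoly] at h1
      exact h1
    · rw [funMap_yF]
      have h1 := autF_algebraMap (symE ℓ σ) (yy : NRing ℓ (f.map (algebraMap L Ω)))
      rw [R07_symE_yy] at h1
      exact h1
  exact RingHom.congr_fun h u

/-- The automorphisms of `Ω` which fix the coefficients of the curve and preserve `F` extend to `S`: `exists_extension`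
for `funMap γ`. -/
theorem exists_lift (hΦ : IsModel F i x y Φ) (γ : Ω ≃+* Ω) (hγ : γ ∈ Sym (f.map (algebraMap L Ω)))
    (s : L ≃+* L) (hs : ∀ z : L, γ (algebraMap L Ω z) = algebraMap L Ω (s z)) :
    ∃ γ' : S ≃+* S, (∀ u, γ' (Φ u) = Φ (funMap ℓ (γ : Ω →+* Ω) hγ u)) ∧
      ∀ z : L, γ' (algebraMap K S (i z)) = algebraMap K S (i (s z)) := by
  obtain ⟨γ', h⟩ := exists_extension hΦ (autF (symE ℓ (⟨γ, hγ⟩ : Sym (f.map (algebraMap L Ω)))))
  have h2 : ∀ u, γ' (Φ u) = Φ (funMap ℓ (γ : Ω →+* Ω) hγ u) := fun u => by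
    rw [h u, extf_autF]
  refine ⟨γ', h2, fun z => ?_⟩
  rw [← hΦ.base, ← hΦ.base, h2]
  congr 1
  change funMap ℓ (γ : Ω →+* Ω) hγ (polyF (C _)) = polyF (C _)
  rw [funMap_polyF, Polynomial.map_C]
  congr 2
  exact hs z

/-- `γ'` maps `K` into `K`. -/
theorem extf_mem (hΦ : IsModel F i x y Φ) (γ : Ω ≃+* Ω) (hγ : γ ∈ Sym (f.map (algebraMap L Ω)))
    (s : L ≃+* L) (hs : ∀ z : L, γ (algebraMap L Ω z) = algebraMap L Ω (s z)) (γ' : S ≃+* S)
    (hγ' : ∀ u, γ' (Φ u) = Φ (funMap ℓ (γ : Ω →+* Ω) hγ u)) (z : K) :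
    ∃ w : K, γ' (algebraMap K S z) = algebraMap K S w := by
  have hconst : ∀ z : L, γ' (algebraMap K S (i z)) = algebraMap K S (i (s z)) := by
    intro z
    rw [← hΦ.base, ← hΦ.base, hγ']
    congr 1
    change funMap ℓ (γ : Ω →+* Ω) hγ (polyF (C _)) = polyF (C _)
    rw [funMap_polyF, Polynomial.map_C]
    congr 2
    exact hs z
  let M : Subfield K :=
    { carrier := {z | ∃ w : K, γ' (algebraMap K S z) = algebraMap K S w}
      mul_mem' := by
        rintro a b ⟨a', ha⟩ ⟨b', hb⟩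
        exact ⟨a' * b', by rw [map_mul, map_mul, ha, hb, map_mul]⟩
      one_mem' := ⟨1, by rw [map_one, map_one]⟩
      add_mem' := by
        rintro a b ⟨a', ha⟩ ⟨b', hb⟩
        exact ⟨a' + b', by rw [map_add, map_add, ha, hb, map_add]⟩
      zero_mem' := ⟨0, by rw [map_zero, map_zero]⟩
      neg_mem' := by
        rintro a ⟨a', ha⟩
        exact ⟨-a', by rw [map_neg, map_neg, ha, map_neg]⟩
      inv_mem' := by
        rintro a ⟨a', ha⟩
        exact ⟨a'⁻¹, by rw [map_inv₀, map_inv₀, ha, map_inv₀]⟩ }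
  have hM : M = ⊤ := hΦ.gen M (fun z => ⟨_, hconst z⟩)
    ⟨x, by rw [← hΦ.fx, hγ', funMap_polyF, Polynomial.map_X]⟩
    ⟨y, by rw [← hΦ.fy, hγ', funMap_yF]⟩
  have h1 : z ∈ M := by
    rw [hM]
    trivial
  exact h1

/-- Conjugation by `γ'`. -/
theorem extf_conj (γ' : S ≃+* S) (h1 : ∀ z : K, ∃ w : K, γ' (algebraMap K S z) = algebraMap K S w)
    (g : S ≃ₐ[K] S) : ∃ g0 : S ≃ₐ[K] S, ∀ z, g0 z = γ'.symm (g (γ' z)) := by
  refine ⟨AlgEquiv.ofRingEquiv (f := (γ'.trans (g : S ≃+* S)).trans γ'.symm) (fun z => ?_), fun z => rfl⟩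
  obtain ⟨w, hw⟩ := h1 z
  change γ'.symm (g (γ' (algebraMap K S z))) = algebraMap K S z
  rw [hw, g.commutes, ← hw, RingEquiv.symm_apply_apply]

/-- the conjugate of an automorphism of `Ω` -/
theorem extf_conjO (γ : Ω ≃+* Ω) (s : L ≃+* L)
    (hs : ∀ z : L, γ (algebraMap L Ω z) = algebraMap L Ω (s z)) (g : Ω ≃ₐ[L] Ω) :
    ∃ g0 : Ω ≃ₐ[L] Ω, ∀ z, g0 z = γ.symm (g (γ z)) := by
  have h1 : ∀ z : L, ∃ w : L, γ (algebraMap L Ω z) = algebraMap L Ω w := fun z => ⟨s z, hs z⟩
  refine ⟨AlgEquiv.ofRingEquiv (f := (γ.trans (g : Ω ≃+* Ω)).trans γ.symm) (fun z => ?_), fun z => rfl⟩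
  obtain ⟨w, hw⟩ := h1 z
  change γ.symm (g (γ (algebraMap L Ω z))) = algebraMap L Ω z
  rw [hw, g.commutes, ← hw, RingEquiv.symm_apply_apply]

/-- `cO` is mapped by `funMap`. -/
theorem extf_funMap_cO (γ : Ω ≃+* Ω) (hγ : γ ∈ Sym (f.map (algebraMap L Ω))) (z : Ω) :
    funMap ℓ (γ : Ω →+* Ω) hγ (cO ℓ f Ω z) = cO ℓ f Ω (γ z) := by
  change funMap ℓ (γ : Ω →+* Ω) hγ (polyF (C _)) = polyF (C _)
  rw [funMap_polyF, Polynomial.map_C]
  rfl

/-- Conjugation commutes with restriction. -/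
theorem extf_res (hΦ : IsModel F i x y Φ) (γ : Ω ≃+* Ω) (hγ : γ ∈ Sym (f.map (algebraMap L Ω)))
    (γ' : S ≃+* S) (hγ' : ∀ u, γ' (Φ u) = Φ (funMap ℓ (γ : Ω →+* Ω) hγ u))
    (G G' : S ≃ₐ[K] S) (hG : ∀ z, γ' (G z) = G' (γ' z)) (z : Ω) :
    γ (res hΦ G z) = res hΦ G' (γ z) := by
  have h1 := res_spec hΦ G (cO ℓ f Ω z)
  have h2 := res_spec hΦ G' (cO ℓ f Ω (γ z))
  have h3 := extf_funMap_cO (ℓ := ℓ) (f := f) ((res hΦ G : Ω ≃ₐ[L] Ω) : Ω ≃+* Ω) (gs f (res hΦ G)).2 z
  have h4 := extf_funMap_cO (ℓ := ℓ) (f := f) ((res hΦ G' : Ω ≃ₐ[L] Ω) : Ω ≃+* Ω)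
    (gs f (res hΦ G')).2 (γ z)
  have h5 := hγ' (cO ℓ f Ω z)
  rw [extf_funMap_cO] at h5
  have h6 : γ' (G (Φ (cO ℓ f Ω z))) = Φ (cO ℓ f Ω (γ (res hΦ G z))) := by
    rw [h1]
    refine (congrArg (fun w => γ' (Φ w)) h3).trans ?_
    refine (hγ' _).trans ?_
    rw [extf_funMap_cO]
    rfl
  have h7 : γ' (G (Φ (cO ℓ f Ω z))) = Φ (cO ℓ f Ω (res hΦ G' (γ z))) := by
    rw [hG, h5, h2]
    exact congrArg Φ h4
  exact ((Φ.comp (cO ℓ f Ω)).injective (h6.symm.trans h7))

theorem extf_funMap_mul (α β : Sym (f.map (algebraMap L Ω))) (u : FunField ℓ (f.map (algebraMap L Ω))) :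
    funMap ℓ ((α : Ω ≃+* Ω) : Ω →+* Ω) α.2 (funMap ℓ ((β : Ω ≃+* Ω) : Ω →+* Ω) β.2 u) =
      funMap ℓ (((α * β : Sym (f.map (algebraMap L Ω))) : Ω ≃+* Ω) : Ω →+* Ω) (α * β).2 u := by
  have h : (funMap ℓ ((α : Ω ≃+* Ω) : Ω →+* Ω) α.2).comp (funMap ℓ ((β : Ω ≃+* Ω) : Ω →+* Ω) β.2) =
      funMap ℓ (((α * β : Sym (f.map (algebraMap L Ω))) : Ω ≃+* Ω) : Ω →+* Ω) (α * β).2 := by
    refine funField_hom_ext (fun p => ?_) ?_
    · rw [RingHom.comp_apply, funMap_polyF, funMap_polyF, funMap_polyF, Polynomial.map_map]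
      rfl
    · rw [RingHom.comp_apply, funMap_yF, funMap_yF, funMap_yF]
  exact RingHom.congr_fun h u

theorem extf_symU_conj (γ : Sym (f.map (algebraMap L Ω))) (σ τ : Sym (f.map (algebraMap L Ω)))
    (h : γ * σ = τ * γ) (u : (FunField ℓ (f.map (algebraMap L Ω)))ˣ) :
    symU γ (symU σ u) = symU τ (symU γ u) := by
  have key : ∀ (α β : Sym (f.map (algebraMap L Ω))) (v : (FunField ℓ (f.map (algebraMap L Ω)))ˣ),
      symU α (symU β v) = symU (α * β) v := by
    intro α β v
    apply Units.ext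
    rw [coe_symU, coe_symU, coe_symU]
    exact extf_funMap_mul α β (v : FunField ℓ (f.map (algebraMap L Ω)))
  rw [key, key, h]

theorem extf_alg {R : Type} [Field R] {P I' A' X' Y Q I A U V C' D' E' : R} (hI' : I' ≠ 0) (hI : I ≠ 0)
    (hA' : A' ≠ 0) (hX : X' ≠ 0) (hY : Y ≠ 0) (e1 : P / I' * A' = X' * Y) (e2 : Q / I * A = U * V)
    (e3 : P * C' = Q * (D' * E')) :
    I' / I * (A * C' / A') = U * D' / X' * (V * E' / Y) := by
  rw [div_mul_eq_mul_div, div_eq_iff hI'] at e1
  rw [div_mul_eq_mul_div, div_eq_iff hI] at e2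
  rw [div_mul_div_comm, div_mul_div_comm, div_eq_div_iff (mul_ne_zero hI hA') (mul_ne_zero hX hY)]
  linear_combination (-(A * C')) * e1 + (A * A') * e3 + (D' * E' * A') * e2

/-- Invariant classes. PROOF. `γ'` maps `K` onto `K` (it fixes `x`, `y` and `t`, and maps `F` onto `F` by `hs`), so
`g ↦ γ' g γ'⁻¹` is an automorphism `κ` of `Aut(S/K)`, and `res (κ g) = γ (res g) γ⁻¹`. From `hfix` and `h` the inflation of
`B g' h' = γ (b' g h) / b' g' h'` (`g = γ⁻¹ g' γ`; a cocycle `ICoc`) is a coboundary: raise `hfix` to the power `m` and use `h`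
at `(g, h)` (apply `γ'`) and at `(g', h')`. Then `icob_of_infl`. -/
theorem icob_of_fixed (hℓ : ℓ.Prime) (hΦ : IsModel F i x y Φ) (b : (S ≃ₐ[K] S) → (S ≃ₐ[K] S) → Sˣ)
    (hb : IsCocycle b) (m : ℕ)
    (b' : (Ω ≃ₐ[L] Ω) → (Ω ≃ₐ[L] Ω) → (FunField ℓ (f.map (algebraMap L Ω)))ˣ) (hb' : ICoc b')
    (h : IsCoboundary fun g h => b g h ^ m / infl hΦ b' g h)
    (γ : Ω ≃+* Ω) (hγ : γ ∈ Sym (f.map (algebraMap L Ω)))
    (s : L ≃+* L) (hs : ∀ z : L, γ (algebraMap L Ω z) = algebraMap L Ω (s z)) (γ' : S ≃+* S)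
    (hγ' : ∀ u, γ' (Φ u) = Φ (funMap ℓ (γ : Ω →+* Ω) hγ u)) (hfix : Bra.IsFixedBy b γ') :
    ∃ m' : ℕ, m'.Coprime ℓ ∧
      ∃ a : (Ω ≃ₐ[L] Ω) → (FunField ℓ (f.map (algebraMap L Ω)))ˣ, IsCts a ∧
        ∀ g h g' h' : Ω ≃ₐ[L] Ω, (∀ z, γ (g z) = g' (γ z)) → (∀ z, γ (h z) = h' (γ z)) →
          symU ⟨γ, hγ⟩ (b' g h) ^ m' * a (g' * h') = b' g' h' ^ m' * (symU (gs f g') (a h') * a g') := by
  -- the conjugations
  choose κO hκO using extf_conjO (L := L) (Ω := Ω) γ s hs
  choose κ hκ using extf_conj (K := K) γ' (extf_mem hΦ γ hγ s hs γ' hγ')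
  have hκO' : ∀ g z, γ (κO g z) = g (γ z) := fun g z => by
    rw [hκO, RingEquiv.apply_symm_apply]
  have hκ' : ∀ g z, γ' (κ g z) = g (γ' z) := fun g z => by
    rw [hκ, RingEquiv.apply_symm_apply]
  have hκOmul : ∀ g h, κO (g * h) = κO g * κO h := by
    intro g h
    ext z
    change κO (g * h) z = κO g (κO h z)
    rw [hκO, hκO, hκO, RingEquiv.apply_symm_apply]
    rfl
  have hκmul : ∀ g h, κ (g * h) = κ g * κ h := by
    intro g h
    ext z
    change κ (g * h) z = κ g (κ h z)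
    rw [hκ, hκ, hκ, RingEquiv.apply_symm_apply]
    rfl
  have hres : ∀ G, res hΦ (κ G) = κO (res hΦ G) := by
    intro G
    ext z
    apply γ.injective
    rw [hκO', extf_res hΦ γ hγ γ' hγ' (κ G) G (hκ' G)]
  -- the cocycle `B`
  set σ : Sym (f.map (algebraMap L Ω)) := ⟨γ, hγ⟩ with hσ
  let B : (Ω ≃ₐ[L] Ω) → (Ω ≃ₐ[L] Ω) → (FunField ℓ (f.map (algebraMap L Ω)))ˣ :=
    fun g h => symU σ (b' (κO g) (κO h)) / b' g h
  have hconj : ∀ (g : Ω ≃ₐ[L] Ω) (u : (FunField ℓ (f.map (algebraMap L Ω)))ˣ),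
      symU σ (symU (gs f (κO g)) u) = symU (gs f g) (symU σ u) := by
    intro g u
    apply extf_symU_conj
    apply Subtype.ext
    ext z
    exact hκO' g z
  have hB : ICoc B := by
    constructor
    · intro g h j
      have h1 := congrArg (symU σ) (hb'.cocycle (κO g) (κO h) (κO j))
      rw [map_mul, map_mul, hconj, ← hκOmul, ← hκOmul] at h1
      have h2 := hb'.cocycle g h j
      change symU σ (b' (κO g) (κO h)) / b' g h * (symU σ (b' (κO (g * h)) (κO j)) / b' (g * h) j) =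
        symU (gs f g) (symU σ (b' (κO h) (κO j)) / b' h j) * (symU σ (b' (κO g) (κO (h * j))) / b' g (h * j))
      rw [_root_.map_div, div_mul_div_comm, div_mul_div_comm, h1, h2]
    · obtain ⟨T, hT⟩ := hb'.continuous
      refine ⟨T ∪ T.image γ, fun g g' h h' hg hh => ?_⟩
      have e1 : b' g h = b' g' h' := hT g g' h h'
        (fun x hx => hg x (Finset.mem_union_left _ hx)) (fun x hx => hh x (Finset.mem_union_left _ hx))
      have e2 : b' (κO g) (κO h) = b' (κO g') (κO h') := by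
        apply hT
        · intro x hx
          rw [hκO, hκO, hg _ (Finset.mem_union_right _ (Finset.mem_image_of_mem _ hx))]
        · intro x hx
          rw [hκO, hκO, hh _ (Finset.mem_union_right _ (Finset.mem_image_of_mem _ hx))]
      change symU σ (b' (κO g) (κO h)) / b' g h = symU σ (b' (κO g') (κO h')) / b' g' h'
      rw [e1, e2]
  have hinfl : IsCoboundary (infl hΦ B) := by
    obtain ⟨a1, ha1, h1⟩ := h
    obtain ⟨a0, ha0, h0⟩ := hfix
    have hinj : ∀ z : Sˣ, ((Units.map (γ' : S →* S) z : Sˣ) : S) = γ' z := fun _ => rfl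
    refine ⟨fun G => a1 G * a0 G ^ m / Units.map (γ' : S →* S) (a1 (κ G)), ?_, ?_⟩
    · have ha2 : IsCts fun G => a1 (κ G) := by
        obtain ⟨T, hT⟩ := ha1
        refine ⟨T.image γ', fun g g' hg => hT _ _ fun x hx => ?_⟩
        rw [hκ, hκ, hg _ (Finset.mem_image_of_mem _ hx)]
      exact (ha1.comp₂ ha0 (fun p q => p * q ^ m)).comp₂ ha2 (fun p q => p / Units.map (γ' : S →* S) q)
    · intro G H
      have e1 := h1 (κ G) (κ H)
      have e2 := h1 G H
      have e3 := h0 (κ G) (κ H) G H (hκ' G) (hκ' H)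
      have e4 : Φ (B (res hΦ G) (res hΦ H) : FunField ℓ (f.map (algebraMap L Ω))) =
          γ' (infl hΦ b' (κ G) (κ H)) / (infl hΦ b' G H : Sˣ) := by
        change Φ ((symU σ (b' (κO (res hΦ G)) (κO (res hΦ H))) / b' (res hΦ G) (res hΦ H) :
          (FunField ℓ (f.map (algebraMap L Ω)))ˣ) : FunField ℓ (f.map (algebraMap L Ω))) = _
        rw [Units.val_div_eq_div_val, map_div₀, coe_symU]
        congr 1
        change _ = γ' (Φ (b' (res hΦ (κ G)) (res hΦ (κ H)) : FunField ℓ (f.map (algebraMap L Ω))))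
        rw [hγ', hres, hres]
      have e1' := congrArg γ' e1
      simp only [map_mul, Units.val_div_eq_div_val, Units.val_pow_eq_pow_val, map_div₀, map_pow] at e1' e2
      rw [hκ', ← hκmul] at e1'
      change Φ (B (res hΦ G) (res hΦ H) : FunField ℓ (f.map (algebraMap L Ω))) * _ = _
      rw [e4]
      simp only [Units.val_div_eq_div_val, Units.val_mul, Units.val_pow_eq_pow_val, map_div₀, map_mul,
        map_pow, hinj]
      have n1 : γ' (infl hΦ b' (κ G) (κ H)) ≠ 0 := (_root_.map_ne_zero γ').mpr (Units.ne_zero _)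
      have n2 : ((infl hΦ b' G H : Sˣ) : S) ≠ 0 := Units.ne_zero _
      have n3 : γ' (a1 (κ (G * H))) ≠ 0 := (_root_.map_ne_zero γ').mpr (Units.ne_zero _)
      have n4 : γ' (a1 (κ G)) ≠ 0 := (_root_.map_ne_zero γ').mpr (Units.ne_zero _)
      have n5 : G (γ' (a1 (κ H))) ≠ 0 := (_root_.map_ne_zero G).mpr ((_root_.map_ne_zero γ').mpr (Units.ne_zero _))
      have e3' := congrArg (fun w => w ^ m) e3
      simp only [mul_pow] at e3'
      exact extf_alg n1 n2 n3 n5 n4 e1' e2 e3'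
  obtain ⟨m', hm', a, ha, hab⟩ := icob_of_infl hℓ hΦ B hB hinfl
  refine ⟨m', hm', a, ha, fun g h g' h' hg hh => ?_⟩
  have eg : κO g' = g := by
    ext z
    apply γ.injective
    rw [hκO', hg]
  have eh : κO h' = h := by
    ext z
    apply γ.injective
    rw [hκO', hh]
  have h1 := hab g' h'
  change (symU σ (b' (κO g') (κO h')) / b' g' h') ^ m' * a (g' * h') = _ at h1
  rw [eg, eh, div_pow, div_mul_eq_mul_div, div_eq_iff_eq_mul] at h1
  rw [h1, mul_comm]

end

end Pool.Agent.Lib.MP_89bcae_ag.Brt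

end

section

namespace Pool.Agent.Lib.MP_89bcae_ag.Wt.Lns.LocCtx
end Pool.Agent.Lib.MP_89bcae_ag.Wt.Lns.LocCtx


/-!
# Norms from cyclic extensions of a local field
-/

open Polynomial IsDedekindDomain IsLocalRing

open scoped Classical

namespace Pool.Agent.Lib.MP_89bcae_ag.Brt

open Pool.Agent.Lib.MP_89bcae_ag.Sup (LocCtx plc exists_locCtx)

open Pool.Agent.Lib.MP_89bcae_ag.Wt Pool.Agent.Lib.MP_89bcae_ag.Wt.Lns Pool.Agent.Lib.MP_89bcae_ag.Bra

private theorem V1_exp {L : Type} [Field L] {ℓ : ℕ} (hℓ : ℓ.Prime) (h : (ℓ : L) ≠ 0) : (ringExpChar L).Coprime ℓ := by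
  have h1 := ringExpChar.expChar L
  generalize ringExpChar L = q at h1 ⊢
  rcases h1 with _ | hq
  · exact Nat.coprime_one_left ℓ
  · rw [Nat.coprime_primes hq hℓ]
    rintro rfl
    exact h (CharP.cast_eq_zero L _)

/-- conjugate elements have the same absolute value -/
private theorem V1_conj {K M E : Type} [Field K] [Field M] [Field E] [Algebra K M] [Algebra K E] [IsAlgClosure K M]
    [FiniteDimensional K E] {v : AbsoluteValue M ℝ} (hv : ∀ (σ : M ≃ₐ[K] M) (x : M), v (σ x) = v x)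
    {x y : M} (z : E) (hx : aeval x (minpoly K z) = 0) (hy : aeval y (minpoly K z) = 0) : v x = v y := by
  have hN : Normal K M := IsAlgClosure.normal K M
  have hz : IsIntegral K z := Algebra.IsIntegral.isIntegral z
  have hxa : IsAlgebraic K x := ⟨minpoly K z, minpoly.ne_zero hz, hx⟩
  have e : minpoly K z = minpoly K x := minpoly.eq_of_irreducible_of_monic (minpoly.irreducible hz) hx (minpoly.monic hz)
  rw [e] at hy
  obtain ⟨σ, hσ⟩ := minpoly.exists_algEquiv_of_root' hxa hy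
  rw [← hσ, hv]

/-- a power of the value is the value of an element of `K` -/
private theorem V1_val {K M E : Type} [Field K] [Field M] [Field E] [Algebra K M] [Algebra K E] [IsAlgClosure K M]
    [FiniteDimensional K E] {v : AbsoluteValue M ℝ} (hv : ∀ (σ : M ≃ₐ[K] M) (x : M), v (σ x) = v x) (j : E →ₐ[K] M)
    (z : E) (hz0 : z ≠ 0) : ∃ a : K, a ≠ 0 ∧ v (algebraMap K M a) = v (j z) ^ (minpoly K z).natDegree := by
  have hA : IsAlgClosed M := IsAlgClosure.isAlgClosed K
  have hz : IsIntegral K z := Algebra.IsIntegral.isIntegral z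
  refine ⟨(minpoly K z).coeff 0, minpoly.coeff_zero_ne_zero hz hz0, ?_⟩
  have hj : aeval (j z) (minpoly K z) = 0 := by
    rw [Polynomial.aeval_algHom_apply, minpoly.aeval, map_zero]
  have hm : ((minpoly K z).map (algebraMap K M)).Monic := (minpoly.monic hz).map _
  have hs : ((minpoly K z).map (algebraMap K M)).Splits := IsAlgClosed.splits _
  have h1 := hs.eval_eq_prod_roots (0 : M)
  rw [hm.leadingCoeff, one_mul] at h1
  have h2 : algebraMap K M ((minpoly K z).coeff 0) = ((minpoly K z).map (algebraMap K M)).eval 0 := by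
    rw [← Polynomial.coeff_zero_eq_eval_zero, Polynomial.coeff_map]
  rw [h2, h1, map_multiset_prod, Multiset.map_map]
  have h3 : ∀ x ∈ ((minpoly K z).map (algebraMap K M)).roots, (v ∘ fun a => (0 : M) - a) x = v (j z) := by
    intro x hx
    rw [Polynomial.mem_roots hm.ne_zero, Polynomial.IsRoot.def, Polynomial.eval_map_algebraMap] at hx
    show v (0 - x) = v (j z)
    rw [zero_sub, AbsoluteValue.map_neg]
    exact V1_conj hv z hx hj
  rw [Multiset.map_congr rfl h3, Multiset.map_const', Multiset.prod_replicate]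
  rw [← hs.natDegree_eq_card_roots, Polynomial.natDegree_map]

/-- elements of absolute value `1` of a field between `K` and `M` are `ℓ`-th powers -/
private theorem V1_root {F K M L : Type} [Field F] [Field K] [Field M] [Field L] [Algebra F[X] K] [Algebra K M]
    [Algebra F M] [IsAlgClosure K M] [Algebra K L] [Algebra L M] [IsScalarTower K L M] {s : F} {v : AbsoluteValue M ℝ}
    {ℓ : ℕ} (hℓ : ℓ.Prime) (hℓF : (ℓ : F) ≠ 0) (hL : LocF F K s v) (u : L) (hu : v (algebraMap L M u) = 1) :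
    ∃ ρ : L, ρ ^ ℓ = u := by
  have hF : IsAlgClosed F := hL.ctx.alg
  have hA : IsAlgClosed M := IsAlgClosure.isAlgClosed K
  have hKM : Algebra.IsAlgebraic K M := IsAlgClosure.isAlgebraic
  have hLM : Algebra.IsAlgebraic L M := Algebra.IsAlgebraic.tower_top (K := K) L
  have hCl : IsAlgClosure L M := ⟨hA, hLM⟩
  have hne : NeZero ((ℓ : ℕ) : F) := ⟨hℓF⟩
  have hne' : NeZero ℓ := ⟨hℓ.ne_zero⟩
  obtain ⟨ζ, hζ⟩ : ∃ ζ : F, IsPrimitiveRoot ζ ℓ := HasEnoughRootsOfUnity.exists_primitiveRoot F ℓ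
  have hζM : IsPrimitiveRoot (algebraMap F M ζ) ℓ := hζ.map_of_injective (algebraMap F M).injective
  have hconst : ∀ (g : M ≃ₐ[L] M) (c : F), g (algebraMap F M c) = algebraMap F M c := by
    intro g c
    rw [hL.compat, IsScalarTower.algebraMap_apply K L M, g.commutes]
  have hinv : ∀ (g : M ≃ₐ[L] M) (x : M), v (g x) = v x := fun g x => hL.inv (g.restrictScalars K) x
  obtain ⟨r, hr⟩ := IsAlgClosed.exists_pow_nat_eq (algebraMap L M u) hℓ.pos
  have hvr : v r = 1 := by
    have h1 : v r ^ ℓ = 1 := by rw [← map_pow, hr, hu]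
    exact (pow_eq_one_iff_of_nonneg (v.nonneg r) hℓ.ne_zero).1 h1
  have hr0 : r ≠ 0 := by
    rintro rfl
    rw [map_zero] at hvr
    exact zero_ne_one hvr
  obtain ⟨c, hc⟩ := hL.ctx.residue r hvr.le
  have hfix : ∀ g : M ≃ₐ[L] M, g r = r := by
    intro g
    have h1 : (g r / r) ^ ℓ = 1 := by
      rw [div_pow, ← map_pow, hr, g.commutes, div_self]
      rw [← hr]
      exact pow_ne_zero _ hr0
    obtain ⟨i, -, hi⟩ := hζM.eq_pow_of_pow_eq_one h1
    have h2 : g r = algebraMap F M (ζ ^ i) * r := by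
      rw [map_pow, hi, div_mul_cancel₀ _ hr0]
    by_cases h3 : ζ ^ i - 1 = 0
    · rw [h2, sub_eq_zero.1 h3, map_one, one_mul]
    · exfalso
      have h4 : v (algebraMap F M (ζ ^ i - 1) * r) = 1 := by rw [map_mul, hL.ctx.const _ h3, hvr, one_mul]
      have h5 : algebraMap F M (ζ ^ i - 1) * r = g (r - algebraMap F M c) + -(r - algebraMap F M c) := by
        rw [map_sub (algebraMap F M), map_one, map_sub g, h2, hconst]
        ring
      have h6 := hL.ctx.nonarch (g (r - algebraMap F M c)) (-(r - algebraMap F M c))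
      rw [← h5, h4, hinv, AbsoluteValue.map_neg, max_self] at h6
      exact absurd hc (not_lt.2 h6)
  obtain ⟨m, y, hy⟩ := exists_pow_mem (K := L) (S := M) r hfix
  have hℓL : (ℓ : L) ≠ 0 := by
    intro h0
    apply hℓF
    have h1 : ((algebraMap K L).comp ((algebraMap F[X] K).comp C)) (ℓ : F) = 0 := by
      rw [map_natCast]
      exact h0
    exact (map_eq_zero_iff _ (RingHom.injective _)).1 h1
  have hcop : (ringExpChar L ^ m).Coprime ℓ := (V1_exp hℓ hℓL).pow_left m
  obtain ⟨a, b, hab⟩ := Nat.isCoprime_iff_coprime.2 hcop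
  refine ⟨y ^ a * u ^ b, ?_⟩
  have h1 : algebraMap L M (y ^ a * u ^ b) = r := by
    rw [map_mul, map_zpow₀, map_zpow₀, ← hy, ← hr, ← zpow_natCast, ← zpow_natCast, ← zpow_mul, ← zpow_mul, ← zpow_add₀ hr0]
    have h2 : ((ringExpChar L ^ m : ℕ) : ℤ) * a + (ℓ : ℤ) * b = 1 := by
      rw [← hab]; ring
    rw [h2, zpow_one]
  apply (algebraMap L M).injective
  rw [map_pow, h1, hr]

/-- the values of the elements of a finite extension are powers of one number -/
private theorem V1_exps {F K M E : Type} [Field F] [Field K] [Field M] [Field E] [Algebra F[X] K] [Algebra K M]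
    [Algebra F M] [IsAlgClosure K M] [Algebra K E] [FiniteDimensional K E] {s : F} {v : AbsoluteValue M ℝ}
    (hL : LocF F K s v) (j : E →ₐ[K] M) : ∃ c : ℝ, 0 < c ∧ ∀ z : E, z ≠ 0 → ∃ i : ℤ, v (j z) = c ^ i := by
  obtain ⟨π, hπ⟩ : ∃ π : ℝ, π = v (algebraMap K M (algebraMap F[X] K X) - algebraMap F M s) := ⟨_, rfl⟩
  have hπ0 : 0 < π := by
    rw [hπ]
    exact v.pos (sub_ne_zero.2 hL.ctx.ne)
  obtain ⟨N, hN⟩ : ∃ N : ℕ, N = (Module.finrank K E).factorial := ⟨_, rfl⟩
  have hN0 : N ≠ 0 := by rw [hN]; exact Nat.factorial_ne_zero _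
  have hc : (π ^ ((N : ℝ)⁻¹)) ^ N = π := Real.rpow_inv_natCast_pow hπ0.le hN0
  have hc0 : 0 < π ^ ((N : ℝ)⁻¹) := Real.rpow_pos_of_pos hπ0 _
  generalize π ^ ((N : ℝ)⁻¹) = c at hc hc0
  refine ⟨c, hc0, ?_⟩
  intro z hz0
  obtain ⟨a, ha0, ha⟩ := V1_val hL.inv j z hz0
  obtain ⟨i, hi⟩ := hL.disc a ha0
  rw [← hπ] at hi
  have hz : IsIntegral K z := Algebra.IsIntegral.isIntegral z
  obtain ⟨k, hk⟩ : (minpoly K z).natDegree ∣ N := by
    rw [hN]
    exact Nat.dvd_factorial (minpoly.natDegree_pos hz) (minpoly.natDegree_le z)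
  refine ⟨i * k, ?_⟩
  have h1 : v (j z) ^ N = (c ^ (i * k)) ^ N := by
    rw [hk, pow_mul, ← ha, hi, ← hk, ← zpow_natCast (c ^ (i * (k : ℤ))), ← zpow_mul, mul_comm (i * (k : ℤ)), zpow_mul, zpow_natCast, hc,
      zpow_mul, zpow_natCast]
  exact (pow_left_inj₀ (v.nonneg _) (zpow_nonneg hc0.le _) hN0).1 h1

theorem exists_norm_loc {F K M : Type} [Field F] [Field K] [Field M] [Algebra F[X] K] [Algebra K M]
    [Algebra F M] [IsAlgClosure K M] {s : F} {v : AbsoluteValue M ℝ} {ℓ : ℕ} (hℓ : ℓ.Prime)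
    (hℓF : (ℓ : F) ≠ 0) (hL : LocF F K s v) {E G : Type} [Field E] [Algebra K E]
    [FiniteDimensional K E] [Group G] [Fintype G] [MulSemiringAction G E] [FaithfulSMul G E]
    [SMulCommClass G K E] (hG : Fintype.card G = ℓ) (u : E) (hu : ∀ g : G, g • u = u) :
    ∃ z : E, ∏ g : G, g • z = u := by
  have hF : IsAlgClosed F := hL.ctx.alg
  have hA : IsAlgClosed M := IsAlgClosure.isAlgClosed K
  have hne : NeZero ((ℓ : ℕ) : F) := ⟨hℓF⟩
  have hne' : NeZero ℓ := ⟨hℓ.ne_zero⟩
  have hfact : Fact ℓ.Prime := ⟨hℓ⟩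
  by_cases hu0 : u = 0
  · refine ⟨0, ?_⟩
    have : Nonempty G := ⟨1⟩
    rw [hu0]
    exact Finset.prod_eq_zero (Finset.mem_univ (1 : G)) (smul_zero _)
  have j : E →ₐ[K] M := IsAlgClosed.lift
  let _ : Algebra E M := j.toRingHom.toAlgebra
  have hT : IsScalarTower K E M := IsScalarTower.of_algebraMap_eq' j.comp_algebraMap.symm
  -- values
  have hV : ∀ (g : G) (z : E), v (j (g • z)) = v (j z) := by
    intro g z
    refine V1_conj hL.inv z ?_ ?_
    · have h1 : j (g • z) = (j.comp (MulSemiringAction.toAlgHom K E g)) z := rfl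
      rw [h1, Polynomial.aeval_algHom_apply, minpoly.aeval, map_zero]
    · rw [Polynomial.aeval_algHom_apply, minpoly.aeval, map_zero]
  obtain ⟨c, hc0, hc⟩ := V1_exps hL j
  -- constants
  obtain ⟨f0, hf0⟩ : ∃ f0 : F →+* E, ∀ (g : G) (x : F), g • f0 x = f0 x :=
    ⟨(algebraMap K E).comp ((algebraMap F[X] K).comp C), fun g x => smul_algebraMap g _⟩
  -- Kummer theory
  have hcG : Nat.card G = ℓ := by rw [Nat.card_eq_fintype_card, hG]
  have hcR : Nat.card (rootsOfUnity ℓ F) = ℓ := HasEnoughRootsOfUnity.natCard_rootsOfUnity F ℓ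
  let χ : G ≃* rootsOfUnity ℓ F := mulEquivOfPrimeCardEq hcG hcR
  have hχ : ∀ g : G, (((χ g : Fˣ) : F)) ^ ℓ = 1 := by
    intro g
    have h1 := (χ g).2
    rw [mem_rootsOfUnity] at h1
    rw [← Units.val_pow_eq_pow_val, h1, Units.val_one]
  obtain ⟨w, hw⟩ := Tsn.h90_fin (fun g : G => Units.map (f0 : F →* E) (χ g : Fˣ)) (by
    intro g h
    show f0 (((χ (g * h) : Fˣ)) : F) = g • f0 ((χ h : Fˣ) : F) * f0 ((χ g : Fˣ) : F)
    rw [hf0, ← map_mul, map_mul χ]
    congr 1
    rw [mul_comm]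
    rfl)
  have hw' : ∀ g : G, g • (w : E) = f0 ((χ g : Fˣ) : F) * w := fun g => (hw g).symm
  -- the fixed field
  let E1 : IntermediateField K E := FixedPoints.intermediateField G
  have hE1 : ∀ x : E, x ∈ E1 ↔ ∀ g : G, g • x = x := fun x => Iff.rfl
  have hroot : ∀ x : E, x ∈ E1 → v (j x) = 1 → ∃ ρ ∈ E1, ρ ^ ℓ = x := by
    intro x hx h1
    obtain ⟨ρ, hρ⟩ := V1_root (L := E1) hℓ hℓF hL (⟨x, hx⟩ : E1) h1
    exact ⟨ρ, ρ.2, congrArg Subtype.val hρ⟩
  have hwl : (w : E) ^ ℓ ∈ E1 := by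
    rw [hE1]
    intro g
    rw [smul_pow', hw', mul_pow, ← map_pow, hχ, map_one, one_mul]
  have hw0 : (w : E) ≠ 0 := w.ne_zero
  -- the exponents
  let H : AddSubgroup ℤ :=
    { carrier := {i | ∃ z ∈ E1, z ≠ 0 ∧ v (j z) = c ^ i}
      add_mem' := by
        rintro a b ⟨x, hx, hx0, hxv⟩ ⟨y, hy, hy0, hyv⟩
        exact ⟨x * y, E1.mul_mem hx hy, mul_ne_zero hx0 hy0, by rw [map_mul, map_mul, hxv, hyv, zpow_add₀ hc0.ne']⟩
      zero_mem' := ⟨1, E1.one_mem, one_ne_zero, by rw [map_one, map_one, zpow_zero]⟩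
      neg_mem' := by
        rintro a ⟨x, hx, hx0, hxv⟩
        exact ⟨x⁻¹, E1.inv_mem hx, inv_ne_zero hx0, by rw [map_inv₀, map_inv₀, hxv, zpow_neg]⟩ }
  have hHmem : ∀ i : ℤ, i ∈ H ↔ ∃ z ∈ E1, z ≠ 0 ∧ v (j z) = c ^ i := fun i => Iff.rfl
  obtain ⟨b, hb⟩ := Int.subgroup_cyclic H
  have hbm : ∀ i : ℤ, i ∈ H ↔ ∃ m : ℤ, i = m * b := by
    intro i
    rw [hb, AddSubgroup.mem_closure_singleton]
    constructor
    · rintro ⟨m, hm⟩
      exact ⟨m, by rw [← hm, smul_eq_mul]⟩
    · rintro ⟨m, hm⟩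
      exact ⟨m, by rw [hm, smul_eq_mul]⟩
  obtain ⟨iw, hiw⟩ := hc _ (pow_ne_zero ℓ hw0)
  obtain ⟨mw, hmw⟩ := (hbm iw).1 ((hHmem iw).2 ⟨_, hwl, pow_ne_zero ℓ hw0, hiw⟩)
  have hnd : ¬ (ℓ : ℤ) ∣ mw := by
    rintro ⟨k, hk⟩
    obtain ⟨z, hz, hz0, hzv⟩ := (hHmem (k * b)).1 ((hbm _).2 ⟨k, rfl⟩)
    have h1 : v (j ((w : E) ^ ℓ / z ^ ℓ)) = 1 := by
      rw [map_div₀, map_div₀, hiw, map_pow, map_pow, hzv, hmw, hk, ← zpow_natCast (c ^ (k * b)), ← zpow_mul]
      have h2 : (ℓ : ℤ) * k * b = k * b * ℓ := by ring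
      rw [h2, div_self (zpow_ne_zero _ hc0.ne')]
    obtain ⟨ρ, hρ, hρℓ⟩ := hroot _ (E1.div_mem hwl (pow_mem hz ℓ)) h1
    have hρ0 : ρ ≠ 0 := by
      rintro rfl
      rw [zero_pow hℓ.ne_zero] at hρℓ
      exact (div_ne_zero (pow_ne_zero ℓ hw0) (pow_ne_zero ℓ hz0)) hρℓ.symm
    have h3 : ((w : E) / (z * ρ)) ^ ℓ = 1 := by
      rw [div_pow, mul_pow, hρℓ, mul_div_cancel₀ _ (pow_ne_zero ℓ hz0), div_self (pow_ne_zero ℓ hw0)]
    obtain ⟨ζ, hζ⟩ : ∃ ζ : F, IsPrimitiveRoot ζ ℓ := HasEnoughRootsOfUnity.exists_primitiveRoot F ℓ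
    have hζE : IsPrimitiveRoot (f0 ζ) ℓ := hζ.map_of_injective f0.injective
    obtain ⟨i, -, hi⟩ := hζE.eq_pow_of_pow_eq_one h3
    have h4 : (w : E) = f0 (ζ ^ i) * (z * ρ) := by
      rw [map_pow, hi, div_mul_cancel₀ _ (mul_ne_zero hz0 hρ0)]
    have h5 : ∀ g : G, g • (w : E) = w := by
      intro g
      conv_lhs => rw [h4]
      rw [smul_mul', smul_mul', hf0, (hE1 z).1 hz g, (hE1 ρ).1 hρ g, ← h4]
    have h6 : ∀ g : G, χ g = 1 := by
      intro g
      have h7 := hw' g
      rw [h5 g] at h7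
      have h8 : f0 ((χ g : Fˣ) : F) = 1 := by
        have h9 : f0 ((χ g : Fˣ) : F) * (w : E) = 1 * w := by rw [← h7, one_mul]
        exact mul_right_cancel₀ hw0 h9
      have h10 : ((χ g : Fˣ) : F) = 1 := by
        apply f0.injective
        rw [h8, map_one]
      exact Subtype.ext (Units.ext h10)
    have h7 : Nat.card G = 1 := by
      rw [Nat.card_eq_one_iff_unique]
      refine ⟨⟨fun a b => ?_⟩, ⟨1⟩⟩
      exact χ.injective ((h6 a).trans (h6 b).symm)
    rw [hcG] at h7
    exact hℓ.one_lt.ne' h7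
  -- decomposition of u
  obtain ⟨iu, hiu⟩ := hc _ hu0
  obtain ⟨mu, hmu⟩ := (hbm iu).1 ((hHmem iu).2 ⟨u, (hE1 u).2 hu, hu0, hiu⟩)
  have hcop : IsCoprime mw (ℓ : ℤ) := by
    have h1 : Prime (ℓ : ℤ) := Nat.prime_iff_prime_int.1 hℓ
    exact ((h1.coprime_iff_not_dvd).2 hnd).symm
  obtain ⟨α, β, hαβ⟩ := hcop
  obtain ⟨z1, hz1, hz10, hz1v⟩ := (hHmem (mu * β * b)).1 ((hbm _).2 ⟨_, rfl⟩)
  have h1 : v (j (u / (((w : E) ^ ℓ) ^ (mu * α) * z1 ^ ℓ))) = 1 := by
    rw [map_div₀, map_div₀, map_mul, map_mul, map_zpow₀, map_zpow₀, hiu, hiw, map_pow, map_pow, hz1v, hmu, hmw,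
      ← zpow_natCast (c ^ (mu * β * b)), ← zpow_mul, ← zpow_mul, ← zpow_add₀ hc0.ne']
    have h2 : mw * b * (mu * α) + mu * β * b * (ℓ : ℤ) = mu * b := by
      have h3 : mw * b * (mu * α) + mu * β * b * (ℓ : ℤ) = mu * b * (α * mw + β * (ℓ : ℤ)) := by ring
      rw [h3, hαβ, mul_one]
    rw [h2, div_self (zpow_ne_zero _ hc0.ne')]
  have hden : ((w : E) ^ ℓ) ^ (mu * α) * z1 ^ ℓ ∈ E1 := E1.mul_mem (zpow_mem hwl _) (pow_mem hz1 ℓ)
  have hden0 : ((w : E) ^ ℓ) ^ (mu * α) * z1 ^ ℓ ≠ 0 := mul_ne_zero (zpow_ne_zero _ (pow_ne_zero _ hw0)) (pow_ne_zero _ hz10)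
  obtain ⟨ρ, hρ, hρℓ⟩ := hroot _ (E1.div_mem ((hE1 u).2 hu) hden) h1
  -- norms
  have hfixN : ∀ x ∈ E1, ∏ g : G, g • x = x ^ ℓ := by
    intro x hx
    rw [Finset.prod_congr rfl (fun g _ => (hE1 x).1 hx g), Finset.prod_const, Finset.card_univ, hG]
  have hmulN : ∀ x y : E, ∏ g : G, g • (x * y) = (∏ g : G, g • x) * ∏ g : G, g • y := by
    intro x y
    rw [← Finset.prod_mul_distrib]
    exact Finset.prod_congr rfl (fun g _ => smul_mul' g x y)
  have hzpN : ∀ (x : E) (i : ℤ), ∏ g : G, g • (x ^ i) = (∏ g : G, g • x) ^ i := by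
    intro x i
    rw [← Finset.prod_zpow]
    refine Finset.prod_congr rfl (fun g _ => ?_)
    exact map_zpow₀ (MulSemiringAction.toRingHom G E g) x i
  obtain ⟨A, hAdef⟩ : ∃ A : F, A = ∏ g : G, ((χ g : Fˣ) : F) := ⟨_, rfl⟩
  have hA0 : A ≠ 0 := by
    rw [hAdef]
    exact Finset.prod_ne_zero_iff.2 (fun g _ => Units.ne_zero _)
  obtain ⟨c', hc'⟩ := IsAlgClosed.exists_pow_nat_eq A⁻¹ hℓ.pos
  have hNw : ∏ g : G, g • (f0 c' * (w : E)) = (w : E) ^ ℓ := by
    rw [hmulN, hfixN (f0 c') ((hE1 _).2 fun g => hf0 g c'), Finset.prod_congr rfl (fun g _ => hw' g), Finset.prod_mul_distrib,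
      Finset.prod_const, Finset.card_univ, hG, ← map_prod, ← hAdef, ← map_pow, hc', ← mul_assoc, ← map_mul, inv_mul_cancel₀ hA0,
      map_one, one_mul]
  refine ⟨(f0 c' * (w : E)) ^ (mu * α) * z1 * ρ, ?_⟩
  rw [hmulN, hmulN, hzpN, hNw, hfixN z1 hz1, hfixN ρ hρ, hρℓ, mul_div_cancel₀ _ hden0]

end Pool.Agent.Lib.MP_89bcae_ag.Brt

end

section

namespace Pool.Agent.Lib.MP_89bcae_ag.Wt.Lns.LocCtx
end Pool.Agent.Lib.MP_89bcae_ag.Wt.Lns.LocCtx


/-!
# Algebraic independence
-/

open Polynomial IsDedekindDomain IsLocalRing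

open scoped Classical

namespace Pool.Agent.Lib.MP_89bcae_ag.Brt

open Pool.Agent.Lib.MP_89bcae_ag.Sup (LocCtx plc exists_locCtx)

open Pool.Agent.Lib.MP_89bcae_ag.Wt Pool.Agent.Lib.MP_89bcae_ag.Wt.Lns Pool.Agent.Lib.MP_89bcae_ag.Bra

-- BEGIN

/-- `F[X][X]` in the polynomials in two variables. -/
private noncomputable def B7a_twoVar (F : Type) [Field F] : F[X][X] →+* MvPolynomial (Fin 2) F :=
  eval₂RingHom ((aeval (MvPolynomial.X 0 : MvPolynomial (Fin 2) F)).toRingHom)
    (MvPolynomial.X 1 : MvPolynomial (Fin 2) F)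

private lemma B7a_twoVar_injective (F : Type) [Field F] : Function.Injective (B7a_twoVar F) := by
  let κ : MvPolynomial (Fin 2) F →+* F[X][X] :=
    MvPolynomial.eval₂Hom (C.comp C) ![C X, X]
  have h : κ.comp (B7a_twoVar F) = RingHom.id _ := by
    refine Polynomial.ringHom_ext' (Polynomial.ringHom_ext' ?_ ?_) ?_
    · ext c
      simp [κ, B7a_twoVar]
    · simp [κ, B7a_twoVar]
    · simp [κ, B7a_twoVar]
  intro p q hpq
  have h1 := congrArg κ hpq
  have h2 := RingHom.congr_fun h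
  exact (h2 p).symm.trans (h1.trans (h2 q))

/-- Algebraically independent pairs. -/
private lemma B7a_eval₂_ne_zero {F K : Type} [Field F] [Field K] [Algebra F K] {t x : K}
    (h : AlgebraicIndependent F ![t, x]) {q : F[X][X]}
    (hq : eval₂ ((aeval t : F[X] →ₐ[F] K) : F[X] →+* K) x q = 0) : q = 0 := by
  have h1 : ((MvPolynomial.aeval ![t, x] : MvPolynomial (Fin 2) F →ₐ[F] K) :
      MvPolynomial (Fin 2) F →+* K).comp (B7a_twoVar F) =
      eval₂RingHom ((aeval t : F[X] →ₐ[F] K) : F[X] →+* K) x := by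
    refine Polynomial.ringHom_ext' (Polynomial.ringHom_ext' ?_ ?_) ?_
    · ext c
      simp [B7a_twoVar]
    · simp [B7a_twoVar]
    · simp [B7a_twoVar]
  have h2 : MvPolynomial.aeval ![t, x] (B7a_twoVar F q) = 0 := (RingHom.congr_fun h1 q).trans hq
  have h3 : B7a_twoVar F q = 0 := h (h2.trans (map_zero _).symm)
  exact B7a_twoVar_injective F (h3.trans (map_zero _).symm)

/-- The polynomials in two variables `τ`, `x` in `F[X][X]`. -/
private noncomputable def B7a_kap (F : Type) [Field F] : MvPolynomial (Fin 2) F →+* F[X][X] :=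
  MvPolynomial.eval₂Hom (C.comp C) ![X, C X]

private lemma B7a_kap_injective (F : Type) [Field F] : Function.Injective (B7a_kap F) := by
  let μ : F[X][X] →+* MvPolynomial (Fin 2) F :=
    eval₂RingHom ((aeval (MvPolynomial.X 1 : MvPolynomial (Fin 2) F)).toRingHom)
      (MvPolynomial.X 0 : MvPolynomial (Fin 2) F)
  have h : μ.comp (B7a_kap F) = RingHom.id _ := by
    refine MvPolynomial.ringHom_ext ?_ ?_
    · intro c
      simp [μ, B7a_kap]
    · intro i
      fin_cases i <;> simp [μ, B7a_kap]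
  intro p q hpq
  have h1 := congrArg μ hpq
  have h2 := RingHom.congr_fun h
  exact (h2 p).symm.trans (h1.trans (h2 q))

private lemma B7a_kap_eval {F K : Type} [Field F] [Field K] [Algebra F K] (t x : K) (q : MvPolynomial (Fin 2) F) :
    eval₂ ((aeval x : F[X] →ₐ[F] K) : F[X] →+* K) t (B7a_kap F q) = MvPolynomial.aeval ![t, x] q := by
  have h1 : (eval₂RingHom ((aeval x : F[X] →ₐ[F] K) : F[X] →+* K) t).comp (B7a_kap F) =
      ((MvPolynomial.aeval ![t, x] : MvPolynomial (Fin 2) F →ₐ[F] K) : MvPolynomial (Fin 2) F →+* K) := by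
    refine MvPolynomial.ringHom_ext ?_ ?_
    · intro c
      simp [B7a_kap]
    · intro i
      fin_cases i <;> simp [B7a_kap]
  exact RingHom.congr_fun h1 q

/-- PROOF. `MvPolynomial (Fin 2) F` is `F[X][X]` (`twoVar` in `Bra/Mod.lean`): let `P` in `F[X][X]` (coefficients in `F[x]`, variable `τ`) with
`P(τ) = 0`. Then `P.comp (C g - X ^ ℓ)`, a polynomial in `y` with coefficients in `F[x]`, vanishes at `(x, y)`, so is
`0`; so `P = 0` (`comp_eq_zero_iff`; `C g - X ^ ℓ` has degree `ℓ > 0` in `y`). -/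
theorem algInd_tau {F K : Type} [Field F] [Field K] [Algebra F K] {ℓ : ℕ} (hℓ : 0 < ℓ) (g : F[X])
    {x y : K} (h : AlgebraicIndependent F ![x, y]) :
    AlgebraicIndependent F ![aeval x g - y ^ ℓ, x] := by
  rw [AlgebraicIndependent, injective_iff_map_eq_zero]
  intro q hq
  have h1 : eval₂ ((aeval x : F[X] →ₐ[F] K) : F[X] →+* K) (aeval x g - y ^ ℓ) (B7a_kap F q) = 0 := by
    rw [B7a_kap_eval]; exact hq
  have h2 : eval₂ ((aeval x : F[X] →ₐ[F] K) : F[X] →+* K) y ((B7a_kap F q).comp (C g - X ^ ℓ)) = 0 := by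
    rw [Polynomial.eval₂_comp]
    simpa using h1
  have h3 := B7a_eval₂_ne_zero h h2
  rw [Polynomial.comp_eq_zero_iff] at h3
  have h4 : B7a_kap F q = 0 := by
    rcases h3 with h3 | ⟨-, h3⟩
    · exact h3
    · exfalso
      have h5 := congrArg (fun p : F[X][X] => p.coeff ℓ) h3
      simp only [coeff_sub, coeff_X_pow, coeff_C, if_neg hℓ.ne', if_true] at h5
      norm_num at h5
  exact B7a_kap_injective F (h4.trans (map_zero _).symm)

-- END

end Pool.Agent.Lib.MP_89bcae_ag.Brt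

end

section

namespace Pool.Agent.Lib.MP_89bcae_ag.Wt.Lns.LocCtx
end Pool.Agent.Lib.MP_89bcae_ag.Wt.Lns.LocCtx


/-!
# Models
-/

open Polynomial IsDedekindDomain IsLocalRing

open scoped Classical

namespace Pool.Agent.Lib.MP_89bcae_ag.Brt

open Pool.Agent.Lib.MP_89bcae_ag.Sup (LocCtx plc exists_locCtx)

open Pool.Agent.Lib.MP_89bcae_ag.Wt Pool.Agent.Lib.MP_89bcae_ag.Wt.Lns Pool.Agent.Lib.MP_89bcae_ag.Bra

-- BEGIN

/-- `F[X][X]` in the polynomials in two variables. -/
private noncomputable def B7b_twoVar (F : Type) [Field F] : F[X][X] →+* MvPolynomial (Fin 2) F :=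
  eval₂RingHom ((aeval (MvPolynomial.X 0 : MvPolynomial (Fin 2) F)).toRingHom)
    (MvPolynomial.X 1 : MvPolynomial (Fin 2) F)

private lemma B7b_twoVar_injective (F : Type) [Field F] : Function.Injective (B7b_twoVar F) := by
  let κ : MvPolynomial (Fin 2) F →+* F[X][X] :=
    MvPolynomial.eval₂Hom (C.comp C) ![C X, X]
  have h : κ.comp (B7b_twoVar F) = RingHom.id _ := by
    refine Polynomial.ringHom_ext' (Polynomial.ringHom_ext' ?_ ?_) ?_
    · ext c
      simp [κ, B7b_twoVar]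
    · simp [κ, B7b_twoVar]
    · simp [κ, B7b_twoVar]
  intro p q hpq
  have h1 := congrArg κ hpq
  have h2 := RingHom.congr_fun h
  exact (h2 p).symm.trans (h1.trans (h2 q))

private lemma B7b_eval₂_ne_zero {F K : Type} [Field F] [Field K] [Algebra F K] {t x : K}
    (h : AlgebraicIndependent F ![t, x]) {q : F[X][X]}
    (hq : eval₂ ((aeval t : F[X] →ₐ[F] K) : F[X] →+* K) x q = 0) : q = 0 := by
  have h1 : ((MvPolynomial.aeval ![t, x] : MvPolynomial (Fin 2) F →ₐ[F] K) :
      MvPolynomial (Fin 2) F →+* K).comp (B7b_twoVar F) =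
      eval₂RingHom ((aeval t : F[X] →ₐ[F] K) : F[X] →+* K) x := by
    refine Polynomial.ringHom_ext' (Polynomial.ringHom_ext' ?_ ?_) ?_
    · ext c
      simp [B7b_twoVar]
    · simp [B7b_twoVar]
    · simp [B7b_twoVar]
  have h2 : MvPolynomial.aeval ![t, x] (B7b_twoVar F q) = 0 := (RingHom.congr_fun h1 q).trans hq
  have h3 : B7b_twoVar F q = 0 := h (h2.trans (map_zero _).symm)
  exact B7b_twoVar_injective F (h3.trans (map_zero _).symm)

/-- PROOF. As `exists_model` in `Bra/Mod.lean`: `Algebra L' S` through `i`, `j : Ω →ₐ[L'] S`; the image of `x` in `S` is transcendental over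
`j(Ω)`: `Ω` is algebraic over `L'` and `L'` over `F[X]` (`halg`), and `x` is transcendental over `F(τ)` (`algInd_tau`). So
`Ω(x) → S`, and `AdjoinRoot.lift` with the root going to `y`: `y ^ ℓ = g(x) - τ`. -/
theorem exists_model_ft {F L' Ω K S : Type} [Field F] [Field L'] [Algebra F[X] L'] [Field Ω]
    [Algebra L' Ω] [IsAlgClosure L' Ω] [Field K] [Algebra F K] [Field S] [Algebra K S]
    [IsAlgClosure K S] {ℓ : ℕ} (hℓ : 0 < ℓ) {g : F[X]} {x y : K}
    (h : AlgebraicIndependent F ![x, y]) (i : L' →+* K)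
    (hi : ∀ p : F[X], i (algebraMap F[X] L' p) = aeval (aeval x g - y ^ ℓ) p)
    (halg : ∀ z : L', IsAlgebraic F[X] z)
    (hgen : ∀ M : Subfield K, (∀ z : L', i z ∈ M) → x ∈ M → y ∈ M → M = ⊤) :
    ∃ Φ : FunField ℓ ((ft F L' g).map (algebraMap L' Ω)) →+* S, IsModel F i x y Φ := by
  have hS : IsAlgClosed S := IsAlgClosure.isAlgClosed K
  have hΩ : Algebra.IsAlgebraic L' Ω := IsAlgClosure.isAlgebraic
  have hL' : Algebra.IsAlgebraic F[X] L' := ⟨halg⟩
  have hind : AlgebraicIndependent F ![aeval x g - y ^ ℓ, x] := algInd_tau hℓ g h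
  set i0 : F[X] →+* K := ((aeval (aeval x g - y ^ ℓ) : F[X] →ₐ[F] K) : F[X] →+* K) with hi0
  let _ : Algebra L' S := ((algebraMap K S).comp i).toAlgebra
  have hLS : ∀ z : L', algebraMap L' S z = algebraMap K S (i z) := fun _ => rfl
  let j : Ω →ₐ[L'] S := IsAlgClosed.lift
  have hj : ∀ z : L', j (algebraMap L' Ω z) = algebraMap K S (i z) := fun z => j.commutes z
  let _ : Algebra Ω S := j.toRingHom.toAlgebra
  have : IsScalarTower L' Ω S := IsScalarTower.of_algebraMap_eq fun z => (j.commutes z).symm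
  let _ : Algebra F[X] S := ((algebraMap K S).comp i0).toAlgebra
  have : IsScalarTower F[X] L' S := IsScalarTower.of_algebraMap_eq fun p => by
    rw [hLS, hi]
    rfl
  have htr : Function.Injective (eval₂RingHom (j : Ω →+* S) (algebraMap K S x)) := by
    rw [injective_iff_map_eq_zero]
    intro p hp
    by_contra hne
    have h1 : IsAlgebraic Ω (algebraMap K S x) := ⟨p, hne, hp⟩
    have h2 : IsAlgebraic L' (algebraMap K S x) := h1.restrictScalars L'
    have h3 : IsAlgebraic F[X] (algebraMap K S x) := h2.restrictScalars F[X]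
    obtain ⟨q, hq, hq0⟩ := h3
    refine hq (B7b_eval₂_ne_zero hind ?_)
    refine (algebraMap K S).injective ?_
    rw [Polynomial.hom_eval₂, map_zero]
    exact hq0
  let g1 : RatFunc Ω →+* S := IsFractionRing.lift htr
  have hg1 : ∀ p : Polynomial Ω, g1 (algebraMap (Polynomial Ω) (RatFunc Ω) p) =
      eval₂ (j : Ω →+* S) (algebraMap K S x) p := fun p => IsFractionRing.lift_algebraMap htr p
  have hcurve : eval₂ (j : Ω →+* S) (algebraMap K S x)
      ((ft F L' g).map (algebraMap L' Ω)) = algebraMap K S y ^ ℓ := by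
    have hX : i (algebraMap F[X] L' X) = aeval x g - y ^ ℓ := by rw [hi, aeval_X]
    have hCc : ∀ c : F, i (algebraMap F[X] L' (C c)) = algebraMap F K c := by
      intro c
      rw [hi, aeval_C]
    have h1 : eval₂ ((((j : Ω →+* S).comp (algebraMap L' Ω)).comp ((algebraMap F[X] L').comp C)))
        (algebraMap K S x) g = algebraMap K S (aeval x g) := by
      rw [aeval_def, Polynomial.hom_eval₂]
      have h2 : (((j : Ω →+* S).comp (algebraMap L' Ω)).comp ((algebraMap F[X] L').comp C)) =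
          (algebraMap K S).comp (algebraMap F K) := by
        ext c
        exact (hj _).trans (congrArg _ (hCc c))
      rw [h2]
    rw [ft, Polynomial.map_sub, Polynomial.map_map, Polynomial.map_C, eval₂_sub, eval₂_C, Polynomial.eval₂_map]
    have h3 : (j : Ω →+* S) (algebraMap L' Ω (algebraMap F[X] L' X)) = algebraMap K S (aeval x g - y ^ ℓ) :=
      (hj _).trans (congrArg _ hX)
    rw [h3, ← RingHom.comp_assoc, h1, map_sub, map_pow]
    ring
  let Φ : FunField ℓ ((ft F L' g).map (algebraMap L' Ω)) →+* S :=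
    AdjoinRoot.lift g1 (algebraMap K S y) (by
      rw [eval₂_sub, eval₂_pow, eval₂_X, eval₂_C, hg1, hcurve, sub_self])
  have hΦ : ∀ p : Polynomial Ω, Φ (polyF p) = eval₂ (j : Ω →+* S) (algebraMap K S x) p := by
    intro p
    rw [polyF_eq]
    exact (AdjoinRoot.lift_of _).trans (hg1 p)
  refine ⟨Φ, ⟨fun z => ?_, fun c => ?_, ?_, ?_, hgen⟩⟩
  · change Φ (polyF (C _)) = _
    rw [hΦ, eval₂_C]
    exact hj _
  · rw [hi, aeval_C]
  · rw [hΦ, eval₂_X]
  · exact AdjoinRoot.lift_root _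

-- END

end Pool.Agent.Lib.MP_89bcae_ag.Brt

end
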