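import Mathlib
import Pool.Agent.Lib.MP_89bcae_ag.Tk.K008
import Pool.Agent.Lib.MP_89bcae_ag.Tk.K013
import Pool.Agent.Lib.MP_89bcae_ag.Tk.K000

set_option linter.all false
attribute [local instance 100000] Pool.Agent.Lib.MP_89bcae_ag.Brt.tffFields
attribute [local instance 100000] Pool.Agent.Lib.MP_89bcae_ag.Wt.ifrNF Pool.Agent.Lib.MP_89bcae_ag.Wt.iddNF

namespace Pool.Agent.Lib.MP_89bcae_ag.Bra
end Pool.Agent.Lib.MP_89bcae_ag.Bra
namespace Pool.Agent.Lib.MP_89bcae_ag.Sup
end Pool.Agent.Lib.MP_89bcae_ag.Sup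
namespace Pool.Agent.Lib.MP_89bcae_ag.Wt
end Pool.Agent.Lib.MP_89bcae_ag.Wt
namespace Pool.Agent.Lib.MP_89bcae_ag.Wt.Lns
end Pool.Agent.Lib.MP_89bcae_ag.Wt.Lns
namespace Pool.Agent.Lib.MP_89bcae_ag.Wt.Lns.LocCtx
end Pool.Agent.Lib.MP_89bcae_ag.Wt.Lns.LocCtx

section

/-!
# An explicit form of Tsen's theorem in the ring `E[x, y] / (y ^ l - f(x))`
-/

open Polynomial IsDedekindDomain

open scoped Classical

namespace Pool.Agent.Lib.MP_89bcae_ag.Sup

universe u

section R12aux

variable {E : Type u} [Field E]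

/-- substitution `z ↦ η z` -/
private noncomputable def r12_rr (η : E) : E[X] →ₐ[E] E[X] := Polynomial.aeval (C η * X)

private lemma r12_rr_X (η : E) : r12_rr η X = C η * X := by
  unfold r12_rr; exact aeval_X _

private lemma r12_rr_C (η c : E) : r12_rr η (C c) = C c := by
  unfold r12_rr; exact aeval_C _ _

private lemma r12_rr_rr (η η' : E) (v : E[X]) : r12_rr η (r12_rr η' v) = r12_rr (η * η') v := by
  have h : (r12_rr η).comp (r12_rr η') = r12_rr (η * η') := by
    ext1
    rw [AlgHom.comp_apply, r12_rr_X, map_mul, r12_rr_C, r12_rr_X, r12_rr_X, C_mul]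
    ring
  rw [← h, AlgHom.comp_apply]

private lemma r12_rr_one (v : E[X]) : r12_rr 1 v = v := by
  have h : r12_rr (1 : E) = AlgHom.id E E[X] := by
    ext1
    rw [r12_rr_X, AlgHom.id_apply, C_1, one_mul]
  rw [h, AlgHom.id_apply]

/-- the polynomial `p(a - z ^ l)` -/
private noncomputable def r12_hat (l : ℕ) (a : E) : E[X] →ₐ[E] E[X] :=
  Polynomial.aeval (C a - X ^ l)

private lemma r12_hat_X (l : ℕ) (a : E) : r12_hat l a X = C a - X ^ l := by
  unfold r12_hat; exact aeval_X _

private lemma r12_hat_C (l : ℕ) (a c : E) : r12_hat l a (C c) = C c := by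
  unfold r12_hat; exact aeval_C _ _

private lemma r12_hat_ne {l : ℕ} (hl : 0 < l) (a : E) {p : E[X]} (hp : p ≠ 0) :
    r12_hat l a p ≠ 0 := by
  intro h
  have h1 : p.comp (C a - X ^ l) = 0 := by
    rw [Polynomial.comp_eq_aeval]; exact h
  rw [Polynomial.comp_eq_zero_iff] at h1
  rcases h1 with h1 | ⟨_, h1⟩
  · exact hp h1
  · have h2 := congrArg natDegree h1
    rw [natDegree_C] at h2
    have h3 : (C a - X ^ l : E[X]).natDegree = l := by
      rw [natDegree_sub_eq_right_of_natDegree_lt]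
      · exact natDegree_X_pow l
      · rw [natDegree_C, natDegree_X_pow]; exact hl
    omega

private lemma r12_rr_hat {l : ℕ} {η : E} (hη : η ^ l = 1) (a : E) (p : E[X]) :
    r12_rr η (r12_hat l a p) = r12_hat l a p := by
  have h : (r12_rr η).comp (r12_hat l a) = r12_hat l a := by
    ext1
    rw [AlgHom.comp_apply, r12_hat_X, map_sub, map_pow, r12_rr_C, r12_rr_X, mul_pow, ← C_pow, hη,
      C_1, one_mul]
  exact congrArg (fun φ : E[X] →ₐ[E] E[X] => φ p) h

private lemma r12_lin {l : ℕ} (hl : 0 < l) {η : E} (hη : IsPrimitiveRoot η l) (s : E) :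
    ∏ j ∈ Finset.range l, r12_rr (η ^ j) (C s - X) = C (s ^ l) - X ^ l := by
  have h1 : IsPrimitiveRoot (C η : E[X]) l := hη.map_of_injective C_injective
  have h2 := h1.pow_sub_pow_eq_prod_sub_mul (C s : E[X]) X hl
  have h3 : nthRootsFinset l (1 : E[X]) = (Finset.range l).image (fun j => (C η : E[X]) ^ j) := by
    symm
    apply Finset.eq_of_subset_of_card_le
    · intro x hx
      obtain ⟨j, _, rfl⟩ := Finset.mem_image.mp hx
      rw [mem_nthRootsFinset hl, ← pow_mul, mul_comm, pow_mul, h1.pow_eq_one, one_pow]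
    · rw [h1.card_nthRootsFinset, Finset.card_image_of_injOn, Finset.card_range]
      intro i hi j hj hij
      exact h1.pow_inj (Finset.mem_range.mp hi) (Finset.mem_range.mp hj) hij
  rw [h3, Finset.prod_image] at h2
  · rw [C_pow, h2]
    refine Finset.prod_congr rfl fun j _ => ?_
    rw [map_sub, r12_rr_C, r12_rr_X, C_pow]
  · intro i hi j hj hij
    exact h1.pow_inj (Finset.mem_range.mp hi) (Finset.mem_range.mp hj) hij

private lemma r12_H [IsAlgClosed E] {l : ℕ} (hl : 0 < l) {η : E} (hη : IsPrimitiveRoot η l) (a : E)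
    (f : E[X]) : ∃ H : E[X], ∏ j ∈ Finset.range l, r12_rr (η ^ j) H = r12_hat l a f := by
  have hmul : ∀ p q : E[X], (∃ H : E[X], ∏ j ∈ Finset.range l, r12_rr (η ^ j) H = r12_hat l a p) →
      (∃ H : E[X], ∏ j ∈ Finset.range l, r12_rr (η ^ j) H = r12_hat l a q) →
      ∃ H : E[X], ∏ j ∈ Finset.range l, r12_rr (η ^ j) H = r12_hat l a (p * q) := by
    rintro p q ⟨H, hH⟩ ⟨H', hH'⟩
    refine ⟨H * H', ?_⟩
    rw [map_mul, ← hH, ← hH', ← Finset.prod_mul_distrib]
    exact Finset.prod_congr rfl fun j _ => map_mul _ _ _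
  have hC : ∀ c : E, ∃ H : E[X], ∏ j ∈ Finset.range l, r12_rr (η ^ j) H = r12_hat l a (C c) := by
    intro c
    obtain ⟨d, hd⟩ := IsAlgClosed.exists_pow_nat_eq c hl
    refine ⟨C d, ?_⟩
    rw [r12_hat_C, ← hd, C_pow]
    rw [Finset.prod_congr rfl (fun j _ => r12_rr_C (η ^ j) d), Finset.prod_const,
      Finset.card_range]
  have hX : ∀ r : E, ∃ H : E[X], ∏ j ∈ Finset.range l, r12_rr (η ^ j) H =
      r12_hat l a (X - C r) := by
    intro r
    obtain ⟨s, hs⟩ := IsAlgClosed.exists_pow_nat_eq (a - r) hl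
    refine ⟨C s - X, ?_⟩
    rw [r12_lin hl hη, hs, map_sub (r12_hat l a), r12_hat_X, r12_hat_C, C_sub]
    ring
  have hm : ∀ m : Multiset E, ∃ H : E[X], ∏ j ∈ Finset.range l, r12_rr (η ^ j) H =
      r12_hat l a ((m.map fun r => X - C r).prod) := by
    intro m
    induction m using Multiset.induction_on with
    | empty =>
      have := hC 1
      rwa [C_1] at this
    | cons r m ih =>
      rw [Multiset.map_cons, Multiset.prod_cons]
      exact hmul _ _ (hX r) ih
  have hsp := (IsAlgClosed.splits f).eq_prod_roots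
  rw [hsp]
  exact hmul _ _ (hC _) (hm _)


private lemma r12_Y_pow (η : E) (H : E[X]) (Y : Module.End E E[X])
    (hY : ∀ v, Y v = H * r12_rr η v) (n : ℕ) (v : E[X]) :
    (Y ^ n) v = (∏ j ∈ Finset.range n, r12_rr (η ^ j) H) * r12_rr (η ^ n) v := by
  induction n generalizing v with
  | zero => rw [pow_zero, pow_zero, Finset.prod_range_zero, one_mul, r12_rr_one]; rfl
  | succ n ih =>
    rw [pow_succ, Module.End.mul_apply, ih, hY, map_mul, r12_rr_rr, Finset.prod_range_succ,
      ← pow_succ]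
    ring

/-- the action of the coordinate ring on the polynomials in `z` -/
private lemma r12_act {l : ℕ} (f : E[X]) (a : E) {η : E} (hη : η ^ l = 1) (H : E[X])
    (hH : ∏ j ∈ Finset.range l, r12_rr (η ^ j) H = r12_hat l a f) :
    ∃ act : Coord l f →+* Module.End E E[X],
      (∀ p v, act (ofPoly p) v = r12_hat l a p * v) ∧
      (∀ v, act yy v = H * r12_rr η v) := by
  set f0 : E[X] →+* Module.End E E[X] :=
    (Algebra.lmul E E[X]).toRingHom.comp (r12_hat l a).toRingHom with hf0
  have hf0a : ∀ p v, f0 p v = r12_hat l a p * v := fun p v => rfl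
  set Y : Module.End E E[X] := LinearMap.mulLeft E H * (r12_rr η).toLinearMap with hYd
  have hY : ∀ v, Y v = H * r12_rr η v := fun v => rfl
  have hcomm : ∀ p, Commute (f0 p) Y := by
    intro p
    apply LinearMap.ext
    intro v
    show f0 p (Y v) = Y (f0 p v)
    rw [hf0a, hY, hY, hf0a, map_mul, r12_rr_hat hη]
    ring
  set act0 : E[X][X] →+* Module.End E E[X] := Polynomial.eval₂RingHom' f0 Y hcomm with hact0
  have h1 : ∀ p, act0 (C p) = f0 p := fun p => Polynomial.eval₂_C _ _
  have h2 : act0 X = Y := Polynomial.eval₂_X _ _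
  have hzero : act0 (X ^ l - C f) = 0 := by
    rw [map_sub, map_pow, h1, h2, sub_eq_zero]
    apply LinearMap.ext
    intro v
    rw [r12_Y_pow η H Y hY, hH, hη, r12_rr_one, hf0a]
  set act : Coord l f →+* Module.End E E[X] :=
    Ideal.Quotient.lift (Ideal.span {(X ^ l - C f : E[X][X])}) act0 (by
      intro x hx
      obtain ⟨y, rfl⟩ := Ideal.mem_span_singleton'.mp hx
      rw [map_mul, hzero, mul_zero]) with hact
  have h3 : ∀ q : E[X][X], act (AdjoinRoot.mk _ q) = act0 q := fun q => rfl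
  refine ⟨act, ?_, ?_⟩
  · intro p v
    have h4 : (ofPoly p : Coord l f) = AdjoinRoot.mk _ (C p) := rfl
    rw [h4, h3, h1, hf0a]
  · intro v
    have h4 : (yy : Coord l f) = AdjoinRoot.mk _ X := rfl
    rw [h4, h3, h2, hY]


private lemma r12_exists_poly {l : ℕ} {f : E[X]} [IsDomain (Coord l f)] (hl2 : 2 ≤ l) {u : Coord l f} (hu : u ≠ 0) :
    ∃ (p : E[X]) (c : Coord l f), p ≠ 0 ∧ (ofPoly p : Coord l f) = c * u := by
  have hfin : Module.Finite E[X] (Coord l f) :=
    (monic_eqn (f := f) (by omega : l ≠ 0)).finite_adjoinRoot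
  have hint : IsIntegral E[X] u := Algebra.IsIntegral.isIntegral u
  have h1 := Ideal.comap_ne_bot_of_integral_mem hu (Ideal.mem_span_singleton_self u) hint
  obtain ⟨p, hp, hp0⟩ := (Submodule.ne_bot_iff _).mp h1
  rw [Ideal.mem_comap, Ideal.mem_span_singleton'] at hp
  obtain ⟨c, hc⟩ := hp
  exact ⟨p, c, hp0, hc.symm⟩

private lemma r12_act_inj {l : ℕ} {f : E[X]} [IsDomain (Coord l f)] (hl2 : 2 ≤ l) {a : E}
    (act : Coord l f →+* Module.End E E[X])
    (h1 : ∀ p v, act (ofPoly p) v = r12_hat l a p * v) {v : E[X]} (hv : v ≠ 0) {u : Coord l f}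
    (hu : act u v = 0) : u = 0 := by
  by_contra hne
  obtain ⟨p, c, hp, hpc⟩ := r12_exists_poly hl2 hne
  have h2 : act (ofPoly p) v = 0 := by
    rw [hpc, map_mul, Module.End.mul_apply, hu, map_zero]
  rw [h1] at h2
  exact mul_ne_zero (r12_hat_ne (by omega) a hp) hv h2

private lemma r12_deg {l : ℕ} {f : E[X]} {a η : E} {H : E[X]}
    (act : Coord l f →+* Module.End E E[X])
    (h1 : ∀ p v, act (ofPoly p) v = r12_hat l a p * v)
    (h2 : ∀ v, act yy v = H * r12_rr η v) (i j : ℕ) (v : E[X]) :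
    (act (ofPoly (X ^ j) * yy ^ i) v).natDegree ≤ l * j + i * H.natDegree + v.natDegree := by
  have hrr : ∀ w : E[X], (r12_rr η w).natDegree ≤ w.natDegree := by
    intro w
    have h3 : r12_rr η w = w.comp (C η * X) := by rw [Polynomial.comp_eq_aeval]; rfl
    rw [h3]
    refine natDegree_comp_le.trans ?_
    have h4 : (C η * X : E[X]).natDegree ≤ 1 :=
      (natDegree_C_mul_le _ _).trans natDegree_X_le
    calc w.natDegree * (C η * X : E[X]).natDegree ≤ w.natDegree * 1 := Nat.mul_le_mul_left _ h4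
      _ = w.natDegree := mul_one _
  have hy : ∀ (i : ℕ) (w : E[X]), ((act yy ^ i) w).natDegree ≤ i * H.natDegree + w.natDegree := by
    intro i
    induction i with
    | zero => intro w; rw [pow_zero]; show w.natDegree ≤ _; omega
    | succ i ih =>
      intro w
      rw [pow_succ, Module.End.mul_apply]
      refine (ih _).trans ?_
      rw [h2]
      have h3 := natDegree_mul_le (p := H) (q := r12_rr η w)
      have h4 := hrr w
      have h5 : (i + 1) * H.natDegree = i * H.natDegree + H.natDegree := by ring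
      omega
  rw [map_mul, Module.End.mul_apply, h1, map_pow act]
  have h3 := natDegree_mul_le (p := r12_hat l a (X ^ j)) (q := (act yy ^ i) v)
  have h4 := hy i v
  have h5 : (r12_hat l a (X ^ j)).natDegree ≤ l * j := by
    rw [map_pow, r12_hat_X]
    refine natDegree_pow_le.trans ?_
    have h6 : (C a - X ^ l : E[X]).natDegree ≤ l := by
      refine (natDegree_sub_le _ _).trans ?_
      rw [natDegree_C, natDegree_X_pow]
      exact max_le (Nat.zero_le _) le_rfl
    calc j * (C a - X ^ l : E[X]).natDegree ≤ j * l := Nat.mul_le_mul_left _ h6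
      _ = l * j := mul_comm _ _
  omega

/-- the element with the coefficients `c` -/
private noncomputable def r12_el {l : ℕ} {f : E[X]} (N : ℕ) (c : ℕ → ℕ → E) : Coord l f :=
  ∑ i ∈ Finset.range l, ofPoly (∑ j ∈ Finset.range N, C (c i j) * X ^ j) * yy ^ i

private lemma r12_el_act {l : ℕ} {f : E[X]} {a : E}
    (act : Coord l f →+* Module.End E E[X])
    (h1 : ∀ p v, act (ofPoly p) v = r12_hat l a p * v) (N : ℕ) (c : ℕ → ℕ → E) (v : E[X]) :
    act (r12_el N c) v =
      ∑ i ∈ Finset.range l, ∑ j ∈ Finset.range N, c i j • act (ofPoly (X ^ j) * yy ^ i) v := by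
  unfold r12_el
  rw [map_sum, LinearMap.sum_apply]
  refine Finset.sum_congr rfl fun i _ => ?_
  rw [map_mul, Module.End.mul_apply, h1, map_sum, Finset.sum_mul]
  refine Finset.sum_congr rfl fun j _ => ?_
  rw [map_mul (r12_hat l a), r12_hat_C, map_mul act, Module.End.mul_apply, h1, smul_eq_C_mul,
    mul_assoc]

private lemma r12_el_zero {l : ℕ} (hl : l ≠ 0) {f : E[X]} {N : ℕ} {c : ℕ → ℕ → E}
    (h : (r12_el N c : Coord l f) = 0) : ∀ i < l, ∀ j < N, c i j = 0 := by
  intro i hi j hj
  have h1 := expand_unique hl (fun i => ∑ j ∈ Finset.range N, C (c i j) * X ^ j) h i hi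
  have h2 := congrArg (fun p : E[X] => p.coeff j) h1
  simp only [finsetSum_coeff, coeff_C_mul, coeff_X_pow, coeff_zero] at h2
  rw [Finset.sum_eq_single j] at h2
  · simpa using h2
  · intro b _ hb
    rw [if_neg (Ne.symm hb), mul_zero]
  · intro hb
    exact absurd (Finset.mem_range.mpr hj) hb


private lemma r12_exists_w {l : ℕ} {f : E[X]} [IsDomain (Coord l f)] (hl2 : 2 ≤ l) {a η : E} {H : E[X]}
    (act : Coord l f →+* Module.End E E[X])
    (h1 : ∀ p v, act (ofPoly p) v = r12_hat l a p * v)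
    (h2 : ∀ v, act yy v = H * r12_rr η v) :
    ∃ (w : Coord l f) (q : E[X]), q ≠ 0 ∧ act w 1 = r12_hat l a q * X := by
  have hl : 2 ≤ l := hl2
  set n' := H.natDegree with hn'
  set N := n' + 1 with hN
  set D := l * n' + (l - 1) * n' + 2 with hD
  set g : Fin 2 × Fin l × Fin N → E[X] := fun x =>
    if x.1 = 0 then act (ofPoly (X ^ (x.2.2 : ℕ)) * yy ^ (x.2.1 : ℕ)) 1
    else -act (ofPoly (X ^ (x.2.2 : ℕ)) * yy ^ (x.2.1 : ℕ)) X with hg
  have hgdeg : ∀ x, (g x).natDegree < D := by
    intro x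
    obtain ⟨k, i, j⟩ := x
    have hi : (i : ℕ) ≤ l - 1 := by have := i.2; omega
    have hj : (j : ℕ) ≤ n' := by have := j.2; omega
    have h3 := r12_deg act h1 h2 (i : ℕ) (j : ℕ) 1
    have h4 := r12_deg act h1 h2 (i : ℕ) (j : ℕ) X
    rw [natDegree_one, ← hn'] at h3
    rw [natDegree_X, ← hn'] at h4
    have h5 : (i : ℕ) * n' ≤ (l - 1) * n' := Nat.mul_le_mul_right _ hi
    have h6 : l * (j : ℕ) ≤ l * n' := Nat.mul_le_mul_left _ hj
    simp only [hg]
    split_ifs
    · omega
    · rw [natDegree_neg]; omega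
  set T : (Fin 2 × Fin l × Fin N → E) →ₗ[E] E[X] := Fintype.linearCombination E g with hT
  set T' : (Fin 2 × Fin l × Fin N → E) →ₗ[E] (Fin D → E) :=
    LinearMap.pi (fun j => (Polynomial.lcoeff E (j : ℕ)).comp T) with hT'
  have hker : LinearMap.ker T' ≠ ⊥ := by
    apply LinearMap.ker_ne_bot_of_finrank_lt
    rw [Module.finrank_fin_fun, Module.finrank_fintype_fun_eq_card, Fintype.card_prod,
      Fintype.card_prod, Fintype.card_fin, Fintype.card_fin, Fintype.card_fin, hD, hN]
    have h3 : (l - 1) * n' ≤ l * n' := Nat.mul_le_mul_right _ (by omega)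
    have h4 : 2 * (l * (n' + 1)) = l * n' + l * n' + 2 * l := by ring
    omega
  obtain ⟨c, hc, hc0⟩ := (Submodule.ne_bot_iff _).mp hker
  have hTc : T c = 0 := by
    ext j
    by_cases hj : j < D
    · have h3 : T' c = 0 := hc
      have h4 := congrFun h3 ⟨j, hj⟩
      exact h4
    · rw [coeff_zero]
      apply coeff_eq_zero_of_natDegree_lt
      have h3 : T c = ∑ x, c x • g x := rfl
      rw [h3]
      refine lt_of_lt_of_le ?_ (not_lt.mp hj)
      refine lt_of_le_of_lt (natDegree_sum_le_of_forall_le (n := D - 1) _ _ ?_) (by omega)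
      intro x _
      refine (natDegree_smul_le _ _).trans ?_
      have := hgdeg x
      omega
  set cc : Fin 2 → ℕ → ℕ → E := fun k i j =>
    if h : i < l ∧ j < N then c (k, ⟨i, h.1⟩, ⟨j, h.2⟩) else 0 with hcc
  have hccv : ∀ (k : Fin 2) (i : Fin l) (j : Fin N), cc k i j = c (k, i, j) := by
    intro k i j
    simp only [hcc]
    rw [dif_pos ⟨i.2, j.2⟩]
  have hsum : act (r12_el N (cc 0)) 1 - act (r12_el N (cc 1)) X = 0 := by
    rw [r12_el_act act h1, r12_el_act act h1, ← hTc]
    have h3 : T c = ∑ x, c x • g x := rfl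
    rw [h3, Fintype.sum_prod_type, Fin.sum_univ_two, Fintype.sum_prod_type, Fintype.sum_prod_type,
      Finset.sum_range, Finset.sum_range, sub_eq_add_neg, ← Finset.sum_neg_distrib]
    congr 1
    · refine Finset.sum_congr rfl fun i _ => ?_
      rw [Finset.sum_range]
      refine Finset.sum_congr rfl fun j _ => ?_
      rw [hccv]
      simp only [hg, if_pos]
    · refine Finset.sum_congr rfl fun i _ => ?_
      rw [Finset.sum_range, ← Finset.sum_neg_distrib]
      refine Finset.sum_congr rfl fun j _ => ?_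
      rw [hccv]
      simp only [hg]
      rw [if_neg (by decide), smul_neg]
  have hu : (r12_el N (cc 1) : Coord l f) ≠ 0 := by
    intro h3
    have h4 := r12_el_zero (by omega) h3
    rw [h3, map_zero, LinearMap.zero_apply, sub_zero] at hsum
    have h5 := r12_act_inj hl2 act h1 one_ne_zero hsum
    have h6 := r12_el_zero (by omega) h5
    apply hc0
    funext x
    obtain ⟨k, i, j⟩ := x
    rw [← hccv, Pi.zero_apply]
    fin_cases k
    · exact h6 i i.2 j j.2
    · exact h4 i i.2 j j.2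
  obtain ⟨p, u', hp, hpu⟩ := r12_exists_poly hl2 hu
  refine ⟨u' * r12_el N (cc 0), p, hp, ?_⟩
  rw [map_mul, Module.End.mul_apply, sub_eq_zero.mp hsum, ← Module.End.mul_apply, ← map_mul, ← hpu,
    h1]


/-- the main identity in the coordinate ring -/
lemma r12_main_wt {l : ℕ} {f : E[X]} [IsDomain (Coord l f)] [IsAlgClosed E] (hl2 : 2 ≤ l)
    (ζ : E) (hζ : IsPrimitiveRoot ζ l)
    (h0 : ζ ≠ 0) (a : E) :
    ∃ (w : Coord l f) (q : E[X]), q ≠ 0 ∧ w ≠ 0 ∧
      ∏ i ∈ Finset.range l, (rotC ζ hζ.pow_eq_one)^[i] w = ofPoly (q ^ l * (C a - X)) := by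
  have hl : 0 < l := by omega
  have hη : IsPrimitiveRoot ζ⁻¹ l := hζ.inv
  obtain ⟨H, hH⟩ := r12_H hl hη a f
  obtain ⟨act, h1, h2⟩ := r12_act f a hη.pow_eq_one H hH
  obtain ⟨w, q, hq, hw⟩ := r12_exists_w hl2 act h1 h2
  -- the semilinearity of the multiplication by `z`
  have hsemi : ∀ (u : Coord l f) (v : E[X]),
      X * act u v = act (rotC ζ hζ.pow_eq_one u) (X * v) := by
    have hadd : ∀ u u' : Coord l f,
        (∀ v : E[X], X * act u v = act (rotC ζ hζ.pow_eq_one u) (X * v)) →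
        (∀ v : E[X], X * act u' v = act (rotC ζ hζ.pow_eq_one u') (X * v)) →
        ∀ v : E[X], X * act (u + u') v = act (rotC ζ hζ.pow_eq_one (u + u')) (X * v) := by
      intro u u' hu hu' v
      rw [map_add act, map_add (rotC ζ hζ.pow_eq_one), map_add act, LinearMap.add_apply,
        LinearMap.add_apply, mul_add, hu, hu']
    have hmul : ∀ u u' : Coord l f,
        (∀ v : E[X], X * act u v = act (rotC ζ hζ.pow_eq_one u) (X * v)) →
        (∀ v : E[X], X * act u' v = act (rotC ζ hζ.pow_eq_one u') (X * v)) →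
        ∀ v : E[X], X * act (u * u') v = act (rotC ζ hζ.pow_eq_one (u * u')) (X * v) := by
      intro u u' hu hu' v
      rw [map_mul act, map_mul (rotC ζ hζ.pow_eq_one), map_mul act, Module.End.mul_apply,
        Module.End.mul_apply, hu, hu']
    have hp : ∀ (p : E[X]) (v : E[X]), X * act (ofPoly p : Coord l f) v =
        act (rotC ζ hζ.pow_eq_one (ofPoly p)) (X * v) := by
      intro p v
      rw [rotC_ofPoly, h1, h1]
      ring
    have hy : ∀ v : E[X], X * act (yy : Coord l f) v =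
        act (rotC ζ hζ.pow_eq_one yy) (X * v) := by
      intro v
      rw [rotC_yy, map_mul act, Module.End.mul_apply, h1, h2, h2, map_mul, r12_rr_X, r12_hat_C]
      have h3 : (C ζ * C ζ⁻¹ : E[X]) = 1 := by rw [← C_mul, mul_inv_cancel₀ h0, C_1]
      calc X * (H * r12_rr ζ⁻¹ v) = 1 * (X * (H * r12_rr ζ⁻¹ v)) := by rw [one_mul]
        _ = (C ζ * C ζ⁻¹) * (X * (H * r12_rr ζ⁻¹ v)) := by rw [h3]
        _ = _ := by ring
    have hyp : ∀ (i : ℕ) (v : E[X]), X * act ((yy : Coord l f) ^ i) v =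
        act (rotC ζ hζ.pow_eq_one (yy ^ i)) (X * v) := by
      intro i
      induction i with
      | zero =>
        intro v
        rw [pow_zero, map_one (rotC ζ hζ.pow_eq_one), map_one act]
        rfl
      | succ i ih =>
        rw [pow_succ]
        exact hmul _ _ ih hy
    intro u
    obtain ⟨p, rfl⟩ := exists_expand hl.ne' u
    have key : ∀ s : Finset ℕ, ∀ v : E[X],
        X * act (∑ i ∈ s, (ofPoly (p i) : Coord l f) * yy ^ i) v =
        act (rotC ζ hζ.pow_eq_one (∑ i ∈ s, ofPoly (p i) * yy ^ i)) (X * v) := by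
      intro s
      induction s using Finset.induction_on with
      | empty =>
        intro v
        rw [Finset.sum_empty, map_zero, map_zero, map_zero, LinearMap.zero_apply,
          LinearMap.zero_apply, mul_zero]
      | insert i s hi ih =>
        rw [Finset.sum_insert hi]
        exact hadd _ _ (hmul _ _ (hp (p i)) (hyp i)) ih
    exact key _
  have hsemik : ∀ (k : ℕ) (v : E[X]),
      X ^ k * act w v = act ((rotC ζ hζ.pow_eq_one)^[k] w) (X ^ k * v) := by
    intro k
    induction k with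
    | zero => intro v; rw [pow_zero, one_mul, one_mul]; rfl
    | succ k ih =>
      intro v
      rw [pow_succ', mul_assoc, ih, hsemi, Function.iterate_succ_apply', mul_assoc]
  have hcommC : ∀ (u : Coord l f) (p v : E[X]),
      act u (r12_hat l a p * v) = r12_hat l a p * act u v := by
    intro u p v
    rw [← h1, ← Module.End.mul_apply, ← map_mul, mul_comm, map_mul, Module.End.mul_apply, h1]
  have hprod : ∀ k : ℕ, act (∏ i ∈ Finset.range k, (rotC ζ hζ.pow_eq_one)^[i] w) 1 =
      r12_hat l a (q ^ k) * X ^ k := by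
    intro k
    induction k with
    | zero =>
      rw [Finset.prod_range_zero, map_one act, pow_zero, pow_zero, map_one (r12_hat l a)]
      show (1 : E[X]) = 1 * 1
      rw [one_mul]
    | succ k ih =>
      rw [Finset.prod_range_succ, mul_comm, map_mul, Module.End.mul_apply, ih, hcommC]
      have h3 := hsemik k 1
      rw [mul_one, hw] at h3
      rw [← h3, pow_succ, pow_succ, map_mul]
      ring
  have hw0 : w ≠ 0 := by
    intro h3
    rw [h3, map_zero, LinearMap.zero_apply] at hw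
    exact mul_ne_zero (r12_hat_ne hl a hq) X_ne_zero hw.symm
  refine ⟨w, q, hq, hw0, ?_⟩
  rw [← sub_eq_zero]
  refine r12_act_inj hl2 act h1 (v := 1) one_ne_zero ?_
  rw [map_sub, LinearMap.sub_apply, hprod, h1, mul_one, map_mul, map_sub (r12_hat l a), r12_hat_X,
    r12_hat_C]
  ring

end R12aux

end Pool.Agent.Lib.MP_89bcae_ag.Sup

end

section

/-!
# The subring `E[x, y]` of the coordinate ring
-/

open Polynomial IsDedekindDomain

open scoped Classical

namespace Pool.Agent.Lib.MP_89bcae_ag.Wt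

universe u

variable {N : ℕ} {E : Type u} [Field E] {f : E[X]} [hG : IsGood N f]

/-- The homomorphism from `E[x, y] / (y ^ N - f(x))` to the coordinate ring. -/
noncomputable def toN : Sup.Coord N f →+* NRing N f :=
  AdjoinRoot.lift ofPoly yy (by
    rw [eval₂_sub, eval₂_pow, eval₂_X, eval₂_C, yy_pow, sub_self])

lemma toN_ofPoly (p : E[X]) : toN (Sup.ofPoly p : Sup.Coord N f) = ofPoly p := by
  unfold toN
  exact AdjoinRoot.lift_of _

lemma toN_yy : toN (Sup.yy : Sup.Coord N f) = yy := by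
  unfold toN
  exact AdjoinRoot.lift_root _

lemma toN_expand (p : ℕ → E[X]) (s : Finset ℕ) :
    ((toN (∑ i ∈ s, Sup.ofPoly (p i) * Sup.yy ^ i : Sup.Coord N f) : NRing N f) :
      FunField N f) = ∑ i ∈ s, polyF (p i) * yF ^ i := by
  rw [map_sum]
  have h1 : ∀ i ∈ s, toN (Sup.ofPoly (p i) * Sup.yy ^ i : Sup.Coord N f) =
      ofPoly (p i) * yy ^ i := by
    intro i _
    rw [map_mul, map_pow, toN_ofPoly, toN_yy]
  rw [Finset.sum_congr rfl h1]
  push_cast
  rfl

lemma toN_injective : Function.Injective (toN : Sup.Coord N f → NRing N f) := by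
  rw [injective_iff_map_eq_zero]
  intro a ha
  obtain ⟨p, rfl⟩ := Sup.exists_expand hG.ne a
  have h1 := toN_expand (N := N) (f := f) p (Finset.range N)
  rw [ha] at h1
  have h2 := expand_unique p h1.symm
  refine Finset.sum_eq_zero fun i hi => ?_
  rw [h2 i (Finset.mem_range.1 hi), map_zero, zero_mul]

instance isDomain_coord : IsDomain (Sup.Coord N f) := toN_injective.isDomain (toN : Sup.Coord N f →+* NRing N f)

lemma toN_rotC (ζ : E) (hζ : ζ ^ N = 1) (a : Sup.Coord N f) :
    toN (Sup.rotC ζ hζ a) = rotC ζ hζ (toN a) := by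
  have h : (toN : Sup.Coord N f →+* NRing N f).comp (Sup.rotC ζ hζ) = (rotC ζ hζ).comp toN := by
    refine AdjoinRoot.ringHom_ext (RingHom.ext fun p => ?_) ?_
    · show toN (Sup.rotC ζ hζ (Sup.ofPoly p)) = rotC ζ hζ (toN (Sup.ofPoly p))
      rw [Sup.rotC_ofPoly, toN_ofPoly, rotC_ofPoly]
    · show toN (Sup.rotC ζ hζ Sup.yy) = rotC ζ hζ (toN Sup.yy)
      rw [Sup.rotC_yy, map_mul, toN_ofPoly, toN_yy, rotC_yy]
  exact RingHom.congr_fun h a

lemma toN_rotC_iter (ζ : E) (hζ : ζ ^ N = 1) (n : ℕ) (a : Sup.Coord N f) :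
    toN ((Sup.rotC ζ hζ)^[n] a) = (rotC ζ hζ)^[n] (toN a) := by
  induction n with
  | zero => rfl
  | succ n ih => rw [Function.iterate_succ_apply', Function.iterate_succ_apply', toN_rotC, ih]

/-- Uniqueness of the expansion. -/
lemma expand_unique_ring (p : ℕ → E[X])
    (h : ∑ i ∈ Finset.range N, (ofPoly (p i) : NRing N f) * yy ^ i = 0) :
    ∀ i < N, p i = 0 := by
  apply expand_unique (N := N) (f := f) p
  have h1 := congrArg (fun b : NRing N f => (b : FunField N f)) h
  simp only [AddSubmonoidClass.coe_finsetSum] at h1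
  exact h1

/-- Every function is a quotient of polynomials in `x`, `y`. -/
lemma exists_quot (h : FunField N f) : ∃ (a b : NRing N f) (p q : ℕ → E[X]), b ≠ 0 ∧
    a = ∑ i ∈ Finset.range N, ofPoly (p i) * yy ^ i ∧
    b = ∑ i ∈ Finset.range N, ofPoly (q i) * yy ^ i ∧
    algebraMap (NRing N f) (FunField N f) a / algebraMap (NRing N f) (FunField N f) b = h := by
  obtain ⟨p, q, hq, e⟩ := exists_den h
  have hq' : (ofPoly q : NRing N f) ≠ 0 := fun h =>
    hq (ofPoly_injective (N := N) (f := f) (h.trans (map_zero _).symm))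
  refine ⟨_, ofPoly q, p, fun i => if i = 0 then q else 0, hq', rfl, ?_, ?_⟩
  · rw [Finset.sum_eq_single 0]
    · simp
    · intro i _ hi
      show ofPoly (if i = 0 then q else 0) * yy ^ i = 0
      rw [if_neg hi, map_zero, zero_mul]
    · intro h
      exact absurd (Finset.mem_range.mpr hG.pos) h
  · have h1 : algebraMap (NRing N f) (FunField N f) (∑ i ∈ Finset.range N, ofPoly (p i) * yy ^ i) =
        ∑ i ∈ Finset.range N, polyF (p i) * yF ^ i := by
      rw [map_sum]
      rfl
    have h2 : algebraMap (NRing N f) (FunField N f) (ofPoly q) = polyF q := rfl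
    rw [h1, h2, ← e, mul_comm, mul_div_assoc, div_self (polyF_ne_zero hq), mul_one]


end Pool.Agent.Lib.MP_89bcae_ag.Wt

end

section

/-!
ROW R13 (200-350 lines). The point at infinity: a function whose affine divisor has degree `0` is,
up to a constant `c`, zero at infinity.

STATEMENT: if `∑_P ord_P(h) = 0` then for some constant `c` either `h = c`, or `h - c ≠ 0` and
`∑_P ord_P(h - c) < 0`.

PROOF. For a nonzero `a = ∑_{i<N} p_i(x) y^i` of the coordinate ring let
`W(a) = max_{p_i ≠ 0} (N deg p_i + i m)`, `m = deg f`. As `m` is prime to `N` the numbers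
`N deg p_i + i m` are different modulo `N`, so the maximum is attained exactly once.
(1) `W(a b) = W(a) + W(b)`: in `a b = ∑ p_i q_j y^(i+j)`, `y^(i+j) = f y^(i+j-N)` if `i + j ≥ N`, the
term `(i, j)` contributes to the component `(i+j) mod N` a polynomial of weight exactly
`(N deg p_i + i m) + (N deg q_j + j m)` (`deg f = m` accounts for the carry), and all pairs except
the pair of the two maxima have strictly smaller weight; in the component of that pair the degree
is therefore exactly the one of this term, and all other components have smaller weight.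
(2) `W(rot a) = W(a)` clearly, so for `N = ∏ rot^i a` in `E[x]` (see `R10`): `N W(a) = W(N)
= N deg N`, `W(a) = deg N`.
(3) `∑_P ord_P(a) = deg N = W(a)`: by `exists_nrm_eq` (R10), `N = c ∏_P (x - P.x)^{ord_P(a)}`
(here all `ord_P(a) ≥ 0`, so this is an equality of polynomials, by `ofPoly_injective`), whose
degree is `∑_P ord_P(a)`.
(4) `h = a / q` with `q` in `E[x]` (multiply by conjugates as in R10); then
`0 = ∑ ord_P(h) = W(a) - W(q)`, `W(q) = N deg q`. So the unique maximum of
`N deg p_i + i m` is `≡ 0` modulo `N`, so `i = 0`, `deg p_0 = deg q`, and with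
`c = lc(p_0)/lc(q)` either `a = c q` or `W(a - c q) < W(q)`, and `∑ ord_P(h - c) = W(a - c q) - W(q)`.
-/

open Polynomial IsDedekindDomain

open scoped Classical

namespace Pool.Agent.Lib.MP_89bcae_ag.Wt

universe u

variable {N : ℕ} {E : Type u} [Field E] {f : E[X]} [hG : IsGood N f]

/-- The degree of a divisor. -/
noncomputable def dg (D : Pt N f →₀ ℤ) : ℤ := D.sum fun _ n => n

private lemma r13_rotE_ofPoly (ζ : E) (hζ : ζ ^ N = 1) (h0 : ζ ≠ 0) (p : E[X]) :
    rotE ζ hζ h0 (ofPoly p : NRing N f) = ofPoly p := rotC_ofPoly ζ hζ p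

private lemma r13_rotE_yy (ζ : E) (hζ : ζ ^ N = 1) (h0 : ζ ≠ 0) :
    rotE ζ hζ h0 (yy : NRing N f) = ofPoly (C ζ) * yy := rotC_yy ζ hζ

private lemma r13_rot (ζ : E) (hζ : ζ ^ N = 1) (h0 : ζ ≠ 0) (p : ℕ → E[X]) (u : (FunField N f)ˣ)
    (hu : (u : FunField N f) = algebraMap (NRing N f) (FunField N f)
      (∑ j ∈ Finset.range N, ofPoly (p j) * yy ^ j)) (k : ℕ) :
    (((rotU ζ hζ h0)^[k] u : (FunField N f)ˣ) : FunField N f) = algebraMap (NRing N f) (FunField N f)
      (∑ j ∈ Finset.range N, ofPoly (C (ζ ^ (k * j)) * p j) * yy ^ j) := by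
  induction k with
  | zero =>
    rw [Function.iterate_zero, id, hu]
    congr 1
    refine Finset.sum_congr rfl fun j _ => ?_
    rw [zero_mul, pow_zero, C_1, one_mul]
  | succ k ih =>
    rw [Function.iterate_succ_apply']
    have h1 : ((rotU ζ hζ h0 ((rotU ζ hζ h0)^[k] u) : (FunField N f)ˣ) : FunField N f) =
        autF (rotE ζ hζ h0) (((rotU ζ hζ h0)^[k] u : (FunField N f)ˣ) : FunField N f) := rfl
    rw [h1, ih, autF_algebraMap, map_sum]
    congr 1
    refine Finset.sum_congr rfl fun j _ => ?_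
    have h2 : rotE ζ hζ h0 ((yy : NRing N f) ^ j) = ofPoly (C (ζ ^ j)) * yy ^ j := by
      rw [map_pow, r13_rotE_yy, mul_pow, ← map_pow, ← C_pow]
    rw [map_mul, h2, r13_rotE_ofPoly, ← mul_assoc, ← map_mul]
    congr 2
    rw [Nat.succ_mul, pow_add, C_mul]
    ring

/-- the terms of the norm -/
private noncomputable def TT (N : ℕ) (f : E[X]) (ζ : E) (p : ℕ → E[X]) (φ : Fin N → Fin N) :
    E[X] :=
  (∏ k : Fin N, (C (ζ ^ ((k : ℕ) * (φ k : ℕ))) * p (φ k))) * f ^ ((∑ k, (φ k : ℕ)) / N)

private noncomputable def HH (N : ℕ) (f : E[X]) (ζ : E) (p : ℕ → E[X]) (j : ℕ) : E[X] :=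
  ∑ φ ∈ (Finset.univ : Finset (Fin N → Fin N)).filter (fun φ => (∑ k, (φ k : ℕ)) % N = j),
    TT N f ζ p φ

private lemma r13_yy_pow (s : ℕ) :
    (yy : NRing N f) ^ s = ofPoly (f ^ (s / N)) * yy ^ (s % N) := by
  conv_lhs => rw [← Nat.div_add_mod s N]
  rw [pow_add, pow_mul, yy_pow, map_pow]

private lemma r13_norm_poly (hN : 0 < N) (ζ : E) (p : ℕ → E[X]) :
    ∏ k ∈ Finset.range N, (∑ j ∈ Finset.range N,
      (ofPoly (C (ζ ^ (k * j)) * p j) : NRing N f) * yy ^ j) =
      ∑ j ∈ Finset.range N, ofPoly (HH N f ζ p j) * yy ^ j := by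
  rw [Finset.prod_range]
  have h1 : ∀ k : Fin N, (∑ j ∈ Finset.range N,
      (ofPoly (C (ζ ^ ((k : ℕ) * j)) * p j) : NRing N f) * yy ^ j) =
      ∑ j : Fin N, (ofPoly (C (ζ ^ ((k : ℕ) * (j : ℕ))) * p j) : NRing N f) * yy ^ (j : ℕ) :=
    fun k => Finset.sum_range _
  rw [Finset.prod_congr rfl fun k _ => h1 k, Finset.prod_univ_sum, Fintype.piFinset_univ]
  have h2 : ∀ φ : Fin N → Fin N, (∏ k : Fin N,
      (ofPoly (C (ζ ^ ((k : ℕ) * (φ k : ℕ))) * p (φ k)) : NRing N f) * yy ^ (φ k : ℕ)) =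
      ofPoly (TT N f ζ p φ) * yy ^ ((∑ k, (φ k : ℕ)) % N) := by
    intro φ
    rw [Finset.prod_mul_distrib, Finset.prod_pow_eq_pow_sum, r13_yy_pow, TT, map_mul, map_prod]
    ring
  rw [Finset.sum_congr rfl fun φ _ => h2 φ]
  have h3 := Finset.sum_fiberwise_of_maps_to
    (s := (Finset.univ : Finset (Fin N → Fin N))) (t := Finset.range N)
    (g := fun φ => (∑ k, (φ k : ℕ)) % N)
    (fun φ _ => Finset.mem_range.mpr (Nat.mod_lt _ hN))
    (fun φ => (ofPoly (TT N f ζ p φ) : NRing N f) * yy ^ ((∑ k, (φ k : ℕ)) % N))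
  rw [← h3]
  refine Finset.sum_congr rfl fun j _ => ?_
  rw [HH, map_sum, Finset.sum_mul]
  refine Finset.sum_congr rfl fun φ hφ => ?_
  rw [(Finset.mem_filter.mp hφ).2]

/-- `i0` is the index of the maximal weight `w` -/
private structure Top (N m : ℕ) (p : ℕ → E[X]) (i0 w : ℕ) : Prop where
  lt : i0 < N
  ne : p i0 ≠ 0
  eq : N * (p i0).natDegree + i0 * m = w
  max : ∀ i < N, i ≠ i0 → p i ≠ 0 → N * (p i).natDegree + i * m < w

omit hG in
private lemma r13_top_inj {m : ℕ} (hc : m.Coprime N) {i j d e : ℕ} (hi : i < N) (hj : j < N)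
    (h : N * d + i * m = N * e + j * m) : i = j := by
  have h1 : i * m ≡ j * m [MOD N] := by
    have h2 : (N * d + i * m) % N = (N * e + j * m) % N := by rw [h]
    rw [Nat.mul_add_mod, Nat.mul_add_mod] at h2
    exact h2
  have h3 : i ≡ j [MOD N] := Nat.ModEq.cancel_right_of_coprime (by rwa [Nat.gcd_comm]) h1
  have h4 : i % N = j % N := h3
  rwa [Nat.mod_eq_of_lt hi, Nat.mod_eq_of_lt hj] at h4

omit hG in
private lemma r13_exists_top {m : ℕ} (hc : m.Coprime N) (p : ℕ → E[X])
    (h : ∃ i < N, p i ≠ 0) : ∃ i0 w, Top N m p i0 w := by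
  obtain ⟨i, hi, hpi⟩ := h
  have hne : ((Finset.range N).filter (fun i => p i ≠ 0)).Nonempty :=
    ⟨i, Finset.mem_filter.mpr ⟨Finset.mem_range.mpr hi, hpi⟩⟩
  obtain ⟨i0, hi0, hmax⟩ := Finset.exists_max_image _
    (fun i => N * (p i).natDegree + i * m) hne
  rw [Finset.mem_filter, Finset.mem_range] at hi0
  refine ⟨i0, _, hi0.1, hi0.2, rfl, ?_⟩
  intro j hj hji hpj
  have h1 := hmax j (Finset.mem_filter.mpr ⟨Finset.mem_range.mpr hj, hpj⟩)
  refine lt_of_le_of_ne h1 fun h2 => hji ?_
  exact r13_top_inj hc hj hi0.1 h2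

private lemma r13_TT_lt (hN : 0 < N) (ζ : E) (p : ℕ → E[X]) {i0 w : ℕ}
    (ht : Top N f.natDegree p i0 w) (φ : Fin N → Fin N) (hφ : ∃ k, (φ k : ℕ) ≠ i0) :
    (TT N f ζ p φ).coeff w = 0 ∧ (TT N f ζ p φ).natDegree ≤ w := by
  by_cases hz : ∃ k, p (φ k) = 0
  · obtain ⟨k, hk⟩ := hz
    have h0 : TT N f ζ p φ = 0 := by
      rw [TT, Finset.prod_eq_zero (Finset.mem_univ k) (by rw [hk, mul_zero]), zero_mul]
    rw [h0]
    simp
  · push Not at hz
    have h1 : (TT N f ζ p φ).natDegree ≤
        ∑ k : Fin N, (p (φ k)).natDegree + (∑ k, (φ k : ℕ)) / N * f.natDegree := by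
      rw [TT]
      refine natDegree_mul_le.trans (add_le_add ?_ natDegree_pow_le)
      refine (natDegree_prod_le _ _).trans (Finset.sum_le_sum fun k _ => ?_)
      exact natDegree_C_mul_le _ _
    have h2 : N * (TT N f ζ p φ).natDegree ≤
        ∑ k : Fin N, (N * (p (φ k)).natDegree + (φ k : ℕ) * f.natDegree) := by
      refine (Nat.mul_le_mul_left N h1).trans ?_
      rw [mul_add, Finset.sum_add_distrib, ← Finset.mul_sum, ← Finset.sum_mul, ← mul_assoc]
      refine Nat.add_le_add_left (Nat.mul_le_mul_right _ (Nat.mul_div_le _ _)) _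
    have h3 : ∑ k : Fin N, (N * (p (φ k)).natDegree + (φ k : ℕ) * f.natDegree) <
        ∑ _k : Fin N, w := by
      have hle : ∀ k : Fin N, N * (p (φ k)).natDegree + (φ k : ℕ) * f.natDegree ≤ w := by
        intro k
        by_cases h4 : (φ k : ℕ) = i0
        · rw [h4]
          exact ht.eq.le
        · exact (ht.max _ (φ k).2 h4 (hz k)).le
      obtain ⟨k, hk⟩ := hφ
      exact Finset.sum_lt_sum (fun k _ => hle k)
        ⟨k, Finset.mem_univ k, ht.max _ (φ k).2 hk (hz k)⟩
    rw [Finset.sum_const, Finset.card_univ, Fintype.card_fin, smul_eq_mul] at h3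
    have h4 : (TT N f ζ p φ).natDegree < w := by
      have := lt_of_le_of_lt h2 h3
      exact Nat.lt_of_mul_lt_mul_left this
    exact ⟨coeff_eq_zero_of_natDegree_lt h4, h4.le⟩

private lemma r13_f_ne (N : ℕ) {f : E[X]} [hG : IsGood N f] : f ≠ 0 := by
  intro h
  have h1 : f.natDegree ≠ 0 := natDegree_ne N f
  rw [h] at h1
  simp at h1

private lemma r13_TT_top (hN : 0 < N) (ζ : E) (h0 : ζ ≠ 0) (p : ℕ → E[X]) {i0 w : ℕ}
    (ht : Top N f.natDegree p i0 w) (φ : Fin N → Fin N) (hφ : ∀ k, (φ k : ℕ) = i0) :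
    (TT N f ζ p φ).coeff w ≠ 0 ∧ (TT N f ζ p φ).natDegree ≤ w := by
  have hf := r13_f_ne N (f := f)
  have hs : (∑ k, (φ k : ℕ)) / N = i0 := by
    rw [Finset.sum_congr rfl fun k _ => hφ k, Finset.sum_const, Finset.card_univ,
      Fintype.card_fin, smul_eq_mul, Nat.mul_div_cancel_left _ hN]
  have hfac : ∀ k : Fin N, C (ζ ^ ((k : ℕ) * (φ k : ℕ))) * p (φ k) ≠ 0 := by
    intro k
    refine mul_ne_zero (C_ne_zero.mpr (pow_ne_zero _ h0)) ?_
    rw [hφ k]
    exact ht.ne
  have hprod : (∏ k : Fin N, (C (ζ ^ ((k : ℕ) * (φ k : ℕ))) * p (φ k))) ≠ 0 :=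
    Finset.prod_ne_zero_iff.mpr fun k _ => hfac k
  have hne : TT N f ζ p φ ≠ 0 := mul_ne_zero hprod (pow_ne_zero _ hf)
  have hdeg : (TT N f ζ p φ).natDegree = w := by
    rw [TT, natDegree_mul hprod (pow_ne_zero _ hf), natDegree_pow, hs,
      natDegree_prod _ _ fun k _ => hfac k]
    have h1 : ∀ k : Fin N, (C (ζ ^ ((k : ℕ) * (φ k : ℕ))) * p (φ k)).natDegree =
        (p i0).natDegree := by
      intro k
      rw [natDegree_C_mul (pow_ne_zero _ h0), hφ k]
    rw [Finset.sum_congr rfl fun k _ => h1 k, Finset.sum_const, Finset.card_univ,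
      Fintype.card_fin, smul_eq_mul]
    exact ht.eq
  refine ⟨?_, hdeg.le⟩
  rw [← hdeg, coeff_natDegree, leadingCoeff_ne_zero]
  exact hne

private lemma r13_HH (hN : 0 < N) (ζ : E) (h0 : ζ ≠ 0) (p : ℕ → E[X]) {i0 w : ℕ}
    (ht : Top N f.natDegree p i0 w) : (HH N f ζ p 0).natDegree = w := by
  set φ0 : Fin N → Fin N := fun _ => ⟨i0, ht.lt⟩ with hφ0
  have hmem : φ0 ∈ (Finset.univ : Finset (Fin N → Fin N)).filter
      (fun φ => (∑ k, (φ k : ℕ)) % N = 0) := by
    rw [Finset.mem_filter]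
    refine ⟨Finset.mem_univ _, ?_⟩
    rw [hφ0]
    simp
  have hother : ∀ φ : Fin N → Fin N, φ ≠ φ0 → ∃ k, (φ k : ℕ) ≠ i0 := by
    intro φ hφ
    by_contra hno
    push Not at hno
    exact hφ (_root_.funext fun k => Fin.ext (hno k))
  apply natDegree_eq_of_le_of_coeff_ne_zero
  · rw [HH]
    refine natDegree_sum_le_of_forall_le _ _ fun φ _ => ?_
    by_cases h1 : φ = φ0
    · rw [h1]
      exact (r13_TT_top hN ζ h0 p ht φ0 fun k => rfl).2
    · exact (r13_TT_lt hN ζ p ht φ (hother φ h1)).2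
  · rw [HH, finset_sum_coeff, Finset.sum_eq_single φ0]
    · exact (r13_TT_top hN ζ h0 p ht φ0 fun k => rfl).1
    · intro φ _ h1
      exact (r13_TT_lt hN ζ p ht φ (hother φ h1)).1
    · intro h1
      exact absurd hmem h1

omit hG in
private lemma r13_dg_add (D D' : Pt N f →₀ ℤ) : dg (D + D') = dg D + dg D' := by
  unfold dg
  exact Finsupp.sum_add_index' (fun _ => rfl) (fun _ _ _ => rfl)

omit hG in
private lemma r13_dg_neg (D : Pt N f →₀ ℤ) : dg (-D) = - dg D := by
  have h := r13_dg_add D (-D)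
  rw [add_neg_cancel] at h
  have h0 : dg (0 : Pt N f →₀ ℤ) = 0 := by simp [dg]
  rw [h0] at h
  linarith

/-- the degree of the divisor of an element of the coordinate ring -/
private lemma r13_dg (ζ : E) (hζ : IsPrimitiveRoot ζ N) (p : ℕ → E[X]) (u : (FunField N f)ˣ)
    (hu : (u : FunField N f) = algebraMap (NRing N f) (FunField N f)
      (∑ j ∈ Finset.range N, ofPoly (p j) * yy ^ j)) {i0 w : ℕ}
    (ht : Top N f.natDegree p i0 w) : dg (div u) = w := by
  have hN : 0 < N := hG.pos
  have h0 : ζ ≠ 0 := hζ.ne_zero hN.ne'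
  obtain ⟨c, hc⟩ := exists_nrm_eq ζ hζ h0 u
  have hnn : ∀ P, 0 ≤ div u P := fun P => ord_nonneg P _ u hu
  -- the right hand side
  set G0 : E[X] := ∏ P ∈ (div u).support, (X - C P.x) ^ (div u P).toNat with hG0
  have hxp : ((xprod (div u) : (FunField N f)ˣ) : FunField N f) =
      algebraMap (NRing N f) (FunField N f) (ofPoly G0) := by
    rw [xprod, Finsupp.prod, hG0, map_prod, map_prod, Units.coe_prod]
    refine Finset.prod_congr rfl fun P _ => ?_
    have h1 : div u P = ((div u P).toNat : ℤ) := (Int.toNat_of_nonneg (hnn P)).symm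
    rw [h1, zpow_natCast, Units.val_pow_eq_pow_val, map_pow, map_pow, Int.toNat_natCast]
    rfl
  have hcst : ((cstU c : (FunField N f)ˣ) : FunField N f) =
      algebraMap (NRing N f) (FunField N f) (ofPoly (C (c : E))) := rfl
  have hlhs : ((nrm ζ hζ.pow_eq_one h0 u : (FunField N f)ˣ) : FunField N f) =
      algebraMap (NRing N f) (FunField N f) (∑ j ∈ Finset.range N, ofPoly (HH N f ζ p j) * yy ^ j) := by
    rw [nrm, Units.coe_prod, ← r13_norm_poly hN, map_prod]
    exact Finset.prod_congr rfl fun k _ => r13_rot ζ hζ.pow_eq_one h0 p u hu k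
  have heq : (∑ j ∈ Finset.range N, ofPoly (HH N f ζ p j) * yy ^ j : NRing N f) =
      ofPoly (C (c : E) * G0) := by
    apply IsFractionRing.injective (NRing N f) (FunField N f)
    rw [← hlhs, hc, Units.val_mul, hcst, hxp, map_mul, map_mul]
  have huniq := expand_unique_ring (N := N) (f := f)
    (fun j => HH N f ζ p j - if j = 0 then C (c : E) * G0 else 0) (by
      simp only [map_sub, sub_mul, Finset.sum_sub_distrib]
      rw [heq]
      rw [Finset.sum_eq_single 0]
      · simp
      · intro j _ hj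
        rw [if_neg hj, map_zero, zero_mul]
      · intro h
        exact absurd (Finset.mem_range.mpr hN) h)
  have hH0 := huniq 0 hN
  rw [if_pos rfl, sub_eq_zero] at hH0
  have hdeg := r13_HH hN ζ h0 p ht
  rw [hH0, natDegree_C_mul c.ne_zero, hG0, natDegree_prod _ _ fun P _ =>
    pow_ne_zero _ (X_sub_C_ne_zero _)] at hdeg
  rw [dg, Finsupp.sum, ← hdeg]
  push_cast
  refine Finset.sum_congr rfl fun P _ => ?_
  rw [natDegree_pow, natDegree_X_sub_C, mul_one]
  exact (Int.toNat_of_nonneg (hnn P)).symm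

lemma exists_const_of_dg_eq_zero (ζ : E) (hζ : IsPrimitiveRoot ζ N) (h : (FunField N f)ˣ)
    (hd : dg (div h) = 0) :
    ∃ c : E, (h : FunField N f) = cst c ∨ ∃ w : (FunField N f)ˣ,
      (w : FunField N f) = (h : FunField N f) - (cst c : FunField N f) ∧ dg (div w) < 0 := by
  have hN : 0 < N := hG.pos
  have hc := hG.coprime
  obtain ⟨a, b, p, q, hb0, hp, hq, hab⟩ := exists_quot (h : FunField N f)
  have ha0 : a ≠ 0 := by
    rintro rfl
    rw [map_zero, zero_div] at hab
    exact h.ne_zero hab.symm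
  have hinj := IsFractionRing.injective (NRing N f) (FunField N f)
  have hex : ∀ (r : ℕ → E[X]) (x : NRing N f), x = ∑ i ∈ Finset.range N, ofPoly (r i) * yy ^ i →
      x ≠ 0 → ∃ i < N, r i ≠ 0 := by
    intro r x hx hx0
    by_contra hno
    push Not at hno
    apply hx0
    rw [hx]
    refine Finset.sum_eq_zero fun i hi => ?_
    rw [hno i (Finset.mem_range.mp hi), map_zero, zero_mul]
  have hmapne : ∀ x : NRing N f, x ≠ 0 → algebraMap (NRing N f) (FunField N f) x ≠ 0 := fun x hx h1 =>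
    hx (hinj (by rw [h1, map_zero]))
  obtain ⟨ia, wa, hta⟩ := r13_exists_top hc p (hex p a hp ha0)
  obtain ⟨ib, wb, htb⟩ := r13_exists_top hc q (hex q b hq hb0)
  set ua : (FunField N f)ˣ := Units.mk0 _ (hmapne a ha0) with hua
  set ub : (FunField N f)ˣ := Units.mk0 _ (hmapne b hb0) with hub
  have hda : dg (div ua) = wa := r13_dg ζ hζ p ua (by rw [← hp]; rfl) hta
  have hdb : dg (div ub) = wb := r13_dg ζ hζ q ub (by rw [← hq]; rfl) htb
  have hh : h = ua * ub⁻¹ := by
    apply Units.ext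
    rw [Units.val_mul, Units.val_inv_eq_inv_val, ← div_eq_mul_inv, ← hab]
    rfl
  have hdeg : dg (div h) = wa - wb := by
    rw [hh, div_mul, div_inv, r13_dg_add, r13_dg_neg, hda, hdb]
    ring
  have hw : wa = wb := by
    rw [hd] at hdeg
    omega
  subst hw
  have hi : ia = ib := r13_top_inj hc hta.lt htb.lt (hta.eq.trans htb.eq.symm)
  subst hi
  have hdd : (p ia).natDegree = (q ia).natDegree := by
    have h1 := hta.eq.trans htb.eq.symm
    have h2 : N * (p ia).natDegree = N * (q ia).natDegree := by omega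
    exact Nat.eq_of_mul_eq_mul_left hN h2
  set c : E := (p ia).leadingCoeff / (q ia).leadingCoeff with hcdef
  have hlq : (q ia).leadingCoeff ≠ 0 := leadingCoeff_ne_zero.mpr htb.ne
  have hlp : (p ia).leadingCoeff ≠ 0 := leadingCoeff_ne_zero.mpr hta.ne
  have hc0 : c ≠ 0 := div_ne_zero hlp hlq
  refine ⟨c, ?_⟩
  have hcstc : (cst c : FunField N f) = algebraMap (NRing N f) (FunField N f) (ofPoly (C c)) := rfl
  have hbF := hmapne b hb0
  by_cases hz : a - ofPoly (C c) * b = 0
  · left
    rw [← hab, hcstc, div_eq_iff hbF, ← map_mul, sub_eq_zero.mp hz]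
  · right
    set v : (FunField N f)ˣ := Units.mk0 _ (hmapne _ hz) with hv
    refine ⟨v * ub⁻¹, ?_, ?_⟩
    · rw [Units.val_mul, Units.val_inv_eq_inv_val, ← div_eq_mul_inv, ← hab, hcstc]
      have h1 : (v : FunField N f) = algebraMap (NRing N f) (FunField N f) (a - ofPoly (C c) * b) := rfl
      have h2 : (ub : FunField N f) = algebraMap (NRing N f) (FunField N f) b := rfl
      rw [h1, h2, map_sub, map_mul]
      field_simp
    · set r : ℕ → E[X] := fun i => p i - C c * q i with hr
      have hrexp : a - ofPoly (C c) * b = ∑ i ∈ Finset.range N, ofPoly (r i) * yy ^ i := by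
        conv_lhs => rw [hp, hq]
        rw [Finset.mul_sum, ← Finset.sum_sub_distrib]
        refine Finset.sum_congr rfl fun i _ => ?_
        rw [hr]
        simp only [map_sub, map_mul]
        ring
      obtain ⟨iv, wv, htv⟩ := r13_exists_top hc r (hex r _ hrexp hz)
      have hdv : dg (div v) = wv := r13_dg ζ hζ r v (by rw [← hrexp]; rfl) htv
      have hlt : wv < wa := by
        rw [← htv.eq]
        by_cases hiv : iv = ia
        · have h1 : (r iv).natDegree < (p ia).natDegree := by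
            rw [hiv]
            have h2 : (r ia).degree < (p ia).degree := by
              rw [hr]
              refine degree_sub_lt ?_ hta.ne ?_
              · rw [degree_C_mul hc0, degree_eq_natDegree hta.ne, degree_eq_natDegree htb.ne, hdd]
              · rw [leadingCoeff_mul, leadingCoeff_C, hcdef, div_mul_cancel₀ _ hlq]
            have h3 : r ia ≠ 0 := by
              rw [← hiv]
              exact htv.ne
            exact (natDegree_lt_natDegree_iff h3).mpr h2
          have h4 := hta.eq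
          have h5 : N * (r iv).natDegree < N * (p ia).natDegree :=
            Nat.mul_lt_mul_of_pos_left h1 hN
          rw [hiv] at h5 ⊢
          omega
        · have h1 : (r iv).natDegree ≤ max (p iv).natDegree (q iv).natDegree := by
            rw [hr]
            refine (natDegree_sub_le _ _).trans (max_le_max le_rfl (natDegree_C_mul_le _ _))
          have h6 : ∀ s : ℕ → E[X], Top N f.natDegree s ia wa → s iv ≠ 0 →
              N * (s iv).natDegree + iv * f.natDegree < wa := fun s hs h7 =>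
            hs.max iv htv.lt hiv h7
          by_cases hp0 : p iv = 0
          · have hq0 : q iv ≠ 0 := by
              intro h8
              apply htv.ne
              rw [hr]
              simp only [hp0, h8, mul_zero, sub_zero]
            have h9 := h6 q htb hq0
            rw [hp0, natDegree_zero, max_eq_right (Nat.zero_le _)] at h1
            have := Nat.mul_le_mul_left N h1
            omega
          · have h9 := h6 p hta hp0
            by_cases hq0 : q iv = 0
            · rw [hq0, natDegree_zero, max_eq_left (Nat.zero_le _)] at h1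
              have := Nat.mul_le_mul_left N h1
              omega
            · have h10 := h6 q htb hq0
              rcases le_total (p iv).natDegree (q iv).natDegree with h11 | h11
              · rw [max_eq_right h11] at h1
                have := Nat.mul_le_mul_left N h1
                omega
              · rw [max_eq_left h11] at h1
                have := Nat.mul_le_mul_left N h1
                omega
      rw [div_mul, div_inv, r13_dg_add, r13_dg_neg, hdv, hdb]
      have : (wv : ℤ) < wa := by exact_mod_cast hlt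
      linarith

end Pool.Agent.Lib.MP_89bcae_ag.Wt

end

section

/-!
ROW R12 (200-350 lines). `a - x` is a norm (an explicit form of Tsen's theorem).

STATEMENT: for every `a` in `E` there is a function `h` with `∏_{i<N} h(x, ζ^i y) = x - a`.

PROOF. `V = E(z)`, `z` a variable, is a vector space of dimension `N` over its subfield
`E(x)`, `x := a - z^N`, with basis `1, z, ..., z^(N-1)`. Let `s` be the `E`-automorphism `z ↦ ζ z`
of `V`; it fixes `x`. Write `f = c ∏_i (X - r_i)` (roots `r_i`), `s_i^N = a - r_i`, `d^N = c`,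
`H = d ∏_i (s_i - z)` in `V`. As `∏_{j<N} (s_i - ζ^j z) = s_i^N - z^N = x - r_i`, we have
`∏_{j<N} s^j(H) = f(x)`. So `Y : V → V, v ↦ H s(v)`, which is `E(x)`-linear, satisfies
`Y^N = f(x)` and `V` becomes a vector space over `K = E(x)(y)` with `y v = Y(v)`, of dimension
`1` (as `[K : E(x)] = N`; only needed: `u ↦ u · 1` from `K` to `V` is injective (`K` is a field) and
`E(x)`-linear between spaces of the same dimension `N`, so bijective). Let `h` in `K` with
`h · 1 = z`. For all `u` in `K`: `z · (u · 1) = rot⁻¹(u) · z` where `rot : y ↦ ζ y`: indeed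
`z Y(v) = z H s(v) = ζ⁻¹ H s(z v) = ζ⁻¹ Y(z v)`, so multiplication by `z` satisfies
`z ∘ y = (ζ⁻¹ y) ∘ z`. Hence `z^N = z^N · 1 = (∏_{i<N} rot^{-i}(h)) · 1`, and
`z^N = a - x = (a - x) · 1`, so `∏ rot^i(h) = a - x`. Finally `-1 = ∏ rot^i(e)` with the constant
`e`, `e^N = -1`, so `x - a` is a norm too.
One can avoid fields: to have the result in the coordinate ring up to `E(x)` it is enough to
find a nonzero `w = ∑ p_i(x) y^i` in the coordinate ring and nonzero `q(x)` with `w · 1 = q(x) z` in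
`E[z]`: exists by linear algebra over `E(x)`; then `nrm w = q^N (a - x)` and `h = w / q`.
-/

open Polynomial IsDedekindDomain

open scoped Classical

namespace Pool.Agent.Lib.MP_89bcae_ag.Wt

universe u

variable {N : ℕ} {E : Type u} [Field E] {f : E[X]} [hG : IsGood N f]

lemma exists_nrm_eq_xs (ζ : E) (hζ : IsPrimitiveRoot ζ N) (h0 : ζ ≠ 0) (a : E) :
    ∃ h : (FunField N f)ˣ, nrm ζ hζ.pow_eq_one h0 h = xs a := by
  have hl : 0 < N := hG.pos
  have : IsAlgClosed E := hG.alg
  obtain ⟨w', q, hq, hw0', hmain'⟩ := Sup.r12_main_wt (f := f) hG.one_lt ζ hζ h0 a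
  obtain ⟨w, hw⟩ : ∃ w : NRing N f, w = toN w' := ⟨_, rfl⟩
  have hw0 : w ≠ 0 := by
    rw [hw]
    exact fun h => hw0' (toN_injective (h.trans (map_zero _).symm))
  have hmain : ∏ i ∈ Finset.range N, (rotC ζ hζ.pow_eq_one)^[i] w = ofPoly (q ^ N * (C a - X)) := by
    rw [← toN_ofPoly, ← hmain', map_prod, hw]
    exact Finset.prod_congr rfl fun i _ => (toN_rotC_iter ζ hζ.pow_eq_one i w').symm
  obtain ⟨e, he⟩ := IsAlgClosed.exists_pow_nat_eq (-1 : E) hl
  have he0 : e ≠ 0 := by
    intro h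
    rw [h, zero_pow hl.ne'] at he
    exact one_ne_zero (neg_eq_zero.mp he.symm)
  have hinj : Function.Injective (algebraMap (NRing N f) (FunField N f)) :=
    IsFractionRing.injective (NRing N f) (FunField N f)
  set wU : (FunField N f)ˣ := Units.mk0 (algebraMap (NRing N f) (FunField N f) w)
    (by rwa [Ne, map_eq_zero_iff _ hinj]) with hwU
  have hrot : ∀ (u : NRing N f), rotE ζ hζ.pow_eq_one h0 u = rotC ζ hζ.pow_eq_one u := fun u => rfl
  have hit : ∀ i : ℕ, (((rotU ζ hζ.pow_eq_one h0)^[i] wU : (FunField N f)ˣ) : FunField N f) =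
      algebraMap (NRing N f) (FunField N f) ((rotC ζ hζ.pow_eq_one)^[i] w) := by
    intro i
    induction i with
    | zero => rfl
    | succ i ih =>
      rw [Function.iterate_succ_apply', Function.iterate_succ_apply']
      show (autF (rotE ζ hζ.pow_eq_one h0)) (((rotU ζ hζ.pow_eq_one h0)^[i] wU : (FunField N f)ˣ) :
        FunField N f) = _
      rw [ih, autF_algebraMap, hrot]
  have hnw : ((nrm ζ hζ.pow_eq_one h0 wU : (FunField N f)ˣ) : FunField N f) =
      algebraMap (NRing N f) (FunField N f) (ofPoly (q ^ N * (C a - X))) := by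
    unfold nrm
    rw [← hmain, Units.coe_prod, map_prod]
    exact Finset.prod_congr rfl fun i _ => hit i
  have hnq : nrm ζ hζ.pow_eq_one h0 (polyU q hq : (FunField N f)ˣ) = (polyU q hq) ^ N := by
    unfold nrm
    have h1 : ∀ i : ℕ, (rotU ζ hζ.pow_eq_one h0)^[i] (polyU q hq : (FunField N f)ˣ) = polyU q hq := by
      intro i
      induction i with
      | zero => rfl
      | succ i ih => rw [Function.iterate_succ_apply', ih, rotU_polyU]
    rw [Finset.prod_congr rfl (fun i _ => h1 i), Finset.prod_const, Finset.card_range]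
  have hkey : nrm ζ hζ.pow_eq_one h0 (wU * cstU (Units.mk0 e he0)) =
      nrm ζ hζ.pow_eq_one h0 (polyU q hq) * xs a := by
    rw [nrm_mul, nrm_cstU, hnq]
    apply Units.ext
    rw [Units.val_mul, Units.val_mul, hnw, Units.val_pow_eq_pow_val]
    have h1 : ((cstU (Units.mk0 e he0 ^ N) : (FunField N f)ˣ) : FunField N f) =
        algebraMap (NRing N f) (FunField N f) (ofPoly (C (-1))) := by
      have h2 : ((cstU (Units.mk0 e he0 ^ N) : (FunField N f)ˣ) : FunField N f) =
        algebraMap (NRing N f) (FunField N f) (ofPoly (C (e ^ N))) := by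
        show (cst (((Units.mk0 e he0) ^ N : Eˣ) : E) : FunField N f) = _
        rw [Units.val_pow_eq_pow_val]
        rfl
      rw [h2, he]
    have h3 : ((polyU q hq : (FunField N f)ˣ) : FunField N f) =
        algebraMap (NRing N f) (FunField N f) (ofPoly q) := rfl
    have h4 : ((xs a : (FunField N f)ˣ) : FunField N f) =
        algebraMap (NRing N f) (FunField N f) (ofPoly (X - C a)) := rfl
    rw [h1, h3, h4, ← map_mul, ← map_mul, ← map_pow, ← map_pow, ← map_mul, ← map_mul]
    congr 2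
    rw [C_neg, C_1]
    ring
  refine ⟨wU * cstU (Units.mk0 e he0) * (polyU q hq)⁻¹, ?_⟩
  have h5 : nrm ζ hζ.pow_eq_one h0 (wU * cstU (Units.mk0 e he0) * (polyU q hq)⁻¹) *
      nrm ζ hζ.pow_eq_one h0 (polyU q hq) =
      nrm ζ hζ.pow_eq_one h0 (wU * cstU (Units.mk0 e he0)) := by
    rw [← nrm_mul, inv_mul_cancel_right]
  rw [hkey, mul_comm (nrm ζ hζ.pow_eq_one h0 (polyU q hq)) (xs a)] at h5
  exact mul_right_cancel h5

end Pool.Agent.Lib.MP_89bcae_ag.Wt

end

section

namespace Pool.Agent.Lib.MP_89bcae_ag.Wt.Lns.LocCtx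
end Pool.Agent.Lib.MP_89bcae_ag.Wt.Lns.LocCtx


/-!
# The normalization
-/

open Polynomial IsDedekindDomain IsLocalRing

open scoped Classical

namespace Pool.Agent.Lib.MP_89bcae_ag.Brt



open Pool.Agent.Lib.MP_89bcae_ag.Wt Pool.Agent.Lib.MP_89bcae_ag.Wt.Lns Pool.Agent.Lib.MP_89bcae_ag.Bra

/-! ROW B1 -/

section

variable {A : Type} [Field A] {ℓ : ℕ} {f : A[X]} [hG : IsGood ℓ f]


/-- The sum of the powers of a root of unity. -/
lemma B1a_geom {ζ : A} (hζ : IsPrimitiveRoot ζ ℓ) {i k : ℕ} (hi : i < ℓ) (hk : k < ℓ) :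
    ∑ j ∈ Finset.range ℓ, (ζ ^ (i + (ℓ - k))) ^ j = if i = k then (ℓ : A) else 0 := by
  split_ifs with h
  · subst h
    have h1 : i + (ℓ - i) = ℓ := by omega
    rw [h1, hζ.pow_eq_one]
    simp
  · have h1 : ζ ^ (i + (ℓ - k)) ≠ 1 := by
      intro h2
      have h3 := (hζ.pow_eq_one_iff_dvd _).1 h2
      obtain ⟨c, hc⟩ := h3
      rcases Nat.lt_or_ge c 1 with hc1 | hc1
      · interval_cases c
        omega
      · rcases Nat.lt_or_ge c 2 with hc2 | hc2
        · have : c = 1 := by omega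
          subst this
          omega
        · have : ℓ * 2 ≤ ℓ * c := Nat.mul_le_mul_left _ hc2
          omega
    have h2 : (∑ j ∈ Finset.range ℓ, (ζ ^ (i + (ℓ - k))) ^ j) * (ζ ^ (i + (ℓ - k)) - 1) = 0 := by
      rw [geom_sum_mul, ← pow_mul, mul_comm, pow_mul, hζ.pow_eq_one, one_pow, sub_self]
    rcases mul_eq_zero.1 h2 with h3 | h3
    · exact h3
    · exact absurd (sub_eq_zero.1 h3) h1

/-- The components of an integral element are integral. -/
lemma B1a_comp {ζ : A} (hζ : IsPrimitiveRoot ζ ℓ) (r : ℕ → RatFunc A)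
    (ha : (∑ i ∈ Finset.range ℓ, AdjoinRoot.of _ (r i) * yF ^ i : FunField ℓ f) ∈
      integralClosure A[X] (FunField ℓ f)) {k : ℕ} (hk : k < ℓ) :
    (AdjoinRoot.of _ (r k) * yF ^ k : FunField ℓ f) ∈ integralClosure A[X] (FunField ℓ f) := by
  have hj : ∀ j : ℕ, (ζ ^ j) ^ ℓ = 1 := fun j => by
    rw [← pow_mul, mul_comm, pow_mul, hζ.pow_eq_one, one_pow]
  have h1 : ∀ j : ℕ, rotF (ζ ^ j) (hj j)
      (∑ i ∈ Finset.range ℓ, AdjoinRoot.of _ (r i) * yF ^ i : FunField ℓ f) =
      ∑ i ∈ Finset.range ℓ, polyF (C ((ζ ^ j) ^ i)) * (AdjoinRoot.of _ (r i) * yF ^ i) := by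
    intro j
    rw [map_sum]
    refine Finset.sum_congr rfl fun i _ => ?_
    rw [map_mul, map_pow, R10_rotF_of, rotF_yF, mul_pow, ← map_pow, ← C_pow]
    ring
  have h2 : polyF (C (ℓ : A)) * (AdjoinRoot.of _ (r k) * yF ^ k : FunField ℓ f) =
      ∑ j ∈ Finset.range ℓ, polyF (C ((ζ ^ (ℓ - k)) ^ j)) * rotF (ζ ^ j) (hj j)
        (∑ i ∈ Finset.range ℓ, AdjoinRoot.of _ (r i) * yF ^ i : FunField ℓ f) := by
    have h3 : ∀ j ∈ Finset.range ℓ, polyF (C ((ζ ^ (ℓ - k)) ^ j)) * rotF (ζ ^ j) (hj j)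
        (∑ i ∈ Finset.range ℓ, AdjoinRoot.of _ (r i) * yF ^ i : FunField ℓ f) =
        ∑ i ∈ Finset.range ℓ, polyF (C ((ζ ^ (i + (ℓ - k))) ^ j)) *
          (AdjoinRoot.of _ (r i) * yF ^ i) := by
      intro j _
      rw [h1 j, Finset.mul_sum]
      refine Finset.sum_congr rfl fun i _ => ?_
      rw [← mul_assoc, ← map_mul, ← C_mul]
      congr 3
      rw [pow_add, mul_pow, ← pow_mul ζ j i, ← pow_mul ζ i j, mul_comm j i]
      ring
    rw [Finset.sum_congr rfl h3, Finset.sum_comm]
    have h4 : ∀ i ∈ Finset.range ℓ, ∑ j ∈ Finset.range ℓ, polyF (C ((ζ ^ (i + (ℓ - k))) ^ j)) *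
        (AdjoinRoot.of _ (r i) * yF ^ i : FunField ℓ f) =
        if i = k then polyF (C (ℓ : A)) * (AdjoinRoot.of _ (r i) * yF ^ i) else 0 := by
      intro i hi
      rw [← Finset.sum_mul, ← map_sum, ← map_sum, B1a_geom hζ (Finset.mem_range.1 hi) hk]
      split_ifs
      · rfl
      · rw [map_zero, map_zero, zero_mul]
    rw [Finset.sum_congr rfl h4, Finset.sum_ite_eq' , if_pos (Finset.mem_range.2 hk)]
  have h5 : polyF (C (ℓ : A)) * (AdjoinRoot.of _ (r k) * yF ^ k : FunField ℓ f) ∈
      integralClosure A[X] (FunField ℓ f) := by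
    rw [h2]
    refine sum_mem fun j _ => mul_mem ?_ ?_
    · exact (ofPoly (C ((ζ ^ (ℓ - k)) ^ j)) : NRing ℓ f).2
    · exact rotF_isIntegral (ζ ^ j) (hj j) ⟨_, ha⟩
  have h6 : (AdjoinRoot.of _ (r k) * yF ^ k : FunField ℓ f) = polyF (C ((ℓ : A)⁻¹)) *
      (polyF (C (ℓ : A)) * (AdjoinRoot.of _ (r k) * yF ^ k : FunField ℓ f)) := by
    rw [← mul_assoc, ← map_mul, ← C_mul, inv_mul_cancel₀ hG.ne_zero, C_1, map_one, one_mul]
  rw [h6]
  exact mul_mem (ofPoly (C ((ℓ : A)⁻¹)) : NRing ℓ f).2 h5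

/-- A rational function whose product with a power of `y` is integral is a polynomial. -/
lemma B1a_poly (hf : f.Separable) (r : RatFunc A) {k : ℕ} (hk : k < ℓ)
    (h : (AdjoinRoot.of _ r * yF ^ k : FunField ℓ f) ∈ integralClosure A[X] (FunField ℓ f)) :
    ∃ p : A[X], (AdjoinRoot.of _ r : FunField ℓ f) = polyF p := by
  have hy : (yF : FunField ℓ f) ∈ integralClosure A[X] (FunField ℓ f) := yF_integral hG.ne
  have e0 : (AdjoinRoot.of _ (algebraMap A[X] (RatFunc A) f) : FunField ℓ f) = polyF f :=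
    (polyF_eq f).symm
  have h1 : (AdjoinRoot.of _ (r * algebraMap A[X] (RatFunc A) f) : FunField ℓ f) ∈
      integralClosure A[X] (FunField ℓ f) := by
    have e1 : (AdjoinRoot.of _ (r * algebraMap A[X] (RatFunc A) f) : FunField ℓ f) =
        (AdjoinRoot.of _ r * yF ^ k) * yF ^ (ℓ - k) := by
      rw [map_mul, e0, ← yF_pow, mul_assoc, ← pow_add, Nat.add_sub_cancel' hk.le]
    rw [e1]
    exact mul_mem h (pow_mem hy _)
  obtain ⟨g, hg⟩ := exists_poly_of_integral _ h1
  have h2 : (AdjoinRoot.of _ (r ^ ℓ * (algebraMap A[X] (RatFunc A) f) ^ k) : FunField ℓ f) ∈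
      integralClosure A[X] (FunField ℓ f) := by
    have e1 : (AdjoinRoot.of _ (r ^ ℓ * (algebraMap A[X] (RatFunc A) f) ^ k) : FunField ℓ f) =
        (AdjoinRoot.of _ r * yF ^ k) ^ ℓ := by
      rw [map_mul, map_pow, map_pow, e0, ← yF_pow, mul_pow, ← pow_mul, ← pow_mul, mul_comm k ℓ]
    rw [e1]
    exact pow_mem h _
  obtain ⟨P, hP⟩ := exists_poly_of_integral _ h2
  have hg' : r * algebraMap A[X] (RatFunc A) f = algebraMap A[X] (RatFunc A) g := by
    rw [polyF_eq] at hg
    exact (AdjoinRoot.of _).injective hg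
  have hP' : r ^ ℓ * (algebraMap A[X] (RatFunc A) f) ^ k = algebraMap A[X] (RatFunc A) P := by
    rw [polyF_eq] at hP
    exact (AdjoinRoot.of _).injective hP
  have h3 : g ^ ℓ = P * f ^ (ℓ - k) := by
    apply IsFractionRing.injective A[X] (RatFunc A)
    rw [map_pow, map_mul, map_pow, ← hg', ← hP', mul_pow, mul_assoc, ← pow_add,
      Nat.add_sub_cancel' hk.le]
  have h4 : f ∣ g := by
    refine hf.squarefree.isRadical ℓ g ?_
    rw [h3]
    exact Dvd.dvd.mul_left (dvd_pow_self f (by omega)) P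
  obtain ⟨p, rfl⟩ := h4
  refine ⟨p, ?_⟩
  rw [polyF_eq]
  congr 1
  have hf0 : algebraMap A[X] (RatFunc A) f ≠ 0 := fun h =>
    f_ne_zero ℓ f (IsFractionRing.injective A[X] (RatFunc A) (h.trans (map_zero _).symm))
  apply mul_right_cancel₀ hf0
  rw [hg', map_mul, mul_comm]

/-- PROOF. Injective: `CoordRing ℓ f = A[x][y] / (y ^ ℓ - f)` is free over `A[x]` with basis `y ^ i`, `i < ℓ`
(`AdjoinRoot.powerBasis'`, the polynomial is monic), and `FunField ℓ f = A(x)[y] / (y ^ ℓ - f)` over `A(x)` too. Surjective: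
let `a = ∑ a_i y ^ i` in `FunField`, `a_i` in `A(x)`, `i < ℓ`, be integral over `A[x]`. For the primitive `ℓ`-th root of unity
`ζ` of `A` (`A` is algebraically closed, `ℓ ≠ 0`) `rotF ζ ^ j` maps integral elements to integral elements
(`rotF_isIntegral`), and `∑ j < ℓ, ζ ^ (-i j) rotF ζ ^ j a = ℓ a_i y ^ i`, so `a_i y ^ i` is integral, and so is its `ℓ`-th power
`a_i ^ ℓ f ^ i` in `A(x)`: a polynomial (`A[x]` is integrally closed). Write `a_i = p / q` in lowest terms: `q ^ ℓ ∣ f ^ i`, `i < ℓ`; if an irreducible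
`π` divides `q` then `π ^ ℓ ∣ f ^ i`, but `π ^ 2` does not divide `f` (separable, so squarefree), so `π ^ (i + 1)` does not divide
`f ^ i`. So `q` is a unit and `a_i` is a polynomial. (See whether `Wt` already has the decomposition of the elements of `NRing`; for the
separable `f` all the `wt` are `1`.) -/
theorem toN_bijective (hℓ : ℓ.Prime) (hf : f.Separable) : Function.Bijective (toN ℓ f) := by
  have := hG.alg
  have hN : NeZero (ℓ : A) := ⟨hG.ne_zero⟩
  obtain ⟨ζ, hζ⟩ := HasEnoughRootsOfUnity.exists_primitiveRoot A ℓ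
  refine ⟨?_, fun a => ?_⟩
  · exact Wt.toN_injective
  · obtain ⟨r, hr⟩ := exists_expandF (a : FunField ℓ f)
    have h1 : ∀ i, ∃ p : A[X], i < ℓ → (AdjoinRoot.of _ (r i) : FunField ℓ f) = polyF p := by
      intro i
      by_cases hi : i < ℓ
      · obtain ⟨p, hp⟩ := B1a_poly hf (r i) hi (B1a_comp hζ r (hr ▸ a.2) hi)
        exact ⟨p, fun _ => hp⟩
      · exact ⟨0, fun h => absurd h hi⟩
    choose p hp using h1
    refine ⟨(∑ i ∈ Finset.range ℓ, Sup.ofPoly (p i) * Sup.yy ^ i : Sup.Coord ℓ f), ?_⟩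
    apply Subtype.ext
    refine (toN_expand (N := ℓ) (f := f) p (Finset.range ℓ)).trans ?_
    rw [hr]
    exact Finset.sum_congr rfl fun i hi => by rw [hp i (Finset.mem_range.1 hi)]

end

end Pool.Agent.Lib.MP_89bcae_ag.Brt

end
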