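import Mathlib
import Pool.Agent.Lib.MP_89bcae_ag.Tk.K000
import Pool.Agent.Lib.MP_89bcae_ag.Tk.K006
import Pool.Agent.Lib.MP_89bcae_ag.Tk.K008
import Pool.Agent.Lib.MP_89bcae_ag.Tk.K017
import Pool.Agent.Lib.MP_89bcae_ag.Tk.K018

set_option linter.all false

section

attribute [local instance 100000] Pool.Agent.Lib.MP_89bcae_ag.Brt.tffFields
attribute [local instance 100000] Pool.Agent.Lib.MP_89bcae_ag.Wt.ifrNF Pool.Agent.Lib.MP_89bcae_ag.Wt.iddNF

section

/-!
# Every class is the class of a divisor; the classes of divisors of functions, and only these, vanish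
-/

open Polynomial IsDedekindDomain

open scoped Classical nonZeroDivisors

namespace Pool.Agent.Lib.MP_89bcae_ag.Wt

universe u

section gen

variable {R : Type*} [CommRing R] [IsDedekindDomain R] {K : Type*} [Field K] [Algebra R K]
  [IsFractionRing R K]

lemma r08_count_span_coe (v : HeightOneSpectrum R) (a : R) (ha : a ≠ 0) :
    FractionalIdeal.count K v (FractionalIdeal.spanSingleton R⁰ (algebraMap R K a)) =
      -(WithZero.log (v.valuation K (algebraMap R K a))) := by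
  rw [← FractionalIdeal.coeIdeal_span_singleton, FractionalIdeal.count_coe K v
    (by simpa using ha), HeightOneSpectrum.valuation_of_algebraMap,
    HeightOneSpectrum.intValuation_if_neg _ ha]
  simp

lemma r08_count_span (v : HeightOneSpectrum R) (x : Kˣ) :
    FractionalIdeal.count K v (FractionalIdeal.spanSingleton R⁰ (x : K)) =
      -(WithZero.log (v.valuation K (x : K))) := by
  obtain ⟨a, b, hb, hab⟩ := IsFractionRing.div_surjective (A := R) (x : K)
  have hb0 : b ≠ 0 := nonZeroDivisors.ne_zero hb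
  have hbK : algebraMap R K b ≠ 0 := by
    simpa using hb0
  have ha0 : a ≠ 0 := by
    rintro rfl
    apply x.ne_zero
    rw [← hab]; simp
  have h1 : FractionalIdeal.spanSingleton R⁰ (algebraMap R K a) =
      FractionalIdeal.spanSingleton R⁰ (x : K) *
        FractionalIdeal.spanSingleton R⁰ (algebraMap R K b) := by
    rw [FractionalIdeal.spanSingleton_mul_spanSingleton, ← hab, div_mul_cancel₀ _ hbK]
  have h2 := FractionalIdeal.count_mul K v (I := FractionalIdeal.spanSingleton R⁰ (x : K))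
    (I' := FractionalIdeal.spanSingleton R⁰ (algebraMap R K b))
    (FractionalIdeal.spanSingleton_ne_zero_iff.2 x.ne_zero)
    (FractionalIdeal.spanSingleton_ne_zero_iff.2 hbK)
  rw [← h1, r08_count_span_coe v a ha0, r08_count_span_coe v b hb0] at h2
  have h3 : v.valuation K (algebraMap R K a) =
      v.valuation K (x : K) * v.valuation K (algebraMap R K b) := by
    rw [← map_mul, ← hab, div_mul_cancel₀ _ hbK]
  rw [h3, WithZero.log_mul (by simp) (by simpa using hb0)] at h2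
  linarith

lemma r08_eq_of_count (I J : FractionalIdeal R⁰ K) (hI : I ≠ 0) (hJ : J ≠ 0)
    (h : ∀ v : HeightOneSpectrum R, FractionalIdeal.count K v I = FractionalIdeal.count K v J) :
    I = J := by
  rw [← FractionalIdeal.finprod_heightOneSpectrum_factorization' K hI,
    ← FractionalIdeal.finprod_heightOneSpectrum_factorization' K hJ]
  exact finprod_congr fun v => by rw [h v]


variable {T : Type*} (hs : T → HeightOneSpectrum R)

variable (K) in
/-- The fractional ideal of a divisor. -/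
noncomputable def r08Ideal : (T →₀ ℤ) →+ Additive (FractionalIdeal R⁰ K)ˣ :=
  Finsupp.liftAddHom fun P => zmultiplesHom _ (Additive.ofMul (FractionalIdeal.mk0 K
    ⟨(hs P).asIdeal, mem_nonZeroDivisors_of_ne_zero (hs P).ne_bot⟩))

variable (R K) in
/-- The class of an invertible fractional ideal. -/
noncomputable def r08Class : Additive (FractionalIdeal R⁰ K)ˣ →+ Additive (CommRing.Pic R) :=
  MonoidHom.toAdditive ((ClassGroup.equivPic R).toMonoidHom.comp (ClassGroup.mk (R := R) K))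

/-- The class of a divisor. -/
noncomputable def r08Cl : (T →₀ ℤ) →+ Additive (CommRing.Pic R) :=
  Finsupp.liftAddHom fun P => zmultiplesHom _ (Additive.ofMul (ClassGroup.equivPic R
    (ClassGroup.mk0 ⟨(hs P).asIdeal, mem_nonZeroDivisors_of_ne_zero (hs P).ne_bot⟩)))

lemma r08_cl_eq (D : T →₀ ℤ) : r08Cl hs D = r08Class R K (r08Ideal K hs D) := by
  have h : (r08Cl hs : (T →₀ ℤ) →+ _) = (r08Class R K).comp (r08Ideal K hs) := by
    refine Finsupp.addHom_ext' fun P => ?_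
    refine AddMonoidHom.ext_int ?_
    simp only [r08Cl, r08Ideal, r08Class, AddMonoidHom.comp_apply, Finsupp.singleAddHom_apply,
      Finsupp.liftAddHom_apply_single, zmultiplesHom_apply, one_smul]
    change _ = Additive.ofMul (ClassGroup.equivPic R (ClassGroup.mk K
      (FractionalIdeal.mk0 K _)))
    rw [ClassGroup.mk_mk0]
  rw [h]
  rfl

variable (R K) in
/-- The exponent of a prime, as a homomorphism. -/
noncomputable def r08Cnt (v : HeightOneSpectrum R) : Additive (FractionalIdeal R⁰ K)ˣ →+ ℤ :=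
  AddMonoidHom.mk' (fun I => FractionalIdeal.count K v (I.toMul : FractionalIdeal _ _))
    fun I J => FractionalIdeal.count_mul K v I.toMul.ne_zero J.toMul.ne_zero

lemma r08_cnt_ideal (hinj : Function.Injective hs) (P : T) (D : T →₀ ℤ) :
    r08Cnt R K (hs P) (r08Ideal K hs D) = D P := by
  have h : (r08Cnt R K (hs P)).comp (r08Ideal K hs) = Finsupp.applyAddHom P := by
    refine Finsupp.addHom_ext' fun Q => ?_
    refine AddMonoidHom.ext_int ?_
    simp only [r08Ideal, AddMonoidHom.comp_apply, Finsupp.singleAddHom_apply,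
      Finsupp.liftAddHom_apply_single, zmultiplesHom_apply, one_smul, Finsupp.applyAddHom_apply]
    change FractionalIdeal.count K (hs P) (((hs Q).asIdeal : Ideal R) :
      FractionalIdeal R⁰ K) = _
    rw [FractionalIdeal.count_maximal, Finsupp.single_apply]
    simp only [hinj.eq_iff]
  have := DFunLike.congr_fun h D
  simpa using this

lemma r08_cnt_principal (v : HeightOneSpectrum R) (h : Kˣ) :
    r08Cnt R K v (Additive.ofMul (toPrincipalIdeal R K h)) =
      -(WithZero.log (v.valuation K (h : K))) := by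
  change FractionalIdeal.count K v (toPrincipalIdeal R K h : FractionalIdeal R⁰ K) = _
  rw [coe_toPrincipalIdeal, r08_count_span]

lemma r08_ext (hsurj : Function.Surjective hs) (I J : Additive (FractionalIdeal R⁰ K)ˣ)
    (h : ∀ P, r08Cnt R K (hs P) I = r08Cnt R K (hs P) J) : I = J := by
  have : I.toMul = J.toMul := by
    refine Units.ext (r08_eq_of_count _ _ I.toMul.ne_zero J.toMul.ne_zero fun v => ?_)
    obtain ⟨P, rfl⟩ := hsurj v
    exact h P
  exact this

lemma r08_surjective (K : Type*) [Field K] [Algebra R K] [IsFractionRing R K] (hinj : Function.Injective hs) (hsurj : Function.Surjective hs) :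
    Function.Surjective (r08Cl hs : (T →₀ ℤ) →+ Additive (CommRing.Pic R)) := by
  intro Q
  obtain ⟨I, hI⟩ := ClassGroup.mk0_surjective ((ClassGroup.equivPic R).symm Q.toMul)
  have hfin : (Function.support fun P : T =>
      FractionalIdeal.count K (hs P) ((I : Ideal R) : FractionalIdeal R⁰ K)).Finite := by
    have := FractionalIdeal.finite_factors (K := K) ((I : Ideal R) : FractionalIdeal R⁰ K)
    rw [Filter.eventually_cofinite] at this
    exact this.preimage hinj.injOn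
  refine ⟨Finsupp.ofSupportFinite _ hfin, ?_⟩
  have h1 : r08Ideal K hs (Finsupp.ofSupportFinite _ hfin) =
      Additive.ofMul (FractionalIdeal.mk0 K I) :=
    r08_ext hs hsurj _ _ fun P => by
      rw [r08_cnt_ideal hs hinj]
      rfl
  rw [r08_cl_eq (K := K), h1]
  change Additive.ofMul (ClassGroup.equivPic R (ClassGroup.mk K
      (FractionalIdeal.mk0 K I))) = Q
  rw [ClassGroup.mk_mk0, hI, MulEquiv.apply_symm_apply]
  rfl

lemma r08_cl_eq_zero_iff (hinj : Function.Injective hs) (hsurj : Function.Surjective hs)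
    (D : T →₀ ℤ) : r08Cl hs D = 0 ↔
      ∃ h : Kˣ, ∀ P, D P = -(WithZero.log ((hs P).valuation K (h : K))) := by
  constructor
  · intro hD
    rw [r08_cl_eq (K := K)] at hD
    have h1 : ClassGroup.equivPic R (ClassGroup.mk K (r08Ideal K hs D).toMul) = 1 := hD
    rw [map_eq_one_iff _ (ClassGroup.equivPic R).injective, ClassGroup.mk_eq_one_iff] at h1
    obtain ⟨x, hx⟩ := h1.principal
    have hx' : ((r08Ideal K hs D).toMul : FractionalIdeal R⁰ K) =
        FractionalIdeal.spanSingleton R⁰ x := by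
      apply Subtype.coe_injective
      simp only [FractionalIdeal.val_eq_coe, hx, FractionalIdeal.coe_spanSingleton]
    have hx0 : x ≠ 0 := by
      rintro rfl
      apply (r08Ideal K hs D).toMul.ne_zero
      rw [hx', FractionalIdeal.spanSingleton_zero]
    refine ⟨Units.mk0 x hx0, fun P => ?_⟩
    have h2 : r08Ideal K hs D = Additive.ofMul (toPrincipalIdeal R K (Units.mk0 x hx0)) := by
      have : (r08Ideal K hs D).toMul = toPrincipalIdeal R K (Units.mk0 x hx0) := by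
        refine Units.ext ?_
        rw [hx', coe_toPrincipalIdeal, Units.val_mk0]
      exact this
    rw [← r08_cnt_principal, ← h2, r08_cnt_ideal hs hinj]
  · rintro ⟨h, hD⟩
    have h1 : r08Ideal K hs D = Additive.ofMul (toPrincipalIdeal R K h) :=
      r08_ext hs hsurj _ _ fun P => by
        rw [r08_cnt_ideal hs hinj, r08_cnt_principal, hD]
    rw [r08_cl_eq (K := K), h1]
    change Additive.ofMul (ClassGroup.equivPic R (ClassGroup.mk K (toPrincipalIdeal R K h))) = 0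
    have : ClassGroup.mk K (toPrincipalIdeal R K h) = 1 := by
      rw [ClassGroup.mk_eq_one_iff, coe_toPrincipalIdeal, FractionalIdeal.coe_spanSingleton]
      exact ⟨⟨_, rfl⟩⟩
    rw [this, map_one]
    rfl

end gen

variable {N : ℕ} {E : Type u} [Field E] {f : E[X]} [hG : IsGood N f]

lemma r08_hs_injective : Function.Injective (Pt.hs : Pt N f → HeightOneSpectrum (NRing N f)) :=
  fun _ _ h => Pt.ideal_injective (congrArg HeightOneSpectrum.asIdeal h)

lemma r08_hs_surjective : Function.Surjective (Pt.hs : Pt N f → HeightOneSpectrum (NRing N f)) := by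
  intro v
  obtain ⟨P, hP⟩ := exists_pt_of_prime v.asIdeal v.isPrime v.ne_bot
  exact ⟨P, HeightOneSpectrum.ext hP⟩

lemma r08_cl : (cl : (Pt N f →₀ ℤ) →+ Jac N f) = r08Cl Pt.hs := rfl

lemma cl_surjective : Function.Surjective (cl : (Pt N f →₀ ℤ) →+ Jac N f) := by
  rw [r08_cl]
  exact r08_surjective Pt.hs (FunField N f) r08_hs_injective r08_hs_surjective

lemma cl_div (h : (FunField N f)ˣ) : cl (div h) = 0 := by
  rw [r08_cl]
  exact (r08_cl_eq_zero_iff Pt.hs r08_hs_injective r08_hs_surjective _).mpr ⟨h, fun _ => rfl⟩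

lemma exists_div_of_cl_eq_zero (D : Pt N f →₀ ℤ) (hD : cl D = 0) :
    ∃ h : (FunField N f)ˣ, div h = D := by
  rw [r08_cl] at hD
  obtain ⟨h, hh⟩ := (r08_cl_eq_zero_iff (R := NRing N f) (K := FunField N f) (T := Pt N f) Pt.hs
    r08_hs_injective r08_hs_surjective D).mp hD
  refine ⟨h, Finsupp.ext fun P => ?_⟩
  rw [hh P]
  rfl

end Pool.Agent.Lib.MP_89bcae_ag.Wt

end

section

/-!
ROW R11 (80-150 lines). Hilbert's theorem 90 for the cyclic extension of function fields.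

PROOF. Let `φ = rotU ζ⁻¹` (an automorphism of the field `FunField N f`, the inverse of `rotU ζ`) and
`n = ∏_{i<N} φ^i(h) = nrm h = 1` (the same product in another order, as `φ^N = 1`). The field
automorphisms `1, φ, ..., φ^(N-1)` are distinct (`φ^i y = ζ^(-i) y`), so they are linearly
independent (`linearIndependent_monoidHom`): there is `b` with
`v = ∑_{i<N} (∏_{j<i} φ^j(h)) φ^i(b) ≠ 0`. Then `h φ(v) = v` (the term `i = N - 1` becomes
`n φ^N(b) = b`). (Alternatively Mathlib's Hilbert 90 for cyclic groups.)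
-/

open Polynomial IsDedekindDomain

open scoped Classical

namespace Pool.Agent.Lib.MP_89bcae_ag.Wt

universe u

variable {N : ℕ} {E : Type u} [Field E] {f : E[X]} [hG : IsGood N f]

lemma R11_full (ζ : E) (hζ : ζ ^ N = 1) (h0 : ζ ≠ 0) (x : FunField N f) :
    (autF (rotE ζ hζ h0))^[N] x = x := by
  obtain ⟨a, b, _, hab⟩ := IsFractionRing.div_surjective (A := NRing N f) x
  rw [← hab, R10_autF_div, R10_autF_iter, R10_autF_iter, R10_rot_full, R10_rot_full]

lemma R11_yy (ζ : E) (hζ : ζ ^ N = 1) (h0 : ζ ≠ 0) (n : ℕ) :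
    (rotE ζ hζ h0)^[n] (yy : NRing N f) = ofPoly (C (ζ ^ n)) * yy := by
  induction n with
  | zero => simp
  | succ n ih =>
    rw [Function.iterate_succ_apply', ih, R10_rotE_apply, map_mul, rotC_ofPoly, rotC_yy,
      pow_succ, C_mul, map_mul]
    ring

lemma R11_succ (ζ : E) (hζ : ζ ^ N = 1) (h0 : ζ ≠ 0) (h : (FunField N f)ˣ) (i : ℕ) :
    ∏ j ∈ Finset.range (i + 1), (rotU ζ hζ h0)^[j] h =
      h * rotU ζ hζ h0 (∏ j ∈ Finset.range i, (rotU ζ hζ h0)^[j] h) := by
  rw [Finset.prod_range_succ', Function.iterate_zero, id, map_prod, mul_comm]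
  congr 1
  apply Finset.prod_congr rfl
  intro j _
  rw [Function.iterate_succ_apply']

lemma R11_exists (ζ : E) (hζ : IsPrimitiveRoot ζ N) (h0 : ζ ≠ 0) (c : ℕ → FunField N f)
    (hc : c 0 ≠ 0) :
    ∃ b : FunField N f, ∑ i ∈ Finset.range N, c i * (autF (rotE ζ hζ.pow_eq_one h0))^[i] b ≠ 0 := by
  by_contra hcon
  push Not at hcon
  set ρ := autF (rotE ζ hζ.pow_eq_one h0 : NRing N f ≃+* NRing N f) with hρ
  set ψ : Monoid.End (FunField N f) := ((ρ : FunField N f →+* FunField N f) : FunField N f →* FunField N f) with hψ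
  have hψi : ∀ (i : ℕ) (x : FunField N f), (ψ ^ i : Monoid.End (FunField N f)) x = ρ^[i] x := by
    intro i x
    rw [Monoid.End.coe_pow]
    rfl
  set χ : Fin N → (FunField N f →* FunField N f) := fun i => (ψ ^ (i : ℕ) : Monoid.End (FunField N f)) with hχ
  have hinj : Function.Injective χ := by
    intro i j hij
    have h1 : (χ i) (algebraMap (NRing N f) (FunField N f) yy) =
        (χ j) (algebraMap (NRing N f) (FunField N f) yy) := by rw [hij]
    have h2 : ∀ k : Fin N, (χ k) (algebraMap (NRing N f) (FunField N f) yy) =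
        algebraMap (NRing N f) (FunField N f) (ofPoly (C (ζ ^ (k : ℕ))) * yy) := by
      intro k
      rw [← R11_yy ζ hζ.pow_eq_one h0 k, ← R10_autF_iter]
      exact hψi k _
    rw [h2, h2, map_mul, map_mul] at h1
    have h3 := mul_right_cancel₀ algebraMap_yy_ne_zero h1
    have h4 := IsFractionRing.injective (NRing N f) (FunField N f) h3
    have h5 := C_injective (ofPoly_injective (N := N) (f := f) h4)
    exact Fin.ext (hζ.pow_inj i.2 j.2 h5)
  have hli := (linearIndependent_monoidHom (FunField N f) (FunField N f)).comp χ hinj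
  rw [Fintype.linearIndependent_iff] at hli
  have h6 := hli (fun i => c i) (by
    funext b
    rw [Finset.sum_apply, Pi.zero_apply, ← hcon b, Finset.sum_range]
    apply Finset.sum_congr rfl
    intro i _
    rw [← hψi i b]
    rfl) ⟨0, hG.pos⟩
  exact hc h6

lemma exists_hilbert (ζ : E) (hζ : IsPrimitiveRoot ζ N) (h0 : ζ ≠ 0) (h : (FunField N f)ˣ)
    (hn : nrm ζ hζ.pow_eq_one h0 h = 1) :
    ∃ v : (FunField N f)ˣ, h = v / (rotU ζ hζ.pow_eq_one h0).symm v := by
  set ρ := autF (rotE ζ hζ.pow_eq_one h0 : NRing N f ≃+* NRing N f) with hρ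
  set R := rotU ζ hζ.pow_eq_one h0 (f := f) with hR
  set c : ℕ → (FunField N f)ˣ := fun i => ∏ j ∈ Finset.range i, R^[j] h with hc
  have hRρ : ∀ u : (FunField N f)ˣ, ((R u : (FunField N f)ˣ) : FunField N f) = ρ (u : FunField N f) := fun _ => rfl
  have hcs : ∀ i, c (i + 1) = h * R (c i) := fun i => R11_succ ζ hζ.pow_eq_one h0 h i
  have hcN : c N = 1 := hn
  have hc0 : c 0 = 1 := by simp [hc]
  obtain ⟨b, hb⟩ := R11_exists ζ hζ h0 (fun i => (c i : FunField N f)) (by simp [hc0])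
  set w0 := ∑ i ∈ Finset.range N, (c i : FunField N f) * ρ^[i] b with hw0
  have key : (h : FunField N f) * ρ w0 = w0 := by
    have h1 : (h : FunField N f) * ρ w0 = ∑ i ∈ Finset.range N, (c (i + 1) : FunField N f) * ρ^[i + 1] b := by
      rw [hw0, map_sum, Finset.mul_sum]
      apply Finset.sum_congr rfl
      intro i _
      rw [map_mul, hcs, Units.val_mul, hRρ, Function.iterate_succ_apply']
      ring
    have h2 : ∑ i ∈ Finset.range N, (c (i + 1) : FunField N f) * ρ^[i + 1] b +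
        (c 0 : FunField N f) * ρ^[0] b = w0 + (c N : FunField N f) * ρ^[N] b := by
      rw [hw0, ← Finset.sum_range_succ,
        ← Finset.sum_range_succ' (fun i => (c i : FunField N f) * ρ^[i] b)]
    rw [hc0, hcN, R11_full, Function.iterate_zero, id] at h2
    rw [h1]
    exact add_right_cancel h2
  set w : (FunField N f)ˣ := Units.mk0 w0 hb with hw
  have hwR : h * R w = w := by
    apply Units.ext
    rw [Units.val_mul, hRρ]
    exact key
  refine ⟨(R w)⁻¹, ?_⟩
  rw [map_inv, MulEquiv.symm_apply_apply, div_inv_eq_mul, eq_comm, inv_mul_eq_iff_eq_mul,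
    mul_comm]
  exact hwR.symm

end Pool.Agent.Lib.MP_89bcae_ag.Wt

end

section

/-!
ROW R14 (150-250 lines). The leading coefficient of a function at a ramified point `(θ, 0)`, with
respect to the uniformizer `y`.

DEFINITION. For a root `θ` of `f` and `P = (θ, 0)`: `lc θ h` is the constant `c` such that the
function `h y^{-ord_P(h)} - c` vanishes at `P` (or is zero): it exists by `exists_residue_pt`, is
unique since nonzero constants have order `0`, and is not `0` since `h y^{-ord h}` has order `0`.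
PROOFS. Multiplicativity: `uv - cd = u (v - d) + d (u - c)` for functions `u`, `v` of order `0`, and
`ord_add`. `lc θ c = c` clear. `x - a - (θ - a) = x - θ` has positive order: `lc θ (x - a) = θ - a`
if `a ≠ θ`. `f = (x - θ) g`, `g(θ) = f'(θ)`, `y^N = (x - θ) g(x)`: `(x - θ) y^{-N} = 1/g(x)`, so
`lc θ (x - θ) = 1 / f'(θ)`. `lc θ y = 1`. Rotation: apply `rot : y ↦ ζ y` (which preserves `ord_P`,
as `P.rot ζ = P`, and constants) to `h y^{-w} - c`: `rot(h) ζ^{-w} y^{-w} - c` vanishes at `P`, so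
`lc θ (rot h) = ζ^w lc θ h`. Symmetries: apply `symU σ` in the same way (`ord_symU`, `symU_yU`).
Definition in Lean: `if hθ : f.eval θ = 0 then (choose ...) else 1`.
-/

open Polynomial IsDedekindDomain

open scoped Classical

namespace Pool.Agent.Lib.MP_89bcae_ag.Wt

universe u

variable {N : ℕ} {E : Type u} [Field E] {f : E[X]} [hG : IsGood N f]

/-- The ramified point `(θ, 0)`. -/
def ramPt (hN : N ≠ 0) {θ : E} (hθ : f.eval θ = 0) : Pt N f := ⟨θ, 0, by rw [zero_pow hN, hθ]⟩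

/-- The order of a function at the ramified point `(θ, 0)` (zero if `θ` is not a root of `f`). -/
noncomputable def ordR (θ : E) (h : (FunField N f)ˣ) : ℤ :=
  if hθ : f.eval θ = 0 then ord (ramPt hG.ne hθ) h else 0

/-- the function `u` has the value `c` at `P` -/
private def R14_res (P : Pt N f) (u : FunField N f) (c : E) : Prop :=
  P.hs.valuation (FunField N f) (u - cst c) < 1

private lemma R14_val_ne_zero (P : Pt N f) (h : (FunField N f)ˣ) :
    P.hs.valuation (FunField N f) (h : FunField N f) ≠ 0 :=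
  (Valuation.ne_zero_iff _).mpr h.ne_zero


private lemma R14_ord_pos_iff (P : Pt N f) (h : (FunField N f)ˣ) :
    0 < ord P h ↔ P.hs.valuation (FunField N f) (h : FunField N f) < 1 := by
  have h1 := WithZero.log_lt_iff_lt_exp (a := (0 : ℤ)) (R14_val_ne_zero P h)
  rw [WithZero.exp_zero] at h1
  rw [← h1]
  unfold ord
  omega

private lemma R14_cstU_coe (c : Eˣ) : ((cstU c : (FunField N f)ˣ) : FunField N f) = cst (c : E) := rfl

private lemma R14_val_cst_le (P : Pt N f) (c : E) : P.hs.valuation (FunField N f) (cst c) ≤ 1 :=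
  HeightOneSpectrum.valuation_le_one P.hs (ofPoly (C c))

private lemma R14_val_cst_lt (P : Pt N f) (c : E) (h : P.hs.valuation (FunField N f) (cst c) < 1) :
    c = 0 := by
  by_contra hc
  have h1 := (R14_ord_pos_iff P (cstU (Units.mk0 c hc))).mpr (by
    rw [R14_cstU_coe, Units.val_mk0]; exact h)
  rw [ord_cstU] at h1
  exact lt_irrefl _ h1

private lemma R14_res_le (P : Pt N f) (u : FunField N f) (c : E) (h : R14_res P u c) :
    P.hs.valuation (FunField N f) u ≤ 1 := by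
  have h1 : u = (u - cst c) + cst c := by ring
  rw [h1]
  exact (Valuation.map_add _ _ _).trans (max_le (le_of_lt h) (R14_val_cst_le P c))

private lemma R14_res_unique (P : Pt N f) (u : FunField N f) (c c' : E) (h : R14_res P u c)
    (h' : R14_res P u c') : c = c' := by
  have h1 : P.hs.valuation (FunField N f) (cst (c - c')) < 1 := by
    have h2 : (cst (c - c') : FunField N f) = -(u - cst c) + (u - cst c') := by
      rw [map_sub]; ring
    rw [h2]
    refine lt_of_le_of_lt (Valuation.map_add _ _ _) (max_lt ?_ h')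
    rw [Valuation.map_neg]
    exact h
  exact sub_eq_zero.mp (R14_val_cst_lt P _ h1)

private lemma R14_res_mul (P : Pt N f) (u u' : FunField N f) (c c' : E) (h : R14_res P u c)
    (h' : R14_res P u' c') : R14_res P (u * u') (c * c') := by
  unfold R14_res
  have h2 : u * u' - cst (c * c') = u * (u' - cst c') + cst c' * (u - cst c) := by
    rw [map_mul]; ring
  rw [h2]
  refine lt_of_le_of_lt (Valuation.map_add _ _ _) (max_lt ?_ ?_)
  · rw [map_mul]
    exact (mul_le_of_le_one_left' (R14_res_le P u c h)).trans_lt h'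
  · rw [map_mul]
    exact (mul_le_of_le_one_left' (R14_val_cst_le P c')).trans_lt h

private lemma R14_res_cst (P : Pt N f) (c : E) : R14_res P (cst c) c := by
  unfold R14_res
  rw [sub_self, map_zero]
  exact zero_lt_one

private lemma R14_res_one (P : Pt N f) : R14_res P 1 1 := by
  have h := R14_res_cst P (1 : E)
  rwa [map_one] at h

private lemma R14_res_alg (P : Pt N f) (a : NRing N f) :
    R14_res P (algebraMap (NRing N f) (FunField N f) a) (evalPt P a) := by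
  unfold R14_res
  have h1 : algebraMap (NRing N f) (FunField N f) a - cst (evalPt P a) =
      algebraMap (NRing N f) (FunField N f) (a - ofPoly (C (evalPt P a))) := by
    rw [map_sub]
    rfl
  rw [h1]
  refine (HeightOneSpectrum.valuation_lt_one_iff_mem _ _).mpr ?_
  change evalPt P (a - ofPoly (C (evalPt P a))) = 0
  rw [map_sub, evalPt_ofPoly, eval_C, sub_self]

private lemma R14_exists_res (P : Pt N f) (u : (FunField N f)ˣ) (hu : 0 ≤ ord P u) :
    ∃ c : E, R14_res P u c := by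
  obtain ⟨c, hc⟩ := exists_residue_pt P u hu
  refine ⟨c, ?_⟩
  unfold R14_res
  by_cases h0 : (u : FunField N f) - cst c = 0
  · rw [h0, map_zero]
    exact zero_lt_one
  · have h1 := hc (Units.mk0 _ h0) rfl
    rw [R14_ord_pos_iff, Units.val_mk0] at h1
    exact h1

private lemma R14_res_ne_zero (P : Pt N f) (u : (FunField N f)ˣ) (hu : ord P u = 0) (c : E)
    (hc : R14_res P u c) : c ≠ 0 := by
  rintro rfl
  unfold R14_res at hc
  rw [map_zero, sub_zero, ← R14_ord_pos_iff, hu] at hc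
  exact lt_irrefl _ hc

/-- transport of residues by an automorphism -/
private lemma R14_res_aut (φ : NRing N f ≃+* NRing N f) (P Q : Pt N f)
    (h : ∀ a, evalPt Q (φ a) = 0 ↔ evalPt P a = 0) (u : (FunField N f)ˣ) (c d : E)
    (hφ : φ (ofPoly (C c)) = ofPoly (C d)) (hu : R14_res P u c) :
    R14_res Q (autU φ u : (FunField N f)ˣ) d := by
  have hcoe : ∀ w : (FunField N f)ˣ, ((autU φ w : (FunField N f)ˣ) : FunField N f) = autF φ (w : FunField N f) :=
    fun w => rfl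
  have hcst : autF φ (cst c : FunField N f) = cst d := by
    have h1 := autF_algebraMap φ (ofPoly (C c) : NRing N f)
    rw [hφ] at h1
    exact h1
  have hsub : ((autU φ u : (FunField N f)ˣ) : FunField N f) - cst d = autF φ ((u : FunField N f) - cst c) := by
    rw [map_sub, hcst, hcoe]
  unfold R14_res at hu ⊢
  by_cases h0 : (u : FunField N f) - cst c = 0
  · rw [hsub, h0, map_zero, map_zero]
    exact zero_lt_one
  · have h1 : 0 < ord P (Units.mk0 _ h0) := by
      rw [R14_ord_pos_iff, Units.val_mk0]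
      exact hu
    rw [← ord_autU φ P Q h, R14_ord_pos_iff, hcoe, Units.val_mk0, ← hsub] at h1
    exact h1

private lemma R14_ord_norm (P : Pt N f) (hP : P.y = 0) (h : (FunField N f)ˣ) :
    ord P (h * unif P.x ^ (-ord P h)) = 0 := by
  rw [ord_mul, ord_zpow, ord_unif P hP]
  ring

private lemma R14_exists (P : Pt N f) (hP : P.y = 0) (h : (FunField N f)ˣ) :
    ∃ c : Eˣ, R14_res P ((h * unif P.x ^ (-ord P h) : (FunField N f)ˣ) : FunField N f) c := by
  obtain ⟨c, hc⟩ := R14_exists_res P (h * unif P.x ^ (-ord P h)) (R14_ord_norm P hP h).ge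
  exact ⟨Units.mk0 c (R14_res_ne_zero P _ (R14_ord_norm P hP h) c hc), hc⟩

/-- the leading coefficient at a ramified point -/
private noncomputable def R14_lc (P : Pt N f) (hP : P.y = 0) (h : (FunField N f)ˣ) : Eˣ :=
  (R14_exists P hP h).choose

private lemma R14_lc_spec (P : Pt N f) (hP : P.y = 0) (h : (FunField N f)ˣ) :
    R14_res P ((h * unif P.x ^ (-ord P h) : (FunField N f)ˣ) : FunField N f) (R14_lc P hP h) :=
  (R14_exists P hP h).choose_spec

private lemma R14_lc_eq (P : Pt N f) (hP : P.y = 0) (h : (FunField N f)ˣ) (c : E)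
    (hc : R14_res P ((h * unif P.x ^ (-ord P h) : (FunField N f)ˣ) : FunField N f) c) :
    (R14_lc P hP h : E) = c :=
  R14_res_unique P _ _ _ (R14_lc_spec P hP h) hc

private lemma R14_lc_mul (P : Pt N f) (hP : P.y = 0) (h h' : (FunField N f)ˣ) :
    R14_lc P hP (h * h') = R14_lc P hP h * R14_lc P hP h' := by
  apply Units.ext
  rw [Units.val_mul]
  apply R14_lc_eq
  have h1 := R14_res_mul P _ _ _ _ (R14_lc_spec P hP h) (R14_lc_spec P hP h')
  have h2 : (h * h' * unif P.x ^ (-ord P (h * h')) : (FunField N f)ˣ) =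
      (h * unif P.x ^ (-ord P h)) * (h' * unif P.x ^ (-ord P h')) := by
    rw [ord_mul, neg_add, zpow_add]
    exact mul_mul_mul_comm _ _ _ _
  rw [h2, Units.val_mul]
  exact h1

private noncomputable def R14_hom (P : Pt N f) (hP : P.y = 0) : (FunField N f)ˣ →* Eˣ :=
  MonoidHom.mk' (R14_lc P hP) (R14_lc_mul P hP)

lemma rotU_unif (ζ : E) (hζ : ζ ^ N = 1) (h0 : ζ ≠ 0) (θ : E) :
    rotU ζ hζ h0 (unif θ : (FunField N f)ˣ) =
      cstU (Units.mk0 ζ h0 ^ al N (wt f θ)) * unif θ := by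
  have h1 : rotU ζ hζ h0 (xs θ : (FunField N f)ˣ) = xs θ := rotU_polyU ζ hζ h0 _ _
  rw [unif, map_mul, map_pow, map_inv, map_pow, rotU_yU, h1, mul_pow, map_pow, mul_assoc]

lemma symU_unif (σ : Sym f) (θ : E) :
    symU σ (unif θ : (FunField N f)ˣ) = unif ((σ : E ≃+* E) θ) := by
  have h1 : wt f ((σ : E ≃+* E) θ) = wt f θ := wt_map ((σ : E ≃+* E) : E →+* E) σ.2 θ
  rw [unif, unif, map_mul, map_pow, map_inv, map_pow, symU_yU, symU_xs, h1]

omit hG in
private lemma R14_ram_rot (P : Pt N f) (hP : P.y = 0) (ζ : E) (hζ : ζ ^ N = 1) :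
    P.rot ζ hζ = P := by
  ext
  · rfl
  · change ζ * P.y = P.y
    rw [hP, mul_zero]

private lemma R14_rotU (P : Pt N f) (hP : P.y = 0) (ζ : E) (hζ : ζ ^ N = 1) (h0 : ζ ≠ 0)
    (h : (FunField N f)ˣ) :
    (R14_lc P hP (rotU ζ hζ h0 h) : E) = ζ ^ (al N (wt f P.x) * ord P h) * R14_lc P hP h := by
  have hord : ord P (rotU ζ hζ h0 h) = ord P h := by
    rw [ord_rotU, R14_ram_rot P hP]
  apply R14_lc_eq
  rw [hord]
  have h1 : R14_res P ((rotU ζ hζ h0 (h * unif P.x ^ (-ord P h)) : (FunField N f)ˣ) : FunField N f)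
      (R14_lc P hP h) := by
    refine R14_res_aut (rotE ζ hζ h0) P P ?_ _ _ _ ?_ (R14_lc_spec P hP h)
    · intro a
      rw [evalPt_rotE, R14_ram_rot P hP]
    · exact rotC_ofPoly ζ hζ _
  have h2 : (rotU ζ hζ h0 h * unif P.x ^ (-ord P h) : (FunField N f)ˣ) =
      cstU ((Units.mk0 ζ h0 ^ al N (wt f P.x)) ^ ord P h) *
        rotU ζ hζ h0 (h * unif P.x ^ (-ord P h)) := by
    rw [map_mul (rotU ζ hζ h0), map_zpow (rotU ζ hζ h0), rotU_unif, map_zpow cstU, mul_zpow,
      zpow_neg (cstU (Units.mk0 ζ h0 ^ al N (wt f P.x))), mul_left_comm (rotU ζ hζ h0 h),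
      mul_inv_cancel_left]
  rw [h2, Units.val_mul]
  refine R14_res_mul P _ _ _ _ ?_ h1
  have h3 : ((cstU ((Units.mk0 ζ h0 ^ al N (wt f P.x)) ^ ord P h) : (FunField N f)ˣ) :
      FunField N f) = cst (ζ ^ (al N (wt f P.x) * ord P h)) := by
    rw [R14_cstU_coe]
    congr 1
    rw [Units.val_zpow_eq_zpow_val, Units.val_pow_eq_pow_val, Units.val_mk0, zpow_mul,
      zpow_natCast]
  rw [h3]
  exact R14_res_cst P _

private lemma R14_symU (P : Pt N f) (hP : P.y = 0) (σ : Sym f) (hP' : (P.sym σ).y = 0)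
    (h : (FunField N f)ˣ) :
    (R14_lc (P.sym σ) hP' (symU σ h) : E) = (σ : E ≃+* E) (R14_lc P hP h : E) := by
  apply R14_lc_eq
  rw [ord_symU]
  have h2 : (symU σ h * unif (P.sym σ).x ^ (-ord P h) : (FunField N f)ˣ) =
      symU σ (h * unif P.x ^ (-ord P h)) := by
    rw [map_mul (symU σ), map_zpow (symU σ), symU_unif]
    rfl
  rw [h2]
  refine R14_res_aut (symE N σ) P (P.sym σ) ?_ _ _ _ ?_ (R14_lc_spec P hP h)
  · intro a
    rw [evalPt_symE]
    exact map_eq_zero_iff _ (RingEquiv.injective _)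
  · have h3 := coordMap_ofPoly (N := N) ((σ : E ≃+* E) : E →+* E) σ.2 (C (R14_lc P hP h : E))
    rw [Polynomial.map_C] at h3
    exact h3

private lemma R14_lc_cst (P : Pt N f) (hP : P.y = 0) (c : Eˣ) :
    R14_lc P hP (cstU c) = c := by
  apply Units.ext
  apply R14_lc_eq
  rw [ord_cstU, neg_zero, zpow_zero, mul_one]
  exact R14_res_cst P _

private lemma R14_lc_xs (P : Pt N f) (hP : P.y = 0) (a : E) (ha : a ≠ P.x) :
    (R14_lc P hP (xs a) : E) = P.x - a := by
  apply R14_lc_eq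
  rw [ord_xs_of_ne P (Ne.symm ha), neg_zero, zpow_zero, mul_one]
  have h := R14_res_alg P (ofPoly (X - C a))
  rw [evalPt_ofPoly, eval_sub, eval_X, eval_C] at h
  exact h

private lemma R14_res_cofP (P : Pt N f) (n : ℕ) :
    R14_res P ((polyU (cofP f P.x) (cofP_ne_zero (f_ne_zero N f) P.x) ^ n : (FunField N f)ˣ) :
      FunField N f) (cof f P.x ^ n) := by
  have h1 : ((polyU (cofP f P.x) (cofP_ne_zero (f_ne_zero N f) P.x) ^ n : (FunField N f)ˣ) :
      FunField N f) = algebraMap (NRing N f) (FunField N f) (ofPoly (cofP f P.x ^ n)) := by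
    rw [← polyU_pow]
    rfl
  have h2 := R14_res_alg P (ofPoly (cofP f P.x ^ n))
  rw [evalPt_ofPoly, eval_pow] at h2
  rw [h1]
  exact h2

private lemma R14_lc_inv (P : Pt N f) (hP : P.y = 0) (h : (FunField N f)ˣ) (n : ℕ)
    (hrel : h * unif P.x ^ (-ord P h) *
      polyU (cofP f P.x) (cofP_ne_zero (f_ne_zero N f) P.x) ^ n = 1) :
    (R14_lc P hP h : E) = (cof f P.x ^ n)⁻¹ := by
  have h3 := R14_res_mul P _ _ _ _ (R14_lc_spec P hP h) (R14_res_cofP P n)
  rw [← Units.val_mul, hrel, Units.val_one] at h3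
  have h4 := R14_res_unique P _ _ _ h3 (R14_res_one P)
  exact eq_inv_of_mul_eq_one_left h4

private lemma R14_lc_yU (P : Pt N f) (hP : P.y = 0) :
    (R14_lc P hP yU : E) = (cof f P.x ^ be N (wt f P.x))⁻¹ := by
  apply R14_lc_inv
  rw [ord_yU_of_ramified P hP, zpow_neg, zpow_natCast,
    unif_pow_wt (N := N) (eval_of_y_eq_zero P hP), mul_inv, ← mul_assoc, mul_inv_cancel, one_mul,
    inv_mul_cancel]

private lemma R14_lc_xs_self (P : Pt N f) (hP : P.y = 0) :
    (R14_lc P hP (xs P.x) : E) = (cof f P.x ^ al N (wt f P.x))⁻¹ := by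
  apply R14_lc_inv
  rw [ord_xs_of_ramified P hP, zpow_neg, zpow_natCast,
    unif_pow (N := N) (eval_of_y_eq_zero P hP), mul_inv_rev, ← mul_assoc, mul_inv_cancel, one_mul,
    inv_mul_cancel]

lemma exists_lc : ∃ lc : E → (FunField N f)ˣ →* Eˣ, ∀ θ, f.eval θ = 0 →
    (∀ c : Eˣ, lc θ (cstU c) = c) ∧
    (∀ a, (h : a ≠ θ) → (lc θ (xs a) : E) = θ - a) ∧
    ((lc θ (xs θ : (FunField N f)ˣ) : E) = (cof f θ ^ al N (wt f θ))⁻¹) ∧
    ((lc θ (yU : (FunField N f)ˣ) : E) = (cof f θ ^ be N (wt f θ))⁻¹) ∧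
    (∀ (ζ : E) (hζ : ζ ^ N = 1) (h0 : ζ ≠ 0) (h : (FunField N f)ˣ),
      (lc θ (rotU ζ hζ h0 h) : E) = ζ ^ (al N (wt f θ) * ordR θ h) * lc θ h) ∧
    (∀ (σ : Sym f) (h : (FunField N f)ˣ),
      (lc ((σ : E ≃+* E) θ) (symU σ h) : E) = (σ : E ≃+* E) (lc θ h : E)) := by
  have key : ∀ θ (hθ : f.eval θ = 0), (if hθ : f.eval θ = 0 then
      R14_hom (ramPt hG.ne hθ : Pt N f) rfl else 1 : (FunField N f)ˣ →* Eˣ) =
      R14_hom (ramPt hG.ne hθ : Pt N f) rfl := fun θ hθ => dif_pos hθ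
  refine ⟨fun θ => if hθ : f.eval θ = 0 then
    R14_hom (ramPt hG.ne hθ : Pt N f) rfl else 1, ?_⟩
  intro θ hθ
  have hord : ∀ h : (FunField N f)ˣ, ordR θ h = ord (ramPt hG.ne hθ) h :=
    fun h => dif_pos hθ
  simp only [key θ hθ]
  refine ⟨?_, ?_, ?_, ?_, ?_, ?_⟩
  · intro c
    exact R14_lc_cst (ramPt hG.ne hθ : Pt N f) rfl c
  · intro a ha
    exact R14_lc_xs (ramPt hG.ne hθ : Pt N f) rfl a ha
  · exact R14_lc_xs_self (ramPt hG.ne hθ : Pt N f) rfl
  · exact R14_lc_yU (ramPt hG.ne hθ : Pt N f) rfl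
  · intro ζ hζ h0 h
    rw [hord]
    exact R14_rotU (ramPt hG.ne hθ : Pt N f) rfl ζ hζ h0 h
  · intro σ h
    have hθ' : f.eval ((σ : E ≃+* E) θ) = 0 := by
      have h1 : f.map (((σ : E ≃+* E) : E →+* E)) = f := σ.2
      have h2 : (f.map (((σ : E ≃+* E) : E →+* E))).eval (((σ : E ≃+* E) : E →+* E) θ) = 0 := by
        rw [Polynomial.eval_map_apply, hθ, map_zero]
      rw [h1] at h2
      exact h2
    rw [key _ hθ']
    have hpt : (ramPt hG.ne hθ' : Pt N f) =
        (ramPt hG.ne hθ : Pt N f).sym σ := by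
      ext
      · rfl
      · exact (map_zero (σ : E ≃+* E)).symm
    have h3 := R14_symU (ramPt hG.ne hθ : Pt N f) rfl σ
      (by rw [← hpt]; rfl) h
    change (R14_lc (ramPt hG.ne hθ' : Pt N f) rfl (symU σ h) : E) = _
    have h4 : ∀ (Q Q' : Pt N f) (hQ : Q.y = 0) (hQ' : Q'.y = 0), Q = Q' → ∀ u : (FunField N f)ˣ,
        R14_lc Q hQ u = R14_lc Q' hQ' u := by
      rintro Q _ hQ hQ' rfl u
      rfl
    rw [h4 _ _ rfl (by rw [← hpt]; rfl) hpt]
    exact h3

/-- The leading coefficient at `(θ, 0)`. -/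
noncomputable def lc (θ : E) : (FunField N f)ˣ →* Eˣ := (exists_lc (N := N) (f := f)).choose θ

lemma lc_spec {θ : E} (hθ : f.eval θ = 0) :
    (∀ c : Eˣ, lc θ (cstU c : (FunField N f)ˣ) = c) ∧
    (∀ a, (h : a ≠ θ) → (lc θ (xs a : (FunField N f)ˣ) : E) = θ - a) ∧
    ((lc θ (xs θ : (FunField N f)ˣ) : E) = (cof f θ ^ al N (wt f θ))⁻¹) ∧
    ((lc θ (yU : (FunField N f)ˣ) : E) = (cof f θ ^ be N (wt f θ))⁻¹) ∧
    (∀ (ζ : E) (hζ : ζ ^ N = 1) (h0 : ζ ≠ 0) (h : (FunField N f)ˣ),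
      (lc θ (rotU ζ hζ h0 h) : E) = ζ ^ (al N (wt f θ) * ordR θ h) * lc θ h) ∧
    (∀ (σ : Sym f) (h : (FunField N f)ˣ),
      (lc ((σ : E ≃+* E) θ) (symU σ h) : E) = (σ : E ≃+* E) (lc θ h : E)) :=
  (exists_lc (N := N) (f := f)).choose_spec θ hθ

end Pool.Agent.Lib.MP_89bcae_ag.Wt

end

section

/-!
ROW R17 (100-200 lines). The kernel of `π = 1 - Z`.

Notation: `ram e = cl (ramDiv e) = ∑ e(θ) [(θ, 0)]`.

(A) `cl_eq_ram`: if `D - rot_* D = div h` and `nrm h = 1` then `cl D = ram e`, where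
`e(θ) = atR D θ - n(θ)` and `lc θ h = ζ^n(θ)`.
PROOF. By Hilbert 90 (R11), `h = v / rot⁻¹ v`, so `div h = div v - rot_* div v` and
`D₀ = D - div v` is fixed by `rot_*`. A divisor fixed by `rot_*` is the sum of its part at the ramified
points and of multiples of the full fibres `∑_{i<N} (P.rot^i) = div (x - P.x)` of unramified points
(induction on the size of the support, or a sum over the finite set of the `x`-coordinates), so its
class is `ram (atR D₀)`, and `atR D₀ θ = atR D θ - ordR θ v`. By `lc_spec`: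
`lc θ (rot v') = ζ^{ordR θ v'} lc θ v'` with `v' = rot⁻¹ v` and `ordR θ v' = ordR θ v`
(`P.rot = P` for `P = (θ, 0)`), so `lc θ h = ζ^{ordR θ v}`, i.e. `n(θ) ≡ ordR θ v` modulo `N`; and
`N [(θ, 0)] = cl (div (x - θ)) = 0` so exponents matter only modulo `N`.
(B) `zJ Q = Q` iff `Q` is some `ram e`. PROOF. If `Q = cl D` (R08), `D - rot_* D = div h`,
`nrm h = c · xprod (div h) = c` (`exists_nrm_eq`; `xprod (D - rot_* D) = 1` by `xprod_rot`,
`xprod_add`); dividing `h` by a constant whose `N`-th power is `c` (`E` algebraically closed) we may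
assume `nrm h = 1` (`nrm_cstU`); apply (A) — the `lc θ h` are `N`-th roots of unity since
`1 = lc θ (nrm h) = ∏ lc θ (rot^i h) = ζ^{...} lc θ(h)^N` and `ordR θ h = 0`: `ord` of
`D - rot_* D` at a fixed point is zero. The converse: `mapDomain_rot_ramDiv`.
(C) `ram e = 0` iff `e` is constant modulo `N` on the roots of `f`. PROOF. `ram 1 = cl (div y) = 0`
and `N [(θ,0)] = 0` give the direction from right to left. Conversely let `ramDiv e = div h`. Then `rot⁻¹ h / h` has divisor `0`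
(`mapDomain_rot_ramDiv`), so it is a constant `c`: (divisor zero implies constant: R13 lemma
`exists_const_of_dg_eq_zero`: else `dg (div w) < 0` with `w = h - c`, but `ord_P w ≥ 0` for all `P`
by `ord_add`); `c^N = 1` as `rot^N = 1`; `c = ζ^{-j}`; and `lc θ (rot h) = ζ^{ordR θ h} lc θ h`
gives `e(θ) = ordR θ h ≡ j` for all roots `θ`.
-/

open Polynomial IsDedekindDomain

open scoped Classical

namespace Pool.Agent.Lib.MP_89bcae_ag.Wt

universe u

variable {N : ℕ} {E : Type u} [Field E] {f : E[X]} [hG : IsGood N f]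

/-- The class `∑ e(θ) [(θ, 0)]`. -/
noncomputable def ram (e : E → ℤ) : Jac N f := cl (ramDiv e)

lemma r17_eq_of_x_eq {P Q : Pt N f} (hP : P.y = 0) (h : Q.x = P.x) : Q = P := by
  have h1 : Q.y ^ N = 0 := by
    rw [Q.eq, h, ← P.eq, hP, zero_pow hG.ne]
  exact Pt.ext h ((pow_eq_zero_iff hG.ne).1 h1 |>.trans hP.symm)

lemma r17_div_xs_ram (P : Pt N f) (hP : P.y = 0) :
    div (xs P.x : (FunField N f)ˣ) = N • Finsupp.single P 1 := by
  ext Q
  rw [div_apply, Finsupp.smul_apply, Finsupp.single_apply]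
  by_cases h : P = Q
  · subst h
    rw [if_pos rfl, ord_xs_of_ramified P hP]
    simp
  · rw [if_neg h, smul_zero]
    exact ord_xs_of_ne Q fun h1 => h (r17_eq_of_x_eq hP h1).symm

lemma r17_smul_cl (D : Pt N f →₀ ℤ) (hD : ∀ P, P.y ≠ 0 → D P = 0) : N • cl D = 0 := by
  conv_lhs => rw [← Finsupp.sum_single D]
  rw [Finsupp.sum, map_sum, Finset.smul_sum]
  refine Finset.sum_eq_zero fun P hP => ?_
  have hy : P.y = 0 := by
    by_contra hy
    exact Finsupp.mem_support_iff.1 hP (hD P hy)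
  have h1 : (Finsupp.single P (D P) : Pt N f →₀ ℤ) = D P • Finsupp.single P 1 := by
    rw [Finsupp.smul_single, smul_eq_mul, mul_one]
  rw [h1, map_zsmul, smul_comm, ← map_nsmul, ← r17_div_xs_ram P hy, cl_div, smul_zero]

lemma ram_congr (e e' : E → ℤ) (h : ∀ θ, f.eval θ = 0 → (N : ℤ) ∣ e θ - e' θ) :
    (ram e : Jac N f) = ram e' := by
  have hk : ∀ θ, ∃ k : ℤ, f.eval θ = 0 → e θ - e' θ = N * k := by
    intro θ
    by_cases hθ : f.eval θ = 0
    · obtain ⟨k, hk⟩ := h θ hθ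
      exact ⟨k, fun _ => hk⟩
    · exact ⟨0, fun h => absurd h hθ⟩
  choose k hk using hk
  rw [← sub_eq_zero, ram, ram, ← map_sub, ← ramDiv_sub,
    ramDiv_congr (fun θ => e θ - e' θ) (fun θ => N * k θ) hk, ramDiv_smul, map_zsmul,
    natCast_zsmul]
  refine r17_smul_cl _ fun P hP => ?_
  rw [ramDiv_apply, if_neg hP]

omit hG in
lemma r17_rot_injective (ζ : E) (hζ : ζ ^ N = 1) (h0 : ζ ≠ 0) :
    Function.Injective (Pt.rot ζ hζ : Pt N f → Pt N f) := by
  intro P Q h
  have hx : (Pt.rot ζ hζ P).x = (Pt.rot ζ hζ Q).x := by rw [h]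
  have hy : (Pt.rot ζ hζ P).y = (Pt.rot ζ hζ Q).y := by rw [h]
  exact Pt.ext hx (mul_left_cancel₀ h0 hy)

omit hG in
lemma r17_rot_iter (ζ : E) (hζ : ζ ^ N = 1) (P : Pt N f) (i : ℕ) :
    ((Pt.rot ζ hζ)^[i] P).x = P.x ∧ ((Pt.rot ζ hζ)^[i] P).y = ζ ^ i * P.y := by
  induction i with
  | zero => simp
  | succ i ih =>
    rw [Function.iterate_succ_apply']
    refine ⟨ih.1, ?_⟩
    change ζ * ((Pt.rot ζ hζ)^[i] P).y = _
    rw [ih.2, pow_succ']
    ring

lemma r17_exists_iter (ζ : E) (hζ : IsPrimitiveRoot ζ N) (P Q : Pt N f) (hP : P.y ≠ 0)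
    (h : Q.x = P.x) : ∃ i, (Pt.rot ζ hζ.pow_eq_one)^[i] P = Q := by
  have h1 : (Q.y / P.y) ^ N = 1 := by
    rw [div_pow, Q.eq, P.eq, h, div_self]
    rw [← P.eq]
    exact pow_ne_zero _ hP
  have : NeZero N := ⟨hG.ne⟩
  obtain ⟨i, _, hi⟩ := hζ.eq_pow_of_pow_eq_one h1
  refine ⟨i, Pt.ext ?_ ?_⟩
  · rw [(r17_rot_iter ζ hζ.pow_eq_one P i).1, h]
  · rw [(r17_rot_iter ζ hζ.pow_eq_one P i).2, hi, div_mul_cancel₀ _ hP]

omit hG in
lemma r17_apply_rot (ζ : E) (hζ : ζ ^ N = 1) (h0 : ζ ≠ 0) (D : Pt N f →₀ ℤ)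
    (hD : D.mapDomain (Pt.rot ζ hζ) = D) (P : Pt N f) (i : ℕ) :
    D ((Pt.rot ζ hζ)^[i] P) = D P := by
  induction i with
  | zero => rfl
  | succ i ih =>
    rw [Function.iterate_succ_apply', ← ih]
    conv_lhs => rw [← hD]
    exact Finsupp.mapDomain_apply (r17_rot_injective ζ hζ h0) _ _

lemma r17_cl_unram (ζ : E) (hζ : IsPrimitiveRoot ζ N) (h0 : ζ ≠ 0) (D : Pt N f →₀ ℤ)
    (hD : D.mapDomain (Pt.rot ζ hζ.pow_eq_one) = D) (hr : ∀ P, P.y = 0 → D P = 0) :
    cl D = 0 := by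
  have := hG.alg
  have hb : ∀ a : E, ∃ b : E, b ^ N = f.eval a := fun a =>
    IsAlgClosed.exists_pow_nat_eq _ hG.pos
  choose b hb using hb
  have key : D = ∑ a ∈ D.support.image Pt.x, D ⟨a, b a, hb a⟩ • div (xs a : (FunField N f)ˣ) := by
    ext Q
    rw [Finsupp.finsetSum_apply]
    by_cases hQ : Q.x ∈ D.support.image Pt.x
    · rw [Finset.sum_eq_single Q.x]
      · obtain ⟨P, hP, hPQ⟩ := Finset.mem_image.1 hQ
        have hPy : P.y ≠ 0 := fun h => Finsupp.mem_support_iff.1 hP (hr P h)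
        have hQy : Q.y ≠ 0 := by
          intro h
          apply hPy
          rw [r17_eq_of_x_eq h hPQ]
          exact h
        have hby : b Q.x ≠ 0 := by
          intro h
          have h2 := hb Q.x
          rw [h, zero_pow hG.ne, ← Q.eq] at h2
          exact hQy ((pow_eq_zero_iff hG.ne).1 h2.symm)
        obtain ⟨i, hi⟩ := r17_exists_iter ζ hζ ⟨Q.x, b Q.x, hb Q.x⟩ Q hby rfl
        rw [Finsupp.smul_apply, div_apply, ord_xs_of_unramified Q hQy, smul_eq_mul, mul_one,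
          ← r17_apply_rot ζ hζ.pow_eq_one h0 D hD ⟨Q.x, b Q.x, hb Q.x⟩ i, hi]
      · intro a _ ha
        rw [Finsupp.smul_apply, div_apply, ord_xs_of_ne Q ha.symm, smul_zero]
      · intro h
        exact absurd hQ h
    · have hQ0 : D Q = 0 := by
        by_contra h
        exact hQ (Finset.mem_image.2 ⟨Q, Finsupp.mem_support_iff.2 h, rfl⟩)
      rw [hQ0]
      symm
      refine Finset.sum_eq_zero fun a ha => ?_
      rw [Finsupp.smul_apply, div_apply, ord_xs_of_ne Q (fun h => hQ (h ▸ ha)), smul_zero]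
  rw [key, map_sum]
  refine Finset.sum_eq_zero fun a _ => ?_
  rw [map_zsmul, cl_div, smul_zero]

lemma r17_cl_fixed (ζ : E) (hζ : IsPrimitiveRoot ζ N) (h0 : ζ ≠ 0) (D : Pt N f →₀ ℤ)
    (hD : D.mapDomain (Pt.rot ζ hζ.pow_eq_one) = D) : cl D = ram (atR D) := by
  rw [← sub_eq_zero, ram, ← map_sub]
  refine r17_cl_unram ζ hζ h0 _ ?_ ?_
  · have := (Finsupp.mapDomain.addMonoidHom (M := ℤ) (Pt.rot ζ hζ.pow_eq_one : Pt N f → Pt N f)
      ).map_sub D (ramDiv (atR D))
    change (D - ramDiv (atR D)).mapDomain (Pt.rot ζ hζ.pow_eq_one) =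
      D.mapDomain (Pt.rot ζ hζ.pow_eq_one) - (ramDiv (atR D)).mapDomain (Pt.rot ζ hζ.pow_eq_one)
      at this
    rw [this, hD, mapDomain_rot_ramDiv]
  · intro P hP
    have hθ : f.eval P.x = 0 := by
      rw [← P.eq, hP, zero_pow hG.ne]
    rw [Finsupp.sub_apply, ramDiv_apply, if_pos hP, atR, dif_pos hθ, sub_eq_zero]
    congr 1
    exact Pt.ext rfl hP

lemma cl_eq_ram (ζ : E) (hζ : IsPrimitiveRoot ζ N) (h0 : ζ ≠ 0) (D : Pt N f →₀ ℤ)
    (h : (FunField N f)ˣ) (hD : D - D.mapDomain (Pt.rot ζ hζ.pow_eq_one) = div h)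
    (hn : nrm ζ hζ.pow_eq_one h0 h = 1) (n : E → ℤ)
    (hlc : ∀ θ, f.eval θ = 0 → (lc θ h : E) = ζ ^ n θ) :
    cl D = ram fun θ => atR D θ - wt f θ * n θ := by
  obtain ⟨v, hv⟩ := exists_hilbert ζ hζ h0 h hn
  have hdiv : div h = div v - (div v).mapDomain (Pt.rot ζ hζ.pow_eq_one) := by
    rw [hv, div_eq_mul_inv, div_mul, div_inv, div_rotU_symm, sub_eq_add_neg]
  have hfix : (D - div v).mapDomain (Pt.rot ζ hζ.pow_eq_one) = D - div v := by
    have := (Finsupp.mapDomain.addMonoidHom (M := ℤ) (Pt.rot ζ hζ.pow_eq_one : Pt N f → Pt N f)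
      ).map_sub D (div v)
    change (D - div v).mapDomain (Pt.rot ζ hζ.pow_eq_one) =
      D.mapDomain (Pt.rot ζ hζ.pow_eq_one) - (div v).mapDomain (Pt.rot ζ hζ.pow_eq_one)
      at this
    rw [this]
    rw [hdiv] at hD
    have h2 : D.mapDomain (Pt.rot ζ hζ.pow_eq_one) =
        D - (div v - (div v).mapDomain (Pt.rot ζ hζ.pow_eq_one)) := by
      rw [← hD]
      abel
    rw [h2]
    abel
  have hcl : cl D = cl (D - div v) := by
    rw [map_sub, cl_div, sub_zero]
  rw [hcl, r17_cl_fixed ζ hζ h0 _ hfix]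
  refine ram_congr _ _ fun θ hθ => ?_
  have hrot : (Pt.rot ζ hζ.pow_eq_one (ramPt hG.ne hθ) : Pt N f) =
      ramPt hG.ne hθ := Pt.ext rfl (mul_zero ζ)
  set v' := (rotU ζ hζ.pow_eq_one h0).symm v with hv'
  have hvv : rotU ζ hζ.pow_eq_one h0 v' = v := MulEquiv.apply_symm_apply _ _
  have hord : ordR θ v' = ord (ramPt hG.ne hθ) v := by
    rw [ordR, dif_pos hθ, ← hvv, ord_rotU, hrot]
  obtain ⟨_, _, _, _, hr, _⟩ := lc_spec (N := N) hθ
  have hl := hr ζ hζ.pow_eq_one h0 v'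
  rw [hvv, hord] at hl
  have hl2 : (lc θ h : E) = ζ ^ (al N (wt f θ) * ord (ramPt hG.ne hθ) v) := by
    rw [hv, _root_.map_div, Units.val_div_eq_div_val, hl, mul_div_assoc, div_self (Units.ne_zero _),
      mul_one]
  rw [hlc θ hθ] at hl2
  have hz : ζ ^ (n θ - al N (wt f θ) * ord (ramPt hG.ne hθ) v) = 1 := by
    rw [zpow_sub₀ h0, hl2, div_self (zpow_ne_zero _ h0)]
  have hdvd := (hζ.zpow_eq_one_iff_dvd _).1 hz
  have hat : atR (D - div v) θ = atR D θ - ord (ramPt hG.ne hθ) v := by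
    rw [atR, dif_pos hθ, atR, dif_pos hθ, Finsupp.sub_apply, div_apply]
    rfl
  rw [hat]
  have hw : ((al N (wt f θ) * wt f θ : ℕ) : ℤ) = ((be N (wt f θ) * N + 1 : ℕ) : ℤ) := by
    rw [al_wt (N := N) hθ]
  push_cast at hw
  have : atR D θ - ord (ramPt hG.ne hθ) v - (atR D θ - wt f θ * n θ) =
      wt f θ * (n θ - al N (wt f θ) * ord (ramPt hG.ne hθ) v) +
        N * (be N (wt f θ) * ord (ramPt hG.ne hθ) v) := by
    linear_combination (ord (ramPt hG.ne hθ) v) * hw
  rw [this]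
  exact dvd_add (hdvd.mul_left _) (dvd_mul_right _ _)

end Pool.Agent.Lib.MP_89bcae_ag.Wt

end

end

section

attribute [local instance 100000] Pool.Agent.Lib.MP_89bcae_ag.Brt.tffFields
attribute [local instance 100000] Pool.Agent.Lib.MP_89bcae_ag.Wt.ifrNF Pool.Agent.Lib.MP_89bcae_ag.Wt.iddNF

section

/-!
ROW R19 (60-120 lines). `π = 1 - Z` is surjective on the Jacobian.

PROOF. The classes of points generate the Jacobian (`cl_surjective`) and the image of `π` is a
subgroup, so it is enough to treat `Q = cl (single P 1)`. By R12 there is `h` with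
`nrm h = x - P.x`. By `exists_nrm_eq` (R10), `x - P.x = c · xprod (div h)`, so
(`xprod D = ∏ (x - P'.x)^{D P'}`; the exponents of the linear factors are determined: the order of
`∏ (x - a)^{n_a}` at a point above `a` is `n_a` or `ℓ n_a`) the sum of `div h - single P 1` over each
fibre `{P' | P'.x = a}` is zero. A divisor with sum zero over each fibre is of the form
`D - rot_* D`: a fibre consists of the points `P', P'.rot, ..., P'.rot^(ℓ-1)` and
`single (P'.rot^i) 1 - single P' 1` is `D - rot_* D` for `D = -∑_{j<i} single (P'.rot^j) 1`.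
Hence `Q = cl (single P 1) = cl (single P 1 - div h) = π (cl D)`.
-/

open Polynomial IsDedekindDomain

open scoped Classical

namespace Pool.Agent.Lib.MP_89bcae_ag.Sup

universe u

variable {ℓ : ℕ} {E : Type u} [Field E] {f : E[X]} [hG : IsGood ℓ f]

/-- there is a point above every `a` -/
lemma r19_exists_pt (ℓ : ℕ) (f : E[X]) [hG : IsGood ℓ f] (a : E) : ∃ R : Pt ℓ f, R.x = a := by
  have := hG.alg
  obtain ⟨y, hy⟩ := IsAlgClosed.exists_pow_nat_eq (f.eval a) hG.prime.pos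
  exact ⟨⟨a, y, hy⟩, rfl⟩

omit hG in
lemma r19_iter (ζ : E) (hζ : ζ ^ ℓ = 1) (R : Pt ℓ f) (i : ℕ) :
    ((Pt.rot ζ hζ)^[i] R).x = R.x ∧ ((Pt.rot ζ hζ)^[i] R).y = ζ ^ i * R.y := by
  induction i with
  | zero => simp
  | succ n ih =>
    rw [Function.iterate_succ_apply']
    refine ⟨ih.1, ?_⟩
    change ζ * _ = _
    rw [ih.2, pow_succ]
    ring

/-- two points of a fibre differ by a rotation -/
lemma r19_fibre (ζ : E) (hζ : IsPrimitiveRoot ζ ℓ) (R P : Pt ℓ f) (h : P.x = R.x) :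
    ∃ i : ℕ, P = (Pt.rot ζ hζ.pow_eq_one)^[i] R := by
  have he : P.y ^ ℓ = R.y ^ ℓ := by rw [P.eq, R.eq, h]
  by_cases h0 : R.y = 0
  · refine ⟨0, ?_⟩
    rw [h0, zero_pow hG.prime.ne_zero] at he
    have : P.y = 0 := eq_zero_of_pow_eq_zero he
    ext
    · simpa using h
    · simpa using this.trans h0.symm
  · have h1 : (P.y / R.y) ^ ℓ = 1 := by
      rw [div_pow, he, div_self (pow_ne_zero _ h0)]
    have := NeZero.mk hG.prime.ne_zero
    obtain ⟨i, -, hi⟩ := hζ.eq_pow_of_pow_eq_one h1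
    refine ⟨i, ?_⟩
    obtain ⟨a1, a2⟩ := r19_iter ζ hζ.pow_eq_one R i
    ext
    · rw [a1, h]
    · rw [a2, hi, div_mul_cancel₀ _ h0]

/-- the homomorphism `1 - Z` -/
noncomputable def r19_pi (ζ : E) (hζ : IsPrimitiveRoot ζ ℓ) : Jac ℓ f →+ Jac ℓ f :=
  AddMonoidHom.id _ - zJ ζ hζ.pow_eq_one

lemma r19_pi_apply (ζ : E) (hζ : IsPrimitiveRoot ζ ℓ) (Q : Jac ℓ f) :
    r19_pi ζ hζ Q = Q - zJ ζ hζ.pow_eq_one Q := rfl

lemma r19_step (ζ : E) (hζ : IsPrimitiveRoot ζ ℓ) (R : Pt ℓ f) (i : ℕ) :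
    cl (Finsupp.single ((Pt.rot ζ hζ.pow_eq_one)^[i] R) 1) - cl (Finsupp.single R 1) ∈
      (r19_pi ζ hζ : Jac ℓ f →+ Jac ℓ f).range := by
  induction i with
  | zero => simp
  | succ n ih =>
    rw [Function.iterate_succ_apply']
    set S := (Pt.rot ζ hζ.pow_eq_one)^[n] R with hS
    have h1 : cl (Finsupp.single (Pt.rot ζ hζ.pow_eq_one S) 1) - cl (Finsupp.single S 1) ∈
        (r19_pi ζ hζ : Jac ℓ f →+ Jac ℓ f).range := by
      refine ⟨-cl (Finsupp.single S 1), ?_⟩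
      rw [r19_pi_apply, map_neg, zJ_cl, Finsupp.mapDomain_single]
      abel
    have := add_mem h1 ih
    convert this using 1
    abel

/-- every divisor is congruent to the divisor supported on chosen points of the fibres -/
lemma r19_move (ζ : E) (hζ : IsPrimitiveRoot ζ ℓ) (R : E → Pt ℓ f) (hR : ∀ a, (R a).x = a)
    (D : Pt ℓ f →₀ ℤ) : cl D - cl (D.mapDomain fun P => R P.x) ∈
      (r19_pi ζ hζ : Jac ℓ f →+ Jac ℓ f).range := by
  induction D using Finsupp.induction_linear with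
  | zero => simp
  | add D D' h h' =>
    rw [Finsupp.mapDomain_add, map_add, map_add]
    convert add_mem h h' using 1
    abel
  | single P n =>
    rw [Finsupp.mapDomain_single]
    obtain ⟨i, hi⟩ := r19_fibre ζ hζ (R P.x) P (by rw [hR])
    have h1 := r19_step ζ hζ (R P.x) i
    rw [← hi] at h1
    have h2 := zsmul_mem h1 n
    have e : ∀ S : Pt ℓ f, cl (Finsupp.single S n) = n • cl (Finsupp.single S 1) := by
      intro S
      rw [← map_zsmul, Finsupp.smul_single, smul_eq_mul, mul_one]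
    rw [e, e, ← smul_sub]
    exact h2

lemma r19_ord_prod (P : Pt ℓ f) (G : E →₀ ℤ) :
    ord P (G.prod fun a n => (xs a : (Fn ℓ f)ˣ) ^ n) = G P.x * ord P (xs P.x) := by
  have key : ∀ s : Finset E, ord P (∏ a ∈ s, (xs a : (Fn ℓ f)ˣ) ^ (G a)) =
      ∑ a ∈ s, G a * ord P (xs a) := by
    intro s
    induction s using Finset.induction_on with
    | empty => simp [ord_one]
    | insert a s ha ih => rw [Finset.prod_insert ha, Finset.sum_insert ha, ord_mul, ord_zpow, ih]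
  rw [Finsupp.prod, key]
  by_cases h : P.x ∈ G.support
  · rw [Finset.sum_eq_single_of_mem _ h]
    intro b _ hb
    rw [ord_xs_of_ne P (Ne.symm hb), mul_zero]
  · rw [Finset.sum_eq_zero, Finsupp.notMem_support_iff.1 h, zero_mul]
    intro b hb
    have : P.x ≠ b := fun hh => h (hh ▸ hb)
    rw [ord_xs_of_ne P this, mul_zero]

lemma r19_ord_ne_zero (P : Pt ℓ f) : ord P (xs P.x) ≠ 0 := by
  by_cases h : P.y = 0
  · rw [ord_xs_of_ramified P h]
    exact_mod_cast hG.prime.ne_zero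
  · rw [ord_xs_of_unramified P h]
    exact one_ne_zero

/-- a divisor whose `x`-product is constant has sum zero over every fibre -/
lemma r19_zero (D : Pt ℓ f →₀ ℤ) (c : Eˣ) (h : xprod D = cstU c) :
    D.mapDomain Pt.x = 0 := by
  have h1 : xprod D = (D.mapDomain Pt.x).prod fun a n => (xs a : (Fn ℓ f)ˣ) ^ n := by
    rw [Finsupp.prod_mapDomain_index]
    · rfl
    · intro a
      exact zpow_zero _
    · intro a m n
      exact zpow_add _ _ _
  ext a
  obtain ⟨R, hR⟩ := r19_exists_pt ℓ f a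
  have h2 := r19_ord_prod R (D.mapDomain Pt.x)
  rw [← h1, h, ord_cstU] at h2
  have h3 := (mul_eq_zero.1 h2.symm).resolve_right (r19_ord_ne_zero R)
  rw [hR] at h3
  simpa using h3

lemma exists_sub_zJ (ζ : E) (hζ : IsPrimitiveRoot ζ ℓ) (Q : Jac ℓ f) :
    ∃ Q' : Jac ℓ f, Q' - zJ ζ hζ.pow_eq_one Q' = Q := by
  have h0 : ζ ≠ 0 := hζ.ne_zero hG.prime.ne_zero
  choose R hR using r19_exists_pt ℓ f
  have hpt : ∀ P : Pt ℓ f, cl (Finsupp.single P 1) ∈
      (r19_pi ζ hζ : Jac ℓ f →+ Jac ℓ f).range := by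
    intro P
    obtain ⟨h, hh⟩ := exists_nrm_eq_xs (f := f) ζ hζ h0 P.x
    obtain ⟨c, hc⟩ := exists_nrm_eq ζ hζ h0 h
    have h1 : xprod (div h - Finsupp.single P 1) = cstU c⁻¹ := by
      have e1 : xprod (div h - Finsupp.single P 1) * xprod (Finsupp.single P 1) =
          xprod (div h) := by
        rw [← xprod_add, sub_add_cancel]
      have e2 : xprod (Finsupp.single P 1) = (xs P.x : (Fn ℓ f)ˣ) := by
        unfold xprod
        rw [Finsupp.prod_single_index (zpow_zero _), zpow_one]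
      rw [e2, ← hh, hc] at e1
      have e3 : xprod (div h) * (xprod (div h - Finsupp.single P 1) * cstU c) =
          xprod (div h) * 1 := by
        rw [mul_one]
        conv_rhs => rw [← e1]
        rw [mul_comm, mul_assoc]
      have e4 := mul_left_cancel e3
      rw [map_inv]
      exact eq_inv_of_mul_eq_one_left e4
    have h2 := r19_zero _ _ h1
    have h3 := r19_move ζ hζ R hR (div h - Finsupp.single P 1)
    have h4 : (div h - Finsupp.single P 1).mapDomain (fun P : Pt ℓ f => R P.x) = 0 := by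
      have : (fun P : Pt ℓ f => R P.x) = R ∘ Pt.x := rfl
      rw [this, Finsupp.mapDomain_comp, h2, Finsupp.mapDomain_zero]
    rw [h4, map_zero, sub_zero, map_sub, cl_div, zero_sub] at h3
    exact neg_mem_iff.1 h3
  obtain ⟨D, rfl⟩ := cl_surjective (ℓ := ℓ) (f := f) Q
  have hD : cl D ∈ (r19_pi ζ hζ : Jac ℓ f →+ Jac ℓ f).range := by
    induction D using Finsupp.induction_linear with
    | zero => simp
    | add D D' h h' =>
      rw [map_add]
      exact add_mem h h'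
    | single P n =>
      have : cl (Finsupp.single P n) = n • cl (Finsupp.single P 1) := by
        rw [← map_zsmul, Finsupp.smul_single, smul_eq_mul, mul_one]
      rw [this]
      exact zsmul_mem (hpt P) n
  obtain ⟨Q', hQ'⟩ := hD
  exact ⟨Q', by rw [← r19_pi_apply ζ hζ, hQ']⟩

end Pool.Agent.Lib.MP_89bcae_ag.Sup

end

section

/-!
ROW G04 (100-200 lines). Local triviality: sums, `Z`, coboundaries.

PROOFS. Unfold: for every algebraic closure `M` of `K`, every `j : Ω → M` over `L`, there is `Q` with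
`j (c g') = g Q - Q`. Sum: add the `Q`s. `Z`: apply `Z` (of `M`, with `ζ_M = j ζ_Ω`; `zJ_jacMap`,
`push ℓ f σ = jacMap ..`; `M` is algebraically closed so `cOver k F L M g D` is good, which is
obtained from the hypothesis `H : GlobHyp` by `isGood_cOver`). Coboundaries: if `c n σ = σ A - A` take
`Q = j A` (`j ∘ g' = g ∘ j`; functoriality of `jacMap`: `CommRing.Pic.mapRingHom_comp_mapRingHom`).
`push_comp` : functoriality of `push`.
-/

open Polynomial IsDedekindDomain

open scoped Classical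

namespace Pool.Agent.Lib.MP_89bcae_ag.Sup

universe u

lemma jacMap_jacMap (ℓ : ℕ) {A B C' : Type u} [Field A] [Field B] [Field C'] (σ : A →+* B)
    (τ : B →+* C') {f : A[X]} {f' : B[X]} {f'' : C'[X]} (h : f.map σ = f') (h' : f'.map τ = f'')
    (h'' : f.map (τ.comp σ) = f'') (Q : Jac ℓ f) :
    jacMap ℓ τ h' (jacMap ℓ σ h Q) = jacMap ℓ (τ.comp σ) h'' Q := by
  have e : (coordMap ℓ τ h').comp (coordMap ℓ σ h) = coordMap ℓ (τ.comp σ) h'' := by
    refine R07_hom_ext (fun p => ?_) ?_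
    · rw [RingHom.comp_apply, coordMap_ofPoly, coordMap_ofPoly, coordMap_ofPoly,
        Polynomial.map_map]
    · rw [RingHom.comp_apply, coordMap_yy, coordMap_yy, coordMap_yy]
  have h1 : (CommRing.Pic.mapRingHom (coordMap ℓ τ h')).comp
      (CommRing.Pic.mapRingHom (coordMap ℓ σ h)) =
      CommRing.Pic.mapRingHom (coordMap ℓ (τ.comp σ) h'') := by
    rw [← e]
    exact CommRing.Pic.mapRingHom_comp_mapRingHom
  exact congrArg Additive.ofMul (DFunLike.congr_fun h1 Q.toMul)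

lemma push_push (ℓ : ℕ) {L A B C' : Type u} [Field L] [Field A] [Field B] [Field C'] [Algebra L A]
    [Algebra L B] [Algebra L C'] (f : L[X]) (σ : A →ₐ[L] B) (τ : B →ₐ[L] C')
    (Q : JacOver ℓ f A) : push ℓ f τ (push ℓ f σ Q) = push ℓ f (τ.comp σ) Q :=
  jacMap_jacMap ℓ (σ : A →+* B) (τ : B →+* C') _ _ _ Q

/-- The automorphism `Z` depends only on the root of unity. -/
lemma G04_zJ_congr {ℓ : ℕ} {E : Type u} [Field E] {f : E[X]} [IsGood ℓ f] {z z' : E} (h : z = z')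
    (hz : z ^ ℓ = 1) (hz' : z' ^ ℓ = 1) (Q : Jac ℓ f) : zJ z hz Q = zJ z' hz' Q := by
  subst h
  rfl

variable {k F L Ω : Type u} [Field k] [Field F] [Algebra k F] [Field L] [Algebra F[X] L]
  [Field Ω] [Algebra L Ω] [IsAlgClosure k F] [IsFractionRing F[X] L] [IsAlgClosure L Ω]
  {ℓ : ℕ} {g D : k[X]} [hG : IsGood ℓ (cOver k F L Ω g D)]


end Pool.Agent.Lib.MP_89bcae_ag.Sup

end

section

/-!
ROW G07 (150-280 lines). `Gal(Ω/L)`-invariants; transitivity on the roots; `π` and `v`; continuity.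

PROOFS. (1) Transitivity: `g(x) - t` is irreducible over `L = F(t)`: in `F[t][x]` it is of degree one in
`t`, with coefficients `g(x)` and `-1`, so irreducible in `F[x][t] = F[t][x]`, primitive as it is monic in
`x`, and Gauss's lemma (`Polynomial.IsPrimitive.irreducible_iff_irreducible_map_fraction_map` or
`Monic.irreducible_iff_irreducible_map_fraction_map`). All its roots in `Ω` are conjugate
(`minpoly` = it; `IsConjRoot`, or `Normal` + `exists_algEquiv`).
(2) `ram e` fixed by all `σ`, then it is `0`: by `symJ_ram` and `ram_eq_zero_iff`,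
`e(σ⁻¹ θ) - e(θ) ≡ c(σ)` for all roots; summing over the roots `m c(σ) ≡ 0`, so `c(σ) ≡ 0` (`m` prime to
`ℓ`), `e` is constant modulo `ℓ` on the roots, `ram e = 0`.
(3) `ℓ^n Q = 0` and `Q` fixed implies `Q = 0`: `π^((ℓ-1) n) Q` is `ℓ^n` times something, hence
killed...: by `exists_pi_identity` (A01) `π^(ℓ-1) = ℓ (-1 + π w)` (polynomials in `Z`), so
`π^{(ℓ-1) n} Q = 0`; by descending induction: if `π^(i+1) Q = 0` then `π^i Q` is in the kernel of `π`, so it is
some `ram e` (R18), fixed by `Gal`, so it is `0` by (2).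
(4) `vJ` facts: `π (v Q) = ℓ Q` (from `sum_zJ`), `v` additive, commutes with `Z`, `symJ σ` (`σ` fixing
`ζ`) and `jacMap j`. (5) `ℓ`-divisibility: by R19 `Q = π^(ℓ-1) Q' = ℓ (-1 + π w) Q'`.
(6) `σ ↦ σ Q` is locally constant: `Q = cl D` and `D` is fixed by the automorphisms which fix the
coordinates of the finitely many points of its support.
-/

open Polynomial IsDedekindDomain

open scoped Classical

namespace Pool.Agent.Lib.MP_89bcae_ag.Sup

universe u

section

variable {ℓ : ℕ} {E : Type u} [Field E] {f : E[X]} [hG : IsGood ℓ f]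

lemma vJ_add (ζ : E) (hζ : ζ ^ ℓ = 1) (Q Q' : Jac ℓ f) :
    vJ ζ hζ (Q + Q') = vJ ζ hζ Q + vJ ζ hζ Q' := by
  unfold vJ
  rw [← Finset.sum_add_distrib]
  refine Finset.sum_congr rfl fun k _ => ?_
  rw [← Finset.sum_add_distrib]
  refine Finset.sum_congr rfl fun i _ => ?_
  exact iterate_map_add (zJ ζ hζ) i Q Q'

private lemma G07_vJ_zero (ζ : E) (hζ : ζ ^ ℓ = 1) : vJ ζ hζ (0 : Jac ℓ f) = 0 := by
  have h := vJ_add ζ hζ (0 : Jac ℓ f) 0
  rw [add_zero] at h
  exact left_eq_add.mp h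

private noncomputable def G07_vHom (ζ : E) (hζ : ζ ^ ℓ = 1) : Jac ℓ f →+ Jac ℓ f where
  toFun := vJ ζ hζ
  map_zero' := G07_vJ_zero ζ hζ
  map_add' := vJ_add ζ hζ

lemma vJ_sub (ζ : E) (hζ : ζ ^ ℓ = 1) (Q Q' : Jac ℓ f) :
    vJ ζ hζ (Q - Q') = vJ ζ hζ Q - vJ ζ hζ Q' :=
  map_sub (G07_vHom ζ hζ) Q Q'

lemma vJ_smul (ζ : E) (hζ : ζ ^ ℓ = 1) (n : ℕ) (Q : Jac ℓ f) :
    vJ ζ hζ (n • Q) = n • vJ ζ hζ Q :=
  map_nsmul (G07_vHom ζ hζ) n Q

/-- A homomorphism which commutes with `Z` commutes with `v`. -/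
private lemma G07_vJ_semiconj {E' : Type u} [Field E'] {f' : E'[X]} [hG' : IsGood ℓ f'] (ζ : E)
    (hζ : ζ ^ ℓ = 1) (ζ' : E') (hζ' : ζ' ^ ℓ = 1) (h : Jac ℓ f →+ Jac ℓ f')
    (hh : ∀ Q, zJ ζ' hζ' (h Q) = h (zJ ζ hζ Q)) (Q : Jac ℓ f) :
    vJ ζ' hζ' (h Q) = h (vJ ζ hζ Q) := by
  have hs : Function.Semiconj h (zJ ζ hζ) (zJ ζ' hζ') := fun Q => (hh Q).symm
  unfold vJ
  rw [map_sum]
  refine Finset.sum_congr rfl fun k _ => ?_
  rw [map_sum]
  refine Finset.sum_congr rfl fun i _ => ?_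
  exact ((hs.iterate_right i) Q).symm

lemma vJ_zJ (ζ : E) (hζ : ζ ^ ℓ = 1) (Q : Jac ℓ f) :
    vJ ζ hζ (zJ ζ hζ Q) = zJ ζ hζ (vJ ζ hζ Q) :=
  G07_vJ_semiconj ζ hζ ζ hζ (zJ ζ hζ) (fun _ => rfl) Q

lemma vJ_sub_zJ (ζ : E) (hζ : IsPrimitiveRoot ζ ℓ) (Q : Jac ℓ f) :
    vJ ζ hζ.pow_eq_one Q - zJ ζ hζ.pow_eq_one (vJ ζ hζ.pow_eq_one Q) = ℓ • Q := by
  have h0 := sum_zJ ζ hζ Q
  unfold vJ
  rw [map_sum, ← Finset.sum_sub_distrib]
  have h1 : ∀ k ∈ Finset.range ℓ, (∑ i ∈ Finset.range k, (zJ ζ hζ.pow_eq_one)^[i] Q) -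
      zJ ζ hζ.pow_eq_one (∑ i ∈ Finset.range k, (zJ ζ hζ.pow_eq_one)^[i] Q) =
      Q - (zJ ζ hζ.pow_eq_one)^[k] Q := by
    intro k _
    rw [map_sum, ← Finset.sum_sub_distrib]
    have h2 : ∀ i ∈ Finset.range k, (zJ ζ hζ.pow_eq_one)^[i] Q -
        zJ ζ hζ.pow_eq_one ((zJ ζ hζ.pow_eq_one)^[i] Q) =
        (fun j => (zJ ζ hζ.pow_eq_one)^[j] Q) i - (fun j => (zJ ζ hζ.pow_eq_one)^[j] Q) (i + 1) := by
      intro i _
      simp only [Function.iterate_succ_apply']
    rw [Finset.sum_congr rfl h2, Finset.sum_range_sub']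
    rfl
  rw [Finset.sum_congr rfl h1, Finset.sum_sub_distrib, h0, sub_zero, Finset.sum_const,
    Finset.card_range]

lemma vJ_symJ (ζ : E) (hζ : ζ ^ ℓ = 1) (σ : Sym f) (hσ : (σ : E ≃+* E) ζ = ζ) (Q : Jac ℓ f) :
    vJ ζ hζ (symJ σ Q) = symJ σ (vJ ζ hζ Q) :=
  G07_vJ_semiconj ζ hζ ζ hζ (symJ σ) (fun Q => zJ_symJ ζ hζ σ hσ Q) Q

lemma vJ_jacMap {E' : Type u} [Field E'] {f' : E'[X]} [hG' : IsGood ℓ f'] (σ : E →+* E')
    (h : f.map σ = f') (ζ : E) (hζ : ζ ^ ℓ = 1) (hζ' : (σ ζ) ^ ℓ = 1) (Q : Jac ℓ f) :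
    vJ (σ ζ) hζ' (jacMap ℓ σ h Q) = jacMap ℓ σ h (vJ ζ hζ Q) :=
  G07_vJ_semiconj ζ hζ (σ ζ) hζ' (jacMap ℓ σ h) (fun Q => zJ_jacMap σ h ζ hζ hζ' Q) Q

/-- The operator `π = 1 - Z` in the ring of endomorphisms, with the identity of `A01`. -/
private lemma G07_identity (ζ : E) (hζ : IsPrimitiveRoot ζ ℓ) :
    ∃ p U : AddMonoid.End (Jac ℓ f), (∀ Q, p Q = Q - zJ ζ hζ.pow_eq_one Q) ∧
      p ^ (ℓ - 1) = (ℓ : AddMonoid.End (Jac ℓ f)) * U := by
  let z : AddMonoid.End (Jac ℓ f) := zJ ζ hζ.pow_eq_one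
  let S : ℤ[X] := ∑ i ∈ Finset.range ℓ, X ^ i
  have hS : aeval z S = 0 := by
    refine AddMonoidHom.ext fun Q => ?_
    have h := sum_zJ ζ hζ Q
    have h2 : aeval z S = ∑ i ∈ Finset.range ℓ, z ^ i := by
      simp only [S, map_sum, map_pow, aeval_X]
    rw [h2]
    have h3 : (∑ i ∈ Finset.range ℓ, z ^ i : AddMonoid.End (Jac ℓ f)) Q =
        ∑ i ∈ Finset.range ℓ, (z ^ i) Q := AddMonoidHom.finsetSum_apply _ _ _
    exact h3.trans h
  let B : Type := ℤ[X] ⧸ Ideal.span {S}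
  let φ : B →+* AddMonoid.End (Jac ℓ f) :=
    Ideal.Quotient.lift (Ideal.span {S}) (aeval z : ℤ[X] →ₐ[ℤ] AddMonoid.End (Jac ℓ f)).toRingHom
      (by
        intro a ha
        obtain ⟨b, rfl⟩ := Ideal.mem_span_singleton'.mp ha
        show aeval z (b * S) = 0
        rw [map_mul, hS, mul_zero])
  have hz : ∑ i ∈ Finset.range ℓ, (Ideal.Quotient.mk (Ideal.span {S}) X : B) ^ i = 0 := by
    have h : (Ideal.Quotient.mk (Ideal.span {S}) S : B) = 0 :=
      Ideal.Quotient.eq_zero_iff_mem.mpr (Ideal.mem_span_singleton_self S)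
    rw [← h]
    simp only [S, map_sum, map_pow]
  obtain ⟨v, w, h1, h2⟩ := exists_pi_identity hG.prime (Ideal.Quotient.mk (Ideal.span {S}) X : B) hz
  have hφX : φ (Ideal.Quotient.mk (Ideal.span {S}) X) = z := by
    show aeval z X = z
    exact aeval_X z
  refine ⟨1 - z, φ (-1 + (1 - Ideal.Quotient.mk (Ideal.span {S}) X) * w), fun Q => rfl, ?_⟩
  have h3 := congrArg φ h2
  rw [map_pow, map_mul, map_natCast, map_sub, map_one, hφX] at h3
  exact h3

/-- (5) -/
lemma exists_smul_eq (ζ : E) (hζ : IsPrimitiveRoot ζ ℓ) (Q : Jac ℓ f) :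
    ∃ Q' : Jac ℓ f, ℓ • Q' = Q := by
  obtain ⟨p, U, hp, hU⟩ := G07_identity (f := f) ζ hζ
  have hs : ∀ n : ℕ, ∃ Q' : Jac ℓ f, (p ^ n) Q' = Q := by
    intro n
    induction n with
    | zero => exact ⟨Q, rfl⟩
    | succ n ih =>
      obtain ⟨Q', hQ'⟩ := ih
      obtain ⟨Q'', hQ''⟩ := exists_sub_zJ ζ hζ Q'
      refine ⟨Q'', ?_⟩
      rw [pow_succ]
      show (p ^ n) (p Q'') = Q
      rw [hp, hQ'', hQ']
  obtain ⟨Q', hQ'⟩ := hs (ℓ - 1)
  refine ⟨U Q', ?_⟩
  rw [hU] at hQ'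
  exact hQ'

/-- A class killed by `ℓ` is killed by `(1 - Z)^(ℓ-1)`. -/
lemma iterate_eq_zero_of_smul (ζ : E) (hζ : IsPrimitiveRoot ζ ℓ) (n : ℕ) (Q : Jac ℓ f)
    (hQ : ℓ ^ n • Q = 0) : (fun x => x - zJ ζ hζ.pow_eq_one x)^[(ℓ - 1) * n] Q = 0 := by
  obtain ⟨p, U, hp, hU⟩ := G07_identity (f := f) ζ hζ
  have hfun : (fun x => x - zJ ζ hζ.pow_eq_one x) = (p : Jac ℓ f → Jac ℓ f) := by
    funext x
    exact (hp x).symm
  have h1 : (fun x => x - zJ ζ hζ.pow_eq_one x)^[(ℓ - 1) * n] Q = (p ^ ((ℓ - 1) * n)) Q := by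
    rw [hfun]
    rfl
  rw [h1, pow_mul, hU, (Nat.cast_commute ℓ U).mul_pow, ((Nat.cast_commute ℓ U).pow_pow n n).eq]
  show (U ^ n) (((ℓ : AddMonoid.End (Jac ℓ f)) ^ n) Q) = 0
  rw [← Nat.cast_pow, AddMonoid.End.natCast_apply, hQ, map_zero]

/-- Image of a ramified class under a homomorphism of fields. -/
lemma jacMap_ram {E' : Type u} [Field E'] {f' : E'[X]} [hG' : IsGood ℓ f'] (σ : E →+* E')
    (h : f.map σ = f') (e : E → ℤ) (e' : E' → ℤ) (he : ∀ θ, f.eval θ = 0 → e' (σ θ) = e θ) :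
    jacMap ℓ σ h (ram e) = ram e' := by
  unfold ram
  rw [jacMap_cl]
  congr 1
  have hinj : Function.Injective (Pt.map σ h : Pt ℓ f → Pt ℓ f') := by
    intro P P' hPP
    have h1 : σ P.x = σ P'.x := congrArg Pt.x hPP
    have h2 : σ P.y = σ P'.y := congrArg Pt.y hPP
    exact Pt.ext (σ.injective h1) (σ.injective h2)
  ext P'
  by_cases hP' : P' ∈ Set.range (Pt.map σ h : Pt ℓ f → Pt ℓ f')
  · obtain ⟨P, rfl⟩ := hP'
    rw [Finsupp.mapDomain_apply hinj, ramDiv_apply, ramDiv_apply]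
    by_cases hy : P.y = 0
    · have hy' : (Pt.map σ h P).y = 0 := by
        show σ P.y = 0
        rw [hy, map_zero]
      rw [if_pos hy, if_pos hy']
      exact (he P.x (R15_root P hy)).symm
    · have hy' : (Pt.map σ h P).y ≠ 0 := by
        show σ P.y ≠ 0
        exact fun h0 => hy ((map_eq_zero σ).mp h0)
      rw [if_neg hy, if_neg hy']
  · rw [Finsupp.mapDomain_of_notMem_range _ _ hP', ramDiv_apply]
    have hy' : P'.y ≠ 0 := by
      intro hy
      apply hP'
      have := hG.alg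
      have hr : f'.eval P'.x = 0 := R15_root P' hy
      have hf0 : f ≠ 0 := hG.separable.ne_zero
      have hx : P'.x ∈ σ.range := by
        apply (IsAlgClosed.splits f).mem_range_of_isRoot hf0
        rw [h]
        exact hr
      obtain ⟨x, hx⟩ := hx
      have hfx : f.eval x = 0 := by
        apply σ.injective
        rw [map_zero, ← Polynomial.eval_map_apply, h, hx]
        exact hr
      refine ⟨⟨x, 0, by rw [hfx, zero_pow hG.prime.ne_zero]⟩, ?_⟩
      refine Pt.ext hx ?_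
      show σ 0 = P'.y
      rw [map_zero, hy]
    rw [if_neg hy']

end


variable {k F L Ω : Type u} [Field k] [Field F] [Algebra k F] [Field L] [Algebra F[X] L]
  [Field Ω] [Algebra L Ω] [IsAlgClosure k F] [IsFractionRing F[X] L] [IsAlgClosure L Ω]
  {ℓ : ℕ} {g D : k[X]} [hG : IsGood ℓ (cOver k F L Ω g D)] {ζ : k}

/-- The polynomial `g(x) - t` is irreducible. -/
private lemma G07_irreducible {F L : Type u} [Field F] [Field L] [Algebra F[X] L]
    [IsFractionRing F[X] L] (G : F[X]) (hG : G.Monic) (hG0 : G.natDegree ≠ 0) :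
    ((G.map (C : F →+* F[X]) - C X).map (algebraMap F[X] L)).Monic ∧
    Irreducible ((G.map (C : F →+* F[X]) - C X).map (algebraMap F[X] L)) := by
  have hm : (G.map (C : F →+* F[X]) - C X : F[X][X]).Monic := by
    apply (hG.map C).sub_of_left
    refine lt_of_le_of_lt degree_C_le ?_
    rw [← natDegree_pos_iff_degree_pos, hG.natDegree_map]
    exact Nat.pos_of_ne_zero hG0
  refine ⟨hm.map _, (hm.irreducible_iff_irreducible_map_fraction_map).mp ?_⟩
  have h1 : Bivariate.swap (R := F) (G.map (C : F →+* F[X]) - C X) = -(X - C G) := by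
    rw [map_sub, Bivariate.swap_map_C, Bivariate.swap_X, neg_sub]
  rw [← MulEquiv.irreducible_iff (Bivariate.swap (R := F))]
  rw [h1]
  exact (Associated.neg_left (Associated.refl (X - C G))).irreducible_iff.mpr (irreducible_X_sub_C G)

private lemma G07_base_injective {A : Type u} [Field A] [Algebra L A] :
    Function.Injective (base k F L A) := by
  unfold base
  rw [RingHom.coe_comp, RingHom.coe_comp]
  refine (algebraMap L A).injective.comp ((IsFractionRing.injective F[X] L).comp ?_)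
  exact Polynomial.map_injective _ (algebraMap k F).injective

private lemma G07_natDegree_ne (H : GlobHyp ℓ g D ζ) : g.natDegree ≠ 0 := by
  intro h
  have h1 := H.cop
  rw [h, Nat.coprime_zero_left] at h1
  exact H.prime.one_lt.ne' h1

/-- The polynomial `g(x) - t` over `L`. -/
private noncomputable def G07_P (F L : Type u) [Field F] [Algebra k F] [Field L] [Algebra F[X] L]
    (g : k[X]) : L[X] :=
  (((g.map (algebraMap k F)).map (C : F →+* F[X]) - C X).map (algebraMap F[X] L))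

omit [Field Ω] [Algebra L Ω] [IsAlgClosure k F] [IsFractionRing F[X] L] [IsAlgClosure L Ω] hG in
private lemma G07_curvePoly (D : k[X]) : curvePoly k F L g D =
    C ((base k F L L D)⁻¹) * G07_P F L g := by
  unfold curvePoly G07_P
  rw [Polynomial.map_sub, Polynomial.map_map, Polynomial.map_map, Polynomial.map_C]
  have h1 : base k F L L X = algebraMap F[X] L X := by
    unfold base
    rw [RingHom.comp_apply, RingHom.comp_apply, coe_mapRingHom, Polynomial.map_X]
    rfl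
  have h2 : (base k F L L).comp C = (algebraMap F[X] L).comp (C.comp (algebraMap k F)) := by
    ext a
    unfold base
    rw [RingHom.comp_apply, RingHom.comp_apply, RingHom.comp_apply, coe_mapRingHom,
      Polynomial.map_C]
    rfl
  rw [h1, h2, RingHom.comp_assoc]

private lemma G07_root (H : GlobHyp ℓ g D ζ) {θ : Ω} (hθ : θ ∈ rts (cOver k F L Ω g D)) :
    aeval θ (G07_P F L g) = 0 := by
  rw [mem_rts hG.separable.ne_zero] at hθ
  unfold cOver at hθ
  rw [eval_map_algebraMap, G07_curvePoly, map_mul, aeval_C] at hθ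
  have hD : D ≠ 0 := by
    intro h
    exact H.pos (by rw [h, natDegree_zero])
  have h1 : base k F L L D ≠ 0 := by
    intro h
    exact hD (G07_base_injective (by rw [h, map_zero]))
  rcases mul_eq_zero.mp hθ with h | h
  · exact absurd ((map_eq_zero _).mp h) (inv_ne_zero h1)
  · exact h

/-- (1) -/
theorem exists_gal_root (H : GlobHyp ℓ g D ζ) {θ θ' : Ω} (hθ : θ ∈ rts (cOver k F L Ω g D))
    (hθ' : θ' ∈ rts (cOver k F L Ω g D)) : ∃ σ : Ω ≃ₐ[L] Ω, σ θ = θ' := by
  have hN := G07_natDegree_ne H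
  obtain ⟨hm, hirr⟩ := G07_irreducible (L := L) (g.map (algebraMap k F)) (H.monic.map _)
    (by rwa [H.monic.natDegree_map])
  have h1 := minpoly.eq_of_irreducible_of_monic hirr (G07_root H hθ) hm
  have h2 := minpoly.eq_of_irreducible_of_monic hirr (G07_root H hθ') hm
  have : Normal L Ω := IsAlgClosure.normal L Ω
  have h3 : IsConjRoot L θ' θ := by
    show minpoly L θ' = minpoly L θ
    rw [← h1, ← h2]
  obtain ⟨σ, hσ⟩ := h3.exists_algEquiv
  exact ⟨σ, hσ⟩

lemma zA_primitive (H : GlobHyp ℓ g D ζ) {A : Type u} [Field A] [Algebra L A] :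
    IsPrimitiveRoot (zA F L A ζ) ℓ := by
  have h := H.zeta.map_of_injective (f := (base k F L A).comp (C : k →+* k[X]))
    ((base k F L A).comp (C : k →+* k[X])).injective
  exact h


end Pool.Agent.Lib.MP_89bcae_ag.Sup

end

section

/-!
ROW G12 (200-350 lines). The exponents of a cocycle.

`HasExp c e`: the class of `c` modulo `π` is given by the Kummer functions
`∏_{β ∈ RR} (θ - β)^{e β}`. PROOFS. Write `E_e(θ) = ∏_{β∈RR} (θ - β)^{e β}`.
`n_of`: for `σ` and `z` with `(z θ)^ℓ = E_e(θ)` on the roots there is `n` with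
`σ (z θ) = ζ^{n(σθ)} z(σθ)`: the `ℓ`-th powers agree (`σ` fixes `F`, permutes the roots). So the third
field applies to some `n`, and it depends only on `n` modulo `ℓ` on the roots.
`add`: take `z z'`; given `n` for `z z'` take `n₁`, `n₂` for `z`, `z'`: `n ≡ n₁ + n₂`. `neg`: `z⁻¹`.
`congr` (`e' = e + ℓ h` on `RR`): `z' = z ∏ (θ - β)^{h β}`. `zC`: `v (Z c₁) = Z (v c₁) = Z (ram n) = ram n`.
`act`: let `γ` have restriction `U` to `F` fixing `RR` pointwise. `z' θ = γ (z (γ⁻¹ θ))`: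
`(z' θ)^ℓ = γ (E_e(γ⁻¹θ)) = E_e(θ)`. For `σ`, with `σ' = γ⁻¹ σ γ` (`conjG`): if
`σ' (z θ) = ζ^{n'(σ'θ)} z(σ'θ)` then `σ (z' (γθ)) = γ σ' (z θ) = ζ^{n'(σ'θ)} z'(γ σ' θ)`, i.e.
`n(θ) ≡ n'(γ⁻¹θ)`, and `v ((act γ c) 1 σ) = γ (v (c 1 σ')) = γ (ram n') = ram (n' ∘ γ⁻¹)` (`symJ_ram`).
`dvd_of_TTc`: `c 1 σ = σA - A`, `ℓ A = 0`; `B = v A` is killed by `π`, `B = ram m₀` (R18), so
`v (c 1 σ) = σB - B = ram (m₀ ∘ σ⁻¹ - m₀)`. With `z'θ = ζ^{-m₀(θ)} z θ` we get
`σ (z' θ) = ζ^{k(σ)} z'(σθ)` with `k(σ)` independent of `θ` (R18 (C): compare with `ram n`). Let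
`m = deg g`, `w = ∏_θ z' θ`, `σ w = ζ^{m k(σ)} w`, `x_θ = (z' θ)^m / w`; `σ x_θ = x_{σθ}`. Fix `θ`: `x_θ` is fixed
by the stabilizer of `θ`, so `x_θ^{p^s} = A(θ)/B(θ)` (G10). `x_θ^ℓ = E_e(θ)^m / ∏_θ' E_e(θ')` and
`∏_{θ'} E_e(θ') = ∏_β (±(g(β) - t))^{e β} = ± ∏_a (a - t)^{∑_{g(β)=a} e β}` is plus or minus an `ℓ`-th
power of a rational function of `t = g(θ)`. So `E_e(θ)^{m p^s}` is a constant times the `ℓ`-th power
of a quotient of polynomials in `θ`; `dvd_of_prod_eq_pow` gives `ℓ ∣ m p^s e β`, `ℓ ∣ e β`.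
-/

open Polynomial IsDedekindDomain

open scoped Classical

namespace Pool.Agent.Lib.MP_89bcae_ag.Sup

universe u

/-- The set of the roots of `D(g(x))` in `F`. -/
noncomputable def RR {k : Type u} (F : Type u) [Field k] [Field F] [Algebra k F] (g D : k[X]) :
    Finset F :=
  ((D.comp g).map (algebraMap k F)).roots.toFinset

lemma mem_RR {k F : Type u} [Field k] [Field F] [Algebra k F] {g D : k[X]} {ℓ : ℕ} {ζ : k}
    (H : GlobHyp ℓ g D ζ) {β : F} : β ∈ RR F g D ↔ aeval (aeval β g) D = 0 := by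
  have h1 : (D.comp g).map (algebraMap k F) ≠ 0 :=
    (Polynomial.map_ne_zero_iff (algebraMap k F).injective).2 H.sep.ne_zero
  rw [RR, Multiset.mem_toFinset, mem_roots h1, IsRoot.def, eval_map_algebraMap, aeval_comp]

section

variable {ℓ : ℕ} {E : Type u} [Field E] {f : E[X]}

private lemma g12_mem_rts {θ : E} (hG : IsGood ℓ f) : θ ∈ rts f ↔ f.eval θ = 0 :=
  mem_rts hG.separable.ne_zero


private lemma g12_exists {ζ x y : E} (hℓ : ℓ ≠ 0) (hζ : IsPrimitiveRoot ζ ℓ) (hy : y ≠ 0)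
    (h : x ^ ℓ = y ^ ℓ) : ∃ n : ℤ, x = ζ ^ n * y := by
  have : NeZero ℓ := ⟨hℓ⟩
  have h1 : (x / y) ^ ℓ = 1 := by
    rw [div_pow, h, div_self (pow_ne_zero _ hy)]
  obtain ⟨i, -, hi⟩ := hζ.eq_pow_of_pow_eq_one h1
  refine ⟨i, ?_⟩
  rw [zpow_natCast, hi, div_mul_cancel₀ _ hy]


end


variable {k F L Ω : Type u} [Field k] [Field F] [Algebra k F] [Field L] [Algebra F[X] L]
  [Field Ω] [Algebra L Ω] [IsAlgClosure k F] [IsFractionRing F[X] L] [IsAlgClosure L Ω]
  [Algebra F Ω] {ℓ : ℕ} {g D : k[X]} [hG : IsGood ℓ (cOver k F L Ω g D)] {ζ : k}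


omit [IsAlgClosure k F] [IsFractionRing F[X] L] [IsAlgClosure L Ω] [Algebra F Ω] hG in
private lemma g12_stable (hG : IsGood ℓ (cOver k F L Ω g D)) (γ : AutO k F L Ω) {θ : Ω} :
    (γ : Ω ≃+* Ω) θ ∈ rts (cOver k F L Ω g D) ↔ θ ∈ rts (cOver k F L Ω g D) := by
  rw [g12_mem_rts hG, g12_mem_rts hG]
  have h1 := (toSym g D γ).2
  have h2 : (cOver k F L Ω g D).eval ((γ : Ω ≃+* Ω) θ) =
      (γ : Ω ≃+* Ω) ((cOver k F L Ω g D).eval θ) := by
    conv_lhs => rw [← h1]
    rw [eval_map]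
    exact eval₂_hom (p := cOver k F L Ω g D) ((γ : Ω ≃+* Ω) : Ω →+* Ω) θ
  rw [h2]
  exact map_eq_zero_iff _ (γ : Ω ≃+* Ω).injective

omit [IsAlgClosure k F] [IsFractionRing F[X] L] [IsAlgClosure L Ω] [Algebra F Ω] hG in
private lemma g12_smul_mem (hG : IsGood ℓ (cOver k F L Ω g D)) (σ : Ω ≃ₐ[L] Ω) {θ : Ω} :
    σ θ ∈ rts (cOver k F L Ω g D) ↔ θ ∈ rts (cOver k F L Ω g D) :=
  g12_stable hG (galA k F σ)


omit [IsAlgClosure k F] [IsFractionRing F[X] L] [IsAlgClosure L Ω] hG in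
private lemma g12_const (hF : CompatF F L Ω) (σ : Ω ≃ₐ[L] Ω) (c : F) :
    σ (algebraMap F Ω c) = algebraMap F Ω c := by
  rw [hF c]
  exact σ.commutes _

omit hG in
private lemma g12_ne (hF : CompatF F L Ω) (H : GlobHyp ℓ g D ζ) {θ : Ω}
    (hθ : θ ∈ rts (cOver k F L Ω g D)) (β : F) : θ - algebraMap F Ω β ≠ 0 := by
  have h1 : aeval θ (X - C β : F[X]) = θ - algebraMap F Ω β := by
    rw [map_sub, aeval_X, aeval_C]
  rw [← h1, Ne, map_eq_zero_iff _ (aeval_root_injective hF H hθ)]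
  exact X_sub_C_ne_zero β

/-- The product `∏ (θ - β)^{e β}`. -/
private noncomputable def g12_E (F : Type u) {k Ω : Type u} [Field k] [Field F] [Algebra k F]
    [Field Ω] [Algebra F Ω] (g D : k[X]) (e : F → ℤ) (θ : Ω) : Ω :=
  ∏ β ∈ RR F g D, (θ - algebraMap F Ω β) ^ e β

omit hG in
private lemma g12_E_ne (hF : CompatF F L Ω) (H : GlobHyp ℓ g D ζ) (e : F → ℤ) {θ : Ω}
    (hθ : θ ∈ rts (cOver k F L Ω g D)) : g12_E F g D e θ ≠ 0 :=
  Finset.prod_ne_zero_iff.2 fun β _ => zpow_ne_zero _ (g12_ne hF H hθ β)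

omit [IsAlgClosure k F] [IsFractionRing F[X] L] [IsAlgClosure L Ω] in
private lemma g12_E_map (hF : CompatF F L Ω) (e : F → ℤ) (σ : Ω ≃ₐ[L] Ω) (θ : Ω) :
    σ (g12_E F g D e θ) = g12_E F g D e (σ θ) := by
  rw [g12_E, map_prod, g12_E]
  refine Finset.prod_congr rfl fun β _ => ?_
  rw [map_zpow₀, map_sub, g12_const hF]


private lemma g12_z_ne (hF : CompatF F L Ω) (H : GlobHyp ℓ g D ζ) (e : F → ℤ) {x θ : Ω}
    (hθ : θ ∈ rts (cOver k F L Ω g D)) (hx : x ^ ℓ = g12_E F g D e θ) : x ≠ 0 := by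
  rintro rfl
  rw [zero_pow H.prime.ne_zero] at hx
  exact g12_E_ne hF H e hθ hx.symm

/-- The exponents `n` exist. -/
lemma exists_n_of_pow (hF : CompatF F L Ω) (H : GlobHyp ℓ g D ζ) (e : F → ℤ) {z : Ω → Ω}
    (hz : ∀ θ ∈ rts (cOver k F L Ω g D),
      z θ ^ ℓ = ∏ β ∈ RR F g D, (θ - algebraMap F Ω β) ^ e β) (σ : Ω ≃ₐ[L] Ω) :
    ∃ n : Ω → ℤ, ∀ θ ∈ rts (cOver k F L Ω g D),
      σ (z θ) = zA F L Ω ζ ^ n (σ θ) * z (σ θ) := by
  have h1 : ∀ θ : Ω, ∃ n : ℤ, θ ∈ rts (cOver k F L Ω g D) →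
      σ (z θ) = zA F L Ω ζ ^ n * z (σ θ) := by
    intro θ
    by_cases hθ : θ ∈ rts (cOver k F L Ω g D)
    · have hσθ := (g12_smul_mem hG σ).2 hθ
      obtain ⟨n, hn⟩ := g12_exists H.prime.ne_zero
        (zA_primitive (F := F) (L := L) (A := Ω) H)
        (g12_z_ne hF H e hσθ (hz _ hσθ)) (x := σ (z θ)) (by
          rw [← map_pow, hz θ hθ, hz _ hσθ]
          exact g12_E_map hF e σ θ)
      exact ⟨n, fun _ => hn⟩
    · exact ⟨0, fun h => absurd h hθ⟩
  choose n hn using h1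
  refine ⟨fun θ => n (σ⁻¹ θ), fun θ hθ => ?_⟩
  have h2 : σ⁻¹ (σ θ) = θ := σ.symm_apply_apply θ
  simp only [h2]
  exact hn θ hθ


variable {hζ : (zA F L Ω ζ) ^ ℓ = 1}


end Pool.Agent.Lib.MP_89bcae_ag.Sup

end

section

section

/-!
# Towers: cocycles of a normal subgroup `N` of `Gal(Ω/L)`, definitions

The curve is `y ^ ℓ = g(x) - t`, i.e. `curvePoly k F L g 1` (in the formal part `D` is arbitrary);
`E` is the polynomial of the tower `s ^ (ℓ ^ r) = E(t)`, `RR F g E` are the roots of `E(g(x))`.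
-/

open Polynomial IsDedekindDomain

open scoped Classical

set_option linter.unusedSectionVars false

namespace Pool.Agent.Lib.MP_89bcae_ag.Sup

universe u

section

variable {k F L Ω : Type u} [Field k] [Field F] [Algebra k F] [Field L] [Algebra F[X] L]
  [Field Ω] [Algebra L Ω]

/-- The maps from `Gal(Ω/L)` to the Jacobian. -/
abbrev Ch (ℓ : ℕ) (k F L Ω : Type u) [Field k] [Field F] [Algebra k F] [Field L]
    [Algebra F[X] L] [Field Ω] [Algebra L Ω] (g D : k[X]) : Type u :=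
  (Ω ≃ₐ[L] Ω) → JacOver ℓ (curvePoly k F L g D) Ω

/-- The subgroup `N` is stable under conjugation by `Aut(Ω/k(t))`. -/
def Nrm (k F : Type u) {L Ω : Type u} [Field k] [Field F] [Algebra k F] [IsAlgClosure k F]
    [Field L] [Algebra F[X] L] [IsFractionRing F[X] L] [Field Ω] [Algebra L Ω]
    [IsAlgClosure L Ω] (N : Subgroup (Ω ≃ₐ[L] Ω)) : Prop :=
  ∀ (γ : AutO k F L Ω), ∀ σ ∈ N, conjG γ σ ∈ N

/-- The image in `Ω` of an element of `F`. -/
noncomputable def xA (F L Ω : Type u) [Field F] [Field L] [Algebra F[X] L] [Field Ω]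
    [Algebra L Ω] (x : F) : Ω :=
  algebraMap L Ω (algebraMap F[X] L (C x))

/-- The exponents `q` of the action on the roots of unity of `ℓ`-power order. -/
def QOk (ℓ q : ℕ) : Prop := 0 < q ∧ ℓ ∣ q - 1 ∧ ℓ ∣ q.choose 2

/-- The subgroup `N` is open. -/
def Opn {L Ω : Type u} [Field L] [Field Ω] [Algebra L Ω] (N : Subgroup (Ω ≃ₐ[L] Ω)) : Prop :=
  ∃ S : Finset Ω, ∀ σ : Ω ≃ₐ[L] Ω, (∀ x ∈ S, σ x = x) → σ ∈ N

/-- The subgroup `N` is transitive on the roots of `f`. -/
def Trs {L Ω : Type u} [Field L] [Field Ω] [Algebra L Ω] (f : Polynomial Ω)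
    (N : Subgroup (Ω ≃ₐ[L] Ω)) : Prop :=
  ∀ θ ∈ rts f, ∀ θ' ∈ rts f, ∃ σ ∈ N, σ θ = θ'

end

section

variable {k F L Ω : Type u} [Field k] [Field F] [Algebra k F] [Field L] [Algebra F[X] L]
  [Field Ω] [Algebra L Ω] [IsAlgClosure k F] [IsFractionRing F[X] L] [IsAlgClosure L Ω]
  {ℓ : ℕ} {g D : k[X]} [hG : IsGood ℓ (cOver k F L Ω g D)]

/-- The action of `Aut(Ω/k(t))` on the maps from `Gal(Ω/L)`. -/
noncomputable def act1 (γ : AutO k F L Ω) (x : Ch ℓ k F L Ω g D) : Ch ℓ k F L Ω g D :=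
  fun σ => symJ (toSym g D γ) (x (conjG γ⁻¹ σ))

/-- The coboundary of `A`. -/
noncomputable def cob (A : JacOver ℓ (curvePoly k F L g D) Ω) : Ch ℓ k F L Ω g D :=
  fun σ => symJ (toSym g D (galA k F σ)) A - A

/-- `x` is a continuous cocycle of `N`. -/
structure C1s (N : Subgroup (Ω ≃ₐ[L] Ω)) (x : Ch ℓ k F L Ω g D) : Prop where
  cocycle : ∀ σ ∈ N, ∀ τ ∈ N, x (σ * τ) = x σ + symJ (toSym g D (galA k F σ)) (x τ)
  cont : ∃ S : Finset Ω, ∀ σ ∈ N, (∀ y ∈ S, σ y = y) → x σ = 0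

/-- `h` is a continuous cocycle of `N` with values in the fixed points of `Z`. -/
structure MCs (ζ : k) (hζ : (zA F L Ω ζ) ^ ℓ = 1) (N : Subgroup (Ω ≃ₐ[L] Ω))
    (h : Ch ℓ k F L Ω g D) : Prop extends C1s N h where
  fixed : ∀ σ ∈ N, zJ (zA F L Ω ζ) hζ (h σ) = h σ

/-- `c` is a Tate cocycle of `N`. -/
structure TCs (N : Subgroup (Ω ≃ₐ[L] Ω)) (c : Coch ℓ k F L Ω g D) : Prop where
  c1 : ∀ n, C1s N (c n)
  zero : ∀ σ ∈ N, c 0 σ = 0
  smul : ∀ n, ∀ σ ∈ N, ℓ • c (n + 1) σ = c n σ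

/-- `c` is a trivial Tate cocycle of `N`. -/
def TTs (N : Subgroup (Ω ≃ₐ[L] Ω)) (c : Coch ℓ k F L Ω g D) : Prop :=
  TCs N c ∧ ∀ n, ∃ A : JacOver ℓ (curvePoly k F L g D) Ω, ℓ ^ n • A = 0 ∧
    ∀ σ ∈ N, c n σ = cob A σ

/-- The restriction to `N` of `x` is locally trivial over the field `Lv`. -/
def LocTrivOn (N : Subgroup (Ω ≃ₐ[L] Ω)) (x : Ch ℓ k F L Ω g D) (Lv : Type u) [Field Lv]
    [Algebra L Lv] : Prop :=
  ∀ (M : Type u) [Field M] [Algebra Lv M] [IsAlgClosure Lv M] [Algebra L M]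
    [IsScalarTower L Lv M] (j : Ω →ₐ[L] M), ∃ Q : JacOver ℓ (curvePoly k F L g D) M,
      ∀ (σ : M ≃ₐ[Lv] M) (σ' : Ω ≃ₐ[L] Ω), σ' ∈ N → (∀ x, j (σ' x) = σ (j x)) →
        push ℓ (curvePoly k F L g D) j (x σ') =
          push ℓ (curvePoly k F L g D) (σ.restrictScalars L : M →ₐ[L] M) Q - Q

/-- The restriction to `N` of `c` is locally trivial at all the places `t = a`. -/
def LTs (N : Subgroup (Ω ≃ₐ[L] Ω)) (c : Coch ℓ k F L Ω g D) : Prop :=
  ∀ (a : F) (n : ℕ), LocTrivOn N (c n) ((plc a).adicCompletion L)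

/-- The locally trivial Tate cocycles of `N` whose class is fixed by a power of each automorphism
over `k(t)`. -/
def WWs (N : Subgroup (Ω ≃ₐ[L] Ω)) (c : Coch ℓ k F L Ω g D) : Prop :=
  TCs N c ∧ LTs N c ∧ ∀ γ : AutO k F L Ω, ∃ M : ℕ, 0 < M ∧ TTs N (act (γ ^ M) c - c)

/-- The operator `(1 - τ) ^ n`. -/
noncomputable def pw (τ : Ω ≃ₐ[L] Ω) (n : ℕ) (c : Coch ℓ k F L Ω g D) : Coch ℓ k F L Ω g D :=
  (fun x => x - act (galA k F τ) x)^[n] c

/-- `h` is given by the Kummer functions with exponents `e`. -/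
structure HasExpM [Algebra F Ω] (ζ : k) (E : k[X]) (h : Ch ℓ k F L Ω g D) (e : F → ℤ) :
    Prop where
  sum : ∀ a : F, (ℓ : ℤ) ∣ ∑ β ∈ (RR F g E).filter (fun β => aeval β g = a), e β
  ex : ∃ z : Ω → Ω, (∀ θ ∈ rts (cOver k F L Ω g D),
      z θ ^ ℓ = ∏ β ∈ RR F g E, (θ - algebraMap F Ω β) ^ e β) ∧
    ∀ (σ : Ω ≃ₐ[L] Ω) (n : Ω → ℤ), (∀ θ ∈ rts (cOver k F L Ω g D),
      σ (z θ) = zA F L Ω ζ ^ n (σ θ) * z (σ θ)) → h σ = ram n

end

end Pool.Agent.Lib.MP_89bcae_ag.Sup

end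

section

open Polynomial IsDedekindDomain

open scoped Classical

set_option linter.unusedSectionVars false

namespace Pool.Agent.Lib.MP_89bcae_ag.Sup

universe u

/-- The operator `v` depends only on the root of unity. -/
lemma ta03_vJ_congr {ℓ : ℕ} {E : Type u} [Field E] {f : E[X]} [IsGood ℓ f] {z z' : E}
    (h : z = z') (hz : z ^ ℓ = 1) (hz' : z' ^ ℓ = 1) (Q : Jac ℓ f) :
    vJ z hz Q = vJ z' hz' Q := by
  subst h
  rfl

variable {k F L Ω : Type u} [Field k] [Field F] [Algebra k F] [Field L] [Algebra F[X] L]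
  [Field Ω] [Algebra L Ω] [IsAlgClosure k F] [IsFractionRing F[X] L] [IsAlgClosure L Ω]
  {ℓ : ℕ} {g D : k[X]} [hG : IsGood ℓ (cOver k F L Ω g D)] {N : Subgroup (Ω ≃ₐ[L] Ω)}

/-- The curve is good over every algebraically closed extension of `L`. -/
def GoodAll (ℓ : ℕ) (k F L : Type u) [Field k] [Field F] [Algebra k F] [Field L]
    [Algebra F[X] L] (g D : k[X]) : Prop :=
  ∀ (M : Type u) [Field M] [Algebra L M] [IsAlgClosed M], IsGood ℓ (cOver k F L M g D)

lemma LTs.add {c c' : Coch ℓ k F L Ω g D} (hc : LTs N c) (hc' : LTs N c') :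
    LTs N (c + c') := by
  intro a n M _ _ _ _ _ j
  obtain ⟨Q, hQ⟩ := hc a n M j
  obtain ⟨Q', hQ'⟩ := hc' a n M j
  refine ⟨Q + Q', fun s s' hs h => ?_⟩
  rw [show (c + c') n s' = c n s' + c' n s' from rfl, map_add, hQ s s' hs h, hQ' s s' hs h,
    map_add]
  abel

lemma LTs.neg {c : Coch ℓ k F L Ω g D} (hc : LTs N c) : LTs N (-c) := by
  intro a n M _ _ _ _ _ j
  obtain ⟨Q, hQ⟩ := hc a n M j
  refine ⟨-Q, fun s s' hs h => ?_⟩
  rw [show (-c) n s' = -(c n s') from rfl, map_neg, hQ s s' hs h, map_neg]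
  abel

lemma LTs.zC (hA : GoodAll ℓ k F L g D) {ζ : k} {c : Coch ℓ k F L Ω g D} (hc : LTs N c)
    (hζ : (zA F L Ω ζ) ^ ℓ = 1) : LTs N (Sup.zC ζ hζ c) := by
  intro a n M _ _ _ _ _ j
  obtain ⟨Q, hQ⟩ := hc a n M j
  have : IsAlgClosed M := IsAlgClosure.isAlgClosed ((plc a).adicCompletion L)
  have hM : IsGood ℓ (cOver k F L M g D) := hA M
  have hζM : ((j : Ω →+* M) (zA F L Ω ζ)) ^ ℓ = 1 := by
    rw [← map_pow, hζ, map_one]
  refine ⟨zJ ((j : Ω →+* M) (zA F L Ω ζ)) hζM Q, fun s s' hs h => ?_⟩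
  have h1 : push ℓ (curvePoly k F L g D) j (Sup.zC ζ hζ c n s') =
      zJ ((j : Ω →+* M) (zA F L Ω ζ)) hζM (push ℓ (curvePoly k F L g D) j (c n s')) :=
    (zJ_jacMap (j : Ω →+* M) _ (zA F L Ω ζ) hζ hζM (c n s')).symm
  have hz : ((s.restrictScalars L : M →ₐ[L] M) : M →+* M) ((j : Ω →+* M) (zA F L Ω ζ)) =
      (j : Ω →+* M) (zA F L Ω ζ) := by
    have h2 : (j : Ω →+* M) (zA F L Ω ζ) = algebraMap L M (base k F L L (C ζ)) :=
      j.commutes _
    rw [h2]
    exact (s.restrictScalars L : M →ₐ[L] M).commutes _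
  have hζM' : (((s.restrictScalars L : M →ₐ[L] M) : M →+* M)
      ((j : Ω →+* M) (zA F L Ω ζ))) ^ ℓ = 1 := by
    rw [hz, hζM]
  have h3 : push ℓ (curvePoly k F L g D) (s.restrictScalars L : M →ₐ[L] M)
      (zJ ((j : Ω →+* M) (zA F L Ω ζ)) hζM Q) = zJ ((j : Ω →+* M) (zA F L Ω ζ)) hζM
        (push ℓ (curvePoly k F L g D) (s.restrictScalars L : M →ₐ[L] M) Q) :=
    (zJ_jacMap ((s.restrictScalars L : M →ₐ[L] M) : M →+* M) _ _ hζM hζM' Q).symm.trans
      (G04_zJ_congr hz hζM' hζM _)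
  rw [h1, hQ s s' hs h, map_sub, h3]


lemma LTs.of_cob {c : Coch ℓ k F L Ω g D}
    (hc : ∀ n, ∃ A : JacOver ℓ (curvePoly k F L g D) Ω, ∀ σ ∈ N, c n σ = cob A σ) :
    LTs N c := by
  intro a n M _ _ _ _ _ j
  obtain ⟨A, hA⟩ := hc n
  refine ⟨push ℓ (curvePoly k F L g D) j A, fun s s' hs h => ?_⟩
  have e : j.comp (s' : Ω →ₐ[L] Ω) = (s.restrictScalars L : M →ₐ[L] M).comp j :=
    AlgHom.ext h
  rw [hA s' hs, cob, ← push_eq (k := k) (F := F) (g := g) (D := D) s' A, map_sub, push_push,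
    push_push, e]

lemma TTs.lts {c : Coch ℓ k F L Ω g D} (hc : TTs N c) : LTs N c := by
  refine LTs.of_cob fun n => ?_
  obtain ⟨A, _, hA⟩ := hc.2 n
  exact ⟨A, hA⟩

lemma LTs.shift {c : Coch ℓ k F L Ω g D} (hc : LTs N c) (φ : ℕ → ℕ) :
    LTs N (fun n => c (φ n) : Coch ℓ k F L Ω g D) :=
  fun a n => hc a (φ n)

lemma LTs.v (hA : GoodAll ℓ k F L g D) {ζ : k} {c : Coch ℓ k F L Ω g D} (hc : LTs N c)
    (hζ : (zA F L Ω ζ) ^ ℓ = 1) :
    LTs N (fun n σ => vJ (zA F L Ω ζ) hζ (c n σ) : Coch ℓ k F L Ω g D) := by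
  intro a n M _ _ _ _ _ j
  obtain ⟨Q, hQ⟩ := hc a n M j
  have : IsAlgClosed M := IsAlgClosure.isAlgClosed ((plc a).adicCompletion L)
  have hM : IsGood ℓ (cOver k F L M g D) := hA M
  have hζM : ((j : Ω →+* M) (zA F L Ω ζ)) ^ ℓ = 1 := by
    rw [← map_pow, hζ, map_one]
  refine ⟨vJ ((j : Ω →+* M) (zA F L Ω ζ)) hζM Q, fun s s' hs h => ?_⟩
  have h1 : push ℓ (curvePoly k F L g D) j (vJ (zA F L Ω ζ) hζ (c n s')) =
      vJ ((j : Ω →+* M) (zA F L Ω ζ)) hζM (push ℓ (curvePoly k F L g D) j (c n s')) :=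
    (vJ_jacMap (j : Ω →+* M) _ (zA F L Ω ζ) hζ hζM (c n s')).symm
  have hz : ((s.restrictScalars L : M →ₐ[L] M) : M →+* M) ((j : Ω →+* M) (zA F L Ω ζ)) =
      (j : Ω →+* M) (zA F L Ω ζ) := by
    have h2 : (j : Ω →+* M) (zA F L Ω ζ) = algebraMap L M (base k F L L (C ζ)) :=
      j.commutes _
    rw [h2]
    exact (s.restrictScalars L : M →ₐ[L] M).commutes _
  have hζM' : (((s.restrictScalars L : M →ₐ[L] M) : M →+* M)
      ((j : Ω →+* M) (zA F L Ω ζ))) ^ ℓ = 1 := by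
    rw [hz, hζM]
  have h3 : push ℓ (curvePoly k F L g D) (s.restrictScalars L : M →ₐ[L] M)
      (vJ ((j : Ω →+* M) (zA F L Ω ζ)) hζM Q) = vJ ((j : Ω →+* M) (zA F L Ω ζ)) hζM
        (push ℓ (curvePoly k F L g D) (s.restrictScalars L : M →ₐ[L] M) Q) :=
    (vJ_jacMap ((s.restrictScalars L : M →ₐ[L] M) : M →+* M) _ _ hζM hζM' Q).symm.trans
      (ta03_vJ_congr hz hζM' hζM _)
  rw [h1, hQ s s' hs h, vJ_sub, h3]

/-- From a larger group to a smaller one. -/
lemma LTs.mono {N' : Subgroup (Ω ≃ₐ[L] Ω)} (hN : N' ≤ N) {c : Coch ℓ k F L Ω g D}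
    (hc : LTs N c) : LTs N' c := by
  intro a n M _ _ _ _ _ j
  obtain ⟨Q, hQ⟩ := hc a n M j
  exact ⟨Q, fun s s' hs hj => hQ s s' (hN hs) hj⟩

end Pool.Agent.Lib.MP_89bcae_ag.Sup

end

section

open Polynomial IsDedekindDomain

open scoped Classical

set_option linter.unusedSectionVars false

namespace Pool.Agent.Lib.MP_89bcae_ag.Sup

universe u

private lemma tb00_deriv {k : Type u} [Field k] {ℓ : ℕ} {g E : k[X]} {ζ : k}
    (H : GlobHyp ℓ g E ζ) : g.natDegree ≠ 0 ∧ derivative g ≠ 0 := by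
  have hm : g.natDegree ≠ 0 := by
    intro h
    have h1 := H.cop
    rw [h, Nat.coprime_zero_left] at h1
    exact H.prime.one_lt.ne' h1
  refine ⟨hm, fun h0 => ?_⟩
  have h1 := H.sep
  rw [separable_def, derivative_comp, h0, zero_mul, isCoprime_zero_right] at h1
  have h2 := natDegree_eq_zero_of_isUnit h1
  rw [natDegree_comp] at h2
  rcases mul_eq_zero.1 h2 with h3 | h3
  · exact H.pos h3
  · exact hm h3

variable {k F L Ω : Type u} [Field k] [Field F] [Algebra k F] [Field L] [Algebra F[X] L]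
  [Field Ω] [Algebra L Ω] [IsAlgClosure k F] [IsFractionRing F[X] L] [IsAlgClosure L Ω]
  [Algebra F Ω] {ℓ : ℕ} {g E : k[X]} [hG : IsGood ℓ (cOver k F L Ω g 1)] {ζ : k}
  {hζ : (zA F L Ω ζ) ^ ℓ = 1} {N : Subgroup (Ω ≃ₐ[L] Ω)}

omit [Field Ω] [Algebra L Ω] [IsAlgClosure k F] [IsFractionRing F[X] L] [IsAlgClosure L Ω]
  [Algebra F Ω] hG in
private lemma tb00_cOver_one {A : Type u} [Field A] [Algebra L A] [Algebra F A]
    (hF : CompatF F L A) (g : k[X]) :
    cOver k F L A g 1 = locPoly (g.map (algebraMap k F)) (tA F L A) 1 := by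
  rw [cOver_eq_locPoly hF, Polynomial.map_one, map_one]

omit [Field Ω] [Algebra L Ω] [IsAlgClosure L Ω] [Algebra F Ω] hG in
private lemma tb00_good (H : GlobHyp ℓ g E ζ) {A : Type u} [Field A] [Algebra L A]
    [IsAlgClosed A] : IsGood ℓ (cOver k F L A g 1) := by
  let _ : Algebra F A := ((algebraMap L A).comp ((algebraMap F[X] L).comp C)).toAlgebra
  have hF : CompatF F L A := fun c => rfl
  have : IsAlgClosed F := IsAlgClosure.isAlgClosed k
  obtain ⟨hm, hder⟩ := tb00_deriv H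
  have hg : (g.map (algebraMap k F)).Monic := H.monic.map _
  have hm' : (g.map (algebraMap k F)).natDegree ≠ 0 := by rwa [natDegree_map]
  have hder' : derivative (g.map (algebraMap k F)) ≠ 0 := by
    rw [derivative_map]
    exact (Polynomial.map_ne_zero_iff (algebraMap k F).injective).2 hder
  have hd : (1 : A) ≠ 0 := one_ne_zero
  refine ⟨inferInstance, H.prime, ?_, ?_, ?_⟩
  · have h1 : ((algebraMap F A).comp (algebraMap k F)) (ℓ : k) = (ℓ : A) := map_natCast _ ℓ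
    rw [← h1]
    exact (_root_.map_ne_zero _).2 H.ne
  · rw [tb00_cOver_one hF, separable_def, isCoprime_iff_aeval_ne_zero_of_isAlgClosed A A]
    intro a
    by_contra hcon
    rw [not_or, not_not, not_not] at hcon
    obtain ⟨h1, h2⟩ := hcon
    rw [coe_aeval_eq_eval] at h1 h2
    rw [eval_locPoly_eq_zero hd] at h1
    have h3 : aeval a (derivative (g.map (algebraMap k F))) = 0 := by
      unfold locPoly at h2
      rw [derivative_C_mul, derivative_sub, derivative_C, sub_zero, derivative_map, eval_mul,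
        eval_C] at h2
      rcases mul_eq_zero.1 h2 with h4 | h4
      · exact absurd h4 (inv_ne_zero hd)
      · rw [eval_map, ← aeval_def] at h4
        exact h4
    have h4 : IsAlgebraic F a := ⟨_, hder', h3⟩
    have hi : IsIntegral F a := h4.isIntegral
    have hdeg : (minpoly F a).degree = 1 :=
      IsAlgClosed.degree_eq_one_of_irreducible F (minpoly.irreducible hi)
    have h5 : aeval a (minpoly F a) = 0 := minpoly.aeval F a
    rw [eq_X_add_C_of_degree_eq_one hdeg, (minpoly.monic hi).leadingCoeff, C_1, one_mul, aeval_add,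
      aeval_X, aeval_C, add_eq_zero_iff_eq_neg, ← map_neg] at h5
    rw [h5, aeval_algebraMap_apply] at h1
    have h6 : algebraMap L A (algebraMap F[X] L (C (aeval (-(minpoly F a).coeff 0)
        (g.map (algebraMap k F))))) = algebraMap L A (algebraMap F[X] L X) := h1
    exact X_ne_C _ (IsFractionRing.injective F[X] L ((algebraMap L A).injective h6)).symm
  · rw [tb00_cOver_one hF, natDegree_locPoly hg hm' hd, natDegree_map]
    exact H.cop

lemma goodAll_one (H : GlobHyp ℓ g E ζ) : GoodAll ℓ k F L g 1 := by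
  intro M _ _ _
  exact tb00_good H

lemma cOver_one {A : Type u} [Field A] [Algebra L A] [Algebra F A] (hF : CompatF F L A)
    (g : k[X]) : cOver k F L A g 1 = locPoly (g.map (algebraMap k F)) (tA F L A) 1 :=
  tb00_cOver_one hF g

lemma rts_one (H : GlobHyp ℓ g E ζ) {A : Type u} [Field A] [Algebra L A] [IsAlgClosed A] :
    rts (cOver k F L A g 1) = rts (cOver k F L A g E) := by
  let _ : Algebra F A := ((algebraMap L A).comp ((algebraMap F[X] L).comp C)).toAlgebra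
  have hF : CompatF F L A := fun c => rfl
  have h1 : IsGood ℓ (cOver k F L A g 1) := tb00_good H
  have h2 : IsGood ℓ (cOver k F L A g E) := isGood_cOver H
  have hd : aeval (tA F L A) (E.map (algebraMap k F)) ≠ 0 := by
    intro h
    have h3 := h2.separable.ne_zero
    rw [cOver_eq_locPoly hF, h] at h3
    refine h3 ?_
    unfold locPoly
    rw [inv_zero, C_0, zero_mul]
  ext θ
  rw [mem_rts h1.separable.ne_zero, mem_rts h2.separable.ne_zero, tb00_cOver_one hF,
    cOver_eq_locPoly hF, eval_locPoly_eq_zero one_ne_zero, eval_locPoly_eq_zero hd]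

lemma mem_rts_one (H : GlobHyp ℓ g E ζ) {A : Type u} [Field A] [Algebra L A] [IsAlgClosed A]
    [Algebra F A] (hF : CompatF F L A) {θ : A} :
    θ ∈ rts (cOver k F L A g 1) ↔ aeval θ (g.map (algebraMap k F)) = tA F L A := by
  have h1 : IsGood ℓ (cOver k F L A g 1) := tb00_good H
  rw [mem_rts h1.separable.ne_zero, tb00_cOver_one hF, eval_locPoly_eq_zero one_ne_zero]

lemma trs_top (H : GlobHyp ℓ g E ζ) :
    Trs (cOver k F L Ω g 1) (⊤ : Subgroup (Ω ≃ₐ[L] Ω)) := by
  have : IsAlgClosed Ω := IsAlgClosure.isAlgClosed L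
  have h2 : IsGood ℓ (cOver k F L Ω g E) := isGood_cOver H
  intro θ hθ θ' hθ'
  rw [rts_one H] at hθ hθ'
  obtain ⟨σ, hσ⟩ := exists_gal_root H hθ hθ'
  exact ⟨σ, Subgroup.mem_top σ, hσ⟩

end Pool.Agent.Lib.MP_89bcae_ag.Sup

end

end

end
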