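import Mathlib
import Pool.Agent.Lib.MP_89bcae_ag.Tk.K008
import Pool.Agent.Lib.MP_89bcae_ag.Tk.K027
import Pool.Agent.Lib.MP_89bcae_ag.Tk.K014
import Pool.Agent.Lib.MP_89bcae_ag.Tk.K000

set_option linter.all false
attribute [local instance 100000] Pool.Agent.Lib.MP_89bcae_ag.Brt.tffFields
attribute [local instance 100000] Pool.Agent.Lib.MP_89bcae_ag.Wt.ifrNF Pool.Agent.Lib.MP_89bcae_ag.Wt.iddNF

namespace Pool.Agent.Lib.MP_89bcae_ag.Sup
end Pool.Agent.Lib.MP_89bcae_ag.Sup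
namespace Pool.Agent.Lib.MP_89bcae_ag.Wt
end Pool.Agent.Lib.MP_89bcae_ag.Wt
namespace Pool.Agent.Lib.MP_89bcae_ag.Wt.Lns
end Pool.Agent.Lib.MP_89bcae_ag.Wt.Lns
namespace Pool.Agent.Lib.MP_89bcae_ag.Wt.Lns.LocCtx
end Pool.Agent.Lib.MP_89bcae_ag.Wt.Lns.LocCtx

section

/-!
ROW R16 (80-150 lines). The automorphism `Z` of the Jacobian induced by `(x, y) ↦ (x, ζ y)`.

PROOF. `cl` is surjective with kernel the divisors of functions (R08), and this kernel is stable
under `D ↦ D.mapDomain (Pt.rot ζ)` because `(div u).mapDomain (rot) = div (rot⁻¹ u)`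
(`div_rotU_symm`); so `Z` exists (e.g. via `QuotientAddGroup.lift`, or choose for each class a
divisor). `∑_{i<N} Z^i [P] = cl (div (x - P.x)) = 0` by `div_xs`, and these classes generate.
The classes of the points generate, so `Z` commutes with `symJ σ` if `σ ζ = ζ` as
`(P.rot ζ).sym σ = (P.sym σ).rot ζ`; and with `jacMap N σ` (`ζ ↦ σ ζ`) for a homomorphism `σ`.
-/

open Polynomial IsDedekindDomain

open scoped Classical

namespace Pool.Agent.Lib.MP_89bcae_ag.Wt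

universe u

variable {N : ℕ} {E : Type u} [Field E] {f : E[X]} [hG : IsGood N f]

lemma exists_zJ (ζ : E) (hζ : ζ ^ N = 1) : ∃ Z : Jac N f →+ Jac N f, ∀ D : Pt N f →₀ ℤ,
    Z (cl D) = cl (D.mapDomain (Pt.rot ζ hζ)) := by
  have h0 : ζ ≠ 0 := by
    intro h
    rw [h, zero_pow hG.ne] at hζ
    exact zero_ne_one hζ
  set g : (Pt N f →₀ ℤ) →+ Jac N f :=
    (cl : (Pt N f →₀ ℤ) →+ Jac N f).comp (Finsupp.mapDomain.addMonoidHom (Pt.rot ζ hζ)) with hg
  have hker : (cl : (Pt N f →₀ ℤ) →+ Jac N f).ker ≤ g.ker := by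
    intro D hD
    rw [AddMonoidHom.mem_ker] at hD ⊢
    obtain ⟨u, hu⟩ := exists_div_of_cl_eq_zero D hD
    change cl (D.mapDomain (Pt.rot ζ hζ)) = 0
    rw [← hu, ← div_rotU_symm ζ hζ h0, cl_div]
  refine ⟨(cl : (Pt N f →₀ ℤ) →+ Jac N f).liftOfSurjective cl_surjective ⟨g, hker⟩,
    fun D => ?_⟩
  exact AddMonoidHom.liftOfRightInverse_comp_apply _ _ _ ⟨g, hker⟩ D

/-- The automorphism of the Jacobian induced by `(x, y) ↦ (x, ζ y)`. -/
noncomputable def zJ (ζ : E) (hζ : ζ ^ N = 1) : Jac N f →+ Jac N f := (exists_zJ ζ hζ).choose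

lemma zJ_cl (ζ : E) (hζ : ζ ^ N = 1) (D : Pt N f →₀ ℤ) :
    zJ ζ hζ (cl D) = cl (D.mapDomain (Pt.rot ζ hζ)) := (exists_zJ ζ hζ).choose_spec D

lemma sum_zJ (ζ : E) (hζ : IsPrimitiveRoot ζ N) (Q : Jac N f) :
    ∑ i ∈ Finset.range N, (zJ ζ hζ.pow_eq_one)^[i] Q = 0 := by
  have hit : ∀ (i : ℕ) (D : Pt N f →₀ ℤ), (zJ ζ hζ.pow_eq_one)^[i] (cl D) =
      cl (D.mapDomain ((Pt.rot ζ hζ.pow_eq_one)^[i])) := by
    intro i D
    induction i with
    | zero =>
      rw [Function.iterate_zero, Function.iterate_zero, id_eq, Finsupp.mapDomain_id]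
    | succ i ih =>
      rw [Function.iterate_succ_apply', ih, zJ_cl, ← Finsupp.mapDomain_comp,
        Function.iterate_succ']
  obtain ⟨D, rfl⟩ := cl_surjective Q
  rw [Finset.sum_congr rfl fun i _ => hit i D]
  induction D using Finsupp.induction_linear with
  | zero =>
    refine Finset.sum_eq_zero fun i _ => ?_
    rw [Finsupp.mapDomain_zero, map_zero]
  | add D D' h h' =>
    rw [Finset.sum_congr rfl fun i _ => by rw [Finsupp.mapDomain_add, map_add],
      Finset.sum_add_distrib, h, h', add_zero]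
  | single P n =>
    have h1 : ∀ i ∈ Finset.range N, cl ((Finsupp.single P n).mapDomain
        ((Pt.rot ζ hζ.pow_eq_one)^[i])) =
        n • cl (Finsupp.single ((Pt.rot ζ hζ.pow_eq_one)^[i] P) (1 : ℤ)) := by
      intro i _
      rw [Finsupp.mapDomain_single, ← map_zsmul, Finsupp.smul_single, smul_eq_mul, mul_one]
    rw [Finset.sum_congr rfl h1, ← Finset.smul_sum, ← map_sum, ← div_xs ζ hζ P, cl_div,
      smul_zero]

lemma zJ_symJ (ζ : E) (hζ : ζ ^ N = 1) (σ : Sym f) (hσ : (σ : E ≃+* E) ζ = ζ) (Q : Jac N f) :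
    zJ ζ hζ (symJ σ Q) = symJ σ (zJ ζ hζ Q) := by
  obtain ⟨D, rfl⟩ := cl_surjective Q
  rw [symJ_cl, zJ_cl, zJ_cl, symJ_cl, ← Finsupp.mapDomain_comp, ← Finsupp.mapDomain_comp]
  congr 2
  funext P
  apply Pt.ext
  · rfl
  · change ζ * (σ : E ≃+* E) P.y = (σ : E ≃+* E) (ζ * P.y)
    rw [map_mul, hσ]

lemma zJ_jacMap {E' : Type u} [Field E'] {f' : E'[X]} [hG' : IsGood N f'] (σ : E →+* E')
    (h : f.map σ = f') (ζ : E) (hζ : ζ ^ N = 1) (hζ' : (σ ζ) ^ N = 1) (Q : Jac N f) :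
    zJ (σ ζ) hζ' (jacMap N σ h Q) = jacMap N σ h (zJ ζ hζ Q) := by
  obtain ⟨D, rfl⟩ := cl_surjective Q
  rw [jacMap_cl, zJ_cl, zJ_cl, jacMap_cl, ← Finsupp.mapDomain_comp, ← Finsupp.mapDomain_comp]
  congr 2
  funext P
  apply Pt.ext
  · rfl
  · change σ ζ * σ P.y = σ (ζ * P.y)
    rw [map_mul]

end Pool.Agent.Lib.MP_89bcae_ag.Wt

end

section

/-!
The kernel of `π = 1 - Z`: parts (B) and (C) of the explanations in R17.
-/

open Polynomial IsDedekindDomain

open scoped Classical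

namespace Pool.Agent.Lib.MP_89bcae_ag.Wt

universe u

variable {N : ℕ} {E : Type u} [Field E] {f : E[X]} [hG : IsGood N f]

lemma R18_rot_ramPt (ζ : E) (hζ : ζ ^ N = 1) {θ : E} (hθ : f.eval θ = 0) :
    (ramPt hG.ne hθ : Pt N f).rot ζ hζ = ramPt hG.ne hθ := by
  ext
  · rfl
  · simp [Pt.rot, ramPt]

lemma R18_ordR_rot (ζ : E) (hζ : ζ ^ N = 1) (h0 : ζ ≠ 0) (θ : E) (h : (FunField N f)ˣ) :
    ordR θ (rotU ζ hζ h0 h) = ordR θ h := by
  unfold ordR
  split_ifs with hθ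
  · rw [ord_rotU, R18_rot_ramPt]
  · rfl

lemma R18_ordR_iter (ζ : E) (hζ : ζ ^ N = 1) (h0 : ζ ≠ 0) (θ : E) (h : (FunField N f)ˣ) (i : ℕ) :
    ordR θ ((rotU ζ hζ h0)^[i] h) = ordR θ h := by
  induction i with
  | zero => rfl
  | succ i ih => rw [Function.iterate_succ_apply', R18_ordR_rot, ih]

lemma R18_lc_iter (ζ : E) (hζ : ζ ^ N = 1) (h0 : ζ ≠ 0) {θ : E} (hθ : f.eval θ = 0)
    (h : (FunField N f)ˣ) (i : ℕ) :
    (lc θ ((rotU ζ hζ h0)^[i] h) : E) = (ζ ^ (al N (wt f θ) * ordR θ h)) ^ i * lc θ h := by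
  induction i with
  | zero => simp
  | succ i ih =>
    rw [Function.iterate_succ_apply', (lc_spec hθ).2.2.2.2.1, ih, R18_ordR_iter, pow_succ]
    ring

/-- The leading coefficient of a norm. -/
lemma R18_lc_nrm (ζ : E) (hζ : ζ ^ N = 1) (h0 : ζ ≠ 0) {θ : E} (hθ : f.eval θ = 0)
    (h : (FunField N f)ˣ) :
    (lc θ (nrm ζ hζ h0 h) : E) =
      (ζ ^ (al N (wt f θ) * ordR θ h)) ^ (∑ i ∈ Finset.range N, i) * (lc θ h : E) ^ N := by
  rw [nrm, map_prod, Units.coe_prod, Finset.prod_congr rfl fun i _ => R18_lc_iter ζ hζ h0 hθ h i,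
    Finset.prod_mul_distrib, Finset.prod_pow_eq_pow_sum, Finset.prod_const, Finset.card_range]

lemma R18_xprod_sub (D D' : Pt N f →₀ ℤ) : xprod (D - D') = xprod D / xprod D' := by
  rw [eq_div_iff_mul_eq', ← xprod_add, sub_add_cancel]

lemma R18_div_div (h h' : (FunField N f)ˣ) : div (h / h') = div h - div h' := by
  rw [div_eq_mul_inv, div_mul, div_inv, sub_eq_add_neg]

/-- Extraction of roots of constants: normalization of the norm. -/
lemma R18_exists_normalized (ζ : E) (hζ : ζ ^ N = 1) (h0 : ζ ≠ 0) (h : (FunField N f)ˣ) (c : Eˣ)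
    (g : (FunField N f)ˣ) (hn : nrm ζ hζ h0 h = cstU c * g) :
    ∃ h' : (FunField N f)ˣ, div h' = div h ∧ nrm ζ hζ h0 h' = g := by
  have := hG.alg
  obtain ⟨d, hd⟩ := IsAlgClosed.exists_pow_nat_eq (c : E) hG.pos
  have hd0 : d ≠ 0 := by
    rintro rfl
    rw [zero_pow hG.ne] at hd
    exact c.ne_zero hd.symm
  have hdc : (Units.mk0 d hd0) ^ N = c := by
    ext
    simpa using hd
  refine ⟨h * cstU (Units.mk0 d hd0)⁻¹, ?_, ?_⟩
  · rw [div_mul, div_cstU, add_zero]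
  · rw [nrm_mul, nrm_cstU, hn, inv_pow, hdc, map_inv]
    rw [mul_comm (cstU c) g, mul_inv_cancel_right]


/-- (B) -/
lemma exists_ram_of_zJ_eq (ζ : E) (hζ : IsPrimitiveRoot ζ N) (Q : Jac N f)
    (hQ : zJ ζ hζ.pow_eq_one Q = Q) : ∃ e : E → ℤ, Q = ram e := by
  have h0 : ζ ≠ 0 := hζ.ne_zero hG.ne
  obtain ⟨D, rfl⟩ := cl_surjective Q
  rw [zJ_cl] at hQ
  have h1 : cl (D - D.mapDomain (Pt.rot ζ hζ.pow_eq_one)) = 0 := by
    rw [map_sub, hQ, sub_self]
  obtain ⟨h, hh⟩ := exists_div_of_cl_eq_zero _ h1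
  obtain ⟨c, hc⟩ := exists_nrm_eq ζ hζ h0 h
  have hx : xprod (div h) = 1 := by
    rw [hh, R18_xprod_sub, xprod_rot, div_self']
  obtain ⟨h', hdiv, hn⟩ := R18_exists_normalized ζ hζ.pow_eq_one h0 h c _ hc
  rw [hx] at hn
  have hord : ∀ θ, f.eval θ = 0 → ordR θ h' = 0 := by
    intro θ hθ
    have h2 : ord (ramPt hG.ne hθ) h' = 0 := by
      rw [← div_apply, hdiv, hh, Finsupp.sub_apply]
      nth_rw 2 [← R18_rot_ramPt ζ hζ.pow_eq_one hθ]
      rw [Finsupp.mapDomain_apply, sub_self]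
      intro P P' hP
      have hx := congrArg Pt.x hP
      have hy := congrArg Pt.y hP
      simp only [Pt.rot] at hx hy
      exact Pt.ext hx (mul_left_cancel₀ h0 hy)
    rw [ordR, dif_pos hθ, h2]
  have hlc : ∀ θ, f.eval θ = 0 → ∃ n : ℤ, (lc θ h' : E) = ζ ^ n := by
    intro θ hθ
    have h3 := R18_lc_nrm ζ hζ.pow_eq_one h0 hθ h'
    rw [hn, hord θ hθ, map_one, mul_zero, zpow_zero, one_pow, one_mul, Units.val_one] at h3
    have : NeZero N := ⟨hG.ne⟩
    obtain ⟨i, _, hi⟩ := hζ.eq_pow_of_pow_eq_one h3.symm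
    exact ⟨i, by rw [← hi, zpow_natCast]⟩
  choose! n hn' using hlc
  exact ⟨_, cl_eq_ram ζ hζ h0 D h' (by rw [hdiv, hh]) hn n hn'⟩

/-- (C) -/
lemma ram_eq_zero_iff (ζ : E) (hζ : IsPrimitiveRoot ζ N) (e : E → ℤ) :
    (ram e : Jac N f) = 0 ↔
      ∃ c : ℤ, ∀ θ, f.eval θ = 0 → (N : ℤ) ∣ e θ - c * wt f θ := by
  have h0 : ζ ≠ 0 := hζ.ne_zero hG.ne
  constructor
  · intro he
    obtain ⟨h, hh⟩ := exists_div_of_cl_eq_zero _ he
    have hu : div ((rotU ζ hζ.pow_eq_one h0).symm h / h) = 0 := by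
      rw [R18_div_div, div_rotU_symm, hh, mapDomain_rot_ramDiv, sub_self]
    have hdg : dg (div ((rotU ζ hζ.pow_eq_one h0).symm h / h)) = 0 := by
      rw [hu, dg, Finsupp.sum_zero_index]
    obtain ⟨c, hc⟩ := exists_const_of_dg_eq_zero ζ hζ _ hdg
    have hord : ∀ P, ord P ((rotU ζ hζ.pow_eq_one h0).symm h / h) = 0 := by
      intro P
      rw [← div_apply, hu, Finsupp.zero_apply]
    have hc1 : (((rotU ζ hζ.pow_eq_one h0).symm h / h : (FunField N f)ˣ) : FunField N f) = cst c := by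
      rcases hc with hc | ⟨w, hw, hwd⟩
      · exact hc
      · exfalso
        have hwn : ∀ P, 0 ≤ ord P w := by
          intro P
          by_cases hc0 : c = 0
          · rw [hc0, map_zero, sub_zero] at hw
            rw [Units.ext hw, hord]
          · have h5 := ord_add P ((rotU ζ hζ.pow_eq_one h0).symm h / h)
              (cstU (Units.mk0 (-c) (neg_ne_zero.2 hc0))) w (by
                rw [hw, cstU, Units.coe_map, Units.val_mk0, MonoidHom.coe_coe, map_neg,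
                  sub_eq_add_neg])
            rw [hord, ord_cstU, min_self] at h5
            exact h5
        refine absurd hwd (not_lt.2 ?_)
        exact Finset.sum_nonneg fun P _ => hwn P
    have hc0 : c ≠ 0 := by
      rintro rfl
      rw [map_zero] at hc1
      exact Units.ne_zero _ hc1
    have h6 : (rotU ζ hζ.pow_eq_one h0).symm h / h = cstU (Units.mk0 c hc0) := by
      ext
      rw [hc1, cstU, Units.coe_map, Units.val_mk0, MonoidHom.coe_coe]
    have h7 : h = cstU (Units.mk0 c hc0) * rotU ζ hζ.pow_eq_one h0 h := by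
      have h8 := congrArg (rotU ζ hζ.pow_eq_one h0) (eq_mul_of_div_eq h6)
      rw [MulEquiv.apply_symm_apply, map_mul, rotU_cstU] at h8
      exact h8
    have h9 : ∀ θ, f.eval θ = 0 → c * ζ ^ (al N (wt f θ) * e θ) = 1 := by
      intro θ hθ
      have h10 : ordR θ h = e θ := by
        rw [ordR, dif_pos hθ, ← div_apply, hh, ramDiv_apply, if_pos (by rfl)]
        rfl
      have h11 := congrArg (fun u => (lc θ u : E)) h7
      simp only [map_mul, Units.val_mul, (lc_spec hθ).1, (lc_spec hθ).2.2.2.2.1, Units.val_mk0,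
        h10] at h11
      have h12 := (lc θ h).ne_zero
      rw [← mul_assoc] at h11
      exact (mul_eq_right₀ h12).1 h11.symm
    obtain ⟨θ₀, hθ₀⟩ := exists_root N f
    refine ⟨al N (wt f θ₀) * e θ₀, fun θ hθ => ?_⟩
    have h15 : (N : ℤ) ∣ al N (wt f θ) * e θ - al N (wt f θ₀) * e θ₀ := by
      rw [← hζ.zpow_eq_one_iff_dvd, zpow_sub₀ h0]
      have h13 := h9 θ hθ
      have h14 := h9 θ₀ hθ₀
      rw [← h14] at h13
      rw [mul_left_cancel₀ hc0 h13, div_self (zpow_ne_zero _ h0)]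
    have hw : ((al N (wt f θ) * wt f θ : ℕ) : ℤ) = ((be N (wt f θ) * N + 1 : ℕ) : ℤ) := by
      rw [al_wt (N := N) hθ]
    push_cast at hw
    have h16 : e θ - al N (wt f θ₀) * e θ₀ * wt f θ =
        wt f θ * (al N (wt f θ) * e θ - al N (wt f θ₀) * e θ₀) - N * (be N (wt f θ) * e θ) := by
      linear_combination (-e θ) * hw
    rw [h16]
    exact dvd_sub (h15.mul_left _) (dvd_mul_right _ _)
  · rintro ⟨c, hc⟩
    rw [ram_congr e (fun θ => c * wt f θ) (fun θ hθ => hc θ hθ), ram, ramDiv_smul,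
      map_zsmul, ← div_yU, cl_div, smul_zero]

lemma ram_add (e e' : E → ℤ) : (ram fun θ => e θ + e' θ : Jac N f) = ram e + ram e' := by
  rw [ram, ramDiv_add, map_add, ← ram, ← ram]

lemma ram_sub (e e' : E → ℤ) : (ram fun θ => e θ - e' θ : Jac N f) = ram e - ram e' := by
  rw [ram, ramDiv_sub, map_sub, ← ram, ← ram]

lemma symJ_ram (σ : Sym f) (e : E → ℤ) :
    symJ σ (ram e : Jac N f) = ram fun θ => e (((σ⁻¹ : Sym f) : E ≃+* E) θ) := by
  rw [ram, symJ_cl, mapDomain_sym_ramDiv, ← ram]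


end Pool.Agent.Lib.MP_89bcae_ag.Wt

end

section

namespace Pool.Agent.Lib.MP_89bcae_ag.Sup.Lns
end Pool.Agent.Lib.MP_89bcae_ag.Sup.Lns
namespace Pool.Agent.Lib.MP_89bcae_ag.Wt.Lns.LocCtx
end Pool.Agent.Lib.MP_89bcae_ag.Wt.Lns.LocCtx


/-!
# Cocycles over the local field
-/

open Polynomial IsDedekindDomain IsLocalRing

open scoped Classical

namespace Pool.Agent.Lib.MP_89bcae_ag.Bra




open Pool.Agent.Lib.MP_89bcae_ag.Wt Pool.Agent.Lib.MP_89bcae_ag.Wt.Lns

section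

variable {ℓ : ℕ} {E : Type} [Field E] {g : E[X]} [hG : IsGood ℓ g]

/-- The function `∏ (x - θ) ^ (wt θ * e θ)`. -/
noncomputable def Fe (g : E[X]) [hG : IsGood ℓ g] (e : E → ℤ) : (FunField ℓ g)ˣ :=
  ∏ θ ∈ g.roots.toFinset, xs θ ^ ((wt g θ : ℤ) * e θ)

/-- `ord_xs_of_ramified`, `ord_xs_of_ne`. -/
lemma div_Fe (e : E → ℤ) :
    div (Fe (ℓ := ℓ) g e) = (ℓ : ℤ) • ramDiv (fun θ => (wt g θ : ℤ) * e θ) := by
  have hg0 : g ≠ 0 := f_ne_zero ℓ g
  have hprod : ∀ (P : Pt ℓ g) (s : Finset E) (h : E → (FunField ℓ g)ˣ),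
      ord P (∏ θ ∈ s, h θ) = ∑ θ ∈ s, ord P (h θ) := by
    intro P s h
    induction s using Finset.induction_on with
    | empty => rw [Finset.prod_empty, Finset.sum_empty, ord_one]
    | insert a s ha ih => rw [Finset.prod_insert ha, Finset.sum_insert ha, ord_mul, ih]
  ext P
  rw [div_apply, Finsupp.smul_apply, ramDiv_apply, Fe, hprod]
  by_cases hP : P.y = 0
  · rw [if_pos hP]
    have hroot : g.eval P.x = 0 := R15_root P hP
    have hmem : P.x ∈ g.roots.toFinset := by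
      rw [Multiset.mem_toFinset, mem_roots hg0]
      exact hroot
    rw [Finset.sum_eq_single_of_mem P.x hmem]
    · rw [ord_zpow, ord_xs_of_ramified P hP, smul_eq_mul]
      ring
    · intro θ _ hθ
      rw [ord_zpow, ord_xs_of_ne P (Ne.symm hθ), mul_zero]
  · rw [if_neg hP, smul_zero]
    refine Finset.sum_eq_zero fun θ hθ => ?_
    rw [Multiset.mem_toFinset, mem_roots hg0] at hθ
    have hne : P.x ≠ θ := by
      intro h
      apply hP
      have h1 := P.eq
      rw [h, show g.eval θ = 0 from hθ] at h1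
      exact (pow_eq_zero_iff hG.ne).mp h1
    rw [ord_zpow, ord_xs_of_ne P hne, mul_zero]


/-- A function without zeros and poles is constant. PROOF: see `r17_cl_fixed` in `Wt/W17.lean` and
`exists_const_of_dg_eq_zero` in `Wt/W13.lean` (`h - c` has no poles, so `dg (div (h - c)) < 0` is impossible). -/
theorem const_of_div {ζ : E} (hζ : IsPrimitiveRoot ζ ℓ) (u : (FunField ℓ g)ˣ) (hu : div u = 0) :
    ∃ c : Eˣ, u = cstU c := by
  have hdg : dg (div u) = 0 := by
    rw [hu, dg, Finsupp.sum_zero_index]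
  have hord : ∀ P, ord P u = 0 := by
    intro P
    rw [← div_apply, hu, Finsupp.zero_apply]
  obtain ⟨c, hc⟩ := exists_const_of_dg_eq_zero ζ hζ u hdg
  have hc1 : (u : FunField ℓ g) = cst c := by
    rcases hc with hc | ⟨w, hw, hwd⟩
    · exact hc
    · exfalso
      have hwn : ∀ P, 0 ≤ ord P w := by
        intro P
        by_cases hc0 : c = 0
        · rw [hc0, map_zero, sub_zero] at hw
          rw [Units.ext hw, hord]
        · have h5 := ord_add P u (cstU (Units.mk0 (-c) (neg_ne_zero.2 hc0))) w (by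
              rw [hw, cstU, Units.coe_map, Units.val_mk0, MonoidHom.coe_coe, map_neg,
                sub_eq_add_neg])
          rw [hord, ord_cstU, min_self] at h5
          exact h5
      refine absurd hwd (not_lt.2 ?_)
      exact Finset.sum_nonneg fun P _ => hwn P
  have hc0 : c ≠ 0 := by
    rintro rfl
    rw [map_zero] at hc1
    exact Units.ne_zero _ hc1
  refine ⟨Units.mk0 c hc0, ?_⟩
  ext
  rw [hc1, cstU, Units.coe_map, Units.val_mk0, MonoidHom.coe_coe]

end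

/-! ### Helper lemmas for `stepB` -/

section

variable {ℓ : ℕ} {E : Type} [Field E] {g : E[X]} [hG : IsGood ℓ g]


lemma vf_symJ_mul (σ τ : Sym g) (Q : Jac ℓ g) : symJ (σ * τ) Q = symJ σ (symJ τ Q) := by
  obtain ⟨D, rfl⟩ := cl_surjective Q
  rw [symJ_cl, symJ_cl, symJ_cl, ← Finsupp.mapDomain_comp]
  congr 2


end

section

variable {ℓ : ℕ} {K E : Type} [Field K] [Field E] [Algebra K E] {f : K[X]}
  [hG : IsGood ℓ (f.map (algebraMap K E))]


omit hG in

/-- the translates of a divisor depend only on the action on finitely many elements -/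
lemma vf_cts_mapDomain (D : Pt ℓ (f.map (algebraMap K E)) →₀ ℤ) :
    IsCts fun g : E ≃ₐ[K] E => D.mapDomain (Pt.sym (gs f g)) := by
  refine ⟨D.support.image Pt.x ∪ D.support.image Pt.y, fun g g' h => ?_⟩
  refine Finsupp.mapDomain_congr fun P hP => ?_
  apply Pt.ext
  · exact h P.x (Finset.mem_union_left _ (Finset.mem_image_of_mem _ hP))
  · exact h P.y (Finset.mem_union_right _ (Finset.mem_image_of_mem _ hP))

end

section

variable {ℓ : ℕ} {K E : Type} [Field K] [Field E] [Algebra K E] {f : K[X]}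
  [hG : IsGood ℓ (f.map (algebraMap K E))] {ζ : K} {ϖ : E} {χ : (E ≃ₐ[K] E) → ℕ}
  {b : (E ≃ₐ[K] E) → (E ≃ₐ[K] E) → (FunField ℓ (f.map (algebraMap K E)))ˣ}
  {C : (E ≃ₐ[K] E) → (Pt ℓ (f.map (algebraMap K E)) →₀ ℤ)}


end


end Pool.Agent.Lib.MP_89bcae_ag.Bra

end
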