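import Mathlib
import Pool.Agent.Lib.MP_89bcae_ag.Tk.K008
import Pool.Agent.Lib.MP_89bcae_ag.Tk.K019
import Pool.Agent.Lib.MP_89bcae_ag.Tk.K000

set_option linter.all false
attribute [local instance 100000] Pool.Agent.Lib.MP_89bcae_ag.Brt.tffFields
attribute [local instance 100000] Pool.Agent.Lib.MP_89bcae_ag.Wt.ifrNF Pool.Agent.Lib.MP_89bcae_ag.Wt.iddNF

namespace Pool.Agent.Lib.MP_89bcae_ag.Sup
end Pool.Agent.Lib.MP_89bcae_ag.Sup
namespace Pool.Agent.Lib.MP_89bcae_ag.Wt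
end Pool.Agent.Lib.MP_89bcae_ag.Wt
namespace Pool.Agent.Lib.MP_89bcae_ag.Wt.Lns
end Pool.Agent.Lib.MP_89bcae_ag.Wt.Lns
namespace Pool.Agent.Lib.MP_89bcae_ag.Wt.Lns.LocCtx
end Pool.Agent.Lib.MP_89bcae_ag.Wt.Lns.LocCtx

section

/-!
# The fields `κ((π))`, `κ((ϖ))`, `π = ϖ ^ ℓ`, and the algebraic closure of `κ((ϖ))`
-/

open IsLocalRing

open scoped Classical

namespace Pool.Agent.Lib.MP_89bcae_ag.Bra

/-- The field `κ((π))`. -/
def Hk (_ℓ : ℕ) (κ : Type) [Field κ] : Type := LaurentSeries κ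

/-- The field `κ((ϖ))`. -/
abbrev Pk (κ : Type) [Field κ] : Type := LaurentSeries κ

/-- The algebraic closure of `κ((ϖ))`. -/
abbrev Tk (κ : Type) [Field κ] : Type := AlgebraicClosure (LaurentSeries κ)

section

variable (ℓ : ℕ) (κ : Type) [Field κ]

noncomputable instance : Field (Hk ℓ κ) := inferInstanceAs (Field (LaurentSeries κ))

noncomputable instance : Algebra (PowerSeries κ) (Hk ℓ κ) :=
  inferInstanceAs (Algebra (PowerSeries κ) (LaurentSeries κ))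

instance : IsFractionRing (PowerSeries κ) (Hk ℓ κ) :=
  inferInstanceAs (IsFractionRing (PowerSeries κ) (LaurentSeries κ))

/-- The element of `κ((π))` with the given Laurent series. -/
noncomputable def toH : LaurentSeries κ ≃+* Hk ℓ κ := RingEquiv.refl _

/-- Multiplication of the exponents by `ℓ`. -/
noncomputable def mulL [NeZero ℓ] : ℤ →+ ℤ := (AddMonoidHom.mulLeft (ℓ : ℤ))

lemma mulL_injective [NeZero ℓ] : Function.Injective (mulL ℓ) := fun a b h =>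
  mul_left_cancel₀ (Nat.cast_ne_zero.mpr (NeZero.ne ℓ)) h

lemma mulL_le [NeZero ℓ] (a b : ℤ) : mulL ℓ a ≤ mulL ℓ b ↔ a ≤ b :=
  mul_le_mul_iff_right₀ (Nat.cast_pos.mpr (Nat.pos_of_ne_zero (NeZero.ne ℓ)))

/-- The inclusion of `κ((π))` in `κ((ϖ))`, `π = ϖ ^ ℓ`. -/
noncomputable def hk [NeZero ℓ] : Hk ℓ κ →+* Pk κ :=
  (HahnSeries.embDomainRingHom (mulL ℓ) (mulL_injective ℓ) (mulL_le ℓ)).comp
    ((toH ℓ κ).symm : Hk ℓ κ →+* LaurentSeries κ)

noncomputable instance [NeZero ℓ] : Algebra (Hk ℓ κ) (Pk κ) := (hk ℓ κ).toAlgebra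

lemma algebraMap_Hk [NeZero ℓ] (u : Hk ℓ κ) :
    algebraMap (Hk ℓ κ) (Tk κ) u = algebraMap (Pk κ) (Tk κ) (hk ℓ κ u) :=
  IsScalarTower.algebraMap_apply (Hk ℓ κ) (Pk κ) (Tk κ) u

instance isAdicComplete_powerSeries :
    IsAdicComplete (maximalIdeal (PowerSeries κ)) (PowerSeries κ) := by
  rw [PowerSeries.maximalIdeal_eq_span_X]
  infer_instance

end

section

variable {ℓ : ℕ} {κ : Type} [Field κ]

/-- The leading coefficient. -/
noncomputable def lcH (u : Hk ℓ κ) : κ := HahnSeries.leadingCoeff ((toH ℓ κ).symm u)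

/-- The constants. -/
noncomputable def cH (ℓ : ℕ) : κ →+* Hk ℓ κ :=
  ((toH ℓ κ : LaurentSeries κ →+* Hk ℓ κ)).comp HahnSeries.C

/-- The element `π`. -/
noncomputable def piH (ℓ : ℕ) (κ : Type) [Field κ] : Hk ℓ κ := toH ℓ κ (HahnSeries.single 1 1)

/-- The element `ϖ`. -/
noncomputable def vpT (κ : Type) [Field κ] : Tk κ :=
  algebraMap (Pk κ) (Tk κ) (HahnSeries.single 1 1)


lemma vpT_ne_zero : vpT κ ≠ 0 := by
  unfold vpT
  rw [Ne, map_eq_zero_iff _ (algebraMap (Pk κ) (Tk κ)).injective]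
  exact HahnSeries.single_ne_zero one_ne_zero

variable [NeZero ℓ]

lemma vb_hk_apply (u : LaurentSeries κ) : hk ℓ κ (toH ℓ κ u) =
    HahnSeries.embDomain ⟨⟨mulL ℓ, mulL_injective ℓ⟩, mulL_le ℓ _ _⟩ u := rfl

lemma vpT_pow : vpT κ ^ ℓ = algebraMap (Hk ℓ κ) (Tk κ) (piH ℓ κ) := by
  rw [algebraMap_Hk, piH, vb_hk_apply, vpT, ← map_pow, HahnSeries.single_pow, one_pow,
    HahnSeries.embDomain_single, nsmul_eq_mul]
  rfl

lemma lc_hk (u : Hk ℓ κ) : (hk ℓ κ u).leadingCoeff = lcH u := by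
  obtain ⟨u, rfl⟩ := (toH ℓ κ).surjective u
  rw [vb_hk_apply, lcH, RingEquiv.symm_apply_apply]
  by_cases hu : u = 0
  · rw [hu, HahnSeries.embDomain_zero]
  · unfold HahnSeries.leadingCoeff
    rw [HahnSeries.orderTop_embDomain, ← WithTop.coe_untop u.orderTop
      (HahnSeries.orderTop_ne_top.2 hu), WithTop.map_coe]
    exact HahnSeries.embDomain_coeff

/-- The Laurent series `z (ζ ϖ)`. -/
def vbTw (ζ : κ) (z : LaurentSeries κ) : LaurentSeries κ where
  coeff n := ζ ^ n * z.coeff n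
  isPWO_support' := z.isPWO_support'.mono fun n hn h0 => hn (by
    show ζ ^ n * z.coeff n = 0
    rw [h0, mul_zero])

lemma vbTw_coeff (ζ : κ) (z : LaurentSeries κ) (n : ℤ) : (vbTw ζ z).coeff n = ζ ^ n * z.coeff n := rfl

lemma vbTw_support {ζ : κ} (hζ : ζ ≠ 0) (z : LaurentSeries κ) : (vbTw ζ z).support = z.support := by
  ext n
  rw [HahnSeries.mem_support, HahnSeries.mem_support, vbTw_coeff]
  exact ⟨fun h h0 => h (by rw [h0, mul_zero]), fun h => mul_ne_zero (zpow_ne_zero _ hζ) h⟩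

lemma vbTw_mul {ζ : κ} (hζ : ζ ≠ 0) (z w : LaurentSeries κ) :
    vbTw ζ (z * w) = vbTw ζ z * vbTw ζ w := by
  ext n
  rw [vbTw_coeff, HahnSeries.coeff_mul_left' z.isPWO_support (vbTw_support hζ z).le,
    HahnSeries.coeff_mul, Finset.mul_sum]
  have hs : Finset.antidiagonal z.isPWO_support (vbTw ζ w).isPWO_support n =
      Finset.antidiagonal z.isPWO_support w.isPWO_support n := by
    ext ij
    simp only [Finset.mem_antidiagonal, vbTw_support hζ]
  rw [hs]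
  refine Finset.sum_congr rfl fun ij hij => ?_
  have h : ij.1 + ij.2 = n := (Finset.mem_antidiagonal.mp hij).2.2
  rw [vbTw_coeff, vbTw_coeff, ← h, zpow_add₀ hζ]
  ring

/-- The automorphism `ϖ ↦ ζ ϖ` of `κ((ϖ))`. -/
theorem exists_tau {ζ : κ} (hζ : ζ ≠ 0) : ∃ τ : Pk κ ≃+* Pk κ, ∀ z n,
    (τ z).coeff n = ζ ^ n * z.coeff n := by
  refine ⟨{ toFun := vbTw ζ, invFun := vbTw ζ⁻¹, left_inv := ?_, right_inv := ?_,
            map_mul' := vbTw_mul hζ, map_add' := ?_ }, fun z n => rfl⟩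
  · intro z
    ext n
    rw [vbTw_coeff, vbTw_coeff, inv_zpow, inv_mul_cancel_left₀ (zpow_ne_zero n hζ)]
  · intro z
    ext n
    rw [vbTw_coeff, vbTw_coeff, inv_zpow, mul_inv_cancel_left₀ (zpow_ne_zero n hζ)]
  · intro z w
    ext n
    rw [HahnSeries.coeff_add, vbTw_coeff, vbTw_coeff, vbTw_coeff, HahnSeries.coeff_add, mul_add]

lemma b2_coeff_mul (u : Hk ℓ κ) (m : ℤ) :
    (hk ℓ κ u).coeff ((ℓ : ℤ) * m) = ((toH ℓ κ).symm u).coeff m := by
  show (HahnSeries.embDomainRingHom (mulL ℓ) (mulL_injective ℓ) (mulL_le ℓ)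
    ((toH ℓ κ).symm u)).coeff ((ℓ : ℤ) * m) = _
  rw [HahnSeries.embDomainRingHom_apply]
  exact HahnSeries.embDomain_coeff (a := m)

lemma b2_coeff_not_dvd (u : Hk ℓ κ) {n : ℤ} (hn : ¬ (ℓ : ℤ) ∣ n) : (hk ℓ κ u).coeff n = 0 := by
  show (HahnSeries.embDomainRingHom (mulL ℓ) (mulL_injective ℓ) (mulL_le ℓ)
    ((toH ℓ κ).symm u)).coeff n = _
  rw [HahnSeries.embDomainRingHom_apply]
  refine HahnSeries.embDomain_of_notMem_range ?_
  rintro ⟨m, hm⟩
  exact hn ⟨m, hm.symm⟩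

/-- The `i`-th section of a Laurent series. -/
noncomputable def b2_sec (ℓ : ℕ) [NeZero ℓ] (z : Pk κ) (i : ℕ) : Hk ℓ κ :=
  toH ℓ κ (HahnSeries.ofSuppBddBelow (fun n : ℤ => z.coeff ((ℓ : ℤ) * n + i)) (by
    refine ⟨min 0 (z.order - i), ?_⟩
    intro n hn
    rw [Function.mem_support] at hn
    by_contra hlt
    rw [not_le, lt_min_iff] at hlt
    apply hn
    apply HahnSeries.coeff_eq_zero_of_lt_order
    have h1 : (1 : ℤ) ≤ (ℓ : ℤ) := by
      exact_mod_cast Nat.pos_of_ne_zero (NeZero.ne ℓ)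
    nlinarith))

lemma b2_sec_coeff (z : Pk κ) (i : ℕ) (m : ℤ) :
    (hk ℓ κ (b2_sec ℓ z i)).coeff ((ℓ : ℤ) * m) = z.coeff ((ℓ : ℤ) * m + i) := by
  rw [b2_coeff_mul, b2_sec, RingEquiv.symm_apply_apply]
  rfl

lemma b2_sum (z : Pk κ) :
    ∑ i ∈ Finset.range ℓ, (b2_sec ℓ z i) • (HahnSeries.single (i : ℤ) (1 : κ) : Pk κ) = z := by
  have hl : (0 : ℤ) < (ℓ : ℤ) := by exact_mod_cast Nat.pos_of_ne_zero (NeZero.ne ℓ)
  ext n
  rw [HahnSeries.coeff_sum]
  have h1 : ∀ i : ℕ, ((b2_sec ℓ z i) • (HahnSeries.single (i : ℤ) (1 : κ) : Pk κ)).coeff n =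
      (hk ℓ κ (b2_sec ℓ z i)).coeff (n - i) := by
    intro i
    rw [Algebra.smul_def]
    have h2 := HahnSeries.coeff_mul_single_add (r := (1 : κ)) (x := hk ℓ κ (b2_sec ℓ z i))
      (a := n - i) (b := (i : ℤ))
    rw [sub_add_cancel, mul_one] at h2
    exact h2
  simp only [h1]
  have h3 : (0 : ℤ) ≤ n % (ℓ : ℤ) := Int.emod_nonneg n hl.ne'
  have h4 : n % (ℓ : ℤ) < ℓ := Int.emod_lt_of_pos n hl
  rw [Finset.sum_eq_single (n % (ℓ : ℤ)).toNat]
  · have h5 : ((n % (ℓ : ℤ)).toNat : ℤ) = n % (ℓ : ℤ) := Int.toNat_of_nonneg h3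
    have h6 : n - ((n % (ℓ : ℤ)).toNat : ℤ) = (ℓ : ℤ) * (n / (ℓ : ℤ)) := by
      rw [h5]
      have := Int.mul_ediv_add_emod n (ℓ : ℤ)
      linarith
    rw [h6, b2_sec_coeff, h5, Int.mul_ediv_add_emod]
  · intro i hi hne
    apply b2_coeff_not_dvd
    intro hdvd
    apply hne
    have h5 : (i : ℤ) = n % (ℓ : ℤ) := by
      have h6 : (i : ℤ) % (ℓ : ℤ) = n % (ℓ : ℤ) := Int.modEq_iff_dvd.2 hdvd
      rw [← h6]
      symm
      apply Int.emod_eq_of_lt (Int.natCast_nonneg i)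
      exact_mod_cast Finset.mem_range.1 hi
    omega
  · intro hn
    exact absurd (Finset.mem_range.2 (by omega)) hn

lemma b2_finite : Module.Finite (Hk ℓ κ) (Pk κ) := by
  refine ⟨⟨(Finset.range ℓ).image (fun i : ℕ => (HahnSeries.single (i : ℤ) (1 : κ) : Pk κ)), ?_⟩⟩
  rw [eq_top_iff]
  intro z _
  rw [← b2_sum (ℓ := ℓ) z]
  refine Submodule.sum_mem _ (fun i hi => Submodule.smul_mem _ _ (Submodule.subset_span ?_))
  exact Finset.mem_coe.2 (Finset.mem_image_of_mem _ hi)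

/-- `κ((ϖ))` is algebraic over `κ((π))`: `z` is a root of `∏_{j < ℓ} (X - τ ^ j z)`, whose coefficients are fixed by
`τ`, so are in the image of `hk` (if `ζ ^ n * z.coeff n = z.coeff n` and `ℓ ∤ n` then `z.coeff n = 0`); then
`Algebra.IsAlgebraic.trans`. (Or decompose `z = ∑_{i < ℓ} ϖ ^ i h_i`.) -/
theorem isAlgClosure_Hk {ζ : κ} (hζ : IsPrimitiveRoot ζ ℓ) : IsAlgClosure (Hk ℓ κ) (Tk κ) := by
  have := b2_finite (ℓ := ℓ) (κ := κ)
  have : Algebra.IsAlgebraic (Hk ℓ κ) (Pk κ) := Algebra.IsAlgebraic.of_finite _ _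
  exact ⟨inferInstance, Algebra.IsAlgebraic.trans (Hk ℓ κ) (Pk κ) (Tk κ)⟩

/-- The extension of `τ` to the algebraic closure (`IsAlgClosure.equivOfEquiv`); it fixes `κ((π))`. -/
theorem exists_sigma {ζ : κ} (hζ : IsPrimitiveRoot ζ ℓ) (τ : Pk κ ≃+* Pk κ)
    (hτ : ∀ z n, (τ z).coeff n = ζ ^ n * z.coeff n) :
    ∃ σ : Tk κ ≃ₐ[Hk ℓ κ] Tk κ, ∀ z : Pk κ, σ (algebraMap (Pk κ) (Tk κ) z) =
      algebraMap (Pk κ) (Tk κ) (τ z) := by
  have h1 : ∀ z : Pk κ, IsAlgClosure.equivOfEquiv (Tk κ) (Tk κ) τ (algebraMap (Pk κ) (Tk κ) z) =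
      algebraMap (Pk κ) (Tk κ) (τ z) := fun z =>
    IsAlgClosure.equivOfEquiv_algebraMap (Tk κ) (Tk κ) τ z
  refine ⟨AlgEquiv.ofRingEquiv (f := IsAlgClosure.equivOfEquiv (Tk κ) (Tk κ) τ) ?_, h1⟩
  intro u
  rw [algebraMap_Hk, h1]
  congr 1
  ext n
  rw [hτ]
  by_cases hn : (ℓ : ℤ) ∣ n
  · rw [(hζ.zpow_eq_one_iff_dvd n).2 hn, one_mul]
  · rw [b2_coeff_not_dvd u hn, mul_zero]

omit [NeZero ℓ] in
private lemma b3_coeff {ζ : κ} {τ : Pk κ ≃+* Pk κ}
    (hτ : ∀ z n, (τ z).coeff n = ζ ^ n * z.coeff n) (j : ℕ) (z : Pk κ) (n : ℤ) :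
    ((⇑τ)^[j] z).coeff n = (ζ ^ n) ^ j * z.coeff n := by
  induction j with
  | zero => rw [Function.iterate_zero, id, pow_zero, one_mul]
  | succ j ih => rw [Function.iterate_succ_apply', hτ, ih, pow_succ', mul_assoc]

omit [NeZero ℓ] in
private lemma b3_lc {ζ : κ} (h0 : ζ ≠ 0) {τ : Pk κ ≃+* Pk κ}
    (hτ : ∀ z n, (τ z).coeff n = ζ ^ n * z.coeff n) (j : ℕ) (z : Pk κ) (hz : z ≠ 0) :
    ((⇑τ)^[j] z).leadingCoeff = (ζ ^ z.order) ^ j * z.leadingCoeff := by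
  have h1 : (⇑τ)^[j] z ≠ 0 := by
    intro h
    have h2 := b3_coeff hτ j z z.order
    rw [h, HahnSeries.coeff_zero] at h2
    rcases mul_eq_zero.mp h2.symm with h3 | h3
    · exact pow_ne_zero _ (zpow_ne_zero _ h0) h3
    · exact hz (HahnSeries.coeff_order_eq_zero.mp h3)
  have h2 : ∀ n, ((⇑τ)^[j] z).coeff n ≠ 0 ↔ z.coeff n ≠ 0 := by
    intro n
    rw [b3_coeff hτ, Ne, Ne, mul_eq_zero, not_or]
    exact ⟨fun h => h.2, fun h => ⟨pow_ne_zero _ (zpow_ne_zero _ h0), h⟩⟩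
  have h3 : ((⇑τ)^[j] z).order = z.order := by
    apply le_antisymm
    · exact HahnSeries.order_le_of_coeff_ne_zero
        ((h2 _).mpr (fun h => hz (HahnSeries.coeff_order_eq_zero.mp h)))
    · exact HahnSeries.order_le_of_coeff_ne_zero
        ((h2 _).mp (fun h => h1 (HahnSeries.coeff_order_eq_zero.mp h)))
  rw [HahnSeries.leadingCoeff_eq, h3, b3_coeff hτ, HahnSeries.leadingCoeff_eq]

omit [NeZero ℓ] in
private lemma b3_prod {ζ : κ} (hζ : IsPrimitiveRoot ζ ℓ) (hℓ : 0 < ℓ) :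
    ∏ j ∈ Finset.range ℓ, ζ ^ j = (-1) ^ (ℓ - 1) := by
  rw [Finset.prod_pow_eq_pow_sum]
  have h1 := Finset.sum_range_id_mul_two ℓ
  rcases Nat.even_or_odd' ℓ with ⟨k, hk | hk⟩
  · have hk0 : 0 < k := by omega
    have h2 : ∑ i ∈ Finset.range ℓ, i = k * (ℓ - 1) := by
      have : (∑ i ∈ Finset.range ℓ, i) * 2 = k * (ℓ - 1) * 2 := by
        rw [h1]
        nth_rewrite 1 [hk]
        ring
      omega
    have h3 : ζ ^ k = -1 := by
      have h4 : ζ ^ k * ζ ^ k = 1 := by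
        rw [← pow_add, ← two_mul, ← hk, hζ.pow_eq_one]
      rcases mul_self_eq_one_iff.mp h4 with h5 | h5
      · exact absurd h5 (hζ.pow_ne_one_of_pos_of_lt (by omega) (by omega))
      · exact h5
    rw [h2, pow_mul, h3]
  · have h2 : ∑ i ∈ Finset.range ℓ, i = ℓ * k := by
      have : (∑ i ∈ Finset.range ℓ, i) * 2 = ℓ * k * 2 := by
        rw [h1]
        have : ℓ - 1 = 2 * k := by omega
        rw [this]
        ring
      omega
    have h3 : ℓ - 1 = 2 * k := by omega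
    rw [h2, pow_mul, hζ.pow_eq_one, one_pow, h3, pow_mul, neg_one_sq, one_pow]

omit [NeZero ℓ] in
private lemma b3_lc_prod (f : ℕ → Pk κ) (n : ℕ) :
    (∏ j ∈ Finset.range n, f j).leadingCoeff = ∏ j ∈ Finset.range n, (f j).leadingCoeff := by
  induction n with
  | zero => rw [Finset.prod_range_zero, Finset.prod_range_zero, HahnSeries.leadingCoeff_one]
  | succ n ih => rw [Finset.prod_range_succ, Finset.prod_range_succ, HahnSeries.leadingCoeff_mul, ih]

omit [NeZero ℓ] in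
private lemma b3_lc_pow (z : Pk κ) (n : ℕ) : (z ^ n).leadingCoeff = z.leadingCoeff ^ n := by
  induction n with
  | zero => rw [pow_zero, pow_zero, HahnSeries.leadingCoeff_one]
  | succ n ih => rw [pow_succ, pow_succ, HahnSeries.leadingCoeff_mul, ih]

/-- The leading coefficient of a norm. PROOF: `leadingCoeff (τ z) = ζ ^ (order z) * leadingCoeff z`, the orders are
equal; `∏_{j < ℓ} ζ ^ j = (-1) ^ (ℓ - 1) = c ^ ℓ`; `w = c ^ (order z) * leadingCoeff z`. -/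
theorem lc_norm {ζ : κ} (hζ : IsPrimitiveRoot ζ ℓ) (τ : Pk κ ≃+* Pk κ)
    (hτ : ∀ z n, (τ z).coeff n = ζ ^ n * z.coeff n) {c : κ} (hc : c ^ ℓ = (-1) ^ (ℓ - 1)) (z : Pk κ) :
    ∃ w : κ, (∏ j ∈ Finset.range ℓ, (⇑τ)^[j] z).leadingCoeff = w ^ ℓ := by
  have hℓ : 0 < ℓ := Nat.pos_of_ne_zero (NeZero.ne ℓ)
  by_cases hz : z = 0
  · refine ⟨0, ?_⟩
    rw [zero_pow (NeZero.ne ℓ), HahnSeries.leadingCoeff_eq_zero]
    refine Finset.prod_eq_zero (Finset.mem_range.mpr hℓ) ?_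
    rw [Function.iterate_zero, id, hz]
  · refine ⟨c ^ z.order * z.leadingCoeff, ?_⟩
    have h0 : ζ ≠ 0 := hζ.ne_zero (NeZero.ne ℓ)
    rw [b3_lc_prod, Finset.prod_congr rfl fun j _ => b3_lc h0 hτ j z hz,
      Finset.prod_mul_distrib, Finset.prod_const, Finset.card_range, mul_pow]
    congr 1
    have h1 : ∀ j ∈ Finset.range ℓ, (ζ ^ z.order) ^ j = (ζ ^ j) ^ z.order := by
      intro j _
      rw [← zpow_natCast, ← zpow_natCast, ← zpow_mul, ← zpow_mul, mul_comm]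
    rw [Finset.prod_congr rfl h1, Finset.prod_zpow, b3_prod hζ hℓ, ← hc]
    rw [← zpow_natCast, ← zpow_natCast, ← zpow_mul, ← zpow_mul, mul_comm]

omit [NeZero ℓ] in
private lemma b3_ep_zero {G : Type*} {χ : G → ℕ} {g h : G} (h1 : χ g + χ h < ℓ) :
    ep ℓ χ g h = 0 := Nat.div_eq_of_lt h1

private lemma b3_coprime {K : Type} [Field K] {ℓ : ℕ} (hℓ : ℓ.Prime) (h : (ℓ : K) ≠ 0) (q : ℕ)
    (hq : ExpChar K q) : q.Coprime ℓ := by
  cases hq with
  | zero => exact Nat.coprime_one_left ℓ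
  | prime hp =>
    rw [Nat.coprime_primes hp hℓ]
    rintro rfl
    exact h (CharP.cast_eq_zero K q)

private lemma b3_cocycle {E : Type} [Field E] {U a1 a2 e ge ghe ga2 : E}
    (h0 : U * a1 = ga2 * a2) (hge : ge ≠ 0) (hghe : ghe ≠ 0) :
    U * (a1 * e / ghe) = ga2 * ge / ghe * (a2 * e / ge) := by
  field_simp
  linear_combination e * h0

private lemma b3_single {ζ : κ} (τ : Pk κ ≃+* Pk κ)
    (hτ : ∀ z n, (τ z).coeff n = ζ ^ n * z.coeff n) :
    τ (HahnSeries.single 1 1) = hk ℓ κ (cH ℓ ζ) * HahnSeries.single 1 1 := by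
  have h1 : hk ℓ κ (cH ℓ ζ) = HahnSeries.C ζ :=
    HahnSeries.embDomainRingHom_C
  rw [h1]
  ext n
  rw [hτ, HahnSeries.C_mul_eq_smul, HahnSeries.coeff_smul, smul_eq_mul]
  by_cases hn : n = 1
  · rw [hn, zpow_one]
  · rw [HahnSeries.coeff_single_of_ne hn, mul_zero, mul_zero]

/-- A cyclic algebra split by `κ((π))`. PROOF. Write `u ^ ep(g,h) A(gh) = g A(h) A(g)`, `N` for the automorphisms over
`κ((ϖ))` (they are over `κ((π))`: scalar tower). (1) `χ n = 0` for `n ∈ N`, so `A` is a continuous `1`-cocycle on `N`; by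
`h90` (for `Tk κ` over `Pk κ`) `A n * e = n e`. `B g = A g * e / g e` satisfies the same identity, and `B n = 1`. (2) `B (g n) =
B g`, `B (n g) = n (B g)`. Let `σ` be as in `exists_sigma` (so `χ σ = 1`); `σ⁻¹ n σ ∈ N`, `n σ = σ (σ⁻¹ n σ)`, so
`n (B σ) = B σ` and by `exists_pow_mem` `(B σ) ^ (p ^ r)` is the image of some `z` in `Pk κ`. (3) `B (σ ^ (i+1)) =
σ ^ i (B σ) * B (σ ^ i)` for `i + 1 < ℓ`, and for `i = ℓ - 1`: `u * B (σ ^ ℓ) = σ ^ (ℓ-1) (B σ) * B (σ ^ (ℓ-1))`, where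
`σ ^ ℓ ∈ N` (`τ ^ ℓ = 1`), `B (σ ^ ℓ) = 1`. So `u = ∏_{j < ℓ} σ ^ j (B σ)`, `(hk u) ^ (p ^ r) = ∏_{j < ℓ} τ ^ j z` in `Pk κ`.
Conclude by `lc_norm`, `lc_hk`, with `m = p ^ r`, `p = ringExpChar`, prime to `ℓ` (`hℓκ`; see `G13_coprime` in
`Wl/Gen.lean`). -/
theorem lc_pow {ζ : κ} (hζ : IsPrimitiveRoot ζ ℓ) (hℓκ : (ℓ : κ) ≠ 0) {c : κ}
    (hc : c ^ ℓ = (-1) ^ (ℓ - 1)) {χ : (Tk κ ≃ₐ[Hk ℓ κ] Tk κ) → ℕ}
    (hχ : IsChi ℓ (cH ℓ ζ) (vpT κ) χ) (u : Hk ℓ κ) (hu : u ≠ 0)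
    (A : (Tk κ ≃ₐ[Hk ℓ κ] Tk κ) → (Tk κ)ˣ) (hA : IsCts A)
    (h : ∀ g h, algebraMap (Hk ℓ κ) (Tk κ) u ^ ep ℓ χ g h * A (g * h) = g (A h) * A g) :
    ∃ (m : ℕ) (w : κ), m.Coprime ℓ ∧ lcH u ^ m = w ^ ℓ := by
  have hp : ℓ.Prime := hχ.prime
  have hcl : IsAlgClosure (Hk ℓ κ) (Tk κ) := isAlgClosure_Hk hζ
  obtain ⟨R, hR⟩ : ∃ R : (Tk κ ≃ₐ[Pk κ] Tk κ) → (Tk κ ≃ₐ[Hk ℓ κ] Tk κ), ∀ n z, R n z = n z :=
    ⟨fun n => n.restrictScalars (Hk ℓ κ), fun _ _ => rfl⟩
  have hRmul : ∀ n n', R (n * n') = R n * R n' := fun n n' => by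
    ext z
    rw [hR, AlgEquiv.mul_apply, AlgEquiv.mul_apply, hR, hR]
  have hRsurj : ∀ g : Tk κ ≃ₐ[Hk ℓ κ] Tk κ,
      (∀ z : Pk κ, g (algebraMap (Pk κ) (Tk κ) z) = algebraMap (Pk κ) (Tk κ) z) →
        ∃ n, R n = g := fun g hg =>
    ⟨AlgEquiv.ofRingEquiv (f := (g : Tk κ ≃+* Tk κ)) hg, by
      ext z
      rw [hR]
      rfl⟩
  have hinj : Function.Injective (fun z : κ => algebraMap (Hk ℓ κ) (Tk κ) (cH ℓ z)) :=
    (algebraMap (Hk ℓ κ) (Tk κ)).injective.comp (cH (κ := κ) ℓ).injective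
  have hχR : ∀ n, χ (R n) = 0 := by
    intro n
    have h1 := hχ.act (R n)
    have h2 : R n (vpT κ) = vpT κ := by
      rw [hR]
      exact n.commutes _
    rw [h2] at h1
    have h3 : algebraMap (Hk ℓ κ) (Tk κ) (cH ℓ ζ ^ χ (R n)) = 1 :=
      mul_right_cancel₀ hχ.ne (by rw [one_mul]; exact h1.symm)
    have h4 : ζ ^ χ (R n) = 1 := by
      apply hinj
      show algebraMap (Hk ℓ κ) (Tk κ) (cH ℓ (ζ ^ χ (R n))) = algebraMap (Hk ℓ κ) (Tk κ) (cH ℓ 1)
      rw [map_pow, h3, map_one, map_one]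
    by_contra h5
    exact hζ.pow_ne_one_of_pos_of_lt h5 (hχ.lt _) h4
  have hAR : IsCts fun n => A (R n) := by
    obtain ⟨T, hT⟩ := hA
    exact ⟨T, fun g g' hg => hT _ _ fun x hx => by
      rw [hR, hR]
      exact hg x hx⟩
  obtain ⟨e, he⟩ := h90 (K := Pk κ) (S := Tk κ) (fun n => A (R n)) hAR (by
    intro g h'
    have h1 := h (R g) (R h')
    rw [b3_ep_zero (by rw [hχR, hχR]; exact hp.pos), pow_zero, one_mul, ← hRmul] at h1
    rw [h1, hR])
  obtain ⟨B, hB⟩ : ∃ B : (Tk κ ≃ₐ[Hk ℓ κ] Tk κ) → Tk κ, ∀ g, B g = A g * e / g e :=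
    ⟨_, fun _ => rfl⟩
  have hge : ∀ g : Tk κ ≃ₐ[Hk ℓ κ] Tk κ, g (e : Tk κ) ≠ 0 := fun g =>
    (_root_.map_ne_zero g).mpr e.ne_zero
  have hBmul : ∀ g g', algebraMap (Hk ℓ κ) (Tk κ) u ^ ep ℓ χ g g' * B (g * g') =
      g (B g') * B g := by
    intro g g'
    rw [hB, hB, hB, map_div₀, map_mul]
    exact b3_cocycle (h g g') (hge g) (hge (g * g'))
  have hBR : ∀ n, B (R n) = 1 := by
    intro n
    rw [hB, he n, hR]
    exact div_self (by rw [← hR]; exact hge _)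
  have hBgn : ∀ g n, B (g * R n) = B g := by
    intro g n
    have h1 := hBmul g (R n)
    rw [b3_ep_zero (by rw [hχR, add_zero]; exact hχ.lt g), pow_zero, one_mul, hBR, map_one,
      one_mul] at h1
    exact h1
  have hBng : ∀ n g, B (R n * g) = R n (B g) := by
    intro n g
    have h1 := hBmul (R n) g
    rw [b3_ep_zero (by rw [hχR, zero_add]; exact hχ.lt g), pow_zero, one_mul, hBR,
      mul_one] at h1
    exact h1
  obtain ⟨τ, hτ⟩ := exists_tau (hζ.ne_zero (NeZero.ne ℓ))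
  obtain ⟨σ, hσ⟩ := exists_sigma hζ τ hτ
  have hχσ : χ σ = 1 := by
    have h1 := hχ.act σ
    have h2 : σ (vpT κ) = algebraMap (Hk ℓ κ) (Tk κ) (cH ℓ ζ) * vpT κ := by
      show σ (algebraMap (Pk κ) (Tk κ) (HahnSeries.single 1 1)) = _
      rw [hσ, algebraMap_Hk, b3_single (ℓ := ℓ) τ hτ, map_mul]
      rfl
    rw [h2] at h1
    have h3 := mul_right_cancel₀ hχ.ne h1
    rw [← map_pow] at h3
    have h4 : ζ = ζ ^ χ σ := hinj h3
    have h5 : ζ ^ 1 = ζ ^ χ σ := by rw [pow_one]; exact h4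
    exact (hζ.pow_inj hp.one_lt (hχ.lt σ) h5).symm
  have hBσ : ∀ n : Tk κ ≃ₐ[Pk κ] Tk κ, n (B σ) = B σ := by
    intro n
    obtain ⟨n', hn'⟩ := hRsurj (σ⁻¹ * R n * σ) (by
      intro z
      rw [AlgEquiv.mul_apply, AlgEquiv.mul_apply, hσ, hR, n.commutes, ← hσ]
      exact σ.symm_apply_apply _)
    have h1 : R n * σ = σ * R n' := by
      rw [hn']
      group
    rw [← hR, ← hBng, h1, hBgn]
  obtain ⟨r, y, hy⟩ := exists_pow_mem (K := Pk κ) (S := Tk κ) (B σ) hBσ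
  have hχi : ∀ i, i < ℓ → χ (σ ^ i) = i := by
    intro i
    induction i with
    | zero => intro _; rw [pow_zero, hχ.one]
    | succ i ih =>
      intro hi
      rw [pow_succ, hχ.mul, ih (by omega), hχσ]
      exact Nat.mod_eq_of_lt hi
  have hBi : ∀ i, i < ℓ → B (σ ^ i) = ∏ j ∈ Finset.range i, (σ ^ j) (B σ) := by
    intro i
    induction i with
    | zero =>
      intro _
      rw [pow_zero, Finset.prod_range_zero]
      have h1 : R 1 = 1 := by
        ext z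
        rw [hR]
        rfl
      rw [← h1, hBR]
    | succ i ih =>
      intro hi
      have h1 := hBmul (σ ^ i) σ
      rw [b3_ep_zero (by rw [hχi i (by omega), hχσ]; exact hi), pow_zero, one_mul,
        ← pow_succ, ih (by omega)] at h1
      rw [h1, Finset.prod_range_succ, mul_comm]
  have hσj : ∀ (j : ℕ) (z : Pk κ), (σ ^ j) (algebraMap (Pk κ) (Tk κ) z) =
      algebraMap (Pk κ) (Tk κ) ((⇑τ)^[j] z) := by
    intro j z
    induction j with
    | zero => rw [pow_zero]; rfl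
    | succ j ih => rw [pow_succ', AlgEquiv.mul_apply, ih, hσ, Function.iterate_succ_apply']
  have hBℓ : B (σ ^ ℓ) = 1 := by
    obtain ⟨n, hn⟩ := hRsurj (σ ^ ℓ) (by
      intro z
      rw [hσj]
      congr 1
      ext n
      rw [b3_coeff hτ, ← zpow_natCast, ← zpow_mul, mul_comm n, zpow_mul, zpow_natCast,
        hζ.pow_eq_one, one_zpow, one_mul])
    rw [← hn, hBR]
  have hfin : algebraMap (Hk ℓ κ) (Tk κ) u = ∏ j ∈ Finset.range ℓ, (σ ^ j) (B σ) := by
    obtain ⟨k, hk'⟩ : ∃ k, ℓ = k + 1 := ⟨ℓ - 1, by have := hp.pos; omega⟩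
    have h1 := hBmul (σ ^ k) σ
    have h2 : ep ℓ χ (σ ^ k) σ = 1 := by
      unfold ep
      rw [hχi k (by omega), hχσ, ← hk']
      exact Nat.div_self hp.pos
    rw [h2, pow_one, ← pow_succ, ← hk', hBℓ, mul_one, hBi k (by omega)] at h1
    rw [h1, mul_comm, ← Finset.prod_range_succ (fun j => (σ ^ j) (B σ)) k, ← hk']
  have hprod : hk ℓ κ u ^ (ringExpChar (Pk κ) ^ r) = ∏ j ∈ Finset.range ℓ, (⇑τ)^[j] y := by
    apply (algebraMap (Pk κ) (Tk κ)).injective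
    rw [map_pow, ← algebraMap_Hk, hfin, ← Finset.prod_pow, map_prod]
    refine Finset.prod_congr rfl fun j _ => ?_
    rw [← map_pow, hy, hσj]
  obtain ⟨w, hw⟩ := lc_norm hζ τ hτ hc y
  have hne : (ℓ : Pk κ) ≠ 0 := by
    intro h0
    apply hℓκ
    have h1 : HahnSeries.C (Γ := ℤ) (ℓ : κ) = HahnSeries.C (0 : κ) := by
      rw [map_natCast, map_zero, h0]
    exact HahnSeries.C_injective h1
  refine ⟨ringExpChar (Pk κ) ^ r, w, Nat.Coprime.pow_left r (b3_coprime hp hne _ inferInstance), ?_⟩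
  rw [← lc_hk, ← b3_lc_pow, hprod, hw]

end

end Pool.Agent.Lib.MP_89bcae_ag.Bra

end

section

/-!
# The embedding of the functions over the local field in the functions over `κ((π))`
-/

open Polynomial IsDedekindDomain IsLocalRing

open scoped Classical

namespace Pool.Agent.Lib.MP_89bcae_ag.Bra

open Pool.Agent.Lib.MP_89bcae_ag.Sup Pool.Agent.Lib.MP_89bcae_ag.Wt
  Pool.Agent.Lib.MP_89bcae_ag.Wt.Lns

/-- The places of `F(t)`. -/
theorem exists_eq_plc {F : Type} [Field F] [IsAlgClosed F] (v : HeightOneSpectrum F[X]) :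
    ∃ s : F, v = plc s := by
  obtain ⟨p, hp⟩ : ∃ p : F[X], v.asIdeal = Ideal.span {p} :=
    (IsPrincipalIdealRing.principal v.asIdeal).principal
  have hp0 : p ≠ 0 := by
    intro h0
    apply v.ne_bot
    rw [hp, h0, Ideal.span_singleton_eq_bot]
  have hprime : Prime p := by
    rw [← Ideal.span_singleton_prime hp0, ← hp]
    exact v.isPrime
  have hirr := hprime.irreducible
  have hdeg : p.degree ≠ 0 := fun h => hirr.not_isUnit (Polynomial.isUnit_iff_degree_eq_zero.mpr h)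
  obtain ⟨s, hs⟩ := IsAlgClosed.exists_root p hdeg
  refine ⟨s, HeightOneSpectrum.ext ?_⟩
  have h1 : X - C s ∣ p := dvd_iff_isRoot.mpr hs
  have h2 : Associated (X - C s) p :=
    (prime_X_sub_C s).irreducible.associated_of_dvd hirr h1
  rw [hp]
  change _ = Ideal.span {X - C s}
  exact (Ideal.span_singleton_eq_span_singleton.mpr h2).symm

/-- An embedding of the field `K`, in which `t` is the image of `X`, in `κ((π))`, with `t = s + π` and coefficients in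
`F`. -/
structure IsEmb (ℓ : ℕ) {F K κ : Type} [Field F] [Field K] [Field κ] [Algebra F κ] [Algebra F[X] K]
    (s : F) (i : K →+* Hk ℓ κ) : Prop where
  const : ∀ c : F, i (algebraMap F[X] K (C c)) = cH ℓ (algebraMap F κ c)
  t : i (algebraMap F[X] K (X - C s)) = piH ℓ κ
  coeff : ∀ (z : K) (n : ℤ), ∃ c : F, HahnSeries.coeff ((toH ℓ κ).symm (i z)) n = algebraMap F κ c

section D1

open WithZero

variable {F : Type} [Field F]


/-- Coefficientwise map. -/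
noncomputable def mapL8 (κ : Type) [Field κ] [Algebra F κ] : LaurentSeries F →+* LaurentSeries κ where
  toFun z := HahnSeries.map z (algebraMap F κ)
  map_one' := HahnSeries.map_one (algebraMap F κ).toMonoidWithZeroHom
  map_mul' _ _ := HahnSeries.map_mul (algebraMap F κ : F →ₙ+* κ)
  map_zero' := by
    ext n
    exact map_zero (algebraMap F κ)
  map_add' x y := by
    ext n
    exact map_add (algebraMap F κ) (HahnSeries.coeff x n) (HahnSeries.coeff y n)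

lemma mapL8_coeff (κ : Type) [Field κ] [Algebra F κ] (z : LaurentSeries F) (n : ℤ) :
    (mapL8 κ z).coeff n = algebraMap F κ (z.coeff n) := rfl

end D1


section

variable {ℓ : ℕ} [NeZero ℓ] {F K κ E : Type} [Field F] [Field K] [Field κ] [Algebra F κ]
  [Algebra F[X] K] [Field E] [Algebra K E] [IsAlgClosure K E] {s : F} {i : K →+* Hk ℓ κ}

omit [NeZero ℓ] [Algebra F κ] [Algebra F[X] K] [Field K] in
private lemma d2_coeff_mul_cH (u : Hk ℓ κ) (x : κ) (n : ℤ) :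
    HahnSeries.coeff ((toH ℓ κ).symm (u * cH ℓ x)) n =
      HahnSeries.coeff ((toH ℓ κ).symm u) n * x := by
  rw [map_mul]
  exact HahnSeries.coeff_mul_single_zero

omit [NeZero ℓ] in
private lemma d2_transc (hi : IsEmb ℓ s i) {x : κ}
    (hx : ∀ p : F[X], aeval x p = 0 → p = 0) (q : K[X])
    (hq : q.eval₂ i (cH ℓ x) = 0) : q = 0 := by
  have h1 : ∀ (k : ℕ) (n : ℤ), ∃ c : F,
      HahnSeries.coeff ((toH ℓ κ).symm (i (q.coeff k))) n = algebraMap F κ c :=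
    fun k n => hi.coeff _ _
  choose c hc using h1
  ext k
  rw [coeff_zero]
  by_cases hk : k ∈ q.support
  swap
  · exact notMem_support_iff.mp hk
  apply i.injective
  rw [map_zero]
  apply (toH ℓ κ).symm.injective
  rw [map_zero]
  ext n
  rw [hc k n, HahnSeries.coeff_zero]
  have h2 : (∑ j ∈ q.support, monomial j (c j n) : F[X]) = 0 := by
    apply hx
    have h3 := congrArg (fun u => HahnSeries.coeff ((toH ℓ κ).symm u) n) hq
    simp only [map_zero, HahnSeries.coeff_zero] at h3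
    rw [eval₂_eq_sum, Polynomial.sum, map_sum, HahnSeries.coeff_sum] at h3
    rw [map_sum, ← h3]
    refine Finset.sum_congr rfl fun j _ => ?_
    rw [aeval_monomial, ← map_pow, d2_coeff_mul_cH, hc]
  have h4 := congrArg (fun p => Polynomial.coeff p k) h2
  simp only [finsetSum_coeff, coeff_monomial, coeff_zero] at h4
  rw [Finset.sum_ite_eq' q.support k, if_pos hk] at h4
  rw [h4, map_zero]

/-- `x` is transcendental over `K`, hence over `E`. PROOF. If `p(x) = 0` with `p ≠ 0` in `E[X]` then the image of `x` in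
`Tk κ` is algebraic over `E`, hence over `K` (the image of `K` in `Tk κ` by `i`): `q(x) = 0` in `Hk ℓ κ` for some
`q ≠ 0` in `K[X]`. Coefficient of `π ^ n`: `∑_k c_{k,n} x ^ k = 0` with `c_{k,n}` in `F` (`hi.coeff`), so all `c_{k,n} = 0`
(`hx`), so `q = 0` as `i` is injective. -/
theorem transc (hi : IsEmb ℓ s i) (jE : E →+* Tk κ)
    (hj : ∀ z : K, jE (algebraMap K E z) = algebraMap (Hk ℓ κ) (Tk κ) (i z)) {x : κ}
    (hx : ∀ p : F[X], aeval x p = 0 → p = 0) (p : E[X])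
    (hp : p.eval₂ jE (algebraMap (Hk ℓ κ) (Tk κ) (cH ℓ x)) = 0) : p = 0 := by
  classical
  by_contra hp0
  let _ : Algebra E (Tk κ) := jE.toAlgebra
  let _ : Algebra K (Tk κ) := (jE.comp (algebraMap K E)).toAlgebra
  have _ : IsScalarTower K E (Tk κ) := IsScalarTower.of_algebraMap_eq fun z => rfl
  have halg : Algebra.IsAlgebraic K E := IsAlgClosure.isAlgebraic
  have h1 : IsAlgebraic E (algebraMap (Hk ℓ κ) (Tk κ) (cH ℓ x)) := ⟨p, hp0, hp⟩
  have h2 : IsAlgebraic K (algebraMap (Hk ℓ κ) (Tk κ) (cH ℓ x)) := h1.restrictScalars K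
  obtain ⟨q, hq0, hq⟩ := h2
  apply hq0
  refine d2_transc hi hx q ?_
  apply (algebraMap (Hk ℓ κ) (Tk κ)).injective
  rw [map_zero, hom_eval₂, ← hq, aeval_def]
  congr 1
  ext z
  exact (hj z).symm

variable {ι : Type} [Fintype ι] [LinearOrder ι] {W : ι → ℕ} {a : ι → F[X]} {ζ : F} {x y : κ}


-- brv-d3: replaces exists_Y


/-- The embedding of the functions over `E` in `Tk κ`: `x ↦ x`, `y ↦ Y`. PROOF. `E[X] → Tk κ` is injective by `transc`, so
extends to `RatFunc E`; then `AdjoinRoot.lift`. -/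
theorem exists_psi (hi : IsEmb ℓ s i) (jE : E →+* Tk κ)
    (hj : ∀ z : K, jE (algebraMap K E z) = algebraMap (Hk ℓ κ) (Tk κ) (i z))
    (hx : ∀ p : F[X], aeval x p = 0 → p = 0) (f : K[X]) (Y : Hk ℓ κ)
    (hY : Y ^ ℓ = f.eval₂ i (cH ℓ x)) :
    ∃ ψ : FunField ℓ (f.map (algebraMap K E)) →+* Tk κ, (∀ z, ψ (cO ℓ f E z) = jE z) ∧
      ψ (polyF X) = algebraMap (Hk ℓ κ) (Tk κ) (cH ℓ x) ∧ ψ yF = algebraMap (Hk ℓ κ) (Tk κ) Y := by
  have hinj : Function.Injective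
      (eval₂RingHom jE (algebraMap (Hk ℓ κ) (Tk κ) (cH ℓ x)) : E[X] →+* Tk κ) := by
    rw [injective_iff_map_eq_zero]
    intro p hp
    exact transc hi jE hj hx p hp
  let θ : RatFunc E →+* Tk κ := IsFractionRing.lift hinj
  have hθ : ∀ p : E[X], θ (algebraMap E[X] (RatFunc E) p) =
      p.eval₂ jE (algebraMap (Hk ℓ κ) (Tk κ) (cH ℓ x)) := fun p =>
    IsFractionRing.lift_algebraMap hinj p
  have hf : (f.map (algebraMap K E)).eval₂ jE (algebraMap (Hk ℓ κ) (Tk κ) (cH ℓ x)) =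
      algebraMap (Hk ℓ κ) (Tk κ) (Y ^ ℓ) := by
    rw [hY, Polynomial.eval₂_map, Polynomial.hom_eval₂]
    have : jE.comp (algebraMap K E) = (algebraMap (Hk ℓ κ) (Tk κ)).comp i := RingHom.ext hj
    rw [this]
  let ψ : FunField ℓ (f.map (algebraMap K E)) →+* Tk κ :=
    AdjoinRoot.lift θ (algebraMap (Hk ℓ κ) (Tk κ) Y) (by
      rw [eval₂_sub, eval₂_pow, eval₂_X, eval₂_C, hθ, hf, map_pow, sub_self])
  have hψ : ∀ p : E[X], ψ (polyF p) = p.eval₂ jE (algebraMap (Hk ℓ κ) (Tk κ) (cH ℓ x)) := by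
    intro p
    rw [polyF_eq, ← hθ p]
    exact AdjoinRoot.lift_of _
  refine ⟨ψ, fun z => ?_, ?_, AdjoinRoot.lift_root _⟩
  · change ψ (polyF (C z)) = _
    rw [hψ, eval₂_C]
  · rw [hψ, eval₂_X]

/-- The restriction of automorphisms. PROOF. The image of `E` is the algebraic closure in `Tk κ` of the image of `K`,
which is in `Hk ℓ κ`; or `AlgEquiv.restrictNormalHom`-like arguments, see `exists_restrict`, `exists_autL12` in
`Sup/L12.lean`, for the algebra structure on `Tk κ` over `K` given by `i`. -/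
theorem exists_resE (jE : E →+* Tk κ)
    (hj : ∀ z : K, jE (algebraMap K E z) = algebraMap (Hk ℓ κ) (Tk κ) (i z)) :
    ∃ r : (Tk κ ≃ₐ[Hk ℓ κ] Tk κ) →* (E ≃ₐ[K] E), ∀ g z, jE (r g z) = g (jE z) := by
  let _ : Algebra K (Tk κ) := ((algebraMap (Hk ℓ κ) (Tk κ)).comp i).toAlgebra
  let _ : Algebra E (Tk κ) := jE.toAlgebra
  have : IsScalarTower K E (Tk κ) := IsScalarTower.of_algebraMap_eq fun z => (hj z).symm
  have : Normal K E := IsAlgClosure.normal K E
  let toK : (Tk κ ≃ₐ[Hk ℓ κ] Tk κ) →* (Tk κ ≃ₐ[K] Tk κ) :=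
    { toFun := fun g => AlgEquiv.ofRingEquiv (f := (g : Tk κ ≃+* Tk κ)) fun z => by
        change g (algebraMap (Hk ℓ κ) (Tk κ) (i z)) = algebraMap (Hk ℓ κ) (Tk κ) (i z)
        exact g.commutes _
      map_one' := rfl
      map_mul' := fun _ _ => rfl }
  exact ⟨(AlgEquiv.restrictNormalHom E).comp toK, fun g z =>
    AlgEquiv.restrictNormal_commutes (toK g) E z⟩

end

/-- A homomorphism of `FunField ℓ f` has values in a subfield if those of the constants, `x` and `y` are there. -/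
theorem mem_of_gen {L T : Type} [Field L] [Field T] {ℓ : ℕ} {f : L[X]}
    (φ : FunField ℓ f →+* T) (R : Subfield T) (hc : ∀ c : L, φ (polyF (C c)) ∈ R)
    (hx : φ (polyF X) ∈ R) (hy : φ yF ∈ R) (r : FunField ℓ f) : φ r ∈ R := by
  have hpoly : ∀ p : L[X], φ (polyF p) ∈ R := by
    intro p
    induction p using Polynomial.induction_on' with
    | add p q hp hq =>
      rw [map_add, map_add]
      exact add_mem hp hq
    | monomial n c =>
      rw [← C_mul_X_pow_eq_monomial, map_mul, map_mul, map_pow, map_pow]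
      exact mul_mem (hc c) (pow_mem hx n)
  have hrat : ∀ c : RatFunc L, φ (AdjoinRoot.of _ c) ∈ R := by
    intro c
    have h1 : (φ.comp (AdjoinRoot.of _)) c = φ (AdjoinRoot.of _ c) := rfl
    have h2 : ∀ p : L[X], (φ.comp (AdjoinRoot.of _)) (algebraMap L[X] (RatFunc L) p) ∈ R := by
      intro p
      have h3 := hpoly p
      rw [polyF_eq] at h3
      exact h3
    rw [← h1, ← RatFunc.num_div_denom c, map_div₀]
    exact div_mem (h2 _) (h2 _)
  obtain ⟨P, rfl⟩ := AdjoinRoot.mk_surjective r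
  induction P using Polynomial.induction_on' with
  | add p q hp hq =>
    rw [map_add, map_add]
    exact add_mem hp hq
  | monomial n c =>
    rw [← C_mul_X_pow_eq_monomial, map_mul, map_mul, map_pow, map_pow, AdjoinRoot.mk_C,
      AdjoinRoot.mk_X]
    exact mul_mem (hrat c) (pow_mem hy n)

end Pool.Agent.Lib.MP_89bcae_ag.Bra

end

section

/-!
# From `L = F(t)` to the local field `K`, `Ω ⊆ E`
-/

open Polynomial IsDedekindDomain IsLocalRing

open scoped Classical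

namespace Pool.Agent.Lib.MP_89bcae_ag.Bra

open Pool.Agent.Lib.MP_89bcae_ag.Wt Pool.Agent.Lib.MP_89bcae_ag.Wt.Lns

section VgDiv

variable {N : ℕ} {A B : Type} [Field A] [Field B] {p : A[X]} {q : B[X]}

/-- The homomorphism of the groups of nonzero functions induced by a homomorphism of fields. -/
noncomputable def vg2U (N : ℕ) {A B : Type} [Field A] [Field B] {p : A[X]} {q : B[X]}
    (σ : A →+* B) (h : p.map σ = q) : (FunField N p)ˣ →* (FunField N q)ˣ :=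
  Units.map ((funMap N σ h : FunField N p →+* FunField N q) : FunField N p →* FunField N q)

lemma vg2_coe (σ : A →+* B) (h : p.map σ = q) (u : (FunField N p)ˣ) :
    (vg2U N σ h u : FunField N q) = funMap N σ h u := rfl

lemma vg2_injective (σ : A →+* B) (h : p.map σ = q) :
    Function.Injective (Pt.map σ h : Pt N p → Pt N q) := by
  intro P Q hPQ
  apply Pt.ext
  · exact σ.injective (congrArg Pt.x hPQ)
  · exact σ.injective (congrArg Pt.y hPQ)

variable [hG : IsGood N p] [hG' : IsGood N q]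

lemma vg2_autF_rotE (ζ : A) (hζ : ζ ^ N = 1) (h0 : ζ ≠ 0) (a : FunField N p) :
    autF (rotE ζ hζ h0) a = rotF ζ hζ a := by
  obtain ⟨x, y, _, hab⟩ := IsFractionRing.div_surjective (A := NRing N p) a
  rw [← hab, map_div₀, map_div₀, autF_algebraMap, autF_algebraMap]
  rfl

omit hG hG' in
lemma vg2_funMap_rotF (σ : A →+* B) (h : p.map σ = q) (ζ : A) (hζ : ζ ^ N = 1)
    (hζ' : (σ ζ) ^ N = 1) (a : FunField N p) :
    funMap N σ h (rotF ζ hζ a) = rotF (σ ζ) hζ' (funMap N σ h a) := by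
  have h1 : (funMap N σ h : FunField N p →+* FunField N q).comp (rotF ζ hζ) =
      (rotF (σ ζ) hζ').comp (funMap N σ h) := by
    refine funField_hom_ext (fun p => ?_) ?_
    · rw [RingHom.comp_apply, RingHom.comp_apply, rotF_polyF, funMap_polyF, rotF_polyF]
    · rw [RingHom.comp_apply, RingHom.comp_apply, rotF_yF, map_mul, funMap_polyF, funMap_yF,
        rotF_yF, Polynomial.map_C]
  exact RingHom.congr_fun h1 a

lemma vg2_rotU (σ : A →+* B) (h : p.map σ = q) (ζ : A) (hζ : ζ ^ N = 1) (h0 : ζ ≠ 0)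
    (hζ' : (σ ζ) ^ N = 1) (h0' : σ ζ ≠ 0) (u : (FunField N p)ˣ) :
    vg2U N σ h (rotU ζ hζ h0 u) = rotU (σ ζ) hζ' h0' (vg2U N σ h u) := by
  apply Units.ext
  have h1 : ((rotU ζ hζ h0 u : (FunField N p)ˣ) : FunField N p) =
      autF (rotE ζ hζ h0) (u : FunField N p) := rfl
  have h2 : ((rotU (σ ζ) hζ' h0' (vg2U N σ h u) : (FunField N q)ˣ) : FunField N q) =
      autF (rotE (σ ζ) hζ' h0') ((vg2U N σ h u : (FunField N q)ˣ) : FunField N q) := rfl
  rw [h2, vg2_coe, vg2_coe, h1, vg2_autF_rotE, vg2_autF_rotE]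
  exact vg2_funMap_rotF σ h ζ hζ hζ' _

lemma vg2_nrm (σ : A →+* B) (h : p.map σ = q) (ζ : A) (hζ : ζ ^ N = 1) (h0 : ζ ≠ 0)
    (hζ' : (σ ζ) ^ N = 1) (h0' : σ ζ ≠ 0) (u : (FunField N p)ˣ) :
    vg2U N σ h (nrm ζ hζ h0 u) = nrm (σ ζ) hζ' h0' (vg2U N σ h u) := by
  unfold nrm
  rw [map_prod]
  have h1 : ∀ i : ℕ, vg2U N σ h ((rotU ζ hζ h0)^[i] u) =
      (rotU (σ ζ) hζ' h0')^[i] (vg2U N σ h u) := by
    intro i
    induction i with
    | zero => rfl
    | succ i ih =>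
      rw [Function.iterate_succ_apply', Function.iterate_succ_apply',
        vg2_rotU σ h ζ hζ h0 hζ' h0', ih]
  exact Finset.prod_congr rfl fun i _ => h1 i

lemma vg2_xs (σ : A →+* B) (h : p.map σ = q) (a : A) :
    vg2U N σ h (xs a) = xs (σ a) := by
  apply Units.ext
  have h1 : ((xs a : (FunField N p)ˣ) : FunField N p) = polyF (X - C a) := rfl
  have h2 : ((xs (σ a) : (FunField N q)ˣ) : FunField N q) = polyF (X - C (σ a)) := rfl
  rw [vg2_coe, h1, h2, funMap_polyF, Polynomial.map_sub, Polynomial.map_X, Polynomial.map_C]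

lemma vg2_cstU (σ : A →+* B) (h : p.map σ = q) (c : Aˣ) :
    vg2U N σ h (cstU c) = cstU (Units.map (σ : A →* B) c) := by
  apply Units.ext
  have h1 : ((cstU c : (FunField N p)ˣ) : FunField N p) = polyF (C (c : A)) := rfl
  have h2 : ((cstU (Units.map (σ : A →* B) c) : (FunField N q)ˣ) : FunField N q) =
      polyF (C (σ (c : A))) := rfl
  rw [vg2_coe, h1, h2, funMap_polyF, Polynomial.map_C]

lemma vg2_xprod (σ : A →+* B) (h : p.map σ = q) (D : Pt N p →₀ ℤ) :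
    vg2U N σ h (xprod D) = xprod (D.mapDomain (Pt.map σ h)) := by
  unfold xprod
  rw [Finsupp.prod_mapDomain_index (fun _ => zpow_zero _) (fun _ _ _ => zpow_add _ _ _)]
  unfold Finsupp.prod
  rw [map_prod]
  refine Finset.prod_congr rfl fun P _ => ?_
  rw [map_zpow, vg2_xs]
  rfl

lemma vg2_ord_xs (σ : A →+* B) (h : p.map σ = q) (P : Pt N p) (a : A) :
    ord (P.map σ h) (xs (σ a)) = ord P (xs a) := by
  have hx : (Pt.map σ h P).x = σ P.x := rfl
  have hy : (Pt.map σ h P).y = σ P.y := rfl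
  by_cases hxa : P.x = a
  · subst hxa
    rw [← hx]
    by_cases hy0 : P.y = 0
    · rw [ord_xs_of_ramified P hy0, ord_xs_of_ramified (Pt.map σ h P) (by rw [hy, hy0, map_zero])]
    · rw [ord_xs_of_unramified P hy0, ord_xs_of_unramified (Pt.map σ h P) (by
        rw [hy]
        exact (_root_.map_ne_zero σ).mpr hy0)]
  · rw [ord_xs_of_ne P hxa, ord_xs_of_ne (Pt.map σ h P) (by
      rw [hx]
      exact fun h' => hxa (σ.injective h'))]

lemma vg2_ord_xprod (σ : A →+* B) (h : p.map σ = q) (P : Pt N p) (D : Pt N p →₀ ℤ) :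
    ord (P.map σ h) (xprod (D.mapDomain (Pt.map σ h))) = ord P (xprod D) := by
  unfold xprod
  rw [Finsupp.prod_mapDomain_index (fun _ => zpow_zero _) (fun _ _ _ => zpow_add _ _ _)]
  unfold Finsupp.prod
  rw [R10_ord_prod, R10_ord_prod]
  refine Finset.sum_congr rfl fun Q _ => ?_
  rw [ord_zpow, ord_zpow]
  have hx : (Pt.map σ h Q).x = σ Q.x := rfl
  rw [hx, vg2_ord_xs]

omit hG in
lemma vg2_ord_xprod_ne (σ : A →+* B) (h : p.map σ = q) (Q : Pt N q) (hQ : ∀ a : A, Q.x ≠ σ a)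
    (D : Pt N p →₀ ℤ) : ord Q (xprod (D.mapDomain (Pt.map σ h))) = 0 := by
  unfold xprod
  rw [Finsupp.prod_mapDomain_index (fun _ => zpow_zero _) (fun _ _ _ => zpow_add _ _ _)]
  unfold Finsupp.prod
  rw [R10_ord_prod]
  refine Finset.sum_eq_zero fun R _ => ?_
  rw [ord_zpow]
  have hx : (Pt.map σ h R).x = σ R.x := rfl
  rw [hx, ord_xs_of_ne Q (hQ R.x), mul_zero]

omit hG in
lemma vg2_pow {ζ : A} (hζ : ζ ^ N = 1) (i : ℕ) : (ζ ^ i) ^ N = 1 := by
  rw [← pow_mul, mul_comm, pow_mul, hζ, one_pow]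

lemma vg2_ord_nrm (ζ : A) (hζ : ζ ^ N = 1) (h0 : ζ ≠ 0) (P : Pt N p) (u : (FunField N p)ˣ) :
    ord P (nrm ζ hζ h0 u) = ∑ i ∈ Finset.range N, ord (P.rot (ζ ^ i) (vg2_pow hζ i)) u := by
  unfold nrm
  rw [R10_ord_prod]
  exact Finset.sum_congr rfl fun i _ => R10_ord_rot_iter ζ hζ h0 P i u

/-- The order of an integral function does not decrease. -/
lemma vg2_ord_le (σ : A →+* B) (h : p.map σ = q) (P : Pt N p) (a : NRing N p)
    (u : (FunField N p)ˣ) (hu : (u : FunField N p) = algebraMap (NRing N p) (FunField N p) a) :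
    ord P u ≤ ord (P.map σ h) (vg2U N σ h u) := by
  have ha : a ≠ 0 := by
    intro h0
    rw [h0, map_zero] at hu
    exact u.ne_zero hu
  have hu' : ((vg2U N σ h u : (FunField N q)ˣ) : FunField N q) =
      algebraMap (NRing N q) (FunField N q) (coordMap N σ h a) := by
    rw [vg2_coe, hu]
    rfl
  have hb : coordMap N σ h a ≠ 0 := by
    intro h0
    rw [h0, map_zero] at hu'
    exact (vg2U N σ h u).ne_zero hu'
  have h1 : 0 ≤ ord P u := ord_nonneg P a u hu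
  obtain ⟨n, hn⟩ := Int.eq_ofNat_of_zero_le h1
  have h2 : a ∈ P.ideal ^ n := by
    have h3 := P.hs.intValuation_le_pow_iff_mem a n
    have h4 : P.hs.intValuation a ≠ 0 := P.hs.intValuation_ne_zero a ha
    have h5 : ord P u = -(WithZero.log (P.hs.intValuation a)) := by
      unfold ord
      rw [hu, HeightOneSpectrum.valuation_of_algebraMap]
    refine h3.mp ?_
    rw [← WithZero.log_le_iff_le_exp h4]
    omega
  have h6 : coordMap N σ h a ∈ (P.map σ h).ideal ^ n := by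
    rw [← map_ideal σ h P, ← Ideal.map_pow]
    exact Ideal.mem_map_of_mem _ h2
  have h7 := ((P.map σ h).hs.intValuation_le_pow_iff_mem (coordMap N σ h a) n).mpr h6
  have h8 : ord (P.map σ h) (vg2U N σ h u) =
      -(WithZero.log ((P.map σ h).hs.intValuation (coordMap N σ h a))) := by
    unfold ord
    rw [hu', HeightOneSpectrum.valuation_of_algebraMap]
  have h9 := (WithZero.log_le_iff_le_exp ((P.map σ h).hs.intValuation_ne_zero _ hb)).mpr h7
  omega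

omit hG hG' in

/-- A point whose first coordinate is in the image is an image. -/
lemma vg2_exists_pt [IsAlgClosed A] (hN : N ≠ 0) {ζ : A} (hζ : IsPrimitiveRoot ζ N)
    (σ : A →+* B) (h : p.map σ = q) (Q : Pt N q) (a : A) (ha : Q.x = σ a) :
    ∃ P : Pt N p, Q = P.map σ h := by
  have : NeZero N := ⟨hN⟩
  obtain ⟨y, hy⟩ := IsAlgClosed.exists_pow_nat_eq (p.eval a) (Nat.pos_of_ne_zero hN)
  have h1 : Q.y ^ N = (σ y) ^ N := by
    rw [Q.eq, ← map_pow, hy, ha, ← h, Polynomial.eval_map, Polynomial.eval₂_hom]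
  by_cases hy0 : y = 0
  · refine ⟨⟨a, y, hy⟩, ?_⟩
    apply Pt.ext
    · exact ha
    · rw [hy0, map_zero, zero_pow hN] at h1
      have h2 : Q.y = 0 := (pow_eq_zero_iff hN).mp h1
      show Q.y = σ y
      rw [h2, hy0, map_zero]
  · have hs : σ y ≠ 0 := (_root_.map_ne_zero σ).mpr hy0
    have h2 : (Q.y / σ y) ^ N = 1 := by
      rw [div_pow, h1, div_self (pow_ne_zero _ hs)]
    obtain ⟨i, _, hi⟩ := (hζ.map_of_injective σ.injective).eq_pow_of_pow_eq_one h2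
    refine ⟨⟨a, ζ ^ i * y, by rw [mul_pow, vg2_pow hζ.pow_eq_one, one_mul, hy]⟩, ?_⟩
    apply Pt.ext
    · exact ha
    · show Q.y = σ (ζ ^ i * y)
      rw [map_mul, map_pow, hi, div_mul_cancel₀ _ hs]

/-- The divisor of an integral function. -/
lemma vg2_div_int {ζ : A} (hζ : IsPrimitiveRoot ζ N) (σ : A →+* B) (h : p.map σ = q)
    (a : NRing N p) (u : (FunField N p)ˣ)
    (hu : (u : FunField N p) = algebraMap (NRing N p) (FunField N p) a) :
    Wt.div (vg2U N σ h u) = (Wt.div u).mapDomain (Pt.map σ h) := by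
  have hN : N ≠ 0 := hG.ne
  have : IsAlgClosed A := hG.alg
  have : NeZero N := ⟨hN⟩
  have h0 : ζ ≠ 0 := hζ.ne_zero hN
  have hζ1 : ζ ^ N = 1 := hζ.pow_eq_one
  have h0' : σ ζ ≠ 0 := (_root_.map_ne_zero σ).mpr h0
  have hζ' : (σ ζ) ^ N = 1 := by rw [← map_pow, hζ1, map_one]
  have hu' : ((vg2U N σ h u : (FunField N q)ˣ) : FunField N q) =
      algebraMap (NRing N q) (FunField N q) (coordMap N σ h a) := by
    rw [vg2_coe, hu]
    rfl
  obtain ⟨c, hc⟩ := exists_nrm_eq ζ hζ h0 u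
  have key : nrm (σ ζ) hζ' h0' (vg2U N σ h u) = cstU (Units.map (σ : A →* B) c) *
      xprod ((Wt.div u).mapDomain (Pt.map σ h)) := by
    rw [← vg2_nrm σ h ζ hζ1 h0 hζ' h0', hc, map_mul, vg2_cstU, vg2_xprod]
  have hsum : ∀ Q : Pt N q, ∑ i ∈ Finset.range N,
      ord (Q.rot (σ ζ ^ i) (vg2_pow hζ' i)) (vg2U N σ h u) =
        ord Q (xprod ((Wt.div u).mapDomain (Pt.map σ h))) := by
    intro Q
    rw [← vg2_ord_nrm (σ ζ) hζ' h0', key, ord_mul, ord_cstU, zero_add]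
  have hrot : ∀ {C : Type} [Field C] {r : C[X]} (Q : Pt N r) (ξ : C) (hξ : ξ ^ N = 1),
      Q.rot (ξ ^ 0) (vg2_pow hξ 0) = Q := by
    intro C _ r Q ξ hξ
    apply Pt.ext
    · rfl
    · show ξ ^ 0 * Q.y = Q.y
      rw [pow_zero, one_mul]
  ext Q
  rw [div_apply]
  by_cases hQ : ∃ P : Pt N p, Q = P.map σ h
  · obtain ⟨P, rfl⟩ := hQ
    rw [Finsupp.mapDomain_apply (vg2_injective σ h), div_apply]
    have h1 := hsum (P.map σ h)
    have h2 : ord P (xprod (Wt.div u)) =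
        ∑ i ∈ Finset.range N, ord (P.rot (ζ ^ i) (vg2_pow hζ1 i)) u := by
      rw [← vg2_ord_nrm ζ hζ1 h0, hc, ord_mul, ord_cstU, zero_add]
    rw [vg2_ord_xprod, h2] at h1
    have h3 : ∀ i, (P.map σ h).rot (σ ζ ^ i) (vg2_pow hζ' i) =
        (P.rot (ζ ^ i) (vg2_pow hζ1 i)).map σ h := by
      intro i
      apply Pt.ext
      · rfl
      · show σ ζ ^ i * σ P.y = σ (ζ ^ i * P.y)
        rw [map_mul, map_pow]
    have h4 : ∀ i ∈ Finset.range N, ord (P.rot (ζ ^ i) (vg2_pow hζ1 i)) u ≤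
        ord ((P.map σ h).rot (σ ζ ^ i) (vg2_pow hζ' i)) (vg2U N σ h u) := by
      intro i _
      rw [h3 i]
      exact vg2_ord_le σ h _ a u hu
    have h5 := (Finset.sum_eq_sum_iff_of_le h4).mp h1.symm 0 (Finset.mem_range.mpr hG.pos)
    rw [hrot _ _ hζ1, hrot _ _ hζ'] at h5
    exact h5.symm
  · rw [Finsupp.mapDomain_of_notMem_range _ _ (by
      rintro ⟨P, hP⟩
      exact hQ ⟨P, hP.symm⟩)]
    have hx : ∀ b : A, Q.x ≠ σ b := fun b hb => hQ (vg2_exists_pt hN hζ σ h Q b hb)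
    have h1 := hsum Q
    rw [vg2_ord_xprod_ne σ h Q hx] at h1
    have h4 : ∀ i ∈ Finset.range N, 0 ≤
        ord (Q.rot (σ ζ ^ i) (vg2_pow hζ' i)) (vg2U N σ h u) :=
      fun i _ => ord_nonneg _ _ _ hu'
    have h5 := (Finset.sum_eq_zero_iff_of_nonneg h4).mp h1 0 (Finset.mem_range.mpr hG.pos)
    rw [hrot _ _ hζ'] at h5
    exact h5

lemma vg2_exists_root (N : ℕ) {A : Type} [Field A] (p : A[X]) [hG : IsGood N p] :
    ∃ ζ : A, IsPrimitiveRoot ζ N := by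
  have : IsAlgClosed A := hG.alg
  have : NeZero (N : A) := ⟨hG.ne_zero⟩
  exact HasEnoughRootsOfUnity.exists_primitiveRoot A N

/-- The divisor of the image of a function. -/
lemma vg2_div (σ : A →+* B) (h : p.map σ = q) (u : (FunField N p)ˣ) :
    Wt.div (vg2U N σ h u) = (Wt.div u).mapDomain (Pt.map σ h) := by
  obtain ⟨ζ, hζ⟩ := vg2_exists_root N p
  obtain ⟨a, b, hb, hab⟩ := IsFractionRing.div_surjective (A := NRing N p) (u : FunField N p)
  have hb0 : algebraMap (NRing N p) (FunField N p) b ≠ 0 := by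
    intro h0
    rw [h0, div_zero] at hab
    exact u.ne_zero hab.symm
  have ha0 : algebraMap (NRing N p) (FunField N p) a ≠ 0 := by
    intro h0
    rw [h0, zero_div] at hab
    exact u.ne_zero hab.symm
  set ua : (FunField N p)ˣ := Units.mk0 _ ha0 with hua
  set ub : (FunField N p)ˣ := Units.mk0 _ hb0 with hub
  have h1 : u = ua * ub⁻¹ := by
    apply Units.ext
    rw [Units.val_mul, Units.val_inv_eq_inv_val, ← hab, div_eq_mul_inv]
    rfl
  have h2 := vg2_div_int hζ σ h a ua rfl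
  have h3 := vg2_div_int hζ σ h b ub rfl
  rw [h1, map_mul, map_inv, Wt.div_mul, Wt.div_inv, Wt.div_mul, Wt.div_inv, h2, h3,
    Finsupp.mapDomain_add]
  congr 1
  exact (map_neg (Finsupp.mapDomain.addMonoidHom (Pt.map σ h : Pt N p → Pt N q)) (Wt.div ub)).symm

end VgDiv

section

variable {L Ω K E : Type} [Field L] [Field Ω] [Algebra L Ω] [Field K] [Algebra L K] [Field E]
  [Algebra K E] [Algebra L E] [IsScalarTower L K E] {ℓ : ℕ} {f : L[X]}

lemma map_jj (f : L[X]) (K : Type) [Field K] [Algebra L K] [Algebra K E] [IsScalarTower L K E]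
    (j : Ω →ₐ[L] E) : (f.map (algebraMap L Ω)).map (j : Ω →+* E) =
      (f.map (algebraMap L K)).map (algebraMap K E) := by
  rw [Polynomial.map_map, Polynomial.map_map, AlgHom.comp_algebraMap, ← IsScalarTower.algebraMap_eq]

/-- The restriction of the automorphisms of `E` to `Ω` (`exists_restrict` in `Sup/L12.lean`). -/
theorem exists_rho [IsAlgClosure L Ω] (j : Ω →ₐ[L] E) :
    ∃ ρ : (E ≃ₐ[K] E) →* (Ω ≃ₐ[L] Ω), ∀ g z, j (ρ g z) = g (j z) := by
  have h1 : ∀ g : E ≃ₐ[K] E, ∃ g' : Ω ≃ₐ[L] Ω, ∀ z, j (g' z) = g (j z) := fun g =>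
    Sup.exists_restrict j (g.restrictScalars L)
  choose ρ hρ using h1
  have hj : Function.Injective j := (j : Ω →+* E).injective
  refine ⟨{ toFun := ρ, map_one' := ?_, map_mul' := ?_ }, hρ⟩
  · ext z
    apply hj
    rw [hρ]
    rfl
  · intro g h
    ext z
    apply hj
    rw [hρ, AlgEquiv.mul_apply, AlgEquiv.mul_apply, hρ, hρ]

/-- The image of a function. -/
noncomputable def jU (K : Type) [Field K] [Algebra L K] [Algebra K E] [IsScalarTower L K E]
    (j : Ω →ₐ[L] E) : (FunField ℓ (f.map (algebraMap L Ω)))ˣ →*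
      (FunField ℓ ((f.map (algebraMap L K)).map (algebraMap K E)))ˣ :=
  Units.map ((funMap ℓ (j : Ω →+* E) (map_jj f K j) : FunField ℓ (f.map (algebraMap L Ω)) →+*
    FunField ℓ ((f.map (algebraMap L K)).map (algebraMap K E))) :
      FunField ℓ (f.map (algebraMap L Ω)) →*
        FunField ℓ ((f.map (algebraMap L K)).map (algebraMap K E)))

lemma coe_jU (j : Ω →ₐ[L] E) (u : (FunField ℓ (f.map (algebraMap L Ω)))ˣ) :
    (jU K j u : FunField ℓ ((f.map (algebraMap L K)).map (algebraMap K E))) =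
      funMap ℓ (j : Ω →+* E) (map_jj f K j) u := rfl

variable (j : Ω →ₐ[L] E) (ρ : (E ≃ₐ[K] E) →* (Ω ≃ₐ[L] Ω))

/-- The image of the cochain `b`. -/
noncomputable def bv (b : (Ω ≃ₐ[L] Ω) → (Ω ≃ₐ[L] Ω) → (FunField ℓ (f.map (algebraMap L Ω)))ˣ) :
    (E ≃ₐ[K] E) → (E ≃ₐ[K] E) →
      (FunField ℓ ((f.map (algebraMap L K)).map (algebraMap K E)))ˣ :=
  fun g h => jU K j (b (ρ g) (ρ h))

/-- The image of the cochain `C`. -/
noncomputable def Cv (C : (Ω ≃ₐ[L] Ω) → (Pt ℓ (f.map (algebraMap L Ω)) →₀ ℤ)) :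
    (E ≃ₐ[K] E) → (Pt ℓ ((f.map (algebraMap L K)).map (algebraMap K E)) →₀ ℤ) :=
  fun g => (C (ρ g)).mapDomain (Pt.map (j : Ω →+* E) (map_jj f K j))

variable [IsAlgClosure L Ω] [hG : IsGood ℓ (f.map (algebraMap L Ω))]
  [hG' : IsGood ℓ ((f.map (algebraMap L K)).map (algebraMap K E))]
  {b : (Ω ≃ₐ[L] Ω) → (Ω ≃ₐ[L] Ω) → (FunField ℓ (f.map (algebraMap L Ω)))ˣ}
  {C : (Ω ≃ₐ[L] Ω) → (Pt ℓ (f.map (algebraMap L Ω)) →₀ ℤ)}

/-- `symU` is given by `funMap` (`coe_symU` in `Bra/Mod.lean`; same statement). -/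
theorem coe_symU' {E : Type} [Field E] {g : E[X]} [IsGood ℓ g] (σ : Sym g) (u : (FunField ℓ g)ˣ) :
    ((symU σ u : (FunField ℓ g)ˣ) : FunField ℓ g) =
      funMap ℓ ((σ : E ≃+* E) : E →+* E) σ.2 u := by
  have h1 : ((symU σ u : (FunField ℓ g)ˣ) : FunField ℓ g) = autF (symE ℓ σ) (u : FunField ℓ g) := rfl
  rw [h1]
  obtain ⟨a, b, -, hab⟩ := IsFractionRing.div_surjective (A := NRing ℓ g) (u : FunField ℓ g)
  rw [← hab, map_div₀, map_div₀, autF_algebraMap, autF_algebraMap]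
  rfl

omit [IsAlgClosure L Ω] in

/-- Composition of the maps induced by homomorphisms of fields. -/
private lemma vg1_comp {ℓ : ℕ} {A B : Type} [Field A] [Field B] {f₁ : A[X]} {f₂ : B[X]}
    (φ : A →+* B) (h : f₁.map φ = f₂) (σ : A →+* A) (hσ : f₁.map σ = f₁) (τ : B →+* B)
    (hτ : f₂.map τ = f₂) (hc : φ.comp σ = τ.comp φ) :
    (funMap ℓ φ h : FunField ℓ f₁ →+* FunField ℓ f₂).comp (funMap ℓ σ hσ) =
      (funMap ℓ τ hτ : FunField ℓ f₂ →+* FunField ℓ f₂).comp (funMap ℓ φ h) := by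
  refine funField_hom_ext (fun p => ?_) ?_
  · rw [RingHom.comp_apply, RingHom.comp_apply, funMap_polyF, funMap_polyF, funMap_polyF,
      funMap_polyF, Polynomial.map_map, Polynomial.map_map, hc]
  · rw [RingHom.comp_apply, RingHom.comp_apply, funMap_yF, funMap_yF, funMap_yF]

omit [IsAlgClosure L Ω] in
/-- Compatibility of the actions. -/
theorem map_symU (hρ : ∀ g z, j (ρ g z) = g (j z)) (g : E ≃ₐ[K] E)
    (u : (FunField ℓ (f.map (algebraMap L Ω)))ˣ) :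
    jU K j (symU (gs f (ρ g)) u) = symU (gs (f.map (algebraMap L K)) g) (jU K j u) := by
  apply Units.ext
  rw [coe_jU, coe_symU', coe_symU', coe_jU]
  exact RingHom.congr_fun (vg1_comp (ℓ := ℓ) (j : Ω →+* E) (map_jj f K j)
    (((gs f (ρ g) : Wt.Sym _) : Ω ≃+* Ω) : Ω →+* Ω) (gs f (ρ g)).2
    (((gs (f.map (algebraMap L K)) g : Wt.Sym _) : E ≃+* E) : E →+* E)
    (gs (f.map (algebraMap L K)) g).2 (RingHom.ext fun z => hρ g z))
    (u : FunField ℓ (f.map (algebraMap L Ω)))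

omit [IsAlgClosure L Ω] hG hG' [Algebra L K] [IsScalarTower L K E] in
private lemma vg1_agree (hρ : ∀ g z, j (ρ g z) = g (j z)) (T : Finset Ω) {g g' : E ≃ₐ[K] E}
    (h : ∀ x ∈ T.image j, g x = g' x) : ∀ x ∈ T, ρ g x = ρ g' x := by
  intro x hx
  apply (j : Ω →+* E).injective
  change j (ρ g x) = j (ρ g' x)
  rw [hρ, hρ, h (j x) (Finset.mem_image_of_mem _ hx)]

omit [IsAlgClosure L Ω] in
theorem ICoc.bv (hρ : ∀ g z, j (ρ g z) = g (j z)) (hb : ICoc b) : ICoc (Bra.bv (K := K) j ρ b) := by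
  refine ⟨fun g h k => ?_, ?_⟩
  · change jU K j (b (ρ g) (ρ h)) * jU K j (b (ρ (g * h)) (ρ k)) =
      symU (gs (f.map (algebraMap L K)) g) (jU K j (b (ρ h) (ρ k))) *
        jU K j (b (ρ g) (ρ (h * k)))
    rw [← map_symU j ρ hρ, ← map_mul, ← map_mul, map_mul ρ g h, map_mul ρ h k, hb.cocycle]
  · obtain ⟨T, hT⟩ := hb.continuous
    refine ⟨T.image j, fun g g' h h' hg hh => ?_⟩
    change jU K j (b (ρ g) (ρ h)) = jU K j (b (ρ g') (ρ h'))
    rw [hT (ρ g) (ρ g') (ρ h) (ρ h') (vg1_agree j ρ hρ T hg) (vg1_agree j ρ hρ T hh)]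

omit [IsAlgClosure L Ω] in

/-- The divisor of the image of a function. PROOF. For a point `P` of the curve over `Ω` the orders at `P` and at its image
are equal: `map_ideal` in `Wt/W09.lean` (the ideal of `P` generates that of its image), and for `u` with `ord P u = 0`,
`u = a / b` with `a`, `b` in `NRing` not vanishing at `P`, `evalPt (P.map σ h) (coordMap a) = σ (evalPt P a)`; in general multiply
by a power of a local parameter (`unif P.x` if `P.y = 0`, `xs P.x` otherwise). If `P'` is not an image then `P'.x` is not in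
`j Ω` (otherwise `P'.y` is too, `Ω` being algebraically closed). Write `u = a / q`, `a` in `NRing`, `q` in `Ω[X]` (`exists_den` in
`Wt/W01.lean`; `exists_toN` in `Wt/WC.lean`). `q` does not vanish at `P'.x`. The product of the conjugates of `a` by `rotE` is a
polynomial `q'` (`R10_fix` in `Wt/W10.lean`), which does not vanish at `P'.x`; the images of the conjugates are in `NRing`, so
they have orders `≥ 0` at `P'`, and the sum is `0`. -/
theorem div_map (u : (FunField ℓ (f.map (algebraMap L Ω)))ˣ) :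
    Wt.div (jU K j u) = (Wt.div u).mapDomain (Pt.map (j : Ω →+* E) (map_jj f K j)) :=
  vg2_div (j : Ω →+* E) (map_jj f K j) u

omit [IsAlgClosure L Ω] in
theorem IDiv.bv (hρ : ∀ g z, j (ρ g z) = g (j z)) (hC : IDiv b C) :
    IDiv (Bra.bv (K := K) j ρ b) (Bra.Cv (K := K) j ρ C) := by
  refine ⟨?_, fun g h => ?_⟩
  · obtain ⟨T, hT⟩ := hC.continuous
    refine ⟨T.image j, fun g g' hg => ?_⟩
    change (C (ρ g)).mapDomain _ = (C (ρ g')).mapDomain _
    rw [hT (ρ g) (ρ g') (vg1_agree j ρ hρ T hg)]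
  · change Wt.div (jU K j (b (ρ g) (ρ h))) +
        (C (ρ (g * h))).mapDomain (Pt.map (j : Ω →+* E) (map_jj f K j)) =
      ((C (ρ h)).mapDomain (Pt.map (j : Ω →+* E) (map_jj f K j))).mapDomain
        (Pt.sym (gs (f.map (algebraMap L K)) g)) +
        (C (ρ g)).mapDomain (Pt.map (j : Ω →+* E) (map_jj f K j))
    have h1 : (Pt.sym (N := ℓ) (gs (f.map (algebraMap L K)) g)) ∘
        (Pt.map (N := ℓ) (j : Ω →+* E) (map_jj f K j)) =
        (Pt.map (N := ℓ) (j : Ω →+* E) (map_jj f K j)) ∘ (Pt.sym (N := ℓ) (gs f (ρ g))) := by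
      funext P
      apply Pt.ext
      · exact (hρ g P.x).symm
      · exact (hρ g P.y).symm
    rw [div_map, map_mul, ← Finsupp.mapDomain_add, hC.div, Finsupp.mapDomain_add,
      ← Finsupp.mapDomain_comp, ← Finsupp.mapDomain_comp, h1]


end

section

variable {K E : Type} [Field K] [Field E] [Algebra K E] {ℓ : ℕ} [NeZero ℓ] {f : K[X]}

/-- `b` is split over `κ((π))`, for all `κ`. -/
def LUnr (F : Type) [Field F] [Algebra F[X] K] (s : F)
    (b : (E ≃ₐ[K] E) → (E ≃ₐ[K] E) → (FunField ℓ (f.map (algebraMap K E)))ˣ) : Prop :=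
  ∀ (κ : Type) [Field κ] [Algebra F κ] [IsAlgClosure (Hk ℓ κ) (Tk κ)] (i : K →+* Hk ℓ κ)
    (ψ : FunField ℓ (f.map (algebraMap K E)) →+* Tk κ)
    (r : (Tk κ ≃ₐ[Hk ℓ κ] Tk κ) →* (E ≃ₐ[K] E)), IsEmb ℓ s i →
    (∀ z : K, ψ (cO ℓ f E (algebraMap K E z)) = algebraMap (Hk ℓ κ) (Tk κ) (i z)) →
    ψ (polyF X) ∈ (algebraMap (Hk ℓ κ) (Tk κ)).range → ψ yF ∈ (algebraMap (Hk ℓ κ) (Tk κ)).range →
    (∀ g z, ψ (cO ℓ f E (r g z)) = g (ψ (cO ℓ f E z))) →
    ∃ a : (Tk κ ≃ₐ[Hk ℓ κ] Tk κ) → (Tk κ)ˣ, IsCts a ∧ ∀ g h,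
      ψ (b (r g) (r h) : FunField ℓ (f.map (algebraMap K E))) * a (g * h) = g (a h) * a g

end

section

variable {F L Ω K E : Type} [Field F] [Field L] [Algebra F[X] L] [Field Ω] [Algebra L Ω] [Field K]
  [Algebra L K] [Algebra F[X] K] [IsScalarTower F[X] L K] [Field E] [Algebra K E] [Algebra L E]
  [IsScalarTower L K E] {ℓ : ℕ} [NeZero ℓ] {f : L[X]} (j : Ω →ₐ[L] E)
  (ρ : (E ≃ₐ[K] E) →* (Ω ≃ₐ[L] Ω))
  {b : (Ω ≃ₐ[L] Ω) → (Ω ≃ₐ[L] Ω) → (FunField ℓ (f.map (algebraMap L Ω)))ˣ}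

omit [Algebra F[X] L] [Algebra F[X] K] [IsScalarTower F[X] L K] [NeZero ℓ] in
lemma g4_cO (z : Ω) : funMap ℓ (j : Ω →+* E) (map_jj f K j) (cO ℓ f Ω z) =
    cO ℓ (f.map (algebraMap L K)) E (j z) := by
  show funMap ℓ (j : Ω →+* E) (map_jj f K j) (polyF (C z)) = polyF (C (j z))
  rw [funMap_polyF, Polynomial.map_C]
  rfl

omit [Algebra F[X] L] [Algebra F[X] K] [IsScalarTower F[X] L K] [NeZero ℓ] in
lemma g4_toO_c (c : L) : funMap ℓ (j : Ω →+* E) (map_jj f K j) (toO ℓ f Ω (polyF (C c))) =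
    cO ℓ (f.map (algebraMap L K)) E (algebraMap K E (algebraMap L K c)) := by
  have h1 : toO ℓ f Ω (polyF (C c)) = cO ℓ f Ω (algebraMap L Ω c) := by
    show funMap ℓ (algebraMap L Ω) rfl (polyF (C c)) = polyF (C (algebraMap L Ω c))
    rw [funMap_polyF, Polynomial.map_C]
  rw [h1, g4_cO, AlgHom.commutes, ← IsScalarTower.algebraMap_apply L K E]

lemma g4_C (ℓ : ℕ) {κ : Type} [Field κ] (a : κ) :
    algebraMap (PowerSeries κ) (Hk ℓ κ) (PowerSeries.C a) = cH ℓ a :=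
  HahnSeries.ofPowerSeries_C (Γ := ℤ) a

lemma g4_X (ℓ : ℕ) (κ : Type) [Field κ] :
    algebraMap (PowerSeries κ) (Hk ℓ κ) PowerSeries.X = piH ℓ κ :=
  HahnSeries.ofPowerSeries_X (Γ := ℤ)

/-- PROOF. Apply `hu` to `O = PowerSeries κ`, `H = Hk ℓ κ`, `T = Tk κ` and `ψ.comp (funMap ℓ j _)`. The values on
`toO (FunField ℓ f)` are in `H` by `mem_of_gen` (`polyF (C c) ↦ algebraMap (i (algebraMap L K c))`; `x`, `y`); the constants
of `F` are in `O` (`IsEmb.const`); the constant `(t - s)⁻¹` goes to `π⁻¹`, which is not in `O`. The automorphism `g' = ρ (r g)`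
satisfies the condition. -/
theorem lunr_of_iunr (hρ : ∀ g z, j (ρ g z) = g (j z)) (s : F) (hu : IUnr F b) :
    LUnr F s (Bra.bv (K := K) j ρ b) := by
  intro κ _ _ _ i ψ r hi hψ hX hy hr
  have hval : ∀ c : L, ψ (funMap ℓ (j : Ω →+* E) (map_jj f K j) (toO ℓ f Ω (polyF (C c)))) =
      algebraMap (Hk ℓ κ) (Tk κ) (i (algebraMap L K c)) := by
    intro c
    rw [g4_toO_c, hψ]
  obtain ⟨a, ha, hab⟩ := hu (PowerSeries κ) (Hk ℓ κ) (Tk κ)
    (ψ.comp (funMap ℓ (j : Ω →+* E) (map_jj f K j))) (by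
      intro z
      have h1 := mem_of_gen ((ψ.comp (funMap ℓ (j : Ω →+* E) (map_jj f K j))).comp (toO ℓ f Ω))
        (algebraMap (Hk ℓ κ) (Tk κ)).fieldRange (fun c => ⟨i (algebraMap L K c), (hval c).symm⟩)
        (by
          show ψ (funMap ℓ (j : Ω →+* E) (map_jj f K j) (funMap ℓ (algebraMap L Ω) rfl (polyF X))) ∈ _
          rw [funMap_polyF, Polynomial.map_X, funMap_polyF, Polynomial.map_X]
          exact hX)
        (by
          show ψ (funMap ℓ (j : Ω →+* E) (map_jj f K j) (funMap ℓ (algebraMap L Ω) rfl yF)) ∈ _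
          rw [funMap_yF, funMap_yF]
          exact hy) z
      exact h1) (by
      intro c
      refine ⟨PowerSeries.C (algebraMap F κ c), ?_⟩
      show algebraMap (Hk ℓ κ) (Tk κ) (algebraMap (PowerSeries κ) (Hk ℓ κ)
        (PowerSeries.C (algebraMap F κ c))) = ψ (funMap ℓ (j : Ω →+* E) (map_jj f K j)
          (cO ℓ f Ω (algebraMap L Ω (algebraMap F[X] L (C c)))))
      rw [g4_cO, AlgHom.commutes, IsScalarTower.algebraMap_apply L K E, hψ,
        ← IsScalarTower.algebraMap_apply F[X] L K, hi.const, g4_C]) (by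
      refine ⟨polyF (C (algebraMap F[X] L (X - C s))⁻¹), ?_⟩
      rintro ⟨q, hq⟩
      have h1 : algebraMap (Hk ℓ κ) (Tk κ) (algebraMap (PowerSeries κ) (Hk ℓ κ) q) =
          algebraMap (Hk ℓ κ) (Tk κ) (i (algebraMap L K (algebraMap F[X] L (X - C s))⁻¹)) := by
        rw [← hval]
        exact hq
      have h2 := (algebraMap (Hk ℓ κ) (Tk κ)).injective h1
      rw [map_inv₀, ← IsScalarTower.algebraMap_apply F[X] L K, map_inv₀, hi.t, ← g4_X] at h2
      have h3 : algebraMap (PowerSeries κ) (Hk ℓ κ) PowerSeries.X ≠ 0 := by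
        rw [g4_X]
        exact HahnSeries.single_ne_zero one_ne_zero
      have h4 : algebraMap (PowerSeries κ) (Hk ℓ κ) (q * PowerSeries.X) =
          algebraMap (PowerSeries κ) (Hk ℓ κ) 1 := by
        rw [map_mul, h2, inv_mul_cancel₀ h3, map_one]
      have h5 := IsFractionRing.injective (PowerSeries κ) (Hk ℓ κ) h4
      have h6 := congrArg PowerSeries.constantCoeff h5
      rw [map_mul, PowerSeries.constantCoeff_X, mul_zero, map_one] at h6
      exact zero_ne_one h6)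
  refine ⟨a, ha, fun g h => ?_⟩
  have key : ∀ (g : Tk κ ≃ₐ[Hk ℓ κ] Tk κ) (z : Ω),
      ψ.comp (funMap ℓ (j : Ω →+* E) (map_jj f K j)) (cO ℓ f Ω (ρ (r g) z)) =
        g (ψ.comp (funMap ℓ (j : Ω →+* E) (map_jj f K j)) (cO ℓ f Ω z)) := by
    intro g z
    show ψ (funMap ℓ (j : Ω →+* E) (map_jj f K j) (cO ℓ f Ω (ρ (r g) z))) =
      g (ψ (funMap ℓ (j : Ω →+* E) (map_jj f K j) (cO ℓ f Ω z)))
    rw [g4_cO, g4_cO, hρ, hr]
  exact hab g h (ρ (r g)) (ρ (r h)) (key g) (key h)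

end

end Pool.Agent.Lib.MP_89bcae_ag.Bra

end

section

namespace Pool.Agent.Lib.MP_89bcae_ag.Wt.Lns.LocCtx
end Pool.Agent.Lib.MP_89bcae_ag.Wt.Lns.LocCtx


/-!
# The fibres `t = s`: the main step
-/

open Polynomial IsDedekindDomain IsLocalRing

open scoped Classical

namespace Pool.Agent.Lib.MP_89bcae_ag.Bra

open Pool.Agent.Lib.MP_89bcae_ag.Sup (LocCtx plc exists_locCtx)

open Pool.Agent.Lib.MP_89bcae_ag.Wt Pool.Agent.Lib.MP_89bcae_ag.Wt.Lns


section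

variable {F K E κ : Type} [Field F] [Field K] [Algebra F[X] K] [Field E] [Algebra K E] [Field κ]
  [Algebra F κ] {ℓ : ℕ} [NeZero ℓ] {s : F} {ζ : F} {ϖ : E} {χ : (E ≃ₐ[K] E) → ℕ}
  {i : K →+* Hk ℓ κ}

/-- The characters agree. PROOF: `(jE ϖ) ^ ℓ = jE (t - s) = π = vpT ^ ℓ` (`vpT_pow`), so `vpT = ζ ^ k jE ϖ`. -/
theorem isChi_comp (hχ : IsChi ℓ (algebraMap F[X] K (C ζ)) ϖ χ)
    (hϖ : ϖ ^ ℓ = algebraMap K E (algebraMap F[X] K (X - C s))) (hζ : IsPrimitiveRoot ζ ℓ)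
    (hi : IsEmb ℓ s i) (jE : E →+* Tk κ)
    (hj : ∀ z : K, jE (algebraMap K E z) = algebraMap (Hk ℓ κ) (Tk κ) (i z))
    (r : (Tk κ ≃ₐ[Hk ℓ κ] Tk κ) →* (E ≃ₐ[K] E)) (hr : ∀ g z, jE (r g z) = g (jE z)) :
    IsChi ℓ (cH ℓ (algebraMap F κ ζ)) (vpT κ) fun g => χ (r g) := by
  have hζ1 : IsPrimitiveRoot (cH ℓ (algebraMap F κ ζ)) ℓ :=
    (hζ.map_of_injective (algebraMap F κ).injective).map_of_injective (cH (κ := κ) ℓ).injective
  have hζ2 : IsPrimitiveRoot (algebraMap (Hk ℓ κ) (Tk κ) (cH ℓ (algebraMap F κ ζ))) ℓ :=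
    hζ1.map_of_injective (algebraMap (Hk ℓ κ) (Tk κ)).injective
  have h1 : (jE ϖ) ^ ℓ = vpT κ ^ ℓ := by
    rw [← map_pow, hϖ, hj, hi.t, vpT_pow]
  have h2 : jE ϖ ≠ 0 := (_root_.map_ne_zero jE).mpr hχ.ne
  have h3 : (vpT κ / jE ϖ) ^ ℓ = 1 := by
    rw [div_pow, h1, div_self (pow_ne_zero _ vpT_ne_zero)]
  obtain ⟨k, -, hk⟩ := hζ2.eq_pow_of_pow_eq_one h3
  have h4 : vpT κ = algebraMap (Hk ℓ κ) (Tk κ) (cH ℓ (algebraMap F κ ζ) ^ k) * jE ϖ := by
    rw [map_pow, hk, div_mul_cancel₀ _ h2]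
  refine ⟨hχ.prime, hζ1, vpT_ne_zero, fun g => hχ.lt (r g), fun g => ?_⟩
  have h5 : g (jE ϖ) = algebraMap (Hk ℓ κ) (Tk κ) (cH ℓ (algebraMap F κ ζ) ^ χ (r g)) * jE ϖ := by
    rw [← hr, hχ.act, map_mul, hj, map_pow i, hi.const]
  rw [h4, map_mul, AlgEquiv.commutes, h5]
  exact mul_left_comm _ _ _

/-- Pull back of cochains. PROOF: `a (r g)` depends on the restriction of `r g` to `T`, so on that of `g` to `jE T`. -/
theorem IsCts.comp_r {X : Type} {a : (E ≃ₐ[K] E) → X} (ha : IsCts a) (jE : E →+* Tk κ)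
    (r : (Tk κ ≃ₐ[Hk ℓ κ] Tk κ) →* (E ≃ₐ[K] E)) (hr : ∀ g z, jE (r g z) = g (jE z)) :
    IsCts fun g => a (r g) := by
  obtain ⟨T, hT⟩ := ha
  refine ⟨T.image jE, fun g g' h => hT _ _ fun x hx => jE.injective ?_⟩
  rw [hr, hr]
  exact h _ (Finset.mem_image_of_mem jE hx)

variable {f : K[X]} [hG : IsGood ℓ (f.map (algebraMap K E))]

/-- Equivariance of `ψ` (`coe_symU'`, `funField_hom_ext`). -/
theorem psi_symU (hi : IsEmb ℓ s i) (jE : E →+* Tk κ)
    (ψ : FunField ℓ (f.map (algebraMap K E)) →+* Tk κ) (hc : ∀ z, ψ (cO ℓ f E z) = jE z)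
    (hx : ψ (polyF X) ∈ (algebraMap (Hk ℓ κ) (Tk κ)).range)
    (hy : ψ yF ∈ (algebraMap (Hk ℓ κ) (Tk κ)).range)
    (r : (Tk κ ≃ₐ[Hk ℓ κ] Tk κ) →* (E ≃ₐ[K] E)) (hr : ∀ g z, jE (r g z) = g (jE z))
    (g : Tk κ ≃ₐ[Hk ℓ κ] Tk κ) (u : (FunField ℓ (f.map (algebraMap K E)))ˣ) :
    ψ (symU (gs f (r g)) u : (FunField ℓ (f.map (algebraMap K E)))ˣ) = g (ψ u) := by
  have hfix : ∀ z : Tk κ, z ∈ (algebraMap (Hk ℓ κ) (Tk κ)).range → g z = z := by
    rintro z ⟨w, rfl⟩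
    exact g.commutes w
  rw [coe_symU']
  have h1 : ψ.comp (funMap ℓ (((gs f (r g) : Sym (f.map (algebraMap K E))) : E ≃+* E) : E →+* E)
      (gs f (r g)).2) = ((g : Tk κ ≃+* Tk κ) : Tk κ →+* Tk κ).comp ψ := by
    apply funField_hom_ext
    · intro p
      have h2 : (ψ.comp polyF).comp (Polynomial.mapRingHom
          (((gs f (r g) : Sym (f.map (algebraMap K E))) : E ≃+* E) : E →+* E)) =
          ((g : Tk κ ≃+* Tk κ) : Tk κ →+* Tk κ).comp (ψ.comp polyF) := by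
        apply Polynomial.ringHom_ext
        · intro z
          rw [RingHom.comp_apply, coe_mapRingHom, map_C]
          have h3 : (ψ.comp polyF) (C ((((gs f (r g) : Sym (f.map (algebraMap K E))) : E ≃+* E) :
              E →+* E) z)) = jE (r g z) := hc _
          rw [h3, hr]
          exact congrArg g (hc z).symm
        · rw [RingHom.comp_apply, coe_mapRingHom, map_X]
          exact (hfix _ hx).symm
      rw [RingHom.comp_apply, funMap_polyF]
      exact RingHom.congr_fun h2 p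
    · rw [RingHom.comp_apply, funMap_yF]
      exact (hfix _ hy).symm
  exact RingHom.congr_fun h1 _

end

section

variable {F K E : Type} [Field F] [IsAlgClosed F] [Field K] [Algebra F[X] K] [Field E]
  [Algebra K E] [Algebra F E] [IsAlgClosure K E] {ℓ : ℕ} [NeZero ℓ] {s : F}
  {ι : Type} [Fintype ι] [LinearOrder ι] {W : ι → ℕ} {a : ι → F[X]} {ζ : F} {v : AbsoluteValue E ℝ}
  {f : K[X]} [hG : IsGood ℓ (f.map (algebraMap K E))]


end

end Pool.Agent.Lib.MP_89bcae_ag.Bra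

end
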