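import Mathlib
import Pool.Agent.Lib.MP_89bcae_ag.Tk.K000
import Pool.Agent.Lib.MP_89bcae_ag.Tk.K015
import Pool.Agent.Lib.MP_89bcae_ag.Tk.K020
import Pool.Agent.Lib.MP_89bcae_ag.Tk.K055

set_option linter.all false

section

attribute [local instance 100000] Pool.Agent.Lib.MP_89bcae_ag.Brt.tffFields
attribute [local instance 100000] Pool.Agent.Lib.MP_89bcae_ag.Wt.ifrNF Pool.Agent.Lib.MP_89bcae_ag.Wt.iddNF

namespace Pool.Agent.Lib.MP_89bcae_ag.Bra
end Pool.Agent.Lib.MP_89bcae_ag.Bra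
namespace Pool.Agent.Lib.MP_89bcae_ag.Wt
end Pool.Agent.Lib.MP_89bcae_ag.Wt
namespace Pool.Agent.Lib.MP_89bcae_ag.Wt.Lns
end Pool.Agent.Lib.MP_89bcae_ag.Wt.Lns

section

/-!
# Operations on cocycles and cochains
-/

open Polynomial IsDedekindDomain IsLocalRing

open scoped Classical

namespace Pool.Agent.Lib.MP_89bcae_ag.Bra

open Pool.Agent.Lib.MP_89bcae_ag.Wt Pool.Agent.Lib.MP_89bcae_ag.Wt.Lns

section External

variable {K S : Type} [Field K] [Field S] [Algebra K S]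
  {b b' : (S ≃ₐ[K] S) → (S ≃ₐ[K] S) → Sˣ}

lemma IsCoboundary.mul (h : IsCoboundary b) (h' : IsCoboundary b') :
    IsCoboundary fun g h => b g h * b' g h := by
  obtain ⟨a, ha, hab⟩ := h
  obtain ⟨a', ha', hab'⟩ := h'
  refine ⟨fun g => a g * a' g, ha.comp₂ ha' (fun u v => u * v), ?_⟩
  intro g j
  show ((b g j * b' g j : Sˣ) : S) * ((a (g * j) * a' (g * j) : Sˣ) : S) =
    g ((a j * a' j : Sˣ) : S) * ((a g * a' g : Sˣ) : S)
  rw [Units.val_mul, Units.val_mul, Units.val_mul, Units.val_mul, map_mul,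
    mul_mul_mul_comm, hab, hab', mul_mul_mul_comm]

lemma IsCoboundary.inv (h : IsCoboundary b) : IsCoboundary fun g h => (b g h)⁻¹ := by
  obtain ⟨a, ha, hab⟩ := h
  refine ⟨fun g => (a g)⁻¹, ha.comp (fun u => u⁻¹), ?_⟩
  intro g j
  show (((b g j)⁻¹ : Sˣ) : S) * (((a (g * j))⁻¹ : Sˣ) : S) =
    g (((a j)⁻¹ : Sˣ) : S) * (((a g)⁻¹ : Sˣ) : S)
  rw [Units.val_inv_eq_inv_val, Units.val_inv_eq_inv_val, Units.val_inv_eq_inv_val,
    Units.val_inv_eq_inv_val, map_inv₀, ← mul_inv, ← mul_inv, hab]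

lemma IsCoboundary.pow (h : IsCoboundary b) (n : ℕ) : IsCoboundary fun g h => b g h ^ n := by
  obtain ⟨a, ha, hab⟩ := h
  refine ⟨fun g => a g ^ n, ha.comp (fun u => u ^ n), ?_⟩
  intro g j
  show ((b g j ^ n : Sˣ) : S) * ((a (g * j) ^ n : Sˣ) : S) =
    g ((a j ^ n : Sˣ) : S) * ((a g ^ n : Sˣ) : S)
  rw [Units.val_pow_eq_pow_val, Units.val_pow_eq_pow_val, Units.val_pow_eq_pow_val,
    Units.val_pow_eq_pow_val, map_pow, ← mul_pow, ← mul_pow, hab]

lemma IsCoboundary.opsa_zpow (h : IsCoboundary b) (n : ℤ) :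
    IsCoboundary fun g h => b g h ^ n := by
  cases n with
  | ofNat n =>
    have h1 : (fun g h => b g h ^ (Int.ofNat n)) = fun g h => b g h ^ n := by
      funext g j
      exact zpow_natCast _ _
    rw [h1]
    exact h.pow n
  | negSucc n =>
    have h1 : (fun g h => b g h ^ (Int.negSucc n)) = fun g h => (b g h ^ (n + 1))⁻¹ := by
      funext g j
      exact zpow_negSucc _ _
    rw [h1]
    exact (h.pow (n + 1)).inv

/-- The coprime case (Bezout: `u m = 1 + v n` or `u m + ... `; use `IsCoboundary.pow`, `mul`, `inv`,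
`Nat.exists_mul_emod_eq_one_of_coprime` or `Int.gcd_eq_gcd_ab` with `zpow`). -/
lemma IsCoboundary.of_coprime {m n : ℕ} (hmn : m.Coprime n) (h : IsCoboundary fun g h => b g h ^ m)
    (h' : IsCoboundary fun g h => b g h ^ n) : IsCoboundary b := by
  obtain ⟨u, v, huv⟩ := Nat.isCoprime_iff_coprime.2 hmn
  have h1 := (h.opsa_zpow u).mul (h'.opsa_zpow v)
  have h2 : (fun g h => (b g h ^ m) ^ u * (b g h ^ n) ^ v) = b := by
    funext g j
    rw [← zpow_natCast, ← zpow_natCast, ← zpow_mul, ← zpow_mul, ← zpow_add, mul_comm (m : ℤ),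
      mul_comm (n : ℤ), huv, zpow_one]
  rw [h2] at h1
  exact h1

/-- PROOF: induction on `n`: `b (n+1) ^ (ℓ ^ (n+1)) = (b (n+1) ^ ℓ / b n) ^ (ℓ ^ n) * b n ^ (ℓ ^ n)`. -/
lemma IsTateSequence.pow_coboundary {ℓ : ℕ} {b : ℕ → (S ≃ₐ[K] S) → (S ≃ₐ[K] S) → Sˣ}
    (hb : IsTateSequence ℓ b) (n : ℕ) : IsCoboundary fun g h => b n g h ^ ℓ ^ n := by
  induction n with
  | zero =>
    have h1 : (fun g h => b 0 g h ^ ℓ ^ 0) = b 0 := by
      funext g j
      rw [pow_zero, pow_one]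
    rw [h1]
    exact hb.zero
  | succ n ih =>
    have h1 : (fun g h => b (n + 1) g h ^ ℓ ^ (n + 1)) =
        fun g h => (b (n + 1) g h ^ ℓ / b n g h) ^ ℓ ^ n * b n g h ^ ℓ ^ n := by
      funext g j
      rw [← mul_pow, div_mul_cancel, ← pow_mul, pow_succ']
    rw [h1]
    exact ((hb.pow n).pow (ℓ ^ n)).mul ih

end External

section Internal

variable {L Ω : Type} [Field L] [Field Ω] [Algebra L Ω] {ℓ : ℕ} {f : L[X]}
  [hG : IsGood ℓ (f.map (algebraMap L Ω))]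
  {b b' : (Ω ≃ₐ[L] Ω) → (Ω ≃ₐ[L] Ω) → (FunField ℓ (f.map (algebraMap L Ω)))ˣ}

lemma opsa_comp {L Ω : Type} [Field L] [Field Ω] [Algebra L Ω] {X Y : Type}
    {b : (Ω ≃ₐ[L] Ω) → (Ω ≃ₐ[L] Ω) → X} (h : ICts2 b) (φ : X → Y) :
    ICts2 fun g h => φ (b g h) := by
  obtain ⟨T, hT⟩ := h
  exact ⟨T, fun g g' j j' h1 h2 => congrArg φ (hT g g' j j' h1 h2)⟩

lemma opsa_comp₂ {L Ω : Type} [Field L] [Field Ω] [Algebra L Ω] {X Y Z : Type}
    {b : (Ω ≃ₐ[L] Ω) → (Ω ≃ₐ[L] Ω) → X} {b' : (Ω ≃ₐ[L] Ω) → (Ω ≃ₐ[L] Ω) → Y} (h : ICts2 b)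
    (h' : ICts2 b') (φ : X → Y → Z) : ICts2 fun g h => φ (b g h) (b' g h) := by
  obtain ⟨T, hT⟩ := h
  obtain ⟨T', hT'⟩ := h'
  refine ⟨T ∪ T', fun g g' j j' h1 h2 => ?_⟩
  show φ (b g j) (b' g j) = φ (b g' j') (b' g' j')
  rw [hT g g' j j' (fun x hx => h1 x (Finset.mem_union_left _ hx))
      (fun x hx => h2 x (Finset.mem_union_left _ hx)),
    hT' g g' j j' (fun x hx => h1 x (Finset.mem_union_right _ hx))
      (fun x hx => h2 x (Finset.mem_union_right _ hx))]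

lemma ICoc.mul (h : ICoc b) (h' : ICoc b') : ICoc fun g h => b g h * b' g h := by
  refine ⟨?_, opsa_comp₂ h.continuous h'.continuous (fun u v => u * v)⟩
  intro g j k
  show b g j * b' g j * (b (g * j) k * b' (g * j) k) =
    symU (gs f g) (b j k * b' j k) * (b g (j * k) * b' g (j * k))
  rw [map_mul, mul_mul_mul_comm, h.cocycle, h'.cocycle, mul_mul_mul_comm]

lemma ICoc.inv (h : ICoc b) : ICoc fun g h => (b g h)⁻¹ := by
  refine ⟨?_, opsa_comp h.continuous (fun u => u⁻¹)⟩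
  intro g j k
  show (b g j)⁻¹ * (b (g * j) k)⁻¹ = symU (gs f g) (b j k)⁻¹ * (b g (j * k))⁻¹
  rw [map_inv, ← mul_inv, ← mul_inv, h.cocycle]

lemma ICoc.pow (h : ICoc b) (n : ℕ) : ICoc fun g h => b g h ^ n := by
  refine ⟨?_, opsa_comp h.continuous (fun u => u ^ n)⟩
  intro g j k
  show b g j ^ n * b (g * j) k ^ n = symU (gs f g) (b j k ^ n) * b g (j * k) ^ n
  rw [map_pow, ← mul_pow, ← mul_pow, h.cocycle]


/-- Take the power of the cochain `a` of `IUnr`. -/
lemma IUnr.pow {F : Type} [Field F] [Algebra F[X] L] (h : IUnr F b) (n : ℕ) :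
    IUnr F fun g h => b g h ^ n := by
  intro O H T _ _ _ _ _ _ _ _ _ _ ψ h1 h2 h3
  obtain ⟨a, ha, hab⟩ := h O H T ψ h1 h2 h3
  refine ⟨fun g => a g ^ n, ha.comp (fun u => u ^ n), ?_⟩
  intro g j g' j' h4 h5
  show ψ ((b g' j' ^ n : (FunField ℓ (f.map (algebraMap L Ω)))ˣ) :
      FunField ℓ (f.map (algebraMap L Ω))) * ((a (g * j) ^ n : Tˣ) : T) =
    g ((a j ^ n : Tˣ) : T) * ((a g ^ n : Tˣ) : T)
  rw [Units.val_pow_eq_pow_val, Units.val_pow_eq_pow_val, Units.val_pow_eq_pow_val,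
    Units.val_pow_eq_pow_val, map_pow, map_pow, ← mul_pow, ← mul_pow, hab g j g' j' h4 h5]

variable {C C' : (Ω ≃ₐ[L] Ω) → (Pt ℓ (f.map (algebraMap L Ω)) →₀ ℤ)}

lemma IDiv.mul (h : IDiv b C) (h' : IDiv b' C') : IDiv (fun g h => b g h * b' g h) (C + C') := by
  refine ⟨h.continuous.comp₂ h'.continuous (fun u v => u + v), ?_⟩
  intro g j
  show Wt.div (b g j * b' g j) + (C (g * j) + C' (g * j)) =
    (C j + C' j).mapDomain (Pt.sym (gs f g)) + (C g + C' g)
  rw [Wt.div_mul, Finsupp.mapDomain_add, add_add_add_comm, h.div, h'.div, add_add_add_comm]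

lemma opsa_neg {A B : Type} (φ : A → B) (v : A →₀ ℤ) :
    (-v).mapDomain φ = -(v.mapDomain φ) :=
  map_neg (Finsupp.mapDomain.addMonoidHom (M := ℤ) φ) v

lemma opsa_sub {A B : Type} (φ : A → B) (v w : A →₀ ℤ) :
    (v - w).mapDomain φ = v.mapDomain φ - w.mapDomain φ :=
  map_sub (Finsupp.mapDomain.addMonoidHom (M := ℤ) φ) v w

lemma IDiv.inv (h : IDiv b C) : IDiv (fun g h => (b g h)⁻¹) (-C) := by
  refine ⟨h.continuous.comp (fun u => -u), ?_⟩
  intro g j
  show Wt.div (b g j)⁻¹ + -(C (g * j)) = (-(C j)).mapDomain (Pt.sym (gs f g)) + -(C g)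
  rw [div_inv, opsa_neg, ← neg_add, ← neg_add, h.div]

lemma IDiv.pow (h : IDiv b C) (n : ℕ) : IDiv (fun g h => b g h ^ n) (n • C) := by
  induction n with
  | zero =>
    refine ⟨⟨∅, fun g g' _ => ?_⟩, ?_⟩
    · rw [zero_nsmul]
      rfl
    · intro g j
      rw [zero_nsmul]
      show Wt.div (b g j ^ 0) + 0 = (0 : Pt ℓ (f.map (algebraMap L Ω)) →₀ ℤ).mapDomain
        (Pt.sym (gs f g)) + 0
      rw [pow_zero, Wt.div_one, Finsupp.mapDomain_zero]
  | succ n ih =>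
    have h1 : (fun g h => b g h ^ (n + 1)) = fun g h => b g h ^ n * b g h := by
      funext g j
      exact pow_succ _ _
    rw [h1, succ_nsmul]
    exact ih.mul h

/-- Adding a coboundary to `C` (`(gh) E = g (h E)`: `Pt.sym` of a product, `Finsupp.mapDomain_comp`; continuity:
`E.mapDomain (Pt.sym (gs f g))` depends only on the restriction of `g` to the coordinates of the points of the
support of `E`). -/
lemma IDiv.add_coboundary (h : IDiv b C) (E : Pt ℓ (f.map (algebraMap L Ω)) →₀ ℤ) :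
    IDiv b fun g => C g + (E.mapDomain (Pt.sym (gs f g)) - E) := by
  refine ⟨?_, ?_⟩
  · refine h.continuous.comp₂ (a' := fun g => E.mapDomain (Pt.sym (gs f g)) - E)
      ⟨E.support.image (fun P => P.x) ∪ E.support.image (fun P => P.y), ?_⟩ (fun u v => u + v)
    intro g g' hg
    have h1 : E.mapDomain (Pt.sym (gs f g)) = E.mapDomain (Pt.sym (gs f g')) := by
      refine Finsupp.mapDomain_congr ?_
      intro P hP
      apply Pt.ext
      · exact hg P.x (Finset.mem_union_left _ (Finset.mem_image.2 ⟨P, hP, rfl⟩))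
      · exact hg P.y (Finset.mem_union_right _ (Finset.mem_image.2 ⟨P, hP, rfl⟩))
    show E.mapDomain (Pt.sym (gs f g)) - E = E.mapDomain (Pt.sym (gs f g')) - E
    rw [h1]
  · intro g j
    have h1 : E.mapDomain (Pt.sym (gs f (g * j))) =
        (E.mapDomain (Pt.sym (gs f j))).mapDomain (Pt.sym (gs f g)) := by
      rw [← Finsupp.mapDomain_comp]
      rfl
    have h2 := h.div g j
    show Wt.div (b g j) + (C (g * j) + (E.mapDomain (Pt.sym (gs f (g * j))) - E)) =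
      (C j + (E.mapDomain (Pt.sym (gs f j)) - E)).mapDomain (Pt.sym (gs f g)) +
        (C g + (E.mapDomain (Pt.sym (gs f g)) - E))
    rw [h1, Finsupp.mapDomain_add, opsa_sub, ← add_assoc, h2]
    abel

/-- The class of `C` is a cocycle: apply `cl` to `IDiv.div`, `cl_div`, `symJ_cl`. -/
lemma IDiv.cl_cocycle (h : IDiv b C) (g g' : Ω ≃ₐ[L] Ω) :
    (cl (C (g * g')) : Jac ℓ (f.map (algebraMap L Ω))) = cl (C g) + symJ (gs f g) (cl (C g')) := by
  have h1 := congrArg cl (h.div g g')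
  rw [map_add, map_add, cl_div, zero_add] at h1
  rw [h1, symJ_cl, add_comm]

/-- Cocycles with values in a permutation module (values in an abelian group `A`, without support condition)
which are trivial at the fixed points are coboundaries. -/
theorem ops_shapiro {G X A : Type*} [Group G] [AddCommGroup A] (act : G → X → X)
    (h1 : ∀ x, act 1 x = x) (hm : ∀ g h x, act (g * h) x = act g (act h x)) (C : G → X → A)
    (hC : ∀ g g' x, C (g * g') x = C g' (act g⁻¹ x) + C g x)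
    (hfix : ∀ g x, act g x = x → C g x = 0) :
    ∃ E : X → A, (∀ g x, C g x = E (act g⁻¹ x) - E x) ∧ ∀ x, ∃ g, E x = -C g x := by
  let S : Setoid X :=
    { r := fun x y => ∃ g, act g x = y
      iseqv :=
        { refl := fun x => ⟨1, h1 x⟩
          symm := by
            rintro x y ⟨g, rfl⟩
            exact ⟨g⁻¹, by rw [← hm, inv_mul_cancel, h1]⟩
          trans := by
            rintro x y z ⟨g, rfl⟩ ⟨g', rfl⟩
            exact ⟨g' * g, hm g' g x⟩ } }
  have hs : ∀ x : X, ∃ g, act g (Quotient.mk S x).out = x := fun x => Quotient.mk_out (s := S) x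
  choose s hs using hs
  refine ⟨fun x => -C (s x) x, fun g x => ?_, fun x => ⟨s x, rfl⟩⟩
  have ho : (Quotient.mk S (act g⁻¹ x)).out = (Quotient.mk S x).out := by
    have h2 : Quotient.mk S (act g⁻¹ x) = Quotient.mk S x :=
      Quotient.sound (s := S) ⟨g, by rw [← hm, mul_inv_cancel, h1]⟩
    rw [h2]
  have hy := hs (act g⁻¹ x)
  have hx := hs x
  rw [ho] at hy
  have hinv : act (s x)⁻¹ x = (Quotient.mk S x).out := by
    have h2 := congrArg (act (s x)⁻¹) hx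
    rw [← hm, inv_mul_cancel, h1] at h2
    exact h2.symm
  have h3 : C ((s x)⁻¹ * (g * s (act g⁻¹ x))) (Quotient.mk S x).out = 0 := by
    apply hfix
    rw [hm, hm, hy, ← hm g, mul_inv_cancel, h1, hinv]
  have h4 := hC (s x) ((s x)⁻¹ * (g * s (act g⁻¹ x))) x
  rw [hinv, h3, zero_add, mul_inv_cancel_left, hC g (s (act g⁻¹ x)) x] at h4
  show C g x = -C (s (act g⁻¹ x)) (act g⁻¹ x) - -C (s x) x
  rw [← h4]
  abel

omit hG in
lemma ops_sym_mul (g g' : Ω ≃ₐ[L] Ω) (x : Pt ℓ (f.map (algebraMap L Ω))) :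
    Pt.sym (gs f (g * g')) x = Pt.sym (gs f g) (Pt.sym (gs f g') x) := rfl

omit hG in
lemma ops_sym_one (x : Pt ℓ (f.map (algebraMap L Ω))) :
    Pt.sym (gs f (1 : Ω ≃ₐ[L] Ω)) x = x := rfl

omit hG in
lemma ops_sym_inv (g : Ω ≃ₐ[L] Ω) (x : Pt ℓ (f.map (algebraMap L Ω))) :
    Pt.sym (gs f g) (Pt.sym (gs f g⁻¹) x) = x := by
  rw [← ops_sym_mul, mul_inv_cancel, ops_sym_one]

omit hG in
lemma ops_sym_inj (g : Ω ≃ₐ[L] Ω) :
    Function.Injective (Pt.sym (N := ℓ) (gs f g)) := by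
  intro x y hxy
  have h := congrArg (Pt.sym (gs f g⁻¹)) hxy
  rwa [← ops_sym_mul, ← ops_sym_mul, inv_mul_cancel, ops_sym_one, ops_sym_one] at h

omit hG in
lemma ops_mapDomain_apply (g : Ω ≃ₐ[L] Ω) (D : Pt ℓ (f.map (algebraMap L Ω)) →₀ ℤ)
    (x : Pt ℓ (f.map (algebraMap L Ω))) :
    D.mapDomain (Pt.sym (gs f g)) x = D (Pt.sym (gs f g⁻¹) x) := by
  conv_lhs => rw [← ops_sym_inv g x]
  exact Finsupp.mapDomain_apply (ops_sym_inj g) _ _

omit hG in
lemma ops_mapDomain_sub (g : Ω ≃ₐ[L] Ω) (D D' : Pt ℓ (f.map (algebraMap L Ω)) →₀ ℤ) :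
    (D - D').mapDomain (Pt.sym (gs f g)) =
      D.mapDomain (Pt.sym (gs f g)) - D'.mapDomain (Pt.sym (gs f g)) :=
  map_sub (Finsupp.mapDomain.addMonoidHom (Pt.sym (gs f g))) D D'

/-- The value at a fixed point. -/
lemma ops_fix [IsAlgClosure L Ω] (hC : IsCts C)
    (h : ∀ g g', C (g * g') = (C g').mapDomain (Pt.sym (gs f g)) + C g) (g : Ω ≃ₐ[L] Ω)
    (x : Pt ℓ (f.map (algebraMap L Ω))) (hx : Pt.sym (gs f g) x = x) : C g x = 0 := by
  by_contra hne
  have hx' : Pt.sym (gs f g⁻¹) x = x := by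
    conv_lhs => rw [← hx]
    rw [← ops_sym_mul, inv_mul_cancel, ops_sym_one]
  have h1 : C 1 x = 0 := by
    have h2 := DFunLike.congr_fun (h 1 1) x
    rw [Finsupp.add_apply, ops_mapDomain_apply, mul_one, inv_one, ops_sym_one] at h2
    omega
  have h2 : ∀ n : ℕ, C (g ^ n) x = n * C g x := by
    intro n
    induction n with
    | zero => rw [pow_zero, h1, Nat.cast_zero, zero_mul]
    | succ n ih =>
      have h3 := DFunLike.congr_fun (h g (g ^ n)) x
      rw [Finsupp.add_apply, ops_mapDomain_apply, hx', ih] at h3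
      rw [pow_succ', h3, Nat.cast_succ]
      ring
  have h3 : (Set.range fun n : ℕ => C (g ^ n) x).Finite := by
    refine (hC.finite_range.image fun D => D x).subset ?_
    rintro _ ⟨n, rfl⟩
    exact ⟨C (g ^ n), ⟨g ^ n, rfl⟩, rfl⟩
  refine Set.infinite_range_of_injective ?_ h3
  intro n m hnm
  have h4 : (C (g ^ n) x : ℤ) = C (g ^ m) x := hnm
  rw [h2, h2] at h4
  exact Nat.cast_injective (mul_right_cancel₀ hne h4)

/-- The first cohomology group of the divisors is trivial. PROOF. At a point `x`: `C (g g') x = C g' (g⁻¹ x) + C g x`.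
If `g x = x` then `C (g ^ n) x = n * C g x`; as `Ω` is algebraic over `L`, some `g ^ n`, `n > 0`, is the identity on the
finite set `T` of `IsCts` (the orbits of `Aut(Ω/L)` on `Ω` are finite), so `C (g ^ n) = C 1 = 0` and `C g x = 0`. In each
orbit of `Aut(Ω/L)` on the points choose a point `x0`, and for all `x` in the orbit an `s x` with `s x x0 = x`; let
`E x = - C (s x) x`. For `y = g⁻¹ x`: `g s y = s x η` with `η x0 = x0`, so `C (s y) y + C g x = C (g s y) x =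
C (s x η) x = C η x0 + C (s x) x = C (s x) x`, that is `C g x = E y - E x`. `E` has finite support because `C` has finitely
many values (`IsCts.finite_range`). -/
theorem h1div [IsAlgClosure L Ω] (hC : IsCts C)
    (h : ∀ g g', C (g * g') = (C g').mapDomain (Pt.sym (gs f g)) + C g) :
    ∃ E : Pt ℓ (f.map (algebraMap L Ω)) →₀ ℤ, ∀ g, C g = E.mapDomain (Pt.sym (gs f g)) - E := by
  obtain ⟨E, hE, hE'⟩ := ops_shapiro (fun (g : Ω ≃ₐ[L] Ω) (x : Pt ℓ (f.map (algebraMap L Ω))) =>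
    Pt.sym (gs f g) x) ops_sym_one ops_sym_mul (fun g x => C g x) (fun g g' x => by
      show C (g * g') x = C g' (Pt.sym (gs f g⁻¹) x) + C g x
      rw [h g g', Finsupp.add_apply, ops_mapDomain_apply]) (fun g x hx => ops_fix hC h g x hx)
  have hfin : (⋃ D ∈ Set.range C, (D.support : Set (Pt ℓ (f.map (algebraMap L Ω))))).Finite :=
    hC.finite_range.biUnion fun D _ => D.support.finite_toSet
  have hsub : Function.support E ⊆
      ⋃ D ∈ Set.range C, (D.support : Set (Pt ℓ (f.map (algebraMap L Ω)))) := by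
    intro x hx
    obtain ⟨g, hg⟩ := hE' x
    refine Set.mem_biUnion (Set.mem_range_self g) ?_
    rw [Finset.mem_coe, Finsupp.mem_support_iff]
    intro h0
    rw [h0, neg_zero] at hg
    exact hx hg
  refine ⟨Finsupp.ofSupportFinite E (hfin.subset hsub), fun g => ?_⟩
  ext x
  rw [Finsupp.sub_apply, ops_mapDomain_apply]
  exact hE g x

/-- If `b` is a coboundary then so is the class of `C`. PROOF: if `b g h * a (g h) = g (a h) * a g` then `C g - div (a g)`
is a cocycle (`div_mul`, `div_symU`), so `= g E - E` (`h1div`); `Q = cl E` (`cl_div`). -/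
theorem cl_of_icob [IsAlgClosure L Ω] (h : IDiv b C) (hb : ICob b) :
    ∃ Q : Jac ℓ (f.map (algebraMap L Ω)), ∀ g, cl (C g) = symJ (gs f g) Q - Q := by
  obtain ⟨a, ha, hab⟩ := hb
  obtain ⟨E, hE⟩ := h1div (C := fun g => C g - div (a g)) (h.continuous.comp₂ ha fun D u => D - div u)
    (fun g g' => by
      have h1 := h.div g g'
      have h2 := congrArg Wt.div (hab g g')
      rw [Wt.div_mul, Wt.div_mul, div_symU] at h2
      show C (g * g') - div (a (g * g')) = (C g' - div (a g')).mapDomain (Pt.sym (gs f g)) +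
        (C g - div (a g))
      rw [ops_mapDomain_sub]
      have h3 : C (g * g') = (C g').mapDomain (Pt.sym (gs f g)) + C g - div (b g g') := by
        rw [← h1]
        abel
      have h4 : div (a (g * g')) = (div (a g')).mapDomain (Pt.sym (gs f g)) + div (a g) -
          div (b g g') := by
        rw [← h2]
        abel
      rw [h3, h4]
      abel)
  refine ⟨cl E, fun g => ?_⟩
  have h1 : C g = (E.mapDomain (Pt.sym (gs f g)) - E) + div (a g) := by
    rw [← hE g]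
    show C g = C g - div (a g) + div (a g)
    abel
  rw [h1, map_add, cl_div, add_zero, map_sub, symJ_cl]


private lemma opsd_const {E : Type} [Field E] {N : ℕ} {f : E[X]} [hG : IsGood N f]
    (h : (FunField N f)ˣ) (hh : div h = 0) : ∃ c : Eˣ, h = cstU c := by
  have := hG.alg
  have hne : NeZero (N : E) := ⟨hG.ne_zero⟩
  obtain ⟨ζ, hζ⟩ := HasEnoughRootsOfUnity.exists_primitiveRoot E N
  have hdg : dg (div h) = 0 := by rw [hh, dg, Finsupp.sum_zero_index]
  have hord : ∀ P, ord P h = 0 := fun P => by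
    rw [← div_apply, hh]
    rfl
  obtain ⟨c, hc | ⟨w, hw, hwd⟩⟩ := exists_const_of_dg_eq_zero ζ hζ h hdg
  · have hc0 : c ≠ 0 := by
      rintro rfl
      exact h.ne_zero (by rw [hc, map_zero])
    exact ⟨Units.mk0 c hc0, Units.ext hc⟩
  · exfalso
    have hwn : ∀ P, 0 ≤ ord P w := by
      intro P
      by_cases hc0 : c = 0
      · have hwu : w = h := Units.ext (by rw [hw, hc0, map_zero, sub_zero])
        rw [hwu, hord]
      · have h5 := ord_add P h (cstU (Units.mk0 (-c) (neg_ne_zero.2 hc0))) w (by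
                rw [hw, cstU, Units.coe_map, Units.val_mk0, MonoidHom.coe_coe, map_neg,
                  sub_eq_add_neg])
        rw [hord, ord_cstU, min_self] at h5
        exact h5
    refine absurd hwd (not_lt.2 ?_)
    exact Finset.sum_nonneg fun P _ => hwn P

private lemma opsd_cstU_inj {E : Type} [Field E] {N : ℕ} {f : E[X]} [hG : IsGood N f]
    {c d : Eˣ} (h : (cstU c : (FunField N f)ˣ) = cstU d) : c = d := by
  have h1 : (cst (c : E) : FunField N f) = cst (d : E) := congrArg Units.val h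
  exact Units.ext ((cst : E →+* FunField N f).injective h1)

private lemma opsd_map {E : Type} [Field E] {f : E[X]}
    (p : E[X]) : ∃ T : Finset E, ∀ σ τ : Sym f,
      (∀ x ∈ T, (σ : E ≃+* E) x = (τ : E ≃+* E) x) →
      p.map ((σ : E ≃+* E) : E →+* E) = p.map ((τ : E ≃+* E) : E →+* E) := by
  refine ⟨p.support.image p.coeff, fun σ τ h => ?_⟩
  ext n
  rw [coeff_map, coeff_map]
  by_cases hn : n ∈ p.support
  · exact h _ (Finset.mem_image_of_mem _ hn)
  · rw [notMem_support_iff.mp hn, map_zero, map_zero]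

private lemma opsd_symE {E : Type} [Field E] {N : ℕ} {f : E[X]} [hG : IsGood N f]
    (a : NRing N f) (p : ℕ → E[X])
    (ha : a = ∑ i ∈ Finset.range N, ofPoly (p i) * yy ^ i) : ∃ T : Finset E, ∀ σ τ : Sym f,
      (∀ x ∈ T, (σ : E ≃+* E) x = (τ : E ≃+* E) x) → symE N σ a = symE N τ a := by
  choose T hT using fun i => opsd_map (f := f) (p i)
  refine ⟨(Finset.range N).biUnion T, fun σ τ h => ?_⟩
  rw [ha, map_sum, map_sum]
  refine Finset.sum_congr rfl fun i hi => ?_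
  rw [map_mul, map_mul, map_pow, map_pow, R07_symE_yy, R07_symE_yy, R07_symE_ofPoly,
    R07_symE_ofPoly, hT i σ τ fun x hx => h x (Finset.mem_biUnion.mpr ⟨i, hi, hx⟩)]

private lemma opsd_symU {E : Type} [Field E] {N : ℕ} {f : E[X]} [hG : IsGood N f]
    (u : (FunField N f)ˣ) : ∃ T : Finset E, ∀ σ τ : Sym f,
      (∀ x ∈ T, (σ : E ≃+* E) x = (τ : E ≃+* E) x) → symU σ u = symU τ u := by
  obtain ⟨a, b, p, q, hb0, hp, hq, hab⟩ := exists_quot (u : FunField N f)
  obtain ⟨T, hT⟩ := opsd_symE a p hp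
  obtain ⟨T', hT'⟩ := opsd_symE b q hq
  refine ⟨T ∪ T', fun σ τ h => ?_⟩
  have h1 := hT σ τ fun x hx => h x (Finset.mem_union_left _ hx)
  have h2 := hT' σ τ fun x hx => h x (Finset.mem_union_right _ hx)
  ext
  change autF (symE N σ) (u : FunField N f) = autF (symE N τ) (u : FunField N f)
  rw [← hab, map_div₀, map_div₀, autF_algebraMap, autF_algebraMap, autF_algebraMap,
    autF_algebraMap, h1, h2]

private lemma opsd_symE_mul {E : Type} [Field E] {N : ℕ} {f : E[X]} [hG : IsGood N f]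
    (σ τ : Sym f) (a : NRing N f) (p : ℕ → E[X])
    (ha : a = ∑ i ∈ Finset.range N, ofPoly (p i) * yy ^ i) :
    symE N (σ * τ) a = symE N σ (symE N τ a) := by
  rw [ha, map_sum, map_sum, map_sum]
  refine Finset.sum_congr rfl fun i _ => ?_
  rw [map_mul, map_mul, map_mul, map_pow, map_pow, map_pow, R07_symE_yy, R07_symE_yy,
    R07_symE_yy, R07_symE_ofPoly, R07_symE_ofPoly, R07_symE_ofPoly, Polynomial.map_map]
  rfl

private lemma opsd_symU_mul {E : Type} [Field E] {N : ℕ} {f : E[X]} [hG : IsGood N f]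
    (σ τ : Sym f) (u : (FunField N f)ˣ) : symU (σ * τ) u = symU σ (symU τ u) := by
  obtain ⟨a, b, p, q, hb0, hp, hq, hab⟩ := exists_quot (u : FunField N f)
  ext
  change autF (symE N (σ * τ)) (u : FunField N f) =
    autF (symE N σ) (autF (symE N τ) (u : FunField N f))
  rw [← hab, map_div₀, map_div₀, map_div₀, autF_algebraMap, autF_algebraMap, autF_algebraMap,
    autF_algebraMap, autF_algebraMap, autF_algebraMap, opsd_symE_mul σ τ a p hp,
    opsd_symE_mul σ τ b q hq]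

private lemma opsd_stable {L Ω : Type} [Field L] [Field Ω] [Algebra L Ω] [IsAlgClosure L Ω]
    (T : Finset Ω) : ∃ T' : Finset Ω, T ⊆ T' ∧ ∀ g : Ω ≃ₐ[L] Ω, ∀ x ∈ T', g x ∈ T' := by
  have hint : ∀ x : Ω, IsIntegral L x := fun x =>
    (IsAlgClosure.isAlgebraic.isAlgebraic x).isIntegral
  refine ⟨T.biUnion fun x => ((minpoly L x).aroots Ω).toFinset, fun x hx => ?_, fun g x hx => ?_⟩
  · refine Finset.mem_biUnion.mpr ⟨x, hx, ?_⟩
    rw [Multiset.mem_toFinset, mem_aroots]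
    exact ⟨minpoly.ne_zero (hint x), minpoly.aeval L x⟩
  · obtain ⟨y, hy, hxy⟩ := Finset.mem_biUnion.mp hx
    refine Finset.mem_biUnion.mpr ⟨y, hy, ?_⟩
    rw [Multiset.mem_toFinset, mem_aroots] at hxy ⊢
    refine ⟨hxy.1, ?_⟩
    have h1 : aeval (g x) (minpoly L y) = g (aeval x (minpoly L y)) :=
      aeval_algHom_apply (g : Ω →ₐ[L] Ω) x _
    rw [h1, hxy.2, map_zero]

private lemma opsd_cocycle {G : Type} [CommGroup G] {b1 b2 b3 b4 A B C D E F c1 c2 c3 c4 : G}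
    (H1 : b1 * B = c1 * (D * A)) (H2 : b2 * C = c2 * (E * B)) (H3 : b3 * F = c3 * (E * D))
    (H4 : b4 * C = c4 * (F * A)) (H5 : b1 * b2 = b3 * b4) : c1 * c2 = c3 * c4 := by
  refine mul_right_cancel (b := D * A * E * B * F) ?_
  calc c1 * c2 * (D * A * E * B * F) = (c1 * (D * A)) * (c2 * (E * B)) * F := by ac_rfl
    _ = (b1 * B) * (b2 * C) * F := by rw [H1, H2]
    _ = (b1 * b2) * (B * C * F) := by ac_rfl
    _ = (b3 * b4) * (B * C * F) := by rw [H5]
    _ = (b3 * F) * (b4 * C) * B := by ac_rfl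
    _ = (c3 * (E * D)) * (c4 * (F * A)) * B := by rw [H3, H4]
    _ = c3 * c4 * (D * A * E * B * F) := by ac_rfl

/-- If the class of `C` is trivial then so is the class of `b` up to a multiple prime to `ℓ`. PROOF. Let `cl E = Q`
(`cl_surjective`). By `IDiv.add_coboundary` (with `-E`) we may suppose `cl (C g) = 0` for all `g`; let `C g = div (μ (C g))`,
where `μ D` is a function chosen for all divisors `D` of class `0` (`exists_div_of_cl_eq_zero`), so `g ↦ μ (C g)` is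
continuous. `β g h = b g h * μ (gh) / (g (μ h) * μ g)` has divisor `0`, so it is a constant (`div h = 0` implies
`h = cstU c`: see `r17_cl_fixed` in `Wt/W17.lean` and `exists_const_of_dg_eq_zero` in `Wt/W13.lean`), `β` is a continuous cocycle
with values in `Ωˣ` (`cstU` is injective, `symU_cstU`); apply `hBr` and multiply by the cochain `μ ^ m`. -/
theorem icob_of_cl_strong [IsAlgClosure L Ω] (hBr : BrTriv ℓ L Ω) (hb : ICoc b) (h : IDiv b C)
    (Q : Jac ℓ (f.map (algebraMap L Ω))) (hQ : ∀ g, cl (C g) = symJ (gs f g) Q - Q) :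
    ∃ (m : ℕ) (E : Pt ℓ (f.map (algebraMap L Ω)) →₀ ℤ)
      (a : (Ω ≃ₐ[L] Ω) → (FunField ℓ (f.map (algebraMap L Ω)))ˣ), m.Coprime ℓ ∧ cl E = Q ∧ IsCts a ∧
      (∀ g h, b g h ^ m * a (g * h) = symU (gs f g) (a h) * a g) ∧
      ∀ g, div (a g) = m • (C g - (E.mapDomain (Pt.sym (gs f g)) - E)) := by
  obtain ⟨E, hE⟩ := cl_surjective Q
  have h' := h.add_coboundary (-E)
  have hcl : ∀ g, (cl (C g + ((-E).mapDomain (Pt.sym (gs f g)) - (-E))) :
      Jac ℓ (f.map (algebraMap L Ω))) = 0 := by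
    intro g
    rw [map_add, map_sub, ← symJ_cl, hQ g, map_neg, hE, map_neg]
    abel
  have hμ : ∀ D : Pt ℓ (f.map (algebraMap L Ω)) →₀ ℤ,
      ∃ u : (FunField ℓ (f.map (algebraMap L Ω)))ˣ, cl D = 0 → div u = D := by
    intro D
    by_cases hD : cl D = 0
    · obtain ⟨u, hu⟩ := exists_div_of_cl_eq_zero D hD
      exact ⟨u, fun _ => hu⟩
    · exact ⟨1, fun h => absurd h hD⟩
  choose μ hμ using hμ
  obtain ⟨a, hadef⟩ : ∃ a : (Ω ≃ₐ[L] Ω) → (FunField ℓ (f.map (algebraMap L Ω)))ˣ,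
      a = fun g => μ (C g + ((-E).mapDomain (Pt.sym (gs f g)) - (-E))) := ⟨_, rfl⟩
  have ha : IsCts a := by
    rw [hadef]
    exact h'.continuous.comp μ
  have hda : ∀ g, div (a g) = C g + ((-E).mapDomain (Pt.sym (gs f g)) - (-E)) := by
    intro g
    rw [hadef]
    exact hμ _ (hcl g)
  have hc : ∀ g h, ∃ c : Ωˣ, b g h * a (g * h) = cstU c * (symU (gs f g) (a h) * a g) := by
    intro g h
    obtain ⟨c, hc⟩ := opsd_const (b g h * a (g * h) * (symU (gs f g) (a h) * a g)⁻¹) (by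
      rw [Wt.div_mul, Wt.div_inv, Wt.div_mul, Wt.div_mul, div_symU, hda h, hda g]
      have e1 := h'.div g h
      rw [← hda (g * h)] at e1
      rw [e1]
      exact add_neg_cancel _)
    exact ⟨c, by rw [← hc, inv_mul_cancel_right]⟩
  choose c hc using hc
  have hcoc : IsCocycle c := by
    refine ⟨fun g h j => ?_, ?_⟩
    · have e3 := congrArg (symU (gs f g)) (hc h j)
      rw [map_mul, map_mul, map_mul, symU_cstU] at e3
      have e2 := hc (g * h) j
      have hgh : symU (gs f (g * h)) (a j) = symU (gs f g) (symU (gs f h) (a j)) := by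
        rw [map_mul, opsd_symU_mul]
      rw [hgh, mul_assoc g h j] at e2
      have e4 := hc g (h * j)
      have key := opsd_cocycle (hc g h) e2 e3 e4 (hb.cocycle g h j)
      rw [← map_mul, ← map_mul] at key
      have key2 := opsd_cstU_inj key
      exact congrArg Units.val key2
    · obtain ⟨Tb, hTb⟩ := hb.continuous
      obtain ⟨Ta, hTa⟩ := ha
      obtain ⟨Ta', hsub, hst⟩ := opsd_stable (L := L) Ta
      have hfin : (Set.range a).Finite := IsCts.finite_range ⟨Ta, hTa⟩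
      choose Tu hTu using fun u : (FunField ℓ (f.map (algebraMap L Ω)))ˣ =>
        opsd_symU u
      refine ⟨Tb ∪ Ta' ∪ hfin.toFinset.biUnion Tu, fun g g' h h' hg hh => ?_⟩
      have e1 : b g h = b g' h' := hTb _ _ _ _
        (fun x hx => hg x (Finset.mem_union_left _ (Finset.mem_union_left _ hx)))
        (fun x hx => hh x (Finset.mem_union_left _ (Finset.mem_union_left _ hx)))
      have hg2 : ∀ x ∈ Ta', g x = g' x := fun x hx =>
        hg x (Finset.mem_union_left _ (Finset.mem_union_right _ hx))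
      have hh2 : ∀ x ∈ Ta', h x = h' x := fun x hx =>
        hh x (Finset.mem_union_left _ (Finset.mem_union_right _ hx))
      have e2 : a (g * h) = a (g' * h') := hTa _ _ fun x hx => by
        rw [AlgEquiv.mul_apply, AlgEquiv.mul_apply, hh2 x (hsub hx)]
        exact hg2 _ (hst h' x (hsub hx))
      have e3 : a g = a g' := hTa _ _ fun x hx => hg2 x (hsub hx)
      have e4 : a h = a h' := hTa _ _ fun x hx => hh2 x (hsub hx)
      have e5 : symU (gs f g) (a h) = symU (gs f g') (a h) := by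
        refine hTu (a h) _ _ fun x hx => hg x (Finset.mem_union_right _ ?_)
        exact Finset.mem_biUnion.mpr ⟨a h, hfin.mem_toFinset.mpr ⟨h, rfl⟩, hx⟩
      have h1 := hc g h
      have h2 := hc g' h'
      rw [e1, e2, e3, e5, e4] at h1
      exact opsd_cstU_inj (mul_right_cancel (h1.symm.trans h2))
  obtain ⟨m, hm, e, he, hce⟩ := hBr c hcoc
  have hdp : ∀ u : (FunField ℓ (f.map (algebraMap L Ω)))ˣ, div (u ^ m) = m • div u := by
    intro u
    ext P
    rw [Wt.div_apply, ord_pow, Finsupp.smul_apply, Wt.div_apply, nsmul_eq_mul]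
  refine ⟨m, E, fun g => cstU (e g) * a g ^ m, hm, hE, he.comp₂ ha fun x y => cstU x * y ^ m, ?_,
    fun g => by
      rw [Wt.div_mul, div_cstU, zero_add, hdp, hda g, opsa_neg]
      congr 1
      abel⟩
  intro g h
  have h1 : c g h ^ m * e (g * h) = Units.map ((gs f g : Ω ≃+* Ω) : Ω →* Ω) (e h) * e g :=
    Units.ext (hce g h)
  have h2 : (cstU (c g h) : (FunField ℓ (f.map (algebraMap L Ω)))ˣ) ^ m * cstU (e (g * h)) =
      symU (gs f g) (cstU (e h)) * cstU (e g) := by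
    rw [← map_pow, ← map_mul, h1, map_mul, symU_cstU]
  rw [map_mul, map_pow]
  calc b g h ^ m * (cstU (e (g * h)) * a (g * h) ^ m)
      = (b g h * a (g * h)) ^ m * cstU (e (g * h)) := by
        rw [mul_pow]
        ac_rfl
    _ = (cstU (c g h) ^ m * cstU (e (g * h))) * (symU (gs f g) (a h) * a g) ^ m := by
        rw [hc g h, mul_pow]
        ac_rfl
    _ = symU (gs f g) (cstU (e h)) * symU (gs f g) (a h) ^ m * (cstU (e g) * a g ^ m) := by
        rw [h2, mul_pow]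
        ac_rfl

theorem icob_of_cl [IsAlgClosure L Ω] (hBr : BrTriv ℓ L Ω) (hb : ICoc b) (h : IDiv b C)
    (Q : Jac ℓ (f.map (algebraMap L Ω))) (hQ : ∀ g, cl (C g) = symJ (gs f g) Q - Q) :
    ∃ m : ℕ, m.Coprime ℓ ∧ ICob fun g h => b g h ^ m := by
  obtain ⟨m, E, a, hm, -, ha, hab, -⟩ := icob_of_cl_strong hBr hb h Q hQ
  exact ⟨m, hm, a, ha, hab⟩

end Internal

section Inflation

variable {K S : Type} [Field K] [Field S] [Algebra K S]
  {L Ω : Type} [Field L] [Field Ω] [Algebra L Ω] {ℓ : ℕ} {f : L[X]}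
  {F : Type} [Field F] [Algebra F K] [Algebra F[X] L]
  [IsAlgClosed F] [IsAlgClosure K S] [IsFractionRing F[X] L] [IsAlgClosure L Ω]
  [hG : IsGood ℓ (f.map (algebraMap L Ω))] {t x y : K}
  {Φ : FunField ℓ (f.map (algebraMap L Ω)) →+* S}


end Inflation

end Pool.Agent.Lib.MP_89bcae_ag.Bra

end

section

/-!
# The rotation
-/

open Polynomial IsDedekindDomain IsLocalRing

open scoped Classical

namespace Pool.Agent.Lib.MP_89bcae_ag.Bra

open Pool.Agent.Lib.MP_89bcae_ag.Wt Pool.Agent.Lib.MP_89bcae_ag.Wt.Lns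

section

variable {L Ω : Type} [Field L] [Field Ω] [Algebra L Ω] {ℓ : ℕ} {f : L[X]}
  [hG : IsGood ℓ (f.map (algebraMap L Ω))]
  {b b' : (Ω ≃ₐ[L] Ω) → (Ω ≃ₐ[L] Ω) → (FunField ℓ (f.map (algebraMap L Ω)))ˣ}
  {C : (Ω ≃ₐ[L] Ω) → (Pt ℓ (f.map (algebraMap L Ω)) →₀ ℤ)}

lemma IUnr.mul {F : Type} [Field F] [Algebra F[X] L] (h : IUnr F b) (h' : IUnr F b') :
    IUnr F fun g h => b g h * b' g h := by
  intro O H T _ _ _ _ _ _ _ _ _ _ ψ h1 h2 h3
  obtain ⟨a, ha, hab⟩ := h O H T ψ h1 h2 h3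
  obtain ⟨a', ha', hab'⟩ := h' O H T ψ h1 h2 h3
  refine ⟨fun g => a g * a' g, ha.comp₂ ha' (fun u v => u * v), ?_⟩
  intro g j g' j' h4 h5
  show ψ ((b g' j' * b' g' j' : (FunField ℓ (f.map (algebraMap L Ω)))ˣ) :
      FunField ℓ (f.map (algebraMap L Ω))) * ((a (g * j) * a' (g * j) : Tˣ) : T) =
    g ((a j * a' j : Tˣ) : T) * ((a g * a' g : Tˣ) : T)
  rw [Units.val_mul, Units.val_mul, Units.val_mul, Units.val_mul, map_mul, map_mul,
    mul_mul_mul_comm, hab g j g' j' h4 h5, hab' g j g' j' h4 h5, mul_mul_mul_comm]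

lemma IUnr.inv {F : Type} [Field F] [Algebra F[X] L] (h : IUnr F b) :
    IUnr F fun g h => (b g h)⁻¹ := by
  intro O H T _ _ _ _ _ _ _ _ _ _ ψ h1 h2 h3
  obtain ⟨a, ha, hab⟩ := h O H T ψ h1 h2 h3
  refine ⟨fun g => (a g)⁻¹, ha.comp (fun u => u⁻¹), ?_⟩
  intro g j g' j' h4 h5
  show ψ (((b g' j')⁻¹ : (FunField ℓ (f.map (algebraMap L Ω)))ˣ) :
      FunField ℓ (f.map (algebraMap L Ω))) * (((a (g * j))⁻¹ : Tˣ) : T) =
    g (((a j)⁻¹ : Tˣ) : T) * (((a g)⁻¹ : Tˣ) : T)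
  rw [Units.val_inv_eq_inv_val, Units.val_inv_eq_inv_val, Units.val_inv_eq_inv_val,
    Units.val_inv_eq_inv_val, map_inv₀, map_inv₀, ← mul_inv, ← mul_inv, hab g j g' j' h4 h5]

/-- The rotation and the action of `Aut(Ω/L)`, `ζ` in `L` (`symU_rotU`). -/
lemma ICoc.rot (h : ICoc b) {ζ : L} (hz : (algebraMap L Ω ζ) ^ ℓ = 1) (h0 : algebraMap L Ω ζ ≠ 0) :
    ICoc fun g g' => (rotU (algebraMap L Ω ζ) hz h0).symm (b g g') := by
  refine ⟨?_, opsa_comp h.continuous (fun u => (rotU (algebraMap L Ω ζ) hz h0).symm u)⟩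
  intro g j k
  show (rotU (algebraMap L Ω ζ) hz h0).symm (b g j) *
      (rotU (algebraMap L Ω ζ) hz h0).symm (b (g * j) k) =
    symU (gs f g) ((rotU (algebraMap L Ω ζ) hz h0).symm (b j k)) *
      (rotU (algebraMap L Ω ζ) hz h0).symm (b g (j * k))
  have hσ : ((gs f g : Sym (f.map (algebraMap L Ω))) : Ω ≃+* Ω) (algebraMap L Ω ζ) =
      algebraMap L Ω ζ := g.commutes ζ
  have h1 : symU (gs f g) ((rotU (algebraMap L Ω ζ) hz h0).symm (b j k)) =
      (rotU (algebraMap L Ω ζ) hz h0).symm (symU (gs f g) (b j k)) := by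
    rw [MulEquiv.eq_symm_apply, ← symU_rotU (gs f g) (algebraMap L Ω ζ) hz h0 hσ,
      MulEquiv.apply_symm_apply]
  rw [h1, ← map_mul, ← map_mul, h.cocycle]

private lemma vj_autF_rotE {A : Type} [Field A] {N : ℕ} {p : A[X]} [IsGood N p] (ζ : A)
    (hζ : ζ ^ N = 1) (h0 : ζ ≠ 0) (a : FunField N p) :
    autF (rotE ζ hζ h0) a = rotF ζ hζ a := by
  obtain ⟨x, y, _, hab⟩ := IsFractionRing.div_surjective (A := NRing N p) a
  rw [← hab, map_div₀, map_div₀, autF_algebraMap, autF_algebraMap]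
  rfl

private lemma vj_funMap_rotF {A B : Type} [Field A] [Field B] {N : ℕ} {p : A[X]} {q : B[X]}
    (σ : A →+* B) (h : p.map σ = q) (ζ : A) (hζ : ζ ^ N = 1)
    (hζ' : (σ ζ) ^ N = 1) (a : FunField N p) :
    funMap N σ h (rotF ζ hζ a) = rotF (σ ζ) hζ' (funMap N σ h a) := by
  have h1 : (funMap N σ h : FunField N p →+* FunField N q).comp (rotF ζ hζ) =
      (rotF (σ ζ) hζ').comp (funMap N σ h) := by
    refine funField_hom_ext (fun p => ?_) ?_
    · rw [RingHom.comp_apply, RingHom.comp_apply, rotF_polyF, funMap_polyF, rotF_polyF]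
    · rw [RingHom.comp_apply, RingHom.comp_apply, rotF_yF, map_mul, funMap_polyF, funMap_yF,
        rotF_yF, Polynomial.map_C]
  exact RingHom.congr_fun h1 a

private lemma vj_symm {ζ : L} (hz : (algebraMap L Ω ζ) ^ ℓ = 1) (h0 : algebraMap L Ω ζ ≠ 0)
    (hz' : (algebraMap L Ω ζ⁻¹) ^ ℓ = 1) (u : (FunField ℓ (f.map (algebraMap L Ω)))ˣ) :
    (((rotU (algebraMap L Ω ζ) hz h0).symm u : (FunField ℓ (f.map (algebraMap L Ω)))ˣ) :
      FunField ℓ (f.map (algebraMap L Ω))) = rotF (algebraMap L Ω ζ⁻¹) hz' u := by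
  obtain ⟨v, rfl⟩ := (rotU (algebraMap L Ω ζ) hz h0).surjective u
  rw [MulEquiv.symm_apply_apply]
  have h1 : ((rotU (algebraMap L Ω ζ) hz h0 v : (FunField ℓ (f.map (algebraMap L Ω)))ˣ) :
      FunField ℓ (f.map (algebraMap L Ω))) = autF (rotE (algebraMap L Ω ζ) hz h0)
        (v : FunField ℓ (f.map (algebraMap L Ω))) := rfl
  have h2 : algebraMap L Ω ζ⁻¹ * algebraMap L Ω ζ = 1 := by
    rw [map_inv₀, inv_mul_cancel₀ h0]
  rw [h1, vj_autF_rotE]
  exact (RingHom.congr_fun (R07_rotF_comp (algebraMap L Ω ζ⁻¹) (algebraMap L Ω ζ) hz' hz h2)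
    (v : FunField ℓ (f.map (algebraMap L Ω)))).symm

/-- Apply `IUnr` to `ψ.comp (rotF ζ⁻¹)`; `rotF ζ⁻¹ (toO r) = toO (rotF ζ⁻¹ r)`, and for the third condition
`toO r = rotF ζ⁻¹ (toO (rotF ζ r))`. -/
lemma IUnr.rot {F : Type} [Field F] [Algebra F[X] L] (h : IUnr F b) {ζ : L}
    (hz : (algebraMap L Ω ζ) ^ ℓ = 1) (h0 : algebraMap L Ω ζ ≠ 0) :
    IUnr F fun g g' => (rotU (algebraMap L Ω ζ) hz h0).symm (b g g') := by
  have hz0 : ζ ^ ℓ = 1 := by
    apply (algebraMap L Ω).injective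
    rw [map_pow, hz, map_one]
  have hζ0 : ζ ≠ 0 := fun h => h0 (by rw [h, map_zero])
  have hz1 : (ζ⁻¹) ^ ℓ = 1 := by rw [inv_pow, hz0, inv_one]
  have hz' : (algebraMap L Ω ζ⁻¹) ^ ℓ = 1 := by rw [← map_pow, hz1, map_one]
  have key : ∀ r : FunField ℓ f, rotF (algebraMap L Ω ζ⁻¹) hz' (toO ℓ f Ω r) =
      toO ℓ f Ω (rotF ζ⁻¹ hz1 r) := fun r =>
    (vj_funMap_rotF (algebraMap L Ω) rfl ζ⁻¹ hz1 hz' r).symm
  have key2 : ∀ z : Ω, rotF (algebraMap L Ω ζ⁻¹) hz' (cO ℓ f Ω z) = cO ℓ f Ω z := fun z =>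
    rotF_polyF _ _ _
  intro O H T _ _ _ _ _ _ _ _ _ _ ψ h1 h2 h3
  obtain ⟨a, ha, hab⟩ := h O H T (ψ.comp (rotF (algebraMap L Ω ζ⁻¹) hz'))
    (fun r => by
      rw [RingHom.comp_apply, key]
      exact h1 _)
    (fun c => by
      rw [RingHom.comp_apply, key2]
      exact h2 c)
    (by
      obtain ⟨r, hr⟩ := h3
      refine ⟨rotF ζ hz0 r, ?_⟩
      rw [RingHom.comp_apply, key]
      have h4 : rotF ζ⁻¹ hz1 (rotF ζ hz0 r) = r :=
        RingHom.congr_fun (R07_rotF_comp ζ⁻¹ ζ hz1 hz0 (inv_mul_cancel₀ hζ0)) r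
      rw [h4]
      exact hr)
  refine ⟨a, ha, ?_⟩
  intro g j g' j' h4 h5
  have h6 := hab g j g' j'
    (fun z => by
      rw [RingHom.comp_apply, RingHom.comp_apply, key2, key2]
      exact h4 z)
    (fun z => by
      rw [RingHom.comp_apply, RingHom.comp_apply, key2, key2]
      exact h5 z)
  rw [RingHom.comp_apply, ← vj_symm hz h0 hz'] at h6
  exact h6

/-- `div_rotU_symm`. -/
lemma IDiv.rot (h : IDiv b C) {ζ : L} (hz : (algebraMap L Ω ζ) ^ ℓ = 1)
    (h0 : algebraMap L Ω ζ ≠ 0) :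
    IDiv (fun g g' => (rotU (algebraMap L Ω ζ) hz h0).symm (b g g'))
      fun g => (C g).mapDomain (Pt.rot (algebraMap L Ω ζ) hz) := by
  refine ⟨h.continuous.comp (fun D => D.mapDomain (Pt.rot (algebraMap L Ω ζ) hz)), ?_⟩
  intro g j
  show Wt.div ((rotU (algebraMap L Ω ζ) hz h0).symm (b g j)) +
      (C (g * j)).mapDomain (Pt.rot (algebraMap L Ω ζ) hz) =
    ((C j).mapDomain (Pt.rot (algebraMap L Ω ζ) hz)).mapDomain (Pt.sym (gs f g)) +
      (C g).mapDomain (Pt.rot (algebraMap L Ω ζ) hz)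
  have hσ : ((gs f g : Sym (f.map (algebraMap L Ω))) : Ω ≃+* Ω) (algebraMap L Ω ζ) =
      algebraMap L Ω ζ := g.commutes ζ
  have h1 : ((C j).mapDomain (Pt.rot (algebraMap L Ω ζ) hz)).mapDomain (Pt.sym (gs f g)) =
      ((C j).mapDomain (Pt.sym (gs f g))).mapDomain (Pt.rot (algebraMap L Ω ζ) hz) := by
    rw [← Finsupp.mapDomain_comp, ← Finsupp.mapDomain_comp]
    congr 1
    funext P
    apply Pt.ext
    · rfl
    · show ((gs f g : Sym (f.map (algebraMap L Ω))) : Ω ≃+* Ω) (algebraMap L Ω ζ * P.y) =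
        algebraMap L Ω ζ * ((gs f g : Sym (f.map (algebraMap L Ω))) : Ω ≃+* Ω) P.y
      rw [map_mul, hσ]
  rw [Wt.div_rotU_symm, h1, ← Finsupp.mapDomain_add, h.div, Finsupp.mapDomain_add]

end

section

variable {L Ω K E : Type} [Field L] [Field Ω] [Algebra L Ω] [Field K] [Algebra L K] [Field E]
  [Algebra K E] [Algebra L E] [IsScalarTower L K E] {ℓ : ℕ} {f : L[X]}
  (j : Ω →ₐ[L] E) (ρ : (E ≃ₐ[K] E) →* (Ω ≃ₐ[L] Ω)) [hG : IsGood ℓ (f.map (algebraMap L Ω))]
  [hG' : IsGood ℓ ((f.map (algebraMap L K)).map (algebraMap K E))]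
  {C : (Ω ≃ₐ[L] Ω) → (Pt ℓ (f.map (algebraMap L Ω)) →₀ ℤ)}

lemma cl_Cv (g : E ≃ₐ[K] E) : (cl (Cv (K := K) j ρ C g) :
    Jac ℓ ((f.map (algebraMap L K)).map (algebraMap K E))) =
      jacMap ℓ (j : Ω →+* E) (map_jj f K j) (cl (C (ρ g))) :=
  (jacMap_cl _ _ _).symm

end

end Pool.Agent.Lib.MP_89bcae_ag.Bra

end

section

/-!
# The classes of ideals of the affine coordinate ring of the generic fibre
-/

open Polynomial IsDedekindDomain IsLocalRing FractionalIdeal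

open scoped Classical nonZeroDivisors

namespace Pool.Agent.Lib.MP_89bcae_ag.Brt

open Pool.Agent.Lib.MP_89bcae_ag.Wt Pool.Agent.Lib.MP_89bcae_ag.Wt.Lns Pool.Agent.Lib.MP_89bcae_ag.Bra

section

variable {K : Type} [Field K]
  {L Ω : Type} [Field L] [Field Ω] [Algebra L Ω] {ℓ : ℕ} {f : L[X]} [IsAlgClosure L Ω]
  [hG : IsGood ℓ (f.map (algebraMap L Ω))] {κ : K →+* FunField ℓ (f.map (algebraMap L Ω))}
  {A : Type} [CommRing A] [IsDomain A] [IsDedekindDomain A] [Algebra A K] [IsFractionRing A K]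

/-- The embedding of the units. -/
noncomputable abbrev kU (κ : K →+* FunField ℓ (f.map (algebraMap L Ω))) :
    Kˣ →* (FunField ℓ (f.map (algebraMap L Ω)))ˣ := Units.map (κ : K →* _)

/-- The prime below a point and the ramification index. -/
lemma pic_below (θ : A →+* NRing ℓ (f.map (algebraMap L Ω)))
    (hθ : ∀ a, algebraMap (NRing ℓ (f.map (algebraMap L Ω))) (FunField ℓ (f.map (algebraMap L Ω)))
      (θ a) = κ (algebraMap A K a))
    (hint : ∀ b, θ.IsIntegralElem b) (P : Pt ℓ (f.map (algebraMap L Ω))) :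
    ∃ (v : HeightOneSpectrum A) (e : ℤ), v.asIdeal = P.ideal.comap θ ∧
      ∀ z : Kˣ, ord P (kU κ z) = e * count K v (spanSingleton A⁰ (z : K)) := by
  have hp := P.ideal_isMaximal.isPrime
  let v : HeightOneSpectrum A := ⟨P.ideal.comap θ, Ideal.comap_isPrime θ P.ideal,
    comap_ne_bot θ hint P⟩
  have hu : ∀ (a : A) (u : Kˣ), (u : K) = algebraMap A K a →
      ((kU κ u : (FunField ℓ (f.map (algebraMap L Ω)))ˣ) : FunField ℓ (f.map (algebraMap L Ω))) =
        algebraMap (NRing ℓ (f.map (algebraMap L Ω))) (FunField ℓ (f.map (algebraMap L Ω))) (θ a) := by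
    intro a u h
    rw [hθ, ← h]
    rfl
  obtain ⟨e, he⟩ := pic_ord v (fun z => ord P (kU κ z)) (fun a b => by rw [map_mul, ord_mul])
    (fun a u h ha => by
      have h1 := ord_nonneg P (θ a) (kU κ u) (hu a u h)
      have h2 := (ord_pos_iff P (θ a) (kU κ u) (hu a u h)).not
      have h3 : ¬ 0 < ord P (kU κ u) := h2.2 ha
      exact le_antisymm (not_lt.1 h3) h1)
    (fun a u h => ord_nonneg P (θ a) (kU κ u) (hu a u h))
  exact ⟨v, e, rfl, he⟩

omit [IsAlgClosure L Ω] hG in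
lemma pic_exists_one (v : HeightOneSpectrum A) :
    ∃ z : Kˣ, count K v (spanSingleton A⁰ (z : K)) = 1 := by
  obtain ⟨π, hπ⟩ := v.valuation_exists_uniformizer K
  have hπ0 : π ≠ 0 := by
    rintro rfl
    rw [map_zero] at hπ
    exact WithZero.exp_ne_zero hπ.symm
  refine ⟨Units.mk0 π hπ0, ?_⟩
  rw [pic_count, Units.val_mk0, hπ, WithZero.log_exp, neg_neg]

lemma pic_invariant (hinv : ∀ (g : Ω ≃ₐ[L] Ω) (z : Kˣ), symU (gs f g) (kU κ z) = kU κ z)
    (g : Ω ≃ₐ[L] Ω) (P : Pt ℓ (f.map (algebraMap L Ω))) (z : Kˣ) :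
    ord (Pt.sym (gs f g) P) (kU κ z) = ord P (kU κ z) := by
  have h1 := congrArg (fun D => D (Pt.sym (gs f g) P)) (div_symU (gs f g) (kU κ z))
  rw [hinv] at h1
  rw [Finsupp.mapDomain_apply (ops_sym_inj g), Wt.div_apply, Wt.div_apply] at h1
  exact h1

/-- The power prime to `ℓ` is removed. -/
theorem pic_coprime' {G : Type} [CommGroup G] {ℓ m₀ m n : ℕ} (hm : m.Coprime ℓ) {P Q : G}
    (h : P ^ (m₀ * m) = Q ^ ℓ ^ n) : ∃ R : G, P ^ m₀ = R ^ ℓ ^ n := by
  obtain ⟨a, b, hab⟩ : ∃ a b : ℤ, (m : ℤ) * a + (ℓ ^ n : ℕ) * b = 1 := by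
    have h1 : Nat.Coprime m (ℓ ^ n) := Nat.Coprime.pow_right n hm
    exact Int.isCoprime_iff_gcd_eq_one.2 (by rw [Int.gcd_natCast_natCast]; exact h1) |>.elim
      fun a h => h.elim fun b h => ⟨a, b, by rw [mul_comm, mul_comm ((ℓ ^ n : ℕ) : ℤ)]; exact h⟩
  refine ⟨Q ^ a * (P ^ m₀) ^ b, ?_⟩
  calc P ^ m₀ = (P ^ m₀) ^ ((m : ℤ) * a + (ℓ ^ n : ℕ) * b) := by rw [hab, zpow_one]
    _ = ((P ^ (m₀ * m)) ^ a) * ((P ^ m₀) ^ b) ^ ℓ ^ n := by
      rw [zpow_add, zpow_mul, zpow_natCast, ← pow_mul, mul_comm ((ℓ ^ n : ℕ) : ℤ) b, zpow_mul,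
        zpow_natCast]
    _ = (Q ^ a * (P ^ m₀) ^ b) ^ ℓ ^ n := by
      rw [h, mul_pow, ← zpow_natCast (Q ^ a), ← zpow_mul, mul_comm a, zpow_mul, zpow_natCast]

theorem pic_main {m₀ : ℕ} (hℓ : ℓ.Prime) (θ : A →+* NRing ℓ (f.map (algebraMap L Ω)))
    (hθ : ∀ a, algebraMap (NRing ℓ (f.map (algebraMap L Ω))) (FunField ℓ (f.map (algebraMap L Ω)))
      (θ a) = κ (algebraMap A K a))
    (hint : ∀ b, θ.IsIntegralElem b)
    (hinv : ∀ (g : Ω ≃ₐ[L] Ω) (z : Kˣ), symU (gs f g) (kU κ z) = kU κ z)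
    (hcop : ∀ P : Pt ℓ (f.map (algebraMap L Ω)), ∃ z : Kˣ, (ord P (kU κ z)).natAbs.Coprime ℓ)
    (hMW : ∀ (R : Jac ℓ (f.map (algebraMap L Ω))), (∀ σ : Ω ≃ₐ[L] Ω, symJ (gs f σ) R = R) → ∀ n : ℕ,
      ∃ R' : Jac ℓ (f.map (algebraMap L Ω)), (∀ σ : Ω ≃ₐ[L] Ω, symJ (gs f σ) R' = R') ∧
        m₀ • R = ℓ ^ n • R')
    (hdesc : ∀ (R : Jac ℓ (f.map (algebraMap L Ω))), (∀ g : Ω ≃ₐ[L] Ω, symJ (gs f g) R = R) →
      ∃ (m : ℕ) (D : Pt ℓ (f.map (algebraMap L Ω)) →₀ ℤ), m.Coprime ℓ ∧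
        (∀ g : Ω ≃ₐ[L] Ω, D.mapDomain (Pt.sym (gs f g)) = D) ∧ cl D = m • R)
    (hfun : ∀ (w : (FunField ℓ (f.map (algebraMap L Ω)))ˣ),
      (∀ g : Ω ≃ₐ[L] Ω, (Wt.div w).mapDomain (Pt.sym (gs f g)) = Wt.div w) →
      ∃ (s : ℕ) (z : Kˣ), s.Coprime ℓ ∧ Wt.div (kU κ z) = s • Wt.div w)
    (n : ℕ) (I : (Ideal A)⁰) : ∃ Q : ClassGroup A, ClassGroup.mk0 I ^ m₀ = Q ^ ℓ ^ n := by
  choose v e hv he using fun P => pic_below (K := K) θ hθ hint P
  have hcope : ∀ P, IsCoprime ((ℓ ^ n : ℕ) : ℤ) (e P) := by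
    intro P
    obtain ⟨z, hz⟩ := hcop P
    rw [he] at hz
    have h1 : (e P).natAbs.Coprime ℓ := Nat.Coprime.coprime_dvd_left
      (by rw [Int.natAbs_mul]; exact dvd_mul_right _ _) hz
    rw [Int.isCoprime_iff_gcd_eq_one, Int.gcd_eq_natAbs, Int.natAbs_natCast]
    exact (Nat.Coprime.pow_right n h1).symm
  have hsame : ∀ P Q, (∀ z : Kˣ, ord P (kU κ z) = ord Q (kU κ z)) → v P = v Q ∧ e P = e Q := by
    intro P Q hPQ
    have h1 : v P = v Q := by
      apply HeightOneSpectrum.ext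
      rw [hv, hv]
      ext a
      rcases eq_or_ne a 0 with rfl | ha
      · exact ⟨fun _ => Ideal.zero_mem _, fun _ => Ideal.zero_mem _⟩
      · have ha' : algebraMap A K a ≠ 0 := (map_ne_zero_iff _ (IsFractionRing.injective A K)).2 ha
        have h2 : ((kU κ (Units.mk0 _ ha') : (FunField ℓ (f.map (algebraMap L Ω)))ˣ) :
            FunField ℓ (f.map (algebraMap L Ω))) =
            algebraMap (NRing ℓ (f.map (algebraMap L Ω)))
              (FunField ℓ (f.map (algebraMap L Ω))) (θ a) := by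
          rw [hθ]
          rfl
        have h3 := ord_pos_iff P (θ a) (kU κ (Units.mk0 _ ha')) h2
        have h4 := ord_pos_iff Q (θ a) (kU κ (Units.mk0 _ ha')) h2
        rw [hPQ] at h3
        exact h3.symm.trans h4
    obtain ⟨z, hz⟩ := pic_exists_one (K := K) (v P)
    have h5 := hPQ z
    rw [he, he, ← h1, hz, mul_one, mul_one] at h5
    exact ⟨h1, h5⟩
  let c : HeightOneSpectrum A → ℤ := fun w => count K w ((I : Ideal A) : FractionalIdeal A⁰ K)
  have hfin : (Function.support fun P => e P * c (v P)).Finite := by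
    have hI0 : (I : Ideal A) ≠ ⊥ := nonZeroDivisors.coe_ne_zero I
    obtain ⟨a, haI, ha⟩ := Submodule.exists_mem_ne_zero_of_ne_bot hI0
    have ha' : algebraMap A K a ≠ 0 := (map_ne_zero_iff _ (IsFractionRing.injective A K)).2 ha
    refine (ord_finite (kU κ (Units.mk0 _ ha'))).subset fun P hP h0 => hP ?_
    have h1 := he P (Units.mk0 _ ha')
    have h0' : ord P (kU κ (Units.mk0 _ ha')) = 0 := h0
    rw [h0', Units.val_mk0] at h1
    rcases mul_eq_zero.1 h1.symm with h2 | h2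
    · show e P * c (v P) = 0
      rw [h2, zero_mul]
    · have h3 : c (v P) ≤ count K (v P) (spanSingleton A⁰ (algebraMap A K a)) := by
        rw [← coeIdeal_span_singleton]
        refine count_mono K (v P) (coeIdeal_ne_zero.2 ?_) (coeIdeal_le_coeIdeal _ |>.2 ?_)
        · rw [Ne, Ideal.span_singleton_eq_bot]
          exact ha
        · rw [Ideal.span_singleton_le_iff_mem]
          exact haI
      have h4 : 0 ≤ c (v P) := count_coe_nonneg K (v P) (I : Ideal A)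
      have h5 : c (v P) = 0 := by
        rw [h2] at h3
        exact le_antisymm h3 h4
      show e P * c (v P) = 0
      rw [h5, mul_zero]
  let D : Pt ℓ (f.map (algebraMap L Ω)) →₀ ℤ := Finsupp.ofSupportFinite _ hfin
  have hD : ∀ P, D P = e P * c (v P) := fun P => rfl
  have hDinv : ∀ g : Ω ≃ₐ[L] Ω, D.mapDomain (Pt.sym (gs f g)) = D := by
    intro g
    ext P
    rw [ops_mapDomain_apply, hD, hD]
    obtain ⟨h1, h2⟩ := hsame (Pt.sym (gs f g⁻¹) P) P fun z => pic_invariant hinv g⁻¹ P z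
    rw [h1, h2]
  have hR : ∀ σ : Ω ≃ₐ[L] Ω, symJ (gs f σ) (cl D) = cl D := fun σ => by rw [symJ_cl, hDinv]
  obtain ⟨R', hR', hRR⟩ := hMW (cl D) hR n
  obtain ⟨m, D', hm, hD', hcl⟩ := hdesc R' hR'
  have hE : cl ((m₀ * m) • D - ℓ ^ n • D') = (0 : Jac ℓ (f.map (algebraMap L Ω))) := by
    rw [map_sub, map_nsmul, map_nsmul, hcl, mul_comm, mul_smul, hRR, smul_comm, sub_self]
  obtain ⟨w, hw⟩ := exists_div_of_cl_eq_zero _ hE
  obtain ⟨s, z, hs, hz⟩ := hfun w (fun g => by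
    rw [hw, opsa_sub, Finsupp.mapDomain_smul, Finsupp.mapDomain_smul, hDinv, hD'])
  have hkey : ∀ P, ((ℓ ^ n : ℕ) : ℤ) ∣ (s * (m₀ * m) : ℕ) * c (v P) -
      count K (v P) (spanSingleton A⁰ (z : K)) := by
    intro P
    have h1 := congrArg (fun D => D P) hz
    rw [Wt.div_apply, he, hw, Finsupp.smul_apply, Finsupp.sub_apply, Finsupp.smul_apply,
      Finsupp.smul_apply, hD] at h1
    refine (hcope P).dvd_of_dvd_mul_left ⟨s * D' P, ?_⟩
    rw [nsmul_eq_mul, nsmul_eq_mul, nsmul_eq_mul] at h1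
    push_cast at h1 ⊢
    linear_combination -h1
  have hall : ∀ w' : HeightOneSpectrum A, ((ℓ ^ n : ℕ) : ℤ) ∣ (s * (m₀ * m) : ℕ) * c w' -
      count K w' (spanSingleton A⁰ (z : K)) := by
    intro w'
    obtain ⟨P, hP⟩ := exists_pt_over θ hint (fun a b hab => by
      have h1 := congrArg (algebraMap (NRing ℓ (f.map (algebraMap L Ω)))
        (FunField ℓ (f.map (algebraMap L Ω)))) hab
      rw [hθ, hθ] at h1
      exact IsFractionRing.injective A K (κ.injective h1)) w'.asIdeal w'.isMaximal w'.ne_bot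
    have h2 : v P = w' := HeightOneSpectrum.ext (by rw [hv, hP])
    rw [← h2]
    exact hkey P
  obtain ⟨Q, hQ⟩ := pic_class_pow (K := K) I z (s * (m₀ * m)) (ℓ ^ n) hall
  refine pic_coprime' (m := s * m) (Nat.Coprime.mul_left hs hm) (Q := Q) ?_
  rw [← hQ]
  congr 1
  ring

end

end Pool.Agent.Lib.MP_89bcae_ag.Brt

end

end

section

attribute [local instance 100000] Pool.Agent.Lib.MP_89bcae_ag.Brt.tffFields
attribute [local instance 100000] Pool.Agent.Lib.MP_89bcae_ag.Wt.ifrNF Pool.Agent.Lib.MP_89bcae_ag.Wt.iddNF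

namespace Pool.Agent.Lib.MP_89bcae_ag.Bra
end Pool.Agent.Lib.MP_89bcae_ag.Bra
namespace Pool.Agent.Lib.MP_89bcae_ag.Sup
end Pool.Agent.Lib.MP_89bcae_ag.Sup
namespace Pool.Agent.Lib.MP_89bcae_ag.Wt
end Pool.Agent.Lib.MP_89bcae_ag.Wt
namespace Pool.Agent.Lib.MP_89bcae_ag.Wt.Lns
end Pool.Agent.Lib.MP_89bcae_ag.Wt.Lns
namespace Pool.Agent.Lib.MP_89bcae_ag.Wt.Lns.LocCtx
end Pool.Agent.Lib.MP_89bcae_ag.Wt.Lns.LocCtx

section

/-!
ROW R19 (60-120 lines). `π = 1 - Z` is surjective on the Jacobian.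

PROOF. The classes of points generate the Jacobian (`cl_surjective`) and the image of `π` is a
subgroup, so it is enough to treat `Q = cl (single P 1)`. By R12 there is `h` with
`nrm h = x - P.x`. By `exists_nrm_eq` (R10), `x - P.x = c · xprod (div h)`, so
(`xprod D = ∏ (x - P'.x)^{D P'}`; the exponents of the linear factors are determined: the order of
`∏ (x - a)^{n_a}` at a point above `a` is `n_a` or `N n_a`) the sum of `div h - single P 1` over each
fibre `{P' | P'.x = a}` is zero. A divisor with sum zero over each fibre is of the form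
`D - rot_* D`: a fibre consists of the points `P', P'.rot, ..., P'.rot^(N-1)` and
`single (P'.rot^i) 1 - single P' 1` is `D - rot_* D` for `D = -∑_{j<i} single (P'.rot^j) 1`.
Hence `Q = cl (single P 1) = cl (single P 1 - div h) = π (cl D)`.
-/

open Polynomial IsDedekindDomain

open scoped Classical

namespace Pool.Agent.Lib.MP_89bcae_ag.Wt

universe u

variable {N : ℕ} {E : Type u} [Field E] {f : E[X]} [hG : IsGood N f]

/-- there is a point above every `a` -/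
lemma r19_exists_pt (N : ℕ) (f : E[X]) [hG : IsGood N f] (a : E) : ∃ R : Pt N f, R.x = a := by
  have := hG.alg
  obtain ⟨y, hy⟩ := IsAlgClosed.exists_pow_nat_eq (f.eval a) hG.pos
  exact ⟨⟨a, y, hy⟩, rfl⟩

omit hG in
lemma r19_iter (ζ : E) (hζ : ζ ^ N = 1) (R : Pt N f) (i : ℕ) :
    ((Pt.rot ζ hζ)^[i] R).x = R.x ∧ ((Pt.rot ζ hζ)^[i] R).y = ζ ^ i * R.y := by
  induction i with
  | zero => simp
  | succ n ih =>
    rw [Function.iterate_succ_apply']
    refine ⟨ih.1, ?_⟩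
    change ζ * _ = _
    rw [ih.2, pow_succ]
    ring

/-- two points of a fibre differ by a rotation -/
lemma r19_fibre (ζ : E) (hζ : IsPrimitiveRoot ζ N) (R P : Pt N f) (h : P.x = R.x) :
    ∃ i : ℕ, P = (Pt.rot ζ hζ.pow_eq_one)^[i] R := by
  have he : P.y ^ N = R.y ^ N := by rw [P.eq, R.eq, h]
  by_cases h0 : R.y = 0
  · refine ⟨0, ?_⟩
    rw [h0, zero_pow hG.ne] at he
    have : P.y = 0 := eq_zero_of_pow_eq_zero he
    ext
    · simpa using h
    · simpa using this.trans h0.symm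
  · have h1 : (P.y / R.y) ^ N = 1 := by
      rw [div_pow, he, div_self (pow_ne_zero _ h0)]
    have := NeZero.mk hG.ne
    obtain ⟨i, -, hi⟩ := hζ.eq_pow_of_pow_eq_one h1
    refine ⟨i, ?_⟩
    obtain ⟨a1, a2⟩ := r19_iter ζ hζ.pow_eq_one R i
    ext
    · rw [a1, h]
    · rw [a2, hi, div_mul_cancel₀ _ h0]

/-- the homomorphism `1 - Z` -/
noncomputable def r19_pi (ζ : E) (hζ : IsPrimitiveRoot ζ N) : Jac N f →+ Jac N f :=
  AddMonoidHom.id _ - zJ ζ hζ.pow_eq_one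

lemma r19_pi_apply (ζ : E) (hζ : IsPrimitiveRoot ζ N) (Q : Jac N f) :
    r19_pi ζ hζ Q = Q - zJ ζ hζ.pow_eq_one Q := rfl

lemma r19_step (ζ : E) (hζ : IsPrimitiveRoot ζ N) (R : Pt N f) (i : ℕ) :
    cl (Finsupp.single ((Pt.rot ζ hζ.pow_eq_one)^[i] R) 1) - cl (Finsupp.single R 1) ∈
      (r19_pi ζ hζ : Jac N f →+ Jac N f).range := by
  induction i with
  | zero => simp
  | succ n ih =>
    rw [Function.iterate_succ_apply']
    set S := (Pt.rot ζ hζ.pow_eq_one)^[n] R with hS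
    have h1 : cl (Finsupp.single (Pt.rot ζ hζ.pow_eq_one S) 1) - cl (Finsupp.single S 1) ∈
        (r19_pi ζ hζ : Jac N f →+ Jac N f).range := by
      refine ⟨-cl (Finsupp.single S 1), ?_⟩
      rw [r19_pi_apply, map_neg, zJ_cl, Finsupp.mapDomain_single]
      abel
    have := add_mem h1 ih
    convert this using 1
    abel

/-- every divisor is congruent to the divisor supported on chosen points of the fibres -/
lemma r19_move (ζ : E) (hζ : IsPrimitiveRoot ζ N) (R : E → Pt N f) (hR : ∀ a, (R a).x = a)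
    (D : Pt N f →₀ ℤ) : cl D - cl (D.mapDomain fun P => R P.x) ∈
      (r19_pi ζ hζ : Jac N f →+ Jac N f).range := by
  induction D using Finsupp.induction_linear with
  | zero => simp
  | add D D' h h' =>
    rw [Finsupp.mapDomain_add, map_add, map_add]
    convert add_mem h h' using 1
    abel
  | single P n =>
    rw [Finsupp.mapDomain_single]
    obtain ⟨i, hi⟩ := r19_fibre ζ hζ (R P.x) P (by rw [hR])
    have h1 := r19_step ζ hζ (R P.x) i
    rw [← hi] at h1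
    have h2 := zsmul_mem h1 n
    have e : ∀ S : Pt N f, cl (Finsupp.single S n) = n • cl (Finsupp.single S 1) := by
      intro S
      rw [← map_zsmul, Finsupp.smul_single, smul_eq_mul, mul_one]
    rw [e, e, ← smul_sub]
    exact h2

lemma r19_ord_prod (P : Pt N f) (G : E →₀ ℤ) :
    ord P (G.prod fun a n => (xs a : (FunField N f)ˣ) ^ n) = G P.x * ord P (xs P.x) := by
  have key : ∀ s : Finset E, ord P (∏ a ∈ s, (xs a : (FunField N f)ˣ) ^ (G a)) =
      ∑ a ∈ s, G a * ord P (xs a) := by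
    intro s
    induction s using Finset.induction_on with
    | empty => simp [ord_one]
    | insert a s ha ih => rw [Finset.prod_insert ha, Finset.sum_insert ha, ord_mul, ord_zpow, ih]
  rw [Finsupp.prod, key]
  by_cases h : P.x ∈ G.support
  · rw [Finset.sum_eq_single_of_mem _ h]
    intro b _ hb
    rw [ord_xs_of_ne P (Ne.symm hb), mul_zero]
  · rw [Finset.sum_eq_zero, Finsupp.notMem_support_iff.1 h, zero_mul]
    intro b hb
    have : P.x ≠ b := fun hh => h (hh ▸ hb)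
    rw [ord_xs_of_ne P this, mul_zero]

lemma r19_ord_ne_zero (P : Pt N f) : ord P (xs P.x) ≠ 0 := by
  by_cases h : P.y = 0
  · rw [ord_xs_of_ramified P h]
    exact_mod_cast hG.ne
  · rw [ord_xs_of_unramified P h]
    exact one_ne_zero

/-- a divisor whose `x`-product is constant has sum zero over every fibre -/
lemma r19_zero (D : Pt N f →₀ ℤ) (c : Eˣ) (h : xprod D = cstU c) :
    D.mapDomain Pt.x = 0 := by
  have h1 : xprod D = (D.mapDomain Pt.x).prod fun a n => (xs a : (FunField N f)ˣ) ^ n := by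
    rw [Finsupp.prod_mapDomain_index]
    · rfl
    · intro a
      exact zpow_zero _
    · intro a m n
      exact zpow_add _ _ _
  ext a
  obtain ⟨R, hR⟩ := r19_exists_pt N f a
  have h2 := r19_ord_prod R (D.mapDomain Pt.x)
  rw [← h1, h, ord_cstU] at h2
  have h3 := (mul_eq_zero.1 h2.symm).resolve_right (r19_ord_ne_zero R)
  rw [hR] at h3
  simpa using h3

lemma exists_sub_zJ (ζ : E) (hζ : IsPrimitiveRoot ζ N) (Q : Jac N f) :
    ∃ Q' : Jac N f, Q' - zJ ζ hζ.pow_eq_one Q' = Q := by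
  have h0 : ζ ≠ 0 := hζ.ne_zero hG.ne
  choose R hR using r19_exists_pt N f
  have hpt : ∀ P : Pt N f, cl (Finsupp.single P 1) ∈
      (r19_pi ζ hζ : Jac N f →+ Jac N f).range := by
    intro P
    obtain ⟨h, hh⟩ := exists_nrm_eq_xs (f := f) ζ hζ h0 P.x
    obtain ⟨c, hc⟩ := exists_nrm_eq ζ hζ h0 h
    have h1 : xprod (div h - Finsupp.single P 1) = cstU c⁻¹ := by
      have e1 : xprod (div h - Finsupp.single P 1) * xprod (Finsupp.single P 1) =
          xprod (div h) := by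
        rw [← xprod_add, sub_add_cancel]
      have e2 : xprod (Finsupp.single P 1) = (xs P.x : (FunField N f)ˣ) := by
        unfold xprod
        rw [Finsupp.prod_single_index (zpow_zero _), zpow_one]
      rw [e2, ← hh, hc] at e1
      have e3 : xprod (div h) * (xprod (div h - Finsupp.single P 1) * cstU c) =
          xprod (div h) * 1 := by
        rw [mul_one]
        conv_rhs => rw [← e1]
        rw [mul_comm, mul_assoc]
      have e4 := mul_left_cancel e3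
      rw [map_inv]
      exact eq_inv_of_mul_eq_one_left e4
    have h2 := r19_zero _ _ h1
    have h3 := r19_move ζ hζ R hR (div h - Finsupp.single P 1)
    have h4 : (div h - Finsupp.single P 1).mapDomain (fun P : Pt N f => R P.x) = 0 := by
      have : (fun P : Pt N f => R P.x) = R ∘ Pt.x := rfl
      rw [this, Finsupp.mapDomain_comp, h2, Finsupp.mapDomain_zero]
    rw [h4, map_zero, sub_zero, map_sub, cl_div, zero_sub] at h3
    exact neg_mem_iff.1 h3
  obtain ⟨D, rfl⟩ := cl_surjective (N := N) (f := f) Q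
  have hD : cl D ∈ (r19_pi ζ hζ : Jac N f →+ Jac N f).range := by
    induction D using Finsupp.induction_linear with
    | zero => simp
    | add D D' h h' =>
      rw [map_add]
      exact add_mem h h'
    | single P n =>
      have : cl (Finsupp.single P n) = n • cl (Finsupp.single P 1) := by
        rw [← map_zsmul, Finsupp.smul_single, smul_eq_mul, mul_one]
      rw [this]
      exact zsmul_mem (hpt P) n
  obtain ⟨Q', hQ'⟩ := hD
  exact ⟨Q', by rw [← r19_pi_apply ζ hζ, hQ']⟩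

end Pool.Agent.Lib.MP_89bcae_ag.Wt

end

section

/-!
# Complements on the Jacobian of the normalization of `y ^ ℓ = f(x)`
-/

open Polynomial IsDedekindDomain

open scoped Classical

namespace Pool.Agent.Lib.MP_89bcae_ag.Wt

open Pool.Agent.Lib.MP_89bcae_ag.Sup

universe u

section

variable {ℓ : ℕ} {E : Type u} [Field E] {f : E[X]}


lemma symJ_mul [IsGood ℓ f] (σ τ : Sym f) (Q : Jac ℓ f) :
    symJ (σ * τ) Q = symJ σ (symJ τ Q) := by
  obtain ⟨D, rfl⟩ := cl_surjective Q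
  rw [symJ_cl, symJ_cl, symJ_cl, ← Finsupp.mapDomain_comp]
  rfl


end

section

variable {ℓ : ℕ} {E : Type u} [Field E] {f : E[X]} [hG : IsGood ℓ f]


/-- The operator `π = 1 - Z` in the ring of endomorphisms, with the identity of `A01`. -/
private lemma G07_identity (hℓ : ℓ.Prime) (ζ : E) (hζ : IsPrimitiveRoot ζ ℓ) :
    ∃ p U : AddMonoid.End (Jac ℓ f), (∀ Q, p Q = Q - zJ ζ hζ.pow_eq_one Q) ∧
      p ^ (ℓ - 1) = (ℓ : AddMonoid.End (Jac ℓ f)) * U := by
  let z : AddMonoid.End (Jac ℓ f) := zJ ζ hζ.pow_eq_one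
  let S : ℤ[X] := ∑ i ∈ Finset.range ℓ, X ^ i
  have hS : aeval z S = 0 := by
    refine AddMonoidHom.ext fun Q => ?_
    have h := sum_zJ ζ hζ Q
    have h2 : aeval z S = ∑ i ∈ Finset.range ℓ, z ^ i := by
      simp only [S, map_sum, map_pow, aeval_X]
    rw [h2]
    have h3 : (∑ i ∈ Finset.range ℓ, z ^ i : AddMonoid.End (Jac ℓ f)) Q =
        ∑ i ∈ Finset.range ℓ, (z ^ i) Q := AddMonoidHom.finsetSum_apply _ _ _
    exact h3.trans h
  let B : Type := ℤ[X] ⧸ Ideal.span {S}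
  let φ : B →+* AddMonoid.End (Jac ℓ f) :=
    Ideal.Quotient.lift (Ideal.span {S}) (aeval z : ℤ[X] →ₐ[ℤ] AddMonoid.End (Jac ℓ f)).toRingHom
      (by
        intro a ha
        obtain ⟨b, rfl⟩ := Ideal.mem_span_singleton'.mp ha
        show aeval z (b * S) = 0
        rw [map_mul, hS, mul_zero])
  have hz : ∑ i ∈ Finset.range ℓ, (Ideal.Quotient.mk (Ideal.span {S}) X : B) ^ i = 0 := by
    have h : (Ideal.Quotient.mk (Ideal.span {S}) S : B) = 0 :=
      Ideal.Quotient.eq_zero_iff_mem.mpr (Ideal.mem_span_singleton_self S)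
    rw [← h]
    simp only [S, map_sum, map_pow]
  obtain ⟨v, w, h1, h2⟩ := exists_pi_identity hℓ (Ideal.Quotient.mk (Ideal.span {S}) X : B) hz
  have hφX : φ (Ideal.Quotient.mk (Ideal.span {S}) X) = z := by
    show aeval z X = z
    exact aeval_X z
  refine ⟨1 - z, φ (-1 + (1 - Ideal.Quotient.mk (Ideal.span {S}) X) * w), fun Q => rfl, ?_⟩
  have h3 := congrArg φ h2
  rw [map_pow, map_mul, map_natCast, map_sub, map_one, hφX] at h3
  exact h3

/-- (5) -/
lemma exists_smul_eq (hℓ : ℓ.Prime) (ζ : E) (hζ : IsPrimitiveRoot ζ ℓ) (Q : Jac ℓ f) :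
    ∃ Q' : Jac ℓ f, ℓ • Q' = Q := by
  obtain ⟨p, U, hp, hU⟩ := G07_identity hℓ (f := f) ζ hζ
  have hs : ∀ n : ℕ, ∃ Q' : Jac ℓ f, (p ^ n) Q' = Q := by
    intro n
    induction n with
    | zero => exact ⟨Q, rfl⟩
    | succ n ih =>
      obtain ⟨Q', hQ'⟩ := ih
      obtain ⟨Q'', hQ''⟩ := exists_sub_zJ ζ hζ Q'
      refine ⟨Q'', ?_⟩
      rw [pow_succ]
      show (p ^ n) (p Q'') = Q
      rw [hp, hQ'', hQ']
  obtain ⟨Q', hQ'⟩ := hs (ℓ - 1)
  refine ⟨U Q', ?_⟩
  rw [hU] at hQ'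
  exact hQ'

/-- A class killed by `ℓ` is killed by `(1 - Z)^(ℓ-1)`. -/
lemma iterate_eq_zero_of_smul (hℓ : ℓ.Prime) (ζ : E) (hζ : IsPrimitiveRoot ζ ℓ) (n : ℕ) (Q : Jac ℓ f)
    (hQ : ℓ ^ n • Q = 0) : (fun x => x - zJ ζ hζ.pow_eq_one x)^[(ℓ - 1) * n] Q = 0 := by
  obtain ⟨p, U, hp, hU⟩ := G07_identity hℓ (f := f) ζ hζ
  have hfun : (fun x => x - zJ ζ hζ.pow_eq_one x) = (p : Jac ℓ f → Jac ℓ f) := by
    funext x
    exact (hp x).symm
  have h1 : (fun x => x - zJ ζ hζ.pow_eq_one x)^[(ℓ - 1) * n] Q = (p ^ ((ℓ - 1) * n)) Q := by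
    rw [hfun]
    rfl
  rw [h1, pow_mul, hU, (Nat.cast_commute ℓ U).mul_pow, ((Nat.cast_commute ℓ U).pow_pow n n).eq]
  show (U ^ n) (((ℓ : AddMonoid.End (Jac ℓ f)) ^ n) Q) = 0
  rw [← Nat.cast_pow, AddMonoid.End.natCast_apply, hQ, map_zero]


end

lemma jacMap_jacMap (ℓ : ℕ) {A B C' : Type u} [Field A] [Field B] [Field C'] (σ : A →+* B)
    (τ : B →+* C') {f : A[X]} {f' : B[X]} {f'' : C'[X]} (h : f.map σ = f') (h' : f'.map τ = f'')
    (h'' : f.map (τ.comp σ) = f'') (Q : Jac ℓ f) :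
    jacMap ℓ τ h' (jacMap ℓ σ h Q) = jacMap ℓ (τ.comp σ) h'' Q := by
  have e0 : (funMap ℓ τ h').comp (funMap ℓ σ h) = funMap ℓ (τ.comp σ) h'' := by
    refine funField_hom_ext (fun p => ?_) ?_
    · rw [RingHom.comp_apply, funMap_polyF, funMap_polyF, funMap_polyF, Polynomial.map_map]
    · rw [RingHom.comp_apply, funMap_yF, funMap_yF, funMap_yF]
  have e : (coordMap ℓ τ h').comp (coordMap ℓ σ h) = coordMap ℓ (τ.comp σ) h'' :=
    RingHom.ext fun a => Subtype.ext (RingHom.congr_fun e0 (a : FunField ℓ f))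
  have h1 : (CommRing.Pic.mapRingHom (coordMap ℓ τ h')).comp
      (CommRing.Pic.mapRingHom (coordMap ℓ σ h)) =
      CommRing.Pic.mapRingHom (coordMap ℓ (τ.comp σ) h'') := by
    rw [← e]
    exact CommRing.Pic.mapRingHom_comp_mapRingHom
  exact congrArg Additive.ofMul (DFunLike.congr_fun h1 Q.toMul)


/-- The automorphism `Z` depends only on the root of unity. -/
lemma G04_zJ_congr {ℓ : ℕ} {E : Type u} [Field E] {f : E[X]} [IsGood ℓ f] {z z' : E} (h : z = z')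
    (hz : z ^ ℓ = 1) (hz' : z' ^ ℓ = 1) (Q : Jac ℓ f) : zJ z hz Q = zJ z' hz' Q := by
  subst h
  rfl

end Pool.Agent.Lib.MP_89bcae_ag.Wt

end

section

/-!
# Exact sequences of cocycles; the points of the Jacobian over `L`
-/

open Polynomial IsDedekindDomain IsLocalRing

open scoped Classical

namespace Pool.Agent.Lib.MP_89bcae_ag.Bra

open Pool.Agent.Lib.MP_89bcae_ag.Wt Pool.Agent.Lib.MP_89bcae_ag.Wt.Lns

/-- The arithmetic of `exists_weights` in a quotient group. -/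
theorem mis_a_aux {ℓ : ℕ} (hℓ : ℓ.Prime) {G : Type} [AddCommGroup G]
    (β : ℕ → G) (m : ℕ → ℕ) (hm : ∀ n, (m n).Coprime ℓ)
    (h0 : ∃ u : ℕ, u.Coprime ℓ ∧ u • β 0 = 0)
    (h : ∀ n, ∃ u : ℕ, u.Coprime ℓ ∧ u • ((ℓ * m n) • β (n + 1) - m (n + 1) • β n) = 0) :
    ∃ w : ℕ → ℕ, w 0 • β 0 = 0 ∧ (∀ n, ℓ • w (n + 1) • β (n + 1) - w n • β n = 0) ∧
      ∀ n, w n * m n ≡ 1 [MOD ℓ ^ n] := by
  obtain ⟨u0, hu0, hu0'⟩ := h0
  choose u hu hu' using h
  obtain ⟨M, hM0, hM1⟩ : ∃ M : ℕ → ℕ, M 0 = u0 ∧ ∀ n, M (n + 1) = u n * m n * M n :=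
    ⟨fun n => Nat.rec u0 (fun n Mn => u n * m n * Mn) n, rfl, fun n => rfl⟩
  have hMc : ∀ n, (M n).Coprime ℓ := by
    intro n
    induction n with
    | zero => rw [hM0]; exact hu0
    | succ n ih =>
      rw [hM1]
      exact Nat.Coprime.mul_left (Nat.Coprime.mul_left (hu n) (hm n)) ih
  have hstep : ∀ n, (u n * m n * ℓ : ℕ) • β (n + 1) = (u n * m (n + 1)) • β n := by
    intro n
    have h1 := hu' n
    rw [smul_sub, sub_eq_zero, smul_smul, smul_smul] at h1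
    rw [← h1]
    congr 1
    ring
  have hMB : ∀ n, (ℓ ^ n * M n) • β n = 0 := by
    intro n
    induction n with
    | zero => rw [pow_zero, one_mul, hM0]; exact hu0'
    | succ n ih =>
      have e1 : ℓ ^ (n + 1) * M (n + 1) = (ℓ ^ n * M n) * (u n * m n * ℓ) := by
        rw [hM1]; ring
      rw [e1, mul_smul, hstep, ← mul_smul, mul_comm, mul_smul, ih, smul_zero]
  have hv : ∀ n, ∃ v : ℕ, (M n * v) * m n ≡ 1 [MOD ℓ ^ n] := by
    intro n
    rcases Nat.eq_zero_or_pos n with hn | hn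
    · refine ⟨1, ?_⟩
      rw [hn, pow_zero]
      exact Nat.modEq_one
    · have h1 : (M n * m n).Coprime (ℓ ^ n) :=
        Nat.Coprime.pow_right n (Nat.Coprime.mul_left (hMc n) (hm n))
      obtain ⟨v, -, hv⟩ := Nat.exists_mul_mod_eq_one_of_coprime h1
        (Nat.one_lt_pow hn.ne' hℓ.one_lt)
      refine ⟨v, ?_⟩
      have e1 : M n * v * m n = M n * m n * v := by ring
      rw [e1]
      unfold Nat.ModEq
      rw [hv, Nat.mod_eq_of_lt (Nat.one_lt_pow hn.ne' hℓ.one_lt)]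
  choose v hv using hv
  refine ⟨fun n => M n * v n, ?_, ?_, hv⟩
  · simp only [hM0]
    rw [mul_comm, mul_smul, hu0', smul_zero]
  · intro n
    simp only
    have hA : (ℓ ^ n) • (ℓ • (M (n + 1) * v (n + 1)) • β (n + 1) - (M n * v n) • β n) = 0 := by
      have e1 : (ℓ ^ n * (ℓ * (M (n + 1) * v (n + 1)))) = v (n + 1) * (ℓ ^ (n + 1) * M (n + 1)) := by
        ring
      have e2 : ℓ ^ n * (M n * v n) = v n * (ℓ ^ n * M n) := by ring
      rw [smul_sub, smul_smul, smul_smul, smul_smul, mul_assoc, e1, e2, mul_smul (v (n + 1)),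
        mul_smul (v n), hMB, hMB, smul_zero, smul_zero, sub_zero]
    have hB : (u n * m n * m (n + 1)) •
        (ℓ • (M (n + 1) * v (n + 1)) • β (n + 1) - (M n * v n) • β n) = 0 := by
      have e1 : u n * m n * m (n + 1) * (ℓ * (M (n + 1) * v (n + 1))) =
          (m (n + 1) * (M (n + 1) * v (n + 1))) * (u n * m n * ℓ) := by ring
      rw [smul_sub, smul_smul, smul_smul, smul_smul, mul_assoc (u n * m n * m (n + 1)) ℓ, e1,
        mul_smul, hstep, smul_smul, sub_eq_zero, nsmul_eq_nsmul_iff_modEq]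
      have h1 : addOrderOf (β n) ∣ ℓ ^ n * M n := addOrderOf_dvd_iff_nsmul_eq_zero.2 (hMB n)
      have h2 : M n * v n * m n ≡ M (n + 1) * v (n + 1) * m (n + 1) [MOD ℓ ^ n * M n] := by
        rw [← Nat.modEq_and_modEq_iff_modEq_mul ((hMc n).symm.pow_left n)]
        constructor
        · refine (hv n).trans ((hv (n + 1)).symm.of_dvd ?_)
          exact pow_dvd_pow ℓ (Nat.le_succ n)
        · refine (Nat.modEq_zero_iff_dvd.2 ?_).trans (Nat.modEq_zero_iff_dvd.2 ?_).symm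
          · exact Dvd.dvd.mul_right (Dvd.intro _ rfl) _
          · refine Dvd.dvd.mul_right (Dvd.dvd.mul_right ?_ _) _
            rw [hM1]
            exact Dvd.intro_left _ rfl
      have h3 := (h2.of_dvd h1).symm.mul_left (u n * m (n + 1))
      have e3 : m (n + 1) * (M (n + 1) * v (n + 1)) * (u n * m (n + 1)) =
          u n * m (n + 1) * (M (n + 1) * v (n + 1) * m (n + 1)) := by ring
      have e4 : u n * m n * m (n + 1) * (M n * v n) = u n * m (n + 1) * (M n * v n * m n) := by ring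
      rw [e3, e4]
      exact h3
    have hc : (ℓ ^ n).Coprime (u n * m n * m (n + 1)) :=
      ((Nat.Coprime.mul_left (Nat.Coprime.mul_left (hu n) (hm n)) (hm (n + 1))).symm).pow_left n
    have hd := Nat.dvd_gcd (addOrderOf_dvd_iff_nsmul_eq_zero.2 hA)
      (addOrderOf_dvd_iff_nsmul_eq_zero.2 hB)
    rw [hc.gcd_eq_one, Nat.dvd_one, AddMonoid.addOrderOf_eq_one_iff] at hd
    exact hd

/-- Arithmetic: choice of the multipliers. PROOF. Work modulo `B`. By induction there are `M n` prime to `ℓ` with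
`ℓ ^ n * M n • β n ∈ B` and `M n ∣ M (n+1)`: `M 0 = u`, `M (n+1) = u_n * m n * M n` (`u_n` given by `h n`). Choose `w n` with
`w n * m n ≡ 1 [MOD ℓ ^ n]` and `M n ∣ w n` (Chinese remainders, `m n` and `M n` are prime to `ℓ`). Let
`δ = ℓ w_{n+1} β_{n+1} - w_n β_n`. Then `ℓ ^ n δ ∈ B`, as `ℓ ^ (n+1) w_{n+1} β_{n+1}`, `ℓ ^ n w_n β_n ∈ B`. And
`u_n m_n m_{n+1} δ ≡ u_n m_{n+1} (w_{n+1} m_{n+1} - w_n m_n) β_n`, where `w_{n+1} m_{n+1} - w_n m_n` is divisible by `ℓ ^ n`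
and by `M n`, so this is in `B`; `u_n m_n m_{n+1}` is prime to `ℓ ^ n`, so `δ ∈ B`. -/
theorem exists_weights {ℓ : ℕ} (hℓ : ℓ.Prime) {A : Type} [AddCommGroup A] (B : AddSubgroup A)
    (β : ℕ → A) (m : ℕ → ℕ) (hm : ∀ n, (m n).Coprime ℓ)
    (h0 : ∃ u : ℕ, u.Coprime ℓ ∧ u • β 0 ∈ B)
    (h : ∀ n, ∃ u : ℕ, u.Coprime ℓ ∧ u • ((ℓ * m n) • β (n + 1) - m (n + 1) • β n) ∈ B) :
    ∃ w : ℕ → ℕ, w 0 • β 0 ∈ B ∧ (∀ n, ℓ • w (n + 1) • β (n + 1) - w n • β n ∈ B) ∧
      ∀ n, w n * m n ≡ 1 [MOD ℓ ^ n] := by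
  obtain ⟨w, h1, h2, h3⟩ := mis_a_aux hℓ (G := A ⧸ B) (fun n => (β n : A ⧸ B)) m hm
    (by
      obtain ⟨u, hu, hu'⟩ := h0
      refine ⟨u, hu, ?_⟩
      have := (QuotientAddGroup.eq_zero_iff _).2 hu'
      simpa using this)
    (by
      intro n
      obtain ⟨u, hu, hu'⟩ := h n
      refine ⟨u, hu, ?_⟩
      have := (QuotientAddGroup.eq_zero_iff _).2 hu'
      simpa using this)
  refine ⟨w, ?_, ?_, h3⟩
  · refine (QuotientAddGroup.eq_zero_iff _).1 ?_
    simpa using h1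
  · intro n
    refine (QuotientAddGroup.eq_zero_iff _).1 ?_
    have := h2 n
    simpa using this

section

variable {L Ω : Type} [Field L] [Field Ω] [Algebra L Ω] {ℓ : ℕ} {f : L[X]}
  [hG : IsGood ℓ (f.map (algebraMap L Ω))]

/-- A primitive root of unity. -/
private lemma misb_zeta {ℓ : ℕ} {E : Type} [Field E] (p : E[X]) (hp : IsGood ℓ p) :
    ∃ ζ : E, IsPrimitiveRoot ζ ℓ := by
  have h1 : IsAlgClosed E := hp.alg
  have h2 : NeZero ((ℓ : ℕ) : E) := ⟨hp.ne_zero⟩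
  have hpos : 0 < ℓ := lt_trans Nat.zero_lt_one hp.one_lt
  have hdeg : (cyclotomic ℓ E).degree ≠ 0 := (degree_cyclotomic_pos ℓ E hpos).ne'
  obtain ⟨ζ, hζ⟩ := IsAlgClosed.exists_root (cyclotomic ℓ E) hdeg
  exact ⟨ζ, isRoot_cyclotomic_iff.mp hζ⟩

/-- Exact sequences of cocycles. PROOF. `R 0 = - Q_0`; `ℓ • R (n+1) = R n - Q_n` (`exists_smul_eq` in `Wt/X1.lean`; a
primitive root `ζ` of order `ℓ` exists in `Ω` by `hG.alg`, `hG.ne_zero`), where `ℓ c_{n+1} - c_n = d Q_n`. -/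
theorem exists_exact (hℓ : ℓ.Prime) (c : ℕ → (Ω ≃ₐ[L] Ω) → Jac ℓ (f.map (algebraMap L Ω)))
    (h0 : ∃ Q, ∀ g, c 0 g = symJ (gs f g) Q - Q)
    (h : ∀ n, ∃ Q, ∀ g, ℓ • c (n + 1) g - c n g = symJ (gs f g) Q - Q) :
    ∃ R : ℕ → Jac ℓ (f.map (algebraMap L Ω)), (∀ g, c 0 g + (symJ (gs f g) (R 0) - R 0) = 0) ∧
      ∀ n g, ℓ • (c (n + 1) g + (symJ (gs f g) (R (n + 1)) - R (n + 1))) =
        c n g + (symJ (gs f g) (R n) - R n) := by
  obtain ⟨ζ, hζ⟩ := misb_zeta (f.map (algebraMap L Ω)) hG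
  obtain ⟨Q0, hQ0⟩ := h0
  choose Q hQ using h
  have hdiv : ∀ X : Jac ℓ (f.map (algebraMap L Ω)), ∃ Y, ℓ • Y = X :=
    fun X => exists_smul_eq hℓ ζ hζ X
  choose D hD using hdiv
  refine ⟨fun n => Nat.rec (-Q0) (fun n r => D (r - Q n)) n, fun g => ?_, fun n g => ?_⟩
  · show c 0 g + (symJ (gs f g) (-Q0) - (-Q0)) = 0
    rw [map_neg, hQ0]
    abel
  · set r : Jac ℓ (f.map (algebraMap L Ω)) :=
      (Nat.rec (-Q0) (fun n r => D (r - Q n)) n : Jac ℓ (f.map (algebraMap L Ω))) with hr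
    show ℓ • (c (n + 1) g + (symJ (gs f g) (D (r - Q n)) - D (r - Q n))) =
      c n g + (symJ (gs f g) r - r)
    have h1 : ℓ • c (n + 1) g = c n g + (symJ (gs f g) (Q n) - Q n) := by
      rw [← hQ n g]
      abel
    rw [smul_add, smul_sub, h1, ← map_nsmul, hD, map_sub]
    abel

end

section

variable {k F L Ω : Type} [Field k] [Field F] [Algebra k F] [IsAlgClosure k F] [Field L]
  [Algebra F[X] L] [IsFractionRing F[X] L] [Field Ω] [Algebra L Ω] [IsAlgClosure L Ω] {ℓ : ℕ}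
  {f : L[X]} [hG : IsGood ℓ (f.map (algebraMap L Ω))]

variable (k F) in

/-- The automorphisms of `Ω` over `k'(t)`. -/
def AutK (L Ω : Type) [Field L] [Algebra F[X] L] [Field Ω] [Algebra L Ω] (k' : IntermediateField k F) :
    Set (Ω ≃+* Ω) :=
  {γ | ∀ p : k'[X], γ (base k' F L Ω p) = base k' F L Ω p}

/-- The automorphisms over `k'(t)` preserve `F`. PROOF. `γ` is in `AutO k' F L Ω` (`Wl/Gen.lean`; `F` is an algebraic closure
of `k'`, the `base` of `k'` is the same): `resF_spec` (`s = resF γ`, an automorphism over `k'`). -/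
theorem exists_of_mem_autK (k' : IntermediateField k F) {γ : Ω ≃+* Ω} (hγ : γ ∈ AutK k F L Ω k') :
    ∃ s : F ≃+* F, (∀ c ∈ k', s c = c) ∧ ∀ p : F[X], γ (algebraMap L Ω (algebraMap F[X] L p)) =
      algebraMap L Ω (algebraMap F[X] L (p.map (s : F →+* F))) := by
  have hA : IsAlgClosed F := IsAlgClosure.isAlgClosed k
  have hal : Algebra.IsAlgebraic k F := IsAlgClosure.isAlgebraic
  have hal2 : Algebra.IsAlgebraic k' F := Algebra.IsAlgebraic.tower_top (K := k) k'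
  have : IsAlgClosure k' F := ⟨hA, hal2⟩
  have hγ' : γ ∈ AutO k' F L Ω := hγ
  refine ⟨((resF (⟨γ, hγ'⟩ : AutO k' F L Ω) : F ≃ₐ[k'] F) : F ≃+* F), fun c hc => ?_, fun p => ?_⟩
  · exact (resF (⟨γ, hγ'⟩ : AutO k' F L Ω) : F ≃ₐ[k'] F).commutes ⟨c, hc⟩
  · exact resF_spec (⟨γ, hγ'⟩ : AutO k' F L Ω) p


end

end Pool.Agent.Lib.MP_89bcae_ag.Bra

end

section

/-!
# The points of the Jacobian over `L`
-/

open Polynomial IsDedekindDomain IsLocalRing

open scoped Classical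

namespace Pool.Agent.Lib.MP_89bcae_ag.Brt

open Pool.Agent.Lib.MP_89bcae_ag.Wt Pool.Agent.Lib.MP_89bcae_ag.Wt.Lns Pool.Agent.Lib.MP_89bcae_ag.Bra

/-- A family of sets of automorphisms of `Ω`, indexed by the fields `k'` between `k` and `F`, such that each
element of `L` is fixed by those of the large finite `k'`. -/
def FixFam {k F : Type} (L : Type) {Ω : Type} [Field k] [Field F] [Algebra k F] [Field L] [Field Ω]
    [Algebra L Ω]
    (Γ : IntermediateField k F → Set (Ω ≃+* Ω)) : Prop :=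
  ∀ z : L, ∃ B : Finset F, ∀ k' : IntermediateField k F, (∀ c ∈ B, c ∈ k') →
    ∀ γ ∈ Γ k', γ (algebraMap L Ω z) = algebraMap L Ω z

/-- The Tate cocycles with the local property `LT` whose class is fixed by the elements of `Γ` are trivial up to
the multiple `m`. -/
def NTg (ℓ m : ℕ) {L Ω : Type} [Field L] [Field Ω] [Algebra L Ω] (f : L[X])
    (LT : ((Ω ≃ₐ[L] Ω) → JacOver ℓ f Ω) → Prop) (Γ : Set (Ω ≃+* Ω)) : Prop :=
  ∀ c : ℕ → (Ω ≃ₐ[L] Ω) → JacOver ℓ f Ω, Wt.IsTateCocycle ℓ f c → (∀ n, LT (c n)) →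
    (∀ (γ : Ω ≃+* Ω) hγ, γ ∈ Γ → Wt.IsFixedBy ℓ f c γ hγ) →
    Wt.IsTrivial ℓ f fun n g => m • c n g

/-- A primitive root of unity. -/
private lemma misb_zeta {ℓ : ℕ} {E : Type} [Field E] (p : E[X]) (hp : IsGood ℓ p) :
    ∃ ζ : E, IsPrimitiveRoot ζ ℓ := by
  have h1 : IsAlgClosed E := hp.alg
  have h2 : NeZero ((ℓ : ℕ) : E) := ⟨hp.ne_zero⟩
  have hpos : 0 < ℓ := lt_trans Nat.zero_lt_one hp.one_lt
  have hdeg : (cyclotomic ℓ E).degree ≠ 0 := (degree_cyclotomic_pos ℓ E hpos).ne'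
  obtain ⟨ζ, hζ⟩ := IsAlgClosed.exists_root (cyclotomic ℓ E) hdeg
  exact ⟨ζ, isRoot_cyclotomic_iff.mp hζ⟩

section

variable {k F L Ω : Type} [Field k] [Field F] [Algebra k F] [IsAlgClosure k F] [Field L]
  [Field Ω] [Algebra L Ω] [IsAlgClosure L Ω] {ℓ : ℕ}
  {f : L[X]} [hG : IsGood ℓ (f.map (algebraMap L Ω))]
  {Γ : IntermediateField k F → Set (Ω ≃+* Ω)} {LT : ((Ω ≃ₐ[L] Ω) → JacOver ℓ f Ω) → Prop}

omit [IsAlgClosure k F] hG in
private lemma misc_agree (hΓ : FixFam L Γ) (T : Finset Ω) : ∃ B : Finset F,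
    ∀ k' : IntermediateField k F, (∀ c ∈ B, c ∈ k') → ∀ γ ∈ Γ k', ∃ σ : Ω ≃ₐ[L] Ω,
      ∀ x ∈ T, γ x = σ x := by
  have halg : Algebra.IsAlgebraic L Ω := IsAlgClosure.isAlgebraic
  have hclo : IsAlgClosed Ω := IsAlgClosure.isAlgClosed L
  obtain ⟨φ, hφ⟩ : ∃ φ : MvPolynomial (T : Set Ω) L →ₐ[L] Ω,
      φ = MvPolynomial.aeval (fun x => x.1) :=
    ⟨MvPolynomial.aeval (fun x => x.1), rfl⟩
  obtain ⟨G, hG⟩ : (RingHom.ker φ).FG := IsNoetherian.noetherian _
  choose B hB using fun z : L => hΓ z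
  refine ⟨(G.biUnion fun p => p.support.image fun d => MvPolynomial.coeff d p).biUnion B,
    fun k' hk' γ hγ => ?_⟩
  obtain ⟨φγ, hφγ⟩ : ∃ φγ : MvPolynomial (T : Set Ω) L →ₐ[L] Ω,
      φγ = MvPolynomial.aeval (fun x : (T : Set Ω) => γ x.1) :=
    ⟨MvPolynomial.aeval (fun x : (T : Set Ω) => γ x.1), rfl⟩
  have hgen : ∀ p ∈ G, φγ p = 0 := by
    intro p hp
    have h0 : φ p = 0 := by
      have : p ∈ RingHom.ker φ := by
        rw [← hG]
        exact Ideal.subset_span hp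
      exact this
    rw [hφ, MvPolynomial.aeval_def, MvPolynomial.eval₂_eq] at h0
    have h1 := congrArg γ h0
    rw [map_zero, map_sum] at h1
    rw [hφγ, MvPolynomial.aeval_def, MvPolynomial.eval₂_eq, ← h1]
    refine Finset.sum_congr rfl fun d hd => ?_
    rw [map_mul, map_prod, hB (MvPolynomial.coeff d p) k' (fun c hc => hk' c ?_) γ hγ]
    · simp only [map_pow]
    · exact Finset.mem_biUnion.mpr ⟨_, Finset.mem_biUnion.mpr
        ⟨p, hp, Finset.mem_image_of_mem _ hd⟩, hc⟩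
  have hker : ∀ p q, φ p = φ q → φγ p = φγ q := by
    intro p q hpq
    have h1 : p - q ∈ Ideal.span (G : Set (MvPolynomial (T : Set Ω) L)) := by
      rw [hG]
      show φ (p - q) = 0
      rw [map_sub, hpq, sub_self]
    have h2 : Ideal.span (G : Set (MvPolynomial (T : Set Ω) L)) ≤ RingHom.ker φγ :=
      Ideal.span_le.mpr fun r hr => hgen r hr
    have h3 : φγ (p - q) = 0 := h2 h1
    rw [map_sub] at h3
    exact sub_eq_zero.mp h3
  have hsurj : ∀ e : IntermediateField.adjoin L (T : Set Ω), ∃ p, φ p = e := by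
    intro e
    have h1 : (e : Ω) ∈ (IntermediateField.adjoin L (T : Set Ω)).toSubalgebra := e.2
    rw [IntermediateField.adjoin_toSubalgebra, Algebra.adjoin_eq_range, ← hφ] at h1
    exact h1
  choose P hP using hsurj
  obtain ⟨ψ, hψ⟩ : ∃ ψ : IntermediateField.adjoin L (T : Set Ω) →ₐ[L] Ω, ∀ e, ψ e = φγ (P e) := by
    refine ⟨⟨⟨⟨⟨fun e => φγ (P e), ?_⟩, ?_⟩, ?_, ?_⟩, ?_⟩, fun _ => rfl⟩
    · rw [← map_one φγ]
      exact hker _ _ (by rw [hP, map_one]; rfl)
    · intro e e'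
      rw [← map_mul]
      exact hker _ _ (by rw [hP, map_mul, hP, hP]; rfl)
    · show φγ (P 0) = 0
      rw [← map_zero φγ]
      exact hker _ _ (by rw [hP, map_zero]; rfl)
    · intro e e'
      show φγ (P (e + e')) = φγ (P e) + φγ (P e')
      rw [← map_add]
      exact hker _ _ (by rw [hP, map_add, hP, hP]; rfl)
    · intro r
      show φγ (P (algebraMap _ _ r)) = algebraMap L Ω r
      rw [← AlgHom.commutes φγ r]
      exact hker _ _ (by rw [hP, AlgHom.commutes]; rfl)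
  obtain ⟨Φ, hΦ⟩ := IsAlgClosed.surjective_domRestrict_of_isAlgebraic (K := L)
    (L := IntermediateField.adjoin L (T : Set Ω)) (M := Ω) (E := Ω) ψ
  refine ⟨AlgEquiv.ofBijective Φ (Algebra.IsAlgebraic.algHom_bijective Φ), fun x hx => ?_⟩
  have h1 : Φ x = ψ ⟨x, IntermediateField.subset_adjoin L _ hx⟩ := by
    rw [← hΦ]
    rfl
  rw [AlgEquiv.ofBijective_apply, h1, hψ]
  have h2 : γ x = φγ (MvPolynomial.X ⟨x, hx⟩) := by
    rw [hφγ, MvPolynomial.aeval_X]
  rw [h2]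
  refine hker _ _ ?_
  rw [hP, hφ, MvPolynomial.aeval_X]

/-- A point over `L` is defined over `k'(t)` for some finite `k'`. -/
theorem exists_fin_stab (hΓ : FixFam L Γ) (R : Jac ℓ (f.map (algebraMap L Ω))) (hR : ∀ σ : Ω ≃ₐ[L] Ω, symJ (gs f σ) R = R) :
    ∃ k' : IntermediateField k F, FiniteDimensional k k' ∧
      ∀ γ ∈ Γ k', ∀ hγ : γ ∈ Sym (f.map (algebraMap L Ω)), symJ ⟨γ, hγ⟩ R = R := by
  obtain ⟨D, rfl⟩ := cl_surjective R
  obtain ⟨B, hB⟩ := misc_agree hΓ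
    (D.support.image Pt.x ∪ D.support.image Pt.y)
  have halg : Algebra.IsAlgebraic k F := IsAlgClosure.isAlgebraic
  refine ⟨IntermediateField.adjoin k (B : Set F),
    IntermediateField.finiteDimensional_adjoin fun x _ => Algebra.IsIntegral.isIntegral x,
    fun γ hγ hγ' => ?_⟩
  obtain ⟨σ, hσ⟩ := hB _ (fun c hc => IntermediateField.subset_adjoin k _ hc) γ hγ
  have h1 : D.mapDomain (Pt.sym (N := ℓ) (⟨γ, hγ'⟩ : Sym (f.map (algebraMap L Ω)))) =
      D.mapDomain (Pt.sym (gs f σ)) := by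
    refine Finsupp.mapDomain_congr fun P hP => ?_
    exact Pt.ext (hσ _ (Finset.mem_union_left _ (Finset.mem_image_of_mem _ hP)))
      (hσ _ (Finset.mem_union_right _ (Finset.mem_image_of_mem _ hP)))
  rw [symJ_cl, h1, ← symJ_cl, hR σ]

/-- The orbit map of a class is locally constant. -/
private lemma misb_loc (Q : Jac ℓ (f.map (algebraMap L Ω))) :
    IsLocallyConstant fun σ : Ω ≃ₐ[L] Ω => symJ (gs f σ) Q := by
  obtain ⟨E, rfl⟩ := cl_surjective Q
  rw [IsLocallyConstant.iff_exists_open]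
  intro σ₀
  let S : Set Ω := (fun P : Pt ℓ (f.map (algebraMap L Ω)) => P.x) '' (E.support : Set _) ∪
    (fun P : Pt ℓ (f.map (algebraMap L Ω)) => P.y) '' (E.support : Set _)
  have hSf : S.Finite := (E.support.finite_toSet.image _).union (E.support.finite_toSet.image _)
  let K : IntermediateField L Ω := IntermediateField.adjoin L S
  have halg : Algebra.IsAlgebraic L Ω := IsAlgClosure.isAlgebraic
  have : FiniteDimensional L K :=
    IntermediateField.finiteDimensional_adjoin fun x _ => Algebra.IsIntegral.isIntegral x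
  have hopen : IsOpen (K.fixingSubgroup : Set (Ω ≃ₐ[L] Ω)) := K.fixingSubgroup_isOpen
  refine ⟨(fun σ => σ₀⁻¹ * σ) ⁻¹' (K.fixingSubgroup : Set (Ω ≃ₐ[L] Ω)),
    hopen.preimage (continuous_const_mul σ₀⁻¹), ?_, ?_⟩
  · show σ₀⁻¹ * σ₀ ∈ K.fixingSubgroup
    rw [inv_mul_cancel]
    exact one_mem _
  · intro σ hσ
    have hσ' : σ₀⁻¹ * σ ∈ K.fixingSubgroup := hσ
    have hS : ∀ x ∈ S, σ x = σ₀ x := by
      intro x hx
      have h1 := (IntermediateField.mem_fixingSubgroup_iff K _).mp hσ' x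
        (IntermediateField.subset_adjoin L S hx)
      have h2 : σ₀ ((σ₀⁻¹ * σ) x) = σ x := σ₀.apply_symm_apply (σ x)
      rw [← h2, h1]
    show symJ (gs f σ) (cl E) = symJ (gs f σ₀) (cl E)
    rw [symJ_cl, symJ_cl]
    congr 1
    refine Finsupp.mapDomain_congr fun P hP => ?_
    refine Pt.ext ?_ ?_
    · exact hS P.x (Or.inl ⟨P, hP, rfl⟩)
    · exact hS P.y (Or.inr ⟨P, hP, rfl⟩)

/-- Intertwining automorphisms. -/
private lemma misb_comm (γ : Ω ≃+* Ω) (hγ : γ ∈ Sym (f.map (algebraMap L Ω))) (g h : Ω ≃ₐ[L] Ω)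
    (hgh : ∀ x, γ (g x) = h (γ x)) (Q : Jac ℓ (f.map (algebraMap L Ω))) :
    symJ ⟨γ, hγ⟩ (symJ (gs f g) Q) = symJ (gs f h) (symJ ⟨γ, hγ⟩ Q) := by
  rw [← symJ_mul, ← symJ_mul]
  have h1 : (⟨γ, hγ⟩ : Sym (f.map (algebraMap L Ω))) * gs f g = gs f h * ⟨γ, hγ⟩ := by
    apply Subtype.ext
    ext x
    exact hgh x
  rw [h1]

/-- The group of the points over `L` is killed by `ℓ` modulo `ℓ ^ n`. -/
theorem mordell_weil (hℓ : ℓ.Prime) (hΓ : FixFam L Γ)
    (hLT : ∀ Q : JacOver ℓ f Ω, LT fun σ => symJ (gs f σ) Q - Q) {m : ℕ}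
    (hNT : ∀ k' : IntermediateField k F, FiniteDimensional k k' → NTg ℓ m f LT (Γ k'))
    (R : Jac ℓ (f.map (algebraMap L Ω))) (hR : ∀ σ : Ω ≃ₐ[L] Ω, symJ (gs f σ) R = R) (n : ℕ) :
    ∃ R' : Jac ℓ (f.map (algebraMap L Ω)), (∀ σ : Ω ≃ₐ[L] Ω, symJ (gs f σ) R' = R') ∧
      m • R = ℓ ^ n • R' := by
  obtain ⟨ζ, hζ⟩ := misb_zeta (f.map (algebraMap L Ω)) hG
  obtain ⟨k', hk', hfix⟩ := exists_fin_stab hΓ R hR
  have hdiv : ∀ X : Jac ℓ (f.map (algebraMap L Ω)), ∃ Y, ℓ • Y = X :=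
    fun X => exists_smul_eq hℓ ζ hζ X
  choose D hD using hdiv
  let r : ℕ → Jac ℓ (f.map (algebraMap L Ω)) := fun n => Nat.rec R (fun _ r => D r) n
  have hr0 : r 0 = R := rfl
  have hr : ∀ n, ℓ • r (n + 1) = r n := fun n => hD (r n)
  have hrp : ∀ n, ℓ ^ n • r n = R := by
    intro n
    induction n with
    | zero => rw [pow_zero, one_smul, hr0]
    | succ n ih => rw [pow_succ, mul_smul, hr, ih]
  let c : ℕ → (Ω ≃ₐ[L] Ω) → JacOver ℓ f Ω := fun n σ => symJ (gs f σ) (r n) - r n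
  have hc : Wt.IsTateCocycle ℓ f c := by
    refine ⟨fun σ => ?_, fun n σ => ?_, fun n σ τ => ?_, fun n => ?_⟩
    · show symJ (gs f σ) (r 0) - r 0 = 0
      rw [hr0, hR, sub_self]
    · show ℓ • (symJ (gs f σ) (r (n + 1)) - r (n + 1)) = symJ (gs f σ) (r n) - r n
      rw [smul_sub, ← map_nsmul, hr]
    · show symJ (gs f (σ * τ)) (r n) - r n = (symJ (gs f σ) (r n) - r n) +
        symJ (gs f σ) (symJ (gs f τ) (r n) - r n)
      rw [map_mul, symJ_mul, map_sub]
      abel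
    · exact (misb_loc (r n)).comp (fun x => x - r n)
  have hloc : ∀ n, LT (c n) := fun n => hLT (r n)
  have hfx : ∀ (γ : Ω ≃+* Ω) hγ, γ ∈ Γ k' → Wt.IsFixedBy ℓ f c γ hγ := by
    intro γ hγ hγK
    have hRγ : symJ ⟨γ, hγ⟩ R = R := hfix γ hγK hγ
    refine ⟨1, Nat.one_pos, fun n => ⟨symJ ⟨γ, hγ⟩ (r n) - r n, ?_, fun g h hgh => ?_⟩⟩
    · rw [smul_sub, ← map_nsmul, hrp, hRγ, sub_self]
    · show 1 • (symJ ⟨γ, hγ⟩ (symJ (gs f g) (r n) - r n) - (symJ (gs f h) (r n) - r n)) =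
        symJ (gs f h) (symJ ⟨γ, hγ⟩ (r n) - r n) - (symJ ⟨γ, hγ⟩ (r n) - r n)
      rw [one_smul, map_sub, map_sub, misb_comm γ hγ g h hgh]
      abel
  obtain ⟨A, hA0, hA⟩ := hNT k' hk' c hc hloc hfx n
  refine ⟨m • r n - A, fun σ => ?_, ?_⟩
  · have h1 : m • (symJ (gs f σ) (r n) - r n) = symJ (gs f σ) A - A := hA σ
    rw [map_sub, map_nsmul]
    rw [smul_sub] at h1
    rw [sub_eq_sub_iff_add_eq_add] at h1 ⊢
    rw [h1]
    exact add_comm _ _
  · rw [smul_sub, hA0, sub_zero, smul_comm, hrp]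

end

section

variable {L Ω : Type} [Field L] [Field Ω] [Algebra L Ω] [IsAlgClosure L Ω] {ℓ : ℕ}
  {f : L[X]} [hG : IsGood ℓ (f.map (algebraMap L Ω))]

/-- The conjugate automorphism. -/
private lemma misb_conj (γ : Ω ≃+* Ω) (s : L ≃+* L)
    (hs : ∀ z : L, γ (algebraMap L Ω z) = algebraMap L Ω (s z)) (g' : Ω ≃ₐ[L] Ω) :
    ∃ g : Ω ≃ₐ[L] Ω, ∀ z, γ (g z) = g' (γ z) := by
  let e : Ω ≃+* Ω := (γ.trans (g' : Ω ≃+* Ω)).trans γ.symm
  have he : ∀ z, γ (e z) = g' (γ z) := fun z => γ.apply_symm_apply _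
  refine ⟨AlgEquiv.ofRingEquiv (f := e) fun y => ?_, fun z => he z⟩
  obtain ⟨z, hz⟩ : ∃ z : L, γ (algebraMap L Ω y) = algebraMap L Ω z := ⟨s y, hs y⟩
  apply γ.injective
  rw [he, hz, g'.commutes]

/-- The invariance of the cocycle, with the multiple `ℓ`. -/
theorem isFixedBy_of {m₀ : ℕ} (hm₀ : 0 < m₀) {c : ℕ → (Ω ≃ₐ[L] Ω) → Jac ℓ (f.map (algebraMap L Ω))} (hℓ : ℓ.Prime)
    (hc : Wt.IsTateCocycle ℓ f c)
    (hMW : ∀ (R : Jac ℓ (f.map (algebraMap L Ω))), (∀ σ : Ω ≃ₐ[L] Ω, symJ (gs f σ) R = R) → ∀ n : ℕ,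
      ∃ R' : Jac ℓ (f.map (algebraMap L Ω)), (∀ σ : Ω ≃ₐ[L] Ω, symJ (gs f σ) R' = R') ∧
        m₀ • R = ℓ ^ n • R')
    (γ : Ω ≃+* Ω) (hγ : (f.map (algebraMap L Ω)).map (γ : Ω →+* Ω) = f.map (algebraMap L Ω))
    (s : L ≃+* L) (hs : ∀ z : L, γ (algebraMap L Ω z) = algebraMap L Ω (s z))
    (h : ∀ n, ∃ m : ℕ, m.Coprime ℓ ∧ ∃ Q : Jac ℓ (f.map (algebraMap L Ω)), ∀ g g' : Ω ≃ₐ[L] Ω,
      (∀ z, γ (g z) = g' (γ z)) →
        m • (symJ ⟨γ, hγ⟩ (c n g) - c n g') = symJ (gs f g') Q - Q) :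
    Wt.IsFixedBy ℓ f c γ hγ := by
  refine ⟨m₀, hm₀, fun n => ?_⟩
  obtain ⟨m, hm, Q, hQ⟩ := h n
  have hc0 : ∀ n σ, ℓ ^ n • c n σ = 0 := by
    intro n σ
    induction n with
    | zero => rw [hc.zero, smul_zero]
    | succ n ih => rw [pow_succ, mul_smul, hc.smul, ih]
  obtain ⟨u, hu⟩ : ∃ u : ℕ, u * m ≡ 1 [MOD ℓ ^ n] := by
    rcases Nat.eq_zero_or_pos n with h0 | h0
    · exact ⟨0, by rw [h0, pow_zero]; exact Nat.modEq_one⟩
    · have hk : 1 < ℓ ^ n := Nat.one_lt_pow h0.ne' hℓ.one_lt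
      obtain ⟨u, -, hu⟩ := Nat.exists_mul_mod_eq_one_of_coprime (Nat.Coprime.pow_right n hm) hk
      refine ⟨u, ?_⟩
      show u * m % ℓ ^ n = 1 % ℓ ^ n
      rw [mul_comm, hu, Nat.mod_eq_of_lt hk]
  have key : ∀ X : Jac ℓ (f.map (algebraMap L Ω)), ℓ ^ n • X = 0 → (u * m) • X = X := by
    intro X hX
    have h1 : ∀ a : ℕ, a • X = (a % ℓ ^ n) • X := by
      intro a
      conv_lhs => rw [← Nat.mod_add_div a (ℓ ^ n)]
      rw [add_smul, mul_comm (ℓ ^ n), mul_smul, hX, smul_zero, add_zero]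
    rw [h1 (u * m), hu, ← h1 1, one_smul]
  have hδ : ∀ g g' : Ω ≃ₐ[L] Ω, (∀ z, γ (g z) = g' (γ z)) →
      symJ ⟨γ, hγ⟩ (c n g) - c n g' = symJ (gs f g') (u • Q) - u • Q := by
    intro g g' hgg
    have h0 : ℓ ^ n • (symJ ⟨γ, hγ⟩ (c n g) - c n g') = 0 := by
      rw [smul_sub, ← map_nsmul, hc0, hc0, map_zero, sub_zero]
    rw [← key _ h0, mul_smul, hQ g g' hgg, map_nsmul, ← smul_sub]
  have hfix : ∀ σ : Ω ≃ₐ[L] Ω, symJ (gs f σ) (ℓ ^ n • u • Q) = ℓ ^ n • u • Q := by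
    intro σ
    obtain ⟨g, hg⟩ := misb_conj γ s hs σ
    have h1 := hδ g σ hg
    have h0 : ℓ ^ n • (symJ ⟨γ, hγ⟩ (c n g) - c n σ) = 0 := by
      rw [smul_sub, ← map_nsmul, hc0, hc0, map_zero, sub_zero]
    rw [h1, smul_sub, ← map_nsmul] at h0
    exact sub_eq_zero.mp h0
  obtain ⟨R', hR', hR⟩ := hMW _ hfix n
  refine ⟨m₀ • u • Q - R', ?_, fun g g' hgg => ?_⟩
  · rw [smul_sub, ← hR, smul_comm, sub_self]
  · show m₀ • (symJ ⟨γ, hγ⟩ (c n g) - c n g') = symJ (gs f g') (m₀ • u • Q - R') - (m₀ • u • Q - R')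
    rw [hδ g g' hgg, map_sub, hR', smul_sub, ← map_nsmul]
    abel

end

end Pool.Agent.Lib.MP_89bcae_ag.Brt

end

section

namespace Pool.Agent.Lib.MP_89bcae_ag.Wt.Lns.LocCtx
end Pool.Agent.Lib.MP_89bcae_ag.Wt.Lns.LocCtx


/-!
# Automorphisms over the cover
-/

open Polynomial IsDedekindDomain IsLocalRing

open scoped Classical

namespace Pool.Agent.Lib.MP_89bcae_ag.Brt



open Pool.Agent.Lib.MP_89bcae_ag.Wt Pool.Agent.Lib.MP_89bcae_ag.Wt.Lns Pool.Agent.Lib.MP_89bcae_ag.Bra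

/-! ROW B6 -/

section

variable {k F L L' Ω : Type} [Field k] [Field F] [Algebra k F] [Field L] [Algebra F[X] L]
  [IsFractionRing F[X] L] [Field L'] [Algebra L L'] [Algebra F[X] L'] [IsScalarTower F[X] L L']
  [Field Ω] [Algebra L Ω] [Algebra L' Ω] [IsScalarTower L L' Ω] {s : L'}

omit [Field L'] [Algebra L L'] [Algebra F[X] L'] [IsScalarTower F[X] L L'] [Algebra L' Ω]
  [IsScalarTower L L' Ω] in
private lemma b6a_base (s' : Ω) (z : L) : ∃ B : Finset F, ∀ k' : IntermediateField k F,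
    (∀ c ∈ B, c ∈ k') → ∀ γ ∈ AutC F L s' k', γ (algebraMap L Ω z) = algebraMap L Ω z := by
  obtain ⟨p, q, hq, rfl⟩ := IsFractionRing.div_surjective (A := F[X]) z
  refine ⟨p.support.image p.coeff ∪ q.support.image q.coeff, fun k' hk' γ hγ => ?_⟩
  have key : ∀ r : F[X], (∀ n ∈ r.support, r.coeff n ∈ k') →
      γ (algebraMap L Ω (algebraMap F[X] L r)) = algebraMap L Ω (algebraMap F[X] L r) := by
    intro r hr
    have h1 : r ∈ Polynomial.lifts (algebraMap k' F) := by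
      rw [Polynomial.lifts_iff_coeff_lifts]
      intro n
      by_cases hn : n ∈ r.support
      · exact ⟨⟨r.coeff n, hr n hn⟩, rfl⟩
      · exact ⟨0, by rw [map_zero, notMem_support_iff.mp hn]⟩
    obtain ⟨r', hr'⟩ := (Polynomial.mem_lifts _).mp h1
    have h2 : γ (base k' F L Ω r') = base k' F L Ω r' :=
      hγ _ (Subfield.subset_closure (Set.mem_insert_of_mem _ ⟨r', rfl⟩))
    have h3 : base k' F L Ω r' = algebraMap L Ω (algebraMap F[X] L r) := by
      rw [← hr']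
      rfl
    rwa [h3] at h2
  rw [map_div₀, map_div₀,
    key p fun n hn => hk' _ (Finset.mem_union_left _ (Finset.mem_image_of_mem _ hn)),
    key q fun n hn => hk' _ (Finset.mem_union_right _ (Finset.mem_image_of_mem _ hn))]

/-- PROOF. The elements `z` of `L'` with this property form a subfield; it contains the constants `c` in `F` (`B = {c}`: `c` is in
`k'(t, s)` if `c` is in `k'`), `t` and `s`; so it contains `L` (`IsFractionRing.div_surjective`) and `L(s) = L'`. -/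
theorem fixFam (hs : IntermediateField.adjoin L {s} = ⊤) :
    FixFam (k := k) L' (AutC F L (algebraMap L' Ω s)) := by
  intro z
  have hz : z ∈ IntermediateField.adjoin L {s} := by
    rw [hs]
    exact IntermediateField.mem_top
  refine IntermediateField.adjoin_induction L
    (p := fun x _ => ∃ B : Finset F, ∀ k' : IntermediateField k F, (∀ c ∈ B, c ∈ k') →
      ∀ γ ∈ AutC F L (algebraMap L' Ω s) k', γ (algebraMap L' Ω x) = algebraMap L' Ω x)
    ?_ ?_ ?_ ?_ ?_ hz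
  · intro x hx
    refine ⟨∅, fun k' _ γ hγ => ?_⟩
    rw [Set.mem_singleton_iff.mp hx]
    exact hγ _ (Subfield.subset_closure (Set.mem_insert _ _))
  · intro x
    obtain ⟨B, hB⟩ := b6a_base (k := k) (F := F) (algebraMap L' Ω s) x
    refine ⟨B, fun k' hk' γ hγ => ?_⟩
    rw [← IsScalarTower.algebraMap_apply L L' Ω]
    exact hB k' hk' γ hγ
  · rintro x y _ _ ⟨B, hB⟩ ⟨B', hB'⟩
    refine ⟨B ∪ B', fun k' hk' γ hγ => ?_⟩
    rw [map_add, map_add, hB k' (fun c hc => hk' c (Finset.mem_union_left _ hc)) γ hγ,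
      hB' k' (fun c hc => hk' c (Finset.mem_union_right _ hc)) γ hγ]
  · rintro x _ ⟨B, hB⟩
    refine ⟨B, fun k' hk' γ hγ => ?_⟩
    rw [map_inv₀, map_inv₀, hB k' hk' γ hγ]
  · rintro x y _ _ ⟨B, hB⟩ ⟨B', hB'⟩
    refine ⟨B ∪ B', fun k' hk' γ hγ => ?_⟩
    rw [map_mul, map_mul, hB k' (fun c hc => hk' c (Finset.mem_union_left _ hc)) γ hγ,
      hB' k' (fun c hc => hk' c (Finset.mem_union_right _ hc)) γ hγ]

end

end Pool.Agent.Lib.MP_89bcae_ag.Brt

end

section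

namespace Pool.Agent.Lib.MP_89bcae_ag.Wt.Lns.LocCtx
end Pool.Agent.Lib.MP_89bcae_ag.Wt.Lns.LocCtx


/-!
# Automorphisms over the cover and constants
-/

open Polynomial IsDedekindDomain IsLocalRing

open scoped Classical

namespace Pool.Agent.Lib.MP_89bcae_ag.Brt



open Pool.Agent.Lib.MP_89bcae_ag.Wt Pool.Agent.Lib.MP_89bcae_ag.Wt.Lns Pool.Agent.Lib.MP_89bcae_ag.Bra

/-! ROW B6 -/

section

variable {k F L L' Ω : Type} [Field k] [Field F] [Algebra k F] [Field L] [Algebra F[X] L]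
  [IsFractionRing F[X] L] [Field L'] [Algebra L L'] [Algebra F[X] L'] [IsScalarTower F[X] L L']
  [Field Ω] [Algebra L Ω] [Algebra L' Ω] [IsScalarTower L L' Ω] {s : L'}

omit [Algebra F[X] L'] [IsScalarTower F[X] L L'] in
private lemma b6b_range [IsAlgClosure k F] [IsAlgClosure L Ω]
    (hs : IntermediateField.adjoin L {s} = ⊤)
    (k' : IntermediateField k F) {γ : Ω ≃+* Ω} (hγ : γ ∈ AutC F L (algebraMap L' Ω s) k')
    (z : L') : ∃ w : L', γ (algebraMap L' Ω z) = algebraMap L' Ω w := by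
  have hK : γ ∈ AutK k F L Ω k' := by
    intro p
    exact hγ _ (Subfield.subset_closure (Set.mem_insert_of_mem _ ⟨p, rfl⟩))
  obtain ⟨s0, -, hs0⟩ := exists_of_mem_autK k' hK
  have hz : z ∈ IntermediateField.adjoin L {s} := by
    rw [hs]
    exact IntermediateField.mem_top
  refine IntermediateField.adjoin_induction L
    (p := fun x _ => ∃ w : L', γ (algebraMap L' Ω x) = algebraMap L' Ω w) ?_ ?_ ?_ ?_ ?_ hz
  · intro x hx
    rw [Set.mem_singleton_iff.mp hx]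
    exact ⟨s, hγ _ (Subfield.subset_closure (Set.mem_insert _ _))⟩
  · intro x
    obtain ⟨p, q, hq, rfl⟩ := IsFractionRing.div_surjective (A := F[X]) x
    refine ⟨algebraMap L L' (algebraMap F[X] L (p.map (s0 : F →+* F)) /
      algebraMap F[X] L (q.map (s0 : F →+* F))), ?_⟩
    rw [← IsScalarTower.algebraMap_apply L L' Ω, ← IsScalarTower.algebraMap_apply L L' Ω,
      map_div₀, map_div₀, hs0, hs0, map_div₀]
  · rintro x y _ _ ⟨a, ha⟩ ⟨b, hb⟩
    exact ⟨a + b, by rw [map_add, map_add, map_add, ha, hb]⟩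
  · rintro x _ ⟨a, ha⟩
    exact ⟨a⁻¹, by rw [map_inv₀, map_inv₀, map_inv₀, ha]⟩
  · rintro x y _ _ ⟨a, ha⟩ ⟨b, hb⟩
    exact ⟨a * b, by rw [map_mul, map_mul, map_mul, ha, hb]⟩

/-- PROOF. `γ` fixes `k'[t]`, so `Bra.exists_of_mem_autK` (`Bra/Mis.lean`) gives the action on `F`, and `γ` maps the image of `L` onto
itself; `γ s = s`, so it maps the image of `L' = L(s)` onto itself. -/
theorem exists_of_mem_autC [IsAlgClosure k F] [IsAlgClosure L Ω] (hs : IntermediateField.adjoin L {s} = ⊤)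
    (k' : IntermediateField k F) {γ : Ω ≃+* Ω} (hγ : γ ∈ AutC F L (algebraMap L' Ω s) k') :
    ∃ σ : L' ≃+* L', (∀ z, γ (algebraMap L' Ω z) = algebraMap L' Ω (σ z)) ∧ σ s = s ∧
      ∀ c ∈ k', σ (algebraMap F[X] L' (C c)) = algebraMap F[X] L' (C c) := by
  have hγ' : γ.symm ∈ AutC F L (algebraMap L' Ω s) k' := by
    intro z hz
    rw [RingEquiv.symm_apply_eq]
    exact (hγ z hz).symm
  choose σ hσ using b6b_range hs k' hγ
  choose τ hτ using b6b_range hs k' hγ'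
  have hinj : Function.Injective (algebraMap L' Ω) := (algebraMap L' Ω).injective
  let e : L' ≃+* L' :=
    { toFun := σ
      invFun := τ
      left_inv := fun z => hinj (by rw [← hτ, ← hσ, RingEquiv.symm_apply_apply])
      right_inv := fun z => hinj (by rw [← hσ, ← hτ, RingEquiv.apply_symm_apply])
      map_mul' := fun x y => hinj (by rw [← hσ, map_mul, map_mul, map_mul, hσ, hσ])
      map_add' := fun x y => hinj (by rw [← hσ, map_add, map_add, map_add, hσ, hσ]) }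
  refine ⟨e, hσ, hinj ?_, fun c hc => hinj ?_⟩
  · show algebraMap L' Ω (σ s) = algebraMap L' Ω s
    rw [← hσ]
    exact hγ _ (Subfield.subset_closure (Set.mem_insert _ _))
  · show algebraMap L' Ω (σ (algebraMap F[X] L' (C c))) = algebraMap L' Ω (algebraMap F[X] L' (C c))
    rw [← hσ]
    have h1 : algebraMap L' Ω (algebraMap F[X] L' (C c)) = base k' F L Ω (C ⟨c, hc⟩) := by
      rw [IsScalarTower.algebraMap_apply F[X] L L', ← IsScalarTower.algebraMap_apply L L' Ω]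
      simp [base]
    rw [h1]
    exact hγ _ (Subfield.subset_closure (Set.mem_insert_of_mem _ ⟨_, rfl⟩))

end

end Pool.Agent.Lib.MP_89bcae_ag.Brt

end

end
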