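import Mathlib
import Pool.Agent.Lib.MP_89bcae_ag.Tk.K000
import Pool.Agent.Lib.MP_89bcae_ag.Tk.K013
import Pool.Agent.Lib.MP_89bcae_ag.Tk.K019
import Pool.Agent.Lib.MP_89bcae_ag.Tk.K027

set_option linter.all false

section

attribute [local instance 100000] Pool.Agent.Lib.MP_89bcae_ag.Brt.tffFields
attribute [local instance 100000] Pool.Agent.Lib.MP_89bcae_ag.Wt.ifrNF Pool.Agent.Lib.MP_89bcae_ag.Wt.iddNF

section

/-!
ROW G11 (200-350 lines). The Kummer functions of a Tate cocycle.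

Let `c₁(σ) = v (c 1 σ)`. STATEMENT: there are a monic polynomial `P` over `F`, such that the sum of the
multiplicities in `P` of the roots of `g(x) = a` is divisible by `ℓ` for each `a`, and `z : Ω → Ω` with
`(z θ)^ℓ = P(θ)` for the roots `θ` of `g(x) = t`, such that `c₁(σ) = ram n` whenever
`σ (z θ) = ζ^{n(σθ)} z(σθ)` for all roots `θ`.

PROOF. `ℓ c_1 = c_0 = 0`, so `π c₁(σ) = ℓ c_1(σ) = 0` (`vJ_sub_zJ`) and `c₁(σ) = ram e_σ` (R18 (B)). `m = deg g`
is the number of the roots and is prime to `ℓ`, so, adding a constant (R18 (C)), we may assume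
`∑_θ e_σ(θ) ≡ 0` modulo `ℓ`, and then the residues modulo `ℓ` of the `e_σ(θ)`, `θ` a root, are unique.
Cocycle: `c₁(στ) = c₁(σ) + σ c₁(τ)`, so `e_{στ}(θ) ≡ e_σ(θ) + e_τ(σ⁻¹θ)` (`symJ_ram`, uniqueness).
Locally constant: `c 1` is, so there is a finite set `S` of elements of `Ω` such that `c 1 σ = 0` for all
`σ` fixing `S` (`c 1 1 = 0`, Krull topology). Fix a root `θ₀`, `H` its stabilizer, `χ(σ) = e_σ(θ₀)` mod
`ℓ`, additive on `H`. G09: `z₀ ≠ 0` with `σ z₀ = ζ^{χ(σ)} z₀` for `σ` in `H`. `z₀^ℓ` is fixed by `H`, so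
(G10 (2)) `z₀^{ℓ p^s} = A(θ₀)/B(θ₀)`; choose `j` with `p^s j ≡ 1` modulo `ℓ` and replace `z₀` by
`z₀^{p^s j}` (same character), so `z₀^ℓ = A(θ₀)/B(θ₀)` (new `A`, `B`), and then `z₀` by
`z₀ B(θ₀)` and divide by an `ℓ`-th root of the leading coefficient: `z₀^ℓ = P(θ₀)`, `P` monic.
For each root `θ` choose `σ_θ` with `σ_θ θ₀ = θ` (`exists_gal_root`) and put
`z θ = ζ^{-e_{σ_θ}(θ)} σ_θ(z₀)`. Then for all `σ` and `θ`: `σ (z θ) = ζ^{e_σ(σθ)} z(σθ)`: write
`σ σ_θ = σ_{σθ} h` with `h` in `H` and use the cocycle relation. `(z θ)^ℓ = σ_θ(P(θ₀)) = P(θ)`. If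
`σ (z θ) = ζ^{n(σθ)} z(σθ)` for all `θ` then `n ≡ e_σ` on the roots, `c₁(σ) = ram n` (`ram_congr`).
Fibre sums: `w = ∏_θ z θ` satisfies `σ w = ζ^{∑ e_σ} w = w`, so `w^{p^s}` is in `L`
(`exists_pow_mem_L`), and `w^ℓ = ∏_θ P(θ) = ∏_β (±(g(β) - t))^{mult β}` (`prod_rts_sub`), so
`∏_a (t - a)^{p^s ∑_{g(β)=a} mult β} = ` constant times an `ℓ`-th power in `F(t)`; use
`dvd_of_prod_eq_pow` with `θ := t` (`tA_injective`; elements of `L` are quotients of polynomials in `t`).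
-/

open Polynomial IsDedekindDomain

open scoped Classical

namespace Pool.Agent.Lib.MP_89bcae_ag.Sup

universe u

section

variable {ℓ : ℕ} {E : Type u} [Field E] {f : E[X]} [hG : IsGood ℓ f]

omit hG in
private lemma g11_mem_rts {θ : E} (hG : IsGood ℓ f) : θ ∈ rts f ↔ f.eval θ = 0 :=
  mem_rts hG.separable.ne_zero

omit hG in
private lemma g11_card_ne (hG : IsGood ℓ f) : ((rts f).card : ZMod ℓ) ≠ 0 := by
  have := hG.alg
  have h1 : (rts f).card = f.natDegree := by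
    unfold rts
    rw [Multiset.toFinset_card_of_nodup (nodup_roots hG.separable),
      IsAlgClosed.card_roots_eq_natDegree]
  rw [h1, Ne, ZMod.natCast_eq_zero_iff]
  intro h2
  have h3 := Nat.Coprime.eq_one_of_dvd hG.coprime.symm h2
  exact hG.prime.one_lt.ne' h3

/-- The exponents normalized by their sum are unique modulo `ℓ`. -/
lemma G11_unique {ζ : E} (hζ : IsPrimitiveRoot ζ ℓ) (e e' : E → ℤ)
    (h : (ram e : Jac ℓ f) = ram e')
    (hs : ∑ θ ∈ rts f, (e θ : ZMod ℓ) = ∑ θ ∈ rts f, (e' θ : ZMod ℓ)) :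
    ∀ θ ∈ rts f, (e θ : ZMod ℓ) = e' θ := by
  have hp : Fact ℓ.Prime := ⟨hG.prime⟩
  have h1 : (ram (fun θ => e θ - e' θ) : Jac ℓ f) = 0 := by rw [ram_sub, h, sub_self]
  obtain ⟨c, hc⟩ := (ram_eq_zero_iff ζ hζ _).1 h1
  have h2 : ∀ θ ∈ rts f, (e θ : ZMod ℓ) - e' θ = c := by
    intro θ hθ
    have h3 := (ZMod.intCast_zmod_eq_zero_iff_dvd _ ℓ).2 (hc θ ((g11_mem_rts hG).1 hθ))
    push_cast at h3
    exact sub_eq_zero.1 h3
  have h4 : ((rts f).card : ZMod ℓ) * c = 0 := by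
    rw [← nsmul_eq_mul, ← Finset.sum_const, ← Finset.sum_congr rfl h2, Finset.sum_sub_distrib, hs,
      sub_self]
  have h5 : (c : ZMod ℓ) = 0 := (mul_eq_zero.1 h4).resolve_left (g11_card_ne hG)
  intro θ hθ
  rw [← sub_eq_zero, h2 θ hθ, h5]

/-- Normalized exponents exist. -/
lemma G11_exists {ζ : E} (hζ : IsPrimitiveRoot ζ ℓ) (Q : Jac ℓ f)
    (hQ : zJ ζ hζ.pow_eq_one Q = Q) :
    ∃ e : E → ℤ, Q = ram e ∧ ∑ θ ∈ rts f, (e θ : ZMod ℓ) = 0 := by
  have hp : Fact ℓ.Prime := ⟨hG.prime⟩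
  obtain ⟨e, he⟩ := exists_ram_of_zJ_eq ζ hζ Q hQ
  set a : ZMod ℓ := (∑ θ ∈ rts f, (e θ : ZMod ℓ)) / ((rts f).card : ZMod ℓ) with ha
  refine ⟨fun θ => e θ - (a.val : ℤ), ?_, ?_⟩
  · have h1 : (ram (fun _ => (a.val : ℤ)) : Jac ℓ f) = 0 :=
      (ram_eq_zero_iff ζ hζ _).2 ⟨a.val, fun _ _ => by simp⟩
    have h2 := ram_sub (ℓ := ℓ) (f := f) e (fun _ => (a.val : ℤ))
    rw [h1, sub_zero] at h2
    rw [he, h2]
  · have h3 : ∀ θ ∈ rts f, (((e θ - (a.val : ℤ) : ℤ)) : ZMod ℓ) = (e θ : ZMod ℓ) - a := by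
      intro θ _
      rw [Int.cast_sub, Int.cast_natCast, ZMod.natCast_zmod_val]
    rw [Finset.sum_congr rfl h3, Finset.sum_sub_distrib, Finset.sum_const, nsmul_eq_mul, ha,
      mul_div_cancel₀ _ (g11_card_ne hG), sub_self]


end

variable {k F L Ω : Type u} [Field k] [Field F] [Algebra k F] [Field L] [Algebra F[X] L]
  [Field Ω] [Algebra L Ω] [IsAlgClosure k F] [IsFractionRing F[X] L] [IsAlgClosure L Ω]
  [Algebra F Ω] {ℓ : ℕ} {g D : k[X]} [hG : IsGood ℓ (cOver k F L Ω g D)] {ζ : k}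


omit [IsAlgClosure k F] [IsFractionRing F[X] L] [IsAlgClosure L Ω] [Algebra F Ω] in
private lemma g11_zA (ζ : k) (σ : Ω ≃ₐ[L] Ω) : σ (zA F L Ω ζ) = zA F L Ω ζ :=
  σ.commutes _

omit [IsAlgClosure k F] [IsFractionRing F[X] L] [IsAlgClosure L Ω] in
private lemma g11_const (hF : CompatF F L Ω) (σ : Ω ≃ₐ[L] Ω) (c : F) :
    σ (algebraMap F Ω c) = algebraMap F Ω c := by
  rw [hF c]
  exact σ.commutes _

omit [IsAlgClosure k F] [IsFractionRing F[X] L] [IsAlgClosure L Ω] in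
private lemma g11_aeval (hF : CompatF F L Ω) (σ : Ω ≃ₐ[L] Ω) (θ : Ω) (P : F[X]) :
    σ (aeval θ P) = aeval (σ θ) P := by
  have h1 : (((σ : Ω ≃+* Ω) : Ω →+* Ω).comp (aeval θ : F[X] →ₐ[F] Ω) : F[X] →+* Ω) =
      ((aeval (σ θ) : F[X] →ₐ[F] Ω) : F[X] →+* Ω) := by
    apply Polynomial.ringHom_ext
    · intro c
      simp only [RingHom.comp_apply, RingHom.coe_coe, aeval_C]
      exact g11_const hF σ c
    · simp only [RingHom.comp_apply, RingHom.coe_coe, aeval_X]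
      rfl
  exact RingHom.congr_fun h1 P

omit [IsAlgClosure k F] [IsFractionRing F[X] L] [IsAlgClosure L Ω] in
private lemma g11_poly_t (hF : CompatF F L Ω) (p : F[X]) :
    algebraMap L Ω (algebraMap F[X] L p) = aeval (tA F L Ω) p := by
  have h1 : ((algebraMap L Ω).comp (algebraMap F[X] L) : F[X] →+* Ω) =
      ((aeval (tA F L Ω) : F[X] →ₐ[F] Ω) : F[X] →+* Ω) := by
    apply Polynomial.ringHom_ext
    · intro c
      simp only [RingHom.comp_apply, RingHom.coe_coe, aeval_C]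
      exact (hF c).symm
    · simp only [RingHom.comp_apply, RingHom.coe_coe, aeval_X]
      rfl
  exact RingHom.congr_fun h1 p

private lemma g11_coprime {K : Type*} [Field K] {ℓ : ℕ} (hℓ : ℓ.Prime) (h : (ℓ : K) ≠ 0) :
    ℓ.Coprime (ringExpChar K) := by
  have h1 := ringExpChar.expChar K
  generalize ringExpChar K = q at h1 ⊢
  cases h1 with
  | zero => exact Nat.coprime_one_right ℓ
  | prime hp =>
    rw [Nat.coprime_primes hℓ hp]
    rintro rfl
    exact h (CharP.cast_eq_zero K _)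


/-- The Kummer generator of the character of the stabilizer of a root. -/
lemma G11_exists_z (hF : CompatF F L Ω) (H : GlobHyp ℓ g D ζ) {θ₀ : Ω}
    (hθ : θ₀ ∈ rts (cOver k F L Ω g D)) (χ : (Ω ≃ₐ[L] Ω) → ZMod ℓ)
    (hχ : ∀ σ τ : Ω ≃ₐ[L] Ω, σ θ₀ = θ₀ → τ θ₀ = θ₀ → χ (σ * τ) = χ σ + χ τ) (S : Finset Ω)
    (hS : ∀ σ : Ω ≃ₐ[L] Ω, σ θ₀ = θ₀ → (∀ x ∈ S, σ x = x) → χ σ = 0) :
    ∃ (z : Ω) (P : F[X]), z ≠ 0 ∧ P.Monic ∧ z ^ ℓ = aeval θ₀ P ∧
      ∀ σ : Ω ≃ₐ[L] Ω, σ θ₀ = θ₀ → σ z = zA F L Ω ζ ^ (χ σ).val * z := by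
  have hp : Fact ℓ.Prime := ⟨H.prime⟩
  have hFc : IsAlgClosed F := IsAlgClosure.isAlgClosed k
  have hζ : IsPrimitiveRoot (zA F L Ω ζ) ℓ := zA_primitive H
  have hN : Normal L Ω := IsAlgClosure.normal L Ω
  obtain ⟨z₀, hz₀, hz⟩ := exists_kummer_char hζ (MulAction.stabilizer (Ω ≃ₐ[L] Ω) θ₀)
    (fun σ _ => g11_zA ζ σ) χ (fun σ hσ τ hτ => hχ σ τ hσ hτ) S (fun σ hσ => hS σ hσ)
  have hz' : ∀ σ : Ω ≃ₐ[L] Ω, σ θ₀ = θ₀ → σ z₀ = zA F L Ω ζ ^ (χ σ).val * z₀ :=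
    fun σ hσ => hz σ hσ
  obtain ⟨s, A, B, hB, hAB⟩ := exists_pow_eq_quot hF H hθ (z₀ ^ ℓ) (by
    intro σ hσ
    rw [map_pow, hz' σ hσ, mul_pow, ← pow_mul, mul_comm (χ σ).val, pow_mul, hζ.pow_eq_one,
      one_pow, one_mul])
  generalize hq : ringExpChar k ^ s = q at hAB
  have hcop : ℓ.Coprime q := by
    rw [← hq]
    exact (g11_coprime H.prime H.ne).pow_right s
  obtain ⟨j, -, hj⟩ := Nat.exists_mul_mod_eq_one_of_coprime hcop.symm H.prime.one_lt
  have hζq : ∀ i : ℕ, (zA F L Ω ζ ^ i) ^ (q * j) = zA F L Ω ζ ^ i := by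
    intro i
    have h1 := Nat.div_add_mod (q * j) ℓ
    rw [hj] at h1
    rw [← pow_mul, mul_comm i, pow_mul]
    congr 1
    rw [← h1, pow_succ, pow_mul, hζ.pow_eq_one, one_pow, one_mul]
  have hB0 : aeval θ₀ (B ^ j) ≠ 0 := by
    rw [map_pow]
    apply pow_ne_zero
    rw [Ne, map_eq_zero_iff _ (aeval_root_injective hF H hθ)]
    exact hB
  have hz1 : (z₀ ^ (q * j)) ^ ℓ = aeval θ₀ (A ^ j) / aeval θ₀ (B ^ j) := by
    rw [← pow_mul, mul_comm (q * j) ℓ, ← mul_assoc, pow_mul, pow_mul z₀, hAB, div_pow, map_pow,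
      map_pow]
  set P' : F[X] := A ^ j * (B ^ j) ^ (ℓ - 1) with hP'
  have hz2 : (z₀ ^ (q * j) * aeval θ₀ (B ^ j)) ^ ℓ = aeval θ₀ P' := by
    obtain ⟨n, hn⟩ := Nat.exists_eq_succ_of_ne_zero H.prime.ne_zero
    rw [mul_pow, hz1, hP', map_mul, map_pow _ (B ^ j)]
    rw [hn]
    rw [Nat.succ_sub_one, pow_succ]
    field_simp
  have hz20 : z₀ ^ (q * j) * aeval θ₀ (B ^ j) ≠ 0 := mul_ne_zero (pow_ne_zero _ hz₀) hB0
  have hP0 : P' ≠ 0 := by
    intro h1
    rw [h1, map_zero] at hz2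
    exact pow_ne_zero _ hz20 hz2
  obtain ⟨d, hd⟩ := IsAlgClosed.exists_pow_nat_eq (P'.leadingCoeff⁻¹) H.prime.pos
  have hd0 : d ≠ 0 := by
    rintro rfl
    rw [zero_pow H.prime.ne_zero] at hd
    exact inv_ne_zero (leadingCoeff_ne_zero.2 hP0) hd.symm
  refine ⟨z₀ ^ (q * j) * aeval θ₀ (B ^ j) * algebraMap F Ω d, P' * C (P'.leadingCoeff⁻¹),
    mul_ne_zero hz20 ?_, monic_mul_leadingCoeff_inv hP0, ?_, ?_⟩
  · rwa [Ne, map_eq_zero_iff _ (algebraMap F Ω).injective]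
  · rw [mul_pow, hz2, ← map_pow, hd, map_mul (aeval θ₀) P', aeval_C]
  · intro σ hσ
    rw [map_mul, map_mul, map_pow, hz' σ hσ, mul_pow, hζq, g11_aeval hF, hσ, g11_const hF]
    ring

/-- The sums of the multiplicities over the fibres. -/
lemma G11_fibre (hF : CompatF F L Ω) (H : GlobHyp ℓ g D ζ) {P : F[X]} (hP : P.Monic)
    (z : Ω → Ω) (hz : ∀ θ ∈ rts (cOver k F L Ω g D), z θ ^ ℓ = aeval θ P)
    (hfix : ∀ σ : Ω ≃ₐ[L] Ω, σ (∏ θ ∈ rts (cOver k F L Ω g D), z θ) =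
      ∏ θ ∈ rts (cOver k F L Ω g D), z θ) (a : F) :
    ℓ ∣ ∑ β ∈ (g.map (algebraMap k F) - C a).roots.toFinset, P.rootMultiplicity β := by
  have hFc : IsAlgClosed F := IsAlgClosure.isAlgClosed k
  obtain ⟨s, y, hy⟩ := exists_pow_mem_L _ hfix
  generalize hq : ringExpChar L ^ s = q at hy
  have hLne : (ℓ : L) ≠ 0 := by
    have h1 := H.ne
    intro h2
    apply h1
    have h3 : ((algebraMap F[X] L).comp (C.comp (algebraMap k F))) (ℓ : k) = 0 := by
      rw [map_natCast, h2]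
    exact (map_eq_zero _).1 h3
  have hcop : ℓ.Coprime q := by
    rw [← hq]
    exact (g11_coprime H.prime hLne).pow_right s
  set M : F → ℕ := fun a =>
    ∑ β ∈ (g.map (algebraMap k F) - C a).roots.toFinset, P.rootMultiplicity β with hMdef
  have hmem : ∀ β a, β ∈ (g.map (algebraMap k F) - C a).roots.toFinset ↔ aeval β g = a := by
    intro β a
    have h1 : g.map (algebraMap k F) - C a ≠ 0 := by
      intro h2
      have h3 := congrArg natDegree (sub_eq_zero.1 h2)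
      rw [natDegree_C, natDegree_map] at h3
      have h4 := H.cop
      rw [h3, Nat.coprime_zero_left] at h4
      exact H.prime.one_lt.ne' h4
    rw [Multiset.mem_toFinset, mem_roots h1, IsRoot.def, eval_sub, eval_C, eval_map_algebraMap,
      sub_eq_zero]
  have hM : ∀ a, M a = ∑ β ∈ P.roots.toFinset.filter (fun β => aeval β g = a),
      P.rootMultiplicity β := by
    intro a
    symm
    apply Finset.sum_subset
    · intro β hβ
      rw [Finset.mem_filter] at hβ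
      exact (hmem β a).2 hβ.2
    · intro β hβ hβ'
      rw [Finset.mem_filter, not_and'] at hβ'
      have h1 := hβ' ((hmem β a).1 hβ)
      rw [Multiset.mem_toFinset, ← count_roots, Multiset.count_eq_zero] at *
      exact h1
  change ℓ ∣ M a
  by_cases ha : a ∈ P.roots.toFinset.image (fun β => aeval β g)
  · have hPt : ∀ θ : Ω, aeval θ P = ∏ β ∈ P.roots.toFinset,
        (θ - algebraMap F Ω β) ^ P.rootMultiplicity β := by
      intro θ
      conv_lhs => rw [(IsAlgClosed.splits P).eq_prod_roots_of_monic hP]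
      rw [prod_multiset_root_eq_finset_root, map_prod]
      refine Finset.prod_congr rfl fun β _ => ?_
      rw [map_pow, map_sub, aeval_X, aeval_C]
    have hprod : (∏ θ ∈ rts (cOver k F L Ω g D), z θ) ^ ℓ =
        ∏ β ∈ P.roots.toFinset, ((-1) ^ g.natDegree *
          (algebraMap F Ω (aeval β g) - tA F L Ω)) ^ P.rootMultiplicity β := by
      rw [← Finset.prod_pow, Finset.prod_congr rfl hz, Finset.prod_congr rfl fun θ _ => hPt θ,
        Finset.prod_comm]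
      refine Finset.prod_congr rfl fun β _ => ?_
      rw [Finset.prod_pow, prod_rts_sub hF H]
    set c₀ : F := ∏ β ∈ P.roots.toFinset, ((-1) ^ (g.natDegree + 1)) ^ P.rootMultiplicity β
      with hc₀
    have hc₀0 : c₀ ≠ 0 := by
      rw [hc₀, Finset.prod_ne_zero_iff]
      intro β _
      exact pow_ne_zero _ (pow_ne_zero _ (neg_ne_zero.2 one_ne_zero))
    have hprod2 : (∏ θ ∈ rts (cOver k F L Ω g D), z θ) ^ ℓ = algebraMap F Ω c₀ *
        ∏ a ∈ P.roots.toFinset.image (fun β => aeval β g), (tA F L Ω - algebraMap F Ω a) ^ M a := by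
      rw [hprod]
      have h1 : ∀ β ∈ P.roots.toFinset, ((-1) ^ g.natDegree *
          (algebraMap F Ω (aeval β g) - tA F L Ω)) ^ P.rootMultiplicity β =
          algebraMap F Ω (((-1) ^ (g.natDegree + 1)) ^ P.rootMultiplicity β) *
            (tA F L Ω - algebraMap F Ω (aeval β g)) ^ P.rootMultiplicity β := by
        intro β _
        rw [map_pow, map_pow, map_neg, map_one, ← mul_pow]
        congr 1
        ring
      rw [Finset.prod_congr rfl h1, Finset.prod_mul_distrib, ← map_prod, ← hc₀]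
      congr 1
      rw [← Finset.prod_fiberwise_of_maps_to (g := fun β => aeval β g)
        (fun β hβ => Finset.mem_image_of_mem _ hβ)]
      refine Finset.prod_congr rfl fun a _ => ?_
      rw [hM a, ← Finset.prod_pow_eq_pow_sum]
      refine Finset.prod_congr rfl fun β hβ => ?_
      rw [(Finset.mem_filter.1 hβ).2]
    obtain ⟨p, r, hr, hpr⟩ := IsFractionRing.div_surjective (A := F[X]) y
    have hr0 : r ≠ 0 := nonZeroDivisors.ne_zero hr
    have hfin := dvd_of_prod_eq_pow (tA_injective hF) (ℓ := ℓ)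
      (P.roots.toFinset.image (fun β => aeval β g)) (fun a => ((M a * q : ℕ) : ℤ)) ((c₀ ^ q)⁻¹)
      (inv_ne_zero (pow_ne_zero _ hc₀0)) p r hr0 (by
        have h2 : (aeval (tA F L Ω) p / aeval (tA F L Ω) r : Ω) =
            (∏ θ ∈ rts (cOver k F L Ω g D), z θ) ^ q := by
          rw [hy, ← hpr, map_div₀, g11_poly_t hF, g11_poly_t hF]
        rw [h2, ← pow_mul, mul_comm q ℓ, pow_mul, hprod2, mul_pow, ← map_pow, ← mul_assoc,
          ← map_mul, inv_mul_cancel₀ (pow_ne_zero _ hc₀0), map_one, one_mul, ← Finset.prod_pow]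
        refine Finset.prod_congr rfl fun a _ => ?_
        rw [zpow_natCast, pow_mul])
    have h3 := hfin a ha
    rw [Int.natCast_dvd_natCast] at h3
    exact hcop.dvd_of_dvd_mul_right h3
  · have h1 : M a = 0 := by
      rw [hM a]
      apply Finset.sum_eq_zero
      intro β hβ
      exfalso
      apply ha
      rw [Finset.mem_filter] at hβ
      exact Finset.mem_image.2 ⟨β, hβ.1, hβ.2⟩
    rw [h1]
    exact dvd_zero _


end Pool.Agent.Lib.MP_89bcae_ag.Sup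

end

section

/-!
ROW G13 (150-300 lines). Every locally trivial Tate cocycle has exponents supported in `RR`.

PROOF. Take `P`, `z` from `exists_kummer` (G11). Claim: `ℓ ∣ P.rootMultiplicity r` whenever
`a := g(r)` satisfies `D(a) ≠ 0`. Let `K = (plc a).adicCompletion L`, `M = AlgebraicClosure K`, an
`F`-algebra through `F[X] → L → K → M` (`letI`), `j : Ω → M` over `L` (`IsAlgClosed.lift`), `v` from
`exists_locCtx` (L10), `t = tA F L M`. `d = D(t)`: `v d = 1` since `D(t) ≡ D(a) ≠ 0` (`residue_eval`).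
`Γ = (galSym ..).range` (L11), with `LocCtx.locGrp` (`p = ringExpChar K`, prime to `ℓ`) and
`exists_conj_near`. Local triviality of `c 1`: `Q₁` in `J(M)` with `j (c 1 g') = g Q₁ - Q₁`; put
`Q = v Q₁` (`vJ`). Let `zM (j θ) = j (z θ)` (every root of the curve over `M` is `j θ` for a unique root
`θ` in `Ω`: `rts` have the same number of elements). For `g` in `Aut(M/K)`, `g'` its restriction to `Ω`
(`exists_restrict`), choose `n` with `g' (z θ) = ζ^{n(g'θ)} z(g'θ)` (the `ℓ`-th powers agree); then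
`v (c 1 g') = ram n`, and applying `j` (`jacMap_ram`, `vJ_jacMap`, `push`): `g Q - Q = ram nM`,
`nM (j θ) = n θ`, and `g (zM θ') = ζ^{nM(gθ')} zM(gθ')`. `LocCtx.good_place'` (L13) applies.
Then put `e β = P.rootMultiplicity β`, `z' θ = z θ / ∏_{β ∉ RR} (θ - β)^{mult β / ℓ}` (product over the
roots `β` of `P` which are not in `RR`; `β ∈ RR ↔ D(g(β)) = 0`). The fibre sums: for `D(a) = 0` the fibre of
`g` over `a` is contained in `RR` and its sum is divisible by `ℓ` by G11; otherwise the sum is empty.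
-/

open Polynomial IsDedekindDomain

open scoped Classical

namespace Pool.Agent.Lib.MP_89bcae_ag.Sup

set_option linter.unusedSectionVars false

universe u

section General

lemma G13_jacMap_congr {ℓ : ℕ} {A B : Type u} [Field A] [Field B] {σ τ : A →+* B} {f : A[X]}
    {f' : B[X]} (e : σ = τ) (h : f.map σ = f') (h' : f.map τ = f') (Q : Jac ℓ f) :
    jacMap ℓ σ h Q = jacMap ℓ τ h' Q := by
  subst e
  rfl

lemma G13_coprime_aux {K : Type u} [Field K] {ℓ : ℕ} (hℓ : ℓ.Prime) (h : (ℓ : K) ≠ 0) (q : ℕ)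
    (hq : ExpChar K q) : q.Coprime ℓ := by
  cases hq with
  | zero => exact Nat.coprime_one_left ℓ
  | prime hp =>
    rw [Nat.coprime_primes hp hℓ]
    rintro rfl
    exact h (CharP.cast_eq_zero K q)

lemma G13_coprime {K : Type u} [Field K] {ℓ : ℕ} (hℓ : ℓ.Prime) (h : (ℓ : K) ≠ 0) :
    (ringExpChar K).Coprime ℓ :=
  G13_coprime_aux hℓ h _ inferInstance

/-- A quotient of two elements with the same `ℓ`-th power is a power of `ζ`. -/
lemma G13_exists_zpow {E : Type u} [Field E] {ℓ : ℕ} (hℓ : ℓ ≠ 0) {ζ : E}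
    (hζ : IsPrimitiveRoot ζ ℓ) {x y : E} (hy : y ≠ 0) (h : x ^ ℓ = y ^ ℓ) :
    ∃ i : ℤ, x = ζ ^ i * y := by
  have : NeZero ℓ := ⟨hℓ⟩
  have h1 : (x / y) ^ ℓ = 1 := by
    rw [div_pow, h, div_self (pow_ne_zero _ hy)]
  obtain ⟨i, _, hi⟩ := hζ.eq_pow_of_pow_eq_one h1
  refine ⟨i, ?_⟩
  rw [zpow_natCast, hi, div_mul_cancel₀ _ hy]

end General

variable {k F L Ω : Type u} [Field k] [Field F] [Algebra k F] [Field L] [Algebra F[X] L]
  [Field Ω] [Algebra L Ω] [IsAlgClosure k F] [IsFractionRing F[X] L] [IsAlgClosure L Ω]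
  [Algebra F Ω] {ℓ : ℕ} {g D : k[X]} [hG : IsGood ℓ (cOver k F L Ω g D)] {ζ : k}
  {hζ : (zA F L Ω ζ) ^ ℓ = 1}

omit [IsAlgClosure k F] [IsFractionRing F[X] L] [IsAlgClosure L Ω] hG in
lemma G13_map_aeval (hF : CompatF F L Ω) {M : Type u} [Field M] [Algebra L M] [Algebra F M]
    (hFM : CompatF F L M) (j : Ω →ₐ[L] M) (x : Ω) (P : F[X]) :
    j (aeval x P) = aeval (j x) P := by
  have hj : ∀ c : F, j (algebraMap F Ω c) = algebraMap F M c := by
    intro c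
    rw [hF c, hFM c, j.commutes]
  have h1 := Polynomial.hom_eval₂ P (algebraMap F Ω) (j : Ω →+* M) x
  have h2 : (j : Ω →+* M).comp (algebraMap F Ω) = algebraMap F M := by
    ext c
    exact hj c
  rw [h2] at h1
  exact h1

omit [IsAlgClosure k F] [IsFractionRing F[X] L] [IsAlgClosure L Ω] [Algebra F Ω] hG in
lemma G13_zA {A : Type u} [Field A] [Algebra L A] [Algebra F A] (hFA : CompatF F L A) (ζ : k) :
    zA F L A ζ = algebraMap F A (algebraMap k F ζ) := by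
  rw [hFA]
  unfold zA base
  simp

omit [IsAlgClosure k F] [IsFractionRing F[X] L] [IsAlgClosure L Ω] [Algebra F Ω] hG in
lemma G13_map_zA {M : Type u} [Field M] [Algebra L M] (j : Ω →ₐ[L] M) (ζ : k) :
    j (zA F L Ω ζ) = zA F L M ζ := by
  unfold zA base
  simp

omit [IsAlgClosure k F] [IsFractionRing F[X] L] [IsAlgClosure L Ω] [Algebra F Ω] in
lemma G13_map_root {M : Type u} [Field M] [Algebra L M] [hGM : IsGood ℓ (cOver k F L M g D)]
    (j : Ω →ₐ[L] M) {θ : Ω} (hθ : θ ∈ rts (cOver k F L Ω g D)) :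
    j θ ∈ rts (cOver k F L M g D) := by
  have h1 : cOver k F L Ω g D ≠ 0 := (IsGood.separable ℓ (f := cOver k F L Ω g D)).ne_zero
  have h2 : cOver k F L M g D ≠ 0 := (IsGood.separable ℓ (f := cOver k F L M g D)).ne_zero
  rw [mem_rts h1] at hθ
  rw [mem_rts h2]
  have h3 : aeval θ (curvePoly k F L g D) = 0 := by
    rw [aeval_def, ← eval_map]
    exact hθ
  have h4 : aeval (j θ) (curvePoly k F L g D) = 0 := by
    rw [aeval_algHom_apply, h3, map_zero]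
  rw [aeval_def, ← eval_map] at h4
  exact h4

omit [IsAlgClosure k F] [IsFractionRing F[X] L] [Algebra F Ω] in
lemma G13_exists_root {M : Type u} [Field M] [Algebra L M] [hGM : IsGood ℓ (cOver k F L M g D)]
    (j : Ω →ₐ[L] M) {θ : M} (hθ : θ ∈ rts (cOver k F L M g D)) :
    ∃ θ₀ ∈ rts (cOver k F L Ω g D), j θ₀ = θ := by
  have hA : IsAlgClosed Ω := IsAlgClosure.isAlgClosed L
  have h1 : cOver k F L Ω g D ≠ 0 := (IsGood.separable ℓ (f := cOver k F L Ω g D)).ne_zero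
  have h2 : cOver k F L M g D ≠ 0 := (IsGood.separable ℓ (f := cOver k F L M g D)).ne_zero
  have hm : (cOver k F L Ω g D).map (j : Ω →+* M) = cOver k F L M g D := by
    unfold cOver
    rw [Polynomial.map_map, AlgHom.comp_algebraMap]
  have hs : (cOver k F L Ω g D).Splits := IsAlgClosed.splits _
  have hr : (cOver k F L M g D).roots = (cOver k F L Ω g D).roots.map (j : Ω →+* M) := by
    rw [← hm]
    exact hs.roots_map (j : Ω →+* M)
  unfold rts at hθ ⊢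
  rw [Multiset.mem_toFinset, hr, Multiset.mem_map] at hθ
  obtain ⟨θ₀, h3, h4⟩ := hθ
  exact ⟨θ₀, by rwa [Multiset.mem_toFinset], h4⟩

/-- The exponents `n` exist. -/
lemma G13_exists_n (hF : CompatF F L Ω) (H : GlobHyp ℓ g D ζ) {P : F[X]} (hP : P ≠ 0) {z : Ω → Ω}
    (hz : ∀ θ ∈ rts (cOver k F L Ω g D), z θ ^ ℓ = aeval θ P) (σ : Ω ≃ₐ[L] Ω) :
    ∃ n : Ω → ℤ, ∀ θ ∈ rts (cOver k F L Ω g D),
      σ (z θ) = zA F L Ω ζ ^ n (σ θ) * z (σ θ) := by
  have h1 : ∀ θ' : Ω, ∃ i : ℤ, θ' ∈ rts (cOver k F L Ω g D) →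
      σ (z (σ.symm θ')) = zA F L Ω ζ ^ i * z θ' := by
    intro θ'
    by_cases hθ : θ' ∈ rts (cOver k F L Ω g D)
    · have hθ2 : σ.symm θ' ∈ rts (cOver k F L Ω g D) := by
        have := G13_map_root (g := g) (D := D) (ℓ := ℓ) (k := k) (F := F)
          (σ.symm : Ω →ₐ[L] Ω) hθ
        exact this
      have h2 : z θ' ≠ 0 := by
        intro h0
        have h3 := hz θ' hθ
        rw [h0, zero_pow H.prime.ne_zero] at h3
        have h4 := aeval_root_injective hF H hθ (a₁ := P) (a₂ := 0) (by rw [map_zero, ← h3])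
        exact hP h4
      have h5 : σ (z (σ.symm θ')) ^ ℓ = z θ' ^ ℓ := by
        rw [← map_pow, hz _ hθ2, hz _ hθ]
        have h6 := G13_map_aeval hF hF (σ : Ω →ₐ[L] Ω) (σ.symm θ') P
        have h7 : (σ : Ω →ₐ[L] Ω) (σ.symm θ') = θ' := σ.apply_symm_apply θ'
        rw [h7] at h6
        exact h6
      have h8 : IsPrimitiveRoot (zA F L Ω ζ) ℓ := zA_primitive H
      obtain ⟨i, hi⟩ := G13_exists_zpow H.prime.ne_zero h8 h2 h5
      exact ⟨i, fun _ => hi⟩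
    · exact ⟨0, fun h => absurd h hθ⟩
  choose n hn using h1
  refine ⟨n, fun θ hθ => ?_⟩
  have h2 : σ θ ∈ rts (cOver k F L Ω g D) := by
    have := G13_map_root (g := g) (D := D) (ℓ := ℓ) (k := k) (F := F) (σ : Ω →ₐ[L] Ω) hθ
    exact this
  have h3 := hn (σ θ) h2
  rwa [AlgEquiv.symm_apply_apply] at h3


end Pool.Agent.Lib.MP_89bcae_ag.Sup

end

section

section

open Polynomial IsDedekindDomain

open scoped Classical

set_option linter.unusedSectionVars false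

namespace Pool.Agent.Lib.MP_89bcae_ag.Sup

universe u

section

variable {ℓ : ℕ} {E : Type u} [Field E] {f : E[X]} [hG : IsGood ℓ f]

omit hG in
lemma tb01_mem_rts {θ : E} (hG : IsGood ℓ f) : θ ∈ rts f ↔ f.eval θ = 0 :=
  mem_rts hG.separable.ne_zero

omit hG in
lemma tb01_zpow_eq {ζ : E} (hℓ : ℓ ≠ 0) (hζ : IsPrimitiveRoot ζ ℓ) (a b : ℤ) :
    ζ ^ a = ζ ^ b ↔ (a : ZMod ℓ) = b := by
  have h0 : ζ ≠ 0 := hζ.ne_zero hℓ
  rw [ZMod.intCast_eq_intCast_iff_dvd_sub, ← hζ.zpow_eq_one_iff_dvd, zpow_sub₀ h0,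
    div_eq_one_iff_eq (zpow_ne_zero _ h0)]
  exact eq_comm

end

section

variable {k F L Ω : Type u} [Field k] [Field F] [Algebra k F] [Field L] [Algebra F[X] L]
  [Field Ω] [Algebra L Ω] [IsAlgClosure k F] [IsFractionRing F[X] L] [IsAlgClosure L Ω]
  [Algebra F Ω] {ℓ : ℕ} {g D : k[X]} {ζ : k}

omit [IsAlgClosure k F] [IsFractionRing F[X] L] [IsAlgClosure L Ω] [Algebra F Ω] in
lemma tb01_smul_mem (hG : IsGood ℓ (cOver k F L Ω g D)) (σ : Ω ≃ₐ[L] Ω) {θ : Ω} :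
    σ θ ∈ rts (cOver k F L Ω g D) ↔ θ ∈ rts (cOver k F L Ω g D) := by
  rw [tb01_mem_rts hG, tb01_mem_rts hG, eval_map_algebraMap, eval_map_algebraMap]
  have h1 : aeval (σ θ) (curvePoly k F L g D) = σ (aeval θ (curvePoly k F L g D)) :=
    aeval_algHom_apply (σ : Ω →ₐ[L] Ω) θ _
  rw [h1]
  exact map_eq_zero_iff σ σ.injective

omit [IsAlgClosure k F] [IsFractionRing F[X] L] [IsAlgClosure L Ω] [Algebra F Ω] in
lemma tb01_sum {M : Type*} [AddCommMonoid M] (hG : IsGood ℓ (cOver k F L Ω g D))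
    (σ : Ω ≃ₐ[L] Ω) (φ : Ω → M) :
    ∑ θ ∈ rts (cOver k F L Ω g D), φ (σ θ) = ∑ θ ∈ rts (cOver k F L Ω g D), φ θ :=
  Finset.sum_equiv σ.toEquiv (fun _ => (tb01_smul_mem hG σ).symm) (fun _ _ => rfl)

omit [IsAlgClosure k F] [IsFractionRing F[X] L] [IsAlgClosure L Ω] [Algebra F Ω] in
lemma tb01_prod {M : Type*} [CommMonoid M] (hG : IsGood ℓ (cOver k F L Ω g D))
    (σ : Ω ≃ₐ[L] Ω) (φ : Ω → M) :
    ∏ θ ∈ rts (cOver k F L Ω g D), φ (σ θ) = ∏ θ ∈ rts (cOver k F L Ω g D), φ θ :=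
  Finset.prod_equiv σ.toEquiv (fun _ => (tb01_smul_mem hG σ).symm) (fun _ _ => rfl)

omit [IsAlgClosure k F] [IsFractionRing F[X] L] [IsAlgClosure L Ω] [Algebra F Ω] in
lemma tb01_zA (ζ : k) (σ : Ω ≃ₐ[L] Ω) : σ (zA F L Ω ζ) = zA F L Ω ζ :=
  σ.commutes _

omit [IsAlgClosure k F] [IsFractionRing F[X] L] [IsAlgClosure L Ω] in
lemma tb01_const (hF : CompatF F L Ω) (σ : Ω ≃ₐ[L] Ω) (c : F) :
    σ (algebraMap F Ω c) = algebraMap F Ω c := by
  rw [hF c]
  exact σ.commutes _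

omit [IsAlgClosure k F] [IsFractionRing F[X] L] [IsAlgClosure L Ω] in
lemma tb01_aeval (hF : CompatF F L Ω) (σ : Ω ≃ₐ[L] Ω) (θ : Ω) (P : F[X]) :
    σ (aeval θ P) = aeval (σ θ) P := by
  have h1 : (((σ : Ω ≃+* Ω) : Ω →+* Ω).comp (aeval θ : F[X] →ₐ[F] Ω) : F[X] →+* Ω) =
      ((aeval (σ θ) : F[X] →ₐ[F] Ω) : F[X] →+* Ω) := by
    apply Polynomial.ringHom_ext
    · intro c
      simp only [RingHom.comp_apply, RingHom.coe_coe, aeval_C]
      exact tb01_const hF σ c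
    · simp only [RingHom.comp_apply, RingHom.coe_coe, aeval_X]
      rfl
  exact RingHom.congr_fun h1 P

end

variable {k F L Ω : Type u} [Field k] [Field F] [Algebra k F] [Field L] [Algebra F[X] L]
  [Field Ω] [Algebra L Ω] [IsAlgClosure k F] [IsFractionRing F[X] L] [IsAlgClosure L Ω]
  [Algebra F Ω] {ℓ : ℕ} {g E : k[X]} [hG : IsGood ℓ (cOver k F L Ω g 1)] {ζ : k}
  {hζ : (zA F L Ω ζ) ^ ℓ = 1} {N : Subgroup (Ω ≃ₐ[L] Ω)}

/-- The exponents of the cocycle `h`. -/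
lemma tb01_cochain (H : GlobHyp ℓ g E ζ) {h : Ch ℓ k F L Ω g 1} (hh : MCs ζ hζ ⊤ h) :
    ∃ (e : (Ω ≃ₐ[L] Ω) → Ω → ℤ) (S : Finset Ω),
      (∀ σ, h σ = ram (e σ)) ∧
      (∀ σ, ∑ θ ∈ rts (cOver k F L Ω g 1), (e σ θ : ZMod ℓ) = 0) ∧
      (∀ σ τ, ∀ θ ∈ rts (cOver k F L Ω g 1),
        (e (σ * τ) (σ θ) : ZMod ℓ) = e σ (σ θ) + e τ θ) ∧
      (∀ σ, (∀ x ∈ S, σ x = x) → ∀ θ ∈ rts (cOver k F L Ω g 1), (e σ θ : ZMod ℓ) = 0) := by
  have hζ' : IsPrimitiveRoot (zA F L Ω ζ) ℓ := zA_primitive H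
  have h1 : ∀ σ, ∃ e : Ω → ℤ, h σ = ram e ∧
      ∑ θ ∈ rts (cOver k F L Ω g 1), (e θ : ZMod ℓ) = 0 := by
    intro σ
    exact G11_exists hζ' _ (hh.fixed σ (Subgroup.mem_top σ))
  choose e he hs using h1
  obtain ⟨S, hS⟩ := hh.cont
  refine ⟨e, S, he, hs, ?_, ?_⟩
  · intro σ τ θ hθ
    have h2 : (ram (e (σ * τ)) : Jac ℓ (cOver k F L Ω g 1)) =
        ram (fun θ => e σ θ + e τ (σ⁻¹ θ)) := by
      rw [← he, hh.cocycle σ (Subgroup.mem_top σ) τ (Subgroup.mem_top τ), he, he, symJ_ram,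
        ram_add]
      rfl
    have h3 := G11_unique hζ' _ _ h2 (by
      rw [hs]
      have h4 : ∀ θ ∈ rts (cOver k F L Ω g 1), (((e σ θ + e τ (σ⁻¹ θ) : ℤ)) : ZMod ℓ) =
          (e σ θ : ZMod ℓ) + e τ (σ⁻¹ θ) := fun θ _ => Int.cast_add _ _
      rw [Finset.sum_congr rfl h4, Finset.sum_add_distrib, hs,
        tb01_sum hG σ⁻¹ (fun θ => (e τ θ : ZMod ℓ)), hs, add_zero]) (σ θ)
        ((tb01_smul_mem hG σ).2 hθ)
    rw [h3, Int.cast_add]
    congr 3
    exact σ.symm_apply_apply θ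
  · intro σ hσ θ hθ
    have h2 : h σ = 0 := hS σ (Subgroup.mem_top σ) hσ
    have h3 : (ram (e σ) : Jac ℓ (cOver k F L Ω g 1)) = ram (fun _ => 0) := by
      rw [← he, h2, (ram_eq_zero_iff (zA F L Ω ζ) hζ' _).2 ⟨0, fun _ _ => by simp⟩]
    have h4 := G11_unique hζ' _ _ h3 (by rw [hs]; simp) θ hθ
    rw [h4, Int.cast_zero]

theorem exists_kummerM (hF : CompatF F L Ω) (H : GlobHyp ℓ g E ζ)
    {h : Ch ℓ k F L Ω g 1} (hh : MCs ζ hζ ⊤ h) :
    ∃ (P : F[X]) (z : Ω → Ω), P.Monic ∧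
      (∀ a : F, ℓ ∣ ∑ β ∈ (g.map (algebraMap k F) - C a).roots.toFinset, P.rootMultiplicity β) ∧
      (∀ θ ∈ rts (cOver k F L Ω g 1), z θ ^ ℓ = aeval θ P) ∧
      ∀ (σ : Ω ≃ₐ[L] Ω) (n : Ω → ℤ), (∀ θ ∈ rts (cOver k F L Ω g 1),
        σ (z θ) = zA F L Ω ζ ^ n (σ θ) * z (σ θ)) → h σ = ram n := by
  have hp : Fact ℓ.Prime := ⟨H.prime⟩
  have hΩ : IsAlgClosed Ω := IsAlgClosure.isAlgClosed L
  have hGE : IsGood ℓ (cOver k F L Ω g E) := isGood_cOver H
  have hrts : rts (cOver k F L Ω g 1) = rts (cOver k F L Ω g E) := rts_one H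
  obtain ⟨e, S, he, hs, hcoc, hloc⟩ := tb01_cochain H hh
  have hζ' : IsPrimitiveRoot (zA F L Ω ζ) ℓ := zA_primitive H
  have hζ0 : zA F L Ω ζ ≠ 0 := hζ'.ne_zero H.prime.ne_zero
  obtain ⟨θ₀, hθ₀'⟩ := IsGood.exists_root (ℓ := ℓ) (f := cOver k F L Ω g 1)
  have hθ₀ : θ₀ ∈ rts (cOver k F L Ω g 1) := (tb01_mem_rts hG).2 hθ₀'
  have hθ₀E : θ₀ ∈ rts (cOver k F L Ω g E) := hrts ▸ hθ₀
  obtain ⟨z₀, P, hz₀, hP, hzP, hzσ⟩ := G11_exists_z hF H hθ₀E (fun σ => (e σ θ₀ : ZMod ℓ))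
    (by
      intro σ τ hσ hτ
      have h1 := hcoc σ τ θ₀ hθ₀
      rw [hσ] at h1
      exact h1) S (fun σ _ hσS => hloc σ hσS θ₀ hθ₀)
  have hgal : ∀ θ, ∃ σ : Ω ≃ₐ[L] Ω, θ ∈ rts (cOver k F L Ω g 1) → σ θ₀ = θ := by
    intro θ
    by_cases hθ : θ ∈ rts (cOver k F L Ω g 1)
    · obtain ⟨σ, hσ⟩ := exists_gal_root H hθ₀E (hrts ▸ hθ)
      exact ⟨σ, fun _ => hσ⟩
    · exact ⟨1, fun h => absurd h hθ⟩
  choose s hsθ using hgal
  set z : Ω → Ω := fun θ => zA F L Ω ζ ^ (-(e (s θ) θ)) * s θ z₀ with hzdef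
  have hz0 : ∀ θ, z θ ≠ 0 := fun θ => mul_ne_zero (zpow_ne_zero _ hζ0)
    ((map_ne_zero_iff (s θ) (s θ).injective).2 hz₀)
  have hkey : ∀ (σ : Ω ≃ₐ[L] Ω), ∀ θ ∈ rts (cOver k F L Ω g 1),
      σ (z θ) = zA F L Ω ζ ^ (e σ (σ θ)) * z (σ θ) := by
    intro σ θ hθ
    have hσθ := (tb01_smul_mem hG σ).2 hθ
    set h' : Ω ≃ₐ[L] Ω := (s (σ θ))⁻¹ * (σ * s θ) with hh'
    have hsh : s (σ θ) * h' = σ * s θ := mul_inv_cancel_left _ _
    have hhθ : h' θ₀ = θ₀ := by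
      have h1 : s (σ θ) (h' θ₀) = s (σ θ) θ₀ := by
        have h2 : s (σ θ) (h' θ₀) = (s (σ θ) * h') θ₀ := rfl
        rw [h2, hsh, hsθ _ hσθ]
        change σ (s θ θ₀) = σ θ
        rw [hsθ _ hθ]
      exact (s (σ θ)).injective h1
    have h3 : σ (s θ z₀) = zA F L Ω ζ ^ ((e h' θ₀ : ZMod ℓ)).val * s (σ θ) z₀ := by
      have h4 : σ (s θ z₀) = (s (σ θ) * h') z₀ := by
        rw [hsh]
        rfl
      have h5 : (s (σ θ) * h') z₀ = s (σ θ) (h' z₀) := rfl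
      rw [h4, h5, hzσ h' hhθ, map_mul, map_pow, tb01_zA]
    have h6 : σ (z θ) = zA F L Ω ζ ^ (-(e (s θ) θ)) * σ (s θ z₀) := by
      rw [hzdef]
      simp only
      rw [map_mul, map_zpow₀, tb01_zA]
    rw [h6, h3, hzdef]
    simp only
    rw [← mul_assoc, ← mul_assoc, ← zpow_natCast, ← zpow_add₀ hζ0, ← zpow_add₀ hζ0]
    congr 1
    rw [tb01_zpow_eq H.prime.ne_zero hζ']
    push_cast
    rw [ZMod.natCast_zmod_val]
    have h7 := hcoc σ (s θ) θ hθ
    have h8 := hcoc (s (σ θ)) h' θ₀ hθ₀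
    rw [hsh, hsθ _ hσθ] at h8
    rw [h8] at h7
    linear_combination h7
  have hzℓ : ∀ θ ∈ rts (cOver k F L Ω g 1), z θ ^ ℓ = aeval θ P := by
    intro θ hθ
    rw [hzdef]
    simp only
    have h1 : (zA F L Ω ζ ^ (-(e (s θ) θ))) ^ ℓ = 1 := by
      rw [← zpow_natCast, ← zpow_mul, mul_comm, zpow_mul, zpow_natCast, hζ, one_zpow]
    rw [mul_pow, h1, one_mul, ← map_pow, hzP, tb01_aeval hF, hsθ _ hθ]
  refine ⟨P, z, hP, ?_, hzℓ, ?_⟩
  · refine G11_fibre (D := E) hF H hP z (fun θ hθ => hzℓ θ (hrts ▸ hθ)) ?_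
    intro σ
    rw [← hrts]
    rw [map_prod, Finset.prod_congr rfl (hkey σ), Finset.prod_mul_distrib,
      tb01_prod hG σ (fun θ => z θ), tb01_prod hG σ (fun θ => zA F L Ω ζ ^ (e σ θ))]
    have h1 : ∏ θ ∈ rts (cOver k F L Ω g 1), zA F L Ω ζ ^ (e σ θ) = 1 := by
      have h2 : ∏ θ ∈ rts (cOver k F L Ω g 1), zA F L Ω ζ ^ (e σ θ) =
          zA F L Ω ζ ^ (∑ θ ∈ rts (cOver k F L Ω g 1), e σ θ) := by
        induction rts (cOver k F L Ω g 1) using Finset.induction_on with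
        | empty => simp
        | insert a T ha ih => rw [Finset.prod_insert ha, Finset.sum_insert ha, zpow_add₀ hζ0, ih]
      rw [h2, ← zpow_zero (zA F L Ω ζ), tb01_zpow_eq H.prime.ne_zero hζ']
      push_cast
      exact hs σ
    rw [h1, one_mul]
  · intro σ n hn
    rw [he σ]
    apply ram_congr
    intro θ hθ
    have h1 := hn (σ⁻¹ θ) ((tb01_smul_mem hG σ⁻¹).2 ((tb01_mem_rts hG).2 hθ))
    have h2 : σ (σ⁻¹ θ) = θ := σ.apply_symm_apply θ
    rw [hkey σ _ ((tb01_smul_mem hG σ⁻¹).2 ((tb01_mem_rts hG).2 hθ)), h2] at h1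
    have h3 := mul_right_cancel₀ (hz0 θ) h1
    rw [tb01_zpow_eq H.prime.ne_zero hζ', ZMod.intCast_eq_intCast_iff_dvd_sub] at h3
    rw [← dvd_neg, neg_sub]
    exact h3

end Pool.Agent.Lib.MP_89bcae_ag.Sup

end

section

open Polynomial IsDedekindDomain

open scoped Classical

set_option linter.unusedSectionVars false

namespace Pool.Agent.Lib.MP_89bcae_ag.Sup

universe u

variable {k F L Ω : Type u} [Field k] [Field F] [Algebra k F] [Field L] [Algebra F[X] L]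
  [Field Ω] [Algebra L Ω] [IsAlgClosure k F] [IsFractionRing F[X] L] [IsAlgClosure L Ω]
  [Algebra F Ω] {ℓ : ℕ} {g E : k[X]} [hG : IsGood ℓ (cOver k F L Ω g 1)] {ζ : k}
  {hζ : (zA F L Ω ζ) ^ ℓ = 1} {N : Subgroup (Ω ≃ₐ[L] Ω)}

/-- The group `N` contains the local automorphisms at the places `t = a` with `E(a) ≠ 0`. -/
def UnrOut (k F L Ω : Type u) [Field k] [Field F] [Algebra k F] [Field L] [Algebra F[X] L]
    [Field Ω] [Algebra L Ω] [IsFractionRing F[X] L] (E : k[X]) (N : Subgroup (Ω ≃ₐ[L] Ω)) :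
    Prop :=
  ∀ a : F, aeval a E ≠ 0 → ∀ (M : Type u) [Field M] [Algebra ((plc a).adicCompletion L) M]
    [IsAlgClosure ((plc a).adicCompletion L) M] [Algebra L M]
    [IsScalarTower L ((plc a).adicCompletion L) M] (j : Ω →ₐ[L] M)
    (σ : M ≃ₐ[(plc a).adicCompletion L] M) (σ' : Ω ≃ₐ[L] Ω), (∀ x, j (σ' x) = σ (j x)) → σ' ∈ N

/-- The places `t = a` with `E(a) ≠ 0`, abstract form. -/
private lemma tb03_dvd_aux (hF : CompatF F L Ω) (H : GlobHyp ℓ g E ζ) {h : Ch ℓ k F L Ω g 1}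
    {P : F[X]} {z : Ω → Ω} (hP : P.Monic)
    (hfib : ∀ a : F, ℓ ∣ ∑ β ∈ (g.map (algebraMap k F) - C a).roots.toFinset, P.rootMultiplicity β)
    (hz : ∀ θ ∈ rts (cOver k F L Ω g 1), z θ ^ ℓ = aeval θ P)
    (hn : ∀ (σ : Ω ≃ₐ[L] Ω) (n : Ω → ℤ), (∀ θ ∈ rts (cOver k F L Ω g 1),
        σ (z θ) = zA F L Ω ζ ^ n (σ θ) * z (σ θ)) → h σ = ram n)
    {r a : F} (hr : aeval r g = a)
    {K M : Type u} [Field K] [Algebra L K] [Field M] [Algebra K M] [Algebra L M]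
    [IsScalarTower L K M] [IsAlgClosure K M] [Algebra F M] (hFM : CompatF F L M)
    {v : AbsoluteValue M ℝ} (hv : LocCtx v a (tA F L M))
    (hinv : ∀ (σ : M ≃ₐ[K] M) x, v (σ x) = v x)
    (hval : ∀ x : K, x ≠ 0 → ∃ i : ℤ, v (algebraMap K M x) = v (tA F L M - algebraMap F M a) ^ i)
    (j : Ω →ₐ[L] M) (Q : JacOver ℓ (curvePoly k F L g 1) M)
    (hQ : ∀ (σ : M ≃ₐ[K] M) (σ' : Ω ≃ₐ[L] Ω), (∀ x, j (σ' x) = σ (j x)) →
      push ℓ (curvePoly k F L g 1) j (h σ') =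
        push ℓ (curvePoly k F L g 1) (σ.restrictScalars L : M →ₐ[L] M) Q - Q) :
    ℓ ∣ P.rootMultiplicity r := by
  have hMc : IsAlgClosed M := IsAlgClosure.isAlgClosed K
  have hGM : IsGood ℓ (cOver k F L M g 1) := goodAll_one (F := F) (L := L) H M
  have hΩc : IsAlgClosed Ω := IsAlgClosure.isAlgClosed L
  have hGE : IsGood ℓ (cOver k F L Ω g E) := isGood_cOver H
  have hgm : (g.map (algebraMap k F)).Monic := H.monic.map _
  have hgd : (g.map (algebraMap k F)).natDegree = g.natDegree := natDegree_map _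
  have hm0 : g.natDegree ≠ 0 := by
    intro h0
    have h1 := H.cop
    rw [h0, Nat.coprime_zero_left] at h1
    exact H.prime.one_lt.ne' h1
  have hm : (g.map (algebraMap k F)).natDegree ≠ 0 := by rwa [hgd]
  have hmℓ : (g.map (algebraMap k F)).natDegree.Coprime ℓ := by
    rw [hgd]
    exact H.cop
  have hfl : cOver k F L M g 1 = locPoly (g.map (algebraMap k F)) (tA F L M) 1 := cOver_one hFM g
  have hdv : v (1 : M) = 1 := map_one v
  have hd0 : (1 : M) ≠ 0 := one_ne_zero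
  have hs : (locPoly (g.map (algebraMap k F)) (tA F L M) 1).Separable := by
    rw [← hfl]
    exact IsGood.separable ℓ
  have hFK : ∀ c : F, ∃ x : K, algebraMap K M x = algebraMap F M c := by
    intro c
    refine ⟨algebraMap L K (algebraMap F[X] L (C c)), ?_⟩
    rw [hFM, ← IsScalarTower.algebraMap_apply L K M]
  have htK : ∃ x : K, algebraMap K M x = tA F L M := by
    refine ⟨algebraMap L K (algebraMap F[X] L X), ?_⟩
    unfold tA
    rw [← IsScalarTower.algebraMap_apply L K M]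
  have hf : ((curvePoly k F L g 1).map (algebraMap L K)).map (algebraMap K M) =
      cOver k F L M g 1 := by
    rw [Polynomial.map_map, ← IsScalarTower.algebraMap_eq L K M]
  have hΓ := hv.locGrp hf hinv hval hFK htK
  have hℓK : (ℓ : K) ≠ 0 := by
    intro h0
    apply H.ne
    have h1 : (algebraMap L K) ((algebraMap F[X] L) ((mapRingHom (algebraMap k F)) (C (ℓ : k)))) =
        (ℓ : K) := by simp
    rw [h0, map_eq_zero, map_eq_zero_iff _ (IsFractionRing.injective F[X] L), coe_mapRingHom,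
      Polynomial.map_C, C_eq_zero, map_eq_zero] at h1
    exact h1
  have hp : (ringExpChar K).Coprime ℓ := G13_coprime H.prime hℓK
  have hζF : IsPrimitiveRoot (algebraMap k F ζ) ℓ :=
    H.zeta.map_of_injective (algebraMap k F).injective
  have hζM : IsPrimitiveRoot (algebraMap F M (algebraMap k F ζ)) ℓ :=
    hζF.map_of_injective (algebraMap F M).injective
  have hjζ : j (zA F L Ω ζ) = algebraMap F M (algebraMap k F ζ) := by
    rw [G13_map_zA, G13_zA hFM]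
  -- the functions over `M`
  have hinvj : ∀ x, Function.invFun j (j x) = x :=
    Function.leftInverse_invFun (j : Ω →+* M).injective
  obtain ⟨zM, hzM⟩ : ∃ zM : M → M, ∀ x, zM (j x) = j (z x) :=
    ⟨fun θ => j (z (Function.invFun j θ)), fun x => congrArg (fun y => j (z y)) (hinvj x)⟩
  have hzM' : ∀ θ ∈ rts (cOver k F L M g 1), zM θ ^ ℓ = aeval θ P := by
    intro θ hθ
    obtain ⟨θ₀, h1, rfl⟩ := G13_exists_root (ℓ := ℓ) j hθ
    rw [hzM, ← map_pow, hz θ₀ h1, G13_map_aeval hF hFM]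
  refine hv.good_place' hp hgm hm hmℓ hd0 hfl hζF hζM hΓ hdv ?_ hP.ne_zero hzM'
    Q ?_ (hfib a) ?_
  · intro r' θ hθ θ' hθ'
    rw [hfl] at hθ hθ'
    obtain ⟨τ, hτ⟩ := hv.exists_conj_near hgm hm hd0 hs hinv hval hFK htK hθ hθ'
    exact ⟨galSym hf τ, ⟨τ, rfl⟩, by rw [galSym_apply]; exact hτ⟩
  · rintro _ ⟨τ, rfl⟩
    obtain ⟨τ', hτ'⟩ := exists_restrict j (τ.restrictScalars L)
    have hτ'' : ∀ x, j (τ' x) = τ (j x) := hτ'
    have hzE : ∀ θ ∈ rts (cOver k F L Ω g E), z θ ^ ℓ = aeval θ P := fun θ hθ =>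
      hz θ (by rw [rts_one H]; exact hθ)
    obtain ⟨n, hn0⟩ := G13_exists_n hF H hP.ne_zero hzE τ'
    have hn' : ∀ θ ∈ rts (cOver k F L Ω g 1), τ' (z θ) = zA F L Ω ζ ^ n (τ' θ) * z (τ' θ) :=
      fun θ hθ => hn0 θ (by rw [← rts_one H]; exact hθ)
    refine ⟨fun θ => n (Function.invFun j θ), ?_, ?_⟩
    · have h1 := hQ τ τ' hτ''
      have h2 : push ℓ (curvePoly k F L g 1) (τ.restrictScalars L : M →ₐ[L] M) Q =
          symJ (galSym hf τ) Q := by
        unfold push symJ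
        apply G13_jacMap_congr
        ext x
        rfl
      rw [h2] at h1
      rw [← h1, hn τ' n hn']
      unfold push
      apply jacMap_ram
      intro θ _
      exact congrArg n (hinvj θ)
    · intro θ hθ
      obtain ⟨θ₀, h1, rfl⟩ := G13_exists_root (ℓ := ℓ) j hθ
      have h2 := congrArg j (hn' θ₀ h1)
      rw [map_mul, map_zpow₀, hjζ, hτ''] at h2
      have h3 : ((galSym hf τ : Sym (cOver k F L M g 1)) : M ≃+* M) (j θ₀) = j (τ' θ₀) := by
        rw [galSym_apply, hτ'']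
      rw [h3, hzM, hzM, galSym_apply, h2]
      change _ = _ ^ n (Function.invFun j (j (τ' θ₀))) * _
      rw [hinvj]
  · rw [eval_map, ← aeval_def]
    exact hr

/-- The places `t = a` with `E(a) ≠ 0`. -/
private lemma tb03_dvd (hF : CompatF F L Ω) (H : GlobHyp ℓ g E ζ) (hU : UnrOut k F L Ω E N)
    {h : Ch ℓ k F L Ω g 1} {c : Coch ℓ k F L Ω g 1} (hLT : LTs N c)
    (m : Ω → ℤ) (hc : ∀ σ ∈ N, h σ = vJ (zA F L Ω ζ) hζ (c 1 σ) + cob (ram m) σ)
    {P : F[X]} {z : Ω → Ω} (hP : P.Monic)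
    (hfib : ∀ a : F, ℓ ∣ ∑ β ∈ (g.map (algebraMap k F) - C a).roots.toFinset, P.rootMultiplicity β)
    (hz : ∀ θ ∈ rts (cOver k F L Ω g 1), z θ ^ ℓ = aeval θ P)
    (hn : ∀ (σ : Ω ≃ₐ[L] Ω) (n : Ω → ℤ), (∀ θ ∈ rts (cOver k F L Ω g 1),
        σ (z θ) = zA F L Ω ζ ^ n (σ θ) * z (σ θ)) → h σ = ram n)
    {r a : F} (hr : aeval r g = a) (hDa : aeval a E ≠ 0) : ℓ ∣ P.rootMultiplicity r := by
  have hFc : IsAlgClosed F := IsAlgClosure.isAlgClosed k
  let _ : Algebra F (AlgebraicClosure ((plc a).adicCompletion L)) :=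
    ((algebraMap L (AlgebraicClosure ((plc a).adicCompletion L))).comp
      ((algebraMap F[X] L).comp C)).toAlgebra
  have hFM : CompatF F L (AlgebraicClosure ((plc a).adicCompletion L)) := fun c => rfl
  have hFK : ∀ c : F, algebraMap F (AlgebraicClosure ((plc a).adicCompletion L)) c =
      algebraMap ((plc a).adicCompletion L) (AlgebraicClosure ((plc a).adicCompletion L))
        (algebraMap F[X] ((plc a).adicCompletion L) (C c)) := by
    intro c
    rw [hFM, IsScalarTower.algebraMap_apply L ((plc a).adicCompletion L)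
      (AlgebraicClosure ((plc a).adicCompletion L)),
      ← IsScalarTower.algebraMap_apply F[X] L ((plc a).adicCompletion L)]
  have htK : algebraMap ((plc a).adicCompletion L) (AlgebraicClosure ((plc a).adicCompletion L))
        (algebraMap F[X] ((plc a).adicCompletion L) X) =
      tA F L (AlgebraicClosure ((plc a).adicCompletion L)) := by
    unfold tA
    rw [IsScalarTower.algebraMap_apply L ((plc a).adicCompletion L)
      (AlgebraicClosure ((plc a).adicCompletion L)),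
      ← IsScalarTower.algebraMap_apply F[X] L ((plc a).adicCompletion L)]
  obtain ⟨v, hv, hval, hinv, -⟩ := exists_locCtx (L := L)
    (M := AlgebraicClosure ((plc a).adicCompletion L)) a hFK
  rw [htK] at hv
  simp only [htK] at hval
  obtain ⟨j⟩ : Nonempty (Ω →ₐ[L] AlgebraicClosure ((plc a).adicCompletion L)) := by
    have : Algebra.IsAlgebraic L Ω := IsAlgClosure.isAlgebraic
    exact ⟨IsAlgClosed.lift⟩
  have hlt : LTs N (fun n σ => vJ (zA F L Ω ζ) hζ (c n σ) + cob (ram m) σ :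
      Coch ℓ k F L Ω g 1) :=
    LTs.add (hLT.v (goodAll_one H) hζ) (LTs.of_cob fun _ => ⟨ram m, fun _ _ => rfl⟩)
  obtain ⟨Q, hQ⟩ := hlt a 1 (AlgebraicClosure ((plc a).adicCompletion L)) j
  refine tb03_dvd_aux hF H hP hfib hz hn hr hFM hv hinv hval j Q fun σ σ' hσ => ?_
  have hN : σ' ∈ N := hU a hDa _ j σ σ' hσ
  rw [hc σ' hN]
  exact hQ σ σ' hN hσ

theorem exists_hasExpM (hF : CompatF F L Ω) (H : GlobHyp ℓ g E ζ) (hU : UnrOut k F L Ω E N)
    {h : Ch ℓ k F L Ω g 1} (hh : MCs ζ hζ ⊤ h) {c : Coch ℓ k F L Ω g 1} (hLT : LTs N c)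
    (m : Ω → ℤ) (hc : ∀ σ ∈ N, h σ = vJ (zA F L Ω ζ) hζ (c 1 σ) + cob (ram m) σ) :
    ∃ e : F → ℤ, HasExpM ζ E h e := by
  have hFc : IsAlgClosed F := IsAlgClosure.isAlgClosed k
  have hΩc : IsAlgClosed Ω := IsAlgClosure.isAlgClosed L
  have hGE : IsGood ℓ (cOver k F L Ω g E) := isGood_cOver H
  obtain ⟨P, z, hP, hfib, hz, hn⟩ := exists_kummerM hF H hh
  have hdvd : ∀ r : F, r ∉ RR F g E → ℓ ∣ P.rootMultiplicity r := by
    intro r hr
    rw [mem_RR H] at hr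
    exact tb03_dvd hF H hU hLT m hc hP hfib hz hn rfl hr
  set W : F[X] := ∏ β ∈ P.roots.toFinset \ RR F g E, (X - C β) ^ (P.rootMultiplicity β / ℓ)
    with hW
  have hWm : W.Monic := monic_prod_of_monic _ _ fun β _ => (monic_X_sub_C β).pow _
  have hPW : P = W ^ ℓ * ∏ β ∈ RR F g E, (X - C β) ^ P.rootMultiplicity β := by
    have h1 : P = ∏ β ∈ P.roots.toFinset, (X - C β) ^ P.rootMultiplicity β := by
      have h2 : P = (P.roots.map fun a => X - C a).prod :=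
        (IsAlgClosed.splits P).eq_prod_roots_of_monic hP
      conv_lhs => rw [h2]
      rw [Finset.prod_multiset_map_count]
      refine Finset.prod_congr rfl fun β _ => ?_
      rw [count_roots]
    have h3 : W ^ ℓ = ∏ β ∈ P.roots.toFinset \ RR F g E, (X - C β) ^ P.rootMultiplicity β := by
      rw [hW, ← Finset.prod_pow]
      refine Finset.prod_congr rfl fun β hβ => ?_
      rw [← pow_mul, Nat.div_mul_cancel (hdvd β (Finset.mem_sdiff.mp hβ).2)]
    have h4 : ∏ β ∈ RR F g E, (X - C β) ^ P.rootMultiplicity β =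
        ∏ β ∈ P.roots.toFinset ∩ RR F g E, (X - C β) ^ P.rootMultiplicity β := by
      symm
      refine Finset.prod_subset Finset.inter_subset_right fun β hβ hn' => ?_
      have h5 : β ∉ P.roots.toFinset := fun h => hn' (Finset.mem_inter.mpr ⟨h, hβ⟩)
      have h6 : P.rootMultiplicity β = 0 := by
        rw [← count_roots]
        rw [Multiset.mem_toFinset] at h5
        exact Multiset.count_eq_zero_of_notMem h5
      rw [h6, pow_zero]
    rw [h3, h4]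
    conv_lhs => rw [h1]
    rw [mul_comm]
    exact (Finset.prod_inter_mul_prod_sdiff _ _ _).symm
  have hWθ : ∀ θ ∈ rts (cOver k F L Ω g 1), aeval θ W ≠ 0 := by
    intro θ hθ h0
    rw [rts_one H] at hθ
    exact hWm.ne_zero (aeval_root_injective hF H hθ (a₁ := W) (a₂ := 0) (by rw [map_zero, h0]))
  refine ⟨fun β => (P.rootMultiplicity β : ℤ), ?_, fun θ => z θ / aeval θ W, ?_, ?_⟩
  · intro a
    by_cases hDa : aeval a E = 0
    · have h1 : (RR F g E).filter (fun β => aeval β g = a) =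
          (g.map (algebraMap k F) - C a).roots.toFinset := by
        have hne : g.map (algebraMap k F) - C a ≠ 0 := by
          intro h0
          have h2 : g.map (algebraMap k F) = C a := sub_eq_zero.mp h0
          have h3 := congrArg natDegree h2
          rw [natDegree_map, natDegree_C] at h3
          have h4 := H.cop
          rw [h3, Nat.coprime_zero_left] at h4
          exact H.prime.one_lt.ne' h4
        ext β
        rw [Finset.mem_filter, mem_RR H, Multiset.mem_toFinset, mem_roots hne, IsRoot.def, eval_sub,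
          eval_C, eval_map, ← aeval_def, sub_eq_zero]
        constructor
        · exact fun h => h.2
        · rintro rfl
          exact ⟨hDa, rfl⟩
      rw [h1]
      have h5 := hfib a
      exact_mod_cast h5
    · have h1 : (RR F g E).filter (fun β => aeval β g = a) = ∅ := by
        rw [Finset.filter_eq_empty_iff]
        intro β hβ h
        rw [mem_RR H, h] at hβ
        exact hDa hβ
      rw [h1, Finset.sum_empty]
      exact dvd_zero _
  · intro θ hθ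
    rw [div_pow, hz θ hθ]
    conv_lhs => rw [hPW]
    rw [map_mul, map_pow, mul_div_cancel_left₀ _ (pow_ne_zero _ (hWθ θ hθ)), map_prod]
    refine Finset.prod_congr rfl fun β _ => ?_
    rw [map_pow, map_sub, aeval_X, aeval_C, zpow_natCast]
  · intro σ n hσ
    refine hn σ n fun θ hθ => ?_
    have h1 := hσ θ hθ
    have h2 : σ (aeval θ W) = aeval (σ θ) W := G13_map_aeval hF hF (σ : Ω →ₐ[L] Ω) θ W
    have h3 : σ θ ∈ rts (cOver k F L Ω g 1) :=
      G13_map_root (g := g) (D := 1) (ℓ := ℓ) (k := k) (F := F) (σ : Ω →ₐ[L] Ω) hθ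
    have h4 := hWθ _ h3
    rw [map_div₀, h2, div_eq_iff h4] at h1
    rw [h1]
    field_simp

end Pool.Agent.Lib.MP_89bcae_ag.Sup

end

section

open Polynomial IsDedekindDomain

open scoped Classical

set_option linter.unusedSectionVars false

namespace Pool.Agent.Lib.MP_89bcae_ag.Sup

universe u

variable {k F L Ω : Type u} [Field k] [Field F] [Algebra k F] [Field L] [Algebra F[X] L]
  [Field Ω] [Algebra L Ω] [IsAlgClosure k F] [IsFractionRing F[X] L] [IsAlgClosure L Ω]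
  {ℓ : ℕ} {g E : k[X]} {ζ : k}

lemma xA_act (γ : AutO k F L Ω) (x : F) :
    (γ : Ω ≃+* Ω) (xA F L Ω x) = xA F L Ω (resF γ x) := by
  have h := resF_spec γ (C x)
  rw [Polynomial.map_C] at h
  exact h

lemma xA_galA (σ : Ω ≃ₐ[L] Ω) (x : F) : σ (xA F L Ω x) = xA F L Ω x := by
  exact σ.commutes _


lemma zA_eq (ζ : k) : zA F L Ω ζ = xA F L Ω (algebraMap k F ζ) := by
  change algebraMap L Ω (algebraMap F[X] L ((C ζ).map (algebraMap k F))) = _
  rw [Polynomial.map_C]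
  rfl

lemma xA_pow (x : F) (n : ℕ) : xA F L Ω (x ^ n) = xA F L Ω x ^ n := by
  unfold xA
  rw [map_pow, map_pow, map_pow]

private lemma tc06_one : xA F L Ω 1 = 1 := by
  unfold xA
  rw [map_one, map_one, map_one]


private lemma tc06_inj {x y : F} (h : xA F L Ω x = xA F L Ω y) : x = y :=
  C_injective (IsFractionRing.injective F[X] L ((algebraMap L Ω).injective h))

lemma xA_prim {x : F} {n : ℕ} (h : IsPrimitiveRoot x n) : IsPrimitiveRoot (xA F L Ω x) n := by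
  constructor
  · rw [← xA_pow, h.pow_eq_one, tc06_one]
  · intro l hl
    refine h.dvd_of_pow_eq_one l (tc06_inj (L := L) (Ω := Ω) ?_)
    rw [xA_pow, hl, tc06_one]

/-- The stabilizer of `s`. -/
def Nst {L Ω : Type u} [Field L] [Field Ω] [Algebra L Ω] (s : Ω) :
    Subgroup (Ω ≃ₐ[L] Ω) where
  carrier := {σ | σ s = s}
  mul_mem' := by
    intro σ τ hσ hτ
    change σ (τ s) = s
    rw [show τ s = s from hτ]
    exact hσ
  one_mem' := rfl
  inv_mem' := by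
    intro σ hσ
    change σ.symm s = s
    rw [AlgEquiv.symm_apply_eq]
    exact (show σ s = s from hσ).symm

/-- A tower: `s ^ (ℓ ^ r) = E(t)`, `ζr` a primitive root of unity of order `ℓ ^ r`, `r > 0`. -/
structure TowDat (ℓ r : ℕ) {k F L Ω : Type u} [Field k] [Field F] [Algebra k F] [Field L]
    [Algebra F[X] L] [Field Ω] [Algebra L Ω] (g E : k[X]) (ζ : k) (ζr : F) (s : Ω) : Prop where
  glob : GlobHyp ℓ g E ζ
  rpos : 0 < r
  prim : IsPrimitiveRoot ζr (ℓ ^ r)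
  pow : ζr ^ ℓ ^ (r - 1) = algebraMap k F ζ
  hs : s ^ ℓ ^ r = base k F L Ω E

variable {r : ℕ} {ζr : F} {s : Ω}

private lemma tc06_lr (hD : TowDat (L := L) ℓ r g E ζ ζr s) : ℓ ^ r ≠ 0 :=
  pow_ne_zero _ hD.glob.prime.pos.ne'

private lemma tc06_base {k F L Ω : Type u} [Field k] [Field F] [Algebra k F] [Field L]
    [Algebra F[X] L] [Field Ω] [Algebra L Ω] [IsFractionRing F[X] L] {E : k[X]} (hE : E ≠ 0) :
    base k F L Ω E ≠ 0 := by
  intro h
  have h1 : (algebraMap L Ω) (algebraMap F[X] L (E.map (algebraMap k F))) =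
      algebraMap L Ω (algebraMap F[X] L 0) := by
    rw [map_zero, map_zero]
    exact h
  have h2 := IsFractionRing.injective F[X] L ((algebraMap L Ω).injective h1)
  rw [Polynomial.map_eq_zero_iff (algebraMap k F).injective] at h2
  exact hE h2

lemma TowDat.ne_zero (hD : TowDat (L := L) ℓ r g E ζ ζr s) : s ≠ 0 := by
  rintro rfl
  have h1 := hD.hs
  rw [zero_pow (tc06_lr hD)] at h1
  refine tc06_base (F := F) (L := L) (Ω := Ω) (E := E) ?_ h1.symm
  intro h0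
  exact hD.glob.pos (by rw [h0, natDegree_zero])

lemma TowDat.exists_pow (hD : TowDat (L := L) ℓ r g E ζ ζr s)
    (γ : AutO k F L Ω) : ∃ i : ℕ, (γ : Ω ≃+* Ω) s = xA F L Ω ζr ^ i * s := by
  have h0 : s ≠ 0 := hD.ne_zero
  have h1 : (γ : Ω ≃+* Ω) s ^ ℓ ^ r = s ^ ℓ ^ r := by
    rw [← map_pow, hD.hs]
    exact γ.2 E
  have h2 : ((γ : Ω ≃+* Ω) s / s) ^ ℓ ^ r = 1 := by
    rw [div_pow, h1, div_self (pow_ne_zero _ h0)]
  have : NeZero (ℓ ^ r) := ⟨tc06_lr hD⟩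
  obtain ⟨i, -, hi⟩ := (xA_prim (L := L) (Ω := Ω) hD.prim).eq_pow_of_pow_eq_one h2
  exact ⟨i, by rw [hi, div_mul_cancel₀ _ h0]⟩

lemma TowDat.exists_powG (hD : TowDat (L := L) ℓ r g E ζ ζr s)
    (σ : Ω ≃ₐ[L] Ω) : ∃ i : ℕ, σ s = xA F L Ω ζr ^ i * s := by
  obtain ⟨i, hi⟩ := hD.exists_pow (galA k F σ)
  exact ⟨i, hi⟩

lemma TowDat.nrm (hD : TowDat (L := L) ℓ r g E ζ ζr s) :
    Nrm k F (Nst s : Subgroup (Ω ≃ₐ[L] Ω)) := by
  intro γ σ hσ
  change (conjG γ σ) s = s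
  obtain ⟨j, hj⟩ := hD.exists_pow γ⁻¹
  have hσ' : σ s = s := hσ
  have h1 : (γ : Ω ≃+* Ω) (((γ⁻¹ : AutO k F L Ω) : Ω ≃+* Ω) s) = s :=
    (γ : Ω ≃+* Ω).apply_symm_apply s
  have h2 := conjG_spec γ σ (((γ⁻¹ : AutO k F L Ω) : Ω ≃+* Ω) s)
  rw [h1] at h2
  rw [h2]
  have h3 : σ (((γ⁻¹ : AutO k F L Ω) : Ω ≃+* Ω) s) = ((γ⁻¹ : AutO k F L Ω) : Ω ≃+* Ω) s := by
    rw [hj, map_mul, map_pow, xA_galA, hσ']
  rw [h3, h1]

lemma opn_nst (s : Ω) : Opn (Nst s : Subgroup (Ω ≃ₐ[L] Ω)) := by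
  refine ⟨{s}, fun σ hσ => ?_⟩
  exact hσ s (Finset.mem_singleton_self s)

lemma TowDat.unr (hD : TowDat (L := L) ℓ r g E ζ ζr s) :
    UnrOut k F L Ω E (Nst s : Subgroup (Ω ≃ₐ[L] Ω)) := by
  intro a ha M _ _ _ _ _ j σ σ' hσ
  change σ' s = s
  have hFc : IsAlgClosed F := IsAlgClosure.isAlgClosed k
  let _ : Algebra F M :=
    ((algebraMap L M).comp ((algebraMap F[X] L).comp (C : F →+* F[X]))).toAlgebra
  have hFM : CompatF F L M := fun _ => rfl
  have hXL : ∀ P : F[X], algebraMap ((plc a).adicCompletion L) M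
      (algebraMap F[X] ((plc a).adicCompletion L) P) = algebraMap L M (algebraMap F[X] L P) := by
    intro P
    rw [IsScalarTower.algebraMap_apply F[X] L ((plc a).adicCompletion L),
      ← IsScalarTower.algebraMap_apply L ((plc a).adicCompletion L)]
  obtain ⟨v, hv, hval, hinv, hsemi⟩ := exists_locCtx (L := L) (M := M) a
    (fun c => by rw [hXL, hFM])
  rw [hXL] at hv
  have hv' : LocCtx v a (tA F L M) := hv
  have hσc : ∀ c : F, (σ : M ≃+* M) (algebraMap F M c) = algebraMap F M c := by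
    intro c
    rw [hFM c, ← hXL]
    exact σ.commutes _
  have hEs : (j s) ^ ℓ ^ r = aeval (tA F L M) (E.map (algebraMap k F)) := by
    rw [← map_pow, hD.hs]
    change j (algebraMap L Ω (algebraMap F[X] L (E.map (algebraMap k F)))) = _
    rw [j.commutes]
    have hgen : ∀ p : F[X], algebraMap L M (algebraMap F[X] L p) = aeval (tA F L M) p := by
      intro p
      induction p using Polynomial.induction_on' with
      | add p q hp hq => rw [map_add, map_add, map_add, hp, hq]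
      | monomial n a =>
        rw [← C_mul_X_pow_eq_monomial, map_mul, map_mul, map_mul, map_pow, map_pow, map_pow,
          aeval_C, aeval_X, hFM a]
        rfl
    exact hgen _
  have hres := hv'.residue_eval (hv'.lt_one) (E.map (algebraMap k F))
  have hE0 : (E.map (algebraMap k F)).eval a ≠ 0 := by
    rw [eval_map_algebraMap]
    exact ha
  have h1 : v ((j s) ^ ℓ ^ r) = 1 := by
    rw [hEs]
    exact hv'.v_eq_one hres hE0
  have h2 : v (j s) = 1 := by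
    rw [map_pow] at h1
    exact (pow_eq_one_iff_of_nonneg (v.nonneg _) (tc06_lr hD)).mp h1
  have h3 : (σ : M ≃+* M) ((j s) ^ ℓ ^ r) = (j s) ^ ℓ ^ r := by
    have h4 : (j s) ^ ℓ ^ r = algebraMap ((plc a).adicCompletion L) M
        (algebraMap F[X] ((plc a).adicCompletion L) (E.map (algebraMap k F))) := by
      rw [← map_pow, hD.hs, hXL]
      exact j.commutes _
    rw [h4]
    exact σ.commutes _
  have h5 := hv'.root_of_unit_fixed (tc06_lr hD) hD.prim (σ : M ≃+* M) (hinv σ) hσc h2 h3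
  apply j.toRingHom.injective
  change j (σ' s) = j s
  rw [hσ]
  exact h5

private lemma tc06_tau {τ : Ω ≃ₐ[L] Ω} (hτ : τ s = xA F L Ω ζr * s) (i : ℕ) :
    (τ ^ i) s = xA F L Ω ζr ^ i * s := by
  induction i with
  | zero => rw [pow_zero, pow_zero, one_mul]; rfl
  | succ n ih =>
    rw [pow_succ', AlgEquiv.mul_apply, ih, map_mul, map_pow, xA_galA, hτ, pow_succ, mul_assoc]

/-- `Gal(Ω/L)` is the union of the `τ ^ i N`. -/
lemma TowDat.exists_mul (hD : TowDat (L := L) ℓ r g E ζ ζr s)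
    {τ : Ω ≃ₐ[L] Ω} (hτ : τ s = xA F L Ω ζr * s) (σ : Ω ≃ₐ[L] Ω) :
    ∃ i : ℕ, ∃ η ∈ (Nst s : Subgroup (Ω ≃ₐ[L] Ω)), σ = τ ^ i * η := by
  obtain ⟨i, hi⟩ := hD.exists_powG σ
  refine ⟨i, (τ ^ i)⁻¹ * σ, ?_, by rw [mul_inv_cancel_left]⟩
  change (τ ^ i).symm (σ s) = s
  rw [AlgEquiv.symm_apply_eq, hi, tc06_tau hτ]

lemma TowDat.pow_mem (hD : TowDat (L := L) ℓ r g E ζ ζr s)
    {τ : Ω ≃ₐ[L] Ω} (hτ : τ s = xA F L Ω ζr * s) :
    τ ^ ℓ ^ r ∈ (Nst s : Subgroup (Ω ≃ₐ[L] Ω)) := by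
  change (τ ^ ℓ ^ r) s = s
  rw [tc06_tau hτ, (xA_prim (L := L) (Ω := Ω) hD.prim).pow_eq_one, one_mul]

/-- Two elements with the same value at `s` differ by an element of `N`. -/
lemma inv_mul_mem_nst {σ σ' : Ω ≃ₐ[L] Ω} {s : Ω} (h : σ s = σ' s) :
    σ⁻¹ * σ' ∈ (Nst s : Subgroup (Ω ≃ₐ[L] Ω)) := by
  change σ.symm (σ' s) = s
  rw [AlgEquiv.symm_apply_eq]
  exact h.symm

private lemma tc06_dvd {n q : ℕ} {x : F} (hx : IsPrimitiveRoot x n) (hx0 : x ≠ 0)
    (hq : 0 < q) (h : x ^ q = x) : n ∣ q - 1 := by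
  apply hx.dvd_of_pow_eq_one
  have h1 : x ^ (q - 1) * x = x := by
    rw [← pow_succ, Nat.sub_add_cancel hq]
    exact h
  exact mul_right_cancel₀ hx0 (h1.trans (one_mul x).symm)

private lemma tc06_two (q : ℕ) : 2 * q.choose 2 = q * (q - 1) := by
  rw [Nat.choose_two_right]
  exact Nat.mul_div_cancel' (Nat.even_mul_pred_self q).two_dvd

/-- The action on `ζr`. -/
lemma TowDat.exists_q (hD : TowDat (L := L) ℓ r g E ζ ζr s) (U : F ≃ₐ[k] F)
    (hS0 : ∀ x : F, x ^ ℓ = -1 → U x = x) : ∃ q : ℕ, QOk ℓ q ∧ U ζr = ζr ^ q := by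
  have hlr : ℓ ^ r ≠ 0 := tc06_lr hD
  have hr0 : ζr ≠ 0 := by
    intro h0
    have h1 := hD.prim.pow_eq_one
    rw [h0, zero_pow hlr] at h1
    exact zero_ne_one h1
  have h1 : (U ζr) ^ ℓ ^ r = 1 := by
    rw [← map_pow, hD.prim.pow_eq_one, map_one]
  have : NeZero (ℓ ^ r) := ⟨hlr⟩
  obtain ⟨q, -, hq⟩ := hD.prim.eq_pow_of_pow_eq_one h1
  have hq0 : 0 < q := by
    rcases Nat.eq_zero_or_pos q with h0 | h0
    · exfalso
      rw [h0, pow_zero] at hq
      have h2 : ζr = 1 := U.injective (by rw [map_one]; exact hq.symm)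
      have h3 : IsPrimitiveRoot (1 : F) (ℓ ^ r) := by
        rw [← h2]
        exact hD.prim
      have h4 : ℓ ^ r = 1 := h3.unique IsPrimitiveRoot.one
      have h5 := Nat.one_lt_pow hD.rpos.ne' hD.glob.prime.one_lt
      omega
    · exact h0
  have hζF : IsPrimitiveRoot (algebraMap k F ζ) ℓ :=
    hD.glob.zeta.map_of_injective (algebraMap k F).injective
  have hζ0 : algebraMap k F ζ ≠ 0 := by
    rw [← hD.pow]
    exact pow_ne_zero _ hr0
  have hζq : (algebraMap k F ζ) ^ q = algebraMap k F ζ := by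
    have h2 : U (algebraMap k F ζ) = algebraMap k F ζ := U.commutes ζ
    rw [← hD.pow, map_pow, ← hq] at h2
    rw [← hD.pow, ← pow_mul, mul_comm, pow_mul]
    exact h2
  have hd : ℓ ∣ q - 1 := tc06_dvd hζF hζ0 hq0 hζq
  rcases hD.glob.prime.eq_two_or_odd' with hl | hl
  · rcases Nat.lt_or_ge 1 r with hr | hr
    · subst hl
      refine ⟨q, ⟨hq0, hd, ?_⟩, hq.symm⟩
      have hx : IsPrimitiveRoot (ζr ^ 2 ^ (r - 2)) 4 := by
        refine hD.prim.pow (Nat.pos_of_ne_zero hlr) ?_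
        have h2 : r = (r - 2) + 2 := by omega
        conv_lhs => rw [h2]
        rw [pow_add]
        norm_num
      have hx2 : (ζr ^ 2 ^ (r - 2)) ^ 2 = -1 := by
        rw [← pow_mul, ← pow_succ, show r - 2 + 1 = r - 1 by omega, hD.pow]
        exact hζF.eq_neg_one_of_two_right
      have hUx := hS0 _ hx2
      rw [map_pow, ← hq, ← pow_mul, mul_comm, pow_mul] at hUx
      have h4 : 4 ∣ q - 1 := tc06_dvd hx (pow_ne_zero _ hr0) hq0 hUx
      obtain ⟨m, hm⟩ := h4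
      have h5 := tc06_two q
      rw [hm] at h5
      exact ⟨q * m, by
        have h6 : 2 * q.choose 2 = 2 * (2 * (q * m)) := by rw [h5]; ring
        exact Nat.eq_of_mul_eq_mul_left (by norm_num) h6⟩
    · have hr1 : r = 1 := by
        have := hD.rpos
        omega
      have h2 : ζr = algebraMap k F ζ := by
        rw [← hD.pow, hr1, Nat.sub_self, pow_zero, pow_one]
      refine ⟨1, ⟨Nat.one_pos, by simp, by simp⟩, ?_⟩
      rw [pow_one, h2]
      exact U.commutes ζ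
  · refine ⟨q, ⟨hq0, hd, ?_⟩, hq.symm⟩
    have h2 : ℓ ∣ 2 * q.choose 2 := by
      rw [tc06_two]
      exact Dvd.dvd.mul_left hd q
    have h3 : Nat.Coprime ℓ 2 := Nat.coprime_two_right.mpr hl
    exact h3.dvd_of_dvd_mul_left h2

/-- `γ τ = g₀ τ ^ q γ` with `g₀` in `N`. -/
lemma TowDat.exists_comm (hD : TowDat (L := L) ℓ r g E ζ ζr s)
    {τ : Ω ≃ₐ[L] Ω} (hτ : τ s = xA F L Ω ζr * s) (γ : AutO k F L Ω) {q : ℕ}
    (hq : resF γ ζr = ζr ^ q) :
    ∃ g₀ ∈ (Nst s : Subgroup (Ω ≃ₐ[L] Ω)),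
      conjG γ τ = g₀ * τ ^ q ∧ γ * galA k F τ = galA k F g₀ * galA k F (τ ^ q) * γ := by
  have hc : conjG γ τ = (conjG γ τ * (τ ^ q)⁻¹) * τ ^ q := by
    rw [inv_mul_cancel_right]
  refine ⟨conjG γ τ * (τ ^ q)⁻¹, ?_, hc, ?_⟩
  · obtain ⟨i, hi⟩ := hD.exists_pow γ
    have h0 : xA F L Ω ζr ≠ 0 := by
      intro h
      have h1 := (xA_prim (L := L) (Ω := Ω) hD.prim).pow_eq_one
      rw [h, zero_pow (tc06_lr hD)] at h1
      exact zero_ne_one h1
    have h1 := conjG_spec γ τ s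
    rw [hτ, map_mul, xA_act, hq, xA_pow, hi, map_mul, map_pow, xA_galA] at h1
    have h2 : (conjG γ τ) s = xA F L Ω ζr ^ q * s := by
      have h3 : xA F L Ω ζr ^ i * (conjG γ τ) s = xA F L Ω ζr ^ i * (xA F L Ω ζr ^ q * s) := by
        rw [h1]
        ring
      exact mul_left_cancel₀ (pow_ne_zero _ h0) h3
    have h4 := tc06_tau hτ q
    have h5 : (τ ^ q)⁻¹ s = (xA F L Ω ζr ^ q)⁻¹ * s := by
      change (τ ^ q).symm s = _
      rw [AlgEquiv.symm_apply_eq, map_mul, map_inv₀, map_pow, xA_galA, h4, ← mul_assoc,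
        inv_mul_cancel₀ (pow_ne_zero _ h0), one_mul]
    change conjG γ τ ((τ ^ q)⁻¹ s) = s
    rw [h5, map_mul, map_inv₀, map_pow, xA_galA, h2, ← mul_assoc,
      inv_mul_cancel₀ (pow_ne_zero _ h0), one_mul]
  · rw [← map_mul, ← hc, galA_conjG, inv_mul_cancel_right]

/-- Two automorphisms over `k(t)` with the same restriction to `F` and the same value at `s` differ
by an element of `N`. -/
lemma exists_galA_nst {γ γ' : AutO k F L Ω} {s : Ω} (h : resF γ = resF γ')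
    (hs : (γ : Ω ≃+* Ω) s = (γ' : Ω ≃+* Ω) s) :
    ∃ η ∈ (Nst s : Subgroup (Ω ≃ₐ[L] Ω)), γ' = γ * galA k F η := by
  have h1 : resF (γ⁻¹ * γ') = 1 := by
    rw [map_mul, map_inv, h, inv_mul_cancel]
  obtain ⟨η, hη⟩ := exists_galA_of_resF_eq_one (γ⁻¹ * γ') h1
  refine ⟨η, ?_, by rw [hη, mul_inv_cancel_left]⟩
  change η s = s
  have h2 : η s = ((γ⁻¹ * γ' : AutO k F L Ω) : Ω ≃+* Ω) s := by
    rw [← hη]
    rfl
  rw [h2]
  change (γ : Ω ≃+* Ω).symm ((γ' : Ω ≃+* Ω) s) = s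
  rw [← hs]
  exact (γ : Ω ≃+* Ω).symm_apply_apply s

end Pool.Agent.Lib.MP_89bcae_ag.Sup

end

end

end

section

attribute [local instance 100000] Pool.Agent.Lib.MP_89bcae_ag.Brt.tffFields
attribute [local instance 100000] Pool.Agent.Lib.MP_89bcae_ag.Wt.ifrNF Pool.Agent.Lib.MP_89bcae_ag.Wt.iddNF

section

section

open Polynomial

open scoped Classical

set_option linter.unusedSectionVars false

namespace Pool.Agent.Lib.MP_89bcae_ag.Sup

universe u

variable {F M : Type u} [Field F] [Field M] [Algebra F M] {v : AbsoluteValue M ℝ} {a : F} {t : M}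

private lemma tc02_pow (τ : M ≃+* M) {δ z : M} (hτ : τ δ = z * δ) (hz : τ z = z) (n : ℕ) :
    (τ ^ n) δ = z ^ n * δ := by
  induction n with
  | zero => simp
  | succ n ih =>
    rw [pow_succ', RingAut.mul_apply, ih, map_mul, map_pow, hz, hτ]
    ring

/-- The values of the automorphisms at `π'`. -/
private lemma tc02_val {q : ℕ} (hq : q ≠ 0) {ξ : M} (hξ : IsPrimitiveRoot ξ q) {π' : M}
    (hπ0 : π' ≠ 0) (σ : M ≃+* M) (h : σ (π' ^ q) = π' ^ q) :
    ∃ i < q, σ π' = ξ ^ i * π' := by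
  have h3 : (σ π' / π') ^ q = 1 := by
    rw [div_pow, ← map_pow, h, div_self (pow_ne_zero _ hπ0)]
  have : NeZero q := ⟨hq⟩
  obtain ⟨j, hj, hj'⟩ := hξ.eq_pow_of_pow_eq_one h3
  exact ⟨j, hj, by rw [hj', div_mul_cancel₀ _ hπ0]⟩

private lemma tc02_v {p : ℕ} {ϖ : ℝ} {f : M[X]} {Γ : Subgroup (Sym f)}
    (hΓ : LocGrp p F v t ϖ Γ) {q : ℕ} {π' : M}
    (hπ0 : π' ≠ 0) (hπv : v π' ^ q = ϖ) : 0 < v π' ∧ v π' < 1 := by
  have hv0 : 0 < v π' := v.pos hπ0
  refine ⟨hv0, ?_⟩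
  by_contra hcon
  push Not at hcon
  have h1 : 1 ≤ v π' ^ q := one_le_pow₀ hcon
  rw [hπv] at h1
  exact absurd hΓ.lt_one (not_lt.mpr h1)

theorem LocGrp.exists_tame_pow {p ℓ r : ℕ} {ϖ : ℝ} {f : M[X]} {Γ : Subgroup (Sym f)}
    (hΓ : LocGrp p F v t ϖ Γ) (hℓ : ℓ.Prime) (hp : p.Coprime ℓ) {ξ : M}
    (hξ : IsPrimitiveRoot ξ (ℓ ^ r)) (hξΓ : ∀ σ ∈ Γ, (σ : M ≃+* M) ξ = ξ) {π' : M}
    (hπ0 : π' ≠ 0) (hπv : v π' ^ ℓ ^ r = ϖ)
    (hπΓ : ∀ σ ∈ Γ, (σ : M ≃+* M) (π' ^ ℓ ^ r) = π' ^ ℓ ^ r) :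
    ∃ τ ∈ Γ, (τ : M ≃+* M) π' = ξ * π' := by
  obtain ⟨hv0, hv1⟩ := tc02_v hΓ hπ0 hπv
  have hq0 : ℓ ^ r ≠ 0 := pow_ne_zero _ hℓ.ne_zero
  rcases Nat.eq_zero_or_pos r with hr | hr
  · subst hr
    refine ⟨1, Γ.one_mem, ?_⟩
    have h1 : ξ = 1 := by
      have h2 := hξ.pow_eq_one
      rwa [pow_zero, pow_one] at h2
    rw [h1, one_mul]
    rfl
  obtain ⟨s, rfl⟩ : ∃ s, r = s + 1 := ⟨r - 1, by omega⟩
  -- an element with exponent prime to `ℓ`
  obtain ⟨τ, hτ, j, hj, hj0, hτj⟩ : ∃ τ ∈ Γ, ∃ j < ℓ ^ (s + 1), ¬ ℓ ∣ j ∧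
      (τ : M ≃+* M) π' = ξ ^ j * π' := by
    by_contra hcon
    push Not at hcon
    have h1 : ∀ σ ∈ Γ, (σ : M ≃+* M) (π' ^ ℓ ^ s) = π' ^ ℓ ^ s := by
      intro σ hσ
      obtain ⟨j, hj, hj'⟩ := tc02_val hq0 hξ hπ0 (σ : M ≃+* M) (hπΓ σ hσ)
      by_cases hj0 : ℓ ∣ j
      · obtain ⟨i, rfl⟩ := hj0
        rw [map_pow, hj', mul_pow, ← pow_mul]
        have h2 : ℓ * i * ℓ ^ s = ℓ ^ (s + 1) * i := by ring
        rw [h2, pow_mul, hξ.pow_eq_one, one_pow, one_mul]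
      · exact absurd hj' (hcon σ hσ j hj hj0)
    have h3 := hΓ.disc _ (pow_ne_zero (ℓ ^ s) hπ0) h1
    rw [← hπv, map_pow, pow_succ, pow_mul] at h3
    have h4 := Val.dvd_of_zpow hp (pow_pos hv0 (ℓ ^ s))
      (pow_lt_one₀ hv0.le hv1 (pow_ne_zero _ hℓ.ne_zero)) 1 (by rw [zpow_one]; exact h3)
    have h5 : (ℓ : ℤ) ≤ 1 := Int.le_of_dvd one_pos h4
    have h6 := hℓ.one_lt
    omega
  -- a power
  have hcop : Nat.Coprime j (ℓ ^ (s + 1)) :=
    Nat.Coprime.pow_right _ (Nat.Coprime.symm ((Nat.Prime.coprime_iff_not_dvd hℓ).mpr hj0))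
  obtain ⟨i, -, hi⟩ := Nat.exists_mul_mod_eq_one_of_coprime hcop
    (Nat.one_lt_pow (by omega) hℓ.one_lt)
  refine ⟨τ ^ i, Subgroup.pow_mem _ hτ i, ?_⟩
  have h1 : ((τ ^ i : Sym f) : M ≃+* M) = (τ : M ≃+* M) ^ i := rfl
  rw [h1, tc02_pow (τ : M ≃+* M) hτj (by rw [map_pow, hξΓ τ hτ]), ← pow_mul]
  congr 1
  rw [← Nat.div_add_mod (j * i) (ℓ ^ (s + 1)), hi, pow_add, pow_mul, hξ.pow_eq_one, one_pow,
    one_mul, pow_one]

/-- The stabilizer of `π'` in `Γ`. -/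
def stabG {f : M[X]} (Γ : Subgroup (Sym f)) (π' : M) : Subgroup (Sym f) where
  carrier := {σ | σ ∈ Γ ∧ (σ : M ≃+* M) π' = π'}
  mul_mem' := by
    rintro σ τ ⟨h1, h2⟩ ⟨h3, h4⟩
    refine ⟨Γ.mul_mem h1 h3, ?_⟩
    change (σ : M ≃+* M) ((τ : M ≃+* M) π') = π'
    rw [h4, h2]
  one_mem' := ⟨Γ.one_mem, rfl⟩
  inv_mem' := by
    rintro σ ⟨h1, h2⟩
    refine ⟨Γ.inv_mem h1, ?_⟩
    change (σ : M ≃+* M).symm π' = π'
    rw [RingEquiv.symm_apply_eq, h2]

theorem LocGrp.stab {p ℓ r : ℕ} {ϖ : ℝ} {f : M[X]} {Γ : Subgroup (Sym f)}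
    (hΓ : LocGrp p F v t ϖ Γ) (hℓ : ℓ.Prime) {ξ : M}
    (hξ : IsPrimitiveRoot ξ (ℓ ^ r)) (hξΓ : ∀ σ ∈ Γ, (σ : M ≃+* M) ξ = ξ) {π' : M}
    (hπ0 : π' ≠ 0) (hπv : v π' ^ ℓ ^ r = ϖ)
    (hπΓ : ∀ σ ∈ Γ, (σ : M ≃+* M) (π' ^ ℓ ^ r) = π' ^ ℓ ^ r) :
    LocGrp p F v t (v π') (stabG Γ π') := by
  obtain ⟨hv0, hv1⟩ := tc02_v hΓ hπ0 hπv
  have hq0 : ℓ ^ r ≠ 0 := pow_ne_zero _ hℓ.ne_zero
  have hξ0 : ξ ≠ 0 := hξ.ne_zero hq0
  have hΓ₀ : ∀ κ ∈ stabG Γ π', κ ∈ Γ ∧ (κ : M ≃+* M) π' = π' := fun κ hκ => hκ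
  refine ⟨hv0, hv1, fun σ hσ => hΓ.inv σ hσ.1, fun σ hσ => hΓ.fix σ hσ.1,
    fun σ hσ => hΓ.fixt σ hσ.1, fun x hx0 hx => ?_⟩
  -- the smallest exponent
  have hex : ∃ d : ℕ, 0 < d ∧ ∃ σ ∈ Γ, (σ : M ≃+* M) π' = ξ ^ d * π' := by
    refine ⟨ℓ ^ r, Nat.pos_of_ne_zero hq0, 1, Γ.one_mem, ?_⟩
    rw [hξ.pow_eq_one, one_mul]
    rfl
  have hd0 : 0 < Nat.find hex := (Nat.find_spec hex).1
  obtain ⟨τ, hτ, hτd⟩ := (Nat.find_spec hex).2
  have hdmin : ∀ i : ℕ, 0 < i → (∃ σ ∈ Γ, (σ : M ≃+* M) π' = ξ ^ i * π') → Nat.find hex ≤ i :=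
    fun i hi h => Nat.find_min' hex ⟨hi, h⟩
  generalize Nat.find hex = d at hd0 hτd hdmin
  have hfixζ : ∀ σ ∈ Γ, ∀ i : ℕ, (σ : M ≃+* M) (ξ ^ i) = ξ ^ i := fun σ hσ i => by
    rw [map_pow, hξΓ σ hσ]
  have hτi : ∀ i : ℕ, ((τ ^ i : Sym f) : M ≃+* M) π' = ξ ^ (d * i) * π' := fun i => by
    have h1 := tc02_pow (τ : M ≃+* M) hτd (hfixζ τ hτ d) i
    rw [← pow_mul] at h1
    exact h1
  have hinv : ∀ (σ : Sym f) (y : M),
      ((σ⁻¹ : Sym f) : M ≃+* M) ((σ : M ≃+* M) y) = y := fun σ y =>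
    (σ : M ≃+* M).symm_apply_apply y
  -- all the exponents are multiples of `d`
  have hval : ∀ σ ∈ Γ, ∀ i : ℕ, (σ : M ≃+* M) π' = ξ ^ i * π' → d ∣ i := by
    intro σ hσ i hi
    by_contra hcon
    have h0 : 0 < i % d := Nat.pos_of_ne_zero fun h => hcon (Nat.dvd_of_mod_eq_zero h)
    have h1 : (((τ ^ (i / d))⁻¹ * σ : Sym f) : M ≃+* M) π' = ξ ^ (i % d) * π' := by
      have hmem : (τ ^ (i / d))⁻¹ ∈ Γ := Γ.inv_mem (Γ.pow_mem hτ _)
      change (((τ ^ (i / d))⁻¹ : Sym f) : M ≃+* M) ((σ : M ≃+* M) π') = _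
      have h2 : ξ ^ i * π' = ξ ^ (i % d) * (ξ ^ (d * (i / d)) * π') := by
        rw [← mul_assoc, ← pow_add, add_comm, Nat.div_add_mod]
      rw [hi, h2, ← hτi, map_mul, hfixζ _ hmem, hinv]
    have h3 := hdmin _ h0 ⟨_, Γ.mul_mem (Γ.inv_mem (Γ.pow_mem hτ _)) hσ, h1⟩
    exact absurd (Nat.mod_lt i hd0) (not_lt.mpr h3)
  obtain ⟨n, hn⟩ : d ∣ ℓ ^ r := by
    refine hval 1 Γ.one_mem _ ?_
    rw [hξ.pow_eq_one, one_mul]
    rfl
  have hn0 : n ≠ 0 := by
    rintro rfl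
    exact hq0 (by rw [hn, mul_zero])
  -- the norm
  have hκx : ∀ κ ∈ stabG Γ π', ∀ i : ℕ, (κ : M ≃+* M) (((τ ^ i : Sym f) : M ≃+* M) x) =
      ((τ ^ i : Sym f) : M ≃+* M) x := by
    intro κ hκ i
    have h1 : (τ ^ i)⁻¹ * κ * τ ^ i ∈ stabG Γ π' := by
      refine ⟨Γ.mul_mem (Γ.mul_mem (Γ.inv_mem (Γ.pow_mem hτ i)) (hΓ₀ κ hκ).1)
        (Γ.pow_mem hτ i), ?_⟩
      change (((τ ^ i)⁻¹ : Sym f) : M ≃+* M) ((κ : M ≃+* M)
        (((τ ^ i : Sym f) : M ≃+* M) π')) = π'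
      rw [hτi, map_mul, hfixζ κ (hΓ₀ κ hκ).1, (hΓ₀ κ hκ).2, ← hτi, hinv]
    have h3 := hx _ h1
    change (((τ ^ i)⁻¹ : Sym f) : M ≃+* M) ((κ : M ≃+* M)
        (((τ ^ i : Sym f) : M ≃+* M) x)) = x at h3
    have h4 := congrArg (((τ ^ i : Sym f) : M ≃+* M)) h3
    exact ((((τ ^ i : Sym f) : M ≃+* M)).apply_symm_apply _).symm.trans h4
  have hN0 : ∀ σ ∈ stabG Γ π', (σ : M ≃+* M) (∏ i ∈ Finset.range n,
      ((τ ^ i : Sym f) : M ≃+* M) x) =
        ∏ i ∈ Finset.range n, ((τ ^ i : Sym f) : M ≃+* M) x := by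
    intro σ hσ
    rw [map_prod]
    exact Finset.prod_congr rfl fun i _ => hκx σ hσ i
  have hτN : (τ : M ≃+* M) (∏ i ∈ Finset.range n, ((τ ^ i : Sym f) : M ≃+* M) x) =
      ∏ i ∈ Finset.range n, ((τ ^ i : Sym f) : M ≃+* M) x := by
    rw [map_prod]
    have h1 : ∀ i ∈ Finset.range n, (τ : M ≃+* M) (((τ ^ i : Sym f) : M ≃+* M) x) =
        ((τ ^ (i + 1) : Sym f) : M ≃+* M) x := by
      intro i _
      rw [pow_succ']
      rfl
    rw [Finset.prod_congr rfl h1]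
    have h3 : ((τ ^ n : Sym f) : M ≃+* M) x = x := by
      refine hx _ ⟨Γ.pow_mem hτ n, ?_⟩
      rw [hτi, ← hn, hξ.pow_eq_one, one_mul]
    obtain ⟨m, hm⟩ : ∃ m, n = m + 1 := ⟨n - 1, by omega⟩
    have h4 : ((τ ^ (m + 1) : Sym f) : M ≃+* M) x = x := by
      rw [← hm]; exact h3
    have h5 : ∏ i ∈ Finset.range n, ((τ ^ (i + 1) : Sym f) : M ≃+* M) x =
        (∏ i ∈ Finset.range m, ((τ ^ (i + 1) : Sym f) : M ≃+* M) x) * x := by
      rw [hm, Finset.prod_range_succ, h4]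
    have h6 : ∏ i ∈ Finset.range n, ((τ ^ i : Sym f) : M ≃+* M) x =
        (∏ i ∈ Finset.range m, ((τ ^ (i + 1) : Sym f) : M ≃+* M) x) * x := by
      rw [hm, Finset.prod_range_succ']
      rfl
    rw [h5, h6]
  have hτN' : ∀ i : ℕ, (((τ ^ i : Sym f) : M ≃+* M))
      (∏ i ∈ Finset.range n, ((τ ^ i : Sym f) : M ≃+* M) x) =
        ∏ i ∈ Finset.range n, ((τ ^ i : Sym f) : M ≃+* M) x := by
    intro i
    induction i with
    | zero => rfl
    | succ i ih =>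
      rw [pow_succ]
      change ((τ ^ i : Sym f) : M ≃+* M) ((τ : M ≃+* M)
        (∏ i ∈ Finset.range n, ((τ ^ i : Sym f) : M ≃+* M) x)) = _
      rw [hτN, ih]
  have hN : ∀ σ ∈ Γ, (σ : M ≃+* M) (∏ i ∈ Finset.range n, ((τ ^ i : Sym f) : M ≃+* M) x) =
      ∏ i ∈ Finset.range n, ((τ ^ i : Sym f) : M ≃+* M) x := by
    intro σ hσ
    obtain ⟨i, -, hi⟩ := tc02_val hq0 hξ hπ0 (σ : M ≃+* M) (hπΓ σ hσ)
    obtain ⟨j, rfl⟩ := hval σ hσ i hi
    have h1 : (τ ^ j)⁻¹ * σ ∈ stabG Γ π' := by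
      refine ⟨Γ.mul_mem (Γ.inv_mem (Γ.pow_mem hτ j)) hσ, ?_⟩
      change (((τ ^ j)⁻¹ : Sym f) : M ≃+* M) ((σ : M ≃+* M) π') = π'
      rw [hi, ← hτi, hinv]
    have h3 := hN0 _ h1
    change (((τ ^ j)⁻¹ : Sym f) : M ≃+* M) ((σ : M ≃+* M) _) = _ at h3
    have h4 := congrArg (((τ ^ j : Sym f) : M ≃+* M)) h3
    rw [hτN' j] at h4
    exact ((((τ ^ j : Sym f) : M ≃+* M)).apply_symm_apply _).symm.trans h4
  have hN1 : v (∏ i ∈ Finset.range n, ((τ ^ i : Sym f) : M ≃+* M) x) = v x ^ n := by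
    rw [map_prod, Finset.prod_congr rfl fun i _ => hΓ.inv _ (Γ.pow_mem hτ i) x,
      Finset.prod_const, Finset.card_range]
  have hN2 := hΓ.disc _ (Finset.prod_ne_zero_iff.mpr fun i _ =>
    (EmbeddingLike.map_ne_zero_iff (f := ((τ ^ i : Sym f) : M ≃+* M))).mpr hx0) hN
  have hN3 := hN2.pow d
  rw [hN1, ← hπv, ← pow_mul, mul_comm n d, ← hn] at hN3
  exact Val.root hq0 hv0 (v.pos hx0) hN3

end Pool.Agent.Lib.MP_89bcae_ag.Sup

end

section

open Polynomial IsDedekindDomain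

open scoped Classical

set_option linter.unusedSectionVars false

namespace Pool.Agent.Lib.MP_89bcae_ag.Sup

universe u

variable {k F L Ω : Type u} [Field k] [Field F] [Algebra k F] [Field L] [Algebra F[X] L]
  [Field Ω] [Algebra L Ω] [IsAlgClosure k F] [IsFractionRing F[X] L] [IsAlgClosure L Ω]
  [Algebra F Ω] {ℓ : ℕ} {g E : k[X]} [hG : IsGood ℓ (cOver k F L Ω g 1)] {ζ : k}
  {hζ : (zA F L Ω ζ) ^ ℓ = 1} {N : Subgroup (Ω ≃ₐ[L] Ω)}

/-- Local data at `t = a`. -/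
structure LocDat (F L : Type u) [Field F] [Field L] [Algebra F[X] L] [IsFractionRing F[X] L]
    (a : F) (M : Type u) [Field M] [Algebra ((plc a).adicCompletion L) M] [Algebra L M]
    [IsScalarTower L ((plc a).adicCompletion L) M] [Algebra F M] (v : AbsoluteValue M ℝ) :
    Prop where
  compat : CompatF F L M
  ctx : LocCtx v a (tA F L M)
  inv : ∀ (σ : M ≃ₐ[(plc a).adicCompletion L] M) x, v (σ x) = v x
  val : ∀ x : (plc a).adicCompletion L, x ≠ 0 → ∃ i : ℤ,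
    v (algebraMap ((plc a).adicCompletion L) M x) = v (tA F L M - algebraMap F M a) ^ i
  iso : ∀ (w : M ≃+* M) (φ : (plc a).adicCompletion L ≃+* (plc a).adicCompletion L),
    (∀ x, Valued.v (φ x) = Valued.v x) →
    (∀ x, w (algebraMap ((plc a).adicCompletion L) M x) =
      algebraMap ((plc a).adicCompletion L) M (φ x)) → ∀ x, v (w x) = v x

theorem exists_locDat [IsAlgClosed F] (a : F) :
    ∃ (M : Type u) (_ : Field M) (_ : Algebra ((plc a).adicCompletion L) M)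
      (_ : IsAlgClosure ((plc a).adicCompletion L) M) (_ : Algebra L M)
      (_ : IsScalarTower L ((plc a).adicCompletion L) M) (_ : Algebra F M)
      (v : AbsoluteValue M ℝ) (_ : Ω →ₐ[L] M), LocDat F L a M v := by
  have hΩalg : Algebra.IsAlgebraic L Ω := IsAlgClosure.isAlgebraic
  let iF : Algebra F (AlgebraicClosure ((plc a).adicCompletion L)) :=
    ((algebraMap L (AlgebraicClosure ((plc a).adicCompletion L))).comp
      ((algebraMap F[X] L).comp (C : F →+* F[X]))).toAlgebra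
  have hFM : CompatF F L (AlgebraicClosure ((plc a).adicCompletion L)) := fun _ => rfl
  have hXL : ∀ P : F[X], algebraMap ((plc a).adicCompletion L)
      (AlgebraicClosure ((plc a).adicCompletion L))
      (algebraMap F[X] ((plc a).adicCompletion L) P) =
      algebraMap L (AlgebraicClosure ((plc a).adicCompletion L)) (algebraMap F[X] L P) := by
    intro P
    rw [IsScalarTower.algebraMap_apply F[X] L ((plc a).adicCompletion L),
      ← IsScalarTower.algebraMap_apply L ((plc a).adicCompletion L)]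
  obtain ⟨v, hv, hval, hinv, hsemi⟩ := exists_locCtx (L := L)
    (M := AlgebraicClosure ((plc a).adicCompletion L)) a (fun c => by rw [hXL, hFM])
  rw [hXL] at hv hval
  let j : Ω →ₐ[L] AlgebraicClosure ((plc a).adicCompletion L) := IsAlgClosed.lift
  exact ⟨AlgebraicClosure ((plc a).adicCompletion L), inferInstance, inferInstance, inferInstance,
    inferInstance, inferInstance, iF, v, j, ⟨hFM, hv, hinv, hval, hsemi⟩⟩

section

variable {a : F} {M : Type u} [Field M] [Algebra ((plc a).adicCompletion L) M]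
  [IsAlgClosure ((plc a).adicCompletion L) M] [Algebra L M]
  [IsScalarTower L ((plc a).adicCompletion L) M] [Algebra F M] {v : AbsoluteValue M ℝ}

lemma LocDat.hfK (g D : k[X]) : ((curvePoly k F L g D).map
    (algebraMap L ((plc a).adicCompletion L))).map
      (algebraMap ((plc a).adicCompletion L) M) = cOver k F L M g D := by
  rw [Polynomial.map_map, ← IsScalarTower.algebraMap_eq]

theorem LocDat.locGrp (hd : LocDat F L a M v) (g D : k[X]) :
    LocGrp (ringExpChar ((plc a).adicCompletion L)) F v (tA F L M)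
      (v (tA F L M - algebraMap F M a))
      (galSym (LocDat.hfK (k := k) (F := F) (L := L) (a := a) (M := M) g D)).range := by
  refine hd.ctx.locGrp _ hd.inv hd.val (fun c =>
    ⟨algebraMap L ((plc a).adicCompletion L) (algebraMap F[X] L (C c)), ?_⟩)
    ⟨algebraMap L ((plc a).adicCompletion L) (algebraMap F[X] L X), ?_⟩
  · rw [← IsScalarTower.algebraMap_apply, ← hd.compat]
  · rw [← IsScalarTower.algebraMap_apply]
    rfl

lemma LocDat.coprime (H : GlobHyp ℓ g E ζ) :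
    (ringExpChar ((plc a).adicCompletion L)).Coprime ℓ := by
  have hℓK : (ℓ : (plc a).adicCompletion L) ≠ 0 := by
    intro h0
    apply H.ne
    let ι : k →+* (plc a).adicCompletion L :=
      (algebraMap L ((plc a).adicCompletion L)).comp ((algebraMap F[X] L).comp
        ((C : F →+* F[X]).comp (algebraMap k F)))
    apply ι.injective
    rw [map_natCast, map_zero]
    exact h0
  rcases expChar_is_prime_or_one ((plc a).adicCompletion L)
    (ringExpChar ((plc a).adicCompletion L)) with h1 | h1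
  · rw [Nat.coprime_primes h1 H.prime]
    intro h2
    apply hℓK
    rw [← h2]
    have h3 : ringExpChar ((plc a).adicCompletion L) = ringChar ((plc a).adicCompletion L) := by
      have h4 : 1 < ringExpChar ((plc a).adicCompletion L) := h1.one_lt
      unfold ringExpChar at h4 ⊢
      rcases max_cases (ringChar ((plc a).adicCompletion L)) 1 with h5 | h5
      · exact h5.1
      · rw [h5.1] at h4
        exact absurd h4 (lt_irrefl _)
    rw [h3]
    exact ringChar.Nat.cast_ringChar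
  · rw [h1]
    exact Nat.coprime_one_left ℓ

/-- The restriction to `Ω` of an automorphism of `M` over the completion. -/
lemma LocDat.restrict (j : Ω →ₐ[L] M) (σ : M ≃ₐ[(plc a).adicCompletion L] M) :
    ∃ σ' : Ω ≃ₐ[L] Ω, ∀ x, j (σ' x) = σ (j x) :=
  exists_restrict j (σ.restrictScalars L)

/-- A local semilinear automorphism with a given restriction `U` to `F`, `U a = a`. -/
theorem LocDat.exists_semilinear (hd : LocDat F L a M v) (j : Ω →ₐ[L] M)
    (γ₀ : AutO k F L Ω) (ha : resF γ₀ a = a) :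
    ∃ (w : M ≃+* M) (φ : (plc a).adicCompletion L ≃+* (plc a).adicCompletion L)
      (γ : AutO k F L Ω),
      (∀ x, w (algebraMap ((plc a).adicCompletion L) M x) =
        algebraMap ((plc a).adicCompletion L) M (φ x)) ∧
      (∀ x, v (w x) = v x) ∧ (∀ x, j ((γ : Ω ≃+* Ω) x) = w (j x)) ∧ resF γ = resF γ₀ := by
  have hFc : IsAlgClosed F := IsAlgClosure.isAlgClosed k
  have hφ : ∃ φ : (plc a).adicCompletion L ≃+* (plc a).adicCompletion L,
      (∀ x : L, φ (algebraMap L _ x) = algebraMap L _ (coefL L (resF γ₀ : F ≃+* F) x)) ∧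
      ∀ x, Valued.v (φ x) = Valued.v x := by
    have h1 := exists_adic_equiv L (resF γ₀ : F ≃+* F) a
    have h2 : (resF γ₀ : F ≃+* F) a = a := ha
    rwa [h2] at h1
  obtain ⟨φ, hφL, hφv⟩ := hφ
  obtain ⟨w, hw⟩ := exists_extend_alg (M := M) φ
  have hwL : ∀ x : L, w (algebraMap L M x) =
      algebraMap L M (coefL L (resF γ₀ : F ≃+* F) x) := by
    intro x
    rw [IsScalarTower.algebraMap_apply L ((plc a).adicCompletion L) M, hw, hφL,
      ← IsScalarTower.algebraMap_apply L ((plc a).adicCompletion L)]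
  obtain ⟨γ₁, hγ₁, hjγ₁⟩ := exists_compat j (coefL L (resF γ₀ : F ≃+* F)) w hwL
  have hγP : ∀ P : F[X], γ₁ (algebraMap L Ω (algebraMap F[X] L P)) =
      algebraMap L Ω (algebraMap F[X] L (P.map (resF γ₀ : F →+* F))) := by
    intro P
    rw [hγ₁, coefL_algebraMap]
    rfl
  let γ' : AutO k F L Ω := ⟨γ₁, fun p => by
    have h1 := hγP (p.map (algebraMap k F))
    have h2 : (p.map (algebraMap k F)).map (resF γ₀ : F →+* F) = p.map (algebraMap k F) := by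
      rw [Polynomial.map_map]
      congr 1
      exact (resF γ₀ : F →ₐ[k] F).comp_algebraMap
    rw [h2] at h1
    exact h1⟩
  have hres : resF γ' = resF γ₀ := by
    ext x
    have h1 := resF_spec γ' (C x)
    have h2 := hγP (C x)
    have h3 : (γ' : Ω ≃+* Ω) (algebraMap L Ω (algebraMap F[X] L (C x))) =
      γ₁ (algebraMap L Ω (algebraMap F[X] L (C x))) := rfl
    rw [h3, h2] at h1
    have h4 := IsFractionRing.injective F[X] L ((algebraMap L Ω).injective h1)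
    rw [Polynomial.map_C, Polynomial.map_C] at h4
    exact (C_injective h4).symm
  exact ⟨w, φ, γ', hw, hd.iso w φ hφv hw, hjγ₁, hres⟩

end

end Pool.Agent.Lib.MP_89bcae_ag.Sup

end

section

open Polynomial

open scoped Classical

set_option linter.unusedSectionVars false

namespace Pool.Agent.Lib.MP_89bcae_ag.Sup

universe u

variable {F M : Type u} [Field F] [Field M] [Algebra F M] {v : AbsoluteValue M ℝ} {a : F} {t : M}

theorem LocCtx.eval_q (h : LocCtx v a t) {ℓ : ℕ} (hℓ : ℓ ≠ 0) {g D : F[X]} {δ : M}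
    (hB : BadCtx g D a t δ ℓ) {ζ : F} (hζ : IsPrimitiveRoot ζ ℓ)
    (u : M ≃+* M) (U : F ≃+* F) (huv : ∀ x, v (u x) = v x)
    (huF : ∀ c : F, u (algebraMap F M c) = algebraMap F M (U c)) (hut : u t = t)
    (hUζ : U ζ = ζ) (huδ : u δ = δ) (R : Finset F) (hR : ∀ β, g.eval β = a → β ∈ R) {lc : F}
    (hDg : D.comp g = C lc * ∏ β ∈ R, (X - C β)) (hUR : ∀ β ∈ R, U β = β)
    (e : F → ℤ) {θ z : M} (hθ : aeval θ g = t)
    (hz : z ^ ℓ = ∏ β ∈ R, (θ - algebraMap F M β) ^ e β) (q : ℤ)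
    (hq : u z = algebraMap F M ζ ^ q * z) :
    ∀ x : F, x ^ ℓ = lc ^ (-e (rs F v θ)) *
        ∏ β ∈ R.erase (rs F v θ), (rs F v θ - β) ^ (e β - e (rs F v θ)) →
      U x = ζ ^ q * x := by
  intro x hx
  set β₀ := rs F v θ with hβ₀
  have hβR : β₀ ∈ R := hR β₀ (h.eval_rs hB hθ)
  have hres : v (θ - algebraMap F M β₀) < 1 := h.v_sub_rs (h.v_root_le hB.monic hB.deg hθ)
  have hDt : aeval t D = algebraMap F M lc * ∏ β ∈ R, (θ - algebraMap F M β) := by
    have h1 : aeval θ (D.comp g) = aeval t D := by rw [aeval_comp, hθ]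
    rw [← h1, hDg, map_mul, map_prod, aeval_C]
    congr 1
    apply Finset.prod_congr rfl
    intro β _
    rw [map_sub, aeval_X, aeval_C]
  have hne := hB.ne
  rw [hDt] at hne
  have hlcM : algebraMap F M lc ≠ 0 := left_ne_zero_of_mul hne
  have hlc : lc ≠ 0 := by
    intro h0
    apply hlcM
    rw [h0, map_zero]
  have hθβ : ∀ β ∈ R, θ - algebraMap F M β ≠ 0 := fun β hβ =>
    Finset.prod_ne_zero_iff.mp (right_ne_zero_of_mul hne) β hβ
  have hδ0 : δ ≠ 0 := by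
    intro h0
    apply hB.ne
    rw [← hB.delta, h0, zero_pow hℓ]
  set Y := z / δ ^ e β₀ with hY
  have hYl : Y ^ ℓ = algebraMap F M (lc ^ (-e β₀)) *
      ∏ β ∈ R.erase β₀, (θ - algebraMap F M β) ^ (e β - e β₀) := by
    have h1 : (δ ^ e β₀) ^ ℓ = (aeval t D) ^ e β₀ := by
      rw [← hB.delta, ← zpow_natCast, ← zpow_natCast, ← zpow_mul, ← zpow_mul, mul_comm]
    have h2 : ∏ β ∈ R.erase β₀, (θ - algebraMap F M β) ^ (e β - e β₀) =
        ∏ β ∈ R, (θ - algebraMap F M β) ^ (e β - e β₀) :=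
      Finset.prod_erase _ (by rw [sub_self, zpow_zero])
    have h3 : ∏ β ∈ R, (θ - algebraMap F M β) ^ (e β - e β₀) =
        (∏ β ∈ R, (θ - algebraMap F M β) ^ e β) / (∏ β ∈ R, (θ - algebraMap F M β)) ^ e β₀ := by
      rw [← Finset.prod_zpow, ← Finset.prod_div_distrib]
      apply Finset.prod_congr rfl
      intro β hβ
      rw [zpow_sub₀ (hθβ β hβ)]
    rw [hY, div_pow, hz, h1, hDt, h2, h3, mul_zpow, map_zpow₀, zpow_neg,
      div_mul_eq_div_div_swap, div_eq_inv_mul]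
  have hw0 : ∀ β ∈ R.erase β₀, β₀ - β ≠ 0 := fun β hβ =>
    sub_ne_zero.mpr (Finset.ne_of_mem_erase hβ).symm
  have hrβ : ∀ β : F, v ((θ - algebraMap F M β) - algebraMap F M (β₀ - β)) < 1 := by
    intro β
    have h1 : (θ - algebraMap F M β) - algebraMap F M (β₀ - β) = θ - algebraMap F M β₀ := by
      rw [map_sub]; ring
    rw [h1]
    exact hres
  have hprod : ∀ S : Finset F, S ⊆ R.erase β₀ →
      v (∏ β ∈ S, (θ - algebraMap F M β) ^ (e β - e β₀) -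
        algebraMap F M (∏ β ∈ S, (β₀ - β) ^ (e β - e β₀))) < 1 := by
    intro S
    induction S using Finset.induction_on with
    | empty =>
      intro _
      rw [Finset.prod_empty, Finset.prod_empty, map_one, sub_self, map_zero]
      exact zero_lt_one
    | insert b S hb ih =>
      intro hS
      rw [Finset.prod_insert hb, Finset.prod_insert hb]
      exact h.residue_mul (h.residue_zpow (hrβ b) (hw0 b (hS (Finset.mem_insert_self _ _))) _)
        (ih fun y hy => hS (Finset.mem_insert_of_mem hy))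
  have hYr : v (Y ^ ℓ - algebraMap F M (x ^ ℓ)) < 1 := by
    rw [hYl, hx]
    apply h.residue_mul _ (hprod _ subset_rfl)
    rw [sub_self, map_zero]
    exact zero_lt_one
  have hx0 : x ≠ 0 := by
    intro h0
    rw [h0, zero_pow hℓ] at hx
    exact mul_ne_zero (zpow_ne_zero _ hlc)
      (Finset.prod_ne_zero_iff.mpr fun β hβ => zpow_ne_zero _ (hw0 β hβ)) hx.symm
  have hvYl : v (Y ^ ℓ) = 1 := h.v_eq_one hYr (pow_ne_zero _ hx0)
  have hvY : v Y = 1 := by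
    rw [map_pow] at hvYl
    exact (pow_eq_one_iff_of_nonneg (v.nonneg _) hℓ).mp hvYl
  obtain ⟨c, hc⟩ := h.residue Y hvY.le
  have hc0 : c ≠ 0 := by
    intro h0
    rw [h0, map_zero, sub_zero, hvY] at hc
    exact lt_irrefl _ hc
  have hcl : c ^ ℓ = x ^ ℓ := by
    have h1 := h.residue_zpow hc hc0 (ℓ : ℤ)
    rw [zpow_natCast, zpow_natCast] at h1
    exact h.residue_unique h1 hYr
  have : NeZero ℓ := ⟨hℓ⟩
  obtain ⟨i, -, hi⟩ := hζ.eq_pow_of_pow_eq_one (show (c / x) ^ ℓ = 1 by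
    rw [div_pow, hcl, div_self (pow_ne_zero _ hx0)])
  have hcx : c = ζ ^ i * x := by rw [hi, div_mul_cancel₀ _ hx0]
  have huY : u Y = algebraMap F M ζ ^ q * Y := by
    rw [hY, map_div₀, map_zpow₀, huδ, hq, mul_div_assoc]
  have h1 : v (u Y - algebraMap F M (U c)) < 1 := by
    rw [← huF, ← map_sub, huv]
    exact hc
  have h2 : v (u Y - algebraMap F M (ζ ^ q * c)) < 1 := by
    rw [huY]
    apply h.residue_mul _ hc
    rw [map_zpow₀, sub_self, map_zero]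
    exact zero_lt_one
  have h3 : U c = ζ ^ q * c := h.residue_unique h1 h2
  rw [hcx, map_mul, map_pow, hUζ] at h3
  have hζi : ζ ^ i ≠ 0 := pow_ne_zero _ (hζ.ne_zero hℓ)
  apply mul_left_cancel₀ hζi
  rw [h3]
  ring

end Pool.Agent.Lib.MP_89bcae_ag.Sup

end

section

open Polynomial

open scoped Classical

set_option linter.unusedSectionVars false

namespace Pool.Agent.Lib.MP_89bcae_ag.Sup

universe u

variable {F M : Type u} [Field F] [Field M] [Algebra F M] {v : AbsoluteValue M ℝ} {a : F} {t : M}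

lemma LocCtx.badCtx_lin' (h : LocCtx v a t) [IsAlgClosed M] {g : F[X]} {ℓ : ℕ} (hg : g.Monic)
    (hm : g.natDegree ≠ 0) (hmℓ : g.natDegree.Coprime ℓ)
    (hroots : ∀ r, g.eval r = a → (derivative g).eval r ≠ 0) {δ : M}
    (hδ : δ ^ ℓ = t - algebraMap F M a) : BadCtx g (X - C a) a t δ ℓ := by
  refine ⟨hg, hm, hmℓ, ?_, ?_, hroots, ?_, ?_⟩
  · simp
  · simp
  · rw [hδ]; simp
  · simp only [map_sub, aeval_X, aeval_C]
    exact sub_ne_zero.mpr h.ne

theorem LocCtx.good_fixed (h : LocCtx v a t) {ℓ p : ℕ} (hp : p.Coprime ℓ) {g : F[X]}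
    (hg : g.Monic) (hm : g.natDegree ≠ 0) (hmℓ : g.natDegree.Coprime ℓ)
    (hroots : ∀ r, g.eval r = a → (derivative g).eval r ≠ 0) {f : M[X]}
    (hf : f = locPoly g t 1) [hG : IsGood ℓ f] {ζ : F} (hζ : IsPrimitiveRoot ζ ℓ)
    (hζ' : IsPrimitiveRoot (algebraMap F M ζ) ℓ) {ϖ : ℝ} {Γ : Subgroup (Sym f)}
    (hΓ : LocGrp p F v t ϖ Γ) {π' : M} (hπ : v π' = ϖ)
    (hπΓ : ∀ σ ∈ Γ, (σ : M ≃+* M) π' = π') (Q : Jac ℓ f)
    (hQ : ∀ σ ∈ Γ, zJ (algebraMap F M ζ) hζ'.pow_eq_one (symJ σ Q - Q) = symJ σ Q - Q) :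
    ∀ σ ∈ Γ, symJ σ Q = Q := by
  subst hf
  have hAC : IsAlgClosed M := hG.alg
  have hℓ0 : ℓ ≠ 0 := hG.prime.ne_zero
  have hf0 : locPoly g t 1 ≠ 0 := locPoly_ne_zero hg hm one_ne_zero
  obtain ⟨δ, hδ⟩ := IsAlgClosed.exists_pow_nat_eq (t - algebraMap F M a) (Nat.pos_of_ne_zero hℓ0)
  have hB := h.badCtx_lin' hg hm hmℓ hroots hδ
  have hroot : ∀ θ : M, (locPoly g t 1).eval θ = 0 → aeval θ g = t := fun θ hθ =>
    (eval_locPoly_eq_zero one_ne_zero).mp hθ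
  have hfixr : ∀ σ ∈ Γ, ∀ θ : M, (locPoly g t 1).eval θ = 0 → (σ : M ≃+* M) θ = θ :=
    fun σ hσ θ hθ => h.fix_root hB (σ : M ≃+* M) (hΓ.inv σ hσ) (hΓ.fix σ hσ) (hΓ.fixt σ hσ)
      (hroot θ hθ)
  have hnear : ∀ r' : F, ∀ θ, θ ∈ near v (locPoly g t 1) r' →
      (locPoly g t 1).eval θ = 0 ∧ v (θ - algebraMap F M r') < 1 := by
    intro r' θ hθ
    unfold near at hθ
    rw [Finset.mem_filter] at hθ
    exact ⟨(mem_rts hf0).mp hθ.1, hθ.2⟩
  have huniq : ∀ r' : F, ∀ θ ∈ near v (locPoly g t 1) r', ∀ θ' ∈ near v (locPoly g t 1) r',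
      θ = θ' := by
    intro r' θ hθ θ' hθ'
    obtain ⟨h1, h2⟩ := hnear r' θ hθ
    obtain ⟨h3, h4⟩ := hnear r' θ' hθ'
    apply h.rs_injOn hB (hroot θ h1) (hroot θ' h3)
    rw [h.rs_eq h2, h.rs_eq h4]
  have horb : ∀ r' : F, ∀ θ ∈ near v (locPoly g t 1) r', ∀ θ' ∈ near v (locPoly g t 1) r',
      ∃ σ ∈ Γ, (σ : M ≃+* M) θ = θ' := by
    intro r' θ hθ θ' hθ'
    refine ⟨1, Γ.one_mem, ?_⟩
    rw [huniq r' θ hθ θ' hθ']
    rfl
  have hfixζ : ∀ σ ∈ Γ, (σ : M ≃+* M) (algebraMap F M ζ) = algebraMap F M ζ :=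
    fun σ hσ => hΓ.fix σ hσ ζ
  have hstab : ∀ σ ∈ (Γ : Set (Sym (locPoly g t 1))),
      symJ σ (Q - zJ (algebraMap F M ζ) hζ'.pow_eq_one Q) =
        Q - zJ (algebraMap F M ζ) hζ'.pow_eq_one Q := by
    intro σ hσ
    have h1 := hQ σ hσ
    rw [map_sub] at h1
    rw [map_sub, ← zJ_symJ _ _ σ (hfixζ σ hσ)]
    have h2 : symJ σ Q - zJ (algebraMap F M ζ) hζ'.pow_eq_one (symJ σ Q) -
        (Q - zJ (algebraMap F M ζ) hζ'.pow_eq_one Q) =
        (symJ σ Q - Q) - (zJ (algebraMap F M ζ) hζ'.pow_eq_one (symJ σ Q) -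
          zJ (algebraMap F M ζ) hζ'.pow_eq_one Q) := by abel
    rw [← sub_eq_zero, h2, h1, sub_self]
  obtain ⟨D, hDcl, hDfix⟩ := exists_stable (algebraMap F M ζ) hζ'
    (Γ : Set (Sym (locPoly g t 1))) _ hstab
  obtain ⟨z', hz', hkum⟩ := kummer_formula (algebraMap F M ζ) hζ' Q D hDcl.symm
  intro σ hσ
  have hπ0 : π' ≠ 0 := by
    intro h0
    rw [h0, map_zero] at hπ
    exact hΓ.pos.ne hπ
  have hk := hkum σ (hfixζ σ hσ) (hDfix σ hσ) (fun _ => 0) (by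
    intro θ hθ
    rw [hfixr σ hσ θ hθ, zpow_zero, one_mul]
    refine h.root_fixed_of_val hℓ0 hp hζ (σ : M ≃+* M) (hΓ.inv σ hσ) (hΓ.fix σ hσ) (hz' θ hθ).1
      hπ0 (hπΓ σ hσ) ?_ ?_
    · rw [(hz' θ hθ).2, map_mul, sym_uval σ D (hDfix σ hσ), map_zpow₀, map_pow, map_neg, map_one,
        hfixr σ hσ θ hθ]
    · have hres := h.v_sub_rs (h.v_root_le hg hm (hroot θ hθ))
      have hmem : θ ∈ near v (locPoly g t 1) (rs F v θ) := by
        unfold near
        rw [Finset.mem_filter]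
        exact ⟨(mem_rts hf0).mpr hθ, hres⟩
      have hcard : (near v (locPoly g t 1) (rs F v θ)).card = 1 := by
        rw [Finset.card_eq_one]
        refine ⟨θ, ?_⟩
        ext x
        rw [Finset.mem_singleton]
        constructor
        · intro hx
          exact huniq _ x hx θ hmem
        · rintro rfl
          exact hmem
      have hval := h.val_uval (p := p) hg hm one_ne_zero hmℓ hΓ
        (by rw [map_one]; exact Val.one p (ϖ ^ ℓ)) D (hDfix) (r := rs F v θ)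
        (horb (rs F v θ)) hmem
      rw [hcard, pow_one] at hval
      have hv1 : v (z' θ ^ ℓ) = v (uval D θ) := by
        rw [(hz' θ hθ).2, map_mul, map_zpow₀, map_pow, v.map_neg, map_one, one_pow, one_zpow,
          one_mul]
      rw [hv1, hπ]
      exact hval)
  have h0 : (ram (fun _ => 0) : Jac ℓ (locPoly g t 1)) = 0 := by
    have h1 := ram_sub (ℓ := ℓ) (f := locPoly g t 1) (fun _ => 0) (fun _ => 0)
    simpa using h1
  rw [h0] at hk
  exact sub_eq_zero.mp hk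

end Pool.Agent.Lib.MP_89bcae_ag.Sup

end

section

open Polynomial

open scoped Classical

set_option linter.unusedSectionVars false

namespace Pool.Agent.Lib.MP_89bcae_ag.Sup

universe u

variable {F M : Type u} [Field F] [Field M] [Algebra F M] {v : AbsoluteValue M ℝ} {a : F} {t : M}

private lemma tc09_exists_zpow {K : Type*} [Field K] {ℓ : ℕ} (hℓ : ℓ ≠ 0) {ζ : K}
    (hζ : IsPrimitiveRoot ζ ℓ) {x y : K} (hy : y ≠ 0) (h : x ^ ℓ = y ^ ℓ) :
    ∃ k : ℤ, x = ζ ^ k * y := by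
  have : NeZero ℓ := ⟨hℓ⟩
  have h1 : (x / y) ^ ℓ = 1 := by
    rw [div_pow, h, div_self (pow_ne_zero _ hy)]
  obtain ⟨i, _, hi⟩ := hζ.eq_pow_of_pow_eq_one h1
  refine ⟨i, ?_⟩
  rw [zpow_natCast, hi, div_mul_cancel₀ _ hy]

private lemma tc09_res_const (x : F) : v (algebraMap F M x - algebraMap F M x) < 1 := by
  rw [sub_self, map_zero]; exact one_pos

private lemma tc09_res_sub (h : LocCtx v a t) {x y : M} {c d : F}
    (hc : v (x - algebraMap F M c) < 1) (hd : v (y - algebraMap F M d) < 1) :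
    v (x - y - algebraMap F M (c - d)) < 1 := by
  have e : x - y - algebraMap F M (c - d) =
      (x - algebraMap F M c) + -(y - algebraMap F M d) := by
    rw [map_sub]; ring
  rw [e]
  refine lt_of_le_of_lt (h.nonarch _ _) (max_lt hc ?_)
  rw [map_neg_eq_map]
  exact hd

private lemma tc09_res_prod (h : LocCtx v a t) {ι : Type*} (s : Finset ι) (x : ι → M) (c : ι → F)
    (hx : ∀ i ∈ s, v (x i - algebraMap F M (c i)) < 1) :
    v (∏ i ∈ s, x i - algebraMap F M (∏ i ∈ s, c i)) < 1 := by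
  induction s using Finset.induction_on with
  | empty => simp
  | insert i s hi ih =>
    rw [Finset.prod_insert hi, Finset.prod_insert hi]
    exact h.residue_mul (hx i (Finset.mem_insert_self _ _))
      (ih fun j hj => hx j (Finset.mem_insert_of_mem hj))

private lemma tc09_res_pow (h : LocCtx v a t) {x : M} {c : F}
    (hc : v (x - algebraMap F M c) < 1) (n : ℕ) :
    v (x ^ n - algebraMap F M (c ^ n)) < 1 := by
  have := h.residue_eval hc (X ^ n)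
  simpa using this

/-- An `ℓ`-th root of `ε = (-1) ^ (ℓ + 1)` fixed by `U`. -/
private lemma tc09_eps {K : Type*} [Field K] [IsAlgClosed K] {ℓ : ℕ} (hℓ : ℓ ≠ 0) (U : K ≃+* K)
    (h1 : ∀ x : K, x ^ ℓ = -1 → U x = x) :
    ∃ x₀ : K, x₀ ^ ℓ = (-1) ^ (ℓ + 1) ∧ U x₀ = x₀ := by
  rcases Nat.even_or_odd (ℓ + 1) with he | ho
  · exact ⟨1, by rw [one_pow, he.neg_one_pow], map_one U⟩
  · obtain ⟨x, hx⟩ := IsAlgClosed.exists_pow_nat_eq (-1 : K) (Nat.pos_of_ne_zero hℓ)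
    exact ⟨x, by rw [hx, ho.neg_one_pow], h1 x hx⟩

theorem LocCtx.sym_eval (h : LocCtx v a t) [IsAlgClosed M] {ℓ : ℕ} {g : F[X]}
    (hg : g.Monic) (hm : g.natDegree ≠ 0) (hmℓ : g.natDegree.Coprime ℓ)
    (hroots : ∀ r, g.eval r = a → (derivative g).eval r ≠ 0) {f : M[X]}
    (hf : f = locPoly g t 1) [hG : IsGood ℓ f] {ζ : F} (hζ : IsPrimitiveRoot ζ ℓ)
    (hζ' : IsPrimitiveRoot (algebraMap F M ζ) ℓ)
    (u : Sym f) (U : F ≃+* F) (huv : ∀ x, v ((u : M ≃+* M) x) = v x)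
    (huF : ∀ c : F, (u : M ≃+* M) (algebraMap F M c) = algebraMap F M (U c))
    (hut : (u : M ≃+* M) t = t) (hug : g.map (U : F →+* F) = g) (hUζ : U ζ = ζ)
    (hU : ∀ β, g.eval β = a → U β = β)
    (h1 : ∀ x : F, x ^ ℓ = -1 → U x = x)
    (e : F → ℤ) (Q : Jac ℓ f)
    (hQ : Q - zJ (algebraMap F M ζ) hζ'.pow_eq_one Q = ram fun θ => e (rs F v θ))
    (R₀ : Finset F) (hR₀ : ∀ β, β ∈ R₀ ↔ g.eval β = a) :
    ∃ n : M → ℤ, symJ u Q = Q + ram n ∧ ∀ θ ∈ rts f, ∀ x : F,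
      x ^ ℓ = ∏ β' ∈ R₀.erase (rs F v θ), (rs F v θ - β') ^ (e β' - e (rs F v θ)) →
      U x = ζ ^ n θ * x := by
  subst hf
  have hFac : IsAlgClosed F := h.alg
  have hℓ0 : ℓ ≠ 0 := hG.prime.ne_zero
  have hζ0 : ζ ≠ 0 := hζ.ne_zero hℓ0
  have huζ : (u : M ≃+* M) (algebraMap F M ζ) = algebraMap F M ζ := by rw [huF, hUζ]
  obtain ⟨δ, hδ⟩ := IsAlgClosed.exists_pow_nat_eq (t - algebraMap F M a) (Nat.pos_of_ne_zero hℓ0)
  have hB : BadCtx g (X - C a) a t δ ℓ := h.badCtx_lin' hg hm hmℓ hroots hδ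
  have hroot : ∀ {θ : M}, (locPoly g t (1 : M)).eval θ = 0 ↔ aeval θ g = t := fun {θ} =>
    eval_locPoly_eq_zero one_ne_zero
  have hmemr : ∀ {θ : M}, θ ∈ rts (locPoly g t (1 : M)) ↔ aeval θ g = t := fun {θ} => by
    rw [mem_rts (locPoly_ne_zero hg hm one_ne_zero), hroot]
  have hsep : (locPoly g t (1 : M)).Separable := hG.separable
  have hres : ∀ {θ : M}, aeval θ g = t → v (θ - algebraMap F M (rs F v θ)) < 1 := fun {θ} hθ =>
    h.v_sub_rs (h.v_root_le hg hm hθ)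
  -- `u` fixes the roots
  have hufix : ∀ θ : M, (locPoly g t (1 : M)).eval θ = 0 → (u : M ≃+* M) θ = θ := by
    intro θ hθ
    have hθt := hroot.1 hθ
    have huθ : aeval ((u : M ≃+* M) θ) g = t := hroot.1 ((eval_sym_eq_zero u).2 hθ)
    refine h.rs_injOn hB huθ hθt ?_
    apply h.rs_eq
    have h1 := hres hθt
    have h2 : U (rs F v θ) = rs F v θ := hU _ (h.eval_rs hB hθt)
    rw [← huv, map_sub, huF, h2] at h1
    exact h1
  have hufix' : ∀ θ : M, (locPoly g t (1 : M)).eval θ = 0 →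
      ((u⁻¹ : Sym _) : M ≃+* M) θ = θ := by
    intro θ hθ
    have h1 : ((u⁻¹ : Sym _) : M ≃+* M) ((u : M ≃+* M) θ) = θ :=
      (u : M ≃+* M).symm_apply_apply θ
    rwa [hufix θ hθ] at h1
  -- the Kummer formula
  obtain ⟨w, hw, hker⟩ := kummer_formula (algebraMap F M ζ) hζ' Q
    (ramDiv fun θ => e (rs F v θ)) hQ
  have hDfix : (ramDiv (fun θ => e (rs F v θ)) :
      Pt ℓ (locPoly g t (1 : M)) →₀ ℤ).mapDomain (Pt.sym u) =
      ramDiv fun θ => e (rs F v θ) := by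
    rw [mapDomain_sym_ramDiv]
    refine ramDiv_congr _ _ ?_
    intro θ hθ
    rw [hufix' θ hθ]
  have hn : ∀ θ : M, ∃ n : ℤ, (locPoly g t (1 : M)).eval θ = 0 →
      (u : M ≃+* M) (w θ) = algebraMap F M ζ ^ n * w θ := by
    intro θ
    by_cases hθ : (locPoly g t (1 : M)).eval θ = 0
    · obtain ⟨n, hn⟩ : ∃ n : ℤ, (u : M ≃+* M) (w θ) = algebraMap F M ζ ^ n * w θ := by
        refine tc09_exists_zpow hℓ0 hζ' (hw θ hθ).1 ?_
        rw [← map_pow, (hw θ hθ).2, map_mul, map_zpow₀, map_pow, map_neg, map_one,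
          sym_uval u _ hDfix, hufix θ hθ]
      exact ⟨n, fun _ => hn⟩
    · exact ⟨0, fun h0 => absurd h0 hθ⟩
  choose n hn using hn
  have hkn : symJ u Q - Q = ram n := by
    refine hker u huζ hDfix n ?_
    intro θ hθ
    rw [hufix θ hθ]
    exact hn θ hθ
  refine ⟨n, by rw [← hkn, add_sub_cancel], ?_⟩
  intro θ hθm x hx
  have hθt := hmemr.1 hθm
  have hθ := hroot.2 hθt
  have hneg : ∀ θ' ∈ (rts (locPoly g t (1 : M))).erase θ, rs F v θ - rs F v θ' ≠ 0 := by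
    intro θ' hθ' h0
    obtain ⟨h2, h3⟩ := Finset.mem_erase.1 hθ'
    exact h2 (h.rs_injOn hB hθt (hmemr.1 h3) (sub_eq_zero.1 h0)).symm
  -- the set of the residues
  have hR₁ : R₀.erase (rs F v θ) = ((rts (locPoly g t (1 : M))).erase θ).image (rs F v) := by
    ext β
    rw [Finset.mem_erase, Finset.mem_image, hR₀]
    constructor
    · rintro ⟨h2, h3⟩
      obtain ⟨θ', hθ', rfl⟩ := h.exists_root hB h3
      refine ⟨θ', Finset.mem_erase.2 ⟨?_, hmemr.2 hθ'⟩, rfl⟩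
      rintro rfl
      exact h2 rfl
    · rintro ⟨θ', hθ', rfl⟩
      refine ⟨fun h0 => hneg θ' hθ' (sub_eq_zero.2 h0.symm), ?_⟩
      exact h.eval_rs hB (hmemr.1 (Finset.mem_of_mem_erase hθ'))
  rw [hR₁, Finset.prod_image] at hx
  swap
  · intro x hx y hy hxy
    exact h.rs_injOn hB (hmemr.1 (Finset.mem_of_mem_erase hx))
      (hmemr.1 (Finset.mem_of_mem_erase hy)) hxy
  -- the residue of `(w θ) ^ ℓ`
  obtain ⟨x₀, hx₀, hUx₀⟩ := tc09_eps hℓ0 U h1
  have hx₀0 : x₀ ≠ 0 := by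
    rintro rfl
    rw [zero_pow hℓ0] at hx₀
    exact pow_ne_zero _ (neg_ne_zero.2 one_ne_zero) hx₀.symm
  have hx0 : x ≠ 0 := by
    rintro rfl
    rw [zero_pow hℓ0] at hx
    exact (Finset.prod_ne_zero_iff.2 fun θ' hθ' => zpow_ne_zero _ (hneg θ' hθ')) hx.symm
  have hwl : w θ ^ ℓ = ((-1) ^ (ℓ + 1)) ^ e (rs F v θ) *
      ∏ θ' ∈ (rts (locPoly g t (1 : M))).erase θ, (θ - θ') ^ (e (rs F v θ') - e (rs F v θ)) := by
    have hne : ∀ θ' ∈ (rts (locPoly g t (1 : M))).erase θ, θ - θ' ≠ 0 := fun θ' hθ' =>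
      sub_ne_zero.2 (Finset.ne_of_mem_erase hθ').symm
    rw [(hw θ hθ).2, atR_ramDiv _ hθ, uval_ramDiv _ hθ,
      derivative_locPoly_eval hg hm one_ne_zero hsep hθm, inv_one, one_mul]
    congr 1
    have h2 : (locPoly g t (1 : M)).roots.toFinset = rts (locPoly g t (1 : M)) := rfl
    rw [h2, ← Finset.prod_inv_distrib, ← Finset.prod_zpow, ← Finset.prod_mul_distrib]
    refine Finset.prod_congr rfl fun θ' hθ' => ?_
    rw [inv_zpow, ← zpow_neg, ← zpow_add₀ (hne θ' hθ')]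
    congr 1
    ring
  have hkey : v (w θ ^ ℓ - algebraMap F M ((x₀ ^ e (rs F v θ) * x) ^ ℓ)) < 1 := by
    have h2 : (x₀ ^ e (rs F v θ) * x) ^ ℓ = ((-1) ^ (ℓ + 1)) ^ e (rs F v θ) *
        ∏ θ' ∈ (rts (locPoly g t (1 : M))).erase θ,
          (rs F v θ - rs F v θ') ^ (e (rs F v θ') - e (rs F v θ)) := by
      rw [mul_pow, hx, ← hx₀, ← zpow_natCast, ← zpow_natCast, ← zpow_mul, ← zpow_mul,
        mul_comm (e (rs F v θ))]
    rw [hwl, h2]
    refine h.residue_mul ?_ (tc09_res_prod h _ _ _ fun θ' hθ' => h.residue_zpow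
      (tc09_res_sub h (hres hθt) (hres (hmemr.1 (Finset.mem_of_mem_erase hθ')))) (hneg θ' hθ') _)
    have h3 : (((-1 : M) ^ (ℓ + 1)) ^ e (rs F v θ)) =
        algebraMap F M (((-1) ^ (ℓ + 1)) ^ e (rs F v θ)) := by
      rw [map_zpow₀, map_pow, map_neg, map_one]
    rw [h3]
    exact tc09_res_const _
  have hy0 : x₀ ^ e (rs F v θ) * x ≠ 0 := mul_ne_zero (zpow_ne_zero _ hx₀0) hx0
  have hvw : v (w θ) = 1 := by
    have h2 := h.v_eq_one hkey (pow_ne_zero ℓ hy0)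
    rw [map_pow] at h2
    exact (pow_eq_one_iff_of_nonneg (v.nonneg _) hℓ0).1 h2
  obtain ⟨y₀, hy₀⟩ := h.residue _ hvw.le
  have hpow : y₀ ^ ℓ = (x₀ ^ e (rs F v θ) * x) ^ ℓ :=
    h.residue_unique (tc09_res_pow h hy₀ ℓ) hkey
  obtain ⟨k, hk⟩ := tc09_exists_zpow hℓ0 hζ hy0 hpow
  -- the action of `u`
  have hr1 : v ((u : M ≃+* M) (w θ) - algebraMap F M (U y₀)) < 1 := by
    rw [← huF, ← map_sub, huv]
    exact hy₀
  have hr2 : v ((u : M ≃+* M) (w θ) - algebraMap F M (ζ ^ n θ * y₀)) < 1 := by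
    rw [hn θ hθ, ← map_zpow₀]
    exact h.residue_mul (tc09_res_const _) hy₀
  have hUy : U y₀ = ζ ^ n θ * y₀ := h.residue_unique hr1 hr2
  rw [hk, map_mul, map_mul, map_zpow₀, map_zpow₀, hUζ, hUx₀] at hUy
  have hc0 : ζ ^ k * x₀ ^ e (rs F v θ) ≠ 0 := mul_ne_zero (zpow_ne_zero _ hζ0)
    (zpow_ne_zero _ hx₀0)
  refine mul_left_cancel₀ hc0 ?_
  linear_combination hUy

end Pool.Agent.Lib.MP_89bcae_ag.Sup

end

end

section

section

open Polynomial IsDedekindDomain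

open scoped Classical

set_option linter.unusedSectionVars false

namespace Pool.Agent.Lib.MP_89bcae_ag.Sup

universe u

/-- local triviality on the subgroup `N`, for an arbitrary polynomial -/
def ta04_LT {ℓ : ℕ} {L Ω : Type u} [Field L] [Field Ω] [Algebra L Ω] (N : Subgroup (Ω ≃ₐ[L] Ω))
    (f : L[X]) (c : (Ω ≃ₐ[L] Ω) → JacOver ℓ f Ω) (Lv : Type u) [Field Lv] [Algebra L Lv] : Prop :=
  ∀ (M : Type u) [Field M] [Algebra Lv M] [IsAlgClosure Lv M] [Algebra L M]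
    [IsScalarTower L Lv M] (j : Ω →ₐ[L] M), ∃ Q : JacOver ℓ f M,
      ∀ (σ : M ≃ₐ[Lv] M) (σ' : Ω ≃ₐ[L] Ω), σ' ∈ N → (∀ x, j (σ' x) = σ (j x)) →
        push ℓ f j (c σ') = push ℓ f (σ.restrictScalars L : M →ₐ[L] M) Q - Q

private lemma ta04_jacMap_congr (ℓ : ℕ) {A B : Type u} [Field A] [Field B] {σ τ : A →+* B}
    (hst : σ = τ) {f : A[X]} {f' : B[X]} (h : f.map σ = f') (h' : f.map τ = f') (Q : Jac ℓ f) :
    jacMap ℓ σ h Q = jacMap ℓ τ h' Q := by
  subst hst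
  rfl

private lemma ta04_exists_conj {L Ω : Type u} [Field L] [Field Ω] [Algebra L Ω]
    (s : L ≃+* L) (γ : Ω ≃+* Ω)
    (hγ : ∀ x : L, γ (algebraMap L Ω x) = algebraMap L Ω (s x)) (h : Ω ≃ₐ[L] Ω) :
    ∃ g : Ω ≃ₐ[L] Ω, ∀ x, γ (g x) = h (γ x) := by
  refine ⟨AlgEquiv.ofRingEquiv (f := (γ.trans h.toRingEquiv).trans γ.symm) ?_, ?_⟩
  · intro y
    change γ.symm (h (γ (algebraMap L Ω y))) = algebraMap L Ω y
    rw [hγ, h.commutes, ← hγ, RingEquiv.symm_apply_apply]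
  · intro x
    change γ (γ.symm (h (γ x))) = h (γ x)
    rw [RingEquiv.apply_symm_apply]

private lemma ta04_aux {ℓ : ℕ} {L Ω : Type u} [Field L] [Field Ω] [Algebra L Ω] {f : L[X]}
    {c c' : (Ω ≃ₐ[L] Ω) → JacOver ℓ f Ω} (N : Subgroup (Ω ≃ₐ[L] Ω))
    {Lv Lv' : Type u} [Field Lv] [Algebra L Lv] [Field Lv'] [Algebra L Lv'] (s : L ≃+* L)
    (hs : f.map (s : L →+* L) = f) (φ : Lv ≃+* Lv')
    (γ : Ω ≃+* Ω) (hγf : (f.map (algebraMap L Ω)).map (γ : Ω →+* Ω) = f.map (algebraMap L Ω))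
    (hγ : ∀ x : L, γ (algebraMap L Ω x) = algebraMap L Ω (s x))
    (hcc' : ∀ σ σ' : Ω ≃ₐ[L] Ω, (∀ x, γ (σ' x) = σ (γ x)) →
      c' σ = jacMap ℓ (γ : Ω →+* Ω) hγf (c σ'))
    (hN : ∀ σ σ' : Ω ≃ₐ[L] Ω, (∀ x, γ (σ' x) = σ (γ x)) → σ ∈ N → σ' ∈ N)
    (h : ta04_LT N f c Lv)
    {M : Type u} [Field M] [Algebra Lv' M] [Algebra L M] [IsScalarTower L Lv' M]
    {M' : Type u} [Field M'] [Algebra Lv M'] [IsAlgClosure Lv M'] [Algebra L M']
    [IsScalarTower L Lv M'] (e : M' ≃+* M)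
    (he : ∀ x : Lv, e (algebraMap Lv M' x) = algebraMap Lv' M (φ x))
    (he' : ∀ x : L, e (algebraMap L M' x) = algebraMap L M (s x))
    (j : Ω →ₐ[L] M) :
    ∃ Q : JacOver ℓ f M,
      ∀ (g : M ≃ₐ[Lv'] M) (g' : Ω ≃ₐ[L] Ω), g' ∈ N → (∀ x, j (g' x) = g (j x)) →
        push ℓ f j (c' g') = push ℓ f (g.restrictScalars L : M →ₐ[L] M) Q - Q := by
  have hef : (f.map (algebraMap L M')).map (e : M' →+* M) = f.map (algebraMap L M) := by
    have h1 : (e : M' →+* M).comp (algebraMap L M') = (algebraMap L M).comp (s : L →+* L) :=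
      RingHom.ext fun x => he' x
    rw [Polynomial.map_map, h1, ← Polynomial.map_map, hs]
  -- the embedding of `Ω` in `M'`
  let j' : Ω →ₐ[L] M' :=
    { toRingHom := (e.symm : M →+* M').comp ((j : Ω →+* M).comp (γ : Ω →+* Ω))
      commutes' := fun x => by
        change e.symm (j (γ (algebraMap L Ω x))) = algebraMap L M' x
        rw [hγ, j.commutes, ← he', RingEquiv.symm_apply_apply] }
  have hj' : ∀ x, e (j' x) = j (γ x) := fun x => by
    change e (e.symm (j (γ x))) = _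
    rw [RingEquiv.apply_symm_apply]
  obtain ⟨Q₀, hQ₀⟩ := h M' j'
  refine ⟨jacMap ℓ (e : M' →+* M) hef Q₀, fun g g' hgN hg => ?_⟩
  -- the conjugates of `g` and `g'`
  let s₀ : M' ≃ₐ[Lv] M' := AlgEquiv.ofRingEquiv (f := (e.trans g.toRingEquiv).trans e.symm) (by
    intro y
    change e.symm (g (e (algebraMap Lv M' y))) = algebraMap Lv M' y
    rw [he, g.commutes, ← he, RingEquiv.symm_apply_apply])
  have hs₀ : ∀ x, e (s₀ x) = g (e x) := fun x => by
    change e (e.symm (g (e x))) = _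
    rw [RingEquiv.apply_symm_apply]
  obtain ⟨s', hs'⟩ := ta04_exists_conj s γ hγ g'
  have hss : ∀ x, j' (s' x) = s₀ (j' x) := by
    intro x
    apply e.injective
    rw [hj', hs', hg, hs₀, hj']
  have h1 := hQ₀ s₀ s' (hN g' s' hs' hgN) hss
  have hc1 : ((j : Ω →+* M).comp (γ : Ω →+* Ω)) = (e : M' →+* M).comp (j' : Ω →+* M') :=
    RingHom.ext fun x => (hj' x).symm
  have hc2 : ((e : M' →+* M).comp ((s₀.restrictScalars L : M' →ₐ[L] M') : M' →+* M')) =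
      ((g.restrictScalars L : M →ₐ[L] M) : M →+* M).comp (e : M' →+* M) :=
    RingHom.ext fun x => hs₀ x
  have hf1 : (f.map (algebraMap L Ω)).map ((j : Ω →+* M).comp (γ : Ω →+* Ω)) =
      f.map (algebraMap L M) := by
    rw [← Polynomial.map_map, hγf, Polynomial.map_map, AlgHom.comp_algebraMap]
  have hf2 : (f.map (algebraMap L M')).map
      (((g.restrictScalars L : M →ₐ[L] M) : M →+* M).comp (e : M' →+* M)) =
      f.map (algebraMap L M) := by
    rw [← Polynomial.map_map, hef, Polynomial.map_map, AlgHom.comp_algebraMap]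
  have e1 : push ℓ f j (c' g') = jacMap ℓ (e : M' →+* M) hef (push ℓ f j' (c s')) := by
    rw [hcc' g' s' hs']
    unfold push
    rw [jacMap_jacMap ℓ (γ : Ω →+* Ω) (j : Ω →+* M) hγf _ hf1,
      jacMap_jacMap ℓ (j' : Ω →+* M') (e : M' →+* M) _ hef (hc1 ▸ hf1)]
    exact ta04_jacMap_congr ℓ hc1 _ _ _
  have e2 : jacMap ℓ (e : M' →+* M) hef
      (push ℓ f (s₀.restrictScalars L : M' →ₐ[L] M') Q₀) =
      push ℓ f (g.restrictScalars L : M →ₐ[L] M) (jacMap ℓ (e : M' →+* M) hef Q₀) := by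
    unfold push
    rw [jacMap_jacMap ℓ _ (e : M' →+* M) _ hef (hc2.symm ▸ hf2),
      jacMap_jacMap ℓ (e : M' →+* M) _ hef _ hf2]
    exact ta04_jacMap_congr ℓ hc2 _ _ _
  rw [e1, h1, map_sub, e2]

private lemma ta04_isAlgClosure {K K' M : Type u} [Field K] [Field K'] [Field M] [Algebra K' M]
    [IsAlgClosure K' M] [Algebra K M] (φ : K ≃+* K')
    (h : ∀ x, algebraMap K M x = algebraMap K' M (φ x)) : IsAlgClosure K M := by
  have hac : IsAlgClosed M := IsAlgClosure.isAlgClosed K'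
  have halg : Algebra.IsAlgebraic K' M := IsAlgClosure.isAlgebraic
  refine ⟨hac, ⟨fun x => ?_⟩⟩
  obtain ⟨p, hp0, hp⟩ := halg.isAlgebraic x
  refine ⟨p.map (φ.symm : K' →+* K), (Polynomial.map_ne_zero_iff φ.symm.injective).mpr hp0, ?_⟩
  have e1 : (algebraMap K M).comp (φ.symm : K' →+* K) = algebraMap K' M :=
    RingHom.ext fun x => by
      change algebraMap K M (φ.symm x) = algebraMap K' M x
      rw [h, RingEquiv.apply_symm_apply]
  rw [aeval_def, eval₂_map, e1]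
  exact hp

private lemma ta04_trans {ℓ : ℕ} {L Ω : Type u} [Field L] [Field Ω] [Algebra L Ω] {f : L[X]}
    {c c' : (Ω ≃ₐ[L] Ω) → JacOver ℓ f Ω} (N : Subgroup (Ω ≃ₐ[L] Ω))
    {Lv Lv' : Type u} [Field Lv] [Algebra L Lv] [Field Lv'] [Algebra L Lv'] (s : L ≃+* L)
    (hs : f.map (s : L →+* L) = f) (φ : Lv ≃+* Lv')
    (hφ : ∀ x : L, φ (algebraMap L Lv x) = algebraMap L Lv' (s x))
    (γ : Ω ≃+* Ω) (hγf : (f.map (algebraMap L Ω)).map (γ : Ω →+* Ω) = f.map (algebraMap L Ω))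
    (hγ : ∀ x : L, γ (algebraMap L Ω x) = algebraMap L Ω (s x))
    (hcc' : ∀ σ σ' : Ω ≃ₐ[L] Ω, (∀ x, γ (σ' x) = σ (γ x)) →
      c' σ = jacMap ℓ (γ : Ω →+* Ω) hγf (c σ'))
    (hN : ∀ σ σ' : Ω ≃ₐ[L] Ω, (∀ x, γ (σ' x) = σ (γ x)) → σ ∈ N → σ' ∈ N)
    (h : ta04_LT N f c Lv) : ta04_LT N f c' Lv' := by
  intro M _ i1 i2 i3 i4 j
  have htow : ∀ x : L, algebraMap L M x = algebraMap Lv' M (algebraMap L Lv' x) := fun x =>
    IsScalarTower.algebraMap_apply L Lv' M x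
  let ιv : Lv' →+* M := algebraMap Lv' M
  let ιL : L →+* M := algebraMap L M
  let a1 : Algebra Lv M := (ιv.comp (φ : Lv →+* Lv')).toAlgebra
  let a2 : Algebra L M := (ιL.comp (s : L →+* L)).toAlgebra
  have a3 : @IsScalarTower L Lv M _ a1.toSMul a2.toSMul :=
    @IsScalarTower.of_algebraMap_eq L Lv M _ _ _ _ a1 a2 (fun x => by
      change ιL (s x) = ιv (φ (algebraMap L Lv x))
      rw [hφ]
      exact htow (s x))
  have a5 := @ta04_isAlgClosure Lv Lv' M _ _ _ i1 i2 a1 φ (fun x => rfl)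
  exact @ta04_aux ℓ L Ω _ _ _ f c c' N Lv Lv' _ _ _ _ s hs φ γ hγf hγ hcc' hN h M _ i1 i3 i4 M _ a1 a5 a2
    a3 (RingEquiv.refl M) (fun x => rfl) (fun x => rfl) j

variable {k F L Ω : Type u} [Field k] [Field F] [Algebra k F] [Field L] [Algebra F[X] L]
  [Field Ω] [Algebra L Ω] [IsAlgClosure k F] [IsFractionRing F[X] L] [IsAlgClosure L Ω]
  {ℓ : ℕ} {g D : k[X]} [hG : IsGood ℓ (cOver k F L Ω g D)] {N : Subgroup (Ω ≃ₐ[L] Ω)}

private lemma ta04_coefL_base (U : F ≃ₐ[k] F) (p : k[X]) :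
    coefL L (U : F ≃+* F) (base k F L L p) = base k F L L p := by
  change coefL L (U : F ≃+* F) (algebraMap F[X] L (p.map (algebraMap k F))) =
    algebraMap F[X] L (p.map (algebraMap k F))
  rw [coefL_algebraMap, Polynomial.map_map]
  congr 2
  exact RingHom.ext fun x => U.commutes x

private lemma ta04_coefL_curvePoly (U : F ≃ₐ[k] F) :
    (curvePoly k F L g D).map (coefL L (U : F ≃+* F) : L →+* L) = curvePoly k F L g D := by
  unfold curvePoly
  rw [Polynomial.map_mul, Polynomial.map_C, Polynomial.map_sub, Polynomial.map_C,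
    Polynomial.map_map]
  have h1 : ∀ p : k[X], (coefL L (U : F ≃+* F) : L →+* L) (base k F L L p) = base k F L L p :=
    fun p => ta04_coefL_base U p
  have h2 : (coefL L (U : F ≃+* F) : L →+* L).comp ((base k F L L).comp C) =
      (base k F L L).comp C := RingHom.ext fun x => h1 (C x)
  rw [h2, map_inv₀, h1, h1]

private lemma ta04_gamma (γ : AutO k F L Ω) (x : L) :
    (γ : Ω ≃+* Ω) (algebraMap L Ω x) =
      algebraMap L Ω (coefL L (resF γ : F ≃+* F) x) := by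
  obtain ⟨p, q, hq, rfl⟩ := IsFractionRing.div_surjective (A := F[X]) x
  rw [map_div₀, map_div₀, map_div₀, map_div₀, coefL_algebraMap, coefL_algebraMap, resF_spec,
    resF_spec]
  rfl

theorem LTs.act (hN : Nrm k F N) {c : Coch ℓ k F L Ω g D} (hc : LTs N c)
    (γ : AutO k F L Ω) : LTs N (Sup.act γ c) := by
  have key : ∀ σ σ' : Ω ≃ₐ[L] Ω, (∀ x, (γ : Ω ≃+* Ω) (σ' x) = σ ((γ : Ω ≃+* Ω) x)) →
      conjG γ⁻¹ σ = σ' := by
    intro σ σ' hσ
    apply AlgEquiv.ext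
    intro y
    have h2 := conjG_spec γ⁻¹ σ ((γ : Ω ≃+* Ω) y)
    have h3 : ∀ z : Ω, ((γ⁻¹ : AutO k F L Ω) : Ω ≃+* Ω) ((γ : Ω ≃+* Ω) z) = z := fun z =>
      (γ : Ω ≃+* Ω).symm_apply_apply z
    rw [h3, ← hσ, h3] at h2
    exact h2
  intro a n
  obtain ⟨b, rfl⟩ := (resF γ : F ≃+* F).surjective a
  obtain ⟨φ, hφ, -⟩ := exists_adic_equiv L (resF γ : F ≃+* F) b
  refine ta04_trans N (coefL L (resF γ : F ≃+* F)) (ta04_coefL_curvePoly (resF γ)) φ hφ
    (γ : Ω ≃+* Ω) (toSym g D γ).2 (ta04_gamma γ) ?_ ?_ (hc b n)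
  · intro σ σ' hσ
    change symJ (toSym g D γ) (c n (conjG γ⁻¹ σ)) = _
    rw [key σ σ' hσ]
    rfl
  · intro σ σ' hσ hσN
    rw [← key σ σ' hσ]
    exact hN γ⁻¹ σ hσN

end Pool.Agent.Lib.MP_89bcae_ag.Sup

end

section

open Polynomial IsDedekindDomain

open scoped Classical

set_option linter.unusedSectionVars false

namespace Pool.Agent.Lib.MP_89bcae_ag.Sup

universe u

private lemma tc04_zJ {A B : Type u} [Field A] [Field B] {ℓ : ℕ} (j : A →+* B)
    {f : A[X]} {f' : B[X]} [IsGood ℓ f] [IsGood ℓ f'] (hj : f.map j = f') (ζ : A) (ζ' : B)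
    (hζ : ζ ^ ℓ = 1) (hζ' : ζ' ^ ℓ = 1) (h : j ζ = ζ') (Q : Jac ℓ f) :
    jacMap ℓ j hj (zJ ζ hζ Q) = zJ ζ' hζ' (jacMap ℓ j hj Q) := by
  subst h
  exact (zJ_jacMap j hj ζ hζ hζ' Q).symm

variable {k F L Ω : Type u} [Field k] [Field F] [Algebra k F] [Field L] [Algebra F[X] L]
  [Field Ω] [Algebra L Ω] [IsAlgClosure k F] [IsFractionRing F[X] L] [IsAlgClosure L Ω]
  [Algebra F Ω] {ℓ : ℕ} {g E : k[X]} [hG : IsGood ℓ (cOver k F L Ω g 1)] {ζ : k}
  {hζ : (zA F L Ω ζ) ^ ℓ = 1} {N : Subgroup (Ω ≃ₐ[L] Ω)}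

theorem push_inj_torsion (H : GlobHyp ℓ g E ζ) {M : Type u} [Field M] [Algebra L M]
    [IsAlgClosed M] (j : Ω →ₐ[L] M) (n : ℕ) (Q : JacOver ℓ (curvePoly k F L g 1) Ω)
    (hQ : ℓ ^ n • Q = 0) (h0 : push ℓ (curvePoly k F L g 1) j Q = 0) : Q = 0 := by
  have hGM : IsGood ℓ (cOver k F L M g 1) := goodAll_one H M
  have hz := zA_primitive (F := F) (L := L) H (A := Ω)
  have hzM := zA_primitive (F := F) (L := L) H (A := M)
  have hjm : (cOver k F L Ω g 1).map (j : Ω →+* M) = cOver k F L M g 1 := by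
    rw [Polynomial.map_map, AlgHom.comp_algebraMap]
  have hjz : (j : Ω →+* M) (zA F L Ω ζ) = zA F L M ζ := map_zA j ζ
  have h1 := iterate_eq_zero_of_smul _ hz n Q hQ
  have key : ∀ (m : ℕ) (Q : JacOver ℓ (curvePoly k F L g 1) Ω),
      (fun x => x - zJ (zA F L Ω ζ) hz.pow_eq_one x)^[m] Q = 0 →
      push ℓ (curvePoly k F L g 1) j Q = 0 → Q = 0 := by
    intro m
    induction m with
    | zero => exact fun Q h _ => h
    | succ m ih =>
      intro Q h hp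
      rw [Function.iterate_succ_apply] at h
      have h2 : push ℓ (curvePoly k F L g 1) j (zJ (zA F L Ω ζ) hz.pow_eq_one Q) =
          zJ (zA F L M ζ) hzM.pow_eq_one (push ℓ (curvePoly k F L g 1) j Q) :=
        tc04_zJ (j : Ω →+* M) hjm (zA F L Ω ζ) (zA F L M ζ) hz.pow_eq_one hzM.pow_eq_one hjz Q
      have h3 := ih _ h (by rw [map_sub, h2, hp, map_zero, sub_zero])
      obtain ⟨e, rfl⟩ := exists_ram_of_zJ_eq _ hz Q (sub_eq_zero.mp h3).symm
      have h4 : push ℓ (curvePoly k F L g 1) j (ram e) =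
          (ram (fun θ => e (Function.invFun j θ)) : Jac ℓ (cOver k F L M g 1)) := by
        refine jacMap_ram (j : Ω →+* M) hjm e _ fun θ _ => ?_
        have h7 : Function.invFun j (j θ) = θ :=
          Function.leftInverse_invFun (j : Ω →+* M).injective θ
        change e (Function.invFun j (j θ)) = e θ
        rw [h7]
      rw [h4] at hp
      obtain ⟨c, hc⟩ := (ram_eq_zero_iff _ hzM _).mp hp
      refine (ram_eq_zero_iff _ hz _).mpr ⟨c, fun θ hθ => ?_⟩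
      have h5 := hc (j θ) (by
        have h6 := Polynomial.eval₂_at_apply (p := cOver k F L Ω g 1) (j : Ω →+* M) θ
        rw [← Polynomial.eval_map, hjm, hθ, map_zero] at h6
        exact h6)
      have h7 : Function.invFun j (j θ) = θ :=
        Function.leftInverse_invFun (j : Ω →+* M).injective θ
      rw [h7] at h5
      exact h5
  exact key _ Q h1 h0

/-- `j (σ' Q) = σ (j Q)`. -/
lemma push_symJ {M : Type u} [Field M] [Algebra L M] (j : Ω →ₐ[L] M) (σ' : Ω ≃ₐ[L] Ω)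
    (σ : M →ₐ[L] M) (h : ∀ x, j (σ' x) = σ (j x))
    (Q : JacOver ℓ (curvePoly k F L g 1) Ω) :
    push ℓ (curvePoly k F L g 1) j (symJ (toSym g 1 (galA k F σ')) Q) =
      push ℓ (curvePoly k F L g 1) σ (push ℓ (curvePoly k F L g 1) j Q) := by
  rw [← push_eq, push_push, push_push]
  congr 2
  exact AlgHom.ext h

section

variable {a : F} {M : Type u} [Field M] [Algebra ((plc a).adicCompletion L) M]
  [IsAlgClosure ((plc a).adicCompletion L) M] [Algebra L M]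
  [IsScalarTower L ((plc a).adicCompletion L) M] [Algebra F M] {v : AbsoluteValue M ℝ}

theorem LocDat.fix_torsion (hd : LocDat F L a M v) (H : GlobHyp ℓ g E ζ)
    (ha : aeval a E = 0) (j : Ω →ₐ[L] M) {σ : M ≃ₐ[(plc a).adicCompletion L] M}
    {σ' : Ω ≃ₐ[L] Ω} (hσ : ∀ x, j (σ' x) = σ (j x)) (n : ℕ)
    (Q : JacOver ℓ (curvePoly k F L g 1) Ω) (hQ : ℓ ^ n • Q = 0) :
    symJ (toSym g 1 (galA k F σ')) Q = Q := by
  have hMc : IsAlgClosed M := IsAlgClosure.isAlgClosed ((plc a).adicCompletion L)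
  have hGM : IsGood ℓ (cOver k F L M g 1) := goodAll_one H M
  have hz := zA_primitive (F := F) (L := L) H (A := Ω)
  have hzM := zA_primitive (F := F) (L := L) H (A := M)
  have hjm : (cOver k F L Ω g 1).map (j : Ω →+* M) = cOver k F L M g 1 := by
    rw [Polynomial.map_map, AlgHom.comp_algebraMap]
  have hjz : (j : Ω →+* M) (zA F L Ω ζ) = zA F L M ζ := map_zA j ζ
  have hzF : zA F L M ζ = algebraMap F M (algebraMap k F ζ) := by
    rw [hd.compat]
    unfold zA base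
    rw [RingHom.comp_apply, RingHom.comp_apply, coe_mapRingHom, map_C]
  have hζF : IsPrimitiveRoot (algebraMap k F ζ) ℓ :=
    H.zeta.map_of_injective (algebraMap k F).injective
  have hzM' : IsPrimitiveRoot (algebraMap F M (algebraMap k F ζ)) ℓ := hzF ▸ hzM
  obtain ⟨δ, hδ⟩ := IsAlgClosed.exists_pow_nat_eq
    (aeval (tA F L M) (E.map (algebraMap k F))) H.prime.pos
  have hB := H.badCtx hd.compat ha hδ
  have hΓ := hd.locGrp (k := k) g 1
  set Γ := (galSym (LocDat.hfK (k := k) (F := F) (L := L) (a := a) (M := M) g 1)).range with hΓdef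
  have hpush : ∀ (τ : M ≃ₐ[(plc a).adicCompletion L] M) (τ' : Ω ≃ₐ[L] Ω),
      (∀ x, j (τ' x) = τ (j x)) → ∀ Q : JacOver ℓ (curvePoly k F L g 1) Ω,
      symJ (galSym (LocDat.hfK (k := k) (F := F) (L := L) (a := a) (M := M) g 1) τ)
        (push ℓ (curvePoly k F L g 1) j Q) =
      push ℓ (curvePoly k F L g 1) j (symJ (toSym g 1 (galA k F τ')) Q) := by
    intro τ τ' hτ Q
    rw [push_symJ j τ' (τ.restrictScalars L : M →ₐ[L] M) hτ]
    rfl
  have hpz : ∀ Q : JacOver ℓ (curvePoly k F L g 1) Ω,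
      push ℓ (curvePoly k F L g 1) j (zJ (zA F L Ω ζ) hz.pow_eq_one Q) =
        zJ (algebraMap F M (algebraMap k F ζ)) hzM'.pow_eq_one
          (push ℓ (curvePoly k F L g 1) j Q) := fun Q =>
    tc04_zJ (j : Ω →+* M) hjm (zA F L Ω ζ) _ hz.pow_eq_one hzM'.pow_eq_one (hjz.trans hzF) Q
  have hsz : ∀ (τ' : Ω ≃ₐ[L] Ω) (Q : JacOver ℓ (curvePoly k F L g 1) Ω),
      zJ (zA F L Ω ζ) hz.pow_eq_one (symJ (toSym g 1 (galA k F τ')) Q) =
        symJ (toSym g 1 (galA k F τ')) (zJ (zA F L Ω ζ) hz.pow_eq_one Q) := fun τ' Q =>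
    zJ_symJ _ hz.pow_eq_one _ (zA_fixed ζ (galA k F τ')) Q
  have h1 := iterate_eq_zero_of_smul _ hz n Q hQ
  have key : ∀ (m : ℕ) (Q : JacOver ℓ (curvePoly k F L g 1) Ω), ℓ ^ n • Q = 0 →
      (fun x => x - zJ (zA F L Ω ζ) hz.pow_eq_one x)^[m] Q = 0 →
      ∀ (τ : M ≃ₐ[(plc a).adicCompletion L] M) (τ' : Ω ≃ₐ[L] Ω),
      (∀ x, j (τ' x) = τ (j x)) → symJ (toSym g 1 (galA k F τ')) Q = Q := by
    intro m
    induction m with
    | zero =>
      intro Q _ h τ τ' _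
      have h' : Q = 0 := h
      rw [h', map_zero]
    | succ m ih =>
      intro Q hQn h τ τ' hτ
      rw [Function.iterate_succ_apply] at h
      have hP := ih _ (by rw [smul_sub, ← map_nsmul, hQn, map_zero, sub_zero]) h
      have hfix := hd.ctx.good_fixed (LocDat.coprime (F := F) (L := L) (a := a) H)
        (H.monic.map (algebraMap k F)) hB.deg hB.cop hB.roots (cOver_one hd.compat g) hζF hzM'
        hΓ (π' := tA F L M - algebraMap F M a) rfl
        (by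
          intro σ hσΓ
          rw [map_sub, hΓ.fix σ hσΓ, hΓ.fixt σ hσΓ])
        (push ℓ (curvePoly k F L g 1) j Q)
        (by
          rintro _ ⟨ρ, rfl⟩
          obtain ⟨ρ', hρ⟩ := LocDat.restrict (F := F) (L := L) (a := a) j ρ
          have h2 := hP ρ ρ' hρ
          rw [map_sub, ← hsz] at h2
          have h3 : zJ (zA F L Ω ζ) hz.pow_eq_one (symJ (toSym g 1 (galA k F ρ')) Q) -
              zJ (zA F L Ω ζ) hz.pow_eq_one Q = symJ (toSym g 1 (galA k F ρ')) Q - Q := by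
            have h4 : zJ (zA F L Ω ζ) hz.pow_eq_one (symJ (toSym g 1 (galA k F ρ')) Q) =
                symJ (toSym g 1 (galA k F ρ')) Q - (symJ (toSym g 1 (galA k F ρ')) Q -
                  zJ (zA F L Ω ζ) hz.pow_eq_one (symJ (toSym g 1 (galA k F ρ')) Q)) := by abel
            rw [h4, h2]
            abel
          rw [hpush ρ ρ' hρ, ← map_sub, ← hpz, map_sub (zJ (zA F L Ω ζ) hz.pow_eq_one), h3])
      have h5 := hfix (galSym (LocDat.hfK (k := k) (F := F) (L := L) (a := a) (M := M) g 1) τ)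
        ⟨τ, rfl⟩
      rw [hpush τ τ' hτ] at h5
      have h6 : push ℓ (curvePoly k F L g 1) j (symJ (toSym g 1 (galA k F τ')) Q - Q) = 0 := by
        rw [map_sub, h5, sub_self]
      exact sub_eq_zero.mp (push_inj_torsion H j n _
        (by rw [smul_sub, ← map_nsmul, hQn, map_zero, sub_zero]) h6)
  exact key _ Q hQ h1 σ σ' hσ

end

end Pool.Agent.Lib.MP_89bcae_ag.Sup

end

end

end
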