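import Mathlib
import Pool.Agent.Lib.MP_89bcae_ag.DefsSupTow7
import Pool.Agent.Lib.MP_89bcae_ag.Tk.K025
import Pool.Agent.Lib.MP_89bcae_ag.Tk.K041
import Pool.Agent.Lib.MP_89bcae_ag.Tk.K000

set_option linter.all false
attribute [local instance 100000] Pool.Agent.Lib.MP_89bcae_ag.Brt.tffFields
attribute [local instance 100000] Pool.Agent.Lib.MP_89bcae_ag.Wt.ifrNF Pool.Agent.Lib.MP_89bcae_ag.Wt.iddNF

namespace Pool.Agent.Lib.MP_89bcae_ag.Bra
end Pool.Agent.Lib.MP_89bcae_ag.Bra
namespace Pool.Agent.Lib.MP_89bcae_ag.Sup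
end Pool.Agent.Lib.MP_89bcae_ag.Sup
namespace Pool.Agent.Lib.MP_89bcae_ag.Wt
end Pool.Agent.Lib.MP_89bcae_ag.Wt
namespace Pool.Agent.Lib.MP_89bcae_ag.Wt.Lns
end Pool.Agent.Lib.MP_89bcae_ag.Wt.Lns
namespace Pool.Agent.Lib.MP_89bcae_ag.Wt.Lns.LocCtx
end Pool.Agent.Lib.MP_89bcae_ag.Wt.Lns.LocCtx

section

/-!
# Change of the base field in the statement on invariant classes
-/

open Polynomial IsDedekindDomain

open scoped Classical

set_option linter.unusedSimpArgs false
set_option linter.unusedVariables false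
set_option linter.unusedSectionVars false
set_option linter.style.haveILetI false

namespace Pool.Agent.Lib.MP_89bcae_ag.Superelliptic

universe u


variable {k K F L Ω : Type u} [Field k] [Field K] [Field F] [Algebra k K] [Algebra K F]
  [Algebra k F] [IsScalarTower k K F] [Field L] [Algebra F[X] L] [IsFractionRing F[X] L] [Field Ω]
  [Algebra L Ω]

lemma base_map8 {A : Type u} [Field A] [Algebra L A] (p : k[X]) :
    base K F L A (p.map (algebraMap k K)) = base k F L A p := by
  show algebraMap L A (algebraMap F[X] L ((p.map (algebraMap k K)).map (algebraMap K F))) =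
    algebraMap L A (algebraMap F[X] L (p.map (algebraMap k F)))
  rw [Polynomial.map_map, ← IsScalarTower.algebraMap_eq]

lemma curvePoly_map8 (g D : k[X]) : curvePoly K F L (g.map (algebraMap k K))
    (D.map (algebraMap k K)) = curvePoly k F L g D := by
  have h1 : ∀ p : k[X], base K F L L (p.map (algebraMap k K)) = base k F L L p := fun p =>
    base_map8 p
  have h2 : base K F L L X = base k F L L X := by
    have h3 := h1 X
    rwa [map_X] at h3
  have h4 : ((base K F L L).comp C).comp (algebraMap k K) = (base k F L L).comp C := by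
    ext x
    have h5 := h1 (C x)
    rw [map_C] at h5
    exact h5
  unfold curvePoly
  rw [h1, Polynomial.map_map, h4, h2]


/-- Every finite extension of `k` is contained in a finite extension of `K`. -/
theorem exists_finite8 [Algebra.IsAlgebraic K F] (k' : IntermediateField k F)
    [FiniteDimensional k k'] :
    ∃ K' : IntermediateField K F, FiniteDimensional K K' ∧ ∀ x ∈ k', x ∈ K' := by
  let b := Module.finBasis k k'
  refine ⟨IntermediateField.adjoin K (Set.range fun i => ((b i : k') : F)),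
    IntermediateField.finiteDimensional_adjoin fun x _ => Algebra.IsIntegral.isIntegral x,
    fun x hx => ?_⟩
  have h1 := congrArg (Subtype.val : k' → F) (b.sum_repr ⟨x, hx⟩)
  have h2 : ((∑ i, b.repr ⟨x, hx⟩ i • b i : k') : F) =
      ∑ i, algebraMap K F (algebraMap k K (b.repr ⟨x, hx⟩ i)) * ((b i : k') : F) := by
    rw [AddSubmonoidClass.coe_finsetSum]
    refine Finset.sum_congr rfl fun i _ => ?_
    rw [← IsScalarTower.algebraMap_apply, ← Algebra.smul_def]
    rfl
  rw [h2] at h1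
  have h3 : x = ∑ i, algebraMap K F (algebraMap k K (b.repr ⟨x, hx⟩ i)) * ((b i : k') : F) :=
    h1.symm
  rw [h3]
  exact sum_mem fun i _ => mul_mem (IntermediateField.algebraMap_mem _ _)
    (IntermediateField.subset_adjoin K _ ⟨i, rfl⟩)

end Pool.Agent.Lib.MP_89bcae_ag.Superelliptic

end

section

/-!
ROW G20 (80-160 lines). THE MAIN THEOREM.

PROOF. `IsGood` by `isGood_cOver`, `Algebra F Ω` through `L` (`letI`; `CompatF` is then `rfl`). Let `c` be as
in `NoTateClass` (`LTc` is the case `v = plc a`). It is in `WW`: for `γ` in `Aut(Ω/k(t))`, `k'` is generated by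
finitely many elements algebraic over `k`, which have finitely many conjugates, so
`U = resF γ` has a power `U^M`, `M > 0`, which fixes `k'` pointwise (the orbit of each generator under
`U` is finite), i.e. `γ^M` fixes `k'(t)`; by hypothesis the class of `c` is fixed up to torsion by
`γ^M`, and `TTc.of_isFixedBy` (G08). Then `TTc.of_WWc` (G19).
-/

open Polynomial IsDedekindDomain

open scoped Classical

namespace Pool.Agent.Lib.MP_89bcae_ag.Sup

universe u

lemma G20_exists_pow {k F : Type u} [Field k] [Field F] [Algebra k F] [IsAlgClosure k F]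
    (k' : IntermediateField k F) [FiniteDimensional k k'] (U : F ≃ₐ[k] F) :
    ∃ M : ℕ, 0 < M ∧ ∀ x : k', (U ^ M) (x : F) = x := by
  haveI : Finite (k' →ₐ[k] F) := inferInstance
  obtain ⟨a, b, hab, h⟩ := Finite.exists_ne_map_eq_of_infinite
    (fun n : ℕ => ((U ^ n : F ≃ₐ[k] F) : F →ₐ[k] F).comp k'.val)
  wlog hlt : a < b generalizing a b with H
  · exact H b a hab.symm h.symm (lt_of_le_of_ne (not_lt.mp hlt) hab.symm)
  refine ⟨b - a, Nat.sub_pos_of_lt hlt, fun x => ?_⟩
  have hx := DFunLike.congr_fun h x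
  have hx' : (U ^ a) (x : F) = (U ^ b) (x : F) := hx
  have e : U ^ b = U ^ a * U ^ (b - a) := by
    rw [← pow_add, Nat.add_sub_cancel' hlt.le]
  rw [e, AlgEquiv.mul_apply] at hx'
  exact ((U ^ a).injective hx').symm


end Pool.Agent.Lib.MP_89bcae_ag.Sup

end

section

section

/-!
# The definitions for a subfield `K`, in terms of `Sup.JacOver`
-/

open Polynomial IsDedekindDomain

open scoped Classical

namespace Pool.Agent.Lib.MP_89bcae_ag.Sup

universe u

section

variable {L Ω : Type u} [Field L] [Field Ω] [Algebra L Ω]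

/-- See `Superelliptic.IsTateCocycleOver`. -/
structure IsTateCocycleOver (ℓ : ℕ) (f : L[X]) (K : Subfield Ω)
    (c : ℕ → galOver L K → JacOver ℓ f Ω) : Prop where
  zero : ∀ σ, c 0 σ = 0
  smul : ∀ n σ, ℓ • c (n + 1) σ = c n σ
  cocycle : ∀ n (σ τ : galOver L K),
    c n (σ * τ) = c n σ + push ℓ f ((σ : Ω ≃ₐ[L] Ω) : Ω →ₐ[L] Ω) (c n τ)
  locallyConstant : ∀ n, IsLocallyConstant (c n)

/-- See `Superelliptic.IsLocallyTrivialOver`. -/
def IsLocallyTrivialOver (ℓ : ℕ) (f : L[X]) (K : Subfield Ω) (c : galOver L K → JacOver ℓ f Ω)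
    (Lv : Type u) [Field Lv] [Algebra L Lv] : Prop :=
  ∀ (M : Type u) [Field M] [Algebra Lv M] [IsAlgClosure Lv M] [Algebra L M] [IsScalarTower L Lv M]
    (j : Ω →ₐ[L] M), ∃ Q : JacOver ℓ f M, ∀ (g : M ≃ₐ[Lv] M) (g' : galOver L K),
      (∀ x, j ((g' : Ω ≃ₐ[L] Ω) x) = g (j x)) →
        push ℓ f j (c g') = push ℓ f (g.restrictScalars L : M →ₐ[L] M) Q - Q

/-- See `Superelliptic.IsFixedByOver`. -/
def IsFixedByOver (ℓ : ℕ) (f : L[X]) (K : Subfield Ω) (c : ℕ → galOver L K → JacOver ℓ f Ω)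
    (γ : Ω ≃+* Ω)
    (hγ : (f.map (algebraMap L Ω)).map (γ : Ω →+* Ω) = f.map (algebraMap L Ω)) : Prop :=
  ∃ m : ℕ, 0 < m ∧ ∀ n, ∃ A : JacOver ℓ f Ω, ℓ ^ n • A = 0 ∧
    ∀ g h : galOver L K, (∀ x, γ ((g : Ω ≃ₐ[L] Ω) x) = (h : Ω ≃ₐ[L] Ω) (γ x)) →
      m • (jacMap ℓ (γ : Ω →+* Ω) hγ (c n g) - c n h) =
        push ℓ f ((h : Ω ≃ₐ[L] Ω) : Ω →ₐ[L] Ω) A - A

/-- See `Superelliptic.IsTrivialOver`. -/
def IsTrivialOver (ℓ : ℕ) (f : L[X]) (K : Subfield Ω)
    (c : ℕ → galOver L K → JacOver ℓ f Ω) : Prop :=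
  ∀ n, ∃ A : JacOver ℓ f Ω, ℓ ^ n • A = 0 ∧ ∀ g : galOver L K,
    c n g = push ℓ f ((g : Ω ≃ₐ[L] Ω) : Ω →ₐ[L] Ω) A - A

end

/-- See `Superelliptic.NoTateClassOver`. -/
def NoTateClassOver (ℓ : ℕ) (k F L : Type u) {Ω : Type u} [Field k] [Field F] [Algebra k F]
    [Field L] [Algebra F[X] L] [IsFractionRing F[X] L] [Field Ω] [Algebra L Ω] (g D : k[X])
    (K : Subfield Ω) : Prop :=
  ∀ c : ℕ → galOver L K → JacOver ℓ (curvePoly k F L g D) Ω,
    IsTateCocycleOver ℓ (curvePoly k F L g D) K c →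
    (∀ (v : HeightOneSpectrum F[X]) (n : ℕ),
      IsLocallyTrivialOver ℓ (curvePoly k F L g D) K (c n) (v.adicCompletion L)) →
    (∀ (γ : Ω ≃+* Ω) hγ, (∀ x ∈ K, γ x = x) →
      IsFixedByOver ℓ (curvePoly k F L g D) K c γ hγ) →
    IsTrivialOver ℓ (curvePoly k F L g D) K c

end Pool.Agent.Lib.MP_89bcae_ag.Sup

namespace Pool.Agent.Lib.MP_89bcae_ag.Superelliptic

universe u

theorem NoTateClassOver.ofSup {ℓ : ℕ} {k F L Ω : Type u} [Field k] [Field F] [Algebra k F]
    [Field L] [Algebra F[X] L] [IsFractionRing F[X] L] [Field Ω] [Algebra L Ω] {g D : k[X]}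
    {K : Subfield Ω} (h : Sup.NoTateClassOver ℓ k F L g D K) :
    NoTateClassOver ℓ k F L g D K := by
  intro c hc hloc hfix
  exact h c ⟨hc.zero, hc.smul, hc.cocycle, hc.locallyConstant⟩ hloc hfix

end Pool.Agent.Lib.MP_89bcae_ag.Superelliptic

end

section

open Polynomial IsDedekindDomain

open scoped Classical

set_option linter.unusedSimpArgs false
set_option linter.unusedVariables false
set_option linter.unusedSectionVars false
set_option linter.style.haveILetI false

namespace Pool.Agent.Lib.MP_89bcae_ag.Superelliptic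

universe u

/-- The statement for a polynomial `f` and a subfield. -/
def tg05_NT (ℓ : ℕ) {F L Ω : Type u} [Field F] [Field L] [Algebra F[X] L]
    [IsFractionRing F[X] L] [Field Ω] [Algebra L Ω] (f : L[X]) (K : Subfield Ω) : Prop :=
  ∀ c : ℕ → galOver L K → JacOver ℓ f Ω,
    IsTateCocycleOver ℓ f K c →
    (∀ (v : HeightOneSpectrum F[X]) (n : ℕ),
      IsLocallyTrivialOver ℓ f K (c n) (v.adicCompletion L)) →
    (∀ (γ : Ω ≃+* Ω) hγ, (∀ x ∈ K, γ x = x) → IsFixedByOver ℓ f K c γ hγ) →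
    IsTrivialOver ℓ f K c

theorem tg05_iff {ℓ : ℕ} {k F L Ω : Type u} [Field k] [Field F] [Algebra k F]
    [Field L] [Algebra F[X] L] [IsFractionRing F[X] L] [Field Ω] [Algebra L Ω] {g D : k[X]}
    {K : Subfield Ω} : NoTateClassOver ℓ k F L g D K ↔
      tg05_NT (F := F) ℓ (curvePoly k F L g D) K := Iff.rfl

theorem noTateClassOver_mono {ℓ : ℕ} {k F L Ω : Type u} [Field k] [Field F] [Algebra k F]
    [Field L] [Algebra F[X] L] [IsFractionRing F[X] L] [Field Ω] [Algebra L Ω] {g D : k[X]}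
    {K₁ K₂ : Subfield Ω} (hle : K₁ ≤ K₂) (hK : galOver L K₁ = galOver L K₂)
    (h : NoTateClassOver ℓ k F L g D K₂) : NoTateClassOver ℓ k F L g D K₁ := by
  intro c hc hloc hfix
  have h21 : ∀ σ : Ω ≃ₐ[L] Ω, σ ∈ galOver L K₂ → σ ∈ galOver L K₁ := fun σ hσ => hK ▸ hσ
  have h12 : ∀ σ : Ω ≃ₐ[L] Ω, σ ∈ galOver L K₁ → σ ∈ galOver L K₂ := fun σ hσ => hK ▸ hσ
  let φ : galOver L K₂ → galOver L K₁ := fun σ => ⟨σ.1, h21 σ.1 σ.2⟩
  have hφ : Continuous φ := continuous_subtype_val.subtype_mk _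
  have hT := h (fun n σ => c n (φ σ))
    { zero := fun σ => hc.zero _
      smul := fun n σ => hc.smul n _
      cocycle := fun n σ τ => hc.cocycle n (φ σ) (φ τ)
      locallyConstant := fun n => (hc.locallyConstant n).comp_continuous hφ }
    (fun v n M _ _ _ _ _ j => by
      obtain ⟨Q, hQ⟩ := hloc v n M j
      exact ⟨Q, fun g g' hg => hQ g (φ g') hg⟩)
    (fun γ hγ hx => by
      obtain ⟨m, hm, hA⟩ := hfix γ hγ fun x hx' => hx x (hle hx')
      refine ⟨m, hm, fun n => ?_⟩
      obtain ⟨A, hA0, hA1⟩ := hA n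
      exact ⟨A, hA0, fun g h hgh => hA1 (φ g) (φ h) hgh⟩)
  intro n
  obtain ⟨A, hA0, hA1⟩ := hT n
  exact ⟨A, hA0, fun g => hA1 ⟨g.1, h12 g.1 g.2⟩⟩

private lemma tg05_mem {k F L Ω : Type u} [Field k] [Field F] [Algebra k F]
    [Field L] [Algebra F[X] L] [Field Ω] [Algebra L Ω] (s : Ω) (σ : Ω ≃ₐ[L] Ω) :
    σ ∈ galOver L (cover k F L s) ↔ σ s = s := by
  constructor
  · intro h
    exact h s (Subfield.subset_closure (Set.mem_insert _ _))
  · intro h x hx
    unfold cover at hx
    induction hx using Subfield.closure_induction with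
    | mem x hx =>
      rcases hx with rfl | ⟨p, rfl⟩
      · exact h
      · exact σ.commutes _
    | one => exact map_one σ
    | add x y _ _ hx hy => rw [map_add, hx, hy]
    | neg x _ hx => rw [map_neg, hx]
    | inv x _ hx => rw [map_inv₀, hx]
    | mul x y _ _ hx hy => rw [map_mul, hx, hy]

theorem noTateClassOver_base {k K F L Ω : Type u} [Field k] [Field K] [Field F] [Algebra k K]
    [Algebra K F] [Algebra k F] [IsScalarTower k K F] [Field L] [Algebra F[X] L]
    [IsFractionRing F[X] L] [Field Ω] [Algebra L Ω] {ℓ : ℕ} {g : k[X]} {s : Ω}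
    {k' : IntermediateField k F} {K' : IntermediateField K F} (hle : ∀ x ∈ k', x ∈ K')
    (h : NoTateClassOver ℓ K F L (g.map (algebraMap k K)) 1 (cover K' F L s)) :
    NoTateClassOver ℓ k F L g 1 (cover k' F L s) := by
  have h0 : NoTateClassOver ℓ k F L g 1 (cover K' F L s) := by
    rw [tg05_iff] at h ⊢
    have h1 : curvePoly K F L (g.map (algebraMap k K)) 1 = curvePoly k F L g 1 := by
      have h2 := curvePoly_map8 (k := k) (K := K) (F := F) (L := L) g 1
      rwa [Polynomial.map_one] at h2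
    rwa [h1] at h
  refine noTateClassOver_mono ?_ ?_ h0
  · unfold cover
    apply Subfield.closure_mono
    apply Set.insert_subset_insert
    rintro _ ⟨p, rfl⟩
    let i : k' →+* K' :=
      (algebraMap k' F).codRestrict K'.toSubalgebra.toSubring fun x => hle x x.2
    refine ⟨p.map i, ?_⟩
    show algebraMap L Ω (algebraMap F[X] L ((p.map i).map (algebraMap K' F))) =
      algebraMap L Ω (algebraMap F[X] L (p.map (algebraMap k' F)))
    rw [Polynomial.map_map]
    rfl
  · ext σ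
    rw [tg05_mem, tg05_mem]

end Pool.Agent.Lib.MP_89bcae_ag.Superelliptic

end

section

open Polynomial IsDedekindDomain

open scoped Classical

set_option linter.unusedSectionVars false

namespace Pool.Agent.Lib.MP_89bcae_ag.Sup

universe u

variable {k F L Ω : Type u} [Field k] [Field F] [Algebra k F] [Field L] [Algebra F[X] L]
  [Field Ω] [Algebra L Ω] [IsAlgClosure k F] [IsFractionRing F[X] L] [IsAlgClosure L Ω]
  {ℓ : ℕ} {g E : k[X]}

lemma mem_galOver_cover (k' : IntermediateField k F) (s : Ω) (σ : Ω ≃ₐ[L] Ω) :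
    σ ∈ galOver L (cover k' F L s) ↔ σ ∈ (Nst s : Subgroup (Ω ≃ₐ[L] Ω)) := by
  constructor
  · intro h
    exact h s (Subfield.subset_closure (Set.mem_insert _ _))
  · intro h x hx
    have h' : σ s = s := h
    unfold cover at hx
    induction hx using Subfield.closure_induction with
    | mem x hx =>
      rcases hx with rfl | ⟨p, rfl⟩
      · exact h'
      · exact σ.commutes _
    | one => exact map_one σ
    | add x y _ _ hx hy => rw [map_add, hx, hy]
    | neg x _ hx => rw [map_neg, hx]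
    | inv x _ hx => rw [map_inv₀, hx]
    | mul x y _ _ hx hy => rw [map_mul, hx, hy]

private lemma tg02_pow (γ : AutO k F L Ω) {x : Ω} (h : (γ : Ω ≃+* Ω) x = x) (n : ℕ) :
    ((γ ^ n : AutO k F L Ω) : Ω ≃+* Ω) x = x := by
  induction n with
  | zero => rfl
  | succ n ih =>
    have e : ((γ ^ (n + 1) : AutO k F L Ω) : Ω ≃+* Ω) x =
        ((γ ^ n : AutO k F L Ω) : Ω ≃+* Ω) ((γ : Ω ≃+* Ω) x) := by
      rw [pow_succ]
      rfl
    rw [e, h, ih]

lemma exists_pow_cover (hℓ : ℓ ≠ 0) (k' : IntermediateField k F) [FiniteDimensional k k']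
    {r : ℕ} {s : Ω} (hs : s ^ ℓ ^ r = base k F L Ω E) (γ : AutO k F L Ω) :
    ∃ M : ℕ, 0 < M ∧ ∀ x ∈ cover k' F L s,
      ((γ ^ M : AutO k F L Ω) : Ω ≃+* Ω) x = x := by
  obtain ⟨M₁, hM₁, hMx⟩ := G20_exists_pow k' (resF γ)
  have hpos : 0 < ℓ ^ r := Nat.pos_of_ne_zero (pow_ne_zero _ hℓ)
  have hroot : ∀ n : ℕ, ((γ ^ n : AutO k F L Ω) : Ω ≃+* Ω) s ∈
      (nthRoots (ℓ ^ r) (base k F L Ω E)).toFinset := by
    intro n
    rw [Multiset.mem_toFinset, mem_nthRoots hpos, ← map_pow, hs]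
    exact (γ ^ n).2 E
  obtain ⟨a, b, hab, h⟩ := Finite.exists_ne_map_eq_of_infinite
    (fun n : ℕ => (⟨((γ ^ n : AutO k F L Ω) : Ω ≃+* Ω) s, hroot n⟩ :
      {x // x ∈ (nthRoots (ℓ ^ r) (base k F L Ω E)).toFinset}))
  have hm : ∃ m : ℕ, 0 < m ∧ ((γ ^ m : AutO k F L Ω) : Ω ≃+* Ω) s = s := by
    have h1 : ((γ ^ a : AutO k F L Ω) : Ω ≃+* Ω) s = ((γ ^ b : AutO k F L Ω) : Ω ≃+* Ω) s :=
      congrArg Subtype.val h
    clear h
    wlog hlt : a < b generalizing a b with H
    · exact H b a hab.symm h1.symm (lt_of_le_of_ne (not_lt.mp hlt) hab.symm)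
    refine ⟨b - a, Nat.sub_pos_of_lt hlt, ?_⟩
    have e : ((γ ^ b : AutO k F L Ω) : Ω ≃+* Ω) s =
        ((γ ^ a : AutO k F L Ω) : Ω ≃+* Ω) (((γ ^ (b - a) : AutO k F L Ω) : Ω ≃+* Ω) s) := by
      have e1 : γ ^ b = γ ^ a * γ ^ (b - a) := by
        rw [← pow_add, Nat.add_sub_cancel' hlt.le]
      rw [e1]
      rfl
    rw [e] at h1
    exact (((γ ^ a : AutO k F L Ω) : Ω ≃+* Ω).injective h1).symm
  obtain ⟨m, hm0, hms⟩ := hm
  refine ⟨M₁ * m, Nat.mul_pos hM₁ hm0, fun x hx => ?_⟩
  have hs' : ((γ ^ (M₁ * m) : AutO k F L Ω) : Ω ≃+* Ω) s = s := by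
    rw [Nat.mul_comm, pow_mul]
    exact tg02_pow (γ ^ m) hms M₁
  have hp : ∀ p : k'[X], ((γ ^ (M₁ * m) : AutO k F L Ω) : Ω ≃+* Ω) (base k' F L Ω p) =
      base k' F L Ω p := by
    intro p
    rw [pow_mul]
    refine tg02_pow (γ ^ M₁) ?_ m
    have h1 : base k' F L Ω p =
        algebraMap L Ω (algebraMap F[X] L (p.map (algebraMap k' F))) := rfl
    rw [h1, resF_spec, Polynomial.map_map]
    have h2 : ((resF (γ ^ M₁) : F ≃ₐ[k] F) : F →+* F).comp (algebraMap k' F) =
        algebraMap k' F := by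
      refine RingHom.ext fun x => ?_
      rw [map_pow]
      exact hMx x
    rw [h2]
  unfold cover at hx
  induction hx using Subfield.closure_induction with
  | mem x hx =>
    rcases hx with rfl | ⟨p, rfl⟩
    · exact hs'
    · exact hp p
  | one => exact map_one _
  | add x y _ _ hx hy => rw [map_add, hx, hy]
  | neg x _ hx => rw [map_neg, hx]
  | inv x _ hx => rw [map_inv₀, hx]
  | mul x y _ _ hx hy => rw [map_mul, hx, hy]

end Pool.Agent.Lib.MP_89bcae_ag.Sup

end

end

section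

namespace Pool.Agent.Lib.MP_89bcae_ag.Wt.Lns.LocCtx
end Pool.Agent.Lib.MP_89bcae_ag.Wt.Lns.LocCtx


/-!
# The Jacobian
-/

open Polynomial IsDedekindDomain IsLocalRing

open scoped Classical

namespace Pool.Agent.Lib.MP_89bcae_ag.Brt

open Pool.Agent.Lib.MP_89bcae_ag.Sup (LocCtx plc exists_locCtx)

open Pool.Agent.Lib.MP_89bcae_ag.Wt Pool.Agent.Lib.MP_89bcae_ag.Wt.Lns Pool.Agent.Lib.MP_89bcae_ag.Bra

/-! ROW B1 -/

section

variable {A B : Type} [Field A] [Field B] {ℓ : ℕ} {f : A[X]} {f' : B[X]} [hG : IsGood ℓ f]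
  [hG' : IsGood ℓ f']

-- BEGIN

omit hG hG' in
theorem B1b_coordHom_of (σ : A →+* B) (h : f.map σ = f') (p : A[X]) :
    Superelliptic.coordHom ℓ σ h (AdjoinRoot.of (X ^ ℓ - C f : A[X][X]) p) =
      AdjoinRoot.of (X ^ ℓ - C f' : B[X][X]) (p.map σ) := by
  unfold Superelliptic.coordHom
  exact AdjoinRoot.map_of _ _ _ _ _

omit hG hG' in
theorem B1b_coordHom_root (σ : A →+* B) (h : f.map σ = f') :
    Superelliptic.coordHom ℓ σ h (AdjoinRoot.root (X ^ ℓ - C f : A[X][X])) =
      AdjoinRoot.root (X ^ ℓ - C f' : B[X][X]) := by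
  unfold Superelliptic.coordHom
  exact AdjoinRoot.map_root _ _ _ _

theorem B1b_toN_of (p : A[X]) : toN ℓ f (AdjoinRoot.of (X ^ ℓ - C f : A[X][X]) p) = ofPoly p := by
  unfold toN
  exact AdjoinRoot.lift_of _

theorem B1b_toN_root : toN ℓ f (AdjoinRoot.root (X ^ ℓ - C f : A[X][X])) = yy := by
  unfold toN
  exact AdjoinRoot.lift_root _

theorem toN_coordHom (σ : A →+* B) (h : f.map σ = f') :
    (toN ℓ f').comp (Superelliptic.coordHom ℓ σ h) = (coordMap ℓ σ h).comp (toN ℓ f) := by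
  have key : ((toN ℓ f').comp (Superelliptic.coordHom ℓ σ h)).comp (AdjoinRoot.mk (X ^ ℓ - C f : A[X][X])) =
      ((coordMap ℓ σ h).comp (toN ℓ f)).comp (AdjoinRoot.mk (X ^ ℓ - C f : A[X][X])) := by
    refine Polynomial.ringHom_ext (fun p => ?_) ?_
    · show toN ℓ f' (Superelliptic.coordHom ℓ σ h (AdjoinRoot.of (X ^ ℓ - C f : A[X][X]) p)) =
        coordMap ℓ σ h (toN ℓ f (AdjoinRoot.of (X ^ ℓ - C f : A[X][X]) p))
      rw [B1b_coordHom_of, B1b_toN_of, B1b_toN_of, coordMap_ofPoly]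
    · show toN ℓ f' (Superelliptic.coordHom ℓ σ h (AdjoinRoot.root (X ^ ℓ - C f : A[X][X]))) =
        coordMap ℓ σ h (toN ℓ f (AdjoinRoot.root (X ^ ℓ - C f : A[X][X])))
      rw [B1b_coordHom_root, B1b_toN_root, B1b_toN_root, coordMap_yy]
  refine RingHom.ext fun a => ?_
  obtain ⟨p, rfl⟩ := AdjoinRoot.mk_surjective a
  exact congrArg (fun g : A[X][X] →+* NRing ℓ f' => g p) key

theorem jN_bijective (hℓ : ℓ.Prime) (hf : f.Separable) : Function.Bijective (jN ℓ f) := by
  set e : Superelliptic.CoordRing ℓ f ≃+* NRing ℓ f := RingEquiv.ofBijective (toN ℓ f) (toN_bijective hℓ hf) with he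
  have h1 : ((e.symm : NRing ℓ f →+* Superelliptic.CoordRing ℓ f)).comp (toN ℓ f) = RingHom.id _ :=
    RingHom.ext fun a => e.symm_apply_apply a
  have h2 : (toN ℓ f).comp (e.symm : NRing ℓ f →+* Superelliptic.CoordRing ℓ f) = RingHom.id _ :=
    RingHom.ext fun a => e.apply_symm_apply a
  have h3 : ∀ M : CommRing.Pic (Superelliptic.CoordRing ℓ f),
      CommRing.Pic.mapRingHom (e.symm : NRing ℓ f →+* Superelliptic.CoordRing ℓ f)
        (CommRing.Pic.mapRingHom (toN ℓ f) M) = M := by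
    intro M
    rw [CommRing.Pic.mapRingHom_mapRingHom, h1, CommRing.Pic.mapRingHom_id_apply]
  have h4 : ∀ M : CommRing.Pic (NRing ℓ f),
      CommRing.Pic.mapRingHom (toN ℓ f)
        (CommRing.Pic.mapRingHom (e.symm : NRing ℓ f →+* Superelliptic.CoordRing ℓ f) M) = M := by
    intro M
    rw [CommRing.Pic.mapRingHom_mapRingHom, h2, CommRing.Pic.mapRingHom_id_apply]
  exact (Function.bijective_iff_has_inverse (f := CommRing.Pic.mapRingHom (toN ℓ f))).2
    ⟨CommRing.Pic.mapRingHom (e.symm : NRing ℓ f →+* Superelliptic.CoordRing ℓ f), h3, h4⟩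

theorem jN_jacMap (σ : A →+* B) (h : f.map σ = f') (P : Superelliptic.Jacobian ℓ f) :
    jN ℓ f' (Superelliptic.jacMap ℓ σ h P) = jacMap ℓ σ h (jN ℓ f P) := by
  have h1 : ∀ M : CommRing.Pic (Superelliptic.CoordRing ℓ f),
      CommRing.Pic.mapRingHom (toN ℓ f') (CommRing.Pic.mapRingHom (Superelliptic.coordHom ℓ σ h) M) =
        CommRing.Pic.mapRingHom (coordMap ℓ σ h) (CommRing.Pic.mapRingHom (toN ℓ f) M) := by
    intro M
    rw [CommRing.Pic.mapRingHom_mapRingHom, CommRing.Pic.mapRingHom_mapRingHom, toN_coordHom]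
  exact congrArg Additive.ofMul (h1 (Additive.toMul P))

/-- PROOF: `f` splits over `A`, and the multiplicities of the roots do not change (`rootMultiplicity_map` or
`Polynomial.Splits`). -/
theorem isGood_map (σ : A →+* B) [IsAlgClosed B] (f : A[X]) [IsGood ℓ f] : IsGood ℓ (f.map σ) := by
  have hG : IsGood ℓ f := inferInstance
  have hA : IsAlgClosed A := hG.alg
  have hf0 : f ≠ 0 := by
    rintro rfl
    have h1 := hG.coprime
    rw [natDegree_zero, Nat.coprime_zero_left] at h1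
    have h2 := hG.one_lt
    omega
  refine ⟨inferInstance, hG.one_lt, ?_, ?_, ?_⟩
  · intro h
    apply hG.ne_zero
    apply σ.injective
    rw [map_natCast, h, map_zero]
  · intro θ hθ
    have h0 : f.map σ ≠ 0 := (Polynomial.map_ne_zero_iff σ.injective).2 hf0
    have hmem : θ ∈ (f.map σ).roots := (mem_roots h0).2 hθ
    have hs : (f.map σ).roots = f.roots.map σ := (IsAlgClosed.splits f).roots_map σ
    rw [hs, Multiset.mem_map] at hmem
    obtain ⟨α, hα, rfl⟩ := hmem
    rw [← Polynomial.eq_rootMultiplicity_map σ.injective]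
    exact hG.mult α ((mem_roots hf0).1 hα)
  · rw [natDegree_map]
    exact hG.coprime

-- END

end

end Pool.Agent.Lib.MP_89bcae_ag.Brt

end

section

namespace Pool.Agent.Lib.MP_89bcae_ag.Wt.Lns.LocCtx
end Pool.Agent.Lib.MP_89bcae_ag.Wt.Lns.LocCtx


/-!
# Translation of the hypothesis
-/

open Polynomial IsDedekindDomain IsLocalRing

open scoped Classical

namespace Pool.Agent.Lib.MP_89bcae_ag.Brt

open Pool.Agent.Lib.MP_89bcae_ag.Sup (LocCtx plc exists_locCtx)

open Pool.Agent.Lib.MP_89bcae_ag.Wt Pool.Agent.Lib.MP_89bcae_ag.Wt.Lns Pool.Agent.Lib.MP_89bcae_ag.Bra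

/-! ROW B2 -/

/-- The isomorphism of the Picard groups, for equal polynomials. -/
private noncomputable def b2_T (ℓ : ℕ) {A : Type} [Field A] {f₁ f₂ : A[X]} (e : f₁ = f₂) [IsGood ℓ f₂] :
    Superelliptic.Jacobian ℓ f₁ →+ Jac ℓ f₂ := by
  subst e
  exact jN ℓ f₁

private lemma b2_T_bijective {ℓ : ℕ} (hℓ : ℓ.Prime) {A : Type} [Field A] {f₁ f₂ : A[X]} (e : f₁ = f₂)
    [IsGood ℓ f₂] (hf : f₂.Separable) : Function.Bijective (b2_T ℓ e) := by
  subst e
  exact jN_bijective hℓ hf

private lemma b2_T_map {ℓ : ℕ} {A B : Type} [Field A] [Field B] {f₁ f₂ : A[X]} {f₁' f₂' : B[X]}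
    (e : f₁ = f₂) (e' : f₁' = f₂') [IsGood ℓ f₂] [IsGood ℓ f₂'] (σ : A →+* B) (h₁ : f₁.map σ = f₁')
    (h₂ : f₂.map σ = f₂') (P : Superelliptic.Jacobian ℓ f₁) :
    b2_T ℓ e' (Superelliptic.jacMap ℓ σ h₁ P) = jacMap ℓ σ h₂ (b2_T ℓ e P) := by
  subst e
  subst e'
  exact jN_jacMap σ h₁ P

section

variable {k F L L' Ω : Type} [Field k] [Field F] [Algebra k F]
  [Field L] [Algebra F[X] L] [Field L'] [Algebra L L'] [Algebra F[X] L']
  [IsScalarTower F[X] L L'] [Field Ω] [Algebra L Ω] [Algebra L' Ω] [IsScalarTower L L' Ω]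

/-- The equality of the two polynomials. -/
private lemma b2_poly {R : Type} [Field R] [Algebra L R] (φ : L' →+* R)
    (hφ : ∀ z : L, φ (algebraMap L L' z) = algebraMap L R z) (g : k[X]) :
    (Superelliptic.curvePoly k F L g 1).map (algebraMap L R) =
      (ft F L' (g.map (algebraMap k F))).map φ := by
  have e1 : ∀ z : F[X], φ (algebraMap F[X] L' z) = algebraMap L R (algebraMap F[X] L z) := by
    intro z
    rw [IsScalarTower.algebraMap_apply F[X] L L', hφ]
  unfold Superelliptic.curvePoly ft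
  rw [map_one, inv_one, C_1, one_mul, Polynomial.map_sub, Polynomial.map_sub, Polynomial.map_C,
    Polynomial.map_C, Polynomial.map_map, Polynomial.map_map, Polynomial.map_map]
  have e2 : (algebraMap L R).comp ((base k F L L).comp C) =
      (φ.comp ((algebraMap F[X] L').comp C)).comp (algebraMap k F) := by
    refine RingHom.ext fun c => ?_
    show algebraMap L R (algebraMap L L (algebraMap F[X] L (mapRingHom (algebraMap k F) (C c)))) =
      φ (algebraMap F[X] L' (C (algebraMap k F c)))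
    rw [e1, coe_mapRingHom, Polynomial.map_C]
    rfl
  have e3 : algebraMap L R (base k F L L X) = φ (algebraMap F[X] L' X) := by
    show algebraMap L R (algebraMap L L (algebraMap F[X] L (mapRingHom (algebraMap k F) X))) = _
    rw [e1, coe_mapRingHom, Polynomial.map_X]
    rfl
  rw [e2, e3, RingHom.comp_assoc]

omit [Algebra F[X] L'] [IsScalarTower F[X] L L'] in
/-- The automorphisms over `L'` fix the cover. -/
private lemma b2_mem (k' : IntermediateField k F) (s : L') (σ : Ω ≃ₐ[L'] Ω) :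
    (σ.restrictScalars L) ∈ galOver L (cover k' F L (algebraMap L' Ω s)) := by
  intro x hx
  show σ x = x
  unfold cover at hx
  induction hx using Subfield.closure_induction with
  | mem x hx =>
    rcases hx with rfl | ⟨p, rfl⟩
    · exact σ.commutes s
    · show σ (algebraMap L Ω (algebraMap F[X] L (mapRingHom (algebraMap k' F) p))) =
        algebraMap L Ω (algebraMap F[X] L (mapRingHom (algebraMap k' F) p))
      rw [IsScalarTower.algebraMap_apply L L' Ω]
      exact σ.commutes _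
  | one => exact map_one σ
  | add x y _ _ h1 h2 => rw [map_add, h1, h2]
  | neg x _ h1 => rw [map_neg, h1]
  | inv x _ h1 => rw [map_inv₀, h1]
  | mul x y _ _ h1 h2 => rw [map_mul, h1, h2]

omit [Algebra F[X] L'] [IsScalarTower F[X] L L'] in
/-- The elements of `galOver` fix `L'`. -/
private lemma b2_fix {s : L'} (hs : IntermediateField.adjoin L {s} = ⊤) (k' : IntermediateField k F)
    (σ : galOver L (cover k' F L (algebraMap L' Ω s))) (z : L') :
    (σ : Ω ≃ₐ[L] Ω) (algebraMap L' Ω z) = algebraMap L' Ω z := by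
  have hz : z ∈ IntermediateField.adjoin L {s} := by
    rw [hs]
    exact IntermediateField.mem_top
  induction hz using IntermediateField.adjoin_induction with
  | mem x hx =>
    rw [Set.mem_singleton_iff.mp hx]
    exact σ.2 _ (Subfield.subset_closure (Set.mem_insert _ _))
  | algebraMap x =>
    rw [← IsScalarTower.algebraMap_apply L L' Ω]
    exact (σ : Ω ≃ₐ[L] Ω).commutes x
  | add x y _ _ h1 h2 => rw [map_add, map_add, h1, h2]
  | inv x _ h1 => rw [map_inv₀, map_inv₀, h1]
  | mul x y _ _ h1 h2 => rw [map_mul, map_mul, h1, h2]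

/-- The automorphism over `L'` which corresponds to an element of `galOver`. -/
private noncomputable def b2_psi {s : L'} (hs : IntermediateField.adjoin L {s} = ⊤)
    (k' : IntermediateField k F) :
    galOver L (cover k' F L (algebraMap L' Ω s)) →* (Ω ≃ₐ[L'] Ω) where
  toFun σ := AlgEquiv.ofRingEquiv (f := ((σ : Ω ≃ₐ[L] Ω) : Ω ≃+* Ω)) (b2_fix hs k' σ)
  map_one' := AlgEquiv.ext fun _ => rfl
  map_mul' _ _ := AlgEquiv.ext fun _ => rfl

omit [Algebra F[X] L'] [IsScalarTower F[X] L L'] in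
private lemma b2_psi_continuous [IsAlgClosure L Ω] {s : L'} (hs : IntermediateField.adjoin L {s} = ⊤)
    (k' : IntermediateField k F) :
    Continuous (b2_psi (Ω := Ω) hs k') := by
  have halg : Algebra.IsAlgebraic L Ω := IsAlgClosure.isAlgebraic
  have hsi : IsIntegral L s := by
    have h1 : IsIntegral L (algebraMap L' Ω s) := Algebra.IsIntegral.isIntegral _
    exact (isIntegral_algebraMap_iff (algebraMap L' Ω).injective).mp h1
  have hfd : FiniteDimensional L L' := by
    have h1 : FiniteDimensional L (IntermediateField.adjoin L {s}) :=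
      IntermediateField.adjoin.finiteDimensional hsi
    rw [hs] at h1
    exact Module.Finite.equiv (IntermediateField.topEquiv (F := L) (E := L')).toLinearEquiv
  refine continuous_of_continuousAt_one _ ?_
  rw [ContinuousAt, map_one]
  intro U hU
  obtain ⟨E, hE, hEU⟩ := (krullTopology_mem_nhds_one_iff L' Ω U).mp hU
  have hfdE : FiniteDimensional L E := FiniteDimensional.trans L L' E
  have hfdE' : FiniteDimensional L (E.restrictScalars L) := hfdE
  rw [Filter.mem_map]
  have h2 : ((E.restrictScalars L).fixingSubgroup : Set (Ω ≃ₐ[L] Ω)) ∈ nhds (1 : Ω ≃ₐ[L] Ω) :=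
    (krullTopology_mem_nhds_one_iff L Ω _).mpr ⟨_, hfdE', subset_rfl⟩
  have h3 : ((Subtype.val : galOver L (cover k' F L (algebraMap L' Ω s)) → (Ω ≃ₐ[L] Ω)) ⁻¹'
      ((E.restrictScalars L).fixingSubgroup : Set (Ω ≃ₐ[L] Ω))) ∈
        nhds (1 : galOver L (cover k' F L (algebraMap L' Ω s))) :=
    continuous_subtype_val.continuousAt.preimage_mem_nhds h2
  refine Filter.mem_of_superset h3 fun σ hσ => hEU ?_
  refine (IntermediateField.mem_fixingSubgroup_iff _ _).mpr fun x hx => ?_
  exact (IntermediateField.mem_fixingSubgroup_iff _ _).mp hσ x hx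

end

/-- The absence of Tate classes over the cover `k'(t, s)`, for the normalizations and the group `Aut(Ω/L')`,
where `L' = L(s)`. -/
theorem ntg_of_noTate {ℓ : ℕ} (hℓ : ℓ.Prime) {k F L L' Ω : Type} [Field k] [Field F] [Algebra k F]
    [Field L] [Algebra F[X] L] [IsFractionRing F[X] L] [Field L'] [Algebra L L'] [Algebra F[X] L']
    [IsScalarTower F[X] L L'] [Field Ω] [Algebra L Ω] [IsAlgClosure L Ω] [Algebra L' Ω]
    [IsScalarTower L L' Ω] [IsAlgClosure L' Ω] (g : k[X]) {s : L'}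
    (hs : IntermediateField.adjoin L {s} = ⊤) (k' : IntermediateField k F)
    [hG : IsGood ℓ ((ft F L' (g.map (algebraMap k F))).map (algebraMap L' Ω))]
    (hsep : ((ft F L' (g.map (algebraMap k F))).map (algebraMap L' Ω)).Separable)
    (h : Superelliptic.NoTateClassOver ℓ k F L g 1 (cover k' F L (algebraMap L' Ω s))) :
    NTg ℓ 1 (ft F L' (g.map (algebraMap k F))) (LTo F L ℓ (ft F L' (g.map (algebraMap k F))))
      (AutC F L (algebraMap L' Ω s) k') := by
  intro c hc hlt hfix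
  have hpol : (Superelliptic.curvePoly k F L g 1).map (algebraMap L Ω) =
      (ft F L' (g.map (algebraMap k F))).map (algebraMap L' Ω) :=
    b2_poly (algebraMap L' Ω) (fun z => (IsScalarTower.algebraMap_apply L L' Ω z).symm) g
  obtain ⟨hinj, hsurj⟩ := b2_T_bijective hℓ hpol hsep
  set T := b2_T ℓ hpol with hT
  choose S hS using hsurj
  have hST : ∀ P, S (T P) = P := fun P => hinj (hS (T P))
  have hT0 : ∀ P, T P = 0 → P = 0 := fun P hP => hinj (by rw [hP, map_zero])
  have hpush : ∀ (σ : galOver L (cover k' F L (algebraMap L' Ω s)))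
      (P : Superelliptic.JacOver ℓ (Superelliptic.curvePoly k F L g 1) Ω),
      T (Superelliptic.push ℓ (Superelliptic.curvePoly k F L g 1) ((σ : Ω ≃ₐ[L] Ω) : Ω →ₐ[L] Ω) P) =
        push ℓ (ft F L' (g.map (algebraMap k F))) (b2_psi hs k' σ : Ω →ₐ[L'] Ω) (T P) :=
    fun σ P => b2_T_map hpol hpol _ _ _ P
  have hψ : ∀ σ : Ω ≃ₐ[L'] Ω, b2_psi hs k' ⟨σ.restrictScalars L, b2_mem k' s σ⟩ = σ :=
    fun σ => AlgEquiv.ext fun x => rfl
  have key := h (fun n σ => S (c n (b2_psi hs k' σ))) ?_ ?_ ?_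
  · intro n
    obtain ⟨A, hA, hA'⟩ := key n
    refine ⟨T A, ?_, fun σ => ?_⟩
    · rw [← map_nsmul, hA, map_zero]
    · have h1 := hA' ⟨σ.restrictScalars L, b2_mem k' s σ⟩
      have h2 := congrArg T h1
      rw [hS, map_sub, hpush, hψ] at h2
      show 1 • c n σ = _
      rw [one_smul]
      exact h2
  · refine ⟨fun σ => ?_, fun n σ => ?_, fun n σ τ => ?_, fun n => ?_⟩
    · apply hT0
      rw [hS]
      exact hc.zero _
    · apply hinj
      rw [map_nsmul, hS, hS]
      exact hc.smul _ _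
    · apply hinj
      show T (S (c n (b2_psi hs k' (σ * τ)))) = T (S (c n (b2_psi hs k' σ)) + _)
      rw [map_add, hpush, hS, hS, hS, map_mul]
      exact hc.cocycle n _ _
    · have h1 : IsLocallyConstant fun σ => c n (b2_psi (Ω := Ω) hs k' σ) :=
        (hc.locallyConstant n).comp_continuous (b2_psi_continuous hs k')
      exact h1.comp S
  · intro v n M _ _ _ _ _ j
    obtain ⟨Q, hQ⟩ := hlt n v M j
    have halgM : IsAlgClosed M := IsAlgClosure.isAlgClosed (v.adicCompletion L)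
    have hpolM : (Superelliptic.curvePoly k F L g 1).map (algebraMap L M) =
        (ft F L' (g.map (algebraMap k F))).map ((j : Ω →+* M).comp (algebraMap L' Ω)) := by
      refine b2_poly ((j : Ω →+* M).comp (algebraMap L' Ω)) (fun z => ?_) g
      show j (algebraMap L' Ω (algebraMap L L' z)) = _
      rw [← IsScalarTower.algebraMap_apply L L' Ω, j.commutes]
    have hGM : IsGood ℓ ((ft F L' (g.map (algebraMap k F))).map ((j : Ω →+* M).comp (algebraMap L' Ω))) := by
      rw [← Polynomial.map_map]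
      exact isGood_map (j : Ω →+* M) _
    have hsepM : ((ft F L' (g.map (algebraMap k F))).map
        ((j : Ω →+* M).comp (algebraMap L' Ω))).Separable := by
      rw [← Polynomial.map_map]
      exact hsep.map
    obtain ⟨hinjM, hsurjM⟩ := b2_T_bijective hℓ hpolM hsepM
    obtain ⟨Q₀, hQ₀⟩ := hsurjM Q
    refine ⟨Q₀, fun γ γ' hγ => ?_⟩
    apply hinjM
    have hg : ((ft F L' (g.map (algebraMap k F))).map ((j : Ω →+* M).comp (algebraMap L' Ω))).map
        ((γ : M ≃+* M) : M →+* M) =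
        (ft F L' (g.map (algebraMap k F))).map ((j : Ω →+* M).comp (algebraMap L' Ω)) := by
      rw [← hpolM, Polynomial.map_map]
      congr 1
      refine RingHom.ext fun z => ?_
      show γ (algebraMap L M z) = algebraMap L M z
      rw [IsScalarTower.algebraMap_apply L (v.adicCompletion L) M]
      exact γ.commutes _
    have h1 := hQ γ (b2_psi hs k' γ') hg hγ
    have h2 : b2_T ℓ hpolM (Superelliptic.push ℓ (Superelliptic.curvePoly k F L g 1) j
        (S (c n (b2_psi hs k' γ')))) = jacMap ℓ (j : Ω →+* M)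
          (Polynomial.map_map (algebraMap L' Ω) (j : Ω →+* M) (ft F L' (g.map (algebraMap k F))))
            (c n (b2_psi hs k' γ')) := by
      have h3 := b2_T_map (ℓ := ℓ) hpol hpolM (j : Ω →+* M)
        (by rw [Polynomial.map_map, AlgHom.comp_algebraMap])
        (Polynomial.map_map (algebraMap L' Ω) (j : Ω →+* M) (ft F L' (g.map (algebraMap k F))))
        (S (c n (b2_psi hs k' γ')))
      rw [← hT, hS] at h3
      exact h3
    have h4 : b2_T ℓ hpolM (Superelliptic.push ℓ (Superelliptic.curvePoly k F L g 1)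
        (γ.restrictScalars L : M →ₐ[L] M) Q₀) = jacMap ℓ ((γ : M ≃+* M) : M →+* M) hg Q := by
      rw [← hQ₀]
      exact b2_T_map hpolM hpolM _ _ _ Q₀
    rw [h2, h1, map_sub, h4, hQ₀]
  · intro γ hγ hγK
    have hγ' : ((ft F L' (g.map (algebraMap k F))).map (algebraMap L' Ω)).map (γ : Ω →+* Ω) =
        (ft F L' (g.map (algebraMap k F))).map (algebraMap L' Ω) := by
      rw [← hpol]
      exact hγ
    obtain ⟨m, hm, hA⟩ := hfix γ hγ' hγK
    refine ⟨m, hm, fun n => ?_⟩
    obtain ⟨A, hA1, hA2⟩ := hA n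
    refine ⟨S A, ?_, fun σ τ hστ => ?_⟩
    · apply hT0
      rw [map_nsmul, hS, hA1]
    · apply hinj
      have h1 := hA2 (b2_psi hs k' σ) (b2_psi hs k' τ) hστ
      have h2 : T (Superelliptic.jacMap ℓ (γ : Ω →+* Ω) hγ (S (c n (b2_psi hs k' σ)))) =
          jacMap ℓ (γ : Ω →+* Ω) hγ' (c n (b2_psi hs k' σ)) := by
        have h3 := b2_T_map (ℓ := ℓ) hpol hpol (γ : Ω →+* Ω) hγ hγ' (S (c n (b2_psi hs k' σ)))
        rw [← hT, hS] at h3
        exact h3
      rw [map_nsmul, map_sub, h2, hS, map_sub, hpush, hS]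
      exact h1

end Pool.Agent.Lib.MP_89bcae_ag.Brt

end
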