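import Mathlib
import Pool.Agent.Lib.MP_89bcae_ag.DefsSupTow7
import Pool.Agent.Lib.MP_89bcae_ag.Tk.K000
import Pool.Agent.Lib.MP_89bcae_ag.Tk.K015
import Pool.Agent.Lib.MP_89bcae_ag.Tk.K020

set_option linter.all false

section

attribute [local instance 100000] Pool.Agent.Lib.MP_89bcae_ag.Brt.tffFields
attribute [local instance 100000] Pool.Agent.Lib.MP_89bcae_ag.Wt.ifrNF Pool.Agent.Lib.MP_89bcae_ag.Wt.iddNF

namespace Pool.Agent.Lib.MP_89bcae_ag.Bra
end Pool.Agent.Lib.MP_89bcae_ag.Bra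
namespace Pool.Agent.Lib.MP_89bcae_ag.Sup
end Pool.Agent.Lib.MP_89bcae_ag.Sup
namespace Pool.Agent.Lib.MP_89bcae_ag.Wt
end Pool.Agent.Lib.MP_89bcae_ag.Wt
namespace Pool.Agent.Lib.MP_89bcae_ag.Wt.Lns
end Pool.Agent.Lib.MP_89bcae_ag.Wt.Lns
namespace Pool.Agent.Lib.MP_89bcae_ag.Wt.Lns.LocCtx
end Pool.Agent.Lib.MP_89bcae_ag.Wt.Lns.LocCtx

section

/-!
# Absence of Tate classes over the finite extensions of `F_q` for the reductions modulo `q`
-/

open Polynomial

namespace Pool.Agent.Lib.MP_89bcae_ag.Superelliptic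

/-- Let `κ` be the field with `q` elements, `q` a prime number. For every algebraic closure `F` of
`κ`, every field `L` of rational functions `F(t)`, every algebraic closure `Ω` of `L`, every finite
extension `κ'` of `κ` in `F`, every `r ≥ 0` and every `s` in `Ω` with `s ^ (ℓ ^ r) = E(t)`, there are
no Tate classes over `κ'(t, s)` for the curve `y ^ ℓ = g(x) - t`, where `g`, `E` in `ℤ[x]`, `ℤ[t]` are
reduced modulo `q`: see `NoTateClassOver`. -/
def NoTateTowerModPrime (ℓ q : ℕ) [Fact q.Prime] (g E : ℤ[X]) : Prop :=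
  ∀ (F L Ω : Type) [Field F] [Algebra (ZMod q) F] [IsAlgClosure (ZMod q) F] [Field L]
    [Algebra F[X] L] [IsFractionRing F[X] L] [Field Ω] [Algebra L Ω] [IsAlgClosure L Ω]
    (κ' : IntermediateField (ZMod q) F), FiniteDimensional (ZMod q) κ' →
    ∀ (r : ℕ) (s : Ω), s ^ ℓ ^ r = base (ZMod q) F L Ω (E.map (Int.castRingHom (ZMod q))) →
      NoTateClassOver ℓ (ZMod q) F L (g.map (Int.castRingHom (ZMod q))) 1 (cover κ' F L s)

end Pool.Agent.Lib.MP_89bcae_ag.Superelliptic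

end

section

/-!
ROW U01 (60-120 lines). `uval D θ = ∏_P (θ - x(P))^{D(P)}` (regularized): equivariance, examples.

PROOF. `Finsupp.prod_mapDomain_index` or reindexing the product over the support along the bijection
`Pt.sym σ` of the points: `(P.sym σ).x = σ P.x`, `σ (f'(θ)) = f'(σ θ)` since `σ` fixes the coefficients
of `f`, `P.x = θ ↔ (P.sym σ).x = σ θ`. For `ramDiv e` the support is in the set of the points
`(θ', 0)`, `θ'` root of `f` (`f.roots.toFinset`; the point `(θ, 0)` exists for each root).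
-/

open Polynomial

open scoped Classical

namespace Pool.Agent.Lib.MP_89bcae_ag.Wt

universe u

variable {N : ℕ} {E : Type u} [Field E] {f : E[X]} [hG : IsGood N f]


omit hG in
lemma U01_eval_sym (σ : Sym f) (p : E[X]) (hp : p.map ((σ : E ≃+* E) : E →+* E) = p) (θ : E) :
    p.eval ((σ : E ≃+* E) θ) = (σ : E ≃+* E) (p.eval θ) := by
  have h := Polynomial.eval₂_hom ((σ : E ≃+* E) : E →+* E) θ (p := p)
  rw [← Polynomial.eval_map, hp] at h
  exact h


omit hG in
lemma wt_sym (σ : Sym f) (θ : E) : wt f ((σ : E ≃+* E) θ) = wt f θ :=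
  wt_map ((σ : E ≃+* E) : E →+* E) σ.2 θ


lemma eval_sym_eq_zero (σ : Sym f) {θ : E} : f.eval ((σ : E ≃+* E) θ) = 0 ↔ f.eval θ = 0 := by
  rw [U01_eval_sym σ f σ.2]
  exact map_eq_zero_iff _ (σ : E ≃+* E).injective


end Pool.Agent.Lib.MP_89bcae_ag.Wt

end

section

/-!
# The ramified classes, with exponents normalized by the multiplicities
-/

open Polynomial

open scoped Classical

namespace Pool.Agent.Lib.MP_89bcae_ag.Wt

universe u

variable {N : ℕ} {E : Type u} [Field E] {f : E[X]}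

section

variable [hG : IsGood N f]

/-- The class of the ramified divisor with exponents `wt θ * n θ`. -/
noncomputable def rm (n : E → ℤ) : Jac N f := ram fun θ => wt f θ * n θ

lemma rm_congr (n n' : E → ℤ) (h : ∀ θ, f.eval θ = 0 → (N : ℤ) ∣ n θ - n' θ) :
    (rm n : Jac N f) = rm n' := by
  refine ram_congr _ _ fun θ hθ => ?_
  rw [← mul_sub]
  exact (h θ hθ).mul_left _

lemma rm_add (n n' : E → ℤ) : (rm fun θ => n θ + n' θ : Jac N f) = rm n + rm n' := by
  unfold rm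
  rw [← ram_add]
  congr 1
  funext θ
  ring

lemma rm_sub (n n' : E → ℤ) : (rm fun θ => n θ - n' θ : Jac N f) = rm n - rm n' := by
  unfold rm
  rw [← ram_sub]
  congr 1
  funext θ
  ring


lemma symJ_rm (σ : Sym f) (n : E → ℤ) :
    symJ σ (rm n : Jac N f) = rm fun θ => n (((σ⁻¹ : Sym f) : E ≃+* E) θ) := by
  unfold rm
  rw [symJ_ram]
  congr 1
  funext θ
  rw [wt_sym]

/-- Every ramified class is of this form. -/
lemma ram_eq_rm (e : E → ℤ) : (ram e : Jac N f) = rm fun θ => al N (wt f θ) * e θ := by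
  refine ram_congr _ _ fun θ hθ => ?_
  have h1 := al_wt (N := N) hθ
  have h2 : ((al N (wt f θ) : ℤ) * wt f θ) = be N (wt f θ) * N + 1 := by exact_mod_cast h1
  refine ⟨-(be N (wt f θ) * e θ), ?_⟩
  linear_combination (-e θ) * h2

lemma exists_rm_of_zJ_eq (ζ : E) (hζ : IsPrimitiveRoot ζ N) (Q : Jac N f)
    (hQ : zJ ζ hζ.pow_eq_one Q = Q) : ∃ n : E → ℤ, Q = rm n := by
  obtain ⟨e, he⟩ := exists_ram_of_zJ_eq ζ hζ Q hQ
  exact ⟨_, he.trans (ram_eq_rm e)⟩

lemma rm_eq_zero_iff (ζ : E) (hζ : IsPrimitiveRoot ζ N) (n : E → ℤ) :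
    (rm n : Jac N f) = 0 ↔ ∃ c : ℤ, ∀ θ, f.eval θ = 0 → (N : ℤ) ∣ n θ - c := by
  unfold rm
  rw [ram_eq_zero_iff ζ hζ]
  refine exists_congr fun c => forall₂_congr fun θ hθ => ?_
  have h1 : (wt f θ : ℤ) * n θ - c * wt f θ = wt f θ * (n θ - c) := by ring
  rw [h1]
  constructor
  · intro h
    have h2 : IsCoprime (N : ℤ) (wt f θ : ℤ) :=
      (Nat.isCoprime_iff_coprime.2 (hG.mult θ hθ)).symm
    exact h2.dvd_of_dvd_mul_left h
  · intro h
    exact h.mul_left _


end

/-- The multiplicities sum up to the degree. -/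
lemma sum_wt [IsAlgClosed E] (f : E[X]) : ∑ θ ∈ Sup.rts f, wt f θ = f.natDegree := by
  unfold Sup.rts wt
  rw [← IsAlgClosed.card_roots_eq_natDegree, ← Multiset.toFinset_sum_count_eq f.roots]
  exact Finset.sum_congr rfl fun θ _ => (count_roots f).symm

end Pool.Agent.Lib.MP_89bcae_ag.Wt

end

section

namespace Pool.Agent.Lib.MP_89bcae_ag.Wt.Lns.LocCtx
end Pool.Agent.Lib.MP_89bcae_ag.Wt.Lns.LocCtx


/-!
# The places of a general curve: definitions
-/

open Polynomial IsDedekindDomain IsLocalRing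

open scoped Classical

namespace Pool.Agent.Lib.MP_89bcae_ag.Brt

open Pool.Agent.Lib.MP_89bcae_ag.Sup (LocCtx plc exists_locCtx)

open Pool.Agent.Lib.MP_89bcae_ag.Wt Pool.Agent.Lib.MP_89bcae_ag.Wt.Lns Pool.Agent.Lib.MP_89bcae_ag.Bra

/-- An embedding of the local field `K` in the Laurent series over `κ`, which maps integral elements to power series. -/
structure IsEmbV (ℓ : ℕ) {F K κ E : Type} [Field F] [Field K] [Field κ] [Field E] [Algebra F κ]
    [Algebra F[X] K] [Algebra K E] (s : F) (v : AbsoluteValue E ℝ) (i : K →+* Hk ℓ κ) : Prop where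
  emb : IsEmb ℓ s i
  int : ∀ z : K, v (algebraMap K E z) ≤ 1 → ∀ n : ℤ, n < 0 →
    HahnSeries.coeff ((toH ℓ κ).symm (i z)) n = 0

/-- A nonarchimedean absolute value on `Tk κ`, trivial on `κ`, with `|π| < 1`, preserved by `Aut(Tk κ / Hk ℓ κ)`. -/
structure AbsT (ℓ : ℕ) [NeZero ℓ] (κ : Type) [Field κ] (w : AbsoluteValue (Tk κ) ℝ) : Prop where
  nonarch : ∀ x y, w (x + y) ≤ max (w x) (w y)
  inv : ∀ (g : Tk κ ≃ₐ[Hk ℓ κ] Tk κ) (z : Tk κ), w (g z) = w z
  const : ∀ c : κ, c ≠ 0 → w (algebraMap (Hk ℓ κ) (Tk κ) (cH ℓ c)) = 1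
  le_one : ∀ u : Hk ℓ κ, (∀ n : ℤ, n < 0 → HahnSeries.coeff ((toH ℓ κ).symm u) n = 0) →
    w (algebraMap (Hk ℓ κ) (Tk κ) u) ≤ 1
  pi : w (algebraMap (Hk ℓ κ) (Tk κ) (piH ℓ κ)) < 1

/-- The roots of `p` with residue `r`. -/
noncomputable def rtsOver {F E : Type} [Field E] (p : E[X]) (res : E → F) (r : F) : Finset E :=
  p.roots.toFinset.filter fun θ => res θ = r

section

variable {K E : Type} [Field K] [Field E] [Algebra K E] {ℓ : ℕ}

/-- The cocycle `b`, with divisor `d C`, is up to constants and coboundaries the cocycle `Fe (ε g h)`, where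
`ℓ ε = d e`. -/
structure RamData {f : K[X]} [IsGood ℓ (f.map (algebraMap K E))]
    (b : (E ≃ₐ[K] E) → (E ≃ₐ[K] E) → (FunField ℓ (f.map (algebraMap K E)))ˣ)
    (C : (E ≃ₐ[K] E) → (Pt ℓ (f.map (algebraMap K E)) →₀ ℤ))
    (e : (E ≃ₐ[K] E) → E → ℤ) (ε : (E ≃ₐ[K] E) → (E ≃ₐ[K] E) → E → ℤ)
    (Q : Jac ℓ (f.map (algebraMap K E)))
    (m : (E ≃ₐ[K] E) → (FunField ℓ (f.map (algebraMap K E)))ˣ)
    (a₀ : (E ≃ₐ[K] E) → (E ≃ₐ[K] E) → Eˣ) : Prop where
  cts_e : IsCts e
  cts_m : IsCts m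
  coc : IsCocycle a₀
  cl : ∀ g, cl (C g) = symJ (gs f g) Q - Q + rm (e g)
  sum : ∀ g, (ℓ : ℤ) ∣ ∑ θ ∈ (f.map (algebraMap K E)).roots.toFinset,
    (wt (f.map (algebraMap K E)) θ : ℤ) * e g θ
  eps : ∀ g h θ, (f.map (algebraMap K E)).eval θ = 0 →
    (ℓ : ℤ) * ε g h θ = e h (g⁻¹ θ) + e g θ - e (g * h) θ
  eq : ∀ g h, b g h * m (g * h) = Fe (f.map (algebraMap K E)) (ε g h) * cstU (a₀ g h) *
    (symU (gs f g) (m h) * m g)

/-- The cocycles `e` of `Aut(E/K)` with values in the functions modulo `ℓ` on the roots of `p` whose sums over the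
roots with a given residue are zero are coboundaries. -/
def ShaProp (ℓ : ℕ) (K : Type) {F E : Type} [Field K] [Field E] [Algebra K E] (p : E[X])
    (res : E → F) : Prop :=
  ∀ e : (E ≃ₐ[K] E) → E → ℤ, IsCts e →
    (∀ g h θ, p.eval θ = 0 → (ℓ : ℤ) ∣ e h (g⁻¹ θ) + e g θ - e (g * h) θ) →
    (∀ g r, (ℓ : ℤ) ∣ ∑ θ ∈ rtsOver p res r, e g θ) →
    ∃ q : E → ℤ, ∀ g θ, p.eval θ = 0 → (ℓ : ℤ) ∣ e g θ - (q (g⁻¹ θ) - q θ)

end

end Pool.Agent.Lib.MP_89bcae_ag.Brt

end

section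

namespace Pool.Agent.Lib.MP_89bcae_ag.Wt.Lns.LocCtx
end Pool.Agent.Lib.MP_89bcae_ag.Wt.Lns.LocCtx


/-!
# Expansion in power series
-/

open Polynomial IsDedekindDomain IsLocalRing

open scoped Classical

namespace Pool.Agent.Lib.MP_89bcae_ag.Brt

open Pool.Agent.Lib.MP_89bcae_ag.Sup (LocCtx plc exists_locCtx)

open Pool.Agent.Lib.MP_89bcae_ag.Wt Pool.Agent.Lib.MP_89bcae_ag.Wt.Lns Pool.Agent.Lib.MP_89bcae_ag.Bra

/-! ROW V3 -/

section V3

variable {F K : Type} [Field F] [Field K]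

/-- The abstract situation: `V` a nonarchimedean absolute value on `K`, trivial on `F`, discrete with
uniformiser `w`, residue field `F`. -/
private structure V3Ctx (a : F →+* K) (w : K) (V : AbsoluteValue K ℝ) : Prop where
  na : ∀ x y, V (x + y) ≤ max (V x) (V y)
  const : ∀ c : F, c ≠ 0 → V (a c) = 1
  w0 : 0 < V w
  w1 : V w < 1
  res : ∀ x, V x ≤ 1 → ∃ c : F, V (x - a c) < 1
  disc : ∀ x, x ≠ 0 → ∃ i : ℤ, V x = V w ^ i

variable {a : F →+* K} {w : K} {V : AbsoluteValue K ℝ}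

private lemma V3Ctx.const_le (h : V3Ctx a w V) (c : F) : V (a c) ≤ 1 := by
  by_cases hc : c = 0
  · rw [hc, map_zero, map_zero]
    exact zero_le_one
  · exact (h.const c hc).le

private lemma V3Ctx.ev_le (h : V3Ctx a w V) (P : F[X]) : V (P.eval₂ a w) ≤ 1 := by
  induction P using Polynomial.induction_on' with
  | add p q hp hq =>
    rw [eval₂_add]
    exact (h.na _ _).trans (max_le hp hq)
  | monomial n c =>
    rw [eval₂_monomial, map_mul, map_pow]
    exact mul_le_one₀ (h.const_le c) (pow_nonneg (apply_nonneg V w) n) (pow_le_one₀ h.w0.le h.w1.le)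

private lemma V3Ctx.sub_le (h : V3Ctx a w V) {x y : K} {r : ℝ} (hx : V x ≤ r) (hy : V y ≤ r) :
    V (x - y) ≤ r := by
  have h1 := h.na x (-y)
  rw [← sub_eq_add_neg, V.map_neg] at h1
  exact h1.trans (max_le hx hy)

private lemma V3Ctx.ev_dvd (h : V3Ctx a w V) (n : ℕ) : ∀ P : F[X], V (P.eval₂ a w) ≤ V w ^ n →
    (X : F[X]) ^ n ∣ P := by
  induction n with
  | zero =>
    intro P _
    rw [pow_zero]
    exact one_dvd P
  | succ n ih =>
    intro P hP
    have h0 : P.coeff 0 = 0 := by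
      by_contra hne
      have h1 : P = P.divX * X + C (P.coeff 0) := (divX_mul_X_add P).symm
      have h2 : P.eval₂ a w = P.divX.eval₂ a w * w + a (P.coeff 0) := by
        conv_lhs => rw [h1]
        rw [eval₂_add, eval₂_mul, eval₂_X, eval₂_C]
      have h3 : V (P.divX.eval₂ a w * w) < 1 := by
        rw [map_mul]
        calc V (P.divX.eval₂ a w) * V w ≤ 1 * V w :=
              mul_le_mul_of_nonneg_right (h.ev_le _) h.w0.le
          _ < 1 := by rw [one_mul]; exact h.w1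
      have h4 : V (P.eval₂ a w) < 1 := lt_of_le_of_lt hP (pow_lt_one₀ h.w0.le h.w1 (by omega))
      have h5 : V (a (P.coeff 0)) < 1 := by
        have h6 : a (P.coeff 0) = P.eval₂ a w + (-(P.divX.eval₂ a w * w)) := by
          rw [h2]
          ring
        rw [h6]
        refine lt_of_le_of_lt (h.na _ _) (max_lt h4 ?_)
        rw [V.map_neg]
        exact h3
      rw [h.const _ hne] at h5
      exact lt_irrefl _ h5
    obtain ⟨Q, rfl⟩ := X_dvd_iff.mpr h0
    rw [pow_succ']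
    apply mul_dvd_mul_left
    apply ih
    rw [eval₂_mul, eval₂_X, map_mul, pow_succ'] at hP
    exact le_of_mul_le_mul_left hP h.w0

private lemma V3Ctx.dvd_ev (h : V3Ctx a w V) (n : ℕ) (P : F[X]) (hP : (X : F[X]) ^ n ∣ P) :
    V (P.eval₂ a w) ≤ V w ^ n := by
  obtain ⟨Q, rfl⟩ := hP
  rw [eval₂_mul, eval₂_pow, eval₂_X, map_mul, map_pow]
  calc V w ^ n * V (Q.eval₂ a w) ≤ V w ^ n * 1 :=
        mul_le_mul_of_nonneg_left (h.ev_le Q) (pow_nonneg h.w0.le n)
    _ = V w ^ n := mul_one _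

/-- The power series `p` is the expansion of `z`. -/
private def V3Rel (a : F →+* K) (w : K) (V : AbsoluteValue K ℝ) (z : K) (p : PowerSeries F) : Prop :=
  ∀ n : ℕ, ∃ P : F[X], (PowerSeries.X : PowerSeries F) ^ n ∣ p - (P : PowerSeries F) ∧
    V (z - P.eval₂ a w) ≤ V w ^ n

private lemma V3Rel.unique (h : V3Ctx a w V) {z : K} {p q : PowerSeries F} (hp : V3Rel a w V z p)
    (hq : V3Rel a w V z q) : p = q := by
  ext n
  obtain ⟨P, hP1, hP2⟩ := hp (n + 1)
  obtain ⟨Q, hQ1, hQ2⟩ := hq (n + 1)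
  have h1 : V ((Q - P).eval₂ a w) ≤ V w ^ (n + 1) := by
    have h2 : (Q - P).eval₂ a w = (z - P.eval₂ a w) - (z - Q.eval₂ a w) := by
      rw [eval₂_sub]
      ring
    rw [h2]
    exact h.sub_le hP2 hQ2
  obtain ⟨R, hR⟩ := h.ev_dvd (n + 1) _ h1
  have h3 : (PowerSeries.X : PowerSeries F) ^ (n + 1) ∣ p - q := by
    have h4 : p - q = (p - (P : PowerSeries F)) - (q - (Q : PowerSeries F)) -
        ((Q - P : F[X]) : PowerSeries F) := by
      rw [Polynomial.coe_sub]
      ring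
    rw [h4]
    refine dvd_sub (dvd_sub hP1 hQ1) ?_
    rw [hR, Polynomial.coe_mul, Polynomial.coe_pow, Polynomial.coe_X]
    exact dvd_mul_right _ _
  rw [PowerSeries.X_pow_dvd_iff] at h3
  have h5 := h3 n (by omega)
  rw [map_sub] at h5
  exact sub_eq_zero.mp h5

private lemma V3Rel.add (h : V3Ctx a w V) {z z' : K} {p p' : PowerSeries F} (hp : V3Rel a w V z p)
    (hp' : V3Rel a w V z' p') : V3Rel a w V (z + z') (p + p') := by
  intro n
  obtain ⟨P, hP1, hP2⟩ := hp n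
  obtain ⟨Q, hQ1, hQ2⟩ := hp' n
  refine ⟨P + Q, ?_, ?_⟩
  · have h1 : p + p' - ((P + Q : F[X]) : PowerSeries F) =
        (p - (P : PowerSeries F)) + (p' - (Q : PowerSeries F)) := by
      rw [Polynomial.coe_add]
      ring
    rw [h1]
    exact dvd_add hP1 hQ1
  · have h1 : z + z' - (P + Q).eval₂ a w = (z - P.eval₂ a w) + (z' - Q.eval₂ a w) := by
      rw [eval₂_add]
      ring
    rw [h1]
    exact (h.na _ _).trans (max_le hP2 hQ2)

private lemma V3Rel.mul (h : V3Ctx a w V) {z z' : K} (hz : V z ≤ 1) {p p' : PowerSeries F}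
    (hp : V3Rel a w V z p) (hp' : V3Rel a w V z' p') : V3Rel a w V (z * z') (p * p') := by
  intro n
  obtain ⟨P, hP1, hP2⟩ := hp n
  obtain ⟨Q, hQ1, hQ2⟩ := hp' n
  refine ⟨P * Q, ?_, ?_⟩
  · have h1 : p * p' - ((P * Q : F[X]) : PowerSeries F) =
        p * (p' - (Q : PowerSeries F)) + (p - (P : PowerSeries F)) * (Q : PowerSeries F) := by
      rw [Polynomial.coe_mul]
      ring
    rw [h1]
    exact dvd_add (Dvd.dvd.mul_left hQ1 _) (Dvd.dvd.mul_right hP1 _)
  · have h1 : z * z' - (P * Q).eval₂ a w =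
        z * (z' - Q.eval₂ a w) + (z - P.eval₂ a w) * Q.eval₂ a w := by
      rw [eval₂_mul]
      ring
    rw [h1]
    refine (h.na _ _).trans (max_le ?_ ?_)
    · rw [map_mul]
      calc V z * V (z' - Q.eval₂ a w) ≤ 1 * V w ^ n :=
            mul_le_mul hz hQ2 (apply_nonneg V _) zero_le_one
        _ = V w ^ n := one_mul _
    · rw [map_mul]
      calc V (z - P.eval₂ a w) * V (Q.eval₂ a w) ≤ V w ^ n * 1 :=
            mul_le_mul hP2 (h.ev_le Q) (apply_nonneg V _) (pow_nonneg h.w0.le n)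
        _ = V w ^ n := mul_one _

private lemma V3Rel.poly (h : V3Ctx a w V) (P : F[X]) :
    V3Rel a w V (P.eval₂ a w) (P : PowerSeries F) := by
  intro n
  refine ⟨P, ?_, ?_⟩
  · rw [sub_self]
    exact dvd_zero _
  · rw [sub_self, map_zero]
    exact pow_nonneg h.w0.le n

private lemma V3Rel.exists_of_le (h : V3Ctx a w V) {z : K} (hz : V z ≤ 1) :
    ∃ p : PowerSeries F, V3Rel a w V z p := by
  have hstep : ∀ x : K, V x ≤ 1 → ∃ (c : F) (y : K), V y ≤ 1 ∧ x = a c + w * y := by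
    intro x hx
    obtain ⟨c, hc⟩ := h.res x hx
    have hw : w ≠ 0 := by
      intro h0
      have h1 := h.w0
      rw [h0, map_zero] at h1
      exact lt_irrefl _ h1
    refine ⟨c, (x - a c) / w, ?_, ?_⟩
    · by_cases h0 : x - a c = 0
      · rw [h0, zero_div, map_zero]
        exact zero_le_one
      · obtain ⟨i, hi⟩ := h.disc _ h0
        have hi1 : 1 ≤ i := by
          by_contra hlt
          have h2 : i ≤ 0 := by omega
          have h3 : V w ^ (0 : ℤ) ≤ V w ^ i := zpow_le_zpow_right_of_le_one₀ h.w0 h.w1.le h2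
          rw [zpow_zero, ← hi] at h3
          exact absurd hc (not_lt.mpr h3)
        rw [map_div₀, hi, div_le_one h.w0]
        calc V w ^ i ≤ V w ^ (1 : ℤ) := zpow_le_zpow_right_of_le_one₀ h.w0 h.w1.le hi1
          _ = V w := zpow_one _
    · field_simp
      ring
  choose c y hy hxy using hstep
  let Z : ℕ → {x : K // V x ≤ 1} := fun n => Nat.rec ⟨z, hz⟩ (fun _ x => ⟨y x.1 x.2, hy x.1 x.2⟩) n
  have hZ0 : (Z 0).1 = z := rfl
  have hZs : ∀ n, (Z n).1 = a (c (Z n).1 (Z n).2) + w * (Z (n + 1)).1 := fun n =>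
    hxy (Z n).1 (Z n).2
  let d : ℕ → F := fun n => c (Z n).1 (Z n).2
  let P : ℕ → F[X] := fun n => ∑ k ∈ Finset.range n, C (d k) * X ^ k
  have hP : ∀ n, z - (P n).eval₂ a w = w ^ n * (Z n).1 := by
    intro n
    induction n with
    | zero =>
      show z - (∑ k ∈ Finset.range 0, C (d k) * X ^ k : F[X]).eval₂ a w = w ^ 0 * (Z 0).1
      rw [Finset.sum_range_zero, eval₂_zero, hZ0]
      ring
    | succ n ih =>
      have h1 : P (n + 1) = P n + C (d n) * X ^ n := Finset.sum_range_succ _ _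
      rw [h1, eval₂_add, eval₂_mul, eval₂_C, eval₂_pow, eval₂_X]
      have h2 : z - (eval₂ a w (P n) + a (d n) * w ^ n) =
          (z - eval₂ a w (P n)) - a (d n) * w ^ n := by ring
      have h3 : (Z n).1 = a (d n) + w * (Z (n + 1)).1 := hZs n
      rw [h2, ih, h3]
      ring
  refine ⟨PowerSeries.mk d, fun n => ⟨P n, ?_, ?_⟩⟩
  · rw [PowerSeries.X_pow_dvd_iff]
    intro m hm
    have h1 : (P n).coeff m = d m := by
      show (∑ k ∈ Finset.range n, C (d k) * X ^ k : F[X]).coeff m = d m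
      rw [finsetSum_coeff]
      rw [Finset.sum_eq_single m]
      · rw [coeff_C_mul, coeff_X_pow, if_pos rfl, mul_one]
      · intro k _ hk
        rw [coeff_C_mul, coeff_X_pow, if_neg (Ne.symm hk), mul_zero]
      · intro hm2
        exact absurd (Finset.mem_range.mpr hm) hm2
    rw [map_sub, PowerSeries.coeff_mk, Polynomial.coeff_coe, h1, sub_self]
  · rw [hP n, map_mul, map_pow]
    calc V w ^ n * V (Z n).1 ≤ V w ^ n * 1 :=
          mul_le_mul_of_nonneg_left (Z n).2 (pow_nonneg h.w0.le n)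
      _ = V w ^ n := mul_one _

private lemma V3Rel.eq_zero (h : V3Ctx a w V) {z : K} (hz : V3Rel a w V z 0) : z = 0 := by
  by_contra h0
  obtain ⟨n, hn⟩ := exists_pow_lt_of_lt_one (V.pos h0) h.w1
  obtain ⟨P, hP1, hP2⟩ := hz n
  have h1 : (X : F[X]) ^ n ∣ P := by
    rw [X_pow_dvd_iff]
    rw [PowerSeries.X_pow_dvd_iff] at hP1
    intro m hm
    have h2 := hP1 m hm
    rw [zero_sub, map_neg, Polynomial.coeff_coe, neg_eq_zero] at h2
    exact h2
  have h2 := h.dvd_ev n P h1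
  have h3 : V z ≤ V w ^ n := by
    have h4 : z = (z - P.eval₂ a w) + P.eval₂ a w := by ring
    rw [h4]
    exact (h.na _ _).trans (max_le hP2 h2)
  exact absurd hn (not_lt.mpr h3)

/-- The ring of the integral elements. -/
private def v3O (h : V3Ctx a w V) : ValuationSubring K where
  carrier := {z | V z ≤ 1}
  mul_mem' := by
    intro x y hx hy
    show V (x * y) ≤ 1
    rw [map_mul]
    exact mul_le_one₀ hx (apply_nonneg V y) hy
  one_mem' := by
    show V 1 ≤ 1
    rw [map_one]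
  add_mem' := by
    intro x y hx hy
    exact (h.na x y).trans (max_le hx hy)
  zero_mem' := by
    show V 0 ≤ 1
    rw [map_zero]
    exact zero_le_one
  neg_mem' := by
    intro x hx
    show V (-x) ≤ 1
    rw [V.map_neg]
    exact hx
  mem_or_inv_mem' := by
    intro x
    rcases le_total (V x) 1 with h1 | h1
    · exact Or.inl h1
    · right
      show V x⁻¹ ≤ 1
      rw [map_inv₀]
      exact inv_le_one_of_one_le₀ h1

private lemma v3_mem (h : V3Ctx a w V) {z : K} : z ∈ v3O h ↔ V z ≤ 1 := Iff.rfl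

private lemma exists_v3 (h : V3Ctx a w V) : ∃ j : K →+* LaurentSeries F,
    (∀ P : F[X], j (P.eval₂ a w) = algebraMap (PowerSeries F) (LaurentSeries F) (P : PowerSeries F)) ∧
    ∀ z, V z ≤ 1 → ∃ p : PowerSeries F, j z = algebraMap (PowerSeries F) (LaurentSeries F) p := by
  have hex : ∀ z : v3O h, ∃ p : PowerSeries F, V3Rel a w V z.1 p := fun z =>
    V3Rel.exists_of_le h ((v3_mem h).mp z.2)
  choose p hp using hex
  let φ : v3O h →+* PowerSeries F :=
    { toFun := p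
      map_one' := by
        have h1 := V3Rel.poly h (1 : F[X])
        rw [eval₂_one, Polynomial.coe_one] at h1
        exact V3Rel.unique h (hp 1) h1
      map_mul' := fun x y => V3Rel.unique h (hp (x * y))
        (V3Rel.mul h ((v3_mem h).mp x.2) (hp x) (hp y))
      map_zero' := by
        have h1 := V3Rel.poly h (0 : F[X])
        rw [eval₂_zero, Polynomial.coe_zero] at h1
        exact V3Rel.unique h (hp 0) h1
      map_add' := fun x y => V3Rel.unique h (hp (x + y)) (V3Rel.add h (hp x) (hp y)) }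
  have hφ : Function.Injective φ := by
    rw [injective_iff_map_eq_zero]
    intro x hx
    have h1 : p x = 0 := hx
    have h2 := hp x
    rw [h1] at h2
    exact Subtype.ext (V3Rel.eq_zero h h2)
  have hinj : Function.Injective ((algebraMap (PowerSeries F) (LaurentSeries F)).comp φ) :=
    (IsFractionRing.injective (PowerSeries F) (LaurentSeries F)).comp hφ
  let j : K →+* LaurentSeries F := IsFractionRing.lift hinj
  have hj : ∀ z : v3O h, j z.1 = algebraMap (PowerSeries F) (LaurentSeries F) (p z) := fun z =>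
    IsFractionRing.lift_algebraMap hinj z
  refine ⟨j, ?_, ?_⟩
  · intro P
    have h1 : p ⟨P.eval₂ a w, (v3_mem h).mpr (h.ev_le P)⟩ = (P : PowerSeries F) :=
      V3Rel.unique h (hp _) (V3Rel.poly h P)
    rw [← h1]
    exact hj ⟨P.eval₂ a w, (v3_mem h).mpr (h.ev_le P)⟩
  · intro z hz
    exact ⟨p ⟨z, (v3_mem h).mpr hz⟩, hj ⟨z, (v3_mem h).mpr hz⟩⟩

end V3

/-- Expansion of the elements of the local field `K` in powers of `ϖ = t - s` (`t` is the image of `X`). -/
theorem exists_isEmbV {F K E : Type} [Field F] [Field K] [Field E] [Algebra F[X] K] [Algebra K E]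
    [Algebra F E] {s : F} {v : AbsoluteValue E ℝ} (ℓ : ℕ) (hL : LocF F K s v) (κ : Type) [Field κ]
    [Algebra F κ] : ∃ i : K →+* Hk ℓ κ, IsEmbV ℓ s v i := by
  let a : F →+* K := (algebraMap F[X] K).comp C
  let w : K := algebraMap F[X] K (X - C s)
  let V : AbsoluteValue K ℝ := v.comp (algebraMap K E).injective
  have hV : ∀ z, V z = v (algebraMap K E z) := fun _ => rfl
  have hw : V w = v (algebraMap K E (algebraMap F[X] K X) - algebraMap F E s) := by
    rw [hV, hL.compat, ← map_sub, ← map_sub]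
  have hw0 : 0 < V w := by
    rw [hw]
    exact v.pos (sub_ne_zero.mpr hL.ctx.ne)
  have hctx : V3Ctx a w V := by
    refine ⟨?_, ?_, hw0, ?_, ?_, ?_⟩
    · intro x y
      rw [hV, hV, hV, map_add]
      exact hL.ctx.nonarch _ _
    · intro c hc
      have h1 := hL.ctx.const c hc
      rw [hL.compat] at h1
      exact h1
    · rw [hw]
      exact hL.ctx.lt_one
    · intro x hx
      obtain ⟨c, hc⟩ := hL.ctx.residue (algebraMap K E x) hx
      refine ⟨c, ?_⟩
      rw [hL.compat, ← map_sub] at hc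
      exact hc
    · intro x hx
      obtain ⟨i, hi⟩ := hL.disc x hx
      refine ⟨i, ?_⟩
      rw [hw]
      exact hi
  obtain ⟨j, hj1, hj2⟩ := exists_v3 hctx
  refine ⟨((toH ℓ κ : LaurentSeries κ →+* Hk ℓ κ).comp (mapL8 κ)).comp j, ⟨?_, ?_, ?_⟩, ?_⟩
  · intro c
    have h0 : algebraMap F[X] K (C c) = (C c : F[X]).eval₂ a w := by
      rw [eval₂_C]
      rfl
    rw [RingHom.comp_apply, RingHom.comp_apply, h0, hj1, Polynomial.coe_C]
    have h1 : mapL8 κ (algebraMap (PowerSeries F) (LaurentSeries F) (PowerSeries.C c)) =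
        HahnSeries.C (algebraMap F κ c) := by
      have h2 : algebraMap (PowerSeries F) (LaurentSeries F) (PowerSeries.C c) =
        HahnSeries.C c := PowerSeries.coe_C c
      rw [h2]
      exact HahnSeries.map_C c (algebraMap F κ)
    rw [h1]
    rfl
  · have h0 : algebraMap F[X] K (X - C s) = (X : F[X]).eval₂ a w := by
      rw [eval₂_X]
    rw [RingHom.comp_apply, RingHom.comp_apply, h0, hj1, Polynomial.coe_X]
    have h2 : algebraMap (PowerSeries F) (LaurentSeries F) PowerSeries.X =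
        HahnSeries.single (1 : ℤ) (1 : F) := PowerSeries.coe_X
    have h3 : mapL8 κ (HahnSeries.single (1 : ℤ) (1 : F)) = HahnSeries.single (1 : ℤ) (1 : κ) := by
      ext n
      rw [mapL8_coeff]
      by_cases hn : n = 1
      · rw [hn, HahnSeries.coeff_single_same, HahnSeries.coeff_single_same, map_one]
      · rw [HahnSeries.coeff_single_of_ne hn, HahnSeries.coeff_single_of_ne hn, map_zero]
    rw [h2, h3]
    rfl
  · intro z n
    exact ⟨(j z).coeff n, rfl⟩
  · intro z hz n hn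
    obtain ⟨p, hp⟩ := hj2 z hz
    show algebraMap F κ ((j z).coeff n) = 0
    rw [hp]
    have h1 : (algebraMap (PowerSeries F) (LaurentSeries F) p).coeff n = 0 := by
      have h2 : algebraMap (PowerSeries F) (LaurentSeries F) p = (p : LaurentSeries F) := rfl
      rw [h2, PowerSeries.coeff_coe, if_pos hn]
    rw [h1, map_zero]

end Pool.Agent.Lib.MP_89bcae_ag.Brt

end

section

namespace Pool.Agent.Lib.MP_89bcae_ag.Wt.Lns.LocCtx
end Pool.Agent.Lib.MP_89bcae_ag.Wt.Lns.LocCtx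


/-!
# Small elements
-/

open Polynomial IsDedekindDomain IsLocalRing

open scoped Classical

namespace Pool.Agent.Lib.MP_89bcae_ag.Brt

open Pool.Agent.Lib.MP_89bcae_ag.Sup (LocCtx plc exists_locCtx)

open Pool.Agent.Lib.MP_89bcae_ag.Wt Pool.Agent.Lib.MP_89bcae_ag.Wt.Lns Pool.Agent.Lib.MP_89bcae_ag.Bra

/-! ROW V5 -/

section

variable {F K E κ : Type} [Field F] [Field K] [Field E] [Field κ] [Algebra F[X] K] [Algebra K E]
  [Algebra F E] [Algebra F κ] [IsAlgClosure K E] {s : F} {v : AbsoluteValue E ℝ} {ℓ : ℕ} [NeZero ℓ]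
  {w : AbsoluteValue (Tk κ) ℝ} {i : K →+* Hk ℓ κ}

omit [NeZero ℓ] in
private lemma V5_sum {L : Type} [Field L] {u : AbsoluteValue L ℝ}
    (hna : ∀ x y, u (x + y) ≤ max (u x) (u y)) {B : ℝ} (hB : 0 < B) {ι : Type} (S : Finset ι)
    (f : ι → L) (h : ∀ j ∈ S, u (f j) < B) : u (∑ j ∈ S, f j) < B := by
  induction S using Finset.induction_on with
  | empty => rw [Finset.sum_empty, map_zero]; exact hB
  | insert a S ha ih =>
    rw [Finset.sum_insert ha]
    refine lt_of_le_of_lt (hna _ _) (max_lt (h a (Finset.mem_insert_self a S)) ?_)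
    exact ih fun j hj => h j (Finset.mem_insert_of_mem hj)

omit [NeZero ℓ] in
private lemma V5_coeff {L : Type} [Field L] {u : AbsoluteValue L ℝ}
    (hna : ∀ x y, u (x + y) ≤ max (u x) (u y)) (S : Multiset L) (h : ∀ a ∈ S, u a < 1) :
    (∀ j, j < Multiset.card S → u ((S.map fun a => X - C a).prod.coeff j) < 1) ∧
      ∀ j, u ((S.map fun a => X - C a).prod.coeff j) ≤ 1 := by
  induction S using Multiset.induction_on with
  | empty =>
    refine ⟨fun j hj => absurd hj (by rw [Multiset.card_zero]; exact Nat.not_lt_zero _), fun j => ?_⟩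
    rw [Multiset.map_zero, Multiset.prod_zero, coeff_one]
    split_ifs
    · rw [map_one]
    · rw [map_zero]; exact zero_le_one
  | cons a S ih =>
    obtain ⟨ih1, ih2⟩ := ih fun b hb => h b (Multiset.mem_cons_of_mem hb)
    have ha : u a < 1 := h a (Multiset.mem_cons_self a S)
    rw [Multiset.map_cons, Multiset.prod_cons, Multiset.card_cons]
    set P := (S.map fun a => X - C a).prod with hP
    have h1 : ∀ j, u (a * P.coeff j) < 1 := by
      intro j
      rw [map_mul]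
      calc u a * u (P.coeff j) ≤ u a * 1 := mul_le_mul_of_nonneg_left (ih2 j) (u.nonneg a)
        _ < 1 := by rw [mul_one]; exact ha
    have hc0 : ((X - C a) * P).coeff 0 = -(a * P.coeff 0) := by
      rw [sub_mul, coeff_sub, coeff_X_mul_zero, coeff_C_mul, zero_sub]
    have hcs : ∀ j, ((X - C a) * P).coeff (j + 1) = P.coeff j + -(a * P.coeff (j + 1)) := by
      intro j
      rw [sub_mul, coeff_sub, coeff_X_mul, coeff_C_mul, sub_eq_add_neg]
    refine ⟨fun j hj => ?_, fun j => ?_⟩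
    · cases j with
      | zero => rw [hc0, AbsoluteValue.map_neg]; exact h1 0
      | succ j =>
        rw [hcs]
        refine lt_of_le_of_lt (hna _ _) (max_lt (ih1 j (by omega)) ?_)
        rw [AbsoluteValue.map_neg]
        exact h1 _
    · cases j with
      | zero => rw [hc0, AbsoluteValue.map_neg]; exact (h1 0).le
      | succ j =>
        rw [hcs]
        refine (hna _ _).trans (max_le (ih2 j) ?_)
        rw [AbsoluteValue.map_neg]
        exact (h1 _).le

omit [IsAlgClosure K E] in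
/-- elements of the maximal ideal of `K` -/
private lemma V5_K (hL : LocF F K s v) (hi : IsEmbV ℓ s v i) (hw : AbsT ℓ κ w) (a : K)
    (ha : v (algebraMap K E a) < 1) : w (algebraMap (Hk ℓ κ) (Tk κ) (i a)) < 1 := by
  by_cases h0 : a = 0
  · rw [h0, map_zero, map_zero, map_zero]; exact zero_lt_one
  obtain ⟨n, hn⟩ := hL.disc a h0
  set t : E := algebraMap K E (algebraMap F[X] K X) - algebraMap F E s with ht
  have hϖ : algebraMap K E (algebraMap F[X] K (X - C s)) = t := by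
    rw [map_sub, map_sub, ht, hL.compat]
  have hϖ0 : t ≠ 0 := sub_ne_zero.mpr hL.ctx.ne
  have hq0 : 0 < v t := v.pos hϖ0
  have hq1 : v t < 1 := hL.ctx.lt_one
  have hn1 : 1 ≤ n := by
    by_contra hcon
    have h1 : n ≤ 0 := by omega
    have h2 : 1 ≤ v t ^ n := one_le_zpow_of_nonpos₀ hq0 hq1.le h1
    rw [hn] at ha
    exact absurd ha (not_lt.mpr h2)
  set p : K := algebraMap F[X] K (X - C s) with hp
  have hp0 : p ≠ 0 := by
    intro h
    rw [h, map_zero] at hϖ
    exact hϖ0 hϖ.symm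
  have hu : v (algebraMap K E (a / p ^ n)) ≤ 1 := by
    rw [map_div₀, map_zpow₀, hϖ, map_div₀, map_zpow₀, hn, div_self (zpow_ne_zero _ hq0.ne')]
  have h3 := hw.le_one _ (hi.int _ hu)
  have hip : i p = piH ℓ κ := hi.emb.t
  have h4 : i a = i (a / p ^ n) * piH ℓ κ ^ n := by
    rw [← hip, ← map_zpow₀ i p n, ← map_mul, div_mul_cancel₀ _ (zpow_ne_zero _ hp0)]
  rw [h4, map_mul, map_mul, map_zpow₀, map_zpow₀]
  have hpi0 : 0 < w (algebraMap (Hk ℓ κ) (Tk κ) (piH ℓ κ)) := by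
    refine w.pos ?_
    rw [← hip]
    exact (_root_.map_ne_zero _).mpr ((_root_.map_ne_zero _).mpr hp0)
  have h5 : w (algebraMap (Hk ℓ κ) (Tk κ) (piH ℓ κ)) ^ n < 1 :=
    by
    obtain ⟨m, rfl⟩ := Int.eq_ofNat_of_zero_le (show 0 ≤ n by omega)
    rw [zpow_natCast]
    exact pow_lt_one₀ hpi0.le hw.pi (by omega)
  have h6 : 0 < w (algebraMap (Hk ℓ κ) (Tk κ) (piH ℓ κ)) ^ n := zpow_pos hpi0 n
  calc w (algebraMap (Hk ℓ κ) (Tk κ) (i (a / p ^ n))) * w (algebraMap (Hk ℓ κ) (Tk κ) (piH ℓ κ)) ^ n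
      ≤ 1 * w (algebraMap (Hk ℓ κ) (Tk κ) (piH ℓ κ)) ^ n := mul_le_mul_of_nonneg_right h3 h6.le
    _ < 1 := by rw [one_mul]; exact h5

/-- PROOF. Let `P = minpoly K z`, monic; its roots in `E` (it splits) are conjugates `σ z`, `σ : E ≃ₐ[K] E` (`E` is normal over
`K`), so `v` of the roots is `< 1` (`hL.inv`) and the coefficients `a_j`, `j < deg P`, satisfy `v (a_j) < 1` (induction on the
multiset of the roots, `hL.ctx.nonarch`). For `a` in `K` with `v a < 1`, `w (i a) < 1` (in `Tk κ`): `a = 0` or `v a = (v ϖ) ^ k`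
(`hL.disc`, `ϖ = t - s`), `k ≥ 1` as `v ϖ < 1`, `u = a / ϖ ^ k` has `v u = 1`, so `w (i u) ≤ 1` (`hi.int`, `hw.le_one`) and
`w (i a) = w π ^ k w (i u) < 1` (`hi.emb.t`, `hw.pi`). Now `(jE z) ^ n = - ∑ j < n, i (a_j) (jE z) ^ j` and `w (jE z) ≥ 1` would give
`w (jE z) ^ n ≤ max_j w (i a_j) w (jE z) ^ j < w (jE z) ^ n`. -/
theorem absT_lt (hL : LocF F K s v) (hi : IsEmbV ℓ s v i) (hw : AbsT ℓ κ w) (jE : E →+* Tk κ)
    (hj : ∀ z : K, jE (algebraMap K E z) = algebraMap (Hk ℓ κ) (Tk κ) (i z)) (z : E)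
    (hz : v z < 1) : w (jE z) < 1 := by
  have hac : IsAlgClosed E := IsAlgClosure.isAlgClosed K
  have hal : Algebra.IsAlgebraic K E := IsAlgClosure.isAlgebraic
  have hnorm : Normal K E := IsAlgClosure.normal K E
  have hint : IsIntegral K z := (hal.isAlgebraic z).isIntegral
  have hmon : (minpoly K z).Monic := minpoly.monic hint
  set P := minpoly K z with hP
  have hsplit : (P.map (algebraMap K E)).Splits := IsAlgClosed.splits _
  have hprod : P.map (algebraMap K E) = ((P.map (algebraMap K E)).roots.map fun a => X - C a).prod :=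
    hsplit.eq_prod_roots_of_monic (hmon.map _)
  have hcard : Multiset.card (P.map (algebraMap K E)).roots = P.natDegree := by
    rw [← hsplit.natDegree_eq_card_roots, natDegree_map]
  have hroots : ∀ a ∈ (P.map (algebraMap K E)).roots, v a < 1 := by
    intro a ha
    rw [mem_roots (hmon.map _).ne_zero, IsRoot.def, eval_map_algebraMap] at ha
    obtain ⟨σ, hσ⟩ := minpoly.exists_algEquiv_of_root' (hal.isAlgebraic z) ha
    rw [← hσ, hL.inv]
    exact hz
  have hcoef : ∀ j, j < P.natDegree → v (algebraMap K E (P.coeff j)) < 1 := by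
    intro j hjn
    have h1 := (V5_coeff hL.ctx.nonarch _ hroots).1 j (by rw [hcard]; exact hjn)
    rw [← hprod, coeff_map] at h1
    exact h1
  have hw1 : ∀ j, j < P.natDegree → w (algebraMap (Hk ℓ κ) (Tk κ) (i (P.coeff j))) < 1 :=
    fun j hjn => V5_K hL hi hw _ (hcoef j hjn)
  by_contra hcon
  push Not at hcon
  have hev : aeval z P = 0 := minpoly.aeval K z
  rw [aeval_eq_sum_range, Finset.sum_range_succ, hmon.coeff_natDegree, one_smul] at hev
  have h2 : z ^ P.natDegree = -∑ j ∈ Finset.range P.natDegree, P.coeff j • z ^ j := by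
    rw [eq_neg_iff_add_eq_zero, add_comm]
    exact hev
  have h3 : jE z ^ P.natDegree = -∑ j ∈ Finset.range P.natDegree,
      algebraMap (Hk ℓ κ) (Tk κ) (i (P.coeff j)) * jE z ^ j := by
    rw [← map_pow, h2, map_neg, map_sum]
    congr 1
    refine Finset.sum_congr rfl fun j _ => ?_
    rw [Algebra.smul_def, map_mul, map_pow, hj]
  have hpos : 0 < w (jE z) ^ P.natDegree := pow_pos (lt_of_lt_of_le one_pos hcon) _
  have h4 : w (jE z) ^ P.natDegree < w (jE z) ^ P.natDegree := by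
    have h5 : w (jE z ^ P.natDegree) < w (jE z) ^ P.natDegree := by
      rw [h3, AbsoluteValue.map_neg]
      refine V5_sum hw.nonarch hpos _ _ fun j hjn => ?_
      rw [Finset.mem_range] at hjn
      rw [map_mul, map_pow]
      have h6 : w (jE z) ^ j ≤ w (jE z) ^ P.natDegree := pow_le_pow_right₀ hcon hjn.le
      have h7 : 0 < w (jE z) ^ j := pow_pos (lt_of_lt_of_le one_pos hcon) _
      calc w (algebraMap (Hk ℓ κ) (Tk κ) (i (P.coeff j))) * w (jE z) ^ j
          < 1 * w (jE z) ^ j := mul_lt_mul_of_pos_right (hw1 j hjn) h7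
        _ ≤ w (jE z) ^ P.natDegree := by rw [one_mul]; exact h6
    rwa [map_pow] at h5
  exact lt_irrefl _ h4

end

section

variable {F K E κ : Type} [Field F] [Field K] [Field E] [Field κ] [Algebra F[X] K] [Algebra K E]
  [Algebra F E] [Algebra F κ] [IsAlgClosure K E] {s : F} {v : AbsoluteValue E ℝ} {ℓ : ℕ} [NeZero ℓ]
  {w : AbsoluteValue (Tk κ) ℝ} {i : K →+* Hk ℓ κ}

theorem absT_const (hL : LocF F K s v) (hi : IsEmbV ℓ s v i) (jE : E →+* Tk κ)
    (hj : ∀ z : K, jE (algebraMap K E z) = algebraMap (Hk ℓ κ) (Tk κ) (i z)) (c : F) :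
    jE (algebraMap F E c) = algebraMap (Hk ℓ κ) (Tk κ) (cH ℓ (algebraMap F κ c)) := by
  rw [hL.compat, hj, hi.emb.const]

end

end Pool.Agent.Lib.MP_89bcae_ag.Brt

end

section

namespace Pool.Agent.Lib.MP_89bcae_ag.Wt.Lns.LocCtx
end Pool.Agent.Lib.MP_89bcae_ag.Wt.Lns.LocCtx


/-!
# Roots near one
-/

open Polynomial IsDedekindDomain IsLocalRing

open scoped Classical

namespace Pool.Agent.Lib.MP_89bcae_ag.Brt

open Pool.Agent.Lib.MP_89bcae_ag.Sup (LocCtx plc exists_locCtx)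

open Pool.Agent.Lib.MP_89bcae_ag.Wt Pool.Agent.Lib.MP_89bcae_ag.Wt.Lns Pool.Agent.Lib.MP_89bcae_ag.Bra

/-! ROW V6 -/

/-- The `ℓ`-th roots of the elements near `1`. PROOF. `Tk κ` is algebraically closed: let `ρ ^ ℓ = z`, `w (z - 1) < 1`. Then
`∏ i < ℓ, (ρ - ζ ^ i) = z - 1` (`X ^ ℓ - 1 = ∏ (X - ζ ^ i)`, `ζ` as a constant of `Tk κ`), so `w (ρ - ζ ^ i) < 1` for some `i`, and
`ρ' = ζ ^ (-i) ρ` satisfies `w (ρ' - 1) < 1` (`w (ζ ^ i) = 1`, `hw.const`). Uniqueness: if `ρ`, `ρ'` are two such roots then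
`ρ' = ζ ^ i ρ`, `w (ρ) = 1`, `w (ζ ^ i - 1) < 1`, so `ζ ^ i = 1` (`hw.const (ζ ^ i - 1)`). So `R` is well defined (choose), and
`g (R z)` is the root of `g z` near `1` by `hw.inv`. -/
theorem exists_root_one {ℓ : ℕ} [NeZero ℓ] {κ : Type} [Field κ] {w : AbsoluteValue (Tk κ) ℝ}
    (hw : AbsT ℓ κ w) (hℓ : ℓ.Prime) {ζ : κ} (hζ : IsPrimitiveRoot ζ ℓ) : ∃ R : Tk κ → Tk κ,
      (∀ z, w (z - 1) < 1 → R z ^ ℓ = z ∧ w (R z - 1) < 1) ∧
      ∀ (g : Tk κ ≃ₐ[Hk ℓ κ] Tk κ) (z : Tk κ), w (z - 1) < 1 → g (R z) = R (g z) := by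
  have hℓ0 : 0 < ℓ := hℓ.pos
  have hℓ1 : ℓ ≠ 0 := hℓ0.ne'
  let φ : κ →+* Tk κ := (algebraMap (Hk ℓ κ) (Tk κ)).comp (cH ℓ)
  have hφ : IsPrimitiveRoot (φ ζ) ℓ := hζ.map_of_injective φ.injective
  have hcst : ∀ c : κ, c ≠ 0 → w (φ c) = 1 := fun c hc => hw.const c hc
  -- elements near one have absolute value one
  have hone : ∀ ρ : Tk κ, w (ρ - 1) < 1 → w ρ = 1 := by
    intro ρ hρ
    apply le_antisymm
    · have h1 := hw.nonarch (ρ - 1) 1
      rw [sub_add_cancel, w.map_one] at h1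
      exact h1.trans (max_le hρ.le le_rfl)
    · have h1 := hw.nonarch ρ (1 - ρ)
      rw [add_sub_cancel, w.map_one, w.map_sub 1 ρ] at h1
      rcases le_max_iff.1 h1 with h2 | h2
      · exact h2
      · exact absurd h2 (not_le.2 hρ)
  -- existence
  have hex : ∀ z : Tk κ, w (z - 1) < 1 → ∃ ρ : Tk κ, ρ ^ ℓ = z ∧ w (ρ - 1) < 1 := by
    intro z hz
    obtain ⟨ρ, hρ⟩ := IsAlgClosed.exists_pow_nat_eq z hℓ0
    have h1 := hφ.pow_sub_pow_eq_prod_sub_mul ρ 1 hℓ0
    rw [hρ, one_pow] at h1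
    have h2 : ∃ η ∈ nthRootsFinset ℓ (1 : Tk κ), w (ρ - η * 1) < 1 := by
      by_contra hcon
      push Not at hcon
      have h3 : 1 ≤ w (∏ η ∈ nthRootsFinset ℓ (1 : Tk κ), (ρ - η * 1)) := by
        rw [map_prod]
        exact Finset.prod_induction (fun η => w (ρ - η * 1)) (fun x => 1 ≤ x)
          (fun a b ha hb => one_le_mul_of_one_le_of_one_le ha hb) le_rfl hcon
      rw [← h1] at h3
      exact absurd hz (not_lt.2 h3)
    obtain ⟨η, hη, hlt⟩ := h2
    rw [mul_one] at hlt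
    have hη1 : η ^ ℓ = 1 := (mem_nthRootsFinset hℓ0 1).1 hη
    have hη0 : η ≠ 0 := by
      rintro rfl
      rw [zero_pow hℓ1] at hη1
      exact zero_ne_one hη1
    have hwη : w η = 1 := by
      have h4 : w η ^ ℓ = 1 := by rw [← map_pow, hη1, w.map_one]
      exact (pow_eq_one_iff_of_nonneg (w.nonneg η) hℓ1).1 h4
    refine ⟨η⁻¹ * ρ, ?_, ?_⟩
    · rw [mul_pow, inv_pow, hη1, inv_one, one_mul, hρ]
    · have h5 : η⁻¹ * ρ - 1 = η⁻¹ * (ρ - η) := by
        rw [mul_sub, inv_mul_cancel₀ hη0]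
      rw [h5, w.map_mul, map_inv₀, hwη, inv_one, one_mul]
      exact hlt
  -- uniqueness
  have huniq : ∀ ρ ρ' : Tk κ, ρ ^ ℓ = ρ' ^ ℓ → w (ρ - 1) < 1 → w (ρ' - 1) < 1 → ρ = ρ' := by
    intro ρ ρ' h hρ hρ'
    have hρ1 := hone ρ hρ
    have hρ0 : ρ ≠ 0 := by
      rintro rfl
      rw [w.map_zero] at hρ1
      exact zero_ne_one hρ1
    have h1 : (ρ' / ρ) ^ ℓ = 1 := by
      rw [div_pow, h, div_self]
      rw [← h]
      exact pow_ne_zero _ hρ0
    obtain ⟨i, -, hi⟩ := hφ.eq_pow_of_pow_eq_one h1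
    have h2 : w (φ (ζ ^ i - 1)) < 1 := by
      rw [map_sub, map_pow, map_one, hi]
      have h3 : ρ' / ρ - 1 = (ρ' - ρ) / ρ := by
        rw [sub_div, div_self hρ0]
      rw [h3, map_div₀, hρ1, div_one]
      have h4 : ρ' - ρ = (ρ' - 1) + (1 - ρ) := by ring
      rw [h4]
      refine lt_of_le_of_lt (hw.nonarch _ _) (max_lt hρ' ?_)
      rw [w.map_sub 1 ρ]
      exact hρ
    have h5 : ζ ^ i - 1 = 0 := by
      by_contra h6
      rw [hcst _ h6] at h2
      exact lt_irrefl _ h2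
    have h7 : ρ' / ρ = 1 := by
      rw [← hi, ← map_pow, sub_eq_zero.1 h5, map_one]
    exact ((div_eq_one_iff_eq hρ0).1 h7).symm
  refine ⟨fun z => if h : w (z - 1) < 1 then (hex z h).choose else 0, ?_, ?_⟩
  · intro z hz
    simp only [dif_pos hz]
    exact (hex z hz).choose_spec
  · intro g z hz
    have hgz : w (g z - 1) < 1 := by
      have h1 : g z - 1 = g (z - 1) := by rw [map_sub, map_one]
      rw [h1, hw.inv]
      exact hz
    simp only [dif_pos hz, dif_pos hgz]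
    obtain ⟨h1, h2⟩ := (hex z hz).choose_spec
    obtain ⟨h3, h4⟩ := (hex (g z) hgz).choose_spec
    apply huniq _ _ _ _ h4
    · rw [h3, ← map_pow, h1]
    · have h5 : g ((hex z hz).choose) - 1 = g ((hex z hz).choose - 1) := by rw [map_sub, map_one]
      rw [h5, hw.inv]
      exact h2

end Pool.Agent.Lib.MP_89bcae_ag.Brt

end

section

namespace Pool.Agent.Lib.MP_89bcae_ag.Wt.Lns.LocCtx
end Pool.Agent.Lib.MP_89bcae_ag.Wt.Lns.LocCtx


/-!
# Normalised representatives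
-/

open Polynomial IsDedekindDomain IsLocalRing

open scoped Classical

namespace Pool.Agent.Lib.MP_89bcae_ag.Brt

open Pool.Agent.Lib.MP_89bcae_ag.Sup (LocCtx plc exists_locCtx)

open Pool.Agent.Lib.MP_89bcae_ag.Wt Pool.Agent.Lib.MP_89bcae_ag.Wt.Lns Pool.Agent.Lib.MP_89bcae_ag.Bra

section

variable {E : Type} [Field E] {ℓ : ℕ} {p : E[X]}

private lemma V7a_sum_wt [IsAlgClosed E] :
    ∑ θ ∈ p.roots.toFinset, (wt p θ : ℤ) = (p.natDegree : ℤ) := by
  have h := sum_wt p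
  have h2 : Sup.rts p = p.roots.toFinset := rfl
  rw [h2] at h
  exact_mod_cast h

private lemma V7a_sum_sub [IsAlgClosed E] (n : E → ℤ) (c : ℤ) :
    ∑ θ ∈ p.roots.toFinset, (wt p θ : ℤ) * (n θ - c) =
      (∑ θ ∈ p.roots.toFinset, (wt p θ : ℤ) * n θ) - c * p.natDegree := by
  rw [← V7a_sum_wt (p := p), Finset.mul_sum, ← Finset.sum_sub_distrib]
  exact Finset.sum_congr rfl fun θ _ => by ring

variable [hG : IsGood ℓ p]

private lemma V7a_coprime : IsCoprime (ℓ : ℤ) (p.natDegree : ℤ) :=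
  (Nat.isCoprime_iff_coprime.2 hG.coprime).symm

private lemma V7a_exists [IsAlgClosed E] {ζ : E} (hζ : IsPrimitiveRoot ζ ℓ) (n : E → ℤ) :
    ∃ n' : E → ℤ, (rm n' : Jac ℓ p) = rm n ∧
      (ℓ : ℤ) ∣ ∑ θ ∈ p.roots.toFinset, (wt p θ : ℤ) * n' θ := by
  obtain ⟨a, b, hab⟩ := V7a_coprime (ℓ := ℓ) (p := p)
  refine ⟨fun θ => n θ - b * ∑ θ ∈ p.roots.toFinset, (wt p θ : ℤ) * n θ, ?_, ?_⟩
  · rw [rm_sub]
    have h0 : (rm (fun _ => b * ∑ θ ∈ p.roots.toFinset, (wt p θ : ℤ) * n θ) : Jac ℓ p) = 0 := by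
      rw [rm_eq_zero_iff ζ hζ]
      exact ⟨_, fun θ _ => by rw [sub_self]; exact dvd_zero _⟩
    rw [h0, sub_zero]
  · rw [V7a_sum_sub]
    refine ⟨a * ∑ θ ∈ p.roots.toFinset, (wt p θ : ℤ) * n θ, ?_⟩
    linear_combination (-(∑ θ ∈ p.roots.toFinset, (wt p θ : ℤ) * n θ)) * hab

private lemma V7a_unique [IsAlgClosed E] {ζ : E} (hζ : IsPrimitiveRoot ζ ℓ) (n n' : E → ℤ)
    (h : (rm n : Jac ℓ p) = rm n')
    (h1 : (ℓ : ℤ) ∣ ∑ θ ∈ p.roots.toFinset, (wt p θ : ℤ) * n θ)
    (h2 : (ℓ : ℤ) ∣ ∑ θ ∈ p.roots.toFinset, (wt p θ : ℤ) * n' θ) (θ : E)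
    (hθ : p.eval θ = 0) : (ℓ : ℤ) ∣ n θ - n' θ := by
  have h3 : (rm (fun θ => n θ - n' θ) : Jac ℓ p) = 0 := by rw [rm_sub, h, sub_self]
  obtain ⟨c, hc⟩ := (rm_eq_zero_iff ζ hζ _).1 h3
  have h4 : (ℓ : ℤ) ∣ ∑ θ ∈ p.roots.toFinset, (wt p θ : ℤ) * ((n θ - n' θ) - c) := by
    refine Finset.dvd_sum fun θ hθ => (hc θ ?_).mul_left _
    have h5 : θ ∈ p.roots := Multiset.mem_toFinset.1 hθ
    exact (mem_roots'.1 h5).2
  rw [V7a_sum_sub (p := p) (fun θ => n θ - n' θ) c] at h4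
  have h6 : ∑ θ ∈ p.roots.toFinset, (wt p θ : ℤ) * (n θ - n' θ) =
      (∑ θ ∈ p.roots.toFinset, (wt p θ : ℤ) * n θ) -
        ∑ θ ∈ p.roots.toFinset, (wt p θ : ℤ) * n' θ := by
    rw [← Finset.sum_sub_distrib]
    exact Finset.sum_congr rfl fun θ _ => by ring
  rw [h6] at h4
  have h7 : (ℓ : ℤ) ∣ c * p.natDegree := by
    have h8 := dvd_sub (dvd_sub h1 h2) h4
    rwa [sub_sub_cancel] at h8
  have h9 : (ℓ : ℤ) ∣ c := (V7a_coprime (ℓ := ℓ) (p := p)).dvd_of_dvd_mul_right h7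
  have h10 := dvd_add (hc θ hθ) h9
  rwa [sub_add_cancel] at h10

end

section

variable {K E : Type} [Field K] [Field E] [Algebra K E] [IsAlgClosure K E] {ℓ : ℕ} {f : K[X]}
  [hG : IsGood ℓ (f.map (algebraMap K E))]

/-- Normalised representatives of the classes `rm n`. -/
theorem exists_normal_rep {ζ : E} (hζ : IsPrimitiveRoot ζ ℓ) :
    ∃ ν : Jac ℓ (f.map (algebraMap K E)) → E → ℤ,
      (∀ n : E → ℤ, rm (ν (rm n)) = (rm n : Jac ℓ (f.map (algebraMap K E)))) ∧
      (∀ Q, (ℓ : ℤ) ∣ ∑ θ ∈ (f.map (algebraMap K E)).roots.toFinset,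
        (wt (f.map (algebraMap K E)) θ : ℤ) * ν Q θ) ∧
      ∀ n n' : E → ℤ, (rm n : Jac ℓ (f.map (algebraMap K E))) = rm n' →
        ((ℓ : ℤ) ∣ ∑ θ ∈ (f.map (algebraMap K E)).roots.toFinset,
          (wt (f.map (algebraMap K E)) θ : ℤ) * n θ) →
        ((ℓ : ℤ) ∣ ∑ θ ∈ (f.map (algebraMap K E)).roots.toFinset,
          (wt (f.map (algebraMap K E)) θ : ℤ) * n' θ) →
        ∀ θ, (f.map (algebraMap K E)).eval θ = 0 → (ℓ : ℤ) ∣ n θ - n' θ := by
  have hE : IsAlgClosed E := IsAlgClosure.isAlgClosed K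
  have key : ∀ Q : Jac ℓ (f.map (algebraMap K E)), ∃ n' : E → ℤ,
      (∀ n : E → ℤ, rm n = Q → rm n' = Q) ∧
      (ℓ : ℤ) ∣ ∑ θ ∈ (f.map (algebraMap K E)).roots.toFinset,
        (wt (f.map (algebraMap K E)) θ : ℤ) * n' θ := by
    intro Q
    by_cases hQ : ∃ n : E → ℤ, (rm n : Jac ℓ (f.map (algebraMap K E))) = Q
    · obtain ⟨n, hn⟩ := hQ
      obtain ⟨n', h1, h2⟩ := V7a_exists (p := f.map (algebraMap K E)) hζ n
      exact ⟨n', fun _ _ => h1.trans hn, h2⟩
    · refine ⟨fun _ => 0, fun n hn => absurd ⟨n, hn⟩ hQ, ?_⟩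
      refine Finset.dvd_sum fun θ _ => ?_
      rw [mul_zero]
      exact dvd_zero _
  choose ν h1 h2 using key
  exact ⟨ν, fun n => h1 _ n rfl, h2, fun n n' => V7a_unique hζ n n'⟩

end

end Pool.Agent.Lib.MP_89bcae_ag.Brt

end

section

namespace Pool.Agent.Lib.MP_89bcae_ag.Wt.Lns.LocCtx
end Pool.Agent.Lib.MP_89bcae_ag.Wt.Lns.LocCtx


/-!
# The values of the roots
-/

open Polynomial IsDedekindDomain IsLocalRing

open scoped Classical

namespace Pool.Agent.Lib.MP_89bcae_ag.Brt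

open Pool.Agent.Lib.MP_89bcae_ag.Sup (LocCtx plc exists_locCtx)

open Pool.Agent.Lib.MP_89bcae_ag.Wt Pool.Agent.Lib.MP_89bcae_ag.Wt.Lns Pool.Agent.Lib.MP_89bcae_ag.Bra

/-! ROW V10, val_root -/

section

variable {F K E : Type} [Field F] [IsAlgClosed F] [Field K] [Algebra F[X] K] [Field E]
  [Algebra K E] [Algebra F E] [IsAlgClosure K E] {ℓ : ℕ} {s : F} {v : AbsoluteValue E ℝ} {ζ : F}

private lemma V10a_add {v : AbsoluteValue E ℝ} (hna : ∀ x y, v (x + y) ≤ max (v x) (v y)) {x y : E} (hx : v x < 1)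
    (hy : v y < 1) : v (x + y) < 1 :=
  lt_of_le_of_lt (hna x y) (max_lt hx hy)


private lemma V10a_mul {v : AbsoluteValue E ℝ} (hna : ∀ x y, v (x + y) ≤ max (v x) (v y)) {a a' b b' : E}
    (h : v (a - b) < 1) (h' : v (a' - b') < 1) (ha' : v a' ≤ 1) (hb : v b ≤ 1) :
    v (a * a' - b * b') < 1 := by
  have h1 : a * a' - b * b' = (a - b) * a' + b * (a' - b') := by ring
  rw [h1]
  apply V10a_add hna
  · rw [v.map_mul]
    exact lt_of_le_of_lt (mul_le_of_le_one_right (v.nonneg _) ha') h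
  · rw [v.map_mul]
    exact lt_of_le_of_lt (mul_le_of_le_one_left (v.nonneg _) hb) h'

private lemma V10a_le {v : AbsoluteValue E ℝ} (hna : ∀ x y, v (x + y) ≤ max (v x) (v y)) {a b : E}
    (h : v (a - b) < 1) (hb : v b ≤ 1) : v a ≤ 1 := by
  have h1 := hna (a - b) b
  rw [sub_add_cancel] at h1
  exact h1.trans (max_le h.le hb)

omit [IsAlgClosed F] in
private lemma V10a_c {v : AbsoluteValue E ℝ} (hc : ∀ c : F, c ≠ 0 → v (algebraMap F E c) = 1) (c : F) :
    v (algebraMap F E c) ≤ 1 := by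
  by_cases h : c = 0
  · rw [h, map_zero, v.map_zero]
    exact zero_le_one
  · exact (hc c h).le

omit [IsAlgClosed F] in
private lemma V10a_0 {v : AbsoluteValue E ℝ} (hc : ∀ c : F, c ≠ 0 → v (algebraMap F E c) = 1) {c : F}
    (h : v (algebraMap F E c) < 1) : c = 0 := by
  by_contra h1
  rw [hc c h1] at h
  exact lt_irrefl _ h

omit [IsAlgClosed F] in
private lemma V10a_eval {v : AbsoluteValue E ℝ} (hna : ∀ x y, v (x + y) ≤ max (v x) (v y))
    (hc : ∀ c : F, c ≠ 0 → v (algebraMap F E c) = 1) {θ : E} {r : F} (hr : v (θ - algebraMap F E r) < 1)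
    (h : F[X]) : v ((h.map (algebraMap F E)).eval θ - algebraMap F E (h.eval r)) < 1 := by
  have hθ : v θ ≤ 1 := V10a_le hna hr (V10a_c hc r)
  induction h using Polynomial.induction_on with
  | C a => simp
  | add p q hp hq =>
    have h1 : ((p + q).map (algebraMap F E)).eval θ - algebraMap F E ((p + q).eval r) =
        ((p.map (algebraMap F E)).eval θ - algebraMap F E (p.eval r)) +
          ((q.map (algebraMap F E)).eval θ - algebraMap F E (q.eval r)) := by
      rw [Polynomial.map_add, eval_add, eval_add, map_add]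
      ring
    rw [h1]
    exact V10a_add hna hp hq
  | monomial n a ih =>
    have h1 : ((C a * X ^ (n + 1)).map (algebraMap F E)).eval θ - algebraMap F E ((C a * X ^ (n + 1)).eval r) =
        ((C a * X ^ n).map (algebraMap F E)).eval θ * θ -
          algebraMap F E ((C a * X ^ n).eval r) * algebraMap F E r := by
      simp only [Polynomial.map_mul, map_C, Polynomial.map_pow, map_X, eval_mul, eval_C, eval_pow, eval_X, map_mul, map_pow]
      ring
    rw [h1]
    exact V10a_mul hna ih hr hθ (V10a_c hc _)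

omit [IsAlgClosed F] in
private lemma V10a_prod {v : AbsoluteValue E ℝ} (hna : ∀ x y, v (x + y) ≤ max (v x) (v y))
    (hc : ∀ c : F, c ≠ 0 → v (algebraMap F E c) = 1) (res : E → F) (c : F) (S : Multiset E)
    (hS : ∀ θ ∈ S, v (θ - algebraMap F E (res θ)) < 1) :
    v ((S.map fun θ => algebraMap F E c - θ).prod - algebraMap F E ((S.map fun θ => c - res θ).prod)) < 1 := by
  induction S using Multiset.induction_on with
  | empty => simp
  | cons a S ih =>
    rw [Multiset.map_cons, Multiset.prod_cons, Multiset.map_cons, Multiset.prod_cons, map_mul]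
    have h1 := ih fun θ hθ => hS θ (Multiset.mem_cons_of_mem hθ)
    have h2 : v ((algebraMap F E c - a) - algebraMap F E (c - res a)) < 1 := by
      have h3 : (algebraMap F E c - a) - algebraMap F E (c - res a) = -(a - algebraMap F E (res a)) := by
        rw [map_sub]
        ring
      rw [h3, v.map_neg]
      exact hS a (Multiset.mem_cons_self a S)
    exact V10a_mul hna h2 h1 (V10a_le hna h1 (V10a_c hc _)) (V10a_c hc _)

section Orbit

variable {g : F[X]} {p : E[X]} {res : E → F} {θ : E}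

/-- PROOF. Let `r = res θ`, `e` the multiplicity of the root `r` of `g - s` (`g(r) = s`: `v (g(θ) - g(r)) < 1` as `v (θ - r) < 1`,
and `g(θ) = t`, `v (t - s) < 1`, so `v (s - g(r)) < 1`), `g - s = (X - r) ^ e h`, `h(r) ≠ 0`; `t - s = (θ - r) ^ e h(θ)` and `v (h(θ)) = 1`
(`v (h(θ) - h(r)) < 1`). So `v (t - s) = v (θ - r) ^ e`. And `e` is the number of the roots `θ'` of `p` with residue `r`: `p = ∏ (X - θ')`;
with `q = ∏ (X - res θ')` in `F[X]`, all the coefficients of `p - q` and of `p - (g - s)` have `v < 1` (in `E`), so `q = g - s`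
(`hL.ctx.const`); the multiplicity of `r` in `q` is the number of the `θ'` with `res θ' = r` (`p` is separable). -/
theorem val_root (hL : LocF F K s v) (hg : g.Monic)
    (hp : p = g.map (algebraMap F E) - C (algebraMap K E (algebraMap F[X] K X))) (hsep : p.Separable)
    (hres : ∀ θ, p.eval θ = 0 → v (θ - algebraMap F E (res θ)) < 1) (hθ : p.eval θ = 0) :
    v (algebraMap K E (algebraMap F[X] K X) - algebraMap F E s) =
      v (θ - algebraMap F E (res θ)) ^ (rtsOver p res (res θ)).card := by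
  have hE : IsAlgClosed E := IsAlgClosure.isAlgClosed K
  have hna := hL.ctx.nonarch
  have hc := hL.ctx.const
  have hlt := hL.ctx.lt_one
  have hne := hL.ctx.ne
  set t : E := algebraMap K E (algebraMap F[X] K X) with ht
  have hgt : (g.map (algebraMap F E)).eval θ = t := by
    rw [hp, eval_sub, eval_C, sub_eq_zero] at hθ
    exact hθ
  have hinj : Function.Injective (algebraMap F E) := (algebraMap F E).injective
  -- `g` is not constant
  have hg0 : g.natDegree ≠ 0 := by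
    intro h0
    have h1 : g = 1 := Polynomial.eq_one_of_monic_natDegree_zero hg h0
    rw [h1, Polynomial.map_one, eval_one] at hgt
    have h2 : v (algebraMap F E (1 - s)) < 1 := by
      rw [map_sub, map_one, hgt]
      exact hlt
    have h3 := V10a_0 hc h2
    apply hne
    rw [← hgt, ← sub_eq_zero.1 h3, map_one]
  have hmon : p.Monic := by
    rw [hp]
    apply (hg.map (algebraMap F E)).sub_of_left
    refine lt_of_le_of_lt degree_C_le ?_
    rw [← natDegree_pos_iff_degree_pos, natDegree_map]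
    exact Nat.pos_of_ne_zero hg0
  set r : F := res θ with hr
  have hθr : v (θ - algebraMap F E r) < 1 := hres θ hθ
  -- `G = g - s`
  obtain ⟨G, hG⟩ : ∃ G : F[X], G = g - C s := ⟨_, rfl⟩
  have hGt : (G.map (algebraMap F E)).eval θ = t - algebraMap F E s := by
    rw [hG, Polynomial.map_sub, map_C, eval_sub, eval_C, hgt]
  have hG0 : G ≠ 0 := by
    intro h0
    rw [h0, Polynomial.map_zero, eval_zero] at hGt
    exact hne (sub_eq_zero.1 hGt.symm)
  obtain ⟨h, hGh, hh⟩ := exists_eq_pow_rootMultiplicity_mul_and_not_dvd G hG0 r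
  rw [dvd_iff_isRoot, IsRoot.def] at hh
  have hvh : v ((h.map (algebraMap F E)).eval θ) = 1 := by
    have h1 := V10a_eval hna hc hθr h
    have h2 : v (algebraMap F E (h.eval r)) = 1 := hc _ hh
    apply le_antisymm
    · exact V10a_le hna h1 h2.le
    · have h3 := hna ((h.map (algebraMap F E)).eval θ) (-((h.map (algebraMap F E)).eval θ - algebraMap F E (h.eval r)))
      rw [v.map_neg] at h3
      have h4 : (h.map (algebraMap F E)).eval θ + -((h.map (algebraMap F E)).eval θ - algebraMap F E (h.eval r)) =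
          algebraMap F E (h.eval r) := by ring
      rw [h4, h2] at h3
      rcases le_max_iff.1 h3 with h5 | h5
      · exact h5
      · exact absurd h1 (not_lt.2 h5)
  have hval : v (t - algebraMap F E s) = v (θ - algebraMap F E r) ^ G.rootMultiplicity r := by
    rw [← hGt]
    conv_lhs => rw [hGh]
    rw [Polynomial.map_mul, Polynomial.map_pow, Polynomial.map_sub, map_X, map_C, eval_mul, eval_pow, eval_sub, eval_X,
      eval_C, v.map_mul, map_pow, hvh, mul_one]
  rw [hval]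
  congr 1
  -- the multiplicity
  have hq : G = ((p.roots.map res).map fun a => X - C a).prod := by
    have : Infinite F := IsAlgClosed.instInfinite
    apply Polynomial.funext
    intro c
    have h1 := V10a_prod hna hc res c p.roots fun θ' hθ' => hres θ' (isRoot_of_mem_roots hθ')
    rw [← (IsAlgClosed.splits p).eval_eq_prod_roots_of_monic hmon] at h1
    have h2 : p.eval (algebraMap F E c) = algebraMap F E (g.eval c) - t := by
      rw [hp, eval_sub, eval_C, eval_map, eval₂_at_apply]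
    rw [h2] at h1
    have h3 := V10a_add hna h1 hlt
    have h4 : algebraMap F E (g.eval c) - t - algebraMap F E ((p.roots.map fun θ => c - res θ).prod) + (t - algebraMap F E s) =
        algebraMap F E (G.eval c - (p.roots.map fun θ => c - res θ).prod) := by
      rw [hG, eval_sub, eval_C, map_sub, map_sub]
      ring
    rw [h4] at h3
    rw [sub_eq_zero.1 (V10a_0 hc h3), eval_multiset_prod, Multiset.map_map, Multiset.map_map]
    congr 1
    apply Multiset.map_congr rfl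
    intro x _
    simp
  rw [hq, ← count_roots, roots_multiset_prod_X_sub_C, Multiset.count_map]
  unfold rtsOver
  rw [← Multiset.toFinset_filter, Multiset.toFinset_card_of_nodup ((nodup_roots hsep).filter _)]
  congr 1
  apply Multiset.filter_congr
  intro x _
  exact eq_comm

end Orbit

end

end Pool.Agent.Lib.MP_89bcae_ag.Brt

end

end

section

attribute [local instance 100000] Pool.Agent.Lib.MP_89bcae_ag.Brt.tffFields
attribute [local instance 100000] Pool.Agent.Lib.MP_89bcae_ag.Wt.ifrNF Pool.Agent.Lib.MP_89bcae_ag.Wt.iddNF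

namespace Pool.Agent.Lib.MP_89bcae_ag.Bra
end Pool.Agent.Lib.MP_89bcae_ag.Bra
namespace Pool.Agent.Lib.MP_89bcae_ag.Sup
end Pool.Agent.Lib.MP_89bcae_ag.Sup
namespace Pool.Agent.Lib.MP_89bcae_ag.Wt
end Pool.Agent.Lib.MP_89bcae_ag.Wt
namespace Pool.Agent.Lib.MP_89bcae_ag.Wt.Lns
end Pool.Agent.Lib.MP_89bcae_ag.Wt.Lns
namespace Pool.Agent.Lib.MP_89bcae_ag.Wt.Lns.LocCtx
end Pool.Agent.Lib.MP_89bcae_ag.Wt.Lns.LocCtx

section

namespace Pool.Agent.Lib.MP_89bcae_ag.Wt.Lns.LocCtx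
end Pool.Agent.Lib.MP_89bcae_ag.Wt.Lns.LocCtx


/-!
# The absolute value of the algebraic closure of the Laurent series
-/

open Polynomial IsDedekindDomain IsLocalRing

open scoped Classical

namespace Pool.Agent.Lib.MP_89bcae_ag.Brt

open Pool.Agent.Lib.MP_89bcae_ag.Sup (LocCtx plc exists_locCtx)

open Pool.Agent.Lib.MP_89bcae_ag.Wt Pool.Agent.Lib.MP_89bcae_ag.Wt.Lns Pool.Agent.Lib.MP_89bcae_ag.Bra

section Spectral

variable {K M : Type} [NontriviallyNormedField K] [IsUltrametricDist K] [CompleteSpace K]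
  [Field M] [Algebra K M] [Algebra.IsAlgebraic K M]

/-- The spectral norm as an absolute value. -/
private noncomputable def V4_abs (K M : Type) [NontriviallyNormedField K]
    [IsUltrametricDist K] [CompleteSpace K]
    [Field M] [Algebra K M] [Algebra.IsAlgebraic K M] : AbsoluteValue M ℝ where
  toFun := spectralNorm K M
  map_mul' x y := (spectralMulAlgNorm K M).map_mul' x y
  nonneg' x := spectralNorm_nonneg x
  eq_zero' x := ⟨fun h => eq_zero_of_map_spectralNorm_eq_zero h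
    (Algebra.IsAlgebraic.isAlgebraic x), fun h => by rw [h]; exact spectralNorm_zero⟩
  add_le' x y := isNonarchimedean_spectralNorm.add_le spectralNorm_nonneg

private theorem V4_nonarch (x y : M) :
    V4_abs K M (x + y) ≤ max (V4_abs K M x) (V4_abs K M y) :=
  isNonarchimedean_spectralNorm x y

private theorem V4_ext (x : K) : V4_abs K M (algebraMap K M x) = ‖x‖ :=
  spectralNorm_extends x

private theorem V4_gal (σ : M ≃ₐ[K] M) (x : M) : V4_abs K M (σ x) = V4_abs K M x :=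
  (spectralNorm_eq_of_equiv σ x).symm

end Spectral

private theorem V4_valued {K M : Type} [Field K] [Valued K (WithZero (Multiplicative ℤ))]
    [CompleteSpace K] [Field M] [Algebra K M] [Algebra.IsAlgebraic K M]
    (hR : Valuation.RankOne (Valued.v : Valuation K (WithZero (Multiplicative ℤ)))) :
    ∃ v : AbsoluteValue M ℝ,
      (∀ x y, v (x + y) ≤ max (v x) (v y)) ∧
      (∀ x y : K, v (algebraMap K M x) ≤ v (algebraMap K M y) ↔ Valued.v x ≤ Valued.v y) ∧
      (∀ (σ : M ≃ₐ[K] M) (x : M), v (σ x) = v x) := by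
  let _ := hR
  let _ : NontriviallyNormedField K := Valued.toNontriviallyNormedField K _
  have _ : IsUltrametricDist K := Valued.instIsUltrametricDist K _
  refine ⟨V4_abs K M, V4_nonarch, fun x y => ?_, V4_gal⟩
  rw [V4_ext, V4_ext]
  exact Valued.toNormedField.norm_le_iff

private theorem V4_disc (κ : Type) [Field κ] : (Valued.v : Valuation (LaurentSeries κ)
    (WithZero (Multiplicative ℤ))).IsRankOneDiscrete :=
  Valuation.IsRankOneDiscrete.mk' ((PowerSeries.idealX κ).valuation (LaurentSeries κ))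

private noncomputable abbrev V4_inst (ℓ : ℕ) (κ : Type) [Field κ] :
    Valued (Hk ℓ κ) (WithZero (Multiplicative ℤ)) :=
  inferInstanceAs (Valued (LaurentSeries κ) (WithZero (Multiplicative ℤ)))

private theorem V4_aux (ℓ : ℕ) [NeZero ℓ] (κ : Type) [Field κ] [IsAlgClosure (Hk ℓ κ) (Tk κ)] :
    ∃ v : AbsoluteValue (Tk κ) ℝ,
      (∀ x y, v (x + y) ≤ max (v x) (v y)) ∧
      (∀ x y : LaurentSeries κ, v (algebraMap (Hk ℓ κ) (Tk κ) (toH ℓ κ x)) ≤
        v (algebraMap (Hk ℓ κ) (Tk κ) (toH ℓ κ y)) ↔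
          (Valued.v x : WithZero (Multiplicative ℤ)) ≤ Valued.v y) ∧
      (∀ (σ : Tk κ ≃ₐ[Hk ℓ κ] Tk κ) (x : Tk κ), v (σ x) = v x) := by
  let _ : Valued (Hk ℓ κ) (WithZero (Multiplicative ℤ)) := V4_inst ℓ κ
  have _ : CompleteSpace (Hk ℓ κ) := inferInstanceAs (CompleteSpace (LaurentSeries κ))
  have _ : Algebra.IsAlgebraic (Hk ℓ κ) (Tk κ) := IsAlgClosure.isAlgebraic
  have hRD : (Valued.v : Valuation (Hk ℓ κ) (WithZero (Multiplicative ℤ))).IsRankOneDiscrete :=
    V4_disc κ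
  obtain ⟨v, h1, h2, h3⟩ := V4_valued (K := Hk ℓ κ) (M := Tk κ)
    (Valuation.IsRankOneDiscrete.rankOne (Valued.v : Valuation (Hk ℓ κ)
      (WithZero (Multiplicative ℤ))) (e := 2) one_lt_two)
  exact ⟨v, h1, fun x y => h2 (toH ℓ κ x) (toH ℓ κ y), h3⟩

/-- The absolute value on the algebraic closure of the Laurent series. -/
theorem exists_absT (ℓ : ℕ) [NeZero ℓ] (κ : Type) [Field κ] [IsAlgClosure (Hk ℓ κ) (Tk κ)] :
    ∃ w : AbsoluteValue (Tk κ) ℝ, AbsT ℓ κ w := by
  obtain ⟨v, hna, hle, hgal⟩ := V4_aux ℓ κ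
  have hone : v (algebraMap (Hk ℓ κ) (Tk κ) (toH ℓ κ 1)) = 1 := by
    rw [map_one, map_one, map_one]
  have hle1 : ∀ u : LaurentSeries κ, (∀ n : ℤ, n < 0 → HahnSeries.coeff u n = 0) →
      (Valued.v u : WithZero (Multiplicative ℤ)) ≤ 1 := by
    intro u hu
    have h := (LaurentSeries.valuation_le_iff_coeff_lt_eq_zero κ (D := 0) (f := u)).mpr hu
    rwa [neg_zero, WithZero.exp_zero] at h
  have hle2 : ∀ u : LaurentSeries κ, (∀ n : ℤ, n < 0 → HahnSeries.coeff u n = 0) →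
      v (algebraMap (Hk ℓ κ) (Tk κ) (toH ℓ κ u)) ≤ 1 := by
    intro u hu
    rw [← hone, hle, map_one]
    exact hle1 u hu
  have hC : ∀ (c : κ) (n : ℤ), n < 0 → HahnSeries.coeff (HahnSeries.C c : LaurentSeries κ) n = 0 := by
    intro c n hn
    rw [HahnSeries.C_apply, HahnSeries.coeff_single_of_ne hn.ne]
  refine ⟨v, hna, hgal, ?_, ?_, ?_⟩
  · intro c hc
    have h1 : v (algebraMap (Hk ℓ κ) (Tk κ) (cH ℓ c)) ≤ 1 := hle2 _ (hC c)
    have h2 : v (algebraMap (Hk ℓ κ) (Tk κ) (cH ℓ c⁻¹)) ≤ 1 := hle2 _ (hC c⁻¹)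
    have h3 : v (algebraMap (Hk ℓ κ) (Tk κ) (cH ℓ c)) *
        v (algebraMap (Hk ℓ κ) (Tk κ) (cH ℓ c⁻¹)) = 1 := by
      rw [← map_mul, ← map_mul, ← map_mul, mul_inv_cancel₀ hc, map_one, map_one, map_one]
    refine le_antisymm h1 ?_
    rw [← h3]
    exact mul_le_of_le_one_right (AbsoluteValue.nonneg _ _) h2
  · intro u hu
    exact hle2 ((toH ℓ κ).symm u) hu
  · have h1 : ¬ v (algebraMap (Hk ℓ κ) (Tk κ) (toH ℓ κ 1)) ≤
        v (algebraMap (Hk ℓ κ) (Tk κ) (toH ℓ κ (HahnSeries.single 1 1))) := by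
      rw [hle, map_one, not_le]
      have h2 := LaurentSeries.valuation_single_zpow κ 1
      rw [h2, ← WithZero.exp_zero]
      exact WithZero.exp_lt_exp.mpr (by norm_num)
    rw [hone, not_le] at h1
    exact h1

end Pool.Agent.Lib.MP_89bcae_ag.Brt

end

section

namespace Pool.Agent.Lib.MP_89bcae_ag.Wt.Lns.LocCtx
end Pool.Agent.Lib.MP_89bcae_ag.Wt.Lns.LocCtx


/-!
# Roots of the quotients of conjugate factors
-/

open Polynomial IsDedekindDomain IsLocalRing

open scoped Classical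

namespace Pool.Agent.Lib.MP_89bcae_ag.Brt

open Pool.Agent.Lib.MP_89bcae_ag.Sup (LocCtx plc exists_locCtx)

open Pool.Agent.Lib.MP_89bcae_ag.Wt Pool.Agent.Lib.MP_89bcae_ag.Wt.Lns Pool.Agent.Lib.MP_89bcae_ag.Bra

/-! (uses exists_absT, absT_lt, absT_const, exists_root_one of the skeleton) -/

/-! ROW V8 -/

section

variable {F K E κ : Type} [Field F] [IsAlgClosed F] [Field K] [Algebra F[X] K] [Field E]
  [Algebra K E] [Algebra F E] [IsAlgClosure K E] [Field κ] [Algebra F κ] {ℓ : ℕ} [NeZero ℓ] {s : F}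
  {ζ : F} {v : AbsoluteValue E ℝ} {f : K[X]} {i : K →+* Hk ℓ κ}

omit [IsAlgClosure K E] in
/-- The residues of conjugate roots. PROOF. `v (g θ - g (res θ)) < 1`, constants are fixed (`hL.compat`), and two constants with
`v (c - c') < 1` are equal (`hL.ctx.const`). -/
theorem res_conj (hL : LocF F K s v) {p : E[X]} {res : E → F}
    (hres : ∀ θ, p.eval θ = 0 → v (θ - algebraMap F E (res θ)) < 1) (g : E ≃ₐ[K] E) {θ : E}
    (hθ : p.eval θ = 0) (hgθ : p.eval (g θ) = 0) : res (g θ) = res θ := by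
  by_contra hne
  have hfix : ∀ c : F, g (algebraMap F E c) = algebraMap F E c := by
    intro c
    rw [hL.compat, g.commutes]
  have h1 : v (g θ - algebraMap F E (res θ)) < 1 := by
    have h2 : g θ - algebraMap F E (res θ) = g (θ - algebraMap F E (res θ)) := by
      rw [map_sub, hfix]
    rw [h2, hL.inv]
    exact hres θ hθ
  have h3 : v (g θ - algebraMap F E (res (g θ))) < 1 := hres (g θ) hgθ
  have h4 : v (algebraMap F E (res (g θ) - res θ)) < 1 := by
    have h5 : algebraMap F E (res (g θ) - res θ) =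
        (g θ - algebraMap F E (res θ)) + -(g θ - algebraMap F E (res (g θ))) := by
      rw [map_sub]
      ring
    rw [h5]
    refine lt_of_le_of_lt (hL.ctx.nonarch _ _) (max_lt h1 ?_)
    rw [AbsoluteValue.map_neg]
    exact h3
  rw [hL.ctx.const _ (sub_ne_zero.mpr hne)] at h4
  exact lt_irrefl _ h4

/-- `ℓ`-th roots of `(x - θ) / (x - res θ)` in `Tk κ`. PROOF. Let `w` be as in `exists_absT`, `x'` the image of `x` in `Tk κ`. For
each root `θ`: `x' - res θ ≠ 0`, `w (x' - res θ) = 1` (`hw.const`, `x - res θ ≠ 0` by `hx` for `X - C (res θ)`), `w (θ - res θ) < 1`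
(`absT_lt`, `absT_const`), so `w (z - 1) < 1` with `z = (x' - θ) / (x' - res θ)`; `ρ θ = R z` (`exists_root_one`; nonzero as
`w (ρ θ - 1) < 1`). `g z` is the same for `r g θ` (`hr`, `res_conj`; `r g θ` is a root as `f` has coefficients in `K`). -/
theorem exists_rhoV [IsAlgClosure (Hk ℓ κ) (Tk κ)] (hℓ : ℓ.Prime) (hζ : IsPrimitiveRoot ζ ℓ)
    (hL : LocF F K s v) {res : E → F}
    (hres : ∀ θ, (f.map (algebraMap K E)).eval θ = 0 → v (θ - algebraMap F E (res θ)) < 1)
    (hi : IsEmbV ℓ s v i) (jE : E →+* Tk κ)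
    (hj : ∀ z : K, jE (algebraMap K E z) = algebraMap (Hk ℓ κ) (Tk κ) (i z)) {x : κ}
    (hx : ∀ p : F[X], aeval x p = 0 → p = 0)
    (r : (Tk κ ≃ₐ[Hk ℓ κ] Tk κ) →* (E ≃ₐ[K] E)) (hr : ∀ g z, jE (r g z) = g (jE z)) :
    ∃ ρ : E → (Tk κ)ˣ,
      (∀ θ, (f.map (algebraMap K E)).eval θ = 0 → (ρ θ : Tk κ) ^ ℓ *
        (algebraMap (Hk ℓ κ) (Tk κ) (cH ℓ x) - jE (algebraMap F E (res θ))) =
          algebraMap (Hk ℓ κ) (Tk κ) (cH ℓ x) - jE θ) ∧
      ∀ (g : Tk κ ≃ₐ[Hk ℓ κ] Tk κ) (θ : E), (f.map (algebraMap K E)).eval θ = 0 →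
        g (ρ θ : Tk κ) = ρ (r g θ) := by
  obtain ⟨w, hw⟩ := exists_absT ℓ κ
  have hζ' : IsPrimitiveRoot (algebraMap F κ ζ) ℓ :=
    hζ.map_of_injective (algebraMap F κ).injective
  obtain ⟨R, hR1, hR2⟩ := exists_root_one hw hℓ hζ'
  set x' : Tk κ := algebraMap (Hk ℓ κ) (Tk κ) (cH ℓ x) with hx'
  have hwx : ∀ c : F, w (x' - jE (algebraMap F E c)) = 1 := by
    intro c
    rw [absT_const hL hi jE hj c, hx', ← map_sub, ← map_sub]
    apply hw.const
    intro h0
    have h1 : (X - C c : F[X]) = 0 := by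
      apply hx
      rw [map_sub, aeval_X, aeval_C]
      exact h0
    exact X_sub_C_ne_zero c h1
  have hne : ∀ c : F, x' - jE (algebraMap F E c) ≠ 0 := by
    intro c h0
    have := hwx c
    rw [h0, map_zero] at this
    exact zero_ne_one this
  let z : E → Tk κ := fun θ => (x' - jE θ) / (x' - jE (algebraMap F E (res θ)))
  have hz1 : ∀ θ, (f.map (algebraMap K E)).eval θ = 0 → w (z θ - 1) < 1 := by
    intro θ hθ
    have h1 : z θ - 1 = (-(jE (θ - algebraMap F E (res θ)))) / (x' - jE (algebraMap F E (res θ))) := by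
      change (x' - jE θ) / (x' - jE (algebraMap F E (res θ))) - 1 = _
      rw [div_sub_one (hne _), map_sub]
      congr 1
      ring
    rw [h1, map_div₀, hwx, div_one, AbsoluteValue.map_neg]
    exact absT_lt hL hi hw jE hj _ (hres θ hθ)
  have hR0 : ∀ y : Tk κ, w (y - 1) < 1 → R y ≠ 0 := by
    intro y hy h0
    have h1 := (hR1 y hy).2
    rw [h0, zero_sub, AbsoluteValue.map_neg, map_one] at h1
    exact lt_irrefl _ h1
  let ρ : E → (Tk κ)ˣ := fun θ =>
    if h : (f.map (algebraMap K E)).eval θ = 0 then Units.mk0 (R (z θ)) (hR0 _ (hz1 θ h)) else 1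
  have hρ : ∀ θ, (f.map (algebraMap K E)).eval θ = 0 → (ρ θ : Tk κ) = R (z θ) := by
    intro θ hθ
    change ((if h : (f.map (algebraMap K E)).eval θ = 0 then
      Units.mk0 (R (z θ)) (hR0 _ (hz1 θ h)) else 1 : (Tk κ)ˣ) : Tk κ) = R (z θ)
    rw [dif_pos hθ]
    rfl
  refine ⟨ρ, ?_, ?_⟩
  · intro θ hθ
    rw [hρ θ hθ, (hR1 _ (hz1 θ hθ)).1]
    exact div_mul_cancel₀ _ (hne _)
  · intro g θ hθ
    have hgθ : (f.map (algebraMap K E)).eval (r g θ) = 0 := by
      rw [eval_map_algebraMap] at hθ ⊢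
      have h1 : aeval ((r g : E ≃ₐ[K] E).toAlgHom θ) f = (r g : E ≃ₐ[K] E).toAlgHom (aeval θ f) :=
        aeval_algHom_apply _ _ _
      have h2 : aeval (r g θ) f = (r g : E ≃ₐ[K] E) (aeval θ f) := h1
      rw [h2, hθ, map_zero]
    rw [hρ θ hθ, hρ _ hgθ, hR2 g _ (hz1 θ hθ)]
    congr 1
    change g ((x' - jE θ) / (x' - jE (algebraMap F E (res θ)))) =
      (x' - jE (r g θ)) / (x' - jE (algebraMap F E (res (r g θ))))
    have hgx : g x' = x' := by
      rw [hx', g.commutes]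
    have hgc : g (jE (algebraMap F E (res θ))) = jE (algebraMap F E (res θ)) := by
      rw [← hr, hL.compat, (r g).commutes]
    rw [map_div₀, map_sub, map_sub, hgx, hgc, ← hr, res_conj hL hres (r g) hθ hgθ]

end

end Pool.Agent.Lib.MP_89bcae_ag.Brt

end

section

namespace Pool.Agent.Lib.MP_89bcae_ag.Wt.Lns.LocCtx
end Pool.Agent.Lib.MP_89bcae_ag.Wt.Lns.LocCtx


/-!
# The function y over the local field
-/

open Polynomial IsDedekindDomain IsLocalRing

open scoped Classical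

namespace Pool.Agent.Lib.MP_89bcae_ag.Brt

open Pool.Agent.Lib.MP_89bcae_ag.Sup (LocCtx plc exists_locCtx)

open Pool.Agent.Lib.MP_89bcae_ag.Wt Pool.Agent.Lib.MP_89bcae_ag.Wt.Lns Pool.Agent.Lib.MP_89bcae_ag.Bra

/-! ROW V1 -/

/-! (uses absT_const, exists_rhoV of the skeleton) -/

private lemma v8a_exp {L : Type} [Field L] {ℓ : ℕ} (hℓ : ℓ.Prime) (h : (ℓ : L) ≠ 0) :
    (ringExpChar L).Coprime ℓ := by
  have h1 := ringExpChar.expChar L
  generalize ringExpChar L = q at h1 ⊢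
  rcases h1 with _ | hq
  · exact Nat.coprime_one_left ℓ
  · rw [Nat.coprime_primes hq hℓ]
    rintro rfl
    exact h (CharP.cast_eq_zero L _)

/-- A nonzero element whose powers with the exponents `a`, `b` (coprime) are in `L` is in `L`. -/
private lemma v8a_mem {L M : Type} [Field L] [Field M] [Algebra L M] {z : M} (hz : z ≠ 0)
    {a b : ℕ} (hab : a.Coprime b) {u w : L} (hu : z ^ a = algebraMap L M u)
    (hw : z ^ b = algebraMap L M w) : ∃ y : L, algebraMap L M y = z := by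
  obtain ⟨c, d, hcd⟩ := Nat.isCoprime_iff_coprime.2 hab
  refine ⟨u ^ c * w ^ d, ?_⟩
  rw [map_mul, map_zpow₀, map_zpow₀, ← hu, ← hw, ← zpow_natCast, ← zpow_natCast, ← zpow_mul,
    ← zpow_mul, ← zpow_add₀ hz]
  have h2 : (a : ℤ) * c + (b : ℤ) * d = 1 := by
    rw [← hcd]
    ring
  rw [h2, zpow_one]

private lemma v8a_root {K E : Type} [Field K] [Field E] [Algebra K E] {f : K[X]} (g : E ≃ₐ[K] E)
    {θ : E} (h : (f.map (algebraMap K E)).eval θ = 0) :
    (f.map (algebraMap K E)).eval (g θ) = 0 := by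
  rw [Polynomial.eval_map_algebraMap] at h ⊢
  have h1 : aeval (g θ) f = g (aeval θ f) := Polynomial.aeval_algHom_apply g.toAlgHom θ f
  rw [h1, h, map_zero]

private lemma v8a_wt {K E : Type} [Field K] [Field E] [Algebra K E] {f : K[X]} (g : E ≃ₐ[K] E)
    (θ : E) : wt (f.map (algebraMap K E)) (g θ) = wt (f.map (algebraMap K E)) θ :=
  wt_sym (gs f g) θ

/-- A monic polynomial over an algebraically closed field is the product over its roots. -/
private lemma v8a_prod {E : Type} [Field E] [IsAlgClosed E] {p : E[X]} (hp : p.Monic) :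
    p = ∏ θ ∈ p.roots.toFinset, (X - C θ) ^ wt p θ := by
  have h1 : p = (p.roots.map fun a => X - C a).prod := by
    have h2 := (IsAlgClosed.splits p).eq_prod_roots
    rw [hp.leadingCoeff, map_one, one_mul] at h2
    exact h2
  have h3 : (p.roots.map fun a => X - C a).prod = ∏ θ ∈ p.roots.toFinset, (X - C θ) ^ wt p θ := by
    rw [Finset.prod_multiset_map_count]
    refine Finset.prod_congr rfl fun θ _ => ?_
    rw [Polynomial.count_roots]
    rfl
  exact h1.trans h3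

section

variable {F K E κ : Type} [Field F] [IsAlgClosed F] [Field K] [Algebra F[X] K] [Field E]
  [Algebra K E] [Algebra F E] [IsAlgClosure K E] [Field κ] [Algebra F κ] {ℓ : ℕ} [NeZero ℓ] {s : F}
  {ζ : F} {v : AbsoluteValue E ℝ} {f : K[X]} {i : K →+* Hk ℓ κ}

/-- The function `y` over the local field. PROOF. With `ρ` as in `exists_rhoV` (`r` from `exists_resE` in `Bra/Vd.lean`), let
`Y' = y ∏ ρ θ ^ wt θ` in `Tk κ` (product over the roots; `y` is the constant `cH ℓ y`). `Y' ^ ℓ = y ^ ℓ ∏ (ρ θ ^ ℓ) ^ wt θ`, and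
`y ^ ℓ = ∏ (x - r) ^ (..) = ∏ (x - res θ) ^ wt θ` (`hF.eq`, product over the fibres of `res`), so `Y' ^ ℓ = ∏ (x - θ) ^ wt θ =
f(x)` (`f` is monic and splits over `E`), which is the image of `f.eval₂ i (cH ℓ x)`. `Y'` is fixed by `Aut(Tk κ / Hk ℓ κ)` (the roots
are permuted, `wt` is invariant), so `Y' ^ (q ^ m)` is in `Hk ℓ κ` (`exists_pow_mem`, `q = ringExpChar`, prime to `ℓ`) and so is
`Y' ^ ℓ`: `Y'` is in `Hk ℓ κ`. -/
theorem exists_YV [hG : IsGood ℓ (f.map (algebraMap K E))] [IsAlgClosure (Hk ℓ κ) (Tk κ)]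
    (hℓ : ℓ.Prime) (hℓF : (ℓ : F) ≠ 0) (hζ : IsPrimitiveRoot ζ ℓ)
    (hL : LocF F K s v) (hf : f.Monic) {res : E → F}
    (hres : ∀ θ, (f.map (algebraMap K E)).eval θ = 0 → v (θ - algebraMap F E (res θ)) < 1)
    (hi : IsEmbV ℓ s v i) (jE : E →+* Tk κ)
    (hj : ∀ z : K, jE (algebraMap K E z) = algebraMap (Hk ℓ κ) (Tk κ) (i z)) {x y : κ}
    (hF : Fib ℓ ζ (∏ r ∈ (f.map (algebraMap K E)).roots.toFinset.image res,
      (X - C r) ^ ∑ θ ∈ rtsOver (f.map (algebraMap K E)) res r, wt (f.map (algebraMap K E)) θ) x y) :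
    ∃ Y : Hk ℓ κ, Y ^ ℓ = f.eval₂ i (cH ℓ x) := by
  have hE : IsAlgClosed E := hG.alg
  have hpm : (f.map (algebraMap K E)).Monic := hf.map _
  have hp0 : f.map (algebraMap K E) ≠ 0 := hpm.ne_zero
  obtain ⟨r, hr⟩ := exists_resE (i := i) jE hj
  obtain ⟨ρ, hρ1, hρ2⟩ := exists_rhoV hℓ hζ hL hres hi jE hj hF.inj r hr
  have hmem : ∀ θ, θ ∈ (f.map (algebraMap K E)).roots.toFinset ↔
      (f.map (algebraMap K E)).eval θ = 0 := by
    intro θ
    rw [Multiset.mem_toFinset, Polynomial.mem_roots hp0]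
    rfl
  obtain ⟨x', hx'⟩ : ∃ x' : Tk κ, x' = algebraMap (Hk ℓ κ) (Tk κ) (cH ℓ x) := ⟨_, rfl⟩
  obtain ⟨y', hy'⟩ : ∃ y' : Tk κ, y' = algebraMap (Hk ℓ κ) (Tk κ) (cH ℓ y) := ⟨_, rfl⟩
  -- the power of `y`
  have hyl : y' ^ ℓ = ∏ θ ∈ (f.map (algebraMap K E)).roots.toFinset,
      (x' - jE (algebraMap F E (res θ))) ^ wt (f.map (algebraMap K E)) θ := by
    have h1 : ∀ c : F, algebraMap (Hk ℓ κ) (Tk κ) (cH ℓ (aeval x (X - C c))) =
        x' - jE (algebraMap F E c) := by
      intro c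
      have h2 : aeval x (X - C c) = x - algebraMap F κ c := by
        rw [map_sub, aeval_X, aeval_C]
      rw [absT_const hL hi jE hj c, hx', h2, map_sub, map_sub]
    rw [hy', ← map_pow, ← map_pow, hF.eq, map_prod, map_prod, map_prod,
      ← Finset.prod_fiberwise_of_maps_to (g := res)
        (t := (f.map (algebraMap K E)).roots.toFinset.image res)
        (fun _ h => Finset.mem_image_of_mem res h)]
    refine Finset.prod_congr rfl fun t _ => ?_
    rw [map_pow, map_pow, map_pow, h1, ← Finset.prod_pow_eq_pow_sum]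
    refine Finset.prod_congr rfl fun θ hθ => ?_
    rw [(Finset.mem_filter.mp hθ).2]
  -- the value of `f`
  have hfx : algebraMap (Hk ℓ κ) (Tk κ) (f.eval₂ i (cH ℓ x)) =
      ∏ θ ∈ (f.map (algebraMap K E)).roots.toFinset,
        (x' - jE θ) ^ wt (f.map (algebraMap K E)) θ := by
    have h1 : algebraMap (Hk ℓ κ) (Tk κ) (f.eval₂ i (cH ℓ x)) =
        (f.map (algebraMap K E)).eval₂ jE x' := by
      rw [Polynomial.hom_eval₂, Polynomial.eval₂_map, hx']
      congr 1
      ext z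
      exact (hj z).symm
    rw [h1]
    have h2 := congrArg (Polynomial.eval₂ jE x') (v8a_prod hpm)
    rw [h2, Polynomial.eval₂_finsetProd]
    refine Finset.prod_congr rfl fun θ _ => ?_
    rw [Polynomial.eval₂_pow, Polynomial.eval₂_sub, Polynomial.eval₂_X, Polynomial.eval₂_C]
  -- the element
  obtain ⟨Y', hY'⟩ : ∃ Y' : Tk κ, Y' = y' * ∏ θ ∈ (f.map (algebraMap K E)).roots.toFinset,
      (ρ θ : Tk κ) ^ wt (f.map (algebraMap K E)) θ := ⟨_, rfl⟩
  have hYl : Y' ^ ℓ = algebraMap (Hk ℓ κ) (Tk κ) (f.eval₂ i (cH ℓ x)) := by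
    rw [hY', hfx, mul_pow, hyl, ← Finset.prod_pow, ← Finset.prod_mul_distrib]
    refine Finset.prod_congr rfl fun θ hθ => ?_
    have h1 := hρ1 θ ((hmem θ).1 hθ)
    rw [← hx'] at h1
    rw [← h1, mul_pow, ← pow_mul, ← pow_mul, mul_comm ℓ, mul_comm]
  have hY0 : Y' ≠ 0 := by
    rw [hY']
    refine mul_ne_zero ?_ (Finset.prod_ne_zero_iff.mpr fun θ _ => pow_ne_zero _ (ρ θ).ne_zero)
    rw [hy']
    intro h0
    apply hF.ne
    have h1 : cH ℓ y = 0 := (map_eq_zero_iff _ (algebraMap (Hk ℓ κ) (Tk κ)).injective).1 h0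
    exact (map_eq_zero_iff _ (cH ℓ (κ := κ)).injective).1 h1
  have hYg : ∀ g : Tk κ ≃ₐ[Hk ℓ κ] Tk κ, g Y' = Y' := by
    intro g
    rw [hY', map_mul, hy', g.commutes, map_prod]
    congr 1
    have h1 : ∀ θ ∈ (f.map (algebraMap K E)).roots.toFinset,
        g ((ρ θ : Tk κ) ^ wt (f.map (algebraMap K E)) θ) =
          (ρ (r g θ) : Tk κ) ^ wt (f.map (algebraMap K E)) (r g θ) := by
      intro θ hθ
      rw [map_pow, hρ2 g θ ((hmem θ).1 hθ), v8a_wt]
    rw [Finset.prod_congr rfl h1]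
    refine Finset.prod_nbij' (fun θ => r g θ) (fun θ => (r g)⁻¹ θ) (fun θ hθ => ?_)
      (fun θ hθ => ?_) (fun θ _ => ?_) (fun θ _ => ?_) fun _ _ => rfl
    · exact (hmem _).2 (v8a_root _ ((hmem θ).1 hθ))
    · exact (hmem _).2 (v8a_root _ ((hmem θ).1 hθ))
    · rw [← AlgEquiv.mul_apply, inv_mul_cancel, AlgEquiv.one_apply]
    · rw [← AlgEquiv.mul_apply, mul_inv_cancel, AlgEquiv.one_apply]
  obtain ⟨m, u, hu⟩ := exists_pow_mem (K := Hk ℓ κ) Y' hYg
  have hH : (ℓ : Hk ℓ κ) ≠ 0 := by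
    intro h0
    apply hℓF
    have h1 : cH ℓ (ℓ : κ) = 0 := by rw [map_natCast]; exact h0
    have h2 : (ℓ : κ) = 0 := (map_eq_zero_iff _ (cH ℓ (κ := κ)).injective).1 h1
    have h3 : algebraMap F κ (ℓ : F) = 0 := by rw [map_natCast]; exact h2
    exact (map_eq_zero_iff _ (algebraMap F κ).injective).1 h3
  obtain ⟨Y, hY⟩ := v8a_mem hY0 ((v8a_exp hℓ hH).pow_left m) hu hYl
  refine ⟨Y, ?_⟩
  apply (algebraMap (Hk ℓ κ) (Tk κ)).injective
  rw [map_pow, hY, hYl]

end

end Pool.Agent.Lib.MP_89bcae_ag.Brt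

end

section

namespace Pool.Agent.Lib.MP_89bcae_ag.Wt.Lns.LocCtx
end Pool.Agent.Lib.MP_89bcae_ag.Wt.Lns.LocCtx


/-!
# The condition of the special fibre
-/

open Polynomial IsDedekindDomain IsLocalRing

open scoped Classical

namespace Pool.Agent.Lib.MP_89bcae_ag.Brt

open Pool.Agent.Lib.MP_89bcae_ag.Sup (LocCtx plc exists_locCtx)

open Pool.Agent.Lib.MP_89bcae_ag.Wt Pool.Agent.Lib.MP_89bcae_ag.Wt.Lns Pool.Agent.Lib.MP_89bcae_ag.Bra

private lemma v8_add_aux {A : Type*} [AddCommGroup A] {n : ℕ} {p q x₁ x₂ x₃ y₁ y₂ y₃ z w₁ w₂ w₃ : A}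
    (h1 : p + x₁ = x₂ + x₃) (h2 : p + y₁ = q + z + (y₂ + y₃)) (h3 : n • z + w₁ = w₂ + w₃) :
    n • q + (n • x₁ + -(n • y₁) + -w₁) =
      (n • x₂ + -(n • y₂) + -w₂) + (n • x₃ + -(n • y₃) + -w₃) := by
  have e1 : p = x₂ + x₃ - x₁ := eq_sub_of_add_eq h1
  have e2 : q = p + y₁ - z - (y₂ + y₃) := by
    rw [h2]
    abel
  have e3 : w₁ = w₂ + w₃ - n • z := by
    rw [← h3]
    abel
  rw [e2, e1, e3]
  simp only [smul_add, smul_sub]
  abel

private lemma v8_mul_aux {G : Type*} [CommGroup G] {n : ℕ} {p q x₁ x₂ x₃ y₁ y₂ y₃ z w₁ w₂ w₃ : G}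
    (h1 : p * x₁ = x₂ * x₃) (h2 : p * y₁ = q * z * (y₂ * y₃)) (h3 : z ^ n * w₁ = w₂ * w₃) :
    q ^ n * (x₁ ^ n * (y₁ ^ n)⁻¹ * w₁⁻¹) =
      (x₂ ^ n * (y₂ ^ n)⁻¹ * w₂⁻¹) * (x₃ ^ n * (y₃ ^ n)⁻¹ * w₃⁻¹) :=
  v8_add_aux (A := Additive G) h1 h2 h3

private lemma v8_zpow_sum {G : Type*} [CommGroup G] {ι : Type*} (S : Finset ι) (z : G)
    (n : ι → ℤ) : ∏ i ∈ S, z ^ n i = z ^ ∑ i ∈ S, n i := by
  induction S using Finset.induction_on with
  | empty => simp
  | insert i S hi ih => rw [Finset.prod_insert hi, Finset.sum_insert hi, zpow_add, ih]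

private lemma v8_zpow_prod {G : Type*} [CommGroup G] {ι : Type*} (S : Finset ι) (z : ι → G)
    (n : ℤ) : (∏ i ∈ S, z i) ^ n = ∏ i ∈ S, z i ^ n := by
  induction S using Finset.induction_on with
  | empty => simp
  | insert i S hi ih => rw [Finset.prod_insert hi, Finset.prod_insert hi, mul_zpow, ih]

/-- Products over the roots and over the residues. -/
private lemma v8_fib {F E : Type} [Field E] (p : E[X]) (res : E → F) {N : Type*} [CommMonoid N]
    (φ : E → N) : ∏ θ ∈ p.roots.toFinset, φ θ =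
      ∏ t ∈ p.roots.toFinset.image res, ∏ θ ∈ rtsOver p res t, φ θ :=
  (Finset.prod_fiberwise_of_maps_to (fun _ h => Finset.mem_image_of_mem res h) φ).symm

private lemma v8_fib_sum {F E : Type} [Field E] (p : E[X]) (res : E → F) {N : Type*}
    [AddCommMonoid N] (φ : E → N) : ∑ θ ∈ p.roots.toFinset, φ θ =
      ∑ t ∈ p.roots.toFinset.image res, ∑ θ ∈ rtsOver p res t, φ θ :=
  (Finset.sum_fiberwise_of_maps_to (fun _ h => Finset.mem_image_of_mem res h) φ).symm

/-- The calculation in the multiplicative group of `Tk κ`. -/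
private lemma v8_key {F E T : Type} [Field E] [CommGroup T] (p : E[X]) (res : E → F) (X : F → T)
    (ρ : E → T) (w : E → ℤ) (l : ℤ) (ε a b c : E → ℤ) (M qa qb qc : F → ℤ) (k : ℤ)
    (h1 : ∀ θ ∈ p.roots.toFinset, l * ε θ = a θ + b θ - c θ)
    (h2 : ∀ t ∈ p.roots.toFinset.image res,
      ∑ θ ∈ rtsOver p res t, w θ * ε θ + qc t = M t * k + (qa t + qb t)) :
    (∏ θ ∈ p.roots.toFinset, (X (res θ) * ρ θ ^ l) ^ (w θ * ε θ)) *
      ((∏ θ ∈ p.roots.toFinset, ρ θ ^ (w θ * c θ)) *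
        ∏ t ∈ p.roots.toFinset.image res, X t ^ qc t) =
    (∏ t ∈ p.roots.toFinset.image res, X t ^ M t) ^ k *
      (((∏ θ ∈ p.roots.toFinset, ρ θ ^ (w θ * a θ)) *
        ∏ t ∈ p.roots.toFinset.image res, X t ^ qa t) *
      ((∏ θ ∈ p.roots.toFinset, ρ θ ^ (w θ * b θ)) *
        ∏ t ∈ p.roots.toFinset.image res, X t ^ qb t)) := by
  have e1 : (∏ θ ∈ p.roots.toFinset, (X (res θ) * ρ θ ^ l) ^ (w θ * ε θ)) =
      (∏ t ∈ p.roots.toFinset.image res, X t ^ ∑ θ ∈ rtsOver p res t, w θ * ε θ) *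
        ∏ θ ∈ p.roots.toFinset, ρ θ ^ (l * (w θ * ε θ)) := by
    have e2 : (∏ θ ∈ p.roots.toFinset, X (res θ) ^ (w θ * ε θ)) =
        ∏ t ∈ p.roots.toFinset.image res, X t ^ ∑ θ ∈ rtsOver p res t, w θ * ε θ := by
      rw [v8_fib p res]
      refine Finset.prod_congr rfl fun t _ => ?_
      rw [← v8_zpow_sum]
      refine Finset.prod_congr rfl fun θ hθ => ?_
      rw [(Finset.mem_filter.mp hθ).2]
    rw [← e2, ← Finset.prod_mul_distrib]
    refine Finset.prod_congr rfl fun θ _ => ?_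
    rw [mul_zpow, ← zpow_mul]
  have e3 : (∏ θ ∈ p.roots.toFinset, ρ θ ^ (l * (w θ * ε θ))) *
      (∏ θ ∈ p.roots.toFinset, ρ θ ^ (w θ * c θ)) =
      (∏ θ ∈ p.roots.toFinset, ρ θ ^ (w θ * a θ)) * ∏ θ ∈ p.roots.toFinset, ρ θ ^ (w θ * b θ) := by
    rw [← Finset.prod_mul_distrib, ← Finset.prod_mul_distrib]
    refine Finset.prod_congr rfl fun θ hθ => ?_
    rw [← zpow_add, ← zpow_add]
    congr 1
    linear_combination w θ * h1 θ hθ
  have e4 : (∏ t ∈ p.roots.toFinset.image res, X t ^ ∑ θ ∈ rtsOver p res t, w θ * ε θ) *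
      (∏ t ∈ p.roots.toFinset.image res, X t ^ qc t) =
      (∏ t ∈ p.roots.toFinset.image res, X t ^ M t) ^ k *
        ((∏ t ∈ p.roots.toFinset.image res, X t ^ qa t) *
          ∏ t ∈ p.roots.toFinset.image res, X t ^ qb t) := by
    rw [v8_zpow_prod, ← Finset.prod_mul_distrib, ← Finset.prod_mul_distrib,
      ← Finset.prod_mul_distrib]
    refine Finset.prod_congr rfl fun t ht => ?_
    rw [← zpow_add, ← zpow_mul, ← zpow_add, ← zpow_add, h2 t ht]
  rw [e1]
  generalize (∏ t ∈ p.roots.toFinset.image res, X t ^ ∑ θ ∈ rtsOver p res t, w θ * ε θ) = A1 at e4 ⊢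
  generalize (∏ θ ∈ p.roots.toFinset, ρ θ ^ (l * (w θ * ε θ))) = A2 at e3 ⊢
  generalize (∏ θ ∈ p.roots.toFinset, ρ θ ^ (w θ * c θ)) = A3 at e3 ⊢
  generalize (∏ t ∈ p.roots.toFinset.image res, X t ^ qc t) = A4 at e4 ⊢
  generalize (∏ t ∈ p.roots.toFinset.image res, X t ^ M t) ^ k = A5 at e4 ⊢
  generalize (∏ θ ∈ p.roots.toFinset, ρ θ ^ (w θ * a θ)) = A6 at e3 ⊢
  generalize (∏ t ∈ p.roots.toFinset.image res, X t ^ qa t) = A7 at e4 ⊢
  generalize (∏ θ ∈ p.roots.toFinset, ρ θ ^ (w θ * b θ)) = A8 at e3 ⊢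
  generalize (∏ t ∈ p.roots.toFinset.image res, X t ^ qb t) = A9 at e4 ⊢
  calc A1 * A2 * (A3 * A4) = (A1 * A4) * (A2 * A3) := by
        rw [mul_comm A3 A4, mul_mul_mul_comm]
    _ = A5 * (A7 * A9) * (A6 * A8) := by rw [e3, e4]
    _ = A5 * (A6 * A7 * (A8 * A9)) := by
        rw [mul_assoc, mul_comm (A7 * A9), mul_mul_mul_comm]

section

variable {K E : Type} [Field K] [Field E] [Algebra K E] {f : K[X]}

private lemma v8_root (g : E ≃ₐ[K] E) {θ : E} (h : (f.map (algebraMap K E)).eval θ = 0) :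
    (f.map (algebraMap K E)).eval (g θ) = 0 := by
  rw [Polynomial.eval_map_algebraMap] at h ⊢
  have h1 : aeval (g θ) f = g (aeval θ f) := Polynomial.aeval_algHom_apply g.toAlgHom θ f
  rw [h1, h, map_zero]

private lemma v8_wt (g : E ≃ₐ[K] E) (θ : E) :
    wt (f.map (algebraMap K E)) (g θ) = wt (f.map (algebraMap K E)) θ :=
  wt_sym (gs f g) θ

private lemma v8_prod_comp {N : Type*} [CommMonoid N] (S : Finset E) (g : E ≃ₐ[K] E)
    (hS : ∀ θ ∈ S, g θ ∈ S) (hS' : ∀ θ ∈ S, g⁻¹ θ ∈ S) (φ : E → N) :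
    ∏ θ ∈ S, φ (g θ) = ∏ θ ∈ S, φ θ := by
  refine Finset.prod_nbij' (fun θ => g θ) (fun θ => g⁻¹ θ) hS hS' (fun θ _ => ?_) (fun θ _ => ?_)
    fun _ _ => rfl
  · rw [← AlgEquiv.mul_apply, inv_mul_cancel, AlgEquiv.one_apply]
  · rw [← AlgEquiv.mul_apply, mul_inv_cancel, AlgEquiv.one_apply]

private lemma v8_sum_comp {N : Type*} [AddCommMonoid N] (S : Finset E) (g : E ≃ₐ[K] E)
    (hS : ∀ θ ∈ S, g θ ∈ S) (hS' : ∀ θ ∈ S, g⁻¹ θ ∈ S) (φ : E → N) :
    ∑ θ ∈ S, φ (g⁻¹ θ) = ∑ θ ∈ S, φ θ := by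
  refine Finset.sum_nbij' (fun θ => g⁻¹ θ) (fun θ => g θ) hS' hS (fun θ _ => ?_) (fun θ _ => ?_)
    fun _ _ => rfl
  · rw [← AlgEquiv.mul_apply, mul_inv_cancel, AlgEquiv.one_apply]
  · rw [← AlgEquiv.mul_apply, inv_mul_cancel, AlgEquiv.one_apply]

end

private lemma v8_lcH {ℓ : ℕ} {κ : Type} [Field κ] (c : κ) : lcH (cH ℓ c) = c := by
  by_cases h : c = 0
  · subst h
    rw [map_zero]
    exact HahnSeries.leadingCoeff_zero
  · show HahnSeries.leadingCoeff (HahnSeries.C c : LaurentSeries κ) = c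
    exact HahnSeries.leadingCoeff_of_single

/-- The integral identity for the sums over the roots with a given residue. -/
private lemma v8_arith {l A Ah Ag Agh qh qg qgh χg χh χgh ep M : ℤ} (hl : l ≠ 0)
    (h0 : l * A = Ah + Ag - Agh) (h1 : l * qh = Ah - χh * M) (h2 : l * qg = Ag - χg * M)
    (h3 : l * qgh = Agh - χgh * M) (h4 : χg + χh = χgh + l * ep) :
    A + qgh = M * ep + (qh + qg) := by
  refine mul_left_cancel₀ hl ?_
  linear_combination h0 + h3 - h1 - h2 + M * h4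

section

variable {F K E : Type} [Field F] [IsAlgClosed F] [Field K] [Algebra F[X] K] [Field E]
  [Algebra K E] [Algebra F E] [IsAlgClosure K E] {ℓ : ℕ} [NeZero ℓ] {s : F}
  {ζ : F} {v : AbsoluteValue E ℝ}
  {f : K[X]} [hG : IsGood ℓ (f.map (algebraMap K E))]

/-- The condition of the special fibre. PROOF. Generalises `exists_cond` in `Bra/Vh.lean` (read it first). Let `V r` be the sum of the
`wt θ` over the roots with residue `r`, `R` the set of the residues. `exists_fib` for `∏ (X - C r) ^ V r` (its degree is the sum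
of the `wt θ`, the degree of `f`, prime to `ℓ` by `hG.coprime`) gives `κ`, `x`, `y`; `isAlgClosure_Hk`; `i` by `exists_isEmbV`; `jE`; `Y` by
`exists_YV`; `ψ` by `exists_psi`; `r` by `exists_resE`; `hu` gives `A₀`; `psi_symU`; `ρ` by `exists_rhoV`; `isChi_comp`. By `hM` there are
integers `q g r` with `∑ wt θ e g θ = χ g M r + ℓ q g r` (sum over the roots with residue `r`), `q` is continuous in `g`. Then
`∑ wt θ ε g h θ = ep ℓ χ g h M r + q h r + q g r - q (g h) r` (sum over the roots with residue `r`; multiply by `ℓ`: `eps`, the roots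
with residue `r` are permuted by `g` (`res_conj`), `wt` is invariant, `IsChi.add_eq`). Let `u = ∏ r, (x - r) ^ (M r)` in `κ`, product over
`R`, and `B g = ∏ θ, ρ θ ^ (wt θ e (r g) θ) * ∏ r, (x - r) ^ (q (r g) r)` in `(Tk κ)ˣ`. As `x - θ = (x - res θ) ρ θ ^ ℓ`,
`ψ (Fe (ε g h)) = ∏ (x - θ) ^ (wt θ ε g h θ) = ∏ r, (x - r) ^ (∑ wt θ ε g h θ) * ∏ θ, ρ θ ^ (wt θ ℓ ε g h θ)
= u ^ (ep ℓ χ g h) * (g (B h) * B g / B (g h))` (with `r g`, `r h` in the places of `g`, `h` on the side of `K`). So with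
`A g = A₀ g ^ n * ((Ψ (m (r g)) * B g) ^ n)⁻¹ * (J (β (r g)))⁻¹`, as in `exists_cond`, `(u ^ n) ^ ep * A (g h) = g (A h) * A g` (for
`r` applied), `lc_pow` gives `(u ^ n) ^ m' = w ^ ℓ` in `κ` (the leading coefficient of the constant `u`; `cH`), and `kummer_fib` gives
`c` with `ℓ ∣ M r - c V r` for `r` in `R`. For `r` not in `R` the sums in `hM` are empty and `ℓ ∣ χ g M r` for all `g`; with
`χ σ = 1` (`exists_chi_one`) `ℓ ∣ M r`. -/
theorem exists_condV (hℓ : ℓ.Prime) (hℓF : (ℓ : F) ≠ 0) (hζ : IsPrimitiveRoot ζ ℓ)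
    (hL : LocF F K s v) (hf : f.Monic) {res : E → F}
    (hres : ∀ θ, (f.map (algebraMap K E)).eval θ = 0 → v (θ - algebraMap F E (res θ)) < 1)
    {ϖ : E} {χ : (E ≃ₐ[K] E) → ℕ} (hχ : IsChi ℓ (algebraMap F[X] K (C ζ)) ϖ χ)
    (hϖ : ϖ ^ ℓ = algebraMap K E (algebraMap F[X] K X) - algebraMap F E s)
    {b : (E ≃ₐ[K] E) → (E ≃ₐ[K] E) → (FunField ℓ (f.map (algebraMap K E)))ˣ}
    {C : (E ≃ₐ[K] E) → (Pt ℓ (f.map (algebraMap K E)) →₀ ℤ)} (hu : LUnr F s b)
    {e : (E ≃ₐ[K] E) → E → ℤ} {ε : (E ≃ₐ[K] E) → (E ≃ₐ[K] E) → E → ℤ}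
    {Q : Jac ℓ (f.map (algebraMap K E))}
    {m : (E ≃ₐ[K] E) → (FunField ℓ (f.map (algebraMap K E)))ˣ}
    {a₀ : (E ≃ₐ[K] E) → (E ≃ₐ[K] E) → Eˣ} (hD : RamData b C e ε Q m a₀)
    (ha₀ : ∃ n : ℕ, n.Coprime ℓ ∧ IsCoboundary fun g h => a₀ g h ^ n) (M : F → ℤ)
    (hM : ∀ g r, (ℓ : ℤ) ∣ ∑ θ ∈ rtsOver (f.map (algebraMap K E)) res r,
      (wt (f.map (algebraMap K E)) θ : ℤ) * e g θ - χ g * M r) :
    ∃ c : ℤ, ∀ r : F, (ℓ : ℤ) ∣ M r - c * ∑ θ ∈ rtsOver (f.map (algebraMap K E)) res r,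
      (wt (f.map (algebraMap K E)) θ : ℤ) := by
  have hg0 : f.map (algebraMap K E) ≠ 0 := f_ne_zero ℓ _
  have hmemr : ∀ θ, θ ∈ (f.map (algebraMap K E)).roots.toFinset ↔
      (f.map (algebraMap K E)).eval θ = 0 := by
    intro θ
    rw [Multiset.mem_toFinset, mem_roots hg0]
    rfl
  have hmemo : ∀ t θ, θ ∈ rtsOver (f.map (algebraMap K E)) res t ↔
      (f.map (algebraMap K E)).eval θ = 0 ∧ res θ = t := by
    intro t θ
    unfold rtsOver
    rw [Finset.mem_filter, hmemr]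
  have hclS : ∀ (g : E ≃ₐ[K] E), ∀ θ ∈ (f.map (algebraMap K E)).roots.toFinset,
      g θ ∈ (f.map (algebraMap K E)).roots.toFinset := by
    intro g θ hθ
    rw [hmemr] at hθ ⊢
    exact v8_root g hθ
  have hclO : ∀ (g : E ≃ₐ[K] E) (t : F), ∀ θ ∈ rtsOver (f.map (algebraMap K E)) res t,
      g θ ∈ rtsOver (f.map (algebraMap K E)) res t := by
    intro g t θ hθ
    rw [hmemo] at hθ ⊢
    refine ⟨v8_root g hθ.1, ?_⟩
    rw [res_conj hL hres g hθ.1 (v8_root g hθ.1)]
    exact hθ.2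
  have hE : IsAlgClosed E := IsAlgClosure.isAlgClosed K
  -- the special fibre
  have hdeg : (∏ r ∈ (f.map (algebraMap K E)).roots.toFinset.image res,
      (X - Polynomial.C r) ^ ∑ θ ∈ rtsOver (f.map (algebraMap K E)) res r,
        wt (f.map (algebraMap K E)) θ : F[X]).natDegree = (f.map (algebraMap K E)).natDegree := by
    rw [natDegree_prod _ _ fun i _ => pow_ne_zero _ (X_sub_C_ne_zero _), ← sum_wt,
      show Sup.rts (f.map (algebraMap K E)) = (f.map (algebraMap K E)).roots.toFinset from rfl,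
      v8_fib_sum _ res]
    refine Finset.sum_congr rfl fun i _ => ?_
    rw [natDegree_pow, natDegree_X_sub_C, mul_one]
  obtain ⟨κ, _, _, x, y, hF⟩ := exists_fib hℓ hζ
    (∏ r ∈ (f.map (algebraMap K E)).roots.toFinset.image res,
      (X - Polynomial.C r) ^ ∑ θ ∈ rtsOver (f.map (algebraMap K E)) res r,
        wt (f.map (algebraMap K E)) θ)
    (by rw [hdeg]; exact hG.coprime)
    (Finset.prod_ne_zero_iff.mpr fun i _ => pow_ne_zero _ (X_sub_C_ne_zero _))
  have hℓκ : (ℓ : κ) ≠ 0 := by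
    rw [← map_natCast (algebraMap F κ)]
    exact (_root_.map_ne_zero _).mpr hℓF
  have hζκ : IsPrimitiveRoot (algebraMap F κ ζ) ℓ :=
    hζ.map_of_injective (algebraMap F κ).injective
  have hcl : IsAlgClosure (Hk ℓ κ) (Tk κ) := isAlgClosure_Hk hζκ
  obtain ⟨i, hi⟩ := exists_isEmbV ℓ hL κ
  obtain ⟨jE, hj⟩ : ∃ jE : E →+* Tk κ,
      ∀ z : K, jE (algebraMap K E z) = algebraMap (Hk ℓ κ) (Tk κ) (i z) := by
    let _ : Algebra K (Tk κ) := ((algebraMap (Hk ℓ κ) (Tk κ)).comp i).toAlgebra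
    have hKE : Algebra.IsAlgebraic K E := IsAlgClosure.isAlgebraic
    exact ⟨((IsAlgClosed.lift : E →ₐ[K] Tk κ) : E →+* Tk κ), fun z =>
      (IsAlgClosed.lift : E →ₐ[K] Tk κ).commutes z⟩
  obtain ⟨Y, hY⟩ := exists_YV hℓ hℓF hζ hL hf hres hi jE hj hF
  obtain ⟨ψ, hψc, hψx, hψy⟩ := exists_psi hi.emb jE hj hF.inj f Y hY
  obtain ⟨r, hr⟩ := exists_resE (i := i) jE hj
  obtain ⟨A₀, hA₀c, hA₀⟩ := hu κ i ψ r hi.emb (fun z => by rw [hψc, hj]) ⟨_, hψx.symm⟩
    ⟨_, hψy.symm⟩ (fun g z => by rw [hψc, hψc, hr])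
  have hsym := psi_symU (f := f) hi.emb jE ψ hψc ⟨_, hψx.symm⟩ ⟨_, hψy.symm⟩ r hr
  obtain ⟨n, hn, β, hβc, hβ⟩ := ha₀
  have hχ' := isChi_comp hχ (by rw [hϖ, hL.compat, map_sub, map_sub]) hζ hi.emb jE hj r hr
  obtain ⟨ρ, hρ, hρg⟩ := exists_rhoV hℓ hζ hL hres hi jE hj hF.inj r hr
  have hx0 : ∀ t : F, x - algebraMap F κ t ≠ 0 := by
    intro t h0
    have h3 := hF.inj (X - Polynomial.C t) (by rw [map_sub, aeval_X, aeval_C, h0])
    exact X_sub_C_ne_zero _ h3
  -- the units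
  obtain ⟨J₀, hJ₀⟩ : ∃ J₀ : κˣ →* (Tk κ)ˣ, ∀ z : κˣ,
      ((J₀ z : (Tk κ)ˣ) : Tk κ) = algebraMap (Hk ℓ κ) (Tk κ) (cH ℓ (z : κ)) :=
    ⟨Units.map (((algebraMap (Hk ℓ κ) (Tk κ)).comp (cH ℓ) : κ →+* Tk κ) : κ →* Tk κ), fun _ => rfl⟩
  obtain ⟨X₀, hX₀⟩ : ∃ X₀ : F → κˣ, ∀ t, (X₀ t : κ) = x - algebraMap F κ t :=
    ⟨fun t => Units.mk0 _ (hx0 t), fun _ => rfl⟩
  obtain ⟨q, hq⟩ : ∃ q : (E → ℤ) → ℕ → F → ℤ, ∀ g t, (ℓ : ℤ) * q (e g) (χ g) t =
      ∑ θ ∈ rtsOver (f.map (algebraMap K E)) res t,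
        (wt (f.map (algebraMap K E)) θ : ℤ) * e g θ - χ g * M t :=
    ⟨fun e' k t => (∑ θ ∈ rtsOver (f.map (algebraMap K E)) res t,
      (wt (f.map (algebraMap K E)) θ : ℤ) * e' θ - k * M t) / ℓ,
      fun g t => Int.mul_ediv_cancel' (hM g t)⟩
  set Ψ : (FunField ℓ (f.map (algebraMap K E)))ˣ →* (Tk κ)ˣ :=
    Units.map (ψ : FunField ℓ (f.map (algebraMap K E)) →* Tk κ) with hΨ
  set J : Eˣ →* (Tk κ)ˣ := Units.map (jE : E →* Tk κ) with hJ
  obtain ⟨B', hB'⟩ : ∃ B' : (E → ℤ) → ℕ → (Tk κ)ˣ, ∀ e' k, B' e' k =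
      (∏ θ ∈ (f.map (algebraMap K E)).roots.toFinset,
        ρ θ ^ ((wt (f.map (algebraMap K E)) θ : ℤ) * e' θ)) *
      ∏ t ∈ (f.map (algebraMap K E)).roots.toFinset.image res, J₀ (X₀ t) ^ q e' k t :=
    ⟨_, fun _ _ => rfl⟩
  set u : κˣ := ∏ t ∈ (f.map (algebraMap K E)).roots.toFinset.image res, X₀ t ^ M t with hudef
  have hxs : ∀ θ ∈ (f.map (algebraMap K E)).roots.toFinset,
      Ψ (xs θ) = J₀ (X₀ (res θ)) * ρ θ ^ (ℓ : ℤ) := by
    intro θ hθ
    apply Units.ext
    have h3 : ((xs θ : (FunField ℓ (f.map (algebraMap K E)))ˣ) :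
        FunField ℓ (f.map (algebraMap K E))) = polyF (X - Polynomial.C θ) := coe_ofPoly _
    have h4 : ((Ψ (xs θ) : (Tk κ)ˣ) : Tk κ) = ψ (polyF (X - Polynomial.C θ)) := congrArg ψ h3
    rw [h4, map_sub, map_sub, hψx, Units.val_mul, hJ₀, hX₀, zpow_natCast, Units.val_pow_eq_pow_val,
      map_sub, map_sub, ← absT_const hL hi jE hj, mul_comm, hρ θ ((hmemr θ).1 hθ)]
    exact congrArg _ (hψc θ)
  have hFe : ∀ e' : E → ℤ, Ψ (Fe (ℓ := ℓ) (f.map (algebraMap K E)) e') =
      ∏ θ ∈ (f.map (algebraMap K E)).roots.toFinset,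
        (J₀ (X₀ (res θ)) * ρ θ ^ (ℓ : ℤ)) ^ ((wt (f.map (algebraMap K E)) θ : ℤ) * e' θ) := by
    intro e'
    unfold Fe
    rw [map_prod]
    refine Finset.prod_congr rfl fun θ hθ => ?_
    rw [map_zpow, hxs θ hθ]
  have hℓ0 : (ℓ : ℤ) ≠ 0 := Int.natCast_ne_zero.mpr hℓ.ne_zero
  have hkey : ∀ g h : Tk κ ≃ₐ[Hk ℓ κ] Tk κ,
      Ψ (Fe (ℓ := ℓ) (f.map (algebraMap K E)) (ε (r g) (r h))) *
        B' (e (r (g * h))) (χ (r (g * h))) =
      J₀ u ^ ep ℓ χ (r g) (r h) *
        (Units.map ((g : Tk κ →ₐ[Hk ℓ κ] Tk κ) : Tk κ →* Tk κ) (B' (e (r h)) (χ (r h))) *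
          B' (e (r g)) (χ (r g))) := by
    intro g h
    have e1 : Units.map ((g : Tk κ →ₐ[Hk ℓ κ] Tk κ) : Tk κ →* Tk κ) (B' (e (r h)) (χ (r h))) =
        (∏ θ ∈ (f.map (algebraMap K E)).roots.toFinset,
          ρ θ ^ ((wt (f.map (algebraMap K E)) θ : ℤ) * e (r h) ((r g)⁻¹ θ))) *
        ∏ t ∈ (f.map (algebraMap K E)).roots.toFinset.image res,
          J₀ (X₀ t) ^ q (e (r h)) (χ (r h)) t := by
      rw [hB', map_mul, map_prod, map_prod]
      congr 1
      · refine Eq.trans ?_ (v8_prod_comp _ (r g) (hclS (r g)) (hclS (r g)⁻¹) fun θ =>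
          ρ θ ^ ((wt (f.map (algebraMap K E)) θ : ℤ) * e (r h) ((r g)⁻¹ θ)))
        refine Finset.prod_congr rfl fun θ hθ => ?_
        rw [map_zpow]
        have e2 : Units.map ((g : Tk κ →ₐ[Hk ℓ κ] Tk κ) : Tk κ →* Tk κ) (ρ θ) = ρ (r g θ) :=
          Units.ext (hρg g θ ((hmemr θ).1 hθ))
        rw [e2, v8_wt, ← AlgEquiv.mul_apply, inv_mul_cancel, AlgEquiv.one_apply]
      · refine Finset.prod_congr rfl fun t _ => ?_
        rw [map_zpow]
        congr 1
        apply Units.ext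
        rw [Units.coe_map, hJ₀]
        exact g.commutes _
    have e3 : J₀ u ^ ep ℓ χ (r g) (r h) = (∏ t ∈ (f.map (algebraMap K E)).roots.toFinset.image res,
        J₀ (X₀ t) ^ M t) ^ (ep ℓ χ (r g) (r h) : ℤ) := by
      rw [zpow_natCast, hudef, map_prod]
      congr 1
      exact Finset.prod_congr rfl fun t _ => map_zpow J₀ _ _
    rw [hFe, e1, e3, hB' (e (r (g * h))), hB' (e (r g))]
    refine v8_key (f.map (algebraMap K E)) res (fun t => J₀ (X₀ t)) ρ
      (fun θ => (wt (f.map (algebraMap K E)) θ : ℤ)) ℓ (ε (r g) (r h))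
      (fun θ => e (r h) ((r g)⁻¹ θ)) (e (r g)) (e (r (g * h))) M (q (e (r h)) (χ (r h)))
      (q (e (r g)) (χ (r g))) (q (e (r (g * h))) (χ (r (g * h)))) _ (fun θ hθ => ?_) fun t _ => ?_
    · rw [map_mul r]
      exact hD.eps (r g) (r h) θ ((hmemr θ).1 hθ)
    · refine v8_arith hℓ0 ?_ (hq (r h) t) (hq (r g) t) (hq (r (g * h)) t) ?_
      · rw [Finset.mul_sum]
        have e4 : ∑ θ ∈ rtsOver (f.map (algebraMap K E)) res t,
            (wt (f.map (algebraMap K E)) θ : ℤ) * e (r h) θ =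
            ∑ θ ∈ rtsOver (f.map (algebraMap K E)) res t,
              (wt (f.map (algebraMap K E)) θ : ℤ) * e (r h) ((r g)⁻¹ θ) := by
          rw [← v8_sum_comp _ (r g) (hclO (r g) t) (hclO (r g)⁻¹ t)]
          refine Finset.sum_congr rfl fun θ _ => ?_
          rw [v8_wt]
        rw [e4, ← Finset.sum_add_distrib, ← Finset.sum_sub_distrib]
        refine Finset.sum_congr rfl fun θ hθ => ?_
        have e5 := hD.eps (r g) (r h) θ ((hmemo t θ).1 hθ).1
        rw [← map_mul r] at e5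
        linear_combination (wt (f.map (algebraMap K E)) θ : ℤ) * e5
      · have e6 := hχ.add_eq (r g) (r h)
        rw [← map_mul r] at e6
        exact_mod_cast e6
  -- the cochain
  set A : (Tk κ ≃ₐ[Hk ℓ κ] Tk κ) → (Tk κ)ˣ := fun g =>
    A₀ g ^ n * ((Ψ (m (r g)) * B' (e (r g)) (χ (r g))) ^ n)⁻¹ * (J (β (r g)))⁻¹ with hAdef
  have hBc : IsCts fun g => B' (e (r g)) (χ (r g)) :=
    (hD.cts_e.comp_r jE r hr).comp₂ (hχ.cts.comp_r jE r hr) B'
  have hAc : IsCts A := (hA₀c.comp₂ ((hD.cts_m.comp_r jE r hr).comp₂ hBc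
    fun w z => Ψ w * z) fun u w => u ^ n * (w ^ n)⁻¹).comp₂
    (hβc.comp_r jE r hr) fun u w => u * (J w)⁻¹
  have hA : ∀ g h, algebraMap (Hk ℓ κ) (Tk κ) (cH ℓ (u : κ) ^ n) ^ ep ℓ (fun g => χ (r g)) g h *
      A (g * h) = g (A h) * A g := by
    intro g h
    set γ : (Tk κ)ˣ →* (Tk κ)ˣ := Units.map ((g : Tk κ →ₐ[Hk ℓ κ] Tk κ) : Tk κ →* Tk κ) with hγ
    have h1 : Ψ (b (r g) (r h)) * A₀ (g * h) = γ (A₀ h) * A₀ g := Units.ext (hA₀ g h)
    have h2 : Ψ (b (r g) (r h)) * (Ψ (m (r (g * h))) * B' (e (r (g * h))) (χ (r (g * h)))) =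
        J₀ u ^ ep ℓ χ (r g) (r h) * J (a₀ (r g) (r h)) *
          (γ (Ψ (m (r h)) * B' (e (r h)) (χ (r h))) * (Ψ (m (r g)) * B' (e (r g)) (χ (r g)))) := by
      have e1 := congrArg Ψ (hD.eq (r g) (r h))
      have e2 : Ψ (cstU (a₀ (r g) (r h))) = J (a₀ (r g) (r h)) := Units.ext (hψc _)
      have e3 : Ψ (symU (gs f (r g)) (m (r h))) = γ (Ψ (m (r h))) := Units.ext (hsym g _)
      rw [map_mul, map_mul, map_mul, map_mul, e2, e3, ← map_mul r] at e1
      rw [← mul_assoc, e1, map_mul γ]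
      have e4 := hkey g h
      generalize Ψ (Fe (ℓ := ℓ) (f.map (algebraMap K E)) (ε (r g) (r h))) = P1 at e4 ⊢
      generalize B' (e (r (g * h))) (χ (r (g * h))) = P2 at e4 ⊢
      generalize J₀ u ^ ep ℓ χ (r g) (r h) = P3 at e4 ⊢
      generalize γ (B' (e (r h)) (χ (r h))) = P4 at e4 ⊢
      generalize B' (e (r g)) (χ (r g)) = P5 at e4 ⊢
      generalize J (a₀ (r g) (r h)) = P6
      generalize γ (Ψ (m (r h))) = P7
      generalize Ψ (m (r g)) = P8
      calc P1 * P6 * (P7 * P8) * P2 = P1 * P2 * (P6 * (P7 * P8)) := by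
            rw [mul_right_comm, mul_right_comm P1 P6 P2, mul_assoc (P1 * P2)]
        _ = P3 * (P4 * P5) * (P6 * (P7 * P8)) := by rw [e4]
        _ = P3 * P6 * (P7 * P4 * (P8 * P5)) := by
            rw [mul_mul_mul_comm, mul_comm (P4 * P5), mul_mul_mul_comm P7 P8 P4 P5]
    have h3 : J (a₀ (r g) (r h)) ^ n * J (β (r (g * h))) = γ (J (β (r h))) * J (β (r g)) := by
      have e1 := congrArg jE (hβ (r g) (r h))
      apply Units.ext
      rw [map_mul, map_mul, hr, Units.val_pow_eq_pow_val, map_pow, ← map_mul r] at e1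
      rw [Units.val_mul, Units.val_pow_eq_pow_val, Units.val_mul]
      exact e1
    have key := v8_mul_aux (n := n) h1 h2 h3
    have e4 : γ (A h) * A g = (γ (A₀ h) ^ n *
        (γ (Ψ (m (r h)) * B' (e (r h)) (χ (r h))) ^ n)⁻¹ * (γ (J (β (r h))))⁻¹) *
        (A₀ g ^ n * ((Ψ (m (r g)) * B' (e (r g)) (χ (r g))) ^ n)⁻¹ * (J (β (r g)))⁻¹) := by
      rw [hAdef]
      simp only [map_mul, map_inv, map_pow]
    have e5 : ((J₀ u ^ ep ℓ χ (r g) (r h)) ^ n * A (g * h) : (Tk κ)ˣ) = γ (A h) * A g := by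
      rw [e4, ← key]
    have e6 := congrArg Units.val e5
    rw [Units.val_mul, Units.val_mul, Units.val_pow_eq_pow_val, Units.val_pow_eq_pow_val,
      hJ₀] at e6
    rw [map_pow, ← pow_mul, mul_comm n, pow_mul]
    exact e6
  obtain ⟨c₀, hc₀⟩ := IsAlgClosed.exists_pow_nat_eq ((-1 : F) ^ (ℓ - 1)) hℓ.pos
  have hu0 : cH ℓ (u : κ) ^ n ≠ 0 :=
    pow_ne_zero _ ((_root_.map_ne_zero _).mpr u.ne_zero)
  obtain ⟨m', w, hm', hw⟩ := lc_pow hζκ hℓκ (c := algebraMap F κ c₀)
    (by rw [← map_pow, hc₀, map_pow, map_neg, map_one]) hχ' (cH ℓ (u : κ) ^ n) hu0 A hAc hA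
  obtain ⟨c, hc⟩ := kummer_fib hℓ hζ _ _ hF M (n * m') (hn.mul_left hm') w (by
    rw [← hw, ← map_pow, v8_lcH, pow_mul, hudef, Units.coe_prod]
    congr 2
    refine Finset.prod_congr rfl fun t _ => ?_
    rw [Units.val_zpow_eq_zpow_val, hX₀])
  refine ⟨c, fun t => ?_⟩
  by_cases ht : t ∈ (f.map (algebraMap K E)).roots.toFinset.image res
  · have h1 := hc t ht
    rw [Nat.cast_sum] at h1
    exact h1
  · have h1 : rtsOver (f.map (algebraMap K E)) res t = ∅ := by
      rw [Finset.eq_empty_iff_forall_notMem]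
      intro θ hθ
      apply ht
      rw [hmemo] at hθ
      rw [← hθ.2]
      exact Finset.mem_image_of_mem _ ((hmemr θ).2 hθ.1)
    obtain ⟨σ, hσ⟩ := exists_chi_one hL hℓF hζ hχ hϖ
    have h2 := hM σ t
    rw [h1, Finset.sum_empty, hσ, Nat.cast_one, one_mul, zero_sub, dvd_neg] at h2
    rw [h1, Finset.sum_empty, mul_zero, sub_zero]
    exact h2

end

end Pool.Agent.Lib.MP_89bcae_ag.Brt

end

section

namespace Pool.Agent.Lib.MP_89bcae_ag.Wt.Lns.LocCtx
end Pool.Agent.Lib.MP_89bcae_ag.Wt.Lns.LocCtx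


/-!
# Residues of the roots
-/

open Polynomial IsDedekindDomain IsLocalRing

open scoped Classical

namespace Pool.Agent.Lib.MP_89bcae_ag.Brt

open Pool.Agent.Lib.MP_89bcae_ag.Sup (LocCtx plc exists_locCtx)

open Pool.Agent.Lib.MP_89bcae_ag.Wt Pool.Agent.Lib.MP_89bcae_ag.Wt.Lns Pool.Agent.Lib.MP_89bcae_ag.Bra

/-! ROW B4 -/

section

variable {F K M : Type} [Field F] [Field K] [Algebra F[X] K] [Field M] [Algebra K M] [Algebra F M]
  [IsAlgClosure K M] {v : AbsoluteValue M ℝ} {a : F} {g : F[X]}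

private lemma B4a_const (v : AbsoluteValue M ℝ) (hc : ∀ c : F, c ≠ 0 → v (algebraMap F M c) = 1) (c : F) :
    v (algebraMap F M c) ≤ 1 := by
  by_cases h : c = 0
  · rw [h, map_zero, v.map_zero]; exact zero_le_one
  · exact (hc c h).le

private lemma B4a_sum (v : AbsoluteValue M ℝ) (hna : ∀ x y : M, v (x + y) ≤ max (v x) (v y)) {ι : Type}
    (s : Finset ι) (f : ι → M) (B : ℝ) (hB : 0 ≤ B) (h : ∀ i ∈ s, v (f i) ≤ B) : v (∑ i ∈ s, f i) ≤ B := by
  induction s using Finset.induction_on with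
  | empty => rw [Finset.sum_empty, v.map_zero]; exact hB
  | insert i s hi ih =>
    rw [Finset.sum_insert hi]
    exact (hna _ _).trans (max_le (h i (Finset.mem_insert_self _ _))
      (ih fun j hj => h j (Finset.mem_insert_of_mem hj)))

private lemma B4a_prod (v : AbsoluteValue M ℝ) (hna : ∀ x y : M, v (x + y) ≤ max (v x) (v y)) (f : M → M) (c : M)
    (hc : v c ≤ 1) (s : Multiset M) (h : ∀ θ ∈ s, v (f θ) ≤ 1 ∧ v (θ - f θ) < 1) :
    v ((s.map (fun θ => c - f θ)).prod) ≤ 1 ∧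
      v ((s.map (fun θ => c - θ)).prod - (s.map (fun θ => c - f θ)).prod) < 1 := by
  induction s using Multiset.induction_on with
  | empty =>
    simp
  | cons θ s ih =>
    obtain ⟨h1, h2⟩ := ih fun x hx => h x (Multiset.mem_cons_of_mem hx)
    obtain ⟨h3, h4⟩ := h θ (Multiset.mem_cons_self _ _)
    have hsub : ∀ x y : M, v x ≤ 1 → v y ≤ 1 → v (x - y) ≤ 1 := by
      intro x y hx hy
      rw [sub_eq_add_neg]
      refine (hna _ _).trans (max_le hx ?_)
      rw [v.map_neg]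
      exact hy
    have h5 : v (c - f θ) ≤ 1 := hsub _ _ hc h3
    have h6 : v (c - θ) ≤ 1 := by
      have h7 : c - θ = (c - f θ) + -(θ - f θ) := by ring
      rw [h7]
      refine (hna _ _).trans (max_le h5 ?_)
      rw [v.map_neg]
      exact h4.le
    rw [Multiset.map_cons, Multiset.prod_cons, Multiset.map_cons, Multiset.prod_cons]
    refine ⟨?_, ?_⟩
    · rw [v.map_mul]
      exact mul_le_one₀ h5 (v.nonneg _) h1
    · have h8 : (c - θ) * (s.map (fun θ => c - θ)).prod - (c - f θ) * (s.map (fun θ => c - f θ)).prod =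
          (c - θ) * ((s.map (fun θ => c - θ)).prod - (s.map (fun θ => c - f θ)).prod) +
            -((θ - f θ) * (s.map (fun θ => c - f θ)).prod) := by ring
      rw [h8]
      refine lt_of_le_of_lt (hna _ _) (max_lt ?_ ?_)
      · rw [v.map_mul]
        exact lt_of_le_of_lt (mul_le_of_le_one_left (v.nonneg _) h6) h2
      · rw [v.map_neg, v.map_mul]
        exact lt_of_le_of_lt (mul_le_of_le_one_right (v.nonneg _) h1) h4

omit [IsAlgClosure K M] in
private lemma B4a_t (hL : LocF F K a v) : v (algebraMap K M (algebraMap F[X] K X)) ≤ 1 := by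
  have h1 : algebraMap K M (algebraMap F[X] K X) =
      (algebraMap K M (algebraMap F[X] K X) - algebraMap F M a) + algebraMap F M a := by ring
  rw [h1]
  exact (hL.ctx.nonarch _ _).trans (max_le hL.ctx.lt_one.le (B4a_const v hL.ctx.const a))

omit [IsAlgClosure K M] in
private lemma B4a_root_le (hL : LocF F K a v) (hg : g.Monic) (hg0 : g.natDegree ≠ 0) {θ : M}
    (hθ : (g.map (algebraMap F M) - C (algebraMap K M (algebraMap F[X] K X))).eval θ = 0) : v θ ≤ 1 := by
  by_contra hcon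
  rw [not_le] at hcon
  have hna := hL.ctx.nonarch
  set n := g.natDegree with hn
  have h1 : (g.map (algebraMap F M)).eval θ = algebraMap K M (algebraMap F[X] K X) := by
    rw [eval_sub, eval_C, sub_eq_zero] at hθ
    exact hθ
  have hm : (g.map (algebraMap F M)).Monic := hg.map _
  have hd : (g.map (algebraMap F M)).natDegree = n := hg.natDegree_map _
  rw [eval_eq_sum_range, hd, Finset.sum_range_succ] at h1
  have hlead : (g.map (algebraMap F M)).coeff n = 1 := by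
    have := hm.coeff_natDegree
    rwa [hd] at this
  rw [hlead, one_mul] at h1
  have hpow : ∀ i, i ≤ n - 1 → v θ ^ i ≤ v θ ^ (n - 1) := fun i hi => pow_le_pow_right₀ hcon.le hi
  have h2 : v (∑ i ∈ Finset.range n, (g.map (algebraMap F M)).coeff i * θ ^ i) ≤ v θ ^ (n - 1) := by
    apply B4a_sum v hna
    · exact pow_nonneg (v.nonneg _) _
    · intro i hi
      rw [v.map_mul, v.map_pow, coeff_map]
      refine (mul_le_of_le_one_left (pow_nonneg (v.nonneg _) _) (B4a_const v hL.ctx.const _)).trans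
        (hpow i ?_)
      have := Finset.mem_range.1 hi
      omega
  have h3 : θ ^ n = algebraMap K M (algebraMap F[X] K X) +
      -(∑ i ∈ Finset.range n, (g.map (algebraMap F M)).coeff i * θ ^ i) := by
    rw [← h1]; ring
  have h4 : v (θ ^ n) ≤ v θ ^ (n - 1) := by
    rw [h3]
    refine (hna _ _).trans (max_le ?_ ?_)
    · exact (B4a_t hL).trans (one_le_pow₀ hcon.le)
    · rw [v.map_neg]
      exact h2
  rw [v.map_pow] at h4
  have h5 : v θ ^ (n - 1) < v θ ^ n := pow_lt_pow_right₀ hcon (by omega)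
  exact absurd h4 (not_le.2 h5)

/-- PROOF. If `v θ > 1` then `v (g(θ)) = (v θ) ^ deg g > 1` (`v` is `≤ 1` on the constants), but `g(θ) = t` and `v t ≤ 1`
(`v (t - a) < 1`). So `v θ ≤ 1`, `hL.ctx.residue`. -/
theorem exists_res_ft (hL : LocF F K a v) (hg : g.Monic) (hg0 : g.natDegree ≠ 0) :
    ∃ res : M → F, ∀ θ,
      (g.map (algebraMap F M) - C (algebraMap K M (algebraMap F[X] K X))).eval θ = 0 →
        v (θ - algebraMap F M (res θ)) < 1 := by
  refine ⟨fun θ => if h : v θ ≤ 1 then (hL.ctx.residue θ h).choose else 0, ?_⟩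
  intro θ hθ
  have h := B4a_root_le hL hg hg0 hθ
  simp only [dif_pos h]
  exact (hL.ctx.residue θ h).choose_spec

/-- PROOF. Let `p = g - t = ∏ (X - θ)` over `M` (the multiset of the roots), `q = ∏ (X - res θ)` in `F[X]`; the coefficients of `p - q` and of `p - (g - a)`
have `v < 1`, so `q = g - a` (`hL.ctx.const`), which is separable: so `p` has no multiple roots and distinct roots have
distinct residues. For `σ` in `Aut(M/K)`, `σ θ` is a root with the same residue (`res_conj`), so `σ θ = θ`. -/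
theorem rational_of_sep (hL : LocF F K a v) (hg : g.Monic) (hsep : (g - C a).Separable) {res : M → F}
    (hres : ∀ θ, (g.map (algebraMap F M) - C (algebraMap K M (algebraMap F[X] K X))).eval θ = 0 →
      v (θ - algebraMap F M (res θ)) < 1) :
    (∀ θ, (g.map (algebraMap F M) - C (algebraMap K M (algebraMap F[X] K X))).eval θ = 0 →
      ∀ σ : M ≃ₐ[K] M, σ θ = θ) ∧
    ∀ θ θ', (g.map (algebraMap F M) - C (algebraMap K M (algebraMap F[X] K X))).eval θ = 0 →
      (g.map (algebraMap F M) - C (algebraMap K M (algebraMap F[X] K X))).eval θ' = 0 →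
      res θ = res θ' → θ = θ' := by
  have hF := hL.ctx.alg
  have hna := hL.ctx.nonarch
  have hM : IsAlgClosed M := IsAlgClosure.isAlgClosed K
  have hcst : ∀ c : F, v (algebraMap F M c) < 1 → c = 0 := by
    intro c hc
    by_contra h0
    rw [hL.ctx.const c h0] at hc
    exact lt_irrefl _ hc
  have hta : v (algebraMap F M a - algebraMap K M (algebraMap F[X] K X)) < 1 := by
    rw [v.map_sub]
    exact hL.ctx.lt_one
  set t : M := algebraMap K M (algebraMap F[X] K X) with ht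
  set p : M[X] := g.map (algebraMap F M) - C t with hp
  have key : ∀ θ θ', p.eval θ = 0 → p.eval θ' = 0 → res θ = res θ' → θ = θ' := by
    by_cases hg0 : g.natDegree = 0
    · -- no roots
      have hg1 : g = 1 := by
        rw [eq_C_of_natDegree_eq_zero hg0]
        have h9 : g.coeff 0 = 1 := by
          have h8 := hg.coeff_natDegree
          rwa [hg0] at h8
        rw [h9, C_1]
      intro θ θ' hθ
      exfalso
      rw [hp, hg1, Polynomial.map_one, eval_sub, eval_one, eval_C, sub_eq_zero] at hθ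
      have h1 : a - 1 = 0 := by
        apply hcst
        rw [map_sub, map_one, hθ]
        exact hta
      rw [sub_eq_zero] at h1
      rw [hg1, h1, C_1, sub_self] at hsep
      exact not_separable_zero hsep
    · have hdeg : (C t : M[X]).degree < (g.map (algebraMap F M)).degree := by
        refine lt_of_le_of_lt degree_C_le ?_
        have h1 : (g.map (algebraMap F M)).Monic := hg.map _
        rw [degree_eq_natDegree h1.ne_zero, hg.natDegree_map]
        exact_mod_cast Nat.pos_of_ne_zero hg0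
      have hpm : p.Monic := (hg.map (algebraMap F M)).sub_of_left hdeg
      have hroot : ∀ θ ∈ p.roots, p.eval θ = 0 := fun θ hθ => (mem_roots hpm.ne_zero).1 hθ
      let q : F[X] := (p.roots.map (fun θ => X - C (res θ))).prod
      have hq : q = g - C a := by
        have hinf : Infinite F := IsAlgClosed.instInfinite
        apply Polynomial.funext
        intro c
        rw [← sub_eq_zero]
        apply hcst
        have h1 := (B4a_prod v hna (fun θ => algebraMap F M (res θ)) (algebraMap F M c)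
          (B4a_const v hL.ctx.const c) p.roots (fun θ hθ => ⟨B4a_const v hL.ctx.const _, hres θ (hroot θ hθ)⟩)).2
        have h2 : (p.roots.map (fun θ => algebraMap F M c - θ)).prod = p.eval (algebraMap F M c) :=
          ((IsAlgClosed.splits p).eval_eq_prod_roots_of_monic hpm _).symm
        have h3 : (p.roots.map (fun θ => algebraMap F M c - algebraMap F M (res θ))).prod =
            algebraMap F M (q.eval c) := by
          rw [eval_multiset_prod, map_multiset_prod, Multiset.map_map, Multiset.map_map]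
          congr 1
          apply Multiset.map_congr rfl
          intro θ _
          simp
        have h4 : p.eval (algebraMap F M c) = algebraMap F M (g.eval c) - t := by
          rw [hp, eval_sub, eval_C, eval_map, eval₂_at_apply]
        have h5 : algebraMap F M (q.eval c - (g - C a).eval c) =
            -((p.roots.map (fun θ => algebraMap F M c - θ)).prod -
              (p.roots.map (fun θ => algebraMap F M c - algebraMap F M (res θ))).prod) +
            (algebraMap F M a - t) := by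
          rw [h2, h3, h4, eval_sub, eval_C, map_sub, map_sub]
          ring
        rw [h5]
        refine lt_of_le_of_lt (hna _ _) (max_lt ?_ hta)
        rw [v.map_neg]
        exact h1
      have hnd : (p.roots.map res).Nodup := by
        have h1 := nodup_roots hsep
        rw [← hq] at h1
        have h2 : q.roots = p.roots.map res := by
          show (p.roots.map (fun θ => X - C (res θ))).prod.roots = p.roots.map res
          have h3 := roots_multiset_prod_X_sub_C (p.roots.map res)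
          rw [Multiset.map_map] at h3
          exact h3
        rwa [h2] at h1
      intro θ θ' hθ hθ' hr
      exact Multiset.inj_on_of_nodup_map hnd θ ((mem_roots hpm.ne_zero).2 hθ) θ'
        ((mem_roots hpm.ne_zero).2 hθ') hr
  refine ⟨?_, key⟩
  intro θ hθ σ
  have hσ : p.eval (σ θ) = 0 := by
    rw [hp, eval_sub, eval_C, sub_eq_zero] at hθ ⊢
    have h1 : (g.map (algebraMap F M)).eval (σ θ) = σ ((g.map (algebraMap F M)).eval θ) := by
      rw [eval_map, eval_map, eval₂_eq_sum_range, eval₂_eq_sum_range, map_sum]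
      apply Finset.sum_congr rfl
      intro i _
      rw [map_mul, map_pow, hL.compat, σ.commutes]
    rw [h1, hθ, ht, σ.commutes]
  exact key _ _ hσ hθ (res_conj hL hres σ hθ hσ)

end

end Pool.Agent.Lib.MP_89bcae_ag.Brt

end

end
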