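import Mathlib
import Pool.Agent.Lib.MP_89bcae_ag.Tk.K025
import Pool.Agent.Lib.MP_89bcae_ag.Tk.K032
import Pool.Agent.Lib.MP_89bcae_ag.Tk.K000

set_option linter.all false
attribute [local instance 100000] Pool.Agent.Lib.MP_89bcae_ag.Brt.tffFields
attribute [local instance 100000] Pool.Agent.Lib.MP_89bcae_ag.Wt.ifrNF Pool.Agent.Lib.MP_89bcae_ag.Wt.iddNF

namespace Pool.Agent.Lib.MP_89bcae_ag.Bra
end Pool.Agent.Lib.MP_89bcae_ag.Bra
namespace Pool.Agent.Lib.MP_89bcae_ag.Sup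
end Pool.Agent.Lib.MP_89bcae_ag.Sup
namespace Pool.Agent.Lib.MP_89bcae_ag.Wt
end Pool.Agent.Lib.MP_89bcae_ag.Wt
namespace Pool.Agent.Lib.MP_89bcae_ag.Wt.Lns
end Pool.Agent.Lib.MP_89bcae_ag.Wt.Lns
namespace Pool.Agent.Lib.MP_89bcae_ag.Wt.Lns.LocCtx
end Pool.Agent.Lib.MP_89bcae_ag.Wt.Lns.LocCtx

namespace Pool.Agent.Lib.MP_89bcae_ag.Wt.Lns.LocCtx
end Pool.Agent.Lib.MP_89bcae_ag.Wt.Lns.LocCtx


/-!
# The ramification data of a cocycle
-/

open Polynomial IsDedekindDomain IsLocalRing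

open scoped Classical

namespace Pool.Agent.Lib.MP_89bcae_ag.Brt

open Pool.Agent.Lib.MP_89bcae_ag.Sup (LocCtx plc exists_locCtx)

open Pool.Agent.Lib.MP_89bcae_ag.Wt Pool.Agent.Lib.MP_89bcae_ag.Wt.Lns Pool.Agent.Lib.MP_89bcae_ag.Bra

/-! ### Helper lemmas for `exists_ramData` -/

section

variable {E : Type} [Field E] {N : ℕ} {p : E[X]} [hG : IsGood N p]

private lemma V7b_cstU_inj {c d : Eˣ} (h : (cstU c : (FunField N p)ˣ) = cstU d) : c = d := by
  have h1 : (cst (c : E) : FunField N p) = cst (d : E) := congrArg Units.val h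
  exact Units.ext ((cst : E →+* FunField N p).injective h1)

omit hG in
private lemma V7b_map (q : E[X]) : ∃ T : Finset E, ∀ σ τ : Sym p,
    (∀ x ∈ T, (σ : E ≃+* E) x = (τ : E ≃+* E) x) →
      q.map ((σ : E ≃+* E) : E →+* E) = q.map ((τ : E ≃+* E) : E →+* E) := by
  refine ⟨q.support.image q.coeff, fun σ τ h => ?_⟩
  ext n
  rw [coeff_map, coeff_map]
  by_cases hn : n ∈ q.support
  · exact h _ (Finset.mem_image_of_mem _ hn)
  · rw [notMem_support_iff.mp hn, map_zero, map_zero]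

private lemma V7b_symE (a : NRing N p) (q : ℕ → E[X])
    (ha : a = ∑ i ∈ Finset.range N, ofPoly (q i) * yy ^ i) : ∃ T : Finset E, ∀ σ τ : Sym p,
      (∀ x ∈ T, (σ : E ≃+* E) x = (τ : E ≃+* E) x) → symE N σ a = symE N τ a := by
  choose T hT using fun i => V7b_map (p := p) (q i)
  refine ⟨(Finset.range N).biUnion T, fun σ τ h => ?_⟩
  rw [ha, map_sum, map_sum]
  refine Finset.sum_congr rfl fun i hi => ?_
  rw [map_mul, map_mul, map_pow, map_pow, R07_symE_yy, R07_symE_yy, R07_symE_ofPoly,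
    R07_symE_ofPoly, hT i σ τ fun x hx => h x (Finset.mem_biUnion.mpr ⟨i, hi, hx⟩)]

private lemma V7b_symU (u : (FunField N p)ˣ) : ∃ T : Finset E, ∀ σ τ : Sym p,
      (∀ x ∈ T, (σ : E ≃+* E) x = (τ : E ≃+* E) x) → symU σ u = symU τ u := by
  obtain ⟨a, b, q, r, hb0, hq, hr, hab⟩ := exists_quot (u : FunField N p)
  obtain ⟨T, hT⟩ := V7b_symE a q hq
  obtain ⟨T', hT'⟩ := V7b_symE b r hr
  refine ⟨T ∪ T', fun σ τ h => ?_⟩
  have h1 := hT σ τ fun x hx => h x (Finset.mem_union_left _ hx)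
  have h2 := hT' σ τ fun x hx => h x (Finset.mem_union_right _ hx)
  ext
  change autF (symE N σ) (u : FunField N p) = autF (symE N τ) (u : FunField N p)
  rw [← hab, map_div₀, map_div₀, autF_algebraMap, autF_algebraMap, autF_algebraMap,
    autF_algebraMap, h1, h2]

private lemma V7b_symE_mul (σ τ : Sym p) (a : NRing N p) (q : ℕ → E[X])
    (ha : a = ∑ i ∈ Finset.range N, ofPoly (q i) * yy ^ i) :
    symE N (σ * τ) a = symE N σ (symE N τ a) := by
  rw [ha, map_sum, map_sum, map_sum]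
  refine Finset.sum_congr rfl fun i _ => ?_
  rw [map_mul, map_mul, map_mul, map_pow, map_pow, map_pow, R07_symE_yy, R07_symE_yy,
    R07_symE_yy, R07_symE_ofPoly, R07_symE_ofPoly, R07_symE_ofPoly, Polynomial.map_map]
  rfl

private lemma V7b_symU_mul (σ τ : Sym p) (u : (FunField N p)ˣ) :
    symU (σ * τ) u = symU σ (symU τ u) := by
  obtain ⟨a, b, q, r, hb0, hq, hr, hab⟩ := exists_quot (u : FunField N p)
  ext
  change autF (symE N (σ * τ)) (u : FunField N p) =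
    autF (symE N σ) (autF (symE N τ) (u : FunField N p))
  rw [← hab, map_div₀, map_div₀, map_div₀, autF_algebraMap, autF_algebraMap, autF_algebraMap,
    autF_algebraMap, autF_algebraMap, autF_algebraMap, V7b_symE_mul σ τ a q hq,
    V7b_symE_mul σ τ b r hr]

private lemma V7b_comm {G : Type} [CommGroup G] {b1 b2 b3 b4 A B C D E F c1 c2 c3 c4 : G}
    (H1 : b1 * B = c1 * (D * A)) (H2 : b2 * C = c2 * (E * B)) (H3 : b3 * F = c3 * (E * D))
    (H4 : b4 * C = c4 * (F * A)) (H5 : b1 * b2 = b3 * b4) : c1 * c2 = c3 * c4 := by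
  refine mul_right_cancel (b := D * A * E * B * F) ?_
  calc c1 * c2 * (D * A * E * B * F) = (c1 * (D * A)) * (c2 * (E * B)) * F := by ac_rfl
    _ = (b1 * B) * (b2 * C) * F := by rw [H1, H2]
    _ = (b1 * b2) * (B * C * F) := by ac_rfl
    _ = (b3 * b4) * (B * C * F) := by rw [H5]
    _ = (b3 * F) * (b4 * C) * B := by ac_rfl
    _ = (c3 * (E * D)) * (c4 * (F * A)) * B := by rw [H3, H4]
    _ = c3 * c4 * (D * A * E * B * F) := by ac_rfl

/-- `Fe` depends only on the values at the roots. -/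
private lemma V7b_Fe_congr {e e' : E → ℤ} (h : ∀ θ, p.eval θ = 0 → e θ = e' θ) :
    (Fe p e : (FunField N p)ˣ) = Fe p e' := by
  have hg0 : p ≠ 0 := f_ne_zero N p
  unfold Fe
  refine Finset.prod_congr rfl fun θ hθ => ?_
  rw [Multiset.mem_toFinset, mem_roots hg0] at hθ
  rw [h θ hθ]

private lemma V7b_Fe_add (e e' : E → ℤ) :
    (Fe p (fun θ => e θ + e' θ) : (FunField N p)ˣ) = Fe p e * Fe p e' := by
  unfold Fe
  rw [← Finset.prod_mul_distrib]
  refine Finset.prod_congr rfl fun θ _ => ?_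
  rw [mul_add, zpow_add]

/-- The roots are permuted. -/
private lemma V7b_perm {M : Type*} [CommMonoid M] (hg0 : p ≠ 0) (σ : Sym p) (F : E → M) :
    ∏ θ ∈ p.roots.toFinset, F ((σ : E ≃+* E) θ) = ∏ θ ∈ p.roots.toFinset, F θ := by
  have hmem : ∀ θ, θ ∈ p.roots.toFinset ↔ p.eval θ = 0 := fun θ => by
    rw [Multiset.mem_toFinset, mem_roots hg0]
    exact Iff.rfl
  refine Finset.prod_bij (fun θ _ => (σ : E ≃+* E) θ) (fun θ hθ => ?_) (fun θ _ θ' _ h => ?_)
    (fun θ hθ => ?_) fun θ _ => rfl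
  · rw [hmem] at hθ ⊢
    exact (eval_sym_eq_zero σ).2 hθ
  · exact (σ : E ≃+* E).injective h
  · refine ⟨(σ : E ≃+* E).symm θ, ?_, (σ : E ≃+* E).apply_symm_apply θ⟩
    rw [hmem] at hθ ⊢
    rw [← eval_sym_eq_zero σ, RingEquiv.apply_symm_apply]
    exact hθ

/-- `symU_xs`. -/
private lemma V7b_symU_Fe (σ : Sym p) (e : E → ℤ) :
    symU σ (Fe p e : (FunField N p)ˣ) = Fe p fun θ => e (((σ⁻¹ : Sym p) : E ≃+* E) θ) := by
  unfold Fe
  have h2 := V7b_perm (f_ne_zero N p) σ fun θ =>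
    (xs θ : (FunField N p)ˣ) ^ ((wt p θ : ℤ) * e (((σ⁻¹ : Sym p) : E ≃+* E) θ))
  rw [map_prod]
  refine Eq.trans (Finset.prod_congr rfl fun θ _ => ?_) h2
  have h1 : ((σ⁻¹ : Sym p) : E ≃+* E) ((σ : E ≃+* E) θ) = θ :=
    (σ : E ≃+* E).symm_apply_apply θ
  rw [map_zpow, symU_xs, h1, wt_sym]

/-- The sum condition is invariant. -/
private lemma V7b_sum_sym (hg0 : p ≠ 0) (σ : Sym p) (e : E → ℤ) :
    ∑ θ ∈ p.roots.toFinset, (wt p θ : ℤ) * e (((σ⁻¹ : Sym p) : E ≃+* E) θ) =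
      ∑ θ ∈ p.roots.toFinset, (wt p θ : ℤ) * e θ := by
  have h1 := V7b_perm (p := p) (M := Multiplicative ℤ) hg0 σ
    (fun θ => Multiplicative.ofAdd ((wt p θ : ℤ) * e (((σ⁻¹ : Sym p) : E ≃+* E) θ)))
  have h2 : ∑ θ ∈ p.roots.toFinset, (wt p ((σ : E ≃+* E) θ) : ℤ) *
      e (((σ⁻¹ : Sym p) : E ≃+* E) ((σ : E ≃+* E) θ)) =
      ∑ θ ∈ p.roots.toFinset, (wt p θ : ℤ) * e (((σ⁻¹ : Sym p) : E ≃+* E) θ) := h1
  rw [← h2]
  refine Finset.sum_congr rfl fun θ _ => ?_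
  have h3 : ((σ⁻¹ : Sym p) : E ≃+* E) ((σ : E ≃+* E) θ) = θ :=
    (σ : E ≃+* E).symm_apply_apply θ
  rw [h3, wt_sym]

end

section

variable {K E : Type} [Field K] [Field E] [Algebra K E] [IsAlgClosure K E] {ℓ : ℕ} {f : K[X]}

omit [IsAlgClosure K E] in
private lemma V7b_inv_apply (g : E ≃ₐ[K] E) (θ : E) :
    (((gs f g)⁻¹ : Sym (f.map (algebraMap K E))) : E ≃+* E) θ = g⁻¹ θ := by
  rw [← map_inv]
  rfl

private lemma V7b_stable (T : Finset E) : ∃ T' : Finset E, T ⊆ T' ∧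
    ∀ g : E ≃ₐ[K] E, ∀ x ∈ T', g x ∈ T' := by
  have hint : ∀ x : E, IsIntegral K x := fun x =>
    (IsAlgClosure.isAlgebraic.isAlgebraic x).isIntegral
  refine ⟨T.biUnion fun x => ((minpoly K x).aroots E).toFinset, fun x hx => ?_, fun g x hx => ?_⟩
  · refine Finset.mem_biUnion.mpr ⟨x, hx, ?_⟩
    rw [Multiset.mem_toFinset, mem_aroots]
    exact ⟨minpoly.ne_zero (hint x), minpoly.aeval K x⟩
  · obtain ⟨y, hy, hxy⟩ := Finset.mem_biUnion.mp hx
    refine Finset.mem_biUnion.mpr ⟨y, hy, ?_⟩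
    rw [Multiset.mem_toFinset, mem_aroots] at hxy ⊢
    refine ⟨hxy.1, ?_⟩
    have h1 : aeval (g x) (minpoly K y) = g (aeval x (minpoly K y)) :=
      aeval_algHom_apply (g : E →ₐ[K] E) x _
    rw [h1, hxy.2, map_zero]

variable [hG : IsGood ℓ (f.map (algebraMap K E))]

/-- A cocycle whose divisor class cochain is a coboundary is, up to a coboundary, constant (the proof of
`icob_of_cl_strong`). -/
private theorem V7b_const {b : (E ≃ₐ[K] E) → (E ≃ₐ[K] E) → (FunField ℓ (f.map (algebraMap K E)))ˣ}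
    {C : (E ≃ₐ[K] E) → (Pt ℓ (f.map (algebraMap K E)) →₀ ℤ)} {ζ : E}
    (hζ : IsPrimitiveRoot ζ ℓ) (hb : ICoc b) (h : IDiv b C)
    (Q : Jac ℓ (f.map (algebraMap K E))) (hQ : ∀ g, cl (C g) = symJ (gs f g) Q - Q) :
    ∃ (m : (E ≃ₐ[K] E) → (FunField ℓ (f.map (algebraMap K E)))ˣ)
      (a₀ : (E ≃ₐ[K] E) → (E ≃ₐ[K] E) → Eˣ), IsCts m ∧ IsCocycle a₀ ∧
      ∀ g h, b g h * m (g * h) = cstU (a₀ g h) * (symU (gs f g) (m h) * m g) := by
  obtain ⟨E₀, hE⟩ := cl_surjective Q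
  have h' := h.add_coboundary (-E₀)
  have hcl : ∀ g, (cl (C g + ((-E₀).mapDomain (Pt.sym (gs f g)) - (-E₀))) :
      Jac ℓ (f.map (algebraMap K E))) = 0 := by
    intro g
    rw [map_add, map_sub, ← symJ_cl, hQ g, map_neg, hE, map_neg]
    abel
  have hμ : ∀ D : Pt ℓ (f.map (algebraMap K E)) →₀ ℤ,
      ∃ u : (FunField ℓ (f.map (algebraMap K E)))ˣ, cl D = 0 → div u = D := by
    intro D
    by_cases hD : cl D = 0
    · obtain ⟨u, hu⟩ := exists_div_of_cl_eq_zero D hD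
      exact ⟨u, fun _ => hu⟩
    · exact ⟨1, fun h => absurd h hD⟩
  choose μ hμ using hμ
  obtain ⟨a, hadef⟩ : ∃ a : (E ≃ₐ[K] E) → (FunField ℓ (f.map (algebraMap K E)))ˣ,
      a = fun g => μ (C g + ((-E₀).mapDomain (Pt.sym (gs f g)) - (-E₀))) := ⟨_, rfl⟩
  have ha : IsCts a := by
    rw [hadef]
    exact h'.continuous.comp μ
  have hda : ∀ g, div (a g) = C g + ((-E₀).mapDomain (Pt.sym (gs f g)) - (-E₀)) := by
    intro g
    rw [hadef]
    exact hμ _ (hcl g)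
  have hc : ∀ g h, ∃ c : Eˣ, b g h * a (g * h) = cstU c * (symU (gs f g) (a h) * a g) := by
    intro g h
    obtain ⟨c, hc⟩ := const_of_div hζ (b g h * a (g * h) * (symU (gs f g) (a h) * a g)⁻¹) (by
      rw [Wt.div_mul, Wt.div_inv, Wt.div_mul, Wt.div_mul, div_symU, hda h, hda g]
      have e1 := h'.div g h
      rw [← hda (g * h)] at e1
      rw [e1]
      exact add_neg_cancel _)
    exact ⟨c, by rw [← hc, inv_mul_cancel_right]⟩
  choose c hc using hc
  refine ⟨a, c, ha, ⟨fun g h j => ?_, ?_⟩, hc⟩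
  · have e3 := congrArg (symU (gs f g)) (hc h j)
    rw [map_mul, map_mul, map_mul, symU_cstU] at e3
    have e2 := hc (g * h) j
    have hgh : symU (gs f (g * h)) (a j) = symU (gs f g) (symU (gs f h) (a j)) := by
      rw [map_mul, V7b_symU_mul]
    rw [hgh, mul_assoc g h j] at e2
    have e4 := hc g (h * j)
    have key := V7b_comm (hc g h) e2 e3 e4 (hb.cocycle g h j)
    rw [← map_mul, ← map_mul] at key
    have key2 := V7b_cstU_inj key
    exact congrArg Units.val key2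
  · obtain ⟨Tb, hTb⟩ := hb.continuous
    obtain ⟨Ta, hTa⟩ := ha
    obtain ⟨Ta', hsub, hst⟩ := V7b_stable (K := K) Ta
    have hfin : (Set.range a).Finite := IsCts.finite_range ⟨Ta, hTa⟩
    choose Tu hTu using fun u : (FunField ℓ (f.map (algebraMap K E)))ˣ =>
      V7b_symU u
    refine ⟨Tb ∪ Ta' ∪ hfin.toFinset.biUnion Tu, fun g g' h h' hg hh => ?_⟩
    have e1 : b g h = b g' h' := hTb _ _ _ _
      (fun x hx => hg x (Finset.mem_union_left _ (Finset.mem_union_left _ hx)))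
      (fun x hx => hh x (Finset.mem_union_left _ (Finset.mem_union_left _ hx)))
    have hg2 : ∀ x ∈ Ta', g x = g' x := fun x hx =>
      hg x (Finset.mem_union_left _ (Finset.mem_union_right _ hx))
    have hh2 : ∀ x ∈ Ta', h x = h' x := fun x hx =>
      hh x (Finset.mem_union_left _ (Finset.mem_union_right _ hx))
    have e2 : a (g * h) = a (g' * h') := hTa _ _ fun x hx => by
      rw [AlgEquiv.mul_apply, AlgEquiv.mul_apply, hh2 x (hsub hx)]
      exact hg2 _ (hst h' x (hsub hx))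
    have e3 : a g = a g' := hTa _ _ fun x hx => hg2 x (hsub hx)
    have e4 : a h = a h' := hTa _ _ fun x hx => hh2 x (hsub hx)
    have e5 : symU (gs f g) (a h) = symU (gs f g') (a h) := by
      refine hTu (a h) _ _ fun x hx => hg x (Finset.mem_union_right _ ?_)
      exact Finset.mem_biUnion.mpr ⟨a h, hfin.mem_toFinset.mpr ⟨h, rfl⟩, hx⟩
    have h1 := hc g h
    have h2 := hc g' h'
    rw [e1, e2, e3, e5, e4] at h1
    exact V7b_cstU_inj (mul_right_cancel (h1.symm.trans h2))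

/-- Generalises `stepB` in `Bra/Vf.lean`. -/
theorem exists_ramData {b : (E ≃ₐ[K] E) → (E ≃ₐ[K] E) → (FunField ℓ (f.map (algebraMap K E)))ˣ}
    {C : (E ≃ₐ[K] E) → (Pt ℓ (f.map (algebraMap K E)) →₀ ℤ)} {ζ : K} (hζ : IsPrimitiveRoot ζ ℓ)
    (hb : ICoc b) (hC : IDiv b C) (hz : (algebraMap K E ζ) ^ ℓ = 1)
    (Q' : Jac ℓ (f.map (algebraMap K E)))
    (hQ' : ∀ g, cl (C g) - zJ (algebraMap K E ζ) hz (cl (C g)) = symJ (gs f g) Q' - Q') :
    ∃ (e : (E ≃ₐ[K] E) → E → ℤ) (ε : (E ≃ₐ[K] E) → (E ≃ₐ[K] E) → E → ℤ)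
      (Q : Jac ℓ (f.map (algebraMap K E)))
      (m : (E ≃ₐ[K] E) → (FunField ℓ (f.map (algebraMap K E)))ˣ)
      (a₀ : (E ≃ₐ[K] E) → (E ≃ₐ[K] E) → Eˣ), RamData b C e ε Q m a₀ := by
  have hζE : IsPrimitiveRoot (algebraMap K E ζ) ℓ :=
    hζ.map_of_injective (algebraMap K E).injective
  have hℓ0 : (ℓ : ℤ) ≠ 0 := Nat.cast_ne_zero.2 hG.ne
  obtain ⟨ν, hν1, hν2, hν3⟩ := exists_normal_rep (f := f) hζE
  obtain ⟨Q, hQ⟩ := exists_sub_zJ (algebraMap K E ζ) hζE Q'
  have hcl : ∀ g h, cl (C (g * h)) = symJ (gs f g) (cl (C h)) + cl (C g) := by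
    intro g h
    have h1 := congrArg cl (hC.div g h)
    rw [map_add, map_add, cl_div, zero_add, ← symJ_cl] at h1
    exact h1
  obtain ⟨d, hd⟩ : ∃ d : (E ≃ₐ[K] E) → Jac ℓ (f.map (algebraMap K E)),
      ∀ g, d g = cl (C g) - (symJ (gs f g) Q - Q) := ⟨_, fun _ => rfl⟩
  have hdz : ∀ g, zJ (algebraMap K E ζ) hz (d g) = d g := by
    intro g
    have h1 := hQ' g
    have h2 : zJ (algebraMap K E ζ) hz (symJ (gs f g) Q) =
        symJ (gs f g) (zJ (algebraMap K E ζ) hz Q) :=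
      zJ_symJ _ hz _ (g.commutes ζ) Q
    have h3 : Q - zJ (algebraMap K E ζ) hz Q = Q' := hQ
    have h4 : symJ (gs f g) Q - symJ (gs f g) (zJ (algebraMap K E ζ) hz Q) =
        symJ (gs f g) Q' := by rw [← map_sub, h3]
    rw [hd, map_sub, map_sub, h2]
    have h5 : zJ (algebraMap K E ζ) hz (cl (C g)) = cl (C g) - (symJ (gs f g) Q' - Q') := by
      rw [← h1]; abel
    rw [h5, ← h4, ← h3]
    abel
  have hdr : ∀ g, ∃ n : E → ℤ, d g = rm n := fun g =>
    exists_rm_of_zJ_eq (algebraMap K E ζ) hζE (d g) (hdz g)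
  have hdadd : ∀ g h, d (g * h) = symJ (gs f g) (d h) + d g := by
    intro g h
    rw [hd (g * h), hd h, hd g, hcl, map_mul, vf_symJ_mul, map_sub, map_sub]
    abel
  obtain ⟨E₀, hE₀⟩ := cl_surjective Q
  have hdcts : IsCts d := by
    have h1 : d = fun g => cl (C g) - (cl (E₀.mapDomain (Pt.sym (gs f g))) - Q) := by
      funext g
      rw [hd, ← symJ_cl, hE₀]
    rw [h1]
    exact hC.continuous.comp₂ (vf_cts_mapDomain E₀) (fun x y => cl x - (cl y - Q))
  -- the exponents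
  obtain ⟨e, he⟩ : ∃ e : (E ≃ₐ[K] E) → E → ℤ, ∀ g, e g = ν (d g) := ⟨_, fun _ => rfl⟩
  have hects : IsCts e := by
    have h1 : e = fun g => ν (d g) := _root_.funext he
    rw [h1]
    exact hdcts.comp ν
  have herm : ∀ g, rm (e g) = d g := by
    intro g
    obtain ⟨n, hn⟩ := hdr g
    rw [he, hn, hν1]
  have hesum : ∀ g, (ℓ : ℤ) ∣ ∑ θ ∈ (f.map (algebraMap K E)).roots.toFinset,
      (wt (f.map (algebraMap K E)) θ : ℤ) * e g θ := by
    intro g
    rw [he]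
    exact hν2 _
  have hdvd : ∀ g h θ, (f.map (algebraMap K E)).eval θ = 0 →
      (ℓ : ℤ) ∣ (e h (g⁻¹ θ) + e g θ) - e (g * h) θ := by
    intro g h
    refine hν3 (fun θ => e h (g⁻¹ θ) + e g θ) (e (g * h)) ?_ ?_ (hesum _)
    · have h1 : (rm fun θ => e h (g⁻¹ θ) + e g θ : Jac ℓ (f.map (algebraMap K E))) =
          (rm fun θ => e h (g⁻¹ θ)) + rm (e g) := rm_add _ _
      have h2 : (rm fun θ => e h (g⁻¹ θ) : Jac ℓ (f.map (algebraMap K E))) =
          symJ (gs f g) (rm (e h)) := by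
        rw [symJ_rm]
        refine rm_congr _ _ fun θ _ => ?_
        rw [V7b_inv_apply, sub_self]
        exact dvd_zero _
      rw [h1, h2, herm, herm, herm, hdadd]
    · have h1 : ∑ θ ∈ (f.map (algebraMap K E)).roots.toFinset,
          (wt (f.map (algebraMap K E)) θ : ℤ) * (e h (g⁻¹ θ) + e g θ) =
          ∑ θ ∈ (f.map (algebraMap K E)).roots.toFinset,
            (wt (f.map (algebraMap K E)) θ : ℤ) * e h θ +
          ∑ θ ∈ (f.map (algebraMap K E)).roots.toFinset,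
            (wt (f.map (algebraMap K E)) θ : ℤ) * e g θ := by
        rw [← V7b_sum_sym (f_ne_zero ℓ (f.map (algebraMap K E))) (gs f g) (e h), ← Finset.sum_add_distrib]
        refine Finset.sum_congr rfl fun θ _ => ?_
        rw [V7b_inv_apply]
        ring
      rw [h1]
      exact dvd_add (hesum _) (hesum _)
  obtain ⟨ε, hε⟩ : ∃ ε : (E ≃ₐ[K] E) → (E ≃ₐ[K] E) → E → ℤ,
      ∀ g h θ, ε g h θ = (e h (g⁻¹ θ) + e g θ - e (g * h) θ) / ℓ := ⟨_, fun _ _ _ => rfl⟩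
  have heps : ∀ g h θ, (f.map (algebraMap K E)).eval θ = 0 →
      (ℓ : ℤ) * ε g h θ = e h (g⁻¹ θ) + e g θ - e (g * h) θ := by
    intro g h θ hθ
    rw [hε]
    exact Int.mul_ediv_cancel' (hdvd g h θ hθ)
  have hinv : ∀ (g : E ≃ₐ[K] E) θ, (f.map (algebraMap K E)).eval θ = 0 →
      (f.map (algebraMap K E)).eval (g⁻¹ θ) = 0 := by
    intro g θ hθ
    have h1 := (eval_sym_eq_zero ((gs f g)⁻¹) (θ := θ)).2 hθ
    rw [V7b_inv_apply] at h1
    exact h1
  -- the cocycle `Fe (ε g h)`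
  obtain ⟨D, hD⟩ : ∃ D : (E ≃ₐ[K] E) → (Pt ℓ (f.map (algebraMap K E)) →₀ ℤ),
      ∀ g, D g = ramDiv fun θ => (wt (f.map (algebraMap K E)) θ : ℤ) * e g θ :=
    ⟨_, fun _ => rfl⟩
  have hclD : ∀ g, cl (D g) = rm (e g) := by
    intro g
    rw [hD]
    rfl
  have hFcoc : ICoc (f := f) (ℓ := ℓ) fun g h => Fe (f.map (algebraMap K E)) (ε g h) := by
    refine ⟨fun g h j => ?_, ?_⟩
    · show Fe (f.map (algebraMap K E)) (ε g h) * Fe (f.map (algebraMap K E)) (ε (g * h) j) =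
        symU (gs f g) (Fe (f.map (algebraMap K E)) (ε h j)) *
          Fe (f.map (algebraMap K E)) (ε g (h * j))
      rw [V7b_symU_Fe, ← V7b_Fe_add, ← V7b_Fe_add]
      refine V7b_Fe_congr fun θ hθ => ?_
      rw [V7b_inv_apply]
      apply mul_left_cancel₀ hℓ0
      have h1 := heps g h θ hθ
      have h2 := heps (g * h) j θ hθ
      have h3 := heps h j (g⁻¹ θ) (hinv g θ hθ)
      have h4 := heps g (h * j) θ hθ
      have h5 : (g * h)⁻¹ θ = h⁻¹ (g⁻¹ θ) := by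
        rw [mul_inv_rev]
        rfl
      rw [h5] at h2
      rw [mul_assoc] at h2
      rw [mul_add, mul_add, h1, h2, h3, h4]
      ring
    · obtain ⟨Te, hTe⟩ := hects
      obtain ⟨Te', hsub, hst⟩ := V7b_stable (K := K) Te
      refine ⟨Te' ∪ (f.map (algebraMap K E)).roots.toFinset, fun g g' h h' hg hh => ?_⟩
      have hg2 : ∀ x ∈ Te', g x = g' x := fun x hx => hg x (Finset.mem_union_left _ hx)
      have hh2 : ∀ x ∈ Te', h x = h' x := fun x hx => hh x (Finset.mem_union_left _ hx)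
      have e2 : e (g * h) = e (g' * h') := hTe _ _ fun x hx => by
        rw [AlgEquiv.mul_apply, AlgEquiv.mul_apply, hh2 x (hsub hx)]
        exact hg2 _ (hst h' x (hsub hx))
      have e3 : e g = e g' := hTe _ _ fun x hx => hg2 x (hsub hx)
      have e4 : e h = e h' := hTe _ _ fun x hx => hh2 x (hsub hx)
      refine V7b_Fe_congr fun θ hθ => ?_
      have e5 : g⁻¹ θ = g'⁻¹ θ := by
        have h1 : g (g⁻¹ θ) = g' (g⁻¹ θ) := by
          refine hg _ (Finset.mem_union_right _ ?_)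
          rw [Multiset.mem_toFinset, mem_roots (f_ne_zero ℓ (f.map (algebraMap K E)))]
          exact hinv g θ hθ
        have h2 : g (g⁻¹ θ) = θ := g.apply_symm_apply θ
        have h3 : g' (g'⁻¹ θ) = θ := g'.apply_symm_apply θ
        apply g'.injective
        rw [← h1, h2, h3]
      rw [hε, hε, e2, e3, e4, e5]
  have hFdiv : IDiv (f := f) (ℓ := ℓ) (fun g h => Fe (f.map (algebraMap K E)) (ε g h)) D := by
    refine ⟨?_, fun g h => ?_⟩
    · have h1 : D = fun g => ramDiv fun θ => (wt (f.map (algebraMap K E)) θ : ℤ) * e g θ :=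
        funext hD
      rw [h1]
      exact hects.comp fun n : E → ℤ => ramDiv fun θ => (wt (f.map (algebraMap K E)) θ : ℤ) * n θ
    · show div (Fe (f.map (algebraMap K E)) (ε g h)) + D (g * h) = _
      rw [div_Fe, hD, hD, hD, mapDomain_sym_ramDiv, ← ramDiv_smul, ← ramDiv_add, ← ramDiv_add]
      refine ramDiv_congr _ _ fun θ hθ => ?_
      have h1 := heps g h θ hθ
      have h2 : wt (f.map (algebraMap K E)) ((((gs f g)⁻¹ : Sym (f.map (algebraMap K E))) :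
          E ≃+* E) θ) = wt (f.map (algebraMap K E)) θ := wt_sym _ θ
      rw [h2, V7b_inv_apply]
      linear_combination (wt (f.map (algebraMap K E)) θ : ℤ) * h1
  have hb' : ICoc (f := f) (ℓ := ℓ)
      fun g h => b g h * (Fe (f.map (algebraMap K E)) (ε g h))⁻¹ := hb.mul hFcoc.inv
  have hC' : IDiv (f := f) (ℓ := ℓ)
      (fun g h => b g h * (Fe (f.map (algebraMap K E)) (ε g h))⁻¹) (C + -D) := hC.mul hFdiv.inv
  obtain ⟨m, a₀, hmc, hac, hm⟩ := V7b_const hζE hb' hC' Q (fun g => by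
    rw [Pi.add_apply, Pi.neg_apply, map_add, map_neg, hclD, herm, hd]
    abel)
  refine ⟨e, ε, Q, m, a₀, hects, hmc, hac, fun g => ?_, hesum, heps, fun g h => ?_⟩
  · rw [herm, hd]
    abel
  · have h1 := hm g h
    have h2 : b g h * m (g * h) = Fe (f.map (algebraMap K E)) (ε g h) *
        (b g h * (Fe (f.map (algebraMap K E)) (ε g h))⁻¹ * m (g * h)) := by
      rw [mul_comm (b g h) (Fe (f.map (algebraMap K E)) (ε g h))⁻¹, mul_assoc,
        mul_inv_cancel_left]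
    rw [h2, h1, mul_assoc]

end

end Pool.Agent.Lib.MP_89bcae_ag.Brt
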