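import Mathlib
import Pool.Agent.Lib.MP_89bcae_ag.Tk.K000
import Pool.Agent.Lib.MP_89bcae_ag.Tk.K022
import Pool.Agent.Lib.MP_89bcae_ag.Tk.K029
import Pool.Agent.Lib.MP_89bcae_ag.Tk.K031
import Pool.Agent.Lib.MP_89bcae_ag.Tk.K032

set_option linter.all false

section

attribute [local instance 100000] Pool.Agent.Lib.MP_89bcae_ag.Brt.tffFields

/-!
# The affine coordinate ring of the generic fibre
-/

open Polynomial

open scoped Classical

namespace Pool.Agent.Lib.MP_89bcae_ag.Brt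

section

variable {F K : Type} [Field F] [Field K] [Algebra F K]

/-- The ring `E[x]`. -/
noncomputable abbrev Rx {F K : Type} [Field F] [Field K] [Algebra F K] (E : IntermediateField F K) (x : K) :
    Subalgebra E K :=
  Algebra.adjoin E {x}

/-- The integral closure of `E[x]` in `K`. -/
noncomputable abbrev Ax {F K : Type} [Field F] [Field K] [Algebra F K] (E : IntermediateField F K) (x : K) :
    Subalgebra (Rx E x) K :=
  integralClosure (Rx E x) K

lemma isPrincipalIdealRing_Rx {E : IntermediateField F K} {x : K} : IsPrincipalIdealRing (Rx E x) := by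
  have h1 : Rx E x = (aeval x : (Polynomial E) →ₐ[_] K).range :=
    Algebra.adjoin_singleton_eq_range_aeval _ x
  rw [h1]
  exact IsPrincipalIdealRing.of_surjective
    (aeval x : (Polynomial E) →ₐ[_] K).rangeRestrict
    (AlgHom.rangeRestrict_surjective _)

/-- Abstract form of the next theorem. -/
theorem dedekindAux {R K₀ K : Type} [CommRing R] [IsDomain R] [IsPrincipalIdealRing R] [Field K₀]
    [Field K] [Algebra R K₀] [IsFractionRing R K₀] [Algebra R K] [Algebra K₀ K]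
    [IsScalarTower R K₀ K] {ℓ : ℕ} (hℓ : ℓ ≠ 0) (hF : (ℓ : K) ≠ 0) {y : K} (hy0 : y ≠ 0) {r₀ : R}
    (hy : algebraMap R K r₀ = y ^ ℓ)
    (hg : ∀ M : Subfield K, (∀ r : R, algebraMap R K r ∈ M) → y ∈ M → M = ⊤) :
    IsDedekindDomain (integralClosure R K) ∧ IsFractionRing (integralClosure R K) K := by
  have hmap : algebraMap K₀ K (algebraMap R K₀ r₀) = y ^ ℓ := by
    rw [← IsScalarTower.algebraMap_apply, hy]
  have hint : IsIntegral K₀ y := by
    refine ⟨X ^ ℓ - C (algebraMap R K₀ r₀), monic_X_pow_sub_C _ hℓ, ?_⟩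
    rw [eval₂_sub, eval₂_pow, eval₂_X, eval₂_C, hmap]
    exact sub_self _
  have htop : IntermediateField.adjoin K₀ {y} = ⊤ := by
    rw [eq_top_iff]
    intro z _
    have h0 := hg (IntermediateField.adjoin K₀ {y}).toSubfield (fun r => ?_)
      (IntermediateField.mem_adjoin_simple_self K₀ y)
    · have h2 : z ∈ (⊤ : Subfield K) := Subfield.mem_top z
      rw [← h0] at h2
      exact h2
    have h1 := (IntermediateField.adjoin K₀ {y}).algebraMap_mem (algebraMap R K₀ r)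
    rw [← IsScalarTower.algebraMap_apply] at h1
    exact h1
  have hfin : FiniteDimensional K₀ K := by
    have h1 : FiniteDimensional K₀ (IntermediateField.adjoin K₀ {y}) :=
      IntermediateField.adjoin.finiteDimensional hint
    rw [htop] at h1
    exact Module.Finite.equiv IntermediateField.topEquiv.toLinearEquiv
  have hsepy : IsSeparable K₀ y := by
    have h1 : (X ^ ℓ - C (algebraMap R K₀ r₀) : K₀[X]).Separable := by
      refine separable_X_pow_sub_C _ ?_ ?_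
      · intro h0
        apply hF
        have h2 := congrArg (algebraMap K₀ K) h0
        rw [map_natCast, map_zero] at h2
        exact h2
      · intro h0
        have h2 := congrArg (algebraMap K₀ K) h0
        rw [hmap, map_zero] at h2
        exact pow_ne_zero ℓ hy0 h2
    refine h1.of_dvd (minpoly.dvd _ _ ?_)
    rw [map_sub, map_pow, aeval_X, aeval_C, hmap]
    exact sub_self _
  have hsep : Algebra.IsSeparable K₀ K := by
    have h1 : Algebra.IsSeparable K₀ (IntermediateField.adjoin K₀ {y}) :=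
      (IntermediateField.isSeparable_adjoin_simple_iff_isSeparable K₀ K).2 hsepy
    rw [htop] at h1
    exact Algebra.IsSeparable.of_algHom _ _ (IntermediateField.topEquiv.symm.toAlgHom)
  exact ⟨integralClosure.isDedekindDomain R K₀ K,
    integralClosure.isFractionRing_of_finite_extension K₀ K⟩

/-- The same over the field of fractions. -/
theorem dedekindAux' {R K : Type} [CommRing R] [IsDomain R] [IsPrincipalIdealRing R]
    [Field K] [Algebra R K] [FaithfulSMul R K] {ℓ : ℕ} (hℓ : ℓ ≠ 0) (hF : (ℓ : K) ≠ 0) {y : K}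
    (hy0 : y ≠ 0) {r₀ : R} (hy : algebraMap R K r₀ = y ^ ℓ)
    (hg : ∀ M : Subfield K, (∀ r : R, algebraMap R K r ∈ M) → y ∈ M → M = ⊤) :
    IsDedekindDomain (integralClosure R K) ∧ IsFractionRing (integralClosure R K) K := by
  letI : Algebra (FractionRing R) K := FractionRing.liftAlgebra R K
  haveI : IsScalarTower R (FractionRing R) K := FractionRing.isScalarTower_liftAlgebra R K
  exact dedekindAux (K₀ := FractionRing R) hℓ hF hy0 hy hg

/-- The integral closure is a Dedekind domain, with field of fractions `K`. -/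
theorem isDedekindDomain_Ax {ℓ : ℕ} (hℓ : ℓ ≠ 0) (hF : (ℓ : F) ≠ 0) {E : IntermediateField F K}
    {x y : K} (hy0 : y ≠ 0) (hy : y ^ ℓ ∈ Rx E x)
    (hg : ∀ M : Subfield K, (∀ r ∈ Rx E x, r ∈ M) → y ∈ M → M = ⊤) :
    IsDedekindDomain (Ax E x) ∧ IsFractionRing (Ax E x) K := by
  have hp : IsPrincipalIdealRing (Rx E x) := isPrincipalIdealRing_Rx
  have hK : (ℓ : K) ≠ 0 := by
    intro h0
    apply hF
    have h3 : algebraMap F K (ℓ : F) = 0 := by
      rw [map_natCast]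
      exact h0
    exact (_root_.map_eq_zero _).1 h3
  exact dedekindAux' (R := Rx E x) hℓ hK hy0 (r₀ := ⟨y ^ ℓ, hy⟩) rfl
    (fun M h1 h2 => hg M (fun r hr => h1 ⟨r, hr⟩) h2)

end

end Pool.Agent.Lib.MP_89bcae_ag.Brt

end

section

attribute [local instance 100000] Pool.Agent.Lib.MP_89bcae_ag.Brt.tffFields
attribute [local instance 100000] Pool.Agent.Lib.MP_89bcae_ag.Wt.ifrNF Pool.Agent.Lib.MP_89bcae_ag.Wt.iddNF

namespace Pool.Agent.Lib.MP_89bcae_ag.Bra
end Pool.Agent.Lib.MP_89bcae_ag.Bra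
namespace Pool.Agent.Lib.MP_89bcae_ag.Sup
end Pool.Agent.Lib.MP_89bcae_ag.Sup
namespace Pool.Agent.Lib.MP_89bcae_ag.Wt
end Pool.Agent.Lib.MP_89bcae_ag.Wt
namespace Pool.Agent.Lib.MP_89bcae_ag.Wt.Lns
end Pool.Agent.Lib.MP_89bcae_ag.Wt.Lns
namespace Pool.Agent.Lib.MP_89bcae_ag.Wt.Lns.LocCtx
end Pool.Agent.Lib.MP_89bcae_ag.Wt.Lns.LocCtx

section

namespace Pool.Agent.Lib.MP_89bcae_ag.Wt.Lns.LocCtx
end Pool.Agent.Lib.MP_89bcae_ag.Wt.Lns.LocCtx


/-!
# The Brauer group of a local field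
-/

open Polynomial IsDedekindDomain IsLocalRing

open scoped Classical

namespace Pool.Agent.Lib.MP_89bcae_ag.Brt

open Pool.Agent.Lib.MP_89bcae_ag.Sup (LocCtx plc exists_locCtx)

open Pool.Agent.Lib.MP_89bcae_ag.Wt Pool.Agent.Lib.MP_89bcae_ag.Wt.Lns Pool.Agent.Lib.MP_89bcae_ag.Bra

/-! ROW V2 -/

/-- The case of `ℓ`-groups. -/
private theorem V2_pgroup {Q : Type} [Field Q] {ℓ : ℕ} (hℓ : ℓ.Prime)
    (hN : ∀ (E G : Type) [Field E] [Algebra Q E] [FiniteDimensional Q E] [Group G] [Fintype G]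
      [MulSemiringAction G E] [FaithfulSMul G E] [SMulCommClass G Q E], Fintype.card G = ℓ →
      ∀ u : E, (∀ g : G, g • u = u) → ∃ z : E, ∏ g : G, g • z = u)
    {E : Type} [Field E] [Algebra Q E] [FiniteDimensional Q E] : ∀ (n : ℕ) (G : Type) [Group G]
    [Finite G] [MulSemiringAction G E] [FaithfulSMul G E] [SMulCommClass G Q E],
    Nat.card G = ℓ ^ n → ∀ b : G → G → Eˣ, Tsn.DCoc b → Tsn.DCob b := by
  have hF : Fact ℓ.Prime := ⟨hℓ⟩
  intro n
  induction n with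
  | zero =>
    intro G _ _ _ _ _ hn b hb
    rw [pow_zero, Nat.card_eq_one_iff_unique] at hn
    obtain ⟨hs, -⟩ := hn
    refine ⟨fun _ => b 1 1, fun g h => ?_⟩
    have hg : g = 1 := Subsingleton.elim _ _
    have hh : h = 1 := Subsingleton.elim _ _
    subst hg
    subst hh
    rw [one_smul]
  | succ n ih =>
    intro G _ _ _ _ _ hn b hb
    obtain ⟨N, hcN'⟩ := Sylow.exists_subgroup_card_pow_prime ℓ (n := n) (G := G)
      (by rw [hn]; exact pow_dvd_pow _ (Nat.le_succ n))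
    have hind : N.index = ℓ := by
      have h1 := N.card_mul_index
      rw [hcN', hn, pow_succ] at h1
      exact Nat.eq_of_mul_eq_mul_left (pow_pos hℓ.pos n) h1
    have hnorm : N.Normal := by
      refine Subgroup.normal_of_index_eq_minFac_card ?_
      rw [hind, hn, hℓ.pow_minFac (Nat.succ_ne_zero n)]
    -- the restriction to `N`
    have h1 := ih N hcN' (fun g h => b g h) fun g h j => hb g h j
    obtain ⟨a, ha⟩ := h1
    classical
    let a' : G → Eˣ := fun g => if hg : g ∈ N then a ⟨g, hg⟩ else 1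
    have ha' : ∀ g ∈ N, ∀ h ∈ N, (b g h : E) * a' (g * h) = g • (a' h : E) * a' g := by
      intro g hg h hh
      have h2 := ha ⟨g, hg⟩ ⟨h, hh⟩
      simp only [a', dif_pos hg, dif_pos hh, dif_pos (N.mul_mem hg hh)]
      exact h2
    -- inflation
    obtain ⟨c, α, hc1, hc2, hc3⟩ := infl_discrete N (fun e he => by
      obtain ⟨f, hf⟩ := Tsn.h90_fin (G := N) (fun g => e g) fun g h => he g g.2 h h.2
      exact ⟨f, fun g hg => hf ⟨g, hg⟩⟩) b hb a' ha'
    have hcN : ∀ g h, (c g h : E) ∈ Tsn.Fix Q E N := fun g h =>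
      (Tsn.mem_Fix N).2 fun n hn => (hc3 g h n hn).2.2
    have hout : ∀ g : G, ∃ n ∈ N, (g : G ⧸ N).out = g * n := fun g => by
      refine ⟨g⁻¹ * (g : G ⧸ N).out, ?_, by group⟩
      rw [← QuotientGroup.eq]
      simp
    have hcout : ∀ g h : G, c (g : G ⧸ N).out (h : G ⧸ N).out = c g h := by
      intro g h
      obtain ⟨n, hn, e1⟩ := hout g
      obtain ⟨n', hn', e2⟩ := hout h
      rw [e1, e2, (hc3 (g * n) h n' hn').2.1, (hc3 g h n hn).1]
    let c' : G ⧸ N → G ⧸ N → (Tsn.Fix Q E N)ˣ := fun q r =>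
      Units.mk0 ⟨c q.out r.out, hcN _ _⟩ fun h => (c q.out r.out).ne_zero (congrArg Subtype.val h)
    have hc'v : ∀ g h : G, (((c' g h : (Tsn.Fix Q E N)ˣ) : Tsn.Fix Q E N) : E) =
        c g h := fun g h => by
      show (c (g : G ⧸ N).out (h : G ⧸ N).out : E) = c g h
      rw [hcout]
    have hc' : Tsn.DCoc c' := by
      intro q r s
      induction q using QuotientGroup.induction_on with | _ g
      induction r using QuotientGroup.induction_on with | _ h
      induction s using QuotientGroup.induction_on with | _ j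
      refine Subtype.ext ?_
      rw [← QuotientGroup.mk_mul, ← QuotientGroup.mk_mul]
      show ((c' g h : Tsn.Fix Q E N) : E) * ((c' ((g * h : G) : G ⧸ N) j : Tsn.Fix Q E N) : E)
        = (((g : G ⧸ N) • (c' h j : Tsn.Fix Q E N) : Tsn.Fix Q E N) : E) *
          ((c' g ((h * j : G) : G ⧸ N) : Tsn.Fix Q E N) : E)
      rw [Tsn.mk_smul_Fix, hc'v, hc'v, hc'v, hc'v]
      exact hc2 g h j
    have hfaith : FaithfulSMul (G ⧸ N) (Tsn.Fix Q E N) := Tsn.faithful_Fix N
    have hcyc : IsCyclic (G ⧸ N) := isCyclic_of_prime_card (p := ℓ) (by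
      rw [← hind]; rfl)
    have := Fintype.ofFinite (G ⧸ N)
    have hcard : Fintype.card (G ⧸ N) = ℓ := by
      rw [← hind, ← Nat.card_eq_fintype_card]
      rfl
    obtain ⟨β, hβ⟩ := Tsn.cyclic_cob hcyc (fun u hu => hN (Tsn.Fix Q E N) (G ⧸ N) hcard u hu) c' hc'
    refine ⟨fun g => α g * Units.map (Tsn.Fix Q E N).val.toMonoidHom (β g), fun g h => ?_⟩
    have h3 := congrArg Subtype.val (hβ g h)
    have h4 : (c g h : E) * ((β ((g * h : G) : G ⧸ N) : Tsn.Fix Q E N) : E) =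
        g • ((β (h : G ⧸ N) : Tsn.Fix Q E N) : E) * ((β (g : G ⧸ N) : Tsn.Fix Q E N) : E) := by
      rw [← hc'v, ← Tsn.mk_smul_Fix N g]
      exact h3
    have h5 := hc1 g h
    show (b g h : E) * (α (g * h) * ((β ((g * h : G) : G ⧸ N) : Tsn.Fix Q E N) : E)) =
      g • ((α h : E) * ((β (h : G ⧸ N) : Tsn.Fix Q E N) : E)) *
        (α g * ((β (g : G ⧸ N) : Tsn.Fix Q E N) : E))
    rw [smul_mul']
    linear_combination ((β ((g * h : G) : G ⧸ N) : Tsn.Fix Q E N) : E) * h5 +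
      (g • (α h : E) * α g) * h4

/-- `Tsn.finite_level` (`Bra/T8.lean`) with the existence of norms as a hypothesis. -/
theorem finite_level_of_norm {Q : Type} [Field Q] {ℓ : ℕ} (hℓ : ℓ.Prime)
    (hN : ∀ (E G : Type) [Field E] [Algebra Q E] [FiniteDimensional Q E] [Group G] [Fintype G]
      [MulSemiringAction G E] [FaithfulSMul G E] [SMulCommClass G Q E], Fintype.card G = ℓ →
      ∀ u : E, (∀ g : G, g • u = u) → ∃ z : E, ∏ g : G, g • z = u)
    {E G : Type} [Field E] [Algebra Q E] [FiniteDimensional Q E] [Group G] [Finite G]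
    [MulSemiringAction G E] [FaithfulSMul G E] [SMulCommClass G Q E] (b : G → G → Eˣ)
    (hb : Tsn.DCoc b) : ∃ m : ℕ, m.Coprime ℓ ∧ Tsn.DCob fun g h => b g h ^ m := by
  classical
  have hF : Fact ℓ.Prime := ⟨hℓ⟩
  let P : Sylow ℓ G := default
  obtain ⟨n, hn⟩ := IsPGroup.iff_card.1 P.isPGroup'
  obtain ⟨a, ha⟩ := V2_pgroup hℓ hN n P hn (fun g h => b g h) fun g h j => hb g h j
  refine ⟨(P : Subgroup G).index, ?_, ?_⟩
  · exact ((Nat.Prime.coprime_iff_not_dvd hℓ).2 P.not_dvd_index).symm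
  · let a' : G → Eˣ := fun g => if hg : g ∈ (P : Subgroup G) then a ⟨g, hg⟩ else 1
    refine Tsn.transfer (P : Subgroup G) b hb a' fun g hg h hh => ?_
    have h2 := ha ⟨g, hg⟩ ⟨h, hh⟩
    simp only [a', dif_pos hg, dif_pos hh, dif_pos ((P : Subgroup G).mul_mem hg hh)]
    exact h2

/-- Triviality of the Brauer group, up to torsion prime to `ℓ`, from the existence of norms. -/
theorem brTriv_of_norm {Q S : Type} [Field Q] [Field S] [Algebra Q S] [IsAlgClosure Q S] {ℓ : ℕ}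
    (hℓ : ℓ.Prime)
    (hN : ∀ (E G : Type) [Field E] [Algebra Q E] [FiniteDimensional Q E] [Group G] [Fintype G]
      [MulSemiringAction G E] [FaithfulSMul G E] [SMulCommClass G Q E], Fintype.card G = ℓ →
      ∀ u : E, (∀ g : G, g • u = u) → ∃ z : E, ∏ g : G, g • z = u) : BrTriv ℓ Q S := by
  intro b hb
  classical
  have hNm : Normal Q S := IsAlgClosure.normal Q S
  obtain ⟨T, hT⟩ := hb.continuous
  have hfin : (Set.range fun p : (S ≃ₐ[Q] S) × (S ≃ₐ[Q] S) => b p.1 p.2).Finite :=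
    finite_range₂ hb.continuous
  obtain ⟨E', hfd, hnorm, hE'⟩ := exists_normal (K := Q)
    (T ∪ hfin.toFinset.image (fun u : Sˣ => (u : S)))
  have hTE : ∀ x ∈ T, x ∈ E' := fun x hx => hE' x (Finset.mem_union_left _ hx)
  have hbE : ∀ g h, (b g h : S) ∈ E' := fun g h => hE' _ (Finset.mem_union_right _
    (Finset.mem_image.2 ⟨b g h, hfin.mem_toFinset.2 ⟨(g, h), rfl⟩, rfl⟩))
  -- the restriction map
  let ρ : (S ≃ₐ[Q] S) →* (E' ≃ₐ[Q] E') := AlgEquiv.restrictNormalHom E'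
  have hρ : ∀ (g : S ≃ₐ[Q] S) (x : E'), ((ρ g x : E') : S) = g (x : S) := fun g x =>
    AlgEquiv.restrictNormal_commutes g E' x
  have hsurj : Function.Surjective ρ := AlgEquiv.restrictNormalHom_surjective S
  let lam : (E' ≃ₐ[Q] E') → (S ≃ₐ[Q] S) := Function.surjInv hsurj
  have hlam : ∀ σ, ρ (lam σ) = σ := Function.surjInv_eq hsurj
  have hagree : ∀ g g' : S ≃ₐ[Q] S, ρ g = ρ g' → ∀ x ∈ T, g x = g' x := by
    intro g g' h x hx
    have h1 := hρ g ⟨x, hTE x hx⟩
    have h2 := hρ g' ⟨x, hTE x hx⟩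
    rw [h] at h1
    exact h1.symm.trans h2
  have key : ∀ g h g' h', ρ g = ρ g' → ρ h = ρ h' → b g h = b g' h' := fun g h g' h' h1 h2 =>
    hT g g' h h' (hagree g g' h1) (hagree h h' h2)
  have comm : SMulCommClass (E' ≃ₐ[Q] E') Q E' := by
    refine ⟨fun g q x => ?_⟩
    rw [Algebra.smul_def, Algebra.smul_def]
    show g (algebraMap Q E' q * x) = algebraMap Q E' q * g x
    rw [map_mul, AlgEquiv.commutes]
  let b' : (E' ≃ₐ[Q] E') → (E' ≃ₐ[Q] E') → E'ˣ := fun σ τ =>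
    Units.mk0 ⟨(b (lam σ) (lam τ) : S), hbE _ _⟩ (by
      intro h
      exact (b (lam σ) (lam τ)).ne_zero (congrArg Subtype.val h))
  have hb' : ∀ σ τ, ((b' σ τ : E') : S) = b (lam σ) (lam τ) := fun σ τ => rfl
  have hcoc : Tsn.DCoc b' := by
    intro σ τ υ
    apply Subtype.ext
    have h1 := hb.cocycle (lam σ) (lam τ) (lam υ)
    have h2 : b (lam σ * lam τ) (lam υ) = b (lam (σ * τ)) (lam υ) :=
      key _ _ _ _ (by rw [map_mul, hlam, hlam, hlam]) rfl
    have h3 : b (lam σ) (lam τ * lam υ) = b (lam σ) (lam (τ * υ)) :=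
      key _ _ _ _ rfl (by rw [map_mul, hlam, hlam, hlam])
    rw [h2, h3] at h1
    have h4 : ((σ • (b' τ υ : E') : E') : S) = lam σ (b (lam τ) (lam υ) : S) := by
      have h5 := hρ (lam σ) (b' τ υ : E')
      rw [hlam] at h5
      exact h5
    show ((b' σ τ : E') : S) * ((b' (σ * τ) υ : E') : S) =
      ((σ • (b' τ υ : E') : E') : S) * ((b' σ (τ * υ) : E') : S)
    rw [h4]
    exact h1
  obtain ⟨m, hm, a', ha'⟩ := finite_level_of_norm hℓ hN (E := E') (G := E' ≃ₐ[Q] E') b' hcoc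
  refine ⟨m, hm, fun g => Units.map (algebraMap E' S : E' →* S) (a' (ρ g)), ?_, ?_⟩
  · refine ⟨Finset.univ.image fun i => ((Module.finBasis Q E' i : E') : S), fun g g' h => ?_⟩
    have h1 : (ρ g).toLinearMap = (ρ g').toLinearMap := by
      refine (Module.finBasis Q E').ext fun i => ?_
      apply Subtype.ext
      have h2 := h _ (Finset.mem_image.2 ⟨i, Finset.mem_univ _, rfl⟩)
      show ((ρ g (Module.finBasis Q E' i) : E') : S) = ((ρ g' (Module.finBasis Q E' i) : E') : S)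
      rw [hρ, hρ]
      exact h2
    have h3 : ρ g = ρ g' := AlgEquiv.ext fun x => DFunLike.congr_fun h1 x
    show Units.map (algebraMap E' S : E' →* S) (a' (ρ g)) =
      Units.map (algebraMap E' S : E' →* S) (a' (ρ g'))
    rw [h3]
  · intro g h
    have h1 := congrArg (fun z : E' => (z : S)) (ha' (ρ g) (ρ h))
    have h2 : ((b' (ρ g) (ρ h) : E') : S) = b g h := by
      rw [hb', key _ _ g h (hlam _) (hlam _)]
    have h3 : ((ρ g • (a' (ρ h) : E') : E') : S) = g ((a' (ρ h) : E') : S) := hρ g _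
    have h4 : (((b' (ρ g) (ρ h) ^ m : E'ˣ) : E') : S) = ((b g h ^ m : Sˣ) : S) := by
      rw [Units.val_pow_eq_pow_val, Units.val_pow_eq_pow_val, ← h2]
      rfl
    show ((b g h ^ m : Sˣ) : S) * ((a' (ρ (g * h)) : E') : S) =
      g ((a' (ρ h) : E') : S) * ((a' (ρ g) : E') : S)
    rw [← h4, ← h3, map_mul]
    exact h1

theorem brTriv_loc {F K M : Type} [Field F] [Field K] [Field M] [Algebra F[X] K] [Algebra K M]
    [Algebra F M] [IsAlgClosure K M] {s : F} {v : AbsoluteValue M ℝ} {ℓ : ℕ} (hℓ : ℓ.Prime)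
    (hℓF : (ℓ : F) ≠ 0) (hL : LocF F K s v) : BrTriv ℓ K M :=
  brTriv_of_norm hℓ fun _ _ => exists_norm_loc hℓ hℓF hL

end Pool.Agent.Lib.MP_89bcae_ag.Brt

end

section

namespace Pool.Agent.Lib.MP_89bcae_ag.Wt.Lns.LocCtx
end Pool.Agent.Lib.MP_89bcae_ag.Wt.Lns.LocCtx


/-!
# The fibres of a general curve
-/

open Polynomial IsDedekindDomain IsLocalRing

open scoped Classical

namespace Pool.Agent.Lib.MP_89bcae_ag.Brt

open Pool.Agent.Lib.MP_89bcae_ag.Sup (LocCtx plc exists_locCtx)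

open Pool.Agent.Lib.MP_89bcae_ag.Wt Pool.Agent.Lib.MP_89bcae_ag.Wt.Lns Pool.Agent.Lib.MP_89bcae_ag.Bra

/-! ROW V11 -/

section

variable {F K E : Type} [Field F] [IsAlgClosed F] [Field K] [Algebra F[X] K] [Field E]
  [Algebra K E] [Algebra F E] [IsAlgClosure K E] {ℓ : ℕ} {s : F} {v : AbsoluteValue E ℝ} {ζ : F}
  {f : K[X]}

omit [IsAlgClosed F] [Algebra F[X] K] [Algebra F E] [IsAlgClosure K E] in
private lemma v11_root (g : E ≃ₐ[K] E) {θ : E} (hθ : (f.map (algebraMap K E)).eval θ = 0) :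
    (f.map (algebraMap K E)).eval (g θ) = 0 := by
  have h1 : (f.map (algebraMap K E)).eval (g θ) = g ((f.map (algebraMap K E)).eval θ) := by
    rw [eval_map_algebraMap, eval_map_algebraMap]
    exact aeval_algHom_apply (g : E →ₐ[K] E) θ f
  rw [h1, hθ, map_zero]

omit [IsAlgClosed F] [Algebra F[X] K] [Algebra F E] [IsAlgClosure K E] in
private lemma v11_wt (g : E ≃ₐ[K] E) (θ : E) :
    wt (f.map (algebraMap K E)) (g θ) = wt (f.map (algebraMap K E)) θ :=
  wt_sym (gs f g) θ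

omit [IsAlgClosure K E] in
/-- The sums over the roots with a given residue are invariant. -/
private lemma v11_sum (hL : LocF F K s v) {res : E → F} (hf0 : f.map (algebraMap K E) ≠ 0)
    (hres : ∀ θ, (f.map (algebraMap K E)).eval θ = 0 → v (θ - algebraMap F E (res θ)) < 1)
    (g : E ≃ₐ[K] E) (r : F) (φ : E → ℤ) :
    ∑ θ ∈ rtsOver (f.map (algebraMap K E)) res r,
      (wt (f.map (algebraMap K E)) θ : ℤ) * φ (g⁻¹ θ) =
    ∑ θ ∈ rtsOver (f.map (algebraMap K E)) res r, (wt (f.map (algebraMap K E)) θ : ℤ) * φ θ := by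
  have hmem : ∀ (g : E ≃ₐ[K] E) (θ : E), θ ∈ rtsOver (f.map (algebraMap K E)) res r →
      g θ ∈ rtsOver (f.map (algebraMap K E)) res r := by
    intro g θ hθ
    unfold rtsOver at hθ ⊢
    rw [Finset.mem_filter, Multiset.mem_toFinset, mem_roots hf0, IsRoot.def] at hθ ⊢
    have h1 := v11_root g hθ.1
    exact ⟨h1, by rw [res_conj hL hres g hθ.1 h1]; exact hθ.2⟩
  refine Finset.sum_nbij' (fun θ => g⁻¹ θ) (fun θ => g θ) ?_ ?_ ?_ ?_ ?_
  · exact fun θ hθ => hmem g⁻¹ θ hθ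
  · exact fun θ hθ => hmem g θ hθ
  · exact fun θ _ => g.apply_symm_apply θ
  · exact fun θ _ => g.symm_apply_apply θ
  · intro θ _
    show (wt (f.map (algebraMap K E)) θ : ℤ) * φ (g⁻¹ θ) =
      (wt (f.map (algebraMap K E)) (g⁻¹ θ) : ℤ) * φ (g⁻¹ θ)
    rw [v11_wt]

variable [hG : IsGood ℓ (f.map (algebraMap K E))]

/-- The main step. -/
private theorem v11_base (hℓ : ℓ.Prime) (hℓF : (ℓ : F) ≠ 0) (hζ : IsPrimitiveRoot ζ ℓ)
    (hL : LocF F K s v) (hf : f.Monic) (hsep : (f.map (algebraMap K E)).Separable) {res : E → F}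
    (hres : ∀ θ, (f.map (algebraMap K E)).eval θ = 0 → v (θ - algebraMap F E (res θ)) < 1)
    (hsha : ShaProp ℓ K (f.map (algebraMap K E)) res)
    {b : (E ≃ₐ[K] E) → (E ≃ₐ[K] E) → (FunField ℓ (f.map (algebraMap K E)))ˣ}
    {C : (E ≃ₐ[K] E) → (Pt ℓ (f.map (algebraMap K E)) →₀ ℤ)} (hb : ICoc b) (hC : IDiv b C)
    (hNZ : NeZero ℓ) (hu : LUnr F s b) (hz : (algebraMap F E ζ) ^ ℓ = 1)
    (Q' : Jac ℓ (f.map (algebraMap K E)))
    (hQ' : ∀ g, cl (C g) - zJ (algebraMap F E ζ) hz (cl (C g)) = symJ (gs f g) Q' - Q') :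
    ∃ Q : Jac ℓ (f.map (algebraMap K E)), ∀ g, cl (C g) = symJ (gs f g) Q - Q := by
  have hEc : IsAlgClosed E := IsAlgClosure.isAlgClosed K
  obtain ⟨ϖ, hϖ⟩ := IsAlgClosed.exists_pow_nat_eq
    (algebraMap K E (algebraMap F[X] K X) - algebraMap F E s) hℓ.pos
  have hϖ0 : ϖ ≠ 0 := by
    rintro rfl
    rw [zero_pow hℓ.ne_zero] at hϖ
    exact hL.ctx.ne (sub_eq_zero.mp hϖ.symm)
  have hzK : IsPrimitiveRoot (algebraMap F[X] K (Polynomial.C ζ)) ℓ :=
    hζ.map_of_injective (f := (algebraMap F[X] K).comp Polynomial.C) (RingHom.injective _)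
  have hϖK : ϖ ^ ℓ = algebraMap K E (algebraMap F[X] K (X - Polynomial.C s)) := by
    rw [hϖ, hL.compat, map_sub, map_sub]
  obtain ⟨χ, hχ⟩ := exists_isChi hℓ hzK hϖ0 ⟨_, hϖK⟩
  obtain ⟨σ, hσ⟩ := exists_chi_one hL hℓF hζ hχ hϖ
  have hz' : (algebraMap K E (algebraMap F[X] K (Polynomial.C ζ))) ^ ℓ = 1 := by
    rw [← hL.compat]
    exact hz
  have hf0 : f.map (algebraMap K E) ≠ 0 := (hf.map _).ne_zero
  obtain ⟨e, ε, Q, m, a₀, hD⟩ := exists_ramData hzK hb hC hz' Q' (by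
    intro g
    rw [G04_zJ_congr (hL.compat ζ).symm hz' hz]
    exact hQ' g)
  have ha₀ := brTriv_loc hℓ hℓF hL a₀ hD.coc
  -- the numbers `M r`
  have hM : ∀ r : F, ∃ M : ℤ, ∀ g : E ≃ₐ[K] E,
      (ℓ : ℤ) ∣ ∑ θ ∈ rtsOver (f.map (algebraMap K E)) res r,
        (wt (f.map (algebraMap K E)) θ : ℤ) * e g θ - χ g * M := by
    intro r
    obtain ⟨a, -, ha⟩ := hom_chi hL hℓF hζ hχ hϖ (A := ZMod ℓ)
      (fun g => ((∑ θ ∈ rtsOver (f.map (algebraMap K E)) res r,
        (wt (f.map (algebraMap K E)) θ : ℤ) * e g θ : ℤ) : ZMod ℓ))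
      (by
        obtain ⟨T, hT⟩ := hD.cts_e
        refine ⟨T, fun g g' h => ?_⟩
        show ((∑ θ ∈ rtsOver (f.map (algebraMap K E)) res r,
          (wt (f.map (algebraMap K E)) θ : ℤ) * e g θ : ℤ) : ZMod ℓ) =
          ((∑ θ ∈ rtsOver (f.map (algebraMap K E)) res r,
          (wt (f.map (algebraMap K E)) θ : ℤ) * e g' θ : ℤ) : ZMod ℓ)
        rw [hT g g' h])
      (by
        intro g h
        show ((∑ θ ∈ rtsOver (f.map (algebraMap K E)) res r,
          (wt (f.map (algebraMap K E)) θ : ℤ) * e (g * h) θ : ℤ) : ZMod ℓ) =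
          ((∑ θ ∈ rtsOver (f.map (algebraMap K E)) res r,
          (wt (f.map (algebraMap K E)) θ : ℤ) * e g θ : ℤ) : ZMod ℓ) +
          ((∑ θ ∈ rtsOver (f.map (algebraMap K E)) res r,
          (wt (f.map (algebraMap K E)) θ : ℤ) * e h θ : ℤ) : ZMod ℓ)
        rw [← Int.cast_add, ← sub_eq_zero, ← Int.cast_sub, ZMod.intCast_zmod_eq_zero_iff_dvd]
        rw [← v11_sum hL hf0 hres g r (e h), ← Finset.sum_add_distrib, ← Finset.sum_sub_distrib]
        refine Finset.dvd_sum fun θ hθ => ?_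
        have hθ' : (f.map (algebraMap K E)).eval θ = 0 := by
          unfold rtsOver at hθ
          rw [Finset.mem_filter, Multiset.mem_toFinset, mem_roots hf0, IsRoot.def] at hθ
          exact hθ.1
        refine ⟨-((wt (f.map (algebraMap K E)) θ : ℤ) * ε g h θ), ?_⟩
        have h1 := hD.eps g h θ hθ'
        linear_combination (wt (f.map (algebraMap K E)) θ : ℤ) * h1)
      (by
        intro g
        rw [nsmul_eq_mul, ZMod.natCast_self, zero_mul])
    refine ⟨(a.val : ℤ), fun g => ?_⟩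
    have h1 := ha g
    rw [← ZMod.intCast_zmod_eq_zero_iff_dvd, Int.cast_sub, h1, nsmul_eq_mul, Int.cast_mul,
      Int.cast_natCast, Int.cast_natCast, ZMod.natCast_val, ZMod.cast_id, sub_self]
  choose M hM using hM
  obtain ⟨c, hc⟩ := exists_condV hℓ hℓF hζ hL hf hres hχ hϖ hu hD ha₀ M (fun g r => hM r g)
  -- the sum over the residues
  have hfib : ∀ φ : E → ℤ, ∑ r ∈ (f.map (algebraMap K E)).roots.toFinset.image res,
      ∑ θ ∈ rtsOver (f.map (algebraMap K E)) res r, φ θ =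
        ∑ θ ∈ (f.map (algebraMap K E)).roots.toFinset, φ θ := by
    intro φ
    unfold rtsOver
    exact Finset.sum_fiberwise_of_maps_to (fun θ hθ => Finset.mem_image_of_mem _ hθ) _
  have hsumM : (ℓ : ℤ) ∣ ∑ r ∈ (f.map (algebraMap K E)).roots.toFinset.image res, M r := by
    have h1 := hD.sum σ
    rw [← hfib] at h1
    have h2 : (ℓ : ℤ) ∣ ∑ r ∈ (f.map (algebraMap K E)).roots.toFinset.image res,
        (∑ θ ∈ rtsOver (f.map (algebraMap K E)) res r,
          (wt (f.map (algebraMap K E)) θ : ℤ) * e σ θ - χ σ * M r) :=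
      Finset.dvd_sum fun r _ => hM r σ
    rw [Finset.sum_sub_distrib, hσ] at h2
    have h3 := dvd_sub h1 h2
    rw [sub_sub_cancel] at h3
    simpa using h3
  have hdeg : ∑ r ∈ (f.map (algebraMap K E)).roots.toFinset.image res,
      ∑ θ ∈ rtsOver (f.map (algebraMap K E)) res r, (wt (f.map (algebraMap K E)) θ : ℤ) =
        (f.map (algebraMap K E)).natDegree := by
    rw [hfib]
    have h1 := sum_wt (f.map (algebraMap K E))
    unfold Sup.rts at h1
    rw [← h1, Nat.cast_sum]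
  have hc0 : (ℓ : ℤ) ∣ c := by
    have h2 : (ℓ : ℤ) ∣ ∑ r ∈ (f.map (algebraMap K E)).roots.toFinset.image res,
        (M r - c * ∑ θ ∈ rtsOver (f.map (algebraMap K E)) res r,
          (wt (f.map (algebraMap K E)) θ : ℤ)) :=
      Finset.dvd_sum fun r _ => hc r
    rw [Finset.sum_sub_distrib, ← Finset.mul_sum, hdeg] at h2
    have h3 := dvd_sub hsumM h2
    rw [sub_sub_cancel] at h3
    have h4 : IsCoprime (ℓ : ℤ) ((f.map (algebraMap K E)).natDegree : ℤ) :=
      (Nat.isCoprime_iff_coprime.2 hG.coprime).symm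
    exact h4.dvd_of_dvd_mul_right h3
  have hMr : ∀ r, (ℓ : ℤ) ∣ M r := by
    intro r
    have h1 := dvd_add (hc r) (hc0.mul_right (∑ θ ∈ rtsOver (f.map (algebraMap K E)) res r,
          (wt (f.map (algebraMap K E)) θ : ℤ)))
    rwa [sub_add_cancel] at h1
  obtain ⟨q, hq⟩ := hsha e hD.cts_e
    (by
      intro g h θ hθ
      exact ⟨ε g h θ, (hD.eps g h θ hθ).symm⟩)
    (by
      intro g r
      have h1 := dvd_add (hM r g) ((hMr r).mul_left (χ g : ℤ))
      rw [sub_add_cancel] at h1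
      have h2 : ∑ θ ∈ rtsOver (f.map (algebraMap K E)) res r, e g θ =
          ∑ θ ∈ rtsOver (f.map (algebraMap K E)) res r,
            (wt (f.map (algebraMap K E)) θ : ℤ) * e g θ := by
        refine Finset.sum_congr rfl fun θ hθ => ?_
        have h3 : wt (f.map (algebraMap K E)) θ = 1 := by
          unfold rtsOver at hθ
          rw [Finset.mem_filter, Multiset.mem_toFinset] at hθ
          have h4 : 0 < wt (f.map (algebraMap K E)) θ := by
            unfold wt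
            rw [rootMultiplicity_pos hf0]
            exact (mem_roots hf0).mp hθ.1
          have h5 : wt (f.map (algebraMap K E)) θ ≤ 1 := by
            unfold wt
            exact rootMultiplicity_le_one_of_separable hsep θ
          omega
        rw [h3, Nat.cast_one, one_mul]
      rw [h2]
      exact h1)
  refine ⟨Q + rm q, fun g => ?_⟩
  have h1 : (rm (e g) : Jac ℓ (f.map (algebraMap K E))) = symJ (gs f g) (rm q) - rm q := by
    rw [symJ_rm, ← rm_sub]
    refine rm_congr _ _ fun θ hθ => ?_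
    rw [← map_inv]
    exact hq g θ hθ
  rw [hD.cl, h1, map_add]
  abel

end

section

variable {F L Ω K E : Type} [Field F] [IsAlgClosed F] [Field L] [Algebra F[X] L] [Field Ω]
  [Algebra L Ω] [IsAlgClosure L Ω] [Field K] [Algebra L K] [Algebra F[X] K] [IsScalarTower F[X] L K]
  [Field E] [Algebra K E] [Algebra L E] [IsScalarTower L K E] [Algebra F E] [IsAlgClosure K E]
  {ℓ : ℕ} {s : F} {v : AbsoluteValue E ℝ} {ζ : F} {f : L[X]}
  [hG : IsGood ℓ (f.map (algebraMap L Ω))]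
  [hG' : IsGood ℓ ((f.map (algebraMap L K)).map (algebraMap K E))]

omit [IsAlgClosure L Ω] [IsAlgClosure K E] in
/-- The class of the rotated cochain. -/
private lemma v11_Cv_rot (j : Ω →ₐ[L] E) (ρ : (E ≃ₐ[K] E) →* (Ω ≃ₐ[L] Ω))
    {C : (Ω ≃ₐ[L] Ω) → (Pt ℓ (f.map (algebraMap L Ω)) →₀ ℤ)} {ζ : L}
    (hz : (algebraMap L Ω ζ) ^ ℓ = 1) (hz' : (algebraMap L E ζ) ^ ℓ = 1) (g : E ≃ₐ[K] E) :
    (cl (Cv (K := K) j ρ (fun g => C g + -((C g).mapDomain (Pt.rot (algebraMap L Ω ζ) hz))) g) :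
      Jac ℓ ((f.map (algebraMap L K)).map (algebraMap K E))) =
    cl (Cv (K := K) j ρ C g) - zJ (algebraMap L E ζ) hz' (cl (Cv (K := K) j ρ C g)) := by
  have hj : (j : Ω →+* E) (algebraMap L Ω ζ) = algebraMap L E ζ := j.commutes ζ
  have hz'' : ((j : Ω →+* E) (algebraMap L Ω ζ)) ^ ℓ = 1 := by rw [hj]; exact hz'
  rw [cl_Cv, cl_Cv, map_add, map_neg, ← zJ_cl, map_add, map_neg,
    ← G04_zJ_congr hj hz'' hz', zJ_jacMap _ _ _ hz hz'']
  exact (sub_eq_add_neg _ _).symm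

/-- If `b` is unramified then the class of `cl C` is trivial over the local field `K`. PROOF. As `vertical` in `Bra/Ver.lean` and
`base_case` in `Bra/Vh.lean` (read them first). `ρ : Aut(E/K) → Aut(Ω/L)` by `exists_rho`, `bv`, `Cv`, `cl_Cv`, `cl_Cv_rot`; the induction on
the power of `1 - Z` which kills `cl (Cv C g)` is the same (`ζ` in `L`: `algebraMap F[X] L (C ζ)`; `iterate_eq_zero_of_smul`). Base case:
`lunr_of_iunr` gives `LUnr F s (bv b)`; `exists_ramData` (over `K`, with `f.map (algebraMap L K)`), `brTriv_loc` for `a₀`; `ϖ ^ ℓ = t - s`,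
`exists_isChi`, `exists_chi_one`. For each residue `r` the sum `∑ wt θ e g θ` over the roots with residue `r` is modulo `ℓ` a continuous
homomorphism to `ZMod ℓ` (`eps`; the roots with residue `r` are permuted, `res_conj`), so `hom_chi` gives `M r`. `exists_condV` gives
`c`; summing over the residues of the roots, `RamData.sum` for `g = σ`, `χ σ = 1` gives `ℓ ∣ ∑ M r`, so `ℓ ∣ c deg f`, `ℓ ∣ c`, `ℓ ∣ M r`.
`wt θ = 1` (`hsep`), so the hypotheses of `hsha` are satisfied by `e`; `q` gives `rm (e g) = g (rm q) - rm q` (`rm_congr`, `rm_sub`,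
`symJ_rm`) and `cl (C g) = g (Q + rm q) - (Q + rm q)`. -/
theorem verticalV (hℓ : ℓ.Prime) (hℓF : (ℓ : F) ≠ 0) (hζ : IsPrimitiveRoot ζ ℓ)
    (hL : LocF F K s v) (hf : f.Monic) (hsep : (f.map (algebraMap L E)).Separable) {res : E → F}
    (hres : ∀ θ, (f.map (algebraMap L E)).eval θ = 0 → v (θ - algebraMap F E (res θ)) < 1)
    (hsha : ShaProp ℓ K (f.map (algebraMap L E)) res)
    (b : (Ω ≃ₐ[L] Ω) → (Ω ≃ₐ[L] Ω) → (FunField ℓ (f.map (algebraMap L Ω)))ˣ) (hb : ICoc b)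
    (hu : IUnr F b) (C : (Ω ≃ₐ[L] Ω) → (Pt ℓ (f.map (algebraMap L Ω)) →₀ ℤ))
    (hC : IDiv b C) (hn : ∃ n : ℕ, ∀ g, ℓ ^ n • (cl (C g) : Jac ℓ (f.map (algebraMap L Ω))) = 0)
    (j : Ω →ₐ[L] E) : ∃ Q : JacOver ℓ f E, ∀ (g : E ≃ₐ[K] E) (g' : Ω ≃ₐ[L] Ω),
      (∀ x, j (g' x) = g (j x)) →
        push ℓ f j (cl (C g')) = push ℓ f (g.restrictScalars L : E →ₐ[L] E) Q - Q := by
  have hNZ : NeZero ℓ := ⟨hℓ.ne_zero⟩
  have hmap : (f.map (algebraMap L K)).map (algebraMap K E) = f.map (algebraMap L E) := by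
    rw [Polynomial.map_map, ← IsScalarTower.algebraMap_eq]
  obtain ⟨ρ, hρ⟩ := exists_rho (K := K) j
  -- the root of unity
  set ζL : L := algebraMap F[X] L (Polynomial.C ζ) with hζL
  have hzL : IsPrimitiveRoot ζL ℓ :=
    hζ.map_of_injective (f := (algebraMap F[X] L).comp Polynomial.C) (RingHom.injective _)
  have hzΩ : IsPrimitiveRoot (algebraMap L Ω ζL) ℓ :=
    hzL.map_of_injective (algebraMap L Ω).injective
  have hzE : IsPrimitiveRoot (algebraMap L E ζL) ℓ :=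
    hzL.map_of_injective (algebraMap L E).injective
  have hzF : algebraMap F E ζ = algebraMap L E ζL := by
    rw [hL.compat, IsScalarTower.algebraMap_apply F[X] L K,
      ← IsScalarTower.algebraMap_apply L K E]
  have h0 : algebraMap L Ω ζL ≠ 0 := hzΩ.ne_zero hℓ.ne_zero
  -- the induction
  have key : ∀ (n : ℕ) (b : (Ω ≃ₐ[L] Ω) → (Ω ≃ₐ[L] Ω) →
      (FunField ℓ (f.map (algebraMap L Ω)))ˣ)
      (C : (Ω ≃ₐ[L] Ω) → (Pt ℓ (f.map (algebraMap L Ω)) →₀ ℤ)),
      ICoc b → IUnr F b → IDiv b C →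
      (∃ Q : Jac ℓ ((f.map (algebraMap L K)).map (algebraMap K E)), ∀ g : E ≃ₐ[K] E,
        (fun x => x - zJ (algebraMap L E ζL) hzE.pow_eq_one x)^[n] (cl (Cv j ρ C g)) =
          symJ (gs _ g) Q - Q) →
      ∃ Q : Jac ℓ ((f.map (algebraMap L K)).map (algebraMap K E)), ∀ g : E ≃ₐ[K] E,
        cl (Cv j ρ C g) = symJ (gs _ g) Q - Q := by
    intro n
    induction n with
    | zero => exact fun b C _ _ _ h => h
    | succ n ih =>
      intro b C hb hu hC ⟨Q, hQ⟩
      obtain ⟨Q', hQ'⟩ := ih _ _ (hb.mul (hb.rot hzΩ.pow_eq_one h0).inv)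
        (hu.mul (hu.rot hzΩ.pow_eq_one h0).inv) (hC.mul (hC.rot hzΩ.pow_eq_one h0).inv)
        ⟨Q, fun g => by
          rw [← hQ g, Function.iterate_succ_apply]
          congr 1
          exact v11_Cv_rot j ρ hzΩ.pow_eq_one hzE.pow_eq_one g⟩
      refine v11_base (s := s) (v := v) (ζ := ζ) (res := res) hℓ hℓF hζ hL (hf.map _)
        (by rw [hmap]; exact hsep) (by rw [hmap]; exact hres) (by rw [hmap]; exact hsha)
        (hb.bv j ρ hρ) (hC.bv j ρ hρ) hNZ
        (lunr_of_iunr j ρ hρ s hu) (by rw [hzF]; exact hzE.pow_eq_one) Q' ?_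
      intro g
      have h1 := v11_Cv_rot (C := C) j ρ hzΩ.pow_eq_one hzE.pow_eq_one g
      rw [G04_zJ_congr hzF (by rw [hzF]; exact hzE.pow_eq_one) hzE.pow_eq_one, ← h1]
      exact hQ' g
  obtain ⟨n, hn⟩ := hn
  obtain ⟨Q, hQ⟩ := key ((ℓ - 1) * n) b C hb hu hC ⟨0, fun g => by
    rw [map_zero, sub_zero]
    refine iterate_eq_zero_of_smul hℓ _ hzE n _ ?_
    rw [cl_Cv, ← map_nsmul, hn, map_zero]⟩
  -- back to `f.map (algebraMap L E)`
  have hid : ((f.map (algebraMap L K)).map (algebraMap K E)).map (RingHom.id E) =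
        f.map (algebraMap L E) := by
    rw [Polynomial.map_id, hmap]
  refine ⟨jacMap ℓ (RingHom.id E) hid Q, fun g g' hg => ?_⟩
  have hgg : g' = ρ g := by
    ext z
    apply (j : Ω →+* E).injective
    show j (g' z) = j (ρ g z)
    rw [hg, hρ]
  subst hgg
  have h1 := congrArg (jacMap ℓ (RingHom.id E) hid) (hQ g)
  rw [map_sub, cl_Cv, jacMap_jacMap ℓ _ _ _ _ (by rw [RingHom.id_comp, ← hmap]; exact map_jj _ _ j)]
    at h1
  have h2 : jacMap ℓ (RingHom.id E) hid (symJ (gs _ g) Q) =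
      push ℓ f (g.restrictScalars L : E →ₐ[L] E)
        (jacMap ℓ (RingHom.id E) hid Q) := by
    unfold push symJ
    rw [jacMap_jacMap ℓ _ _ _ _ (by
        rw [RingHom.id_comp, ← hid, Polynomial.map_id]
        exact (gs _ g).2),
      jacMap_jacMap ℓ _ _ _ _ (by
        rw [RingHom.comp_id, ← hid, Polynomial.map_id]
        exact (gs _ g).2)]
    apply G13_jacMap_congr
    ext z
    rfl
  rw [h2] at h1
  rw [← h1]
  unfold push
  apply G13_jacMap_congr
  ext z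
  rfl

end

end Pool.Agent.Lib.MP_89bcae_ag.Brt

end

section

namespace Pool.Agent.Lib.MP_89bcae_ag.Wt.Lns.LocCtx
end Pool.Agent.Lib.MP_89bcae_ag.Wt.Lns.LocCtx


/-!
# Local triviality
-/

open Polynomial IsDedekindDomain IsLocalRing

open scoped Classical

namespace Pool.Agent.Lib.MP_89bcae_ag.Brt

open Pool.Agent.Lib.MP_89bcae_ag.Sup (LocCtx plc exists_locCtx)

open Pool.Agent.Lib.MP_89bcae_ag.Wt Pool.Agent.Lib.MP_89bcae_ag.Wt.Lns Pool.Agent.Lib.MP_89bcae_ag.Bra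

/-- `IUnr` depends only on the images of the constants. -/
theorem iunr_congr {F L Ω : Type} [Field F] [Field L] [Field Ω] [Algebra L Ω] {ℓ : ℕ} {f : L[X]}
    (i₁ i₂ : Algebra F[X] L) (h : ∀ c : F, @algebraMap F[X] L _ _ i₁ (C c) = @algebraMap F[X] L _ _ i₂ (C c))
    {b : (Ω ≃ₐ[L] Ω) → (Ω ≃ₐ[L] Ω) → (FunField ℓ (f.map (algebraMap L Ω)))ˣ}
    (hb : @IUnr L Ω _ _ _ ℓ f F _ i₁ b) : @IUnr L Ω _ _ _ ℓ f F _ i₂ b := by
  intro O H T _ _ _ _ _ _ _ _ _ _ ψ h1 h2 h3
  exact hb O H T ψ h1 (fun c => by rw [h c]; exact h2 c) h3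

private theorem B3_aux {F L' Ω K M Lv : Type} [Field F] [IsAlgClosed F] [Field L'] [Algebra F[X] L']
    [Field Ω] [Algebra L' Ω] [IsAlgClosure L' Ω] [Field K] [Algebra F[X] K] [Field M] [Algebra K M]
    [IsAlgClosure K M] [Algebra F M] [Field Lv] [Algebra Lv M] {ℓ : ℕ} {f : L'[X]}
    [hG : IsGood ℓ (f.map (algebraMap L' Ω))] (j : Ω →+* M) (i₁ : L' →+* K)
    (hi : ∀ z, algebraMap K M (i₁ z) = j (algebraMap L' Ω z))
    (hLv : ∀ g : M ≃ₐ[Lv] M, (∀ z : L', g (j (algebraMap L' Ω z)) = j (algebraMap L' Ω z)) →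
      ∀ x : K, g (algebraMap K M x) = algebraMap K M x)
    (hp : ∀ p : F[X], i₁ (algebraMap F[X] L' p) = algebraMap F[X] K p) (hℓ : ℓ.Prime)
    (hℓF : (ℓ : F) ≠ 0) {ζ : F}
    (hζ : IsPrimitiveRoot ζ ℓ) {a : F} {v : AbsoluteValue M ℝ} (hL : LocF F K a v) (hf : f.Monic)
    (hsep : (f.map (j.comp (algebraMap L' Ω))).Separable) {res : M → F}
    (hres : ∀ θ, (f.map (j.comp (algebraMap L' Ω))).eval θ = 0 → v (θ - algebraMap F M (res θ)) < 1)
    (hsha : ShaProp ℓ K (f.map (j.comp (algebraMap L' Ω))) res)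
    (b : (Ω ≃ₐ[L'] Ω) → (Ω ≃ₐ[L'] Ω) → (FunField ℓ (f.map (algebraMap L' Ω)))ˣ) (hb : ICoc b)
    (hu : IUnr F b) (C : (Ω ≃ₐ[L'] Ω) → (Pt ℓ (f.map (algebraMap L' Ω)) →₀ ℤ)) (hC : IDiv b C)
    (hn : ∃ n : ℕ, ∀ g, ℓ ^ n • (cl (C g) : Jac ℓ (f.map (algebraMap L' Ω))) = 0) :
    LTj (Lv := Lv) ℓ f j fun g => cl (C g) := by
  have hMc : IsAlgClosed M := IsAlgClosure.isAlgClosed K
  let _ : Algebra L' K := i₁.toAlgebra
  have : IsScalarTower F[X] L' K := IsScalarTower.of_algebraMap_eq fun p => (hp p).symm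
  let _ : Algebra L' M := (j.comp (algebraMap L' Ω)).toAlgebra
  have : IsScalarTower L' K M := IsScalarTower.of_algebraMap_eq fun z => (hi z).symm
  let j' : Ω →ₐ[L'] M := { j with commutes' := fun _ => rfl }
  have hpol : (f.map (algebraMap L' K)).map (algebraMap K M) = (f.map (algebraMap L' Ω)).map j := by
    rw [Polynomial.map_map, Polynomial.map_map]
    congr 1
    exact RingHom.ext hi
  have hG' : IsGood ℓ ((f.map (algebraMap L' K)).map (algebraMap K M)) := by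
    rw [hpol]
    exact isGood_map j (f.map (algebraMap L' Ω))
  obtain ⟨Q, hQ⟩ := verticalV (K := K) hℓ hℓF hζ hL hf hsep hres hsha b hb hu C hC hn j'
  refine ⟨Q, fun g g' hg h => ?_⟩
  have hfix : ∀ z : L', g (j (algebraMap L' Ω z)) = j (algebraMap L' Ω z) := by
    intro z
    rw [← h, g'.commutes]
  let g₁ : M ≃ₐ[K] M := AlgEquiv.ofRingEquiv (f := (g : M ≃+* M)) (hLv g hfix)
  have h1 := hQ g₁ g' h
  refine Eq.trans ?_ (h1.trans ?_)
  · unfold push
    apply G13_jacMap_congr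
    rfl
  · congr 1

/-- The local triviality in the form used for the covers. -/
theorem ltj_of_vertical {F L' Ω K M Lv : Type} [Field F] [IsAlgClosed F] [Field L'] [Algebra F[X] L']
    [Field Ω] [Algebra L' Ω] [IsAlgClosure L' Ω] [Field K] [Algebra F[X] K] [Field M] [Algebra K M]
    [IsAlgClosure K M] [Algebra F M] [Field Lv] [Algebra Lv M] {ℓ : ℕ} {f : L'[X]}
    [hG : IsGood ℓ (f.map (algebraMap L' Ω))] (j : Ω →+* M) (i₁ : L' →+* K)
    (hi : ∀ z, algebraMap K M (i₁ z) = j (algebraMap L' Ω z))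
    (hLv : ∀ g : M ≃ₐ[Lv] M, (∀ z : L', g (j (algebraMap L' Ω z)) = j (algebraMap L' Ω z)) →
      ∀ x : K, g (algebraMap K M x) = algebraMap K M x) (T : L')
    (hc : ∀ c : F, i₁ (algebraMap F[X] L' (C c)) = algebraMap F[X] K (C c))
    (hT : i₁ T = algebraMap F[X] K X) (hℓ : ℓ.Prime) (hℓF : (ℓ : F) ≠ 0) {ζ : F}
    (hζ : IsPrimitiveRoot ζ ℓ) {a : F} {v : AbsoluteValue M ℝ} (hL : LocF F K a v) (hf : f.Monic)
    (hsep : (f.map (j.comp (algebraMap L' Ω))).Separable) {res : M → F}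
    (hres : ∀ θ, (f.map (j.comp (algebraMap L' Ω))).eval θ = 0 → v (θ - algebraMap F M (res θ)) < 1)
    (hsha : ShaProp ℓ K (f.map (j.comp (algebraMap L' Ω))) res)
    (b : (Ω ≃ₐ[L'] Ω) → (Ω ≃ₐ[L'] Ω) → (FunField ℓ (f.map (algebraMap L' Ω)))ˣ) (hb : ICoc b)
    (hu : IUnr F b) (C : (Ω ≃ₐ[L'] Ω) → (Pt ℓ (f.map (algebraMap L' Ω)) →₀ ℤ)) (hC : IDiv b C)
    (hn : ∃ n : ℕ, ∀ g, ℓ ^ n • (cl (C g) : Jac ℓ (f.map (algebraMap L' Ω))) = 0) :
    LTj (Lv := Lv) ℓ f j fun g => cl (C g) := by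
  let φ : F[X] →+* L' := eval₂RingHom ((algebraMap F[X] L').comp Polynomial.C) T
  have hφ : ∀ p : F[X], i₁ (φ p) = algebraMap F[X] K p := by
    have h1 : i₁.comp φ = algebraMap F[X] K := by
      refine Polynomial.ringHom_ext' (RingHom.ext fun c => ?_) ?_
      · show i₁ (eval₂ _ T (Polynomial.C c)) = _
        rw [eval₂_C]
        exact hc c
      · show i₁ (eval₂ _ T X) = _
        rw [eval₂_X]
        exact hT
    exact fun p => RingHom.congr_fun h1 p
  have hu2 : @IUnr L' Ω _ _ _ ℓ f F _ φ.toAlgebra b := by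
    refine iunr_congr _ φ.toAlgebra (fun c => ?_) hu
    show _ = eval₂ _ T (Polynomial.C c)
    rw [eval₂_C]
    rfl
  exact @B3_aux F L' Ω K M Lv _ _ _ φ.toAlgebra _ _ _ _ _ _ _ _ _ _ _ ℓ f hG j i₁ hi hLv hφ hℓ hℓF ζ hζ a
    v hL hf hsep res hres hsha b hb hu2 C hC hn

end Pool.Agent.Lib.MP_89bcae_ag.Brt

end

end
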