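import Mathlib
import Pool.Agent.Lib.MP_89bcae_ag.Bra.DefsA
import Pool.Agent.Lib.MP_89bcae_ag.Tk.K025
import Pool.Agent.Lib.MP_89bcae_ag.Tk.K032
import Pool.Agent.Lib.MP_89bcae_ag.Tk.K000

set_option linter.all false
attribute [local instance 100000] Pool.Agent.Lib.MP_89bcae_ag.Brt.tffFields
attribute [local instance 100000] Pool.Agent.Lib.MP_89bcae_ag.Wt.ifrNF Pool.Agent.Lib.MP_89bcae_ag.Wt.iddNF

namespace Pool.Agent.Lib.MP_89bcae_ag.Bra
end Pool.Agent.Lib.MP_89bcae_ag.Bra
namespace Pool.Agent.Lib.MP_89bcae_ag.Sup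
end Pool.Agent.Lib.MP_89bcae_ag.Sup
namespace Pool.Agent.Lib.MP_89bcae_ag.Wt
end Pool.Agent.Lib.MP_89bcae_ag.Wt
namespace Pool.Agent.Lib.MP_89bcae_ag.Wt.Lns
end Pool.Agent.Lib.MP_89bcae_ag.Wt.Lns
namespace Pool.Agent.Lib.MP_89bcae_ag.Wt.Lns.LocCtx
end Pool.Agent.Lib.MP_89bcae_ag.Wt.Lns.LocCtx

section

/-!
# The ring `F(T)[x]` as a subring and as a subalgebra
-/

namespace Pool.Agent.Lib.MP_89bcae_ag.Bra

/-- `F(T)[x]` as a subring. -/
theorem closure_eq {F K : Type} [Field F] [Field K] [Algebra F K] (T : Set K) (x : K) :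
    Subring.closure ((IntermediateField.adjoin F T : Set K) ∪ {x}) =
      (Algebra.adjoin (IntermediateField.adjoin F T) ({x} : Set K)).toSubring := by
  apply le_antisymm
  · rw [Subring.closure_le]
    rintro a (ha | ha)
    · exact (Algebra.adjoin (IntermediateField.adjoin F T) ({x} : Set K)).algebraMap_mem ⟨a, ha⟩
    · exact Algebra.subset_adjoin ha
  · intro a ha
    have ha' : a ∈ Algebra.adjoin (IntermediateField.adjoin F T) ({x} : Set K) := ha
    clear ha
    induction ha' using Algebra.adjoin_induction with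
    | mem a ha => exact Subring.subset_closure (Or.inr ha)
    | algebraMap c => exact Subring.subset_closure (Or.inl c.2)
    | add a b _ _ ha hb => exact add_mem ha hb
    | mul a b _ _ ha hb => exact mul_mem ha hb

/-- The integral closures in `K` of a subring, seen as a subring and as a subalgebra. -/
theorem integralClosure_eq {K L : Type} [Field K] [Field L] [Algebra L K] (A : Subalgebra L K)
    (B : Subring K) (h : B = A.toSubring) :
    (integralClosure B K).toSubring = (integralClosure A K).toSubring := by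
  subst h
  rfl

theorem affineRing_eq {F K : Type} [Field F] [Field K] [Algebra F K] (T : Set K) (x : K) :
    affineRing F T x = (integralClosure (Algebra.adjoin (IntermediateField.adjoin F T)
      ({x} : Set K)) K).toSubring :=
  integralClosure_eq _ _ (closure_eq T x)

end Pool.Agent.Lib.MP_89bcae_ag.Bra

end

section

/-!
# The algebra structure of the field generated by a root
-/

open Polynomial

open scoped Classical

namespace Pool.Agent.Lib.MP_89bcae_ag.Brt

/-- The algebra structure of `K(θ)` over `F[X]` with `X ↦ θ`. -/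
@[reducible] noncomputable def algAdj (F K : Type) {E : Type} [Field F] [Field K] [Algebra F[X] K] [Field E]
    [Algebra K E] (θ : E) : Algebra F[X] (IntermediateField.adjoin K {θ}) :=
  (eval₂RingHom ((algebraMap K (IntermediateField.adjoin K {θ})).comp
    ((algebraMap F[X] K).comp (C : F →+* F[X]))) (IntermediateField.AdjoinSimple.gen K θ)).toAlgebra

end Pool.Agent.Lib.MP_89bcae_ag.Brt

end

section

namespace Pool.Agent.Lib.MP_89bcae_ag.Wt.Lns.LocCtx
end Pool.Agent.Lib.MP_89bcae_ag.Wt.Lns.LocCtx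


/-!
# Totally ramified extensions
-/

open Polynomial IsDedekindDomain IsLocalRing

open scoped Classical

namespace Pool.Agent.Lib.MP_89bcae_ag.Brt

open Pool.Agent.Lib.MP_89bcae_ag.Sup (LocCtx plc exists_locCtx)

open Pool.Agent.Lib.MP_89bcae_ag.Wt Pool.Agent.Lib.MP_89bcae_ag.Wt.Lns Pool.Agent.Lib.MP_89bcae_ag.Bra

/-! ROW V9 -/

private theorem V9_sum_lt {E ι : Type} [Field E] {v : AbsoluteValue E ℝ}
    (hna : ∀ x y, v (x + y) ≤ max (v x) (v y)) (s : Finset ι) (f : ι → E) (c : ℝ) (hc : 0 < c)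
    (h : ∀ j ∈ s, v (f j) < c) : v (∑ j ∈ s, f j) < c := by
  induction s using Finset.induction_on with
  | empty => simpa using hc
  | insert a s ha ih =>
    rw [Finset.sum_insert ha]
    refine lt_of_le_of_lt (hna _ _) (max_lt (h a (Finset.mem_insert_self a s)) (ih ?_))
    intro j hj
    exact h j (Finset.mem_insert_of_mem hj)

private theorem V9_add_eq {E : Type} [Field E] {v : AbsoluteValue E ℝ}
    (hna : ∀ x y, v (x + y) ≤ max (v x) (v y)) {a b : E} (h : v b < v a) : v (a + b) = v a := by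
  apply le_antisymm
  · exact (hna a b).trans (max_le le_rfl h.le)
  · have h1 : v a ≤ max (v (a + b)) (v (-b)) := by
      have h2 := hna (a + b) (-b)
      rwa [add_neg_cancel_right] at h2
    rw [v.map_neg] at h1
    rcases le_max_iff.1 h1 with h3 | h3
    · exact h3
    · exact absurd h3 (not_le.2 h)

private theorem V9_sum_eq {E ι : Type} [Field E] {v : AbsoluteValue E ℝ}
    (hna : ∀ x y, v (x + y) ≤ max (v x) (v y)) (s : Finset ι) (f : ι → E) {j0 : ι} (hj0 : j0 ∈ s)
    (hpos : 0 < v (f j0)) (h : ∀ j ∈ s, j ≠ j0 → v (f j) < v (f j0)) :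
    v (∑ j ∈ s, f j) = v (f j0) := by
  rw [← Finset.add_sum_erase s f hj0]
  apply V9_add_eq hna
  apply V9_sum_lt hna _ _ _ hpos
  intro j hj
  exact h j (Finset.mem_of_mem_erase hj) (Finset.ne_of_mem_erase hj)

/-- The values of a totally ramified extension. PROOF. The elements of `K(ϖ)` are the sums `∑ a_j ϖ ^ j`, `j < d`, `d` the degree of
the minimal polynomial, `a_j` in `K` (power basis, `IntermediateField.adjoin.powerBasis`). The values of the nonzero terms are
`(v ϖ) ^ (e i_j + j)`, with exponents different modulo `e` (`j < d ≤ e`), so pairwise different (`0 < v ϖ < 1`), and the value of the sum is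
the largest of them (`hna`). -/
theorem disc_adjoin {K E : Type} [Field K] [Field E] [Algebra K E] [IsAlgClosed E]
    {v : AbsoluteValue E ℝ} (hna : ∀ x y, v (x + y) ≤ max (v x) (v y)) {ϖ : E} (h0 : ϖ ≠ 0)
    (h1 : v ϖ < 1) {e : ℕ} (he : 0 < e)
    (hK : ∀ x : K, x ≠ 0 → ∃ i : ℤ, v (algebraMap K E x) = (v ϖ ^ e) ^ i) (hint : IsIntegral K ϖ)
    (hdeg : (minpoly K ϖ).natDegree ≤ e) (z : E) (hz : z ∈ IntermediateField.adjoin K {ϖ})
    (hz0 : z ≠ 0) : ∃ i : ℤ, v z = v ϖ ^ i := by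
  have hv0 : 0 < v ϖ := v.pos h0
  have hz' : z ∈ Algebra.adjoin K {ϖ} := by
    rw [← IntermediateField.adjoin_simple_toSubalgebra_of_isAlgebraic hint.isAlgebraic]
    exact hz
  rw [Algebra.adjoin_singleton_eq_range_aeval] at hz'
  obtain ⟨p, hp⟩ := hz'
  have hp' : aeval ϖ p = z := hp
  set r : Polynomial K := p %ₘ minpoly K ϖ with hr
  have hrz : aeval ϖ r = z := by
    rw [hr, Polynomial.aeval_modByMonic_eq_self_of_root (minpoly.aeval K ϖ)]
    exact hp'
  have hmon : (minpoly K ϖ).Monic := minpoly.monic hint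
  have hdr : ∀ j ∈ r.support, j < e := by
    intro j hj
    have h2 : r.degree < (minpoly K ϖ).degree := Polynomial.degree_modByMonic_lt p hmon
    have h3 : (j : WithBot ℕ) ≤ r.degree := Polynomial.le_degree_of_mem_supp j hj
    have h4 : (j : WithBot ℕ) < (minpoly K ϖ).degree := lt_of_le_of_lt h3 h2
    rw [Polynomial.degree_eq_natDegree hmon.ne_zero] at h4
    have h5 : j < (minpoly K ϖ).natDegree := by exact_mod_cast h4
    omega
  have hr0 : r ≠ 0 := by
    intro h
    rw [h, map_zero] at hrz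
    exact hz0 hrz.symm
  have hsum : z = ∑ j ∈ r.support, algebraMap K E (r.coeff j) * ϖ ^ j := by
    rw [← hrz, Polynomial.aeval_eq_sum_range' (Nat.lt_succ_self r.natDegree)]
    have h2 : ∀ j, r.coeff j • ϖ ^ j = algebraMap K E (r.coeff j) * ϖ ^ j := by
      intro j
      rw [Algebra.smul_def]
    rw [Finset.sum_congr rfl fun j _ => h2 j]
    symm
    apply Finset.sum_subset
    · intro j hj
      exact Finset.mem_range.2 (Nat.lt_succ_of_le (Polynomial.le_natDegree_of_mem_supp j hj))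
    · intro j _ hj
      rw [Polynomial.notMem_support_iff.1 hj, map_zero, zero_mul]
  have hval : ∀ j ∈ r.support, ∃ i : ℤ,
      v (algebraMap K E (r.coeff j) * ϖ ^ j) = v ϖ ^ ((e : ℤ) * i + j) := by
    intro j hj
    obtain ⟨i, hi⟩ := hK (r.coeff j) (Polynomial.mem_support_iff.1 hj)
    refine ⟨i, ?_⟩
    rw [map_mul, map_pow, hi, zpow_add₀ hv0.ne', zpow_mul, zpow_natCast, zpow_natCast]
  choose! i hi using hval
  have hne : r.support.Nonempty := Polynomial.support_nonempty.2 hr0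
  obtain ⟨j0, hj0, hmax⟩ := Finset.exists_max_image r.support
    (fun j => v (algebraMap K E (r.coeff j) * ϖ ^ j)) hne
  refine ⟨(e : ℤ) * i j0 + j0, ?_⟩
  rw [hsum, V9_sum_eq hna r.support (fun j => algebraMap K E (r.coeff j) * ϖ ^ j) hj0]
  · exact hi j0 hj0
  · show 0 < v (algebraMap K E (r.coeff j0) * ϖ ^ j0)
    rw [hi j0 hj0]
    exact zpow_pos hv0 _
  · intro j hj hjj
    refine lt_of_le_of_ne (hmax j hj) ?_
    intro h2
    have h3 : v (algebraMap K E (r.coeff j) * ϖ ^ j) =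
      v (algebraMap K E (r.coeff j0) * ϖ ^ j0) := h2
    rw [hi j hj, hi j0 hj0] at h3
    have h4 : (e : ℤ) * i j + j = (e : ℤ) * i j0 + j0 :=
      zpow_right_injective₀ hv0 h1.ne h3
    apply hjj
    have h5 := hdr j hj
    have h6 := hdr j0 hj0
    have h7 : ((j : ℤ)) % (e : ℤ) = (j0 : ℤ) % (e : ℤ) := by
      have h8 : ((e : ℤ) * i j + j) % (e : ℤ) = ((e : ℤ) * i j0 + j0) % (e : ℤ) := by rw [h4]
      rwa [Int.mul_add_emod_self_left, Int.mul_add_emod_self_left] at h8
    rw [Int.emod_eq_of_lt (by positivity) (by exact_mod_cast h5),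
      Int.emod_eq_of_lt (by positivity) (by exact_mod_cast h6)] at h7
    exact_mod_cast h7

/-- PROOF. The constant coefficient of the minimal polynomial is up to sign the product of its roots in `E` (`d` of them, with
multiplicities; it splits), each of which is `σ ϖ`, with value `v ϖ`. So `(v ϖ) ^ d = (v ϖ ^ e) ^ i`, `d = e i` (`0 < v ϖ < 1`), `d > 0`, so
`d ≥ e`. -/
theorem degree_eq {K E : Type} [Field K] [Field E] [Algebra K E] [IsAlgClosed E]
    {v : AbsoluteValue E ℝ} {ϖ : E} (h0 : ϖ ≠ 0) (h1 : v ϖ < 1) {e : ℕ} (he : 0 < e)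
    (hinv : ∀ (σ : E ≃ₐ[K] E) (x : E), v (σ x) = v x) [Normal K E]
    (hK : ∀ x : K, x ≠ 0 → ∃ i : ℤ, v (algebraMap K E x) = (v ϖ ^ e) ^ i) (hint : IsIntegral K ϖ)
    (hdeg : (minpoly K ϖ).natDegree ≤ e) : (minpoly K ϖ).natDegree = e := by
  have hv0 : 0 < v ϖ := v.pos h0
  have hmon : (minpoly K ϖ).Monic := minpoly.monic hint
  have hsp : ((minpoly K ϖ).map (algebraMap K E)).Splits := IsAlgClosed.splits _
  have hc := hsp.coeff_zero_eq_prod_roots_of_monic (hmon.map _)
  have hroot : ∀ θ ∈ ((minpoly K ϖ).map (algebraMap K E)).roots, v θ = v ϖ := by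
    intro θ hθ
    have h2 : aeval θ (minpoly K ϖ) = 0 := by
      have h3 := (Polynomial.mem_roots'.1 hθ).2
      rw [Polynomial.IsRoot.def, Polynomial.eval_map_algebraMap] at h3
      exact h3
    obtain ⟨σ, hσ⟩ := minpoly.exists_algEquiv_of_root' hint.isAlgebraic h2
    rw [← hσ, hinv]
  have hcard : Multiset.card ((minpoly K ϖ).map (algebraMap K E)).roots =
      (minpoly K ϖ).natDegree := by
    rw [← hsp.natDegree_eq_card_roots, Polynomial.natDegree_map]
  have hprod : v ((minpoly K ϖ).map (algebraMap K E)).roots.prod =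
      v ϖ ^ (minpoly K ϖ).natDegree := by
    rw [← hcard, map_multiset_prod, Multiset.map_congr rfl hroot, Multiset.map_const',
      Multiset.prod_replicate]
  have hc2 : v (algebraMap K E ((minpoly K ϖ).coeff 0)) = v ϖ ^ (minpoly K ϖ).natDegree := by
    rw [← Polynomial.coeff_map, hc, map_mul, map_pow, v.map_neg, v.map_one, one_pow, one_mul, hprod]
  have hne : (minpoly K ϖ).coeff 0 ≠ 0 := minpoly.coeff_zero_ne_zero hint h0
  obtain ⟨i, hi⟩ := hK _ hne
  rw [hc2] at hi
  have h3 : v ϖ ^ ((minpoly K ϖ).natDegree : ℤ) = v ϖ ^ ((e : ℤ) * i) := by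
    rw [zpow_natCast, hi, zpow_mul, zpow_natCast]
  have h4 : ((minpoly K ϖ).natDegree : ℤ) = (e : ℤ) * i := zpow_right_injective₀ hv0 h1.ne h3
  have h5 : 0 < (minpoly K ϖ).natDegree := minpoly.natDegree_pos hint
  have h6 : 1 ≤ i := by
    by_contra h7
    have h8 : (e : ℤ) * i ≤ 0 := mul_nonpos_of_nonneg_of_nonpos (by positivity) (by omega)
    omega
  have h9 : (e : ℤ) * 1 ≤ (e : ℤ) * i := mul_le_mul_of_nonneg_left h6 (by positivity)
  omega

end Pool.Agent.Lib.MP_89bcae_ag.Brt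

end

section

namespace Pool.Agent.Lib.MP_89bcae_ag.Wt.Lns.LocCtx
end Pool.Agent.Lib.MP_89bcae_ag.Wt.Lns.LocCtx


/-!
# The field of a root
-/

open Polynomial IsDedekindDomain IsLocalRing

open scoped Classical

namespace Pool.Agent.Lib.MP_89bcae_ag.Brt

open Pool.Agent.Lib.MP_89bcae_ag.Sup (LocCtx plc exists_locCtx)

open Pool.Agent.Lib.MP_89bcae_ag.Wt Pool.Agent.Lib.MP_89bcae_ag.Wt.Lns Pool.Agent.Lib.MP_89bcae_ag.Bra

section

variable {F K E : Type} [Field F] [IsAlgClosed F] [Field K] [Algebra F[X] K] [Field E]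
  [Algebra K E] [Algebra F E] [IsAlgClosure K E] {ℓ : ℕ} {s : F} {v : AbsoluteValue E ℝ} {ζ : F}

section Orbit

variable {g : F[X]} {p : E[X]} {res : E → F} {θ : E}

/-- `p` has coefficients in `K`. -/
private lemma V10b_map (hL : LocF F K s v)
    (hp : p = g.map (algebraMap F E) - C (algebraMap K E (algebraMap F[X] K X))) :
    (g.map ((algebraMap F[X] K).comp C) - C (algebraMap F[X] K X)).map (algebraMap K E) = p := by
  have h1 : (algebraMap K E).comp ((algebraMap F[X] K).comp C) = algebraMap F E := by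
    ext c
    exact (hL.compat c).symm
  rw [hp, Polynomial.map_sub, Polynomial.map_map, h1, Polynomial.map_C]

private lemma V10b_aeval (hL : LocF F K s v)
    (hp : p = g.map (algebraMap F E) - C (algebraMap K E (algebraMap F[X] K X))) (z : E) :
    aeval z (g.map ((algebraMap F[X] K).comp C) - C (algebraMap F[X] K X)) = p.eval z := by
  rw [← V10b_map hL hp, eval_map_algebraMap]

private lemma V10b_dvd (hL : LocF F K s v)
    (hp : p = g.map (algebraMap F E) - C (algebraMap K E (algebraMap F[X] K X)))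
    (hθ : p.eval θ = 0) : (minpoly K θ).map (algebraMap K E) ∣ p := by
  rw [← V10b_map hL hp]
  apply Polynomial.map_dvd
  apply minpoly.dvd
  rw [V10b_aeval hL hp, hθ]

private lemma V10b_int (θ : E) : IsIntegral K θ :=
  ((IsAlgClosure.isAlgebraic (R := K) (K := E)).isAlgebraic θ).isIntegral

private lemma V10b_conj {θ' : E} (h : θ' ∈ ((minpoly K θ).map (algebraMap K E)).roots) :
    ∃ σ : E ≃ₐ[K] E, σ θ = θ' := by
  have : Normal K E := IsAlgClosure.normal K E
  have h1 : aeval θ' (minpoly K θ) = 0 := by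
    rw [← eval_map_algebraMap]
    exact (mem_roots'.1 h).2
  exact minpoly.exists_algEquiv_of_root' ((V10b_int θ).isAlgebraic) h1

private lemma V10b_sub (hL : LocF F K s v)
    (hp : p = g.map (algebraMap F E) - C (algebraMap K E (algebraMap F[X] K X)))
    (hsep : p.Separable)
    (hres : ∀ θ, p.eval θ = 0 → v (θ - algebraMap F E (res θ)) < 1) (hθ : p.eval θ = 0) :
    ((minpoly K θ).map (algebraMap K E)).roots.toFinset ⊆ rtsOver p res (res θ) := by
  intro θ' h
  rw [Multiset.mem_toFinset] at h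
  obtain ⟨σ, hσ⟩ := V10b_conj h
  have h1 : p.eval θ' = 0 := by
    obtain ⟨q, hq⟩ := V10b_dvd hL hp hθ
    rw [hq, eval_mul, (mem_roots'.1 h).2, zero_mul]
  rw [rtsOver, Finset.mem_filter, Multiset.mem_toFinset, mem_roots']
  refine ⟨⟨hsep.ne_zero, h1⟩, ?_⟩
  rw [← hσ] at h1 ⊢
  exact res_conj hL hres σ hθ h1

private lemma V10b_card (hL : LocF F K s v)
    (hp : p = g.map (algebraMap F E) - C (algebraMap K E (algebraMap F[X] K X)))
    (hsep : p.Separable) (hθ : p.eval θ = 0) :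
    ((minpoly K θ).map (algebraMap K E)).roots.toFinset.card = (minpoly K θ).natDegree := by
  have : IsAlgClosed E := IsAlgClosure.isAlgClosed K
  have h1 : ((minpoly K θ).map (algebraMap K E)).Separable :=
    hsep.of_dvd (V10b_dvd hL hp hθ)
  rw [Multiset.toFinset_card_of_nodup (nodup_roots h1),
    ← (IsAlgClosed.splits _).natDegree_eq_card_roots, natDegree_map]

private lemma V10b_deg (hL : LocF F K s v) (θ : E) (r : F) :
    (minpoly K (θ - algebraMap F E r)).natDegree = (minpoly K θ).natDegree := by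
  rw [hL.compat, minpoly.sub_algebraMap, natDegree_comp, natDegree_X_add_C, mul_one]

private lemma V10b_ne (hL : LocF F K s v)
    (hp : p = g.map (algebraMap F E) - C (algebraMap K E (algebraMap F[X] K X)))
    (hθ : p.eval θ = 0) (r : F) : θ ≠ algebraMap F E r := by
  rintro rfl
  have h1 : algebraMap F E (g.eval r) = algebraMap K E (algebraMap F[X] K X) := by
    rw [hp, eval_sub, eval_C, sub_eq_zero, eval_map_algebraMap, aeval_algebraMap_apply] at hθ
    rw [← hθ]
    simp
  have h2 := hL.ctx.lt_one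
  rw [← h1, ← map_sub] at h2
  have h3 : g.eval r - s = 0 := by
    by_contra h4
    rw [hL.ctx.const _ h4] at h2
    exact lt_irrefl _ h2
  apply hL.ctx.ne
  rw [← h1, sub_eq_zero.1 h3]

private lemma V10b_pos (hsep : p.Separable) (hθ : p.eval θ = 0) :
    0 < (rtsOver p res (res θ)).card := by
  apply Finset.card_pos.2
  refine ⟨θ, ?_⟩
  rw [rtsOver, Finset.mem_filter, Multiset.mem_toFinset, mem_roots']
  exact ⟨⟨hsep.ne_zero, hθ⟩, rfl⟩

private lemma V10b_hK (hL : LocF F K s v) (hg : g.Monic)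
    (hp : p = g.map (algebraMap F E) - C (algebraMap K E (algebraMap F[X] K X)))
    (hsep : p.Separable)
    (hres : ∀ θ, p.eval θ = 0 → v (θ - algebraMap F E (res θ)) < 1) (hθ : p.eval θ = 0)
    (x : K) (hx : x ≠ 0) : ∃ i : ℤ, v (algebraMap K E x) =
      (v (θ - algebraMap F E (res θ)) ^ (rtsOver p res (res θ)).card) ^ i := by
  obtain ⟨i, hi⟩ := hL.disc x hx
  exact ⟨i, by rw [hi, val_root hL hg hp hsep hres hθ]⟩

private lemma V10b_hdeg (hL : LocF F K s v)
    (hp : p = g.map (algebraMap F E) - C (algebraMap K E (algebraMap F[X] K X)))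
    (hsep : p.Separable)
    (hres : ∀ θ, p.eval θ = 0 → v (θ - algebraMap F E (res θ)) < 1) (hθ : p.eval θ = 0) :
    (minpoly K (θ - algebraMap F E (res θ))).natDegree ≤ (rtsOver p res (res θ)).card := by
  rw [V10b_deg hL, ← V10b_card hL hp hsep hθ]
  exact Finset.card_le_card (V10b_sub hL hp hsep hres hθ)

/-- PROOF. The roots in `E` of the minimal polynomial of `θ` over `K` are roots of `p` with residue `res θ` (conjugate elements,
`res_conj`; `p` has coefficients in `K`), it divides `p`, so it has no multiple roots: its degree is at most the number `e` of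
these roots. `K(θ) = K(ϖ)`, `ϖ = θ - res θ`, of the same degree: apply `disc_adjoin`, `degree_eq` and `val_root`. `θ ≠ res θ`: otherwise
`t = g(θ)` is in `F`, `v (t - s) < 1`, `t = s`, contradiction with `hL.ctx.ne`. -/
theorem locF_adjoin (hL : LocF F K s v) (hg : g.Monic)
    (hp : p = g.map (algebraMap F E) - C (algebraMap K E (algebraMap F[X] K X))) (hsep : p.Separable)
    (hres : ∀ θ, p.eval θ = 0 → v (θ - algebraMap F E (res θ)) < 1) (hθ : p.eval θ = 0) :
    @LocF F (IntermediateField.adjoin K {θ}) E _ _ _ (algAdj F K θ) _ _ (res θ) v := by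
  have : IsAlgClosed E := IsAlgClosure.isAlgClosed K
  let _ := algAdj F K θ
  have hX : algebraMap (IntermediateField.adjoin K {θ}) E
      (algebraMap F[X] (IntermediateField.adjoin K {θ}) X) = θ := by
    change algebraMap (IntermediateField.adjoin K {θ}) E (eval₂ _ _ X) = θ
    rw [eval₂_X]
    rfl
  refine ⟨?_, ⟨hL.ctx.alg, hL.ctx.nonarch, hL.ctx.const, ?_, ?_, hL.ctx.residue⟩, ?_, ?_⟩
  · intro c
    change algebraMap F E c = algebraMap (IntermediateField.adjoin K {θ}) E (eval₂ _ _ (C c))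
    rw [eval₂_C, hL.compat]
    rfl
  · rw [hX]
    exact hres θ hθ
  · rw [hX]
    exact V10b_ne hL hp hθ _
  · intro x hx
    rw [hX]
    refine disc_adjoin (K := K) hL.ctx.nonarch (sub_ne_zero.2 (V10b_ne hL hp hθ _)) (hres θ hθ)
      (V10b_pos (res := res) hsep hθ) (V10b_hK hL hg hp hsep hres hθ) (V10b_int _)
      (V10b_hdeg hL hp hsep hres hθ) _ ?_ ?_
    · have h1 : IntermediateField.adjoin K {θ} ≤
          IntermediateField.adjoin K {θ - algebraMap F E (res θ)} := by
        rw [IntermediateField.adjoin_simple_le_iff]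
        have h2 := IntermediateField.mem_adjoin_simple_self K (θ - algebraMap F E (res θ))
        have h3 : algebraMap F E (res θ) ∈
            IntermediateField.adjoin K {θ - algebraMap F E (res θ)} := by
          rw [hL.compat]
          exact IntermediateField.algebraMap_mem _ _
        have h4 := add_mem h2 h3
        rwa [sub_add_cancel] at h4
      exact h1 x.2
    · intro h0
      exact hx (Subtype.ext h0)
  · intro σ x
    exact hL.inv (σ.restrictScalars K) x

/-- PROOF. As in `locF_adjoin`: the degree of the minimal polynomial is `e` (`degree_eq`), so all the roots with residue `res θ` are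
conjugate (`minpoly.exists_algEquiv_of_root'`, `E` is normal). -/
theorem orbit_root (hL : LocF F K s v) (hg : g.Monic)
    (hp : p = g.map (algebraMap F E) - C (algebraMap K E (algebraMap F[X] K X))) (hsep : p.Separable)
    (hres : ∀ θ, p.eval θ = 0 → v (θ - algebraMap F E (res θ)) < 1) (hθ : p.eval θ = 0) {θ' : E}
    (hθ' : p.eval θ' = 0) (h : res θ' = res θ) : ∃ σ : E ≃ₐ[K] E, σ θ = θ' := by
  have : IsAlgClosed E := IsAlgClosure.isAlgClosed K
  have : Normal K E := IsAlgClosure.normal K E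
  have h1 := degree_eq (K := K) (sub_ne_zero.2 (V10b_ne hL hp hθ (res θ))) (hres θ hθ)
    (V10b_pos (res := res) hsep hθ) hL.inv (V10b_hK hL hg hp hsep hres hθ) (V10b_int _)
    (V10b_hdeg hL hp hsep hres hθ)
  rw [V10b_deg hL, ← V10b_card hL hp hsep hθ] at h1
  have h2 := Finset.eq_of_subset_of_card_le (V10b_sub hL hp hsep hres hθ) h1.ge
  have h3 : θ' ∈ rtsOver p res (res θ) := by
    rw [rtsOver, Finset.mem_filter, Multiset.mem_toFinset, mem_roots']
    exact ⟨⟨hsep.ne_zero, hθ'⟩, h⟩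
  rw [← h2, Multiset.mem_toFinset] at h3
  exact V10b_conj h3

end Orbit

end

end Pool.Agent.Lib.MP_89bcae_ag.Brt

end

section

namespace Pool.Agent.Lib.MP_89bcae_ag.Wt.Lns.LocCtx
end Pool.Agent.Lib.MP_89bcae_ag.Wt.Lns.LocCtx


/-!
# Cocycles on the roots
-/

open Polynomial IsDedekindDomain IsLocalRing

open scoped Classical

namespace Pool.Agent.Lib.MP_89bcae_ag.Brt

open Pool.Agent.Lib.MP_89bcae_ag.Sup (LocCtx plc exists_locCtx)

open Pool.Agent.Lib.MP_89bcae_ag.Wt Pool.Agent.Lib.MP_89bcae_ag.Wt.Lns Pool.Agent.Lib.MP_89bcae_ag.Bra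

/-! ROW V10 -/

section

variable {F K E : Type} [Field F] [IsAlgClosed F] [Field K] [Algebra F[X] K] [Field E]
  [Algebra K E] [Algebra F E] [IsAlgClosure K E] {ℓ : ℕ} {s : F} {v : AbsoluteValue E ℝ} {ζ : F}

-- CHUNK 1 (replaces `shaProp_of_rational`)

omit [IsAlgClosed F] in
private theorem V10c_mem {p : E[X]} {res : E → F} (hp0 : p ≠ 0) {r : F} {x : E} :
    x ∈ rtsOver p res r ↔ p.eval x = 0 ∧ res x = r := by
  unfold rtsOver
  rw [Finset.mem_filter, Multiset.mem_toFinset, Polynomial.mem_roots hp0]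
  exact Iff.rfl

theorem shaProp_of_rational {p : E[X]} {res : E → F}
    (hroot : ∀ θ, p.eval θ = 0 → ∀ g : E ≃ₐ[K] E, g θ = θ)
    (hinj : ∀ θ θ', p.eval θ = 0 → p.eval θ' = 0 → res θ = res θ' → θ = θ') :
    ShaProp ℓ K p res := by
  intro e _ hc hsum
  refine ⟨fun _ => 0, fun g θ hθ => ?_⟩
  rw [sub_zero, sub_zero]
  by_cases hp0 : p = 0
  · have hg : g = 1 := by
      ext x
      exact hroot x (by rw [hp0, Polynomial.eval_zero]) g
    have h1 := hc 1 1 θ hθ
    rw [hg]
    have h2 : e 1 ((1 : E ≃ₐ[K] E)⁻¹ θ) + e 1 θ - e (1 * 1) θ = e 1 θ := by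
      rw [inv_one, mul_one]
      show e 1 θ + e 1 θ - e 1 θ = e 1 θ
      ring
    rwa [h2] at h1
  · have h1 := hsum g (res θ)
    have h2 : rtsOver p res (res θ) = {θ} := by
      ext x
      rw [V10c_mem hp0, Finset.mem_singleton]
      constructor
      · rintro ⟨hx, hr⟩
        exact hinj x θ hx hθ hr
      · rintro rfl
        exact ⟨hθ, rfl⟩
    rwa [h2, Finset.sum_singleton] at h1

-- here: `algAdj` and the section `Orbit` (rows V10a, V10b)

-- CHUNK 2 (replaces `shaProp_of_poly`; uses `algAdj`, `val_root`, `locF_adjoin`, `orbit_root`, `res_conj`)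

omit [IsAlgClosed F] [IsAlgClosure K E] in
private theorem V10c_fix (hL : LocF F K s v) (σ : E ≃ₐ[K] E) (c : F) :
    σ (algebraMap F E c) = algebraMap F E c := by
  rw [hL.compat, AlgEquiv.commutes]

omit [IsAlgClosed F] [IsAlgClosure K E] in
/-- the roots of `p` are permuted -/
private theorem V10c_eval (hL : LocF F K s v) {g₀ : F[X]} {p : E[X]}
    (hp : p = g₀.map (algebraMap F E) - C (algebraMap K E (algebraMap F[X] K X)))
    (σ : E ≃ₐ[K] E) (x : E) : p.eval (σ x) = σ (p.eval x) := by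
  rw [hp, Polynomial.eval_sub, Polynomial.eval_sub, Polynomial.eval_C, Polynomial.eval_C, map_sub,
    AlgEquiv.commutes, Polynomial.eval_map, Polynomial.eval_map, Polynomial.eval₂_eq_sum_range,
    Polynomial.eval₂_eq_sum_range, map_sum]
  simp only [map_mul, map_pow, V10c_fix hL]

/-- the stabiliser of `θ` as automorphisms over `K(θ)` -/
private theorem V10c_lift {θ : E} (σ : E ≃ₐ[K] E) (hσ : σ θ = θ) :
    ∃ τ : E ≃ₐ[IntermediateField.adjoin K {θ}] E, ∀ x, τ x = σ x := by
  have h1 : (σ : E →ₐ[K] E).comp (IntermediateField.adjoin K {θ}).val =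
      (IntermediateField.adjoin K {θ}).val := by
    apply IntermediateField.adjoin_algHom_ext
    intro x hx
    have hx2 : x = θ := hx
    subst hx2
    exact hσ
  refine ⟨AlgEquiv.ofRingEquiv (f := σ.toRingEquiv) (fun r => ?_), fun x => rfl⟩
  exact congrArg (fun φ => φ r) h1
omit [IsAlgClosed F] [IsAlgClosure K E] [Algebra F E] in
private theorem V10c_X (θ : E) : algebraMap (IntermediateField.adjoin K {θ}) E
    (@algebraMap F[X] (IntermediateField.adjoin K {θ}) _ _ (algAdj F K θ) X) = θ := by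
  show algebraMap (IntermediateField.adjoin K {θ}) E (eval₂RingHom
    ((algebraMap K (IntermediateField.adjoin K {θ})).comp
    ((algebraMap F[X] K).comp (C : F →+* F[X]))) (IntermediateField.AdjoinSimple.gen K θ) X) = θ
  rw [coe_eval₂RingHom, eval₂_X]
  exact IntermediateField.AdjoinSimple.algebraMap_gen K θ

omit [IsAlgClosed F] in
private theorem V10c_coprime (hℓ : ℓ.Prime) (hℓF : (ℓ : F) ≠ 0) (K : Type) [Field K] [Algebra F[X] K] :
    (ringExpChar K).Coprime ℓ := by
  have hK : (ℓ : K) ≠ 0 := by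
    intro h0
    apply hℓF
    have h1 : ((algebraMap F[X] K).comp C) (ℓ : F) = 0 := by
      rw [map_natCast]
      exact h0
    exact (map_eq_zero_iff _ (RingHom.injective _)).1 h1
  have h1 := ringExpChar.expChar K
  generalize ringExpChar K = q at h1 ⊢
  rcases h1 with _ | hq
  · exact Nat.coprime_one_left ℓ
  · rw [Nat.coprime_primes hq hℓ]
    rintro rfl
    exact hK (CharP.cast_eq_zero K _)

/-- the last step: an equation of values -/
private theorem V10c_val {V W : ℝ} (h0 : 0 < V) (h1 : V < 1) {q m : ℕ} {i : ℤ} (hℓ : ℓ.Prime)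
    (hq : q.Coprime ℓ) (hW : W ^ ℓ = V) (hi : W ^ q ^ m = V ^ i) : False := by
  have h2 : V ^ ((q ^ m : ℕ) : ℤ) = V ^ (i * (ℓ : ℤ)) := by
    rw [zpow_natCast, zpow_mul, ← hi, zpow_natCast, ← hW, ← pow_mul, ← pow_mul, mul_comm]
  have h3 : ((q ^ m : ℕ) : ℤ) = i * (ℓ : ℤ) := zpow_right_injective₀ h0 h1.ne h2
  have h4 : (ℓ : ℤ) ∣ ((q ^ m : ℕ) : ℤ) := ⟨i, by rw [h3, mul_comm]⟩
  have h5 : ℓ ∣ q ^ m := Int.natCast_dvd_natCast.1 h4
  have h6 : ℓ ∣ q := hℓ.dvd_of_dvd_pow h5
  have h7 : ℓ ∣ 1 := by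
    rw [← hq.gcd_eq_one]
    exact Nat.dvd_gcd h6 dvd_rfl
  exact hℓ.one_lt.ne' (Nat.dvd_one.1 h7)

private theorem V10c_key (hℓ : ℓ.Prime) (hℓF : (ℓ : F) ≠ 0) (hζ : IsPrimitiveRoot ζ ℓ)
    (hL : LocF F K s v) {g₀ : F[X]} (hg : g₀.Monic) {p : E[X]}
    (hp : p = g₀.map (algebraMap F E) - C (algebraMap K E (algebraMap F[X] K X))) (hsep : p.Separable)
    {res : E → F} (hres : ∀ θ, p.eval θ = 0 → v (θ - algebraMap F E (res θ)) < 1)
    (e : (E ≃ₐ[K] E) → E → ℤ) (hcts : IsCts e)
    (hc : ∀ g h θ, p.eval θ = 0 → (ℓ : ℤ) ∣ e h (g⁻¹ θ) + e g θ - e (g * h) θ)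
    (hsum : ∀ g r, (ℓ : ℤ) ∣ ∑ θ ∈ rtsOver p res r, e g θ)
    {θ : E} (hθ : p.eval θ = 0) (σ : E ≃ₐ[K] E) (hσ : σ θ = θ) : (ℓ : ℤ) ∣ e σ θ := by
  have : Fact ℓ.Prime := ⟨hℓ⟩
  have hp0 : p ≠ 0 := hsep.ne_zero
  have hEac : IsAlgClosed E := IsAlgClosure.isAlgClosed K
  have hKE : Algebra.IsAlgebraic K E := IsAlgClosure.isAlgebraic
  have hrt : ∀ (g : E ≃ₐ[K] E) (x : E), p.eval x = 0 → p.eval (g x) = 0 := by
    intro g x hx
    rw [V10c_eval hL hp, hx, map_zero]
  have hrs : ∀ (g : E ≃ₐ[K] E) (x : E), x ∈ rtsOver p res (res θ) → g x ∈ rtsOver p res (res θ) := by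
    intro g x hx
    rw [V10c_mem hp0] at hx ⊢
    exact ⟨hrt g x hx.1, (res_conj hL hres g hx.1 (hrt g x hx.1)).trans hx.2⟩
  have hθm : θ ∈ rtsOver p res (res θ) := (V10c_mem hp0).2 ⟨hθ, rfl⟩
  have horb : ∀ x ∈ rtsOver p res (res θ), ∃ τ : E ≃ₐ[K] E, τ θ = x := by
    intro x hx
    rw [V10c_mem hp0] at hx
    exact orbit_root hL hg hp hsep hres hθ hx.1 hx.2
  -- roots of `x - res θ`
  have hex : ∀ x : E, ∃ y : E, y ^ ℓ = x - algebraMap F E (res θ) := fun x =>
    IsAlgClosed.exists_pow_nat_eq _ hℓ.pos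
  choose ρ hρ using hex
  have hne : ∀ x ∈ rtsOver p res (res θ), ρ x ≠ 0 := by
    intro x hx h0
    have hx' := (V10c_mem hp0).1 hx
    let _ := algAdj F K x
    have h0' : LocF F (IntermediateField.adjoin K {x}) (res x) v :=
      locF_adjoin hL hg hp hsep hres hx'.1
    have h1 := h0'.ctx.ne
    rw [V10c_X x, hx'.2] at h1
    have h2 := hρ x
    rw [h0, zero_pow hℓ.ne_zero] at h2
    exact h1 (sub_eq_zero.1 h2.symm)
  have hζE : IsPrimitiveRoot (algebraMap F E ζ) ℓ := hζ.map_of_injective (algebraMap F E).injective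
  have hkex : ∀ (g : E ≃ₐ[K] E) (x : E), ∃ k : ℕ, g (ρ (g⁻¹ x)) = algebraMap F E ζ ^ k * ρ x := by
    intro g x
    have h1 : (g (ρ (g⁻¹ x))) ^ ℓ = ρ x ^ ℓ := by
      rw [← map_pow, hρ, hρ, map_sub, V10c_fix hL]
      congr 1
      show (g * g⁻¹) x = x
      rw [mul_inv_cancel]
      rfl
    by_cases h0 : ρ x = 0
    · refine ⟨0, ?_⟩
      rw [h0, mul_zero]
      rw [h0, zero_pow hℓ.ne_zero] at h1
      exact pow_eq_zero_iff hℓ.ne_zero |>.1 h1
    · have : NeZero ℓ := ⟨hℓ.ne_zero⟩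
      obtain ⟨i, -, hi⟩ := hζE.eq_pow_of_pow_eq_one (ξ := g (ρ (g⁻¹ x)) / ρ x) (by
        rw [div_pow, h1, div_self (pow_ne_zero _ h0)])
      exact ⟨i, by rw [hi, div_mul_cancel₀ _ h0]⟩
  choose k hk using hkex
  have hzk : ∀ a b : ℕ, algebraMap F E ζ ^ a = algebraMap F E ζ ^ b → (a : ZMod ℓ) = b := by
    have h0 : algebraMap F E ζ ≠ 0 := hζE.ne_zero hℓ.ne_zero
    have hle : ∀ a b : ℕ, a ≤ b → algebraMap F E ζ ^ a = algebraMap F E ζ ^ b →
        (a : ZMod ℓ) = b := by
      intro a b hle hab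
      rw [ZMod.natCast_eq_natCast_iff, Nat.modEq_iff_dvd' hle]
      apply hζE.dvd_of_pow_eq_one
      obtain ⟨d, rfl⟩ := Nat.exists_eq_add_of_le hle
      rw [pow_add] at hab
      rw [Nat.add_sub_cancel_left]
      exact (left_eq_mul₀ (pow_ne_zero _ h0)).1 hab
    intro a b hab
    rcases le_total a b with h | h
    · exact hle a b h hab
    · exact (hle b a h hab.symm).symm
  have hkc : ∀ (g h : E ≃ₐ[K] E) (x : E), x ∈ rtsOver p res (res θ) →
      (k (g * h) x : ZMod ℓ) = k h (g⁻¹ x) + k g x := by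
    intro g h x hx
    rw [← Nat.cast_add]
    apply hzk
    have h1 := hk (g * h) x
    have h2 : (g * h) (ρ ((g * h)⁻¹ x)) = g (h (ρ (h⁻¹ (g⁻¹ x)))) := by
      rw [mul_inv_rev]
      rfl
    rw [h2, hk h (g⁻¹ x), map_mul, map_pow, V10c_fix hL, hk g x, ← mul_assoc, ← pow_add] at h1
    exact (mul_right_cancel₀ (hne x hx) h1).symm
  have hec : ∀ (g h : E ≃ₐ[K] E) (x : E), x ∈ rtsOver p res (res θ) →
      (e (g * h) x : ZMod ℓ) = e h (g⁻¹ x) + e g x := by
    intro g h x hx
    have h1 := (ZMod.intCast_zmod_eq_zero_iff_dvd _ ℓ).2 (hc g h x ((V10c_mem hp0).1 hx).1)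
    push_cast at h1
    exact (sub_eq_zero.1 h1).symm
  -- the stabiliser
  obtain ⟨a, ha⟩ : ∃ a : ZMod ℓ, ∀ τ : E ≃ₐ[K] E, τ θ = θ → (e τ θ : ZMod ℓ) = k τ θ * a := by
    let _ := algAdj F K θ
    have hL₁ : LocF F (IntermediateField.adjoin K {θ}) (res θ) v :=
      locF_adjoin hL hg hp hsep hres hθ
    have : Algebra.IsAlgebraic (IntermediateField.adjoin K {θ}) E :=
      Algebra.IsAlgebraic.tower_top (K := K) _
    have hAC : IsAlgClosure (IntermediateField.adjoin K {θ}) E := ⟨hEac, inferInstance⟩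
    have hXθ : algebraMap (IntermediateField.adjoin K {θ}) E
      (algebraMap F[X] (IntermediateField.adjoin K {θ}) X) = θ := V10c_X θ
    have hζ₁ : IsPrimitiveRoot (algebraMap F[X] (IntermediateField.adjoin K {θ}) (C ζ)) ℓ :=
      hζ.map_of_injective (f := (algebraMap F[X] (IntermediateField.adjoin K {θ})).comp C)
        (RingHom.injective _)
    have hϖ : ρ θ ^ ℓ = algebraMap (IntermediateField.adjoin K {θ}) E
        (algebraMap F[X] (IntermediateField.adjoin K {θ}) X) - algebraMap F E (res θ) := by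
      rw [hXθ, hρ]
    obtain ⟨χ, hχ⟩ := exists_isChi (K := IntermediateField.adjoin K {θ}) hℓ hζ₁ (hne θ hθm)
      ⟨IntermediateField.AdjoinSimple.gen K θ - algebraMap F[X] _ (C (res θ)), by
        rw [map_sub, ← hL₁.compat, hρ, IntermediateField.AdjoinSimple.algebraMap_gen]⟩
    have hτθ : ∀ g : E ≃ₐ[IntermediateField.adjoin K {θ}] E, g θ = θ := by
      intro g
      have h1 := g.commutes (algebraMap F[X] (IntermediateField.adjoin K {θ}) X)
      rwa [hXθ] at h1
    obtain ⟨a, -, ha⟩ := hom_chi hL₁ hℓF hζ hχ hϖ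
      (fun g => ((e (g.restrictScalars K) θ : ℤ) : ZMod ℓ))
      (by
        obtain ⟨T, hT⟩ := hcts
        refine ⟨T, fun g g' hgg => ?_⟩
        show ((e (g.restrictScalars K) θ : ℤ) : ZMod ℓ) = ((e (g'.restrictScalars K) θ : ℤ) : ZMod ℓ)
        rw [hT (g.restrictScalars K) (g'.restrictScalars K) hgg])
      (by
        intro g h
        have h1 := hec (g.restrictScalars K) (h.restrictScalars K) θ hθm
        have h2 : (g.restrictScalars K)⁻¹ θ = θ := by
          have h3 := hτθ g⁻¹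
          exact h3
        rw [h2, add_comm] at h1
        exact h1)
      (by
        intro g
        rw [nsmul_eq_mul, ZMod.natCast_self, zero_mul])
    refine ⟨a, fun τ hτ => ?_⟩
    obtain ⟨τ₁, hτ₁⟩ := V10c_lift τ hτ
    have h1 : τ₁.restrictScalars K = τ := by
      ext x
      exact hτ₁ x
    have h2 := ha τ₁
    simp only [h1] at h2
    rw [h2, nsmul_eq_mul]
    congr 1
    apply hzk
    have h3 := hχ.act τ₁
    rw [map_pow, ← hL₁.compat, hτ₁] at h3
    have h4 := hk τ θ
    have h5 : τ⁻¹ θ = θ := by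
      have h6 := congrArg (τ⁻¹ : E ≃ₐ[K] E) hτ
      have h7 : τ⁻¹ (τ θ) = θ := by
        show (τ⁻¹ * τ) θ = θ
        rw [inv_mul_cancel]
        rfl
      rw [h7] at h6
      exact h6.symm
    rw [h5, h3] at h4
    exact mul_right_cancel₀ (hne θ hθm) h4
  -- the coefficient is zero
  have ha0 : a = 0 := by
    by_contra hane
    let act : (E ≃ₐ[K] E) → {x // x ∈ rtsOver p res (res θ)} → {x // x ∈ rtsOver p res (res θ)} :=
      fun g x => ⟨g x.1, hrs g x.1 x.2⟩
    let Cc : (E ≃ₐ[K] E) → {x // x ∈ rtsOver p res (res θ)} → ZMod ℓ :=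
      fun g x => (e g x.1 : ZMod ℓ) - k g x.1 * a
    have hC : ∀ g g' x, Cc (g * g') x = Cc g' (act g⁻¹ x) + Cc g x := by
      intro g g' x
      show (e (g * g') x.1 : ZMod ℓ) - k (g * g') x.1 * a =
        ((e g' (g⁻¹ x.1) : ZMod ℓ) - k g' (g⁻¹ x.1) * a) + ((e g x.1 : ZMod ℓ) - k g x.1 * a)
      rw [hec g g' x.1 x.2, hkc g g' x.1 x.2]
      ring
    have hact1 : ∀ x, act 1 x = x := fun x => rfl
    have hactm : ∀ g h x, act (g * h) x = act g (act h x) := fun g h x => rfl
    have hC1 : ∀ x, Cc 1 x = 0 := by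
      intro x
      have h1 := hC 1 1 x
      rw [mul_one, inv_one, hact1] at h1
      exact left_eq_add.1 h1
    have hst : ∀ g : E ≃ₐ[K] E, g θ = θ → Cc g ⟨θ, hθm⟩ = 0 := by
      intro g hgθ
      show (e g θ : ZMod ℓ) - k g θ * a = 0
      rw [ha g hgθ, sub_self]
    have hfix : ∀ g x, act g x = x → Cc g x = 0 := by
      intro g x hgx
      obtain ⟨τ, hτ⟩ := horb x.1 x.2
      have hτx : act τ ⟨θ, hθm⟩ = x := Subtype.ext hτ
      have hτx' : act τ⁻¹ x = ⟨θ, hθm⟩ := by
        rw [← hτx, ← hactm, inv_mul_cancel, hact1]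
      have hg0 : act (τ⁻¹ * g * τ) ⟨θ, hθm⟩ = ⟨θ, hθm⟩ := by
        rw [hactm, hactm, hτx, hgx, hτx']
      have hg0' : act (τ⁻¹ * g * τ)⁻¹ ⟨θ, hθm⟩ = ⟨θ, hθm⟩ := by
        conv_lhs => rw [← hg0]
        rw [← hactm, inv_mul_cancel, hact1]
      have h1 : Cc g x = Cc (τ * ((τ⁻¹ * g * τ) * τ⁻¹)) x := by
        congr 1
        group
      rw [h1, hC, hτx', hC, hg0', hst _ (congrArg Subtype.val hg0), add_zero]
      have h2 := hC τ τ⁻¹ x
      rw [mul_inv_cancel, hC1, hτx'] at h2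
      exact h2.symm
    obtain ⟨D, hD, -⟩ := ops_shapiro act hact1 hactm Cc hC hfix
    have hk0 : ∀ g : E ≃ₐ[K] E, ℓ ∣ ∑ x ∈ rtsOver p res (res θ), k g x := by
      intro g
      have h1 : ∑ x : {x // x ∈ rtsOver p res (res θ)}, Cc g x = 0 := by
        have h2 : ∑ x : {x // x ∈ rtsOver p res (res θ)}, D (act g⁻¹ x) =
            ∑ x : {x // x ∈ rtsOver p res (res θ)}, D x :=
          Fintype.sum_equiv ⟨act g⁻¹, act g, fun x => by rw [← hactm, mul_inv_cancel, hact1],
            fun x => by rw [← hactm, inv_mul_cancel, hact1]⟩ _ _ (fun x => rfl)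
        rw [Finset.sum_congr rfl (fun x _ => hD g x), Finset.sum_sub_distrib, h2, sub_self]
      have h3 : ∑ x ∈ rtsOver p res (res θ), ((e g x : ZMod ℓ) - k g x * a) = 0 := by
        rw [← h1]
        exact (Finset.sum_coe_sort (rtsOver p res (res θ))
          (fun x => (e g x : ZMod ℓ) - k g x * a)).symm
      have h4 : ∑ x ∈ rtsOver p res (res θ), (e g x : ZMod ℓ) = 0 := by
        have h5 := (ZMod.intCast_zmod_eq_zero_iff_dvd _ ℓ).2 (hsum g (res θ))
        push_cast at h5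
        exact h5
      rw [Finset.sum_sub_distrib, h4, zero_sub, neg_eq_zero, ← Finset.sum_mul] at h3
      have h6 := (mul_eq_zero.1 h3).resolve_right hane
      rw [← Nat.cast_sum] at h6
      exact (ZMod.natCast_eq_zero_iff _ _).1 h6
    -- the product of the roots
    have hP0 : ∏ x ∈ rtsOver p res (res θ), ρ x ≠ 0 := Finset.prod_ne_zero_iff.2 hne
    have hPfix : ∀ g : E ≃ₐ[K] E, g (∏ x ∈ rtsOver p res (res θ), ρ x) =
        ∏ x ∈ rtsOver p res (res θ), ρ x := by
      intro g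
      rw [map_prod]
      have h1 : ∏ x ∈ rtsOver p res (res θ), g (ρ x) =
          ∏ x ∈ rtsOver p res (res θ), g (ρ (g⁻¹ x)) := by
        refine Finset.prod_nbij' (fun x => g x) (fun x => g⁻¹ x) (fun x hx => hrs g x hx)
          (fun x hx => hrs g⁻¹ x hx) ?_ ?_ ?_
        · intro x _
          show (g⁻¹ * g) x = x
          rw [inv_mul_cancel]
          rfl
        · intro x _
          show (g * g⁻¹) x = x
          rw [mul_inv_cancel]
          rfl
        · intro x _
          have h2 : g⁻¹ (g x) = x := by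
            show (g⁻¹ * g) x = x
            rw [inv_mul_cancel]
            rfl
          rw [h2]
      rw [h1, Finset.prod_congr rfl (fun x _ => hk g x), Finset.prod_mul_distrib,
        Finset.prod_pow_eq_pow_sum]
      obtain ⟨j, hj⟩ := hk0 g
      rw [hj, pow_mul, hζE.pow_eq_one, one_pow, one_mul]
    obtain ⟨mm, y, hy⟩ := exists_pow_mem (K := K) _ hPfix
    have hy0 : y ≠ 0 := by
      rintro rfl
      rw [map_zero] at hy
      exact pow_ne_zero _ hP0 hy
    obtain ⟨i, hi⟩ := hL.disc y hy0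
    have hv0 : 0 < v (algebraMap K E (algebraMap F[X] K X) - algebraMap F E s) :=
      v.pos (sub_ne_zero.2 hL.ctx.ne)
    have hvx : ∀ x ∈ rtsOver p res (res θ), v (ρ x) ^ ℓ = v (θ - algebraMap F E (res θ)) := by
      intro x hx
      obtain ⟨τ, hτ⟩ := horb x hx
      rw [← map_pow, hρ, ← hτ, ← V10c_fix hL τ (res θ), ← map_sub, hL.inv, V10c_fix hL]
    have hvP : v (∏ x ∈ rtsOver p res (res θ), ρ x) ^ ℓ =
        v (algebraMap K E (algebraMap F[X] K X) - algebraMap F E s) := by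
      rw [map_prod, ← Finset.prod_pow, Finset.prod_congr rfl hvx, Finset.prod_const]
      exact (val_root hL hg hp hsep hres hθ).symm
    rw [← hy, map_pow] at hi
    exact V10c_val hv0 hL.ctx.lt_one hℓ (V10c_coprime hℓ hℓF K) hvP hi
  have h1 := ha σ hσ
  rw [ha0, mul_zero] at h1
  exact (ZMod.intCast_zmod_eq_zero_iff_dvd _ ℓ).1 h1

/-- The curve `y ^ ℓ = g(x) - t`. PROOF. It is enough to treat each residue `r` separately (define `q` residue by residue; the roots with
residue `r` are permuted by `Aut(E/K)`, `res_conj`). Fix `r`, a root `θ` with residue `r` and `X` the set of the roots with residue `r`, a single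
orbit (`orbit_root`). (1) SHAPIRO (`ops_shapiro` in `Bra/Ops.lean` for the group `ZMod ℓ`): a cocycle `e` on `X` modulo `ℓ` with
`ℓ ∣ e g θ'` whenever `g θ' = θ'` is a coboundary; it is enough to have this for `θ' = θ` (conjugate: `e (τ g τ⁻¹) (τ θ) ≡ e g θ` for
`g θ = θ`). (2) Let `K₁ = K(θ)`, `LocF` by `locF_adjoin`; `g ↦ e g θ` modulo `ℓ` is a continuous homomorphism of `Aut(E/K₁)`
to `ZMod ℓ`, so by `hom_chi` it is `α χ₁`, `χ₁` given by `exists_isChi` for `ϖ₁ ^ ℓ = θ - r`. (3) Choose `ℓ`-th roots `ρ θ'` of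
`θ' - r` for `θ'` in `X`, `ρ θ = ϖ₁`, and `k g θ'` in `ℕ` with `g (ρ (g⁻¹ θ')) = ζ ^ (k g θ') ρ θ'`: a cocycle modulo `ℓ` on `X`,
continuous, and `k g θ ≡ χ₁ g` for `g` in `Aut(E/K₁)`. So `e - α k` satisfies (1): it is a coboundary, and its sum over `X` is
`0` modulo `ℓ` for all `g`; so `ℓ ∣ α ∑ k g θ'` for all `g`. (4) If `ℓ` does not divide `α` then `ℓ ∣ ∑ k g θ'` for all `g`, so
`P = ∏ ρ θ'` is fixed by `Aut(E/K)`, and `P ^ (q ^ m)` is in `K` (`exists_pow_mem`), `q` prime to `ℓ`; but `P ^ ℓ = ∏ (θ' - r)` has the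
value `v (θ - r) ^ card X = v (t - s)` (`val_root`), so `v (t - s) ^ (q ^ m) = (v (t - s) ^ i) ^ ℓ`, `q ^ m = i ℓ`, contradiction. So
`ℓ ∣ α`, `e` satisfies (1), done. -/
theorem shaProp_of_poly (hℓ : ℓ.Prime) (hℓF : (ℓ : F) ≠ 0) (hζ : IsPrimitiveRoot ζ ℓ)
    (hL : LocF F K s v) {g : F[X]} (hg : g.Monic) {p : E[X]}
    (hp : p = g.map (algebraMap F E) - C (algebraMap K E (algebraMap F[X] K X))) (hsep : p.Separable)
    {res : E → F} (hres : ∀ θ, p.eval θ = 0 → v (θ - algebraMap F E (res θ)) < 1) :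
    ShaProp ℓ K p res := by
  intro e hcts hc hsum
  have : Fact ℓ.Prime := ⟨hℓ⟩
  have hrt : ∀ (g : E ≃ₐ[K] E) (x : E), p.eval x = 0 → p.eval (g x) = 0 := by
    intro g x hx
    rw [V10c_eval hL hp, hx, map_zero]
  obtain ⟨D, hD, -⟩ := ops_shapiro (G := E ≃ₐ[K] E) (X := {x : E // p.eval x = 0})
    (fun g x => ⟨g x.1, hrt g x.1 x.2⟩) (fun x => rfl) (fun g h x => rfl)
    (fun g x => (e g x.1 : ZMod ℓ))
    (by
      intro g h x
      have h1 := (ZMod.intCast_zmod_eq_zero_iff_dvd _ ℓ).2 (hc g h x.1 x.2)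
      push_cast at h1
      exact (sub_eq_zero.1 h1).symm)
    (by
      intro g x hgx
      exact (ZMod.intCast_zmod_eq_zero_iff_dvd _ ℓ).2 (V10c_key hℓ hℓF hζ hL hg hp hsep hres e hcts
        hc hsum x.2 g (congrArg Subtype.val hgx)))
  refine ⟨fun x => if h : p.eval x = 0 then ((D ⟨x, h⟩).val : ℤ) else 0, fun σ θ hθ => ?_⟩
  have h1 := hD σ ⟨θ, hθ⟩
  rw [← ZMod.intCast_zmod_eq_zero_iff_dvd]
  beta_reduce
  rw [dif_pos hθ, dif_pos (hrt σ⁻¹ θ hθ)]
  push_cast
  rw [ZMod.natCast_zmod_val, ZMod.natCast_zmod_val]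
  simp only at h1
  rw [h1, sub_self]

end

end Pool.Agent.Lib.MP_89bcae_ag.Brt

end

section

namespace Pool.Agent.Lib.MP_89bcae_ag.Wt.Lns.LocCtx
end Pool.Agent.Lib.MP_89bcae_ag.Wt.Lns.LocCtx


/-!
# Ramified extensions of the local field
-/

open Polynomial IsDedekindDomain IsLocalRing

open scoped Classical

namespace Pool.Agent.Lib.MP_89bcae_ag.Brt

open Pool.Agent.Lib.MP_89bcae_ag.Sup (LocCtx plc exists_locCtx)

open Pool.Agent.Lib.MP_89bcae_ag.Wt Pool.Agent.Lib.MP_89bcae_ag.Wt.Lns Pool.Agent.Lib.MP_89bcae_ag.Bra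

/-! ROW B4 -/

section

variable {F K M : Type} [Field F] [Field K] [Algebra F[X] K] [Field M] [Algebra K M] [Algebra F M]
  [IsAlgClosure K M] {v : AbsoluteValue M ℝ} {a : F} {g : F[X]}

omit [IsAlgClosure K M] in
/-- `v t ≤ 1`. -/
theorem B4c_le_one_t (hL : LocF F K a v) : v (algebraMap K M (algebraMap F[X] K X)) ≤ 1 := by
  have h1 : v (algebraMap F M a) ≤ 1 := by
    by_cases h0 : a = 0
    · rw [h0, map_zero, map_zero]; exact zero_le_one
    · exact (hL.ctx.const a h0).le
  have h2 := hL.ctx.nonarch (algebraMap K M (algebraMap F[X] K X) - algebraMap F M a) (algebraMap F M a)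
  rw [sub_add_cancel] at h2
  exact h2.trans (max_le hL.ctx.lt_one.le h1)

omit [IsAlgClosure K M] in
/-- the values of the polynomials in `t` are `≤ 1` -/
theorem B4c_le_one (hL : LocF F K a v) (P : F[X]) : v (algebraMap K M (algebraMap F[X] K P)) ≤ 1 := by
  induction P using Polynomial.induction_on' with
  | add p q hp hq =>
    rw [map_add, map_add]
    exact (hL.ctx.nonarch _ _).trans (max_le hp hq)
  | monomial n c =>
    rw [← C_mul_X_pow_eq_monomial, map_mul, map_mul, map_mul, map_pow, map_pow, map_pow]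
    have h1 : v (algebraMap K M (algebraMap F[X] K (C c))) ≤ 1 := by
      rw [← hL.compat]
      by_cases h0 : c = 0
      · rw [h0, map_zero, map_zero]; exact zero_le_one
      · exact (hL.ctx.const c h0).le
    exact mul_le_one₀ h1 (pow_nonneg (v.nonneg _) _) (pow_le_one₀ (v.nonneg _) (B4c_le_one_t hL))

omit [IsAlgClosure K M] in
/-- `v (P(t)) = 1` if `P(a) ≠ 0` -/
theorem B4c_eq_one (hL : LocF F K a v) (P : F[X]) (hP : P.eval a ≠ 0) :
    v (algebraMap K M (algebraMap F[X] K P)) = 1 := by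
  obtain ⟨Q, hQ⟩ : (X - C a) ∣ P - C (P.eval a) := X_sub_C_dvd_sub_C_eval
  have h1 : v (algebraMap K M (algebraMap F[X] K (P - C (P.eval a)))) < 1 := by
    rw [hQ, map_mul, map_mul, map_mul, map_sub, map_sub, ← hL.compat]
    calc v (algebraMap K M (algebraMap F[X] K X) - algebraMap F M a) * v (algebraMap K M (algebraMap F[X] K Q))
        ≤ v (algebraMap K M (algebraMap F[X] K X) - algebraMap F M a) * 1 :=
          mul_le_mul_of_nonneg_left (B4c_le_one hL Q) (v.nonneg _)
      _ < 1 := by rw [mul_one]; exact hL.ctx.lt_one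
  rw [map_sub, map_sub, ← hL.compat] at h1
  refine le_antisymm (B4c_le_one hL P) ?_
  have h2 := hL.ctx.nonarch (algebraMap K M (algebraMap F[X] K P))
    (-(algebraMap K M (algebraMap F[X] K P) - algebraMap F M (P.eval a)))
  rw [← sub_eq_add_neg, sub_sub_cancel, hL.ctx.const _ hP, v.map_neg] at h2
  rcases le_max_iff.1 h2 with h3 | h3
  · exact h3
  · exact absurd h1 (not_lt.2 h3)

/-- PROOF. `D = (X - a) D₁`, `D₁(a) ≠ 0`, so `v (D(t)) = v (t - a)` and `v u ^ (ℓ ^ r) = v (t - a) < 1`. The minimal polynomial of `u` over `K` divides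
`X ^ (ℓ ^ r) - D(t)`: degree `≤ ℓ ^ r`. `disc_adjoin` (row V9) with `ϖ = u`, `e = ℓ ^ r` gives `disc`; the other conditions are immediate. -/
theorem locF_ram (hL : LocF F K a v) {ℓ r : ℕ} (hℓ : 0 < ℓ) {D : F[X]} (ha : D.eval a = 0)
    (hD : D.Separable) {u : M} (hu : u ^ ℓ ^ r = algebraMap K M (algebraMap F[X] K D)) :
    @LocF F (IntermediateField.adjoin K {u}) M _ _ _ (algAdj F K u) _ _ 0 v := by
  have hM : IsAlgClosed M := IsAlgClosure.isAlgClosed K
  have he : 0 < ℓ ^ r := pow_pos hℓ r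
  -- the value of `u`
  have hv : v u ^ ℓ ^ r = v (algebraMap K M (algebraMap F[X] K X) - algebraMap F M a) := by
    obtain ⟨D₁, hD₁⟩ : (X - C a) ∣ D := dvd_iff_isRoot.2 ha
    have h1 : D₁.eval a ≠ 0 := by
      intro h0
      obtain ⟨D₂, hD₂⟩ : (X - C a) ∣ D₁ := dvd_iff_isRoot.2 h0
      have h2 : (X - C a) * (X - C a) ∣ D := ⟨D₂, by rw [hD₁, hD₂, mul_assoc]⟩
      exact not_isUnit_X_sub_C a (hD.squarefree _ h2)
    rw [← map_pow, hu, hD₁, map_mul, map_mul, map_mul, B4c_eq_one hL D₁ h1, mul_one, map_sub, map_sub,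
      ← hL.compat]
  have hpos : 0 < v (algebraMap K M (algebraMap F[X] K X) - algebraMap F M a) :=
    v.pos (sub_ne_zero.2 hL.ctx.ne)
  have hu0 : u ≠ 0 := by
    rintro rfl
    rw [map_zero, zero_pow he.ne'] at hv
    exact hpos.ne hv
  have hu1 : v u < 1 := by
    by_contra hge
    have h1 : 1 ≤ v u ^ ℓ ^ r := one_le_pow₀ (not_lt.1 hge)
    rw [hv] at h1
    exact absurd hL.ctx.lt_one (not_lt.2 h1)
  have hroot : aeval u (X ^ ℓ ^ r - C (algebraMap F[X] K D) : Polynomial K) = 0 := by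
    rw [map_sub, map_pow, aeval_X, aeval_C, hu, sub_self]
  have hmon : (X ^ ℓ ^ r - C (algebraMap F[X] K D) : Polynomial K).Monic :=
    monic_X_pow_sub_C _ he.ne'
  have hint : IsIntegral K u := ⟨_, hmon, hroot⟩
  have hdeg : (minpoly K u).natDegree ≤ ℓ ^ r := by
    have h1 := natDegree_le_of_dvd (minpoly.dvd K u hroot) hmon.ne_zero
    rwa [natDegree_X_pow_sub_C] at h1
  have hgen : algebraMap (IntermediateField.adjoin K {u}) M
      ((algAdj F K u).algebraMap X) = u := by
    show algebraMap (IntermediateField.adjoin K {u}) M (eval₂RingHom _ _ X) = u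
    rw [coe_eval₂RingHom, eval₂_X]
    exact IntermediateField.AdjoinSimple.algebraMap_gen K u
  refine @LocF.mk F (IntermediateField.adjoin K {u}) M _ _ _ (algAdj F K u) _ _ 0 v ?_ ?_ ?_ ?_
  · intro c
    rw [hL.compat c]
    show algebraMap K M (algebraMap F[X] K (C c)) =
      algebraMap (IntermediateField.adjoin K {u}) M (eval₂RingHom _ _ (C c))
    rw [coe_eval₂RingHom, eval₂_C]
    rfl
  · show LocCtx v 0 (algebraMap (IntermediateField.adjoin K {u}) M ((algAdj F K u).algebraMap X))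
    rw [hgen]
    refine ⟨hL.ctx.alg, hL.ctx.nonarch, hL.ctx.const, ?_, ?_, hL.ctx.residue⟩
    · rwa [map_zero, sub_zero]
    · rwa [map_zero]
  · intro x hx
    show ∃ i : ℤ, v (algebraMap (IntermediateField.adjoin K {u}) M x) =
      v (algebraMap (IntermediateField.adjoin K {u}) M ((algAdj F K u).algebraMap X) - algebraMap F M 0) ^ i
    rw [hgen, map_zero, sub_zero]
    refine disc_adjoin hL.ctx.nonarch hu0 hu1 he ?_ hint hdeg _ x.2 ?_
    · intro y hy
      obtain ⟨i, hi⟩ := hL.disc y hy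
      exact ⟨i, by rw [hv]; exact hi⟩
    · intro h0
      exact hx (Subtype.ext h0)
  · intro σ x
    exact hL.inv (σ.restrictScalars K) x

end

end Pool.Agent.Lib.MP_89bcae_ag.Brt

end
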