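import Mathlib
import Pool.Agent.Lib.MP_89bcae_ag.Tk.K013
import Pool.Agent.Lib.MP_89bcae_ag.Tk.K027
import Pool.Agent.Lib.MP_89bcae_ag.Tk.K000

set_option linter.all false
attribute [local instance 100000] Pool.Agent.Lib.MP_89bcae_ag.Brt.tffFields
attribute [local instance 100000] Pool.Agent.Lib.MP_89bcae_ag.Wt.ifrNF Pool.Agent.Lib.MP_89bcae_ag.Wt.iddNF

namespace Pool.Agent.Lib.MP_89bcae_ag.Sup
end Pool.Agent.Lib.MP_89bcae_ag.Sup

section

/-!
# Rédei maps with prescribed weights: the algebra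
-/

open Polynomial

open scoped Classical

set_option linter.unusedSimpArgs false
set_option linter.unusedVariables false
set_option linter.unusedSectionVars false

namespace Pool.Agent.Lib.MP_89bcae_ag

section

variable {F : Type*} [Field F]


variable [IsAlgClosed F]


theorem card_roots_of_separable8 {P : F[X]} (hP : P.Separable) :
    P.roots.toFinset.card = P.natDegree := by
  rw [Multiset.toFinset_card_of_nodup (nodup_roots hP),
    (IsAlgClosed.splits P).natDegree_eq_card_roots]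

variable {g D : F[X]}


end

end Pool.Agent.Lib.MP_89bcae_ag

end

section

/-!
# Cycles on a fibre of `g` at a place where the leading coefficient has a simple zero
-/

open Polynomial WithZero

open scoped Classical Pointwise

set_option linter.unusedSimpArgs false
set_option linter.unusedVariables false
set_option linter.unusedSectionVars false
set_option linter.style.haveILetI false

namespace Pool.Agent.Lib.MP_89bcae_ag

section Aux

variable {K κ : Type*} [Field K] [Field κ] {v : Valuation K ℤᵐ⁰} {q : v.integer →+* κ}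

/-- Distinct roots of a polynomial with separable reduction have distinct reductions. -/
lemma inj_red8 {O κ : Type*} [CommRing O] [IsDomain O] [Field κ] (q : O →+* κ) {G : O[X]}
    (hs : (G.map q).Separable) {x y : O} (hx : G.eval x = 0) (hy : G.eval y = 0)
    (hxy : q x = q y) : x = y := by
  by_contra hne
  obtain ⟨H, hH⟩ := dvd_iff_isRoot.mpr hx
  rw [hH, eval_mul, eval_sub, eval_X, eval_C] at hy
  have h1 : H.IsRoot y := (mul_eq_zero.mp hy).resolve_left fun h => hne (sub_eq_zero.mp h).symm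
  obtain ⟨H', hH'⟩ := dvd_iff_isRoot.mpr h1
  have h2 : G.map q = (X - C (q x)) * ((X - C (q x)) * H'.map q) := by
    conv_lhs => rw [hH, hH']
    rw [Polynomial.map_mul, Polynomial.map_mul, Polynomial.map_sub, Polynomial.map_sub, map_X,
      map_C, map_C, hxy]
  rw [h2] at hs
  have h3 : (X - C (q x)) * (X - C (q x)) ∣ (X - C (q x)) * ((X - C (q x)) * H'.map q) := by
    rw [← mul_assoc]
    exact Dvd.intro _ rfl
  exact not_isUnit_X_sub_C _ (hs.squarefree _ h3)

/-- The factorisation of a polynomial over the valuation ring whose leading coefficient is not a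
unit: there is exactly one root which is not integral. -/
theorem exists_pole8 (hq : ∀ x : v.integer, q x = 0 ↔ v x < 1) {D : v.integer[X]} {A : Finset K}
    {a : K} (hD : D.map v.integer.subtype = C a * ∏ α ∈ A, (X - C α)) {n : ℕ} (hn : A.card = n + 1)
    (hdeg : (D.map q).natDegree = n) (hlc : q (D.coeff n) ≠ 0) :
    ∃ α₀ ∈ A, 1 < v α₀ ∧ v (a * α₀) = 1 ∧ ∀ α ∈ A, α ≠ α₀ → v α ≤ 1 := by
  have hq1 : ∀ x : v.integer, q x ≠ 0 ↔ v x = 1 := fun x => by
    rw [Ne, hq, not_lt]
    exact ⟨fun h => le_antisymm x.2 h, fun h => h.ge⟩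
  obtain ⟨A', hA'⟩ : ∃ A', A' = A.filter fun α => v α ≤ 1 := ⟨_, rfl⟩
  obtain ⟨J, hJ⟩ : ∃ J, J = A.filter fun α => ¬ v α ≤ 1 := ⟨_, rfl⟩
  obtain ⟨β, hβ⟩ : ∃ β : K → v.integer, ∀ x (hx : v x ≤ 1), β x = ⟨x, hx⟩ :=
    ⟨fun x => if hx : v x ≤ 1 then ⟨x, hx⟩ else 0, fun x hx => dif_pos hx⟩
  have hβs : ∀ x, v x ≤ 1 → v.integer.subtype (β x) = x := fun x hx => by rw [hβ x hx]; rfl
  have hJ1 : ∀ α ∈ J, 1 < v α ∧ α ≠ 0 ∧ v α⁻¹ < 1 := by
    intro α hα
    rw [hJ, Finset.mem_filter, not_le] at hα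
    have h1 : α ≠ 0 := by
      rintro rfl
      rw [map_zero] at hα
      exact absurd hα.2 (not_lt.mpr zero_le_one)
    refine ⟨hα.2, h1, ?_⟩
    rw [map_inv₀]
    exact inv_lt_one_of_one_lt₀ hα.2
  obtain ⟨Q, hQ⟩ : ∃ Q : v.integer[X],
    Q = (∏ α ∈ A', (X - C (β α))) * ∏ α ∈ J, (1 - C (β α⁻¹) * X) := ⟨_, rfl⟩
  obtain ⟨c, hc⟩ : ∃ c : K, c = a * ∏ α ∈ J, (-α) := ⟨_, rfl⟩
  have hDQ : D.map v.integer.subtype = C c * Q.map v.integer.subtype := by
    have h1 : ∏ α ∈ A, (X - C α : K[X]) = (∏ α ∈ A', (X - C α)) * ∏ α ∈ J, (X - C α) := by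
      rw [hA', hJ, Finset.prod_filter_mul_prod_filter_not]
    have h2 : Q.map v.integer.subtype = (∏ α ∈ A', (X - C α)) * ∏ α ∈ J, (1 - C α⁻¹ * X) := by
      rw [hQ, Polynomial.map_mul, Polynomial.map_prod, Polynomial.map_prod]
      congr 1
      · refine Finset.prod_congr rfl fun α hα => ?_
        rw [hA', Finset.mem_filter] at hα
        rw [Polynomial.map_sub, map_X, map_C, hβs α hα.2]
      · refine Finset.prod_congr rfl fun α hα => ?_
        rw [Polynomial.map_sub, Polynomial.map_one, Polynomial.map_mul, map_X, map_C,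
          hβs _ (hJ1 α hα).2.2.le]
    have h3 : ∏ α ∈ J, (X - C α : K[X]) = C (∏ α ∈ J, (-α)) * ∏ α ∈ J, (1 - C α⁻¹ * X) := by
      rw [map_prod, ← Finset.prod_mul_distrib]
      refine Finset.prod_congr rfl fun α hα => ?_
      have h4 : C α * C α⁻¹ = (1 : K[X]) := by
        rw [← C_mul, mul_inv_cancel₀ (hJ1 α hα).2.1, C_1]
      rw [C_neg]
      linear_combination (-X) * h4
    rw [hD, h1, h2, h3, hc, C_mul]
    ring
  have hQq : Q.map q = ∏ α ∈ A', (X - C (q (β α))) := by
    rw [hQ, Polynomial.map_mul, Polynomial.map_prod, Polynomial.map_prod]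
    have h1 : ∏ α ∈ J, (1 - C (β α⁻¹) * X : v.integer[X]).map q = 1 := by
      refine Finset.prod_eq_one fun α hα => ?_
      have h2 : q (β α⁻¹) = 0 := by
        rw [hq, hβ _ (hJ1 α hα).2.2.le]
        exact (hJ1 α hα).2.2
      rw [Polynomial.map_sub, Polynomial.map_one, Polynomial.map_mul, map_X, map_C, h2, C_0,
        zero_mul, sub_zero]
    rw [h1, mul_one]
    refine Finset.prod_congr rfl fun α _ => ?_
    rw [Polynomial.map_sub, map_X, map_C]
  have hQmon : (Q.map q).Monic := by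
    rw [hQq]
    exact monic_prod_X_sub_C _ _
  have hQdeg : (Q.map q).natDegree = A'.card := by
    rw [hQq, natDegree_prod_of_monic _ _ fun α _ => monic_X_sub_C _]
    simp
  have hcoef : ∀ i, ((D.coeff i : v.integer) : K) = c * ((Q.coeff i : v.integer) : K) := by
    intro i
    have h1 := congrArg (fun p => coeff p i) hDQ
    simp only [coeff_map, coeff_C_mul] at h1
    exact h1
  have hc1 : v c ≤ 1 := by
    have h1 : v ((Q.coeff A'.card : v.integer) : K) = 1 := by
      rw [← hq1]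
      have h2 : (Q.map q).coeff A'.card = 1 := by
        rw [← hQdeg]
        exact hQmon
      rw [coeff_map] at h2
      rw [h2]
      exact one_ne_zero
    have h3 := congrArg v (hcoef A'.card)
    rw [map_mul, h1, mul_one] at h3
    rw [← h3]
    exact (D.coeff A'.card).2
  have hc2 : 1 ≤ v c := by
    have h1 : v ((D.coeff n : v.integer) : K) = 1 := (hq1 _).mp hlc
    have h3 := congrArg v (hcoef n)
    rw [map_mul, h1] at h3
    rw [h3]
    exact mul_le_of_le_one_right' (Q.coeff n).2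
  have hc3 : v c = 1 := le_antisymm hc1 hc2
  have hDO : D = C (⟨c, hc1⟩ : v.integer) * Q := by
    apply Polynomial.map_injective v.integer.subtype Subtype.val_injective
    rw [hDQ, Polynomial.map_mul, map_C]
    rfl
  have hcq : q ⟨c, hc1⟩ ≠ 0 := (hq1 _).mpr hc3
  have hcard : A'.card = n := by
    rw [← hdeg, hDO, Polynomial.map_mul, map_C, natDegree_C_mul hcq, hQdeg]
  have hJcard : J.card = 1 := by
    have h1 : A'.card + J.card = A.card := by
      rw [hA', hJ]
      exact Finset.card_filter_add_card_filter_not _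
    omega
  obtain ⟨α₀, hα₀⟩ := Finset.card_eq_one.mp hJcard
  have hm : α₀ ∈ J := by rw [hα₀]; exact Finset.mem_singleton_self _
  refine ⟨α₀, ?_, (hJ1 α₀ hm).1, ?_, fun α hα hne => ?_⟩
  · rw [hJ, Finset.mem_filter] at hm
    exact hm.1
  · rw [hc, hα₀, Finset.prod_singleton, mul_neg, Valuation.map_neg] at hc3
    exact hc3
  · by_contra hcon
    have h1 : α ∈ J := by
      rw [hJ, Finset.mem_filter]
      exact ⟨hα, hcon⟩
    rw [hα₀, Finset.mem_singleton] at h1
    exact hne h1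

/-- The value of a polynomial over the valuation ring at an element outside of it. -/
lemma val_eval8 (h : v.integer[X]) {d : ℕ} (hd : h.natDegree ≤ d)
    (hc : v ((h.coeff d : v.integer) : K) = 1) {x : K} (hx : 1 < v x) :
    v ((h.map v.integer.subtype).eval x) = v x ^ d := by
  have hx0 : v x ≠ 0 := (zero_lt_one.trans hx).ne'
  rw [eval_map, eval₂_eq_sum_range' v.integer.subtype (Nat.lt_succ_of_le hd), Finset.sum_range_succ]
  have h1 : v (v.integer.subtype (h.coeff d) * x ^ d) = v x ^ d := by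
    rw [map_mul, map_pow]
    have h2 : v (v.integer.subtype (h.coeff d)) = 1 := hc
    rw [h2, one_mul]
  have h3 : v (∑ i ∈ Finset.range d, v.integer.subtype (h.coeff i) * x ^ i) <
      v (v.integer.subtype (h.coeff d) * x ^ d) := by
    rw [h1]
    apply Valuation.map_sum_lt v (pow_ne_zero d hx0)
    intro i hi
    rw [Finset.mem_range] at hi
    rw [map_mul, map_pow]
    have h4 : v (v.integer.subtype (h.coeff i)) ≤ 1 := (h.coeff i).2
    calc v (v.integer.subtype (h.coeff i)) * v x ^ i ≤ v x ^ i := mul_le_of_le_one_left' h4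
      _ < v x ^ d := pow_lt_pow_right₀ hx hi
  rw [add_comm, Valuation.map_add_eq_of_lt_left _ h3, h1]

/-- The differences of the elements of the fibre over the pole. -/
lemma val_sub8 {g : v.integer[X]} (hg : g.Monic) {m : ℕ} (hm : g.natDegree = m)
    (hm1 : v (m : K) = 1) {α₀ : K} (hα₀ : 1 < v α₀) {T : Finset K}
    (hT : g.map v.integer.subtype - C α₀ = ∏ b ∈ T, (X - C b)) {x : K} (hx : x ∈ T) {y : K}
    (hy : y ∈ T) (hxy : x ≠ y) : v (x - y) = v x := by
  have hm0 : m ≠ 0 := by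
    rintro rfl
    rw [Nat.cast_zero, map_zero] at hm1
    exact zero_ne_one hm1
  have hTcard : T.card = m := by
    have h1 := congrArg natDegree hT
    rw [natDegree_sub_C, hg.natDegree_map, hm, natDegree_prod_of_monic _ _
      fun α _ => monic_X_sub_C _] at h1
    simpa using h1.symm
  have hTeval : ∀ z ∈ T, (g.map v.integer.subtype).eval z = α₀ := by
    intro z hz
    have h1 := congrArg (eval z) hT
    rw [eval_sub, eval_C, eval_prod, Finset.prod_eq_zero hz (by simp), sub_eq_zero] at h1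
    exact h1
  have hint : ∀ z : K, v z ≤ 1 → v ((g.map v.integer.subtype).eval z) ≤ 1 := by
    intro z hz
    have h1 : (g.map v.integer.subtype).eval z = v.integer.subtype (g.eval ⟨z, hz⟩) := by
      rw [eval_map, ← eval₂_at_apply]
      rfl
    rw [h1]
    exact (g.eval ⟨z, hz⟩).2
  have hTv : ∀ z ∈ T, 1 < v z := by
    intro z hz
    by_contra hcon
    rw [not_lt] at hcon
    have h1 := hint z hcon
    rw [hTeval z hz] at h1
    exact absurd hα₀ (not_lt.mpr h1)
  have hTpow : ∀ z ∈ T, v z ^ m = v α₀ := by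
    intro z hz
    rw [← hTeval z hz]
    refine (val_eval8 g hm.le ?_ (hTv z hz)).symm
    have h1 : g.coeff m = 1 := by rw [← hm]; exact hg
    rw [h1]
    exact map_one v
  have hTeq : ∀ z ∈ T, v z = v x := by
    intro z hz
    exact (pow_left_inj₀ zero_le zero_le hm0).mp ((hTpow z hz).trans (hTpow x hx).symm)
  have hx0 : v x ≠ 0 := (zero_lt_one.trans (hTv x hx)).ne'
  -- the derivative
  have hder : (derivative (g.map v.integer.subtype)).eval x = ∏ z ∈ T.erase x, (x - z) := by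
    have h1 := congrArg derivative hT
    rw [derivative_sub, derivative_C, sub_zero, ← Finset.mul_prod_erase T _ hx, derivative_mul,
      derivative_sub, derivative_X, derivative_C, sub_zero, one_mul] at h1
    rw [h1, eval_add, eval_mul, eval_sub, eval_X, eval_C, sub_self, zero_mul, add_zero, eval_prod]
    simp
  have hval : v (∏ z ∈ T.erase x, (x - z)) = v x ^ (m - 1) := by
    rw [← hder, derivative_map]
    refine val_eval8 (derivative g) ?_ ?_ (hTv x hx)
    · have h1 := natDegree_derivative_le g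
      omega
    · rw [coeff_derivative]
      have h1 : g.coeff (m - 1 + 1) = 1 := by
        rw [Nat.sub_add_cancel (Nat.pos_of_ne_zero hm0), ← hm]
        exact hg
      have h2 : ((m - 1 : ℕ) : v.integer) + 1 = (m : v.integer) := by
        rw [← Nat.cast_succ]
        congr 1
        omega
      rw [h1, one_mul, h2]
      exact hm1
  have hle : ∀ z ∈ T.erase x, v ((x - z) / x) ≤ 1 := by
    intro z hz
    rw [Finset.mem_erase] at hz
    rw [map_div₀]
    apply div_le_one_of_le₀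
    · refine (v.map_sub x z).trans (max_le le_rfl (hTeq z hz.2).le)
    · exact zero_le
  have hprod : ∏ z ∈ T.erase x, v ((x - z) / x) = 1 := by
    have h1 : ∏ z ∈ T.erase x, v ((x - z) / x) = v (∏ z ∈ T.erase x, (x - z)) / v x ^ (m - 1) := by
      rw [map_prod]
      simp only [map_div₀]
      rw [Finset.prod_div_distrib, Finset.prod_const, Finset.card_erase_of_mem hx, hTcard]
    rw [h1, hval, div_self (pow_ne_zero _ hx0)]
  have hall := (Finset.prod_eq_one_iff_of_le_one' hle).mp hprod y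
    (Finset.mem_erase.mpr ⟨hxy.symm, hy⟩)
  rw [map_div₀, div_eq_one_iff_eq hx0] at hall
  exact hall

/-- **The inertia group is transitive on the fibre over the pole.** -/
theorem exists_cycle_aux8 {k : Type*} [Field k] [Algebra k K]
    (hq : ∀ x : v.integer, q x = 0 ↔ v x < 1) (I : Subgroup (K ≃ₐ[k] K)) [Finite I]
    (hI1 : ∀ σ ∈ I, ∀ x, v (σ x) = v x) (hI2 : ∀ σ ∈ I, ∀ x, v x ≤ 1 → v (σ x - x) < 1)
    {e : ℕ} (he0 : 0 < e) (he : e ≤ Nat.card I) {g D : v.integer[X]} (hg : g.Monic)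
    (hgm : v (g.natDegree : K) = 1) {S A : Finset K} {a : K} (ha : v a = exp (-(e : ℤ)))
    (hD : D.map v.integer.subtype = C a * ∏ α ∈ A, (X - C α)) {n : ℕ} (hn : A.card = n + 1)
    (hdeg : (D.map q).natDegree = n) (hlc : q (D.coeff n) ≠ 0)
    (hgS : ∀ α ∈ A, g.map v.integer.subtype - C α =
      ∏ b ∈ S.filter (fun b => (g.map v.integer.subtype).eval b = α), (X - C b))
    (hsep : ((D.comp g).map q).Separable)
    (hgσ : ∀ σ ∈ I, ∀ x, (g.map v.integer.subtype).eval (σ x) =
      σ ((g.map v.integer.subtype).eval x))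
    (hDσ : ∀ σ ∈ I, ∀ x, (D.map v.integer.subtype).eval (σ x) =
      σ ((D.map v.integer.subtype).eval x))
    (hgen : ∀ σ ∈ I, (∀ b ∈ S, σ b = b) → σ = 1)
    (hSA : ∀ b ∈ S, (g.map v.integer.subtype).eval b ∈ A) :
    ∃ α₀ ∈ A, ∀ x ∈ S, ∀ y ∈ S, (g.map v.integer.subtype).eval x = α₀ →
      (g.map v.integer.subtype).eval y = α₀ → ∃ σ ∈ I, σ x = y ∧
        ∀ b ∈ S, (g.map v.integer.subtype).eval b ≠ α₀ → σ b = b := by
  obtain ⟨α₀, hα₀A, hα₀1, haα₀, hα₀u⟩ := exists_pole8 hq hD hn hdeg hlc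
  obtain ⟨m, hm⟩ : ∃ m, g.natDegree = m := ⟨_, rfl⟩
  rw [hm] at hgm
  have hm0 : m ≠ 0 := by
    rintro rfl
    rw [Nat.cast_zero, map_zero] at hgm
    exact zero_ne_one hgm
  set gK := g.map v.integer.subtype with hgK
  obtain ⟨T, hT⟩ : ∃ T, T = S.filter fun b => gK.eval b = α₀ := ⟨_, rfl⟩
  have hTmem : ∀ b, b ∈ T ↔ gK.eval b = α₀ := by
    intro b
    rw [hT, Finset.mem_filter]
    constructor
    · exact fun h => h.2
    · intro h
      refine ⟨?_, h⟩
      have h1 := congrArg (eval b) (hgS α₀ hα₀A)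
      rw [eval_sub, eval_C, h, sub_self, eval_prod, eq_comm, Finset.prod_eq_zero_iff] at h1
      obtain ⟨b', hb', h2⟩ := h1
      rw [eval_sub, eval_X, eval_C, sub_eq_zero] at h2
      rw [h2]
      exact (Finset.mem_filter.mp hb').1
  have hTprod : gK - C α₀ = ∏ b ∈ T, (X - C b) := by rw [hT]; exact hgS α₀ hα₀A
  have hTcard : T.card = m := by
    have h1 := congrArg natDegree hTprod
    rw [natDegree_sub_C, hg.natDegree_map, hm, natDegree_prod_of_monic _ _
      fun α _ => monic_X_sub_C _] at h1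
    simpa using h1.symm
  have hTsub := fun {x : K} (hx : x ∈ T) {y : K} (hy : y ∈ T) (hxy : x ≠ y) =>
    val_sub8 hg hm hgm hα₀1 hTprod hx hy hxy
  have hev : ∀ (p : v.integer[X]) (z : K) (hz : v z ≤ 1),
      (p.map v.integer.subtype).eval z = ((p.eval ⟨z, hz⟩ : v.integer) : K) := by
    intro p z hz
    have h1 : (p.map v.integer.subtype).eval z = v.integer.subtype (p.eval ⟨z, hz⟩) := by
      rw [eval_map, ← eval₂_at_apply]
      rfl
    exact h1
  have hTv : ∀ z ∈ T, 1 < v z := by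
    intro z hz
    by_contra hcon
    rw [not_lt] at hcon
    have h1 := (g.eval ⟨z, hcon⟩).2
    have h2 : v (gK.eval z) ≤ 1 := by
      rw [hev g z hcon]
      exact h1
    rw [(hTmem z).mp hz] at h2
    exact absurd hα₀1 (not_lt.mpr h2)
  have hgcoeff : v ((g.coeff m : v.integer) : K) = 1 := by
    have h1 : g.coeff m = 1 := by rw [← hm]; exact hg
    rw [h1]
    exact map_one v
  have hTpow : ∀ z ∈ T, v z ^ m = v α₀ := by
    intro z hz
    rw [← (hTmem z).mp hz]
    exact (val_eval8 g hm.le hgcoeff (hTv z hz)).symm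
  -- the roots in the other fibres
  have hother : ∀ b ∈ S, gK.eval b ≠ α₀ → v b ≤ 1 := by
    intro b hb hne
    by_contra hcon
    rw [not_le] at hcon
    have h1 : v (gK.eval b) = v b ^ m := val_eval8 g hm.le hgcoeff hcon
    have h2 := hα₀u _ (hSA b hb) hne
    rw [h1] at h2
    exact absurd (one_lt_pow₀ hcon hm0) (not_lt.mpr h2)
  have hAev : ∀ α ∈ A, (D.map v.integer.subtype).eval α = 0 := by
    intro α hα
    rw [hD, eval_mul, eval_prod, Finset.prod_eq_zero hα (by simp), mul_zero]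
  have hA0 : a ≠ 0 := by
    intro h0
    rw [h0, map_zero] at ha
    exact exp_ne_zero ha.symm
  have hAmem : ∀ α, (D.map v.integer.subtype).eval α = 0 → α ∈ A := by
    intro α hα
    rw [hD, eval_mul, eval_C, eval_prod, mul_eq_zero, Finset.prod_eq_zero_iff] at hα
    rcases hα with hα | ⟨α', h1, h2⟩
    · exact absurd hα hA0
    · rw [eval_sub, eval_X, eval_C, sub_eq_zero] at h2
      rw [h2]
      exact h1
  have hσA : ∀ σ ∈ I, ∀ α ∈ A, σ α ∈ A := by
    intro σ hσ α hα
    apply hAmem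
    rw [hDσ σ hσ, hAev α hα, map_zero]
  have hσα₀ : ∀ σ ∈ I, σ α₀ = α₀ := by
    intro σ hσ
    by_contra hne
    have h1 := hα₀u _ (hσA σ hσ α₀ hα₀A) hne
    rw [hI1 σ hσ] at h1
    exact absurd hα₀1 (not_lt.mpr h1)
  have hσT : ∀ σ ∈ I, ∀ x ∈ T, σ x ∈ T := by
    intro σ hσ x hx
    rw [hTmem, hgσ σ hσ, (hTmem x).mp hx, hσα₀ σ hσ]
  have hfix : ∀ σ ∈ I, ∀ b ∈ S, gK.eval b ≠ α₀ → σ b = b := by
    intro σ hσ b hb hne
    have h1 := hother b hb hne
    have h2 : v (σ b) ≤ 1 := by rw [hI1 σ hσ]; exact h1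
    have hroot : ∀ (z : K) (hz : v z ≤ 1), gK.eval z ∈ A →
        (D.comp g).eval (⟨z, hz⟩ : v.integer) = 0 := by
      intro z hz hzA
      have h3 := hev (D.comp g) z hz
      rw [Polynomial.map_comp, eval_comp, hAev _ hzA] at h3
      exact Subtype.ext h3.symm
    have h4 : gK.eval (σ b) ∈ A := by
      rw [hgσ σ hσ]
      exact hσA σ hσ _ (hSA b hb)
    have h5 := inj_red8 q hsep (hroot (σ b) h2 h4) (hroot b h1 (hSA b hb)) (by
      rw [← sub_eq_zero, ← map_sub, hq]
      exact hI2 σ hσ b h1)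
    exact congrArg Subtype.val h5
  have hone : ∀ σ ∈ I, ∀ x ∈ T, σ x = x → σ = 1 := by
    intro σ hσ x hx hσx
    apply hgen σ hσ
    intro b hb
    by_cases hbα : gK.eval b = α₀
    · have hbT : b ∈ T := (hTmem b).mpr hbα
      by_contra hne
      have hx0 : x ≠ 0 := by
        rintro rfl
        have h1 := hTv 0 hx
        rw [map_zero] at h1
        exact absurd h1 (not_lt.mpr zero_le_one)
      have hvx0 : v x ≠ 0 := (Valuation.ne_zero_iff v).mpr hx0
      have hvb : v b = v x :=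
        (pow_left_inj₀ zero_le zero_le hm0).mp ((hTpow b hbT).trans (hTpow x hx).symm)
      have h1 : v (b / x) ≤ 1 := by rw [map_div₀, hvb, div_self hvx0]
      have h2 := hI2 σ hσ (b / x) h1
      rw [map_div₀, hσx, ← sub_div, map_div₀, div_lt_one₀ (zero_lt_iff.mpr hvx0)] at h2
      have h3 := hTsub (hσT σ hσ b hbT) hbT hne
      have h4 : v (σ b) = v x := (hI1 σ hσ b).trans hvb
      rw [h3, h4] at h2
      exact lt_irrefl _ h2
    · exact hfix σ hσ b hb hbα
  -- the count
  obtain ⟨x₀, hx₀⟩ : T.Nonempty := by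
    rw [← Finset.card_pos, hTcard]
    exact Nat.pos_of_ne_zero hm0
  have hme : m ≤ e := by
    have h1 := hTpow x₀ hx₀
    rw [map_mul, ha] at haα₀
    have h2 : v α₀ = exp (e : ℤ) := by
      have h3 : exp (-(e : ℤ)) * exp (e : ℤ) = 1 := by
        rw [← exp_add, neg_add_cancel, exp_zero]
      rw [← h3] at haα₀
      exact mul_left_cancel₀ exp_ne_zero haα₀
    rw [h2] at h1
    have hv0 : v x₀ ≠ 0 := (zero_lt_one.trans (hTv x₀ hx₀)).ne'
    rw [← exp_log hv0, ← exp_nsmul, exp_inj] at h1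
    have h4 : (m : ℤ) ∣ e := ⟨log (v x₀), by rw [← h1, nsmul_eq_mul]⟩
    exact Nat.le_of_dvd he0 (Int.natCast_dvd_natCast.mp h4)
  have hbij : ∀ (x : K) (hx : x ∈ T), Function.Bijective
      (fun σ : I => (⟨(σ : K ≃ₐ[k] K) x, hσT σ σ.2 x hx⟩ : T)) := by
    intro x hx
    have hinj : Function.Injective
        (fun σ : I => (⟨(σ : K ≃ₐ[k] K) x, hσT σ σ.2 x hx⟩ : T)) := by
      intro σ τ hστ
      have h3 : (σ : K ≃ₐ[k] K) x = (τ : K ≃ₐ[k] K) x := congrArg Subtype.val hστ
      have h4 : (τ⁻¹ * σ : I) = 1 := by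
        apply Subtype.ext
        apply hone _ (τ⁻¹ * σ).2 x hx
        change (τ : K ≃ₐ[k] K).symm ((σ : K ≃ₐ[k] K) x) = x
        rw [h3, AlgEquiv.symm_apply_apply]
      exact (inv_mul_eq_one.mp h4).symm
    refine (Nat.bijective_iff_injective_and_card _).mpr ⟨hinj, ?_⟩
    have h5 := Nat.card_le_card_of_injective _ hinj
    rw [Nat.card_eq_fintype_card (α := T), Fintype.card_coe, hTcard] at h5 ⊢
    omega
  refine ⟨α₀, hα₀A, fun x hx y hy hxα hyα => ?_⟩
  obtain ⟨σ, hσ⟩ := (hbij x ((hTmem x).mpr hxα)).2 ⟨y, (hTmem y).mpr hyα⟩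
  exact ⟨σ, σ.2, congrArg Subtype.val hσ, hfix σ σ.2⟩

end Aux

/-- The residue field of a valuation ring. -/
lemma exists_residue8 {K : Type*} [Field K] (v : Valuation K ℤᵐ⁰) :
    ∃ q : v.integer →+* IsLocalRing.ResidueField v.valuationSubring,
      ∀ x : v.integer, q x = 0 ↔ v x < 1 := by
  let e : v.integer →+* v.valuationSubring :=
    { toFun := fun x => ⟨x, x.2⟩
      map_one' := rfl
      map_mul' := fun _ _ => rfl
      map_zero' := rfl
      map_add' := fun _ _ => rfl }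
  refine ⟨(IsLocalRing.residue v.valuationSubring).comp e, fun x => ?_⟩
  rw [RingHom.comp_apply, IsLocalRing.residue_eq_zero_iff,
    ValuationSubring.valuation_lt_one_iff]
  exact (Valuation.isEquiv_iff_val_lt_one.mp
    (Valuation.isEquiv_valuation_valuationSubring v)).symm

section Main

variable {R k K : Type*} [CommRing R] [IsDomain R] [IsDiscreteValuationRing R] [Field k]
    [Algebra R k] [IsFractionRing R k] [Field K] [Algebra k K] [Algebra R K] [IsScalarTower R k K]
    [FiniteDimensional k K] [IsGalois k K]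

/-- **Cycles on a fibre.** -/
theorem exists_cycle8 {g D : R[X]} (hg : g.Monic)
    (hgm : (g.natDegree : IsLocalRing.ResidueField R) ≠ 0) {n : ℕ} (hn : D.natDegree = n + 1)
    (hlc1 : D.leadingCoeff ∈ IsLocalRing.maximalIdeal R)
    (hlc2 : D.leadingCoeff ∉ IsLocalRing.maximalIdeal R ^ 2)
    (hlc3 : D.coeff n ∉ IsLocalRing.maximalIdeal R)
    (hsep : ((D.map (IsLocalRing.residue R)).comp (g.map (IsLocalRing.residue R))).Separable)
    (S A : Finset K) (hDA : D.map (algebraMap R K) =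
      C (algebraMap R K D.leadingCoeff) * ∏ α ∈ A, (X - C α))
    (hgS : ∀ α ∈ A, g.map (algebraMap R K) - C α =
      ∏ b ∈ S.filter (fun b => (g.map (algebraMap R K)).eval b = α), (X - C b))
    (hSA : ∀ b ∈ S, (g.map (algebraMap R K)).eval b ∈ A)
    (hgen : ∀ σ : K ≃ₐ[k] K, (∀ b ∈ S, σ b = b) → σ = 1) :
    ∃ α₀ ∈ A, ∀ x ∈ S, ∀ y ∈ S, (g.map (algebraMap R K)).eval x = α₀ →
      (g.map (algebraMap R K)).eval y = α₀ → ∃ σ : K ≃ₐ[k] K, σ x = y ∧
        ∀ b ∈ S, (g.map (algebraMap R K)).eval b ≠ α₀ → σ b = b := by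
  -- the integral closure
  set B := integralClosure R K with hB
  haveI : IsDedekindDomain B := integralClosure.isDedekindDomain R k K
  haveI : Module.Finite R B := IsIntegralClosure.finite R k K B
  haveI : IsFractionRing B K := integralClosure.isFractionRing_of_finite_extension k K
  haveI : SMulCommClass (K ≃ₐ[k] K) R K := ⟨fun σ r x => by
    rw [AlgEquiv.smul_def, AlgEquiv.smul_def, Algebra.smul_def, Algebra.smul_def, map_mul,
      IsScalarTower.algebraMap_apply R k K, AlgEquiv.commutes]⟩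
  haveI : IsGaloisGroup (K ≃ₐ[k] K) R B := IsGaloisGroup.of_isFractionRing _ _ _ k K
  have hinjK : Function.Injective (algebraMap R K) := by
    rw [IsScalarTower.algebraMap_eq R k K]
    exact (algebraMap k K).injective.comp (IsFractionRing.injective R k)
  have hinjB : Function.Injective (algebraMap B K) := Subtype.val_injective
  haveI : FaithfulSMul R B := by
    rw [faithfulSMul_iff_algebraMap_injective]
    intro x y hxy
    exact hinjK (congrArg (algebraMap B K) hxy)
  haveI : Module.IsTorsionFree R B := FaithfulSMul.to_isTorsionFree R B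
  haveI : Module.Flat R B := inferInstance
  let v : IsDedekindDomain.HeightOneSpectrum R := IsDiscreteValuationRing.maximalIdeal R
  have hvmax : v.asIdeal.IsMaximal := v.isMaximal
  obtain ⟨P, hPmax, hPv⟩ := Ideal.exists_maximal_ideal_liesOver_of_isIntegral (S := B) v.asIdeal
  have hP0 : P ≠ ⊥ := Ideal.ne_bot_of_liesOver_of_ne_bot v.ne_bot P
  let w : IsDedekindDomain.HeightOneSpectrum B := ⟨P, hPmax.isPrime, hP0⟩
  have hwv : w.asIdeal.LiesOver v.asIdeal := hPv
  -- the ramification index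
  have he : v.asIdeal.ramificationIdx' w.asIdeal ≤ Nat.card (P.inertia (K ≃ₐ[k] K)) := by
    rw [Ideal.ramificationIdx'_eq_ramificationIdx v.asIdeal w.asIdeal v.ne_bot]
    exact ramificationIdx_le_card_inertia7 v.asIdeal P
  set e := v.asIdeal.ramificationIdx' w.asIdeal with hedef
  set W := w.valuation K with hW
  have hWk : ∀ r : R, W (algebraMap R K r) = v.intValuation r ^ e := by
    intro r
    have h1 := IsDedekindDomain.HeightOneSpectrum.valuation_liesOver K v w (algebraMap R k r)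
    rw [← IsScalarTower.algebraMap_apply] at h1
    rw [hW, ← h1]
    congr 1
    exact IsDedekindDomain.HeightOneSpectrum.valuation_of_algebraMap (K := k) v r
  have hvm : ∀ (r : R) (n : ℕ), v.intValuation r ≤ exp (-(n : ℤ)) ↔
      r ∈ IsLocalRing.maximalIdeal R ^ n := fun r n => v.intValuation_le_pow_iff_mem r n
  have hlc0 : D.leadingCoeff ≠ 0 := by
    intro h0
    rw [h0] at hlc2
    exact hlc2 (Ideal.zero_mem _)
  have hvD : v.intValuation D.leadingCoeff = exp (-1 : ℤ) := by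
    have h1 := (hvm D.leadingCoeff 1).mpr (by rw [pow_one]; exact hlc1)
    have h3 : ¬ v.intValuation D.leadingCoeff ≤ exp (-((2 : ℕ) : ℤ)) := fun h4 =>
      hlc2 ((hvm D.leadingCoeff 2).mp h4)
    have h5 : v.intValuation D.leadingCoeff ≠ 0 := v.intValuation_ne_zero _ hlc0
    have h6 := exp_log h5
    rw [← h6] at h1 h3 ⊢
    rw [exp_le_exp] at h1 h3
    rw [exp_inj]
    push_cast at h1 h3
    omega
  have ha : W (algebraMap R K D.leadingCoeff) = exp (-(e : ℤ)) := by
    rw [hWk, hvD, ← exp_nsmul]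
    simp
  -- integrality
  have hWB : ∀ x : B, W x ≤ 1 := fun x => w.valuation_le_one x
  have hWP : ∀ x : B, W x < 1 ↔ x ∈ P := fun x => w.valuation_lt_one_iff_mem x
  have hWR : ∀ r : R, W (algebraMap R K r) ≤ 1 := fun r => hWB (algebraMap R B r)
  have hWm : ∀ r : R, r ∈ IsLocalRing.maximalIdeal R → W (algebraMap R K r) < 1 := by
    intro r hr
    refine (hWP (algebraMap R B r)).mpr ?_
    have h1 : r ∈ Ideal.comap (algebraMap R B) P := by
      rw [← Ideal.under_def, ← hPv.over]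
      exact hr
    exact h1
  have he0 : 0 < e := by
    rcases Nat.eq_zero_or_pos e with h0 | h0
    · have h1 := hWm _ hlc1
      rw [ha, h0] at h1
      exact absurd h1 (by simp)
    · exact h0
  obtain ⟨q, hq⟩ := exists_residue8 W
  let ι : R →+* W.integer := (algebraMap R K).codRestrict W.integer hWR
  have hι : W.integer.subtype.comp ι = algebraMap R K := RingHom.ext fun r => rfl
  have hιmap : ∀ p : R[X], (p.map ι).map W.integer.subtype = p.map (algebraMap R K) := fun p => by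
    rw [Polynomial.map_map, hι]
  have hker : ∀ r : R, r ∈ IsLocalRing.maximalIdeal R → q.comp ι r = 0 := by
    intro r hr
    exact (hq (ι r)).mpr (hWm r hr)
  let ψ : IsLocalRing.ResidueField R →+* IsLocalRing.ResidueField W.valuationSubring :=
    Ideal.Quotient.lift (IsLocalRing.maximalIdeal R) (q.comp ι) hker
  have hψ : ψ.comp (IsLocalRing.residue R) = q.comp ι := RingHom.ext fun r => rfl
  have hψmap : ∀ p : R[X], (p.map ι).map q = (p.map (IsLocalRing.residue R)).map ψ := fun p => by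
    rw [Polynomial.map_map, Polynomial.map_map, hψ]
  -- the action of the inertia group
  have hstab : ∀ σ ∈ P.inertia (K ≃ₐ[k] K), σ • P = P := fun σ hσ =>
    Ideal.inertia_le_stabilizer (M := (K ≃ₐ[k] K)) P hσ
  have hint1 : ∀ σ ∈ P.inertia (K ≃ₐ[k] K), ∀ b : B, w.intValuation (σ • b) ≤ w.intValuation b := by
    intro σ hσ b
    by_cases hb : b = 0
    · rw [hb, smul_zero]
    · have h1 : w.intValuation b ≠ 0 := w.intValuation_ne_zero b hb
      obtain ⟨N, hN⟩ : ∃ N : ℕ, w.intValuation b = exp (-(N : ℤ)) :=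
        ⟨_, w.intValuation_if_neg hb⟩
      rw [hN]
      refine (w.intValuation_le_pow_iff_mem (σ • b) N).mpr ?_
      have h2 : b ∈ w.asIdeal ^ N := (w.intValuation_le_pow_iff_mem b N).mp hN.le
      have h3 : w.asIdeal ^ N = σ • (w.asIdeal ^ N) := by
        rw [smul_pow']
        exact congrArg (· ^ N) (hstab σ hσ).symm
      rw [h3]
      exact Ideal.smul_mem_pointwise_smul σ b _ h2
  have hint2 : ∀ σ ∈ P.inertia (K ≃ₐ[k] K), ∀ b : B, w.intValuation (σ • b) = w.intValuation b := by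
    intro σ hσ b
    refine le_antisymm (hint1 σ hσ b) ?_
    have h1 := hint1 σ⁻¹ (inv_mem hσ) (σ • b)
    rwa [inv_smul_smul] at h1
  have hWσB : ∀ σ ∈ P.inertia (K ≃ₐ[k] K), ∀ b : B, W (σ (b : K)) = W (b : K) := by
    intro σ hσ b
    have h1 : w.valuation K (algebraMap B K (σ • b)) = w.valuation K (algebraMap B K b) := by
      rw [w.valuation_of_algebraMap, w.valuation_of_algebraMap, hint2 σ hσ b]
    exact h1
  have hI1 : ∀ σ ∈ P.inertia (K ≃ₐ[k] K), ∀ x, W (σ x) = W x := by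
    intro σ hσ x
    obtain ⟨a, b, hb, rfl⟩ := IsFractionRing.div_surjective (A := B) x
    rw [map_div₀, map_div₀, map_div₀]
    have h1 := hWσB σ hσ a
    have h2 := hWσB σ hσ b
    have h3 : algebraMap B K a = (a : K) := rfl
    have h4 : algebraMap B K b = (b : K) := rfl
    rw [h3, h4, h1, h2]
  have hI2 : ∀ σ ∈ P.inertia (K ≃ₐ[k] K), ∀ x, W x ≤ 1 → W (σ x - x) < 1 := by
    intro σ hσ x hx
    obtain ⟨a, ⟨d, hd⟩, hxd⟩ := w.exists_primeCompl_mul_eq_of_integer x hx
    have hd1 : W (d : K) = 1 := by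
      refine le_antisymm (hWB d) ?_
      rw [← not_lt, hWP]
      exact hd
    have hσd1 : W (σ (d : K)) = 1 := by rw [hI1 σ hσ]; exact hd1
    have hxd' : x * (d : K) = (a : K) := hxd
    have h1 : (σ x - x) * (σ (d : K) * (d : K)) =
        ((((σ • a - a) * d - a * (σ • d - d) : B)) : K) := by
      have h2 : σ x * σ (d : K) = σ (a : K) := by rw [← map_mul, hxd']
      have h3 : ((((σ • a - a) * d - a * (σ • d - d) : B)) : K) =
        (σ (a : K) - (a : K)) * (d : K) - (a : K) * (σ (d : K) - (d : K)) := rfl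
      rw [h3]
      linear_combination (d : K) * h2 - σ (d : K) * hxd'
    have h4 : W ((((σ • a - a) * d - a * (σ • d - d) : B)) : K) < 1 := by
      rw [hWP]
      refine sub_mem (Ideal.mul_mem_right _ _ (hσ a)) (Ideal.mul_mem_left _ _ (hσ d))
    rw [← h1, map_mul, map_mul, hσd1, hd1, mul_one, mul_one] at h4
    exact h4
  have hσev : ∀ (σ : K ≃ₐ[k] K) (p : R[X]) (x : K), (p.map (algebraMap R K)).eval (σ x) =
      σ ((p.map (algebraMap R K)).eval x) := by
    intro σ p x
    have h1 : (σ : K →+* K).comp (algebraMap R K) = algebraMap R K := by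
      ext r
      change σ (algebraMap R K r) = algebraMap R K r
      rw [IsScalarTower.algebraMap_apply R k K]
      exact σ.commutes _
    have h3 := Polynomial.hom_eval₂ p (algebraMap R K) (σ : K →+* K) x
    rw [h1] at h3
    rw [eval_map, eval_map]
    exact h3.symm
  -- the numerical conditions
  have hgm' : W (((g.map ι).natDegree : ℕ) : K) = 1 := by
    rw [hg.natDegree_map]
    refine le_antisymm (by simpa using hWR (g.natDegree : R)) ?_
    rw [← not_lt]
    intro h1
    apply hgm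
    have h2 : q (ι (g.natDegree : R)) = 0 := by
      rw [hq]
      have h3 : ((ι (g.natDegree : R) : W.integer) : K) = (g.natDegree : K) := by
        have h4 : ((ι (g.natDegree : R) : W.integer) : K) = algebraMap R K (g.natDegree : R) := rfl
        rw [h4, map_natCast]
      rw [h3]
      exact h1
    have h5 : ψ (IsLocalRing.residue R (g.natDegree : R)) = 0 := h2
    rw [map_eq_zero, map_natCast] at h5
    exact h5
  have hcoefn : (D.map (IsLocalRing.residue R)).coeff n ≠ 0 := by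
    rw [coeff_map, Ne, IsLocalRing.residue_eq_zero_iff]
    exact hlc3
  have hdegn : (D.map (IsLocalRing.residue R)).natDegree = n := by
    apply natDegree_eq_of_le_of_coeff_ne_zero _ hcoefn
    rw [natDegree_le_iff_coeff_eq_zero]
    intro N hN
    rcases Nat.lt_or_ge (n + 1) N with h1 | h1
    · rw [coeff_map, coeff_eq_zero_of_natDegree_lt (by omega), map_zero]
    · have h2 : N = n + 1 := by omega
      rw [h2, coeff_map, IsLocalRing.residue_eq_zero_iff, ← hn]
      exact hlc1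
  have hAcard : A.card = n + 1 := by
    have h1 := congrArg natDegree hDA
    rw [natDegree_map_eq_of_injective hinjK, hn, natDegree_C_mul
      ((map_ne_zero_iff _ hinjK).mpr hlc0), natDegree_prod_of_monic _ _
      fun α _ => monic_X_sub_C _] at h1
    simpa using h1.symm
  have hfin : Finite (P.inertia (K ≃ₐ[k] K)) := inferInstance
  obtain ⟨α₀, hα₀, h⟩ := exists_cycle_aux8 (q := q) (k := k) hq (P.inertia (K ≃ₐ[k] K)) hI1 hI2 he0
    he (g := g.map ι) (D := D.map ι) (hg.map _) hgm' (S := S) (A := A) ha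
    (by rw [hιmap]; exact hDA) hAcard
    (by rw [hψmap, natDegree_map]; exact hdegn)
    (by
      rw [coeff_map]
      have h2 : q (ι (D.coeff n)) = ψ (IsLocalRing.residue R (D.coeff n)) := rfl
      rw [h2, Ne, map_eq_zero, IsLocalRing.residue_eq_zero_iff]
      exact hlc3)
    (by rw [hιmap]; exact hgS)
    (by
      rw [← Polynomial.map_comp, hψmap, Polynomial.map_comp]
      exact hsep.map)
    (fun σ _ x => by rw [hιmap]; exact hσev σ g x)
    (fun σ _ x => by rw [hιmap]; exact hσev σ D x)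
    (fun σ _ hσ => hgen σ hσ)
    (by rw [hιmap]; exact hSA)
  rw [hιmap] at h
  refine ⟨α₀, hα₀, fun x hx y hy hxα hyα => ?_⟩
  obtain ⟨σ, -, h1, h2⟩ := h x hx y hy hxα hyα
  exact ⟨σ, h1, h2⟩

end Main

end Pool.Agent.Lib.MP_89bcae_ag

end

section

section

/-!
# Simply transitive groups on a fibre of `g` at a place where the leading coefficient has a simple zero
-/

open Polynomial WithZero

open scoped Classical Pointwise

set_option linter.unusedSimpArgs false
set_option linter.unusedVariables false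
set_option linter.unusedSectionVars false
set_option linter.style.haveILetI false

namespace Pool.Agent.Lib.MP_89bcae_ag

section Aux

variable {K κ : Type*} [Field K] [Field κ] {v : Valuation K ℤᵐ⁰} {q : v.integer →+* κ}

/-- The inertia group is simply transitive on the fibre over the pole. -/
theorem exists_cycle_auxT {k : Type*} [Field k] [Algebra k K]
    (hq : ∀ x : v.integer, q x = 0 ↔ v x < 1) (I : Subgroup (K ≃ₐ[k] K)) [Finite I]
    (hI1 : ∀ σ ∈ I, ∀ x, v (σ x) = v x) (hI2 : ∀ σ ∈ I, ∀ x, v x ≤ 1 → v (σ x - x) < 1)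
    {e : ℕ} (he0 : 0 < e) (he : e ≤ Nat.card I) {g D : v.integer[X]} (hg : g.Monic)
    (hgm : v (g.natDegree : K) = 1) {S A : Finset K} {a : K} (ha : v a = exp (-(e : ℤ)))
    (hD : D.map v.integer.subtype = C a * ∏ α ∈ A, (X - C α)) {n : ℕ} (hn : A.card = n + 1)
    (hdeg : (D.map q).natDegree = n) (hlc : q (D.coeff n) ≠ 0)
    (hgS : ∀ α ∈ A, g.map v.integer.subtype - C α =
      ∏ b ∈ S.filter (fun b => (g.map v.integer.subtype).eval b = α), (X - C b))
    (hsep : ((D.comp g).map q).Separable)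
    (hgσ : ∀ σ ∈ I, ∀ x, (g.map v.integer.subtype).eval (σ x) =
      σ ((g.map v.integer.subtype).eval x))
    (hDσ : ∀ σ ∈ I, ∀ x, (D.map v.integer.subtype).eval (σ x) =
      σ ((D.map v.integer.subtype).eval x))
    (hgen : ∀ σ ∈ I, (∀ b ∈ S, σ b = b) → σ = 1)
    (hSA : ∀ b ∈ S, (g.map v.integer.subtype).eval b ∈ A) :
    ∃ α₀ ∈ A, (∀ x ∈ S, ∀ y ∈ S, (g.map v.integer.subtype).eval x = α₀ →
      (g.map v.integer.subtype).eval y = α₀ → ∃ σ ∈ I, σ x = y ∧ ∀ τ ∈ I, τ x = y → τ = σ) ∧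
        ∀ σ ∈ I, ∀ b ∈ S, (g.map v.integer.subtype).eval b ≠ α₀ → σ b = b := by
  obtain ⟨α₀, hα₀A, hα₀1, haα₀, hα₀u⟩ := exists_pole8 hq hD hn hdeg hlc
  obtain ⟨m, hm⟩ : ∃ m, g.natDegree = m := ⟨_, rfl⟩
  rw [hm] at hgm
  have hm0 : m ≠ 0 := by
    rintro rfl
    rw [Nat.cast_zero, map_zero] at hgm
    exact zero_ne_one hgm
  set gK := g.map v.integer.subtype with hgK
  obtain ⟨T, hT⟩ : ∃ T, T = S.filter fun b => gK.eval b = α₀ := ⟨_, rfl⟩
  have hTmem : ∀ b, b ∈ T ↔ gK.eval b = α₀ := by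
    intro b
    rw [hT, Finset.mem_filter]
    constructor
    · exact fun h => h.2
    · intro h
      refine ⟨?_, h⟩
      have h1 := congrArg (eval b) (hgS α₀ hα₀A)
      rw [eval_sub, eval_C, h, sub_self, eval_prod, eq_comm, Finset.prod_eq_zero_iff] at h1
      obtain ⟨b', hb', h2⟩ := h1
      rw [eval_sub, eval_X, eval_C, sub_eq_zero] at h2
      rw [h2]
      exact (Finset.mem_filter.mp hb').1
  have hTprod : gK - C α₀ = ∏ b ∈ T, (X - C b) := by rw [hT]; exact hgS α₀ hα₀A
  have hTcard : T.card = m := by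
    have h1 := congrArg natDegree hTprod
    rw [natDegree_sub_C, hg.natDegree_map, hm, natDegree_prod_of_monic _ _
      fun α _ => monic_X_sub_C _] at h1
    simpa using h1.symm
  have hTsub := fun {x : K} (hx : x ∈ T) {y : K} (hy : y ∈ T) (hxy : x ≠ y) =>
    val_sub8 hg hm hgm hα₀1 hTprod hx hy hxy
  have hev : ∀ (p : v.integer[X]) (z : K) (hz : v z ≤ 1),
      (p.map v.integer.subtype).eval z = ((p.eval ⟨z, hz⟩ : v.integer) : K) := by
    intro p z hz
    have h1 : (p.map v.integer.subtype).eval z = v.integer.subtype (p.eval ⟨z, hz⟩) := by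
      rw [eval_map, ← eval₂_at_apply]
      rfl
    exact h1
  have hTv : ∀ z ∈ T, 1 < v z := by
    intro z hz
    by_contra hcon
    rw [not_lt] at hcon
    have h1 := (g.eval ⟨z, hcon⟩).2
    have h2 : v (gK.eval z) ≤ 1 := by
      rw [hev g z hcon]
      exact h1
    rw [(hTmem z).mp hz] at h2
    exact absurd hα₀1 (not_lt.mpr h2)
  have hgcoeff : v ((g.coeff m : v.integer) : K) = 1 := by
    have h1 : g.coeff m = 1 := by rw [← hm]; exact hg
    rw [h1]
    exact map_one v
  have hTpow : ∀ z ∈ T, v z ^ m = v α₀ := by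
    intro z hz
    rw [← (hTmem z).mp hz]
    exact (val_eval8 g hm.le hgcoeff (hTv z hz)).symm
  -- the roots in the other fibres
  have hother : ∀ b ∈ S, gK.eval b ≠ α₀ → v b ≤ 1 := by
    intro b hb hne
    by_contra hcon
    rw [not_le] at hcon
    have h1 : v (gK.eval b) = v b ^ m := val_eval8 g hm.le hgcoeff hcon
    have h2 := hα₀u _ (hSA b hb) hne
    rw [h1] at h2
    exact absurd (one_lt_pow₀ hcon hm0) (not_lt.mpr h2)
  have hAev : ∀ α ∈ A, (D.map v.integer.subtype).eval α = 0 := by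
    intro α hα
    rw [hD, eval_mul, eval_prod, Finset.prod_eq_zero hα (by simp), mul_zero]
  have hA0 : a ≠ 0 := by
    intro h0
    rw [h0, map_zero] at ha
    exact exp_ne_zero ha.symm
  have hAmem : ∀ α, (D.map v.integer.subtype).eval α = 0 → α ∈ A := by
    intro α hα
    rw [hD, eval_mul, eval_C, eval_prod, mul_eq_zero, Finset.prod_eq_zero_iff] at hα
    rcases hα with hα | ⟨α', h1, h2⟩
    · exact absurd hα hA0
    · rw [eval_sub, eval_X, eval_C, sub_eq_zero] at h2
      rw [h2]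
      exact h1
  have hσA : ∀ σ ∈ I, ∀ α ∈ A, σ α ∈ A := by
    intro σ hσ α hα
    apply hAmem
    rw [hDσ σ hσ, hAev α hα, map_zero]
  have hσα₀ : ∀ σ ∈ I, σ α₀ = α₀ := by
    intro σ hσ
    by_contra hne
    have h1 := hα₀u _ (hσA σ hσ α₀ hα₀A) hne
    rw [hI1 σ hσ] at h1
    exact absurd hα₀1 (not_lt.mpr h1)
  have hσT : ∀ σ ∈ I, ∀ x ∈ T, σ x ∈ T := by
    intro σ hσ x hx
    rw [hTmem, hgσ σ hσ, (hTmem x).mp hx, hσα₀ σ hσ]
  have hfix : ∀ σ ∈ I, ∀ b ∈ S, gK.eval b ≠ α₀ → σ b = b := by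
    intro σ hσ b hb hne
    have h1 := hother b hb hne
    have h2 : v (σ b) ≤ 1 := by rw [hI1 σ hσ]; exact h1
    have hroot : ∀ (z : K) (hz : v z ≤ 1), gK.eval z ∈ A →
        (D.comp g).eval (⟨z, hz⟩ : v.integer) = 0 := by
      intro z hz hzA
      have h3 := hev (D.comp g) z hz
      rw [Polynomial.map_comp, eval_comp, hAev _ hzA] at h3
      exact Subtype.ext h3.symm
    have h4 : gK.eval (σ b) ∈ A := by
      rw [hgσ σ hσ]
      exact hσA σ hσ _ (hSA b hb)
    have h5 := inj_red8 q hsep (hroot (σ b) h2 h4) (hroot b h1 (hSA b hb)) (by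
      rw [← sub_eq_zero, ← map_sub, hq]
      exact hI2 σ hσ b h1)
    exact congrArg Subtype.val h5
  have hone : ∀ σ ∈ I, ∀ x ∈ T, σ x = x → σ = 1 := by
    intro σ hσ x hx hσx
    apply hgen σ hσ
    intro b hb
    by_cases hbα : gK.eval b = α₀
    · have hbT : b ∈ T := (hTmem b).mpr hbα
      by_contra hne
      have hx0 : x ≠ 0 := by
        rintro rfl
        have h1 := hTv 0 hx
        rw [map_zero] at h1
        exact absurd h1 (not_lt.mpr zero_le_one)
      have hvx0 : v x ≠ 0 := (Valuation.ne_zero_iff v).mpr hx0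
      have hvb : v b = v x :=
        (pow_left_inj₀ zero_le zero_le hm0).mp ((hTpow b hbT).trans (hTpow x hx).symm)
      have h1 : v (b / x) ≤ 1 := by rw [map_div₀, hvb, div_self hvx0]
      have h2 := hI2 σ hσ (b / x) h1
      rw [map_div₀, hσx, ← sub_div, map_div₀, div_lt_one₀ (zero_lt_iff.mpr hvx0)] at h2
      have h3 := hTsub (hσT σ hσ b hbT) hbT hne
      have h4 : v (σ b) = v x := (hI1 σ hσ b).trans hvb
      rw [h3, h4] at h2
      exact lt_irrefl _ h2
    · exact hfix σ hσ b hb hbα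
  -- the count
  obtain ⟨x₀, hx₀⟩ : T.Nonempty := by
    rw [← Finset.card_pos, hTcard]
    exact Nat.pos_of_ne_zero hm0
  have hme : m ≤ e := by
    have h1 := hTpow x₀ hx₀
    rw [map_mul, ha] at haα₀
    have h2 : v α₀ = exp (e : ℤ) := by
      have h3 : exp (-(e : ℤ)) * exp (e : ℤ) = 1 := by
        rw [← exp_add, neg_add_cancel, exp_zero]
      rw [← h3] at haα₀
      exact mul_left_cancel₀ exp_ne_zero haα₀
    rw [h2] at h1
    have hv0 : v x₀ ≠ 0 := (zero_lt_one.trans (hTv x₀ hx₀)).ne'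
    rw [← exp_log hv0, ← exp_nsmul, exp_inj] at h1
    have h4 : (m : ℤ) ∣ e := ⟨log (v x₀), by rw [← h1, nsmul_eq_mul]⟩
    exact Nat.le_of_dvd he0 (Int.natCast_dvd_natCast.mp h4)
  have hbij : ∀ (x : K) (hx : x ∈ T), Function.Bijective
      (fun σ : I => (⟨(σ : K ≃ₐ[k] K) x, hσT σ σ.2 x hx⟩ : T)) := by
    intro x hx
    have hinj : Function.Injective
        (fun σ : I => (⟨(σ : K ≃ₐ[k] K) x, hσT σ σ.2 x hx⟩ : T)) := by
      intro σ τ hστ
      have h3 : (σ : K ≃ₐ[k] K) x = (τ : K ≃ₐ[k] K) x := congrArg Subtype.val hστ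
      have h4 : (τ⁻¹ * σ : I) = 1 := by
        apply Subtype.ext
        apply hone _ (τ⁻¹ * σ).2 x hx
        change (τ : K ≃ₐ[k] K).symm ((σ : K ≃ₐ[k] K) x) = x
        rw [h3, AlgEquiv.symm_apply_apply]
      exact (inv_mul_eq_one.mp h4).symm
    refine (Nat.bijective_iff_injective_and_card _).mpr ⟨hinj, ?_⟩
    have h5 := Nat.card_le_card_of_injective _ hinj
    rw [Nat.card_eq_fintype_card (α := T), Fintype.card_coe, hTcard] at h5 ⊢
    omega
  refine ⟨α₀, hα₀A, fun x hx y hy hxα hyα => ?_, fun σ hσ b hb hb' => hfix σ hσ b hb hb'⟩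
  obtain ⟨σ, hσ⟩ := (hbij x ((hTmem x).mpr hxα)).2 ⟨y, (hTmem y).mpr hyα⟩
  refine ⟨σ, σ.2, congrArg Subtype.val hσ, fun τ hτ hτy => ?_⟩
  have h1 := (hbij x ((hTmem x).mpr hxα)).1 (a₁ := ⟨τ, hτ⟩) (a₂ := σ)
    (Subtype.ext (hτy.trans (congrArg Subtype.val hσ).symm))
  exact congrArg Subtype.val h1

end Aux

section Main

variable {R k K : Type*} [CommRing R] [IsDomain R] [IsDiscreteValuationRing R] [Field k]
    [Algebra R k] [IsFractionRing R k] [Field K] [Algebra k K] [Algebra R K] [IsScalarTower R k K]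
    [FiniteDimensional k K] [IsGalois k K]

/-- A simply transitive group on a fibre. -/
theorem exists_cycleT {g D : R[X]} (hg : g.Monic)
    (hgm : (g.natDegree : IsLocalRing.ResidueField R) ≠ 0) {n : ℕ} (hn : D.natDegree = n + 1)
    (hlc1 : D.leadingCoeff ∈ IsLocalRing.maximalIdeal R)
    (hlc2 : D.leadingCoeff ∉ IsLocalRing.maximalIdeal R ^ 2)
    (hlc3 : D.coeff n ∉ IsLocalRing.maximalIdeal R)
    (hsep : ((D.map (IsLocalRing.residue R)).comp (g.map (IsLocalRing.residue R))).Separable)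
    (S A : Finset K) (hDA : D.map (algebraMap R K) =
      C (algebraMap R K D.leadingCoeff) * ∏ α ∈ A, (X - C α))
    (hgS : ∀ α ∈ A, g.map (algebraMap R K) - C α =
      ∏ b ∈ S.filter (fun b => (g.map (algebraMap R K)).eval b = α), (X - C b))
    (hSA : ∀ b ∈ S, (g.map (algebraMap R K)).eval b ∈ A)
    (hgen : ∀ σ : K ≃ₐ[k] K, (∀ b ∈ S, σ b = b) → σ = 1) :
    ∃ α₀ ∈ A, ∃ J : Finset (K ≃ₐ[k] K), (∀ x ∈ S, ∀ y ∈ S,
      (g.map (algebraMap R K)).eval x = α₀ → (g.map (algebraMap R K)).eval y = α₀ →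
        ∃ σ ∈ J, σ x = y ∧ ∀ τ ∈ J, τ x = y → τ = σ) ∧
        ∀ σ ∈ J, ∀ b ∈ S, (g.map (algebraMap R K)).eval b ≠ α₀ → σ b = b := by
  -- the integral closure
  set B := integralClosure R K with hB
  haveI : IsDedekindDomain B := integralClosure.isDedekindDomain R k K
  haveI : Module.Finite R B := IsIntegralClosure.finite R k K B
  haveI : IsFractionRing B K := integralClosure.isFractionRing_of_finite_extension k K
  haveI : SMulCommClass (K ≃ₐ[k] K) R K := ⟨fun σ r x => by
    rw [AlgEquiv.smul_def, AlgEquiv.smul_def, Algebra.smul_def, Algebra.smul_def, map_mul,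
      IsScalarTower.algebraMap_apply R k K, AlgEquiv.commutes]⟩
  haveI : IsGaloisGroup (K ≃ₐ[k] K) R B := IsGaloisGroup.of_isFractionRing _ _ _ k K
  have hinjK : Function.Injective (algebraMap R K) := by
    rw [IsScalarTower.algebraMap_eq R k K]
    exact (algebraMap k K).injective.comp (IsFractionRing.injective R k)
  have hinjB : Function.Injective (algebraMap B K) := Subtype.val_injective
  haveI : FaithfulSMul R B := by
    rw [faithfulSMul_iff_algebraMap_injective]
    intro x y hxy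
    exact hinjK (congrArg (algebraMap B K) hxy)
  haveI : Module.IsTorsionFree R B := FaithfulSMul.to_isTorsionFree R B
  haveI : Module.Flat R B := inferInstance
  let v : IsDedekindDomain.HeightOneSpectrum R := IsDiscreteValuationRing.maximalIdeal R
  have hvmax : v.asIdeal.IsMaximal := v.isMaximal
  obtain ⟨P, hPmax, hPv⟩ := Ideal.exists_maximal_ideal_liesOver_of_isIntegral (S := B) v.asIdeal
  have hP0 : P ≠ ⊥ := Ideal.ne_bot_of_liesOver_of_ne_bot v.ne_bot P
  let w : IsDedekindDomain.HeightOneSpectrum B := ⟨P, hPmax.isPrime, hP0⟩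
  have hwv : w.asIdeal.LiesOver v.asIdeal := hPv
  -- the ramification index
  have he : v.asIdeal.ramificationIdx' w.asIdeal ≤ Nat.card (P.inertia (K ≃ₐ[k] K)) := by
    rw [Ideal.ramificationIdx'_eq_ramificationIdx v.asIdeal w.asIdeal v.ne_bot]
    exact ramificationIdx_le_card_inertia7 v.asIdeal P
  set e := v.asIdeal.ramificationIdx' w.asIdeal with hedef
  set W := w.valuation K with hW
  have hWk : ∀ r : R, W (algebraMap R K r) = v.intValuation r ^ e := by
    intro r
    have h1 := IsDedekindDomain.HeightOneSpectrum.valuation_liesOver K v w (algebraMap R k r)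
    rw [← IsScalarTower.algebraMap_apply] at h1
    rw [hW, ← h1]
    congr 1
    exact IsDedekindDomain.HeightOneSpectrum.valuation_of_algebraMap (K := k) v r
  have hvm : ∀ (r : R) (n : ℕ), v.intValuation r ≤ exp (-(n : ℤ)) ↔
      r ∈ IsLocalRing.maximalIdeal R ^ n := fun r n => v.intValuation_le_pow_iff_mem r n
  have hlc0 : D.leadingCoeff ≠ 0 := by
    intro h0
    rw [h0] at hlc2
    exact hlc2 (Ideal.zero_mem _)
  have hvD : v.intValuation D.leadingCoeff = exp (-1 : ℤ) := by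
    have h1 := (hvm D.leadingCoeff 1).mpr (by rw [pow_one]; exact hlc1)
    have h3 : ¬ v.intValuation D.leadingCoeff ≤ exp (-((2 : ℕ) : ℤ)) := fun h4 =>
      hlc2 ((hvm D.leadingCoeff 2).mp h4)
    have h5 : v.intValuation D.leadingCoeff ≠ 0 := v.intValuation_ne_zero _ hlc0
    have h6 := exp_log h5
    rw [← h6] at h1 h3 ⊢
    rw [exp_le_exp] at h1 h3
    rw [exp_inj]
    push_cast at h1 h3
    omega
  have ha : W (algebraMap R K D.leadingCoeff) = exp (-(e : ℤ)) := by
    rw [hWk, hvD, ← exp_nsmul]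
    simp
  -- integrality
  have hWB : ∀ x : B, W x ≤ 1 := fun x => w.valuation_le_one x
  have hWP : ∀ x : B, W x < 1 ↔ x ∈ P := fun x => w.valuation_lt_one_iff_mem x
  have hWR : ∀ r : R, W (algebraMap R K r) ≤ 1 := fun r => hWB (algebraMap R B r)
  have hWm : ∀ r : R, r ∈ IsLocalRing.maximalIdeal R → W (algebraMap R K r) < 1 := by
    intro r hr
    refine (hWP (algebraMap R B r)).mpr ?_
    have h1 : r ∈ Ideal.comap (algebraMap R B) P := by
      rw [← Ideal.under_def, ← hPv.over]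
      exact hr
    exact h1
  have he0 : 0 < e := by
    rcases Nat.eq_zero_or_pos e with h0 | h0
    · have h1 := hWm _ hlc1
      rw [ha, h0] at h1
      exact absurd h1 (by simp)
    · exact h0
  obtain ⟨q, hq⟩ := exists_residue8 W
  let ι : R →+* W.integer := (algebraMap R K).codRestrict W.integer hWR
  have hι : W.integer.subtype.comp ι = algebraMap R K := RingHom.ext fun r => rfl
  have hιmap : ∀ p : R[X], (p.map ι).map W.integer.subtype = p.map (algebraMap R K) := fun p => by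
    rw [Polynomial.map_map, hι]
  have hker : ∀ r : R, r ∈ IsLocalRing.maximalIdeal R → q.comp ι r = 0 := by
    intro r hr
    exact (hq (ι r)).mpr (hWm r hr)
  let ψ : IsLocalRing.ResidueField R →+* IsLocalRing.ResidueField W.valuationSubring :=
    Ideal.Quotient.lift (IsLocalRing.maximalIdeal R) (q.comp ι) hker
  have hψ : ψ.comp (IsLocalRing.residue R) = q.comp ι := RingHom.ext fun r => rfl
  have hψmap : ∀ p : R[X], (p.map ι).map q = (p.map (IsLocalRing.residue R)).map ψ := fun p => by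
    rw [Polynomial.map_map, Polynomial.map_map, hψ]
  -- the action of the inertia group
  have hstab : ∀ σ ∈ P.inertia (K ≃ₐ[k] K), σ • P = P := fun σ hσ =>
    Ideal.inertia_le_stabilizer (M := (K ≃ₐ[k] K)) P hσ
  have hint1 : ∀ σ ∈ P.inertia (K ≃ₐ[k] K), ∀ b : B, w.intValuation (σ • b) ≤ w.intValuation b := by
    intro σ hσ b
    by_cases hb : b = 0
    · rw [hb, smul_zero]
    · have h1 : w.intValuation b ≠ 0 := w.intValuation_ne_zero b hb
      obtain ⟨N, hN⟩ : ∃ N : ℕ, w.intValuation b = exp (-(N : ℤ)) :=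
        ⟨_, w.intValuation_if_neg hb⟩
      rw [hN]
      refine (w.intValuation_le_pow_iff_mem (σ • b) N).mpr ?_
      have h2 : b ∈ w.asIdeal ^ N := (w.intValuation_le_pow_iff_mem b N).mp hN.le
      have h3 : w.asIdeal ^ N = σ • (w.asIdeal ^ N) := by
        rw [smul_pow']
        exact congrArg (· ^ N) (hstab σ hσ).symm
      rw [h3]
      exact Ideal.smul_mem_pointwise_smul σ b _ h2
  have hint2 : ∀ σ ∈ P.inertia (K ≃ₐ[k] K), ∀ b : B, w.intValuation (σ • b) = w.intValuation b := by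
    intro σ hσ b
    refine le_antisymm (hint1 σ hσ b) ?_
    have h1 := hint1 σ⁻¹ (inv_mem hσ) (σ • b)
    rwa [inv_smul_smul] at h1
  have hWσB : ∀ σ ∈ P.inertia (K ≃ₐ[k] K), ∀ b : B, W (σ (b : K)) = W (b : K) := by
    intro σ hσ b
    have h1 : w.valuation K (algebraMap B K (σ • b)) = w.valuation K (algebraMap B K b) := by
      rw [w.valuation_of_algebraMap, w.valuation_of_algebraMap, hint2 σ hσ b]
    exact h1
  have hI1 : ∀ σ ∈ P.inertia (K ≃ₐ[k] K), ∀ x, W (σ x) = W x := by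
    intro σ hσ x
    obtain ⟨a, b, hb, rfl⟩ := IsFractionRing.div_surjective (A := B) x
    rw [map_div₀, map_div₀, map_div₀]
    have h1 := hWσB σ hσ a
    have h2 := hWσB σ hσ b
    have h3 : algebraMap B K a = (a : K) := rfl
    have h4 : algebraMap B K b = (b : K) := rfl
    rw [h3, h4, h1, h2]
  have hI2 : ∀ σ ∈ P.inertia (K ≃ₐ[k] K), ∀ x, W x ≤ 1 → W (σ x - x) < 1 := by
    intro σ hσ x hx
    obtain ⟨a, ⟨d, hd⟩, hxd⟩ := w.exists_primeCompl_mul_eq_of_integer x hx
    have hd1 : W (d : K) = 1 := by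
      refine le_antisymm (hWB d) ?_
      rw [← not_lt, hWP]
      exact hd
    have hσd1 : W (σ (d : K)) = 1 := by rw [hI1 σ hσ]; exact hd1
    have hxd' : x * (d : K) = (a : K) := hxd
    have h1 : (σ x - x) * (σ (d : K) * (d : K)) =
        ((((σ • a - a) * d - a * (σ • d - d) : B)) : K) := by
      have h2 : σ x * σ (d : K) = σ (a : K) := by rw [← map_mul, hxd']
      have h3 : ((((σ • a - a) * d - a * (σ • d - d) : B)) : K) =
        (σ (a : K) - (a : K)) * (d : K) - (a : K) * (σ (d : K) - (d : K)) := rfl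
      rw [h3]
      linear_combination (d : K) * h2 - σ (d : K) * hxd'
    have h4 : W ((((σ • a - a) * d - a * (σ • d - d) : B)) : K) < 1 := by
      rw [hWP]
      refine sub_mem (Ideal.mul_mem_right _ _ (hσ a)) (Ideal.mul_mem_left _ _ (hσ d))
    rw [← h1, map_mul, map_mul, hσd1, hd1, mul_one, mul_one] at h4
    exact h4
  have hσev : ∀ (σ : K ≃ₐ[k] K) (p : R[X]) (x : K), (p.map (algebraMap R K)).eval (σ x) =
      σ ((p.map (algebraMap R K)).eval x) := by
    intro σ p x
    have h1 : (σ : K →+* K).comp (algebraMap R K) = algebraMap R K := by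
      ext r
      change σ (algebraMap R K r) = algebraMap R K r
      rw [IsScalarTower.algebraMap_apply R k K]
      exact σ.commutes _
    have h3 := Polynomial.hom_eval₂ p (algebraMap R K) (σ : K →+* K) x
    rw [h1] at h3
    rw [eval_map, eval_map]
    exact h3.symm
  -- the numerical conditions
  have hgm' : W (((g.map ι).natDegree : ℕ) : K) = 1 := by
    rw [hg.natDegree_map]
    refine le_antisymm (by simpa using hWR (g.natDegree : R)) ?_
    rw [← not_lt]
    intro h1
    apply hgm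
    have h2 : q (ι (g.natDegree : R)) = 0 := by
      rw [hq]
      have h3 : ((ι (g.natDegree : R) : W.integer) : K) = (g.natDegree : K) := by
        have h4 : ((ι (g.natDegree : R) : W.integer) : K) = algebraMap R K (g.natDegree : R) := rfl
        rw [h4, map_natCast]
      rw [h3]
      exact h1
    have h5 : ψ (IsLocalRing.residue R (g.natDegree : R)) = 0 := h2
    rw [map_eq_zero, map_natCast] at h5
    exact h5
  have hcoefn : (D.map (IsLocalRing.residue R)).coeff n ≠ 0 := by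
    rw [coeff_map, Ne, IsLocalRing.residue_eq_zero_iff]
    exact hlc3
  have hdegn : (D.map (IsLocalRing.residue R)).natDegree = n := by
    apply natDegree_eq_of_le_of_coeff_ne_zero _ hcoefn
    rw [natDegree_le_iff_coeff_eq_zero]
    intro N hN
    rcases Nat.lt_or_ge (n + 1) N with h1 | h1
    · rw [coeff_map, coeff_eq_zero_of_natDegree_lt (by omega), map_zero]
    · have h2 : N = n + 1 := by omega
      rw [h2, coeff_map, IsLocalRing.residue_eq_zero_iff, ← hn]
      exact hlc1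
  have hAcard : A.card = n + 1 := by
    have h1 := congrArg natDegree hDA
    rw [natDegree_map_eq_of_injective hinjK, hn, natDegree_C_mul
      ((map_ne_zero_iff _ hinjK).mpr hlc0), natDegree_prod_of_monic _ _
      fun α _ => monic_X_sub_C _] at h1
    simpa using h1.symm
  have hfin : Finite (P.inertia (K ≃ₐ[k] K)) := inferInstance
  obtain ⟨α₀, hα₀, h⟩ := exists_cycle_auxT (q := q) (k := k) hq (P.inertia (K ≃ₐ[k] K)) hI1 hI2 he0
    he (g := g.map ι) (D := D.map ι) (hg.map _) hgm' (S := S) (A := A) ha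
    (by rw [hιmap]; exact hDA) hAcard
    (by rw [hψmap, natDegree_map]; exact hdegn)
    (by
      rw [coeff_map]
      have h2 : q (ι (D.coeff n)) = ψ (IsLocalRing.residue R (D.coeff n)) := rfl
      rw [h2, Ne, map_eq_zero, IsLocalRing.residue_eq_zero_iff]
      exact hlc3)
    (by rw [hιmap]; exact hgS)
    (by
      rw [← Polynomial.map_comp, hψmap, Polynomial.map_comp]
      exact hsep.map)
    (fun σ _ x => by rw [hιmap]; exact hσev σ g x)
    (fun σ _ x => by rw [hιmap]; exact hσev σ D x)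
    (fun σ _ hσ => hgen σ hσ)
    (by rw [hιmap]; exact hSA)
  rw [hιmap] at h
  refine ⟨α₀, hα₀, (Set.toFinite ((P.inertia (K ≃ₐ[k] K) : Subgroup (K ≃ₐ[k] K)) :
    Set (K ≃ₐ[k] K))).toFinset, fun x hx y hy hxα hyα => ?_, fun σ hσ b hb hb' => ?_⟩
  · obtain ⟨σ, hσ, h1, h2⟩ := h.1 x hx y hy hxα hyα
    refine ⟨σ, (Set.Finite.mem_toFinset _).mpr hσ, h1, fun τ hτ hτy => ?_⟩
    exact h2 τ ((Set.Finite.mem_toFinset _).mp hτ) hτy
  · exact h.2 σ ((Set.Finite.mem_toFinset _).mp hσ) b hb hb'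

end Main

end Pool.Agent.Lib.MP_89bcae_ag

end

section

/-!
Simply transitive finite sets of automorphisms on the fibre over any root of `D`.
-/

open Polynomial WithZero

open scoped Classical Pointwise

set_option linter.unusedSimpArgs false
set_option linter.unusedVariables false
set_option linter.unusedSectionVars false
set_option linter.style.haveILetI false

namespace Pool.Agent.Lib.MP_89bcae_ag

theorem exists_simply_transitive (R k F : Type*) [CommRing R] [IsDomain R]
    [IsDiscreteValuationRing R] [Field k] [Algebra R k]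
    [IsFractionRing R k] [Field F] [Algebra k F] [IsAlgClosure k F] {g D : R[X]} (hg : g.Monic)
    (hgm : (g.natDegree : IsLocalRing.ResidueField R) ≠ 0) {n : ℕ} (hn : D.natDegree = n + 1)
    (h1 : D.leadingCoeff ∈ IsLocalRing.maximalIdeal R)
    (h2 : D.leadingCoeff ∉ IsLocalRing.maximalIdeal R ^ 2)
    (h3 : D.coeff n ∉ IsLocalRing.maximalIdeal R)
    (hsepκ : ((D.map (IsLocalRing.residue R)).comp (g.map (IsLocalRing.residue R))).Separable)
    (hsep : ((D.comp g).map (algebraMap R k)).Separable)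
    (hX : IsPairTransitive7 k F X (D.map (algebraMap R k))) (α : F)
    (hα : aeval α (D.map (algebraMap R k)) = 0) :
    ∃ J : Finset (F ≃ₐ[k] F),
      (∀ x y : F, aeval x (g.map (algebraMap R k)) = α → aeval y (g.map (algebraMap R k)) = α →
        ∃ σ ∈ J, σ x = y ∧ ∀ τ ∈ J, τ x = y → τ = σ) ∧
      ∀ σ ∈ J, ∀ b : F,
        aeval b ((D.map (algebraMap R k)).comp (g.map (algebraMap R k))) = 0 →
          aeval b (g.map (algebraMap R k)) ≠ α → σ b = b := by
  have hgdeg : g.natDegree ≠ 0 := by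
    intro h
    rw [h, Nat.cast_zero] at hgm
    exact hgm rfl
  have hF : IsAlgClosed F := IsAlgClosure.isAlgClosed k
  have hkF : Algebra.IsAlgebraic k F := IsAlgClosure.isAlgebraic
  letI : Algebra R F := ((algebraMap k F).comp (algebraMap R k)).toAlgebra
  haveI : IsScalarTower R k F := IsScalarTower.of_algebraMap_eq fun _ => rfl
  have hinjk : Function.Injective (algebraMap R k) := IsFractionRing.injective R k
  have hinjF : Function.Injective (algebraMap R F) := (algebraMap k F).injective.comp hinjk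
  have hmapF : ∀ p : R[X], (p.map (algebraMap R k)).map (algebraMap k F) =
      p.map (algebraMap R F) := fun p => by rw [Polynomial.map_map]; rfl
  have hlcF' : (D.map (algebraMap R F)).leadingCoeff = algebraMap R F D.leadingCoeff :=
    leadingCoeff_map_of_injective hinjF D
  have hcompF : (D.map (algebraMap R F)).comp (g.map (algebraMap R F)) =
      ((D.comp g).map (algebraMap R k)).map (algebraMap k F) := by
    rw [hmapF, Polynomial.map_comp]
  have hsepF : ((D.map (algebraMap R F)).comp (g.map (algebraMap R F))).Separable := by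
    rw [hcompF]; exact hsep.map
  have hgF : (g.map (algebraMap R F)).natDegree ≠ 0 := by rwa [hg.natDegree_map]
  have hsepD : (D.map (algebraMap R F)).Separable := separable_left7 hgF hsepF
  set gF := g.map (algebraMap R F) with hgFdef
  set DF := D.map (algebraMap R F) with hDFdef
  set S : Finset F := (DF.comp gF).roots.toFinset with hS
  set A : Finset F := DF.roots.toFinset with hA
  have hmemS : ∀ b, b ∈ S ↔ DF.eval (gF.eval b) = 0 := by
    intro b
    rw [hS, Multiset.mem_toFinset, mem_roots hsepF.ne_zero, IsRoot.def, eval_comp]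
  have hmemA : ∀ α, α ∈ A ↔ DF.eval α = 0 := by
    intro α
    rw [hA, Multiset.mem_toFinset, mem_roots hsepD.ne_zero, IsRoot.def]
  have hSA : ∀ b ∈ S, gF.eval b ∈ A := fun b hb => (hmemA _).mpr ((hmemS b).mp hb)
  have hDA : DF = C (algebraMap R F D.leadingCoeff) * ∏ α ∈ A, (X - C α) := by
    rw [← hlcF']
    exact eq_prod_roots7 hsepD
  have hgS : ∀ α ∈ A, gF - C α = ∏ b ∈ S.filter (fun b => gF.eval b = α), (X - C b) := by
    intro α hα
    have h1 : (gF - C α) ∣ DF.comp gF := by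
      obtain ⟨w, hw⟩ := dvd_iff_isRoot.mpr ((hmemA α).mp hα)
      refine ⟨w.comp gF, ?_⟩
      rw [hw, mul_comp, sub_comp, X_comp, C_comp]
    have h3 := eq_prod_roots7 (hsepF.of_dvd h1)
    have h4 : (gF - C α).Monic := by
      have h5 : (C α).degree < gF.degree := by
        rw [degree_eq_natDegree (p := gF) (fun h => hgF (by rw [h, natDegree_zero]))]
        exact (degree_C_le).trans_lt (by exact_mod_cast Nat.pos_of_ne_zero hgF)
      exact (hg.map _).sub_of_left h5
    rw [h4.leadingCoeff, C_1, one_mul] at h3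
    rw [h3]
    congr 1
    ext b
    rw [Finset.mem_filter, Multiset.mem_toFinset, mem_roots h4.ne_zero, IsRoot.def, eval_sub,
      eval_C, sub_eq_zero, hmemS]
    constructor
    · exact fun h => ⟨by rw [h]; exact (hmemA α).mp hα, h⟩
    · exact fun h => h.2
  have hAS : ∀ α ∈ A, ∃ b ∈ S, gF.eval b = α := by
    intro α hα
    have h1 : (gF - C α).degree ≠ 0 := by
      intro h4
      have h3 : (gF - C α).natDegree = gF.natDegree := natDegree_sub_C
      rw [natDegree_eq_of_degree_eq_some h4] at h3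
      exact hgF h3.symm
    obtain ⟨b, hb⟩ := IsAlgClosed.exists_root _ h1
    rw [IsRoot.def, eval_sub, eval_C, sub_eq_zero] at hb
    exact ⟨b, (hmemS b).mpr (by rw [hb]; exact (hmemA α).mp hα), hb⟩
  have hSroot : (S : Set F) = ((D.comp g).map (algebraMap R k)).rootSet F := by
    rw [rootSet, hS, hcompF, aroots]
  obtain ⟨hfin, hgal⟩ := galois7 (F := F) hsep
  obtain ⟨K, hK⟩ : ∃ K, K = IntermediateField.adjoin k (S : Set F) := ⟨_, rfl⟩
  haveI : FiniteDimensional k K := by rw [hK, hSroot]; exact hfin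
  haveI : IsGalois k K := by rw [hK, hSroot]; exact hgal
  have hSK : ∀ b ∈ S, b ∈ K := by
    intro b hb
    rw [hK]
    exact IntermediateField.subset_adjoin _ _ hb
  have hRK : ∀ r : R, algebraMap R F r ∈ K := by
    intro r
    rw [IsScalarTower.algebraMap_apply R k F]
    exact K.algebraMap_mem _
  have hgK : ∀ b ∈ K, gF.eval b ∈ K := by
    intro b hb
    rw [hgFdef, eval_map, eval₂_eq_sum_range]
    exact K.sum_mem fun i _ => K.mul_mem (hRK _) (pow_mem hb i)
  have hAK : ∀ α ∈ A, α ∈ K := by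
    intro α hα
    obtain ⟨b, hb, rfl⟩ := hAS α hα
    exact hgK b (hSK b hb)
  have hcomp : (algebraMap K F).comp (algebraMap R K) = algebraMap R F := RingHom.ext fun r => rfl
  have hinj : Function.Injective (Polynomial.map (algebraMap K F)) :=
    Polynomial.map_injective _ (algebraMap K F).injective
  have hev : ∀ b : K, (((g.map (algebraMap R K)).eval b : K) : F) = gF.eval (b : F) := by
    intro b
    rw [hgFdef, ← hcomp, ← Polynomial.map_map, eval_map (algebraMap K F)]
    exact (eval₂_at_apply (algebraMap K F) b).symm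
  obtain ⟨α₀, hα₀, J, hJ1, hJ2⟩ := exists_cycleT (k := k) (K := K) hg hgm hn h1 h2 h3 hsepκ
    (S.subtype (· ∈ K)) (A.subtype (· ∈ K)) (by
      apply hinj
      rw [Polynomial.map_map, hcomp, ← hDFdef, hDA, Polynomial.map_mul, map_C, Polynomial.map_prod]
      congr 1
      have h1 := prod_subtype7 (· ∈ K) A hAK (fun _ => True) (fun _ => True) (fun _ => Iff.rfl)
        (fun b => (X - C b : F[X]))
      rw [Finset.filter_true, Finset.filter_true] at h1
      rw [← h1]
      refine Finset.prod_congr rfl fun b _ => ?_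
      rw [Polynomial.map_sub, map_X, map_C]
      rfl) (by
      intro α hα
      apply hinj
      rw [Polynomial.map_sub, Polynomial.map_map, hcomp, map_C, Polynomial.map_prod]
      rw [Finset.mem_subtype] at hα
      have h1 := prod_subtype7 (· ∈ K) S hSK (fun b => (g.map (algebraMap R K)).eval b = α)
        (fun b => gF.eval b = (α : F))
        (fun b => by rw [← hev, Subtype.coe_inj]) (fun b => (X - C b : F[X]))
      refine (hgS α hα).trans (h1.symm.trans ?_)
      refine Finset.prod_congr rfl fun b _ => ?_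
      rw [Polynomial.map_sub, map_X, map_C]
      rfl) (by
      intro b hb
      rw [Finset.mem_subtype] at hb ⊢
      rw [hev]
      exact hSA b hb) (by
      intro σ hσ
      subst hK
      ext x
      have h1 : (σ : _ ≃ₐ[k] _).toAlgHom = AlgHom.id k _ := by
        apply IntermediateField.algHom_ext_of_eq_adjoin _ rfl
        intro y hy
        exact hσ ⟨y, IntermediateField.subset_adjoin _ _ hy⟩ (Finset.mem_subtype.mpr hy)
      exact congrArg Subtype.val (congrArg (fun f => f x) h1))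
  rw [Finset.mem_subtype] at hα₀
  have heva : ∀ b : F, aeval b (g.map (algebraMap R k)) = gF.eval b := by
    intro b
    rw [← eval_map_algebraMap, hmapF]
  have hevD : ∀ b : F, aeval b (D.map (algebraMap R k)) = DF.eval b := by
    intro b
    rw [← eval_map_algebraMap, hmapF]
  -- the lifts
  choose lft hlft using fun σ : K ≃ₐ[k] K =>
    AlgEquiv.restrictNormalHom_surjective (F := k) (K₁ := K) F σ
  have hτK : ∀ (σ : K ≃ₐ[k] K) (z : K), lft σ z = (σ z : K) := by
    intro σ z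
    have h := (AlgEquiv.restrictNormal_commutes (lft σ) K z).symm
    have h' : (lft σ).restrictNormal K = σ := hlft σ
    rw [h'] at h
    exact h
  have hcmp : (D.map (algebraMap R k)).comp (g.map (algebraMap R k)) =
      (D.comp g).map (algebraMap R k) := (Polynomial.map_comp _ _ _).symm
  -- the statement for `α₀`
  have key1 : ∀ x y : F, aeval x (g.map (algebraMap R k)) = (α₀ : F) →
      aeval y (g.map (algebraMap R k)) = (α₀ : F) →
        ∃ σ ∈ J.image lft, σ x = y ∧ ∀ τ ∈ J.image lft, τ x = y → τ = σ := by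
    intro x y hx hy
    rw [heva] at hx hy
    have hxS : x ∈ S := (hmemS x).mpr (by rw [hx]; exact (hmemA _).mp hα₀)
    have hyS : y ∈ S := (hmemS y).mpr (by rw [hy]; exact (hmemA _).mp hα₀)
    obtain ⟨σ, hσJ, hσ, huni⟩ := hJ1 ⟨x, hSK x hxS⟩ (Finset.mem_subtype.mpr hxS) ⟨y, hSK y hyS⟩
      (Finset.mem_subtype.mpr hyS) (Subtype.ext (by rw [hev]; exact hx))
      (Subtype.ext (by rw [hev]; exact hy))
    refine ⟨lft σ, Finset.mem_image_of_mem _ hσJ, ?_, ?_⟩
    · have h4 := hτK σ ⟨x, hSK x hxS⟩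
      rw [hσ] at h4
      exact h4
    · intro τ hτ hτx
      obtain ⟨σ', hσ'J, rfl⟩ := Finset.mem_image.mp hτ
      have h4 := hτK σ' ⟨x, hSK x hxS⟩
      have h5 : σ' ⟨x, hSK x hxS⟩ = ⟨y, hSK y hyS⟩ := by
        apply Subtype.ext
        rw [← h4]
        exact hτx
      rw [huni σ' hσ'J h5]
  have key2 : ∀ σ ∈ J.image lft, ∀ b : F,
      aeval b ((D.map (algebraMap R k)).comp (g.map (algebraMap R k))) = 0 →
        aeval b (g.map (algebraMap R k)) ≠ (α₀ : F) → σ b = b := by
    intro τ hτ b hb hne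
    obtain ⟨σ, hσJ, rfl⟩ := Finset.mem_image.mp hτ
    rw [aeval_comp, heva, hevD] at hb
    have hbS : b ∈ S := (hmemS b).mpr hb
    have h4 := hτK σ ⟨b, hSK b hbS⟩
    rw [hJ2 σ hσJ ⟨b, hSK b hbS⟩ (Finset.mem_subtype.mpr hbS) ?_] at h4
    · exact h4
    · intro h5
      apply hne
      rw [heva, ← hev ⟨b, hSK b hbS⟩, h5]
  -- the general fibre
  have hρ : ∃ ρ : F ≃ₐ[k] F, ρ (α₀ : F) = α := by
    by_cases hc : (α₀ : F) = α
    · exact ⟨AlgEquiv.refl, hc⟩
    · have hα₀r : aeval (α₀ : F) (D.map (algebraMap R k)) = 0 := by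
        rw [hevD]; exact (hmemA _).mp hα₀
      obtain ⟨ρ, h, -⟩ := hX (α₀ : F) α α (α₀ : F) (by simpa using hα₀r) (by simpa using hα)
        (by simpa using hα) (by simpa using hα₀r) (by simpa using hc)
        (by simpa using Ne.symm hc)
      exact ⟨ρ, h⟩
  obtain ⟨ρ, hρ⟩ := hρ
  have hσev : ∀ (σ : F ≃ₐ[k] F) (p : k[X]) (x : F), aeval (σ x) p = σ (aeval x p) := fun σ p x =>
    Polynomial.aeval_algHom_apply σ x p
  have hρ' : ρ.symm α = (α₀ : F) := by rw [← hρ, AlgEquiv.symm_apply_apply]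
  refine ⟨(J.image lft).image fun σ => (ρ.symm.trans σ).trans ρ, ?_, ?_⟩
  · intro x y hx hy
    obtain ⟨σ, hσJ, hσ, huni⟩ := key1 (ρ.symm x) (ρ.symm y) (by rw [hσev, hx, hρ'])
      (by rw [hσev, hy, hρ'])
    refine ⟨(ρ.symm.trans σ).trans ρ, Finset.mem_image_of_mem _ hσJ, ?_, ?_⟩
    · change ρ (σ (ρ.symm x)) = y
      rw [hσ, AlgEquiv.apply_symm_apply]
    · intro τ hτ hτx
      obtain ⟨σ', hσ'J, rfl⟩ := Finset.mem_image.mp hτ
      have h5 : ρ (σ' (ρ.symm x)) = y := hτx
      rw [huni σ' hσ'J (by rw [← h5, AlgEquiv.symm_apply_apply])]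
  · intro τ hτ b hb hne
    obtain ⟨σ, hσJ, rfl⟩ := Finset.mem_image.mp hτ
    change ρ (σ (ρ.symm b)) = b
    rw [key2 σ hσJ (ρ.symm b) (by rw [hσev, hb, map_zero]) ?_, AlgEquiv.apply_symm_apply]
    intro h6
    rw [hσev] at h6
    apply hne
    rw [← hρ, ← h6, AlgEquiv.apply_symm_apply]

end Pool.Agent.Lib.MP_89bcae_ag

end

section

/-!
The symbol of an automorphism of `F` with respect to a root of unity.
-/

open Polynomial

open scoped Classical

namespace Pool.Agent.Lib.MP_89bcae_ag.Sup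

universe u

/-- The symbol: `U x = ζ ^ κ(z) x` for `x ^ ℓ = z`. -/
noncomputable def kap {F : Type u} [Field F] (ℓ : ℕ) (ζ : F) (U : F → F) (z : F) : ZMod ℓ :=
  if h : ∃ i : ZMod ℓ, ∀ x : F, x ^ ℓ = z → U x = ζ ^ i.val * x then h.choose else 0

section

variable {ℓ : ℕ} {k F : Type u} [Field k] [Field F] [Algebra k F]

/-- The sum over the other fibres. -/
noncomputable def sumO (g E : k[X]) (kp e : F → ZMod ℓ) (β : F) : ZMod ℓ :=
  ∑ β' ∈ (RR F g E).filter (fun β' => aeval β' g ≠ aeval β g), kp (β - β') * (e β - e β')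

/-- The sum over the same fibre. -/
noncomputable def sumS (g E : k[X]) (kp e : F → ZMod ℓ) (β : F) : ZMod ℓ :=
  ∑ β' ∈ (RR F g E).filter (fun β' => aeval β' g = aeval β g), kp (β - β') * (e β - e β')

/-- The separation condition for the symbol `kp`, with weight `μ` for the pairs in the same fibre, on the
fibres over `B`. -/
def SepU (g E : k[X]) (kp : F → ZMod ℓ) (μ : ZMod ℓ) (B : Set F) : Prop :=
  ∀ (e : F → ZMod ℓ) (n : ZMod ℓ) (cst : F → ZMod ℓ),
    (∀ β ∈ RR F g E,
      ∑ β' ∈ (RR F g E).filter (fun β' => aeval β' g = aeval β g), e β' = 0) →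
    (∀ β ∈ RR F g E, aeval β g ∈ B →
      sumO g E kp e β + μ * sumS g E kp e β + n * e β = cst (aeval β g)) →
    ∀ β ∈ RR F g E, aeval β g ∈ B → e β = 0

end

section

variable {F : Type u} [Field F] [IsAlgClosed F] {ℓ : ℕ} {ζ : F} (U : F ≃+* F)

lemma tk01_ex (hℓ : ℓ.Prime) (hζ : IsPrimitiveRoot ζ ℓ) (hU : U ζ = ζ) {z : F} (hz0 : z ≠ 0)
    (hz : U z = z) : ∃ i : ZMod ℓ, ∀ x : F, x ^ ℓ = z → U x = ζ ^ i.val * x := by
  have : NeZero ℓ := ⟨hℓ.ne_zero⟩
  obtain ⟨x, hx⟩ := IsAlgClosed.exists_pow_nat_eq z hℓ.pos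
  have hx0 : x ≠ 0 := by
    intro h
    rw [h, zero_pow hℓ.ne_zero] at hx
    exact hz0 hx.symm
  have h1 : (U x / x) ^ ℓ = 1 := by
    rw [div_pow, ← map_pow, hx, hz, div_self hz0]
  obtain ⟨i, hi, hi'⟩ := hζ.eq_pow_of_pow_eq_one h1
  have hUx : U x = ζ ^ i * x := by
    rw [hi', div_mul_cancel₀ _ hx0]
  refine ⟨(i : ZMod ℓ), fun y hy => ?_⟩
  rw [ZMod.val_cast_of_lt hi]
  have h2 : (y / x) ^ ℓ = 1 := by
    rw [div_pow, hx, hy, div_self hz0]
  obtain ⟨j, hj, hj'⟩ := hζ.eq_pow_of_pow_eq_one h2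
  have hyx : y = ζ ^ j * x := by
    rw [hj', div_mul_cancel₀ _ hx0]
  rw [hyx, map_mul, map_pow, hU, hUx]
  ring

lemma kap_spec (hℓ : ℓ.Prime) (hζ : IsPrimitiveRoot ζ ℓ) (hU : U ζ = ζ) {z : F} (hz0 : z ≠ 0)
    (hz : U z = z) {x : F} (hx : x ^ ℓ = z) : U x = ζ ^ (kap ℓ ζ U z).val * x := by
  have h := tk01_ex U hℓ hζ hU hz0 hz
  unfold kap
  rw [dif_pos h]
  exact h.choose_spec x hx

lemma kap_of (hℓ : ℓ.Prime) (hζ : IsPrimitiveRoot ζ ℓ) (hU : U ζ = ζ) {x : F} (hx : x ≠ 0)
    {n : ℤ} (h : U x = ζ ^ n * x) : kap ℓ ζ U (x ^ ℓ) = n := by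
  have : NeZero ℓ := ⟨hℓ.ne_zero⟩
  have hζ0 : ζ ≠ 0 := hζ.ne_zero hℓ.ne_zero
  have hz : U (x ^ ℓ) = x ^ ℓ := by
    have h1 : (ζ ^ n) ^ ℓ = 1 := by
      rw [← zpow_natCast, ← zpow_mul, mul_comm, zpow_mul, zpow_natCast, hζ.pow_eq_one, one_zpow]
    rw [map_pow, h, mul_pow, h1, one_mul]
  have h2 := kap_spec U hℓ hζ hU (pow_ne_zero ℓ hx) hz (rfl : x ^ ℓ = x ^ ℓ)
  rw [h] at h2
  have h3 : ζ ^ n = ζ ^ ((kap ℓ ζ U (x ^ ℓ)).val : ℤ) := by
    rw [zpow_natCast]
    exact mul_right_cancel₀ hx h2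
  have h4 : ζ ^ (n - ((kap ℓ ζ U (x ^ ℓ)).val : ℤ)) = 1 := by
    rw [zpow_sub₀ hζ0, h3, div_self]
    exact zpow_ne_zero _ hζ0
  have h5 : (ℓ : ℤ) ∣ n - ((kap ℓ ζ U (x ^ ℓ)).val : ℤ) := (hζ.zpow_eq_one_iff_dvd _).mp h4
  have h6 : ((n - ((kap ℓ ζ U (x ^ ℓ)).val : ℤ) : ℤ) : ZMod ℓ) = 0 :=
    (ZMod.intCast_zmod_eq_zero_iff_dvd _ _).mpr h5
  rw [Int.cast_sub, Int.cast_natCast, ZMod.natCast_zmod_val, sub_eq_zero] at h6
  exact h6.symm

lemma tk01_root {U : F ≃+* F} (hℓ : ℓ.Prime) (hζ : IsPrimitiveRoot ζ ℓ) (hU : U ζ = ζ) {z : F}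
    (hz0 : z ≠ 0) (hz : U z = z) : ∃ x : F, x ≠ 0 ∧ x ^ ℓ = z ∧
      U x = ζ ^ (((kap ℓ ζ U z).val : ℕ) : ℤ) * x := by
  obtain ⟨x, hx⟩ := IsAlgClosed.exists_pow_nat_eq z hℓ.pos
  refine ⟨x, ?_, hx, ?_⟩
  · intro h
    rw [h, zero_pow hℓ.ne_zero] at hx
    exact hz0 hx.symm
  · rw [zpow_natCast]
    exact kap_spec U hℓ hζ hU hz0 hz hx

lemma kap_mul (hℓ : ℓ.Prime) (hζ : IsPrimitiveRoot ζ ℓ) (hU : U ζ = ζ) {z z' : F}
    (hz0 : z ≠ 0) (hz0' : z' ≠ 0) (hz : U z = z) (hz' : U z' = z') :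
    kap ℓ ζ U (z * z') = kap ℓ ζ U z + kap ℓ ζ U z' := by
  have : NeZero ℓ := ⟨hℓ.ne_zero⟩
  have hζ0 : ζ ≠ 0 := hζ.ne_zero hℓ.ne_zero
  obtain ⟨x, hx0, hx, hUx⟩ := tk01_root hℓ hζ hU hz0 hz
  obtain ⟨y, hy0, hy, hUy⟩ := tk01_root hℓ hζ hU hz0' hz'
  have h := kap_of U hℓ hζ hU (mul_ne_zero hx0 hy0)
    (n := ((kap ℓ ζ U z).val : ℤ) + ((kap ℓ ζ U z').val : ℤ)) (by
      rw [map_mul, hUx, hUy, zpow_add₀ hζ0]
      ring)
  rw [mul_pow, hx, hy, Int.cast_add, Int.cast_natCast, Int.cast_natCast, ZMod.natCast_zmod_val,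
    ZMod.natCast_zmod_val] at h
  exact h

lemma kap_zpow (hℓ : ℓ.Prime) (hζ : IsPrimitiveRoot ζ ℓ) (hU : U ζ = ζ) {z : F}
    (hz0 : z ≠ 0) (hz : U z = z) (n : ℤ) : kap ℓ ζ U (z ^ n) = n * kap ℓ ζ U z := by
  have : NeZero ℓ := ⟨hℓ.ne_zero⟩
  obtain ⟨x, hx0, hx, hUx⟩ := tk01_root hℓ hζ hU hz0 hz
  have h := kap_of U hℓ hζ hU (zpow_ne_zero n hx0) (n := ((kap ℓ ζ U z).val : ℤ) * n) (by
      rw [map_zpow₀, hUx, mul_zpow, ← zpow_mul])
  have h1 : (x ^ n) ^ ℓ = z ^ n := by
    rw [← hx, ← zpow_natCast, ← zpow_natCast, ← zpow_mul, ← zpow_mul, mul_comm]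
  rw [h1, Int.cast_mul, Int.cast_natCast, ZMod.natCast_zmod_val, mul_comm] at h
  exact h

lemma tk01_one (hℓ : ℓ.Prime) (hζ : IsPrimitiveRoot ζ ℓ) (hU : U ζ = ζ) : kap ℓ ζ U 1 = 0 := by
  have h := kap_of U hℓ hζ hU (one_ne_zero) (n := 0) (by rw [map_one, zpow_zero, one_mul])
  rw [one_pow, Int.cast_zero] at h
  exact h

lemma kap_prod (hℓ : ℓ.Prime) (hζ : IsPrimitiveRoot ζ ℓ) (hU : U ζ = ζ) {ι : Type*}
    (S : Finset ι) (z : ι → F) (hz0 : ∀ i ∈ S, z i ≠ 0) (hz : ∀ i ∈ S, U (z i) = z i) :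
    kap ℓ ζ U (∏ i ∈ S, z i) = ∑ i ∈ S, kap ℓ ζ U (z i) := by
  induction S using Finset.induction_on with
  | empty => simpa using tk01_one U hℓ hζ hU
  | insert a S ha ih =>
    rw [Finset.prod_insert ha, Finset.sum_insert ha]
    have h0 : ∀ i ∈ S, z i ≠ 0 := fun i hi => hz0 i (Finset.mem_insert_of_mem hi)
    have h1 : ∀ i ∈ S, U (z i) = z i := fun i hi => hz i (Finset.mem_insert_of_mem hi)
    rw [kap_mul U hℓ hζ hU (hz0 a (Finset.mem_insert_self a S)) (Finset.prod_ne_zero_iff.mpr h0)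
      (hz a (Finset.mem_insert_self a S)) (by rw [map_prod]; exact Finset.prod_congr rfl h1),
      ih h0 h1]

lemma kap_eq_zero (hℓ : ℓ.Prime) (hζ : IsPrimitiveRoot ζ ℓ) (hU : U ζ = ζ) {z : F}
    (hz0 : z ≠ 0) (h : ∀ x, x ^ ℓ = z → U x = x) : kap ℓ ζ U z = 0 := by
  obtain ⟨x, hx⟩ := IsAlgClosed.exists_pow_nat_eq z hℓ.pos
  have hx0 : x ≠ 0 := by
    intro h
    rw [h, zero_pow hℓ.ne_zero] at hx
    exact hz0 hx.symm
  have h1 := kap_of U hℓ hζ hU hx0 (n := 0) (by rw [zpow_zero, one_mul]; exact h x hx)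
  rw [hx, Int.cast_zero] at h1
  exact h1

end

end Pool.Agent.Lib.MP_89bcae_ag.Sup

end

section

/-!
# Definitions for the density theorem
-/

open Polynomial

open scoped Classical

namespace Pool.Agent.Lib.MP_89bcae_ag.Sup

universe u

/-- The function `o` is a homomorphism on `K`, zero on the differences of elements of `S`, except for
the pairs matched by the bijection `M` between the fibres of `p` over `α` and `α'`. -/
structure MOrd {F : Type u} [Field F] (K : Subfield F) (S : Finset F) (p : F → F) (α α' : F)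
    (M : F → F) (o : F → ℤ) : Prop where
  mul : ∀ a ∈ K, ∀ b ∈ K, a ≠ 0 → b ≠ 0 → o (a * b) = o a + o b
  same : ∀ β ∈ S, ∀ β' ∈ S, β ≠ β' → p β = p β' → o (β - β') = 0
  out : ∀ β ∈ S, ∀ β' ∈ S, p β ≠ p β' → ¬ (p β = α ∧ p β' = α') →
    ¬ (p β = α' ∧ p β' = α) → o (β - β') = 0
  mem : ∀ β ∈ S, p β = α → M β ∈ S ∧ p (M β) = α'
  inj : ∀ β ∈ S, ∀ β' ∈ S, p β = α → p β' = α → M β = M β' → β = β'
  surj : ∀ β' ∈ S, p β' = α' → ∃ β ∈ S, p β = α ∧ M β = β'
  left : ∀ β ∈ S, p β = α → ∀ β' ∈ S, p β' = α' → o (β - β') = if β' = M β then 1 else 0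


/-- The criterion for all towers. -/
structure CRall (ℓ : ℕ) {k F : Type u} [Field k] [Field F] [Algebra k F] (g E : k[X]) (ζ : k)
    (U : F ≃ₐ[k] F) (B : Set F) : Prop where
  fix : ∀ β ∈ RR F g E, U β = β
  neg : ∀ x : F, x ^ ℓ = -1 → U x = x
  sep : ∀ μ : ZMod ℓ, SepU g E (kap ℓ (algebraMap k F ζ) U) μ B

end Pool.Agent.Lib.MP_89bcae_ag.Sup

end

section

/-!
Kummer duality: automorphisms with prescribed symbols.
-/

open Polynomial

open scoped Classical

set_option linter.unusedSectionVars false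
set_option linter.unusedVariables false

namespace Pool.Agent.Lib.MP_89bcae_ag.Sup

universe u

theorem te04_lam_one {k F : Type u} [Field k] [Field F] [Algebra k F] {ℓ : ℕ}
    (K : IntermediateField k F) (lam : F → ZMod ℓ)
    (hmul : ∀ x ∈ K, ∀ y ∈ K, x ≠ 0 → y ≠ 0 → lam (x * y) = lam x + lam y) : lam 1 = 0 := by
  have h := hmul 1 K.one_mem 1 K.one_mem one_ne_zero one_ne_zero
  rw [mul_one] at h
  exact left_eq_add.1 h

theorem te04_lam_pow {k F : Type u} [Field k] [Field F] [Algebra k F] {ℓ : ℕ}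
    (K : IntermediateField k F) (lam : F → ZMod ℓ)
    (hmul : ∀ x ∈ K, ∀ y ∈ K, x ≠ 0 → y ≠ 0 → lam (x * y) = lam x + lam y) {x : F} (hx : x ∈ K)
    (hx0 : x ≠ 0) (n : ℕ) : lam (x ^ n) = n * lam x := by
  induction n with
  | zero => simp [te04_lam_one K lam hmul]
  | succ n ih =>
    rw [pow_succ, hmul _ (pow_mem hx n) _ hx (pow_ne_zero _ hx0) hx0, ih]
    push_cast
    ring

theorem te04_lam_prod {k F : Type u} [Field k] [Field F] [Algebra k F] {ℓ : ℕ}
    (K : IntermediateField k F) (lam : F → ZMod ℓ)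
    (hmul : ∀ x ∈ K, ∀ y ∈ K, x ≠ 0 → y ≠ 0 → lam (x * y) = lam x + lam y) {ι : Type*}
    (S : Finset ι) (z : ι → F) (hz : ∀ i ∈ S, z i ∈ K) (hz0 : ∀ i ∈ S, z i ≠ 0) :
    lam (∏ i ∈ S, z i) = ∑ i ∈ S, lam (z i) := by
  classical
  induction S using Finset.induction_on with
  | empty => simp [te04_lam_one K lam hmul]
  | insert a S ha ih =>
    rw [Finset.prod_insert ha, Finset.sum_insert ha,
      hmul _ (hz a (Finset.mem_insert_self a S)) _
        (K.prod_mem fun i hi => hz i (Finset.mem_insert_of_mem hi))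
        (hz0 a (Finset.mem_insert_self a S))
        (Finset.prod_ne_zero_iff.2 fun i hi => hz0 i (Finset.mem_insert_of_mem hi)),
      ih (fun i hi => hz i (Finset.mem_insert_of_mem hi))
        (fun i hi => hz0 i (Finset.mem_insert_of_mem hi))]

/-- The symbols of a product of two automorphisms. -/
theorem te04_kap_comp {k F : Type u} [Field k] [Field F] [Algebra k F] [IsAlgClosed F]
    {ℓ : ℕ} (hℓ : ℓ.Prime) {ζ : k} (hζ : IsPrimitiveRoot ζ ℓ) (U V : F ≃ₐ[k] F) {z : F}
    (hz0 : z ≠ 0) (hU : U z = z) (hV : V z = z) :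
    kap ℓ (algebraMap k F ζ) (U.trans V) z =
      kap ℓ (algebraMap k F ζ) U z + kap ℓ (algebraMap k F ζ) V z := by
  have : NeZero ℓ := ⟨hℓ.ne_zero⟩
  have hζF : IsPrimitiveRoot (algebraMap k F ζ) ℓ :=
    hζ.map_of_injective (algebraMap k F).injective
  obtain ⟨x, hx⟩ := IsAlgClosed.exists_pow_nat_eq z hℓ.pos
  have hx0 : x ≠ 0 := by
    rintro rfl
    rw [zero_pow hℓ.ne_zero] at hx
    exact hz0 hx.symm
  have h1 := kap_spec U.toRingEquiv hℓ hζF (by simp) hz0 hU hx
  have h2 := kap_spec V.toRingEquiv hℓ hζF (by simp) hz0 hV hx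
  have h3 : (U.trans V).toRingEquiv x = (algebraMap k F ζ) ^
      (((kap ℓ (algebraMap k F ζ) U z).val + (kap ℓ (algebraMap k F ζ) V z).val : ℕ) : ℤ) * x := by
    rw [zpow_natCast, pow_add]
    show V (U x) = _
    have h1' : U x = (algebraMap k F ζ) ^ (kap ℓ (algebraMap k F ζ) U z).val * x := h1
    have h2' : V x = (algebraMap k F ζ) ^ (kap ℓ (algebraMap k F ζ) V z).val * x := h2
    rw [h1', map_mul, map_pow, V.commutes, h2']
    ring
  have h4 := kap_of (U.trans V).toRingEquiv hℓ hζF (by simp) hx0 h3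
  rw [hx] at h4
  have h5 : kap ℓ (algebraMap k F ζ) (U.trans V) z =
    ((((kap ℓ (algebraMap k F ζ) U z).val + (kap ℓ (algebraMap k F ζ) V z).val : ℕ) : ℤ) : ZMod ℓ) := h4
  rw [h5]
  push_cast
  rw [ZMod.natCast_zmod_val, ZMod.natCast_zmod_val]

theorem te04_kap_id {k F : Type u} [Field k] [Field F] [Algebra k F] [IsAlgClosed F]
    {ℓ : ℕ} (hℓ : ℓ.Prime) {ζ : k} (hζ : IsPrimitiveRoot ζ ℓ) {z : F}
    (hz0 : z ≠ 0) : kap ℓ (algebraMap k F ζ) (AlgEquiv.refl : F ≃ₐ[k] F) z = 0 := by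
  have hζF : IsPrimitiveRoot (algebraMap k F ζ) ℓ :=
    hζ.map_of_injective (algebraMap k F).injective
  exact kap_eq_zero (AlgEquiv.refl : F ≃ₐ[k] F).toRingEquiv hℓ hζF (by simp) hz0 (fun x _ => rfl)

theorem te04_fixed {k F : Type u} [Field k] [Field F] [Algebra k F] [IsAlgClosed F]
    [Algebra.IsAlgebraic k F] {ℓ : ℕ} (hℓ : ℓ.Prime) (hne : (ℓ : k) ≠ 0)
    (K : IntermediateField k F) {y z : F} (hz : z ∈ K) (hz0 : z ≠ 0) (hy : y ^ ℓ = z)
    (hfix : ∀ U : F ≃ₐ[k] F, (∀ x ∈ K, U x = x) → U y = y) : y ∈ K := by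
  have halg : Algebra.IsAlgebraic K F := Algebra.IsAlgebraic.tower_top (K := k) K
  have hneK : (ℓ : K) ≠ 0 := by
    intro h
    apply hne
    have h2 : algebraMap k K (ℓ : k) = 0 := by rw [map_natCast]; exact h
    exact (map_eq_zero_iff _ (algebraMap k K).injective).1 h2
  have hsep : (X ^ ℓ - C (⟨z, hz⟩ : K)).Separable := by
    apply separable_X_pow_sub_C _ hneK
    intro h
    exact hz0 (congrArg Subtype.val h)
  have hroot : aeval y (X ^ ℓ - C (⟨z, hz⟩ : K)) = 0 := by
    rw [map_sub, map_pow, aeval_X, aeval_C, hy]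
    exact sub_self _
  have hys : IsSeparable K y := hsep.of_dvd (minpoly.dvd K y hroot)
  by_contra hcon
  have hn : y ∉ (⊥ : Subalgebra K F) := by
    intro h
    rw [Algebra.mem_bot] at h
    obtain ⟨w, hw⟩ := h
    apply hcon
    rw [← hw]
    exact w.2
  rw [notMem_iff_exists_ne_and_isConjRoot hys (IsAlgClosed.splits _)] at hn
  obtain ⟨y', hne', hconj⟩ := hn
  have hnorm : Normal K F := by
    have : IsAlgClosure K F := ⟨inferInstance, halg⟩
    exact IsAlgClosure.normal K F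
  obtain ⟨σ, hσ⟩ := isConjRoot_iff_exists_algEquiv.1 hconj
  have h1 : (σ.symm : F ≃ₐ[K] F) y = y' := by
    rw [← hσ]; exact σ.symm_apply_apply y'
  have h2 := hfix (σ.symm.restrictScalars k) (fun x hx => by
    have := σ.symm.commutes (⟨x, hx⟩ : K)
    exact this)
  apply hne'
  rw [← h1]
  exact h2.symm

theorem exists_U_of_lam {k F : Type u} [Field k] [Field F] [Algebra k F] [IsAlgClosed F]
    [Algebra.IsAlgebraic k F] {ℓ : ℕ} (hℓ : ℓ.Prime) (hne : (ℓ : k) ≠ 0) {ζ : k}
    (hζ : IsPrimitiveRoot ζ ℓ) (K : IntermediateField k F) (lam : F → ZMod ℓ)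
    (hmul : ∀ x ∈ K, ∀ y ∈ K, x ≠ 0 → y ≠ 0 → lam (x * y) = lam x + lam y) (T : Finset F)
    (hT : ∀ x ∈ T, x ∈ K ∧ x ≠ 0) :
    ∃ U : F ≃ₐ[k] F, (∀ x ∈ K, U x = x) ∧
      ∀ x ∈ T, kap ℓ (algebraMap k F ζ) U x = lam x := by
  classical
  have : NeZero ℓ := ⟨hℓ.ne_zero⟩
  have : Fact ℓ.Prime := ⟨hℓ⟩
  have hζF : IsPrimitiveRoot (algebraMap k F ζ) ℓ :=
    hζ.map_of_injective (algebraMap k F).injective
  let V : AddSubmonoid (T → ZMod ℓ) :=
    { carrier := {v | ∃ U : F ≃ₐ[k] F, (∀ x ∈ K, U x = x) ∧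
        ∀ x : T, kap ℓ (algebraMap k F ζ) U x = v x}
      add_mem' := by
        rintro v w ⟨U, hU, hUv⟩ ⟨U', hU', hUw⟩
        refine ⟨U.trans U', fun x hx => ?_, fun x => ?_⟩
        · show U' (U x) = x
          rw [hU x hx, hU' x hx]
        · rw [te04_kap_comp hℓ hζ U U' (hT x x.2).2 (hU _ (hT x x.2).1) (hU' _ (hT x x.2).1),
            hUv, hUw]
          rfl
      zero_mem' := ⟨AlgEquiv.refl, fun x _ => rfl, fun x => te04_kap_id hℓ hζ (hT x x.2).2⟩ }
  let W : Submodule (ZMod ℓ) (T → ZMod ℓ) :=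
    { V with
      smul_mem' := by
        intro c v hv
        have h : c • v = c.val • v := by
          ext i
          simp only [Pi.smul_apply, smul_eq_mul, nsmul_eq_mul]
          rw [ZMod.natCast_zmod_val]
        rw [h]
        exact V.nsmul_mem hv c.val }
  by_cases hlam : (fun x : T => lam x) ∈ W
  · obtain ⟨U, hU, hUv⟩ := hlam
    exact ⟨U, hU, fun x hx => hUv ⟨x, hx⟩⟩
  exfalso
  obtain ⟨φ, hφ, hφW⟩ := Submodule.exists_le_ker_of_notMem hlam
  let c : T → ℕ := fun x => (φ (Pi.single x 1)).val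
  have hφv : ∀ v : T → ZMod ℓ, φ v = ∑ x : T, (c x : ZMod ℓ) * v x := by
    intro v
    rw [LinearMap.pi_apply_eq_sum_univ φ v]
    apply Finset.sum_congr rfl
    intro x _
    have h1 : (c x : ZMod ℓ) = φ (Pi.single x 1) := ZMod.natCast_zmod_val _
    rw [h1, smul_eq_mul, mul_comm]
    congr 2
    ext i
    simp [Pi.single_apply, eq_comm]
  set z : F := ∏ x : T, (x : F) ^ c x with hzdef
  have hzK : z ∈ K := K.prod_mem fun x _ => pow_mem (hT x x.2).1 _
  have hz0 : z ≠ 0 := Finset.prod_ne_zero_iff.2 fun x _ => pow_ne_zero _ (hT x x.2).2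
  obtain ⟨y, hy⟩ := IsAlgClosed.exists_pow_nat_eq z hℓ.pos
  have hy0 : y ≠ 0 := by
    rintro rfl
    rw [zero_pow hℓ.ne_zero] at hy
    exact hz0 hy.symm
  have hfix : ∀ U : F ≃ₐ[k] F, (∀ x ∈ K, U x = x) → U y = y := by
    intro U hU
    have h1 := kap_prod U.toRingEquiv hℓ hζF (by simp) Finset.univ
      (fun x : T => (x : F) ^ c x) (fun x _ => pow_ne_zero _ (hT x x.2).2)
      (fun x _ => hU _ (pow_mem (hT x x.2).1 _))
    have h2 : ∀ x : T, kap ℓ (algebraMap k F ζ) U.toRingEquiv ((x : F) ^ c x) =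
        (c x : ZMod ℓ) * kap ℓ (algebraMap k F ζ) U x := by
      intro x
      have := kap_zpow U.toRingEquiv hℓ hζF (by simp) (hT x x.2).2 (hU _ (hT x x.2).1) (c x : ℤ)
      rw [zpow_natCast] at this
      rw [this]
      push_cast
      rfl
    have h3 : kap ℓ (algebraMap k F ζ) U.toRingEquiv z = 0 := by
      rw [hzdef, h1, Finset.sum_congr rfl fun x _ => h2 x]
      have h4 : (fun x : T => kap ℓ (algebraMap k F ζ) U x) ∈ W := ⟨U, hU, fun x => rfl⟩
      have h5 := hφW h4
      rw [LinearMap.mem_ker, hφv] at h5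
      exact h5
    have h6 := kap_spec U.toRingEquiv hℓ hζF (by simp) hz0 (hU z hzK) hy
    rw [h3, ZMod.val_zero, pow_zero, one_mul] at h6
    exact h6
  have hyK := te04_fixed hℓ hne K hzK hz0 hy hfix
  have h7 : lam z = 0 := by
    rw [← hy, te04_lam_pow K lam hmul hyK hy0, ZMod.natCast_self, zero_mul]
  have h8 : lam z = φ (fun x : T => lam x) := by
    rw [hφv, hzdef, te04_lam_prod K lam hmul Finset.univ (fun x : T => (x : F) ^ c x)
      (fun x _ => pow_mem (hT x x.2).1 _) (fun x _ => pow_ne_zero _ (hT x x.2).2)]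
    apply Finset.sum_congr rfl
    intro x _
    exact te04_lam_pow K lam hmul (hT x x.2).1 (hT x x.2).2 (c x)
  exact hφ (by rw [← h8]; exact h7)

end Pool.Agent.Lib.MP_89bcae_ag.Sup

end

section

open Polynomial

open scoped Classical

set_option linter.unusedSectionVars false

namespace Pool.Agent.Lib.MP_89bcae_ag.Sup

universe u


end Pool.Agent.Lib.MP_89bcae_ag.Sup

end

section

open Polynomial

open scoped Classical

set_option linter.unusedSectionVars false

namespace Pool.Agent.Lib.MP_89bcae_ag.Sup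

universe u


end Pool.Agent.Lib.MP_89bcae_ag.Sup

end

section

/-!
# The criterion for all towers
-/

open Polynomial

open scoped Classical

set_option linter.unusedSectionVars false

namespace Pool.Agent.Lib.MP_89bcae_ag.Sup

universe u


end Pool.Agent.Lib.MP_89bcae_ag.Sup

end

section

open Polynomial WithZero

open scoped Classical

set_option linter.unusedSimpArgs false
set_option linter.unusedVariables false
set_option linter.unusedSectionVars false
set_option linter.style.haveILetI false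

namespace Pool.Agent.Lib.MP_89bcae_ag.Sup

universe u

theorem exists_mOrd (R k F : Type u) [CommRing R]
    [IsDomain R] [IsDiscreteValuationRing R] [Field k] [Algebra R k] [IsFractionRing R k]
    [Field F] [Algebra k F] [IsAlgClosure k F] (h2 : IsUnit (2 : R)) {g D : R[X]} (hg : g.Monic)
    (hgdeg : g.natDegree ≠ 0)
    (hlc : IsUnit D.leadingCoeff) (hcol : IsCollision7 g D)
    (hsep : ((D.comp g).map (algebraMap R k)).Separable)
    (htr : IsPairTransitive7 k F (g.map (algebraMap R k)) (D.map (algebraMap R k)))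
    (S : Finset F) (hS : ∀ b, b ∈ S ↔
      aeval (aeval b (g.map (algebraMap R k))) (D.map (algebraMap R k)) = 0) {α α' : F}
    (hα : aeval α (D.map (algebraMap R k)) = 0) (hα' : aeval α' (D.map (algebraMap R k)) = 0)
    (hne : α ≠ α') :
    ∃ (M : F → F) (o : F → ℤ), MOrd (IntermediateField.adjoin k (S : Set F)).toSubfield S
      (fun b => aeval b (g.map (algebraMap R k))) α α' M o := by
  have hF : IsAlgClosed F := IsAlgClosure.isAlgClosed k
  have hkF : Algebra.IsAlgebraic k F := IsAlgClosure.isAlgebraic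
  letI : Algebra R F := ((algebraMap k F).comp (algebraMap R k)).toAlgebra
  haveI : IsScalarTower R k F := IsScalarTower.of_algebraMap_eq fun _ => rfl
  have hinjk : Function.Injective (algebraMap R k) := IsFractionRing.injective R k
  have hinjF : Function.Injective (algebraMap R F) := (algebraMap k F).injective.comp hinjk
  have hmapF : ∀ p : R[X], (p.map (algebraMap R k)).map (algebraMap k F) =
      p.map (algebraMap R F) := fun p => by rw [Polynomial.map_map]; rfl
  have hlcF : algebraMap R F D.leadingCoeff ≠ 0 := (hlc.map (algebraMap R F)).ne_zero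
  have hlcF' : (D.map (algebraMap R F)).leadingCoeff = algebraMap R F D.leadingCoeff :=
    leadingCoeff_map_of_injective hinjF D
  have hcompF : (D.map (algebraMap R F)).comp (g.map (algebraMap R F)) =
      ((D.comp g).map (algebraMap R k)).map (algebraMap k F) := by
    rw [hmapF, Polynomial.map_comp]
  have hsepF : ((D.map (algebraMap R F)).comp (g.map (algebraMap R F))).Separable := by
    rw [hcompF]; exact hsep.map
  have hgF : (g.map (algebraMap R F)).natDegree = g.natDegree := hg.natDegree_map _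
  have hsepD : (D.map (algebraMap R F)).Separable := separable_left7 (by rw [hgF]; exact hgdeg) hsepF
  set gF := g.map (algebraMap R F) with hgFdef
  set DF := D.map (algebraMap R F) with hDFdef
  set A : Finset F := DF.roots.toFinset with hA
  have hev0 : ∀ b : F, aeval b (g.map (algebraMap R k)) = gF.eval b := by
    intro b
    rw [← eval_map_algebraMap, hmapF]
  have hevD : ∀ b : F, aeval b (D.map (algebraMap R k)) = DF.eval b := by
    intro b
    rw [← eval_map_algebraMap, hmapF]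
  have hmemS : ∀ b, b ∈ S ↔ DF.eval (gF.eval b) = 0 := by
    intro b
    rw [hS, hev0, hevD]
  have hSeq : S = (DF.comp gF).roots.toFinset := by
    ext b
    rw [hmemS, Multiset.mem_toFinset, mem_roots hsepF.ne_zero, IsRoot.def, eval_comp]
  have hmemA : ∀ α, α ∈ A ↔ DF.eval α = 0 := by
    intro α
    rw [hA, Multiset.mem_toFinset, mem_roots hsepD.ne_zero, IsRoot.def]
  have hSA : ∀ b ∈ S, gF.eval b ∈ A := fun b hb => (hmemA _).mpr ((hmemS b).mp hb)
  have hDA : DF = C (algebraMap R F D.leadingCoeff) * ∏ α ∈ A, (X - C α) := by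
    rw [← hlcF']
    exact eq_prod_roots7 hsepD
  have hdvd : ∀ α ∈ A, (gF - C α) ∣ DF.comp gF := by
    intro α hα
    obtain ⟨w, hw⟩ := dvd_iff_isRoot.mpr ((hmemA α).mp hα)
    refine ⟨w.comp gF, ?_⟩
    rw [hw, mul_comp, sub_comp, X_comp, C_comp]
  have hmon : ∀ α, (gF - C α).Monic := by
    intro α
    have h5 : (C α).degree < gF.degree := by
      rw [degree_eq_natDegree (p := gF) (hg.map _).ne_zero, hgF]
      refine (degree_C_le).trans_lt ?_
      exact_mod_cast Nat.pos_of_ne_zero hgdeg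
    exact (hg.map _).sub_of_left h5
  have hroots : ∀ α ∈ A, (gF - C α).roots.toFinset = S.filter (fun b => gF.eval b = α) := by
    intro α hα
    ext b
    rw [Finset.mem_filter, Multiset.mem_toFinset, mem_roots (hmon α).ne_zero, IsRoot.def, eval_sub,
      eval_C, sub_eq_zero, hmemS]
    constructor
    · exact fun h => ⟨by rw [h]; exact (hmemA α).mp hα, h⟩
    · exact fun h => h.2
  have hgS : ∀ α ∈ A, gF - C α = ∏ b ∈ S.filter (fun b => gF.eval b = α), (X - C b) := by
    intro α hα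
    have h3 := eq_prod_roots7 (hsepF.of_dvd (hdvd α hα))
    rw [(hmon α).leadingCoeff, C_1, one_mul, hroots α hα] at h3
    exact h3
  have hcardS : ∀ α ∈ A, (S.filter (fun b => gF.eval b = α)).card = g.natDegree := by
    intro α hα
    rw [← hroots α hα, card_roots_of_separable8 (hsepF.of_dvd (hdvd α hα)), natDegree_sub_C, hgF]
  have hAS : ∀ α ∈ A, ∃ b ∈ S, gF.eval b = α := by
    intro α hα
    have h1 : (S.filter (fun b => gF.eval b = α)).Nonempty := by
      rw [← Finset.card_pos, hcardS α hα]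
      exact Nat.pos_of_ne_zero hgdeg
    obtain ⟨b, hb⟩ := h1
    exact ⟨b, (Finset.mem_filter.mp hb).1, (Finset.mem_filter.mp hb).2⟩
  have hSroot : (S : Set F) = ((D.comp g).map (algebraMap R k)).rootSet F := by
    rw [rootSet, hSeq, hcompF, aroots]
  obtain ⟨hfin, hgal⟩ := galois7 (F := F) hsep
  obtain ⟨K, hK⟩ : ∃ K, K = IntermediateField.adjoin k (S : Set F) := ⟨_, rfl⟩
  haveI : FiniteDimensional k K := by rw [hK, hSroot]; exact hfin
  haveI : IsGalois k K := by rw [hK, hSroot]; exact hgal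
  obtain ⟨w, hw1, hw2, hw3, α₁, hα₁, α₂, hα₂, h12, hw4, hw5⟩ := exists_ord7 (R := R) (k := k)
    (F := F) h2 hgdeg hg hlc S A hDA hgS hSA hAS K hK hcol
  have hSK : ∀ b ∈ S, b ∈ K := by
    intro b hb
    rw [hK]
    exact IntermediateField.subset_adjoin _ _ hb
  have hev : ∀ b : F, aeval b (g.map (algebraMap R k)) = gF.eval b := by
    intro b
    rw [← eval_map_algebraMap, hmapF]
  -- the sums of the orders over the fibres
  let o : F → ℤ := fun x => - ordF7 w x
  have ho0 : ∀ b ∈ S, ∀ c ∈ S, 0 ≤ o (b - c) := fun b hb c hc => by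
    have := hw2 b hb c hc
    show 0 ≤ - ordF7 w (b - c)
    omega
  have hsum : ∀ b ∈ S, ∀ α ∈ A, gF.eval b ≠ α →
      ∑ c ∈ S.filter (fun c => gF.eval c = α), o (b - c) = - ordF7 w (gF.eval b - α) := by
    intro b hb α hα hne
    have h3 := congrArg (eval b) (hgS α hα)
    rw [eval_sub, eval_C, eval_prod] at h3
    rw [h3, Finset.prod_congr rfl fun c _ => by rw [eval_sub, eval_X, eval_C],
      ordF7_prod w _ _ (fun c hc => K.sub_mem (hSK b hb) (hSK c (Finset.mem_filter.mp hc).1))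
        (fun c hc => sub_ne_zero.mpr fun h0 => hne (by
          rw [h0]; exact (Finset.mem_filter.mp hc).2)), ← Finset.sum_neg_distrib]
  -- zero outside of the two fibres
  have hzero : ∀ b ∈ S, ∀ α ∈ A, gF.eval b ≠ α → ¬ (gF.eval b = α₁ ∧ α = α₂) →
      ¬ (gF.eval b = α₂ ∧ α = α₁) → ∀ c ∈ S, gF.eval c = α → o (b - c) = 0 := by
    intro b hb α hα hne h1 h3 c hc hcα
    have h4 := hsum b hb α hα hne
    rw [hw5 _ (hSA b hb) α hα hne h1 h3, neg_zero] at h4
    exact (Finset.sum_eq_zero_iff_of_nonneg (fun c hc =>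
      ho0 b hb c (Finset.mem_filter.mp hc).1)).mp h4 c (Finset.mem_filter.mpr ⟨hc, hcα⟩)
  -- one partner in the two fibres
  have hone : ∀ b ∈ S, ∀ α ∈ A, gF.eval b ≠ α → ordF7 w (gF.eval b - α) = -1 →
      ∀ c ∈ S, gF.eval c = α → o (b - c) ≠ 0 → ∀ c' ∈ S, gF.eval c' = α →
        o (b - c') = if c' = c then 1 else 0 := by
    intro b hb α hα hne h1 c hc hcα hc0 c' hc' hcα'
    have h4 := hsum b hb α hα hne
    rw [h1, neg_neg] at h4
    have hmem : c ∈ S.filter (fun c => gF.eval c = α) := Finset.mem_filter.mpr ⟨hc, hcα⟩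
    rw [← Finset.add_sum_erase _ _ hmem] at h4
    have h5 : 0 ≤ ∑ x ∈ (S.filter (fun c => gF.eval c = α)).erase c, o (b - x) :=
      Finset.sum_nonneg fun x hx => ho0 b hb x
        (Finset.mem_filter.mp (Finset.mem_of_mem_erase hx)).1
    have h6 := ho0 b hb c hc
    have h7 : o (b - c) = 1 := by omega
    have h8 : ∑ x ∈ (S.filter (fun c => gF.eval c = α)).erase c, o (b - x) = 0 := by omega
    by_cases hcc : c' = c
    · rw [if_pos hcc, hcc, h7]
    · rw [if_neg hcc]
      exact (Finset.sum_eq_zero_iff_of_nonneg (fun x hx =>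
        ho0 b hb x (Finset.mem_filter.mp (Finset.mem_of_mem_erase hx)).1)).mp h8 c'
        (Finset.mem_erase.mpr ⟨hcc, Finset.mem_filter.mpr ⟨hc', hcα'⟩⟩)
  have hsymm : ∀ x y : F, o (x - y) = o (y - x) := fun x y => by
    show - ordF7 w (x - y) = - ordF7 w (y - x)
    rw [ordF7_sub_comm]
  have hpart : ∀ b, ∃ c, b ∈ S → gF.eval b = α₁ → c ∈ S ∧ gF.eval c = α₂ ∧ o (b - c) ≠ 0 := by
    intro b
    by_cases hb : b ∈ S ∧ gF.eval b = α₁
    · have hbα : gF.eval b ≠ α₂ := by rw [hb.2]; exact h12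
      by_contra hcon
      push Not at hcon
      have h4 := hsum b hb.1 α₂ hα₂ hbα
      rw [Finset.sum_eq_zero fun c hc => ?_, hb.2, hw4] at h4
      · omega
      · by_contra h5
        have h6 := hcon c
        exact h5 (h6.2.2 (Finset.mem_filter.mp hc).1 (Finset.mem_filter.mp hc).2)
    · exact ⟨b, fun h1 h3 => absurd ⟨h1, h3⟩ hb⟩
  choose M₀ hM₀ using hpart
  have hleft : ∀ β ∈ S, gF.eval β = α₁ → ∀ β' ∈ S, gF.eval β' = α₂ →
      o (β - β') = if β' = M₀ β then 1 else 0 := by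
    intro β hβ h1 β' hβ' h3
    obtain ⟨q1, q2, q3⟩ := hM₀ β hβ h1
    exact hone β hβ α₂ hα₂ (by rw [h1]; exact h12) (by rw [h1]; exact hw4) (M₀ β) q1 q2 q3 β' hβ' h3
  have hbase : MOrd K.toSubfield S (fun b => gF.eval b) α₁ α₂ M₀ o := by
    refine ⟨fun a ha b hb ha0 hb0 => ?_, fun β hβ β' hβ' h1 h3 => ?_,
      fun β hβ β' hβ' h1 h3 h4 => ?_, fun β hβ h1 => ?_, fun β hβ β' hβ' h1 h3 h4 => ?_,
      fun β' hβ' h1 => ?_, hleft⟩
    · show - ordF7 w (a * b) = - ordF7 w a + - ordF7 w b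
      rw [ordF7_mul w ha hb ha0 hb0]
      ring
    · show - ordF7 w (β - β') = 0
      rw [hw3 β hβ β' hβ' h1 h3, neg_zero]
    · exact hzero β hβ _ (hSA β' hβ') h1 h3 h4 β' hβ' rfl
    · exact ⟨(hM₀ β hβ h1).1, (hM₀ β hβ h1).2.1⟩
    · obtain ⟨q1, q2, q3⟩ := hM₀ β hβ h1
      obtain ⟨r1, r2, r3⟩ := hM₀ β' hβ' h3
      rw [← h4] at r3
      rw [hsymm] at q3 r3
      have h5 := hone (M₀ β) q1 α₁ hα₁ (by rw [q2]; exact h12.symm)
        (by rw [q2, ordF7_sub_comm]; exact hw4) β hβ h1 q3 β' hβ' h3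
      by_contra hcon
      rw [if_neg (fun h => hcon h.symm)] at h5
      exact r3 h5
    · have hbα : gF.eval β' ≠ α₁ := by
        rw [show gF.eval β' = α₂ from h1]
        exact h12.symm
      obtain ⟨β, hβ, hβ1, hβ2⟩ : ∃ β ∈ S, gF.eval β = α₁ ∧ o (β' - β) ≠ 0 := by
        by_contra hcon
        push Not at hcon
        have h4 := hsum β' hβ' α₁ hα₁ hbα
        rw [Finset.sum_eq_zero fun c hc => hcon c (Finset.mem_filter.mp hc).1
          (Finset.mem_filter.mp hc).2, show gF.eval β' = α₂ from h1, ordF7_sub_comm, hw4] at h4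
        omega
      refine ⟨β, hβ, hβ1, ?_⟩
      have h5 := hleft β hβ hβ1 β' hβ' h1
      by_contra hcon
      rw [if_neg (fun h => hcon h.symm), hsymm] at h5
      exact hβ2 h5
  -- the Galois conjugates
  have hmemS' : ∀ b, b ∈ S ↔ aeval b ((D.map (algebraMap R k)).comp
      (g.map (algebraMap R k))) = 0 := by
    intro b
    rw [hmemS, aeval_comp, ← eval_map_algebraMap, hmapF, hev]
  have hσS : ∀ (σ : F ≃ₐ[k] F), ∀ x ∈ S, σ x ∈ S := by
    intro σ x hx
    rw [hmemS'] at hx ⊢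
    rw [Polynomial.aeval_algHom_apply, hx, map_zero]
  have hσK : ∀ (σ : F ≃ₐ[k] F), ∀ x ∈ K, σ x ∈ K := by
    intro σ x hx
    rw [hK] at hx ⊢
    refine IntermediateField.adjoin_induction k (p := fun x _ =>
      σ x ∈ IntermediateField.adjoin k (S : Set F)) ?_ ?_ ?_ ?_ ?_ hx
    · intro y hy
      exact IntermediateField.subset_adjoin k _ (hσS σ y hy)
    · intro y
      rw [AlgEquiv.commutes]
      exact IntermediateField.algebraMap_mem _ y
    · intro y z _ _ hy hz
      rw [map_add]; exact add_mem hy hz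
    · intro y _ hy
      rw [map_inv₀]; exact inv_mem hy
    · intro y z _ _ hy hz
      rw [map_mul]; exact mul_mem hy hz
  have hσg : ∀ (σ : F ≃ₐ[k] F) (x : F), gF.eval (σ x) = σ (gF.eval x) := fun σ x => by
    rw [← hev, ← hev]
    exact Polynomial.aeval_algHom_apply (σ : F →ₐ[k] F) x _
  -- the pair of roots
  have hαA : α ∈ A := (hmemA α).mpr (by rw [← hevD]; exact hα)
  have hαA' : α' ∈ A := (hmemA α').mpr (by rw [← hevD]; exact hα')
  obtain ⟨x, hx, hgx⟩ := hAS α hαA
  obtain ⟨y, hy, hgy⟩ := hAS α' hαA'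
  obtain ⟨b₀, hb₀, hgb₀⟩ := hAS α₁ hα₁
  obtain ⟨c₀, hc₀, hgc₀⟩ := hAS α₂ hα₂
  obtain ⟨σ, hσ1, hσ2⟩ := htr x y b₀ c₀ ((hmemS' x).mp hx) ((hmemS' y).mp hy)
      ((hmemS' b₀).mp hb₀) ((hmemS' c₀).mp hc₀) (by rw [hev, hev, hgx, hgy]; exact hne) (by
        rw [hev, hev, hgb₀, hgc₀]; exact h12)
  have hσα : σ α = α₁ := by rw [← hgx, ← hσg, hσ1, hgb₀]
  have hσα' : σ α' = α₂ := by rw [← hgy, ← hσg, hσ2, hgc₀]
  have k1 : ∀ z, gF.eval (σ z) = α₁ ↔ aeval z (g.map (algebraMap R k)) = α := by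
    intro z
    rw [hσg, hev, ← hσα]
    exact σ.injective.eq_iff
  have k2 : ∀ z, gF.eval (σ z) = α₂ ↔ aeval z (g.map (algebraMap R k)) = α' := by
    intro z
    rw [hσg, hev, ← hσα']
    exact σ.injective.eq_iff
  have k3 : ∀ z z', gF.eval (σ z) = gF.eval (σ z') ↔
      aeval z (g.map (algebraMap R k)) = aeval z' (g.map (algebraMap R k)) := by
    intro z z'
    rw [hσg, hσg, hev, hev]
    exact σ.injective.eq_iff
  have k4 : ∀ z, σ (σ.symm z) = z := fun z => σ.apply_symm_apply z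
  refine ⟨fun z => σ.symm (M₀ (σ z)), fun z => o (σ z), ?_⟩
  rw [← hK]
  refine ⟨fun a ha b hb ha0 hb0 => ?_, fun β hβ β' hβ' h1 h3 => ?_,
      fun β hβ β' hβ' h1 h3 h4 => ?_, fun β hβ h1 => ?_, fun β hβ β' hβ' h1 h3 h4 => ?_,
      fun β' hβ' h1 => ?_, fun β hβ h1 β' hβ' h3 => ?_⟩
  · show o (σ (a * b)) = o (σ a) + o (σ b)
    rw [map_mul]
    exact hbase.mul _ (hσK σ a ha) _ (hσK σ b hb) ((_root_.map_ne_zero σ).mpr ha0)
      ((_root_.map_ne_zero σ).mpr hb0)
  · show o (σ (β - β')) = 0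
    rw [map_sub]
    exact hbase.same _ (hσS σ β hβ) _ (hσS σ β' hβ') (fun h => h1 (σ.injective h))
      ((k3 β β').mpr h3)
  · show o (σ (β - β')) = 0
    rw [map_sub]
    exact hbase.out _ (hσS σ β hβ) _ (hσS σ β' hβ') (fun h => h1 ((k3 β β').mp h))
      (fun h => h3 ⟨(k1 β).mp h.1, (k2 β').mp h.2⟩) (fun h => h4 ⟨(k2 β).mp h.1, (k1 β').mp h.2⟩)
  · obtain ⟨q1, q2⟩ := hbase.mem _ (hσS σ β hβ) ((k1 β).mpr h1)
    refine ⟨hσS σ.symm _ q1, (k2 _).mp ?_⟩
    rw [k4]
    exact q2
  · have h5 : M₀ (σ β) = M₀ (σ β') := σ.symm.injective h4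
    exact σ.injective (hbase.inj _ (hσS σ β hβ) _ (hσS σ β' hβ') ((k1 β).mpr h1)
      ((k1 β').mpr h3) h5)
  · obtain ⟨β, hβ, hβ1, hβ2⟩ := hbase.surj _ (hσS σ β' hβ') ((k2 β').mpr h1)
    refine ⟨σ.symm β, hσS σ.symm _ hβ, (k1 _).mp (by rw [k4]; exact hβ1), ?_⟩
    show σ.symm (M₀ (σ (σ.symm β))) = β'
    rw [k4, hβ2]
    exact σ.symm_apply_apply β'
  · show o (σ (β - β')) = _
    rw [map_sub, hbase.left _ (hσS σ β hβ) ((k1 β).mpr h1) _ (hσS σ β' hβ') ((k2 β').mpr h3)]
    refine if_congr ⟨fun h => ?_, fun h => ?_⟩ rfl rfl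
    · rw [← h]
      exact (σ.symm_apply_apply β').symm
    · rw [h]
      exact k4 _

end Pool.Agent.Lib.MP_89bcae_ag.Sup

end

end

section

open Polynomial

open scoped Classical

namespace Pool.Agent.Lib.MP_89bcae_ag.Re

open Sup

/-- The function `o` is a homomorphism on `K`, zero on the differences of elements of `S`, except for
the pairs between the fibres of `p` over `α` and `α'`, where it is `1`. -/
structure AOne {F : Type*} [Field F] (K : Subfield F) (S : Finset F) (p : F → F) (α α' : F)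
    (o : F → ℤ) : Prop where
  mul : ∀ a ∈ K, ∀ b ∈ K, a ≠ 0 → b ≠ 0 → o (a * b) = o a + o b
  same : ∀ β ∈ S, ∀ β' ∈ S, β ≠ β' → p β = p β' → o (β - β') = 0
  out : ∀ β ∈ S, ∀ β' ∈ S, p β ≠ p β' → ¬ (p β = α ∧ p β' = α') →
    ¬ (p β = α' ∧ p β' = α) → o (β - β') = 0
  left : ∀ β ∈ S, p β = α → ∀ β' ∈ S, p β' = α' → o (β - β') = 1

/-- Proof: `o₁ z = ∑ σ ∈ J, o (σ⁻¹ z)`. This is contained in the proof of `Sup.exists_lam` (file
`Tow/M11`), for the term with `c` there (`o''`): copy it. -/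
theorem exists_aOne {k F : Type*} [Field k] [Field F] [Algebra k F]
    {g E : k[X]} (S : Finset F) (hS : ∀ b, b ∈ S ↔ aeval (aeval b g) E = 0) {α α' : F}
    (h1 : α ≠ α') {J : Finset (F ≃ₐ[k] F)}
    (hJ1 : ∀ x y : F, aeval x g = α → aeval y g = α →
      ∃ σ ∈ J, σ x = y ∧ ∀ τ ∈ J, τ x = y → τ = σ)
    (hJ2 : ∀ σ ∈ J, ∀ b : F, aeval b (E.comp g) = 0 → aeval b g ≠ α → σ b = b)
    {M : F → F} {o : F → ℤ}
    (ho : MOrd (IntermediateField.adjoin k (S : Set F)).toSubfield S
      (fun b => aeval b g) α α' M o) :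
    ∃ o₁ : F → ℤ, AOne (IntermediateField.adjoin k (S : Set F)).toSubfield S
      (fun b => aeval b g) α α' o₁ := by
  have hp : ∀ (σ : F ≃ₐ[k] F) (b : F), aeval (σ b) g = σ (aeval b g) := fun σ b => by
    have := Polynomial.aeval_algHom_apply (σ : F →ₐ[k] F) b g
    simpa using this
  have hE : ∀ (σ : F ≃ₐ[k] F) (b : F), aeval (σ b) E = σ (aeval b E) := fun σ b => by
    have := Polynomial.aeval_algHom_apply (σ : F →ₐ[k] F) b E
    simpa using this
  have hSσ : ∀ (σ : F ≃ₐ[k] F) (b : F), b ∈ S → σ b ∈ S := fun σ b hb => by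
    rw [hS] at hb ⊢
    rw [hp, hE, hb, map_zero]
  have hinv : ∀ (σ : F ≃ₐ[k] F) (b : F), σ (σ⁻¹ b) = b := fun σ b => by
    rw [← AlgEquiv.mul_apply, mul_inv_cancel, AlgEquiv.one_apply]
  have hinv' : ∀ (σ : F ≃ₐ[k] F) (b : F), σ⁻¹ (σ b) = b := fun σ b => by
    rw [← AlgEquiv.mul_apply, inv_mul_cancel, AlgEquiv.one_apply]
  have hfix : ∀ σ ∈ J, ∀ b ∈ S, aeval b g ≠ α → σ⁻¹ b = b := fun σ hσ b hb hba => by
    have h : σ b = b := hJ2 σ hσ b (by rw [aeval_comp]; exact (hS b).1 hb) hba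
    have h' := hinv' σ b
    rwa [h] at h'
  have hal : ∀ σ ∈ J, ∀ b ∈ S, aeval b g = α → aeval (σ⁻¹ b) g = α := fun σ hσ b hb hba => by
    by_contra hne
    have hmem : σ⁻¹ b ∈ S := hSσ _ _ hb
    have h : σ (σ⁻¹ b) = σ⁻¹ b :=
      hJ2 σ hσ (σ⁻¹ b) (by rw [aeval_comp]; exact (hS _).1 hmem) hne
    rw [hinv] at h
    rw [← h] at hne
    exact hne hba
  have hpp : ∀ σ ∈ J, ∀ b ∈ S, aeval (σ⁻¹ b) g = aeval b g := fun σ hσ b hb => by
    by_cases h : aeval b g = α
    · rw [hal σ hσ b hb h, h]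
    · rw [hfix σ hσ b hb h]
  have hK : ∀ (σ : F ≃ₐ[k] F) (x : F), x ∈ IntermediateField.adjoin k (S : Set F) →
      σ x ∈ IntermediateField.adjoin k (S : Set F) := fun σ x hx => by
    have h1 : σ x ∈ (IntermediateField.adjoin k (S : Set F)).map (σ : F →ₐ[k] F) :=
      ⟨x, hx, rfl⟩
    rw [IntermediateField.adjoin_map] at h1
    refine IntermediateField.adjoin.mono k _ _ ?_ h1
    rintro _ ⟨b, hb, rfl⟩
    exact hSσ σ b hb
  refine ⟨fun z => ∑ σ ∈ J, o (σ⁻¹ z), ?_, ?_, ?_, ?_⟩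
  · intro x hx y hy hx0 hy0
    have e2 : ∀ σ : F ≃ₐ[k] F, o (σ⁻¹ (x * y)) = o (σ⁻¹ x) + o (σ⁻¹ y) := fun σ => by
      rw [map_mul]
      exact ho.mul _ (hK _ _ hx) _ (hK _ _ hy) (by simpa using hx0) (by simpa using hy0)
    simp only [e2]
    rw [Finset.sum_add_distrib]
  · intro β hβ β' hβ' hne hb
    refine Finset.sum_eq_zero fun σ _ => ?_
    rw [map_sub]
    refine ho.same _ (hSσ _ _ hβ) _ (hSσ _ _ hβ') (fun h => hne (σ⁻¹.injective h)) ?_
    simp only [hp]
    exact congrArg _ hb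
  · intro β hβ β' hβ' hne hn1 hn2
    refine Finset.sum_eq_zero fun σ hσ => ?_
    rw [map_sub]
    have e1 := hpp σ hσ β hβ
    have e2 := hpp σ hσ β' hβ'
    refine ho.out _ (hSσ _ _ hβ) _ (hSσ _ _ hβ') ?_ ?_ ?_
    · simp only [e1, e2]; exact hne
    · simp only [e1, e2]; exact hn1
    · simp only [e1, e2]; exact hn2
  · intro β hβ hβa β' hβ' hβa'
    obtain ⟨x₀, hx₀, hx₀a, hx₀M⟩ := ho.surj β' hβ' hβa'
    obtain ⟨σ₀, hσ₀, hσ₀x, huniq⟩ := hJ1 x₀ β hx₀a hβa
    have e2 : ∀ σ ∈ J, o (σ⁻¹ (β - β')) = if σ = σ₀ then 1 else 0 := fun σ hσ => by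
      have hb' : σ⁻¹ β' = β' := hfix σ hσ β' hβ' (by
        have : aeval β' g = α' := hβa'
        rw [this]; exact h1.symm)
      have hb : aeval (σ⁻¹ β) g = α := hal σ hσ β hβ hβa
      rw [map_sub, hb']
      have : o (σ⁻¹ β - β') = if β' = M (σ⁻¹ β) then 1 else 0 :=
        ho.left (σ⁻¹ β) (hSσ _ _ hβ) hb β' hβ' hβa'
      rw [this]
      have hiff : β' = M (σ⁻¹ β) ↔ σ = σ₀ := by
        constructor
        · intro h
          refine huniq σ hσ ?_
          have : x₀ = σ⁻¹ β := ho.inj x₀ hx₀ _ (hSσ _ _ hβ) hx₀a hb (hx₀M.trans h)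
          rw [this, hinv]
        · rintro rfl
          rw [← hσ₀x, hinv', hx₀M]
      by_cases h : σ = σ₀
      · rw [if_pos h, if_pos (hiff.2 h)]
      · rw [if_neg h, if_neg (fun h' => h (hiff.1 h'))]
    show ∑ σ ∈ J, o (σ⁻¹ (β - β')) = 1
    rw [Finset.sum_congr rfl e2]
    simp [hσ₀]

end Pool.Agent.Lib.MP_89bcae_ag.Re

end

section

open Polynomial

open scoped Classical

namespace Pool.Agent.Lib.MP_89bcae_ag.Re

open Sup

universe u v

private theorem q02_sum {k F : Type u} {κ G : Type v} [Field k] [Field F] [Algebra k F] [Field κ]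
    [Field G] [Algebra κ G] {ℓ : ℕ} {g E : k[X]} {g' E' : κ[X]} (ρ : F → G)
    (hinj : ∀ β ∈ RR F g E, ∀ β' ∈ RR F g E, ρ β = ρ β' → β = β')
    (himg : RR G g' E' = (RR F g E).image ρ) (p : G → Prop) (q : F → Prop) [DecidablePred p] [DecidablePred q]
    (hpq : ∀ β ∈ RR F g E, p (ρ β) ↔ q β) (f : G → ZMod ℓ) (f' : F → ZMod ℓ)
    (hf : ∀ β ∈ RR F g E, f (ρ β) = f' β) :
    ∑ β' ∈ (RR G g' E').filter p, f β' = ∑ β' ∈ (RR F g E).filter q, f' β' := by
  rw [himg, Finset.filter_image, Finset.sum_image]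
  · rw [Finset.filter_congr hpq]
    exact Finset.sum_congr rfl fun β hβ => hf β (Finset.mem_filter.1 hβ).1
  · intro β hβ β' hβ' h
    exact hinj β (Finset.mem_filter.1 hβ).1 β' (Finset.mem_filter.1 hβ').1 h

/-- Transport of the separation condition along a bijection `ρ` between the sets of roots which
respects the fibres and multiplies the symbols by `c ≠ 0`. Proof: given `e'`, `N`, `cst'` for the second
side put `e β = e' (ρ β)`, `N / c`, `cst (g β) = cst' (g' (ρ β)) / c` (well defined because `ρ` respects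
the fibres; for instance `cst α = cst' (g' (ρ β)) / c` for a chosen `β` in `RR` over `α`), and compare the
sums term by term (`Finset.sum_image`; the terms `β' = β` are zero because of `e β - e β' = 0`). -/
theorem sepU_transport {k F : Type u} {κ G : Type v} [Field k] [Field F] [Algebra k F] [Field κ]
    [Field G] [Algebra κ G] {ℓ : ℕ} [Fact ℓ.Prime] {g E : k[X]} {g' E' : κ[X]} (ρ : F → G)
    (hinj : ∀ β ∈ RR F g E, ∀ β' ∈ RR F g E, ρ β = ρ β' → β = β')
    (himg : RR G g' E' = (RR F g E).image ρ)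
    (hfib : ∀ β ∈ RR F g E, ∀ β' ∈ RR F g E,
      aeval (ρ β) g' = aeval (ρ β') g' ↔ aeval β g = aeval β' g)
    {kp : F → ZMod ℓ} {kp' : G → ZMod ℓ} {c : ZMod ℓ} (hc : c ≠ 0)
    (hkp : ∀ β ∈ RR F g E, ∀ β' ∈ RR F g E, β ≠ β' → kp' (ρ β - ρ β') = c * kp (β - β'))
    {μ : ZMod ℓ} (h : SepU g E kp μ Set.univ) : SepU g' E' kp' μ Set.univ := by
  intro e' n cst' hz heq γ hγ _
  have key : ∀ β ∈ RR F g E, (fun β => e' (ρ β)) β = 0 := by
    intro β hβ
    refine h (fun β => e' (ρ β)) (n / c)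
      (fun α => if hα : ∃ β₀ ∈ RR F g E, aeval β₀ g = α then cst' (aeval (ρ hα.choose) g') / c else 0)
      ?_ ?_ β hβ (Set.mem_univ _)
    · intro β₁ h₁
      have hm : ρ β₁ ∈ RR G g' E' := by
        rw [himg]
        exact Finset.mem_image_of_mem ρ h₁
      rw [← hz (ρ β₁) hm]
      exact (q02_sum ρ hinj himg _ _ (fun β₂ h₂ => hfib β₂ h₂ β₁ h₁) _ _ fun β₂ _ => rfl).symm
    · intro β₁ h₁ _
      have hm : ρ β₁ ∈ RR G g' E' := by
        rw [himg]
        exact Finset.mem_image_of_mem ρ h₁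
      have hex : ∃ β₀ ∈ RR F g E, aeval β₀ g = aeval β₁ g := ⟨β₁, h₁, rfl⟩
      have hterm : ∀ β₂ ∈ RR F g E, kp' (ρ β₁ - ρ β₂) * (e' (ρ β₁) - e' (ρ β₂)) =
          c * (kp (β₁ - β₂) * (e' (ρ β₁) - e' (ρ β₂))) := by
        intro β₂ h₂
        by_cases h12 : β₁ = β₂
        · rw [h12, sub_self (e' (ρ β₂))]
          ring
        · rw [hkp β₁ h₁ β₂ h₂ h12]
          ring
      have hS : sumS g' E' kp' e' (ρ β₁) = c * sumS g E kp (fun β => e' (ρ β)) β₁ := by
        unfold sumS
        rw [Finset.mul_sum]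
        exact q02_sum ρ hinj himg _ _ (fun β₂ h₂ => hfib β₂ h₂ β₁ h₁)
          (fun γ => kp' (ρ β₁ - γ) * (e' (ρ β₁) - e' γ)) _ hterm
      have hO : sumO g' E' kp' e' (ρ β₁) = c * sumO g E kp (fun β => e' (ρ β)) β₁ := by
        unfold sumO
        rw [Finset.mul_sum]
        exact q02_sum ρ hinj himg (fun γ => aeval γ g' ≠ aeval (ρ β₁) g') (fun β₂ => aeval β₂ g ≠ aeval β₁ g)
          (fun β₂ h₂ => not_congr (hfib β₂ h₂ β₁ h₁))
          (fun γ => kp' (ρ β₁ - γ) * (e' (ρ β₁) - e' γ)) _ hterm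
      have h3 := heq (ρ β₁) hm (Set.mem_univ _)
      rw [hS, hO] at h3
      have h4 : aeval (ρ hex.choose) g' = aeval (ρ β₁) g' :=
        (hfib _ hex.choose_spec.1 β₁ h₁).2 hex.choose_spec.2
      rw [dif_pos hex, h4, ← h3]
      field_simp
  rw [himg, Finset.mem_image] at hγ
  obtain ⟨β, hβ, rfl⟩ := hγ
  exact key β hβ

/-- If the fibres have at least two elements, the symbol is not identically zero. Proof: otherwise
`sumO` and `sumS` vanish for all `e`; let `β₁ ≠ β₂` be in the same fibre and `e = 1` at `β₁`, `-1` at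
`β₂`, `0` elsewhere; the condition with `n = 0`, `cst = 0` gives `e β₁ = 0`, a contradiction. -/
theorem exists_kap_ne_zero {k F : Type u} [Field k] [Field F] [Algebra k F] {ℓ : ℕ}
    [Fact ℓ.Prime] {g E : k[X]} {kp : F → ZMod ℓ} (h : SepU g E kp 0 Set.univ)
    {β₁ β₂ : F} (h1 : β₁ ∈ RR F g E) (h2 : β₂ ∈ RR F g E) (h12 : β₁ ≠ β₂)
    (hg : aeval β₁ g = aeval β₂ g) :
    ∃ β ∈ RR F g E, ∃ β' ∈ RR F g E, β ≠ β' ∧ kp (β - β') ≠ 0 := by
  by_contra hcon
  have hk : ∀ β ∈ RR F g E, ∀ β' ∈ RR F g E, β ≠ β' → kp (β - β') = 0 := by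
    intro β hβ β' hβ' hne
    by_contra h0
    exact hcon ⟨β, hβ, β', hβ', hne, h0⟩
  have hterm : ∀ (e : F → ZMod ℓ), ∀ β ∈ RR F g E, ∀ β' ∈ RR F g E,
      kp (β - β') * (e β - e β') = 0 := by
    intro e β hβ β' hβ'
    by_cases hne : β = β'
    · rw [hne, sub_self (e β'), mul_zero]
    · rw [hk β hβ β' hβ' hne, zero_mul]
  have key := h (fun x => (if x = β₁ then (1 : ZMod ℓ) else 0) - (if x = β₂ then 1 else 0)) 0
    (fun _ => 0) ?_ ?_ β₁ h1 (Set.mem_univ _)
  · simp only [if_true, if_neg h12, sub_zero] at key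
    exact one_ne_zero key
  · intro β hβ
    rw [Finset.sum_sub_distrib, Finset.sum_ite_eq', Finset.sum_ite_eq']
    by_cases hc : aeval β₁ g = aeval β g
    · rw [if_pos (Finset.mem_filter.2 ⟨h1, hc⟩), if_pos (Finset.mem_filter.2 ⟨h2, hg ▸ hc⟩),
        sub_self]
    · have n1 : β₁ ∉ (RR F g E).filter (fun β' => aeval β' g = aeval β g) :=
        fun hm => hc (Finset.mem_filter.1 hm).2
      have n2 : β₂ ∉ (RR F g E).filter (fun β' => aeval β' g = aeval β g) :=
        fun hm => hc (hg.trans (Finset.mem_filter.1 hm).2)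
      rw [if_neg n1, if_neg n2, sub_self]
  · intro β hβ _
    have a1 : sumO g E kp (fun x => (if x = β₁ then (1 : ZMod ℓ) else 0) -
        (if x = β₂ then 1 else 0)) β = 0 :=
      Finset.sum_eq_zero fun β' hβ' => hterm (fun x => (if x = β₁ then (1 : ZMod ℓ) else 0) -
        (if x = β₂ then 1 else 0)) β hβ β' (Finset.mem_filter.1 hβ').1
    rw [a1, zero_mul, zero_mul, add_zero, add_zero]

end Pool.Agent.Lib.MP_89bcae_ag.Re

end
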