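import Mathlib
import Pool.Agent.Lib.MP_89bcae_ag.Brt.DefsT
import Pool.Agent.Lib.MP_89bcae_ag.Tk.K002
import Pool.Agent.Lib.MP_89bcae_ag.Tk.K006
import Pool.Agent.Lib.MP_89bcae_ag.Tw.TDefs
import Pool.Agent.Lib.MP_89bcae_ag.Tk.K000

set_option linter.all false
attribute [local instance 100000] Pool.Agent.Lib.MP_89bcae_ag.Brt.tffFields
attribute [local instance 100000] Pool.Agent.Lib.MP_89bcae_ag.Wt.ifrNF Pool.Agent.Lib.MP_89bcae_ag.Wt.iddNF

namespace Pool.Agent.Lib.MP_89bcae_ag
end Pool.Agent.Lib.MP_89bcae_ag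
namespace Pool.Agent.Lib.MP_89bcae_ag.Bra
end Pool.Agent.Lib.MP_89bcae_ag.Bra
namespace Pool.Agent.Lib.MP_89bcae_ag.Frob14
end Pool.Agent.Lib.MP_89bcae_ag.Frob14
namespace Pool.Agent.Lib.MP_89bcae_ag.Stepanov14
end Pool.Agent.Lib.MP_89bcae_ag.Stepanov14

section

/-!
# The orbit of a root of `D ∘ g` under an automorphism
-/

open Polynomial IntermediateField

namespace Pool.Agent.Lib.MP_89bcae_ag

set_option linter.unusedSectionVars false

section Aut

variable {k F : Type*} [Field k] [Field F] [Algebra k F] (φ : F ≃ₐ[k] F)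

lemma autP_pow_pow (i m : ℕ) {x : F} (h : (φ ^ i) x = x) : (φ ^ (i * m)) x = x := by
  induction m with
  | zero => simp
  | succ m ih => rw [Nat.mul_succ, pow_add, AlgEquiv.mul_apply, h, ih]

lemma autP_pow_mod {N : ℕ} (i : ℕ) {x : F} (h : (φ ^ N) x = x) :
    (φ ^ (i % N)) x = (φ ^ i) x := by
  conv_rhs => rw [← Nat.mod_add_div i N, pow_add, AlgEquiv.mul_apply, autP_pow_pow φ N _ h]

lemma autP_pow_inj {x : F} {N a b : ℕ} (h : ∀ i, (φ ^ i) x = x ↔ N ∣ i) :
    (φ ^ a) x = (φ ^ b) x ↔ a ≡ b [MOD N] := by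
  rcases le_total a b with hle | hle
  · have h1 : (φ ^ a) x = (φ ^ b) x ↔ (φ ^ (b - a)) x = x := by
      constructor
      · intro h1
        apply (φ ^ a).injective
        rw [← AlgEquiv.mul_apply, ← pow_add, Nat.add_sub_cancel' hle]
        exact h1.symm
      · intro h1
        rw [← Nat.add_sub_cancel' hle, pow_add, AlgEquiv.mul_apply, h1]
    rw [h1, h, Nat.modEq_iff_dvd' hle]
  · have h1 : (φ ^ a) x = (φ ^ b) x ↔ (φ ^ (a - b)) x = x := by
      constructor
      · intro h1
        apply (φ ^ b).injective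
        rw [← AlgEquiv.mul_apply, ← pow_add, Nat.add_sub_cancel' hle]
        exact h1
      · intro h1
        rw [← Nat.add_sub_cancel' hle, pow_add, AlgEquiv.mul_apply, h1]
    rw [h1, h, Nat.ModEq.comm, Nat.modEq_iff_dvd' hle]

lemma aeval_autP (i : ℕ) (p : k[X]) (x : F) :
    aeval ((φ ^ i) x) p = (φ ^ i) (aeval x p) := by
  rw [← AlgEquiv.coe_toAlgHom (φ ^ _), aeval_algHom_apply]

end Aut

variable {k F : Type*} [Field k] [Field F] [Algebra k F] {φ : F ≃ₐ[k] F}


namespace OrbP8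

variable {g D : k[X]} {n : ℕ} {α β : F}


end OrbP8


namespace OrbP8

variable {g D : k[X]} {n : ℕ} {α β : F}


end OrbP8

end Pool.Agent.Lib.MP_89bcae_ag

end

section

/-!
# Stepanov's bound for quadratic character sums

`F` a finite field of odd characteristic `p` with `p ^ m * p ^ n` elements, `m ≤ n`, `f ∈ F[X]` not of
the form `c g ^ 2`. Then `|∑ χ(f(x))| ≤ 4 (deg f) p ^ n`.
-/

namespace Pool.Agent.Lib.MP_89bcae_ag.Stepanov14

open Polynomial Finset

variable {F : Type*} [Field F]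

/-- the polynomial with the given coefficients -/
noncomputable def pol {H : ℕ} (c : Fin H → F) : F[X] := ((degreeLTEquiv F H).symm c : degreeLT F H)

theorem pol_sub {H : ℕ} (c c' : Fin H → F) : pol (c - c') = pol c - pol c' := by
  simp [pol]

theorem pol_eq_zero {H : ℕ} {c : Fin H → F} (h : pol c = 0) : c = 0 := by
  simpa [pol] using h

theorem natDegree_pol_le {H : ℕ} (c : Fin H → F) : (pol c).natDegree ≤ H - 1 := by
  rcases Nat.eq_zero_or_pos H with rfl | hH
  · have : c = 0 := Subsingleton.elim _ _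
    rw [this, pol, map_zero, ZeroMemClass.coe_zero, natDegree_zero]
  · by_cases h0 : pol c = 0
    · rw [h0]; simp
    · have h1 : (pol c) ∈ degreeLT F H := ((degreeLTEquiv F H).symm c).2
      rw [mem_degreeLT] at h1
      have := (natDegree_lt_iff_degree_lt h0).2 h1
      omega

theorem sum_zero {N : ℕ} : ∀ (I : ℕ) (u : ℕ → F[X]),
    (∀ i < I, X ^ N ∣ u i → u i = 0) → ∑ i ∈ range I, u i * X ^ (i * N) = 0 →
    ∀ i < I, u i = 0 := by
  intro I
  induction I with
  | zero => intro u _ _ i hi; omega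
  | succ I ih =>
    intro u hu hs
    rw [sum_range_succ'] at hs
    have e1 : ∑ i ∈ range I, u (i + 1) * X ^ ((i + 1) * N) =
        (∑ i ∈ range I, u (i + 1) * X ^ (i * N)) * X ^ N := by
      rw [sum_mul]
      refine sum_congr rfl fun i _ => ?_
      rw [add_mul, one_mul, pow_add, mul_assoc]
    rw [e1, zero_mul, pow_zero, mul_one] at hs
    have h0 : u 0 = 0 := by
      apply hu 0 (by omega)
      rw [eq_neg_of_add_eq_zero_right hs]
      exact (dvd_neg.2 (dvd_mul_left _ _))
    rw [h0, add_zero] at hs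
    have hs' : ∑ i ∈ range I, u (i + 1) * X ^ (i * N) = 0 := by
      rcases mul_eq_zero.1 hs with h | h
      · exact h
      · exact absurd h (pow_ne_zero _ X_ne_zero)
    intro i hi
    rcases Nat.eq_zero_or_pos i with rfl | hpos
    · exact h0
    · obtain ⟨j, rfl⟩ := Nat.exists_eq_add_of_lt hpos
      have := ih (fun i => u (i + 1)) (fun i hi => hu (i + 1) (by omega)) hs' j (by omega)
      simpa [add_comm] using this

section
variable {p : ℕ} [Fact p.Prime] [CharP F p]


variable [Fintype F] [DecidableEq F]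


end

end Pool.Agent.Lib.MP_89bcae_ag.Stepanov14

end

section

/-!
ROW T04. AVERAGING OVER THE LINEAR FORMS.
-/

open Finset

namespace Pool.Agent.Lib.MP_89bcae_ag.Tw

lemma t04_count {ι : Type*} [Fintype ι] [DecidableEq ι] {ℓ : ℕ} [Fact ℓ.Prime]
    (v : ι → ZMod ℓ) (hv : v ≠ 0) :
    ℓ * ((Finset.univ : Finset (ι → ZMod ℓ)).filter fun a => ∑ i, a i * v i = 0).card =
      ℓ ^ Fintype.card ι := by
  let φ : (ι → ZMod ℓ) →ₗ[ZMod ℓ] ZMod ℓ := ∑ i, (LinearMap.proj i).smulRight (v i)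
  have hφ : ∀ a, φ a = ∑ i, a i * v i := by
    intro a
    simp [φ, LinearMap.sum_apply]
  have hsurj : Function.Surjective φ := by
    obtain ⟨j, hj⟩ : ∃ j, v j ≠ 0 := by
      by_contra h
      push Not at h
      exact hv (_root_.funext h)
    intro c
    refine ⟨Pi.single j (c * (v j)⁻¹), ?_⟩
    rw [hφ, Finset.sum_eq_single j]
    · rw [Pi.single_eq_same, mul_assoc, inv_mul_cancel₀ hj, mul_one]
    · intro i _ hi
      rw [Pi.single_eq_of_ne hi, zero_mul]
    · intro h
      exact absurd (Finset.mem_univ j) h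
  have h1 := Submodule.card_eq_card_quotient_mul_card (LinearMap.ker φ)
  have h2 : Nat.card ((ι → ZMod ℓ) ⧸ LinearMap.ker φ) = ℓ := by
    rw [Nat.card_congr (φ.quotKerEquivOfSurjective hsurj).toEquiv, Nat.card_zmod]
  have h3 : Nat.card (ι → ZMod ℓ) = ℓ ^ Fintype.card ι := by
    rw [Nat.card_eq_fintype_card, Fintype.card_fun, ZMod.card]
  have h4 : Nat.card (LinearMap.ker φ) =
      ((Finset.univ : Finset (ι → ZMod ℓ)).filter fun a => ∑ i, a i * v i = 0).card := by
    have h5 : Nat.card (LinearMap.ker φ) = Nat.card {a : ι → ZMod ℓ // ∑ i, a i * v i = 0} := by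
      refine Nat.card_congr (Equiv.subtypeEquivRight fun a => ?_)
      rw [LinearMap.mem_ker, hφ]
    rw [h5, Nat.card_eq_fintype_card, Fintype.card_subtype]
  rw [← h3, ← h4, h1, h2]
  ring

theorem averaging {ι A : Type*} [Fintype ι] [DecidableEq ι] {ℓ : ℕ} (hℓ : ℓ.Prime) (T : Finset A)
    (w : A → ι → ZMod ℓ) {B : ℤ}
    (hB : ∀ a : ι → ZMod ℓ, a ≠ 0 →
      (ℓ : ℤ) * ((T.filter fun x => ∑ i, a i * w x i = 0).card : ℤ) ≤ B) :
    ((T.filter fun x => w x = 0).card : ℤ) * ((ℓ - 1) * ℓ ^ Fintype.card ι) +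
        (T.card : ℤ) * (ℓ ^ Fintype.card ι - ℓ) ≤ (ℓ ^ Fintype.card ι - 1) * B := by
  classical
  have : Fact ℓ.Prime := ⟨hℓ⟩
  set K := Fintype.card ι with hK
  -- double counting
  have hdc : ∑ a : ι → ZMod ℓ, ((T.filter fun x => ∑ i, a i * w x i = 0).card : ℤ) =
      ∑ x ∈ T, (((Finset.univ : Finset (ι → ZMod ℓ)).filter
        fun a => ∑ i, a i * w x i = 0).card : ℤ) := by
    simp only [Finset.card_filter, Nat.cast_sum]
    rw [Finset.sum_comm]
  have hx : ∀ x ∈ T, (ℓ : ℤ) * (((Finset.univ : Finset (ι → ZMod ℓ)).filter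
        fun a => ∑ i, a i * w x i = 0).card : ℤ) =
        (if w x = 0 then (ℓ : ℤ) ^ K * (ℓ - 1) else 0) + (ℓ : ℤ) ^ K := by
    intro x _
    by_cases h : w x = 0
    · rw [if_pos h]
      have h1 : (Finset.univ : Finset (ι → ZMod ℓ)).filter
        (fun a => ∑ i, a i * w x i = 0) = Finset.univ := by
        rw [Finset.filter_eq_self]
        intro a _
        simp [h]
      rw [h1, Finset.card_univ, Fintype.card_fun, ZMod.card, ← hK]
      push_cast
      ring
    · rw [if_neg h, zero_add]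
      exact_mod_cast t04_count (w x) h
  have hsum : (ℓ : ℤ) * ∑ a : ι → ZMod ℓ, ((T.filter fun x => ∑ i, a i * w x i = 0).card : ℤ) =
      ((T.filter fun x => w x = 0).card : ℤ) * ((ℓ : ℤ) ^ K * (ℓ - 1)) +
        (T.card : ℤ) * (ℓ : ℤ) ^ K := by
    rw [hdc, Finset.mul_sum, Finset.sum_congr rfl hx, Finset.sum_add_distrib, Finset.sum_const,
      nsmul_eq_mul, ← Finset.sum_filter, Finset.sum_const, nsmul_eq_mul]
  have hsplit : ∑ a : ι → ZMod ℓ, ((T.filter fun x => ∑ i, a i * w x i = 0).card : ℤ) =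
      (T.card : ℤ) + ∑ a ∈ (Finset.univ : Finset (ι → ZMod ℓ)).erase 0,
        ((T.filter fun x => ∑ i, a i * w x i = 0).card : ℤ) := by
    rw [← Finset.add_sum_erase _ _ (Finset.mem_univ (0 : ι → ZMod ℓ))]
    congr 2
    simp
  have hbound : (ℓ : ℤ) * ∑ a ∈ (Finset.univ : Finset (ι → ZMod ℓ)).erase 0,
        ((T.filter fun x => ∑ i, a i * w x i = 0).card : ℤ) ≤ ((ℓ : ℤ) ^ K - 1) * B := by
    rw [Finset.mul_sum]
    calc ∑ a ∈ (Finset.univ : Finset (ι → ZMod ℓ)).erase 0,
          (ℓ : ℤ) * ((T.filter fun x => ∑ i, a i * w x i = 0).card : ℤ)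
        ≤ ∑ _a ∈ (Finset.univ : Finset (ι → ZMod ℓ)).erase 0, B :=
          Finset.sum_le_sum fun a ha => hB a (Finset.ne_of_mem_erase ha)
      _ = ((ℓ : ℤ) ^ K - 1) * B := by
          rw [Finset.sum_const, nsmul_eq_mul, Finset.card_erase_of_mem (Finset.mem_univ _),
            Finset.card_univ, Fintype.card_fun, ZMod.card, ← hK,
            Nat.cast_sub (Nat.one_le_pow _ _ hℓ.pos)]
          push_cast
          ring
  rw [hsplit, mul_add] at hsum
  linarith

end Pool.Agent.Lib.MP_89bcae_ag.Tw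

end

section

open Polynomial

namespace Pool.Agent.Lib.MP_89bcae_ag.Tw

theorem ne_of_orderOf {ℓ m : ℕ} (hℓ : ℓ.Prime) (hm : m.Prime)
    (hgen : orderOf (ℓ : ZMod (m ^ 2)) = m * (m - 1)) : m.Coprime ℓ := by
  rw [hm.coprime_iff_not_dvd]
  intro hdvd
  have h2 := hm.two_le
  have hpos : m * (m - 1) ≠ 0 := by
    apply mul_ne_zero <;> omega
  have h1 := pow_orderOf_eq_one (ℓ : ZMod (m ^ 2))
  rw [hgen] at h1
  have h3 : ((ℓ ^ (m * (m - 1)) : ℕ) : ZMod (m ^ 2)) = ((1 : ℕ) : ZMod (m ^ 2)) := by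
    push_cast
    exact h1
  rw [ZMod.natCast_eq_natCast_iff] at h3
  have h4 : ℓ ^ (m * (m - 1)) ≡ 1 [MOD m] := h3.of_dvd (dvd_pow_self m two_ne_zero)
  have h5 : m ∣ ℓ ^ (m * (m - 1)) := hdvd.trans (dvd_pow_self ℓ hpos)
  have h6 : m ∣ 1 := (h4.dvd_iff dvd_rfl).1 h5
  exact hm.one_lt.ne' (Nat.dvd_one.1 h6)

/-- the order modulo `m` -/
theorem t09_order_mod {ℓ m : ℕ} (hm : m.Prime)
    (hgen : orderOf (ℓ : ZMod (m ^ 2)) = m * (m - 1)) {d : ℕ} (h : ℓ ^ d ≡ 1 [MOD m]) :
    m - 1 ∣ d := by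
  have h1 : ((m : ℕ) : ℤ) ∣ (ℓ : ℤ) ^ d - 1 ^ d := by
    rw [one_pow]
    have := (Nat.modEq_iff_dvd.1 h.symm)
    push_cast at this
    exact this
  rw [one_pow] at h1
  have h2 := dvd_sub_pow_of_dvd_sub (R := ℤ) (p := m) h1 1
  rw [pow_one, one_pow] at h2
  have h3 : ((ℓ : ZMod (m ^ 2)) ^ (d * m)) = 1 := by
    have h4 : (((ℓ : ℤ) ^ d) ^ m - 1 : ℤ) = ((ℓ ^ (d * m) : ℕ) : ℤ) - ((1 : ℕ) : ℤ) := by
      push_cast
      rw [pow_mul]
    rw [h4] at h2
    have h5 : (1 : ℕ) ≡ ℓ ^ (d * m) [MOD m ^ 2] := by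
      rw [Nat.modEq_iff_dvd]
      push_cast at h2 ⊢
      exact h2
    have h6 := (ZMod.natCast_eq_natCast_iff _ _ _).2 h5
    push_cast at h6
    exact h6.symm
  have h4 := orderOf_dvd_of_pow_eq_one h3
  rw [hgen, mul_comm d m] at h4
  exact Nat.dvd_of_mul_dvd_mul_left hm.pos h4

/-- the order modulo `m ^ (j + 1)` -/
theorem t09_dvd {ℓ m : ℕ} (hℓ : ℓ.Prime) (hm : m.Prime) (hm2 : m ≠ 2)
    (hgen : orderOf (ℓ : ZMod (m ^ 2)) = m * (m - 1)) {j d : ℕ}
    (h : m ^ (j + 1) ∣ ℓ ^ d - 1) : m ^ j * (m - 1) ∣ d := by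
  have hcop := ne_of_orderOf hℓ hm hgen
  have hmf : Fact m.Prime := ⟨hm⟩
  rcases Nat.eq_zero_or_pos d with rfl | hd
  · exact dvd_zero _
  have h1 : 1 ≤ ℓ ^ d := Nat.one_le_pow _ _ hℓ.pos
  have h2 : m ∣ ℓ ^ d - 1 := (dvd_pow_self m (Nat.succ_ne_zero j)).trans h
  have h3 : ℓ ^ d ≡ 1 [MOD m] := ((Nat.modEq_iff_dvd' h1).2 h2).symm
  obtain ⟨e, rfl⟩ := t09_order_mod hm hgen h3
  have he : e ≠ 0 := by
    rintro rfl
    simp at hd
  rw [mul_comm (m ^ j)]
  apply Nat.mul_dvd_mul_left
  have hm1 : m - 1 ≠ 0 := by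
    have := hm.two_le
    omega
  have hx : 1 < ℓ ^ (m - 1) := Nat.one_lt_pow hm1 hℓ.one_lt
  have hnd : ¬ m ∣ ℓ ^ (m - 1) := fun h4 =>
    (hm.coprime_iff_not_dvd.1 hcop) (hm.dvd_of_dvd_pow h4)
  have hfer : m ∣ ℓ ^ (m - 1) - 1 := by
    have h5 : ℓ ^ (m - 1) ≡ 1 [MOD m] := by
      have := Nat.ModEq.pow_totient hcop.symm
      rwa [Nat.totient_prime hm] at this
    exact (Nat.modEq_iff_dvd' hx.le).1 h5.symm
  have hne : ℓ ^ (m - 1) - 1 ≠ 0 := by omega
  have hval : padicValNat m (ℓ ^ (m - 1) - 1) = 1 := by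
    apply le_antisymm
    · by_contra hcon
      push Not at hcon
      have h6 : m ^ 2 ∣ ℓ ^ (m - 1) - 1 := (padicValNat_dvd_iff_le hne).2 hcon
      have h7 := (Nat.modEq_iff_dvd' hx.le).2 h6
      have h8 := (ZMod.natCast_eq_natCast_iff _ _ _).2 h7
      push_cast at h8
      have h9 := orderOf_dvd_of_pow_eq_one h8.symm
      rw [hgen] at h9
      have h10 := Nat.le_of_dvd (Nat.pos_of_ne_zero hm1) h9
      have h11 := hm.two_le
      have h12 : 2 * (m - 1) ≤ m * (m - 1) := Nat.mul_le_mul_right _ h11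
      omega
    · have := (padicValNat_dvd_iff_le (p := m) (n := 1) hne).1 (by rwa [pow_one])
      exact this
  rw [pow_mul] at h
  have h5 : padicValNat m ((ℓ ^ (m - 1)) ^ e - 1 ^ e) =
      padicValNat m (ℓ ^ (m - 1) - 1) + padicValNat m e :=
    padicValNat.pow_sub_pow (p := m) (hm.odd_of_ne_two hm2) hx hfer hnd he
  have hne2 : (ℓ ^ (m - 1)) ^ e - 1 ^ e ≠ 0 := by
    have : 1 < (ℓ ^ (m - 1)) ^ e := Nat.one_lt_pow he hx
    rw [one_pow]
    omega
  have h6 : j + 1 ≤ padicValNat m ((ℓ ^ (m - 1)) ^ e - 1 ^ e) := by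
    rw [← padicValNat_dvd_iff_le hne2, one_pow]
    exact h
  rw [h5, hval] at h6
  rw [padicValNat_dvd_iff_le he]
  omega

theorem cyclotomic_irreducible {ℓ m : ℕ} (hℓ : ℓ.Prime) (hm : m.Prime) (hm2 : m ≠ 2)
    (hgen : orderOf (ℓ : ZMod (m ^ 2)) = m * (m - 1)) (j : ℕ) :
    Irreducible (cyclotomic (m ^ (j + 1)) (ZMod ℓ)) := by
  have hp : Fact ℓ.Prime := ⟨hℓ⟩
  have hcop := ne_of_orderOf hℓ hm hgen
  have hN : NeZero (m ^ (j + 1)) := ⟨pow_ne_zero _ hm.ne_zero⟩
  have hnd : ¬ ℓ ∣ m ^ (j + 1) := by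
    intro h
    have h1 := hℓ.dvd_of_dvd_pow h
    exact (hℓ.coprime_iff_not_dvd.1 hcop.symm) h1
  apply ZMod.irreducible_of_dvd_cyclotomic_of_natDegree (p := ℓ) hnd dvd_rfl
  rw [natDegree_cyclotomic]
  apply Nat.dvd_antisymm ?_ ?_
  · rw [Nat.totient_prime_pow hm (Nat.succ_pos j), Nat.succ_sub_one]
    apply t09_dvd hℓ hm hm2 hgen
    have h1 := pow_orderOf_eq_one (ZMod.unitOfCoprime ℓ ((Nat.coprime_pow_right_iff (Nat.succ_pos j) _ _).2 hcop.symm))
    have h2 := congrArg Units.val h1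
    rw [Units.val_pow_eq_pow_val, ZMod.coe_unitOfCoprime, Units.val_one] at h2
    have h3 : ((ℓ ^ orderOf (ZMod.unitOfCoprime ℓ
        ((Nat.coprime_pow_right_iff (Nat.succ_pos j) _ _).2 hcop.symm)) - 1 : ℕ) :
        ZMod (m ^ (j + 1))) = 0 := by
      rw [Nat.cast_sub (Nat.one_le_pow _ _ hℓ.pos), Nat.cast_pow, Nat.cast_one, h2, sub_self]
    exact (ZMod.natCast_eq_zero_iff _ _).mp h3
  · apply orderOf_dvd_of_pow_eq_one
    exact ZMod.pow_totient _

end Pool.Agent.Lib.MP_89bcae_ag.Tw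

end

section

/-!
ROW T01. Norm form, proved with the resultant of `∑ h_r Y ^ r` and `f Y ^ ℓ - c`.
-/

open Polynomial Finset

namespace Pool.Agent.Lib.MP_89bcae_ag.Tw

/-- degree of a determinant, columnwise -/
theorem t01_natDegree_det_le {F : Type*} [Field F] {k : ℕ} (M : Matrix (Fin k) (Fin k) F[X])
    (d : Fin k → ℕ) (hM : ∀ i j, (M i j).natDegree ≤ d j) : M.det.natDegree ≤ ∑ j, d j := by
  rw [Matrix.det_apply']
  refine natDegree_sum_le_of_forall_le _ _ fun σ _ => ?_
  refine natDegree_mul_le.trans ?_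
  rw [natDegree_intCast, zero_add]
  refine (natDegree_prod_le _ _).trans ?_
  exact Finset.sum_le_sum fun j _ => hM _ _

/-- degree of the resultant -/
theorem t01_natDegree_resultant_le {F : Type*} [Field F] (a b : F[X][X]) (m n A B : ℕ)
    (ha : ∀ i, (a.coeff i).natDegree ≤ A) (hb : ∀ i, (b.coeff i).natDegree ≤ B) :
    (resultant a b m n).natDegree ≤ m * B + n * A := by
  have h := t01_natDegree_det_le (sylvester a b m n)
    (fun j => j.addCases (fun _ => B) (fun _ => A)) (by
      intro i j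
      refine Fin.addCases (fun j₁ => ?_) (fun j₁ => ?_) j
      · simp only [sylvester, Matrix.of_apply, Fin.addCases_left]
        split_ifs
        · exact hb _
        · simp
      · simp only [sylvester, Matrix.of_apply, Fin.addCases_right]
        split_ifs
        · exact ha _
        · simp)
  refine h.trans ?_
  rw [Fin.sum_univ_add]
  simp

theorem t01_no_root {F : Type*} [Field F] {ℓ : ℕ} (hℓ : ℓ ≠ 0) {f : F[X]} (hf0 : f ≠ 0)
    (hf : ¬ ∃ (c : F) (g : F[X]), f = C c * g ^ ℓ) {c : F} (hc : c ≠ 0)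
    (b : FractionRing F[X]) :
    b ^ ℓ ≠ algebraMap F[X] (FractionRing F[X]) (C c) / algebraMap F[X] (FractionRing F[X]) f := by
  intro hb
  obtain ⟨u, v, huv, hx⟩ := IsFractionRing.exists_reduced_fraction (A := F[X]) b
  rw [IsFractionRing.mk'_eq_div] at hx
  have hinj : Function.Injective (algebraMap F[X] (FractionRing F[X])) :=
    IsFractionRing.injective F[X] (FractionRing F[X])
  have hv0 : (v : F[X]) ≠ 0 := nonZeroDivisors.coe_ne_zero v
  have hv' : algebraMap F[X] (FractionRing F[X]) (v : F[X]) ≠ 0 := by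
    intro h
    apply hv0
    apply hinj
    rw [h, map_zero]
  have hf' : algebraMap F[X] (FractionRing F[X]) f ≠ 0 := by
    intro h
    apply hf0
    apply hinj
    rw [h, map_zero]
  rw [← hx, div_pow, div_eq_div_iff (pow_ne_zero _ hv') hf'] at hb
  have h1 : u ^ ℓ * f = C c * (v : F[X]) ^ ℓ := by
    apply hinj
    rw [map_mul, map_pow, map_mul, map_pow]
    exact hb
  have h2 : IsRelPrime (u ^ ℓ) ((v : F[X]) ^ ℓ) := huv.pow
  have h3 : u ^ ℓ ∣ C c * (v : F[X]) ^ ℓ := ⟨f, h1.symm⟩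
  have h4 : u ^ ℓ ∣ C c := h2.dvd_of_dvd_mul_right h3
  have h5 : IsUnit (u ^ ℓ) := isUnit_of_dvd_unit h4 (isUnit_C.2 (isUnit_iff_ne_zero.2 hc))
  have h6 : IsUnit u := (isUnit_pow_iff hℓ).1 h5
  obtain ⟨a, ha, rfl⟩ := Polynomial.isUnit_iff.1 h6
  apply hf
  refine ⟨(a ^ ℓ)⁻¹ * c, v, ?_⟩
  have ha0 : a ≠ 0 := ha.ne_zero
  have h7 : C (a ^ ℓ) * f = C c * (v : F[X]) ^ ℓ := by rw [C_pow]; exact h1
  rw [C_mul, mul_assoc, ← h7, ← mul_assoc, ← C_mul, inv_mul_cancel₀ (pow_ne_zero _ ha0), C_1,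
    one_mul]

theorem eq_zero_of_dvd {F : Type*} [Field F] {p : ℕ} [Fact p.Prime] [CharP F p] {ℓ n Qb : ℕ}
    (hℓ : ℓ.Prime) (hQ : p ^ n = ℓ * Qb + 1) {f : F[X]} (hf0 : f.eval 0 ≠ 0)
    (hf : ¬ ∃ (c : F) (g : F[X]), f = C c * g ^ ℓ) {h : ℕ → F[X]} {H : ℕ}
    (hh : ∀ r, (h r).natDegree ≤ H) (hdeg : ℓ * H + (ℓ - 1) * f.natDegree < p ^ n)
    (hdvd : X ^ p ^ n ∣ ∑ r ∈ range ℓ, h r * f ^ (r * Qb)) : ∀ r < ℓ, h r = 0 := by
  classical
  have hℓ2 : 2 ≤ ℓ := hℓ.two_le
  set c : F := (f.eval 0) ^ p ^ n with hc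
  have hc0 : c ≠ 0 := pow_ne_zero _ hf0
  have hfne : f ≠ 0 := by
    rintro rfl
    simp at hf0
  have h2 : X ^ p ^ n ∣ f ^ p ^ n - C c := by
    have e : f ^ p ^ n - C c = (f - C (f.eval 0)) ^ p ^ n := by
      rw [sub_pow_char_pow, hc, C_pow]
    rw [e]
    apply pow_dvd_pow_of_dvd
    have := X_sub_C_dvd_sub_C_eval (a := (0 : F)) (p := f)
    simpa using this
  set hY : F[X][X] := ∑ r ∈ range ℓ, C (h r) * X ^ r with hhY
  set G : F[X][X] := C f * X ^ ℓ - C (C c) with hG
  have hYcoeff : ∀ i, hY.coeff i = if i < ℓ then h i else 0 := by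
    intro i
    rw [hhY, finsetSum_coeff]
    simp only [coeff_C_mul, coeff_X_pow, mul_ite, mul_one, mul_zero]
    rw [Finset.sum_ite_eq (range ℓ) i]
    simp only [Finset.mem_range]
  have hGcoeff : ∀ i, (G.coeff i).natDegree ≤ f.natDegree := by
    intro i
    rw [hG, coeff_sub, coeff_C_mul, coeff_X_pow, coeff_C]
    refine (natDegree_sub_le _ _).trans (max_le ?_ ?_)
    · split_ifs
      · simp
      · simp
    · split_ifs
      · simp
      · simp
  have hYdeg : hY.natDegree ≤ ℓ - 1 := by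
    refine natDegree_le_iff_coeff_eq_zero.2 fun i hi => ?_
    rw [hYcoeff, if_neg (by omega)]
  have hGdeg : G.natDegree ≤ ℓ := by
    rw [hG]
    refine (natDegree_sub_le _ _).trans (max_le ?_ ?_)
    · exact natDegree_C_mul_X_pow_le _ _
    · rw [natDegree_C]; omega
  have hGlead : G.coeff ℓ = f := by
    rw [hG, coeff_sub, coeff_C_mul, coeff_X_pow, if_pos rfl, mul_one, coeff_C,
      if_neg (by omega), sub_zero]
  -- the resultant vanishes
  have hres : resultant hY G (ℓ - 1) ℓ = 0 := by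
    obtain ⟨a, b, -, -, hab⟩ := exists_mul_add_mul_eq_C_resultant (m := ℓ - 1) (n := ℓ) hY G
      hYdeg hGdeg (Or.inr (by omega))
    have e1 := congrArg (eval (f ^ Qb)) hab
    rw [eval_add, eval_mul, eval_mul, eval_C] at e1
    have e2 : eval (f ^ Qb) hY = ∑ r ∈ range ℓ, h r * f ^ (r * Qb) := by
      rw [hhY, eval_finsetSum]
      refine Finset.sum_congr rfl fun r _ => ?_
      rw [eval_mul, eval_C, eval_pow, eval_X, ← pow_mul, mul_comm Qb r]
    have e3 : eval (f ^ Qb) G = f ^ p ^ n - C c := by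
      rw [hG, eval_sub, eval_mul, eval_C, eval_pow, eval_X, eval_C, hQ]
      ring
    rw [e2, e3] at e1
    have h3 : X ^ p ^ n ∣ resultant hY G (ℓ - 1) ℓ := by
      rw [← e1]
      exact dvd_add (Dvd.dvd.mul_right hdvd _) (Dvd.dvd.mul_right h2 _)
    by_contra hne
    have h4 := natDegree_le_of_dvd h3 hne
    rw [natDegree_X_pow] at h4
    have h5 := t01_natDegree_resultant_le hY G (ℓ - 1) ℓ H f.natDegree (by
      intro i
      rw [hYcoeff]
      split_ifs
      · exact hh i
      · simp) hGcoeff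
    have h6 : (ℓ - 1) * f.natDegree + ℓ * H = ℓ * H + (ℓ - 1) * f.natDegree := by ring
    omega
  -- suppose hY ≠ 0
  by_cases hY0 : hY = 0
  · intro r hr
    have := hYcoeff r
    rw [hY0, coeff_zero, if_pos hr] at this
    exact this.symm
  exfalso
  set φ := algebraMap F[X] (FractionRing F[X]) with hφ
  have hinj : Function.Injective φ := IsFractionRing.injective F[X] (FractionRing F[X])
  have hYK0 : hY.map φ ≠ 0 := by
    rw [Ne, Polynomial.map_eq_zero_iff hinj]; exact hY0
  have hYKdeg : (hY.map φ).natDegree = hY.natDegree := natDegree_map_eq_of_injective hinj _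
  have hGKdeg : (G.map φ).natDegree = ℓ := by
    rw [natDegree_map_eq_of_injective hinj]
    apply le_antisymm hGdeg
    apply le_natDegree_of_ne_zero
    rw [hGlead]; exact hfne
  have hresK : resultant (hY.map φ) (G.map φ) (ℓ - 1) ℓ = 0 := by
    rw [resultant_map_map, hres, map_zero]
  have hresK2 : resultant (hY.map φ) (G.map φ) = 0 := by
    obtain ⟨k, hk⟩ : ∃ k, ℓ - 1 = hY.natDegree + k := ⟨ℓ - 1 - hY.natDegree, by omega⟩
    rw [hk, ← hYKdeg, resultant_add_left_deg _ _ _ _ _ le_rfl] at hresK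
    rw [hGKdeg]
    rcases mul_eq_zero.1 hresK with h7 | h7
    · exfalso
      rcases mul_eq_zero.1 h7 with h8 | h8
      · exact (pow_ne_zero _ (neg_ne_zero.2 one_ne_zero)) h8
      · rw [coeff_map, hGlead] at h8
        refine pow_ne_zero k (fun h9 => hfne (hinj ?_)) h8
        rw [h9, map_zero]
    · exact h7
  rw [resultant_eq_zero_iff] at hresK2
  have hGK : G.map φ = C (φ f) * (X ^ ℓ - C (φ (C c) / φ f)) := by
    have hφf : φ f ≠ 0 := by
      intro h9
      apply hfne
      apply hinj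
      rw [h9, map_zero]
    rw [hG, Polynomial.map_sub, Polynomial.map_mul, Polynomial.map_pow, map_X, map_C, map_C,
      mul_sub, ← C_mul, mul_div_cancel₀ _ hφf]
  have hφf : φ f ≠ 0 := by
    intro h9
    apply hfne
    apply hinj
    rw [h9, map_zero]
  have hirr : Irreducible (X ^ ℓ - C (φ (C c) / φ f) : (FractionRing F[X])[X]) :=
    X_pow_sub_C_irreducible_of_prime hℓ fun b => t01_no_root hℓ.ne_zero hfne hf hc0 b
  apply hresK2.2
  rw [hGK, isCoprime_mul_unit_left_right (isUnit_C.2 (isUnit_iff_ne_zero.2 hφf))]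
  apply IsCoprime.symm
  rw [hirr.coprime_iff_not_dvd]
  intro hd
  have h10 := natDegree_le_of_dvd hd hYK0
  rw [natDegree_X_pow_sub_C, hYKdeg] at h10
  omega

end Pool.Agent.Lib.MP_89bcae_ag.Tw

end

section

/-!
The orbit of a root of `D ∘ g` under an automorphism.
-/

open Polynomial IntermediateField

namespace Pool.Agent.Lib.MP_89bcae_ag.Tw

open Pool.Agent.Lib.MP_89bcae_ag

variable {k F : Type*} [Field k] [Field F] [Algebra k F]

/-- The roots of the polynomial `D ∘ g` form an orbit of length `m n` of the automorphism `φ`, `α` is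
a root of `D` and `β` one of `g - α`. -/
structure Orb (φ : F ≃ₐ[k] F) (g D : k[X]) (m n : ℕ) (α β : F) : Prop where
  monic : g.Monic
  deg : g.natDegree = m
  mpos : 0 < m
  pos : 0 < n
  degD : D.natDegree = n
  gβ : aeval β g = α
  Dα : aeval α D = 0
  orb : ∀ γ : F, aeval γ (D.comp g) = 0 → ∃ i : ℕ, γ = (φ ^ i) β
  beta_iff : ∀ i : ℕ, (φ ^ i) β = β ↔ m * n ∣ i

/-- The points of the orbit. -/
noncomputable def ee (φ : F ≃ₐ[k] F) {N : ℕ} (β : F) (u : ZMod N) : F := (φ ^ u.val) β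

namespace Orb

variable {φ : F ≃ₐ[k] F} {g D : k[X]} {m n : ℕ} {α β : F}

lemma t08_mn (h : Orb φ g D m n α β) : 0 < m * n := Nat.mul_pos h.mpos h.pos

lemma root (h : Orb φ g D m n α β) : aeval β (D.comp g) = 0 := by
  rw [aeval_comp, h.gβ, h.Dα]

lemma ne_zero (h : Orb φ g D m n α β) : D ≠ 0 := by
  rintro rfl
  have h1 := h.degD
  have := h.pos
  rw [natDegree_zero] at h1
  omega

lemma natDegree_comp (h : Orb φ g D m n α β) : (D.comp g).natDegree = m * n := by
  rw [Polynomial.natDegree_comp, h.deg, h.degD, mul_comm]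

lemma comp_ne (h : Orb φ g D m n α β) : D.comp g ≠ 0 := by
  intro h0
  have h1 := h.natDegree_comp
  rw [h0, natDegree_zero] at h1
  have := h.t08_mn
  omega

lemma ee_natCast (h : Orb φ g D m n α β) (i : ℕ) : ee φ β (i : ZMod (m * n)) = (φ ^ i) β := by
  have : NeZero (m * n) := ⟨h.t08_mn.ne'⟩
  rw [ee, ZMod.val_natCast, autP_pow_mod φ _ ((h.beta_iff _).mpr dvd_rfl)]

lemma ee_add_natCast (h : Orb φ g D m n α β) (u : ZMod (m * n)) (i : ℕ) :
    ee φ β (u + (i : ZMod (m * n))) = (φ ^ i) (ee φ β u) := by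
  have : NeZero (m * n) := ⟨h.t08_mn.ne'⟩
  have h1 : u + (i : ZMod (m * n)) = ((i + u.val : ℕ) : ZMod (m * n)) := by
    rw [Nat.cast_add, ZMod.natCast_zmod_val, add_comm]
  rw [h1, h.ee_natCast, pow_add, AlgEquiv.mul_apply, ee]

lemma ee_add (h : Orb φ g D m n α β) (u v : ZMod (m * n)) :
    ee φ β (u + v) = (φ ^ v.val) (ee φ β u) := by
  have : NeZero (m * n) := ⟨h.t08_mn.ne'⟩
  have h1 : u + v = ((v.val + u.val : ℕ) : ZMod (m * n)) := by
    rw [Nat.cast_add, ZMod.natCast_zmod_val, ZMod.natCast_zmod_val, add_comm]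
  rw [h1, h.ee_natCast, pow_add, AlgEquiv.mul_apply, ee]

lemma ee_zero (φ : F ≃ₐ[k] F) (N : ℕ) (β : F) : ee φ β (0 : ZMod N) = β := by
  rw [ee, ZMod.val_zero, pow_zero, AlgEquiv.one_apply]

lemma ee_injective (h : Orb φ g D m n α β) :
    Function.Injective (ee φ β : ZMod (m * n) → F) := by
  have : NeZero (m * n) := ⟨h.t08_mn.ne'⟩
  intro u v huv
  rw [ee, ee, autP_pow_inj φ h.beta_iff] at huv
  apply ZMod.val_injective
  rw [Nat.ModEq, Nat.mod_eq_of_lt (ZMod.val_lt u), Nat.mod_eq_of_lt (ZMod.val_lt v)] at huv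
  exact huv

lemma ee_root (h : Orb φ g D m n α β) (u : ZMod (m * n)) : aeval (ee φ β u) (D.comp g) = 0 := by
  rw [ee, aeval_autP, h.root, map_zero]

lemma ee_surj (h : Orb φ g D m n α β) {γ : F} (hγ : aeval γ (D.comp g) = 0) :
    ∃ u : ZMod (m * n), ee φ β u = γ := by
  obtain ⟨i, rfl⟩ := h.orb γ hγ
  exact ⟨i, h.ee_natCast i⟩

lemma pow_ee (h : Orb φ g D m n α β) (u : ZMod (m * n)) :
    (φ ^ (m * n)) (ee φ β u) = ee φ β u := by
  rw [← h.ee_add_natCast, ZMod.natCast_self, add_zero]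

/-- The roots of `D ∘ g` are distinct. -/
lemma separable (h : Orb φ g D m n α β) : (D.comp g).Separable := by
  classical
  have : NeZero (m * n) := ⟨h.t08_mn.ne'⟩
  have h0 := h.comp_ne
  have h0' : (D.comp g).map (algebraMap k F) ≠ 0 := (Polynomial.map_ne_zero h0)
  have hcard : (Finset.univ.image (ee φ β : ZMod (m * n) → F)).card = m * n := by
    rw [Finset.card_image_of_injective _ h.ee_injective, Finset.card_univ, ZMod.card]
  have hsub : (Finset.univ.image (ee φ β : ZMod (m * n) → F)).val ≤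
      ((D.comp g).map (algebraMap k F)).roots := by
    rw [Finset.val_le_iff_val_subset]
    intro y hy
    have hy' : y ∈ Finset.univ.image (ee φ β : ZMod (m * n) → F) := hy
    rw [Finset.mem_image] at hy'
    obtain ⟨u, -, rfl⟩ := hy'
    rw [mem_roots h0', IsRoot.def, eval_map_algebraMap]
    exact h.ee_root u
  have hdeg : ((D.comp g).map (algebraMap k F)).natDegree = m * n := by
    rw [natDegree_map, h.natDegree_comp]
  have heq : (Finset.univ.image (ee φ β : ZMod (m * n) → F)).val =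
      ((D.comp g).map (algebraMap k F)).roots := by
    apply Multiset.eq_of_le_of_card_le hsub
    rw [Finset.card_val, hcard, ← hdeg]
    exact card_roots' _
  rw [← separable_map (algebraMap k F)]
  have hsp : ((D.comp g).map (algebraMap k F)).Splits := by
    rw [splits_iff_card_roots, ← heq, Finset.card_val, hcard, hdeg]
  rw [← nodup_roots_iff_of_splits h0' hsp, ← heq]
  exact Finset.nodup _

lemma alpha_iff (h : Orb φ g D m n α β) (i : ℕ) : (φ ^ i) α = α ↔ n ∣ i := by
  classical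
  have hpos := h.pos
  have hmpos := h.mpos
  have hmn0 := h.t08_mn
  set r := Function.minimalPeriod φ α with hr
  have hit : ∀ i : ℕ, (φ ^ i) α = α ↔ r ∣ i := by
    intro i
    rw [hr, ← Function.isPeriodicPt_iff_minimalPeriod_dvd, Function.IsPeriodicPt,
      Function.IsFixedPt, ← AlgEquiv.coe_pow]
  have hgβ : ∀ i : ℕ, aeval ((φ ^ i) β) g = (φ ^ i) α := by
    intro i
    rw [aeval_autP, h.gβ]
  have hm0 : 0 < r := by
    have h1 : (φ ^ (m * n)) α = α := by
      rw [← hgβ, (h.beta_iff _).mpr dvd_rfl, h.gβ]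
    rw [hit] at h1
    exact Nat.pos_of_dvd_of_pos h1 hmn0
  -- the orbit of `α` consists of roots of `D`
  have hmn : r ≤ n := by
    have hD0 : D.map (algebraMap k F) ≠ 0 := Polynomial.map_ne_zero h.ne_zero
    have hinj : Set.InjOn (fun i : ℕ => (φ ^ i) α) (Finset.range r : Set ℕ) := by
      intro a ha b hb hab
      rw [Finset.mem_coe, Finset.mem_range] at ha hb
      have h1 := (autP_pow_inj φ hit).mp hab
      rwa [Nat.ModEq, Nat.mod_eq_of_lt ha, Nat.mod_eq_of_lt hb] at h1
    have h2 : ((Finset.range r).image fun i : ℕ => (φ ^ i) α) ⊆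
        (D.map (algebraMap k F)).roots.toFinset := by
      intro y hy
      rw [Finset.mem_image] at hy
      obtain ⟨a, -, rfl⟩ := hy
      rw [Multiset.mem_toFinset, mem_roots hD0, IsRoot.def, eval_map_algebraMap, aeval_autP, h.Dα,
        map_zero]
    have h3 := Finset.card_le_card h2
    rw [Finset.card_image_of_injOn hinj, Finset.card_range] at h3
    calc r ≤ _ := h3
      _ ≤ Multiset.card (D.map (algebraMap k F)).roots := Multiset.toFinset_card_le _
      _ ≤ (D.map (algebraMap k F)).natDegree := card_roots' _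
      _ = n := by rw [natDegree_map, h.degD]
  -- the fibre of `α` has at most `m` elements
  have hnm : n ≤ r := by
    by_contra hlt
    push Not at hlt
    have hmon : (g.map (algebraMap k F) - C α).Monic := by
      apply Monic.sub_of_left (h.monic.map _)
      rw [degree_eq_natDegree (h.monic.map (algebraMap k F)).ne_zero, h.monic.natDegree_map, h.deg]
      exact lt_of_le_of_lt degree_C_le (by exact_mod_cast hmpos)
    have hdeg : (g.map (algebraMap k F) - C α).natDegree = m := by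
      rw [natDegree_sub_C, h.monic.natDegree_map, h.deg]
    have hrm : r * m < m * n := by
      rw [mul_comm m n]
      exact (Nat.mul_lt_mul_right hmpos).mpr hlt
    have hinj : Set.InjOn (fun c : ℕ => (φ ^ (r * c)) β) (Finset.range (m + 1) : Set ℕ) := by
      intro a ha b hb hab
      rw [Finset.mem_coe, Finset.mem_range] at ha hb
      have h1 := (autP_pow_inj φ h.beta_iff).mp hab
      have ha' : r * a ≤ r * m := Nat.mul_le_mul_left r (by omega)
      have hb' : r * b ≤ r * m := Nat.mul_le_mul_left r (by omega)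
      rw [Nat.ModEq, Nat.mod_eq_of_lt (by omega), Nat.mod_eq_of_lt (by omega)] at h1
      exact Nat.eq_of_mul_eq_mul_left hm0 h1
    have h2 : ((Finset.range (m + 1)).image fun c : ℕ => (φ ^ (r * c)) β) ⊆
        (g.map (algebraMap k F) - C α).roots.toFinset := by
      intro y hy
      rw [Finset.mem_image] at hy
      obtain ⟨a, -, rfl⟩ := hy
      rw [Multiset.mem_toFinset, mem_roots hmon.ne_zero, IsRoot.def, eval_sub, eval_C,
        eval_map_algebraMap, hgβ, (hit _).mpr (dvd_mul_right _ _), sub_self]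
    have h3 := Finset.card_le_card h2
    rw [Finset.card_image_of_injOn hinj, Finset.card_range] at h3
    have h4 : m + 1 ≤ m := calc
      m + 1 ≤ _ := h3
      _ ≤ Multiset.card (g.map (algebraMap k F) - C α).roots := Multiset.toFinset_card_le _
      _ ≤ (g.map (algebraMap k F) - C α).natDegree := card_roots' _
      _ = m := hdeg
    omega
  rw [hit, le_antisymm hmn hnm]

lemma g_ee (h : Orb φ g D m n α β) (u : ZMod (m * n)) : aeval (ee φ β u) g = (φ ^ u.val) α := by
  rw [ee, aeval_autP, h.gβ]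

lemma g_ee_eq_iff (h : Orb φ g D m n α β) (u v : ZMod (m * n)) :
    aeval (ee φ β u) g = aeval (ee φ β v) g ↔
      ZMod.castHom (dvd_mul_left n m) (ZMod n) (u - v) = 0 := by
  have : NeZero (m * n) := ⟨h.t08_mn.ne'⟩
  have h1 : u = (u - v) + v := by ring
  set w := u - v with hw
  have h2 : aeval (ee φ β u) g = (φ ^ v.val) (aeval (ee φ β w) g) := by
    rw [h1, h.ee_add, aeval_autP]
  have h3 : aeval (ee φ β v) g = (φ ^ v.val) α := h.g_ee v
  rw [h2, h3, (φ ^ v.val).injective.eq_iff, h.g_ee, h.alpha_iff]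
  have h4 : ZMod.castHom (dvd_mul_left n m) (ZMod n) w = ((w.val : ℕ) : ZMod n) := by
    conv_lhs => rw [← ZMod.natCast_zmod_val w]
    rw [map_natCast]
  rw [h4, ZMod.natCast_eq_zero_iff]

end Orb

end Pool.Agent.Lib.MP_89bcae_ag.Tw

end

section

/-!
Stepanov's count for the characters of order `ℓ`.
-/

open Polynomial Finset

namespace Pool.Agent.Lib.MP_89bcae_ag.Tw

open Stepanov14 (pol pol_sub pol_eq_zero natDegree_pol_le sum_zero)

/-- the auxiliary polynomial -/
noncomputable def t02_aux {F : Type*} [Field F] (p a Ma : ℕ) {ℓ : ℕ} (f : F[X]) (ω : F) {I H : ℕ}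
    (c : Fin ℓ → Fin I → Fin H → F) : F[X] :=
  ∑ i : Fin I, (∑ r : Fin ℓ, C (ω ^ (r : ℕ)) * pol (c r i) ^ p ^ a *
    f ^ ((ℓ - 1 - (r : ℕ)) * Ma)) * X ^ (i : ℕ)

theorem t02_aux_sub {F : Type*} [Field F] {p : ℕ} [Fact p.Prime] [CharP F p] (a Ma : ℕ) {ℓ : ℕ}
    (f : F[X]) (ω : F) {I H : ℕ} (c e : Fin ℓ → Fin I → Fin H → F) :
    t02_aux p a Ma f ω (c - e) = t02_aux p a Ma f ω c - t02_aux p a Ma f ω e := by
  unfold t02_aux
  rw [← sum_sub_distrib]
  refine sum_congr rfl fun i _ => ?_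
  rw [← sub_mul, ← sum_sub_distrib]
  congr 1
  refine sum_congr rfl fun r _ => ?_
  rw [Pi.sub_apply, Pi.sub_apply, pol_sub, sub_pow_char_pow]
  ring

theorem t02_aux_deg {F : Type*} [Field F] (p a Ma : ℕ) {ℓ : ℕ} (f : F[X]) (ω : F) {I H : ℕ}
    (hI : 0 < I) (c : Fin ℓ → Fin I → Fin H → F) :
    (t02_aux p a Ma f ω c).natDegree < p ^ a * (H - 1) + (ℓ - 1) * f.natDegree * Ma + I := by
  have : (t02_aux p a Ma f ω c).natDegree ≤
      p ^ a * (H - 1) + (ℓ - 1) * f.natDegree * Ma + (I - 1) := by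
    apply natDegree_sum_le_of_forall_le
    intro i _
    have hi := i.2
    refine natDegree_mul_le.trans ?_
    rw [natDegree_X_pow]
    have h1 : (∑ r : Fin ℓ, C (ω ^ (r : ℕ)) * pol (c r i) ^ p ^ a *
        f ^ ((ℓ - 1 - (r : ℕ)) * Ma)).natDegree ≤
        p ^ a * (H - 1) + (ℓ - 1) * f.natDegree * Ma := by
      apply natDegree_sum_le_of_forall_le
      intro r _
      refine natDegree_mul_le.trans (Nat.add_le_add ?_ ?_)
      · refine (natDegree_C_mul_le _ _).trans ?_
        exact natDegree_pow_le.trans (Nat.mul_le_mul_left _ (natDegree_pol_le _))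
      · refine natDegree_pow_le.trans ?_
        calc (ℓ - 1 - (r : ℕ)) * Ma * f.natDegree ≤ (ℓ - 1) * Ma * f.natDegree :=
              Nat.mul_le_mul_right _ (Nat.mul_le_mul_right _ (Nat.sub_le _ _))
          _ = (ℓ - 1) * f.natDegree * Ma := by ring
    omega
  omega

theorem count_le {F : Type*} [Field F] [Fintype F] [DecidableEq F] {p : ℕ} [Fact p.Prime]
    [CharP F p] {ℓ a b Ma Qb : ℕ} (hℓ : ℓ.Prime) (ha : p ^ a = ℓ * Ma + 1)
    (hb : p ^ b = ℓ * Qb + 1) (hcard : Fintype.card F = p ^ a * p ^ b) {f : F[X]}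
    (hf0 : f.eval 0 ≠ 0) (hf : ¬ ∃ (c : F) (g : F[X]), f = C c * g ^ ℓ) {ω : F} (hω : ω ≠ 0)
    {H I : ℕ} (hI : 0 < I) (hH : ℓ * (H - 1) + (ℓ - 1) * f.natDegree < p ^ b)
    (hPH : p ^ a * (H - 1) + (ℓ - 1) * f.natDegree * Ma + I < ℓ * I * H) :
    (univ.filter fun x : F => (f.eval x) ^ (p ^ a * Qb + Ma) = ω).card ≤
      (I - 1) * p ^ b + (H - 1) + (ℓ - 1) * f.natDegree * Qb := by
  have hp : 0 < p ^ b := by omega
  have hℓ2 : 2 ≤ ℓ := hℓ.two_le
  -- pigeonhole
  obtain ⟨c, e, hne, hΦ⟩ := Fintype.exists_ne_map_eq_of_card_lt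
    (fun c : Fin ℓ → Fin I → Fin H → F =>
      fun j : Fin (p ^ a * (H - 1) + (ℓ - 1) * f.natDegree * Ma + I) =>
        (t02_aux p a Ma f ω c).coeff j) (by
      simp only [Fintype.card_fun, Fintype.card_fin]
      rw [← pow_mul, ← pow_mul]
      apply Nat.pow_lt_pow_right Fintype.one_lt_card
      calc _ < ℓ * I * H := hPH
        _ = H * (I * ℓ) := by ring)
  have hS : t02_aux p a Ma f ω (c - e) = 0 := by
    have h1 := t02_aux_deg p a Ma f ω hI (c - e)
    rw [t02_aux_sub] at h1 ⊢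
    ext j
    rw [coeff_zero]
    by_cases hj : j < p ^ a * (H - 1) + (ℓ - 1) * f.natDegree * Ma + I
    · have := congrFun hΦ ⟨j, hj⟩
      simp only at this
      rw [coeff_sub, this, sub_self]
    · exact coeff_eq_zero_of_natDegree_lt (by omega)
  -- the polynomials
  obtain ⟨h, hhdef⟩ : ∃ h : ℕ → ℕ → F[X], ∀ r i, h r i =
      if hr : r < ℓ then if hi : i < I then pol ((c - e) ⟨r, hr⟩ ⟨i, hi⟩) else 0 else 0 :=
    ⟨_, fun _ _ => rfl⟩
  have hfin : ∀ (r : Fin ℓ) (i : Fin I), h r i = pol ((c - e) r i) := by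
    intro r i
    rw [hhdef, dif_pos r.2, dif_pos i.2]
  have hh : ∀ r i, (h r i).natDegree ≤ H - 1 := by
    intro r i
    rw [hhdef]
    split_ifs with hr hi
    · exact natDegree_pol_le _
    · simp
    · simp
  have hSeval : ∀ x : F, ∑ i ∈ range I, (∑ r ∈ range ℓ, ω ^ r * (h r i).eval x ^ p ^ a *
      f.eval x ^ ((ℓ - 1 - r) * Ma)) * x ^ i = 0 := by
    intro x
    have h1 := congrArg (eval x) hS
    rw [t02_aux, eval_finsetSum, eval_zero] at h1
    rw [← h1, ← Fin.sum_univ_eq_sum_range (fun i => (∑ r ∈ range ℓ, ω ^ r *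
      (h r i).eval x ^ p ^ a * f.eval x ^ ((ℓ - 1 - r) * Ma)) * x ^ i)]
    refine sum_congr rfl fun i _ => ?_
    rw [← Fin.sum_univ_eq_sum_range (fun r => ω ^ r *
      (h r i).eval x ^ p ^ a * f.eval x ^ ((ℓ - 1 - r) * Ma))]
    rw [eval_mul, eval_finsetSum, eval_pow, eval_X]
    congr 1
    refine sum_congr rfl fun r _ => ?_
    rw [hfin]
    simp only [eval_mul, eval_pow, eval_C]
  set R : F[X] := ∑ i ∈ range I, (∑ r ∈ range ℓ, h r i * f ^ (r * Qb)) * X ^ (i * p ^ b) with hR
  have hR0 : R ≠ 0 := by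
    intro hR0
    have hz : ∀ i, X ^ p ^ b ∣ ∑ r ∈ range ℓ, h r i * f ^ (r * Qb) → ∀ r < ℓ, h r i = 0 := by
      intro i hi
      exact eq_zero_of_dvd hℓ hb hf0 hf (h := fun r => h r i) (fun r => hh r i) hH hi
    have h1 := sum_zero I (fun i => ∑ r ∈ range ℓ, h r i * f ^ (r * Qb)) (fun i hi hd => by
      refine sum_eq_zero fun r hr => ?_
      rw [hz i hd r (mem_range.mp hr), zero_mul]) hR0
    have h2 : ∀ i < I, ∀ r < ℓ, h r i = 0 := fun i hi => hz i (by
      have := h1 i hi
      rw [this]; exact dvd_zero _)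
    apply hne
    have h3 : c - e = 0 := by
      funext r i
      apply pol_eq_zero
      rw [← hfin]
      exact h2 i i.2 r r.2
    exact sub_eq_zero.1 h3
  -- vanishing
  have hvan : ∀ x : F, (f.eval x) ^ (p ^ a * Qb + Ma) = ω → R.eval x = 0 := by
    intro x hx
    have hfx : f.eval x ≠ 0 := by
      intro h0
      rw [h0] at hx
      rcases Nat.eq_zero_or_pos (p ^ a * Qb + Ma) with h' | h'
      · have hQ0 : Qb = 0 := by
          have hpm : 0 < p ^ a := pow_pos (Nat.Prime.pos Fact.out) a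
          by_contra hq
          have : 0 < p ^ a * Qb := Nat.mul_pos hpm (by omega)
          omega
        have hH' : ℓ * (H - 1) + (ℓ - 1) * f.natDegree < 1 := by
          rw [hb, hQ0, mul_zero, zero_add] at hH
          exact hH
        have hfd : f.natDegree = 0 := by
          have h5 : (ℓ - 1) * f.natDegree = 0 := by omega
          rcases Nat.mul_eq_zero.mp h5 with h6 | h6
          · omega
          · exact h6
        exact hf ⟨f.coeff 0, 1, by
          rw [one_pow, mul_one]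
          exact eq_C_of_natDegree_eq_zero hfd⟩
      · rw [zero_pow (by omega)] at hx
        exact hω hx.symm
    have h1 : (f.eval x) ^ ((ℓ - 1) * Ma) * (iterateFrobenius F p a (R.eval x)) = 0 := by
      rw [← hSeval x, hR, eval_finsetSum, map_sum, mul_sum]
      refine sum_congr rfl fun i _ => ?_
      rw [eval_mul, map_mul, eval_finsetSum, map_sum, ← mul_assoc, mul_sum]
      have e1 : (iterateFrobenius F p a) (eval x (X ^ (i * p ^ b))) = x ^ i := by
        rw [eval_pow, eval_X, iterateFrobenius_def, ← pow_mul,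
          show i * p ^ b * p ^ a = (p ^ a * p ^ b) * i by ring, pow_mul, ← hcard,
          FiniteField.pow_card]
      rw [e1]
      congr 1
      refine sum_congr rfl fun r hr => ?_
      rw [mem_range] at hr
      have e2 : f.eval x ^ ((ℓ - 1) * Ma) * (f.eval x ^ (r * Qb)) ^ p ^ a =
          ω ^ r * f.eval x ^ ((ℓ - 1 - r) * Ma) := by
        rw [← hx, ← pow_mul, ← pow_add, ← pow_mul, ← pow_add]
        congr 1
        obtain ⟨s, hs⟩ : ∃ s, ℓ - 1 = r + s := ⟨ℓ - 1 - r, by omega⟩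
        rw [hs, Nat.add_sub_cancel_left]
        ring
      rw [eval_mul, eval_pow, map_mul, iterateFrobenius_def, iterateFrobenius_def]
      calc f.eval x ^ ((ℓ - 1) * Ma) * ((h r i).eval x ^ p ^ a * (f.eval x ^ (r * Qb)) ^ p ^ a)
          = (h r i).eval x ^ p ^ a *
            (f.eval x ^ ((ℓ - 1) * Ma) * (f.eval x ^ (r * Qb)) ^ p ^ a) := by ring
        _ = ω ^ r * (h r i).eval x ^ p ^ a * f.eval x ^ ((ℓ - 1 - r) * Ma) := by rw [e2]; ring
    rcases mul_eq_zero.1 h1 with h | h
    · exact absurd h (pow_ne_zero _ hfx)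
    · rw [iterateFrobenius_def] at h
      exact pow_eq_zero_iff (pow_pos (Nat.Prime.pos Fact.out) a).ne' |>.1 h
  -- count
  have hdeg : R.natDegree ≤ (I - 1) * p ^ b + (H - 1) + (ℓ - 1) * f.natDegree * Qb := by
    apply natDegree_sum_le_of_forall_le
    intro i hi
    rw [mem_range] at hi
    refine natDegree_mul_le.trans ?_
    rw [natDegree_X_pow]
    have h1 : (∑ r ∈ range ℓ, h r i * f ^ (r * Qb)).natDegree ≤
        (H - 1) + (ℓ - 1) * f.natDegree * Qb := by
      apply natDegree_sum_le_of_forall_le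
      intro r hr
      rw [mem_range] at hr
      refine natDegree_mul_le.trans (Nat.add_le_add (hh r i) ?_)
      refine natDegree_pow_le.trans ?_
      calc r * Qb * f.natDegree ≤ (ℓ - 1) * Qb * f.natDegree :=
            Nat.mul_le_mul_right _ (Nat.mul_le_mul_right _ (by omega))
        _ = (ℓ - 1) * f.natDegree * Qb := by ring
    have h2 : i * p ^ b ≤ (I - 1) * p ^ b := Nat.mul_le_mul_right _ (by omega)
    omega
  refine le_trans ?_ hdeg
  apply card_le_degree_of_subset_roots
  intro x hx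
  rw [mem_val, mem_filter] at hx
  rw [mem_roots hR0]
  exact hvan x hx.2

end Pool.Agent.Lib.MP_89bcae_ag.Tw

end

section

open Polynomial Finset

namespace Pool.Agent.Lib.MP_89bcae_ag.Tw

open Pool.Agent.Lib.MP_89bcae_ag.Frob14

/-- the polynomial of the row over `F` -/
noncomputable def t06_HF {k : Type*} (F : Type*) [Field k] [Fintype k] [Field F] [Algebra k F]
    (ℓ : ℕ) (g : k[X]) (i : ℕ) : F[X] :=
  ∏ c ∈ fixS k F i, ((X - C (aeval c g)) * (X - C c) ^ (ℓ - 1))

theorem t06_HF_map_frob {k F : Type*} [Field k] [Fintype k] [Field F] [Algebra k F]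
    (ℓ : ℕ) (g : k[X]) {i : ℕ} (hi : 0 < i) :
    (t06_HF F ℓ g i).map (FiniteField.frobeniusAlgHom k F : F →+* F) = t06_HF F ℓ g i := by
  classical
  unfold t06_HF
  rw [Polynomial.map_prod]
  refine prod_bij (fun c _ => c ^ Fintype.card k) ?_ ?_ ?_ ?_
  · intro c hc
    rw [mem_fixS hi] at hc ⊢
    rw [← pow_mul, mul_comm, pow_mul, hc]
  · intro c _ c' _ h
    exact frob_injective (k := k) h
  · intro c hc
    have hinj : Set.InjOn (fun y : F => y ^ Fintype.card k) (fixS k F i : Set F) :=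
      (frob_injective (k := k)).injOn
    have hmaps : Set.MapsTo (fun y : F => y ^ Fintype.card k) (fixS k F i : Set F) (fixS k F i) := by
      intro y hy
      rw [mem_coe, mem_fixS hi] at hy ⊢
      simp only
      rw [← pow_mul, mul_comm, pow_mul, hy]
    obtain ⟨y, hy, hyc⟩ := (Finset.surjOn_of_injOn_of_card_le _ hmaps hinj le_rfl) hc
    exact ⟨y, hy, hyc⟩
  · intro c _
    have h1 := aeval_pow_q (F := F) g c 1
    rw [pow_one] at h1
    rw [Polynomial.map_mul, Polynomial.map_pow, Polynomial.map_sub, Polynomial.map_sub, map_X,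
      map_C, map_C, h1]
    simp

theorem t06_HF_monic {k F : Type*} [Field k] [Fintype k] [Field F] [Algebra k F]
    (ℓ : ℕ) (g : k[X]) (i : ℕ) : (t06_HF F ℓ g i).Monic := by
  apply monic_prod_of_monic
  intro c _
  exact (monic_X_sub_C _).mul ((monic_X_sub_C _).pow _)

theorem t06_HF_natDegree {k F : Type*} [Field k] [Fintype k] [Field F] [Algebra k F]
    [IsAlgClosed F] {ℓ : ℕ} (hℓ : 2 ≤ ℓ) (g : k[X]) {i : ℕ} (hi : 0 < i) :
    (t06_HF F ℓ g i).natDegree = ℓ * Fintype.card k ^ i := by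
  unfold t06_HF
  rw [natDegree_prod_of_monic _ _ fun c _ => (monic_X_sub_C _).mul ((monic_X_sub_C _).pow _)]
  rw [sum_congr rfl (g := fun _ => ℓ) fun c _ => by
    rw [(monic_X_sub_C _).natDegree_mul ((monic_X_sub_C _).pow _), (monic_X_sub_C _).natDegree_pow,
      natDegree_X_sub_C, natDegree_X_sub_C]
    omega]
  rw [sum_const, card_fixS hi, smul_eq_mul, mul_comm]

theorem t06_exists {k F : Type*} [Field k] [Fintype k] [Field F] [Algebra k F]
    (ℓ : ℕ) (g : k[X]) {i : ℕ} (hi : 0 < i) :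
    ∃ h : k[X], h.map (algebraMap k F) = t06_HF F ℓ g i := by
  have : t06_HF F ℓ g i ∈ lifts (algebraMap k F) := by
    rw [lifts_iff_coeff_lifts]
    intro n
    have h1 := congrArg (fun P : F[X] => P.coeff n) (t06_HF_map_frob (F := F) ℓ g hi)
    simp only [coeff_map] at h1
    have h2 : (t06_HF F ℓ g i).coeff n ^ Fintype.card k = (t06_HF F ℓ g i).coeff n := by
      simpa using h1
    exact mem_range_of_pow_eq h2
  exact (mem_lifts _).1 this

theorem t06_HF_root {k F : Type*} [Field k] [Fintype k] [Field F] [Algebra k F]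
    {ℓ : ℕ} {g : k[X]} {j : ℕ} (hj : 0 < j) {v : F} (hv : (t06_HF F ℓ g j).IsRoot v) :
    v ^ (Fintype.card k ^ j) = v := by
  rw [IsRoot.def, t06_HF, eval_prod, prod_eq_zero_iff] at hv
  obtain ⟨c, hc, h⟩ := hv
  rw [mem_fixS hj] at hc
  rw [eval_mul, mul_eq_zero] at h
  rcases h with h | h
  · simp only [eval_sub, eval_X, eval_C, sub_eq_zero] at h
    rw [h, ← aeval_pow_q, hc]
  · rw [eval_pow] at h
    have h3 : eval v (X - C c) = 0 := eq_zero_of_pow_eq_zero h
    simp only [eval_sub, eval_X, eval_C, sub_eq_zero] at h3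
    rw [h3, hc]

theorem t06_HF_rootMultiplicity {k F : Type*} [Field k] [Fintype k] [Field F] [Algebra k F]
    {ℓ : ℕ} {g : k[X]} {i : ℕ} (hi : 0 < i) {v : F}
    (hv : v ^ (Fintype.card k ^ i) = v)
    (hmiss : ∀ x : F, x ^ (Fintype.card k ^ i) = x → aeval x g ≠ v) :
    (t06_HF F ℓ g i).rootMultiplicity v = ℓ - 1 := by
  classical
  have hvS : v ∈ fixS k F i := (mem_fixS hi).2 hv
  have h0 := (t06_HF_monic (F := F) ℓ g i).ne_zero
  have e : t06_HF F ℓ g i = (X - C v) ^ (ℓ - 1) * ((X - C (aeval v g)) *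
      ∏ c ∈ (fixS k F i).erase v, ((X - C (aeval c g)) * (X - C c) ^ (ℓ - 1))) := by
    rw [t06_HF, ← mul_prod_erase _ _ hvS]
    ring
  rw [e] at h0 ⊢
  rw [rootMultiplicity_mul h0, rootMultiplicity_X_sub_C_pow]
  rw [rootMultiplicity_eq_zero, add_zero]
  rw [IsRoot.def, eval_mul, eval_prod]
  apply mul_ne_zero
  · simp only [eval_sub, eval_X, eval_C]
    exact sub_ne_zero.2 (hmiss v hv).symm
  · apply prod_ne_zero_iff.2
    intro c hc
    rw [mem_erase, mem_fixS hi] at hc
    rw [eval_mul, eval_pow]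
    apply mul_ne_zero
    · simp only [eval_sub, eval_X, eval_C]
      exact sub_ne_zero.2 (hmiss c hc.2).symm
    · apply pow_ne_zero
      simp only [eval_sub, eval_X, eval_C]
      exact sub_ne_zero.2 (Ne.symm hc.1)

theorem exists_H {k : Type*} (F : Type*) [Field k] [Fintype k] [Field F] [Algebra k F]
    [IsAlgClosed F] {ℓ : ℕ} (hℓ : 2 ≤ ℓ) (g : k[X]) :
    ∃ h : ℕ → k[X], ∀ i, 0 < i → (h i) ≠ 0 ∧ (h i).natDegree = ℓ * Fintype.card k ^ i ∧
      (∀ α : F, aeval α (h i) = ∏ c ∈ fixS k F i, ((α - aeval c g) * (α - c) ^ (ℓ - 1))) ∧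
      (∀ v : F, ((h i).map (algebraMap k F)).IsRoot v → v ^ (Fintype.card k ^ i) = v) ∧
      ∀ v : F, v ^ (Fintype.card k ^ i) = v →
        (∀ x : F, x ^ (Fintype.card k ^ i) = x → aeval x g ≠ v) →
        ((h i).map (algebraMap k F)).rootMultiplicity v = ℓ - 1 := by
  classical
  refine ⟨fun i => if hi : 0 < i then (t06_exists (F := F) ℓ g hi).choose else 1, ?_⟩
  intro i hi
  simp only [dif_pos hi]
  have hmap := (t06_exists (F := F) ℓ g hi).choose_spec
  set h := (t06_exists (F := F) ℓ g hi).choose with hh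
  refine ⟨?_, ?_, ?_, ?_, ?_⟩
  · intro h0
    rw [h0, Polynomial.map_zero] at hmap
    exact (t06_HF_monic (F := F) ℓ g i).ne_zero hmap.symm
  · rw [← natDegree_map (algebraMap k F), hmap, t06_HF_natDegree hℓ g hi]
  · intro α
    rw [← eval_map_algebraMap, hmap, t06_HF, eval_prod]
    simp
  · intro v hv
    rw [hmap] at hv
    exact t06_HF_root hi hv
  · intro v hv hmiss
    rw [hmap]
    exact t06_HF_rootMultiplicity hi hv hmiss

end Pool.Agent.Lib.MP_89bcae_ag.Tw

end

section

/-!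
# Roots and their reductions (from SpecB14.lean)
-/

open Polynomial

namespace Pool.Agent.Lib.MP_89bcae_ag.Tw

open Pool.Agent.Lib.MP_89bcae_ag

set_option linter.unusedSectionVars false
set_option linter.style.haveILetI false

variable {R K F κ Fκ : Type*} [CommRing R] [IsDomain R] [IsIntegrallyClosed R] [Field K]
  [Algebra R K] [IsFractionRing R K] [Field F] [Algebra K F] [Algebra R F] [IsScalarTower R K F]
  [IsAlgClosed F] [Algebra.IsAlgebraic K F]
  [Field κ] [Fintype κ] [Field Fκ] [Algebra κ Fκ] [Algebra.IsAlgebraic κ Fκ] [IsAlgClosed Fκ]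

/-- A root of a polynomial with invertible leading coefficient is integral. -/
lemma integral_root {f : R[X]} (hu : IsUnit f.leadingCoeff) {x : F} (hx : aeval x f = 0) :
    IsIntegral R x := by
  obtain ⟨u, hu⟩ := hu
  refine ⟨C (↑u⁻¹ : R) * f, ?_, ?_⟩
  · rw [Monic, leadingCoeff_mul, leadingCoeff_C, ← hu]
    exact u.inv_mul
  · rw [eval₂_mul]
    change _ * aeval x f = 0
    rw [hx, mul_zero]

/-- The reduction of a root is a root. -/
lemma red_root {π : R →+* κ} {ρ : integralClosure R F →+* Fκ}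
    (hρ : ∀ r, ρ (algebraMap R (integralClosure R F) r) = algebraMap κ Fκ (π r))
    {f : R[X]} {x : F} (hi : IsIntegral R x) (hx : aeval x f = 0) :
    aeval (ρ ⟨x, hi⟩) (f.map π) = 0 := by
  have h1 : aeval (⟨x, hi⟩ : integralClosure R F) f = 0 := by
    apply Subtype.ext
    have h2 : ((aeval (⟨x, hi⟩ : integralClosure R F) f : integralClosure R F) : F) = aeval x f := by
      rw [← Subalgebra.coe_val, ← aeval_algHom_apply]
      rfl
    rw [h2, hx]
    rfl
  rw [aeval_def, eval₂_map]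
  have h2 : (algebraMap κ Fκ).comp π = ρ.comp (algebraMap R (integralClosure R F)) :=
    RingHom.ext fun r => (hρ r).symm
  rw [h2, ← hom_eval₂]
  change ρ (aeval (⟨x, hi⟩ : integralClosure R F) f) = 0
  rw [h1, map_zero]

variable (F) in
/-- The polynomial is separable if its reduction is. -/
lemma separable_of_red [FaithfulSMul R F] {π : R →+* κ} (hπ : Function.Surjective π) {f : R[X]}
    (hu : IsUnit f.leadingCoeff) (hs : (f.map π).Separable) :
    (f.map (algebraMap R K)).Separable := by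
  obtain ⟨ρ, hρ⟩ := exists_red14 (F := F) (Fκ := AlgebraicClosure κ) π hπ
  rw [← separable_map (algebraMap K F), Polynomial.map_map, ← IsScalarTower.algebraMap_eq,
    Polynomial.Separable, isCoprime_iff_aeval_ne_zero_of_isAlgClosed (k := F) F]
  intro a
  by_contra hcon
  push Not at hcon
  obtain ⟨h1, h2⟩ := hcon
  rw [← eval_map_algebraMap, Polynomial.map_map, Algebra.algebraMap_self, RingHom.id_comp,
    eval_map_algebraMap] at h1
  rw [derivative_map, ← eval_map_algebraMap, Polynomial.map_map, Algebra.algebraMap_self,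
    RingHom.id_comp, eval_map_algebraMap] at h2
  have hi := integral_root hu h1
  have h3 := red_root hρ hi h1
  have h4 := red_root hρ hi h2
  rw [← derivative_map] at h4
  obtain ⟨a', b', hab⟩ := hs
  have h5 := congrArg (aeval (ρ ⟨a, hi⟩)) hab
  rw [map_add, map_mul, map_mul, h3, h4, mul_zero, mul_zero, add_zero, map_one] at h5
  exact zero_ne_one h5

/-- A reduction map and a root with a given reduction. -/
lemma exists_root_red [FaithfulSMul R F] {π : R →+* κ} (hπ : Function.Surjective π) {f : R[X]}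
    (hu : IsUnit f.leadingCoeff) (hirr : Irreducible (f.map π)) {β' : Fκ}
    (hβ' : aeval β' (f.map π) = 0) :
    ∃ (ρ : integralClosure R F →+* Fκ) (β : F) (hi : IsIntegral R β),
      (∀ r, ρ (algebraMap R (integralClosure R F) r) = algebraMap κ Fκ (π r)) ∧
      aeval β f = 0 ∧ ρ ⟨β, hi⟩ = β' := by
  obtain ⟨ρ, hρ⟩ := exists_red14 (F := F) (Fκ := Fκ) π hπ
  have hdeg : (f.map (algebraMap R F)).degree ≠ 0 := by
    have h1 : (f.map (algebraMap R F)).natDegree = f.natDegree :=
      natDegree_map_eq_of_injective (FaithfulSMul.algebraMap_injective R F) f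
    have h2 : 0 < f.natDegree := lt_of_lt_of_le hirr.natDegree_pos natDegree_map_le
    intro h3
    have h4 := natDegree_eq_zero_iff_degree_le_zero.mpr h3.le
    omega
  obtain ⟨β, hβ⟩ := IsAlgClosed.exists_root _ hdeg
  have hβ2 : aeval β f = 0 := by
    rw [IsRoot.def, eval_map_algebraMap] at hβ
    exact hβ
  have hi := integral_root hu hβ2
  obtain ⟨m, -, hm⟩ := exists_frob8_pow hirr hβ' (red_root hρ hi hβ2)
  refine ⟨(((frob8 κ Fκ ^ m)⁻¹ : Fκ ≃ₐ[κ] Fκ) : Fκ →+* Fκ).comp ρ, β, hi, fun r => ?_, hβ2, ?_⟩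
  · rw [RingHom.comp_apply, hρ]
    exact AlgEquiv.commutes _ _
  · rw [RingHom.comp_apply, hm]
    change ((frob8 κ Fκ ^ m)⁻¹ * (frob8 κ Fκ ^ m)) β' = β'
    rw [inv_mul_cancel]
    rfl

end Pool.Agent.Lib.MP_89bcae_ag.Tw

end

section

/-!
# `TowerTate` over a finite extension implies `TowerTate` over the base
-/

open Polynomial

open scoped Classical

namespace Pool.Agent.Lib.MP_89bcae_ag.Brt

open Pool.Agent.Lib.MP_89bcae_ag.Bra

/-- The image of a tower field, for the coefficients in an intermediate field. -/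
theorem R2_isTowerField {ℓ r : ℕ} {k k₁ : Type} [Field k] [Field k₁] [Algebra k k₁]
    {F K : Type} [Field F] [Algebra k F] [Algebra k₁ F] [IsScalarTower k k₁ F] [Field K] [Algebra F K]
    {g D : k[X]} {x y s : K} (h : IsTowerField ℓ r F g D x y s) :
    IsTowerField ℓ r F (g.map (algebraMap k k₁)) (D.map (algebraMap k k₁)) x y s := by
  refine ⟨h.independent, ?_, h.generate⟩
  rw [Polynomial.map_map, Polynomial.map_map, ← IsScalarTower.algebraMap_eq]
  exact h.equation

/-- For `k' ⊆ F` finite over `k`, the field `k₁(k')` is finite over `k₁` and contains `k'`. -/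
theorem R2_exists_field {k k₁ : Type} [Field k] [Field k₁] [Algebra k k₁]
    {F : Type} [Field F] [Algebra k F] [Algebra k₁ F] [IsScalarTower k k₁ F]
    (k' : IntermediateField k F) (hk : FiniteDimensional k k') :
    ∃ k'' : IntermediateField k₁ F, FiniteDimensional k₁ k'' ∧ ∀ c : F, c ∈ k' → c ∈ k'' := by
  obtain ⟨T, hT⟩ := IntermediateField.essFiniteType_iff.1 (inferInstance : Algebra.EssFiniteType k k')
  refine ⟨IntermediateField.adjoin k₁ (T : Set F), ?_, ?_⟩
  · refine IntermediateField.finiteDimensional_adjoin ?_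
    intro c hc
    have hc' : c ∈ k' := by
      rw [← hT]
      exact IntermediateField.subset_adjoin k _ hc
    have h1 : IsIntegral k (⟨c, hc'⟩ : k') := Algebra.IsIntegral.isIntegral _
    have h2 : IsIntegral k c := by
      have := h1.map (IsScalarTower.toAlgHom k k' F)
      exact this
    exact h2.tower_top
  · intro c hc
    rw [← hT] at hc
    induction hc using IntermediateField.adjoin_induction with
    | mem c hc => exact IntermediateField.subset_adjoin k₁ _ hc
    | algebraMap c =>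
      rw [IsScalarTower.algebraMap_apply k k₁ F]
      exact IntermediateField.algebraMap_mem _ _
    | add a b _ _ ha hb => exact add_mem ha hb
    | inv a _ ha => exact inv_mem ha
    | mul a b _ _ ha hb => exact mul_mem ha hb

/-- Row R2. -/
theorem towerTate_of_ext {ℓ : ℕ} {k k₁ : Type} [Field k] [Field k₁] [Algebra k k₁] [FiniteDimensional k k₁]
    {g D : k[X]} (h : TowerTate ℓ k₁ (g.map (algebraMap k k₁)) (D.map (algebraMap k k₁))) :
    TowerTate ℓ k g D := by
  constructor
  · intro r F K S _ _ _ _ _ _ _ _ x y s hF k' hk'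
    have : IsAlgClosed F := IsAlgClosure.isAlgClosed k
    let φ : k₁ →ₐ[k] F := IsAlgClosed.lift
    let : Algebra k₁ F := φ.toRingHom.toAlgebra
    have : IsScalarTower k k₁ F := IsScalarTower.of_algebraMap_eq fun c => (φ.commutes c).symm
    have : Algebra.IsAlgebraic k F := IsAlgClosure.isAlgebraic
    have : IsAlgClosure k₁ F := ⟨inferInstance, Algebra.IsAlgebraic.tower_top (K := k) k₁⟩
    obtain ⟨k'', hfin, hle⟩ := R2_exists_field (k₁ := k₁) k' hk'
    have h1 := h.brauer r F K S x y s (R2_isTowerField hF) k'' hfin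
    intro b hb hu hγ
    refine h1 b hb hu fun γ hc hx hy hs => ?_
    exact hγ γ (fun c hc' => hc c (hle c hc')) hx hy hs
  · intro r F K _ _ _ _ _ x y s hF
    have : IsAlgClosed F := IsAlgClosure.isAlgClosed k
    let φ : k₁ →ₐ[k] F := IsAlgClosed.lift
    let : Algebra k₁ F := φ.toRingHom.toAlgebra
    have : IsScalarTower k k₁ F := IsScalarTower.of_algebraMap_eq fun c => (φ.commutes c).symm
    have : Algebra.IsAlgebraic k F := IsAlgClosure.isAlgebraic
    have : IsAlgClosure k₁ F := ⟨inferInstance, Algebra.IsAlgebraic.tower_top (K := k) k₁⟩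
    have h1 := h.picard r F K x y s (R2_isTowerField hF)
    rwa [Polynomial.map_map, ← IsScalarTower.algebraMap_eq] at h1

end Pool.Agent.Lib.MP_89bcae_ag.Brt

end

section

/-!
The bound `ℓ * count ≤ card + ℓ ^ 3 (deg f + 1) p ^ b`.
-/

open Polynomial Finset

namespace Pool.Agent.Lib.MP_89bcae_ag.Tw

/-- the inequality needed for the pigeonhole -/
theorem t03_arith {k Ma h d : ℕ} (hk : 1 ≤ k) (h1 : k * Ma ≤ (k + 1) * h) :
    ((k + 1) * Ma + 1) * h + k * d * Ma + (Ma + 1 + d) < (k + 1) * (Ma + 1 + d) * (h + 1) := by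
  have h4 : d * (k * Ma) ≤ d * ((k + 1) * h) := Nat.mul_le_mul_left _ h1
  have h5 : 0 < k * (1 + d) := by positivity
  have h6 : 0 ≤ k * h := Nat.zero_le _
  have h7 : 0 ≤ k * Ma := Nat.zero_le _
  have e : (k + 1) * (Ma + 1 + d) * (h + 1) + d * (k * Ma) =
      ((k + 1) * Ma + 1) * h + k * d * Ma + (Ma + 1 + d) + d * ((k + 1) * h) + k * h + k * Ma +
        k * (1 + d) := by ring
  omega

/-- the bound for `f(0) ≠ 0` -/
theorem t03_aux {F : Type*} [Field F] [Fintype F] [DecidableEq F] {p : ℕ} [Fact p.Prime]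
    [CharP F p] {ℓ a b Ma Qb : ℕ} (hℓ : ℓ.Prime) (hab : a ≤ b) (ha : p ^ a = ℓ * Ma + 1)
    (hb : p ^ b = ℓ * Qb + 1) (hcard : Fintype.card F = p ^ a * p ^ b) {f : F[X]}
    (hf0 : f.eval 0 ≠ 0)
    (hf : ¬ ∃ (c : F) (g : F[X]), f = C c * g ^ ℓ) {ω : F} (hω : ω ≠ 0) :
    ℓ * (univ.filter fun x : F => (f.eval x) ^ (p ^ a * Qb + Ma) = ω).card ≤
      Fintype.card F + ℓ ^ 3 * (f.natDegree + 1) * p ^ b := by
  have hpp : p.Prime := Fact.out
  have hmn : p ^ a ≤ p ^ b := Nat.pow_le_pow_right hpp.pos hab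
  set d := f.natDegree with hd
  obtain ⟨k, rfl⟩ : ∃ k, ℓ = k + 1 := ⟨ℓ - 1, by have := hℓ.two_le; omega⟩
  have hk : 1 ≤ k := by have := hℓ.two_le; omega
  have hNle : (univ.filter fun x : F => (f.eval x) ^ (p ^ a * Qb + Ma) = ω).card ≤
      Fintype.card F := Finset.card_le_univ _
  by_cases hbig : p ^ a < (k + 1) ^ 2 * (d + 1)
  · have h1 : (k + 1) * Fintype.card F ≤ (k + 1) ^ 3 * (d + 1) * p ^ b := by
      rw [hcard]
      calc (k + 1) * (p ^ a * p ^ b) = (k + 1) * p ^ a * p ^ b := by ring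
        _ ≤ (k + 1) * ((k + 1) ^ 2 * (d + 1)) * p ^ b :=
            Nat.mul_le_mul_right _ (Nat.mul_le_mul_left _ hbig.le)
        _ = _ := by ring
    have h2 := Nat.mul_le_mul_left (k + 1) hNle
    omega
  · rw [not_lt] at hbig
    -- lower bound for `Ma`
    have hMa : (k + 1) * (d + 1) ≤ Ma := by
      by_contra hc
      rw [not_le] at hc
      have h1 : (k + 1) * (Ma + 1) ≤ (k + 1) * ((k + 1) * (d + 1)) := Nat.mul_le_mul_left _ hc
      have h2 : (k + 1) * ((k + 1) * (d + 1)) = (k + 1) ^ 2 * (d + 1) := by ring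
      have h3 : (k + 1) * (Ma + 1) = (k + 1) * Ma + k + 1 := by ring
      omega
    set h := (p ^ b - 1 - k * d) / (k + 1) with hh
    have hkd : k * d + k ≤ Ma := by
      have : (k + 1) * (d + 1) = k * d + k + d + 1 := by ring
      omega
    have hMk : Ma ≤ (k + 1) * Ma := Nat.le_mul_of_pos_left _ (by omega)
    have hdiv1 : (k + 1) * h ≤ p ^ b - 1 - k * d := Nat.mul_div_le _ _
    have hdiv2 : p ^ b - 1 - k * d < (k + 1) * h + (k + 1) := by
      have := Nat.lt_mul_div_succ (p ^ b - 1 - k * d) (show 0 < k + 1 by omega)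
      rw [← hh] at this
      have e : (k + 1) * (h + 1) = (k + 1) * h + (k + 1) := by ring
      omega
    have hlow : k * Ma ≤ (k + 1) * h := by
      have e : (k + 1) * Ma = k * Ma + Ma := by ring
      omega
    have hcount := count_le (H := h + 1) (I := Ma + 1 + d) hℓ ha hb hcard hf0 hf hω
      (by omega) (by
        rw [← hd, Nat.add_sub_cancel, Nat.add_sub_cancel]
        omega) (by
        rw [← hd, Nat.add_sub_cancel, Nat.add_sub_cancel, ha]
        exact t03_arith hk hlow)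
    rw [← hd, Nat.add_sub_cancel, Nat.add_sub_cancel,
      show Ma + 1 + d - 1 = Ma + d by omega] at hcount
    have hm := Nat.mul_le_mul_left (k + 1) hcount
    refine hm.trans ?_
    rw [hcard]
    have e1 : (k + 1) * ((Ma + d) * p ^ b + h + k * d * Qb) =
        ((k + 1) * Ma) * p ^ b + ((k + 1) * d) * p ^ b + (k + 1) * h + (k * d) * ((k + 1) * Qb) := by
      ring
    have e2 : p ^ a * p ^ b = ((k + 1) * Ma) * p ^ b + p ^ b := by
      rw [ha]; ring
    have e3 : (k * d) * ((k + 1) * Qb) ≤ (k * d) * p ^ b := Nat.mul_le_mul_left _ (by omega)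
    have e4 : ((k + 1) * d + k * d) * p ^ b ≤ (k + 1) ^ 3 * (d + 1) * p ^ b := by
      refine Nat.mul_le_mul_right _ ?_
      have e5 : (k + 1) * d + k * d ≤ (k + 1) ^ 3 * d := by
        have e6 : (k + 1) * d + k * d = (2 * k + 1) * d := by ring
        rw [e6]
        refine Nat.mul_le_mul_right _ ?_
        have e7 : (k + 1) ^ 3 = k ^ 3 + 3 * k ^ 2 + 3 * k + 1 := by ring
        omega
      refine e5.trans (Nat.mul_le_mul_left _ (by omega))
    have e8 : ((k + 1) * d + k * d) * p ^ b = ((k + 1) * d) * p ^ b + (k * d) * p ^ b := by ring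
    rw [e1, e2]
    omega

theorem count_bound {F : Type*} [Field F] [Fintype F] [DecidableEq F] {p : ℕ} [Fact p.Prime]
    [CharP F p] {ℓ a b Ma Qb : ℕ} (hℓ : ℓ.Prime) (hab : a ≤ b) (ha : p ^ a = ℓ * Ma + 1)
    (hb : p ^ b = ℓ * Qb + 1) (hcard : Fintype.card F = p ^ a * p ^ b) {f : F[X]}
    (hf : ¬ ∃ (c : F) (g : F[X]), f = C c * g ^ ℓ) {ω : F} (hω : ω ≠ 0) :
    ℓ * (univ.filter fun x : F => (f.eval x) ^ (p ^ a * Qb + Ma) = ω).card ≤
      Fintype.card F + ℓ ^ 3 * (f.natDegree + 1) * p ^ b := by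
  have hpp : p.Prime := Fact.out
  by_cases hbig : ∃ x : F, f.eval x ≠ 0
  · obtain ⟨y, hy⟩ := hbig
    have h1 := t03_aux (f := f.comp (X + C y)) hℓ hab ha hb hcard (by simpa using hy) (by
      rintro ⟨c, g, hg⟩
      apply hf
      refine ⟨c, g.comp (X - C y), ?_⟩
      have h2 := congrArg (fun u => u.comp (X - C y)) hg
      simp only [comp_assoc, add_comp, X_comp, C_comp, sub_add_cancel, comp_X, mul_comp,
        pow_comp] at h2
      exact h2) hω
    rw [natDegree_comp, natDegree_X_add_C, mul_one] at h1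
    have h3 : (univ.filter fun x : F =>
        ((f.comp (X + C y)).eval x) ^ (p ^ a * Qb + Ma) = ω).card =
        (univ.filter fun x : F => (f.eval x) ^ (p ^ a * Qb + Ma) = ω).card := by
      refine Finset.card_equiv (Equiv.addRight y) ?_
      intro x
      simp only [mem_filter, mem_univ, true_and, eval_comp, eval_add, eval_X, eval_C,
        Equiv.coe_addRight]
    rw [h3] at h1
    exact h1
  · push Not at hbig
    have hexp : p ^ a * Qb + Ma ≠ 0 := by
      intro h0
      have h1 : Ma = 0 := by omega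
      have h2 : p ^ a * Qb = 0 := by omega
      have h3 : Qb = 0 := by
        rcases Nat.mul_eq_zero.1 h2 with h | h
        · exact absurd h (pow_pos hpp.pos a).ne'
        · exact h
      rw [h1] at ha
      rw [h3] at hb
      have h4 : Fintype.card F = 1 := by
        rw [hcard, ha, hb]
        simp
      have h5 : 1 < Fintype.card F := Fintype.one_lt_card
      omega
    have hempty : (univ.filter fun x : F => (f.eval x) ^ (p ^ a * Qb + Ma) = ω) = ∅ := by
      rw [Finset.filter_eq_empty_iff]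
      intro x _
      rw [hbig x, zero_pow hexp]
      exact hω.symm
    rw [hempty, Finset.card_empty, mul_zero]
    exact Nat.zero_le _

end Pool.Agent.Lib.MP_89bcae_ag.Tw

end

section

/-!
An element of exact degree `s` which is not a value of `g` (Hermite).
-/

open Polynomial Finset

namespace Pool.Agent.Lib.MP_89bcae_ag.Tw

open Pool.Agent.Lib.MP_89bcae_ag.Frob14

section t07

variable {k F : Type*} [Field k] [Fintype k] [Field F] [Algebra k F] [IsAlgClosed F]

theorem t07_sum_pow_lt {s : ℕ} (hs : 0 < s) {i : ℕ} (hi : i < Fintype.card k ^ s - 1) :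
    ∑ x ∈ fixS k F s, x ^ i = 0 := by
  have hfin := finite_fixI (k := k) (F := F) hs
  let _ : Fintype (fixI k F s) := Fintype.ofFinite _
  have hcard : Fintype.card (fixI k F s) = Fintype.card k ^ s := by
    rw [← Nat.card_eq_fintype_card, natCard_fixI hs]
  have h1 := FiniteField.sum_pow_lt_card_sub_one (fixI k F s) i (by rw [hcard]; exact hi)
  have h2 := congrArg (fun z : fixI k F s => (z : F)) h1
  have h3 : ∑ x ∈ fixS k F s, x ^ i = ∑ z : fixI k F s, (z : F) ^ i := by
    symm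
    refine Finset.sum_bij (fun z _ => (z : F)) ?_ ?_ ?_ ?_
    · intro z _
      exact (mem_fixS hs).2 (mem_fixI.1 z.2)
    · intro a _ b _ h
      exact Subtype.ext h
    · intro b hb
      exact ⟨⟨b, mem_fixI.2 ((mem_fixS hs).1 hb)⟩, mem_univ _, rfl⟩
    · intro z _
      rfl
  rw [h3]
  simpa using h2

theorem t07_sum_pow_eq {s : ℕ} (hs : 0 < s) :
    ∑ x ∈ fixS k F s, x ^ (Fintype.card k ^ s - 1) = (-1 : F) := by
  classical
  have hQ : 1 < Fintype.card k ^ s := one_lt_q_pow hs
  have h0 : (0 : F) ∈ fixS k F s := by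
    rw [mem_fixS hs, zero_pow (by omega)]
  have hz : (0 : F) ^ (Fintype.card k ^ s - 1) = 0 := zero_pow (by omega)
  rw [← Finset.add_sum_erase _ _ h0, hz, zero_add]
  have h1 : ∀ x ∈ (fixS k F s).erase 0, x ^ (Fintype.card k ^ s - 1) = (1 : F) := by
    intro x hx
    rw [mem_erase, mem_fixS hs] at hx
    have h2 : x * x ^ (Fintype.card k ^ s - 1) = x * 1 := by
      rw [← pow_succ', Nat.sub_add_cancel hQ.le, hx.2, mul_one]
    exact mul_left_cancel₀ hx.1 h2
  rw [Finset.sum_congr rfl h1, Finset.sum_const, Finset.card_erase_of_mem h0, card_fixS hs,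
    nsmul_eq_mul, mul_one, Nat.cast_sub hQ.le, Nat.cast_one, Nat.cast_pow]
  have h3 : (Fintype.card k : F) = 0 := by
    have h4 : (Fintype.card k : k) = 0 := FiniteField.cast_card_eq_zero k
    rw [← map_natCast (algebraMap k F), h4, map_zero]
  rw [h3, zero_pow hs.ne', zero_sub]

theorem t07_sum_eval {s : ℕ} (hs : 0 < s) {ψ : F[X]} (hψ : ψ.natDegree < Fintype.card k ^ s) :
    ∑ x ∈ fixS k F s, ψ.eval x = -(ψ.coeff (Fintype.card k ^ s - 1)) := by
  have hQ : 1 < Fintype.card k ^ s := one_lt_q_pow hs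
  have h1 : ∀ x ∈ fixS k F s, ψ.eval x =
      ∑ i ∈ range (Fintype.card k ^ s), ψ.coeff i * x ^ i := fun x _ =>
    eval_eq_sum_range' hψ x
  rw [Finset.sum_congr rfl h1, Finset.sum_comm]
  have h2 : Fintype.card k ^ s = (Fintype.card k ^ s - 1) + 1 := by omega
  rw [h2, Finset.sum_range_succ, Finset.sum_eq_zero, zero_add, ← Finset.mul_sum, Nat.add_sub_cancel,
    t07_sum_pow_eq hs, mul_neg, mul_one]
  intro i hi
  rw [mem_range] at hi
  rw [← Finset.mul_sum, t07_sum_pow_lt hs hi, mul_zero]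

end t07

theorem exists_special {k F : Type*} [Field k] [Fintype k] [Field F] [Algebra k F] [IsAlgClosed F]
    {g : k[X]} {m : ℕ} (hg : g.Monic) (hdeg : g.natDegree = m) (hm : 2 ≤ m) {s : ℕ} (hs : 0 < s)
    (hdvd : m ∣ Fintype.card k ^ s - 1)
    (hbig : m * ∑ d ∈ Icc 1 (s / 2), Fintype.card k ^ d ≤ Fintype.card k ^ s - 1) :
    ∃ v : F, v ^ (Fintype.card k ^ s) = v ∧
      (∀ x : F, x ^ (Fintype.card k ^ s) = x → aeval x g ≠ v) ∧
      ∀ j, 0 < j → j < s → v ^ (Fintype.card k ^ j) ≠ v := by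
  classical
  by_contra hcon
  push Not at hcon
  have hQ : 1 < Fintype.card k ^ s := one_lt_q_pow hs
  set Q := Fintype.card k ^ s with hQdef
  set B : Finset F := {v ∈ fixS k F s | ∃ j, 0 < j ∧ j < s ∧ v ^ (Fintype.card k ^ j) = v} with hB
  set M : Finset F := fixS k F s \ B with hM
  have hBsub : B ⊆ fixS k F s := filter_subset _ _
  have hBcard : B.card ≤ ∑ d ∈ Icc 1 (s / 2), Fintype.card k ^ d := small_card s hs
  set e := (Q - 1) / m with he
  have hem : e * m = Q - 1 := Nat.div_mul_cancel hdvd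
  have hBe : B.card ≤ e := by
    rw [he, Nat.le_div_iff_mul_le (by omega), mul_comm]
    exact (Nat.mul_le_mul_left m hBcard).trans hbig
  have helt : e < Q - 1 := Nat.div_lt_self (by omega) (by omega)
  -- the map `g` on `B` and `M`
  have hgB : ∀ b ∈ B, aeval b g ∈ B := by
    intro b hb
    rw [hB, mem_filter, mem_fixS hs] at hb ⊢
    obtain ⟨h1, j, h2, h3, h4⟩ := hb
    refine ⟨?_, j, h2, h3, ?_⟩
    · rw [← aeval_pow_q, h1]
    · rw [← aeval_pow_q, h4]
  have hMsub : M ⊆ M.image (fun x => aeval x g) := by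
    intro v hv
    rw [hM, mem_sdiff] at hv
    obtain ⟨hv1, hv2⟩ := hv
    have hv1' := (mem_fixS hs).1 hv1
    have h3 : ∃ x : F, x ^ Q = x ∧ aeval x g = v := by
      by_contra h
      push Not at h
      obtain ⟨j, h4, h5, h6⟩ := hcon v hv1' h
      exact hv2 (by rw [hB, mem_filter]; exact ⟨hv1, j, h4, h5, h6⟩)
    obtain ⟨x, hx, hxv⟩ := h3
    rw [mem_image]
    refine ⟨x, ?_, hxv⟩
    rw [hM, mem_sdiff]
    refine ⟨(mem_fixS hs).2 hx, fun hxB => hv2 ?_⟩
    rw [← hxv]
    exact hgB x hxB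
  have himg : M = M.image (fun x => aeval x g) :=
    eq_of_subset_of_card_le hMsub card_image_le
  have hinj : Set.InjOn (fun x : F => aeval x g) (M : Set F) := by
    rw [← card_image_iff, ← himg]
  -- the polynomial
  set φ : F[X] := X ^ (e - B.card) * ∏ b ∈ B, (X - C b) with hφ
  have hprod : (∏ b ∈ B, (X - C b) : F[X]).Monic := monic_prod_of_monic _ _ fun b _ =>
    monic_X_sub_C b
  have hφm : φ.Monic := (monic_X_pow _).mul hprod
  have hφd : φ.natDegree = e := by
    rw [hφ, (monic_X_pow _).natDegree_mul hprod, natDegree_X_pow,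
      natDegree_prod_of_monic _ _ fun b _ => monic_X_sub_C b]
    simp only [natDegree_X_sub_C, sum_const, smul_eq_mul, mul_one]
    omega
  have hφB : ∀ b ∈ B, φ.eval b = 0 := by
    intro b hb
    rw [hφ, eval_mul, eval_prod, prod_eq_zero hb, mul_zero]
    rw [eval_sub, eval_X, eval_C, sub_self]
  have hsplit : ∀ f : F → F, ∑ x ∈ fixS k F s, f x = ∑ x ∈ M, f x + ∑ x ∈ B, f x := by
    intro f
    rw [hM, Finset.sum_sdiff hBsub]
  have hgm : (g.map (algebraMap k F)).Monic := hg.map _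
  have hgd : (g.map (algebraMap k F)).natDegree = m := by rw [natDegree_map, hdeg]
  set ψ : F[X] := φ.comp (g.map (algebraMap k F)) with hψ
  have hψm : ψ.Monic := hφm.comp hgm (by rw [hgd]; omega)
  have hψd : ψ.natDegree = Q - 1 := by rw [hψ, natDegree_comp, hφd, hgd, hem]
  have hψe : ∀ x : F, ψ.eval x = φ.eval (aeval x g) := by
    intro x
    rw [hψ, eval_comp, eval_map_algebraMap]
  have h1 : ∑ x ∈ fixS k F s, ψ.eval x = -1 := by
    rw [t07_sum_eval hs (by omega), ← hQdef, ← hψd, hψm.coeff_natDegree]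
  have h2 : ∑ x ∈ fixS k F s, φ.eval x = 0 := by
    rw [t07_sum_eval hs (by omega), ← hQdef, coeff_eq_zero_of_natDegree_lt (by omega), neg_zero]
  have h3 : ∑ x ∈ fixS k F s, ψ.eval x = ∑ x ∈ fixS k F s, φ.eval x := by
    rw [hsplit, hsplit, Finset.sum_eq_zero (s := B) (fun b hb => hφB b hb),
      Finset.sum_eq_zero (s := B) (fun b hb => by rw [hψe]; exact hφB _ (hgB b hb)), add_zero,
      add_zero]
    conv_rhs => rw [himg]
    rw [Finset.sum_image hinj]
    exact Finset.sum_congr rfl fun x _ => hψe x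
  rw [h1, h2] at h3
  exact neg_ne_zero.mpr one_ne_zero h3

end Pool.Agent.Lib.MP_89bcae_ag.Tw

end

section

/-!
# Finite fields: norms, products over the elements of a subfield (from Exc8.lean and Fam45.lean)
-/

open Polynomial

namespace Pool.Agent.Lib.MP_89bcae_ag.Tw

open Pool.Agent.Lib.MP_89bcae_ag Pool.Agent.Lib.MP_89bcae_ag.Frob14

universe u

section Norm

set_option linter.unusedSectionVars false

variable {k F : Type*} [Field k] [Fintype k] [Field F] [Algebra k F] [Algebra.IsAlgebraic k F]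
  [IsAlgClosed F]

lemma frob8_pow_inj {x : F} {n : ℕ} (h : ∀ i, (frob8 k F ^ i) x = x ↔ n ∣ i) {a b : ℕ} :
    (frob8 k F ^ a) x = (frob8 k F ^ b) x ↔ a ≡ b [MOD n] := by
  rcases le_total a b with hle | hle
  · have h1 : (frob8 k F ^ a) x = (frob8 k F ^ b) x ↔ (frob8 k F ^ (b - a)) x = x := by
      constructor
      · intro h1
        apply (frob8 k F ^ a).injective
        rw [← AlgEquiv.mul_apply, ← pow_add, Nat.add_sub_cancel' hle]
        exact h1.symm
      · intro h1
        rw [← Nat.add_sub_cancel' hle, pow_add, AlgEquiv.mul_apply, h1]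
    rw [h1, h, Nat.modEq_iff_dvd' hle]
  · have h1 : (frob8 k F ^ a) x = (frob8 k F ^ b) x ↔ (frob8 k F ^ (a - b)) x = x := by
      constructor
      · intro h1
        apply (frob8 k F ^ b).injective
        rw [← AlgEquiv.mul_apply, ← pow_add, Nat.add_sub_cancel' hle]
        exact h1
      · intro h1
        rw [← Nat.add_sub_cancel' hle, pow_add, AlgEquiv.mul_apply, h1]
    rw [h1, h, Nat.ModEq.comm, Nat.modEq_iff_dvd' hle]

lemma mem_range_of_frob8 {x : F} (h : frob8 k F x = x) : ∃ a : k, algebraMap k F a = x := by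
  classical
  have h1 : (frob8 k F ^ 1) x = x := by rw [pow_one]; exact h
  rw [frob8_pow_eq_iff, Nat.dvd_one] at h1
  have hint : IsIntegral k x := Algebra.IsIntegral.isIntegral x
  have h3 := (minpoly.natDegree_eq_one_iff).mp h1
  exact h3

/-- A product over the roots of `X ^ q ^ i - X` as a product over a finite field. -/
lemma prod_fixS_eq {K : Type*} [Field K] [Fintype K] [Algebra k K] (f : F → F) :
    ∀ σ : K →ₐ[k] F, ∏ c ∈ fixS k F (Module.finrank k K), f c = ∏ c : K, f (σ c) := by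
  classical
  intro σ
  have hcard : Fintype.card K = Fintype.card k ^ Module.finrank k K :=
    Module.card_eq_pow_finrank (K := k) (V := K)
  have hpos : 0 < Module.finrank k K := by
    have : Module.Finite k K := Module.Finite.of_finite
    exact Module.finrank_pos
  have h1 : 1 < Fintype.card k ^ Module.finrank k K := by
    rw [← hcard]; exact Fintype.one_lt_card
  have hne : (X ^ (Fintype.card k ^ Module.finrank k K) - X : F[X]) ≠ 0 :=
    FiniteField.X_pow_card_sub_X_ne_zero F h1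
  have himg : (Finset.univ.image (fun c : K => σ c)) = fixS k F (Module.finrank k K) := by
    apply Finset.eq_of_subset_of_card_le
    · intro x hx
      obtain ⟨c, -, rfl⟩ := Finset.mem_image.mp hx
      unfold fixS
      rw [Multiset.mem_toFinset, mem_roots hne, IsRoot.def, eval_sub, eval_pow, eval_X, ← hcard,
        ← map_pow, FiniteField.pow_card, sub_self]
    · have hc : (Finset.univ.image (fun c : K => σ c)).card = Fintype.card K :=
        (Finset.card_image_of_injective _ σ.injective).trans Finset.card_univ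
      rw [hc, hcard]
      unfold fixS
      refine (Multiset.toFinset_card_le _).trans ((card_roots' _).trans ?_)
      rw [FiniteField.X_pow_card_sub_X_natDegree_eq F h1]
  rw [← himg, Finset.prod_image]
  intro x _ y _ hxy
  exact σ.injective hxy

/-- The values of `D` in terms of one of its roots. -/
lemma aeval_eq_prod {D : k[X]} (hm : D.Monic) (hirr : Irreducible D) {n : ℕ}
    (hn : D.natDegree = n) {α : F} (hα : aeval α D = 0) (x : F) :
    aeval x D = ∏ m ∈ Finset.range n, (x - (frob8 k F ^ m) α) := by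
  classical
  have hmin : minpoly k α = D := (minpoly.eq_of_irreducible_of_monic hirr hα hm).symm
  have hiff : ∀ i : ℕ, (frob8 k F ^ i) α = α ↔ n ∣ i := fun i => by
    rw [frob8_pow_eq_iff, hmin, hn]
  set S : Finset F := (Finset.range n).image (fun m => (frob8 k F ^ m) α) with hS
  have hinj : Set.InjOn (fun m => (frob8 k F ^ m) α) (Finset.range n : Set ℕ) := by
    intro a ha b hb hab
    rw [Finset.mem_coe, Finset.mem_range] at ha hb
    have h1 := (frob8_pow_inj hiff).mp hab
    rwa [Nat.ModEq, Nat.mod_eq_of_lt ha, Nat.mod_eq_of_lt hb] at h1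
  have hcard : S.card = n := by
    rw [hS, Finset.card_image_of_injOn hinj, Finset.card_range]
  have hmon : (D.map (algebraMap k F)).Monic := hm.map _
  have hdeg : (D.map (algebraMap k F)).natDegree = n := by rw [natDegree_map, hn]
  have heq : S.val = (D.map (algebraMap k F)).roots := by
    apply Multiset.eq_of_le_of_card_le
    · rw [Finset.val_le_iff_val_subset]
      intro y hy
      have hy' : y ∈ S := hy
      obtain ⟨m, -, rfl⟩ := Finset.mem_image.mp hy'
      rw [mem_roots hmon.ne_zero, IsRoot.def, eval_map_algebraMap,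
        ← AlgEquiv.coe_toAlgHom (frob8 k F ^ m), aeval_algHom_apply, hα, map_zero]
    · refine (card_roots' _).trans ?_
      rw [hdeg]
      exact hcard.ge
  have hprod := (IsAlgClosed.splits (D.map (algebraMap k F))).eq_prod_roots
  rw [hmon.leadingCoeff, C_1, one_mul, ← heq] at hprod
  have h3 := congrArg (eval x) hprod
  rw [eval_map_algebraMap] at h3
  rw [h3]
  change eval x (∏ c ∈ S, (X - C c)) = _
  rw [eval_prod, hS, Finset.prod_image hinj]
  simp only [eval_sub, eval_X, eval_C]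

open scoped Classical in
lemma frob8_mem_fixS {i : ℕ} (hi : 0 < i) {c : F} (m : ℕ) :
    (frob8 k F ^ m) c ∈ fixS k F i ↔ c ∈ fixS k F i := by
  have h1 : 1 < Fintype.card k ^ i := Nat.one_lt_pow hi.ne' Fintype.one_lt_card
  have hne : (X ^ (Fintype.card k ^ i) - X : F[X]) ≠ 0 := FiniteField.X_pow_card_sub_X_ne_zero F h1
  unfold fixS
  rw [Multiset.mem_toFinset, Multiset.mem_toFinset, mem_roots hne, mem_roots hne, IsRoot.def,
    IsRoot.def, eval_sub, eval_sub, eval_pow, eval_pow, eval_X, eval_X, ← map_pow, ← map_sub,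
    EmbeddingLike.map_eq_zero_iff]

end Norm

section Basic

variable {k : Type u} [Field k]

lemma family_finite [Finite k] (g : k[X]) (n : ℕ) : (family g n).Finite := by
  have hinj : Set.InjOn (fun D : k[X] => fun i : Fin (n + 1) => D.coeff i) (family g n) := by
    rintro D ⟨-, h1, -⟩ D' ⟨-, h1', -⟩ h
    ext i
    by_cases hi : i < n + 1
    · exact congrFun h ⟨i, hi⟩
    · rw [coeff_eq_zero_of_natDegree_lt (by omega), coeff_eq_zero_of_natDegree_lt (by omega)]
  exact Set.Finite.of_finite_image (Set.toFinite _) hinj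

end Basic

section Count

variable {k F : Type u} [Field k] [Fintype k] [Field F] [Algebra k F] [IsAlgClosure k F]

open scoped Classical in
/-- The roots of the polynomials of a finite set of monic irreducible polynomials of degree `n`. -/
lemma exists_roots_card (n : ℕ) (S : Finset k[X])
    (hS : ∀ D ∈ S, D.Monic ∧ D.natDegree = n ∧ Irreducible D) :
    ∃ A : Finset F, (∀ a, a ∈ A ↔ minpoly k a ∈ S) ∧ A.card = n * S.card := by
  have hF : IsAlgClosed F := IsAlgClosure.isAlgClosed k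
  have hkF : Algebra.IsAlgebraic k F := IsAlgClosure.isAlgebraic
  have key : ∀ D ∈ S, ∀ a : F, a ∈ (D.aroots F).toFinset ↔ minpoly k a = D := by
    intro D hD a
    obtain ⟨h1, -, h3⟩ := hS D hD
    rw [Multiset.mem_toFinset, mem_aroots]
    constructor
    · rintro ⟨-, h4⟩
      exact (minpoly.eq_of_irreducible_of_monic h3 h4 h1).symm
    · intro h4
      exact ⟨h3.ne_zero, by rw [← h4, minpoly.aeval]⟩
  refine ⟨S.biUnion fun D => (D.aroots F).toFinset, fun a => ?_, ?_⟩
  · rw [Finset.mem_biUnion]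
    constructor
    · rintro ⟨D, hD, h⟩
      rw [(key D hD a).mp h]
      exact hD
    · intro h
      exact ⟨_, h, (key _ h a).mpr rfl⟩
  · rw [Finset.card_biUnion]
    · rw [Finset.sum_const_nat (m := n), mul_comm]
      intro D hD
      obtain ⟨h1, h2, h3⟩ := hS D hD
      have hsep : D.Separable := PerfectField.separable_of_irreducible h3
      have h4 : (D.aroots F).Nodup := nodup_roots hsep.map
      rw [Multiset.toFinset_card_of_nodup h4, aroots_def,
        ← (IsAlgClosed.splits (D.map (algebraMap k F))).natDegree_eq_card_roots, natDegree_map, h2]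
    · intro D hD D' hD' hne
      rw [Function.onFun, Finset.disjoint_left]
      intro a ha ha'
      exact hne (((key D hD a).mp ha).symm.trans ((key D' hD' a).mp ha'))

end Count

end Pool.Agent.Lib.MP_89bcae_ag.Tw

end

section

/-!
# From a relation between the differences of the roots to `ℓ`-th powers
-/

open Polynomial Finset

namespace Pool.Agent.Lib.MP_89bcae_ag.Tw

open Pool.Agent.Lib.MP_89bcae_ag

universe u


/-- the kernel of the projection `ℤ/mn → ℤ/n` -/
lemma t12_ker {m n : ℕ} [NeZero (m * n)] (w : ZMod (m * n)) :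
    ZMod.castHom (dvd_mul_left n m) (ZMod n) w = 0 ↔
      ∃ t ∈ range m, ((n * t : ℕ) : ZMod (m * n)) = w := by
  constructor
  · intro h
    have h1 : ((w.val : ℕ) : ZMod n) = 0 := by
      rw [← h]
      conv_rhs => rw [← ZMod.natCast_zmod_val w]
      rw [map_natCast]
    rw [ZMod.natCast_eq_zero_iff] at h1
    obtain ⟨t, ht⟩ := h1
    refine ⟨t, ?_, ?_⟩
    · rw [mem_range]
      have h2 : w.val < m * n := ZMod.val_lt w
      rw [ht, mul_comm] at h2
      exact Nat.lt_of_mul_lt_mul_right h2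
    · rw [← ht, ZMod.natCast_zmod_val]
  · rintro ⟨t, -, rfl⟩
    rw [map_natCast, ZMod.natCast_eq_zero_iff]
    exact dvd_mul_right n t

/-- the classes `n t`, `t < m`, are distinct modulo `mn` -/
lemma t12_inj {m n : ℕ} (hn : 0 < n) {t t' : ℕ} (ht : t < m) (ht' : t' < m)
    (h : ((n * t : ℕ) : ZMod (m * n)) = ((n * t' : ℕ) : ZMod (m * n))) : t = t' := by
  rw [ZMod.natCast_eq_natCast_iff] at h
  have h1 : n * t < m * n := by rw [mul_comm]; exact Nat.mul_lt_mul_of_pos_right ht hn
  have h2 : n * t' < m * n := by rw [mul_comm]; exact Nat.mul_lt_mul_of_pos_right ht' hn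
  have h3 := Nat.ModEq.eq_of_lt_of_lt h h1 h2
  exact Nat.eq_of_mul_eq_mul_left hn h3


end Pool.Agent.Lib.MP_89bcae_ag.Tw

end

section

/-!
# The exceptional polynomials in terms of their roots
-/

open Polynomial Finset

namespace Pool.Agent.Lib.MP_89bcae_ag.Tw

open Pool.Agent.Lib.MP_89bcae_ag

universe u

lemma irreducible_of_comp {k : Type*} [Field k] {g D : k[X]} (hdeg : g.natDegree ≠ 0)
    (h : Irreducible (D.comp g)) : Irreducible D := by
  refine ⟨fun hu => ?_, fun a b hab => ?_⟩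
  · have h1 := h.natDegree_pos
    rw [natDegree_comp, natDegree_eq_zero_of_isUnit hu] at h1
    omega
  · have h1 : IsUnit (a.comp g) ∨ IsUnit (b.comp g) := h.isUnit_or_isUnit (by rw [hab, mul_comp])
    have key : ∀ c : k[X], c ≠ 0 → IsUnit (c.comp g) → IsUnit c := by
      intro c hc hu
      have h2 := natDegree_eq_zero_of_isUnit hu
      rw [natDegree_comp] at h2
      have h3 : c.natDegree = 0 := (Nat.mul_eq_zero.mp h2).resolve_right hdeg
      obtain ⟨r, hr⟩ := natDegree_eq_zero.mp h3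
      rw [← hr] at hc ⊢
      rw [isUnit_C]
      exact (isUnit_iff_ne_zero).mpr (fun h0 => hc (by rw [h0, C_0]))
    have hD0 : D ≠ 0 := by
      rintro rfl
      exact h.ne_zero zero_comp
    rcases h1 with h1 | h1
    · exact Or.inl (key a (by rintro rfl; exact hD0 (by rw [hab, zero_mul])) h1)
    · exact Or.inr (key b (by rintro rfl; exact hD0 (by rw [hab, mul_zero])) h1)

section

set_option linter.unusedSectionVars false

variable {k F : Type*} [Field k] [Fintype k] [Field F] [Algebra k F] [Algebra.IsAlgebraic k F]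
  [IsAlgClosed F]

/-- a product over the fixed points can be permuted by the Frobenius -/
lemma t16_prod_perm {i : ℕ} (hi : 0 < i) (m : ℕ) (f f' : F → F)
    (h : ∀ c, (frob8 k F ^ m) (f c) = f' ((frob8 k F ^ m) c)) :
    (frob8 k F ^ m) (∏ c ∈ Frob14.fixS k F i, f c) = ∏ c ∈ Frob14.fixS k F i, f' c := by
  rw [map_prod]
  apply Finset.prod_bij (fun c _ => (frob8 k F ^ m) c)
  · intro c hc
    exact (frob8_mem_fixS hi m).mpr hc
  · intro a _ b _ hab
    exact (frob8 k F ^ m).injective hab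
  · intro b hb
    refine ⟨(frob8 k F ^ m).symm b, ?_, (frob8 k F ^ m).apply_symm_apply b⟩
    rw [← frob8_mem_fixS hi m, (frob8 k F ^ m).apply_symm_apply]
    exact hb
  · intro c _
    exact h c

/-- an element of the field with `q ^ n` elements whose norm is an `ℓ`-th power is an `ℓ`-th power
in this field -/
lemma t16_root {ℓ n : ℕ} (hℓ : ℓ.Prime) (hq : ℓ ∣ Fintype.card k - 1) {H : F} {b : k}
    (hb : algebraMap k F (b ^ ℓ) = ∏ m ∈ Finset.range n, (frob8 k F ^ m) H) :
    ∃ u : F, u ^ (Fintype.card k ^ n) = u ∧ u ^ ℓ = H := by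
  have hq1 : 1 < Fintype.card k := Fintype.one_lt_card
  by_cases h0 : H = 0
  · refine ⟨0, zero_pow (pow_ne_zero _ (by omega)), ?_⟩
    rw [h0, zero_pow hℓ.ne_zero]
  · have hprod : ∏ m ∈ Finset.range n, (frob8 k F ^ m) H =
        H ^ (∑ m ∈ Finset.range n, Fintype.card k ^ m) := by
      rw [← Finset.prod_pow_eq_pow_sum]
      exact Finset.prod_congr rfl fun m _ => frob8_pow_apply m H
    rw [hprod] at hb
    have hb0 : b ≠ 0 := by
      rintro rfl
      rw [zero_pow hℓ.ne_zero, map_zero] at hb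
      exact pow_ne_zero _ h0 hb.symm
    obtain ⟨e, he⟩ := hq
    have hgeo : (∑ m ∈ Finset.range n, Fintype.card k ^ m) * (ℓ * e) = Fintype.card k ^ n - 1 := by
      have h4 := Nat.geomSum_eq (m := Fintype.card k) Fintype.one_lt_card n
      have h5 : Fintype.card k - 1 ∣ Fintype.card k ^ n - 1 := by
        simpa using Nat.sub_dvd_pow_sub_pow (Fintype.card k) 1 n
      rw [h4, ← he]
      exact Nat.div_mul_cancel h5
    obtain ⟨u, hu⟩ := IsAlgClosed.exists_pow_nat_eq H hℓ.pos
    refine ⟨u, ?_, hu⟩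
    have hpos : 1 ≤ Fintype.card k ^ n := Nat.one_le_pow _ _ (by omega)
    have h6 : Fintype.card k ^ n =
        ℓ * ((∑ m ∈ Finset.range n, Fintype.card k ^ m) * e) + 1 := by
      have h7 : ℓ * ((∑ m ∈ Finset.range n, Fintype.card k ^ m) * e) = Fintype.card k ^ n - 1 := by
        rw [← hgeo]
        ring
      omega
    rw [h6, pow_succ, pow_mul, hu, pow_mul, ← hb, ← map_pow, ← pow_mul, ← he,
      FiniteField.pow_card_sub_one_eq_one b hb0, map_one, one_mul]

/-- the norm of the product -/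
lemma t16_norm {g D : k[X]} (hm : D.Monic) (hirr : Irreducible D) {n : ℕ}
    (hn : D.natDegree = n) {α : F} (hα : aeval α D = 0) {i : ℕ} (hi : 0 < i) {ℓ : ℕ}
    (hℓ : 0 < ℓ) :
    ∏ m ∈ Finset.range n, (frob8 k F ^ m)
        (∏ c ∈ Frob14.fixS k F i, ((α - aeval c g) * (α - c) ^ (ℓ - 1))) =
      (∏ _c ∈ Frob14.fixS k F i, ((-1 : F) ^ n)) ^ ℓ *
        ((∏ c ∈ Frob14.fixS k F i, aeval c (D.comp g)) *
          (∏ c ∈ Frob14.fixS k F i, aeval c D) ^ (ℓ - 1)) := by
  have h1 : ∀ m, (frob8 k F ^ m)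
        (∏ c ∈ Frob14.fixS k F i, ((α - aeval c g) * (α - c) ^ (ℓ - 1))) =
      ∏ c ∈ Frob14.fixS k F i,
        (((frob8 k F ^ m) α - aeval c g) * ((frob8 k F ^ m) α - c) ^ (ℓ - 1)) := by
    intro m
    apply t16_prod_perm hi m
    intro c
    rw [map_mul, map_pow, map_sub, map_sub, ← aeval_algHom_apply (frob8 k F ^ m : F ≃ₐ[k] F)]
  simp only [h1]
  rw [Finset.prod_comm, ← Finset.prod_pow, ← Finset.prod_pow, ← Finset.prod_mul_distrib,
    ← Finset.prod_mul_distrib]
  apply Finset.prod_congr rfl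
  intro c _
  have h2 : ∀ x : F, ∏ m ∈ Finset.range n, ((frob8 k F ^ m) α - x) = (-1) ^ n * aeval x D := by
    intro x
    rw [aeval_eq_prod hm hirr hn hα x]
    have h3 : ∀ m ∈ Finset.range n, ((frob8 k F ^ m) α - x) =
        (-1) * (x - (frob8 k F ^ m) α) := fun m _ => by ring
    rw [Finset.prod_congr rfl h3, Finset.prod_mul_distrib, Finset.prod_const, Finset.card_range]
  rw [Finset.prod_mul_distrib, Finset.prod_pow, h2, h2, aeval_comp]
  obtain ⟨r, rfl⟩ : ∃ r, ℓ = r + 1 := ⟨ℓ - 1, by omega⟩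
  simp only [Nat.add_sub_cancel]
  rw [mul_pow, pow_succ]
  ring

end

theorem exists_root_of_exceptional {k : Type u} {F : Type*} [Field k] [Fintype k] [Field F]
    [Algebra k F] [Algebra.IsAlgebraic k F] [IsAlgClosed F] {ℓ n : ℕ} (hℓ : ℓ.Prime)
    (hq : ℓ ∣ Fintype.card k - 1) {g D : k[X]} (hg : g.Monic) (hdeg : g.natDegree ≠ 0)
    (hD : D ∈ Superelliptic.exceptional ℓ g n) {α : F} (hα : aeval α D = 0) {i : ℕ} (hi : 0 < i)
    (hin : i < n) :
    ∃ u : F, u ^ (Fintype.card k ^ n) = u ∧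
      u ^ ℓ = ∏ c ∈ Frob14.fixS k F i, ((α - aeval c g) * (α - c) ^ (ℓ - 1)) := by
  obtain ⟨⟨hm, hn, hirr'⟩, hK⟩ := hD
  have hirr := irreducible_of_comp hdeg hirr'
  obtain ⟨p, hp⟩ := CharP.exists k
  have hpp : Fact p.Prime := ⟨CharP.char_is_prime k p⟩
  have hi' : NeZero i := ⟨hi.ne'⟩
  let K := FiniteField.Extension k p i
  have hfin : Finite K := Module.finite_of_finite k
  let _ : Fintype K := Fintype.ofFinite K
  have hrank : Module.finrank k K = i := FiniteField.finrank_extension k p i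
  obtain ⟨a, ha⟩ := hK K (by rw [hrank]; exact hin)
  let σ : K →ₐ[k] F := IsAlgClosed.lift
  have h1 : algebraMap k F (a ^ ℓ) * ∏ c ∈ Frob14.fixS k F i, aeval c D =
      ∏ c ∈ Frob14.fixS k F i, aeval c (D.comp g) := by
    have h2 := prod_fixS_eq (K := K) (fun c : F => aeval c D) σ
    have h3 := prod_fixS_eq (K := K) (fun c : F => aeval c (D.comp g)) σ
    rw [hrank] at h2 h3
    rw [h2, h3]
    have h4 := congrArg σ ha
    rw [map_mul, AlgHom.commutes, map_prod, map_prod] at h4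
    simpa only [aeval_algHom_apply] using h4
  -- the product over the fixed points is in `k`
  have h5 : frob8 k F (∏ c ∈ Frob14.fixS k F i, aeval c D) =
      ∏ c ∈ Frob14.fixS k F i, aeval c D := by
    have h6 := t16_prod_perm (k := k) (F := F) hi 1 (fun c => aeval c D) (fun c => aeval c D)
      (fun c => (aeval_algHom_apply (frob8 k F ^ 1 : F ≃ₐ[k] F) c D).symm)
    rwa [pow_one] at h6
  obtain ⟨d, hd⟩ := mem_range_of_frob8 h5
  have h7 := t16_norm (g := g) hm hirr hn hα hi hℓ.pos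
  apply t16_root hℓ hq (b := (∏ _c ∈ Frob14.fixS k F i, ((-1 : k) ^ n)) * a * d)
  rw [h7, ← h1, ← hd]
  have h8 : (∏ _c ∈ Frob14.fixS k F i, ((-1 : F) ^ n)) =
      algebraMap k F (∏ _c ∈ Frob14.fixS k F i, ((-1 : k) ^ n)) := by
    rw [map_prod]
    simp only [map_pow, map_neg, map_one]
  rw [h8]
  obtain ⟨r, rfl⟩ : ∃ r, ℓ = r + 1 := ⟨ℓ - 1, by have := hℓ.pos; omega⟩
  simp only [Nat.add_sub_cancel, map_mul, map_pow]
  ring

end Pool.Agent.Lib.MP_89bcae_ag.Tw

end

section

/-!
Row T13: the finite field. If `D` is not exceptional, one of the products is not an `ℓ`-th power.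
-/

open Polynomial Finset

namespace Pool.Agent.Lib.MP_89bcae_ag.Tw

open Pool.Agent.Lib.MP_89bcae_ag Pool.Agent.Lib.MP_89bcae_ag.Frob14

universe u

/-- The Frobenius orbit of a root. -/
theorem orb_of_family {k F : Type*} [Field k] [Fintype k] [Field F] [Algebra k F]
    [Algebra.IsAlgebraic k F] [IsAlgClosed F] {m n : ℕ} (hm : 0 < m) (hn : 0 < n) {g D : k[X]}
    (hg : g.Monic) (hdeg : g.natDegree = m) (hD : D.natDegree = n) (hirr : Irreducible (D.comp g))
    {β : F} (hβ : aeval β (D.comp g) = 0) : Orb (frob8 k F) g D m n (aeval β g) β := by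
  refine ⟨hg, hdeg, hm, hn, hD, rfl, ?_, ?_, ?_⟩
  · rw [← aeval_comp]
    exact hβ
  · intro γ hγ
    obtain ⟨i, -, h⟩ := exists_frob8_pow hirr hβ hγ
    exact ⟨i, h⟩
  · intro i
    rw [frob8_pow_eq_iff, ← minpoly.eq_of_irreducible hirr hβ,
      natDegree_mul_leadingCoeff_inv _ hirr.ne_zero, Polynomial.natDegree_comp, hD, hdeg,
      mul_comm n m]

section Aux

variable {k F : Type*} [Field k] [Fintype k] [Field F] [Algebra k F] [Algebra.IsAlgebraic k F]
  [IsAlgClosed F]

omit [IsAlgClosed F] in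
lemma t13_aeval_frob (i : ℕ) (p : k[X]) (x : F) :
    aeval ((frob8 k F ^ i) x) p = (frob8 k F ^ i) (aeval x p) := by
  rw [← AlgEquiv.coe_toAlgHom (frob8 k F ^ _), aeval_algHom_apply]

/-- The product of the `c - x` over the elements of the field with `q ^ i` elements. -/
lemma t13_prod_fixS {i : ℕ} (hi : 0 < i) (x : F) :
    ∏ c ∈ fixS k F i, (c - x) = x - (frob8 k F ^ i) x := by
  classical
  have hcard := card_fixS (k := k) (F := F) hi
  have h1 := one_lt_q_pow (k := k) hi
  have hne : (X ^ (Fintype.card k ^ i) - X : F[X]) ≠ 0 :=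
    FiniteField.X_pow_card_sub_X_ne_zero F h1
  have hmon : (X ^ (Fintype.card k ^ i) - X : F[X]).Monic :=
    monic_X_pow_sub (by rw [degree_X]; exact_mod_cast h1)
  have hnat : (X ^ (Fintype.card k ^ i) - X : F[X]).natDegree = Fintype.card k ^ i :=
    FiniteField.X_pow_card_sub_X_natDegree_eq F h1
  have hval : (fixS k F i).val = (X ^ (Fintype.card k ^ i) - X : F[X]).roots := by
    apply Multiset.eq_of_le_of_card_le
    · unfold fixS
      rw [Multiset.toFinset_val]
      exact Multiset.dedup_le _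
    · refine (card_roots' _).trans ?_
      rw [hnat]
      exact hcard.ge
  have hprod := (IsAlgClosed.splits (X ^ (Fintype.card k ^ i) - X : F[X])).eq_prod_roots
  rw [hmon.leadingCoeff, C_1, one_mul, ← hval] at hprod
  have h3 := congrArg (eval x) hprod
  rw [eval_sub, eval_pow, eval_X] at h3
  have h4 : eval x (Multiset.map (fun a => X - C a) (fixS k F i).val).prod =
      ∏ c ∈ fixS k F i, (x - c) := by
    change eval x (∏ c ∈ fixS k F i, (X - C c)) = _
    rw [eval_prod]
    simp only [eval_sub, eval_X, eval_C]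
  rw [h4] at h3
  have h5 : ∏ c ∈ fixS k F i, (c - x) = (-1) ^ (Fintype.card k ^ i) * ∏ c ∈ fixS k F i, (x - c) := by
    rw [← hcard, ← Finset.prod_const, ← Finset.prod_mul_distrib]
    exact Finset.prod_congr rfl fun c _ => by ring
  have h6 : ((-1 : F)) ^ (Fintype.card k ^ i) = -1 := by
    rw [← frob8_pow_apply (k := k), map_neg, map_one]
  rw [h5, h6, ← h3, frob8_pow_apply]
  ring

/-- The product of the values of `D` over the field with `q ^ i` elements. -/
lemma t13_prod_aeval {D : k[X]} (hm : D.Monic) (hirr : Irreducible D) {n : ℕ}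
    (hn : D.natDegree = n) {α : F} (hα : aeval α D = 0) {i : ℕ} (hi : 0 < i) :
    ∏ c ∈ fixS k F i, aeval c D =
      ∏ t ∈ Finset.range n, (frob8 k F ^ t) (α - (frob8 k F ^ i) α) := by
  rw [Finset.prod_congr rfl fun c _ => aeval_eq_prod hm hirr hn hα c, Finset.prod_comm]
  apply Finset.prod_congr rfl
  intro t _
  rw [t13_prod_fixS hi, map_sub]
  congr 1
  rw [← AlgEquiv.mul_apply, ← AlgEquiv.mul_apply, ← pow_add, ← pow_add, add_comm]

/-- A norm is in `k`. -/
lemma t13_norm_mem {N : ℕ} {x : F} (hx : (frob8 k F ^ N) x = x) :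
    ∃ a : k, algebraMap k F a = ∏ t ∈ Finset.range N, (frob8 k F ^ t) x := by
  apply mem_range_of_frob8
  rw [map_prod]
  have h3 : ∀ t, frob8 k F ((frob8 k F ^ t) x) = (frob8 k F ^ (t + 1)) x := by
    intro t
    rw [pow_succ', AlgEquiv.mul_apply]
  simp only [h3]
  rcases N with _ | N
  · simp
  · rw [Finset.prod_range_succ, hx, Finset.prod_range_succ', pow_zero, AlgEquiv.one_apply]

omit [IsAlgClosed F] in
/-- The norm of an element of the smaller field. -/
lemma t13_norm_pow {n : ℕ} {y : F} (hy : (frob8 k F ^ n) y = y) (m : ℕ) :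
    ∏ t ∈ Finset.range (m * n), (frob8 k F ^ t) y =
      (∏ t ∈ Finset.range n, (frob8 k F ^ t) y) ^ m := by
  induction m with
  | zero => simp
  | succ m ih =>
    rw [Nat.succ_mul, Finset.prod_range_add, ih, pow_succ]
    congr 1
    apply Finset.prod_congr rfl
    intro t _
    rw [add_comm, pow_add, AlgEquiv.mul_apply]
    congr 1
    rw [mul_comm]
    exact frob8_pow_pow n m hy

/-- The fibre of `g` over a conjugate of `α`. -/
lemma t13_fibre {g D : k[X]} {m n : ℕ} {α β : F} (h : Orb (frob8 k F) g D m n α β)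
    (hα : (frob8 k F ^ n) α = α) (i : ℕ) :
    α - (frob8 k F ^ i) α = ∏ t ∈ Finset.range m, (β - (frob8 k F ^ (i + t * n)) β) := by
  classical
  set f : F[X] := g.map (algebraMap k F) - C ((frob8 k F ^ i) α) with hf
  have hgm : (g.map (algebraMap k F)).Monic := h.monic.map _
  have hgd : (g.map (algebraMap k F)).natDegree = m := by rw [natDegree_map, h.deg]
  have hlt : (C ((frob8 k F ^ i) α)).degree < (g.map (algebraMap k F)).degree := by
    refine degree_C_le.trans_lt ?_
    rw [degree_eq_natDegree hgm.ne_zero, hgd]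
    exact_mod_cast h.mpos
  have hfm : f.Monic := hgm.sub_of_left hlt
  have hfd : f.natDegree = m := by
    rw [hf, natDegree_sub_C, hgd]
  set S : Finset F := (Finset.range m).image (fun t => (frob8 k F ^ (i + t * n)) β) with hS
  have hinj : Set.InjOn (fun t => (frob8 k F ^ (i + t * n)) β) (Finset.range m : Set ℕ) := by
    intro a ha b hb hab
    rw [Finset.mem_coe, Finset.mem_range] at ha hb
    have h1 := (frob8_pow_inj h.beta_iff).mp hab
    have h2 : a * n ≡ b * n [MOD m * n] := Nat.ModEq.add_left_cancel' i h1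
    have h3 : a ≡ b [MOD m] := Nat.ModEq.mul_right_cancel' h.pos.ne' h2
    rwa [Nat.ModEq, Nat.mod_eq_of_lt ha, Nat.mod_eq_of_lt hb] at h3
  have hcard : S.card = m := by
    rw [hS, Finset.card_image_of_injOn hinj, Finset.card_range]
  have heq : S.val = f.roots := by
    apply Multiset.eq_of_le_of_card_le
    · rw [Finset.val_le_iff_val_subset]
      intro y hy
      have hy' : y ∈ S := hy
      obtain ⟨t, -, rfl⟩ := Finset.mem_image.mp hy'
      rw [mem_roots hfm.ne_zero, IsRoot.def, hf, eval_sub, eval_C, eval_map_algebraMap]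
      change aeval ((frob8 k F ^ (i + t * n)) β) g - _ = 0
      rw [t13_aeval_frob, h.gβ, pow_add, AlgEquiv.mul_apply, mul_comm t n,
        frob8_pow_pow n t hα, sub_self]
    · refine (card_roots' _).trans ?_
      rw [hfd]
      exact hcard.ge
  have hprod := (IsAlgClosed.splits f).eq_prod_roots
  rw [hfm.leadingCoeff, C_1, one_mul, ← heq] at hprod
  have h3 := congrArg (eval β) hprod
  rw [hf, eval_sub, eval_C, eval_map_algebraMap, h.gβ] at h3
  rw [h3]
  change eval β (∏ c ∈ S, (X - C c)) = _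
  rw [eval_prod, hS, Finset.prod_image hinj]
  simp only [eval_sub, eval_X, eval_C]

end Aux

theorem exists_moves {k : Type u} {F : Type*} [Field k] [Fintype k] [Field F] [Algebra k F]
    [Algebra.IsAlgebraic k F] [IsAlgClosed F] {ℓ m n : ℕ} (hℓ : ℓ.Prime) (hm : 0 < m)
    (hcop : m.Coprime ℓ) (hn : 0 < n) (hq : ℓ ∣ Fintype.card k - 1) {g D : k[X]} (hg : g.Monic)
    (hdeg : g.natDegree = m) (hD : D ∈ family g n)
    (hexc : D ∉ Superelliptic.exceptional ℓ g n) {β : F} (hβ : aeval β (D.comp g) = 0) :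
    ∃ u : ℕ, ¬ n ∣ u ∧ ∀ w : F,
      w ^ ℓ = ((frob8 k F ^ u) β - β) * ((frob8 k F ^ (u + n)) β - β) ^ (ℓ - 1) →
        (frob8 k F ^ (m * n)) w ≠ w := by
  classical
  by_contra hcon
  push Not at hcon
  apply hexc
  refine ⟨hD, ?_⟩
  intro K _ _ _ hK
  obtain ⟨hDm, hDn, hDi⟩ := hD
  set σ := frob8 k F with hσ
  set α : F := aeval β g with hαdef
  have ho : Orb σ g D m n α β := orb_of_family hm hn hg hdeg hDn hDi hβ
  have hcm : (D.comp g).Monic := hDm.comp hg (by rw [hdeg]; exact hm.ne')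
  have hcd : (D.comp g).natDegree = m * n := by
    rw [Polynomial.natDegree_comp, hDn, hdeg, mul_comm]
  -- D itself is irreducible
  have hDirr : Irreducible D := by
    have hd0 : D ≠ 0 := hDm.ne_zero
    rw [hDm.irreducible_iff_natDegree']
    refine ⟨?_, ?_⟩
    · rintro rfl
      rw [one_comp] at hDi
      exact not_irreducible_one hDi
    · intro f h hf hh hfh hdeg2
      have h1 : f.comp g * h.comp g = D.comp g := by rw [← mul_comp, hfh]
      rw [Finset.mem_Ioc] at hdeg2
      have hfd : 0 < f.natDegree := by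
        have h2 := hf.natDegree_mul hh
        rw [hfh] at h2
        omega
      rcases hDi.isUnit_or_isUnit h1.symm with h2 | h2
      · have h3 := natDegree_eq_zero_of_isUnit h2
        rw [Polynomial.natDegree_comp, hdeg] at h3
        have : 0 < f.natDegree * m := Nat.mul_pos hfd hm
        omega
      · have h3 := natDegree_eq_zero_of_isUnit h2
        rw [Polynomial.natDegree_comp, hdeg] at h3
        have : 0 < h.natDegree * m := Nat.mul_pos hdeg2.1 hm
        omega
  have hDα : aeval α D = 0 := ho.Dα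
  have hαiff : ∀ i : ℕ, (σ ^ i) α = α ↔ n ∣ i := by
    intro i
    rw [hσ, frob8_pow_eq_iff, (minpoly.eq_of_irreducible_of_monic hDirr hDα hDm).symm, hDn]
  have hαn : (σ ^ n) α = α := (hαiff n).mpr dvd_rfl
  -- the ℓ-th powers of fixed elements
  let Pw : F → Prop := fun x => ∃ w : F, w ≠ 0 ∧ w ^ ℓ = x ∧ (σ ^ (m * n)) w = w
  have Pone : Pw 1 := ⟨1, one_ne_zero, one_pow _, map_one _⟩
  have Pmul : ∀ x y, Pw x → Pw y → Pw (x * y) := by
    rintro x y ⟨w, h1, h2, h3⟩ ⟨w', h1', h2', h3'⟩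
    exact ⟨w * w', mul_ne_zero h1 h1', by rw [mul_pow, h2, h2'], by rw [map_mul, h3, h3']⟩
  have hfixβ : ∀ s : ℕ, (σ ^ (m * n)) (β - (σ ^ s) β) = β - (σ ^ s) β := by
    intro s
    have h1 : (σ ^ (m * n)) β = β := (ho.beta_iff _).mpr dvd_rfl
    rw [map_sub, h1, ← AlgEquiv.mul_apply, ← pow_add, add_comm, pow_add, AlgEquiv.mul_apply, h1]
  have hne : ∀ s : ℕ, ¬ n ∣ s → β - (σ ^ s) β ≠ 0 := by
    intro s hs h0
    apply hs
    have h1 : (σ ^ s) β = β := (sub_eq_zero.mp h0).symm
    exact (Dvd.intro_left m rfl).trans ((ho.beta_iff s).mp h1)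
  have hnadd : ∀ u t : ℕ, ¬ n ∣ u → ¬ n ∣ u + t * n := by
    intro u t hu h
    exact hu ((Nat.dvd_add_left (Dvd.intro_left t rfl)).mp h)
  have hstep : ∀ u : ℕ, ¬ n ∣ u → Pw ((β - (σ ^ u) β) / (β - (σ ^ (u + n)) β)) := by
    intro u hu
    obtain ⟨w, hw, hfix⟩ := hcon u hu
    have hun : ¬ n ∣ u + n := by
      have := hnadd u 1 hu
      rwa [one_mul] at this
    have h1 := hne u hu
    have h2 := hne (u + n) hun
    have h3 : (σ ^ (u + n)) β - β ≠ 0 := by
      intro h; apply h2; rw [← neg_sub, h, neg_zero]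
    have h4 : (σ ^ u) β - β ≠ 0 := by
      intro h; apply h1; rw [← neg_sub, h, neg_zero]
    have hw0 : w ≠ 0 := by
      rintro rfl
      rw [zero_pow hℓ.ne_zero] at hw
      exact mul_ne_zero h4 (pow_ne_zero _ h3) hw.symm
    refine ⟨w / ((σ ^ (u + n)) β - β), div_ne_zero hw0 h3, ?_, ?_⟩
    · rw [div_pow, hw]
      have h5 : ((σ ^ (u + n)) β - β) ^ ℓ =
          ((σ ^ (u + n)) β - β) * ((σ ^ (u + n)) β - β) ^ (ℓ - 1) := by
        rw [← pow_succ', Nat.sub_add_cancel hℓ.one_le]
      rw [h5, mul_div_mul_right _ _ (pow_ne_zero _ h3), ← neg_sub β, ← neg_sub β, neg_div_neg_eq]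
    · rw [map_div₀, hfix]
      congr 1
      rw [← neg_sub, map_neg, hfixβ]
  have hstep2 : ∀ u t : ℕ, ¬ n ∣ u → Pw ((β - (σ ^ u) β) / (β - (σ ^ (u + t * n)) β)) := by
    intro u t hu
    induction t with
    | zero =>
      rw [zero_mul, add_zero, div_self (hne u hu)]
      exact Pone
    | succ t ih =>
      have h1 := Pmul _ _ ih (hstep (u + t * n) (hnadd u t hu))
      rw [div_mul_div_cancel₀ (hne _ (hnadd u t hu))] at h1
      rwa [Nat.succ_mul, ← add_assoc]
  have hfin : Module.Finite k K := Module.Finite.of_finite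
  set i := Module.finrank k K with hi_def
  have hi : 0 < i := Module.finrank_pos
  have hni : ¬ n ∣ i := fun h => absurd (Nat.le_of_dvd hi h) (not_le.mpr hK)
  have hfib := t13_fibre ho hαn i
  have hPw : Pw ((β - (σ ^ i) β) ^ m / (α - (σ ^ i) α)) := by
    rw [hfib]
    have h1 : (β - (σ ^ i) β) ^ m = ∏ t ∈ Finset.range m, (β - (σ ^ i) β) := by
      rw [Finset.prod_const, Finset.card_range]
    rw [h1, ← Finset.prod_div_distrib]
    exact Finset.prod_induction _ Pw (fun a b ha hb => Pmul a b ha hb) Pone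
      fun t _ => hstep2 i t hni
  obtain ⟨w, hw0, hwl, hwfix⟩ := hPw
  have hα0 : α - (σ ^ i) α ≠ 0 := by
    intro h0
    exact hni ((hαiff i).mp (sub_eq_zero.mp h0).symm)
  have hβ0 : β - (σ ^ i) β ≠ 0 := hne i hni
  have hαfix : (σ ^ n) (α - (σ ^ i) α) = α - (σ ^ i) α := by
    rw [map_sub, hαn, ← AlgEquiv.mul_apply, ← pow_add, add_comm, pow_add, AlgEquiv.mul_apply, hαn]
  -- the norms
  obtain ⟨W, hW⟩ := t13_norm_mem (k := k) hwfix
  obtain ⟨A, hA⟩ := t13_norm_mem (k := k) (hfixβ i)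
  obtain ⟨B, hB⟩ := t13_norm_mem (k := k) hαfix
  have hprod0 : ∀ (M : ℕ) (x : F), x ≠ 0 → ∏ t ∈ Finset.range M, (σ ^ t) x ≠ 0 := by
    intro M x hx
    rw [Finset.prod_ne_zero_iff]
    intro t _ h
    exact hx ((map_eq_zero_iff _ (σ ^ t).injective).mp h)
  have hB0 : B ≠ 0 := by
    rintro rfl
    rw [map_zero] at hB
    exact hprod0 _ _ hα0 hB.symm
  have hA0 : A ≠ 0 := by
    rintro rfl
    rw [map_zero] at hA
    exact hprod0 _ _ hβ0 hA.symm
  have hW0 : W ≠ 0 := by
    rintro rfl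
    rw [map_zero] at hW
    exact hprod0 _ _ hw0 hW.symm
  have hrel : W ^ ℓ = (A / B) ^ m := by
    apply (algebraMap k F).injective
    rw [map_pow, map_pow, map_div₀, hW, hA, hB, div_pow, ← t13_norm_pow hαfix m,
      ← Finset.prod_pow, ← Finset.prod_pow, ← Finset.prod_div_distrib]
    apply Finset.prod_congr rfl
    intro t _
    rw [← map_pow, hwl, map_div₀, map_pow]
  -- Bezout
  obtain ⟨a, ha⟩ : ∃ a : k, a ^ ℓ = A / B := by
    have hP0 : A / B ≠ 0 := div_ne_zero hA0 hB0
    have hbez : (m : ℤ) * Nat.gcdA m ℓ + (ℓ : ℤ) * Nat.gcdB m ℓ = 1 := by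
      have := Nat.gcd_eq_gcd_ab m ℓ
      rw [hcop.gcd_eq_one] at this
      exact_mod_cast this.symm
    refine ⟨W ^ (Nat.gcdA m ℓ) * (A / B) ^ (Nat.gcdB m ℓ), ?_⟩
    have h1 : (W ^ (Nat.gcdA m ℓ) * (A / B) ^ (Nat.gcdB m ℓ)) ^ ℓ =
        (W ^ ℓ) ^ (Nat.gcdA m ℓ) * ((A / B) ^ (ℓ : ℤ)) ^ (Nat.gcdB m ℓ) := by
      rw [mul_pow, ← zpow_natCast, ← zpow_natCast, ← zpow_natCast, ← zpow_mul, ← zpow_mul,
        ← zpow_mul, ← zpow_mul, mul_comm (Nat.gcdA m ℓ), mul_comm (Nat.gcdB m ℓ)]
    rw [h1, hrel, ← zpow_natCast (A / B) m, ← zpow_mul, ← zpow_mul, ← zpow_add₀ hP0, hbez, zpow_one]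
  -- the products over K
  let τ : K →ₐ[k] F := IsAlgClosed.lift
  have hD1 : ∏ c ∈ fixS k F i, aeval c D = algebraMap k F B := by
    rw [t13_prod_aeval hDm hDirr hDn hDα hi, hB]
  have hD2 : ∏ c ∈ fixS k F i, aeval c (D.comp g) = algebraMap k F A := by
    rw [t13_prod_aeval hcm hDi hcd hβ hi, hA]
  have htr : ∀ p : k[X], ∏ c ∈ fixS k F i, aeval c p = τ (∏ c : K, aeval c p) := by
    intro p
    rw [hi_def, prod_fixS_eq (fun c => aeval c p) τ, map_prod]
    exact Finset.prod_congr rfl fun c _ => by rw [aeval_algHom_apply]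
  refine ⟨a, ?_⟩
  have hinj : Function.Injective τ := τ.toRingHom.injective
  apply hinj
  rw [map_mul, τ.commutes, ← htr, ← htr, hD1, hD2, ← map_mul, ha, div_mul_cancel₀ _ hB0]

end Pool.Agent.Lib.MP_89bcae_ag.Tw

end

section

/-!
# Independence from the reduction modulo a maximal ideal
-/

open Polynomial

namespace Pool.Agent.Lib.MP_89bcae_ag.Tw

open Pool.Agent.Lib.MP_89bcae_ag

universe u

set_option linter.unusedSectionVars false
set_option linter.style.haveILetI false

theorem t15_ne_zero {κ : Type u} [Field κ] [Fintype κ] {ℓ : ℕ} (hq : ℓ ∣ Fintype.card κ - 1) :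
    (ℓ : κ) ≠ 0 := by
  intro h0
  obtain ⟨c, hc⟩ := hq
  have h1 : Fintype.card κ = ℓ * c + 1 := by
    have h2 : 0 < Fintype.card κ := Fintype.card_pos
    omega
  have h2 : ((Fintype.card κ : ℕ) : κ) = 0 := FiniteField.cast_card_eq_zero κ
  rw [h1, Nat.cast_add, Nat.cast_mul, h0, zero_mul, zero_add, Nat.cast_one] at h2
  exact one_ne_zero h2


end Pool.Agent.Lib.MP_89bcae_ag.Tw

end
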