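import Mathlib
import Pool.Agent.Lib.MP_89bcae_ag.Tk.K000
import Pool.Agent.Lib.MP_89bcae_ag.Tk.K002
import Pool.Agent.Lib.MP_89bcae_ag.Tk.K006
import Pool.Agent.Lib.MP_89bcae_ag.Tk.K010
import Pool.Agent.Lib.MP_89bcae_ag.Tk.K013
import Pool.Agent.Lib.MP_89bcae_ag.DefsFam45

set_option linter.all false
attribute [local instance 100000] Pool.Agent.Lib.MP_89bcae_ag.Brt.tffFields
attribute [local instance 100000] Pool.Agent.Lib.MP_89bcae_ag.Wt.ifrNF Pool.Agent.Lib.MP_89bcae_ag.Wt.iddNF

namespace Pool.Agent.Lib.MP_89bcae_ag.Sup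
end Pool.Agent.Lib.MP_89bcae_ag.Sup


section

/-!
# Simple collisions of integral polynomials
-/

open Polynomial

open scoped Classical

set_option linter.unusedSimpArgs false
set_option linter.unusedVariables false
set_option linter.unusedSectionVars false

namespace Pool.Agent.Lib.MP_89bcae_ag

/-- A simple collision modulo the prime `p` of polynomials with integral coefficients. -/
def IsCollisionZ8 (p : ℕ) (g D : ℤ[X]) : Prop :=
  ∃ (a : ℤ) (h : (ZMod p)[X]),
    D.map (Int.castRingHom (ZMod p)) = (X - C (a : ZMod p)) ^ 2 * h ∧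
    (((X - C (a : ZMod p)) * h).comp (g.map (Int.castRingHom (ZMod p)))).Separable ∧
    ¬ ((p : ℤ) ^ 2 ∣ D.eval a)


end Pool.Agent.Lib.MP_89bcae_ag

end

section

/-!
# The number of the polynomials with a simple collision modulo `p ^ 2`
-/

open Polynomial

open scoped Classical

set_option linter.unusedSimpArgs false
set_option linter.unusedVariables false
set_option linter.unusedSectionVars false

namespace Pool.Agent.Lib.MP_89bcae_ag

/-- The polynomial with the given coefficients. -/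
noncomputable def polyOf8 {R : Type*} [CommRing R] {n : ℕ} (v : Fin (n + 1) → R) : R[X] :=
  ∑ i : Fin (n + 1), C (v i) * X ^ (i : ℕ)

/-- The reduction modulo `p` of a vector modulo `p ^ 2`. -/
def red8 (p : ℕ) {n : ℕ} (v : Fin (n + 1) → ZMod (p ^ 2)) : Fin (n + 1) → ZMod p :=
  fun i => ZMod.castHom (dvd_pow_self p two_ne_zero) (ZMod p) (v i)

/-- The residue classes modulo `p ^ 2` of the polynomials with a simple collision. -/
def TypeC8 (p : ℕ) (g : ℤ[X]) (n : ℕ) (v : Fin (n + 1) → ZMod (p ^ 2)) : Prop :=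
  ∃ (a : ℤ) (h : (ZMod p)[X]), polyOf8 (red8 p v) = (X - C (a : ZMod p)) ^ 2 * h ∧
    (((X - C (a : ZMod p)) * h).comp (g.map (Int.castRingHom (ZMod p)))).Separable ∧
    ∑ i : Fin (n + 1), v i * (a : ZMod (p ^ 2)) ^ (i : ℕ) ≠ 0 ∧ red8 p v (Fin.last n) ≠ 0

theorem polyOf_coeff8 {R : Type*} [CommRing R] {n : ℕ} {D : R[X]} (hD : D.natDegree ≤ n) :
    polyOf8 (fun i : Fin (n + 1) => D.coeff i) = D := by
  unfold polyOf8
  rw [Fin.sum_univ_eq_sum_range (fun i => C (D.coeff i) * X ^ i)]
  exact (as_sum_range_C_mul_X_pow' _ (Nat.lt_succ_of_le hD)).symm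

theorem isCollisionZ8_of_typeC8 {p : ℕ} {g : ℤ[X]} {n : ℕ} {D : ℤ[X]} (hD : D.natDegree ≤ n)
    (h : TypeC8 p g n (fun i => (D.coeff i : ZMod (p ^ 2)))) :
    IsCollisionZ8 p g D ∧ ¬ (p : ℤ) ∣ D.coeff n := by
  obtain ⟨a, h, h1, h2, h3, h4⟩ := h
  have hred : red8 p (fun i : Fin (n + 1) => (D.coeff i : ZMod (p ^ 2))) =
      fun i : Fin (n + 1) => (D.map (Int.castRingHom (ZMod p))).coeff i := by
    funext i
    unfold red8
    rw [map_intCast, coeff_map]
    rfl
  refine ⟨⟨a, h, ?_, h2, ?_⟩, ?_⟩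
  · rw [← h1, hred, polyOf_coeff8 (natDegree_map_le.trans hD)]
  · intro hdvd
    apply h3
    have h5 : ((D.eval a : ℤ) : ZMod (p ^ 2)) = 0 := by
      rw [ZMod.intCast_zmod_eq_zero_iff_dvd]
      exact_mod_cast hdvd
    rw [← h5, eval_eq_sum_range' (Nat.lt_succ_of_le hD)]
    rw [← Fin.sum_univ_eq_sum_range (fun i => D.coeff i * a ^ i)]
    push_cast
    rfl
  · intro hdvd
    apply h4
    rw [hred]
    show (D.map (Int.castRingHom (ZMod p))).coeff (Fin.last n : ℕ) = 0
    rw [Fin.val_last, coeff_map]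
    exact (ZMod.intCast_zmod_eq_zero_iff_dvd _ _).mpr hdvd

section Crit

variable {K : Type*} [Field K]


end Crit

section Count

variable {p : ℕ} [Fact p.Prime]

/-- The polynomial with the leading coefficient `c`, the simple roots `S \ {a}` and the double root
`a`. -/
noncomputable def polC8 (c : ZMod p) (S : Finset (ZMod p)) (a : ZMod p) : (ZMod p)[X] :=
  C c * ((X - C a) * ∏ e ∈ S, (X - C e))

theorem natDegree_polC8 {c : ZMod p} (hc : c ≠ 0) (S : Finset (ZMod p)) (a : ZMod p) :
    (polC8 c S a).natDegree = S.card + 1 ∧ (polC8 c S a).leadingCoeff = c := by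
  have h1 : (∏ e ∈ S, (X - C e : (ZMod p)[X])).Monic := monic_prod_X_sub_C _ _
  have h2 : ((X - C a) * ∏ e ∈ S, (X - C e : (ZMod p)[X])).Monic := (monic_X_sub_C a).mul h1
  unfold polC8
  constructor
  · rw [natDegree_C_mul hc, (monic_X_sub_C a).natDegree_mul h1, natDegree_X_sub_C,
      natDegree_prod_of_monic _ _ (fun e _ => monic_X_sub_C e)]
    simp
    ring
  · rw [leadingCoeff_mul, leadingCoeff_C, h2.leadingCoeff, mul_one]

theorem roots_polC8 {c : ZMod p} (hc : c ≠ 0) (S : Finset (ZMod p)) {a : ZMod p} (ha : a ∈ S) :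
    (polC8 c S a).roots.toFinset = S := by
  have h1 : (∏ e ∈ S, (X - C e : (ZMod p)[X])).Monic := monic_prod_X_sub_C _ _
  have h2 : ((X - C a) * ∏ e ∈ S, (X - C e : (ZMod p)[X])).Monic := (monic_X_sub_C a).mul h1
  unfold polC8
  rw [roots_C_mul _ hc, roots_mul h2.ne_zero, roots_X_sub_C, roots_prod_X_sub_C]
  ext x
  simp
  intro h
  rw [h]; exact ha

theorem polC8_eq {c : ZMod p} {S : Finset (ZMod p)} {a : ZMod p} (ha : a ∈ S) :
    polC8 c S a = (X - C a) ^ 2 * (C c * ∏ e ∈ S.erase a, (X - C e)) := by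
  unfold polC8
  rw [← Finset.mul_prod_erase S _ ha]
  ring

theorem separable_polC8 {c : ZMod p} (hc : c ≠ 0) {S : Finset (ZMod p)} {a : ZMod p} (ha : a ∈ S)
    {g : (ZMod p)[X]} (hS : ∀ e ∈ S, (g - C e).Separable) :
    (((X - C a) * (C c * ∏ e ∈ S.erase a, (X - C e))).comp g).Separable := by
  have h1 : ((X - C a) * (C c * ∏ e ∈ S.erase a, (X - C e))).comp g =
      C c * ∏ e ∈ S, (g - C e) := by
    rw [mul_left_comm, Finset.mul_prod_erase S (fun e => (X - C e : (ZMod p)[X])) ha, mul_comp,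
      C_comp, prod_comp]
    congr 1
    exact Finset.prod_congr rfl fun e _ => by rw [sub_comp, X_comp, C_comp]
  rw [h1]
  have h2 : (∏ e ∈ S, (g - C e)).Separable := by
    apply separable_prod'
    · intro x hx y hy hxy
      refine ⟨C ((y - x)⁻¹), -C ((y - x)⁻¹), ?_⟩
      have h3 : C ((y - x)⁻¹) * C (y - x) = (1 : (ZMod p)[X]) := by
        rw [← C_mul, inv_mul_cancel₀ (sub_ne_zero.mpr (Ne.symm hxy)), C_1]
      rw [C_sub] at h3
      linear_combination h3
    · exact hS
  have h3 : (C c : (ZMod p)[X]).Separable := separable_C c |>.mpr (isUnit_iff_ne_zero.mpr hc)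
  refine h3.mul h2 ⟨C c⁻¹, 0, ?_⟩
  rw [zero_mul, add_zero, ← C_mul, inv_mul_cancel₀ hc, C_1]

/-- The number of the lifts of a set of vectors modulo `p`. -/
theorem card_lift8 (k : ℕ) (B : Finset (Fin (k + 1) → ZMod p)) :
    B.card * p ^ (k + 1) ≤
      (Finset.univ.filter fun v : Fin (k + 1) → ZMod (p ^ 2) => red8 p v ∈ B).card := by
  have hp : p.Prime := Fact.out
  have hp0 : 0 < p := hp.pos
  have : NeZero p := ⟨hp0.ne'⟩
  have h1 : (B ×ˢ (Finset.univ : Finset (Fin (k + 1) → Fin p))).card = B.card * p ^ (k + 1) := by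
    rw [Finset.card_product, Finset.card_univ, Fintype.card_fun, Fintype.card_fin,
      Fintype.card_fin]
  rw [← h1]
  have hlt : ∀ (b : ZMod p) (w : Fin p), b.val + p * (w : ℕ) < p ^ 2 := by
    intro b w
    have h2 := ZMod.val_lt b
    have h3 := w.2
    have h4 : p * ((w : ℕ) + 1) ≤ p * p := Nat.mul_le_mul_left p h3
    rw [sq]
    nlinarith
  apply Finset.card_le_card_of_injOn
    (fun q i => (((q.1 i).val + p * (q.2 i : ℕ) : ℕ) : ZMod (p ^ 2)))
  · rintro ⟨b, w⟩ hq
    rw [Finset.mem_coe, Finset.mem_product] at hq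
    rw [Finset.mem_coe, Finset.mem_filter]
    refine ⟨Finset.mem_univ _, ?_⟩
    have h2 : red8 p (fun i => (((b i).val + p * (w i : ℕ) : ℕ) : ZMod (p ^ 2))) = b := by
      funext i
      unfold red8
      rw [map_natCast]
      push_cast
      rw [ZMod.natCast_self, zero_mul, add_zero, ZMod.natCast_zmod_val]
    show red8 p (fun i => (((b i).val + p * (w i : ℕ) : ℕ) : ZMod (p ^ 2))) ∈ B
    rw [h2]
    exact hq.1
  · rintro ⟨b, w⟩ _ ⟨b', w'⟩ _ h
    have h2 : ∀ i, (b i).val + p * (w i : ℕ) = (b' i).val + p * (w' i : ℕ) := by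
      intro i
      have h3 := congrFun h i
      change (((b i).val + p * (w i : ℕ) : ℕ) : ZMod (p ^ 2)) =
        (((b' i).val + p * (w' i : ℕ) : ℕ) : ZMod (p ^ 2)) at h3
      rw [ZMod.natCast_eq_natCast_iff] at h3
      exact Nat.ModEq.eq_of_lt_of_lt h3 (hlt _ _) (hlt _ _)
    have h3 : b = b' := by
      funext i
      apply ZMod.val_injective
      have h4 := congrArg (· % p) (h2 i)
      simp only [Nat.add_mul_mod_self_left, Nat.mod_eq_of_lt (ZMod.val_lt _)] at h4
      exact h4
    subst h3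
    have h4 : w = w' := by
      funext i
      apply Fin.ext
      have h5 := h2 i
      exact Nat.eq_of_mul_eq_mul_left hp0 (by omega)
    rw [h4]

/-- A root chosen in a nonempty set. -/
noncomputable def pick8 (S : Finset (ZMod p)) : ZMod p := if h : S.Nonempty then h.choose else 0

theorem pick_mem8 {S : Finset (ZMod p)} (h : S.Nonempty) : pick8 S ∈ S := by
  unfold pick8
  rw [dif_pos h]
  exact h.choose_spec

/-- The number of the polynomials modulo `p` with one double root. -/
theorem card_polC8 (m : ℕ) (hm : 1 ≤ m) (A : Finset (ZMod p)) :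
    (((Finset.univ.filter fun c : ZMod p => c ≠ 0) ×ˢ A.powersetCard m).image
      (fun q => fun i : Fin (m + 2) => (polC8 q.1 q.2 (pick8 q.2)).coeff i)).card =
      (p - 1) * A.card.choose m := by
  have hp : p.Prime := Fact.out
  have : NeZero p := ⟨hp.ne_zero⟩
  rw [Finset.card_image_of_injOn, Finset.card_product, Finset.card_powersetCard]
  · congr 1
    rw [Finset.filter_ne', Finset.card_erase_of_mem (Finset.mem_univ _), Finset.card_univ,
      ZMod.card]
  · rintro ⟨c, S⟩ hq ⟨c', S'⟩ hq' h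
    rw [Finset.mem_coe, Finset.mem_product, Finset.mem_filter, Finset.mem_powersetCard] at hq hq'
    have hc : c ≠ 0 := hq.1.2
    have hc' : c' ≠ 0 := hq'.1.2
    have hS : S.card = m := hq.2.2
    have hS' : S'.card = m := hq'.2.2
    have hne : S.Nonempty := Finset.card_pos.mp (by omega)
    have hne' : S'.Nonempty := Finset.card_pos.mp (by omega)
    obtain ⟨h1, h2⟩ := natDegree_polC8 hc S (pick8 S)
    obtain ⟨h1', h2'⟩ := natDegree_polC8 hc' S' (pick8 S')
    have h3 : polC8 c S (pick8 S) = polC8 c' S' (pick8 S') := by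
      rw [← polyOf_coeff8 (n := m + 1) (D := polC8 c S (pick8 S)) (by omega),
        ← polyOf_coeff8 (n := m + 1) (D := polC8 c' S' (pick8 S')) (by omega)]
      exact congrArg polyOf8 h
    have h4 : c = c' := by rw [← h2, h3, h2']
    have h5 : S = S' := by
      rw [← roots_polC8 hc S (pick_mem8 hne), h3, roots_polC8 hc' S' (pick_mem8 hne')]
    rw [h4, h5]


end Count


end Pool.Agent.Lib.MP_89bcae_ag

end

section

/-!
# The family of the monic `D` of degree `n` with `D(g(x))` irreducible: elementary lemmas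
-/

open Polynomial IntermediateField

namespace Pool.Agent.Lib.MP_89bcae_ag

universe u

section Basic

variable {k : Type u} [Field k]

lemma family_finite8 [Finite k] (g : k[X]) (n : ℕ) : (family g n).Finite := by
  have hinj : Set.InjOn (fun D : k[X] => fun i : Fin (n + 1) => D.coeff i) (family g n) := by
    rintro D ⟨-, h1, -⟩ D' ⟨-, h1', -⟩ h
    ext i
    by_cases hi : i < n + 1
    · exact congrFun h ⟨i, hi⟩
    · rw [coeff_eq_zero_of_natDegree_lt (by omega), coeff_eq_zero_of_natDegree_lt (by omega)]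
  exact Set.Finite.of_finite_image (Set.toFinite _) hinj


end Basic


open scoped Classical in
/-- The roots of the polynomials of a finite set of monic irreducible polynomials of degree `n`. -/
lemma exists_roots_card8 {k F : Type u} [Field k] [Fintype k] [Field F] [Algebra k F]
    [IsAlgClosure k F] (n : ℕ) (S : Finset k[X])
    (hS : ∀ D ∈ S, D.Monic ∧ D.natDegree = n ∧ Irreducible D) :
    ∃ A : Finset F, (∀ a, a ∈ A ↔ minpoly k a ∈ S) ∧ A.card = n * S.card := by
  have hF : IsAlgClosed F := IsAlgClosure.isAlgClosed k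
  have hkF : Algebra.IsAlgebraic k F := IsAlgClosure.isAlgebraic
  have key : ∀ D ∈ S, ∀ a : F, a ∈ (D.aroots F).toFinset ↔ minpoly k a = D := by
    intro D hD a
    obtain ⟨h1, -, h3⟩ := hS D hD
    rw [Multiset.mem_toFinset, mem_aroots]
    constructor
    · rintro ⟨-, h4⟩
      exact (minpoly.eq_of_irreducible_of_monic h3 h4 h1).symm
    · intro h4
      exact ⟨h3.ne_zero, by rw [← h4, minpoly.aeval]⟩
  refine ⟨S.biUnion fun D => (D.aroots F).toFinset, fun a => ?_, ?_⟩
  · rw [Finset.mem_biUnion]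
    constructor
    · rintro ⟨D, hD, h⟩
      rw [(key D hD a).mp h]
      exact hD
    · intro h
      exact ⟨_, h, (key _ h a).mpr rfl⟩
  · rw [Finset.card_biUnion]
    · rw [Finset.sum_const_nat (m := n), mul_comm]
      intro D hD
      obtain ⟨h1, h2, h3⟩ := hS D hD
      have hsep : D.Separable := PerfectField.separable_of_irreducible h3
      have h4 : (D.aroots F).Nodup := nodup_roots hsep.map
      rw [Multiset.toFinset_card_of_nodup h4, aroots_def,
        ← (IsAlgClosed.splits (D.map (algebraMap k F))).natDegree_eq_card_roots, natDegree_map, h2]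
    · intro D hD D' hD' hne
      rw [Function.onFun, Finset.disjoint_left]
      intro a ha ha'
      exact hne (((key D hD a).mp ha).symm.trans ((key D' hD' a).mp ha'))


end Pool.Agent.Lib.MP_89bcae_ag

end

section

/-!
# The extension generated by the `ℓ`-th roots of unity is unramified outside of `ℓ`
-/

open Polynomial WithZero IsDedekindDomain

open scoped Classical Pointwise

set_option linter.unusedSimpArgs false
set_option linter.unusedVariables false
set_option linter.unusedSectionVars false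
set_option linter.style.haveILetI false

namespace Pool.Agent.Lib.MP_89bcae_ag

universe u

/-- An unramified discrete valuation ring in the field generated by the roots of unity. -/
theorem exists_unramified8 {R₀ k : Type*} {K : Type u} [CommRing R₀] [IsDomain R₀]
    [IsDiscreteValuationRing R₀] [Field k]
    [Algebra R₀ k] [IsFractionRing R₀ k] [Field K] [Algebra k K] [Algebra R₀ K]
    [IsScalarTower R₀ k K] [FiniteDimensional k K] [IsGalois k K] {ℓ : ℕ}
    (hℓ : (ℓ : IsLocalRing.ResidueField R₀) ≠ 0) {ζ : K} (hζ : IsPrimitiveRoot ζ ℓ)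
    (hgen : ∀ σ : K ≃ₐ[k] K, σ ζ = ζ → σ = 1) :
    ∃ (R : Type u) (_ : CommRing R) (_ : IsDomain R) (_ : IsDiscreteValuationRing R)
      (_ : Algebra R₀ R) (_ : Algebra R K) (_ : IsScalarTower R₀ R K) (_ : IsFractionRing R K),
      ∀ (r : R₀) (n : ℕ), algebraMap R₀ R r ∈ IsLocalRing.maximalIdeal R ^ n ↔
        r ∈ IsLocalRing.maximalIdeal R₀ ^ n := by
  have hℓ0 : ℓ ≠ 0 := by
    rintro rfl
    exact hℓ Nat.cast_zero
  have : NeZero ℓ := ⟨hℓ0⟩
  -- the integral closure
  let B := integralClosure R₀ K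
  haveI : IsDedekindDomain B := integralClosure.isDedekindDomain R₀ k K
  haveI : Module.Finite R₀ B := IsIntegralClosure.finite R₀ k K B
  haveI : IsFractionRing B K := integralClosure.isFractionRing_of_finite_extension k K
  haveI : SMulCommClass (K ≃ₐ[k] K) R₀ K := ⟨fun σ r x => by
    rw [AlgEquiv.smul_def, AlgEquiv.smul_def, Algebra.smul_def, Algebra.smul_def, map_mul,
      IsScalarTower.algebraMap_apply R₀ k K, AlgEquiv.commutes]⟩
  haveI : IsGaloisGroup (K ≃ₐ[k] K) R₀ B := IsGaloisGroup.of_isFractionRing _ _ _ k K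
  have hinjK : Function.Injective (algebraMap R₀ K) := by
    rw [IsScalarTower.algebraMap_eq R₀ k K]
    exact (algebraMap k K).injective.comp (IsFractionRing.injective R₀ k)
  have hinjB : Function.Injective (algebraMap B K) := Subtype.val_injective
  haveI : FaithfulSMul R₀ B := by
    rw [faithfulSMul_iff_algebraMap_injective]
    intro x y hxy
    exact hinjK (congrArg (algebraMap B K) hxy)
  haveI : Module.IsTorsionFree R₀ B := FaithfulSMul.to_isTorsionFree R₀ B
  haveI : Module.Flat R₀ B := inferInstance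
  let v : HeightOneSpectrum R₀ := IsDiscreteValuationRing.maximalIdeal R₀
  have hvmax : v.asIdeal.IsMaximal := v.isMaximal
  obtain ⟨P, hPmax, hPv⟩ := Ideal.exists_maximal_ideal_liesOver_of_isIntegral (S := B) v.asIdeal
  have hP0 : P ≠ ⊥ := Ideal.ne_bot_of_liesOver_of_ne_bot v.ne_bot P
  let w : HeightOneSpectrum B := ⟨P, hPmax.isPrime, hP0⟩
  have hwv : w.asIdeal.LiesOver v.asIdeal := hPv
  have hmP : ∀ r : R₀, algebraMap R₀ B r ∈ P ↔ r ∈ IsLocalRing.maximalIdeal R₀ := by
    intro r
    have h1 : r ∈ Ideal.comap (algebraMap R₀ B) P ↔ r ∈ v.asIdeal := by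
      rw [← Ideal.under_def, ← hPv.over]
    exact h1
  -- the inertia group is trivial
  letI : Field (B ⧸ P) := Ideal.Quotient.field P
  have hζi : IsIntegral R₀ ζ := by
    refine ⟨X ^ ℓ - 1, monic_X_pow_sub_C 1 hℓ0, ?_⟩
    rw [eval₂_sub, eval₂_pow, eval₂_X, hζ.pow_eq_one, eval₂_one, sub_self]
  let ζB : B := ⟨ζ, hζi⟩
  have hζB : ζB ^ ℓ = 1 := Subtype.ext hζ.pow_eq_one
  have hℓP : Ideal.Quotient.mk P (ℓ : B) ≠ 0 := by
    rw [Ne, Ideal.Quotient.eq_zero_iff_mem]
    intro h1
    apply hℓ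
    have h2 : algebraMap R₀ B (ℓ : R₀) ∈ P := by rwa [map_natCast]
    rw [hmP] at h2
    have h3 := (IsLocalRing.residue_eq_zero_iff (ℓ : R₀)).mpr h2
    rwa [map_natCast] at h3
  have hζP : ∀ x y : B, x ^ ℓ = 1 → y ^ ℓ = 1 → x - y ∈ P → x = y := by
    intro x y hx hy hxy
    by_contra hne
    -- `x` and `y` are distinct roots of `X ^ ℓ - 1`
    have h1 : ((X ^ ℓ - C (1 : B)).map (Ideal.Quotient.mk P)).Separable := by
      rw [Polynomial.map_sub, Polynomial.map_pow, map_X, map_C, map_one]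
      apply separable_X_pow_sub_C _ _ one_ne_zero
      rw [map_natCast] at hℓP
      exact hℓP
    have hroot : ∀ z : B, z ^ ℓ = 1 → (X ^ ℓ - C (1 : B)).IsRoot z := fun z hz => by
      rw [IsRoot.def, eval_sub, eval_pow, eval_X, eval_C, hz, sub_self]
    obtain ⟨H, hH⟩ := dvd_iff_isRoot.mpr (hroot x hx)
    have h2 := hroot y hy
    rw [hH, IsRoot.def, eval_mul, eval_sub, eval_X, eval_C] at h2
    have h3 : H.IsRoot y := (mul_eq_zero.mp h2).resolve_left fun h => hne (sub_eq_zero.mp h).symm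
    obtain ⟨H', hH'⟩ := dvd_iff_isRoot.mpr h3
    have hxy' : Ideal.Quotient.mk P x = Ideal.Quotient.mk P y := by
      rw [← sub_eq_zero, ← map_sub, Ideal.Quotient.eq_zero_iff_mem]
      exact hxy
    rw [hH, hH', Polynomial.map_mul, Polynomial.map_mul, Polynomial.map_sub, Polynomial.map_sub,
      map_X, map_C, map_C, hxy', ← mul_assoc] at h1
    have h4 : (X - C (Ideal.Quotient.mk P y)) * (X - C (Ideal.Quotient.mk P y)) ∣
        (X - C (Ideal.Quotient.mk P y)) * (X - C (Ideal.Quotient.mk P y)) *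
          H'.map (Ideal.Quotient.mk P) := Dvd.intro _ rfl
    exact not_isUnit_X_sub_C _ (h1.squarefree _ h4)
  have hinertia : ∀ σ ∈ P.inertia (K ≃ₐ[k] K), σ = 1 := by
    intro σ hσ
    apply hgen
    have h1 : σ • ζB - ζB ∈ P := hσ ζB
    have h2 : (σ • ζB) ^ ℓ = 1 := by
      rw [← smul_pow', hζB, smul_one]
    exact congrArg Subtype.val (hζP _ _ h2 hζB h1)
  have he : v.asIdeal.ramificationIdx' w.asIdeal ≤ 1 := by
    have h1 : v.asIdeal.ramificationIdx' w.asIdeal ≤ Nat.card (P.inertia (K ≃ₐ[k] K)) := by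
      rw [Ideal.ramificationIdx'_eq_ramificationIdx v.asIdeal w.asIdeal v.ne_bot]
      exact ramificationIdx_le_card_inertia7 v.asIdeal P
    refine h1.trans ?_
    have : Subsingleton (P.inertia (K ≃ₐ[k] K)) :=
      ⟨fun σ τ => Subtype.ext ((hinertia σ σ.2).trans (hinertia τ τ.2).symm)⟩
    exact Finite.card_le_one_iff_subsingleton.mpr this
  set e := v.asIdeal.ramificationIdx' w.asIdeal with hedef
  have hWk : ∀ r : R₀, w.intValuation (algebraMap R₀ B r) = v.intValuation r ^ e := by
    intro r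
    have h1 := HeightOneSpectrum.valuation_liesOver K v w (algebraMap R₀ k r)
    rw [← IsScalarTower.algebraMap_apply] at h1
    have h2 : w.intValuation (algebraMap R₀ B r) = w.valuation K (algebraMap R₀ K r) := by
      rw [← w.valuation_of_algebraMap (K := K)]
      rfl
    rw [h2, ← h1]
    congr 1
    exact HeightOneSpectrum.valuation_of_algebraMap (K := k) v r
  have he1 : e = 1 := by
    rcases Nat.eq_zero_or_pos e with h0 | h0
    · exfalso
      obtain ⟨ϖ, hϖ⟩ := v.intValuation_exists_uniformizer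
      have h1 : ϖ ∈ IsLocalRing.maximalIdeal R₀ := by
        have h2 : v.intValuation ϖ ≤ exp (-((1 : ℕ) : ℤ)) := by rw [hϖ]; simp
        have h3 := (v.intValuation_le_pow_iff_mem ϖ 1).mp h2
        rw [pow_one] at h3
        exact h3
      have h2 : w.intValuation (algebraMap R₀ B ϖ) < 1 :=
        (w.intValuation_lt_one_iff_mem _).mpr ((hmP ϖ).mpr h1)
      rw [hWk, h0, pow_zero] at h2
      exact lt_irrefl _ h2
    · omega
  have hWk1 : ∀ r : R₀, w.intValuation (algebraMap R₀ B r) = v.intValuation r := fun r => by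
    rw [hWk, he1, pow_one]
  -- the localisation
  haveI hPp : P.IsPrime := hPmax.isPrime
  let R := Localization.AtPrime P
  have hle : P.primeCompl ≤ nonZeroDivisors B := Ideal.primeCompl_le_nonZeroDivisors _
  let φ : R →+* K := IsLocalization.lift (M := P.primeCompl) (g := algebraMap B K) (by
      intro y
      rw [isUnit_iff_ne_zero]
      exact (map_ne_zero_iff _ hinjB).mpr (nonZeroDivisors.ne_zero (hle y.2)))
  letI : Algebra R K := φ.toAlgebra
  have hst : IsScalarTower B R K := IsScalarTower.of_algebraMap_eq fun r =>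
    (IsLocalization.lift_eq _ r).symm
  haveI : IsScalarTower R₀ B R := inferInstance
  have hst2 : IsScalarTower R₀ R K := IsScalarTower.of_algebraMap_eq fun r => by
    rw [IsScalarTower.algebraMap_apply R₀ B R, ← IsScalarTower.algebraMap_apply B R K]
    rfl
  have hDVR : IsDiscreteValuationRing R :=
    IsLocalization.AtPrime.isDiscreteValuationRing_of_dedekind_domain B hP0 _
  have hfr : IsFractionRing R K :=
    IsFractionRing.isFractionRing_of_isDomain_of_isLocalization P.primeCompl R K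
  have hmax : IsLocalRing.maximalIdeal R = P.map (algebraMap B R) :=
    (IsLocalization.AtPrime.map_eq_maximalIdeal P R).symm
  have hpow : ∀ (b : B) (n : ℕ), algebraMap B R b ∈ IsLocalRing.maximalIdeal R ^ n ↔ b ∈ P ^ n := by
    intro b n
    rw [hmax, ← Ideal.map_pow]
    constructor
    · intro h1
      obtain ⟨⟨⟨a, ha⟩, s⟩, hs⟩ := (IsLocalization.mem_map_algebraMap_iff P.primeCompl R).mp h1
      have hinjR : Function.Injective (algebraMap B R) := IsLocalization.injective R hle
      have h2 : b * s = a := by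
        apply hinjR
        rw [map_mul]
        exact hs
      have h3 : w.intValuation a ≤ exp (-(n : ℤ)) := (w.intValuation_le_pow_iff_mem a n).mpr ha
      have h4 : w.intValuation (s : B) = 1 := by
        rw [w.intValuation_eq_one_iff_mem_primeCompl]
        exact s.2
      rw [← h2, map_mul, h4, mul_one] at h3
      exact (w.intValuation_le_pow_iff_mem b n).mp h3
    · exact fun h1 => Ideal.mem_map_of_mem _ h1
  refine ⟨R, inferInstance, inferInstance, hDVR, inferInstance, inferInstance, hst2, hfr,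
    fun r n => ?_⟩
  rw [IsScalarTower.algebraMap_apply R₀ B R, hpow]
  have h2 := w.intValuation_le_pow_iff_mem (algebraMap R₀ B r) n
  have h3 := v.intValuation_le_pow_iff_mem r n
  rw [hWk1, h3] at h2
  exact h2.symm


end Pool.Agent.Lib.MP_89bcae_ag

end

section

/-!
# An automorphism which acts on the roots of a polynomial as Frobenius on the roots of its reduction
-/

open Polynomial

namespace Pool.Agent.Lib.MP_89bcae_ag

set_option linter.unusedSectionVars false
set_option linter.style.haveILetI false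

variable {R K F κ Fκ : Type*} [CommRing R] [IsDomain R] [IsIntegrallyClosed R] [Field K]
  [Algebra R K] [IsFractionRing R K] [Field F] [Algebra K F] [Algebra R F] [IsScalarTower R K F]
  [IsAlgClosed F] [Algebra.IsAlgebraic K F]
  [Field κ] [Fintype κ] [Field Fκ] [Algebra κ Fκ] [Algebra.IsAlgebraic κ Fκ] [IsAlgClosed Fκ]

/-- A root of a polynomial with invertible leading coefficient is integral. -/
lemma integral_root14 {f : R[X]} (hu : IsUnit f.leadingCoeff) {x : F} (hx : aeval x f = 0) :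
    IsIntegral R x := by
  obtain ⟨u, hu⟩ := hu
  refine ⟨C (↑u⁻¹ : R) * f, ?_, ?_⟩
  · rw [Monic, leadingCoeff_mul, leadingCoeff_C, ← hu]
    exact u.inv_mul
  · rw [eval₂_mul]
    change _ * aeval x f = 0
    rw [hx, mul_zero]

/-- The reduction of a root is a root. -/
lemma red_root14 {π : R →+* κ} {ρ : integralClosure R F →+* Fκ}
    (hρ : ∀ r, ρ (algebraMap R (integralClosure R F) r) = algebraMap κ Fκ (π r))
    {f : R[X]} {x : F} (hi : IsIntegral R x) (hx : aeval x f = 0) :
    aeval (ρ ⟨x, hi⟩) (f.map π) = 0 := by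
  have h1 : aeval (⟨x, hi⟩ : integralClosure R F) f = 0 := by
    apply Subtype.ext
    have h2 : ((aeval (⟨x, hi⟩ : integralClosure R F) f : integralClosure R F) : F) = aeval x f := by
      rw [← Subalgebra.coe_val, ← aeval_algHom_apply]
      rfl
    rw [h2, hx]
    rfl
  rw [aeval_def, eval₂_map]
  have h2 : (algebraMap κ Fκ).comp π = ρ.comp (algebraMap R (integralClosure R F)) :=
    RingHom.ext fun r => (hρ r).symm
  rw [h2, ← hom_eval₂]
  change ρ (aeval (⟨x, hi⟩ : integralClosure R F) f) = 0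
  rw [h1, map_zero]

variable (F) in
/-- The polynomial is separable if its reduction is. -/
lemma separable_of_red14 [FaithfulSMul R F] {π : R →+* κ} (hπ : Function.Surjective π) {f : R[X]}
    (hu : IsUnit f.leadingCoeff) (hs : (f.map π).Separable) :
    (f.map (algebraMap R K)).Separable := by
  obtain ⟨ρ, hρ⟩ := exists_red14 (F := F) (Fκ := AlgebraicClosure κ) π hπ
  rw [← separable_map (algebraMap K F), Polynomial.map_map, ← IsScalarTower.algebraMap_eq,
    Polynomial.Separable, isCoprime_iff_aeval_ne_zero_of_isAlgClosed (k := F) F]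
  intro a
  by_contra hcon
  push Not at hcon
  obtain ⟨h1, h2⟩ := hcon
  rw [← eval_map_algebraMap, Polynomial.map_map, Algebra.algebraMap_self, RingHom.id_comp,
    eval_map_algebraMap] at h1
  rw [derivative_map, ← eval_map_algebraMap, Polynomial.map_map, Algebra.algebraMap_self,
    RingHom.id_comp, eval_map_algebraMap] at h2
  have hi := integral_root14 hu h1
  have h3 := red_root14 hρ hi h1
  have h4 := red_root14 hρ hi h2
  rw [← derivative_map] at h4
  obtain ⟨a', b', hab⟩ := hs
  have h5 := congrArg (aeval (ρ ⟨a, hi⟩)) hab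
  rw [map_add, map_mul, map_mul, h3, h4, mul_zero, mul_zero, add_zero, map_one] at h5
  exact zero_ne_one h5


end Pool.Agent.Lib.MP_89bcae_ag

end

section

/-!
# Discrete valuation rings over a prime number in the field of the `ℓ`-th roots of unity
-/

open Polynomial

open scoped Classical

set_option linter.unusedSimpArgs false
set_option linter.unusedVariables false
set_option linter.unusedSectionVars false
set_option linter.style.haveILetI false

namespace Pool.Agent.Lib.MP_89bcae_ag

/-- The localisation of the integers at a prime number. -/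
theorem exists_dvrZ8 {p : ℕ} (hp : p.Prime) :
    ∃ (R : Type) (_ : CommRing R) (_ : IsDomain R) (_ : IsDiscreteValuationRing R)
      (_ : Algebra R ℚ) (_ : IsFractionRing R ℚ),
      ∀ (z : ℤ) (n : ℕ), (z : R) ∈ IsLocalRing.maximalIdeal R ^ n ↔ (p : ℤ) ^ n ∣ z := by
  have hpZ : Prime (p : ℤ) := Nat.prime_iff_prime_int.mp hp
  have hP : (Ideal.span {(p : ℤ)}).IsPrime :=
    (Ideal.span_singleton_prime hpZ.ne_zero).mpr hpZ
  have hP0 : Ideal.span {(p : ℤ)} ≠ ⊥ := by
    rw [Ne, Ideal.span_singleton_eq_bot]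
    exact hpZ.ne_zero
  let R := Localization.AtPrime (Ideal.span {(p : ℤ)})
  have hDVR : IsDiscreteValuationRing R :=
    IsLocalization.AtPrime.isDiscreteValuationRing_of_dedekind_domain ℤ hP0 _
  letI hA : Algebra R ℚ :=
    IsLocalization.localizationAlgebraOfSubmonoidLe _ ℚ
      (Ideal.span {(p : ℤ)}).primeCompl (nonZeroDivisors ℤ)
      (Ideal.span {(p : ℤ)}).primeCompl_le_nonZeroDivisors
  have hst := IsLocalization.localization_isScalarTower_of_submonoid_le
    R ℚ
    (Ideal.span {(p : ℤ)}).primeCompl (nonZeroDivisors ℤ)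
    (Ideal.span {(p : ℤ)}).primeCompl_le_nonZeroDivisors
  have hfr : IsFractionRing R ℚ :=
    @IsFractionRing.isFractionRing_of_isDomain_of_isLocalization ℤ _
      (Ideal.span {(p : ℤ)}).primeCompl _ R ℚ _ _ _ _ _
      hst _ _
  have hmax : IsLocalRing.maximalIdeal R = Ideal.span {(algebraMap ℤ R p)} := by
    rw [← IsLocalization.AtPrime.map_eq_maximalIdeal (Ideal.span {(p : ℤ)}) R, Ideal.map_span,
      Set.image_singleton]
  refine ⟨R, inferInstance, inferInstance, hDVR, inferInstance, hfr, fun z n => ?_⟩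
  have hz : (z : R) = algebraMap ℤ R z := by simp
  rw [hz, hmax, Ideal.span_singleton_pow, Ideal.mem_span_singleton]
  constructor
  · rintro ⟨q, hq⟩
    obtain ⟨⟨x, s⟩, hxs⟩ := IsLocalization.surj (Ideal.span {(p : ℤ)}).primeCompl q
    have hinj : Function.Injective (algebraMap ℤ R) :=
      IsLocalization.injective R (Ideal.primeCompl_le_nonZeroDivisors (Ideal.span {(p : ℤ)}))
    have h1 : z * s = (p : ℤ) ^ n * x := by
      apply hinj
      rw [map_mul, map_mul, map_pow, hq, ← hxs]
      ring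
    have h3 : IsCoprime ((p : ℤ) ^ n) (s : ℤ) := by
      apply IsCoprime.pow_left
      rw [Prime.coprime_iff_not_dvd (Nat.prime_iff_prime_int.mp hp)]
      intro h4
      exact s.2 (Ideal.mem_span_singleton.mpr h4)
    exact h3.dvd_of_dvd_mul_right ⟨x, h1⟩
  · rintro ⟨q, hq⟩
    exact ⟨algebraMap ℤ R q, by rw [hq, map_mul, map_pow]⟩

/-- Discrete valuation rings in the field of the `ℓ`-th roots of unity. -/
theorem exists_dvrK8 {ℓ p : ℕ} (hℓ : ℓ.Prime) (hp : p.Prime) (hpℓ : p ≠ ℓ) (K : Type) [Field K]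
    [Algebra ℚ K] [FiniteDimensional ℚ K] [IsGalois ℚ K] {ζ : K} (hζ : IsPrimitiveRoot ζ ℓ)
    (hgen : ∀ σ : K ≃ₐ[ℚ] K, σ ζ = ζ → σ = 1) :
    ∃ (R : Type) (_ : CommRing R) (_ : IsDomain R) (_ : IsDiscreteValuationRing R)
      (_ : Algebra R K) (_ : IsFractionRing R K),
      ∀ (z : ℤ) (n : ℕ), (z : R) ∈ IsLocalRing.maximalIdeal R ^ n ↔ (p : ℤ) ^ n ∣ z := by
  obtain ⟨R₀, i1, i2, i3, i4, i5, h⟩ := exists_dvrZ8 hp
  letI : Algebra R₀ K := ((algebraMap ℚ K).comp (algebraMap R₀ ℚ)).toAlgebra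
  haveI : IsScalarTower R₀ ℚ K := IsScalarTower.of_algebraMap_eq fun r => rfl
  have hℓ0 : (ℓ : IsLocalRing.ResidueField R₀) ≠ 0 := by
    intro h0
    have h1 : IsLocalRing.residue R₀ ((ℓ : ℤ) : R₀) = 0 := by
      rw [Int.cast_natCast, map_natCast]
      exact h0
    rw [IsLocalRing.residue_eq_zero_iff] at h1
    have h2 := (h ℓ 1).mp (by rwa [pow_one])
    rw [pow_one, Int.natCast_dvd_natCast] at h2
    exact hpℓ ((Nat.prime_dvd_prime_iff_eq hp hℓ).mp h2)
  obtain ⟨R, j1, j2, j3, j4, j5, j6, j7, h'⟩ := exists_unramified8 (R₀ := R₀) (k := ℚ) (K := K) hℓ0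
    hζ hgen
  refine ⟨R, j1, j2, j3, j5, j7, fun z n => ?_⟩
  have h1 : (z : R) = algebraMap R₀ R (z : R₀) := by rw [map_intCast]
  rw [h1, h', h]

/-- Simple collisions over a discrete valuation ring over `p`. -/
theorem isCollision7_of_Z8 {p : ℕ} (hp : p.Prime) {R : Type*} [CommRing R] [IsDomain R]
    [IsLocalRing R]
    (h : ∀ (z : ℤ) (n : ℕ), (z : R) ∈ IsLocalRing.maximalIdeal R ^ n ↔ (p : ℤ) ^ n ∣ z)
    {g D : ℤ[X]} (hcol : IsCollisionZ8 p g D) :
    IsCollision7 (g.map (Int.castRingHom R)) (D.map (Int.castRingHom R)) := by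
  obtain ⟨a, u, hD, hsep, ha⟩ := hcol
  have hp0 : ((p : ℕ) : IsLocalRing.ResidueField R) = 0 := by
    have h1 : IsLocalRing.residue R ((p : ℤ) : R) = 0 := by
      rw [IsLocalRing.residue_eq_zero_iff]
      have h2 := (h p 1).mpr (by rw [pow_one])
      rwa [pow_one] at h2
    simpa using h1
  have : CharP (IsLocalRing.ResidueField R) p := (CharP.charP_iff_prime_eq_zero hp).mpr hp0
  let φ : ZMod p →+* IsLocalRing.ResidueField R := ZMod.castHom (dvd_refl p) _
  have hφ : (IsLocalRing.residue R).comp (Int.castRingHom R) = φ.comp (Int.castRingHom (ZMod p)) :=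
    RingHom.ext_int _ _
  have hφa : IsLocalRing.residue R (Int.castRingHom R a) = φ (a : ZMod p) := RingHom.congr_fun hφ a
  refine ⟨Int.castRingHom R a, u.map φ, ?_, ?_, ?_⟩
  · rw [Polynomial.map_map, hφ, ← Polynomial.map_map, hD, hφa]
    simp
  · rw [Polynomial.map_map, hφ, ← Polynomial.map_map, hφa]
    have h1 := hsep.map (f := φ)
    rw [Polynomial.map_comp, Polynomial.map_mul, Polynomial.map_sub, map_X, map_C] at h1
    exact h1
  · rw [eval_map, eval₂_at_apply]
    show ((D.eval a : ℤ) : R) ∉ _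
    rw [h]
    exact ha

/-- Polynomials over a discrete valuation ring over `p`: separable reduction. -/
theorem residue_map8 {p : ℕ} (hp : p.Prime) {R : Type*} [CommRing R] [IsDomain R]
    [IsLocalRing R]
    (h : ∀ (z : ℤ) (n : ℕ), (z : R) ∈ IsLocalRing.maximalIdeal R ^ n ↔ (p : ℤ) ^ n ∣ z) :
    ∃ φ : ZMod p →+* IsLocalRing.ResidueField R, ∀ f : ℤ[X],
      (f.map (Int.castRingHom R)).map (IsLocalRing.residue R) =
        (f.map (Int.castRingHom (ZMod p))).map φ := by
  have hp0 : ((p : ℕ) : IsLocalRing.ResidueField R) = 0 := by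
    have h1 : IsLocalRing.residue R ((p : ℤ) : R) = 0 := by
      rw [IsLocalRing.residue_eq_zero_iff]
      have h2 := (h p 1).mpr (by rw [pow_one])
      rwa [pow_one] at h2
    simpa using h1
  have : CharP (IsLocalRing.ResidueField R) p := (CharP.charP_iff_prime_eq_zero hp).mpr hp0
  refine ⟨ZMod.castHom (dvd_refl p) _, fun f => ?_⟩
  rw [Polynomial.map_map, Polynomial.map_map]
  congr 1
  exact RingHom.ext_int _ _

end Pool.Agent.Lib.MP_89bcae_ag

end

section

/-!
# Frobenius elements and the action of the Galois group on the pairs of roots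
-/

open Polynomial

namespace Pool.Agent.Lib.MP_89bcae_ag

set_option linter.unusedSectionVars false
set_option linter.style.haveILetI false

section Lift

variable {R K F κ Fκ : Type*} [CommRing R] [IsDomain R] [IsIntegrallyClosed R] [Field K]
  [Algebra R K] [IsFractionRing R K] [Field F] [Algebra K F] [Algebra R F] [IsScalarTower R K F]
  [IsAlgClosed F] [Algebra.IsAlgebraic K F]
  [Field κ] [Fintype κ] [Field Fκ] [Algebra κ Fκ] [Algebra.IsAlgebraic κ Fκ] [IsAlgClosed Fκ]

/-- Two roots with the same reduction, which is a simple root of the reduced polynomial, are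
equal. -/
lemma eq_of_red14 {π : R →+* κ} {ρ : integralClosure R F →+* Fκ}
    (hρ : ∀ r, ρ (algebraMap R (integralClosure R F) r) = algebraMap κ Fκ (π r))
    {f : R[X]} {x y : F} (hx : IsIntegral R x) (hy : IsIntegral R y) (hfx : aeval x f = 0)
    (hfy : aeval y f = 0) (hxy : ρ ⟨x, hx⟩ = ρ ⟨y, hy⟩)
    (hs : aeval (ρ ⟨x, hx⟩) (derivative (f.map π)) ≠ 0) : x = y := by
  by_contra hne
  apply hs
  have hev : ∀ z : integralClosure R F, ((aeval z f : integralClosure R F) : F) =
      aeval (z : F) f := by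
    intro z
    rw [← Subalgebra.coe_val, ← aeval_algHom_apply]
  have h1 : (f.map (algebraMap R (integralClosure R F))).IsRoot ⟨x, hx⟩ := by
    rw [IsRoot.def, eval_map_algebraMap]
    exact Subtype.ext ((hev _).trans hfx)
  have h2 : (f.map (algebraMap R (integralClosure R F))).eval ⟨y, hy⟩ = 0 := by
    rw [eval_map_algebraMap]
    exact Subtype.ext ((hev _).trans hfy)
  obtain ⟨q, hq⟩ := dvd_iff_isRoot.mpr h1
  have h3 : q.eval ⟨y, hy⟩ = 0 := by
    rw [hq, eval_mul, eval_sub, eval_X, eval_C] at h2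
    rcases mul_eq_zero.mp h2 with h | h
    · exact absurd (congrArg Subtype.val (sub_eq_zero.mp h)).symm hne
    · exact h
  have hcomp : (algebraMap κ Fκ).comp π = ρ.comp (algebraMap R (integralClosure R F)) :=
    RingHom.ext fun r => (hρ r).symm
  have h4 : (f.map π).map (algebraMap κ Fκ) = (X - C (ρ ⟨x, hx⟩)) * q.map ρ := by
    rw [Polynomial.map_map, hcomp, ← Polynomial.map_map, hq, Polynomial.map_mul,
      Polynomial.map_sub, map_X, map_C]
  rw [← eval_map_algebraMap, ← derivative_map, h4, derivative_mul, derivative_sub, derivative_X,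
    derivative_C, sub_zero, one_mul, eval_add, eval_mul, eval_sub, eval_X, eval_C, sub_self,
    zero_mul, add_zero, hxy, eval_map, eval₂_at_apply, h3, map_zero]

/-- Every root of the reduced polynomial is the reduction of a root. -/
lemma exists_lift_root14 [FaithfulSMul R F] {π : R →+* κ} {ρ : integralClosure R F →+* Fκ}
    (hρ : ∀ r, ρ (algebraMap R (integralClosure R F) r) = algebraMap κ Fκ (π r))
    {f : R[X]} (hu : IsUnit f.leadingCoeff) {β : Fκ} (hβ : aeval β (f.map π) = 0) :
    ∃ (x : F) (hx : IsIntegral R x), aeval x f = 0 ∧ ρ ⟨x, hx⟩ = β := by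
  classical
  have hinjR : Function.Injective (algebraMap R F) := FaithfulSMul.algebraMap_injective R F
  have hf0 : f ≠ 0 := by
    rintro rfl
    rw [leadingCoeff_zero] at hu
    exact not_isUnit_zero hu
  have hfF0 : f.map (algebraMap R F) ≠ 0 := (Polynomial.map_ne_zero_iff hinjR).mpr hf0
  have hroot : ∀ x ∈ (f.map (algebraMap R F)).roots, aeval x f = 0 := by
    intro x hx
    rw [mem_roots hfF0, IsRoot.def, eval_map_algebraMap] at hx
    exact hx
  obtain ⟨s, hs⟩ : ∃ s : Multiset (integralClosure R F),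
      s.map (fun z : integralClosure R F => (z : F)) = (f.map (algebraMap R F)).roots := by
    refine ⟨(f.map (algebraMap R F)).roots.attach.map fun x =>
      ⟨x.1, integral_root14 hu (hroot x.1 x.2)⟩, ?_⟩
    rw [Multiset.map_map]
    exact Multiset.attach_map_val _
  have h1 : f.map (algebraMap R (integralClosure R F)) =
      C (algebraMap R (integralClosure R F) f.leadingCoeff) * (s.map fun z => X - C z).prod := by
    apply Polynomial.map_injective (algebraMap (integralClosure R F) F)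
      (FaithfulSMul.algebraMap_injective _ _)
    rw [Polynomial.map_map, ← IsScalarTower.algebraMap_eq R (integralClosure R F) F,
      Polynomial.map_mul, map_C, ← IsScalarTower.algebraMap_apply R (integralClosure R F) F]
    have h2 := (IsAlgClosed.splits (f.map (algebraMap R F))).eq_prod_roots
    rw [leadingCoeff_map_of_injective hinjR] at h2
    rw [Polynomial.map_multiset_prod, Multiset.map_map]
    conv_lhs => rw [h2, ← hs, Multiset.map_map]
    congr 3
    funext z
    simp only [Function.comp_apply, Polynomial.map_sub, map_X, map_C]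
    rfl
  have hcomp : (algebraMap κ Fκ).comp π = ρ.comp (algebraMap R (integralClosure R F)) :=
    RingHom.ext fun r => (hρ r).symm
  have h3 : (f.map π).map (algebraMap κ Fκ) =
      C (ρ (algebraMap R (integralClosure R F) f.leadingCoeff)) *
        (s.map fun z => X - C (ρ z)).prod := by
    rw [Polynomial.map_map, hcomp, ← Polynomial.map_map, h1, Polynomial.map_mul, map_C,
      Polynomial.map_multiset_prod, Multiset.map_map]
    congr 3
    funext z
    simp only [Function.comp_apply, Polynomial.map_sub, map_X, map_C]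
  have h4 : (s.map fun z => β - ρ z).prod = 0 := by
    rw [← eval_map_algebraMap, h3, eval_mul, eval_C, eval_multiset_prod, Multiset.map_map] at hβ
    rcases mul_eq_zero.mp hβ with h | h
    · rw [hρ, map_eq_zero] at h
      exact absurd h (hu.map π).ne_zero
    · rw [← h]
      congr 2
      funext z
      simp
  rw [Multiset.prod_eq_zero_iff, Multiset.mem_map] at h4
  obtain ⟨z, hz, hz0⟩ := h4
  refine ⟨z, z.2, ?_, (sub_eq_zero.mp hz0).symm⟩
  apply hroot
  rw [← hs]
  exact Multiset.mem_map_of_mem _ hz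

/-- **The Frobenius element.** -/
theorem exists_frob_roots14 {π : R →+* κ} (hπ : Function.Surjective π) {f : R[X]}
    (hu : IsUnit f.leadingCoeff) (hsep : (f.map (algebraMap R K)).Separable) :
    ∃ (ρ : integralClosure R F →+* Fκ) (φ : F ≃ₐ[K] F),
      (∀ r, ρ (algebraMap R (integralClosure R F) r) = algebraMap κ Fκ (π r)) ∧
      ∀ (i : ℕ) (x : F), aeval x f = 0 → ∀ hx : IsIntegral R x, aeval ((φ ^ i) x) f = 0 ∧
        ∃ hx' : IsIntegral R ((φ ^ i) x), ρ ⟨(φ ^ i) x, hx'⟩ = (frob8 κ Fκ ^ i) (ρ ⟨x, hx⟩) := by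
  classical
  have hinjR : Function.Injective (algebraMap R F) := by
    rw [IsScalarTower.algebraMap_eq R K F]
    exact (algebraMap K F).injective.comp (IsFractionRing.injective R K)
  have hfaith : FaithfulSMul R F := (faithfulSMul_iff_algebraMap_injective R F).mpr hinjR
  obtain ⟨ρ, hρ⟩ := exists_red14 (F := F) (Fκ := Fκ) π hπ
  have hf0 : f ≠ 0 := by
    rintro rfl
    rw [leadingCoeff_zero] at hu
    exact not_isUnit_zero hu
  have hfF0 : f.map (algebraMap R F) ≠ 0 := (Polynomial.map_ne_zero_iff hinjR).mpr hf0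
  set B : Finset F := (f.map (algebraMap R F)).roots.toFinset with hB
  have hmemB : ∀ γ, γ ∈ B ↔ aeval γ f = 0 := by
    intro γ
    rw [hB, Multiset.mem_toFinset, mem_roots hfF0, IsRoot.def, eval_map_algebraMap]
  obtain ⟨φ, M, hSM, hM⟩ := exists_frob_lift14 (κ := κ) π hπ ρ hρ B (by
    intro γ hγ
    apply Separable.of_dvd hsep
    apply minpoly.dvd
    rw [aeval_map_algebraMap]
    exact (hmemB γ).mp hγ)
  have hMi : ∀ (i : ℕ) (x : F), x ∈ M → ∀ hx : IsIntegral R x, (φ ^ i) x ∈ M ∧
      ∃ hx' : IsIntegral R ((φ ^ i) x), ρ ⟨(φ ^ i) x, hx'⟩ = (frob8 κ Fκ ^ i) (ρ ⟨x, hx⟩) := by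
    intro i
    induction i with
    | zero => exact fun x hxM hx => ⟨hxM, hx, rfl⟩
    | succ i ih =>
      intro x hxM hx
      obtain ⟨h3, h4, h5⟩ := ih x hxM hx
      obtain ⟨h6, h7⟩ := hM _ h3
      obtain ⟨h8, h9⟩ := h7 h4
      have h10 : (φ ^ (i + 1)) x = φ ((φ ^ i) x) := by rw [pow_succ', AlgEquiv.mul_apply]
      refine ⟨by rw [h10]; exact h6, by rw [h10]; exact h8, ?_⟩
      have h11 : ρ ⟨(φ ^ (i + 1)) x, by rw [h10]; exact h8⟩ = ρ ⟨φ ((φ ^ i) x), h8⟩ := by
        congr 1
        exact Subtype.ext h10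
      rw [h11, h9, h5, pow_succ' (frob8 κ Fκ), AlgEquiv.mul_apply, frob8_apply,
        Nat.card_eq_fintype_card]
  refine ⟨ρ, φ, hρ, fun i x hx hi => ⟨?_, (hMi i x (hSM x ((hmemB x).mpr hx)) hi).2⟩⟩
  have h3 : aeval ((φ ^ i) x) (f.map (algebraMap R K)) = 0 := by
    rw [← AlgEquiv.coe_toAlgHom (φ ^ i), aeval_algHom_apply, aeval_map_algebraMap, hx, map_zero]
  rwa [aeval_map_algebraMap] at h3

end Lift

section Types

variable {R K F κ : Type*} [CommRing R] [IsDomain R] [IsIntegrallyClosed R] [Field K]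
  [Algebra R K] [IsFractionRing R K] [Field F] [Algebra K F] [Algebra R F] [IsScalarTower R K F]
  [IsAlgClosed F] [Algebra.IsAlgebraic K F]
  [Field κ] [Fintype κ]

variable (K F) in
/-- **Type A.** -/
theorem frob_typeA14 {π : R →+* κ} (hπ : Function.Surjective π) {f : R[X]}
    (hu : IsUnit f.leadingCoeff) (hsep : (f.map (algebraMap R K)).Separable)
    (hirr : Irreducible (f.map π)) :
    ∃ φ : F ≃ₐ[K] F, ∀ x y : F, aeval x f = 0 → aeval y f = 0 → ∃ i : ℕ, (φ ^ i) x = y := by
  obtain ⟨ρ, φ, hρ, hφ⟩ := exists_frob_roots14 (F := F) (Fκ := AlgebraicClosure κ) hπ hu hsep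
  refine ⟨φ, fun x y hx hy => ?_⟩
  have hix := integral_root14 hu hx
  have hiy := integral_root14 hu hy
  obtain ⟨i, -, hi⟩ := exists_frob8_pow hirr (red_root14 hρ hix hx) (red_root14 hρ hiy hy)
  obtain ⟨h1, h2, h3⟩ := hφ i x hx hix
  refine ⟨i, eq_of_red14 hρ h2 hiy h1 hy (by rw [h3, hi]) ?_⟩
  have hsepκ : (f.map π).Separable := PerfectField.separable_of_irreducible hirr
  intro h4
  obtain ⟨a', b', hab⟩ := hsepκ
  have h5 := congrArg (aeval (ρ ⟨(φ ^ i) x, h2⟩)) hab
  rw [map_add, map_mul, map_mul, red_root14 hρ h2 h1, h4, mul_zero, mul_zero, add_zero,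
    map_one] at h5
  exact zero_ne_one h5


end Types

/-- **Frobenius elements of types A and B make the action on the pairs transitive.** -/
theorem pairTransitive14 {K F : Type*} [Field K] [Field F] [Algebra K F] {g D : K[X]}
    (hA : ∃ φ : F ≃ₐ[K] F, ∀ x y : F, aeval x (D.comp g) = 0 → aeval y (D.comp g) = 0 →
      ∃ i : ℕ, (φ ^ i) x = y)
    (hB : ∃ (φ : F ≃ₐ[K] F) (z : F), aeval z (D.comp g) = 0 ∧ φ z = z ∧
      ∀ x y : F, aeval x (D.comp g) = 0 → aeval y (D.comp g) = 0 → aeval x g ≠ aeval z g →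
        aeval y g ≠ aeval z g → ∃ i : ℕ, (φ ^ i) x = y) :
    IsPairTransitive7 K F g D := by
  obtain ⟨φ, hφ⟩ := hA
  obtain ⟨ψ, z, hz, hzz, hψ⟩ := hB
  intro b c b' c' hb hc hb' hc' hne hne'
  have hroot : ∀ (σ : F ≃ₐ[K] F) (x : F), aeval x (D.comp g) = 0 → aeval (σ x) (D.comp g) = 0 := by
    intro σ x hx
    rw [← AlgEquiv.coe_toAlgHom σ, aeval_algHom_apply, hx, map_zero]
  have hval : ∀ (σ : F ≃ₐ[K] F) (x : F), aeval (σ x) g = σ (aeval x g) := by
    intro σ x
    rw [← AlgEquiv.coe_toAlgHom σ, aeval_algHom_apply]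
  obtain ⟨i, hi⟩ := hφ b z hb hz
  obtain ⟨j, hj⟩ := hφ b' z hb' hz
  obtain ⟨m, hm⟩ := hψ ((φ ^ i) c) ((φ ^ j) c') (hroot _ _ hc) (hroot _ _ hc') (by
    rw [← hi, hval, hval]
    exact fun h => hne ((φ ^ i).injective h).symm) (by
    rw [← hj, hval, hval]
    exact fun h => hne' ((φ ^ j).injective h).symm)
  have hzm : (ψ ^ m) z = z := by
    induction m with
    | zero => rfl
    | succ m ih =>
      clear hm
      rw [pow_succ', AlgEquiv.mul_apply]
      have : (ψ ^ m) z = z := by
        clear ih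
        induction m with
        | zero => rfl
        | succ m ih => rw [pow_succ', AlgEquiv.mul_apply, ih, hzz]
      rw [this, hzz]
  refine ⟨(φ ^ j)⁻¹ * ψ ^ m * φ ^ i, ?_, ?_⟩
  · rw [AlgEquiv.mul_apply, AlgEquiv.mul_apply, hi, hzm, ← hj]
    change ((φ ^ j)⁻¹ * (φ ^ j)) b' = b'
    rw [inv_mul_cancel]
    rfl
  · rw [AlgEquiv.mul_apply, AlgEquiv.mul_apply, hm]
    change ((φ ^ j)⁻¹ * (φ ^ j)) c' = c'
    rw [inv_mul_cancel]
    rfl

end Pool.Agent.Lib.MP_89bcae_ag

end

section

/-!
# Integral polynomials whose reductions modulo two primes are of types A and B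
-/

open Polynomial

namespace Pool.Agent.Lib.MP_89bcae_ag

set_option linter.unusedSectionVars false
set_option linter.style.haveILetI false


/-- The local ring `ℤ_(p)` with its residue map. -/
lemma exists_local_ring14 {p : ℕ} (hp : p.Prime) :
    ∃ (R : Type) (_ : CommRing R) (_ : IsDomain R) (_ : IsIntegrallyClosed R)
      (_ : Algebra R ℚ) (_ : IsFractionRing R ℚ) (π : R →+* ZMod p),
      Function.Surjective π ∧
      ∀ z : ℤ, (z : ZMod p) ≠ 0 → IsUnit (Int.castRingHom R z) := by
  haveI : Fact p.Prime := ⟨hp⟩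
  have hpi : Prime (p : ℤ) := Nat.prime_iff_prime_int.mp hp
  haveI hP : (Ideal.span {(p : ℤ)}).IsPrime :=
    (Ideal.span_singleton_prime hpi.ne_zero).mpr hpi
  have hmem : ∀ z : ℤ, z ∈ (Ideal.span {(p : ℤ)}).primeCompl ↔ (z : ZMod p) ≠ 0 := by
    intro z
    rw [Ideal.mem_primeCompl_iff, Ideal.mem_span_singleton, Ne,
      ZMod.intCast_zmod_eq_zero_iff_dvd]
  let R := Localization.AtPrime (Ideal.span {(p : ℤ)})
  have hle : (Ideal.span {(p : ℤ)}).primeCompl ≤ nonZeroDivisors ℤ :=
    Ideal.primeCompl_le_nonZeroDivisors _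
  let e : R →+* ℚ := IsLocalization.lift (M := (Ideal.span {(p : ℤ)}).primeCompl)
    (g := algebraMap ℤ ℚ) (by
      intro y
      rw [isUnit_iff_ne_zero]
      exact (map_ne_zero_iff _ (algebraMap ℤ ℚ).injective_int).mpr
        (nonZeroDivisors.ne_zero (hle y.2)))
  letI : Algebra R ℚ := e.toAlgebra
  have hst := IsScalarTower.of_algebraMap_eq (R := ℤ) (S := R) (A := ℚ) fun r =>
    (IsLocalization.lift_eq _ r).symm
  haveI := hst
  have hfr : IsFractionRing R ℚ :=
    IsFractionRing.isFractionRing_of_isDomain_of_isLocalization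
      (Ideal.span {(p : ℤ)}).primeCompl R ℚ
  have hdom : IsDomain R := inferInstance
  have hic : IsIntegrallyClosed R := inferInstance
  let π : R →+* ZMod p := IsLocalization.lift (M := (Ideal.span {(p : ℤ)}).primeCompl)
    (g := Int.castRingHom (ZMod p)) (by
      intro y
      rw [isUnit_iff_ne_zero]
      exact (hmem y).mp y.2)
  have hπ : ∀ z : ℤ, π (algebraMap ℤ R z) = z := fun z => IsLocalization.lift_eq _ z
  refine ⟨R, inferInstance, hdom, hic, inferInstance, hfr, π, fun x => ?_, fun z hz => ?_⟩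
  · obtain ⟨z, hz⟩ := ZMod.intCast_surjective x
    exact ⟨algebraMap ℤ R z, by rw [hπ, hz]⟩
  · have h1 := IsLocalization.map_units R
      (⟨z, (hmem z).mpr hz⟩ : (Ideal.span {(p : ℤ)}).primeCompl)
    have h2 : algebraMap ℤ R = Int.castRingHom R := RingHom.ext_int _ _
    rw [h2] at h1
    exact h1

section

variable {F : Type*} [Field F] [Algebra ℚ F] [IsAlgClosed F] [Algebra.IsAlgebraic ℚ F]


end

end Pool.Agent.Lib.MP_89bcae_ag

end

section

/-!
# The transposition attached to a simple collision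
-/

open Polynomial IsDedekindDomain WithZero

open scoped Classical Pointwise

namespace Pool.Agent.Lib.MP_89bcae_ag

set_option linter.style.haveILetI false
set_option linter.unusedSectionVars false

/-- The automorphism of the splitting field attached to a simple collision: it exchanges the two
colliding roots of `D` and fixes the others. -/
theorem exists_swap7 {R k K : Type*} [CommRing R] [IsDomain R] [IsDiscreteValuationRing R] [Field k]
    [Algebra R k] [IsFractionRing R k] [Field K] [Algebra k K] [Algebra R K] [IsScalarTower R k K]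
    [FiniteDimensional k K] [IsGalois k K] (h2 : IsUnit (2 : R)) {g D : R[X]}
    (hgdeg : g.natDegree ≠ 0) (hg : g.Monic) (hlc : IsUnit D.leadingCoeff) (S A : Finset K)
    (hDA : D.map (algebraMap R K) =
      C (algebraMap R K D.leadingCoeff) * ∏ α ∈ A, (X - C α))
    (hgS : ∀ α ∈ A, g.map (algebraMap R K) - C α =
      ∏ b ∈ S.filter (fun b => (g.map (algebraMap R K)).eval b = α), (X - C b))
    (hSA : ∀ b ∈ S, (g.map (algebraMap R K)).eval b ∈ A)
    (hgen : ∀ σ : K ≃ₐ[k] K, (∀ b ∈ S, σ b = b) → σ = 1) (hcol : IsCollision7 g D) :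
    ∃ (σ : K ≃ₐ[k] K) (α₁ α₂ : K), α₁ ∈ A ∧ α₂ ∈ A ∧ α₁ ≠ α₂ ∧ σ α₁ = α₂ ∧ σ α₂ = α₁ ∧
      ∀ α ∈ A, α ≠ α₁ → α ≠ α₂ → σ α = α := by
  obtain ⟨a, h, hDred, hsepc, hDa⟩ := hcol
  -- the integral closure
  set B := integralClosure R K with hB
  haveI : IsDedekindDomain B := integralClosure.isDedekindDomain R k K
  haveI : Module.Finite R B := IsIntegralClosure.finite R k K B
  haveI : IsFractionRing B K := integralClosure.isFractionRing_of_finite_extension k K
  haveI : SMulCommClass (K ≃ₐ[k] K) R K := ⟨fun σ r x => by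
    rw [AlgEquiv.smul_def, AlgEquiv.smul_def, Algebra.smul_def, Algebra.smul_def, map_mul,
      IsScalarTower.algebraMap_apply R k K, AlgEquiv.commutes]⟩
  haveI : IsGaloisGroup (K ≃ₐ[k] K) R B := IsGaloisGroup.of_isFractionRing _ _ _ k K
  have hinjK : Function.Injective (algebraMap R K) := by
    rw [IsScalarTower.algebraMap_eq R k K]
    exact (algebraMap k K).injective.comp (IsFractionRing.injective R k)
  have hinjB : Function.Injective (algebraMap B K) := Subtype.val_injective
  haveI : FaithfulSMul R B := by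
    rw [faithfulSMul_iff_algebraMap_injective]
    intro x y hxy
    exact hinjK (congrArg (algebraMap B K) hxy)
  haveI : Module.IsTorsionFree R B := FaithfulSMul.to_isTorsionFree R B
  haveI : Module.Flat R B := inferInstance
  let v : HeightOneSpectrum R := IsDiscreteValuationRing.maximalIdeal R
  have hvmax : v.asIdeal.IsMaximal := v.isMaximal
  obtain ⟨P, hPmax, hPv⟩ := Ideal.exists_maximal_ideal_liesOver_of_isIntegral (S := B) v.asIdeal
  have hP0 : P ≠ ⊥ := Ideal.ne_bot_of_liesOver_of_ne_bot v.ne_bot P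
  let w : HeightOneSpectrum B := ⟨P, hPmax.isPrime, hP0⟩
  have hwv : w.asIdeal.LiesOver v.asIdeal := hPv
  -- the ramification index
  have he : v.asIdeal.ramificationIdx' w.asIdeal ≤ Nat.card (P.inertia (K ≃ₐ[k] K)) := by
    rw [Ideal.ramificationIdx'_eq_ramificationIdx v.asIdeal w.asIdeal v.ne_bot]
    exact ramificationIdx_le_card_inertia7 v.asIdeal P
  -- the residue field
  letI : Field (B ⧸ P) := Ideal.Quotient.field P
  set q : B →+* B ⧸ P := Ideal.Quotient.mk P with hq
  have hq0 : ∀ x : B, q x = 0 ↔ x ∈ P := fun x => Ideal.Quotient.eq_zero_iff_mem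
  have hmP : ∀ r : R, r ∈ IsLocalRing.maximalIdeal R → q (algebraMap R B r) = 0 := by
    intro r hr
    rw [hq0]
    have h1 : r ∈ Ideal.comap (algebraMap R B) P := by
      rw [← Ideal.under_def, ← hPv.over]
      exact hr
    exact h1
  let ψ : IsLocalRing.ResidueField R →+* B ⧸ P :=
    Ideal.Quotient.lift (IsLocalRing.maximalIdeal R) (q.comp (algebraMap R B)) hmP
  have hψ : ∀ r : R, ψ (IsLocalRing.residue R r) = q (algebraMap R B r) := fun r => rfl
  have hψc : ψ.comp (IsLocalRing.residue R) = q.comp (algebraMap R B) := RingHom.ext hψ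
  have hu2 : q (2 : B) ≠ 0 := by
    have h1 := (h2.map (algebraMap R B)).map q
    rw [map_ofNat] at h1
    exact h1.ne_zero
  have hulc : q (algebraMap R B D.leadingCoeff) ≠ 0 := ((hlc.map (algebraMap R B)).map q).ne_zero
  -- integrality of the roots
  have hAroot : ∀ α ∈ A, aeval α D = 0 := by
    intro α hα
    rw [← eval_map_algebraMap, hDA, eval_mul, eval_prod, Finset.prod_eq_zero hα (by simp), mul_zero]
  have hAint : ∀ α ∈ A, IsIntegral R α := fun α hα => integral_root7 hlc (hAroot α hα)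
  have hSint : ∀ b ∈ S, IsIntegral R b := by
    intro b hb
    have h1 := hAroot _ (hSA b hb)
    refine integral_root7 (f := D.comp g) ?_ (x := b) ?_
    · rw [leadingCoeff_comp hgdeg, hg.leadingCoeff, one_pow, mul_one]
      exact hlc
    · rw [aeval_comp, ← eval_map_algebraMap g b]
      exact h1
  have hval : ∀ x : K, IsIntegral R x → w.valuation K x ≤ 1 := fun x hx =>
    w.valuation_le_one (⟨x, hx⟩ : B)
  have hval1 : ∀ (x : K) (hx : IsIntegral R x), w.valuation K x < 1 ↔ q ⟨x, hx⟩ = 0 := fun x hx => by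
    rw [hq0]
    exact w.valuation_lt_one_iff_mem (⟨x, hx⟩ : B)
  have hval2 : ∀ (x : K) (hx : IsIntegral R x), w.valuation K x = 1 ↔ q ⟨x, hx⟩ ≠ 0 := fun x hx => by
    rw [Ne, ← hval1 x hx, not_lt]
    exact ⟨fun h => h.ge, fun h => le_antisymm (hval x hx) h⟩
  -- the reductions of the roots
  let β : K → B := fun x => if hx : IsIntegral R x then ⟨x, hx⟩ else 0
  have hβ : ∀ x, IsIntegral R x → algebraMap B K (β x) = x := by
    intro x hx
    have h1 : β x = ⟨x, hx⟩ := dif_pos hx
    rw [h1]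
    rfl
  have hβv1 : ∀ x, IsIntegral R x → (w.valuation K x < 1 ↔ q (β x) = 0) := by
    intro x hx
    have h1 : β x = ⟨x, hx⟩ := dif_pos hx
    rw [h1]
    exact hval1 x hx
  have hβv2 : ∀ x, IsIntegral R x → (w.valuation K x = 1 ↔ q (β x) ≠ 0) := by
    intro x hx
    have h1 : β x = ⟨x, hx⟩ := dif_pos hx
    rw [h1]
    exact hval2 x hx
  have hβsub : ∀ x y, IsIntegral R x → IsIntegral R y → β (x - y) = β x - β y := by
    intro x y hx hy
    apply hinjB
    rw [map_sub, hβ _ (hx.sub hy), hβ x hx, hβ y hy]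
  have hDB : D.map (algebraMap R B) = C (algebraMap R B D.leadingCoeff) *
      ∏ α ∈ A, (X - C (β α)) := by
    apply map_prod_red7 hinjB (fun α hα => hβ α (hAint α hα))
    rw [Polynomial.map_map]
    exact hDA
  have hgB : ∀ α ∈ A, g.map (algebraMap R B) - C (β α) =
      ∏ b ∈ S.filter (fun b => (g.map (algebraMap R K)).eval b = α), (X - C (β b)) := by
    intro α hα
    have h1 := map_prod_red7 (p := g.map (algebraMap R B) - C (β α)) (c := 1)
      (T := S.filter (fun b => (g.map (algebraMap R K)).eval b = α)) hinjB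
      (fun b hb => hβ b (hSint b (Finset.mem_filter.mp hb).1)) (by
        rw [Polynomial.map_sub, Polynomial.map_map, map_C, hβ α (hAint α hα), map_one, C_1, one_mul]
        exact hgS α hα)
    rw [C_1, one_mul] at h1
    exact h1
  -- the reductions
  set ā := ψ (IsLocalRing.residue R a) with hā
  set h₁ : (B ⧸ P)[X] := ((X - C (IsLocalRing.residue R a)) * h).map ψ with hh₁
  set gκ : (B ⧸ P)[X] := (g.map (IsLocalRing.residue R)).map ψ with hgκ
  have hgκ' : gκ = (g.map (algebraMap R B)).map q := by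
    rw [hgκ, Polynomial.map_map, Polynomial.map_map, hψc]
  have hsep2 : (h₁.comp gκ).Separable := by
    have h1 := hsepc.map (f := ψ)
    rw [Polynomial.map_comp] at h1
    exact h1
  have hgκdeg : gκ.natDegree ≠ 0 := by
    rw [hgκ, natDegree_map, hg.natDegree_map]
    exact hgdeg
  have hsep1 : h₁.Separable := separable_left7 hgκdeg hsep2
  have hh₁a : h₁.eval ā = 0 := by
    rw [hh₁, Polynomial.map_mul, Polynomial.map_sub, map_X, map_C, eval_mul, eval_sub, eval_X,
      eval_C, sub_self, zero_mul]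
  have hDκ : C (q (algebraMap R B D.leadingCoeff)) * ∏ α ∈ A, (X - C (q (β α))) =
      (X - C ā) * h₁ := by
    have h1 := congrArg (Polynomial.map q) hDB
    rw [map_prod_red7', Polynomial.map_map, ← hψc, ← Polynomial.map_map, hDred] at h1
    rw [← h1, hh₁, Polynomial.map_mul, Polynomial.map_mul, Polynomial.map_pow, Polynomial.map_sub,
      map_X, map_C]
    ring
  obtain ⟨hA1, hA2, hA3⟩ := res_roots7 hulc hsep1 hh₁a hDκ
  have hfib : ∀ b ∈ S, ∀ c ∈ S, b ≠ c → (g.map (algebraMap R K)).eval b =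
        (g.map (algebraMap R K)).eval c → q (β b) ≠ q (β c) := by
    intro b hb c hc hbc hgbc
    have h1 := congrArg (Polynomial.map q) (hgB _ (hSA b hb))
    rw [Polynomial.map_sub, map_C, ← hgκ', Polynomial.map_prod] at h1
    simp only [Polynomial.map_sub, map_X, map_C] at h1
    exact res_fibre7 hsep2 (hA3 _ (hSA b hb)) h1 b (Finset.mem_filter.mpr ⟨hb, rfl⟩) c
      (Finset.mem_filter.mpr ⟨hc, hgbc.symm⟩) hbc
  obtain ⟨α₁, α₂, h12, hfil⟩ := Finset.card_eq_two.mp hA2
  have hm1 : α₁ ∈ A ∧ q (β α₁) = ā := by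
    have h3 : α₁ ∈ A.filter fun α => q (β α) = ā := by rw [hfil]; simp
    exact Finset.mem_filter.mp h3
  have hm2 : α₂ ∈ A ∧ q (β α₂) = ā := by
    have h3 : α₂ ∈ A.filter fun α => q (β α) = ā := by rw [hfil]; simp
    exact Finset.mem_filter.mp h3
  have hmem12 : ∀ α ∈ A, q (β α) = ā → α = α₁ ∨ α = α₂ := by
    intro α hα h1
    have h3 : α ∈ A.filter fun α => q (β α) = ā := Finset.mem_filter.mpr ⟨hα, h1⟩
    rw [hfil] at h3
    simpa using h3
  -- the inertia group
  have hAmem : ∀ α : K, (D.map (algebraMap R K)).eval α = 0 → α ∈ A := by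
    intro α hα
    rw [hDA, eval_mul, eval_C, eval_prod, mul_eq_zero] at hα
    rcases hα with hα | hα
    · exact absurd (hinjK (hα.trans (map_zero _).symm)) hlc.ne_zero
    · obtain ⟨α', h1, h3⟩ := Finset.prod_eq_zero_iff.mp hα
      rw [eval_sub, eval_X, eval_C, sub_eq_zero] at h3
      rw [h3]
      exact h1
  have hSmem : ∀ b : K, (g.map (algebraMap R K)).eval b ∈ A → b ∈ S := by
    intro b hb
    have h1 := congrArg (eval b) (hgS _ hb)
    rw [eval_sub, eval_C, sub_self, eval_prod, eq_comm] at h1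
    obtain ⟨b', h3, h4⟩ := Finset.prod_eq_zero_iff.mp h1
    rw [eval_sub, eval_X, eval_C, sub_eq_zero] at h4
    rw [h4]
    exact (Finset.mem_filter.mp h3).1
  have hσev : ∀ (σ : K ≃ₐ[k] K) (p : R[X]) (x : K), (p.map (algebraMap R K)).eval (σ x) =
      σ ((p.map (algebraMap R K)).eval x) := by
    intro σ p x
    have h1 : (σ : K →+* K).comp (algebraMap R K) = algebraMap R K := by
      ext r
      change σ (algebraMap R K r) = algebraMap R K r
      rw [IsScalarTower.algebraMap_apply R k K]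
      exact σ.commutes _
    have h3 := Polynomial.hom_eval₂ p (algebraMap R K) (σ : K →+* K) x
    rw [h1] at h3
    rw [eval_map, eval_map]
    exact h3.symm
  have hσA : ∀ (σ : K ≃ₐ[k] K), ∀ α ∈ A, σ α ∈ A := by
    intro σ α hα
    apply hAmem
    rw [hσev, hDA, eval_mul, eval_prod, Finset.prod_eq_zero hα (by simp), mul_zero, map_zero]
  have hσS : ∀ (σ : K ≃ₐ[k] K), ∀ b ∈ S, σ b ∈ S := by
    intro σ b hb
    apply hSmem
    rw [hσev]
    exact hσA σ _ (hSA b hb)
  have hσint : ∀ (σ : K ≃ₐ[k] K) (x : K), IsIntegral R x → IsIntegral R (σ x) := by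
    intro σ x hx
    exact hx.map (σ.restrictScalars R)
  have hine : ∀ σ ∈ P.inertia (K ≃ₐ[k] K), ∀ x : K, IsIntegral R x → q (β (σ x)) = q (β x) := by
    intro σ hσ x hx
    have h1 : σ • (β x) - β x ∈ P := hσ (β x)
    have h3 : σ • (β x) = β (σ x) := by
      apply hinjB
      rw [hβ _ (hσint σ x hx)]
      change σ ((β x : B) : K) = σ x
      congr 1
      exact hβ x hx
    rw [h3, ← hq0, map_sub, sub_eq_zero] at h1
    exact h1
  have hine1 : ∀ σ ∈ P.inertia (K ≃ₐ[k] K), σ α₁ = α₁ → σ = 1 := by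
    intro σ hσ h1
    apply hgen
    intro b hb
    by_contra hne
    have h3 := hine σ hσ b (hSint b hb)
    by_cases h4 : (g.map (algebraMap R K)).eval (σ b) = (g.map (algebraMap R K)).eval b
    · exact hfib _ (hσS σ b hb) b hb hne h4 h3
    · rw [hσev] at h4
      have hα := hSA b hb
      have h5 := hine σ hσ _ (hAint _ hα)
      have h6 := hA1 _ (hσA σ _ hα) _ hα h4 h5
      have h7 := hmem12 _ (hσA σ _ hα) h6
      have h8 := hmem12 _ hα (h5 ▸ h6)
      rcases h8 with h8 | h8
      · rw [h8] at h4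
        exact h4 h1
      · rw [h8] at h4 h7
        rcases h7 with h7 | h7
        · exact h12 (σ.injective (h1.trans h7.symm))
        · exact h4 h7
  have hcard : Nat.card (P.inertia (K ≃ₐ[k] K)) ≤ 2 := by
    have h1 : Function.Injective (fun σ : P.inertia (K ≃ₐ[k] K) =>
        (⟨(σ : K ≃ₐ[k] K) α₁, by
          have h3 := hine σ σ.2 α₁ (hAint _ hm1.1)
          have h4 := hmem12 _ (hσA σ _ hm1.1) (h3.trans hm1.2)
          simpa using h4⟩ : ({α₁, α₂} : Finset K))) := by
      intro σ τ hστ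
      have h3 : (σ : K ≃ₐ[k] K) α₁ = (τ : K ≃ₐ[k] K) α₁ := congrArg Subtype.val hστ
      have h4 : (τ⁻¹ * σ : P.inertia (K ≃ₐ[k] K)) = 1 := by
        apply Subtype.ext
        apply hine1 _ (τ⁻¹ * σ).2
        change (τ : K ≃ₐ[k] K).symm ((σ : K ≃ₐ[k] K) α₁) = α₁
        rw [h3, AlgEquiv.symm_apply_apply]
      exact (inv_mul_eq_one.mp h4).symm
    have h3 := Nat.card_le_card_of_injective _ h1
    rw [Nat.card_eq_fintype_card (α := ({α₁, α₂} : Finset K)), Fintype.card_coe] at h3
    exact h3.trans Finset.card_le_two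
  set e := v.asIdeal.ramificationIdx' w.asIdeal with hedef
  have he2 : e ≤ 2 := he.trans hcard
  -- the valuations of `D(a)` and `D'(a)`
  have hWk : ∀ r : R, w.valuation K (algebraMap R K r) = v.intValuation r ^ e := by
    intro r
    have h1 := HeightOneSpectrum.valuation_liesOver K v w (algebraMap R k r)
    rw [← IsScalarTower.algebraMap_apply] at h1
    rw [← h1]
    congr 1
    exact HeightOneSpectrum.valuation_of_algebraMap (K := k) v r
  have hDa1 : D.eval a ∈ IsLocalRing.maximalIdeal R := by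
    rw [← IsLocalRing.residue_eq_zero_iff, ← eval₂_at_apply, ← eval_map, hDred]
    simp
  have hDa2 : (derivative D).eval a ∈ IsLocalRing.maximalIdeal R := by
    rw [← IsLocalRing.residue_eq_zero_iff, ← eval₂_at_apply, ← eval_map, ← derivative_map, hDred,
      derivative_mul, derivative_X_sub_C_sq]
    simp
  have hvm : ∀ (r : R) (n : ℕ), v.intValuation r ≤ exp (-(n : ℤ)) ↔
      r ∈ IsLocalRing.maximalIdeal R ^ n := fun r n => v.intValuation_le_pow_iff_mem r n
  have hD0 : D.eval a ≠ 0 := by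
    intro h0
    rw [h0] at hDa
    exact hDa (Ideal.zero_mem _)
  have hvD : v.intValuation (D.eval a) = exp (-1 : ℤ) := by
    have h1 := (hvm (D.eval a) 1).mpr (by rw [pow_one]; exact hDa1)
    have h3 : ¬ v.intValuation (D.eval a) ≤ exp (-((2 : ℕ) : ℤ)) := fun h4 =>
      hDa ((hvm (D.eval a) 2).mp h4)
    have h5 : v.intValuation (D.eval a) ≠ 0 := v.intValuation_ne_zero _ hD0
    have h6 := exp_log h5
    rw [← h6] at h1 h3 ⊢
    rw [exp_le_exp] at h1 h3
    rw [exp_inj]
    push_cast at h1 h3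
    omega
  have hvD' : v.intValuation ((derivative D).eval a) ≤ exp (-1 : ℤ) := by
    have h1 := (hvm ((derivative D).eval a) 1).mpr (by rw [pow_one]; exact hDa2)
    simpa using h1
  -- the factorisation of `D`
  set W := w.valuation K with hW
  have haint : IsIntegral R (algebraMap R K a) := isIntegral_algebraMap
  have hβa : β (algebraMap R K a) = algebraMap R B a := by
    apply hinjB
    rw [hβ _ haint]
    rfl
  set A' := (A.erase α₁).erase α₂ with hA'
  have hA'A : ∀ α ∈ A', α ∈ A ∧ α ≠ α₁ ∧ α ≠ α₂ := by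
    intro α hα
    rw [hA', Finset.mem_erase, Finset.mem_erase] at hα
    exact ⟨hα.2.2, hα.2.1, hα.1⟩
  have hsplit : ∀ f : K → K[X], ∏ α ∈ A, f α = f α₁ * (f α₂ * ∏ α ∈ A', f α) := by
    intro f
    rw [hA', Finset.mul_prod_erase (A.erase α₁) f (Finset.mem_erase.mpr ⟨h12.symm, hm2.1⟩),
      Finset.mul_prod_erase A f hm1.1]
  set D₁ : K[X] := C (algebraMap R K D.leadingCoeff) * ∏ α ∈ A', (X - C α) with hD₁
  have hDD₁ : D.map (algebraMap R K) = (X - C α₁) * (X - C α₂) * D₁ := by
    rw [hDA, hsplit, hD₁]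
    ring
  have hWint : ∀ x : K, IsIntegral R x → W x ≤ 1 := hval
  have hWlc : W (algebraMap R K D.leadingCoeff) = 1 := by
    have h1 := hWint _ (isIntegral_algebraMap (x := D.leadingCoeff) (R := R) (A := K))
    obtain ⟨u, hu⟩ := hlc
    have h3 := hWint _ (isIntegral_algebraMap (x := (↑u⁻¹ : R)) (R := R) (A := K))
    rw [← hu] at h1 ⊢
    have h4 : W (algebraMap R K u) * W (algebraMap R K ↑u⁻¹) = 1 := by
      rw [← map_mul, ← map_mul, Units.mul_inv, map_one, map_one]
    refine le_antisymm h1 ?_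
    rw [← h4]
    exact mul_le_of_le_one_right' h3
  have hWD₁ : W (D₁.eval (algebraMap R K a)) = 1 := by
    rw [hD₁, eval_mul, eval_C, map_mul, hWlc, one_mul, eval_prod, map_prod]
    refine Finset.prod_eq_one fun α hα => ?_
    obtain ⟨h1, h3, h4⟩ := hA'A α hα
    rw [eval_sub, eval_X, eval_C, hβv2 _ (haint.sub (hAint α h1)), hβsub _ _ haint (hAint α h1),
      map_sub, hβa, ← hψ, ← hā, sub_ne_zero]
    intro h5
    rcases hmem12 α h1 h5.symm with h6 | h6
    · exact h3 h6
    · exact h4 h6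
  have hWD₁' : W ((derivative D₁).eval (algebraMap R K a)) ≤ 1 := by
    have h1 : D₁ = (C (algebraMap R B D.leadingCoeff) * ∏ α ∈ A', (X - C (β α))).map
        (algebraMap B K) := by
      rw [hD₁, Polynomial.map_mul, map_C, Polynomial.map_prod]
      congr 1
      refine Finset.prod_congr rfl fun α hα => ?_
      rw [Polynomial.map_sub, map_X, map_C, hβ α (hAint α (hA'A α hα).1)]
    have h3 : algebraMap R K a = algebraMap B K (algebraMap R B a) := rfl
    rw [h1, derivative_map, h3, eval_map, eval₂_at_apply]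
    exact w.valuation_le_one _
  set y₁ := algebraMap R K a - α₁ with hy₁
  set y₂ := algebraMap R K a - α₂ with hy₂
  have hWy₁ : W y₁ < 1 := by
    rw [hy₁, hβv1 _ (haint.sub (hAint α₁ hm1.1)), hβsub _ _ haint (hAint α₁ hm1.1), map_sub, hβa,
      ← hψ, hm1.2, hā, sub_self]
  have hWy₂ : W y₂ < 1 := by
    rw [hy₂, hβv1 _ (haint.sub (hAint α₂ hm2.1)), hβsub _ _ haint (hAint α₂ hm2.1), map_sub, hβa,
      ← hψ, hm2.2, hā, sub_self]
  have hprod : W y₁ * W y₂ = exp (-(e : ℤ)) := by
    have h1 : algebraMap R K (D.eval a) = y₁ * y₂ * D₁.eval (algebraMap R K a) := by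
      rw [← eval₂_at_apply, ← eval_map, hDD₁, eval_mul, eval_mul, eval_sub, eval_sub, eval_X,
        eval_C, eval_C]
    have h3 := congrArg W h1
    rw [hWk, hvD, map_mul, map_mul, hWD₁, mul_one] at h3
    rw [← h3, ← exp_nsmul]
    simp
  have hy₁0 : W y₁ ≠ 0 := by
    intro h0
    rw [h0, zero_mul] at hprod
    exact exp_ne_zero hprod.symm
  have hy₂0 : W y₂ ≠ 0 := by
    intro h0
    rw [h0, mul_zero] at hprod
    exact exp_ne_zero hprod.symm
  have hl : (W y₁ = exp (-1 : ℤ)) ∧ e = 2 := by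
    have h1 := exp_log hy₁0
    have h3 := exp_log hy₂0
    rw [← h1] at hWy₁ hprod ⊢
    rw [← h3] at hWy₂ hprod
    rw [← exp_add, exp_inj] at hprod
    rw [← exp_zero, exp_lt_exp] at hWy₁ hWy₂
    rw [exp_inj]
    omega
  have hcard2 : 1 < Nat.card (P.inertia (K ≃ₐ[k] K)) := by
    have h1 := hl.2
    omega
  have hnt : Nontrivial (P.inertia (K ≃ₐ[k] K)) := by
    haveI : Finite (P.inertia (K ≃ₐ[k] K)) := Nat.finite_of_card_ne_zero (by omega)
    exact (Finite.one_lt_card_iff_nontrivial).mp hcard2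
  obtain ⟨σ, hσ1⟩ := exists_ne (1 : P.inertia (K ≃ₐ[k] K))
  have hσne : (σ : K ≃ₐ[k] K) α₁ ≠ α₁ := fun h => hσ1 (Subtype.ext (hine1 _ σ.2 h))
  have hres : ∀ α ∈ A, q (β ((σ : K ≃ₐ[k] K) α)) = q (β α) := fun α hα =>
    hine _ σ.2 α (hAint α hα)
  have hs1 : (σ : K ≃ₐ[k] K) α₁ = α₂ :=
    (hmem12 _ (hσA _ _ hm1.1) ((hres _ hm1.1).trans hm1.2)).resolve_left hσne
  have hs2 : (σ : K ≃ₐ[k] K) α₂ = α₁ := by
    refine (hmem12 _ (hσA _ _ hm2.1) ((hres _ hm2.1).trans hm2.2)).resolve_right fun h => ?_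
    exact h12 ((σ : K ≃ₐ[k] K).injective (hs1.trans h.symm))
  refine ⟨σ, α₁, α₂, hm1.1, hm2.1, h12, hs1, hs2, fun α hα h1 h3 => ?_⟩
  by_contra hne
  have h4 := hA1 _ (hσA (σ : K ≃ₐ[k] K) α hα) _ hα hne (hres α hα)
  rcases hmem12 _ hα ((hres α hα) ▸ h4) with h5 | h5
  · exact h1 h5
  · exact h3 h5

end Pool.Agent.Lib.MP_89bcae_ag

end

section

/-!
# Counting the polynomials of types A and B modulo a prime
-/

open Polynomial

namespace Pool.Agent.Lib.MP_89bcae_ag

set_option linter.unusedSectionVars false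
set_option linter.style.haveILetI false
set_option linter.unusedVariables false


section Coeff

variable {k : Type} [Field k] [Fintype k]

/-- The coefficient vector. -/
def coeffs14 (n : ℕ) (f : k[X]) : Fin (n + 1) → k := fun i => f.coeff i

omit [Fintype k] in
lemma coeffs_inj14 {n : ℕ} {f f' : k[X]} (hf : f.natDegree ≤ n) (hf' : f'.natDegree ≤ n)
    (h : coeffs14 n f = coeffs14 n f') : f = f' := by
  ext i
  by_cases hi : i < n + 1
  · exact congrFun h ⟨i, hi⟩
  · rw [coeff_eq_zero_of_natDegree_lt (by omega), coeff_eq_zero_of_natDegree_lt (by omega)]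

lemma ncard_ne_zero14 : ({u : k | u ≠ 0}).ncard = Fintype.card k - 1 := by
  classical
  have h1 : {u : k | u ≠ 0} = ((Finset.univ.erase (0 : k) : Finset k) : Set k) := by
    ext u
    simp
  rw [h1, Set.ncard_coe_finset, Finset.card_erase_of_mem (Finset.mem_univ _), Finset.card_univ]

/-- The number of the polynomials of type A. -/
lemma count_A14 (g : k[X]) (n : ℕ) :
    (Fintype.card k - 1) * (family g n).ncard ≤
      ({v : Fin (n + 1) → k | ∃ f : k[X], coeffs14 n f = v ∧ f.natDegree = n ∧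
        Irreducible (f.comp g)}).ncard := by
  rw [← ncard_ne_zero14, ← Set.ncard_prod]
  apply Set.ncard_le_ncard_of_injOn (fun x : k × k[X] => coeffs14 n (C x.1 * x.2))
  · rintro ⟨u, D⟩ ⟨hu, h1, h2, h3⟩
    refine ⟨_, rfl, ?_, ?_⟩
    · rw [natDegree_C_mul hu, h2]
    · rw [mul_comp, C_comp]
      have hu' : IsUnit (C u : k[X]) := isUnit_C.mpr (isUnit_iff_ne_zero.mpr hu)
      rw [irreducible_isUnit_mul hu']
      exact h3
  · rintro ⟨u, D⟩ ⟨hu, h1, h2, h3⟩ ⟨u', D'⟩ ⟨hu', h1', h2', h3'⟩ h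
    simp only at hu hu' h1 h2 h3 h1' h2' h3' h
    have h4 := coeffs_inj14 (by rw [natDegree_C_mul hu, h2]) (by rw [natDegree_C_mul hu', h2']) h
    have h5 := congrArg leadingCoeff h4
    rw [leadingCoeff_mul, leadingCoeff_C, h1.leadingCoeff, mul_one, leadingCoeff_mul,
      leadingCoeff_C, h1'.leadingCoeff, mul_one] at h5
    subst h5
    rw [Prod.mk.injEq]
    exact ⟨rfl, mul_left_cancel₀ (C_ne_zero.mpr hu) h4⟩


end Coeff

end Pool.Agent.Lib.MP_89bcae_ag

end

section

/-!
# The transposition attached to a simple collision, on an algebraic closure, and transitivity on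
pairs over a normal extension
-/

open Polynomial IsDedekindDomain

open scoped Classical

namespace Pool.Agent.Lib.MP_89bcae_ag

set_option linter.style.haveILetI false
set_option linter.unusedSectionVars false
set_option linter.unusedVariables false

universe u

/-- An automorphism of the algebraic closure which exchanges two roots of `D` and fixes the
others. -/
def HasSwap7 (k F : Type*) [Field k] [Field F] [Algebra k F] (D : k[X]) : Prop :=
  ∃ (σ : F ≃ₐ[k] F) (α₁ α₂ : F), aeval α₁ D = 0 ∧ aeval α₂ D = 0 ∧ α₁ ≠ α₂ ∧ σ α₁ = α₂ ∧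
    σ α₂ = α₁ ∧ ∀ α : F, aeval α D = 0 → α ≠ α₁ → α ≠ α₂ → σ α = α

/-- A simple collision gives a transposition. -/
theorem hasSwap_of_collision7 (R k : Type*) (F : Type u) [CommRing R] [IsDomain R]
    [IsDiscreteValuationRing R] [Field k]
    [Algebra R k] [IsFractionRing R k] [Field F] [Algebra k F] [IsAlgClosure k F]
    (h2 : IsUnit (2 : R)) {g D : R[X]}
    (hgdeg : g.natDegree ≠ 0) (hg : g.Monic) (hlc : IsUnit D.leadingCoeff)
    (hcol : IsCollision7 g D) (hsep : ((D.comp g).map (algebraMap R k)).Separable) :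
    HasSwap7 k F (D.map (algebraMap R k)) := by
  have hF : IsAlgClosed F := IsAlgClosure.isAlgClosed k
  have hkF : Algebra.IsAlgebraic k F := IsAlgClosure.isAlgebraic
  letI : Algebra R F := ((algebraMap k F).comp (algebraMap R k)).toAlgebra
  haveI : IsScalarTower R k F := IsScalarTower.of_algebraMap_eq fun _ => rfl
  have hinjk : Function.Injective (algebraMap R k) := IsFractionRing.injective R k
  have hinjF : Function.Injective (algebraMap R F) := (algebraMap k F).injective.comp hinjk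
  have hmapF : ∀ p : R[X], (p.map (algebraMap R k)).map (algebraMap k F) =
      p.map (algebraMap R F) := fun p => by rw [Polynomial.map_map]; rfl
  have hlcF' : (D.map (algebraMap R F)).leadingCoeff = algebraMap R F D.leadingCoeff :=
    leadingCoeff_map_of_injective hinjF D
  have hcompF : (D.map (algebraMap R F)).comp (g.map (algebraMap R F)) =
      ((D.comp g).map (algebraMap R k)).map (algebraMap k F) := by
    rw [hmapF, Polynomial.map_comp]
  have hsepF : ((D.map (algebraMap R F)).comp (g.map (algebraMap R F))).Separable := by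
    rw [hcompF]; exact hsep.map
  have hgF : (g.map (algebraMap R F)).natDegree ≠ 0 := by rwa [hg.natDegree_map]
  have hsepD : (D.map (algebraMap R F)).Separable := separable_left7 hgF hsepF
  set gF := g.map (algebraMap R F) with hgFdef
  set DF := D.map (algebraMap R F) with hDFdef
  set S : Finset F := (DF.comp gF).roots.toFinset with hS
  set A : Finset F := DF.roots.toFinset with hA
  have hmemS : ∀ b, b ∈ S ↔ DF.eval (gF.eval b) = 0 := by
    intro b
    rw [hS, Multiset.mem_toFinset, mem_roots hsepF.ne_zero, IsRoot.def, eval_comp]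
  have hmemA : ∀ α, α ∈ A ↔ DF.eval α = 0 := by
    intro α
    rw [hA, Multiset.mem_toFinset, mem_roots hsepD.ne_zero, IsRoot.def]
  have hSA : ∀ b ∈ S, gF.eval b ∈ A := fun b hb => (hmemA _).mpr ((hmemS b).mp hb)
  have hDA : DF = C (algebraMap R F D.leadingCoeff) * ∏ α ∈ A, (X - C α) := by
    rw [← hlcF']
    exact eq_prod_roots7 hsepD
  have hgS : ∀ α ∈ A, gF - C α = ∏ b ∈ S.filter (fun b => gF.eval b = α), (X - C b) := by
    intro α hα
    have h1 : (gF - C α) ∣ DF.comp gF := by
      obtain ⟨w, hw⟩ := dvd_iff_isRoot.mpr ((hmemA α).mp hα)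
      refine ⟨w.comp gF, ?_⟩
      rw [hw, mul_comp, sub_comp, X_comp, C_comp]
    have h3 := eq_prod_roots7 (hsepF.of_dvd h1)
    have h4 : (gF - C α).Monic := by
      have h5 : (C α).degree < gF.degree := by
        rw [degree_eq_natDegree (p := gF) (fun h => hgF (by rw [h, natDegree_zero]))]
        exact (degree_C_le).trans_lt (by exact_mod_cast Nat.pos_of_ne_zero hgF)
      exact (hg.map _).sub_of_left h5
    rw [h4.leadingCoeff, C_1, one_mul] at h3
    rw [h3]
    congr 1
    ext b
    rw [Finset.mem_filter, Multiset.mem_toFinset, mem_roots h4.ne_zero, IsRoot.def, eval_sub,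
      eval_C, sub_eq_zero, hmemS]
    constructor
    · exact fun h => ⟨by rw [h]; exact (hmemA α).mp hα, h⟩
    · exact fun h => h.2
  have hAS : ∀ α ∈ A, ∃ b ∈ S, gF.eval b = α := by
    intro α hα
    have h1 : (gF - C α).degree ≠ 0 := by
      intro h4
      have h3 : (gF - C α).natDegree = gF.natDegree := natDegree_sub_C
      rw [natDegree_eq_of_degree_eq_some h4] at h3
      exact hgF h3.symm
    obtain ⟨b, hb⟩ := IsAlgClosed.exists_root _ h1
    rw [IsRoot.def, eval_sub, eval_C, sub_eq_zero] at hb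
    exact ⟨b, (hmemS b).mpr (by rw [hb]; exact (hmemA α).mp hα), hb⟩
  have hSroot : (S : Set F) = ((D.comp g).map (algebraMap R k)).rootSet F := by
    rw [rootSet, hS, hcompF, aroots]
  obtain ⟨hfin, hgal⟩ := galois7 (F := F) hsep
  obtain ⟨K, hK⟩ : ∃ K, K = IntermediateField.adjoin k (S : Set F) := ⟨_, rfl⟩
  haveI : FiniteDimensional k K := by rw [hK, hSroot]; exact hfin
  haveI : IsGalois k K := by rw [hK, hSroot]; exact hgal
  have hSK : ∀ b ∈ S, b ∈ K := by
    intro b hb
    rw [hK]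
    exact IntermediateField.subset_adjoin _ _ hb
  have hRK : ∀ r : R, algebraMap R F r ∈ K := by
    intro r
    rw [IsScalarTower.algebraMap_apply R k F]
    exact K.algebraMap_mem _
  have hgK : ∀ b ∈ K, gF.eval b ∈ K := by
    intro b hb
    rw [hgFdef, eval_map, eval₂_eq_sum_range]
    exact K.sum_mem fun i _ => K.mul_mem (hRK _) (pow_mem hb i)
  have hAK : ∀ α ∈ A, α ∈ K := by
    intro α hα
    obtain ⟨b, hb, rfl⟩ := hAS α hα
    exact hgK b (hSK b hb)
  have hcomp : (algebraMap K F).comp (algebraMap R K) = algebraMap R F := RingHom.ext fun r => rfl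
  have hinj : Function.Injective (Polynomial.map (algebraMap K F)) :=
    Polynomial.map_injective _ (algebraMap K F).injective
  have hev : ∀ b : K, (((g.map (algebraMap R K)).eval b : K) : F) = gF.eval (b : F) := by
    intro b
    rw [hgFdef, ← hcomp, ← Polynomial.map_map, eval_map (algebraMap K F)]
    exact (eval₂_at_apply (algebraMap K F) b).symm
  obtain ⟨σ, α₁, α₂, hα₁, hα₂, h12, hs1, hs2, hfix⟩ := exists_swap7 (k := k) (K := K) h2 hgdeg hg hlc
    (S.subtype (· ∈ K)) (A.subtype (· ∈ K)) (by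
      apply hinj
      rw [Polynomial.map_map, hcomp, ← hDFdef, hDA, Polynomial.map_mul, map_C, Polynomial.map_prod]
      congr 1
      have h1 := prod_subtype7 (· ∈ K) A hAK (fun _ => True) (fun _ => True) (fun _ => Iff.rfl)
        (fun b => (X - C b : F[X]))
      rw [Finset.filter_true, Finset.filter_true] at h1
      rw [← h1]
      refine Finset.prod_congr rfl fun b _ => ?_
      rw [Polynomial.map_sub, map_X, map_C]
      rfl) (by
      intro α hα
      apply hinj
      rw [Polynomial.map_sub, Polynomial.map_map, hcomp, map_C, Polynomial.map_prod]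
      rw [Finset.mem_subtype] at hα
      have h1 := prod_subtype7 (· ∈ K) S hSK (fun b => (g.map (algebraMap R K)).eval b = α)
        (fun b => gF.eval b = (α : F))
        (fun b => by rw [← hev, Subtype.coe_inj]) (fun b => (X - C b : F[X]))
      refine (hgS α hα).trans (h1.symm.trans ?_)
      refine Finset.prod_congr rfl fun b _ => ?_
      rw [Polynomial.map_sub, map_X, map_C]
      rfl) (by
      intro b hb
      rw [Finset.mem_subtype] at hb ⊢
      rw [hev]
      exact hSA b hb) (by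
      intro σ hσ
      subst hK
      ext x
      have h1 : (σ : _ ≃ₐ[k] _).toAlgHom = AlgHom.id k _ := by
        apply IntermediateField.algHom_ext_of_eq_adjoin _ rfl
        intro y hy
        exact hσ ⟨y, IntermediateField.subset_adjoin _ _ hy⟩ (Finset.mem_subtype.mpr hy)
      exact congrArg Subtype.val (congrArg (fun f => f x) h1)) hcol
  rw [Finset.mem_subtype] at hα₁ hα₂
  have hevD : ∀ b : F, aeval b (D.map (algebraMap R k)) = DF.eval b := by
    intro b
    rw [← eval_map_algebraMap, hmapF]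
  obtain ⟨τ, hτ⟩ := AlgEquiv.restrictNormalHom_surjective (F := k) (K₁ := K) F σ
  have hτK : ∀ z : K, τ z = (σ z : K) := by
    intro z
    rw [← hτ]
    exact (AlgEquiv.restrictNormal_commutes τ K z).symm
  refine ⟨τ, α₁, α₂, by rw [hevD]; exact (hmemA _).mp hα₁, by rw [hevD]; exact (hmemA _).mp hα₂,
    fun h => h12 (Subtype.ext h), by rw [hτK, hs1], by rw [hτK, hs2], fun α hα h1 h3 => ?_⟩
  rw [hevD] at hα
  have hαA : α ∈ A := (hmemA _).mpr hα
  have h4 := hτK ⟨α, hAK α hαA⟩
  rw [hfix ⟨α, hAK α hαA⟩ (Finset.mem_subtype.mpr hαA) (fun h => h1 (congrArg Subtype.val h))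
    (fun h => h3 (congrArg Subtype.val h))] at h4
  exact h4

/-- **Transitivity on pairs over a normal extension** `K/k`, from the same over `k` and one
transposition over `K`. -/
theorem isPairTransitive_of_swap7 {k K F : Type*} [Field k] [Field K] [Field F] [Algebra k K]
    [Algebra K F] [Algebra k F] [IsScalarTower k K F] [Normal k K] {D : k[X]}
    (hX : IsPairTransitive7 k F X D) (hs : HasSwap7 K F (D.map (algebraMap k K))) :
    IsPairTransitive7 K F X (D.map (algebraMap k K)) := by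
  obtain ⟨σ, α₁, α₂, h1, h2, h12, hs1, hs2, hfix⟩ := hs
  have hae : ∀ α : F, aeval α (D.map (algebraMap k K)) = aeval α D := fun α =>
    aeval_map_algebraMap K α D
  rw [hae] at h1 h2
  have hX' : ∀ α β α' β' : F, aeval α D = 0 → aeval β D = 0 → aeval α' D = 0 → aeval β' D = 0 →
      α ≠ β → α' ≠ β' → ∃ σ : F ≃ₐ[k] F, σ α = α' ∧ σ β = β' := by
    intro α β α' β' h1 h2 h3 h4 h5 h6
    apply hX α β α' β' <;> simpa
  -- all the transpositions
  have hT : ∀ a b : F, aeval a D = 0 → aeval b D = 0 → a ≠ b → ∃ ρ : F ≃ₐ[K] F, ρ a = b ∧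
      ρ b = a ∧ ∀ c : F, aeval c D = 0 → c ≠ a → c ≠ b → ρ c = c := by
    intro a b ha hb hab
    obtain ⟨τ, hτ1, hτ2⟩ := hX' α₁ α₂ a b h1 h2 ha hb h12 hab
    have hτ1' : τ.symm a = α₁ := by rw [← hτ1, AlgEquiv.symm_apply_apply]
    have hτ2' : τ.symm b = α₂ := by rw [← hτ2, AlgEquiv.symm_apply_apply]
    have hcomm : ∀ x : K, τ (σ (τ.symm (algebraMap K F x))) = algebraMap K F x := by
      intro x
      have h3 : τ.symm (algebraMap K F x) = algebraMap K F (τ.symm.restrictNormal K x) :=
        (AlgEquiv.restrictNormal_commutes τ.symm K x).symm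
      rw [h3, σ.commutes, ← h3, AlgEquiv.apply_symm_apply]
    let ρ₀ : F ≃+* F := ((τ.symm : F ≃+* F).trans (σ : F ≃+* F)).trans (τ : F ≃+* F)
    let ρ : F ≃ₐ[K] F := AlgEquiv.ofRingEquiv (f := ρ₀) hcomm
    have hρ : ∀ x : F, ρ x = τ (σ (τ.symm x)) := fun x => rfl
    refine ⟨ρ, by rw [hρ, hτ1', hs1, hτ2], by rw [hρ, hτ2', hs2, hτ1], fun c hc hca hcb => ?_⟩
    rw [hρ, hfix (τ.symm c) ?_ ?_ ?_, AlgEquiv.apply_symm_apply]
    · rw [hae]
      have h3 : aeval (τ.symm c) D = τ.symm (aeval c D) :=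
        Polynomial.aeval_algHom_apply τ.symm c D
      rw [h3, hc, map_zero]
    · intro h
      apply hca
      rw [← hτ1, ← h, AlgEquiv.apply_symm_apply]
    · intro h
      apply hcb
      rw [← hτ2, ← h, AlgEquiv.apply_symm_apply]
  have hroot : ∀ (ρ : F ≃ₐ[K] F) (c : F), aeval c D = 0 → aeval (ρ c) D = 0 := by
    intro ρ c hc
    rw [← hae] at hc ⊢
    have h3 : aeval (ρ c) (D.map (algebraMap k K)) = ρ (aeval c (D.map (algebraMap k K))) :=
      Polynomial.aeval_algHom_apply ρ c _
    rw [h3, hc, map_zero]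
  intro b c b' c' hb hc hb' hc' hbc hbc'
  rw [comp_X, hae] at hb hc hb' hc'
  rw [aeval_X, aeval_X] at hbc hbc'
  -- first move `b` to `b'`
  obtain ⟨ρ₁, hρ₁⟩ : ∃ ρ₁ : F ≃ₐ[K] F, ρ₁ b = b' := by
    by_cases h : b = b'
    · exact ⟨AlgEquiv.refl, h⟩
    · obtain ⟨ρ, h3, -⟩ := hT b b' hb hb' h
      exact ⟨ρ, h3⟩
  have hc1 := hroot ρ₁ c hc
  have hne : ρ₁ c ≠ b' := by
    rw [← hρ₁]
    exact fun h => hbc (ρ₁.injective h).symm
  by_cases h : ρ₁ c = c'
  · exact ⟨ρ₁, hρ₁, h⟩
  · obtain ⟨ρ₂, h3, -, h4⟩ := hT (ρ₁ c) c' hc1 hc' h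
    refine ⟨ρ₁.trans ρ₂, ?_, h3⟩
    change ρ₂ (ρ₁ b) = b'
    rw [hρ₁]
    exact h4 b' hb' hne.symm hbc'

end Pool.Agent.Lib.MP_89bcae_ag

end

section

/-!
# Types A and B: Frobenius elements and counts
-/

open Polynomial

open scoped Classical

namespace Pool.Agent.Lib.MP_89bcae_ag


lemma polyOf_coeffs14 {k : Type} [Field k] {n : ℕ} {f : k[X]} (hf : f.natDegree = n) :
    polyOf8 (coeffs14 n f) = f := by
  unfold polyOf8 coeffs14
  conv_rhs => rw [f.as_sum_range_C_mul_X_pow, hf]
  rw [Finset.sum_range]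


end Pool.Agent.Lib.MP_89bcae_ag

end

section

/-!
# Counting polynomials modulo `p` and modulo `p ^ 2`, for `g` of any degree
-/

open Polynomial

open scoped Classical

set_option linter.unusedSimpArgs false
set_option linter.unusedVariables false
set_option linter.unusedSectionVars false
set_option linter.style.haveILetI false

namespace Pool.Agent.Lib.MP_89bcae_ag

section Crit

variable {K : Type*} [Field K]

/-- A polynomial with nonzero derivative has less than `deg g` critical values. -/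
theorem card_crit14 {g : K[X]} (hder : derivative g ≠ 0)
    (S : Finset K) (hS : ∀ e ∈ S, ¬ (g - C e).Separable) : S.card ≤ g.natDegree - 1 := by
  let L := AlgebraicClosure K
  have hex : ∀ e ∈ S, ∃ θ ∈ ((derivative g).aroots L).toFinset, aeval θ g = algebraMap K L e := by
    intro e he
    have h1 := hS e he
    rw [Polynomial.Separable, Polynomial.isCoprime_iff_aeval_ne_zero_of_isAlgClosed K L] at h1
    push Not at h1
    obtain ⟨θ, h4, h5⟩ := h1
    rw [derivative_sub, derivative_C, sub_zero] at h5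
    rw [map_sub, aeval_C, sub_eq_zero] at h4
    exact ⟨θ, by rw [Multiset.mem_toFinset, mem_aroots]; exact ⟨hder, h5⟩, h4⟩
  choose! f hf1 hf2 using hex
  have h6 : S.card ≤ ((derivative g).aroots L).toFinset.card := by
    apply Finset.card_le_card_of_injOn f hf1
    intro x hx y hy hxy
    apply (algebraMap K L).injective
    rw [← hf2 x hx, ← hf2 y hy, hxy]
  refine h6.trans ((Multiset.toFinset_card_le _).trans ?_)
  refine (card_roots' _).trans ?_
  rw [natDegree_map]
  exact natDegree_derivative_le g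

/-- The derivative of a monic polynomial of degree `m ≠ 0` in `K` is not zero. -/
lemma derivative_ne_zero14 {g : K[X]} (hg : g.Monic) (h : (g.natDegree : K) ≠ 0) :
    derivative g ≠ 0 := by
  intro h0
  have hd : g.natDegree ≠ 0 := by
    intro h1
    rw [h1, Nat.cast_zero] at h
    exact h rfl
  obtain ⟨d, hd'⟩ := Nat.exists_eq_succ_of_ne_zero hd
  have h1 : (derivative g).coeff d = 0 := by rw [h0, coeff_zero]
  rw [coeff_derivative] at h1
  have h2 : g.coeff (d + 1) = 1 := by
    have h3 := hg.coeff_natDegree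
    rwa [hd', Nat.succ_eq_add_one] at h3
  rw [h2, one_mul] at h1
  apply h
  rw [hd', Nat.succ_eq_add_one]
  push_cast
  exact h1

end Crit

section Irr

/-- The number of the irreducible polynomials. -/
lemma irr_lower14 {k : Type} [Field k] [Fintype k] (hq : 3 ≤ Fintype.card k) {n : ℕ} (hn : 2 ≤ n) :
    Fintype.card k ^ n ≤ 2 * (n * (family (X : k[X]) n).ncard) := by
  have hfin := family_finite8 (X : k[X]) n
  have hfam : ∀ D ∈ hfin.toFinset, D.Monic ∧ D.natDegree = n ∧ Irreducible D := by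
    intro D hD
    rw [Set.Finite.mem_toFinset] at hD
    exact ⟨hD.1, hD.2.1, by simpa using hD.2.2⟩
  have hcard : hfin.toFinset.card = (family (X : k[X]) n).ncard :=
    (Set.ncard_eq_toFinset_card _ hfin).symm
  obtain ⟨A, hA1, hA2⟩ := exists_roots_card8 (F := AlgebraicClosure k) n hfin.toFinset hfam
  have h1 := Frob14.card_fixS (k := k) (F := AlgebraicClosure k) (i := n) (by omega)
  have h2 := Frob14.small_card (k := k) (F := AlgebraicClosure k) n (by omega)
  have h3 := Frob14.two_mul_sum_pow_le hq (n / 2)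
  have h4 : 3 * Fintype.card k ^ (n / 2) ≤ Fintype.card k ^ n := by
    calc 3 * Fintype.card k ^ (n / 2) ≤ Fintype.card k * Fintype.card k ^ (n - 1) :=
          Nat.mul_le_mul hq (Nat.pow_le_pow_right (by omega) (by omega))
      _ = Fintype.card k ^ n := by
          rw [← pow_succ']
          congr 1
          omega
  have h5 := Finset.card_filter_add_card_filter_not (s := Frob14.fixS k (AlgebraicClosure k) n)
    (fun v => ∃ j, 0 < j ∧ j < n ∧ v ^ (Fintype.card k ^ j) = v)
  have h6 : ((Frob14.fixS k (AlgebraicClosure k) n).filter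
      (fun v => ¬ ∃ j, 0 < j ∧ j < n ∧ v ^ (Fintype.card k ^ j) = v)).card ≤ A.card := by
    apply Finset.card_le_card
    intro a ha
    rw [Finset.mem_filter, Frob14.mem_fixS (by omega)] at ha
    obtain ⟨ha1, ha2⟩ := ha
    rw [hA1, Set.Finite.mem_toFinset]
    have hint : IsIntegral k a := Algebra.IsIntegral.isIntegral a
    refine ⟨minpoly.monic hint, ?_, ?_⟩
    · have h1 : (minpoly k a).natDegree ∣ n := by
        rw [← frob8_pow_eq_iff, frob8_pow_apply, ha1]
      have h2 := Nat.le_of_dvd (by omega) h1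
      have h3 : 0 < (minpoly k a).natDegree := minpoly.natDegree_pos hint
      by_contra h4
      apply ha2
      refine ⟨(minpoly k a).natDegree, h3, lt_of_le_of_ne h2 h4, ?_⟩
      rw [← frob8_pow_apply, frob8_pow_eq_iff]
    · rw [comp_X]
      exact minpoly.irreducible hint
  rw [hA2, hcard] at h6
  omega

variable {k : Type} [Field k] [Fintype k]

/-- The number of the products of a linear and an irreducible polynomial. -/
lemma count_BX14 {n : ℕ} (hn : 3 ≤ n) :
    (Fintype.card k - 1) * Fintype.card k * (family (X : k[X]) (n - 1)).ncard ≤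
      ({v : Fin (n + 1) → k | ∃ f : k[X], coeffs14 n f = v ∧ f.natDegree = n ∧
        ∃ (b : k) (D₁ : k[X]), f = (X - C b) * D₁ ∧ Irreducible D₁ ∧ D₁.natDegree = n - 1}).ncard := by
  have huniv : Fintype.card k = (Set.univ : Set k).ncard := by
    rw [Set.ncard_univ, Nat.card_eq_fintype_card]
  rw [← ncard_ne_zero14]
  conv_lhs => rw [huniv]
  rw [← Set.ncard_prod, ← Set.ncard_prod]
  apply Set.ncard_le_ncard_of_injOn
    (fun x : (k × k) × k[X] => coeffs14 n (C x.1.1 * ((X - C x.1.2) * x.2)))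
  · rintro ⟨⟨u, α⟩, D⟩ ⟨⟨hu, -⟩, h1, h2, h3⟩
    simp only at hu h1 h2 h3
    rw [comp_X] at h3
    refine ⟨_, rfl, ?_, α, C u * D, ?_, ?_, ?_⟩
    · change (C u * ((X - C α) * D)).natDegree = n
      rw [natDegree_C_mul hu, (monic_X_sub_C α).natDegree_mul h1, natDegree_X_sub_C, h2]
      omega
    · change C u * ((X - C α) * D) = _
      ring
    · have hu' : IsUnit (C u : k[X]) := isUnit_C.mpr (isUnit_iff_ne_zero.mpr hu)
      rw [irreducible_isUnit_mul hu']
      exact h3
    · rw [natDegree_C_mul hu, h2]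
  · rintro ⟨⟨u, α⟩, D⟩ ⟨⟨hu, -⟩, h1, h2, h3⟩ ⟨⟨u', α'⟩, D'⟩ ⟨⟨hu', -⟩, h1', h2', h3'⟩ h
    simp only at hu hu' h1 h2 h3 h1' h2' h3' h
    rw [comp_X] at h3 h3'
    have hdg : ∀ (u α : k) (D : k[X]), u ≠ 0 → D.Monic → D.natDegree = n - 1 →
        (C u * ((X - C α) * D)).natDegree ≤ n := by
      intro u α D hu h1 h2
      rw [natDegree_C_mul hu, (monic_X_sub_C α).natDegree_mul h1, natDegree_X_sub_C, h2]
      omega
    have h4 := coeffs_inj14 (hdg u α D hu h1 h2) (hdg u' α' D' hu' h1' h2') h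
    have h5 := congrArg leadingCoeff h4
    rw [leadingCoeff_mul, leadingCoeff_C, ((monic_X_sub_C α).mul h1).leadingCoeff, mul_one,
      leadingCoeff_mul, leadingCoeff_C, ((monic_X_sub_C α').mul h1').leadingCoeff, mul_one] at h5
    subst h5
    have h6 := mul_left_cancel₀ (C_ne_zero.mpr hu) h4
    have h7 : α = α' := by
      by_contra hne
      have h8 := congrArg (eval α) h6
      rw [eval_mul, eval_sub, eval_X, eval_C, sub_self, zero_mul, eval_mul, eval_sub, eval_X,
        eval_C, eq_comm, mul_eq_zero] at h8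
      rcases h8 with h8 | h8
      · exact hne (sub_eq_zero.mp h8)
      · have h9 : D'.natDegree = 1 := natDegree_eq_of_degree_eq_some
          (degree_eq_one_of_irreducible_of_root h3' h8)
        rw [h2'] at h9
        omega
    subst h7
    rw [Prod.mk.injEq]
    exact ⟨rfl, mul_left_cancel₀ (X_sub_C_ne_zero α) h6⟩

end Irr

/-- The polynomial is irreducible of degree `n`. -/
def TypeAX14 {κ : Type} [Field κ] (D : κ[X]) (n : ℕ) : Prop :=
  Irreducible D ∧ D.natDegree = n

/-- The polynomial is the product of a linear polynomial and an irreducible polynomial of degree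
`n - 1`. -/
def TypeBX14 {κ : Type} [Field κ] (D : κ[X]) (n : ℕ) : Prop :=
  ∃ (b : κ) (D₁ : κ[X]), D = (X - C b) * D₁ ∧ Irreducible D₁ ∧ D₁.natDegree = n - 1 ∧
    D.natDegree = n

/-- The polynomial `D` has degree `n` and `D(g)` is separable. -/
def TypeS14 {κ : Type} [Field κ] (g D : κ[X]) (n : ℕ) : Prop :=
  D.natDegree = n ∧ (D.comp g).Separable

/-- The number of the residue classes of type A. -/
theorem count_typeAX14 (n : ℕ) (hn : 2 ≤ n) : ∃ c : ℝ, 0 < c ∧ ∃ P₀ : ℕ, ∀ p : ℕ,
    ∀ _ : Fact p.Prime, P₀ ≤ p →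
      c * (p : ℝ) ^ (n + 1) ≤
        ({v : Fin (n + 1) → ZMod p | TypeAX14 (polyOf8 v) n}.ncard : ℝ) := by
  have hn0 : (0 : ℝ) < n := by exact_mod_cast (by omega : 0 < n)
  refine ⟨1 / (4 * n), by positivity, 3, fun p _ hp3 => ?_⟩
  have hp : p.Prime := Fact.out
  have hcard := ZMod.card p
  have h3 := irr_lower14 (k := ZMod p) (by rw [hcard]; exact hp3) hn
  have h4 := count_A14 (X : (ZMod p)[X]) n
  rw [hcard] at h3 h4
  have h5 : ({v : Fin (n + 1) → ZMod p | ∃ f : (ZMod p)[X], coeffs14 n f = v ∧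
      f.natDegree = n ∧ Irreducible (f.comp X)}).ncard ≤
      {v : Fin (n + 1) → ZMod p | TypeAX14 (polyOf8 v) n}.ncard := by
    apply Set.ncard_le_ncard _ (Set.toFinite _)
    rintro v ⟨f, rfl, hfn, hirr⟩
    change TypeAX14 (polyOf8 (coeffs14 n f)) n
    rw [polyOf_coeffs14 hfn]
    rw [comp_X] at hirr
    exact ⟨hirr, hfn⟩
  have h6 : ((p : ℝ) - 1) * ((family (X : (ZMod p)[X]) n).ncard : ℝ) ≤
      ({v : Fin (n + 1) → ZMod p | TypeAX14 (polyOf8 v) n}.ncard : ℝ) := by
    have h7 := h4.trans h5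
    have h8 : (((p - 1) * (family (X : (ZMod p)[X]) n).ncard : ℕ) : ℝ) =
        ((p : ℝ) - 1) * ((family (X : (ZMod p)[X]) n).ncard : ℝ) := by
      rw [Nat.cast_mul, Nat.cast_sub (by omega), Nat.cast_one]
    rw [← h8]
    exact_mod_cast h7
  refine le_trans ?_ h6
  have h7 : (p : ℝ) ^ n ≤ 2 * (n * ((family (X : (ZMod p)[X]) n).ncard : ℝ)) := by
    exact_mod_cast h3
  have hp3' : (3 : ℝ) ≤ p := by exact_mod_cast hp3
  rw [div_mul_eq_mul_div, one_mul, div_le_iff₀ (by positivity)]
  have h8 : (0 : ℝ) ≤ ((family (X : (ZMod p)[X]) n).ncard : ℝ) := Nat.cast_nonneg _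
  calc (p : ℝ) ^ (n + 1) = p * (p : ℝ) ^ n := by ring
    _ ≤ p * (2 * (n * ((family (X : (ZMod p)[X]) n).ncard : ℝ))) := by
        apply mul_le_mul_of_nonneg_left h7; linarith
    _ = 2 * p * (n * ((family (X : (ZMod p)[X]) n).ncard : ℝ)) := by ring
    _ ≤ 4 * (p - 1) * (n * ((family (X : (ZMod p)[X]) n).ncard : ℝ)) := by
        apply mul_le_mul_of_nonneg_right _ (by positivity)
        linarith
    _ = _ := by ring

/-- The number of the residue classes of type B. -/
theorem count_typeBX14 (n : ℕ) (hn : 3 ≤ n) : ∃ c : ℝ, 0 < c ∧ ∃ P₀ : ℕ, ∀ p : ℕ,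
    ∀ _ : Fact p.Prime, P₀ ≤ p →
      c * (p : ℝ) ^ (n + 1) ≤
        ({v : Fin (n + 1) → ZMod p | TypeBX14 (polyOf8 v) n}.ncard : ℝ) := by
  have hn0 : (0 : ℝ) < n := by exact_mod_cast (by omega : 0 < n)
  refine ⟨1 / (4 * n), by positivity, 3, fun p _ hp3 => ?_⟩
  have hp : p.Prime := Fact.out
  have hcard := ZMod.card p
  have h3 := irr_lower14 (k := ZMod p) (by rw [hcard]; exact hp3) (n := n - 1) (by omega)
  have h4 := count_BX14 (k := ZMod p) hn
  rw [hcard] at h3 h4
  have h5 : ({v : Fin (n + 1) → ZMod p | ∃ f : (ZMod p)[X], coeffs14 n f = v ∧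
      f.natDegree = n ∧ ∃ (b : ZMod p) (D₁ : (ZMod p)[X]), f = (X - C b) * D₁ ∧
        Irreducible D₁ ∧ D₁.natDegree = n - 1}).ncard ≤
      {v : Fin (n + 1) → ZMod p | TypeBX14 (polyOf8 v) n}.ncard := by
    apply Set.ncard_le_ncard _ (Set.toFinite _)
    rintro v ⟨f, rfl, hfn, b, D₁, hf, hirr, hd⟩
    change TypeBX14 (polyOf8 (coeffs14 n f)) n
    rw [polyOf_coeffs14 hfn]
    exact ⟨b, D₁, hf, hirr, hd, hfn⟩
  have h6 : ((p : ℝ) - 1) * p * ((family (X : (ZMod p)[X]) (n - 1)).ncard : ℝ) ≤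
      ({v : Fin (n + 1) → ZMod p | TypeBX14 (polyOf8 v) n}.ncard : ℝ) := by
    have h7 := h4.trans h5
    have h8 : (((p - 1) * p * (family (X : (ZMod p)[X]) (n - 1)).ncard : ℕ) : ℝ) =
        ((p : ℝ) - 1) * p * ((family (X : (ZMod p)[X]) (n - 1)).ncard : ℝ) := by
      rw [Nat.cast_mul, Nat.cast_mul, Nat.cast_sub (by omega), Nat.cast_one]
    rw [← h8]
    exact_mod_cast h7
  refine le_trans ?_ h6
  have h7 : (p : ℝ) ^ (n - 1) ≤
      2 * (((n - 1 : ℕ) : ℝ) * ((family (X : (ZMod p)[X]) (n - 1)).ncard : ℝ)) := by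
    exact_mod_cast h3
  have hp3' : (3 : ℝ) ≤ p := by exact_mod_cast hp3
  have h8 : (0 : ℝ) ≤ ((family (X : (ZMod p)[X]) (n - 1)).ncard : ℝ) := Nat.cast_nonneg _
  have h9 : (p : ℝ) ^ (n - 1) ≤ 2 * (n * ((family (X : (ZMod p)[X]) (n - 1)).ncard : ℝ)) := by
    refine h7.trans ?_
    have : ((n - 1 : ℕ) : ℝ) ≤ n := by exact_mod_cast Nat.sub_le _ _
    nlinarith [mul_le_mul_of_nonneg_right this h8]
  rw [div_mul_eq_mul_div, one_mul, div_le_iff₀ (by positivity)]
  have h12 : (p : ℝ) ^ (n + 1) = p ^ 2 * (p : ℝ) ^ (n - 1) := by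
    rw [← pow_add]
    congr 1
    omega
  have h13 : (p : ℝ) ^ 2 ≤ 2 * ((p - 1) * p) := by nlinarith
  calc (p : ℝ) ^ (n + 1) = p ^ 2 * (p : ℝ) ^ (n - 1) := h12
    _ ≤ 2 * ((p - 1) * p) * (2 * (n * ((family (X : (ZMod p)[X]) (n - 1)).ncard : ℝ))) := by
        apply mul_le_mul h13 h9 (by positivity)
        apply le_trans _ h13
        positivity
    _ = _ := by ring

end Pool.Agent.Lib.MP_89bcae_ag

end

section

/-!
# Counting the polynomials with a simple collision, with a simple pole and with simple roots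
-/

open Polynomial

open scoped Classical

set_option linter.unusedSimpArgs false
set_option linter.unusedVariables false
set_option linter.unusedSectionVars false
set_option linter.style.haveILetI false

namespace Pool.Agent.Lib.MP_89bcae_ag

section Count

variable {p : ℕ} [Fact p.Prime]

/-- The noncritical values. -/
lemma noncritical14 {d : ℕ} (hd : d ≠ 0) (hp : d < p) {g : ℤ[X]} (hg : g.Monic)
    (hdeg : g.natDegree = d) :
    p - (d - 1) ≤ (Finset.univ.filter fun e : ZMod p =>
      (g.map (Int.castRingHom (ZMod p)) - C e).Separable).card := by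
  have hpp : p.Prime := Fact.out
  have hder : derivative (g.map (Int.castRingHom (ZMod p))) ≠ 0 := by
    apply derivative_ne_zero14 (hg.map _)
    rw [hg.natDegree_map, hdeg, Ne, ZMod.natCast_eq_zero_iff]
    intro h
    have := Nat.le_of_dvd (by omega) h
    omega
  have h1 := card_crit14 hder (Finset.univ.filter fun e : ZMod p =>
      ¬ (g.map (Int.castRingHom (ZMod p)) - C e).Separable)
    (fun e he => (Finset.mem_filter.mp he).2)
  rw [hg.natDegree_map, hdeg] at h1
  have h2 := Finset.card_filter_add_card_filter_not (s := (Finset.univ : Finset (ZMod p)))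
    (fun e => (g.map (Int.castRingHom (ZMod p)) - C e).Separable)
  rw [Finset.card_univ, ZMod.card] at h2
  omega

theorem count_typeC_aux14 (m : ℕ) (hm : 1 ≤ m) {d : ℕ} (hd : d ≠ 0) (hdp : d < p) {g : ℤ[X]}
    (hg : g.Monic) (hdeg : g.natDegree = d) :
    (p - 1) * (p - (d - 1)).choose m * p ^ (m + 2) ≤
      2 * {v : Fin (m + 2) → ZMod (p ^ 2) | TypeC8 p g (m + 1) v}.ncard := by
  have hp : p.Prime := Fact.out
  have : NeZero p := ⟨hp.ne_zero⟩
  have : NeZero (p ^ 2) := ⟨pow_ne_zero 2 hp.ne_zero⟩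
  set g' := g.map (Int.castRingHom (ZMod p)) with hg'
  obtain ⟨A, hAdef⟩ : ∃ A : Finset (ZMod p),
      A = Finset.univ.filter fun e => (g' - C e).Separable := ⟨_, rfl⟩
  have hA : p - (d - 1) ≤ A.card := by
    rw [hAdef]
    exact noncritical14 hd hdp hg hdeg
  set B := ((Finset.univ.filter fun c : ZMod p => c ≠ 0) ×ˢ A.powersetCard m).image
      (fun q => fun i : Fin (m + 2) => (polC8 q.1 q.2 (pick8 q.2)).coeff i) with hB
  have hBc : (p - 1) * (p - (d - 1)).choose m ≤ B.card := by
    rw [hB, card_polC8 m hm A]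
    exact Nat.mul_le_mul_left _ (Nat.choose_le_choose m hA)
  obtain ⟨Q, hQ⟩ : ∃ Q : Finset (Fin (m + 2) → ZMod (p ^ 2)),
      Q = Finset.univ.filter fun v => red8 p v ∈ B := ⟨_, rfl⟩
  have hlift : B.card * p ^ (m + 2) ≤ Q.card := by
    rw [hQ]
    convert card_lift8 (p := p) (m + 1) B
  refine (Nat.mul_le_mul_right _ hBc).trans (hlift.trans ?_)
  -- the translation
  let T : Finset (Fin (m + 2) → ZMod (p ^ 2)) := Finset.univ.filter fun v => TypeC8 p g (m + 1) v
  have hT : {v : Fin (m + 2) → ZMod (p ^ 2) | TypeC8 p g (m + 1) v}.ncard = T.card := by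
    rw [← Set.ncard_coe_finset]
    congr 1
    ext v
    simp [T]
  rw [hT]
  have hsplit : (Q.filter (fun v => TypeC8 p g (m + 1) v)).card +
      (Q.filter (fun v => ¬ TypeC8 p g (m + 1) v)).card = Q.card := by
    convert Finset.card_filter_add_card_filter_not (s := Q) (fun v => TypeC8 p g (m + 1) v)
  have hA1 : (Q.filter (fun v => TypeC8 p g (m + 1) v)).card ≤ T.card := by
    apply Finset.card_le_card
    intro v hv
    rw [Finset.mem_filter] at hv
    exact Finset.mem_filter.mpr ⟨Finset.mem_univ _, hv.2⟩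
  have hA2 : (Q.filter (fun v => ¬ TypeC8 p g (m + 1) v)).card ≤ T.card := by
    apply Finset.card_le_card_of_injOn
      (fun v => v + Pi.single (0 : Fin (m + 2)) (p : ZMod (p ^ 2)))
    · intro v hv
      rw [Finset.mem_coe, Finset.mem_filter, hQ, Finset.mem_filter] at hv
      obtain ⟨⟨-, hvB⟩, hvT⟩ := hv
      rw [hB, Finset.mem_image] at hvB
      obtain ⟨⟨c, S⟩, hq, hv⟩ := hvB
      rw [Finset.mem_product, Finset.mem_filter, Finset.mem_powersetCard] at hq
      have hc : c ≠ 0 := hq.1.2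
      have hS : S.card = m := hq.2.2
      have hne : S.Nonempty := Finset.card_pos.mp (by omega)
      have hpm := pick_mem8 hne
      have hSA : ∀ e ∈ S, (g' - C e).Separable := fun e he =>
        by
          have h8 := hq.2.1 he
          rw [hAdef, Finset.mem_filter] at h8
          exact h8.2
      obtain ⟨h1, h2⟩ := natDegree_polC8 hc S (pick8 S)
      have hred : ∀ v' : Fin (m + 2) → ZMod (p ^ 2), red8 p v' = red8 p v →
          ∑ i : Fin (m + 2), v' i * (((pick8 S).val : ℤ) : ZMod (p ^ 2)) ^ (i : ℕ) ≠ 0 →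
          TypeC8 p g (m + 1) v' := by
        intro v' hv' hne'
        have hpick : ((((pick8 S).val : ℤ)) : ZMod p) = pick8 S := by
          push_cast
          exact ZMod.natCast_zmod_val _
        refine ⟨((pick8 S).val : ℤ), C c * ∏ e ∈ S.erase (pick8 S), (X - C e), ?_, ?_, hne', ?_⟩
        · rw [hpick, hv', ← hv, ← polC8_eq hpm]
          exact polyOf_coeff8 (show (polC8 c S (pick8 S)).natDegree ≤ m + 1 by omega)
        · rw [hpick]
          exact separable_polC8 hc hpm hSA
        · rw [hv', ← hv]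
          show (polC8 c S (pick8 S)).coeff (Fin.last (m + 1) : ℕ) ≠ 0
          rw [Fin.val_last]
          have h5 : m + 1 = (polC8 c S (pick8 S)).natDegree := by omega
          rw [h5, coeff_natDegree, h2]
          exact hc
      have h0 : ∑ i : Fin (m + 2), v i * (((pick8 S).val : ℤ) : ZMod (p ^ 2)) ^ (i : ℕ) = 0 := by
        by_contra h0
        exact hvT (hred v rfl h0)
      rw [Finset.mem_coe, Finset.mem_filter]
      refine ⟨Finset.mem_univ _, hred _ ?_ ?_⟩
      · funext i
        show ZMod.castHom (dvd_pow_self p two_ne_zero) (ZMod p)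
          ((v + Pi.single (0 : Fin (m + 2)) (p : ZMod (p ^ 2)) : Fin (m + 2) → ZMod (p ^ 2)) i) =
            ZMod.castHom (dvd_pow_self p two_ne_zero) (ZMod p) (v i)
        rw [Pi.add_apply, map_add]
        by_cases hi : i = 0
        · rw [hi, Pi.single_eq_same, map_natCast, ZMod.natCast_self, add_zero]
        · rw [Pi.single_eq_of_ne hi, map_zero, add_zero]
      · have h6 : ∑ i : Fin (m + 2),
            (v + Pi.single (0 : Fin (m + 2)) (p : ZMod (p ^ 2)) : Fin (m + 2) → ZMod (p ^ 2)) i *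
            (((pick8 S).val : ℤ) : ZMod (p ^ 2)) ^ (i : ℕ) = p := by
          simp only [Pi.add_apply, add_mul]
          rw [Finset.sum_add_distrib, h0, zero_add, Finset.sum_eq_single 0]
          · rw [Pi.single_eq_same, Fin.val_zero, pow_zero, mul_one]
          · intro i _ hi
            rw [Pi.single_eq_of_ne hi, zero_mul]
          · intro h; exact absurd (Finset.mem_univ _) h
        rw [h6]
        intro h7
        rw [ZMod.natCast_eq_zero_iff] at h7
        have h8 := Nat.le_of_dvd hp.pos h7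
        have h9 := hp.two_le
        nlinarith
    · intro v _ v' _ h
      exact add_right_cancel h
  omega

/-! ### Simple roots -/

/-- The polynomial with the leading coefficient `c` and the simple roots `S`. -/
noncomputable def polS14 (c : ZMod p) (S : Finset (ZMod p)) : (ZMod p)[X] :=
  C c * ∏ e ∈ S, (X - C e)

theorem natDegree_polS14 {c : ZMod p} (hc : c ≠ 0) (S : Finset (ZMod p)) :
    (polS14 c S).natDegree = S.card ∧ (polS14 c S).leadingCoeff = c := by
  have h1 : (∏ e ∈ S, (X - C e : (ZMod p)[X])).Monic := monic_prod_X_sub_C _ _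
  unfold polS14
  constructor
  · rw [natDegree_C_mul hc, natDegree_prod_of_monic _ _ (fun e _ => monic_X_sub_C e)]
    simp
  · rw [leadingCoeff_mul, leadingCoeff_C, h1.leadingCoeff, mul_one]

theorem roots_polS14 {c : ZMod p} (hc : c ≠ 0) (S : Finset (ZMod p)) :
    (polS14 c S).roots.toFinset = S := by
  unfold polS14
  rw [roots_C_mul _ hc, roots_prod_X_sub_C]
  ext x
  simp

theorem separable_polS14 {c : ZMod p} (hc : c ≠ 0) {S : Finset (ZMod p)}
    {g : (ZMod p)[X]} (hS : ∀ e ∈ S, (g - C e).Separable) :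
    ((polS14 c S).comp g).Separable := by
  have h1 : (polS14 c S).comp g = C c * ∏ e ∈ S, (g - C e) := by
    unfold polS14
    rw [mul_comp, C_comp, prod_comp]
    congr 1
    exact Finset.prod_congr rfl fun e _ => by rw [sub_comp, X_comp, C_comp]
  rw [h1]
  have h2 : (∏ e ∈ S, (g - C e)).Separable := by
    apply separable_prod'
    · intro x hx y hy hxy
      refine ⟨C ((y - x)⁻¹), -C ((y - x)⁻¹), ?_⟩
      have h3 : C ((y - x)⁻¹) * C (y - x) = (1 : (ZMod p)[X]) := by
        rw [← C_mul, inv_mul_cancel₀ (sub_ne_zero.mpr (Ne.symm hxy)), C_1]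
      rw [C_sub] at h3
      linear_combination h3
    · exact hS
  have h3 : (C c : (ZMod p)[X]).Separable := separable_C c |>.mpr (isUnit_iff_ne_zero.mpr hc)
  refine h3.mul h2 ⟨C c⁻¹, 0, ?_⟩
  rw [zero_mul, add_zero, ← C_mul, inv_mul_cancel₀ hc, C_1]

/-- The number of the polynomials modulo `p` with simple roots in a given set. -/
theorem card_polS14 (m n : ℕ) (hmn : m ≤ n) (A : Finset (ZMod p)) :
    (((Finset.univ.filter fun c : ZMod p => c ≠ 0) ×ˢ A.powersetCard m).image
      (fun q => fun i : Fin (n + 1) => (polS14 q.1 q.2).coeff i)).card =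
      (p - 1) * A.card.choose m := by
  have hp : p.Prime := Fact.out
  have : NeZero p := ⟨hp.ne_zero⟩
  rw [Finset.card_image_of_injOn, Finset.card_product, Finset.card_powersetCard]
  · congr 1
    rw [Finset.filter_ne', Finset.card_erase_of_mem (Finset.mem_univ _), Finset.card_univ,
      ZMod.card]
  · rintro ⟨c, S⟩ hq ⟨c', S'⟩ hq' h
    rw [Finset.mem_coe, Finset.mem_product, Finset.mem_filter, Finset.mem_powersetCard] at hq hq'
    have hc : c ≠ 0 := hq.1.2
    have hc' : c' ≠ 0 := hq'.1.2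
    have hS : S.card = m := hq.2.2
    have hS' : S'.card = m := hq'.2.2
    obtain ⟨h1, h2⟩ := natDegree_polS14 hc S
    obtain ⟨h1', h2'⟩ := natDegree_polS14 hc' S'
    have h3 : polS14 c S = polS14 c' S' := by
      rw [← polyOf_coeff8 (n := n) (D := polS14 c S) (by omega),
        ← polyOf_coeff8 (n := n) (D := polS14 c' S') (by omega)]
      exact congrArg polyOf8 h
    have h4 : c = c' := by rw [← h2, h3, h2']
    have h5 : S = S' := by
      rw [← roots_polS14 hc S, h3, roots_polS14 hc' S']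
    rw [h4, h5]

/-- Type S. -/
theorem count_typeS_aux14 (n : ℕ) {d : ℕ} (hd : d ≠ 0) (hdp : d < p) {g : ℤ[X]}
    (hg : g.Monic) (hdeg : g.natDegree = d) :
    (p - 1) * (p - (d - 1)).choose n ≤ {v : Fin (n + 1) → ZMod p |
      TypeS14 (g.map (Int.castRingHom (ZMod p))) (polyOf8 v) n}.ncard := by
  set g' := g.map (Int.castRingHom (ZMod p)) with hg'
  obtain ⟨A, hAdef⟩ : ∃ A : Finset (ZMod p),
      A = Finset.univ.filter fun e => (g' - C e).Separable := ⟨_, rfl⟩
  have hA : p - (d - 1) ≤ A.card := by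
    rw [hAdef]
    exact noncritical14 hd hdp hg hdeg
  refine (Nat.mul_le_mul_left _ (Nat.choose_le_choose n hA)).trans ?_
  rw [← card_polS14 n n le_rfl A, ← Set.ncard_coe_finset]
  apply Set.ncard_le_ncard _ (Set.toFinite _)
  intro v hv
  rw [Finset.mem_coe, Finset.mem_image] at hv
  obtain ⟨⟨c, S⟩, hq, hv⟩ := hv
  rw [Finset.mem_product, Finset.mem_filter, Finset.mem_powersetCard] at hq
  have hc : c ≠ 0 := hq.1.2
  have hS : S.card = n := hq.2.2
  have hSA : ∀ e ∈ S, (g' - C e).Separable := fun e he => by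
    have h8 := hq.2.1 he
    rw [hAdef, Finset.mem_filter] at h8
    exact h8.2
  obtain ⟨h1, h2⟩ := natDegree_polS14 hc S
  have h3 : polyOf8 v = polS14 c S := by
    rw [← hv]
    exact polyOf_coeff8 (show (polS14 c S).natDegree ≤ n by omega)
  refine ⟨by rw [h3, h1, hS], ?_⟩
  rw [h3]
  exact separable_polS14 hc hSA

/-! ### A simple pole -/

/-- The residue classes modulo `p ^ 2` of the polynomials `D` of degree `n` for which `p` divides the
leading coefficient once, the reduction of `D` has degree `n - 1`, and for the reduction `D(g)` is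
separable. -/
def TypeE14 (p : ℕ) (g : ℤ[X]) (n : ℕ) (v : Fin (n + 1) → ZMod (p ^ 2)) : Prop :=
  red8 p v (Fin.last n) = 0 ∧ v (Fin.last n) ≠ 0 ∧ (polyOf8 (red8 p v)).natDegree = n - 1 ∧
    ((polyOf8 (red8 p v)).comp (g.map (Int.castRingHom (ZMod p)))).Separable

/-- The same for an integral polynomial. -/
def IsPoleZ14 (p : ℕ) (g D : ℤ[X]) (n : ℕ) : Prop :=
  (p : ℤ) ∣ D.coeff n ∧ ¬ (p : ℤ) ^ 2 ∣ D.coeff n ∧ ¬ (p : ℤ) ∣ D.coeff (n - 1) ∧
    ((D.map (Int.castRingHom (ZMod p))).comp (g.map (Int.castRingHom (ZMod p)))).Separable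

theorem isPoleZ14_of_typeE14 {g : ℤ[X]} {n : ℕ} (hn : 2 ≤ n) {D : ℤ[X]} (hD : D.natDegree ≤ n)
    (h : TypeE14 p g n (fun i => (D.coeff i : ZMod (p ^ 2)))) : IsPoleZ14 p g D n := by
  have hp : p.Prime := Fact.out
  obtain ⟨h1, h2, h3, h4⟩ := h
  have hred : red8 p (fun i : Fin (n + 1) => (D.coeff i : ZMod (p ^ 2))) =
      fun i : Fin (n + 1) => (D.map (Int.castRingHom (ZMod p))).coeff i := by
    funext i
    unfold red8
    rw [map_intCast, coeff_map]
    rfl
  rw [hred, polyOf_coeff8 (natDegree_map_le.trans hD)] at h3 h4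
  rw [hred] at h1
  refine ⟨?_, ?_, ?_, h4⟩
  · change (D.map (Int.castRingHom (ZMod p))).coeff (Fin.last n : ℕ) = 0 at h1
    rw [Fin.val_last, coeff_map] at h1
    exact (ZMod.intCast_zmod_eq_zero_iff_dvd _ _).mp h1
  · intro hdvd
    apply h2
    change ((D.coeff (Fin.last n : ℕ) : ℤ) : ZMod (p ^ 2)) = 0
    rw [Fin.val_last, ZMod.intCast_zmod_eq_zero_iff_dvd]
    exact_mod_cast hdvd
  · intro hdvd
    have h5 : (D.map (Int.castRingHom (ZMod p))).coeff (n - 1) = 0 := by
      rw [coeff_map]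
      exact (ZMod.intCast_zmod_eq_zero_iff_dvd _ _).mpr hdvd
    rw [← h3, coeff_natDegree, leadingCoeff_eq_zero] at h5
    rw [h5, natDegree_zero] at h3
    omega

theorem count_typeE_aux14 (m : ℕ) (hm : 1 ≤ m) {d : ℕ} (hd : d ≠ 0) (hdp : d < p) {g : ℤ[X]}
    (hg : g.Monic) (hdeg : g.natDegree = d) :
    (p - 1) * (p - (d - 1)).choose m * p ^ (m + 2) ≤
      2 * {v : Fin (m + 2) → ZMod (p ^ 2) | TypeE14 p g (m + 1) v}.ncard := by
  have hp : p.Prime := Fact.out
  have : NeZero p := ⟨hp.ne_zero⟩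
  have : NeZero (p ^ 2) := ⟨pow_ne_zero 2 hp.ne_zero⟩
  set g' := g.map (Int.castRingHom (ZMod p)) with hg'
  obtain ⟨A, hAdef⟩ : ∃ A : Finset (ZMod p),
      A = Finset.univ.filter fun e => (g' - C e).Separable := ⟨_, rfl⟩
  have hA : p - (d - 1) ≤ A.card := by
    rw [hAdef]
    exact noncritical14 hd hdp hg hdeg
  set B := ((Finset.univ.filter fun c : ZMod p => c ≠ 0) ×ˢ A.powersetCard m).image
      (fun q => fun i : Fin (m + 2) => (polS14 q.1 q.2).coeff i) with hB
  have hBc : (p - 1) * (p - (d - 1)).choose m ≤ B.card := by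
    rw [hB, card_polS14 m (m + 1) (by omega) A]
    exact Nat.mul_le_mul_left _ (Nat.choose_le_choose m hA)
  obtain ⟨Q, hQ⟩ : ∃ Q : Finset (Fin (m + 2) → ZMod (p ^ 2)),
      Q = Finset.univ.filter fun v => red8 p v ∈ B := ⟨_, rfl⟩
  have hlift : B.card * p ^ (m + 2) ≤ Q.card := by
    rw [hQ]
    convert card_lift8 (p := p) (m + 1) B
  refine (Nat.mul_le_mul_right _ hBc).trans (hlift.trans ?_)
  -- the translation
  let T : Finset (Fin (m + 2) → ZMod (p ^ 2)) := Finset.univ.filter fun v => TypeE14 p g (m + 1) v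
  have hT : {v : Fin (m + 2) → ZMod (p ^ 2) | TypeE14 p g (m + 1) v}.ncard = T.card := by
    rw [← Set.ncard_coe_finset]
    congr 1
    ext v
    simp [T]
  rw [hT]
  have hsplit : (Q.filter (fun v => TypeE14 p g (m + 1) v)).card +
      (Q.filter (fun v => ¬ TypeE14 p g (m + 1) v)).card = Q.card := by
    convert Finset.card_filter_add_card_filter_not (s := Q) (fun v => TypeE14 p g (m + 1) v)
  have hA1 : (Q.filter (fun v => TypeE14 p g (m + 1) v)).card ≤ T.card := by
    apply Finset.card_le_card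
    intro v hv
    rw [Finset.mem_filter] at hv
    exact Finset.mem_filter.mpr ⟨Finset.mem_univ _, hv.2⟩
  have hA2 : (Q.filter (fun v => ¬ TypeE14 p g (m + 1) v)).card ≤ T.card := by
    apply Finset.card_le_card_of_injOn
      (fun v => v + Pi.single (Fin.last (m + 1)) (p : ZMod (p ^ 2)))
    · intro v hv
      rw [Finset.mem_coe, Finset.mem_filter, hQ, Finset.mem_filter] at hv
      obtain ⟨⟨-, hvB⟩, hvT⟩ := hv
      rw [hB, Finset.mem_image] at hvB
      obtain ⟨⟨c, S⟩, hq, hv⟩ := hvB
      rw [Finset.mem_product, Finset.mem_filter, Finset.mem_powersetCard] at hq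
      have hc : c ≠ 0 := hq.1.2
      have hS : S.card = m := hq.2.2
      have hSA : ∀ e ∈ S, (g' - C e).Separable := fun e he => by
        have h8 := hq.2.1 he
        rw [hAdef, Finset.mem_filter] at h8
        exact h8.2
      obtain ⟨h1, h2⟩ := natDegree_polS14 hc S
      have hpol : polyOf8 (red8 p v) = polS14 c S := by
        rw [← hv]
        exact polyOf_coeff8 (show (polS14 c S).natDegree ≤ m + 1 by omega)
      have hlast : red8 p v (Fin.last (m + 1)) = 0 := by
        rw [← hv]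
        show (polS14 c S).coeff (Fin.last (m + 1) : ℕ) = 0
        rw [Fin.val_last]
        exact coeff_eq_zero_of_natDegree_lt (by omega)
      have hred : ∀ v' : Fin (m + 2) → ZMod (p ^ 2), red8 p v' = red8 p v →
          v' (Fin.last (m + 1)) ≠ 0 → TypeE14 p g (m + 1) v' := by
        intro v' hv' hne'
        refine ⟨by rw [hv', hlast], hne', ?_, ?_⟩
        · rw [hv', hpol, h1, hS]
          rfl
        · rw [hv', hpol]
          exact separable_polS14 hc hSA
      have h0 : v (Fin.last (m + 1)) = 0 := by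
        by_contra h0
        exact hvT (hred v rfl h0)
      rw [Finset.mem_coe, Finset.mem_filter]
      refine ⟨Finset.mem_univ _, hred _ ?_ ?_⟩
      · funext i
        show ZMod.castHom (dvd_pow_self p two_ne_zero) (ZMod p)
          ((v + Pi.single (Fin.last (m + 1)) (p : ZMod (p ^ 2)) :
            Fin (m + 2) → ZMod (p ^ 2)) i) =
            ZMod.castHom (dvd_pow_self p two_ne_zero) (ZMod p) (v i)
        rw [Pi.add_apply, map_add]
        by_cases hi : i = Fin.last (m + 1)
        · rw [hi, Pi.single_eq_same, map_natCast, ZMod.natCast_self, add_zero]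
        · rw [Pi.single_eq_of_ne hi, map_zero, add_zero]
      · show (v + Pi.single (Fin.last (m + 1)) (p : ZMod (p ^ 2)) :
            Fin (m + 2) → ZMod (p ^ 2)) (Fin.last (m + 1)) ≠ 0
        rw [Pi.add_apply, h0, Pi.single_eq_same, zero_add]
        intro h7
        rw [ZMod.natCast_eq_zero_iff] at h7
        have h8 := Nat.le_of_dvd hp.pos h7
        have h9 := hp.two_le
        nlinarith
    · intro v _ v' _ h
      exact add_right_cancel h
  omega

end Count

/-- The common numerical estimate. -/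
lemma numeric_lower14 {p m d : ℕ} (hm : 1 ≤ m) (hp : 2 * m + 2 * d + 2 ≤ p) :
    (p : ℝ) ^ (m + 1) / (2 ^ (m + 1) * m.factorial) ≤
      ((p - 1 : ℕ) : ℝ) * ((p - (d - 1)).choose m : ℝ) := by
  have h2 : ((p - (d - 1) + 1 - m : ℕ) : ℝ) ^ m ≤ m.factorial * (p - (d - 1)).choose m := by
    exact_mod_cast Nat.pow_sub_le_descFactorial (p - (d - 1)) m |>.trans_eq
      (Nat.descFactorial_eq_factorial_mul_choose _ _)
  have h3 : (p : ℝ) / 2 ≤ ((p - (d - 1) + 1 - m : ℕ) : ℝ) := by
    have h4 : p ≤ 2 * (p - (d - 1) + 1 - m) := by omega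
    have h5 : (p : ℝ) ≤ 2 * ((p - (d - 1) + 1 - m : ℕ) : ℝ) := by exact_mod_cast h4
    linarith
  have h4 : (p : ℝ) / 2 ≤ ((p - 1 : ℕ) : ℝ) := by
    have h4 : p ≤ 2 * (p - 1) := by omega
    have h5 : (p : ℝ) ≤ 2 * ((p - 1 : ℕ) : ℝ) := by exact_mod_cast h4
    linarith
  have h5 : ((p : ℝ) / 2) ^ m ≤ m.factorial * (p - (d - 1)).choose m :=
    (pow_le_pow_left₀ (by positivity) h3 m).trans h2
  have hf : (0 : ℝ) < m.factorial := by exact_mod_cast m.factorial_pos
  rw [div_le_iff₀ (by positivity)]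
  have h8 : ((p : ℝ) / 2) * ((p : ℝ) / 2) ^ m ≤
      ((p - 1 : ℕ) : ℝ) * (m.factorial * (p - (d - 1)).choose m) :=
    mul_le_mul h4 h5 (by positivity) (by positivity)
  have h9 : ((p : ℝ) / 2) * ((p : ℝ) / 2) ^ m = (p : ℝ) ^ (m + 1) / 2 ^ (m + 1) := by
    rw [← pow_succ', div_pow]
  rw [h9, div_le_iff₀ (by positivity)] at h8
  linarith

/-- **The number of the residue classes with a simple collision.** -/
theorem count_typeC14 (n : ℕ) (hn : 2 ≤ n) (d : ℕ) (hd : d ≠ 0) : ∃ c : ℝ, 0 < c ∧ ∃ P0 : ℕ,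
    ∀ p : ℕ, p.Prime → P0 ≤ p → ∀ g : ℤ[X], g.Monic → g.natDegree = d →
      c / p * ((p : ℝ) ^ 2) ^ (n + 1) ≤
        ({v : Fin (n + 1) → ZMod (p ^ 2) | TypeC8 p g n v}.ncard : ℝ) := by
  obtain ⟨m, rfl⟩ : ∃ m, n = m + 1 := ⟨n - 1, by omega⟩
  have hm : 1 ≤ m := by omega
  refine ⟨1 / (2 ^ (m + 2) * m.factorial), by positivity, 2 * m + 2 * d + 2,
    fun p hp hP g hg hdeg => ?_⟩
  have : Fact p.Prime := ⟨hp⟩
  have h1 := count_typeC_aux14 (p := p) m hm hd (by omega) hg hdeg
  have h7 := numeric_lower14 hm hP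
  have hp0 : (0 : ℝ) < p := by exact_mod_cast hp.pos
  have hf : (0 : ℝ) < m.factorial := by exact_mod_cast m.factorial_pos
  have h6 : (((p - 1 : ℕ) : ℝ) * ((p - (d - 1)).choose m : ℝ)) * (p : ℝ) ^ (m + 2) ≤
      2 * ({v : Fin (m + 2) → ZMod (p ^ 2) | TypeC8 p g (m + 1) v}.ncard : ℝ) := by
    exact_mod_cast h1
  have h8 : (p : ℝ) ^ (m + 1) / (2 ^ (m + 1) * m.factorial) * (p : ℝ) ^ (m + 2) ≤
      2 * ({v : Fin (m + 2) → ZMod (p ^ 2) | TypeC8 p g (m + 1) v}.ncard : ℝ) :=
    (mul_le_mul_of_nonneg_right h7 (by positivity)).trans h6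
  have h9 : 1 / (2 ^ (m + 2) * (m.factorial : ℝ)) / p * ((p : ℝ) ^ 2) ^ (m + 1 + 1) =
      (p : ℝ) ^ (m + 1) / (2 ^ (m + 1) * m.factorial) * (p : ℝ) ^ (m + 2) / 2 := by
    field_simp
    ring
  rw [h9]
  linarith

/-- **The number of the residue classes with a simple pole.** -/
theorem count_typeE14 (n : ℕ) (hn : 2 ≤ n) (d : ℕ) (hd : d ≠ 0) : ∃ c : ℝ, 0 < c ∧ ∃ P0 : ℕ,
    ∀ p : ℕ, p.Prime → P0 ≤ p → ∀ g : ℤ[X], g.Monic → g.natDegree = d →
      c / p * ((p : ℝ) ^ 2) ^ (n + 1) ≤
        ({v : Fin (n + 1) → ZMod (p ^ 2) | TypeE14 p g n v}.ncard : ℝ) := by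
  obtain ⟨m, rfl⟩ : ∃ m, n = m + 1 := ⟨n - 1, by omega⟩
  have hm : 1 ≤ m := by omega
  refine ⟨1 / (2 ^ (m + 2) * m.factorial), by positivity, 2 * m + 2 * d + 2,
    fun p hp hP g hg hdeg => ?_⟩
  have : Fact p.Prime := ⟨hp⟩
  have h1 := count_typeE_aux14 (p := p) m hm hd (by omega) hg hdeg
  have h7 := numeric_lower14 hm hP
  have hp0 : (0 : ℝ) < p := by exact_mod_cast hp.pos
  have hf : (0 : ℝ) < m.factorial := by exact_mod_cast m.factorial_pos
  have h6 : (((p - 1 : ℕ) : ℝ) * ((p - (d - 1)).choose m : ℝ)) * (p : ℝ) ^ (m + 2) ≤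
      2 * ({v : Fin (m + 2) → ZMod (p ^ 2) | TypeE14 p g (m + 1) v}.ncard : ℝ) := by
    exact_mod_cast h1
  have h8 : (p : ℝ) ^ (m + 1) / (2 ^ (m + 1) * m.factorial) * (p : ℝ) ^ (m + 2) ≤
      2 * ({v : Fin (m + 2) → ZMod (p ^ 2) | TypeE14 p g (m + 1) v}.ncard : ℝ) :=
    (mul_le_mul_of_nonneg_right h7 (by positivity)).trans h6
  have h9 : 1 / (2 ^ (m + 2) * (m.factorial : ℝ)) / p * ((p : ℝ) ^ 2) ^ (m + 1 + 1) =
      (p : ℝ) ^ (m + 1) / (2 ^ (m + 1) * m.factorial) * (p : ℝ) ^ (m + 2) / 2 := by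
    field_simp
    ring
  rw [h9]
  linarith

/-- **The number of the residue classes with simple roots.** -/
theorem count_typeS14 (n : ℕ) (hn : 1 ≤ n) (d : ℕ) (hd : d ≠ 0) : ∃ c : ℝ, 0 < c ∧ ∃ P0 : ℕ,
    ∀ p : ℕ, ∀ _ : Fact p.Prime, P0 ≤ p → ∀ g : ℤ[X], g.Monic → g.natDegree = d →
      c * (p : ℝ) ^ (n + 1) ≤ ({v : Fin (n + 1) → ZMod p |
        TypeS14 (g.map (Int.castRingHom (ZMod p))) (polyOf8 v) n}.ncard : ℝ) := by
  refine ⟨1 / (2 ^ (n + 1) * n.factorial), by positivity, 2 * n + 2 * d + 2,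
    fun p _ hP g hg hdeg => ?_⟩
  have h1 := count_typeS_aux14 (p := p) n hd (by omega) hg hdeg
  have h7 := numeric_lower14 hn hP
  have h6 : ((p - 1 : ℕ) : ℝ) * ((p - (d - 1)).choose n : ℝ) ≤
      ({v : Fin (n + 1) → ZMod p |
        TypeS14 (g.map (Int.castRingHom (ZMod p))) (polyOf8 v) n}.ncard : ℝ) := by
    exact_mod_cast h1
  refine le_trans (le_of_eq ?_) (h7.trans h6)
  ring

end Pool.Agent.Lib.MP_89bcae_ag

end

section

/-!
# Frobenius elements acting on the roots of `D`
-/

open Polynomial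

open scoped Classical

set_option linter.unusedSimpArgs false
set_option linter.unusedVariables false
set_option linter.unusedSectionVars false
set_option linter.style.haveILetI false

namespace Pool.Agent.Lib.MP_89bcae_ag

section Frob

variable {R K F κ : Type*} [CommRing R] [IsDomain R] [IsIntegrallyClosed R] [Field K]
  [Algebra R K] [IsFractionRing R K] [Field F] [Algebra K F] [Algebra R F] [IsScalarTower R K F]
  [IsAlgClosed F] [Algebra.IsAlgebraic K F]
  [Field κ] [Fintype κ]

variable (K F) in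
/-- A Frobenius element which fixes one root and is transitive on the other ones. -/
theorem frob_typeBX14 {π : R →+* κ} (hπ : Function.Surjective π) {D : R[X]}
    (hu : IsUnit D.leadingCoeff) (hsep : (D.map (algebraMap R K)).Separable) {b : κ} {D₁ : κ[X]}
    (hD : D.map π = (X - C b) * D₁) (hirr : Irreducible D₁) (hdeg : 2 ≤ D₁.natDegree) :
    ∃ (φ : F ≃ₐ[K] F) (z : F), aeval z D = 0 ∧ φ z = z ∧
      ∀ x y : F, aeval x D = 0 → aeval y D = 0 → x ≠ z → y ≠ z → ∃ i : ℕ, (φ ^ i) x = y := by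
  have hinjR : Function.Injective (algebraMap R F) := by
    rw [IsScalarTower.algebraMap_eq R K F]
    exact (algebraMap K F).injective.comp (IsFractionRing.injective R K)
  have hfaith : FaithfulSMul R F := (faithfulSMul_iff_algebraMap_injective R F).mpr hinjR
  obtain ⟨ρ, φ, hρ, hφ⟩ := exists_frob_roots14 (F := F) (Fκ := AlgebraicClosure κ) hπ hu hsep
  set Fκ := AlgebraicClosure κ with hFκ
  set β : Fκ := algebraMap κ Fκ b with hβ
  have hD1 : D₁.eval b ≠ 0 := by
    intro h0
    have h3 : D₁.natDegree = 1 :=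
      natDegree_eq_of_degree_eq_some (degree_eq_one_of_irreducible_of_root hirr h0)
    omega
  have hDβ : aeval β D₁ ≠ 0 := by
    rw [hβ, aeval_algebraMap_apply, coe_aeval_eq_eval]
    exact (_root_.map_ne_zero _).mpr hD1
  have hint : ∀ x : F, aeval x D = 0 → IsIntegral R x := fun x hx => integral_root14 hu hx
  -- the root `z`
  obtain ⟨z, hz, hzr, hzβ⟩ := exists_lift_root14 hρ hu (β := β) (by
    rw [hD, map_mul, map_sub, aeval_X, aeval_C, hβ, sub_self, zero_mul])
  have hsimple : aeval β (derivative (D.map π)) ≠ 0 := by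
    rw [hD, derivative_mul, derivative_sub, derivative_X, derivative_C, sub_zero, one_mul, map_add,
      map_mul, map_sub, aeval_X, aeval_C, hβ, sub_self, zero_mul, add_zero]
    exact hDβ
  have hkey : ∀ (x : F) (hx : aeval x D = 0), x ≠ z → aeval (ρ ⟨x, hint x hx⟩) D₁ = 0 := by
    intro x hx hne
    have h1 := red_root14 hρ (hint x hx) hx
    rw [hD, map_mul] at h1
    rcases mul_eq_zero.mp h1 with h2 | h2
    · exfalso
      apply hne
      rw [map_sub, aeval_X, aeval_C, sub_eq_zero] at h2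
      exact eq_of_red14 hρ (f := D) (hint x hx) hz hx hzr (by rw [h2, hzβ])
        (by rw [h2]; exact hsimple)
    · exact h2
  refine ⟨φ, z, hzr, ?_, ?_⟩
  · obtain ⟨h1, h2, h3⟩ := hφ 1 z hzr hz
    rw [pow_one] at h1 h2
    simp only [pow_one] at h3
    have h4 : frob8 κ Fκ β = β := by rw [hβ, AlgEquiv.commutes]
    refine eq_of_red14 hρ h2 hz h1 hzr (by rw [h3, hzβ, h4]) (by rw [h3, hzβ, h4]; exact hsimple)
  · intro x y hx hy hxz hyz
    obtain ⟨i, -, hi⟩ := exists_frob8_pow hirr (hkey x hx hxz) (hkey y hy hyz)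
    obtain ⟨h1, h2, h3⟩ := hφ i x hx (hint x hx)
    refine ⟨i, eq_of_red14 hρ h2 (hint y hy) h1 hy (by rw [h3, hi]) ?_⟩
    have hsepκ : D₁.Separable := PerfectField.separable_of_irreducible hirr
    have hr : aeval (ρ ⟨(φ ^ i) x, h2⟩) D₁ = 0 := by
      rw [h3, ← hi]
      exact hkey y hy hyz
    have hder : aeval (ρ ⟨(φ ^ i) x, h2⟩) (derivative D₁) ≠ 0 := by
      intro h4
      obtain ⟨a', b', hab⟩ := hsepκ
      have h5 := congrArg (aeval (ρ ⟨(φ ^ i) x, h2⟩)) hab
      rw [map_add, map_mul, map_mul, hr, h4, mul_zero, mul_zero, add_zero, map_one] at h5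
      exact zero_ne_one h5
    rw [hD, derivative_mul, map_add, map_mul, map_mul, hr, mul_zero, zero_add]
    apply mul_ne_zero _ hder
    rw [map_sub, aeval_X, aeval_C, sub_ne_zero]
    intro h4
    apply hDβ
    rw [hβ, ← h4]
    exact hr

end Frob

section Int

variable {K F : Type*} [Field K] [Field F] [Algebra K F] [IsAlgClosed F] [Algebra.IsAlgebraic K F]

/-- The degree and the leading coefficient. -/
lemma lead_of_red14 {p : ℕ} [Fact p.Prime] {D : ℤ[X]} {n : ℕ} (hD : D.natDegree ≤ n) (hn : 1 ≤ n)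
    (h : (D.map (Int.castRingHom (ZMod p))).natDegree = n) :
    D.natDegree = n ∧ (D.leadingCoeff : ZMod p) ≠ 0 := by
  have h6 : D.natDegree = n := le_antisymm hD (h ▸ natDegree_map_le)
  refine ⟨h6, ?_⟩
  have h7 : (D.leadingCoeff : ZMod p) = (D.map (Int.castRingHom (ZMod p))).leadingCoeff := by
    rw [leadingCoeff, leadingCoeff, h, h6, coeff_map]
    rfl
  rw [h7, leadingCoeff_ne_zero]
  intro h8
  rw [h8, natDegree_zero] at h
  omega

/-- Type A over a ring with residue field `ZMod p`. -/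
theorem typeAX_of_ring14 (R : Type*) [CommRing R] [IsDomain R] [IsIntegrallyClosed R]
    [Algebra R K] [IsFractionRing R K] {p : ℕ} [Fact p.Prime] (π : R →+* ZMod p)
    (hπ : Function.Surjective π) (hunit : ∀ z : ℤ, (z : ZMod p) ≠ 0 → IsUnit (z : R))
    [CharZero K] {D : ℤ[X]} {n : ℕ} (hD : D.natDegree ≤ n) (hn : 1 ≤ n)
    (h : TypeAX14 (D.map (Int.castRingHom (ZMod p))) n) :
    ∃ φ : F ≃ₐ[K] F, ∀ x y : F, aeval x (D.map (Int.castRingHom K)) = 0 →
      aeval y (D.map (Int.castRingHom K)) = 0 → ∃ i : ℕ, (φ ^ i) x = y := by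
  obtain ⟨hirr, hdn⟩ := h
  obtain ⟨hDn, hlc⟩ := lead_of_red14 hD hn hdn
  letI : Algebra R F := ((algebraMap K F).comp (algebraMap R K)).toAlgebra
  haveI : IsScalarTower R K F := IsScalarTower.of_algebraMap_eq fun _ => rfl
  have hRK : (algebraMap R K).comp (Int.castRingHom R) = Int.castRingHom K := RingHom.ext_int _ _
  have hinjZ : Function.Injective (Int.castRingHom R) := by
    have h1 : Function.Injective ((algebraMap R K).comp (Int.castRingHom R)) := by
      rw [hRK]
      exact (Int.castRingHom K).injective_int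
    exact Function.Injective.of_comp h1
  haveI hfaith : FaithfulSMul R F := (faithfulSMul_iff_algebraMap_injective R F).mpr
    ((algebraMap K F).injective.comp (IsFractionRing.injective R K))
  have hcomp : π.comp (Int.castRingHom R) = Int.castRingHom (ZMod p) := RingHom.ext_int _ _
  have hu' : IsUnit (D.map (Int.castRingHom R)).leadingCoeff := by
    rw [leadingCoeff_map_of_injective hinjZ]
    exact hunit _ hlc
  have hirr' : Irreducible ((D.map (Int.castRingHom R)).map π) := by
    rw [Polynomial.map_map, hcomp]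
    exact hirr
  have hQ : (D.map (Int.castRingHom R)).map (algebraMap R K) = D.map (Int.castRingHom K) := by
    rw [Polynomial.map_map, hRK]
  have hsep := separable_of_red14 (K := K) F hπ hu' (PerfectField.separable_of_irreducible hirr')
  obtain ⟨φ, hφ⟩ := frob_typeA14 K F hπ hu' hsep hirr'
  refine ⟨φ, fun x y hx hy => hφ x y ?_ ?_⟩
  · rw [← aeval_map_algebraMap K, hQ]
    exact hx
  · rw [← aeval_map_algebraMap K, hQ]
    exact hy

/-- Type B over a ring with residue field `ZMod p`. -/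
theorem typeBX_of_ring14 (R : Type*) [CommRing R] [IsDomain R] [IsIntegrallyClosed R]
    [Algebra R K] [IsFractionRing R K] {p : ℕ} [Fact p.Prime] (π : R →+* ZMod p)
    (hπ : Function.Surjective π) (hunit : ∀ z : ℤ, (z : ZMod p) ≠ 0 → IsUnit (z : R))
    [CharZero K] {D : ℤ[X]} {n : ℕ} (hD : D.natDegree ≤ n) (hn : 3 ≤ n)
    (hsep : (D.map (Int.castRingHom K)).Separable)
    (h : TypeBX14 (D.map (Int.castRingHom (ZMod p))) n) :
    ∃ (φ : F ≃ₐ[K] F) (z : F), aeval z (D.map (Int.castRingHom K)) = 0 ∧ φ z = z ∧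
      ∀ x y : F, aeval x (D.map (Int.castRingHom K)) = 0 →
        aeval y (D.map (Int.castRingHom K)) = 0 → x ≠ z → y ≠ z → ∃ i : ℕ, (φ ^ i) x = y := by
  obtain ⟨b, D₁, hD1, hirr, hd1, hdn⟩ := h
  obtain ⟨hDn, hlc⟩ := lead_of_red14 hD (by omega) hdn
  letI : Algebra R F := ((algebraMap K F).comp (algebraMap R K)).toAlgebra
  haveI : IsScalarTower R K F := IsScalarTower.of_algebraMap_eq fun _ => rfl
  have hRK : (algebraMap R K).comp (Int.castRingHom R) = Int.castRingHom K := RingHom.ext_int _ _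
  have hinjZ : Function.Injective (Int.castRingHom R) := by
    have h1 : Function.Injective ((algebraMap R K).comp (Int.castRingHom R)) := by
      rw [hRK]
      exact (Int.castRingHom K).injective_int
    exact Function.Injective.of_comp h1
  have hcomp : π.comp (Int.castRingHom R) = Int.castRingHom (ZMod p) := RingHom.ext_int _ _
  have hu' : IsUnit (D.map (Int.castRingHom R)).leadingCoeff := by
    rw [leadingCoeff_map_of_injective hinjZ]
    exact hunit _ hlc
  have hQ : (D.map (Int.castRingHom R)).map (algebraMap R K) = D.map (Int.castRingHom K) := by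
    rw [Polynomial.map_map, hRK]
  obtain ⟨φ, z, hz, hzz, hφ⟩ := frob_typeBX14 K F hπ hu' (by rw [hQ]; exact hsep)
    (b := b) (D₁ := D₁) (by rw [Polynomial.map_map, hcomp]; exact hD1) hirr (by omega)
  have hc : ∀ x : F, aeval x (D.map (Int.castRingHom R)) = aeval x (D.map (Int.castRingHom K)) := by
    intro x
    rw [← aeval_map_algebraMap K, hQ]
  refine ⟨φ, z, by rw [← hc]; exact hz, hzz, fun x y hx hy hxz hyz => hφ x y ?_ ?_ hxz hyz⟩
  · rw [hc]; exact hx
  · rw [hc]; exact hy

/-- Types A and B give the transitivity on the pairs of roots of `D`. -/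
theorem pairTransitiveX14 {D : K[X]}
    (hA : ∃ φ : F ≃ₐ[K] F, ∀ x y : F, aeval x D = 0 → aeval y D = 0 → ∃ i : ℕ, (φ ^ i) x = y)
    (hB : ∃ (φ : F ≃ₐ[K] F) (z : F), aeval z D = 0 ∧ φ z = z ∧
      ∀ x y : F, aeval x D = 0 → aeval y D = 0 → x ≠ z → y ≠ z → ∃ i : ℕ, (φ ^ i) x = y) :
    IsPairTransitive7 K F X D := by
  apply pairTransitive14
  · rw [comp_X]
    exact hA
  · rw [comp_X]
    obtain ⟨φ, z, h1, h2, h3⟩ := hB
    refine ⟨φ, z, h1, h2, fun x y hx hy hxz hyz => h3 x y hx hy ?_ ?_⟩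
    · simpa using hxz
    · simpa using hyz

/-- Type S gives separability over the rational numbers. -/
theorem separable_of_typeS_aux14 (F₀ : Type*) [Field F₀] [Algebra ℚ F₀] [IsAlgClosed F₀]
    [Algebra.IsAlgebraic ℚ F₀] {g D : ℤ[X]} (hg : g.Monic) (hd : g.natDegree ≠ 0)
    {p : ℕ} [Fact p.Prime] (hlc : (D.leadingCoeff : ZMod p) ≠ 0)
    (hs : ((D.map (Int.castRingHom (ZMod p))).comp (g.map (Int.castRingHom (ZMod p)))).Separable) :
    ((D.comp g).map (Int.castRingHom ℚ)).Separable := by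
  obtain ⟨R, _, _, _, _, _, π, hπ, hπu⟩ := exists_local_ring14 (Fact.out : p.Prime)
  letI : Algebra R F₀ := ((algebraMap ℚ F₀).comp (algebraMap R ℚ)).toAlgebra
  haveI : IsScalarTower R ℚ F₀ := IsScalarTower.of_algebraMap_eq fun _ => rfl
  have hRQ : (algebraMap R ℚ).comp (Int.castRingHom R) = Int.castRingHom ℚ := RingHom.ext_int _ _
  have hinjZ : Function.Injective (Int.castRingHom R) := by
    have h1 : Function.Injective ((algebraMap R ℚ).comp (Int.castRingHom R)) := by
      rw [hRQ]
      exact (Int.castRingHom ℚ).injective_int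
    exact Function.Injective.of_comp h1
  haveI hfaith : FaithfulSMul R F₀ :=
    (faithfulSMul_iff_algebraMap_injective R _).mpr
      ((algebraMap ℚ F₀).injective.comp (IsFractionRing.injective R ℚ))
  have hcomp : π.comp (Int.castRingHom R) = Int.castRingHom (ZMod p) := RingHom.ext_int _ _
  have hu' : IsUnit ((D.comp g).map (Int.castRingHom R)).leadingCoeff := by
    rw [leadingCoeff_map_of_injective hinjZ, leadingCoeff_comp hd, hg.leadingCoeff,
      one_pow, mul_one]
    exact hπu _ hlc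
  have hsep := separable_of_red14 (K := ℚ) F₀ hπ hu' (by
    rw [Polynomial.map_map, hcomp, Polynomial.map_comp]
    exact hs)
  rwa [Polynomial.map_map, hRQ] at hsep

lemma exists_closure14 (k : Type) [Field k] : ∃ (F₀ : Type) (_ : Field F₀) (_ : Algebra k F₀)
    (_ : IsAlgClosed F₀), Algebra.IsAlgebraic k F₀ :=
  ⟨AlgebraicClosure k, inferInstance, inferInstance, inferInstance, inferInstance⟩

variable (K) in
/-- Type S gives separability. -/
theorem separable_of_typeS14 [CharZero K] {g D : ℤ[X]} (hg : g.Monic) (hd : g.natDegree ≠ 0)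
    {n : ℕ} (hD : D.natDegree ≤ n) (hn : 1 ≤ n) {p : ℕ} [Fact p.Prime]
    (h : TypeS14 (g.map (Int.castRingHom (ZMod p))) (D.map (Int.castRingHom (ZMod p))) n) :
    D.natDegree = n ∧ ((D.comp g).map (Int.castRingHom K)).Separable := by
  obtain ⟨hdn, hs⟩ := h
  obtain ⟨hDn, hlc⟩ := lead_of_red14 hD hn hdn
  refine ⟨hDn, ?_⟩
  obtain ⟨F₀, _, _, _, _⟩ := exists_closure14 ℚ
  have h1 := (separable_of_typeS_aux14 F₀ hg hd hlc hs).map (f := algebraMap ℚ K)
  rw [Polynomial.map_map] at h1
  have h2 : (algebraMap ℚ K).comp (Int.castRingHom ℚ) = Int.castRingHom K := RingHom.ext_int _ _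
  rwa [h2] at h1

end Int

end Pool.Agent.Lib.MP_89bcae_ag

end
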