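import Mathlib
import Pool.Agent.Lib.MP_89bcae_ag.DefsFam45
import Pool.Agent.Lib.MP_89bcae_ag.Tk.K000
import Pool.Agent.Lib.MP_89bcae_ag.Tk.K022
import Pool.Agent.Lib.MP_89bcae_ag.Tk.K025
import Pool.Agent.Lib.MP_89bcae_ag.Tk.K038
import Pool.Agent.Lib.MP_89bcae_ag.Tk.K051
import Pool.Agent.Lib.MP_89bcae_ag.Tk.K055
import Pool.Agent.Lib.MP_89bcae_ag.Tk.K056

set_option linter.all false

section

attribute [local instance 100000] Pool.Agent.Lib.MP_89bcae_ag.Brt.tffFields
attribute [local instance 100000] Pool.Agent.Lib.MP_89bcae_ag.Wt.ifrNF Pool.Agent.Lib.MP_89bcae_ag.Wt.iddNF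

namespace Pool.Agent.Lib.MP_89bcae_ag.Bra
end Pool.Agent.Lib.MP_89bcae_ag.Bra
namespace Pool.Agent.Lib.MP_89bcae_ag.Wt
end Pool.Agent.Lib.MP_89bcae_ag.Wt
namespace Pool.Agent.Lib.MP_89bcae_ag.Wt.Lns
end Pool.Agent.Lib.MP_89bcae_ag.Wt.Lns

section

/-!
# Operations on cocycles and cochains
-/

open Polynomial IsDedekindDomain IsLocalRing

open scoped Classical

namespace Pool.Agent.Lib.MP_89bcae_ag.Brt

open Pool.Agent.Lib.MP_89bcae_ag.Wt Pool.Agent.Lib.MP_89bcae_ag.Wt.Lns Pool.Agent.Lib.MP_89bcae_ag.Bra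

section Internal

variable {L Ω : Type} [Field L] [Field Ω] [Algebra L Ω] {ℓ : ℕ} {f : L[X]}
  [hG : IsGood ℓ (f.map (algebraMap L Ω))]
  {b b' : (Ω ≃ₐ[L] Ω) → (Ω ≃ₐ[L] Ω) → (FunField ℓ (f.map (algebraMap L Ω)))ˣ}
  {C C' : (Ω ≃ₐ[L] Ω) → (Pt ℓ (f.map (algebraMap L Ω)) →₀ ℤ)}

private lemma opsc_aux {A : Type} [AddCommGroup A] (m : ℕ) {β γCgh γCg β' Cgh gCh Cg agh gah ag gγCh : A}
    (H1 : β + γCgh = gγCh + γCg) (H2 : β' + Cgh = gCh + Cg)
    (H3 : m • β + agh = m • β' + (gah + ag)) :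
    m • (γCgh - Cgh) - agh = (m • (gγCh - gCh) - gah) + (m • (γCg - Cg) - ag) := by
  have e1 : γCgh = gγCh + γCg - β := by rw [← H1]; abel
  have e2 : Cgh = gCh + Cg - β' := by rw [← H2]; abel
  have e3 : agh = m • β' + (gah + ag) - m • β := by rw [← H3]; abel
  rw [e1, e2, e3]
  simp only [smul_sub, smul_add]
  abel

/-- The action of an automorphism of `Ω` on the classes. PROOF. `γ` maps `L` onto `L` (`hs`; `L` is the field of fractions
of `F[X]`), so for `g' : Ω ≃ₐ[L] Ω` there is a unique `g : Ω ≃ₐ[L] Ω` with `γ g = g' γ` (and `g'` is unique if `g` is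
given). Let `Y g' = m • (γ (C g) - C g') - div (a g')` with `γ (C g) = (C g).mapDomain (Pt.sym ⟨γ, hγ⟩)`. Taking divisors in
`hab` and using `IDiv.div` for `(g, h)` and for `(g', h')` one gets `Y (g' h') = g' (Y h') + Y g'`
(`γ (g D) = g' (γ D)`); `Y` is continuous (if `C g` depends on `g|T` use `γ T`). By `h1div` `Y g' = g' E - E`;
`Q = cl E`. -/
theorem cl_of_fixed [IsAlgClosure L Ω]
    (h : IDiv b C) (γ : Ω ≃+* Ω) (hγ : γ ∈ Sym (f.map (algebraMap L Ω)))
    (s : L ≃+* L) (hs : ∀ z : L, γ (algebraMap L Ω z) = algebraMap L Ω (s z))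
    (m : ℕ) (a : (Ω ≃ₐ[L] Ω) → (FunField ℓ (f.map (algebraMap L Ω)))ˣ) (ha : IsCts a)
    (hab : ∀ g h g' h' : Ω ≃ₐ[L] Ω, (∀ z, γ (g z) = g' (γ z)) → (∀ z, γ (h z) = h' (γ z)) →
      symU ⟨γ, hγ⟩ (b g h) ^ m * a (g' * h') = b g' h' ^ m * (symU (gs f g') (a h') * a g')) :
    ∃ Q : Jac ℓ (f.map (algebraMap L Ω)), ∀ g g' : Ω ≃ₐ[L] Ω, (∀ z, γ (g z) = g' (γ z)) →
      m • (symJ ⟨γ, hγ⟩ (cl (C g)) - cl (C g')) = symJ (gs f g') Q - Q := by
  have hL : ∀ z : L, ∃ z' : L, γ (algebraMap L Ω z) = algebraMap L Ω z' := fun z => ⟨s z, hs z⟩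
  obtain ⟨κ, hκ⟩ : ∃ κ : (Ω ≃ₐ[L] Ω) → (Ω ≃ₐ[L] Ω), ∀ g z, γ (κ g z) = g (γ z) := by
    have key : ∀ g : Ω ≃ₐ[L] Ω, ∃ k : Ω ≃ₐ[L] Ω, ∀ z, γ (k z) = g (γ z) := by
      intro g
      refine ⟨AlgEquiv.ofRingEquiv (f := (γ.trans (g : Ω ≃+* Ω)).trans γ.symm) ?_, ?_⟩
      · intro z
        obtain ⟨z', hz'⟩ := hL z
        show γ.symm (g (γ (algebraMap L Ω z))) = algebraMap L Ω z
        rw [hz', g.commutes, ← hz', γ.symm_apply_apply]
      · intro z
        exact γ.apply_symm_apply _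
    choose κ hκ using key
    exact ⟨κ, hκ⟩
  have huniq : ∀ g g' : Ω ≃ₐ[L] Ω, (∀ z, γ (g z) = g' (γ z)) → g = κ g' := by
    intro g g' hg
    ext z
    apply γ.injective
    rw [hg, hκ]
  have hmul : ∀ g h, κ (g * h) = κ g * κ h := by
    intro g h
    symm
    refine huniq _ _ fun z => ?_
    rw [AlgEquiv.mul_apply, hκ, hκ, AlgEquiv.mul_apply]
  have hpt : ∀ (g : Ω ≃ₐ[L] Ω) (D : Pt ℓ (f.map (algebraMap L Ω)) →₀ ℤ),
      (D.mapDomain (Pt.sym (gs f (κ g)))).mapDomain (Pt.sym ⟨γ, hγ⟩) =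
        (D.mapDomain (Pt.sym ⟨γ, hγ⟩)).mapDomain (Pt.sym (gs f g)) := by
    intro g D
    rw [← Finsupp.mapDomain_comp, ← Finsupp.mapDomain_comp]
    have e : (Pt.sym (N := ℓ) (⟨γ, hγ⟩ : Sym (f.map (algebraMap L Ω)))) ∘ Pt.sym (gs f (κ g)) =
        Pt.sym (gs f g) ∘ Pt.sym ⟨γ, hγ⟩ := by
      funext P
      exact Pt.ext (hκ g P.x) (hκ g P.y)
    rw [e]
  obtain ⟨Y, hY⟩ : ∃ Y : (Ω ≃ₐ[L] Ω) → (Pt ℓ (f.map (algebraMap L Ω)) →₀ ℤ),
      ∀ g, Y g = m • ((C (κ g)).mapDomain (Pt.sym ⟨γ, hγ⟩) - C g) - Wt.div (a g) :=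
    ⟨_, fun _ => rfl⟩
  have hYc : IsCts Y := by
    have h1 : IsCts fun g => C (κ g) := by
      obtain ⟨T, hT⟩ := h.continuous
      refine ⟨T.image γ, fun g g' hg => hT _ _ fun x hx => ?_⟩
      apply γ.injective
      rw [hκ, hκ]
      exact hg _ (Finset.mem_image_of_mem _ hx)
    have h2 := (h1.comp₂ h.continuous fun x y => m • (x.mapDomain (Pt.sym ⟨γ, hγ⟩) - y)).comp₂ ha
      fun x y => x - Wt.div y
    have h3 : Y = fun g => m • ((C (κ g)).mapDomain (Pt.sym ⟨γ, hγ⟩) - C g) - Wt.div (a g) :=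
      funext hY
    rw [h3]
    exact h2
  have hms : ∀ (σ : Sym (f.map (algebraMap L Ω))) (D D' : Pt ℓ (f.map (algebraMap L Ω)) →₀ ℤ),
      (D - D').mapDomain (Pt.sym σ) = D.mapDomain (Pt.sym σ) - D'.mapDomain (Pt.sym σ) :=
    fun σ D D' => map_sub (Finsupp.mapDomain.addMonoidHom (M := ℤ) (Pt.sym σ)) D D'
  have hmn : ∀ (σ : Sym (f.map (algebraMap L Ω))) (D : Pt ℓ (f.map (algebraMap L Ω)) →₀ ℤ),
      (m • D).mapDomain (Pt.sym σ) = m • D.mapDomain (Pt.sym σ) :=
    fun σ D => map_nsmul (Finsupp.mapDomain.addMonoidHom (M := ℤ) (Pt.sym σ)) m D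
  have hdp : ∀ (u : (FunField ℓ (f.map (algebraMap L Ω)))ˣ), Wt.div (u ^ m) = m • Wt.div u := by
    intro u
    ext P
    rw [Finsupp.smul_apply, div_apply, div_apply, ord_pow, nsmul_eq_mul]
  have hYm : ∀ g g', Y (g * g') = (Y g').mapDomain (Pt.sym (gs f g)) + Y g := by
    intro g g'
    rw [hY, hY, hY, hms, hmn, hms, ← div_symU]
    have h1 := congrArg (Finsupp.mapDomain (Pt.sym (N := ℓ) ⟨γ, hγ⟩)) (h.div (κ g) (κ g'))
    rw [Finsupp.mapDomain_add, Finsupp.mapDomain_add, ← div_symU, ← hmul, hpt] at h1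
    have h2 := h.div g g'
    have h3 := congrArg Wt.div (hab (κ g) (κ g') g g' (hκ g) (hκ g'))
    rw [Wt.div_mul, Wt.div_mul, Wt.div_mul, hdp, hdp] at h3
    exact opsc_aux m h1 h2 h3
  obtain ⟨E, hE⟩ := h1div hYc hYm
  refine ⟨cl E, fun g g' hg => ?_⟩
  rw [huniq g g' hg]
  have h1 := congrArg cl (hE g')
  rw [hY, map_sub, cl_div, sub_zero, map_sub, map_nsmul, map_sub, ← symJ_cl, ← symJ_cl] at h1
  exact h1

end Internal

section Inflation

variable {K S : Type} [Field K] [Field S] [Algebra K S]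
  {L Ω : Type} [Field L] [Field Ω] [Algebra L Ω] {ℓ : ℕ} {f : L[X]}
  {F : Type} [Field F] [Algebra F K] [Algebra F[X] L]
  {i : L →+* K} [IsAlgClosed F] [IsAlgClosure K S] [IsAlgClosure L Ω]
  [hG : IsGood ℓ (f.map (algebraMap L Ω))] {x y : K}
  {Φ : FunField ℓ (f.map (algebraMap L Ω)) →+* S}

/-- `isCts_res`, `res_symU`, `map_mul`. -/
lemma icob_infl {b : (Ω ≃ₐ[L] Ω) → (Ω ≃ₐ[L] Ω) → (FunField ℓ (f.map (algebraMap L Ω)))ˣ}
    (hΦ : IsModel F i x y Φ) (hb : ICob b) : IsCoboundary (infl hΦ b) := by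
  obtain ⟨a, ha, hab⟩ := hb
  refine ⟨fun g => Units.map (Φ : _ →* S) (a (res hΦ g)), (isCts_res hΦ ha).comp _, ?_⟩
  intro g j
  have h1 := congrArg (fun u : (FunField ℓ (f.map (algebraMap L Ω)))ˣ =>
    Φ (u : FunField ℓ (f.map (algebraMap L Ω)))) (hab (res hΦ g) (res hΦ j))
  have h2 := res_symU hΦ g (a (res hΦ j))
  rw [← map_mul] at h1
  show Φ (b (res hΦ g) (res hΦ j) : FunField ℓ (f.map (algebraMap L Ω))) *
      Φ (a (res hΦ (g * j)) : FunField ℓ (f.map (algebraMap L Ω))) =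
    g (Φ (a (res hΦ j) : FunField ℓ (f.map (algebraMap L Ω)))) *
      Φ (a (res hΦ g) : FunField ℓ (f.map (algebraMap L Ω)))
  rw [h2, ← map_mul, ← map_mul]
  exact h1

end Inflation

end Pool.Agent.Lib.MP_89bcae_ag.Brt

end

section

/-!
# Descent of invariant classes
-/

open Polynomial IsDedekindDomain IsLocalRing

open scoped Classical

namespace Pool.Agent.Lib.MP_89bcae_ag.Brt

open Pool.Agent.Lib.MP_89bcae_ag.Wt Pool.Agent.Lib.MP_89bcae_ag.Wt.Lns Pool.Agent.Lib.MP_89bcae_ag.Bra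

section

variable {K S : Type} [Field K] [Field S] [Algebra K S]
  {L Ω : Type} [Field L] [Field Ω] [Algebra L Ω] {ℓ : ℕ} {f : L[X]}
  {F : Type} [Field F] [Algebra F K] [Algebra F[X] L]
  {i : L →+* K} [IsAlgClosed F] [IsAlgClosure K S] [IsAlgClosure L Ω]
  [hG : IsGood ℓ (f.map (algebraMap L Ω))] {x y : K}
  {Φ : FunField ℓ (f.map (algebraMap L Ω)) →+* S}

/-- Hilbert 90 for the functions on the curve, up to powers of the characteristic. -/
theorem h90_fun (hΦ : IsModel F i x y Φ)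
    (a : (Ω ≃ₐ[L] Ω) → (FunField ℓ (f.map (algebraMap L Ω)))ˣ) (ha : IsCts a)
    (hc : ∀ g h, a (g * h) = symU (gs f g) (a h) * a g) :
    ∃ (s : ℕ) (w : (FunField ℓ (f.map (algebraMap L Ω)))ˣ),
      ∀ g, a g ^ ringExpChar F ^ s * w = symU (gs f g) w := by
  have h0 : ∀ g h : S ≃ₐ[K] S,
      ((Units.map (Φ : _ →* S) (a (res hΦ (g * h))) : Sˣ) : S) =
        g ((Units.map (Φ : _ →* S) (a (res hΦ h)) : Sˣ) : S) *
          ((Units.map (Φ : _ →* S) (a (res hΦ g)) : Sˣ) : S) := by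
    intro g h
    rw [map_mul, hc]
    have h2 := res_symU hΦ g (a (res hΦ h))
    show Φ ((symU (gs f (res hΦ g)) (a (res hΦ h)) * a (res hΦ g) :
      (FunField ℓ (f.map (algebraMap L Ω)))ˣ) : FunField ℓ (f.map (algebraMap L Ω))) =
      g (Φ (a (res hΦ h) : FunField ℓ (f.map (algebraMap L Ω)))) *
        Φ (a (res hΦ g) : FunField ℓ (f.map (algebraMap L Ω)))
    rw [h2, ← map_mul, Units.val_mul]
  obtain ⟨e, he⟩ := h90 (fun g : S ≃ₐ[K] S => Units.map (Φ : _ →* S) (a (res hΦ g)))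
    ((isCts_res hΦ ha).comp _) h0
  have ha1 : a 1 = 1 := by
    have h1 := hc 1 1
    have h2 : symU (gs f (1 : Ω ≃ₐ[L] Ω)) (a 1) = a 1 := by
      apply Units.ext
      rw [coe_symU]
      have h3 := hom_ext (φ := funMap ℓ ((gs f (1 : Ω ≃ₐ[L] Ω) : Ω ≃+* Ω) : Ω →+* Ω)
        (gs f (1 : Ω ≃ₐ[L] Ω)).2) (ψ := RingHom.id (FunField ℓ (f.map (algebraMap L Ω))))
        (fun z => by rw [funMap_cO]; rfl)
        (by rw [funMap_polyF, Polynomial.map_X]; rfl) (by rw [funMap_yF]; rfl)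
      rw [h3]
      rfl
    rw [mul_one, h2] at h1
    exact (mul_eq_left.1 h1.symm)
  have hker : ∀ g : S ≃ₐ[K] S, res hΦ g = 1 → g (e : S) = e := by
    intro g hg
    have h1 := he g
    rw [hg, ha1, map_one, Units.val_one, one_mul] at h1
    exact h1.symm
  obtain ⟨s, w, hw⟩ := exists_pow_ker hΦ (e : S) hker
  have hw0 : w ≠ 0 := by
    rintro rfl
    rw [map_zero] at hw
    exact pow_ne_zero _ e.ne_zero hw
  refine ⟨s, Units.mk0 w hw0, fun g => ?_⟩
  obtain ⟨g', rfl⟩ := res_surjective hΦ g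
  apply Units.ext
  apply Φ.injective
  have h1 := congrArg (fun z : S => z ^ ringExpChar F ^ s) (he g')
  have h2 : (((Units.map (Φ : _ →* S) (a (res hΦ g')) : Sˣ) : S)) =
      Φ (a (res hΦ g') : FunField ℓ (f.map (algebraMap L Ω))) := rfl
  rw [mul_pow, h2, ← map_pow g', hw, ← map_pow, ← map_mul] at h1
  have h3 := res_symU hΦ g' (Units.mk0 w hw0)
  rw [Units.val_mul, Units.val_pow_eq_pow_val, Units.val_mk0, ← h3, Units.val_mk0]
  exact h1

/-- The invariant functions, up to powers of the characteristic. -/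
theorem invariant_fun (hΦ : IsModel F i x y Φ) {κ : K →+* FunField ℓ (f.map (algebraMap L Ω))}
    (hκ : ∀ z, Φ (κ z) = algebraMap K S z) (w : (FunField ℓ (f.map (algebraMap L Ω)))ˣ)
    (hw : ∀ g : Ω ≃ₐ[L] Ω, symU (gs f g) w = w) :
    ∃ (s : ℕ) (z : Kˣ), w ^ ringExpChar F ^ s = Units.map (κ : K →* _) z := by
  have h1 : ∀ g : S ≃ₐ[K] S, g (Φ (w : FunField ℓ (f.map (algebraMap L Ω)))) =
      Φ (w : FunField ℓ (f.map (algebraMap L Ω))) := by
    intro g
    rw [res_symU hΦ g w, hw]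
  obtain ⟨s, z, hz⟩ := exists_pow_mem (K := K) _ h1
  have hq : ringExpChar K = ringExpChar F := by
    have h2 : ExpChar K (ringExpChar F) := expChar_of_injective_algebraMap
      (algebraMap F K).injective (ringExpChar F)
    exact ringExpChar.eq K (ringExpChar F)
  rw [hq, ← hκ, ← map_pow] at hz
  have hz' := Φ.injective hz
  have hz0 : z ≠ 0 := by
    rintro rfl
    rw [map_zero] at hz'
    exact pow_ne_zero _ w.ne_zero hz'
  refine ⟨s, Units.mk0 z hz0, Units.ext ?_⟩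
  rw [Units.val_pow_eq_pow_val]
  exact hz'

omit [IsAlgClosed F] [IsAlgClosure K S] [IsAlgClosure L Ω] [Field F]
  [Algebra F K] [Algebra F[X] L] [Field K] [Field S] [Algebra K S] in
/-- A function without zeros and poles is constant. -/
lemma pic_const {E : Type} [Field E] {N : ℕ} {f : E[X]} [hG : IsGood N f]
    (h : (FunField N f)ˣ) (hh : div h = 0) : ∃ c : Eˣ, h = cstU c := by
  have := hG.alg
  have hne : NeZero (N : E) := ⟨hG.ne_zero⟩
  obtain ⟨ζ, hζ⟩ := HasEnoughRootsOfUnity.exists_primitiveRoot E N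
  have hdg : dg (div h) = 0 := by rw [hh, dg, Finsupp.sum_zero_index]
  have hord : ∀ P, ord P h = 0 := fun P => by
    rw [← div_apply, hh]
    rfl
  obtain ⟨c, hc | ⟨w, hw, hwd⟩⟩ := exists_const_of_dg_eq_zero ζ hζ h hdg
  · have hc0 : c ≠ 0 := by
      rintro rfl
      exact h.ne_zero (by rw [hc, map_zero])
    exact ⟨Units.mk0 c hc0, Units.ext hc⟩
  · exfalso
    have hwn : ∀ P, 0 ≤ ord P w := by
      intro P
      by_cases hc0 : c = 0
      · have hwu : w = h := Units.ext (by rw [hw, hc0, map_zero, sub_zero])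
        rw [hwu, hord]
      · have h5 := ord_add P h (cstU (Units.mk0 (-c) (neg_ne_zero.2 hc0))) w (by
                rw [hw, cstU, Units.coe_map, Units.val_mk0, MonoidHom.coe_coe, map_neg,
                  sub_eq_add_neg])
        rw [hord, ord_cstU, min_self] at h5
        exact h5
    refine absurd hwd (not_lt.2 ?_)
    exact Finset.sum_nonneg fun P _ => hwn P

/-- Hilbert 90 for the constants: a function whose divisor is invariant is, up to a constant, invariant. -/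
theorem adjust_fun (w : (FunField ℓ (f.map (algebraMap L Ω)))ˣ)
    (hw : ∀ g : Ω ≃ₐ[L] Ω, (div w).mapDomain (Pt.sym (gs f g)) = div w) :
    ∃ w' : (FunField ℓ (f.map (algebraMap L Ω)))ˣ, div w' = div w ∧
      ∀ g : Ω ≃ₐ[L] Ω, symU (gs f g) w' = w' := by
  have h1 : ∀ g : Ω ≃ₐ[L] Ω, ∃ c : Ωˣ, symU (gs f g) w = cstU c * w := by
    intro g
    obtain ⟨c, hc⟩ := pic_const (symU (gs f g) w * w⁻¹) (by
      rw [Wt.div_mul, Wt.div_inv, div_symU, hw g, add_neg_cancel])
    exact ⟨c, by rw [← hc, inv_mul_cancel_right]⟩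
  choose c hc using h1
  have hinj : ∀ a b : Ωˣ, (cstU a : (FunField ℓ (f.map (algebraMap L Ω)))ˣ) = cstU b → a = b := by
    intro a b hab
    apply Units.ext
    exact (cst : Ω →+* FunField ℓ (f.map (algebraMap L Ω))).injective (congrArg Units.val hab)
  have hcoc : ∀ g h : Ω ≃ₐ[L] Ω, (c (g * h) : Ω) = g (c h) * c g := by
    intro g h
    have h2 := congrArg (symU (gs f g)) (hc h)
    have h3 : symU (gs f (g * h)) w = symU (gs f g) (symU (gs f h) w) := by
      apply Units.ext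
      rw [coe_symU, coe_symU, coe_symU, extf_funMap_mul, map_mul]
    rw [← h3, hc, map_mul, symU_cstU, hc g, ← mul_assoc] at h2
    have h4 : c (g * h) = Units.map ((gs f g : Ω ≃+* Ω) : Ω →* Ω) (c h) * c g :=
      hinj _ _ (by rw [map_mul]; exact mul_right_cancel h2)
    exact congrArg Units.val h4
  have hcts : IsCts c := by
    obtain ⟨T, hT⟩ := exists_support (w : FunField ℓ (f.map (algebraMap L Ω)))
    refine ⟨T, fun g g' hgg => hinj _ _ ?_⟩
    have h5 : symU (gs f g) w = symU (gs f g') w := by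
      apply Units.ext
      rw [coe_symU, coe_symU]
      exact hT _ _ hgg
    rw [hc, hc] at h5
    exact mul_right_cancel h5
  obtain ⟨e, he⟩ := h90 c hcts hcoc
  refine ⟨w * (cstU e)⁻¹, by rw [Wt.div_mul, Wt.div_inv, div_cstU, neg_zero, add_zero], fun g => ?_⟩
  rw [map_mul, map_inv, symU_cstU, hc]
  have h6 : Units.map ((gs f g : Ω ≃+* Ω) : Ω →* Ω) e = c g * e := by
    apply Units.ext
    exact (he g).symm
  rw [h6, map_mul, mul_inv]
  rw [mul_comm (cstU (c g)) w, mul_assoc, mul_inv_cancel_left]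

/-- An invariant class is, up to a multiple prime to `ℓ`, the class of an invariant divisor. -/
theorem descend (hℓ : ℓ.Prime) (hΦ : IsModel F i x y Φ) (hBr : BrTriv ℓ L Ω)
    (R : Jac ℓ (f.map (algebraMap L Ω))) (hR : ∀ g : Ω ≃ₐ[L] Ω, symJ (gs f g) R = R) :
    ∃ (m : ℕ) (D : Pt ℓ (f.map (algebraMap L Ω)) →₀ ℤ), m.Coprime ℓ ∧
      (∀ g : Ω ≃ₐ[L] Ω, D.mapDomain (Pt.sym (gs f g)) = D) ∧ cl D = m • R := by
  have hb : ICoc (fun _ _ => 1 : (Ω ≃ₐ[L] Ω) → (Ω ≃ₐ[L] Ω) →
      (FunField ℓ (f.map (algebraMap L Ω)))ˣ) :=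
    ⟨fun _ _ _ => by rw [map_one], ⟨∅, fun _ _ _ _ _ _ => rfl⟩⟩
  have hd : IDiv (fun _ _ => 1 : (Ω ≃ₐ[L] Ω) → (Ω ≃ₐ[L] Ω) →
      (FunField ℓ (f.map (algebraMap L Ω)))ˣ) (fun _ => 0) :=
    ⟨IsCts.const 0, fun _ _ => by rw [Wt.div_one, Finsupp.mapDomain_zero]⟩
  obtain ⟨m, E, a, hm, hE, ha, hab, hda⟩ := icob_of_cl_strong hBr hb hd R
    (fun g => by rw [map_zero, hR g, sub_self])
  obtain ⟨s, w, hw⟩ := h90_fun hΦ a ha (fun g h => by
    have h1 := hab g h
    rw [one_pow, one_mul] at h1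
    exact h1)
  have hq : (ringExpChar F).Coprime ℓ := extc_coprime (L := L) (Ω := Ω) (f := f) hℓ
  have hdp : ∀ (u : (FunField ℓ (f.map (algebraMap L Ω)))ˣ) (n : ℕ), div (u ^ n) = n • div u := by
    intro u n
    ext P
    rw [Wt.div_apply, ord_pow, Finsupp.smul_apply, Wt.div_apply, nsmul_eq_mul]
  refine ⟨ringExpChar F ^ s * m, (ringExpChar F ^ s * m) • E + div w,
    Nat.Coprime.mul_left (Nat.Coprime.pow_left s hq) hm, fun g => ?_, ?_⟩
  · have h2 := congrArg Wt.div (hw g)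
    rw [Wt.div_mul, hdp, hda, div_symU] at h2
    rw [Finsupp.mapDomain_add, ← h2, Finsupp.mapDomain_smul, mul_smul, mul_smul]
    rw [zero_sub, smul_neg, smul_neg, smul_sub, smul_sub]
    abel
  · rw [map_add, map_nsmul, hE]
    rw [cl_div, add_zero]

end

end Pool.Agent.Lib.MP_89bcae_ag.Brt

end

section

/-!
# Ramification indices, invariant functions
-/

open Polynomial IsDedekindDomain IsLocalRing FractionalIdeal

open scoped Classical nonZeroDivisors

namespace Pool.Agent.Lib.MP_89bcae_ag.Brt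

open Pool.Agent.Lib.MP_89bcae_ag.Wt Pool.Agent.Lib.MP_89bcae_ag.Wt.Lns Pool.Agent.Lib.MP_89bcae_ag.Bra

section

variable {L Ω : Type} [Field L] [Field Ω] [Algebra L Ω] {ℓ : ℕ} {f : L[X]} [IsAlgClosure L Ω]
  [hG : IsGood ℓ (f.map (algebraMap L Ω))]

/-- For an unramified point there is a polynomial with coefficients in `L` whose order at the point is a
power of the characteristic exponent. -/
theorem exists_poly_ord (P : Pt ℓ (f.map (algebraMap L Ω))) (hP : P.y ≠ 0) :
    ∃ (p : L[X]) (hp : p.map (algebraMap L Ω) ≠ 0) (n : ℕ),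
      ord P (polyU (p.map (algebraMap L Ω)) hp) = (ringExpChar L : ℤ) ^ n := by
  let q := ringExpChar L
  have hqΩ : ExpChar Ω q := expChar_of_injective_algebraMap (algebraMap L Ω).injective q
  have halg : Algebra.IsAlgebraic L Ω := IsAlgClosure.isAlgebraic
  obtain ⟨n, hn⟩ := (isPurelyInseparable_iff_pow_mem (separableClosure L Ω) q).1
    (separableClosure.isPurelyInseparable L Ω) P.x
  obtain ⟨β, hβ⟩ := hn
  have hβs : IsSeparable L (β : Ω) := mem_separableClosure_iff.1 β.2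
  have hβx : (β : Ω) = P.x ^ q ^ n := hβ
  have hg0 : minpoly L (β : Ω) ≠ 0 := minpoly.ne_zero (halg.isAlgebraic (β : Ω)).isIntegral
  have hroot : ((minpoly L (β : Ω)).map (algebraMap L Ω)).eval (β : Ω) = 0 := by
    rw [eval_map_algebraMap, minpoly.aeval]
  obtain ⟨g₁, hg₁⟩ := dvd_iff_isRoot.2 hroot
  have hsep : ((minpoly L (β : Ω)).map (algebraMap L Ω)).Separable :=
    Polynomial.Separable.map hβs
  have hg₁β : g₁.eval (β : Ω) ≠ 0 := by
    intro h0
    obtain ⟨g₂, hg₂⟩ := dvd_iff_isRoot.2 h0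
    rw [hg₂, ← mul_assoc] at hg₁
    have h1 : IsUnit (X - C (β : Ω)) := hsep.squarefree (X - C (β : Ω)) ⟨g₂, hg₁⟩
    exact (Polynomial.not_isUnit_X_sub_C _) h1
  have hqn : 0 < q ^ n := pow_pos (expChar_pos L q) n
  have hexp : (expand L (q ^ n) (minpoly L (β : Ω))).map (algebraMap L Ω) =
      (X - C P.x) ^ q ^ n * expand Ω (q ^ n) g₁ := by
    rw [map_expand, hg₁, map_mul, map_sub, expand_X, expand_C, hβx, C_pow,
      ← sub_pow_expChar_pow]
  have h1 : expand Ω (q ^ n) g₁ ≠ 0 := by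
    intro h0
    rw [(expand_eq_zero hqn).1 h0, eval_zero] at hg₁β
    exact hg₁β rfl
  have h2 : (X - C P.x : (Polynomial Ω)) ^ q ^ n ≠ 0 := pow_ne_zero _ (X_sub_C_ne_zero _)
  have h3 : (expand L (q ^ n) (minpoly L (β : Ω))).map (algebraMap L Ω) ≠ 0 := by
    rw [hexp]
    exact mul_ne_zero h2 h1
  refine ⟨expand L (q ^ n) (minpoly L (β : Ω)), h3, n, ?_⟩
  have h4 : (polyU _ h3 : (FunField ℓ (f.map (algebraMap L Ω)))ˣ) =
      xs P.x ^ q ^ n * polyU _ h1 := by
    apply Units.ext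
    show algebraMap (NRing ℓ (f.map (algebraMap L Ω))) (FunField ℓ (f.map (algebraMap L Ω)))
      (ofPoly ((expand L (q ^ n) (minpoly L (β : Ω))).map (algebraMap L Ω))) =
      (algebraMap (NRing ℓ (f.map (algebraMap L Ω))) (FunField ℓ (f.map (algebraMap L Ω)))
        (ofPoly (X - C P.x))) ^ q ^ n *
      algebraMap (NRing ℓ (f.map (algebraMap L Ω))) (FunField ℓ (f.map (algebraMap L Ω)))
        (ofPoly (expand Ω (q ^ n) g₁))
    rw [hexp, map_mul, map_mul, map_pow, map_pow]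
  rw [h4, ord_mul, ord_pow, ord_xs_of_unramified P hP, ord_polyU_of_ne P h1 (by
    rw [expand_eval, ← hβx]
    exact hg₁β), add_zero, mul_one]
  push_cast
  rfl

end

section

variable {K S : Type} [Field K] [Field S] [Algebra K S]
  {L Ω : Type} [Field L] [Field Ω] [Algebra L Ω] {ℓ : ℕ} {f : L[X]}
  {F : Type} [Field F] [Algebra F K] [Algebra F[X] L]
  {i : L →+* K} [IsAlgClosed F] [IsAlgClosure K S] [IsAlgClosure L Ω]
  [hG : IsGood ℓ (f.map (algebraMap L Ω))] {x y : K}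
  {Φ : FunField ℓ (f.map (algebraMap L Ω)) →+* S}
  {κ : K →+* FunField ℓ (f.map (algebraMap L Ω))}

lemma kappa_base (hΦ : IsModel F i x y Φ) (hκ : ∀ z, Φ (κ z) = algebraMap K S z) (l : L) :
    κ (i l) = cO ℓ f Ω (algebraMap L Ω l) := by
  apply Φ.injective
  rw [hκ, hΦ.base]

lemma kappa_x (hΦ : IsModel F i x y Φ) (hκ : ∀ z, Φ (κ z) = algebraMap K S z) :
    κ x = polyF X := by
  apply Φ.injective
  rw [hκ, hΦ.fx]

lemma kappa_y (hΦ : IsModel F i x y Φ) (hκ : ∀ z, Φ (κ z) = algebraMap K S z) :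
    κ y = yF := by
  apply Φ.injective
  rw [hκ, hΦ.fy]

lemma kappa_inv (hΦ : IsModel F i x y Φ) (hκ : ∀ z, Φ (κ z) = algebraMap K S z)
    (g : Ω ≃ₐ[L] Ω) (z : Kˣ) : symU (gs f g) (kU κ z) = kU κ z := by
  obtain ⟨r, hr⟩ := hΦ.exists_toO (z : K)
  rw [← hκ] at hr
  have h1 := Φ.injective hr
  apply Units.ext
  rw [coe_symU]
  show funMap ℓ ((gs f g : Ω ≃+* Ω) : Ω →+* Ω) (gs f g).2 (κ (z : K)) = κ (z : K)
  rw [← h1, funMap_toO]

/-- The functions with invariant divisor. -/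
theorem pic_fun (hℓ : ℓ.Prime) (hΦ : IsModel F i x y Φ) (hκ : ∀ z, Φ (κ z) = algebraMap K S z)
    (w : (FunField ℓ (f.map (algebraMap L Ω)))ˣ)
    (hw : ∀ g : Ω ≃ₐ[L] Ω, (Wt.div w).mapDomain (Pt.sym (gs f g)) = Wt.div w) :
    ∃ (s : ℕ) (z : Kˣ), s.Coprime ℓ ∧ Wt.div (kU κ z) = s • Wt.div w := by
  obtain ⟨w', h1, h2⟩ := adjust_fun w hw
  obtain ⟨s, z, hz⟩ := invariant_fun hΦ hκ w' h2
  have hq : (ringExpChar F).Coprime ℓ := extc_coprime (L := L) (Ω := Ω) (f := f) hℓ
  refine ⟨ringExpChar F ^ s, z, Nat.Coprime.pow_left s hq, ?_⟩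
  rw [← h1, ← hz]
  ext P
  rw [Wt.div_apply, ord_pow, Finsupp.smul_apply, Wt.div_apply, nsmul_eq_mul]

end

end Pool.Agent.Lib.MP_89bcae_ag.Brt

end

end

section

attribute [local instance 100000] Pool.Agent.Lib.MP_89bcae_ag.Brt.tffFields
attribute [local instance 100000] Pool.Agent.Lib.MP_89bcae_ag.Wt.ifrNF Pool.Agent.Lib.MP_89bcae_ag.Wt.iddNF

namespace Pool.Agent.Lib.MP_89bcae_ag.Sup
end Pool.Agent.Lib.MP_89bcae_ag.Sup


section

/-!
# Transitivity on pairs from a place where exactly one root of `D` has a pole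
-/

open Polynomial IsDedekindDomain WithZero

open scoped Classical

namespace Pool.Agent.Lib.MP_89bcae_ag

set_option linter.style.haveILetI false
set_option linter.unusedSectionVars false

universe u

/-- Transitivity on the pairs of roots of `D` and automorphisms moving only one fibre imply
transitivity on the pairs of roots of `D(g)` in different fibres. -/
theorem isPairTransitive_of_fibre7 {k F : Type*} [Field k] [Field F] [Algebra k F] {g D : k[X]}
    (hX : IsPairTransitive7 k F X D) (α₀ : F) (hα₀ : aeval α₀ D = 0)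
    (h : ∀ x y : F, aeval x g = α₀ → aeval y g = α₀ → ∃ σ : F ≃ₐ[k] F, σ x = y ∧
      ∀ b : F, aeval b (D.comp g) = 0 → aeval b g ≠ α₀ → σ b = b) :
    IsPairTransitive7 k F g D := by
  have hX' : ∀ α β α' β' : F, aeval α D = 0 → aeval β D = 0 → aeval α' D = 0 → aeval β' D = 0 →
      α ≠ β → α' ≠ β' → ∃ σ : F ≃ₐ[k] F, σ α = α' ∧ σ β = β' := by
    intro α β α' β' h1 h2 h3 h4 h5 h6
    apply hX α β α' β' <;> simpa
  have hσev : ∀ (σ : F ≃ₐ[k] F) (p : k[X]) (x : F), aeval (σ x) p = σ (aeval x p) := fun σ p x =>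
    Polynomial.aeval_algHom_apply σ x p
  have hcomp : ∀ b : F, aeval b (D.comp g) = aeval (aeval b g) D := fun b => aeval_comp b
  -- all the fibres
  have hall : ∀ α β : F, aeval α D = 0 → aeval β D = 0 → α ≠ β → ∀ x y : F, aeval x g = α →
      aeval y g = α → ∃ σ : F ≃ₐ[k] F, σ x = y ∧
        ∀ b : F, aeval b (D.comp g) = 0 → aeval b g ≠ α → σ b = b := by
    intro α β hα hβ hαβ x y hx hy
    obtain ⟨β₀, hβ₀, hne⟩ : ∃ β₀ : F, aeval β₀ D = 0 ∧ α₀ ≠ β₀ := by
      by_cases hc : α₀ = α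
      · exact ⟨β, hβ, by rw [hc]; exact hαβ⟩
      · exact ⟨α, hα, hc⟩
    obtain ⟨τ, hτ, -⟩ := hX' α₀ β₀ α β hα₀ hβ₀ hα hβ hne hαβ
    have hτ' : τ.symm α = α₀ := by rw [← hτ, AlgEquiv.symm_apply_apply]
    obtain ⟨σ, hσ, hfix⟩ := h (τ.symm x) (τ.symm y) (by rw [hσev, hx, hτ'])
      (by rw [hσev, hy, hτ'])
    refine ⟨(τ.symm.trans σ).trans τ, ?_, fun b hb hne' => ?_⟩
    · change τ (σ (τ.symm x)) = y
      rw [hσ, AlgEquiv.apply_symm_apply]
    · change τ (σ (τ.symm b)) = b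
      rw [hfix (τ.symm b) (by rw [hσev, hb, map_zero]) ?_, AlgEquiv.apply_symm_apply]
      intro h1
      rw [hσev] at h1
      apply hne'
      rw [← hτ, ← h1, AlgEquiv.apply_symm_apply]
  intro b c b' c' hb hc hb' hc' hbc hbc'
  rw [hcomp] at hb hc hb' hc'
  obtain ⟨τ, hτb, hτc⟩ := hX' _ _ _ _ hb hc hb' hc' hbc hbc'
  obtain ⟨σ, hσ, hσfix⟩ := hall _ _ hb' hc' hbc' (τ b) b' (by rw [hσev, hτb]) rfl
  obtain ⟨ρ, hρ, hρfix⟩ := hall _ _ hc' hb' (Ne.symm hbc') (τ c) c' (by rw [hσev, hτc]) rfl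
  refine ⟨(τ.trans σ).trans ρ, ?_, ?_⟩
  · change ρ (σ (τ b)) = b'
    rw [hσ, hρfix b' (by rw [hcomp]; exact hb') hbc']
  · change ρ (σ (τ c)) = c'
    rw [hσfix (τ c) (by rw [hcomp, hσev, hτc]; exact hc') (by rw [hσev, hτc]; exact hbc'.symm), hρ]

/-- Transitivity on pairs from automorphisms, of the splitting field, moving only one fibre. -/
theorem isPairTransitive_of_galois7 (R k : Type*) (F : Type u) [CommRing R] [IsDomain R] [Field k]
    [Algebra R k] [IsFractionRing R k] [Field F] [Algebra k F] [IsAlgClosure k F] {g D : R[X]}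
    (hgdeg : g.natDegree ≠ 0) (hg : g.Monic)
    (H : ∀ (K : Type u) [Field K] [Algebra k K] [Algebra R K] [IsScalarTower R k K]
      [FiniteDimensional k K] [IsGalois k K] (S A : Finset K), D.map (algebraMap R K) =
        C (algebraMap R K D.leadingCoeff) * ∏ α ∈ A, (X - C α) →
      (∀ α ∈ A, g.map (algebraMap R K) - C α =
        ∏ b ∈ S.filter (fun b => (g.map (algebraMap R K)).eval b = α), (X - C b)) →
      (∀ b ∈ S, (g.map (algebraMap R K)).eval b ∈ A) →
      (∀ σ : K ≃ₐ[k] K, (∀ b ∈ S, σ b = b) → σ = 1) →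
      ∃ α₀ ∈ A, ∀ x ∈ S, ∀ y ∈ S, (g.map (algebraMap R K)).eval x = α₀ →
        (g.map (algebraMap R K)).eval y = α₀ → ∃ σ : K ≃ₐ[k] K, σ x = y ∧
          ∀ b ∈ S, (g.map (algebraMap R K)).eval b ≠ α₀ → σ b = b)
    (hsep : ((D.comp g).map (algebraMap R k)).Separable)
    (hX : IsPairTransitive7 k F X (D.map (algebraMap R k))) :
    IsPairTransitive7 k F (g.map (algebraMap R k)) (D.map (algebraMap R k)) := by
  have hF : IsAlgClosed F := IsAlgClosure.isAlgClosed k
  have hkF : Algebra.IsAlgebraic k F := IsAlgClosure.isAlgebraic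
  letI : Algebra R F := ((algebraMap k F).comp (algebraMap R k)).toAlgebra
  haveI : IsScalarTower R k F := IsScalarTower.of_algebraMap_eq fun _ => rfl
  have hinjk : Function.Injective (algebraMap R k) := IsFractionRing.injective R k
  have hinjF : Function.Injective (algebraMap R F) := (algebraMap k F).injective.comp hinjk
  have hmapF : ∀ p : R[X], (p.map (algebraMap R k)).map (algebraMap k F) =
      p.map (algebraMap R F) := fun p => by rw [Polynomial.map_map]; rfl
  have hlcF' : (D.map (algebraMap R F)).leadingCoeff = algebraMap R F D.leadingCoeff :=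
    leadingCoeff_map_of_injective hinjF D
  have hcompF : (D.map (algebraMap R F)).comp (g.map (algebraMap R F)) =
      ((D.comp g).map (algebraMap R k)).map (algebraMap k F) := by
    rw [hmapF, Polynomial.map_comp]
  have hsepF : ((D.map (algebraMap R F)).comp (g.map (algebraMap R F))).Separable := by
    rw [hcompF]; exact hsep.map
  have hgF : (g.map (algebraMap R F)).natDegree ≠ 0 := by rwa [hg.natDegree_map]
  have hsepD : (D.map (algebraMap R F)).Separable := separable_left7 hgF hsepF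
  set gF := g.map (algebraMap R F) with hgFdef
  set DF := D.map (algebraMap R F) with hDFdef
  set S : Finset F := (DF.comp gF).roots.toFinset with hS
  set A : Finset F := DF.roots.toFinset with hA
  have hmemS : ∀ b, b ∈ S ↔ DF.eval (gF.eval b) = 0 := by
    intro b
    rw [hS, Multiset.mem_toFinset, mem_roots hsepF.ne_zero, IsRoot.def, eval_comp]
  have hmemA : ∀ α, α ∈ A ↔ DF.eval α = 0 := by
    intro α
    rw [hA, Multiset.mem_toFinset, mem_roots hsepD.ne_zero, IsRoot.def]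
  have hSA : ∀ b ∈ S, gF.eval b ∈ A := fun b hb => (hmemA _).mpr ((hmemS b).mp hb)
  have hDA : DF = C (algebraMap R F D.leadingCoeff) * ∏ α ∈ A, (X - C α) := by
    rw [← hlcF']
    exact eq_prod_roots7 hsepD
  have hgS : ∀ α ∈ A, gF - C α = ∏ b ∈ S.filter (fun b => gF.eval b = α), (X - C b) := by
    intro α hα
    have h1 : (gF - C α) ∣ DF.comp gF := by
      obtain ⟨w, hw⟩ := dvd_iff_isRoot.mpr ((hmemA α).mp hα)
      refine ⟨w.comp gF, ?_⟩
      rw [hw, mul_comp, sub_comp, X_comp, C_comp]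
    have h3 := eq_prod_roots7 (hsepF.of_dvd h1)
    have h4 : (gF - C α).Monic := by
      have h5 : (C α).degree < gF.degree := by
        rw [degree_eq_natDegree (p := gF) (fun h => hgF (by rw [h, natDegree_zero]))]
        exact (degree_C_le).trans_lt (by exact_mod_cast Nat.pos_of_ne_zero hgF)
      exact (hg.map _).sub_of_left h5
    rw [h4.leadingCoeff, C_1, one_mul] at h3
    rw [h3]
    congr 1
    ext b
    rw [Finset.mem_filter, Multiset.mem_toFinset, mem_roots h4.ne_zero, IsRoot.def, eval_sub,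
      eval_C, sub_eq_zero, hmemS]
    constructor
    · exact fun h => ⟨by rw [h]; exact (hmemA α).mp hα, h⟩
    · exact fun h => h.2
  have hAS : ∀ α ∈ A, ∃ b ∈ S, gF.eval b = α := by
    intro α hα
    have h1 : (gF - C α).degree ≠ 0 := by
      intro h4
      have h3 : (gF - C α).natDegree = gF.natDegree := natDegree_sub_C
      rw [natDegree_eq_of_degree_eq_some h4] at h3
      exact hgF h3.symm
    obtain ⟨b, hb⟩ := IsAlgClosed.exists_root _ h1
    rw [IsRoot.def, eval_sub, eval_C, sub_eq_zero] at hb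
    exact ⟨b, (hmemS b).mpr (by rw [hb]; exact (hmemA α).mp hα), hb⟩
  have hSroot : (S : Set F) = ((D.comp g).map (algebraMap R k)).rootSet F := by
    rw [rootSet, hS, hcompF, aroots]
  obtain ⟨hfin, hgal⟩ := galois7 (F := F) hsep
  obtain ⟨K, hK⟩ : ∃ K, K = IntermediateField.adjoin k (S : Set F) := ⟨_, rfl⟩
  haveI : FiniteDimensional k K := by rw [hK, hSroot]; exact hfin
  haveI : IsGalois k K := by rw [hK, hSroot]; exact hgal
  have hSK : ∀ b ∈ S, b ∈ K := by
    intro b hb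
    rw [hK]
    exact IntermediateField.subset_adjoin _ _ hb
  have hRK : ∀ r : R, algebraMap R F r ∈ K := by
    intro r
    rw [IsScalarTower.algebraMap_apply R k F]
    exact K.algebraMap_mem _
  have hgK : ∀ b ∈ K, gF.eval b ∈ K := by
    intro b hb
    rw [hgFdef, eval_map, eval₂_eq_sum_range]
    exact K.sum_mem fun i _ => K.mul_mem (hRK _) (pow_mem hb i)
  have hAK : ∀ α ∈ A, α ∈ K := by
    intro α hα
    obtain ⟨b, hb, rfl⟩ := hAS α hα
    exact hgK b (hSK b hb)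
  have hcomp : (algebraMap K F).comp (algebraMap R K) = algebraMap R F := RingHom.ext fun r => rfl
  have hinj : Function.Injective (Polynomial.map (algebraMap K F)) :=
    Polynomial.map_injective _ (algebraMap K F).injective
  have hev : ∀ b : K, (((g.map (algebraMap R K)).eval b : K) : F) = gF.eval (b : F) := by
    intro b
    rw [hgFdef, ← hcomp, ← Polynomial.map_map, eval_map (algebraMap K F)]
    exact (eval₂_at_apply (algebraMap K F) b).symm
  obtain ⟨α₀, hα₀, hI⟩ := H K (S.subtype (· ∈ K)) (A.subtype (· ∈ K)) (by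
      apply hinj
      rw [Polynomial.map_map, hcomp, ← hDFdef, hDA, Polynomial.map_mul, map_C, Polynomial.map_prod]
      congr 1
      have h1 := prod_subtype7 (· ∈ K) A hAK (fun _ => True) (fun _ => True) (fun _ => Iff.rfl)
        (fun b => (X - C b : F[X]))
      rw [Finset.filter_true, Finset.filter_true] at h1
      rw [← h1]
      refine Finset.prod_congr rfl fun b _ => ?_
      rw [Polynomial.map_sub, map_X, map_C]
      rfl) (by
      intro α hα
      apply hinj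
      rw [Polynomial.map_sub, Polynomial.map_map, hcomp, map_C, Polynomial.map_prod]
      rw [Finset.mem_subtype] at hα
      have h1 := prod_subtype7 (· ∈ K) S hSK (fun b => (g.map (algebraMap R K)).eval b = α)
        (fun b => gF.eval b = (α : F))
        (fun b => by rw [← hev, Subtype.coe_inj]) (fun b => (X - C b : F[X]))
      refine (hgS α hα).trans (h1.symm.trans ?_)
      refine Finset.prod_congr rfl fun b _ => ?_
      rw [Polynomial.map_sub, map_X, map_C]
      rfl) (by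
      intro b hb
      rw [Finset.mem_subtype] at hb ⊢
      rw [hev]
      exact hSA b hb) (by
      intro σ hσ
      subst hK
      ext x
      have h1 : (σ : _ ≃ₐ[k] _).toAlgHom = AlgHom.id k _ := by
        apply IntermediateField.algHom_ext_of_eq_adjoin _ rfl
        intro y hy
        exact hσ ⟨y, IntermediateField.subset_adjoin _ _ hy⟩ (Finset.mem_subtype.mpr hy)
      exact congrArg Subtype.val (congrArg (fun f => f x) h1))
  rw [Finset.mem_subtype] at hα₀
  have heva : ∀ b : F, aeval b (g.map (algebraMap R k)) = gF.eval b := by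
    intro b
    rw [← eval_map_algebraMap, hmapF]
  have hevD : ∀ b : F, aeval b (D.map (algebraMap R k)) = DF.eval b := by
    intro b
    rw [← eval_map_algebraMap, hmapF]
  refine isPairTransitive_of_fibre7 hX (α₀ : F) (by rw [hevD]; exact (hmemA _).mp hα₀) ?_
  intro x y hx hy
  rw [heva] at hx hy
  have hxS : x ∈ S := (hmemS x).mpr (by rw [hx]; exact (hmemA _).mp hα₀)
  have hyS : y ∈ S := (hmemS y).mpr (by rw [hy]; exact (hmemA _).mp hα₀)
  obtain ⟨σ, hσ, hfix⟩ := hI ⟨x, hSK x hxS⟩ (Finset.mem_subtype.mpr hxS) ⟨y, hSK y hyS⟩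
    (Finset.mem_subtype.mpr hyS) (Subtype.ext (by rw [hev]; exact hx))
    (Subtype.ext (by rw [hev]; exact hy))
  obtain ⟨τ, hτ⟩ := AlgEquiv.restrictNormalHom_surjective (F := k) (K₁ := K) F σ
  have hτK : ∀ z : K, τ z = (σ z : K) := by
    intro z
    rw [← hτ]
    exact (AlgEquiv.restrictNormal_commutes τ K z).symm
  refine ⟨τ, ?_, fun b hb hne => ?_⟩
  · have h4 := hτK ⟨x, hSK x hxS⟩
    rw [hσ] at h4
    exact h4
  · rw [aeval_comp, heva, hevD] at hb
    have hbS : b ∈ S := (hmemS b).mpr hb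
    have h4 := hτK ⟨b, hSK b hbS⟩
    rw [hfix ⟨b, hSK b hbS⟩ (Finset.mem_subtype.mpr hbS) ?_] at h4
    · exact h4
    · intro h5
      apply hne
      rw [heva, ← hev ⟨b, hSK b hbS⟩, h5]


/-- **Transitivity on pairs from transitivity on the pairs of roots of `D` and a place where
exactly one root of `D` has a pole, of order one** (arbitrary residue field). -/
theorem isPairTransitive_of_cycle7 (R k F : Type*) [CommRing R] [IsDomain R]
    [IsDiscreteValuationRing R] [Field k] [Algebra R k]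
    [IsFractionRing R k] [Field F] [Algebra k F] [IsAlgClosure k F] {g D : R[X]} (hg : g.Monic)
    (hgm : (g.natDegree : IsLocalRing.ResidueField R) ≠ 0) {n : ℕ} (hn : D.natDegree = n + 1)
    (h1 : D.leadingCoeff ∈ IsLocalRing.maximalIdeal R)
    (h2 : D.leadingCoeff ∉ IsLocalRing.maximalIdeal R ^ 2)
    (h3 : D.coeff n ∉ IsLocalRing.maximalIdeal R)
    (hsepκ : ((D.map (IsLocalRing.residue R)).comp (g.map (IsLocalRing.residue R))).Separable)
    (hsep : ((D.comp g).map (algebraMap R k)).Separable)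
    (hX : IsPairTransitive7 k F X (D.map (algebraMap R k))) :
    IsPairTransitive7 k F (g.map (algebraMap R k)) (D.map (algebraMap R k)) := by
  have hgdeg : g.natDegree ≠ 0 := by
    intro h
    rw [h, Nat.cast_zero] at hgm
    exact hgm rfl
  refine isPairTransitive_of_galois7 R k F hgdeg hg ?_ hsep hX
  intro K _ _ _ _ _ _ S A hDA hgS hSA hgen
  exact exists_cycle8 (k := k) hg hgm hn h1 h2 h3 hsepκ S A hDA hgS hSA hgen

end Pool.Agent.Lib.MP_89bcae_ag

end

section

open NumberField Polynomial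

namespace Pool.Agent.Lib.MP_89bcae_ag.Re

/-- A nonzero integer is not killed modulo large primes. Proof: `φ b = 0` implies that the norm of `b`
(`Algebra.norm ℤ b`, a nonzero integer, which is a multiple of `b` in `𝓞 K`:
`Algebra.dvd_norm` or `Ideal.absNorm_mem` for the ideal `span {b}`) is zero in `ZMod q`; so `q` divides
it; take `N` its absolute value. -/
theorem exists_bound_ne_zero (K : Type*) [Field K] [NumberField K] {b : 𝓞 K} (hb : b ≠ 0) :
    ∃ N : ℕ, ∀ (q : ℕ) [Fact q.Prime], N < q → ∀ φ : 𝓞 K →+* ZMod q, φ b ≠ 0 := by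
  have hn : Algebra.norm ℤ b ≠ 0 := by
    rw [Ne, Algebra.norm_eq_zero_iff]; exact hb
  refine ⟨(Algebra.norm ℤ b).natAbs, ?_⟩
  intro q _ hq φ hφ
  have hmem : ((Ideal.span {b} : Ideal (𝓞 K)).absNorm : 𝓞 K) ∈ Ideal.span {b} :=
    Ideal.absNorm_mem _
  rw [Ideal.absNorm_span_singleton, Ideal.mem_span_singleton] at hmem
  obtain ⟨c, hc⟩ := hmem
  have h0 : (((Algebra.norm ℤ b).natAbs : ℕ) : ZMod q) = 0 := by
    have := congrArg φ hc
    rw [map_natCast, map_mul, hφ, zero_mul] at this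
    exact this
  rw [ZMod.natCast_eq_zero_iff] at h0
  exact absurd (Nat.le_of_dvd (Int.natAbs_pos.mpr hn) h0) (by omega)

/-- **Primes with a non-residue.** Proof: suppose the contrary for all `q > N`. The polynomial
`X ^ ℓ - C b` is irreducible over `K` (`X_pow_sub_C_irreducible_of_prime`); let
`K' = AdjoinRoot (X ^ ℓ - C b)`, a number field (finite over `K`), `α` the root, which is integral,
so it is an element of `𝓞 K'` with `α ^ ℓ = b`, `K' = K(α)` (`AdjoinRoot.adjoinRoot_eq_top`). By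
`exists_denominator`, `exists_bound_ne_zero` and `mul_idealCount_le`, for all large primes `q` we have
`ℓ * idealCount K q ≤ idealCount K' q`: contradiction with `not_mul_le`. -/
theorem exists_nonresidue (K : Type*) [Field K] [NumberField K] {ℓ : ℕ} (hℓ : ℓ.Prime)
    {ζ : 𝓞 K} (hζ : IsPrimitiveRoot ζ ℓ) {b : 𝓞 K} (hb : b ≠ 0) (hb' : ∀ x : K, x ^ ℓ ≠ b) (N : ℕ) :
    ∃ (q : ℕ) (_ : Fact q.Prime), N < q ∧ ∃ φ : 𝓞 K →+* ZMod q,
      φ b ≠ 0 ∧ ∀ y : ZMod q, y ^ ℓ ≠ φ b := by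
  classical
  by_contra hcon
  have hall : ∀ (q : ℕ) [Fact q.Prime], N < q → ∀ φ : 𝓞 K →+* ZMod q, φ b ≠ 0 →
      ∃ y : ZMod q, y ^ ℓ = φ b := by
    intro q hq hN φ hφ
    by_contra hy
    push Not at hy
    exact hcon ⟨q, hq, hN, φ, hφ, hy⟩
  have hirr : Irreducible (X ^ ℓ - C (b : K)) := X_pow_sub_C_irreducible_of_prime hℓ hb'
  have : Fact (Irreducible (X ^ ℓ - C (b : K))) := ⟨hirr⟩
  have hmonic : (X ^ ℓ - C (b : K)).Monic := monic_X_pow_sub_C (b : K) hℓ.ne_zero
  have : Module.Finite K (AdjoinRoot (X ^ ℓ - C (b : K))) := hmonic.finite_adjoinRoot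
  have : NumberField (AdjoinRoot (X ^ ℓ - C (b : K))) :=
    NumberField.of_module_finite K (AdjoinRoot (X ^ ℓ - C (b : K)))
  have hroot : (AdjoinRoot.root (X ^ ℓ - C (b : K))) ^ ℓ =
      algebraMap K (AdjoinRoot (X ^ ℓ - C (b : K))) (b : K) := by
    have h := AdjoinRoot.eval₂_root (X ^ ℓ - C (b : K))
    rw [eval₂_sub, eval₂_pow, eval₂_X, eval₂_C] at h
    exact sub_eq_zero.1 h
  have hint : IsIntegral ℤ (AdjoinRoot.root (X ^ ℓ - C (b : K))) := by
    apply IsIntegral.of_pow hℓ.pos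
    rw [hroot]
    exact (RingOfIntegers.isIntegral_coe b).map (IsScalarTower.toAlgHom ℤ K _)
  let α : 𝓞 (AdjoinRoot (X ^ ℓ - C (b : K))) := ⟨AdjoinRoot.root (X ^ ℓ - C (b : K)), hint⟩
  have hαv : (α : AdjoinRoot (X ^ ℓ - C (b : K))) = AdjoinRoot.root (X ^ ℓ - C (b : K)) := rfl
  have hαb : α ^ ℓ = algebraMap (𝓞 K) (𝓞 (AdjoinRoot (X ^ ℓ - C (b : K)))) b := by
    apply RingOfIntegers.ext
    exact hroot
  obtain ⟨M, hM0, hM⟩ := exists_denominator K (AdjoinRoot (X ^ ℓ - C (b : K))) (α := α)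
    (by rw [hαv]; exact AdjoinRoot.adjoinRoot_eq_top)
  obtain ⟨N1, hN1⟩ := exists_bound_ne_zero K hb
  obtain ⟨q, hq, hqq, hlt⟩ := not_mul_le K (AdjoinRoot (X ^ ℓ - C (b : K))) hℓ.two_le
    (N + N1 + M + ℓ + 1)
  have : Fact q.Prime := ⟨hq⟩
  have hle : ℓ * idealCount K q ≤ idealCount (AdjoinRoot (X ^ ℓ - C (b : K))) q := by
    refine mul_idealCount_le K (AdjoinRoot (X ^ ℓ - C (b : K))) hℓ hζ hαb hirr hM ?_ (by omega) ?_
    · intro hd
      have := Nat.le_of_dvd (Nat.pos_of_ne_zero hM0) hd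
      omega
    · intro φ
      have h0 : φ b ≠ 0 := hN1 q (by omega) φ
      exact ⟨h0, hall q (by omega) φ h0⟩
  omega

end Pool.Agent.Lib.MP_89bcae_ag.Re

end

section

open NumberField Polynomial

namespace Pool.Agent.Lib.MP_89bcae_ag.Re

private def N15Mem (K : Type*) [Field K] [NumberField K] {q : ℕ} (φ : 𝓞 K →+* ZMod q) (x : K) :
    Prop :=
  ∃ a s : 𝓞 K, φ s ≠ 0 ∧ x * algebraMap (𝓞 K) K s = algebraMap (𝓞 K) K a

private theorem n15_bound (K : Type*) [Field K] [NumberField K] (z : K) :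
    ∃ N : ℕ, ∀ (q : ℕ) [Fact q.Prime], N < q → ∀ φ : 𝓞 K →+* ZMod q,
      N15Mem K φ z ∧ (z ≠ 0 → N15Mem K φ z⁻¹) := by
  obtain ⟨a, n, hn, rfl⟩ := IsFractionRing.div_surjective (A := 𝓞 K) z
  have hn0 : n ≠ 0 := nonZeroDivisors.ne_zero hn
  have hn0K : algebraMap (𝓞 K) K n ≠ 0 := by
    rw [Ne, map_eq_zero_iff _ (IsFractionRing.injective (𝓞 K) K)]
    exact hn0
  obtain ⟨N₁, hN₁⟩ := exists_bound_ne_zero K hn0
  by_cases ha : a = 0
  · subst ha
    refine ⟨N₁, fun q _ hq φ => ⟨⟨0, n, hN₁ q hq φ, ?_⟩, fun h => absurd ?_ h⟩⟩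
    · simp
    · simp
  · obtain ⟨N₂, hN₂⟩ := exists_bound_ne_zero K ha
    have haK : algebraMap (𝓞 K) K a ≠ 0 := by
      rw [Ne, map_eq_zero_iff _ (IsFractionRing.injective (𝓞 K) K)]
      exact ha
    refine ⟨max N₁ N₂, fun q _ hq φ => ⟨⟨a, n, hN₁ q ((le_max_left _ _).trans_lt hq) φ, ?_⟩,
      fun _ => ⟨n, a, hN₂ q ((le_max_right _ _).trans_lt hq) φ, ?_⟩⟩⟩
    · exact div_mul_cancel₀ _ hn0K
    · rw [inv_div]
      exact div_mul_cancel₀ _ haK

/-- Extension of a homomorphism to a larger subring of `K` containing given elements. Proof: let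
`A = {x : K | ∃ a s : 𝓞 K, φ s ≠ 0 ∧ x * s = a}`, a subring (the localization of `𝓞 K` at the kernel of
`φ`), and `Φ x = φ a / φ s` (well defined: `a s' = a' s` in `𝓞 K` if `x s = a`, `x s' = a'`, and `ZMod q`
is a field). For `z ∈ T` write `z = a / n` with `a ∈ 𝓞 K`, `n` a nonzero integer
(`IsLocalization`, `exists_integer_multiple`); `N` is such that for `q > N` no `φ` kills `n` and, if
`z ≠ 0`, `a` (`exists_bound_ne_zero`, for both). -/
theorem exists_subring (K : Type*) [Field K] [NumberField K] (T : Finset K) :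
    ∃ N : ℕ, ∀ (q : ℕ) [Fact q.Prime], N < q → ∀ φ : 𝓞 K →+* ZMod q,
      ∃ (A : Subring K) (Φ : A →+* ZMod q),
        (∀ x : 𝓞 K, ∃ h : (x : K) ∈ A, Φ ⟨x, h⟩ = φ x) ∧
        ∀ z ∈ T, z ∈ A ∧ (z ≠ 0 → z⁻¹ ∈ A) := by
  choose N hN using n15_bound K
  refine ⟨T.sup N, fun q _ hq φ => ?_⟩
  have hinj := IsFractionRing.injective (𝓞 K) K
  let A : Subring K :=
    { carrier := {x | N15Mem K φ x}
      mul_mem' := by
        rintro x y ⟨a, s, hs, hx⟩ ⟨b, t, ht, hy⟩
        refine ⟨a * b, s * t, ?_, ?_⟩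
        · rw [map_mul]; exact mul_ne_zero hs ht
        · rw [map_mul, map_mul, ← hx, ← hy]; ring
      one_mem' := ⟨1, 1, by rw [map_one]; exact one_ne_zero, by simp⟩
      add_mem' := by
        rintro x y ⟨a, s, hs, hx⟩ ⟨b, t, ht, hy⟩
        refine ⟨a * t + b * s, s * t, ?_, ?_⟩
        · rw [map_mul]; exact mul_ne_zero hs ht
        · rw [map_mul, map_add, map_mul, map_mul, ← hx, ← hy]; ring
      zero_mem' := ⟨0, 1, by rw [map_one]; exact one_ne_zero, by simp⟩
      neg_mem' := by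
        rintro x ⟨a, s, hs, hx⟩
        refine ⟨-a, s, hs, ?_⟩
        rw [map_neg, ← hx]; ring }
  have hA : ∀ x : A, ∃ a s : 𝓞 K, φ s ≠ 0 ∧ (x : K) * algebraMap (𝓞 K) K s = algebraMap (𝓞 K) K a :=
    fun x => x.2
  choose a s hs hx using hA
  have val : ∀ (x : A) (b t : 𝓞 K), φ t ≠ 0 →
      (x : K) * algebraMap (𝓞 K) K t = algebraMap (𝓞 K) K b → φ (a x) / φ (s x) = φ b / φ t := by
    intro x b t ht h
    rw [div_eq_div_iff (hs x) ht, ← map_mul, ← map_mul]
    congr 1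
    apply hinj
    rw [map_mul, map_mul, ← hx x, ← h]
    ring
  refine ⟨A, { toFun := fun x => φ (a x) / φ (s x)
               map_one' := ?_
               map_mul' := ?_
               map_zero' := ?_
               map_add' := ?_ }, ?_, ?_⟩
  · rw [val 1 1 1 (by rw [map_one]; exact one_ne_zero) (by simp)]
    simp
  · intro x y
    show φ (a (x * y)) / φ (s (x * y)) = φ (a x) / φ (s x) * (φ (a y) / φ (s y))
    rw [val (x * y) (a x * a y) (s x * s y) (by rw [map_mul]; exact mul_ne_zero (hs x) (hs y))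
      (by rw [map_mul, map_mul, ← hx x, ← hx y, Subring.coe_mul]; ring)]
    rw [map_mul, map_mul, div_mul_div_comm]
  · rw [val 0 0 1 (by rw [map_one]; exact one_ne_zero) (by simp)]
    simp
  · intro x y
    show φ (a (x + y)) / φ (s (x + y)) = φ (a x) / φ (s x) + (φ (a y) / φ (s y))
    rw [val (x + y) (a x * s y + s x * a y) (s x * s y)
      (by rw [map_mul]; exact mul_ne_zero (hs x) (hs y))
      (by rw [map_mul, map_add, map_mul, map_mul, ← hx x, ← hx y, Subring.coe_add]; ring)]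
    rw [map_mul, map_add, map_mul, map_mul, div_add_div _ _ (hs x) (hs y)]
  · intro x
    refine ⟨⟨x, 1, by rw [map_one]; exact one_ne_zero, by simp⟩, ?_⟩
    show φ (a _) / φ (s _) = φ x
    rw [val _ x 1 (by rw [map_one]; exact one_ne_zero) (by simp)]
    simp
  · intro z hz
    exact hN z q ((Finset.le_sup hz).trans_lt hq) φ

end Pool.Agent.Lib.MP_89bcae_ag.Re

end

section

open NumberField Polynomial

namespace Pool.Agent.Lib.MP_89bcae_ag.Re

/-- A number field over which the `ℓ`-th powers of the elements of `T` are seen through the symbol of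
`U`. Proof: choose for each nonzero `z ∈ T` an element `x_z ∈ F` with `x_z ^ ℓ = z`; let `x₀` be that of
`z₀` and for `z ∈ T` let `j_z` be the natural number below `ℓ` with
`kap z = j_z * kap z₀` (`ZMod ℓ` is a field); put `w_z = x_z / x₀ ^ j_z`. By `Sup.kap_spec`
`U x_z = ζ ^ kap(z) x_z`, `U x₀ = ζ ^ kap(z₀) x₀`, so `U w_z = w_z`. Let `E` be the field generated by
the `w_z` over `K`: it is finite over `K` (finitely many algebraic elements) and all its elements are
fixed by `U` (`IntermediateField.adjoin_induction`, or: it is contained in the fixed field). If `y ∈ E`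
and `y ^ ℓ = z₀`, then `U y = y`, but `kap_spec` says `U y = ζ ^ kap(z₀) y` with `kap z₀ ≠ 0`, `y ≠ 0`. -/
theorem exists_field {ℓ : ℕ} (hℓ : ℓ.Prime) (K F : Type) [Field K] [NumberField K] [Field F]
    [Algebra K F] [IsAlgClosure K F] {ζ : K} (hζ : IsPrimitiveRoot ζ ℓ) (U : F ≃ₐ[K] F)
    (T : Finset K) {z₀ : K} (hz₀ : z₀ ≠ 0)
    (hk₀ : Sup.kap ℓ (algebraMap K F ζ) U (algebraMap K F z₀) ≠ 0) :
    ∃ E : IntermediateField K F, FiniteDimensional K E ∧
      (∀ z ∈ T, z ≠ 0 → ∃ (w : E) (j : ℕ), w ≠ 0 ∧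
        w ^ ℓ * (algebraMap K E z₀) ^ j = algebraMap K E z ∧
        Sup.kap ℓ (algebraMap K F ζ) U (algebraMap K F z) =
          j * Sup.kap ℓ (algebraMap K F ζ) U (algebraMap K F z₀)) ∧
      ∀ y : E, y ^ ℓ ≠ algebraMap K E z₀ := by
  classical
  have : Fact ℓ.Prime := ⟨hℓ⟩
  have : NeZero ℓ := ⟨hℓ.ne_zero⟩
  have : IsAlgClosed F := IsAlgClosure.isAlgClosed K
  have halg : Algebra.IsAlgebraic K F := IsAlgClosure.isAlgebraic
  have hζF : IsPrimitiveRoot (algebraMap K F ζ) ℓ :=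
    hζ.map_of_injective (algebraMap K F).injective
  have hUζ : U (algebraMap K F ζ) = algebraMap K F ζ := U.commutes ζ
  have hne : ∀ z : K, z ≠ 0 → algebraMap K F z ≠ 0 := fun z hz =>
    (map_ne_zero_iff _ (algebraMap K F).injective).mpr hz
  have hspec : ∀ (z : K) (x : F), z ≠ 0 → x ^ ℓ = algebraMap K F z →
      U x = algebraMap K F ζ ^ (Sup.kap ℓ (algebraMap K F ζ) U (algebraMap K F z)).val * x :=
    fun z x hz hx => Sup.kap_spec (U : F ≃+* F) hℓ hζF hUζ (hne z hz) (U.commutes z) hx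
  choose x hx using fun z : K => IsAlgClosed.exists_pow_nat_eq (algebraMap K F z) hℓ.pos
  have hx0 : ∀ z : K, z ≠ 0 → x z ≠ 0 := by
    intro z hz h
    apply hne z hz
    rw [← hx z, h, zero_pow hℓ.ne_zero]
  set κ : K → ZMod ℓ := fun z => Sup.kap ℓ (algebraMap K F ζ) U (algebraMap K F z) with hκ
  set j : K → ℕ := fun z => (κ z / κ z₀).val with hj
  have hjκ : ∀ z : K, κ z = (j z : ZMod ℓ) * κ z₀ := by
    intro z
    have h1 : ((j z : ℕ) : ZMod ℓ) = κ z / κ z₀ := ZMod.natCast_zmod_val _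
    rw [h1]
    exact (div_mul_cancel₀ _ hk₀).symm
  set w : K → F := fun z => x z / x z₀ ^ j z with hw
  have hw0 : ∀ z : K, z ≠ 0 → w z ≠ 0 := fun z hz =>
    div_ne_zero (hx0 z hz) (pow_ne_zero _ (hx0 z₀ hz₀))
  have hwℓ : ∀ z : K, w z ^ ℓ * (algebraMap K F z₀) ^ j z = algebraMap K F z := by
    intro z
    have h1 : w z ^ ℓ = algebraMap K F z / (algebraMap K F z₀) ^ j z := by
      rw [hw]
      simp only
      rw [div_pow, hx z, ← pow_mul, mul_comm (j z) ℓ, pow_mul, hx z₀]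
    rw [h1]
    exact div_mul_cancel₀ _ (pow_ne_zero _ (hne z₀ hz₀))
  have hpow : ∀ z : K, algebraMap K F ζ ^ (κ z).val = algebraMap K F ζ ^ ((κ z₀).val * j z) := by
    intro z
    have h1 : (κ z).val ≡ (κ z₀).val * j z [MOD ℓ] := by
      rw [← ZMod.natCast_eq_natCast_iff]
      rw [Nat.cast_mul, ZMod.natCast_zmod_val, ZMod.natCast_zmod_val, hjκ z, mul_comm]
    have h2 : (κ z).val % orderOf (algebraMap K F ζ) =
        ((κ z₀).val * j z) % orderOf (algebraMap K F ζ) := by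
      rw [← hζF.eq_orderOf]
      exact h1
    rw [← pow_mod_orderOf, h2, pow_mod_orderOf]
  have hUw : ∀ z : K, z ≠ 0 → U (w z) = w z := by
    intro z hz
    have h1 : U (x z) = algebraMap K F ζ ^ (κ z).val * x z := hspec z (x z) hz (hx z)
    have h2 : U (x z₀) = algebraMap K F ζ ^ (κ z₀).val * x z₀ := hspec z₀ (x z₀) hz₀ (hx z₀)
    have h3 : algebraMap K F ζ ^ ((κ z₀).val * j z) ≠ 0 :=
      pow_ne_zero _ (hζF.ne_zero hℓ.ne_zero)
    have h4 : U (w z) = U (x z) / U (x z₀) ^ j z := by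
      rw [hw]
      simp only
      rw [map_div₀, map_pow]
    rw [h4, h1, h2, hpow z, mul_pow, ← pow_mul]
    exact mul_div_mul_left _ _ h3
  set S : Set F := w '' {z : K | z ∈ T ∧ z ≠ 0} with hS
  have hSfin : S.Finite := by
    apply Set.Finite.image
    exact T.finite_toSet.subset fun z hz => hz.1
  have : Finite S := hSfin
  have hmem : ∀ z ∈ T, z ≠ 0 → w z ∈ IntermediateField.adjoin K S := fun z hz hz0 =>
    IntermediateField.subset_adjoin K S ⟨z, ⟨hz, hz0⟩, rfl⟩
  have hfix : ∀ y ∈ IntermediateField.adjoin K S, U y = y := by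
    intro y hy
    induction hy using IntermediateField.adjoin_induction with
    | mem y hy =>
      obtain ⟨z, hz, rfl⟩ := hy
      exact hUw z hz.2
    | algebraMap a => exact U.commutes a
    | add a b _ _ ha hb => rw [map_add, ha, hb]
    | inv a _ ha => rw [map_inv₀, ha]
    | mul a b _ _ ha hb => rw [map_mul, ha, hb]
  refine ⟨IntermediateField.adjoin K S,
    IntermediateField.finiteDimensional_adjoin fun y _ => (halg.isAlgebraic y).isIntegral, ?_, ?_⟩
  · intro z hz hz0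
    refine ⟨⟨w z, hmem z hz hz0⟩, j z, ?_, ?_, hjκ z⟩
    · intro h
      exact hw0 z hz0 (congrArg Subtype.val h)
    · apply Subtype.ext
      exact hwℓ z
  · intro y hy
    have h1 : (y : F) ^ ℓ = algebraMap K F z₀ := congrArg Subtype.val hy
    have h2 := hspec z₀ y hz₀ h1
    rw [hfix y y.2] at h2
    have hy0 : (y : F) ≠ 0 := by
      intro h
      apply hne z₀ hz₀
      rw [← h1, h, zero_pow hℓ.ne_zero]
    have h3 : algebraMap K F ζ ^ (κ z₀).val = 1 := by
      have h4 : (1 : F) * y = algebraMap K F ζ ^ (κ z₀).val * y := by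
        rw [one_mul]
        exact h2
      exact (mul_right_cancel₀ hy0 h4).symm
    have h5 : ℓ ∣ (κ z₀).val := (hζF.pow_eq_one_iff_dvd _).mp h3
    have h6 : (κ z₀).val = 0 := Nat.eq_zero_of_dvd_of_lt h5 (ZMod.val_lt _)
    exact hk₀ ((ZMod.val_eq_zero _).mp h6)

end Pool.Agent.Lib.MP_89bcae_ag.Re

end

section

open Polynomial Finset

open scoped Classical

namespace Pool.Agent.Lib.MP_89bcae_ag.Re

open Sup

/-- Combination of the matchings and of the all-ones functions. Here `K` is a subfield containing `S`.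
Proof: `lam z = ∑ i ∈ range n, ∑ j ∈ (range n).filter (i < ·), (x i j * o i j z + y i j * o₁ i j z)`.
On the difference of an element over `a i` and one over `a j`, `i < j`, only the term `(i, j)` is
different from zero (`MOrd.out`, `AOne.out`, injectivity of `a` on `[0, n)`); on differences in the same
fibre all terms are zero; `lam (-1) = 0` because `2 * o (-1) = o 1 = 0` in `ℤ` (see
`Sup.te06_ord_neg`), and `β - β' = (-1) * (β' - β)`. -/
theorem exists_lam_sum {F : Type*} [Field F] {ℓ n : ℕ} (K : Subfield F) (S : Finset F)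
    (hSK : ∀ b ∈ S, b ∈ K) (p : F → F) (a : ℕ → F)
    (ha : ∀ i < n, ∀ j < n, a i = a j → i = j) (M : ℕ → ℕ → F → F) (o o₁ : ℕ → ℕ → F → ℤ)
    (ho : ∀ i j, i < j → j < n → MOrd K S p (a i) (a j) (M i j) (o i j))
    (ho₁ : ∀ i j, i < j → j < n → AOne K S p (a i) (a j) (o₁ i j)) (x y : ℕ → ℕ → ZMod ℓ) :
    ∃ lam : F → ZMod ℓ,
      (∀ z ∈ K, ∀ w ∈ K, z ≠ 0 → w ≠ 0 → lam (z * w) = lam z + lam w) ∧ lam (-1) = 0 ∧
      (∀ β ∈ S, ∀ β' ∈ S, β ≠ β' → p β = p β' → lam (β - β') = 0) ∧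
      (∀ β ∈ S, ∀ β' ∈ S, β ≠ β' → lam (β - β') = lam (β' - β)) ∧
      (∀ i j, i < j → j < n → ∀ β ∈ S, p β = a i → ∀ β' ∈ S, p β' = a j →
        lam (β - β') = x i j * (if β' = M i j β then 1 else 0) + y i j) := by
  let lam : F → ZMod ℓ := fun z => ∑ i ∈ range n, ∑ j ∈ (range n).filter (fun j => i < j),
    (x i j * (o i j z : ZMod ℓ) + y i j * (o₁ i j z : ZMod ℓ))
  have hlam : ∀ z, lam z = ∑ i ∈ range n, ∑ j ∈ (range n).filter (fun j => i < j),
    (x i j * (o i j z : ZMod ℓ) + y i j * (o₁ i j z : ZMod ℓ)) := fun z => rfl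
  have hzero : ∀ z, (∀ i j, i < j → j < n → o i j z = 0) → (∀ i j, i < j → j < n → o₁ i j z = 0) →
      lam z = 0 := by
    intro z h1 h2
    rw [hlam]
    refine Finset.sum_eq_zero fun i _ => Finset.sum_eq_zero fun j hj => ?_
    have hj' := Finset.mem_filter.1 hj
    have hjn := Finset.mem_range.1 hj'.1
    rw [h1 i j hj'.2 hjn, h2 i j hj'.2 hjn]
    simp
  have hmul : ∀ z ∈ K, ∀ w ∈ K, z ≠ 0 → w ≠ 0 → lam (z * w) = lam z + lam w := by
    intro z hz w hw hz0 hw0
    rw [hlam, hlam, hlam, ← Finset.sum_add_distrib]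
    refine Finset.sum_congr rfl fun i _ => ?_
    rw [← Finset.sum_add_distrib]
    refine Finset.sum_congr rfl fun j hj => ?_
    have hj' := Finset.mem_filter.1 hj
    have hjn := Finset.mem_range.1 hj'.1
    rw [(ho i j hj'.2 hjn).mul z hz w hw hz0 hw0, (ho₁ i j hj'.2 hjn).mul z hz w hw hz0 hw0]
    push_cast
    ring
  have hneg1 : lam (-1) = 0 := by
    have gen : ∀ f : F → ℤ, (∀ a ∈ K, ∀ b ∈ K, a ≠ 0 → b ≠ 0 → f (a * b) = f a + f b) →
        f (-1) = 0 := by
      intro f hf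
      have h1 : f (1 * 1) = f 1 + f 1 := hf 1 K.one_mem 1 K.one_mem one_ne_zero one_ne_zero
      have h2 : f ((-1) * (-1)) = f (-1) + f (-1) :=
        hf (-1) (K.neg_mem K.one_mem) (-1) (K.neg_mem K.one_mem) (neg_ne_zero.2 one_ne_zero)
          (neg_ne_zero.2 one_ne_zero)
      rw [mul_one] at h1
      rw [neg_one_mul, neg_neg] at h2
      omega
    exact hzero _ (fun i j h1 h2 => gen _ (ho i j h1 h2).mul) (fun i j h1 h2 => gen _ (ho₁ i j h1 h2).mul)
  have hsame : ∀ β ∈ S, ∀ β' ∈ S, β ≠ β' → p β = p β' → lam (β - β') = 0 := by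
    intro β hβ β' hβ' hne hpp
    exact hzero _ (fun i j h1 h2 => (ho i j h1 h2).same β hβ β' hβ' hne hpp)
      (fun i j h1 h2 => (ho₁ i j h1 h2).same β hβ β' hβ' hne hpp)
  refine ⟨lam, hmul, hneg1, hsame, ?_, ?_⟩
  · intro β hβ β' hβ' hne
    have e : β - β' = (-1) * (β' - β) := by ring
    rw [e, hmul (-1) (K.neg_mem K.one_mem) _ (K.sub_mem (hSK _ hβ') (hSK _ hβ))
      (neg_ne_zero.2 one_ne_zero) (sub_ne_zero.2 hne.symm), hneg1, zero_add]
  · intro i j hij hj β hβ hβa β' hβ' hβa'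
    have hi : i < n := hij.trans hj
    have hpne : p β ≠ p β' := by
      intro h
      rw [hβa, hβa'] at h
      exact hij.ne (ha i hi j hj h)
    -- other pairs
    have hoth : ∀ i' j', i' < j' → j' < n → ¬ (i' = i ∧ j' = j) →
        ¬ (p β = a i' ∧ p β' = a j') ∧ ¬ (p β = a j' ∧ p β' = a i') := by
      intro i' j' h1 h2 h3
      have hi' : i' < n := h1.trans h2
      constructor
      · rintro ⟨e1, e2⟩
        rw [hβa] at e1
        rw [hβa'] at e2
        exact h3 ⟨(ha i hi i' hi' e1).symm, (ha j hj j' h2 e2).symm⟩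
      · rintro ⟨e1, e2⟩
        rw [hβa] at e1
        rw [hβa'] at e2
        have := ha i hi j' h2 e1
        have := ha j hj i' hi' e2
        omega
    rw [hlam, Finset.sum_eq_single i, Finset.sum_eq_single j]
    · have e1 : o i j (β - β') = if β' = M i j β then 1 else 0 :=
        (ho i j hij hj).left β hβ hβa β' hβ' hβa'
      have e2 : o₁ i j (β - β') = 1 := (ho₁ i j hij hj).left β hβ hβa β' hβ' hβa'
      rw [e1, e2]
      split_ifs <;> simp
    · intro j' hj' hne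
      have h4 := Finset.mem_filter.1 hj'
      have h5 := Finset.mem_range.1 h4.1
      obtain ⟨h6, h7⟩ := hoth i j' h4.2 h5 (fun h => hne h.2)
      rw [(ho i j' h4.2 h5).out β hβ β' hβ' hpne h6 h7,
        (ho₁ i j' h4.2 h5).out β hβ β' hβ' hpne h6 h7]
      simp
    · intro h
      exact absurd (Finset.mem_filter.2 ⟨Finset.mem_range.2 hj, hij⟩) h
    · intro i' _ hne
      refine Finset.sum_eq_zero fun j' hj' => ?_
      have h4 := Finset.mem_filter.1 hj'
      have h5 := Finset.mem_range.1 h4.1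
      obtain ⟨h6, h7⟩ := hoth i' j' h4.2 h5 (fun h => hne h.1)
      rw [(ho i' j' h4.2 h5).out β hβ β' hβ' hpne h6 h7,
        (ho₁ i' j' h4.2 h5).out β hβ β' hβ' hpne h6 h7]
      simp
    · intro h
      exact absurd (Finset.mem_range.2 hi) h

end Pool.Agent.Lib.MP_89bcae_ag.Re

end

section

open Polynomial Finset

open scoped Classical

namespace Pool.Agent.Lib.MP_89bcae_ag.Re

open Sup

universe u

/-- the orbit of the matchings -/
private noncomputable def p07_orb {F : Type*} (M : ℕ → F → F) (s : F) : ℕ → F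
  | 0 => s
  | i + 1 => M i (p07_orb M s i)

private theorem p07_orb_mem {F : Type*} [Field F] {ℓ : ℕ} {n m : ℕ} {S : Finset F} {p : F → F}
    {a : ℕ → F} {M : ℕ → F → F} {y : ℕ → ℕ → ZMod ℓ} {kp : F → ZMod ℓ}
    (h : PathSym n m S p a M y kp) {s : F} (hs : s ∈ S) (hs0 : p s = a 0) :
    ∀ i < n, p07_orb M s i ∈ S ∧ p (p07_orb M s i) = a i := by
  intro i
  induction i with
  | zero => intro _; exact ⟨hs, hs0⟩
  | succ i ih =>
    intro hi
    obtain ⟨h1, h2⟩ := ih (by omega)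
    exact h.mmem i hi _ h1 h2

private theorem p07_orb_surj {F : Type*} [Field F] {ℓ : ℕ} {n m : ℕ} {S : Finset F} {p : F → F}
    {a : ℕ → F} {M : ℕ → F → F} {y : ℕ → ℕ → ZMod ℓ} {kp : F → ZMod ℓ}
    (h : PathSym n m S p a M y kp) :
    ∀ i < n, ∀ β ∈ S, p β = a i → ∃ s ∈ S, p s = a 0 ∧ p07_orb M s i = β := by
  intro i
  induction i with
  | zero => intro _ β hβ hβ0; exact ⟨β, hβ, hβ0, rfl⟩
  | succ i ih =>
    intro hi β hβ hβi
    obtain ⟨β₁, h1, h2, h3⟩ := h.msurj i hi β hβ hβi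
    obtain ⟨s, hs, hs0, hs1⟩ := ih (by omega) β₁ h1 h2
    refine ⟨s, hs, hs0, ?_⟩
    show M i (p07_orb M s i) = β
    rw [hs1, h3]

/-- the constants vanish -/
private theorem p07_cst {F : Type*} [Field F] {ℓ : ℕ} [Fact ℓ.Prime] {n m : ℕ} {S : Finset F} {p : F → F}
    {a : ℕ → F} {M : ℕ → F → F} {y : ℕ → ℕ → ZMod ℓ} {kp : F → ZMod ℓ}
    (h : PathSym n m S p a M y kp) (hm : (m : ZMod ℓ) ≠ 0) {D : ℕ → ZMod ℓ}
    (hD : ∀ i < n, ∑ j ∈ (range n).erase i,
      ((if j = i + 1 ∨ i = j + 1 then 1 else 0) + (m : ZMod ℓ) * y i j) = D i)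
    (e : F → ZMod ℓ) (N : ZMod ℓ) (cst : F → ZMod ℓ)
    (he : ∀ i < n, ∑ β ∈ S.filter (fun β => p β = a i), e β = 0)
    (heq : ∀ β ∈ S, ∑ β' ∈ S.filter (fun β' => p β' ≠ p β), kp (β - β') * (e β - e β') + N * e β =
      cst (p β)) {i : ℕ} (hi : i < n) : cst (a i) = 0 := by
  have hpr : ∀ β : F, ∃ β₀ : F, β ∈ S → p β = a i → i ≠ 0 → β₀ ∈ S ∧ p β₀ = a (i - 1) ∧ M (i - 1) β₀ = β := by
    intro β
    by_cases hc : β ∈ S ∧ p β = a i ∧ i ≠ 0
    · obtain ⟨h1, h2, h3⟩ := hc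
      have hi1 : i - 1 + 1 = i := by omega
      obtain ⟨β₀, k1, k2, k3⟩ := h.msurj (i - 1) (by omega) β h1 (by rw [hi1]; exact h2)
      exact ⟨β₀, fun _ _ _ => ⟨k1, k2, k3⟩⟩
    · exact ⟨β, fun h1 h2 h3 => absurd ⟨h1, h2, h3⟩ hc⟩
  choose pr hpr using hpr
  have h1 : ∀ β ∈ S.filter (fun β => p β = a i), cst (a i) = D i * e β - (if i = 0 then 0 else e (pr β)) -
      (if i + 1 = n then 0 else e (M i β)) + N * e β := by
    intro β hβ
    obtain ⟨hβS, hβi⟩ := Finset.mem_filter.1 hβ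
    rw [← h.sum_eq hD e he hi hβS hβi (β₀ := pr β) (hpr β hβS hβi), heq β hβS, hβi]
  have h2 : (m : ZMod ℓ) * cst (a i) = 0 := by
    have h3 : ∑ _β ∈ S.filter (fun β => p β = a i), cst (a i) = (m : ZMod ℓ) * cst (a i) := by
      rw [Finset.sum_const, h.card i hi, nsmul_eq_mul]
    rw [← h3, Finset.sum_congr rfl h1, Finset.sum_add_distrib, Finset.sum_sub_distrib, Finset.sum_sub_distrib,
      ← Finset.mul_sum, ← Finset.mul_sum, he i hi]
    have h4 : ∑ β ∈ S.filter (fun β => p β = a i), (if i = 0 then 0 else e (pr β)) = 0 := by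
      by_cases h0 : i = 0
      · exact Finset.sum_eq_zero fun β _ => if_pos h0
      · rw [Finset.sum_congr rfl fun β _ => if_neg h0, ← he (i - 1) (by omega)]
        refine Finset.sum_nbij' pr (M (i - 1)) ?_ ?_ ?_ ?_ ?_
        · intro β hβ
          obtain ⟨k1, k2⟩ := Finset.mem_filter.1 hβ
          exact Finset.mem_filter.2 ⟨(hpr β k1 k2 h0).1, (hpr β k1 k2 h0).2.1⟩
        · intro β hβ
          obtain ⟨k1, k2⟩ := Finset.mem_filter.1 hβ
          have := h.mmem (i - 1) (by omega) β k1 k2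
          rw [Nat.sub_add_cancel (Nat.one_le_iff_ne_zero.2 h0)] at this
          exact Finset.mem_filter.2 this
        · intro β hβ
          obtain ⟨k1, k2⟩ := Finset.mem_filter.1 hβ
          exact (hpr β k1 k2 h0).2.2
        · intro β hβ
          obtain ⟨k1, k2⟩ := Finset.mem_filter.1 hβ
          have k3 := h.mmem (i - 1) (by omega) β k1 k2
          rw [Nat.sub_add_cancel (Nat.one_le_iff_ne_zero.2 h0)] at k3
          obtain ⟨q1, q2, q3⟩ := hpr _ k3.1 k3.2 h0
          exact h.minj (i - 1) (by omega) _ q1 _ k1 q2 k2 q3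
        · intro β _; rfl
    have h5 : ∑ β ∈ S.filter (fun β => p β = a i), (if i + 1 = n then 0 else e (M i β)) = 0 := by
      by_cases h0 : i + 1 = n
      · exact Finset.sum_eq_zero fun β _ => if_pos h0
      · have hi1 : i + 1 < n := by omega
        rw [Finset.sum_congr rfl fun β _ => if_neg h0, ← he (i + 1) hi1]
        refine Finset.sum_nbij (M i) ?_ ?_ ?_ ?_
        · intro β hβ
          obtain ⟨k1, k2⟩ := Finset.mem_filter.1 hβ
          exact Finset.mem_filter.2 (h.mmem i hi1 β k1 k2)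
        · intro β hβ β' hβ' hM
          obtain ⟨k1, k2⟩ := Finset.mem_filter.1 (Finset.mem_coe.1 hβ)
          obtain ⟨k3, k4⟩ := Finset.mem_filter.1 (Finset.mem_coe.1 hβ')
          exact h.minj i hi1 β k1 β' k3 k2 k4 hM
        · intro β hβ
          obtain ⟨k1, k2⟩ := Finset.mem_filter.1 (Finset.mem_coe.1 hβ)
          obtain ⟨β₁, q1, q2, q3⟩ := h.msurj i hi1 β k1 k2
          exact ⟨β₁, Finset.mem_coe.2 (Finset.mem_filter.2 ⟨q1, q2⟩), q3⟩
        · intro β _; rfl
    rw [h4, h5]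
    ring
  exact (mul_eq_zero.1 h2).resolve_left hm

private theorem p07_core {F : Type*} [Field F] {ℓ : ℕ} [Fact ℓ.Prime] {n m : ℕ} {S : Finset F} {p : F → F}
    {a : ℕ → F} {M : ℕ → F → F} {y : ℕ → ℕ → ZMod ℓ} {kp : F → ZMod ℓ}
    (h : PathSym n m S p a M y kp) (hm : (m : ZMod ℓ) ≠ 0) {D : ℕ → ZMod ℓ}
    (hD : ∀ i < n, ∑ j ∈ (range n).erase i,
      ((if j = i + 1 ∨ i = j + 1 then 1 else 0) + (m : ZMod ℓ) * y i j) = D i)
    (hP : PathInj n D)
    (e : F → ZMod ℓ) (N : ZMod ℓ) (cst : F → ZMod ℓ)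
    (he : ∀ i < n, ∑ β ∈ S.filter (fun β => p β = a i), e β = 0)
    (heq : ∀ β ∈ S, ∑ β' ∈ S.filter (fun β' => p β' ≠ p β), kp (β - β') * (e β - e β') + N * e β =
      cst (p β)) : ∀ β ∈ S, e β = 0 := by
  intro β hβ
  obtain ⟨i, hi, hβi⟩ := h.fib β hβ
  obtain ⟨s, hs, hs0, rfl⟩ := p07_orb_surj h i hi β hβ hβi
  have key : ∀ j < n, (D j - (-N)) * e (p07_orb M s j) = (if j = 0 then 0 else e (p07_orb M s (j - 1))) +
      (if j + 1 = n then 0 else e (p07_orb M s (j + 1))) := by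
    intro j hj
    obtain ⟨k1, k2⟩ := p07_orb_mem h hs hs0 j hj
    have h1 := h.sum_eq hD e he hj k1 k2 (β₀ := p07_orb M s (j - 1)) (fun hj0 => by
      obtain ⟨q1, q2⟩ := p07_orb_mem h hs hs0 (j - 1) (by omega)
      refine ⟨q1, q2, ?_⟩
      have hj1 : j = j - 1 + 1 := by omega
      conv_rhs => rw [hj1]
      rfl)
    have h2 := heq _ k1
    rw [h1, k2, p07_cst h hm hD e N cst he heq hj] at h2
    have h3 : M j (p07_orb M s j) = p07_orb M s (j + 1) := rfl
    rw [h3] at h2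
    linear_combination h2
  exact hP (-N) (fun j => e (p07_orb M s j)) key i hi

/-- Proof: let `e`, `N`, `cst` be as in `SepU` with the equation on all fibres (`B = univ`); the sum
`sumS` over the same fibre is zero (`same`; the term `β' = β` is zero). So for `β` over `a i`, with the
notations of `PathSym.sum_eq`, `D i * e β - e β₀ - e (M i β) + N * e β = cst (a i)` (boundary terms
omitted). Sum over the fibre of `a i` (the maps `β ↦ β₀`, `β ↦ M i β` are bijections to the neighbouring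
fibres, all sums of `e` over fibres are zero): `m * cst (a i) = 0`, so `cst (a i) = 0`. Now let `β` over
`a 0` be given, put `b 0 = β`, `b (i+1) = M i (b i)`, `v i = e (b i)` for `i < n` and `v i = 0` for
`i ≥ n`: `(D i - (-N)) * v i = v (i-1) + v (i+1)` (with boundary terms), so `v i = 0` for `i < n` by
`PathInj` with `z = -N`. Every element over `a i` is `b i` for some `β` over `a 0`
(induction with `msurj`). -/
theorem PathSym.sepU {k F : Type u} [Field k] [Field F] [Algebra k F] {ℓ : ℕ} [Fact ℓ.Prime]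
    {g E : k[X]} {n m : ℕ} {a : ℕ → F} {M : ℕ → F → F} {y : ℕ → ℕ → ZMod ℓ} {kp : F → ZMod ℓ}
    (h : PathSym n m (RR F g E) (fun β => aeval β g) a M y kp) (hn : 0 < n)
    (hm : (m : ZMod ℓ) ≠ 0) {D : ℕ → ZMod ℓ}
    (hD : ∀ i < n, ∑ j ∈ (range n).erase i,
      ((if j = i + 1 ∨ i = j + 1 then 1 else 0) + (m : ZMod ℓ) * y i j) = D i)
    (hP : PathInj n D) (μ : ZMod ℓ) : SepU g E kp μ Set.univ := by
  intro e N cst hsum heq β hβ _
  refine p07_core h hm hD hP e N cst ?_ ?_ β hβ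
  · intro i _
    rcases ((RR F g E).filter (fun β => aeval β g = a i)).eq_empty_or_nonempty with h0 | ⟨γ, hγ⟩
    · rw [h0, Finset.sum_empty]
    · obtain ⟨h1, h2⟩ := Finset.mem_filter.1 hγ
      have h3 := hsum γ h1
      rw [h2] at h3
      exact h3
  · intro γ hγ
    have h1 := heq γ hγ (Set.mem_univ _)
    have h2 : sumS g E kp e γ = 0 := by
      unfold sumS
      refine Finset.sum_eq_zero fun β' hβ' => ?_
      obtain ⟨k1, k2⟩ := Finset.mem_filter.1 hβ'
      by_cases hc : γ = β'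
      · rw [hc, sub_self (e β'), mul_zero]
      · rw [h.same γ hγ β' k1 hc k2.symm, zero_mul]
    rw [h2, mul_zero, add_zero] at h1
    exact h1

end Pool.Agent.Lib.MP_89bcae_ag.Re

end

section

open Polynomial Finset

open scoped Classical

namespace Pool.Agent.Lib.MP_89bcae_ag.Re

open Sup

/-- If `E ∘ g` is separable, so is `E`. -/
private lemma p08_separable {κ : Type*} [Field κ] {g D : κ[X]} (hg : g.natDegree ≠ 0)
    (h : (D.comp g).Separable) : D.Separable := by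
  rw [Polynomial.Separable, isCoprime_iff_aeval_ne_zero_of_isAlgClosed (k := κ)
    (AlgebraicClosure κ)]
  intro a
  by_contra hcon
  push Not at hcon
  obtain ⟨h1, h2⟩ := hcon
  have hdeg : (g.map (algebraMap κ (AlgebraicClosure κ)) - C a).degree ≠ 0 := by
    intro h3
    have h4 := natDegree_eq_zero_iff_degree_le_zero.mpr h3.le
    rw [natDegree_sub_C, natDegree_map] at h4
    exact hg h4
  obtain ⟨b, hb⟩ := IsAlgClosed.exists_root _ hdeg
  have hb2 : aeval b g = a := by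
    rw [IsRoot.def, eval_sub, eval_C, sub_eq_zero, eval_map_algebraMap] at hb
    exact hb
  obtain ⟨u, v, huv⟩ := h
  have h3 := congrArg (aeval b) huv
  rw [derivative_comp, map_add, map_mul, map_mul, map_mul, aeval_comp, aeval_comp, hb2, h1, h2] at h3
  simp at h3

/-- The fibres over the roots of `E` have `deg g` elements. -/
private lemma p08_card {k F : Type} [Field k] [Field F] [Algebra k F] [IsAlgClosed F] {ℓ : ℕ}
    {g E : k[X]} {ζ : k} (H : GlobHyp ℓ g E ζ) {a : F} (ha : aeval a E = 0) :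
    ((RR F g E).filter (fun β => aeval β g = a)).card = g.natDegree := by
  have h1 : g.map (algebraMap k F) - C a ∣ (E.comp g).map (algebraMap k F) := by
    rw [Polynomial.map_comp]
    have h2 : X - C a ∣ E.map (algebraMap k F) := by
      rw [dvd_iff_isRoot, IsRoot.def, eval_map_algebraMap, ha]
    obtain ⟨q, hq⟩ := h2
    refine ⟨q.comp (g.map (algebraMap k F)), ?_⟩
    rw [hq, mul_comp, sub_comp, X_comp, C_comp]
  have hsep : (g.map (algebraMap k F) - C a).Separable :=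
    Separable.of_dvd (H.sep.map (f := algebraMap k F)) h1
  have h0 : g.map (algebraMap k F) - C a ≠ 0 := hsep.ne_zero
  have h3 : (RR F g E).filter (fun β => aeval β g = a) =
      (g.map (algebraMap k F) - C a).roots.toFinset := by
    ext β
    rw [Finset.mem_filter, mem_RR H, Multiset.mem_toFinset, mem_roots h0, IsRoot.def, eval_sub,
      eval_C, eval_map_algebraMap, sub_eq_zero]
    constructor
    · exact fun h => h.2
    · intro h
      exact ⟨by rw [h, ha], h⟩
  rw [h3, Multiset.toFinset_card_of_nodup (nodup_roots hsep),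
    IsAlgClosed.card_roots_eq_natDegree, natDegree_sub_C, natDegree_map]

/-- The roots of `E`, as a sequence. -/
private lemma p08_roots {k F : Type} [Field k] [Field F] [Algebra k F] [IsAlgClosed F]
    {E : k[X]} (hE : E.Separable) :
    ∃ a : ℕ → F, (∀ i < E.natDegree, ∀ j < E.natDegree, a i = a j → i = j) ∧
      (∀ i < E.natDegree, aeval (a i) E = 0) ∧
      ∀ α : F, aeval α E = 0 → ∃ i < E.natDegree, α = a i := by
  have hE0 : E.map (algebraMap k F) ≠ 0 := hE.map.ne_zero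
  have hmem : ∀ x, x ∈ (E.map (algebraMap k F)).roots.toFinset ↔ aeval x E = 0 := by
    intro x
    rw [Multiset.mem_toFinset, mem_roots hE0, IsRoot.def, eval_map_algebraMap]
  have hcard : (E.map (algebraMap k F)).roots.toFinset.card = E.natDegree := by
    rw [Multiset.toFinset_card_of_nodup (nodup_roots hE.map),
      IsAlgClosed.card_roots_eq_natDegree, natDegree_map]
  let e := Finset.equivFinOfCardEq hcard
  refine ⟨fun i => if h : i < E.natDegree then ((e.symm ⟨i, h⟩ : _) : F) else 0, ?_, ?_, ?_⟩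
  · intro i hi j hj h
    simp only [hi, hj, dif_pos] at h
    have h1 := e.symm.injective (Subtype.ext h)
    exact congrArg Fin.val h1
  · intro i hi
    simp only [hi, dif_pos]
    exact (hmem _).1 (e.symm ⟨i, hi⟩).2
  · intro α hα
    refine ⟨(e ⟨α, (hmem α).2 hα⟩).val, (e ⟨α, (hmem α).2 hα⟩).isLt, ?_⟩
    simp

/-- **One automorphism which is good on all fibres.** Proof: like that of `Sup.exists_cRall` (file
`Tow/M11`), with all roots `a 0, .., a (n-1)` of `E` in `F`, `n = E.natDegree` (`Finset.equivFin` or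
`Finset.equivFinOfCardEq` of the set of roots, extended by anything for `i ≥ n`). Choose `M i j`, `o i j`
by `hM` and `o₁ i j` by `exists_aOne` and `hJ`. `D` from `exists_path` (`ℓ ≠ 2`) or `exists_path_two`
(`ℓ = 2`), `y` from `exists_weights` with `m = g.natDegree`, `lam` from `exists_lam_sum` with
`x i j = if j = i + 1 then 1 else 0`, `U` from `exists_U_of_lam` for the set of all differences of
distinct elements of `RR` and `-1`; `PathSym` holds with `M i = M i (i+1)`; `PathSym.sepU`. -/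
theorem exists_U_univ {k F : Type} [Field k] [Field F] [Algebra k F] [IsAlgClosure k F] {ℓ : ℕ}
    {g E : k[X]} {ζ : k} (H : GlobHyp ℓ g E ζ) (h3 : 3 ≤ E.natDegree)
    (hJ : ∀ α : F, aeval α E = 0 → ∃ J : Finset (F ≃ₐ[k] F),
      (∀ x y : F, aeval x g = α → aeval y g = α →
        ∃ σ ∈ J, σ x = y ∧ ∀ τ ∈ J, τ x = y → τ = σ) ∧
      ∀ σ ∈ J, ∀ b : F, aeval b (E.comp g) = 0 → aeval b g ≠ α → σ b = b)
    (hM : ∀ α α' : F, aeval α E = 0 → aeval α' E = 0 → α ≠ α' →
      ∃ (M : F → F) (o : F → ℤ),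
        MOrd (IntermediateField.adjoin k ((RR F g E : Finset F) : Set F)).toSubfield (RR F g E)
          (fun b => aeval b g) α α' M o) :
    ∃ U : F ≃ₐ[k] F,
      (∀ x ∈ IntermediateField.adjoin k ((RR F g E : Finset F) : Set F), U x = x) ∧
      kap ℓ (algebraMap k F ζ) U (-1) = 0 ∧
      ∀ μ : ZMod ℓ, SepU g E (kap ℓ (algebraMap k F ζ) U) μ Set.univ := by
  have : IsAlgClosed F := IsAlgClosure.isAlgClosed k
  have : Algebra.IsAlgebraic k F := IsAlgClosure.isAlgebraic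
  have : Fact ℓ.Prime := ⟨H.prime⟩
  have hgdeg : g.natDegree ≠ 0 := by
    intro h0
    have h1 := H.cop
    rw [h0, Nat.coprime_zero_left] at h1
    exact H.prime.ne_one h1
  have hm0 : (g.natDegree : ZMod ℓ) ≠ 0 := by
    rw [Ne, ZMod.natCast_eq_zero_iff]
    intro h1
    have h2 := H.cop
    rw [Nat.coprime_comm, H.prime.coprime_iff_not_dvd] at h2
    exact h2 h1
  have hsepE : E.Separable := p08_separable hgdeg H.sep
  obtain ⟨a, ha1, ha2, ha3⟩ := p08_roots (F := F) hsepE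
  set n := E.natDegree with hn
  have hne : ∀ i j, i < j → j < n → a i ≠ a j := fun i j hij hj h =>
    absurd (ha1 i (hij.trans hj) j hj h) hij.ne
  -- the matchings
  have hMM : ∀ i j, ∃ (M : F → F) (o : F → ℤ), i < j → j < n →
      MOrd (IntermediateField.adjoin k ((RR F g E : Finset F) : Set F)).toSubfield (RR F g E)
        (fun b => aeval b g) (a i) (a j) M o := by
    intro i j
    by_cases h : i < j ∧ j < n
    · obtain ⟨M, o, ho⟩ := hM (a i) (a j) (ha2 i (h.1.trans h.2)) (ha2 j h.2) (hne i j h.1 h.2)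
      exact ⟨M, o, fun _ _ => ho⟩
    · exact ⟨id, fun _ => 0, fun h1 h2 => absurd ⟨h1, h2⟩ h⟩
  choose M o ho using hMM
  have hOO : ∀ i j, ∃ o₁ : F → ℤ, i < j → j < n →
      AOne (IntermediateField.adjoin k ((RR F g E : Finset F) : Set F)).toSubfield (RR F g E)
        (fun b => aeval b g) (a i) (a j) o₁ := by
    intro i j
    by_cases h : i < j ∧ j < n
    · obtain ⟨J, hJ1, hJ2⟩ := hJ (a i) (ha2 i (h.1.trans h.2))
      obtain ⟨o₁, h1⟩ := exists_aOne (RR F g E) (fun b => mem_RR H) (hne i j h.1 h.2) hJ1 hJ2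
        (ho i j h.1 h.2)
      exact ⟨o₁, fun _ _ => h1⟩
    · exact ⟨fun _ => 0, fun h1 h2 => absurd ⟨h1, h2⟩ h⟩
  choose o₁ ho₁ using hOO
  -- the diagonal
  obtain ⟨D, hD1, hD2⟩ : ∃ D : ℕ → ZMod ℓ, PathInj n D ∧ (ℓ = 2 → ∑ i ∈ range n, D i = 0) := by
    by_cases h2 : ℓ = 2
    · clear * - h2 h3
      subst h2
      obtain ⟨D, h4, h5⟩ := exists_path_two h3
      exact ⟨D, h4, fun _ => h5⟩
    · obtain ⟨D, h4⟩ := exists_path (ℓ := ℓ) h3
      exact ⟨D, h4, fun h5 => absurd h5 h2⟩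
  obtain ⟨y, hy1, hy2⟩ := exists_weights (ℓ := ℓ) h3 hm0 D hD2
  have hSK : ∀ β ∈ RR F g E, β ∈ IntermediateField.adjoin k ((RR F g E : Finset F) : Set F) :=
    fun β hβ => IntermediateField.subset_adjoin k _ hβ
  obtain ⟨lam, hmul, hneg, hsame, hsymm, hval⟩ := exists_lam_sum (ℓ := ℓ) (n := n)
    (IntermediateField.adjoin k ((RR F g E : Finset F) : Set F)).toSubfield (RR F g E)
    hSK (fun b => aeval b g) a ha1 M o o₁ ho ho₁ (fun i j => if j = i + 1 then 1 else 0) y
  obtain ⟨U, hU1, hU2⟩ := exists_U_of_lam H.prime H.ne H.zeta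
    (IntermediateField.adjoin k ((RR F g E : Finset F) : Set F)) lam hmul
    (insert (-1) (((RR F g E ×ˢ RR F g E).filter (fun p => p.1 ≠ p.2)).image
      (fun p => p.1 - p.2))) (by
      intro x hx
      rw [Finset.mem_insert, Finset.mem_image] at hx
      rcases hx with rfl | ⟨⟨β, β'⟩, hp, rfl⟩
      · exact ⟨neg_mem (one_mem _), neg_ne_zero.mpr one_ne_zero⟩
      · rw [Finset.mem_filter, Finset.mem_product] at hp
        exact ⟨sub_mem (hSK _ hp.1.1) (hSK _ hp.1.2), sub_ne_zero.mpr hp.2⟩)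
  have hkey : ∀ β ∈ RR F g E, ∀ β' ∈ RR F g E, β ≠ β' →
      kap ℓ (algebraMap k F ζ) U (β - β') = lam (β - β') := by
    intro β hβ β' hβ' hne
    apply hU2
    rw [Finset.mem_insert, Finset.mem_image]
    refine Or.inr ⟨(β, β'), ?_, rfl⟩
    rw [Finset.mem_filter, Finset.mem_product]
    exact ⟨⟨hβ, hβ'⟩, hne⟩
  have hkp : PathSym n g.natDegree (RR F g E) (fun β => aeval β g) a (fun i => M i (i + 1)) y
      (kap ℓ (algebraMap k F ζ) U) :=
    { inj := ha1
      fib := fun β hβ => ha3 _ ((mem_RR H).1 hβ)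
      card := fun i hi => p08_card H (ha2 i hi)
      mmem := fun i hi => (ho i (i + 1) (Nat.lt_succ_self i) hi).mem
      minj := fun i hi => (ho i (i + 1) (Nat.lt_succ_self i) hi).inj
      msurj := fun i hi => (ho i (i + 1) (Nat.lt_succ_self i) hi).surj
      ysymm := hy1
      same := fun β hβ β' hβ' h1 h2 => by
        rw [hkey β hβ β' hβ' h1]
        exact hsame β hβ β' hβ' h1 h2
      symm := fun β hβ β' hβ' h1 => by
        rw [hkey β hβ β' hβ' h1, hkey β' hβ' β hβ h1.symm]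
        exact hsymm β hβ β' hβ' h1
      val := fun i j hij hj β hβ h1 β' hβ' h2 => by
        rw [hkey β hβ β' hβ' (by
          rintro rfl
          exact hne i j hij hj (h1.symm.trans h2)), hval i j hij hj β hβ h1 β' hβ' h2]
        by_cases h : j = i + 1
        · subst h
          simp
        · simp [h] }
  refine ⟨U, hU1, ?_, fun μ => hkp.sepU (by omega) hm0 hy2 hD1 μ⟩
  have h6 := hU2 (-1) (Finset.mem_insert_self _ _)
  rw [hneg] at h6
  exact h6

end Pool.Agent.Lib.MP_89bcae_ag.Re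

end

section

open NumberField Polynomial

namespace Pool.Agent.Lib.MP_89bcae_ag.Re

/-- **A prime with given Kummer symbols, up to a scalar.** Proof: let `E` be the field of
`exists_field` (with `z₀ ∈ T`, `kap z₀ ≠ 0`), a number field. Some `n ≠ 0` in `ℕ` is such that
`b = n ^ ℓ z₀` is in `𝓞 E`; it is not an `ℓ`-th power in `E`. `exists_nonresidue` for `E` (with `ζ` in
`𝓞 E`) and a large bound gives `q` and `φ : 𝓞 E →+* ZMod q` with `φ b ≠ 0` not an `ℓ`-th power.
`exists_subring` for `E` and the set of the images of `T`, of `ζ`, of `n` and of the `w_z` (all nonzero)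
gives `A' ≤ E` and `Φ'`. Let `A` be the inverse image of `A'` in `K` (`Subring.comap`) and `Φ` the
composite. `Φ z₀` is not an `ℓ`-th power, because `Φ' b = (Φ' n) ^ ℓ * Φ z₀` is not; by `exists_symbol`
(`isPrimitiveRoot_map` for `φ ζ`) `(Φ z₀) ^ ((q-1)/ℓ) = (Φ ζ) ^ i.val` with `i ≠ 0`. For `z ∈ T`,
`w_z ^ ℓ z₀ ^ j = z`, so by `symbol_of_pow_mul` the symbol of `Φ z` is `i * j` and
`kap z = j * kap z₀`: take `c = i / kap z₀`. -/
theorem exists_reduction {ℓ : ℕ} (hℓ : ℓ.Prime) (K F : Type) [Field K] [NumberField K] [Field F]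
    [Algebra K F] [IsAlgClosure K F] {ζ : K} (hζ : IsPrimitiveRoot ζ ℓ) (U : F ≃ₐ[K] F)
    (T : Finset K)
    (hT : ∃ z ∈ T, z ≠ 0 ∧ Sup.kap ℓ (algebraMap K F ζ) U (algebraMap K F z) ≠ 0) (N : ℕ) :
    ∃ (q : ℕ) (_ : Fact q.Prime) (A : Subring K) (Φ : A →+* ZMod q) (c : ZMod ℓ) (hζA : ζ ∈ A),
      N < q ∧ ℓ ∣ q - 1 ∧ c ≠ 0 ∧ IsPrimitiveRoot (Φ ⟨ζ, hζA⟩) ℓ ∧
      ∀ z ∈ T, ∃ hz : z ∈ A, z ≠ 0 → Φ ⟨z, hz⟩ ≠ 0 ∧ (Φ ⟨z, hz⟩) ^ ((q - 1) / ℓ) =
        (Φ ⟨ζ, hζA⟩) ^ (c * Sup.kap ℓ (algebraMap K F ζ) U (algebraMap K F z)).val := by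
  obtain ⟨z₀, hz₀T, hz₀, hk₀⟩ := hT
  obtain ⟨E, hfin, hw, hy⟩ := exists_field hℓ K F hζ U T hz₀ hk₀
  have : FiniteDimensional K E := hfin
  have : NumberField E := NumberField.of_module_finite K E
  have : NeZero ℓ := ⟨hℓ.ne_zero⟩
  have : Fact ℓ.Prime := ⟨hℓ⟩
  set kz : K → ZMod ℓ := fun z => Sup.kap ℓ (algebraMap K F ζ) U (algebraMap K F z) with hkz
  choose! w j hw0 hwz hwk using hw
  set e₀ : E := algebraMap K E z₀ with he₀
  have he₀' : e₀ ≠ 0 := by
    rw [he₀]
    exact (_root_.map_ne_zero (algebraMap K E)).2 hz₀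
  -- an integral multiple of `z₀`
  obtain ⟨n, hn, hint⟩ : ∃ n : ℕ, n ≠ 0 ∧ IsIntegral ℤ ((n : E) ^ ℓ * e₀) := by
    obtain ⟨y, hy0, hyi⟩ := ((IsFractionRing.isAlgebraic_iff ℤ ℚ E).2
      (Algebra.IsAlgebraic.isAlgebraic e₀)).exists_integral_multiple
    refine ⟨y.natAbs, Int.natAbs_ne_zero.2 hy0, ?_⟩
    have h1 : IsIntegral ℤ ((y.natAbs : E) * e₀) := by
      rw [zsmul_eq_mul] at hyi
      rcases Int.natAbs_eq y with h | h
      · have h2 : (y : E) = (y.natAbs : E) := by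
          conv_lhs => rw [h]
          rw [Int.cast_natCast]
        rw [← h2]; exact hyi
      · have h2 : (y : E) = -(y.natAbs : E) := by
          conv_lhs => rw [h]
          rw [Int.cast_neg, Int.cast_natCast]
        have h3 : (y.natAbs : E) * e₀ = -((y : E) * e₀) := by rw [h2]; ring
        rw [h3]; exact hyi.neg
    have h4 : (y.natAbs : E) ^ ℓ * e₀ = (y.natAbs : E) ^ (ℓ - 1) * ((y.natAbs : E) * e₀) := by
      rw [← mul_assoc, ← pow_succ, Nat.sub_add_cancel hℓ.one_le]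
    rw [h4]
    refine IsIntegral.mul (IsIntegral.pow ?_ _) h1
    exact isIntegral_algebraMap (R := ℤ) (A := E) (x := (y.natAbs : ℤ)) |> fun h => by simpa using h
  have hn' : (n : E) ≠ 0 := Nat.cast_ne_zero.2 hn
  let b : 𝓞 E := ⟨(n : E) ^ ℓ * e₀, hint⟩
  have hbE : (b : E) = (n : E) ^ ℓ * e₀ := rfl
  have hb : b ≠ 0 := by
    intro h
    have h1 : (b : E) = 0 := by rw [h]; rfl
    rw [hbE] at h1
    exact mul_ne_zero (pow_ne_zero _ hn') he₀' h1
  have hb' : ∀ x : E, x ^ ℓ ≠ b := by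
    intro x hx
    apply hy (x / n)
    rw [hbE] at hx
    rw [div_pow, hx, mul_div_cancel_left₀ _ (pow_ne_zero _ hn')]
  have hζ' : IsPrimitiveRoot (algebraMap K E ζ) ℓ :=
    hζ.map_of_injective (algebraMap K E).injective
  set ζE : 𝓞 E := hζ'.toInteger with hζE
  have hζEp : IsPrimitiveRoot ζE ℓ := hζ'.toInteger_isPrimitiveRoot
  have hζEE : (ζE : E) = algebraMap K E ζ := hζ'.coe_toInteger
  -- the finite set
  classical
  let T' : Finset E := T.image (algebraMap K E) ∪ T.image w ∪ {(n : E)}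
  obtain ⟨N₁, hN₁⟩ := exists_subring E T'
  obtain ⟨q, hqp, hq, φ, hφb, hφb'⟩ :=
    exists_nonresidue E hℓ hζEp hb hb' (max N (max N₁ ℓ))
  have : Fact q.Prime := hqp
  have hqN : N < q := lt_of_le_of_lt (le_max_left _ _) hq
  have hqN₁ : N₁ < q := lt_of_le_of_lt ((le_max_left _ _).trans (le_max_right _ _)) hq
  have hqℓ : ℓ < q := lt_of_le_of_lt ((le_max_right _ _).trans (le_max_right _ _)) hq
  obtain ⟨A', Φ', hA', hT'⟩ := hN₁ q hqN₁ φ
  have hne : ∀ x ∈ T', x ≠ 0 → ∀ hx : x ∈ A', Φ' ⟨x, hx⟩ ≠ 0 := by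
    intro x hx hx0 hxA h
    have hi := (hT' x hx).2 hx0
    have h1 : (⟨x, hxA⟩ : A') * ⟨x⁻¹, hi⟩ = 1 := Subtype.ext (mul_inv_cancel₀ hx0)
    have h2 := congrArg Φ' h1
    rw [map_mul, h, zero_mul, map_one] at h2
    exact zero_ne_one h2
  have hmemT : ∀ z ∈ T, algebraMap K E z ∈ T' := fun z hz =>
    Finset.mem_union_left _ (Finset.mem_union_left _ (Finset.mem_image_of_mem _ hz))
  have hmemw : ∀ z ∈ T, w z ∈ T' := fun z hz =>
    Finset.mem_union_left _ (Finset.mem_union_right _ (Finset.mem_image_of_mem _ hz))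
  have hmemn : (n : E) ∈ T' := Finset.mem_union_right _ (Finset.mem_singleton_self _)
  have hnA : (n : E) ∈ A' := (hT' _ hmemn).1
  have hz₀A : e₀ ∈ A' := (hT' _ (hmemT z₀ hz₀T)).1
  obtain ⟨hζA', hζΦ⟩ := hA' ζE
  obtain ⟨hbA', hbΦ⟩ := hA' b
  have hbval : φ b = (Φ' ⟨n, hnA⟩) ^ ℓ * Φ' ⟨e₀, hz₀A⟩ := by
    rw [← hbΦ, ← map_pow, ← map_mul]
    congr 1
  have hpow : ∀ y : ZMod q, y ^ ℓ ≠ Φ' ⟨e₀, hz₀A⟩ := by
    intro y hyy
    apply hφb' (Φ' ⟨n, hnA⟩ * y)
    rw [hbval, mul_pow, hyy]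
  have hζφ : IsPrimitiveRoot (φ ζE) ℓ := isPrimitiveRoot_map hℓ hζEp hqℓ φ
  obtain ⟨hdvd, i, hi0, hi⟩ := exists_symbol hℓ hζφ
    (hne e₀ (hmemT z₀ hz₀T) he₀' hz₀A) hpow
  have hζA : algebraMap K E ζ ∈ A' := hζEE ▸ hζA'
  let A : Subring K := A'.comap (algebraMap K E)
  let g : A →+* A' := (algebraMap K E).restrict A A' (fun x hx => hx)
  have hΦζ : Φ' ⟨algebraMap K E ζ, hζA⟩ = φ ζE := by
    have h1 : (⟨algebraMap K E ζ, hζA⟩ : A') = ⟨(ζE : E), hζA'⟩ := Subtype.ext hζEE.symm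
    rw [h1, hζΦ]
  refine ⟨q, hqp, A, Φ'.comp g, i / kz z₀, hζA, hqN, hdvd, div_ne_zero hi0 hk₀, ?_, ?_⟩
  · show IsPrimitiveRoot (Φ' ⟨algebraMap K E ζ, hζA⟩) ℓ
    rw [hΦζ]; exact hζφ
  · intro z hz
    have hzA : algebraMap K E z ∈ A' := (hT' _ (hmemT z hz)).1
    refine ⟨hzA, fun hz0 => ⟨?_, ?_⟩⟩
    · exact hne _ (hmemT z hz) ((_root_.map_ne_zero (algebraMap K E)).2 hz0) hzA
    · show (Φ' ⟨algebraMap K E z, hzA⟩) ^ ((q - 1) / ℓ) =
        (Φ' ⟨algebraMap K E ζ, hζA⟩) ^ (i / kz z₀ * kz z).val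
      have hwA : w z ∈ A' := (hT' _ (hmemw z hz)).1
      have h1 : (Φ' ⟨w z, hwA⟩) ^ ℓ * (Φ' ⟨e₀, hz₀A⟩) ^ (j z) = Φ' ⟨algebraMap K E z, hzA⟩ := by
        rw [← map_pow, ← map_pow, ← map_mul]
        congr 1
        exact Subtype.ext (hwz z hz hz0)
      have h2 := symbol_of_pow_mul hℓ hζφ hdvd (hne _ (hmemw z hz) (hw0 z hz hz0) hwA) h1 hi
      have h3 : i / kz z₀ * kz z = i * (j z : ZMod ℓ) := by
        have h4 : kz z = j z * kz z₀ := hwk z hz hz0
        have h5 : kz z₀ ≠ 0 := hk₀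
        rw [h4]
        field_simp
      rw [h2, hΦζ, h3]

end Pool.Agent.Lib.MP_89bcae_ag.Re

end

section

/-!
# Towers of superelliptic surfaces with integral coefficients, for all primes `ℓ` at the same time
-/

open Polynomial Filter Topology

open scoped Classical

set_option linter.unusedSimpArgs false
set_option linter.unusedVariables false
set_option linter.unusedSectionVars false
set_option linter.style.haveILetI false

namespace Pool.Agent.Lib.MP_89bcae_ag

/-- Transitivity on pairs over the field of the `ℓ`-th roots of unity, from the same over the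
rationals and a simple collision at one prime `p` different from `2` and `ℓ`. -/
theorem pair2_of_collision7 {ℓ : ℕ} (hℓ : ℓ.Prime) (F : Type) [Field F] [Algebra ℚ F]
    [IsAlgClosure ℚ F] {g D : ℤ[X]} (hg : g.Monic) (hg0 : g.natDegree ≠ 0)
    (hsep : ((D.comp g).map (Int.castRingHom ℚ)).Separable)
    {p : ℕ} (hp : p.Prime) (hp2 : p ≠ 2) (hpℓ : p ≠ ℓ) (hlc : ¬ (p : ℤ) ∣ D.leadingCoeff)
    (hcol : IsCollisionZ8 p g D)
    (K : Type) [Field K] [Algebra ℚ K] [Algebra K F] [IsScalarTower ℚ K F] [FiniteDimensional ℚ K]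
    [IsGalois ℚ K] {ζ : K}
    (hζ : IsPrimitiveRoot ζ ℓ) (hgen : ∀ σ : K ≃ₐ[ℚ] K, σ ζ = ζ → σ = 1)
    (hX : IsPairTransitive7 ℚ F X (D.map (Int.castRingHom ℚ))) :
    IsPairTransitive7 K F X (D.map (Int.castRingHom K)) := by
  have hF : IsAlgClosed F := IsAlgClosure.isAlgClosed ℚ
  have hQF : Algebra.IsAlgebraic ℚ F := IsAlgClosure.isAlgebraic
  have hKFa : Algebra.IsAlgebraic K F := Algebra.IsAlgebraic.tower_top (K := ℚ) K
  have hKF : IsAlgClosure K F := ⟨hF, hKFa⟩
  have hQK : (algebraMap ℚ K).comp (Int.castRingHom ℚ) = Int.castRingHom K := RingHom.ext_int _ _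
  have hmapK : ∀ f : ℤ[X], (f.map (Int.castRingHom ℚ)).map (algebraMap ℚ K) =
      f.map (Int.castRingHom K) := fun f => by rw [Polynomial.map_map, hQK]
  have hinjK : Function.Injective (Int.castRingHom K) := by
    haveI : CharZero K := charZero_of_injective_algebraMap (algebraMap ℚ K).injective
    exact (Int.castRingHom K).injective_int
  have hsepK : ((D.comp g).map (Int.castRingHom K)).Separable := by
    rw [← hmapK]
    exact hsep.map
  obtain ⟨R, i1, i2, i3, i4, i5, hR⟩ := exists_dvrK8 hℓ hp hpℓ K hζ hgen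
  have hmapR : ∀ f : ℤ[X], (f.map (Int.castRingHom R)).map (algebraMap R K) =
      f.map (Int.castRingHom K) := by
    intro f
    rw [Polynomial.map_map]
    congr 1
    exact RingHom.ext_int _ _
  have hinjR : Function.Injective (Int.castRingHom R) := by
    have h1 : Function.Injective ((algebraMap R K).comp (Int.castRingHom R)) := by
      have h2 : (algebraMap R K).comp (Int.castRingHom R) = Int.castRingHom K := RingHom.ext_int _ _
      rw [h2]
      exact hinjK
    exact Function.Injective.of_comp h1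
  have hR1 : ∀ z : ℤ, ¬ (p : ℤ) ∣ z → IsUnit (z : R) := by
    intro z hz
    have h1 := hR z 1
    rw [pow_one, pow_one] at h1
    rw [← IsLocalRing.notMem_maximalIdeal, h1]
    exact hz
  have h2 : IsUnit (2 : R) := by
    have h1 := hR1 2 (by
      intro h
      have h3 : p ∣ 2 := by exact_mod_cast h
      exact hp2 ((Nat.prime_dvd_prime_iff_eq hp Nat.prime_two).mp h3))
    simpa using h1
  have hDlc : (D.map (Int.castRingHom R)).leadingCoeff = ((D.leadingCoeff : ℤ) : R) := by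
    rw [leadingCoeff_map_of_injective hinjR]
    rfl
  have hs := hasSwap_of_collision7 R K F h2 (g := g.map (Int.castRingHom R))
    (D := D.map (Int.castRingHom R)) (by rw [hg.natDegree_map]; exact hg0) (hg.map _)
    (by rw [hDlc]; exact hR1 _ hlc) (isCollision7_of_Z8 hp hR hcol)
    (by rw [← Polynomial.map_comp, hmapR]; exact hsepK)
  rw [hmapR, ← hmapK] at hs
  have h := isPairTransitive_of_swap7 (k := ℚ) (K := K) (F := F) hX hs
  rwa [hmapK] at h


/-- The intersection of two sets of density one. -/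
theorem density_inter7 {n : ℕ} {P Q : (Fin (n + 1) → ℤ) → Prop}
    (hP : Tendsto (fun H : ℕ => ({a : Fin (n + 1) → ℤ | (∀ i, |a i| ≤ H) ∧ P a}.ncard : ℝ) /
      (2 * H + 1) ^ (n + 1)) atTop (𝓝 1))
    (hQ : Tendsto (fun H : ℕ => ({a : Fin (n + 1) → ℤ | (∀ i, |a i| ≤ H) ∧ Q a}.ncard : ℝ) /
      (2 * H + 1) ^ (n + 1)) atTop (𝓝 1)) :
    Tendsto (fun H : ℕ => ({a : Fin (n + 1) → ℤ | (∀ i, |a i| ≤ H) ∧ (P a ∧ Q a)}.ncard : ℝ) /
      (2 * H + 1) ^ (n + 1)) atTop (𝓝 1) := by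
  have hfin : ∀ (H : ℕ) (Q : (Fin (n + 1) → ℤ) → Prop),
      ({a : Fin (n + 1) → ℤ | (∀ i, |a i| ≤ H) ∧ Q a}).Finite := by
    intro H Q
    apply Set.Finite.subset (Finset.finite_toSet
      (Fintype.piFinset fun _ : Fin (n + 1) => Finset.Icc (-(H : ℤ)) H))
    rintro a ⟨h2, -⟩
    rw [Finset.mem_coe, Fintype.mem_piFinset]
    intro i
    rw [Finset.mem_Icc]
    exact abs_le.mp (h2 i)
  have hlow := (hP.add hQ).sub (tendsto_const_nhds (x := (1 : ℝ)) (f := (atTop : Filter ℕ)))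
  rw [add_sub_cancel_right] at hlow
  refine tendsto_of_tendsto_of_tendsto_of_le_of_le hlow hP (fun H => ?_) (fun H => ?_)
  · have hpos : (0 : ℝ) < (2 * H + 1) ^ (n + 1) := by positivity
    have hbox : ((Fintype.piFinset fun _ : Fin (n + 1) => Finset.Icc (-(H : ℤ)) H).card : ℝ) =
        (2 * H + 1) ^ (n + 1) := by
      rw [Fintype.card_piFinset]
      simp only [Int.card_Icc, Finset.prod_const, Finset.card_univ, Fintype.card_fin]
      have h1 : ((H : ℤ) + 1 - -(H : ℤ)).toNat = 2 * H + 1 := by omega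
      rw [h1]
      push_cast
      rfl
    set A := {a : Fin (n + 1) → ℤ | (∀ i, |a i| ≤ H) ∧ P a} with hA
    set B := {a : Fin (n + 1) → ℤ | (∀ i, |a i| ≤ H) ∧ Q a} with hB
    have hAB : {a : Fin (n + 1) → ℤ | (∀ i, |a i| ≤ H) ∧ (P a ∧ Q a)} = A ∩ B := by
      ext a
      simp only [hA, hB, Set.mem_inter_iff, Set.mem_ofPred_eq]
      tauto
    have hAf : A.Finite := hfin H P
    have hBf : B.Finite := hfin H Q
    have h1 := Set.ncard_union_add_ncard_inter A B hAf hBf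
    have h2 : ((A ∪ B).ncard : ℝ) ≤ (2 * H + 1) ^ (n + 1) := by
      rw [← hbox, ← Set.ncard_coe_finset]
      rw [Nat.cast_le]
      apply Set.ncard_le_ncard _ (Finset.finite_toSet _)
      rintro a (⟨h3, -⟩ | ⟨h3, -⟩) <;>
      · rw [Finset.mem_coe, Fintype.mem_piFinset]
        intro i
        rw [Finset.mem_Icc]
        exact abs_le.mp (h3 i)
    change (A.ncard : ℝ) / (2 * H + 1) ^ (n + 1) + (B.ncard : ℝ) / (2 * H + 1) ^ (n + 1) - 1 ≤
      ({a : Fin (n + 1) → ℤ | (∀ i, |a i| ≤ H) ∧ (P a ∧ Q a)}.ncard : ℝ) / (2 * H + 1) ^ (n + 1)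
    rw [hAB, ← add_div, sub_le_iff_le_add, div_add_one hpos.ne', div_le_div_iff_of_pos_right hpos]
    have h3 : ((A ∪ B).ncard : ℝ) + ((A ∩ B).ncard : ℝ) = (A.ncard : ℝ) + (B.ncard : ℝ) := by
      exact_mod_cast h1
    linarith
  · apply div_le_div_of_nonneg_right _ (by positivity)
    rw [Nat.cast_le]
    apply Set.ncard_le_ncard _ (hfin H P)
    rintro a ⟨h1, h2, -⟩
    exact ⟨h1, h2⟩


end Pool.Agent.Lib.MP_89bcae_ag

end

section

/-!
# One automorphism which is good on all fibres: the arithmetic part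
-/

open Polynomial

open scoped Classical

set_option linter.unusedSimpArgs false
set_option linter.unusedVariables false
set_option linter.unusedSectionVars false
set_option linter.style.haveILetI false

namespace Pool.Agent.Lib.MP_89bcae_ag

/-- **One automorphism which is good on all fibres**, from the residual data. -/
theorem exists_U_of_pair7 {ℓ : ℕ} (hℓ : ℓ.Prime) (F : Type) [Field F] [Algebra ℚ F]
    [IsAlgClosure ℚ F] {g D : ℤ[X]} (hg : g.Monic) (hcop : g.natDegree.Coprime ℓ) {n : ℕ}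
    (hn : 2 ≤ n) (hdegD : D.natDegree = n + 1)
    (hsep : ((D.comp g).map (Int.castRingHom ℚ)).Separable)
    {p : ℕ} (hp : p.Prime) (hp2 : p ≠ 2) (hpℓ : p ≠ ℓ) (hlc : ¬ (p : ℤ) ∣ D.leadingCoeff)
    (hcol : IsCollisionZ8 p g D)
    {q : ℕ} (hq : q.Prime) (hqℓ : q ≠ ℓ) (hqm : ¬ q ∣ g.natDegree)
    (hE1 : (q : ℤ) ∣ D.leadingCoeff) (hE2 : ¬ (q : ℤ) ^ 2 ∣ D.leadingCoeff)
    (hE3 : ¬ (q : ℤ) ∣ D.coeff n)
    (hE4 : ((D.map (Int.castRingHom (ZMod q))).comp
      (g.map (Int.castRingHom (ZMod q)))).Separable)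
    (K : Type) [Field K] [Algebra ℚ K] [Algebra K F] [IsScalarTower ℚ K F] [FiniteDimensional ℚ K]
    [IsGalois ℚ K] {ζ : K}
    (hζ : IsPrimitiveRoot ζ ℓ) (hgen : ∀ σ : K ≃ₐ[ℚ] K, σ ζ = ζ → σ = 1)
    (hX : IsPairTransitive7 K F X (D.map (Int.castRingHom K))) :
    Sup.GlobHyp ℓ (g.map (Int.castRingHom K)) (D.map (Int.castRingHom K)) ζ ∧
    ∃ U : F ≃ₐ[K] F,
      (∀ x ∈ IntermediateField.adjoin K ((Sup.RR F (g.map (Int.castRingHom K))
        (D.map (Int.castRingHom K)) : Finset F) : Set F), U x = x) ∧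
      Sup.kap ℓ (algebraMap K F ζ) U (-1) = 0 ∧
      ∀ μ : ZMod ℓ, Sup.SepU (g.map (Int.castRingHom K)) (D.map (Int.castRingHom K))
        (Sup.kap ℓ (algebraMap K F ζ) U) μ Set.univ := by
  have hF : IsAlgClosed F := IsAlgClosure.isAlgClosed ℚ
  have hQF : Algebra.IsAlgebraic ℚ F := IsAlgClosure.isAlgebraic
  have hKFa : Algebra.IsAlgebraic K F := Algebra.IsAlgebraic.tower_top (K := ℚ) K
  have hKF : IsAlgClosure K F := ⟨hF, hKFa⟩
  have hchar : CharZero K := charZero_of_injective_algebraMap (algebraMap ℚ K).injective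
  have hg0 : g.natDegree ≠ 0 := by
    intro h0
    rw [h0, Nat.coprime_zero_left] at hcop
    exact hℓ.one_lt.ne' hcop
  have hinjK : Function.Injective (Int.castRingHom K) := (Int.castRingHom K).injective_int
  have hQK : (algebraMap ℚ K).comp (Int.castRingHom ℚ) = Int.castRingHom K := RingHom.ext_int _ _
  have hmapK : ∀ f : ℤ[X], (f.map (Int.castRingHom ℚ)).map (algebraMap ℚ K) =
      f.map (Int.castRingHom K) := fun f => by rw [Polynomial.map_map, hQK]
  have hsepK : ((D.comp g).map (Int.castRingHom K)).Separable := by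
    rw [← hmapK]
    exact hsep.map
  -- the discrete valuation rings
  have hmapR : ∀ (R : Type) [CommRing R] [Algebra R K] (f : ℤ[X]),
      (f.map (Int.castRingHom R)).map (algebraMap R K) = f.map (Int.castRingHom K) := by
    intro R _ _ f
    rw [Polynomial.map_map]
    congr 1
    exact RingHom.ext_int _ _
  have hinjR : ∀ (R : Type) [CommRing R] [Algebra R K], Function.Injective (Int.castRingHom R) := by
    intro R _ _
    have h1 : Function.Injective ((algebraMap R K).comp (Int.castRingHom R)) := by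
      have h2 : (algebraMap R K).comp (Int.castRingHom R) = Int.castRingHom K := RingHom.ext_int _ _
      rw [h2]
      exact hinjK
    exact Function.Injective.of_comp h1
  -- the place `q`
  have hq2 : IsPairTransitive7 K F (g.map (Int.castRingHom K)) (D.map (Int.castRingHom K)) ∧
      ∀ α : F, aeval α (D.map (Int.castRingHom K)) = 0 → ∃ J : Finset (F ≃ₐ[K] F),
        (∀ x y : F, aeval x (g.map (Int.castRingHom K)) = α →
          aeval y (g.map (Int.castRingHom K)) = α →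
            ∃ σ ∈ J, σ x = y ∧ ∀ τ ∈ J, τ x = y → τ = σ) ∧
        ∀ σ ∈ J, ∀ b : F,
          aeval b ((D.map (Int.castRingHom K)).comp (g.map (Int.castRingHom K))) = 0 →
            aeval b (g.map (Int.castRingHom K)) ≠ α → σ b = b := by
    obtain ⟨R, i1, i2, i3, i4, i5, hR⟩ := exists_dvrK8 hℓ hq hqℓ K hζ hgen
    obtain ⟨φ, hφ⟩ := residue_map8 hq hR
    have hR1 : ∀ z : ℤ, (z : R) ∈ IsLocalRing.maximalIdeal R ↔ (q : ℤ) ∣ z := by
      intro z
      have h1 := hR z 1
      rwa [pow_one, pow_one] at h1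
    have hDdeg : (D.map (Int.castRingHom R)).natDegree = n + 1 := by
      rw [natDegree_map_eq_of_injective (hinjR R), hdegD]
    have hDlc : (D.map (Int.castRingHom R)).leadingCoeff = ((D.leadingCoeff : ℤ) : R) := by
      rw [leadingCoeff_map_of_injective (hinjR R)]
      rfl
    have hgmR : ((g.map (Int.castRingHom R)).natDegree : IsLocalRing.ResidueField R) ≠ 0 := by
      rw [hg.natDegree_map]
      intro h0
      have h1 : IsLocalRing.residue R ((g.natDegree : ℤ) : R) = 0 := by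
        rw [Int.cast_natCast, map_natCast]
        exact h0
      rw [IsLocalRing.residue_eq_zero_iff, hR1] at h1
      exact hqm (Int.natCast_dvd_natCast.mp h1)
    have hq1 : (D.map (Int.castRingHom R)).leadingCoeff ∈ IsLocalRing.maximalIdeal R := by
      rw [hDlc, hR1]; exact hE1
    have hq2 : (D.map (Int.castRingHom R)).leadingCoeff ∉ IsLocalRing.maximalIdeal R ^ 2 := by
      rw [hDlc, hR]; exact hE2
    have hq3 : (D.map (Int.castRingHom R)).coeff n ∉ IsLocalRing.maximalIdeal R := by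
      rw [coeff_map]
      have h1 : Int.castRingHom R (D.coeff n) = ((D.coeff n : ℤ) : R) := rfl
      rw [h1, hR1]
      exact hE3
    have hq4 : (((D.map (Int.castRingHom R)).map (IsLocalRing.residue R)).comp
        ((g.map (Int.castRingHom R)).map (IsLocalRing.residue R))).Separable := by
      rw [hφ, hφ, ← Polynomial.map_comp]
      exact hE4.map
    have hq5 : (((D.map (Int.castRingHom R)).comp (g.map (Int.castRingHom R))).map
        (algebraMap R K)).Separable := by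
      rw [← Polynomial.map_comp, hmapR]; exact hsepK
    have hq6 : IsPairTransitive7 K F X ((D.map (Int.castRingHom R)).map (algebraMap R K)) := by
      rw [hmapR]; exact hX
    have h := isPairTransitive_of_cycle7 R K F (g := g.map (Int.castRingHom R))
      (D := D.map (Int.castRingHom R)) (hg.map _) hgmR hDdeg hq1 hq2 hq3 hq4 hq5 hq6
    rw [hmapR, hmapR] at h
    refine ⟨h, fun α hα => ?_⟩
    have h' := exists_simply_transitive R K F (g := g.map (Int.castRingHom R))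
      (D := D.map (Int.castRingHom R)) (hg.map _) hgmR hDdeg hq1 hq2 hq3 hq4 hq5 hq6 α
      (by rw [hmapR]; exact hα)
    rw [hmapR, hmapR] at h'
    exact h'
  obtain ⟨htr, hJ⟩ := hq2
  have hdegK : (D.map (Int.castRingHom K)).natDegree = n + 1 := by
    rw [natDegree_map_eq_of_injective hinjK, hdegD]
  have H : Sup.GlobHyp ℓ (g.map (Int.castRingHom K)) (D.map (Int.castRingHom K)) ζ :=
    ⟨hℓ, by exact_mod_cast hℓ.ne_zero, hζ, hg.map _, by rw [hg.natDegree_map]; exact hcop,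
      by rw [← Polynomial.map_comp]; exact hsepK, by rw [hdegK]; omega⟩
  -- the criterion
  have hCR := Re.exists_U_univ (F := F) H (by rw [hdegK]; omega) hJ (by
    obtain ⟨R, i1, i2, i3, i4, i5, hR⟩ := exists_dvrK8 hℓ hp hpℓ K hζ hgen
    have hR1 : ∀ z : ℤ, ¬ (p : ℤ) ∣ z → IsUnit (z : R) := by
      intro z hz
      have h1 := hR z 1
      rw [pow_one, pow_one] at h1
      rw [← IsLocalRing.notMem_maximalIdeal, h1]
      exact hz
    have h2 : IsUnit (2 : R) := by
      have h1 := hR1 2 (by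
        intro h
        have h3 : p ∣ 2 := by exact_mod_cast h
        exact hp2 ((Nat.prime_dvd_prime_iff_eq hp Nat.prime_two).mp h3))
      simpa using h1
    have hDlc : (D.map (Int.castRingHom R)).leadingCoeff = ((D.leadingCoeff : ℤ) : R) := by
      rw [leadingCoeff_map_of_injective (hinjR R)]
      rfl
    intro α α' hα hα' hne
    have h := Sup.exists_mOrd R K F h2 (g := g.map (Int.castRingHom R))
      (D := D.map (Int.castRingHom R)) (hg.map _) (by rw [hg.natDegree_map]; exact hg0)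
      (by rw [hDlc]; exact hR1 _ hlc) (isCollision7_of_Z8 hp hR hcol)
      (by rw [← Polynomial.map_comp, hmapR]; exact hsepK)
      (by rw [hmapR, hmapR]; exact htr)
      (Sup.RR F (g.map (Int.castRingHom K)) (D.map (Int.castRingHom K)))
      (fun b => by rw [hmapR, hmapR]; exact Sup.mem_RR H) (α := α) (α' := α')
      (by rw [hmapR]; exact hα) (by rw [hmapR]; exact hα') hne
    rw [hmapR] at h
    exact h)
  exact ⟨H, hCR⟩

/-- From one automorphism which is good on all fibres to the criterion for all towers. -/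
theorem cRall_of_univ7 {k F : Type} [Field k] [Field F] [Algebra k F] [IsAlgClosure k F] {ℓ : ℕ}
    {g E : k[X]} {ζ : k} (H : Sup.GlobHyp ℓ g E ζ) {U : F ≃ₐ[k] F}
    (hU : ∀ x ∈ IntermediateField.adjoin k ((Sup.RR F g E : Finset F) : Set F), U x = x)
    (hneg : Sup.kap ℓ (algebraMap k F ζ) U (-1) = 0)
    (hsep : ∀ μ : ZMod ℓ, Sup.SepU g E (Sup.kap ℓ (algebraMap k F ζ) U) μ Set.univ) :
    Sup.CRall ℓ g E ζ U Set.univ := by
  have hF : IsAlgClosed F := IsAlgClosure.isAlgClosed k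
  refine ⟨fun β hβ => hU β (IntermediateField.subset_adjoin k _ hβ), fun x hx => ?_, hsep⟩
  have h := Sup.kap_spec (U : F ≃+* F) H.prime (H.zeta.map_of_injective (algebraMap k F).injective)
    (by exact U.commutes ζ) (neg_ne_zero.mpr one_ne_zero) (by simp) hx
  have h0 : Sup.kap ℓ (algebraMap k F ζ) (U : F ≃+* F) (-1) = 0 := hneg
  rw [h0] at h
  simpa using h

end Pool.Agent.Lib.MP_89bcae_ag

end

end

section

attribute [local instance 100000] Pool.Agent.Lib.MP_89bcae_ag.Brt.tffFields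
attribute [local instance 100000] Pool.Agent.Lib.MP_89bcae_ag.Wt.ifrNF Pool.Agent.Lib.MP_89bcae_ag.Wt.iddNF

namespace Pool.Agent.Lib.MP_89bcae_ag
end Pool.Agent.Lib.MP_89bcae_ag
namespace Pool.Agent.Lib.MP_89bcae_ag.Bra
end Pool.Agent.Lib.MP_89bcae_ag.Bra

section

/-!
ROW T10. An eigenvector forces a scalar.
-/

open Polynomial Finset

namespace Pool.Agent.Lib.MP_89bcae_ag.Tw

/-- the shift -/
def t10_T {ℓ : ℕ} (N : ℕ) : Module.End (ZMod ℓ) (ZMod N → ZMod ℓ) :=
  LinearMap.funLeft (ZMod ℓ) (ZMod ℓ) (fun i : ZMod N => i + 1)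

theorem t10_T_pow {ℓ N : ℕ} (k : ℕ) (e : ZMod N → ZMod ℓ) (i : ZMod N) :
    ((t10_T (ℓ := ℓ) N) ^ k) e i = e (i + (k : ZMod N)) := by
  induction k generalizing i with
  | zero => simp
  | succ k ih =>
    rw [pow_succ', Module.End.mul_apply]
    have : (t10_T (ℓ := ℓ) N) (((t10_T (ℓ := ℓ) N) ^ k) e) i =
        ((t10_T (ℓ := ℓ) N) ^ k) e (i + 1) := rfl
    rw [this, ih]
    push_cast
    congr 1
    ring

theorem t10_telescope {ℓ N n m : ℕ} [NeZero N] (hN : N = m * n) (i : ZMod N) :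
    ∑ t ∈ range m, ((Pi.single 0 1 - Pi.single ((n : ℕ) : ZMod N) 1 : ZMod N → ZMod ℓ)
      (i + (n * t : ℕ))) = 0 := by
  classical
  have hm : 0 < m := by
    rcases Nat.eq_zero_or_pos m with rfl | h
    · exfalso; rw [zero_mul] at hN; exact NeZero.ne N hN
    · exact h
  have h1 : ∀ t, ((Pi.single 0 1 - Pi.single ((n : ℕ) : ZMod N) 1 : ZMod N → ZMod ℓ)
      (i + (n * t : ℕ))) =
      (fun t : ℕ => (Pi.single 0 1 : ZMod N → ZMod ℓ) (i - n + ((n * t : ℕ) : ZMod N))) (t + 1) -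
      (fun t : ℕ => (Pi.single 0 1 : ZMod N → ZMod ℓ) (i - n + ((n * t : ℕ) : ZMod N))) t := by
    intro t
    simp only [Pi.sub_apply]
    congr 1
    · congr 1
      push_cast
      ring
    · rw [Pi.single_apply, Pi.single_apply]
      congr 1
      apply propext
      constructor
      · intro h
        rw [sub_add_eq_add_sub, h, sub_self]
      · intro h
        rw [sub_add_eq_add_sub, sub_eq_zero] at h
        exact h
  rw [Finset.sum_congr rfl fun t _ => h1 t]
  refine (Finset.sum_range_sub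
    (fun t : ℕ => (Pi.single 0 1 : ZMod N → ZMod ℓ) (i - n + ((n * t : ℕ) : ZMod N))) m).trans ?_
  have h2 : ((n * m : ℕ) : ZMod N) = 0 := by
    rw [mul_comm n m, ← hN, ZMod.natCast_self]
  simp only [h2, mul_zero, Nat.cast_zero, add_zero, sub_self]


end Pool.Agent.Lib.MP_89bcae_ag.Tw

end

section

open Polynomial Finset

namespace Pool.Agent.Lib.MP_89bcae_ag.Tw

variable {F : Type*} [Field F]

/-- the exponent `i` with `ψ w = ζ ^ i w`, where `w ^ ℓ = x` -/
noncomputable def lam (ℓ : ℕ) (ψ : F ≃+* F) (ζ : F) (x : F) : ZMod ℓ := by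
  classical
  exact if h : ∃ i : ℕ, ∃ w : F, w ^ ℓ = x ∧ ψ w = ζ ^ i * w then ((h.choose : ℕ) : ZMod ℓ) else 0

variable {ℓ : ℕ} {ψ : F ≃+* F} {ζ : F}

/-- powers of a primitive root are equal iff the exponents agree modulo `ℓ`. -/
lemma t11_pow_eq (hℓ : 0 < ℓ) (hζ : IsPrimitiveRoot ζ ℓ) (i j : ℕ) :
    ζ ^ i = ζ ^ j ↔ (i : ZMod ℓ) = j := by
  rw [ZMod.natCast_eq_natCast_iff]
  have h1 : ∀ k : ℕ, ζ ^ k = ζ ^ (k % ℓ) := by
    intro k
    conv_lhs => rw [← Nat.mod_add_div k ℓ, pow_add, pow_mul, hζ.pow_eq_one, one_pow, mul_one]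
  constructor
  · intro h
    rw [h1 i, h1 j] at h
    exact hζ.pow_inj (Nat.mod_lt _ hℓ) (Nat.mod_lt _ hℓ) h
  · intro h
    rw [h1 i, h1 j]
    congr 1

/-- two `ℓ`-th roots differ by a power of `ζ` -/
lemma t11_root (hℓ : 0 < ℓ) (hζ : IsPrimitiveRoot ζ ℓ) {x u w : F} (hx0 : x ≠ 0)
    (hu : u ^ ℓ = x) (hw : w ^ ℓ = x) : ∃ j : ℕ, u = ζ ^ j * w := by
  have hw0 : w ≠ 0 := by
    rintro rfl
    rw [zero_pow hℓ.ne'] at hw
    exact hx0 hw.symm
  have h1 : (u / w) ^ ℓ = 1 := by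
    rw [div_pow, hu, hw, div_self hx0]
  have : NeZero ℓ := ⟨hℓ.ne'⟩
  obtain ⟨j, _, hj⟩ := hζ.eq_pow_of_pow_eq_one h1
  exact ⟨j, by rw [hj, div_mul_cancel₀ _ hw0]⟩

lemma lam_spec (hℓ : 0 < ℓ) (hζ : IsPrimitiveRoot ζ ℓ) {x w : F} (hx0 : x ≠ 0) (hx : ψ x = x)
    (hw : w ^ ℓ = x) (hψ : ψ ζ = ζ) : ∀ i : ℕ, ((i : ZMod ℓ) = lam ℓ ψ ζ x ↔ ψ w = ζ ^ i * w) := by
  intro i
  have hw0 : w ≠ 0 := by
    rintro rfl
    rw [zero_pow hℓ.ne'] at hw
    exact hx0 hw.symm
  have hψw : (ψ w) ^ ℓ = x := by rw [← map_pow, hw, hx]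
  obtain ⟨j, hj⟩ := t11_root hℓ hζ hx0 hψw hw
  have h : ∃ i : ℕ, ∃ w : F, w ^ ℓ = x ∧ ψ w = ζ ^ i * w := ⟨j, w, hw, hj⟩
  have hlam : lam ℓ ψ ζ x = ((h.choose : ℕ) : ZMod ℓ) := by
    unfold lam
    rw [dif_pos h]
  obtain ⟨w0, hw0x, hψ0⟩ := h.choose_spec
  obtain ⟨k, hk⟩ := t11_root hℓ hζ hx0 hw hw0x
  have h2 : ψ w = ζ ^ h.choose * w := by
    rw [hk, map_mul, map_pow, hψ, hψ0]
    ring
  rw [hlam, ← t11_pow_eq hℓ hζ, h2]
  constructor
  · intro h3
    rw [h3]
  · intro h3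
    exact (mul_right_cancel₀ hw0 h3).symm

/-- every class is represented by a natural number exponent -/
lemma t11_exists (hℓ : 0 < ℓ) (hζ : IsPrimitiveRoot ζ ℓ) {x w : F} (hx0 : x ≠ 0) (hx : ψ x = x)
    (hw : w ^ ℓ = x) (hψ : ψ ζ = ζ) : ∃ i : ℕ, (i : ZMod ℓ) = lam ℓ ψ ζ x ∧ ψ w = ζ ^ i * w := by
  have : NeZero ℓ := ⟨hℓ.ne'⟩
  refine ⟨(lam ℓ ψ ζ x).val, ZMod.natCast_zmod_val _, ?_⟩
  exact (lam_spec hℓ hζ hx0 hx hw hψ _).1 (ZMod.natCast_zmod_val _)

lemma lam_mul [IsAlgClosed F] (hℓ : 0 < ℓ) (hζ : IsPrimitiveRoot ζ ℓ) (hψ : ψ ζ = ζ) {x y : F}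
    (hx0 : x ≠ 0) (hx : ψ x = x) (hy0 : y ≠ 0) (hy : ψ y = y) :
    lam ℓ ψ ζ (x * y) = lam ℓ ψ ζ x + lam ℓ ψ ζ y := by
  obtain ⟨u, hu⟩ := IsAlgClosed.exists_pow_nat_eq x hℓ
  obtain ⟨v, hv⟩ := IsAlgClosed.exists_pow_nat_eq y hℓ
  obtain ⟨i, hi, hui⟩ := t11_exists hℓ hζ hx0 hx hu hψ
  obtain ⟨j, hj, hvj⟩ := t11_exists hℓ hζ hy0 hy hv hψ
  have h := (lam_spec hℓ hζ (mul_ne_zero hx0 hy0) (by rw [map_mul, hx, hy])
    (by rw [mul_pow, hu, hv] : (u * v) ^ ℓ = x * y) hψ (i + j)).2 (by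
      rw [map_mul, hui, hvj, pow_add]
      ring)
  rw [← h, ← hi, ← hj, Nat.cast_add]

lemma lam_one (hℓ : 0 < ℓ) (hζ : IsPrimitiveRoot ζ ℓ) (hψ : ψ ζ = ζ) : lam ℓ ψ ζ 1 = 0 := by
  have h := (lam_spec hℓ hζ (one_ne_zero (α := F)) (map_one ψ) (one_pow ℓ) hψ 0).2 (by
    rw [map_one, pow_zero, one_mul])
  rw [← h, Nat.cast_zero]

/-- `lam` on natural powers -/
lemma t11_lam_pow [IsAlgClosed F] (hℓ : 0 < ℓ) (hζ : IsPrimitiveRoot ζ ℓ) (hψ : ψ ζ = ζ) {x : F}
    (hx0 : x ≠ 0) (hx : ψ x = x) (n : ℕ) : lam ℓ ψ ζ (x ^ n) = n * lam ℓ ψ ζ x := by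
  induction n with
  | zero => rw [pow_zero, lam_one hℓ hζ hψ, Nat.cast_zero, zero_mul]
  | succ n ih =>
    rw [pow_succ, lam_mul hℓ hζ hψ (pow_ne_zero n hx0) (by rw [map_pow, hx]) hx0 hx, ih]
    push_cast
    ring

/-- `lam` on inverses -/
lemma t11_lam_inv [IsAlgClosed F] (hℓ : 0 < ℓ) (hζ : IsPrimitiveRoot ζ ℓ) (hψ : ψ ζ = ζ) {x : F}
    (hx0 : x ≠ 0) (hx : ψ x = x) : lam ℓ ψ ζ x⁻¹ = - lam ℓ ψ ζ x := by
  have h := lam_mul hℓ hζ hψ (inv_ne_zero hx0) (by rw [map_inv₀, hx]) hx0 hx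
  rw [inv_mul_cancel₀ hx0, lam_one hℓ hζ hψ] at h
  exact eq_neg_of_add_eq_zero_left h.symm

lemma lam_zpow [IsAlgClosed F] (hℓ : 0 < ℓ) (hζ : IsPrimitiveRoot ζ ℓ) (hψ : ψ ζ = ζ) {x : F}
    (hx0 : x ≠ 0) (hx : ψ x = x) (i : ℤ) : lam ℓ ψ ζ (x ^ i) = i * lam ℓ ψ ζ x := by
  obtain ⟨n, rfl | rfl⟩ := i.eq_nat_or_neg
  · rw [zpow_natCast, t11_lam_pow hℓ hζ hψ hx0 hx, Int.cast_natCast]
  · rw [zpow_neg, zpow_natCast, t11_lam_inv hℓ hζ hψ (pow_ne_zero n hx0) (by rw [map_pow, hx]),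
      t11_lam_pow hℓ hζ hψ hx0 hx]
    push_cast
    ring


/-- `lam` vanishes exactly at the `ℓ`-th powers of elements fixed by `ψ`. -/
lemma lam_eq_zero_iff [IsAlgClosed F] (hℓ : 0 < ℓ) (hζ : IsPrimitiveRoot ζ ℓ) (hψ : ψ ζ = ζ) {x : F}
    (hx0 : x ≠ 0) (hx : ψ x = x) : lam ℓ ψ ζ x = 0 ↔ ∃ w, w ^ ℓ = x ∧ ψ w = w := by
  constructor
  · intro h
    obtain ⟨w, hw⟩ := IsAlgClosed.exists_pow_nat_eq x hℓ
    refine ⟨w, hw, ?_⟩
    have h1 := (lam_spec hℓ hζ hx0 hx hw hψ 0).1 (by rw [h, Nat.cast_zero])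
    rwa [pow_zero, one_mul] at h1
  · rintro ⟨w, hw, hψw⟩
    have h1 := (lam_spec hℓ hζ hx0 hx hw hψ 0).2 (by rw [pow_zero, one_mul, hψw])
    rw [← h1, Nat.cast_zero]

/-- invariance under an automorphism which commutes with `ψ` -/
lemma lam_apply [IsAlgClosed F] (hℓ : 0 < ℓ) (hζ : IsPrimitiveRoot ζ ℓ) (hψ : ψ ζ = ζ)
    (φ : F ≃+* F) (hφζ : φ ζ = ζ) (hcomm : ∀ x, φ (ψ x) = ψ (φ x)) {x : F}
    (hx0 : x ≠ 0) (hx : ψ x = x) : lam ℓ ψ ζ (φ x) = lam ℓ ψ ζ x := by
  obtain ⟨w, hw⟩ := IsAlgClosed.exists_pow_nat_eq x hℓ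
  obtain ⟨i, hi, hwi⟩ := t11_exists hℓ hζ hx0 hx hw hψ
  have h1 := (lam_spec (ψ := ψ) hℓ hζ (x := φ x) (w := φ w)
    ((map_ne_zero_iff φ φ.injective).2 hx0) (by rw [← hcomm, hx]) (by rw [← map_pow, hw]) hψ i).2 (by
      rw [← hcomm, hwi, map_mul, map_pow, hφζ])
  rw [← h1, hi]

end Pool.Agent.Lib.MP_89bcae_ag.Tw

end

section

/-!
# An eigenvector up to constants on the fibres forces a scalar
-/

open Polynomial Finset

namespace Pool.Agent.Lib.MP_89bcae_ag.Tw

theorem scalar_of_eigenvector_all {ℓ m j : ℕ} [Fact ℓ.Prime] (hm : m.Prime)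
    (hirr : Irreducible (cyclotomic (m ^ (j + 1)) (ZMod ℓ)))
    (r : ZMod (m * m ^ j) → ZMod ℓ) (c : ZMod ℓ) (e : ZMod (m * m ^ j) → ZMod ℓ) (he : e ≠ 0)
    (hsum : ∀ i : ZMod (m * m ^ j), ∑ t ∈ range m, e (i + (m ^ j * t : ℕ)) = 0)
    [NeZero (m * m ^ j)]
    (heig : ∀ i, ∑ s, r s * (e i - e (i + s)) = c * e i) :
    ∀ s : ZMod (m * m ^ j), ZMod.castHom (dvd_mul_left (m ^ j) m) (ZMod (m ^ j)) s ≠ 0 →
      r s = r (s + (m ^ j : ℕ)) := by
  classical
  intro s hs
  set T : Module.End (ZMod ℓ) (ZMod (m * m ^ j) → ZMod ℓ) := t10_T (m * m ^ j) with hT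
  set P : (ZMod ℓ)[X] := C (∑ s, r s - c) - ∑ s, C (r s) * X ^ s.val with hP
  have hPe : ∀ (v : ZMod (m * m ^ j) → ZMod ℓ) (i : ZMod (m * m ^ j)), (aeval T P) v i =
      (∑ s, r s - c) * v i - ∑ s, r s * v (i + s) := by
    intro v i
    rw [hP, map_sub, map_sum, aeval_C, LinearMap.sub_apply, Pi.sub_apply, LinearMap.sum_apply,
      Finset.sum_apply, Module.algebraMap_end_apply, Pi.smul_apply, smul_eq_mul]
    congr 1
    refine Finset.sum_congr rfl fun s _ => ?_
    rw [map_mul, aeval_C, map_pow, aeval_X, Module.End.mul_apply, Module.algebraMap_end_apply,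
      Pi.smul_apply, smul_eq_mul, hT, t10_T_pow, ZMod.natCast_zmod_val]
  have hΦ : ∀ (v : ZMod (m * m ^ j) → ZMod ℓ) (i : ZMod (m * m ^ j)),
      (aeval T (cyclotomic (m ^ (j + 1)) (ZMod ℓ))) v i =
      ∑ t ∈ range m, v (i + (m ^ j * t : ℕ)) := by
    intro v i
    have : Fact m.Prime := ⟨hm⟩
    rw [cyclotomic_prime_pow_eq_geom_sum hm, map_sum, LinearMap.sum_apply, Finset.sum_apply]
    refine Finset.sum_congr rfl fun t _ => ?_
    rw [map_pow, map_pow, aeval_X, ← pow_mul, hT, t10_T_pow]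
  have hPe0 : (aeval T P) e = 0 := by
    funext i
    rw [hPe, Pi.zero_apply]
    have h1 := heig i
    have h2 : ∑ s, r s * (e i - e (i + s)) = (∑ s, r s) * e i - ∑ s, r s * e (i + s) := by
      rw [Finset.sum_mul, ← Finset.sum_sub_distrib]
      refine Finset.sum_congr rfl fun s _ => ?_
      ring
    rw [h2] at h1
    linear_combination h1
  have hΦe0 : (aeval T (cyclotomic (m ^ (j + 1)) (ZMod ℓ))) e = 0 := by
    funext i
    rw [hΦ, Pi.zero_apply]
    exact hsum i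
  have hdvd : cyclotomic (m ^ (j + 1)) (ZMod ℓ) ∣ P := by
    by_contra hnd
    obtain ⟨a, b, hab⟩ := (hirr.coprime_iff_not_dvd).2 hnd
    apply he
    have h1 := congrArg (fun q => (aeval T q) e) hab
    simp only [map_add, map_mul, map_one, LinearMap.add_apply, Module.End.mul_apply, hPe0, hΦe0,
      map_zero, add_zero, Module.End.one_apply] at h1
    exact h1.symm
  obtain ⟨Q, hQ⟩ := hdvd
  set v : ZMod (m * m ^ j) → ZMod ℓ :=
    Pi.single 0 1 - Pi.single ((m ^ j : ℕ) : ZMod (m * m ^ j)) 1 with hv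
  have hΦv : (aeval T (cyclotomic (m ^ (j + 1)) (ZMod ℓ))) v = 0 := by
    funext i
    rw [hΦ, Pi.zero_apply]
    exact t10_telescope rfl i
  have hPv : (aeval T P) v = 0 := by
    rw [hQ, mul_comm (cyclotomic (m ^ (j + 1)) (ZMod ℓ)) Q, map_mul, Module.End.mul_apply, hΦv,
      map_zero]
  have h3 := congrFun hPv (-s)
  rw [hPe, Pi.zero_apply] at h3
  have hpn : ZMod.castHom (dvd_mul_left (m ^ j) m) (ZMod (m ^ j))
      (((m ^ j : ℕ) : ZMod (m * m ^ j))) = 0 := by
    rw [map_natCast, ZMod.natCast_self]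
  have hv1 : v (-s) = 0 := by
    rw [hv, Pi.sub_apply, Pi.single_apply, Pi.single_apply, if_neg, if_neg, sub_zero]
    · intro h4
      apply hs
      have h5 := congrArg (ZMod.castHom (dvd_mul_left (m ^ j) m) (ZMod (m ^ j))) h4
      rw [hpn, map_neg, neg_eq_zero] at h5
      exact h5
    · intro h4
      apply hs
      rw [neg_eq_zero] at h4
      rw [h4, map_zero]
  have hsum2 : ∑ s', r s' * v (-s + s') = r s - r (s + ((m ^ j : ℕ) : ZMod (m * m ^ j))) := by
    have h4 : ∀ s' ∈ (Finset.univ : Finset (ZMod (m * m ^ j))),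
        r s' * v (-s + s') = (if s' = s then r s' else 0) -
        (if s' = s + ((m ^ j : ℕ) : ZMod (m * m ^ j)) then r s' else 0) := by
      intro s' _
      rw [hv, Pi.sub_apply, Pi.single_apply, Pi.single_apply]
      have e1 : (-s + s' = 0) ↔ (s' = s) := by
        rw [neg_add_eq_zero]; exact eq_comm
      have e2 : (-s + s' = ((m ^ j : ℕ) : ZMod (m * m ^ j))) ↔
          (s' = s + ((m ^ j : ℕ) : ZMod (m * m ^ j))) := by
        rw [neg_add_eq_iff_eq_add]
      simp only [e1, e2]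
      split_ifs <;> ring
    rw [Finset.sum_congr rfl h4, Finset.sum_sub_distrib, Finset.sum_ite_eq', Finset.sum_ite_eq',
      if_pos (Finset.mem_univ _), if_pos (Finset.mem_univ _)]
  rw [hv1, hsum2, mul_zero, zero_sub, neg_eq_zero, sub_eq_zero] at h3
  exact h3

/-- The same up to constants on the fibres. -/
theorem scalar_of_eigenvector_cst {ℓ m j : ℕ} [Fact ℓ.Prime] (hm : m.Prime)
    (hmℓ : (m : ZMod ℓ) ≠ 0)
    (hirr : Irreducible (cyclotomic (m ^ (j + 1)) (ZMod ℓ)))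
    (r : ZMod (m * m ^ j) → ZMod ℓ) (c : ZMod ℓ) (e : ZMod (m * m ^ j) → ZMod ℓ) (he : e ≠ 0)
    (hsum : ∀ i : ZMod (m * m ^ j), ∑ t ∈ range m, e (i + (m ^ j * t : ℕ)) = 0)
    [NeZero (m * m ^ j)] (cst : ZMod (m * m ^ j) → ZMod ℓ)
    (hcst : ∀ i, cst (i + (m ^ j : ℕ)) = cst i)
    (heig : ∀ i, ∑ s, r s * (e i - e (i + s)) = c * e i + cst i) :
    ∀ s : ZMod (m * m ^ j), ZMod.castHom (dvd_mul_left (m ^ j) m) (ZMod (m ^ j)) s ≠ 0 →
      r s = r (s + (m ^ j : ℕ)) := by
  classical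
  have hcst2 : ∀ (t : ℕ) (i : ZMod (m * m ^ j)), cst (i + (m ^ j * t : ℕ)) = cst i := by
    intro t
    induction t with
    | zero => intro i; simp
    | succ t ih =>
      intro i
      have h1 : i + ((m ^ j * (t + 1) : ℕ) : ZMod (m * m ^ j)) =
          (i + (m ^ j * t : ℕ)) + (m ^ j : ℕ) := by
        push_cast
        ring
      rw [h1, hcst, ih]
  refine scalar_of_eigenvector_all hm hirr r c e he hsum fun i => ?_
  have h2 : cst i = 0 := by
    have h3 : ∑ t ∈ range m, (∑ s, r s * (e (i + (m ^ j * t : ℕ)) - e (i + (m ^ j * t : ℕ) + s))) =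
        ∑ t ∈ range m, (c * e (i + (m ^ j * t : ℕ)) + cst i) := by
      refine Finset.sum_congr rfl fun t _ => ?_
      rw [heig, hcst2]
    rw [Finset.sum_comm, Finset.sum_add_distrib, ← Finset.mul_sum, hsum, mul_zero, zero_add,
      Finset.sum_const, card_range, nsmul_eq_mul] at h3
    have h4 : ∑ s, ∑ t ∈ range m,
        r s * (e (i + (m ^ j * t : ℕ)) - e (i + (m ^ j * t : ℕ) + s)) = 0 := by
      refine Finset.sum_eq_zero fun s _ => ?_
      rw [← Finset.mul_sum, Finset.sum_sub_distrib, hsum]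
      have h5 : ∑ t ∈ range m, e (i + (m ^ j * t : ℕ) + s) = 0 := by
        rw [← hsum (i + s)]
        exact Finset.sum_congr rfl fun t _ => by rw [add_right_comm]
      rw [h5, sub_zero, mul_zero]
    rw [h4] at h3
    exact (mul_eq_zero.mp h3.symm).resolve_left hmℓ
  rw [heig, h2, add_zero]

end Pool.Agent.Lib.MP_89bcae_ag.Tw

end

section

open Polynomial

open scoped Classical

namespace Pool.Agent.Lib.MP_89bcae_ag.Brt

open Pool.Agent.Lib.MP_89bcae_ag.Bra

theorem R1_prim {F : Type} [CommRing F] {ℓ : ℕ} (hℓ : ℓ.Prime) {z : F}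
    (h1 : z ^ ℓ = 1) (h2 : z ≠ 1) : IsPrimitiveRoot z ℓ := by
  have : Fact ℓ.Prime := ⟨hℓ⟩
  have := orderOf_eq_prime h1 h2
  exact this ▸ IsPrimitiveRoot.orderOf z

/-- The core of row R1: in a Galois extension generated by a primitive `ℓ`-th root of unity, `π` extends to the integral
closure. PROOF. A maximal ideal `Q` over `ker π`; `ζ ≡ r ^ i` modulo `Q` with `π r = z`; the elements
`e σ = σ⁻¹ ζ - r ^ i` are not in `Q` for `σ ≠ 1` and `σ (e σ)` is in `Q`; so every `x` is congruent modulo `Q` to the trace of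
`x E' E`, where `E` is the product of the `e σ`, and `E' E ≡ 1`. -/
theorem R1_core {R κ k k₁ : Type} [CommRing R] [IsDomain R] [IsIntegrallyClosed R] [Field κ]
    {ℓ : ℕ} (hℓ : ℓ.Prime) {z : κ} (hz : IsPrimitiveRoot z ℓ) {π : R →+* κ}
    (hπ : Function.Surjective π) [Field k] [Algebra R k] [IsFractionRing R k] [Field k₁]
    [Algebra k k₁] [Algebra R k₁] [IsScalarTower R k k₁] [FiniteDimensional k k₁] [IsGalois k k₁]
    {ζ : k₁} (hζ : IsPrimitiveRoot ζ ℓ) (hgen : ∀ σ : Gal(k₁/k), σ ζ = ζ → σ = 1) :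
    ∃ π' : integralClosure R k₁ →+* κ,
      ∀ r, π' (algebraMap R (integralClosure R k₁) r) = π r := by
  have hp : (RingHom.ker π).IsMaximal := RingHom.ker_isMaximal_of_surjective π hπ
  have hinj : Function.Injective (algebraMap R k₁) := by
    rw [IsScalarTower.algebraMap_eq R k k₁]
    exact (algebraMap k k₁).injective.comp (IsFractionRing.injective R k)
  have hinjC : Function.Injective (algebraMap R (integralClosure R k₁)) := by
    intro a b hab
    exact hinj (congrArg Subtype.val hab)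
  obtain ⟨Q, hQ, hQp⟩ := Ideal.exists_ideal_over_maximal_of_isIntegral (S := integralClosure R k₁)
    (RingHom.ker π) (by rw [(RingHom.injective_iff_ker_eq_bot _).1 hinjC]; exact bot_le)
  have hmem : ∀ a : R, algebraMap R (integralClosure R k₁) a ∈ Q ↔ π a = 0 := by
    intro a
    rw [← RingHom.mem_ker, ← hQp, Ideal.mem_comap]
  have hℓ0 : ((ℓ : ℕ) : integralClosure R k₁) ∉ Q := by
    intro h
    have h1 : π ((ℓ : ℕ) : R) = 0 := (hmem _).1 (by rw [map_natCast]; exact h)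
    rw [map_natCast] at h1
    have : Fact ℓ.Prime := ⟨hℓ⟩
    have h2 : (NeZero ((ℓ : ℕ) : κ)) := by
      have : NeZero ℓ := ⟨hℓ.ne_zero⟩
      exact hz.neZero'
    exact h2.out h1
  have hone : (1 : integralClosure R k₁) ∉ Q := fun h => hQ.ne_top ((Ideal.eq_top_iff_one Q).2 h)
  obtain ⟨r, hr⟩ := hπ z
  have hζi : IsIntegral R ζ := by
    refine ⟨X ^ ℓ - 1, monic_X_pow_sub_C 1 hℓ.ne_zero, ?_⟩
    simp [hζ.pow_eq_one]
  set ζC : integralClosure R k₁ := ⟨ζ, hζi⟩ with hζC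
  set mk := Ideal.Quotient.mk Q with hmk
  have hzb : IsPrimitiveRoot (mk (algebraMap R (integralClosure R k₁) r)) ℓ := by
    apply R1_prim hℓ
    · rw [← map_pow, ← map_pow, ← sub_eq_zero, ← map_one mk, ← map_sub, hmk,
        Ideal.Quotient.eq_zero_iff_mem, ← map_one (algebraMap R (integralClosure R k₁)),
        ← map_sub, hmem, map_sub, map_pow, hr, hz.pow_eq_one, map_one, sub_self]
    · intro h
      rw [← sub_eq_zero, ← map_one mk, ← map_sub, hmk,
        Ideal.Quotient.eq_zero_iff_mem, ← map_one (algebraMap R (integralClosure R k₁)),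
        ← map_sub, hmem, map_sub, hr, map_one, sub_eq_zero] at h
      exact hz.ne_one hℓ.one_lt h
  have hζp : ζC ^ ℓ = 1 := Subtype.ext hζ.pow_eq_one
  have hdom : IsDomain (integralClosure R k₁ ⧸ Q) := Ideal.Quotient.isDomain Q
  obtain ⟨i, -, hi⟩ : ∃ i < ℓ, mk (algebraMap R (integralClosure R k₁) r) ^ i = mk ζC := by
    have : NeZero ℓ := ⟨hℓ.ne_zero⟩
    refine hzb.eq_pow_of_pow_eq_one ?_
    rw [← map_pow, hζp, map_one]
  have hi' : ζC - algebraMap R (integralClosure R k₁) r ^ i ∈ Q := by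
    rw [← Ideal.Quotient.eq_zero_iff_mem, map_sub, map_pow, sub_eq_zero]
    exact hi.symm
  -- the Galois action
  set s : Gal(k₁/k) → (integralClosure R k₁ ≃ₐ[R] integralClosure R k₁) :=
    fun σ => (σ.restrictScalars R).mapIntegralClosure with hs
  have hsv : ∀ σ x, ((s σ x : integralClosure R k₁) : k₁) = σ x := fun σ x => rfl
  set e : Gal(k₁/k) → integralClosure R k₁ :=
    fun σ => s σ⁻¹ ζC - algebraMap R (integralClosure R k₁) r ^ i with he
  have he1 : ∀ σ, s σ (e σ) ∈ Q := by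
    intro σ
    have : s σ (e σ) = ζC - algebraMap R (integralClosure R k₁) r ^ i := by
      rw [he]
      simp only [map_sub, map_pow, AlgEquiv.commutes]
      congr 1
      apply Subtype.ext
      rw [hsv, hsv]
      exact AlgEquiv.apply_symm_apply σ ζ
    rw [this]
    exact hi'
  have he2 : ∀ σ, σ ≠ 1 → e σ ∉ Q := by
    intro σ hσ hmem2
    have h1 : s σ⁻¹ ζC - ζC ∈ Q := by
      have := Q.sub_mem hmem2 hi'
      rw [he] at this
      simp only [sub_sub_sub_cancel_right] at this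
      exact this
    have h2 : s σ⁻¹ ζC ≠ ζC := by
      intro h
      have h3 : σ⁻¹ ζ = ζ := congrArg Subtype.val h
      exact hσ (inv_eq_one.1 (hgen _ h3))
    set η : integralClosure R k₁ := s σ⁻¹ ζC * ζC ^ (ℓ - 1) with hη
    have hζℓ : ζC * ζC ^ (ℓ - 1) = 1 := by
      rw [← pow_succ', Nat.sub_add_cancel hℓ.one_le, hζp]
    have h3 : η - 1 ∈ Q := by
      have : η - 1 = (s σ⁻¹ ζC - ζC) * ζC ^ (ℓ - 1) := by
        rw [sub_mul, hζℓ]
      rw [this]
      exact Q.mul_mem_right _ h1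
    have h4 : η ≠ 1 := by
      intro h
      apply h2
      have h5 : η * ζC = ζC := by rw [h, one_mul]
      rw [hη, mul_assoc, mul_comm (ζC ^ (ℓ - 1)), hζℓ, mul_one] at h5
      exact h5
    have h5 : η ^ ℓ = 1 := by
      rw [hη, mul_pow, ← map_pow, hζp, map_one, one_mul, ← pow_mul, mul_comm, pow_mul, hζp, one_pow]
    have h6 : ∑ j ∈ Finset.range ℓ, η ^ j = 0 := by
      have := mul_geom_sum η ℓ
      rw [h5, sub_self] at this
      rcases mul_eq_zero.1 this with h | h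
      · exact absurd (sub_eq_zero.1 h) h4
      · exact h
    apply hℓ0
    rw [← Ideal.Quotient.eq_zero_iff_mem]
    have h7 : mk η = 1 := by
      rw [← sub_eq_zero, ← map_one mk, ← map_sub, hmk, Ideal.Quotient.eq_zero_iff_mem]
      exact h3
    have h8 := congrArg mk h6
    rw [map_sum] at h8
    simp only [map_pow, h7, one_pow, Finset.sum_const, Finset.card_range, nsmul_eq_mul, mul_one,
      map_zero] at h8
    rw [map_natCast]
    exact h8
  set E : integralClosure R k₁ := ∏ σ ∈ (Finset.univ : Finset Gal(k₁/k)).erase 1, e σ with hE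
  have hE1 : E ∉ Q := by
    rw [hE]
    intro h
    have hprime : Q.IsPrime := hQ.isPrime
    obtain ⟨σ, hσ, hσ2⟩ := (Ideal.IsPrime.prod_mem_iff).1 h
    exact he2 σ (Finset.ne_of_mem_erase hσ) hσ2
  obtain ⟨E', q, hq, hE'⟩ := hQ.exists_inv hE1
  have hsurj : ∀ x : integralClosure R k₁, ∃ t : R,
      algebraMap R (integralClosure R k₁) t - x ∈ Q := by
    intro x
    set y : integralClosure R k₁ := x * (E' * E) with hy
    have h1 : IsIntegral R (Algebra.trace k k₁ (y : k₁)) := Algebra.isIntegral_trace y.2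
    obtain ⟨t, ht⟩ := IsIntegrallyClosed.isIntegral_iff.1 h1
    refine ⟨t, ?_⟩
    have h2 : algebraMap R (integralClosure R k₁) t = ∑ σ : Gal(k₁/k), s σ y := by
      apply Subtype.ext
      have h3 : algebraMap R k₁ t = ∑ σ : Gal(k₁/k), σ (y : k₁) := by
        rw [IsScalarTower.algebraMap_apply R k k₁, ht]
        exact trace_eq_sum_automorphisms (y : k₁)
      have h4 : ((∑ σ : Gal(k₁/k), s σ y : integralClosure R k₁) : k₁) =
          ∑ σ : Gal(k₁/k), σ (y : k₁) := by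
        rw [AddSubmonoidClass.coe_finsetSum]
        exact Finset.sum_congr rfl fun σ _ => hsv σ y
      rw [h4, ← h3]
      rfl
    have h5 : ∑ σ : Gal(k₁/k), s σ y = s 1 y + ∑ σ ∈ (Finset.univ : Finset Gal(k₁/k)).erase 1, s σ y := by
      exact (Finset.add_sum_erase Finset.univ (fun σ : Gal(k₁/k) => s σ y) (Finset.mem_univ 1)).symm
    have h6 : s 1 y = y := Subtype.ext rfl
    have h7 : ∑ σ ∈ (Finset.univ : Finset Gal(k₁/k)).erase 1, s σ y ∈ Q := by
      apply Q.sum_mem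
      intro σ hσ
      have h8 : s σ y = s σ (x * E') * s σ E := by
        rw [hy, ← mul_assoc, map_mul]
      rw [h8]
      apply Q.mul_mem_left
      rw [hE, map_prod, ← Finset.mul_prod_erase _ _ hσ]
      exact Q.mul_mem_right _ (he1 σ)
    have h9 : y - x ∈ Q := by
      have : y - x = - (x * q) := by
        rw [hy, ← sub_eq_zero]
        have : E' * E = 1 - q := by rw [← hE']; ring
        rw [this]; ring
      rw [this]
      exact Q.neg_mem (Q.mul_mem_left _ hq)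
    rw [h2, h5, h6, add_sub_right_comm]
    exact Q.add_mem h9 h7
  -- the map
  set f : R →+* (integralClosure R k₁ ⧸ Q) := mk.comp (algebraMap R (integralClosure R k₁)) with hf
  have hfs : Function.Surjective f := by
    intro x
    obtain ⟨x, rfl⟩ := Ideal.Quotient.mk_surjective x
    obtain ⟨t, ht⟩ := hsurj x
    refine ⟨t, ?_⟩
    rw [hf, RingHom.comp_apply, hmk, ← sub_eq_zero, ← map_sub, Ideal.Quotient.eq_zero_iff_mem]
    exact ht
  have hfk : RingHom.ker f ≤ RingHom.ker π := by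
    intro a ha
    rw [RingHom.mem_ker] at ha ⊢
    rw [hf, RingHom.comp_apply, hmk, Ideal.Quotient.eq_zero_iff_mem] at ha
    exact (hmem a).1 ha
  refine ⟨(f.liftOfSurjective hfs ⟨π, hfk⟩).comp mk, fun a => ?_⟩
  exact RingHom.liftOfRightInverse_comp_apply f _ (Function.rightInverse_surjInv hfs) ⟨π, hfk⟩ a

/-- A normal domain with a surjection to `κ` may be extended so that its field of fractions contains a primitive `ℓ`-th root of
unity. PROOF: `R1_core` for `k₁ = CyclotomicField ℓ k` and the integral closure of `R` in it. -/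
theorem exists_zeta_ext {R κ : Type} [CommRing R] [IsDomain R] [IsIntegrallyClosed R] [Field κ]
    {ℓ : ℕ} (hℓ : ℓ.Prime) (hz : ∃ z : κ, IsPrimitiveRoot z ℓ) {π : R →+* κ}
    (hπ : Function.Surjective π) (k : Type) [Field k] [Algebra R k] [IsFractionRing R k] :
    ∃ (R' k₁ : Type) (_ : CommRing R') (_ : IsDomain R') (_ : IsIntegrallyClosed R')
      (π' : R' →+* κ) (φ : R →+* R') (_ : Field k₁) (_ : Algebra R' k₁) (_ : IsFractionRing R' k₁)
      (_ : Algebra k k₁) (_ : FiniteDimensional k k₁), Function.Surjective π' ∧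
      (∀ r, π' (φ r) = π r) ∧
      (∀ r, algebraMap R' k₁ (φ r) = algebraMap k k₁ (algebraMap R k r)) ∧
      ∃ ζ : k₁, IsPrimitiveRoot ζ ℓ := by
  obtain ⟨z, hz⟩ := hz
  have hne : NeZero ℓ := ⟨hℓ.ne_zero⟩
  have hκ : NeZero ((ℓ : ℕ) : κ) := hz.neZero'
  have hk : NeZero ((ℓ : ℕ) : k) := by
    refine ⟨fun h => hκ.out ?_⟩
    have h1 : ((ℓ : ℕ) : R) = 0 := by
      apply IsFractionRing.injective R k
      rw [map_natCast, map_zero, h]
    rw [← map_natCast π, h1, map_zero]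
  let k₁ := CyclotomicField ℓ k
  have : IsScalarTower R k k₁ := inferInstanceAs (IsScalarTower R k (CyclotomicField ℓ k))
  have : IsCyclotomicExtension {ℓ} k k₁ := CyclotomicField.isCyclotomicExtension ℓ k
  have : FiniteDimensional k k₁ := IsCyclotomicExtension.finiteDimensional {ℓ} k k₁
  have : IsGalois k k₁ := IsCyclotomicExtension.isGalois {ℓ} k k₁
  have hζ := IsCyclotomicExtension.zeta_spec ℓ k k₁
  have hgen : ∀ σ : Gal(k₁/k), σ (IsCyclotomicExtension.zeta ℓ k k₁) =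
      IsCyclotomicExtension.zeta ℓ k k₁ → σ = 1 := by
    intro σ hσ
    apply AlgEquiv.ext
    intro x
    have hx : x ∈ Algebra.adjoin k {IsCyclotomicExtension.zeta ℓ k k₁} := by
      rw [IsCyclotomicExtension.adjoin_primitive_root_eq_top hζ]
      exact Algebra.mem_top
    have h2 : ∀ y ∈ Algebra.adjoin k {IsCyclotomicExtension.zeta ℓ k k₁},
        (σ : k₁ →ₐ[k] k₁) y = AlgHom.id k k₁ y := by
      have := AlgHom.eqOn_adjoin_iff (φ := (σ : k₁ →ₐ[k] k₁)) (ψ := AlgHom.id k k₁)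
        (s := {IsCyclotomicExtension.zeta ℓ k k₁})
      intro y hy
      refine this.2 ?_ hy
      intro w hw
      rw [Set.mem_singleton_iff.1 hw]
      exact hσ
    exact h2 x hx
  obtain ⟨π', hπ'⟩ := R1_core hℓ hz hπ (k := k) (k₁ := k₁) hζ hgen
  refine ⟨integralClosure R k₁, k₁, inferInstance, inferInstance,
    integralClosure.isIntegrallyClosedOfFiniteExtension k, π',
    algebraMap R (integralClosure R k₁), inferInstance, inferInstance,
    integralClosure.isFractionRing_of_finite_extension k k₁, inferInstance, inferInstance,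
    ?_, hπ', fun r => rfl, _, hζ⟩
  intro c
  obtain ⟨a, rfl⟩ := hπ c
  exact ⟨_, hπ' a⟩

end Pool.Agent.Lib.MP_89bcae_ag.Brt

end

section

/-!
# The automorphism which lifts Frobenius, with the square roots of `-1`
-/

open Polynomial

namespace Pool.Agent.Lib.MP_89bcae_ag.Tw

open Pool.Agent.Lib.MP_89bcae_ag

open scoped Classical in
theorem frob_spec2 {R K F κ Fκ : Type*} [CommRing R] [IsDomain R] [IsIntegrallyClosed R] [Field K]
    [Algebra R K] [IsFractionRing R K] [Field F] [Algebra K F] [Algebra R F] [IsScalarTower R K F]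
    [IsAlgClosed F] [Algebra.IsAlgebraic K F]
    [Field κ] [Fintype κ] [Field Fκ] [Algebra κ Fκ] [Algebra.IsAlgebraic κ Fκ] [IsAlgClosed Fκ]
    {π : R →+* κ} (hπ : Function.Surjective π) {ℓ : ℕ} (hℓ : ℓ.Prime) (hℓκ : (ℓ : κ) ≠ 0)
    {f : R[X]} (hu : IsUnit f.leadingCoeff) {N : ℕ} (hN : f.natDegree = N)
    (hirr : Irreducible (f.map π)) {β' : Fκ} (hβ' : aeval β' (f.map π) = 0) :
    ∃ (φ : F ≃ₐ[K] F) (β : F), aeval β f = 0 ∧ (∀ γ : F, aeval γ f = 0 → ∃ i, (φ ^ i) β = γ) ∧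
      (∀ i, (φ ^ i) β = β ↔ N ∣ i) ∧
      ((2 : κ) ≠ 0 → (∃ a : κ, a ^ 2 = -1) → ∀ x : F, x ^ 2 = -1 → φ x = x) ∧
      ∀ i j : ℕ, (∀ w : Fκ,
          w ^ ℓ = ((frob8 κ Fκ ^ i) β' - β') * ((frob8 κ Fκ ^ j) β' - β') ^ (ℓ - 1) →
            (frob8 κ Fκ ^ N) w ≠ w) →
        ∀ w : F, w ^ ℓ = ((φ ^ i) β - β) * ((φ ^ j) β - β) ^ (ℓ - 1) → (φ ^ N) w ≠ w := by
  have hinjR : Function.Injective (algebraMap R F) := by
    rw [IsScalarTower.algebraMap_eq R K F]
    exact (algebraMap K F).injective.comp (IsFractionRing.injective R K)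
  have hfaith : FaithfulSMul R F := (faithfulSMul_iff_algebraMap_injective R F).mpr hinjR
  obtain ⟨ρ, β, hi, hρ, hβ, hρβ⟩ := exists_root_red (F := F) hπ hu hirr hβ'
  have hsepκ : (f.map π).Separable := PerfectField.separable_of_irreducible hirr
  have hsep : (f.map (algebraMap R K)).Separable := separable_of_red F hπ hu hsepκ
  have h2F : (ℓ : F) ≠ 0 := by
    intro h0
    have h1 : (ℓ : R) = 0 := hinjR (by rw [map_natCast, map_zero]; exact h0)
    apply hℓκ
    rw [← map_natCast π, h1, map_zero]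
  have hf0 : f ≠ 0 := by
    rintro rfl
    rw [Polynomial.map_zero] at hirr
    exact hirr.ne_zero rfl
  have hfF0 : f.map (algebraMap R F) ≠ 0 := (Polynomial.map_ne_zero_iff hinjR).mpr hf0
  -- the roots
  set B : Finset F := (f.map (algebraMap R F)).roots.toFinset with hB
  have hmemB : ∀ γ, γ ∈ B ↔ aeval γ f = 0 := by
    intro γ
    rw [hB, Multiset.mem_toFinset, mem_roots hfF0, IsRoot.def, eval_map_algebraMap]
  have hBsep : ∀ γ ∈ B, γ ∈ separableClosure K F := by
    intro γ hγ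
    rw [mem_separableClosure_iff]
    apply Separable.of_dvd hsep
    apply minpoly.dvd
    rw [aeval_map_algebraMap]
    exact (hmemB γ).mp hγ
  have hBint : ∀ γ ∈ B, IsIntegral R γ := fun γ hγ => integral_root hu ((hmemB γ).mp hγ)
  -- the roots of the products
  let T : Finset F := (B ×ˢ (B ×ˢ B)).biUnion fun p =>
    (nthRoots ℓ ((p.1 - p.2.1) * (p.2.2 - p.2.1) ^ (ℓ - 1))).toFinset
  obtain ⟨φ, M, hSM, hM⟩ := exists_frob_lift14 (κ := κ) π hπ ρ hρ 
    ((B ∪ T) ∪ (nthRoots 2 (-1 : F)).toFinset) (by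
    intro x hx
    rw [Finset.mem_union, Finset.mem_union] at hx
    rcases hx with (hx | hx) | hx
    · exact mem_separableClosure_iff.mp (hBsep x hx)
    · rw [Finset.mem_biUnion] at hx
      obtain ⟨⟨a, b, c⟩, hp, hw⟩ := hx
      rw [Finset.mem_product, Finset.mem_product] at hp
      obtain ⟨ha, hb, hc⟩ := hp
      rw [Multiset.mem_toFinset, mem_nthRoots hℓ.pos] at hw
      set y := (a - b) * (c - b) ^ (ℓ - 1) with hy
      change x ^ ℓ = y at hw
      have hxs : y ∈ separableClosure K F :=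
        mul_mem (sub_mem (hBsep a ha) (hBsep b hb))
          (pow_mem (sub_mem (hBsep c hc) (hBsep b hb)) _)
      by_cases hx0 : y = 0
      · have h3 : x = 0 := by
          rw [hx0] at hw
          exact pow_eq_zero_iff hℓ.ne_zero |>.mp hw
        rw [h3]
        exact mem_separableClosure_iff.mp (zero_mem _)
      · apply IsSeparable.of_algebra_isSeparable_of_isSeparable K (E := separableClosure K F)
        have h3 : (X ^ ℓ - C (⟨y, hxs⟩ : separableClosure K F)).Separable := by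
          apply separable_X_pow_sub_C
          · intro h4
            apply h2F
            have h5 := congrArg (algebraMap (separableClosure K F) F) h4
            rw [map_natCast, map_zero] at h5
            exact h5
          · intro h4
            exact hx0 (congrArg Subtype.val h4)
        apply Separable.of_dvd h3
        apply minpoly.dvd
        rw [map_sub, map_pow, aeval_X, aeval_C, hw]
        exact sub_self _
    · rw [Multiset.mem_toFinset, mem_nthRoots two_pos] at hx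
      by_cases h20 : (2 : K) = 0
      · have h3 : x = 1 := by
          have h20' : (2 : F) = 0 := by
            have := congrArg (algebraMap K F) h20
            rwa [map_ofNat, map_zero] at this
          have h4 : (x - 1) ^ 2 = 0 := by
            linear_combination hx + (-x) * h20'
          exact sub_eq_zero.mp (pow_eq_zero_iff two_ne_zero |>.mp h4)
        rw [h3]
        exact mem_separableClosure_iff.mp (one_mem _)
      · have h3 : (X ^ 2 - C (-1 : K)).Separable := by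
          apply separable_X_pow_sub_C
          · rw [Nat.cast_ofNat]
            exact h20
          · exact neg_ne_zero.mpr one_ne_zero
        apply Separable.of_dvd h3
        apply minpoly.dvd
        rw [map_sub, map_pow, aeval_X, aeval_C, hx, map_neg, map_one]
        exact sub_self _)
  have hMi : ∀ (i : ℕ) (x : F), x ∈ M → ∀ hx : IsIntegral R x, (φ ^ i) x ∈ M ∧
      ∃ hx' : IsIntegral R ((φ ^ i) x), ρ ⟨(φ ^ i) x, hx'⟩ = (frob8 κ Fκ ^ i) (ρ ⟨x, hx⟩) := by
    intro i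
    induction i with
    | zero => exact fun x hxM hx => ⟨hxM, hx, rfl⟩
    | succ i ih =>
      intro x hxM hx
      obtain ⟨h3, h4, h5⟩ := ih x hxM hx
      obtain ⟨h6, h7⟩ := hM _ h3
      obtain ⟨h8, h9⟩ := h7 h4
      have h10 : (φ ^ (i + 1)) x = φ ((φ ^ i) x) := by rw [pow_succ', AlgEquiv.mul_apply]
      refine ⟨by rw [h10]; exact h6, by rw [h10]; exact h8, ?_⟩
      have h11 : ρ ⟨(φ ^ (i + 1)) x, by rw [h10]; exact h8⟩ = ρ ⟨φ ((φ ^ i) x), h8⟩ := by
        congr 1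
        exact Subtype.ext h10
      rw [h11, h9, h5, pow_succ' (frob8 κ Fκ), AlgEquiv.mul_apply, frob8_apply,
        Nat.card_eq_fintype_card]
  have hβB : β ∈ B := (hmemB β).mpr hβ
  have hβM : β ∈ M := hSM β (Finset.mem_union_left _ (Finset.mem_union_left _ hβB))
  have hroot : ∀ i, (φ ^ i) β ∈ B := by
    intro i
    rw [hmemB]
    have h3 : aeval ((φ ^ i) β) (f.map (algebraMap R K)) = 0 := by
      rw [← AlgEquiv.coe_toAlgHom (φ ^ i), aeval_algHom_apply, aeval_map_algebraMap, hβ, map_zero]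
    rwa [aeval_map_algebraMap] at h3
  have hred : ∀ i, ρ ⟨(φ ^ i) β, hBint _ (hroot i)⟩ = (frob8 κ Fκ ^ i) β' := by
    intro i
    obtain ⟨-, h4, h5⟩ := hMi i β hβM hi
    rw [h5, hρβ]
  have hdegκ : (f.map π).natDegree = N := by
    rw [← hN]
    exact natDegree_map_of_leadingCoeff_ne_zero π (hu.map π).ne_zero
  have hmin : (minpoly κ β').natDegree = N := by
    rw [← minpoly.eq_of_irreducible hirr hβ', natDegree_mul_leadingCoeff_inv _ hirr.ne_zero, hdegκ]
  have hiff : ∀ i, (frob8 κ Fκ ^ i) β' = β' ↔ N ∣ i := fun i => by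
    rw [frob8_pow_eq_iff, hmin]
  have hBcard : B.card ≤ N := by
    rw [← hN, ← natDegree_map_eq_of_injective hinjR f]
    exact (Multiset.toFinset_card_le _).trans (card_roots' _)
  -- the orbit
  have horb : ∀ γ ∈ B, ∃ i < N, (φ ^ i) β = γ := by
    have h3 : ((Finset.range N).image fun i => (φ ^ i) β) = B := by
      apply Finset.eq_of_subset_of_card_le
      · intro γ hγ
        rw [Finset.mem_image] at hγ
        obtain ⟨i, -, rfl⟩ := hγ
        exact hroot i
      · rw [Finset.card_image_of_injOn, Finset.card_range]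
        · exact hBcard
        · intro a ha b hb hab
          have ha' := Finset.mem_range.mp ha
          have hb' := Finset.mem_range.mp hb
          have h4 : (frob8 κ Fκ ^ a) β' = (frob8 κ Fκ ^ b) β' := by
            rw [← hred, ← hred]
            congr 1
            exact Subtype.ext hab
          wlog hle : a ≤ b generalizing a b
          · exact (this hb ha hab.symm hb' ha' h4.symm (by omega)).symm
          have h5 : (frob8 κ Fκ ^ (b - a)) β' = β' := by
            apply (frob8 κ Fκ ^ a).injective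
            rw [← AlgEquiv.mul_apply, ← pow_add, Nat.add_sub_cancel' hle]
            exact h4.symm
          rw [hiff] at h5
          have := Nat.eq_zero_of_dvd_of_lt h5 (by omega)
          omega
    intro γ hγ
    rw [← h3, Finset.mem_image] at hγ
    obtain ⟨i, hi, hiγ⟩ := hγ
    exact ⟨i, Finset.mem_range.mp hi, hiγ⟩
  refine ⟨φ, β, hβ, fun γ hγ => ?_, fun i => ?_, fun h2κ ha x hx => ?_,
    fun i j hm w hw hwφ => ?_⟩
  · obtain ⟨i, -, hi⟩ := horb γ ((hmemB γ).mpr hγ)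
    exact ⟨i, hi⟩
  · have hper : (φ ^ N) β = β := by
      obtain ⟨i, hiN, hi'⟩ := horb _ (hroot N)
      have h3 : (frob8 κ Fκ ^ i) β' = (frob8 κ Fκ ^ N) β' := by
        rw [← hred, ← hred]
        congr 1
        exact Subtype.ext hi'
      rw [(hiff N).mpr dvd_rfl, hiff] at h3
      have h4 := Nat.eq_zero_of_dvd_of_lt h3 hiN
      rw [h4, pow_zero] at hi'
      exact hi'.symm
    constructor
    · intro h3
      rw [← hiff, ← hred, ← hρβ]
      congr 1
      exact Subtype.ext h3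
    · rintro ⟨m, rfl⟩
      induction m with
      | zero => rfl
      | succ m ih => rw [Nat.mul_succ, pow_add, AlgEquiv.mul_apply, hper, ih]
  · -- the square roots of `-1`
    obtain ⟨a, ha⟩ := ha
    have hxM : x ∈ M := by
      apply hSM
      apply Finset.mem_union_right
      rw [Multiset.mem_toFinset, mem_nthRoots two_pos]
      exact hx
    have hxi : IsIntegral R x := by
      apply IsIntegral.of_pow (n := 2) two_pos
      rw [hx]
      exact isIntegral_one.neg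
    obtain ⟨-, h6, h7⟩ := hMi 1 x hxM hxi
    simp only [pow_one] at h6 h7
    have h8 : (ρ ⟨x, hxi⟩) ^ 2 = -1 := by
      rw [← map_pow]
      have h9 : (⟨x, hxi⟩ : integralClosure R F) ^ 2 = -1 := Subtype.ext hx
      rw [h9, map_neg, map_one]
    have h10 : (ρ ⟨x, hxi⟩) ^ 2 = (algebraMap κ Fκ a) ^ 2 := by
      rw [h8, ← map_pow, ha, map_neg, map_one]
    have h11 : frob8 κ Fκ (ρ ⟨x, hxi⟩) = ρ ⟨x, hxi⟩ := by
      rcases sq_eq_sq_iff_eq_or_eq_neg.mp h10 with h12 | h12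
      · rw [h12]
        exact AlgEquiv.commutes _ _
      · rw [h12, map_neg, AlgEquiv.commutes]
    rw [h11] at h7
    have h13 : (φ x) ^ 2 = x ^ 2 := by
      rw [← map_pow, hx, map_neg, map_one]
    rcases sq_eq_sq_iff_eq_or_eq_neg.mp h13 with h14 | h14
    · exact h14
    · exfalso
      have h15 : (⟨φ x, h6⟩ : integralClosure R F) = -⟨x, hxi⟩ := Subtype.ext h14
      rw [h15, map_neg] at h7
      have h16 : (2 : Fκ) * ρ ⟨x, hxi⟩ = 0 := by linear_combination (-1 : Fκ) * h7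
      rcases mul_eq_zero.mp h16 with h17 | h17
      · apply h2κ
        have h18 : algebraMap κ Fκ 2 = 0 := by rw [map_ofNat]; exact h17
        exact (algebraMap κ Fκ).injective (h18.trans (map_zero _).symm)
      · rw [h17] at h8
        have h19 : (1 : Fκ) = 0 := by linear_combination h8
        exact one_ne_zero h19
  · -- the roots
    have h4 : w ∈ M := by
      apply hSM
      apply Finset.mem_union_left
      apply Finset.mem_union_right
      rw [Finset.mem_biUnion]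
      refine ⟨((φ ^ i) β, β, (φ ^ j) β), ?_, ?_⟩
      · rw [Finset.mem_product, Finset.mem_product]
        exact ⟨hroot i, hβB, hroot j⟩
      · rw [Multiset.mem_toFinset, mem_nthRoots hℓ.pos]
        exact hw
    have h5 : IsIntegral R w := by
      apply IsIntegral.of_pow (n := ℓ) hℓ.pos
      rw [hw]
      exact ((hBint _ (hroot i)).sub hi).mul (((hBint _ (hroot j)).sub hi).pow _)
    obtain ⟨-, h6, h7⟩ := hMi N _ h4 h5
    refine hm (ρ ⟨w, h5⟩) ?_ ?_
    · rw [← map_pow, ← hred i, ← hred j, ← hρβ, ← map_sub, ← map_sub, ← map_pow, ← map_mul]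
      congr 1
      exact Subtype.ext hw
    · rw [← h7]
      congr 1
      exact Subtype.ext hwφ

end Pool.Agent.Lib.MP_89bcae_ag.Tw

end

section

/-!
# The separation condition for a power of the automorphism
-/

open Polynomial Finset

namespace Pool.Agent.Lib.MP_89bcae_ag.Tw

open Pool.Agent.Lib.MP_89bcae_ag

universe u

lemma kap_eq_lam {F : Type u} [Field F] [IsAlgClosed F] {ℓ : ℕ} {ζ : F} (ψ : F ≃+* F)
    (hℓ : ℓ.Prime) (hζ : IsPrimitiveRoot ζ ℓ) (hψ : ψ ζ = ζ) {x : F} (hx0 : x ≠ 0)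
    (hx : ψ x = x) : Sup.kap ℓ ζ ψ x = lam ℓ ψ ζ x := by
  have : NeZero ℓ := ⟨hℓ.ne_zero⟩
  obtain ⟨w, hw⟩ := IsAlgClosed.exists_pow_nat_eq x hℓ.pos
  have h1 := Sup.kap_spec ψ hℓ hζ hψ hx0 hx hw
  have h2 := (lam_spec hℓ.pos hζ hx0 hx hw hψ _).2 h1
  rw [← h2, ZMod.natCast_zmod_val]

section

variable {k F : Type u} [Field k] [Field F] [Algebra k F] [IsAlgClosed F]
  {ℓ m j : ℕ} {φ : F ≃ₐ[k] F} {g D : k[X]} {α β : F}

/-- The last step. -/
theorem exists_power_of_lam (hℓ : ℓ.Prime) (hm : m.Prime) (ho : Orb φ g D m (m ^ j) α β) {ζ : k}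
    (hζ : IsPrimitiveRoot ζ ℓ) (u : ℕ) (hu : ¬ m ^ j ∣ u)
    (hT10 : lam ℓ ((φ ^ (m * m ^ j) : F ≃ₐ[k] F) : F ≃+* F) (algebraMap k F ζ)
        (β - ee φ β (u : ZMod (m * m ^ j))) =
      lam ℓ ((φ ^ (m * m ^ j) : F ≃ₐ[k] F) : F ≃+* F) (algebraMap k F ζ)
        (β - ee φ β ((u : ZMod (m * m ^ j)) + ((m ^ j : ℕ) : ZMod (m * m ^ j))))) :
    ∃ w : F, w ^ ℓ = ((φ ^ u) β - β) * ((φ ^ (u + m ^ j)) β - β) ^ (ℓ - 1) ∧
      (φ ^ (m * m ^ j)) w = w := by
  classical
  have : Fact ℓ.Prime := ⟨hℓ⟩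
  have hmpos : 0 < m := hm.pos
  have hnpos : 0 < m ^ j := pow_pos hmpos j
  have : NeZero (m * m ^ j) := ⟨(Nat.mul_pos hmpos hnpos).ne'⟩
  have hℓ0 : 0 < ℓ := hℓ.pos
  set ψ : F ≃+* F := ((φ ^ (m * m ^ j) : F ≃ₐ[k] F) : F ≃+* F) with hψdef
  have hψ : ∀ x, ψ x = (φ ^ (m * m ^ j)) x := fun _ => rfl
  set z : F := algebraMap k F ζ with hz
  have hzprim : IsPrimitiveRoot z ℓ := hζ.map_of_injective (algebraMap k F).injective
  have hψz : ψ z = z := AlgEquiv.commutes _ _
  have hψee : ∀ v : ZMod (m * m ^ j), ψ (ee φ β v) = ee φ β v := fun v => ho.pow_ee v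
  have hβ : ee φ β (0 : ZMod (m * m ^ j)) = β := Orb.ee_zero φ _ β
  have hψβ : ψ β = β := by rw [← hβ]; exact hψee 0
  set pr := ZMod.castHom (dvd_mul_left (m ^ j) m) (ZMod (m ^ j)) with hpr
  have hs0 : ∀ s : ZMod (m * m ^ j), pr s ≠ 0 → s ≠ 0 := by
    intro s hs h0
    rw [h0, map_zero] at hs
    exact hs rfl
  have hnb : ∀ v : ZMod (m * m ^ j), pr v ≠ 0 → β - ee φ β v ≠ 0 := by
    intro v hv h0
    exact hs0 v hv (ho.ee_injective (hβ.trans (sub_eq_zero.1 h0))).symm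
  set s : ZMod (m * m ^ j) := (u : ZMod (m * m ^ j)) with hs
  have hprs : pr s ≠ 0 := by
    rw [hs, map_natCast, Ne, ZMod.natCast_eq_zero_iff]
    exact hu
  have hprs' : pr (s + ((m ^ j : ℕ) : ZMod (m * m ^ j))) ≠ 0 := by
    have h5 : pr ((m ^ j : ℕ) : ZMod (m * m ^ j)) = 0 := by
      rw [map_natCast, ZMod.natCast_self]
    rw [map_add, h5, add_zero]
    exact hprs
  have hX : (φ ^ u) β = ee φ β s := (ho.ee_natCast u).symm
  have hY : (φ ^ (u + m ^ j)) β = ee φ β (s + ((m ^ j : ℕ) : ZMod (m * m ^ j))) := by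
    rw [← ho.ee_natCast (u + m ^ j), Nat.cast_add]
  rw [hX, hY]
  have hm1 : ψ (-1) = -1 := by rw [map_neg, map_one]
  have hm10 : (-1 : F) ≠ 0 := neg_ne_zero.2 one_ne_zero
  have hψb : ∀ v : ZMod (m * m ^ j), ψ (β - ee φ β v) = β - ee φ β v := by
    intro v
    rw [map_sub, hψβ, hψee]
  have hneg : ∀ v : ZMod (m * m ^ j), ee φ β v - β = -1 * (β - ee φ β v) := by
    intro v; ring
  have hlneg : ∀ v : ZMod (m * m ^ j), pr v ≠ 0 →
      lam ℓ ψ z (ee φ β v - β) = lam ℓ ψ z (-1) + lam ℓ ψ z (β - ee φ β v) := by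
    intro v hv
    rw [hneg, lam_mul hℓ0 hzprim hψz hm10 hm1 (hnb v hv) (hψb v)]
  have hne1 : ∀ v : ZMod (m * m ^ j), pr v ≠ 0 → ee φ β v - β ≠ 0 := by
    intro v hv
    rw [hneg]
    exact mul_ne_zero hm10 (hnb v hv)
  have hψ1 : ∀ v : ZMod (m * m ^ j), ψ (ee φ β v - β) = ee φ β v - β := by
    intro v
    rw [map_sub, hψβ, hψee]
  have hψpow : ψ ((ee φ β (s + ((m ^ j : ℕ) : ZMod (m * m ^ j))) - β) ^ (ℓ - 1)) =
      (ee φ β (s + ((m ^ j : ℕ) : ZMod (m * m ^ j))) - β) ^ (ℓ - 1) := by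
    rw [map_pow, hψ1]
  have hnepow : (ee φ β (s + ((m ^ j : ℕ) : ZMod (m * m ^ j))) - β) ^ (ℓ - 1) ≠ 0 :=
    pow_ne_zero _ (hne1 _ hprs')
  have hlampow : lam ℓ ψ z ((ee φ β (s + ((m ^ j : ℕ) : ZMod (m * m ^ j))) - β) ^ (ℓ - 1)) =
      - lam ℓ ψ z (ee φ β (s + ((m ^ j : ℕ) : ZMod (m * m ^ j))) - β) := by
    rw [← zpow_natCast, lam_zpow hℓ0 hzprim hψz (hne1 _ hprs') (hψ1 _)]
    have h4 : (((ℓ - 1 : ℕ) : ℤ) : ZMod ℓ) = -1 := by
      rw [Int.cast_natCast, Nat.cast_sub hℓ.one_lt.le, Nat.cast_one, ZMod.natCast_self, zero_sub]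
    rw [h4, neg_one_mul]
  have htot : lam ℓ ψ z ((ee φ β s - β) *
      (ee φ β (s + ((m ^ j : ℕ) : ZMod (m * m ^ j))) - β) ^ (ℓ - 1)) = 0 := by
    rw [lam_mul hℓ0 hzprim hψz (hne1 s hprs) (hψ1 s) hnepow hψpow, hlampow, hlneg s hprs,
      hlneg _ hprs', hT10]
    ring
  obtain ⟨w, hw1, hw2⟩ := (lam_eq_zero_iff hℓ0 hzprim hψz (mul_ne_zero (hne1 s hprs) hnepow)
    (by rw [map_mul, hψ1, hψpow])).1 htot
  exact ⟨w, hw1, hw2⟩

theorem exists_power_of_not_sepU (hℓ : ℓ.Prime) (hm : m.Prime) (hmℓ : (m : ZMod ℓ) ≠ 0)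
    (hirr : Irreducible (cyclotomic (m ^ (j + 1)) (ZMod ℓ)))
    (ho : Orb φ g D m (m ^ j) α β) {ζ : k} (hζ : IsPrimitiveRoot ζ ℓ) (μ : ZMod ℓ)
    (hS : ¬ Sup.SepU g D (Sup.kap ℓ (algebraMap k F ζ) (φ ^ (m * m ^ j) : F ≃ₐ[k] F)) μ
      (Set.univ : Set F)) (u : ℕ) (hu : ¬ m ^ j ∣ u) :
    ∃ w : F, w ^ ℓ = ((φ ^ u) β - β) * ((φ ^ (u + m ^ j)) β - β) ^ (ℓ - 1) ∧
      (φ ^ (m * m ^ j)) w = w := by
  classical
  have : Fact ℓ.Prime := ⟨hℓ⟩
  have hmpos : 0 < m := hm.pos
  have hnpos : 0 < m ^ j := pow_pos hmpos j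
  have : NeZero (m * m ^ j) := ⟨(Nat.mul_pos hmpos hnpos).ne'⟩
  have hℓ0 : 0 < ℓ := hℓ.pos
  set ψ : F ≃+* F := ((φ ^ (m * m ^ j) : F ≃ₐ[k] F) : F ≃+* F) with hψdef
  have hψ : ∀ x, ψ x = (φ ^ (m * m ^ j)) x := fun _ => rfl
  set z : F := algebraMap k F ζ with hz
  have hzprim : IsPrimitiveRoot z ℓ := hζ.map_of_injective (algebraMap k F).injective
  have hψz : ψ z = z := AlgEquiv.commutes _ _
  have hψee : ∀ v : ZMod (m * m ^ j), ψ (ee φ β v) = ee φ β v := fun v => ho.pow_ee v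
  have hβ : ee φ β (0 : ZMod (m * m ^ j)) = β := Orb.ee_zero φ _ β
  have hψβ : ψ β = β := by rw [← hβ]; exact hψee 0
  have hkapψ : Sup.kap ℓ z (φ ^ (m * m ^ j) : F ≃ₐ[k] F) = Sup.kap ℓ z ψ := rfl
  rw [hkapψ] at hS
  -- the roots
  have hRR : Sup.RR F g D = univ.image (ee φ β : ZMod (m * m ^ j) → F) := by
    ext x
    rw [Sup.RR, Multiset.mem_toFinset, mem_roots
      ((Polynomial.map_ne_zero_iff (algebraMap k F).injective).2 ho.comp_ne), IsRoot.def,
      eval_map_algebraMap, Finset.mem_image]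
    constructor
    · intro hx
      obtain ⟨v, hv⟩ := ho.ee_surj hx
      exact ⟨v, mem_univ _, hv⟩
    · rintro ⟨v, -, rfl⟩
      exact ho.ee_root v
  have hsumRR : ∀ (P : F → Prop) [DecidablePred P] (f : F → ZMod ℓ) (i : ZMod (m * m ^ j)),
      ∑ β' ∈ (Sup.RR F g D).filter P, f β' =
        ∑ s : ZMod (m * m ^ j), if P (ee φ β (i + s)) then f (ee φ β (i + s)) else 0 := by
    intro P _ f i
    rw [Finset.sum_filter, hRR, Finset.sum_image fun a _ b _ h => ho.ee_injective h]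
    exact (Equiv.sum_comp (Equiv.addLeft i)
      (fun v : ZMod (m * m ^ j) => if P (ee φ β v) then f (ee φ β v) else 0)).symm
  set pr := ZMod.castHom (dvd_mul_left (m ^ j) m) (ZMod (m ^ j)) with hpr
  have hgee : ∀ i s : ZMod (m * m ^ j),
      (aeval (ee φ β (i + s)) g = aeval (ee φ β i) g) ↔ pr s = 0 := by
    intro i s
    rw [ho.g_ee_eq_iff, add_sub_cancel_left]
  -- the negation of the separation condition
  rw [Sup.SepU] at hS
  push Not at hS
  obtain ⟨e, n, cst, hsumE, heq, b₁, hb₁, -, hb₁e⟩ := hS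
  set e' : ZMod (m * m ^ j) → ZMod ℓ := fun v => e (ee φ β v) with he'
  have hmemee : ∀ v : ZMod (m * m ^ j), ee φ β v ∈ Sup.RR F g D := by
    intro v
    rw [hRR]
    exact mem_image_of_mem _ (mem_univ _)
  have he'0 : e' ≠ 0 := by
    intro h0
    rw [hRR, Finset.mem_image] at hb₁
    obtain ⟨v, -, rfl⟩ := hb₁
    exact hb₁e (congrFun h0 v)
  -- the fibre sums
  have hsum : ∀ i : ZMod (m * m ^ j), ∑ t ∈ range m, e' (i + (m ^ j * t : ℕ)) = 0 := by
    intro i
    have h1 := hsumE (ee φ β i) (hmemee i)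
    rw [hsumRR _ _ i] at h1
    rw [← h1]
    simp only [hgee]
    rw [← Finset.sum_filter]
    have h2 : univ.filter (fun s : ZMod (m * m ^ j) => pr s = 0) =
        (range m).image (fun t : ℕ => ((m ^ j * t : ℕ) : ZMod (m * m ^ j))) := by
      ext s
      rw [mem_filter, hpr, t12_ker, Finset.mem_image]
      constructor
      · rintro ⟨-, t, ht, h⟩
        exact ⟨t, ht, h⟩
      · rintro ⟨t, ht, h⟩
        exact ⟨mem_univ _, t, ht, h⟩
    rw [h2, Finset.sum_image]
    intro t ht t' ht' htt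
    rw [mem_coe, mem_range] at ht ht'
    exact t12_inj hnpos ht ht' htt
  -- the symbol
  have hne : ∀ {v v' : ZMod (m * m ^ j)}, v ≠ v' → ee φ β v - ee φ β v' ≠ 0 := by
    intro v v' hvv h0
    exact hvv (ho.ee_injective (sub_eq_zero.1 h0))
  have hψsub : ∀ v v' : ZMod (m * m ^ j), ψ (ee φ β v - ee φ β v') = ee φ β v - ee φ β v' := by
    intro v v'
    rw [map_sub, hψee, hψee]
  have hlam : ∀ i s : ZMod (m * m ^ j), s ≠ 0 →
      Sup.kap ℓ z ψ (ee φ β i - ee φ β (i + s)) = lam ℓ ψ z (β - ee φ β s) := by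
    intro i s hs
    have h1 : ee φ β i - ee φ β (i + s) = (φ ^ i.val) (β - ee φ β s) := by
      rw [add_comm i s, ho.ee_add s i, map_sub]
      congr 1
    have h2 : β - ee φ β s ≠ 0 := by
      have := hne (v := 0) (v' := s) hs.symm
      rwa [hβ] at this
    have h3 : ψ (β - ee φ β s) = β - ee φ β s := by rw [map_sub, hψβ, hψee]
    have h4 : ee φ β i - ee φ β (i + s) ≠ 0 := by
      rw [h1]
      exact (map_ne_zero_iff _ (φ ^ i.val).injective).2 h2
    rw [kap_eq_lam ψ hℓ hzprim hψz h4 (hψsub _ _), h1]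
    exact lam_apply hℓ0 hzprim hψz ((φ ^ i.val : F ≃ₐ[k] F) : F ≃+* F) (AlgEquiv.commutes _ _)
      (fun x => by
        change (φ ^ i.val) ((φ ^ (m * m ^ j)) x) = (φ ^ (m * m ^ j)) ((φ ^ i.val) x)
        rw [← AlgEquiv.mul_apply, ← AlgEquiv.mul_apply, ← pow_add, ← pow_add, add_comm]) h2 h3
  set r : ZMod (m * m ^ j) → ZMod ℓ := fun s =>
    if pr s = 0 then μ * lam ℓ ψ z (β - ee φ β s) else lam ℓ ψ z (β - ee φ β s) with hr
  set cst' : ZMod (m * m ^ j) → ZMod ℓ := fun i => cst (aeval (ee φ β i) g) with hcst'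
  have hcst : ∀ i, cst' (i + (m ^ j : ℕ)) = cst' i := by
    intro i
    have h1 : aeval (ee φ β (i + ((m ^ j : ℕ) : ZMod (m * m ^ j)))) g = aeval (ee φ β i) g := by
      rw [hgee, map_natCast, ZMod.natCast_self]
    simp only [hcst', h1]
  have heig : ∀ i, ∑ s, r s * (e' i - e' (i + s)) = (-n) * e' i + cst' i := by
    intro i
    have h1 := heq (ee φ β i) (hmemee i) (Set.mem_univ _)
    rw [Sup.sumO, Sup.sumS, hsumRR _ _ i, hsumRR _ _ i, Finset.mul_sum, ← Finset.sum_add_distrib]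
      at h1
    have h2 : ∀ s ∈ (univ : Finset (ZMod (m * m ^ j))), r s * (e' i - e' (i + s)) =
        (if aeval (ee φ β (i + s)) g ≠ aeval (ee φ β i) g then
          Sup.kap ℓ z ψ (ee φ β i - ee φ β (i + s)) * (e (ee φ β i) - e (ee φ β (i + s))) else 0) +
        μ * (if aeval (ee φ β (i + s)) g = aeval (ee φ β i) g then
          Sup.kap ℓ z ψ (ee φ β i - ee φ β (i + s)) * (e (ee φ β i) - e (ee φ β (i + s)))
            else 0) := by
      intro s _
      simp only [he', hr, hgee, ne_eq]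
      by_cases h0 : s = 0
      · subst h0
        rw [add_zero, sub_self]
        simp
      · rw [hlam i s h0]
        by_cases h3 : pr s = 0
        · simp only [h3, not_true_eq_false, if_false, if_pos, zero_add]
          ring
        · simp only [h3, not_false_eq_true, if_false, if_true, mul_zero, add_zero]
    rw [Finset.sum_congr rfl h2]
    linear_combination h1
  have hT10 := scalar_of_eigenvector_cst hm hmℓ hirr r (-n) e' he'0 hsum cst' hcst heig
  -- the conclusion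
  have hprs : pr (u : ZMod (m * m ^ j)) ≠ 0 := by
    rw [map_natCast, Ne, ZMod.natCast_eq_zero_iff]
    exact hu
  have hprs' : pr ((u : ZMod (m * m ^ j)) + ((m ^ j : ℕ) : ZMod (m * m ^ j))) ≠ 0 := by
    have h5 : pr ((m ^ j : ℕ) : ZMod (m * m ^ j)) = 0 := by
      rw [map_natCast, ZMod.natCast_self]
    rw [map_add, h5, add_zero]
    exact hprs
  have h6 := hT10 u hprs
  simp only [hr, if_neg hprs, if_neg hprs'] at h6
  exact exists_power_of_lam hℓ hm ho hζ u hu h6

end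

end Pool.Agent.Lib.MP_89bcae_ag.Tw

end

section

/-!
# The criterion for all towers from the reduction modulo a maximal ideal
-/

open Polynomial

namespace Pool.Agent.Lib.MP_89bcae_ag.Tw

open Pool.Agent.Lib.MP_89bcae_ag

universe u

set_option linter.unusedSectionVars false
set_option linter.style.haveILetI false

lemma u15_fix_pow {k F : Type*} [Field k] [Field F] [Algebra k F] (φ : F ≃ₐ[k] F) {x : F}
    (h : φ x = x) (n : ℕ) : (φ ^ n) x = x := by
  induction n with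
  | zero => rfl
  | succ n ih => rw [pow_succ, AlgEquiv.mul_apply, h, ih]

theorem crall_of_spec_unit {R κ : Type u} [CommRing R] [IsDomain R] [IsIntegrallyClosed R]
    [Field κ] [Fintype κ] {ℓ m j : ℕ} (hℓ : ℓ.Prime) (hm : m.Prime) (hm2 : m ≠ 2)
    (hgen : orderOf (ℓ : ZMod (m ^ 2)) = m * (m - 1)) (hq : ℓ ∣ Fintype.card κ - 1)
    (hneg : ∃ a : κ, a ^ ℓ = -1)
    {π : R →+* κ} (hπ : Function.Surjective π) {g D : R[X]} (hg : g.Monic)
    (hdeg : g.natDegree = m) (hDu : IsUnit D.leadingCoeff) (hD : D.natDegree = m ^ j)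
    (hfam : D.map π ∈ family (g.map π) (m ^ j))
    (hexc : D.map π ∉ Superelliptic.exceptional ℓ (g.map π) (m ^ j))
    (K F : Type u) [Field K] [Algebra R K] [IsFractionRing R K] [Field F] [Algebra K F]
    [IsAlgClosure K F] {ζ : K} (hζ : IsPrimitiveRoot ζ ℓ) :
    ((D.map (algebraMap R K)).comp (g.map (algebraMap R K))).Separable ∧
      ∃ U : F ≃ₐ[K] F,
        Sup.CRall ℓ (g.map (algebraMap R K)) (D.map (algebraMap R K)) ζ U Set.univ := by
  haveI hF : IsAlgClosed F := IsAlgClosure.isAlgClosed K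
  haveI hkF : Algebra.IsAlgebraic K F := IsAlgClosure.isAlgebraic
  letI : Algebra R F := ((algebraMap K F).comp (algebraMap R K)).toAlgebra
  haveI : IsScalarTower R K F := IsScalarTower.of_algebraMap_eq fun _ => rfl
  have hgd : (g.map π).natDegree = m := by rw [hg.natDegree_map, hdeg]
  have hn0 : 0 < m ^ j := pow_pos hm.pos j
  have hℓκ : (ℓ : κ) ≠ 0 := t15_ne_zero hq
  have hcop : m.Coprime ℓ := ne_of_orderOf hℓ hm hgen
  have hirrC := cyclotomic_irreducible hℓ hm hm2 hgen j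
  obtain ⟨β', hβ'⟩ : ∃ β' : AlgebraicClosure κ, aeval β' ((D.map π).comp (g.map π)) = 0 := by
    apply IsAlgClosed.exists_aeval_eq_zero
    intro h0
    have h1 := natDegree_eq_of_degree_eq_some (n := 0) (by rw [h0]; rfl)
    rw [natDegree_comp, hfam.2.1, hgd] at h1
    exact (Nat.mul_pos hn0 hm.pos).ne' h1
  obtain ⟨u, hu, hw⟩ := exists_moves (F := AlgebraicClosure κ) hℓ hm.pos hcop hn0 hq (hg.map π)
    hgd hfam hexc hβ'
  have hfu : IsUnit (D.comp g).leadingCoeff := by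
    rw [leadingCoeff_comp (by rw [hdeg]; exact hm.pos.ne'), hg.leadingCoeff, one_pow, mul_one]
    exact hDu
  have hfN : (D.comp g).natDegree = m * m ^ j := by
    rw [natDegree_comp, hD, hdeg, mul_comm]
  have hcomp : (D.comp g).map π = (D.map π).comp (g.map π) := Polynomial.map_comp _ _ _
  obtain ⟨φ, β, h1, h3, h4, h7, h5⟩ := frob_spec2 (K := K) (F := F) hπ hℓ hℓκ hfu hfN
    (by rw [hcomp]; exact hfam.2.2) (Fκ := AlgebraicClosure κ) (β' := β')
    (by rw [hcomp]; exact hβ')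
  have h6 := h5 u (u + m ^ j) hw
  have hmap : (D.map (algebraMap R K)).comp (g.map (algebraMap R K)) =
      (D.comp g).map (algebraMap R K) := (Polynomial.map_comp _ _ _).symm
  have hroot : ∀ γ : F, aeval γ ((D.map (algebraMap R K)).comp (g.map (algebraMap R K))) =
      aeval γ (D.comp g) := by
    intro γ
    rw [hmap, aeval_map_algebraMap]
  have ho : Orb φ (g.map (algebraMap R K)) (D.map (algebraMap R K)) m (m ^ j)
      (aeval β (g.map (algebraMap R K))) β := by
    refine ⟨hg.map _, by rw [hg.natDegree_map, hdeg], hm.pos, hn0, ?_, rfl, ?_, ?_, h4⟩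
    · rw [natDegree_map_eq_of_injective (IsFractionRing.injective R K), hD]
    · rw [← aeval_comp, hroot, h1]
    · intro γ hγ
      rw [hroot] at hγ
      obtain ⟨i, hi⟩ := h3 γ hγ
      exact ⟨i, hi.symm⟩
  have hmℓ : (m : ZMod ℓ) ≠ 0 := by
    intro h0
    rw [ZMod.natCast_eq_zero_iff] at h0
    have h8 := Nat.eq_one_of_dvd_coprimes hcop.symm dvd_rfl h0
    exact hℓ.one_lt.ne' h8
  refine ⟨ho.separable, φ ^ (m * m ^ j), ?_, ?_, ?_⟩
  · classical
    intro β₁ hβ₁
    have h8 : aeval β₁ ((D.map (algebraMap R K)).comp (g.map (algebraMap R K))) = 0 := by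
      rw [Sup.RR, Multiset.mem_toFinset, mem_roots
        ((Polynomial.map_ne_zero_iff (algebraMap K F).injective).2 ho.comp_ne), IsRoot.def,
        eval_map_algebraMap] at hβ₁
      exact hβ₁
    obtain ⟨v, rfl⟩ := ho.ee_surj h8
    exact ho.pow_ee v
  · intro x hx
    apply u15_fix_pow
    rcases hℓ.eq_two_or_odd' with h2 | hodd
    · rw [h2] at hx hℓκ hneg
      exact h7 (by exact_mod_cast hℓκ) hneg x hx
    · have h8 : (-x) ^ ℓ = 1 := by rw [hodd.neg_pow, hx, neg_neg]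
      haveI : NeZero ℓ := ⟨hℓ.ne_zero⟩
      have hz : IsPrimitiveRoot (algebraMap K F ζ) ℓ :=
        hζ.map_of_injective (algebraMap K F).injective
      obtain ⟨i, -, hi⟩ := hz.eq_pow_of_pow_eq_one h8
      have h9 : x = -(algebraMap K F ζ ^ i) := by rw [hi, neg_neg]
      rw [h9, map_neg, map_pow, AlgEquiv.commutes]
  · intro μ
    by_contra hS
    obtain ⟨w, hw1, hw2⟩ := exists_power_of_not_sepU hℓ hm hmℓ hirrC ho hζ μ hS u hu
    exact h6 w hw1 hw2

theorem crall_of_spec {R κ : Type u} [CommRing R] [IsDomain R] [IsIntegrallyClosed R]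
    [Field κ] [Fintype κ] {ℓ m j : ℕ} (hℓ : ℓ.Prime) (hm : m.Prime) (hm2 : m ≠ 2)
    (hgen : orderOf (ℓ : ZMod (m ^ 2)) = m * (m - 1)) (hq : ℓ ∣ Fintype.card κ - 1)
    (hneg : ∃ a : κ, a ^ ℓ = -1)
    {π : R →+* κ} (hπ : Function.Surjective π) {g D : R[X]} (hg : g.Monic)
    (hdeg : g.natDegree = m) (hD : D.natDegree = m ^ j)
    (hfam : D.map π ∈ family (g.map π) (m ^ j))
    (hexc : D.map π ∉ Superelliptic.exceptional ℓ (g.map π) (m ^ j))
    (K F : Type u) [Field K] [Algebra R K] [IsFractionRing R K] [Field F] [Algebra K F]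
    [IsAlgClosure K F] {ζ : K} (hζ : IsPrimitiveRoot ζ ℓ) :
    ((D.map (algebraMap R K)).comp (g.map (algebraMap R K))).Separable ∧
      ∃ U : F ≃ₐ[K] F,
        Sup.CRall ℓ (g.map (algebraMap R K)) (D.map (algebraMap R K)) ζ U Set.univ := by
  let p : Ideal R := RingHom.ker π
  have hp : p.IsPrime := RingHom.ker_isPrime π
  let S := Localization.AtPrime p
  have hM : p.primeCompl ≤ nonZeroDivisors R := p.primeCompl_le_nonZeroDivisors
  haveI : IsDomain S := IsLocalization.isDomain_localization hM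
  haveI : IsIntegrallyClosed S := isIntegrallyClosed_of_isLocalization S p.primeCompl hM
  have hK : ∀ y : p.primeCompl, IsUnit (algebraMap R K y) := by
    intro y
    rw [isUnit_iff_ne_zero]
    intro h0
    have h1 : (y : R) = 0 := IsFractionRing.injective R K (h0.trans (map_zero _).symm)
    exact y.2 (by rw [h1]; exact p.zero_mem)
  let iK : S →+* K := IsLocalization.lift (M := p.primeCompl) hK
  have hiK : ∀ x : R, iK (algebraMap R S x) = algebraMap R K x := fun x =>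
    IsLocalization.lift_eq hK x
  letI : Algebra S K := iK.toAlgebra
  haveI : IsScalarTower R S K := IsScalarTower.of_algebraMap_eq fun x => (hiK x).symm
  haveI : IsFractionRing S K :=
    IsFractionRing.isFractionRing_of_isDomain_of_isLocalization p.primeCompl S K
  have hκ : ∀ y : p.primeCompl, IsUnit (π y) := by
    intro y
    rw [isUnit_iff_ne_zero]
    exact fun h0 => y.2 h0
  let πS : S →+* κ := IsLocalization.lift (M := p.primeCompl) hκ
  have hπS : ∀ x : R, πS (algebraMap R S x) = π x := fun x => IsLocalization.lift_eq hκ x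
  have hsurj : Function.Surjective πS := by
    intro y
    obtain ⟨x, rfl⟩ := hπ y
    exact ⟨algebraMap R S x, hπS x⟩
  have hcompκ : πS.comp (algebraMap R S) = π := RingHom.ext hπS
  have hcompK : (algebraMap S K).comp (algebraMap R S) = algebraMap R K := RingHom.ext hiK
  have hinj : Function.Injective (algebraMap R S) := IsLocalization.injective S hM
  have hlc : π D.leadingCoeff ≠ 0 := by
    intro h0
    have h1 : (D.map π).natDegree < m ^ j := by
      rw [← hD]
      apply natDegree_map_lt' h0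
      rw [hD]
      exact pow_pos hm.pos j
    rw [hfam.2.1] at h1
    exact lt_irrefl _ h1
  have hDu : IsUnit (D.map (algebraMap R S)).leadingCoeff := by
    rw [leadingCoeff_map_of_injective hinj]
    exact IsLocalization.map_units S (⟨D.leadingCoeff, hlc⟩ : p.primeCompl)
  have hg' : (g.map (algebraMap R S)).map πS = g.map π := by rw [Polynomial.map_map, hcompκ]
  have hD' : (D.map (algebraMap R S)).map πS = D.map π := by rw [Polynomial.map_map, hcompκ]
  have hgK : (g.map (algebraMap R S)).map (algebraMap S K) = g.map (algebraMap R K) := by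
    rw [Polynomial.map_map, hcompK]
  have hDK : (D.map (algebraMap R S)).map (algebraMap S K) = D.map (algebraMap R K) := by
    rw [Polynomial.map_map, hcompK]
  have h := crall_of_spec_unit hℓ hm hm2 hgen hq hneg hsurj (g := g.map (algebraMap R S))
    (D := D.map (algebraMap R S)) (hg.map _) (by rw [hg.natDegree_map, hdeg]) hDu
    (by rw [natDegree_map_eq_of_injective hinj, hD]) (by rw [hg', hD']; exact hfam)
    (by rw [hg', hD']; exact hexc) K F hζ
  rw [hgK, hDK] at h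
  exact h

end Pool.Agent.Lib.MP_89bcae_ag.Tw

end

end
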