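import Mathlib
import Pool.Agent.Lib.MP_89bcae_ag.Tk.K033
import Pool.Agent.Lib.MP_89bcae_ag.Tk.K052
import Pool.Agent.Lib.MP_89bcae_ag.Tk.K034
import Pool.Agent.Lib.MP_89bcae_ag.Tk.K000

set_option linter.all false
attribute [local instance 100000] Pool.Agent.Lib.MP_89bcae_ag.Brt.tffFields
attribute [local instance 100000] Pool.Agent.Lib.MP_89bcae_ag.Wt.ifrNF Pool.Agent.Lib.MP_89bcae_ag.Wt.iddNF

namespace Pool.Agent.Lib.MP_89bcae_ag.Bra
end Pool.Agent.Lib.MP_89bcae_ag.Bra
namespace Pool.Agent.Lib.MP_89bcae_ag.Sup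
end Pool.Agent.Lib.MP_89bcae_ag.Sup
namespace Pool.Agent.Lib.MP_89bcae_ag.Wt
end Pool.Agent.Lib.MP_89bcae_ag.Wt
namespace Pool.Agent.Lib.MP_89bcae_ag.Wt.Lns
end Pool.Agent.Lib.MP_89bcae_ag.Wt.Lns
namespace Pool.Agent.Lib.MP_89bcae_ag.Wt.Lns.LocCtx
end Pool.Agent.Lib.MP_89bcae_ag.Wt.Lns.LocCtx

section

/-!
# The Picard group of the affine coordinate ring of the generic fibre
-/

open Polynomial IsDedekindDomain IsLocalRing FractionalIdeal

open scoped Classical nonZeroDivisors

namespace Pool.Agent.Lib.MP_89bcae_ag.Brt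

open Pool.Agent.Lib.MP_89bcae_ag.Wt Pool.Agent.Lib.MP_89bcae_ag.Wt.Lns Pool.Agent.Lib.MP_89bcae_ag.Bra

section

variable {K S : Type} [Field K] [Field S] [Algebra K S]
  {L Ω : Type} [Field L] [Field Ω] [Algebra L Ω] {ℓ : ℕ} {f : L[X]}
  {F : Type} [Field F] [Algebra F K] [Algebra F[X] L]
  {i : L →+* K} [IsAlgClosed F] [IsAlgClosure K S] [IsAlgClosure L Ω]
  [hG : IsGood ℓ (f.map (algebraMap L Ω))] {x y : K}
  {Φ : FunField ℓ (f.map (algebraMap L Ω)) →+* S}
  {κ : K →+* FunField ℓ (f.map (algebraMap L Ω))}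

lemma kappa_Rx (hΦ : IsModel F i x y Φ) (hκ : ∀ z, Φ (κ z) = algebraMap K S z)
    {E : IntermediateField F K} (hE : ∀ c ∈ E, ∃ l : L, i l = c) (r : K)
    (hr : r ∈ Rx E x) : ∃ p : L[X], κ r = polyF (p.map (algebraMap L Ω)) := by
  induction hr using Algebra.adjoin_induction with
  | mem w hw =>
    rw [Set.mem_singleton_iff] at hw
    exact ⟨X, by rw [hw, kappa_x hΦ hκ, Polynomial.map_X]⟩
  | algebraMap c =>
    obtain ⟨l, hl⟩ := hE c c.2
    exact ⟨C l, by
      rw [Polynomial.map_C]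
      have h1 := kappa_base hΦ hκ l
      rw [hl] at h1
      exact h1⟩
  | add a b _ _ ha hb =>
    obtain ⟨p, hp⟩ := ha
    obtain ⟨q, hq⟩ := hb
    exact ⟨p + q, by rw [map_add, hp, hq, Polynomial.map_add, map_add]⟩
  | mul a b _ _ ha hb =>
    obtain ⟨p, hp⟩ := ha
    obtain ⟨q, hq⟩ := hb
    exact ⟨p * q, by rw [map_mul, hp, hq, Polynomial.map_mul, map_mul]⟩

lemma exists_Rx (hΦ : IsModel F i x y Φ) (hκ : ∀ z, Φ (κ z) = algebraMap K S z)
    {E : IntermediateField F K} (hE : ∀ l : L, i l ∈ E) (p : L[X]) :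
    ∃ r ∈ Rx E x, κ r = polyF (p.map (algebraMap L Ω)) := by
  have hx : x ∈ Rx E x := Algebra.subset_adjoin (Set.mem_singleton x)
  induction p using Polynomial.induction_on' with
  | add p q hp hq =>
    obtain ⟨a, ha, hp⟩ := hp
    obtain ⟨b, hb, hq⟩ := hq
    exact ⟨a + b, add_mem ha hb, by
      rw [map_add, hp, hq, Polynomial.map_add, map_add]⟩
  | monomial n l =>
    have hc' : i l ∈ Rx E x :=
      Subalgebra.algebraMap_mem (Rx E x) (⟨i l, hE l⟩ : E)
    have hxn : x ^ n ∈ Rx E x := pow_mem hx n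
    refine ⟨i l * x ^ n, mul_mem hc' hxn, ?_⟩
    rw [map_mul, map_pow, kappa_base hΦ hκ, kappa_x hΦ hκ, Polynomial.map_monomial,
      ← C_mul_X_pow_eq_monomial, map_mul, map_pow]
    rfl

/-- The Picard group of the integral closure of a ring `R` which corresponds to `L[X]`. -/
theorem pic_R {m₀ : ℕ} (hℓ : ℓ.Prime) (hΦ : IsModel F i x y Φ) (hκ : ∀ z, Φ (κ z) = algebraMap K S z)
    (hBr : BrTriv ℓ L Ω)
    (hMW : ∀ (R : Jac ℓ (f.map (algebraMap L Ω))), (∀ σ : Ω ≃ₐ[L] Ω, symJ (gs f σ) R = R) → ∀ n : ℕ,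
      ∃ R' : Jac ℓ (f.map (algebraMap L Ω)), (∀ σ : Ω ≃ₐ[L] Ω, symJ (gs f σ) R' = R') ∧
        m₀ • R = ℓ ^ n • R')
    {R : Type} [CommRing R] [Algebra R K]
    (h1 : ∀ r : R, ∃ p : L[X], κ (algebraMap R K r) = polyF (p.map (algebraMap L Ω)))
    (h2 : ∀ p : L[X], ∃ r : R, κ (algebraMap R K r) = polyF (p.map (algebraMap L Ω)))
    (hD : IsDedekindDomain (integralClosure R K)) (hF : IsFractionRing (integralClosure R K) K)
    (n : ℕ) (P : CommRing.Pic (integralClosure R K)) :
    ∃ Q : CommRing.Pic (integralClosure R K), P ^ m₀ = Q ^ ℓ ^ n := by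
  have hint : ∀ b, (kapA h1).IsIntegralElem b := by
    refine isIntegralElem_of (kapA h1) fun p => ?_
    obtain ⟨r, hr⟩ := h2 p
    exact ⟨algebraMap R (integralClosure R K) r, Subtype.ext hr⟩
  have hqL : (ringExpChar L).Coprime ℓ := by
    have h3 : ExpChar L (ringExpChar F) := expChar_of_injective_ringHom
      ((algebraMap F[X] L).comp (C : F →+* F[X])).injective (ringExpChar F)
    rw [ringExpChar.eq L (ringExpChar F)]
    exact extc_coprime (L := L) (Ω := Ω) (f := f) hℓ
  have hcop : ∀ P : Pt ℓ (f.map (algebraMap L Ω)), ∃ z : Kˣ, (ord P (kU κ z)).natAbs.Coprime ℓ := by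
    intro P
    by_cases hP : P.y = 0
    · have hy0 : y ≠ 0 := by
        rintro rfl
        have h3 := kappa_y hΦ hκ
        rw [map_zero] at h3
        exact yF_ne_zero h3.symm
      refine ⟨Units.mk0 y hy0, ?_⟩
      have h4 : kU κ (Units.mk0 y hy0) = (yU : (FunField ℓ (f.map (algebraMap L Ω)))ˣ) :=
        Units.ext (kappa_y hΦ hκ)
      rw [h4, ord_yU_of_ramified P hP, Int.natAbs_natCast]
      exact hG.mult P.x (eval_of_y_eq_zero P hP)
    · obtain ⟨p, hp, m, hord⟩ := exists_poly_ord P hP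
      obtain ⟨r, hr⟩ := h2 p
      have hr0 : algebraMap R K r ≠ 0 := by
        intro h0
        rw [h0, map_zero] at hr
        exact polyF_ne_zero hp hr.symm
      refine ⟨Units.mk0 _ hr0, ?_⟩
      have h4 : kU κ (Units.mk0 _ hr0) = (polyU _ hp : (FunField ℓ (f.map (algebraMap L Ω)))ˣ) :=
        Units.ext hr
      rw [h4, hord, Int.natAbs_pow, Int.natAbs_natCast]
      exact Nat.Coprime.pow_left m hqL
  obtain ⟨I, hI⟩ := ClassGroup.mk0_surjective ((ClassGroup.equivPic (integralClosure R K)).symm P)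
  obtain ⟨Q, hQ⟩ := pic_main (K := K) hℓ (kapA h1) (coe_kapA h1) hint (kappa_inv hΦ hκ) hcop hMW
    (descend hℓ hΦ hBr) (pic_fun hℓ hΦ hκ) n I
  refine ⟨ClassGroup.equivPic (integralClosure R K) Q, ?_⟩
  rw [hI] at hQ
  have h5 := congrArg (ClassGroup.equivPic (integralClosure R K)) hQ
  rw [map_pow, map_pow, MulEquiv.apply_symm_apply] at h5
  exact h5

end

end Pool.Agent.Lib.MP_89bcae_ag.Brt

end

section

namespace Pool.Agent.Lib.MP_89bcae_ag.Wt.Lns.LocCtx
end Pool.Agent.Lib.MP_89bcae_ag.Wt.Lns.LocCtx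


/-!
# Units of the local field
-/

open Polynomial IsDedekindDomain IsLocalRing

open scoped Classical

namespace Pool.Agent.Lib.MP_89bcae_ag.Brt

open Pool.Agent.Lib.MP_89bcae_ag.Sup (LocCtx plc exists_locCtx)

open Pool.Agent.Lib.MP_89bcae_ag.Wt Pool.Agent.Lib.MP_89bcae_ag.Wt.Lns Pool.Agent.Lib.MP_89bcae_ag.Bra

/-! ROW B4 -/

section

variable {F K M : Type} [Field F] [Field K] [Algebra F[X] K] [Field M] [Algebra K M] [Algebra F M]
  [IsAlgClosure K M] {v : AbsoluteValue M ℝ} {a : F} {g : F[X]}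

private lemma B4b_coprime {F : Type} [Field F] {ℓ : ℕ} (hℓ : ℓ.Prime) (hℓF : (ℓ : F) ≠ 0) (K : Type)
    [Field K] [Algebra F[X] K] : (ringExpChar K).Coprime ℓ := by
  have hK : (ℓ : K) ≠ 0 := by
    intro h0
    apply hℓF
    have h1 : ((algebraMap F[X] K).comp C) (ℓ : F) = 0 := by
      rw [map_natCast]
      exact h0
    exact (map_eq_zero_iff _ (RingHom.injective _)).1 h1
  have h1 := ringExpChar.expChar K
  generalize ringExpChar K = q at h1 ⊢
  rcases h1 with _ | hq
  · exact Nat.coprime_one_left ℓ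
  · rw [Nat.coprime_primes hq hℓ]
    rintro rfl
    exact hK (CharP.cast_eq_zero K _)

/-- PROOF. `v u = 1`; `c` in `F` with `v (u - c) < 1`, `c ≠ 0`. For `σ` in `Aut(M/K)`, `σ u = η u`, `η ^ (ℓ ^ r) = 1`, `η` in `F` (`F` is
algebraically closed: `hL.ctx.alg`), `v (σ u - c) < 1`, so `v (η - 1) < 1`, `η = 1`. So `u` is fixed by `Aut(M/K)`, `u ^ (q ^ m)` is in
`K` (`exists_pow_mem` in `Bra/Gal.lean`; `q = ringExpChar K`, prime to `ℓ`), and `u ^ (ℓ ^ r)` is in `K`, so `u` is in `K`. -/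
theorem mem_range_of_unit (hL : LocF F K a v) {ℓ r : ℕ} (hℓ : ℓ.Prime) (hℓF : (ℓ : F) ≠ 0) {u : M}
    {w : K} (hu : u ^ ℓ ^ r = algebraMap K M w) (hv : v u = 1) : u ∈ (algebraMap K M).range := by
  have hF := hL.ctx.alg
  have hna := hL.ctx.nonarch
  have hn : 0 < ℓ ^ r := pow_pos hℓ.pos r
  have hu0 : u ≠ 0 := by
    rintro rfl
    rw [v.map_zero] at hv
    exact zero_ne_one hv
  obtain ⟨c, hc⟩ := hL.ctx.residue u hv.le
  have hfix : ∀ σ : M ≃ₐ[K] M, σ u = u := by
    intro σ
    have h1 : (σ u / u) ^ ℓ ^ r = 1 := by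
      rw [div_pow, ← map_pow, hu, σ.commutes, ← hu, div_self (pow_ne_zero _ hu0)]
    have hint : IsIntegral F (σ u / u) := by
      apply IsIntegral.of_pow hn
      rw [h1]
      exact isIntegral_one
    obtain ⟨d, hd⟩ := minpoly.mem_range_of_degree_eq_one F (σ u / u)
      (IsAlgClosed.degree_eq_one_of_irreducible F (minpoly.irreducible hint))
    have h2 : v (σ u - algebraMap F M c) < 1 := by
      have h3 : σ u - algebraMap F M c = σ (u - algebraMap F M c) := by
        rw [map_sub, hL.compat, σ.commutes]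
      rw [h3, hL.inv]
      exact hc
    have h4 : v (σ u - u) < 1 := by
      have h5 : σ u - u = (σ u - algebraMap F M c) + (algebraMap F M c - u) := by ring
      rw [h5]
      refine lt_of_le_of_lt (hna _ _) (max_lt h2 ?_)
      rw [v.map_sub (algebraMap F M c) u]
      exact hc
    have h6 : v (algebraMap F M (d - 1)) < 1 := by
      have h7 : algebraMap F M (d - 1) = (σ u - u) / u := by
        rw [map_sub, map_one, hd, sub_div, div_self hu0]
      rw [h7, map_div₀, hv, div_one]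
      exact h4
    have h8 : d - 1 = 0 := by
      by_contra h9
      rw [hL.ctx.const _ h9] at h6
      exact lt_irrefl _ h6
    rw [sub_eq_zero.1 h8, map_one] at hd
    exact (div_eq_one_iff_eq hu0).1 hd.symm
  obtain ⟨m, y, hy⟩ := exists_pow_mem u hfix
  have hcop : IsCoprime ((ringExpChar K ^ m : ℕ) : ℤ) ((ℓ ^ r : ℕ) : ℤ) :=
    Nat.isCoprime_iff_coprime.2 (Nat.Coprime.pow m r (B4b_coprime hℓ hℓF K))
  obtain ⟨α, β, hαβ⟩ := hcop
  refine ⟨y ^ α * w ^ β, ?_⟩
  rw [map_mul, map_zpow₀, map_zpow₀, ← hy, ← hu, ← zpow_natCast, ← zpow_natCast, ← zpow_mul, ← zpow_mul, ← zpow_add₀ hu0,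
    mul_comm _ α, mul_comm _ β, hαβ, zpow_one]

end

end Pool.Agent.Lib.MP_89bcae_ag.Brt

end

section

namespace Pool.Agent.Lib.MP_89bcae_ag.Wt.Lns.LocCtx
end Pool.Agent.Lib.MP_89bcae_ag.Wt.Lns.LocCtx


/-!
# The unramified places
-/

open Polynomial IsDedekindDomain IsLocalRing

open scoped Classical

namespace Pool.Agent.Lib.MP_89bcae_ag.Brt

open Pool.Agent.Lib.MP_89bcae_ag.Sup (LocCtx plc exists_locCtx)

open Pool.Agent.Lib.MP_89bcae_ag.Wt Pool.Agent.Lib.MP_89bcae_ag.Wt.Lns Pool.Agent.Lib.MP_89bcae_ag.Bra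

section

variable {F K M : Type} [Field F] [Field K] [Algebra F[X] K] [Field M] [Algebra K M] [Algebra F M]
  {v : AbsoluteValue M ℝ} {a : F}

private lemma B5a_le_one (hL : LocF F K a v) (p : F[X]) :
    v (algebraMap K M (algebraMap F[X] K p)) ≤ 1 := by
  have hc : ∀ c : F, v (algebraMap F M c) ≤ 1 := by
    intro c
    by_cases h : c = 0
    · rw [h, map_zero, map_zero]; exact zero_le_one
    · exact (hL.ctx.const c h).le
  have ht : v (algebraMap K M (algebraMap F[X] K X)) ≤ 1 := by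
    have h1 := hL.ctx.nonarch (algebraMap K M (algebraMap F[X] K X) - algebraMap F M a) (algebraMap F M a)
    rw [sub_add_cancel] at h1
    exact h1.trans (max_le hL.ctx.lt_one.le (hc a))
  induction p using Polynomial.induction_on' with
  | add p q hp hq =>
    rw [map_add, map_add]
    exact (hL.ctx.nonarch _ _).trans (max_le hp hq)
  | monomial n c =>
    rw [← C_mul_X_pow_eq_monomial, map_mul, map_mul, map_mul, map_pow, map_pow, map_pow, ← hL.compat]
    exact mul_le_one₀ (hc c) (pow_nonneg (v.nonneg _) _) (pow_le_one₀ (v.nonneg _) ht)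

private lemma B5a_eq_one (hL : LocF F K a v) {p : F[X]} (hp : p.eval a ≠ 0) :
    v (algebraMap K M (algebraMap F[X] K p)) = 1 := by
  obtain ⟨q, hq⟩ : X - C a ∣ p - C (p.eval a) := by
    rw [dvd_iff_isRoot, IsRoot.def, eval_sub, eval_C, sub_self]
  have h1 : v (algebraMap K M (algebraMap F[X] K (p - C (p.eval a)))) < 1 := by
    rw [hq, map_mul, map_mul, map_mul, map_sub, map_sub, ← hL.compat]
    calc _ ≤ v (algebraMap K M (algebraMap F[X] K X) - algebraMap F M a) * 1 :=
          mul_le_mul_of_nonneg_left (B5a_le_one hL q) (v.nonneg _)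
      _ < 1 := by rw [mul_one]; exact hL.ctx.lt_one
  have h2 : v (algebraMap K M (algebraMap F[X] K (C (p.eval a)))) = 1 := by
    rw [← hL.compat]; exact hL.ctx.const _ hp
  refine le_antisymm (B5a_le_one hL p) ?_
  by_contra hlt
  rw [not_le] at hlt
  have h3 := hL.ctx.nonarch (algebraMap K M (algebraMap F[X] K p))
    (-algebraMap K M (algebraMap F[X] K (p - C (p.eval a))))
  have h4 : algebraMap K M (algebraMap F[X] K p) + -algebraMap K M (algebraMap F[X] K (p - C (p.eval a))) =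
      algebraMap K M (algebraMap F[X] K (C (p.eval a))) := by
    rw [map_sub, map_sub]; ring
  rw [h4, h2, AbsoluteValue.map_neg] at h3
  exact absurd h3 (not_le.mpr (max_lt hlt h1))

end

section

variable {F L L' Ω : Type} [Field F] [IsAlgClosed F] [Field L] [Algebra F[X] L]
  [IsFractionRing F[X] L] [Field L'] [Algebra L L'] [Algebra F[X] L'] [IsScalarTower F[X] L L']
  [Field Ω] [Algebra L Ω] [Algebra L' Ω] [IsScalarTower L L' Ω] [IsAlgClosure L' Ω] {ℓ r : ℕ}
  {g D : F[X]} {s : L'} {ζ : F} [hG : IsGood ℓ ((ft F L' g).map (algebraMap L' Ω))]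

theorem ltj_unram (hℓ : ℓ.Prime) (hℓF : (ℓ : F) ≠ 0) (hζ : IsPrimitiveRoot ζ ℓ) (hg : g.Monic)
    (hg0 : g.natDegree ≠ 0) (hsep : ((ft F L' g).map (algebraMap L' Ω)).Separable)
    (hs : IntermediateField.adjoin L {s} = ⊤) (heq : s ^ ℓ ^ r = algebraMap F[X] L' D) (a : F)
    (ha : D.eval a ≠ 0) {M : Type} [Field M] [Algebra ((plc a).adicCompletion L) M]
    [IsAlgClosure ((plc a).adicCompletion L) M] [Algebra L M]
    [IsScalarTower L ((plc a).adicCompletion L) M] (j : Ω →ₐ[L] M)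
    (b : (Ω ≃ₐ[L'] Ω) → (Ω ≃ₐ[L'] Ω) → (FunField ℓ ((ft F L' g).map (algebraMap L' Ω)))ˣ)
    (hb : ICoc b) (hu : IUnr F b)
    (C : (Ω ≃ₐ[L'] Ω) → (Pt ℓ ((ft F L' g).map (algebraMap L' Ω)) →₀ ℤ)) (hC : IDiv b C)
    (hn : ∃ n : ℕ, ∀ g', ℓ ^ n • (cl (C g') : Jac ℓ ((ft F L' g).map (algebraMap L' Ω))) = 0) :
    LTj (Lv := (plc a).adicCompletion L) ℓ (ft F L' g) (j : Ω →+* M) fun g' => cl (C g') := by
  let iF : Algebra F M := ((algebraMap ((plc a).adicCompletion L) M).comp
    ((algebraMap F[X] ((plc a).adicCompletion L)).comp (Polynomial.C : F →+* F[X]))).toAlgebra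
  have hF : ∀ c : F, algebraMap F M c = algebraMap ((plc a).adicCompletion L) M
      (algebraMap F[X] ((plc a).adicCompletion L) (Polynomial.C c)) := fun c => rfl
  obtain ⟨v, hctx, hdisc, hinv, -⟩ := exists_locCtx (L := L) a hF
  have hL : LocF F ((plc a).adicCompletion L) a v := ⟨hF, hctx, hdisc, hinv⟩
  have hcomp : ∀ p : F[X], j (algebraMap L' Ω (algebraMap F[X] L' p)) =
      algebraMap ((plc a).adicCompletion L) M (algebraMap F[X] ((plc a).adicCompletion L) p) := by
    intro p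
    rw [IsScalarTower.algebraMap_apply F[X] L L', ← IsScalarTower.algebraMap_apply L L' Ω, j.commutes,
      IsScalarTower.algebraMap_apply L ((plc a).adicCompletion L) M,
      ← IsScalarTower.algebraMap_apply F[X] L ((plc a).adicCompletion L)]
  -- the image of `s`
  have hpow : j (algebraMap L' Ω s) ^ ℓ ^ r = algebraMap ((plc a).adicCompletion L) M
      (algebraMap F[X] ((plc a).adicCompletion L) D) := by
    rw [← map_pow, ← map_pow, heq, hcomp]
  have hv1 : v (j (algebraMap L' Ω s)) = 1 := by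
    have h1 : v (j (algebraMap L' Ω s)) ^ ℓ ^ r = 1 := by
      rw [← map_pow, hpow, B5a_eq_one hL ha]
    exact (pow_eq_one_iff_of_nonneg (v.nonneg _) (pow_ne_zero _ hℓ.ne_zero)).mp h1
  have hmem := mem_range_of_unit hL hℓ hℓF hpow hv1
  have hz : ∀ z : L', ∃ x : (plc a).adicCompletion L,
      algebraMap ((plc a).adicCompletion L) M x = j (algebraMap L' Ω z) := by
    intro z
    have h1 : IntermediateField.adjoin L {s} ≤
        (IsScalarTower.toAlgHom L ((plc a).adicCompletion L) M).fieldRange.comap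
          (j.comp (IsScalarTower.toAlgHom L L' Ω)) := by
      rw [IntermediateField.adjoin_le_iff, Set.singleton_subset_iff]
      obtain ⟨x, hx⟩ := hmem
      exact ⟨x, hx⟩
    rw [hs] at h1
    have h2 := h1 (IntermediateField.mem_top (x := z))
    obtain ⟨x, hx⟩ := h2
    exact ⟨x, hx⟩
  have hinj : Function.Injective (algebraMap ((plc a).adicCompletion L) M) := RingHom.injective _
  let i₁ : L' →+* (plc a).adicCompletion L :=
    { toFun := fun z => (hz z).choose
      map_one' := hinj (by rw [(hz 1).choose_spec]; simp)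
      map_zero' := hinj (by rw [(hz 0).choose_spec]; simp)
      map_mul' := fun x y => hinj (by rw [(hz (x * y)).choose_spec, (algebraMap ((plc a).adicCompletion L) M).map_mul, (hz x).choose_spec, (hz y).choose_spec]; simp)
      map_add' := fun x y => hinj (by rw [(hz (x + y)).choose_spec, (algebraMap ((plc a).adicCompletion L) M).map_add, (hz x).choose_spec, (hz y).choose_spec]; simp) }
  have hi : ∀ z, algebraMap ((plc a).adicCompletion L) M (i₁ z) = (j : Ω →+* M) (algebraMap L' Ω z) :=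
    fun z => (hz z).choose_spec
  -- the polynomial
  have hp : (ft F L' g).map ((j : Ω →+* M).comp (algebraMap L' Ω)) =
      g.map (algebraMap F M) - Polynomial.C (algebraMap ((plc a).adicCompletion L) M
        (algebraMap F[X] ((plc a).adicCompletion L) X)) := by
    unfold ft
    rw [Polynomial.map_sub, Polynomial.map_map, Polynomial.map_C]
    congr 1
    · congr 1
      ext c
      exact hcomp (Polynomial.C c)
    · congr 1
      exact hcomp X
  obtain ⟨res, hres⟩ := exists_res_ft hL hg hg0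
  have hsep' : ((ft F L' g).map ((j : Ω →+* M).comp (algebraMap L' Ω))).Separable := by
    rw [← Polynomial.map_map]
    exact hsep.map
  have hf : (ft F L' g).Monic := by
    unfold ft
    refine (hg.map _).sub_of_left ?_
    rw [Polynomial.degree_map]
    refine lt_of_le_of_lt degree_C_le ?_
    rw [← Polynomial.natDegree_pos_iff_degree_pos]
    exact Nat.pos_of_ne_zero hg0
  rw [← hp] at hres
  have hsha := shaProp_of_poly hℓ hℓF hζ hL hg hp hsep' hres
  exact ltj_of_vertical (Lv := (plc a).adicCompletion L) (j : Ω →+* M) i₁ hi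
    (fun g' _ x => g'.commutes x) (algebraMap F[X] L' X)
    (fun c => hinj (by rw [hi]; exact hcomp (Polynomial.C c)))
    (hinj (by rw [hi]; exact hcomp X)) hℓ hℓF hζ hL hf hsep' hres hsha b hb hu C hC hn

end

end Pool.Agent.Lib.MP_89bcae_ag.Brt

end
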