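import Mathlib
import Pool.Agent.Lib.MP_89bcae_ag.Tk.K033
import Pool.Agent.Lib.MP_89bcae_ag.Tk.K034
import Pool.Agent.Lib.MP_89bcae_ag.Tk.K000

set_option linter.all false
attribute [local instance 100000] Pool.Agent.Lib.MP_89bcae_ag.Brt.tffFields
attribute [local instance 100000] Pool.Agent.Lib.MP_89bcae_ag.Wt.ifrNF Pool.Agent.Lib.MP_89bcae_ag.Wt.iddNF

namespace Pool.Agent.Lib.MP_89bcae_ag.Bra
end Pool.Agent.Lib.MP_89bcae_ag.Bra
namespace Pool.Agent.Lib.MP_89bcae_ag.Sup
end Pool.Agent.Lib.MP_89bcae_ag.Sup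
namespace Pool.Agent.Lib.MP_89bcae_ag.Wt
end Pool.Agent.Lib.MP_89bcae_ag.Wt
namespace Pool.Agent.Lib.MP_89bcae_ag.Wt.Lns
end Pool.Agent.Lib.MP_89bcae_ag.Wt.Lns
namespace Pool.Agent.Lib.MP_89bcae_ag.Wt.Lns.LocCtx
end Pool.Agent.Lib.MP_89bcae_ag.Wt.Lns.LocCtx

namespace Pool.Agent.Lib.MP_89bcae_ag.Wt.Lns.LocCtx
end Pool.Agent.Lib.MP_89bcae_ag.Wt.Lns.LocCtx


/-!
# The ramified places
-/

open Polynomial IsDedekindDomain IsLocalRing

open scoped Classical

namespace Pool.Agent.Lib.MP_89bcae_ag.Brt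

open Pool.Agent.Lib.MP_89bcae_ag.Sup (LocCtx plc exists_locCtx)

open Pool.Agent.Lib.MP_89bcae_ag.Wt Pool.Agent.Lib.MP_89bcae_ag.Wt.Lns Pool.Agent.Lib.MP_89bcae_ag.Bra

/-! ROW B5 -/

/-- `D(g(x))` separable, `g` not constant: `D` is separable. -/
theorem B5b_sep_left {F : Type} [Field F] [IsAlgClosed F] {g D : Polynomial F}
    (hg0 : g.natDegree ≠ 0) (hD : (D.comp g).Separable) : D.Separable := by
  rw [PerfectField.separable_iff_squarefree] at hD ⊢
  intro x hx
  obtain ⟨y, hy⟩ := hx
  have h1 : x.comp g * x.comp g ∣ D.comp g := ⟨y.comp g, by rw [hy, mul_comp, mul_comp]⟩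
  have h2 : IsUnit (x.comp g) := hD _ h1
  have h3 : (x.comp g).natDegree = 0 := natDegree_eq_zero_of_isUnit h2
  rw [natDegree_comp, mul_eq_zero] at h3
  have h4 : x.natDegree = 0 := h3.resolve_right hg0
  obtain ⟨c, hc⟩ := natDegree_eq_zero.1 h4
  have h5 : c ≠ 0 := by
    rintro rfl
    rw [← hc, map_zero, zero_comp] at h2
    exact not_isUnit_zero h2
  rw [← hc]
  exact isUnit_C.2 (isUnit_iff_ne_zero.2 h5)

/-- `D(g(x))` separable, `D(a) = 0`: `g - a` is separable. -/
theorem B5b_sep_right {F : Type} [Field F] {g D : Polynomial F} (hD : (D.comp g).Separable) {a : F}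
    (ha : D.eval a = 0) : (g - C a).Separable := by
  obtain ⟨q, hq⟩ := dvd_iff_isRoot.2 (show D.IsRoot a from ha)
  rw [hq, mul_comp, sub_comp, X_comp, C_comp] at hD
  exact hD.of_mul_left

/-- `ft` is monic. -/
theorem B5b_monic {F L : Type} [Field F] [Field L] [Algebra (Polynomial F) L] {g : Polynomial F}
    (hg : g.Monic) (hg0 : g.natDegree ≠ 0) : (ft F L g).Monic := by
  unfold ft
  refine (hg.map _).sub_of_left ?_
  refine lt_of_le_of_lt degree_C_le ?_
  rw [hg.degree_map, degree_eq_natDegree hg.ne_zero]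
  exact_mod_cast Nat.pos_of_ne_zero hg0

/-- The image of `ft`. -/
theorem B5b_map {F L' M : Type} [Field F] [Field L'] [Algebra (Polynomial F) L'] [Field M]
    [Algebra F M] (φ : L' →+* M) (hφ : ∀ c : F, φ (algebraMap (Polynomial F) L' (C c)) = algebraMap F M c)
    (g : Polynomial F) : (ft F L' g).map φ =
      g.map (algebraMap F M) - C (φ (algebraMap (Polynomial F) L' X)) := by
  unfold ft
  rw [Polynomial.map_sub, Polynomial.map_map, map_C]
  have h1 : φ.comp ((algebraMap (Polynomial F) L').comp C) = algebraMap F M := RingHom.ext hφ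
  rw [h1]

section

variable {F L L' Ω : Type} [Field F] [IsAlgClosed F] [Field L] [Algebra F[X] L]
  [IsFractionRing F[X] L] [Field L'] [Algebra L L'] [Algebra F[X] L'] [IsScalarTower F[X] L L']
  [Field Ω] [Algebra L Ω] [Algebra L' Ω] [IsScalarTower L L' Ω] [IsAlgClosure L' Ω] {ℓ r : ℕ}
  {g D : F[X]} {s : L'} {ζ : F} [hG : IsGood ℓ ((ft F L' g).map (algebraMap L' Ω))]

/-- The places where the cover is ramified. PROOF. As `ltj_unram`, with `K = IntermediateField.adjoin Lv {j s}`, `algAdj F Lv (j s)`, `locF_ram`,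
`T = s`, point `0`; `D` and `g - a` are separable as `D(g(x))` is (`D(a) = 0`); the roots and the residues: `exists_res_ft` and
`rational_of_sep` for `Lv`, `shaProp_of_rational` for `K`. -/
theorem ltj_ram (hℓ : ℓ.Prime) (hℓF : (ℓ : F) ≠ 0) (hζ : IsPrimitiveRoot ζ ℓ) (hg : g.Monic)
    (hg0 : g.natDegree ≠ 0) (hsep : ((ft F L' g).map (algebraMap L' Ω)).Separable)
    (hs : IntermediateField.adjoin L {s} = ⊤) (heq : s ^ ℓ ^ r = algebraMap F[X] L' D)
    (hD : (D.comp g).Separable) (a : F) (ha : D.eval a = 0) {M : Type} [Field M]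
    [Algebra ((plc a).adicCompletion L) M]
    [IsAlgClosure ((plc a).adicCompletion L) M] [Algebra L M]
    [IsScalarTower L ((plc a).adicCompletion L) M] (j : Ω →ₐ[L] M)
    (b : (Ω ≃ₐ[L'] Ω) → (Ω ≃ₐ[L'] Ω) → (FunField ℓ ((ft F L' g).map (algebraMap L' Ω)))ˣ)
    (hb : ICoc b) (hu : IUnr F b)
    (C : (Ω ≃ₐ[L'] Ω) → (Pt ℓ ((ft F L' g).map (algebraMap L' Ω)) →₀ ℤ)) (hC : IDiv b C)
    (hn : ∃ n : ℕ, ∀ g', ℓ ^ n • (cl (C g') : Jac ℓ ((ft F L' g).map (algebraMap L' Ω))) = 0) :
    LTj (Lv := (plc a).adicCompletion L) ℓ (ft F L' g) (j : Ω →+* M) fun g' => cl (C g') := by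
  let _ : Algebra F M := ((algebraMap ((plc a).adicCompletion L) M).comp
    ((algebraMap F[X] ((plc a).adicCompletion L)).comp Polynomial.C)).toAlgebra
  obtain ⟨v, hv, hval, hinv, -⟩ := exists_locCtx (L := L) (M := M) a (fun _ => rfl)
  have hL : LocF F ((plc a).adicCompletion L) a v := ⟨fun _ => rfl, hv, hval, hinv⟩
  have hEc : IsAlgClosed M := IsAlgClosure.isAlgClosed ((plc a).adicCompletion L)
  -- the images of the polynomials
  have hjp : ∀ p : F[X], j (algebraMap L' Ω (algebraMap F[X] L' p)) =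
      algebraMap ((plc a).adicCompletion L) M (algebraMap F[X] ((plc a).adicCompletion L) p) := by
    intro p
    rw [IsScalarTower.algebraMap_apply F[X] L L', ← IsScalarTower.algebraMap_apply L L' Ω,
      AlgHom.commutes, IsScalarTower.algebraMap_apply F[X] L ((plc a).adicCompletion L),
      ← IsScalarTower.algebraMap_apply L ((plc a).adicCompletion L) M]
  set u : M := j (algebraMap L' Ω s) with hudef
  have hu0 : u ^ ℓ ^ r = algebraMap ((plc a).adicCompletion L) M
      (algebraMap F[X] ((plc a).adicCompletion L) D) := by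
    rw [hudef, ← map_pow, ← map_pow, heq, hjp]
  have hDs : D.Separable := B5b_sep_left hg0 hD
  have hga : (g - Polynomial.C a).Separable := B5b_sep_right hD ha
  have hLK := locF_ram hL hℓ.pos ha hDs hu0
  -- roots and residues
  obtain ⟨res, hres⟩ := exists_res_ft hL hg hg0
  obtain ⟨hroot, hinj⟩ := rational_of_sep hL hg hga hres
  have hpoly : (ft F L' g).map ((j : Ω →+* M).comp (algebraMap L' Ω)) =
      g.map (algebraMap F M) - Polynomial.C (algebraMap ((plc a).adicCompletion L) M
        (algebraMap F[X] ((plc a).adicCompletion L) X)) := by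
    rw [B5b_map ((j : Ω →+* M).comp (algebraMap L' Ω)) (fun c => hjp (Polynomial.C c)) g]
    congr 2
    exact hjp X
  -- the image of `L'`
  have hmem : ∀ z : L', j (algebraMap L' Ω z) ∈
      IntermediateField.adjoin ((plc a).adicCompletion L) {u} := by
    intro z
    have h1 : IntermediateField.adjoin L {s} ≤
        ((IntermediateField.adjoin ((plc a).adicCompletion L) {u}).restrictScalars L).comap
          (j.comp (IsScalarTower.toAlgHom L L' Ω)) := by
      rw [IntermediateField.adjoin_simple_le_iff]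
      exact IntermediateField.mem_adjoin_simple_self _ _
    rw [hs] at h1
    exact h1 (IntermediateField.mem_top (x := z))
  have hAK : IsAlgClosure (IntermediateField.adjoin ((plc a).adicCompletion L) {u}) M := by
    refine ⟨hEc, ?_⟩
    have h2 : Algebra.IsAlgebraic ((plc a).adicCompletion L) M := IsAlgClosure.isAlgebraic
    exact Algebra.IsAlgebraic.tower_top (K := (plc a).adicCompletion L) _
  let i₁ : L' →+* IntermediateField.adjoin ((plc a).adicCompletion L) {u} :=
    ((j : Ω →+* M).comp (algebraMap L' Ω)).codRestrict _ hmem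
  let _ : Algebra F[X] (IntermediateField.adjoin ((plc a).adicCompletion L) {u}) :=
    algAdj F ((plc a).adicCompletion L) u
  refine ltj_of_vertical (K := IntermediateField.adjoin ((plc a).adicCompletion L) {u})
    (Lv := (plc a).adicCompletion L) (j : Ω →+* M) i₁ (fun _ => rfl) ?_ s ?_ ?_ hℓ hℓF hζ hLK
    (B5b_monic hg hg0) ?_ (res := res) ?_ ?_ b hb hu C hC hn
  · intro σ hσ x
    have h1 : IntermediateField.adjoin ((plc a).adicCompletion L) {u} ≤
        IntermediateField.fixedField (Subgroup.zpowers σ) := by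
      rw [IntermediateField.adjoin_simple_le_iff]
      intro τ
      obtain ⟨τ, n, rfl⟩ := τ
      have h2 : σ ∈ MulAction.stabilizer (M ≃ₐ[(plc a).adicCompletion L] M) u := hσ s
      exact zpow_mem h2 n
    exact h1 x.2 ⟨σ, Subgroup.mem_zpowers σ⟩
  · intro c
    apply Subtype.ext
    show j (algebraMap L' Ω (algebraMap F[X] L' (Polynomial.C c))) = _
    rw [hjp]
    show _ = ((eval₂ _ _ (Polynomial.C c) :
      IntermediateField.adjoin ((plc a).adicCompletion L) {u}) : M)
    rw [eval₂_C]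
    rfl
  · apply Subtype.ext
    show j (algebraMap L' Ω s) = ((eval₂ _ _ (X : F[X]) :
      IntermediateField.adjoin ((plc a).adicCompletion L) {u}) : M)
    rw [eval₂_X]
    rfl
  · rw [← Polynomial.map_map]
    exact hsep.map
  · intro θ hθ
    rw [hpoly] at hθ
    exact hres θ hθ
  · rw [hpoly]
    exact shaProp_of_rational (fun θ hθ σ => hroot θ hθ (σ.restrictScalars _)) hinj

end

end Pool.Agent.Lib.MP_89bcae_ag.Brt
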