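import Mathlib
import Pool.Agent.Lib.MP_89bcae_ag.Tk.K000
import Pool.Agent.Lib.MP_89bcae_ag.Tk.K019
import Pool.Agent.Lib.MP_89bcae_ag.Tk.K027

set_option linter.all false

section

attribute [local instance 100000] Pool.Agent.Lib.MP_89bcae_ag.Brt.tffFields
attribute [local instance 100000] Pool.Agent.Lib.MP_89bcae_ag.Wt.ifrNF Pool.Agent.Lib.MP_89bcae_ag.Wt.iddNF

section

open Polynomial IsDedekindDomain

open scoped Classical

set_option linter.unusedSectionVars false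

namespace Pool.Agent.Lib.MP_89bcae_ag.Sup

universe u

section

variable {ℓ : ℕ} {E : Type u} [Field E] {f : E[X]}

lemma tb02_mem_rts {θ : E} (hG : IsGood ℓ f) : θ ∈ rts f ↔ f.eval θ = 0 :=
  mem_rts hG.separable.ne_zero

lemma tb02_card (hG : IsGood ℓ f) : (rts f).card.Coprime ℓ := by
  have := hG.alg
  have h1 : (rts f).card = f.natDegree := by
    unfold rts
    rw [Multiset.toFinset_card_of_nodup (nodup_roots hG.separable),
      IsAlgClosed.card_roots_eq_natDegree]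
  rw [h1]
  exact hG.coprime

lemma tb02_zpow_eq {ζ : E} (hℓ : ℓ ≠ 0) (hζ : IsPrimitiveRoot ζ ℓ) (a b : ℤ) :
    ζ ^ a = ζ ^ b ↔ (ℓ : ℤ) ∣ a - b := by
  have h0 : ζ ≠ 0 := hζ.ne_zero hℓ
  rw [← hζ.zpow_eq_one_iff_dvd, zpow_sub₀ h0, div_eq_one_iff_eq (zpow_ne_zero _ h0)]

lemma tb02_prod_zpow {ι : Type*} {x : E} (hx : x ≠ 0) (S : Finset ι) (e : ι → ℤ) :
    ∏ i ∈ S, x ^ e i = x ^ ∑ i ∈ S, e i := by
  induction S using Finset.induction_on with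
  | empty => simp
  | insert a T ha ih => rw [Finset.prod_insert ha, Finset.sum_insert ha, zpow_add₀ hx, ih]

lemma tb02_ram_zero [hG : IsGood ℓ f] : (ram (fun _ => 0) : Jac ℓ f) = 0 := by
  have h1 := ram_sub (ℓ := ℓ) (f := f) (fun _ => 0) (fun _ => 0)
  exact h1.trans (sub_self _)

lemma tb02_ram_neg [hG : IsGood ℓ f] (e : E → ℤ) :
    (ram (fun θ => -e θ) : Jac ℓ f) = -ram e := by
  have h1 := ram_sub (ℓ := ℓ) (f := f) (fun _ => 0) e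
  rw [tb02_ram_zero, zero_sub] at h1
  rw [← h1]
  congr 1
  funext θ
  rw [zero_sub]

end

lemma tb02_coprime {K : Type*} [Field K] {ℓ : ℕ} (hℓ : ℓ.Prime) (h : (ℓ : K) ≠ 0) :
    ℓ.Coprime (ringExpChar K) := by
  have h1 := ringExpChar.expChar K
  generalize ringExpChar K = q at h1 ⊢
  cases h1 with
  | zero => exact Nat.coprime_one_right ℓ
  | prime hp =>
    rw [Nat.coprime_primes hℓ hp]
    rintro rfl
    exact h (CharP.cast_eq_zero K _)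

section

variable {k F L Ω : Type u} [Field k] [Field F] [Algebra k F] [Field L] [Algebra F[X] L]
  [Field Ω] [Algebra L Ω] [IsAlgClosure k F] [IsFractionRing F[X] L] [IsAlgClosure L Ω]
  [Algebra F Ω] {ℓ : ℕ} {g D : k[X]} {ζ : k}

omit [IsAlgClosure k F] [IsFractionRing F[X] L] [IsAlgClosure L Ω] [Algebra F Ω] in
lemma tb02_stable (hG : IsGood ℓ (cOver k F L Ω g D)) (γ : AutO k F L Ω) {θ : Ω} :
    (γ : Ω ≃+* Ω) θ ∈ rts (cOver k F L Ω g D) ↔ θ ∈ rts (cOver k F L Ω g D) := by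
  rw [tb02_mem_rts hG, tb02_mem_rts hG]
  have h1 := (toSym g D γ).2
  have h2 : (cOver k F L Ω g D).eval ((γ : Ω ≃+* Ω) θ) =
      (γ : Ω ≃+* Ω) ((cOver k F L Ω g D).eval θ) := by
    conv_lhs => rw [← h1]
    rw [eval_map]
    exact eval₂_hom (p := cOver k F L Ω g D) ((γ : Ω ≃+* Ω) : Ω →+* Ω) θ
  rw [h2]
  exact map_eq_zero_iff _ (γ : Ω ≃+* Ω).injective

omit [IsAlgClosure k F] [IsFractionRing F[X] L] [IsAlgClosure L Ω] [Algebra F Ω] in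
lemma tb02_smul_mem (hG : IsGood ℓ (cOver k F L Ω g D)) (σ : Ω ≃ₐ[L] Ω) {θ : Ω} :
    σ θ ∈ rts (cOver k F L Ω g D) ↔ θ ∈ rts (cOver k F L Ω g D) :=
  tb02_stable hG (galA k F σ)

omit [IsAlgClosure k F] [IsFractionRing F[X] L] [IsAlgClosure L Ω] [Algebra F Ω] in
lemma tb02_prod {M : Type*} [CommMonoid M] (hG : IsGood ℓ (cOver k F L Ω g D))
    (σ : Ω ≃ₐ[L] Ω) (φ : Ω → M) :
    ∏ θ ∈ rts (cOver k F L Ω g D), φ (σ θ) = ∏ θ ∈ rts (cOver k F L Ω g D), φ θ :=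
  Finset.prod_equiv σ.toEquiv (fun _ => (tb02_smul_mem hG σ).symm) (fun _ _ => rfl)

omit [IsAlgClosure k F] [IsFractionRing F[X] L] [IsAlgClosure L Ω] [Algebra F Ω] in
lemma tb02_zA (ζ : k) (σ : Ω ≃ₐ[L] Ω) : σ (zA F L Ω ζ) = zA F L Ω ζ :=
  σ.commutes _

omit [IsAlgClosure k F] [IsFractionRing F[X] L] [IsAlgClosure L Ω] in
lemma tb02_const (hF : CompatF F L Ω) (σ : Ω ≃ₐ[L] Ω) (c : F) :
    σ (algebraMap F Ω c) = algebraMap F Ω c := by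
  rw [hF c]
  exact σ.commutes _

lemma tb02_ne (hF : CompatF F L Ω) (H : GlobHyp ℓ g D ζ) {θ : Ω}
    (hθ : θ ∈ rts (cOver k F L Ω g D)) (β : F) : θ - algebraMap F Ω β ≠ 0 := by
  have h1 : aeval θ (X - C β : F[X]) = θ - algebraMap F Ω β := by
    rw [map_sub, aeval_X, aeval_C]
  rw [← h1, Ne, map_eq_zero_iff _ (aeval_root_injective hF H hθ)]
  exact X_sub_C_ne_zero β

/-- The product `∏ (θ - β)^{e β}`. -/
noncomputable def tb02_E (F : Type u) {k Ω : Type u} [Field k] [Field F] [Algebra k F]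
    [Field Ω] [Algebra F Ω] (g D : k[X]) (e : F → ℤ) (θ : Ω) : Ω :=
  ∏ β ∈ RR F g D, (θ - algebraMap F Ω β) ^ e β

lemma tb02_E_ne (hF : CompatF F L Ω) (H : GlobHyp ℓ g D ζ) (e : F → ℤ) {θ : Ω}
    (hθ : θ ∈ rts (cOver k F L Ω g D)) : tb02_E F g D e θ ≠ 0 :=
  Finset.prod_ne_zero_iff.2 fun β _ => zpow_ne_zero _ (tb02_ne hF H hθ β)

lemma tb02_E_map (hF : CompatF F L Ω) (e : F → ℤ) (σ : Ω ≃ₐ[L] Ω) (θ : Ω) :
    σ (tb02_E F g D e θ) = tb02_E F g D e (σ θ) := by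
  rw [tb02_E, map_prod, tb02_E]
  refine Finset.prod_congr rfl fun β _ => ?_
  rw [map_zpow₀, map_sub, tb02_const hF]

lemma tb02_E_add (hF : CompatF F L Ω) (H : GlobHyp ℓ g D ζ) (e e' : F → ℤ) {θ : Ω}
    (hθ : θ ∈ rts (cOver k F L Ω g D)) :
    tb02_E F g D (fun β => e β + e' β) θ = tb02_E F g D e θ * tb02_E F g D e' θ := by
  rw [tb02_E, tb02_E, tb02_E, ← Finset.prod_mul_distrib]
  refine Finset.prod_congr rfl fun β _ => ?_
  rw [zpow_add₀ (tb02_ne hF H hθ β)]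

lemma tb02_E_neg (e : F → ℤ) (θ : Ω) :
    tb02_E F g D (fun β => -e β) θ = (tb02_E F g D e θ)⁻¹ := by
  rw [tb02_E, tb02_E, ← Finset.prod_inv_distrib]
  refine Finset.prod_congr rfl fun β _ => ?_
  rw [zpow_neg]

lemma tb02_E_mul (m : ℤ) (e : F → ℤ) (θ : Ω) :
    tb02_E F g D (fun β => m * e β) θ = (tb02_E F g D e θ) ^ m := by
  rw [tb02_E, tb02_E, ← Finset.prod_zpow]
  refine Finset.prod_congr rfl fun β _ => ?_
  rw [← zpow_mul, mul_comm]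

lemma tb02_z_ne (hF : CompatF F L Ω) (H : GlobHyp ℓ g D ζ) (e : F → ℤ) {x θ : Ω}
    (hθ : θ ∈ rts (cOver k F L Ω g D)) (hx : x ^ ℓ = tb02_E F g D e θ) : x ≠ 0 := by
  rintro rfl
  rw [zero_pow H.prime.ne_zero] at hx
  exact tb02_E_ne hF H e hθ hx.symm

omit [IsAlgClosure k F] [IsFractionRing F[X] L] [IsAlgClosure L Ω] in
lemma tb02_t (hG : IsGood ℓ (cOver k F L Ω g D)) (hF : CompatF F L Ω) {θ : Ω}
    (hθ : θ ∈ rts (cOver k F L Ω g D)) :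
    tA F L Ω = aeval θ (g.map (algebraMap k F)) := by
  have h1 := (tb02_mem_rts hG).1 hθ
  have h2 := hG.separable.ne_zero
  rw [cOver_eq_locPoly hF, locPoly] at h1 h2
  have h3 := (mul_ne_zero_iff.1 h2).1
  rw [eval_mul, eval_C, mul_eq_zero] at h1
  have h4 := h1.resolve_left (C_ne_zero.1 h3)
  rw [eval_sub, eval_C, eval_map_algebraMap, sub_eq_zero] at h4
  exact h4.symm

lemma tb02_prodE (hF : CompatF F L Ω) (H : GlobHyp ℓ g D ζ) (e s : F → ℤ)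
    (hs : ∀ a : F, ∑ β ∈ (RR F g D).filter (fun β => aeval β g = a), e β = ℓ * s a) :
    ∏ θ ∈ rts (cOver k F L Ω g D), tb02_E F g D e θ =
      algebraMap F Ω (∏ β ∈ RR F g D, ((-1) ^ (g.natDegree + 1)) ^ e β) *
        (∏ a ∈ (RR F g D).image (fun β => aeval β g),
          (tA F L Ω - algebraMap F Ω a) ^ s a) ^ ℓ := by
  have ht : ∀ a : F, tA F L Ω - algebraMap F Ω a ≠ 0 := by
    intro a
    have h1 : aeval (tA F L Ω) (X - C a : F[X]) = tA F L Ω - algebraMap F Ω a := by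
      rw [map_sub, aeval_X, aeval_C]
    rw [← h1, Ne, map_eq_zero_iff _ (tA_injective hF)]
    exact X_sub_C_ne_zero a
  unfold tb02_E
  rw [Finset.prod_comm]
  have h1 : ∀ β ∈ RR F g D, ∏ θ ∈ rts (cOver k F L Ω g D), (θ - algebraMap F Ω β) ^ e β =
      algebraMap F Ω (((-1) ^ (g.natDegree + 1)) ^ e β) *
        (tA F L Ω - algebraMap F Ω (aeval β g)) ^ e β := by
    intro β _
    rw [Finset.prod_zpow, prod_rts_sub hF H, map_zpow₀, map_pow, map_neg, map_one, ← mul_zpow]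
    congr 1
    ring
  rw [Finset.prod_congr rfl h1, Finset.prod_mul_distrib, ← map_prod]
  congr 1
  rw [← Finset.prod_fiberwise_of_maps_to (g := fun β => aeval β g)
    (fun β hβ => Finset.mem_image_of_mem _ hβ), ← Finset.prod_pow]
  refine Finset.prod_congr rfl fun a _ => ?_
  rw [← zpow_natCast, ← zpow_mul, mul_comm (s a), ← hs a, ← tb02_prod_zpow (ht a)]
  refine Finset.prod_congr rfl fun β hβ => ?_
  rw [(Finset.mem_filter.1 hβ).2]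

end

variable {k F L Ω : Type u} [Field k] [Field F] [Algebra k F] [Field L] [Algebra F[X] L]
  [Field Ω] [Algebra L Ω] [IsAlgClosure k F] [IsFractionRing F[X] L] [IsAlgClosure L Ω]
  [Algebra F Ω] {ℓ : ℕ} {g E : k[X]} [hG : IsGood ℓ (cOver k F L Ω g 1)] {ζ : k}
  {hζ : (zA F L Ω ζ) ^ ℓ = 1} {N : Subgroup (Ω ≃ₐ[L] Ω)}

/-- Comparison of the exponents. -/
lemma tb02_congr (H : GlobHyp ℓ g E ζ) (σ : Ω ≃ₐ[L] Ω) (n n' : Ω → ℤ)
    (h : ∀ θ ∈ rts (cOver k F L Ω g 1),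
      zA F L Ω ζ ^ n (σ θ) = zA F L Ω ζ ^ n' (σ θ)) :
    (ram n : JacOver ℓ (curvePoly k F L g 1) Ω) = ram n' := by
  apply ram_congr
  intro θ hθ
  have h1 := h (σ⁻¹ θ) ((tb02_smul_mem hG σ⁻¹).2 ((tb02_mem_rts hG).2 hθ))
  have h2 : σ (σ⁻¹ θ) = θ := σ.apply_symm_apply θ
  rw [h2] at h1
  exact (tb02_zpow_eq H.prime.ne_zero (zA_primitive H) _ _).1 h1

lemma tb02_rts (H : GlobHyp ℓ g E ζ) :
    rts (cOver k F L Ω g 1) = rts (cOver k F L Ω g E) := by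
  have hΩ : IsAlgClosed Ω := IsAlgClosure.isAlgClosed L
  exact rts_one H

lemma HasExpM.exists_n (hF : CompatF F L Ω) (H : GlobHyp ℓ g E ζ) (e : F → ℤ) {z : Ω → Ω}
    (hz : ∀ θ ∈ rts (cOver k F L Ω g 1),
      z θ ^ ℓ = ∏ β ∈ RR F g E, (θ - algebraMap F Ω β) ^ e β) (σ : Ω ≃ₐ[L] Ω) :
    ∃ n : Ω → ℤ, ∀ θ ∈ rts (cOver k F L Ω g 1),
      σ (z θ) = zA F L Ω ζ ^ n (σ θ) * z (σ θ) := by
  have hΩ : IsAlgClosed Ω := IsAlgClosure.isAlgClosed L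
  have hGE : IsGood ℓ (cOver k F L Ω g E) := isGood_cOver H
  rw [tb02_rts H] at hz ⊢
  exact exists_n_of_pow hF H e hz σ

lemma HasExpM.add (hF : CompatF F L Ω) (H : GlobHyp ℓ g E ζ) {h h' : Ch ℓ k F L Ω g 1}
    {e e' : F → ℤ} (he : HasExpM ζ E h e) (he' : HasExpM ζ E h' e') :
    HasExpM ζ E (h + h') (fun β => e β + e' β) := by
  have hr := tb02_rts (F := F) (L := L) (Ω := Ω) H
  obtain ⟨z, hz, hzn⟩ := he.ex
  obtain ⟨z', hz', hzn'⟩ := he'.ex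
  refine ⟨fun a => ?_, fun θ => z θ * z' θ, fun θ hθ => ?_, fun σ n hn => ?_⟩
  · rw [Finset.sum_add_distrib]
    exact dvd_add (he.sum a) (he'.sum a)
  · rw [mul_pow, hz θ hθ, hz' θ hθ]
    exact (tb02_E_add hF H e e' (hr ▸ hθ)).symm
  · obtain ⟨n₁, hn₁⟩ := HasExpM.exists_n hF H e hz σ
    obtain ⟨n₂, hn₂⟩ := HasExpM.exists_n hF H e' hz' σ
    have h1 : (h + h') σ = ram (fun θ => n₁ θ + n₂ θ) := by
      rw [ram_add, ← hzn σ n₁ hn₁, ← hzn' σ n₂ hn₂]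
      rfl
    rw [h1]
    refine tb02_congr H σ _ _ fun θ hθ => ?_
    have hσθ := (tb02_smul_mem hG σ).2 hθ
    have h2 := hn θ hθ
    rw [map_mul, hn₁ θ hθ, hn₂ θ hθ] at h2
    have h3 := tb02_z_ne hF H e (hr ▸ hσθ) (hz _ hσθ)
    have h4 := tb02_z_ne hF H e' (hr ▸ hσθ) (hz' _ hσθ)
    rw [zpow_add₀ ((zA_primitive H).ne_zero H.prime.ne_zero)]
    apply mul_right_cancel₀ (mul_ne_zero h3 h4)
    rw [← h2]
    ring

lemma HasExpM.neg (hF : CompatF F L Ω) (H : GlobHyp ℓ g E ζ) {h : Ch ℓ k F L Ω g 1}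
    {e : F → ℤ} (he : HasExpM ζ E h e) : HasExpM ζ E (-h) (fun β => -e β) := by
  have hr := tb02_rts (F := F) (L := L) (Ω := Ω) H
  obtain ⟨z, hz, hzn⟩ := he.ex
  refine ⟨fun a => ?_, fun θ => (z θ)⁻¹, fun θ hθ => ?_, fun σ n hn => ?_⟩
  · rw [Finset.sum_neg_distrib]
    exact (dvd_neg).2 (he.sum a)
  · rw [inv_pow, hz θ hθ]
    exact (tb02_E_neg e θ).symm
  · obtain ⟨n₁, hn₁⟩ := HasExpM.exists_n hF H e hz σ
    have h1 : (-h) σ = ram (fun θ => -n₁ θ) := by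
      rw [tb02_ram_neg, ← hzn σ n₁ hn₁]
      rfl
    rw [h1]
    refine tb02_congr H σ _ _ fun θ hθ => ?_
    have hσθ := (tb02_smul_mem hG σ).2 hθ
    have h2 := hn θ hθ
    have h3 := tb02_z_ne hF H e (hr ▸ hσθ) (hz _ hσθ)
    rw [map_inv₀, hn₁ θ hθ, mul_inv, ← zpow_neg] at h2
    exact mul_right_cancel₀ (inv_ne_zero h3) h2

lemma HasExpM.congr (hF : CompatF F L Ω) (H : GlobHyp ℓ g E ζ) {h : Ch ℓ k F L Ω g 1}
    {e e' : F → ℤ} (he : HasExpM ζ E h e) (hd : ∀ β ∈ RR F g E, (ℓ : ℤ) ∣ e' β - e β) :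
    HasExpM ζ E h e' := by
  have hr := tb02_rts (F := F) (L := L) (Ω := Ω) H
  obtain ⟨z, hz, hzn⟩ := he.ex
  have h1 : ∀ β, ∃ i : ℤ, β ∈ RR F g E → e' β = e β + ℓ * i := by
    intro β
    by_cases hβ : β ∈ RR F g E
    · obtain ⟨i, hi⟩ := hd β hβ
      exact ⟨i, fun _ => by linarith⟩
    · exact ⟨0, fun h => absurd h hβ⟩
  choose i hi using h1
  have hE : ∀ θ ∈ rts (cOver k F L Ω g 1), tb02_E F g E e' θ =
      tb02_E F g E e θ * (tb02_E F g E i θ) ^ ℓ := by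
    intro θ hθ
    rw [← zpow_natCast, ← tb02_E_mul, ← tb02_E_add hF H _ _ (hr ▸ hθ)]
    refine Finset.prod_congr rfl fun β hβ => ?_
    rw [hi β hβ]
  refine ⟨fun a => ?_, fun θ => z θ * tb02_E F g E i θ, fun θ hθ => ?_, fun σ n hn => ?_⟩
  · have h2 : ∑ β ∈ (RR F g E).filter (fun β => aeval β g = a), e' β =
        ∑ β ∈ (RR F g E).filter (fun β => aeval β g = a), e β +
        ℓ * ∑ β ∈ (RR F g E).filter (fun β => aeval β g = a), i β := by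
      rw [Finset.mul_sum, ← Finset.sum_add_distrib]
      exact Finset.sum_congr rfl fun β hβ => hi β (Finset.mem_filter.1 hβ).1
    rw [h2]
    exact dvd_add (he.sum a) (dvd_mul_right _ _)
  · rw [mul_pow, hz θ hθ]
    exact (hE θ hθ).symm
  · apply hzn
    intro θ hθ
    have hσθ := (tb02_smul_mem hG σ).2 hθ
    have h2 := hn θ hθ
    rw [map_mul, tb02_E_map hF, ← mul_assoc] at h2
    exact mul_right_cancel₀ (tb02_E_ne hF H i (hr ▸ hσθ)) h2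

theorem HasExpM.dvd_of_cob (hF : CompatF F L Ω) (H : GlobHyp ℓ g E ζ)
    {h : Ch ℓ k F L Ω g 1} {e : F → ℤ} (he : HasExpM ζ E h e)
    {A : JacOver ℓ (curvePoly k F L g 1) Ω} (hA : zJ (zA F L Ω ζ) hζ A = A)
    (hh : ∀ σ, h σ = cob A σ) : ∀ β ∈ RR F g E, (ℓ : ℤ) ∣ e β := by
  have hr := tb02_rts (F := F) (L := L) (Ω := Ω) H
  have hΩ : IsAlgClosed Ω := IsAlgClosure.isAlgClosed L
  have hGE : IsGood ℓ (cOver k F L Ω g E) := isGood_cOver H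
  have hζ' : IsPrimitiveRoot (zA F L Ω ζ) ℓ := zA_primitive H
  have hζ0 : zA F L Ω ζ ≠ 0 := hζ'.ne_zero H.prime.ne_zero
  obtain ⟨z, hz, hzn⟩ := he.ex
  obtain ⟨m₀, hm₀⟩ := exists_ram_of_zJ_eq (zA F L Ω ζ) hζ' A hA
  have hn : ∀ σ : Ω ≃ₐ[L] Ω, ∃ κ : ℤ, ∀ θ ∈ rts (cOver k F L Ω g E),
      σ (zA F L Ω ζ ^ (-m₀ θ) * z θ) = zA F L Ω ζ ^ κ * (zA F L Ω ζ ^ (-m₀ (σ θ)) * z (σ θ)) := by
    intro σ
    obtain ⟨n, hn⟩ := HasExpM.exists_n hF H e hz σ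
    have h1 := hzn σ n hn
    rw [hh σ, cob, hm₀, symJ_ram, ← ram_sub] at h1
    have h2 := ram_sub (ℓ := ℓ) (f := cOver k F L Ω g 1) n (fun θ =>
      m₀ (((((toSym g 1) ((galA k F) σ))⁻¹ : Sym (cOver k F L Ω g 1)) : Ω ≃+* Ω) θ) - m₀ θ)
    rw [← h1, sub_self] at h2
    obtain ⟨κ, hκ⟩ := (ram_eq_zero_iff (zA F L Ω ζ) hζ' _).1 h2
    refine ⟨κ, fun θ hθ' => ?_⟩
    have hθ : θ ∈ rts (cOver k F L Ω g 1) := hr ▸ hθ'
    have hσθ := (tb02_smul_mem hG σ).2 hθ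
    have h3 := hκ (σ θ) ((tb02_mem_rts hG).1 hσθ)
    have h4 : ((((toSym g 1) ((galA k F) σ))⁻¹ : Sym (cOver k F L Ω g 1)) : Ω ≃+* Ω) (σ θ) =
        θ := σ.symm_apply_apply θ
    rw [h4] at h3
    have h5 := (tb02_zpow_eq H.prime.ne_zero hζ' (-m₀ θ + n (σ θ)) (κ + -m₀ (σ θ))).2 (by
      convert h3 using 1
      ring)
    rw [map_mul, map_zpow₀, tb02_zA, hn θ hθ, ← mul_assoc, ← mul_assoc, ← zpow_add₀ hζ0,
      ← zpow_add₀ hζ0, h5]
  set z' : Ω → Ω := fun θ => zA F L Ω ζ ^ (-m₀ θ) * z θ with hz'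
  have hz'ℓ : ∀ θ ∈ rts (cOver k F L Ω g E), z' θ ^ ℓ = tb02_E F g E e θ := by
    intro θ hθ
    have h1 : (zA F L Ω ζ ^ (-m₀ θ)) ^ ℓ = 1 := by
      rw [← zpow_natCast, ← zpow_mul, mul_comm, zpow_mul, zpow_natCast, hζ, one_zpow]
    rw [hz']
    simp only
    rw [mul_pow, h1, one_mul]
    exact hz θ (hr ▸ hθ)
  set w : Ω := ∏ θ ∈ rts (cOver k F L Ω g E), z' θ with hw
  set m : ℕ := (rts (cOver k F L Ω g E)).card with hm
  obtain ⟨θ, hθ'⟩ := IsGood.exists_root (ℓ := ℓ) (f := cOver k F L Ω g E)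
  have hθ : θ ∈ rts (cOver k F L Ω g E) := (tb02_mem_rts hGE).2 hθ'
  obtain ⟨s, PA, PB, hPB, hAB⟩ := exists_pow_eq_quot hF H hθ ((z' θ) ^ m / w) (by
    intro σ hσ
    obtain ⟨κ, hκ⟩ := hn σ
    rw [map_div₀, map_pow, hκ θ hθ, hσ, hw, map_prod, Finset.prod_congr rfl hκ,
      Finset.prod_mul_distrib, tb02_prod hGE σ (fun θ => z' θ), Finset.prod_const, mul_pow]
    rw [mul_div_mul_left _ _ (pow_ne_zero _ (zpow_ne_zero _ hζ0))])
  generalize hq : ringExpChar k ^ s = q at hAB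
  have hcop : ℓ.Coprime (m * q) := by
    refine Nat.Coprime.mul_right ?_ ?_
    · exact (tb02_card hGE).symm
    · rw [← hq]
      exact (tb02_coprime H.prime H.ne).pow_right s
  have hsum : ∀ a : F, ∃ i : ℤ,
      ∑ β ∈ (RR F g E).filter (fun β => aeval β g = a), e β = ℓ * i := fun a => he.sum a
  choose i hi using hsum
  set Y : Ω := ∏ a ∈ (RR F g E).image (fun β => aeval β g),
    (tA F L Ω - algebraMap F Ω a) ^ i a with hY
  set c₀ : F := ∏ β ∈ RR F g E, ((-1) ^ (g.natDegree + 1)) ^ e β with hc₀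
  have hc₀0 : c₀ ≠ 0 := by
    rw [hc₀, Finset.prod_ne_zero_iff]
    intro β _
    exact zpow_ne_zero _ (pow_ne_zero _ (neg_ne_zero.2 one_ne_zero))
  have hwℓ : w ^ ℓ = algebraMap F Ω c₀ * Y ^ ℓ := by
    rw [hw, ← Finset.prod_pow, Finset.prod_congr rfl hz'ℓ, tb02_prodE hF H e i hi]
  have hw0 : w ≠ 0 := by
    rw [hw, Finset.prod_ne_zero_iff]
    intro θ' hθ'
    exact tb02_z_ne hF H e hθ' (hz'ℓ _ hθ')
  have hE0 := tb02_E_ne hF H e hθ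
  have hmain : (tb02_E F g E e θ) ^ (m * q) =
      algebraMap F Ω (c₀ ^ q) * ((((z' θ) ^ m / w) ^ q) * Y ^ q) ^ ℓ := by
    have h1 : (tb02_E F g E e θ) ^ m = ((z' θ) ^ m / w) ^ ℓ * (algebraMap F Ω c₀ * Y ^ ℓ) := by
      rw [← hwℓ, ← mul_pow, div_mul_cancel₀ _ hw0, ← hz'ℓ θ hθ, ← pow_mul, ← pow_mul, mul_comm]
    rw [pow_mul, h1, map_pow]
    ring
  have hK : (((z' θ) ^ m / w) ^ q) * Y ^ q ∈ IntermediateField.adjoin F ({θ} : Set Ω) := by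
    refine mul_mem ?_ (pow_mem ?_ _)
    · rw [hAB]
      exact (IntermediateField.mem_adjoin_simple_iff F _).2 ⟨PA, PB, rfl⟩
    · rw [hY]
      refine prod_mem fun a _ => zpow_mem (sub_mem ?_ (algebraMap_mem _ a)) _
      rw [tb02_t hGE hF hθ]
      exact (IntermediateField.mem_adjoin_simple_iff F _).2
        ⟨g.map (algebraMap k F), 1, by rw [map_one, _root_.div_one]⟩
  obtain ⟨r, r', hr'⟩ := (IntermediateField.mem_adjoin_simple_iff F _).1 hK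
  rw [hr'] at hmain
  have hr0 : r' ≠ 0 := by
    rintro rfl
    rw [map_zero, div_zero, zero_pow H.prime.ne_zero, mul_zero] at hmain
    exact pow_ne_zero _ hE0 hmain
  have hfin := dvd_of_prod_eq_pow (aeval_root_injective hF H hθ) (ℓ := ℓ) (RR F g E)
    (fun β => ((m * q : ℕ) : ℤ) * e β) (c₀ ^ q) (pow_ne_zero _ hc₀0) r r' hr0 (by
      rw [← hmain, ← zpow_natCast]
      exact tb02_E_mul _ e θ)
  intro β hβ
  have h2 := hfin β hβ
  exact (Nat.isCoprime_iff_coprime.2 hcop).dvd_of_dvd_mul_left h2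

end Pool.Agent.Lib.MP_89bcae_ag.Sup

end

section

open Polynomial IsDedekindDomain

open scoped Classical

set_option linter.unusedSectionVars false

namespace Pool.Agent.Lib.MP_89bcae_ag.Sup

universe u

variable {k F L Ω : Type u} [Field k] [Field F] [Algebra k F] [Field L] [Algebra F[X] L]
  [Field Ω] [Algebra L Ω] [IsAlgClosure k F] [IsFractionRing F[X] L] [IsAlgClosure L Ω]
  [Algebra F Ω] {ℓ : ℕ} {g E : k[X]} [hG : IsGood ℓ (cOver k F L Ω g 1)] {ζ : k}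
  {hζ : (zA F L Ω ζ) ^ ℓ = 1} {N : Subgroup (Ω ≃ₐ[L] Ω)}

private lemma tb06_mem (hG' : IsGood ℓ (cOver k F L Ω g 1)) {θ : Ω} : θ ∈ rts (cOver k F L Ω g 1) ↔ (cOver k F L Ω g 1).eval θ = 0 :=
  mem_rts hG'.separable.ne_zero

private lemma tb06_stable (hG' : IsGood ℓ (cOver k F L Ω g 1)) (γ : AutO k F L Ω) {θ : Ω} :
    (γ : Ω ≃+* Ω) θ ∈ rts (cOver k F L Ω g 1) ↔ θ ∈ rts (cOver k F L Ω g 1) := by
  rw [tb06_mem hG', tb06_mem hG']
  have h1 := (toSym g 1 γ).2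
  have h2 : (cOver k F L Ω g 1).eval ((γ : Ω ≃+* Ω) θ) =
      (γ : Ω ≃+* Ω) ((cOver k F L Ω g 1).eval θ) := by
    conv_lhs => rw [← h1]
    rw [eval_map]
    exact eval₂_hom (p := cOver k F L Ω g 1) ((γ : Ω ≃+* Ω) : Ω →+* Ω) θ
  rw [h2]
  exact map_eq_zero_iff _ (γ : Ω ≃+* Ω).injective

private lemma tb06_smul_mem (hG' : IsGood ℓ (cOver k F L Ω g 1)) (σ : Ω ≃ₐ[L] Ω) {θ : Ω} :
    σ θ ∈ rts (cOver k F L Ω g 1) ↔ θ ∈ rts (cOver k F L Ω g 1) :=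
  tb06_stable hG' (galA k F σ)

private lemma tb06_exists {ζ x y : Ω} {ℓ : ℕ} (hℓ : ℓ ≠ 0) (hζ : IsPrimitiveRoot ζ ℓ)
    (hy : y ≠ 0) (h : x ^ ℓ = y ^ ℓ) : ∃ n : ℤ, x = ζ ^ n * y := by
  have : NeZero ℓ := ⟨hℓ⟩
  have h1 : (x / y) ^ ℓ = 1 := by
    rw [div_pow, h, div_self (pow_ne_zero _ hy)]
  obtain ⟨i, -, hi⟩ := hζ.eq_pow_of_pow_eq_one h1
  refine ⟨i, ?_⟩
  rw [zpow_natCast, hi, div_mul_cancel₀ _ hy]

private lemma tb06_ne (hF : CompatF F L Ω) (H : GlobHyp ℓ g E ζ) {θ : Ω}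
    (hθ : θ ∈ rts (cOver k F L Ω g 1)) (β : F) : θ - algebraMap F Ω β ≠ 0 := by
  have hΩc : IsAlgClosed Ω := IsAlgClosure.isAlgClosed L
  rw [rts_one H] at hθ
  have h1 : aeval θ (X - C β : F[X]) = θ - algebraMap F Ω β := by
    rw [map_sub, aeval_X, aeval_C]
  rw [← h1, Ne, map_eq_zero_iff _ (aeval_root_injective hF H hθ)]
  exact X_sub_C_ne_zero β

private lemma tb06_z_ne (hF : CompatF F L Ω) (H : GlobHyp ℓ g E ζ) (e : F → ℤ) {x θ : Ω}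
    (hθ : θ ∈ rts (cOver k F L Ω g 1))
    (hx : x ^ ℓ = ∏ β ∈ RR F g E, (θ - algebraMap F Ω β) ^ e β) : x ≠ 0 := by
  rintro rfl
  rw [zero_pow H.prime.ne_zero] at hx
  exact Finset.prod_ne_zero_iff.2 (fun β _ => zpow_ne_zero _ (tb06_ne hF H hθ β)) hx.symm

private lemma tb06_const (hF : CompatF F L Ω) (γ : AutO k F L Ω)
    (hγ : ∀ β ∈ RR F g E, resF γ β = β) :
    ∀ β ∈ RR F g E, (γ : Ω ≃+* Ω) (algebraMap F Ω β) = algebraMap F Ω β := by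
  intro β hβ
  rw [hF β, resF_spec, map_C]
  have h1 : (resF γ : F →+* F) β = β := hγ β hβ
  rw [h1]

private lemma tb06_map_prod (hF : CompatF F L Ω) (γ : AutO k F L Ω)
    (hγ : ∀ β ∈ RR F g E, resF γ β = β) (e : F → ℤ) (θ : Ω) :
    (γ : Ω ≃+* Ω) (∏ β ∈ RR F g E, (θ - algebraMap F Ω β) ^ e β) =
      ∏ β ∈ RR F g E, ((γ : Ω ≃+* Ω) θ - algebraMap F Ω β) ^ e β := by
  rw [map_prod]
  refine Finset.prod_congr rfl fun β hβ => ?_
  rw [map_zpow₀, map_sub, tb06_const hF γ hγ β hβ]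

private lemma tb06_conj (γ : AutO k F L Ω) (σ : Ω ≃ₐ[L] Ω) (x : Ω) :
    (conjG γ⁻¹ σ) x = (γ : Ω ≃+* Ω).symm (σ ((γ : Ω ≃+* Ω) x)) := by
  have h2 := conjG_spec γ⁻¹ σ ((γ : Ω ≃+* Ω) x)
  have h3 : ∀ y : Ω, ((γ⁻¹ : AutO k F L Ω) : Ω ≃+* Ω) y = (γ : Ω ≃+* Ω).symm y :=
    fun y => rfl
  rw [h3, h3, RingEquiv.symm_apply_apply] at h2
  exact h2

private lemma tb06_zsymm (ζ : k) (γ : AutO k F L Ω) :
    (γ : Ω ≃+* Ω).symm (zA F L Ω ζ) = zA F L Ω ζ := by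
  rw [RingEquiv.symm_apply_eq]
  exact (zA_fixed ζ γ).symm

theorem HasExpM.cob_of_dvd (hF : CompatF F L Ω) (H : GlobHyp ℓ g E ζ)
    {h : Ch ℓ k F L Ω g 1} {e : F → ℤ} (he : HasExpM ζ E h e)
    (hd : ∀ β ∈ RR F g E, (ℓ : ℤ) ∣ e β) :
    ∃ m : Ω → ℤ, ∀ σ, h σ = cob (ram m) σ := by
  have Hζ : IsPrimitiveRoot (zA F L Ω ζ) ℓ := zA_primitive H
  have hz0 : zA F L Ω ζ ≠ 0 := Hζ.ne_zero H.prime.ne_zero
  have : NeZero ℓ := ⟨H.prime.ne_zero⟩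
  have h' : HasExpM ζ E h (fun _ => 0) := he.congr hF H (by
    intro β hβ
    rw [zero_sub, dvd_neg]
    exact hd β hβ)
  obtain ⟨z, hz, hzσ⟩ := h'.ex
  have hroot : ∀ θ : Ω, ∃ m : ℤ, θ ∈ rts (cOver k F L Ω g 1) → z θ = zA F L Ω ζ ^ m := by
    intro θ
    by_cases hθ : θ ∈ rts (cOver k F L Ω g 1)
    · have h1 := hz θ hθ
      simp only [zpow_zero, Finset.prod_const_one] at h1
      obtain ⟨i, _, hi⟩ := Hζ.eq_pow_of_pow_eq_one h1
      exact ⟨i, fun _ => by rw [zpow_natCast, hi]⟩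
    · exact ⟨0, fun h => absurd h hθ⟩
  choose m₀ hm₀ using hroot
  have hfix : ∀ σ : Ω ≃ₐ[L] Ω, σ (zA F L Ω ζ) = zA F L Ω ζ := fun σ => zA_fixed ζ (galA k F σ)
  refine ⟨m₀, fun σ => ?_⟩
  have h1 := hzσ σ (fun η => m₀ (σ.symm η) - m₀ η) (by
    intro θ hθ
    rw [hm₀ θ hθ, hm₀ (σ θ) ((tb06_smul_mem hG σ).2 hθ), map_zpow₀, hfix σ, ← zpow_add₀ hz0]
    congr 1
    rw [AlgEquiv.symm_apply_apply]
    ring)
  rw [h1, ram_sub]
  unfold cob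
  rw [symJ_ram]
  rfl

theorem HasExpM.unique (hF : CompatF F L Ω) (H : GlobHyp ℓ g E ζ)
    {h h' : Ch ℓ k F L Ω g 1} {e e' : F → ℤ} (he : HasExpM ζ E h e)
    (he' : HasExpM ζ E h' e') {m : Ω → ℤ} (hh : ∀ σ, h σ = h' σ + cob (ram m) σ) :
    ∀ β ∈ RR F g E, (ℓ : ℤ) ∣ e β - e' β := by
  have hz : (zA F L Ω ζ) ^ ℓ = 1 := (zA_primitive H).pow_eq_one
  have h1 : HasExpM ζ E (h + -h') (fun β => e β + -e' β) := he.add hF H (he'.neg hF H)
  have h2 := h1.dvd_of_cob (hζ := hz) hF H (A := ram m) (zJ_ram _ hz m) (fun σ => by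
    change h σ + -h' σ = _
    rw [hh σ]
    abel)
  intro β hβ
  have h3 := h2 β hβ
  rwa [← sub_eq_add_neg] at h3

/-- The function `z` of `HasExpM` can be used to compute `γ h - h`. -/
theorem HasExpM.act_rel (hF : CompatF F L Ω) (H : GlobHyp ℓ g E ζ)
    {h : Ch ℓ k F L Ω g 1} {e : F → ℤ} (he : HasExpM ζ E h e) (γ : AutO k F L Ω)
    (hγ : ∀ β ∈ RR F g E, resF γ β = β) :
    ∃ (z : Ω → Ω) (q : Ω → ℤ),
      (∀ θ ∈ rts (cOver k F L Ω g 1),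
        z θ ^ ℓ = ∏ β ∈ RR F g E, (θ - algebraMap F Ω β) ^ e β) ∧
      (∀ (σ : Ω ≃ₐ[L] Ω) (n : Ω → ℤ), (∀ θ ∈ rts (cOver k F L Ω g 1),
        σ (z θ) = zA F L Ω ζ ^ n (σ θ) * z (σ θ)) → h σ = ram n) ∧
      (∀ θ ∈ rts (cOver k F L Ω g 1), (γ : Ω ≃+* Ω) (z θ) =
        zA F L Ω ζ ^ q ((γ : Ω ≃+* Ω) θ) * z ((γ : Ω ≃+* Ω) θ)) ∧
      ∀ σ, act1 γ h σ = h σ + cob (ram q) σ := by
  have Hζ : IsPrimitiveRoot (zA F L Ω ζ) ℓ := zA_primitive H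
  have hz0 : zA F L Ω ζ ≠ 0 := Hζ.ne_zero H.prime.ne_zero
  obtain ⟨z, hz, hzσ⟩ := he.ex
  have h1 : ∀ θ : Ω, ∃ i : ℤ, θ ∈ rts (cOver k F L Ω g 1) →
      (γ : Ω ≃+* Ω) (z θ) = zA F L Ω ζ ^ i * z ((γ : Ω ≃+* Ω) θ) := by
    intro θ
    by_cases hθ : θ ∈ rts (cOver k F L Ω g 1)
    · have hγθ := (tb06_stable hG γ).2 hθ
      obtain ⟨i, hi⟩ := tb06_exists H.prime.ne_zero Hζ (tb06_z_ne hF H e hγθ (hz _ hγθ))
        (x := (γ : Ω ≃+* Ω) (z θ)) (by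
          rw [← map_pow, hz θ hθ, hz _ hγθ]
          exact tb06_map_prod hF γ hγ e θ)
      exact ⟨i, fun _ => hi⟩
    · exact ⟨0, fun h => absurd h hθ⟩
  choose i hi using h1
  obtain ⟨q, hq⟩ : ∃ q : Ω → ℤ, ∀ θ, q ((γ : Ω ≃+* Ω) θ) = i θ :=
    ⟨fun η => i ((γ : Ω ≃+* Ω).symm η), fun θ => by
      show i ((γ : Ω ≃+* Ω).symm ((γ : Ω ≃+* Ω) θ)) = i θ
      rw [RingEquiv.symm_apply_apply]⟩
  have hq' : ∀ θ ∈ rts (cOver k F L Ω g 1), (γ : Ω ≃+* Ω) (z θ) =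
      zA F L Ω ζ ^ q ((γ : Ω ≃+* Ω) θ) * z ((γ : Ω ≃+* Ω) θ) := fun θ hθ => by
    rw [hq]
    exact hi θ hθ
  refine ⟨z, q, hz, hzσ, hq', fun σ => ?_⟩
  obtain ⟨n, hn⟩ := HasExpM.exists_n hF H e hz σ
  have hzσ' : ∀ θ ∈ rts (cOver k F L Ω g 1), z ((γ : Ω ≃+* Ω) θ) =
      zA F L Ω ζ ^ (-q ((γ : Ω ≃+* Ω) θ)) * (γ : Ω ≃+* Ω) (z θ) := by
    intro θ hθ
    rw [hq' θ hθ, ← mul_assoc, ← zpow_add₀ hz0, neg_add_cancel, zpow_zero, one_mul]
  have h2 : h (conjG γ⁻¹ σ) = ram (fun φ => q (σ.symm ((γ : Ω ≃+* Ω) φ)) +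
      n ((γ : Ω ≃+* Ω) φ) - q ((γ : Ω ≃+* Ω) φ)) := by
    apply hzσ
    intro θ hθ
    have hγθ := (tb06_stable hG γ).2 hθ
    have hφ : (conjG γ⁻¹ σ) θ ∈ rts (cOver k F L Ω g 1) := (tb06_smul_mem hG _).2 hθ
    have hγφ : (γ : Ω ≃+* Ω) ((conjG γ⁻¹ σ) θ) = σ ((γ : Ω ≃+* Ω) θ) := by
      rw [tb06_conj, RingEquiv.apply_symm_apply]
    have h3 := hzσ' _ hφ
    rw [hγφ] at h3
    rw [hγφ, AlgEquiv.symm_apply_apply, tb06_conj γ σ (z θ), RingEquiv.symm_apply_eq, hq' θ hθ,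
      map_mul, map_zpow₀, show σ (zA F L Ω ζ) = zA F L Ω ζ from zA_fixed ζ (galA k F σ), hn _ hγθ,
      h3, map_mul, map_zpow₀, zA_fixed, zpow_sub₀ hz0, zpow_add₀ hz0, zpow_neg]
    ring
  unfold act1
  rw [h2, symJ_ram]
  have h4 : (fun θ => q (σ.symm ((γ : Ω ≃+* Ω) ((((toSym g 1 γ)⁻¹ :
      Sym (cOver k F L Ω g 1)) : Ω ≃+* Ω) θ))) +
      n ((γ : Ω ≃+* Ω) ((((toSym g 1 γ)⁻¹ : Sym (cOver k F L Ω g 1)) : Ω ≃+* Ω) θ)) -
      q ((γ : Ω ≃+* Ω) ((((toSym g 1 γ)⁻¹ : Sym (cOver k F L Ω g 1)) : Ω ≃+* Ω) θ))) =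
      fun θ => (n θ + q (σ.symm θ)) - q θ := by
    funext θ
    have h5 : (γ : Ω ≃+* Ω) ((((toSym g 1 γ)⁻¹ : Sym (cOver k F L Ω g 1)) : Ω ≃+* Ω) θ) = θ :=
      (γ : Ω ≃+* Ω).apply_symm_apply θ
    rw [h5, add_comm (q (σ.symm θ))]
  rw [h4, ram_sub, ram_add, ← hzσ σ n hn]
  unfold cob
  rw [symJ_ram, add_sub_assoc]
  rfl

lemma HasExpM.act (hF : CompatF F L Ω) (H : GlobHyp ℓ g E ζ) {h : Ch ℓ k F L Ω g 1}
    {e : F → ℤ} (he : HasExpM ζ E h e) (γ : AutO k F L Ω)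
    (hγ : ∀ β ∈ RR F g E, resF γ β = β) : HasExpM ζ E (act1 γ h) e := by
  obtain ⟨z, hz, hzn⟩ := he.ex
  refine ⟨he.sum, fun θ => (γ : Ω ≃+* Ω) (z ((γ : Ω ≃+* Ω).symm θ)), fun θ hθ => ?_,
    fun σ n hn => ?_⟩
  · have hθ' : (γ : Ω ≃+* Ω).symm θ ∈ rts (cOver k F L Ω g 1) := by
      rw [← tb06_stable hG γ, RingEquiv.apply_symm_apply]
      exact hθ
    rw [← map_pow, hz _ hθ', tb06_map_prod hF γ hγ, RingEquiv.apply_symm_apply]
  · have h4 : h (conjG γ⁻¹ σ) = ram (fun x => n ((γ : Ω ≃+* Ω) x)) := by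
      apply hzn
      intro θ hθ
      have h5 := hn ((γ : Ω ≃+* Ω) θ) ((tb06_stable hG γ).2 hθ)
      simp only [RingEquiv.symm_apply_apply] at h5
      rw [tb06_conj, tb06_conj, h5, map_mul, RingEquiv.symm_apply_apply,
        RingEquiv.apply_symm_apply, map_zpow₀, tb06_zsymm]
    unfold act1
    rw [h4, symJ_ram]
    congr 1
    funext θ
    exact congrArg n ((γ : Ω ≃+* Ω).apply_symm_apply θ)

end Pool.Agent.Lib.MP_89bcae_ag.Sup

end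

section

open Polynomial IsDedekindDomain

open scoped Classical

set_option linter.unusedSectionVars false

namespace Pool.Agent.Lib.MP_89bcae_ag.Sup

universe u

variable {k F L Ω : Type u} [Field k] [Field F] [Algebra k F] [Field L] [Algebra F[X] L]
  [Field Ω] [Algebra L Ω] [IsAlgClosure k F] [IsFractionRing F[X] L] [IsAlgClosure L Ω]
  [Algebra F Ω] {ℓ : ℕ} {g E : k[X]} [hG : IsGood ℓ (cOver k F L Ω g 1)] {ζ : k}
  {hζ : (zA F L Ω ζ) ^ ℓ = 1} {N : Subgroup (Ω ≃ₐ[L] Ω)}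

private lemma tb05_aeval {A : Type u} [Field A] [Algebra L A] [Algebra F A]
    (hF : CompatF F L A) (p : F[X]) :
    aeval (tA F L A) p = algebraMap L A (algebraMap F[X] L p) := by
  have h1 : ((aeval (tA F L A) : F[X] →ₐ[F] A) : F[X] →+* A) =
      (algebraMap L A).comp (algebraMap F[X] L) := by
    apply Polynomial.ringHom_ext
    · intro c
      rw [AlgHom.coe_toRingHom, aeval_C]
      exact hF c
    · rw [AlgHom.coe_toRingHom, aeval_X]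
      rfl
  exact congrArg (fun f : F[X] →+* A => f p) h1

private lemma tb05_t_inj {A : Type u} [Field A] [Algebra L A] [Algebra F A]
    (hF : CompatF F L A) {p : F[X]} (hp : aeval (tA F L A) p = 0) : p = 0 := by
  rw [tb05_aeval hF] at hp
  have h1 : algebraMap F[X] L p = 0 := (map_eq_zero _).mp hp
  exact (IsFractionRing.injective F[X] L) (h1.trans (map_zero _).symm)

private lemma tb05_zA {A : Type u} [Field A] [Algebra L A] [Algebra F A]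
    (hF : CompatF F L A) (ζ : k) : zA F L A ζ = algebraMap F A (algebraMap k F ζ) := by
  rw [hF]
  unfold zA base
  rw [RingHom.comp_apply, RingHom.comp_apply, coe_mapRingHom, map_C]

private lemma tb05_rts_map {A : Type u} [Field A] [IsAlgClosed A] {B : Type u} [Field B] (f : A[X])
    (i : A →+* B) {x : B} : x ∈ rts (f.map i) ↔ ∃ y ∈ rts f, i y = x := by
  unfold rts
  rw [(IsAlgClosed.splits f).roots_map i, Multiset.mem_toFinset, Multiset.mem_map]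
  constructor
  · rintro ⟨y, hy, h⟩
    exact ⟨y, Multiset.mem_toFinset.mpr hy, h⟩
  · rintro ⟨y, hy, h⟩
    exact ⟨y, Multiset.mem_toFinset.mp hy, h⟩

private lemma tb05_cOver {A B : Type u} [Field A] [Algebra L A] [Field B] [Algebra L B]
    (j : A →ₐ[L] B) (g D : k[X]) :
    (cOver k F L A g D).map (j : A →+* B) = cOver k F L B g D := by
  rw [Polynomial.map_map, AlgHom.comp_algebraMap]

private lemma tb05_root_eq {M : Type u} [Field M] [Algebra L M] (j : Ω →ₐ[L] M)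
    {θ : M} (hθ : θ ∈ rts (cOver k F L M g 1)) :
    ∃ θ₀ ∈ rts (cOver k F L Ω g 1), j θ₀ = θ := by
  have hcl : IsAlgClosed Ω := IsAlgClosure.isAlgClosed L
  rw [← tb05_cOver j, tb05_rts_map] at hθ
  exact hθ

lemma badCtx_lin (H : GlobHyp ℓ g E ζ) {M : Type u} [Field M] [Algebra L M] [Algebra F M]
    (hFM : CompatF F L M) {a : F} (ha : aeval a E = 0) {ϖ : M}
    (hϖ : ϖ ^ ℓ = tA F L M - algebraMap F M a) :
    BadCtx (g.map (algebraMap k F)) (X - C a) a (tA F L M) ϖ ℓ := by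
  have hdeg : g.natDegree ≠ 0 := by
    intro h0
    have h1 := H.cop
    rw [h0, Nat.coprime_zero_left] at h1
    exact H.prime.ne_one h1
  have hdeg' : (g.map (algebraMap k F)).natDegree ≠ 0 := by
    rw [natDegree_map]
    exact hdeg
  have ha' : (E.map (algebraMap k F)).eval a = 0 := by
    rw [eval_map_algebraMap]
    exact ha
  refine ⟨H.monic.map _, hdeg', ?_, by simp, by simp, ?_, by rw [hϖ]; simp, ?_⟩
  · rw [natDegree_map]
    exact H.cop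
  · intro r hr
    have hs : ((E.comp g).map (algebraMap k F)).Separable := H.sep.map
    rw [Polynomial.map_comp] at hs
    have hroot : ((E.map (algebraMap k F)).comp (g.map (algebraMap k F))).eval r = 0 := by
      rw [eval_comp, hr, ha']
    have h1 := U01_deriv_ne hs hroot
    rw [derivative_comp, eval_mul, eval_comp, hr] at h1
    exact left_ne_zero_of_mul h1
  · intro h0
    exact X_sub_C_ne_zero _ (tb05_t_inj hFM h0)

/-- The action of `τ` on the Kummer function. -/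
private lemma tb05_kummer (H : GlobHyp ℓ g E ζ) (e : F → ℤ) {a : F} (ha : aeval a E = 0)
    {K M : Type u} [Field K] [Algebra L K] [Field M] [Algebra K M] [Algebra L M]
    [IsScalarTower L K M] [Algebra F M] (hFM : CompatF F L M) {v : AbsoluteValue M ℝ}
    (hv : LocCtx v a (tA F L M)) (hinv : ∀ (σ : M ≃ₐ[K] M) x, v (σ x) = v x)
    {δ : M} (hδ : δ ^ ℓ = tA F L M - algebraMap F M a)
    [IsAlgClosed M]
    (τ : M ≃ₐ[K] M) (i : ℤ) (hi : τ δ = zA F L M ζ ^ i * δ) {θ z : M}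
    (hθ : θ ∈ rts (cOver k F L M g 1))
    (hz : z ^ ℓ = ∏ β ∈ RR F g E, (θ - algebraMap F M β) ^ e β) :
    τ θ = θ ∧ z ≠ 0 ∧ τ z = zA F L M ζ ^ (i * e (rs F v θ)) * z := by
  have hB := badCtx_lin H hFM ha hδ
  have hconst : ∀ y : L, τ (algebraMap L M y) = algebraMap L M y := by
    intro y
    rw [IsScalarTower.algebraMap_apply L K M]
    exact τ.commutes _
  have hc : ∀ c : F, (τ : M ≃+* M) (algebraMap F M c) = algebraMap F M c := by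
    intro c
    rw [hFM]
    exact hconst _
  have ht : (τ : M ≃+* M) (tA F L M) = tA F L M := hconst _
  have hτ : ∀ x, v ((τ : M ≃+* M) x) = v x := fun x => hinv τ x
  have hθt : aeval θ (g.map (algebraMap k F)) = tA F L M := by
    exact (mem_rts_one H hFM).1 hθ
  have hfix : (τ : M ≃+* M) θ = θ := hv.fix_root hB (τ : M ≃+* M) hτ hc ht hθt
  set β := rs F v θ with hβdef
  have hβ : (g.map (algebraMap k F)).eval β = a := hv.eval_rs hB hθt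
  have hres := hv.v_sub_rs (hv.v_root_le hB.monic hB.deg hθt)
  rw [← hβdef] at hres
  have hne : ∀ c : F, θ - algebraMap F M c ≠ 0 := by
    intro c h0
    have h1 : θ = algebraMap F M c := sub_eq_zero.mp h0
    rw [h1, aeval_algebraMap_apply] at hθt
    have h2 : aeval (tA F L M) (X - C (aeval c (g.map (algebraMap k F))) : F[X]) = 0 := by
      rw [map_sub, aeval_X, aeval_C, hθt, sub_self]
    exact X_sub_C_ne_zero _ (tb05_t_inj hFM h2)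
  have hβR : β ∈ RR F g E := by
    rw [mem_RR H]
    rw [eval_map_algebraMap] at hβ
    rw [hβ]
    exact ha
  have hzne : z ≠ 0 := by
    intro h0
    rw [h0, zero_pow H.prime.ne_zero] at hz
    have h1 : ∏ β ∈ RR F g E, (θ - algebraMap F M β) ^ e β ≠ 0 :=
      Finset.prod_ne_zero_iff.mpr fun c _ => zpow_ne_zero _ (hne c)
    exact h1 hz.symm
  refine ⟨hfix, hzne, ?_⟩
  have hta : tA F L M - algebraMap F M a ≠ 0 := sub_ne_zero.mpr hv.ne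
  have hδ0 : δ ≠ 0 := by
    intro h0
    apply hta
    rw [← hδ, h0, zero_pow H.prime.ne_zero]
  have hquot := hv.residue_quot hB hθt
  rw [← hβdef] at hquot
  have hv1 : v ((tA F L M - algebraMap F M a) / (θ - algebraMap F M β)) = 1 :=
    hv.v_eq_one hquot (hB.roots β hβ)
  have hv2 : v (tA F L M - algebraMap F M a) = v (θ - algebraMap F M β) := by
    rw [map_div₀] at hv1
    exact (div_eq_one_iff_eq ((_root_.map_ne_zero v).mpr (hne β))).mp hv1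
  set w₁ : M := (θ - algebraMap F M β) / (tA F L M - algebraMap F M a) with hw₁
  have hw₁v : v w₁ = 1 := by
    rw [hw₁, map_div₀, hv2, div_self ((_root_.map_ne_zero v).mpr (hne β))]
  have hDt : (τ : M ≃+* M) (tA F L M - algebraMap F M a) = tA F L M - algebraMap F M a := by
    rw [map_sub, ht, hc]
  have hw₁τ : (τ : M ≃+* M) w₁ = w₁ := by
    rw [hw₁, map_div₀, hDt, map_sub, hfix, hc]
  set w₂ : M := ∏ β' ∈ (RR F g E).erase β, (θ - algebraMap F M β') ^ e β' with hw₂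
  have hw₂v : v w₂ = 1 := by
    rw [hw₂, map_prod]
    apply Finset.prod_eq_one
    intro β' hβ'
    have hne' : β - β' ≠ 0 := sub_ne_zero.mpr (Finset.ne_of_mem_erase hβ').symm
    have h1 : v (θ - algebraMap F M β' - algebraMap F M (β - β')) < 1 := by
      have h2 : θ - algebraMap F M β' - algebraMap F M (β - β') = θ - algebraMap F M β := by
        rw [map_sub]
        ring
      rw [h2]
      exact hres
    rw [map_zpow₀, hv.v_eq_one h1 hne', one_zpow]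
  have hw₂τ : (τ : M ≃+* M) w₂ = w₂ := by
    rw [hw₂, map_prod]
    apply Finset.prod_congr rfl
    intro β' _
    rw [map_zpow₀, map_sub, hfix, hc]
  have hzw : z ^ ℓ = (δ ^ ℓ) ^ e β * (w₁ ^ e β * w₂) := by
    rw [hz, ← Finset.mul_prod_erase _ _ hβR, ← hw₂, hδ, ← mul_assoc, ← mul_zpow, hw₁,
      mul_div_cancel₀ _ hta]
  have hi' : (τ : M ≃+* M) δ = algebraMap F M (algebraMap k F ζ) ^ i * δ := by
    rw [← tb05_zA hFM]
    exact hi
  have hζF : IsPrimitiveRoot (algebraMap k F ζ) ℓ :=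
    H.zeta.map_of_injective (algebraMap k F).injective
  have hfin := hv.char_of_unit H.prime.ne_zero hδ0 hζF (τ : M ≃+* M) hτ hc (e β) i hi' hzw
    (by rw [map_mul, map_zpow₀, hw₁τ, hw₂τ]) (by rw [map_mul, map_zpow₀, hw₁v, hw₂v, one_zpow, one_mul])
  rw [tb05_zA hFM]
  exact hfin

theorem HasExpM.local_char (hF : CompatF F L Ω) (H : GlobHyp ℓ g E ζ)
    {h : Ch ℓ k F L Ω g 1} {e : F → ℤ} (he : HasExpM ζ E h e) {a : F} (ha : aeval a E = 0)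
    {K M : Type u} [Field K] [Algebra L K] [Field M] [Algebra K M] [Algebra L M]
    [IsScalarTower L K M] [Algebra F M] (hFM : CompatF F L M)
    [hGM : IsGood ℓ (cOver k F L M g 1)] {v : AbsoluteValue M ℝ}
    (hv : LocCtx v a (tA F L M)) (hinv : ∀ (σ : M ≃ₐ[K] M) x, v (σ x) = v x)
    (j : Ω →ₐ[L] M) {ϖ : M} (hϖ : ϖ ^ ℓ = tA F L M - algebraMap F M a)
    (τ : M ≃ₐ[K] M) (τ' : Ω ≃ₐ[L] Ω) (hτ : ∀ x, j (τ' x) = τ (j x)) (i : ℤ)
    (hi : τ ϖ = zA F L M ζ ^ i * ϖ) :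
    push ℓ (curvePoly k F L g 1) j (h τ') = ram fun θ => i * e (rs F v θ) := by
  obtain ⟨z, hz, hch⟩ := he.ex
  obtain ⟨n, hn⟩ := HasExpM.exists_n hF H e hz τ'
  rw [hch τ' n hn]
  have hjinj : Function.Injective j := (j : Ω →+* M).injective
  have hclM : IsAlgClosed M := hGM.alg
  have hcM0 : cOver k F L M g 1 ≠ 0 := hGM.separable.ne_zero
  have h1 : push ℓ (curvePoly k F L g 1) j (ram n) = ram (Function.extend j n 0) :=
    jacMap_ram (j : Ω →+* M) _ n _ fun θ _ => hjinj.extend_apply n 0 θ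
  rw [h1]
  apply ram_congr
  intro θ hθ
  have hθ' : θ ∈ rts (cOver k F L M g 1) := (mem_rts hcM0).mpr hθ
  obtain ⟨θ₀, hθ₀, hjθ⟩ := tb05_root_eq j hθ'
  rw [← hjθ, hjinj.extend_apply, hjθ]
  have hzj : (j (z θ₀)) ^ ℓ = ∏ β ∈ RR F g E, (θ - algebraMap F M β) ^ e β := by
    rw [← map_pow, hz θ₀ hθ₀, map_prod]
    apply Finset.prod_congr rfl
    intro β _
    rw [map_zpow₀, map_sub, hjθ, hF, hFM, j.commutes]
  obtain ⟨hfix, hzne, hτz⟩ := tb05_kummer H e ha hFM hv hinv hϖ τ i hi hθ' hzj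
  have hfix₀ : τ' θ₀ = θ₀ := by
    apply hjinj
    rw [hτ, hjθ]
    exact hfix
  have h2 := congrArg j (hn θ₀ hθ₀)
  rw [hτ, hfix₀, map_mul, map_zpow₀, map_zA, hτz] at h2
  have h3 := mul_right_cancel₀ hzne h2
  have hprim : IsPrimitiveRoot (zA F L M ζ) ℓ := by
    rw [tb05_zA hFM]
    exact (H.zeta.map_of_injective (algebraMap k F).injective).map_of_injective
      (algebraMap F M).injective
  have hζ0 : zA F L M ζ ≠ 0 := hprim.ne_zero H.prime.ne_zero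
  rw [← hprim.zpow_eq_one_iff_dvd, zpow_sub₀ hζ0, ← h3, div_self (zpow_ne_zero _ hζ0)]

end Pool.Agent.Lib.MP_89bcae_ag.Sup

end

end

section

attribute [local instance 100000] Pool.Agent.Lib.MP_89bcae_ag.Brt.tffFields
attribute [local instance 100000] Pool.Agent.Lib.MP_89bcae_ag.Wt.ifrNF Pool.Agent.Lib.MP_89bcae_ag.Wt.iddNF

section

open Polynomial IsDedekindDomain

open scoped Classical

set_option linter.unusedSectionVars false

namespace Pool.Agent.Lib.MP_89bcae_ag.Sup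

universe u

variable {k F L Ω : Type u} [Field k] [Field F] [Algebra k F] [Field L] [Algebra F[X] L]
  [Field Ω] [Algebra L Ω] [IsAlgClosure k F] [IsFractionRing F[X] L] [IsAlgClosure L Ω]
  {ℓ : ℕ} {g D : k[X]} [hG : IsGood ℓ (cOver k F L Ω g D)] {N : Subgroup (Ω ≃ₐ[L] Ω)}

lemma act_apply1 (γ : AutO k F L Ω) (c : Coch ℓ k F L Ω g D) (n : ℕ) :
    act γ c n = act1 γ (c n) := rfl

lemma act1_one (x : Ch ℓ k F L Ω g D) : act1 (1 : AutO k F L Ω) x = x := by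
  funext σ
  unfold act1
  rw [inv_one, map_one, map_one, MulAut.one_apply]
  exact symJ_one _

lemma act1_mul (γ γ' : AutO k F L Ω) (x : Ch ℓ k F L Ω g D) :
    act1 (γ * γ') x = act1 γ (act1 γ' x) := by
  funext σ
  unfold act1
  rw [mul_inv_rev, map_mul, map_mul, MulAut.mul_apply]
  exact symJ_mul _ _ _

lemma act1_add (γ : AutO k F L Ω) (x y : Ch ℓ k F L Ω g D) :
    act1 γ (x + y) = act1 γ x + act1 γ y := by
  funext σ
  exact map_add (symJ (toSym g D γ)) _ _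

lemma act1_sub (γ : AutO k F L Ω) (x y : Ch ℓ k F L Ω g D) :
    act1 γ (x - y) = act1 γ x - act1 γ y := by
  funext σ
  exact map_sub (symJ (toSym g D γ)) _ _


lemma act1_nsmul (γ : AutO k F L Ω) (n : ℕ) (x : Ch ℓ k F L Ω g D) :
    act1 γ (n • x) = n • act1 γ x := by
  funext σ
  exact map_nsmul (symJ (toSym g D γ)) _ _

lemma act1_zJ (γ : AutO k F L Ω) (ζ : k) (hζ : (zA F L Ω ζ) ^ ℓ = 1)
    (x : Ch ℓ k F L Ω g D) :
    act1 γ (fun σ => zJ (zA F L Ω ζ) hζ (x σ)) = fun σ => zJ (zA F L Ω ζ) hζ (act1 γ x σ) := by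
  funext σ
  exact (zJ_symJ (zA F L Ω ζ) hζ (toSym g D γ) (zA_fixed ζ γ) _).symm

lemma act1_vJ (γ : AutO k F L Ω) (ζ : k) (hζ : (zA F L Ω ζ) ^ ℓ = 1)
    (x : Ch ℓ k F L Ω g D) :
    act1 γ (fun σ => vJ (zA F L Ω ζ) hζ (x σ)) = fun σ => vJ (zA F L Ω ζ) hζ (act1 γ x σ) := by
  funext σ
  exact (vJ_symJ (zA F L Ω ζ) hζ (toSym g D γ) (zA_fixed ζ γ) _).symm

/-- `act1 γ x` on `N` depends only on `x` on `N`. -/
lemma act1_congr (hN : Nrm k F N) (γ : AutO k F L Ω) {x y : Ch ℓ k F L Ω g D}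
    (h : ∀ σ ∈ N, x σ = y σ) : ∀ σ ∈ N, act1 γ x σ = act1 γ y σ := by
  intro σ hσ
  unfold act1
  rw [h _ (hN γ⁻¹ σ hσ)]

lemma cob_apply (A : JacOver ℓ (curvePoly k F L g D) Ω) (σ : Ω ≃ₐ[L] Ω) :
    cob A σ = symJ (toSym g D (galA k F σ)) A - A := rfl

lemma cob_zero : cob (0 : JacOver ℓ (curvePoly k F L g D) Ω) = (0 : Ch ℓ k F L Ω g D) := by
  funext σ
  rw [cob_apply, map_zero, sub_zero]
  rfl

lemma cob_add (A B : JacOver ℓ (curvePoly k F L g D) Ω) :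
    cob (A + B) = cob A + cob B := by
  funext σ
  change cob (A + B) σ = cob A σ + cob B σ
  rw [cob_apply, cob_apply, cob_apply, map_add]
  abel

lemma cob_neg (A : JacOver ℓ (curvePoly k F L g D) Ω) : cob (-A) = -cob A := by
  funext σ
  change cob (-A) σ = -cob A σ
  rw [cob_apply, cob_apply, map_neg]
  abel

lemma cob_sub (A B : JacOver ℓ (curvePoly k F L g D) Ω) :
    cob (A - B) = cob A - cob B := by
  funext σ
  change cob (A - B) σ = cob A σ - cob B σ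
  rw [cob_apply, cob_apply, cob_apply, map_sub]
  abel

lemma cob_nsmul (n : ℕ) (A : JacOver ℓ (curvePoly k F L g D) Ω) : cob (n • A) = n • cob A := by
  funext σ
  change cob (n • A) σ = n • cob A σ
  rw [cob_apply, cob_apply, map_nsmul, smul_sub]

lemma act1_cob (γ : AutO k F L Ω) (A : JacOver ℓ (curvePoly k F L g D) Ω) :
    act1 γ (cob A) = cob (symJ (toSym g D γ) A) := by
  funext σ
  unfold act1
  rw [cob_apply, cob_apply, map_sub, galA_conjG, ← symJ_mul, ← symJ_mul, ← map_mul, ← map_mul]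
  have h : γ * (γ⁻¹ * galA k F σ * γ⁻¹⁻¹) = galA k F σ * γ := by group
  rw [h]

lemma zJ_cob (ζ : k) (hζ : (zA F L Ω ζ) ^ ℓ = 1) (A : JacOver ℓ (curvePoly k F L g D) Ω)
    (σ : Ω ≃ₐ[L] Ω) : zJ (zA F L Ω ζ) hζ (cob A σ) = cob (zJ (zA F L Ω ζ) hζ A) σ := by
  rw [cob_apply, cob_apply, map_sub, zJ_symJ (zA F L Ω ζ) hζ (toSym g D (galA k F σ)) (zA_fixed ζ (galA k F σ))]

lemma vJ_cob (ζ : k) (hζ : (zA F L Ω ζ) ^ ℓ = 1) (A : JacOver ℓ (curvePoly k F L g D) Ω)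
    (σ : Ω ≃ₐ[L] Ω) : vJ (zA F L Ω ζ) hζ (cob A σ) = cob (vJ (zA F L Ω ζ) hζ A) σ := by
  rw [cob_apply, cob_apply, vJ_sub, vJ_symJ (zA F L Ω ζ) hζ (toSym g D (galA k F σ)) (zA_fixed ζ (galA k F σ))]

lemma C1s.zero' : C1s N (0 : Ch ℓ k F L Ω g D) where
  cocycle σ _ τ _ := by
    change (0 : JacOver ℓ (curvePoly k F L g D) Ω) = 0 + symJ (toSym g D (galA k F σ)) 0
    rw [map_zero, add_zero]
  cont := ⟨∅, fun _ _ _ => rfl⟩

lemma C1s.add {x y : Ch ℓ k F L Ω g D} (hx : C1s N x) (hy : C1s N y) : C1s N (x + y) where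
  cocycle σ hσ τ hτ := by
    simp only [Pi.add_apply]
    rw [hx.cocycle σ hσ τ hτ, hy.cocycle σ hσ τ hτ, map_add]
    abel
  cont := by
    obtain ⟨S, hS⟩ := hx.cont
    obtain ⟨T, hT⟩ := hy.cont
    refine ⟨S ∪ T, fun σ hσ h => ?_⟩
    change x σ + y σ = 0
    rw [hS σ hσ fun z hz => h z (Finset.mem_union_left _ hz),
      hT σ hσ fun z hz => h z (Finset.mem_union_right _ hz), add_zero]

lemma C1s.neg {x : Ch ℓ k F L Ω g D} (hx : C1s N x) : C1s N (-x) where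
  cocycle σ hσ τ hτ := by
    simp only [Pi.neg_apply]
    rw [hx.cocycle σ hσ τ hτ, map_neg]
    abel
  cont := by
    obtain ⟨S, hS⟩ := hx.cont
    refine ⟨S, fun σ hσ h => ?_⟩
    change -(x σ) = 0
    rw [hS σ hσ h, neg_zero]

lemma C1s.sub {x y : Ch ℓ k F L Ω g D} (hx : C1s N x) (hy : C1s N y) : C1s N (x - y) := by
  rw [sub_eq_add_neg]
  exact hx.add hy.neg


lemma C1s.cob (A : JacOver ℓ (curvePoly k F L g D) Ω) : C1s N (Sup.cob A) where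
  cocycle σ _ τ _ := by
    rw [cob_apply, cob_apply, cob_apply, map_sub, map_mul, map_mul, symJ_mul]
    abel
  cont := by
    obtain ⟨E, rfl⟩ := cl_surjective A
    refine ⟨E.support.image (fun P : Pt ℓ (cOver k F L Ω g D) => P.x) ∪
      E.support.image (fun P : Pt ℓ (cOver k F L Ω g D) => P.y), fun σ _ h => ?_⟩
    rw [cob_apply, sub_eq_zero, symJ_cl]
    congr 1
    have h1 : Finsupp.mapDomain (Pt.sym (toSym g D (galA k F σ))) E = Finsupp.mapDomain id E := by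
      refine Finsupp.mapDomain_congr fun P hP => ?_
      refine Pt.ext ?_ ?_
      · exact h P.x (Finset.mem_union_left _ (Finset.mem_image_of_mem _ hP))
      · exact h P.y (Finset.mem_union_right _ (Finset.mem_image_of_mem _ hP))
    rw [h1, Finsupp.mapDomain_id]

lemma C1s.zJ (ζ : k) (hζ : (zA F L Ω ζ) ^ ℓ = 1) {x : Ch ℓ k F L Ω g D} (hx : C1s N x) :
    C1s N (fun σ => Sup.zJ (zA F L Ω ζ) hζ (x σ)) where
  cocycle σ hσ τ hτ := by
    rw [hx.cocycle σ hσ τ hτ, map_add,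
      zJ_symJ (zA F L Ω ζ) hζ (toSym g D (galA k F σ)) (zA_fixed ζ (galA k F σ))]
  cont := by
    obtain ⟨S, hS⟩ := hx.cont
    refine ⟨S, fun σ hσ h => ?_⟩
    rw [hS σ hσ h, map_zero]

lemma C1s.vJ (ζ : k) (hζ : (zA F L Ω ζ) ^ ℓ = 1) {x : Ch ℓ k F L Ω g D} (hx : C1s N x) :
    C1s N (fun σ => Sup.vJ (zA F L Ω ζ) hζ (x σ)) where
  cocycle σ hσ τ hτ := by
    rw [hx.cocycle σ hσ τ hτ, vJ_add,
      vJ_symJ (zA F L Ω ζ) hζ (toSym g D (galA k F σ)) (zA_fixed ζ (galA k F σ))]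
  cont := by
    obtain ⟨S, hS⟩ := hx.cont
    refine ⟨S, fun σ hσ h => ?_⟩
    have h0 := vJ_sub (zA F L Ω ζ) hζ (x σ) (x σ)
    rw [sub_self, sub_self] at h0
    rw [hS σ hσ h, h0]

lemma C1s.act1 (hN : Nrm k F N) {x : Ch ℓ k F L Ω g D} (hx : C1s N x) (γ : AutO k F L Ω) :
    C1s N (Sup.act1 γ x) where
  cocycle σ hσ τ hτ := by
    unfold Sup.act1
    rw [map_mul, hx.cocycle _ (hN γ⁻¹ σ hσ) _ (hN γ⁻¹ τ hτ), map_add, ← symJ_mul, ← symJ_mul,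
      ← map_mul, ← map_mul, galA_conjG]
    have e : γ * (γ⁻¹ * galA k F σ * γ⁻¹⁻¹) = galA k F σ * γ := by group
    rw [e]
  cont := by
    obtain ⟨S, hS⟩ := hx.cont
    refine ⟨S.image (γ : Ω ≃+* Ω), fun σ hσ h => ?_⟩
    unfold Sup.act1
    rw [hS _ (hN γ⁻¹ σ hσ), map_zero]
    intro z hz
    have h1 := h _ (Finset.mem_image_of_mem _ hz)
    have h2 := conjG_spec γ⁻¹ σ ((γ : Ω ≃+* Ω) z)
    have h3 : ((γ⁻¹ : AutO k F L Ω) : Ω ≃+* Ω) ((γ : Ω ≃+* Ω) z) = z :=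
      (γ : Ω ≃+* Ω).symm_apply_apply z
    rw [h1, h3] at h2
    exact h2


lemma C1s.mono {N' : Subgroup (Ω ≃ₐ[L] Ω)} (hN : N' ≤ N) {x : Ch ℓ k F L Ω g D}
    (hx : C1s N x) : C1s N' x where
  cocycle σ hσ τ hτ := hx.cocycle σ (hN hσ) τ (hN hτ)
  cont := by
    obtain ⟨S, hS⟩ := hx.cont
    exact ⟨S, fun σ hσ h => hS σ (hN hσ) h⟩

lemma C1s.map_one {x : Ch ℓ k F L Ω g D} (hx : C1s N x) : x 1 = 0 := by
  have h := hx.cocycle 1 N.one_mem 1 N.one_mem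
  rw [mul_one, _root_.map_one, _root_.map_one, symJ_one] at h
  exact left_eq_add.1 h

/-- For `h` in `N`: `h x - x` is the coboundary of `x h` on `N`. -/
lemma act1_galA_sub {x : Ch ℓ k F L Ω g D} (hx : C1s N x) {h : Ω ≃ₐ[L] Ω} (hh : h ∈ N) :
    ∀ σ ∈ N, act1 (galA k F h) x σ = x σ + cob (x h) σ := by
  intro σ hσ
  unfold act1
  have h1 : conjG (galA k F h : AutO k F L Ω)⁻¹ σ = h⁻¹ * σ * h := by
    rw [← map_inv, conjG_galA, inv_inv]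
  have h2 : h * (h⁻¹ * σ * h) = σ * h := by group
  have h3 := hx.cocycle h hh (h⁻¹ * σ * h) (N.mul_mem (N.mul_mem (N.inv_mem hh) hσ) hh)
  rw [h2, hx.cocycle σ hσ h hh] at h3
  rw [h1, cob_apply]
  rw [eq_comm, ← sub_eq_iff_eq_add'] at h3
  rw [← h3]
  abel

end Pool.Agent.Lib.MP_89bcae_ag.Sup

end

section

open Polynomial IsDedekindDomain

open scoped Classical

set_option linter.unusedSectionVars false

namespace Pool.Agent.Lib.MP_89bcae_ag.Sup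

universe u

variable {k F L Ω : Type u} [Field k] [Field F] [Algebra k F] [Field L] [Algebra F[X] L]
  [Field Ω] [Algebra L Ω] [IsAlgClosure k F] [IsFractionRing F[X] L] [IsAlgClosure L Ω]
  {ℓ : ℕ} {g D : k[X]} [hG : IsGood ℓ (cOver k F L Ω g D)] {N : Subgroup (Ω ≃ₐ[L] Ω)}

lemma TCs.zero' : TCs N (0 : Coch ℓ k F L Ω g D) where
  c1 _ := C1s.zero'
  zero _ _ := rfl
  smul _ _ _ := smul_zero _

lemma TCs.add {c c' : Coch ℓ k F L Ω g D} (hc : TCs N c) (hc' : TCs N c') :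
    TCs N (c + c') where
  c1 n := (hc.c1 n).add (hc'.c1 n)
  zero σ hσ := by
    rw [Pi.add_apply, Pi.add_apply, hc.zero σ hσ, hc'.zero σ hσ, add_zero]
  smul n σ hσ := by
    rw [Pi.add_apply, Pi.add_apply, Pi.add_apply, Pi.add_apply, smul_add, hc.smul n σ hσ,
      hc'.smul n σ hσ]

lemma TCs.neg {c : Coch ℓ k F L Ω g D} (hc : TCs N c) : TCs N (-c) where
  c1 n := (hc.c1 n).neg
  zero σ hσ := by
    rw [Pi.neg_apply, Pi.neg_apply, hc.zero σ hσ, neg_zero]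
  smul n σ hσ := by
    rw [Pi.neg_apply, Pi.neg_apply, Pi.neg_apply, Pi.neg_apply, smul_neg, hc.smul n σ hσ]

lemma TCs.sub {c c' : Coch ℓ k F L Ω g D} (hc : TCs N c) (hc' : TCs N c') :
    TCs N (c - c') := by
  rw [sub_eq_add_neg]
  exact hc.add hc'.neg

lemma TCs.zC {c : Coch ℓ k F L Ω g D} (hc : TCs N c) (ζ : k) (hζ : (zA F L Ω ζ) ^ ℓ = 1) :
    TCs N (Sup.zC ζ hζ c) where
  c1 n := (hc.c1 n).zJ ζ hζ
  zero σ hσ := by
    change zJ (zA F L Ω ζ) hζ (c 0 σ) = 0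
    rw [hc.zero σ hσ, map_zero]
  smul n σ hσ := by
    change ℓ • zJ (zA F L Ω ζ) hζ (c (n + 1) σ) = zJ (zA F L Ω ζ) hζ (c n σ)
    rw [← map_nsmul, hc.smul n σ hσ]

lemma TCs.act (hN : Nrm k F N) {c : Coch ℓ k F L Ω g D} (hc : TCs N c) (γ : AutO k F L Ω) :
    TCs N (Sup.act γ c) where
  c1 n := (hc.c1 n).act1 hN γ
  zero σ hσ := by
    change symJ (toSym g D γ) (c 0 (conjG γ⁻¹ σ)) = 0
    rw [hc.zero _ (hN γ⁻¹ σ hσ), map_zero]
  smul n σ hσ := by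
    change ℓ • symJ (toSym g D γ) (c (n + 1) (conjG γ⁻¹ σ)) =
      symJ (toSym g D γ) (c n (conjG γ⁻¹ σ))
    rw [← map_nsmul, hc.smul n _ (hN γ⁻¹ σ hσ)]

lemma TCs.pow_smul {c : Coch ℓ k F L Ω g D} (hc : TCs N c) (n : ℕ) {σ : Ω ≃ₐ[L] Ω}
    (hσ : σ ∈ N) : ℓ ^ n • c n σ = 0 := by
  induction n with
  | zero => rw [pow_zero, one_smul, hc.zero σ hσ]
  | succ n ih => rw [pow_succ, mul_smul, hc.smul n σ hσ, ih]


lemma TTs.zero' : TTs N (0 : Coch ℓ k F L Ω g D) := by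
  refine ⟨TCs.zero', fun n => ⟨0, smul_zero _, fun σ _ => ?_⟩⟩
  rw [cob_zero]
  rfl

lemma TTs.add {c c' : Coch ℓ k F L Ω g D} (hc : TTs N c) (hc' : TTs N c') :
    TTs N (c + c') := by
  refine ⟨hc.1.add hc'.1, fun n => ?_⟩
  obtain ⟨A, hA, hcA⟩ := hc.2 n
  obtain ⟨B, hB, hcB⟩ := hc'.2 n
  refine ⟨A + B, by rw [smul_add, hA, hB, add_zero], fun σ hσ => ?_⟩
  change c n σ + c' n σ = _
  rw [hcA σ hσ, hcB σ hσ, cob_add]
  rfl

lemma TTs.neg {c : Coch ℓ k F L Ω g D} (hc : TTs N c) : TTs N (-c) := by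
  refine ⟨hc.1.neg, fun n => ?_⟩
  obtain ⟨A, hA, hcA⟩ := hc.2 n
  refine ⟨-A, by rw [smul_neg, hA, neg_zero], fun σ hσ => ?_⟩
  change -(c n σ) = _
  rw [hcA σ hσ, cob_neg]
  rfl

lemma TTs.sub {c c' : Coch ℓ k F L Ω g D} (hc : TTs N c) (hc' : TTs N c') :
    TTs N (c - c') := by
  rw [sub_eq_add_neg]
  exact hc.add hc'.neg

lemma TTs.zC {c : Coch ℓ k F L Ω g D} (hc : TTs N c) (ζ : k) (hζ : (zA F L Ω ζ) ^ ℓ = 1) :
    TTs N (Sup.zC ζ hζ c) := by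
  refine ⟨hc.1.zC ζ hζ, fun n => ?_⟩
  obtain ⟨A, hA, hcA⟩ := hc.2 n
  refine ⟨zJ (zA F L Ω ζ) hζ A, by rw [← map_nsmul, hA, map_zero], fun σ hσ => ?_⟩
  change zJ (zA F L Ω ζ) hζ (c n σ) = _
  rw [hcA σ hσ, zJ_cob]

lemma TTs.act (hN : Nrm k F N) {c : Coch ℓ k F L Ω g D} (hc : TTs N c) (γ : AutO k F L Ω) :
    TTs N (Sup.act γ c) := by
  refine ⟨hc.1.act hN γ, fun n => ?_⟩
  obtain ⟨A, hA, hcA⟩ := hc.2 n
  refine ⟨symJ (toSym g D γ) A, by rw [← map_nsmul, hA, map_zero], fun σ hσ => ?_⟩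
  rw [act_apply1, act1_congr hN γ hcA σ hσ, act1_cob]


/-- The elements of `N` act trivially on the classes. -/
lemma act_galA_subs (hN : Nrm k F N) {c : Coch ℓ k F L Ω g D} (hc : TCs N c)
    {h : Ω ≃ₐ[L] Ω} (hh : h ∈ N) : TTs N (act (galA k F h) c - c) := by
  refine ⟨(hc.act hN _).sub hc, fun n => ⟨c n h, hc.pow_smul n hh, fun σ hσ => ?_⟩⟩
  change Sup.act (galA k F h) c n σ - c n σ = _
  rw [act_apply1, act1_galA_sub (hc.c1 n) hh σ hσ]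
  abel

lemma act_neg (γ : AutO k F L Ω) (c : Coch ℓ k F L Ω g D) : act γ (-c) = -act γ c := by
  funext n σ
  exact map_neg (symJ (toSym g D γ)) _

end Pool.Agent.Lib.MP_89bcae_ag.Sup

end

section

open Polynomial IsDedekindDomain

open scoped Classical

set_option linter.unusedSectionVars false

namespace Pool.Agent.Lib.MP_89bcae_ag.Sup

universe u

variable {k F L Ω : Type u} [Field k] [Field F] [Algebra k F] [Field L] [Algebra F[X] L]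
  [Field Ω] [Algebra L Ω] [IsAlgClosure k F] [IsFractionRing F[X] L] [IsAlgClosure L Ω]
  {ℓ : ℕ} {g D : k[X]} [hG : IsGood ℓ (cOver k F L Ω g D)] {N : Subgroup (Ω ≃ₐ[L] Ω)}

/-- The number of roots. -/
private lemma ta06_card_rts {ℓ : ℕ} {E : Type u} [Field E] {f : E[X]} (hG : IsGood ℓ f) :
    (rts f).card = f.natDegree := by
  have := hG.alg
  unfold rts
  rw [Multiset.toFinset_card_of_nodup (nodup_roots hG.separable), IsAlgClosed.card_roots_eq_natDegree]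

/-- A combination of ramification points fixed by `N` is zero. -/
lemma ta06_ram_fixed {ζ : k} (hζ : IsPrimitiveRoot (zA F L Ω ζ) ℓ)
    (hT : Trs (cOver k F L Ω g D) N) (e : Ω → ℤ)
    (hQ : ∀ σ ∈ N, symJ (toSym g D (galA k F σ))
      (ram e : JacOver ℓ (curvePoly k F L g D) Ω) = ram e) :
    (ram e : JacOver ℓ (curvePoly k F L g D) Ω) = 0 := by
  have hf0 : cOver k F L Ω g D ≠ 0 := hG.separable.ne_zero
  have key : ∀ σ ∈ N, ∀ (θ : Ω), θ ∈ rts (cOver k F L Ω g D) →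
      (ℓ : ℤ) ∣ e (σ⁻¹ θ) - e θ := by
    intro σ hσN θ hθ
    have h1 := hQ σ hσN
    rw [symJ_ram] at h1
    have h2 : (ram (fun θ => e (σ⁻¹ θ) - e θ) : JacOver ℓ (curvePoly k F L g D) Ω) = 0 := by
      rw [ram_sub, ← h1]
      rw [sub_eq_zero]
      rfl
    obtain ⟨c, hc⟩ := (ram_eq_zero_iff _ hζ _).mp h2
    have h3 : ∑ θ ∈ rts (cOver k F L Ω g D), (e (σ⁻¹ θ) - e θ) = 0 := by
      rw [Finset.sum_sub_distrib, sub_eq_zero]
      have hmaps : ∀ (τ : Ω ≃ₐ[L] Ω) (θ : Ω), θ ∈ rts (cOver k F L Ω g D) →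
          τ θ ∈ rts (cOver k F L Ω g D) := by
        intro τ θ hθ
        rw [mem_rts hf0] at hθ ⊢
        unfold cOver at hθ ⊢
        rw [eval_map_algebraMap] at hθ ⊢
        rw [aeval_algEquiv, AlgHom.comp_apply, hθ]
        exact map_zero τ
      refine Finset.sum_bij' (fun θ _ => σ⁻¹ θ) (fun θ _ => σ θ) (hmaps σ⁻¹) (hmaps σ) ?_ ?_ ?_
      · intro θ _
        exact σ.apply_symm_apply θ
      · intro θ _
        exact σ.symm_apply_apply θ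
      · intro θ _
        rfl
    have h4 : (ℓ : ℤ) ∣ ∑ θ ∈ rts (cOver k F L Ω g D), (e (σ⁻¹ θ) - e θ - c) := by
      refine Finset.dvd_sum fun θ hθ => hc θ ?_
      exact (mem_rts hf0).mp hθ
    rw [Finset.sum_sub_distrib, h3, Finset.sum_const, zero_sub, dvd_neg, ta06_card_rts hG,
      nsmul_eq_mul] at h4
    have h5 : IsCoprime (ℓ : ℤ) ((cOver k F L Ω g D).natDegree : ℤ) :=
      (Nat.isCoprime_iff_coprime.mpr hG.coprime).symm
    have h6 : (ℓ : ℤ) ∣ c := h5.dvd_of_dvd_mul_left h4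
    have h7 := dvd_add (hc θ ((mem_rts hf0).mp hθ)) h6
    rwa [sub_add_cancel] at h7
  have hne : (rts (cOver k F L Ω g D)).Nonempty := by
    rw [← Finset.card_pos, ta06_card_rts hG, Nat.pos_iff_ne_zero]
    intro h
    have h1 := hG.coprime
    rw [h, Nat.coprime_zero_left] at h1
    exact hG.prime.one_lt.ne' h1
  obtain ⟨θ₀, hθ₀⟩ := hne
  refine (ram_eq_zero_iff _ hζ _).mpr ⟨e θ₀, fun θ hθ => ?_⟩
  have hθ' : θ ∈ rts (cOver k F L Ω g D) := (mem_rts hf0).mpr hθ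
  obtain ⟨σ, hσN, hσ⟩ := hT θ₀ hθ₀ θ hθ'
  have h := key σ hσN θ hθ'
  have h1 : σ⁻¹ θ = θ₀ := by
    rw [← hσ]
    exact σ.symm_apply_apply θ₀
  rw [h1] at h
  rw [← dvd_neg, neg_sub]
  exact h

theorem eq_zero_of_fixN {ζ : k} (hζ : IsPrimitiveRoot (zA F L Ω ζ) ℓ)
    (hT : Trs (cOver k F L Ω g D) N) (n : ℕ) (Q : JacOver ℓ (curvePoly k F L g D) Ω)
    (hn : ℓ ^ n • Q = 0) (hQ : ∀ σ ∈ N, symJ (toSym g D (galA k F σ)) Q = Q) : Q = 0 := by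
  have h0 := iterate_eq_zero_of_smul _ hζ n Q hn
  have key : ∀ (m : ℕ) (Q : JacOver ℓ (curvePoly k F L g D) Ω),
      (∀ σ ∈ N, symJ (toSym g D (galA k F σ)) Q = Q) →
      (fun x => x - zJ (zA F L Ω ζ) hζ.pow_eq_one x)^[m] Q = 0 → Q = 0 := by
    intro m
    induction m with
    | zero => exact fun Q _ h => h
    | succ m ih =>
      intro Q hQ h
      rw [Function.iterate_succ_apply] at h
      have h1 := ih _ (fun σ hσN => by
        have hσ : ((toSym g D (galA k F σ) : Sym (cOver k F L Ω g D)) : Ω ≃+* Ω) (zA F L Ω ζ) =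
            zA F L Ω ζ := zA_fixed ζ (galA k F σ)
        rw [map_sub, ← zJ_symJ _ hζ.pow_eq_one _ hσ, hQ σ hσN]) h
      obtain ⟨e, rfl⟩ := exists_ram_of_zJ_eq _ hζ Q (sub_eq_zero.mp h1).symm
      exact ta06_ram_fixed hζ hT e hQ
  exact key _ Q hQ h0

theorem cob_injN {ζ : k} (hζ : IsPrimitiveRoot (zA F L Ω ζ) ℓ)
    (hT : Trs (cOver k F L Ω g D) N) (n : ℕ) {A B : JacOver ℓ (curvePoly k F L g D) Ω}
    (hA : ℓ ^ n • A = 0) (hB : ℓ ^ n • B = 0) (h : ∀ σ ∈ N, cob A σ = cob B σ) : A = B := by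
  refine sub_eq_zero.mp (eq_zero_of_fixN hζ hT n (A - B) ?_ fun σ hσ => ?_)
  · rw [smul_sub, hA, hB, sub_zero]
  · have h1 := h σ hσ
    rw [cob_apply, cob_apply] at h1
    rw [map_sub]
    have h2 : symJ (toSym g D (galA k F σ)) A - symJ (toSym g D (galA k F σ)) B =
        (symJ (toSym g D (galA k F σ)) A - A) - (symJ (toSym g D (galA k F σ)) B - B) + (A - B) := by
      abel
    rw [h2, h1]
    abel

end Pool.Agent.Lib.MP_89bcae_ag.Sup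

end

section

open Polynomial IsDedekindDomain

open scoped Classical

set_option linter.unusedSectionVars false

namespace Pool.Agent.Lib.MP_89bcae_ag.Sup

universe u

variable {k F L Ω : Type u} [Field k] [Field F] [Algebra k F] [Field L] [Algebra F[X] L]
  [Field Ω] [Algebra L Ω] [IsAlgClosure k F] [IsFractionRing F[X] L] [IsAlgClosure L Ω]
  {ℓ : ℕ} {g D : k[X]} [hG : IsGood ℓ (cOver k F L Ω g D)] {N : Subgroup (Ω ≃ₐ[L] Ω)}

private lemma ta07_pow_smul_add {c : Coch ℓ k F L Ω g D} (hc : TCs N c) (t j : ℕ)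
    {σ : Ω ≃ₐ[L] Ω} (hσ : σ ∈ N) : ℓ ^ t • c (j + t) σ = c j σ := by
  induction t with
  | zero => rw [pow_zero, one_nsmul, add_zero]
  | succ t ih => rw [pow_succ, mul_nsmul', ← add_assoc, hc.smul _ σ hσ, ih]

private lemma ta07_iterate (ζ : k) (hζ : (zA F L Ω ζ) ^ ℓ = 1) (y : Coch ℓ k F L Ω g D) (n : ℕ)
    (σ : Ω ≃ₐ[L] Ω) (m : ℕ) :
    ((fun x : Coch ℓ k F L Ω g D => x - Sup.zC ζ hζ x)^[m] y) n σ =
      (fun x => x - zJ (zA F L Ω ζ) hζ x)^[m] (y n σ) := by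
  induction m with
  | zero => rfl
  | succ m ih =>
    rw [Function.iterate_succ_apply', Function.iterate_succ_apply', ← ih]
    rfl

theorem TTs.of_sub_zC {ζ : k} (hζ : IsPrimitiveRoot (zA F L Ω ζ) ℓ)
    (hT : Trs (cOver k F L Ω g D) N) {c : Coch ℓ k F L Ω g D} (hc : TCs N c)
    (h : TTs N (c - Sup.zC ζ hζ.pow_eq_one c)) : TTs N c := by
  refine ⟨hc, fun n => ?_⟩
  obtain ⟨A, hA, hA2⟩ := h.2 (n + 1)
  have key : ∀ σ ∈ N, c n σ = symJ (toSym g D (galA k F σ)) (vJ (zA F L Ω ζ) hζ.pow_eq_one A) -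
      vJ (zA F L Ω ζ) hζ.pow_eq_one A := by
    intro σ hσ
    have h1 : c (n + 1) σ - zJ (zA F L Ω ζ) hζ.pow_eq_one (c (n + 1) σ) =
        symJ (toSym g D (galA k F σ)) A - A := hA2 σ hσ
    have h3 : vJ (zA F L Ω ζ) hζ.pow_eq_one (c (n + 1) σ) -
        zJ (zA F L Ω ζ) hζ.pow_eq_one (vJ (zA F L Ω ζ) hζ.pow_eq_one (c (n + 1) σ)) =
          ℓ • c (n + 1) σ :=
      vJ_sub_zJ _ hζ _
    rw [← vJ_symJ (zA F L Ω ζ) hζ.pow_eq_one _ (zA_fixed ζ (galA k F σ)), ← vJ_sub, ← h1, vJ_sub,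
      vJ_zJ, h3, hc.smul n σ hσ]
  refine ⟨vJ (zA F L Ω ζ) hζ.pow_eq_one A, ?_, fun σ hσ => key σ hσ⟩
  refine eq_zero_of_fixN hζ hT 1 _ ?_ ?_
  · rw [pow_one, ← mul_nsmul', mul_comm ℓ, ← pow_succ, ← vJ_smul, hA]
    have h0 := vJ_sub (zA F L Ω ζ) hζ.pow_eq_one A A
    rw [sub_self, sub_self] at h0
    exact h0
  · intro σ hσ
    have h5 := hc.pow_smul n hσ
    rw [key σ hσ, nsmul_sub, sub_eq_zero] at h5
    rw [map_nsmul, h5]

theorem TTs.of_smul {ζ : k} (hζ : IsPrimitiveRoot (zA F L Ω ζ) ℓ)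
    (hT : Trs (cOver k F L Ω g D) N) {c : Coch ℓ k F L Ω g D} (hc : TCs N c) {m : ℕ}
    (hm : 0 < m) (h : TTs N (m • c)) : TTs N c := by
  refine ⟨hc, fun n => ?_⟩
  obtain ⟨s, m', hm', hmm⟩ := Nat.exists_eq_pow_mul_and_not_dvd hm.ne' ℓ hG.prime.ne_one
  obtain ⟨A, hA, hA2⟩ := h.2 (n + s)
  have hcop : IsCoprime (m' : ℤ) ((ℓ ^ n : ℕ) : ℤ) := by
    rw [Nat.isCoprime_iff_coprime]
    exact Nat.Coprime.pow_right n ((Nat.Prime.coprime_iff_not_dvd hG.prime).2 hm').symm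
  obtain ⟨a, b, hab⟩ := hcop
  have h1 : ∀ σ ∈ N, m' • c n σ = symJ (toSym g D (galA k F σ)) A - A := by
    intro σ hσ
    have h2 : (m • c) (n + s) σ = symJ (toSym g D (galA k F σ)) A - A := hA2 σ hσ
    have h3 : (m • c) (n + s) σ = m' • c n σ := by
      change m • (c (n + s) σ) = m' • c n σ
      rw [hmm, mul_comm, mul_nsmul', ta07_pow_smul_add hc s n hσ]
    rw [← h3]
    exact h2
  have key : ∀ σ ∈ N, c n σ = symJ (toSym g D (galA k F σ)) (a • A) - a • A := by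
    intro σ hσ
    have h4 : (a * (m' : ℤ) + b * ((ℓ ^ n : ℕ) : ℤ)) • c n σ = c n σ := by
      rw [hab, one_zsmul]
    rw [add_zsmul, mul_zsmul, mul_zsmul, natCast_zsmul, natCast_zsmul, hc.pow_smul n hσ, zsmul_zero,
      add_zero, h1 σ hσ] at h4
    rw [← h4, zsmul_sub, map_zsmul]
  refine ⟨a • A, ?_, fun σ hσ => key σ hσ⟩
  refine eq_zero_of_fixN hζ hT (n + s) _ ?_ ?_
  · rw [smul_comm, smul_comm (ℓ ^ (n + s)) a A, hA, zsmul_zero, nsmul_zero]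
  · intro σ hσ
    have h5 := hc.pow_smul n hσ
    rw [key σ hσ, nsmul_sub, sub_eq_zero] at h5
    rw [map_nsmul, h5]

theorem TTs.of_separated {ζ : k} (hζ : IsPrimitiveRoot (zA F L Ω ζ) ℓ)
    (hT : Trs (cOver k F L Ω g D) N) {c : Coch ℓ k F L Ω g D} (hc : TCs N c)
    (h : ∀ n : ℕ, ∃ y : Coch ℓ k F L Ω g D, TCs N y ∧
      TTs N (c - (fun x => x - Sup.zC ζ hζ.pow_eq_one x)^[n] y)) : TTs N c := by
  refine ⟨hc, fun n => ?_⟩
  obtain ⟨y, hy, h1⟩ := h ((ℓ - 1) * n)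
  obtain ⟨A, hA, hA2⟩ := h1.2 n
  refine ⟨A, hA, fun σ hσ => ?_⟩
  rw [← hA2 σ hσ]
  have h2 : ((fun x : Coch ℓ k F L Ω g D => x - Sup.zC ζ hζ.pow_eq_one x)^[(ℓ - 1) * n] y) n σ =
      0 := by
    rw [ta07_iterate]
    exact iterate_eq_zero_of_smul _ hζ n _ (hy.pow_smul n hσ)
  change c n σ = c n σ -
    ((fun x : Coch ℓ k F L Ω g D => x - Sup.zC ζ hζ.pow_eq_one x)^[(ℓ - 1) * n] y) n σ
  rw [h2, sub_zero]

end Pool.Agent.Lib.MP_89bcae_ag.Sup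

end

section

open Polynomial IsDedekindDomain

open scoped Classical

set_option linter.unusedSectionVars false

namespace Pool.Agent.Lib.MP_89bcae_ag.Sup

universe u

variable {k F L Ω : Type u} [Field k] [Field F] [Algebra k F] [Field L] [Algebra F[X] L]
  [Field Ω] [Algebra L Ω] [IsAlgClosure k F] [IsFractionRing F[X] L] [IsAlgClosure L Ω]
  {ℓ : ℕ} {g D : k[X]} [hG : IsGood ℓ (cOver k F L Ω g D)] {N : Subgroup (Ω ≃ₐ[L] Ω)}

theorem exists_ext {ζ : k} (hζ : IsPrimitiveRoot (zA F L Ω ζ) ℓ)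
    (hT : Trs (cOver k F L Ω g D) N) (hN : Nrm k F N) (hO : Opn N) (n : ℕ)
    {x : Ch ℓ k F L Ω g D} (hx : C1s N x) (hn : ∀ σ ∈ N, ℓ ^ n • x σ = 0)
    (h : ∀ γ : Ω ≃ₐ[L] Ω, ∃ A : JacOver ℓ (curvePoly k F L g D) Ω, ℓ ^ n • A = 0 ∧
      ∀ σ ∈ N, act1 (galA k F γ) x σ = x σ + cob A σ) :
    ∃ y : Ch ℓ k F L Ω g D, C1s ⊤ y ∧ (∀ σ, ℓ ^ n • y σ = 0) ∧ (∀ σ ∈ N, y σ = x σ) ∧
      ∀ γ : Ω ≃ₐ[L] Ω, ∀ σ ∈ N, act1 (galA k F γ) x σ = x σ + cob (y γ) σ := by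
  choose y hy hy' using h
  have hyx : ∀ σ ∈ N, y σ = x σ := by
    intro γ hγ
    refine cob_injN hζ hT n (hy γ) (hn γ hγ) fun σ hσ => ?_
    have h1 := hy' γ σ hσ
    rw [act1_galA_sub hx hγ σ hσ] at h1
    exact (add_left_cancel h1).symm
  refine ⟨y, ⟨?_, ?_⟩, hy, hyx, hy'⟩
  · intro γ _ δ _
    have h0 : ℓ ^ n • (y γ + symJ (toSym g D (galA k F γ)) (y δ)) = 0 := by
      rw [smul_add, hy γ, ← map_nsmul, hy δ, map_zero, add_zero]
    refine cob_injN hζ hT n (hy (γ * δ)) h0 fun σ hσ => ?_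
    have h1 := hy' (γ * δ) σ hσ
    rw [map_mul, act1_mul] at h1
    have h2 := act1_congr hN (galA k F γ) (x := act1 (galA k F δ) x) (y := x + cob (y δ))
      (fun τ hτ => hy' δ τ hτ) σ hσ
    rw [h2, act1_add, act1_cob, Pi.add_apply, hy' γ σ hσ, add_assoc] at h1
    rw [cob_add, Pi.add_apply]
    exact (add_left_cancel h1).symm
  · obtain ⟨S, hS⟩ := hx.cont
    obtain ⟨S', hS'⟩ := hO
    refine ⟨S ∪ S', fun σ _ hσ => ?_⟩
    have h1 : σ ∈ N := hS' σ fun z hz => hσ z (Finset.mem_union_right _ hz)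
    rw [hyx σ h1]
    exact hS σ h1 fun z hz => hσ z (Finset.mem_union_left _ hz)

theorem exists_extM {ζ : k} (hζ : IsPrimitiveRoot (zA F L Ω ζ) ℓ)
    (hT : Trs (cOver k F L Ω g D) N) (hN : Nrm k F N) (hO : Opn N)
    {x : Ch ℓ k F L Ω g D} (hx : MCs ζ hζ.pow_eq_one N x)
    (h : ∀ γ : Ω ≃ₐ[L] Ω, ∃ A : JacOver ℓ (curvePoly k F L g D) Ω, ℓ • A = 0 ∧
      ∀ σ ∈ N, act1 (galA k F γ) x σ = x σ + cob A σ) :
    ∃ y : Ch ℓ k F L Ω g D, MCs ζ hζ.pow_eq_one ⊤ y ∧ (∀ σ ∈ N, y σ = x σ) ∧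
      ∀ γ : Ω ≃ₐ[L] Ω, ∀ σ ∈ N, act1 (galA k F γ) x σ = x σ + cob (y γ) σ := by
  have hn : ∀ σ ∈ N, ℓ ^ 1 • x σ = 0 := by
    intro σ hσ
    obtain ⟨e, he⟩ := exists_ram_of_zJ_eq (zA F L Ω ζ) hζ (x σ) (hx.fixed σ hσ)
    rw [he, pow_one]
    exact smul_ram e
  have h' : ∀ γ : Ω ≃ₐ[L] Ω, ∃ A : JacOver ℓ (curvePoly k F L g D) Ω, ℓ ^ 1 • A = 0 ∧
      ∀ σ ∈ N, act1 (galA k F γ) x σ = x σ + cob A σ := by
    intro γ
    obtain ⟨A, hA, hA'⟩ := h γ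
    exact ⟨A, by rw [pow_one, hA], hA'⟩
  obtain ⟨y, hy, hy1, hyx, hy'⟩ := exists_ext hζ hT hN hO 1 hx.toC1s hn h'
  refine ⟨y, ⟨hy, ?_⟩, hyx, hy'⟩
  intro γ _
  have h0 : ℓ ^ 1 • zJ (zA F L Ω ζ) hζ.pow_eq_one (y γ) = 0 := by
    rw [← map_nsmul, hy1 γ, map_zero]
  refine cob_injN hζ hT 1 h0 (hy1 γ) fun σ hσ => ?_
  have h1 := congrArg (zJ (zA F L Ω ζ) hζ.pow_eq_one) (hy' γ σ hσ)
  have h2 := congrFun (act1_zJ (galA k F γ) ζ hζ.pow_eq_one x) σ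
  rw [← h2] at h1
  have h3 := act1_congr hN (galA k F γ) (x := fun σ => zJ (zA F L Ω ζ) hζ.pow_eq_one (x σ)) (y := x)
    (fun τ hτ => hx.fixed τ hτ) σ hσ
  rw [h3, hy' γ σ hσ, map_add, hx.fixed σ hσ, zJ_cob] at h1
  exact (add_left_cancel h1).symm

theorem exists_extT {ζ : k} (hζ : IsPrimitiveRoot (zA F L Ω ζ) ℓ)
    (hT : Trs (cOver k F L Ω g D) N) (hN : Nrm k F N) (hO : Opn N)
    {c : Coch ℓ k F L Ω g D} (hc : TCs N c)
    (h : ∀ γ : Ω ≃ₐ[L] Ω, TTs N (act (galA k F γ) c - c)) :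
    ∃ c' : Coch ℓ k F L Ω g D, TCs ⊤ c' ∧ ∀ n, ∀ σ ∈ N, c' n σ = c n σ := by
  have h' : ∀ n, ∃ y : Ch ℓ k F L Ω g D, C1s ⊤ y ∧ (∀ σ, ℓ ^ n • y σ = 0) ∧
      (∀ σ ∈ N, y σ = c n σ) ∧
      ∀ γ : Ω ≃ₐ[L] Ω, ∀ σ ∈ N, act1 (galA k F γ) (c n) σ = c n σ + cob (y γ) σ := by
    intro n
    refine exists_ext hζ hT hN hO n (hc.c1 n) (fun σ hσ => hc.pow_smul n hσ) fun γ => ?_
    obtain ⟨A, hA, hA'⟩ := (h γ).2 n
    refine ⟨A, hA, fun σ hσ => ?_⟩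
    have h1 : act1 (galA k F γ) (c n) σ - c n σ = cob A σ := hA' σ hσ
    rw [← h1]
    abel
  choose c' h1 h2 h3 h4 using h'
  refine ⟨c', ⟨h1, ?_, ?_⟩, h3⟩
  · intro σ _
    have h5 := h2 0 σ
    rwa [pow_zero, one_smul] at h5
  · intro n γ _
    have h0 : ℓ ^ n • (ℓ • c' (n + 1) γ) = 0 := by
      rw [← mul_smul, ← pow_succ, h2 (n + 1) γ]
    refine cob_injN hζ hT n h0 (h2 n γ) fun σ hσ => ?_
    have h5 := act1_congr hN (galA k F γ) (x := ℓ • c (n + 1)) (y := c n)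
      (fun τ hτ => hc.smul n τ hτ) σ hσ
    rw [act1_nsmul, Pi.smul_apply, h4 (n + 1) γ σ hσ, h4 n γ σ hσ, smul_add, hc.smul n σ hσ] at h5
    rw [cob_nsmul, Pi.smul_apply]
    exact add_left_cancel h5

/-- Cocycles of `Gal(Ω/L)` which agree on `N` are equal. -/
theorem C1s.eq_of_eqOn {ζ : k} (hζ : IsPrimitiveRoot (zA F L Ω ζ) ℓ)
    (hT : Trs (cOver k F L Ω g D) N) (hN : Nrm k F N) (n : ℕ) {y y' : Ch ℓ k F L Ω g D}
    (hy : C1s ⊤ y) (hy' : C1s ⊤ y') (hn : ∀ σ, ℓ ^ n • y σ = 0) (hn' : ∀ σ, ℓ ^ n • y' σ = 0)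
    (h : ∀ σ ∈ N, y σ = y' σ) : ∀ σ, y σ = y' σ := by
  intro γ
  refine sub_eq_zero.1 (cob_injN hζ hT n (A := y γ - y' γ) (B := 0) ?_ (smul_zero _) fun σ hσ => ?_)
  · rw [smul_sub, hn, hn', sub_zero]
  · have h1 := act1_galA_sub (hy.sub hy') (Subgroup.mem_top γ) σ (Subgroup.mem_top σ)
    have h2 := act1_congr hN (galA k F γ) (x := y - y') (y := 0)
      (fun τ hτ => by rw [Pi.sub_apply, h τ hτ, sub_self]; rfl) σ hσ
    have h3 : Sup.act1 (galA k F γ) (0 : Ch ℓ k F L Ω g D) = 0 := by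
      have h4 := act1_sub (galA k F γ) (0 : Ch ℓ k F L Ω g D) 0
      rwa [sub_self, sub_self] at h4
    rw [h2, h3, Pi.sub_apply, h σ hσ, sub_self, zero_add, Pi.sub_apply] at h1
    rw [← h1, cob_zero]

end Pool.Agent.Lib.MP_89bcae_ag.Sup

end

end
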