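import Mathlib
import Pool.Agent.Lib.MP_89bcae_ag.Tk.K000
import Pool.Agent.Lib.MP_89bcae_ag.Tk.K041
import Pool.Agent.Lib.MP_89bcae_ag.Tk.K043
import Pool.Agent.Lib.MP_89bcae_ag.Tk.K051

set_option linter.all false

section

attribute [local instance 100000] Pool.Agent.Lib.MP_89bcae_ag.Brt.tffFields
attribute [local instance 100000] Pool.Agent.Lib.MP_89bcae_ag.Wt.ifrNF Pool.Agent.Lib.MP_89bcae_ag.Wt.iddNF

section

/-!
The commutator formula.
-/

open Polynomial IsDedekindDomain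

open scoped Classical

set_option linter.unusedSectionVars false

namespace Pool.Agent.Lib.MP_89bcae_ag.Sup

universe u

variable {k F L Ω : Type u} [Field k] [Field F] [Algebra k F] [Field L] [Algebra F[X] L]
  [Field Ω] [Algebra L Ω] [IsAlgClosure k F] [IsFractionRing F[X] L] [IsAlgClosure L Ω]
  {ℓ : ℕ} {g D : k[X]} [hG : IsGood ℓ (cOver k F L Ω g D)] {N : Subgroup (Ω ≃ₐ[L] Ω)}

lemma ta09_act1_zsmul (γ : AutO k F L Ω) (b : ℤ) (x : Ch ℓ k F L Ω g D) :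
    act1 γ (b • x) = b • act1 γ x := by
  funext σ
  change symJ (toSym g D γ) (b • x (conjG γ⁻¹ σ)) = b • symJ (toSym g D γ) (x (conjG γ⁻¹ σ))
  exact map_zsmul _ _ _

lemma ta09_cob_zsmul (b : ℤ) (A : JacOver ℓ (curvePoly k F L g D) Ω) :
    cob (b • A) = b • cob A := by
  funext σ
  change symJ (toSym g D (galA k F σ)) (b • A) - b • A =
    b • (symJ (toSym g D (galA k F σ)) A - A)
  rw [map_zsmul, smul_sub]

lemma ta09_fix_pow {τ : Ω ≃ₐ[L] Ω} {B : JacOver ℓ (curvePoly k F L g D) Ω}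
    (fB : symJ (toSym g D (galA k F τ)) B = B) (m : ℕ) :
    symJ (toSym g D (galA k F (τ ^ m))) B = B := by
  induction m with
  | zero =>
    rw [pow_zero, map_one, map_one, symJ_one]
  | succ m ih =>
    rw [pow_succ, map_mul, map_mul, symJ_mul, fB, ih]

/-- powers of `τ` on a cocycle of the whole group -/
lemma ta09_pow_top {h : Ch ℓ k F L Ω g D} (hh : C1s ⊤ h) {τ : Ω ≃ₐ[L] Ω}
    (fh : symJ (toSym g D (galA k F τ)) (h τ) = h τ) (m : ℕ) :
    act1 (galA k F (τ ^ m)) h = h + cob (m • h τ) := by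
  have h1 : act1 (galA k F τ) h = h + cob (h τ) := by
    funext σ
    exact act1_galA_sub hh (Subgroup.mem_top τ) σ (Subgroup.mem_top σ)
  induction m with
  | zero =>
    rw [pow_zero, map_one, act1_one, zero_smul, cob_zero, add_zero]
  | succ m ih =>
    rw [pow_succ', map_mul, act1_mul, ih, act1_add, h1, act1_cob, map_nsmul, fh, add_assoc,
      ← cob_add, succ_nsmul']

/-- powers of `τ` on `x` -/
lemma ta09_pow_x (hN : Nrm k F N) {x h : Ch ℓ k F L Ω g D} (hh : C1s ⊤ h) (b : ℤ)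
    {τ : Ω ≃ₐ[L] Ω} {A : JacOver ℓ (curvePoly k F L g D) Ω}
    (h1 : ∀ σ ∈ N, act1 (galA k F τ) x σ = x σ - b • h σ + cob A σ)
    (fA : symJ (toSym g D (galA k F τ)) A = A)
    (fh : symJ (toSym g D (galA k F τ)) (h τ) = h τ) (m : ℕ) :
    ∀ σ ∈ N, act1 (galA k F (τ ^ m)) x σ =
      x σ - b • (m • h σ) + cob (m • A - b • (m.choose 2 • h τ)) σ := by
  have h2 : act1 (galA k F τ) h = h + cob (h τ) := by
    funext σ
    exact act1_galA_sub hh (Subgroup.mem_top τ) σ (Subgroup.mem_top σ)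
  induction m with
  | zero =>
    intro σ hσ
    rw [pow_zero, map_one, act1_one, zero_smul, zero_smul, Nat.choose_zero_succ, zero_smul,
      smul_zero, sub_zero, sub_zero, cob_zero, Pi.zero_apply, add_zero]
  | succ m ih =>
    intro σ hσ
    rw [pow_succ', map_mul, act1_mul]
    rw [act1_congr hN (galA k F τ)
      (y := x - b • (m • h) + cob (m • A - b • (m.choose 2 • h τ))) ih σ hσ]
    rw [act1_add, act1_sub, ta09_act1_zsmul, act1_nsmul, act1_cob, h2, map_sub, map_nsmul,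
      map_zsmul, map_nsmul, fA, fh]
    rw [Pi.add_apply, Pi.sub_apply, h1 σ hσ, Pi.smul_apply, Pi.smul_apply, Pi.add_apply]
    have e1 : cob ((m + 1) • A - b • ((m + 1).choose 2 • h τ)) σ =
        cob (m • A - b • (m.choose 2 • h τ)) σ + cob A σ - b • (m • cob (h τ) σ) := by
      have e2 : (m + 1) • A - b • ((m + 1).choose 2 • h τ) =
          (m • A - b • (m.choose 2 • h τ)) + A - b • (m • h τ) := by
        rw [Nat.choose_succ_succ' m 1, Nat.choose_one_right, succ_nsmul, add_smul, smul_add]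
        abel
      rw [e2, cob_sub, cob_add, ta09_cob_zsmul, cob_nsmul]
      rfl
    rw [e1, succ_nsmul, smul_add, smul_add, smul_add]
    abel

theorem commutator_formula {ζ : k} (hζ : IsPrimitiveRoot (zA F L Ω ζ) ℓ)
    (hT : Trs (cOver k F L Ω g D) N) (hN : Nrm k F N) (n : ℕ) {x h y : Ch ℓ k F L Ω g D}
    (hx : C1s N x) (hh : C1s ⊤ h) (hy : C1s ⊤ y) (b : ℤ) (q : ℕ) {τ g₀ : Ω ≃ₐ[L] Ω}
    {γ : AutO k F L Ω} {A B C : JacOver ℓ (curvePoly k F L g D) Ω}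
    (hA : ℓ ^ n • A = 0) (hB : ℓ ^ n • B = 0) (hC : ℓ ^ n • C = 0)
    (hyn : ℓ ^ n • y τ = 0)
    (h1 : ∀ σ ∈ N, act1 (galA k F τ) x σ = x σ - b • h σ + cob A σ)
    (h2 : ∀ σ ∈ N, act1 γ x σ = x σ + y σ + cob B σ)
    (h3 : ∀ σ, act1 γ h σ = h σ + cob C σ)
    (hg₀ : g₀ ∈ N) (hc : γ * galA k F τ = galA k F g₀ * galA k F (τ ^ q) * γ)
    (qh : ∀ σ, q • h σ = h σ) (qA : q • A = A) (qy : q • y τ = y τ)
    (q2 : q.choose 2 • h τ = 0)
    (hx0 : x g₀ = 0) (hh0 : h g₀ = 0) (hy0 : y g₀ = 0)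
    (fA : symJ (toSym g D (galA k F τ)) A = A)
    (fB : symJ (toSym g D (galA k F τ)) B = B)
    (fh : symJ (toSym g D (galA k F τ)) (h τ) = h τ)
    (fy : symJ (toSym g D (galA k F τ)) (y τ) = y τ)
    (gA : symJ (toSym g D (galA k F g₀)) A = A)
    (gB : symJ (toSym g D (galA k F g₀)) B = B)
    (gy : symJ (toSym g D (galA k F g₀)) (y τ) = y τ) :
    y τ = -(b • C) + (symJ (toSym g D γ) A - A) := by
  -- the action of `τ ^ q`
  have hxq : ∀ σ ∈ N, act1 (galA k F (τ ^ q)) x σ = x σ - b • h σ + cob A σ := by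
    intro σ hσ
    rw [ta09_pow_x hN hh b h1 fA fh q σ hσ, qh, qA, q2, smul_zero, sub_zero]
  have hyq : act1 (galA k F (τ ^ q)) y = y + cob (y τ) := by
    rw [ta09_pow_top hy fy q, qy]
  have hgx : ∀ σ ∈ N, act1 (galA k F g₀) x σ = x σ := by
    intro σ hσ
    rw [act1_galA_sub hx hg₀ σ hσ, hx0, cob_zero, Pi.zero_apply, add_zero]
  have hgh : act1 (galA k F g₀) h = h := by
    funext σ
    rw [act1_galA_sub hh (Subgroup.mem_top g₀) σ (Subgroup.mem_top σ), hh0, cob_zero,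
      Pi.zero_apply, add_zero]
  have hgy : act1 (galA k F g₀) y = y := by
    funext σ
    rw [act1_galA_sub hy (Subgroup.mem_top g₀) σ (Subgroup.mem_top σ), hy0, cob_zero,
      Pi.zero_apply, add_zero]
  have h3' : act1 γ h = h + cob C := by
    funext σ
    exact h3 σ
  -- first computation
  have k1 : ∀ σ ∈ N, act1 (γ * galA k F τ) x σ =
      (x σ + y σ + cob B σ) - b • (h σ + cob C σ) + cob (symJ (toSym g D γ) A) σ := by
    intro σ hσ
    rw [act1_mul, act1_congr hN γ (y := x - b • h + cob A) h1 σ hσ, act1_add, act1_sub,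
      ta09_act1_zsmul, act1_cob, h3', Pi.add_apply, Pi.sub_apply, h2 σ hσ, Pi.smul_apply,
      Pi.add_apply]
  -- second computation
  have k2 : ∀ σ ∈ N, act1 (galA k F (τ ^ q)) (act1 γ x) σ =
      (x - b • h + cob A + (y + cob (y τ)) + cob B) σ := by
    intro σ hσ
    rw [act1_congr hN (galA k F (τ ^ q)) (y := x + y + cob B) h2 σ hσ, act1_add, act1_add,
      hyq, act1_cob, ta09_fix_pow fB, Pi.add_apply, Pi.add_apply, hxq σ hσ]
    rfl
  have k3 : ∀ σ ∈ N, act1 (galA k F g₀ * galA k F (τ ^ q) * γ) x σ =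
      x σ - b • h σ + cob A σ + (y σ + cob (y τ) σ) + cob B σ := by
    intro σ hσ
    rw [mul_assoc, act1_mul, act1_mul, act1_congr hN (galA k F g₀) k2 σ hσ, act1_add, act1_add,
      act1_add, act1_sub, act1_add, ta09_act1_zsmul, hgh, hgy, act1_cob, act1_cob, act1_cob,
      gA, gB, gy]
    simp only [Pi.add_apply, Pi.sub_apply, Pi.smul_apply]
    rw [hgx σ hσ]
  have k4 : ∀ σ ∈ N, cob (y τ) σ = cob (-(b • C) + (symJ (toSym g D γ) A - A)) σ := by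
    intro σ hσ
    have e := k1 σ hσ
    rw [hc, k3 σ hσ, smul_add] at e
    rw [cob_add, cob_neg, cob_sub, ta09_cob_zsmul]
    simp only [Pi.add_apply, Pi.sub_apply, Pi.smul_apply, Pi.neg_apply]
    have e2 : cob (y τ) σ = (x σ - b • h σ + cob A σ + (y σ + cob (y τ) σ) + cob B σ)
        - (x σ - b • h σ + cob A σ + y σ + cob B σ) := by abel
    rw [e2, e]
    abel
  refine cob_injN hζ hT n hyn ?_ k4
  rw [smul_add, smul_neg, smul_sub, smul_comm (ℓ ^ n) b C, hC, smul_zero, ← map_nsmul, hA,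
    map_zero, neg_zero, sub_zero, add_zero]

end Pool.Agent.Lib.MP_89bcae_ag.Sup

end

section

open Polynomial IsDedekindDomain

open scoped Classical

set_option linter.unusedSectionVars false

namespace Pool.Agent.Lib.MP_89bcae_ag.Sup

universe u

variable {k F L Ω : Type u} [Field k] [Field F] [Algebra k F] [Field L] [Algebra F[X] L]
  [Field Ω] [Algebra L Ω] [IsAlgClosure k F] [IsFractionRing F[X] L] [IsAlgClosure L Ω]
  {ℓ : ℕ} {g D : k[X]} [hG : IsGood ℓ (cOver k F L Ω g D)] {N : Subgroup (Ω ≃ₐ[L] Ω)}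

lemma TTs.act_pow_mul (hN : Nrm k F N) {c : Coch ℓ k F L Ω g D} (hc : TCs N c)
    {γ : AutO k F L Ω} {M : ℕ} (h : TTs N (Sup.act (γ ^ M) c - c)) (m : ℕ) :
    TTs N (Sup.act (γ ^ (M * m)) c - c) := by
  induction m with
  | zero =>
    rw [Nat.mul_zero, pow_zero, act_one, sub_self]
    exact TTs.zero'
  | succ m ih =>
    have e : Sup.act (γ ^ (M * (m + 1))) c - c =
        Sup.act (γ ^ (M * m)) (Sup.act (γ ^ M) c - c) + (Sup.act (γ ^ (M * m)) c - c) := by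
      rw [Nat.mul_succ, pow_add, act_mul, act_sub]
      abel
    rw [e]
    exact (h.act hN _).add ih

lemma TTs.wws (hN : Nrm k F N) {c : Coch ℓ k F L Ω g D} (hc : TTs N c) : WWs N c := by
  refine ⟨hc.1, hc.lts, fun γ => ⟨1, one_pos, ?_⟩⟩
  rw [pow_one]
  exact (hc.act hN γ).sub hc

lemma WWs.add (hN : Nrm k F N) {c c' : Coch ℓ k F L Ω g D} (hc : WWs N c)
    (hc' : WWs N c') : WWs N (c + c') := by
  refine ⟨hc.1.add hc'.1, hc.2.1.add hc'.2.1, fun γ => ?_⟩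
  obtain ⟨M, hM, h⟩ := hc.2.2 γ
  obtain ⟨M', hM', h'⟩ := hc'.2.2 γ
  refine ⟨M * M', Nat.mul_pos hM hM', ?_⟩
  have h1 : TTs N (Sup.act (γ ^ (M * M')) c - c) := TTs.act_pow_mul hN hc.1 h M'
  have h2 : TTs N (Sup.act (γ ^ (M' * M)) c' - c') := TTs.act_pow_mul hN hc'.1 h' M
  rw [Nat.mul_comm M' M] at h2
  have e : Sup.act (γ ^ (M * M')) (c + c') - (c + c') =
      (Sup.act (γ ^ (M * M')) c - c) + (Sup.act (γ ^ (M * M')) c' - c') := by
    rw [act_add]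
    abel
  rw [e]
  exact h1.add h2

lemma WWs.neg (hN : Nrm k F N) {c : Coch ℓ k F L Ω g D} (hc : WWs N c) : WWs N (-c) := by
  refine ⟨hc.1.neg, hc.2.1.neg, fun γ => ?_⟩
  obtain ⟨M, hM, h⟩ := hc.2.2 γ
  refine ⟨M, hM, ?_⟩
  have e : Sup.act (γ ^ M) (-c) - -c = -(Sup.act (γ ^ M) c - c) := by
    rw [act_neg]
    abel
  rw [e]
  exact h.neg


lemma WWs.zC (hA : GoodAll ℓ k F L g D) (hN : Nrm k F N) {ζ : k} {c : Coch ℓ k F L Ω g D}
    (hc : WWs N c) (hζ : (zA F L Ω ζ) ^ ℓ = 1) : WWs N (Sup.zC ζ hζ c) := by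
  refine ⟨hc.1.zC ζ hζ, hc.2.1.zC hA hζ, fun γ => ?_⟩
  obtain ⟨M, hM, h⟩ := hc.2.2 γ
  refine ⟨M, hM, ?_⟩
  rw [act_zC, ← map_sub]
  exact h.zC ζ hζ

lemma WWs.act (hN : Nrm k F N) {c : Coch ℓ k F L Ω g D} (hc : WWs N c)
    (γ : AutO k F L Ω) : WWs N (Sup.act γ c) := by
  refine ⟨hc.1.act hN γ, LTs.act hN hc.2.1 γ, fun γ' => ?_⟩
  obtain ⟨M, hM, h⟩ := hc.2.2 (γ⁻¹ * γ' * γ)
  refine ⟨M, hM, ?_⟩
  have e1 : γ'^ M * γ = γ * (γ⁻¹ * γ' * γ) ^ M := by
    have h1 : (γ⁻¹ * γ' * γ⁻¹⁻¹) ^ M = γ⁻¹ * γ' ^ M * γ⁻¹⁻¹ := conj_pow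
    rw [inv_inv] at h1
    rw [h1]
    group
  have e : Sup.act (γ' ^ M) (Sup.act γ c) - Sup.act γ c =
      Sup.act γ (Sup.act ((γ⁻¹ * γ' * γ) ^ M) c - c) := by
    rw [← act_mul, e1, act_mul, act_sub]
  rw [e]
  exact h.act hN γ


end Pool.Agent.Lib.MP_89bcae_ag.Sup

end

section

open Polynomial IsDedekindDomain

open scoped Classical

set_option linter.unusedSectionVars false

namespace Pool.Agent.Lib.MP_89bcae_ag.Sup

universe u

variable {k F L Ω : Type u} [Field k] [Field F] [Algebra k F] [Field L] [Algebra F[X] L]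
  [Field Ω] [Algebra L Ω] [IsAlgClosure k F] [IsFractionRing F[X] L] [IsAlgClosure L Ω]
  [Algebra F Ω] {ℓ : ℕ} {g E : k[X]} [hG : IsGood ℓ (cOver k F L Ω g 1)] {ζ : k}
  {hζ : (zA F L Ω ζ) ^ ℓ = 1} {N : Subgroup (Ω ≃ₐ[L] Ω)}

theorem exists_divisionN (H : GlobHyp ℓ g E ζ) (hζ' : IsPrimitiveRoot (zA F L Ω ζ) ℓ)
    (hT : Trs (cOver k F L Ω g 1) N) (hN : Nrm k F N) {c : Coch ℓ k F L Ω g 1}
    (hc : WWs N c) (m : Ω → ℤ)
    (h1 : ∀ σ ∈ N, vJ (zA F L Ω ζ) hζ (c 1 σ) = cob (ram m) σ) :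
    ∃ y : Coch ℓ k F L Ω g 1, WWs N y ∧ TTs N (c - (y - Sup.zC ζ hζ y)) := by
  have hA : GoodAll ℓ k F L g 1 := goodAll_one H
  set B : JacOver ℓ (curvePoly k F L g 1) Ω := (ram m : Jac ℓ (cOver k F L Ω g 1)) with hB
  have hv1 : ∀ σ ∈ N, vJ (zA F L Ω ζ) hζ (c 1 σ) = cob B σ := h1
  -- the divisions of B
  choose dv hdv using fun Q : JacOver ℓ (curvePoly k F L g 1) Ω =>
    exists_smul_eq (zA F L Ω ζ) hζ' Q
  set Q : ℕ → JacOver ℓ (curvePoly k F L g 1) Ω := fun n => dv^[n] B with hQ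
  have hQ0 : Q 0 = B := rfl
  have hQs : ∀ n, ℓ • Q (n + 1) = Q n := by
    intro n
    simp only [hQ]
    rw [Function.iterate_succ_apply']
    exact hdv _
  set y : Coch ℓ k F L Ω g 1 := fun n σ => vJ (zA F L Ω ζ) hζ (c (n + 1) σ) -
    cob (Q n) σ with hy
  have hyTC : TCs N y := by
    refine ⟨?_, ?_, ?_⟩
    · intro n
      exact ((hc.1.c1 (n + 1)).vJ ζ hζ).sub (C1s.cob (Q n))
    · intro σ hσ
      simp only [hy]
      rw [Nat.zero_add, hv1 σ hσ, hQ0, sub_self]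
    · intro n σ hσ
      simp only [hy]
      have h2 : ℓ • cob (Q (n + 1)) σ = cob (Q n) σ := by
        have h3 := congrFun (cob_nsmul (g := g) (D := 1) ℓ (Q (n + 1))) σ
        rw [hQs n] at h3
        rw [h3]
        rfl
      rw [smul_sub, ← vJ_smul, hc.1.smul (n + 1) σ hσ, h2]
  have hyLT : LTs N y := by
    have h1 : LTs N (fun n σ => vJ (zA F L Ω ζ) hζ ((fun n => c (n + 1)) n σ) :
        Coch ℓ k F L Ω g 1) := LTs.v hA (hc.2.1.shift fun n => n + 1) hζ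
    have h2 : LTs N (fun n σ => cob (Q n) σ : Coch ℓ k F L Ω g 1) :=
      LTs.of_cob fun n => ⟨Q n, fun σ _ => rfl⟩
    have h3 := h1.add h2.neg
    have h4 : y = (fun n σ => vJ (zA F L Ω ζ) hζ ((fun n => c (n + 1)) n σ) :
        Coch ℓ k F L Ω g 1) + -(fun n σ => cob (Q n) σ : Coch ℓ k F L Ω g 1) := by
      funext n σ
      simp only [hy, Pi.add_apply, Pi.neg_apply]
      abel
    rw [h4]
    exact h3
  have hyZ : TCs N (c - (y - Sup.zC ζ hζ y)) := hc.1.sub (hyTC.sub (hyTC.zC ζ hζ))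
  have hQn : ∀ n, ℓ ^ n • Q n = B := by
    intro n
    induction n with
    | zero => rw [pow_zero, one_smul, hQ0]
    | succ n ih =>
      rw [pow_succ, mul_smul, hQs, ih]
  have hTT : TTs N (c - (y - Sup.zC ζ hζ y)) := by
    refine ⟨hyZ, ?_⟩
    intro n
    refine ⟨Q n - zJ (zA F L Ω ζ) hζ (Q n), ?_, ?_⟩
    · rw [smul_sub, ← map_nsmul, hQn, hB, zJ_ram, sub_self]
    · intro σ hσ
      have h1 : (c - (y - Sup.zC ζ hζ y)) n σ =
          c n σ - (y n σ - zJ (zA F L Ω ζ) hζ (y n σ)) := rfl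
      rw [h1, cob_sub]
      have h3 : (cob (Q n) - cob (zJ (zA F L Ω ζ) hζ (Q n)) : Ch ℓ k F L Ω g 1) σ =
          cob (Q n) σ - zJ (zA F L Ω ζ) hζ (cob (Q n) σ) := by
        rw [zJ_cob]
        rfl
      rw [h3]
      simp only [hy]
      rw [map_sub]
      have h2 := vJ_sub_zJ (zA F L Ω ζ) hζ' (c (n + 1) σ)
      rw [hc.1.smul n σ hσ] at h2
      rw [← h2]
      abel
  refine ⟨y, ⟨hyTC, hyLT, ?_⟩, hTT⟩
  intro γ
  obtain ⟨M, hM, hMT⟩ := hc.2.2 γ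
  refine ⟨M, hM, ?_⟩
  have hx : TCs N (Sup.act (γ ^ M) y - y) := (hyTC.act hN (γ ^ M)).sub hyTC
  apply TTs.of_sub_zC hζ' hT hx
  have h1 : Sup.act (γ ^ M) y - y - Sup.zC ζ hζ (Sup.act (γ ^ M) y - y) =
      (Sup.act (γ ^ M) c - c) - (Sup.act (γ ^ M) (c - (y - Sup.zC ζ hζ y)) -
        (c - (y - Sup.zC ζ hζ y))) := by
    rw [act_sub, act_sub, act_zC, map_sub]
    abel
  rw [h1]
  exact hMT.sub ((hTT.act hN (γ ^ M)).sub hTT)

end Pool.Agent.Lib.MP_89bcae_ag.Sup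

end

end

section

attribute [local instance 100000] Pool.Agent.Lib.MP_89bcae_ag.Brt.tffFields
attribute [local instance 100000] Pool.Agent.Lib.MP_89bcae_ag.Wt.ifrNF Pool.Agent.Lib.MP_89bcae_ag.Wt.iddNF

namespace Pool.Agent.Lib.MP_89bcae_ag
end Pool.Agent.Lib.MP_89bcae_ag

section

/-!
ROW T05 (200-300 lines). COUNTING: THE NUMBER OF `α ∈ L` FOR WHICH ALL `h i (α)`, `i ∈ S`, ARE `ℓ`-TH POWERS. Compare
`Count14.count_squares`, `Count14.prod_not_const_sq` (file Count14.lean, the case `ℓ = 2`).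

PROOF. `Q = card L = p ^ a * p ^ b`, `E = p ^ a * Qb + Ma`, so `ℓ * E = Q - 1` (`ℓ (p ^ a Qb + Ma) + 1 = p ^ a p ^ b`).
`Dg = ∑ i ∈ S, deg (h i)`. `T` = the `α` with all `h i (α) ≠ 0` (`card T ≥ Q - Dg`); the group `μ_ℓ(L)` is cyclic of order
`ℓ` (`ℓ ∣ Q - 1`): let `ζ` be a generator (e.g. from `IsCyclic Lˣ`); `w α i : ZMod ℓ` with
`(h i (α)) ^ E = ζ ^ (w α i)`. If `h i (α) = u ^ ℓ ≠ 0` then `w α i = 0` (`u ^ (ℓ E) = 1`). For `a : S → ZMod ℓ`, `a ≠ 0`, the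
condition `∑ a i * w α i = 0` is `f(α) ^ E = 1` for `f = (∏ i ∈ S, h i ^ (a i).val).map (algebraMap k L)`, of degree
`≤ (ℓ - 1) Dg`. `f` is not `C c * g ^ ℓ`: let `i` be the largest element of `S` with `a i ≠ 0`; the multiplicity of the
root `v i` (in `F`) in `f` is `(a i).val * rootMultiplicity (v i) (h i)` (`hvj`), not divisible by `ℓ`; whereas in
`C c * g ^ ℓ` (nonzero) all multiplicities are divisible by `ℓ`. T03 with `ω = 1`:
`ℓ * #{α ∈ T | ..} ≤ Q + ℓ ^ 3 ((ℓ - 1) Dg + 1) p ^ b =: B`. T04 with `ι = S`, `K = card S`, `N₀`: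
`N₀ (ℓ - 1) ℓ ^ K + (Q - Dg)(ℓ ^ K - ℓ) ≤ (ℓ ^ K - 1) B` hence
`N₀ (ℓ - 1) ℓ ^ K ≤ Q (ℓ - 1) + (ℓ ^ K - 1) ℓ ^ 3 ((ℓ - 1) Dg + 1) p ^ b + Dg ℓ ^ K`, and the number of `α ∈ A` is
`≤ N₀ + Dg`. Total: `ℓ ^ K * card A ≤ Q + ℓ ^ K (ℓ ^ 4 (Dg + 1) p ^ b)`.
-/

open Polynomial Finset

namespace Pool.Agent.Lib.MP_89bcae_ag.Tw

/-- there is a primitive root of unity of order `ℓ` -/
theorem t05_prim {L : Type*} [Field L] [Fintype L] {ℓ E : ℕ} (hℓ : 0 < ℓ)
    (hE : Fintype.card L = ℓ * E + 1) : ∃ ζ : L, IsPrimitiveRoot ζ ℓ := by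
  classical
  obtain ⟨γ, hγ⟩ := IsCyclic.exists_generator (α := Lˣ)
  have h1 : orderOf γ = ℓ * E := by
    rw [orderOf_eq_card_of_forall_mem_zpowers hγ, Nat.card_eq_fintype_card, Fintype.card_units, hE]
    omega
  have h2 : IsPrimitiveRoot γ (ℓ * E) := by
    rw [← h1]
    exact IsPrimitiveRoot.orderOf γ
  have hE0 : 0 < E := by
    rcases Nat.eq_zero_or_pos E with h | h
    · have h3 := Fintype.one_lt_card (α := L)
      rw [hE, h] at h3
      omega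
    · exact h
  have h3 : IsPrimitiveRoot (γ ^ E) ℓ := h2.pow (Nat.mul_pos hℓ hE0) (mul_comm ℓ E)
  refine ⟨((γ ^ E : Lˣ) : L), ?_⟩
  exact IsPrimitiveRoot.coe_units_iff.mpr h3

/-- a polynomial with a root of multiplicity prime to `ℓ` is not a constant times an `ℓ`-th power -/
theorem t05_not_power {L F : Type*} [Field L] [Field F] [Algebra L F] {ℓ : ℕ} {H : L[X]} {v : F}
    (h : ¬ ℓ ∣ (H.map (algebraMap L F)).rootMultiplicity v) :
    ¬ ∃ (c : L) (g : L[X]), H = C c * g ^ ℓ := by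
  classical
  rintro ⟨c, g, rfl⟩
  rcases eq_or_ne (C c * g ^ ℓ) 0 with h0 | h0
  · rw [h0] at h
    simp at h
  · have h1 : (C c * g ^ ℓ).map (algebraMap L F) ≠ 0 :=
      (Polynomial.map_ne_zero_iff (algebraMap L F).injective).2 h0
    rw [Polynomial.map_mul, map_C, Polynomial.map_pow] at h1 h
    rw [rootMultiplicity_mul h1, rootMultiplicity_C, zero_add] at h
    have h2 := right_ne_zero_of_mul h1
    apply h
    rw [← count_roots, roots_pow, Multiset.count_nsmul]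
    exact dvd_mul_right _ _

/-- the products are not constants times `ℓ`-th powers -/
theorem t05_prod {k L F : Type*} [Field k] [Field L] [Field F] [Algebra k L] [Algebra L F]
    [Algebra k F] [IsScalarTower k L F] {ℓ : ℕ} (hℓ : ℓ.Prime) {h : ℕ → k[X]} {v : ℕ → F}
    {S : Finset ℕ} (h0 : ∀ i ∈ S, h i ≠ 0)
    (hv : ∀ i ∈ S, ¬ ℓ ∣ ((h i).map (algebraMap k F)).rootMultiplicity (v i))
    (hvj : ∀ i ∈ S, ∀ j ∈ S, j < i → ¬ ((h j).map (algebraMap k F)).IsRoot (v i))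
    {e : ℕ → ℕ} (he : ∀ i ∈ S, e i < ℓ) (hne : ∃ i ∈ S, e i ≠ 0) :
    ¬ ∃ (c : L) (g : L[X]), (∏ i ∈ S, h i ^ e i).map (algebraMap k L) = C c * g ^ ℓ := by
  classical
  obtain ⟨J, hJ⟩ : ∃ J : Finset ℕ, J = S.filter (fun i => e i ≠ 0) := ⟨_, rfl⟩
  have hJm : ∀ i, i ∈ J ↔ i ∈ S ∧ e i ≠ 0 := by
    intro i
    rw [hJ, mem_filter]
  have hJne : J.Nonempty := by
    obtain ⟨i, hi, hei⟩ := hne
    exact ⟨i, (hJm i).mpr ⟨hi, hei⟩⟩
  obtain ⟨i, hi⟩ : ∃ i : ℕ, i = J.max' hJne := ⟨_, rfl⟩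
  have hiJ : i ∈ J := by rw [hi]; exact J.max'_mem hJne
  obtain ⟨hiS, hei⟩ := (hJm i).mp hiJ
  apply t05_not_power (F := F) (v := v i)
  rw [Polynomial.map_map, ← IsScalarTower.algebraMap_eq,
    ← mul_prod_erase S (fun i => h i ^ e i) hiS, Polynomial.map_mul]
  have hne1 : ∀ j ∈ S, h j ^ e j ≠ 0 := fun j hj => pow_ne_zero _ (h0 j hj)
  have hne2 : ∏ j ∈ S.erase i, h j ^ e j ≠ 0 :=
    prod_ne_zero_iff.2 fun j hj => hne1 j (mem_of_mem_erase hj)
  have hne' : (h i ^ e i).map (algebraMap k F) *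
      (∏ j ∈ S.erase i, h j ^ e j).map (algebraMap k F) ≠ 0 :=
    mul_ne_zero ((Polynomial.map_ne_zero_iff (algebraMap k F).injective).2 (hne1 i hiS))
      ((Polynomial.map_ne_zero_iff (algebraMap k F).injective).2 hne2)
  rw [rootMultiplicity_mul hne']
  have h2 : ((∏ j ∈ S.erase i, h j ^ e j).map (algebraMap k F)).rootMultiplicity (v i) = 0 := by
    apply rootMultiplicity_eq_zero
    rw [Polynomial.map_prod, IsRoot.def, eval_prod]
    apply prod_ne_zero_iff.2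
    intro j hj
    have hj' := mem_of_mem_erase hj
    rw [Polynomial.map_pow, eval_pow]
    by_cases hej : e j = 0
    · rw [hej, pow_zero]
      exact one_ne_zero
    · apply pow_ne_zero
      have hjJ : j ∈ J := (hJm j).mpr ⟨hj', hej⟩
      have hle : j ≤ i := by rw [hi]; exact J.le_max' j hjJ
      exact hvj i hiS j hj' (lt_of_le_of_ne hle (ne_of_mem_erase hj))
  rw [h2, add_zero, Polynomial.map_pow, ← count_roots, roots_pow, Multiset.count_nsmul, count_roots]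
  intro hdvd
  rcases hℓ.dvd_mul.mp hdvd with h3 | h3
  · exact hei (Nat.eq_zero_of_dvd_of_lt h3 (he i hiS))
  · exact hv i hiS h3

/-- the final computation -/
theorem t05_arith {ℓ X N Dg Q P T AA : ℤ} (hℓ : 2 ≤ ℓ) (hX : ℓ ≤ X) (hP : 1 ≤ P)
    (hDg : 0 ≤ Dg) (hT : Q - Dg ≤ T) (hAA : AA ≤ N + Dg)
    (h : N * ((ℓ - 1) * X) + T * (X - ℓ) ≤ (X - 1) * (Q + ℓ ^ 3 * ((ℓ - 1) * Dg + 1) * P)) :
    X * AA ≤ Q + X * (ℓ ^ 4 * (Dg + 1) * P) := by
  have hX0 : 0 < X := by linarith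
  have h1 : (Q - Dg) * (X - ℓ) ≤ T * (X - ℓ) := mul_le_mul_of_nonneg_right hT (by linarith)
  have hR : 0 ≤ ℓ ^ 3 * ((ℓ - 1) * Dg + 1) * P := by
    have : 0 ≤ (ℓ - 1) * Dg := mul_nonneg (by linarith) hDg
    positivity
  have h2 : N * ((ℓ - 1) * X) ≤ Q * (ℓ - 1) + X * (ℓ ^ 3 * ((ℓ - 1) * Dg + 1) * P) + Dg * X := by
    nlinarith
  have h3 : ℓ ^ 3 * ((ℓ - 1) * Dg + 1) * P + Dg + (ℓ - 1) * Dg ≤
      (ℓ - 1) * (ℓ ^ 4 * (Dg + 1) * P) := by
    have e1 : (ℓ - 1) * (ℓ ^ 4 * (Dg + 1) * P) - ℓ ^ 3 * ((ℓ - 1) * Dg + 1) * P =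
        ℓ ^ 3 * P * ((ℓ - 1) ^ 2 * Dg + (ℓ * (ℓ - 1) - 1)) := by ring
    have e2 : Dg ≤ (ℓ - 1) ^ 2 * Dg := by nlinarith [mul_nonneg hDg (by nlinarith : 0 ≤ (ℓ - 1) ^ 2 - 1)]
    have e3 : 0 ≤ ℓ * (ℓ - 1) - 1 := by nlinarith
    have e4 : ℓ ≤ ℓ ^ 3 * P := by
      have : ℓ ≤ ℓ ^ 3 := by nlinarith [sq_nonneg ℓ, sq_nonneg (ℓ - 1)]
      nlinarith [pow_pos (by linarith : 0 < ℓ) 3]
    have e5 : ℓ * Dg ≤ ℓ ^ 3 * P * ((ℓ - 1) ^ 2 * Dg + (ℓ * (ℓ - 1) - 1)) := by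
      calc ℓ * Dg ≤ ℓ * ((ℓ - 1) ^ 2 * Dg + (ℓ * (ℓ - 1) - 1)) :=
            mul_le_mul_of_nonneg_left (by linarith) (by linarith)
        _ ≤ _ := mul_le_mul_of_nonneg_right e4 (by nlinarith)
    linarith
  have h4 : (ℓ - 1) * (X * AA) ≤ (ℓ - 1) * (Q + X * (ℓ ^ 4 * (Dg + 1) * P)) := by
    have c1 : (ℓ - 1) * (X * AA) ≤ (ℓ - 1) * (X * (N + Dg)) :=
      mul_le_mul_of_nonneg_left (mul_le_mul_of_nonneg_left hAA hX0.le) (by linarith)
    have c2 := mul_le_mul_of_nonneg_left h3 hX0.le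
    nlinarith
  exact le_of_mul_le_mul_left h4 (by linarith)

theorem count_powers {k L F : Type*} [Field k] [Field L] [Field F] [Algebra k L] [Algebra L F]
    [Algebra k F] [IsScalarTower k L F] [Fintype L] {p : ℕ} [Fact p.Prime] [CharP L p]
    {ℓ a b Ma Qb : ℕ} (hℓ : ℓ.Prime) (hab : a ≤ b) (ha : p ^ a = ℓ * Ma + 1)
    (hb : p ^ b = ℓ * Qb + 1) (hcard : Fintype.card L = p ^ a * p ^ b)
    {h : ℕ → k[X]} {v : ℕ → F} {S : Finset ℕ} (h0 : ∀ i ∈ S, h i ≠ 0)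
    (hv : ∀ i ∈ S, ¬ ℓ ∣ ((h i).map (algebraMap k F)).rootMultiplicity (v i))
    (hvj : ∀ i ∈ S, ∀ j ∈ S, j < i → ¬ ((h j).map (algebraMap k F)).IsRoot (v i))
    {A : Finset L} (hA : ∀ α ∈ A, ∀ i ∈ S, ∃ u, u ^ ℓ = aeval α (h i)) :
    ℓ ^ S.card * A.card ≤ Fintype.card L +
      ℓ ^ S.card * (ℓ ^ 4 * ((∑ i ∈ S, (h i).natDegree) + 1) * p ^ b) := by
  classical
  have hp : p.Prime := Fact.out
  have hℓ2 := hℓ.two_le
  have hne : NeZero ℓ := ⟨hℓ.ne_zero⟩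
  have hpb : 1 ≤ p ^ b := Nat.one_le_pow _ _ hp.pos
  rcases S.eq_empty_or_nonempty with hSe | hSne
  · subst hSe
    have h1 : A.card ≤ Fintype.card L := card_le_univ A
    simp only [card_empty, pow_zero, one_mul]
    omega
  obtain ⟨E, hE⟩ : ∃ E : ℕ, E = p ^ a * Qb + Ma := ⟨_, rfl⟩
  have hQE : Fintype.card L = ℓ * E + 1 := by
    rw [hcard, hb, hE]
    have : p ^ a * (ℓ * Qb + 1) = ℓ * (p ^ a * Qb) + p ^ a := by ring
    rw [this, ha]
    ring
  obtain ⟨Dg, hDg⟩ : ∃ Dg : ℕ, Dg = ∑ i ∈ S, (h i).natDegree := ⟨_, rfl⟩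
  rw [← hDg]
  obtain ⟨ζ, hζ⟩ := t05_prim (L := L) hℓ.pos hQE
  -- the index of a nonzero element
  have hW : ∀ x : L, x ≠ 0 → ∃ w : ℕ, ζ ^ w = x ^ E := by
    intro x hx
    have h1 : (x ^ E) ^ ℓ = 1 := by
      rw [← pow_mul]
      have h2 := FiniteField.pow_card_sub_one_eq_one x hx
      rw [hQE] at h2
      rw [mul_comm]
      exact h2
    obtain ⟨i, -, hi⟩ := hζ.eq_pow_of_pow_eq_one h1
    exact ⟨i, hi⟩
  choose! W hW using hW
  -- the elements where nothing vanishes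
  obtain ⟨P, hP⟩ : ∃ P : L → Prop, ∀ α, P α ↔ ∀ i ∈ S, aeval α (h i) ≠ 0 :=
    ⟨fun α => ∀ i ∈ S, aeval α (h i) ≠ 0, fun _ => Iff.rfl⟩
  have hzero : ∀ B : Finset L, B.card ≤ (B.filter P).card + Dg := by
    intro B
    have h1 : B ⊆ B.filter P ∪ S.biUnion fun i => (univ.filter fun α : L => aeval α (h i) = 0) := by
      intro α hα
      by_cases hz : ∀ i ∈ S, aeval α (h i) ≠ 0
      · exact mem_union_left _ (mem_filter.2 ⟨hα, (hP α).2 hz⟩)
      · push Not at hz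
        obtain ⟨i, hi, hz⟩ := hz
        exact mem_union_right _ (mem_biUnion.2 ⟨i, hi, mem_filter.2 ⟨mem_univ _, hz⟩⟩)
    refine (card_le_card h1).trans ((card_union_le _ _).trans (Nat.add_le_add_left ?_ _))
    rw [hDg]
    refine card_biUnion_le.trans (sum_le_sum fun i hi => ?_)
    have h2 : ((h i).map (algebraMap k L)).natDegree = (h i).natDegree := natDegree_map _
    rw [← h2]
    apply card_le_degree_of_subset_roots
    intro α hα
    rw [mem_val, mem_filter] at hα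
    rw [mem_roots ((Polynomial.map_ne_zero_iff (algebraMap k L).injective).2 (h0 i hi)), IsRoot.def,
      eval_map_algebraMap]
    exact hα.2
  obtain ⟨T, hT⟩ : ∃ T : Finset L, T = univ.filter P := ⟨_, rfl⟩
  have hTm : ∀ α, α ∈ T ↔ ∀ i ∈ S, aeval α (h i) ≠ 0 := by
    intro α
    rw [hT, mem_filter, hP]
    simp
  have hTcard : Fintype.card L ≤ T.card + Dg := by
    rw [hT, ← card_univ]
    exact hzero univ
  -- the characters
  obtain ⟨w, hw⟩ : ∃ w : L → S → ZMod ℓ, w = fun α (i : S) => ((W (aeval α (h (i : ℕ))) : ℕ) : ZMod ℓ) :=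
    ⟨_, rfl⟩
  have key := averaging (ι := S) hℓ T w
    (B := ((Fintype.card L + ℓ ^ 3 * ((ℓ - 1) * Dg + 1) * p ^ b : ℕ) : ℤ)) (by
      intro c hc
      obtain ⟨e, he⟩ : ∃ e : ℕ → ℕ, e = fun i => if hi : i ∈ S then (c ⟨i, hi⟩).val else 0 :=
        ⟨_, rfl⟩
      have he1 : ∀ i : S, e i = (c i).val := by
        intro i
        rw [he]
        simp
      have he2 : ∀ i ∈ S, e i < ℓ := by
        intro i hi
        rw [he1 ⟨i, hi⟩]
        exact ZMod.val_lt _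
      have he3 : ∃ i ∈ S, e i ≠ 0 := by
        by_contra hcon
        push Not at hcon
        apply hc
        funext i
        have h1 := hcon i i.2
        rw [he1 i] at h1
        exact (ZMod.val_eq_zero _).mp h1
      have hf := t05_prod (L := L) hℓ h0 hv hvj he2 he3
      obtain ⟨f, hfd⟩ : ∃ f : L[X], f = (∏ i ∈ S, h i ^ e i).map (algebraMap k L) := ⟨_, rfl⟩
      rw [← hfd] at hf
      have hdeg : f.natDegree ≤ (ℓ - 1) * Dg := by
        rw [hfd, natDegree_map, hDg, mul_sum]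
        refine (natDegree_prod_le _ _).trans (sum_le_sum fun i hi => ?_)
        refine natDegree_pow_le.trans (Nat.mul_le_mul_right _ ?_)
        have := he2 i hi
        omega
      have hcb := count_bound hℓ hab ha hb hcard hf (one_ne_zero (α := L))
      rw [← hE] at hcb
      have hsub : (T.filter fun x => ∑ i, c i * w x i = 0) ⊆
          univ.filter fun x : L => (f.eval x) ^ E = 1 := by
        intro α hα
        rw [mem_filter] at hα
        obtain ⟨hαT, hα0⟩ := hα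
        rw [hTm] at hαT
        rw [mem_filter]
        refine ⟨mem_univ _, ?_⟩
        have h1 : f.eval α = ∏ i ∈ S, (aeval α (h i)) ^ e i := by
          rw [hfd, Polynomial.map_prod, eval_prod]
          refine prod_congr rfl fun i _ => ?_
          rw [Polynomial.map_pow, eval_pow, eval_map_algebraMap]
        have h2 : (f.eval α) ^ E = ζ ^ (∑ i ∈ S, e i * W (aeval α (h i))) := by
          rw [h1, ← prod_pow, ← prod_pow_eq_pow_sum]
          refine prod_congr rfl fun i hi => ?_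
          rw [mul_comm (e i), pow_mul, hW _ (hαT i hi), ← pow_mul, ← pow_mul, mul_comm]
        have h3 : ℓ ∣ ∑ i ∈ S, e i * W (aeval α (h i)) := by
          rw [← ZMod.natCast_eq_zero_iff, ← sum_coe_sort S (fun i => e i * W (aeval α (h i))),
            ← hα0]
          push_cast
          refine sum_congr rfl fun i _ => ?_
          rw [hw, he1 i, ZMod.natCast_zmod_val]
        rw [h2]
        exact (hζ.pow_eq_one_iff_dvd _).mpr h3
      have h4 : ℓ * (T.filter fun x => ∑ i, c i * w x i = 0).card ≤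
          Fintype.card L + ℓ ^ 3 * ((ℓ - 1) * Dg + 1) * p ^ b := by
        refine (Nat.mul_le_mul_left _ (card_le_card hsub)).trans (hcb.trans ?_)
        refine Nat.add_le_add_left (Nat.mul_le_mul_right _ (Nat.mul_le_mul_left _ ?_)) _
        omega
      exact_mod_cast h4)
  rw [Fintype.card_coe] at key
  -- the members of `A`
  have hAle : A.card ≤ (T.filter fun x => w x = 0).card + Dg := by
    refine (hzero A).trans (Nat.add_le_add_right (card_le_card ?_) _)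
    intro α hα
    rw [mem_filter, hP] at hα
    rw [mem_filter, hTm]
    refine ⟨hα.2, ?_⟩
    funext i
    obtain ⟨u, hu⟩ := hA α hα.1 i i.2
    have h1 : aeval α (h i) ≠ 0 := hα.2 i i.2
    have h2 : ζ ^ W (aeval α (h i)) = 1 := by
      rw [hW _ h1, ← hu, ← pow_mul]
      have hu0 : u ≠ 0 := by
        rintro rfl
        rw [zero_pow hℓ.ne_zero] at hu
        exact h1 hu.symm
      have h3 := FiniteField.pow_card_sub_one_eq_one u hu0
      rw [hQE] at h3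
      exact h3
    rw [hw]
    show ((W (aeval α (h i)) : ℕ) : ZMod ℓ) = 0
    rw [ZMod.natCast_eq_zero_iff]
    exact (hζ.pow_eq_one_iff_dvd _).mp h2
  have hcast1 : ((ℓ - 1 : ℕ) : ℤ) = (ℓ : ℤ) - 1 := by
    rw [Nat.cast_sub (by omega)]
    norm_num
  have hXge : (ℓ : ℤ) ≤ (ℓ : ℤ) ^ S.card := by
    have h1 : ℓ ^ 1 ≤ ℓ ^ S.card := Nat.pow_le_pow_right (by omega) hSne.card_pos
    rw [pow_one] at h1
    exact_mod_cast h1
  have hfin := t05_arith (ℓ := (ℓ : ℤ)) (X := (ℓ : ℤ) ^ S.card)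
    (N := ((T.filter fun x => w x = 0).card : ℤ)) (Dg := (Dg : ℤ)) (Q := (Fintype.card L : ℤ))
    (P := (p : ℤ) ^ b) (T := (T.card : ℤ)) (AA := (A.card : ℤ)) (by exact_mod_cast hℓ2) hXge
    (by exact_mod_cast hpb) (Nat.cast_nonneg _) (by
      have : (Fintype.card L : ℤ) ≤ T.card + Dg := by exact_mod_cast hTcard
      linarith) (by exact_mod_cast hAle) (by
      push_cast at key
      rw [hcast1] at key
      exact key)
  exact_mod_cast hfin

end Pool.Agent.Lib.MP_89bcae_ag.Tw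

end

section

/-!
ROW T17 (250-350 lines). THE NUMBER OF EXCEPTIONAL `D`. Uses TBase.lean (`exists_roots_card`), Dens14.lean; compare DensInf8.lean, Dens45.lean (do not import).

PROOF. `q = card k = p ^ f`, `n = m ^ j` is odd, `F = AlgebraicClosure k`. `n * card (exceptional) = card A`, `A` the set of the roots in `F` of
the exceptional `D` (`exists_roots_card`, the `D` are irreducible by T16), all in `L = fixI k F n` (Dens14.lean; `q ^ n` elements).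
`U = n / (4 (m - 1))`. If `U < 4`: `card (exceptional) * n ≤ q ^ n` (as `A ⊆ L`) and the right side is at least this: `n < 16 (m - 1)`, so
`ℓ ^ (-n / (4 m)) ≥ ℓ ^ (-4) ≥ q ^ (-4)` (`ℓ ≤ q`). If `U ≥ 4`: `S = {(m - 1) u : 4 ≤ u ≤ U}`, `card S = U - 3`, all
`s ∈ S` satisfy `s ≤ n / 4 < n`. `h` from T06, `v s` from T07: `m ∣ q ^ (m - 1) - 1 ∣ q ^ s - 1` (Fermat, `m ≠ p`: `hmk`) and
`m * ∑ d ∈ Icc 1 (s / 2), q ^ d ≤ 2 m q ^ (s / 2) ≤ q ^ s - 1` (as `s ≥ 4 (m - 1) ≥ 2 (m + 1)`, `q ^ (s / 2) ≥ 2 ^ (m + 1) ≥ 2 m + 1`).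
`v s ^ (q ^ t) ≠ v s` for `t < s` in `S` and the roots of `h t` are fixed by `x ↦ x ^ (q ^ t)` (T06), so `hvj`; the multiplicity is
`ℓ - 1`, so `hv`. By T16 all `α ∈ A` have `h s (α)` an `ℓ`-th power in `L`. T05 with
`p ^ a = q ^ ((n - 1) / 2)`, `p ^ b = q ^ ((n + 1) / 2)`, both `≡ 1` mod `ℓ`: `ℓ ^ (U - 3) * card A ≤ q ^ n + ℓ ^ (U - 3) * (ℓ ^ 4 (Δ + 1) q ^ ((n + 1) / 2))`,
`Δ = ∑ s ∈ S, ℓ q ^ s ≤ 2 ℓ q ^ (n / 4)`. So `card A / q ^ n ≤ ℓ ^ (3 - U) + 3 ℓ ^ 5 q ^ (1 / 2) q ^ (- n / 4)`, `ℓ ^ (3 - U) ≤ ℓ ^ 4 ℓ ^ (-n / (4 m))` (`U ≥ n / (4 (m - 1)) - 1`),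
and `ℓ ^ 5 q ^ (1 / 2) q ^ (-n / 4) ≤ q ^ 4 ℓ ^ (-n / (4 m))` since `ℓ ≤ q`, `n (1 - 1 / m) / 4 ≥ n / 6 ≥ 3 / 2` (here `n ≥ 32`).
The constant `4` leaves room. (`real` powers: write everything with `Real.rpow`, or bound `ℓ ^ (n / (4 m))` by the natural power
`ℓ ^ U * ℓ`.)
-/

open Polynomial Finset

namespace Pool.Agent.Lib.MP_89bcae_ag.Tw

open Pool.Agent.Lib.MP_89bcae_ag

universe u

theorem t17_sum_pow {q : ℕ} (hq : 2 ≤ q) (N : ℕ) : ∑ d ∈ Icc 1 N, q ^ d ≤ 2 * q ^ N := by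
  induction N with
  | zero => simp
  | succ N ih =>
    have e : Icc 1 (N + 1) = insert (N + 1) (Icc 1 N) := by
      ext a
      simp only [mem_insert, mem_Icc]
      omega
    rw [e, sum_insert (by simp), pow_succ]
    nlinarith [pow_pos (show 0 < q by omega) N]

theorem t17_big {q m s : ℕ} (hq : 2 ≤ q) (hm : 3 ≤ m) (hs : 4 * (m - 1) ≤ s) :
    m * ∑ d ∈ Icc 1 (s / 2), q ^ d ≤ q ^ s - 1 := by
  have h1 := t17_sum_pow hq (s / 2)
  have h2 : 2 * m + 1 ≤ q ^ (s / 2) := by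
    calc 2 * m + 1 ≤ 2 * (m + 1) := by omega
      _ ≤ 2 * 2 ^ m := Nat.mul_le_mul_left 2 (Nat.lt_two_pow_self (n := m))
      _ = 2 ^ (m + 1) := by ring
      _ ≤ 2 ^ (s / 2) := Nat.pow_le_pow_right (by norm_num) (by omega)
      _ ≤ q ^ (s / 2) := Nat.pow_le_pow_left hq _
  have h3 : q ^ (s / 2) * q ^ (s / 2) ≤ q ^ s := by
    rw [← pow_add]
    exact Nat.pow_le_pow_right (by omega) (by omega)
  have h4 : (2 * m + 1) * q ^ (s / 2) ≤ q ^ s := (Nat.mul_le_mul_right _ h2).trans h3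
  have h5 : m * ∑ d ∈ Icc 1 (s / 2), q ^ d ≤ m * (2 * q ^ (s / 2)) := Nat.mul_le_mul_left m h1
  have h6 : 1 ≤ q ^ (s / 2) := Nat.one_le_pow _ _ (by omega)
  have h7 : (2 * m + 1) * q ^ (s / 2) = m * (2 * q ^ (s / 2)) + q ^ (s / 2) := by ring
  omega

theorem t17_dvd_sub {ℓ q : ℕ} (hq : 1 ≤ q) (h : ℓ ∣ q - 1) (t : ℕ) :
    ∃ M, q ^ t = ℓ * M + 1 := by
  have h1 : ℓ ∣ q ^ t - 1 := h.trans (by simpa using Nat.sub_dvd_pow_sub_pow q 1 t)
  obtain ⟨M, hM⟩ := h1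
  refine ⟨M, ?_⟩
  have : 1 ≤ q ^ t := Nat.one_le_pow _ _ hq
  omega

theorem t17_fermat {q m s : ℕ} (hm : m.Prime) (hco : ¬ m ∣ q) (hs : (m - 1) ∣ s) :
    m ∣ q ^ s - 1 := by
  obtain ⟨u, rfl⟩ := hs
  have h1 : Nat.Coprime q m := ((Nat.Prime.coprime_iff_not_dvd hm).mpr hco).symm
  have h2 : q ^ (m - 1) ≡ 1 [MOD m] := by
    have := Nat.ModEq.pow_totient h1
    rwa [Nat.totient_prime hm] at this
  have h3 : q ^ ((m - 1) * u) ≡ 1 [MOD m] := by
    rw [pow_mul]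
    simpa using h2.pow u
  have hq : 1 ≤ q := by
    rcases Nat.eq_zero_or_pos q with h | h
    · exact absurd (h ▸ dvd_zero m) hco
    · exact h
  exact (Nat.modEq_iff_dvd' (Nat.one_le_pow _ _ hq)).mp h3.symm

/-- the final numerical estimate -/
theorem t17_final {Q L N n m U : ℕ} (hL : 2 ≤ L) (hLQ : L ≤ Q) (hm : 3 ≤ m) (hn : 32 ≤ n)
    (hU : 4 ≤ U) (hnU : n < 4 * (m - 1) * (U + 1))
    (h : L ^ (U - 3) * N ≤ Q ^ n + L ^ (U - 3) * (3 * L ^ 5 * Q ^ (n / 4) * Q ^ ((n + 1) / 2))) :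
    (N : ℝ) ≤ 4 * (Q : ℝ) ^ 4 * (L : ℝ) ^ (-(n : ℝ) / (4 * m)) * (Q : ℝ) ^ n := by
  have hLr : (2 : ℝ) ≤ L := by exact_mod_cast hL
  have hLp : (0 : ℝ) < L := by linarith
  have hL1 : (1 : ℝ) ≤ L := by linarith
  have hLQr : (L : ℝ) ≤ Q := by exact_mod_cast hLQ
  have hQp : (0 : ℝ) < Q := by linarith
  have hQ1 : (1 : ℝ) ≤ Q := by linarith
  have hmr : (3 : ℝ) ≤ m := by exact_mod_cast hm
  have hmp : (0 : ℝ) < m := by linarith
  have hnr : (32 : ℝ) ≤ n := by exact_mod_cast hn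
  obtain ⟨E, hE⟩ : ∃ E : ℝ, E = (L : ℝ) ^ (-(n : ℝ) / (4 * m)) := ⟨_, rfl⟩
  have hEp : 0 < E := by rw [hE]; exact Real.rpow_pos_of_pos hLp _
  rw [← hE]
  -- first estimate
  have hA : ((L : ℝ) ^ (U - 3))⁻¹ ≤ (Q : ℝ) ^ 4 * E := by
    have a1 : ((L : ℝ) ^ (U - 3))⁻¹ = (L : ℝ) ^ (-((U : ℝ) - 3)) := by
      rw [Real.rpow_neg hLp.le, ← Real.rpow_natCast, Nat.cast_sub (by omega)]
      norm_num
    have a2 : (n : ℝ) / (4 * m) ≤ U + 1 := by
      rw [div_le_iff₀ (by positivity)]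
      have b1 : n ≤ 4 * m * (U + 1) := by
        refine hnU.le.trans (Nat.mul_le_mul_right _ (Nat.mul_le_mul_left _ (Nat.sub_le _ _)))
      have b2 : (n : ℝ) ≤ 4 * m * (U + 1) := by exact_mod_cast b1
      linarith
    have a3 : (L : ℝ) ^ (-((U : ℝ) - 3)) ≤ (L : ℝ) ^ ((4 : ℝ) + -(n : ℝ) / (4 * m)) := by
      apply Real.rpow_le_rpow_of_exponent_le hL1
      rw [neg_div]
      linarith
    have a4 : (L : ℝ) ^ ((4 : ℝ) + -(n : ℝ) / (4 * m)) = (L : ℝ) ^ 4 * E := by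
      rw [Real.rpow_add hLp, hE]
      congr 1
      rw [← Real.rpow_natCast]
      norm_num
    rw [a1]
    refine a3.trans ?_
    rw [a4]
    exact mul_le_mul_of_nonneg_right (pow_le_pow_left₀ hLp.le hLQr 4) hEp.le
  -- second estimate
  have hB : (L : ℝ) ^ 5 * (Q : ℝ) ^ (n / 4) * (Q : ℝ) ^ ((n + 1) / 2) ≤
      (Q : ℝ) ^ 4 * E * (Q : ℝ) ^ n := by
    have b1 : (L : ℝ) ^ 5 * (Q : ℝ) ^ (n / 4) * (Q : ℝ) ^ ((n + 1) / 2) ≤
        (Q : ℝ) ^ (((5 + n / 4 + (n + 1) / 2 : ℕ)) : ℝ) := by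
      rw [Real.rpow_natCast, pow_add, pow_add]
      refine mul_le_mul_of_nonneg_right (mul_le_mul_of_nonneg_right ?_ (by positivity))
        (by positivity)
      exact pow_le_pow_left₀ hLp.le hLQr 5
    have b2 : (Q : ℝ) ^ (-(n : ℝ) / (4 * m)) ≤ E := by
      rw [hE]
      apply Real.rpow_le_rpow_of_nonpos hLp hLQr
      rw [neg_div, neg_nonpos]
      positivity
    have b3 : (Q : ℝ) ^ ((4 : ℝ) + -(n : ℝ) / (4 * m) + n) ≤ (Q : ℝ) ^ 4 * E * (Q : ℝ) ^ n := by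
      rw [Real.rpow_add hQp, Real.rpow_add hQp, Real.rpow_natCast]
      have c1 : (Q : ℝ) ^ (4 : ℝ) = (Q : ℝ) ^ 4 := by
        rw [← Real.rpow_natCast]
        norm_num
      rw [c1]
      exact mul_le_mul_of_nonneg_right (mul_le_mul_of_nonneg_left b2 (by positivity))
        (by positivity)
    refine (b1.trans ?_).trans b3
    apply Real.rpow_le_rpow_of_exponent_le hQ1
    have c1 : (((n / 4 : ℕ)) : ℝ) ≤ n / 4 := Nat.cast_div_le
    have c2 : ((((n + 1) / 2 : ℕ)) : ℝ) ≤ (n + 1) / 2 := by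
      have := Nat.cast_div_le (α := ℝ) (m := n + 1) (n := 2)
      push_cast at this
      exact this
    have c3 : (n : ℝ) / (4 * m) ≤ n / 12 := by
      apply div_le_div_of_nonneg_left (by positivity) (by norm_num)
      linarith
    have c4 : (((5 + n / 4 + (n + 1) / 2 : ℕ)) : ℝ) = 5 + ((n / 4 : ℕ) : ℝ) +
        (((n + 1) / 2 : ℕ) : ℝ) := by
      push_cast
      ring
    rw [c4, neg_div]
    linarith
  have hr : (L : ℝ) ^ (U - 3) * N ≤ (Q : ℝ) ^ n +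
      (L : ℝ) ^ (U - 3) * (3 * (L : ℝ) ^ 5 * (Q : ℝ) ^ (n / 4) * (Q : ℝ) ^ ((n + 1) / 2)) := by
    exact_mod_cast h
  have hLK : (0 : ℝ) < (L : ℝ) ^ (U - 3) := by positivity
  have h2 : (N : ℝ) ≤ (Q : ℝ) ^ n * ((L : ℝ) ^ (U - 3))⁻¹ +
      3 * (L : ℝ) ^ 5 * (Q : ℝ) ^ (n / 4) * (Q : ℝ) ^ ((n + 1) / 2) := by
    rw [← mul_le_mul_iff_right₀ hLK]
    refine hr.trans (le_of_eq ?_)
    field_simp
  have h3 : (Q : ℝ) ^ n * ((L : ℝ) ^ (U - 3))⁻¹ ≤ (Q : ℝ) ^ n * ((Q : ℝ) ^ 4 * E) :=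
    mul_le_mul_of_nonneg_left hA (by positivity)
  nlinarith

/-- the small case -/
theorem t17_small {Q L n m : ℕ} {N : ℝ} (hL : 2 ≤ L) (hLQ : L ≤ Q) (hm : 3 ≤ m)
    (hn : n < 16 * (m - 1)) (h : N ≤ (Q : ℝ) ^ n) :
    N ≤ 4 * (Q : ℝ) ^ 4 * (L : ℝ) ^ (-(n : ℝ) / (4 * m)) * (Q : ℝ) ^ n := by
  have hLr : (2 : ℝ) ≤ L := by exact_mod_cast hL
  have hLp : (0 : ℝ) < L := by linarith
  have hL1 : (1 : ℝ) ≤ L := by linarith
  have hLQr : (L : ℝ) ≤ Q := by exact_mod_cast hLQ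
  have hQp : (0 : ℝ) < Q := by linarith
  have hmr : (3 : ℝ) ≤ m := by exact_mod_cast hm
  have a1 : (n : ℝ) / (4 * m) ≤ 4 := by
    rw [div_le_iff₀ (by positivity)]
    have b1 : n ≤ 16 * m := by omega
    have b2 : (n : ℝ) ≤ 16 * m := by exact_mod_cast b1
    linarith
  have a2 : (L : ℝ) ^ (-4 : ℝ) ≤ (L : ℝ) ^ (-(n : ℝ) / (4 * m)) := by
    apply Real.rpow_le_rpow_of_exponent_le hL1
    rw [neg_div]
    linarith
  have a3 : (L : ℝ) ^ (-4 : ℝ) = ((L : ℝ) ^ 4)⁻¹ := by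
    rw [Real.rpow_neg hLp.le, ← Real.rpow_natCast]
    norm_num
  have a4 : ((L : ℝ) ^ 4) ≤ (Q : ℝ) ^ 4 := pow_le_pow_left₀ hLp.le hLQr 4
  have a5 : 1 ≤ (Q : ℝ) ^ 4 * (L : ℝ) ^ (-(n : ℝ) / (4 * m)) := by
    have c1 : (L : ℝ) ^ 4 * ((L : ℝ) ^ 4)⁻¹ = 1 := mul_inv_cancel₀ (by positivity)
    have c2 : (L : ℝ) ^ 4 * ((L : ℝ) ^ 4)⁻¹ ≤ (Q : ℝ) ^ 4 * (L : ℝ) ^ (-(n : ℝ) / (4 * m)) := by
      rw [← a3]
      exact mul_le_mul a4 a2 (by positivity) (by positivity)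
    linarith
  have a6 : 0 < (Q : ℝ) ^ n := by positivity
  calc N ≤ (Q : ℝ) ^ n := h
    _ ≤ 4 * ((Q : ℝ) ^ 4 * (L : ℝ) ^ (-(n : ℝ) / (4 * m))) * (Q : ℝ) ^ n := by nlinarith
    _ = _ := by ring

theorem exceptional_card {k : Type u} [Field k] [Fintype k] {ℓ m j : ℕ} (hℓ : ℓ.Prime)
    (hm : m.Prime) (hm2 : m ≠ 2) (hmk : (m : k) ≠ 0) (hq : ℓ ∣ Fintype.card k - 1) {g : k[X]}
    (hg : g.Monic) (hdeg : g.natDegree = m) :
    (m ^ j : ℝ) * ((Superelliptic.exceptional ℓ g (m ^ j)).ncard : ℝ) ≤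
      4 * (Fintype.card k : ℝ) ^ 4 * (ℓ : ℝ) ^ (-(m ^ j : ℝ) / (4 * m)) *
        (Fintype.card k : ℝ) ^ (m ^ j) := by
  classical
  have hm3 : 3 ≤ m := by
    have := hm.two_le
    omega
  have hq2 : 2 ≤ Fintype.card k := Fintype.one_lt_card
  have hLQ : ℓ ≤ Fintype.card k := by
    have := Nat.le_of_dvd (by omega) hq
    omega
  obtain ⟨n, hn⟩ : ∃ n : ℕ, n = m ^ j := ⟨_, rfl⟩
  have hn0 : 0 < n := by rw [hn]; exact pow_pos hm.pos j
  have hnodd : Odd n := by rw [hn]; exact (hm.odd_of_ne_two hm2).pow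
  have hnR : ((m : ℝ) ^ j) = n := by rw [hn]; push_cast; rfl
  rw [hnR, ← hn]
  let F := AlgebraicClosure k
  have hfin : (Superelliptic.exceptional ℓ g n).Finite := (family_finite g n).subset fun D hD => hD.1
  have hncard : (Superelliptic.exceptional ℓ g n).ncard = hfin.toFinset.card :=
    Set.ncard_eq_toFinset_card _ hfin
  obtain ⟨A, hA1, hA2⟩ := exists_roots_card (F := F) n hfin.toFinset (by
    intro D hD
    rw [Set.Finite.mem_toFinset] at hD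
    exact ⟨hD.1.1, hD.1.2.1, irreducible_of_comp (by rw [hdeg]; exact hm.ne_zero) hD.1.2.2⟩)
  have hA3 : ∀ a ∈ A, a ^ (Fintype.card k ^ n) = a := by
    intro a ha
    rw [hA1, Set.Finite.mem_toFinset] at ha
    rw [← frob8_pow_apply, frob8_pow_eq_iff, ha.1.2.1]
  have hcast : ((n : ℝ) * ((Superelliptic.exceptional ℓ g n).ncard : ℝ)) = (A.card : ℝ) := by
    rw [hncard, hA2]
    push_cast
    ring
  rw [hcast]
  obtain ⟨U, hU⟩ : ∃ U : ℕ, U = n / (4 * (m - 1)) := ⟨_, rfl⟩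
  by_cases hU4 : U < 4
  · -- few elements
    refine t17_small hℓ.two_le hLQ hm3 ?_ ?_
    · rw [hU, Nat.div_lt_iff_lt_mul (by omega)] at hU4
      omega
    · have h1 : A ⊆ Frob14.fixS k F n := fun a ha => (Frob14.mem_fixS hn0).mpr (hA3 a ha)
      have h2 := card_le_card h1
      rw [Frob14.card_fixS hn0] at h2
      exact_mod_cast h2
  · rw [not_lt] at hU4
    have hUn : 4 * (m - 1) * U ≤ n := by
      rw [hU]
      exact Nat.mul_div_le n _
    have hnU : n < 4 * (m - 1) * (U + 1) := by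
      rw [hU]
      exact Nat.lt_mul_div_succ n (by omega)
    have hn32 : 32 ≤ n := by
      have : 4 * 2 * 4 ≤ 4 * (m - 1) * U :=
        Nat.mul_le_mul (Nat.mul_le_mul_left 4 (by omega)) hU4
      omega
    -- the set of exponents
    obtain ⟨S, hS⟩ : ∃ S : Finset ℕ, S = (Icc 4 U).image (fun u => (m - 1) * u) := ⟨_, rfl⟩
    have hScard : S.card = U - 3 := by
      rw [hS, card_image_of_injective _ (fun a b hab => Nat.eq_of_mul_eq_mul_left (by omega) hab),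
        Nat.card_Icc]
      omega
    have hSm : ∀ s ∈ S, (m - 1) ∣ s ∧ 4 * (m - 1) ≤ s ∧ s ≤ n / 4 := by
      intro s hs
      rw [hS, mem_image] at hs
      obtain ⟨u, hu, rfl⟩ := hs
      rw [mem_Icc] at hu
      refine ⟨dvd_mul_right _ _, ?_, ?_⟩
      · rw [mul_comm]
        exact Nat.mul_le_mul_left _ hu.1
      · rw [Nat.le_div_iff_mul_le (by norm_num)]
        calc (m - 1) * u * 4 = 4 * (m - 1) * u := by ring
          _ ≤ 4 * (m - 1) * U := Nat.mul_le_mul_left _ hu.2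
          _ ≤ n := hUn
    have hS0 : ∀ s ∈ S, 0 < s ∧ s < n := by
      intro s hs
      obtain ⟨-, h1, h2⟩ := hSm s hs
      omega
    obtain ⟨h, hh⟩ := exists_H F hℓ.two_le g
    -- the characteristic
    obtain ⟨p, hp⟩ := CharP.exists k
    have hpp : Fact p.Prime := ⟨CharP.char_is_prime k p⟩
    obtain ⟨f, hf, hqf⟩ := FiniteField.card k p
    have hmp : ¬ m ∣ Fintype.card k := by
      intro hdvd
      rw [hqf] at hdvd
      have h1 := hm.dvd_of_dvd_pow hdvd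
      have h2 : m = p := (Nat.prime_dvd_prime_iff_eq hm hpp.out).mp h1
      apply hmk
      rw [h2]
      exact CharP.cast_eq_zero k p
    have hspec : ∀ s ∈ S, ∃ v : F, v ^ (Fintype.card k ^ s) = v ∧
        (∀ x : F, x ^ (Fintype.card k ^ s) = x → aeval x g ≠ v) ∧
        ∀ j, 0 < j → j < s → v ^ (Fintype.card k ^ j) ≠ v := by
      intro s hs
      obtain ⟨h1, h2, -⟩ := hSm s hs
      exact exists_special hg hdeg hm.two_le (hS0 s hs).1 (t17_fermat hm hmp h1)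
        (t17_big hq2 hm3 h2)
    choose! v hv using hspec
    -- the field with `q ^ n` elements
    have hfinL := Frob14.finite_fixI (k := k) (F := F) hn0
    let _ : Fintype (Frob14.fixI k F n) := Fintype.ofFinite _
    have hLcard : Fintype.card (Frob14.fixI k F n) = Fintype.card k ^ n := by
      rw [← Nat.card_eq_fintype_card, Frob14.natCard_fixI hn0]
    have hLp : CharP (Frob14.fixI k F n) p :=
      charP_of_injective_algebraMap (algebraMap k (Frob14.fixI k F n)).injective p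
    obtain ⟨A', hA'⟩ : ∃ A' : Finset (Frob14.fixI k F n),
        A' = A.attach.image (fun a => ⟨a.1, Frob14.mem_fixI.mpr (hA3 a.1 a.2)⟩) := ⟨_, rfl⟩
    have hA'card : A'.card = A.card := by
      rw [hA', card_image_of_injective, card_attach]
      intro a b hab
      exact Subtype.ext (congrArg (fun x : Frob14.fixI k F n => (x : F)) hab)
    have hA'm : ∀ α ∈ A', (α : F) ∈ A := by
      intro α hα
      rw [hA', mem_image] at hα
      obtain ⟨a, -, rfl⟩ := hα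
      exact a.2
    obtain ⟨Ma, hMa⟩ := t17_dvd_sub (by omega : 1 ≤ Fintype.card k) hq ((n - 1) / 2)
    obtain ⟨Qb, hQb⟩ := t17_dvd_sub (by omega : 1 ≤ Fintype.card k) hq ((n + 1) / 2)
    have hmain := count_powers (k := k) (L := Frob14.fixI k F n) (F := F) (p := p) (ℓ := ℓ)
      (a := f * ((n - 1) / 2)) (b := f * ((n + 1) / 2)) (Ma := Ma) (Qb := Qb) hℓ
      (Nat.mul_le_mul_left _ (Nat.div_le_div_right (by omega)))
      (by rw [pow_mul, ← hqf]; exact hMa) (by rw [pow_mul, ← hqf]; exact hQb)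
      (by
        rw [hLcard, pow_mul, pow_mul, ← hqf, ← pow_add]
        congr 1
        obtain ⟨r, hr⟩ := hnodd
        omega)
      (h := h) (v := v) (S := S) (fun i hi => (hh i (hS0 i hi).1).1)
      (fun i hi => by
        obtain ⟨-, -, -, -, h5⟩ := hh i (hS0 i hi).1
        obtain ⟨v1, v2, -⟩ := hv i hi
        rw [h5 (v i) v1 v2]
        intro hdvd
        have := Nat.le_of_dvd (by have := hℓ.two_le; omega) hdvd
        have := hℓ.two_le
        omega)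
      (fun i hi t ht hti hroot => by
        obtain ⟨-, -, -, h4, -⟩ := hh t (hS0 t ht).1
        obtain ⟨-, -, v3⟩ := hv i hi
        exact v3 t (hS0 t ht).1 hti (h4 _ hroot))
      (A := A') (fun α hα i hi => by
        have hαA := hA'm α hα
        have hαS := (hA1 _).mp hαA
        rw [Set.Finite.mem_toFinset] at hαS
        obtain ⟨u, hu1, hu2⟩ := exists_root_of_exceptional hℓ hq hg
          (by rw [hdeg]; exact hm.ne_zero) hαS (minpoly.aeval k (α : F)) (hS0 i hi).1 (hS0 i hi).2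
        obtain ⟨-, -, h3, -, -⟩ := hh i (hS0 i hi).1
        refine ⟨⟨u, Frob14.mem_fixI.mpr hu1⟩, Subtype.ext ?_⟩
        have e1 : ((aeval α (h i) : Frob14.fixI k F n) : F) = aeval (α : F) (h i) :=
          (aeval_algebraMap_apply F α (h i)).symm
        rw [e1, h3]
        exact hu2)
    rw [hA'card, hLcard, hScard, pow_mul, ← hqf] at hmain
    -- the sum of the degrees
    have hΔ : ∑ i ∈ S, (h i).natDegree ≤ ℓ * (2 * Fintype.card k ^ (n / 4)) := by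
      rw [sum_congr rfl fun i hi => (hh i (hS0 i hi).1).2.1, ← mul_sum]
      refine Nat.mul_le_mul_left _ (le_trans ?_ (t17_sum_pow hq2 (n / 4)))
      apply sum_le_sum_of_subset
      intro s hs
      rw [mem_Icc]
      exact ⟨(hS0 s hs).1, (hSm s hs).2.2⟩
    refine t17_final hℓ.two_le hLQ hm3 hn32 hU4 hnU (hmain.trans ?_)
    refine Nat.add_le_add_left (Nat.mul_le_mul_left _ ?_) _
    have h1 : 1 ≤ ℓ * Fintype.card k ^ (n / 4) :=
      Nat.one_le_iff_ne_zero.mpr (Nat.mul_ne_zero hℓ.ne_zero (pow_ne_zero _ (by omega)))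
    have h2 : (∑ i ∈ S, (h i).natDegree) + 1 ≤ 3 * (ℓ * Fintype.card k ^ (n / 4)) := by
      have : ℓ * (2 * Fintype.card k ^ (n / 4)) = 2 * (ℓ * Fintype.card k ^ (n / 4)) := by ring
      omega
    calc ℓ ^ 4 * ((∑ i ∈ S, (h i).natDegree) + 1) * Fintype.card k ^ ((n + 1) / 2)
        ≤ ℓ ^ 4 * (3 * (ℓ * Fintype.card k ^ (n / 4))) * Fintype.card k ^ ((n + 1) / 2) :=
          Nat.mul_le_mul_right _ (Nat.mul_le_mul_left _ h2)
      _ = 3 * ℓ ^ 5 * Fintype.card k ^ (n / 4) * Fintype.card k ^ ((n + 1) / 2) := by ring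

end Pool.Agent.Lib.MP_89bcae_ag.Tw

end

end
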