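import Mathlib
import Pool.Agent.Lib.MP_89bcae_ag.Tk.K029
import Pool.Agent.Lib.MP_89bcae_ag.Tk.K045
import Pool.Agent.Lib.MP_89bcae_ag.Tk.K046
import Pool.Agent.Lib.MP_89bcae_ag.Tk.K000

set_option linter.all false
attribute [local instance 100000] Pool.Agent.Lib.MP_89bcae_ag.Brt.tffFields
attribute [local instance 100000] Pool.Agent.Lib.MP_89bcae_ag.Wt.ifrNF Pool.Agent.Lib.MP_89bcae_ag.Wt.iddNF

section

section

/-!
There are no non-trivial classes in `WWs N` which are fixed by `τ`.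
-/

open Polynomial IsDedekindDomain

open scoped Classical

set_option linter.unusedSectionVars false

namespace Pool.Agent.Lib.MP_89bcae_ag.Sup

universe u

variable {k F L Ω : Type u} [Field k] [Field F] [Algebra k F] [Field L] [Algebra F[X] L]
  [Field Ω] [Algebra L Ω] [IsAlgClosure k F] [IsFractionRing F[X] L] [IsAlgClosure L Ω]
  [Algebra F Ω] {ℓ : ℕ} {g E : k[X]} [hG : IsGood ℓ (cOver k F L Ω g 1)] {ζ : k}
  {hζ : (zA F L Ω ζ) ^ ℓ = 1} {r : ℕ} {ζr : F} {s : Ω}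

/-- The operator `1 - Z`. -/
noncomputable def tf05_pi (hζ : (zA F L Ω ζ) ^ ℓ = 1) (x : Coch ℓ k F L Ω g 1) :
    Coch ℓ k F L Ω g 1 :=
  x - Sup.zC ζ hζ x

lemma tf05_pi_sub (n : ℕ) (x y : Coch ℓ k F L Ω g 1) :
    (tf05_pi hζ)^[n] (x - y) = (tf05_pi hζ)^[n] x - (tf05_pi hζ)^[n] y := by
  induction n generalizing x y with
  | zero => rfl
  | succ n ih =>
    rw [Function.iterate_succ_apply, Function.iterate_succ_apply, Function.iterate_succ_apply,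
      ← ih]
    congr 1
    unfold tf05_pi
    rw [map_sub]
    abel

lemma tf05_pi_tts {N : Subgroup (Ω ≃ₐ[L] Ω)} (n : ℕ) {x : Coch ℓ k F L Ω g 1}
    (hx : TTs N x) : TTs N ((tf05_pi hζ)^[n] x) := by
  induction n generalizing x with
  | zero => exact hx
  | succ n ih =>
    rw [Function.iterate_succ_apply]
    exact ih (hx.sub (hx.zC ζ hζ))

/-- The condition on `γ` in the extension theorem. -/
def tf05_P (N : Subgroup (Ω ≃ₐ[L] Ω)) (x : Ch ℓ k F L Ω g 1) (γ : Ω ≃ₐ[L] Ω) : Prop :=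
  ∃ A : JacOver ℓ (curvePoly k F L g 1) Ω, ℓ • A = 0 ∧
    ∀ σ ∈ N, act1 (galA k F γ) x σ = x σ + cob A σ

lemma tf05_P_mul {N : Subgroup (Ω ≃ₐ[L] Ω)} (hN : Nrm k F N) {x : Ch ℓ k F L Ω g 1}
    {γ γ' : Ω ≃ₐ[L] Ω} (h : tf05_P N x γ) (h' : tf05_P N x γ') : tf05_P N x (γ * γ') := by
  obtain ⟨A, hA, hA2⟩ := h
  obtain ⟨B, hB, hB2⟩ := h'
  refine ⟨A + symJ (toSym g 1 (galA k F γ)) B, ?_, fun σ hσ => ?_⟩
  · rw [smul_add, hA, ← map_nsmul, hB, map_zero, add_zero]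
  · have h1 : act1 (galA k F γ) (act1 (galA k F γ') x) σ =
        act1 (galA k F γ) (x + cob B) σ :=
      act1_congr hN (galA k F γ) (fun σ hσ => hB2 σ hσ) σ hσ
    rw [map_mul, act1_mul, h1, act1_add, act1_cob, cob_add]
    change act1 (galA k F γ) x σ + cob (symJ (toSym g 1 (galA k F γ)) B) σ =
      x σ + (cob A σ + cob (symJ (toSym g 1 (galA k F γ)) B) σ)
    rw [hA2 σ hσ]
    abel

lemma tf05_P_one {N : Subgroup (Ω ≃ₐ[L] Ω)} {x : Ch ℓ k F L Ω g 1} : tf05_P N x 1 := by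
  refine ⟨0, smul_zero _, fun σ _ => ?_⟩
  rw [map_one, act1_one, cob_zero]
  change x σ = x σ + 0
  rw [add_zero]

lemma tf05_P_pow {N : Subgroup (Ω ≃ₐ[L] Ω)} (hN : Nrm k F N) {x : Ch ℓ k F L Ω g 1}
    {γ : Ω ≃ₐ[L] Ω} (h : tf05_P N x γ) (n : ℕ) : tf05_P N x (γ ^ n) := by
  induction n with
  | zero =>
    rw [pow_zero]
    exact tf05_P_one
  | succ n ih =>
    rw [pow_succ]
    exact tf05_P_mul hN ih h

/-- Division by `1 - Z` of the invariant classes. -/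
lemma tf05_div (hF : CompatF F L Ω) (hD : TowDat (L := L) ℓ r g E ζ ζr s)
    (hζ' : IsPrimitiveRoot (zA F L Ω ζ) ℓ)
    {τ : Ω ≃ₐ[L] Ω} (hτ : τ s = xA F L Ω ζr * s) {c : Coch ℓ k F L Ω g 1}
    (hc : WWs (Nst s) c) (h : TTs (Nst s) (act (galA k F τ) c - c)) :
    ∃ y : Coch ℓ k F L Ω g 1, WWs (Nst s) y ∧ TTs (Nst s) (act (galA k F τ) y - y) ∧
      TTs (Nst s) (c - (y - Sup.zC ζ hζ'.pow_eq_one y)) := by
  have hN := hD.nrm
  have hT : Trs (cOver k F L Ω g 1) (Nst s : Subgroup (Ω ≃ₐ[L] Ω)) := hD.trs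
  have v0 : vJ (zA F L Ω ζ) hζ'.pow_eq_one (0 : JacOver ℓ (curvePoly k F L g 1) Ω) = 0 := by
    have h1 := vJ_sub (zA F L Ω ζ) hζ'.pow_eq_one (0 : JacOver ℓ (curvePoly k F L g 1) Ω) 0
    rw [sub_self, sub_self] at h1
    exact h1
  set x : Ch ℓ k F L Ω g 1 := fun σ => vJ (zA F L Ω ζ) hζ'.pow_eq_one (c 1 σ) with hx
  have hkill : ∀ σ ∈ (Nst s : Subgroup (Ω ≃ₐ[L] Ω)), ℓ • c 1 σ = 0 := by
    intro σ hσ
    have := hc.1.pow_smul 1 hσ
    rwa [pow_one] at this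
  have hxC : C1s (Nst s) x := (hc.1.c1 1).vJ ζ hζ'.pow_eq_one
  have hxM : MCs ζ hζ'.pow_eq_one (Nst s) x := by
    refine ⟨hxC, fun σ hσ => ?_⟩
    have h1 := vJ_sub_zJ (zA F L Ω ζ) hζ' (c 1 σ)
    rw [hkill σ hσ] at h1
    exact (sub_eq_zero.mp h1).symm
  have hPτ : tf05_P (Nst s) x τ := by
    obtain ⟨A, hA, hA2⟩ := h.2 1
    rw [pow_one] at hA
    refine ⟨vJ (zA F L Ω ζ) hζ'.pow_eq_one A, ?_, fun σ hσ => ?_⟩
    · rw [← vJ_smul, hA, v0]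
    · have h1 : act1 (galA k F τ) (c 1) σ = c 1 σ + cob A σ := by
        have h2 : act1 (galA k F τ) (c 1) σ - c 1 σ = cob A σ := hA2 σ hσ
        rw [← h2]
        abel
      rw [hx, act1_vJ]
      change vJ (zA F L Ω ζ) hζ'.pow_eq_one (act1 (galA k F τ) (c 1) σ) = _
      rw [h1, vJ_add, vJ_cob]
  have hPN : ∀ η ∈ (Nst s : Subgroup (Ω ≃ₐ[L] Ω)), tf05_P (Nst s) x η := by
    intro η hη
    refine ⟨x η, ?_, fun σ hσ => act1_galA_sub hxC hη σ hσ⟩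
    change ℓ • vJ (zA F L Ω ζ) hζ'.pow_eq_one (c 1 η) = 0
    rw [← vJ_smul, hkill η hη, v0]
  have hP : ∀ γ : Ω ≃ₐ[L] Ω, tf05_P (Nst s) x γ := by
    intro γ
    obtain ⟨j, η, hη, rfl⟩ := hD.exists_mul hτ γ
    exact tf05_P_mul hN (tf05_P_pow hN hPτ j) (hPN η hη)
  obtain ⟨y₀, hy₀, hy₀x, -⟩ := exists_extM hζ' hT hN (opn_nst s) hxM hP
  have hram0 : cob (ram (fun _ => 0) : JacOver ℓ (curvePoly k F L g 1) Ω) =
      (0 : Ch ℓ k F L Ω g 1) := by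
    have h1 := ram_sub (f := cOver k F L Ω g 1) (ℓ := ℓ) (fun _ => (0 : ℤ)) (fun _ => (0 : ℤ))
    rw [sub_self] at h1
    have h2 : (ram (fun _ => 0) : JacOver ℓ (curvePoly k F L g 1) Ω) = 0 := by
      simpa using h1
    rw [h2, cob_zero]
  have hm : ∀ σ ∈ (Nst s : Subgroup (Ω ≃ₐ[L] Ω)),
      y₀ σ = vJ (zA F L Ω ζ) hζ'.pow_eq_one (c 1 σ) + cob (ram (fun _ => 0)) σ := by
    intro σ hσ
    rw [hram0, hy₀x σ hσ]
    change _ = _ + (0 : JacOver ℓ (curvePoly k F L g 1) Ω)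
    rw [add_zero]
  obtain ⟨e, he⟩ := exists_hasExpM hF hD.glob hD.unr hy₀ hc.2.1 (fun _ => 0) hm
  have hd := hD.exp_zero hF hc.1 hc.2.1 hτ h hy₀ hm he
  obtain ⟨m, hmm⟩ := he.cob_of_dvd hF hD.glob hd
  obtain ⟨y, hy, hy2⟩ := exists_divisionN hD.glob hζ' hT hN hc m (fun σ hσ => by
    rw [← hmm σ, hy₀x σ hσ])
  refine ⟨y, hy, ?_, hy2⟩
  have hyC : TCs (Nst s) (act (galA k F τ) y - y) := (hy.1.act hN _).sub hy.1
  refine TTs.of_sub_zC hζ' hT hyC ?_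
  have h3 : act (galA k F τ) y - y - Sup.zC ζ hζ'.pow_eq_one (act (galA k F τ) y - y) =
      (act (galA k F τ) c - c) - (act (galA k F τ) (c - (y - Sup.zC ζ hζ'.pow_eq_one y)) -
        (c - (y - Sup.zC ζ hζ'.pow_eq_one y))) := by
    rw [map_sub, act_sub, act_sub, act_zC]
    abel
  rw [h3]
  exact h.sub ((hy2.act hN _).sub hy2)

theorem TowDat.ker0 (hF : CompatF F L Ω) (hD : TowDat (L := L) ℓ r g E ζ ζr s)
    {τ : Ω ≃ₐ[L] Ω} (hτ : τ s = xA F L Ω ζr * s) {c : Coch ℓ k F L Ω g 1}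
    (hc : WWs (Nst s) c) (h : TTs (Nst s) (act (galA k F τ) c - c)) : TTs (Nst s) c := by
  have hζ' : IsPrimitiveRoot (zA F L Ω ζ) ℓ := zA_primitive hD.glob
  have hT : Trs (cOver k F L Ω g 1) (Nst s : Subgroup (Ω ≃ₐ[L] Ω)) := hD.trs
  have key : ∀ n : ℕ, ∃ y : Coch ℓ k F L Ω g 1, WWs (Nst s) y ∧
      TTs (Nst s) (act (galA k F τ) y - y) ∧
      TTs (Nst s) (c - (tf05_pi hζ'.pow_eq_one)^[n] y) := by
    intro n
    induction n with
    | zero =>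
      refine ⟨c, hc, h, ?_⟩
      have h1 : c - (tf05_pi hζ'.pow_eq_one)^[0] c = 0 := sub_self c
      rw [h1]
      exact TTs.zero'
    | succ n ih =>
      obtain ⟨y, hy, hy2, hy3⟩ := ih
      obtain ⟨y', hy', hy2', hy3'⟩ := tf05_div hF hD hζ' hτ hy hy2
      refine ⟨y', hy', hy2', ?_⟩
      have h1 := tf05_pi_tts (hζ := hζ'.pow_eq_one) n hy3'
      rw [tf05_pi_sub] at h1
      have h2 := hy3.add h1
      have h3 : c - (tf05_pi hζ'.pow_eq_one)^[n + 1] y' =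
          c - (tf05_pi hζ'.pow_eq_one)^[n] y + ((tf05_pi hζ'.pow_eq_one)^[n] y -
            (tf05_pi hζ'.pow_eq_one)^[n] (y' - Sup.zC ζ hζ'.pow_eq_one y')) := by
        rw [Function.iterate_succ_apply]
        change c - (tf05_pi hζ'.pow_eq_one)^[n] (y' - Sup.zC ζ hζ'.pow_eq_one y') = _
        abel
      rw [h3]
      exact h2
  refine TTs.of_separated hζ' hT hc.1 (fun n => ?_)
  obtain ⟨y, hy, -, hy3⟩ := key n
  exact ⟨y, hy.1, hy3⟩

end Pool.Agent.Lib.MP_89bcae_ag.Sup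

end

section

open Polynomial IsDedekindDomain

open scoped Classical

set_option linter.unusedSectionVars false

namespace Pool.Agent.Lib.MP_89bcae_ag.Sup

universe u

variable {k F L Ω : Type u} [Field k] [Field F] [Algebra k F] [Field L] [Algebra F[X] L]
  [Field Ω] [Algebra L Ω] [IsAlgClosure k F] [IsFractionRing F[X] L] [IsAlgClosure L Ω]
  [Algebra F Ω] {ℓ : ℕ} {g E : k[X]} [hG : IsGood ℓ (cOver k F L Ω g 1)] {ζ : k}
  {hζ : (zA F L Ω ζ) ^ ℓ = 1} {r : ℕ} {ζr : F} {s : Ω}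

lemma tf03_zC_add (c c' : Coch ℓ k F L Ω g 1) :
    Sup.zC ζ hζ (c + c') = Sup.zC ζ hζ c + Sup.zC ζ hζ c' := by
  exact map_add _ _ _

lemma tf03_zC_zero : Sup.zC ζ hζ (0 : Coch ℓ k F L Ω g 1) = 0 := by
  exact map_zero _

/-- the sum `∑_{j<b} Z^j c`. -/
lemma tf03_sum (c : Coch ℓ k F L Ω g 1) (b : ℕ) :
    (∑ j ∈ Finset.range b, (Sup.zC ζ hζ)^[j] c) -
      Sup.zC ζ hζ (∑ j ∈ Finset.range b, (Sup.zC ζ hζ)^[j] c) = c - (Sup.zC ζ hζ)^[b] c := by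
  induction b with
  | zero =>
    rw [Finset.sum_range_zero, tf03_zC_zero, Function.iterate_zero, id, sub_self, sub_self]
  | succ b ih =>
    rw [Finset.sum_range_succ, tf03_zC_add, ← Function.iterate_succ_apply' (Sup.zC ζ hζ) b c]
    have h1 : ∀ x y z w : Coch ℓ k F L Ω g 1, x + y - (z + w) = (x - z) + (y - w) := by
      intro x y z w
      abel
    rw [h1, ih]
    abel

theorem formula_zero (hF : CompatF F L Ω) (hD : TowDat (L := L) ℓ r g E ζ ζr s)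
    {τ : Ω ≃ₐ[L] Ω} (hτ : τ s = xA F L Ω ζr * s) {b : ℕ} (hb : ¬ ℓ ∣ b)
    {c c₁ : Coch ℓ k F L Ω g 1} (hc : IsW hζ s τ 0 b c) (hc₁ : IsW hζ s τ 0 b c₁)
    {e e₁ : F → ℤ} (he : HasExpT hζ E s τ 0 c e) (he₁ : HasExpT hζ E s τ 0 c₁ e₁)
    {γ : AutO k F L Ω} (hγs : (γ : Ω ≃+* Ω) s = s) (hU : ∀ β ∈ RR F g E, resF γ β = β)
    (hS0 : ∀ x₀ : F, x₀ ^ ℓ = -1 → resF γ x₀ = x₀)
    (hrel : TTs (Nst s) (Sup.act γ c - c - (c₁ - Sup.act (galA k F τ) c₁))) :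
    ∃ n₁ : ZMod ℓ, ∀ a : F, aeval a E = 0 → ∃ cst : ZMod ℓ, ∀ β : F, aeval β g = a →
      sumO g E (kap ℓ (algebraMap k F ζ) (resF γ)) (fun x => (e x : ZMod ℓ)) β +
        (1 - (b : ZMod ℓ)⁻¹) *
          sumS g E (kap ℓ (algebraMap k F ζ) (resF γ)) (fun x => (e x : ZMod ℓ)) β +
        n₁ * (e β : ZMod ℓ) = (e₁ β : ZMod ℓ) + cst := by
  have H : GlobHyp ℓ g E ζ := hD.glob
  have : Fact ℓ.Prime := ⟨H.prime⟩
  have hb0 : (b : ZMod ℓ) ≠ 0 := by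
    rw [Ne, ZMod.natCast_eq_zero_iff]
    exact hb
  obtain ⟨hcW, hcT⟩ := hc
  obtain ⟨hc₁W, hc₁T⟩ := id hc₁
  rw [pow_zero, pow_one] at hcT hc₁T
  -- the iterates
  have hit : ∀ j, IsW hζ s τ 0 b ((Sup.zC ζ hζ)^[j] c₁) ∧ HasExpT hζ E s τ 0 ((Sup.zC ζ hζ)^[j] c₁) e₁ := by
    intro j
    induction j with
    | zero => exact ⟨hc₁, he₁⟩
    | succ j ih =>
      rw [Function.iterate_succ_apply']
      exact ⟨ih.1.zC hD, ih.2.zC hF hD ih.1.1.1⟩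
  have hy : ∀ b' : ℕ, IsW hζ s τ 0 b (∑ j ∈ Finset.range b', (Sup.zC ζ hζ)^[j] c₁) ∧
      HasExpT hζ E s τ 0 (∑ j ∈ Finset.range b', (Sup.zC ζ hζ)^[j] c₁) (fun β => (b' : ℤ) * e₁ β) := by
    intro b'
    induction b' with
    | zero =>
      rw [Finset.sum_range_zero]
      refine ⟨TTs.zero'.isW hD, ?_⟩
      have h1 := HasExpT.zero (hζ := hζ) hF hD τ 0
      have h2 : (fun β : F => ((0 : ℕ) : ℤ) * e₁ β) = fun _ => 0 := by
        funext β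
        simp
      rw [h2]
      exact h1
    | succ b' ih =>
      rw [Finset.sum_range_succ]
      refine ⟨ih.1.add hD (hit b').1, ?_⟩
      have h1 := ih.2.add hF hD (hit b').2
      have h2 : (fun β : F => ((b' + 1 : ℕ) : ℤ) * e₁ β) = fun β => (b' : ℤ) * e₁ β + e₁ β := by
        funext β
        push_cast
        ring
      rw [h2]
      exact h1
  set y : Coch ℓ k F L Ω g 1 := ∑ j ∈ Finset.range b, (Sup.zC ζ hζ)^[j] c₁ with hyd
  have hyW := (hy b).1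
  have hyE := (hy b).2
  have hsum := tf03_sum (hζ := hζ) c₁ b
  rw [← hyd] at hsum
  have hrel' : TTs (Nst s) (Sup.act γ c - c - (y - Sup.zC ζ hζ y)) := by
    have h1 := hrel.sub hc₁T
    have h2 : Sup.act γ c - c - (y - Sup.zC ζ hζ y) =
        Sup.act γ c - c - (c₁ - Sup.act (galA k F τ) c₁) -
          (Sup.act (galA k F τ) c₁ - (Sup.zC ζ hζ)^[b] c₁) := by
      rw [hsum]
      abel
    rw [h2]
    exact h1
  obtain ⟨h, m, hh, hhe, hm⟩ := he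
  obtain ⟨h', m', hh', hhe', hm'⟩ := hyE
  refine ⟨kap ℓ (algebraMap k F ζ) (resF γ) (algebraMap k F E.leadingCoeff), fun a ha => ?_⟩
  obtain ⟨cst, hform⟩ := TowDat.form1 hF hD hcW.1 hcW.2.1 hyW.1.1 hyW.1.2.1 hτ hcT hγs hU hS0 hrel'
    hh hh' hm hm' hhe hhe' ha
  refine ⟨(cst : ZMod ℓ) * (b : ZMod ℓ)⁻¹, fun β hβ => ?_⟩
  have hk := hform.kap H (resF γ) hU ha β hβ
  push_cast at hk
  generalize sumO g E (kap ℓ (algebraMap k F ζ) (resF γ)) (fun x => (e x : ZMod ℓ)) β = A at hk ⊢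
  generalize sumS g E (kap ℓ (algebraMap k F ζ) (resF γ)) (fun x => (e x : ZMod ℓ)) β = B at hk ⊢
  generalize kap ℓ (algebraMap k F ζ) (resF γ) (algebraMap k F E.leadingCoeff) = κ at hk ⊢
  refine mul_left_cancel₀ hb0 ?_
  have hbb : (b : ZMod ℓ) * (b : ZMod ℓ)⁻¹ = 1 := mul_inv_cancel₀ hb0
  linear_combination hk + (-B + (-1) * (cst : ZMod ℓ)) * hbb

end Pool.Agent.Lib.MP_89bcae_ag.Sup

end

section

/-!
TF09: the formula for eigenclasses, `i > 0`.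
-/

open Polynomial IsDedekindDomain

open scoped Classical

set_option linter.unusedSectionVars false

namespace Pool.Agent.Lib.MP_89bcae_ag.Sup

universe u

variable {k F L Ω : Type u} [Field k] [Field F] [Algebra k F] [Field L] [Algebra F[X] L]
  [Field Ω] [Algebra L Ω] [IsAlgClosure k F] [IsFractionRing F[X] L] [IsAlgClosure L Ω]
  [Algebra F Ω] {ℓ : ℕ} {g E : k[X]} [hG : IsGood ℓ (cOver k F L Ω g 1)] {ζ : k}
  {hζ : (zA F L Ω ζ) ^ ℓ = 1} {r : ℕ} {ζr : F} {s : Ω}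

private lemma tf09_pw_sub (τ : Ω ≃ₐ[L] Ω) (n : ℕ) (c c' : Coch ℓ k F L Ω g 1) :
    pw τ n (c - c') = pw τ n c - pw τ n c' := by
  rw [sub_eq_add_neg, pw_add, pw_neg, ← sub_eq_add_neg]

theorem formula_succ (hF : CompatF F L Ω) (hD : TowDat (L := L) ℓ r g E ζ ζr s)
    {τ : Ω ≃ₐ[L] Ω} (hτ : τ s = xA F L Ω ζr * s) {i b : ℕ} (hi : 0 < i) (hb : ¬ ℓ ∣ b)
    {c c₁ : Coch ℓ k F L Ω g 1} (hc : IsW hζ s τ i b c) (hc₁ : IsW hζ s τ i b c₁)
    {e e₁ : F → ℤ} (he : HasExpT hζ E s τ (ℓ ^ i - 1) c e)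
    (he₁ : HasExpT hζ E s τ (ℓ ^ i - 1) c₁ e₁)
    {γ : AutO k F L Ω} (hγs : (γ : Ω ≃+* Ω) s = s) (hU : ∀ β ∈ RR F g E, resF γ β = β)
    (hS0 : ∀ x₀ : F, x₀ ^ ℓ = -1 → resF γ x₀ = x₀)
    (hrel : TTs (Nst s) (Sup.act γ c - c - (c₁ - Sup.act (galA k F τ) c₁))) :
    ∃ n₁ : ZMod ℓ, ∀ a : F, aeval a E = 0 → ∃ cst : ZMod ℓ, ∀ β : F, aeval β g = a →
      sumO g E (kap ℓ (algebraMap k F ζ) (resF γ)) (fun x => (e x : ZMod ℓ)) β +
        1 * sumS g E (kap ℓ (algebraMap k F ζ) (resF γ)) (fun x => (e x : ZMod ℓ)) β +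
        n₁ * (e β : ZMod ℓ) = (e₁ β : ZMod ℓ) + cst := by
  have hℓ : ℓ.Prime := hD.glob.prime
  obtain ⟨n, hn⟩ : ∃ n, ℓ ^ i - 1 = n + 1 := by
    have h1 : 2 ≤ ℓ ^ i := by
      calc 2 ≤ ℓ := hℓ.two_le
        _ = ℓ ^ 1 := (pow_one ℓ).symm
        _ ≤ ℓ ^ i := Nat.pow_le_pow_right hℓ.pos hi
    exact ⟨ℓ ^ i - 2, by omega⟩
  obtain ⟨q, hqo, hq⟩ := hD.exists_q (resF γ) hS0
  obtain ⟨s', hs'⟩ := pw_act_rel (hζ := hζ) hD hτ hb (i := i) n γ hqo hq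
  obtain ⟨w, hw, hrelw⟩ := hs' c hc
  have hη : IsW hζ s τ i b (Sup.pw τ n c) := IsW.pw hD hτ n hc
  have hact : HasExpT hζ E s τ (ℓ ^ i - 1) (Sup.act γ c) e :=
    HasExpT.act hF hD hτ hb hc he γ hqo hq hU
  have h2 : HasExpT hζ E s τ (ℓ ^ i - 1)
      (c₁ + (s' • Sup.act γ c + (w - Sup.act (galA k F τ) w)))
      (fun β => e₁ β + (s' * e β + 0)) :=
    HasExpT.add hF hD he₁ (HasExpT.add hF hD (HasExpT.zsmul hF hD hact s')
      (IsW.exp_sub_act hF hD hτ hb hw))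
  have htts : TTs (Nst s) ((Sup.act γ (Sup.pw τ n c) - Sup.pw τ n c) -
      Sup.pw τ (n + 1) (c₁ + (s' • Sup.act γ c + (w - Sup.act (galA k F τ) w)))) := by
    have h3 := TTs.pw hD τ n hrel
    have h4 := hrelw.add h3
    have h5 : (Sup.act γ (Sup.pw τ n c) - Sup.pw τ n c) -
      Sup.pw τ (n + 1) (c₁ + (s' • Sup.act γ c + (w - Sup.act (galA k F τ) w))) =
      Sup.act γ (Sup.pw τ n c) - (Sup.pw τ n (Sup.act γ c) +
          Sup.pw τ (n + 1) (s' • Sup.act γ c + (w - Sup.act (galA k F τ) w))) +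
        Sup.pw τ n (Sup.act γ c - c - (c₁ - Sup.act (galA k F τ) c₁)) := by
      rw [tf09_pw_sub τ n (Sup.act γ c - c), tf09_pw_sub τ n (Sup.act γ c), ← pw_succ' τ n c₁,
        pw_add τ (n + 1) c₁]
      abel
    rw [h5]
    exact h4
  obtain ⟨m₃, hm₃⟩ := vJ_trivial (hζ := hζ) hD htts
  obtain ⟨h, m, hM, hE, hm⟩ := he
  obtain ⟨h', m', hM', hE', hm'⟩ := h2
  rw [hn] at hm hm'
  have key : ∀ a : F, aeval a E = 0 → ∃ cst : ℤ,
      Formula ℓ g E ζ (resF γ) a 1 0 e (fun β => e₁ β + (s' * e β + 0)) cst := by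
    intro a ha
    refine hD.form2 hF hη.1.1 hη.1.2.1 hτ hγs hU hS0 hM hM' (m := m)
      (m' := fun θ => m' θ - m₃ θ) ?_ ?_ hE hE' ha
    · intro σ hσ
      rw [hm σ hσ, pw_succ]
    · intro σ hσ
      rw [hm' σ hσ]
      have h5 : vJ (zA F L Ω ζ) hζ ((Sup.act γ (Sup.pw τ n c) - Sup.pw τ n c) 1 σ) -
          vJ (zA F L Ω ζ) hζ (Sup.pw τ (n + 1)
            (c₁ + (s' • Sup.act γ c + (w - Sup.act (galA k F τ) w))) 1 σ) =
          cob (ram m₃) σ := by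
        rw [← vJ_sub]
        exact hm₃ σ hσ
      have h6 : cob (ram fun θ => m' θ - m₃ θ) σ =
          (cob (ram m') : Ch ℓ k F L Ω g 1) σ - cob (ram m₃) σ := by
        rw [ram_sub, cob_sub]
        rfl
      rw [h6, ← h5]
      abel
  refine ⟨kap ℓ (algebraMap k F ζ) (resF γ) (algebraMap k F E.leadingCoeff) - s',
    fun a ha => ?_⟩
  obtain ⟨cst, hcst⟩ := key a ha
  refine ⟨cst, fun β hβ => ?_⟩
  have h6 := Formula.kap hD.glob (resF γ) hU ha hcst β hβ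
  push_cast at h6 ⊢
  linear_combination h6

end Pool.Agent.Lib.MP_89bcae_ag.Sup

end

section

open Polynomial IsDedekindDomain

open scoped Classical

set_option linter.unusedSectionVars false

namespace Pool.Agent.Lib.MP_89bcae_ag.Sup

universe u

variable {k F L Ω : Type u} [Field k] [Field F] [Algebra k F] [Field L] [Algebra F[X] L]
  [Field Ω] [Algebra L Ω] [IsAlgClosure k F] [IsFractionRing F[X] L] [IsAlgClosure L Ω]
  [Algebra F Ω] {ℓ : ℕ} {g E : k[X]} [hG : IsGood ℓ (cOver k F L Ω g 1)] {ζ : k}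
  {hζ : (zA F L Ω ζ) ^ ℓ = 1} {r : ℕ} {ζr : F} {s : Ω}

/-- The criterion for `U` and the set of fibres `B`. -/
structure CR (ℓ r : ℕ) {k F : Type u} [Field k] [Field F] [Algebra k F] (g E : k[X]) (ζ : k)
    (U : F ≃ₐ[k] F) (B : Set F) : Prop where
  fix : ∀ β ∈ RR F g E, U β = β
  neg : ∀ x : F, x ^ ℓ = -1 → U x = x
  sep : ∀ μ : ZMod ℓ, (r = 1 → μ ≠ 1) → SepU g E (kap ℓ (algebraMap k F ζ) U) μ B

/-- The classes whose exponents vanish on the fibres over `B`. -/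
noncomputable def PB (hF : CompatF F L Ω) (hD : TowDat (L := L) ℓ r g E ζ ζr s)
    (hζ : (zA F L Ω ζ) ^ ℓ = 1) {τ : Ω ≃ₐ[L] Ω} (hτ : τ s = xA F L Ω ζr * s) (i : ℕ) {b : ℕ}
    (hb : ¬ ℓ ∣ b) (B : Set F) : AddSubgroup (Coch ℓ k F L Ω g 1) where
  carrier := {c | IsW hζ s τ i b c ∧ ∀ e : F → ℤ, HasExpT hζ E s τ (ℓ ^ i - 1) c e →
    ∀ β ∈ RR F g E, aeval β g ∈ B → (ℓ : ℤ) ∣ e β}
  zero_mem' := by
    refine ⟨TTs.zero'.isW hD, fun e he β hβ _ => ?_⟩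
    have h := HasExpT.unique hF hD he (HasExpT.zero hF hD τ _) β hβ
    rwa [sub_zero] at h
  add_mem' := by
    rintro c c' ⟨hc, h⟩ ⟨hc', h'⟩
    refine ⟨hc.add hD hc', fun e he β hβ hB => ?_⟩
    obtain ⟨e₁, he₁⟩ := HasExpT.exists hF hD hτ hb hc
    obtain ⟨e₂, he₂⟩ := HasExpT.exists hF hD hτ hb hc'
    have h3 := HasExpT.unique hF hD he (HasExpT.add hF hD he₁ he₂) β hβ
    have h1 := h e₁ he₁ β hβ hB
    have h2 := h' e₂ he₂ β hβ hB
    have h4 := dvd_add h3 (dvd_add h1 h2)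
    rwa [sub_add_cancel] at h4
  neg_mem' := by
    rintro c ⟨hc, h⟩
    refine ⟨hc.neg hD, fun e he β hβ hB => ?_⟩
    obtain ⟨e₁, he₁⟩ := HasExpT.exists hF hD hτ hb hc
    have h3 := HasExpT.unique hF hD he (HasExpT.neg hF hD he₁) β hβ
    have h1 := h e₁ he₁ β hβ hB
    have h4 := dvd_add h3 ((dvd_neg).2 h1)
    rwa [sub_add_cancel] at h4

lemma mem_PB (hF : CompatF F L Ω) (hD : TowDat (L := L) ℓ r g E ζ ζr s)
    {τ : Ω ≃ₐ[L] Ω} (hτ : τ s = xA F L Ω ζr * s) (i : ℕ) {b : ℕ}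
    (hb : ¬ ℓ ∣ b) (B : Set F) {c : Coch ℓ k F L Ω g 1} : c ∈ PB hF hD hζ hτ i hb B ↔
      IsW hζ s τ i b c ∧ ∀ e : F → ℤ, HasExpT hζ E s τ (ℓ ^ i - 1) c e →
        ∀ β ∈ RR F g E, aeval β g ∈ B → (ℓ : ℤ) ∣ e β := Iff.rfl

lemma tt_le_PB (hF : CompatF F L Ω) (hD : TowDat (L := L) ℓ r g E ζ ζr s)
    {τ : Ω ≃ₐ[L] Ω} (hτ : τ s = xA F L Ω ζr * s) (i : ℕ) {b : ℕ}
    (hb : ¬ ℓ ∣ b) (B : Set F) : TT ℓ k F g s ≤ PB hF hD hζ hτ i hb B := by
  intro c hc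
  have hc' : TTs (Nst s) c := hc
  refine (mem_PB hF hD hτ i hb B).2 ⟨hc'.isW hD, fun e he β hβ _ => ?_⟩
  have h0 : HasExpT hζ E s τ (ℓ ^ i - 1) c (fun _ => 0) :=
    HasExpT.of_tts hF hD (HasExpT.zero hF hD τ _) (by rw [sub_zero]; exact hc')
  have h := HasExpT.unique hF hD he h0 β hβ
  rwa [sub_zero] at h

lemma sub_act_mem_PB (hF : CompatF F L Ω) (hD : TowDat (L := L) ℓ r g E ζ ζr s)
    {τ : Ω ≃ₐ[L] Ω} (hτ : τ s = xA F L Ω ζr * s) (i : ℕ) {b : ℕ}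
    (hb : ¬ ℓ ∣ b) (B : Set F) {c : Coch ℓ k F L Ω g 1} (hc : IsW hζ s τ i b c) :
    c - Sup.act (galA k F τ) c ∈ PB hF hD hζ hτ i hb B := by
  refine (mem_PB hF hD hτ i hb B).2 ⟨hc.sub hD (hc.actτ hD hτ), fun e he β hβ _ => ?_⟩
  have h := HasExpT.unique hF hD he (IsW.exp_sub_act hF hD hτ hb hc) β hβ
  rwa [sub_zero] at h

/-- If `c` is in `PB` for sets `B` covering the roots of `E` then its exponents are zero. -/
lemma exp_of_mem_PB (hF : CompatF F L Ω) (hD : TowDat (L := L) ℓ r g E ζ ζr s)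
    {τ : Ω ≃ₐ[L] Ω} (hτ : τ s = xA F L Ω ζr * s) (i : ℕ) {b : ℕ}
    (hb : ¬ ℓ ∣ b) {ι : Type*} (B : ι → Set F) (hB : ∀ a : F, aeval a E = 0 → ∃ x, a ∈ B x)
    {c : Coch ℓ k F L Ω g 1} (hc : IsW hζ s τ i b c)
    (h : ∀ x, c ∈ PB hF hD hζ hτ i hb (B x)) :
    ∃ e : F → ℤ, HasExpT hζ E s τ (ℓ ^ i - 1) c e ∧ ∀ β ∈ RR F g E, (ℓ : ℤ) ∣ e β := by
  obtain ⟨e, he⟩ := HasExpT.exists hF hD hτ hb hc
  refine ⟨e, he, fun β hβ => ?_⟩
  obtain ⟨x, hx⟩ := hB (aeval β g) ((mem_RR hD.glob).1 hβ)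
  exact ((mem_PB hF hD hτ i hb (B x)).1 (h x)).2 e he β hβ hx

lemma tow_step_rel (hF : CompatF F L Ω) (hD : TowDat (L := L) ℓ r g E ζ ζr s)
    {τ : Ω ≃ₐ[L] Ω} (hτ : τ s = xA F L Ω ζr * s) {i b : ℕ} (hb : ¬ ℓ ∣ b)
    {c : Coch ℓ k F L Ω g 1} (hc : IsW hζ s τ i b c) (γ : AutO k F L Ω) {q : ℕ}
    (hqo : QOk ℓ q) (hq : resF γ ζr = ζr ^ q) (hγ : ∀ β ∈ RR F g E, resF γ β = β) :
    ∃ c₁ : Coch ℓ k F L Ω g 1, IsW hζ s τ i b c₁ ∧
      TTs (Nst s) (Sup.act γ c - c - (c₁ - Sup.act (galA k F τ) c₁)) := by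
  obtain ⟨e, he⟩ := HasExpT.exists hF hD hτ hb hc
  have hc' : IsW hζ s τ i b (Sup.act γ c) := hc.act hD hτ γ hqo hq
  have he' := HasExpT.act hF hD hτ hb hc he γ hqo hq hγ
  have he2 := HasExpT.add hF hD he' (HasExpT.neg hF hD he)
  rw [← sub_eq_add_neg] at he2
  refine (IsW.div_of_exp hF hD hτ hb (hc'.sub hD hc) he2 fun β _ => ?_).2
  rw [add_neg_cancel]
  exact dvd_zero _

lemma tf04_qok_one (ℓ : ℕ) : QOk ℓ 1 := by
  refine ⟨Nat.one_pos, ?_, ?_⟩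
  · rw [Nat.sub_self]
    exact dvd_zero _
  · rw [Nat.choose_eq_zero_of_lt (by omega)]
    exact dvd_zero _

/-- The sum of the `τ^j c`, `j < n`. -/
lemma tf04_tele (hF : CompatF F L Ω) (hD : TowDat (L := L) ℓ r g E ζ ζr s)
    {τ : Ω ≃ₐ[L] Ω} (hτ : τ s = xA F L Ω ζr * s) {i b : ℕ} (hb : ¬ ℓ ∣ b)
    {c : Coch ℓ k F L Ω g 1} (hc : IsW hζ s τ i b c) {e : F → ℤ}
    (he : HasExpT hζ E s τ (ℓ ^ i - 1) c e) (n : ℕ) :
    ∃ d : Coch ℓ k F L Ω g 1, IsW hζ s τ i b d ∧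
      HasExpT hζ E s τ (ℓ ^ i - 1) d (fun β => n * e β) ∧
      d - Sup.act (galA k F τ) d = c - Sup.act (galA k F (τ ^ n)) c := by
  induction n with
  | zero =>
    refine ⟨0, TTs.zero'.isW hD, ?_, ?_⟩
    · refine HasExpT.congr hF hD (HasExpT.zero hF hD τ _) fun β _ => ?_
      rw [Nat.cast_zero, zero_mul, sub_zero]
      exact dvd_zero _
    · rw [act_zero, sub_zero, pow_zero, map_one, act_one, sub_self]
  | succ n ih =>
    obtain ⟨d, hd, hde, hdt⟩ := ih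
    have hq1 : resF (galA k F (τ ^ n) : AutO k F L Ω) ζr = ζr ^ 1 := by
      rw [resF_galA, pow_one]
      rfl
    have hRR : ∀ β ∈ RR F g E, resF (galA k F (τ ^ n) : AutO k F L Ω) β = β := by
      intro β _
      rw [resF_galA]
      rfl
    have h1 : IsW hζ s τ i b (Sup.act (galA k F (τ ^ n)) c) :=
      hc.act hD hτ _ (tf04_qok_one ℓ) hq1
    have h2 := HasExpT.act hF hD hτ hb hc he (galA k F (τ ^ n)) (tf04_qok_one ℓ) hq1 hRR
    refine ⟨d + Sup.act (galA k F (τ ^ n)) c, hd.add hD h1, ?_, ?_⟩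
    · refine HasExpT.congr hF hD (HasExpT.add hF hD hde h2) fun β _ => ?_
      have h3 : ((n + 1 : ℕ) : ℤ) * e β - ((n : ℤ) * e β + e β) = 0 := by
        push_cast
        ring
      rw [h3]
      exact dvd_zero _
    · have h3 : Sup.act (galA k F (τ ^ (n + 1))) c =
          Sup.act (galA k F τ) (Sup.act (galA k F (τ ^ n)) c) := by
        rw [← act_mul, ← map_mul, ← pow_succ']
      rw [act_add, h3]
      have h4 : d + Sup.act (galA k F (τ ^ n)) c -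
          (Sup.act (galA k F τ) d + Sup.act (galA k F τ) (Sup.act (galA k F (τ ^ n)) c)) =
          (d - Sup.act (galA k F τ) d) + Sup.act (galA k F (τ ^ n)) c -
            Sup.act (galA k F τ) (Sup.act (galA k F (τ ^ n)) c) := by abel
      rw [h4, hdt]
      abel

theorem tow_step (hF : CompatF F L Ω) (hD : TowDat (L := L) ℓ r g E ζ ζr s)
    {τ : Ω ≃ₐ[L] Ω} (hτ : τ s = xA F L Ω ζr * s) {i b : ℕ} (hir : i < r) (hb : ¬ ℓ ∣ b)
    {U : F ≃ₐ[k] F} {B : Set F} (hCR : CR ℓ r g E ζ U B) {γ : AutO k F L Ω}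
    (hγ : resF γ = U) (hγs : (γ : Ω ≃+* Ω) s = s)
    {c : Coch ℓ k F L Ω g 1} (hc : IsW hζ s τ i b c) (hcP : c ∉ PB hF hD hζ hτ i hb B)
    (n : ℕ) : ∃ a' : Coch ℓ k F L Ω g 1, IsW hζ s τ i b a' ∧ a' ∉ PB hF hD hζ hτ i hb B ∧
      TTs (Nst s) (Sup.act γ c - Sup.act (galA k F (τ ^ n)) c -
        (a' - Sup.act (galA k F τ) a')) := by
  subst hγ
  have hℓ : ℓ.Prime := hD.glob.prime
  have : Fact ℓ.Prime := ⟨hℓ⟩
  obtain ⟨q, hqo, hq⟩ := hD.exists_q (resF γ) hCR.neg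
  obtain ⟨c₁, hc₁, hrel⟩ := tow_step_rel hF hD hτ hb hc γ hqo hq hCR.fix
  obtain ⟨e, he⟩ := HasExpT.exists hF hD hτ hb hc
  obtain ⟨e₁, he₁⟩ := HasExpT.exists hF hD hτ hb hc₁
  obtain ⟨d, hd, hde, hdt⟩ := tf04_tele hF hD hτ hb hc he n
  refine ⟨c₁ + d, hc₁.add hD hd, fun hmem => hcP ?_, ?_⟩
  · -- the exponents of `c` vanish over `B`
    have hz : ∀ β ∈ RR F g E, aeval β g ∈ B → (ℓ : ℤ) ∣ e₁ β + n * e β := fun β hβ hB =>
      ((mem_PB hF hD hτ i hb B).1 hmem).2 _ (HasExpT.add hF hD he₁ hde) β hβ hB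
    -- the formula
    obtain ⟨μ, hμ, n₁, hform⟩ : ∃ μ : ZMod ℓ, (r = 1 → μ ≠ 1) ∧ ∃ n₁ : ZMod ℓ,
        ∀ a : F, aeval a E = 0 → ∃ cst : ZMod ℓ, ∀ β : F, aeval β g = a →
          sumO g E (kap ℓ (algebraMap k F ζ) (resF γ)) (fun x => (e x : ZMod ℓ)) β +
            μ * sumS g E (kap ℓ (algebraMap k F ζ) (resF γ)) (fun x => (e x : ZMod ℓ)) β +
            n₁ * (e β : ZMod ℓ) = (e₁ β : ZMod ℓ) + cst := by
      rcases Nat.eq_zero_or_pos i with hi | hi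
      · subst hi
        have he0 : HasExpT hζ E s τ 0 c e := by
          have h := he
          rwa [pow_zero, Nat.sub_self] at h
        have he10 : HasExpT hζ E s τ 0 c₁ e₁ := by
          have h := he₁
          rwa [pow_zero, Nat.sub_self] at h
        refine ⟨1 - (b : ZMod ℓ)⁻¹, fun _ h => ?_,
          formula_zero hF hD hτ hb hc hc₁ he0 he10 hγs hCR.fix hCR.neg hrel⟩
        have h1 : (b : ZMod ℓ)⁻¹ = 0 := by
          have h2 : (1 : ZMod ℓ) - (1 - (b : ZMod ℓ)⁻¹) = 0 := by rw [h, sub_self]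
          rwa [sub_sub_cancel] at h2
        rw [inv_eq_zero, ZMod.natCast_eq_zero_iff] at h1
        exact hb h1
      · refine ⟨1, fun h => ?_,
          formula_succ hF hD hτ hi hb hc hc₁ he he₁ hγs hCR.fix hCR.neg hrel⟩
        omega
    have hform' : ∀ a : F, ∃ cst : ZMod ℓ, aeval a E = 0 → ∀ β : F, aeval β g = a →
          sumO g E (kap ℓ (algebraMap k F ζ) (resF γ)) (fun x => (e x : ZMod ℓ)) β +
            μ * sumS g E (kap ℓ (algebraMap k F ζ) (resF γ)) (fun x => (e x : ZMod ℓ)) β +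
            n₁ * (e β : ZMod ℓ) = (e₁ β : ZMod ℓ) + cst := by
      intro a
      by_cases ha : aeval a E = 0
      · obtain ⟨cst, hcst⟩ := hform a ha
        exact ⟨cst, fun _ => hcst⟩
      · exact ⟨0, fun h => absurd h ha⟩
    choose cst hcst using hform'
    have hsum : ∀ β ∈ RR F g E, ∑ β' ∈ (RR F g E).filter
        (fun β' => aeval β' g = aeval β g), (fun x => (e x : ZMod ℓ)) β' = 0 := by
      intro β _
      obtain ⟨h, m, _, hM, _⟩ := he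
      have h1 := hM.sum (aeval β g)
      have h2 := (ZMod.intCast_zmod_eq_zero_iff_dvd _ ℓ).2 h1
      rw [Int.cast_sum] at h2
      exact h2
    have hsep := hCR.sep μ hμ (fun x => (e x : ZMod ℓ)) (n₁ + n) cst hsum (by
      intro β hβ hB
      have h1 := hcst (aeval β g) ((mem_RR hD.glob).1 hβ) β rfl
      have h2 := (ZMod.intCast_zmod_eq_zero_iff_dvd _ ℓ).2 (hz β hβ hB)
      push_cast at h2
      calc _ = (sumO g E (kap ℓ (algebraMap k F ζ) (resF γ)) (fun x => (e x : ZMod ℓ)) β +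
            μ * sumS g E (kap ℓ (algebraMap k F ζ) (resF γ)) (fun x => (e x : ZMod ℓ)) β +
            n₁ * (e β : ZMod ℓ)) + n * (e β : ZMod ℓ) := by ring
        _ = (e₁ β : ZMod ℓ) + cst (aeval β g) + n * (e β : ZMod ℓ) := by rw [h1]
        _ = ((e₁ β : ZMod ℓ) + n * (e β : ZMod ℓ)) + cst (aeval β g) := by ring
        _ = cst (aeval β g) := by rw [h2, zero_add])
    refine (mem_PB hF hD hτ i hb B).2 ⟨hc, fun e' he' β hβ hB => ?_⟩
    have h1 : (ℓ : ℤ) ∣ e β := (ZMod.intCast_zmod_eq_zero_iff_dvd _ ℓ).1 (hsep β hβ hB)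
    have h2 := dvd_add (HasExpT.unique hF hD he' he β hβ) h1
    rwa [sub_add_cancel] at h2
  · have h1 : Sup.act γ c - Sup.act (galA k F (τ ^ n)) c -
        (c₁ + d - Sup.act (galA k F τ) (c₁ + d)) =
        Sup.act γ c - c - (c₁ - Sup.act (galA k F τ) c₁) +
          ((c - Sup.act (galA k F (τ ^ n)) c) - (d - Sup.act (galA k F τ) d)) := by
      rw [act_add]
      abel
    rw [h1, hdt, sub_self, add_zero]
    exact hrel

end Pool.Agent.Lib.MP_89bcae_ag.Sup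

end

section

open Polynomial IsDedekindDomain

open scoped Classical

set_option linter.unusedSectionVars false

namespace Pool.Agent.Lib.MP_89bcae_ag.Sup

universe u

variable {k F L Ω : Type u} [Field k] [Field F] [Algebra k F] [Field L] [Algebra F[X] L]
  [Field Ω] [Algebra L Ω] [IsAlgClosure k F] [IsFractionRing F[X] L] [IsAlgClosure L Ω]
  [Algebra F Ω] {ℓ : ℕ} {g E : k[X]} [hG : IsGood ℓ (cOver k F L Ω g 1)] {ζ : k}
  {hζ : (zA F L Ω ζ) ^ ℓ = 1} {r : ℕ} {ζr : F} {s : Ω}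

private lemma tf06_iter (γ : AutO k F L Ω) (m : ℕ) (c : Coch ℓ k F L Ω g 1) :
    (actH γ)^[m] c = act (γ ^ m) c := by
  induction m generalizing c with
  | zero => rw [pow_zero, act_one]; rfl
  | succ m ih =>
    rw [Function.iterate_succ_apply, ih, pow_succ, act_mul]
    rfl

theorem TowDat.ker (hF : CompatF F L Ω) (hD : TowDat (L := L) ℓ r g E ζ ζr s)
    {τ : Ω ≃ₐ[L] Ω} (hτ : τ s = xA F L Ω ζr * s) {i b : ℕ} (hir : i < r) (hb : ¬ ℓ ∣ b)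
    (hCR : ∀ a : F, aeval a E = 0 → ∃ (U : F ≃ₐ[k] F) (B : Set F), a ∈ B ∧ CR ℓ r g E ζ U B)
    {c : Coch ℓ k F L Ω g 1} (hc : IsW hζ s τ i b c) : TTs (Nst s) c := by
  have hp : IsPrimitiveRoot (zA F L Ω ζ) ℓ := zA_primitive hD.glob
  have hT : Trs (cOver k F L Ω g 1) (Nst s : Subgroup (Ω ≃ₐ[L] Ω)) := hD.trs
  choose U B haB hCR' using hCR
  have hq' : ∀ x : {a : F // aeval a E = 0}, ∃ q : ℕ, QOk ℓ q ∧ U x.1 x.2 ζr = ζr ^ q :=
    fun x => hD.exists_q (U x.1 x.2) (hCR' x.1 x.2).neg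
  choose q hqo hq using hq'
  have hγ' : ∀ x : {a : F // aeval a E = 0}, ∃ γ : AutO k F L Ω, resF γ = U x.1 x.2 ∧
      (γ : Ω ≃+* Ω) s = s := fun x => hD.exists_gamma_glob (U x.1 x.2)
  choose γ hγ hγs using hγ'
  have hqr : ∀ x, resF (γ x) ζr = ζr ^ q x := fun x => by rw [hγ x]; exact hq x
  have hfix : ∀ x, ∀ β ∈ RR F g E, resF (γ x) β = β := fun x β hβ => by
    rw [hγ x]
    exact (hCR' x.1 x.2).fix β hβ
  refine kill_rel hD.glob.prime i b hb (WI hD hζ τ i b) (TT ℓ k F g s)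
    (fun a ha => TTs.isW hD ha) (actH (galA k F τ)) (Sup.zC ζ hζ)
    (fun a ha => IsW.actτ hD hτ ha) (fun a ha => TTs.act hD.nrm ha _)
    (fun a ha => IsW.zC hD ha) (fun a ha => TTs.zC ha ζ hζ) ?_ ?_ ?_ ?_ ?_
    (fun x : {a : F // aeval a E = 0} => PB hF hD hζ hτ i hb (B x.1 x.2))
    (fun x => tt_le_PB hF hD hτ i hb (B x.1 x.2))
    (fun x a ha => sub_act_mem_PB hF hD hτ i hb (B x.1 x.2) ha)
    q (fun x => (hqo x).1) (fun x => (hqo x).2.1) (fun x => (hqo x).2.2)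
    (fun x => actH (γ x)) (fun x a ha => IsW.act hD hτ ha (γ x) (hqo x) (hqr x))
    (fun x a ha => TTs.act hD.nrm ha _) ?_ ?_ ?_ ?_ ?_ c hc
  · intro a ha
    have h1 : actH (galA k F τ) (Sup.zC ζ hζ a) - Sup.zC ζ hζ (actH (galA k F τ) a) = 0 :=
      sub_eq_zero.mpr (act_zC (galA k F τ) ζ hζ a)
    rw [h1]
    exact (TT ℓ k F g s).zero_mem
  · intro a ha
    rw [sum_zC hD a]
    exact (TT ℓ k F g s).zero_mem
  · intro a ha
    rw [iter_act]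
    exact ha.2
  · intro a ha h
    exact TTs.of_sub_zC hp hT (show IsW hζ s τ i b a from ha).1.1 h
  · intro a ha h
    refine TTs.of_separated hp hT (show IsW hζ s τ i b a from ha).1.1 fun n => ?_
    obtain ⟨y, hy, hy'⟩ := h n
    exact ⟨y, (show IsW hζ s τ i b y from hy).1.1, hy'⟩
  · intro x a ha
    rw [iter_act]
    have h1 := act_comm_sub hD hτ (γ x) (hqr x) 1 (show IsW hζ s τ i b a from ha).1.1
    rw [pow_one, mul_one] at h1
    exact h1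
  · intro x a ha
    exact tow_step_rel hF hD hτ hb ha (γ x) (hqo x) (hqr x) (hfix x)
  · intro x a ha haP n
    rw [iter_act]
    exact tow_step hF hD hτ hir hb (hCR' x.1 x.2) (hγ x) (hγs x) ha haP n
  · intro x a ha
    obtain ⟨M, hM, h⟩ := (show IsW hζ s τ i b a from ha).1.2.2 (γ x)
    refine ⟨M, hM, ?_⟩
    rw [tf06_iter]
    exact h
  · intro a ha h
    obtain ⟨e, he, hd⟩ := exp_of_mem_PB hF hD hτ i hb
      (fun x : {a : F // aeval a E = 0} => B x.1 x.2) (fun a ha => ⟨⟨a, ha⟩, haB a ha⟩) ha h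
    exact (IsW.div_of_exp hF hD hτ hb ha he hd).1

end Pool.Agent.Lib.MP_89bcae_ag.Sup

end

section

open Polynomial IsDedekindDomain

open scoped Classical

set_option linter.unusedSectionVars false

namespace Pool.Agent.Lib.MP_89bcae_ag.Sup

universe u

variable {k F L Ω : Type u} [Field k] [Field F] [Algebra k F] [Field L] [Algebra F[X] L]
  [Field Ω] [Algebra L Ω] [IsAlgClosure k F] [IsFractionRing F[X] L] [IsAlgClosure L Ω]
  [Algebra F Ω] {ℓ : ℕ} {g E : k[X]} [hG : IsGood ℓ (cOver k F L Ω g 1)] {ζ : k}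
  {r : ℕ} {ζr : F} {s : Ω}

theorem TowDat.tts_of_wws (hF : CompatF F L Ω) (hD : TowDat (L := L) ℓ r g E ζ ζr s)
    (hCR : ∀ a : F, aeval a E = 0 → ∃ (U : F ≃ₐ[k] F) (B : Set F), a ∈ B ∧ CR ℓ r g E ζ U B)
    {c : Coch ℓ k F L Ω g 1} (hc : WWs (Nst s) c) : TTs (Nst s) c := by
  obtain ⟨τ, hτ, -⟩ := hD.exists_tau
  have hp : IsPrimitiveRoot (zA F L Ω ζ) ℓ := zA_primitive hD.glob
  have hζ : (zA F L Ω ζ) ^ ℓ = 1 := hp.pow_eq_one
  have hgood : GoodAll ℓ k F L g 1 := goodAll_one hD.glob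
  refine tower_rel hD.glob.prime r (WW hD) (TT ℓ k F g s) (fun a ha => TTs.wws hD.nrm ha)
    (actH (galA k F τ)) (Sup.zC ζ hζ) (fun a ha => WWs.act hD.nrm ha _)
    (fun a ha => TTs.act hD.nrm ha _) (fun a ha => WWs.zC hgood hD.nrm ha hζ)
    (fun a ha => TTs.zC ha ζ hζ) ?_ ?_ ?_ ?_ ?_ c hc
  · intro a ha
    have h1 : actH (galA k F τ) (Sup.zC ζ hζ a) - Sup.zC ζ hζ (actH (galA k F τ) a) = 0 :=
      sub_eq_zero.mpr (act_zC (galA k F τ) ζ hζ a)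
    rw [h1]
    exact (TT ℓ k F g s).zero_mem
  · intro a ha
    rw [sum_zC hD a]
    exact (TT ℓ k F g s).zero_mem
  · intro a ha
    rw [iter_act]
    exact act_galA_subs hD.nrm (show WWs (Nst s) a from ha).1 (hD.pow_mem hτ)
  · intro a ha h
    exact hD.ker0 hF hτ ha h
  · intro i hi b hb a ha h
    rw [iter_act] at h
    exact hD.ker (hζ := hζ) hF hτ hi hb hCR ⟨ha, h⟩

end Pool.Agent.Lib.MP_89bcae_ag.Sup

end

end

section

section

open Polynomial IsDedekindDomain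

open scoped Classical

set_option linter.unusedSectionVars false

namespace Pool.Agent.Lib.MP_89bcae_ag.Sup

universe u

variable {k F L Ω : Type u} [Field k] [Field F] [Algebra k F] [Field L] [Algebra F[X] L]
  [Field Ω] [Algebra L Ω] [IsAlgClosure k F] [IsFractionRing F[X] L] [IsAlgClosure L Ω]
  {ℓ : ℕ} {g E : k[X]} [hG : IsGood ℓ (cOver k F L Ω g 1)] {ζ : k}

lemma tg03_fix (S : Finset Ω) (K₀ : IntermediateField L Ω)
    (hS : IntermediateField.adjoin L (S : Set Ω) = K₀) {σ : Ω ≃ₐ[L] Ω}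
    (hσ : ∀ y ∈ S, σ y = y) : ∀ x ∈ K₀, σ x = x := by
  intro x hx
  rw [← hS] at hx
  induction hx using IntermediateField.adjoin_induction with
  | mem x hx => exact hσ x hx
  | algebraMap x => exact σ.commutes x
  | add x y _ _ h1 h2 => rw [map_add, h1, h2]
  | inv x _ h1 => rw [map_inv₀, h1]
  | mul x y _ _ h1 h2 => rw [map_mul, h1, h2]

/-- The extension by zero of a cochain of `galOver L K`. -/
noncomputable def tg03_ext (K : Subfield Ω)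
    (c : ℕ → galOver L K → JacOver ℓ (curvePoly k F L g 1) Ω) : Coch ℓ k F L Ω g 1 :=
  fun n σ => if h : σ ∈ galOver L K then c n ⟨σ, h⟩ else 0

lemma tg03_apply (K : Subfield Ω)
    (c : ℕ → galOver L K → JacOver ℓ (curvePoly k F L g 1) Ω) (n : ℕ) {σ : Ω ≃ₐ[L] Ω}
    (h : σ ∈ galOver L K) : tg03_ext K c n σ = c n ⟨σ, h⟩ := dif_pos h

lemma tg03_cont {K : Subfield Ω}
    {c : ℕ → galOver L K → JacOver ℓ (curvePoly k F L g 1) Ω}
    (hc : IsTateCocycleOver ℓ (curvePoly k F L g 1) K c) (n : ℕ) :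
    ∃ S : Finset Ω, ∀ σ ∈ galOver L K, (∀ y ∈ S, σ y = y) → tg03_ext K c n σ = 0 := by
  have hc1 : c n 1 = 0 := by
    have h2 := hc.cocycle n 1 1
    rw [mul_one] at h2
    have h3 : push ℓ (curvePoly k F L g 1)
        (((1 : galOver L K) : Ω ≃ₐ[L] Ω) : Ω →ₐ[L] Ω) (c n 1) = 0 := by
      have h4 := add_left_cancel ((add_zero (c n 1)).trans h2)
      exact h4.symm
    have h5 : (((1 : galOver L K) : Ω ≃ₐ[L] Ω)) = 1 := rfl
    rw [h5, push_eq (k := k) (F := F) (g := g) (D := 1), map_one, map_one, symJ_one] at h3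
    exact h3
  have hopen : {σ : galOver L K | c n σ = 0} ∈ nhds (1 : galOver L K) :=
    ((hc.locallyConstant n).isOpen_fiber 0).mem_nhds hc1
  rw [nhds_subtype_eq_comap, Filter.mem_comap] at hopen
  obtain ⟨t, ht, hts⟩ := hopen
  obtain ⟨K₀, hK₀, hKt⟩ := (krullTopology_mem_nhds_one_iff L Ω t).1 ht
  obtain ⟨S, hS⟩ := (IntermediateField.essFiniteType_iff (K := K₀)).1 inferInstance
  refine ⟨S, fun σ hσ hSσ => ?_⟩
  rw [tg03_apply K c n hσ]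
  have h1 : σ ∈ t := by
    apply hKt
    rw [SetLike.mem_coe, IntermediateField.mem_fixingSubgroup_iff]
    exact tg03_fix S K₀ hS hSσ
  exact hts (a := (⟨σ, hσ⟩ : galOver L K)) h1

theorem noTateClassOver_of_wws (H : GlobHyp ℓ g E ζ) {r : ℕ} {s : Ω}
    (hs : s ^ ℓ ^ r = base k F L Ω E) (hN : Nrm k F (Nst s : Subgroup (Ω ≃ₐ[L] Ω)))
    (hT : Trs (cOver k F L Ω g 1) (Nst s : Subgroup (Ω ≃ₐ[L] Ω)))
    (hW : ∀ c : Coch ℓ k F L Ω g 1, WWs (Nst s) c → TTs (Nst s) c)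
    (k' : IntermediateField k F) [FiniteDimensional k k'] :
    NoTateClassOver ℓ k F L g 1 (cover k' F L s) := by
  intro c hc hloc hfix
  have hmem : ∀ σ : Ω ≃ₐ[L] Ω, σ ∈ galOver L (cover k' F L s) ↔
      σ ∈ (Nst s : Subgroup (Ω ≃ₐ[L] Ω)) := mem_galOver_cover k' s
  have hζ : IsPrimitiveRoot (zA F L Ω ζ) ℓ := zA_primitive H
  have hTC : TCs (Nst s : Subgroup (Ω ≃ₐ[L] Ω)) (tg03_ext (cover k' F L s) c) := by
    refine ⟨fun n => ⟨?_, ?_⟩, ?_, ?_⟩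
    · intro σ hσ τ hτ
      have hσ' := (hmem σ).2 hσ
      have hτ' := (hmem τ).2 hτ
      rw [tg03_apply _ c n (mul_mem hσ' hτ'), tg03_apply _ c n hσ', tg03_apply _ c n hτ']
      exact hc.cocycle n ⟨σ, hσ'⟩ ⟨τ, hτ'⟩
    · obtain ⟨S, hS⟩ := tg03_cont hc n
      exact ⟨S, fun σ hσ => hS σ ((hmem σ).2 hσ)⟩
    · intro σ hσ
      rw [tg03_apply _ c 0 ((hmem σ).2 hσ)]
      exact hc.zero _
    · intro n σ hσ
      rw [tg03_apply _ c _ ((hmem σ).2 hσ), tg03_apply _ c _ ((hmem σ).2 hσ)]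
      exact hc.smul n _
  have hLT : LTs (Nst s : Subgroup (Ω ≃ₐ[L] Ω)) (tg03_ext (cover k' F L s) c) := by
    intro a n M _ _ _ _ _ j
    obtain ⟨Q, hQ⟩ := hloc (plc a) n M j
    refine ⟨Q, fun σ σ' hσ' hj => ?_⟩
    rw [tg03_apply _ c n ((hmem σ').2 hσ')]
    exact hQ σ ⟨σ', (hmem σ').2 hσ'⟩ hj
  have hWW : WWs (Nst s : Subgroup (Ω ≃ₐ[L] Ω)) (tg03_ext (cover k' F L s) c) := by
    refine ⟨hTC, hLT, fun γ => ?_⟩
    obtain ⟨M, hM, hMx⟩ := exists_pow_cover H.prime.ne_zero k' hs γ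
    refine ⟨M, hM, ?_⟩
    obtain ⟨m, hm, h1⟩ := hfix ((γ ^ M : AutO k F L Ω) : Ω ≃+* Ω) (toSym g 1 (γ ^ M)).2 hMx
    have hcoc : TCs (Nst s : Subgroup (Ω ≃ₐ[L] Ω))
        (Sup.act (γ ^ M) (tg03_ext (cover k' F L s) c) - tg03_ext (cover k' F L s) c) :=
      (hTC.act hN (γ ^ M)).sub hTC
    have hcocm : TCs (Nst s : Subgroup (Ω ≃ₐ[L] Ω))
        (m • (Sup.act (γ ^ M) (tg03_ext (cover k' F L s) c) - tg03_ext (cover k' F L s) c)) := by
      clear h1 hm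
      induction m with
      | zero =>
        rw [zero_smul]
        exact TCs.zero'
      | succ m ih =>
        rw [succ_nsmul]
        exact ih.add hcoc
    refine TTs.of_smul hζ hT hcoc hm ⟨hcocm, fun n => ?_⟩
    obtain ⟨A, hA, hA2⟩ := h1 n
    refine ⟨A, hA, fun σ hσ => ?_⟩
    have hσ' := (hmem σ).2 hσ
    have hτ := (hmem _).2 (hN (γ ^ M)⁻¹ σ hσ)
    have h2 := hA2 ⟨conjG (γ ^ M)⁻¹ σ, hτ⟩ ⟨σ, hσ'⟩ (by
      intro x
      have h2 := conjG_spec (γ ^ M)⁻¹ σ (((γ ^ M : AutO k F L Ω) : Ω ≃+* Ω) x)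
      have h3 : (((γ ^ M)⁻¹ : AutO k F L Ω) : Ω ≃+* Ω)
          (((γ ^ M : AutO k F L Ω) : Ω ≃+* Ω) x) = x :=
        ((γ ^ M : AutO k F L Ω) : Ω ≃+* Ω).symm_apply_apply x
      rw [h3] at h2
      change ((γ ^ M : AutO k F L Ω) : Ω ≃+* Ω) ((conjG (γ ^ M)⁻¹ σ) x) =
        σ (((γ ^ M : AutO k F L Ω) : Ω ≃+* Ω) x)
      rw [h2]
      exact ((γ ^ M : AutO k F L Ω) : Ω ≃+* Ω).apply_symm_apply _)
    rw [← tg03_apply (cover k' F L s) c n hτ, ← tg03_apply (cover k' F L s) c n hσ'] at h2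
    exact h2
  intro n
  obtain ⟨A, hA, hA2⟩ := (hW _ hWW).2 n
  refine ⟨A, hA, fun σ => ?_⟩
  have h1 := hA2 σ.1 ((hmem σ.1).1 σ.2)
  rw [tg03_apply _ c n σ.2] at h1
  exact h1

end Pool.Agent.Lib.MP_89bcae_ag.Sup

end

section

open Polynomial IsDedekindDomain

open scoped Classical

set_option linter.unusedSectionVars false

namespace Pool.Agent.Lib.MP_89bcae_ag.Sup

universe u

lemma exists_zr {k F : Type u} [Field k] [Field F] [Algebra k F] [IsAlgClosure k F] {ℓ : ℕ}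
    (hℓ : ℓ.Prime) {ζ : k} (hζ : IsPrimitiveRoot ζ ℓ) {r : ℕ} (hr : 0 < r) :
    ∃ ζr : F, IsPrimitiveRoot ζr (ℓ ^ r) ∧ ζr ^ ℓ ^ (r - 1) = algebraMap k F ζ := by
  haveI : IsAlgClosed F := IsAlgClosure.isAlgClosed k
  haveI : Fact ℓ.Prime := ⟨hℓ⟩
  obtain ⟨x, hx⟩ := IsAlgClosed.exists_pow_nat_eq (algebraMap k F ζ)
    (pow_pos hℓ.pos (r - 1))
  have hζF : IsPrimitiveRoot (algebraMap k F ζ) ℓ :=
    hζ.map_of_injective (algebraMap k F).injective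
  obtain ⟨n, rfl⟩ : ∃ n, r = n + 1 := ⟨r - 1, by omega⟩
  rw [Nat.add_sub_cancel] at hx
  refine ⟨x, ?_, by rw [Nat.add_sub_cancel]; exact hx⟩
  have h1 : ¬ x ^ ℓ ^ n = 1 := by
    rw [hx]
    exact hζF.ne_one hℓ.one_lt
  have h2 : x ^ ℓ ^ (n + 1) = 1 := by
    rw [pow_succ, pow_mul, hx]
    exact hζF.pow_eq_one
  rw [IsPrimitiveRoot.iff_orderOf]
  exact orderOf_eq_prime_pow h1 h2

lemma CRall.toCR {ℓ : ℕ} {k F : Type u} [Field k] [Field F] [Algebra k F] {g E : k[X]} {ζ : k}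
    {U : F ≃ₐ[k] F} {B : Set F} (h : CRall ℓ g E ζ U B) (r : ℕ) : CR ℓ r g E ζ U B :=
  ⟨h.fix, h.neg, fun μ _ => h.sep μ⟩

section

variable {k F L Ω : Type u} [Field k] [Field F] [Algebra k F] [Field L] [Algebra F[X] L]
  [Field Ω] [Algebra L Ω] [IsAlgClosure k F] [IsFractionRing F[X] L] [IsAlgClosure L Ω]
  [Algebra F Ω] {ℓ : ℕ} {g E : k[X]} [hG : IsGood ℓ (cOver k F L Ω g 1)] {ζ : k}

omit [Algebra F Ω] in
lemma tg04_tcs_mono {N N' : Subgroup (Ω ≃ₐ[L] Ω)} (hN : N' ≤ N) {c : Coch ℓ k F L Ω g 1}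
    (hc : TCs N c) : TCs N' c :=
  ⟨fun n => (hc.c1 n).mono hN, fun σ hσ => hc.zero σ (hN hσ),
    fun n σ hσ => hc.smul n σ (hN hσ)⟩

omit [Algebra F Ω] in
lemma tg04_tts_mono {N N' : Subgroup (Ω ≃ₐ[L] Ω)} (hN : N' ≤ N) {c : Coch ℓ k F L Ω g 1}
    (hc : TTs N c) : TTs N' c := by
  refine ⟨tg04_tcs_mono hN hc.1, fun n => ?_⟩
  obtain ⟨A, hA, hcA⟩ := hc.2 n
  exact ⟨A, hA, fun σ hσ => hcA σ (hN hσ)⟩

omit [Algebra F Ω] in
lemma tg04_pow_smul {N : Subgroup (Ω ≃ₐ[L] Ω)} {c : Coch ℓ k F L Ω g 1}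
    (hc : TCs N c) (n : ℕ) {σ : Ω ≃ₐ[L] Ω} (hσ : σ ∈ N) : ℓ ^ n • c n σ = 0 := by
  induction n with
  | zero => rw [pow_zero, one_smul]; exact hc.zero σ hσ
  | succ n ih => rw [pow_succ, mul_smul, hc.smul n σ hσ]; exact ih

theorem wws_top (hF : CompatF F L Ω) (H : GlobHyp ℓ g E ζ)
    (hCR : ∀ a : F, aeval a E = 0 → ∃ (U : F ≃ₐ[k] F) (B : Set F), a ∈ B ∧ CRall ℓ g E ζ U B)
    {c : Coch ℓ k F L Ω g 1} (hc : WWs ⊤ c) : TTs ⊤ c := by
  haveI : IsAlgClosed Ω := IsAlgClosure.isAlgClosed L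
  obtain ⟨ζr, hζr, hpow⟩ := exists_zr (F := F) H.prime H.zeta (r := 1) one_pos
  obtain ⟨s, hs⟩ := IsAlgClosed.exists_pow_nat_eq (base k F L Ω E) (pow_pos H.prime.pos 1)
  have hD : TowDat (L := L) ℓ 1 g E ζ ζr s := ⟨H, one_pos, hζr, hpow, hs⟩
  have hW : WWs (Nst s) c := by
    refine ⟨tg04_tcs_mono le_top hc.1, hc.2.1.mono le_top, fun γ => ?_⟩
    obtain ⟨M, hM, h⟩ := hc.2.2 γ
    exact ⟨M, hM, tg04_tts_mono le_top h⟩
  have hT := hD.tts_of_wws hF (fun a ha => by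
    obtain ⟨U, B, haB, h⟩ := hCR a ha
    exact ⟨U, B, haB, h.toCR 1⟩) hW
  refine ⟨hc.1, fun n => ?_⟩
  obtain ⟨A, hA, hcA⟩ := hT.2 n
  refine ⟨A, hA, fun γ _ => ?_⟩
  have key : symJ (toSym g 1 (galA k F γ)) A = A + c n γ := by
    refine cob_injN (zA_primitive H) hD.trs n ?_ ?_ fun σ hσ => ?_
    · rw [← map_nsmul, hA, map_zero]
    · rw [smul_add, hA, tg04_pow_smul hc.1 n (Subgroup.mem_top γ), add_zero]
    · have e1 := act1_galA_sub (hc.1.c1 n) (Subgroup.mem_top γ) σ (Subgroup.mem_top σ)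
      have e2 := act1_congr hD.nrm (galA k F γ) (x := c n) (y := cob A) hcA σ hσ
      rw [act1_cob] at e2
      rw [← e2, e1, hcA σ hσ, cob_add]
      rfl
  rw [cob_apply, key]
  abel

end

theorem main_tower {ℓ : ℕ} (k F L Ω : Type u) [Field k] [Field F] [Algebra k F]
    [IsAlgClosure k F] [Field L] [Algebra F[X] L] [IsFractionRing F[X] L] [Field Ω]
    [Algebra L Ω] [IsAlgClosure L Ω] {g E : k[X]} {ζ : k} (H : GlobHyp ℓ g E ζ)
    (hCR : ∀ a : F, aeval a E = 0 → ∃ (U : F ≃ₐ[k] F) (B : Set F), a ∈ B ∧ CRall ℓ g E ζ U B)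
    (k' : IntermediateField k F) [FiniteDimensional k k'] (r : ℕ) (s : Ω)
    (hs : s ^ ℓ ^ r = base k F L Ω E) :
    NoTateClassOver ℓ k F L g 1 (cover k' F L s) := by
  letI : Algebra F Ω := ((algebraMap L Ω).comp ((algebraMap F[X] L).comp C)).toAlgebra
  have hF : CompatF F L Ω := fun c => rfl
  haveI : IsAlgClosed Ω := IsAlgClosure.isAlgClosed L
  haveI : IsGood ℓ (cOver k F L Ω g 1) := goodAll_one H Ω
  rcases Nat.eq_zero_or_pos r with hr | hr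
  · subst hr
    have hs' : s = base k F L Ω E := by
      rw [pow_zero, pow_one] at hs
      exact hs
    have hN : (Nst s : Subgroup (Ω ≃ₐ[L] Ω)) = ⊤ := by
      rw [eq_top_iff]
      intro σ _
      change σ s = s
      rw [hs']
      exact σ.commutes _
    refine noTateClassOver_of_wws H hs ?_ ?_ ?_ k'
    · intro γ σ _
      rw [hN]
      exact Subgroup.mem_top _
    · rw [hN]
      exact trs_top H
    · rw [hN]
      exact fun c hc => wws_top hF H hCR hc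
  · obtain ⟨ζr, hζr, hpow⟩ := exists_zr (F := F) H.prime H.zeta hr
    have hD : TowDat (L := L) ℓ r g E ζ ζr s := ⟨H, hr, hζr, hpow, hs⟩
    refine noTateClassOver_of_wws H hs hD.nrm hD.trs (fun c hc => ?_) k'
    exact hD.tts_of_wws hF (fun a ha => by
      obtain ⟨U, B, haB, h⟩ := hCR a ha
      exact ⟨U, B, haB, h.toCR r⟩) hc

end Pool.Agent.Lib.MP_89bcae_ag.Sup

end

section

/-!
# Towers of superelliptic surfaces with integral coefficients: the arithmetic part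
-/

open Polynomial

open scoped Classical

set_option linter.unusedSimpArgs false
set_option linter.unusedVariables false
set_option linter.unusedSectionVars false
set_option linter.style.haveILetI false

namespace Pool.Agent.Lib.MP_89bcae_ag


end Pool.Agent.Lib.MP_89bcae_ag

end

section

/-!
# Towers of superelliptic surfaces with integral coefficients: density one
-/

open Polynomial Filter Topology

open scoped Classical

set_option linter.unusedSimpArgs false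
set_option linter.unusedVariables false
set_option linter.unusedSectionVars false
set_option linter.style.haveILetI false

namespace Pool.Agent.Lib.MP_89bcae_ag


end Pool.Agent.Lib.MP_89bcae_ag

end

end
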