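import Mathlib
import Pool.Agent.Lib.MP_89bcae_ag.DefsZ7
import Pool.Agent.Lib.MP_89bcae_ag.Tk.K000
import Pool.Agent.Lib.MP_89bcae_ag.Tk.K024
import Pool.Agent.Lib.MP_89bcae_ag.Tk.K025
import Pool.Agent.Lib.MP_89bcae_ag.Tk.K052

set_option linter.all false

section

attribute [local instance 100000] Pool.Agent.Lib.MP_89bcae_ag.Brt.tffFields
attribute [local instance 100000] Pool.Agent.Lib.MP_89bcae_ag.Wt.ifrNF Pool.Agent.Lib.MP_89bcae_ag.Wt.iddNF

namespace Pool.Agent.Lib.MP_89bcae_ag.Bra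
end Pool.Agent.Lib.MP_89bcae_ag.Bra
namespace Pool.Agent.Lib.MP_89bcae_ag.Wt
end Pool.Agent.Lib.MP_89bcae_ag.Wt
namespace Pool.Agent.Lib.MP_89bcae_ag.Wt.Lns
end Pool.Agent.Lib.MP_89bcae_ag.Wt.Lns

/-!
# The transfer theorem
-/

open Polynomial IsDedekindDomain IsLocalRing

open scoped Classical

namespace Pool.Agent.Lib.MP_89bcae_ag.Brt

open Pool.Agent.Lib.MP_89bcae_ag.Wt Pool.Agent.Lib.MP_89bcae_ag.Wt.Lns Pool.Agent.Lib.MP_89bcae_ag.Bra

section

variable {K S : Type} [Field K] [Field S] [Algebra K S]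
  {L Ω : Type} [Field L] [Field Ω] [Algebra L Ω] {ℓ : ℕ} {f : L[X]}
  {F : Type} [Field F] [Algebra F K] [Algebra F[X] L]
  {i : L →+* K} [IsAlgClosed F] [IsAlgClosure K S] [IsAlgClosure L Ω]
  [hG : IsGood ℓ (f.map (algebraMap L Ω))] {x y : K}
  {Φ : FunField ℓ (f.map (algebraMap L Ω)) →+* S}

private lemma group_aux {G : Type*} [CommGroup G] (A B U V : G) :
    (A / U)⁻¹ * (B / V) * (A / B) = U * V⁻¹ := by
  rw [inv_div, div_mul_div_comm, div_mul_div_comm, ← div_eq_mul_inv, div_eq_div_iff_mul_eq_mul]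
  ac_rfl

/-- `b` is, up to the multiple `m`, the inflation of the unramified cocycle `b'` with divisor `d C`. -/
structure Rep (hΦ : IsModel F i x y Φ) (b : (S ≃ₐ[K] S) → (S ≃ₐ[K] S) → Sˣ) (m : ℕ)
    (b' : (Ω ≃ₐ[L] Ω) → (Ω ≃ₐ[L] Ω) → (FunField ℓ (f.map (algebraMap L Ω)))ˣ)
    (C : (Ω ≃ₐ[L] Ω) → (Pt ℓ (f.map (algebraMap L Ω)) →₀ ℤ)) : Prop where
  coprime : m.Coprime ℓ
  cocycle : ICoc b'
  infl : IsCoboundary fun g h => b g h ^ m / infl hΦ b' g h
  unr : IUnr F b'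
  div : IDiv b' C

theorem exists_rep (hℓ : ℓ.Prime) (hΦ : IsModel F i x y Φ) (b : (S ≃ₐ[K] S) → (S ≃ₐ[K] S) → Sˣ)
    (hb : IsCocycle b) (hu : IsUnramified F b) :
    ∃ (m : ℕ) (b' : (Ω ≃ₐ[L] Ω) → (Ω ≃ₐ[L] Ω) → (FunField ℓ (f.map (algebraMap L Ω)))ˣ)
      (C : (Ω ≃ₐ[L] Ω) → (Pt ℓ (f.map (algebraMap L Ω)) →₀ ℤ)), Rep hΦ b m b' C := by
  obtain ⟨m, b', hm, hb', hi⟩ := exists_infl hℓ hΦ b hb
  have hu' : IUnr F b' := iunr_of_unramified hΦ b hu m b' hi
  obtain ⟨m', C, hm', hC⟩ := horizontal (F := F) hℓ b' hb' hu'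
  refine ⟨m * m', fun g h => b' g h ^ m', C, Nat.Coprime.mul_left hm hm', hb'.pow m', ?_,
    hu'.pow m', hC⟩
  have h1 := hi.pow m'
  refine Eq.mp (congrArg IsCoboundary ?_) h1
  funext g h
  rw [div_pow, ← pow_mul]
  congr 1
  unfold infl
  rw [map_pow]

/-- Relations between representatives. -/
theorem Rep.relation (hℓ : ℓ.Prime) {hΦ : IsModel F i x y Φ}
    {b₁ b₂ : (S ≃ₐ[K] S) → (S ≃ₐ[K] S) → Sˣ} {m₁ m₂ : ℕ}
    {b₁' b₂' : (Ω ≃ₐ[L] Ω) → (Ω ≃ₐ[L] Ω) → (FunField ℓ (f.map (algebraMap L Ω)))ˣ}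
    {C₁ C₂ : (Ω ≃ₐ[L] Ω) → (Pt ℓ (f.map (algebraMap L Ω)) →₀ ℤ)} (h₁ : Rep hΦ b₁ m₁ b₁' C₁)
    (h₂ : Rep hΦ b₂ m₂ b₂' C₂) (n : ℕ) (h : IsCoboundary fun g h => b₁ g h ^ n / b₂ g h) :
    ∃ u : ℕ, u.Coprime ℓ ∧ ∃ Q : Jac ℓ (f.map (algebraMap L Ω)), ∀ g,
      u • ((n * m₂) • cl (C₁ g) - m₁ • cl (C₂ g)) = symJ (gs f g) Q - Q := by
  have hk : IsCoboundary (Brt.infl hΦ fun g h => b₁' g h ^ (n * m₂) * (b₂' g h ^ m₁)⁻¹) := by
    have e1 := (h₁.infl.pow (n * m₂)).inv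
    have e2 := h₂.infl.pow m₁
    have e3 := h.pow (m₁ * m₂)
    refine Eq.mp (congrArg IsCoboundary ?_) ((e1.mul e2).mul e3)
    funext g h
    unfold Brt.infl
    rw [map_mul, map_inv, map_pow, map_pow]
    simp only [div_pow, ← pow_mul]
    rw [show m₁ * (n * m₂) = n * (m₁ * m₂) by ring, show m₂ * m₁ = m₁ * m₂ by ring]
    exact group_aux _ _ _ _
  have hc : ICoc fun g h => b₁' g h ^ (n * m₂) * (b₂' g h ^ m₁)⁻¹ :=
    (h₁.cocycle.pow _).mul (h₂.cocycle.pow _).inv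
  obtain ⟨u, hu, hcob⟩ := icob_of_infl hℓ hΦ _ hc hk
  have hd : IDiv (fun g h => (b₁' g h ^ (n * m₂) * (b₂' g h ^ m₁)⁻¹) ^ u)
      (u • ((n * m₂) • C₁ + -(m₁ • C₂))) :=
    ((h₁.div.pow (n * m₂)).mul (h₂.div.pow m₁).inv).pow u
  obtain ⟨Q, hQ⟩ := cl_of_icob hd hcob
  refine ⟨u, hu, Q, fun g => ?_⟩
  rw [← hQ g]
  rw [Pi.smul_apply, Pi.add_apply, Pi.neg_apply, Pi.smul_apply, Pi.smul_apply, map_nsmul, map_add,
    map_neg, map_nsmul, map_nsmul]
  exact congrArg _ (sub_eq_add_neg _ _)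

omit [IsAlgClosure L Ω] in
lemma push_gs (σ : Ω ≃ₐ[L] Ω) (Q : Jac ℓ (f.map (algebraMap L Ω))) :
    push ℓ f (σ : Ω →ₐ[L] Ω) Q = symJ (gs f σ) Q := rfl

/-- Continuity for the Krull topology. -/
lemma isLocallyConstant_of_isCts {L Ω : Type} [Field L] [Field Ω] [Algebra L Ω]
    [Algebra.IsAlgebraic L Ω] {X : Type} {a : (Ω ≃ₐ[L] Ω) → X} (ha : IsCts a) :
    IsLocallyConstant a := by
  obtain ⟨T, hT⟩ := ha
  have hfin : FiniteDimensional L (IntermediateField.adjoin L (T : Set Ω)) :=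
    IntermediateField.finiteDimensional_adjoin fun x _ => Algebra.IsIntegral.isIntegral x
  rw [IsLocallyConstant.iff_exists_open]
  intro g
  refine ⟨(fun h => g⁻¹ * h) ⁻¹' ((IntermediateField.adjoin L (T : Set Ω)).fixingSubgroup :
    Set (Ω ≃ₐ[L] Ω)), (IntermediateField.fixingSubgroup_isOpen _).preimage
      (continuous_const.mul continuous_id), ?_, ?_⟩
  · show g⁻¹ * g ∈ (IntermediateField.adjoin L (T : Set Ω)).fixingSubgroup
    rw [inv_mul_cancel]
    exact one_mem _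
  intro h hh
  refine hT _ _ fun x hx => ?_
  have h1 : (g⁻¹ * h) x = x := (IntermediateField.mem_fixingSubgroup_iff _ _).mp hh x
    (IntermediateField.subset_adjoin L _ hx)
  rw [show h = g * (g⁻¹ * h) by rw [mul_inv_cancel_left], AlgEquiv.mul_apply, h1]

private lemma module_aux {A : Type*} [AddCommGroup A] {m w : ℕ} {X Y P V U R Q Q' : A}
    (h : m • (w • X - w • Y) = w • (Q' - Q)) :
    m • (w • X + (P - V) - (w • Y + (U - R))) = w • Q' + m • (P - U) - (w • Q + m • (V - R)) := by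
  have h1 : m • (w • X + (P - V) - (w • Y + (U - R))) =
      m • (w • X - w • Y) + m • (P - V - (U - R)) := by
    rw [← smul_add]
    congr 1
    abel
  rw [h1, h]
  simp only [smul_sub]
  abel

/-- The coboundaries of degree one. -/
def cob1 (f : L[X]) [IsGood ℓ (f.map (algebraMap L Ω))] :
    AddSubgroup ((Ω ≃ₐ[L] Ω) → Jac ℓ (f.map (algebraMap L Ω))) where
  carrier := {c | ∃ Q, ∀ g, c g = symJ (gs f g) Q - Q}
  add_mem' := by
    rintro a b ⟨Q, hQ⟩ ⟨Q', hQ'⟩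
    refine ⟨Q + Q', fun g => ?_⟩
    rw [Pi.add_apply, hQ g, hQ' g, map_add]
    abel
  zero_mem' := ⟨0, fun g => by rw [map_zero, sub_zero]; rfl⟩
  neg_mem' := by
    rintro a ⟨Q, hQ⟩
    refine ⟨-Q, fun g => ?_⟩
    rw [Pi.neg_apply, hQ g, map_neg]
    abel

/-- The transfer theorem. -/
theorem transfer {k : Type} [Field k] [Algebra k F] [IsAlgClosure k F] (hℓ : ℓ.Prime)
    (hΦ : IsModel F i x y Φ) (hBr : BrTriv ℓ L Ω)
    {Γ : IntermediateField k F → Set (Ω ≃+* Ω)} {LT : ((Ω ≃ₐ[L] Ω) → JacOver ℓ f Ω) → Prop}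
    (hΓ : FixFam L Γ) (hLT : ∀ Q : JacOver ℓ f Ω, LT fun σ => symJ (gs f σ) Q - Q)
    (hV : ∀ (b : (Ω ≃ₐ[L] Ω) → (Ω ≃ₐ[L] Ω) → (FunField ℓ (f.map (algebraMap L Ω)))ˣ)
      (C : (Ω ≃ₐ[L] Ω) → (Pt ℓ (f.map (algebraMap L Ω)) →₀ ℤ)), ICoc b → IUnr F b → IDiv b C →
      (∃ n : ℕ, ∀ g, ℓ ^ n • (cl (C g) : Jac ℓ (f.map (algebraMap L Ω))) = 0) →
        LT fun g => cl (C g)) {e₀ : ℕ}
    (hNT : ∀ k' : IntermediateField k F, FiniteDimensional k k' → NTg ℓ (ℓ ^ e₀) f LT (Γ k'))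
    (k' : IntermediateField k F) (hk' : FiniteDimensional k k') {A : (S ≃+* S) → Prop}
    (hA : ∀ γ ∈ Γ k', ∃ s : L ≃+* L, (∀ z, γ (algebraMap L Ω z) = algebraMap L Ω (s z)) ∧
      ∀ γ' : S ≃+* S, (∀ z : L, γ' (algebraMap K S (i z)) = algebraMap K S (i (s z))) →
        γ' (algebraMap K S x) = algebraMap K S x → γ' (algebraMap K S y) = algebraMap K S y → A γ')
    (b : ℕ → (S ≃ₐ[K] S) → (S ≃ₐ[K] S) → Sˣ) (hb : IsTateSequence ℓ b)
    (hu : ∀ n, IsUnramified F (b n)) (hfix : ∀ γ : S ≃+* S, A γ → ∀ n, Bra.IsFixedBy (b n) γ) :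
    ∀ n, IsCoboundary (b n) := by
  have hrep := fun n => exists_rep hℓ hΦ (b n) (hb.cocycle n) (hu n)
  choose m b' C hR using hrep
  have h0 : ∃ u : ℕ, u.Coprime ℓ ∧ (u • fun g => (cl (C 0 g) : Jac ℓ (f.map (algebraMap L Ω)))) ∈
      cob1 (ℓ := ℓ) (Ω := Ω) f := by
    have e1 : IsCoboundary (infl hΦ (b' 0)) := by
      have e2 := ((hb.zero.pow (m 0)).mul (hR 0).infl.inv)
      refine Eq.mp (congrArg IsCoboundary ?_) e2
      funext g h
      rw [inv_div, mul_div_cancel]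
    obtain ⟨u, hu, hcob⟩ := icob_of_infl hℓ hΦ _ (hR 0).cocycle e1
    obtain ⟨Q, hQ⟩ := cl_of_icob ((hR 0).div.pow u) hcob
    exact ⟨u, hu, Q, fun g => by rw [← hQ g, Pi.smul_apply, Pi.smul_apply, map_nsmul]⟩
  have h1 : ∀ n, ∃ u : ℕ, u.Coprime ℓ ∧
      u • ((ℓ * m n) • (fun g => (cl (C (n + 1) g) : Jac ℓ (f.map (algebraMap L Ω)))) -
        m (n + 1) • fun g => (cl (C n g) : Jac ℓ (f.map (algebraMap L Ω)))) ∈
      cob1 (ℓ := ℓ) (Ω := Ω) f := by
    intro n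
    obtain ⟨u, hu, Q, hQ⟩ := (hR (n + 1)).relation hℓ (hR n) ℓ (hb.pow n)
    exact ⟨u, hu, Q, fun g => hQ g⟩
  obtain ⟨w, hw0, hw1, hw2⟩ := exists_weights hℓ (cob1 (ℓ := ℓ) (Ω := Ω) f)
    (fun n g => cl (C n g)) m (fun n => (hR n).coprime) h0 h1
  obtain ⟨R, hR0, hR1⟩ := exists_exact hℓ (f := f)
    (fun n g => w n • (cl (C n g) : Jac ℓ (f.map (algebraMap L Ω)))) hw0 hw1
  choose D hD using fun n => cl_surjective (N := ℓ) (f := f.map (algebraMap L Ω)) (R n)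
  have hdiv : ∀ n, IDiv (fun g h => b' n g h ^ w n)
      (fun g => (w n • C n) g + ((D n).mapDomain (Pt.sym (gs f g)) - D n)) := fun n =>
    ((hR n).div.pow (w n)).add_coboundary (D n)
  set c : ℕ → (Ω ≃ₐ[L] Ω) → Jac ℓ (f.map (algebraMap L Ω)) := fun n g =>
    cl ((w n • C n) g + ((D n).mapDomain (Pt.sym (gs f g)) - D n)) with hc
  have hc' : ∀ n g, c n g = w n • cl (C n g) + (symJ (gs f g) (R n) - R n) := by
    intro n g
    show cl ((w n • C n) g + ((D n).mapDomain (Pt.sym (gs f g)) - D n)) = _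
    rw [← hD n, symJ_cl, map_add, map_sub, Pi.smul_apply, map_nsmul]
  have hT : Wt.IsTateCocycle ℓ f c := by
    refine ⟨fun σ => ?_, fun n σ => ?_, fun n σ τ => ?_, fun n => ?_⟩
    · rw [hc']
      exact hR0 σ
    · rw [hc', hc']
      exact hR1 n σ
    · rw [push_gs]
      exact (hdiv n).cl_cocycle σ τ
    · apply isLocallyConstant_of_isCts
      obtain ⟨T, hT⟩ := (hdiv n).continuous
      exact ⟨T, fun g g' h => congrArg cl (hT g g' h)⟩
  have htor : ∀ n g, ℓ ^ n • c n g = 0 := by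
    intro n g
    induction n with
    | zero => rw [hT.zero, smul_zero]
    | succ n ih => rw [pow_succ, mul_smul, hT.smul, ih]
  have hLT' : ∀ n : ℕ, LT (c n) := fun n =>
    hV _ _ ((hR n).cocycle.pow (w n)) ((hR n).unr.pow (w n)) (hdiv n) ⟨n, htor n⟩
  have hMW := mordell_weil (k := k) (F := F) hℓ hΓ hLT hNT
  have hF : ∀ (γ : Ω ≃+* Ω) hγ, γ ∈ Γ k' → Wt.IsFixedBy ℓ f c γ hγ := by
    intro γ hγ hγk
    obtain ⟨s, hs, hsA⟩ := hA γ hγk
    obtain ⟨γ', hγ', hγF⟩ := exists_lift hΦ γ hγ s hs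
    refine isFixedBy_of (pow_pos hℓ.pos e₀) hℓ hT hMW γ hγ s hs fun n => ?_
    have e1 : Bra.IsFixedBy (b n) γ' := by
      refine hfix γ' (hsA γ' hγF ?_ ?_) n
      · rw [← hΦ.fx, hγ', funMap_polyF, map_X]
      · rw [← hΦ.fy, hγ', funMap_yF]
    obtain ⟨m', hm', a, ha, hab⟩ := icob_of_fixed hℓ hΦ (b n) (hb.cocycle n) (m n) (b' n)
      (hR n).cocycle (hR n).infl γ hγ s hs γ' hγ' e1
    obtain ⟨Q, hQ⟩ := cl_of_fixed (hR n).div γ hγ s hs m' a ha hab
    refine ⟨m', hm', w n • Q + m' • (symJ ⟨γ, hγ⟩ (R n) - R n), fun g g' hg => ?_⟩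
    have e2 := hQ g g' hg
    have e3 : symJ ⟨γ, hγ⟩ (symJ (gs f g) (R n)) = symJ (gs f g') (symJ ⟨γ, hγ⟩ (R n)) := by
      rw [← symJ_mul, ← symJ_mul]
      congr 1
      congr 1
      apply Subtype.ext
      apply RingEquiv.ext
      exact hg
    rw [hc', hc', map_add, map_sub, map_nsmul, e3, map_add, map_nsmul, map_nsmul, map_sub]
    have e4 : m' • (w n • symJ ⟨γ, hγ⟩ (cl (C n g)) - w n • cl (C n g')) =
        w n • (symJ (gs f g') Q - Q) := by
      rw [← e2, smul_comm, smul_sub, smul_sub, smul_sub]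
    exact module_aux e4
  have hNTk := hNT k' hk' c hT hLT' hF
  -- the cocycles are trivial
  intro n
  have e1 : ∃ A : Jac ℓ (f.map (algebraMap L Ω)), ∀ g, c n g = symJ (gs f g) A - A := by
    obtain ⟨A, -, hA⟩ := hNTk (n + e₀)
    refine ⟨A, fun g => ?_⟩
    have e5 : ∀ e : ℕ, ℓ ^ e • c (n + e) g = c n g := by
      intro e
      induction e with
      | zero => rw [pow_zero, one_smul, Nat.add_zero]
      | succ e ih => rw [pow_succ, mul_smul, ← Nat.add_assoc, hT.smul, ih]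
    rw [← e5 e₀]
    exact hA g
  obtain ⟨A, hA⟩ := e1
  obtain ⟨u, hu', hcob⟩ := icob_of_cl hBr ((hR n).cocycle.pow (w n)) (hdiv n) A hA
  rcases Nat.eq_zero_or_pos n with rfl | hn
  · exact hb.zero
  have e2 : IsCoboundary fun g h => b n g h ^ (m n * w n * u) := by
    have e3 := (icob_infl hΦ hcob).mul ((hR n).infl.pow (w n * u))
    refine Eq.mp (congrArg IsCoboundary ?_) e3
    funext g h
    unfold infl
    simp only [map_pow, div_pow, ← pow_mul]
    rw [mul_div_cancel, mul_assoc]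
  refine IsCoboundary.of_coprime ?_ e2 (hb.pow_coboundary n)
  have e4 : (w n * m n).Coprime ℓ := by
    have e5 := ((hw2 n).of_dvd (dvd_pow_self ℓ hn.ne')).gcd_eq
    rw [Nat.gcd_one_left] at e5
    exact e5
  exact Nat.Coprime.pow_right n ((Nat.mul_comm (w n) (m n) ▸ e4).mul_left hu')

end

end Pool.Agent.Lib.MP_89bcae_ag.Brt

end

section

attribute [local instance 100000] Pool.Agent.Lib.MP_89bcae_ag.Brt.tffFields
attribute [local instance 100000] Pool.Agent.Lib.MP_89bcae_ag.Wt.ifrNF Pool.Agent.Lib.MP_89bcae_ag.Wt.iddNF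

section

/-!
# Integral vectors which avoid a positive proportion of the residue classes modulo infinitely many
primes have density zero
-/

open Filter Topology

open scoped Classical

namespace Pool.Agent.Lib.MP_89bcae_ag

set_option linter.style.haveILetI false

/-- The number of integers in a residue class in an interval. -/
lemma card_class7 {N : ℕ} (hN : 0 < N) (H : ℕ) (v : ZMod N) :
    (((Finset.Icc (-(H : ℤ)) H).filter fun x : ℤ => (x : ZMod N) = v).card : ℝ) ≤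
      (2 * H + 1) / N + 1 := by
  haveI : NeZero N := ⟨hN.ne'⟩
  have h1 : (Finset.Icc (-(H : ℤ)) H).filter (fun x : ℤ => (x : ZMod N) = v) =
      (Finset.Ico (-(H : ℤ)) (H + 1)).filter (fun x : ℤ => x ≡ (v.val : ℤ) [ZMOD (N : ℤ)]) := by
    ext x
    rw [Finset.mem_filter, Finset.mem_filter, Finset.mem_Icc, Finset.mem_Ico,
      ← ZMod.intCast_eq_intCast_iff, Int.lt_add_one_iff]
    simp
  rw [h1]
  have h2 := Int.Ico_filter_modEq_card (-(H : ℤ)) (H + 1) (r := (N : ℤ)) (by exact_mod_cast hN)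
    (v.val : ℤ)
  have h3 : (((Finset.Ico (-(H : ℤ)) (H + 1)).filter
      (fun x : ℤ => x ≡ (v.val : ℤ) [ZMOD (N : ℤ)])).card : ℤ) ≤ ⌊((2 * H + 1 : ℚ) / N + 1)⌋ := by
    rw [h2]
    apply max_le
    · rw [Int.le_floor]
      push_cast
      have h4 := Int.ceil_lt_add_one (((H : ℚ) + 1 - v.val) / N)
      have h5 := Int.le_ceil ((-(H : ℚ) - v.val) / N)
      have h6 : (2 * (H : ℚ) + 1) / N = ((H : ℚ) + 1 - v.val) / N - (-(H : ℚ) - v.val) / N := by
        ring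
      rw [h6]
      linarith
    · apply Int.floor_nonneg.mpr
      positivity
  have h4 : ((((Finset.Ico (-(H : ℤ)) (H + 1)).filter
      (fun x : ℤ => x ≡ (v.val : ℤ) [ZMOD (N : ℤ)])).card : ℤ) : ℚ) ≤ (2 * H + 1 : ℚ) / N + 1 :=
    (Int.cast_le.mpr h3).trans (Int.floor_le _)
  have h5 : ((((((Finset.Ico (-(H : ℤ)) (H + 1)).filter
      (fun x : ℤ => x ≡ (v.val : ℤ) [ZMOD (N : ℤ)])).card : ℤ) : ℚ)) : ℝ) ≤
      (((2 * H + 1 : ℚ) / N + 1 : ℚ) : ℝ) := by exact_mod_cast h4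
  push_cast at h5
  exact h5

/-- The number of integral vectors in a box whose reduction lies in a given set. -/
lemma card_box7 {N : ℕ} (hN : 0 < N) (m H : ℕ) (A : Finset (Fin m → ZMod N)) :
    (({a : Fin m → ℤ | (∀ i, |a i| ≤ H) ∧ (fun i => (a i : ZMod N)) ∈ A}.ncard : ℝ)) ≤
      A.card * ((2 * H + 1) / N + 1) ^ m := by
  have h1 : {a : Fin m → ℤ | (∀ i, |a i| ≤ H) ∧ (fun i => (a i : ZMod N)) ∈ A} ⊆
      (A.biUnion fun v => Fintype.piFinset fun i =>
        (Finset.Icc (-(H : ℤ)) H).filter fun x : ℤ => (x : ZMod N) = v i : Finset (Fin m → ℤ)) := by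
    rintro a ⟨h2, h3⟩
    rw [Finset.coe_biUnion, Set.mem_iUnion₂]
    refine ⟨_, h3, ?_⟩
    rw [Finset.mem_coe, Fintype.mem_piFinset]
    intro i
    rw [Finset.mem_filter, Finset.mem_Icc]
    exact ⟨abs_le.mp (h2 i), rfl⟩
  have h2 := Set.ncard_le_ncard h1 (Finset.finite_toSet _)
  rw [Set.ncard_coe_finset] at h2
  have h3 : ((A.biUnion fun v => Fintype.piFinset fun i =>
        (Finset.Icc (-(H : ℤ)) H).filter fun x : ℤ => (x : ZMod N) = v i).card : ℝ) ≤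
      ∑ v ∈ A, ((Fintype.piFinset fun i =>
        (Finset.Icc (-(H : ℤ)) H).filter fun x : ℤ => (x : ZMod N) = v i).card : ℝ) := by
    exact_mod_cast Finset.card_biUnion_le
  refine (by exact_mod_cast h2 : _ ≤ _).trans (h3.trans ?_)
  rw [← nsmul_eq_mul]
  apply Finset.sum_le_card_nsmul
  intro v _
  rw [Fintype.card_piFinset]
  push_cast
  calc ∏ i, (((Finset.Icc (-(H : ℤ)) H).filter fun x : ℤ => (x : ZMod N) = v i).card : ℝ)
      ≤ ∏ _i : Fin m, ((2 * (H : ℝ) + 1) / N + 1) :=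
        Finset.prod_le_prod (fun _ _ => by positivity) (fun i _ => card_class7 hN H (v i))
    _ = _ := by rw [Finset.prod_const, Finset.card_univ, Fintype.card_fin]

/-- The number of the residue classes which avoid given sets modulo several primes. -/
lemma card_avoid7 (m : ℕ) (D : ∀ p : ℕ, Set (Fin m → ZMod p)) (c : ℝ) (S : Finset ℕ)
    (hprime : ∀ p ∈ S, p.Prime) (hc : c ≤ 1)
    (hD : ∀ p ∈ S, c * (p : ℝ) ^ m ≤ (D p).ncard) {N : ℕ} (hN : N = ∏ p ∈ S, p) :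
    ∃ (A : Finset (Fin m → ZMod N)),
      (A.card : ℝ) ≤ (1 - c) ^ S.card * (N : ℝ) ^ m ∧
      ∀ a : Fin m → ℤ, (∀ p ∈ S, (fun i => (a i : ZMod p)) ∉ D p) →
        (fun i => (a i : ZMod N)) ∈ A := by
  haveI : ∀ p : S, NeZero (p : ℕ) := fun p => ⟨(hprime p p.2).ne_zero⟩
  haveI : NeZero N := ⟨by
    rw [hN]
    exact Finset.prod_ne_zero_iff.mpr fun p hp => (hprime p hp).ne_zero⟩
  have hdvd : ∀ p : S, (p : ℕ) ∣ N := fun p => by
    rw [hN]
    exact Finset.dvd_prod_of_mem _ p.2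
  let ψ : (Fin m → ZMod N) → ∀ p : S, (Fin m → ZMod p) :=
    fun v p i => ZMod.castHom (hdvd p) (ZMod p) (v i)
  have hψ : Function.Injective ψ := by
    intro v w h
    funext i
    have h1 : ∀ p : S, ZMod.castHom (hdvd p) (ZMod p) (v i - w i) = 0 := by
      intro p
      rw [map_sub, sub_eq_zero]
      exact congrFun (congrFun h p) i
    have h2 : ∀ p ∈ S, p ∣ (v i - w i).val := by
      intro p hp
      have h3 := h1 ⟨p, hp⟩
      rw [ZMod.castHom_apply, ZMod.cast_eq_val, ZMod.natCast_eq_zero_iff] at h3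
      exact h3
    have h3 : N ∣ (v i - w i).val := by
      have h5 := Finset.prod_primes_dvd _ (fun p hp => (hprime p hp).prime) h2
      rwa [← hN] at h5
    have h4 : (v i - w i).val = 0 := Nat.eq_zero_of_dvd_of_lt h3 (ZMod.val_lt _)
    rw [ZMod.val_eq_zero] at h4
    exact sub_eq_zero.mp h4
  refine ⟨Finset.univ.filter fun v => ∀ p : S, ψ v p ∉ D p, ?_, ?_⟩
  · have h1 : ((Finset.univ.filter fun v => ∀ p : S, ψ v p ∉ D p).card : ℝ) ≤
        ((Fintype.piFinset fun p : S => Finset.univ.filter fun w : Fin m → ZMod p => w ∉ D p).card : ℝ) := by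
      rw [Nat.cast_le, ← Finset.card_image_of_injective _ hψ]
      apply Finset.card_le_card
      intro x hx
      obtain ⟨v, hv, rfl⟩ := Finset.mem_image.mp hx
      rw [Finset.mem_filter] at hv
      rw [Fintype.mem_piFinset]
      intro p
      rw [Finset.mem_filter]
      exact ⟨Finset.mem_univ _, hv.2 p⟩
    refine h1.trans ?_
    rw [Fintype.card_piFinset]
    push_cast
    have h2 : ∀ p : S, ((Finset.univ.filter fun w : Fin m → ZMod p => w ∉ D p).card : ℝ) ≤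
        (1 - c) * ((p : ℕ) : ℝ) ^ m := by
      intro p
      have h3 := hD p p.2
      have h4 : (D p).ncard = (Finset.univ.filter fun w : Fin m → ZMod p => w ∈ D p).card := by
        rw [← Set.ncard_coe_finset]
        congr 1
        ext w
        simp
      have h5 := Finset.card_filter_add_card_filter_not (s := (Finset.univ : Finset (Fin m → ZMod p)))
        (fun w => w ∈ D p)
      rw [Finset.card_univ, Fintype.card_fun, ZMod.card, Fintype.card_fin] at h5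
      have h6 : (((Finset.univ.filter fun w : Fin m → ZMod p => w ∈ D p).card : ℝ)) +
          ((Finset.univ.filter fun w : Fin m → ZMod p => w ∉ D p).card : ℝ) =
          ((p : ℕ) : ℝ) ^ m := by exact_mod_cast h5
      rw [h4] at h3
      linarith
    calc ∏ p : S, ((Finset.univ.filter fun w : Fin m → ZMod p => w ∉ D p).card : ℝ)
        ≤ ∏ p : S, ((1 - c) * ((p : ℕ) : ℝ) ^ m) :=
          Finset.prod_le_prod (fun _ _ => by positivity) (fun p _ => h2 p)
      _ = (1 - c) ^ S.card * ∏ p : S, ((p : ℕ) : ℝ) ^ m := by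
          rw [Finset.prod_mul_distrib, Finset.prod_const, Finset.card_univ, Fintype.card_coe]
      _ = _ := by
          congr 1
          rw [hN, Finset.prod_pow, Finset.prod_coe_sort S (fun p => (p : ℝ))]
          push_cast
          rfl
  · intro a ha
    rw [Finset.mem_filter]
    refine ⟨Finset.mem_univ _, fun p => ?_⟩
    have h1 : ψ (fun i => (a i : ZMod N)) p = fun i => (a i : ZMod p) := by
      funext i
      exact map_intCast _ _
    rw [h1]
    exact ha p p.2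

/-- **Density zero.** -/
theorem density_crt7 (m : ℕ) (D : ∀ p : ℕ, Set (Fin m → ZMod p)) (c : ℝ) (hc : 0 < c)
    (P : Set ℕ) (hP : P.Infinite) (hprime : ∀ p ∈ P, p.Prime)
    (hD : ∀ p ∈ P, c * (p : ℝ) ^ m ≤ (D p).ncard) (Good : (Fin m → ℤ) → Prop)
    (hGood : ∀ a, ∀ p ∈ P, (fun i => (a i : ZMod p)) ∈ D p → Good a) :
    Tendsto (fun H : ℕ => ({a : Fin m → ℤ | (∀ i, |a i| ≤ H) ∧ ¬ Good a}.ncard : ℝ) /
      (2 * H + 1) ^ m) atTop (𝓝 0) := by
  have hc1 : c ≤ 1 := by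
    obtain ⟨p, hp⟩ := hP.nonempty
    haveI : NeZero p := ⟨(hprime p hp).ne_zero⟩
    have h1 := hD p hp
    have h2 : ((D p).ncard : ℝ) ≤ (p : ℝ) ^ m := by
      have h3 : (D p).ncard ≤ (Set.univ : Set (Fin m → ZMod p)).ncard :=
        Set.ncard_le_ncard (Set.subset_univ _)
      rw [Set.ncard_univ, Nat.card_eq_fintype_card, Fintype.card_fun, ZMod.card,
        Fintype.card_fin] at h3
      exact_mod_cast h3
    have h4 : (0 : ℝ) < (p : ℝ) ^ m := by
      have : (0 : ℝ) < p := by exact_mod_cast (hprime p hp).pos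
      positivity
    nlinarith
  rw [Metric.tendsto_atTop]
  intro ε hε
  obtain ⟨t, ht⟩ := exists_pow_lt_of_lt_one hε (show (1 - c) < 1 by linarith)
  obtain ⟨S, hSP, hSc⟩ := hP.exists_subset_card_eq t
  obtain ⟨N, hN⟩ : ∃ N, N = ∏ p ∈ S, p := ⟨_, rfl⟩
  obtain ⟨A, hA1, hA2⟩ := card_avoid7 m D c S (fun p hp => hprime p (hSP hp)) hc1
    (fun p hp => hD p (hSP hp)) hN
  have hN0 : 0 < N := by
    rw [hN]
    exact Finset.prod_pos fun p hp => (hprime p (hSP hp)).pos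
  have hNR : (0 : ℝ) < N := by exact_mod_cast hN0
  have hlim : Tendsto (fun H : ℕ => (1 - c) ^ t * (1 + N / (2 * (H : ℝ) + 1)) ^ m) atTop
      (𝓝 ((1 - c) ^ t * (1 + 0) ^ m)) := by
    apply Tendsto.const_mul
    apply Tendsto.pow
    apply Tendsto.const_add
    apply Tendsto.div_atTop tendsto_const_nhds
    exact tendsto_atTop_add_const_right _ _
      (Tendsto.const_mul_atTop (by norm_num) tendsto_natCast_atTop_atTop)
  rw [add_zero, one_pow, mul_one] at hlim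
  obtain ⟨H0, hH0⟩ := (hlim.eventually_lt_const ht).exists_forall_of_atTop
  refine ⟨H0, fun H hH => ?_⟩
  have hpos : (0 : ℝ) < (2 * (H : ℝ) + 1) ^ m := by positivity
  rw [Real.dist_eq, sub_zero, abs_of_nonneg (by positivity), div_lt_iff₀ hpos]
  have h1 : {a : Fin m → ℤ | (∀ i, |a i| ≤ H) ∧ ¬ Good a} ⊆
      {a : Fin m → ℤ | (∀ i, |a i| ≤ H) ∧ (fun i => (a i : ZMod N)) ∈ A} := by
    rintro a ⟨h2, h3⟩
    refine ⟨h2, hA2 a fun p hp hap => h3 (hGood a p (hSP hp) hap)⟩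
  have hfin : {a : Fin m → ℤ | (∀ i, |a i| ≤ H) ∧ (fun i => (a i : ZMod N)) ∈ A}.Finite := by
    apply Set.Finite.subset (Finset.finite_toSet
      (Fintype.piFinset fun _ : Fin m => Finset.Icc (-(H : ℤ)) H))
    rintro a ⟨h2, -⟩
    rw [Finset.mem_coe, Fintype.mem_piFinset]
    intro i
    rw [Finset.mem_Icc]
    exact abs_le.mp (h2 i)
  have h2 : (({a : Fin m → ℤ | (∀ i, |a i| ≤ H) ∧ ¬ Good a}.ncard : ℝ)) ≤
      A.card * ((2 * H + 1) / N + 1) ^ m :=
    (by exact_mod_cast Set.ncard_le_ncard h1 hfin : _ ≤ _).trans (card_box7 hN0 m H A)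
  refine lt_of_le_of_lt h2 ?_
  have h3 : (A.card : ℝ) * ((2 * H + 1) / N + 1) ^ m ≤
      ((1 - c) ^ t * (1 + N / (2 * (H : ℝ) + 1)) ^ m) * (2 * (H : ℝ) + 1) ^ m := by
    have h4 : (0 : ℝ) ≤ ((2 * H + 1) / N + 1) ^ m := by positivity
    refine (mul_le_mul_of_nonneg_right hA1 h4).trans ?_
    rw [hSc, mul_assoc, mul_assoc, ← mul_pow, ← mul_pow]
    have h5 : (N : ℝ) * ((2 * H + 1) / N + 1) = (1 + N / (2 * (H : ℝ) + 1)) * (2 * H + 1) := by
      field_simp
    rw [h5]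
  exact lt_of_le_of_lt h3 (mul_lt_mul_of_pos_right (hH0 H hH) hpos)

end Pool.Agent.Lib.MP_89bcae_ag

end

section

/-!
# Integral vectors which avoid residue classes whose proportions have a divergent sum have density zero
-/

open Filter Topology

open scoped Classical

namespace Pool.Agent.Lib.MP_89bcae_ag

set_option linter.style.haveILetI false

/-- The number of the residue classes which avoid given sets modulo several coprime integers. -/
lemma card_avoidB7 (m : ℕ) (M : ℕ → ℕ) (D : ∀ p : ℕ, Set (Fin m → ZMod (M p))) (δ : ℕ → ℝ)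
    (S : Finset ℕ) (hM0 : ∀ p ∈ S, 0 < M p)
    (hcop : ∀ p ∈ S, ∀ q ∈ S, p ≠ q → Nat.Coprime (M p) (M q))
    (hD : ∀ p ∈ S, δ p * (M p : ℝ) ^ m ≤ (D p).ncard) {N : ℕ}
    (hN : N = ∏ p ∈ S, M p) :
    ∃ (A : Finset (Fin m → ZMod N)),
      (A.card : ℝ) ≤ (∏ p ∈ S, (1 - δ p)) * (N : ℝ) ^ m ∧
      ∀ a : Fin m → ℤ, (∀ p ∈ S, (fun i => (a i : ZMod (M p))) ∉ D p) →
        (fun i => (a i : ZMod N)) ∈ A := by
  haveI : ∀ p : S, NeZero (M p) := fun p => ⟨(hM0 p p.2).ne'⟩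
  haveI : NeZero N := ⟨by
    rw [hN]
    exact Finset.prod_ne_zero_iff.mpr fun p hp => (hM0 p hp).ne'⟩
  have hdvd : ∀ p : S, M p ∣ N := fun p => by
    rw [hN]
    exact Finset.dvd_prod_of_mem _ p.2
  let ψ : (Fin m → ZMod N) → ∀ p : S, (Fin m → ZMod (M p)) :=
    fun v p i => ZMod.castHom (hdvd p) (ZMod (M p)) (v i)
  have hψ : Function.Injective ψ := by
    intro v w h
    funext i
    have h1 : ∀ p : S, ZMod.castHom (hdvd p) (ZMod (M p)) (v i - w i) = 0 := by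
      intro p
      rw [map_sub, sub_eq_zero]
      exact congrFun (congrFun h p) i
    have h2 : ∀ p ∈ S, M p ∣ (v i - w i).val := by
      intro p hp
      have h3 := h1 ⟨p, hp⟩
      rw [ZMod.castHom_apply, ZMod.cast_eq_val, ZMod.natCast_eq_zero_iff] at h3
      exact h3
    have h3 : N ∣ (v i - w i).val := by
      have h5 : ∏ p ∈ S, M p ∣ (v i - w i).val := by
        apply Finset.prod_dvd_of_isRelPrime _ h2
        intro p hp q hq hpq
        exact Nat.coprime_iff_isRelPrime.mp (hcop p hp q hq hpq)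
      rwa [← hN] at h5
    have h4 : (v i - w i).val = 0 := Nat.eq_zero_of_dvd_of_lt h3 (ZMod.val_lt _)
    rw [ZMod.val_eq_zero] at h4
    exact sub_eq_zero.mp h4
  refine ⟨Finset.univ.filter fun v => ∀ p : S, ψ v p ∉ D p, ?_, ?_⟩
  · have h1 : ((Finset.univ.filter fun v => ∀ p : S, ψ v p ∉ D p).card : ℝ) ≤
        ((Fintype.piFinset fun p : S =>
          Finset.univ.filter fun w : Fin m → ZMod (M p) => w ∉ D p).card : ℝ) := by
      rw [Nat.cast_le, ← Finset.card_image_of_injective _ hψ]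
      apply Finset.card_le_card
      intro x hx
      obtain ⟨v, hv, rfl⟩ := Finset.mem_image.mp hx
      rw [Finset.mem_filter] at hv
      rw [Fintype.mem_piFinset]
      intro p
      rw [Finset.mem_filter]
      exact ⟨Finset.mem_univ _, hv.2 p⟩
    refine h1.trans ?_
    rw [Fintype.card_piFinset]
    push_cast
    have h2 : ∀ p : S, ((Finset.univ.filter fun w : Fin m → ZMod (M p) => w ∉ D p).card : ℝ) ≤
        (1 - δ p) * (M p : ℝ) ^ m := by
      intro p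
      have h3 := hD p p.2
      have h4 : (D p).ncard = (Finset.univ.filter fun w : Fin m → ZMod (M p) => w ∈ D p).card := by
        rw [← Set.ncard_coe_finset]
        congr 1
        ext w
        simp
      have h5 := Finset.card_filter_add_card_filter_not
        (s := (Finset.univ : Finset (Fin m → ZMod (M p)))) (fun w => w ∈ D p)
      rw [Finset.card_univ, Fintype.card_fun, ZMod.card, Fintype.card_fin] at h5
      have h6 : (((Finset.univ.filter fun w : Fin m → ZMod (M p) => w ∈ D p).card : ℝ)) +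
          ((Finset.univ.filter fun w : Fin m → ZMod (M p) => w ∉ D p).card : ℝ) =
          (M p : ℝ) ^ m := by exact_mod_cast h5
      rw [h4] at h3
      linarith
    calc ∏ p : S, ((Finset.univ.filter fun w : Fin m → ZMod (M p) => w ∉ D p).card : ℝ)
        ≤ ∏ p : S, ((1 - δ p) * (M p : ℝ) ^ m) :=
          Finset.prod_le_prod (fun _ _ => by positivity) (fun p _ => h2 p)
      _ = _ := by
          rw [Finset.prod_mul_distrib, Finset.prod_coe_sort S (fun p => (1 - δ p)), hN,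
            Finset.prod_pow, Finset.prod_coe_sort S (fun p => (M p : ℝ))]
          push_cast
          rfl
  · intro a ha
    rw [Finset.mem_filter]
    refine ⟨Finset.mem_univ _, fun p => ?_⟩
    have h1 : ψ (fun i => (a i : ZMod N)) p = fun i => (a i : ZMod (M p)) := by
      funext i
      exact map_intCast _ _
    rw [h1]
    exact ha p p.2

/-- **Density zero**, for residue classes modulo coprime integers whose proportions have a divergent
sum. -/
theorem density_crtB7 (m : ℕ) (M : ℕ → ℕ) (D : ∀ p : ℕ, Set (Fin m → ZMod (M p))) (δ : ℕ → ℝ)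
    (P : Set ℕ) (hM0 : ∀ p ∈ P, 0 < M p)
    (hcop : ∀ p ∈ P, ∀ q ∈ P, p ≠ q → Nat.Coprime (M p) (M q))
    (hδ : ∀ T : ℝ, ∃ S : Finset ℕ, (∀ p ∈ S, p ∈ P) ∧ T ≤ ∑ p ∈ S, δ p)
    (hD : ∀ p ∈ P, δ p * (M p : ℝ) ^ m ≤ (D p).ncard) (Good : (Fin m → ℤ) → Prop)
    (hGood : ∀ a, ∀ p ∈ P, (fun i => (a i : ZMod (M p))) ∈ D p → Good a) :
    Tendsto (fun H : ℕ => ({a : Fin m → ℤ | (∀ i, |a i| ≤ H) ∧ ¬ Good a}.ncard : ℝ) /
      (2 * H + 1) ^ m) atTop (𝓝 0) := by
  have hδ1 : ∀ p ∈ P, δ p ≤ 1 := by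
    intro p hp
    haveI : NeZero (M p) := ⟨(hM0 p hp).ne'⟩
    have h1 := hD p hp
    have h2 : ((D p).ncard : ℝ) ≤ (M p : ℝ) ^ m := by
      have h3 : (D p).ncard ≤ (Set.univ : Set (Fin m → ZMod (M p))).ncard :=
        Set.ncard_le_ncard (Set.subset_univ _)
      rw [Set.ncard_univ, Nat.card_eq_fintype_card, Fintype.card_fun, ZMod.card,
        Fintype.card_fin] at h3
      exact_mod_cast h3
    have h4 : (0 : ℝ) < (M p : ℝ) ^ m := by
      have : (0 : ℝ) < M p := by exact_mod_cast hM0 p hp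
      positivity
    nlinarith
  rw [Metric.tendsto_atTop]
  intro ε hε
  obtain ⟨S, hSP, hST⟩ := hδ (- Real.log (ε / 2))
  obtain ⟨N, hN⟩ : ∃ N, N = ∏ p ∈ S, M p := ⟨_, rfl⟩
  obtain ⟨A, hA1, hA2⟩ := card_avoidB7 m M D δ S (fun p hp => hM0 p (hSP p hp))
    (fun p hp q hq => hcop p (hSP p hp) q (hSP q hq)) (fun p hp => hD p (hSP p hp)) hN
  set t := ∏ p ∈ S, (1 - δ p) with htdef
  have ht : t < ε := by
    have h1 : t ≤ ∏ p ∈ S, Real.exp (- δ p) := by
      refine Finset.prod_le_prod (fun p hp => by linarith [hδ1 p (hSP p hp)]) fun p _ => ?_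
      linarith [Real.add_one_le_exp (- δ p)]
    rw [← Real.exp_sum, Finset.sum_neg_distrib] at h1
    have h2 : Real.exp (- ∑ p ∈ S, δ p) ≤ ε / 2 := by
      rw [← Real.le_log_iff_exp_le (by positivity)]
      linarith
    linarith
  have hN0 : 0 < N := by
    rw [hN]
    exact Finset.prod_pos fun p hp => hM0 p (hSP p hp)
  have hNR : (0 : ℝ) < N := by exact_mod_cast hN0
  have hlim : Tendsto (fun H : ℕ => t * (1 + N / (2 * (H : ℝ) + 1)) ^ m) atTop
      (𝓝 (t * (1 + 0) ^ m)) := by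
    apply Tendsto.const_mul
    apply Tendsto.pow
    apply Tendsto.const_add
    apply Tendsto.div_atTop tendsto_const_nhds
    exact tendsto_atTop_add_const_right _ _
      (Tendsto.const_mul_atTop (by norm_num) tendsto_natCast_atTop_atTop)
  rw [add_zero, one_pow, mul_one] at hlim
  obtain ⟨H0, hH0⟩ := (hlim.eventually_lt_const ht).exists_forall_of_atTop
  refine ⟨H0, fun H hH => ?_⟩
  have hpos : (0 : ℝ) < (2 * (H : ℝ) + 1) ^ m := by positivity
  rw [Real.dist_eq, sub_zero, abs_of_nonneg (by positivity), div_lt_iff₀ hpos]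
  have h1 : {a : Fin m → ℤ | (∀ i, |a i| ≤ H) ∧ ¬ Good a} ⊆
      {a : Fin m → ℤ | (∀ i, |a i| ≤ H) ∧ (fun i => (a i : ZMod N)) ∈ A} := by
    rintro a ⟨h2, h3⟩
    refine ⟨h2, hA2 a fun p hp hap => h3 (hGood a p (hSP p hp) hap)⟩
  have hfin : {a : Fin m → ℤ | (∀ i, |a i| ≤ H) ∧ (fun i => (a i : ZMod N)) ∈ A}.Finite := by
    apply Set.Finite.subset (Finset.finite_toSet
      (Fintype.piFinset fun _ : Fin m => Finset.Icc (-(H : ℤ)) H))
    rintro a ⟨h2, -⟩
    rw [Finset.mem_coe, Fintype.mem_piFinset]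
    intro i
    rw [Finset.mem_Icc]
    exact abs_le.mp (h2 i)
  have h2 : (({a : Fin m → ℤ | (∀ i, |a i| ≤ H) ∧ ¬ Good a}.ncard : ℝ)) ≤
      A.card * ((2 * H + 1) / N + 1) ^ m :=
    (by exact_mod_cast Set.ncard_le_ncard h1 hfin : _ ≤ _).trans (card_box7 hN0 m H A)
  refine lt_of_le_of_lt h2 ?_
  have h3 : (A.card : ℝ) * ((2 * H + 1) / N + 1) ^ m ≤
      (t * (1 + N / (2 * (H : ℝ) + 1)) ^ m) * (2 * (H : ℝ) + 1) ^ m := by
    have h4 : (0 : ℝ) ≤ ((2 * H + 1) / N + 1) ^ m := by positivity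
    refine (mul_le_mul_of_nonneg_right hA1 h4).trans ?_
    rw [mul_assoc, mul_assoc, ← mul_pow, ← mul_pow]
    have h5 : (N : ℝ) * ((2 * H + 1) / N + 1) = (1 + N / (2 * (H : ℝ) + 1)) * (2 * H + 1) := by
      field_simp
    rw [h5]
  exact lt_of_le_of_lt h3 (mul_lt_mul_of_pos_right (hH0 H hH) hpos)


end Pool.Agent.Lib.MP_89bcae_ag

end

section

/-!
# Polynomials with integral coefficients in a box: elementary lemmas
-/

open Polynomial Filter Topology

open scoped Classical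

namespace Pool.Agent.Lib.MP_89bcae_ag

set_option linter.style.haveILetI false

section Vec

lemma map_vecPoly8 {n : ℕ} (a : Fin (n + 1) → ℤ) (p : ℕ) :
    (vecPoly7 a).map (Int.castRingHom (ZMod p)) = polyOf8 (fun i => (a i : ZMod p)) := by
  unfold vecPoly7 polyOf8
  rw [Polynomial.map_sum]
  refine Finset.sum_congr rfl fun i _ => ?_
  rw [Polynomial.map_mul, map_C, Polynomial.map_pow, map_X]
  rfl

lemma natDegree_vecPoly8 {n : ℕ} (a : Fin (n + 1) → ℤ) : (vecPoly7 a).natDegree ≤ n := by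
  unfold vecPoly7
  apply natDegree_sum_le_of_forall_le
  intro i _
  refine (natDegree_C_mul_X_pow_le _ _).trans ?_
  exact Nat.lt_succ_iff.mp i.2

lemma coeff_vecPoly8 {n : ℕ} (a : Fin (n + 1) → ℤ) (i : Fin (n + 1)) :
    (vecPoly7 a).coeff i = a i := by
  unfold vecPoly7
  rw [finsetSum_coeff, Finset.sum_eq_single i]
  · rw [coeff_C_mul, coeff_X_pow, if_pos rfl, mul_one]
  · intro j _ hj
    rw [coeff_C_mul, coeff_X_pow, if_neg (fun h => hj (Fin.ext h.symm)), mul_zero]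
  · exact fun h => absurd (Finset.mem_univ _) h

end Vec

/-- From density zero of the complement to density one. -/
lemma density_one8 (m : ℕ) (Good : (Fin m → ℤ) → Prop)
    (h : Tendsto (fun H : ℕ => ({a : Fin m → ℤ | (∀ i, |a i| ≤ H) ∧ ¬ Good a}.ncard : ℝ) /
      (2 * H + 1) ^ m) atTop (𝓝 0)) :
    Tendsto (fun H : ℕ => ({a : Fin m → ℤ | (∀ i, |a i| ≤ H) ∧ Good a}.ncard : ℝ) /
      (2 * H + 1) ^ m) atTop (𝓝 1) := by
  have h1 : Tendsto (fun H : ℕ => 1 -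
      ({a : Fin m → ℤ | (∀ i, |a i| ≤ H) ∧ ¬ Good a}.ncard : ℝ) / (2 * H + 1) ^ m) atTop
      (𝓝 (1 - 0)) := tendsto_const_nhds.sub h
  rw [sub_zero] at h1
  refine h1.congr fun H => ?_
  have hbox : ({a : Fin m → ℤ | ∀ i, |a i| ≤ H}) =
      ((Fintype.piFinset fun _ : Fin m => Finset.Icc (-(H : ℤ)) H : Finset (Fin m → ℤ)) :
        Set (Fin m → ℤ)) := by
    ext a
    rw [Finset.mem_coe, Fintype.mem_piFinset]
    simp only [Set.mem_ofPred_eq, Finset.mem_Icc, abs_le]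
  have hfin : ({a : Fin m → ℤ | ∀ i, |a i| ≤ H}).Finite := by
    rw [hbox]
    exact Finset.finite_toSet _
  have hcard : (({a : Fin m → ℤ | ∀ i, |a i| ≤ H}).ncard : ℝ) = (2 * H + 1) ^ m := by
    rw [hbox, Set.ncard_coe_finset, Fintype.card_piFinset, Finset.prod_const, Finset.card_univ,
      Fintype.card_fin, Int.card_Icc]
    push_cast
    congr 1
    have h3 : ((H : ℤ) + 1 - -(H : ℤ)).toNat = 2 * H + 1 := by omega
    rw [h3]
    push_cast
    ring
  have hsplit : ({a : Fin m → ℤ | (∀ i, |a i| ≤ H) ∧ Good a}).ncard +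
      ({a : Fin m → ℤ | (∀ i, |a i| ≤ H) ∧ ¬ Good a}).ncard =
      ({a : Fin m → ℤ | ∀ i, |a i| ≤ H}).ncard := by
    have hdisj : Disjoint {a : Fin m → ℤ | (∀ i, |a i| ≤ H) ∧ Good a}
        {a : Fin m → ℤ | (∀ i, |a i| ≤ H) ∧ ¬ Good a} := by
      rw [Set.disjoint_left]
      rintro a ⟨-, h3⟩ ⟨-, h4⟩
      exact h4 h3
    rw [← Set.ncard_union_eq hdisj (hfin.subset fun a ha => ha.1) (hfin.subset fun a ha => ha.1)]
    congr 1
    ext a
    simp only [Set.mem_union, Set.mem_ofPred_eq]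
    tauto
  have hpos : (0 : ℝ) < (2 * (H : ℝ) + 1) ^ m := by positivity
  rw [eq_div_iff hpos.ne', sub_mul, div_mul_cancel₀ _ hpos.ne', one_mul, ← hcard, ← hsplit]
  push_cast
  ring


end Pool.Agent.Lib.MP_89bcae_ag

end

section

/-!
# Transitivity on the pairs of roots of `D` over the cyclotomic field
-/

open Polynomial

set_option linter.unusedVariables false
set_option linter.unusedSectionVars false
set_option linter.style.haveILetI false

universe u v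

namespace Pool.Agent.Lib.MP_89bcae_ag

/-- Type A over a ring with residue field `ZMod p`: separability. -/
theorem separable_of_typeAX14 {K : Type u} [Field K] [CharZero K] {D : ℤ[X]} {n : ℕ}
    (hD : D.natDegree ≤ n) (hn : 1 ≤ n) {p : ℕ} [Fact p.Prime]
    (h : TypeAX14 (D.map (Int.castRingHom (ZMod p))) n) :
    (D.map (Int.castRingHom K)).Separable := by
  obtain ⟨hDn, hlc⟩ := lead_of_red14 hD hn h.2
  have h1 := separable_of_typeS14 K (g := X) (D := D) monic_X (by rw [natDegree_X]; exact one_ne_zero)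
    hD hn (p := p) ⟨h.2, by
      rw [map_X, comp_X]
      exact PerfectField.separable_of_irreducible h.1⟩
  have h2 := h1.2
  rwa [comp_X] at h2

/-- **Transitivity on the pairs of roots of `D`**, `k` embedded in `ℚ_p` and in `ℚ_q`. -/
theorem pair2_of_types14 {k : Type u} [Field k] [CharZero k] {F : Type v} [Field F] [Algebra k F]
    [IsAlgClosed F] [Algebra.IsAlgebraic k F] {p q : ℕ} [Fact p.Prime] [Fact q.Prime]
    (φ : k →+* ℚ_[p]) (ψ : k →+* ℚ_[q]) {D : ℤ[X]} {n : ℕ} (hD : D.natDegree ≤ n) (hn : 3 ≤ n)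
    (hA : TypeAX14 (D.map (Int.castRingHom (ZMod p))) n)
    (hB : TypeBX14 (D.map (Int.castRingHom (ZMod q))) n) :
    (D.map (Int.castRingHom k)).Separable ∧
      IsPairTransitive7 k F X (D.map (Int.castRingHom k)) := by
  have hsep : (D.map (Int.castRingHom k)).Separable := separable_of_typeAX14 hD (by omega) hA
  refine ⟨hsep, pairTransitiveX14 ?_ ?_⟩
  · obtain ⟨R, _, _, _, _, _, π, hπ, -, -, hunit⟩ := exists_local_ring7 φ
    exact typeAX_of_ring14 R π hπ hunit hD (by omega) hA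
  · obtain ⟨R, _, _, _, _, _, π, hπ, -, -, hunit⟩ := exists_local_ring7 ψ
    exact typeBX_of_ring14 R π hπ hunit hD hn hsep hB


end Pool.Agent.Lib.MP_89bcae_ag

end

section

/-!
# Density one for the good polynomials
-/

open Polynomial Filter Topology

open scoped Classical

set_option linter.unusedVariables false
set_option linter.unusedSectionVars false
set_option linter.style.haveILetI false

namespace Pool.Agent.Lib.MP_89bcae_ag

/-- The primes in a residue class modulo `q`, from some point on. -/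
lemma infinite_primes_unit7 (q : ℕ) [NeZero q] {u : ZMod q} (hu : IsUnit u) (P₀ : ℕ) :
    {p : ℕ | p.Prime ∧ P₀ ≤ p ∧ (p : ZMod q) = u}.Infinite := by
  have h1 := Nat.infinite_setOfPred_prime_and_eq_mod (q := q) (a := u) hu
  have h2 := h1.sdiff (Set.finite_lt_nat P₀)
  refine h2.mono ?_
  rintro p ⟨⟨hp, hp1⟩, hp0⟩
  exact ⟨hp, not_lt.mp hp0, hp1⟩

/-- **Density one.** It suffices to treat the polynomials `D` which have, modulo suitable primes
in a residue class modulo `q`, the types A, B, a simple collision and a simple pole. -/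
theorem superDensityUnit7 (q : ℕ) [NeZero q] {u : ZMod q} (hu : IsUnit u) {g : ℤ[X]} (hg : g.Monic) (hd : g.natDegree ≠ 0) {n : ℕ}
    (hn : 3 ≤ n) (P₀ : ℕ) (Good : (Fin (n + 1) → ℤ) → Prop)
    (hGood : ∀ a : Fin (n + 1) → ℤ, (vecPoly7 a).natDegree = n →
      (((vecPoly7 a).comp g).map (Int.castRingHom ℚ)).Separable →
      (∃ (p : ℕ) (_ : Fact p.Prime), P₀ ≤ p ∧ (p : ZMod q) = u ∧
        TypeAX14 ((vecPoly7 a).map (Int.castRingHom (ZMod p))) n) →
      (∃ (p : ℕ) (_ : Fact p.Prime), P₀ ≤ p ∧ (p : ZMod q) = u ∧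
        TypeBX14 ((vecPoly7 a).map (Int.castRingHom (ZMod p))) n) →
      (∃ p : ℕ, p.Prime ∧ P₀ ≤ p ∧ (p : ZMod q) = u ∧ IsCollisionZ8 p g (vecPoly7 a) ∧
        ¬ (p : ℤ) ∣ (vecPoly7 a).coeff n) →
      (∃ p : ℕ, p.Prime ∧ P₀ ≤ p ∧ (p : ZMod q) = u ∧ IsPoleZ14 p g (vecPoly7 a) n) →
      Good a) :
    Tendsto (fun H : ℕ => ({a : Fin (n + 1) → ℤ | (∀ i, |a i| ≤ H) ∧ Good a}.ncard : ℝ) /
      (2 * H + 1) ^ (n + 1)) atTop (𝓝 1) := by
  obtain ⟨d, hdeg⟩ : ∃ d, g.natDegree = d := ⟨_, rfl⟩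
  rw [hdeg] at hd
  obtain ⟨cA, hcA, PA, hA⟩ := count_typeAX14 n (by omega)
  obtain ⟨cB, hcB, PB, hB⟩ := count_typeBX14 n (by omega)
  obtain ⟨cC, hcC, PC, hC⟩ := count_typeC14 n (by omega) d hd
  obtain ⟨cE, hcE, PE, hE⟩ := count_typeE14 n (by omega) d hd
  obtain ⟨cS, hcS, PS, hS⟩ := count_typeS14 n (by omega) d hd
  -- the five events
  let GA : (Fin (n + 1) → ℤ) → Prop := fun a => ∃ (p : ℕ) (_ : Fact p.Prime), P₀ ≤ p ∧
    (p : ZMod q) = u ∧ TypeAX14 ((vecPoly7 a).map (Int.castRingHom (ZMod p))) n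
  let GB : (Fin (n + 1) → ℤ) → Prop := fun a => ∃ (p : ℕ) (_ : Fact p.Prime), P₀ ≤ p ∧
    (p : ZMod q) = u ∧ TypeBX14 ((vecPoly7 a).map (Int.castRingHom (ZMod p))) n
  let GS : (Fin (n + 1) → ℤ) → Prop := fun a => ∃ (p : ℕ) (_ : Fact p.Prime),
    TypeS14 (g.map (Int.castRingHom (ZMod p))) ((vecPoly7 a).map (Int.castRingHom (ZMod p))) n
  let GC : (Fin (n + 1) → ℤ) → Prop := fun a => ∃ p : ℕ, p.Prime ∧ P₀ ≤ p ∧ (p : ZMod q) = u ∧
    IsCollisionZ8 p g (vecPoly7 a) ∧ ¬ (p : ℤ) ∣ (vecPoly7 a).coeff n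
  let GE : (Fin (n + 1) → ℤ) → Prop := fun a => ∃ p : ℕ, p.Prime ∧ P₀ ≤ p ∧ (p : ZMod q) = u ∧
    IsPoleZ14 p g (vecPoly7 a) n
  have dA : Tendsto (fun H : ℕ => ({a : Fin (n + 1) → ℤ | (∀ i, |a i| ≤ H) ∧ ¬ GA a}.ncard : ℝ) /
      (2 * H + 1) ^ (n + 1)) atTop (𝓝 0) := by
    refine density_crt7 (n + 1) (fun p => {v | ∃ _ : Fact p.Prime, TypeAX14 (polyOf8 v) n}) cA hcA
      {p : ℕ | p.Prime ∧ max PA P₀ ≤ p ∧ (p : ZMod q) = u} (infinite_primes_unit7 q hu _)
      (fun p hp => hp.1) (fun p hp => ?_) GA (fun a p hp h => ?_)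
    · haveI : Fact p.Prime := ⟨hp.1⟩
      refine (hA p ⟨hp.1⟩ ((le_max_left _ _).trans hp.2.1)).trans ?_
      rw [Nat.cast_le]
      apply Set.ncard_le_ncard _ (Set.toFinite _)
      intro v hv
      exact ⟨⟨hp.1⟩, hv⟩
    · obtain ⟨hpp, h⟩ := h
      exact ⟨p, hpp, (le_max_right _ _).trans hp.2.1, hp.2.2, by rw [map_vecPoly8]; exact h⟩
  have dB : Tendsto (fun H : ℕ => ({a : Fin (n + 1) → ℤ | (∀ i, |a i| ≤ H) ∧ ¬ GB a}.ncard : ℝ) /
      (2 * H + 1) ^ (n + 1)) atTop (𝓝 0) := by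
    refine density_crt7 (n + 1) (fun p => {v | ∃ _ : Fact p.Prime, TypeBX14 (polyOf8 v) n}) cB hcB
      {p : ℕ | p.Prime ∧ max PB P₀ ≤ p ∧ (p : ZMod q) = u} (infinite_primes_unit7 q hu _)
      (fun p hp => hp.1) (fun p hp => ?_) GB (fun a p hp h => ?_)
    · haveI : Fact p.Prime := ⟨hp.1⟩
      refine (hB p ⟨hp.1⟩ ((le_max_left _ _).trans hp.2.1)).trans ?_
      rw [Nat.cast_le]
      apply Set.ncard_le_ncard _ (Set.toFinite _)
      intro v hv
      exact ⟨⟨hp.1⟩, hv⟩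
    · obtain ⟨hpp, h⟩ := h
      exact ⟨p, hpp, (le_max_right _ _).trans hp.2.1, hp.2.2, by rw [map_vecPoly8]; exact h⟩
  have dS : Tendsto (fun H : ℕ => ({a : Fin (n + 1) → ℤ | (∀ i, |a i| ≤ H) ∧ ¬ GS a}.ncard : ℝ) /
      (2 * H + 1) ^ (n + 1)) atTop (𝓝 0) := by
    refine density_crt7 (n + 1) (fun p => {v | ∃ _ : Fact p.Prime,
      TypeS14 (g.map (Int.castRingHom (ZMod p))) (polyOf8 v) n}) cS hcS
      {p : ℕ | p.Prime ∧ PS ≤ p ∧ (p : ZMod q) = u} (infinite_primes_unit7 q hu _)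
      (fun p hp => hp.1) (fun p hp => ?_) GS (fun a p hp h => ?_)
    · haveI : Fact p.Prime := ⟨hp.1⟩
      refine (hS p ⟨hp.1⟩ hp.2.1 g hg hdeg).trans ?_
      rw [Nat.cast_le]
      apply Set.ncard_le_ncard _ (Set.toFinite _)
      intro v hv
      exact ⟨⟨hp.1⟩, hv⟩
    · obtain ⟨hpp, h⟩ := h
      exact ⟨p, hpp, by rw [map_vecPoly8]; exact h⟩
  have hsumC : ∀ (c : ℝ), 0 < c → ∀ (P : ℕ) (T : ℝ), ∃ S : Finset ℕ,
      (∀ p ∈ S, p ∈ {p : ℕ | p.Prime ∧ P ≤ p ∧ (p : ZMod q) = u}) ∧ T ≤ ∑ p ∈ S, c / p :=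
    fun c hc P T => sum_residue_unbounded14 (q := q) (a := u) hu hc P T
  have dC : Tendsto (fun H : ℕ => ({a : Fin (n + 1) → ℤ | (∀ i, |a i| ≤ H) ∧ ¬ GC a}.ncard : ℝ) /
      (2 * H + 1) ^ (n + 1)) atTop (𝓝 0) := by
    refine density_crtB7 (n + 1) (fun p => p ^ 2) (fun p => {v | TypeC8 p g n v}) (fun p => cC / p)
      {p : ℕ | p.Prime ∧ max PC P₀ ≤ p ∧ (p : ZMod q) = u} (fun p hp => pow_pos hp.1.pos 2)
      (fun p hp q hq hpq => ?_)
      (fun T => hsumC cC hcC (max PC P₀) T) (fun p hp => ?_) GC (fun a p hp h => ?_)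
    · exact Nat.Coprime.pow 2 2 ((Nat.coprime_primes hp.1 hq.1).mpr hpq)
    · have h1 := hC p hp.1 ((le_max_left _ _).trans hp.2.1) g hg hdeg
      push_cast
      exact h1
    · have h1 : (fun i : Fin (n + 1) => ((vecPoly7 a).coeff i : ZMod (p ^ 2))) =
          fun i => (a i : ZMod (p ^ 2)) := by
        funext i
        rw [coeff_vecPoly8]
      have h3 := isCollisionZ8_of_typeC8 (p := p) (g := g) (n := n) (D := vecPoly7 a)
        (natDegree_vecPoly8 a) (by rw [h1]; exact h)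
      exact ⟨p, hp.1, (le_max_right _ _).trans hp.2.1, hp.2.2, h3⟩
  have dE : Tendsto (fun H : ℕ => ({a : Fin (n + 1) → ℤ | (∀ i, |a i| ≤ H) ∧ ¬ GE a}.ncard : ℝ) /
      (2 * H + 1) ^ (n + 1)) atTop (𝓝 0) := by
    refine density_crtB7 (n + 1) (fun p => p ^ 2) (fun p => {v | TypeE14 p g n v}) (fun p => cE / p)
      {p : ℕ | p.Prime ∧ max PE P₀ ≤ p ∧ (p : ZMod q) = u} (fun p hp => pow_pos hp.1.pos 2)
      (fun p hp q hq hpq => ?_)
      (fun T => hsumC cE hcE (max PE P₀) T) (fun p hp => ?_) GE (fun a p hp h => ?_)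
    · exact Nat.Coprime.pow 2 2 ((Nat.coprime_primes hp.1 hq.1).mpr hpq)
    · have h1 := hE p hp.1 ((le_max_left _ _).trans hp.2.1) g hg hdeg
      push_cast
      exact h1
    · have h1 : (fun i : Fin (n + 1) => ((vecPoly7 a).coeff i : ZMod (p ^ 2))) =
          fun i => (a i : ZMod (p ^ 2)) := by
        funext i
        rw [coeff_vecPoly8]
      haveI : Fact p.Prime := ⟨hp.1⟩
      have h3 := isPoleZ14_of_typeE14 (p := p) (g := g) (n := n) (by omega) (D := vecPoly7 a)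
        (natDegree_vecPoly8 a) (by rw [h1]; exact h)
      exact ⟨p, hp.1, (le_max_right _ _).trans hp.2.1, hp.2.2, h3⟩
  apply density_one8
  -- the union of the five exceptional sets
  have hsum := (((dA.add dB).add dC).add dE).add dS
  rw [add_zero, add_zero, add_zero, add_zero] at hsum
  refine squeeze_zero (fun H => by positivity) (fun H => ?_) hsum
  rw [← add_div, ← add_div, ← add_div, ← add_div]
  apply div_le_div_of_nonneg_right _ (by positivity)
  have hfin : ∀ Q : (Fin (n + 1) → ℤ) → Prop,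
      ({a : Fin (n + 1) → ℤ | (∀ i, |a i| ≤ H) ∧ Q a}).Finite := by
    intro Q
    apply Set.Finite.subset (Finset.finite_toSet
      (Fintype.piFinset fun _ : Fin (n + 1) => Finset.Icc (-(H : ℤ)) H))
    rintro a ⟨h2, -⟩
    rw [Finset.mem_coe, Fintype.mem_piFinset]
    intro i
    rw [Finset.mem_Icc]
    exact abs_le.mp (h2 i)
  let E : ((Fin (n + 1) → ℤ) → Prop) → Set (Fin (n + 1) → ℤ) := fun Q =>
    {a : Fin (n + 1) → ℤ | (∀ i, |a i| ≤ H) ∧ ¬ Q a}
  have hsub : {a : Fin (n + 1) → ℤ | (∀ i, |a i| ≤ H) ∧ ¬ Good a} ⊆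
      (((E GA ∪ E GB) ∪ E GC) ∪ E GE) ∪ E GS := by
    rintro a ⟨hbox, hbad⟩
    by_contra hcon
    simp only [E, Set.mem_union, Set.mem_ofPred_eq, not_or, not_and, not_not] at hcon
    obtain ⟨⟨⟨⟨hGA, hGB⟩, hGC⟩, hGE⟩, hGS⟩ := hcon
    obtain ⟨p, hp, hs⟩ := hGS hbox
    obtain ⟨h1, h2⟩ := separable_of_typeS14 ℚ hg (by rw [hdeg]; exact hd) (natDegree_vecPoly8 a)
      (by omega) hs
    exact hbad (hGood a h1 h2 (hGA hbox) (hGB hbox) (hGC hbox) (hGE hbox))
  have hE' : ∀ Q, (E Q).Finite := fun Q => hfin fun a => ¬ Q a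
  have h1 := Set.ncard_le_ncard hsub
    (((((hE' GA).union (hE' GB)).union (hE' GC)).union (hE' GE)).union (hE' GS))
  have h2 := Set.ncard_union_le (((E GA ∪ E GB) ∪ E GC) ∪ E GE) (E GS)
  have h3 := Set.ncard_union_le ((E GA ∪ E GB) ∪ E GC) (E GE)
  have h4 := Set.ncard_union_le (E GA ∪ E GB) (E GC)
  have h5 := Set.ncard_union_le (E GA) (E GB)
  have h6 : ({a : Fin (n + 1) → ℤ | (∀ i, |a i| ≤ H) ∧ ¬ Good a}).ncard ≤
      (E GA).ncard + (E GB).ncard + (E GC).ncard + (E GE).ncard + (E GS).ncard := by omega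
  exact_mod_cast h6

end Pool.Agent.Lib.MP_89bcae_ag

end

end
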