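import Mathlib
import Pool.Agent.Lib.MP_89bcae_ag.Brt.DefsT
import Pool.Agent.Lib.MP_89bcae_ag.Tk.K000
import Pool.Agent.Lib.MP_89bcae_ag.Tk.K035
import Pool.Agent.Lib.MP_89bcae_ag.Tk.K036
import Pool.Agent.Lib.MP_89bcae_ag.Tk.K047
import Pool.Agent.Lib.MP_89bcae_ag.Tk.K048
import Pool.Agent.Lib.MP_89bcae_ag.Tk.K052
import Pool.Agent.Lib.MP_89bcae_ag.Tk.K053

set_option linter.all false

section

attribute [local instance 100000] Pool.Agent.Lib.MP_89bcae_ag.Brt.tffFields
attribute [local instance 100000] Pool.Agent.Lib.MP_89bcae_ag.Wt.ifrNF Pool.Agent.Lib.MP_89bcae_ag.Wt.iddNF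

namespace Pool.Agent.Lib.MP_89bcae_ag.Bra
end Pool.Agent.Lib.MP_89bcae_ag.Bra
namespace Pool.Agent.Lib.MP_89bcae_ag.Sup
end Pool.Agent.Lib.MP_89bcae_ag.Sup
namespace Pool.Agent.Lib.MP_89bcae_ag.Wt
end Pool.Agent.Lib.MP_89bcae_ag.Wt
namespace Pool.Agent.Lib.MP_89bcae_ag.Wt.Lns
end Pool.Agent.Lib.MP_89bcae_ag.Wt.Lns
namespace Pool.Agent.Lib.MP_89bcae_ag.Wt.Lns.LocCtx
end Pool.Agent.Lib.MP_89bcae_ag.Wt.Lns.LocCtx

section

namespace Pool.Agent.Lib.MP_89bcae_ag.Wt.Lns.LocCtx
end Pool.Agent.Lib.MP_89bcae_ag.Wt.Lns.LocCtx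


/-!
# The generic fibre
-/

open Polynomial IsDedekindDomain IsLocalRing

open scoped Classical

namespace Pool.Agent.Lib.MP_89bcae_ag.Brt

open Pool.Agent.Lib.MP_89bcae_ag.Sup (LocCtx plc exists_locCtx)

open Pool.Agent.Lib.MP_89bcae_ag.Wt Pool.Agent.Lib.MP_89bcae_ag.Wt.Lns Pool.Agent.Lib.MP_89bcae_ag.Bra

/-! ROW B8 -/

theorem B8_map {F L' Ω : Type} [Field F] [Field L'] [Algebra F[X] L'] [Field Ω] [Algebra L' Ω] (g : F[X]) :
    (ft F L' g).map (algebraMap L' Ω) =
      g.map ((algebraMap L' Ω).comp ((algebraMap F[X] L').comp C)) - C (algebraMap L' Ω (algebraMap F[X] L' X)) := by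
  rw [ft, Polynomial.map_sub, Polynomial.map_map, Polynomial.map_C]

theorem B8_range {F Ω : Type} [Field F] [IsAlgClosed F] [Field Ω] (φ : F →+* Ω) {p : F[X]} (hp : p ≠ 0) {θ : Ω}
    (h : (p.map φ).eval θ = 0) : ∃ c : F, φ c = θ := by
  letI := φ.toAlgebra
  have h1 : IsIntegral F θ := by
    have : IsAlgebraic F θ := ⟨p, hp, by rw [Polynomial.aeval_def, ← Polynomial.eval_map]; exact h⟩
    exact this.isIntegral
  have h4 : (minpoly F θ).degree = 1 := IsAlgClosed.degree_eq_one_of_irreducible F (minpoly.irreducible h1)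
  exact minpoly.mem_range_of_degree_eq_one F θ h4

/-- PROOF. A multiple root `θ` of `g - t` in `Ω` is a root of `g'`, so it is in `F` (algebraically closed), and `t = g(θ)` is in
`F`, contradiction with `hinj`. -/
theorem good_ft {F L' Ω : Type} [Field F] [IsAlgClosed F] [Field L'] [Algebra F[X] L'] [Field Ω]
    [Algebra L' Ω] [IsAlgClosure L' Ω] {ℓ : ℕ} (hℓ : ℓ.Prime) (hℓF : (ℓ : F) ≠ 0)
    (hinj : Function.Injective (algebraMap F[X] L')) {g : F[X]} (hg : g.Monic)
    (hcop : g.natDegree.Coprime ℓ) (hg' : derivative g ≠ 0) :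
    ((ft F L' g).map (algebraMap L' Ω)).Separable ∧ IsGood ℓ ((ft F L' g).map (algebraMap L' Ω)) := by
  have hΩ : IsAlgClosed Ω := IsAlgClosure.isAlgClosed L'
  rw [B8_map]
  set φ : F →+* Ω := (algebraMap L' Ω).comp ((algebraMap F[X] L').comp C) with hφ
  set t : Ω := algebraMap L' Ω (algebraMap F[X] L' X) with ht
  have hsep : (g.map φ - C t).Separable := by
    rw [Polynomial.Separable, Polynomial.isCoprime_iff_aeval_ne_zero_of_isAlgClosed Ω Ω]
    intro θ
    by_contra hcon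
    push Not at hcon
    obtain ⟨h1, h2⟩ := hcon
    rw [Polynomial.coe_aeval_eq_eval, Polynomial.eval_sub, Polynomial.eval_C, sub_eq_zero] at h1
    rw [Polynomial.coe_aeval_eq_eval, Polynomial.derivative_sub, Polynomial.derivative_C, sub_zero, Polynomial.derivative_map] at h2
    obtain ⟨c, rfl⟩ := B8_range φ hg' h2
    rw [Polynomial.eval_map, Polynomial.eval₂_hom] at h1
    have h3 : algebraMap F[X] L' (C (g.eval c)) = algebraMap F[X] L' X := (algebraMap L' Ω).injective h1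
    have h4 := hinj h3
    have h5 := congrArg Polynomial.natDegree h4
    simp at h5
  have hdeg : (g.map φ - C t).natDegree = g.natDegree := by
    rw [Polynomial.natDegree_sub_C, Polynomial.natDegree_map]
  refine ⟨hsep, ⟨hΩ, hℓ.one_lt, ?_, ?_, ?_⟩⟩
  · intro h
    apply hℓF
    apply φ.injective
    rw [map_natCast, map_zero]
    exact h
  · intro θ hθ
    have hne : g.map φ - C t ≠ 0 := hsep.ne_zero
    have h1 : (g.map φ - C t).rootMultiplicity θ ≤ 1 := Polynomial.rootMultiplicity_le_one_of_separable hsep θ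
    have h2 : 0 < (g.map φ - C t).rootMultiplicity θ := (Polynomial.rootMultiplicity_pos hne).mpr hθ
    rw [show (g.map φ - C t).rootMultiplicity θ = 1 by omega]
    exact Nat.coprime_one_left ℓ
  · rw [hdeg]
    exact hcop

end Pool.Agent.Lib.MP_89bcae_ag.Brt

end

section

namespace Pool.Agent.Lib.MP_89bcae_ag.Wt.Lns.LocCtx
end Pool.Agent.Lib.MP_89bcae_ag.Wt.Lns.LocCtx


/-!
# Local triviality at all places
-/

open Polynomial IsDedekindDomain IsLocalRing

open scoped Classical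

namespace Pool.Agent.Lib.MP_89bcae_ag.Brt

open Pool.Agent.Lib.MP_89bcae_ag.Sup (LocCtx plc exists_locCtx)

open Pool.Agent.Lib.MP_89bcae_ag.Wt Pool.Agent.Lib.MP_89bcae_ag.Wt.Lns Pool.Agent.Lib.MP_89bcae_ag.Bra

section

variable {F L L' Ω : Type} [Field F] [IsAlgClosed F] [Field L] [Algebra F[X] L]
  [IsFractionRing F[X] L] [Field L'] [Algebra L L'] [Algebra F[X] L'] [IsScalarTower F[X] L L']
  [Field Ω] [Algebra L Ω] [Algebra L' Ω] [IsScalarTower L L' Ω] [IsAlgClosure L' Ω] {ℓ r : ℕ}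
  {g D : F[X]} {s : L'} {ζ : F} [hG : IsGood ℓ ((ft F L' g).map (algebraMap L' Ω))]

/-- The class of a cochain whose coboundary is the divisor of an unramified cocycle is locally trivial. -/
theorem lto_of_unr (hℓ : ℓ.Prime) (hℓF : (ℓ : F) ≠ 0) (hζ : IsPrimitiveRoot ζ ℓ) (hg : g.Monic)
    (hg0 : g.natDegree ≠ 0) (hsep : ((ft F L' g).map (algebraMap L' Ω)).Separable)
    (hs : IntermediateField.adjoin L {s} = ⊤) (heq : s ^ ℓ ^ r = algebraMap F[X] L' D)
    (hD : (D.comp g).Separable)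
    (b : (Ω ≃ₐ[L'] Ω) → (Ω ≃ₐ[L'] Ω) → (FunField ℓ ((ft F L' g).map (algebraMap L' Ω)))ˣ)
    (hb : ICoc b) (hu : IUnr F b)
    (C : (Ω ≃ₐ[L'] Ω) → (Pt ℓ ((ft F L' g).map (algebraMap L' Ω)) →₀ ℤ)) (hC : IDiv b C)
    (hn : ∃ n : ℕ, ∀ g', ℓ ^ n • (cl (C g') : Jac ℓ ((ft F L' g).map (algebraMap L' Ω))) = 0) :
    LTo F L ℓ (ft F L' g) fun g' => cl (C g') := by
  intro v M _ _ _ _ _ j
  obtain ⟨a, rfl⟩ := exists_eq_plc v
  by_cases ha : D.eval a = 0
  · exact ltj_ram hℓ hℓF hζ hg hg0 hsep hs heq hD a ha j b hb hu C hC hn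
  · exact ltj_unram hℓ hℓF hζ hg hg0 hsep hs heq a ha j b hb hu C hC hn

end

end Pool.Agent.Lib.MP_89bcae_ag.Brt

end

section

/-!
# The theorem on the Brauer group of the surfaces `s ^ (ℓ ^ r) = D(g(x) - y ^ ℓ)`
-/

open Polynomial IsDedekindDomain

open scoped Classical

namespace Pool.Agent.Lib.MP_89bcae_ag.Brt

open Pool.Agent.Lib.MP_89bcae_ag.Wt Pool.Agent.Lib.MP_89bcae_ag.Wt.Lns Pool.Agent.Lib.MP_89bcae_ag.Bra

/-- The coboundaries are locally trivial. -/
lemma ltj_cob {L' Ω Lv M : Type} [Field L'] [Field Ω] [Algebra L' Ω] [Field Lv] [Field M]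
    [Algebra Lv M] {ℓ : ℕ} {f : L'[X]} [hG : IsGood ℓ (f.map (algebraMap L' Ω))] {j : Ω →+* M}
    (Q : JacOver ℓ f Ω) : LTj (Lv := Lv) ℓ f j fun σ => symJ (gs f σ) Q - Q := by
  refine ⟨jacMap ℓ j (Polynomial.map_map (algebraMap L' Ω) j f) Q, fun g g' hg h => ?_⟩
  rw [map_sub]
  congr 1
  unfold symJ
  rw [jacMap_jacMap ℓ _ _ _ _ (by
      rw [← Polynomial.map_map, (gs f g').2, Polynomial.map_map]),
    jacMap_jacMap ℓ _ _ _ _ (by
      rw [← Polynomial.map_map, Polynomial.map_map (algebraMap L' Ω), hg])]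
  apply G13_jacMap_congr
  ext z
  exact h z

/-- The theorem for general fields `L' = F(t, s)` and algebraic closures. -/
theorem tower_aux {ℓ r : ℕ} (hℓ : ℓ.Prime) {k F K L' Ω S : Type} [Field k] [Field F] [Algebra k F]
    [IsAlgClosure k F] [Field K] [Algebra F K] [Field S] [Algebra K S] [IsAlgClosure K S]
    [Field L'] [Algebra (RatFunc F) L'] [Algebra F[X] L'] [IsScalarTower F[X] (RatFunc F) L']
    [Field Ω] [Algebra (RatFunc F) Ω] [IsAlgClosure (RatFunc F) Ω] [Algebra L' Ω]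
    [IsScalarTower (RatFunc F) L' Ω] [IsAlgClosure L' Ω]
    (hk : (ℓ : k) ≠ 0) {g D : k[X]} (hg : g.Monic) (hcop : g.natDegree.Coprime ℓ)
    (hD0 : D.natDegree ≠ 0) (hD : (D.comp g).Separable)
    (hT : ∀ k' : IntermediateField k F, FiniteDimensional k k' →
      ∀ s : Ω, s ^ ℓ ^ r = base k F (RatFunc F) Ω D →
        Superelliptic.NoTateClassOver ℓ k F (RatFunc F) g 1 (cover k' F (RatFunc F) s))
    {x y : K} {s' : L'} (hind : AlgebraicIndependent F ![x, y])
    (hs : IntermediateField.adjoin (RatFunc F) {s'} = ⊤)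
    (heq : s' ^ ℓ ^ r = algebraMap F[X] L' (D.map (algebraMap k F))) (i : L' →+* K)
    (hi : ∀ p : F[X], i (algebraMap F[X] L' p) =
      aeval (aeval x (g.map (algebraMap k F)) - y ^ ℓ) p)
    (hgen : ∀ M : Subfield K, (∀ z : L', i z ∈ M) → x ∈ M → y ∈ M → M = ⊤) :
    (∀ k' : IntermediateField k F, FiniteDimensional k k' →
      BrauerInvariantsTrivial ℓ S k' x y (i s')) ∧
    ∀ (E : IntermediateField F K), (∀ c ∈ E, ∃ l : L', i l = c) → (∀ l : L', i l ∈ E) →
      ∀ (n : ℕ) (P : CommRing.Pic (Ax E x)), ∃ Q : CommRing.Pic (Ax E x), P = Q ^ ℓ ^ n := by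
  have hFa : IsAlgClosed F := IsAlgClosure.isAlgClosed k
  have hF0 : (ℓ : F) ≠ 0 := by
    rw [← map_natCast (algebraMap k F)]
    exact (_root_.map_ne_zero _).mpr hk
  have : NeZero (ℓ : F) := ⟨hF0⟩
  have : NeZero ℓ := ⟨hℓ.ne_zero⟩
  obtain ⟨ζ, hζ⟩ : ∃ ζ : F, IsPrimitiveRoot ζ ℓ :=
    HasEnoughRootsOfUnity.exists_primitiveRoot F ℓ
  set g' : F[X] := g.map (algebraMap k F) with hgdef
  set D' : F[X] := D.map (algebraMap k F) with hDdef
  have hg' : g'.Monic := hg.map _
  have hdeg : g'.natDegree = g.natDegree := natDegree_map _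
  have hcop' : g'.natDegree.Coprime ℓ := by rw [hdeg]; exact hcop
  have hg0 : g'.natDegree ≠ 0 := by
    intro h0
    rw [h0, Nat.coprime_zero_left] at hcop'
    exact hℓ.one_lt.ne' hcop'
  have hD' : (D'.comp g').Separable := by
    rw [hgdef, hDdef, ← Polynomial.map_comp]
    exact hD.map
  have hD0' : D'.natDegree ≠ 0 := by rw [hDdef, natDegree_map]; exact hD0
  have hder : derivative g' ≠ 0 := by
    intro h0
    have h1 : derivative (D'.comp g') = 0 := by
      rw [derivative_comp, h0, zero_mul]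
    have h2 : D'.comp g' ≠ 0 := hD'.ne_zero
    have h3 : IsUnit (D'.comp g') := by
      have h4 := hD'
      rw [Polynomial.separable_def, h1] at h4
      exact isCoprime_zero_right.1 h4
    have h5 := natDegree_eq_zero_of_isUnit h3
    rw [natDegree_comp] at h5
    exact (mul_ne_zero hD0' hg0) h5
  have hinj : Function.Injective (algebraMap F[X] L') := by
    rw [IsScalarTower.algebraMap_eq F[X] (RatFunc F) L']
    exact (algebraMap (RatFunc F) L').injective.comp (IsFractionRing.injective F[X] (RatFunc F))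
  obtain ⟨hsep, hG⟩ := good_ft (Ω := Ω) hℓ hF0 hinj hg' hcop' hder
  have hfin : FiniteDimensional (RatFunc F) L' := by
    have h1 : IsIntegral (RatFunc F) s' := by
      refine ⟨X ^ ℓ ^ r - C (algebraMap F[X] (RatFunc F) D'), monic_X_pow_sub_C _
        (pow_ne_zero _ hℓ.ne_zero), ?_⟩
      rw [eval₂_sub, eval₂_pow, eval₂_X, eval₂_C, heq, ← IsScalarTower.algebraMap_apply, sub_self]
    have h2 : FiniteDimensional (RatFunc F) (IntermediateField.adjoin (RatFunc F) {s'}) :=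
      IntermediateField.adjoin.finiteDimensional h1
    rw [hs] at h2
    exact Module.Finite.equiv IntermediateField.topEquiv.toLinearEquiv
  have halg : ∀ z : L', IsAlgebraic F[X] z := by
    intro z
    have h1 : IsAlgebraic (RatFunc F) z := Algebra.IsAlgebraic.isAlgebraic z
    exact (IsFractionRing.isAlgebraic_iff F[X] (RatFunc F) L').2 h1
  obtain ⟨Φ, hΦ⟩ := exists_model_ft (Ω := Ω) (S := S) hℓ.pos hind i hi halg hgen
  have hBr : BrTriv ℓ L' Ω := by
    intro b hb
    refine tsen (C := F) hℓ ?_ b hb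
    have h1 : algebraMap F[X] L' (C (ℓ : F)) = (ℓ : L') := by
      rw [map_natCast, map_natCast]
    rw [← h1]
    intro h0
    have h2 := hinj (h0.trans (map_zero _).symm)
    exact hF0 (C_eq_zero.1 h2)
  have hNT : ∀ k' : IntermediateField k F, FiniteDimensional k k' →
      NTg ℓ (ℓ ^ 0) (ft F L' g') (LTo F (RatFunc F) ℓ (ft F L' g'))
        (AutC F (RatFunc F) (algebraMap L' Ω s') k') := by
    intro k' hk'
    rw [pow_zero]
    refine ntg_of_noTate hℓ g hs k' hsep (hT k' hk' _ ?_)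
    rw [← map_pow, heq, IsScalarTower.algebraMap_apply F[X] (RatFunc F) L',
      ← IsScalarTower.algebraMap_apply (RatFunc F) L' Ω]
    rfl
  have hΓ : FixFam (k := k) L' (AutC F (RatFunc F) (algebraMap L' Ω s')) := fixFam hs
  have hLT : ∀ Q : JacOver ℓ (ft F L' g') Ω, LTo F (RatFunc F) ℓ (ft F L' g')
      fun σ => symJ (gs (ft F L' g') σ) Q - Q := by
    intro Q v M _ _ _ _ _ j
    exact ltj_cob Q
  refine ⟨fun k' hk' => ?_, fun E hE1 hE2 n P => ?_⟩
  · intro b hb hu hfix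
    refine transfer (k := k) hℓ hΦ hBr hΓ hLT (fun b C hb hu hC hn =>
      lto_of_unr hℓ hF0 hζ hg' hg0 hsep hs heq hD' b hb hu C hC hn) hNT k' hk'
      (A := fun γ => (∀ c : F, c ∈ k' → γ (algebraMap K S (algebraMap F K c)) =
        algebraMap K S (algebraMap F K c)) ∧ γ (algebraMap K S x) = algebraMap K S x ∧
        γ (algebraMap K S y) = algebraMap K S y ∧
        γ (algebraMap K S (i s')) = algebraMap K S (i s')) ?_ b hb hu ?_
    · intro γ hγ
      obtain ⟨σ, h1, h2, h3⟩ := exists_of_mem_autC hs k' hγ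
      refine ⟨σ, h1, fun γ' h4 h5 h6 => ⟨fun c hc => ?_, h5, h6, ?_⟩⟩
      · have h7 := h4 (algebraMap F[X] L' (C c))
        rw [h3 c hc, hi, aeval_C] at h7
        exact h7
      · rw [h4, h2]
    · intro γ hγ n
      exact hfix γ hγ.1 hγ.2.1 hγ.2.2.1 hγ.2.2.2 n
  · obtain ⟨κ, hκ⟩ := hΦ.exists_kappa
    have hy0 : y ≠ 0 := by
      rintro rfl
      have h3 := kappa_y hΦ hκ
      rw [map_zero] at h3
      exact yF_ne_zero h3.symm
    have hxR : x ∈ Rx E x := Algebra.subset_adjoin (Set.mem_singleton x)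
    have hEl : ∀ l : L', i l ∈ Rx E x := fun l =>
      Subalgebra.algebraMap_mem (Rx E x) (⟨i l, hE2 l⟩ : E)
    have hcst : ∀ c : F, algebraMap F K c ∈ Rx E x := fun c => by
      have h1 := hEl (algebraMap F[X] L' (C c))
      rw [hi, aeval_C] at h1
      exact h1
    have hyR : y ^ ℓ ∈ Rx E x := by
      have h1 := hi X
      rw [aeval_X] at h1
      have h2 : y ^ ℓ = aeval x g' - i (algebraMap F[X] L' X) := by
        rw [h1]
        ring
      rw [h2]
      refine sub_mem ?_ (hEl _)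
      have h3 : ∀ p : F[X], aeval x p ∈ Rx E x := by
        intro p
        induction p using Polynomial.induction_on' with
        | add p q hp hq =>
          rw [map_add]
          exact add_mem hp hq
        | monomial n c =>
          rw [aeval_monomial]
          exact mul_mem (hcst c) (pow_mem hxR n)
      exact h3 g'
    obtain ⟨hDd, hFr⟩ := isDedekindDomain_Ax hℓ.ne_zero hF0 hy0 hyR (fun M hM hy =>
      hgen M (fun z => hM _ (hEl z)) (hM _ hxR) hy)
    have hMW := mordell_weil (k := k) (F := F) hℓ hΓ hLT hNT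
    obtain ⟨Q, hQ⟩ := pic_R hℓ hΦ hκ hBr hMW (fun r => kappa_Rx hΦ hκ hE1 r.1 r.2)
      (fun p => by
        obtain ⟨r, hr, hrp⟩ := exists_Rx hΦ hκ hE2 p
        exact ⟨⟨r, hr⟩, hrp⟩) hDd hFr n P
    rw [pow_zero, pow_one] at hQ
    exact ⟨Q, hQ⟩

/-- The property of the Picard group, for a subring. -/
def PicPowOver (ℓ : ℕ) {K : Type} [Field K] (A : Subring K) : Prop :=
  ∀ (n : ℕ) (P : CommRing.Pic A), ∃ Q : CommRing.Pic A, P = Q ^ ℓ ^ n

theorem picardDivisibleOver_of {ℓ : ℕ} {F K : Type} [Field F] [Field K] [Algebra F K] {t s x : K}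
    (h : ∀ (n : ℕ) (P : CommRing.Pic (integralClosure
      (Algebra.adjoin (IntermediateField.adjoin F ({t, s} : Set K)) ({x} : Set K)) K)),
      ∃ Q : CommRing.Pic (integralClosure
        (Algebra.adjoin (IntermediateField.adjoin F ({t, s} : Set K)) ({x} : Set K)) K),
        P = Q ^ ℓ ^ n) : PicardDivisibleOver ℓ F t s x := by
  change PicPowOver ℓ (affineRing F {t, s} x)
  rw [affineRing_eq]
  exact h

/-- The theorem for the fields `F(x, y, s)`. -/
theorem tower_main {ℓ r : ℕ} (hℓ : ℓ.Prime) {k F K : Type} [Field k] [Field F] [Algebra k F]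
    [IsAlgClosure k F] [Field K] [Algebra F K] (hk : (ℓ : k) ≠ 0) {g D : k[X]} (hg : g.Monic)
    (hcop : g.natDegree.Coprime ℓ) (hD0 : D.natDegree ≠ 0) (hD : (D.comp g).Separable)
    (hT : ∀ (L Ω : Type) [Field L] [Algebra F[X] L] [IsFractionRing F[X] L] [Field Ω] [Algebra L Ω]
      [IsAlgClosure L Ω] (k' : IntermediateField k F), FiniteDimensional k k' →
      ∀ s : Ω, s ^ ℓ ^ r = base k F L Ω D →
        Superelliptic.NoTateClassOver ℓ k F L g 1 (cover k' F L s))
    {x y s : K} (hK : IsTowerField ℓ r F g D x y s) :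
    (∀ (S : Type) [Field S] [Algebra K S] [IsAlgClosure K S] (k' : IntermediateField k F),
      FiniteDimensional k k' → BrauerInvariantsTrivial ℓ S k' x y s) ∧
    PicardDivisibleOver ℓ F (aeval x (g.map (algebraMap k F)) - y ^ ℓ) s x := by
  set τ : K := aeval x (g.map (algebraMap k F)) - y ^ ℓ with hτ
  let E : IntermediateField F K := IntermediateField.adjoin F {τ, s}
  have hτE : τ ∈ E := IntermediateField.subset_adjoin F _ (Set.mem_insert _ _)
  have hsE : s ∈ E := IntermediateField.subset_adjoin F _ (Set.mem_insert_of_mem _ rfl)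
  let τ' : E := ⟨τ, hτE⟩
  let s' : E := ⟨s, hsE⟩
  let _ : Algebra F[X] E := ((aeval τ' : F[X] →ₐ[F] E) : F[X] →+* E).toAlgebra
  have hmap : ∀ p : F[X], algebraMap F[X] E p = aeval τ' p := fun _ => rfl
  have hmapK : ∀ p : F[X], ((algebraMap F[X] E p : E) : K) = aeval τ p := by
    intro p
    rw [hmap]
    exact (Polynomial.aeval_algHom_apply E.val τ' p).symm
  have hinj : Function.Injective (algebraMap F[X] E) := by
    rw [injective_iff_map_eq_zero]
    intro p hp
    have h1 := hmapK p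
    rw [hp] at h1
    have h2 : AlgebraicIndependent F ![τ, x] := algInd_tau hℓ.pos _ hK.independent
    have h3 : Transcendental F τ := by
      have h4 := h2.transcendental 0
      exact h4
    exact (transcendental_iff.1 h3) p h1.symm
  let _ : Algebra (RatFunc F) E := (IsFractionRing.lift hinj : RatFunc F →+* E).toAlgebra
  have : IsScalarTower F[X] (RatFunc F) E := IsScalarTower.of_algebraMap_eq fun p =>
    (IsFractionRing.lift_algebraMap hinj p).symm
  have heq : s' ^ ℓ ^ r = algebraMap F[X] E (D.map (algebraMap k F)) := by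
    apply Subtype.ext
    rw [hmapK]
    exact hK.equation
  have hsgen : IntermediateField.adjoin (RatFunc F) {s'} = ⊤ := by
    rw [eq_top_iff]
    rintro ⟨z, hz⟩ -
    have hp : ∀ p : F[X], algebraMap F[X] E p ∈ IntermediateField.adjoin (RatFunc F) {s'} := by
      intro p
      rw [IsScalarTower.algebraMap_apply F[X] (RatFunc F) E]
      exact (IntermediateField.adjoin (RatFunc F) {s'}).algebraMap_mem _
    let M : IntermediateField F K :=
      { (IntermediateField.adjoin (RatFunc F) {s'}).toSubfield.map (algebraMap E K) with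
        algebraMap_mem' := fun c => by
          refine ⟨algebraMap F[X] E (C c), hp _, ?_⟩
          have h5 := hmapK (C c)
          rw [aeval_C] at h5
          exact h5 }
    have h1 : IntermediateField.adjoin F {τ, s} ≤ M := by
      rw [IntermediateField.adjoin_le_iff]
      intro w hw
      rcases hw with rfl | hw
      · refine ⟨algebraMap F[X] E X, hp _, ?_⟩
        have h5 := hmapK X
        rw [aeval_X] at h5
        exact h5
      · rw [Set.mem_singleton_iff.1 hw]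
        exact ⟨s', IntermediateField.mem_adjoin_simple_self _ _, rfl⟩
    obtain ⟨w, hw, hwz⟩ := h1 hz
    have h2 : w = ⟨z, hz⟩ := Subtype.ext hwz
    rw [← h2]
    exact hw
  have halg : Algebra.IsAlgebraic (RatFunc F) E := by
    have h1 : IsAlgebraic (RatFunc F) s' := by
      refine ⟨X ^ ℓ ^ r - C (algebraMap F[X] (RatFunc F) (D.map (algebraMap k F))),
        (monic_X_pow_sub_C _ (pow_ne_zero _ hℓ.ne_zero)).ne_zero, ?_⟩
      rw [map_sub, map_pow, aeval_X, aeval_C, heq, ← IsScalarTower.algebraMap_apply, sub_self]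
    have h2 : Algebra.IsAlgebraic (RatFunc F) (IntermediateField.adjoin (RatFunc F) {s'}) :=
      (IntermediateField.isAlgebraic_adjoin fun z hz => by
        rw [Set.mem_singleton_iff.1 hz]
        exact h1.isIntegral)
    rw [hsgen] at h2
    exact Algebra.IsAlgebraic.of_injective
      (IntermediateField.topEquiv (F := RatFunc F) (E := E)).symm.toAlgHom
      (AlgEquiv.injective _)
  let Ω := AlgebraicClosure E
  have hΩ : IsAlgClosure (RatFunc F) Ω :=
    ⟨inferInstance, Algebra.IsAlgebraic.trans (RatFunc F) E Ω⟩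
  have hmain := fun (S : Type) (_ : Field S) (_ : Algebra K S) (_ : IsAlgClosure K S) =>
    tower_aux (S := S) (Ω := Ω) (L' := E) (s' := s') hℓ hk hg hcop hD0 hD
    (fun k' hk' s hs => hT (RatFunc F) Ω k' hk' s hs) hK.independent hsgen heq
    (algebraMap E K) hmapK (fun M h1 h2 h3 => by
      rw [eq_top_iff]
      intro z _
      let M' : IntermediateField F K := { M with
        algebraMap_mem' := fun c => h1 (algebraMap F E c) }
      have h4 : IntermediateField.adjoin F {x, y, s} ≤ M' := by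
        rw [IntermediateField.adjoin_le_iff]
        intro w hw
        rcases hw with rfl | rfl | hw
        · exact h2
        · exact h3
        · rw [Set.mem_singleton_iff.1 hw]
          exact h1 s'
      rw [hK.generate] at h4
      exact h4 IntermediateField.mem_top)
  refine ⟨fun S i₁ i₂ i₃ k' hk' => (hmain S i₁ i₂ i₃).1 k' hk', picardDivisibleOver_of fun n P => ?_⟩
  exact (hmain (AlgebraicClosure K) inferInstance inferInstance inferInstance).2 E (fun c hc => ⟨⟨c, hc⟩, rfl⟩) (fun l => l.2) n P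

end Pool.Agent.Lib.MP_89bcae_ag.Brt

end

section

/-!
# The surfaces `s ^ (ℓ ^ r) = D(g(x) - y ^ ℓ)`: from the Selmer groups to the Brauer groups
-/

open Polynomial IsDedekindDomain

open scoped Classical

namespace Pool.Agent.Lib.MP_89bcae_ag.Brt

open Pool.Agent.Lib.MP_89bcae_ag.Bra

theorem towerTate_of {ℓ : ℕ} (hℓ : ℓ.Prime) {k : Type} [Field k] (hk : (ℓ : k) ≠ 0) {g D : k[X]}
    (hg : g.Monic) (hcop : g.natDegree.Coprime ℓ) (hD0 : D.natDegree ≠ 0)
    (hD : (D.comp g).Separable)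
    (hT : ∀ (F L Ω : Type) [Field F] [Algebra k F] [IsAlgClosure k F] [Field L] [Algebra F[X] L]
      [IsFractionRing F[X] L] [Field Ω] [Algebra L Ω] [IsAlgClosure L Ω]
      (k' : IntermediateField k F), FiniteDimensional k k' →
      ∀ (r : ℕ) (s : Ω), s ^ ℓ ^ r = base k F L Ω D →
        Superelliptic.NoTateClassOver ℓ k F L g 1 (cover k' F L s)) : TowerTate ℓ k g D := by
  refine ⟨?_, ?_⟩
  · intro r F K S _ _ _ _ _ _ _ _ x y s hK k' hk'
    exact (tower_main (r := r) hℓ hk hg hcop hD0 hD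
      (fun L Ω _ _ _ _ _ _ k' hk' s hs => hT F L Ω k' hk' r s hs) hK).1 S k' hk'
  · intro r F K _ _ _ _ _ x y s hK
    exact (tower_main (r := r) hℓ hk hg hcop hD0 hD
      (fun L Ω _ _ _ _ _ _ k' hk' s hs => hT F L Ω k' hk' r s hs) hK).2

end Pool.Agent.Lib.MP_89bcae_ag.Brt

end

end

section

attribute [local instance 100000] Pool.Agent.Lib.MP_89bcae_ag.Brt.tffFields
attribute [local instance 100000] Pool.Agent.Lib.MP_89bcae_ag.Wt.ifrNF Pool.Agent.Lib.MP_89bcae_ag.Wt.iddNF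

namespace Pool.Agent.Lib.MP_89bcae_ag
end Pool.Agent.Lib.MP_89bcae_ag
namespace Pool.Agent.Lib.MP_89bcae_ag.Superelliptic
end Pool.Agent.Lib.MP_89bcae_ag.Superelliptic

section

/-!
# The final theorem for all towers
-/

open Polynomial

namespace Pool.Agent.Lib.MP_89bcae_ag.Tw

open Pool.Agent.Lib.MP_89bcae_ag

universe u

theorem superTwistTower (ℓ m : ℕ) (hℓ : ℓ.Prime) (hm : m.Prime) (hm2 : m ≠ 2)
    (hgen : orderOf (ℓ : ZMod (m ^ 2)) = m * (m - 1)) (κ : Type u) [Field κ] [Fintype κ]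
    (hmκ : (m : κ) ≠ 0) (hq : ℓ ∣ Fintype.card κ - 1) (hneg : ∃ a : κ, a ^ ℓ = -1) (g₀ : κ[X])
    (hg₀ : g₀.Monic) (hdeg : g₀.natDegree = m) (j : ℕ) :
    (∀ D₀ ∈ family g₀ (m ^ j), D₀ ∉ Superelliptic.exceptional ℓ g₀ (m ^ j) →
      ∀ (R : Type u) [CommRing R] [IsDomain R] [IsIntegrallyClosed R] (π : R →+* κ),
        Function.Surjective π → ∀ g D : R[X], g.Monic → g.map π = g₀ → D.natDegree = m ^ j →
        D.map π = D₀ →
      ∀ (k F L Ω : Type u) [Field k] [Algebra R k] [IsFractionRing R k] [Field F] [Algebra k F]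
        [IsAlgClosure k F] [Field L] [Algebra F[X] L] [IsFractionRing F[X] L] [Field Ω]
        [Algebra L Ω] [IsAlgClosure L Ω], (∃ ζ : k, IsPrimitiveRoot ζ ℓ) →
        ∀ (k' : IntermediateField k F) (_ : FiniteDimensional k k') (r : ℕ) (s : Ω),
          s ^ ℓ ^ r = base k F L Ω (D.map (algebraMap R k)) →
          Superelliptic.NoTateClassOver ℓ k F L (g.map (algebraMap R k)) 1 (cover k' F L s)) ∧
    (m ^ j : ℝ) * ((Superelliptic.exceptional ℓ g₀ (m ^ j)).ncard : ℝ) ≤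
      4 * (Fintype.card κ : ℝ) ^ 4 * (ℓ : ℝ) ^ (-(m ^ j : ℝ) / (4 * m)) *
        (Fintype.card κ : ℝ) ^ (m ^ j) := by
  refine ⟨?_, exceptional_card hℓ hm hm2 hmκ hq hg₀ hdeg⟩
  intro D₀ hD₀ hexc R _ _ _ π hπ g D hg hgπ hDn hDπ k F L Ω _ _ _ _ _ _ _ _ _ _ _ _ hζ k' _ r s hs
  obtain ⟨ζ, hζ⟩ := hζ
  subst hgπ hDπ
  have hgd : g.natDegree = m := by rw [← hg.natDegree_map π, hdeg]
  obtain ⟨hsep, U, hU⟩ :=
    crall_of_spec hℓ hm hm2 hgen hq hneg hπ hg hgd hDn hD₀ hexc k F hζ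
  have hinj : Function.Injective (algebraMap R k) := IsFractionRing.injective R k
  have hℓκ : (ℓ : κ) ≠ 0 := t15_ne_zero hq
  have hℓk : (ℓ : k) ≠ 0 := by
    intro h0
    apply hℓκ
    have h1 : (ℓ : R) = 0 := hinj (by rw [map_natCast, map_zero, h0])
    rw [← map_natCast π, h1, map_zero]
  have hcop : (g.map (algebraMap R k)).natDegree.Coprime ℓ := by
    rw [hg.natDegree_map, hgd]
    exact ne_of_orderOf hℓ hm hgen
  have hDk : (D.map (algebraMap R k)).natDegree ≠ 0 := by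
    rw [natDegree_map_eq_of_injective hinj, hDn]
    exact (pow_pos hm.pos j).ne'
  exact Superelliptic.NoTateClassOver.ofSup
    (Sup.main_tower k F L Ω ⟨hℓ, hℓk, hζ, hg.map _, hcop, hsep, hDk⟩
      (fun a _ => ⟨U, Set.univ, Set.mem_univ a, hU⟩) k' r s hs)

end Pool.Agent.Lib.MP_89bcae_ag.Tw

end

section

/-!
# The theorem on the surfaces with a good reduction over a finite field
-/

open Polynomial

namespace Pool.Agent.Lib.MP_89bcae_ag.Brt

open Pool.Agent.Lib.MP_89bcae_ag Pool.Agent.Lib.MP_89bcae_ag.Superelliptic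

/-- The theorem for the fields which contain a primitive `ℓ`-th root of unity. -/
theorem brauerTwist_aux (ℓ m : ℕ) (hℓ : ℓ.Prime)
    (hm : m.Prime) (hm2 : m ≠ 2) (hgen : orderOf (ℓ : ZMod (m ^ 2)) = m * (m - 1)) (κ : Type)
    [Field κ] [Fintype κ] (hmκ : (m : κ) ≠ 0) (hq : ℓ ∣ Fintype.card κ - 1)
    (hneg : ∃ a : κ, a ^ ℓ = -1) (g₀ : κ[X]) (hg₀ : g₀.Monic) (hdeg : g₀.natDegree = m) (j : ℕ)
    (D₀ : κ[X]) (hD₀ : D₀ ∈ family g₀ (m ^ j)) (hexc : D₀ ∉ Superelliptic.exceptional ℓ g₀ (m ^ j))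
    (R : Type) [CommRing R] [IsDomain R] [IsIntegrallyClosed R] (π : R →+* κ)
    (hπ : Function.Surjective π) (g D : R[X]) (hg : g.Monic) (hgπ : g.map π = g₀)
    (hDn : D.natDegree = m ^ j) (hDπ : D.map π = D₀)
    (k : Type) [Field k] [Algebra R k] [IsFractionRing R k] (hζ : ∃ ζ : k, IsPrimitiveRoot ζ ℓ) :
    TowerTate ℓ k (g.map (algebraMap R k)) (D.map (algebraMap R k)) := by
  obtain ⟨h1, -⟩ := Tw.superTwistTower ℓ m hℓ hm hm2 hgen κ hmκ hq hneg g₀ hg₀ hdeg j
  have hex := hζ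
  obtain ⟨ζ, hζ⟩ := hζ
  have hgd : g.natDegree = m := by rw [← hg.natDegree_map π, hgπ, hdeg]
  obtain ⟨hsep, -⟩ := Tw.crall_of_spec hℓ hm hm2 hgen hq hneg hπ hg hgd hDn
    (by rw [hgπ, hDπ]; exact hD₀) (by rw [hgπ, hDπ]; exact hexc) k (AlgebraicClosure k) hζ
  have hinj : Function.Injective (algebraMap R k) := IsFractionRing.injective R k
  have hℓκ : (ℓ : κ) ≠ 0 := Tw.t15_ne_zero hq
  have hℓk : (ℓ : k) ≠ 0 := by
    intro h0
    apply hℓκ
    have h1 : (ℓ : R) = 0 := hinj (by rw [map_natCast, map_zero, h0])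
    rw [← map_natCast π, h1, map_zero]
  refine towerTate_of hℓ hℓk (hg.map _) ?_ ?_ hsep ?_
  · rw [hg.natDegree_map, hgd]
    exact Tw.ne_of_orderOf hℓ hm hgen
  · rw [natDegree_map_eq_of_injective hinj, hDn]
    exact (pow_pos hm.pos j).ne'
  · intro F L Ω _ _ _ _ _ _ _ _ _ k' hk' r s hs
    exact h1 D₀ hD₀ hexc R π hπ g D hg hgπ hDn hDπ k F L Ω hex k' hk' r s hs

theorem brauerTwist (ℓ m : ℕ) (hℓ : ℓ.Prime)
    (hm : m.Prime) (hm2 : m ≠ 2) (hgen : orderOf (ℓ : ZMod (m ^ 2)) = m * (m - 1)) (κ : Type)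
    [Field κ] [Fintype κ] (hmκ : (m : κ) ≠ 0) (hq : ℓ ∣ Fintype.card κ - 1)
    (hneg : ∃ a : κ, a ^ ℓ = -1) (g₀ : κ[X]) (hg₀ : g₀.Monic) (hdeg : g₀.natDegree = m) (j : ℕ) :
    (∀ D₀ ∈ family g₀ (m ^ j), D₀ ∉ Superelliptic.exceptional ℓ g₀ (m ^ j) →
      ∀ (R : Type) [CommRing R] [IsDomain R] [IsIntegrallyClosed R] (π : R →+* κ),
        Function.Surjective π → ∀ g D : R[X], g.Monic → g.map π = g₀ → D.natDegree = m ^ j →
        D.map π = D₀ →
      ∀ (k : Type) [Field k] [Algebra R k] [IsFractionRing R k],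
        TowerTate ℓ k (g.map (algebraMap R k)) (D.map (algebraMap R k))) ∧
    (m ^ j : ℝ) * ((Superelliptic.exceptional ℓ g₀ (m ^ j)).ncard : ℝ) ≤
      4 * (Fintype.card κ : ℝ) ^ 4 * (ℓ : ℝ) ^ (-(m ^ j : ℝ) / (4 * m)) *
        (Fintype.card κ : ℝ) ^ (m ^ j) := by
  refine ⟨?_, (Tw.superTwistTower ℓ m hℓ hm hm2 hgen κ hmκ hq hneg g₀ hg₀ hdeg j).2⟩
  intro D₀ hD₀ hexc R _ _ _ π hπ g D hg hgπ hDn hDπ k _ _ _
  have hz : ∃ z : κ, IsPrimitiveRoot z ℓ := by
    classical
    obtain ⟨a, ha⟩ := IsCyclic.exists_ofOrder_eq_natCard (α := κˣ)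
    have hc : orderOf a = Fintype.card κ - 1 := by
      rw [ha, Nat.card_units]
      rw [Nat.card_eq_fintype_card]
    have h1 : (Fintype.card κ - 1) / ℓ ∣ orderOf a := by
      rw [hc]
      exact Nat.div_dvd_of_dvd hq
    have hpos : 0 < Fintype.card κ - 1 := by
      have := Fintype.one_lt_card (α := κ)
      omega
    have h2 : orderOf (a ^ ((Fintype.card κ - 1) / ℓ)) = ℓ := by
      rw [orderOf_pow_of_dvd (Nat.div_pos (Nat.le_of_dvd hpos hq) hℓ.pos).ne' h1, hc,
        Nat.div_div_self hq hpos.ne']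
    refine ⟨((a ^ ((Fintype.card κ - 1) / ℓ) : κˣ) : κ), ?_⟩
    have h3 : IsPrimitiveRoot (a ^ ((Fintype.card κ - 1) / ℓ)) ℓ := by
      have h4 := IsPrimitiveRoot.orderOf (a ^ ((Fintype.card κ - 1) / ℓ))
      rwa [h2] at h4
    exact IsPrimitiveRoot.coe_units_iff.2 h3
  obtain ⟨R', k₁, _, _, _, π', φ, _, _, _, _, _, hπ', hπφ, hφ, hζ⟩ := exists_zeta_ext hℓ hz hπ k
  have hcomp : (algebraMap R' k₁).comp φ = (algebraMap k k₁).comp (algebraMap R k) :=
    RingHom.ext hφ
  have hφi : Function.Injective φ := by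
    have h1 : Function.Injective ((algebraMap R' k₁).comp φ) := by
      rw [hcomp]
      exact (algebraMap k k₁).injective.comp (IsFractionRing.injective R k)
    exact Function.Injective.of_comp h1
  have hπc : π'.comp φ = π := RingHom.ext hπφ
  refine towerTate_of_ext (k₁ := k₁) ?_
  rw [Polynomial.map_map, Polynomial.map_map, ← hcomp, ← Polynomial.map_map, ← Polynomial.map_map]
  exact brauerTwist_aux ℓ m hℓ hm hm2 hgen κ hmκ hq hneg g₀ hg₀ hdeg j D₀ hD₀ hexc R' π' hπ'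
    (g.map φ) (D.map φ) (hg.map φ) (by rw [Polynomial.map_map, hπc, hgπ])
    (by rw [natDegree_map_eq_of_injective hφi, hDn]) (by rw [Polynomial.map_map, hπc, hDπ]) k₁ hζ

end Pool.Agent.Lib.MP_89bcae_ag.Brt

end

end
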